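import Pool.Agent.Lib.MP_aa9b81_an.Mg.G073
import Pool.Agent.Lib.MP_aa9b81_an.CutM.Defs

section

section
/-!
# Hereditary shifts, part D5b: relations of the Clifford operators
-/

open scoped ENNReal Topology
open Function

noncomputable section

namespace Pool.Agent.Lib.MP_aa9b81_an.Hs

open Cut

variable {Γ I : Type} [Group Γ] [MulAction Γ I] [DecidableEq I]

omit [Group Γ] [MulAction Γ I] in
theorem D5b_tg (i : I) (S : Finset I) : Even (tg i S).card ↔ ¬ Even S.card := by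
  unfold tg
  split_ifs with h
  · rw [Finset.card_erase_of_mem h]
    have h1 : 0 < S.card := Finset.card_pos.2 ⟨i, h⟩
    obtain ⟨n, hn⟩ : ∃ n, S.card = n + 1 := ⟨S.card - 1, by omega⟩
    rw [hn, Nat.add_sub_cancel, Nat.even_add_one, not_not]
  · rw [Finset.card_insert_of_notMem h, Nat.even_add_one]

omit [Group Γ] [MulAction Γ I] [DecidableEq I] in
theorem Pm_mul_Pm : (Pm * Pm : BL (Bs I)) = Pm := by
  refine ContinuousLinearMap.ext fun ξ => ?_
  ext b
  change (Pm (Pm ξ) : Bs I → ℂ) b = (Pm ξ : Bs I → ℂ) b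
  rw [Pm_apply, Pm_apply]
  split_ifs <;> simp

omit [Group Γ] [MulAction Γ I] [DecidableEq I] in
theorem Pp_mul_Pm : (Pp * Pm : BL (Bs I)) = 0 := by
  refine ContinuousLinearMap.ext fun ξ => ?_
  ext b
  change (Pp (Pm ξ) : Bs I → ℂ) b = 0
  rw [Pp_apply, Pm_apply]
  split_ifs <;> simp

omit [Group Γ] [MulAction Γ I] in
/-- PROOF: `(tg i S).card` and `S.card` have different parity. -/
theorem Pp_mul_Cl (e : I ↪ ℕ) {a : Finset I → I → ℝ} {C : ℝ} (h : CB a C) :
    Pp * Cl e a = Cl e a * Pm := by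
  refine ContinuousLinearMap.ext fun ξ => ?_
  ext b
  change (Pp (Cl e a ξ) : Bs I → ℂ) b = (Cl e a (Pm ξ) : Bs I → ℂ) b
  rw [Pp_apply, Cl_apply e h, Cl_apply e h, clF, clF]
  split_ifs with hb
  · refine Finset.sum_congr rfl fun i hi => ?_
    rw [Pm_apply, (tog_of_mem hi).2, if_neg]
    rw [D5b_tg]
    exact not_not.2 hb
  · symm
    refine Finset.sum_eq_zero fun i hi => ?_
    rw [Pm_apply, (tog_of_mem hi).2, if_pos ((D5b_tg i b.S).2 hb)]
    simp

omit [Group Γ] [MulAction Γ I] in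
theorem Pm_mul_Cl (e : I ↪ ℕ) {a : Finset I → I → ℝ} {C : ℝ} (h : CB a C) :
    Pm * Cl e a = Cl e a * Pp := by
  refine ContinuousLinearMap.ext fun ξ => ?_
  ext b
  change (Pm (Cl e a ξ) : Bs I → ℂ) b = (Cl e a (Pp ξ) : Bs I → ℂ) b
  rw [Pm_apply, Cl_apply e h, Cl_apply e h, clF, clF]
  split_ifs with hb
  · symm
    refine Finset.sum_eq_zero fun i hi => ?_
    rw [Pp_apply, (tog_of_mem hi).2, if_neg]
    · simp
    · rw [D5b_tg]
      exact not_not.2 hb
  · refine Finset.sum_congr rfl fun i hi => ?_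
    rw [Pp_apply, (tog_of_mem hi).2, if_pos ((D5b_tg i b.S).2 hb)]

end Pool.Agent.Lib.MP_aa9b81_an.Hs
end

end


section
/-!
# Continuous Bernoulli, part Fa: signs and Clifford operators for a general order (copied from Hs)
-/

open scoped ENNReal Topology
open Function

noncomputable section

set_option linter.unusedSectionVars false

namespace Pool.Agent.Lib.MP_aa9b81_an.Cb

open Cut Hs

variable {I O : Type} [DecidableEq I] [LinearOrder O]

-- D0
/-- The antisymmetric sign: `-1` if `e i < e j`, and `1` otherwise. -/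
def ta (e : I ↪ O) (i j : I) : ℂ := if e i < e j then -1 else 1

-- D0
/-- The sign of the Clifford operator of `i` at `S`. -/
def th (e : I ↪ O) (i : I) (S : Finset I) : ℂ := ∏ j ∈ S.erase i, ta e i j

-- D1a
theorem ta_mul_self (e : I ↪ O) (i j : I) : ta e i j * ta e i j = 1 := by
  unfold ta
  split_ifs <;> norm_num

-- D1a
theorem norm_ta (e : I ↪ O) (i j : I) : ‖ta e i j‖ = 1 := by
  unfold ta
  split_ifs <;> simp

-- D1a
/-- PROOF: `e i ≠ e j` since `e` is injective. -/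
theorem ta_swap (e : I ↪ O) {i j : I} (h : i ≠ j) : ta e j i = -ta e i j := by
  have hne : e i ≠ e j := fun h' => h (e.injective h')
  unfold ta
  rcases lt_or_gt_of_ne hne with h1 | h1
  · rw [if_neg (not_lt.2 h1.le), if_pos h1]
    norm_num
  · rw [if_pos h1, if_neg (not_lt.2 h1.le)]

-- D1b
/-- PROOF: `erase_tg`. -/
theorem th_tg_self (e : I ↪ O) (i : I) (S : Finset I) : th e i (tg i S) = th e i S := by
  unfold th
  rw [erase_tg]

-- D1b
/-- PROOF: products of signs. -/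
theorem th_mul_self (e : I ↪ O) (i : I) (S : Finset I) : th e i S * th e i S = 1 := by
  unfold th
  rw [← Finset.prod_mul_distrib]
  exact Finset.prod_eq_one fun j _ => ta_mul_self e i j

-- D1b
/-- PROOF: product of the norms `norm_ta`. -/
theorem norm_th (e : I ↪ O) (i : I) (S : Finset I) : ‖th e i S‖ = 1 := by
  unfold th
  rw [norm_prod]
  exact Finset.prod_eq_one fun j _ => norm_ta e i j

-- D1b
/-- PROOF: `(tg j S).erase i = tg j (S.erase i)` for `j ≠ i`; inserting or erasing `j` multiplies the product by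
`ta e i j` (`ta_mul_self`). -/
theorem th_tg (e : I ↪ O) {i j : I} (h : i ≠ j) (S : Finset I) :
    th e i (tg j S) = ta e i j * th e i S := by
  have h1 : (tg j S).erase i = tg j (S.erase i) := by
    ext k
    rw [Finset.mem_erase, mem_tg, mem_tg]
    constructor
    · rintro ⟨h2, h3 | h3⟩
      · exact Or.inl ⟨h3.1, fun h4 => h3.2 (Finset.mem_of_mem_erase h4)⟩
      · exact Or.inr ⟨h3.1, Finset.mem_erase.2 ⟨h2, h3.2⟩⟩
    · rintro (h3 | h3)
      · refine ⟨fun h4 => h (h4.symm.trans h3.1), Or.inl ⟨h3.1, fun h4 => h3.2 ?_⟩⟩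
        exact Finset.mem_erase.2 ⟨h.symm, h4⟩
      · exact ⟨(Finset.mem_erase.1 h3.2).1, Or.inr ⟨h3.1, (Finset.mem_erase.1 h3.2).2⟩⟩
  unfold th
  rw [h1]
  unfold tg
  by_cases h2 : j ∈ S.erase i
  · rw [if_pos h2, ← Finset.mul_prod_erase (S.erase i) (fun k => ta e i k) h2, ← mul_assoc,
      ta_mul_self, one_mul]
  · rw [if_neg h2, Finset.prod_insert h2]

-- D1b
/-- PROOF: the signs are real (`1` or `-1`). -/
theorem conj_th (e : I ↪ O) (i : I) (S : Finset I) : (starRingEnd ℂ) (th e i S) = th e i S := by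
  unfold th
  rw [map_prod]
  refine Finset.prod_congr rfl fun j _ => ?_
  unfold ta
  split_ifs <;> simp

-- D3a
omit [LinearOrder O] in
private theorem D3a_tg_subset {F S : Finset I} {i : I} (hi : i ∈ F) (hS : S ⊆ F) : tg i S ⊆ F := by
  intro k hk
  rcases mem_tg.1 hk with ⟨rfl, -⟩ | ⟨-, hk⟩
  · exact hi
  · exact hS hk

/-- PROOF. Off-diagonal cancellation. For `i ≠ j` in `F` put
`t(i, j, S) = th i S * th j S * v (tg i S) * conj (v (tg j S))`. With `S' = tg i (tg j S)` one has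
`th i S' = th i (tg j S) = ta i j * th i S` (`tg_comm`, `th_tg_self`, `th_tg`),
`th j S' = ta j i * th j S`, `tg i S' = tg j S`, `tg j S' = tg i S` (`tg_tg`, `tg_comm`), and
`ta i j * ta j i = -1` (`ta_swap`, `ta_mul_self`), so `t(i, j, S') = - t(j, i, S)`. The map `S ↦ S'` is an
involution of `F.powerset` (`i, j ∈ F`), so `∑_S t(i, j, S) = - ∑_S t(j, i, S)` (`Finset.sum_nbij'`). -/
theorem sum_offdiag (e : I ↪ O) {F : Finset I} (v : Finset I → ℂ) {i j : I} (hi : i ∈ F)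
    (hj : j ∈ F) (h : i ≠ j) :
    ∑ S ∈ F.powerset, th e i S * th e j S * (v (tg i S) * (starRingEnd ℂ) (v (tg j S))) =
      -∑ S ∈ F.powerset, th e j S * th e i S * (v (tg j S) * (starRingEnd ℂ) (v (tg i S))) := by
  have hmem : ∀ S ∈ F.powerset, tg i (tg j S) ∈ F.powerset := fun S hS =>
    Finset.mem_powerset.2 (D3a_tg_subset hi (D3a_tg_subset hj (Finset.mem_powerset.1 hS)))
  have hinv : ∀ S : Finset I, tg i (tg j (tg i (tg j S))) = S := fun S => by
    rw [tg_comm j i, tg_tg, tg_tg]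
  rw [← Finset.sum_neg_distrib]
  refine Finset.sum_nbij' (fun S => tg i (tg j S)) (fun S => tg i (tg j S)) hmem hmem
    (fun S _ => hinv S) (fun S _ => hinv S) fun S _ => ?_
  have h1 : tg j (tg i (tg j S)) = tg i S := by rw [tg_comm i j, tg_tg]
  have h2 : tg i (tg i (tg j S)) = tg j S := tg_tg _ _
  have h3 : th e i (tg i (tg j S)) = ta e i j * th e i S := by
    rw [th_tg_self, th_tg e h]
  have h4 : th e j (tg i (tg j S)) = ta e j i * th e j S := by
    rw [tg_comm, th_tg_self, th_tg e h.symm]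
  have h5 : ta e j i * ta e i j = -1 := by
    rw [ta_swap e h, neg_mul, ta_mul_self]
  rw [h1, h2, h3, h4]
  linear_combination (th e j S * th e i S * (v (tg i S) * (starRingEnd ℂ) (v (tg j S)))) * h5

-- D3a
/-- PROOF: the involution `S ↦ tg i S` of `F.powerset`, `th i S * th i S = 1`, `z * conj z = ‖z‖²`. -/
theorem sum_diag (e : I ↪ O) {F : Finset I} (v : Finset I → ℂ) {i : I} (hi : i ∈ F) :
    ∑ S ∈ F.powerset, th e i S * th e i S * (v (tg i S) * (starRingEnd ℂ) (v (tg i S))) =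
      ((∑ S ∈ F.powerset, ‖v S‖ ^ 2 : ℝ) : ℂ) := by
  have hmem : ∀ S ∈ F.powerset, tg i S ∈ F.powerset := fun S hS =>
    Finset.mem_powerset.2 (D3a_tg_subset hi (Finset.mem_powerset.1 hS))
  rw [Complex.ofReal_sum]
  refine Finset.sum_nbij' (fun S => tg i S) (fun S => tg i S) hmem hmem
    (fun S _ => tg_tg i S) (fun S _ => tg_tg i S) fun S _ => ?_
  rw [th_mul_self, one_mul, RCLike.mul_conj]
  push_cast
  rfl

-- D3b
/-- PROOF: `‖z‖² = z * conj z`; expand the square of the sum as a double sum over `i, j ∈ F`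
(`Finset.sum_mul_sum`, `map_sum`, `conj_th`, the `a i` are real), exchange the sums; the terms with `i = j` give
the right side by `sum_diag`; the sum `D` of the terms with `i ≠ j` satisfies `D = -D` by `sum_offdiag`
(exchange the names of `i` and `j`), so it is `0`. -/
theorem clifford_sq (e : I ↪ O) (F : Finset I) (a : I → ℝ) (v : Finset I → ℂ) :
    ∑ S ∈ F.powerset, ‖∑ i ∈ F, (a i : ℂ) * (th e i S * v (tg i S))‖ ^ 2 =
      (∑ i ∈ F, a i ^ 2) * ∑ S ∈ F.powerset, ‖v S‖ ^ 2 := by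
  apply Complex.ofReal_injective
  obtain ⟨V, hV⟩ : ∃ V : ℂ, V = ((∑ S ∈ F.powerset, ‖v S‖ ^ 2 : ℝ) : ℂ) := ⟨_, rfl⟩
  obtain ⟨g, hg⟩ : ∃ g : I → I → ℂ, g = fun i j => ∑ S ∈ F.powerset,
    th e i S * th e j S * (v (tg i S) * (starRingEnd ℂ) (v (tg j S))) := ⟨_, rfl⟩
  have h1 : ((∑ S ∈ F.powerset, ‖∑ i ∈ F, (a i : ℂ) * (th e i S * v (tg i S))‖ ^ 2 : ℝ) : ℂ) =
      ∑ i ∈ F, ∑ j ∈ F, (a i : ℂ) * (a j : ℂ) * g i j := by
    rw [Complex.ofReal_sum]
    calc _ = ∑ S ∈ F.powerset, ∑ i ∈ F, ∑ j ∈ F, (a i : ℂ) * (a j : ℂ) *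
          (th e i S * th e j S * (v (tg i S) * (starRingEnd ℂ) (v (tg j S)))) := by
          refine Finset.sum_congr rfl fun S _ => ?_
          have h2 : ((‖∑ i ∈ F, (a i : ℂ) * (th e i S * v (tg i S))‖ ^ 2 : ℝ) : ℂ) =
              (∑ i ∈ F, (a i : ℂ) * (th e i S * v (tg i S))) *
                (starRingEnd ℂ) (∑ i ∈ F, (a i : ℂ) * (th e i S * v (tg i S))) := by
            rw [RCLike.mul_conj]
            push_cast
            rfl
          rw [h2, map_sum, Finset.sum_mul_sum]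
          refine Finset.sum_congr rfl fun i _ => Finset.sum_congr rfl fun j _ => ?_
          rw [map_mul, map_mul, conj_th, Complex.conj_ofReal]
          ring
      _ = ∑ i ∈ F, ∑ j ∈ F, ∑ S ∈ F.powerset, (a i : ℂ) * (a j : ℂ) *
          (th e i S * th e j S * (v (tg i S) * (starRingEnd ℂ) (v (tg j S)))) := by
          rw [Finset.sum_comm]
          refine Finset.sum_congr rfl fun i _ => ?_
          rw [Finset.sum_comm]
      _ = _ := by
          rw [hg]
          refine Finset.sum_congr rfl fun i _ => Finset.sum_congr rfl fun j _ => ?_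
          rw [← Finset.mul_sum]
  have h2 : ∑ i ∈ F, ∑ j ∈ F, ((a i : ℂ) * (a j : ℂ) * g i j -
      if i = j then (a i : ℂ) ^ 2 * V else 0) = 0 := by
    apply D3b_antisymm
    intro i hi j hj
    by_cases hij : i = j
    · subst hij
      have h3 : g i i = V := by rw [hg, hV]; exact sum_diag e v hi
      rw [if_pos rfl, h3]
      ring
    · rw [if_neg hij, if_neg (Ne.symm hij)]
      have h3 : g i j = -g j i := by rw [hg]; exact sum_offdiag e v hi hj hij
      rw [h3]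
      ring
  have h3 : ∑ i ∈ F, ∑ j ∈ F, (if i = j then (a i : ℂ) ^ 2 * V else 0) =
      (∑ i ∈ F, (a i : ℂ) ^ 2) * V := by
    rw [Finset.sum_mul]
    refine Finset.sum_congr rfl fun i hi => ?_
    rw [Finset.sum_ite_eq, if_pos hi]
  simp only [Finset.sum_sub_distrib] at h2
  rw [h1, sub_eq_zero.1 h2, h3, hV]
  push_cast
  ring

-- D3
/-- PROOF: the terms with `i = j` give the right side (`tg_tg`, `th_tg_self`, `th_mul_self`); for `i ≠ j` the
terms of `(i, j)` and `(j, i)` cancel: `th i S * th j (tg i S) = ta j i * th i S * th j S` and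
`th j S * th i (tg j S) = ta i j * th i S * th j S` have opposite signs, and `tg j (tg i S) = tg i (tg j S)`. So
the sum `D` of the off-diagonal terms satisfies `D = -D`. -/
theorem clifford_mul_self (e : I ↪ O) (F : Finset I) (a : I → ℝ) (v : Finset I → ℂ)
    (S : Finset I) :
    ∑ i ∈ F, (a i : ℂ) * (th e i S * ∑ j ∈ F, (a j : ℂ) * (th e j (tg i S) * v (tg j (tg i S)))) =
      ((∑ i ∈ F, a i ^ 2 : ℝ) : ℂ) * v S := by
  have h1 : ∑ i ∈ F, (a i : ℂ) * (th e i S *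
      ∑ j ∈ F, (a j : ℂ) * (th e j (tg i S) * v (tg j (tg i S)))) =
      ∑ i ∈ F, ∑ j ∈ F, (a i : ℂ) * (a j : ℂ) *
        (th e i S * th e j (tg i S) * v (tg j (tg i S))) := by
    refine Finset.sum_congr rfl fun i _ => ?_
    rw [Finset.mul_sum, Finset.mul_sum]
    refine Finset.sum_congr rfl fun j _ => ?_
    ring
  have h2 : ∑ i ∈ F, ∑ j ∈ F, ((a i : ℂ) * (a j : ℂ) *
      (th e i S * th e j (tg i S) * v (tg j (tg i S))) -
      if i = j then (a i : ℂ) ^ 2 * v S else 0) = 0 := by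
    apply D3_antisymm
    intro i hi j hj
    by_cases hij : i = j
    · subst hij
      rw [if_pos rfl, tg_tg, th_tg_self, th_mul_self]
      ring
    · rw [if_neg hij, if_neg (Ne.symm hij), tg_comm i j S, th_tg e hij,
        th_tg e (Ne.symm hij), ta_swap e hij]
      ring
  have h3 : ∑ i ∈ F, ∑ j ∈ F, (if i = j then (a i : ℂ) ^ 2 * v S else 0) =
      (∑ i ∈ F, (a i : ℂ) ^ 2) * v S := by
    rw [Finset.sum_mul]
    refine Finset.sum_congr rfl fun i hi => ?_
    rw [Finset.sum_ite_eq, if_pos hi]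
  simp only [Finset.sum_sub_distrib] at h2
  rw [h1, sub_eq_zero.1 h2, h3]
  push_cast
  ring

-- D4a
theorem D4a_clF (e : I ↪ O) (a : Finset I → I → ℝ) (ξ : Bs I → ℂ) (b : Bs I) :
    (∑ i ∈ b.F, (a b.F i : ℂ) * (th e i b.S * ξ (tog i b))) =
      ∑ i ∈ b.F, (a b.F i : ℂ) * (th e i b.S * D4a_v ξ b.F (tg i b.S)) := by
  refine Finset.sum_congr rfl fun i hi => ?_
  have h2 : tg i b.S ⊆ b.F := D4a_sub hi b.sub
  have h1 : tog i b = Bs.mk b.F (tg i b.S) h2 := dif_pos hi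
  have h3 : D4a_v ξ b.F (tg i b.S) = ξ (Bs.mk b.F (tg i b.S) h2) := dif_pos h2
  rw [h1, h3]

-- D4a
/-- The function `b ↦ ∑_{i ∈ F} a_F(i) θ(i, S) ξ(F, tg i S)`. -/
def clF (e : I ↪ O) (a : Finset I → I → ℝ) (ξ : Bs I → ℂ) (b : Bs I) : ℂ :=
  ∑ i ∈ b.F, (a b.F i : ℂ) * (th e i b.S * ξ (tog i b))

-- D4a
/-- PROOF: the sum over the `b` with `b.F = F` is the sum over `S ∈ F.powerset`: apply `clifford_sq` with
`v S = ξ (F, S)` (and `0` if `S` is not a subset of `F`): it is `(∑ a_F(i)²) ∑_{S} ‖ξ(F, S)‖²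
≤ C² ∑_{S} ‖ξ(F, S)‖²`. For a finite set `s` of pairs, `∑_{b ∈ s} ‖clF b‖²` is at most the sum over the finite
set of the `F` occurring in `s` and over all `S ∈ F.powerset`, so at most `C² ∑ ‖ξ b‖²`; then
`summable_of_sum_le`, `tsum_le_of_sum_le`. -/
theorem clF_sq_le (e : I ↪ O) {a : Finset I → I → ℝ} {C : ℝ} (h : CB a C) (ξ : L2 (Bs I)) :
    Summable (fun b => ‖clF e a ξ b‖ ^ 2) ∧
      ∑' b, ‖clF e a ξ b‖ ^ 2 ≤ C ^ 2 * ∑' b, ‖(ξ : Bs I → ℂ) b‖ ^ 2 := by
  obtain ⟨v, hv⟩ : ∃ v : Finset I → Finset I → ℂ, v = D4a_v (ξ : Bs I → ℂ) := ⟨_, rfl⟩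
  have h1 : ∀ F : Finset I, (∑ S : {S : Finset I // S ∈ F.powerset},
      ‖(ξ : Bs I → ℂ) (D4a_eq.symm ⟨F, S⟩)‖ ^ 2) = ∑ S ∈ F.powerset, ‖v F S‖ ^ 2 := by
    intro F
    rw [← Finset.sum_coe_sort F.powerset fun S => ‖v F S‖ ^ 2]
    refine Finset.sum_congr rfl fun S _ => ?_
    rw [hv, D4a_v, dif_pos (Finset.mem_powerset.1 S.2)]
    rfl
  have h2 : ∀ F : Finset I, (∑ S : {S : Finset I // S ∈ F.powerset},
      ‖clF e a ξ (D4a_eq.symm ⟨F, S⟩)‖ ^ 2) =
        (∑ i ∈ F, a F i ^ 2) * ∑ S ∈ F.powerset, ‖v F S‖ ^ 2 := by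
    intro F
    rw [← clifford_sq e F (a F) (v F), ← Finset.sum_coe_sort F.powerset fun S =>
      ‖∑ i ∈ F, (a F i : ℂ) * (th e i S * v F (tg i S))‖ ^ 2]
    refine Finset.sum_congr rfl fun S _ => ?_
    rw [clF, D4a_clF, hv]
    rfl
  have hs := summable_L2 ξ
  have h3 := (D4a_summable (fun b => sq_nonneg ‖(ξ : Bs I → ℂ) b‖)).1 hs
  have h4 := D4a_tsum hs
  simp only [h1] at h3 h4
  have h5 : ∀ F : Finset I, (∑ i ∈ F, a F i ^ 2) * ∑ S ∈ F.powerset, ‖v F S‖ ^ 2 ≤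
      C ^ 2 * ∑ S ∈ F.powerset, ‖v F S‖ ^ 2 := fun F =>
    mul_le_mul_of_nonneg_right (h.bdd F) (Finset.sum_nonneg fun _ _ => sq_nonneg _)
  have h6 : Summable fun F : Finset I =>
      (∑ i ∈ F, a F i ^ 2) * ∑ S ∈ F.powerset, ‖v F S‖ ^ 2 :=
    Summable.of_nonneg_of_le (fun F => mul_nonneg (Finset.sum_nonneg fun _ _ => sq_nonneg _)
      (Finset.sum_nonneg fun _ _ => sq_nonneg _)) h5 (h3.mul_left _)
  have h7 : Summable (fun b => ‖clF e a ξ b‖ ^ 2) := by
    rw [D4a_summable (fun b => sq_nonneg _)]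
    simp only [h2]
    exact h6
  refine ⟨h7, ?_⟩
  rw [D4a_tsum h7, h4, ← tsum_mul_left]
  simp only [h2]
  exact h6.tsum_le_tsum h5 (h3.mul_left _)

-- D4a
/-- PROOF: `clF_sq_le`, `memℓp_two`, `norm_sq_L2`, `LinearMap.mkContinuous`. -/
theorem exists_cl (e : I ↪ O) {a : Finset I → I → ℝ} {C : ℝ} (h : CB a C) :
    ∃ T : BL (Bs I), ‖T‖ ≤ C ∧ ∀ (ξ : L2 (Bs I)) (b : Bs I), (T ξ : Bs I → ℂ) b = clF e a ξ b := by
  have hm : ∀ ξ : L2 (Bs I), Memℓp (fun b => clF e a ξ b) 2 := fun ξ =>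
    memℓp_two (clF_sq_le e h ξ).1
  let T : L2 (Bs I) →ₗ[ℂ] L2 (Bs I) :=
    { toFun := fun ξ => ⟨fun b => clF e a ξ b, hm ξ⟩
      map_add' := by
        intro ξ η
        ext b
        simp only [clF, lp.coeFn_add, Pi.add_apply]
        rw [← Finset.sum_add_distrib]
        exact Finset.sum_congr rfl fun i _ => by ring
      map_smul' := by
        intro z ξ
        ext b
        simp only [clF, lp.coeFn_smul, Pi.smul_apply, smul_eq_mul, RingHom.id_apply]
        rw [Finset.mul_sum]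
        exact Finset.sum_congr rfl fun i _ => by ring }
  have hT : ∀ ξ, ‖T ξ‖ ≤ C * ‖ξ‖ := by
    intro ξ
    refine le_of_sq_le_sq ?_ (mul_nonneg h.nonneg (norm_nonneg _))
    rw [mul_pow, norm_sq_L2, norm_sq_L2]
    exact (clF_sq_le e h ξ).2
  refine ⟨T.mkContinuous C hT, T.mkContinuous_norm_le h.nonneg hT, fun ξ b => rfl⟩

-- D4a
open Classical in
/-- The Clifford operator. -/
def Cl (e : I ↪ O) (a : Finset I → I → ℝ) : BL (Bs I) :=
  if h : ∃ C, CB a C then (exists_cl e h.choose_spec).choose else 0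

-- D4a
lemma Cl_apply (e : I ↪ O) {a : Finset I → I → ℝ} {C : ℝ} (h : CB a C) (ξ : L2 (Bs I))
    (b : Bs I) : (Cl e a ξ : Bs I → ℂ) b = clF e a ξ b := by
  have h' : ∃ C, CB a C := ⟨C, h⟩
  rw [Cl, dif_pos h']
  exact (exists_cl e h'.choose_spec).choose_spec.2 ξ b

-- D4a
lemma norm_Cl_le (e : I ↪ O) {a : Finset I → I → ℝ} {C : ℝ} (h : CB a C) : ‖Cl e a‖ ≤ C := by
  obtain ⟨T, hT, hT'⟩ := exists_cl e h
  have h1 : Cl e a = T := by
    refine ContinuousLinearMap.ext fun ξ => ?_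
    ext q
    rw [Cl_apply e h, hT']
  rw [h1]
  exact hT

-- D4
/-- PROOF: coordinates, `Cl_apply` (with `h.add h'`), `Finset.sum_add_distrib`. -/
theorem Cl_add (e : I ↪ O) {a a' : Finset I → I → ℝ} {C C' : ℝ} (h : CB a C) (h' : CB a' C') :
    Cl e (fun F i => a F i + a' F i) = Cl e a + Cl e a' := by
  refine ContinuousLinearMap.ext fun ξ => ?_
  ext b
  rw [Cl_apply e (h.add h')]
  change _ = (Cl e a ξ : Bs I → ℂ) b + (Cl e a' ξ : Bs I → ℂ) b
  rw [Cl_apply e h, Cl_apply e h']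
  simp only [clF]
  rw [← Finset.sum_add_distrib]
  refine Finset.sum_congr rfl fun i _ => ?_
  push_cast
  ring

-- D4
/-- PROOF: as `Cl_add`. -/
theorem Cl_sub (e : I ↪ O) {a a' : Finset I → I → ℝ} {C C' : ℝ} (h : CB a C) (h' : CB a' C') :
    Cl e (fun F i => a F i - a' F i) = Cl e a - Cl e a' := by
  refine ContinuousLinearMap.ext fun ξ => ?_
  ext b
  rw [Cl_apply e (h.sub h')]
  change _ = (Cl e a ξ : Bs I → ℂ) b - (Cl e a' ξ : Bs I → ℂ) b
  rw [Cl_apply e h, Cl_apply e h']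
  simp only [clF]
  rw [← Finset.sum_sub_distrib]
  refine Finset.sum_congr rfl fun i _ => ?_
  push_cast
  ring

-- D5a
/-- PROOF: coordinates; `clifford_mul_self` with `v S = ξ (F, S)` (and `0` if `S` is not a subset of `F`). -/
theorem Cl_mul_self (e : I ↪ O) {a : Finset I → I → ℝ} {C : ℝ} (h : CB a C) :
    Cl e a * Cl e a = dia fun b : Bs I => ((∑ i ∈ b.F, a b.F i ^ 2 : ℝ) : ℂ) := by
  have hb : ∀ b : Bs I, ‖((∑ i ∈ b.F, a b.F i ^ 2 : ℝ) : ℂ)‖ ≤ C ^ 2 := by
    intro b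
    rw [Complex.norm_real, Real.norm_eq_abs,
      abs_of_nonneg (Finset.sum_nonneg fun _ _ => sq_nonneg _)]
    exact h.bdd b.F
  refine ContinuousLinearMap.ext fun ξ => ?_
  ext b
  rw [dia_apply (sq_nonneg C) hb]
  change (Cl e a (Cl e a ξ) : Bs I → ℂ) b = _
  rw [Cl_apply e h]
  have h0 : (ξ : Bs I → ℂ) b = D5a_v ξ b.F b.S := by
    rw [D5a_v, dif_pos b.sub]
    rfl
  rw [h0, ← clifford_mul_self e b.F (a b.F) (D5a_v ξ b.F) b.S, clF]
  refine Finset.sum_congr rfl fun i hi => ?_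
  obtain ⟨h1, h2⟩ := tog_of_mem hi
  rw [Cl_apply e h, clF, h1, h2]
  congr 2
  refine Finset.sum_congr rfl fun j hj => ?_
  have h3 : j ∈ (tog i b).F := by rw [h1]; exact hj
  have h4 := D5a_tog h3 (ξ : Bs I → ℂ)
  rw [h1, h2] at h4
  rw [h4]

-- D5a
/-- Multiplication by a function of `F` commutes with the Clifford operators, and the product is the Clifford
operator of the product (for a real function). PROOF: coordinates, `(tog i b).F = b.F`. -/
theorem dia_mul_Cl (e : I ↪ O) {a : Finset I → I → ℝ} {C : ℝ} (h : CB a C) {φ : Finset I → ℝ}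
    (hφ : ∀ F, |φ F| ≤ 1) : dia (fun b : Bs I => ((φ b.F : ℝ) : ℂ)) * Cl e a =
      Cl e fun F i => φ F * a F i := by
  have hb : ∀ b : Bs I, ‖((φ b.F : ℝ) : ℂ)‖ ≤ 1 := by
    intro b
    rw [Complex.norm_real, Real.norm_eq_abs]
    exact hφ b.F
  have h' : CB (fun F i => φ F * a F i) C := by
    refine ⟨h.nonneg, fun F => le_trans (Finset.sum_le_sum fun i _ => ?_) (h.bdd F)⟩
    rw [mul_pow]
    have h1 : φ F ^ 2 ≤ 1 := by
      rw [← sq_abs]
      exact pow_le_one₀ (abs_nonneg _) (hφ F)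
    exact mul_le_of_le_one_left (sq_nonneg _) h1
  refine ContinuousLinearMap.ext fun ξ => ?_
  ext b
  change (dia (fun b : Bs I => ((φ b.F : ℝ) : ℂ)) (Cl e a ξ) : Bs I → ℂ) b = _
  rw [dia_apply zero_le_one hb, Cl_apply e h, Cl_apply e h', clF, clF, Finset.mul_sum]
  refine Finset.sum_congr rfl fun i _ => ?_
  push_cast
  ring

-- D5a
/-- PROOF: as `dia_mul_Cl`: `(tog i b).F = b.F`. -/
theorem Cl_mul_dia (e : I ↪ O) {a : Finset I → I → ℝ} {C : ℝ} (h : CB a C) {φ : Finset I → ℝ}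
    (hφ : ∀ F, |φ F| ≤ 1) : Cl e a * dia (fun b : Bs I => ((φ b.F : ℝ) : ℂ)) =
      Cl e fun F i => φ F * a F i := by
  have hb : ∀ b : Bs I, ‖((φ b.F : ℝ) : ℂ)‖ ≤ 1 := by
    intro b
    rw [Complex.norm_real, Real.norm_eq_abs]
    exact hφ b.F
  have h' : CB (fun F i => φ F * a F i) C := by
    refine ⟨h.nonneg, fun F => le_trans (Finset.sum_le_sum fun i _ => ?_) (h.bdd F)⟩
    rw [mul_pow]
    have h1 : φ F ^ 2 ≤ 1 := by
      rw [← sq_abs]
      exact pow_le_one₀ (abs_nonneg _) (hφ F)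
    exact mul_le_of_le_one_left (sq_nonneg _) h1
  refine ContinuousLinearMap.ext fun ξ => ?_
  ext b
  change (Cl e a (dia (fun b : Bs I => ((φ b.F : ℝ) : ℂ)) ξ) : Bs I → ℂ) b = _
  rw [Cl_apply e h, Cl_apply e h', clF, clF]
  refine Finset.sum_congr rfl fun i hi => ?_
  rw [dia_apply zero_le_one hb, (tog_of_mem hi).1]
  push_cast
  ring

-- D5b
/-- PROOF: `(tg i S).card` and `S.card` have different parity. -/
theorem Pp_mul_Cl (e : I ↪ O) {a : Finset I → I → ℝ} {C : ℝ} (h : CB a C) :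
    Pp * Cl e a = Cl e a * Pm := by
  refine ContinuousLinearMap.ext fun ξ => ?_
  ext b
  change (Pp (Cl e a ξ) : Bs I → ℂ) b = (Cl e a (Pm ξ) : Bs I → ℂ) b
  rw [Pp_apply, Cl_apply e h, Cl_apply e h, clF, clF]
  split_ifs with hb
  · refine Finset.sum_congr rfl fun i hi => ?_
    rw [Pm_apply, (tog_of_mem hi).2, if_neg]
    rw [D5b_tg]
    exact not_not.2 hb
  · symm
    refine Finset.sum_eq_zero fun i hi => ?_
    rw [Pm_apply, (tog_of_mem hi).2, if_pos ((D5b_tg i b.S).2 hb)]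
    simp

-- D5b
theorem Pm_mul_Cl (e : I ↪ O) {a : Finset I → I → ℝ} {C : ℝ} (h : CB a C) :
    Pm * Cl e a = Cl e a * Pp := by
  refine ContinuousLinearMap.ext fun ξ => ?_
  ext b
  change (Pm (Cl e a ξ) : Bs I → ℂ) b = (Cl e a (Pp ξ) : Bs I → ℂ) b
  rw [Pm_apply, Cl_apply e h, Cl_apply e h, clF, clF]
  split_ifs with hb
  · symm
    refine Finset.sum_eq_zero fun i hi => ?_
    rw [Pp_apply, (tog_of_mem hi).2, if_neg]
    · simp
    · rw [D5b_tg]
      exact not_not.2 hb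
  · refine Finset.sum_congr rfl fun i hi => ?_
    rw [Pp_apply, (tog_of_mem hi).2, if_pos ((D5b_tg i b.S).2 hb)]

end Pool.Agent.Lib.MP_aa9b81_an.Cb
end

end
end

section

/-!
# Cutting theorem, part C
-/

noncomputable section

namespace Pool.Agent.Lib.MP_aa9b81_an.Cut

section PartCA

open scoped ENNReal Topology ZeroAtInfty
open Filter Topology

theorem tendsto_cocompact_of_proper {Y Z : Type} [TopologicalSpace Y] [TopologicalSpace Z]
    {p : Z → Y} (hp : IsProperMap p) : Tendsto p (cocompact Z) (cocompact Y) := by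
  intro s hs
  obtain ⟨K, hK, hK'⟩ := mem_cocompact.1 hs
  exact mem_map.2 (mem_cocompact.2 ⟨p ⁻¹' K, hp.isCompact_preimage hK, fun x hx => hK' hx⟩)

variable {Γ Y Z : Type} [Group Γ] [TopologicalSpace Y] [MulAction Γ Y]
  [TopologicalSpace Z] [MulAction Γ Z]

/-- The pull back of a function vanishing at infinity along a proper map. -/
def pullC (p : Z → Y) (hp : IsProperMap p) (f : C₀(Y, ℂ)) : C₀(Z, ℂ) where
  toFun z := f (p z)
  continuous_toFun := f.continuous.comp hp.continuous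
  zero_at_infty' := f.zero_at_infty'.comp (tendsto_cocompact_of_proper hp)

omit [MulAction Γ Y] [MulAction Γ Z] [Group Γ] in
@[simp] lemma pullC_apply (p : Z → Y) (hp : IsProperMap p) (f : C₀(Y, ℂ)) (z : Z) :
    pullC p hp f z = f (p z) := rfl

/-- The function `y ↦ f(g⁻¹ y)`. -/
def shift [ContinuousConstSMul Γ Y] (g : Γ) (f : C₀(Y, ℂ)) : C₀(Y, ℂ) :=
  pullC (fun y => g⁻¹ • y) (Homeomorph.smul g⁻¹).isProperMap f

@[simp] lemma shift_apply [ContinuousConstSMul Γ Y] (g : Γ) (f : C₀(Y, ℂ)) (y : Y) :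
    shift g f y = f (g⁻¹ • y) := rfl

/-- The formula for the generators. -/
@[simp] lemma gen_apply (f : C₀(Y, ℂ)) (g : Γ) (i j : ℕ) (y : Y) (ξ : Hil Γ) (s : Γ) (k : ℕ) :
    (gen f g i j y ξ : Γ × ℕ → ℂ) (s, k) = if k = i then f (s • y) * ξ (g⁻¹ * s, j) else 0 := rfl

lemma norm_gen_le (f : C₀(Y, ℂ)) (g : Γ) (i j : ℕ) : ‖(gen f g i j : Fam Γ Y)‖ ≤ ‖f‖ :=
  (Fam.norm_le_iff (norm_nonneg f)).2 fun y =>
    norm_wOp_le _ _ (fun s => f.toBCF.norm_coe_le_norm (s • y)) _ _ _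

private lemma CA_ext {a b : Fam Γ Y} (h : ∀ (y : Y) (ξ : Hil Γ) (s : Γ) (k : ℕ),
    (a y ξ : Γ × ℕ → ℂ) (s, k) = (b y ξ : Γ × ℕ → ℂ) (s, k)) : a = b := by
  refine Fam.ext fun y => ContinuousLinearMap.ext fun ξ => ?_
  ext1
  funext p
  exact h y ξ p.1 p.2

/-- TASK. PROOF (all in this file): `Fam.ext`, `ContinuousLinearMap.ext`, `lp.ext` (`ext1`), then
`funext ⟨s, k⟩` and the formula `gen_apply`; `split_ifs`, `ring`. -/
lemma gen_add (f f' : C₀(Y, ℂ)) (g : Γ) (i j : ℕ) :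
    (gen (f + f') g i j : Fam Γ Y) = gen f g i j + gen f' g i j := by
  refine CA_ext fun y ξ s k => ?_
  have e : ((gen f g i j + gen f' g i j : Fam Γ Y) y ξ : Γ × ℕ → ℂ) (s, k) =
      (gen f g i j y ξ : Γ × ℕ → ℂ) (s, k) + (gen f' g i j y ξ : Γ × ℕ → ℂ) (s, k) := rfl
  rw [e, gen_apply, gen_apply, gen_apply]
  split_ifs
  · rw [ZeroAtInftyContinuousMap.add_apply]; ring
  · ring

lemma gen_smul (c : ℂ) (f : C₀(Y, ℂ)) (g : Γ) (i j : ℕ) :
    (gen (c • f) g i j : Fam Γ Y) = c • gen f g i j := by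
  refine CA_ext fun y ξ s k => ?_
  have e : ((c • gen f g i j : Fam Γ Y) y ξ : Γ × ℕ → ℂ) (s, k) =
      c * (gen f g i j y ξ : Γ × ℕ → ℂ) (s, k) := rfl
  rw [e, gen_apply, gen_apply]
  split_ifs
  · rw [ZeroAtInftyContinuousMap.smul_apply, smul_eq_mul]; ring
  · ring

lemma gen_zero (g : Γ) (i j : ℕ) : (gen (0 : C₀(Y, ℂ)) g i j : Fam Γ Y) = 0 := by
  have h := gen_smul (0 : ℂ) (0 : C₀(Y, ℂ)) g i j (Γ := Γ) (Y := Y)
  rwa [zero_smul, zero_smul] at h

lemma gen_sub (f f' : C₀(Y, ℂ)) (g : Γ) (i j : ℕ) :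
    (gen (f - f') g i j : Fam Γ Y) = gen f g i j - gen f' g i j := by
  have h := gen_add (f - f') f' g i j (Γ := Γ) (Y := Y)
  rw [sub_add_cancel] at h
  rw [h, add_sub_cancel_right]

/-- `(f u_g ⊗ e_{ij}) (f' u_{g'} ⊗ e_{i'j'}) = δ_{j i'} f (g f') u_{g g'} ⊗ e_{i j'}`. PROOF: at the
point `y`, `(T T' ξ)(s, k) = [k = i] f(s y) (T' ξ)(g⁻¹ s, j)
= [k = i] f(s y) [j = i'] f'(g⁻¹ s y) ξ(g'⁻¹ g⁻¹ s, j')`. -/
lemma gen_mul_gen [ContinuousConstSMul Γ Y] (f f' : C₀(Y, ℂ)) (g g' : Γ) (i j i' j' : ℕ) :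
    (gen f g i j * gen f' g' i' j' : Fam Γ Y) =
      if j = i' then gen (f * shift g f') (g * g') i j' else 0 := by
  by_cases hj : j = i'
  · subst hj
    rw [if_pos rfl]
    refine CA_ext fun y ξ s k => ?_
    have e : ((gen f g i j * gen f' g' j j' : Fam Γ Y) y ξ : Γ × ℕ → ℂ) (s, k) =
        (gen f g i j y (gen f' g' j j' y ξ) : Γ × ℕ → ℂ) (s, k) := rfl
    rw [e, gen_apply, gen_apply, gen_apply]
    by_cases hk : k = i
    · rw [if_pos hk, if_pos hk, if_pos rfl, ZeroAtInftyContinuousMap.mul_apply, shift_apply,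
        mul_inv_rev, mul_smul, mul_assoc, mul_assoc]
    · rw [if_neg hk, if_neg hk]
  · rw [if_neg hj]
    refine CA_ext fun y ξ s k => ?_
    have e : ((gen f g i j * gen f' g' i' j' : Fam Γ Y) y ξ : Γ × ℕ → ℂ) (s, k) =
        (gen f g i j y (gen f' g' i' j' y ξ) : Γ × ℕ → ℂ) (s, k) := rfl
    have e2 : ((0 : Fam Γ Y) y ξ : Γ × ℕ → ℂ) (s, k) = 0 := rfl
    rw [e, e2, gen_apply, gen_apply, if_neg hj, mul_zero, ite_self]

/-- PROOF: both sides are the family with `(T_z ξ)(s, k) = [k = i] f(p (s z)) ξ(g⁻¹ s, j)`, since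
`s • p z = p (s • z)`. -/
lemma pull_gen {p : Z → Y} (hp : IsProperMap p) (he : ∀ (g : Γ) z, p (g • z) = g • p z)
    (f : C₀(Y, ℂ)) (g : Γ) (i j : ℕ) :
    pull p (gen f g i j : Fam Γ Y) = gen (pullC p hp f) g i j := by
  refine CA_ext fun z ξ s k => ?_
  have e : ((pull p (gen f g i j : Fam Γ Y) : Fam Γ Z) z ξ : Γ × ℕ → ℂ) (s, k) =
      (gen f g i j (p z) ξ : Γ × ℕ → ℂ) (s, k) := rfl
  rw [e, gen_apply, gen_apply, pullC_apply, he]

end PartCA

section PartCB1

open scoped ENNReal Topology ZeroAtInfty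
open Filter Topology

variable {Γ Y Z : Type} [Group Γ] [TopologicalSpace Y] [MulAction Γ Y]
  [TopologicalSpace Z] [MulAction Γ Z]

/-- The data of a generator `f u_g ⊗ e_{ij}`. -/
structure Dat (Γ Y : Type) [TopologicalSpace Y] where
  /-- the function -/
  f : C₀(Y, ℂ)
  /-- the group element -/
  g : Γ
  /-- row index -/
  i : ℕ
  /-- column index -/
  j : ℕ

/-- The generator given by the data. -/
def Dat.gen (d : Dat Γ Y) : Fam Γ Y := Cut.gen d.f d.g d.i d.j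

/-- The sum of a list of generators. -/
def val (l : List (Dat Γ Y)) : Fam Γ Y := (l.map Dat.gen).sum

omit [Group Γ] [MulAction Γ Y] in
/-- The sum of the norms of the functions. -/
def nrm (l : List (Dat Γ Y)) : ℝ := (l.map fun d => ‖d.f‖).sum

lemma val_nil : val ([] : List (Dat Γ Y)) = 0 := rfl

lemma val_cons (d : Dat Γ Y) (l : List (Dat Γ Y)) : val (d :: l) = d.gen + val l := by
  simp [val]

lemma val_append (l l' : List (Dat Γ Y)) : val (l ++ l') = val l + val l' := by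
  simp [val]

/-- PROOF: induction, `norm_gen_le`. -/
lemma norm_val_le (l : List (Dat Γ Y)) : ‖val l‖ ≤ nrm l := by
  induction l with
  | nil =>
    rw [val_nil, norm_zero]
    simp [nrm]
  | cons d l ih =>
    rw [val_cons]
    have e : nrm (d :: l) = ‖d.f‖ + nrm l := by simp [nrm]
    rw [e]
    exact (norm_add_le _ _).trans (add_le_add (norm_gen_le _ _ _ _) ih)

/-- PROOF: the generators are in `cp` (`NonUnitalAlgebra.subset_adjoin`,
`NonUnitalSubalgebra.le_topologicalClosure`), induction. -/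
lemma val_mem (l : List (Dat Γ Y)) : val l ∈ cp Γ Y := by
  induction l with
  | nil =>
    rw [val_nil]
    exact zero_mem _
  | cons d l ih =>
    rw [val_cons]
    refine add_mem ?_ ih
    exact NonUnitalSubalgebra.le_topologicalClosure _
      (NonUnitalAlgebra.subset_adjoin ℂ ⟨d.f, d.g, d.i, d.j, rfl⟩)

lemma isClosed_cp : IsClosed (cp Γ Y : Set (Fam Γ Y)) :=
  NonUnitalSubalgebra.isClosed_topologicalClosure _

/-- Change the functions of a list of data by `T`. -/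
def mapL (T : C₀(Y, ℂ) → C₀(Z, ℂ)) (l : List (Dat Γ Y)) : List (Dat Γ Z) :=
  l.map fun d => ⟨T d.f, d.g, d.i, d.j⟩

/-- The product of two lists of data. -/
def mulL [ContinuousConstSMul Γ Y] (l l' : List (Dat Γ Y)) : List (Dat Γ Y) :=
  l.flatMap fun d => l'.flatMap fun d' =>
    if d.j = d'.i then [⟨d.f * shift d.g d'.f, d.g * d'.g, d.i, d'.j⟩] else []

/-- PROOF: double induction (distributivity) and `gen_mul_gen`. -/
lemma val_mulL [ContinuousConstSMul Γ Y] (l l' : List (Dat Γ Y)) :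
    val (mulL l l') = val l * val l' := by
  have h1 : ∀ (d : Dat Γ Y) (l' : List (Dat Γ Y)), val (l'.flatMap fun d' =>
      if d.j = d'.i then [(⟨d.f * shift d.g d'.f, d.g * d'.g, d.i, d'.j⟩ : Dat Γ Y)] else []) =
      d.gen * val l' := by
    intro d l'
    induction l' with
    | nil => rw [List.flatMap_nil, val_nil, mul_zero]
    | cons d' l' ih =>
      rw [List.flatMap_cons, val_append, ih, val_cons, mul_add]
      congr 1
      have h2 : d.gen * d'.gen = if d.j = d'.i then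
          gen (d.f * shift d.g d'.f) (d.g * d'.g) d.i d'.j else 0 := gen_mul_gen _ _ _ _ _ _ _ _
      rw [h2]
      split_ifs with h
      · rw [val_cons, val_nil, add_zero]; rfl
      · rw [val_nil]
  induction l with
  | nil =>
    have : mulL ([] : List (Dat Γ Y)) l' = [] := rfl
    rw [this, val_nil, zero_mul]
  | cons d l ih =>
    have : mulL (d :: l) l' = (l'.flatMap fun d' =>
      if d.j = d'.i then [(⟨d.f * shift d.g d'.f, d.g * d'.g, d.i, d'.j⟩ : Dat Γ Y)] else []) ++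
        mulL l l' := rfl
    rw [this, val_append, h1, ih, val_cons, add_mul]

end PartCB1

section PartCB2

open scoped ENNReal Topology ZeroAtInfty
open Filter Topology

variable {Γ Y Z : Type} [Group Γ] [TopologicalSpace Y] [MulAction Γ Y]
  [TopologicalSpace Z] [MulAction Γ Z]

/-- density of the compactly supported functions -/
theorem CB2_dense (f : C₀(Y, ℂ)) {δ : ℝ} (hδ : 0 < δ) :
    ∃ f' : C₀(Y, ℂ), HasCompactSupport f' ∧ ‖f - f'‖ < δ := by
  set η : ℝ := δ / 2 with hη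
  have hη0 : 0 < η := by positivity
  let φ : ℝ → ℝ := fun t => max (t - η) 0 / max t η
  have hφc : Continuous φ := by
    apply Continuous.div (by fun_prop) (by fun_prop)
    intro t
    exact (lt_of_lt_of_le hη0 (le_max_right _ _)).ne'
  let F : Y → ℂ := fun z => f z * ((φ ‖f z‖ : ℝ) : ℂ)
  have hF : Continuous F := by
    have h1 : Continuous (fun z => f z) := f.continuous
    exact h1.mul (Complex.continuous_ofReal.comp (hφc.comp h1.norm))
  have hφ1 : ∀ t, 0 ≤ t → 0 ≤ φ t ∧ φ t ≤ 1 := by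
    intro t ht
    have h1 : 0 < max t η := lt_of_lt_of_le hη0 (le_max_right _ _)
    constructor
    · exact div_nonneg (le_max_right _ _) h1.le
    · rw [div_le_one h1]
      apply max_le
      · have := le_max_left t η
        linarith
      · exact h1.le
  have hdist : ∀ z, ‖f z - F z‖ ≤ η := by
    intro z
    have h1 : f z - F z = f z * ((1 - φ ‖f z‖ : ℝ) : ℂ) := by
      push_cast
      ring
    have h2 := hφ1 ‖f z‖ (norm_nonneg _)
    rw [h1, norm_mul, Complex.norm_real, Real.norm_eq_abs, abs_of_nonneg (by linarith)]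
    by_cases h3 : ‖f z‖ ≤ η
    · calc ‖f z‖ * (1 - φ ‖f z‖) ≤ ‖f z‖ * 1 := by
            apply mul_le_mul_of_nonneg_left _ (norm_nonneg _)
            linarith
        _ ≤ η := by rw [mul_one]; exact h3
    · push Not at h3
      have h4 : φ ‖f z‖ = (‖f z‖ - η) / ‖f z‖ := by
        show max (‖f z‖ - η) 0 / max ‖f z‖ η = _
        rw [max_eq_left (by linarith), max_eq_left h3.le]
      have h5 : ‖f z‖ ≠ 0 := by linarith
      rw [h4]
      field_simp
      linarith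
  have hzero : ∀ z, ‖f z‖ ≤ η → F z = 0 := by
    intro z hz
    have h4 : φ ‖f z‖ = 0 := by
      show max (‖f z‖ - η) 0 / max ‖f z‖ η = _
      rw [max_eq_right (by linarith), zero_div]
    show f z * ((φ ‖f z‖ : ℝ) : ℂ) = 0
    rw [h4]
    simp
  have hinf : Tendsto F (cocompact Y) (𝓝 0) := by
    have h1 := f.zero_at_infty'
    rw [tendsto_zero_iff_norm_tendsto_zero] at h1 ⊢
    apply squeeze_zero (fun z => norm_nonneg _) _ h1
    intro z
    have h2 := hφ1 ‖f z‖ (norm_nonneg _)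
    show ‖f z * ((φ ‖f z‖ : ℝ) : ℂ)‖ ≤ ‖f z‖
    rw [norm_mul, Complex.norm_real, Real.norm_eq_abs, abs_of_nonneg h2.1]
    calc ‖f z‖ * φ ‖f z‖ ≤ ‖f z‖ * 1 := mul_le_mul_of_nonneg_left h2.2 (norm_nonneg _)
      _ = ‖f z‖ := mul_one _
  refine ⟨⟨⟨F, hF⟩, hinf⟩, ?_, ?_⟩
  · have h1 : ∀ᶠ x in cocompact Y, ‖f x‖ < η := by
      have h2 := f.zero_at_infty'
      rw [tendsto_zero_iff_norm_tendsto_zero] at h2
      exact h2.eventually (gt_mem_nhds hη0)
    obtain ⟨K, hKc, hKs⟩ := mem_cocompact.1 h1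
    have hcl : IsClosed {z : Y | η ≤ ‖f z‖} := isClosed_le continuous_const f.continuous.norm
    have hcomp : IsCompact {z : Y | η ≤ ‖f z‖} := by
      apply hKc.of_isClosed_subset hcl
      intro z hz
      by_contra hzK
      have h3 : ‖f z‖ < η := hKs hzK
      have h4 : η ≤ ‖f z‖ := hz
      linarith
    apply HasCompactSupport.intro' hcomp hcl
    intro z hz
    apply hzero
    have h5 : ¬ η ≤ ‖f z‖ := hz
    linarith
  · apply lt_of_le_of_lt (b := η) _ (by linarith)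
    have h6 : ‖(f - (⟨⟨F, hF⟩, hinf⟩ : C₀(Y, ℂ))).toBCF‖ ≤ η :=
      (BoundedContinuousFunction.norm_le hη0.le).2 hdist
    exact h6

/-- the elements of the algebra generated -/
theorem CB2_adjoin [ContinuousConstSMul Γ Y] {a : Fam Γ Y}
    (ha : a ∈ NonUnitalAlgebra.adjoin ℂ {a : Fam Γ Y | ∃ f g i j, a = gen f g i j}) :
    ∃ l : List (Dat Γ Y), a = val l := by
  refine NonUnitalAlgebra.adjoin_induction (p := fun a _ => ∃ l : List (Dat Γ Y), a = val l)
    ?_ ?_ ?_ ?_ ?_ ha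
  · rintro _ ⟨f, g, i, j, rfl⟩
    refine ⟨[⟨f, g, i, j⟩], ?_⟩
    rw [val_cons, val_nil, add_zero]
    rfl
  · rintro _ _ _ _ ⟨l, rfl⟩ ⟨l', rfl⟩
    exact ⟨l ++ l', (val_append l l').symm⟩
  · exact ⟨[], rfl⟩
  · rintro _ _ _ _ ⟨l, rfl⟩ ⟨l', rfl⟩
    exact ⟨mulL l l', (val_mulL l l').symm⟩
  · rintro c x hx ⟨l, hl⟩
    subst hl
    clear hx
    refine ⟨mapL (fun f => c • f) l, ?_⟩
    induction l with
    | nil =>
      show c • (0 : Fam Γ Y) = 0
      rw [smul_zero]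
    | cons d l ih =>
      have h1 : mapL (fun f => c • f) (d :: l) = ⟨c • d.f, d.g, d.i, d.j⟩ :: mapL (fun f => c • f) l := rfl
      rw [h1, val_cons, val_cons, smul_add, ih]
      congr 1
      exact (gen_smul c d.f d.g d.i d.j).symm

theorem CB2_compact (l : List (Dat Γ Y)) : ∀ {δ : ℝ}, 0 < δ →
    ∃ l' : List (Dat Γ Y), (∀ d ∈ l', HasCompactSupport d.f) ∧ ‖val l - val l'‖ < δ := by
  induction l with
  | nil =>
    intro δ hδ
    refine ⟨[], by simp, ?_⟩
    rw [sub_self, norm_zero]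
    exact hδ
  | cons d l ih =>
    intro δ hδ
    obtain ⟨l', hl', hn⟩ := ih (half_pos hδ)
    obtain ⟨f', hf', hn'⟩ := CB2_dense d.f (half_pos hδ)
    refine ⟨⟨f', d.g, d.i, d.j⟩ :: l', ?_, ?_⟩
    · intro d' hd'
      rcases List.mem_cons.1 hd' with rfl | h
      · exact hf'
      · exact hl' d' h
    · rw [val_cons, val_cons]
      have h1 : d.gen + val l - ((⟨f', d.g, d.i, d.j⟩ : Dat Γ Y).gen + val l') =
          (gen (d.f - f') d.g d.i d.j : Fam Γ Y) + (val l - val l') := by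
        rw [gen_sub]
        show gen d.f d.g d.i d.j + val l - (gen f' d.g d.i d.j + val l') = _
        abel
      rw [h1]
      calc ‖(gen (d.f - f') d.g d.i d.j : Fam Γ Y) + (val l - val l')‖
          ≤ ‖(gen (d.f - f') d.g d.i d.j : Fam Γ Y)‖ + ‖val l - val l'‖ := norm_add_le _ _
        _ < δ / 2 + δ / 2 := add_lt_add (lt_of_le_of_lt (norm_gen_le _ _ _ _) hn') hn
        _ = δ := add_halves δ

/-- PROOF: `Module`: `NonUnitalAlgebra.adjoin_induction` for the set of all `a` with a list `l` whose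
functions have compact support... but the generators only have `f ∈ C₀`: first show by
`NonUnitalAlgebra.adjoin_induction` that every element of the algebra generated is `val l` for some
`l` (generators: one element lists; sums: `val_append`; products: `val_mulL`; scalars: multiply the
functions by `c`, `gen_smul`; zero: `val_nil`). Then an element of the closure is approximated by
some `val l` (`mem_closure_iff` / `Metric.mem_closure_iff`). Then replace every function by one of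
compact support: `C_c` is dense in `C₀` (for `f ∈ C₀(Y)` and `δ > 0` the function
`z ↦ if ‖f z‖ ≤ δ then 0 else f z (1 - δ/‖f z‖)`, i.e. `f z * (max (‖f z‖ - δ) 0 / ‖f z‖)`, is
continuous, has its support in the compact set `{‖f‖ ≥ δ}` and is at distance `≤ δ`), using
`gen_sub`, `norm_gen_le`. -/
theorem exists_val_near [ContinuousConstSMul Γ Y] {a : Fam Γ Y} (ha : a ∈ cp Γ Y) {ε : ℝ}
    (hε : 0 < ε) : ∃ l : List (Dat Γ Y), (∀ d ∈ l, HasCompactSupport d.f) ∧ ‖a - val l‖ < ε := by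
  have h1 : a ∈ closure ((NonUnitalAlgebra.adjoin ℂ {a : Fam Γ Y | ∃ f g i j, a = gen f g i j} :
      NonUnitalSubalgebra ℂ (Fam Γ Y)) : Set (Fam Γ Y)) := ha
  obtain ⟨b, hb, hab⟩ := Metric.mem_closure_iff.1 h1 (ε / 2) (half_pos hε)
  obtain ⟨l, rfl⟩ := CB2_adjoin hb
  obtain ⟨l', hl', hn⟩ := CB2_compact l (half_pos hε)
  refine ⟨l', hl', ?_⟩
  rw [dist_eq_norm] at hab
  calc ‖a - val l'‖ = ‖(a - val l) + (val l - val l')‖ := by rw [sub_add_sub_cancel]
    _ ≤ ‖a - val l‖ + ‖val l - val l'‖ := norm_add_le _ _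
    _ < ε / 2 + ε / 2 := add_lt_add hab hn
    _ = ε := add_halves ε

end PartCB2

section PartCB3

open scoped ENNReal Topology ZeroAtInfty
open Filter Topology

variable {Γ Y Z : Type} [Group Γ] [TopologicalSpace Y] [MulAction Γ Y]
  [TopologicalSpace Z] [MulAction Γ Z]

/-- PROOF: `pull p` maps generators to generators (`pull_gen`), is a ring homomorphism and complex
linear, continuous: `NonUnitalSubalgebra.topologicalClosure` is mapped into the closed algebra
`cp Γ Z`. (Or with `exists_val_near` if the action is continuous; here no continuity is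
needed: `closure_induction`-type argument with `NonUnitalAlgebra.adjoin_induction`, and
`isClosed_cp`, `continuous_pull`.) -/
theorem pull_mem_cp {p : Z → Y} (hp : IsProperMap p)
    (he : ∀ (g : Γ) z, p (g • z) = g • p z) : ∀ a ∈ cp Γ Y, pull p a ∈ cp Γ Z := by
  have hcl : IsClosed {a : Fam Γ Y | pull p a ∈ cp Γ Z} :=
    (isClosed_cp (Γ := Γ) (Y := Z)).preimage (continuous_pull p)
  have hsub : ((NonUnitalAlgebra.adjoin ℂ {a : Fam Γ Y | ∃ f g i j, a = gen f g i j} :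
      NonUnitalSubalgebra ℂ (Fam Γ Y)) : Set (Fam Γ Y)) ⊆ {a : Fam Γ Y | pull p a ∈ cp Γ Z} := by
    intro a ha
    refine NonUnitalAlgebra.adjoin_induction (p := fun a _ => pull p a ∈ cp Γ Z)
      ?_ ?_ ?_ ?_ ?_ ha
    · rintro _ ⟨f, g, i, j, rfl⟩
      rw [pull_gen hp he]
      exact NonUnitalSubalgebra.le_topologicalClosure _
        (NonUnitalAlgebra.subset_adjoin ℂ ⟨_, _, _, _, rfl⟩)
    · intro x y _ _ hx hy
      rw [map_add]
      exact add_mem hx hy
    · rw [map_zero]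
      exact zero_mem _
    · intro x y _ _ hx hy
      rw [map_mul]
      exact mul_mem hx hy
    · intro c x _ hx
      have h : pull p (c • x) = c • pull p x := rfl
      rw [h]
      exact (cp Γ Z).smul_mem c hx
  intro a ha
  exact closure_minimal hsub hcl ha

/-- PROOF: induction on `l`, `pull_gen`. -/
lemma pull_val {p : Z → Y} (hp : IsProperMap p) (he : ∀ (g : Γ) z, p (g • z) = g • p z)
    (l : List (Dat Γ Y)) : pull p (val l) = val (mapL (pullC p hp) l) := by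
  induction l with
  | nil => exact map_zero (pull p)
  | cons d l ih =>
    rw [val_cons, map_add, ih]
    change _ = val (⟨pullC p hp d.f, d.g, d.i, d.j⟩ :: mapL (pullC p hp) l)
    rw [val_cons]
    congr 1
    exact pull_gen hp he d.f d.g d.i d.j

omit [TopologicalSpace Y] [MulAction Γ Y] [TopologicalSpace Z] [MulAction Γ Z] in
/-- The map of the groups of invertible families. -/
def pullU (p : Z → Y) : (Fam Γ Y)ˣ →* (Fam Γ Z)ˣ :=
  Units.map ((pull p : Fam Γ Y →+* Fam Γ Z) : Fam Γ Y →* Fam Γ Z)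

omit [TopologicalSpace Y] [MulAction Γ Y] [TopologicalSpace Z] [MulAction Γ Z] in
@[simp] lemma pullU_val (p : Z → Y) (u : (Fam Γ Y)ˣ) :
    ((pullU p u : (Fam Γ Z)ˣ) : Fam Γ Z) = pull p (u : Fam Γ Y) := rfl

/-- The homomorphism `K₁(C₀(Y) ⋊_r Γ) → K₁(C₀(Z) ⋊_r Γ)` of a proper equivariant map `Z → Y`. -/
def K1.pull (p : Z → Y) (hp : IsProperMap p) (he : ∀ (g : Γ) z, p (g • z) = g • p z) :
    K1 (cp Γ Y) →* K1 (cp Γ Z) :=
  K1.map (Cut.pull p) (continuous_pull p) (pull_mem_cp hp he)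

end PartCB3

section PartCC1

open scoped ENNReal Topology ZeroAtInfty
open Filter Topology

variable {Γ Y O : Type} [Group Γ] [TopologicalSpace Y] [MulAction Γ Y]
  [TopologicalSpace O] [MulAction Γ O]

open Classical in
/-- Extension by zero of a family of operators along an injective map `o : O → Y`. -/
def extF (o : O → Y) : Fam Γ O →ₙ+* Fam Γ Y where
  toFun a := Fam.mk (fun y => if h : ∃ x, o x = y then a h.choose else 0) ‖a‖ (fun y => by
    split_ifs with h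
    · exact a.norm_apply_le _
    · simp)
  map_mul' a b := by
    ext1 y
    simp only [Fam.mul_apply, Fam.mk_apply]
    split_ifs
    · rfl
    · simp
  map_zero' := by
    ext1 y
    simp only [Fam.zero_apply, Fam.mk_apply]
    split_ifs <;> rfl
  map_add' a b := by
    ext1 y
    simp only [Fam.add_apply, Fam.mk_apply]
    split_ifs
    · rfl
    · simp

omit [TopologicalSpace Y] [MulAction Γ Y] [TopologicalSpace O] [MulAction Γ O] in
/-- PROOF: definition, `o` injective. -/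
lemma extF_apply {o : O → Y} (ho : Function.Injective o) (a : Fam Γ O) (x : O) :
    extF o a (o x) = a x := by
  classical
  have h : ∃ x', o x' = o x := ⟨x, rfl⟩
  have h1 : extF o a (o x) = if h : ∃ x', o x' = o x then a h.choose else 0 := rfl
  rw [h1, dif_pos h, ho h.choose_spec]

omit [TopologicalSpace Y] [MulAction Γ Y] [TopologicalSpace O] [MulAction Γ O] in
lemma extF_apply_of_notMem {o : O → Y} (a : Fam Γ O) {y : Y} (hy : y ∉ Set.range o) :
    extF o a y = 0 := by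
  classical
  have h1 : extF o a y = if h : ∃ x', o x' = y then a h.choose else 0 := rfl
  rw [h1, dif_neg]
  rintro ⟨x, hx⟩
  exact hy ⟨x, hx⟩

omit [TopologicalSpace Y] [MulAction Γ Y] [TopologicalSpace O] [MulAction Γ O] in
lemma norm_extF {o : O → Y} (ho : Function.Injective o) (a : Fam Γ O) : ‖extF o a‖ = ‖a‖ := by
  apply le_antisymm
  · refine (Fam.norm_le_iff (norm_nonneg a)).2 fun y => ?_
    by_cases hy : y ∈ Set.range o
    · obtain ⟨x, rfl⟩ := hy
      rw [extF_apply ho]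
      exact a.norm_apply_le x
    · rw [extF_apply_of_notMem a hy, norm_zero]
      exact norm_nonneg a
  · refine (Fam.norm_le_iff (norm_nonneg _)).2 fun x => ?_
    rw [← extF_apply ho a x]
    exact (extF o a).norm_apply_le (o x)

end PartCC1

section PartCC2

open scoped ENNReal Topology ZeroAtInfty
open Filter Topology

variable {Γ Y O : Type} [Group Γ] [TopologicalSpace Y] [MulAction Γ Y]
  [TopologicalSpace O] [MulAction Γ O]

/-- PROOF: for `f ∈ C₀(O)` let `F = f` on the range of `o` and `0` elsewhere. `F ∈ C₀(Y)`: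
for `ε > 0` the set `K = {x | ‖f x‖ ≥ ε}` is compact, `o '' K` is compact (closed in `Y`) and
`‖F‖ < ε` off `o '' K`; continuity: on the open range of `o` it is `f ∘ o⁻¹`; at a point `y`
outside the range: for each `ε` the open neighbourhood `(o '' K)ᶜ` of `y` has `‖F‖ < ε`. Formula
`F (o x) = f x`. -/
theorem exists_extC [T2Space Y] {o : O → Y} (ho : IsOpenEmbedding o) (f : C₀(O, ℂ)) :
    ∃ F : C₀(Y, ℂ), (∀ x, F (o x) = f x) ∧ ∀ y ∉ Set.range o, F y = 0 := by
  classical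
  let F : Y → ℂ := fun y => if h : ∃ x, o x = y then f h.choose else 0
  have hF1 : ∀ x, F (o x) = f x := by
    intro x
    have h : ∃ x', o x' = o x := ⟨x, rfl⟩
    show (if h : ∃ x', o x' = o x then f h.choose else 0) = f x
    rw [dif_pos h, ho.injective h.choose_spec]
  have hF2 : ∀ y ∉ Set.range o, F y = 0 := by
    intro y hy
    show (if h : ∃ x', o x' = y then f h.choose else 0) = 0
    rw [dif_neg]
    rintro ⟨x, hx⟩
    exact hy ⟨x, hx⟩
  have hK : ∀ ε : ℝ, 0 < ε → ∃ K : Set Y, IsCompact K ∧ (∀ y ∉ K, ‖F y‖ < ε) ∧ K ⊆ Set.range o := by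
    intro ε hε
    have h1 : ∀ᶠ x in cocompact O, ‖f x‖ < ε := by
      have h2 := f.zero_at_infty'
      rw [tendsto_zero_iff_norm_tendsto_zero] at h2
      exact h2.eventually (gt_mem_nhds hε)
    obtain ⟨K, hKc, hKs⟩ := mem_cocompact.1 h1
    refine ⟨o '' K, hKc.image ho.continuous, ?_, ?_⟩
    · intro y hy
      by_cases hyr : y ∈ Set.range o
      · obtain ⟨x, rfl⟩ := hyr
        rw [hF1]
        exact hKs (fun hx => hy ⟨x, hx, rfl⟩)
      · rw [hF2 y hyr, norm_zero]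
        exact hε
    · rintro _ ⟨x, _, rfl⟩
      exact ⟨x, rfl⟩
  have hcont : Continuous F := by
    rw [continuous_iff_continuousAt]
    intro y
    by_cases hyr : y ∈ Set.range o
    · obtain ⟨x, rfl⟩ := hyr
      rw [← ho.continuousAt_iff]
      have h3 : F ∘ o = f := funext hF1
      rw [h3]
      exact f.continuous.continuousAt
    · have h4 : Tendsto F (𝓝 y) (𝓝 0) := by
        rw [tendsto_zero_iff_norm_tendsto_zero, Metric.tendsto_nhds]
        intro ε hε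
        obtain ⟨K, hKc, hKs, hKr⟩ := hK ε hε
        have h5 : Kᶜ ∈ 𝓝 y := hKc.isClosed.isOpen_compl.mem_nhds (fun hy => hyr (hKr hy))
        filter_upwards [h5] with z hz
        rw [Real.dist_eq, sub_zero, abs_of_nonneg (norm_nonneg _)]
        exact hKs z hz
      have h6 : F y = 0 := hF2 y hyr
      show Tendsto F (𝓝 y) (𝓝 (F y))
      rw [h6]
      exact h4
  have hinf : Tendsto F (cocompact Y) (𝓝 0) := by
    rw [tendsto_zero_iff_norm_tendsto_zero, Metric.tendsto_nhds]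
    intro ε hε
    obtain ⟨K, hKc, hKs, _⟩ := hK ε hε
    filter_upwards [hKc.compl_mem_cocompact] with z hz
    rw [Real.dist_eq, sub_zero, abs_of_nonneg (norm_nonneg _)]
    exact hKs z hz
  exact ⟨⟨⟨F, hcont⟩, hinf⟩, hF1, hF2⟩

end PartCC2

section PartCC3

open scoped ENNReal Topology ZeroAtInfty
open Filter Topology

variable {Γ Y O : Type} [Group Γ] [TopologicalSpace Y] [MulAction Γ Y]
  [TopologicalSpace O] [MulAction Γ O]

/-- PROOF: with `F` from `exists_extC`, `extF o (gen f g i j) = gen F g i j`: at `y = o x` both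
operators have `(T ξ)(s, k) = [k = i] f(s x) ξ(g⁻¹ s, j)` because `s • o x = o (s • x)`; at `y`
outside the range `s • y` is outside the range too (the range is invariant:
`s • y = o x → y = s⁻¹ • o x = o (s⁻¹ • x)`). Closure: as `pull_mem_cp`; `extF o` is additive,
multiplicative, norm preserving (`norm_extF`), and commutes with scalars. -/
theorem extF_mem_cp [T2Space Y] {o : O → Y} (ho : IsOpenEmbedding o)
    (he : ∀ (g : Γ) x, o (g • x) = g • o x) : ∀ a ∈ cp Γ O, extF o a ∈ cp Γ Y := by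
  have hnot : ∀ (s : Γ) (y : Y), y ∉ Set.range o → s • y ∉ Set.range o := by
    rintro s y hy ⟨x, hx⟩
    refine hy ⟨s⁻¹ • x, ?_⟩
    rw [he, hx, inv_smul_smul]
  have hsmul : ∀ (c : ℂ) (a : Fam Γ O), extF o (c • a) = c • extF o a := by
    intro c a
    ext1 y
    by_cases hy : y ∈ Set.range o
    · obtain ⟨x, rfl⟩ := hy
      rw [extF_apply ho.injective, Fam.smul_apply, Fam.smul_apply, extF_apply ho.injective]
    · rw [extF_apply_of_notMem _ hy, Fam.smul_apply, extF_apply_of_notMem _ hy, smul_zero]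
  have hcont : Continuous fun a : Fam Γ O => extF o a := by
    refine continuous_iff_continuousAt.2 fun a => ?_
    rw [ContinuousAt, tendsto_iff_norm_sub_tendsto_zero]
    have h1 : ∀ b : Fam Γ O, ‖extF o b - extF o a‖ = ‖b - a‖ := by
      intro b
      rw [← map_sub, norm_extF ho.injective]
    simp only [h1]
    have h2 : Tendsto (fun b : Fam Γ O => b - a) (𝓝 a) (𝓝 (a - a)) :=
      (continuous_id.sub continuous_const).continuousAt
    rw [sub_self] at h2
    simpa using h2.norm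
  -- the generators
  have hgen : ∀ (f : C₀(O, ℂ)) (g : Γ) (i j : ℕ), extF o (gen f g i j : Fam Γ O) ∈ cp Γ Y := by
    intro f g i j
    obtain ⟨F, hF1, hF2⟩ := exists_extC ho f
    have h1 : extF o (gen f g i j : Fam Γ O) = (gen F g i j : Fam Γ Y) := by
      ext1 y
      by_cases hy : y ∈ Set.range o
      · obtain ⟨x, rfl⟩ := hy
        rw [extF_apply ho.injective]
        refine ContinuousLinearMap.ext fun ξ => ?_
        ext1
        funext p
        rw [show p = (p.1, p.2) from rfl, gen_apply, gen_apply, ← he, hF1]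
      · rw [extF_apply_of_notMem _ hy]
        refine ContinuousLinearMap.ext fun ξ => ?_
        ext1
        funext p
        rw [show p = (p.1, p.2) from rfl, gen_apply, hF2 _ (hnot _ _ hy), zero_mul, ite_self]
        rfl
    rw [h1]
    exact NonUnitalSubalgebra.le_topologicalClosure _
      (NonUnitalAlgebra.subset_adjoin ℂ ⟨F, g, i, j, rfl⟩)
  -- the algebra generated by them
  have halg : ∀ a ∈ NonUnitalAlgebra.adjoin ℂ {a : Fam Γ O | ∃ f g i j, a = gen f g i j},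
      extF o a ∈ cp Γ Y := by
    intro a ha
    induction ha using NonUnitalAlgebra.adjoin_induction with
    | mem x hx =>
      obtain ⟨f, g, i, j, rfl⟩ := hx
      exact hgen f g i j
    | add x y _ _ hx hy => rw [map_add]; exact add_mem hx hy
    | zero => rw [map_zero]; exact zero_mem _
    | mul x y _ _ hx hy => rw [map_mul]; exact mul_mem hx hy
    | smul c x _ hx => rw [hsmul]; exact SMulMemClass.smul_mem c hx
  intro a ha
  have h3 : a ∈ closure (NonUnitalAlgebra.adjoin ℂ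
      {a : Fam Γ O | ∃ f g i j, a = gen f g i j} : Set (Fam Γ O)) := ha
  have h4 : extF o a ∈ closure (cp Γ Y : Set (Fam Γ Y)) :=
    map_mem_closure hcont h3 fun b hb => halg b hb
  rwa [isClosed_cp.closure_eq] at h4

end PartCC3

section PartCC4

open scoped ENNReal Topology ZeroAtInfty
open Filter Topology

variable {Γ Y O : Type} [Group Γ] [TopologicalSpace Y] [MulAction Γ Y]
  [TopologicalSpace O] [MulAction Γ O]

/-- The multiplication by a function `e ∈ C₀(Y)`, as a family of operators: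
`(T_y ξ)(s, k) = e(s y) ξ(s, k)`. PROOF of the bound: `‖e(s y) ξ(s,k)‖ ≤ ‖e‖ ‖ξ(s,k)‖`, as
`wOp` (use `lp.norm_le_of_forall_sum_le`, or compare the sums of squares). -/
theorem exists_dg (e : C₀(Y, ℂ)) : ∃ D : Fam Γ Y, ‖D‖ ≤ ‖e‖ ∧
    ∀ y (ξ : Hil Γ) (s : Γ) (k : ℕ), (D y ξ : Γ × ℕ → ℂ) (s, k) = e (s • y) * ξ (s, k) := by
  have hsq : ∀ ξ : Hil Γ, ‖ξ‖ ^ 2 = ∑' p, ‖(ξ : Γ × ℕ → ℂ) p‖ ^ 2 := by
    intro ξ
    have h := lp.norm_rpow_eq_tsum (p := 2) (by simp) ξ
    simpa using h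
  have hb : ∀ y : Y, ‖e y‖ ≤ ‖e‖ := fun y => e.toBCF.norm_coe_le_norm y
  have hle : ∀ (y : Y) (ξ : Hil Γ) (p : Γ × ℕ),
      ‖e (p.1 • y) * (ξ : Γ × ℕ → ℂ) p‖ ^ 2 ≤ ‖e‖ ^ 2 * ‖(ξ : Γ × ℕ → ℂ) p‖ ^ 2 := by
    intro y ξ p
    rw [norm_mul, mul_pow]
    have := hb (p.1 • y)
    gcongr
  have hsum : ∀ (y : Y) (ξ : Hil Γ), Summable fun p : Γ × ℕ =>
      ‖e (p.1 • y) * (ξ : Γ × ℕ → ℂ) p‖ ^ 2 := fun y ξ =>
    Summable.of_nonneg_of_le (fun _ => by positivity) (hle y ξ) ((summable_hil ξ).mul_left _)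
  have hm : ∀ (y : Y) (ξ : Hil Γ), Memℓp (fun p : Γ × ℕ => e (p.1 • y) * (ξ : Γ × ℕ → ℂ) p) 2 := by
    intro y ξ
    refine memℓp_gen ?_
    simpa using hsum y ξ
  have hnorm : ∀ (y : Y) (ξ : Hil Γ), ‖(⟨_, hm y ξ⟩ : Hil Γ)‖ ≤ ‖e‖ * ‖ξ‖ := by
    intro y ξ
    have h1 : ‖(⟨_, hm y ξ⟩ : Hil Γ)‖ ^ 2 ≤ (‖e‖ * ‖ξ‖) ^ 2 := by
      rw [hsq, mul_pow, hsq, ← tsum_mul_left]
      exact (hsum y ξ).tsum_le_tsum (hle y ξ) ((summable_hil ξ).mul_left _)
    exact (pow_le_pow_iff_left₀ (norm_nonneg _) (by positivity) two_ne_zero).1 h1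
  let T : Y → Op Γ := fun y => LinearMap.mkContinuous
    { toFun := fun ξ => (⟨_, hm y ξ⟩ : Hil Γ)
      map_add' := fun ξ η => by
        ext1
        funext p
        change e (p.1 • y) * ((ξ : Γ × ℕ → ℂ) p + (η : Γ × ℕ → ℂ) p) =
          e (p.1 • y) * (ξ : Γ × ℕ → ℂ) p + e (p.1 • y) * (η : Γ × ℕ → ℂ) p
        ring
      map_smul' := fun c ξ => by
        ext1
        funext p
        change e (p.1 • y) * (c * (ξ : Γ × ℕ → ℂ) p) = c * (e (p.1 • y) * (ξ : Γ × ℕ → ℂ) p)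
        ring } ‖e‖ (hnorm y)
  have hT : ∀ y, ‖T y‖ ≤ ‖e‖ := fun y => LinearMap.mkContinuous_norm_le _ (norm_nonneg _) _
  exact ⟨Fam.mk T ‖e‖ hT, (Fam.norm_le_iff (norm_nonneg _)).2 hT, fun y ξ s k => rfl⟩

/-- The multiplication by the function `e ∈ C₀(Y)`. -/
def dg (e : C₀(Y, ℂ)) : Fam Γ Y := (exists_dg e).choose

@[simp] lemma dg_apply (e : C₀(Y, ℂ)) (y : Y) (ξ : Hil Γ) (s : Γ) (k : ℕ) :
    (dg e y ξ : Γ × ℕ → ℂ) (s, k) = e (s • y) * ξ (s, k) := (exists_dg e).choose_spec.2 y ξ s k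

lemma norm_dg_le (e : C₀(Y, ℂ)) : ‖(dg e : Fam Γ Y)‖ ≤ ‖e‖ := (exists_dg e).choose_spec.1

/-- PROOF: `(T D ξ)(s, k) = [k = i] f(s y) e(g⁻¹ s y) ξ(g⁻¹ s, j)`. -/
lemma gen_mul_dg [ContinuousConstSMul Γ Y] (f e : C₀(Y, ℂ)) (g : Γ) (i j : ℕ) :
    (gen f g i j * dg e : Fam Γ Y) = gen (f * shift g e) g i j := by
  ext1 y
  refine ContinuousLinearMap.ext fun ξ => ?_
  ext1
  funext p
  have e1 : ((gen f g i j * dg e : Fam Γ Y) y ξ : Γ × ℕ → ℂ) (p.1, p.2) =
      (gen f g i j y (dg e y ξ) : Γ × ℕ → ℂ) (p.1, p.2) := rfl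
  rw [show p = (p.1, p.2) from rfl, e1, gen_apply, gen_apply, dg_apply]
  have e2 : (f * shift g e) (p.1 • y) = f (p.1 • y) * e (g⁻¹ • p.1 • y) := rfl
  rw [e2, mul_smul]
  split_ifs
  · ring
  · rfl

/-- PROOF: induction on `l`, `gen_mul_dg`. -/
lemma val_mul_dg [ContinuousConstSMul Γ Y] (l : List (Dat Γ Y)) (e : C₀(Y, ℂ)) :
    val l * dg e = val (l.map fun d => (⟨d.f * shift d.g e, d.g, d.i, d.j⟩ : Dat Γ Y)) := by
  induction l with
  | nil => simp [val_nil]
  | cons d l ih =>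
    rw [List.map_cons, val_cons, val_cons, add_mul, ih]
    congr 1
    exact gen_mul_dg d.f e d.g d.i d.j

/-- PROOF: `exists_val_near`, `val_mul_dg`, `isClosed_cp`. -/
lemma mul_dg_mem [ContinuousConstSMul Γ Y] {a : Fam Γ Y} (ha : a ∈ cp Γ Y) (e : C₀(Y, ℂ)) :
    a * dg e ∈ cp Γ Y := by
  have h1 : a * dg e ∈ closure (cp Γ Y : Set (Fam Γ Y)) := by
    rw [Metric.mem_closure_iff]
    intro ε hε
    have hpos : 0 < ‖(dg e : Fam Γ Y)‖ + 1 := by positivity
    obtain ⟨l, -, hl⟩ := exists_val_near ha (show 0 < ε / (‖(dg e : Fam Γ Y)‖ + 1) by positivity)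
    refine ⟨val l * dg e, ?_, ?_⟩
    · rw [val_mul_dg]
      exact val_mem _
    · rw [dist_eq_norm, ← sub_mul]
      refine lt_of_le_of_lt (norm_mul_le _ _) ?_
      rw [lt_div_iff₀ hpos] at hl
      nlinarith [norm_nonneg (a - val l), norm_nonneg (dg e : Fam Γ Y)]
  rwa [isClosed_cp.closure_eq] at h1

end PartCC4

end Pool.Agent.Lib.MP_aa9b81_an.Cut
end
end

section

/-!
# Cutting theorem, part K
-/

noncomputable section

namespace Pool.Agent.Lib.MP_aa9b81_an.Cut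

section PartKA

open Topology

variable {B : Type} [NormedRing B] [NormedAlgebra ℂ B]

/-- The group generated by the elements `u` of `GL1 A` with `‖u - 1‖ < 1`. -/
def E1 (A : NonUnitalSubalgebra ℂ B) : Subgroup Bˣ :=
  Subgroup.closure {u | u ∈ GL1 A ∧ ‖(u : B) - 1‖ < 1}

lemma E1_le (A : NonUnitalSubalgebra ℂ B) : E1 A ≤ GL1 A :=
  (Subgroup.closure_le _).2 fun _ h => h.1

lemma mem_E1_of_small {A : NonUnitalSubalgebra ℂ B} {u : Bˣ} (hu : u ∈ GL1 A)
    (h : ‖(u : B) - 1‖ < 1) : u ∈ E1 A :=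
  Subgroup.subset_closure ⟨hu, h⟩

/-- TASK K01. PROOF: the unit `Units.oneSub (-a)` (or `Units.mk` with the inverse
`∑' n, (-a)^n`, `NormedRing.summable_geometric_of_norm_lt_one`, `mul_neg_geom_series`,
`geom_series_mul_neg`). Its inverse minus `1` is `∑' n, (-a)^(n+1)` (shift the sum,
`Summable.tsum_eq_zero_add`), a limit of finite sums of elements `(-a)^(n+1)` of `A`, so in the
closed set `A` (`HasSum.mem_of_closed`-like argument: `IsClosed.mem_of_tendsto` with the partial sums). -/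
theorem exists_unit_one_add [CompleteSpace B] {A : NonUnitalSubalgebra ℂ B}
    (hA : IsClosed (A : Set B)) {a : B} (ha : a ∈ A) (h : ‖a‖ < 1) :
    ∃ u ∈ GL1 A, (u : B) = 1 + a := by
  have h' : ‖-a‖ < 1 := by rwa [norm_neg]
  have hs : Summable (fun n : ℕ => (-a) ^ n) := summable_geometric_of_norm_lt_one h'
  refine ⟨Units.oneSub (-a) h', ⟨?_, ?_⟩, by rw [Units.val_oneSub]; abel⟩
  · rw [Units.val_oneSub]
    simpa using ha
  · have e : (((Units.oneSub (-a) h')⁻¹ : Bˣ) : B) = ∑' n : ℕ, (-a) ^ n := rfl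
    rw [e]
    have h1 : HasSum (fun n : ℕ => (-a) ^ (n + 1)) ((∑' n : ℕ, (-a) ^ n) - 1) := by
      have := (hasSum_nat_add_iff' 1).2 hs.hasSum
      simpa using this
    refine hA.mem_of_tendsto h1.tendsto_sum_nat (Filter.Eventually.of_forall fun N => ?_)
    refine sum_mem fun n hn => ?_
    clear hn
    induction n with
    | zero => simpa using neg_mem ha
    | succ n ih =>
      rw [pow_succ]
      exact mul_mem ih (neg_mem ha)

end PartKA

section PartKB

open Topology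

variable {B : Type} [NormedRing B] [NormedAlgebra ℂ B] [CompleteSpace B]

/-- Elements of `GL1 A` near to each other. PROOF: `u⁻¹ v ∈ GL1 A` and
`u⁻¹ v - 1 = u⁻¹ (v - u)` has norm `< 1`. -/
theorem E1_of_near {A : NonUnitalSubalgebra ℂ B} {u v : Bˣ} (hu : u ∈ GL1 A) (hv : v ∈ GL1 A)
    (h : ‖((u⁻¹ : Bˣ) : B)‖ * ‖(v : B) - u‖ < 1) : u⁻¹ * v ∈ E1 A := by
  refine mem_E1_of_small (mul_mem (inv_mem hu) hv) ?_
  have e : ((u⁻¹ * v : Bˣ) : B) - 1 = ((u⁻¹ : Bˣ) : B) * ((v : B) - u) := by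
    rw [mul_sub, Units.inv_mul, Units.val_mul]
  rw [e]
  exact (norm_mul_le _ _).trans_lt h

/-- PROOF: let `T = {t ∈ [0,1] | (p 0)⁻¹ * p t ∈ E1 A}`. For `s ∈ [0,1]` and `t ∈ [0,1]` near to
`s` one has `(p s)⁻¹ * p t ∈ E1 A` by `E1_of_near` (`‖(p s)⁻¹‖ ‖p t - p s‖ < 1` by continuity at
`s`), so `s ∈ T ↔ t ∈ T`. So `T` is relatively open and closed in `[0,1]`, contains `0`, and
`[0,1]` is connected (`isPreconnected_Icc`; or: `IsPreconnected.constant_of_mapsTo`/
`IsPreconnected.eqOn_const_of_mapsTo` for the locally constant function `t ↦ decide (t ∈ T)`; or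
`Convex`/`sSup` argument). -/
theorem E1_of_path {A : NonUnitalSubalgebra ℂ B} (p : ℝ → Bˣ)
    (hp : ∀ t ∈ Set.Icc (0 : ℝ) 1, p t ∈ GL1 A)
    (hc : ContinuousOn (fun t => (p t : B)) (Set.Icc 0 1)) : (p 0)⁻¹ * p 1 ∈ E1 A := by
  refine (isPreconnected_Icc (a := (0 : ℝ)) (b := 1)).induction₂' (fun s t => (p s)⁻¹ * p t ∈ E1 A)
    ?_ ?_ (Set.left_mem_Icc.2 zero_le_one) (Set.right_mem_Icc.2 zero_le_one)
  · intro x hx
    have h1 : Filter.Tendsto (fun y => ‖(((p x)⁻¹ : Bˣ) : B)‖ * ‖(p y : B) - p x‖)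
        (𝓝[Set.Icc 0 1] x) (𝓝 (‖(((p x)⁻¹ : Bˣ) : B)‖ * ‖(p x : B) - p x‖)) :=
      (((hc x hx).sub tendsto_const_nhds).norm).const_mul _
    rw [sub_self, norm_zero, mul_zero] at h1
    filter_upwards [h1.eventually (gt_mem_nhds zero_lt_one), self_mem_nhdsWithin] with y hy hy2
    have h2 := E1_of_near (hp x hx) (hp y hy2) hy
    refine ⟨h2, ?_⟩
    have h3 := inv_mem h2
    rwa [mul_inv_rev, inv_inv] at h3
  · intro x y z _ _ _ h1 h2
    have h3 := mul_mem h1 h2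
    have e : (p x)⁻¹ * p y * ((p y)⁻¹ * p z) = (p x)⁻¹ * p z := by group
    rwa [e] at h3

end PartKB

section PartKC

open Topology

variable {B : Type} [NormedRing B] [NormedAlgebra ℂ B] [CompleteSpace B]

/-- PROOF. `→`: `E1_le` gives `hu`. The set of `w : GL1 A` with `(w : Bˣ) ∈ E1 A`... use
`Subgroup.closure_induction` (or: the subgroup `(Subgroup.pathComponentOne (GL1 A)).map
(GL1 A).subtype` contains the generators). For a generator `u`, `a = u - 1 ∈ A`, `‖a‖ < 1`; for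
`t ∈ [0,1]` let `q t ∈ GL1 A` be the unit with value `1 + t a` (`exists_unit_one_add`), `q 0 = 1`,
`q 1 = u` (`Units.ext`); `t ↦ q t` is continuous into `Bˣ` because `Units.isOpenEmbedding_val`
(an inducing map) and `t ↦ 1 + t a` is continuous; so into the subtype `GL1 A`.
`←`: a path in `GL1 A` from `1` to `u` gives `p : ℝ → Bˣ` (`p t = γ (projIcc t)`,
`Path.extend`), and `E1_of_path` gives `1⁻¹ * u ∈ E1 A`. -/
theorem mem_E1_iff {A : NonUnitalSubalgebra ℂ B} (hA : IsClosed (A : Set B)) (u : Bˣ) :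
    u ∈ E1 A ↔ ∃ hu : u ∈ GL1 A, (⟨u, hu⟩ : GL1 A) ∈ Subgroup.pathComponentOne (GL1 A) := by
  constructor
  · intro hu
    have hle : E1 A ≤ (Subgroup.pathComponentOne (GL1 A)).map (GL1 A).subtype := by
      refine (Subgroup.closure_le _).2 ?_
      rintro v ⟨hv, hv1⟩
      refine ⟨⟨v, hv⟩, ?_, rfl⟩
      have hq : ∀ t : unitInterval, ∃ w ∈ GL1 A, (w : B) = 1 + (((t : ℝ) : ℂ) • ((v : B) - 1)) := by
        intro t
        refine exists_unit_one_add hA (A.smul_mem _ hv.1) ?_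
        rw [norm_smul, Complex.norm_real, Real.norm_eq_abs, abs_of_nonneg t.2.1]
        exact lt_of_le_of_lt (mul_le_of_le_one_left (norm_nonneg _) t.2.2) hv1
      choose q hq1 hq2 using hq
      have hcont : Continuous (fun t : unitInterval => (⟨q t, hq1 t⟩ : GL1 A)) := by
        refine Continuous.subtype_mk ?_ _
        rw [Units.isOpenEmbedding_val.isInducing.continuous_iff]
        have : (Units.val ∘ fun t : unitInterval => q t) =
            fun t : unitInterval => 1 + (((t : ℝ) : ℂ) • ((v : B) - 1)) := by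
          funext t; exact hq2 t
        rw [this]
        fun_prop
      show Joined (1 : GL1 A) ⟨v, hv⟩
      refine ⟨⟨⟨_, hcont⟩, ?_, ?_⟩⟩
      · apply Subtype.ext
        apply Units.ext
        show (q 0 : B) = ((1 : Bˣ) : B)
        rw [hq2]; simp
      · apply Subtype.ext
        apply Units.ext
        show (q 1 : B) = (v : B)
        rw [hq2]; simp
    obtain ⟨w, hw1, hw2⟩ := hle hu
    have hw3 : (w : Bˣ) = u := hw2
    subst hw3
    exact ⟨w.2, hw1⟩
  · rintro ⟨hu, hj⟩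
    have hj' : Joined (1 : GL1 A) ⟨u, hu⟩ := hj
    obtain ⟨γ⟩ := hj'
    have h := E1_of_path (A := A) (fun t => ((γ.extend t : GL1 A) : Bˣ))
      (fun t _ => (γ.extend t).2)
      (Continuous.continuousOn (Units.continuous_val.comp
        (continuous_subtype_val.comp γ.continuous_extend)))
    simpa using h

/-- PROOF: `mem_E1_iff` and `QuotientGroup.eq_one_iff`, `QuotientGroup.mk_surjective`. -/
theorem K1_subsingleton_iff {A : NonUnitalSubalgebra ℂ B} (hA : IsClosed (A : Set B)) :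
    Subsingleton (K1 A) ↔ GL1 A ≤ E1 A := by
  constructor
  · intro h u hu
    rw [mem_E1_iff hA]
    refine ⟨hu, ?_⟩
    rw [← QuotientGroup.eq_one_iff]
    exact Subsingleton.elim _ _
  · intro h
    refine ⟨fun x y => ?_⟩
    obtain ⟨x, rfl⟩ := QuotientGroup.mk_surjective x
    obtain ⟨y, rfl⟩ := QuotientGroup.mk_surjective y
    have e : ∀ z : GL1 A, (QuotientGroup.mk z : K1 A) = 1 := by
      intro z
      rw [QuotientGroup.eq_one_iff]
      exact ((mem_E1_iff hA (z : Bˣ)).1 (h z.2)).2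
    rw [e x, e y]

end PartKC

section PartKD1

open Topology

variable {B B' : Type} [NormedRing B] [NormedAlgebra ℂ B] [CompleteSpace B]
  [NormedRing B'] [NormedAlgebra ℂ B'] [CompleteSpace B']

private theorem KD1_path {A : NonUnitalSubalgebra ℂ B} {δ : ℝ} (hδ : 0 < δ) (p : ℝ → Bˣ)
    (hp : ∀ t ∈ Set.Icc (0 : ℝ) 1, p t ∈ GL1 A)
    (hc : ContinuousOn (fun t => (p t : B)) (Set.Icc 0 1)) :
    (p 0)⁻¹ * p 1 ∈ Subgroup.closure {u | u ∈ GL1 A ∧ ‖(u : B) - 1‖ < δ} := by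
  refine (isPreconnected_Icc (a := (0 : ℝ)) (b := 1)).induction₂'
    (fun s t => (p s)⁻¹ * p t ∈ Subgroup.closure {u | u ∈ GL1 A ∧ ‖(u : B) - 1‖ < δ})
    ?_ ?_ (Set.left_mem_Icc.2 zero_le_one) (Set.right_mem_Icc.2 zero_le_one)
  · intro x hx
    have h1 : Filter.Tendsto (fun y => ‖(((p x)⁻¹ : Bˣ) : B)‖ * ‖(p y : B) - p x‖)
        (𝓝[Set.Icc 0 1] x) (𝓝 (‖(((p x)⁻¹ : Bˣ) : B)‖ * ‖(p x : B) - p x‖)) :=
      (((hc x hx).sub tendsto_const_nhds).norm).const_mul _
    rw [sub_self, norm_zero, mul_zero] at h1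
    filter_upwards [h1.eventually (gt_mem_nhds hδ), self_mem_nhdsWithin] with y hy hy2
    have h2 : (p x)⁻¹ * p y ∈ Subgroup.closure {u | u ∈ GL1 A ∧ ‖(u : B) - 1‖ < δ} := by
      refine Subgroup.subset_closure ⟨mul_mem (inv_mem (hp x hx)) (hp y hy2), ?_⟩
      have e : (((p x)⁻¹ * p y : Bˣ) : B) - 1 = (((p x)⁻¹ : Bˣ) : B) * ((p y : B) - p x) := by
        rw [mul_sub, Units.inv_mul, Units.val_mul]
      rw [e]
      exact (norm_mul_le _ _).trans_lt hy
    refine ⟨h2, ?_⟩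
    have h3 := inv_mem h2
    rwa [mul_inv_rev, inv_inv] at h3
  · intro x y z _ _ _ h1 h2
    have h3 := mul_mem h1 h2
    have e : (p x)⁻¹ * p y * ((p y)⁻¹ * p z) = (p x)⁻¹ * p z := by group
    rwa [e] at h3

/-- PROOF: let `u` be a generator of `E1 A`, `a = u - 1`, `‖a‖ < 1`. Let `q t` be the unit of
`GL1 A` with value `1 + t a`, `t ∈ [0,1]` (`exists_unit_one_add`); `‖(q t)⁻¹‖ ≤ 1/(1 - ‖a‖)`
if `‖1‖ = 1`, in general it is bounded by some `M` (the inverse is the sum of `(-t a)^n`, so the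
norm is at most `‖1‖ + ∑ ‖a‖^(n+1)`). With `n` large, `v_i = (q (i/n))⁻¹ * q ((i+1)/n)` has
`v_i - 1 = (q (i/n))⁻¹ * (a/n)` of norm `≤ M ‖a‖ / n < δ`, and `u = v_0 v_1 ⋯ v_{n-1}` (telescoping,
induction on the number of factors: `q (m/n) ∈ closure`). `Subgroup.closure_le`. -/
theorem E1_le_closure {A : NonUnitalSubalgebra ℂ B} (hA : IsClosed (A : Set B)) {δ : ℝ}
    (hδ : 0 < δ) : E1 A ≤ Subgroup.closure {u | u ∈ GL1 A ∧ ‖(u : B) - 1‖ < δ} := by
  refine (Subgroup.closure_le _).2 ?_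
  rintro v ⟨hv, hv1⟩
  have hq : ∀ t : ℝ, ∃ w : Bˣ, t ∈ Set.Icc (0 : ℝ) 1 → w ∈ GL1 A ∧
      (w : B) = 1 + ((t : ℂ) • ((v : B) - 1)) := by
    intro t
    by_cases ht : t ∈ Set.Icc (0 : ℝ) 1
    · obtain ⟨w, hw1, hw2⟩ := exists_unit_one_add hA (a := (t : ℂ) • ((v : B) - 1))
        (A.smul_mem _ hv.1) (by
          rw [norm_smul, Complex.norm_real, Real.norm_eq_abs, abs_of_nonneg ht.1]
          exact lt_of_le_of_lt (mul_le_of_le_one_left (norm_nonneg _) ht.2) hv1)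
      exact ⟨w, fun _ => ⟨hw1, hw2⟩⟩
    · exact ⟨1, fun h => absurd h ht⟩
  choose q hq using hq
  have h := KD1_path (A := A) hδ q (fun t ht => (hq t ht).1) (by
    have hc : ContinuousOn (fun t : ℝ => (1 : B) + ((t : ℂ) • ((v : B) - 1))) (Set.Icc 0 1) := by
      fun_prop
    exact hc.congr fun t ht => (hq t ht).2)
  have e0 : q 0 = 1 := by
    apply Units.ext
    rw [(hq 0 (Set.left_mem_Icc.2 zero_le_one)).2]
    simp
  have e1 : q 1 = v := by
    apply Units.ext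
    rw [(hq 1 (Set.right_mem_Icc.2 zero_le_one)).2]
    simp
  rw [e0, e1, inv_one, one_mul] at h
  exact h

end PartKD1

section PartKD2

open Topology

variable {B B' : Type} [NormedRing B] [NormedAlgebra ℂ B] [CompleteSpace B]
  [NormedRing B'] [NormedAlgebra ℂ B'] [CompleteSpace B']

/-- `φ` maps `A` onto `A'` and norms can be controlled. -/
structure NormLift (φ : B →+* B') (A : NonUnitalSubalgebra ℂ B) (A' : NonUnitalSubalgebra ℂ B') :
    Prop where
  mem : ∀ a ∈ A, φ a ∈ A'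
  lift : ∀ b ∈ A', ∃ a ∈ A, φ a = b ∧ ‖a‖ ≤ 2 * ‖b‖

/-- PROOF: by `E1_le_closure` (for `A'`, `δ = 1/2`) and `Subgroup.closure_induction`. For a
generator `v`, `‖v - 1‖ < 1/2`, take `a ∈ A` with `φ a = v - 1`, `‖a‖ ≤ 2 ‖v - 1‖ < 1`, and the
unit `u = 1 + a ∈ GL1 A` (`exists_unit_one_add`), `u ∈ E1 A` (`mem_E1_of_small`),
`Units.map φ u = v` (`Units.ext`). One, products and inverses: `map_one`, `map_mul`, `map_inv`. -/
theorem E1_lift {φ : B →+* B'} {A : NonUnitalSubalgebra ℂ B} {A' : NonUnitalSubalgebra ℂ B'}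
    (hA : IsClosed (A : Set B)) (hA' : IsClosed (A' : Set B')) (hφ : NormLift φ A A')
    {v : B'ˣ} (hv : v ∈ E1 A') : ∃ u ∈ E1 A, Units.map (φ : B →* B') u = v := by
  have hle : E1 A' ≤ (E1 A).map (Units.map (φ : B →* B')) := by
    refine (E1_le_closure hA' (δ := 1 / 2) (by norm_num)).trans ((Subgroup.closure_le _).2 ?_)
    rintro w ⟨hw, hw1⟩
    obtain ⟨a, ha, ha2, ha3⟩ := hφ.lift _ hw.1
    have hlt : ‖a‖ < 1 := by linarith
    obtain ⟨u, hu, hu2⟩ := exists_unit_one_add hA ha hlt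
    refine ⟨u, mem_E1_of_small hu (by rw [hu2]; simpa using hlt), ?_⟩
    apply Units.ext
    show φ (u : B) = (w : B')
    rw [hu2, map_add, map_one, ha2]
    abel
  obtain ⟨u, hu, hu2⟩ := hle hv
  exact ⟨u, hu, hu2⟩

/-- PROOF: lift `Units.map φ u` to `e ∈ E1 A` (`E1_lift`), `w = u * e⁻¹`. -/
theorem exact_middle {φ : B →+* B'} {A : NonUnitalSubalgebra ℂ B} {A' : NonUnitalSubalgebra ℂ B'}
    (hA : IsClosed (A : Set B)) (hA' : IsClosed (A' : Set B')) (hφ : NormLift φ A A')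
    {u : Bˣ} (hu : u ∈ GL1 A) (h : Units.map (φ : B →* B') u ∈ E1 A') :
    ∃ w ∈ GL1 A, Units.map (φ : B →* B') w = 1 ∧ w⁻¹ * u ∈ E1 A := by
  obtain ⟨e, he, he2⟩ := E1_lift hA hA' hφ h
  refine ⟨u * e⁻¹, mul_mem hu (inv_mem (E1_le A he)), ?_, ?_⟩
  · rw [map_mul, map_inv, he2, mul_inv_cancel]
  · have e1 : (u * e⁻¹)⁻¹ * u = e := by group
    rw [e1]; exact he

end PartKD2

section PartKE

open Topology

variable {B : Type} [NormedRing B] [NormedAlgebra ℂ B] [CompleteSpace B]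

/-- PROOF: `(1+b)(1+c) = 1 + x` with `x = b + c + b c ∈ A`, `(1+c)(1+b) = 1 + y` with
`y = c + b + c b ∈ A`. By `exists_unit_one_add` there are units `X = 1 + x`, `Y = 1 + y` in `GL1 A`.
`(1+c) X⁻¹` is a right inverse and `Y⁻¹ (1+c)` a left inverse of `1 + b`, so they are equal and
`1 + b` is a unit `v` with inverse `(1+c) X⁻¹`; `v - 1 = b ∈ A` and
`v⁻¹ - 1 = (1+c) X⁻¹ - 1 = (X⁻¹ - 1) + c + c (X⁻¹ - 1) ∈ A`. -/
theorem exists_unit_of_almost_inverse {A : NonUnitalSubalgebra ℂ B} (hA : IsClosed (A : Set B))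
    {b c : B} (hb : b ∈ A) (hc : c ∈ A) (h1 : ‖b + c + b * c‖ < 1) (h2 : ‖c + b + c * b‖ < 1) :
    ∃ v ∈ GL1 A, (v : B) = 1 + b := by
  obtain ⟨X, hX, hX2⟩ := exists_unit_one_add hA
    (add_mem (add_mem hb hc) (mul_mem hb hc)) h1
  obtain ⟨Y, hY, hY2⟩ := exists_unit_one_add hA
    (add_mem (add_mem hc hb) (mul_mem hc hb)) h2
  have eX : (1 + b) * (1 + c) = (X : B) := by rw [hX2]; noncomm_ring
  have eY : (1 + c) * (1 + b) = (Y : B) := by rw [hY2]; noncomm_ring
  have hr : (1 + b) * ((1 + c) * ((X⁻¹ : Bˣ) : B)) = 1 := by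
    rw [← mul_assoc, eX, Units.mul_inv]
  have hl : (((Y⁻¹ : Bˣ) : B) * (1 + c)) * (1 + b) = 1 := by
    rw [mul_assoc, eY, Units.inv_mul]
  have hlr : ((Y⁻¹ : Bˣ) : B) * (1 + c) = (1 + c) * ((X⁻¹ : Bˣ) : B) :=
    left_inv_eq_right_inv hl hr
  refine ⟨⟨1 + b, (1 + c) * ((X⁻¹ : Bˣ) : B), hr, hlr ▸ hl⟩, ⟨?_, ?_⟩, rfl⟩
  · show (1 + b) - 1 ∈ A
    simpa using hb
  · show (1 + c) * ((X⁻¹ : Bˣ) : B) - 1 ∈ A
    have e : (1 + c) * ((X⁻¹ : Bˣ) : B) - 1 =
        (((X⁻¹ : Bˣ) : B) - 1) + c + c * (((X⁻¹ : Bˣ) : B) - 1) := by noncomm_ring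
    rw [e]
    exact add_mem (add_mem hX.2 hc) (mul_mem hc hX.2)

/-- PROOF: with `b' = u - 1`, `c' = u⁻¹ - 1` one has `b' + c' + b' c' = 0 = c' + b' + c' b'`. So
`‖b + c + b c‖ = ‖(b - b') + (c - c') + (b - b') c + b' (c - c')‖ ≤ η (2 + ‖c'‖ + η + ‖b'‖)`, and
similarly for the other one. Choose `η ≤ 1` so small that these are `< 1` and
`‖u⁻¹‖ η < 1`. Then `exists_unit_of_almost_inverse` for `A₀` gives `v`, and `u⁻¹ v ∈ E1 A` by
`E1_of_near` (`v - u = b - b'`, `v ∈ GL1 A₀ ≤ GL1 A`). -/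
theorem exists_near_unit {A A₀ : NonUnitalSubalgebra ℂ B} (hA₀ : IsClosed (A₀ : Set B))
    (hle : A₀ ≤ A) {u : Bˣ} (hu : u ∈ GL1 A) :
    ∃ η : ℝ, 0 < η ∧ ∀ b ∈ A₀, ∀ c ∈ A₀, ‖(u : B) - 1 - b‖ < η →
      ‖((u⁻¹ : Bˣ) : B) - 1 - c‖ < η → ∃ v ∈ GL1 A₀, (v : B) = 1 + b ∧ u⁻¹ * v ∈ E1 A := by
  set b' : B := (u : B) - 1 with hb'
  set c' : B := ((u⁻¹ : Bˣ) : B) - 1 with hc'
  have z1 : b' + c' + b' * c' = 0 := by
    have : b' + c' + b' * c' = (u : B) * ((u⁻¹ : Bˣ) : B) - 1 := by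
      rw [hb', hc']; noncomm_ring
    rw [this, Units.mul_inv, sub_self]
  have z2 : c' + b' + c' * b' = 0 := by
    have : c' + b' + c' * b' = ((u⁻¹ : Bˣ) : B) * (u : B) - 1 := by
      rw [hb', hc']; noncomm_ring
    rw [this, Units.inv_mul, sub_self]
  set M : ℝ := 3 + ‖b'‖ + ‖c'‖ + ‖((u⁻¹ : Bˣ) : B)‖ with hM
  have hM3 : 3 ≤ M := by
    rw [hM]
    have := norm_nonneg b'
    have := norm_nonneg c'
    have := norm_nonneg ((u⁻¹ : Bˣ) : B)
    linarith
  have hM0 : 0 < M := by linarith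
  refine ⟨1 / M, by positivity, fun b hb c hc hbn hcn => ?_⟩
  have hη1 : 1 / M ≤ 1 := by rw [div_le_one hM0]; linarith
  have hkey : ∀ x x' y y' : B, x' + y' + x' * y' = 0 → ‖x' - x‖ < 1 / M → ‖y' - y‖ < 1 / M →
      ‖x'‖ + ‖y'‖ ≤ M - 3 → ‖x + y + x * y‖ < 1 := by
    intro x x' y y' hz hx hy hn
    have e : x + y + x * y = -(x' - x) - (y' - y) - (x' - x) * y' - x' * (y' - y) +
        (x' - x) * (y' - y) := by
      have : x + y + x * y = (x + y + x * y) - (x' + y' + x' * y') := by rw [hz, sub_zero]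
      rw [this]; noncomm_ring
    rw [e]
    have t1 : ‖-(x' - x) - (y' - y) - (x' - x) * y' - x' * (y' - y) + (x' - x) * (y' - y)‖ ≤
        ‖x' - x‖ + ‖y' - y‖ + ‖x' - x‖ * ‖y'‖ + ‖x'‖ * ‖y' - y‖ + ‖x' - x‖ * ‖y' - y‖ := by
      refine (norm_add_le _ _).trans (add_le_add ?_ (norm_mul_le _ _))
      refine (norm_sub_le _ _).trans (add_le_add ?_ (norm_mul_le _ _))
      refine (norm_sub_le _ _).trans (add_le_add ?_ (norm_mul_le _ _))
      refine (norm_sub_le _ _).trans (add_le_add ?_ le_rfl)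
      rw [norm_neg]
    refine t1.trans_lt ?_
    have nx := norm_nonneg (x' - x)
    have ny := norm_nonneg (y' - y)
    have nx' := norm_nonneg x'
    have ny' := norm_nonneg y'
    have t2 : ‖x' - x‖ * ‖y'‖ ≤ 1 / M * ‖y'‖ := mul_le_mul_of_nonneg_right hx.le ny'
    have t3 : ‖x'‖ * ‖y' - y‖ ≤ ‖x'‖ * (1 / M) := mul_le_mul_of_nonneg_left hy.le nx'
    have t4 : ‖x' - x‖ * ‖y' - y‖ ≤ 1 / M * 1 :=
      mul_le_mul hx.le (hy.le.trans hη1) ny (by positivity)
    have t5 : 1 / M * (3 + ‖x'‖ + ‖y'‖) ≤ 1 := by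
      rw [div_mul_eq_mul_div, one_mul, div_le_one hM0]; linarith
    nlinarith
  have hn1 : ‖b'‖ + ‖c'‖ ≤ M - 3 := by
    rw [hM]; have := norm_nonneg ((u⁻¹ : Bˣ) : B); linarith
  obtain ⟨v, hv, hv2⟩ := exists_unit_of_almost_inverse hA₀ hb hc
    (hkey b b' c c' z1 hbn hcn hn1) (hkey c c' b b' z2 hcn hbn (by linarith))
  refine ⟨v, hv, hv2, E1_of_near hu ⟨hle hv.1, hle hv.2⟩ ?_⟩
  have e : (v : B) - u = -(b' - b) := by rw [hv2, hb']; abel
  rw [e, norm_neg]
  have hu0 := norm_nonneg ((u⁻¹ : Bˣ) : B)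
  rcases hu0.eq_or_lt with h0 | h0
  · rw [← h0, zero_mul]; norm_num
  · have h1 : ‖((u⁻¹ : Bˣ) : B)‖ * ‖b' - b‖ < ‖((u⁻¹ : Bˣ) : B)‖ * (1 / M) :=
      mul_lt_mul_of_pos_left hbn h0
    refine h1.trans_le ?_
    rw [mul_one_div, div_le_one hM0, hM]
    have := norm_nonneg b'
    have := norm_nonneg c'
    linarith

end PartKE

section PartKF1

open Topology

variable {B B' B₀ : Type} [NormedRing B] [NormedAlgebra ℂ B] [CompleteSpace B]
  [NormedRing B'] [NormedAlgebra ℂ B'] [CompleteSpace B']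
  [NormedRing B₀] [NormedAlgebra ℂ B₀] [CompleteSpace B₀]

omit [CompleteSpace B] [CompleteSpace B'] in
/-- PROOF: definition. -/
theorem GL1_map {φ : B →+* B'} {A : NonUnitalSubalgebra ℂ B} {A' : NonUnitalSubalgebra ℂ B'}
    (h : ∀ a ∈ A, φ a ∈ A') {u : Bˣ} (hu : u ∈ GL1 A) : Units.map (φ : B →* B') u ∈ GL1 A' := by
  obtain ⟨h1, h2⟩ := hu
  constructor
  · simpa using h _ h1
  · simpa using h _ h2

omit [CompleteSpace B] [CompleteSpace B'] in
/-- PROOF: `E1 A ≤ (E1 A').comap (Units.map φ)` by `Subgroup.closure_le`: a generator `u` is mapped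
to `Units.map φ u ∈ GL1 A'` with `‖φ u - 1‖ = ‖φ (u - 1)‖ ≤ ‖u - 1‖ < 1`. -/
theorem E1_map {φ : B →+* B'} {A : NonUnitalSubalgebra ℂ B} {A' : NonUnitalSubalgebra ℂ B'}
    (hφ : ∀ a, ‖φ a‖ ≤ ‖a‖) (h : ∀ a ∈ A, φ a ∈ A') {u : Bˣ} (hu : u ∈ E1 A) :
    Units.map (φ : B →* B') u ∈ E1 A' := by
  have hle : E1 A ≤ (E1 A').comap (Units.map (φ : B →* B')) := by
    refine (Subgroup.closure_le _).2 ?_
    rintro v ⟨hv, hv1⟩
    refine mem_E1_of_small (GL1_map h hv) ?_
    have e : ((Units.map (φ : B →* B') v : B'ˣ) : B') - 1 = φ ((v : B) - 1) := by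
      rw [map_sub, map_one]; rfl
    rw [e]
    exact (hφ _).trans_lt hv1
  exact hle hu

end PartKF1

section PartKF2

open Topology

variable {B B' B₀ : Type} [NormedRing B] [NormedAlgebra ℂ B] [CompleteSpace B]
  [NormedRing B'] [NormedAlgebra ℂ B'] [CompleteSpace B']
  [NormedRing B₀] [NormedAlgebra ℂ B₀] [CompleteSpace B₀]

/-- PROOF: `injective_iff_map_eq_one`, `QuotientGroup.mk_surjective`, `QuotientGroup.eq_one_iff`,
`mem_E1_iff` for `A` and `A'`; `K1.map φ hφ h (mk u) = mk (GL1.map φ h u)`. -/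
theorem K1.map_injective {φ : B →+* B'} {A : NonUnitalSubalgebra ℂ B}
    {A' : NonUnitalSubalgebra ℂ B'} (hA : IsClosed (A : Set B)) (hA' : IsClosed (A' : Set B'))
    (hφ : Continuous φ) (h : ∀ a ∈ A, φ a ∈ A')
    (H : ∀ u ∈ GL1 A, Units.map (φ : B →* B') u ∈ E1 A' → u ∈ E1 A) :
    Function.Injective (K1.map φ hφ h) := by
  rw [injective_iff_map_eq_one]
  intro x hx
  obtain ⟨u, rfl⟩ := QuotientGroup.mk_surjective x
  have e : K1.map φ hφ h (QuotientGroup.mk u) = QuotientGroup.mk (GL1.map φ h u) := rfl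
  rw [e, QuotientGroup.eq_one_iff] at hx
  rw [QuotientGroup.eq_one_iff]
  have h1 : Units.map (φ : B →* B') (u : Bˣ) ∈ E1 A' :=
    (mem_E1_iff hA' _).2 ⟨GL1_map h u.2, hx⟩
  exact ((mem_E1_iff hA _).1 (H _ u.2 h1)).2

/-- PROOF: as before, `QuotientGroup.eq`. -/
theorem K1.map_surjective {φ : B →+* B'} {A : NonUnitalSubalgebra ℂ B}
    {A' : NonUnitalSubalgebra ℂ B'} (hA' : IsClosed (A' : Set B'))
    (hφ : Continuous φ) (h : ∀ a ∈ A, φ a ∈ A')
    (H : ∀ v ∈ GL1 A', ∃ u ∈ GL1 A, (Units.map (φ : B →* B') u)⁻¹ * v ∈ E1 A') :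
    Function.Surjective (K1.map φ hφ h) := by
  intro y
  obtain ⟨v, rfl⟩ := QuotientGroup.mk_surjective y
  obtain ⟨u, hu, hu2⟩ := H v v.2
  refine ⟨QuotientGroup.mk ⟨u, hu⟩, ?_⟩
  have e : K1.map φ hφ h (QuotientGroup.mk ⟨u, hu⟩) = QuotientGroup.mk (GL1.map φ h ⟨u, hu⟩) := rfl
  rw [e, QuotientGroup.eq]
  exact ((mem_E1_iff hA' _).1 hu2).2

/-- PROOF: `K1_subsingleton_iff`-like converse of `K1.map_injective`: if `K1.map` is injective and
`Units.map φ u ∈ E1 A'`, then the class of `u` is mapped to `1`, so it is `1`, so `u ∈ E1 A`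
(`mem_E1_iff`). -/
theorem K1.of_map_injective {φ : B →+* B'} {A : NonUnitalSubalgebra ℂ B}
    {A' : NonUnitalSubalgebra ℂ B'} (hA : IsClosed (A : Set B)) (hA' : IsClosed (A' : Set B'))
    (hφ : Continuous φ) (h : ∀ a ∈ A, φ a ∈ A') (H : Function.Injective (K1.map φ hφ h))
    {u : Bˣ} (hu : u ∈ GL1 A) (hu' : Units.map (φ : B →* B') u ∈ E1 A') : u ∈ E1 A := by
  rw [injective_iff_map_eq_one] at H
  have h1 := H (QuotientGroup.mk ⟨u, hu⟩) (by
    have e : K1.map φ hφ h (QuotientGroup.mk ⟨u, hu⟩) =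
      QuotientGroup.mk (GL1.map φ h ⟨u, hu⟩) := rfl
    rw [e, QuotientGroup.eq_one_iff]
    exact ((mem_E1_iff hA' _).1 hu').2)
  rw [QuotientGroup.eq_one_iff] at h1
  exact (mem_E1_iff hA _).2 ⟨hu, h1⟩

/-- PROOF: converse of `K1.map_surjective`, same computation. -/
theorem K1.of_map_surjective {φ : B →+* B'} {A : NonUnitalSubalgebra ℂ B}
    {A' : NonUnitalSubalgebra ℂ B'} (hA' : IsClosed (A' : Set B'))
    (hφ : Continuous φ) (h : ∀ a ∈ A, φ a ∈ A') (H : Function.Surjective (K1.map φ hφ h))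
    {v : B'ˣ} (hv : v ∈ GL1 A') :
    ∃ u ∈ GL1 A, (Units.map (φ : B →* B') u)⁻¹ * v ∈ E1 A' := by
  obtain ⟨x, hx⟩ := H (QuotientGroup.mk ⟨v, hv⟩)
  obtain ⟨u, rfl⟩ := QuotientGroup.mk_surjective x
  have e : K1.map φ hφ h (QuotientGroup.mk u) = QuotientGroup.mk (GL1.map φ h u) := rfl
  rw [e, QuotientGroup.eq] at hx
  refine ⟨u, u.2, (mem_E1_iff hA' _).2 ⟨mul_mem (inv_mem (GL1_map h u.2)) hv, hx⟩⟩

end PartKF2

section PartKG1

open Topology

variable {B B' B₀ : Type} [NormedRing B] [NormedAlgebra ℂ B] [CompleteSpace B]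
  [NormedRing B'] [NormedAlgebra ℂ B'] [CompleteSpace B']
  [NormedRing B₀] [NormedAlgebra ℂ B₀] [CompleteSpace B₀]

omit [NormedAlgebra ℂ B] [CompleteSpace B] [NormedAlgebra ℂ B₀] [CompleteSpace B₀] in
/-- PROOF: put `a = u - 1`, `a' = u⁻¹ - 1`; `a + a' + a a' = 0` and `a' + a + a' a = 0` since
`u u⁻¹ = 1 = u⁻¹ u`; apply `j` and expand `(1 + j a)(1 + j a')`. -/
theorem extUnit_aux (j : B₀ →ₙ+* B) (u : B₀ˣ) :
    (1 + j ((u : B₀) - 1)) * (1 + j (((u⁻¹ : B₀ˣ) : B₀) - 1)) = 1 ∧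
      (1 + j (((u⁻¹ : B₀ˣ) : B₀) - 1)) * (1 + j ((u : B₀) - 1)) = 1 := by
  have key : ∀ a b : B₀, (1 + a) * (1 + b) = 1 → (1 + j a) * (1 + j b) = 1 := by
    intro a b h
    have h1 : a + b + a * b = 0 := by
      have : a + b + a * b = (1 + a) * (1 + b) - 1 := by noncomm_ring
      rw [this, h, sub_self]
    have h2 : j a + j b + j a * j b = 0 := by
      rw [← map_mul, ← map_add, ← map_add, h1, map_zero]
    have h3 : (1 + j a) * (1 + j b) = 1 + (j a + j b + j a * j b) := by noncomm_ring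
    rw [h3, h2, add_zero]
  refine ⟨key _ _ ?_, key _ _ ?_⟩
  · rw [add_sub_cancel, add_sub_cancel, Units.mul_inv]
  · rw [add_sub_cancel, add_sub_cancel, Units.inv_mul]

/-- The unit `1 + j (u - 1)`, for a nonunital homomorphism `j`. -/
def extUnit (j : B₀ →ₙ+* B) : B₀ˣ →* Bˣ where
  toFun u := ⟨1 + j ((u : B₀) - 1), 1 + j (((u⁻¹ : B₀ˣ) : B₀) - 1), (extUnit_aux j u).1,
    (extUnit_aux j u).2⟩
  map_one' := by
    ext1
    simp
  map_mul' u v := by
    ext1
    have h : (((u * v : B₀ˣ) : B₀) - 1) =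
        ((u : B₀) - 1) * ((v : B₀) - 1) + ((u : B₀) - 1) + ((v : B₀) - 1) := by
      push_cast
      noncomm_ring
    simp only [Units.val_mul]
    rw [← Units.val_mul, h, map_add, map_add, map_mul]
    noncomm_ring

end PartKG1

section PartKG2

open Topology

variable {B B' B₀ : Type} [NormedRing B] [NormedAlgebra ℂ B] [CompleteSpace B]
  [NormedRing B'] [NormedAlgebra ℂ B'] [CompleteSpace B']
  [NormedRing B₀] [NormedAlgebra ℂ B₀] [CompleteSpace B₀]

/-- PROOF: definition of `GL1`. -/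
theorem extUnit_mem_GL1 {j : B₀ →ₙ+* B} {A₀ : NonUnitalSubalgebra ℂ B₀}
    {A : NonUnitalSubalgebra ℂ B} (h : ∀ a ∈ A₀, j a ∈ A) {u : B₀ˣ} (hu : u ∈ GL1 A₀) :
    extUnit j u ∈ GL1 A := by
  constructor
  · show (1 + j ((u : B₀) - 1)) - 1 ∈ A
    rw [add_sub_cancel_left]
    exact h _ hu.1
  · show (1 + j (((u⁻¹ : B₀ˣ) : B₀) - 1)) - 1 ∈ A
    rw [add_sub_cancel_left]
    exact h _ hu.2

/-- PROOF: as `E1_map`. -/
theorem extUnit_mem_E1 {j : B₀ →ₙ+* B} {A₀ : NonUnitalSubalgebra ℂ B₀}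
    {A : NonUnitalSubalgebra ℂ B} (hj : ∀ a, ‖j a‖ ≤ ‖a‖) (h : ∀ a ∈ A₀, j a ∈ A) {u : B₀ˣ}
    (hu : u ∈ E1 A₀) : extUnit j u ∈ E1 A := by
  have hle : E1 A₀ ≤ (E1 A).comap (extUnit j) := by
    refine (Subgroup.closure_le _).2 ?_
    rintro v ⟨hv, hv1⟩
    refine mem_E1_of_small (extUnit_mem_GL1 h hv) ?_
    show ‖(1 + j ((v : B₀) - 1)) - 1‖ < 1
    rw [add_sub_cancel_left]
    exact (hj _).trans_lt hv1
  exact hle hu

/-- `A₀ → A → A'` is exact, `A₀ → A` is isometric and `A → A'` is onto with norm control. -/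
structure ExactSeq (j : B₀ →ₙ+* B) (φ : B →+* B') (A₀ : NonUnitalSubalgebra ℂ B₀)
    (A : NonUnitalSubalgebra ℂ B) (A' : NonUnitalSubalgebra ℂ B') : Prop where
  norm : ∀ a, ‖j a‖ = ‖a‖
  mem : ∀ a ∈ A₀, j a ∈ A
  ker : ∀ a ∈ A, φ a = 0 → ∃ a₀ ∈ A₀, j a₀ = a
  lift : NormLift φ A A'
  closed₀ : IsClosed (A₀ : Set B₀)
  closed : IsClosed (A : Set B)
  closed' : IsClosed (A' : Set B')

/-- PROOF: `w - 1 ∈ A` and `φ (w - 1) = 0`, so `w - 1 = j a`, similarly `w⁻¹ - 1 = j b`, `a, b ∈ A₀`.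
`a + b + a b` is mapped by the isometric (so injective) `j` to
`(w - 1) + (w⁻¹ - 1) + (w - 1)(w⁻¹ - 1) = 0`, so it is `0`, similarly `b + a + b a = 0`: `1 + a` is a
unit of `B₀` with inverse `1 + b`. -/
theorem ExactSeq.exists_ext {j : B₀ →ₙ+* B} {φ : B →+* B'} {A₀ : NonUnitalSubalgebra ℂ B₀}
    {A : NonUnitalSubalgebra ℂ B} {A' : NonUnitalSubalgebra ℂ B'} (h : ExactSeq j φ A₀ A A')
    {w : Bˣ} (hw : w ∈ GL1 A) (hw1 : Units.map (φ : B →* B') w = 1) :
    ∃ u ∈ GL1 A₀, extUnit j u = w := by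
  have hφ1 : φ (w : B) = 1 := congrArg (fun x : B'ˣ => (x : B')) hw1
  have hφ2 : φ ((w⁻¹ : Bˣ) : B) = 1 := by
    have := congrArg (fun x : B'ˣ => ((x⁻¹ : B'ˣ) : B')) hw1
    simpa using this
  obtain ⟨a, ha, ha2⟩ := h.ker _ hw.1 (by rw [map_sub, map_one, hφ1, sub_self])
  obtain ⟨b, hb, hb2⟩ := h.ker _ hw.2 (by rw [map_sub, map_one, hφ2, sub_self])
  have hinj : ∀ x : B₀, j x = 0 → x = 0 := by
    intro x hx
    rw [← norm_eq_zero, ← h.norm, hx, norm_zero]
  have z1 : a + b + a * b = 0 := by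
    apply hinj
    rw [map_add, map_add, map_mul, ha2, hb2]
    have : (w : B) - 1 + (((w⁻¹ : Bˣ) : B) - 1) + ((w : B) - 1) * (((w⁻¹ : Bˣ) : B) - 1) =
        (w : B) * ((w⁻¹ : Bˣ) : B) - 1 := by noncomm_ring
    rw [this, Units.mul_inv, sub_self]
  have z2 : b + a + b * a = 0 := by
    apply hinj
    rw [map_add, map_add, map_mul, ha2, hb2]
    have : ((w⁻¹ : Bˣ) : B) - 1 + ((w : B) - 1) + (((w⁻¹ : Bˣ) : B) - 1) * ((w : B) - 1) =
        ((w⁻¹ : Bˣ) : B) * (w : B) - 1 := by noncomm_ring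
    rw [this, Units.inv_mul, sub_self]
  refine ⟨⟨1 + a, 1 + b, ?_, ?_⟩, ⟨?_, ?_⟩, ?_⟩
  · have : (1 + a) * (1 + b) = 1 + (a + b + a * b) := by noncomm_ring
    rw [this, z1, add_zero]
  · have : (1 + b) * (1 + a) = 1 + (b + a + b * a) := by noncomm_ring
    rw [this, z2, add_zero]
  · show (1 + a) - 1 ∈ A₀
    rw [add_sub_cancel_left]; exact ha
  · show (1 + b) - 1 ∈ A₀
    rw [add_sub_cancel_left]; exact hb
  · apply Units.ext
    show 1 + j ((1 + a) - 1) = (w : B)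
    rw [add_sub_cancel_left, ha2]
    abel

/-- If `K₁(A₀) = 0` then `K₁(A) → K₁(A')` is injective. PROOF: `exact_middle` gives `w ∈ GL1 A` with
`φ w = 1`, `w⁻¹ u ∈ E1 A`; `w = extUnit j v` with `v ∈ GL1 A₀ ≤ E1 A₀`, so `w ∈ E1 A`
(`extUnit_mem_E1`). -/
theorem ExactSeq.inj {j : B₀ →ₙ+* B} {φ : B →+* B'} {A₀ : NonUnitalSubalgebra ℂ B₀}
    {A : NonUnitalSubalgebra ℂ B} {A' : NonUnitalSubalgebra ℂ B'} (h : ExactSeq j φ A₀ A A')
    (h0 : GL1 A₀ ≤ E1 A₀) {u : Bˣ} (hu : u ∈ GL1 A) (hu' : Units.map (φ : B →* B') u ∈ E1 A') :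
    u ∈ E1 A := by
  obtain ⟨w, hw, hw1, hw2⟩ := exact_middle h.closed h.closed' h.lift hu hu'
  obtain ⟨v, hv, hv2⟩ := h.exists_ext hw hw1
  have h1 : w ∈ E1 A := hv2 ▸ extUnit_mem_E1 (fun a => (h.norm a).le) h.mem (h0 hv)
  have h2 := mul_mem h1 hw2
  have e : w * (w⁻¹ * u) = u := by group
  rwa [e] at h2

end PartKG2

end Pool.Agent.Lib.MP_aa9b81_an.Cut
end
end

section

/-!
# Cutting theorem, part H
-/

noncomputable section

namespace Pool.Agent.Lib.MP_aa9b81_an.Cut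

section PartHA1

open scoped ENNReal Topology ZeroAtInfty
open Filter Topology Set

variable {Γ X Y : Type} [Group Γ] [TopologicalSpace X] [MulAction Γ X]
  [TopologicalSpace Y] [MulAction Γ Y]

omit [MulAction Γ X] [Group Γ] [MulAction Γ Y] in
/-- PROOF: `F(x, t) = f(h(x, t))` is in `C₀(X × [0,1])` (`pullC`). Fix `t₀`, `ε`. The set
`K = {‖F‖ ≥ ε}` is compact, `K₁` its projection to `X`; for `x ∉ K₁` both values are `< ε`; on the
compact set `K₁`, `F` is uniformly close: tube lemma / `generalized_tube_lemma` / the continuous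
function `(x,t) ↦ F(x,t) - F(x,t₀)` vanishes on `K₁ × {t₀}`. -/
theorem exists_unif_close {h : X × Icc (0 : ℝ) 1 → Y} (hh : IsProperMap h) (f : C₀(Y, ℂ))
    (t₀ : Icc (0 : ℝ) 1) {ε : ℝ} (hε : 0 < ε) :
    ∀ᶠ t in 𝓝 t₀, ∀ x, ‖f (h (x, t)) - f (h (x, t₀))‖ ≤ ε := by
  have hzero : ∀ᶠ y in cocompact Y, ‖f y‖ < ε / 2 := by
    have h1 : Tendsto (fun y => ‖f y‖) (cocompact Y) (𝓝 0) := by
      have h2 := (zero_at_infty f).norm
      rwa [norm_zero] at h2
    exact h1.eventually_lt_const (half_pos hε)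
  obtain ⟨K, hK, hKf⟩ := mem_cocompact.mp hzero
  have hC : IsCompact (h ⁻¹' K) := hh.isCompact_preimage hK
  have hK1 : IsCompact (Prod.fst '' (h ⁻¹' K)) := hC.image continuous_fst
  have hcont : Continuous fun p : X × Icc (0 : ℝ) 1 => ‖f (h p) - f (h (p.1, t₀))‖ := by
    have h3 : Continuous fun p : X × Icc (0 : ℝ) 1 => f (h p) :=
      (map_continuous f).comp hh.continuous
    have h4 : Continuous fun p : X × Icc (0 : ℝ) 1 => f (h (p.1, t₀)) :=
      (map_continuous f).comp (hh.continuous.comp (continuous_fst.prodMk continuous_const))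
    exact (h3.sub h4).norm
  have hopen : IsOpen {p : X × Icc (0 : ℝ) 1 | ‖f (h p) - f (h (p.1, t₀))‖ < ε} :=
    isOpen_lt hcont continuous_const
  have hsub : (Prod.fst '' (h ⁻¹' K)) ×ˢ ({t₀} : Set (Icc (0 : ℝ) 1)) ⊆
      {p : X × Icc (0 : ℝ) 1 | ‖f (h p) - f (h (p.1, t₀))‖ < ε} := by
    rintro ⟨x, t⟩ ⟨_, ht⟩
    have ht' : t = t₀ := ht
    rw [ht', mem_ofPred_eq, sub_self, norm_zero]
    exact hε
  obtain ⟨u, v, _, hv, hu1, hv1, huv⟩ := generalized_tube_lemma hK1 isCompact_singleton hopen hsub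
  filter_upwards [hv.mem_nhds (hv1 rfl)] with t ht x
  by_cases hx : x ∈ Prod.fst '' (h ⁻¹' K)
  · have h5 : ((x, t) : X × Icc (0 : ℝ) 1) ∈ u ×ˢ v := ⟨hu1 hx, ht⟩
    exact le_of_lt (huv h5)
  · have h6 : ∀ s : Icc (0 : ℝ) 1, ‖f (h (x, s))‖ < ε / 2 := by
      intro s
      apply hKf
      intro hs
      exact hx ⟨(x, s), hs, rfl⟩
    have h7 := norm_sub_le (f (h (x, t))) (f (h (x, t₀)))
    have h8 := h6 t
    have h9 := h6 t₀
    linarith

omit [MulAction Γ X] [Group Γ] [MulAction Γ Y] in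
/-- PROOF: `x ↦ (x, t)` is a closed embedding `X → X × [0,1]`, so proper. -/
theorem isProperMap_slice {h : X × Icc (0 : ℝ) 1 → Y} (hh : IsProperMap h) (t : Icc (0 : ℝ) 1) :
    IsProperMap fun x => h (x, t) := by
  have h1 : Topology.IsClosedEmbedding (fun x : X => (x, t)) := by
    refine ⟨isEmbedding_prodMkLeft t, ?_⟩
    have h2 : range (fun x : X => (x, t)) = Prod.snd ⁻¹' {t} := by
      ext p
      simp only [mem_range, mem_preimage, mem_singleton_iff]
      constructor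
      · rintro ⟨x, rfl⟩
        rfl
      · intro hp
        exact ⟨p.1, Prod.ext rfl hp.symm⟩
    rw [h2]
    exact isClosed_singleton.preimage continuous_snd
  exact hh.comp h1.isProperMap

end PartHA1

section PartHA2

open scoped ENNReal Topology ZeroAtInfty
open Filter Topology Set

variable {Γ X Y : Type} [Group Γ] [TopologicalSpace X] [MulAction Γ X]
  [TopologicalSpace Y] [MulAction Γ Y]

/-- PROOF: for `a = gen f g i j`, `pull (h_t) a = gen (pullC h_t f) g i j` (`pull_gen`), and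
`‖gen F g i j - gen F' g i j‖ ≤ ‖F - F'‖` (`gen_sub`, `norm_gen_le`): `exists_unif_close`. The set of the
`a ∈ cp` for which `t ↦ pull (h_t) a` is continuous contains the generators, is an algebra, and is
closed (uniform limits: `‖pull (h_t) a - pull (h_t) b‖ ≤ ‖a - b‖`). -/
theorem continuous_pull_homotopy {h : X × Icc (0 : ℝ) 1 → Y} (hh : IsProperMap h)
    (he : ∀ (g : Γ) x t, h (g • x, t) = g • h (x, t)) {a : Fam Γ Y} (ha : a ∈ cp Γ Y) :
    Continuous fun t : Icc (0 : ℝ) 1 => (pull (fun x => h (x, t)) a : Fam Γ X) := by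
  have hadj : ∀ b ∈ NonUnitalAlgebra.adjoin ℂ {a : Fam Γ Y | ∃ f g i j, a = gen f g i j},
      Continuous fun t : Icc (0 : ℝ) 1 => (pull (fun x => h (x, t)) b : Fam Γ X) := by
    intro b hb
    induction hb using NonUnitalAlgebra.adjoin_induction with
    | mem b hb =>
      obtain ⟨f, g, i, j, rfl⟩ := hb
      rw [continuous_iff_continuousAt]
      intro t₀
      rw [ContinuousAt, Metric.tendsto_nhds]
      intro ε hε
      filter_upwards [exists_unif_close hh f t₀ (half_pos hε)] with t ht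
      rw [pull_gen (isProperMap_slice hh t) (fun g x => he g x t),
        pull_gen (isProperMap_slice hh t₀) (fun g x => he g x t₀), dist_eq_norm, ← gen_sub]
      refine lt_of_le_of_lt ((norm_gen_le _ _ _ _).trans ?_) (half_lt_self hε)
      rw [← ZeroAtInftyContinuousMap.norm_toBCF_eq_norm,
        BoundedContinuousFunction.norm_le (half_pos hε).le]
      intro x
      exact ht x
    | add b c _ _ hb hc =>
      simp only [map_add]
      exact hb.add hc
    | zero =>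
      simp only [map_zero]
      exact continuous_const
    | mul b c _ _ hb hc =>
      simp only [map_mul]
      exact hb.mul hc
    | smul r b _ hb =>
      have e : (fun t : Icc (0 : ℝ) 1 => (pull (fun x => h (x, t)) (r • b) : Fam Γ X)) =
          fun t : Icc (0 : ℝ) 1 => r • (pull (fun x => h (x, t)) b : Fam Γ X) := rfl
      rw [e]
      exact hb.const_smul r
  refine continuous_of_uniform_approx_of_continuous fun u hu => ?_
  obtain ⟨ε, hε, hu'⟩ := Metric.mem_uniformity_dist.1 hu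
  have ha' : a ∈ closure ((NonUnitalAlgebra.adjoin ℂ
      {a : Fam Γ Y | ∃ f g i j, a = gen f g i j} : NonUnitalSubalgebra ℂ (Fam Γ Y)) :
      Set (Fam Γ Y)) := ha
  obtain ⟨b, hb, hab⟩ := Metric.mem_closure_iff.1 ha' ε hε
  refine ⟨_, hadj b hb, fun t => hu' ?_⟩
  rw [dist_eq_norm, ← map_sub]
  refine (pull_norm_le _ _).trans_lt ?_
  rwa [← dist_eq_norm]

/-- HOMOTOPY INVARIANCE. PROOF: `p t = pullU (h_{projIcc t}) u ∈ GL1 (cp Γ X)` (`GL1_map`-like:
`pull_mem_cp`, `isProperMap_slice`), continuous in norm by `continuous_pull_homotopy` applied to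
`u - 1`; `E1_of_path`. -/
theorem homotopy_invariance {h : X × Icc (0 : ℝ) 1 → Y} (hh : IsProperMap h)
    (he : ∀ (g : Γ) x t, h (g • x, t) = g • h (x, t)) {u : (Fam Γ Y)ˣ} (hu : u ∈ GL1 (cp Γ Y)) :
    (pullU (fun x => h (x, 0)) u)⁻¹ * pullU (fun x => h (x, 1)) u ∈ E1 (cp Γ X) := by
  have hmem : ∀ t : Icc (0 : ℝ) 1, pullU (fun x => h (x, t)) u ∈ GL1 (cp Γ X) := by
    intro t
    have hp := pull_mem_cp (isProperMap_slice hh t) (fun g x => he g x t)
    constructor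
    · have := hp _ hu.1
      rwa [map_sub, map_one] at this
    · have := hp _ hu.2
      rwa [map_sub, map_one] at this
  have hc : Continuous fun t : Icc (0 : ℝ) 1 =>
      ((pullU (fun x => h (x, t)) u : (Fam Γ X)ˣ) : Fam Γ X) := by
    have h1 := (continuous_pull_homotopy hh he hu.1).add
      (continuous_const (y := (1 : Fam Γ X)))
    refine h1.congr fun t => ?_
    show (pull (fun x => h (x, t)) ((u : Fam Γ Y) - 1) : Fam Γ X) + 1 = _
    rw [map_sub, map_one, sub_add_cancel]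
    rfl
  have key := E1_of_path (A := cp Γ X)
    (fun t : ℝ => pullU (fun x => h (x, projIcc (0 : ℝ) 1 zero_le_one t)) u)
    (fun t _ => hmem _) (hc.comp continuous_projIcc).continuousOn
  rw [projIcc_left, projIcc_right] at key
  exact key

end PartHA2

section PartHB1

open scoped ENNReal Topology ZeroAtInfty
open Filter Topology Set

variable {Γ P : Type} [Group Γ] [TopologicalSpace P] [MulAction Γ P]

omit [Group Γ] [MulAction Γ P] in
/-- PROOF: `F(p, t) = f(h(p, t))` vanishes at infinity on `P × [0,1)`: the compact set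
`{‖F‖ ≥ ε}` has a compact projection to `[0,1)`, which is contained in `[0, t₁]` for some `t₁ < 1`. -/
theorem exists_small_near_one {h : P × Ico (0 : ℝ) 1 → P} (hh : IsProperMap h) (f : C₀(P, ℂ))
    {ε : ℝ} (hε : 0 < ε) : ∃ t₁ : ℝ, t₁ < 1 ∧ ∀ (t : Ico (0 : ℝ) 1), t₁ < t → ∀ p,
      ‖f (h (p, t))‖ ≤ ε := by
  have hF := (pullC h hh f).zero_at_infty'
  have h1 : {z | ‖pullC h hh f z‖ < ε} ∈ cocompact (P × Ico (0 : ℝ) 1) := by
    have := hF.eventually (Metric.ball_mem_nhds (0 : ℂ) hε)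
    filter_upwards [this] with z hz
    simpa using hz
  obtain ⟨K, hK, hK'⟩ := mem_cocompact.1 h1
  rcases K.eq_empty_or_nonempty with hKe | hKn
  · refine ⟨0, zero_lt_one, fun t _ p => ?_⟩
    have : (p, t) ∈ Kᶜ := by rw [hKe]; simp
    exact le_of_lt (hK' this)
  · have hc : IsCompact ((fun z : P × Ico (0 : ℝ) 1 => (z.2 : ℝ)) '' K) :=
      hK.image (continuous_subtype_val.comp continuous_snd)
    obtain ⟨t₁, ⟨z, hz, hz2⟩, ht₁⟩ := hc.exists_isGreatest (hKn.image _)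
    refine ⟨t₁, hz2 ▸ z.2.2.2, fun t ht p => ?_⟩
    have : (p, t) ∈ Kᶜ := by
      intro hmem
      exact absurd (ht₁ ⟨(p, t), hmem, rfl⟩) (not_le.2 ht)
    exact le_of_lt (hK' this)

private theorem HB1_add {h : P × Ico (0 : ℝ) 1 → P} {a b : Fam Γ P}
    (ha : ∀ ε > 0, ∃ t₁ : ℝ, 0 ≤ t₁ ∧ t₁ < 1 ∧ ∀ (t : Ico (0 : ℝ) 1), t₁ < t →
      ‖(pull (fun p => h (p, t)) a : Fam Γ P)‖ ≤ ε)
    (hb : ∀ ε > 0, ∃ t₁ : ℝ, 0 ≤ t₁ ∧ t₁ < 1 ∧ ∀ (t : Ico (0 : ℝ) 1), t₁ < t →
      ‖(pull (fun p => h (p, t)) b : Fam Γ P)‖ ≤ ε) :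
    ∀ ε > 0, ∃ t₁ : ℝ, 0 ≤ t₁ ∧ t₁ < 1 ∧ ∀ (t : Ico (0 : ℝ) 1), t₁ < t →
      ‖(pull (fun p => h (p, t)) (a + b) : Fam Γ P)‖ ≤ ε := by
  intro ε hε
  obtain ⟨t₁, h1, h2, h3⟩ := ha (ε / 2) (half_pos hε)
  obtain ⟨t₂, h4, h5, h6⟩ := hb (ε / 2) (half_pos hε)
  refine ⟨max t₁ t₂, le_max_of_le_left h1, max_lt h2 h5, fun t ht => ?_⟩
  rw [map_add]
  have e1 := h3 t (lt_of_le_of_lt (le_max_left _ _) ht)
  have e2 := h6 t (lt_of_le_of_lt (le_max_right _ _) ht)
  refine (norm_add_le _ _).trans ?_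
  linarith

/-- PROOF: for the generators `exists_small_near_one` and `norm_gen_le`; finite sums and products of
elements with this property have it, and limits. -/
theorem pull_small_near_one {h : P × Ico (0 : ℝ) 1 → P} (hh : IsProperMap h)
    (he : ∀ (g : Γ) p t, h (g • p, t) = g • h (p, t)) {a : Fam Γ P} (ha : a ∈ cp Γ P) {ε : ℝ}
    (hε : 0 < ε) : ∃ t₁ : ℝ, 0 ≤ t₁ ∧ t₁ < 1 ∧ ∀ (t : Ico (0 : ℝ) 1), t₁ < t →
      ‖(pull (fun p => h (p, t)) a : Fam Γ P)‖ ≤ ε := by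
  have hadj : ∀ b ∈ NonUnitalAlgebra.adjoin ℂ {a : Fam Γ P | ∃ f g i j, a = gen f g i j},
      ∀ ε > 0, ∃ t₁ : ℝ, 0 ≤ t₁ ∧ t₁ < 1 ∧ ∀ (t : Ico (0 : ℝ) 1), t₁ < t →
      ‖(pull (fun p => h (p, t)) b : Fam Γ P)‖ ≤ ε := by
    intro b hb
    induction hb using NonUnitalAlgebra.adjoin_induction with
    | mem b hb =>
      obtain ⟨f, g, i, j, rfl⟩ := hb
      intro ε hε
      obtain ⟨t₁, h1, h2⟩ := exists_small_near_one hh f hε
      refine ⟨max t₁ 0, le_max_right _ _, max_lt h1 zero_lt_one, fun t ht => ?_⟩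
      have h3 := h2 t (lt_of_le_of_lt (le_max_left _ _) ht)
      refine (Fam.norm_le_iff hε.le).2 fun p => ?_
      have hC : ∀ s : Γ, ‖f (s • h (p, t))‖ ≤ ε := by
        intro s
        rw [← he]
        exact h3 _
      exact norm_wOp_le (fun s : Γ => f (s • h (p, t))) ε hC g i j
    | add b c _ _ hb hc => exact HB1_add hb hc
    | zero =>
      intro ε hε
      refine ⟨0, le_rfl, zero_lt_one, fun t _ => ?_⟩
      rw [map_zero, norm_zero]
      exact hε.le
    | mul b c _ _ hb hc =>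
      intro ε hε
      have hc0 := norm_nonneg c
      obtain ⟨t₁, h1, h2, h3⟩ := hb (ε / (‖c‖ + 1)) (by positivity)
      refine ⟨t₁, h1, h2, fun t ht => ?_⟩
      rw [map_mul]
      have e1 := h3 t ht
      have e2 := pull_norm_le (fun p => h (p, t)) c
      calc ‖(pull (fun p => h (p, t)) b : Fam Γ P) * pull (fun p => h (p, t)) c‖
          ≤ ‖(pull (fun p => h (p, t)) b : Fam Γ P)‖ * ‖(pull (fun p => h (p, t)) c : Fam Γ P)‖ :=
            norm_mul_le _ _
        _ ≤ ε / (‖c‖ + 1) * (‖c‖ + 1) := by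
            refine mul_le_mul e1 (by linarith) (norm_nonneg _) (by positivity)
        _ = ε := by field_simp
    | smul r b _ hb =>
      intro ε hε
      have hr0 := norm_nonneg r
      obtain ⟨t₁, h1, h2, h3⟩ := hb (ε / (‖r‖ + 1)) (by positivity)
      refine ⟨t₁, h1, h2, fun t ht => ?_⟩
      have e : (pull (fun p => h (p, t)) (r • b) : Fam Γ P) =
          r • (pull (fun p => h (p, t)) b : Fam Γ P) := rfl
      rw [e, norm_smul]
      have e1 := h3 t ht
      calc ‖r‖ * ‖(pull (fun p => h (p, t)) b : Fam Γ P)‖ ≤ (‖r‖ + 1) * (ε / (‖r‖ + 1)) := by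
            refine mul_le_mul (by linarith) e1 (norm_nonneg _) (by positivity)
        _ = ε := by field_simp
  have ha' : a ∈ closure ((NonUnitalAlgebra.adjoin ℂ
      {a : Fam Γ P | ∃ f g i j, a = gen f g i j} : NonUnitalSubalgebra ℂ (Fam Γ P)) :
      Set (Fam Γ P)) := ha
  obtain ⟨b, hb, hab⟩ := Metric.mem_closure_iff.1 ha' (ε / 2) (half_pos hε)
  obtain ⟨t₁, h1, h2, h3⟩ := hadj b hb (ε / 2) (half_pos hε)
  refine ⟨t₁, h1, h2, fun t ht => ?_⟩
  have e : (pull (fun p => h (p, t)) a : Fam Γ P) =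
      pull (fun p => h (p, t)) (a - b) + pull (fun p => h (p, t)) b := by
    rw [← map_add, sub_add_cancel]
  rw [e]
  refine (norm_add_le _ _).trans ?_
  have e1 := h3 t ht
  have e2 := pull_norm_le (fun p => h (p, t)) (a - b)
  rw [dist_eq_norm] at hab
  linarith

end PartHB1

section PartHB2

open scoped ENNReal Topology ZeroAtInfty
open Filter Topology Set

variable {Γ P : Type} [Group Γ] [TopologicalSpace P] [MulAction Γ P]

/-- CONTRACTIBLE SPACES have `K₁ = 0`. PROOF: let `u ∈ GL1 (cp Γ P)`, `a = u - 1`. Choose `t₁ < 1` with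
`‖pull (h_t) a‖ < 1` for `t = t₂ ∈ (t₁, 1)` (`pull_small_near_one`), so `pullU (h_{t₂}) u ∈ E1`
(`mem_E1_of_small`). The map `P × [0,1] → P`, `(p, s) ↦ h(p, s t₂)`, is proper (the composition of
`h` with the closed embedding... `(p,s) ↦ (p, s t₂)`, `P × [0,1] → P × [0,1)`, which is proper since
`[0,1]` is compact: for `t₂ > 0` it is a closed embedding; or use that it is `id × (continuous map
from a compact space to a Hausdorff space)`, `IsProperMap.prodMap`), equivariant;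
`homotopy_invariance` gives `(pullU h_0 u)⁻¹ * pullU h_{t₂} u ∈ E1` and `h_0 = id`, so
`pullU h_0 u = u`. -/
theorem GL1_le_E1_of_contraction {h : P × Ico (0 : ℝ) 1 → P} (hh : IsProperMap h)
    (he : ∀ (g : Γ) p t, h (g • p, t) = g • h (p, t)) (h0 : ∀ p, h (p, ⟨0, by simp⟩) = p) :
    GL1 (cp Γ P) ≤ E1 (cp Γ P) := by
  intro u hu
  obtain ⟨t₁, ht0, ht1, ht⟩ := pull_small_near_one hh he hu.1 (show (0 : ℝ) < 1 / 2 by norm_num)
  -- the path `s ↦ s t₂`
  let m : Icc (0 : ℝ) 1 → Ico (0 : ℝ) 1 := fun s => ⟨s.1 * ((t₁ + 1) / 2),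
    mul_nonneg s.2.1 (by linarith), by
      have h1 := s.2.1
      have h2 := s.2.2
      nlinarith⟩
  have hm : Continuous m := by
    refine Continuous.subtype_mk ?_ _
    exact continuous_subtype_val.mul continuous_const
  have hH : IsProperMap fun x : P × Icc (0 : ℝ) 1 => h (x.1, m x.2) :=
    hh.comp (isProperMap_id.prodMap hm.isProperMap)
  have heH : ∀ (g : Γ) (x : P) (t : Icc (0 : ℝ) 1), h (g • x, m t) = g • h (x, m t) :=
    fun g x t => he g x (m t)
  have h1 := homotopy_invariance (h := fun x : P × Icc (0 : ℝ) 1 => h (x.1, m x.2)) hH heH hu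
  have hm0 : m 0 = ⟨0, by simp⟩ := Subtype.ext (by simp [m])
  have hid : (fun x : P => h (x, m 0)) = id := by
    funext x
    rw [hm0, h0]
    rfl
  have h2 : pullU (fun x : P => h (x, m 0)) u = u := by
    rw [hid]
    exact Units.ext (Fam.ext fun y => rfl)
  have h3 : pullU (fun x : P => h (x, m 1)) u ∈ E1 (cp Γ P) := by
    refine mem_E1_of_small (GL1_map (pull_mem_cp (isProperMap_slice hH 1)
      (fun g z => he g z (m 1))) hu) ?_
    have h4 : ((pullU (fun x : P => h (x, m 1)) u : (Fam Γ P)ˣ) : Fam Γ P) - 1 =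
        pull (fun x : P => h (x, m 1)) ((u : Fam Γ P) - 1) := by
      rw [map_sub, map_one]
      rfl
    rw [h4]
    refine lt_of_le_of_lt (ht (m 1) ?_) (by norm_num)
    have h5 : ((m 1 : Ico (0 : ℝ) 1) : ℝ) = (t₁ + 1) / 2 := by simp [m]
    rw [h5]
    linarith
  have h6 : u⁻¹ * pullU (fun x : P => h (x, m 1)) u ∈ E1 (cp Γ P) := by
    have h7 : (pullU (fun x : P => h (x, m 0)) u)⁻¹ * pullU (fun x : P => h (x, m 1)) u ∈
        E1 (cp Γ P) := h1
    rwa [h2] at h7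
  have h8 := (E1 (cp Γ P)).mul_mem h6 ((E1 (cp Γ P)).inv_mem h3)
  rw [mul_inv_cancel_right] at h8
  exact inv_mem_iff.1 h8

/-- Equivariantly homeomorphic spaces. PROOF: `pullU e.symm` maps `GL1` to `GL1`; the hypothesis; then
`pullU e` maps `E1` to `E1` (`E1_map`, `pull_norm_le`), and `pull e (pull e.symm a) = a`. -/
theorem GL1_le_E1_of_homeomorph {P' : Type} [TopologicalSpace P'] [MulAction Γ P'] (e : P ≃ₜ P')
    (he : ∀ (g : Γ) p, e (g • p) = g • e p) (h : GL1 (cp Γ P) ≤ E1 (cp Γ P)) :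
    GL1 (cp Γ P') ≤ E1 (cp Γ P') := by
  intro u hu
  have hes : ∀ (g : Γ) p, e.symm (g • p) = g • e.symm p := by
    intro g p
    rw [e.symm_apply_eq, he, e.apply_symm_apply]
  have h1 : pullU e u ∈ GL1 (cp Γ P) := GL1_map (pull_mem_cp e.isProperMap he) hu
  have h2 : pullU e.symm (pullU e u) ∈ E1 (cp Γ P') :=
    E1_map (pull_norm_le e.symm) (pull_mem_cp e.symm.isProperMap hes) (h h1)
  have h3 : pullU e.symm (pullU e u) = u := by
    refine Units.ext (Fam.ext fun y => ?_)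
    change (u : Fam Γ P') (e (e.symm y)) = (u : Fam Γ P') y
    rw [e.apply_symm_apply]
  rwa [h3] at h2

end PartHB2

section PartHB3

open scoped ENNReal Topology ZeroAtInfty
open Filter Topology Set

variable {Γ P : Type} [Group Γ] [TopologicalSpace P] [MulAction Γ P]

section HB3

variable {E : Type} [AddCommGroup E] [Module ℝ E] [TopologicalSpace E] [T2Space E]
    [ContinuousAdd E] [ContinuousSMul ℝ E] [DistribMulAction Γ E]
    (Q : ConvexSpace Γ E)

omit [ContinuousAdd E] in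
/-- The part `{w.2 ≤ r}` of the cone is compact. -/
theorem HB3_compact {r : ℝ} (hr : r < 1) : IsCompact {w : Cone Q | w.1.2 ≤ r} := by
  have h1 : IsCompact ((fun x : E × ℝ => (x.2 • x.1, x.2)) '' (Q.carrier ×ˢ Icc 0 r)) := by
    refine (Q.compact.prod isCompact_Icc).image ?_
    exact (continuous_snd.smul continuous_fst).prodMk continuous_snd
  have h2 : IsEmbedding (fun w : Cone Q => w.1) := IsEmbedding.subtypeVal
  rw [h2.isCompact_iff]
  have h3 : (fun w : Cone Q => w.1) '' {w : Cone Q | w.1.2 ≤ r} =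
      (fun x : E × ℝ => (x.2 • x.1, x.2)) '' (Q.carrier ×ˢ Icc 0 r) := by
    ext z
    constructor
    · rintro ⟨w, hw, rfl⟩
      obtain ⟨q, hq, h⟩ := w.2.2.2
      exact ⟨(q, w.1.2), ⟨hq, w.2.1, hw⟩, Prod.ext h.symm rfl⟩
    · rintro ⟨⟨q, σ⟩, ⟨hq, h0, h1⟩, rfl⟩
      exact ⟨⟨(σ • q, σ), h0, lt_of_le_of_lt h1 hr, q, hq, rfl⟩, h1, rfl⟩
  rw [h3]
  exact h1

omit [ContinuousAdd E] in
theorem HB3_t2 : T2Space (Cone Q) := IsEmbedding.subtypeVal.t2Space

omit [ContinuousAdd E] in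
theorem HB3_wlc : WeaklyLocallyCompactSpace (Cone Q) := by
  refine ⟨fun w => ⟨{w' : Cone Q | w'.1.2 ≤ (w.1.2 + 1) / 2}, HB3_compact Q ?_, ?_⟩⟩
  · have := w.2.2.1
    linarith
  · have h1 : Continuous fun w' : Cone Q => w'.1.2 :=
      continuous_snd.comp (continuous_subtype_val (p := fun w : E × ℝ => 0 ≤ w.2 ∧ w.2 < 1 ∧
        ∃ q ∈ Q.carrier, w.1 = w.2 • q))
    have h2 : {w' : Cone Q | w'.1.2 < (w.1.2 + 1) / 2} ∈ 𝓝 w := by
      refine (isOpen_lt h1 continuous_const).mem_nhds ?_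
      have h3 := w.2.2.1
      change w.1.2 < (w.1.2 + 1) / 2
      linarith
    exact mem_of_superset h2 fun w' hw' => le_of_lt (show w'.1.2 < (w.1.2 + 1) / 2 from hw')

omit [T2Space E] [ContinuousAdd E] [ContinuousSMul ℝ E] in
theorem HB3_mem (w : Cone Q) {q : E} (hq : q ∈ Q.carrier) {t : ℝ} (ht0 : 0 ≤ t) (ht1 : t < 1) :
    0 ≤ (1 - t) * w.1.2 + t ∧ (1 - t) * w.1.2 + t < 1 ∧
      ∃ x ∈ Q.carrier, (1 - t) • w.1.1 + t • q = ((1 - t) * w.1.2 + t) • x := by
  have h0 := w.2.1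
  have h1 := w.2.2.1
  obtain ⟨x, hx, hxw⟩ := w.2.2.2
  have ha : 0 ≤ (1 - t) * w.1.2 := mul_nonneg (by linarith) h0
  refine ⟨by linarith, ?_, ?_⟩
  · nlinarith
  · by_cases hσ : (1 - t) * w.1.2 + t = 0
    · have ht : t = 0 := by linarith
      have hw : w.1.2 = 0 := by
        rw [ht] at hσ
        linarith
      refine ⟨x, hx, ?_⟩
      rw [hxw, hw, ht]
      simp
    · have hpos : 0 < (1 - t) * w.1.2 + t := lt_of_le_of_ne (by linarith) (Ne.symm hσ)
      refine ⟨((1 - t) * w.1.2 / ((1 - t) * w.1.2 + t)) • x + (t / ((1 - t) * w.1.2 + t)) • q,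
        Q.convex hx hq (by positivity) (by positivity) ?_, ?_⟩
      · rw [← add_div, div_self hσ]
      · rw [smul_add, smul_smul, smul_smul, mul_div_cancel₀ _ hσ, mul_div_cancel₀ _ hσ, hxw,
          smul_smul]

/-- The point of the cone moved towards `(q, 1)`. -/
def HB3_move (w : Cone Q) (q : Q.Pt) (t : Ico (0 : ℝ) 1) : Cone Q :=
  ⟨((1 - t.1) • w.1.1 + t.1 • q.1, (1 - t.1) * w.1.2 + t.1), HB3_mem Q w q.2 t.2.1 t.2.2⟩

omit [T2Space E] in
theorem HB3_cont {S : Type} [TopologicalSpace S] {w : S → Cone Q} {q : S → Q.Pt}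
    {t : S → Ico (0 : ℝ) 1} (hw : Continuous w) (hq : Continuous q) (ht : Continuous t) :
    Continuous fun s => HB3_move Q (w s) (q s) (t s) := by
  have hw' : Continuous fun s => (w s).1 := (IsEmbedding.subtypeVal (p := fun w : E × ℝ =>
    0 ≤ w.2 ∧ w.2 < 1 ∧ ∃ q ∈ Q.carrier, w.1 = w.2 • q)).continuous.comp hw
  have hq' : Continuous fun s => (q s).1 :=
    (IsEmbedding.subtypeVal (p := fun x : E => x ∈ Q.carrier)).continuous.comp hq
  have ht' : Continuous fun s => (t s).1 := continuous_subtype_val.comp ht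
  have h1 : Continuous fun s => (((1 - (t s).1) • (w s).1.1 + (t s).1 • (q s).1,
      (1 - (t s).1) * (w s).1.2 + (t s).1) : E × ℝ) := by
    refine Continuous.prodMk ?_ ?_
    · exact ((continuous_const.sub ht').smul hw'.fst).add (ht'.smul hq')
    · exact ((continuous_const.sub ht').mul hw'.snd).add ht'
  exact Continuous.subtype_mk h1 _

end HB3

/-- Maps to a convex space give contractions. Let `P = S × Cone Q × V` and `q : S → Q` a continuous
equivariant map. PROOF: `h((s, w, v), t) = (s, (1 - t) w + t (q(s), 1), v)`, i.e. the point of the cone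
with the coordinates `((1-t) w.1 + t q(s), (1-t) w.2 + t)`: if `w = (σ x, σ)` then the first
coordinate is `(1-t) σ x + t q(s) = σ' x'` with `σ' = (1-t) σ + t` and
`x' = ((1-t) σ x + t q(s)) / σ' ∈ Q` by convexity (if `σ' = 0`, i.e. `σ = t = 0`, it is `0`), and
`1 - σ' = (1-t)(1-σ) > 0`. Equivariant since the action on `E` is linear. `h(·,0) = id`. PROPER: for
compact `K`, the preimage is contained in the set of the `((s, w, v), t)` with `s, v` in the
(compact) projections of `K` and `(1-t)(1-σ) ≥ δ`, where `δ > 0` is the minimum of `1 - σ` on `K`; so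
`t ≤ 1 - δ`, `σ ≤ 1 - δ`; and `{w ∈ Cone Q | w.2 ≤ 1 - δ}` is compact (image of
`Q × [0, 1-δ]` under `(x, σ) ↦ (σ x, σ)`); a closed subset of a compact set is compact; and
`h` is continuous; (`isProperMap_iff_isCompact_preimage` for a locally compact Hausdorff target).
Then `GL1_le_E1_of_contraction`. -/
theorem GL1_le_E1_of_map {E : Type} [AddCommGroup E] [Module ℝ E] [TopologicalSpace E] [T2Space E]
    [ContinuousAdd E] [ContinuousSMul ℝ E] [DistribMulAction Γ E] [SMulCommClass Γ ℝ E]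
    (Q : ConvexSpace Γ E) {S V : Type} [TopologicalSpace S] [T2Space S] [LocallyCompactSpace S]
    [MulAction Γ S] [TopologicalSpace V] [T2Space V] [LocallyCompactSpace V] [MulAction Γ V]
    (q : S → Q.Pt) (hq : Continuous q) (he : ∀ (g : Γ) s, q (g • s) = g • q s) :
    GL1 (cp Γ (S × Cone Q × V)) ≤ E1 (cp Γ (S × Cone Q × V)) := by
  have : T2Space (Cone Q) := HB3_t2 Q
  have : WeaklyLocallyCompactSpace (Cone Q) := HB3_wlc Q
  have hmc : Continuous fun x : (S × Cone Q × V) × Ico (0 : ℝ) 1 =>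
      HB3_move Q x.1.2.1 (q x.1.1) x.2 :=
    HB3_cont Q (continuous_fst.comp (continuous_snd.comp continuous_fst))
      (hq.comp (continuous_fst.comp continuous_fst)) continuous_snd
  have hhc : Continuous fun x : (S × Cone Q × V) × Ico (0 : ℝ) 1 =>
      ((x.1.1, HB3_move Q x.1.2.1 (q x.1.1) x.2, x.1.2.2) : S × Cone Q × V) :=
    (continuous_fst.comp continuous_fst).prodMk
      (hmc.prodMk (continuous_snd.comp (continuous_snd.comp continuous_fst)))
  refine GL1_le_E1_of_contraction (h := fun x : (S × Cone Q × V) × Ico (0 : ℝ) 1 =>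
      ((x.1.1, HB3_move Q x.1.2.1 (q x.1.1) x.2, x.1.2.2) : S × Cone Q × V)) ?_ ?_ ?_
  · rw [isProperMap_iff_isCompact_preimage]
    refine ⟨hhc, fun K hK => ?_⟩
    -- the maximum of the height on `K`
    have hc2 : Continuous fun p : S × Cone Q × V => p.2.1.1.2 := by
      have h1 : Continuous fun w : Cone Q => w.1 := (IsEmbedding.subtypeVal (p := fun w : E × ℝ =>
        0 ≤ w.2 ∧ w.2 < 1 ∧ ∃ q ∈ Q.carrier, w.1 = w.2 • q)).continuous
      exact continuous_snd.comp (h1.comp (continuous_fst.comp continuous_snd))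
    obtain ⟨r, hr1, hr⟩ : ∃ r : ℝ, r < 1 ∧ ∀ p ∈ K, p.2.1.1.2 ≤ r := by
      rcases K.eq_empty_or_nonempty with hK0 | hK0
      · exact ⟨0, by norm_num, fun p hp => by rw [hK0] at hp; exact absurd hp (notMem_empty p)⟩
      · obtain ⟨p, hp, hmax⟩ := hK.exists_isMaxOn hK0 hc2.continuousOn
        exact ⟨p.2.1.1.2, p.2.1.2.2.1, fun p' hp' => hmax hp'⟩
    have hbig : IsCompact (((Prod.fst '' K) ×ˢ ({w : Cone Q | w.1.2 ≤ r} ×ˢ
        ((fun p : S × Cone Q × V => p.2.2) '' K))) ×ˢ {t : Ico (0 : ℝ) 1 | t.1 ≤ r}) := by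
      refine IsCompact.prod (IsCompact.prod (hK.image continuous_fst) (IsCompact.prod
        (HB3_compact Q hr1) (hK.image (continuous_snd.comp continuous_snd)))) ?_
      rw [IsEmbedding.subtypeVal.isCompact_iff]
      have h3 : Subtype.val '' {t : Ico (0 : ℝ) 1 | t.1 ≤ r} = Icc 0 r := by
        ext z
        constructor
        · rintro ⟨t, ht, rfl⟩
          exact ⟨t.2.1, ht⟩
        · rintro ⟨h0, h1⟩
          exact ⟨⟨z, h0, lt_of_le_of_lt h1 hr1⟩, h1, rfl⟩
      rw [h3]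
      exact isCompact_Icc
    refine hbig.of_isClosed_subset (hK.isClosed.preimage hhc) ?_
    rintro ⟨⟨s, w, v⟩, t⟩ hx
    have hx' : ((s, HB3_move Q w (q s) t, v) : S × Cone Q × V) ∈ K := hx
    have h4 : (1 - t.1) * w.1.2 + t.1 ≤ r := hr _ hx'
    have h5 := w.2.1
    have h6 := w.2.2.1
    have h7 := t.2.1
    have h8 := t.2.2
    refine ⟨⟨⟨_, hx', rfl⟩, ?_, ⟨_, hx', rfl⟩⟩, ?_⟩
    · change w.1.2 ≤ r
      nlinarith
    · change t.1 ≤ r
      nlinarith
  · rintro g ⟨s, w, v⟩ t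
    refine Prod.ext rfl (Prod.ext (Subtype.ext (Prod.ext ?_ rfl)) rfl)
    change (1 - t.1) • g • w.1.1 + t.1 • (q (g • s)).1 = g • ((1 - t.1) • w.1.1 + t.1 • (q s).1)
    rw [he, smul_add, smul_comm g (1 - t.1) w.1.1, smul_comm g t.1 (q s).1]
    rfl
  · rintro ⟨s, w, v⟩
    refine Prod.ext rfl (Prod.ext (Subtype.ext (Prod.ext ?_ ?_)) rfl)
    · change (1 - (0 : ℝ)) • w.1.1 + (0 : ℝ) • (q s).1 = w.1.1
      simp
    · change (1 - (0 : ℝ)) * w.1.2 + 0 = w.1.2
      simp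

end PartHB3

end Pool.Agent.Lib.MP_aa9b81_an.Cut
end
end
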