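import Pool.Agent.Lib.MP_aa9b81_an.CutM.Defs

section

section
/-!
# Hereditary shifts, part A0: operators on `ℓ²`, definitions
-/

open scoped ENNReal Topology
open Function

noncomputable section

namespace Pool.Agent.Lib.MP_aa9b81_an.Hs

open Cut

/-- The Hilbert space `ℓ²(Q)`. -/
abbrev L2 (Q : Type) : Type := lp (fun _ : Q => ℂ) 2

/-- The bounded operators on `ℓ²(Q)`. -/
abbrev BL (Q : Type) : Type := L2 Q →L[ℂ] L2 Q

variable {Q Q' Q'' J J' K K' : Type}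

/-- The data of a weighted partial permutation: the weights are bounded by `C` and `τ` is injective on
the support of `w`. -/
structure WOK (τ : Q' → Q) (w : Q' → ℂ) (C : ℝ) : Prop where
  nonneg : 0 ≤ C
  bdd : ∀ q, ‖w q‖ ≤ C
  inj : ∀ q₁ q₂, w q₁ ≠ 0 → w q₂ ≠ 0 → τ q₁ = τ q₂ → q₁ = q₂

private lemma A0_summable (ξ : L2 Q) : Summable fun q => ‖(ξ : Q → ℂ) q‖ ^ 2 := by
  have h := (lp.memℓp ξ).summable (by simp)
  simpa using h

private lemma A0_norm_sq_le {τ : Q' → Q} {w : Q' → ℂ} {C : ℝ} (h : WOK τ w C) (ξ : L2 Q) :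
    Summable (fun q => ‖w q * (ξ : Q → ℂ) (τ q)‖ ^ 2) ∧
      ∑' q, ‖w q * (ξ : Q → ℂ) (τ q)‖ ^ 2 ≤ C ^ 2 * ∑' q, ‖(ξ : Q → ℂ) q‖ ^ 2 := by
  have hξ := A0_summable ξ
  have he : Function.Injective (fun s : {q : Q' // w q ≠ 0} => (s : Q')) := Subtype.val_injective
  have he' : Function.Injective (fun s : {q : Q' // w q ≠ 0} => τ (s : Q')) := fun a b hab =>
    Subtype.ext (h.inj a b a.2 b.2 hab)
  have hz : ∀ p ∉ Set.range (fun s : {q : Q' // w q ≠ 0} => (s : Q')),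
      ‖w p * (ξ : Q → ℂ) (τ p)‖ ^ 2 = 0 := by
    intro p hp
    have hk : w p = 0 := by
      by_contra hne
      exact hp ⟨⟨p, hne⟩, rfl⟩
    simp [hk]
  have hle : ∀ s : {q : Q' // w q ≠ 0}, ‖w (s : Q') * (ξ : Q → ℂ) (τ (s : Q'))‖ ^ 2 ≤
      C ^ 2 * ‖(ξ : Q → ℂ) (τ (s : Q'))‖ ^ 2 := by
    intro s
    rw [norm_mul, mul_pow]
    gcongr
    exact h.bdd s
  have hs' : Summable fun s : {q : Q' // w q ≠ 0} => ‖(ξ : Q → ℂ) (τ (s : Q'))‖ ^ 2 :=
    hξ.comp_injective he'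
  have hs : Summable fun s : {q : Q' // w q ≠ 0} => ‖w (s : Q') * (ξ : Q → ℂ) (τ (s : Q'))‖ ^ 2 :=
    Summable.of_nonneg_of_le (fun _ => by positivity) hle (hs'.mul_left _)
  constructor
  · exact (he.summable_iff hz).1 hs
  · rw [← he.tsum_eq (f := fun p => ‖w p * (ξ : Q → ℂ) (τ p)‖ ^ 2)
      (by
        intro p hp
        by_contra hne
        exact hp (hz p hne))]
    calc ∑' s : {q : Q' // w q ≠ 0}, ‖w (s : Q') * (ξ : Q → ℂ) (τ (s : Q'))‖ ^ 2
        ≤ ∑' s : {q : Q' // w q ≠ 0}, C ^ 2 * ‖(ξ : Q → ℂ) (τ (s : Q'))‖ ^ 2 :=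
          hs.tsum_le_tsum hle (hs'.mul_left _)
      _ = C ^ 2 * ∑' s : {q : Q' // w q ≠ 0}, ‖(ξ : Q → ℂ) (τ (s : Q'))‖ ^ 2 := tsum_mul_left
      _ ≤ C ^ 2 * ∑' q, ‖(ξ : Q → ℂ) q‖ ^ 2 := by
          gcongr
          exact tsum_comp_le_tsum_of_inj hξ (fun _ => by positivity) he'

private lemma A0_memℓp {τ : Q' → Q} {w : Q' → ℂ} {C : ℝ} (h : WOK τ w C) (ξ : L2 Q) :
    Memℓp (fun q => w q * (ξ : Q → ℂ) (τ q)) 2 := by
  refine memℓp_gen ?_
  simpa using (A0_norm_sq_le h ξ).1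

private lemma A0_norm_le {τ : Q' → Q} {w : Q' → ℂ} {C : ℝ} (h : WOK τ w C) (ξ : L2 Q) :
    ‖(⟨fun q => w q * (ξ : Q → ℂ) (τ q), A0_memℓp h ξ⟩ : L2 Q')‖ ≤ C * ‖ξ‖ := by
  have hC0 : 0 ≤ C := h.nonneg
  have h1 := (A0_norm_sq_le h ξ).2
  have h2 : (0 : ℝ) < (2 : ℝ≥0∞).toReal := by simp
  rw [lp.norm_eq_tsum_rpow h2, lp.norm_eq_tsum_rpow h2]
  have h3 : ∀ (R : Type) (η : R → ℂ), (∑' p, ‖η p‖ ^ (2 : ℝ≥0∞).toReal) = ∑' p, ‖η p‖ ^ 2 := by
    intro R η
    simp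
  rw [h3 Q (ξ : Q → ℂ)]
  change (∑' q, ‖w q * (ξ : Q → ℂ) (τ q)‖ ^ (2 : ℝ≥0∞).toReal) ^ _ ≤ _
  rw [h3 Q' (fun q => w q * (ξ : Q → ℂ) (τ q))]
  have h4 : C = (C ^ 2) ^ (1 / (2 : ℝ≥0∞).toReal) := by
    rw [show (2 : ℝ≥0∞).toReal = (2 : ℝ) by simp, ← Real.sqrt_eq_rpow, Real.sqrt_sq hC0]
  have h5 : (0 : ℝ) ≤ ∑' p, ‖(ξ : Q → ℂ) p‖ ^ 2 := tsum_nonneg fun _ => by positivity
  conv_rhs => rw [h4]
  rw [← Real.mul_rpow (by positivity) h5]
  exact Real.rpow_le_rpow (tsum_nonneg fun _ => by positivity) h1 (by simp)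

/-- PROOF: the function `q ↦ w q * ξ (τ q)` is square summable with
`∑ ‖w q‖² ‖ξ (τ q)‖² ≤ C² ∑_{w q ≠ 0} ‖ξ (τ q)‖² ≤ C² ‖ξ‖²`, as `τ` is injective on the support of `w` (compare
`Cut.wFun_norm_sq_le`, `Cut.memℓp_wFun`, `Cut.norm_wFun_le` in CutM/Defs.lean, which are the same for a
special map; restrict the sums to the subtype of the support, `Summable.comp_injective`,
`tsum_comp_le_tsum_of_inj`). `LinearMap.mkContinuous`. -/
theorem exists_wop {τ : Q' → Q} {w : Q' → ℂ} {C : ℝ} (h : WOK τ w C) :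
    ∃ T : L2 Q →L[ℂ] L2 Q', ‖T‖ ≤ C ∧
      ∀ (ξ : L2 Q) (q : Q'), (T ξ : Q' → ℂ) q = w q * (ξ : Q → ℂ) (τ q) := by
  refine ⟨LinearMap.mkContinuous
    { toFun := fun ξ => ⟨fun q => w q * (ξ : Q → ℂ) (τ q), A0_memℓp h ξ⟩
      map_add' := fun ξ η => by
        ext q
        change w q * ((ξ : Q → ℂ) (τ q) + (η : Q → ℂ) (τ q)) =
          w q * (ξ : Q → ℂ) (τ q) + w q * (η : Q → ℂ) (τ q)
        ring
      map_smul' := fun c ξ => by
        ext q
        change w q * (c * (ξ : Q → ℂ) (τ q)) = c * (w q * (ξ : Q → ℂ) (τ q))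
        ring } C (A0_norm_le h), ?_, ?_⟩
  · exact LinearMap.mkContinuous_norm_le _ h.nonneg _
  · intro ξ q
    rfl

open Classical in
/-- The weighted partial permutation `(T ξ)(q) = w(q) ξ(τ q)`. -/
def wop (τ : Q' → Q) (w : Q' → ℂ) : L2 Q →L[ℂ] L2 Q' :=
  if h : ∃ C, WOK τ w C then (exists_wop h.choose_spec).choose else 0

lemma wop_apply {τ : Q' → Q} {w : Q' → ℂ} {C : ℝ} (h : WOK τ w C) (ξ : L2 Q) (q : Q') :
    (wop τ w ξ : Q' → ℂ) q = w q * (ξ : Q → ℂ) (τ q) := by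
  have h' : ∃ C, WOK τ w C := ⟨C, h⟩
  rw [wop, dif_pos h']
  exact (exists_wop h'.choose_spec).choose_spec.2 ξ q

/-- PROOF: by `exists_wop h` there is an operator `T` with `‖T‖ ≤ C` and the same formula, so it is equal to
`wop τ w` (`ContinuousLinearMap.ext`, `lp.ext`, `wop_apply`). -/
lemma norm_wop_le {τ : Q' → Q} {w : Q' → ℂ} {C : ℝ} (h : WOK τ w C) : ‖wop τ w‖ ≤ C := by
  obtain ⟨T, hT, hT'⟩ := exists_wop h
  have h1 : wop τ w = T := by
    refine ContinuousLinearMap.ext fun ξ => ?_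
    ext q
    rw [wop_apply h, hT']
  rw [h1]
  exact hT

lemma WOK.of_injective {τ : Q' → Q} (h : Injective τ) : WOK τ (fun _ => (1 : ℂ)) 1 :=
  ⟨zero_le_one, fun _ => by simp, fun _ _ _ _ e => h e⟩

/-- The pull back `(T ξ)(q) = ξ(τ q)` along an injective map. -/
def pb (τ : Q' → Q) : L2 Q →L[ℂ] L2 Q' := wop τ fun _ => 1

lemma pb_apply {τ : Q' → Q} (h : Injective τ) (ξ : L2 Q) (q : Q') :
    (pb τ ξ : Q' → ℂ) q = (ξ : Q → ℂ) (τ q) := by
  rw [pb, wop_apply (WOK.of_injective h), one_mul]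

lemma norm_pb_le {τ : Q' → Q} (h : Injective τ) : ‖pb τ‖ ≤ 1 := norm_wop_le (WOK.of_injective h)

lemma WOK.diag {φ : Q → ℂ} {C : ℝ} (hC : 0 ≤ C) (h : ∀ q, ‖φ q‖ ≤ C) : WOK (id : Q → Q) φ C :=
  ⟨hC, h, fun _ _ _ _ e => e⟩

/-- The multiplication by a bounded function. -/
def dia (φ : Q → ℂ) : BL Q := wop id φ

lemma dia_apply {φ : Q → ℂ} {C : ℝ} (hC : 0 ≤ C) (h : ∀ q, ‖φ q‖ ≤ C) (ξ : L2 Q) (q : Q) :
    (dia φ ξ : Q → ℂ) q = φ q * (ξ : Q → ℂ) q :=
  wop_apply (WOK.diag hC h) ξ q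

lemma norm_dia_le {φ : Q → ℂ} {C : ℝ} (hC : 0 ≤ C) (h : ∀ q, ‖φ q‖ ≤ C) : ‖dia φ‖ ≤ C :=
  norm_wop_le (WOK.diag hC h)

/-- The slice `ξ(e(j, ·)) ∈ ℓ²(K)` of `ξ ∈ ℓ²(Q)`, `Q ≃ J × K`. -/
def sl (e : J × K ≃ Q) (j : J) : L2 Q →L[ℂ] L2 K := pb fun k => e (j, k)

@[simp] lemma sl_apply (e : J × K ≃ Q) (j : J) (ξ : L2 Q) (k : K) :
    (sl e j ξ : K → ℂ) k = (ξ : Q → ℂ) (e (j, k)) :=
  pb_apply (fun k k' h => by simpa using h) ξ k

lemma ext_sl (e : J × K ≃ Q) {ξ η : L2 Q} (h : ∀ j, sl e j ξ = sl e j η) : ξ = η := by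
  ext q
  obtain ⟨⟨j, k⟩, rfl⟩ := e.surjective q
  have h1 := congrArg (fun ζ : L2 K => (ζ : K → ℂ) k) (h j)
  simpa using h1

/-- The data of a block operator. -/
structure BOK (σ : J' → J) (n : J' → (L2 K →L[ℂ] L2 K')) (C : ℝ) : Prop where
  nonneg : 0 ≤ C
  bdd : ∀ j, ‖n j‖ ≤ C
  inj : ∀ j₁ j₂, n j₁ ≠ 0 → n j₂ ≠ 0 → σ j₁ = σ j₂ → j₁ = j₂

end Pool.Agent.Lib.MP_aa9b81_an.Hs
end

end


section
/-!
# Hereditary shifts, part A1a: the norm and the slices
-/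

open scoped ENNReal Topology
open Function

noncomputable section

namespace Pool.Agent.Lib.MP_aa9b81_an.Hs

open Cut

variable {Q Q' J J' K K' : Type}

/-- PROOF: `lp.norm_eq_tsum_rpow` (with `(2 : ℝ≥0∞).toReal = 2`), or
`lp.norm_rpow_eq_tsum`. -/
theorem norm_sq_L2 (ξ : L2 Q) : ‖ξ‖ ^ 2 = ∑' q, ‖(ξ : Q → ℂ) q‖ ^ 2 := by
  have h2 : (0 : ℝ) < (2 : ℝ≥0∞).toReal := by norm_num
  have h := lp.norm_rpow_eq_tsum h2 ξ
  simpa using h

/-- PROOF: `(lp.memℓp ξ).summable`, as `Cut.summable_hil`. -/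
theorem summable_L2 (ξ : L2 Q) : Summable fun q => ‖(ξ : Q → ℂ) q‖ ^ 2 := by
  have h2 : (0 : ℝ) < (2 : ℝ≥0∞).toReal := by norm_num
  have h := (lp.memℓp ξ).summable h2
  simpa using h

/-- PROOF: `memℓp_gen` (`(2 : ℝ≥0∞).toReal = 2`). -/
theorem memℓp_two {f : Q → ℂ} (h : Summable fun q => ‖f q‖ ^ 2) : Memℓp f 2 := by
  refine memℓp_gen ?_
  simpa using h

/-- PROOF: `norm_sq_L2`, the bijection `e` (`Equiv.tsum_eq`, `Equiv.summable_iff`) and
`Summable.tsum_prod`/`summable_prod_of_nonneg` for the double sum. -/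
theorem summable_sl (e : J × K ≃ Q) (ξ : L2 Q) : Summable fun j => ‖sl e j ξ‖ ^ 2 := by
  have h0 : Summable fun q => ‖(ξ : Q → ℂ) q‖ ^ 2 := summable_L2 ξ
  have h1 : Summable fun p : J × K => ‖(ξ : Q → ℂ) (e p)‖ ^ 2 :=
    (Equiv.summable_iff (f := fun q => ‖(ξ : Q → ℂ) q‖ ^ 2) e).mpr h0
  have h2 := h1.prod
  refine h2.congr fun j => ?_
  rw [norm_sq_L2]
  exact tsum_congr fun k => by rw [sl_apply]

end Pool.Agent.Lib.MP_aa9b81_an.Hs
end

end
end

section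

section
/-!
# Hereditary shifts, part D0: pairs of finite sets, definitions
-/

open scoped ENNReal Topology
open Function

noncomputable section

namespace Pool.Agent.Lib.MP_aa9b81_an.Hs

open Cut

/-- The translate of a finite set. -/
def gF {Γ I : Type} [Group Γ] [MulAction Γ I] (g : Γ) (F : Finset I) : Finset I :=
  F.map (MulAction.toPerm g).toEmbedding

section

variable {Γ I : Type} [Group Γ] [MulAction Γ I]

@[simp] lemma mem_gF {g : Γ} {F : Finset I} {i : I} : i ∈ gF g F ↔ g⁻¹ • i ∈ F := by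
  simp only [gF, Finset.mem_map, Equiv.coe_toEmbedding, MulAction.toPerm_apply]
  constructor
  · rintro ⟨a, ha, rfl⟩
    simpa using ha
  · intro h
    exact ⟨_, h, by simp⟩

@[simp] lemma gF_one (F : Finset I) : gF (1 : Γ) F = F := by
  ext i
  simp

lemma gF_mul (g h : Γ) (F : Finset I) : gF (g * h) F = gF g (gF h F) := by
  ext i
  simp [mul_smul]

lemma card_gF (g : Γ) (F : Finset I) : (gF g F).card = F.card := by simp [gF]

end

/-- The pairs `S ⊆ F` of finite subsets of `I`. -/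
def Bs (I : Type) : Type := {b : Finset I × Finset I // b.2 ⊆ b.1}

namespace Bs

variable {Γ I : Type} [Group Γ] [MulAction Γ I]

/-- The large set. -/
def F (b : Bs I) : Finset I := b.1.1

/-- The small set. -/
def S (b : Bs I) : Finset I := b.1.2

lemma sub (b : Bs I) : b.S ⊆ b.F := b.2

/-- The pair `(F, S)`. -/
def mk (F S : Finset I) (h : S ⊆ F) : Bs I := ⟨(F, S), h⟩

@[simp] lemma mk_F (F S : Finset I) (h : S ⊆ F) : (mk F S h).F = F := rfl

@[simp] lemma mk_S (F S : Finset I) (h : S ⊆ F) : (mk F S h).S = S := rfl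

@[ext] lemma ext {b b' : Bs I} (h : b.F = b'.F) (h' : b.S = b'.S) : b = b' :=
  Subtype.ext (Prod.ext h h')

/-- The pair `(∅, ∅)`. -/
def vac : Bs I := mk ∅ ∅ (Finset.Subset.refl _)

instance : Nonempty (Bs I) := ⟨vac⟩

instance : MulAction Γ (Bs I) where
  smul g b := mk (gF g b.F) (gF g b.S) (Finset.map_subset_map.2 b.sub)
  one_smul b := ext (gF_one _) (gF_one _)
  mul_smul g h b := ext (gF_mul _ _ _) (gF_mul _ _ _)

@[simp] lemma smul_F (g : Γ) (b : Bs I) : (g • b).F = gF g b.F := rfl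

@[simp] lemma smul_S (g : Γ) (b : Bs I) : (g • b).S = gF g b.S := rfl

end Bs

variable {Γ I : Type} [Group Γ] [MulAction Γ I] [DecidableEq I]

/-- The set `S` with the membership of `i` changed. -/
def tg (i : I) (S : Finset I) : Finset I := if i ∈ S then S.erase i else insert i S

/-- Change the membership of `i ∈ F` in `S`. -/
def tog (i : I) (b : Bs I) : Bs I :=
  if h : i ∈ b.F then Bs.mk b.F (tg i b.S) (by
    unfold tg
    split_ifs
    · exact (Finset.erase_subset _ _).trans b.sub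
    · exact Finset.insert_subset h b.sub) else b

/-- Change the membership of `i ∉ S` in `F`. -/
def fl (i : I) (b : Bs I) : Bs I :=
  if h : i ∈ b.S then b else Bs.mk (tg i b.F) b.S (by
    unfold tg
    split_ifs with h'
    · exact fun j hj => Finset.mem_erase.2 ⟨fun e => h (e ▸ hj), b.sub hj⟩
    · exact b.sub.trans (Finset.subset_insert _ _))

/-! ### Signs -/

/-- The antisymmetric sign: `-1` if `e i < e j`, and `1` otherwise. -/
def ta (e : I ↪ ℕ) (i j : I) : ℂ := if e i < e j then -1 else 1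

/-- The sign of the Clifford operator of `i` at `S`. -/
def th (e : I ↪ ℕ) (i : I) (S : Finset I) : ℂ := ∏ j ∈ S.erase i, ta e i j

/-- The sign of `g` at `S`: the product over the pairs `e k < e j` in `S` of `ta (g j) (g k)`. -/
def ep (e : I ↪ ℕ) (g : Γ) (S : Finset I) : ℂ :=
  ∏ j ∈ S, ∏ k ∈ S.filter (fun k => e k < e j), ta e (g • j) (g • k)

end Pool.Agent.Lib.MP_aa9b81_an.Hs
end

end


section
/-!
# Hereditary shifts, part D1a: signs
-/

open scoped ENNReal Topology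
open Function

noncomputable section

namespace Pool.Agent.Lib.MP_aa9b81_an.Hs

open Cut

variable {Γ I : Type} [Group Γ] [MulAction Γ I] [DecidableEq I]

omit [Group Γ] [MulAction Γ I] [DecidableEq I] in
theorem ta_mul_self (e : I ↪ ℕ) (i j : I) : ta e i j * ta e i j = 1 := by
  unfold ta
  split_ifs <;> norm_num

omit [Group Γ] [MulAction Γ I] [DecidableEq I] in
theorem norm_ta (e : I ↪ ℕ) (i j : I) : ‖ta e i j‖ = 1 := by
  unfold ta
  split_ifs <;> simp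

omit [Group Γ] [MulAction Γ I] [DecidableEq I] in
/-- PROOF: `e i ≠ e j` since `e` is injective. -/
theorem ta_swap (e : I ↪ ℕ) {i j : I} (h : i ≠ j) : ta e j i = -ta e i j := by
  have hne : e i ≠ e j := fun h' => h (e.injective h')
  unfold ta
  rcases lt_or_gt_of_ne hne with h1 | h1
  · rw [if_neg (not_lt.2 h1.le), if_pos h1]
    norm_num
  · rw [if_pos h1, if_neg (not_lt.2 h1.le)]

omit [Group Γ] [MulAction Γ I] in
theorem mem_tg {i j : I} {S : Finset I} : j ∈ tg i S ↔ (j = i ∧ i ∉ S) ∨ (j ≠ i ∧ j ∈ S) := by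
  unfold tg
  by_cases hi : i ∈ S
  · rw [if_pos hi, Finset.mem_erase]
    constructor
    · exact fun h => Or.inr h
    · rintro (h | h)
      · exact absurd hi h.2
      · exact h
  · rw [if_neg hi, Finset.mem_insert]
    constructor
    · rintro (h | h)
      · exact Or.inl ⟨h, hi⟩
      · by_cases hj : j = i
        · exact Or.inl ⟨hj, hi⟩
        · exact Or.inr ⟨hj, h⟩
    · rintro (h | h)
      · exact Or.inl h.1
      · exact Or.inr h.2

omit [Group Γ] [MulAction Γ I] in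
theorem tg_tg (i : I) (S : Finset I) : tg i (tg i S) = S := by
  ext j
  by_cases h : j = i
  · subst h
    simp only [mem_tg, true_and, ne_eq, not_true_eq_false, false_and, or_false, not_not]
  · simp only [mem_tg, h, false_and, ne_eq, not_false_eq_true, true_and, false_or]

omit [Group Γ] [MulAction Γ I] in
theorem tg_comm (i j : I) (S : Finset I) : tg i (tg j S) = tg j (tg i S) := by
  by_cases hij : i = j
  · subst hij
    rfl
  · have hji : ¬ j = i := fun h => hij h.symm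
    ext k
    by_cases h1 : k = i
    · subst h1
      simp only [mem_tg, hij, true_and, ne_eq, not_true_eq_false, false_and, or_false,
        not_false_eq_true, false_or]
    · by_cases h2 : k = j
      · subst h2
        simp only [mem_tg, hji, true_and, ne_eq, not_true_eq_false, false_and, or_false,
          not_false_eq_true, false_or]
      · simp only [mem_tg, h1, h2, false_and, ne_eq, not_false_eq_true, true_and, false_or]

end Pool.Agent.Lib.MP_aa9b81_an.Hs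
end

end


section
/-!
# Hereditary shifts, part D1b: signs
-/

open scoped ENNReal Topology
open Function

noncomputable section

namespace Pool.Agent.Lib.MP_aa9b81_an.Hs

open Cut

variable {Γ I : Type} [Group Γ] [MulAction Γ I] [DecidableEq I]

omit [Group Γ] [MulAction Γ I] in
theorem erase_tg (i : I) (S : Finset I) : (tg i S).erase i = S.erase i := by
  ext j
  rw [Finset.mem_erase, Finset.mem_erase, mem_tg]
  constructor
  · rintro ⟨h1, h2 | h2⟩
    · exact absurd h2.1 h1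
    · exact h2
  · rintro ⟨h1, h2⟩
    exact ⟨h1, Or.inr ⟨h1, h2⟩⟩

omit [Group Γ] [MulAction Γ I] in
/-- PROOF: `erase_tg`. -/
theorem th_tg_self (e : I ↪ ℕ) (i : I) (S : Finset I) : th e i (tg i S) = th e i S := by
  unfold th
  rw [erase_tg]

omit [Group Γ] [MulAction Γ I] in
/-- PROOF: products of signs. -/
theorem th_mul_self (e : I ↪ ℕ) (i : I) (S : Finset I) : th e i S * th e i S = 1 := by
  unfold th
  rw [← Finset.prod_mul_distrib]
  exact Finset.prod_eq_one fun j _ => ta_mul_self e i j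

omit [Group Γ] [MulAction Γ I] in
/-- PROOF: product of the norms `norm_ta`. -/
theorem norm_th (e : I ↪ ℕ) (i : I) (S : Finset I) : ‖th e i S‖ = 1 := by
  unfold th
  rw [norm_prod]
  exact Finset.prod_eq_one fun j _ => norm_ta e i j

omit [Group Γ] [MulAction Γ I] in
/-- PROOF: `(tg j S).erase i = tg j (S.erase i)` for `j ≠ i`; inserting or erasing `j` multiplies the product by
`ta e i j` (`ta_mul_self`). -/
theorem th_tg (e : I ↪ ℕ) {i j : I} (h : i ≠ j) (S : Finset I) :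
    th e i (tg j S) = ta e i j * th e i S := by
  have h1 : (tg j S).erase i = tg j (S.erase i) := by
    ext k
    rw [Finset.mem_erase, mem_tg, mem_tg]
    constructor
    · rintro ⟨h2, h3 | h3⟩
      · exact Or.inl ⟨h3.1, fun h4 => h3.2 (Finset.mem_of_mem_erase h4)⟩
      · exact Or.inr ⟨h3.1, Finset.mem_erase.2 ⟨h2, h3.2⟩⟩
    · rintro (h3 | h3)
      · refine ⟨fun h4 => h (h4.symm.trans h3.1), Or.inl ⟨h3.1, fun h4 => h3.2 ?_⟩⟩
        exact Finset.mem_erase.2 ⟨h.symm, h4⟩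
      · exact ⟨(Finset.mem_erase.1 h3.2).1, Or.inr ⟨h3.1, (Finset.mem_erase.1 h3.2).2⟩⟩
  unfold th
  rw [h1]
  unfold tg
  by_cases h2 : j ∈ S.erase i
  · rw [if_pos h2, ← Finset.mul_prod_erase (S.erase i) (fun k => ta e i k) h2, ← mul_assoc,
      ta_mul_self, one_mul]
  · rw [if_neg h2, Finset.prod_insert h2]

omit [MulAction Γ I] [Group Γ] in
/-- PROOF: the signs are real (`1` or `-1`). -/
theorem conj_th (e : I ↪ ℕ) (i : I) (S : Finset I) : (starRingEnd ℂ) (th e i S) = th e i S := by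
  unfold th
  rw [map_prod]
  refine Finset.prod_congr rfl fun j _ => ?_
  unfold ta
  split_ifs <;> simp

end Pool.Agent.Lib.MP_aa9b81_an.Hs
end

end
end

section

section
/-!
# Hereditary shifts, part D3a: Clifford operators, finite dimensional part
-/

open scoped ENNReal Topology
open Function

noncomputable section

namespace Pool.Agent.Lib.MP_aa9b81_an.Hs

open Cut

variable {I : Type} [DecidableEq I]

private theorem D3a_tg_subset {F S : Finset I} {i : I} (hi : i ∈ F) (hS : S ⊆ F) : tg i S ⊆ F := by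
  intro k hk
  rcases mem_tg.1 hk with ⟨rfl, -⟩ | ⟨-, hk⟩
  · exact hi
  · exact hS hk

/-- PROOF. Off-diagonal cancellation. For `i ≠ j` in `F` put
`t(i, j, S) = th i S * th j S * v (tg i S) * conj (v (tg j S))`. With `S' = tg i (tg j S)` one has
`th i S' = th i (tg j S) = ta i j * th i S` (`tg_comm`, `th_tg_self`, `th_tg`),
`th j S' = ta j i * th j S`, `tg i S' = tg j S`, `tg j S' = tg i S` (`tg_tg`, `tg_comm`), and
`ta i j * ta j i = -1` (`ta_swap`, `ta_mul_self`), so `t(i, j, S') = - t(j, i, S)`. The map `S ↦ S'` is an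
involution of `F.powerset` (`i, j ∈ F`), so `∑_S t(i, j, S) = - ∑_S t(j, i, S)` (`Finset.sum_nbij'`). -/
theorem sum_offdiag (e : I ↪ ℕ) {F : Finset I} (v : Finset I → ℂ) {i j : I} (hi : i ∈ F)
    (hj : j ∈ F) (h : i ≠ j) :
    ∑ S ∈ F.powerset, th e i S * th e j S * (v (tg i S) * (starRingEnd ℂ) (v (tg j S))) =
      -∑ S ∈ F.powerset, th e j S * th e i S * (v (tg j S) * (starRingEnd ℂ) (v (tg i S))) := by
  have hmem : ∀ S ∈ F.powerset, tg i (tg j S) ∈ F.powerset := fun S hS =>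
    Finset.mem_powerset.2 (D3a_tg_subset hi (D3a_tg_subset hj (Finset.mem_powerset.1 hS)))
  have hinv : ∀ S : Finset I, tg i (tg j (tg i (tg j S))) = S := fun S => by
    rw [tg_comm j i, tg_tg, tg_tg]
  rw [← Finset.sum_neg_distrib]
  refine Finset.sum_nbij' (fun S => tg i (tg j S)) (fun S => tg i (tg j S)) hmem hmem
    (fun S _ => hinv S) (fun S _ => hinv S) fun S _ => ?_
  have h1 : tg j (tg i (tg j S)) = tg i S := by rw [tg_comm i j, tg_tg]
  have h2 : tg i (tg i (tg j S)) = tg j S := tg_tg _ _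
  have h3 : th e i (tg i (tg j S)) = ta e i j * th e i S := by
    rw [th_tg_self, th_tg e h]
  have h4 : th e j (tg i (tg j S)) = ta e j i * th e j S := by
    rw [tg_comm, th_tg_self, th_tg e h.symm]
  have h5 : ta e j i * ta e i j = -1 := by
    rw [ta_swap e h, neg_mul, ta_mul_self]
  rw [h1, h2, h3, h4]
  linear_combination (th e j S * th e i S * (v (tg i S) * (starRingEnd ℂ) (v (tg j S)))) * h5

/-- PROOF: the involution `S ↦ tg i S` of `F.powerset`, `th i S * th i S = 1`, `z * conj z = ‖z‖²`. -/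
theorem sum_diag (e : I ↪ ℕ) {F : Finset I} (v : Finset I → ℂ) {i : I} (hi : i ∈ F) :
    ∑ S ∈ F.powerset, th e i S * th e i S * (v (tg i S) * (starRingEnd ℂ) (v (tg i S))) =
      ((∑ S ∈ F.powerset, ‖v S‖ ^ 2 : ℝ) : ℂ) := by
  have hmem : ∀ S ∈ F.powerset, tg i S ∈ F.powerset := fun S hS =>
    Finset.mem_powerset.2 (D3a_tg_subset hi (Finset.mem_powerset.1 hS))
  rw [Complex.ofReal_sum]
  refine Finset.sum_nbij' (fun S => tg i S) (fun S => tg i S) hmem hmem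
    (fun S _ => tg_tg i S) (fun S _ => tg_tg i S) fun S _ => ?_
  rw [th_mul_self, one_mul, RCLike.mul_conj]
  push_cast
  rfl

end Pool.Agent.Lib.MP_aa9b81_an.Hs
end

end


section
/-!
# Hereditary shifts, part D3b: Clifford operators, finite dimensional part
-/

open scoped ENNReal Topology
open Function

noncomputable section

namespace Pool.Agent.Lib.MP_aa9b81_an.Hs

open Cut

variable {I : Type} [DecidableEq I]

omit [DecidableEq I] in
theorem D3b_antisymm {F : Finset I} {h : I → I → ℂ} (hh : ∀ i ∈ F, ∀ j ∈ F, h i j = -h j i) :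
    ∑ i ∈ F, ∑ j ∈ F, h i j = 0 := by
  have h1 : ∑ i ∈ F, ∑ j ∈ F, h i j = -∑ i ∈ F, ∑ j ∈ F, h i j := by
    conv_rhs => rw [Finset.sum_comm]
    rw [← Finset.sum_neg_distrib]
    refine Finset.sum_congr rfl fun i hi => ?_
    rw [← Finset.sum_neg_distrib]
    exact Finset.sum_congr rfl fun j hj => hh i hi j hj
  linear_combination (1 / 2 : ℂ) * h1

/-- PROOF: `‖z‖² = z * conj z`; expand the square of the sum as a double sum over `i, j ∈ F`
(`Finset.sum_mul_sum`, `map_sum`, `conj_th`, the `a i` are real), exchange the sums; the terms with `i = j` give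
the right side by `sum_diag`; the sum `D` of the terms with `i ≠ j` satisfies `D = -D` by `sum_offdiag`
(exchange the names of `i` and `j`), so it is `0`. -/
theorem clifford_sq (e : I ↪ ℕ) (F : Finset I) (a : I → ℝ) (v : Finset I → ℂ) :
    ∑ S ∈ F.powerset, ‖∑ i ∈ F, (a i : ℂ) * (th e i S * v (tg i S))‖ ^ 2 =
      (∑ i ∈ F, a i ^ 2) * ∑ S ∈ F.powerset, ‖v S‖ ^ 2 := by
  apply Complex.ofReal_injective
  obtain ⟨V, hV⟩ : ∃ V : ℂ, V = ((∑ S ∈ F.powerset, ‖v S‖ ^ 2 : ℝ) : ℂ) := ⟨_, rfl⟩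
  obtain ⟨g, hg⟩ : ∃ g : I → I → ℂ, g = fun i j => ∑ S ∈ F.powerset,
    th e i S * th e j S * (v (tg i S) * (starRingEnd ℂ) (v (tg j S))) := ⟨_, rfl⟩
  have h1 : ((∑ S ∈ F.powerset, ‖∑ i ∈ F, (a i : ℂ) * (th e i S * v (tg i S))‖ ^ 2 : ℝ) : ℂ) =
      ∑ i ∈ F, ∑ j ∈ F, (a i : ℂ) * (a j : ℂ) * g i j := by
    rw [Complex.ofReal_sum]
    calc _ = ∑ S ∈ F.powerset, ∑ i ∈ F, ∑ j ∈ F, (a i : ℂ) * (a j : ℂ) *
          (th e i S * th e j S * (v (tg i S) * (starRingEnd ℂ) (v (tg j S)))) := by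
          refine Finset.sum_congr rfl fun S _ => ?_
          have h2 : ((‖∑ i ∈ F, (a i : ℂ) * (th e i S * v (tg i S))‖ ^ 2 : ℝ) : ℂ) =
              (∑ i ∈ F, (a i : ℂ) * (th e i S * v (tg i S))) *
                (starRingEnd ℂ) (∑ i ∈ F, (a i : ℂ) * (th e i S * v (tg i S))) := by
            rw [RCLike.mul_conj]
            push_cast
            rfl
          rw [h2, map_sum, Finset.sum_mul_sum]
          refine Finset.sum_congr rfl fun i _ => Finset.sum_congr rfl fun j _ => ?_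
          rw [map_mul, map_mul, conj_th, Complex.conj_ofReal]
          ring
      _ = ∑ i ∈ F, ∑ j ∈ F, ∑ S ∈ F.powerset, (a i : ℂ) * (a j : ℂ) *
          (th e i S * th e j S * (v (tg i S) * (starRingEnd ℂ) (v (tg j S)))) := by
          rw [Finset.sum_comm]
          refine Finset.sum_congr rfl fun i _ => ?_
          rw [Finset.sum_comm]
      _ = _ := by
          rw [hg]
          refine Finset.sum_congr rfl fun i _ => Finset.sum_congr rfl fun j _ => ?_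
          rw [← Finset.mul_sum]
  have h2 : ∑ i ∈ F, ∑ j ∈ F, ((a i : ℂ) * (a j : ℂ) * g i j -
      if i = j then (a i : ℂ) ^ 2 * V else 0) = 0 := by
    apply D3b_antisymm
    intro i hi j hj
    by_cases hij : i = j
    · subst hij
      have h3 : g i i = V := by rw [hg, hV]; exact sum_diag e v hi
      rw [if_pos rfl, h3]
      ring
    · rw [if_neg hij, if_neg (Ne.symm hij)]
      have h3 : g i j = -g j i := by rw [hg]; exact sum_offdiag e v hi hj hij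
      rw [h3]
      ring
  have h3 : ∑ i ∈ F, ∑ j ∈ F, (if i = j then (a i : ℂ) ^ 2 * V else 0) =
      (∑ i ∈ F, (a i : ℂ) ^ 2) * V := by
    rw [Finset.sum_mul]
    refine Finset.sum_congr rfl fun i hi => ?_
    rw [Finset.sum_ite_eq, if_pos hi]
  simp only [Finset.sum_sub_distrib] at h2
  rw [h1, sub_eq_zero.1 h2, h3, hV]
  push_cast
  ring

end Pool.Agent.Lib.MP_aa9b81_an.Hs
end

end


section
/-!
# Hereditary shifts, part D4a: Clifford operators
-/

open scoped ENNReal Topology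
open Function

noncomputable section

namespace Pool.Agent.Lib.MP_aa9b81_an.Hs

open Cut

variable {I : Type} [DecidableEq I]

/-- The pairs, sorted by the large set. -/
def D4a_eq : Bs I ≃ (Σ F : Finset I, {S : Finset I // S ∈ F.powerset}) where
  toFun b := ⟨b.F, b.S, Finset.mem_powerset.2 b.sub⟩
  invFun x := Bs.mk x.1 x.2.1 (Finset.mem_powerset.1 x.2.2)
  left_inv _ := rfl
  right_inv _ := rfl

omit [DecidableEq I] in
theorem D4a_summable {f : Bs I → ℝ} (hf : ∀ b, 0 ≤ f b) : Summable f ↔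
    Summable fun F : Finset I => ∑ S : {S : Finset I // S ∈ F.powerset},
      f (D4a_eq.symm ⟨F, S⟩) := by
  rw [← D4a_eq.symm.summable_iff]
  change Summable (fun x => f (D4a_eq.symm x)) ↔ _
  rw [summable_sigma_of_nonneg (fun x => hf _)]
  simp only [tsum_fintype]
  exact ⟨fun h => h.2, fun h => ⟨fun F => Summable.of_finite, h⟩⟩

omit [DecidableEq I] in
theorem D4a_tsum {f : Bs I → ℝ} (h : Summable f) : ∑' b, f b =
    ∑' F : Finset I, ∑ S : {S : Finset I // S ∈ F.powerset}, f (D4a_eq.symm ⟨F, S⟩) := by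
  have h1 : Summable fun x => f (D4a_eq.symm x) := D4a_eq.symm.summable_iff.2 h
  rw [← D4a_eq.symm.tsum_eq, Summable.tsum_sigma' (fun F => Summable.of_finite) h1]
  simp only [tsum_fintype]

/-- The function `S ↦ ξ (F, S)`. -/
def D4a_v (ξ : Bs I → ℂ) (F S : Finset I) : ℂ := if h : S ⊆ F then ξ (Bs.mk F S h) else 0

theorem D4a_sub {i : I} {S F : Finset I} (hi : i ∈ F) (h : S ⊆ F) : tg i S ⊆ F := by
  unfold tg
  split_ifs
  · exact (Finset.erase_subset _ _).trans h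
  · exact Finset.insert_subset hi h

theorem D4a_clF (e : I ↪ ℕ) (a : Finset I → I → ℝ) (ξ : Bs I → ℂ) (b : Bs I) :
    (∑ i ∈ b.F, (a b.F i : ℂ) * (th e i b.S * ξ (tog i b))) =
      ∑ i ∈ b.F, (a b.F i : ℂ) * (th e i b.S * D4a_v ξ b.F (tg i b.S)) := by
  refine Finset.sum_congr rfl fun i hi => ?_
  have h2 : tg i b.S ⊆ b.F := D4a_sub hi b.sub
  have h1 : tog i b = Bs.mk b.F (tg i b.S) h2 := dif_pos hi
  have h3 : D4a_v ξ b.F (tg i b.S) = ξ (Bs.mk b.F (tg i b.S) h2) := dif_pos h2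
  rw [h1, h3]

omit [DecidableEq I] in
/-- The coefficients `a F i`, `i ∈ F`, have `ℓ²` norm at most `C`, for all `F`. -/
structure CB (a : Finset I → I → ℝ) (C : ℝ) : Prop where
  nonneg : 0 ≤ C
  bdd : ∀ F, ∑ i ∈ F, a F i ^ 2 ≤ C ^ 2

/-- The function `b ↦ ∑_{i ∈ F} a_F(i) θ(i, S) ξ(F, tg i S)`. -/
def clF (e : I ↪ ℕ) (a : Finset I → I → ℝ) (ξ : Bs I → ℂ) (b : Bs I) : ℂ :=
  ∑ i ∈ b.F, (a b.F i : ℂ) * (th e i b.S * ξ (tog i b))

lemma tog_of_mem {i : I} {b : Bs I} (h : i ∈ b.F) : (tog i b).F = b.F ∧ (tog i b).S = tg i b.S := by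
  rw [tog, dif_pos h]
  exact ⟨rfl, rfl⟩

/-- PROOF: the sum over the `b` with `b.F = F` is the sum over `S ∈ F.powerset`: apply `clifford_sq` with
`v S = ξ (F, S)` (and `0` if `S` is not a subset of `F`): it is `(∑ a_F(i)²) ∑_{S} ‖ξ(F, S)‖²
≤ C² ∑_{S} ‖ξ(F, S)‖²`. For a finite set `s` of pairs, `∑_{b ∈ s} ‖clF b‖²` is at most the sum over the finite
set of the `F` occurring in `s` and over all `S ∈ F.powerset`, so at most `C² ∑ ‖ξ b‖²`; then
`summable_of_sum_le`, `tsum_le_of_sum_le`. -/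
theorem clF_sq_le (e : I ↪ ℕ) {a : Finset I → I → ℝ} {C : ℝ} (h : CB a C) (ξ : L2 (Bs I)) :
    Summable (fun b => ‖clF e a ξ b‖ ^ 2) ∧
      ∑' b, ‖clF e a ξ b‖ ^ 2 ≤ C ^ 2 * ∑' b, ‖(ξ : Bs I → ℂ) b‖ ^ 2 := by
  obtain ⟨v, hv⟩ : ∃ v : Finset I → Finset I → ℂ, v = D4a_v (ξ : Bs I → ℂ) := ⟨_, rfl⟩
  have h1 : ∀ F : Finset I, (∑ S : {S : Finset I // S ∈ F.powerset},
      ‖(ξ : Bs I → ℂ) (D4a_eq.symm ⟨F, S⟩)‖ ^ 2) = ∑ S ∈ F.powerset, ‖v F S‖ ^ 2 := by
    intro F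
    rw [← Finset.sum_coe_sort F.powerset fun S => ‖v F S‖ ^ 2]
    refine Finset.sum_congr rfl fun S _ => ?_
    rw [hv, D4a_v, dif_pos (Finset.mem_powerset.1 S.2)]
    rfl
  have h2 : ∀ F : Finset I, (∑ S : {S : Finset I // S ∈ F.powerset},
      ‖clF e a ξ (D4a_eq.symm ⟨F, S⟩)‖ ^ 2) =
        (∑ i ∈ F, a F i ^ 2) * ∑ S ∈ F.powerset, ‖v F S‖ ^ 2 := by
    intro F
    rw [← clifford_sq e F (a F) (v F), ← Finset.sum_coe_sort F.powerset fun S =>
      ‖∑ i ∈ F, (a F i : ℂ) * (th e i S * v F (tg i S))‖ ^ 2]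
    refine Finset.sum_congr rfl fun S _ => ?_
    rw [clF, D4a_clF, hv]
    rfl
  have hs := summable_L2 ξ
  have h3 := (D4a_summable (fun b => sq_nonneg ‖(ξ : Bs I → ℂ) b‖)).1 hs
  have h4 := D4a_tsum hs
  simp only [h1] at h3 h4
  have h5 : ∀ F : Finset I, (∑ i ∈ F, a F i ^ 2) * ∑ S ∈ F.powerset, ‖v F S‖ ^ 2 ≤
      C ^ 2 * ∑ S ∈ F.powerset, ‖v F S‖ ^ 2 := fun F =>
    mul_le_mul_of_nonneg_right (h.bdd F) (Finset.sum_nonneg fun _ _ => sq_nonneg _)
  have h6 : Summable fun F : Finset I =>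
      (∑ i ∈ F, a F i ^ 2) * ∑ S ∈ F.powerset, ‖v F S‖ ^ 2 :=
    Summable.of_nonneg_of_le (fun F => mul_nonneg (Finset.sum_nonneg fun _ _ => sq_nonneg _)
      (Finset.sum_nonneg fun _ _ => sq_nonneg _)) h5 (h3.mul_left _)
  have h7 : Summable (fun b => ‖clF e a ξ b‖ ^ 2) := by
    rw [D4a_summable (fun b => sq_nonneg _)]
    simp only [h2]
    exact h6
  refine ⟨h7, ?_⟩
  rw [D4a_tsum h7, h4, ← tsum_mul_left]
  simp only [h2]
  exact h6.tsum_le_tsum h5 (h3.mul_left _)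

/-- PROOF: `clF_sq_le`, `memℓp_two`, `norm_sq_L2`, `LinearMap.mkContinuous`. -/
theorem exists_cl (e : I ↪ ℕ) {a : Finset I → I → ℝ} {C : ℝ} (h : CB a C) :
    ∃ T : BL (Bs I), ‖T‖ ≤ C ∧ ∀ (ξ : L2 (Bs I)) (b : Bs I), (T ξ : Bs I → ℂ) b = clF e a ξ b := by
  have hm : ∀ ξ : L2 (Bs I), Memℓp (fun b => clF e a ξ b) 2 := fun ξ =>
    memℓp_two (clF_sq_le e h ξ).1
  let T : L2 (Bs I) →ₗ[ℂ] L2 (Bs I) :=
    { toFun := fun ξ => ⟨fun b => clF e a ξ b, hm ξ⟩
      map_add' := by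
        intro ξ η
        ext b
        simp only [clF, lp.coeFn_add, Pi.add_apply]
        rw [← Finset.sum_add_distrib]
        exact Finset.sum_congr rfl fun i _ => by ring
      map_smul' := by
        intro z ξ
        ext b
        simp only [clF, lp.coeFn_smul, Pi.smul_apply, smul_eq_mul, RingHom.id_apply]
        rw [Finset.mul_sum]
        exact Finset.sum_congr rfl fun i _ => by ring }
  have hT : ∀ ξ, ‖T ξ‖ ≤ C * ‖ξ‖ := by
    intro ξ
    refine le_of_sq_le_sq ?_ (mul_nonneg h.nonneg (norm_nonneg _))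
    rw [mul_pow, norm_sq_L2, norm_sq_L2]
    exact (clF_sq_le e h ξ).2
  refine ⟨T.mkContinuous C hT, T.mkContinuous_norm_le h.nonneg hT, fun ξ b => rfl⟩

open Classical in
/-- The Clifford operator. -/
def Cl (e : I ↪ ℕ) (a : Finset I → I → ℝ) : BL (Bs I) :=
  if h : ∃ C, CB a C then (exists_cl e h.choose_spec).choose else 0

lemma Cl_apply (e : I ↪ ℕ) {a : Finset I → I → ℝ} {C : ℝ} (h : CB a C) (ξ : L2 (Bs I))
    (b : Bs I) : (Cl e a ξ : Bs I → ℂ) b = clF e a ξ b := by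
  have h' : ∃ C, CB a C := ⟨C, h⟩
  rw [Cl, dif_pos h']
  exact (exists_cl e h'.choose_spec).choose_spec.2 ξ b

lemma norm_Cl_le (e : I ↪ ℕ) {a : Finset I → I → ℝ} {C : ℝ} (h : CB a C) : ‖Cl e a‖ ≤ C := by
  obtain ⟨T, hT, hT'⟩ := exists_cl e h
  have h1 : Cl e a = T := by
    refine ContinuousLinearMap.ext fun ξ => ?_
    ext q
    rw [Cl_apply e h, hT']
  rw [h1]
  exact hT

end Pool.Agent.Lib.MP_aa9b81_an.Hs
end

end
end

section

/-!
# Hereditary shifts, part D4: Clifford operators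
-/

open scoped ENNReal Topology
open Function

noncomputable section

namespace Pool.Agent.Lib.MP_aa9b81_an.Hs

open Cut

variable {I : Type} [DecidableEq I]

omit [DecidableEq I] in
/-- PROOF: `(x + y)² ≤ 2 x² + 2 y²` is not enough; use `√∑(a + a')² ≤ √∑a² + √∑a'²` (Minkowski:
`Real.Lp_add_le` with `p = 2`, or Cauchy-Schwarz `Finset.sum_mul_sq_le_sq_mul_sq`/`Finset.inner_mul_le_norm_mul_norm`):
`∑ (a + a')² = ∑ a² + 2 ∑ a a' + ∑ a'² ≤ C² + 2 C C' + C'²`. -/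
theorem CB.add {a a' : Finset I → I → ℝ} {C C' : ℝ} (h : CB a C) (h' : CB a' C') :
    CB (fun F i => a F i + a' F i) (C + C') := by
  refine ⟨add_nonneg h.nonneg h'.nonneg, fun F => ?_⟩
  have h1 := Finset.sum_mul_sq_le_sq_mul_sq F (a F) (a' F)
  have h2 := h.bdd F
  have h3 := h'.bdd F
  have h4 : (∑ i ∈ F, a F i * a' F i) ^ 2 ≤ (C * C') ^ 2 := by
    refine h1.trans ?_
    rw [mul_pow]
    exact mul_le_mul h2 h3 (Finset.sum_nonneg fun _ _ => sq_nonneg _) (sq_nonneg _)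
  have h5 : ∑ i ∈ F, a F i * a' F i ≤ C * C' :=
    le_of_abs_le (abs_le_of_sq_le_sq h4 (mul_nonneg h.nonneg h'.nonneg))
  have h6 : ∑ i ∈ F, (a F i + a' F i) ^ 2 =
      ∑ i ∈ F, a F i ^ 2 + 2 * ∑ i ∈ F, a F i * a' F i + ∑ i ∈ F, a' F i ^ 2 := by
    rw [Finset.mul_sum, ← Finset.sum_add_distrib, ← Finset.sum_add_distrib]
    exact Finset.sum_congr rfl fun i _ => by ring
  rw [h6]
  nlinarith

omit [DecidableEq I] in
theorem CB.neg {a : Finset I → I → ℝ} {C : ℝ} (h : CB a C) : CB (fun F i => -a F i) C :=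
  ⟨h.nonneg, fun F => by simpa using h.bdd F⟩

omit [DecidableEq I] in
theorem CB.sub {a a' : Finset I → I → ℝ} {C C' : ℝ} (h : CB a C) (h' : CB a' C') :
    CB (fun F i => a F i - a' F i) (C + C') := by
  simpa [sub_eq_add_neg] using h.add h'.neg

/-- PROOF: coordinates, `Cl_apply` (with `h.add h'`), `Finset.sum_add_distrib`. -/
theorem Cl_add (e : I ↪ ℕ) {a a' : Finset I → I → ℝ} {C C' : ℝ} (h : CB a C) (h' : CB a' C') :
    Cl e (fun F i => a F i + a' F i) = Cl e a + Cl e a' := by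
  refine ContinuousLinearMap.ext fun ξ => ?_
  ext b
  rw [Cl_apply e (h.add h')]
  change _ = (Cl e a ξ : Bs I → ℂ) b + (Cl e a' ξ : Bs I → ℂ) b
  rw [Cl_apply e h, Cl_apply e h']
  simp only [clF]
  rw [← Finset.sum_add_distrib]
  refine Finset.sum_congr rfl fun i _ => ?_
  push_cast
  ring

/-- PROOF: as `Cl_add`. -/
theorem Cl_sub (e : I ↪ ℕ) {a a' : Finset I → I → ℝ} {C C' : ℝ} (h : CB a C) (h' : CB a' C') :
    Cl e (fun F i => a F i - a' F i) = Cl e a - Cl e a' := by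
  refine ContinuousLinearMap.ext fun ξ => ?_
  ext b
  rw [Cl_apply e (h.sub h')]
  change _ = (Cl e a ξ : Bs I → ℂ) b - (Cl e a' ξ : Bs I → ℂ) b
  rw [Cl_apply e h, Cl_apply e h']
  simp only [clF]
  rw [← Finset.sum_sub_distrib]
  refine Finset.sum_congr rfl fun i _ => ?_
  push_cast
  ring

end Pool.Agent.Lib.MP_aa9b81_an.Hs
end
end

section

/-!
# Hereditary shifts, part D3: Clifford operators, finite dimensional part
-/

open scoped ENNReal Topology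
open Function

noncomputable section

namespace Pool.Agent.Lib.MP_aa9b81_an.Hs

open Cut

variable {I : Type} [DecidableEq I]

omit [DecidableEq I] in
theorem D3_antisymm {F : Finset I} {h : I → I → ℂ} (hh : ∀ i ∈ F, ∀ j ∈ F, h i j = -h j i) :
    ∑ i ∈ F, ∑ j ∈ F, h i j = 0 := by
  have h1 : ∑ i ∈ F, ∑ j ∈ F, h i j = -∑ i ∈ F, ∑ j ∈ F, h i j := by
    conv_rhs => rw [Finset.sum_comm]
    rw [← Finset.sum_neg_distrib]
    refine Finset.sum_congr rfl fun i hi => ?_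
    rw [← Finset.sum_neg_distrib]
    exact Finset.sum_congr rfl fun j hj => hh i hi j hj
  linear_combination (1 / 2 : ℂ) * h1

/-- PROOF: the terms with `i = j` give the right side (`tg_tg`, `th_tg_self`, `th_mul_self`); for `i ≠ j` the
terms of `(i, j)` and `(j, i)` cancel: `th i S * th j (tg i S) = ta j i * th i S * th j S` and
`th j S * th i (tg j S) = ta i j * th i S * th j S` have opposite signs, and `tg j (tg i S) = tg i (tg j S)`. So
the sum `D` of the off-diagonal terms satisfies `D = -D`. -/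
theorem clifford_mul_self (e : I ↪ ℕ) (F : Finset I) (a : I → ℝ) (v : Finset I → ℂ)
    (S : Finset I) :
    ∑ i ∈ F, (a i : ℂ) * (th e i S * ∑ j ∈ F, (a j : ℂ) * (th e j (tg i S) * v (tg j (tg i S)))) =
      ((∑ i ∈ F, a i ^ 2 : ℝ) : ℂ) * v S := by
  have h1 : ∑ i ∈ F, (a i : ℂ) * (th e i S *
      ∑ j ∈ F, (a j : ℂ) * (th e j (tg i S) * v (tg j (tg i S)))) =
      ∑ i ∈ F, ∑ j ∈ F, (a i : ℂ) * (a j : ℂ) *
        (th e i S * th e j (tg i S) * v (tg j (tg i S))) := by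
    refine Finset.sum_congr rfl fun i _ => ?_
    rw [Finset.mul_sum, Finset.mul_sum]
    refine Finset.sum_congr rfl fun j _ => ?_
    ring
  have h2 : ∑ i ∈ F, ∑ j ∈ F, ((a i : ℂ) * (a j : ℂ) *
      (th e i S * th e j (tg i S) * v (tg j (tg i S))) -
      if i = j then (a i : ℂ) ^ 2 * v S else 0) = 0 := by
    apply D3_antisymm
    intro i hi j hj
    by_cases hij : i = j
    · subst hij
      rw [if_pos rfl, tg_tg, th_tg_self, th_mul_self]
      ring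
    · rw [if_neg hij, if_neg (Ne.symm hij), tg_comm i j S, th_tg e hij,
        th_tg e (Ne.symm hij), ta_swap e hij]
      ring
  have h3 : ∑ i ∈ F, ∑ j ∈ F, (if i = j then (a i : ℂ) ^ 2 * v S else 0) =
      (∑ i ∈ F, (a i : ℂ) ^ 2) * v S := by
    rw [Finset.sum_mul]
    refine Finset.sum_congr rfl fun i hi => ?_
    rw [Finset.sum_ite_eq, if_pos hi]
  simp only [Finset.sum_sub_distrib] at h2
  rw [h1, sub_eq_zero.1 h2, h3]
  push_cast
  ring

end Pool.Agent.Lib.MP_aa9b81_an.Hs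
end
end

section

/-!
# Hereditary shifts, part D5a: relations of the Clifford operators
-/

open scoped ENNReal Topology
open Function

noncomputable section

namespace Pool.Agent.Lib.MP_aa9b81_an.Hs

open Cut

variable {Γ I : Type} [Group Γ] [MulAction Γ I] [DecidableEq I]

omit [Group Γ] [MulAction Γ I] in
/-- The function `S ↦ ξ (F, S)`. -/
def D5a_v (ξ : Bs I → ℂ) (F S : Finset I) : ℂ := if h : S ⊆ F then ξ (Bs.mk F S h) else 0

omit [Group Γ] [MulAction Γ I] in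
theorem D5a_sub {i : I} {S F : Finset I} (hi : i ∈ F) (h : S ⊆ F) : tg i S ⊆ F := by
  unfold tg
  split_ifs
  · exact (Finset.erase_subset _ _).trans h
  · exact Finset.insert_subset hi h

omit [Group Γ] [MulAction Γ I] in
theorem D5a_tog {i : I} {b : Bs I} (h : i ∈ b.F) (ξ : Bs I → ℂ) :
    ξ (tog i b) = D5a_v ξ b.F (tg i b.S) := by
  have h2 : tg i b.S ⊆ b.F := D5a_sub h b.sub
  have h1 : tog i b = Bs.mk b.F (tg i b.S) h2 := dif_pos h
  have h3 : D5a_v ξ b.F (tg i b.S) = ξ (Bs.mk b.F (tg i b.S) h2) := dif_pos h2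
  rw [h1, h3]

omit [Group Γ] [MulAction Γ I] in
/-- PROOF: coordinates; `clifford_mul_self` with `v S = ξ (F, S)` (and `0` if `S` is not a subset of `F`). -/
theorem Cl_mul_self (e : I ↪ ℕ) {a : Finset I → I → ℝ} {C : ℝ} (h : CB a C) :
    Cl e a * Cl e a = dia fun b : Bs I => ((∑ i ∈ b.F, a b.F i ^ 2 : ℝ) : ℂ) := by
  have hb : ∀ b : Bs I, ‖((∑ i ∈ b.F, a b.F i ^ 2 : ℝ) : ℂ)‖ ≤ C ^ 2 := by
    intro b
    rw [Complex.norm_real, Real.norm_eq_abs,
      abs_of_nonneg (Finset.sum_nonneg fun _ _ => sq_nonneg _)]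
    exact h.bdd b.F
  refine ContinuousLinearMap.ext fun ξ => ?_
  ext b
  rw [dia_apply (sq_nonneg C) hb]
  change (Cl e a (Cl e a ξ) : Bs I → ℂ) b = _
  rw [Cl_apply e h]
  have h0 : (ξ : Bs I → ℂ) b = D5a_v ξ b.F b.S := by
    rw [D5a_v, dif_pos b.sub]
    rfl
  rw [h0, ← clifford_mul_self e b.F (a b.F) (D5a_v ξ b.F) b.S, clF]
  refine Finset.sum_congr rfl fun i hi => ?_
  obtain ⟨h1, h2⟩ := tog_of_mem hi
  rw [Cl_apply e h, clF, h1, h2]
  congr 2
  refine Finset.sum_congr rfl fun j hj => ?_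
  have h3 : j ∈ (tog i b).F := by rw [h1]; exact hj
  have h4 := D5a_tog h3 (ξ : Bs I → ℂ)
  rw [h1, h2] at h4
  rw [h4]

omit [Group Γ] [MulAction Γ I] in
/-- Multiplication by a function of `F` commutes with the Clifford operators, and the product is the Clifford
operator of the product (for a real function). PROOF: coordinates, `(tog i b).F = b.F`. -/
theorem dia_mul_Cl (e : I ↪ ℕ) {a : Finset I → I → ℝ} {C : ℝ} (h : CB a C) {φ : Finset I → ℝ}
    (hφ : ∀ F, |φ F| ≤ 1) : dia (fun b : Bs I => ((φ b.F : ℝ) : ℂ)) * Cl e a =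
      Cl e fun F i => φ F * a F i := by
  have hb : ∀ b : Bs I, ‖((φ b.F : ℝ) : ℂ)‖ ≤ 1 := by
    intro b
    rw [Complex.norm_real, Real.norm_eq_abs]
    exact hφ b.F
  have h' : CB (fun F i => φ F * a F i) C := by
    refine ⟨h.nonneg, fun F => le_trans (Finset.sum_le_sum fun i _ => ?_) (h.bdd F)⟩
    rw [mul_pow]
    have h1 : φ F ^ 2 ≤ 1 := by
      rw [← sq_abs]
      exact pow_le_one₀ (abs_nonneg _) (hφ F)
    exact mul_le_of_le_one_left (sq_nonneg _) h1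
  refine ContinuousLinearMap.ext fun ξ => ?_
  ext b
  change (dia (fun b : Bs I => ((φ b.F : ℝ) : ℂ)) (Cl e a ξ) : Bs I → ℂ) b = _
  rw [dia_apply zero_le_one hb, Cl_apply e h, Cl_apply e h', clF, clF, Finset.mul_sum]
  refine Finset.sum_congr rfl fun i _ => ?_
  push_cast
  ring

omit [Group Γ] [MulAction Γ I] in
/-- PROOF: as `dia_mul_Cl`: `(tog i b).F = b.F`. -/
theorem Cl_mul_dia (e : I ↪ ℕ) {a : Finset I → I → ℝ} {C : ℝ} (h : CB a C) {φ : Finset I → ℝ}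
    (hφ : ∀ F, |φ F| ≤ 1) : Cl e a * dia (fun b : Bs I => ((φ b.F : ℝ) : ℂ)) =
      Cl e fun F i => φ F * a F i := by
  have hb : ∀ b : Bs I, ‖((φ b.F : ℝ) : ℂ)‖ ≤ 1 := by
    intro b
    rw [Complex.norm_real, Real.norm_eq_abs]
    exact hφ b.F
  have h' : CB (fun F i => φ F * a F i) C := by
    refine ⟨h.nonneg, fun F => le_trans (Finset.sum_le_sum fun i _ => ?_) (h.bdd F)⟩
    rw [mul_pow]
    have h1 : φ F ^ 2 ≤ 1 := by
      rw [← sq_abs]
      exact pow_le_one₀ (abs_nonneg _) (hφ F)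
    exact mul_le_of_le_one_left (sq_nonneg _) h1
  refine ContinuousLinearMap.ext fun ξ => ?_
  ext b
  change (Cl e a (dia (fun b : Bs I => ((φ b.F : ℝ) : ℂ)) ξ) : Bs I → ℂ) b = _
  rw [Cl_apply e h, Cl_apply e h', clF, clF]
  refine Finset.sum_congr rfl fun i hi => ?_
  rw [dia_apply zero_le_one hb, (tog_of_mem hi).1]
  push_cast
  ring

omit [Group Γ] [MulAction Γ I] in
/-- PROOF: `(φ a)² ≤ a²`. -/
theorem CB.mul {a : Finset I → I → ℝ} {C : ℝ} (h : CB a C) {φ : Finset I → ℝ}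
    (hφ : ∀ F, |φ F| ≤ 1) : CB (fun F i => φ F * a F i) C := by
  refine ⟨h.nonneg, fun F => le_trans (Finset.sum_le_sum fun i _ => ?_) (h.bdd F)⟩
  rw [mul_pow]
  have h1 : φ F ^ 2 ≤ 1 := by
    rw [← sq_abs]
    exact pow_le_one₀ (abs_nonneg _) (hφ F)
  exact mul_le_of_le_one_left (sq_nonneg _) h1

omit [Group Γ] [MulAction Γ I] in
/-- The projection onto the span of the pairs with `|S|` even. -/
def Pp : BL (Bs I) := dia fun b => if Even b.S.card then 1 else 0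

omit [Group Γ] [MulAction Γ I] in
/-- The projection onto the span of the pairs with `|S|` odd. -/
def Pm : BL (Bs I) := dia fun b => if Even b.S.card then 0 else 1

omit [Group Γ] [MulAction Γ I] [DecidableEq I] in
theorem Pp_apply (ξ : L2 (Bs I)) (b : Bs I) :
    (Pp ξ : Bs I → ℂ) b = if Even b.S.card then (ξ : Bs I → ℂ) b else 0 := by
  rw [Pp, dia_apply zero_le_one (fun b => by split_ifs <;> simp)]
  split_ifs <;> simp

omit [Group Γ] [MulAction Γ I] [DecidableEq I] in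
theorem Pm_apply (ξ : L2 (Bs I)) (b : Bs I) :
    (Pm ξ : Bs I → ℂ) b = if Even b.S.card then 0 else (ξ : Bs I → ℂ) b := by
  rw [Pm, dia_apply zero_le_one (fun b => by split_ifs <;> simp)]
  split_ifs <;> simp

omit [Group Γ] [MulAction Γ I] [DecidableEq I] in
/-- PROOF: coordinates, `Pp_apply`, `Pm_apply`. -/
theorem Pp_add_Pm : (Pp + Pm : BL (Bs I)) = 1 := by
  refine ContinuousLinearMap.ext fun ξ => ?_
  ext b
  change (Pp ξ : Bs I → ℂ) b + (Pm ξ : Bs I → ℂ) b = (ξ : Bs I → ℂ) b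
  rw [Pp_apply, Pm_apply]
  split_ifs <;> simp

omit [Group Γ] [MulAction Γ I] [DecidableEq I] in
theorem Pp_mul_Pp : (Pp * Pp : BL (Bs I)) = Pp := by
  refine ContinuousLinearMap.ext fun ξ => ?_
  ext b
  change (Pp (Pp ξ) : Bs I → ℂ) b = (Pp ξ : Bs I → ℂ) b
  rw [Pp_apply, Pp_apply]
  split_ifs <;> simp

end Pool.Agent.Lib.MP_aa9b81_an.Hs
end
end

section

/-!
# Hereditary shifts, part D1: signs
-/

open scoped ENNReal Topology
open Function

noncomputable section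

namespace Pool.Agent.Lib.MP_aa9b81_an.Hs

open Cut

variable {Γ I : Type} [Group Γ] [MulAction Γ I] [DecidableEq I]

/-- PROOF: `gF g` commutes with `erase`, `insert`. -/
theorem gF_tg (g : Γ) (i : I) (S : Finset I) : gF g (tg i S) = tg (g • i) (gF g S) := by
  ext k
  have h1 : g⁻¹ • k = i ↔ k = g • i := inv_smul_eq_iff
  rw [mem_gF, mem_tg, mem_tg, mem_gF, mem_gF, inv_smul_smul, h1, Ne, Ne, h1]

end Pool.Agent.Lib.MP_aa9b81_an.Hs
end
end

section

section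
/-!
# Hereditary shifts, part A1: the norm and the slices
-/

open scoped ENNReal Topology
open Function

noncomputable section

namespace Pool.Agent.Lib.MP_aa9b81_an.Hs

open Cut

variable {Q Q' J J' K K' : Type}

/-- PROOF: as `summable_sl`. -/
theorem norm_sq_sl (e : J × K ≃ Q) (ξ : L2 Q) : ‖ξ‖ ^ 2 = ∑' j, ‖sl e j ξ‖ ^ 2 := by
  have h1 : Summable fun p : J × K => ‖(ξ : Q → ℂ) (e p)‖ ^ 2 :=
    (e.summable_iff (f := fun q => ‖(ξ : Q → ℂ) q‖ ^ 2)).2 (summable_L2 ξ)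
  rw [norm_sq_L2, ← e.tsum_eq (fun q => ‖(ξ : Q → ℂ) q‖ ^ 2), h1.tsum_prod]
  refine tsum_congr fun j => ?_
  rw [norm_sq_L2]
  refine tsum_congr fun k => ?_
  rw [sl_apply]

end Pool.Agent.Lib.MP_aa9b81_an.Hs
end

end


section
/-!
# Hereditary shifts, part A2: block operators
-/

open scoped ENNReal Topology
open Function

noncomputable section

namespace Pool.Agent.Lib.MP_aa9b81_an.Hs

open Cut

variable {Q Q' J J' K K' : Type}

private lemma A2_key (e : J × K ≃ Q) {σ : J' → J}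
    {n : J' → (L2 K →L[ℂ] L2 K')} {C : ℝ} (h : BOK σ n C) (ξ : L2 Q) :
    Summable (fun j => ‖n j (sl e (σ j) ξ)‖ ^ 2) ∧
      ∑' j, ‖n j (sl e (σ j) ξ)‖ ^ 2 ≤ C ^ 2 * ‖ξ‖ ^ 2 := by
  set S : Set J' := {j | n j ≠ 0} with hS
  have hinj : Injective (fun j : S => σ j.1) := fun j₁ j₂ he =>
    Subtype.ext (h.inj _ _ j₁.2 j₂.2 he)
  have hs := summable_sl e ξ
  have hs1 : Summable (fun j : S => ‖sl e (σ j.1) ξ‖ ^ 2) := hs.comp_injective hinj
  have hs2 : Summable (S.indicator (fun j => ‖sl e (σ j) ξ‖ ^ 2)) :=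
    summable_subtype_iff_indicator.mp hs1
  have hpt : ∀ j, ‖n j (sl e (σ j) ξ)‖ ^ 2 ≤ C ^ 2 * S.indicator (fun j => ‖sl e (σ j) ξ‖ ^ 2) j := by
    intro j
    by_cases hj : j ∈ S
    · rw [Set.indicator_of_mem hj, ← mul_pow]
      apply pow_le_pow_left₀ (norm_nonneg _)
      exact (n j).le_of_opNorm_le (h.bdd j) _
    · rw [Set.indicator_of_notMem hj]
      have h0 : n j = 0 := by
        by_contra h1
        exact hj h1
      rw [h0]
      simp
  have hs3 : Summable (fun j => ‖n j (sl e (σ j) ξ)‖ ^ 2) :=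
    Summable.of_nonneg_of_le (fun j => by positivity) hpt (hs2.mul_left _)
  refine ⟨hs3, ?_⟩
  calc ∑' j, ‖n j (sl e (σ j) ξ)‖ ^ 2
      ≤ ∑' j, C ^ 2 * S.indicator (fun j => ‖sl e (σ j) ξ‖ ^ 2) j :=
        hs3.tsum_le_tsum hpt (hs2.mul_left _)
    _ = C ^ 2 * ∑' j, S.indicator (fun j => ‖sl e (σ j) ξ‖ ^ 2) j := tsum_mul_left
    _ = C ^ 2 * ∑' j : S, ‖sl e (σ j.1) ξ‖ ^ 2 := by
        rw [← tsum_subtype S (fun j => ‖sl e (σ j) ξ‖ ^ 2)]
    _ ≤ C ^ 2 * ∑' j, ‖sl e j ξ‖ ^ 2 := by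
        apply mul_le_mul_of_nonneg_left _ (by positivity)
        exact Summable.tsum_le_tsum_of_inj (fun j : S => σ j.1) hinj
          (fun j _ => by positivity) (fun j => le_refl _) hs1 hs
    _ = C ^ 2 * ‖ξ‖ ^ 2 := by rw [norm_sq_sl e ξ]

private lemma A2_prod (e' : J' × K' ≃ Q') (η : J' → L2 K')
    (h1 : Summable fun j => ‖η j‖ ^ 2) :
    Summable (fun q' : Q' => ‖(η (e'.symm q').1 : K' → ℂ) (e'.symm q').2‖ ^ 2) ∧
    ∑' q' : Q', ‖(η (e'.symm q').1 : K' → ℂ) (e'.symm q').2‖ ^ 2 = ∑' j, ‖η j‖ ^ 2 := by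
  have h2 : Summable (fun x : J' × K' => ‖(η x.1 : K' → ℂ) x.2‖ ^ 2) := by
    refine (summable_prod_of_nonneg (fun x => by positivity)).mpr
      ⟨fun j => summable_L2 (η j), ?_⟩
    refine h1.congr fun j => ?_
    exact norm_sq_L2 (η j)
  refine ⟨?_, ?_⟩
  · exact (e'.symm.summable_iff (f := fun x : J' × K' => ‖(η x.1 : K' → ℂ) x.2‖ ^ 2)).mpr h2
  · refine (e'.symm.tsum_eq (fun x : J' × K' => ‖(η x.1 : K' → ℂ) x.2‖ ^ 2)).trans ?_
    rw [h2.tsum_prod]
    refine tsum_congr fun j => ?_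
    exact (norm_sq_L2 (η j)).symm

/-- PROOF: the function `f` on `Q'` with `f (e' (j', k')) = (n j' (sl e (σ j') ξ)) k'` is square summable: by
the bijection `e'` and `summable_prod_of_nonneg` its sum of squares is
`∑_{j'} ‖n j' (sl e (σ j') ξ)‖² ≤ C² ∑_{n j' ≠ 0} ‖sl e (σ j') ξ‖² ≤ C² ∑_j ‖sl e j ξ‖² = C² ‖ξ‖²` (the map `σ` is
injective on `{j' | n j' ≠ 0}`; `summable_sl`, `norm_sq_sl`; `memℓp_two`). Linear in `ξ`, norm `≤ C ‖ξ‖`:
`LinearMap.mkContinuous`. -/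
theorem exists_blk (e : J × K ≃ Q) (e' : J' × K' ≃ Q') {σ : J' → J}
    {n : J' → (L2 K →L[ℂ] L2 K')} {C : ℝ} (h : BOK σ n C) :
    ∃ T : L2 Q →L[ℂ] L2 Q', ‖T‖ ≤ C ∧
      ∀ (ξ : L2 Q) (j : J'), sl e' j (T ξ) = n j (sl e (σ j) ξ) := by
  have hm : ∀ ξ : L2 Q, Memℓp (fun q' : Q' => (n (e'.symm q').1 (sl e (σ (e'.symm q').1) ξ) : K' → ℂ)
      (e'.symm q').2) 2 := fun ξ =>
    memℓp_two (A2_prod e' (fun j => n j (sl e (σ j) ξ)) (A2_key e h ξ).1).1
  let T₀ : L2 Q →ₗ[ℂ] L2 Q' :=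
    { toFun := fun ξ => ⟨_, hm ξ⟩
      map_add' := fun ξ η => by
        ext q
        simp only [map_add]
        rfl
      map_smul' := fun a ξ => by
        ext q
        simp only [map_smul]
        rfl }
  have hT₀ : ∀ (ξ : L2 Q) (q : Q'), (T₀ ξ : Q' → ℂ) q =
      (n (e'.symm q).1 (sl e (σ (e'.symm q).1) ξ) : K' → ℂ) (e'.symm q).2 := fun _ _ => rfl
  have hb : ∀ ξ, ‖T₀ ξ‖ ≤ C * ‖ξ‖ := by
    intro ξ
    have h1 : ‖T₀ ξ‖ ^ 2 ≤ (C * ‖ξ‖) ^ 2 := by
      rw [norm_sq_L2, mul_pow]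
      have h2 := (A2_prod e' (fun j => n j (sl e (σ j) ξ)) (A2_key e h ξ).1).2
      have h3 := (A2_key e h ξ).2
      simp only [hT₀]
      rw [h2]
      exact h3
    exact le_of_sq_le_sq h1 (mul_nonneg h.nonneg (norm_nonneg _))
  refine ⟨T₀.mkContinuous C hb, T₀.mkContinuous_norm_le h.nonneg hb, fun ξ j => ?_⟩
  ext k
  rw [sl_apply]
  have h1 : (T₀.mkContinuous C hb ξ : Q' → ℂ) (e' (j, k)) = (T₀ ξ : Q' → ℂ) (e' (j, k)) := rfl
  rw [h1, hT₀, Equiv.symm_apply_apply]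

open Classical in
/-- The block operator with `sl e' j (T ξ) = n j (sl e (σ j) ξ)`. -/
def blk (e : J × K ≃ Q) (e' : J' × K' ≃ Q') (σ : J' → J) (n : J' → (L2 K →L[ℂ] L2 K')) :
    L2 Q →L[ℂ] L2 Q' :=
  if h : ∃ C, BOK σ n C then (exists_blk e e' h.choose_spec).choose else 0

lemma sl_blk (e : J × K ≃ Q) (e' : J' × K' ≃ Q') {σ : J' → J}
    {n : J' → (L2 K →L[ℂ] L2 K')} {C : ℝ} (h : BOK σ n C) (ξ : L2 Q) (j : J') :
    sl e' j (blk e e' σ n ξ) = n j (sl e (σ j) ξ) := by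
  have h' : ∃ C, BOK σ n C := ⟨C, h⟩
  rw [blk, dif_pos h']
  exact (exists_blk e e' h'.choose_spec).choose_spec.2 ξ j

lemma norm_blk_le (e : J × K ≃ Q) (e' : J' × K' ≃ Q') {σ : J' → J}
    {n : J' → (L2 K →L[ℂ] L2 K')} {C : ℝ} (h : BOK σ n C) : ‖blk e e' σ n‖ ≤ C := by
  obtain ⟨T, hT, hT'⟩ := exists_blk e e' h
  have h1 : blk e e' σ n = T := by
    refine ContinuousLinearMap.ext fun ξ => ext_sl e' fun j => ?_
    rw [sl_blk e e' h, hT']
  rw [h1]
  exact hT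

end Pool.Agent.Lib.MP_aa9b81_an.Hs
end

end


section
/-!
# Hereditary shifts, part B0: bounded families of operators on `ℓ²(B)`, block operators on `ℓ²(Γ × ℕ)`
-/

open scoped ENNReal Topology
open Function

noncomputable section

namespace Pool.Agent.Lib.MP_aa9b81_an.Hs

open Cut

instance instNontrivialL2 (Q : Type) [Nonempty Q] : Nontrivial (L2 Q) :=
  ⟨by
    classical
    obtain ⟨q⟩ := ‹Nonempty Q›
    refine ⟨lp.single 2 q (1 : ℂ), 0, fun h => ?_⟩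
    have h1 := congrArg (fun ξ : L2 Q => (ξ : Q → ℂ) q) h
    simp at h1⟩

/-- The Banach algebra of bounded families of operators on `ℓ²(B)`, indexed by `P`. -/
def FB (B P : Type) : Type := lp (fun _ : P => BL B) ∞

section FB

variable (B P : Type) [Nonempty B]

instance : NormedRing (FB B P) := inferInstanceAs (NormedRing (lp (fun _ : P => BL B) ∞))

instance : NormedAlgebra ℂ (FB B P) :=
  inferInstanceAs (NormedAlgebra ℂ (lp (fun _ : P => BL B) ∞))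

instance : CompleteSpace (FB B P) := inferInstanceAs (CompleteSpace (lp (fun _ : P => BL B) ∞))

variable {B P}

omit [Nonempty B] in
/-- The family of operators underlying an element of `FB B P`. -/
def FB.fn (a : FB B P) : P → BL B :=
  (Subtype.val (p := fun f : ∀ _ : P, BL B => Memℓp f ∞) a : ∀ _ : P, BL B)

instance : CoeFun (FB B P) (fun _ => P → BL B) := ⟨FB.fn⟩

namespace FB

omit [Nonempty B] in
/-- The bounded family given by a function. -/
def mk (a : P → BL B) (C : ℝ) (h : ∀ y, ‖a y‖ ≤ C) : FB B P :=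
  ⟨a, memℓp_infty ⟨C, by rintro _ ⟨y, rfl⟩; exact h y⟩⟩

omit [Nonempty B] in
@[simp] lemma mk_apply (a : P → BL B) (C : ℝ) (h : ∀ y, ‖a y‖ ≤ C) (y : P) :
    (mk a C h) y = a y := rfl

omit [Nonempty B] in
@[ext] lemma ext {a b : FB B P} (h : ∀ y, a y = b y) : a = b :=
  Subtype.ext (funext h)

@[simp] lemma add_apply (a b : FB B P) (y : P) : (a + b) y = a y + b y := rfl

@[simp] lemma sub_apply (a b : FB B P) (y : P) : (a - b) y = a y - b y := rfl

@[simp] lemma neg_apply (a : FB B P) (y : P) : (-a) y = -a y := rfl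

@[simp] lemma mul_apply (a b : FB B P) (y : P) : (a * b) y = a y * b y := rfl

@[simp] lemma zero_apply (y : P) : (0 : FB B P) y = 0 := rfl

@[simp] lemma one_apply (y : P) : (1 : FB B P) y = 1 := rfl

@[simp] lemma smul_apply (c : ℂ) (a : FB B P) (y : P) : (c • a) y = c • a y := rfl

lemma norm_apply_le (a : FB B P) (y : P) : ‖a y‖ ≤ ‖a‖ :=
  lp.norm_apply_le_norm (E := fun _ : P => BL B) (by simp) a y

lemma norm_le_iff {a : FB B P} {C : ℝ} (hC : 0 ≤ C) : ‖a‖ ≤ C ↔ ∀ y, ‖a y‖ ≤ C :=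
  ⟨fun h y => (norm_apply_le a y).trans h, fun h =>
    lp.norm_le_of_forall_le (E := fun _ : P => BL B) hC h⟩

end FB

/-- The constant family. -/
def cst (X : BL B) : FB B P := FB.mk (fun _ => X) ‖X‖ fun _ => le_rfl

@[simp] lemma cst_apply (X : BL B) (y : P) : (cst X : FB B P) y = X := rfl

end FB

variable {Γ B : Type} [Group Γ]

/-- `(s, k), b ↦ (s, c(k, b))`. -/
def eS (c : ℕ × B ≃ ℕ) : (Γ × ℕ) × B ≃ Γ × ℕ :=
  (Equiv.prodAssoc Γ ℕ B).trans (Equiv.prodCongr (Equiv.refl Γ) c)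

/-- `b, (s, k) ↦ (s, c(k, b))`. -/
def eB (c : ℕ × B ≃ ℕ) : B × (Γ × ℕ) ≃ Γ × ℕ := (Equiv.prodComm _ _).trans (eS c)

omit [Group Γ] in
@[simp] lemma eS_apply (c : ℕ × B ≃ ℕ) (s : Γ) (k : ℕ) (b : B) :
    eS c ((s, k), b) = (s, c (k, b)) := rfl

omit [Group Γ] in
@[simp] lemma eB_apply (c : ℕ × B ≃ ℕ) (s : Γ) (k : ℕ) (b : B) :
    eB c (b, (s, k)) = (s, c (k, b)) := rfl

omit [Group Γ] in
/-- The slice `b ↦ ξ(s, c(k, b))`. -/
def sk (c : ℕ × B ≃ ℕ) (s : Γ) (k : ℕ) : Hil Γ →L[ℂ] L2 B := sl (eS c) (s, k)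

omit [Group Γ] in
/-- The slice `(s, k) ↦ ξ(s, c(k, b))`. -/
def sb (c : ℕ × B ≃ ℕ) (b : B) : Hil Γ →L[ℂ] Hil Γ := sl (eB c) b

omit [Group Γ] in
@[simp] lemma sk_apply (c : ℕ × B ≃ ℕ) (s : Γ) (k : ℕ) (ξ : Hil Γ) (b : B) :
    (sk c s k ξ : B → ℂ) b = (ξ : Γ × ℕ → ℂ) (s, c (k, b)) := sl_apply (eS c) (s, k) ξ b

omit [Group Γ] in
@[simp] lemma sb_apply (c : ℕ × B ≃ ℕ) (b : B) (ξ : Hil Γ) (s : Γ) (k : ℕ) :
    (sb c b ξ : Γ × ℕ → ℂ) (s, k) = (ξ : Γ × ℕ → ℂ) (s, c (k, b)) := sl_apply (eB c) b ξ (s, k)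

omit [Group Γ] in
lemma ext_sk (c : ℕ × B ≃ ℕ) {ξ η : Hil Γ} (h : ∀ s k, sk c s k ξ = sk c s k η) : ξ = η :=
  ext_sl (eS c) fun j => h j.1 j.2

omit [Group Γ] in
lemma ext_sb (c : ℕ × B ≃ ℕ) {ξ η : Hil Γ} (h : ∀ b, sb c b ξ = sb c b η) : ξ = η :=
  ext_sl (eB c) h

omit [Group Γ] in
/-- The operator `sk s k (T ξ) = n s (sk s k ξ)`, for a bounded function `n : Γ → B(ℓ²(B))`. -/
def dgs (c : ℕ × B ≃ ℕ) (n : Γ → BL B) : Op Γ :=
  blk (eS c) (eS c) id fun q => n q.1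

omit [Group Γ] in
/-- The direct sum `sb b (T ξ) = A b (sb b ξ)`, for a bounded function `A : B → B(ℓ²(Γ × ℕ))`. -/
def dsum (c : ℕ × B ≃ ℕ) (A : B → Op Γ) : Op Γ :=
  blk (eB c) (eB c) id A

omit [Group Γ] in
lemma BOK.dgs {n : Γ → BL B} {C : ℝ} (hC : 0 ≤ C) (h : ∀ s, ‖n s‖ ≤ C) :
    BOK (id : Γ × ℕ → Γ × ℕ) (fun q => n q.1) C :=
  ⟨hC, fun q => h q.1, fun _ _ _ _ e => e⟩

omit [Group Γ] in
lemma BOK.dsum {A : B → Op Γ} {C : ℝ} (hC : 0 ≤ C) (h : ∀ b, ‖A b‖ ≤ C) :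
    BOK (id : B → B) A C :=
  ⟨hC, h, fun _ _ _ _ e => e⟩

omit [Group Γ] in
lemma sk_dgs (c : ℕ × B ≃ ℕ) {n : Γ → BL B} {C : ℝ} (hC : 0 ≤ C) (h : ∀ s, ‖n s‖ ≤ C)
    (ξ : Hil Γ) (s : Γ) (k : ℕ) : sk c s k (dgs c n ξ) = n s (sk c s k ξ) :=
  sl_blk (eS c) (eS c) (BOK.dgs hC h) ξ (s, k)

omit [Group Γ] in
lemma sb_dsum (c : ℕ × B ≃ ℕ) {A : B → Op Γ} {C : ℝ} (hC : 0 ≤ C) (h : ∀ b, ‖A b‖ ≤ C)
    (ξ : Hil Γ) (b : B) : sb c b (dsum c A ξ) = A b (sb c b ξ) :=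
  sl_blk (eB c) (eB c) (BOK.dsum hC h) ξ b

omit [Group Γ] in
lemma norm_dgs_le (c : ℕ × B ≃ ℕ) {n : Γ → BL B} {C : ℝ} (hC : 0 ≤ C) (h : ∀ s, ‖n s‖ ≤ C) :
    ‖dgs c n‖ ≤ C := norm_blk_le (eS c) (eS c) (BOK.dgs hC h)

omit [Group Γ] in
lemma norm_dsum_le (c : ℕ × B ≃ ℕ) {A : B → Op Γ} {C : ℝ} (hC : 0 ≤ C) (h : ∀ b, ‖A b‖ ≤ C) :
    ‖dsum c A‖ ≤ C := norm_blk_le (eB c) (eB c) (BOK.dsum hC h)

/-! ### Signed actions -/

variable [MulAction Γ B]

variable (Γ B) in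
/-- A signed action on `B`: a cocycle with values of absolute value `1`. -/
structure SAct where
  /-- the sign -/
  ε : Γ → B → ℂ
  mul : ∀ g h b, ε (g * h) b = ε g (h • b) * ε h b
  norm : ∀ g b, ‖ε g b‖ = 1

variable (Γ B) in
/-- The trivial signs. -/
def SAct.triv : SAct Γ B := ⟨fun _ _ => 1, by simp, by simp⟩

/-- The unitary `(W_g ξ)(b) = ε(g, g⁻¹ b) ξ(g⁻¹ b)`. -/
def SAct.W (E : SAct Γ B) (g : Γ) : BL B := wop (fun b => g⁻¹ • b) fun b => E.ε g (g⁻¹ • b)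

lemma SAct.wok (E : SAct Γ B) (g : Γ) : WOK (fun b : B => g⁻¹ • b) (fun b => E.ε g (g⁻¹ • b)) 1 :=
  ⟨zero_le_one, fun b => (E.norm _ _).le, fun _ _ _ _ h => smul_left_cancel _ h⟩

lemma SAct.W_apply (E : SAct Γ B) (g : Γ) (ξ : L2 B) (b : B) :
    (E.W g ξ : B → ℂ) b = E.ε g (g⁻¹ • b) * (ξ : B → ℂ) (g⁻¹ • b) := wop_apply (E.wok g) ξ b

lemma SAct.norm_W_le (E : SAct Γ B) (g : Γ) : ‖E.W g‖ ≤ 1 := norm_wop_le (E.wok g)

end Pool.Agent.Lib.MP_aa9b81_an.Hs
end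

end
end
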