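import Pool.Agent.Lib.MP_aa9b81_an.Mg.G074
import Pool.Agent.Lib.MP_aa9b81_an.Mg.G073

section

/-!
# Cutting theorem, part L
-/

noncomputable section

namespace Pool.Agent.Lib.MP_aa9b81_an.Cut

section PartLA1

open scoped ENNReal Topology ZeroAtInfty
open Filter Topology

variable {Γ : Type} [Group Γ]

/-- Yu's property A, with probability measures `u s` on `Γ` supported in `S⁻¹ s`. -/
def PropA (Γ : Type) [Group Γ] : Prop :=
  ∀ (F : Finset Γ) (ε : ℝ), 0 < ε → ∃ (S : Finset Γ) (u : Γ → Γ → ℝ),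
    (∀ s c, 0 ≤ u s c) ∧ (∀ s c, u s c ≠ 0 → s * c⁻¹ ∈ S) ∧ (∀ s, ∑' c, u s c = 1) ∧
      ∀ g ∈ F, ∀ s, ∑' c, |u (g * s) c - u s c| ≤ ε

/-- PROOF: take `q₀ ∈ Q`, and `S`, `m` from the amenability of the action for `K = univ`, `F`, `ε`.
Put `u s c = m (s q₀) (s c⁻¹)`. If `u s c ≠ 0` then `s c⁻¹ ∈ S`. `∑' c, u s c = ∑' g, m (s q₀) g = 1`
by the bijection `c ↦ s c⁻¹` (`Equiv.tsum_eq`, then `tsum_eq_sum`). For `g ∈ F`:
`u (g s) c = m (g (s q₀)) (g s c⁻¹)` and `u s c = m (s q₀) (s c⁻¹) = m (s q₀) (g⁻¹ (g s c⁻¹))`, so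
`∑' c, |u (g s) c - u s c| = ∑' x, |m (g (s q₀)) x - m (s q₀) (g⁻¹ x)| ≤ ε` by the bijection
`c ↦ g s c⁻¹`. -/
theorem propA_of_amenable {Q : Type} [TopologicalSpace Q] [CompactSpace Q] [Nonempty Q]
    [MulAction Γ Q] (h : AmenableAction Γ Q) : PropA Γ := by
  intro F ε hε
  obtain ⟨q⟩ := (inferInstance : Nonempty Q)
  obtain ⟨S, m, -, hm0, hmS, hm1, hmF⟩ := h Set.univ F ε isCompact_univ hε
  -- the bijections `c ↦ s c⁻¹`
  have hbij : ∀ s : Γ, Function.Bijective (fun c : Γ => s * c⁻¹) := fun s =>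
    ⟨fun a b hab => inv_injective (mul_left_cancel hab), fun x => ⟨x⁻¹ * s, by simp⟩⟩
  refine ⟨S, fun s c => m (s • q) (s * c⁻¹), fun s c => hm0 _ _, ?_, ?_, ?_⟩
  · intro s c hc
    by_contra hn
    exact hc (hmS _ _ hn)
  · intro s
    have e := (Equiv.ofBijective _ (hbij s)).tsum_eq (fun x => m (s • q) x)
    rw [tsum_eq_sum (s := S) (fun x hx => hmS (s • q) x hx), hm1] at e
    exact e
  · intro g hg s
    have e := (Equiv.ofBijective _ (hbij (g * s))).tsum_eq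
      (fun x => |m (g • s • q) x - m (s • q) (g⁻¹ * x)|)
    have h1 := hmF (s • q) (Set.mem_univ _) g hg
    rw [← e] at h1
    refine le_of_eq_of_le (tsum_congr fun c => ?_) h1
    change |m ((g * s) • q) (g * s * c⁻¹) - m (s • q) (s * c⁻¹)| =
      |m (g • s • q) (g * s * c⁻¹) - m (s • q) (g⁻¹ * (g * s * c⁻¹))|
    rw [mul_smul, mul_assoc g s c⁻¹, inv_mul_cancel_left]

end PartLA1

section PartLA2

open scoped ENNReal Topology ZeroAtInfty
open Filter Topology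

variable {Γ : Type} [Group Γ]

/-- A square root version. PROOF: apply `PropA` with `ε²` and put `v s c = √(u s c)`:
`(√a - √b)² ≤ |a - b|` for `a, b ≥ 0` (`(√a - √b)² ≤ |√a - √b| (√a + √b) = |a - b|`), compare the
sums (all functions have finite support: `u s c ≠ 0 → c ∈ S⁻¹ s`). -/
theorem PropA.sqrt (h : PropA Γ) (F : Finset Γ) {ε : ℝ} (hε : 0 < ε) :
    ∃ (S : Finset Γ) (v : Γ → Γ → ℝ), (∀ s c, 0 ≤ v s c) ∧ (∀ s c, v s c ≠ 0 → s * c⁻¹ ∈ S) ∧
      (∀ s, ∑' c, v s c ^ 2 = 1) ∧ ∀ g ∈ F, ∀ s, ∑' c, (v (g * s) c - v s c) ^ 2 ≤ ε ^ 2 := by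
  obtain ⟨S, u, h0, hS, h1, hF⟩ := h F (ε ^ 2) (by positivity)
  have hs : ∀ s, Summable (u s) := by
    intro s
    by_contra hn
    have h2 := tsum_eq_zero_of_not_summable hn
    rw [h1 s] at h2
    exact one_ne_zero h2
  refine ⟨S, fun s c => √(u s c), fun s c => Real.sqrt_nonneg _, ?_, ?_, ?_⟩
  · intro s c hc
    refine hS s c fun h2 => hc ?_
    change √(u s c) = 0
    rw [h2, Real.sqrt_zero]
  · intro s
    rw [← h1 s]
    exact tsum_congr fun c => Real.sq_sqrt (h0 s c)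
  · intro g hg s
    have h3 : ∀ c, (√(u (g * s) c) - √(u s c)) ^ 2 ≤ |u (g * s) c - u s c| := by
      intro c
      have ha := Real.sqrt_nonneg (u (g * s) c)
      have hb := Real.sqrt_nonneg (u s c)
      have ea := Real.sq_sqrt (h0 (g * s) c)
      have eb := Real.sq_sqrt (h0 s c)
      have e : u (g * s) c - u s c = (√(u (g * s) c) - √(u s c)) *
          (√(u (g * s) c) + √(u s c)) := by
        rw [← ea, ← eb]
        rw [Real.sqrt_sq ha, Real.sqrt_sq hb]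
        ring
      rw [e, abs_mul, abs_of_nonneg (add_nonneg ha hb), ← sq_abs, sq]
      refine mul_le_mul_of_nonneg_left ?_ (abs_nonneg _)
      rw [abs_le]
      constructor <;> linarith
    have h4 : Summable fun c => |u (g * s) c - u s c| :=
      ((hs (g * s)).sub (hs s)).abs
    have h5 : Summable fun c => (√(u (g * s) c) - √(u s c)) ^ 2 :=
      Summable.of_nonneg_of_le (fun _ => sq_nonneg _) h3 h4
    exact (h5.tsum_le_tsum h3 h4).trans (hF g hg s)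

end PartLA2

section PartLA3

open scoped ENNReal Topology ZeroAtInfty
open Filter Topology

variable {Γ : Type} [Group Γ]

/-- The vector `ξ` is supported in `S × ℕ`. -/
def SuppIn (S : Set Γ) (ξ : Hil Γ) : Prop := ∀ (s : Γ) (k : ℕ), s ∉ S → (ξ : Γ × ℕ → ℂ) (s, k) = 0

/-- The right translations of `ℓ²(Γ × ℕ)`. PROOF: the function `(s,k) ↦ η(s c⁻¹, k)` is `η`
composed with the bijection `(s,k) ↦ (s c⁻¹, k)` of `Γ × ℕ`: it is square summable with the same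
sum of squares (`Equiv.summable_iff`, `Equiv.tsum_eq`, `lp.norm_eq_tsum_rpow`, or
`LinearIsometryEquiv.piLpCongrLeft`-like; only one `η` at a time is needed). -/
theorem exists_translate (c : Γ) (η : Hil Γ) : ∃ η' : Hil Γ, ‖η'‖ = ‖η‖ ∧
    ∀ (s : Γ) (k : ℕ), (η' : Γ × ℕ → ℂ) (s, k) = η (s * c⁻¹, k) := by
  let σ : Γ × ℕ ≃ Γ × ℕ := Equiv.prodCongr (Equiv.mulRight c⁻¹) (Equiv.refl ℕ)
  have hm : Memℓp (fun p : Γ × ℕ => (η : Γ × ℕ → ℂ) (σ p)) 2 := by
    refine memℓp_gen ?_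
    have h1 : Summable fun p : Γ × ℕ => ‖(η : Γ × ℕ → ℂ) (σ p)‖ ^ 2 :=
      (σ.summable_iff (f := fun p => ‖(η : Γ × ℕ → ℂ) p‖ ^ 2)).2 (summable_hil η)
    simpa using h1
  refine ⟨⟨_, hm⟩, ?_, fun s k => rfl⟩
  have h2 : ∀ ξ : Hil Γ, ‖ξ‖ ^ 2 = ∑' p, ‖(ξ : Γ × ℕ → ℂ) p‖ ^ 2 := by
    intro ξ
    have h := lp.norm_rpow_eq_tsum (p := 2) (by simp) ξ
    simpa using h
  have h3 : ‖(⟨_, hm⟩ : Hil Γ)‖ ^ 2 = ‖η‖ ^ 2 := by
    rw [h2, h2]
    exact σ.tsum_eq (fun p => ‖(η : Γ × ℕ → ℂ) p‖ ^ 2)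
  exact (pow_left_inj₀ (norm_nonneg _) (norm_nonneg _) two_ne_zero).1 h3

variable {Y : Type} [TopologicalSpace Y] [MulAction Γ Y]

/-- PROOF: for one generator: `(T_y η')(s, k) = [k = i] f(s y) η'(g⁻¹ s, j)
= [k = i] f((s c⁻¹) c y) η(g⁻¹ s c⁻¹, j) = (T_{c y} η)(s c⁻¹, k)`. Sum over the list: induction
on `l` (`val_cons`). -/
theorem val_translate (l : List (Dat Γ Y)) (c : Γ) {η η' : Hil Γ}
    (h : ∀ (s : Γ) (k : ℕ), (η' : Γ × ℕ → ℂ) (s, k) = η (s * c⁻¹, k)) (y : Y) (s : Γ) (k : ℕ) :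
    (val l y η' : Γ × ℕ → ℂ) (s, k) = (val l (c • y) η : Γ × ℕ → ℂ) (s * c⁻¹, k) := by
  induction l with
  | nil => rfl
  | cons d l ih =>
    rw [val_cons]
    have e1 : ((d.gen + val l) y η' : Γ × ℕ → ℂ) (s, k) =
        (d.gen y η' : Γ × ℕ → ℂ) (s, k) + (val l y η' : Γ × ℕ → ℂ) (s, k) := rfl
    have e2 : ((d.gen + val l) (c • y) η : Γ × ℕ → ℂ) (s * c⁻¹, k) =
        (d.gen (c • y) η : Γ × ℕ → ℂ) (s * c⁻¹, k) + (val l (c • y) η : Γ × ℕ → ℂ) (s * c⁻¹, k) :=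
      rfl
    have e3 : (d.gen y η' : Γ × ℕ → ℂ) (s, k) =
        if k = d.i then d.f (s • y) * η' (d.g⁻¹ * s, d.j) else 0 := rfl
    have e4 : (d.gen (c • y) η : Γ × ℕ → ℂ) (s * c⁻¹, k) =
        if k = d.i then d.f ((s * c⁻¹) • c • y) * η (d.g⁻¹ * (s * c⁻¹), d.j) else 0 := rfl
    rw [e1, e2, ih, e3, e4, h, ← mul_smul, inv_mul_cancel_right, mul_assoc]

/-- Window estimate at the window `S c`. PROOF: let `η` be the translate of `ξ` with
`η(s, k) = ξ(s c, k)` (`exists_translate` for `c⁻¹`), it is supported in `S`, `‖η‖ = ‖ξ‖`, and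
`ξ(s,k) = η(s c⁻¹, k)`. By `val_translate`, `val l y ξ` is a translate of `val l (c y) η` so has the
same norm (`exists_translate` for `val l (c y) η`, and `lp.ext`), `≤ M ‖η‖ = M ‖ξ‖`. -/
theorem window_translate {l : List (Dat Γ Y)} {S : Finset Γ} {M : ℝ}
    (hM : ∀ y (ξ : Hil Γ), SuppIn (S : Set Γ) ξ → ‖val l y ξ‖ ≤ M * ‖ξ‖) (c : Γ) (y : Y)
    (ξ : Hil Γ) (hξ : SuppIn {s | s * c⁻¹ ∈ S} ξ) : ‖val l y ξ‖ ≤ M * ‖ξ‖ := by
  obtain ⟨η, hη1, hη2⟩ := exists_translate c⁻¹ ξ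
  have h1 : ∀ (s : Γ) (k : ℕ), (ξ : Γ × ℕ → ℂ) (s, k) = η (s * c⁻¹, k) := by
    intro s k
    rw [hη2, inv_inv, inv_mul_cancel_right]
  have h2 : SuppIn (S : Set Γ) η := by
    intro s k hs
    rw [hη2, inv_inv]
    refine hξ _ _ fun h3 => hs ?_
    have h4 : s * c * c⁻¹ ∈ S := h3
    rwa [mul_inv_cancel_right] at h4
  obtain ⟨θ, hθ1, hθ2⟩ := exists_translate c (val l (c • y) η)
  have h3 : val l y ξ = θ := by
    ext1
    funext p
    rw [show p = (p.1, p.2) from rfl, hθ2]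
    exact val_translate l c h1 y p.1 p.2
  rw [h3, hθ1, ← hη1]
  exact hM (c • y) η h2

end PartLA3

section PartLB1

open scoped ENNReal Topology ZeroAtInfty
open Filter Topology

variable {Γ : Type} [Group Γ] {Y : Type} [TopologicalSpace Y] [MulAction Γ Y]

omit [Group Γ] in
theorem LB1_norm_sq (ξ : Hil Γ) : ‖ξ‖ ^ 2 = ∑' p, ‖(ξ : Γ × ℕ → ℂ) p‖ ^ 2 := by
  have h := lp.norm_rpow_eq_tsum (p := 2) (by simp) ξ
  simpa using h

/-- Multiplication of a vector by a function on `Γ` bounded by `1`. PROOF: the function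
`(s,k) ↦ φ(s) ξ(s,k)` is square summable by comparison. -/
theorem exists_cut (φ : Γ → ℝ) (h : ∀ s, |φ s| ≤ 1) (ξ : Hil Γ) :
    ∃ η : Hil Γ, ∀ (s : Γ) (k : ℕ), (η : Γ × ℕ → ℂ) (s, k) = φ s * ξ (s, k) := by
  have hm : Memℓp (fun p : Γ × ℕ => (φ p.1 : ℂ) * (ξ : Γ × ℕ → ℂ) p) 2 := by
    refine memℓp_gen ?_
    have h1 : Summable fun p : Γ × ℕ => ‖(φ p.1 : ℂ) * (ξ : Γ × ℕ → ℂ) p‖ ^ 2 := by
      refine Summable.of_nonneg_of_le (fun _ => by positivity) (fun p => ?_) (summable_hil ξ)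
      rw [norm_mul, Complex.norm_real, Real.norm_eq_abs]
      exact pow_le_pow_left₀ (by positivity)
        (mul_le_of_le_one_left (norm_nonneg _) (h p.1)) 2
    simpa using h1
  exact ⟨⟨_, hm⟩, fun s k => rfl⟩

omit [Group Γ] in
/-- Interchange of sums for a nonnegative family. -/
theorem LB1_interchange {P : Type} {F : P → Γ → ℝ} {W : P → ℝ} (h0 : ∀ p c, 0 ≤ F p c)
    (h1 : ∀ p, Summable (F p)) (h2 : ∀ p, ∑' c, F p c ≤ W p) (hW : Summable W) :
    (∀ c, Summable fun p => F p c) ∧ Summable (fun c => ∑' p, F p c) ∧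
      ∑' c, ∑' p, F p c = ∑' p, ∑' c, F p c ∧ Summable (fun p => ∑' c, F p c) := by
  have h3 : Summable (fun p => ∑' c, F p c) :=
    Summable.of_nonneg_of_le (fun p => tsum_nonneg (h0 p)) h2 hW
  have h4 : Summable (fun x : P × Γ => F x.1 x.2) :=
    (summable_prod_of_nonneg fun x => h0 x.1 x.2).2 ⟨h1, h3⟩
  have h5 : Summable (fun x : Γ × P => F x.2 x.1) := h4.prod_symm
  have h6 := (summable_prod_of_nonneg (f := fun x : Γ × P => F x.2 x.1)
    fun x => h0 x.2 x.1).1 h5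
  refine ⟨h6.1, h6.2, ?_, h3⟩
  exact Summable.tsum_comm' (f := F) h4 h1 h6.1

/-- PROOF: `‖η‖² = ∑_{(s,k)} ‖η(s,k)‖²` and `∑' c, (v s c)² = 1` for all `s`:
`∑' c ‖η_c‖² = ∑' c ∑' (s,k) (v s c)² ‖ξ(s,k)‖² = ∑' (s,k) ‖ξ(s,k)‖²` (interchange of sums of
nonnegative terms: work in `ℝ≥0∞` or with `Summable.tsum_comm'`/`summable_prod_of_nonneg`), and the
family is summable. -/
theorem tsum_cut_sq {v : Γ → Γ → ℝ} (hv : ∀ s, ∑' c, v s c ^ 2 = 1) (ξ : Hil Γ)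
    (η : Γ → Hil Γ) (hη : ∀ c s k, (η c : Γ × ℕ → ℂ) (s, k) = v s c * ξ (s, k)) :
    Summable (fun c => ‖η c‖ ^ 2) ∧ ∑' c, ‖η c‖ ^ 2 = ‖ξ‖ ^ 2 := by
  have hs : ∀ s, Summable fun c => v s c ^ 2 := by
    intro s
    by_contra h
    have h1 := tsum_eq_zero_of_not_summable h
    rw [hv s] at h1
    exact one_ne_zero h1
  have h1 : ∀ c, ‖η c‖ ^ 2 = ∑' p : Γ × ℕ, v p.1 c ^ 2 * ‖(ξ : Γ × ℕ → ℂ) p‖ ^ 2 := by
    intro c
    rw [LB1_norm_sq]
    refine tsum_congr fun p => ?_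
    rw [show p = (p.1, p.2) from rfl, hη, norm_mul, mul_pow, Complex.norm_real, Real.norm_eq_abs,
      sq_abs]
  have h2 := LB1_interchange (P := Γ × ℕ) (F := fun p c => v p.1 c ^ 2 * ‖(ξ : Γ × ℕ → ℂ) p‖ ^ 2)
    (W := fun p => ‖(ξ : Γ × ℕ → ℂ) p‖ ^ 2) (fun p c => by positivity)
    (fun p => (hs p.1).mul_right _) (fun p => by rw [tsum_mul_right, hv, one_mul]) (summable_hil ξ)
  obtain ⟨-, h3, h4, -⟩ := h2
  simp only [h1]
  refine ⟨h3, ?_⟩
  rw [h4, LB1_norm_sq]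
  refine tsum_congr fun p => ?_
  rw [tsum_mul_right, hv, one_mul]

end PartLB1

section PartLB2

open scoped ENNReal Topology ZeroAtInfty
open Filter Topology

variable {Γ : Type} [Group Γ] {Y : Type} [TopologicalSpace Y] [MulAction Γ Y]

/-- The commutator of one generator with the cut functions. PROOF: the vector
`ζ c = χ_c (T ξ) - T (χ_c ξ)` has `ζ c (s,k) = [k = i] f(s y) (v s c - v (g⁻¹ s) c) ξ(g⁻¹ s, j)`.
Hence `∑' c ‖ζ c‖² = ∑' c ∑' s ‖f(s y)‖² (v s c - v (g⁻¹ s) c)² ‖ξ(g⁻¹ s, j)‖²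
≤ ‖f‖² δ² ∑' s ‖ξ(g⁻¹ s, j)‖² ≤ ‖f‖² δ² ‖ξ‖²`, with `s = g t` in `hv`. -/
theorem tsum_commutator_sq {v : Γ → Γ → ℝ} {δ : ℝ} (d : Dat Γ Y) (y : Y)
    (hv : ∀ s, Summable (fun c => (v (d.g * s) c - v s c) ^ 2) ∧
      ∑' c, (v (d.g * s) c - v s c) ^ 2 ≤ δ ^ 2) (ξ : Hil Γ)
    (η ζ : Γ → Hil Γ) (hη : ∀ c s k, (η c : Γ × ℕ → ℂ) (s, k) = v s c * ξ (s, k))
    (hζ : ∀ c s k, (ζ c : Γ × ℕ → ℂ) (s, k) =
      v s c * (d.gen y ξ : Γ × ℕ → ℂ) (s, k) - (d.gen y (η c) : Γ × ℕ → ℂ) (s, k)) :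
    Summable (fun c => ‖ζ c‖ ^ 2) ∧ ∑' c, ‖ζ c‖ ^ 2 ≤ (‖d.f‖ * δ * ‖ξ‖) ^ 2 := by
  -- the square summable function `(s, k) ↦ [k = i] ξ(g⁻¹ s, j)`
  obtain ⟨hW, hW2⟩ := wFun_norm_sq_le (Γ := Γ) (φ := fun _ => 1) (C := 1) (fun _ => by simp)
    d.g d.i d.j ξ
  set W : Γ × ℕ → ℝ := fun p => ‖wFun (fun _ => 1) d.g d.i d.j ξ p‖ ^ 2 with hWd
  -- the norm of `ζ c` at a point
  have hpt : ∀ (p : Γ × ℕ) c, ‖(ζ c : Γ × ℕ → ℂ) p‖ ^ 2 ≤
      ‖d.f‖ ^ 2 * ((v p.1 c - v (d.g⁻¹ * p.1) c) ^ 2) * W p := by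
    rintro ⟨s, k⟩ c
    have e1 : (d.gen y ξ : Γ × ℕ → ℂ) (s, k) =
        if k = d.i then d.f (s • y) * ξ (d.g⁻¹ * s, d.j) else 0 := rfl
    have e2 : (d.gen y (η c) : Γ × ℕ → ℂ) (s, k) =
        if k = d.i then d.f (s • y) * (η c : Γ × ℕ → ℂ) (d.g⁻¹ * s, d.j) else 0 := rfl
    rw [hζ, e1, e2, hη]
    simp only [hWd, wFun]
    split_ifs with hk
    · have e3 : (v s c : ℂ) * (d.f (s • y) * ξ (d.g⁻¹ * s, d.j)) -
          d.f (s • y) * (v (d.g⁻¹ * s) c * ξ (d.g⁻¹ * s, d.j)) =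
          d.f (s • y) * ((v s c - v (d.g⁻¹ * s) c : ℝ) : ℂ) * ξ (d.g⁻¹ * s, d.j) := by
        push_cast
        ring
      rw [e3, norm_mul, norm_mul, mul_pow, mul_pow, Complex.norm_real, Real.norm_eq_abs, sq_abs,
        one_mul]
      have h1 : ‖d.f (s • y)‖ ≤ ‖d.f‖ := d.f.toBCF.norm_coe_le_norm (s • y)
      gcongr
    · simp
  have hnorm : ∀ c, ‖ζ c‖ ^ 2 = ∑' p, ‖(ζ c : Γ × ℕ → ℂ) p‖ ^ 2 := fun c => LB1_norm_sq _
  have hsum1 : ∀ p : Γ × ℕ, Summable (fun c => ‖d.f‖ ^ 2 * ((v p.1 c - v (d.g⁻¹ * p.1) c) ^ 2) * W p)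
      ∧ ∑' c, ‖d.f‖ ^ 2 * ((v p.1 c - v (d.g⁻¹ * p.1) c) ^ 2) * W p ≤ ‖d.f‖ ^ 2 * δ ^ 2 * W p := by
    intro p
    have h2 := hv (d.g⁻¹ * p.1)
    rw [mul_inv_cancel_left] at h2
    have hWp : 0 ≤ W p := by rw [hWd]; positivity
    refine ⟨(h2.1.mul_left _).mul_right _, ?_⟩
    rw [tsum_mul_right, tsum_mul_left]
    exact mul_le_mul_of_nonneg_right (mul_le_mul_of_nonneg_left h2.2 (by positivity)) hWp
  have h3 : ∀ p : Γ × ℕ, Summable (fun c => ‖(ζ c : Γ × ℕ → ℂ) p‖ ^ 2) := fun p =>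
    Summable.of_nonneg_of_le (fun _ => by positivity) (hpt p) (hsum1 p).1
  have h4 : ∀ p : Γ × ℕ, ∑' c, ‖(ζ c : Γ × ℕ → ℂ) p‖ ^ 2 ≤ ‖d.f‖ ^ 2 * δ ^ 2 * W p := fun p =>
    ((h3 p).tsum_le_tsum (hpt p) (hsum1 p).1).trans (hsum1 p).2
  obtain ⟨-, h5, h6, h7⟩ := LB1_interchange (P := Γ × ℕ)
    (F := fun p c => ‖(ζ c : Γ × ℕ → ℂ) p‖ ^ 2) (W := fun p => ‖d.f‖ ^ 2 * δ ^ 2 * W p)
    (fun p c => by positivity) h3 h4 (hW.mul_left _)
  simp only [hnorm]
  refine ⟨h5, ?_⟩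
  rw [h6]
  calc ∑' p, ∑' c, ‖(ζ c : Γ × ℕ → ℂ) p‖ ^ 2 ≤ ∑' p, ‖d.f‖ ^ 2 * δ ^ 2 * W p :=
        h7.tsum_le_tsum h4 (hW.mul_left _)
    _ = ‖d.f‖ ^ 2 * δ ^ 2 * ∑' p, W p := tsum_mul_left
    _ ≤ ‖d.f‖ ^ 2 * δ ^ 2 * ‖ξ‖ ^ 2 := by
        refine mul_le_mul_of_nonneg_left ?_ (by positivity)
        rw [LB1_norm_sq]
        simpa using hW2
    _ = _ := by ring

end PartLB2

section PartLB3

open scoped ENNReal Topology ZeroAtInfty
open Filter Topology

variable {Γ : Type} [Group Γ] {Y : Type} [TopologicalSpace Y] [MulAction Γ Y]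

omit [Group Γ] in
/-- The triangle inequality in `ℓ²(Γ, Hil Γ)`. -/
theorem LB3_tri {a b c : Γ → Hil Γ} (h : ∀ x, c x = a x + b x)
    (ha : Summable fun x => ‖a x‖ ^ 2) (hb : Summable fun x => ‖b x‖ ^ 2) :
    Summable (fun x => ‖c x‖ ^ 2) ∧
      √(∑' x, ‖c x‖ ^ 2) ≤ √(∑' x, ‖a x‖ ^ 2) + √(∑' x, ‖b x‖ ^ 2) := by
  have h1 := Real.Lp_add_le_tsum_of_nonneg (p := 2) (by norm_num)
    (f := fun x => ‖a x‖) (g := fun x => ‖b x‖) (fun _ => norm_nonneg _) (fun _ => norm_nonneg _)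
    (by simpa using ha) (by simpa using hb)
  simp only [Real.rpow_two, ← Real.sqrt_eq_rpow] at h1
  have h2 : ∀ x, ‖c x‖ ^ 2 ≤ (‖a x‖ + ‖b x‖) ^ 2 := by
    intro x
    rw [h x]
    exact pow_le_pow_left₀ (norm_nonneg _) (norm_add_le _ _) 2
  have h3 : Summable (fun x => ‖c x‖ ^ 2) :=
    Summable.of_nonneg_of_le (fun _ => by positivity) h2 h1.1
  refine ⟨h3, le_trans (Real.sqrt_le_sqrt ?_) h1.2⟩
  exact h3.tsum_le_tsum h2 h1.1

/-- The commutator of a finite sum. PROOF: induction on `l`; `L(ζ) = √(∑' c ‖ζ c‖²)` is the norm of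
the element `ζ` of `lp (fun _ : Γ => Hil Γ) 2`, so the triangle inequality holds
(`lp.norm_eq_tsum_rpow`, `norm_add_le`; or `Real.Lp_add_le_tsum` with `p = 2`). -/
theorem tsum_commutator_val {v : Γ → Γ → ℝ} {δ : ℝ} (hδ : 0 ≤ δ) (hv1 : ∀ s c, |v s c| ≤ 1)
    (l : List (Dat Γ Y)) (y : Y)
    (hv : ∀ d ∈ l, ∀ s, Summable (fun c => (v (d.g * s) c - v s c) ^ 2) ∧
      ∑' c, (v (d.g * s) c - v s c) ^ 2 ≤ δ ^ 2) (ξ : Hil Γ)
    (η ζ : Γ → Hil Γ) (hη : ∀ c s k, (η c : Γ × ℕ → ℂ) (s, k) = v s c * ξ (s, k))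
    (hζ : ∀ c s k, (ζ c : Γ × ℕ → ℂ) (s, k) =
      v s c * (val l y ξ : Γ × ℕ → ℂ) (s, k) - (val l y (η c) : Γ × ℕ → ℂ) (s, k)) :
    Summable (fun c => ‖ζ c‖ ^ 2) ∧ √(∑' c, ‖ζ c‖ ^ 2) ≤ nrm l * δ * ‖ξ‖ := by
  induction l generalizing ζ with
  | nil =>
    have h0 : ∀ c, ζ c = 0 := by
      intro c
      ext1
      funext p
      rw [show p = (p.1, p.2) from rfl, hζ]
      have e1 : (val ([] : List (Dat Γ Y)) y ξ : Γ × ℕ → ℂ) (p.1, p.2) = 0 := rfl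
      have e2 : (val ([] : List (Dat Γ Y)) y (η c) : Γ × ℕ → ℂ) (p.1, p.2) = 0 := rfl
      rw [e1, e2, mul_zero, sub_zero]
      rfl
    have h1 : (fun c => ‖ζ c‖ ^ 2) = fun _ => (0 : ℝ) := by
      funext c
      rw [h0 c, norm_zero]
      norm_num
    rw [h1]
    refine ⟨summable_zero, ?_⟩
    rw [tsum_zero, Real.sqrt_zero]
    have h2 : nrm ([] : List (Dat Γ Y)) = 0 := rfl
    rw [h2]
    simp
  | cons d l ih =>
    have hc1 : ∀ c, ∃ θ : Hil Γ, ∀ (s : Γ) (k : ℕ), (θ : Γ × ℕ → ℂ) (s, k) =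
        v s c * (d.gen y ξ : Γ × ℕ → ℂ) (s, k) := fun c =>
      exists_cut (fun s => v s c) (fun s => hv1 s c) (d.gen y ξ)
    have hc2 : ∀ c, ∃ θ : Hil Γ, ∀ (s : Γ) (k : ℕ), (θ : Γ × ℕ → ℂ) (s, k) =
        v s c * (val l y ξ : Γ × ℕ → ℂ) (s, k) := fun c =>
      exists_cut (fun s => v s c) (fun s => hv1 s c) (val l y ξ)
    choose θ1 hθ1 using hc1
    choose θ2 hθ2 using hc2
    have k1 := tsum_commutator_sq d y (hv d (by simp)) ξ η (fun c => θ1 c - d.gen y (η c)) hη (by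
      intro c s k
      rw [← hθ1]
      rfl)
    have k2 := ih (fun d' hd' => hv d' (by simp [hd'])) (fun c => θ2 c - val l y (η c)) (by
      intro c s k
      rw [← hθ2]
      rfl)
    have k3 : ∀ c, ζ c = (θ1 c - d.gen y (η c)) + (θ2 c - val l y (η c)) := by
      intro c
      ext1
      funext p
      rw [show p = (p.1, p.2) from rfl, hζ, val_cons]
      have e1 : ((d.gen + val l) y ξ : Γ × ℕ → ℂ) (p.1, p.2) =
          (d.gen y ξ : Γ × ℕ → ℂ) (p.1, p.2) + (val l y ξ : Γ × ℕ → ℂ) (p.1, p.2) := rfl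
      have e2 : ((d.gen + val l) y (η c) : Γ × ℕ → ℂ) (p.1, p.2) =
          (d.gen y (η c) : Γ × ℕ → ℂ) (p.1, p.2) + (val l y (η c) : Γ × ℕ → ℂ) (p.1, p.2) := rfl
      have e3 : (((θ1 c - d.gen y (η c)) + (θ2 c - val l y (η c)) : Hil Γ) : Γ × ℕ → ℂ)
          (p.1, p.2) = ((θ1 c : Γ × ℕ → ℂ) (p.1, p.2) - (d.gen y (η c) : Γ × ℕ → ℂ) (p.1, p.2)) +
          ((θ2 c : Γ × ℕ → ℂ) (p.1, p.2) - (val l y (η c) : Γ × ℕ → ℂ) (p.1, p.2)) := rfl
      rw [e1, e2, e3, hθ1, hθ2]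
      ring
    have k4 := LB3_tri k3 k1.1 k2.1
    refine ⟨k4.1, k4.2.trans ?_⟩
    have k5 : √(∑' c, ‖θ1 c - d.gen y (η c)‖ ^ 2) ≤ ‖d.f‖ * δ * ‖ξ‖ := by
      rw [← Real.sqrt_sq (by positivity : 0 ≤ ‖d.f‖ * δ * ‖ξ‖)]
      exact Real.sqrt_le_sqrt k1.2
    have k6 : nrm (d :: l) = ‖d.f‖ + nrm l := by simp [nrm]
    rw [k6]
    have k7 := k2.2
    nlinarith

end PartLB3

section PartLC1

open scoped ENNReal Topology ZeroAtInfty
open Filter Topology

variable {Γ : Type} [Group Γ]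

/-- LOCALISATION. PROOF: `PropA.sqrt` for `F = G`, `ε` gives `S`, `v` (`|v s c| ≤ 1` since
`∑' c, v s c ^ 2 = 1`, finite support in `c`: `c ∈ S⁻¹ s`). Let `Y, l, M` be as stated, `y ∈ Y`,
`ξ ∈ Hil`. Let `η c = χ_c ξ` (`exists_cut`), supported in `{s | s c⁻¹ ∈ S}`, and
`θ c = χ_c (val l y ξ)`, `ζ c = θ c - val l y (η c)`. By `tsum_cut_sq` (for `val l y ξ`)
`‖val l y ξ‖² = ∑' c ‖θ c‖²`; by the triangle inequality in `ℓ²`
`‖val l y ξ‖ ≤ √(∑' c ‖val l y (η c)‖²) + √(∑' c ‖ζ c‖²)`; by `window_translate`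
`‖val l y (η c)‖ ≤ M ‖η c‖` so the first term is `≤ M √(∑' c ‖η c‖²) = M ‖ξ‖`; by
`tsum_commutator_val` the second is `≤ nrm l * ε * ‖ξ‖`. Conclude with
`ContinuousLinearMap.opNorm_le_bound` and `Fam.norm_le_iff`. -/
theorem exists_window (hA : PropA Γ) (G : Finset Γ) {ε : ℝ} (hε : 0 < ε) :
    ∃ S : Finset Γ, ∀ (Y : Type) [TopologicalSpace Y] [MulAction Γ Y] (l : List (Dat Γ Y)),
      (∀ d ∈ l, d.g ∈ G) → ∀ M : ℝ, 0 ≤ M →
      (∀ y (ξ : Hil Γ), SuppIn (S : Set Γ) ξ → ‖val l y ξ‖ ≤ M * ‖ξ‖) →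
      ‖val l‖ ≤ M + ε * nrm l := by
  obtain ⟨S, v, hv0, hvS, hv1, hvF⟩ := hA.sqrt G hε
  refine ⟨S, fun Y _ _ l hl M hM hMb => ?_⟩
  have hs : ∀ s, Summable fun c => v s c ^ 2 := by
    intro s
    by_contra h
    have h1 := tsum_eq_zero_of_not_summable h
    rw [hv1 s] at h1
    exact one_ne_zero h1
  have hvabs : ∀ s c, |v s c| ≤ 1 := by
    intro s c
    have h1 := (hs s).le_tsum c (fun _ _ => sq_nonneg _)
    rw [hv1 s] at h1
    exact (sq_le_one_iff_abs_le_one _).1 h1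
  have hdiff : ∀ g s, Summable fun c => (v (g * s) c - v s c) ^ 2 := by
    intro g s
    refine Summable.of_nonneg_of_le (fun _ => sq_nonneg _) (fun c => ?_)
      (((hs (g * s)).mul_left 2).add ((hs s).mul_left 2))
    nlinarith [sq_nonneg (v (g * s) c + v s c)]
  have hnrm : 0 ≤ nrm l := (norm_nonneg _).trans (norm_val_le l)
  have hpt : ∀ y (ξ : Hil Γ), ‖val l y ξ‖ ≤ (M + ε * nrm l) * ‖ξ‖ := by
    intro y ξ
    choose η hη using fun c => exists_cut (fun s => v s c) (fun s => hvabs s c) ξ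
    choose θ hθ using fun c => exists_cut (fun s => v s c) (fun s => hvabs s c) (val l y ξ)
    obtain ⟨k1, k2⟩ := tsum_cut_sq hv1 ξ η hη
    obtain ⟨k3, k4⟩ := tsum_cut_sq hv1 (val l y ξ) θ hθ
    have k5 := tsum_commutator_val hε.le hvabs l y
      (fun d hd s => ⟨hdiff d.g s, hvF d.g (hl d hd) s⟩) ξ η (fun c => θ c - val l y (η c)) hη (by
        intro c s k
        rw [← hθ]
        rfl)
    have k6 : ∀ c, ‖val l y (η c)‖ ≤ M * ‖η c‖ := by
      intro c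
      refine window_translate hMb c y (η c) fun s k hsk => ?_
      rw [hη]
      have : v s c = 0 := by
        by_contra h
        exact hsk (hvS s c h)
      rw [this]
      simp
    have k7 : ∀ c, ‖val l y (η c)‖ ^ 2 ≤ M ^ 2 * ‖η c‖ ^ 2 := by
      intro c
      rw [← mul_pow]
      exact pow_le_pow_left₀ (norm_nonneg _) (k6 c) 2
    have k8 : Summable fun c => ‖val l y (η c)‖ ^ 2 :=
      Summable.of_nonneg_of_le (fun _ => sq_nonneg _) k7 (k1.mul_left _)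
    have k9 : √(∑' c, ‖val l y (η c)‖ ^ 2) ≤ M * ‖ξ‖ := by
      rw [← Real.sqrt_sq (by positivity : 0 ≤ M * ‖ξ‖)]
      refine Real.sqrt_le_sqrt ((k8.tsum_le_tsum k7 (k1.mul_left _)).trans ?_)
      rw [tsum_mul_left, k2, mul_pow]
    have k10 := LB3_tri (a := fun c => val l y (η c)) (b := fun c => θ c - val l y (η c)) (c := θ)
      (fun c => by abel) k8 k5.1
    have k11 : ‖val l y ξ‖ = √(∑' c, ‖θ c‖ ^ 2) := by
      rw [k4, Real.sqrt_sq (norm_nonneg _)]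
    rw [k11]
    have k12 := k10.2
    have k13 := k5.2
    linarith
  refine (Fam.norm_le_iff (by positivity)).2 fun y => ?_
  exact ContinuousLinearMap.opNorm_le_bound _ (by positivity) (hpt y)

end PartLC1

section PartLC2

open scoped ENNReal Topology ZeroAtInfty
open Filter Topology

variable {Γ : Type} [Group Γ]

variable {Y : Type} [TopologicalSpace Y] [MulAction Γ Y]

/-- The norm of `val l y` on the vectors supported in the finite set `S × ℕ`. -/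
def wnorm (S : Finset Γ) (l : List (Dat Γ Y)) (y : Y) : ℝ :=
  sSup {r | ∃ ξ : Hil Γ, SuppIn (S : Set Γ) ξ ∧ ‖ξ‖ ≤ 1 ∧ r = ‖val l y ξ‖}

theorem LC2_bdd (S : Finset Γ) (l : List (Dat Γ Y)) (y : Y) :
    BddAbove {r | ∃ ξ : Hil Γ, SuppIn (S : Set Γ) ξ ∧ ‖ξ‖ ≤ 1 ∧ r = ‖val l y ξ‖} := by
  refine ⟨‖val l y‖, ?_⟩
  rintro _ ⟨ξ, -, h1, rfl⟩
  exact (ContinuousLinearMap.le_opNorm _ _).trans (mul_le_of_le_one_right (norm_nonneg _) h1)

/-- PROOF: the set is bounded above by `‖val l y‖` (and contains `0`); scaling. -/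
theorem le_wnorm (S : Finset Γ) (l : List (Dat Γ Y)) (y : Y) {ξ : Hil Γ}
    (hξ : SuppIn (S : Set Γ) ξ) : ‖val l y ξ‖ ≤ wnorm S l y * ‖ξ‖ := by
  by_cases h0 : ‖ξ‖ = 0
  · rw [norm_eq_zero] at h0
    rw [h0, map_zero, norm_zero, mul_zero]
  · have hpos : 0 < ‖ξ‖ := lt_of_le_of_ne (norm_nonneg _) (Ne.symm h0)
    have h1 : ‖val l y (((‖ξ‖⁻¹ : ℝ) : ℂ) • ξ)‖ ≤ wnorm S l y := by
      refine le_csSup (LC2_bdd S l y) ⟨((‖ξ‖⁻¹ : ℝ) : ℂ) • ξ, fun s k hs => ?_, ?_, rfl⟩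
      · have e : ((((‖ξ‖⁻¹ : ℝ) : ℂ) • ξ : Hil Γ) : Γ × ℕ → ℂ) (s, k) =
            ((‖ξ‖⁻¹ : ℝ) : ℂ) * (ξ : Γ × ℕ → ℂ) (s, k) := rfl
        rw [e, hξ s k hs, mul_zero]
      · rw [norm_smul, Complex.norm_real, norm_inv, norm_norm, inv_mul_cancel₀ h0]
    rw [map_smul, norm_smul, Complex.norm_real, norm_inv, norm_norm, inv_mul_le_iff₀ hpos] at h1
    linarith

/-- PROOF: `csSup_le`. -/
theorem wnorm_le (S : Finset Γ) (l : List (Dat Γ Y)) (y : Y) {M : ℝ} (hM : 0 ≤ M)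
    (h : ∀ ξ : Hil Γ, SuppIn (S : Set Γ) ξ → ‖val l y ξ‖ ≤ M * ‖ξ‖) : wnorm S l y ≤ M := by
  refine csSup_le ⟨0, 0, fun s k _ => rfl, by simp, by simp⟩ ?_
  rintro _ ⟨ξ, h1, h2, rfl⟩
  exact (h ξ h1).trans (mul_le_of_le_one_right hM h2)

end PartLC2

section PartLC3

open scoped ENNReal Topology ZeroAtInfty
open Filter Topology

variable {Γ : Type} [Group Γ]

variable {Y : Type} [TopologicalSpace Y] [MulAction Γ Y]

/-- one generator -/
theorem LC3_one {Y' : Type} [TopologicalSpace Y'] [MulAction Γ Y'] (S : Finset Γ)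
    {δ : ℝ} (hδ : 0 ≤ δ) (d : Dat Γ Y) (d' : Dat Γ Y') (y : Y) (y' : Y')
    (h : d.g = d'.g ∧ d.i = d'.i ∧ d.j = d'.j ∧
      ∀ t ∈ S, ‖d.f ((d.g * t) • y) - d'.f ((d.g * t) • y')‖ ≤ δ)
    (ξ : Hil Γ) (hξ : SuppIn (S : Set Γ) ξ) :
    ‖d.gen y ξ - d'.gen y' ξ‖ ≤ δ * ‖ξ‖ := by
  obtain ⟨hg, hi, hj, hf⟩ := h
  obtain ⟨hW, hW2⟩ := wFun_norm_sq_le (Γ := Γ) (φ := fun _ => 1) (C := 1) (fun _ => by simp)
    d.g d.i d.j ξ
  have hpt : ∀ p : Γ × ℕ, ‖((d.gen y ξ - d'.gen y' ξ : Hil Γ) : Γ × ℕ → ℂ) p‖ ^ 2 ≤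
      δ ^ 2 * ‖wFun (fun _ => 1) d.g d.i d.j ξ p‖ ^ 2 := by
    rintro ⟨s, k⟩
    have e0 : ((d.gen y ξ - d'.gen y' ξ : Hil Γ) : Γ × ℕ → ℂ) (s, k) =
        (d.gen y ξ : Γ × ℕ → ℂ) (s, k) - (d'.gen y' ξ : Γ × ℕ → ℂ) (s, k) := rfl
    have e1 : (d.gen y ξ : Γ × ℕ → ℂ) (s, k) =
        if k = d.i then d.f (s • y) * ξ (d.g⁻¹ * s, d.j) else 0 := rfl
    have e2 : (d'.gen y' ξ : Γ × ℕ → ℂ) (s, k) =
        if k = d'.i then d'.f (s • y') * ξ (d'.g⁻¹ * s, d'.j) else 0 := rfl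
    rw [e0, e1, e2, ← hg, ← hi, ← hj]
    simp only [wFun]
    split_ifs with hk
    · by_cases hs : d.g⁻¹ * s ∈ S
      · have h1 := hf _ hs
        rw [mul_inv_cancel_left] at h1
        rw [← sub_mul, norm_mul, mul_pow, one_mul]
        gcongr
      · rw [hξ _ d.j (by simpa using hs)]
        simp
    · simp
  have h1 : ‖d.gen y ξ - d'.gen y' ξ‖ ^ 2 ≤ (δ * ‖ξ‖) ^ 2 := by
    rw [LB1_norm_sq]
    calc ∑' p, ‖((d.gen y ξ - d'.gen y' ξ : Hil Γ) : Γ × ℕ → ℂ) p‖ ^ 2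
        ≤ ∑' p, δ ^ 2 * ‖wFun (fun _ => 1) d.g d.i d.j ξ p‖ ^ 2 :=
          (summable_hil _).tsum_le_tsum hpt (hW.mul_left _)
      _ = δ ^ 2 * ∑' p, ‖wFun (fun _ => 1) d.g d.i d.j ξ p‖ ^ 2 := tsum_mul_left
      _ ≤ δ ^ 2 * ‖ξ‖ ^ 2 := by
          refine mul_le_mul_of_nonneg_left ?_ (by positivity)
          rw [LB1_norm_sq]
          simpa using hW2
      _ = _ := by ring
  exact (pow_le_pow_iff_left₀ (norm_nonneg _) (by positivity) two_ne_zero).1 h1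

/-- Comparison of two lists of data of the same shape at two points. PROOF: by induction on the list
`‖val l y ξ - val l' y' ξ‖ ≤ (∑ of the differences) ‖ξ‖` for `ξ` supported in `S`: one generator:
the difference of the two vectors is `(s,k) ↦ [k = i] (f(s y) - f'(s y')) ξ(g⁻¹ s, j)`, which
vanishes unless `g⁻¹ s ∈ S`, i.e. `s = g t` with `t ∈ S`, so its norm is `≤ δ ‖ξ‖` if
`‖f(g t y) - f'(g t y')‖ ≤ δ` for all `t ∈ S` (compare the sums of squares). -/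
theorem norm_sub_le_of_window {Y' : Type} [TopologicalSpace Y'] [MulAction Γ Y'] (S : Finset Γ)
    {δ : ℝ} (hδ : 0 ≤ δ) {l : List (Dat Γ Y)} {l' : List (Dat Γ Y')} (y : Y) (y' : Y')
    (h : List.Forall₂ (fun d d' => d.g = d'.g ∧ d.i = d'.i ∧ d.j = d'.j ∧
      ∀ t ∈ S, ‖d.f ((d.g * t) • y) - d'.f ((d.g * t) • y')‖ ≤ δ) l l')
    (ξ : Hil Γ) (hξ : SuppIn (S : Set Γ) ξ) :
    ‖val l y ξ - val l' y' ξ‖ ≤ l.length * δ * ‖ξ‖ := by
  induction h with
  | nil =>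
    have e1 : val ([] : List (Dat Γ Y)) y ξ = 0 := rfl
    have e2 : val ([] : List (Dat Γ Y')) y' ξ = 0 := rfl
    rw [e1, e2, sub_zero, norm_zero]
    simp
  | @cons d d' l l' hd hl ih =>
    have e1 : val (d :: l) y ξ = d.gen y ξ + val l y ξ := by rw [val_cons]; rfl
    have e2 : val (d' :: l') y' ξ = d'.gen y' ξ + val l' y' ξ := by rw [val_cons]; rfl
    rw [e1, e2, add_sub_add_comm]
    have h1 := norm_add_le (d.gen y ξ - d'.gen y' ξ) (val l y ξ - val l' y' ξ)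
    have h2 := LC3_one S hδ d d' y y' hd ξ hξ
    rw [List.length_cons]
    push_cast
    nlinarith

end PartLC3

section PartLC4

open scoped ENNReal Topology ZeroAtInfty
open Filter Topology

variable {Γ : Type} [Group Γ]

variable {Y : Type} [TopologicalSpace Y] [MulAction Γ Y]

/-- PROOF: `wnorm S l y ≤ wnorm S l y' + l.length * δ` whenever
`‖f_d((g_d t) y) - f_d((g_d t) y')‖ ≤ δ` for all `d ∈ l`, `t ∈ S` (`norm_sub_le_of_window` with
`l' = l`, `wnorm_le`, `le_wnorm`), and `y' ↦ f_d((g_d t) y')` is continuous at `y`. -/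
theorem continuous_wnorm [ContinuousConstSMul Γ Y] (S : Finset Γ) (l : List (Dat Γ Y)) :
    Continuous (wnorm S l) := by
  have key : ∀ (δ : ℝ) (y y' : Y), 0 ≤ δ →
      (∀ d ∈ l, ∀ t ∈ S, ‖d.f ((d.g * t) • y) - d.f ((d.g * t) • y')‖ ≤ δ) →
      wnorm S l y ≤ wnorm S l y' + l.length * δ := by
    intro δ y y' hδ h
    have h0 : 0 ≤ wnorm S l y' := by
      refine le_csSup_of_le (LC2_bdd S l y') ⟨0, fun s k _ => rfl, by simp, rfl⟩ (by simp)
    refine wnorm_le S l y (by positivity) fun ξ hξ => ?_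
    have h1 := norm_sub_le_of_window S hδ y y' (List.forall₂_same.2 fun d hd =>
      ⟨rfl, rfl, rfl, h d hd⟩) ξ hξ
    have h2 := le_wnorm S l y' hξ
    have h3 : ‖val l y ξ‖ ≤ ‖val l y ξ - val l y' ξ‖ + ‖val l y' ξ‖ := by
      have := norm_add_le (val l y ξ - val l y' ξ) (val l y' ξ)
      rwa [sub_add_cancel] at this
    nlinarith
  rw [Metric.continuous_iff']
  intro y ε hε
  set δ : ℝ := ε / (2 * (l.length + 1)) with hδ
  have hδ0 : 0 < δ := by positivity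
  have hev : ∀ᶠ y' in 𝓝 y, ∀ d ∈ {d | d ∈ l}, ∀ t ∈ S,
      ‖d.f ((d.g * t) • y) - d.f ((d.g * t) • y')‖ < δ := by
    rw [Filter.eventually_all_finite (List.finite_toSet l)]
    intro d _
    rw [Filter.eventually_all_finset]
    intro t _
    have hc : Continuous fun y' : Y => ‖d.f ((d.g * t) • y) - d.f ((d.g * t) • y')‖ :=
      (continuous_const.sub (d.f.continuous.comp (continuous_const_smul _))).norm
    refine hc.continuousAt.eventually_lt_const ?_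
    simpa using hδ0
  refine hev.mono fun y' hy' => ?_
  have h1 := key δ y y' hδ0.le fun d hd t ht => (hy' d hd t ht).le
  have h2 := key δ y' y hδ0.le fun d hd t ht => by
    rw [norm_sub_rev]
    exact (hy' d hd t ht).le
  have h3 : (l.length : ℝ) * δ < ε := by
    rw [hδ, mul_div_assoc', div_lt_iff₀ (by positivity)]
    nlinarith [(Nat.cast_nonneg l.length : (0 : ℝ) ≤ l.length)]
  rw [Real.dist_eq, abs_lt]
  constructor <;> linarith

end PartLC4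

section PartLC5

open scoped ENNReal Topology ZeroAtInfty
open Filter Topology

variable {Γ : Type} [Group Γ]

variable {Y : Type} [TopologicalSpace Y] [MulAction Γ Y]

/-- PROOF: `wnorm S l y ≤ ∑_d max_{t ∈ S} ‖f_d((g_d t) y)‖` (compare with the list of zero
functions, `norm_sub_le_of_window`), and each function `y ↦ f_d((g_d t) y)` vanishes at infinity
(`shift`), so the set of the `y` where one of them is `≥ ε / (length + 1)` is contained in a compact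
set; the set in question is closed by `continuous_wnorm`. -/
theorem isCompact_wnorm_ge [ContinuousConstSMul Γ Y] (S : Finset Γ) (l : List (Dat Γ Y)) {ε : ℝ}
    (hε : 0 < ε) : IsCompact {y | ε ≤ wnorm S l y} := by
  set δ : ℝ := ε / (2 * (l.length + 1)) with hδ
  have hδ0 : 0 < δ := by positivity
  have h3 : (l.length : ℝ) * δ < ε := by
    rw [hδ, mul_div_assoc', div_lt_iff₀ (by positivity)]
    nlinarith [(Nat.cast_nonneg l.length : (0 : ℝ) ≤ l.length)]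
  have hev : ∀ᶠ y in cocompact Y, ∀ d ∈ {d | d ∈ l}, ∀ t ∈ S, ‖d.f ((d.g * t) • y)‖ < δ := by
    rw [Filter.eventually_all_finite (List.finite_toSet l)]
    intro d _
    rw [Filter.eventually_all_finset]
    intro t _
    have h1 : Tendsto (fun y => shift (d.g * t)⁻¹ d.f y) (cocompact Y) (𝓝 0) :=
      (shift (d.g * t)⁻¹ d.f).zero_at_infty'
    have h2 := h1.norm
    rw [norm_zero] at h2
    refine (h2.eventually_lt_const hδ0).mono fun y hy => ?_
    rw [shift_apply, inv_inv] at hy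
    exact hy
  obtain ⟨K, hK, hK'⟩ := mem_cocompact.1 hev
  have hval : ∀ l : List (Dat Γ Y), val (mapL (fun _ => (0 : C₀(Y, ℂ))) l) = 0 := by
    intro l
    induction l with
    | nil => rfl
    | cons d l ih =>
      change val ((⟨0, d.g, d.i, d.j⟩ : Dat Γ Y) :: mapL (fun _ => (0 : C₀(Y, ℂ))) l) = 0
      rw [val_cons, ih, add_zero]
      exact gen_zero d.g d.i d.j
  refine IsCompact.of_isClosed_subset hK (isClosed_le continuous_const (continuous_wnorm S l)) ?_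
  intro y hy
  by_contra hyK
  have hy2 := hK' hyK
  have h4 : wnorm S l y ≤ l.length * δ := by
    refine wnorm_le S l y (by positivity) fun ξ hξ => ?_
    have h5 := norm_sub_le_of_window S hδ0.le (l := l) (l' := mapL (fun _ => (0 : C₀(Y, ℂ))) l)
      y y (by
        unfold mapL
        rw [List.forall₂_map_right_iff, List.forall₂_same]
        intro d hd
        refine ⟨rfl, rfl, rfl, fun t ht => ?_⟩
        have h6 := (hy2 d hd t ht).le
        simpa using h6) ξ hξ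
    rw [hval] at h5
    have e : (0 : Fam Γ Y) y ξ = 0 := rfl
    rw [e, sub_zero] at h5
    exact h5
  have h7 : ε ≤ wnorm S l y := hy
  linarith

end PartLC5

end Pool.Agent.Lib.MP_aa9b81_an.Cut
end
end

section

/-!
# Hereditary shifts, part D2a: the signs of the group
-/

open scoped ENNReal Topology
open Function

noncomputable section

namespace Pool.Agent.Lib.MP_aa9b81_an.Hs

open Cut

variable {Γ I : Type} [Group Γ] [MulAction Γ I] [DecidableEq I]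

/-- The sign `σ_g(i, j) = τ(i, j) τ(g i, g j)`. -/
def sg (e : I ↪ ℕ) (g : Γ) (i j : I) : ℂ := ta e i j * ta e (g • i) (g • j)

omit [DecidableEq I] in
/-- PROOF: `ta_swap` twice. -/
theorem sg_symm (e : I ↪ ℕ) (g : Γ) {i j : I} (h : i ≠ j) : sg e g j i = sg e g i j := by
  unfold sg
  have h2 : g • i ≠ g • j := fun h' => h (MulAction.injective g h')
  rw [ta_swap e h, ta_swap e h2]
  ring

omit [DecidableEq I] in
theorem sg_mul_self (e : I ↪ ℕ) (g : Γ) (i j : I) : sg e g i j * sg e g i j = 1 := by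
  unfold sg
  rw [mul_mul_mul_comm, ta_mul_self, ta_mul_self, one_mul]

omit [DecidableEq I] in
/-- PROOF: `ta_mul_self` for `ta (h i) (h j)`. -/
theorem sg_mul (e : I ↪ ℕ) (g h : Γ) (i j : I) :
    sg e (g * h) i j = sg e g (h • i) (h • j) * sg e h i j := by
  unfold sg
  rw [mul_smul, mul_smul]
  have h1 := ta_mul_self e (h • i) (h • j)
  calc ta e i j * ta e (g • h • i) (g • h • j)
      = (ta e (h • i) (h • j) * ta e (h • i) (h • j)) *
        (ta e i j * ta e (g • h • i) (g • h • j)) := by rw [h1, one_mul]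
    _ = ta e (h • i) (h • j) * ta e (g • h • i) (g • h • j) *
        (ta e i j * ta e (h • i) (h • j)) := by ring

end Pool.Agent.Lib.MP_aa9b81_an.Hs
end
end

section

/-!
# Hereditary shifts, part D2b: the signs of the group
-/

open scoped ENNReal Topology
open Function

noncomputable section

namespace Pool.Agent.Lib.MP_aa9b81_an.Hs

open Cut

variable {Γ I : Type} [Group Γ] [MulAction Γ I] [DecidableEq I]

/-- PROOF: `Finset.prod_insert` for the outer product. In the inner product for `j ∈ S` the filter of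
`insert i S` is the filter of `S`, plus `i` if `e i < e j`, giving the extra factor `ta (g j) (g i) = sg i j`
(`ta_swap`; `ta e i j = -1` if `e i < e j`). The inner product for `j = i` is the product over `k ∈ S`,
`e k < e i`, of `ta (g i) (g k) = sg i k` (`ta e i k = 1`). Every `j ∈ S` satisfies exactly one of `e i < e j`,
`e j < e i`. -/
theorem ep_insert (e : I ↪ ℕ) (g : Γ) {i : I} {S : Finset I} (h : i ∉ S) :
    ep e g (insert i S) = (∏ j ∈ S, sg e g i j) * ep e g S := by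
  unfold ep
  rw [Finset.prod_insert h]
  have h1 : (insert i S).filter (fun k => e k < e i) = S.filter (fun k => e k < e i) := by
    rw [Finset.filter_insert, if_neg (lt_irrefl _)]
  have h2 : ∀ j ∈ S, ∏ k ∈ (insert i S).filter (fun k => e k < e j), ta e (g • j) (g • k) =
      (if e i < e j then ta e (g • j) (g • i) else 1) *
        ∏ k ∈ S.filter (fun k => e k < e j), ta e (g • j) (g • k) := by
    intro j _
    rw [Finset.filter_insert]
    by_cases h3 : e i < e j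
    · rw [if_pos h3, if_pos h3, Finset.prod_insert]
      exact fun h4 => h (Finset.mem_filter.1 h4).1
    · rw [if_neg h3, if_neg h3, one_mul]
  rw [h1, Finset.prod_congr rfl h2, Finset.prod_filter, ← Finset.prod_mul_distrib,
    ← Finset.prod_mul_distrib]
  refine Finset.prod_congr rfl fun j hj => ?_
  rw [← mul_assoc]
  have hij : i ≠ j := fun h4 => h (h4 ▸ hj)
  have hne : e i ≠ e j := fun h' => hij (e.injective h')
  have hg : g • i ≠ g • j := fun h' => hij (MulAction.injective g h')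
  have h5 : (if e j < e i then ta e (g • i) (g • j) else 1) *
      (if e i < e j then ta e (g • j) (g • i) else 1) = sg e g i j := by
    unfold sg
    rcases lt_or_gt_of_ne hne with h6 | h6
    · rw [if_neg (not_lt.2 h6.le), if_pos h6, one_mul, ta_swap e hg]
      have h7 : ta e i j = -1 := by
        unfold ta
        rw [if_pos h6]
      rw [h7]
      ring
    · rw [if_pos h6, if_neg (not_lt.2 h6.le), mul_one]
      have h7 : ta e i j = 1 := by
        unfold ta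
        rw [if_neg (not_lt.2 h6.le)]
      rw [h7, one_mul]
  rw [h5]

/-- PROOF: `i ∉ S`: `tg i S = insert i S`, `S.erase i = S`, `ep_insert`. `i ∈ S`: `tg i S = S.erase i` and
`ep e g S = (∏ j ∈ S.erase i, sg e g i j) * ep e g (S.erase i)` by `ep_insert`; multiply by
`∏ j ∈ S.erase i, sg e g i j`, `sg_mul_self`. -/
theorem ep_tg (e : I ↪ ℕ) (g : Γ) (i : I) (S : Finset I) :
    ep e g (tg i S) = (∏ j ∈ S.erase i, sg e g i j) * ep e g S := by
  unfold tg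
  by_cases hi : i ∈ S
  · rw [if_pos hi]
    have h1 := ep_insert e g (i := i) (S := S.erase i) (Finset.notMem_erase i S)
    rw [Finset.insert_erase hi] at h1
    have h2 : (∏ j ∈ S.erase i, sg e g i j) * (∏ j ∈ S.erase i, sg e g i j) = 1 := by
      rw [← Finset.prod_mul_distrib]
      exact Finset.prod_eq_one fun j _ => sg_mul_self e g i j
    rw [h1, ← mul_assoc, h2, one_mul]
  · rw [if_neg hi, ep_insert e g hi, Finset.erase_eq_of_notMem hi]

end Pool.Agent.Lib.MP_aa9b81_an.Hs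
end
end

section

/-!
# Hereditary shifts, part D2: the signs of the group
-/

open scoped ENNReal Topology
open Function

noncomputable section

namespace Pool.Agent.Lib.MP_aa9b81_an.Hs

open Cut

variable {Γ I : Type} [Group Γ] [MulAction Γ I] [DecidableEq I]

/-- PROOF: `(gF g S).erase (g i) = gF g (S.erase i)`, `Finset.prod_map`,
`ta e (g i) (g j) = ta e i j * sg e g i j` (`ta_mul_self`). -/
theorem th_gF (e : I ↪ ℕ) (g : Γ) (i : I) (S : Finset I) :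
    th e (g • i) (gF g S) = (∏ j ∈ S.erase i, sg e g i j) * th e i S := by
  have h1 : (gF g S).erase (g • i) = gF g (S.erase i) := by
    ext k
    rw [Finset.mem_erase, mem_gF, mem_gF, Finset.mem_erase, Ne, Ne, inv_smul_eq_iff]
  unfold th
  rw [h1, ← Finset.prod_mul_distrib]
  unfold gF
  rw [Finset.prod_map]
  refine Finset.prod_congr rfl fun j _ => ?_
  change ta e (g • i) (g • j) = _
  unfold sg
  have h2 := ta_mul_self e i j
  calc ta e (g • i) (g • j) = (ta e i j * ta e i j) * ta e (g • i) (g • j) := by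
        rw [h2, one_mul]
    _ = ta e i j * ta e (g • i) (g • j) * ta e i j := by ring

/-- PROOF: induction on `S` (`Finset.induction_on`) with `ep_insert` and `sg_mul`
(`gF h (insert i S) = insert (h i) (gF h S)`, `Finset.prod_map`). -/
theorem ep_mul (e : I ↪ ℕ) (g h : Γ) (S : Finset I) :
    ep e (g * h) S = ep e g (gF h S) * ep e h S := by
  induction S using Finset.induction_on with
  | empty =>
    have h1 : gF h (∅ : Finset I) = ∅ := by
      ext k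
      simp
    rw [h1]
    simp [ep]
  | insert i S hi ih =>
    have h1 : gF h (insert i S) = insert (h • i) (gF h S) := by
      ext k
      rw [mem_gF, Finset.mem_insert, Finset.mem_insert, mem_gF, inv_smul_eq_iff]
    have h2 : h • i ∉ gF h S := by
      rw [mem_gF, inv_smul_smul]
      exact hi
    rw [h1, ep_insert e (g * h) hi, ep_insert e g h2, ep_insert e h hi, ih]
    have h3 : ∏ j ∈ gF h S, sg e g (h • i) j = ∏ j ∈ S, sg e g (h • i) (h • j) := by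
      unfold gF
      rw [Finset.prod_map]
      rfl
    have h4 : ∏ j ∈ S, sg e (g * h) i j =
        (∏ j ∈ S, sg e g (h • i) (h • j)) * ∏ j ∈ S, sg e h i j := by
      rw [← Finset.prod_mul_distrib]
      exact Finset.prod_congr rfl fun j _ => sg_mul e g h i j
    rw [h3, h4]
    ring

/-- PROOF: products of `norm_ta`. -/
theorem norm_ep (e : I ↪ ℕ) (g : Γ) (S : Finset I) : ‖ep e g S‖ = 1 := by
  unfold ep
  rw [norm_prod]
  refine Finset.prod_eq_one fun j _ => ?_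
  rw [norm_prod]
  exact Finset.prod_eq_one fun k _ => norm_ta e _ _

/-- The signed action on the pairs of finite sets. -/
def sact (e : I ↪ ℕ) : SAct Γ (Bs I) where
  ε g b := ep e g b.S
  mul g h b := ep_mul e g h b.S
  norm g b := norm_ep e g b.S

lemma sact_ε (e : I ↪ ℕ) (g : Γ) (b : Bs I) : (sact e : SAct Γ (Bs I)).ε g b = ep e g b.S := rfl

end Pool.Agent.Lib.MP_aa9b81_an.Hs
end
end

section

/-!
# Hereditary shifts, part D5c: relations of the Clifford operators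
-/

open scoped ENNReal Topology
open Function

noncomputable section

namespace Pool.Agent.Lib.MP_aa9b81_an.Hs

open Cut

variable {Γ I : Type} [Group Γ] [MulAction Γ I] [DecidableEq I]

omit [DecidableEq I] in
theorem D5c_smul {a : Finset I → I → ℝ} {C : ℝ} (h : CB a C) (g : Γ) :
    CB (fun F i => a (gF g⁻¹ F) (g⁻¹ • i)) C := by
  refine ⟨h.nonneg, fun F => ?_⟩
  have h1 := h.bdd (gF g⁻¹ F)
  have h2 : ∑ i ∈ gF g⁻¹ F, a (gF g⁻¹ F) i ^ 2 = ∑ i ∈ F, a (gF g⁻¹ F) (g⁻¹ • i) ^ 2 := by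
    conv_lhs => rw [gF]
    rw [Finset.sum_map]
    rfl
  rw [h2] at h1
  exact h1

theorem D5c_tog (g : Γ) {i : I} {b : Bs I} (hi : i ∈ b.F) :
    g • tog i b = tog (g • i) (g • b) := by
  have h1 := tog_of_mem hi
  have h2 : g • i ∈ (g • b).F := by
    rw [Bs.smul_F, mem_gF, inv_smul_smul]
    exact hi
  have h3 := tog_of_mem h2
  refine Bs.ext ?_ ?_
  · rw [Bs.smul_F, h1.1, h3.1, Bs.smul_F]
  · rw [Bs.smul_S, h1.2, h3.2, Bs.smul_S, gF_tg]

theorem D5c_sign (e : I ↪ ℕ) (g : Γ) (i : I) (S : Finset I) :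
    th e (g • i) (gF g S) * ep e g (tg i S) = ep e g S * th e i S := by
  have h1 : (∏ j ∈ S.erase i, sg e g i j) * (∏ j ∈ S.erase i, sg e g i j) = 1 := by
    rw [← Finset.prod_mul_distrib]
    exact Finset.prod_eq_one fun j _ => sg_mul_self e g i j
  rw [th_gF, ep_tg]
  calc _ = ((∏ j ∈ S.erase i, sg e g i j) * (∏ j ∈ S.erase i, sg e g i j)) *
        (ep e g S * th e i S) := by ring
    _ = _ := by rw [h1, one_mul]

/-- COVARIANCE. PROOF: coordinates at `b = (F, S)`, with `b' = g⁻¹ b = (F', S')`. The left side is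
`ε(g, S') ∑_{i ∈ F'} a_{F'}(i) θ(i, S') ξ(F', tg i S')`; the right side is (put `i = g i'`, `i' ∈ F'`,
`Finset.sum_map`) `∑_{i' ∈ F'} a_{F'}(i') θ(g i', S) ε(g, tg i' S') ξ(F', tg i' S')`, where
`g⁻¹ (F, tg (g i') S) = (F', tg i' S')` (`gF_tg`). Now `θ(g i', g S') ε(g, tg i' S') = θ(i', S') ε(g, S')` by
`th_gF`, `ep_tg` (the product of the `sg` squares to `1`). -/
theorem W_mul_Cl (e : I ↪ ℕ) {a : Finset I → I → ℝ} {C : ℝ} (h : CB a C) (g : Γ) :
    (sact e : SAct Γ (Bs I)).W g * Cl e a =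
      Cl e (fun F i => a (gF g⁻¹ F) (g⁻¹ • i)) * (sact e : SAct Γ (Bs I)).W g := by
  refine ContinuousLinearMap.ext fun ξ => ?_
  ext b
  change ((sact e : SAct Γ (Bs I)).W g (Cl e a ξ) : Bs I → ℂ) b =
    (Cl e (fun F i => a (gF g⁻¹ F) (g⁻¹ • i)) ((sact e : SAct Γ (Bs I)).W g ξ) : Bs I → ℂ) b
  rw [SAct.W_apply, Cl_apply e h, Cl_apply e (D5c_smul h g), clF, clF, Bs.smul_F]
  have h1 : ∀ f : I → ℂ, ∑ i ∈ gF g⁻¹ b.F, f i = ∑ i ∈ b.F, f (g⁻¹ • i) := by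
    intro f
    rw [gF, Finset.sum_map]
    rfl
  rw [h1, Finset.mul_sum]
  refine Finset.sum_congr rfl fun i hi => ?_
  rw [SAct.W_apply, D5c_tog g⁻¹ hi, sact_ε, sact_ε, Bs.smul_S]
  have h2 : (tog (g⁻¹ • i) (g⁻¹ • b)).S = tg (g⁻¹ • i) (gF g⁻¹ b.S) := by
    rw [← D5c_tog g⁻¹ hi, Bs.smul_S, (tog_of_mem hi).2, gF_tg]
  rw [h2]
  have h3 := D5c_sign e g (g⁻¹ • i) (gF g⁻¹ b.S)
  rw [smul_inv_smul, ← gF_mul, mul_inv_cancel, gF_one] at h3
  linear_combination (-(a (gF g⁻¹ b.F) (g⁻¹ • i) : ℂ) *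
    (ξ : Bs I → ℂ) (tog (g⁻¹ • i) (g⁻¹ • b))) * h3

omit [DecidableEq I] in
/-- PROOF: `Finset.sum_map`: the sum over `F` of `a (gF g⁻¹ F) (g⁻¹ i)²` is the sum over `gF g⁻¹ F`. -/
theorem CB.smul {a : Finset I → I → ℝ} {C : ℝ} (h : CB a C) (g : Γ) :
    CB (fun F i => a (gF g⁻¹ F) (g⁻¹ • i)) C := by
  exact D5c_smul h g

/-- Multiplication operators. PROOF: coordinates. -/
theorem W_mul_dia (e : I ↪ ℕ) {φ : Bs I → ℂ} {C : ℝ} (hC : 0 ≤ C) (h : ∀ b, ‖φ b‖ ≤ C) (g : Γ) :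
    (sact e : SAct Γ (Bs I)).W g * dia φ =
      dia (fun b => φ (g⁻¹ • b)) * (sact e : SAct Γ (Bs I)).W g := by
  refine ContinuousLinearMap.ext fun ξ => ?_
  ext b
  change ((sact e : SAct Γ (Bs I)).W g (dia φ ξ) : Bs I → ℂ) b =
    (dia (fun b => φ (g⁻¹ • b)) ((sact e : SAct Γ (Bs I)).W g ξ) : Bs I → ℂ) b
  rw [SAct.W_apply, dia_apply hC h, dia_apply hC (fun b => h _), SAct.W_apply]
  ring

end Pool.Agent.Lib.MP_aa9b81_an.Hs
end
end
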