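import Pool.Agent.Lib.MP_aa9b81_an.CutM.B
import Pool.Agent.Lib.MP_aa9b81_an.Mg.G074
import Pool.Agent.Lib.MP_aa9b81_an.Mg.G075

section

/-!
# Cutting theorem, part A
-/

noncomputable section

namespace Pool.Agent.Lib.MP_aa9b81_an.Cut

section PartAA1

open scoped ENNReal Topology ZeroAtInfty
open Filter Topology Set

variable {Γ : Type} [Group Γ]

/-- `m` is a probability measure on `Γ` supported in the finite set `S`. -/
structure IsProb (S : Finset Γ) (m : Γ → ℝ) : Prop where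
  nonneg : ∀ g, 0 ≤ m g
  supp : ∀ g ∉ S, m g = 0
  sum : ∑ g ∈ S, m g = 1

/-- The distance `‖m - m'‖₁`. -/
def dist1 (m m' : Γ → ℝ) : ℝ := ∑' g, |m g - m' g|

/-- The translate `h m`. -/
def tr (h : Γ) (m : Γ → ℝ) : Γ → ℝ := fun g => m (h⁻¹ * g)

private lemma AA1_summable {m m' : Γ → ℝ} (h : (Function.support m).Finite)
    (h' : (Function.support m').Finite) : Summable fun g => |m g - m' g| := by
  refine summable_of_hasFiniteSupport ?_
  refine (h.union h').subset ?_
  intro g hg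
  by_contra hcon
  simp only [Set.mem_union, Function.mem_support, not_or, not_not] at hcon
  apply hg
  simp [hcon.1, hcon.2]

/-- PROOF: finite sums: all functions have finite support (`tsum_eq_sum` over a common finite set);
`tr` is a bijection of `Γ`: `Equiv.tsum_eq (Equiv.mulLeft h⁻¹)`. -/
theorem dist1_triangle {m m' m'' : Γ → ℝ} (h : (Function.support m).Finite)
    (h' : (Function.support m').Finite) (h'' : (Function.support m'').Finite) :
    dist1 m m'' ≤ dist1 m m' + dist1 m' m'' := by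
  have h1 := AA1_summable h h'
  have h2 := AA1_summable h' h''
  have h3 := AA1_summable h h''
  unfold dist1
  rw [← h1.tsum_add h2]
  exact h3.tsum_le_tsum (fun g => abs_sub_le _ _ _) (h1.add h2)

theorem dist1_comm (m m' : Γ → ℝ) : dist1 m m' = dist1 m' m := by
  unfold dist1
  exact tsum_congr fun g => abs_sub_comm _ _

theorem dist1_tr (h : Γ) (m m' : Γ → ℝ) : dist1 (tr h m) (tr h m') = dist1 m m' := by
  unfold dist1 tr
  exact Equiv.tsum_eq (Equiv.mulLeft h⁻¹) (fun g => |m g - m' g|)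

theorem IsProb.tr [DecidableEq Γ] {S : Finset Γ} {m : Γ → ℝ} (hm : IsProb S m) (h : Γ) :
    IsProb (S.image (h * ·)) (Cut.tr h m) := by
  refine ⟨fun g => hm.nonneg _, fun g hg => hm.supp _ ?_, ?_⟩
  · intro hcon
    apply hg
    rw [Finset.mem_image]
    exact ⟨h⁻¹ * g, hcon, by group⟩
  · rw [Finset.sum_image (fun a _ b _ hab => mul_left_cancel hab)]
    rw [← hm.sum]
    refine Finset.sum_congr rfl fun g _ => ?_
    show m (h⁻¹ * (h * g)) = m g
    rw [inv_mul_cancel_left]

end PartAA1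

section PartAA2

open scoped ENNReal Topology ZeroAtInfty
open Filter Topology Set

variable {Γ : Type} [Group Γ]

/-- Averages: if `m = ∑ w_i m_i` (finite, `w_i ≥ 0`, `∑ w_i = 1`) and all the `m_i` are `ε`-close to
`m'`, then so is `m`. PROOF: `|∑ w_i m_i g - m' g| ≤ ∑ w_i |m_i g - m' g|`, sum over `g`. -/
theorem dist1_avg_le {ι : Type} (I : Finset ι) (w : ι → ℝ) (hw : ∀ i ∈ I, 0 ≤ w i)
    (hw1 : ∑ i ∈ I, w i = 1) (m : ι → Γ → ℝ) (hm : ∀ i ∈ I, (Function.support (m i)).Finite)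
    (m' : Γ → ℝ) (hm' : (Function.support m').Finite) {ε : ℝ}
    (h : ∀ i ∈ I, w i ≠ 0 → dist1 (m i) m' ≤ ε) : dist1 (fun g => ∑ i ∈ I, w i * m i g) m' ≤ ε := by
  have hsum : ∀ i ∈ I, Summable fun g => w i * |m i g - m' g| := by
    intro i hi
    refine summable_of_hasFiniteSupport ?_
    refine ((hm i hi).union hm').subset ?_
    intro g hg
    by_contra hcon
    simp only [Set.mem_union, Function.mem_support, not_or, not_not] at hcon
    apply hg
    simp [hcon.1, hcon.2]
  have hsum2 : Summable fun g => ∑ i ∈ I, w i * |m i g - m' g| := summable_sum hsum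
  have hle : ∀ g, |(∑ i ∈ I, w i * m i g) - m' g| ≤ ∑ i ∈ I, w i * |m i g - m' g| := by
    intro g
    have h1 : (∑ i ∈ I, w i * m i g) - m' g = ∑ i ∈ I, w i * (m i g - m' g) := by
      simp only [mul_sub]
      rw [Finset.sum_sub_distrib, ← Finset.sum_mul, hw1, one_mul]
    rw [h1]
    refine (Finset.abs_sum_le_sum_abs _ _).trans (Finset.sum_le_sum fun i hi => ?_)
    rw [abs_mul, abs_of_nonneg (hw i hi)]
  have hsum1 : Summable fun g => |(∑ i ∈ I, w i * m i g) - m' g| :=
    Summable.of_nonneg_of_le (fun g => abs_nonneg _) hle hsum2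
  unfold dist1
  refine (hsum1.tsum_le_tsum hle hsum2).trans ?_
  rw [Summable.tsum_finsetSum hsum]
  calc ∑ i ∈ I, ∑' g, w i * |m i g - m' g| ≤ ∑ i ∈ I, w i * ε := by
        refine Finset.sum_le_sum fun i hi => ?_
        rw [tsum_mul_left]
        by_cases h0 : w i = 0
        · rw [h0, zero_mul, zero_mul]
        · exact mul_le_mul_of_nonneg_left (h i hi h0) (hw i hi)
    _ = ε := by rw [← Finset.sum_mul, hw1, one_mul]

end PartAA2

section PartAA3

open scoped ENNReal Topology ZeroAtInfty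
open Filter Topology Set

variable {Γ : Type} [Group Γ]

variable {X : Type} [TopologicalSpace X] [MulAction Γ X]

omit [Group Γ] in
private lemma AA3_avg {ι : Type} (I : Finset ι) (w : ι → ℝ) (hw : ∀ i ∈ I, 0 ≤ w i)
    (hw1 : ∑ i ∈ I, w i = 1) (a b : ι → Γ → ℝ) (ha : ∀ i ∈ I, (Function.support (a i)).Finite)
    (hb : ∀ i ∈ I, (Function.support (b i)).Finite) {ε : ℝ}
    (h : ∀ i ∈ I, w i ≠ 0 → ∑' g, |a i g - b i g| ≤ ε) :
    ∑' g, |(∑ i ∈ I, w i * a i g) - ∑ i ∈ I, w i * b i g| ≤ ε := by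
  have hsum : ∀ i ∈ I, Summable fun g => w i * |a i g - b i g| := by
    intro i hi
    refine summable_of_hasFiniteSupport ?_
    refine ((ha i hi).union (hb i hi)).subset ?_
    intro g hg
    by_contra hcon
    simp only [Set.mem_union, Function.mem_support, not_or, not_not] at hcon
    apply hg
    simp [hcon.1, hcon.2]
  have hsum2 : Summable fun g => ∑ i ∈ I, w i * |a i g - b i g| := summable_sum hsum
  have hle : ∀ g, |(∑ i ∈ I, w i * a i g) - ∑ i ∈ I, w i * b i g| ≤
      ∑ i ∈ I, w i * |a i g - b i g| := by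
    intro g
    have h1 : (∑ i ∈ I, w i * a i g) - ∑ i ∈ I, w i * b i g =
        ∑ i ∈ I, w i * (a i g - b i g) := by
      simp only [mul_sub]
      rw [Finset.sum_sub_distrib]
    rw [h1]
    refine (Finset.abs_sum_le_sum_abs _ _).trans (Finset.sum_le_sum fun i hi => ?_)
    rw [abs_mul, abs_of_nonneg (hw i hi)]
  have hsum1 : Summable fun g => |(∑ i ∈ I, w i * a i g) - ∑ i ∈ I, w i * b i g| :=
    Summable.of_nonneg_of_le (fun g => abs_nonneg _) hle hsum2
  refine (hsum1.tsum_le_tsum hle hsum2).trans ?_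
  rw [Summable.tsum_finsetSum hsum]
  calc ∑ i ∈ I, ∑' g, w i * |a i g - b i g| ≤ ∑ i ∈ I, w i * ε := by
        refine Finset.sum_le_sum fun i hi => ?_
        rw [tsum_mul_left]
        by_cases h0 : w i = 0
        · rw [h0, zero_mul, zero_mul]
        · exact mul_le_mul_of_nonneg_left (h i hi h0) (hw i hi)
    _ = ε := by rw [← Finset.sum_mul, hw1, one_mul]

private lemma AA3_point (H : Subgroup Γ) (hamen : AmenableGroup H)
    (G : Finset Γ) {ε : ℝ} (hε : 0 < ε) :
    ∃ (S : Finset Γ) (m : Γ → ℝ), IsProb S m ∧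
      ∀ η ∈ G, η ∈ H → dist1 (tr η m) m ≤ ε := by
  classical
  obtain ⟨S, m, hm0, hmS, hm1, hm⟩ :=
    hamen (G.subtype (fun g => g ∈ H)) ε hε
  refine ⟨S.map (Function.Embedding.subtype _), fun g => if h : g ∈ H then m ⟨g, h⟩ else 0,
    ⟨?_, ?_, ?_⟩, ?_⟩
  · intro g
    by_cases h : g ∈ H
    · simp only [h, dif_pos]
      exact hm0 _
    · simp only [h, dif_neg, not_false_eq_true]
      exact le_rfl
  · intro g hg
    by_cases h : g ∈ H
    · simp only [h, dif_pos]
      refine hmS _ fun hcon => hg ?_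
      rw [Finset.mem_map]
      exact ⟨⟨g, h⟩, hcon, rfl⟩
    · simp only [h, dif_neg, not_false_eq_true]
  · rw [Finset.sum_map]
    rw [← hm1]
    refine Finset.sum_congr rfl fun g _ => ?_
    have h : ((Function.Embedding.subtype (fun g => g ∈ H)) g) ∈ H := g.2
    rw [dif_pos h]
    rfl
  · intro η hη hηH
    have h1 := hm ⟨η, hηH⟩ (by rw [Finset.mem_subtype]; exact hη)
    unfold dist1 tr
    have h2 : Function.support (fun g : Γ => |(if h : η⁻¹ * g ∈ H then m ⟨η⁻¹ * g, h⟩ else 0) -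
        (if h : g ∈ H then m ⟨g, h⟩ else 0)|) ⊆ (H : Set Γ) := by
      intro g hg
      by_contra hcon
      apply hg
      have h3 : g ∉ H := hcon
      have h4 : η⁻¹ * g ∉ H := by
        intro h5
        apply h3
        have := H.mul_mem hηH h5
        rwa [mul_inv_cancel_left] at this
      simp only [h3, h4, dif_neg, not_false_eq_true, sub_zero, abs_zero]
    rw [← tsum_subtype_eq_of_support_subset h2]
    refine le_trans (le_of_eq ?_) h1
    refine tsum_congr fun g => ?_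
    have h5 : (g : Γ) ∈ H := g.2
    have h6 : η⁻¹ * (g : Γ) ∈ H := H.mul_mem (H.inv_mem hηH) h5
    rw [dif_pos h5, dif_pos h6, abs_sub_comm]
    rfl

/-- PROOF: for each `y₀ ∈ K` the amenability of the stabilizer, for the finite set
`G ∩ Γ_{y₀}` and `ε`, gives a probability measure `m` on `Γ_{y₀}`, hence on `Γ` (extend by zero), with
`‖η m - m‖₁ ≤ ε` for `η ∈ G ∩ Γ_{y₀}`. There is an open neighbourhood `N` of `y₀` with
`G ∩ Γ_y ⊆ Γ_{y₀}` for `y ∈ N` (for `η ∈ G` with `η y₀ ≠ y₀` the set `{y | η y ≠ y}` is open). Cover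
`K` by finitely many `N_i`; a partition of unity `ρ_i` subordinate to the `N_i` with sum `1` on `K`
(`PartitionOfUnity` for a normal space, or `exists_continuous_sum_one_of_isOpen_isCompact` in
Mathlib for locally compact Hausdorff spaces); put
`μ_y = ∑ ρ_i(y) m_i + (1 - ∑ ρ_i(y)) δ_1`. For `y ∈ K` and `η ∈ G ∩ Γ_y`: if `ρ_i(y) ≠ 0` then
`y ∈ N_i`, `η ∈ Γ_{y_i}`, `‖η m_i - m_i‖₁ ≤ ε`. -/
theorem exists_isotropy_measures [T2Space X] [LocallyCompactSpace X] [ContinuousConstSMul Γ X]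
    (hamen : ∀ x : X, AmenableGroup (MulAction.stabilizer Γ x)) {K : Set X} (hK : IsCompact K)
    (G : Finset Γ) {ε : ℝ} (hε : 0 < ε) :
    ∃ (S : Finset Γ) (μ : X → Γ → ℝ), (∀ g, Continuous fun y => μ y g) ∧ (∀ y, IsProb S (μ y)) ∧
      ∀ y ∈ K, ∀ η ∈ G, η • y = y → dist1 (tr η (μ y)) (μ y) ≤ ε := by
  classical
  choose S m hm hme using fun y₀ : X => AA3_point (MulAction.stabilizer Γ y₀) (hamen y₀) G hε
  let N : X → Set X := fun y₀ => {y | ∀ η ∈ G, η • y₀ ≠ y₀ → η • y ≠ y}
  have hNo : ∀ y₀, IsOpen (N y₀) := by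
    intro y₀
    have h1 : N y₀ = ⋂ η ∈ G, {y | η • y₀ ≠ y₀ → η • y ≠ y} := by
      ext y
      simp only [N, Set.mem_ofPred_eq, Set.mem_iInter]
    rw [h1]
    refine isOpen_biInter_finset fun η _ => ?_
    by_cases h2 : η • y₀ = y₀
    · have h3 : {y : X | η • y₀ ≠ y₀ → η • y ≠ y} = Set.univ := by
        ext y
        simp [h2]
      rw [h3]
      exact isOpen_univ
    · have h3 : {y : X | η • y₀ ≠ y₀ → η • y ≠ y} = {y | η • y ≠ y} := by
        ext y
        simp [h2]
      rw [h3]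
      exact isOpen_ne_fun (continuous_const_smul η) continuous_id
  obtain ⟨t, -, ht⟩ := hK.elim_nhds_subcover N fun x _ =>
    (hNo x).mem_nhds (fun η _ h => h)
  let e : Fin t.card ≃ t := t.equivFin.symm
  have hcov : K ⊆ ⋃ i : Fin t.card, N (e i) := by
    intro y hy
    have h1 := ht hy
    simp only [Set.mem_iUnion] at h1
    obtain ⟨x, hx, hyx⟩ := h1
    refine Set.mem_iUnion.2 ⟨e.symm ⟨x, hx⟩, ?_⟩
    rw [Equiv.apply_symm_apply]
    exact hyx
  obtain ⟨f, hfs, hf1, hf01, -⟩ :=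
    exists_continuous_sum_one_of_isOpen_isCompact (fun i => hNo (e i)) hK hcov
  let R : X → ℝ := fun y => ∑ i, f i y
  have hR : Continuous R := continuous_finsetSum _ fun i _ => (f i).continuous
  have hR0 : ∀ y, 0 ≤ R y := fun y => Finset.sum_nonneg fun i _ => (hf01 i y).1
  have hR1 : ∀ y ∈ K, R y = 1 := by
    intro y hy
    have h1 := hf1 hy
    simp only [Finset.sum_apply, Pi.one_apply] at h1
    exact h1
  let D : X → ℝ := fun y => max 1 (R y)
  have hD : Continuous D := continuous_const.max hR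
  have hDpos : ∀ y, 0 < D y := fun y => lt_of_lt_of_le one_pos (le_max_left _ _)
  have hDR : ∀ y, 0 ≤ D y - R y := fun y => sub_nonneg.2 (le_max_right _ _)
  let T : Finset Γ := insert 1 (Finset.univ.biUnion fun i : Fin t.card => S (e i))
  have hST : ∀ i, S (e i) ⊆ T := by
    intro i g hg
    exact Finset.mem_insert_of_mem (Finset.mem_biUnion.2 ⟨i, Finset.mem_univ _, hg⟩)
  refine ⟨T, fun y g => (∑ i, f i y * m (e i) g + (D y - R y) * (if g = 1 then 1 else 0)) / D y,
    ?_, ?_, ?_⟩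
  · intro g
    refine Continuous.div ?_ hD fun y => (hDpos y).ne'
    refine (continuous_finsetSum _ fun i _ => (f i).continuous.mul continuous_const).add ?_
    exact (hD.sub hR).mul continuous_const
  · intro y
    refine ⟨fun g => ?_, fun g hg => ?_, ?_⟩
    · refine div_nonneg (add_nonneg ?_ ?_) (hDpos y).le
      · exact Finset.sum_nonneg fun i _ => mul_nonneg (hf01 i y).1 ((hm _).nonneg g)
      · refine mul_nonneg (hDR y) ?_
        split_ifs
        · exact zero_le_one
        · exact le_rfl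
    · have h1 : g ≠ 1 := by
        rintro rfl
        exact hg (Finset.mem_insert_self _ _)
      have h2 : ∀ i, m (e i) g = 0 := fun i => (hm _).supp g fun h => hg (hST i h)
      simp only [h1, h2, mul_zero, Finset.sum_const_zero, if_false, add_zero, zero_div]
    · rw [← Finset.sum_div, Finset.sum_add_distrib, Finset.sum_comm]
      have h1 : ∀ i, ∑ g ∈ T, f i y * m (e i) g = f i y := by
        intro i
        rw [← Finset.mul_sum, ← Finset.sum_subset (hST i) fun g _ hg => (hm _).supp g hg,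
          (hm _).sum, mul_one]
      rw [Finset.sum_congr rfl fun i _ => h1 i, ← Finset.mul_sum, Finset.sum_ite_eq',
        if_pos (Finset.mem_insert_self _ _), mul_one]
      have h2 : ∑ i, f i y + (D y - R y) = D y := by
        simp only [R]
        ring
      rw [h2]
      exact div_self (hDpos y).ne'
  · intro y hy η hη hηy
    have h1 : D y = 1 := by
      simp only [D]
      rw [hR1 y hy, max_self]
    have h2 : ∀ g, (∑ i, f i y * m (e i) g + (D y - R y) * (if g = 1 then 1 else 0)) / D y =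
        ∑ i, f i y * m (e i) g := by
      intro g
      rw [h1, hR1 y hy, sub_self, zero_mul, add_zero, div_one]
    unfold dist1 tr
    simp only [h2]
    have hsupp : ∀ i, (Function.support (m (e i))).Finite := by
      intro i
      refine (S (e i)).finite_toSet.subset ?_
      intro g hg
      by_contra hcon
      exact hg ((hm _).supp g hcon)
    refine AA3_avg Finset.univ (fun i => f i y) (fun i _ => (hf01 i y).1) (hR1 y hy)
      (fun i g => m (e i) (η⁻¹ * g)) (fun i => m (e i)) (fun i _ => ?_) (fun i _ => hsupp i) ?_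
    · refine ((hsupp i).image (fun g => η * g)).subset ?_
      intro g hg
      exact ⟨η⁻¹ * g, hg, mul_inv_cancel_left _ _⟩
    · intro i _ hi
      have h3 : y ∈ N (e i) := hfs i (subset_tsupport _ hi)
      have h4 : η • (e i : X) = (e i : X) := by
        by_contra hcon
        exact h3 η hη hcon hηy
      exact hme (e i) η hη h4

end PartAA3

section PartAB1

open scoped ENNReal Topology ZeroAtInfty
open Filter Topology Set

variable {Γ X : Type} [Group Γ] [TopologicalSpace X] [MulAction Γ X]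

/-- The coordinate `q` of `p` is active. -/
def Act (p : X × Cfg Γ) (q : ℕ × Γ) : Prop := 0 < p.2.co q ∧ p.2.co q < 1

/-- Two coordinates belong to the same point of the orbit. -/
def Same (p : X × Cfg Γ) (q q' : ℕ × Γ) : Prop := q.1 = q'.1 ∧ q.2⁻¹ • p.1 = q'.2⁻¹ • p.1

/-- The finite set `F` is a system of representatives of the active coordinates of `p`. -/
structure IsRep (p : X × Cfg Γ) (F : Finset (ℕ × Γ)) : Prop where
  act : ∀ q ∈ F, Act p q
  inj : ∀ q ∈ F, ∀ q' ∈ F, Same p q q' → q = q'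
  surj : ∀ q, Act p q → ∃ q' ∈ F, Same p q q'

omit [TopologicalSpace X] in
private theorem AB1_aux {p : X × Cfg Γ} {k : ℕ} (h1 : RankLE p (k + 1)) {F : Finset (ℕ × Γ)}
    (hact : ∀ q ∈ F, Act p q) (hinj : ∀ q ∈ F, ∀ q' ∈ F, Same p q q' → q = q')
    (hF : F.card = k + 1) : IsRep p F := by
  classical
  refine ⟨hact, hinj, fun q hq => ?_⟩
  by_contra hcon
  have hcon' : ∀ q' ∈ F, ¬ Same p q q' := fun q' hq' h => hcon ⟨q', hq', h⟩
  have hqF : q ∉ F := fun h => hcon' q h ⟨rfl, rfl⟩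
  have hcard : (insert q F).card = k + 2 := by
    rw [Finset.card_insert_of_notMem hqF, hF]
  have h2 := h1 (insert q F) ?_ ?_
  · omega
  · intro a ha
    rcases Finset.mem_insert.mp ha with rfl | ha
    · exact hq
    · exact hact a ha
  · intro a ha b hb hab1 hab2
    rcases Finset.mem_insert.mp ha with ha1 | ha1
    · rcases Finset.mem_insert.mp hb with hb1 | hb1
      · rw [ha1, hb1]
      · rw [ha1] at hab1 hab2
        exact absurd ⟨hab1, hab2⟩ (hcon' b hb1)
    · rcases Finset.mem_insert.mp hb with hb1 | hb1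
      · rw [hb1] at hab1 hab2
        exact absurd ⟨hab1.symm, hab2.symm⟩ (hcon' a ha1)
      · exact hinj a ha1 b hb1 ⟨hab1, hab2⟩

omit [TopologicalSpace X] in
/-- PROOF: `¬ RankLE p k` gives a set `F` of active coordinates, pairwise not `Same`, with
`F.card > k`, so `F.card = k + 1` by `RankLE p (k+1)`. If an active `q` were not `Same` to any element
of `F`, then `insert q F` would have `k + 2` elements, contradicting `RankLE p (k+1)`. -/
theorem exists_isRep {p : X × Cfg Γ} {k : ℕ} (h1 : RankLE p (k + 1)) (h2 : ¬ RankLE p k) :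
    ∃ F : Finset (ℕ × Γ), IsRep p F ∧ F.card = k + 1 := by
  unfold RankLE at h2
  push Not at h2
  obtain ⟨F, hact, hinj, hcard⟩ := h2
  have hcard' : F.card ≤ k + 1 := h1 F hact hinj
  have hF : F.card = k + 1 := by omega
  exact ⟨F, AB1_aux h1 hact (fun q hq q' hq' h => hinj q hq q' hq' h.1 h.2) hF, hF⟩

omit [TopologicalSpace X] in
/-- PROOF: if an active `q` were not `Same` to any element of `F` (in either order, `Same` is
symmetric), then `insert q F` would be a set of `k + 2` active coordinates, pairwise not `Same`,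
contradicting `RankLE p (k+1)`. -/
theorem isRep_of_card {p : X × Cfg Γ} {k : ℕ} (h1 : RankLE p (k + 1)) {F : Finset (ℕ × Γ)}
    (hact : ∀ q ∈ F, Act p q) (hinj : ∀ q ∈ F, ∀ q' ∈ F, Same p q q' → q = q')
    (hF : F.card = k + 1) : IsRep p F :=
  AB1_aux h1 hact hinj hF

end PartAB1

section PartAB2

open scoped ENNReal Topology ZeroAtInfty
open Filter Topology Set

variable {Γ X : Type} [Group Γ] [TopologicalSpace X] [MulAction Γ X]

/-- LOCAL CONSTANCY. PROOF: for `p'` near to `p` the coordinates in `F` are active for `p'` and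
pairwise not `Same` (finitely many open conditions: `X` is Hausdorff), so `isRep_of_card`. -/
theorem isRep_nhds [T2Space X] [ContinuousConstSMul Γ X] {f : ℕ → X → ℝ} {k : ℕ}
    (p : (boxS f k : InvSet Γ (X × Cfg Γ)).Pt) {F : Finset (ℕ × Γ)}
    (hF : IsRep ((boxS f k : InvSet Γ (X × Cfg Γ)).val p) F) (hc : F.card = k + 1) :
    ∀ᶠ p' in 𝓝 p, IsRep ((boxS f k : InvSet Γ (X × Cfg Γ)).val p') F := by
  have hVc : Continuous (boxS f k : InvSet Γ (X × Cfg Γ)).val :=
    (boxS f k : InvSet Γ (X × Cfg Γ)).continuous_val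
  have hco : ∀ q : ℕ × Γ, Continuous fun p' => ((boxS f k : InvSet Γ (X × Cfg Γ)).val p').2.co q :=
    fun q => (Cfg.continuous_co q).comp (continuous_snd.comp hVc)
  have hpt : ∀ a : Γ, Continuous fun p' => a • ((boxS f k : InvSet Γ (X × Cfg Γ)).val p').1 :=
    fun a => (continuous_fst.comp hVc).const_smul a
  have hact : ∀ᶠ p' in 𝓝 p, ∀ q ∈ F, Act ((boxS f k : InvSet Γ (X × Cfg Γ)).val p') q := by
    rw [Filter.eventually_all_finset]
    intro q hq
    have e1 : ∀ᶠ p' in 𝓝 p, 0 < ((boxS f k : InvSet Γ (X × Cfg Γ)).val p').2.co q :=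
      (hco q).continuousAt.eventually (lt_mem_nhds (hF.act q hq).1)
    have e2 : ∀ᶠ p' in 𝓝 p, ((boxS f k : InvSet Γ (X × Cfg Γ)).val p').2.co q < 1 :=
      (hco q).continuousAt.eventually (gt_mem_nhds (hF.act q hq).2)
    filter_upwards [e1, e2] with p' a b using ⟨a, b⟩
  have hne : ∀ᶠ p' in 𝓝 p, ∀ q ∈ F, ∀ q' ∈ F,
      Same ((boxS f k : InvSet Γ (X × Cfg Γ)).val p') q q' → q = q' := by
    rw [Filter.eventually_all_finset]
    intro q hq
    rw [Filter.eventually_all_finset]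
    intro q' hq'
    by_cases he : q = q'
    · exact Filter.Eventually.of_forall fun _ _ => he
    · by_cases h1 : q.1 = q'.1
      · have h2 : q.2⁻¹ • ((boxS f k : InvSet Γ (X × Cfg Γ)).val p).1 ≠
            q'.2⁻¹ • ((boxS f k : InvSet Γ (X × Cfg Γ)).val p).1 := fun h =>
          he (hF.inj q hq q' hq' ⟨h1, h⟩)
        have hop : IsOpen {p' | q.2⁻¹ • ((boxS f k : InvSet Γ (X × Cfg Γ)).val p').1 ≠
            q'.2⁻¹ • ((boxS f k : InvSet Γ (X × Cfg Γ)).val p').1} := isOpen_ne_fun (hpt _) (hpt _)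
        filter_upwards [hop.mem_nhds h2] with p' hp' h
        exact absurd h.2 hp'
      · exact Filter.Eventually.of_forall fun _ h => absurd h.1 h1
  filter_upwards [hact, hne] with p' a b
  exact isRep_of_card ((boxS f k : InvSet Γ (X × Cfg Γ)).val_mem p').2.1 a b hc

end PartAB2

section PartAB3

open scoped ENNReal Topology ZeroAtInfty
open Filter Topology Set

variable {Γ X : Type} [Group Γ] [TopologicalSpace X] [MulAction Γ X]

/-- The weight `min(t, 1 - t)` of a coordinate. -/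
def wt (p : X × Cfg Γ) (q : ℕ × Γ) : ℝ := min (p.2.co q) (1 - p.2.co q)

open Classical in
/-- For a representative `q₀` and a finite set `G`: the weighted sum of the measures `g μ_{g⁻¹ x}` over
the `g ∈ G` with `(q₀.1, g)` in the class of `q₀`. -/
def num (G : Finset Γ) (μ : X → Γ → ℝ) (p : X × Cfg Γ) (q₀ : ℕ × Γ) (c : Γ) : ℝ :=
  ∑ g ∈ G, if Same p (q₀.1, g) q₀ then wt p (q₀.1, g) * μ (g⁻¹ • p.1) (g⁻¹ * c) else 0

open Classical in
/-- The total weight of the class of `q₀`. -/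
def den (G : Finset Γ) (p : X × Cfg Γ) (q₀ : ℕ × Γ) : ℝ :=
  ∑ g ∈ G, if Same p (q₀.1, g) q₀ then wt p (q₀.1, g) else 0

/-- The average over the `k + 1` classes of active coordinates. -/
def avg (G : Finset Γ) (μ : X → Γ → ℝ) (F : Finset (ℕ × Γ)) (p : X × Cfg Γ) (c : Γ) : ℝ :=
  (F.card : ℝ)⁻¹ * ∑ q ∈ F, num G μ p q c / den G p q

omit [TopologicalSpace X] in
/-- The average does not depend on the representatives. PROOF: a bijection `F → F'` with
`Same p q (σ q)`, and `num`, `den` only depend on the class (`Same` is an equivalence relation). -/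
theorem avg_eq_of_isRep {G : Finset Γ} {μ : X → Γ → ℝ} {p : X × Cfg Γ} {F F' : Finset (ℕ × Γ)}
    (h : IsRep p F) (h' : IsRep p F') (c : Γ) : avg G μ F p c = avg G μ F' p c := by
  classical
  have hsame : ∀ q q' : ℕ × Γ, Same p q q' → ∀ g, (Same p (q'.1, g) q ↔ Same p (q'.1, g) q') := by
    intro q q' hs g
    unfold Same at hs ⊢
    rw [hs.2, hs.1]
  have hnum : ∀ q q' : ℕ × Γ, Same p q q' → num G μ p q c = num G μ p q' c := by
    intro q q' hs
    unfold num
    refine Finset.sum_congr rfl fun g _ => ?_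
    simp only [hs.1, hsame q q' hs g]
  have hden : ∀ q q' : ℕ × Γ, Same p q q' → den G p q = den G p q' := by
    intro q q' hs
    unfold den
    refine Finset.sum_congr rfl fun g _ => ?_
    simp only [hs.1, hsame q q' hs g]
  have hex : ∀ q ∈ F, ∃ q' ∈ F', Same p q q' := fun q hq => h'.surj q (h.act q hq)
  choose! σ hσ hσs using hex
  have hinj : ∀ q ∈ F, ∀ r ∈ F, σ q = σ r → q = r := by
    intro q hq r hr he
    refine h.inj q hq r hr ⟨?_, ?_⟩
    · rw [(hσs q hq).1, (hσs r hr).1, he]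
    · rw [(hσs q hq).2, (hσs r hr).2, he]
  have hsurj : ∀ q' ∈ F', ∃ q, ∃ _ : q ∈ F, σ q = q' := by
    intro q' hq'
    obtain ⟨q, hq, hs⟩ := h.surj q' (h'.act q' hq')
    refine ⟨q, hq, h'.inj _ (hσ q hq) _ hq' ⟨?_, ?_⟩⟩
    · rw [← (hσs q hq).1, ← hs.1]
    · rw [← (hσs q hq).2, ← hs.2]
  have hcard : F.card = F'.card :=
    Finset.card_bij (fun q _ => σ q) hσ hinj hsurj
  unfold avg
  rw [hcard]
  congr 1
  refine Finset.sum_bij (fun q _ => σ q) hσ hinj hsurj fun q hq => ?_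
  rw [hnum q _ (hσs q hq), hden q _ (hσs q hq)]

end PartAB3

section PartAB4

open scoped ENNReal Topology ZeroAtInfty
open Filter Topology Set

variable {Γ X : Type} [Group Γ] [TopologicalSpace X] [MulAction Γ X]

open Classical in
/-- Auxiliary: continuity of a single summand. -/
private lemma AB4_term [T2Space X] [ContinuousConstSMul Γ X] {f : ℕ → X → ℝ} {k : ℕ}
    {ν : (boxS f k : InvSet Γ (X × Cfg Γ)).Pt → ℝ} (hν : Continuous ν) (hb : ∀ p, |ν p| ≤ 1)
    (p : (boxS f k : InvSet Γ (X × Cfg Γ)).Pt) {F : Finset (ℕ × Γ)}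
    (hF : IsRep ((boxS f k : InvSet Γ (X × Cfg Γ)).val p) F) (hc : F.card = k + 1)
    {q₀ : ℕ × Γ} (hq : q₀ ∈ F) (g : Γ) :
    ContinuousAt (fun p' : (boxS f k : InvSet Γ (X × Cfg Γ)).Pt =>
      if Same ((boxS f k : InvSet Γ (X × Cfg Γ)).val p') (q₀.1, g) q₀ then
        wt ((boxS f k : InvSet Γ (X × Cfg Γ)).val p') (q₀.1, g) * ν p' else 0) p := by
  set V := (boxS f k : InvSet Γ (X × Cfg Γ)).val with hV
  have hVc : Continuous V := (boxS f k : InvSet Γ (X × Cfg Γ)).continuous_val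
  have hco : ∀ q : ℕ × Γ, Continuous fun p' => (V p').2.co q := fun q =>
    (Cfg.continuous_co q).comp (continuous_snd.comp hVc)
  have hwt : ∀ q : ℕ × Γ, Continuous fun p' => wt (V p') q := fun q => by
    unfold wt
    exact (hco q).min (continuous_const.sub (hco q))
  have hpt : ∀ a : Γ, Continuous fun p' => a • (V p').1 := fun a =>
    (continuous_fst.comp hVc).const_smul a
  by_cases h1 : g⁻¹ • (V p).1 = q₀.2⁻¹ • (V p).1
  · by_cases h2 : Act (V p) (q₀.1, g)
    · -- active: the condition is true near `p`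
      have hact : ∀ᶠ p' in 𝓝 p, Act (V p') (q₀.1, g) := by
        have e1 : ∀ᶠ p' in 𝓝 p, 0 < (V p').2.co (q₀.1, g) :=
          (hco (q₀.1, g)).continuousAt.eventually (lt_mem_nhds h2.1)
        have e2 : ∀ᶠ p' in 𝓝 p, (V p').2.co (q₀.1, g) < 1 :=
          (hco (q₀.1, g)).continuousAt.eventually (gt_mem_nhds h2.2)
        filter_upwards [e1, e2] with p' a b using ⟨a, b⟩
      have hrep : ∀ᶠ p' in 𝓝 p, IsRep (V p') F := isRep_nhds p hF hc
      have hne : ∀ᶠ p' in 𝓝 p, ∀ q' ∈ F, q' ≠ q₀ → q'.1 = q₀.1 →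
          q'.2⁻¹ • (V p').1 ≠ g⁻¹ • (V p').1 := by
        rw [Filter.eventually_all_finset]
        intro q' hq'
        by_cases ha : q' ≠ q₀ ∧ q'.1 = q₀.1
        · have hne0 : q'.2⁻¹ • (V p).1 ≠ g⁻¹ • (V p).1 := by
            intro he
            exact ha.1 (hF.inj q' hq' q₀ hq ⟨ha.2, he.trans h1⟩)
          have hop : IsOpen {p' | q'.2⁻¹ • (V p').1 ≠ g⁻¹ • (V p').1} :=
            isOpen_ne_fun (hpt _) (hpt _)
          filter_upwards [hop.mem_nhds hne0] with p' hp' _ _ using hp'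
        · exact Filter.Eventually.of_forall fun p' h3 h4 => absurd ⟨h3, h4⟩ ha
      have hev : ∀ᶠ p' in 𝓝 p, Same (V p') (q₀.1, g) q₀ := by
        filter_upwards [hact, hrep, hne] with p' ha hr hn
        obtain ⟨q', hq', hs⟩ := hr.surj _ ha
        by_cases he : q' = q₀
        · rw [he] at hs
          exact hs
        · exact absurd hs.2.symm (hn q' hq' he hs.1.symm)
      have hcont : ContinuousAt (fun p' => wt (V p') (q₀.1, g) * ν p') p :=
        ((hwt _).mul hν).continuousAt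
      refine hcont.congr ?_
      filter_upwards [hev] with p' hp'
      rw [if_pos hp']
    · -- not active: the weight is `0` at `p`
      have hw0 : wt (V p) (q₀.1, g) = 0 := by
        have h3 := (V p).2.co_mem (q₀.1, g)
        unfold wt
        unfold Act at h2
        rw [not_and_or, not_lt, not_lt] at h2
        rcases h2 with h4 | h4
        · have h5 : (V p).2.co (q₀.1, g) = 0 := le_antisymm h4 h3.1
          rw [h5]
          norm_num
        · have h5 : (V p).2.co (q₀.1, g) = 1 := le_antisymm h3.2 h4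
          rw [h5]
          norm_num
      have hwnn : ∀ p', 0 ≤ wt (V p') (q₀.1, g) := by
        intro p'
        have h3 := (V p').2.co_mem (q₀.1, g)
        unfold wt
        exact le_min h3.1 (by linarith [h3.2])
      have hval : (if Same (V p) (q₀.1, g) q₀ then wt (V p) (q₀.1, g) * ν p else 0 : ℝ) = 0 := by
        split_ifs
        · rw [hw0, zero_mul]
        · rfl
      unfold ContinuousAt
      beta_reduce
      rw [hval]
      have hlim : Tendsto (fun p' => wt (V p') (q₀.1, g)) (𝓝 p) (𝓝 0) := by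
        have := (hwt (q₀.1, g)).continuousAt (x := p)
        unfold ContinuousAt at this
        beta_reduce at this
        rwa [hw0] at this
      refine squeeze_zero_norm (fun p' => ?_) hlim
      split_ifs
      · rw [norm_mul, Real.norm_of_nonneg (hwnn p'), Real.norm_eq_abs]
        exact mul_le_of_le_one_right (hwnn p') (hb p')
      · rw [norm_zero]
        exact hwnn p'
  · -- different points: locally `0`
    have hop : IsOpen {p' | g⁻¹ • (V p').1 ≠ q₀.2⁻¹ • (V p').1} :=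
      isOpen_ne_fun (hpt _) (hpt _)
    refine (continuousAt_const (y := (0 : ℝ))).congr ?_
    filter_upwards [hop.mem_nhds h1] with p' hp'
    rw [if_neg]
    intro h
    exact hp' h.2

/-- CONTINUITY of `num` and `den` on the stratum. PROOF: it is enough that each summand
`p' ↦ if Same p' (q₀.1, g) q₀ then wt p' (q₀.1, g) * μ ... else 0` is continuous at `p`. If
`g⁻¹ x ≠ q₀.2⁻¹ x` then this holds near to `p` too: locally `0`. If `g⁻¹ x = q₀.2⁻¹ x` and
`(q₀.1, g)` is active at `p`: for `p'` near to `p` it is active, so by `IsRep` (`isRep_nhds`) it is `Same`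
to some element `q'` of `F` at `p'`; near to `p` only `q' = q₀` is possible (`q' ≠ q₀` in `F` with
`q'.1 = q₀.1` has `q'.2⁻¹ x ≠ q₀.2⁻¹ x = g⁻¹ x`, an open condition). So the condition is true near to
`p` and the summand is `wt * μ`, continuous. If `g⁻¹ x = q₀.2⁻¹ x` and `(q₀.1, g)` is not active at
`p`, then `wt p = 0` and `|summand| ≤ wt p' * (bound)` tends to `0` (`0 ≤ wt`, `|μ| ≤ 1`). -/
theorem continuousAt_num [T2Space X] [ContinuousConstSMul Γ X] {f : ℕ → X → ℝ} {k : ℕ}
    (G : Finset Γ) {μ : X → Γ → ℝ} (hμ : ∀ g, Continuous fun y => μ y g)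
    (hb : ∀ y g, |μ y g| ≤ 1) (p : (boxS f k : InvSet Γ (X × Cfg Γ)).Pt) {F : Finset (ℕ × Γ)}
    (hF : IsRep ((boxS f k : InvSet Γ (X × Cfg Γ)).val p) F) (hc : F.card = k + 1)
    {q₀ : ℕ × Γ} (hq : q₀ ∈ F) (c : Γ) :
    ContinuousAt (fun p' : (boxS f k : InvSet Γ (X × Cfg Γ)).Pt =>
      num G μ ((boxS f k : InvSet Γ (X × Cfg Γ)).val p') q₀ c) p ∧
    ContinuousAt (fun p' : (boxS f k : InvSet Γ (X × Cfg Γ)).Pt =>
      den G ((boxS f k : InvSet Γ (X × Cfg Γ)).val p') q₀) p := by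
  classical
  have hVc : Continuous (boxS f k : InvSet Γ (X × Cfg Γ)).val :=
    (boxS f k : InvSet Γ (X × Cfg Γ)).continuous_val
  constructor
  · unfold num
    refine tendsto_finsetSum G fun g _ => ?_
    exact AB4_term (ν := fun p' => μ (g⁻¹ • ((boxS f k : InvSet Γ (X × Cfg Γ)).val p').1) (g⁻¹ * c))
      ((hμ (g⁻¹ * c)).comp ((continuous_fst.comp hVc).const_smul g⁻¹)) (fun p' => hb _ _) p hF hc
      hq g
  · unfold den
    refine tendsto_finsetSum G fun g _ => ?_
    have h := AB4_term (ν := fun _ => 1) continuous_const (fun _ => by norm_num) p hF hc hq g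
    simp only [mul_one] at h
    exact h

end PartAB4

section PartAC1

open scoped ENNReal Topology ZeroAtInfty
open Filter Topology Set

variable {Γ X : Type} [Group Γ] [TopologicalSpace X] [MulAction Γ X]

omit [TopologicalSpace X] [MulAction Γ X] in
private lemma AC1_wt_nonneg (p : X × Cfg Γ) (q : ℕ × Γ) : 0 ≤ wt p q := by
  have h := p.2.co_mem q
  unfold wt
  exact le_min h.1 (by linarith [h.2])

open Classical in
omit [TopologicalSpace X] in
private lemma AC1_term_nonneg (p : X × Cfg Γ) (q : ℕ × Γ) (g : Γ) :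
    0 ≤ (if Same p (q.1, g) q then wt p (q.1, g) else 0 : ℝ) := by
  split_ifs
  · exact AC1_wt_nonneg p _
  · exact le_rfl

omit [TopologicalSpace X] in
/-- PROOF: the summands are nonnegative (`wt ≥ 0`), and the one of `g = q.2` is `wt p q > 0` because
`q` is active. -/
theorem den_pos {G : Finset Γ} {p : X × Cfg Γ} {q : ℕ × Γ} (hq : Act p q) (hG : q.2 ∈ G) :
    0 < den G p q := by
  classical
  unfold den
  refine Finset.sum_pos' (fun g _ => AC1_term_nonneg p q g) ⟨q.2, hG, ?_⟩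
  have h1 : Same p (q.1, q.2) q := ⟨rfl, rfl⟩
  rw [if_pos h1]
  unfold wt
  exact lt_min hq.1 (by have := hq.2; linarith)

omit [TopologicalSpace X] in
/-- PROOF: larger index set, nonnegative terms. -/
theorem den_mono {G G' : Finset Γ} (h : G ⊆ G') (p : X × Cfg Γ) (q : ℕ × Γ) :
    den G p q ≤ den G' p q := by
  classical
  unfold den
  exact Finset.sum_le_sum_of_subset_of_nonneg h (fun g _ _ => AC1_term_nonneg p q g)

end PartAC1

section PartAC2

open scoped ENNReal Topology ZeroAtInfty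
open Filter Topology Set

variable {Γ X : Type} [Group Γ] [TopologicalSpace X] [MulAction Γ X]

/-- PROOF: for `p ∈ K` choose a representative set `F_p` (`exists_isRep`) and put
`G_p = {q.2 | q ∈ F_p}`. By `isRep_nhds` (and activity) for `p'` in a neighbourhood of `p` the set
`F_p` is a representative set for `p'` and `den G_p p' q > 0` for `q ∈ F_p` (`den_pos`). By compactness
finitely many neighbourhoods cover `K`; `G` = union of their `G_p`; `den_mono`. -/
theorem exists_good_G [T2Space X] [ContinuousConstSMul Γ X] {f : ℕ → X → ℝ} {k : ℕ}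
    {K : Set (boxS f k : InvSet Γ (X × Cfg Γ)).Pt} (hK : IsCompact K) :
    ∃ G : Finset Γ, ∀ p ∈ K, ∃ F : Finset (ℕ × Γ),
      IsRep ((boxS f k : InvSet Γ (X × Cfg Γ)).val p) F ∧ F.card = k + 1 ∧
      (∀ q ∈ F, q.2 ∈ G) ∧ ∀ q ∈ F, 0 < den G ((boxS f k : InvSet Γ (X × Cfg Γ)).val p) q := by
  classical
  have h0 : ∀ p : (boxS f k : InvSet Γ (X × Cfg Γ)).Pt, ∃ F : Finset (ℕ × Γ),
      IsRep ((boxS f k : InvSet Γ (X × Cfg Γ)).val p) F ∧ F.card = k + 1 := fun p =>
    exists_isRep ((boxS f k : InvSet Γ (X × Cfg Γ)).val_mem p).2.1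
      ((boxS f k : InvSet Γ (X × Cfg Γ)).val_mem p).2.2
  choose Fp hFp hcp using h0
  have h1 : ∀ p ∈ K, {p' | IsRep ((boxS f k : InvSet Γ (X × Cfg Γ)).val p') (Fp p)} ∈ 𝓝 p :=
    fun p _ => isRep_nhds p (hFp p) (hcp p)
  obtain ⟨t, _, ht⟩ := hK.elim_nhds_subcover
    (fun p => {p' | IsRep ((boxS f k : InvSet Γ (X × Cfg Γ)).val p') (Fp p)}) h1
  refine ⟨t.biUnion fun p => (Fp p).image Prod.snd, fun p hp => ?_⟩
  obtain ⟨p₀, hp₀, hp₁⟩ := mem_iUnion₂.1 (ht hp)
  have hrep : IsRep ((boxS f k : InvSet Γ (X × Cfg Γ)).val p) (Fp p₀) := hp₁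
  have hG : ∀ q ∈ Fp p₀, q.2 ∈ t.biUnion fun p => (Fp p).image Prod.snd := fun q hq =>
    Finset.mem_biUnion.2 ⟨p₀, hp₀, Finset.mem_image_of_mem _ hq⟩
  exact ⟨Fp p₀, hrep, hcp p₀, hG, fun q hq => den_pos (hrep.act q hq) (hG q hq)⟩

end PartAC2

section PartAC3

open scoped ENNReal Topology ZeroAtInfty
open Filter Topology Set

variable {Γ X : Type} [Group Γ] [TopologicalSpace X] [MulAction Γ X]

omit [TopologicalSpace X] [MulAction Γ X] in
private lemma AC3_wt_nonneg (p : X × Cfg Γ) (q : ℕ × Γ) : 0 ≤ wt p q := by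
  have h := p.2.co_mem q
  unfold wt
  exact le_min h.1 (by linarith [h.2])

omit [TopologicalSpace X] in
private lemma AC3_wt_smul (p : X × Cfg Γ) (h : Γ) (m : ℕ) (g : Γ) :
    wt (h • p) (m, g) = wt p (m, h⁻¹ * g) := rfl

omit [TopologicalSpace X] in
private lemma AC3_same_smul (p : X × Cfg Γ) (h : Γ) (m m' : ℕ) (g g' : Γ) :
    Same (h • p) (m, g) (m', g') ↔ Same p (m, h⁻¹ * g) (m', h⁻¹ * g') := by
  unfold Same
  have h1 : ∀ a : Γ, a⁻¹ • (h • p).1 = (h⁻¹ * a)⁻¹ • p.1 := by
    intro a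
    rw [mul_inv_rev, inv_inv, mul_smul]
    rfl
  simp only [h1]

omit [TopologicalSpace X] in
/-- PROOF: `avg ≥ 0`; support: `μ y (g⁻¹ c) ≠ 0 → g⁻¹ c ∈ S → c ∈ G S`; sum: interchange the sums:
`∑_{c} num G μ p q c = ∑_{g ∈ G, Same} wt * ∑_c μ(g⁻¹ x)(g⁻¹ c) = den G p q`, so
`∑_c avg = (F.card)⁻¹ * ∑_{q ∈ F} 1 = 1`. -/
theorem isProb_avg [DecidableEq Γ] {G S : Finset Γ} {μ : X → Γ → ℝ} (hμ : ∀ y, IsProb S (μ y))
    {F : Finset (ℕ × Γ)} (hF : F.Nonempty) {p : X × Cfg Γ} (hd : ∀ q ∈ F, 0 < den G p q) :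
    IsProb (Finset.image₂ (· * ·) G S) (avg G μ F p) := by
  classical
  have hnum0 : ∀ q c, 0 ≤ num G μ p q c := by
    intro q c
    unfold num
    refine Finset.sum_nonneg fun g _ => ?_
    split_ifs
    · exact mul_nonneg (AC3_wt_nonneg p _) ((hμ _).nonneg _)
    · exact le_rfl
  refine ⟨fun c => ?_, fun c hc => ?_, ?_⟩
  · unfold avg
    exact mul_nonneg (by positivity)
      (Finset.sum_nonneg fun q hq => div_nonneg (hnum0 q c) (hd q hq).le)
  · have h1 : ∀ q, num G μ p q c = 0 := by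
      intro q
      unfold num
      refine Finset.sum_eq_zero fun g hg => ?_
      split_ifs
      · rw [(hμ (g⁻¹ • p.1)).supp (g⁻¹ * c), mul_zero]
        intro h
        apply hc
        rw [Finset.mem_image₂]
        exact ⟨g, hg, g⁻¹ * c, h, by simp⟩
      · rfl
    unfold avg
    simp [h1]
  · have hsum : ∀ q, ∑ c ∈ Finset.image₂ (· * ·) G S, num G μ p q c = den G p q := by
      intro q
      unfold num den
      rw [Finset.sum_comm]
      refine Finset.sum_congr rfl fun g hg => ?_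
      by_cases hS : Same p (q.1, g) q
      · simp only [if_pos hS]
        rw [← Finset.mul_sum]
        have h2 : ∑ c ∈ Finset.image₂ (· * ·) G S, μ (g⁻¹ • p.1) (g⁻¹ * c) =
            ∑ c ∈ S, μ (g⁻¹ • p.1) c := by
          rw [← Finset.sum_subset (s₁ := S.image (g * ·))]
          · rw [Finset.sum_image (fun a _ b _ hab => mul_left_cancel hab)]
            simp
          · intro c hc
            obtain ⟨s, hs, rfl⟩ := Finset.mem_image.1 hc
            exact Finset.mem_image₂.2 ⟨g, hg, s, hs, rfl⟩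
          · intro c _ hc
            refine (hμ (g⁻¹ • p.1)).supp (g⁻¹ * c) fun h => hc ?_
            exact Finset.mem_image.2 ⟨g⁻¹ * c, h, by simp⟩
        rw [h2, (hμ _).sum, mul_one]
      · simp only [if_neg hS, Finset.sum_const_zero]
    unfold avg
    rw [← Finset.mul_sum, Finset.sum_comm]
    have h3 : ∀ q ∈ F, ∑ c ∈ Finset.image₂ (· * ·) G S, num G μ p q c / den G p q = 1 := by
      intro q hq
      rw [← Finset.sum_div, hsum, div_self (hd q hq).ne']
    rw [Finset.sum_congr rfl h3, Finset.sum_const, nsmul_eq_mul, mul_one]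
    have hF0 : (F.card : ℝ) ≠ 0 := by
      have := hF.card_pos
      positivity
    exact inv_mul_cancel₀ hF0

omit [TopologicalSpace X] in
/-- PROOF: substitution `g = h g'` in the sums: `Same (h • p) (m, h g') (m, h g₀) ↔ Same p (m, g')
(m, g₀)`, `wt (h • p) (m, h g') = wt p (m, g')` (`Cfg.smul_co`), `(h g')⁻¹ (h x) = g'⁻¹ x`,
`(h g')⁻¹ c = g'⁻¹ (h⁻¹ c)`. -/
theorem avg_smul [DecidableEq Γ] (G : Finset Γ) (μ : X → Γ → ℝ) (F : Finset (ℕ × Γ))
    (p : X × Cfg Γ) (h : Γ) (c : Γ) :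
    avg G μ (F.image fun q => (q.1, h * q.2)) (h • p) c =
      avg (G.image fun g => h⁻¹ * g) μ F p (h⁻¹ * c) := by
  classical
  have hinj : Function.Injective fun g : Γ => h⁻¹ * g := fun a b hab => mul_left_cancel hab
  have hnum : ∀ q : ℕ × Γ, num G μ (h • p) (q.1, h * q.2) c =
      num (G.image fun g => h⁻¹ * g) μ p q (h⁻¹ * c) := by
    intro q
    unfold num
    rw [Finset.sum_image (fun a _ b _ hab => hinj hab)]
    refine Finset.sum_congr rfl fun g _ => ?_
    simp only [AC3_same_smul, AC3_wt_smul]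
    rw [inv_mul_cancel_left]
    have h1 : g⁻¹ • (h • p).1 = (h⁻¹ * g)⁻¹ • p.1 := by
      rw [mul_inv_rev, inv_inv, mul_smul]
      rfl
    have h2 : g⁻¹ * c = (h⁻¹ * g)⁻¹ * (h⁻¹ * c) := by group
    rw [h1, h2]
  have hden : ∀ q : ℕ × Γ, den G (h • p) (q.1, h * q.2) =
      den (G.image fun g => h⁻¹ * g) p q := by
    intro q
    unfold den
    rw [Finset.sum_image (fun a _ b _ hab => hinj hab)]
    refine Finset.sum_congr rfl fun g _ => ?_
    simp only [AC3_same_smul, AC3_wt_smul]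
    rw [inv_mul_cancel_left]
  have hinj' : Function.Injective fun q : ℕ × Γ => (q.1, h * q.2) := by
    rintro ⟨a, b⟩ ⟨a', b'⟩ hab
    simp only [Prod.mk.injEq, mul_right_inj] at hab
    exact Prod.ext hab.1 hab.2
  unfold avg
  rw [Finset.card_image_of_injective _ hinj', Finset.sum_image (fun a _ b _ hab => hinj' hab)]
  congr 1
  refine Finset.sum_congr rfl fun q _ => ?_
  rw [hnum, hden]

end PartAC3

section PartAC4

open scoped ENNReal Topology ZeroAtInfty
open Filter Topology Set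

variable {Γ X : Type} [Group Γ] [TopologicalSpace X] [MulAction Γ X]

omit [TopologicalSpace X] in
theorem AC4_wt_nonneg (p : X × Cfg Γ) (q : ℕ × Γ) : 0 ≤ wt p q := by
  unfold wt
  have h := (p.2 q).2
  rw [Set.mem_Icc] at h
  exact le_min h.1 (by unfold Cfg.co; linarith)

theorem AC4_supp {S : Finset Γ} {m : Γ → ℝ} (hm : IsProb S m) : (Function.support m).Finite := by
  apply S.finite_toSet.subset
  intro g hg
  by_contra hcon
  exact hg (hm.supp g hcon)

theorem AC4_supp_tr {S : Finset Γ} {m : Γ → ℝ} (hm : IsProb S m) (h : Γ) :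
    (Function.support (tr h m)).Finite := by
  classical
  exact AC4_supp (hm.tr h)

/-- distance between averages with the same weights -/
theorem AC4_dist1_sum {ι : Type} (I : Finset ι) (w : ι → ℝ) (hw : ∀ i ∈ I, 0 ≤ w i)
    (m m' : ι → Γ → ℝ) (hm : ∀ i ∈ I, (Function.support (m i)).Finite)
    (hm' : ∀ i ∈ I, (Function.support (m' i)).Finite) {ε : ℝ}
    (h : ∀ i ∈ I, dist1 (m i) (m' i) ≤ ε) :
    dist1 (fun g => ∑ i ∈ I, w i * m i g) (fun g => ∑ i ∈ I, w i * m' i g)
      ≤ (∑ i ∈ I, w i) * ε := by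
  have hfin : ∀ i ∈ I, (Function.support fun g => w i * |m i g - m' i g|).Finite := by
    intro i hi
    apply ((hm i hi).union (hm' i hi)).subset
    intro g hg
    by_contra hcon
    rw [Set.mem_union, not_or, Function.notMem_support, Function.notMem_support] at hcon
    apply hg
    simp only [hcon.1, hcon.2, sub_zero, abs_zero, mul_zero]
  have hsum : ∀ i ∈ I, Summable fun g => w i * |m i g - m' i g| :=
    fun i hi => summable_of_hasFiniteSupport (hfin i hi)
  have h1 : dist1 (fun g => ∑ i ∈ I, w i * m i g) (fun g => ∑ i ∈ I, w i * m' i g)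
      ≤ ∑' g, ∑ i ∈ I, w i * |m i g - m' i g| := by
    unfold dist1
    have hle : ∀ g : Γ, |∑ i ∈ I, w i * m i g - ∑ i ∈ I, w i * m' i g|
        ≤ ∑ i ∈ I, w i * |m i g - m' i g| := by
      intro g
      rw [← Finset.sum_sub_distrib]
      refine (Finset.abs_sum_le_sum_abs _ _).trans (Finset.sum_le_sum fun i hi => ?_)
      rw [← mul_sub, abs_mul, abs_of_nonneg (hw i hi)]
    have hs2 : Summable fun g => ∑ i ∈ I, w i * |m i g - m' i g| := summable_sum hsum
    exact (Summable.of_nonneg_of_le (fun g => abs_nonneg _) hle hs2).tsum_le_tsum hle hs2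
  rw [Summable.tsum_finsetSum hsum] at h1
  refine h1.trans ?_
  rw [Finset.sum_mul]
  refine Finset.sum_le_sum fun i hi => ?_
  rw [tsum_mul_left]
  exact mul_le_mul_of_nonneg_left (h i hi) (hw i hi)

omit [TopologicalSpace X] in
/-- one class: `num / den` is close to the translate of `μ y` -/
theorem AC4_class {G S : Finset Γ} {μ : X → Γ → ℝ} (hμ : ∀ y, IsProb S (μ y))
    {p : X × Cfg Γ} {q : ℕ × Γ} (hd : 0 < den G p q) {ε : ℝ} {g₀ : Γ}
    (hg₀ : g₀⁻¹ • p.1 = q.2⁻¹ • p.1)
    (h : ∀ g ∈ G, g₀⁻¹ • p.1 = g⁻¹ • p.1 →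
      dist1 (tr (g₀⁻¹ * g) (μ (g₀⁻¹ • p.1))) (μ (g₀⁻¹ • p.1)) ≤ ε) :
    (Function.support fun c => num G μ p q c / den G p q).Finite ∧
    dist1 (fun c => num G μ p q c / den G p q) (tr g₀ (μ (g₀⁻¹ • p.1))) ≤ ε := by
  classical
  set w : Γ → ℝ := fun g => (if Same p (q.1, g) q then wt p (q.1, g) else 0) / den G p q with hw
  set m : Γ → Γ → ℝ := fun g => tr g (μ (g⁻¹ • p.1)) with hm
  have heq : (fun c => num G μ p q c / den G p q) = fun c => ∑ g ∈ G, w g * m g c := by
    funext c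
    unfold num
    rw [Finset.sum_div]
    refine Finset.sum_congr rfl fun g _ => ?_
    simp only [hw, hm, tr]
    split_ifs with hs
    · ring
    · simp
  have hw0 : ∀ g ∈ G, 0 ≤ w g := by
    intro g _
    simp only [hw]
    apply div_nonneg _ hd.le
    split_ifs
    · exact AC4_wt_nonneg p _
    · exact le_refl 0
  have hw1 : ∑ g ∈ G, w g = 1 := by
    simp only [hw]
    rw [← Finset.sum_div]
    have : den G p q = ∑ g ∈ G, if Same p (q.1, g) q then wt p (q.1, g) else 0 := by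
      unfold den
      refine Finset.sum_congr rfl fun g _ => ?_
      split_ifs <;> rfl
    rw [← this]
    exact div_self hd.ne'
  have hsup : ∀ g ∈ G, (Function.support (m g)).Finite := fun g _ => AC4_supp_tr (hμ _) g
  constructor
  · rw [heq]
    apply (G.finite_toSet.biUnion fun g hg => hsup g (by exact_mod_cast hg)).subset
    intro c hc
    rw [Function.mem_support] at hc
    obtain ⟨g, hg, hne⟩ := Finset.exists_ne_zero_of_sum_ne_zero hc
    rw [Set.mem_iUnion₂]
    exact ⟨g, by exact_mod_cast hg, fun h0 => hne (by rw [h0, mul_zero])⟩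
  · rw [heq]
    apply dist1_avg_le G w hw0 hw1 m hsup _ (AC4_supp_tr (hμ _) g₀)
    intro g hg hne
    have hsame : Same p (q.1, g) q := by
      by_contra hcon
      apply hne
      simp only [hw]
      rw [if_neg hcon, zero_div]
    have hgy : g₀⁻¹ • p.1 = g⁻¹ • p.1 := by
      rw [hg₀]
      exact hsame.2.symm
    have h1 := h g hg hgy
    have h2 : m g = tr g₀ (tr (g₀⁻¹ * g) (μ (g₀⁻¹ • p.1))) := by
      funext c
      simp only [hm, tr]
      rw [← hgy]
      congr 1
      group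
    rw [h2, dist1_tr]
    exact h1

omit [TopologicalSpace X] in
/-- PROOF: for `q ∈ F` (active, so pick `g_q ∈ G` with `Same p (q.1, g_q) q` and `wt p (q.1, g_q) > 0`:
exists since `den G p q > 0`). The function `c ↦ num G μ p q c / den G p q` is a convex combination of
the measures `tr g μ(g⁻¹ x)`, over `g ∈ G` in the class of `q`, with `g⁻¹ x = g_q⁻¹ x = y`; each is
`ε`-close to `tr g_q (μ y)`: with `η = g_q⁻¹ g`, `η y = y`, `tr g (μ y) = tr g_q (tr η (μ y))`,
`dist1_tr`. By `dist1_avg_le` it is `ε`-close to `tr g_q (μ y)`; the same for `G'`. So their distance is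
`≤ 2 ε`, and the average over `F` as well. -/
theorem dist1_avg_avg {G G' S : Finset Γ} {μ : X → Γ → ℝ} (hμ : ∀ y, IsProb S (μ y))
    {F : Finset (ℕ × Γ)} (hF : F.Nonempty) {p : X × Cfg Γ} (hd : ∀ q ∈ F, 0 < den G p q)
    (hd' : ∀ q ∈ F, 0 < den G' p q) {ε : ℝ}
    (h : ∀ g ∈ G, ∀ g' ∈ (G : Set Γ) ∪ G', g⁻¹ • p.1 = g'⁻¹ • p.1 →
      dist1 (tr (g⁻¹ * g') (μ (g⁻¹ • p.1))) (μ (g⁻¹ • p.1)) ≤ ε) :
    dist1 (avg G μ F p) (avg G' μ F p) ≤ 2 * ε := by
  classical
  have hkey : ∀ q ∈ F, ((Function.support fun c => num G μ p q c / den G p q).Finite ∧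
      (Function.support fun c => num G' μ p q c / den G' p q).Finite) ∧
      dist1 (fun c => num G μ p q c / den G p q) (fun c => num G' μ p q c / den G' p q)
        ≤ 2 * ε := by
    intro q hq
    have hex : ∃ g₀ ∈ G, Same p (q.1, g₀) q := by
      by_contra hcon
      push Not at hcon
      have : den G p q = 0 := by
        unfold den
        refine Finset.sum_eq_zero fun g hg => ?_
        rw [if_neg (hcon g hg)]
      exact absurd (hd q hq) (by rw [this]; exact lt_irrefl _)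
    obtain ⟨g₀, hg₀, hsame⟩ := hex
    have e1 := AC4_class hμ (hd q hq) (ε := ε) (g₀ := g₀) hsame.2 (fun g hg hgy =>
      h g₀ hg₀ g (Or.inl (by exact_mod_cast hg)) hgy)
    have e2 := AC4_class hμ (hd' q hq) (ε := ε) (g₀ := g₀) hsame.2 (fun g hg hgy =>
      h g₀ hg₀ g (Or.inr (by exact_mod_cast hg)) hgy)
    refine ⟨⟨e1.1, e2.1⟩, ?_⟩
    have h3 := dist1_triangle e1.1 (AC4_supp_tr (hμ (g₀⁻¹ • p.1)) g₀) e2.1
    have h4 := e2.2
    rw [dist1_comm] at h4
    linarith [e1.2]
  have hcard : (0 : ℝ) < F.card := by exact_mod_cast hF.card_pos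
  have h1 := AC4_dist1_sum F (fun _ => (F.card : ℝ)⁻¹) (fun _ _ => by positivity)
    (fun q c => num G μ p q c / den G p q) (fun q c => num G' μ p q c / den G' p q)
    (fun q hq => (hkey q hq).1.1) (fun q hq => (hkey q hq).1.2) (fun q hq => (hkey q hq).2)
  have e1 : avg G μ F p = fun c => ∑ q ∈ F, (F.card : ℝ)⁻¹ * (num G μ p q c / den G p q) := by
    funext c
    unfold avg
    rw [Finset.mul_sum]
  have e2 : avg G' μ F p = fun c => ∑ q ∈ F, (F.card : ℝ)⁻¹ * (num G' μ p q c / den G' p q) := by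
    funext c
    unfold avg
    rw [Finset.mul_sum]
  rw [e1, e2]
  refine h1.trans (le_of_eq ?_)
  rw [Finset.sum_const, nsmul_eq_mul, mul_inv_cancel₀ hcard.ne', one_mul]

end PartAC4

section PartAC5

open scoped ENNReal Topology ZeroAtInfty
open Filter Topology Set

variable {Γ X : Type} [Group Γ] [TopologicalSpace X] [MulAction Γ X]

omit [TopologicalSpace X] in
theorem AC5_same_symm {p : X × Cfg Γ} {q q' : ℕ × Γ} (h : Same p q q') : Same p q' q :=
  ⟨h.1.symm, h.2.symm⟩

omit [TopologicalSpace X] in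
theorem AC5_same_trans {p : X × Cfg Γ} {q q' q'' : ℕ × Γ} (h : Same p q q')
    (h' : Same p q' q'') : Same p q q'' :=
  ⟨h.1.trans h'.1, h.2.trans h'.2⟩

omit [TopologicalSpace X] in
theorem AC5_den_congr {G : Finset Γ} {p : X × Cfg Γ} {q q' : ℕ × Γ} (h : Same p q q') :
    den G p q = den G p q' := by
  obtain ⟨m, g₁⟩ := q
  obtain ⟨m', g₂⟩ := q'
  have hm : m = m' := h.1
  subst hm
  unfold den
  refine Finset.sum_congr rfl fun g _ => ?_
  by_cases hs : Same p (m, g) (m, g₁)
  · rw [if_pos hs, if_pos (AC5_same_trans hs h)]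
  · rw [if_neg hs, if_neg fun h2 => hs (AC5_same_trans h2 (AC5_same_symm h))]

omit [TopologicalSpace X] in
theorem AC5_good {G : Finset Γ} {p : X × Cfg Γ} {F F' : Finset (ℕ × Γ)} (h : IsRep p F)
    (h' : IsRep p F') (hd : ∀ q ∈ F, 0 < den G p q) : ∀ q ∈ F', 0 < den G p q := by
  intro q hq
  obtain ⟨q', hq', hs⟩ := h.surj q (h'.act q hq)
  rw [AC5_den_congr hs]
  exact hd q' hq'

omit [TopologicalSpace X] in
theorem AC5_act_smul {p : X × Cfg Γ} {h : Γ} {q : ℕ × Γ} :
    Act (h • p) (q.1, h * q.2) ↔ Act p q := by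
  have h1 : (h • p).2.co (q.1, h * q.2) = p.2.co q := by
    have h2 : (h • p).2 = h • p.2 := rfl
    rw [h2, Cfg.smul_co, inv_mul_cancel_left]
  unfold Act
  rw [h1]

omit [TopologicalSpace X] in
theorem AC5_wt_smul {p : X × Cfg Γ} {h : Γ} {m : ℕ} {g : Γ} :
    wt (h • p) (m, g) = wt p (m, h⁻¹ * g) := by
  have h1 : (h • p).2.co (m, g) = p.2.co (m, h⁻¹ * g) := rfl
  unfold wt
  rw [h1]

omit [TopologicalSpace X] in
theorem AC5_same_smul {p : X × Cfg Γ} {h : Γ} {m m' : ℕ} {g g' : Γ} :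
    Same (h • p) (m, g) (m', g') ↔ Same p (m, h⁻¹ * g) (m', h⁻¹ * g') := by
  have h2 : ∀ g : Γ, g⁻¹ • (h • p).1 = (h⁻¹ * g)⁻¹ • p.1 := by
    intro g
    rw [mul_inv_rev, inv_inv, mul_smul]
    rfl
  unfold Same
  simp only [h2]

omit [TopologicalSpace X] in
theorem AC5_rep_smul [DecidableEq Γ] {p : X × Cfg Γ} {F : Finset (ℕ × Γ)} (hF : IsRep p F)
    (h : Γ) : IsRep (h • p) (F.image fun q => (q.1, h * q.2)) := by
  refine ⟨?_, ?_, ?_⟩
  · intro q hq
    obtain ⟨q', hq', rfl⟩ := Finset.mem_image.1 hq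
    exact AC5_act_smul.2 (hF.act q' hq')
  · intro q hq q' hq' hs
    obtain ⟨r, hr, rfl⟩ := Finset.mem_image.1 hq
    obtain ⟨r', hr', rfl⟩ := Finset.mem_image.1 hq'
    have h1 := AC5_same_smul.1 hs
    rw [inv_mul_cancel_left, inv_mul_cancel_left] at h1
    rw [hF.inj r hr r' hr' h1]
  · intro q hq
    have h1 : q = (q.1, h * (h⁻¹ * q.2)) := by rw [mul_inv_cancel_left]
    have h2 : Act p (q.1, h⁻¹ * q.2) := by
      rw [h1] at hq
      exact AC5_act_smul (q := (q.1, h⁻¹ * q.2)).1 hq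
    obtain ⟨q', hq', hs⟩ := hF.surj _ h2
    refine ⟨(q'.1, h * q'.2), Finset.mem_image.2 ⟨q', hq', rfl⟩, ?_⟩
    apply AC5_same_smul.2
    rw [inv_mul_cancel_left]
    exact hs

omit [TopologicalSpace X] in
theorem AC5_den_smul [DecidableEq Γ] (G : Finset Γ) (p : X × Cfg Γ) (q : ℕ × Γ) (h : Γ) :
    den G (h • p) (q.1, h * q.2) = den (G.image fun g => h⁻¹ * g) p q := by
  unfold den
  rw [Finset.sum_image fun a _ b _ hab => mul_left_cancel hab]
  refine Finset.sum_congr rfl fun g _ => ?_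
  have h1 : Same (h • p) (q.1, g) (q.1, h * q.2) ↔ Same p (q.1, h⁻¹ * g) q := by
    rw [AC5_same_smul, inv_mul_cancel_left]
  by_cases hs : Same p (q.1, h⁻¹ * g) q
  · rw [if_pos hs, if_pos (h1.2 hs), AC5_wt_smul]
  · rw [if_neg hs, if_neg fun h2 => hs (h1.1 h2)]

theorem AC5_locallyCompact [T2Space X] [LocallyCompactSpace X] [ContinuousConstSMul Γ X]
    {f : ℕ → X → ℝ} (hf : ∀ m, Continuous (f m)) (k : ℕ) :
    LocallyCompactSpace (boxS f k : InvSet Γ (X × Cfg Γ)).Pt := by
  apply InvSet.locallyCompactSpace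
  rw [boxS_eq_diff, sdiff_eq]
  exact (isClosed_boxR hf (k + 1)).isLocallyClosed.inter
    (isClosed_boxR hf k).isOpen_compl.isLocallyClosed

omit [Group Γ] in
theorem AC5_prob_bound {S : Finset Γ} {m : Γ → ℝ} (h : IsProb S m) (g : Γ) :
    |m g| ≤ 1 := by
  rw [abs_of_nonneg (h.nonneg g)]
  by_cases hg : g ∈ S
  · rw [← h.sum]
    exact Finset.single_le_sum (fun i _ => h.nonneg i) hg
  · rw [h.supp g hg]
    exact zero_le_one

/-- THE STRATA ARE AMENABLE. PROOF. Write `S = (boxS f k).Pt`, locally compact Hausdorff. Let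
`K ⊆ S` be compact, `F₀ ⊆ Γ` finite, `ε > 0`. `K' = K ∪ ⋃_{h ∈ F₀} h K` is compact. `G` from
`exists_good_G` for `K'`. `G₁ = {g⁻¹ g' | g ∈ G, g' ∈ G ∪ ⋃_{h ∈ F₀} h⁻¹ G}` is finite and
`K_X = ⋃_{g ∈ G} g⁻¹ pr_X(K)` is compact. `exists_isotropy_measures` for `K_X`, `G₁`, `ε/2` gives
`S₁`, `μ`. For `p ∈ S` let `F_p` be a representative set (`exists_isRep`), and
`M(p) = avg G μ F_p p`. The set `U = {p | ∀ q ∈ F_p, 0 < den G p q}` is open and `M` is continuous on it
(near to `p` one may use the fixed set `F_p` by `isRep_nhds` and `avg_eq_of_isRep`; and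
`continuousAt_num`; the positivity does not depend on the choice of representatives either), and
`K' ⊆ U`. Urysohn: a continuous `χ : S → [0,1]`, `χ = 1` on `K'`, with support in `U`
(`exists_continuous_one_zero_of_isCompact`...). Put `m(p) = χ(p) M(p) + (1 - χ(p)) δ_1` (`M(p)`
replaced by `0` off `U`); continuous, probability measures supported in `G S₁ ∪ {1}`
(`isProb_avg`). For `p ∈ K`, `h ∈ F₀`: `m(h p) = avg G μ F_{hp} (h p) = avg G μ (h F_p) (h p)
= tr h (avg (h⁻¹ G) μ F_p p)` (`avg_smul`, `avg_eq_of_isRep`) and by `dist1_avg_avg` (with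
`G' = h⁻¹ G`; its `den` is the `den` of `h p`) `dist1 (m(hp)) (tr h (m p)) ≤ 2 (ε/2)`. -/
theorem amenable_boxS [T2Space X] [LocallyCompactSpace X] [ContinuousConstSMul Γ X]
    (hamen : ∀ x : X, AmenableGroup (MulAction.stabilizer Γ x)) {f : ℕ → X → ℝ}
    (hf : ∀ m, Continuous (f m)) (k : ℕ) :
    AmenableAction Γ (boxS f k : InvSet Γ (X × Cfg Γ)).Pt := by
  classical
  have hlc := AC5_locallyCompact (Γ := Γ) hf k
  set B : InvSet Γ (X × Cfg Γ) := boxS f k with hB
  intro K F₀ ε hK hε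
  -- representative sets
  have hrep : ∀ p : B.Pt, ∃ F : Finset (ℕ × Γ), IsRep (B.val p) F ∧ F.card = k + 1 := by
    intro p
    have h1 := B.val_mem p
    exact exists_isRep h1.2.1 h1.2.2
  choose R hR hRc using hrep
  -- the compact sets
  set K' : Set B.Pt := K ∪ ⋃ h ∈ F₀, (fun p : B.Pt => h • p) '' K with hK'
  have hK'c : IsCompact K' :=
    hK.union (F₀.isCompact_biUnion fun h _ => hK.image (continuous_const_smul h))
  obtain ⟨G, hG⟩ := exists_good_G hK'c
  set G₁ : Finset Γ := Finset.image₂ (fun g g' => g⁻¹ * g') G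
    (G ∪ F₀.biUnion fun h => G.image fun g => h⁻¹ * g) with hG₁
  set KX : Set X := ⋃ g ∈ G, (fun p : B.Pt => g⁻¹ • (B.val p).1) '' K with hKX
  have hKXc : IsCompact KX := G.isCompact_biUnion fun g _ =>
    hK.image (f := fun p : B.Pt => g⁻¹ • (B.val p).1)
      ((continuous_fst.comp B.continuous_val).const_smul g⁻¹)
  obtain ⟨S₁, μ, hμc, hμp, hμi⟩ := exists_isotropy_measures hamen hKXc G₁ (half_pos hε)
  have hb : ∀ y g, |μ y g| ≤ 1 := fun y g => AC5_prob_bound (hμp y) g
  set M : B.Pt → Γ → ℝ := fun p => avg G μ (R p) (B.val p) with hM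
  set U : Set B.Pt := {p | ∀ q ∈ R p, 0 < den G (B.val p) q} with hU
  -- near to p one may use the fixed set
  have hnear : ∀ p : B.Pt, ∀ᶠ p' in 𝓝 p, IsRep (B.val p') (R p) :=
    fun p => isRep_nhds p (hR p) (hRc p)
  have hUo : IsOpen U := by
    rw [isOpen_iff_mem_nhds]
    intro p hp
    have h1 : ∀ᶠ p' in 𝓝 p, ∀ q ∈ R p, 0 < den G (B.val p') q := by
      rw [Filter.eventually_all_finset]
      intro q hq
      have h2 := (continuousAt_num G hμc hb p (hR p) (hRc p) hq 1).2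
      exact h2.eventually (lt_mem_nhds (hp q hq))
    filter_upwards [h1, hnear p] with p' h2 h3
    exact AC5_good h3 (hR p') h2
  have hMc : ∀ p ∈ U, ∀ c, ContinuousAt (fun p' => M p' c) p := by
    intro p hp c
    have h1 : ContinuousAt (fun p' => avg G μ (R p) (B.val p') c) p := by
      unfold avg
      refine ContinuousAt.mul continuousAt_const ?_
      refine tendsto_finsetSum _ fun q hq => ?_
      have h2 := continuousAt_num G hμc hb p (hR p) (hRc p) hq c
      exact Tendsto.div h2.1 h2.2 (hp q hq).ne'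
    refine h1.congr ?_
    filter_upwards [hnear p] with p' h3
    exact avg_eq_of_isRep h3 (hR p') c
  have hK'U : K' ⊆ U := by
    intro p hp
    obtain ⟨F, hF, _, _, hd⟩ := hG p hp
    exact AC5_good hF (hR p) hd
  -- the cutoff function
  obtain ⟨L, hLc, hKL, hLU⟩ := exists_compact_between hK'c hUo hK'U
  obtain ⟨χ, hχ1, hχ0, -, hχ⟩ := exists_continuous_one_zero_of_isCompact hK'c
    (isOpen_interior (s := L)).isClosed_compl (disjoint_compl_right_iff_subset.2 hKL)
  have hχU : ∀ p ∉ L, ∀ᶠ p' in 𝓝 p, χ p' = 0 := by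
    intro p hp
    filter_upwards [hLc.isClosed.isOpen_compl.mem_nhds hp] with p' hp'
    exact hχ0 (fun h => hp' (interior_subset h))
  have hRne : ∀ p, (R p).Nonempty := fun p => by
    rw [← Finset.card_pos, hRc p]
    exact Nat.succ_pos k
  have hMp : ∀ p ∈ U, IsProb (Finset.image₂ (· * ·) G S₁) (M p) := fun p hp =>
    isProb_avg hμp (hRne p) hp
  set S' : Finset Γ := insert 1 (Finset.image₂ (· * ·) G S₁) with hS'
  have hMp' : ∀ p ∈ U, IsProb S' (M p) := by
    intro p hp
    have h1 := hMp p hp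
    refine ⟨h1.nonneg, fun g hg => h1.supp g fun h2 => hg (Finset.mem_insert_of_mem h2), ?_⟩
    rw [← h1.sum]
    symm
    apply Finset.sum_subset (Finset.subset_insert _ _)
    intro g _ hg
    exact h1.supp g hg
  have hχout : ∀ p ∉ U, χ p = 0 := fun p hp => (hχU p fun h => hp (hLU h)).self_of_nhds
  refine ⟨S', fun p c => χ p * M p c + (1 - χ p) * (if c = 1 then 1 else 0), ?_, ?_, ?_, ?_, ?_⟩
  · intro c
    rw [continuous_iff_continuousAt]
    intro p
    have hχc : ContinuousAt (fun p => χ p) p := χ.continuous.continuousAt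
    refine ContinuousAt.add ?_ ((continuousAt_const.sub hχc).mul continuousAt_const)
    by_cases hp : p ∈ L
    · exact hχc.mul (hMc p (hLU hp) c)
    · refine (continuousAt_const (y := (0 : ℝ))).congr ?_
      filter_upwards [hχU p hp] with p' hp'
      rw [hp', zero_mul]
  · intro p c
    have h1 := hχ p
    have h2 : (0 : ℝ) ≤ if c = 1 then 1 else 0 := by split_ifs <;> norm_num
    refine add_nonneg ?_ (mul_nonneg (by linarith [h1.2]) h2)
    by_cases hp : p ∈ U
    · exact mul_nonneg h1.1 ((hMp' p hp).nonneg c)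
    · rw [hχout p hp, zero_mul]
  · intro p c hc
    have h1 : c ≠ 1 := fun h => hc (by rw [h]; exact Finset.mem_insert_self _ _)
    change χ p * M p c + (1 - χ p) * (if c = 1 then 1 else 0) = 0
    rw [if_neg h1, mul_zero, add_zero]
    by_cases hp : p ∈ U
    · rw [(hMp' p hp).supp c hc, mul_zero]
    · rw [hχout p hp, zero_mul]
  · intro p
    rw [Finset.sum_add_distrib, ← Finset.mul_sum, ← Finset.mul_sum, Finset.sum_ite_eq',
      if_pos (Finset.mem_insert_self _ _)]
    by_cases hp : p ∈ U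
    · rw [(hMp' p hp).sum]
      ring
    · rw [hχout p hp]
      ring
  · intro p hp h hh
    have hpK' : p ∈ K' := Or.inl hp
    have hhpK' : h • p ∈ K' := Or.inr (mem_biUnion hh ⟨p, hp, rfl⟩)
    have e1 : χ p = 1 := hχ1 hpK'
    have e2 : χ (h • p) = 1 := hχ1 hhpK'
    have hrs : IsRep (B.val (h • p)) ((R p).image fun q => (q.1, h * q.2)) :=
      AC5_rep_smul (hR p) h
    have e3 : M (h • p) = tr h (avg (G.image fun g => h⁻¹ * g) μ (R p) (B.val p)) := by
      funext c
      simp only [hM, tr]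
      rw [avg_eq_of_isRep (hR (h • p)) hrs, B.val_smul, avg_smul]
    have hd : ∀ q ∈ R p, 0 < den G (B.val p) q := hK'U hpK'
    have hd' : ∀ q ∈ R p, 0 < den (G.image fun g => h⁻¹ * g) (B.val p) q := by
      intro q hq
      rw [← AC5_den_smul]
      exact AC5_good (hR (h • p)) hrs (hK'U hhpK') _ (Finset.mem_image.2 ⟨q, hq, rfl⟩)
    have hmain := dist1_avg_avg (G := G) (G' := G.image fun g => h⁻¹ * g) hμp (hRne p) hd hd'
      (ε := ε / 2) (by
        intro g hg g' hg' hgg
        apply hμi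
        · exact mem_biUnion hg ⟨p, hp, rfl⟩
        · rw [hG₁]
          refine Finset.mem_image₂.2 ⟨g, hg, g', ?_, rfl⟩
          rcases hg' with h1 | h1
          · exact Finset.mem_union_left _ (by exact_mod_cast h1)
          · exact Finset.mem_union_right _ (Finset.mem_biUnion.2 ⟨h, hh, by exact_mod_cast h1⟩)
        · rw [mul_smul, hgg, smul_inv_smul]
          exact hgg)
    have hfin : dist1 (M (h • p)) (tr h (M p)) ≤ ε := by
      rw [e3, dist1_tr, dist1_comm]
      refine hmain.trans (le_of_eq ?_)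
      ring
    refine le_trans (le_of_eq ?_) hfin
    unfold dist1 tr
    refine tsum_congr fun c => ?_
    have e4 : ∀ q : B.Pt, χ q = 1 → ∀ c : Γ,
        χ q * M q c + (1 - χ q) * (if c = 1 then 1 else 0) = M q c := by
      intro q hq c
      rw [hq]
      ring
    change |(χ (h • p) * M (h • p) c + (1 - χ (h • p)) * (if c = 1 then 1 else 0)) -
      (χ p * M p (h⁻¹ * c) + (1 - χ p) * (if h⁻¹ * c = 1 then 1 else 0))| = _
    rw [e4 _ e2, e4 _ e1]

end PartAC5

end Pool.Agent.Lib.MP_aa9b81_an.Cut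
end
end

section

/-!
# Cutting theorem, part D
-/

noncomputable section

namespace Pool.Agent.Lib.MP_aa9b81_an.Cut

section PartDA1

open scoped ENNReal Topology ZeroAtInfty
open Filter Topology Set

variable {Γ X : Type} [Group Γ] [TopologicalSpace X] [MulAction Γ X]

/-- The functions of the sequence `f` have no common zero of type `F` in `K`. -/
def GPset (F : Finset (ℕ × Γ)) (K : Set X) : Set (ℕ → C₀(X, ℝ)) :=
  {f | ∀ x ∈ K, ∃ q ∈ F, f q.1 (q.2⁻¹ • x) ≠ 0}

/-- The coordinates in `F` give different pairs `(m, g⁻¹ x)`. -/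
def Dist (F : Finset (ℕ × Γ)) (x : X) : Prop :=
  ∀ q ∈ F, ∀ q' ∈ F, q.1 = q'.1 → q.2⁻¹ • x = q'.2⁻¹ • x → q = q'

/-- PROOF: finitely many conditions `q.2⁻¹ x ≠ q'.2⁻¹ x`, for `q ≠ q'` in `F`, `q.1 = q'.1`. -/
theorem isOpen_dist [T2Space X] [ContinuousConstSMul Γ X] (F : Finset (ℕ × Γ)) :
    IsOpen {x : X | Dist F x} := by
  have h1 : {x : X | Dist F x} = ⋂ q ∈ F, ⋂ q' ∈ F, {x : X | q.1 = q'.1 → q.2⁻¹ • x = q'.2⁻¹ • x → q = q'} := by
    ext x
    simp only [mem_iInter]
    exact Iff.rfl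
  rw [h1]
  apply isOpen_biInter_finset
  intro q _
  apply isOpen_biInter_finset
  intro q' _
  by_cases h2 : q.1 = q'.1 ∧ q ≠ q'
  · have h3 : {x : X | q.1 = q'.1 → q.2⁻¹ • x = q'.2⁻¹ • x → q = q'} = {x : X | q.2⁻¹ • x ≠ q'.2⁻¹ • x} := by
      ext x
      constructor
      · intro h hx
        exact h2.2 (h h2.1 hx)
      · intro h _ hx
        exact absurd hx h
    rw [h3]
    exact isOpen_ne_fun (continuous_const_smul _) (continuous_const_smul _)
  · have h3 : {x : X | q.1 = q'.1 → q.2⁻¹ • x = q'.2⁻¹ • x → q = q'} = univ := by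
      apply eq_univ_of_forall
      intro x h4 _
      by_contra h5
      exact h2 ⟨h4, h5⟩
    rw [h3]
    exact isOpen_univ

theorem DA1_continuous_eval (m : ℕ) (g : Γ) [ContinuousConstSMul Γ X] :
    Continuous (fun p : (ℕ → C₀(X, ℝ)) × X => p.1 m (g • p.2)) := by
  have h1 : Continuous (fun p : (ℕ → C₀(X, ℝ)) × X => ((p.1 m).toBCF, g • p.2)) := by
    apply Continuous.prodMk
    · exact (ZeroAtInftyContinuousMap.isometry_toBCF (α := X) (β := ℝ)).continuous.comp
        ((continuous_apply m).comp continuous_fst)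
    · exact (continuous_const_smul g).comp continuous_snd
  exact h1.fst.eval h1.snd

/-- PROOF: let `f ∈ GPset F K`. The continuous function `x ↦ ∑_{q ∈ F} |f q.1 (q.2⁻¹ x)|` is positive on
the compact set `K`, so `≥ c > 0` (if `K` is empty everything is in the set). If
`‖f' m - f m‖ < c / (F.card + 1)` for the finitely many `m = q.1`, `q ∈ F`, then `f' ∈ GPset F K`; this
is a neighbourhood of `f` in the product topology. -/
theorem isOpen_GPset [ContinuousConstSMul Γ X] (F : Finset (ℕ × Γ)) {K : Set X}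
    (hK : IsCompact K) : IsOpen (GPset F K) := by
  rw [isOpen_iff_mem_nhds]
  intro f hf
  have h1 : ∀ᶠ f' in 𝓝 f, ∀ x ∈ K, ∃ q ∈ F, f' q.1 (q.2⁻¹ • x) ≠ 0 := by
    apply hK.eventually_forall_of_forall_eventually
    intro x hx
    obtain ⟨q, hq, hne⟩ := hf x hx
    have h2 := (DA1_continuous_eval (X := X) q.1 q.2⁻¹).continuousAt (x := (f, x))
    filter_upwards [h2.eventually_ne hne] with p hp
    exact ⟨q, hq, hp⟩
  exact h1

end PartDA1

section PartDA2

open scoped ENNReal Topology ZeroAtInfty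
open Filter Topology Set

variable {Γ X : Type} [Group Γ] [TopologicalSpace X] [MulAction Γ X]

/-- density from approximation, uniformly in all coordinates -/
theorem DA2_dense {A : Set (ℕ → C₀(X, ℝ))}
    (h : ∀ (f : ℕ → C₀(X, ℝ)) (ε : ℝ), 0 < ε → ∃ f' ∈ A, ∀ m, dist (f' m) (f m) ≤ ε) : Dense A := by
  intro f
  have h1 : ∀ n : ℕ, ∃ f' ∈ A, ∀ m, dist (f' m) (f m) ≤ 1 / ((n : ℝ) + 1) :=
    fun n => h f _ (by positivity)
  choose F hF1 hF2 using h1
  apply mem_closure_of_tendsto (f := F) (b := atTop)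
  · rw [tendsto_pi_nhds]
    intro m
    rw [tendsto_iff_dist_tendsto_zero]
    exact squeeze_zero (fun _ => dist_nonneg) (fun n => hF2 n m) tendsto_one_div_add_atTop_nhds_zero_nat
  · exact Eventually.of_forall hF1

/-- the disjointness neighbourhood -/
theorem DA2_nhds [T2Space X] [ContinuousConstSMul Γ X] {F : Finset (ℕ × Γ)} {x₀ : X} (hx₀ : Dist F x₀) :
    ∃ t ∈ 𝓝 x₀, ∀ x ∈ t, ∀ x' ∈ t, ∀ q ∈ F, ∀ q' ∈ F, q.1 = q'.1 → q.2⁻¹ • x = q'.2⁻¹ • x' → q = q' := by
  have h1 : ∀ᶠ p : X × X in 𝓝 (x₀, x₀), ∀ q ∈ F, ∀ q' ∈ F, q.1 = q'.1 → q.2⁻¹ • p.1 = q'.2⁻¹ • p.2 → q = q' := by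
    rw [Finset.eventually_all]
    intro q hq
    rw [Finset.eventually_all]
    intro q' hq'
    by_cases h2 : q.1 = q'.1 ∧ q ≠ q'
    · have h3 : q.2⁻¹ • x₀ ≠ q'.2⁻¹ • x₀ := fun h => h2.2 (hx₀ q hq q' hq' h2.1 h)
      have h4 : Continuous (fun p : X × X => (q.2⁻¹ • p.1, q'.2⁻¹ • p.2)) :=
        ((continuous_const_smul _).comp continuous_fst).prodMk ((continuous_const_smul _).comp continuous_snd)
      have h5 : IsOpen {p : X × X | q.2⁻¹ • p.1 ≠ q'.2⁻¹ • p.2} :=
        isOpen_ne_fun h4.fst h4.snd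
      filter_upwards [h5.mem_nhds h3] with p hp _ hpe
      exact absurd hpe hp
    · apply Eventually.of_forall
      intro p h4 _
      by_contra h5
      exact h2 ⟨h4, h5⟩
  rw [nhds_prod_eq] at h1
  obtain ⟨t, ht, hts⟩ := mem_prod_self_iff.mp h1
  exact ⟨t, ht, fun x hx x' hx' => hts (mk_mem_prod hx hx')⟩

/-- cut off of a function on a compact set -/
theorem DA2_cut [T2Space X] {B : Set X} (hB : IsCompact B) (χ : C(X, ℝ)) (hχ0 : ∀ x, x ∉ interior B → χ x = 0)
    (hχ : ∀ x, χ x ∈ Icc (0 : ℝ) 1) (ε : ℝ) (G : C(B, ℝ)) (hG : ∀ x, |G x| ≤ ε) :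
    ∃ h : X → ℝ, Continuous h ∧ (∀ x (hx : x ∈ B), h x = χ x * G ⟨x, hx⟩) ∧ (∀ x, x ∉ B → h x = 0) ∧
      (∀ x, |h x| ≤ ε * χ x) := by
  classical
  refine ⟨fun x => if hx : x ∈ B then χ x * G ⟨x, hx⟩ else 0, ?_, ?_, ?_, ?_⟩
  swap
  · intro x hx
    exact dif_pos hx
  swap
  · intro x hx
    exact dif_neg hx
  swap
  · intro x
    by_cases hx : x ∈ B
    · show |dite _ _ _| ≤ _
      rw [dif_pos hx, abs_mul, abs_of_nonneg (hχ x).1, mul_comm]
      exact mul_le_mul_of_nonneg_right (hG _) (hχ x).1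
    · show |dite _ _ _| ≤ _
      rw [dif_neg hx, abs_zero, hχ0 x (fun h => hx (interior_subset h)), mul_zero]
  · have hle : ∀ x, |(if hx : x ∈ B then χ x * G ⟨x, hx⟩ else 0)| ≤ ε * χ x := by
      intro x
      by_cases hx : x ∈ B
      · rw [dif_pos hx, abs_mul, abs_of_nonneg (hχ x).1, mul_comm]
        exact mul_le_mul_of_nonneg_right (hG _) (hχ x).1
      · rw [dif_neg hx, abs_zero, hχ0 x (fun h => hx (interior_subset h)), mul_zero]
    rw [continuous_iff_continuousAt]
    intro x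
    by_cases hx : χ x = 0
    · have h0 : (if hx : x ∈ B then χ x * G ⟨x, hx⟩ else 0) = 0 := by
        have h1 := hle x
        have h2 : ε * χ x = 0 := by rw [hx, mul_zero]
        exact abs_nonpos_iff.mp (h1.trans h2.le)
      show Tendsto _ _ (𝓝 (if hx : x ∈ B then χ x * G ⟨x, hx⟩ else 0))
      rw [h0]
      apply squeeze_zero_norm (a := fun y => ε * χ y)
      · intro y
        rw [Real.norm_eq_abs]
        exact hle y
      · have h2 : Tendsto (fun y => ε * χ y) (𝓝 x) (𝓝 (ε * χ x)) :=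
          (continuous_const.mul χ.continuous).tendsto x
        rw [hx, mul_zero] at h2
        exact h2
    · have hxi : x ∈ interior B := by
        by_contra h
        exact hx (hχ0 x h)
      have hBn : B ∈ 𝓝 x := mem_interior_iff_mem_nhds.mp hxi
      have hcon : ContinuousOn (fun x => if hx : x ∈ B then χ x * G ⟨x, hx⟩ else 0) B := by
        rw [continuousOn_iff_continuous_domRestrict]
        have h3 : B.domRestrict (fun x => if hx : x ∈ B then χ x * G ⟨x, hx⟩ else 0) = fun y : B => χ y * G y := by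
          funext y
          show (if hx : (y : X) ∈ B then χ y * G ⟨y, hx⟩ else 0) = _
          rw [dif_pos y.2]
        rw [h3]
        exact (χ.continuous.comp continuous_subtype_val).mul G.continuous
      exact hcon.continuousAt hBn

/-- PERTURBATION. PROOF: choose a compact neighbourhood `B` of `x₀` such that
`q.2⁻¹ • B` and `q'.2⁻¹ • B` are disjoint for `q ≠ q'` in `F` with `q.1 = q'.1` (the points
`q.2⁻¹ x₀`, `q'.2⁻¹ x₀` are different: Hausdorff, continuity, `exists_compact_subset`), and a compact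
neighbourhood `B' ⊆ interior B` of `x₀`. Let `f` and `ε > 0` be given; we find `f' ∈ GPset F B'` with
`‖f' m - f m‖ ≤ ε` for all `m`: this shows that `GPset F B'` is dense (a basic neighbourhood of `f`
contains such `f'`). With a bijection `F ≃ Fin (d+1)` the map `x ↦ (f q.1 (q.2⁻¹ x))_q` on `B` has
values in `ℝ^(d+1)`; `DimLE X d` gives `g : B → ℝ^(d+1)` without zero, at distance `< ε`. Let
`χ : X → [0,1]` be continuous, `χ = 1` on `B'`, support in `interior B` (Urysohn). For `q ∈ F` let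
`h_q(x) = χ(x) (g_q(x) - f q.1 (q.2⁻¹ x))` on `B`, `0` off `B`: continuous with compact support,
`|h_q| ≤ ε`. Put `f' m (y) = f m y + ∑_{q ∈ F, q.1 = m} h_q(q.2 y)`. At a point `y` at most one summand
is not zero (if `q.2 y ∈ B` and `q'.2 y ∈ B` then `y` is in both translates), so `‖f' m - f m‖ ≤ ε`, and
for `x ∈ B'`, `q ∈ F`: `f' q.1 (q.2⁻¹ x) = f q.1 (q.2⁻¹ x) + h_q(x) = g_q(x)`, some `g_q(x) ≠ 0`. -/
theorem exists_dense_nhds [T2Space X] [LocallyCompactSpace X] [ContinuousConstSMul Γ X] {d : ℕ}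
    (hd : DimLE X d) {F : Finset (ℕ × Γ)} (hF : F.card = d + 1) {x₀ : X} (hx₀ : Dist F x₀) :
    ∃ B' : Set X, IsCompact B' ∧ B' ∈ 𝓝 x₀ ∧ Dense (GPset F B') := by
  classical
  obtain ⟨t, ht, hts⟩ := DA2_nhds hx₀
  obtain ⟨B, hBn, hBt, hBc⟩ := local_compact_nhds ht
  obtain ⟨B', hB'c, hB'x, hB'B⟩ := exists_compact_subset isOpen_interior (mem_interior_iff_mem_nhds.mpr hBn)
  refine ⟨B', hB'c, mem_interior_iff_mem_nhds.mp hB'x, ?_⟩
  obtain ⟨χ, hχ1, hχ0, _, hχ⟩ := exists_continuous_one_zero_of_isCompact hB'c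
    (isOpen_interior (s := B)).isClosed_compl (disjoint_compl_right_iff_subset.mpr hB'B)
  have hχ0' : ∀ x, x ∉ interior B → χ x = 0 := fun x hx => hχ0 hx
  have hχ1' : ∀ x ∈ B', χ x = 1 := fun x hx => hχ1 hx
  apply DA2_dense
  intro f ε hε
  let e : F ≃ Fin (d + 1) := F.equivFinOfCardEq hF
  let φ : C(B, Fin (d + 1) → ℝ) :=
    ⟨fun x i => f (e.symm i).1.1 ((e.symm i).1.2⁻¹ • (x : X)), by
      apply continuous_pi
      intro i
      exact (f (e.symm i).1.1).continuous.comp ((continuous_const_smul _).comp continuous_subtype_val)⟩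
  obtain ⟨g, hg1, hg2⟩ := hd B hBc φ ε hε
  have hh : ∀ i : Fin (d + 1), ∃ h : X → ℝ, Continuous h ∧
      (∀ x (hx : x ∈ B), h x = χ x * (g ⟨x, hx⟩ i - φ ⟨x, hx⟩ i)) ∧ (∀ x, x ∉ B → h x = 0) ∧
      (∀ x, |h x| ≤ ε * χ x) := by
    intro i
    obtain ⟨h, h1, h2, h3, h4⟩ := DA2_cut hBc χ hχ0' hχ ε
      ⟨fun x => g x i - φ x i, by
        exact ((continuous_apply i).comp g.continuous).sub ((continuous_apply i).comp φ.continuous)⟩ (by
        intro x
        show |g x i - φ x i| ≤ ε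
        rw [abs_sub_comm, ← Real.dist_eq]
        exact (dist_le_pi_dist (φ x) (g x) i).trans (hg1 x).le)
    exact ⟨h, h1, h2, h3, h4⟩
  choose h hc hB0 hB1 hle using hh
  have hle' : ∀ i x, |h i x| ≤ ε := by
    intro i x
    have h1 := hle i x
    have h2 : ε * χ x ≤ ε * 1 := mul_le_mul_of_nonneg_left (hχ x).2 hε.le
    linarith
  -- the perturbations as elements of C_0
  let H : (q : F) → C₀(X, ℝ) := fun q =>
    { toFun := fun y => h (e q) (q.1.2 • y)
      continuous_toFun := (hc (e q)).comp (continuous_const_smul _)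
      zero_at_infty' := by
        apply HasCompactSupport.is_zero_at_infty
        have h1 : HasCompactSupport (h (e q)) := HasCompactSupport.intro hBc (fun x hx => hB1 (e q) x hx)
        exact h1.comp_homeomorph (Homeomorph.smul q.1.2) }
  have hH : ∀ (q : F) (y : X), H q y = h (e q) (q.1.2 • y) := fun q y => rfl
  have hone : ∀ (q q' : F) (y : X), q.1.1 = q'.1.1 → q.1.2 • y ∈ B → q'.1.2 • y ∈ B → q = q' := by
    intro q q' y hqq h1 h2
    apply Subtype.ext
    apply hts _ (hBt h1) _ (hBt h2) q.1 q.2 q'.1 q'.2 hqq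
    rw [inv_smul_smul, inv_smul_smul]
  let f' : ℕ → C₀(X, ℝ) := fun m => f m + ∑ q : F, if q.1.1 = m then H q else 0
  have hsum : ∀ (m : ℕ) (y : X), (f' m) y = f m y + ∑ q : F, if q.1.1 = m then H q y else 0 := by
    intro m y
    show (f m + ∑ q : F, if q.1.1 = m then H q else 0) y = _
    rw [ZeroAtInftyContinuousMap.add_apply]
    congr 1
    have h1 : ∀ s : Finset F, (∑ q ∈ s, if q.1.1 = m then H q else 0 : C₀(X, ℝ)) y =
        ∑ q ∈ s, if q.1.1 = m then H q y else 0 := by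
      intro s
      induction s using Finset.induction_on with
      | empty => simp
      | insert a s ha ih =>
        rw [Finset.sum_insert ha, Finset.sum_insert ha, ZeroAtInftyContinuousMap.add_apply, ih]
        congr 1
        split_ifs <;> rfl
    exact h1 Finset.univ
  refine ⟨f', ?_, ?_⟩
  · intro x hx
    have hxB : x ∈ B := interior_subset (hB'B hx)
    have hgx := hg2 ⟨x, hxB⟩
    obtain ⟨i, hi⟩ : ∃ i, g ⟨x, hxB⟩ i ≠ 0 := by
      by_contra hcon
      apply hgx
      funext i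
      by_contra h1
      exact hcon ⟨i, h1⟩
    refine ⟨(e.symm i).1, (e.symm i).2, ?_⟩
    rw [hsum]
    rw [Finset.sum_eq_single (e.symm i)]
    · rw [if_pos rfl, hH, smul_inv_smul, Equiv.apply_symm_apply, hB0 i x hxB, hχ1' x hx, one_mul]
      have h1 : φ ⟨x, hxB⟩ i = f (e.symm i).1.1 ((e.symm i).1.2⁻¹ • x) := rfl
      rw [h1, add_sub_cancel]
      exact hi
    · intro q' _ hq'
      by_cases h1 : q'.1.1 = (e.symm i).1.1
      · rw [if_pos h1, hH]
        apply hB1
        intro h2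
        apply hq'
        apply hone q' (e.symm i) _ h1 h2
        rw [smul_inv_smul]
        exact hxB
      · rw [if_neg h1]
    · intro h1
      exact absurd (Finset.mem_univ _) h1
  · intro m
    rw [ZeroAtInftyContinuousMap.dist_toBCF_eq_dist.symm, BoundedContinuousFunction.dist_le hε.le]
    intro y
    show dist ((f' m) y) (f m y) ≤ ε
    rw [hsum, Real.dist_eq, add_sub_cancel_left]
    by_cases hex : ∃ q : F, q.1.1 = m ∧ q.1.2 • y ∈ B
    · obtain ⟨q, hq1, hq2⟩ := hex
      rw [Finset.sum_eq_single q]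
      · rw [if_pos hq1, hH]
        exact hle' _ _
      · intro q' _ hq'
        by_cases h1 : q'.1.1 = m
        · rw [if_pos h1, hH]
          apply hB1
          intro h2
          exact hq' (hone q' q y (h1.trans hq1.symm) h2 hq2)
        · rw [if_neg h1]
      · intro h1
        exact absurd (Finset.mem_univ _) h1
    · rw [Finset.sum_eq_zero]
      · rw [abs_zero]
        exact hε.le
      · intro q _
        by_cases h1 : q.1.1 = m
        · rw [if_pos h1, hH]
          apply hB1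
          intro h2
          exact hex ⟨q, h1, h2⟩
        · rw [if_neg h1]

end PartDA2

section PartDA3

open scoped ENNReal Topology ZeroAtInfty
open Filter Topology Set

variable {Γ X : Type} [Group Γ] [TopologicalSpace X] [MulAction Γ X]

/-- PROOF: cover `K` by finitely many `B'_i` of `exists_dense_nhds`;
`⋂ GPset F B'_i ⊆ GPset F K` is a finite intersection of open (`isOpen_GPset`) dense sets, so dense
(`Dense.inter_of_isOpen_left`, induction over the finite set). -/
theorem dense_GPset [T2Space X] [LocallyCompactSpace X] [ContinuousConstSMul Γ X] {d : ℕ}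
    (hd : DimLE X d) {F : Finset (ℕ × Γ)} (hF : F.card = d + 1) {K : Set X} (hK : IsCompact K)
    (hKF : ∀ x ∈ K, Dist F x) : Dense (GPset F K) := by
  have h1 : ∃ K' : Set X, IsCompact K' ∧ K ⊆ K' ∧ Dense (GPset F K') := by
    apply hK.induction_on (p := fun s => ∃ K' : Set X, IsCompact K' ∧ s ⊆ K' ∧ Dense (GPset F K'))
    · refine ⟨∅, isCompact_empty, Subset.rfl, ?_⟩
      have h2 : (GPset F (∅ : Set X)) = univ := by
        apply eq_univ_of_forall
        intro f x hx
        exact absurd hx (notMem_empty x)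
      rw [h2]
      exact dense_univ
    · rintro s t hst ⟨K', h2, h3, h4⟩
      exact ⟨K', h2, hst.trans h3, h4⟩
    · rintro s t ⟨K', h2, h3, h4⟩ ⟨K'', h5, h6, h7⟩
      refine ⟨K' ∪ K'', h2.union h5, union_subset_union h3 h6, ?_⟩
      have h8 : GPset F (K' ∪ K'') = GPset F K' ∩ GPset F K'' := by
        ext f
        constructor
        · intro hf
          exact ⟨fun x hx => hf x (Or.inl hx), fun x hx => hf x (Or.inr hx)⟩
        · rintro ⟨hf, hf'⟩ x hx
          rcases hx with hx | hx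
          · exact hf x hx
          · exact hf' x hx
      rw [h8]
      exact h4.inter_of_isOpen_left h7 (isOpen_GPset F h2)
    · intro x hx
      obtain ⟨B', h2, h3, h4⟩ := exists_dense_nhds hd hF (hKF x hx)
      exact ⟨B', mem_nhdsWithin_of_mem_nhds h3, B', h2, Subset.rfl, h4⟩
  obtain ⟨K', _, h3, h4⟩ := h1
  apply h4.mono
  intro f hf x hx
  exact hf x (h3 hx)

end PartDA3

section PartDA4

open scoped ENNReal Topology ZeroAtInfty
open Filter Topology Set

variable {Γ X : Type} [Group Γ] [TopologicalSpace X] [MulAction Γ X]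

/-- The sequences which separate `B` and `B'`. -/
def SPset (B B' : Set X) : Set (ℕ → C₀(X, ℝ)) :=
  {f | ∃ m, (∀ x ∈ B, 0 < f m x) ∧ ∀ x ∈ B', f m x < 0}

theorem DA4_continuous_eval {X : Type} [TopologicalSpace X] (m : ℕ) :
    Continuous (fun p : (ℕ → C₀(X, ℝ)) × X => p.1 m p.2) := by
  have h1 : Continuous (fun p : (ℕ → C₀(X, ℝ)) × X => ((p.1 m).toBCF, p.2)) := by
    apply Continuous.prodMk
    · exact (ZeroAtInftyContinuousMap.isometry_toBCF (α := X) (β := ℝ)).continuous.comp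
        ((continuous_apply m).comp continuous_fst)
    · exact continuous_snd
  exact h1.fst.eval h1.snd

/-- PROOF: `f m` has a positive minimum on `B` and a negative maximum on `B'`. -/
theorem isOpen_SPset {B B' : Set X} (hB : IsCompact B) (hB' : IsCompact B') :
    IsOpen (SPset B B') := by
  rw [isOpen_iff_mem_nhds]
  rintro f ⟨m, hm1, hm2⟩
  have h1 : ∀ᶠ f' in 𝓝 f, ∀ x ∈ B, 0 < f' m x := by
    apply hB.eventually_forall_of_forall_eventually
    intro x hx
    have h2 := (DA4_continuous_eval (X := X) m).continuousAt (x := (f, x))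
    exact h2.eventually_const_lt (hm1 x hx)
  have h2 : ∀ᶠ f' in 𝓝 f, ∀ x ∈ B', f' m x < 0 := by
    apply hB'.eventually_forall_of_forall_eventually
    intro x hx
    have h2 := (DA4_continuous_eval (X := X) m).continuousAt (x := (f, x))
    exact h2.eventually_lt_const (hm2 x hx)
  filter_upwards [h1, h2] with f' h3 h4
  exact ⟨m, h3, h4⟩

/-- PROOF: given `f` and finitely many coordinates, take `m` larger than all of them and replace
`f m` by `e - e'`, where `e, e'` are Urysohn functions: `e = 1` on `B`, `0` on `B'`, and conversely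
(compact supports). In the product topology the new sequence is as close as we want. -/
theorem dense_SPset [T2Space X] [LocallyCompactSpace X] {B B' : Set X} (hB : IsCompact B)
    (hB' : IsCompact B') (h : Disjoint B B') : Dense (SPset B B') := by
  obtain ⟨e, he1, he2, he3, _⟩ := exists_continuous_one_zero_of_isCompact hB hB'.isClosed h
  obtain ⟨e', he1', he2', he3', _⟩ := exists_continuous_one_zero_of_isCompact hB' hB.isClosed h.symm
  let E : C₀(X, ℝ) := ⟨e, he3.is_zero_at_infty⟩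
  let E' : C₀(X, ℝ) := ⟨e', he3'.is_zero_at_infty⟩
  intro f
  apply mem_closure_of_tendsto (f := fun n : ℕ => Function.update f n (E - E')) (b := atTop)
  · rw [tendsto_pi_nhds]
    intro m
    apply tendsto_const_nhds.congr'
    filter_upwards [eventually_gt_atTop m] with n hn
    rw [Function.update_of_ne (by omega)]
  · apply Eventually.of_forall
    intro n
    refine ⟨n, ?_, ?_⟩
    · intro x hx
      have h1 : (Function.update f n (E - E')) n x = e x - e' x := by
        rw [Function.update_self]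
        rfl
      rw [h1, he1 hx, he2' hx]
      norm_num
    · intro x hx
      have h1 : (Function.update f n (E - E')) n x = e x - e' x := by
        rw [Function.update_self]
        rfl
      rw [h1, he2 hx, he1' hx]
      norm_num

end PartDA4

section PartDA5

open scoped ENNReal Topology ZeroAtInfty
open Filter Topology Set

variable {Γ X : Type} [Group Γ] [TopologicalSpace X] [MulAction Γ X]

theorem DA5_secondCountable {X : Type} [TopologicalSpace X] [TopologicalSpace.MetrizableSpace X]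
    [SigmaCompactSpace X] : SecondCountableTopology X := by
  letI := TopologicalSpace.metrizableSpaceMetric X
  exact EMetric.secondCountable_of_sigmaCompact X

/-- PROOF: `X` is second countable (`σ`-compact metrizable), so it has a countable basis; the
countably many pairs of closures of basis sets which are compact and disjoint. For `x ≠ y` choose
disjoint compact neighbourhoods and basis sets inside. -/
theorem exists_countable_pairs [TopologicalSpace.MetrizableSpace X] [LocallyCompactSpace X]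
    [SigmaCompactSpace X] : ∃ P : Set (Set X × Set X), P.Countable ∧
      (∀ p ∈ P, IsCompact p.1 ∧ IsCompact p.2 ∧ Disjoint p.1 p.2) ∧
      ∀ x y : X, x ≠ y → ∃ p ∈ P, x ∈ p.1 ∧ y ∈ p.2 := by
  have hsc := DA5_secondCountable (X := X)
  let b := TopologicalSpace.countableBasis X
  have hb : TopologicalSpace.IsTopologicalBasis b := TopologicalSpace.isBasis_countableBasis X
  let P : Set (Set X × Set X) := {p | (∃ U ∈ b, p.1 = closure U) ∧ (∃ V ∈ b, p.2 = closure V) ∧
    IsCompact p.1 ∧ IsCompact p.2 ∧ Disjoint p.1 p.2}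
  refine ⟨P, ?_, ?_, ?_⟩
  · have h1 : P ⊆ (fun p : Set X × Set X => (closure p.1, closure p.2)) '' (b ×ˢ b) := by
      rintro ⟨p1, p2⟩ ⟨⟨U, hU, h2⟩, ⟨V, hV, h3⟩, _⟩
      exact ⟨(U, V), ⟨hU, hV⟩, by
        show (closure U, closure V) = (p1, p2)
        rw [← h2, ← h3]⟩
    exact (((TopologicalSpace.countable_countableBasis X).prod
      (TopologicalSpace.countable_countableBasis X)).image _).mono h1
  · rintro p ⟨_, _, h3⟩
    exact h3
  · intro x y hxy
    obtain ⟨u, v, hu, hv, huv⟩ := t2_separation_nhds hxy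
    obtain ⟨K, hKn, hKu, hKc⟩ := local_compact_nhds hu
    obtain ⟨L, hLn, hLv, hLc⟩ := local_compact_nhds hv
    obtain ⟨U, hU, hxU, hUK⟩ := hb.mem_nhds_iff.mp hKn
    obtain ⟨V, hV, hyV, hVL⟩ := hb.mem_nhds_iff.mp hLn
    have h1 : closure U ⊆ K := closure_minimal hUK hKc.isClosed
    have h2 : closure V ⊆ L := closure_minimal hVL hLc.isClosed
    refine ⟨(closure U, closure V), ⟨⟨U, hU, rfl⟩, ⟨V, hV, rfl⟩, ?_, ?_, ?_⟩, subset_closure hxU, subset_closure hyV⟩
    · exact hKc.of_isClosed_subset isClosed_closure h1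
    · exact hLc.of_isClosed_subset isClosed_closure h2
    · exact huv.mono (h1.trans hKu) (h2.trans hLv)

/-- PROOF: an open subset `W` of `X` is a countable union of compact sets (`X` is second countable and
locally compact; e.g. `W` is locally compact and second countable, so `σ`-compact). -/
theorem exists_compact_exhaustion [TopologicalSpace.MetrizableSpace X] [LocallyCompactSpace X]
    [SigmaCompactSpace X] {W : Set X} (hW : IsOpen W) :
    ∃ K : ℕ → Set X, (∀ n, IsCompact (K n)) ∧ ⋃ n, K n = W := by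
  have hsc := DA5_secondCountable (X := X)
  have hlc : LocallyCompactSpace W := hW.locallyCompactSpace
  refine ⟨fun n => Subtype.val '' compactCovering W n, ?_, ?_⟩
  · intro n
    exact (isCompact_compactCovering W n).image continuous_subtype_val
  · rw [← image_iUnion, iUnion_compactCovering, image_univ, Subtype.range_coe]

end PartDA5

section PartDA6

open scoped ENNReal Topology ZeroAtInfty
open Filter Topology Set

variable {Γ X : Type} [Group Γ] [TopologicalSpace X] [MulAction Γ X]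

/-- GENERAL POSITION. PROOF: the space `ℕ → C₀(X, ℝ)` is a Baire space (a countable product of complete
metric spaces: `IsCompletelyMetrizableSpace`). The sets `GPset F (K_F n)`, `F` with `d + 1`
elements, `K_F` the exhaustion of `{x | Dist F x}` (`isOpen_dist`), and `SPset p.1 p.2`, `p ∈ P`
(`exists_countable_pairs`), are countably many open dense sets (`Γ` is countable). Take `f` in their
intersection (`dense_iInter_of_isOpen`/`dense_sInter_of_isOpen`). `GenLE`: if `F` is as in the definition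
for `x` and `F.card > d`, take `F' ⊆ F` with `d + 1` elements (`Finset.exists_subset_card_eq`);
`Dist F' x`, so `x ∈ K_{F'} n` for some `n`, and some `f q.1 (q.2⁻¹ x) ≠ 0`, a contradiction. -/
theorem exists_general_position [Countable Γ] [TopologicalSpace.MetrizableSpace X]
    [LocallyCompactSpace X] [SigmaCompactSpace X] [ContinuousConstSMul Γ X] {d : ℕ}
    (hd : DimLE X d) : ∃ f : ℕ → X → ℝ, (∀ m, Continuous (f m)) ∧ GenLE Γ f d ∧ SepF f := by
  have hK : ∀ F : Finset (ℕ × Γ), ∃ K : ℕ → Set X, (∀ n, IsCompact (K n)) ∧ ⋃ n, K n = {x : X | Dist F x} :=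
    fun F => exists_compact_exhaustion (isOpen_dist F)
  choose K hK1 hK2 using hK
  obtain ⟨P, hP1, hP2, hP3⟩ := exists_countable_pairs (X := X)
  let S1 : Set (Set (ℕ → C₀(X, ℝ))) := {s | ∃ F : Finset (ℕ × Γ), F.card = d + 1 ∧ ∃ n, s = GPset F (K F n)}
  let S2 : Set (Set (ℕ → C₀(X, ℝ))) := (fun p : Set X × Set X => SPset p.1 p.2) '' P
  have hS1 : S1.Countable := by
    have h1 : S1 ⊆ range (fun p : Finset (ℕ × Γ) × ℕ => GPset p.1 (K p.1 p.2)) := by
      rintro s ⟨F, _, n, rfl⟩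
      exact ⟨(F, n), rfl⟩
    exact (countable_range _).mono h1
  have hS2 : S2.Countable := hP1.image _
  have hdense : Dense (⋂₀ (S1 ∪ S2)) := by
    apply dense_sInter_of_isOpen
    · rintro s (⟨F, _, n, rfl⟩ | ⟨p, hp, rfl⟩)
      · exact isOpen_GPset F (hK1 F n)
      · exact isOpen_SPset (hP2 p hp).1 (hP2 p hp).2.1
    · exact hS1.union hS2
    · rintro s (⟨F, hF, n, rfl⟩ | ⟨p, hp, rfl⟩)
      · apply dense_GPset hd hF (hK1 F n)
        intro x hx
        have h1 : x ∈ ⋃ n, K F n := mem_iUnion.mpr ⟨n, hx⟩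
        rw [hK2 F] at h1
        exact h1
      · exact dense_SPset (hP2 p hp).1 (hP2 p hp).2.1 (hP2 p hp).2.2
  obtain ⟨f, hf⟩ := hdense.nonempty
  refine ⟨fun m x => f m x, fun m => (f m).continuous, ?_, ?_⟩
  · intro x F hF1 hF2
    by_contra hcon
    obtain ⟨F', hF', hcard⟩ := Finset.exists_subset_card_eq (s := F) (n := d + 1) (by omega)
    have h1 : Dist F' x := fun q hq q' hq' h2 h3 => hF2 q (hF' hq) q' (hF' hq') h2 h3
    have h2 : x ∈ ⋃ n, K F' n := by
      rw [hK2 F']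
      exact h1
    obtain ⟨n, hn⟩ := mem_iUnion.mp h2
    have h3 : f ∈ GPset F' (K F' n) := hf _ (Or.inl ⟨F', hcard, n, rfl⟩)
    obtain ⟨q, hq, hne⟩ := h3 x hn
    exact hne (hF1 q (hF' hq))
  · intro x y hxy
    obtain ⟨p, hp, hx, hy⟩ := hP3 x y hxy
    have h3 : f ∈ SPset p.1 p.2 := hf _ (Or.inr ⟨p, hp, rfl⟩)
    obtain ⟨m, hm1, hm2⟩ := h3
    exact ⟨m, hm1 x hx, hm2 y hy⟩

end PartDA6

end Pool.Agent.Lib.MP_aa9b81_an.Cut
end
end

section

/-!
# Cutting theorem, part E
-/

noncomputable section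

namespace Pool.Agent.Lib.MP_aa9b81_an.Cut

section PartAD1

open scoped ENNReal Topology ZeroAtInfty
open Filter Topology Set

variable {Γ : Type} [Group Γ] {E : Type} [AddCommGroup E] [Module ℝ E] [TopologicalSpace E]
  [T2Space E] [ContinuousAdd E] [ContinuousSMul ℝ E] [DistribMulAction Γ E] [SMulCommClass Γ ℝ E]
  [ContinuousConstSMul Γ E]

/-- The vector of `E` given by a point of a convex space. -/
def ConvexSpace.vec (Q : ConvexSpace Γ E) (q : Q.Pt) : E := q.1

omit [T2Space E] [ContinuousAdd E] [ContinuousSMul ℝ E] [SMulCommClass Γ ℝ E]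
  [ContinuousConstSMul Γ E] in
lemma ConvexSpace.vec_smul (Q : ConvexSpace Γ E) (g : Γ) (q : Q.Pt) :
    Q.vec (g • q) = g • Q.vec q := rfl

omit [T2Space E] [ContinuousAdd E] [ContinuousSMul ℝ E] [SMulCommClass Γ ℝ E]
  [ContinuousConstSMul Γ E] in
private lemma AD1_exists (Q : ConvexSpace Γ E) (q₀ : Q.Pt) (G : Finset Γ) (c : Γ → ℝ)
    (hc : ∀ g ∈ G, 0 ≤ c g) :
    ∃ x ∈ Q.carrier, ∑ g ∈ G, c g • (g • Q.vec q₀) = (∑ g ∈ G, c g) • x := by
  have hmem : ∀ g, g • Q.vec q₀ ∈ Q.carrier := fun g => Q.smul_mem g _ q₀.2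
  by_cases h0 : ∑ g ∈ G, c g = 0
  · refine ⟨Q.vec q₀, q₀.2, ?_⟩
    rw [h0, zero_smul]
    refine Finset.sum_eq_zero fun g hg => ?_
    rw [(Finset.sum_eq_zero_iff_of_nonneg hc).1 h0 g hg, zero_smul]
  · refine ⟨∑ g ∈ G, (c g / ∑ g ∈ G, c g) • (g • Q.vec q₀), ?_, ?_⟩
    · refine Q.convex.sum_mem (fun g hg => div_nonneg (hc g hg) (Finset.sum_nonneg hc)) ?_
        fun g _ => hmem g
      rw [← Finset.sum_div]
      exact div_self h0
    · rw [Finset.smul_sum]
      refine Finset.sum_congr rfl fun g _ => ?_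
      rw [smul_smul, mul_div_cancel₀ _ h0]

omit [T2Space E] [SMulCommClass Γ ℝ E] [ContinuousConstSMul Γ E] in
/-- PROOF: by compactness of `Q` and continuity of `(α, x) ↦ α x` at `(0, x)` (tube lemma) there is
`δ > 0` with `α x ∈ U'` for `0 ≤ α ≤ δ`, `x ∈ Q`, and `-(α x) ∈ U'`, where `U' + U' ⊆ U`. Split `c`
into its positive and negative part: `∑ c⁺_g g q₀ = α x` with `α = ∑ c⁺_g ≤ δ` and `x ∈ Q` by
convexity (`Convex.sum_mem` after dividing by `α` if `α > 0`; if `α = 0` all the terms are `0`). -/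
theorem small_comb_mem (Q : ConvexSpace Γ E) (q₀ : Q.Pt) {U : Set E} (hU : U ∈ 𝓝 (0 : E)) :
    ∃ δ : ℝ, 0 < δ ∧ ∀ (G : Finset Γ) (c : Γ → ℝ), ∑ g ∈ G, |c g| ≤ δ →
      ∑ g ∈ G, c g • (g • Q.vec q₀) ∈ U := by
  classical
  have h0 : (fun p : E × E => p.1 + p.2) ⁻¹' U ∈ 𝓝 ((0 : E), (0 : E)) := by
    refine (continuous_add (M := E)).continuousAt.preimage_mem_nhds ?_
    simpa using hU
  rw [nhds_prod_eq, Filter.mem_prod_self_iff] at h0
  obtain ⟨V, hV, hVU⟩ := h0
  have h1 : ∀ᶠ α : ℝ in 𝓝 0, ∀ x ∈ Q.carrier, α • x ∈ V := by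
    refine Q.compact.eventually_forall_of_forall_eventually fun x _ => ?_
    have h2 : ContinuousAt (fun p : ℝ × E => p.1 • p.2) (0, x) := continuous_smul.continuousAt
    refine h2.preimage_mem_nhds ?_
    simpa using hV
  obtain ⟨δ, hδ, hδV⟩ := Metric.eventually_nhds_iff.1 h1
  refine ⟨δ / 2, half_pos hδ, fun G c hc => ?_⟩
  obtain ⟨x, hx, hxe⟩ := AD1_exists Q q₀ G (fun g => max (c g) 0) fun g _ => le_max_right _ _
  obtain ⟨y, hy, hye⟩ := AD1_exists Q q₀ G (fun g => max (- c g) 0) fun g _ => le_max_right _ _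
  have habs : ∀ d : ℝ, 0 ≤ d → d ≤ δ / 2 → |d| < δ := by
    intro d h2 h3
    rw [abs_of_nonneg h2]
    linarith
  have hp0 : 0 ≤ ∑ g ∈ G, max (c g) 0 := Finset.sum_nonneg fun g _ => le_max_right _ _
  have hp1 : ∑ g ∈ G, max (c g) 0 ≤ δ / 2 :=
    (Finset.sum_le_sum fun g _ => max_le (le_abs_self _) (abs_nonneg _)).trans hc
  have hn0 : 0 ≤ ∑ g ∈ G, max (- c g) 0 := Finset.sum_nonneg fun g _ => le_max_right _ _
  have hn1 : ∑ g ∈ G, max (- c g) 0 ≤ δ / 2 :=
    (Finset.sum_le_sum fun g _ => max_le (neg_le_abs _) (abs_nonneg _)).trans hc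
  have h3 : (∑ g ∈ G, max (c g) 0) • x ∈ V := by
    refine hδV ?_ x hx
    rw [Real.dist_eq, sub_zero]
    exact habs _ hp0 hp1
  have h4 : (-∑ g ∈ G, max (- c g) 0) • y ∈ V := by
    refine hδV ?_ y hy
    rw [Real.dist_eq, sub_zero, abs_neg]
    exact habs _ hn0 hn1
  have h5 : ∑ g ∈ G, c g • (g • Q.vec q₀) =
      (∑ g ∈ G, max (c g) 0) • x + (-∑ g ∈ G, max (- c g) 0) • y := by
    rw [neg_smul, ← hxe, ← hye, ← sub_eq_add_neg, ← Finset.sum_sub_distrib]
    refine Finset.sum_congr rfl fun g _ => ?_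
    rw [← sub_smul]
    congr 1
    rcases le_total 0 (c g) with h | h
    · rw [max_eq_left h, max_eq_right (by linarith), sub_zero]
    · rw [max_eq_right h, max_eq_left (by linarith), zero_sub, neg_neg]
  rw [h5]
  exact hVU (show ((∑ g ∈ G, max (c g) 0) • x, (-∑ g ∈ G, max (- c g) 0) • y) ∈ V ×ˢ V from
    ⟨h3, h4⟩)

end PartAD1

section PartAD2

open scoped ENNReal Topology ZeroAtInfty
open Filter Topology Set

variable {Γ : Type} [Group Γ] {E : Type} [AddCommGroup E] [Module ℝ E] [TopologicalSpace E]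
  [T2Space E] [ContinuousAdd E] [ContinuousSMul ℝ E] [DistribMulAction Γ E] [SMulCommClass Γ ℝ E]
  [ContinuousConstSMul Γ E]

/-- PROOF: fix `q₀ ∈ Q`, `δ` from `small_comb_mem`, and `m`, `S₀` from the amenability for `K`, `F`,
`δ`. Put `q s = ∑ g ∈ S₀, m s g • (g • q₀) ∈ Q` (`Convex.sum_mem`), continuous. For `s ∈ K`, `h ∈ F`:
`q (h s) - h q(s) = ∑_g m(hs)(g) g q₀ - ∑_g m(s)(g) (h g) q₀ = ∑_{g ∈ S₀ ∪ h S₀}
(m(hs)(g) - m(s)(h⁻¹ g)) g q₀`. -/
theorem exists_almost_equivariant (Q : ConvexSpace Γ E) {S : Type} [TopologicalSpace S]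
    [MulAction Γ S] (hS : AmenableAction Γ S) {K : Set S} (hK : IsCompact K) (F : Finset Γ)
    {U : Set E} (hU : U ∈ 𝓝 (0 : E)) :
    ∃ q : S → Q.Pt, Continuous q ∧ ∀ s ∈ K, ∀ h ∈ F,
      Q.vec (q (h • s)) - h • Q.vec (q s) ∈ U := by
  classical
  obtain ⟨x₀, hx₀⟩ := Q.nonempty
  obtain ⟨δ, hδ, hsmall⟩ := small_comb_mem Q ⟨x₀, hx₀⟩ hU
  obtain ⟨S₀, m, hmc, hm0, hmS, hm1, hmF⟩ := hS K F δ hK hδ
  have hmem : ∀ s : S, ∑ g ∈ S₀, m s g • (g • x₀) ∈ Q.carrier := fun s =>
    Q.convex.sum_mem (fun g _ => hm0 s g) (hm1 s) (fun g _ => Q.smul_mem g x₀ hx₀)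
  refine ⟨fun s => ⟨∑ g ∈ S₀, m s g • (g • x₀), hmem s⟩, ?_, ?_⟩
  · have hc : Continuous fun s : S => ∑ g ∈ S₀, m s g • (g • x₀) :=
      continuous_finsetSum _ fun g _ => (hmc g).smul continuous_const
    exact hc.subtype_mk hmem
  · intro s hs h hh
    have hinj : Function.Injective (fun g : Γ => h * g) := mul_right_injective h
    set G : Finset Γ := S₀ ∪ S₀.image (fun g => h * g) with hG
    have h1 : ∑ g ∈ S₀, m (h • s) g • (g • x₀) = ∑ g ∈ G, m (h • s) g • (g • x₀) := by
      refine Finset.sum_subset Finset.subset_union_left fun g _ hg => ?_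
      rw [hmS _ g hg, zero_smul]
    have h2 : h • ∑ g ∈ S₀, m s g • (g • x₀) = ∑ g ∈ G, m s (h⁻¹ * g) • (g • x₀) := by
      have h3 : h • ∑ g ∈ S₀, m s g • (g • x₀) =
          ∑ g ∈ S₀.image (fun g => h * g), m s (h⁻¹ * g) • (g • x₀) := by
        rw [Finset.sum_image (fun a _ b _ hab => hinj hab), Finset.smul_sum]
        refine Finset.sum_congr rfl fun g _ => ?_
        rw [inv_mul_cancel_left, smul_comm, mul_smul]
      rw [h3]
      refine Finset.sum_subset Finset.subset_union_right fun g _ hg => ?_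
      have h4 : h⁻¹ * g ∉ S₀ := by
        intro h5
        apply hg
        exact Finset.mem_image.2 ⟨h⁻¹ * g, h5, by rw [mul_inv_cancel_left]⟩
      rw [hmS _ _ h4, zero_smul]
    have h6 : ∑ g ∈ G, |m (h • s) g - m s (h⁻¹ * g)| ≤ δ := by
      have h7 := hmF s hs h hh
      rwa [tsum_eq_sum (s := G)] at h7
      intro g hg
      have h8 : g ∉ S₀ := fun h9 => hg (Finset.mem_union_left _ h9)
      have h10 : h⁻¹ * g ∉ S₀ := fun h9 => hg (Finset.mem_union_right _
        (Finset.mem_image.2 ⟨h⁻¹ * g, h9, by rw [mul_inv_cancel_left]⟩))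
      rw [hmS _ g h8, hmS _ _ h10, sub_zero, abs_zero]
    have h11 := hsmall G (fun g => m (h • s) g - m s (h⁻¹ * g)) h6
    have h12 : (∑ g ∈ S₀, m (h • s) g • (g • x₀)) - h • ∑ g ∈ S₀, m s g • (g • x₀) =
        ∑ g ∈ G, (m (h • s) g - m s (h⁻¹ * g)) • (g • x₀) := by
      rw [h1, h2, ← Finset.sum_sub_distrib]
      exact Finset.sum_congr rfl fun g _ => (sub_smul _ _ _).symm
    change (∑ g ∈ S₀, m (h • s) g • (g • x₀)) - h • ∑ g ∈ S₀, m s g • (g • x₀) ∈ U
    rw [h12]
    exact h11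

end PartAD2

section PartAD3

open scoped ENNReal Topology ZeroAtInfty
open Filter Topology Set

variable {Γ : Type} [Group Γ] {E : Type} [AddCommGroup E] [Module ℝ E] [TopologicalSpace E]
  [T2Space E] [ContinuousAdd E] [ContinuousSMul ℝ E] [DistribMulAction Γ E] [SMulCommClass Γ ℝ E]
  [ContinuousConstSMul Γ E]

/-- The point `(1-t) w + t (q, 1)` of the open cone. PROOF: convexity; if `w = (σ x, σ)` then the
point is `(σ' x', σ')`, `σ' = (1-t) σ + t < 1`, `x' = ((1-t) σ x + t q) / σ'` if `σ' > 0`. -/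
theorem cone_mem (Q : ConvexSpace Γ E) (w : Cone Q) (q : Q.Pt) (t : Ico (0 : ℝ) 1) :
    0 ≤ (1 - t.1) * w.1.2 + t.1 ∧ (1 - t.1) * w.1.2 + t.1 < 1 ∧
      ∃ x ∈ Q.carrier, (1 - t.1) • w.1.1 + t.1 • Q.vec q = ((1 - t.1) * w.1.2 + t.1) • x := by
  obtain ⟨⟨v, s⟩, hs0, hs1, x, hx, hv⟩ := w
  obtain ⟨t, ht0, ht1⟩ := t
  simp only at hs0 hs1 hv ⊢
  have h1 : 0 ≤ 1 - t := by linarith
  have h2 : 0 ≤ (1 - t) * s + t := add_nonneg (mul_nonneg h1 hs0) ht0
  refine ⟨h2, ?_, ?_⟩
  · nlinarith [mul_pos (sub_pos.2 ht1) (sub_pos.2 hs1)]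
  · rcases h2.lt_or_eq with h3 | h3
    · have hne : (1 - t) * s + t ≠ 0 := h3.ne'
      refine ⟨((1 - t) * s / ((1 - t) * s + t)) • x + (t / ((1 - t) * s + t)) • Q.vec q, ?_, ?_⟩
      · apply Q.convex hx q.2
        · exact div_nonneg (mul_nonneg h1 hs0) h2
        · exact div_nonneg ht0 h2
        · rw [← add_div, div_self hne]
      · rw [hv, smul_add, smul_smul, smul_smul, smul_smul, mul_div_cancel₀ _ hne,
          mul_div_cancel₀ _ hne]
    · have ht : t = 0 := by
        have := mul_nonneg h1 hs0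
        linarith
      have hs : s = 0 := by
        rw [ht] at h3
        linarith
      refine ⟨x, hx, ?_⟩
      rw [hv, ht, hs]
      simp only [zero_smul, smul_zero, add_zero, mul_zero]

/-- The straight line contraction of the cone to `(q, 1)`. -/
def cmove (Q : ConvexSpace Γ E) (w : Cone Q) (q : Q.Pt) (t : Ico (0 : ℝ) 1) : Cone Q :=
  ⟨((1 - t.1) • w.1.1 + t.1 • Q.vec q, (1 - t.1) * w.1.2 + t.1), cone_mem Q w q t⟩

/-- The homotopy of `S × Cone Q × V` given by a map `q : S → Q`. -/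
def ch (Q : ConvexSpace Γ E) {S V : Type} (q : S → Q.Pt) (x : (S × Cone Q × V) × Ico (0 : ℝ) 1) :
    S × Cone Q × V :=
  (x.1.1, cmove Q x.1.2.1 (q x.1.1) x.2, x.1.2.2)

/-- PROOF: the open cone is the subset `{w.2 < 1}`, open, of the closed cone, which is the compact
image of `Q × [0,1]` under `(x, σ) ↦ (σ x, σ)`; an open subset of a compact Hausdorff space is
locally compact. -/
theorem cone_locallyCompact (Q : ConvexSpace Γ E) : LocallyCompactSpace (Cone Q) := by
  set C : Set (E × ℝ) := (fun z : E × ℝ => (z.2 • z.1, z.2)) '' (Q.carrier ×ˢ Icc (0 : ℝ) 1) with hC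
  have hCc : IsCompact C := by
    apply (Q.compact.prod isCompact_Icc).image
    exact (continuous_snd.smul continuous_fst).prodMk continuous_snd
  have hcs : CompactSpace C := isCompact_iff_compactSpace.1 hCc
  have hmem : ∀ w : Cone Q, w.1 ∈ C := by
    rintro ⟨⟨v, s⟩, hs0, hs1, x, hx, hv⟩
    simp only at hs0 hs1 hv
    exact ⟨(x, s), ⟨hx, hs0, hs1.le⟩, Prod.ext hv.symm rfl⟩
  have hvc : Continuous (fun w : Cone Q => w.1) := continuous_subtype_val
  have hve : IsEmbedding (fun w : Cone Q => w.1) := IsEmbedding.subtypeVal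
  have hic : Continuous (fun w : Cone Q => (⟨w.1, hmem w⟩ : C)) := hvc.subtype_mk _
  have hie : IsEmbedding (fun w : Cone Q => (⟨w.1, hmem w⟩ : C)) :=
    IsEmbedding.of_comp hic continuous_subtype_val hve
  have hio : IsOpenEmbedding (fun w : Cone Q => (⟨w.1, hmem w⟩ : C)) := by
    refine ⟨hie, ?_⟩
    have hr : range (fun w : Cone Q => (⟨w.1, hmem w⟩ : C)) = {c : C | c.1.2 < 1} := by
      ext c
      constructor
      · rintro ⟨w, rfl⟩
        exact w.2.2.1
      · intro hc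
        obtain ⟨⟨v, s⟩, ⟨x, s'⟩, ⟨hx, hs⟩, he⟩ := c
        simp only [Prod.mk.injEq] at he
        obtain ⟨he1, he2⟩ := he
        have hs' : 0 ≤ s' := hs.1
        refine ⟨⟨(v, s), ?_, ?_, x, hx, ?_⟩, rfl⟩
        · rw [← he2]
          exact hs'
        · exact hc
        · rw [← he2]
          exact he1.symm
    rw [hr]
    exact isOpen_lt (continuous_snd.comp continuous_subtype_val) continuous_const
  exact hio.locallyCompactSpace

end PartAD3

section PartAD4

open scoped ENNReal Topology ZeroAtInfty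
open Filter Topology Set

variable {Γ : Type} [Group Γ] {E : Type} [AddCommGroup E] [Module ℝ E] [TopologicalSpace E]
  [T2Space E] [ContinuousAdd E] [ContinuousSMul ℝ E] [DistribMulAction Γ E] [SMulCommClass Γ ℝ E]
  [ContinuousConstSMul Γ E]

instance (Q : ConvexSpace Γ E) : T2Space (Cone Q) :=
  inferInstanceAs (T2Space {w : E × ℝ // 0 ≤ w.2 ∧ w.2 < 1 ∧ ∃ q ∈ Q.carrier, w.1 = w.2 • q})

instance (Q : ConvexSpace Γ E) : ContinuousConstSMul Γ (Cone Q) :=
  ⟨fun g => Continuous.subtype_mk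
    (((continuous_fst.comp continuous_subtype_val).const_smul g).prodMk
      (continuous_snd.comp continuous_subtype_val)) _⟩

omit [T2Space E] [ContinuousAdd E] [ContinuousSMul ℝ E] [SMulCommClass Γ ℝ E]
  [ContinuousConstSMul Γ E] in
theorem AD4_continuous_val (Q : ConvexSpace Γ E) : Continuous fun w : Cone Q => w.1 :=
  continuous_subtype_val

omit [T2Space E] [ContinuousAdd E] [SMulCommClass Γ ℝ E] [ContinuousConstSMul Γ E] in
theorem AD4_compact_cone (Q : ConvexSpace Γ E) {M : ℝ} (hM : M < 1) :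
    IsCompact {w : Cone Q | w.1.2 ≤ M} := by
  have h1 : CompactSpace Q.carrier := isCompact_iff_compactSpace.1 Q.compact
  have hm : ∀ z : Q.carrier × Icc (0 : ℝ) M, 0 ≤ z.2.1 ∧ z.2.1 < 1 ∧
      ∃ q ∈ Q.carrier, z.2.1 • z.1.1 = z.2.1 • q := fun z =>
    ⟨z.2.2.1, z.2.2.2.trans_lt hM, z.1.1, z.1.2, rfl⟩
  have hc : Continuous fun z : Q.carrier × Icc (0 : ℝ) M =>
      ((⟨(z.2.1 • z.1.1, z.2.1), hm z⟩ : Cone Q)) := by
    apply Continuous.subtype_mk
    have h2 : Continuous fun z : Q.carrier × Icc (0 : ℝ) M => z.2.1 :=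
      continuous_subtype_val.comp continuous_snd
    have h3 : Continuous fun z : Q.carrier × Icc (0 : ℝ) M => z.1.1 :=
      continuous_subtype_val.comp continuous_fst
    exact (h2.smul h3).prodMk h2
  have h4 := isCompact_range hc
  have h5 : range (fun z : Q.carrier × Icc (0 : ℝ) M =>
      ((⟨(z.2.1 • z.1.1, z.2.1), hm z⟩ : Cone Q))) = {w : Cone Q | w.1.2 ≤ M} := by
    ext w
    constructor
    · rintro ⟨z, rfl⟩
      exact z.2.2.2
    · intro hw
      obtain ⟨⟨v, s⟩, hs0, hs1, x, hx, hv⟩ := w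
      refine ⟨(⟨x, hx⟩, ⟨s, hs0, hw⟩), ?_⟩
      apply Subtype.ext
      exact Prod.ext hv.symm rfl
  rw [← h5]
  exact h4

theorem AD4_compact_Ico {M : ℝ} (hM : M < 1) : IsCompact {t : Ico (0 : ℝ) 1 | t.1 ≤ M} := by
  have hc : Continuous fun z : Icc (0 : ℝ) M =>
      ((⟨z.1, z.2.1, z.2.2.trans_lt hM⟩ : Ico (0 : ℝ) 1)) :=
    continuous_subtype_val.subtype_mk _
  have h4 := isCompact_range hc
  have h5 : range (fun z : Icc (0 : ℝ) M =>
      ((⟨z.1, z.2.1, z.2.2.trans_lt hM⟩ : Ico (0 : ℝ) 1))) = {t : Ico (0 : ℝ) 1 | t.1 ≤ M} := by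
    ext w
    constructor
    · rintro ⟨z, rfl⟩
      exact z.2.2
    · intro hw
      exact ⟨⟨w.1, w.2.1, hw⟩, rfl⟩
  rw [← h5]
  exact h4

/-- PROOF: continuous (coordinates); the preimage of a compact set `K` is contained in
`{((s, w, v), t) | s ∈ K_S, v ∈ K_V, (1-t)(1-σ(w)) ≥ δ}` with the projections `K_S`, `K_V` of `K` and
`δ = min_K (1 - σ) > 0` (note `1 - σ' = (1-t)(1-σ)`); there `t ≤ 1 - δ`, `σ(w) ≤ 1 - δ`, and
`{w | σ(w) ≤ 1 - δ}` is compact (image of `Q × [0, 1-δ]`). A closed subset of a compact set is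
compact. `isProperMap_iff_isCompact_preimage` (the target is locally compact Hausdorff). -/
theorem isProperMap_ch (Q : ConvexSpace Γ E) {S V : Type} [TopologicalSpace S] [T2Space S]
    [LocallyCompactSpace S] [TopologicalSpace V] [T2Space V] [LocallyCompactSpace V] {q : S → Q.Pt}
    (hq : Continuous q) : IsProperMap (ch Q (V := V) q) := by
  have hlc := cone_locallyCompact Q
  have hqv : Continuous fun s => Q.vec (q s) := continuous_subtype_val.comp hq
  have hcv := AD4_continuous_val Q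
  have hcont : Continuous (ch Q (V := V) q) := by
    unfold ch cmove
    refine (continuous_fst.comp continuous_fst).prodMk (Continuous.prodMk ?_
      (continuous_snd.comp (continuous_snd.comp continuous_fst)))
    apply Continuous.subtype_mk
    have e1 : Continuous fun x : (S × Cone Q × V) × Ico (0 : ℝ) 1 => x.1.2.1.1 :=
      hcv.comp (continuous_fst.comp (continuous_snd.comp continuous_fst))
    have e2 : Continuous fun x : (S × Cone Q × V) × Ico (0 : ℝ) 1 => x.2.1 :=
      continuous_subtype_val.comp continuous_snd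
    have e3 : Continuous fun x : (S × Cone Q × V) × Ico (0 : ℝ) 1 => Q.vec (q x.1.1) :=
      hqv.comp (continuous_fst.comp continuous_fst)
    refine Continuous.prodMk ?_ ?_
    · exact ((continuous_const.sub e2).smul (continuous_fst.comp e1)).add (e2.smul e3)
    · exact ((continuous_const.sub e2).mul (continuous_snd.comp e1)).add e2
  rw [isProperMap_iff_isCompact_preimage]
  refine ⟨hcont, fun K hK => ?_⟩
  rcases K.eq_empty_or_nonempty with rfl | hKn
  · rw [preimage_empty]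
    exact isCompact_empty
  have hσ : Continuous fun y : S × Cone Q × V => y.2.1.1.2 :=
    continuous_snd.comp (hcv.comp (continuous_fst.comp continuous_snd))
  obtain ⟨y₀, hy₀, hmax⟩ := hK.exists_isMaxOn hKn hσ.continuousOn
  set M : ℝ := y₀.2.1.1.2 with hM
  have hM1 : M < 1 := y₀.2.1.2.2.1
  set C : Set ((S × Cone Q × V) × Ico (0 : ℝ) 1) :=
    ((Prod.fst '' K) ×ˢ ({w : Cone Q | w.1.2 ≤ M} ×ˢ ((fun y : S × Cone Q × V => y.2.2) '' K))) ×ˢ
      {t : Ico (0 : ℝ) 1 | t.1 ≤ M} with hC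
  have hCc : IsCompact C :=
    ((hK.image continuous_fst).prod ((AD4_compact_cone Q hM1).prod
      (hK.image (continuous_snd.comp continuous_snd)))).prod (AD4_compact_Ico hM1)
  refine hCc.of_isClosed_subset (hK.isClosed.preimage hcont) ?_
  rintro ⟨⟨s, w, v⟩, t⟩ hx
  have hx' : ch Q q ((s, w, v), t) ∈ K := hx
  have h1 : (1 - t.1) * w.1.2 + t.1 ≤ M := hmax hx'
  have hw0 : 0 ≤ w.1.2 := w.2.1
  have hw1 : w.1.2 < 1 := w.2.2.1
  have ht0 : 0 ≤ t.1 := t.2.1
  have ht1 : t.1 < 1 := t.2.2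
  have h2 : t.1 ≤ M := by nlinarith [mul_nonneg (sub_nonneg.2 ht1.le) hw0]
  have h3 : w.1.2 ≤ M := by nlinarith [mul_nonneg ht0 (sub_nonneg.2 hw1.le)]
  exact ⟨⟨⟨_, hx', rfl⟩, h3, ⟨_, hx', rfl⟩⟩, h2⟩

/-- PROOF: `p ↦ (p, t)` is a closed embedding, so proper; composition. -/
theorem isProperMap_ch_slice (Q : ConvexSpace Γ E) {S V : Type} [TopologicalSpace S] [T2Space S]
    [LocallyCompactSpace S] [TopologicalSpace V] [T2Space V] [LocallyCompactSpace V] {q : S → Q.Pt}
    (hq : Continuous q) (t : Ico (0 : ℝ) 1) :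
    IsProperMap fun p : S × Cone Q × V => ch Q q (p, t) := by
  have h1 : IsClosedEmbedding fun p : S × Cone Q × V => (p, t) := by
    refine ⟨isEmbedding_prodMkLeft t, ?_⟩
    have h2 : range (fun p : S × Cone Q × V => (p, t)) =
        {x : (S × Cone Q × V) × Ico (0 : ℝ) 1 | x.2 = t} := by
      ext x
      constructor
      · rintro ⟨p, rfl⟩
        rfl
      · intro hx
        exact ⟨x.1, Prod.ext rfl (by exact hx.symm)⟩
    rw [h2]
    exact isClosed_eq continuous_snd continuous_const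
  exact (isProperMap_ch Q hq).comp h1.isProperMap

end PartAD4

section PartAE1

open scoped ENNReal Topology ZeroAtInfty
open Filter Topology Set

variable {Γ : Type} [Group Γ] {E : Type} [AddCommGroup E] [Module ℝ E] [TopologicalSpace E]
  [T2Space E] [ContinuousAdd E] [ContinuousSMul ℝ E] [DistribMulAction Γ E] [SMulCommClass Γ ℝ E]
  [ContinuousConstSMul Γ E] (Q : ConvexSpace Γ E) {S V : Type} [TopologicalSpace S] [T2Space S]
  [LocallyCompactSpace S] [MulAction Γ S] [ContinuousConstSMul Γ S] [TopologicalSpace V]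
  [T2Space V] [LocallyCompactSpace V] [MulAction Γ V] [ContinuousConstSMul Γ V]

omit [LocallyCompactSpace S] [MulAction Γ S] [ContinuousConstSMul Γ S] [T2Space V]
  [LocallyCompactSpace V] [MulAction Γ V] [ContinuousConstSMul Γ V] [T2Space S] [T2Space E]
  [SMulCommClass Γ ℝ E] [ContinuousConstSMul Γ E] in
/-- UNIFORM CONTINUITY in the direction of `E`. PROOF: let `K = tsupport f`, compact. For `p₀ ∈ K` there
are a neighbourhood `A` of `s₀`, `U₀` of `0 ∈ E`, `J` of `σ₀`, `B` of `v₀` with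
`‖f p - f p₀‖ ≤ ε/2` for `p = (s,(e,σ),v)`, `s ∈ A`, `e - e₀ ∈ U₀`, `σ ∈ J`, `v ∈ B`; choose a
symmetric `U₁` with `U₁ + U₁ ⊆ U₀`; finitely many sets `{s ∈ A, e - e₀ ∈ U₁, σ ∈ J, v ∈ B}` cover
`K`; `U` = intersection of the `U₁`, symmetric. If `p ∈ K` then `p, p'` are both in one of the big sets.
If `p' ∈ K` by symmetry. If neither, both values are `0`. Choose `U` balanced in the sense
`t • u ∈ U` for `0 ≤ t ≤ 1` (`balancedCore`, or first pass to a smaller neighbourhood: the basis of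
balanced neighbourhoods `(nhds_basis_balanced ℝ E)`). -/
theorem exists_unif_cont {f : S × Cone Q × V → ℂ} (hf : Continuous f) (hc : HasCompactSupport f)
    {ε : ℝ} (hε : 0 < ε) : ∃ U ∈ 𝓝 (0 : E), (∀ u ∈ U, ∀ t : ℝ, 0 ≤ t → t ≤ 1 → t • u ∈ U) ∧
      ∀ (s : S) (w w' : Cone Q) (v : V), w.1.2 = w'.1.2 → w.1.1 - w'.1.1 ∈ U →
        ‖f (s, w, v) - f (s, w', v)‖ ≤ ε := by
  have : ContinuousNeg E := ContinuousNeg.of_continuousConstSMul ℝ E
  have : IsTopologicalAddGroup E := { }
  have hK : IsCompact (tsupport f) := hc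
  have key : ∃ U ∈ 𝓝 (0 : E), ∀ p ∈ tsupport f, ∀ w' : Cone Q, p.2.1.1.2 = w'.1.2 →
      p.2.1.1.1 - w'.1.1 ∈ U → ‖f p - f (p.1, w', p.2.2)‖ ≤ ε := by
    refine hK.induction_on (p := fun A => ∃ U ∈ 𝓝 (0 : E), ∀ p ∈ A, ∀ w' : Cone Q,
      p.2.1.1.2 = w'.1.2 → p.2.1.1.1 - w'.1.1 ∈ U → ‖f p - f (p.1, w', p.2.2)‖ ≤ ε) ?_ ?_ ?_ ?_
    · exact ⟨univ, univ_mem, fun p hp => absurd hp (notMem_empty p)⟩
    · rintro A B hAB ⟨U, hU, h⟩
      exact ⟨U, hU, fun p hp => h p (hAB hp)⟩
    · rintro A B ⟨U, hU, h⟩ ⟨U', hU', h'⟩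
      refine ⟨U ∩ U', inter_mem hU hU', ?_⟩
      rintro p (hp | hp) w' h1 h2
      · exact h p hp w' h1 h2.1
      · exact h' p hp w' h1 h2.2
    · intro p₀ hp₀
      -- the filter
      let L : Filter ((S × Cone Q × V) × Cone Q) :=
        comap (fun x => (x.1, x.1.2.1.1.1 - x.2.1.1)) (𝓝 p₀ ×ˢ 𝓝 (0 : E)) ⊓
          𝓟 {x | x.1.2.1.1.2 = x.2.1.2}
      have hL : Tendsto (fun x : (S × Cone Q × V) × Cone Q => (x.1, x.1.2.1.1.1 - x.2.1.1)) L
          (𝓝 p₀ ×ˢ 𝓝 (0 : E)) := tendsto_comap.mono_left inf_le_left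
      have hL1 : Tendsto (fun x : (S × Cone Q × V) × Cone Q => x.1) L (𝓝 p₀) :=
        hL.fst
      have hL2 : Tendsto (fun x : (S × Cone Q × V) × Cone Q => x.1.2.1.1.1 - x.2.1.1) L
          (𝓝 (0 : E)) := hL.snd
      have hL3 : ∀ᶠ x in L, x.1.2.1.1.2 = x.2.1.2 := by
        have : {x : (S × Cone Q × V) × Cone Q | x.1.2.1.1.2 = x.2.1.2} ∈ L :=
          mem_inf_of_right (mem_principal_self _)
        exact this
      have cw : Continuous (fun p : S × Cone Q × V => (p.2.1.1 : E × ℝ)) :=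
        continuous_subtype_val.comp (continuous_fst.comp continuous_snd)
      have hw : Tendsto (fun x : (S × Cone Q × V) × Cone Q => (x.1.2.1.1 : E × ℝ)) L
          (𝓝 p₀.2.1.1) := (cw.tendsto p₀).comp hL1
      have hw1 : Tendsto (fun x : (S × Cone Q × V) × Cone Q => (x.2.1.1 : E)) L
          (𝓝 p₀.2.1.1.1) := by
        have h1 : Tendsto (fun x : (S × Cone Q × V) × Cone Q => (x.1.2.1.1.1 : E)) L
            (𝓝 p₀.2.1.1.1) := (continuous_fst.tendsto _).comp hw
        have h2 := h1.sub hL2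
        rw [sub_zero] at h2
        refine h2.congr fun x => ?_
        abel
      have hw2 : Tendsto (fun x : (S × Cone Q × V) × Cone Q => (x.2.1.2 : ℝ)) L
          (𝓝 p₀.2.1.1.2) := by
        have h1 : Tendsto (fun x : (S × Cone Q × V) × Cone Q => (x.1.2.1.1.2 : ℝ)) L
            (𝓝 p₀.2.1.1.2) := (continuous_snd.tendsto _).comp hw
        refine h1.congr' ?_
        filter_upwards [hL3] with x hx using hx
      have hw3 : Tendsto (fun x : (S × Cone Q × V) × Cone Q => x.2) L (𝓝 p₀.2.1) := by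
        have h1 : Tendsto (fun x : (S × Cone Q × V) × Cone Q => ((x.2.1.1, x.2.1.2) : E × ℝ)) L
            (𝓝 ((p₀.2.1.1.1, p₀.2.1.1.2) : E × ℝ)) := hw1.prodMk_nhds hw2
        exact tendsto_subtype_rng.2 h1
      have hp' : Tendsto (fun x : (S × Cone Q × V) × Cone Q => (x.1.1, x.2, x.1.2.2)) L
          (𝓝 p₀) := by
        have h1 : Tendsto (fun x : (S × Cone Q × V) × Cone Q => x.1.1) L (𝓝 p₀.1) :=
          (continuous_fst.tendsto _).comp hL1
        have h2 : Tendsto (fun x : (S × Cone Q × V) × Cone Q => x.1.2.2) L (𝓝 p₀.2.2) :=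
          ((continuous_snd.comp continuous_snd).tendsto _).comp hL1
        exact h1.prodMk_nhds (hw3.prodMk_nhds h2)
      have hd : Tendsto (fun x : (S × Cone Q × V) × Cone Q =>
          ‖f x.1 - f (x.1.1, x.2, x.1.2.2)‖) L (𝓝 0) := by
        have h1 := ((hf.tendsto p₀).comp hL1).sub ((hf.tendsto p₀).comp hp')
        rw [sub_self] at h1
        have h2 := h1.norm
        rw [norm_zero] at h2
        exact h2
      have he : ∀ᶠ x in L, ‖f x.1 - f (x.1.1, x.2, x.1.2.2)‖ ≤ ε :=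
        (hd.eventually (gt_mem_nhds hε)).mono fun x hx => le_of_lt hx
      obtain ⟨A, hA, B, hB, hAB⟩ := mem_inf_iff_superset.1 he
      obtain ⟨A', hA', hAA⟩ := mem_comap.1 hA
      obtain ⟨N, hN, U, hU, hNU⟩ := mem_prod_iff.1 hA'
      refine ⟨N, mem_nhdsWithin_of_mem_nhds hN, U, hU, ?_⟩
      intro p hp w' h1 h2
      have h3 : ((p, w') : (S × Cone Q × V) × Cone Q) ∈ B :=
        hB (show ((p, w') : (S × Cone Q × V) × Cone Q) ∈
          {x : (S × Cone Q × V) × Cone Q | x.1.2.1.1.2 = x.2.1.2} from h1)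
      have h4 : ((p, w') : (S × Cone Q × V) × Cone Q) ∈ A := hAA (hNU ⟨hp, h2⟩)
      exact hAB ⟨h4, h3⟩
  obtain ⟨U₀, hU₀, h₀⟩ := key
  obtain ⟨U, ⟨hU, hbal⟩, hUU⟩ := (nhds_basis_balanced ℝ E).mem_iff.1 hU₀
  refine ⟨U, hU, ?_, ?_⟩
  · intro u hu t ht0 ht1
    exact hbal t (by rw [Real.norm_eq_abs, abs_of_nonneg ht0]; exact ht1) (smul_mem_smul_set hu)
  · intro s w w' v h1 h2
    by_cases hp : (s, w, v) ∈ tsupport f
    · exact h₀ (s, w, v) hp w' h1 (hUU h2)
    · by_cases hp' : (s, w', v) ∈ tsupport f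
      · rw [norm_sub_rev]
        refine h₀ (s, w', v) hp' w h1.symm (hUU ?_)
        have h3 := hbal (-1 : ℝ) (by simp) (smul_mem_smul_set h2)
        rw [neg_one_smul, neg_sub] at h3
        exact h3
      · rw [image_eq_zero_of_notMem_tsupport hp, image_eq_zero_of_notMem_tsupport hp', sub_zero,
          norm_zero]
        exact hε.le

end PartAE1

section PartAE2

open scoped ENNReal Topology ZeroAtInfty
open Filter Topology Set

variable {Γ : Type} [Group Γ] {E : Type} [AddCommGroup E] [Module ℝ E] [TopologicalSpace E]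
  [T2Space E] [ContinuousAdd E] [ContinuousSMul ℝ E] [DistribMulAction Γ E] [SMulCommClass Γ ℝ E]
  [ContinuousConstSMul Γ E] (Q : ConvexSpace Γ E) {S V : Type} [TopologicalSpace S] [T2Space S]
  [LocallyCompactSpace S] [MulAction Γ S] [ContinuousConstSMul Γ S] [TopologicalSpace V]
  [T2Space V] [LocallyCompactSpace V] [MulAction Γ V] [ContinuousConstSMul Γ V]

/-- `q` is almost equivariant with respect to `K`, `F`, `U`. -/
def AlmostEq (K : Set S) (F : Finset Γ) (U : Set E) (q : S → Q.Pt) : Prop :=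
  ∀ s ∈ K, ∀ h ∈ F, Q.vec (q (h • s)) - h • Q.vec (q s) ∈ U

/-- The homotopy almost commutes with the action, tested by `f`. PROOF: `U` from `exists_unif_cont`,
`K = ⋃_{h ∈ F} h⁻¹ pr_S(tsupport f)`, compact. Let `p = (s, w, v)`. Both points
`ch q (h • p, t)` and `h • ch q (p, t)` have the `S`-coordinate `h s`, the `V`-coordinate `h v`, the same
second cone coordinate `(1-t) σ + t`, and the first cone coordinates `(1-t) h w.1 + t q(h s)` and
`(1-t) h w.1 + t h q(s)` (the action is linear). If `s ∈ K` their difference is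
`t (q(h s) - h q(s)) ∈ U`. If `s ∉ K` then `h s ∉ pr_S(tsupport f)` and both values are `0`. -/
theorem exists_almost_commute {f : S × Cone Q × V → ℂ} (hf : Continuous f)
    (hc : HasCompactSupport f) (F : Finset Γ) {ε : ℝ} (hε : 0 < ε) :
    ∃ (K : Set S) (U : Set E), IsCompact K ∧ U ∈ 𝓝 (0 : E) ∧ ∀ q : S → Q.Pt,
      AlmostEq Q K F U q → ∀ h ∈ F, ∀ (p : S × Cone Q × V) (t : Ico (0 : ℝ) 1),
        ‖f (ch Q q (h • p, t)) - f (h • ch Q q (p, t))‖ ≤ ε := by
  obtain ⟨U, hU, hU1, hU2⟩ := exists_unif_cont Q hf hc hε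
  have hK : IsCompact (tsupport f) := hc
  refine ⟨⋃ h ∈ F, (fun s : S => h⁻¹ • s) '' (Prod.fst '' tsupport f), U, ?_, hU, ?_⟩
  · refine F.isCompact_biUnion fun h _ => ?_
    exact (hK.image continuous_fst).image (continuous_const_smul h⁻¹)
  · intro q hq h hh p t
    obtain ⟨s, w, v⟩ := p
    by_cases hs : s ∈ ⋃ h ∈ F, (fun s : S => h⁻¹ • s) '' (Prod.fst '' tsupport f)
    · have h1 := hU1 _ (hq s hs h hh) t.1 t.2.1 t.2.2.le
      refine hU2 (h • s) (cmove Q (h • w) (q (h • s)) t) (h • cmove Q w (q s) t) (h • v) rfl ?_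
      have h2 : (cmove Q (h • w) (q (h • s)) t).1.1 - (h • cmove Q w (q s) t).1.1 =
          t.1 • (Q.vec (q (h • s)) - h • Q.vec (q s)) := by
        change ((1 - t.1) • (h • w.1.1) + t.1 • Q.vec (q (h • s))) -
          h • ((1 - t.1) • w.1.1 + t.1 • Q.vec (q s)) = _
        rw [smul_add, smul_comm h (1 - t.1), smul_comm h t.1, smul_sub]
        abel
      rw [h2]
      exact h1
    · have h3 : h • s ∉ Prod.fst '' tsupport f := by
        intro h4
        apply hs
        refine mem_iUnion₂.2 ⟨h, hh, ⟨h • s, h4, ?_⟩⟩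
        exact inv_smul_smul h s
      have h4 : ∀ (w' : Cone Q) (v' : V), f (h • s, w', v') = 0 := by
        intro w' v'
        apply image_eq_zero_of_notMem_tsupport
        intro h5
        exact h3 ⟨_, h5, rfl⟩
      have h5 : f (ch Q q (h • ((s, w, v) : S × Cone Q × V), t)) = 0 := h4 _ _
      have h6 : f (h • ch Q q (((s, w, v) : S × Cone Q × V), t)) = 0 := h4 _ _
      rw [h5, h6, sub_zero, norm_zero]
      exact hε.le

end PartAE2

section PartAE3

open scoped ENNReal Topology ZeroAtInfty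
open Filter Topology Set

variable {Γ : Type} [Group Γ] {E : Type} [AddCommGroup E] [Module ℝ E] [TopologicalSpace E]
  [T2Space E] [ContinuousAdd E] [ContinuousSMul ℝ E] [DistribMulAction Γ E] [SMulCommClass Γ ℝ E]
  [ContinuousConstSMul Γ E] (Q : ConvexSpace Γ E) {S V : Type} [TopologicalSpace S] [T2Space S]
  [LocallyCompactSpace S] [MulAction Γ S] [ContinuousConstSMul Γ S] [TopologicalSpace V]
  [T2Space V] [LocallyCompactSpace V] [MulAction Γ V] [ContinuousConstSMul Γ V]

/-- For finitely many functions at once. PROOF: induction on the list `l`: union of the compact sets,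
intersection of the neighbourhoods (`AlmostEq` is monotone). -/
theorem exists_almost_commute_list (l : List (Dat Γ (S × Cone Q × V)))
    (hl : ∀ d ∈ l, HasCompactSupport d.f) (F : Finset Γ) {ε : ℝ} (hε : 0 < ε) :
    ∃ (K : Set S) (U : Set E), IsCompact K ∧ U ∈ 𝓝 (0 : E) ∧ ∀ q : S → Q.Pt,
      AlmostEq Q K F U q → ∀ d ∈ l, ∀ h ∈ F, ∀ (p : S × Cone Q × V) (t : Ico (0 : ℝ) 1),
        ‖d.f (ch Q q (h • p, t)) - d.f (h • ch Q q (p, t))‖ ≤ ε := by
  induction l with
  | nil =>
    exact ⟨∅, univ, isCompact_empty, univ_mem, fun q _ d hd => absurd hd (by simp)⟩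
  | cons d l ih =>
    obtain ⟨K, U, hK, hU, h⟩ := ih fun d' hd' => hl d' (List.mem_cons_of_mem _ hd')
    obtain ⟨K', U', hK', hU', h'⟩ := exists_almost_commute Q (map_continuous d.f)
      (hl d List.mem_cons_self) F hε
    refine ⟨K ∪ K', U ∩ U', hK.union hK', inter_mem hU hU', ?_⟩
    intro q hq d' hd' g hg p t
    rcases List.mem_cons.1 hd' with rfl | hd'
    · exact h' q (fun s hs h hh => (hq s (Or.inr hs) h hh).2) g hg p t
    · exact h q (fun s hs h hh => (hq s (Or.inl hs) h hh).1) d' hd' g hg p t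

end PartAE3

section PartAE4

open scoped ENNReal Topology ZeroAtInfty
open Filter Topology Set

variable {Γ : Type} [Group Γ] {E : Type} [AddCommGroup E] [Module ℝ E] [TopologicalSpace E]
  [T2Space E] [ContinuousAdd E] [ContinuousSMul ℝ E] [DistribMulAction Γ E] [SMulCommClass Γ ℝ E]
  [ContinuousConstSMul Γ E] (Q : ConvexSpace Γ E) {S V : Type} [TopologicalSpace S] [T2Space S]
  [LocallyCompactSpace S] [MulAction Γ S] [ContinuousConstSMul Γ S] [TopologicalSpace V]
  [T2Space V] [LocallyCompactSpace V] [MulAction Γ V] [ContinuousConstSMul Γ V]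

/-- The list of data moved by the homotopy at time `t`. -/
def mv {q : S → Q.Pt} (hq : Continuous q) (t : Ico (0 : ℝ) 1) (l : List (Dat Γ (S × Cone Q × V))) :
    List (Dat Γ (S × Cone Q × V)) :=
  mapL (pullC (fun p => ch Q q (p, t)) (isProperMap_ch_slice Q hq t)) l

omit [T2Space E] [ContinuousAdd E] [ContinuousSMul ℝ E] [SMulCommClass Γ ℝ E]
  [ContinuousConstSMul Γ E] [T2Space S] [LocallyCompactSpace S] [ContinuousConstSMul Γ S]
  [T2Space V] [LocallyCompactSpace V] [ContinuousConstSMul Γ V] [MulAction Γ S] [MulAction Γ V] in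
private theorem AE4_norm_pullC_le {X Y : Type} [TopologicalSpace X] [TopologicalSpace Y]
    (p : X → Y) (hp : IsProperMap p) (f : C₀(Y, ℂ)) : ‖pullC p hp f‖ ≤ ‖f‖ := by
  rw [← ZeroAtInftyContinuousMap.norm_toBCF_eq_norm]
  refine (BoundedContinuousFunction.norm_le (norm_nonneg f)).2 fun x => ?_
  exact f.toBCF.norm_coe_le_norm (p x)

/-- NORM ESTIMATE. PROOF: `exists_window` for `G` = the set of the `d.g` and
`ε' = ε / (2 (nrm l + 1))` gives the window `S₀`. `exists_almost_commute_list` for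
`F = {d.g * r | d ∈ l, r ∈ S₀}` and `δ = ε / (2 (l.length + 1))`. For `p` and `ξ` supported in `S₀`:
`norm_sub_le_of_window` for the lists `mv l` at `p` and `l` at `ch q (p, t)` gives
`‖val (mv l) p ξ‖ ≤ ‖val l (ch q (p,t)) ξ‖ + l.length δ ‖ξ‖ ≤ (‖val l‖ + ε/2) ‖ξ‖`. `nrm (mv l) ≤
nrm l` (pull back does not increase the norm). So `‖val (mv l)‖ ≤ ‖val l‖ + ε/2 + ε' nrm l`. -/
theorem norm_mv_le (hA : PropA Γ) (l : List (Dat Γ (S × Cone Q × V)))
    (hl : ∀ d ∈ l, HasCompactSupport d.f) {ε : ℝ} (hε : 0 < ε) :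
    ∃ (F : Finset Γ) (K : Set S) (U : Set E), IsCompact K ∧ U ∈ 𝓝 (0 : E) ∧
      ∀ (q : S → Q.Pt) (hq : Continuous q), AlmostEq Q K F U q → ∀ t : Ico (0 : ℝ) 1,
        ‖val (mv Q hq t l)‖ ≤ ‖val l‖ + ε := by
  classical
  have hn : ∀ l' : List (Dat Γ (S × Cone Q × V)), 0 ≤ nrm l' := by
    intro l'
    unfold nrm
    apply List.sum_nonneg
    intro x hx
    obtain ⟨d, _, rfl⟩ := List.mem_map.1 hx
    exact norm_nonneg _
  have hnl := hn l
  let G : Finset Γ := (l.map Dat.g).toFinset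
  obtain ⟨S₀, hS₀⟩ := exists_window hA G (ε := ε / (2 * (nrm l + 1))) (by positivity)
  have hδ : 0 < ε / (2 * ((l.length : ℝ) + 1)) := by positivity
  obtain ⟨K, U, hK, hU, h⟩ := exists_almost_commute_list Q l hl
    ((G ×ˢ S₀).image fun x => x.1 * x.2) hδ
  refine ⟨(G ×ˢ S₀).image fun x => x.1 * x.2, K, U, hK, hU, ?_⟩
  intro q hq hae t
  have h1 := hS₀ (S × Cone Q × V) (mv Q hq t l) (by
    intro d hd
    obtain ⟨d', hd', rfl⟩ := List.mem_map.1 hd
    exact List.mem_toFinset.2 (List.mem_map.2 ⟨d', hd', rfl⟩)) (‖val l‖ + ε / 2) (by positivity) (by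
    intro y ξ hξ
    have h2 := norm_sub_le_of_window (Y := S × Cone Q × V) (Y' := S × Cone Q × V) S₀ hδ.le
      (l := mv Q hq t l) (l' := l) y (ch Q q (y, t)) (by
        unfold mv mapL
        rw [List.forall₂_map_left_iff, List.forall₂_same]
        intro d hd
        refine ⟨rfl, rfl, rfl, fun r hr => ?_⟩
        exact h q hae d hd (d.g * r) (Finset.mem_image.2 ⟨(d.g, r), Finset.mem_product.2
          ⟨List.mem_toFinset.2 (List.mem_map.2 ⟨d, hd, rfl⟩), hr⟩, rfl⟩) y t) ξ hξ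
    have h3 : ((mv Q hq t l).length : ℝ) = l.length := by
      unfold mv mapL
      rw [List.length_map]
    rw [h3] at h2
    have h4 : (l.length : ℝ) * (ε / (2 * ((l.length : ℝ) + 1))) ≤ ε / 2 := by
      rw [mul_div_assoc', div_le_div_iff₀ (by positivity) (by positivity)]
      nlinarith [hε.le, (Nat.cast_nonneg l.length : (0 : ℝ) ≤ l.length)]
    have h5 : ‖(val l : Fam Γ (S × Cone Q × V)) (ch Q q (y, t)) ξ‖ ≤ ‖val l‖ * ‖ξ‖ :=
      (ContinuousLinearMap.le_opNorm _ _).trans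
        (mul_le_mul_of_nonneg_right (Fam.norm_apply_le _ _) (norm_nonneg _))
    have h6 : ‖(val (mv Q hq t l) : Fam Γ (S × Cone Q × V)) y ξ‖ ≤
        ‖(val l : Fam Γ (S × Cone Q × V)) (ch Q q (y, t)) ξ‖ +
        ‖(val (mv Q hq t l) : Fam Γ (S × Cone Q × V)) y ξ -
          (val l : Fam Γ (S × Cone Q × V)) (ch Q q (y, t)) ξ‖ := by
      have := norm_add_le ((val l : Fam Γ (S × Cone Q × V)) (ch Q q (y, t)) ξ)
        ((val (mv Q hq t l) : Fam Γ (S × Cone Q × V)) y ξ -
          (val l : Fam Γ (S × Cone Q × V)) (ch Q q (y, t)) ξ)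
      rwa [add_sub_cancel] at this
    have h7 : (l.length : ℝ) * (ε / (2 * ((l.length : ℝ) + 1))) * ‖ξ‖ ≤ ε / 2 * ‖ξ‖ :=
      mul_le_mul_of_nonneg_right h4 (norm_nonneg _)
    calc _ ≤ _ := h6
      _ ≤ ‖val l‖ * ‖ξ‖ + ε / 2 * ‖ξ‖ := add_le_add h5 (h2.trans h7)
      _ = _ := by ring)
  have h2 : nrm (mv Q hq t l) ≤ nrm l := by
    unfold mv mapL nrm
    rw [List.map_map]
    apply List.sum_le_sum
    intro d _
    exact AE4_norm_pullC_le _ (isProperMap_ch_slice Q hq t) _
  have h3 : ε / (2 * (nrm l + 1)) * nrm (mv Q hq t l) ≤ ε / 2 := by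
    refine (mul_le_mul_of_nonneg_left h2 (by positivity)).trans ?_
    rw [div_mul_eq_mul_div, div_le_div_iff₀ (by positivity) (by positivity)]
    nlinarith [hε.le, hnl]
  linarith

end PartAE4

section PartAE5

open scoped ENNReal Topology ZeroAtInfty
open Filter Topology Set

variable {Γ : Type} [Group Γ] {E : Type} [AddCommGroup E] [Module ℝ E] [TopologicalSpace E]
  [T2Space E] [ContinuousAdd E] [ContinuousSMul ℝ E] [DistribMulAction Γ E] [SMulCommClass Γ ℝ E]
  [ContinuousConstSMul Γ E] (Q : ConvexSpace Γ E) {S V : Type} [TopologicalSpace S] [T2Space S]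
  [LocallyCompactSpace S] [MulAction Γ S] [ContinuousConstSMul Γ S] [TopologicalSpace V]
  [T2Space V] [LocallyCompactSpace V] [MulAction Γ V] [ContinuousConstSMul Γ V]

section AE5aux

variable {P : Type} [TopologicalSpace P] [MulAction Γ P] [ContinuousConstSMul Γ P]

omit [MulAction Γ P] [ContinuousConstSMul Γ P] in
private theorem AE5_nrm_nonneg (l : List (Dat Γ P)) : 0 ≤ nrm l := by
  unfold nrm
  apply List.sum_nonneg
  intro x hx
  obtain ⟨d, _, rfl⟩ := List.mem_map.1 hx
  exact norm_nonneg _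

private theorem AE5_norm_C0_le {f : C₀(P, ℂ)} {C : ℝ} (hC : 0 ≤ C) (h : ∀ p, ‖f p‖ ≤ C) :
    ‖f‖ ≤ C := by
  rw [← ZeroAtInftyContinuousMap.norm_toBCF_eq_norm]
  exact (BoundedContinuousFunction.norm_le hC).2 h

omit [MulAction Γ P] [ContinuousConstSMul Γ P] in
private theorem AE5_mapL_append (T : C₀(P, ℂ) → C₀(P, ℂ)) (l l' : List (Dat Γ P)) :
    mapL T (l ++ l') = mapL T l ++ mapL T l' := by
  unfold mapL
  exact List.map_append

private theorem AE5_one {h : P → P} (hh : IsProperMap h) (d : Dat Γ P) (l' : List (Dat Γ P))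
    {δ : ℝ} (hδ : 0 ≤ δ) (H : ∀ d' ∈ l', ∀ p, ‖d'.f (h (d.g⁻¹ • p)) - d'.f (d.g⁻¹ • h p)‖ ≤ δ) :
    ‖gen (pullC h hh d.f) d.g d.i d.j * val (mapL (pullC h hh) l') -
      val (mapL (pullC h hh) (l'.flatMap fun d' =>
        if d.j = d'.i then [⟨d.f * shift d.g d'.f, d.g * d'.g, d.i, d'.j⟩] else []))‖ ≤
      ‖d.f‖ * (l'.length * δ) := by
  induction l' with
  | nil =>
    simp [mapL, val_nil]
  | cons d' l' ih =>
    have ih' := ih fun d'' hd'' => H d'' (List.mem_cons_of_mem _ hd'')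
    have H' := H d' List.mem_cons_self
    have e1 : mapL (pullC h hh) (d' :: l') =
        (⟨pullC h hh d'.f, d'.g, d'.i, d'.j⟩ : Dat Γ P) :: mapL (pullC h hh) l' := rfl
    rw [e1, val_cons, List.flatMap_cons, AE5_mapL_append, val_append, mul_add]
    have key : ‖gen (pullC h hh d.f) d.g d.i d.j *
        (⟨pullC h hh d'.f, d'.g, d'.i, d'.j⟩ : Dat Γ P).gen -
        val (mapL (pullC h hh) (if d.j = d'.i then
          [(⟨d.f * shift d.g d'.f, d.g * d'.g, d.i, d'.j⟩ : Dat Γ P)] else []))‖ ≤ ‖d.f‖ * δ := by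
      change ‖gen (pullC h hh d.f) d.g d.i d.j * gen (pullC h hh d'.f) d'.g d'.i d'.j - _‖ ≤ _
      rw [gen_mul_gen]
      by_cases hij : d.j = d'.i
      · rw [if_pos hij, if_pos hij]
        have e2 : (val (mapL (pullC h hh)
            [(⟨d.f * shift d.g d'.f, d.g * d'.g, d.i, d'.j⟩ : Dat Γ P)]) : Fam Γ P) =
            gen (pullC h hh (d.f * shift d.g d'.f)) (d.g * d'.g) d.i d'.j := by
          change val [_] = _
          rw [val_cons, val_nil, add_zero]
          rfl
        rw [e2, ← gen_sub]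
        refine (norm_gen_le _ _ _ _).trans ?_
        refine AE5_norm_C0_le (by positivity) fun p => ?_
        change ‖d.f (h p) * d'.f (h (d.g⁻¹ • p)) - d.f (h p) * d'.f (d.g⁻¹ • h p)‖ ≤ _
        rw [← mul_sub, norm_mul]
        exact mul_le_mul (d.f.toBCF.norm_coe_le_norm (h p)) (H' p) (norm_nonneg _) (norm_nonneg _)
      · rw [if_neg hij, if_neg hij]
        change ‖(0 : Fam Γ P) - val []‖ ≤ _
        rw [val_nil, sub_zero, norm_zero]
        positivity
    have e3 : ∀ a b c d : Fam Γ P, a + b - (c + d) = (a - c) + (b - d) := by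
      intro a b c d
      abel
    rw [e3]
    refine (norm_add_le _ _).trans ((add_le_add key ih').trans ?_)
    rw [List.length_cons]
    push_cast
    apply le_of_eq
    ring

private theorem AE5_all {h : P → P} (hh : IsProperMap h) (l l' : List (Dat Γ P))
    {δ : ℝ} (hδ : 0 ≤ δ) (H : ∀ d ∈ l, ∀ d' ∈ l', ∀ p,
      ‖d'.f (h (d.g⁻¹ • p)) - d'.f (d.g⁻¹ • h p)‖ ≤ δ) :
    ‖val (mapL (pullC h hh) l) * val (mapL (pullC h hh) l') -
      val (mapL (pullC h hh) (mulL l l'))‖ ≤ nrm l * (l'.length * δ) := by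
  induction l with
  | nil =>
    change ‖val [] * _ - val []‖ ≤ _
    rw [val_nil, zero_mul, sub_zero, norm_zero]
    exact mul_nonneg (AE5_nrm_nonneg _) (by positivity)
  | cons d l ih =>
    have ih' := ih fun d'' hd'' => H d'' (List.mem_cons_of_mem _ hd'')
    have h1 := AE5_one hh d l' hδ (H d List.mem_cons_self)
    have e1 : mapL (pullC h hh) (d :: l) =
        (⟨pullC h hh d.f, d.g, d.i, d.j⟩ : Dat Γ P) :: mapL (pullC h hh) l := rfl
    have e2 : mulL (d :: l) l' = (l'.flatMap fun d' =>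
        if d.j = d'.i then [(⟨d.f * shift d.g d'.f, d.g * d'.g, d.i, d'.j⟩ : Dat Γ P)] else []) ++
        mulL l l' := by
      unfold mulL
      rw [List.flatMap_cons]
    rw [e1, e2, val_cons, AE5_mapL_append, val_append, add_mul]
    have e3 : ∀ a b c d : Fam Γ P, a + b - (c + d) = (a - c) + (b - d) := by
      intro a b c d
      abel
    rw [e3]
    refine (norm_add_le _ _).trans ((add_le_add h1 ih').trans ?_)
    have e4 : nrm (d :: l) = ‖d.f‖ + nrm l := by
      simp [nrm]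
    rw [e4]
    apply le_of_eq
    ring

end AE5aux

/-- ALMOST MULTIPLICATIVE. PROOF: by `val_mulL`-like expansions both sides are the sums over the pairs
`(d, d')` with `d.j = d'.i` of the generators with the functions
`(d.f ∘ h_t) * shift g (d'.f ∘ h_t)` and `(d.f * shift g d'.f) ∘ h_t` (`g = d.g`), whose difference at
`p` is `d.f (h_t p) (d'.f (h_t (g⁻¹ p)) - d'.f (g⁻¹ h_t p))`, of norm `≤ ‖d.f‖ δ` by
`exists_almost_commute_list` (for `l'`, `F = {d.g⁻¹}`). Sum: `≤ nrm l * l'.length * δ`. Precisely: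
`val (mv l) * val (mv l') = val (mulL (mv l) (mv l'))`, compare with `val (mv (mulL l l'))`, double
induction or `norm_gen_le`, `gen_sub`. -/
theorem norm_mul_mv_sub_le (l l' : List (Dat Γ (S × Cone Q × V)))
    (hl' : ∀ d ∈ l', HasCompactSupport d.f) {ε : ℝ} (hε : 0 < ε) :
    ∃ (F : Finset Γ) (K : Set S) (U : Set E), IsCompact K ∧ U ∈ 𝓝 (0 : E) ∧
      ∀ (q : S → Q.Pt) (hq : Continuous q), AlmostEq Q K F U q → ∀ t : Ico (0 : ℝ) 1,
        ‖val (mv Q hq t l) * val (mv Q hq t l') - val (mv Q hq t (mulL l l'))‖ ≤ ε := by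
  classical
  have hnl : 0 ≤ nrm l := AE5_nrm_nonneg l
  have hδ : 0 < ε / ((nrm l + 1) * ((l'.length : ℝ) + 1)) := by positivity
  obtain ⟨K, U, hK, hU, h⟩ := exists_almost_commute_list Q l' hl'
    ((l.map fun d => d.g⁻¹).toFinset) hδ
  refine ⟨(l.map fun d => d.g⁻¹).toFinset, K, U, hK, hU, ?_⟩
  intro q hq hae t
  have h1 := AE5_all (isProperMap_ch_slice (V := V) Q hq t) l l' hδ.le (by
    intro d hd d' hd' p
    exact h q hae d' hd' d.g⁻¹ (List.mem_toFinset.2 (List.mem_map.2 ⟨d, hd, rfl⟩)) p t)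
  refine h1.trans ?_
  have h2 : nrm l * ((l'.length : ℝ) * (ε / ((nrm l + 1) * ((l'.length : ℝ) + 1)))) =
      (nrm l / (nrm l + 1)) * ((l'.length : ℝ) / ((l'.length : ℝ) + 1)) * ε := by
    field_simp
  rw [h2]
  have h3 : nrm l / (nrm l + 1) ≤ 1 := by
    rw [div_le_one (by positivity)]
    linarith
  have h4 : (l'.length : ℝ) / ((l'.length : ℝ) + 1) ≤ 1 := by
    rw [div_le_one (by positivity)]
    linarith
  have h5 : (nrm l / (nrm l + 1)) * ((l'.length : ℝ) / ((l'.length : ℝ) + 1)) ≤ 1 :=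
    mul_le_one₀ h3 (by positivity) h4
  calc _ ≤ 1 * ε := mul_le_mul_of_nonneg_right h5 hε.le
    _ = ε := one_mul ε

end PartAE5

section PartAE6

open scoped ENNReal Topology ZeroAtInfty
open Filter Topology Set

variable {Γ : Type} [Group Γ] {E : Type} [AddCommGroup E] [Module ℝ E] [TopologicalSpace E]
  [T2Space E] [ContinuousAdd E] [ContinuousSMul ℝ E] [DistribMulAction Γ E] [SMulCommClass Γ ℝ E]
  [ContinuousConstSMul Γ E] (Q : ConvexSpace Γ E) {S V : Type} [TopologicalSpace S] [T2Space S]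
  [LocallyCompactSpace S] [MulAction Γ S] [ContinuousConstSMul Γ S] [TopologicalSpace V]
  [T2Space V] [LocallyCompactSpace V] [MulAction Γ V] [ContinuousConstSMul Γ V]

/-- PROOF: `exists_small_near_one` for `ch Q q` and each function, `norm_val_le`. -/
theorem norm_mv_small {q : S → Q.Pt} (hq : Continuous q) (l : List (Dat Γ (S × Cone Q × V)))
    {ε : ℝ} (hε : 0 < ε) : ∃ t₁ : ℝ, 0 ≤ t₁ ∧ t₁ < 1 ∧ ∀ t : Ico (0 : ℝ) 1, t₁ < t →
      ‖val (mv Q hq t l)‖ ≤ ε := by
  induction l generalizing ε with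
  | nil =>
    refine ⟨0, le_rfl, by norm_num, fun t _ => ?_⟩
    change ‖(val [] : Fam Γ (S × Cone Q × V))‖ ≤ ε
    rw [val_nil, norm_zero]
    exact hε.le
  | cons d l ih =>
    obtain ⟨t₁, h0, h1, h⟩ := ih (half_pos hε)
    obtain ⟨t₂, h2, h'⟩ := exists_small_near_one (isProperMap_ch (V := V) Q hq) d.f (half_pos hε)
    refine ⟨max t₁ t₂, h0.trans (le_max_left _ _), max_lt h1 h2, fun t ht => ?_⟩
    have e1 : mv Q hq t (d :: l) =
        (⟨pullC (fun p => ch Q q (p, t)) (isProperMap_ch_slice Q hq t) d.f, d.g, d.i, d.j⟩ :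
          Dat Γ (S × Cone Q × V)) :: mv Q hq t l := rfl
    rw [e1, val_cons]
    refine (norm_add_le _ _).trans ?_
    have h3 := h t ((le_max_left _ _).trans_lt ht)
    have h4 : ‖(⟨pullC (fun p => ch Q q (p, t)) (isProperMap_ch_slice Q hq t) d.f, d.g, d.i,
        d.j⟩ : Dat Γ (S × Cone Q × V)).gen‖ ≤ ε / 2 := by
      refine (norm_gen_le _ _ _ _).trans ?_
      rw [← ZeroAtInftyContinuousMap.norm_toBCF_eq_norm]
      refine (BoundedContinuousFunction.norm_le (half_pos hε).le).2 fun p => ?_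
      exact h' t ((le_max_right _ _).trans_lt ht) p
    linarith

/-- PROOF: `exists_unif_close` for the proper map `P × [0,1] → P`, `(p, r) ↦ ch q (p, r t₂)`, for each
function; `gen_sub`, `norm_gen_le`. -/
theorem continuous_mv {q : S → Q.Pt} (hq : Continuous q) (l : List (Dat Γ (S × Cone Q × V)))
    (t₂ : Ico (0 : ℝ) 1) : ContinuousOn (fun r : ℝ => if h : r ∈ Icc (0 : ℝ) 1 then
      (val (mv Q hq ⟨r * t₂.1, mul_nonneg h.1 t₂.2.1,
        (mul_le_of_le_one_left t₂.2.1 h.2).trans_lt t₂.2.2⟩ l) : Fam Γ (S × Cone Q × V)) else 0)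
      (Icc 0 1) := by
  induction l with
  | nil =>
    have : (fun r : ℝ => if h : r ∈ Icc (0 : ℝ) 1 then
      (val (mv Q hq ⟨r * t₂.1, mul_nonneg h.1 t₂.2.1,
        (mul_le_of_le_one_left t₂.2.1 h.2).trans_lt t₂.2.2⟩ ([] : List (Dat Γ (S × Cone Q × V)))) :
          Fam Γ (S × Cone Q × V)) else 0) = fun _ => 0 := by
      funext r
      split_ifs with h
      · rfl
      · rfl
    rw [this]
    exact continuousOn_const
  | cons d l ih =>
    -- the homotopy on the closed interval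
    let k : (S × Cone Q × V) × Icc (0 : ℝ) 1 → (S × Cone Q × V) × Ico (0 : ℝ) 1 :=
      Prod.map id (fun r => ⟨r.1 * t₂.1, mul_nonneg r.2.1 t₂.2.1,
        (mul_le_of_le_one_left t₂.2.1 r.2.2).trans_lt t₂.2.2⟩)
    have hk : IsProperMap k := by
      refine isProperMap_id.prodMap ?_
      refine Continuous.isProperMap ?_
      exact Continuous.subtype_mk (continuous_subtype_val.mul continuous_const) _
    have hh : IsProperMap (ch Q (V := V) q ∘ k) := (isProperMap_ch Q hq).comp hk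
    have hone : ContinuousOn (fun r : ℝ => if h : r ∈ Icc (0 : ℝ) 1 then
        ((⟨pullC (fun p => ch Q q (p, ⟨r * t₂.1, mul_nonneg h.1 t₂.2.1,
          (mul_le_of_le_one_left t₂.2.1 h.2).trans_lt t₂.2.2⟩)) (isProperMap_ch_slice Q hq _) d.f,
          d.g, d.i, d.j⟩ : Dat Γ (S × Cone Q × V)).gen : Fam Γ (S × Cone Q × V)) else 0)
        (Icc 0 1) := by
      refine continuousOn_iff_continuous_domRestrict.2 (continuous_iff_continuousAt.2 fun r₀ => ?_)
      rw [ContinuousAt, Metric.tendsto_nhds]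
      intro ε hε
      have h1 := exists_unif_close hh d.f r₀ (half_pos hε)
      filter_upwards [h1] with r hr
      change dist (dite _ _ _) (dite _ _ _) < ε
      rw [dif_pos r.2, dif_pos r₀.2, dist_eq_norm]
      change ‖gen _ _ _ _ - gen _ _ _ _‖ < ε
      rw [← gen_sub]
      refine ((norm_gen_le _ _ _ _).trans ?_).trans_lt (half_lt_self hε)
      rw [← ZeroAtInftyContinuousMap.norm_toBCF_eq_norm]
      refine (BoundedContinuousFunction.norm_le (half_pos hε).le).2 fun p => ?_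
      exact hr p
    refine (hone.add ih).congr ?_
    intro r hr
    simp only [dif_pos hr]
    have e1 : mv Q hq ⟨r * t₂.1, mul_nonneg hr.1 t₂.2.1,
        (mul_le_of_le_one_left t₂.2.1 hr.2).trans_lt t₂.2.2⟩ (d :: l) =
        (⟨pullC (fun p => ch Q q (p, ⟨r * t₂.1, mul_nonneg hr.1 t₂.2.1,
          (mul_le_of_le_one_left t₂.2.1 hr.2).trans_lt t₂.2.2⟩)) (isProperMap_ch_slice Q hq _) d.f,
          d.g, d.i, d.j⟩ : Dat Γ (S × Cone Q × V)) :: mv Q hq ⟨r * t₂.1, mul_nonneg hr.1 t₂.2.1,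
        (mul_le_of_le_one_left t₂.2.1 hr.2).trans_lt t₂.2.2⟩ l := rfl
    rw [e1, val_cons]
    simp only [Pi.add_apply, dif_pos hr]

end PartAE6

section PartAE7

open scoped ENNReal Topology ZeroAtInfty
open Filter Topology Set

variable {Γ : Type} [Group Γ] {E : Type} [AddCommGroup E] [Module ℝ E] [TopologicalSpace E]
  [T2Space E] [ContinuousAdd E] [ContinuousSMul ℝ E] [DistribMulAction Γ E] [SMulCommClass Γ ℝ E]
  [ContinuousConstSMul Γ E] (Q : ConvexSpace Γ E) {S V : Type} [TopologicalSpace S] [T2Space S]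
  [LocallyCompactSpace S] [MulAction Γ S] [ContinuousConstSMul Γ S] [TopologicalSpace V]
  [T2Space V] [LocallyCompactSpace V] [MulAction Γ V] [ContinuousConstSMul Γ V]

omit [T2Space E] [ContinuousAdd E] [ContinuousSMul ℝ E] [SMulCommClass Γ ℝ E]
  [ContinuousConstSMul Γ E] in
private theorem AE7_small {B : Type} [NormedRing B] (u : Bˣ) :
    ∃ η : ℝ, 0 < η ∧ ∀ b c : B, ‖(u : B) - 1 - b‖ < η → ‖((u⁻¹ : Bˣ) : B) - 1 - c‖ < η →
      ‖b + c + b * c‖ ≤ 1 / 4 ∧ ‖c + b + c * b‖ ≤ 1 / 4 := by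
  set b' : B := (u : B) - 1 with hb'
  set c' : B := ((u⁻¹ : Bˣ) : B) - 1 with hc'
  have h1 : b' + c' + b' * c' = 0 := by
    rw [hb', hc']
    have : (u : B) * ((u⁻¹ : Bˣ) : B) = 1 := Units.mul_inv u
    have e : ((u : B) - 1) + (((u⁻¹ : Bˣ) : B) - 1) + ((u : B) - 1) * (((u⁻¹ : Bˣ) : B) - 1) =
        (u : B) * ((u⁻¹ : Bˣ) : B) - 1 := by noncomm_ring
    rw [e, this, sub_self]
  have h2 : c' + b' + c' * b' = 0 := by
    rw [hb', hc']
    have : ((u⁻¹ : Bˣ) : B) * (u : B) = 1 := Units.inv_mul u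
    have e : (((u⁻¹ : Bˣ) : B) - 1) + ((u : B) - 1) + (((u⁻¹ : Bˣ) : B) - 1) * ((u : B) - 1) =
        ((u⁻¹ : Bˣ) : B) * (u : B) - 1 := by noncomm_ring
    rw [e, this, sub_self]
  set M : ℝ := ‖b'‖ + ‖c'‖ + 3 with hM
  have hM0 : 0 < M := by positivity
  refine ⟨min 1 (1 / (4 * M)), lt_min one_pos (by positivity), ?_⟩
  intro b c hb hc
  have hb1 : ‖b' - b‖ < 1 := hb.trans_le (min_le_left _ _)
  have hc1 : ‖c' - c‖ < 1 := hc.trans_le (min_le_left _ _)
  have hb2 : ‖b' - b‖ ≤ 1 / (4 * M) := (hb.trans_le (min_le_right _ _)).le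
  have hc2 : ‖c' - c‖ ≤ 1 / (4 * M) := (hc.trans_le (min_le_right _ _)).le
  have hcn : ‖c‖ ≤ ‖c'‖ + 1 := by
    have : c = c' - (c' - c) := by abel
    rw [this]
    exact (norm_sub_le _ _).trans (by linarith)
  have hbn : ‖b‖ ≤ ‖b'‖ + 1 := by
    have : b = b' - (b' - b) := by abel
    rw [this]
    exact (norm_sub_le _ _).trans (by linarith)
  have hb0 := norm_nonneg b'
  have hc0 := norm_nonneg c'
  have gen : ∀ x x' y y' : B, x' + y' + x' * y' = 0 → ‖x' - x‖ ≤ 1 / (4 * M) →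
      ‖y' - y‖ ≤ 1 / (4 * M) → ‖x'‖ + ‖y‖ + 2 ≤ M → ‖x + y + x * y‖ ≤ 1 / 4 := by
    intro x x' y y' h hx hy hxy
    have e : x + y + x * y = -((x' - x) + (y' - y) + (x' - x) * y + x' * (y' - y)) +
        (x' + y' + x' * y') := by noncomm_ring
    rw [e, h, add_zero, norm_neg]
    have h3 : ‖(x' - x) * y‖ ≤ 1 / (4 * M) * ‖y‖ :=
      (norm_mul_le _ _).trans (mul_le_mul_of_nonneg_right hx (norm_nonneg _))
    have h4 : ‖x' * (y' - y)‖ ≤ ‖x'‖ * (1 / (4 * M)) :=
      (norm_mul_le _ _).trans (mul_le_mul_of_nonneg_left hy (norm_nonneg _))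
    have h5 : ‖(x' - x) + (y' - y) + (x' - x) * y + x' * (y' - y)‖ ≤
        1 / (4 * M) + 1 / (4 * M) + 1 / (4 * M) * ‖y‖ + ‖x'‖ * (1 / (4 * M)) := by
      refine (norm_add_le _ _).trans (add_le_add ?_ h4)
      refine (norm_add_le _ _).trans (add_le_add ?_ h3)
      exact (norm_add_le _ _).trans (add_le_add hx hy)
    refine h5.trans ?_
    have h6 : 1 / (4 * M) + 1 / (4 * M) + 1 / (4 * M) * ‖y‖ + ‖x'‖ * (1 / (4 * M)) =
        1 / (4 * M) * (‖x'‖ + ‖y‖ + 2) := by ring
    rw [h6]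
    calc 1 / (4 * M) * (‖x'‖ + ‖y‖ + 2) ≤ 1 / (4 * M) * M :=
          mul_le_mul_of_nonneg_left hxy (by positivity)
      _ = 1 / 4 := by field_simp
  refine ⟨gen b b' c c' h1 hb2 hc2 (by linarith), gen c c' b b' h2 hc2 hb2 (by linarith)⟩

private theorem AE7_mv_append {q : S → Q.Pt} (hq : Continuous q) (t : Ico (0 : ℝ) 1)
    (l l' : List (Dat Γ (S × Cone Q × V))) :
    mv Q hq t (l ++ l') = mv Q hq t l ++ mv Q hq t l' := by
  unfold mv mapL
  exact List.map_append

private theorem AE7_mulL_supp (l l' : List (Dat Γ (S × Cone Q × V)))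
    (hl : ∀ d ∈ l, HasCompactSupport d.f) : ∀ d ∈ mulL l l', HasCompactSupport d.f := by
  intro d hd
  unfold mulL at hd
  obtain ⟨a, ha, hd⟩ := List.mem_flatMap.1 hd
  obtain ⟨b, hb, hd⟩ := List.mem_flatMap.1 hd
  split_ifs at hd with hab
  · rw [List.mem_singleton] at hd
    rw [hd]
    have h1 := hl a ha
    exact h1.mul_right
  · simp at hd

/-- The moved elements satisfy the almost inverse condition. -/
private theorem AE7_key (hA : PropA Γ) (l l' : List (Dat Γ (S × Cone Q × V)))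
    (hl : ∀ d ∈ l, HasCompactSupport d.f) (hl' : ∀ d ∈ l', HasCompactSupport d.f)
    (h : ‖val l + val l' + val l * val l'‖ ≤ 1 / 4) :
    ∃ (F : Finset Γ) (K : Set S) (U : Set E), IsCompact K ∧ U ∈ 𝓝 (0 : E) ∧
      ∀ (q : S → Q.Pt) (hq : Continuous q), AlmostEq Q K F U q → ∀ t : Ico (0 : ℝ) 1,
        ‖val (mv Q hq t l) + val (mv Q hq t l') + val (mv Q hq t l) * val (mv Q hq t l')‖ < 1 := by
  have hs : ∀ d ∈ l ++ l' ++ mulL l l', HasCompactSupport d.f := by
    intro d hd
    rcases List.mem_append.1 hd with hd | hd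
    · rcases List.mem_append.1 hd with hd | hd
      · exact hl d hd
      · exact hl' d hd
    · exact AE7_mulL_supp Q l l' hl d hd
  obtain ⟨F₁, K₁, U₁, hK₁, hU₁, h₁⟩ := norm_mv_le Q hA (l ++ l' ++ mulL l l') hs
    (ε := 1 / 4) (by norm_num)
  obtain ⟨F₂, K₂, U₂, hK₂, hU₂, h₂⟩ := norm_mul_mv_sub_le Q l l' hl' (ε := 1 / 4) (by norm_num)
  classical
  refine ⟨F₁ ∪ F₂, K₁ ∪ K₂, U₁ ∩ U₂, hK₁.union hK₂, inter_mem hU₁ hU₂, ?_⟩
  intro q hq hae t
  have g₁ := h₁ q hq (fun s hs g hg => (hae s (Or.inl hs) g (Finset.mem_union_left _ hg)).1) t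
  have g₂ := h₂ q hq (fun s hs g hg => (hae s (Or.inr hs) g (Finset.mem_union_right _ hg)).2) t
  rw [AE7_mv_append, AE7_mv_append, val_append, val_append, val_append, val_append, val_mulL] at g₁
  have e : val (mv Q hq t l) + val (mv Q hq t l') + val (mv Q hq t l) * val (mv Q hq t l') =
      (val (mv Q hq t l) + val (mv Q hq t l') + val (mv Q hq t (mulL l l'))) +
      (val (mv Q hq t l) * val (mv Q hq t l') - val (mv Q hq t (mulL l l'))) := by abel
  rw [e]
  refine (norm_add_le _ _).trans_lt ?_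
  linarith

/-- AMENABLE SPACES. PROOF. Let `u ∈ GL1 (cp Γ P)`, `P = S × Cone Q × V`. Let `η` be as in
`exists_near_unit` (`A = A₀ = cp Γ P`), made so small that `‖b + c + b c‖ ≤ 1/4` and
`‖c + b + c b‖ ≤ 1/4` whenever `‖u - 1 - b‖ < η`, `‖u⁻¹ - 1 - c‖ < η` (see the proof there). Choose
lists `l, l'` with compactly supported functions and `b = val l`, `c = val l'` (`exists_val_near`). By
`norm_mv_le` for the lists `l ++ l' ++ mulL l l'` and `l' ++ l ++ mulL l' l` (`ε = 1/4`) and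
`norm_mul_mv_sub_le` for `(l, l')`, `(l', l)` (`ε = 1/4`), and `exists_almost_equivariant` there is a
continuous `q : S → Q` such that for all `t`, with `B = val (mv t l)`, `C = val (mv t l')`:
`‖B + C + B C‖ ≤ 1/4 + 1/4 + 1/4 < 1` and the same for `C + B + C B` (`mv` of an append is the
append; `val_append`). So by `exists_unit_of_almost_inverse` `1 + val (mv t l)` is a unit in
`GL1 (cp Γ P)` for every `t ∈ [0,1)`. Choose `t₂ < 1` with `‖val (mv t₂ l)‖ < 1` (`norm_mv_small`): the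
unit is in `E1`. By `continuous_mv`, `E1_of_path` the unit `1 + val (mv 0 l) = 1 + b` is in `E1` too
(`mv 0 l` has the same functions as `l`: `ch q (p, 0) = p`). Finally `u⁻¹ (1 + b) ∈ E1`. -/
theorem GL1_le_E1_of_amenable (hA : PropA Γ) (hS : AmenableAction Γ S) :
    GL1 (cp Γ (S × Cone Q × V)) ≤ E1 (cp Γ (S × Cone Q × V)) := by
  intro u hu
  have hcl : IsClosed (cp Γ (S × Cone Q × V) : Set (Fam Γ (S × Cone Q × V))) := isClosed_cp
  obtain ⟨η₁, hη₁, H₁⟩ := exists_near_unit (A := cp Γ (S × Cone Q × V))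
    (A₀ := cp Γ (S × Cone Q × V)) hcl le_rfl hu
  obtain ⟨η₂, hη₂, H₂⟩ := AE7_small u
  have hη : 0 < min η₁ η₂ := lt_min hη₁ hη₂
  obtain ⟨l, hl, hlu⟩ := exists_val_near hu.1 hη
  obtain ⟨l', hl', hlu'⟩ := exists_val_near hu.2 hη
  obtain ⟨v, hv, hv1, hv2⟩ := H₁ (val l) (val_mem l) (val l') (val_mem l')
    (hlu.trans_le (min_le_left _ _)) (hlu'.trans_le (min_le_left _ _))
  obtain ⟨b1, b2⟩ := H₂ (val l) (val l') (hlu.trans_le (min_le_right _ _))
    (hlu'.trans_le (min_le_right _ _))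
  obtain ⟨F₁, K₁, U₁, hK₁, hU₁, h₁⟩ := AE7_key Q hA l l' hl hl' b1
  obtain ⟨F₂, K₂, U₂, hK₂, hU₂, h₂⟩ := AE7_key Q hA l' l hl' hl b2
  classical
  obtain ⟨q, hq, hae⟩ := exists_almost_equivariant Q hS (hK₁.union hK₂) (F₁ ∪ F₂)
    (inter_mem hU₁ hU₂)
  have g₁ := h₁ q hq (fun s hs g hg => (hae s (Or.inl hs) g (Finset.mem_union_left _ hg)).1)
  have g₂ := h₂ q hq (fun s hs g hg => (hae s (Or.inr hs) g (Finset.mem_union_right _ hg)).2)
  have hun : ∀ t : Ico (0 : ℝ) 1, ∃ w ∈ GL1 (cp Γ (S × Cone Q × V)),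
      (w : Fam Γ (S × Cone Q × V)) = 1 + val (mv Q hq t l) := fun t =>
    exists_unit_of_almost_inverse hcl (val_mem _) (val_mem _) (g₁ t) (g₂ t)
  choose w hw hw' using hun
  obtain ⟨t₁, ht0, ht1, hsm⟩ := norm_mv_small Q hq l (ε := 1 / 2) (by norm_num)
  have ht2 : t₁ < (t₁ + 1) / 2 ∧ (t₁ + 1) / 2 < 1 := by constructor <;> linarith
  let t₂ : Ico (0 : ℝ) 1 := ⟨(t₁ + 1) / 2, by linarith, ht2.2⟩
  have hE2 : w t₂ ∈ E1 (cp Γ (S × Cone Q × V)) := by
    refine mem_E1_of_small (hw t₂) ?_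
    rw [hw', add_sub_cancel_left]
    exact (hsm t₂ ht2.1).trans_lt (by norm_num)
  -- the path
  let p : ℝ → (Fam Γ (S × Cone Q × V))ˣ := fun r =>
    if h : r ∈ Icc (0 : ℝ) 1 then w ⟨r * t₂.1, mul_nonneg h.1 t₂.2.1,
        (mul_le_of_le_one_left t₂.2.1 h.2).trans_lt t₂.2.2⟩ else 1
  have hp : ∀ r ∈ Icc (0 : ℝ) 1, p r ∈ GL1 (cp Γ (S × Cone Q × V)) := by
    intro r hr
    have : p r = w ⟨r * t₂.1, mul_nonneg hr.1 t₂.2.1,
        (mul_le_of_le_one_left t₂.2.1 hr.2).trans_lt t₂.2.2⟩ := dif_pos hr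
    rw [this]
    exact hw _
  have hc : ContinuousOn (fun r => ((p r : (Fam Γ (S × Cone Q × V))ˣ) : Fam Γ (S × Cone Q × V)))
      (Icc 0 1) := by
    have h1 := continuous_mv Q hq l t₂
    have h2 : ContinuousOn (fun _ : ℝ => (1 : Fam Γ (S × Cone Q × V))) (Icc 0 1) :=
      continuousOn_const
    refine (h2.add h1).congr ?_
    intro r hr
    have e1 : p r = w ⟨r * t₂.1, mul_nonneg hr.1 t₂.2.1,
        (mul_le_of_le_one_left t₂.2.1 hr.2).trans_lt t₂.2.2⟩ := dif_pos hr
    simp only [e1]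
    rw [hw']
    simp only [Pi.add_apply, dif_pos hr]
  have hpath := E1_of_path p hp hc
  have e0 : p 0 = v := by
    have h0 : p 0 = w ⟨0 * t₂.1, _⟩ := dif_pos (by simp)
    rw [h0]
    ext1
    rw [hw', hv1]
    congr 1
    have e1 : (⟨0 * t₂.1, by rw [zero_mul]; simp⟩ : Ico (0 : ℝ) 1) = ⟨0, by simp⟩ :=
      Subtype.ext (zero_mul _)
    have e2 : mv Q hq ⟨0, by simp⟩ l = l := by
      unfold mv mapL
      have : ∀ d ∈ l, (⟨pullC (fun p => ch Q q (p, ⟨0, by simp⟩))
          (isProperMap_ch_slice Q hq ⟨0, by simp⟩) d.f, d.g, d.i, d.j⟩ :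
          Dat Γ (S × Cone Q × V)) = d := by
        intro d _
        obtain ⟨f, g, i, j⟩ := d
        have e3 : pullC (fun p => ch Q q (p, ⟨0, by simp⟩))
          (isProperMap_ch_slice Q hq ⟨0, by simp⟩) f = f := by
          ext x
          obtain ⟨s, y, z⟩ := x
          change f (s, cmove Q y (q s) ⟨0, by simp⟩, z) = f (s, y, z)
          have e4 : cmove Q y (q s) ⟨0, by simp⟩ = y := by
            apply Subtype.ext
            apply Prod.ext
            · change (1 - (0 : ℝ)) • y.1.1 + (0 : ℝ) • Q.vec (q s) = y.1.1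
              rw [sub_zero, one_smul, zero_smul, add_zero]
            · change (1 - (0 : ℝ)) * y.1.2 + (0 : ℝ) = y.1.2
              ring
          rw [e4]
        rw [e3]
      exact (List.map_congr_left this).trans (List.map_id _)
    rw [e1, e2]
  have e1' : p 1 = w t₂ := by
    have h0 : p 1 = w ⟨1 * t₂.1, _⟩ := dif_pos (by simp)
    rw [h0]
    congr 1
    exact Subtype.ext (one_mul _)
  rw [e0, e1'] at hpath
  -- v ∈ E1
  have hv3 : v ∈ E1 (cp Γ (S × Cone Q × V)) := by
    have h3 : v = w t₂ * (v⁻¹ * w t₂)⁻¹ := by group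
    rw [h3]
    exact mul_mem hE2 (inv_mem hpath)
  have h4 : u = v * (u⁻¹ * v)⁻¹ := by group
  rw [h4]
  exact mul_mem hv3 (inv_mem hv2)

end PartAE7

end Pool.Agent.Lib.MP_aa9b81_an.Cut
end
end
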