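import Pool.Agent.Lib.MP_aa9b81_an.CutM.B
import Pool.Agent.Lib.MP_aa9b81_an.Mg.G076

section

/-!
# Cutting theorem, part T
-/

noncomputable section

namespace Pool.Agent.Lib.MP_aa9b81_an.Cut

section PartTA1

open scoped ENNReal Topology ZeroAtInfty
open Filter Topology Set

/-- The full shift with the alphabet `{0, …, n-1}`. -/
def Full (Γ : Type) (n : ℕ) : Type := Γ → Fin n

instance (Γ : Type) (n : ℕ) : TopologicalSpace (Full Γ n) :=
  inferInstanceAs (TopologicalSpace (Γ → Fin n))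

instance (Γ : Type) (n : ℕ) : T2Space (Full Γ n) := inferInstanceAs (T2Space (Γ → Fin n))

instance (Γ : Type) (n : ℕ) : CompactSpace (Full Γ n) :=
  inferInstanceAs (CompactSpace (Γ → Fin n))

variable {Γ : Type} [Group Γ]

instance (n : ℕ) : MulAction Γ (Full Γ n) where
  smul h z := fun g => z (h⁻¹ * g)
  one_smul z := funext fun g => by
    change z (1⁻¹ * g) = z g
    rw [inv_one, one_mul]
  mul_smul h k z := funext fun g => by
    change z ((h * k)⁻¹ * g) = z (k⁻¹ * (h⁻¹ * g))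
    rw [mul_inv_rev, mul_assoc]

instance (n : ℕ) : ContinuousConstSMul Γ (Full Γ n) :=
  ⟨fun h => continuous_pi fun g => continuous_apply (h⁻¹ * g)⟩

variable {Z : Type} [TopologicalSpace Z] [MulAction Γ Z]

/-- The map to the full shift given by a map `κ` to the alphabet: `z ↦ (g ↦ κ(g⁻¹ z))`. -/
def code {n : ℕ} (κ : Z → Fin n) (z : Z) : Full Γ n := fun g => κ (g⁻¹ • z)

omit [TopologicalSpace Z] in
lemma code_smul {n : ℕ} (κ : Z → Fin n) (h : Γ) (z : Z) :
    (code κ (h • z) : Full Γ n) = h • code κ z := by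
  funext g
  change κ (g⁻¹ • h • z) = κ ((h⁻¹ * g)⁻¹ • z)
  rw [mul_inv_rev, inv_inv, mul_smul]

lemma continuous_code [ContinuousConstSMul Γ Z] {n : ℕ} {κ : Z → Fin n} (hκ : Continuous κ) :
    Continuous (code κ : Z → Full Γ n) :=
  continuous_pi fun g => hκ.comp (continuous_const_smul g⁻¹)

omit [Group Γ] [MulAction Γ Z] in
/-- PROOF: for every `z₀ ∈ Z` there is a neighbourhood on which `‖f(z,v) - f(z₀,v)‖ ≤ ε` for all `v` and
the finitely many `f` (compact support: the projection `K_V` of the supports to `V` is compact, off it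
both values are `0`; tube lemma). `Z` is compact, Hausdorff and totally disconnected, so it has a
basis of clopen sets (`compact_exists_isClopen_in_isOpen`), and these neighbourhoods can be taken
clopen; finitely many cover `Z`; make them disjoint: `κ(z)` = the least `i` with `z ∈ N_i` (`Fin n`
valued, continuous). For each `i` with a nonempty class choose a point `z_i` of the covering set
`N_i` (its centre). Put `G(i, v) = f(z_i, v)`, in `C₀(Fin n × V)` (finite discrete first factor). -/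
theorem exists_clopen_approx [T2Space Z] [CompactSpace Z] [TotallyDisconnectedSpace Z]
    {V : Type} [TopologicalSpace V] (L : List C₀(Z × V, ℂ)) (hL : ∀ f ∈ L, HasCompactSupport f)
    {ε : ℝ} (hε : 0 < ε) : ∃ (n : ℕ) (κ : Z → Fin n), Continuous κ ∧
      ∀ f ∈ L, ∃ G : C₀(Fin n × V, ℂ), ∀ z v, ‖f (z, v) - G (κ z, v)‖ ≤ ε := by
  classical
  rcases isEmpty_or_nonempty Z with hZ | ⟨⟨zd⟩⟩
  · refine ⟨0, fun z => (hZ.false z).elim, continuous_iff_continuousAt.2 fun z => (hZ.false z).elim,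
      fun f _ => ⟨0, fun z => (hZ.false z).elim⟩⟩
  have h1 : ∀ f ∈ L, ∀ z₀ : Z, ∀ᶠ z in 𝓝 z₀, ∀ v, ‖f (z, v) - f (z₀, v)‖ ≤ ε := by
    intro f hf z₀
    have hK : IsCompact (Prod.snd '' tsupport f) := (hL f hf).isCompact.image continuous_snd
    have hO : IsOpen {p : Z × V | ‖f p - f (z₀, p.2)‖ < ε} := by
      refine isOpen_lt ?_ continuous_const
      exact (f.continuous.sub (f.continuous.comp (continuous_const.prodMk continuous_snd))).norm
    have hs : ({z₀} : Set Z) ×ˢ (Prod.snd '' tsupport f) ⊆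
        {p : Z × V | ‖f p - f (z₀, p.2)‖ < ε} := by
      rintro ⟨z, v⟩ ⟨hz, _⟩
      have hz' : z = z₀ := hz
      subst hz'
      change ‖f (z, v) - f (z, v)‖ < ε
      simpa using hε
    obtain ⟨u, w, hu, hw, h2, h3, h4⟩ := generalized_tube_lemma isCompact_singleton hK hO hs
    filter_upwards [hu.mem_nhds (h2 rfl)] with z hz v
    by_cases hv : v ∈ Prod.snd '' tsupport f
    · exact le_of_lt (h4 (mk_mem_prod hz (h3 hv)))
    · have h5 : ∀ z', f (z', v) = 0 := fun z' => by
        by_contra hne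
        exact hv ⟨(z', v), subset_tsupport _ hne, rfl⟩
      rw [h5, h5]
      simpa using hε.le
  have h2 : ∀ z₀ : Z, ∃ U : Set Z, IsClopen U ∧ z₀ ∈ U ∧
      ∀ z ∈ U, ∀ f ∈ L, ∀ v, ‖f (z, v) - f (z₀, v)‖ ≤ ε := by
    intro z₀
    have h3 : ∀ᶠ z in 𝓝 z₀, ∀ f ∈ {f | f ∈ L}, ∀ v, ‖f (z, v) - f (z₀, v)‖ ≤ ε :=
      (eventually_all_finite L.finite_toSet).2 fun f hf => h1 f hf z₀
    obtain ⟨W, hW, hWo, hzW⟩ := mem_nhds_iff.1 h3
    obtain ⟨U, hU, hzU, hUW⟩ := compact_exists_isClopen_in_isOpen hWo hzW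
    exact ⟨U, hU, hzU, fun z hz f hf v => hW (hUW hz) f hf v⟩
  choose U hU hzU hest using h2
  obtain ⟨t, ht⟩ := CompactSpace.elim_nhds_subcover U fun z => (hU z).isOpen.mem_nhds (hzU z)
  let c : Z → (t → Bool) := fun z i => decide (z ∈ U i)
  have hc : Continuous c := by
    refine continuous_pi fun i => ?_
    refine continuous_discrete_rng.2 fun b => ?_
    cases b with
    | true =>
      have : (fun z => decide (z ∈ U i)) ⁻¹' {true} = U i := by
        ext z
        simp
      rw [this]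
      exact (hU i).isOpen
    | false =>
      have : (fun z => decide (z ∈ U i)) ⁻¹' {false} = (U i)ᶜ := by
        ext z
        simp
      rw [this]
      exact (hU i).compl.isOpen
  let e : (t → Bool) ≃ Fin (Fintype.card (t → Bool)) := Fintype.equivFin _
  let ctr : (t → Bool) → Z := fun S => if h : ∃ i, S i = true then (h.choose : Z) else zd
  have hctr : ∀ z, ∀ f ∈ L, ∀ v, ‖f (z, v) - f (ctr (c z), v)‖ ≤ ε := by
    intro z f hf v
    have h3 : ∃ i, c z i = true := by
      have h4 : z ∈ ⋃ x ∈ t, U x := by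
        rw [ht]
        trivial
      rw [mem_iUnion₂] at h4
      obtain ⟨x, hx, hzx⟩ := h4
      exact ⟨⟨x, hx⟩, decide_eq_true hzx⟩
    have h5 : ctr (c z) = (h3.choose : Z) := dif_pos h3
    have h6 : z ∈ U (h3.choose : Z) := of_decide_eq_true h3.choose_spec
    rw [h5]
    exact hest _ z h6 f hf v
  refine ⟨Fintype.card (t → Bool), fun z => e (c z), ?_, fun f hf => ?_⟩
  · exact continuous_of_discreteTopology.comp hc
  · have hz : Continuous fun i : Fin (Fintype.card (t → Bool)) => ctr (e.symm i) :=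
      continuous_of_discreteTopology
    refine ⟨pullC (Prod.map (fun i : Fin (Fintype.card (t → Bool)) => ctr (e.symm i)) (id : V → V))
      (hz.isProperMap.prodMap isProperMap_id) f, fun z v => ?_⟩
    rw [pullC_apply]
    change ‖f (z, v) - f (ctr (e.symm (e (c z))), v)‖ ≤ ε
    rw [e.symm_apply_apply]
    exact hctr z f hf v

end PartTA1

section PartTA2

open scoped ENNReal Topology ZeroAtInfty
open Filter Topology Set

variable {Γ : Type} [Group Γ]

variable {Z : Type} [TopologicalSpace Z] [MulAction Γ Z]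

/-- PROOF: `exists_clopen_approx` for all the functions of `l` and `l'` (`ε` replaced by
`ε / (length + 1)`); the function `G'(w, v) = G(w 1, v)` on `Full × V` is in `C₀` (`Full` is compact: it
is `pullC` along the proper map `(w, v) ↦ (w 1, v)`), and `G'(code κ z, v) = G(κ z, v)`. `pull_val`,
`gen_sub`, `norm_gen_le`, induction on the lists. -/
theorem exists_code_approx [T2Space Z] [CompactSpace Z] [TotallyDisconnectedSpace Z]
    [ContinuousConstSMul Γ Z] {V : Type} [TopologicalSpace V] [MulAction Γ V]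
    (l l' : List (Dat Γ (Z × V))) (hl : ∀ d ∈ l, HasCompactSupport d.f)
    (hl' : ∀ d ∈ l', HasCompactSupport d.f) {ε : ℝ} (hε : 0 < ε) :
    ∃ (n : ℕ) (κ : Z → Fin n) (L L' : List (Dat Γ (Full Γ n × V))), Continuous κ ∧
      ‖val l - pull (Prod.map (code κ) id) (val L)‖ ≤ ε ∧
      ‖val l' - pull (Prod.map (code κ) id) (val L')‖ ≤ ε := by
  obtain ⟨ε₀, hε₀, hε1, hε2⟩ : ∃ ε₀ : ℝ, 0 < ε₀ ∧ (l.length : ℝ) * ε₀ ≤ ε ∧
      (l'.length : ℝ) * ε₀ ≤ ε := by
    have hp : (0 : ℝ) < (l.length : ℝ) + l'.length + 1 := by positivity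
    have h0 : 0 < ε / ((l.length : ℝ) + l'.length + 1) := div_pos hε hp
    have h1 : ((l.length : ℝ) + l'.length + 1) * (ε / ((l.length : ℝ) + l'.length + 1)) = ε := by
      field_simp
    refine ⟨_, h0, ?_, ?_⟩
    · refine le_trans (mul_le_mul_of_nonneg_right ?_ h0.le) h1.le
      have : (0 : ℝ) ≤ l'.length := Nat.cast_nonneg _
      linarith
    · refine le_trans (mul_le_mul_of_nonneg_right ?_ h0.le) h1.le
      have : (0 : ℝ) ≤ l.length := Nat.cast_nonneg _
      linarith
  obtain ⟨n, κ, hκ, hG⟩ := exists_clopen_approx ((l ++ l').map Dat.f) (by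
    intro f hf
    obtain ⟨d, hd, rfl⟩ := List.mem_map.1 hf
    rcases List.mem_append.1 hd with h | h
    · exact hl d h
    · exact hl' d h) hε₀
  have hcode : Continuous (code κ : Z → Full Γ n) := continuous_code hκ
  have hp : IsProperMap (Prod.map (code κ : Z → Full Γ n) (id : V → V)) :=
    hcode.isProperMap.prodMap isProperMap_id
  have hpe : ∀ (g : Γ) (z : Z × V), Prod.map (code κ : Z → Full Γ n) (id : V → V) (g • z) =
      g • Prod.map (code κ : Z → Full Γ n) (id : V → V) z := fun g z =>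
    Prod.ext (code_smul κ g z.1) rfl
  have hev : Continuous fun w : Full Γ n => (w : Γ → Fin n) 1 := continuous_apply (1 : Γ)
  have hevp : IsProperMap (Prod.map (fun w : Full Γ n => (w : Γ → Fin n) 1) (id : V → V)) :=
    hev.isProperMap.prodMap isProperMap_id
  have key : ∀ m : List (Dat Γ (Z × V)), (∀ d ∈ m, d.f ∈ (l ++ l').map Dat.f) →
      ∃ M : List (Dat Γ (Full Γ n × V)),
        ‖val m - pull (Prod.map (code κ) id) (val M)‖ ≤ (m.length : ℝ) * ε₀ := by
    intro m
    induction m with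
    | nil =>
      intro _
      refine ⟨[], ?_⟩
      rw [val_nil, val_nil, map_zero, sub_zero, norm_zero]
      simp
    | cons d m ih =>
      intro hm
      obtain ⟨M, hM⟩ := ih fun d' hd' => hm d' (List.mem_cons_of_mem _ hd')
      obtain ⟨G, hGd⟩ := hG d.f (hm d List.mem_cons_self)
      refine ⟨⟨pullC _ hevp G, d.g, d.i, d.j⟩ :: M, ?_⟩
      rw [val_cons, val_cons, map_add]
      have h1 : d.gen + val m - (pull (Prod.map (code κ) id)
          (Dat.gen ⟨pullC _ hevp G, d.g, d.i, d.j⟩ : Fam Γ (Full Γ n × V)) +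
            pull (Prod.map (code κ) id) (val M)) =
          gen (d.f - pullC _ hp (pullC _ hevp G)) d.g d.i d.j +
            (val m - pull (Prod.map (code κ) id) (val M)) := by
        rw [gen_sub]
        have h2 : pull (Prod.map (code κ) id)
            (Dat.gen ⟨pullC _ hevp G, d.g, d.i, d.j⟩ : Fam Γ (Full Γ n × V)) =
            gen (pullC _ hp (pullC _ hevp G)) d.g d.i d.j := pull_gen hp hpe _ _ _ _
        rw [h2]
        change gen d.f d.g d.i d.j + _ - _ = _
        abel
      rw [h1]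
      have h3 : ‖d.f - pullC _ hp (pullC _ hevp G)‖ ≤ ε₀ := by
        rw [← ZeroAtInftyContinuousMap.norm_toBCF_eq_norm, BoundedContinuousFunction.norm_le hε₀.le]
        rintro ⟨z, v⟩
        have h4 := hGd z v
        change ‖d.f (z, v) - G (κ ((1 : Γ)⁻¹ • z), v)‖ ≤ ε₀
        rw [inv_one, one_smul]
        exact h4
      have h5 := (norm_gen_le (Γ := Γ) (d.f - pullC _ hp (pullC _ hevp G)) d.g d.i d.j).trans h3
      have h6 : (((d :: m).length : ℕ) : ℝ) * ε₀ = ε₀ + (m.length : ℝ) * ε₀ := by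
        rw [List.length_cons]
        push_cast
        ring
      rw [h6]
      exact (norm_add_le _ _).trans (add_le_add h5 hM)
  obtain ⟨L, hL⟩ := key l fun d hd => List.mem_map_of_mem (List.mem_append_left _ hd)
  obtain ⟨L', hL'⟩ := key l' fun d hd => List.mem_map_of_mem (List.mem_append_right _ hd)
  exact ⟨n, κ, L, L', hκ, hL.trans hε1, hL'.trans hε2⟩

end PartTA2

section PartTB1

open scoped ENNReal Topology ZeroAtInfty
open Filter Topology Set

variable {Γ : Type} [Group Γ] {V : Type} [TopologicalSpace V] [T2Space V] [LocallyCompactSpace V]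
  [MulAction Γ V] [ContinuousConstSMul Γ V]

/-- The image of the coding map, an invariant closed subset. PROOF: `code_smul`; closed as the image of a
compact space. -/
theorem exists_image {Z : Type} [TopologicalSpace Z] [CompactSpace Z] [MulAction Γ Z]
    [ContinuousConstSMul Γ Z] {n : ℕ} {κ : Z → Fin n} (hκ : Continuous κ) :
    ∃ A : InvSet Γ (Full Γ n), IsClosed A.carrier ∧
      ∃ π : Z → A.Pt, Continuous π ∧ Function.Surjective π ∧ (∀ (g : Γ) z, π (g • z) = g • π z) ∧
        ∀ z, A.val (π z) = code κ z := by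
  have hc : Continuous (code κ : Z → Full Γ n) := continuous_code hκ
  refine ⟨⟨range (code κ : Z → Full Γ n), ?_⟩, ?_, fun z => ⟨code κ z, z, rfl⟩, ?_, ?_, ?_, fun z => rfl⟩
  · rintro g _ ⟨z, rfl⟩
    exact ⟨g • z, code_smul κ g z⟩
  · exact (isCompact_range hc).isClosed
  · exact Continuous.subtype_mk hc _
  · rintro ⟨_, z, rfl⟩
    exact ⟨z, rfl⟩
  · intro g z
    exact Subtype.ext (code_smul κ g z)

end PartTB1

section PartTB2

open scoped ENNReal Topology ZeroAtInfty
open Filter Topology Set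

variable {Γ : Type} [Group Γ] {V : Type} [TopologicalSpace V] [T2Space V] [LocallyCompactSpace V]
  [MulAction Γ V] [ContinuousConstSMul Γ V]

private lemma TB2_norm_pull {Y W : Type} {p : W → Y} (hp : Function.Surjective p) (a : Fam Γ Y) :
    ‖pull p a‖ = ‖a‖ := by
  refine le_antisymm (pull_norm_le p a) ((Fam.norm_le_iff (norm_nonneg _)).2 fun y => ?_)
  obtain ⟨z, rfl⟩ := hp y
  exact (pull p a).norm_apply_le z

private lemma TB2_bound {B : Type} [NormedRing B] {b b' c c' : B} {δ : ℝ}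
    (h0 : b' + c' + b' * c' = 0) (hb : ‖b' - b‖ ≤ δ) (hc : ‖c' - c‖ ≤ δ)
    (hδ : δ ≤ 1) (hδ' : δ * (3 + ‖b'‖ + ‖c'‖) < 1) : ‖b + c + b * c‖ < 1 := by
  have hδ0 : 0 ≤ δ := (norm_nonneg _).trans hb
  have h1 : b + c + b * c = -(b' - b) - (c' - c) - (b' - b) * c' - b' * (c' - c) +
      (b' - b) * (c' - c) := by
    have h2 : b + c + b * c = (b + c + b * c) - (b' + c' + b' * c') := by rw [h0, sub_zero]
    rw [h2]
    noncomm_ring
  rw [h1]
  have e1 : ‖(b' - b) * c'‖ ≤ δ * ‖c'‖ :=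
    (norm_mul_le _ _).trans (mul_le_mul_of_nonneg_right hb (norm_nonneg _))
  have e2 : ‖b' * (c' - c)‖ ≤ ‖b'‖ * δ :=
    (norm_mul_le _ _).trans (mul_le_mul_of_nonneg_left hc (norm_nonneg _))
  have e3 : ‖(b' - b) * (c' - c)‖ ≤ δ * 1 :=
    (norm_mul_le _ _).trans (mul_le_mul hb (hc.trans hδ) (norm_nonneg _) hδ0)
  have e4 : ‖-(b' - b)‖ ≤ δ := by rwa [norm_neg]
  have f1 := norm_add_le (-(b' - b) - (c' - c) - (b' - b) * c' - b' * (c' - c))
    ((b' - b) * (c' - c))
  have f2 := norm_sub_le (-(b' - b) - (c' - c) - (b' - b) * c') (b' * (c' - c))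
  have f3 := norm_sub_le (-(b' - b) - (c' - c)) ((b' - b) * c')
  have f4 := norm_sub_le (-(b' - b)) (c' - c)
  have f5 : δ * (3 + ‖b'‖ + ‖c'‖) = δ + δ + δ * ‖c'‖ + ‖b'‖ * δ + δ * 1 := by ring
  linarith

/-- From `Z` to its codings. PROOF: let `u ∈ GL1 (cp Γ (Z × V))`; `η` from `exists_near_unit`
(`A = A₀ = cp Γ (Z × V)`), small enough that almost inverses have `‖b + c + b c‖ < 1`,
`‖c + b + c b‖ < 1`. Approximate `u - 1`, `u⁻¹ - 1` by `val l`, `val l'` (`exists_val_near`) and these by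
`b = pull (code κ × id) (val L)`, `c = pull (code κ × id) (val L')` (`exists_code_approx`). With `A`, `π`
from `exists_image`: `b = pull (π × id) b_A`, `b_A = pull (A.val × id) (val L) ∈ cp Γ (A.Pt × V)`, the
same for `c`. Since `π × id` is surjective `pull (π × id)` is isometric, so
`‖b_A + c_A + b_A c_A‖ < 1` etc.: `exists_unit_of_almost_inverse` gives `v ∈ GL1 (cp Γ (A.Pt × V))`,
`v = 1 + b_A`. By hypothesis `v ∈ E1`, so `1 + b = pullU (π × id) v ∈ E1` (`E1_map`), and
`u⁻¹ (1 + b) ∈ E1`. -/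
theorem GL1_le_E1_of_subshifts {Z : Type} [TopologicalSpace Z] [T2Space Z] [CompactSpace Z]
    [TotallyDisconnectedSpace Z] [MulAction Γ Z] [ContinuousConstSMul Γ Z]
    (h : ∀ (n : ℕ) (A : InvSet Γ (Full Γ n)), IsClosed A.carrier →
      GL1 (cp Γ (A.Pt × V)) ≤ E1 (cp Γ (A.Pt × V))) :
    GL1 (cp Γ (Z × V)) ≤ E1 (cp Γ (Z × V)) := by
  intro u hu
  obtain ⟨η, hη, hη'⟩ := exists_near_unit (isClosed_cp (Γ := Γ) (Y := Z × V)) le_rfl hu
  obtain ⟨b', hb'⟩ : ∃ b' : Fam Γ (Z × V), b' = (u : Fam Γ (Z × V)) - 1 := ⟨_, rfl⟩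
  obtain ⟨c', hc'⟩ : ∃ c' : Fam Γ (Z × V), c' = ((u⁻¹ : (Fam Γ (Z × V))ˣ) : Fam Γ (Z × V)) - 1 :=
    ⟨_, rfl⟩
  have hbc : b' + c' + b' * c' = 0 := by
    have h1 : (u : Fam Γ (Z × V)) * ((u⁻¹ : (Fam Γ (Z × V))ˣ) : Fam Γ (Z × V)) = 1 := u.mul_inv
    have h2 : b' + c' + b' * c' =
        (u : Fam Γ (Z × V)) * ((u⁻¹ : (Fam Γ (Z × V))ˣ) : Fam Γ (Z × V)) - 1 := by
      rw [hb', hc']
      noncomm_ring
    rw [h2, h1, sub_self]
  have hcb : c' + b' + c' * b' = 0 := by
    have h1 : ((u⁻¹ : (Fam Γ (Z × V))ˣ) : Fam Γ (Z × V)) * (u : Fam Γ (Z × V)) = 1 := u.inv_mul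
    have h2 : c' + b' + c' * b' =
        ((u⁻¹ : (Fam Γ (Z × V))ˣ) : Fam Γ (Z × V)) * (u : Fam Γ (Z × V)) - 1 := by
      rw [hb', hc']
      noncomm_ring
    rw [h2, h1, sub_self]
  obtain ⟨δ, hδ0, hδη, hδ1, hδM⟩ : ∃ δ : ℝ, 0 < δ ∧ δ < η ∧ δ ≤ 1 ∧
      δ * (3 + ‖b'‖ + ‖c'‖) < 1 := by
    have hM : (0 : ℝ) < 3 + ‖b'‖ + ‖c'‖ := by positivity
    refine ⟨min (η / 2) (min 1 (1 / (2 * (3 + ‖b'‖ + ‖c'‖)))), ?_, ?_, ?_, ?_⟩
    · exact lt_min (half_pos hη) (lt_min one_pos (by positivity))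
    · exact (min_le_left _ _).trans_lt (half_lt_self hη)
    · exact (min_le_right _ _).trans (min_le_left _ _)
    · have h1 : min (η / 2) (min 1 (1 / (2 * (3 + ‖b'‖ + ‖c'‖)))) ≤
          1 / (2 * (3 + ‖b'‖ + ‖c'‖)) := (min_le_right _ _).trans (min_le_right _ _)
      calc min (η / 2) (min 1 (1 / (2 * (3 + ‖b'‖ + ‖c'‖)))) * (3 + ‖b'‖ + ‖c'‖)
          ≤ 1 / (2 * (3 + ‖b'‖ + ‖c'‖)) * (3 + ‖b'‖ + ‖c'‖) :=
            mul_le_mul_of_nonneg_right h1 hM.le
        _ = 1 / 2 := by field_simp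
        _ < 1 := by norm_num
  have hb'm : b' ∈ cp Γ (Z × V) := hb' ▸ hu.1
  have hc'm : c' ∈ cp Γ (Z × V) := hc' ▸ hu.2
  obtain ⟨l, hl, hlb⟩ := exists_val_near hb'm (half_pos hδ0)
  obtain ⟨l', hl', hlc⟩ := exists_val_near hc'm (half_pos hδ0)
  obtain ⟨n, κ, L, L', hκ, hL, hL'⟩ := exists_code_approx l l' hl hl' (half_pos hδ0)
  obtain ⟨A, hA, π, hπc, hπs, hπe, hπ⟩ := exists_image (Γ := Γ) hκ
  have hAe : IsClosedEmbedding A.val := IsClosed.isClosedEmbedding_subtypeVal hA
  have hAp : IsProperMap (Prod.map A.val (id : V → V)) := hAe.isProperMap.prodMap isProperMap_id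
  have hπp : IsProperMap (Prod.map π (id : V → V)) := hπc.isProperMap.prodMap isProperMap_id
  have hπs' : Function.Surjective (Prod.map π (id : V → V)) := hπs.prodMap Function.surjective_id
  obtain ⟨bA, hbA⟩ : ∃ bA, bA = pull (Prod.map A.val (id : V → V)) (val L) := ⟨_, rfl⟩
  obtain ⟨cA, hcA⟩ : ∃ cA, cA = pull (Prod.map A.val (id : V → V)) (val L') := ⟨_, rfl⟩
  have hbAm : bA ∈ cp Γ (A.Pt × V) := by
    rw [hbA]
    exact pull_mem_cp hAp (fun g x => rfl) _ (val_mem L)
  have hcAm : cA ∈ cp Γ (A.Pt × V) := by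
    rw [hcA]
    exact pull_mem_cp hAp (fun g x => rfl) _ (val_mem L')
  have hcomp : Prod.map A.val (id : V → V) ∘ Prod.map π (id : V → V) = Prod.map (code κ) id := by
    funext x
    exact Prod.ext (hπ x.1) rfl
  have hbπ : pull (Prod.map π (id : V → V)) bA = pull (Prod.map (code κ) id) (val L) := by
    rw [hbA, ← hcomp]
    rfl
  have hcπ : pull (Prod.map π (id : V → V)) cA = pull (Prod.map (code κ) id) (val L') := by
    rw [hcA, ← hcomp]
    rfl
  obtain ⟨b, hb⟩ : ∃ b, b = pull (Prod.map π (id : V → V)) bA := ⟨_, rfl⟩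
  obtain ⟨c, hc⟩ : ∃ c, c = pull (Prod.map π (id : V → V)) cA := ⟨_, rfl⟩
  have hbm : b ∈ cp Γ (Z × V) := by
    rw [hb]
    exact pull_mem_cp hπp (fun g x => Prod.ext (hπe g x.1) rfl) _ hbAm
  have hcm : c ∈ cp Γ (Z × V) := by
    rw [hc]
    exact pull_mem_cp hπp (fun g x => Prod.ext (hπe g x.1) rfl) _ hcAm
  have hbd : ‖b' - b‖ ≤ δ := by
    have h1 : b' - b = (b' - val l) + (val l - pull (Prod.map (code κ) id) (val L)) := by
      rw [hb, hbπ]
      abel
    rw [h1]
    calc _ ≤ ‖b' - val l‖ + ‖val l - pull (Prod.map (code κ) id) (val L)‖ := norm_add_le _ _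
      _ ≤ δ / 2 + δ / 2 := add_le_add hlb.le hL
      _ = δ := add_halves δ
  have hcd : ‖c' - c‖ ≤ δ := by
    have h1 : c' - c = (c' - val l') + (val l' - pull (Prod.map (code κ) id) (val L')) := by
      rw [hc, hcπ]
      abel
    rw [h1]
    calc _ ≤ ‖c' - val l'‖ + ‖val l' - pull (Prod.map (code κ) id) (val L')‖ := norm_add_le _ _
      _ ≤ δ / 2 + δ / 2 := add_le_add hlc.le hL'
      _ = δ := add_halves δ
  have h1 : ‖bA + cA + bA * cA‖ < 1 := by
    rw [← TB2_norm_pull hπs' (bA + cA + bA * cA), map_add, map_add, map_mul, ← hb, ← hc]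
    exact TB2_bound hbc hbd hcd hδ1 hδM
  have h2 : ‖cA + bA + cA * bA‖ < 1 := by
    rw [← TB2_norm_pull hπs' (cA + bA + cA * bA), map_add, map_add, map_mul, ← hb, ← hc]
    exact TB2_bound hcb hcd hbd hδ1 (by linarith [hδM])
  obtain ⟨v, hv, hv'⟩ := exists_unit_of_almost_inverse isClosed_cp hbAm hcAm h1 h2
  have hvE := E1_map (φ := pull (Prod.map π (id : V → V))) (pull_norm_le _)
    (pull_mem_cp hπp (fun g x => Prod.ext (hπe g x.1) rfl)) (h n A hA hv)
  obtain ⟨v₁, hv₁, hv₁', hv₁E⟩ := hη' b hbm c hcm (by rw [← hb']; exact hbd.trans_lt hδη)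
    (by rw [← hc']; exact hcd.trans_lt hδη)
  have h3 : Units.map ((pull (Prod.map π (id : V → V)) : Fam Γ (A.Pt × V) →+* Fam Γ (Z × V)) :
      Fam Γ (A.Pt × V) →* Fam Γ (Z × V)) v = v₁ := by
    apply Units.ext
    rw [hv₁', hb]
    change pull (Prod.map π (id : V → V)) (v : Fam Γ (A.Pt × V)) = _
    rw [hv', map_add, map_one]
  rw [h3] at hvE
  have h4 : u = v₁ * (u⁻¹ * v₁)⁻¹ := by group
  rw [h4]
  exact mul_mem hvE (inv_mem hv₁E)

end PartTB2

section PartTB3

open scoped ENNReal Topology ZeroAtInfty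
open Filter Topology Set

variable {Γ : Type} [Group Γ] {V : Type} [TopologicalSpace V] [T2Space V] [LocallyCompactSpace V]
  [MulAction Γ V] [ContinuousConstSMul Γ V]

/-- The inclusion of a subshift of finite type into the full shift. -/
def SFT.val {n : ℕ} {F : Finset Γ} {P : Set (F → Fin n)} (z : SFT Γ n F P) : Full Γ n := z.1

/-- PROOF: a subtype inclusion; closed: for each `g` the condition only depends on the finitely many
coordinates `g s`, `s ∈ F`, so it is clopen. -/
theorem SFT.isClosedEmbedding_val {n : ℕ} (F : Finset Γ) (P : Set (F → Fin n)) :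
    IsClosedEmbedding (SFT.val : SFT Γ n F P → Full Γ n) := by
  have h1 : IsClosed {z : Γ → Fin n | ∀ g : Γ, (fun s : F => z (g * s)) ∈ P} := by
    have h2 : {z : Γ → Fin n | ∀ g : Γ, (fun s : F => z (g * s)) ∈ P} =
        ⋂ g : Γ, (fun z : Γ → Fin n => fun s : F => z (g * s)) ⁻¹' P := by
      ext z
      simp
    rw [h2]
    refine isClosed_iInter fun g => IsClosed.preimage ?_ (isClosed_discrete P)
    exact continuous_pi fun s => continuous_apply (g * (s : Γ))
  exact IsClosed.isClosedEmbedding_subtypeVal h1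

lemma SFT.val_smul {n : ℕ} {F : Finset Γ} {P : Set (F → Fin n)} (g : Γ) (z : SFT Γ n F P) :
    SFT.val (g • z) = g • SFT.val z := rfl

/-- PROOF: let `F_k` be an increasing sequence of finite sets with union `Γ` (`Γ` countable), `P_k` the
set of the restrictions to `F_k` of the elements of `A`. `range (SFT.val) = {z | ∀ g, z(g ·)|F_k ∈ P_k}`,
it contains `A` (`A` is invariant: `z(g ·) = (g⁻¹ • z)`). Decreasing: if `z(g·)|F_{k+1} ∈ P_{k+1}` then
restrict. If `z` is in all of them, then (with `g = 1`) for each `k` there is `y_k ∈ A` with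
`y_k = z` on `F_k`, so `y_k → z` and `z ∈ A` because `A` is closed. -/
theorem exists_sft_approx [Countable Γ] {n : ℕ} (A : InvSet Γ (Full Γ n)) (hA : IsClosed A.carrier) :
    ∃ (F : ℕ → Finset Γ) (P : ∀ k, Set (F k → Fin n)),
      (∀ k, range (SFT.val : SFT Γ n (F (k + 1)) (P (k + 1)) → Full Γ n) ⊆
        range (SFT.val : SFT Γ n (F k) (P k) → Full Γ n)) ∧
      ⋂ k, range (SFT.val : SFT Γ n (F k) (P k) → Full Γ n) = A.carrier := by
  classical
  obtain ⟨e, he⟩ := exists_surjective_nat Γ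
  obtain ⟨F, hF⟩ : ∃ F : ℕ → Finset Γ, ∀ k, F k = (Finset.range k).image e := ⟨_, fun _ => rfl⟩
  have hmem : ∀ (k : ℕ) (g : Γ), (∃ i < k, e i = g) ↔ g ∈ F k := by
    intro k g
    rw [hF]
    simp
  obtain ⟨P, hP⟩ : ∃ P : ∀ k, Set (F k → Fin n), ∀ k p, p ∈ P k ↔
      ∃ y ∈ A.carrier, p = fun s : F k => (y : Γ → Fin n) s := ⟨fun k => {p | _}, fun k p => Iff.rfl⟩
  have hr : ∀ k (z : Full Γ n), z ∈ range (SFT.val : SFT Γ n (F k) (P k) → Full Γ n) ↔
      ∀ g : Γ, ∃ y ∈ A.carrier, ∀ s ∈ F k, (z : Γ → Fin n) (g * s) = (y : Γ → Fin n) s := by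
    intro k z
    constructor
    · rintro ⟨w, rfl⟩ g
      obtain ⟨y, hy, h⟩ := (hP k _).1 (w.2 g)
      exact ⟨y, hy, fun s hs => congrFun h ⟨s, hs⟩⟩
    · intro h
      refine ⟨⟨z, fun g => ?_⟩, rfl⟩
      obtain ⟨y, hy, h'⟩ := h g
      exact (hP k _).2 ⟨y, hy, funext fun s => h' s.1 s.2⟩
  refine ⟨F, P, fun k z hz => ?_, ?_⟩
  · rw [hr] at hz ⊢
    intro g
    obtain ⟨y, hy, h⟩ := hz g
    refine ⟨y, hy, fun s hs => h s ?_⟩
    obtain ⟨i, hi, h3⟩ := (hmem k s).2 hs
    exact (hmem _ s).1 ⟨i, by omega, h3⟩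
  · apply subset_antisymm
    · intro z hz
      rw [mem_iInter] at hz
      have h1 : ∀ k, ∃ y ∈ A.carrier, ∀ s ∈ F k, (z : Γ → Fin n) s = (y : Γ → Fin n) s := by
        intro k
        obtain ⟨y, hy, h⟩ := (hr k z).1 (hz k) 1
        exact ⟨y, hy, fun s hs => by rw [← h s hs, one_mul]⟩
      choose y hy hyz using h1
      refine hA.mem_of_tendsto (b := atTop) (f := y) ?_ (Eventually.of_forall hy)
      refine tendsto_pi_nhds.2 fun g => ?_
      obtain ⟨i, hi⟩ := he g
      refine tendsto_const_nhds.congr' ?_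
      filter_upwards [eventually_ge_atTop (i + 1)] with k hk
      exact hyz k g ((hmem k g).1 ⟨i, by omega, hi⟩)
    · intro z hz
      rw [mem_iInter]
      intro k
      rw [hr]
      intro g
      refine ⟨g⁻¹ • z, A.inv _ _ hz, fun s _ => ?_⟩
      change (z : Γ → Fin n) (g * s) = (z : Γ → Fin n) (g⁻¹⁻¹ * s)
      rw [inv_inv]

end PartTB3

section PartTB4

open scoped ENNReal Topology ZeroAtInfty
open Filter Topology Set

variable {Γ : Type} [Group Γ] {V : Type} [TopologicalSpace V] [T2Space V] [LocallyCompactSpace V]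
  [MulAction Γ V] [ContinuousConstSMul Γ V]

/-- From subshifts to subshifts of finite type. PROOF: `continuity_surj` in `Y = Full Γ n × V` with
`C = A.Pt × V`, `D k = SFT Γ n (F k) (P k) × V`, the maps `Prod.map A.val id`, `Prod.map SFT.val id`
(closed embeddings; ranges: products with `univ`), `ι k : A.Pt × V → D k`. A unit `v` over `C` is the
restriction of a unit over some `D k`, which is in `E1` by hypothesis; `E1_map`. -/
theorem GL1_le_E1_subshift [Countable Γ] (hA : PropA Γ)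
    (h : ∀ (n : ℕ) (F : Finset Γ) (P : Set (F → Fin n)),
      GL1 (cp Γ (SFT Γ n F P × V)) ≤ E1 (cp Γ (SFT Γ n F P × V)))
    (n : ℕ) (A : InvSet Γ (Full Γ n)) (hcl : IsClosed A.carrier) :
    GL1 (cp Γ (A.Pt × V)) ≤ E1 (cp Γ (A.Pt × V)) := by
  intro v hv
  obtain ⟨F, P, hanti, hinter⟩ := exists_sft_approx A hcl
  have hprod : ∀ {W : Type} (φ : W → Full Γ n),
      range (Prod.map φ (id : V → V)) = range φ ×ˢ univ := by
    intro W φ
    rw [range_prodMap, range_id]
  have hc0 : IsClosedEmbedding A.val := IsClosed.isClosedEmbedding_subtypeVal hcl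
  have hd0 : ∀ k, IsClosedEmbedding (SFT.val : SFT Γ n (F k) (P k) → Full Γ n) := fun k =>
    SFT.isClosedEmbedding_val (F k) (P k)
  have hprodC : ∀ {W : Type} [TopologicalSpace W] (φ : W → Full Γ n), IsClosedEmbedding φ →
      IsClosedEmbedding (Prod.map φ (id : V → V)) := by
    intro W _ φ hφ
    refine ⟨hφ.isEmbedding.prodMap IsEmbedding.id, ?_⟩
    rw [hprod]
    exact hφ.isClosed_range.prod isClosed_univ
  have hra : range A.val = A.carrier := Subtype.range_coe
  have hι : ∀ k, ∀ x : A.Pt, ∃ w : SFT Γ n (F k) (P k), SFT.val w = A.val x := by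
    intro k x
    have h1 : A.val x ∈ A.carrier := A.val_mem x
    rw [← hinter, mem_iInter] at h1
    exact h1 k
  choose ι hι' using hι
  have hιc : ∀ k, Continuous (ι k) := by
    intro k
    rw [(hd0 k).isEmbedding.continuous_iff]
    have h1 : SFT.val ∘ ι k = A.val := funext fun x => hι' k x
    rw [h1]
    exact A.continuous_val
  have hιe : ∀ k (g : Γ) x, ι k (g • x) = g • ι k x := by
    intro k g x
    apply (hd0 k).injective
    rw [hι', SFT.val_smul, hι']
    rfl
  have hιp : ∀ k, IsProperMap (Prod.map (ι k) (id : V → V)) := by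
    intro k
    refine IsProperMap.prodMap ?_ isProperMap_id
    have h1 : SFT.val ∘ ι k = A.val := funext fun x => hι' k x
    have : T2Space (SFT Γ n (F k) (P k)) := (hd0 k).isEmbedding.t2Space
    refine isProperMap_of_comp_of_t2 (hιc k) (hd0 k).continuous ?_
    rw [h1]
    exact hc0.isProperMap
  obtain ⟨k, w, hw, hwv⟩ := continuity_surj (Γ := Γ) (Y := Full Γ n × V) (C := A.Pt × V)
    (c := Prod.map A.val id) (D := fun k => SFT Γ n (F k) (P k) × V)
    (d := fun k => Prod.map SFT.val id) hA (hprodC _ hc0) (fun g x => rfl)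
    (fun k => hprodC _ (hd0 k)) (fun k g x => rfl)
    (fun k => by
      rw [hprod, hprod]
      exact prod_mono (hanti k) subset_rfl)
    (by
      rw [hprod, hra, ← hinter]
      ext ⟨y, x⟩
      rw [mem_iInter, mem_prod, mem_iInter]
      constructor
      · intro h1
        refine ⟨fun k => ?_, mem_univ _⟩
        have h2 := h1 k
        rw [hprod] at h2
        exact h2.1
      · intro h1 k
        rw [hprod]
        exact ⟨h1.1 k, mem_univ _⟩)
    (fun k => Prod.map (ι k) id) (fun k x => Prod.ext (hι' k x.1) rfl) hv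
  have h1 := h n (F k) (P k) hw
  have h2 := E1_map (φ := pull (Prod.map (ι k) (id : V → V))) (pull_norm_le _)
    (pull_mem_cp (hιp k) (fun g x => Prod.ext (hιe k g x.1) rfl)) h1
  change pullU (Prod.map (ι k) (id : V → V)) w ∈ _ at h2
  rwa [hwv] at h2

end PartTB4

end Pool.Agent.Lib.MP_aa9b81_an.Cut
end
end

section

section
/-!
# Cutting theorem, part F
-/

noncomputable section

namespace Pool.Agent.Lib.MP_aa9b81_an.Cut

section PartFA1

open scoped ENNReal Topology ZeroAtInfty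
open Filter Topology Set MulAction

theorem FA1_equivariant {H K : Type} [Group H] [Group K] (φ : K →* H)
    (hφ : Function.Injective φ) : ∃ κ : H → K, ∀ k x, κ (φ k * x) = k * κ x := by
  classical
  let s : Setoid H := ⟨fun x y => ∃ k, y = φ k * x, ⟨fun x => ⟨1, by rw [map_one, one_mul]⟩, by
    rintro x y ⟨k, rfl⟩
    exact ⟨k⁻¹, by rw [map_inv, inv_mul_cancel_left]⟩, by
    rintro x y z ⟨k, rfl⟩ ⟨l, rfl⟩
    exact ⟨l * k, by rw [map_mul, mul_assoc]⟩⟩⟩
  have hex : ∀ x : H, ∃ k, x = φ k * Quotient.out (Quotient.mk s x) := fun x =>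
    Quotient.mk_out (s := s) x
  choose κ hκ using hex
  refine ⟨κ, fun k x => ?_⟩
  apply hφ
  have h1 := hκ (φ k * x)
  have h2 : Quotient.mk s (φ k * x) = Quotient.mk s x :=
    Quotient.sound (s := s) ⟨k⁻¹, by rw [map_inv, inv_mul_cancel_left]⟩
  rw [h2] at h1
  have h3 : φ k * x = φ k * (φ (κ x) * Quotient.out (Quotient.mk s x)) :=
    congrArg (fun z => φ k * z) (hκ x)
  rw [map_mul]
  apply mul_right_cancel (b := Quotient.out (Quotient.mk s x))
  rw [← h1, mul_assoc]
  exact h3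

/-- PROOF: choose a set `T ⊆ H` of representatives of the right cosets `φ(K) t` (every `x ∈ H` is
`φ(k) t` for unique `k`, `t`: quotient by the action of `K` by left multiplication,
`Quotient.out`). Let `m` be the measure on `H` for the image of the finite set and `ε`. Put
`m' k = ∑' t ∈ T, m (φ k * t)` (finite support). `∑_k m' k = ∑_x m x = 1`, and
`∑_k |m' k - m' (h⁻¹ k)| ≤ ∑_x |m x - m (φ(h)⁻¹ x)| ≤ ε`. -/
theorem AmenableGroup.of_injective {H K : Type} [Group H] [Group K] (φ : K →* H)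
    (hφ : Function.Injective φ) (h : AmenableGroup H) : AmenableGroup K := by
  classical
  obtain ⟨κ, hκ⟩ := FA1_equivariant φ hφ
  intro F ε hε
  obtain ⟨S, m, hm0, hmS, hm1, hmF⟩ := h (F.image φ) ε hε
  have hmaps : ∀ (T : Finset H), ∀ x ∈ T, κ x ∈ T.image κ := fun T x hx =>
    Finset.mem_image_of_mem κ hx
  -- the pushforward may be computed with every larger finite set
  have hbig : ∀ (T : Finset H), S ⊆ T → ∀ k : K,
      ∑ x ∈ S with κ x = k, m x = ∑ x ∈ T with κ x = k, m x := by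
    intro T hT k
    apply Finset.sum_subset (Finset.filter_subset_filter _ hT)
    intro x hx hx'
    apply hmS
    intro hxS
    exact hx' (Finset.mem_filter.2 ⟨hxS, (Finset.mem_filter.1 hx).2⟩)
  refine ⟨S.image κ, fun k => ∑ x ∈ S with κ x = k, m x, ?_, ?_, ?_, ?_⟩
  · intro k
    exact Finset.sum_nonneg fun x _ => hm0 x
  · intro k hk
    apply Finset.sum_eq_zero
    intro x hx
    obtain ⟨hxS, hxk⟩ := Finset.mem_filter.1 hx
    exact absurd (hxk ▸ Finset.mem_image_of_mem κ hxS) hk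
  · rw [Finset.sum_fiberwise_of_maps_to (hmaps S)]
    exact hm1
  · intro g hg
    have h1 := hmF (φ g) (Finset.mem_image_of_mem φ hg)
    set T : Finset H := S ∪ S.image (fun x => φ g * x) with hT
    have hST : S ⊆ T := Finset.subset_union_left
    have hDT : ∀ x ∉ T, m x - m ((φ g)⁻¹ * x) = 0 := by
      intro x hx
      have e1 : m x = 0 := hmS x fun h => hx (hST h)
      have e2 : m ((φ g)⁻¹ * x) = 0 := by
        apply hmS
        intro h
        apply hx
        apply Finset.mem_union_right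
        exact Finset.mem_image.2 ⟨_, h, by rw [mul_inv_cancel_left]⟩
      rw [e1, e2, sub_zero]
    have h2 : ∑ x ∈ T, |m x - m ((φ g)⁻¹ * x)| ≤ ε := by
      rw [tsum_eq_sum (s := T) (fun x hx => by rw [hDT x hx, abs_zero])] at h1
      exact h1
    have h3 : ∀ k : K, ∑ x ∈ S with κ x = g⁻¹ * k, m x =
        ∑ x ∈ T with κ x = k, m ((φ g)⁻¹ * x) := by
      intro k
      have e1 : ∑ x ∈ S with κ x = g⁻¹ * k, m x =
          ∑ x ∈ (S.image (fun x => φ g * x)) with κ x = k, m ((φ g)⁻¹ * x) := by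
        apply Finset.sum_bij (fun x _ => φ g * x)
        · intro x hx
          obtain ⟨hxS, hxk⟩ := Finset.mem_filter.1 hx
          refine Finset.mem_filter.2 ⟨Finset.mem_image_of_mem _ hxS, ?_⟩
          rw [hκ, hxk, mul_inv_cancel_left]
        · intro x _ y _ hxy
          exact mul_left_cancel hxy
        · intro y hy
          obtain ⟨hyS, hyk⟩ := Finset.mem_filter.1 hy
          obtain ⟨x, hx, rfl⟩ := Finset.mem_image.1 hyS
          refine ⟨x, Finset.mem_filter.2 ⟨hx, ?_⟩, rfl⟩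
          rw [hκ] at hyk
          rw [← hyk, inv_mul_cancel_left]
        · intro x _
          rw [inv_mul_cancel_left]
      rw [e1]
      apply Finset.sum_subset (Finset.filter_subset_filter _ Finset.subset_union_right)
      intro x hx hx'
      apply hmS
      intro hxS
      apply hx'
      refine Finset.mem_filter.2 ⟨?_, (Finset.mem_filter.1 hx).2⟩
      exact Finset.mem_image.2 ⟨_, hxS, by rw [mul_inv_cancel_left]⟩
    have h4 : ∀ k : K, (∑ x ∈ S with κ x = k, m x) - (∑ x ∈ S with κ x = g⁻¹ * k, m x) =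
        ∑ x ∈ T with κ x = k, (m x - m ((φ g)⁻¹ * x)) := by
      intro k
      rw [hbig T hST k, h3 k, Finset.sum_sub_distrib]
    have h5 : ∀ k ∉ T.image κ,
        |(∑ x ∈ S with κ x = k, m x) - (∑ x ∈ S with κ x = g⁻¹ * k, m x)| = 0 := by
      intro k hk
      rw [h4 k, abs_eq_zero]
      apply Finset.sum_eq_zero
      intro x hx
      obtain ⟨hxT, hxk⟩ := Finset.mem_filter.1 hx
      exact absurd (hxk ▸ Finset.mem_image_of_mem κ hxT) hk
    change ∑' k, |(∑ x ∈ S with κ x = k, m x) - (∑ x ∈ S with κ x = g⁻¹ * k, m x)| ≤ ε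
    rw [tsum_eq_sum h5]
    refine le_trans ?_ h2
    rw [← Finset.sum_fiberwise_of_maps_to (hmaps T)]
    apply Finset.sum_le_sum
    intro k _
    rw [h4 k]
    exact Finset.abs_sum_le_sum_abs _ _

end PartFA1

section PartFA2

open scoped ENNReal Topology ZeroAtInfty
open Filter Topology Set MulAction

section Conj

variable {Γ X Y Z : Type} [Group Γ] [TopologicalSpace X] [MulAction Γ X]
  [TopologicalSpace Y] [MulAction Γ Y] [TopologicalSpace Z] [MulAction Γ Z]

/-- Composition. -/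
private theorem FA2_comp {p : Z → Y} {q : X → Z} (hp : IsProperMap p)
    (hep : ∀ (g : Γ) x, p (g • x) = g • p x) (hq : IsProperMap q)
    (heq : ∀ (g : Γ) x, q (g • x) = g • q x) (h1 : IsoU Γ p) (h2 : IsoU Γ q) :
    IsoU Γ (p ∘ q) := by
  have hpq : ∀ u : (Fam Γ Y)ˣ, pullU (p ∘ q) u = pullU q (pullU p u) :=
    fun u => Units.ext (Fam.ext fun _ => rfl)
  constructor
  · intro u hu hu'
    rw [hpq] at hu'
    exact h1.1 u hu (h2.1 _ (GL1_map (pull_mem_cp hp hep) hu) hu')
  · intro v hv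
    obtain ⟨w, hw, hw'⟩ := h2.2 v hv
    obtain ⟨u, hu, hu'⟩ := h1.2 w hw
    refine ⟨u, hu, ?_⟩
    have h3 : pullU q ((pullU p u)⁻¹ * w) ∈ E1 (cp Γ X) :=
      E1_map (pull_norm_le q) (pull_mem_cp hq heq) hu'
    rw [map_mul, map_inv] at h3
    rw [hpq]
    have h4 := mul_mem h3 hw'
    rwa [mul_assoc, mul_inv_cancel_left] at h4

/-- Conjugate maps. -/
private theorem FA2_conj {X' Y' : Type} [TopologicalSpace X'] [MulAction Γ X']
    [TopologicalSpace Y'] [MulAction Γ Y'] {p : X → Y} {p' : X' → Y'} (e : X' ≃ₜ X)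
    (e' : Y' ≃ₜ Y) (he : ∀ (g : Γ) x, e (g • x) = g • e x)
    (he' : ∀ (g : Γ) x, e' (g • x) = g • e' x) (h : ∀ x, p (e x) = e' (p' x))
    (hp : IsProperMap p) (hep : ∀ (g : Γ) x, p (g • x) = g • p x)
    (hp' : IsProperMap p') (hep' : ∀ (g : Γ) x, p' (g • x) = g • p' x) :
    IsoU Γ p ↔ IsoU Γ p' := by
  have he1 : ∀ (g : Γ) y, e'.symm (g • y) = g • e'.symm y := by
    intro g y
    rw [Homeomorph.symm_apply_eq, he', Homeomorph.apply_symm_apply]
  constructor
  · intro h1
    have h2 := FA2_comp hp hep e.isProperMap he h1 (IsoU.of_homeomorph e he)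
    have h3 := FA2_comp e'.symm.isProperMap he1 (hp.comp e.isProperMap)
      (fun g x => by rw [Function.comp_apply, Function.comp_apply, he, hep])
      (IsoU.of_homeomorph e'.symm he1) h2
    have h4 : (e'.symm : Y → Y') ∘ p ∘ (e : X' → X) = p' := by
      funext x
      rw [Function.comp_apply, Function.comp_apply, h, Homeomorph.symm_apply_apply]
    rwa [h4] at h3
  · intro h1
    have h2 := FA2_comp e'.isProperMap he' hp' hep' (IsoU.of_homeomorph e' he') h1
    have h4 : (e' : Y' → Y) ∘ p' = p ∘ (e : X' → X) := by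
      funext x
      rw [Function.comp_apply, Function.comp_apply, h]
    rw [h4] at h2
    exact IsoU.of_comp hp hep e.isProperMap he h2 (IsoU.of_homeomorph e he)

end Conj

/-- Split off the first coordinate of the cube. -/
private def FA2_homeo (W : Type) [TopologicalSpace W] (j : ℕ) :
    (W × Cube j) × OO ≃ₜ W × Cube (j + 1) where
  toFun x := (x.1.1, (Fin.cons x.2 x.1.2 : Fin (j + 1) → Set.Ioo (0 : ℝ) 1))
  invFun y := ((y.1, fun i => y.2 i.succ), y.2 0)
  left_inv _ := rfl
  right_inv y := Prod.ext rfl (Fin.cons_self_tail (α := fun _ => Set.Ioo (0 : ℝ) 1) y.2)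
  continuous_toFun := by
    refine (continuous_fst.comp continuous_fst).prodMk ?_
    refine continuous_pi fun i => ?_
    refine Fin.cases ?_ (fun i => ?_) i
    · exact continuous_snd
    · have h : Continuous fun c : Fin j → Set.Ioo (0 : ℝ) 1 => c i := continuous_apply i
      exact h.comp (continuous_snd.comp continuous_fst)
  continuous_invFun := by
    refine (continuous_fst.prodMk ?_).prodMk ?_
    · refine continuous_pi fun i => ?_
      have h : Continuous fun c : Fin (j + 1) → Set.Ioo (0 : ℝ) 1 => c i.succ :=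
        continuous_apply i.succ
      exact h.comp continuous_snd
    · have h : Continuous fun c : Fin (j + 1) → Set.Ioo (0 : ℝ) 1 => c 0 := continuous_apply 0
      exact h.comp continuous_snd

/-- PROOF: `Homeomorph`: split off the last coordinate `Cube (j + 1) ≃ Cube j × (0,1)`
(`Fin.snoc`, `Fin.init`, or `Fin.cons`), equivariant since the actions are trivial; conjugate
(`IsoU.of_homeomorph`, `IsoU.comp`, `IsoU.of_comp`). -/
theorem isoU_cube {Γ Y Z W : Type} [Group Γ] [TopologicalSpace Y] [MulAction Γ Y]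
    [TopologicalSpace Z] [MulAction Γ Z] [TopologicalSpace W] [MulAction Γ W] {p : Z → Y}
    (hp : IsProperMap p) (he : ∀ (g : Γ) z, p (g • z) = g • p z) (j : ℕ) :
    IsoU Γ (Prod.map p (id : (W × Cube j) × OO → (W × Cube j) × OO)) ↔
      IsoU Γ (Prod.map p (id : W × Cube (j + 1) → W × Cube (j + 1))) := by
  refine (FA2_conj ((Homeomorph.refl Z).prodCongr (FA2_homeo W j))
    ((Homeomorph.refl Y).prodCongr (FA2_homeo W j)) (fun _ _ => rfl) (fun _ _ => rfl)
    (fun _ => rfl) (hp.prodMap isProperMap_id) (fun g x => Prod.ext (he g x.1) rfl)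
    (hp.prodMap isProperMap_id) (fun g x => Prod.ext (he g x.1) rfl)).symm

end PartFA2

section PartFA3

open scoped ENNReal Topology ZeroAtInfty
open Filter Topology Set MulAction

instance (j : ℕ) : T2Space (Cube j) := inferInstanceAs (T2Space (Fin j → Ioo (0 : ℝ) 1))

instance (Γ : Type) [Group Γ] (j : ℕ) : ContinuousConstSMul Γ (Cube j) := ⟨fun _ => continuous_id⟩

/-- PROOF: a finite product of the open (so locally compact) intervals. -/
instance (j : ℕ) : LocallyCompactSpace (Cube j) := by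
  have h : LocallyCompactSpace (Ioo (0 : ℝ) 1) :=
    (isOpen_Ioo (a := (0 : ℝ)) (b := 1)).locallyCompactSpace
  exact inferInstanceAs (LocallyCompactSpace (Fin j → Ioo (0 : ℝ) 1))

variable {Γ E : Type} [Group Γ] [AddCommGroup E] [Module ℝ E] [TopologicalSpace E] [T2Space E]
  [ContinuousAdd E] [ContinuousSMul ℝ E] [DistribMulAction Γ E] [SMulCommClass Γ ℝ E]
  [ContinuousConstSMul Γ E]

/-- PROOF: `ConvexSpace.Pt` is compact and nonempty; `propA_of_amenable`. -/
theorem propA_of_convexSpace (Q : ConvexSpace Γ E) (hQ : AmenableAction Γ Q.Pt) : PropA Γ := by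
  have h1 : CompactSpace Q.Pt := isCompact_iff_compactSpace.mp Q.compact
  have h2 : Nonempty Q.Pt := Q.nonempty.to_subtype
  exact propA_of_amenable hQ

end PartFA3

section PartFA4

open scoped ENNReal Topology ZeroAtInfty
open Filter Topology Set MulAction

private theorem FA4_metrizable_cfg (Γ : Type) [Countable Γ] :
    TopologicalSpace.MetrizableSpace (Cfg Γ) := by
  have h1 : SecondCountableTopology (Cfg Γ) :=
    inferInstanceAs (SecondCountableTopology (ℕ × Γ → Icc (0 : ℝ) 1))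
  exact TopologicalSpace.metrizableSpace_of_t3_secondCountable _

private theorem FA4_boxS {Γ : Type} [Group Γ] {X : Type} [TopologicalSpace X] [T2Space X]
    [LocallyCompactSpace X] [MulAction Γ X] [ContinuousConstSMul Γ X] {f : ℕ → X → ℝ}
    (hf : ∀ m, Continuous (f m)) (k : ℕ) :
    LocallyCompactSpace (boxS f k : InvSet Γ (X × Cfg Γ)).Pt := by
  refine InvSet.locallyCompactSpace _ ?_
  rw [boxS_eq_diff, Set.sdiff_eq]
  exact (isClosed_boxR hf (k + 1)).isLocallyClosed.inter
    (isClosed_boxR hf k).isOpen_compl.isLocallyClosed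

variable {Γ E : Type} [Group Γ] [AddCommGroup E] [Module ℝ E] [TopologicalSpace E] [T2Space E]
  [ContinuousAdd E] [ContinuousSMul ℝ E] [DistribMulAction Γ E] [SMulCommClass Γ ℝ E]
  [ContinuousConstSMul Γ E]

/-- THE CUTTING THEOREM. PROOF: `f` from `exists_general_position`; `Z = (boxR f 0).Pt`,
`p = projection`. `p` is proper (`isProperMap_prX`-like: closed subset of `X × Cfg Γ`, `Cfg Γ` compact),
surjective (`surjective_boxR_zero`), `Z` is totally disconnected
(`totallyDisconnected_boxR_zero`), metrizable (a subspace of `X × [0,1]^(ℕ × Γ)`, `Γ` countable),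
locally compact and `σ`-compact (closed in `X × Cfg Γ`). The stabilizers: `stabilizer z ≤
stabilizer (p z)`, `AmenableGroup.of_injective` for `Subgroup.inclusion`. Fibres: `encard_fibre_le`.
The isomorphism for `j + 1`: the strata `(boxS f k).Pt` are locally compact Hausdorff and amenable
(`amenable_boxS`), so `GL1_le_E1_of_amenable` gives the hypotheses `h0`, `h1` of `isoU_boxR_zero` with
`V = Cone Q × Cube j` (for `V × OO` use the homeomorphism
`Cone Q × Cube j × OO ≃ ...`: `S × ((Cone Q × Cube j) × OO) ≃ S × Cone Q × (Cube j × OO)` and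
`GL1_le_E1_of_homeomorph`), then `isoU_cube`; `prX A V = Prod.map p id`. -/
theorem cutting [Countable Γ] (Q : ConvexSpace Γ E) (hQ : AmenableAction Γ Q.Pt) {X : Type}
    [TopologicalSpace X] [TopologicalSpace.MetrizableSpace X] [LocallyCompactSpace X]
    [SigmaCompactSpace X] [MulAction Γ X] [ContinuousConstSMul Γ X] {d : ℕ} (hd : DimLE X d)
    (hX : ∀ x : X, AmenableGroup (stabilizer Γ x)) :
    ∃ (Z : Type) (_ : TopologicalSpace Z) (_ : MulAction Γ Z) (p : Z → X),
      IsProperMap p ∧ (∀ (g : Γ) z, p (g • z) = g • p z) ∧ Function.Surjective p ∧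
      ContinuousConstSMul Γ Z ∧ TopologicalSpace.MetrizableSpace Z ∧ LocallyCompactSpace Z ∧
      SigmaCompactSpace Z ∧ TotallyDisconnectedSpace Z ∧
      (∀ z : Z, AmenableGroup (stabilizer Γ z)) ∧
      ((∀ x : X, stabilizer Γ x = ⊥) → ∀ x, (p ⁻¹' {x}).encard ≤ 2 ^ d) ∧
      ∀ j, IsoU Γ (Prod.map p (id : Cone Q × Cube (j + 1) → Cone Q × Cube (j + 1))) := by
  obtain ⟨f, hf, hgen, hsep⟩ := exists_general_position (Γ := Γ) hd
  have hA := propA_of_convexSpace Q hQ
  have hcone := cone_locallyCompact Q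
  obtain ⟨R, hR⟩ : ∃ R : InvSet Γ (X × Cfg Γ), R = boxR f 0 := ⟨_, rfl⟩
  have hRc : IsClosed R.carrier := by
    rw [hR]
    exact isClosed_boxR hf 0
  have hval : IsClosedEmbedding R.val := hRc.isClosedEmbedding_subtypeVal
  have hp : IsProperMap (fun z : R.Pt => (R.val z).1) :=
    isProperMap_fst_of_compactSpace.comp hval.isProperMap
  have he : ∀ (g : Γ) (z : R.Pt), (R.val (g • z)).1 = g • (R.val z).1 := fun _ _ => rfl
  have hmC := FA4_metrizable_cfg Γ
  refine ⟨R.Pt, inferInstance, inferInstance, fun z => (R.val z).1, hp, he, ?_, inferInstance,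
    hval.isEmbedding.metrizableSpace, InvSet.locallyCompactSpace _ hRc.isLocallyClosed,
    hval.sigmaCompactSpace, ?_, ?_, ?_, ?_⟩
  · rw [hR]
    exact surjective_boxR_zero f
  · rw [hR]
    exact totallyDisconnected_boxR_zero hsep
  · intro z
    have hle : stabilizer Γ z ≤ stabilizer Γ (R.val z).1 := by
      intro g hg
      rw [mem_stabilizer_iff] at hg ⊢
      rw [← he, hg]
    exact AmenableGroup.of_injective (Subgroup.inclusion hle) (Subgroup.inclusion_injective hle)
      (hX _)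
  · intro hst x
    rw [hR]
    exact encard_fibre_le hgen hst x
  · intro j
    rw [← isoU_cube hp he j, hR]
    refine isoU_boxR_zero (V := Cone Q × Cube j) hA hf hgen (fun k => ?_) (fun k => ?_)
    · have := FA4_boxS (Γ := Γ) hf k
      exact GL1_le_E1_of_amenable Q hA (amenable_boxS hX hf k)
    · have := FA4_boxS (Γ := Γ) hf k
      have h1 := GL1_le_E1_of_amenable Q (V := Cube j × OO) hA (amenable_boxS hX hf k)
      exact GL1_le_E1_of_homeomorph
        ((Homeomorph.refl (boxS f k : InvSet Γ (X × Cfg Γ)).Pt).prodCongr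
          (Homeomorph.prodAssoc (Cone Q) (Cube j) OO).symm) (fun _ _ => rfl) h1

end PartFA4

section PartFA5

open scoped ENNReal Topology ZeroAtInfty
open Filter Topology Set MulAction

variable {Γ E : Type} [Group Γ] [AddCommGroup E] [Module ℝ E] [TopologicalSpace E] [T2Space E]
  [ContinuousAdd E] [ContinuousSMul ℝ E] [DistribMulAction Γ E] [SMulCommClass Γ ℝ E]
  [ContinuousConstSMul Γ E]

/-- SUBSHIFTS OF FINITE TYPE. PROOF: `GL1_le_E1_of_subshifts`, `GL1_le_E1_subshift`. -/
theorem sft_suffice [Countable Γ] (Q : ConvexSpace Γ E) (hQ : AmenableAction Γ Q.Pt) (j : ℕ)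
    (h : ∀ (n : ℕ) (F : Finset Γ) (P : Set (F → Fin n)),
      GL1 (cp Γ (SFT Γ n F P × Cone Q × Cube j)) ≤ E1 (cp Γ (SFT Γ n F P × Cone Q × Cube j)))
    {Z : Type} [TopologicalSpace Z] [T2Space Z] [CompactSpace Z] [TotallyDisconnectedSpace Z]
    [MulAction Γ Z] [ContinuousConstSMul Γ Z] :
    GL1 (cp Γ (Z × Cone Q × Cube j)) ≤ E1 (cp Γ (Z × Cone Q × Cube j)) := by
  have := cone_locallyCompact Q
  exact GL1_le_E1_of_subshifts fun n A hA =>
    GL1_le_E1_subshift (propA_of_convexSpace Q hQ) h n A hA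

end PartFA5

end Pool.Agent.Lib.MP_aa9b81_an.Cut
end

end


section
/-!
# Cutting theorem, part P
-/

noncomputable section

namespace Pool.Agent.Lib.MP_aa9b81_an.Cut

section PartPA1

open scoped ENNReal Topology ZeroAtInfty
open Filter Topology Set

/-- A homotopy inverse. PROOF: injectivity: `u = pullU s (pullU p u)` (as `p ∘ s = id`) and `pullU s`
maps `E1` to `E1` (`E1_map`, `pull_norm_le`, `pull_mem_cp`). Surjectivity: for `v` put `u = pullU s v`;
then `pullU p u = pullU (fun z => h (z, 0)) v` and `v = pullU (fun z => h (z, 1)) v`, and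
`homotopy_invariance` applies. -/
theorem IsoU.of_retract {Γ Y Z : Type} [Group Γ] [TopologicalSpace Y] [MulAction Γ Y]
    [TopologicalSpace Z] [MulAction Γ Z] {p : Z → Y} {s : Y → Z} (hp : IsProperMap p)
    (hep : ∀ (g : Γ) z, p (g • z) = g • p z) (hs : IsProperMap s)
    (hes : ∀ (g : Γ) y, s (g • y) = g • s y) (hps : ∀ y, p (s y) = y)
    {h : Z × Icc (0 : ℝ) 1 → Z} (hh : IsProperMap h)
    (he : ∀ (g : Γ) z t, h (g • z, t) = g • h (z, t)) (h0 : ∀ z, h (z, 0) = s (p z))
    (h1 : ∀ z, h (z, 1) = z) : IsoU Γ p := by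
  constructor
  · intro u _ hu'
    have h2 : pullU s (pullU p u) = u := by
      rw [← BA1_pullU_comp]
      have h3 : p ∘ s = id := funext hps
      rw [h3]
      exact Units.ext (Fam.ext fun y => rfl)
    rw [← h2]
    exact BA1_mem_E1 hs hes hu'
  · intro v hv
    refine ⟨pullU s v, BA1_mem_GL1 hs hes hv, ?_⟩
    have h2 : pullU p (pullU s v) = pullU (fun z => h (z, 0)) v := by
      rw [← BA1_pullU_comp]
      have h3 : s ∘ p = fun z => h (z, 0) := funext fun z => (h0 z).symm
      rw [h3]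
    have h4 : pullU (fun z => h (z, 1)) v = v := by
      have h5 : (fun z => h (z, 1)) = id := funext h1
      rw [h5]
      exact Units.ext (Fam.ext fun y => rfl)
    have h6 := homotopy_invariance hh he hv
    rw [h4] at h6
    rw [h2]
    exact h6

/-- PROOF. Injectivity of `q^*`: let `w ∈ GL1` over `Z` with `pullU q w ∈ E1`. By surjectivity of
`p^*` there is `u` with `(pullU p u)⁻¹ * w ∈ E1`, so `pullU (p ∘ q) u = pullU q (pullU p u) ∈ E1`
(`E1_map`), so `u ∈ E1`, `pullU p u ∈ E1`, `w ∈ E1`. Surjectivity of `q^*`: for `v` over `X` take `u`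
over `Y` with `(pullU (p ∘ q) u)⁻¹ * v ∈ E1` and `w = pullU p u`. -/
theorem IsoU.of_comp_left {Γ X Y Z : Type} [Group Γ] [TopologicalSpace X] [MulAction Γ X]
    [TopologicalSpace Y] [MulAction Γ Y] [TopologicalSpace Z] [MulAction Γ Z] {p : Z → Y}
    {q : X → Z} (hp : IsProperMap p) (hep : ∀ (g : Γ) x, p (g • x) = g • p x)
    (hq : IsProperMap q) (heq : ∀ (g : Γ) x, q (g • x) = g • q x) (h1 : IsoU Γ (p ∘ q))
    (h2 : IsoU Γ p) : IsoU Γ q := by
  constructor
  · intro w hw hqw
    obtain ⟨u, hu, hu'⟩ := h2.2 w hw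
    have e1 : pullU (p ∘ q) u ∈ E1 (cp Γ X) := by
      rw [BA1_pullU_comp]
      have e2 := BA1_mem_E1 hq heq hu'
      rw [map_mul, map_inv] at e2
      have e3 : pullU q (pullU p u) =
          pullU q w * ((pullU q (pullU p u))⁻¹ * pullU q w)⁻¹ := by group
      rw [e3]
      exact mul_mem hqw (inv_mem e2)
    have e4 := BA1_mem_E1 hp hep (h1.1 u hu e1)
    have e5 : w = pullU p u * ((pullU p u)⁻¹ * w) := by group
    rw [e5]
    exact mul_mem e4 hu'
  · intro v hv
    obtain ⟨u, hu, hu'⟩ := h1.2 v hv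
    refine ⟨pullU p u, BA1_mem_GL1 hp hep hu, ?_⟩
    rw [BA1_pullU_comp] at hu'
    exact hu'

end PartPA1

section PartPA2

open scoped ENNReal Topology ZeroAtInfty
open Filter Topology Set

variable {Γ P C O : Type} [Group Γ] [TopologicalSpace P] [MulAction Γ P] [ContinuousConstSMul Γ P]
  [T2Space P] [LocallyCompactSpace P] [TopologicalSpace C] [MulAction Γ C]
  [TopologicalSpace O] [MulAction Γ O] {c : C → P} {o : O → P}

omit [LocallyCompactSpace P] in
/-- PROOF: `exists_path_unit` for `O = P`, `o = id`, `C = Empty` (or `PEmpty`) with the trivial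
instances: `extUnit (extF id) v = v` (`extF_apply`). Or the same closure induction as there. -/
theorem exists_path_unit_all {v : (Fam Γ P)ˣ} (hv : v ∈ E1 (cp Γ P)) :
    ∃ ρ ∈ GL1 (cp Γ (P × OC)), pullU (fun p : P => (p, OC.one)) ρ = v := by
  let _ : MulAction Γ Empty :=
    { smul := fun _ x => x
      one_smul := fun _ => rfl
      mul_smul := fun _ _ _ => rfl }
  obtain ⟨ρ, hρ, hρ1, -⟩ := exists_path_unit (Γ := Γ) (P := P) (C := Empty) (O := P)
    (c := Empty.elim) (o := id) IsOpenEmbedding.id (fun _ _ => rfl) (by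
      rw [range_id]
      ext x
      constructor
      · rintro - ⟨y, -⟩
        exact y.elim
      · intro _
        exact mem_univ x) hv
  refine ⟨ρ, hρ, ?_⟩
  have h1 : extUnit (extF (id : P → P)) v = v := by
    refine Units.ext (Fam.ext fun x => ?_)
    have e : ((extUnit (extF (id : P → P)) v : (Fam Γ P)ˣ) : Fam Γ P) x =
        1 + extF (id : P → P) ((v : Fam Γ P) - 1) (id x) := rfl
    rw [e, extF_apply Function.injective_id, Fam.sub_apply, Fam.one_apply]
    abel
  rw [← h1, ← hρ1]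
  rfl

/-- EXACTNESS AT THE OPEN SUBSET. PROOF. Put `w = extUnit (extF o) u`.
1. `exists_path_unit_all` gives `ρ ∈ GL1 (cp Γ (P × (0,1]))` with `pullU (·, 1) ρ = w`.
2. `r = pullU (c × id) ρ ∈ GL1 (cp Γ (C × (0,1]))`, `pullU (·, 1) r = pullU c w = 1`, since
`pull c (extF o a) = 0` (`extF_apply_of_notMem`). By `ExactSeq.exists_ext` (`exactSeq_closed` for
`C × {1} ⊆ C × (0,1]`, `embeddings_OC`) `r = extUnit (extF (id × toOC)) l`, `l ∈ GL1 (cp Γ (C × (0,1)))`.
3. `hsurj` gives `x ∈ GL1 (cp Γ (P × (0,1)))` with `(pullU (c × id) x)⁻¹ * l ∈ E1`; by `E1_lift`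
(`normLift_closed` for `c × id`, which is a closed embedding) this is `pullU (c × id) e`,
`e ∈ E1 (cp Γ (P × (0,1)))`. So `y = x * e ∈ GL1` has `pullU (c × id) y = l`.
4. `z = ρ * (extUnit (extF (id × toOC)) y)⁻¹ ∈ GL1 (cp Γ (P × (0,1]))`, `pullU (c × id) z = 1` by
`pull_extF_OC`, and `pullU (·, 1) z = w`, because `extF (id × toOC)` vanishes at the points `(p, 1)`.
5. `ExactSeq.exists_ext` for the closed subset `C × (0,1]` of `P × (0,1]` with the complement
`O × (0,1]` gives `z = extUnit (extF (o × id)) t`, `t ∈ GL1 (cp Γ (O × (0,1]))`.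
6. `t ∈ E1` by `GL1_le_E1_prod_OC` (`O` is Hausdorff and locally compact, being open in `P`), so
`pullU (·, 1) t ∈ E1 (cp Γ O)` (`E1_map`). Finally `pullU (·, 1) t = u`, because
`extF o (pull (·, 1) a) = pull (·, 1) (extF (o × id) a)` pointwise and `extF o` is isometric
(`norm_extF`). -/
theorem exact_open (hA : PropA Γ) (hc : IsClosedEmbedding c)
    (hec : ∀ (g : Γ) x, c (g • x) = g • c x) (ho : IsOpenEmbedding o)
    (heo : ∀ (g : Γ) x, o (g • x) = g • o x) (hco : range o = (range c)ᶜ)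
    (hsurj : ∀ v ∈ GL1 (cp Γ (C × OO)), ∃ u ∈ GL1 (cp Γ (P × OO)),
      (pullU (Prod.map c (id : OO → OO)) u)⁻¹ * v ∈ E1 (cp Γ (C × OO)))
    {u : (Fam Γ O)ˣ} (hu : u ∈ GL1 (cp Γ O)) (h : extUnit (extF o) u ∈ E1 (cp Γ P)) :
    u ∈ E1 (cp Γ O) := by
  have : T2Space C := hc.isEmbedding.t2Space
  have : LocallyCompactSpace C := hc.locallyCompactSpace
  have : ContinuousConstSMul Γ C := ⟨fun g => by
    rw [hc.isInducing.continuous_iff]
    have h1 : (c ∘ fun x => g • x) = fun x => g • c x := funext fun x => hec g x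
    rw [h1]
    exact hc.continuous.const_smul g⟩
  have : T2Space O := ho.isEmbedding.t2Space
  have : LocallyCompactSpace O := ho.locallyCompactSpace
  obtain ⟨embC1, embC2, embC3⟩ := embeddings_OC (P := C)
  obtain ⟨embP1, embP2, embP3⟩ := embeddings_OC (P := P)
  obtain ⟨-, embO2, -⟩ := embeddings_OC (P := O)
  have hcOC : IsClosedEmbedding (Prod.map c (id : OC → OC)) := hc.prodMap IsClosedEmbedding.id
  have hecOC : ∀ (g : Γ) z, Prod.map c (id : OC → OC) (g • z) =
      g • Prod.map c (id : OC → OC) z := by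
    rintro g ⟨x, t⟩
    exact Prod.ext (hec g x) rfl
  have hcOO : IsClosedEmbedding (Prod.map c (id : OO → OO)) := hc.prodMap IsClosedEmbedding.id
  have hecOO : ∀ (g : Γ) z, Prod.map c (id : OO → OO) (g • z) =
      g • Prod.map c (id : OO → OO) z := by
    rintro g ⟨x, t⟩
    exact Prod.ext (hec g x) rfl
  have hoOC : IsOpenEmbedding (Prod.map o (id : OC → OC)) := ho.prodMap IsOpenEmbedding.id
  have heoOC : ∀ (g : Γ) z, Prod.map o (id : OC → OC) (g • z) =
      g • Prod.map o (id : OC → OC) z := by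
    rintro g ⟨x, t⟩
    exact Prod.ext (heo g x) rfl
  have hcoOC : range (Prod.map o (id : OC → OC)) = (range (Prod.map c (id : OC → OC)))ᶜ := by
    rw [Set.range_prodMap, Set.range_prodMap, hco]
    ext ⟨x, t⟩
    simp
  -- step 1
  obtain ⟨ρ, hρ, hρ1⟩ := exists_path_unit_all h
  -- step 2
  have hr : pullU (Prod.map c (id : OC → OC)) ρ ∈ GL1 (cp Γ (C × OC)) :=
    GL1_map (pull_mem_cp hcOC.isProperMap hecOC) hρ
  have hr1 : pullU (fun x : C => (x, OC.one)) (pullU (Prod.map c (id : OC → OC)) ρ) = 1 := by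
    have h1 : pullU (fun x : C => (x, OC.one)) (pullU (Prod.map c (id : OC → OC)) ρ) =
        pullU c (pullU (fun p : P => (p, OC.one)) ρ) := Units.ext (Fam.ext fun y => rfl)
    rw [h1, hρ1]
    refine Units.ext (Fam.ext fun y => ?_)
    have h2 : ((pullU c (extUnit (extF o) u) : (Fam Γ C)ˣ) : Fam Γ C) y =
        1 + extF o ((u : Fam Γ O) - 1) (c y) := rfl
    rw [h2, extF_apply_of_notMem, add_zero]
    · rfl
    · rw [hco]
      exact fun h => h ⟨y, rfl⟩
  obtain ⟨l, hl, hlr⟩ := (exactSeq_closed hA embC2 (fun g x => rfl) embC1 (fun g x => rfl)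
    embC3).exists_ext hr hr1
  -- step 3
  obtain ⟨x, hx, hxl⟩ := hsurj l hl
  obtain ⟨e, he, hee⟩ := E1_lift isClosed_cp isClosed_cp (normLift_closed hA hcOO hecOO) hxl
  have hee' : pullU (Prod.map c (id : OO → OO)) e =
      (pullU (Prod.map c (id : OO → OO)) x)⁻¹ * l := hee
  have hy : x * e ∈ GL1 (cp Γ (P × OO)) := (GL1 _).mul_mem hx (E1_le _ he)
  have hyl : pullU (Prod.map c (id : OO → OO)) (x * e) = l := by
    rw [map_mul, hee', mul_inv_cancel_left]
  -- step 4
  obtain ⟨Y, hYdef⟩ : ∃ Y, Y = extUnit (extF (Prod.map (id : P → P) OO.toOC)) (x * e) := ⟨_, rfl⟩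
  have hY : Y ∈ GL1 (cp Γ (P × OC)) := by
    rw [hYdef]
    exact extUnit_mem_GL1 (fun a ha => extF_mem_cp embP1 (fun g x => rfl) a ha) hy
  have hYc : pullU (Prod.map c (id : OC → OC)) Y = pullU (Prod.map c (id : OC → OC)) ρ := by
    rw [← hlr, ← hyl, hYdef]
    refine Units.ext ?_
    change pull (Prod.map c (id : OC → OC)) (1 + extF (Prod.map (id : P → P) OO.toOC)
      (((x * e : (Fam Γ (P × OO))ˣ) : Fam Γ (P × OO)) - 1)) =
      1 + extF (Prod.map (id : C → C) OO.toOC)
        (pull (Prod.map c (id : OO → OO)) ((x * e : (Fam Γ (P × OO))ˣ) : Fam Γ (P × OO)) - 1)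
    rw [map_add, map_one, pull_extF_OC, map_sub, map_one]
  have hY1 : pullU (fun p : P => (p, OC.one)) Y = 1 := by
    rw [hYdef]
    refine Units.ext (Fam.ext fun p => ?_)
    have h2 : ((pullU (fun p : P => (p, OC.one))
        (extUnit (extF (Prod.map (id : P → P) OO.toOC)) (x * e)) : (Fam Γ P)ˣ) : Fam Γ P) p =
        1 + extF (Prod.map (id : P → P) OO.toOC)
          (((x * e : (Fam Γ (P × OO))ˣ) : Fam Γ (P × OO)) - 1) (p, OC.one) := rfl
    rw [h2, extF_apply_of_notMem, add_zero]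
    · rfl
    · rw [embP3]
      exact fun h => h ⟨p, rfl⟩
  have hz : ρ * Y⁻¹ ∈ GL1 (cp Γ (P × OC)) := (GL1 _).mul_mem hρ ((GL1 _).inv_mem hY)
  have hzc : pullU (Prod.map c (id : OC → OC)) (ρ * Y⁻¹) = 1 := by
    rw [map_mul, map_inv, hYc, mul_inv_cancel]
  have hz1 : pullU (fun p : P => (p, OC.one)) (ρ * Y⁻¹) = extUnit (extF o) u := by
    rw [map_mul, map_inv, hY1, inv_one, mul_one, hρ1]
  -- step 5
  obtain ⟨t, ht, htz⟩ := (exactSeq_closed hA hcOC hecOC hoOC heoOC hcoOC).exists_ext hz hzc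
  -- step 6
  have ht1 : t ∈ E1 (cp Γ (O × OC)) := GL1_le_E1_prod_OC ht
  have ht2 : pullU (fun x : O => (x, OC.one)) t ∈ E1 (cp Γ O) :=
    E1_map (fun a => pull_norm_le _ a) (pull_mem_cp embO2.isProperMap (fun g x => rfl)) ht1
  have ht3 : pullU (fun x : O => (x, OC.one)) t = u := by
    refine Units.ext (Fam.ext fun y => ?_)
    rw [← htz] at hz1
    have h3 := congrArg (fun z : (Fam Γ P)ˣ => (z : Fam Γ P) (o y)) hz1
    have h4 : (1 : Op Γ) + extF (Prod.map o (id : OC → OC)) ((t : Fam Γ (O × OC)) - 1)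
        (Prod.map o (id : OC → OC) (y, OC.one)) = 1 + extF o ((u : Fam Γ O) - 1) (o y) := h3
    rw [extF_apply hoOC.injective, extF_apply ho.injective, Fam.sub_apply, Fam.sub_apply,
      Fam.one_apply, Fam.one_apply, add_sub_cancel, add_sub_cancel] at h4
    exact h4
  rw [← ht3]
  exact ht2

end PartPA2

section PartPA3

open scoped ENNReal Topology ZeroAtInfty
open Filter Topology Set

variable {Γ P C O : Type} [Group Γ] [TopologicalSpace P] [MulAction Γ P] [ContinuousConstSMul Γ P]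
  [T2Space P] [LocallyCompactSpace P] [TopologicalSpace C] [MulAction Γ C]
  [TopologicalSpace O] [MulAction Γ O] {c : C → P} {o : O → P}

/-- PROOF: for `u ∈ GL1 (cp Γ O)` the unit `w = extUnit (extF o) u ∈ GL1 (cp Γ P)`
(`extUnit_mem_GL1`, `extF_mem_cp`) has `pullU c w = 1 ∈ E1`, so `w ∈ E1` by `hinj`, and
`exact_open` applies. -/
theorem GL1_le_E1_of_surj (hA : PropA Γ) (hc : IsClosedEmbedding c)
    (hec : ∀ (g : Γ) x, c (g • x) = g • c x) (ho : IsOpenEmbedding o)
    (heo : ∀ (g : Γ) x, o (g • x) = g • o x) (hco : range o = (range c)ᶜ)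
    (hinj : ∀ u ∈ GL1 (cp Γ P), pullU c u ∈ E1 (cp Γ C) → u ∈ E1 (cp Γ P))
    (hsurj : ∀ v ∈ GL1 (cp Γ (C × OO)), ∃ u ∈ GL1 (cp Γ (P × OO)),
      (pullU (Prod.map c (id : OO → OO)) u)⁻¹ * v ∈ E1 (cp Γ (C × OO))) :
    GL1 (cp Γ O) ≤ E1 (cp Γ O) := by
  intro u hu
  refine exact_open hA hc hec ho heo hco hsurj hu (hinj _ ?_ ?_)
  · exact extUnit_mem_GL1 (fun a ha => extF_mem_cp ho heo a ha) hu
  · have h1 : pullU c (extUnit (extF o) u) = 1 := by
      refine Units.ext (Fam.ext fun y => ?_)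
      have h2 : ((pullU c (extUnit (extF o) u) : (Fam Γ C)ˣ) : Fam Γ C) y =
          1 + extF o ((u : Fam Γ O) - 1) (c y) := rfl
      rw [h2, extF_apply_of_notMem, add_zero]
      · rfl
      · rw [hco]
        exact fun h => h ⟨y, rfl⟩
    rw [h1]
    exact one_mem _

end PartPA3

section PartPC1

open scoped ENNReal Topology ZeroAtInfty
open Filter Topology Set

variable {Γ E : Type} [Group Γ] [AddCommGroup E] [Module ℝ E] [TopologicalSpace E]
  [DistribMulAction Γ E]

/-- The closed cone on a convex space `Q`: the points `(s q, s)` with `q ∈ Q`, `0 ≤ s ≤ 1`. -/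
def CCone (Q : ConvexSpace Γ E) : Type :=
  {w : E × ℝ // 0 ≤ w.2 ∧ w.2 ≤ 1 ∧ ∃ q ∈ Q.carrier, w.1 = w.2 • q}

variable (Q : ConvexSpace Γ E)

instance : TopologicalSpace (CCone Q) :=
  inferInstanceAs (TopologicalSpace {w : E × ℝ // 0 ≤ w.2 ∧ w.2 ≤ 1 ∧ ∃ q ∈ Q.carrier, w.1 = w.2 • q})

instance [T2Space E] : T2Space (CCone Q) :=
  inferInstanceAs (T2Space {w : E × ℝ // 0 ≤ w.2 ∧ w.2 ≤ 1 ∧ ∃ q ∈ Q.carrier, w.1 = w.2 • q})

/-- The inclusion of the open cone. -/
def CCone.ofCone (w : Cone Q) : CCone Q := ⟨w.1, w.2.1, w.2.2.1.le, w.2.2.2⟩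

/-- The inclusion of the base. -/
def CCone.ofPt (q : Q.Pt) : CCone Q :=
  ⟨(q.1, 1), zero_le_one, le_refl _, q.1, q.2, (one_smul ℝ q.1).symm⟩

/-- The apex. -/
def CCone.apex : CCone Q :=
  ⟨(0, 0), le_refl _, zero_le_one, Q.nonempty.some, Q.nonempty.some_mem, by simp⟩

/-- The homothety `(σ q, σ) ↦ (t σ q, t σ)`. -/
def CCone.scale (w : CCone Q) (t : Icc (0 : ℝ) 1) : CCone Q :=
  ⟨(t.1 • w.1.1, t.1 * w.1.2), mul_nonneg t.2.1 w.2.1, mul_le_one₀ t.2.2 w.2.1 w.2.2.1, by
    obtain ⟨q, hq, h⟩ := w.2.2.2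
    exact ⟨q, hq, by rw [h, smul_smul]⟩⟩

lemma CCone.scale_zero (w : CCone Q) : CCone.scale Q w 0 = CCone.apex Q := by
  refine Subtype.ext (Prod.ext ?_ ?_)
  · exact zero_smul ℝ w.1.1
  · exact zero_mul w.1.2

lemma CCone.scale_one (w : CCone Q) : CCone.scale Q w 1 = w := by
  refine Subtype.ext (Prod.ext ?_ ?_)
  · exact one_smul ℝ w.1.1
  · exact one_mul w.1.2

instance [SMulCommClass Γ ℝ E] : MulAction Γ (CCone Q) where
  smul g w := ⟨(g • w.1.1, w.1.2), w.2.1, w.2.2.1, by
    obtain ⟨q, hq, h⟩ := w.2.2.2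
    exact ⟨g • q, Q.smul_mem g q hq, by
      change g • w.1.1 = w.1.2 • g • q
      rw [h, smul_comm]⟩⟩
  one_smul w := Subtype.ext (Prod.ext (one_smul Γ w.1.1) rfl)
  mul_smul g h w := Subtype.ext (Prod.ext (mul_smul g h w.1.1) rfl)

instance [SMulCommClass Γ ℝ E] [ContinuousConstSMul Γ E] : ContinuousConstSMul Γ (CCone Q) :=
  ⟨fun g => Continuous.subtype_mk
    (((continuous_fst.comp continuous_subtype_val).const_smul g).prodMk
      (continuous_snd.comp continuous_subtype_val)) _⟩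

/-- PROOF: it is the image of the compact space `Q × [0,1]` under the continuous map
`(q, σ) ↦ (σ q, σ)`. -/
instance [ContinuousSMul ℝ E] : CompactSpace (CCone Q) := by
  have hQ : CompactSpace Q.Pt := isCompact_iff_compactSpace.1 Q.compact
  let F : Q.Pt × Icc (0 : ℝ) 1 → CCone Q := fun x =>
    ⟨(x.2.1 • x.1.1, x.2.1), x.2.2.1, x.2.2.2, x.1.1, x.1.2, rfl⟩
  have hF : Continuous F := by
    refine Continuous.subtype_mk ?_ _
    have h1 : Continuous fun x : Q.Pt × Icc (0 : ℝ) 1 => (x.1.1 : E) :=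
      continuous_subtype_val.comp continuous_fst
    have h2 : Continuous fun x : Q.Pt × Icc (0 : ℝ) 1 => (x.2.1 : ℝ) :=
      continuous_subtype_val.comp continuous_snd
    exact (h2.smul h1).prodMk h2
  have hs : Set.range F = Set.univ := by
    refine Set.eq_univ_of_forall fun w => ?_
    obtain ⟨q, hq, h⟩ := w.2.2.2
    exact ⟨(⟨q, hq⟩, ⟨w.1.2, w.2.1, w.2.2.1⟩), Subtype.ext (Prod.ext h.symm rfl)⟩
  exact ⟨hs ▸ isCompact_range hF⟩

/-- PROOF: coordinates. -/
theorem CCone.continuous_scale [ContinuousSMul ℝ E] :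
    Continuous fun x : CCone Q × Icc (0 : ℝ) 1 => CCone.scale Q x.1 x.2 := by
  refine Continuous.subtype_mk ?_ _
  have h1 : Continuous fun x : CCone Q × Icc (0 : ℝ) 1 => (x.1.1 : E × ℝ) :=
    continuous_subtype_val.comp continuous_fst
  have h2 : Continuous fun x : CCone Q × Icc (0 : ℝ) 1 => (x.2.1 : ℝ) :=
    continuous_subtype_val.comp continuous_snd
  exact (h2.smul (continuous_fst.comp h1)).prodMk (h2.mul (continuous_snd.comp h1))

/-- PROOF: coordinates. -/
theorem CCone.smul_scale [SMulCommClass Γ ℝ E] (g : Γ) (w : CCone Q) (t : Icc (0 : ℝ) 1) :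
    CCone.scale Q (g • w) t = g • CCone.scale Q w t := by
  refine Subtype.ext (Prod.ext ?_ rfl)
  exact (smul_comm g t.1 w.1.1).symm

/-- PROOF: coordinates. -/
theorem CCone.smul_apex [SMulCommClass Γ ℝ E] (g : Γ) : g • CCone.apex Q = CCone.apex Q := by
  refine Subtype.ext (Prod.ext ?_ rfl)
  change g • (0 : E) = 0
  rw [smul_zero]

end PartPC1

section PartPC2

open scoped ENNReal Topology ZeroAtInfty
open Filter Topology Set

variable {Γ E : Type} [Group Γ] [AddCommGroup E] [Module ℝ E] [TopologicalSpace E]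
  [DistribMulAction Γ E]

variable (Q : ConvexSpace Γ E)

/-- The inclusion `Y × Cone Q × V → Y × CCone Q × V`. -/
def inO (Y V : Type) : Y × Cone Q × V → Y × CCone Q × V := fun x => (x.1, CCone.ofCone Q x.2.1, x.2.2)

/-- The inclusion `Y × Q × V → Y × CCone Q × V`. -/
def inC (Y V : Type) : Y × Q.Pt × V → Y × CCone Q × V := fun x => (x.1, CCone.ofPt Q x.2.1, x.2.2)

variable {Y V : Type} [TopologicalSpace Y] [TopologicalSpace V]

/-- PROOF: `CCone.ofCone` is an embedding with range the open set `{w.2 < 1}`;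
`IsOpenEmbedding.prodMap` twice. -/
theorem isOpenEmbedding_inO : IsOpenEmbedding (inO Q Y V) := by
  have hcont : Continuous (CCone.ofCone Q) := Continuous.subtype_mk continuous_subtype_val _
  have hval : Continuous (Subtype.val : CCone Q → E × ℝ) := continuous_subtype_val
  have hind : IsInducing (CCone.ofCone Q) := by
    refine IsInducing.of_comp hcont hval ?_
    exact (IsInducing.subtypeVal : IsInducing (Subtype.val : Cone Q → E × ℝ))
  have hinj : Function.Injective (CCone.ofCone Q) := fun a b h =>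
    Subtype.ext (congrArg (fun w : CCone Q => w.1) h)
  have hrange : range (CCone.ofCone Q) = {w : CCone Q | w.1.2 < 1} := by
    ext w
    constructor
    · rintro ⟨v, rfl⟩
      exact v.2.2.1
    · intro hw
      exact ⟨⟨w.1, w.2.1, hw, w.2.2.2⟩, rfl⟩
  have hopen : IsOpen (range (CCone.ofCone Q)) := by
    rw [hrange]
    exact isOpen_lt (continuous_snd.comp hval) continuous_const
  have h1 : IsOpenEmbedding (CCone.ofCone Q) := ⟨⟨hind, hinj⟩, hopen⟩
  exact IsOpenEmbedding.id.prodMap (h1.prodMap IsOpenEmbedding.id)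

/-- PROOF: `CCone.ofPt` is continuous and injective on a compact space (`Q.compact`) with Hausdorff
target, so a closed embedding (`Continuous.isClosedEmbedding`); products
(`IsClosedEmbedding.prodMap`, or the map is a closed embedding as a composition). -/
theorem isClosedEmbedding_inC [T2Space E] : IsClosedEmbedding (inC Q Y V) := by
  have hQ : CompactSpace Q.Pt := isCompact_iff_compactSpace.1 Q.compact
  have hcont : Continuous (CCone.ofPt Q) :=
    Continuous.subtype_mk (continuous_subtype_val.prodMk continuous_const) _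
  have hinj : Function.Injective (CCone.ofPt Q) := fun a b h =>
    Subtype.ext (congrArg (fun w : CCone Q => w.1.1) h)
  have h1 : IsClosedEmbedding (CCone.ofPt Q) := hcont.isClosedEmbedding hinj
  exact IsClosedEmbedding.id.prodMap (h1.prodMap IsClosedEmbedding.id)

omit [TopologicalSpace Y] [TopologicalSpace V] in
/-- PROOF: `w.2 < 1` or `w.2 = 1`, and in the latter case `w.1 = q ∈ Q`. -/
theorem range_inO : range (inO Q Y V) = (range (inC Q Y V))ᶜ := by
  ext x
  constructor
  · rintro ⟨y, rfl⟩ ⟨z, hz⟩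
    have h1 : (1 : ℝ) = y.2.1.1.2 := congrArg (fun w : Y × CCone Q × V => w.2.1.1.2) hz
    exact absurd y.2.1.2.2.1 (by rw [← h1]; exact lt_irrefl _)
  · intro hx
    rcases x.2.1.2.2.1.lt_or_eq with h | h
    · exact ⟨(x.1, ⟨x.2.1.1, x.2.1.2.1, h, x.2.1.2.2.2⟩, x.2.2), rfl⟩
    · exfalso
      apply hx
      obtain ⟨q, hq, hq1⟩ := x.2.1.2.2.2
      rw [h, one_smul] at hq1
      exact ⟨(x.1, ⟨q, hq⟩, x.2.2), Prod.ext rfl (Prod.ext
        (Subtype.ext (Prod.ext hq1.symm h.symm)) rfl)⟩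

end PartPC2

section PartPC3

open scoped ENNReal Topology ZeroAtInfty
open Filter Topology Set

variable {Γ E : Type} [Group Γ] [AddCommGroup E] [Module ℝ E] [TopologicalSpace E]
  [DistribMulAction Γ E]

variable (Q : ConvexSpace Γ E)

variable {Y V : Type} [TopologicalSpace Y] [TopologicalSpace V]

private lemma PC3_proper [ContinuousSMul ℝ E] [T2Space E] [T2Space Y] [LocallyCompactSpace Y]
    [T2Space V] [LocallyCompactSpace V] :
    IsProperMap (fun x : Y × CCone Q × V => (x.1, x.2.2)) := by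
  rw [isProperMap_iff_isCompact_preimage]
  have hc : Continuous (fun x : Y × CCone Q × V => (x.1, x.2.2)) :=
    continuous_fst.prodMk (continuous_snd.comp continuous_snd)
  refine ⟨hc, fun K hK => ?_⟩
  have hbig : IsCompact ((Prod.fst '' K) ×ˢ (univ : Set (CCone Q)) ×ˢ (Prod.snd '' K)) :=
    (hK.image continuous_fst).prod (isCompact_univ.prod (hK.image continuous_snd))
  refine hbig.of_isClosed_subset (hK.isClosed.preimage hc) ?_
  rintro ⟨y, w, v⟩ hx
  exact ⟨⟨_, hx, rfl⟩, trivial, ⟨_, hx, rfl⟩⟩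

private lemma PC3_proper_h [ContinuousSMul ℝ E] [T2Space E] [T2Space Y] [LocallyCompactSpace Y]
    [T2Space V] [LocallyCompactSpace V] :
    IsProperMap (fun x : (Y × CCone Q × V) × Icc (0 : ℝ) 1 =>
      (x.1.1, CCone.scale Q x.1.2.1 x.2, x.1.2.2)) := by
  rw [isProperMap_iff_isCompact_preimage]
  have hc : Continuous (fun x : (Y × CCone Q × V) × Icc (0 : ℝ) 1 =>
      (x.1.1, CCone.scale Q x.1.2.1 x.2, x.1.2.2)) := by
    refine (continuous_fst.comp continuous_fst).prodMk (Continuous.prodMk ?_ ?_)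
    · exact (CCone.continuous_scale Q).comp
        ((continuous_fst.comp (continuous_snd.comp continuous_fst)).prodMk continuous_snd)
    · exact continuous_snd.comp (continuous_snd.comp continuous_fst)
  refine ⟨hc, fun K hK => ?_⟩
  have hbig : IsCompact (((Prod.fst '' K) ×ˢ (univ : Set (CCone Q)) ×ˢ
      ((fun x : Y × CCone Q × V => x.2.2) '' K)) ×ˢ (univ : Set (Icc (0 : ℝ) 1))) :=
    ((hK.image continuous_fst).prod (isCompact_univ.prod
      (hK.image (continuous_snd.comp continuous_snd)))).prod isCompact_univ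
  refine hbig.of_isClosed_subset (hK.isClosed.preimage hc) ?_
  rintro ⟨⟨y, w, v⟩, t⟩ hx
  exact ⟨⟨⟨_, hx, rfl⟩, trivial, ⟨_, hx, rfl⟩⟩, trivial⟩

/-- The projection `Y × CCone Q × V → Y × V` is a homotopy equivalence. PROOF: `IsoU.of_retract` with
`s (y, v) = (y, apex, v)` (a closed embedding) and `h((y, w, v), t) = (y, scale w t, v)`: it is
continuous, and the preimage of a compact set `K` is closed and contained in
`{((y, w, v), t) | y ∈ K_Y, v ∈ K_V}` with the (compact) projections `K_Y`, `K_V` of `K`, and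
`K_Y × CCone Q × K_V × [0,1]` is compact (`isProperMap_iff_isCompact_preimage`; the target is
Hausdorff and locally compact). `scale_zero`, `scale_one`, `smul_scale`, `smul_apex`. The projection is
proper, as `CCone Q` is compact (similar, or `isProperMap_fst_of_compactSpace`-type lemmas). -/
theorem isoU_ccone [SMulCommClass Γ ℝ E] [T2Space E] [ContinuousSMul ℝ E]
    [ContinuousConstSMul Γ E] [T2Space Y] [LocallyCompactSpace Y] [T2Space V]
    [LocallyCompactSpace V] [MulAction Γ Y] [MulAction Γ V] :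
    IsoU Γ (fun x : Y × CCone Q × V => (x.1, x.2.2)) := by
  refine IsoU.of_retract (s := fun y : Y × V => (y.1, CCone.apex Q, y.2)) (PC3_proper Q)
    (fun g z => rfl) ?_ ?_ (fun y => rfl) (PC3_proper_h Q) ?_ ?_ ?_
  · apply IsClosedEmbedding.isProperMap
    have hl : Function.LeftInverse (fun x : Y × CCone Q × V => (x.1, x.2.2))
        (fun y : Y × V => (y.1, CCone.apex Q, y.2)) := fun y => rfl
    exact hl.isClosedEmbedding (continuous_fst.prodMk (continuous_snd.comp continuous_snd))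
      (continuous_fst.prodMk (continuous_const.prodMk continuous_snd))
  · rintro g ⟨y, v⟩
    change (g • y, CCone.apex Q, g • v) = (g • y, g • CCone.apex Q, g • v)
    rw [CCone.smul_apex]
  · rintro g ⟨y, w, v⟩ t
    change (g • y, CCone.scale Q (g • w) t, g • v) = (g • y, g • CCone.scale Q w t, g • v)
    rw [CCone.smul_scale]
  · rintro ⟨y, w, v⟩
    change (y, CCone.scale Q w 0, v) = (y, CCone.apex Q, v)
    rw [CCone.scale_zero]
  · rintro ⟨y, w, v⟩
    change (y, CCone.scale Q w 1, v) = (y, w, v)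
    rw [CCone.scale_one]

end PartPC3

section PartPD1

open scoped ENNReal Topology ZeroAtInfty
open Filter Topology Set

variable {Γ E : Type} [Group Γ] [AddCommGroup E] [Module ℝ E] [TopologicalSpace E]
  [DistribMulAction Γ E] [SMulCommClass Γ ℝ E] [T2Space E] [ContinuousAdd E] [ContinuousSMul ℝ E]
  [ContinuousConstSMul Γ E]

/-- The projection `Y × Q × V → Y × V`. -/
def prQ (Q : ConvexSpace Γ E) (Y V : Type) : Y × Q.Pt × V → Y × V := fun x => (x.1, x.2.2)

variable (Q : ConvexSpace Γ E) {Y V : Type} [TopologicalSpace Y] [T2Space Y]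
  [LocallyCompactSpace Y] [MulAction Γ Y] [ContinuousConstSMul Γ Y] [TopologicalSpace V]
  [T2Space V] [LocallyCompactSpace V] [MulAction Γ V] [ContinuousConstSMul Γ V]

private lemma PD1_proper {A : Type} [TopologicalSpace A] [CompactSpace A] :
    IsProperMap (fun x : Y × A × V => (x.1, x.2.2)) := by
  rw [isProperMap_iff_isCompact_preimage]
  have hc : Continuous (fun x : Y × A × V => (x.1, x.2.2)) :=
    continuous_fst.prodMk (continuous_snd.comp continuous_snd)
  refine ⟨hc, fun K hK => ?_⟩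
  have hbig : IsCompact ((Prod.fst '' K) ×ˢ (univ : Set A) ×ˢ (Prod.snd '' K)) :=
    (hK.image continuous_fst).prod (isCompact_univ.prod (hK.image continuous_snd))
  refine hbig.of_isClosed_subset (hK.isClosed.preimage hc) ?_
  rintro ⟨y, w, v⟩ hx
  exact ⟨⟨_, hx, rfl⟩, trivial, ⟨_, hx, rfl⟩⟩

private def PD1_e (Y A V : Type) [TopologicalSpace Y] [TopologicalSpace A] [TopologicalSpace V] :
    (Y × A × V) × OO ≃ₜ Y × A × (V × OO) :=
  (Homeomorph.prodAssoc Y (A × V) OO).trans
    ((Homeomorph.refl Y).prodCongr (Homeomorph.prodAssoc A V OO))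

/-- PROOF: `Q.Pt` is compact; continuous, and the preimage of a compact `K` is closed in the compact
set `K_Y × Q × K_V` (or a composition of the homeomorphism `Y × Q × V ≃ (Y × V) × Q` with
`Prod.fst`, which is proper for a compact second factor). -/
theorem isProperMap_prQ : IsProperMap (prQ Q Y V) := by
  have : CompactSpace Q.Pt := isCompact_iff_compactSpace.mp Q.compact
  exact PD1_proper

omit [SMulCommClass Γ ℝ E] [T2Space E] [ContinuousAdd E] [ContinuousSMul ℝ E]
  [ContinuousConstSMul Γ E] [TopologicalSpace Y] [T2Space Y] [LocallyCompactSpace Y]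
  [ContinuousConstSMul Γ Y] [TopologicalSpace V] [T2Space V] [LocallyCompactSpace V]
  [ContinuousConstSMul Γ V] in
/-- PROOF: `rfl`. -/
theorem prQ_smul (g : Γ) (x : Y × Q.Pt × V) : prQ Q Y V (g • x) = g • prQ Q Y V x := rfl

/-- PROOF: `K1_pull_bijective_step` for `P = Y × CCone Q × V`, `C = Y × Q × V`, `c = inC`,
`O = Y × Cone Q × V`, `o = inO` (`h1` transported along `(Y × Cone Q × V) × OO ≃ Y × Cone Q × (V × OO)`,
`GL1_le_E1_of_homeomorph`) gives (`isoU_iff`) `IsoU (Prod.map (inC Q Y V) (id : OO → OO))`; conjugating by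
the homeomorphisms `(Y × A × V) × OO ≃ Y × A × (V × OO)` (`IsoU.of_homeomorph`, `IsoU.comp`,
`IsoU.of_comp`) `IsoU (inC Q Y (V × OO))`. Compose with `isoU_ccone`:
`prQ Q Y (V × OO) = (fun x => (x.1, x.2.2)) ∘ inC Q Y (V × OO)`. -/
theorem isoU_prQ_of_le (hA : PropA Γ)
    (h0 : GL1 (cp Γ (Y × Cone Q × V)) ≤ E1 (cp Γ (Y × Cone Q × V)))
    (h1 : GL1 (cp Γ (Y × Cone Q × (V × OO))) ≤ E1 (cp Γ (Y × Cone Q × (V × OO)))) :
    IsoU Γ (prQ Q Y (V × OO)) := by
  have hc := isClosedEmbedding_inC Q (Y := Y) (V := V)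
  have ho := isOpenEmbedding_inO Q (Y := Y) (V := V)
  have hec : ∀ (g : Γ) x, inC Q Y V (g • x) = g • inC Q Y V x := fun g x => rfl
  have heo : ∀ (g : Γ) x, inO Q Y V (g • x) = g • inO Q Y V x := fun g x => rfl
  have hes : ∀ (g : Γ) x, (PD1_e Y (Cone Q) V).symm (g • x) = g • (PD1_e Y (Cone Q) V).symm x :=
    fun g x => rfl
  have h1' : GL1 (cp Γ ((Y × Cone Q × V) × OO)) ≤ E1 (cp Γ ((Y × Cone Q × V) × OO)) :=
    GL1_le_E1_of_homeomorph (PD1_e Y (Cone Q) V).symm hes h1
  have hp : IsProperMap (Prod.map (inC Q Y V) (id : OO → OO)) :=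
    (hc.prodMap IsClosedEmbedding.id).isProperMap
  have he : ∀ (g : Γ) z, Prod.map (inC Q Y V) (id : OO → OO) (g • z) =
      g • Prod.map (inC Q Y V) (id : OO → OO) z := fun g z => rfl
  have hI1 : IsoU Γ (Prod.map (inC Q Y V) (id : OO → OO)) :=
    (isoU_iff hp he).2 (K1_pull_bijective_step hA hc hec ho heo (range_inO Q) h0 h1' hp he)
  have hI2 : IsoU Γ (inC Q Y (V × OO)) := by
    have hc2 := isClosedEmbedding_inC Q (Y := Y) (V := V × OO)
    have hI3 : IsoU Γ ((PD1_e Y (CCone Q) V) ∘ Prod.map (inC Q Y V) (id : OO → OO)) :=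
      IsoU.comp (PD1_e Y (CCone Q) V).isProperMap (fun g x => rfl) hp he
        (IsoU.of_homeomorph (PD1_e Y (CCone Q) V) (fun g x => rfl)) hI1
    have hI4 : IsoU Γ (inC Q Y (V × OO) ∘ (PD1_e Y Q.Pt V)) := hI3
    exact IsoU.of_comp hc2.isProperMap (fun g x => rfl) (PD1_e Y Q.Pt V).isProperMap
      (fun g x => rfl) hI4 (IsoU.of_homeomorph (PD1_e Y Q.Pt V) (fun g x => rfl))
  have hI5 : IsoU Γ ((fun x : Y × CCone Q × (V × OO) => (x.1, x.2.2)) ∘ inC Q Y (V × OO)) :=
    IsoU.comp PD1_proper (fun g x => rfl) (isClosedEmbedding_inC Q).isProperMap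
      (fun g x => rfl) (isoU_ccone Q) hI2
  exact hI5

end PartPD1

section PartPD2

open scoped ENNReal Topology ZeroAtInfty
open Filter Topology Set

variable {Γ E : Type} [Group Γ] [AddCommGroup E] [Module ℝ E] [TopologicalSpace E]
  [DistribMulAction Γ E] [SMulCommClass Γ ℝ E] [T2Space E] [ContinuousAdd E] [ContinuousSMul ℝ E]
  [ContinuousConstSMul Γ E]

variable (Q : ConvexSpace Γ E) {Y V : Type} [TopologicalSpace Y] [T2Space Y]
  [LocallyCompactSpace Y] [MulAction Γ Y] [ContinuousConstSMul Γ Y] [TopologicalSpace V]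
  [T2Space V] [LocallyCompactSpace V] [MulAction Γ V] [ContinuousConstSMul Γ V]

omit [SMulCommClass Γ ℝ E] [ContinuousAdd E] [ContinuousConstSMul Γ E] [T2Space Y]
  [LocallyCompactSpace Y] [MulAction Γ Y] [ContinuousConstSMul Γ Y]
  [T2Space V] [LocallyCompactSpace V] [MulAction Γ V] [ContinuousConstSMul Γ V] in
private theorem PD2_proper : IsProperMap (fun x : Y × CCone Q × V => (x.1, x.2.2)) := by
  have h1 : IsProperMap (Prod.fst : (Y × V) × CCone Q → Y × V) := isProperMap_fst_of_compactSpace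
  let e : (Y × CCone Q × V) ≃ₜ ((Y × V) × CCone Q) :=
    { toFun := fun x => ((x.1, x.2.2), x.2.1)
      invFun := fun x => (x.1.1, x.2, x.1.2)
      left_inv := fun x => rfl
      right_inv := fun x => rfl
      continuous_toFun := by fun_prop
      continuous_invFun := by fun_prop }
  exact h1.comp e.isProperMap

private theorem PD2_isoU (h0 : IsoU Γ (prQ Q Y V)) : IsoU Γ (inC Q Y V) := by
  have h1 : IsoU Γ ((fun x : Y × CCone Q × V => (x.1, x.2.2)) ∘ inC Q Y V) := h0
  exact IsoU.of_comp_left (PD2_proper Q) (fun g x => rfl) (isClosedEmbedding_inC Q).isProperMap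
    (fun g x => rfl) h1 (isoU_ccone Q)

private theorem PD2_isoU_prod (h1 : IsoU Γ (prQ Q Y (V × OO))) :
    IsoU Γ (Prod.map (inC Q Y V) (id : OO → OO)) := by
  have h2 : IsoU Γ (inC Q Y (V × OO)) := PD2_isoU Q h1
  let e1 : (Y × Q.Pt × V) × OO ≃ₜ Y × Q.Pt × (V × OO) :=
    (Homeomorph.prodAssoc Y (Q.Pt × V) OO).trans
      ((Homeomorph.refl Y).prodCongr (Homeomorph.prodAssoc Q.Pt V OO))
  let e2 : (Y × CCone Q × V) × OO ≃ₜ Y × CCone Q × (V × OO) :=
    (Homeomorph.prodAssoc Y (CCone Q × V) OO).trans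
      ((Homeomorph.refl Y).prodCongr (Homeomorph.prodAssoc (CCone Q) V OO))
  have he1 : ∀ (g : Γ) z, e1 (g • z) = g • e1 z := fun g z => rfl
  have he2 : ∀ (g : Γ) z, e2 (g • z) = g • e2 z := fun g z => rfl
  have h3 : IsoU Γ (inC Q Y (V × OO) ∘ e1) :=
    IsoU.comp (isClosedEmbedding_inC Q).isProperMap (fun g x => rfl) e1.isProperMap he1 h2
      (IsoU.of_homeomorph e1 he1)
  have h4 : IsoU Γ ((e2 : (Y × CCone Q × V) × OO → Y × CCone Q × (V × OO)) ∘
      Prod.map (inC Q Y V) (id : OO → OO)) := h3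
  exact IsoU.of_comp_left e2.isProperMap he2
    ((isClosedEmbedding_inC Q).isProperMap.prodMap isProperMap_id) (fun g x => rfl) h4
    (IsoU.of_homeomorph e2 he2)

/-- PROOF: `GL1_le_E1_of_surj` for the same data. `hinj`: `IsoU (inC Q Y V)` by `IsoU.of_comp_left`
(`prQ Q Y V = pr ∘ inC Q Y V`, `isoU_ccone`). `hsurj`: in the same way `IsoU (inC Q Y (V × OO))`,
conjugate to `IsoU (Prod.map (inC Q Y V) (id : OO → OO))`. -/
theorem le_of_isoU_prQ (hA : PropA Γ) (h0 : IsoU Γ (prQ Q Y V))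
    (h1 : IsoU Γ (prQ Q Y (V × OO))) :
    GL1 (cp Γ (Y × Cone Q × V)) ≤ E1 (cp Γ (Y × Cone Q × V)) :=
  GL1_le_E1_of_surj (c := inC Q Y V) (o := inO Q Y V) hA (isClosedEmbedding_inC Q)
    (fun g x => rfl) (isOpenEmbedding_inO Q) (fun g x => rfl) (range_inO Q)
    (PD2_isoU Q h0).1 (PD2_isoU_prod Q h1).2

end PartPD2

section PartPD3

open scoped ENNReal Topology ZeroAtInfty
open Filter Topology Set

variable {Γ E : Type} [Group Γ] [AddCommGroup E] [Module ℝ E] [TopologicalSpace E]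
  [DistribMulAction Γ E] [SMulCommClass Γ ℝ E] [T2Space E] [ContinuousAdd E] [ContinuousSMul ℝ E]
  [ContinuousConstSMul Γ E]

variable (Q : ConvexSpace Γ E) {Y V : Type} [TopologicalSpace Y] [T2Space Y]
  [LocallyCompactSpace Y] [MulAction Γ Y] [ContinuousConstSMul Γ Y] [TopologicalSpace V]
  [T2Space V] [LocallyCompactSpace V] [MulAction Γ V] [ContinuousConstSMul Γ V]

private theorem PD3_one {V' : Type} [TopologicalSpace V'] [T2Space V'] [LocallyCompactSpace V']
    [MulAction Γ V'] [ContinuousConstSMul Γ V'] (e : V ≃ₜ V')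
    (he : ∀ (g : Γ) v, e (g • v) = g • e v) (h : IsoU Γ (prQ Q Y V)) : IsoU Γ (prQ Q Y V') := by
  let E1 : Y × Q.Pt × V ≃ₜ Y × Q.Pt × V' :=
    (Homeomorph.refl Y).prodCongr ((Homeomorph.refl Q.Pt).prodCongr e)
  let F1 : Y × V ≃ₜ Y × V' := (Homeomorph.refl Y).prodCongr e
  have hE : ∀ (g : Γ) z, E1 (g • z) = g • E1 z := by
    rintro g ⟨y, q, v⟩
    exact Prod.ext rfl (Prod.ext rfl (he g v))
  have hF : ∀ (g : Γ) z, F1 (g • z) = g • F1 z := by
    rintro g ⟨y, v⟩
    exact Prod.ext rfl (he g v)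
  have h1 : IsoU Γ ((F1 : Y × V → Y × V') ∘ prQ Q Y V) :=
    IsoU.comp F1.isProperMap hF (isProperMap_prQ Q) (prQ_smul Q) (IsoU.of_homeomorph F1 hF) h
  have h2 : (F1 : Y × V → Y × V') ∘ prQ Q Y V = prQ Q Y V' ∘ E1 := rfl
  rw [h2] at h1
  exact IsoU.of_comp (isProperMap_prQ Q) (prQ_smul Q) E1.isProperMap hE h1
    (IsoU.of_homeomorph E1 hE)

/-- PROOF: conjugate by `id × id × e` and `id × e` (`IsoU.of_homeomorph`, `IsoU.comp`,
`IsoU.of_comp_left`, `IsoU.of_comp`). -/
theorem isoU_prQ_congr {V' : Type} [TopologicalSpace V'] [T2Space V'] [LocallyCompactSpace V']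
    [MulAction Γ V'] (e : V ≃ₜ V') (he : ∀ (g : Γ) v, e (g • v) = g • e v) :
    IsoU Γ (prQ Q Y V) ↔ IsoU Γ (prQ Q Y V') := by
  have he' : ∀ (g : Γ) v, e.symm (g • v) = g • e.symm v := by
    intro g v
    rw [Homeomorph.symm_apply_eq, he, Homeomorph.apply_symm_apply]
  have hc : ContinuousConstSMul Γ V' := by
    refine ⟨fun g => ?_⟩
    have h1 : (fun v : V' => g • v) = fun v => e (g • e.symm v) := by
      funext v
      rw [he, Homeomorph.apply_symm_apply]
    rw [h1]
    exact e.continuous.comp ((e.symm.continuous).const_smul g)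
  exact ⟨PD3_one Q e he, PD3_one Q e.symm he'⟩

/-- The cube `(0,1)^{j+1}` is `(0,1)^j × (0,1)`. PROOF: split off the last coordinate
(`Fin.snoc`, `Fin.init`, or `Homeomorph` for `Fin.consEquiv`/`Fin.insertNthEquiv`). -/
theorem exists_cubeHomeo (j : ℕ) : Nonempty (Cube (j + 1) ≃ₜ Cube j × OO) := by
  let A : (Fin (j + 1) → Set.Ioo (0 : ℝ) 1) ≃ₜ (Fin j → Set.Ioo (0 : ℝ) 1) × Set.Ioo (0 : ℝ) 1 :=
    { toFun := fun x => (fun i => x i.castSucc, x (Fin.last j))
      invFun := fun p => Fin.snoc (α := fun _ => Set.Ioo (0 : ℝ) 1) p.1 p.2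
      left_inv := by
        intro x
        funext i
        refine Fin.lastCases ?_ (fun i => ?_) i
        · simp
        · simp
      right_inv := by
        intro p
        refine Prod.ext ?_ ?_
        · funext i
          simp
        · simp
      continuous_toFun := by fun_prop
      continuous_invFun := by
        refine continuous_pi fun i => ?_
        refine Fin.lastCases ?_ (fun i => ?_) i
        · simp only [Fin.snoc_last]
          exact continuous_snd
        · simp only [Fin.snoc_castSucc]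
          exact (continuous_apply i).comp continuous_fst }
  exact ⟨A⟩

end PartPD3

section PartPD4

open scoped ENNReal Topology ZeroAtInfty
open Filter Topology Set

variable {Γ E : Type} [Group Γ] [AddCommGroup E] [Module ℝ E] [TopologicalSpace E]
  [DistribMulAction Γ E] [SMulCommClass Γ ℝ E] [T2Space E] [ContinuousAdd E] [ContinuousSMul ℝ E]
  [ContinuousConstSMul Γ E]

variable (Q : ConvexSpace Γ E) {Y V : Type} [TopologicalSpace Y] [T2Space Y]
  [LocallyCompactSpace Y] [MulAction Γ Y] [ContinuousConstSMul Γ Y] [TopologicalSpace V]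
  [T2Space V] [LocallyCompactSpace V] [MulAction Γ V] [ContinuousConstSMul Γ V]

/-- THE MEANING OF THE VANISHING. PROOF: `isoU_prQ_of_le`, `le_of_isoU_prQ` with `V = Cube j`, for
all large `j`, `exists_cubeHomeo` (equivariant: the actions are trivial) with `isoU_prQ_congr` and
`GL1_le_E1_of_homeomorph`; `Filter.eventually_atTop`. (If the vanishing holds for `j ≥ J` then `IsoU`
holds for `j ≥ J + 1`; if `IsoU` holds for `j ≥ J` then the vanishing holds for `j ≥ J`.) -/
theorem eventually_le_iff (hA : PropA Γ) :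
    (∀ᶠ j in atTop, GL1 (cp Γ (Y × Cone Q × Cube j)) ≤ E1 (cp Γ (Y × Cone Q × Cube j))) ↔
      ∀ᶠ j in atTop, IsoU Γ (prQ Q Y (Cube j)) := by
  have hkey : ∀ j : ℕ, ∃ e : Cube (j + 1) ≃ₜ Cube j × OO,
      ∀ (g : Γ) (v : Cube (j + 1)), e (g • v) = g • e v := by
    intro j
    obtain ⟨e⟩ := exists_cubeHomeo j
    exact ⟨e, fun g v => rfl⟩
  rw [eventually_atTop, eventually_atTop]
  constructor
  · rintro ⟨J, hJ⟩
    refine ⟨J + 1, fun j hj => ?_⟩
    obtain ⟨i, rfl⟩ : ∃ i, j = i + 1 := ⟨j - 1, by omega⟩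
    obtain ⟨e, he⟩ := hkey i
    rw [isoU_prQ_congr Q e he]
    refine isoU_prQ_of_le Q hA (hJ i (by omega)) ?_
    refine GL1_le_E1_of_homeomorph
      ((Homeomorph.refl Y).prodCongr ((Homeomorph.refl (Cone Q)).prodCongr e)) ?_
      (hJ (i + 1) (by omega))
    rintro g ⟨y, w, v⟩
    change (g • y, g • w, e (g • v)) = (g • y, g • w, g • e v)
    rw [he]
  · rintro ⟨J, hJ⟩
    refine ⟨J, fun j hj => ?_⟩
    obtain ⟨e, he⟩ := hkey j
    exact le_of_isoU_prQ Q hA (hJ j hj) ((isoU_prQ_congr Q e he).1 (hJ (j + 1) (by omega)))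

end PartPD4

end Pool.Agent.Lib.MP_aa9b81_an.Cut
end

end
end
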