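import Pool.Agent.Lib.MP_aa9b81_an.Mg.G080
import Pool.Agent.Lib.MP_aa9b81_an.TC.MisD
import Pool.Agent.Lib.MP_aa9b81_an.Mg.G077
import Pool.Agent.Lib.MP_aa9b81_an.CutM.B

section

/-!
# Subshifts of finite type with a choice in every context are spaces of maximal sets
-/

noncomputable section

set_option autoImplicit false

namespace Pool.Agent.Lib.MP_aa9b81_an.AS

open Topology Set Filter Cut

/-- The set `P` of patterns leaves a choice in every context: if a cell is empty and its neighbours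
are arbitrary, then there is a symbol `a` such that all patterns which see the cell are in `P`. -/
def Flex {V : Type} {n : ℕ} (P : Set (V → Fin n)) : Prop :=
  ∀ κ : V → V → Fin n, ∃ a, ∀ (s : V) (p : V → Fin n), p s = a → (∀ t, t ≠ s → p t = κ s t) → p ∈ P

lemma exists_of_not_flex {V : Type} [DecidableEq V] {n : ℕ} {P : Set (V → Fin n)} (h : ¬ Flex P) :
    ∃ κ : {x : V × V // x.1 ≠ x.2} → Fin n, ∀ a, ∃ s, pat κ a s ∉ P := by
  unfold Flex at h
  push Not at h
  obtain ⟨κ, hκ⟩ := h
  refine ⟨fun x => κ x.1.1 x.1.2, fun a => ?_⟩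
  obtain ⟨s, p, h1, h2, h3⟩ := hκ a
  refine ⟨s, ?_⟩
  have h4 : pat (fun x : {x : V × V // x.1 ≠ x.2} => κ x.1.1 x.1.2) a s = p := by
    funext t
    unfold pat
    by_cases h : s = t
    · rw [dif_pos h, ← h, h1]
    · rw [dif_neg h, h2 t (Ne.symm h)]
  rwa [h4]

/-- Letters: a cell and a symbol. -/
@[ext] structure Let (Γ : Type) (n : ℕ) where
  /-- the cell -/
  cell : Γ
  /-- the symbol -/
  sym : Fin n

instance (Γ : Type) [Group Γ] (n : ℕ) : MulAction Γ (Let Γ n) where
  smul g x := ⟨g * x.cell, x.sym⟩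
  one_smul x := Let.ext (one_mul x.cell) rfl
  mul_smul g h x := Let.ext (mul_assoc g h x.cell) rfl

/-- The graph of a configuration. -/
def graph {Γ : Type} {n : ℕ} (z : Γ → Fin n) : Pow (Let Γ n) := fun x => decide (z x.cell = x.sym)

lemma graph_apply {Γ : Type} {n : ℕ} (z : Γ → Fin n) (g : Γ) (a : Fin n) :
    graph z ⟨g, a⟩ = true ↔ z g = a := by
  unfold graph
  exact decide_eq_true_iff

lemma graph_injective {Γ : Type} {n : ℕ} :
    Function.Injective (graph : (Γ → Fin n) → Pow (Let Γ n)) := by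
  intro z z' h
  funext g
  have h1 := (graph_apply z g (z g)).2 rfl
  rw [h] at h1
  exact ((graph_apply z' g (z g)).1 h1).symm

lemma continuous_graph {Γ : Type} {n : ℕ} {Z : Type} [TopologicalSpace Z] {f : Z → Γ → Fin n}
    (hf : Continuous f) : Continuous fun z => graph (f z) := by
  refine continuous_pi fun x => ?_
  have h1 : Continuous fun z => f z x.cell := (continuous_apply x.cell).comp hf
  exact (continuous_of_discreteTopology (f := fun b : Fin n => decide (b = x.sym))).comp h1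

section

variable {Γ : Type} [Group Γ] {n : ℕ}

lemma finite_stabilizer_let (x : Let Γ n) : Finite (MulAction.stabilizer Γ x) := by
  have h1 : Subsingleton (MulAction.stabilizer Γ x) := by
    refine ⟨fun a b => Subtype.ext ?_⟩
    have h2 : ∀ c : MulAction.stabilizer Γ x, (c : Γ) = 1 := by
      intro c
      have h3 : (c : Γ) • x = x := c.2
      have h4 : (c : Γ) * x.cell = x.cell := congrArg Let.cell h3
      exact mul_eq_right.1 h4
    rw [h2 a, h2 b]
  exact Finite.of_subsingleton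

/-- The forbidden pairs and patterns. -/
def badSet (V : Finset Γ) (P : Set (V → Fin n)) (σ : Set (Let Γ n)) : Prop :=
  (∃ g a a', a ≠ a' ∧ σ = {⟨g, a⟩, ⟨g, a'⟩}) ∨ ∃ g, ∃ p ∉ P, σ = range fun t : V => ⟨g * t, p t⟩

/-- The forbidden sets of the subshift. -/
def forb (B : Type) [TopologicalSpace B] [MulAction Γ B] (V : Finset Γ) (hV : V.Nonempty)
    (P : Set (V → Fin n)) : Forbidden Γ B (Let Γ n) where
  rel _ σ := badSet V P σ
  smul g _ σ h := by
    rcases h with ⟨h, a, a', ha, rfl⟩ | ⟨h, p, hp, rfl⟩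
    · refine Or.inl ⟨g * h, a, a', ha, ?_⟩
      rw [image_pair]
      rfl
    · refine Or.inr ⟨g * h, p, hp, ?_⟩
      rw [← range_comp]
      congr 1
      funext t
      exact Let.ext (mul_assoc g h t).symm rfl
  clopen σ := by
    by_cases h : badSet V P σ
    · have h1 : {_b : B | badSet V P σ} = univ := eq_univ_of_forall fun _ => h
      rw [h1]
      exact isClopen_univ
    · have h1 : {_b : B | badSet V P σ} = ∅ := eq_empty_of_forall_notMem fun _ hb => h hb
      rw [h1]
      exact isClopen_empty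
  finite _ σ h := by
    rcases h with ⟨g, a, a', ha, rfl⟩ | ⟨g, p, hp, rfl⟩
    · exact (finite_singleton _).insert _
    · exact finite_range _
  nonempty _ σ h := by
    rcases h with ⟨g, a, a', ha, rfl⟩ | ⟨g, p, hp, rfl⟩
    · exact ⟨_, mem_insert _ _⟩
    · obtain ⟨t, ht⟩ := hV
      exact ⟨_, ⟨⟨t, ht⟩, rfl⟩⟩
  locallyFinite c := by
    have h1 : ({σ | c ∈ σ ∧ ∃ _b : B, badSet V P σ} : Set (Set (Let Γ n))) ⊆
        (range fun x : Fin n × Fin n => ({⟨c.cell, x.1⟩, ⟨c.cell, x.2⟩} : Set (Let Γ n))) ∪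
        range fun x : V × (V → Fin n) =>
          range fun t : V => (⟨c.cell * (x.1 : Γ)⁻¹ * t, x.2 t⟩ : Let Γ n) := by
      rintro σ ⟨hc, -, h | h⟩
      · obtain ⟨g, a, a', ha, rfl⟩ := h
        refine Or.inl ⟨(a, a'), ?_⟩
        have h2 : c.cell = g := by
          rcases hc with hc | hc
          · rw [hc]
          · rw [mem_singleton_iff.1 hc]
        dsimp only
        rw [h2]
      · obtain ⟨g, p, hp, rfl⟩ := h
        obtain ⟨s, hs⟩ := hc
        refine Or.inr ⟨(s, p), ?_⟩
        have h2 : c.cell = g * s := by rw [← hs]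
        have h3 : c.cell * (s : Γ)⁻¹ = g := by rw [h2, mul_inv_cancel_right]
        dsimp only
        rw [h3]
    exact ((finite_range _).union (finite_range _)).subset h1

variable {B : Type} [TopologicalSpace B] [MulAction Γ B] {V : Finset Γ} {hV : V.Nonempty}
  {P : Set (V → Fin n)}

lemma free_iff (b : B) (T : Pow (Let Γ n)) :
    (forb B V hV P).Free b T ↔
      (∀ g a a', T ⟨g, a⟩ = true → T ⟨g, a'⟩ = true → a = a') ∧
        ∀ g, ∀ p ∉ P, ¬ ∀ t : V, T ⟨g * t, p t⟩ = true := by
  constructor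
  · intro h
    refine ⟨fun g a a' h1 h2 => ?_, fun g p hp h1 => ?_⟩
    · by_contra hne
      obtain ⟨c, hc, h3⟩ := h _ (Or.inl ⟨g, a, a', hne, rfl⟩)
      rcases hc with hc | hc
      · rw [hc, h1] at h3
        exact absurd h3 (by decide)
      · rw [mem_singleton_iff.1 hc, h2] at h3
        exact absurd h3 (by decide)
    · obtain ⟨c, ⟨t, ht⟩, h3⟩ := h _ (Or.inr ⟨g, p, hp, rfl⟩)
      rw [← ht, h1 t] at h3
      exact absurd h3 (by decide)
  · rintro ⟨h1, h2⟩ σ (⟨g, a, a', hne, rfl⟩ | ⟨g, p, hp, rfl⟩)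
    · by_contra hc
      push Not at hc
      have h3 := hc _ (mem_insert _ _)
      have h4 := hc _ (mem_insert_of_mem _ (mem_singleton _))
      exact hne (h1 g a a' (by simpa using h3) (by simpa using h4))
    · by_contra hc
      push Not at hc
      refine h2 g p hp fun t => ?_
      have h3 := hc _ ⟨t, rfl⟩
      simpa using h3

/-- Every graph of a point of the subshift is maximal. -/
lemma graph_mem (b : B) (z : SFT Γ n V P) : (b, graph z.1) ∈ (forb B V hV P).maxSets.carrier := by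
  refine ⟨(free_iff b _).2 ⟨fun g a a' h1 h2 => ?_, fun g p hp h1 => ?_⟩, fun T hT hTz => ?_⟩
  · change graph z.1 ⟨g, a⟩ = true at h1
    change graph z.1 ⟨g, a'⟩ = true at h2
    rw [graph_apply] at h1 h2
    rw [← h1, h2]
  · refine hp ?_
    have h2 : p = fun s : V => z.1 (g * s) := by
      funext t
      exact ((graph_apply _ _ _).1 (h1 t)).symm
    rw [h2]
    exact z.2 g
  · have h1 := ((free_iff b T).1 hT).1
    funext x
    obtain ⟨g, a⟩ := x
    have h2 : T ⟨g, z.1 g⟩ = true := hTz _ ((graph_apply _ _ _).2 rfl)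
    rw [Bool.eq_iff_iff]
    refine ⟨fun h3 => (graph_apply _ _ _).2 (h1 g _ _ h2 h3), fun h3 => ?_⟩
    have h4 := (graph_apply z.1 g a).1 h3
    rwa [h4] at h2

/-- If there is a choice in every context, then every maximal set is a graph. -/
lemma exists_graph (hn : 0 < n) (hP : Flex P) {b : B}
    {T : Pow (Let Γ n)} (hT : (b, T) ∈ (forb B V hV P).maxSets.carrier) :
    ∃ z : SFT Γ n V P, graph z.1 = T := by
  classical
  obtain ⟨h1, h2⟩ := (free_iff b T).1 hT.1
  have hex : ∀ g₀, ∃ a, T ⟨g₀, a⟩ = true := by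
    intro g₀
    by_contra hno
    push Not at hno
    let κ : V → V → Fin n := fun s t =>
      if h : ∃ a, T ⟨g₀ * (s : Γ)⁻¹ * t, a⟩ = true then h.choose else ⟨0, hn⟩
    obtain ⟨a, ha⟩ := hP κ
    let T' : Pow (Let Γ n) := fun x => T x || decide (x = ⟨g₀, a⟩)
    have hT' : ∀ x, T' x = true ↔ T x = true ∨ x = ⟨g₀, a⟩ := by
      intro x
      change (T x || decide (x = ⟨g₀, a⟩)) = true ↔ _
      rw [Bool.or_eq_true, decide_eq_true_iff]
    have hfree : (forb B V hV P).Free b T' := by
      refine (free_iff b _).2 ⟨fun g c c' h3 h4 => ?_, fun g p hp h3 => ?_⟩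
      · rw [hT'] at h3 h4
        rcases h3 with h3 | h3 <;> rcases h4 with h4 | h4
        · exact h1 g c c' h3 h4
        · have h5 : g = g₀ := congrArg Let.cell h4
          subst h5
          exact absurd h3 (hno c)
        · have h5 : g = g₀ := congrArg Let.cell h3
          subst h5
          exact absurd h4 (hno c')
        · have h5 : c = a := congrArg Let.sym h3
          have h6 : c' = a := congrArg Let.sym h4
          rw [h5, h6]
      · by_cases hall : ∀ t : V, T ⟨g * t, p t⟩ = true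
        · exact h2 g p hp hall
        · push Not at hall
          obtain ⟨s, hs⟩ := hall
          have h4 := ((hT' _).1 (h3 s)).resolve_left hs
          have h5 : g * s = g₀ := congrArg Let.cell h4
          have h6 : p s = a := congrArg Let.sym h4
          refine hp (ha s p h6 fun t hts => ?_)
          have h8 : g₀ * (s : Γ)⁻¹ * t = g * t := by rw [← h5, mul_inv_cancel_right]
          have h9 : T ⟨g * t, p t⟩ = true := by
            refine ((hT' _).1 (h3 t)).resolve_right fun h10 => ?_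
            have h11 : g * t = g₀ := congrArg Let.cell h10
            rw [← h5] at h11
            exact hts (Subtype.ext (mul_left_cancel h11))
          have h12 : ∃ c, T ⟨g₀ * (s : Γ)⁻¹ * t, c⟩ = true := ⟨p t, by rw [h8]; exact h9⟩
          have h13 : κ s t = h12.choose := dif_pos h12
          rw [h13]
          have h14 : T ⟨g₀ * (s : Γ)⁻¹ * t, h12.choose⟩ = true := h12.choose_spec
          have h15 : ∀ k : Γ, k = g * t → T ⟨k, h12.choose⟩ = true →
              T ⟨g * t, h12.choose⟩ = true := by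
            intro k hk h
            rwa [hk] at h
          exact h1 _ _ _ h9 (h15 _ h8 h14)
    have h3 := hT.2 T' hfree fun c hc => (hT' c).2 (Or.inl hc)
    have h4 : T' ⟨g₀, a⟩ = true := (hT' _).2 (Or.inr rfl)
    rw [h3] at h4
    exact hno a h4
  choose z hz using hex
  refine ⟨⟨z, fun g => ?_⟩, ?_⟩
  · by_contra hp
    exact h2 g _ hp fun t => hz (g * t)
  · funext x
    obtain ⟨g, a⟩ := x
    rw [Bool.eq_iff_iff]
    constructor
    · intro h3
      have h4 := (graph_apply z g a).1 h3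
      rw [← h4]
      exact hz g
    · intro h3
      exact (graph_apply z g a).2 (h1 g _ _ (hz g) h3)

instance {V : Finset Γ} {P : Set (V → Fin n)} : T2Space (SFT Γ n V P) :=
  (SFT.isClosedEmbedding_val V P).isEmbedding.t2Space

instance {V : Finset Γ} {P : Set (V → Fin n)} : CompactSpace (SFT Γ n V P) :=
  (SFT.isClosedEmbedding_val V P).compactSpace

lemma isEmbedding_graph : IsEmbedding fun z : SFT Γ n V P => graph z.1 := by
  have h1 : Continuous fun z : SFT Γ n V P => graph z.1 := continuous_graph continuous_subtype_val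
  have h2 : Function.Injective fun z : SFT Γ n V P => graph z.1 := fun z z' h =>
    Subtype.ext (graph_injective h)
  exact (h1.isClosedEmbedding h2).isEmbedding

/-- The map to the space of maximal sets. -/
def toMax (hV : V.Nonempty) (x : B × SFT Γ n V P) : (forb B V hV P).maxSets.Pt :=
  (forb B V hV P).maxSets.pt (x.1, graph x.2.1) (graph_mem x.1 x.2)

lemma val_toMax (x : B × SFT Γ n V P) :
    (forb B V hV P).maxSets.val (toMax hV x) = (x.1, graph x.2.1) := rfl

lemma toMax_smul (g : Γ) (x : B × SFT Γ n V P) : toMax hV (g • x) = g • toMax hV x := by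
  apply (forb B V hV P).maxSets.val_injective
  refine Prod.ext rfl ?_
  rfl

lemma isEmbedding_toMax : IsEmbedding (toMax hV : B × SFT Γ n V P → _) := by
  have h1 : IsEmbedding ((forb B V hV P).maxSets.val ∘ (toMax hV : B × SFT Γ n V P → _)) :=
    IsEmbedding.id.prodMap isEmbedding_graph
  refine IsEmbedding.of_comp ?_ (forb B V hV P).maxSets.continuous_val h1
  exact Continuous.subtype_mk h1.continuous _

/-- The homeomorphism. -/
def homeoMax (B : Type) [TopologicalSpace B] [MulAction Γ B] (hV : V.Nonempty) (hn : 0 < n)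
    (hP : Flex P) : B × SFT Γ n V P ≃ₜ (forb B V hV P).maxSets.Pt :=
  isEmbedding_toMax.toHomeomorphOfSurjective fun y => by
    obtain ⟨z, hz⟩ := exists_graph (hV := hV) hn hP ((forb B V hV P).maxSets.val_mem y)
    refine ⟨(((forb B V hV P).maxSets.val y).1, z), ?_⟩
    apply (forb B V hV P).maxSets.val_injective
    rw [val_toMax]
    exact Prod.ext rfl hz

end

end Pool.Agent.Lib.MP_aa9b81_an.AS
end
end

section

/-!
# Split exact sequences

For a closed invariant subset `C` of `Y` which is a proper equivariant retract the sequence of the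
crossed products of `Y \ C`, `Y`, `C` is exact, for every group.
-/

noncomputable section

namespace Pool.Agent.Lib.MP_aa9b81_an.Cut

open scoped ENNReal Topology ZeroAtInfty
open Filter Topology Set

variable {Γ Y O C : Type} [Group Γ] [TopologicalSpace Y] [MulAction Γ Y] [T2Space Y]
  [ContinuousConstSMul Γ Y]
  [TopologicalSpace O] [MulAction Γ O] [TopologicalSpace C] [MulAction Γ C]

omit [MulAction Γ Y] [MulAction Γ O] [T2Space Y] [ContinuousConstSMul Γ Y] [Group Γ] in
/-- The restriction of a function which vanishes off the open set. -/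
theorem exists_resC {o : O → Y} (ho : IsOpenEmbedding o) (F : C₀(Y, ℂ))
    (hF : ∀ y ∉ range o, F y = 0) : ∃ f : C₀(O, ℂ), ∀ x, f x = F (o x) := by
  have hinf : Tendsto (fun x => F (o x)) (cocompact O) (𝓝 0) := by
    rw [tendsto_zero_iff_norm_tendsto_zero, Metric.tendsto_nhds]
    intro ε hε
    have h1 : ∀ᶠ y in cocompact Y, ‖F y‖ < ε := by
      have h2 := F.zero_at_infty'
      rw [tendsto_zero_iff_norm_tendsto_zero] at h2
      exact h2.eventually (gt_mem_nhds hε)
    obtain ⟨K, hKc, hKs⟩ := mem_cocompact.1 h1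
    have hK' : IsCompact (K ∩ {y | ε ≤ ‖F y‖}) :=
      hKc.inter_right (isClosed_le continuous_const F.continuous.norm)
    have hsub : K ∩ {y | ε ≤ ‖F y‖} ⊆ range o := by
      rintro y ⟨-, hy⟩
      by_contra h
      have h3 : ε ≤ ‖F y‖ := hy
      rw [hF y h, norm_zero] at h3
      exact absurd h3 (not_le.2 hε)
    refine mem_cocompact.2 ⟨o ⁻¹' (K ∩ {y | ε ≤ ‖F y‖}),
      ho.toIsInducing.isCompact_preimage' hK' hsub, fun x hx => ?_⟩
    change dist ‖F (o x)‖ 0 < ε
    rw [Real.dist_eq, sub_zero, abs_of_nonneg (norm_nonneg _)]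
    by_cases h : o x ∈ K
    · by_contra h4
      exact hx ⟨h, not_lt.1 h4⟩
    · exact hKs h
  exact ⟨⟨⟨fun x => F (o x), F.continuous.comp ho.continuous⟩, hinf⟩, fun x => rfl⟩

omit [T2Space Y] [ContinuousConstSMul Γ Y] in
/-- A generator whose function vanishes off the open set comes from the open set. -/
theorem gen_mem_ext {o : O → Y} (ho : IsOpenEmbedding o) (he : ∀ (g : Γ) x, o (g • x) = g • o x)
    (F : C₀(Y, ℂ)) (hF : ∀ y ∉ range o, F y = 0) (g : Γ) (i j : ℕ) :
    ∃ b ∈ cp Γ O, extF o b = (gen F g i j : Fam Γ Y) := by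
  have hnot : ∀ (s : Γ) (y : Y), y ∉ range o → s • y ∉ range o := by
    rintro s y hy ⟨x, hx⟩
    refine hy ⟨s⁻¹ • x, ?_⟩
    rw [he, hx, inv_smul_smul]
  obtain ⟨f, hf⟩ := exists_resC ho F hF
  refine ⟨gen f g i j, NonUnitalSubalgebra.le_topologicalClosure _
      (NonUnitalAlgebra.subset_adjoin ℂ ⟨f, g, i, j, rfl⟩), ?_⟩
  ext1 y
  by_cases hy : y ∈ range o
  · obtain ⟨x, rfl⟩ := hy
    rw [extF_apply ho.injective]
    refine ContinuousLinearMap.ext fun ξ => ?_
    ext1
    funext p
    rw [show p = (p.1, p.2) from rfl, gen_apply, gen_apply, ← he, hf]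
  · rw [extF_apply_of_notMem _ hy]
    refine ContinuousLinearMap.ext fun ξ => ?_
    ext1
    funext p
    rw [show p = (p.1, p.2) from rfl, gen_apply, hF _ (hnot _ _ hy), zero_mul, ite_self]
    rfl

omit [T2Space Y] in
/-- Split exactness. -/
theorem mem_ext_of_pull_eq_zero_split {c : C → Y} {o : O → Y} {r : Y → C}
    (hc : IsClosedEmbedding c) (hec : ∀ (g : Γ) x, c (g • x) = g • c x)
    (ho : IsOpenEmbedding o) (heo : ∀ (g : Γ) x, o (g • x) = g • o x)
    (hco : range o = (range c)ᶜ) (hr : IsProperMap r) (her : ∀ (g : Γ) y, r (g • y) = g • r y)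
    (hrc : ∀ x, r (c x) = x) {a : Fam Γ Y} (ha : a ∈ cp Γ Y) (h : pull c a = 0) :
    ∃ b ∈ cp Γ O, extF o b = a := by
  have hiso : Isometry (extF o : Fam Γ O →ₙ+* Fam Γ Y) := by
    refine Isometry.of_dist_eq fun x y => ?_
    rw [dist_eq_norm, dist_eq_norm, ← map_sub, norm_extF ho.injective]
  have hcl : IsClosed ((extF o : Fam Γ O →ₙ+* Fam Γ Y) '' (cp Γ O : Set (Fam Γ O))) :=
    hiso.isClosedEmbedding.isClosedMap _ isClosed_cp
  have hval : ∀ l : List (Dat Γ Y), ∃ b ∈ cp Γ O,
      extF o b = (val l - pull r (pull c (val l)) : Fam Γ Y) := by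
    intro l
    induction l with
    | nil =>
      refine ⟨0, zero_mem _, ?_⟩
      rw [val_nil, map_zero, map_zero, map_zero, sub_zero]
    | cons d l ih =>
      obtain ⟨b, hb, hb'⟩ := ih
      obtain ⟨b', hb1, hb2⟩ := gen_mem_ext ho heo (d.f - pullC r hr (pullC c hc.isProperMap d.f))
        (fun y hy => by
          rw [hco, mem_compl_iff, not_not] at hy
          obtain ⟨x, rfl⟩ := hy
          rw [ZeroAtInftyContinuousMap.sub_apply, pullC_apply, pullC_apply, hrc, sub_self])
        d.g d.i d.j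
      refine ⟨b' + b, add_mem hb1 hb, ?_⟩
      rw [map_add, hb2, hb', val_cons, map_add, map_add]
      have h1 : (gen (d.f - pullC r hr (pullC c hc.isProperMap d.f)) d.g d.i d.j : Fam Γ Y) =
          d.gen - pull r (pull c d.gen) := by
        have h2 : pull r (pull c d.gen) =
            (gen (pullC r hr (pullC c hc.isProperMap d.f)) d.g d.i d.j : Fam Γ Y) := by
          have h3 : pull c d.gen = (gen (pullC c hc.isProperMap d.f) d.g d.i d.j : Fam Γ C) :=
            pull_gen hc.isProperMap hec d.f d.g d.i d.j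
          rw [h3]
          exact pull_gen hr her _ d.g d.i d.j
        rw [h2]
        ext1 y
        refine ContinuousLinearMap.ext fun ξ => ?_
        ext1
        funext p
        have h4 : ((d.gen - gen (pullC r hr (pullC c hc.isProperMap d.f)) d.g d.i d.j :
            Fam Γ Y) y ξ : Γ × ℕ → ℂ) p = ((d.gen : Fam Γ Y) y ξ : Γ × ℕ → ℂ) p -
              ((gen (pullC r hr (pullC c hc.isProperMap d.f)) d.g d.i d.j : Fam Γ Y) y ξ :
                Γ × ℕ → ℂ) p := rfl
        rw [h4, show p = (p.1, p.2) from rfl, gen_apply, gen_apply]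
        change _ = (gen d.f d.g d.i d.j y ξ : Γ × ℕ → ℂ) (p.1, p.2) - _
        rw [gen_apply]
        split_ifs with h5
        · rw [ZeroAtInftyContinuousMap.sub_apply, sub_mul]
        · rw [sub_zero]
      rw [h1]
      abel
  have hmem : a ∈ closure ((extF o : Fam Γ O →ₙ+* Fam Γ Y) '' (cp Γ O : Set (Fam Γ O))) := by
    rw [Metric.mem_closure_iff]
    intro ε hε
    obtain ⟨l, -, hl⟩ := exists_val_near ha (half_pos hε)
    obtain ⟨b, hb, hb'⟩ := hval l
    refine ⟨extF o b, ⟨b, hb, rfl⟩, ?_⟩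
    rw [hb', dist_eq_norm]
    have e : a - (val l - pull r (pull c (val l))) = (a - val l) - pull r (pull c (a - val l)) := by
      rw [map_sub, map_sub, h, map_zero]
      abel
    rw [e]
    have h1 : ‖pull r (pull c (a - val l))‖ ≤ ‖a - val l‖ :=
      (pull_norm_le _ _).trans (pull_norm_le _ _)
    calc ‖(a - val l) - pull r (pull c (a - val l))‖ ≤
        ‖a - val l‖ + ‖pull r (pull c (a - val l))‖ := norm_sub_le _ _
      _ ≤ ‖a - val l‖ + ‖a - val l‖ := by gcongr
      _ < ε := by linarith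
  rw [hcl.closure_eq] at hmem
  obtain ⟨b, hb, hb'⟩ := hmem
  exact ⟨b, hb, hb'⟩

/-- The split exact sequence of a closed invariant subset. -/
theorem exactSeq_split {c : C → Y} {o : O → Y} {r : Y → C}
    (hc : IsClosedEmbedding c) (hec : ∀ (g : Γ) x, c (g • x) = g • c x)
    (ho : IsOpenEmbedding o) (heo : ∀ (g : Γ) x, o (g • x) = g • o x)
    (hco : range o = (range c)ᶜ) (hr : IsProperMap r) (her : ∀ (g : Γ) y, r (g • y) = g • r y)
    (hrc : ∀ x, r (c x) = x) :
    ExactSeq (extF o : Fam Γ O →ₙ+* Fam Γ Y) (pull c) (cp Γ O) (cp Γ Y) (cp Γ C) where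
  norm := norm_extF ho.injective
  mem := extF_mem_cp ho heo
  ker _ ha h := mem_ext_of_pull_eq_zero_split hc hec ho heo hco hr her hrc ha h
  lift :=
    { mem := pull_mem_cp hc.isProperMap hec
      lift := fun b hb => by
        refine ⟨pull r b, pull_mem_cp hr her b hb, ?_, ?_⟩
        · ext1 x
          change b (r (c x)) = b x
          rw [hrc]
        · have h1 := pull_norm_le r b
          have h2 := norm_nonneg b
          linarith }
  closed₀ := isClosed_cp
  closed := isClosed_cp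
  closed' := isClosed_cp

/-- A unit over the open set is trivial if its extension is trivial. -/
theorem mem_E1_of_ext_split {c : C → Y} {o : O → Y} {r : Y → C}
    (hc : IsClosedEmbedding c) (hec : ∀ (g : Γ) x, c (g • x) = g • c x)
    (ho : IsOpenEmbedding o) (heo : ∀ (g : Γ) x, o (g • x) = g • o x)
    (hco : range o = (range c)ᶜ) (hr : IsProperMap r) (her : ∀ (g : Γ) y, r (g • y) = g • r y)
    (hrc : ∀ x, r (c x) = x) {u : (Fam Γ O)ˣ} (hu : u ∈ GL1 (cp Γ O))
    (h : extUnit (extF o) u ∈ E1 (cp Γ Y)) : u ∈ E1 (cp Γ O) := by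
  have hex := exactSeq_split hc hec ho heo hco hr her hrc
  obtain ⟨hU, hj⟩ := (mem_E1_iff isClosed_cp _).1 h
  obtain ⟨γ⟩ : Joined (1 : GL1 (cp Γ Y)) ⟨extUnit (extF o) u, hU⟩ := hj
  let w : ℝ → (Fam Γ Y)ˣ := fun t =>
    ((γ.extend t : GL1 (cp Γ Y)) : (Fam Γ Y)ˣ) *
      (pullU r (pullU c ((γ.extend t : GL1 (cp Γ Y)) : (Fam Γ Y)ˣ)))⁻¹
  have hw : ∀ t, w t ∈ GL1 (cp Γ Y) := fun t =>
    mul_mem (γ.extend t).2 (inv_mem (BA1_mem_GL1 hr her (BA1_mem_GL1 hc.isProperMap hec
      (γ.extend t).2)))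
  have hcr : ∀ a : (Fam Γ C)ˣ, pullU c (pullU r a) = a := by
    intro a
    refine Units.ext (Fam.ext fun x => ?_)
    change (a : Fam Γ C) (r (c x)) = (a : Fam Γ C) x
    rw [hrc]
  have hw1 : ∀ t, pullU c (w t) = 1 := by
    intro t
    change pullU c (_ * _) = 1
    rw [map_mul, map_inv, hcr, mul_inv_cancel]
  have hx : ∀ t, ∃ x ∈ GL1 (cp Γ O), extUnit (extF o) x = w t := fun t =>
    hex.exists_ext (hw t) (hw1 t)
  choose x hxG hxw using hx
  have hextinj : ∀ a b : (Fam Γ O)ˣ, extUnit (extF o : Fam Γ O →ₙ+* Fam Γ Y) a =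
      extUnit (extF o) b → a = b := by
    intro a b hab
    have h1 : (1 : Fam Γ Y) + extF o ((a : Fam Γ O) - 1) = 1 + extF o ((b : Fam Γ O) - 1) :=
      congrArg (fun z : (Fam Γ Y)ˣ => (z : Fam Γ Y)) hab
    have h2 : extF o ((a : Fam Γ O) - 1) = (extF o ((b : Fam Γ O) - 1) : Fam Γ Y) :=
      add_left_cancel h1
    refine Units.ext ?_
    have h3 : ‖((a : Fam Γ O) - 1) - ((b : Fam Γ O) - 1)‖ = 0 := by
      rw [← norm_extF ho.injective, map_sub, h2, sub_self, norm_zero]
    rw [norm_eq_zero, sub_sub_sub_cancel_right, sub_eq_zero] at h3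
    exact h3
  have hx0 : x 0 = 1 := by
    apply hextinj
    rw [hxw, map_one]
    change _ * _ = _
    rw [γ.extend_zero]
    change (1 : (Fam Γ Y)ˣ) * (pullU r (pullU c 1))⁻¹ = 1
    rw [map_one, map_one, inv_one, mul_one]
  have hx1 : x 1 = u := by
    apply hextinj
    rw [hxw]
    change _ * _ = _
    rw [γ.extend_one]
    change extUnit (extF o) u * (pullU r (pullU c (extUnit (extF o) u)))⁻¹ = _
    have h1 : pullU c (extUnit (extF o) u : (Fam Γ Y)ˣ) = 1 := by
      refine Units.ext (Fam.ext fun y => ?_)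
      change (1 + extF o ((u : Fam Γ O) - 1) : Fam Γ Y) (c y) = 1
      rw [Fam.add_apply, Fam.one_apply, extF_apply_of_notMem, add_zero]
      rw [hco]
      exact fun h => h ⟨y, rfl⟩
    rw [h1, map_one, inv_one, mul_one]
  have hγc : Continuous fun t : ℝ => ((γ.extend t : GL1 (cp Γ Y)) : (Fam Γ Y)ˣ) :=
    continuous_subtype_val.comp γ.continuous_extend
  have hwc : Continuous fun t : ℝ => ((w t : (Fam Γ Y)ˣ) : Fam Γ Y) := by
    have h1 : Continuous fun t : ℝ => (((γ.extend t : GL1 (cp Γ Y)) : (Fam Γ Y)ˣ) : Fam Γ Y) :=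
      Units.continuous_val.comp hγc
    have h2 : Continuous fun t : ℝ =>
        ((((γ.extend t : GL1 (cp Γ Y)) : (Fam Γ Y)ˣ)⁻¹ : (Fam Γ Y)ˣ) : Fam Γ Y) :=
      Units.continuous_val.comp hγc.inv
    have h3 : Continuous fun t : ℝ =>
        pull r (pull c ((((γ.extend t : GL1 (cp Γ Y)) : (Fam Γ Y)ˣ)⁻¹ : (Fam Γ Y)ˣ) : Fam Γ Y)) :=
      (continuous_pull r).comp ((continuous_pull c).comp h2)
    exact h1.mul h3
  have hxc : Continuous fun t : ℝ => ((x t : (Fam Γ O)ˣ) : Fam Γ O) := by
    rw [Metric.continuous_iff] at hwc ⊢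
    intro t ε hε
    obtain ⟨δ, hδ, hδ'⟩ := hwc t ε hε
    refine ⟨δ, hδ, fun t' ht' => ?_⟩
    have h1 := hδ' t' ht'
    rw [dist_eq_norm] at h1 ⊢
    have h2 : ∀ s, ((w s : (Fam Γ Y)ˣ) : Fam Γ Y) = 1 + extF o (((x s : (Fam Γ O)ˣ) : Fam Γ O) - 1) := by
      intro s
      rw [← hxw s]
      rfl
    rw [h2, h2, add_sub_add_left_eq_sub, ← map_sub, norm_extF ho.injective,
      sub_sub_sub_cancel_right] at h1
    exact h1
  have h := E1_of_path x (fun t _ => hxG t) hxc.continuousOn
  rwa [hx0, hx1, inv_one, one_mul] at h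

omit [T2Space Y] [ContinuousConstSMul Γ Y] in
/-- `E1` is normal in `GL1`. -/
theorem E1_conj {g x : (Fam Γ Y)ˣ} (hg : g ∈ GL1 (cp Γ Y)) (hx : x ∈ E1 (cp Γ Y)) :
    g⁻¹ * x * g ∈ E1 (cp Γ Y) := by
  obtain ⟨hU, hj⟩ := (mem_E1_iff isClosed_cp _).1 hx
  obtain ⟨γ⟩ : Joined (1 : GL1 (cp Γ Y)) ⟨x, hU⟩ := hj
  let w : ℝ → (Fam Γ Y)ˣ := fun t => g⁻¹ * ((γ.extend t : GL1 (cp Γ Y)) : (Fam Γ Y)ˣ) * g
  have hw : ∀ t, w t ∈ GL1 (cp Γ Y) := fun t => mul_mem (mul_mem (inv_mem hg) (γ.extend t).2) hg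
  have hγc : Continuous fun t : ℝ => (((γ.extend t : GL1 (cp Γ Y)) : (Fam Γ Y)ˣ) : Fam Γ Y) :=
    Units.continuous_val.comp (continuous_subtype_val.comp γ.continuous_extend)
  have hwc : Continuous fun t : ℝ => ((w t : (Fam Γ Y)ˣ) : Fam Γ Y) :=
    (continuous_const.mul hγc).mul continuous_const
  have h := E1_of_path w (fun t _ => hw t) hwc.continuousOn
  have h0 : w 0 = 1 := by
    change g⁻¹ * ((γ.extend 0 : GL1 (cp Γ Y)) : (Fam Γ Y)ˣ) * g = 1
    rw [γ.extend_zero]
    change g⁻¹ * 1 * g = 1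
    rw [mul_one, inv_mul_cancel]
  have h1 : w 1 = g⁻¹ * x * g := by
    change g⁻¹ * ((γ.extend 1 : GL1 (cp Γ Y)) : (Fam Γ Y)ˣ) * g = _
    rw [γ.extend_one]
  rwa [h0, h1, inv_one, one_mul] at h

end Pool.Agent.Lib.MP_aa9b81_an.Cut
end
end
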