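import Mathlib

section

/-!
# Random sets of patterns leave a choice in every context

Every element of the finite set `E` is chosen independently with probability `α`; `wt α P` is the
probability that `P` is the set of the chosen elements. If `D a` (`a ∈ N`) are pairwise disjoint
subsets with at most `v` elements, then the probability that none of them is chosen completely is at
most `(1 - α ^ v) ^ |N|`.
-/

set_option autoImplicit false

namespace Pool.Agent.Lib.MP_aa9b81_an.AS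

open Finset

/-- The probability of the subset `P`, if every element is chosen independently with
probability `α`. -/
def wt {E : Type} [Fintype E] (α : ℝ) (P : Finset E) : ℝ :=
  α ^ P.card * (1 - α) ^ (Fintype.card E - P.card)

section

variable {E A : Type} [Fintype E] [DecidableEq E] [DecidableEq A] {α : ℝ}

omit [DecidableEq E] in
theorem wt_nonneg (h0 : 0 ≤ α) (h1 : α ≤ 1) (P : Finset E) : 0 ≤ wt α P :=
  mul_nonneg (pow_nonneg h0 _) (pow_nonneg (by linarith) _)

/-- Choosing all of `D`. -/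
theorem sum_fiber_le (h0 : 0 ≤ α) (h1 : α ≤ 1) (D Q : Finset E) (𝒜 : Finset (Finset E)) :
    ∑ P ∈ 𝒜 with P ∪ D = Q, α ^ D.card * wt α P ≤ wt α Q := by
  have e1 : ∀ P ∈ 𝒜.filter (fun P => P ∪ D = Q), α ^ D.card * wt α P =
      wt α Q * (α ^ (P ∩ D).card * (1 - α) ^ (D.card - (P ∩ D).card)) := by
    intro P hP
    rw [mem_filter] at hP
    have h2 : Q.card = D.card + (P \ D).card := by
      rw [← hP.2, ← card_sdiff_add_card P D, add_comm]
    have h3 : P.card = (P ∩ D).card + (P \ D).card := (card_inter_add_card_sdiff P D).symm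
    have h4 : (P ∩ D).card ≤ D.card := card_le_card inter_subset_right
    have h5 : Q.card ≤ Fintype.card E := card_le_univ Q
    unfold wt
    have h6 : Fintype.card E - P.card =
        (Fintype.card E - Q.card) + (D.card - (P ∩ D).card) := by omega
    rw [h6, pow_add, h2, h3, pow_add, pow_add]
    ring
  rw [sum_congr rfl e1, ← mul_sum]
  have h2 : ∑ P ∈ 𝒜.filter (fun P => P ∪ D = Q),
      α ^ (P ∩ D).card * (1 - α) ^ (D.card - (P ∩ D).card) ≤ 1 := by
    have hinj : Set.InjOn (fun P => P ∩ D) (𝒜.filter (fun P => P ∪ D = Q) : Set (Finset E)) := by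
      intro P hP P' hP' h
      rw [mem_coe, mem_filter] at hP hP'
      have h5 : P ∩ D = P' ∩ D := h
      have h6 : P ∪ D = P' ∪ D := hP.2.trans hP'.2.symm
      ext x
      have h7 := Finset.ext_iff.1 h5 x
      have h8 := Finset.ext_iff.1 h6 x
      rw [mem_inter, mem_inter] at h7
      rw [mem_union, mem_union] at h8
      tauto
    have h3 := sum_image (s := 𝒜.filter (fun P => P ∪ D = Q)) (g := fun P => P ∩ D)
      (f := fun S => α ^ S.card * (1 - α) ^ (D.card - S.card)) hinj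
    rw [← h3]
    refine (sum_le_sum_of_subset_of_nonneg (t := D.powerset) ?_ ?_).trans ?_
    · intro S hS
      obtain ⟨P, -, rfl⟩ := mem_image.1 hS
      exact mem_powerset.2 inter_subset_right
    · intro S _ _
      exact mul_nonneg (pow_nonneg h0 _) (pow_nonneg (by linarith) _)
    · rw [sum_pow_mul_eq_add_pow, add_sub_cancel, one_pow]
  exact mul_le_of_le_one_right (wt_nonneg h0 h1 Q) h2

/-- Subsets which contain none of the disjoint sets `D a`. -/
theorem sum_avoid (h0 : 0 ≤ α) (h1 : α ≤ 1) (N : Finset A) (D : A → Finset E) (v : ℕ)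
    (hv : ∀ a ∈ N, (D a).card ≤ v) (hd : ∀ a ∈ N, ∀ b ∈ N, a ≠ b → Disjoint (D a) (D b)) :
    ∑ P : Finset E with ∀ a ∈ N, ¬ D a ⊆ P, wt α P ≤ (1 - α ^ v) ^ N.card := by
  classical
  induction N using Finset.induction_on with
  | empty =>
    rw [Finset.card_empty, pow_zero]
    refine (sum_le_sum_of_subset_of_nonneg (t := univ) (filter_subset _ _)
      fun P _ _ => wt_nonneg h0 h1 P).trans ?_
    unfold wt
    rw [Fintype.sum_pow_mul_eq_add_pow, add_sub_cancel, one_pow]
  | insert a N ha ih =>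
    have ih' := ih (fun b hb => hv b (mem_insert_of_mem hb))
      (fun b hb c hc => hd b (mem_insert_of_mem hb) c (mem_insert_of_mem hc))
    set 𝒜 := (univ : Finset (Finset E)).filter fun P => ∀ a ∈ N, ¬ D a ⊆ P with h𝒜
    have e1 : ((univ : Finset (Finset E)).filter fun P => ∀ b ∈ insert a N, ¬ D b ⊆ P) =
        𝒜.filter fun P => ¬ D a ⊆ P := by
      ext P
      simp only [h𝒜, mem_filter, mem_univ, true_and, mem_insert, forall_eq_or_imp]
      tauto
    have e2 : α ^ (D a).card * ∑ P ∈ 𝒜, wt α P ≤ ∑ P ∈ 𝒜 with D a ⊆ P, wt α P := by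
      have hmaps : ∀ P ∈ 𝒜, P ∪ D a ∈ 𝒜.filter (fun P => D a ⊆ P) := by
        intro P hP
        rw [mem_filter, h𝒜, mem_filter]
        refine ⟨⟨mem_univ _, fun b hb hc => ?_⟩, subset_union_right⟩
        rw [h𝒜, mem_filter] at hP
        refine hP.2 b hb fun x hx => ?_
        have h10 := hc hx
        rw [mem_union] at h10
        rcases h10 with h10 | h10
        · exact h10
        · have h11 : a ≠ b := by
            rintro rfl
            exact ha hb
          exact absurd h10 (Finset.disjoint_right.1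
            (hd a (mem_insert_self a N) b (mem_insert_of_mem hb) h11) hx)
      rw [mul_sum, ← sum_fiberwise_of_maps_to hmaps]
      exact sum_le_sum fun Q _ => sum_fiber_le h0 h1 (D a) Q 𝒜
    have e3 : ∑ P ∈ 𝒜 with ¬ D a ⊆ P, wt α P =
        ∑ P ∈ 𝒜, wt α P - ∑ P ∈ 𝒜 with D a ⊆ P, wt α P := by
      rw [← sum_filter_add_sum_filter_not 𝒜 (fun P => D a ⊆ P)]
      ring
    have e4 : 0 ≤ ∑ P ∈ 𝒜, wt α P := sum_nonneg fun P _ => wt_nonneg h0 h1 P
    have e5 : α ^ v ≤ α ^ (D a).card :=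
      pow_le_pow_of_le_one h0 h1 (hv a (mem_insert_self a N))
    have e6 : 0 ≤ 1 - α ^ v := by
      have := pow_le_one₀ (n := v) h0 h1
      linarith
    rw [e1, card_insert_of_notMem ha, pow_succ, e3]
    have e7 : ∑ P ∈ 𝒜, wt α P - ∑ P ∈ 𝒜 with D a ⊆ P, wt α P ≤
        (∑ P ∈ 𝒜, wt α P) * (1 - α ^ v) := by
      have e8 := mul_le_mul_of_nonneg_right e5 e4
      linarith
    exact e7.trans (mul_le_mul_of_nonneg_right ih' e6)

end

section

variable {V : Type} {n : ℕ}

/-- The pattern with the symbol `a` at `s` and the symbols of the context elsewhere. -/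
def pat [DecidableEq V] (κ : {x : V × V // x.1 ≠ x.2} → Fin n) (a : Fin n) (s : V) : V → Fin n :=
  fun t => if h : s = t then a else κ ⟨(s, t), h⟩

variable [Fintype V] [DecidableEq V] {α : ℝ}

omit [Fintype V] in
theorem pat_ne {κ : {x : V × V // x.1 ≠ x.2} → Fin n} {a b : Fin n} (ha : a ∉ Set.range κ)
    (hab : a ≠ b) (s t : V) : pat κ a s ≠ pat κ b t := by
  intro h
  have h1 := congrFun h s
  unfold pat at h1
  rw [dif_pos rfl] at h1
  by_cases h2 : t = s
  · rw [dif_pos h2] at h1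
    exact hab h1
  · rw [dif_neg h2] at h1
    exact ha ⟨_, h1.symm⟩

theorem card_pairs : Fintype.card {x : V × V // x.1 ≠ x.2} =
    Fintype.card V * (Fintype.card V - 1) := by
  have h1 : Fintype.card {x : V × V // x.1 ≠ x.2} = (univ : Finset V).offDiag.card := by
    rw [Fintype.card_subtype]
    congr 1
    ext x
    simp [mem_offDiag]
  rw [h1, offDiag_card, card_univ, Nat.mul_sub_one]

/-- The probability that there is no choice in the context `κ`. -/
theorem sum_context (h0 : 0 ≤ α) (h1 : α ≤ 1) (κ : {x : V × V // x.1 ≠ x.2} → Fin n) :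
    ∑ P : Finset (V → Fin n) with ∀ a, ∃ s, pat κ a s ∉ P, wt α P ≤
      (1 - α ^ Fintype.card V) ^ (n - Fintype.card V * (Fintype.card V - 1)) := by
  classical
  set N : Finset (Fin n) := univ.filter fun a => a ∉ Set.range κ with hN
  set D : Fin n → Finset (V → Fin n) := fun a => univ.image (pat κ a) with hD
  have e1 := sum_avoid h0 h1 N D (Fintype.card V)
    (fun a _ => (Finset.card_image_le).trans (by rw [Finset.card_univ]))
    (fun a ha b _ hab => by
      rw [Finset.disjoint_left]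
      intro x hx hy
      rw [hD, mem_image] at hx hy
      obtain ⟨s, -, rfl⟩ := hx
      obtain ⟨t, -, h⟩ := hy
      rw [hN, mem_filter] at ha
      exact pat_ne ha.2 hab s t h.symm)
  have e2 : ((univ : Finset (Finset (V → Fin n))).filter
      fun P => ∀ a, ∃ s, pat κ a s ∉ P) ⊆
      (univ : Finset (Finset (V → Fin n))).filter fun P => ∀ a ∈ N, ¬ D a ⊆ P := by
    intro P hP
    rw [mem_filter] at hP ⊢
    refine ⟨mem_univ _, fun a _ hc => ?_⟩
    obtain ⟨s, hs⟩ := hP.2 a
    exact hs (hc (mem_image_of_mem _ (mem_univ s)))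
  have e3 : n - Fintype.card V * (Fintype.card V - 1) ≤ N.card := by
    have h4 : N.card + (univ.filter fun a : Fin n => a ∈ Set.range κ).card = n := by
      rw [add_comm]
      have := Finset.card_filter_add_card_filter_not (s := (univ : Finset (Fin n)))
        (fun a => a ∈ Set.range κ)
      rw [Finset.card_univ, Fintype.card_fin] at this
      exact this
    have h5 : (univ.filter fun a : Fin n => a ∈ Set.range κ).card ≤
        Fintype.card V * (Fintype.card V - 1) := by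
      have h6 : (univ.filter fun a : Fin n => a ∈ Set.range κ) ⊆ univ.image κ := by
        intro a ha
        rw [mem_filter] at ha
        obtain ⟨x, hx⟩ := ha.2
        exact mem_image.2 ⟨x, mem_univ _, hx⟩
      refine (Finset.card_le_card h6).trans (Finset.card_image_le.trans ?_)
      rw [Finset.card_univ, card_pairs]
    omega
  have e4 : (0 : ℝ) ≤ 1 - α ^ Fintype.card V := by
    have := pow_le_one₀ (n := Fintype.card V) h0 h1
    linarith
  have e5 : 1 - α ^ Fintype.card V ≤ 1 := by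
    have : (0 : ℝ) ≤ α ^ Fintype.card V := pow_nonneg h0 _
    linarith
  calc ∑ P : Finset (V → Fin n) with ∀ a, ∃ s, pat κ a s ∉ P, wt α P
      ≤ ∑ P : Finset (V → Fin n) with ∀ a ∈ N, ¬ D a ⊆ P, wt α P :=
        sum_le_sum_of_subset_of_nonneg e2 fun P _ _ => wt_nonneg h0 h1 P
    _ ≤ (1 - α ^ Fintype.card V) ^ N.card := by
        convert e1
    _ ≤ _ := pow_le_pow_of_le_one e4 e5 e3

/-- The probability that there is no choice in some context. -/
theorem sum_bad (h0 : 0 ≤ α) (h1 : α ≤ 1) (B : Finset (Finset (V → Fin n)))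
    (hB : ∀ P ∈ B, ∃ κ : {x : V × V // x.1 ≠ x.2} → Fin n, ∀ a, ∃ s, pat κ a s ∉ P) :
    ∑ P ∈ B, wt α P ≤ n ^ (Fintype.card V * (Fintype.card V - 1)) *
      (1 - α ^ Fintype.card V) ^ (n - Fintype.card V * (Fintype.card V - 1)) := by
  classical
  set G : ({x : V × V // x.1 ≠ x.2} → Fin n) → Finset (Finset (V → Fin n)) := fun κ =>
    (univ : Finset (Finset (V → Fin n))).filter fun P => ∀ a, ∃ s, pat κ a s ∉ P with hG
  have e2 : ∑ P ∈ B, wt α P ≤
      ∑ P ∈ B, ∑ κ : {x : V × V // x.1 ≠ x.2} → Fin n, if P ∈ G κ then wt α P else 0 := by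
    refine sum_le_sum fun P hP => ?_
    obtain ⟨κ, hκ⟩ := hB P hP
    have h2 : P ∈ G κ := by
      rw [hG, mem_filter]
      exact ⟨mem_univ _, hκ⟩
    have h3 := single_le_sum (f := fun κ => if P ∈ G κ then wt α P else 0)
      (fun κ _ => by
        split_ifs
        · exact wt_nonneg h0 h1 P
        · exact le_rfl) (mem_univ κ)
    rwa [if_pos h2] at h3
  have e3 : ∑ P ∈ B, ∑ κ : {x : V × V // x.1 ≠ x.2} → Fin n, (if P ∈ G κ then wt α P else 0) ≤
      ∑ κ : {x : V × V // x.1 ≠ x.2} → Fin n, ∑ P ∈ G κ, wt α P := by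
    rw [sum_comm]
    refine sum_le_sum fun κ _ => ?_
    rw [← sum_filter]
    refine sum_le_sum_of_subset_of_nonneg ?_ fun P _ _ => wt_nonneg h0 h1 P
    intro P hP
    exact (mem_filter.1 hP).2
  have e4 : ∑ κ : {x : V × V // x.1 ≠ x.2} → Fin n, ∑ P ∈ G κ, wt α P ≤
      ∑ _κ : {x : V × V // x.1 ≠ x.2} → Fin n,
        (1 - α ^ Fintype.card V) ^ (n - Fintype.card V * (Fintype.card V - 1)) :=
    Finset.sum_le_sum fun κ _ => sum_context h0 h1 κ
  refine e2.trans (e3.trans (e4.trans (le_of_eq ?_)))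
  rw [Finset.sum_const, Finset.card_univ, Fintype.card_fun, card_pairs, Fintype.card_fin,
    nsmul_eq_mul]
  push_cast
  ring

omit [DecidableEq V] in
/-- The probability that no constant pattern is chosen. -/
theorem sum_noconst [DecidableEq V] [Nonempty V] (h0 : 0 ≤ α) (h1 : α ≤ 1)
    (B : Finset (Finset (V → Fin n))) (hB : ∀ P ∈ B, ∀ a : Fin n, (fun _ => a) ∉ P) :
    ∑ P ∈ B, wt α P ≤ (1 - α) ^ n := by
  classical
  have e1 := sum_avoid h0 h1 (univ : Finset (Fin n)) (fun a => {fun _ : V => a}) 1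
    (fun a _ => le_of_eq (Finset.card_singleton _))
    (fun a _ b _ hab => by
      rw [Finset.disjoint_singleton]
      intro h
      obtain ⟨s⟩ := ‹Nonempty V›
      exact hab (congrFun h s))
  rw [pow_one, Finset.card_univ, Fintype.card_fin] at e1
  refine le_trans (sum_le_sum_of_subset_of_nonneg ?_ fun P _ _ => wt_nonneg h0 h1 P) e1
  intro P hP
  simp only [mem_filter, mem_univ, true_and, forall_true_left]
  exact fun a h => hB P hP a (h (Finset.mem_singleton_self _))

end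

/-- Estimate for `n ^ k (1 - x) ^ (n - k)`. -/
theorem bound_le_inv {v n : ℕ} {x : ℝ} (hv : 1 ≤ v) (hn : 3 ≤ n) (h0 : 0 ≤ x) (h1 : x ≤ 1)
    (h : 3 * ((v : ℝ) ^ 2 * Real.log n) ≤ x * n) :
    (n : ℝ) ^ (v * (v - 1)) * (1 - x) ^ (n - v * (v - 1)) ≤ 1 / n := by
  have hn0 : (0 : ℝ) < n := by
    have : 0 < n := by omega
    exact_mod_cast this
  have hL : 1 ≤ Real.log n := by
    rw [Real.le_log_iff_exp_le hn0]
    have h3 : (3 : ℝ) ≤ n := by exact_mod_cast hn
    exact (Real.exp_one_lt_d9.le.trans (by norm_num)).trans h3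
  have hv1 : (1 : ℝ) ≤ (v : ℝ) ^ 2 := by
    have : (1 : ℝ) ≤ v := by exact_mod_cast hv
    exact one_le_pow₀ this
  have hk : ((v * (v - 1) : ℕ) : ℝ) ≤ (v : ℝ) ^ 2 := by
    have : v * (v - 1) ≤ v ^ 2 := by
      rw [pow_two]
      exact Nat.mul_le_mul_left _ (Nat.sub_le _ _)
    exact_mod_cast this
  set k := v * (v - 1) with hkdef
  have hk0 : (0 : ℝ) ≤ (k : ℝ) := Nat.cast_nonneg k
  have e1 : (1 - x) ^ (n - k) ≤ Real.exp (-x * (n - k : ℕ)) := by
    have h2 : 1 - x ≤ Real.exp (-x) := by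
      have := Real.add_one_le_exp (-x)
      linarith
    calc (1 - x) ^ (n - k) ≤ Real.exp (-x) ^ (n - k) := pow_le_pow_left₀ (by linarith) h2 _
      _ = Real.exp (-x * (n - k : ℕ)) := by rw [← Real.exp_nat_mul, mul_comm]
  have e2 : (n : ℝ) ^ k = Real.exp (k * Real.log n) := by
    rw [Real.exp_nat_mul, Real.exp_log hn0]
  have e3 : (n : ℝ) - k ≤ ((n - k : ℕ) : ℝ) := by
    rcases le_total k n with h2 | h2
    · rw [Nat.cast_sub h2]
    · rw [Nat.sub_eq_zero_of_le h2, Nat.cast_zero, sub_nonpos]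
      exact_mod_cast h2
  have e4 : (k : ℝ) * Real.log n + -x * (n - k : ℕ) ≤ -Real.log n := by
    have f1 : x * ((n : ℝ) - k) ≤ x * ((n - k : ℕ) : ℝ) := mul_le_mul_of_nonneg_left e3 h0
    have f2 : x * (k : ℝ) ≤ k := mul_le_of_le_one_left hk0 h1
    have f3 : (k : ℝ) * Real.log n ≤ (v : ℝ) ^ 2 * Real.log n :=
      mul_le_mul_of_nonneg_right hk (by linarith)
    have f4 : (v : ℝ) ^ 2 ≤ (v : ℝ) ^ 2 * Real.log n :=
      le_mul_of_one_le_right (by positivity) hL
    have f5 : Real.log n ≤ (v : ℝ) ^ 2 * Real.log n :=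
      le_mul_of_one_le_left (by linarith) hv1
    linarith
  calc (n : ℝ) ^ k * (1 - x) ^ (n - k)
      ≤ Real.exp (k * Real.log n) * Real.exp (-x * (n - k : ℕ)) := by
        rw [e2]
        exact mul_le_mul_of_nonneg_left e1 (Real.exp_pos _).le
    _ = Real.exp (k * Real.log n + -x * (n - k : ℕ)) := (Real.exp_add _ _).symm
    _ ≤ Real.exp (-Real.log n) := Real.exp_le_exp.2 e4
    _ = 1 / n := by rw [Real.exp_neg, Real.exp_log hn0, one_div]

theorem bound_le_inv' {v n : ℕ} {α : ℝ} (hv : 1 ≤ v) (hn : 3 ≤ n) (h0 : 0 ≤ α) (h1 : α ≤ 1)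
    (h : 3 * ((v : ℝ) ^ 2 * Real.log n) ≤ α ^ v * n) : (1 - α) ^ n ≤ 1 / n := by
  have hn0 : (0 : ℝ) < n := by
    have : 0 < n := by omega
    exact_mod_cast this
  have hL : 0 ≤ Real.log n := Real.log_nonneg (by
    have : 1 ≤ n := by omega
    exact_mod_cast this)
  have hv1 : (1 : ℝ) ≤ (v : ℝ) ^ 2 := by
    have : (1 : ℝ) ≤ v := by exact_mod_cast hv
    exact one_le_pow₀ this
  have h2 : 1 - α ≤ Real.exp (-α) := by
    have := Real.add_one_le_exp (-α)
    linarith
  have h3 : α ^ v ≤ α := pow_le_of_le_one h0 h1 (by omega)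
  have h4 : α ^ v * n ≤ α * n := mul_le_mul_of_nonneg_right h3 hn0.le
  have h5 : Real.log n ≤ (v : ℝ) ^ 2 * Real.log n := le_mul_of_one_le_left hL hv1
  calc (1 - α) ^ n ≤ Real.exp (-α) ^ n := pow_le_pow_left₀ (by linarith) h2 _
    _ = Real.exp (-(α * n)) := by
      rw [← Real.exp_nat_mul]
      congr 1
      ring
    _ ≤ Real.exp (-Real.log n) := Real.exp_le_exp.2 (by linarith)
    _ = 1 / n := by rw [Real.exp_neg, Real.exp_log hn0, one_div]

end Pool.Agent.Lib.MP_aa9b81_an.AS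
end

section

/-!
# Greedy completions

`F` is a set of finite sets of letters (the forbidden sets), `lab` is a function from the letters to a
well ordered set which is injective on the forbidden sets. The letters are processed in the order of
their labels: a letter is added to the set `T` if it completes no forbidden set.
-/

noncomputable section

namespace Pool.Agent.Lib.MP_aa9b81_an.Cut

open Filter Topology Set

section Greedy

variable {C L : Type} [LinearOrder L] [WellFoundedLT L]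

/-- The greedy completion of `T`. -/
def grd (F : Set C → Prop) (lab : C → L) (T : C → Prop) : C → Prop :=
  (InvImage.wf lab (wellFounded_lt (α := L))).fix
    (fun c ih => T c ∨ ¬ ∃ σ, F σ ∧ c ∈ σ ∧ ∀ c' ∈ σ, c' ≠ c → (T c' ∨ ∃ h : lab c' < lab c, ih c' h))

theorem grd_iff (F : Set C → Prop) (lab : C → L) (T : C → Prop) (c : C) :
    grd F lab T c ↔ T c ∨ ¬ ∃ σ, F σ ∧ c ∈ σ ∧
      ∀ c' ∈ σ, c' ≠ c → (T c' ∨ (lab c' < lab c ∧ grd F lab T c')) := by
  have h : grd F lab T c = (T c ∨ ¬ ∃ σ, F σ ∧ c ∈ σ ∧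
      ∀ c' ∈ σ, c' ≠ c → (T c' ∨ ∃ _h : lab c' < lab c, grd F lab T c')) :=
    WellFounded.fix_eq (InvImage.wf lab (wellFounded_lt (α := L))) _ c
  rw [h]
  simp only [exists_prop]

/-- A set is free if it contains no forbidden set. -/
def IsFree (F : Set C → Prop) (T : C → Prop) : Prop := ∀ σ, F σ → ∃ c ∈ σ, ¬ T c

theorem grd_of_mem {F : Set C → Prop} {lab : C → L} {T : C → Prop} {c : C} (h : T c) :
    grd F lab T c := (grd_iff F lab T c).2 (Or.inl h)

theorem grd_free {F : Set C → Prop} (hfin : ∀ σ, F σ → σ.Finite) {lab : C → L}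
    (hlab : ∀ σ, F σ → ∀ c ∈ σ, ∀ c' ∈ σ, c' ≠ c → lab c' ≠ lab c) {T : C → Prop}
    (hT : IsFree F T) : IsFree F (grd F lab T) := by
  intro σ hσ
  by_contra hcon
  push Not at hcon
  obtain ⟨c₀, hc₀, hc₀T⟩ := hT σ hσ
  obtain ⟨c, hc, hmax⟩ := Set.exists_max_image {c | c ∈ σ ∧ ¬ T c} lab
    ((hfin σ hσ).subset fun c h => h.1) ⟨c₀, hc₀, hc₀T⟩
  rcases (grd_iff F lab T c).1 (hcon c hc.1) with h1 | h1
  · exact hc.2 h1
  · refine h1 ⟨σ, hσ, hc.1, fun c' hc' hne => ?_⟩
    by_cases h2 : T c'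
    · exact Or.inl h2
    · exact Or.inr ⟨lt_of_le_of_ne (hmax c' ⟨hc', h2⟩) (hlab σ hσ c hc.1 c' hc' hne), hcon c' hc'⟩

theorem grd_max {F : Set C → Prop} {lab : C → L} {T : C → Prop} {c : C} (h : ¬ grd F lab T c) :
    ∃ σ, F σ ∧ c ∈ σ ∧ ∀ c' ∈ σ, c' ≠ c → grd F lab T c' := by
  rw [grd_iff] at h
  push Not at h
  obtain ⟨h1, σ, hσ, hc, h2⟩ := h
  refine ⟨σ, hσ, hc, fun c' hc' hne => ?_⟩
  rcases h2 c' hc' hne with h3 | h3
  · exact grd_of_mem h3
  · exact h3.2

/-- A free set which is maximal is its own completion. -/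
theorem grd_eq_of_max {F : Set C → Prop} (hfin : ∀ σ, F σ → σ.Finite) {lab : C → L}
    (hlab : ∀ σ, F σ → ∀ c ∈ σ, ∀ c' ∈ σ, c' ≠ c → lab c' ≠ lab c) {T : C → Prop}
    (hT : IsFree F T) (hmax : ∀ c, ¬ T c → ∃ σ, F σ ∧ c ∈ σ ∧ ∀ c' ∈ σ, c' ≠ c → T c') (c : C) :
    grd F lab T c ↔ T c := by
  refine ⟨fun h => ?_, grd_of_mem⟩
  by_contra h1
  obtain ⟨σ, hσ, hc, h2⟩ := hmax c h1
  obtain ⟨c', hc', h3⟩ := grd_free hfin hlab hT σ hσ
  apply h3
  by_cases h4 : c' = c
  · rw [h4]
    exact h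
  · exact grd_of_mem (h2 c' hc' h4)

/-- The completion is equivariant. -/
theorem grd_map {C' : Type} {F : Set C → Prop} {F' : Set C' → Prop} {lab : C → L} {lab' : C' → L}
    {T : C → Prop} {T' : C' → Prop} (e : C ≃ C') (hF : ∀ σ, F' (e '' σ) ↔ F σ)
    (hl : ∀ c, lab' (e c) = lab c) (hT : ∀ c, T' (e c) ↔ T c) (c : C) :
    grd F' lab' T' (e c) ↔ grd F lab T c := by
  induction c using (InvImage.wf lab (wellFounded_lt (α := L))).induction with
  | _ c ih =>
    rw [grd_iff, grd_iff, hT]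
    refine or_congr Iff.rfl (not_congr ?_)
    constructor
    · rintro ⟨σ', hσ', hc, h⟩
      obtain ⟨σ, rfl⟩ : ∃ σ, σ' = e '' σ := ⟨e.symm '' σ', by
        rw [Set.image_image]
        simp⟩
      refine ⟨σ, (hF σ).1 hσ', (e.injective.mem_set_image).1 hc, fun c' hc' hne => ?_⟩
      rcases h (e c') (mem_image_of_mem _ hc') (fun h => hne (e.injective h)) with h1 | ⟨h1, h2⟩
      · exact Or.inl ((hT c').1 h1)
      · rw [hl, hl] at h1
        exact Or.inr ⟨h1, (ih c' h1).1 h2⟩
    · rintro ⟨σ, hσ, hc, h⟩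
      refine ⟨e '' σ, (hF σ).2 hσ, mem_image_of_mem _ hc, ?_⟩
      rintro _ ⟨c', hc', rfl⟩ hne
      rcases h c' hc' (fun h => hne (congrArg e h)) with h1 | ⟨h1, h2⟩
      · exact Or.inl ((hT c').2 h1)
      · exact Or.inr ⟨by rw [hl, hl]; exact h1, (ih c' h1).2 h2⟩

/-- The completion is locally constant in all data. -/
theorem grd_eventually {Z : Type} [TopologicalSpace Z] {F : Z → Set C → Prop} {lab : Z → C → L}
    {T : Z → C → Prop} {z : Z} (hF : ∀ σ, ∀ᶠ z' in 𝓝 z, F z' σ ↔ F z σ)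
    (hfin : ∀ z' σ, F z' σ → σ.Finite) (hloc : ∀ c, {σ | c ∈ σ ∧ ∃ z', F z' σ}.Finite)
    (hl : ∀ c, ∀ᶠ z' in 𝓝 z, lab z' c = lab z c) (hT : ∀ c, ∀ᶠ z' in 𝓝 z, T z' c ↔ T z c) (c : C) :
    ∀ᶠ z' in 𝓝 z, (grd (F z') (lab z') (T z') c ↔ grd (F z) (lab z) (T z) c) := by
  induction c using (InvImage.wf (lab z) (wellFounded_lt (α := L))).induction with
  | _ c ih =>
    let N : Set C := ⋃ σ ∈ {σ | c ∈ σ ∧ ∃ z', F z' σ}, σ
    have hN : N.Finite := (hloc c).biUnion fun σ hσ => by
      obtain ⟨-, z', hz'⟩ := hσ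
      exact hfin z' σ hz'
    have h1 : ∀ᶠ z' in 𝓝 z, ∀ σ ∈ {σ | c ∈ σ ∧ ∃ z', F z' σ}, (F z' σ ↔ F z σ) :=
      (eventually_all_finite (hloc c)).2 fun σ _ => hF σ
    have h2 : ∀ᶠ z' in 𝓝 z, ∀ c' ∈ N, (T z' c' ↔ T z c') :=
      (eventually_all_finite hN).2 fun c' _ => hT c'
    have h3 : ∀ᶠ z' in 𝓝 z, ∀ c' ∈ N, lab z' c' = lab z c' :=
      (eventually_all_finite hN).2 fun c' _ => hl c'
    have h4 : ∀ᶠ z' in 𝓝 z, ∀ c' ∈ N, lab z c' < lab z c →
        (grd (F z') (lab z') (T z') c' ↔ grd (F z) (lab z) (T z) c') := by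
      refine (eventually_all_finite hN).2 fun c' _ => ?_
      by_cases h : lab z c' < lab z c
      · filter_upwards [ih c' h] with z' hz' _
        exact hz'
      · exact Eventually.of_forall fun z' hz' => absurd hz' h
    filter_upwards [h1, h2, h3, h4, hT c, hl c] with z' e1 e2 e3 e4 e5 e6
    rw [grd_iff, grd_iff, e5]
    refine or_congr Iff.rfl (not_congr (exists_congr fun σ => ?_))
    by_cases hσ : c ∈ σ ∧ ∃ z', F z' σ
    · rw [e1 σ hσ]
      refine and_congr Iff.rfl (and_congr Iff.rfl (forall_congr' fun c' => forall_congr' fun hc' =>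
        forall_congr' fun hne => ?_))
      have hcN : c' ∈ N := mem_biUnion hσ hc'
      rw [e2 c' hcN, e3 c' hcN, e6]
      exact or_congr Iff.rfl (and_congr_right fun h => e4 c' hcN h)
    · constructor
      · rintro ⟨a, b, -⟩
        exact absurd ⟨b, z', a⟩ hσ
      · rintro ⟨a, b, -⟩
        exact absurd ⟨b, z, a⟩ hσ

end Greedy

end Pool.Agent.Lib.MP_aa9b81_an.Cut
end
end
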