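import Pool.Agent.Lib.MP_aa9b81_an.Mg.G073
import Pool.Agent.Lib.MP_aa9b81_an.CutM.Defs

section

/-!
# Hereditary shifts, part D6a: rotations at one site
-/

open scoped ENNReal Topology
open Function

noncomputable section

namespace Pool.Agent.Lib.MP_aa9b81_an.Hs

open Cut

variable {Γ I : Type} [Group Γ] [MulAction Γ I] [DecidableEq I]

omit [Group Γ] [MulAction Γ I] in
/-- The projection onto the span of the pairs with `L ⊆ F ∖ S`. -/
def XL (L : Finset I) : BL (Bs I) := dia fun b => if L ⊆ b.F \ b.S then 1 else 0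

omit [Group Γ] [MulAction Γ I] in
theorem XL_apply (L : Finset I) (ξ : L2 (Bs I)) (b : Bs I) :
    (XL L ξ : Bs I → ℂ) b = if L ⊆ b.F \ b.S then (ξ : Bs I → ℂ) b else 0 := by
  rw [XL, dia_apply zero_le_one (fun b => by split_ifs <;> simp)]
  split_ifs <;> simp

omit [Group Γ] [MulAction Γ I] in
/-- The projection onto the span of the pairs with `i ∉ S`. -/
def Ni (i : I) : BL (Bs I) := dia fun b => if i ∈ b.S then 0 else 1

omit [Group Γ] [MulAction Γ I] in
theorem Ni_apply (i : I) (ξ : L2 (Bs I)) (b : Bs I) :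
    (Ni i ξ : Bs I → ℂ) b = if i ∈ b.S then 0 else (ξ : Bs I → ℂ) b := by
  rw [Ni, dia_apply zero_le_one (fun b => by split_ifs <;> simp)]
  split_ifs <;> simp

omit [Group Γ] [MulAction Γ I] in
/-- The weights of `Ji`. -/
def Jw (i : I) (b : Bs I) : ℂ := if i ∈ b.S then 0 else if i ∈ b.F then 1 else -1

omit [Group Γ] [MulAction Γ I] in
/-- The generator of the rotations: `(F, S) ↦ (F ∪ i, S)`, `(F ∪ i, S) ↦ -(F, S)`, and `0` if `i ∈ S`. -/
def Ji (i : I) : BL (Bs I) := wop (fl i) (Jw i)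

omit [Group Γ] [MulAction Γ I] in
theorem D6a_fl_S (i : I) (b : Bs I) : (fl i b).S = b.S := by
  unfold fl
  split_ifs <;> rfl

omit [Group Γ] [MulAction Γ I] in
theorem D6a_fl_F {i : I} {b : Bs I} (h : i ∉ b.S) : (fl i b).F = tg i b.F := by
  unfold fl
  rw [dif_neg h]
  rfl

omit [Group Γ] [MulAction Γ I] in
theorem D6a_fl_fl (i : I) (b : Bs I) : fl i (fl i b) = b := by
  by_cases h : i ∈ b.S
  · have h1 : fl i b = b := by
      unfold fl
      rw [dif_pos h]
    rw [h1, h1]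
  · have h' : i ∉ (fl i b).S := by rw [D6a_fl_S]; exact h
    apply Bs.ext
    · rw [D6a_fl_F h', D6a_fl_F h, tg_tg]
    · rw [D6a_fl_S, D6a_fl_S]

omit [Group Γ] [MulAction Γ I] in
/-- PROOF: `fl i (fl i b) = b` for `i ∉ S` (`tg_tg`). -/
theorem Ji_wok (i : I) : WOK (fl i) (Jw i) 1 := by
  refine ⟨zero_le_one, fun b => ?_, fun b₁ b₂ _ _ h => ?_⟩
  · unfold Jw
    split_ifs <;> simp
  · have h1 := congrArg (fl i) h
    rwa [D6a_fl_fl, D6a_fl_fl] at h1

omit [Group Γ] [MulAction Γ I] in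
theorem Ji_apply (i : I) (ξ : L2 (Bs I)) (b : Bs I) :
    (Ji i ξ : Bs I → ℂ) b = Jw i b * (ξ : Bs I → ℂ) (fl i b) := wop_apply (Ji_wok i) ξ b

omit [Group Γ] [MulAction Γ I] in
/-- PROOF: coordinates; for `i ∉ S` the weights of `b` and `fl i b` are opposite. -/
theorem Ji_mul_Ji (i : I) : Ji i * Ji i = -Ni i := by
  refine ContinuousLinearMap.ext fun ξ => ?_
  ext b
  have h1 : ((Ji i * Ji i) ξ : Bs I → ℂ) b = Jw i b * (Jw i (fl i b) * (ξ : Bs I → ℂ) b) := by
    show (Ji i (Ji i ξ) : Bs I → ℂ) b = _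
    rw [Ji_apply, Ji_apply, D6a_fl_fl]
  have h2 : ((-Ni i) ξ : Bs I → ℂ) b = -(if i ∈ b.S then 0 else (ξ : Bs I → ℂ) b) := by
    rw [← Ni_apply]
    rfl
  rw [h1, h2]
  by_cases h : i ∈ b.S
  · simp [Jw, h]
  · have h' : i ∉ (fl i b).S := by rw [D6a_fl_S]; exact h
    by_cases hF : i ∈ b.F
    · have hF' : i ∉ (fl i b).F := by
        rw [D6a_fl_F h, mem_tg]
        simp [hF]
      simp [Jw, h, h', hF, hF']
    · have hF' : i ∈ (fl i b).F := by
        rw [D6a_fl_F h, mem_tg]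
        simp [hF]
      simp [Jw, h, h', hF, hF']

omit [Group Γ] [MulAction Γ I] in
/-- PROOF: coordinates: `(fl i b).S = b.S`, and `Jw i b = 0` for `i ∈ b.S`. -/
theorem Ni_mul_Ji (i : I) : Ni i * Ji i = Ji i := by
  refine ContinuousLinearMap.ext fun ξ => ?_
  ext b
  show (Ni i (Ji i ξ) : Bs I → ℂ) b = (Ji i ξ : Bs I → ℂ) b
  rw [Ni_apply, Ji_apply]
  by_cases h : i ∈ b.S
  · simp [Jw, h]
  · simp [h]

omit [Group Γ] [MulAction Γ I] in
theorem Ji_mul_Ni (i : I) : Ji i * Ni i = Ji i := by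
  refine ContinuousLinearMap.ext fun ξ => ?_
  ext b
  show (Ji i (Ni i ξ) : Bs I → ℂ) b = (Ji i ξ : Bs I → ℂ) b
  rw [Ji_apply, Ji_apply, Ni_apply, D6a_fl_S]
  by_cases h : i ∈ b.S
  · simp [Jw, h]
  · simp [h]

omit [Group Γ] [MulAction Γ I] in
theorem Ni_mul_Ni (i : I) : Ni i * Ni i = Ni i := by
  refine ContinuousLinearMap.ext fun ξ => ?_
  ext b
  show (Ni i (Ni i ξ) : Bs I → ℂ) b = (Ni i ξ : Bs I → ℂ) b
  rw [Ni_apply, Ni_apply]
  split_ifs <;> rfl

omit [Group Γ] [MulAction Γ I] in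
/-- The rotation by the angle `φ` at the site `i`. -/
def Ui (i : I) (φ : ℝ) : BL (Bs I) :=
  1 + ((Real.cos φ - 1 : ℝ) : ℂ) • Ni i + ((Real.sin φ : ℝ) : ℂ) • Ji i

end Pool.Agent.Lib.MP_aa9b81_an.Hs
end
end

section

/-!
# Hereditary shifts, part E0a: sites, weights, the operator `T`
-/

open scoped ENNReal Topology ZeroAtInfty
open Function Filter Set

noncomputable section

namespace Pool.Agent.Lib.MP_aa9b81_an.Hs

open Cut

/-- Heights `hh p i ∈ [0, 1]` of the sites `i ∈ I` at the points `p` of a `Γ`-space. -/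
structure Site (Γ P I : Type) [Group Γ] [TopologicalSpace P] [MulAction Γ P] [MulAction Γ I] where
  /-- the height -/
  hh : P → I → ℝ
  nonneg : ∀ p i, 0 ≤ hh p i
  le_one : ∀ p i, hh p i ≤ 1
  cont : ∀ i, Continuous fun p => hh p i
  equi : ∀ (g : Γ) p i, hh (g • p) (g • i) = hh p i

/-- A weight on a countable `Γ`-set: proper, of bounded variation under every `g`. -/
structure Wt (Γ I : Type) [Group Γ] [MulAction Γ I] where
  /-- the weight -/
  w : I → ℝ
  one_le : ∀ i, 1 ≤ w i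
  proper : ∀ R : ℝ, {i | w i ≤ R}.Finite
  var : ∀ g : Γ, ∃ C : ℝ, 0 ≤ C ∧ ∀ i, |w (g • i) - w i| ≤ C

/-- PROOF. Choose injections `a : Γ → ℕ`, `b : I → ℕ`. Define finite sets `A 0 = ∅`,
`A (n + 1) = A n ∪ {i | b i ≤ n} ∪ ⋃_{a g ≤ n} (g A n ∪ g⁻¹ A n)` (finite unions of finite sets). They increase
and cover `I`. Let `w i = 1 + min {n | i ∈ A n}` (`Nat.find`). `{w ≤ R}` is contained in some `A n`. For `g`: if
`i ∈ A n` then `g i ∈ A (max n (a g) + 1)` and `g⁻¹ i ∈ A (max n (a g) + 1)`, so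
`w (g i) ≤ w i + a g + 2` and `w i ≤ w (g i) + a g + 2`. -/
theorem exists_wt (Γ I : Type) [Group Γ] [MulAction Γ I] [Countable Γ] [Countable I] :
    Nonempty (Wt Γ I) := by
  classical
  obtain ⟨a, ha⟩ := exists_injective_nat Γ
  obtain ⟨b, hb⟩ := exists_injective_nat I
  have hfG : ∀ n, {g : Γ | a g ≤ n}.Finite := fun n =>
    (Set.finite_Iic n).preimage ha.injOn
  have hfI : ∀ n, {i : I | b i ≤ n}.Finite := fun n =>
    (Set.finite_Iic n).preimage hb.injOn
  let A : ℕ → Set I := fun n => Nat.rec ∅ (fun n X => X ∪ {i | b i ≤ n} ∪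
    ⋃ g ∈ {g : Γ | a g ≤ n}, ((fun i => g • i) '' X ∪ (fun i => g⁻¹ • i) '' X)) n
  have hA : ∀ n, A (n + 1) = A n ∪ {i | b i ≤ n} ∪
    ⋃ g ∈ {g : Γ | a g ≤ n}, ((fun i => g • i) '' A n ∪ (fun i => g⁻¹ • i) '' A n) :=
    fun n => rfl
  have hfin : ∀ n, (A n).Finite := by
    intro n
    induction n with
    | zero => exact Set.finite_empty
    | succ n ih =>
      rw [hA]
      refine (ih.union (hfI n)).union ((hfG n).biUnion fun g _ => ?_)
      exact (ih.image _).union (ih.image _)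
  have hmono : Monotone A := by
    refine monotone_nat_of_le_succ fun n => ?_
    rw [hA]
    intro i hi
    exact Or.inl (Or.inl hi)
  have hcov : ∀ i, ∃ n, i ∈ A n := by
    intro i
    refine ⟨b i + 1, ?_⟩
    rw [hA]
    refine Or.inl (Or.inr ?_)
    rw [Set.mem_ofPred_eq]
  have hact : ∀ (g : Γ) n i, i ∈ A n → g • i ∈ A (max n (a g) + 1) ∧
      g⁻¹ • i ∈ A (max n (a g) + 1) := by
    intro g n i hi
    have hi' : i ∈ A (max n (a g)) := hmono (le_max_left _ _) hi
    rw [hA]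
    have hg : g ∈ {g : Γ | a g ≤ max n (a g)} := by
      rw [Set.mem_ofPred_eq]
      exact le_max_right _ _
    constructor
    · refine Or.inr (Set.mem_biUnion hg (Or.inl ⟨i, hi', rfl⟩))
    · refine Or.inr (Set.mem_biUnion hg (Or.inr ⟨i, hi', rfl⟩))
  clear_value A
  have hex : ∀ i, ∃ n, i ∈ A n ∧ ∀ m, i ∈ A m → n ≤ m := by
    intro i
    refine ⟨Nat.find (hcov i), Nat.find_spec (hcov i), ?_⟩
    intro m h
    exact Nat.find_min' (hcov i) h
  choose N hN hN' using hex
  refine ⟨⟨fun i => 1 + (N i : ℝ), fun i => ?_, fun R => ?_, fun g => ?_⟩⟩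
  · have : (0 : ℝ) ≤ (N i : ℝ) := Nat.cast_nonneg _
    linarith
  · refine (hfin ⌈R⌉₊).subset fun i hi => ?_
    have h1 : (1 : ℝ) + (N i : ℝ) ≤ R := hi
    have h2 : (N i : ℝ) ≤ (⌈R⌉₊ : ℝ) := by
      have := Nat.le_ceil R
      linarith
    exact hmono (by exact_mod_cast h2) (hN i)
  · refine ⟨(a g : ℝ) + 2, by positivity, fun i => ?_⟩
    have h1 : N (g • i) ≤ max (N i) (a g) + 1 := hN' _ _ (hact g _ i (hN i)).1
    have h2 : N i ≤ max (N (g • i)) (a g) + 1 := by
      refine hN' _ _ ?_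
      have := (hact g _ (g • i) (hN (g • i))).2
      rwa [inv_smul_smul] at this
    have h3 : N (g • i) ≤ N i + a g + 2 := by
      have : max (N i) (a g) ≤ N i + a g := max_le (by omega) (by omega)
      omega
    have h4 : N i ≤ N (g • i) + a g + 2 := by
      have : max (N (g • i)) (a g) ≤ N (g • i) + a g := max_le (by omega) (by omega)
      omega
    have h3' : (N (g • i) : ℝ) ≤ N i + a g + 2 := by exact_mod_cast h3
    have h4' : (N i : ℝ) ≤ N (g • i) + a g + 2 := by exact_mod_cast h4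
    rw [abs_le]
    constructor <;> linarith

variable {Γ P I : Type} [Group Γ] [TopologicalSpace P] [MulAction Γ P] [MulAction Γ I]
  [DecidableEq I] (H : Site Γ P I) (w : Wt Γ I)

omit [DecidableEq I] in
/-- The support of the configuration at `p`. -/
def Site.supp (p : P) : Set I := {i | 0 < H.hh p i}

omit [DecidableEq I] in
/-- The set of the points whose configuration contains `F`. -/
def Site.U (b : Bs I) : Set P := {p | (b.F : Set I) ⊆ H.supp p}

omit [DecidableEq I] in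
/-- PROOF: a finite intersection of the open sets `{0 < hh p i}`. -/
theorem Site.isOpen_U (b : Bs I) : IsOpen (H.U b) := by
  have h : H.U b = ⋂ i ∈ b.F, {p | 0 < H.hh p i} := by
    ext p
    simp only [Site.U, Site.supp, Set.mem_ofPred_eq, Set.mem_iInter]
    exact ⟨fun h i hi => h hi, fun h i hi => h i hi⟩
  rw [h]
  exact isOpen_biInter_finset fun i _ => isOpen_lt continuous_const (H.cont i)

omit [DecidableEq I] in
/-- PROOF: `mem_gF`, `H.equi`. -/
theorem Site.smul_mem_U (g : Γ) (b : Bs I) (p : P) : g • p ∈ H.U (g • b) ↔ p ∈ H.U b := by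
  simp only [Site.U, Site.supp, Set.mem_ofPred_eq, Bs.smul_F]
  constructor
  · intro h i hi
    have h1 : g • i ∈ ((gF g b.F : Finset I) : Set I) := by
      rw [Finset.mem_coe, mem_gF, inv_smul_smul]
      exact hi
    have h2 := h h1
    rw [Set.mem_ofPred_eq, H.equi] at h2
    exact h2
  · intro h i hi
    rw [Finset.mem_coe, mem_gF] at hi
    have h2 := h (Finset.mem_coe.2 hi)
    rw [Set.mem_ofPred_eq] at h2 ⊢
    have h3 := H.equi g p (g⁻¹ • i)
    rw [smul_inv_smul] at h3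
    rw [h3]
    exact h2

omit [DecidableEq I] in
theorem Site.mem_supp_smul (g : Γ) (p : P) (i : I) : g • i ∈ H.supp (g • p) ↔ i ∈ H.supp p := by
  simp only [Site.supp, Set.mem_ofPred_eq, H.equi]

omit [DecidableEq I] in
/-- The weight of the site `i` at `p`. -/
def Site.W (p : P) (i : I) : ℝ := w.w i + (H.hh p i)⁻¹

omit [DecidableEq I] in
/-- The deformed weight, `0 ≤ s ≤ 1`. -/
def Site.Ws (s : ℝ) (p : P) (i : I) : ℝ := 1 + s * (H.W w p i - 1)

omit [DecidableEq I] in
/-- The norm of the weights on `F`. -/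
def Site.nW (s : ℝ) (p : P) (F : Finset I) : ℝ := √(∑ i ∈ F, H.Ws w s p i ^ 2)

omit [DecidableEq I] in
/-- The unit vector of the weights. -/
def Site.uu (s : ℝ) (p : P) (F : Finset I) (i : I) : ℝ := H.Ws w s p i / H.nW w s p F

omit [DecidableEq I] in
theorem Site.one_le_W (p : P) (i : I) : 1 ≤ H.W w p i := by
  have h1 := w.one_le i
  have h2 : 0 ≤ (H.hh p i)⁻¹ := inv_nonneg.2 (H.nonneg p i)
  rw [Site.W]
  linarith

omit [DecidableEq I] in
theorem Site.one_le_Ws {s : ℝ} (hs : 0 ≤ s) (p : P) (i : I) : 1 ≤ H.Ws w s p i := by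
  have h1 := H.one_le_W w p i
  rw [Site.Ws]
  nlinarith

end Pool.Agent.Lib.MP_aa9b81_an.Hs
end
end

section

section
/-!
# Hereditary shifts, part D6b: rotations at one site
-/

open scoped ENNReal Topology
open Function

noncomputable section

namespace Pool.Agent.Lib.MP_aa9b81_an.Hs

open Cut

variable {Γ I : Type} [Group Γ] [MulAction Γ I] [DecidableEq I]

omit [Group Γ] [MulAction Γ I] in
/-- PROOF: expand, with `c = cos`, `s = sin`, the relations above and the addition theorems. -/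
theorem Ui_mul (i : I) (φ φ' : ℝ) : Ui i φ * Ui i φ' = Ui i (φ + φ') := by
  simp only [Ui, mul_add, add_mul, one_mul, mul_one, smul_mul_assoc, mul_smul_comm, Ji_mul_Ji,
    Ni_mul_Ji, Ji_mul_Ni, Ni_mul_Ni, Real.cos_add, Real.sin_add]
  push_cast
  module

omit [Group Γ] [MulAction Γ I] in
theorem Ui_zero (i : I) : Ui i 0 = 1 := by
  simp [Ui]

omit [Group Γ] [MulAction Γ I] in
theorem D6b_fl_S (i : I) (b : Bs I) : (fl i b).S = b.S := by
  unfold fl
  split_ifs <;> rfl

omit [Group Γ] [MulAction Γ I] in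
theorem D6b_fl_F {i : I} {b : Bs I} (h : i ∉ b.S) : (fl i b).F = tg i b.F := by
  unfold fl
  rw [dif_neg h]
  rfl

omit [Group Γ] [MulAction Γ I] in
theorem D6b_fl_fl (i : I) (b : Bs I) : fl i (fl i b) = b := by
  by_cases h : i ∈ b.S
  · have h1 : fl i b = b := by
      unfold fl
      rw [dif_pos h]
    rw [h1, h1]
  · have h' : i ∉ (fl i b).S := by rw [D6b_fl_S]; exact h
    apply Bs.ext
    · rw [D6b_fl_F h', D6b_fl_F h, tg_tg]
    · rw [D6b_fl_S, D6b_fl_S]

omit [Group Γ] [MulAction Γ I] in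
theorem D6b_Jw_fl (i : I) (b : Bs I) : Jw i (fl i b) = -Jw i b := by
  by_cases h : i ∈ b.S
  · simp [Jw, h, D6b_fl_S]
  · by_cases hF : i ∈ b.F
    · have hF' : i ∉ (fl i b).F := by
        rw [D6b_fl_F h, mem_tg]
        simp [hF]
      simp [Jw, h, hF, hF', D6b_fl_S]
    · have hF' : i ∈ (fl i b).F := by
        rw [D6b_fl_F h, mem_tg]
        simp [hF]
      simp [Jw, h, hF, hF', D6b_fl_S]

omit [Group Γ] [MulAction Γ I] in
theorem D6b_conj_Jw (i : I) (b : Bs I) : (starRingEnd ℂ) (Jw i b) = Jw i b := by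
  unfold Jw
  split_ifs <;> simp

omit [Group Γ] [MulAction Γ I] in
/-- PROOF: `⟪Ji ξ, η⟫ = -⟪ξ, Ji η⟫`: `lp.inner_eq_tsum`, the bijection `b ↦ fl i b` of `Bs I`, an involution which for
`i ∉ S` exchanges the weights `1` and `-1`. -/
theorem inner_Ji (i : I) (ξ η : L2 (Bs I)) : inner ℂ (Ji i ξ) η = -inner ℂ ξ (Ji i η) := by
  rw [lp.inner_eq_tsum, lp.inner_eq_tsum, ← tsum_neg,
    ← (Function.Involutive.toPerm (fl i) (D6b_fl_fl i)).tsum_eq]
  refine tsum_congr fun b => ?_
  simp only [Function.Involutive.coe_toPerm]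
  rw [Ji_apply, Ji_apply, D6b_fl_fl, D6b_Jw_fl]
  simp only [RCLike.inner_apply, map_mul, map_neg, D6b_conj_Jw]
  ring

end Pool.Agent.Lib.MP_aa9b81_an.Hs
end

end


section
/-!
# Hereditary shifts, part D6c: rotations at one site
-/

open scoped ENNReal Topology
open Function

noncomputable section

namespace Pool.Agent.Lib.MP_aa9b81_an.Hs

open Cut

variable {Γ I : Type} [Group Γ] [MulAction Γ I] [DecidableEq I]

omit [Group Γ] [MulAction Γ I] in
/-- PROOF: `lp.inner_eq_tsum`, termwise. -/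
theorem inner_Ni (i : I) (ξ η : L2 (Bs I)) : inner ℂ (Ni i ξ) η = inner ℂ ξ (Ni i η) := by
  rw [lp.inner_eq_tsum, lp.inner_eq_tsum]
  refine tsum_congr fun b => ?_
  rw [Ni_apply, Ni_apply]
  split_ifs <;> simp

omit [Group Γ] [MulAction Γ I] in
/-- PROOF: `⟪Ui φ ξ, η⟫ = ⟪ξ, Ui (-φ) η⟫` by `inner_Ji`, `inner_Ni`; so
`‖Ui φ ξ‖² = ⟪Ui φ ξ, Ui φ ξ⟫ = ⟪ξ, Ui (-φ) (Ui φ ξ)⟫ = ‖ξ‖²` (`Ui_mul`, `Ui_zero`). -/
theorem norm_Ui_le (i : I) (φ : ℝ) : ‖Ui i φ‖ ≤ 1 := by
  have hadj : ∀ ξ η : L2 (Bs I), inner ℂ (Ui i φ ξ) η = inner ℂ ξ (Ui i (-φ) η) := by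
    intro ξ η
    have h1 : ∀ (θ : ℝ) (ζ : L2 (Bs I)), Ui i θ ζ =
        ζ + (((Real.cos θ - 1 : ℝ) : ℂ) • Ni i ζ) + ((Real.sin θ : ℝ) : ℂ) • Ji i ζ := by
      intro θ ζ
      simp [Ui]
    rw [h1, h1, inner_add_left, inner_add_left, inner_add_right, inner_add_right,
      inner_smul_left, inner_smul_left, inner_smul_right, inner_smul_right, inner_Ni, inner_Ji,
      Complex.conj_ofReal, Complex.conj_ofReal, Real.cos_neg, Real.sin_neg]
    push_cast
    ring
  refine ContinuousLinearMap.opNorm_le_bound _ zero_le_one fun ξ => ?_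
  have h2 : inner ℂ (Ui i φ ξ) (Ui i φ ξ) = inner ℂ ξ ξ := by
    rw [hadj]
    have h3 : Ui i (-φ) (Ui i φ ξ) = ξ := by
      have h4 : Ui i (-φ) (Ui i φ ξ) = (Ui i (-φ) * Ui i φ) ξ := rfl
      rw [h4, Ui_mul, neg_add_cancel, Ui_zero]
      rfl
    rw [h3]
  rw [inner_self_eq_norm_sq_to_K, inner_self_eq_norm_sq_to_K] at h2
  have h5 : ‖Ui i φ ξ‖ ^ 2 = ‖ξ‖ ^ 2 := by exact_mod_cast h2
  rw [one_mul]
  exact ((sq_eq_sq₀ (norm_nonneg _) (norm_nonneg _)).1 h5).le

omit [Group Γ] [MulAction Γ I] in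
/-- PROOF: `Real.continuous_cos`, `Real.continuous_sin`, sums and scalar multiples. -/
theorem continuous_Ui (i : I) : Continuous (Ui i) := by
  unfold Ui
  have h1 : Continuous fun φ : ℝ => ((Real.cos φ - 1 : ℝ) : ℂ) :=
    Complex.continuous_ofReal.comp (Real.continuous_cos.sub continuous_const)
  have h2 : Continuous fun φ : ℝ => ((Real.sin φ : ℝ) : ℂ) :=
    Complex.continuous_ofReal.comp Real.continuous_sin
  exact (continuous_const.add (h1.smul continuous_const)).add (h2.smul continuous_const)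

omit [Group Γ] [MulAction Γ I] in
theorem D6c_fl_S (i : I) (b : Bs I) : (fl i b).S = b.S := by
  unfold fl
  split_ifs <;> rfl

omit [Group Γ] [MulAction Γ I] in
theorem D6c_fl_F {i : I} {b : Bs I} (h : i ∉ b.S) : (fl i b).F = tg i b.F := by
  unfold fl
  rw [dif_neg h]
  rfl

omit [Group Γ] [MulAction Γ I] in
theorem D6c_fl_self {i : I} {b : Bs I} (h : i ∈ b.S) : fl i b = b := by
  unfold fl
  rw [dif_pos h]

omit [Group Γ] [MulAction Γ I] in
theorem D6c_fl_comm (i j : I) (b : Bs I) : fl i (fl j b) = fl j (fl i b) := by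
  by_cases hi : i ∈ b.S
  · have hi' : i ∈ (fl j b).S := by rw [D6c_fl_S]; exact hi
    rw [D6c_fl_self hi, D6c_fl_self hi']
  · have hi' : i ∉ (fl j b).S := by rw [D6c_fl_S]; exact hi
    by_cases hj : j ∈ b.S
    · have hj' : j ∈ (fl i b).S := by rw [D6c_fl_S]; exact hj
      rw [D6c_fl_self hj, D6c_fl_self hj']
    · have hj' : j ∉ (fl i b).S := by rw [D6c_fl_S]; exact hj
      apply Bs.ext
      · rw [D6c_fl_F hi', D6c_fl_F hj', D6c_fl_F hi, D6c_fl_F hj, tg_comm]
      · simp only [D6c_fl_S]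

omit [Group Γ] [MulAction Γ I] in
theorem D6c_Jw_fl {i j : I} (h : i ≠ j) (b : Bs I) : Jw i (fl j b) = Jw i b := by
  by_cases hj : j ∈ b.S
  · rw [D6c_fl_self hj]
  · unfold Jw
    rw [D6c_fl_S, D6c_fl_F hj]
    have h1 : i ∈ tg j b.F ↔ i ∈ b.F := by
      rw [mem_tg]
      simp [h]
    simp only [h1]

omit [Group Γ] [MulAction Γ I] in
theorem D6c_comm {i j : I} (h : i ≠ j) :
    Commute (Ni i : BL (Bs I)) (Ni j) ∧ Commute (Ni i : BL (Bs I)) (Ji j) ∧
      Commute (Ji i : BL (Bs I)) (Ni j) ∧ Commute (Ji i : BL (Bs I)) (Ji j) := by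
  have key : ∀ i j : I, Commute (Ni i : BL (Bs I)) (Ji j) := by
    intro i j
    refine ContinuousLinearMap.ext fun ξ => ?_
    ext b
    show (Ni i (Ji j ξ) : Bs I → ℂ) b = (Ji j (Ni i ξ) : Bs I → ℂ) b
    rw [Ni_apply, Ji_apply, Ji_apply, Ni_apply, D6c_fl_S]
    split_ifs <;> simp
  refine ⟨?_, key i j, (key j i).symm, ?_⟩
  · refine ContinuousLinearMap.ext fun ξ => ?_
    ext b
    show (Ni i (Ni j ξ) : Bs I → ℂ) b = (Ni j (Ni i ξ) : Bs I → ℂ) b
    rw [Ni_apply, Ni_apply, Ni_apply, Ni_apply]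
    split_ifs <;> rfl
  · refine ContinuousLinearMap.ext fun ξ => ?_
    ext b
    show (Ji i (Ji j ξ) : Bs I → ℂ) b = (Ji j (Ji i ξ) : Bs I → ℂ) b
    rw [Ji_apply, Ji_apply, Ji_apply, Ji_apply, D6c_Jw_fl h.symm, D6c_Jw_fl h, D6c_fl_comm]
    ring

omit [Group Γ] [MulAction Γ I] in
/-- PROOF: for `i ≠ j`: `Ni i`, `Ni j`, `Ji i`, `Ji j` commute (coordinates: `fl i (fl j b) = fl j (fl i b)`,
`tg_comm`). For `i = j`: `Ui_mul`, commutativity of the addition. -/
theorem Ui_comm (i j : I) (φ φ' : ℝ) : Commute (Ui i φ) (Ui j φ') := by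
  by_cases h : i = j
  · subst h
    show Ui i φ * Ui i φ' = Ui i φ' * Ui i φ
    rw [Ui_mul, Ui_mul, add_comm]
  · obtain ⟨h1, h2, h3, h4⟩ := D6c_comm h
    unfold Ui
    refine Commute.add_left (Commute.add_left (Commute.one_left _) ?_) ?_
    · refine Commute.smul_left (Commute.add_right (Commute.add_right (Commute.one_right _) ?_) ?_) _
      · exact h1.smul_right _
      · exact h2.smul_right _
    · refine Commute.smul_left (Commute.add_right (Commute.add_right (Commute.one_right _) ?_) ?_) _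
      · exact h3.smul_right _
      · exact h4.smul_right _

end Pool.Agent.Lib.MP_aa9b81_an.Hs
end

end
end

section

/-!
# Hereditary shifts, part D7a: rotations at finitely many sites
-/

open scoped ENNReal Topology
open Function

noncomputable section

namespace Pool.Agent.Lib.MP_aa9b81_an.Hs

open Cut

variable {Γ I : Type} [Group Γ] [MulAction Γ I] [DecidableEq I]

omit [Group Γ] [MulAction Γ I] in
/-- The rotation at the site `i` as a unit. -/
def Uu (i : I) (φ : ℝ) : (BL (Bs I))ˣ :=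
  ⟨Ui i φ, Ui i (-φ), by rw [Ui_mul, add_neg_cancel, Ui_zero], by
    rw [Ui_mul, neg_add_cancel, Ui_zero]⟩

omit [Group Γ] [MulAction Γ I] in
theorem Uu_pair (K : Finset I) (φ : ℝ) :
    (K : Set I).Pairwise (Commute on fun i => Uu i φ) :=
  fun i _ j _ _ => Units.ext (Ui_comm i j φ φ)

omit [Group Γ] [MulAction Γ I] in
/-- The rotation at the sites of the finite set `K`. -/
def UK (K : Finset I) (φ : ℝ) : (BL (Bs I))ˣ := K.noncommProd (fun i => Uu i φ) (Uu_pair K φ)

omit [Group Γ] [MulAction Γ I] in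
theorem UK_empty (φ : ℝ) : UK (∅ : Finset I) φ = 1 := by
  rw [UK, Finset.noncommProd_empty]

omit [Group Γ] [MulAction Γ I] in
/-- PROOF: `Finset.noncommProd_insert_of_notMem`. -/
theorem UK_insert {i : I} {K : Finset I} (h : i ∉ K) (φ : ℝ) :
    UK (insert i K) φ = Uu i φ * UK K φ := by
  unfold UK
  rw [Finset.noncommProd_insert_of_notMem _ _ _ _ h]

omit [Group Γ] [MulAction Γ I] in
theorem D7a_norm_mul_le {x y : BL (Bs I)} (hx : ‖x‖ ≤ 1) (hy : ‖y‖ ≤ 1) : ‖x * y‖ ≤ 1 :=
  (norm_mul_le _ _).trans (by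
    have := mul_le_mul hx hy (norm_nonneg _) zero_le_one
    simpa using this)

omit [Group Γ] [MulAction Γ I] in
/-- PROOF: induction on `K` (`UK_insert`), `norm_Ui_le`. -/
theorem norm_UK_le (K : Finset I) (φ : ℝ) : ‖(UK K φ : BL (Bs I))‖ ≤ 1 := by
  classical
  induction K using Finset.induction_on with
  | empty =>
    rw [UK_empty, Units.val_one]
    exact ContinuousLinearMap.norm_id_le
  | insert i K hi ih =>
    rw [UK_insert hi, Units.val_mul]
    exact D7a_norm_mul_le (norm_Ui_le i φ) ih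

omit [Group Γ] [MulAction Γ I] in
/-- PROOF: as `norm_UK_le`; the inverse of `Uu i φ` is `Ui i (-φ)`. -/
theorem norm_UK_inv_le (K : Finset I) (φ : ℝ) : ‖((UK K φ)⁻¹ : (BL (Bs I))ˣ).val‖ ≤ 1 := by
  classical
  induction K using Finset.induction_on with
  | empty =>
    rw [UK_empty, inv_one, Units.val_one]
    exact ContinuousLinearMap.norm_id_le
  | insert i K hi ih =>
    rw [UK_insert hi, mul_inv_rev, Units.val_mul]
    exact D7a_norm_mul_le ih (norm_Ui_le i (-φ))

omit [Group Γ] [MulAction Γ I] in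
/-- PROOF: induction on `K` (`UK_insert`), `Commute.mul_left`. -/
theorem UK_comm {K : Finset I} {φ : ℝ} {X : BL (Bs I)} (h : ∀ i ∈ K, Commute (Ui i φ) X) :
    Commute (UK K φ : BL (Bs I)) X := by
  classical
  induction K using Finset.induction_on with
  | empty =>
    rw [UK_empty, Units.val_one]
    exact Commute.one_left X
  | insert i K hi ih =>
    rw [UK_insert hi, Units.val_mul]
    exact Commute.mul_left (h i (Finset.mem_insert_self i K))
      (ih fun j hj => h j (Finset.mem_insert_of_mem hj))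

omit [Group Γ] [MulAction Γ I] in
/-- PROOF: `Commute.units_inv_left`. -/
theorem UK_inv_comm {K : Finset I} {φ : ℝ} {X : BL (Bs I)} (h : ∀ i ∈ K, Commute (Ui i φ) X) :
    Commute ((UK K φ)⁻¹ : (BL (Bs I))ˣ).val X :=
  Commute.units_inv_left (UK_comm h)

end Pool.Agent.Lib.MP_aa9b81_an.Hs
end
end

section

/-!
# Hereditary shifts, part M0a: multipliers of a subalgebra
-/

open scoped ENNReal Topology ZeroAtInfty
open Function Filter

noncomputable section

namespace Pool.Agent.Lib.MP_aa9b81_an.Hs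

open Cut

variable {R : Type} [NormedRing R] [NormedAlgebra ℂ R]

/-- `m` multiplies the subalgebra `A` into itself, from both sides. -/
def IsMul (A : NonUnitalSubalgebra ℂ R) (m : R) : Prop := ∀ a ∈ A, m * a ∈ A ∧ a * m ∈ A

variable {A : NonUnitalSubalgebra ℂ R}

theorem IsMul.one : IsMul A (1 : R) := fun a ha => by simpa using ha

theorem IsMul.of_mem {m : R} (h : m ∈ A) : IsMul A m := fun _ ha => ⟨mul_mem h ha, mul_mem ha h⟩

theorem IsMul.add {m m' : R} (h : IsMul A m) (h' : IsMul A m') : IsMul A (m + m') := by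
  intro a ha
  rw [add_mul, mul_add]
  exact ⟨add_mem (h a ha).1 (h' a ha).1, add_mem (h a ha).2 (h' a ha).2⟩

theorem IsMul.sub {m m' : R} (h : IsMul A m) (h' : IsMul A m') : IsMul A (m - m') := by
  intro a ha
  rw [sub_mul, mul_sub]
  exact ⟨sub_mem (h a ha).1 (h' a ha).1, sub_mem (h a ha).2 (h' a ha).2⟩

theorem IsMul.smul {m : R} (z : ℂ) (h : IsMul A m) : IsMul A (z • m) := by
  intro a ha
  rw [smul_mul_assoc, mul_smul_comm]
  exact ⟨SMulMemClass.smul_mem z (h a ha).1, SMulMemClass.smul_mem z (h a ha).2⟩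

/-- PROOF: associativity. -/
theorem IsMul.mul {m m' : R} (h : IsMul A m) (h' : IsMul A m') : IsMul A (m * m') := by
  intro a ha
  rw [mul_assoc, ← mul_assoc a m m']
  exact ⟨(h _ (h' a ha).1).1, (h' _ (h a ha).2).2⟩

/-- PROOF: `A` is closed and the multiplication is continuous: for `a ∈ A` the element `m * a` is a limit of
elements `m' * a` with `m'` a multiplier (`‖m a - m' a‖ ≤ ‖m - m'‖ ‖a‖`). `Metric.mem_closure_iff`,
`IsClosed.closure_eq`. -/
theorem IsMul.of_limit (hA : IsClosed (A : Set R)) {m : R}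
    (h : ∀ ε : ℝ, 0 < ε → ∃ m', IsMul A m' ∧ ‖m - m'‖ ≤ ε) : IsMul A m := by
  intro a ha
  have key : ∀ ε : ℝ, 0 < ε → ∃ m', IsMul A m' ∧ ‖m - m'‖ * ‖a‖ < ε := by
    intro ε hε
    have hpos : 0 < ‖a‖ + 1 := by positivity
    obtain ⟨m', h1, h2⟩ := h (ε / (2 * (‖a‖ + 1))) (by positivity)
    refine ⟨m', h1, ?_⟩
    calc ‖m - m'‖ * ‖a‖ ≤ ε / (2 * (‖a‖ + 1)) * (‖a‖ + 1) :=
          mul_le_mul h2 (by linarith) (norm_nonneg a) (by positivity)
      _ = ε / 2 := by
          field_simp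
      _ < ε := by linarith
  constructor
  · rw [← SetLike.mem_coe, ← hA.closure_eq, Metric.mem_closure_iff]
    intro ε hε
    obtain ⟨m', h1, h2⟩ := key ε hε
    refine ⟨m' * a, (h1 a ha).1, ?_⟩
    rw [dist_eq_norm, ← sub_mul]
    exact lt_of_le_of_lt (norm_mul_le _ _) h2
  · rw [← SetLike.mem_coe, ← hA.closure_eq, Metric.mem_closure_iff]
    intro ε hε
    obtain ⟨m', h1, h2⟩ := key ε hε
    refine ⟨a * m', (h1 a ha).2, ?_⟩
    rw [dist_eq_norm, ← mul_sub]
    refine lt_of_le_of_lt (norm_mul_le _ _) ?_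
    rwa [mul_comm]

end Pool.Agent.Lib.MP_aa9b81_an.Hs
end
end

section

/-!
# Hereditary shifts, part M1a: matrix units, the compact operators of the module
-/

open scoped ENNReal Topology ZeroAtInfty
open Function Filter

noncomputable section

namespace Pool.Agent.Lib.MP_aa9b81_an.Hs

open Cut

section Abstract

variable {R : Type} [NormedRing R] [NormedAlgebra ℂ R]

/-- PROOF: the set of the `a` with `m * a ∈ A` and `a * m ∈ A`, `A` the closure of the algebra generated by `S`,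
contains `S`, is closed under sums and scalars, and under products with elements of `A` (`m * (x * y) =
(m * x) * y`, `(x * y) * m = x * (y * m)`), so it contains the algebra (`NonUnitalAlgebra.adjoin_induction`,
`NonUnitalAlgebra.subset_adjoin`, `NonUnitalSubalgebra.le_topologicalClosure`), and it is closed
(`map_mem_closure`-like: continuity of the multiplication). -/
theorem isMul_of_gen {S : Set R} {m : R}
    (h : ∀ a ∈ S, m * a ∈ (NonUnitalAlgebra.adjoin ℂ S).topologicalClosure ∧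
      a * m ∈ (NonUnitalAlgebra.adjoin ℂ S).topologicalClosure) :
    IsMul (NonUnitalAlgebra.adjoin ℂ S).topologicalClosure m := by
  have hle : ∀ x ∈ NonUnitalAlgebra.adjoin ℂ S,
      x ∈ (NonUnitalAlgebra.adjoin ℂ S).topologicalClosure :=
    fun x hx => NonUnitalSubalgebra.le_topologicalClosure _ hx
  have h1 : ∀ x ∈ NonUnitalAlgebra.adjoin ℂ S,
      m * x ∈ (NonUnitalAlgebra.adjoin ℂ S).topologicalClosure ∧
        x * m ∈ (NonUnitalAlgebra.adjoin ℂ S).topologicalClosure := by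
    intro x hx
    induction hx using NonUnitalAlgebra.adjoin_induction with
    | mem x hx => exact h x hx
    | add x y _ _ hx hy =>
      rw [mul_add, add_mul]
      exact ⟨add_mem hx.1 hy.1, add_mem hx.2 hy.2⟩
    | zero =>
      rw [mul_zero, zero_mul]
      exact ⟨zero_mem _, zero_mem _⟩
    | mul x y hx' hy' hx hy =>
      refine ⟨?_, ?_⟩
      · rw [← mul_assoc]
        exact mul_mem hx.1 (hle y hy')
      · rw [mul_assoc]
        exact mul_mem (hle x hx') hy.2
    | smul r x _ hx =>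
      rw [mul_smul_comm, smul_mul_assoc]
      exact ⟨SMulMemClass.smul_mem r hx.1, SMulMemClass.smul_mem r hx.2⟩
  have hcl : IsClosed ((NonUnitalAlgebra.adjoin ℂ S).topologicalClosure : Set R) :=
    NonUnitalSubalgebra.isClosed_topologicalClosure _
  have h2 : IsClosed {x : R | m * x ∈ (NonUnitalAlgebra.adjoin ℂ S).topologicalClosure ∧
      x * m ∈ (NonUnitalAlgebra.adjoin ℂ S).topologicalClosure} :=
    IsClosed.inter (hcl.preimage (continuous_const_mul m))
      (hcl.preimage (continuous_mul_const m))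
  intro a ha
  exact closure_minimal (s := (NonUnitalAlgebra.adjoin ℂ S : Set R)) h1 h2 ha

end Abstract

variable {Γ B P : Type} [Group Γ] [MulAction Γ B] [Nonempty B]

open Classical in
omit [Group Γ] [MulAction Γ B] [Nonempty B] in
/-- The matrix unit: `(E ξ)(b) = ξ(b')`, and `0` at the other points. -/
def Eu (b b' : B) : BL B := wop (fun _ => b') fun a => if a = b then 1 else 0

omit [Group Γ] [MulAction Γ B] [Nonempty B] in
open Classical in
private lemma M1a_wok (b b' : B) :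
    WOK (fun _ : B => b') (fun a => if a = b then (1 : ℂ) else 0) 1 := by
  refine ⟨zero_le_one, fun q => ?_, fun q₁ q₂ h1 h2 _ => ?_⟩
  · split_ifs <;> simp
  · have e1 : q₁ = b := by
      by_contra h
      exact h1 (if_neg h)
    have e2 : q₂ = b := by
      by_contra h
      exact h2 (if_neg h)
    rw [e1, e2]

omit [Group Γ] [MulAction Γ B] [Nonempty B] in
open Classical in
/-- PROOF: `wop_apply` (the support of the weight is one point). -/
theorem Eu_apply (b b' : B) (ξ : L2 B) (a : B) :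
    (Eu b b' ξ : B → ℂ) a = if a = b then (ξ : B → ℂ) b' else 0 := by
  rw [Eu, wop_apply (M1a_wok b b')]
  split_ifs
  · rw [one_mul]
  · rw [zero_mul]

omit [Group Γ] [MulAction Γ B] [Nonempty B] in
/-- PROOF: `norm_wop_le`: the support of the weight is one point. -/
theorem norm_Eu_le (b b' : B) : ‖(Eu b b' : BL B)‖ ≤ 1 :=
  norm_wop_le (M1a_wok b b')

omit [Group Γ] [MulAction Γ B] [Nonempty B] in
open Classical in
/-- The basis vector. -/
def bv (b : B) : L2 B := lp.single 2 b (1 : ℂ)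

omit [Group Γ] [MulAction Γ B] [Nonempty B] in
/-- The matrix entries of an operator. -/
def ker (X : BL B) (b b' : B) : ℂ := (X (bv b') : B → ℂ) b

end Pool.Agent.Lib.MP_aa9b81_an.Hs
end
end
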