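import Pool.Agent.Lib.MP_aa9b81_an.Mg.G007
import Pool.Agent.Lib.MP_aa9b81_an.Mg.G074
import Pool.Agent.Lib.MP_aa9b81_an.Mg.G078
import Pool.Agent.Lib.MP_aa9b81_an.Mg.G073

section

/-!
# Hereditary shifts, part R2: involutions act trivially on K-theory
-/

open scoped ENNReal Topology ZeroAtInfty
open Function

noncomputable section

namespace Pool.Agent.Lib.MP_aa9b81_an.Hs

open Cut

variable {Γ P : Type} [Group Γ] [TopologicalSpace P] [MulAction Γ P] [ContinuousConstSMul Γ P]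

/-- PROOF: `s` = the unit `sw h` (`sw_mul_sw`); `extUnit (co _) u = s u s⁻¹` by `co_eq_sw`:
`1 + s (u - 1) s = s u s`; `conj_involution`, `isMul_sw`. -/
theorem involution_mem_E1 {σ : ℕ → ℕ} (h : Involutive σ) {u : (Fam Γ P)ˣ} (hu : u ∈ GL1 (cp Γ P)) :
    u⁻¹ * extUnit (co h.injective) u ∈ E1 (cp Γ P) := by
  have hs := sw_mul_sw (Γ := Γ) (P := P) h
  obtain ⟨s, hs1⟩ : ∃ s : (Fam Γ P)ˣ, (s : Fam Γ P) = sw h := ⟨⟨sw h, sw h, hs, hs⟩, rfl⟩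
  have hs2 : (s : Fam Γ P) * s = 1 := by rw [hs1]; exact hs
  have hs3 : s⁻¹ = s := by
    rw [inv_eq_iff_mul_eq_one]
    exact Units.ext hs2
  have h1 := conj_involution hs2 (by rw [hs1]; exact isMul_sw h) hu
  have h2 : extUnit (co h.injective) u = s * u * s⁻¹ := by
    apply Units.ext
    show 1 + co h.injective ((u : Fam Γ P) - 1) = ((s * u * s⁻¹ : (Fam Γ P)ˣ) : Fam Γ P)
    rw [hs3, Units.val_mul, Units.val_mul, co_eq_sw h, ← hs1, mul_sub, sub_mul, mul_one, hs2]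
    abel
  rw [h2]
  exact h1

end Pool.Agent.Lib.MP_aa9b81_an.Hs
end
end

section

/-!
# Hereditary shifts, part R3a: corners act trivially on K-theory
-/

open scoped ENNReal Topology ZeroAtInfty
open Function

noncomputable section

namespace Pool.Agent.Lib.MP_aa9b81_an.Hs

open Cut

variable {Γ P : Type} [Group Γ] [TopologicalSpace P] [MulAction Γ P]

variable (Γ P) in
/-- The elements of `cp` which live on the coordinates `k < N`. -/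
def cpN (N : ℕ) : NonUnitalSubalgebra ℂ (Fam Γ P) where
  carrier := {a | a ∈ cp Γ P ∧ (∀ p ξ (s : Γ) k, N ≤ k → (a p ξ : Γ × ℕ → ℂ) (s, k) = 0) ∧
    ∀ p (ξ ξ' : Hil Γ), (∀ (s : Γ) k, k < N → (ξ : Γ × ℕ → ℂ) (s, k) = ξ' (s, k)) →
      a p ξ = a p ξ'}
  mul_mem' := by
    rintro a b ⟨h1, h2, h3⟩ ⟨h4, h5, h6⟩
    refine ⟨mul_mem h1 h4, fun p ξ s k hk => h2 p (b p ξ) s k hk, fun p ξ ξ' h => ?_⟩
    change a p (b p ξ) = a p (b p ξ')
    rw [h6 p ξ ξ' h]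
  add_mem' := by
    rintro a b ⟨h1, h2, h3⟩ ⟨h4, h5, h6⟩
    refine ⟨add_mem h1 h4, fun p ξ s k hk => ?_, fun p ξ ξ' h => ?_⟩
    · rw [Fam.add_apply]
      change (a p ξ : Γ × ℕ → ℂ) (s, k) + (b p ξ : Γ × ℕ → ℂ) (s, k) = 0
      rw [h2 p ξ s k hk, h5 p ξ s k hk, add_zero]
    · rw [Fam.add_apply]
      change a p ξ + b p ξ = a p ξ' + b p ξ'
      rw [h3 p ξ ξ' h, h6 p ξ ξ' h]
  zero_mem' := ⟨zero_mem _, fun _ _ _ _ _ => rfl, fun _ _ _ _ => rfl⟩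
  smul_mem' := by
    rintro z a ⟨h1, h2, h3⟩
    refine ⟨SMulMemClass.smul_mem z h1, fun p ξ s k hk => ?_, fun p ξ ξ' h => ?_⟩
    · rw [Fam.smul_apply]
      change z * (a p ξ : Γ × ℕ → ℂ) (s, k) = 0
      rw [h2 p ξ s k hk, mul_zero]
    · rw [Fam.smul_apply]
      change z • a p ξ = z • a p ξ'
      rw [h3 p ξ ξ' h]

omit [TopologicalSpace P] [MulAction Γ P] in
private lemma R3a_continuous_apply (p : P) (ξ : Hil Γ) : Continuous fun a : Fam Γ P => a p ξ := by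
  refine (LipschitzWith.of_dist_le_mul (K := ⟨‖ξ‖, norm_nonneg _⟩) fun a b => ?_).continuous
  rw [dist_eq_norm, dist_eq_norm]
  change ‖a p ξ - b p ξ‖ ≤ ‖ξ‖ * ‖a - b‖
  have h1 : a p ξ - b p ξ = (a - b) p ξ := by
    rw [Fam.sub_apply]
    rfl
  rw [h1, mul_comm]
  exact (ContinuousLinearMap.le_opNorm _ _).trans
    (mul_le_mul_of_nonneg_right (Fam.norm_apply_le _ _) (norm_nonneg _))

omit [Group Γ] in
private lemma R3a_continuous_coord (q : Γ × ℕ) : Continuous fun ξ : Hil Γ => (ξ : Γ × ℕ → ℂ) q := by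
  refine (LipschitzWith.of_dist_le_mul (K := 1) fun a b => ?_).continuous
  rw [dist_eq_norm, dist_eq_norm, NNReal.coe_one, one_mul]
  exact lp.norm_apply_le_norm (by norm_num) (a - b) q

/-- PROOF: the conditions are closed: `‖a_p ξ - b_p ξ‖ ≤ ‖a - b‖ ‖ξ‖` and the coordinates are continuous;
`Cut.isClosed_cp`. -/
theorem isClosed_cpN (N : ℕ) : IsClosed (cpN Γ P N : Set (Fam Γ P)) := by
  have h1 : (cpN Γ P N : Set (Fam Γ P)) = (cp Γ P : Set (Fam Γ P)) ∩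
      ({a | ∀ p ξ (s : Γ) k, N ≤ k → (a p ξ : Γ × ℕ → ℂ) (s, k) = 0} ∩
      {a | ∀ p (ξ ξ' : Hil Γ), (∀ (s : Γ) k, k < N → (ξ : Γ × ℕ → ℂ) (s, k) = ξ' (s, k)) →
        a p ξ = a p ξ'}) := rfl
  rw [h1]
  refine isClosed_cp.inter (IsClosed.inter ?_ ?_)
  · simp only [Set.ofPred_forall]
    refine isClosed_iInter fun p => isClosed_iInter fun ξ => isClosed_iInter fun s =>
      isClosed_iInter fun k => isClosed_iInter fun _ => ?_
    exact isClosed_eq ((R3a_continuous_coord (s, k)).comp (R3a_continuous_apply p ξ))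
      continuous_const
  · simp only [Set.ofPred_forall]
    refine isClosed_iInter fun p => isClosed_iInter fun ξ => isClosed_iInter fun ξ' =>
      isClosed_iInter fun _ => ?_
    exact isClosed_eq (R3a_continuous_apply p ξ) (R3a_continuous_apply p ξ')

theorem cpN_le (N : ℕ) : cpN Γ P N ≤ cp Γ P := fun _ h => h.1

/-- PROOF: `Cut.exists_val_near`: `val l` is in `cpN N` if all the indices `d.i`, `d.j` are `< N`
(`Cut.gen_apply`). -/
theorem exists_cpN_near [ContinuousConstSMul Γ P] {a : Fam Γ P} (ha : a ∈ cp Γ P) {ε : ℝ}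
    (hε : 0 < ε) : ∃ N, ∀ N', N ≤ N' → ∃ b ∈ cpN Γ P N', ‖a - b‖ < ε := by
  obtain ⟨l, -, hl⟩ := exists_val_near ha hε
  have key : ∀ l : List (Dat Γ P), ∃ N, ∀ N', N ≤ N' → val l ∈ cpN Γ P N' := by
    intro l
    induction l with
    | nil => exact ⟨0, fun N' _ => by rw [val_nil]; exact zero_mem _⟩
    | cons d l ih =>
      obtain ⟨N, hN⟩ := ih
      refine ⟨max N (max d.i d.j + 1), fun N' hN' => ?_⟩
      rw [val_cons]
      refine add_mem ⟨?_, ?_, ?_⟩ (hN N' (by omega))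
      · have := val_mem [d]
        rwa [val_cons, val_nil, add_zero] at this
      · intro p ξ s k hk
        show (gen d.f d.g d.i d.j p ξ : Γ × ℕ → ℂ) (s, k) = 0
        rw [gen_apply, if_neg (by omega)]
      · intro p ξ ξ' h
        apply lp.ext
        funext q
        obtain ⟨s, k⟩ := q
        show (gen d.f d.g d.i d.j p ξ : Γ × ℕ → ℂ) (s, k) = (gen d.f d.g d.i d.j p ξ' : Γ × ℕ → ℂ) (s, k)
        rw [gen_apply, gen_apply, h _ d.j (by omega)]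
  obtain ⟨N, hN⟩ := key l
  exact ⟨N, fun N' hN' => ⟨val l, hN N' hN', hl⟩⟩

end Pool.Agent.Lib.MP_aa9b81_an.Hs
end
end

section

/-!
# Hereditary shifts, part R3: corners act trivially on K-theory
-/

open scoped ENNReal Topology ZeroAtInfty
open Function

noncomputable section

namespace Pool.Agent.Lib.MP_aa9b81_an.Hs

open Cut

variable {Γ P : Type} [Group Γ] [TopologicalSpace P] [MulAction Γ P]

/-- PROOF: coordinates (`co_coord`, `co_coord_of_notMem`). Let `k ∈ ℕ`. If `k = ρ m`, `m < N`, then `k = ρ' m`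
and both sides are `(a_p (pr ρ ξ))(s, m) = (a_p (pr ρ' ξ))(s, m)` (the two vectors agree for the coordinates
`< N`). If `k = ρ m` with `m ≥ N`: `0`, by the first condition of `cpN`, same for `ρ'`; and `0` if `k` is not in
the range. -/
theorem co_eq_of_agree {ρ ρ' : ℕ → ℕ} (h : Injective ρ) (h' : Injective ρ') {N : ℕ}
    (e : ∀ k < N, ρ k = ρ' k) {a : Fam Γ P} (ha : a ∈ cpN Γ P N) : co h a = co h' a := by
  obtain ⟨-, h1, h2⟩ := ha
  have key : ∀ {ρ ρ' : ℕ → ℕ} (h : Injective ρ) (h' : Injective ρ'), (∀ k < N, ρ k = ρ' k) →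
      ∀ (p : P) (ξ : Hil Γ) (s : Γ) (k : ℕ), (∃ m, m < N ∧ ρ m = k) →
      (co h a p ξ : Γ × ℕ → ℂ) (s, k) = (co h' a p ξ : Γ × ℕ → ℂ) (s, k) := by
    rintro ρ ρ' h h' e p ξ s k ⟨m, hm, rfl⟩
    rw [co_coord h, e m hm, co_coord h', h2 p (pr ρ ξ) (pr ρ' ξ)]
    intro s' k' hk'
    rw [pr_apply h, pr_apply h', e k' hk']
  have zero : ∀ {ρ : ℕ → ℕ} (h : Injective ρ) (p : P) (ξ : Hil Γ) (s : Γ) (k : ℕ),
      (¬ ∃ m, m < N ∧ ρ m = k) → (co h a p ξ : Γ × ℕ → ℂ) (s, k) = 0 := by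
    intro ρ h p ξ s k hk
    by_cases hk2 : ∃ m, ρ m = k
    · obtain ⟨m, rfl⟩ := hk2
      rw [co_coord h]
      refine h1 _ _ _ _ ?_
      by_contra hlt
      exact hk ⟨m, not_le.1 hlt, rfl⟩
    · exact co_coord_of_notMem h a p ξ s fun m hm => hk2 ⟨m, hm⟩
  apply Fam.ext
  intro p
  refine ContinuousLinearMap.ext fun ξ => ?_
  apply lp.ext
  funext q
  obtain ⟨s, k⟩ := q
  by_cases hk : ∃ m, m < N ∧ ρ m = k
  · exact key h h' e p ξ s k hk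
  · have hk' : ¬ ∃ m, m < N ∧ ρ' m = k := by
      rintro ⟨m, hm, hmk⟩
      exact hk ⟨m, hm, by rw [e m hm, hmk]⟩
    exact (zero h p ξ s k hk).trans (zero h' p ξ s k hk').symm

end Pool.Agent.Lib.MP_aa9b81_an.Hs
end
end

section

/-!
# Hereditary shifts, part R4b: corners act trivially on K-theory, conclusion
-/

open scoped ENNReal Topology ZeroAtInfty
open Function

noncomputable section

namespace Pool.Agent.Lib.MP_aa9b81_an.Hs

open Cut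

variable {Γ P : Type} [Group Γ] [TopologicalSpace P] [MulAction Γ P]

/-- PROOF: `em (ρ' ∘ ρ) = em ρ' * em ρ`, `pr (ρ' ∘ ρ) = pr ρ * pr ρ'` (coordinates). -/
theorem co_comp {ρ ρ' : ℕ → ℕ} (h : Injective ρ) (h' : Injective ρ') (a : Fam Γ P) :
    co (h'.comp h) a = co h' (co h a) := by
  apply Fam.ext
  intro p
  refine ContinuousLinearMap.ext fun ξ => ?_
  apply lp.ext
  funext q
  obtain ⟨s, k⟩ := q
  by_cases hk : ∃ j, ρ' j = k
  · obtain ⟨j, rfl⟩ := hk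
    rw [co_coord h' (co h a)]
    by_cases hj : ∃ m, ρ m = j
    · obtain ⟨m, rfl⟩ := hj
      have h1 := co_coord (h'.comp h) a p ξ s m
      rw [comp_apply] at h1
      rw [h1, co_coord h]
      have h2 : pr (ρ' ∘ ρ) ξ = pr ρ (pr ρ' ξ) := by
        apply lp.ext
        funext q
        obtain ⟨s', k'⟩ := q
        rw [pr_apply (h'.comp h), pr_apply h, pr_apply h', comp_apply]
      rw [h2]
    · rw [co_coord_of_notMem h a p _ s fun m hm => hj ⟨m, hm⟩]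
      exact co_coord_of_notMem (h'.comp h) a p ξ s fun m hm => hj ⟨m, h' hm⟩
  · rw [co_coord_of_notMem h' (co h a) p ξ s fun m hm => hk ⟨m, hm⟩]
    exact co_coord_of_notMem (h'.comp h) a p ξ s fun m hm => hk ⟨ρ m, hm⟩

variable [ContinuousConstSMul Γ P]

/-- PROOF: choose `M ≥ N` with `ρ k < M` for `k < N`, `σ` (`exists_invol`), `τ` (`exists_invol'`). On
`cpN Γ P N`: `co σ = co τ ∘ co ρ` by `co_eq_of_agree` (`τ (ρ k) = k + M = σ k`) and `co_comp`, so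
`extUnit (co σ) v = extUnit (co τ) (extUnit (co ρ) v) =: w`. By `involution_mem_E1` `v⁻¹ w ∈ E1` and
`(extUnit (co ρ) v)⁻¹ w ∈ E1` (`extUnit (co ρ) v ∈ GL1` by `extUnit_mem_GL1`, `co_mem_cp`). So
`v⁻¹ * extUnit (co ρ) v = (v⁻¹ w) ((extUnit (co ρ) v)⁻¹ w)⁻¹ ∈ E1`. -/
theorem rotation_cpN {ρ : ℕ → ℕ} (h : Injective ρ) {N : ℕ} {v : (Fam Γ P)ˣ}
    (hv : v ∈ GL1 (cpN Γ P N)) : v⁻¹ * extUnit (co h) v ∈ E1 (cp Γ P) := by
  have hv' : v ∈ GL1 (cp Γ P) := ⟨cpN_le N hv.1, cpN_le N hv.2⟩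
  have hM : ∃ M, N ≤ M ∧ ∀ k < N, ρ k < M := by
    refine ⟨N + (Finset.range N).sup ρ + 1, by omega, fun k hk => ?_⟩
    have := Finset.le_sup (f := ρ) (Finset.mem_range.2 hk)
    omega
  obtain ⟨M, hNM, hM⟩ := hM
  obtain ⟨σ, hσ, hσ2⟩ := exists_invol N M hNM
  obtain ⟨τ, hτ, hτ2⟩ := exists_invol' h N M hM
  have key : ∀ a ∈ cpN Γ P N, co hσ.injective a = co hτ.injective (co h a) := by
    intro a ha
    rw [← co_comp h hτ.injective]
    exact co_eq_of_agree hσ.injective (hτ.injective.comp h)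
      (fun k hk => by rw [comp_apply, hσ2 k hk, hτ2 k hk]) ha
  have e : extUnit (co hσ.injective) v = extUnit (co hτ.injective) (extUnit (co h) v) := by
    apply Units.ext
    show 1 + co hσ.injective ((v : Fam Γ P) - 1)
      = 1 + co hτ.injective ((1 + co h ((v : Fam Γ P) - 1)) - 1)
    rw [add_sub_cancel_left, key _ hv.1]
  have h1 := involution_mem_E1 hσ hv'
  have h2 := involution_mem_E1 hτ (extUnit_mem_GL1 (co_mem_cp h) hv')
  rw [← e] at h2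
  have h3 := mul_mem h1 (inv_mem h2)
  have h4 : v⁻¹ * extUnit (co hσ.injective) v *
      ((extUnit (co h) v)⁻¹ * extUnit (co hσ.injective) v)⁻¹ = v⁻¹ * extUnit (co h) v := by group
  rwa [h4] at h3

end Pool.Agent.Lib.MP_aa9b81_an.Hs
end
end

section

/-!
# Hereditary shifts, part R4: corners act trivially on K-theory, conclusion
-/

open scoped ENNReal Topology ZeroAtInfty
open Function

noncomputable section

namespace Pool.Agent.Lib.MP_aa9b81_an.Hs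

open Cut

private lemma R4_near_unit {B : Type} [NormedRing B] [NormedAlgebra ℂ B] [CompleteSpace B]
    {A : NonUnitalSubalgebra ℂ B} {u : Bˣ} (hu : u ∈ GL1 A) :
    ∃ η : ℝ, 0 < η ∧ ∀ A₀ : NonUnitalSubalgebra ℂ B, IsClosed (A₀ : Set B) → A₀ ≤ A →
      ∀ b ∈ A₀, ∀ c ∈ A₀, ‖(u : B) - 1 - b‖ < η →
      ‖((u⁻¹ : Bˣ) : B) - 1 - c‖ < η → ∃ v ∈ GL1 A₀, (v : B) = 1 + b ∧ u⁻¹ * v ∈ E1 A := by
  set b' : B := (u : B) - 1 with hb'
  set c' : B := ((u⁻¹ : Bˣ) : B) - 1 with hc'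
  have z1 : b' + c' + b' * c' = 0 := by
    have : b' + c' + b' * c' = (u : B) * ((u⁻¹ : Bˣ) : B) - 1 := by
      rw [hb', hc']; noncomm_ring
    rw [this, Units.mul_inv, sub_self]
  have z2 : c' + b' + c' * b' = 0 := by
    have : c' + b' + c' * b' = ((u⁻¹ : Bˣ) : B) * (u : B) - 1 := by
      rw [hb', hc']; noncomm_ring
    rw [this, Units.inv_mul, sub_self]
  set M : ℝ := 3 + ‖b'‖ + ‖c'‖ + ‖((u⁻¹ : Bˣ) : B)‖ with hM
  have hM3 : 3 ≤ M := by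
    rw [hM]
    have := norm_nonneg b'
    have := norm_nonneg c'
    have := norm_nonneg ((u⁻¹ : Bˣ) : B)
    linarith
  have hM0 : 0 < M := by linarith
  refine ⟨1 / M, by positivity, fun A₀ hA₀ hle b hb c hc hbn hcn => ?_⟩
  have hη1 : 1 / M ≤ 1 := by rw [div_le_one hM0]; linarith
  have hkey : ∀ x x' y y' : B, x' + y' + x' * y' = 0 → ‖x' - x‖ < 1 / M → ‖y' - y‖ < 1 / M →
      ‖x'‖ + ‖y'‖ ≤ M - 3 → ‖x + y + x * y‖ < 1 := by
    intro x x' y y' hz hx hy hn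
    have e : x + y + x * y = -(x' - x) - (y' - y) - (x' - x) * y' - x' * (y' - y) +
        (x' - x) * (y' - y) := by
      have : x + y + x * y = (x + y + x * y) - (x' + y' + x' * y') := by rw [hz, sub_zero]
      rw [this]; noncomm_ring
    rw [e]
    have t1 : ‖-(x' - x) - (y' - y) - (x' - x) * y' - x' * (y' - y) + (x' - x) * (y' - y)‖ ≤
        ‖x' - x‖ + ‖y' - y‖ + ‖x' - x‖ * ‖y'‖ + ‖x'‖ * ‖y' - y‖ + ‖x' - x‖ * ‖y' - y‖ := by
      refine (norm_add_le _ _).trans (add_le_add ?_ (norm_mul_le _ _))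
      refine (norm_sub_le _ _).trans (add_le_add ?_ (norm_mul_le _ _))
      refine (norm_sub_le _ _).trans (add_le_add ?_ (norm_mul_le _ _))
      refine (norm_sub_le _ _).trans (add_le_add ?_ le_rfl)
      rw [norm_neg]
    refine t1.trans_lt ?_
    have nx := norm_nonneg (x' - x)
    have ny := norm_nonneg (y' - y)
    have nx' := norm_nonneg x'
    have ny' := norm_nonneg y'
    have t2 : ‖x' - x‖ * ‖y'‖ ≤ 1 / M * ‖y'‖ := mul_le_mul_of_nonneg_right hx.le ny'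
    have t3 : ‖x'‖ * ‖y' - y‖ ≤ ‖x'‖ * (1 / M) := mul_le_mul_of_nonneg_left hy.le nx'
    have t4 : ‖x' - x‖ * ‖y' - y‖ ≤ 1 / M * 1 :=
      mul_le_mul hx.le (hy.le.trans hη1) ny (by positivity)
    have t5 : 1 / M * (3 + ‖x'‖ + ‖y'‖) ≤ 1 := by
      rw [div_mul_eq_mul_div, one_mul, div_le_one hM0]; linarith
    nlinarith
  have hn1 : ‖b'‖ + ‖c'‖ ≤ M - 3 := by
    rw [hM]; have := norm_nonneg ((u⁻¹ : Bˣ) : B); linarith
  obtain ⟨v, hv, hv2⟩ := exists_unit_of_almost_inverse hA₀ hb hc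
    (hkey b b' c c' z1 hbn hcn hn1) (hkey c c' b b' z2 hcn hbn (by linarith))
  refine ⟨v, hv, hv2, E1_of_near hu ⟨hle hv.1, hle hv.2⟩ ?_⟩
  have e : (v : B) - u = -(b' - b) := by rw [hv2, hb']; abel
  rw [e, norm_neg]
  have hu0 := norm_nonneg ((u⁻¹ : Bˣ) : B)
  rcases hu0.eq_or_lt with h0 | h0
  · rw [← h0, zero_mul]; norm_num
  · have h1 : ‖((u⁻¹ : Bˣ) : B)‖ * ‖b' - b‖ < ‖((u⁻¹ : Bˣ) : B)‖ * (1 / M) :=
      mul_lt_mul_of_pos_left hbn h0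
    refine h1.trans_le ?_
    rw [mul_one_div, div_le_one hM0, hM]
    have := norm_nonneg b'
    have := norm_nonneg c'
    linarith

variable {Γ P : Type} [Group Γ] [TopologicalSpace P] [MulAction Γ P]

variable [ContinuousConstSMul Γ P]

/-- ROTATION LEMMA. PROOF: let `η` be as in `Cut.exists_near_unit` for every `A₀ = cpN Γ P N` — the `η` of
`exists_near_unit` depends on `A₀`; use instead its proof: with `b' = u - 1`, `c' = u⁻¹ - 1`, `η ≤ 1` small and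
`b, c ∈ cpN Γ P N` at distance `< η` from `b'`, `c'` (`exists_cpN_near`, a common `N`) one has
`‖b + c + b c‖ < 1`, `‖c + b + c b‖ < 1`, so `Cut.exists_unit_of_almost_inverse` (for `cpN Γ P N`, closed by
`isClosed_cpN`) gives `v ∈ GL1 (cpN Γ P N)` with `v = 1 + b`, and `‖u⁻¹‖ ‖v - u‖ < 1`, so
`u⁻¹ v ∈ E1 (cp Γ P)` (`Cut.E1_of_near`, `GL1 (cpN) ≤ GL1 (cp)`). Then `extUnit (co h) (u⁻¹ v) ∈ E1`
(`Cut.extUnit_mem_E1`, `norm_co_le`, `co_mem_cp`), and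
`u⁻¹ * co u = (u⁻¹ v) (v⁻¹ * co v) (co (u⁻¹ v))⁻¹`, with `co u = extUnit (co h) u`. -/
theorem rotation {ρ : ℕ → ℕ} (h : Injective ρ) {u : (Fam Γ P)ˣ} (hu : u ∈ GL1 (cp Γ P)) :
    u⁻¹ * extUnit (co h) u ∈ E1 (cp Γ P) := by
  obtain ⟨η, hη, hη2⟩ := R4_near_unit hu
  obtain ⟨N₁, hN₁⟩ := exists_cpN_near hu.1 hη
  obtain ⟨N₂, hN₂⟩ := exists_cpN_near hu.2 hη
  obtain ⟨b, hb, hb2⟩ := hN₁ (max N₁ N₂) (le_max_left _ _)
  obtain ⟨c, hc, hc2⟩ := hN₂ (max N₁ N₂) (le_max_right _ _)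
  obtain ⟨v, hv, -, hv2⟩ := hη2 (cpN Γ P (max N₁ N₂)) (isClosed_cpN _) (cpN_le _) b hb c hc hb2 hc2
  have h1 := rotation_cpN h hv
  have h2 := extUnit_mem_E1 (norm_co_le h) (co_mem_cp h) hv2
  have h3 := mul_mem (mul_mem hv2 h1) (inv_mem h2)
  have h4 : u⁻¹ * v * (v⁻¹ * extUnit (co h) v) * (extUnit (co h) (u⁻¹ * v))⁻¹
      = u⁻¹ * extUnit (co h) u := by
    rw [map_mul, map_inv]
    group
  rwa [h4] at h3

theorem E1_of_co {ρ : ℕ → ℕ} (h : Injective ρ) {u : (Fam Γ P)ˣ} (hu : u ∈ GL1 (cp Γ P))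
    (h1 : extUnit (co h) u ∈ E1 (cp Γ P)) : u ∈ E1 (cp Γ P) := by
  have h2 := mul_mem h1 (inv_mem (rotation h hu))
  simpa using h2

end Pool.Agent.Lib.MP_aa9b81_an.Hs
end
end

section

/-!
# Hereditary shifts, part G0: differences of two homomorphisms
-/

open scoped ENNReal Topology ZeroAtInfty
open Function Set

noncomputable section

namespace Pool.Agent.Lib.MP_aa9b81_an.Hs

open Cut

variable {R R' : Type} [NormedRing R] [NormedAlgebra ℂ R] [NormedRing R'] [NormedAlgebra ℂ R']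
  {A : NonUnitalSubalgebra ℂ R}

/-- PROOF: as `Cut.extUnit_aux`: `a + a' + a a' = 0` in `A` for `a = u - 1`, `a' = u⁻¹ - 1`. -/
theorem exS_aux (α : A →ₙ+* R') (u : GL1 A) :
    (1 + α ⟨(u.1 : R) - 1, u.2.1⟩) * (1 + α ⟨((u.1⁻¹ : Rˣ) : R) - 1, u.2.2⟩) = 1 ∧
      (1 + α ⟨((u.1⁻¹ : Rˣ) : R) - 1, u.2.2⟩) * (1 + α ⟨(u.1 : R) - 1, u.2.1⟩) = 1 := by
  have key : ∀ a b : A, (1 + (a : R)) * (1 + (b : R)) = 1 → (1 + α a) * (1 + α b) = 1 := by
    intro a b h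
    have h1 : a + b + a * b = 0 := by
      apply Subtype.ext
      change (a : R) + (b : R) + (a : R) * (b : R) = 0
      have : (a : R) + b + a * b = (1 + (a : R)) * (1 + (b : R)) - 1 := by noncomm_ring
      rw [this, h, sub_self]
    have h2 : α a + α b + α a * α b = 0 := by
      rw [← map_mul, ← map_add, ← map_add, h1, map_zero]
    have h3 : (1 + α a) * (1 + α b) = 1 + (α a + α b + α a * α b) := by noncomm_ring
    rw [h3, h2, add_zero]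
  refine ⟨key _ _ ?_, key _ _ ?_⟩
  · change (1 + ((u.1 : R) - 1)) * (1 + (((u.1⁻¹ : Rˣ) : R) - 1)) = 1
    rw [add_sub_cancel, add_sub_cancel, Units.mul_inv]
  · change (1 + (((u.1⁻¹ : Rˣ) : R) - 1)) * (1 + ((u.1 : R) - 1)) = 1
    rw [add_sub_cancel, add_sub_cancel, Units.inv_mul]

/-- The unit `1 + α(u - 1)`. -/
def exS (α : A →ₙ+* R') (u : GL1 A) : R'ˣ :=
  ⟨1 + α ⟨(u.1 : R) - 1, u.2.1⟩, 1 + α ⟨((u.1⁻¹ : Rˣ) : R) - 1, u.2.2⟩, (exS_aux α u).1,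
    (exS_aux α u).2⟩

lemma exS_val (α : A →ₙ+* R') (u : GL1 A) :
    ((exS α u : R'ˣ) : R') = 1 + α ⟨(u.1 : R) - 1, u.2.1⟩ := rfl

lemma exS_inv (α : A →ₙ+* R') (u : GL1 A) :
    (((exS α u)⁻¹ : R'ˣ) : R') = 1 + α ⟨((u.1⁻¹ : Rˣ) : R) - 1, u.2.2⟩ := rfl

/-- The difference `(1 + α(u - 1)) (1 + β(u - 1))⁻¹`. -/
def dU (α β : A →ₙ+* R') (u : GL1 A) : R'ˣ := exS α u * (exS β u)⁻¹

lemma dU_val (α β : A →ₙ+* R') (u : GL1 A) : ((dU α β u : R'ˣ) : R') =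
    (1 + α ⟨(u.1 : R) - 1, u.2.1⟩) * (1 + β ⟨((u.1⁻¹ : Rˣ) : R) - 1, u.2.2⟩) := rfl

lemma dU_inv (α β : A →ₙ+* R') (u : GL1 A) : (((dU α β u)⁻¹ : R'ˣ) : R') =
    (1 + β ⟨(u.1 : R) - 1, u.2.1⟩) * (1 + α ⟨((u.1⁻¹ : Rˣ) : R) - 1, u.2.2⟩) := by
  rw [dU, mul_inv_rev, inv_inv, Units.val_mul, exS_val, exS_inv]

/-- PROOF: with `x = u - 1`, `y = u⁻¹ - 1`: `(1 + α x)(1 + β y) - 1 = (α x - β x)(1 + β y)` because
`(1 + β x)(1 + β y) = 1` (`exS_aux`), and it is in `D` as `β y` is a multiplier. The inverse: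
`(1 + β x)(1 + α y) - 1 = (β x - α x)(1 + α y)` and `α y = β y + (α y - β y)` is a multiplier too
(`IsMul.add`, `IsMul.of_mem`). -/
theorem dU_mem_GL1 {D : NonUnitalSubalgebra ℂ R'} {α β : A →ₙ+* R'} (h : ∀ a, α a - β a ∈ D)
    (hβ : ∀ a, IsMul D (β a)) (u : GL1 A) : dU α β u ∈ GL1 D := by
  have hα : ∀ a, IsMul D (α a) := by
    intro a
    have h1 := (hβ a).add (IsMul.of_mem (h a))
    rwa [add_sub_cancel] at h1
  constructor
  · have e : ((dU α β u : R'ˣ) : R') - 1 =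
        (α ⟨(u.1 : R) - 1, u.2.1⟩ - β ⟨(u.1 : R) - 1, u.2.1⟩) *
          (1 + β ⟨((u.1⁻¹ : Rˣ) : R) - 1, u.2.2⟩) := by
      have h2 := (exS_aux β u).1
      rw [dU_val]
      calc (1 + α ⟨(u.1 : R) - 1, u.2.1⟩) * (1 + β ⟨((u.1⁻¹ : Rˣ) : R) - 1, u.2.2⟩) - 1
          = (1 + α ⟨(u.1 : R) - 1, u.2.1⟩) * (1 + β ⟨((u.1⁻¹ : Rˣ) : R) - 1, u.2.2⟩) -
            (1 + β ⟨(u.1 : R) - 1, u.2.1⟩) * (1 + β ⟨((u.1⁻¹ : Rˣ) : R) - 1, u.2.2⟩) := by rw [h2]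
        _ = _ := by
          rw [← sub_mul, add_sub_add_left_eq_sub]
    rw [e]
    exact ((IsMul.one.add (hβ _)) _ (h _)).2
  · have e : (((dU α β u)⁻¹ : R'ˣ) : R') - 1 =
        (β ⟨(u.1 : R) - 1, u.2.1⟩ - α ⟨(u.1 : R) - 1, u.2.1⟩) *
          (1 + α ⟨((u.1⁻¹ : Rˣ) : R) - 1, u.2.2⟩) := by
      have h2 := (exS_aux α u).1
      rw [dU_inv]
      calc (1 + β ⟨(u.1 : R) - 1, u.2.1⟩) * (1 + α ⟨((u.1⁻¹ : Rˣ) : R) - 1, u.2.2⟩) - 1
          = (1 + β ⟨(u.1 : R) - 1, u.2.1⟩) * (1 + α ⟨((u.1⁻¹ : Rˣ) : R) - 1, u.2.2⟩) -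
            (1 + α ⟨(u.1 : R) - 1, u.2.1⟩) * (1 + α ⟨((u.1⁻¹ : Rˣ) : R) - 1, u.2.2⟩) := by rw [h2]
        _ = _ := by
          rw [← sub_mul, add_sub_add_left_eq_sub]
    rw [e]
    refine ((IsMul.one.add (hα _)) _ ?_).2
    rw [← neg_sub]
    exact neg_mem (h _)

/-- PROOF: `dU_val`, continuity of sums and products. -/
theorem continuousOn_dU {α β : ℝ → A →ₙ+* R'} {S : Set ℝ} (hα : ∀ a, ContinuousOn (fun t => α t a) S)
    (hβ : ∀ a, ContinuousOn (fun t => β t a) S) (u : GL1 A) :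
    ContinuousOn (fun t => ((dU (α t) (β t) u : R'ˣ) : R')) S := by
  have e : (fun t => ((dU (α t) (β t) u : R'ˣ) : R')) = fun t =>
      (1 + α t ⟨(u.1 : R) - 1, u.2.1⟩) * (1 + β t ⟨((u.1⁻¹ : Rˣ) : R) - 1, u.2.2⟩) :=
    funext fun t => dU_val _ _ _
  rw [e]
  exact (continuousOn_const.add (hα _)).mul (continuousOn_const.add (hβ _))

/-- PROOF: `Cut.E1_of_path` for `p t = dU (α t) (β t) u`, `dU_mem_GL1`, `continuousOn_dU`;
`GL1 D ≤ GL1 A'` for `D ≤ A'` (definition). -/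
theorem dU_path [CompleteSpace R'] {D A' : NonUnitalSubalgebra ℂ R'} (hD : D ≤ A')
    {α β : ℝ → A →ₙ+* R'}
    (hα : ∀ a, ContinuousOn (fun t => α t a) (Icc 0 1))
    (hβ : ∀ a, ContinuousOn (fun t => β t a) (Icc 0 1))
    (h : ∀ t ∈ Icc (0 : ℝ) 1, ∀ a, α t a - β t a ∈ D)
    (hm : ∀ t ∈ Icc (0 : ℝ) 1, ∀ a, IsMul D (β t a)) (u : GL1 A) :
    (dU (α 0) (β 0) u)⁻¹ * dU (α 1) (β 1) u ∈ E1 A' := by
  refine E1_of_path (fun t => dU (α t) (β t) u) (fun t ht => ?_) (continuousOn_dU hα hβ u)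
  have h1 := dU_mem_GL1 (h t ht) (hm t ht) u
  exact ⟨hD h1.1, hD h1.2⟩

end Pool.Agent.Lib.MP_aa9b81_an.Hs
end
end

section

/-!
# Hereditary shifts, part G3a: cycles
-/

open scoped ENNReal Topology ZeroAtInfty
open Function Set

noncomputable section

namespace Pool.Agent.Lib.MP_aa9b81_an.Hs

open Cut

variable {R R' : Type} [NormedRing R] [NormedAlgebra ℂ R] [NormedRing R'] [NormedAlgebra ℂ R']

/-- A representation with a grading `Pe + Qo = 1` and an odd operator `T`. -/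
structure Cyc (A : NonUnitalSubalgebra ℂ R) (R' : Type) [NormedRing R'] where
  /-- the representation -/
  Θ : A →ₙ+* R'
  /-- even projection -/
  Pe : R'
  /-- odd projection -/
  Qo : R'
  /-- the operator -/
  T : R'
  hPP : Pe * Pe = Pe
  hQQ : Qo * Qo = Qo
  hPQ : Pe + Qo = 1
  hPΘ : ∀ a, Pe * Θ a = Θ a * Pe
  hTQ : T * Qo = Pe * T
  hQT : Qo * T = T * Pe
  hT : ∀ a, T * T * (Qo * Θ a) = Qo * Θ a

variable {A : NonUnitalSubalgebra ℂ R} (Z : Cyc A R')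

/-- PROOF: `Qo = 1 - Pe`. -/
theorem Cyc.hQΘ (a : A) : Z.Qo * Z.Θ a = Z.Θ a * Z.Qo := by
  have e : Z.Qo = 1 - Z.Pe := eq_sub_of_add_eq' Z.hPQ
  rw [e, sub_mul, mul_sub, one_mul, mul_one, Z.hPΘ]

/-- `a ↦ Pe Θ(a)`. PROOF of multiplicativity: `Pe Θ(a) Pe Θ(b) = Pe Pe Θ(a) Θ(b)`. -/
def Cyc.α : A →ₙ+* R' where
  toFun a := Z.Pe * Z.Θ a
  map_mul' a b := by
    have h1 := Z.hPΘ a
    have h2 := Z.hPP
    rw [map_mul]
    calc Z.Pe * (Z.Θ a * Z.Θ b) = Z.Pe * Z.Pe * Z.Θ a * Z.Θ b := by rw [h2, mul_assoc]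
      _ = Z.Pe * (Z.Pe * Z.Θ a) * Z.Θ b := by rw [mul_assoc Z.Pe]
      _ = Z.Pe * (Z.Θ a * Z.Pe) * Z.Θ b := by rw [h1]
      _ = _ := by simp only [mul_assoc]
  map_zero' := by rw [map_zero, mul_zero]
  map_add' a b := by rw [map_add, mul_add]

/-- PROOF: `T Q Θ(a) T T Q Θ(b) T = T Θ(a) Q T T Q Θ(b) T`, and `T T Q Θ(b) = Q Θ(b)`, `Q Q = Q`. -/
theorem Cyc.β_mul (a b : A) : Z.T * Z.Qo * Z.Θ (a * b) * Z.T =
    Z.T * Z.Qo * Z.Θ a * Z.T * (Z.T * Z.Qo * Z.Θ b * Z.T) := by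
  have h1 := Z.hQΘ a
  have h2 := Z.hT b
  have h3 := Z.hQQ
  symm
  calc Z.T * Z.Qo * Z.Θ a * Z.T * (Z.T * Z.Qo * Z.Θ b * Z.T)
      = Z.T * Z.Qo * Z.Θ a * (Z.T * Z.T * (Z.Qo * Z.Θ b)) * Z.T := by noncomm_ring
    _ = Z.T * (Z.Qo * Z.Θ a) * (Z.Qo * Z.Θ b) * Z.T := by rw [h2]; noncomm_ring
    _ = Z.T * (Z.Θ a * Z.Qo) * (Z.Qo * Z.Θ b) * Z.T := by rw [h1]
    _ = Z.T * Z.Θ a * (Z.Qo * Z.Qo) * Z.Θ b * Z.T := by noncomm_ring
    _ = Z.T * (Z.Θ a * Z.Qo) * Z.Θ b * Z.T := by rw [h3]; noncomm_ring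
    _ = Z.T * (Z.Qo * Z.Θ a) * Z.Θ b * Z.T := by rw [h1]
    _ = Z.T * Z.Qo * Z.Θ (a * b) * Z.T := by rw [map_mul]; noncomm_ring

/-- `a ↦ T Qo Θ(a) T`. -/
def Cyc.β : A →ₙ+* R' where
  toFun a := Z.T * Z.Qo * Z.Θ a * Z.T
  map_mul' a b := Z.β_mul a b
  map_zero' := by rw [map_zero, mul_zero, zero_mul]
  map_add' a b := by rw [map_add, mul_add, add_mul]

lemma Cyc.α_apply (a : A) : Z.α a = Z.Pe * Z.Θ a := rfl

lemma Cyc.β_apply (a : A) : Z.β a = Z.T * Z.Qo * Z.Θ a * Z.T := rfl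

/-- PROOF: `T Q = P T`. -/
theorem Cyc.α_sub_β (a : A) : Z.α a - Z.β a = Z.Pe * (Z.Θ a - Z.T * Z.Θ a * Z.T) := by
  rw [Cyc.α_apply, Cyc.β_apply, Z.hTQ, mul_sub]
  simp only [mul_assoc]

/-- The difference unit. -/
def Cyc.d (u : GL1 A) : R'ˣ := dU Z.α Z.β u

/-- PROOF: `dU_mem_GL1`: `α a - β a = Pe (..) ∈ D` (`α_sub_β`, `hP`), and `β a = T Qo Θ(a) T` is a product of
multipliers (`Qo = 1 - Pe`). -/
theorem Cyc.d_mem {D : NonUnitalSubalgebra ℂ R'} (hP : IsMul D Z.Pe) (hT : IsMul D Z.T)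
    (hΘ : ∀ a, IsMul D (Z.Θ a)) (h : ∀ a, Z.Θ a - Z.T * Z.Θ a * Z.T ∈ D) (u : GL1 A) :
    Z.d u ∈ GL1 D := by
  refine dU_mem_GL1 (fun a => ?_) (fun a => ?_) u
  · rw [Z.α_sub_β]
    exact (hP _ (h a)).1
  · rw [Z.β_apply]
    have e : Z.Qo = 1 - Z.Pe := eq_sub_of_add_eq' Z.hPQ
    have hQ : IsMul D Z.Qo := by
      rw [e]
      exact IsMul.one.sub hP
    exact ((hT.mul hQ).mul (hΘ a)).mul hT

end Pool.Agent.Lib.MP_aa9b81_an.Hs
end
end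

section

/-!
# Hereditary shifts, part G3: cycles
-/

open scoped ENNReal Topology ZeroAtInfty
open Function Set

noncomputable section

namespace Pool.Agent.Lib.MP_aa9b81_an.Hs

open Cut

variable {R R' : Type} [NormedRing R] [NormedAlgebra ℂ R] [NormedRing R'] [NormedAlgebra ℂ R']

variable {A : NonUnitalSubalgebra ℂ R} (Z : Cyc A R')

/-- PROOF: `dU_path`, as in `d_mem`. -/
theorem Cyc.path [CompleteSpace R'] {D A' : NonUnitalSubalgebra ℂ R'} (hD : D ≤ A')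
    (Z : ℝ → Cyc A R')
    (hα : ∀ a, ContinuousOn (fun t => (Z t).α a) (Icc 0 1))
    (hβ : ∀ a, ContinuousOn (fun t => (Z t).β a) (Icc 0 1))
    (hP : ∀ t ∈ Icc (0 : ℝ) 1, IsMul D (Z t).Pe) (hT : ∀ t ∈ Icc (0 : ℝ) 1, IsMul D (Z t).T)
    (hΘ : ∀ t ∈ Icc (0 : ℝ) 1, ∀ a, IsMul D ((Z t).Θ a))
    (h : ∀ t ∈ Icc (0 : ℝ) 1, ∀ a, (Z t).Θ a - (Z t).T * (Z t).Θ a * (Z t).T ∈ D) (u : GL1 A) :
    ((Z 0).d u)⁻¹ * (Z 1).d u ∈ E1 A' := by
  refine dU_path (D := D) hD hα hβ (fun t ht a => ?_) (fun t ht a => ?_) u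
  · rw [(Z t).α_sub_β]
    exact (hP t ht _ (h t ht a)).1
  · rw [(Z t).β_apply]
    have e : (Z t).Qo = 1 - (Z t).Pe := eq_sub_of_add_eq' (Z t).hPQ
    have hQ : IsMul D (Z t).Qo := by
      rw [e]
      exact IsMul.one.sub (hP t ht)
    exact (((hT t ht).mul hQ).mul (hΘ t ht a)).mul (hT t ht)

end Pool.Agent.Lib.MP_aa9b81_an.Hs
end
end

section

/-!
# Hereditary shifts, part E1a: the weights at infinity
-/

open scoped ENNReal Topology ZeroAtInfty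
open Function Filter Set

noncomputable section

namespace Pool.Agent.Lib.MP_aa9b81_an.Hs

open Cut

/-- Normalised vectors. PROOF: let `α = √∑ a²`, `β = √∑ b² > 0`. By Minkowski / Cauchy-Schwarz `|α - β| ≤ √∑ (a - b)²`
(`(α - β)² = ∑ a² + ∑ b² - 2 α β ≤ ∑ (a - b)²` since `∑ a b ≤ α β`). If `α = 0` all `a i = 0` and the left side is
`1 = ∑ (a - b)² / β²`. If `α > 0`: `a/α - b/β = (a - b)/β + a (1/α - 1/β)`, so with `(x + y)² ≤ 2 x² + 2 y²` the left side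
is at most `2 ∑ (a - b)²/β² + 2 α² (1/α - 1/β)² = 2 ∑ (a - b)²/β² + 2 (β - α)²/β²`. -/
theorem normalize_sub_sq_le {I : Type} (F : Finset I) (a b : I → ℝ)
    (hb : 0 < ∑ i ∈ F, b i ^ 2) :
    ∑ i ∈ F, (a i / √(∑ j ∈ F, a j ^ 2) - b i / √(∑ j ∈ F, b j ^ 2)) ^ 2 ≤
      4 * (∑ i ∈ F, (a i - b i) ^ 2) / ∑ i ∈ F, b i ^ 2 := by
  have hA0 : 0 ≤ ∑ i ∈ F, a i ^ 2 := Finset.sum_nonneg fun i _ => sq_nonneg _
  have hβ : 0 < √(∑ j ∈ F, b j ^ 2) := Real.sqrt_pos.2 hb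
  have hβ2 : √(∑ j ∈ F, b j ^ 2) ^ 2 = ∑ j ∈ F, b j ^ 2 := Real.sq_sqrt hb.le
  have hα2 : √(∑ j ∈ F, a j ^ 2) ^ 2 = ∑ j ∈ F, a j ^ 2 := Real.sq_sqrt hA0
  have hα : 0 ≤ √(∑ j ∈ F, a j ^ 2) := Real.sqrt_nonneg _
  have hCS : ∑ i ∈ F, a i * b i ≤ √(∑ j ∈ F, a j ^ 2) * √(∑ j ∈ F, b j ^ 2) :=
    Real.sum_mul_le_sqrt_mul_sqrt F a b
  have hexp : ∑ i ∈ F, (a i - b i) ^ 2 =
      ∑ i ∈ F, a i ^ 2 - 2 * ∑ i ∈ F, a i * b i + ∑ i ∈ F, b i ^ 2 := by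
    rw [Finset.mul_sum, ← Finset.sum_sub_distrib, ← Finset.sum_add_distrib]
    exact Finset.sum_congr rfl fun i _ => by ring
  generalize √(∑ j ∈ F, a j ^ 2) = α at *
  generalize √(∑ j ∈ F, b j ^ 2) = β at *
  have hαβ : (α - β) ^ 2 ≤ ∑ i ∈ F, (a i - b i) ^ 2 := by
    rw [hexp]
    nlinarith
  rcases hα.eq_or_lt with h0 | h0
  · have ha : ∑ i ∈ F, a i ^ 2 = 0 := by
      rw [← hα2, ← h0]
      norm_num
    have ha' : ∀ i ∈ F, a i = 0 := by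
      intro i hi
      have := (Finset.sum_eq_zero_iff_of_nonneg fun i _ => sq_nonneg (a i)).1 ha i hi
      exact pow_eq_zero_iff (two_ne_zero) |>.1 this
    have h1 : ∑ i ∈ F, (a i / α - b i / β) ^ 2 = 1 := by
      have h2 : ∑ i ∈ F, (a i / α - b i / β) ^ 2 = (∑ i ∈ F, b i ^ 2) / β ^ 2 := by
        rw [Finset.sum_div]
        refine Finset.sum_congr rfl fun i hi => ?_
        rw [ha' i hi]
        ring
      rw [h2, hβ2, div_self hb.ne']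
    have h3 : ∑ i ∈ F, (a i - b i) ^ 2 = ∑ i ∈ F, b i ^ 2 := by
      refine Finset.sum_congr rfl fun i hi => ?_
      rw [ha' i hi]
      ring
    rw [h1, h3, mul_div_assoc, div_self hb.ne']
    norm_num
  · have hpt : ∀ i ∈ F, (a i / α - b i / β) ^ 2 ≤
        2 * (a i - b i) ^ 2 / β ^ 2 + 2 * a i ^ 2 * (1 / α - 1 / β) ^ 2 := by
      intro i _
      have h1 : a i / α - b i / β = (a i - b i) / β + a i * (1 / α - 1 / β) := by
        field_simp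
        ring
      have h2 : 2 * (a i - b i) ^ 2 / β ^ 2 = 2 * ((a i - b i) / β) ^ 2 := by
        rw [div_pow]
        ring
      rw [h1, h2]
      nlinarith [sq_nonneg ((a i - b i) / β - a i * (1 / α - 1 / β))]
    refine (Finset.sum_le_sum hpt).trans ?_
    rw [Finset.sum_add_distrib, ← Finset.sum_div, ← Finset.mul_sum, ← Finset.sum_mul,
      ← Finset.mul_sum, ← hα2, ← hβ2]
    have h3 : 2 * α ^ 2 * (1 / α - 1 / β) ^ 2 = 2 * (α - β) ^ 2 / β ^ 2 := by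
      field_simp
      ring
    rw [h3, ← add_div]
    refine div_le_div_of_nonneg_right ?_ (sq_nonneg β)
    nlinarith

variable {Γ P I : Type} [Group Γ] [TopologicalSpace P] [MulAction Γ P] [MulAction Γ I]
  [DecidableEq I] (H : Site Γ P I) (w : Wt Γ I)

omit [DecidableEq I] in
/-- PROOF: such `F` are subsets of the finite set `{i | w i ≤ R + 1}` (`w i ≤ w i ^ 2 ≤ R`). -/
theorem finite_sum_sq_le (R : ℝ) : {F : Finset I | ∑ i ∈ F, w.w i ^ 2 ≤ R}.Finite := by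
  have hfin : {i | w.w i ≤ R}.Finite := w.proper R
  refine (hfin.toFinset.powerset.finite_toSet).subset fun F hF => ?_
  rw [Set.mem_ofPred_eq] at hF
  rw [Finset.mem_coe, Finset.mem_powerset]
  intro i hi
  rw [Set.Finite.mem_toFinset, Set.mem_ofPred_eq]
  have h1 : w.w i ^ 2 ≤ ∑ j ∈ F, w.w j ^ 2 :=
    Finset.single_le_sum (f := fun j => w.w j ^ 2) (fun j _ => sq_nonneg _) hi
  have h2 := w.one_le i
  nlinarith

end Pool.Agent.Lib.MP_aa9b81_an.Hs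
end
end

section

/-!
# Hereditary shifts, part E4d: the rotated projections times functions
-/

open scoped ENNReal Topology ZeroAtInfty
open Function Filter Set

noncomputable section

namespace Pool.Agent.Lib.MP_aa9b81_an.Hs

open Cut

variable {Γ P I : Type} [Group Γ] [TopologicalSpace P] [MulAction Γ P] [MulAction Γ I]
  [DecidableEq I] (H : Site Γ P I) (w : Wt Γ I)

private lemma E4d_mem_tg_ne {i j : I} {S : Finset I} (h : i ≠ j) : i ∈ tg j S ↔ i ∈ S := by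
  rw [mem_tg]
  constructor
  · rintro (⟨h1, _⟩ | ⟨_, h2⟩)
    · exact absurd h1 h
    · exact h2
  · intro h2
    exact Or.inr ⟨h, h2⟩

private lemma E4d_fl {i : I} {b : Bs I} (h : i ∉ b.S) : (fl i b).F = tg i b.F ∧ (fl i b).S = b.S := by
  rw [fl, dif_neg h]
  exact ⟨rfl, rfl⟩

private lemma E4d_tog_fl {i j : I} {b : Bs I} (hi : i ∉ b.S) (hj : j ∈ b.F) (hij : j ≠ i) :
    tog j (fl i b) = fl i (tog j b) := by
  have h1 := E4d_fl hi
  have h2 := tog_of_mem hj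
  have h3 : j ∈ (fl i b).F := by
    rw [h1.1, E4d_mem_tg_ne hij]
    exact hj
  have h4 : i ∉ (tog j b).S := by
    rw [h2.2, E4d_mem_tg_ne hij.symm]
    exact hi
  have h5 := tog_of_mem h3
  have h6 := E4d_fl h4
  refine Bs.ext ?_ ?_
  · rw [h5.1, h6.1, h1.1, h2.1]
  · rw [h5.2, h6.2, h1.2, h2.2]

private lemma E4d_tg_sdiff {i : I} {L : Finset I} (hi : i ∈ L) (F : Finset I) : tg i F \ L = F \ L := by
  ext k
  simp only [Finset.mem_sdiff]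
  constructor
  · rintro ⟨h1, h2⟩
    have h3 : k ≠ i := fun h => h2 (h ▸ hi)
    exact ⟨(E4d_mem_tg_ne h3).1 h1, h2⟩
  · rintro ⟨h1, h2⟩
    have h3 : k ≠ i := fun h => h2 (h ▸ hi)
    exact ⟨(E4d_mem_tg_ne h3).2 h1, h2⟩

private lemma E4d_erase_tg (i : I) (F : Finset I) : (tg i F).erase i = F.erase i := by
  ext k
  simp only [Finset.mem_erase]
  constructor
  · rintro ⟨h1, h2⟩
    exact ⟨h1, (E4d_mem_tg_ne h1).1 h2⟩
  · rintro ⟨h1, h2⟩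
    exact ⟨h1, (E4d_mem_tg_ne h1).2 h2⟩

private lemma E4d_sum_erase {F : Finset I} {i : I} {g : I → ℂ} (h : g i = 0) :
    ∑ j ∈ F, g j = ∑ j ∈ F.erase i, g j := (Finset.sum_erase F h).symm

private lemma E4d_Ni (e : I ↪ ℕ) {a : Finset I → I → ℝ} {C : ℝ} (h : CB a C) {i : I}
    (h0 : ∀ F, a F i = 0) : Commute (Ni i) (Cl e a) := by
  refine ContinuousLinearMap.ext fun ξ => ?_
  ext b
  change (Ni i (Cl e a ξ) : Bs I → ℂ) b = (Cl e a (Ni i ξ) : Bs I → ℂ) b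
  rw [Ni_apply, Cl_apply e h, Cl_apply e h]
  unfold clF
  by_cases hb : i ∈ b.S
  · rw [if_pos hb]
    symm
    refine Finset.sum_eq_zero fun j hj => ?_
    by_cases hji : j = i
    · subst hji
      rw [h0]
      simp
    · rw [Ni_apply, (tog_of_mem hj).2, if_pos ((E4d_mem_tg_ne (Ne.symm hji)).2 hb)]
      simp
  · rw [if_neg hb]
    refine Finset.sum_congr rfl fun j hj => ?_
    by_cases hji : j = i
    · subst hji
      rw [h0]
      simp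
    · rw [Ni_apply, (tog_of_mem hj).2, if_neg (fun h' => hb ((E4d_mem_tg_ne (Ne.symm hji)).1 h'))]

private lemma E4d_Ji (e : I ↪ ℕ) {a : Finset I → I → ℝ} {C : ℝ} (h : CB a C) {L : Finset I}
    (h0 : ∀ F, ∀ i ∈ L, a F i = 0) (h1 : ∀ F j, a F j = a (F \ L) j) {i : I} (hi : i ∈ L) :
    Commute (Ji i) (Cl e a) := by
  refine ContinuousLinearMap.ext fun ξ => ?_
  ext b
  change (Ji i (Cl e a ξ) : Bs I → ℂ) b = (Cl e a (Ji i ξ) : Bs I → ℂ) b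
  rw [Ji_apply, Cl_apply e h, Cl_apply e h]
  unfold clF
  by_cases hb : i ∈ b.S
  · have hw : Jw i b = 0 := by
      unfold Jw
      rw [if_pos hb]
    rw [hw, zero_mul]
    symm
    refine Finset.sum_eq_zero fun j hj => ?_
    by_cases hji : j = i
    · subst hji
      rw [h0 _ _ hi]
      simp
    · have h2 : i ∈ (tog j b).S := by
        rw [(tog_of_mem hj).2]
        exact (E4d_mem_tg_ne (Ne.symm hji)).2 hb
      have hw' : Jw i (tog j b) = 0 := by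
        unfold Jw
        rw [if_pos h2]
      rw [Ji_apply, hw']
      simp
  · obtain ⟨hF, hS⟩ := E4d_fl hb
    rw [hF, hS]
    have haF : ∀ j, a (tg i b.F) j = a b.F j := by
      intro j
      rw [h1 (tg i b.F) j, E4d_tg_sdiff hi, ← h1]
    rw [E4d_sum_erase (F := tg i b.F) (i := i)
        (g := fun j => (a (tg i b.F) j : ℂ) * (th e j b.S * (ξ : Bs I → ℂ) (tog j (fl i b))))
        (by simp [h0 _ _ hi]),
      E4d_sum_erase (F := b.F) (i := i)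
        (g := fun j => (a b.F j : ℂ) * (th e j b.S * (Ji i ξ : Bs I → ℂ) (tog j b)))
        (by simp [h0 _ _ hi]),
      E4d_erase_tg, Finset.mul_sum]
    refine Finset.sum_congr rfl fun j hj => ?_
    obtain ⟨hji, hjF⟩ := Finset.mem_erase.1 hj
    have hw : Jw i (tog j b) = Jw i b := by
      unfold Jw
      have h2 : i ∉ (tog j b).S := by
        rw [(tog_of_mem hjF).2]
        exact fun h' => hb ((E4d_mem_tg_ne (Ne.symm hji)).1 h')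
      rw [if_neg h2, if_neg hb, (tog_of_mem hjF).1]
    rw [Ji_apply, hw, haF, E4d_tog_fl hb hjF hji]
    ring

/-- PROOF: coordinates. For `i ∈ L`, `a` does not see `i`: `a (tg i F) j = a F j` (`(tg i F) ∖ L = F ∖ L`) and
`a F i = 0`. `Ni i`: `i ∈ (tog j b).S ↔ i ∈ b.S` for `j ≠ i`. `Ji i`: for `i ∉ b.S` and `j ∈ b.F`, `j ≠ i`:
`fl i (tog j b) = tog j (fl i b)`, `Jw i (tog j b) = Jw i b`, `(fl i b).S = b.S`; the sums over `b.F` and over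
`(fl i b).F = tg i b.F` agree since the term of `i` vanishes. For `i ∈ b.S`: both sides are `0`, because
`i ∈ (tog j b).S` for `j ≠ i`, and the term `j = i` has coefficient `0`. -/
theorem Ui_comm_Cl (e : I ↪ ℕ) {a : Finset I → I → ℝ} {C : ℝ} (h : CB a C) {L : Finset I}
    (h0 : ∀ F, ∀ i ∈ L, a F i = 0) (h1 : ∀ F j, a F j = a (F \ L) j) {i : I} (hi : i ∈ L)
    (φ : ℝ) : Commute (Ui i φ) (Cl e a) := by
  unfold Ui
  exact ((Commute.one_left _).add_left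
    ((E4d_Ni e h (fun F => h0 F i hi)).smul_left _)).add_left
    ((E4d_Ji e h h0 h1 hi).smul_left _)

/-- PROOF: coordinates: for `j ∉ L`, `j ∈ F`: `L ⊆ F ∖ tg j S ↔ L ⊆ F ∖ S`. -/
theorem XL_comm_Cl (e : I ↪ ℕ) {a : Finset I → I → ℝ} {C : ℝ} (h : CB a C) {L : Finset I}
    (h0 : ∀ F, ∀ i ∈ L, a F i = 0) : Commute (XL L) (Cl e a) := by
  refine ContinuousLinearMap.ext fun ξ => ?_
  ext b
  change (XL L (Cl e a ξ) : Bs I → ℂ) b = (Cl e a (XL L ξ) : Bs I → ℂ) b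
  rw [XL_apply, Cl_apply e h, Cl_apply e h]
  unfold clF
  have key : ∀ j ∈ b.F, j ∉ L → (L ⊆ (tog j b).F \ (tog j b).S ↔ L ⊆ b.F \ b.S) := by
    intro j hj hjL
    rw [(tog_of_mem hj).1, (tog_of_mem hj).2]
    constructor
    · intro h2 k hk
      have h3 := Finset.mem_sdiff.1 (h2 hk)
      have hkj : k ≠ j := fun h' => hjL (h' ▸ hk)
      exact Finset.mem_sdiff.2 ⟨h3.1, fun h' => h3.2 ((E4d_mem_tg_ne hkj).2 h')⟩
    · intro h2 k hk
      have h3 := Finset.mem_sdiff.1 (h2 hk)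
      have hkj : k ≠ j := fun h' => hjL (h' ▸ hk)
      exact Finset.mem_sdiff.2 ⟨h3.1, fun h' => h3.2 ((E4d_mem_tg_ne hkj).1 h')⟩
  by_cases hb : L ⊆ b.F \ b.S
  · rw [if_pos hb]
    refine Finset.sum_congr rfl fun j hj => ?_
    by_cases hjL : j ∈ L
    · rw [h0 _ _ hjL]
      simp
    · rw [XL_apply, if_pos ((key j hj hjL).2 hb)]
  · rw [if_neg hb]
    symm
    refine Finset.sum_eq_zero fun j hj => ?_
    by_cases hjL : j ∈ L
    · rw [h0 _ _ hjL]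
      simp
    · rw [XL_apply, if_neg (fun h' => hb ((key j hj hjL).1 h'))]
      simp

end Pool.Agent.Lib.MP_aa9b81_an.Hs
end
end

section

/-!
# Rotated sites, part N6b: cycles and the path component of the unit
-/

open scoped ENNReal Topology ZeroAtInfty
open Function Filter Set

noncomputable section

set_option linter.unusedSectionVars false

namespace Pool.Agent.Lib.MP_aa9b81_an.Rc

open Cut Hs

variable {R R' : Type} [NormedRing R] [NormedAlgebra ℂ R] [NormedRing R'] [NormedAlgebra ℂ R']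
  {A : NonUnitalSubalgebra ℂ R}

/-- PROOF: `extS` is multiplicative: `(1 + α x)(1 + α y) = 1 + α (x + y + x y)`. -/
theorem exS_mul (α : A →ₙ+* R') (u v : GL1 A) : exS α (u * v) = exS α u * exS α v := by
  apply Units.ext
  have e : (⟨((u * v : GL1 A).1 : R) - 1, (u * v : GL1 A).2.1⟩ : A) =
      ⟨(u.1 : R) - 1, u.2.1⟩ + ⟨(v.1 : R) - 1, v.2.1⟩ +
        ⟨(u.1 : R) - 1, u.2.1⟩ * ⟨(v.1 : R) - 1, v.2.1⟩ := by
    apply Subtype.ext
    change ((u.1 : R) * (v.1 : R)) - 1 =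
      ((u.1 : R) - 1) + ((v.1 : R) - 1) + ((u.1 : R) - 1) * ((v.1 : R) - 1)
    noncomm_ring
  rw [exS_val, Units.val_mul, exS_val, exS_val, e, map_add, map_add, map_mul]
  noncomm_ring

/-- PROOF: `exS_mul`: `α(u) α(v) β(v)⁻¹ β(u)⁻¹ = (α(u) β(u)⁻¹) (β(u) (α(v) β(v)⁻¹) β(u)⁻¹)`. -/
theorem dU_mul (α β : A →ₙ+* R') (u v : GL1 A) :
    dU α β (u * v) = dU α β u * (exS β u * dU α β v * (exS β u)⁻¹) := by
  unfold dU
  rw [exS_mul, exS_mul]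
  group

/-- PROOF: `b⁻¹` and `b` are multipliers of `D`; the map `x ↦ b x b⁻¹` of units maps the small elements of `GL1 D` near to `1` in the sense
`‖u - 1‖ < δ` to small ones (`δ ‖b‖ ‖b⁻¹‖ ≤ 1`): `E1_le_closure` (`D` closed), `Subgroup.closure_induction`, `mem_E1_of_small`. -/
theorem conj_mem_E1 [CompleteSpace R'] {D : NonUnitalSubalgebra ℂ R'} (hD : IsClosed (D : Set R'))
    {b : R'ˣ} (hb : IsMul D (b : R')) (hb' : IsMul D ((b⁻¹ : R'ˣ) : R')) {x : R'ˣ}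
    (hx : x ∈ E1 D) : b * x * b⁻¹ ∈ E1 D := by
  have hpos : 0 < ‖(b : R')‖ * ‖((b⁻¹ : R'ˣ) : R')‖ + 1 := by positivity
  have hle : E1 D ≤ (E1 D).comap (MulAut.conj b).toMonoidHom := by
    refine (E1_le_closure hD (δ := 1 / (‖(b : R')‖ * ‖((b⁻¹ : R'ˣ) : R')‖ + 1))
      (by positivity)).trans ((Subgroup.closure_le _).2 ?_)
    rintro v ⟨hv, hv1⟩
    have hval : ((b * v * b⁻¹ : R'ˣ) : R') - 1 = (b : R') * ((v : R') - 1) * ((b⁻¹ : R'ˣ) : R') := by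
      rw [mul_sub, sub_mul, mul_one, Units.mul_inv, Units.val_mul, Units.val_mul]
    have hval' : (((b * v * b⁻¹)⁻¹ : R'ˣ) : R') - 1 =
        (b : R') * (((v⁻¹ : R'ˣ) : R') - 1) * ((b⁻¹ : R'ˣ) : R') := by
      have e : (b * v * b⁻¹)⁻¹ = b * v⁻¹ * b⁻¹ := by group
      rw [e, mul_sub, sub_mul, mul_one, Units.mul_inv, Units.val_mul, Units.val_mul]
    have hGL : b * v * b⁻¹ ∈ GL1 D := by
      constructor
      · rw [hval]
        exact (hb' _ (hb _ hv.1).1).2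
      · rw [hval']
        exact (hb' _ (hb _ hv.2).1).2
    refine mem_E1_of_small hGL ?_
    change ‖((b * v * b⁻¹ : R'ˣ) : R') - 1‖ < 1
    rw [hval]
    have h1 : ‖(b : R') * ((v : R') - 1) * ((b⁻¹ : R'ˣ) : R')‖ ≤
        ‖(b : R')‖ * ‖(v : R') - 1‖ * ‖((b⁻¹ : R'ˣ) : R')‖ :=
      (norm_mul_le _ _).trans (mul_le_mul_of_nonneg_right (norm_mul_le _ _) (norm_nonneg _))
    rw [lt_div_iff₀ hpos] at hv1
    have h2 := norm_nonneg ((v : R') - 1)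
    have h3 : ‖(b : R')‖ * ‖(v : R') - 1‖ * ‖((b⁻¹ : R'ˣ) : R')‖ =
        ‖(v : R') - 1‖ * (‖(b : R')‖ * ‖((b⁻¹ : R'ˣ) : R')‖) := by ring
    have h4 : ‖(v : R') - 1‖ * (‖(b : R')‖ * ‖((b⁻¹ : R'ˣ) : R')‖ + 1) =
        ‖(v : R') - 1‖ * (‖(b : R')‖ * ‖((b⁻¹ : R'ˣ) : R')‖) + ‖(v : R') - 1‖ := by ring
    rw [h4] at hv1
    linarith
  exact hle hx

/-- PROOF: by `E1_le_closure` (`A` closed) `u` is a product of elements `v ∈ GL1 A` with `‖v - 1‖ < δ`; by `dU_mul` and `conj_mem_E1` it is enough to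
consider `u = v` (also for inverses: `dU α β v⁻¹ = β(v)⁻¹ (dU α β v)⁻¹ β(v)`). For small `δ` (depending on the bounds `hα'`, `hβ'`):
`‖dU α β v - 1‖ < 1` (`dU_val`; `‖v⁻¹ - 1‖ ≤ 2 ‖v - 1‖` for small `v - 1`), and `dU α β v ∈ GL1 D` (`dU_mem_GL1`). -/
theorem dU_mem_E1 [CompleteSpace R] [CompleteSpace R'] (hA : IsClosed (A : Set R))
    {D : NonUnitalSubalgebra ℂ R'} (hD : IsClosed (D : Set R')) {α β : A →ₙ+* R'}
    (h : ∀ a, α a - β a ∈ D) (hα : ∀ a, IsMul D (α a)) (hβ : ∀ a, IsMul D (β a)) {M : ℝ}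
    (hα' : ∀ a, ‖α a‖ ≤ M * ‖(a : R)‖) (hβ' : ∀ a, ‖β a‖ ≤ M * ‖(a : R)‖) {u : GL1 A}
    (hu : (u : Rˣ) ∈ E1 A) : dU α β u ∈ E1 D := by
  -- multiplicativity
  have hinv : ∀ (γ : A →ₙ+* R') (v : GL1 A), exS γ v⁻¹ = (exS γ v)⁻¹ := fun γ v =>
    map_inv (MonoidHom.mk' (exS γ) (exS_mul γ)) v
  have hmul1 : ∀ v : GL1 A, IsMul D ((exS β v : R'ˣ) : R') := fun v => by
    rw [exS_val]
    exact IsMul.one.add (hβ _)
  have hmul2 : ∀ v : GL1 A, IsMul D (((exS β v)⁻¹ : R'ˣ) : R') := fun v => by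
    rw [exS_inv]
    exact IsMul.one.add (hβ _)
  -- constants
  set N : ℝ := |M| + 1 with hN
  have hN1 : 1 ≤ N := by
    have := abs_nonneg M
    linarith
  have hN0 : 0 < N := by linarith
  have hMN : M ≤ N := by
    have := le_abs_self M
    linarith
  set δ : ℝ := 1 / (8 * N) with hδ
  have hδ0 : 0 < δ := by positivity
  have hNδ : N * δ = 1 / 8 := by
    rw [hδ]
    field_simp
  have hδ8 : δ ≤ 1 / 8 := by
    have : 1 * δ ≤ N * δ := mul_le_mul_of_nonneg_right hN1 hδ0.le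
    linarith
  -- the generators
  have hsmall : ∀ v : GL1 A, ‖((v : Rˣ) : R) - 1‖ < δ → dU α β v ∈ E1 D := by
    intro v hv
    refine mem_E1_of_small (dU_mem_GL1 h hβ v) ?_
    set x : R := ((v : Rˣ) : R) - 1 with hx
    set y : R := (((v : Rˣ)⁻¹ : Rˣ) : R) - 1 with hy
    have hxy : y = -(y * x) - x := by
      have e1 : (((v : Rˣ)⁻¹ : Rˣ) : R) * ((v : Rˣ) : R) = 1 := Units.inv_mul _
      have e2 : y * x = (((v : Rˣ)⁻¹ : Rˣ) : R) * ((v : Rˣ) : R) - (((v : Rˣ)⁻¹ : Rˣ) : R)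
          - ((v : Rˣ) : R) + 1 := by
        rw [hx, hy]
        noncomm_ring
      rw [e2, e1, hx, hy]
      abel
    have hx0 : 0 ≤ ‖x‖ := norm_nonneg _
    have hy0 : 0 ≤ ‖y‖ := norm_nonneg _
    have hy2 : ‖y‖ ≤ 2 * δ := by
      have h1 : ‖y‖ ≤ ‖y‖ * ‖x‖ + ‖x‖ := by
        calc ‖y‖ = ‖-(y * x) - x‖ := by rw [← hxy]
          _ ≤ ‖-(y * x)‖ + ‖x‖ := norm_sub_le _ _
          _ ≤ ‖y‖ * ‖x‖ + ‖x‖ := by
            rw [norm_neg]
            have := norm_mul_le y x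
            linarith
      have h2 : ‖y‖ * ‖x‖ ≤ ‖y‖ * (1 / 2) :=
        mul_le_mul_of_nonneg_left (by linarith) hy0
      linarith
    have hαx : ‖α ⟨x, v.2.1⟩‖ ≤ 1 / 8 := by
      have h1 := hα' ⟨x, v.2.1⟩
      have h2 : M * ‖x‖ ≤ N * δ :=
        (mul_le_mul_of_nonneg_right hMN hx0).trans (mul_le_mul_of_nonneg_left hv.le hN0.le)
      exact (h1.trans h2).trans hNδ.le
    have hβy : ‖β ⟨y, v.2.2⟩‖ ≤ 1 / 4 := by
      have h1 := hβ' ⟨y, v.2.2⟩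
      have h2 : M * ‖y‖ ≤ N * (2 * δ) :=
        (mul_le_mul_of_nonneg_right hMN hy0).trans (mul_le_mul_of_nonneg_left hy2 hN0.le)
      refine (h1.trans h2).trans ?_
      linarith
    have e : ((dU α β v : R'ˣ) : R') - 1 =
        α ⟨x, v.2.1⟩ + β ⟨y, v.2.2⟩ + α ⟨x, v.2.1⟩ * β ⟨y, v.2.2⟩ := by
      have e3 : ((dU α β v : R'ˣ) : R') = (1 + α ⟨x, v.2.1⟩) * (1 + β ⟨y, v.2.2⟩) := dU_val α β v
      rw [e3, add_mul, mul_add, mul_one, one_mul, mul_add, mul_one]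
      abel
    rw [e]
    have h1 := norm_add_le (α ⟨x, v.2.1⟩ + β ⟨y, v.2.2⟩) (α ⟨x, v.2.1⟩ * β ⟨y, v.2.2⟩)
    have h2 := norm_add_le (α ⟨x, v.2.1⟩) (β ⟨y, v.2.2⟩)
    have h3 := norm_mul_le (α ⟨x, v.2.1⟩) (β ⟨y, v.2.2⟩)
    have h4 : ‖α ⟨x, v.2.1⟩‖ * ‖β ⟨y, v.2.2⟩‖ ≤ 1 / 8 * (1 / 4) :=
      mul_le_mul hαx hβy (norm_nonneg _) (by norm_num)
    linarith
  have hle : Subgroup.closure {w : Rˣ | w ∈ GL1 A ∧ ‖(w : R) - 1‖ < δ} ≤ GL1 A :=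
    (Subgroup.closure_le _).2 fun w hw => hw.1
  have key : ∀ w : Rˣ, w ∈ Subgroup.closure {w : Rˣ | w ∈ GL1 A ∧ ‖(w : R) - 1‖ < δ} →
      ∀ hw : w ∈ GL1 A, dU α β ⟨w, hw⟩ ∈ E1 D := by
    intro w hw
    induction hw using Subgroup.closure_induction with
    | mem x hx => exact fun hw => hsmall ⟨x, hw⟩ hx.2
    | one =>
      intro hw
      exact hsmall ⟨1, hw⟩ (by simpa using hδ0)
    | mul x y hx hy ihx ihy =>
      intro hw
      have e : (⟨x * y, hw⟩ : GL1 A) = ⟨x, hle hx⟩ * ⟨y, hle hy⟩ := rfl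
      rw [e, dU_mul]
      exact mul_mem (ihx _) (conj_mem_E1 hD (hmul1 _) (hmul2 _) (ihy _))
    | inv x hx ihx =>
      intro hw
      have e : (⟨x⁻¹, hw⟩ : GL1 A) = (⟨x, hle hx⟩ : GL1 A)⁻¹ := rfl
      have e2 : dU α β (⟨x, hle hx⟩ : GL1 A)⁻¹ =
          (exS β ⟨x, hle hx⟩)⁻¹ * (dU α β ⟨x, hle hx⟩)⁻¹ * ((exS β ⟨x, hle hx⟩)⁻¹)⁻¹ := by
        unfold dU
        rw [hinv, hinv]
        group
      rw [e, e2]
      refine conj_mem_E1 hD (hmul2 _) ?_ (inv_mem (ihx _))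
      rw [inv_inv]
      exact hmul1 _
  exact key u (E1_le_closure hA hδ0 hu) u.2

/-- PROOF: `dU_mem_E1` for `Z.α`, `Z.β`: bounds by `‖Pe‖`, `‖T‖`, `‖Qo‖`; `α_sub_β`, multipliers as in `Cyc.d_mem`. -/
theorem Cyc.d_mem_E1 [CompleteSpace R] [CompleteSpace R'] (Z : Cyc A R')
    (hA : IsClosed (A : Set R)) {D : NonUnitalSubalgebra ℂ R'} (hD : IsClosed (D : Set R'))
    (hP : IsMul D Z.Pe) (hT : IsMul D Z.T) (hΘ : ∀ a, IsMul D (Z.Θ a))
    (hΘ' : ∀ a, ‖Z.Θ a‖ ≤ ‖(a : R)‖) (h : ∀ a, Z.Θ a - Z.T * Z.Θ a * Z.T ∈ D) {u : GL1 A}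
    (hu : (u : Rˣ) ∈ E1 A) : Z.d u ∈ E1 D := by
  have hQ : IsMul D Z.Qo := by
    have e : Z.Qo = 1 - Z.Pe := by
      rw [← Z.hPQ]
      abel
    rw [e]
    exact IsMul.one.sub hP
  refine dU_mem_E1 hA hD (α := Z.α) (β := Z.β) (M := ‖Z.Pe‖ + ‖Z.T‖ * ‖Z.Qo‖ * ‖Z.T‖) ?_ ?_ ?_ ?_ ?_ hu
  · intro a
    rw [Z.α_sub_β]
    exact (hP _ (h a)).1
  · intro a
    rw [Z.α_apply]
    exact hP.mul (hΘ a)
  · intro a
    rw [Z.β_apply]
    exact ((hT.mul hQ).mul (hΘ a)).mul hT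
  · intro a
    rw [Z.α_apply]
    have h1 := norm_mul_le Z.Pe (Z.Θ a)
    have h2 : ‖Z.Pe‖ * ‖Z.Θ a‖ ≤ ‖Z.Pe‖ * ‖(a : R)‖ :=
      mul_le_mul_of_nonneg_left (hΘ' a) (norm_nonneg _)
    have h3 : 0 ≤ ‖Z.T‖ * ‖Z.Qo‖ * ‖Z.T‖ * ‖(a : R)‖ := by positivity
    rw [add_mul]
    linarith
  · intro a
    rw [Z.β_apply]
    have h1 := norm_mul_le (Z.T * Z.Qo * Z.Θ a) Z.T
    have h2 := norm_mul_le (Z.T * Z.Qo) (Z.Θ a)
    have h3 := norm_mul_le Z.T Z.Qo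
    have h4 : ‖Z.T * Z.Qo‖ * ‖Z.Θ a‖ ≤ ‖Z.T‖ * ‖Z.Qo‖ * ‖(a : R)‖ :=
      mul_le_mul h3 (hΘ' a) (norm_nonneg _) (by positivity)
    have h5 : ‖Z.T * Z.Qo * Z.Θ a‖ * ‖Z.T‖ ≤ ‖Z.T‖ * ‖Z.Qo‖ * ‖(a : R)‖ * ‖Z.T‖ :=
      mul_le_mul_of_nonneg_right (h2.trans h4) (norm_nonneg _)
    have h6 : 0 ≤ ‖Z.Pe‖ * ‖(a : R)‖ := by positivity
    have h7 : (‖Z.Pe‖ + ‖Z.T‖ * ‖Z.Qo‖ * ‖Z.T‖) * ‖(a : R)‖ =
        ‖Z.Pe‖ * ‖(a : R)‖ + ‖Z.T‖ * ‖Z.Qo‖ * ‖(a : R)‖ * ‖Z.T‖ := by ring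
    rw [h7]
    linarith

theorem E1_mono {D D' : NonUnitalSubalgebra ℂ R'} (h : D ≤ D') : E1 D ≤ E1 D' := by
  refine Subgroup.closure_mono ?_
  rintro v ⟨hv, hv1⟩
  exact ⟨⟨h hv.1, h hv.2⟩, hv1⟩

end Pool.Agent.Lib.MP_aa9b81_an.Rc
end
end

section

/-!
# The machine, part A1: the difference map, multiplicativity
-/

open scoped ENNReal Topology
open Function

noncomputable section

namespace Pool.Agent.Lib.MP_aa9b81_an.Mc

open Cut Hs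

variable {R R' : Type} [NormedRing R] [NormedAlgebra ℂ R] [NormedRing R'] [NormedAlgebra ℂ R']
  {A : NonUnitalSubalgebra ℂ R}

/-- PROOF: `Units.ext`; with `x = u - 1`, `y = v - 1`: `u v - 1 = x y + x + y`, `map_add`, `map_mul`. -/
theorem exS_mul (α : A →ₙ+* R') (u v : GL1 A) : exS α (u * v) = exS α u * exS α v := by
  apply Units.ext
  rw [Units.val_mul, exS_val, exS_val, exS_val]
  have h : (⟨((u * v).1 : R) - 1, (u * v).2.1⟩ : A) =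
      ⟨(u.1 : R) - 1, u.2.1⟩ * ⟨(v.1 : R) - 1, v.2.1⟩ + ⟨(u.1 : R) - 1, u.2.1⟩ +
        ⟨(v.1 : R) - 1, v.2.1⟩ := by
    apply Subtype.ext
    change ((u.1 * v.1 : Rˣ) : R) - 1 =
      ((u.1 : R) - 1) * ((v.1 : R) - 1) + ((u.1 : R) - 1) + ((v.1 : R) - 1)
    rw [Units.val_mul]
    noncomm_ring
  rw [h, map_add, map_add, map_mul]
  noncomm_ring

/-- PROOF: `Units.ext`, `exS_val`, `map_zero`. -/
theorem exS_one (α : A →ₙ+* R') : exS α 1 = 1 := by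
  have h := exS_mul α 1 1
  rw [mul_one] at h
  exact left_eq_mul.mp h

/-- PROOF: from `exS_mul`, `exS_one`. -/
theorem exS_inv' (α : A →ₙ+* R') (u : GL1 A) : exS α u⁻¹ = (exS α u)⁻¹ := by
  rw [eq_inv_iff_mul_eq_one, ← exS_mul, inv_mul_cancel, exS_one]

/-- PROOF: `dU = exS α * (exS β)⁻¹`, `exS_mul`, `mul_inv_rev`; group calculation. -/
theorem dU_mul (α β : A →ₙ+* R') (u v : GL1 A) :
    dU α β (u * v) = exS α u * dU α β v * (exS α u)⁻¹ * dU α β u := by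
  unfold dU
  rw [exS_mul, exS_mul, mul_inv_rev]
  group

/-- PROOF: `exS_inv'`; group calculation. -/
theorem dU_inv' (α β : A →ₙ+* R') (u : GL1 A) :
    dU α β u⁻¹ = (exS α u)⁻¹ * (dU α β u)⁻¹ * exS α u := by
  unfold dU
  rw [exS_inv', exS_inv', mul_inv_rev]
  group

/-- PROOF: `exS_val`, `IsMul.one`, `IsMul.add`. -/
theorem isMul_exS {D : NonUnitalSubalgebra ℂ R'} {α : A →ₙ+* R'} (h : ∀ a, IsMul D (α a))
    (u : GL1 A) : IsMul D ((exS α u : R'ˣ) : R') ∧ IsMul D (((exS α u)⁻¹ : R'ˣ) : R') := by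
  rw [exS_val, exS_inv]
  exact ⟨IsMul.one.add (h _), IsMul.one.add (h _)⟩

end Pool.Agent.Lib.MP_aa9b81_an.Mc
end
end

section

/-!
# The machine, part A2: the difference map and the path component of 1
-/

open scoped ENNReal Topology
open Function

noncomputable section

namespace Pool.Agent.Lib.MP_aa9b81_an.Mc

open Cut Hs

variable {R R' : Type} [NormedRing R] [NormedAlgebra ℂ R] [NormedRing R'] [NormedAlgebra ℂ R']
  {A : NonUnitalSubalgebra ℂ R} {D : NonUnitalSubalgebra ℂ R'}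

/-- PROOF: `α a = β a + (α a - β a)`: `IsMul.add`, `IsMul.of_mem`. -/
theorem isMul_α {α β : A →ₙ+* R'} (h : ∀ a, α a - β a ∈ D) (hβ : ∀ a, IsMul D (β a)) (a : A) :
    IsMul D (α a) := by
  have e : α a = β a + (α a - β a) := by abel
  rw [e]
  exact (hβ a).add (IsMul.of_mem (h a))

/-- PROOF: `dU (u w) (dU u)⁻¹ = exS α u * dU w * (exS α u)⁻¹` (`dU_mul`), `conj_mem_E1`, `isMul_exS`, `isMul_α`. -/
theorem dU_right [CompleteSpace R'] (hD : IsClosed (D : Set R')) {α β : A →ₙ+* R'}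
    (h : ∀ a, α a - β a ∈ D) (hβ : ∀ a, IsMul D (β a)) (u w : GL1 A) (hw : dU α β w ∈ E1 D) :
    dU α β (u * w) * (dU α β u)⁻¹ ∈ E1 D := by
  rw [dU_mul, mul_inv_cancel_right]
  have hm := isMul_exS (isMul_α h hβ) u
  exact conj_mem_E1 hD hm.1 hm.2 hw

/-- Elements near to `1`. PROOF: `x = u - 1`, `y = u⁻¹ - 1`, `x + y + x y = 0`. For `‖x‖ ≤ 1/2`: `‖y‖ ≤ ‖x‖ + ‖x‖ ‖y‖`, so
`‖y‖ ≤ 2 ‖x‖ ≤ 1`. By `dU_val` and `(1 + β x)(1 + β y) = 1` (`exS_aux`): `dU - 1 = (α x - β x)(1 + β y)`, of norm at most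
`2 C ‖x‖ (‖1‖ + C)`. Take `δ = min (1/2) (1 / (4 (C + 1) (‖1‖ + C + 1)))`; `dU_mem_GL1`, `Cut.mem_E1_of_small`. -/
theorem dU_small {α β : A →ₙ+* R'} {C : ℝ} (hC : 0 ≤ C)
    (hα : ∀ a : A, ‖α a‖ ≤ C * ‖(a : R)‖) (hβ' : ∀ a : A, ‖β a‖ ≤ C * ‖(a : R)‖)
    (h : ∀ a, α a - β a ∈ D) (hβ : ∀ a, IsMul D (β a)) :
    ∃ δ : ℝ, 0 < δ ∧ ∀ u : GL1 A, ‖((u : Rˣ) : R) - 1‖ < δ → dU α β u ∈ E1 D := by
  have hN : 0 ≤ ‖(1 : R')‖ := norm_nonneg _
  have hK : 0 < 4 * (C + 1) * (‖(1 : R')‖ + C + 1) := by positivity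
  refine ⟨min (1 / 2) (1 / (4 * (C + 1) * (‖(1 : R')‖ + C + 1))),
    lt_min (by norm_num) (by positivity), fun u hu => ?_⟩
  obtain ⟨hu1, hu2⟩ := lt_min_iff.1 hu
  refine mem_E1_of_small (dU_mem_GL1 h hβ u) ?_
  obtain ⟨x, hx⟩ : ∃ x : A, x = ⟨(u.1 : R) - 1, u.2.1⟩ := ⟨_, rfl⟩
  obtain ⟨y, hy⟩ : ∃ y : A, y = ⟨((u.1⁻¹ : Rˣ) : R) - 1, u.2.2⟩ := ⟨_, rfl⟩
  have hxv : (x : R) = (u.1 : R) - 1 := by rw [hx]
  have hyv : (y : R) = ((u.1⁻¹ : Rˣ) : R) - 1 := by rw [hy]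
  have hxy : (y : R) = -((x : R) + (x : R) * (y : R)) := by
    have h1 : ((u.1 : R) - 1) * (((u.1⁻¹ : Rˣ) : R) - 1) =
        1 - (u.1 : R) - ((u.1⁻¹ : Rˣ) : R) + 1 := by
      rw [sub_mul, mul_sub, Units.mul_inv, one_mul, mul_one]
      abel
    rw [hxv, hyv, h1]
    abel
  rw [← hxv] at hu1 hu2
  have hx0 := norm_nonneg (x : R)
  have hy0 := norm_nonneg (y : R)
  have hy1 : ‖(y : R)‖ ≤ ‖(x : R)‖ + ‖(x : R)‖ * ‖(y : R)‖ := by
    calc ‖(y : R)‖ = ‖-((x : R) + (x : R) * (y : R))‖ := congrArg norm hxy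
      _ ≤ ‖(x : R)‖ + ‖(x : R) * (y : R)‖ := by
        rw [norm_neg]
        exact norm_add_le _ _
      _ ≤ _ := by
        have := norm_mul_le (x : R) (y : R)
        linarith
  have hy2 : ‖(y : R)‖ ≤ 1 := by nlinarith
  have haux := (exS_aux β u).1
  rw [← hx, ← hy] at haux
  have hval : ((dU α β u : R'ˣ) : R') - 1 = (α x - β x) * (1 + β y) := by
    rw [dU_val, ← hx, ← hy]
    calc (1 + α x) * (1 + β y) - 1 = (1 + α x) * (1 + β y) - (1 + β x) * (1 + β y) := by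
          rw [haux]
      _ = (α x - β x) * (1 + β y) := by
          rw [← sub_mul]
          congr 1
          abel
  rw [hval]
  have h1 : ‖α x - β x‖ ≤ 2 * C * ‖(x : R)‖ := by
    have h2 := norm_sub_le (α x) (β x)
    have h3 := hα x
    have h4 := hβ' x
    linarith
  have h2 : ‖1 + β y‖ ≤ ‖(1 : R')‖ + C := by
    have h3 := norm_add_le (1 : R') (β y)
    have h4 := hβ' y
    have h5 : C * ‖(y : R)‖ ≤ C * 1 := mul_le_mul_of_nonneg_left hy2 hC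
    linarith
  have h3 : ‖(x : R)‖ * (4 * (C + 1) * (‖(1 : R')‖ + C + 1)) < 1 := by
    rwa [lt_div_iff₀ hK] at hu2
  have h4 : 2 * C * ‖(x : R)‖ * (‖(1 : R')‖ + C) ≤
      2 * (C + 1) * ‖(x : R)‖ * (‖(1 : R')‖ + C + 1) := by
    apply mul_le_mul _ (by linarith) (by positivity) (by positivity)
    apply mul_le_mul_of_nonneg_right _ hx0
    linarith
  have h5 : 2 * (C + 1) * ‖(x : R)‖ * (‖(1 : R')‖ + C + 1) =
      ‖(x : R)‖ * (4 * (C + 1) * (‖(1 : R')‖ + C + 1)) / 2 := by ring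
  calc ‖(α x - β x) * (1 + β y)‖ ≤ ‖α x - β x‖ * ‖1 + β y‖ := norm_mul_le _ _
    _ ≤ 2 * C * ‖(x : R)‖ * (‖(1 : R')‖ + C) :=
        mul_le_mul h1 h2 (norm_nonneg _) (by positivity)
    _ < 1 := by linarith

end Pool.Agent.Lib.MP_aa9b81_an.Mc
end
end

section

/-!
# The machine, part A2: the difference map and the path component of 1
-/

open scoped ENNReal Topology
open Function

noncomputable section

namespace Pool.Agent.Lib.MP_aa9b81_an.Mc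

open Cut Hs

variable {R R' : Type} [NormedRing R] [NormedAlgebra ℂ R] [NormedRing R'] [NormedAlgebra ℂ R']
  {A : NonUnitalSubalgebra ℂ R} {D : NonUnitalSubalgebra ℂ R'}

/-- PROOF: `δ` from `dU_small`; by `Cut.E1_le_closure` the unit `u` is in the closure of the `v ∈ GL1 A` with
`‖v - 1‖ < δ`. `Subgroup.closure_induction` for the property `∃ hv : v ∈ GL1 A, dU α β ⟨v, hv⟩ ∈ E1 D`: generators
`dU_small`; `1`: `dU 1 = 1`; products: `dU_mul` with `conj_mem_E1` (`isMul_exS`, `isMul_α`); inverses: `dU_inv'` with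
`conj_mem_E1` for `m = (exS α u)⁻¹`. -/
theorem dU_mem_E1 [CompleteSpace R] [CompleteSpace R'] (hA : IsClosed (A : Set R))
    (hD : IsClosed (D : Set R')) {α β : A →ₙ+* R'} {C : ℝ} (hC : 0 ≤ C)
    (hα : ∀ a : A, ‖α a‖ ≤ C * ‖(a : R)‖) (hβ' : ∀ a : A, ‖β a‖ ≤ C * ‖(a : R)‖)
    (h : ∀ a, α a - β a ∈ D) (hβ : ∀ a, IsMul D (β a)) (u : GL1 A) (hu : (u : Rˣ) ∈ E1 A) :
    dU α β u ∈ E1 D := by
  obtain ⟨δ, hδ, hδ'⟩ := dU_small hC hα hβ' h hβ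
  have key : ∀ v ∈ Subgroup.closure {v : Rˣ | v ∈ GL1 A ∧ ‖(v : R) - 1‖ < δ},
      ∃ hv : v ∈ GL1 A, dU α β ⟨v, hv⟩ ∈ E1 D := by
    intro v hv
    induction hv using Subgroup.closure_induction with
    | mem x hx => exact ⟨hx.1, hδ' ⟨x, hx.1⟩ hx.2⟩
    | one =>
      refine ⟨one_mem _, ?_⟩
      have e : dU α β ⟨1, one_mem _⟩ = 1 := by
        change exS α 1 * (exS β 1)⁻¹ = 1
        rw [exS_one, exS_one, inv_one, mul_one]
      rw [e]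
      exact one_mem _
    | mul x y _ _ hx hy =>
      obtain ⟨hx1, hx2⟩ := hx
      obtain ⟨hy1, hy2⟩ := hy
      refine ⟨mul_mem hx1 hy1, ?_⟩
      have e : dU α β ⟨x * y, mul_mem hx1 hy1⟩ =
          exS α ⟨x, hx1⟩ * dU α β ⟨y, hy1⟩ * (exS α ⟨x, hx1⟩)⁻¹ * dU α β ⟨x, hx1⟩ :=
        dU_mul α β ⟨x, hx1⟩ ⟨y, hy1⟩
      rw [e]
      have hm := isMul_exS (isMul_α h hβ) ⟨x, hx1⟩
      exact mul_mem (conj_mem_E1 hD hm.1 hm.2 hy2) hx2
    | inv x _ hx =>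
      obtain ⟨hx1, hx2⟩ := hx
      refine ⟨inv_mem hx1, ?_⟩
      have e : dU α β ⟨x⁻¹, inv_mem hx1⟩ =
          (exS α ⟨x, hx1⟩)⁻¹ * (dU α β ⟨x, hx1⟩)⁻¹ * ((exS α ⟨x, hx1⟩)⁻¹)⁻¹ := by
        rw [inv_inv]
        exact dU_inv' α β ⟨x, hx1⟩
      rw [e]
      have hm := isMul_exS (isMul_α h hβ) ⟨x, hx1⟩
      exact conj_mem_E1 hD hm.2 (by rw [inv_inv]; exact hm.1) (inv_mem hx2)
  obtain ⟨_, h2⟩ := key u.1 (E1_le_closure hA hδ hu)
  exact h2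

end Pool.Agent.Lib.MP_aa9b81_an.Mc
end
end
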