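import Pool.Agent.Lib.MP_aa9b81_an.Mg.G078
import Pool.Agent.Lib.MP_aa9b81_an.Mg.G073
import Pool.Agent.Lib.MP_aa9b81_an.Mg.G075
import Pool.Agent.Lib.MP_aa9b81_an.Mg.G074

section

/-!
# Hereditary shifts, part F0: configurations, definitions
-/

open scoped ENNReal Topology ZeroAtInfty
open Function Filter Set

noncomputable section

namespace Pool.Agent.Lib.MP_aa9b81_an.Hs

open Cut

/-- The configurations `I → A`. -/
def Cf (I A : Type) : Type := I → A

instance (I A : Type) [TopologicalSpace A] : TopologicalSpace (Cf I A) :=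
  inferInstanceAs (TopologicalSpace (I → A))

instance (I A : Type) [TopologicalSpace A] [T2Space A] : T2Space (Cf I A) :=
  inferInstanceAs (T2Space (I → A))

instance (I A : Type) [TopologicalSpace A] [CompactSpace A] : CompactSpace (Cf I A) :=
  inferInstanceAs (CompactSpace (I → A))

instance (Γ I A : Type) [Group Γ] [MulAction Γ I] : MulAction Γ (Cf I A) where
  smul g y := fun i => y (g⁻¹ • i)
  one_smul y := funext fun i => by
    change y ((1 : Γ)⁻¹ • i) = y i
    rw [inv_one, one_smul]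
  mul_smul g h y := funext fun i => by
    change y ((g * h)⁻¹ • i) = y (h⁻¹ • g⁻¹ • i)
    rw [mul_inv_rev, mul_smul]

section

variable {Γ Z I A : Type} [Group Γ] [MulAction Γ I] [TopologicalSpace A]

omit [TopologicalSpace A] in
@[simp] lemma Cf.smul_apply (g : Γ) (y : Cf I A) (i : I) : (g • y) i = y (g⁻¹ • i) := rfl

instance : ContinuousConstSMul Γ (Cf I A) :=
  ⟨fun g => continuous_pi fun i => continuous_apply (g⁻¹ • i)⟩

end

open Classical in
/-- Reset the coordinates outside `J` to `a₀`. -/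
def cut {I A : Type} (a₀ : A) (J : Set I) (y : Cf I A) : Cf I A := fun i => if i ∈ J then y i else a₀

lemma cut_of_mem {I A : Type} {a₀ : A} {J : Set I} (y : Cf I A) {i : I} (h : i ∈ J) :
    cut a₀ J y i = y i := by
  rw [cut, if_pos h]

lemma cut_of_notMem {I A : Type} {a₀ : A} {J : Set I} (y : Cf I A) {i : I} (h : i ∉ J) :
    cut a₀ J y i = a₀ := by
  rw [cut, if_neg h]

/-- A closed invariant set `Y ⊆ Z × A^I` which is hereditary: stable under resetting coordinates to `a₀`. -/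
structure Hered (Γ Z I A : Type) [Group Γ] [MulAction Γ I] [MulAction Γ Z] [TopologicalSpace Z]
    [TopologicalSpace A] (a₀ : A) where
  /-- the set -/
  carrier : Set (Z × Cf I A)
  closed : IsClosed carrier
  smul_mem : ∀ (g : Γ), ∀ x ∈ carrier, g • x ∈ carrier
  cut_mem : ∀ (J : Set I), ∀ x ∈ carrier, (x.1, cut a₀ J x.2) ∈ carrier

variable {Γ Z I A : Type} [Group Γ] [MulAction Γ I] [MulAction Γ Z] [TopologicalSpace Z]
    [TopologicalSpace A] {a₀ : A}

/-- The points `(z, y)` of `Y` with `y ≠ (a₀)`. -/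
def Hered.St (Y : Hered Γ Z I A a₀) : Type :=
  {x : Z × Cf I A // x ∈ Y.carrier ∧ ∃ i, x.2 i ≠ a₀}

variable (Y : Hered Γ Z I A a₀)

instance : TopologicalSpace Y.St :=
  inferInstanceAs (TopologicalSpace {x : Z × Cf I A // x ∈ Y.carrier ∧ ∃ i, x.2 i ≠ a₀})

namespace Hered

/-- The base point. -/
def z (x : Y.St) : Z := x.1.1

/-- The configuration. -/
def y (x : Y.St) : Cf I A := x.1.2

instance : MulAction Γ Y.St where
  smul g x := ⟨g • x.1, Y.smul_mem g x.1 x.2.1, by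
    obtain ⟨i, hi⟩ := x.2.2
    refine ⟨g • i, ?_⟩
    change x.1.2 (g⁻¹ • g • i) ≠ a₀
    rwa [inv_smul_smul]⟩
  one_smul x := Subtype.ext (one_smul Γ x.1)
  mul_smul g h x := Subtype.ext (mul_smul g h x.1)

@[simp] lemma z_smul (g : Γ) (x : Y.St) : Y.z (g • x) = g • Y.z x := rfl

@[simp] lemma y_smul (g : Γ) (x : Y.St) (i : I) : Y.y (g • x) i = Y.y x (g⁻¹ • i) := rfl

variable {Y} in
lemma ext {x x' : Y.St} (h : Y.z x = Y.z x') (h' : Y.y x = Y.y x') : x = x' :=
  Subtype.ext (Prod.ext h h')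

lemma continuous_z : Continuous Y.z := continuous_fst.comp continuous_subtype_val

lemma continuous_y (i : I) : Continuous fun x => Y.y x i :=
  (continuous_apply i).comp (continuous_snd.comp continuous_subtype_val)

open Classical in
/-- The point `(z, cut J y)`, if it is not in the zero section. -/
def cutP (J : Set I) (x : Y.St) : Option Y.St :=
  if h : ∃ i ∈ J, Y.y x i ≠ a₀ then
    some ⟨(Y.z x, cut a₀ J (Y.y x)), Y.cut_mem J x.1 x.2.1, by
      obtain ⟨i, hi, hi'⟩ := h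
      refine ⟨i, ?_⟩
      change (if i ∈ J then Y.y x i else a₀) ≠ a₀
      rwa [if_pos hi]⟩
  else none

open Classical in
/-- `(F, S) ↦ (z, cut (F ∖ S) y)`, for `F ⊆ supp y`. -/
def pi0 (x : Y.St) (b : Bs I) : Option Y.St :=
  if ∀ i ∈ b.F, Y.y x i ≠ a₀ then Y.cutP {i | i ∈ b.F ∧ i ∉ b.S} x else none

open Classical in
/-- `(F, S) ↦ (z, cut (F^c) y)`, for `F ⊆ supp y`. -/
def pi1 (x : Y.St) (b : Bs I) : Option Y.St :=
  if ∀ i ∈ b.F, Y.y x i ≠ a₀ then Y.cutP {i | i ∉ b.F} x else none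

end Hered

/-- A height function on the pointed space `(A, a₀)`. -/
structure Ht (A : Type) [TopologicalSpace A] (a₀ : A) where
  /-- the function -/
  h : A → ℝ
  cont : Continuous h
  nonneg : ∀ a, 0 ≤ h a
  le_one : ∀ a, h a ≤ 1
  eq_zero : ∀ a, h a = 0 ↔ a = a₀

lemma Ht.pos_iff (h : Ht A a₀) (a : A) : 0 < h.h a ↔ a ≠ a₀ := by
  rw [← not_iff_not, not_lt, ne_eq, not_not, ← h.eq_zero]
  exact ⟨fun h1 => le_antisymm h1 (h.nonneg a), fun h1 => h1.le⟩

/-- PROOF: `a ↦ min 1 (dist a a₀)` for a metric (`TopologicalSpace.metrizableSpaceMetric`). -/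
theorem exists_ht (A : Type) [TopologicalSpace A] [TopologicalSpace.MetrizableSpace A] (a₀ : A) :
    Nonempty (Ht A a₀) := by
  letI := TopologicalSpace.metrizableSpaceMetric A
  exact ⟨{ h := fun a => min 1 (dist a a₀)
           cont := continuous_const.min (continuous_id.dist continuous_const)
           nonneg := fun a => le_min zero_le_one dist_nonneg
           le_one := fun a => min_le_left _ _
           eq_zero := fun a => by
            constructor
            · intro h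
              rcases min_choice (1 : ℝ) (dist a a₀) with h1 | h1
              · rw [h1] at h
                exact absurd h one_ne_zero
              · rw [h1] at h
                exact dist_eq_zero.1 h
            · rintro rfl
              simp }⟩

/-- The sites of a hereditary set. -/
def Hered.site (h : Ht A a₀) : Site Γ Y.St I where
  hh x i := h.h (Y.y x i)
  nonneg _ _ := h.nonneg _
  le_one _ _ := h.le_one _
  cont i := h.cont.comp (Y.continuous_y i)
  equi g x i := by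
    change h.h (Y.y x (g⁻¹ • g • i)) = _
    rw [inv_smul_smul]

lemma Hered.mem_supp (h : Ht A a₀) (x : Y.St) (i : I) :
    i ∈ (Y.site h).supp x ↔ Y.y x i ≠ a₀ := h.pos_iff _

end Pool.Agent.Lib.MP_aa9b81_an.Hs
end
end

section

/-!
# Hereditary shifts, part B1a: covariant families
-/

open scoped ENNReal Topology
open Function

noncomputable section

namespace Pool.Agent.Lib.MP_aa9b81_an.Hs

open Cut

variable {Γ B P : Type} [Group Γ] [MulAction Γ B]

/-- PROOF: `ε(1, b) = ε(1, b) ε(1, b)` (`E.mul 1 1 b`) and `ε(1, b) ≠ 0` (`E.norm`). -/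
theorem SAct.ε_one (E : SAct Γ B) (b : B) : E.ε 1 b = 1 := by
  have h1 := E.mul 1 1 b
  rw [mul_one, one_smul] at h1
  have h2 : E.ε 1 b ≠ 0 := by
    intro h
    have h3 := E.norm 1 b
    rw [h, norm_zero] at h3
    exact zero_ne_one h3
  have h3 : E.ε 1 b * 1 = E.ε 1 b * E.ε 1 b := by rw [mul_one]; exact h1
  exact (mul_left_cancel₀ h2 h3).symm

/-- PROOF: `W_apply`, `ε_one`, `lp.ext`. -/
theorem SAct.W_one (E : SAct Γ B) : E.W 1 = 1 := by
  refine ContinuousLinearMap.ext fun ξ => ?_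
  ext b
  rw [E.W_apply, E.ε_one, inv_one, one_smul, one_mul]
  rfl

/-- PROOF: at `b`, with `b' = h⁻¹ g⁻¹ b`: `(W_g W_h ξ)(b) = ε(g, g⁻¹ b) ε(h, h⁻¹ g⁻¹ b) ξ(h⁻¹ g⁻¹ b)
= ε(g h, b') ξ(b')` by `E.mul g h b'`. -/
theorem SAct.W_mul (E : SAct Γ B) (g h : Γ) : E.W (g * h) = E.W g * E.W h := by
  refine ContinuousLinearMap.ext fun ξ => ?_
  ext b
  rw [mul_apply_eq_comp, E.W_apply, E.W_apply, E.W_apply, mul_inv_rev, mul_smul, E.mul,
    smul_inv_smul, mul_assoc]

theorem SAct.W_inv_mul (E : SAct Γ B) (g : Γ) : E.W g⁻¹ * E.W g = 1 := by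
  rw [← E.W_mul, inv_mul_cancel, E.W_one]

theorem SAct.W_mul_inv (E : SAct Γ B) (g : Γ) : E.W g * E.W g⁻¹ = 1 := by
  rw [← E.W_mul, mul_inv_cancel, E.W_one]

variable [Nonempty B] [MulAction Γ P]

/-- The family `(T_p ξ)(s, c(k, ·)) = n_{s p} (ξ(s, c(k, ·)))`. -/
def m1 (c : ℕ × B ≃ ℕ) (n : FB B P) : Fam Γ P :=
  Fam.mk (fun p => dgs c fun s => n (s • p)) ‖n‖ fun p =>
    norm_dgs_le c (norm_nonneg n) fun s => n.norm_apply_le (s • p)

omit [MulAction Γ B] in
lemma m1_apply (c : ℕ × B ≃ ℕ) (n : FB B P) (p : P) :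
    (m1 c n : Fam Γ P) p = dgs c fun s => n (s • p) := rfl

omit [MulAction Γ B] in
lemma sk_m1 (c : ℕ × B ≃ ℕ) (n : FB B P) (p : P) (ξ : Hil Γ) (s : Γ) (k : ℕ) :
    sk c s k (m1 c n p ξ) = n (s • p) (sk c s k ξ) := by
  rw [m1_apply]
  exact sk_dgs c (norm_nonneg n) (fun s => n.norm_apply_le (s • p)) ξ s k

omit [MulAction Γ B] in
lemma norm_m1_le (c : ℕ × B ≃ ℕ) (n : FB B P) : ‖(m1 c n : Fam Γ P)‖ ≤ ‖n‖ := by
  rw [Fam.norm_le_iff (norm_nonneg n)]
  intro p
  rw [m1_apply]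
  exact norm_dgs_le c (norm_nonneg n) fun s => n.norm_apply_le (s • p)

omit [MulAction Γ B] in
/-- PROOF: `Fam.ext`, `ContinuousLinearMap.ext`, `ext_sk`, `sk_m1`, `map_add`. -/
theorem m1_add (c : ℕ × B ≃ ℕ) (n n' : FB B P) : (m1 c (n + n') : Fam Γ P) = m1 c n + m1 c n' := by
  refine Fam.ext fun p => ContinuousLinearMap.ext fun ξ => ext_sk c fun s k => ?_
  rw [Fam.add_apply, add_apply, map_add, sk_m1, sk_m1, sk_m1, FB.add_apply,
    add_apply]

omit [MulAction Γ B] in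
/-- PROOF: as `m1_add`. -/
theorem m1_sub (c : ℕ × B ≃ ℕ) (n n' : FB B P) : (m1 c (n - n') : Fam Γ P) = m1 c n - m1 c n' := by
  refine Fam.ext fun p => ContinuousLinearMap.ext fun ξ => ext_sk c fun s k => ?_
  rw [Fam.sub_apply, sub_apply, map_sub, sk_m1, sk_m1, sk_m1, FB.sub_apply,
    sub_apply]

end Pool.Agent.Lib.MP_aa9b81_an.Hs
end
end

section

/-!
# Hereditary shifts, part C0a: the homomorphism given by a covariant partial map, definition
-/

open scoped ENNReal Topology ZeroAtInfty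
open Function

noncomputable section

namespace Pool.Agent.Lib.MP_aa9b81_an.Hs

open Cut

variable {Γ B P X : Type} [Group Γ] [MulAction Γ B] [Nonempty B] [MulAction Γ P] [MulAction Γ X]

/-- An equivariant partial map `P × B ⇀ X`. -/
structure PMap (Γ P B X : Type) [Group Γ] [MulAction Γ B] [MulAction Γ P] [MulAction Γ X] where
  /-- the map -/
  f : P → B → Option X
  equi : ∀ (g : Γ) p b, f (g • p) (g • b) = (f p b).map (g • ·)

omit [Group Γ] [MulAction Γ X] in
/-- The operator `a_x` for `x = some _`, and `0` for `none`. -/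
def opt (a : Fam Γ X) (o : Option X) : Op Γ := o.elim 0 fun x => a x

omit [Group Γ] [MulAction Γ X] in
@[simp] lemma opt_none (a : Fam Γ X) : opt a none = 0 := rfl

omit [Group Γ] [MulAction Γ X] in
@[simp] lemma opt_some (a : Fam Γ X) (x : X) : opt a (some x) = a x := rfl

omit [MulAction Γ X] in
lemma norm_opt_le (a : Fam Γ X) (o : Option X) : ‖opt a o‖ ≤ ‖a‖ := by
  cases o with
  | none => simp
  | some x => exact a.norm_apply_le x

/-- The unitary `sk s k (V ξ) = W_s (sk s k ξ)`. -/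
def SAct.V (c : ℕ × B ≃ ℕ) (E : SAct Γ B) : Op Γ := dgs c fun s => E.W s

/-- The inverse of `V`. -/
def SAct.V' (c : ℕ × B ≃ ℕ) (E : SAct Γ B) : Op Γ := dgs c fun s => E.W s⁻¹

lemma SAct.sk_V (c : ℕ × B ≃ ℕ) (E : SAct Γ B) (ξ : Hil Γ) (s : Γ) (k : ℕ) :
    sk c s k (E.V c ξ) = E.W s (sk c s k ξ) := by
  rw [SAct.V]
  exact sk_dgs c zero_le_one (fun s => E.norm_W_le s) ξ s k

lemma SAct.sk_V' (c : ℕ × B ≃ ℕ) (E : SAct Γ B) (ξ : Hil Γ) (s : Γ) (k : ℕ) :
    sk c s k (E.V' c ξ) = E.W s⁻¹ (sk c s k ξ) := by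
  rw [SAct.V']
  exact sk_dgs c zero_le_one (fun s => E.norm_W_le s⁻¹) ξ s k

lemma SAct.norm_V_le (c : ℕ × B ≃ ℕ) (E : SAct Γ B) : ‖E.V c‖ ≤ 1 := by
  rw [SAct.V]
  exact norm_dgs_le c zero_le_one (fun s => E.norm_W_le s)

lemma SAct.norm_V'_le (c : ℕ × B ≃ ℕ) (E : SAct Γ B) : ‖E.V' c‖ ≤ 1 := by
  rw [SAct.V']
  exact norm_dgs_le c zero_le_one (fun s => E.norm_W_le s⁻¹)

/-- PROOF: `ext_sk`, `sk_V`, `sk_V'`, `W_mul_inv`. -/
theorem SAct.V_mul_V' (c : ℕ × B ≃ ℕ) (E : SAct Γ B) : E.V c * E.V' c = 1 := by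
  refine ContinuousLinearMap.ext fun ξ => ext_sk c fun s k => ?_
  rw [mul_apply_eq_comp, E.sk_V, E.sk_V', ← mul_apply_eq_comp, E.W_mul_inv]
  rfl

/-- PROOF: as `V_mul_V'`, `W_inv_mul`. -/
theorem SAct.V'_mul_V (c : ℕ × B ≃ ℕ) (E : SAct Γ B) : E.V' c * E.V c = 1 := by
  refine ContinuousLinearMap.ext fun ξ => ext_sk c fun s k => ?_
  rw [mul_apply_eq_comp, E.sk_V', E.sk_V, ← mul_apply_eq_comp, E.W_inv_mul]
  rfl

omit [Nonempty B] [MulAction Γ P] [MulAction Γ X] [MulAction Γ B] in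
/-- PROOF: `ContinuousLinearMap.ext`, `ext_sb c`, `sb_dsum`. -/
theorem dsum_add (c : ℕ × B ≃ ℕ) {A A' : B → Op Γ} {C C' : ℝ} (hC : 0 ≤ C) (h : ∀ b, ‖A b‖ ≤ C)
    (hC' : 0 ≤ C') (h' : ∀ b, ‖A' b‖ ≤ C') :
    dsum c (fun b => A b + A' b) = dsum c A + dsum c A' := by
  refine ContinuousLinearMap.ext fun ξ => ext_sb c fun b => ?_
  have hs : ∀ b, ‖A b + A' b‖ ≤ C + C' := fun b => (norm_add_le _ _).trans (add_le_add (h b) (h' b))
  rw [add_apply, map_add, sb_dsum c hC h, sb_dsum c hC' h', sb_dsum c (add_nonneg hC hC') hs,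
    add_apply]

omit [Nonempty B] [MulAction Γ P] [MulAction Γ X] [MulAction Γ B] in
/-- PROOF: as `dsum_add`. -/
theorem dsum_mul (c : ℕ × B ≃ ℕ) {A A' : B → Op Γ} {C C' : ℝ} (hC : 0 ≤ C) (h : ∀ b, ‖A b‖ ≤ C)
    (hC' : 0 ≤ C') (h' : ∀ b, ‖A' b‖ ≤ C') :
    dsum c (fun b => A b * A' b) = dsum c A * dsum c A' := by
  refine ContinuousLinearMap.ext fun ξ => ext_sb c fun b => ?_
  have hs : ∀ b, ‖A b * A' b‖ ≤ C * C' := fun b =>
    (norm_mul_le _ _).trans (mul_le_mul (h b) (h' b) (norm_nonneg _) hC)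
  rw [mul_apply_eq_comp, sb_dsum c hC h, sb_dsum c hC' h', sb_dsum c (mul_nonneg hC hC') hs,
    mul_apply_eq_comp]

omit [Nonempty B] [MulAction Γ P] [MulAction Γ X] [MulAction Γ B] in
/-- PROOF: as `dsum_add`. -/
theorem dsum_smul (c : ℕ × B ≃ ℕ) (z : ℂ) {A : B → Op Γ} {C : ℝ} (hC : 0 ≤ C)
    (h : ∀ b, ‖A b‖ ≤ C) : dsum c (fun b => z • A b) = z • dsum c A := by
  refine ContinuousLinearMap.ext fun ξ => ext_sb c fun b => ?_
  have hs : ∀ b, ‖z • A b‖ ≤ ‖z‖ * C := fun b => by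
    rw [norm_smul]
    exact mul_le_mul_of_nonneg_left (h b) (norm_nonneg z)
  rw [smul_apply, map_smul, sb_dsum c hC h, sb_dsum c (mul_nonneg (norm_nonneg z) hC) hs,
    smul_apply]

/-- The value of `psi` at `p`. -/
def psiV (c : ℕ × B ≃ ℕ) (E : SAct Γ B) (π : P → B → Option X) (a : Fam Γ X) (p : P) : Op Γ :=
  E.V c * dsum c (fun b => opt a (π p b)) * E.V' c

lemma norm_psiV_le (c : ℕ × B ≃ ℕ) (E : SAct Γ B) (π : P → B → Option X) (a : Fam Γ X) (p : P) :
    ‖psiV c E π a p‖ ≤ ‖a‖ := by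
  have h1 : ‖dsum c (fun b => opt a (π p b))‖ ≤ ‖a‖ :=
    norm_dsum_le c (norm_nonneg a) fun b => norm_opt_le a _
  have h2 := E.norm_V_le c
  have h3 := E.norm_V'_le c
  rw [psiV]
  have h4 := norm_mul_le (E.V c) (dsum c (fun b => opt a (π p b)))
  have h5 := norm_mul_le (E.V c * dsum c (fun b => opt a (π p b))) (E.V' c)
  have h6 := norm_nonneg (E.V c)
  have h7 := norm_nonneg (E.V' c)
  have h8 := norm_nonneg (dsum c (fun b => opt a (π p b)))
  have h9 := norm_nonneg a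
  have h10 := norm_nonneg (E.V c * dsum c (fun b => opt a (π p b)))
  nlinarith

/-- PROOF: `psiV`, `dsum_add`, `norm_opt_le`; `opt (a + a') o = opt a o + opt a' o`. -/
theorem psiV_add (c : ℕ × B ≃ ℕ) (E : SAct Γ B) (π : P → B → Option X) (a a' : Fam Γ X) (p : P) :
    psiV c E π (a + a') p = psiV c E π a p + psiV c E π a' p := by
  have h : (fun b => opt (a + a') (π p b)) = fun b => opt a (π p b) + opt a' (π p b) := by
    funext b
    cases π p b with
    | none => simp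
    | some x => simp
  rw [psiV, psiV, psiV, h, dsum_add c (norm_nonneg a) (fun b => norm_opt_le a _) (norm_nonneg a')
    (fun b => norm_opt_le a' _), mul_add, add_mul]

end Pool.Agent.Lib.MP_aa9b81_an.Hs
end
end

section

/-!
# Hereditary shifts, part H1a: block diagonal and local families
-/

open scoped ENNReal Topology ZeroAtInfty
open Function Filter Set

noncomputable section

namespace Pool.Agent.Lib.MP_aa9b81_an.Hs

open Cut

section

variable {Γ I : Type} [Group Γ] [MulAction Γ I] [DecidableEq I]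

omit [Group Γ] [MulAction Γ I] in
/-- The projection onto the span of the pairs with `b.F = F`. -/
def BF (F : Finset I) : BL (Bs I) := dia fun b => if b.F = F then 1 else 0

omit [Group Γ] [MulAction Γ I] in
theorem BF_apply (F : Finset I) (ξ : L2 (Bs I)) (b : Bs I) :
    (BF F ξ : Bs I → ℂ) b = if b.F = F then (ξ : Bs I → ℂ) b else 0 := by
  rw [BF, dia_apply zero_le_one (fun b => by split_ifs <;> simp)]
  split_ifs <;> simp

omit [Group Γ] [MulAction Γ I] in
theorem norm_BF_le (F : Finset I) : ‖(BF F : BL (Bs I))‖ ≤ 1 :=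
  norm_dia_le zero_le_one fun b => by split_ifs <;> simp

/-- The projection onto the block `F`: on the slice `s` it is `BF (gF s F)`. -/
def eF (c : ℕ × Bs I ≃ ℕ) (F : Finset I) : Op Γ := dgs c fun s => BF (gF s F)

theorem sk_eF (c : ℕ × Bs I ≃ ℕ) (F : Finset I) (ξ : Hil Γ) (s : Γ) (k : ℕ) :
    sk c s k (eF c F ξ) = BF (gF s F) (sk c s k ξ) := by
  rw [eF]
  exact sk_dgs c zero_le_one (fun s => norm_BF_le _) ξ s k

theorem norm_eF_le (c : ℕ × Bs I ≃ ℕ) (F : Finset I) : ‖(eF c F : Op Γ)‖ ≤ 1 := by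
  rw [eF]
  exact norm_dgs_le c zero_le_one (fun s => norm_BF_le _)

theorem eF_apply (c : ℕ × Bs I ≃ ℕ) (F : Finset I) (ξ : Hil Γ) (s : Γ) (k : ℕ) (b : Bs I) :
    (eF c F ξ : Γ × ℕ → ℂ) (s, c (k, b)) =
      if b.F = gF s F then (ξ : Γ × ℕ → ℂ) (s, c (k, b)) else 0 := by
  rw [← sk_apply c s k (eF c F ξ) b, sk_eF, BF_apply, sk_apply]

/-- PROOF: `eF_apply`. -/
theorem eF_mul_eF (c : ℕ × Bs I ≃ ℕ) (F : Finset I) : (eF c F : Op Γ) * eF c F = eF c F := by
  refine ContinuousLinearMap.ext fun ξ => ?_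
  refine ext_sk c fun s k => ?_
  ext b
  rw [sk_apply, sk_apply]
  show (eF c F (eF c F ξ) : Γ × ℕ → ℂ) (s, c (k, b)) = _
  rw [eF_apply, eF_apply]
  split_ifs <;> rfl

/-- Two vectors with equal components in all the blocks are equal. PROOF: at `(s, c(k, b))` take `F = gF s⁻¹ b.F`,
`eF_apply`; every element of `ℕ` is `c (k, b)`. -/
theorem ext_eF (c : ℕ × Bs I ≃ ℕ) {ξ η : Hil Γ} (h : ∀ F, eF c F ξ = eF c F η) : ξ = η := by
  refine ext_sk c fun s k => ?_
  ext b
  rw [sk_apply, sk_apply]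
  have h1 := congrArg (fun ζ : Hil Γ => (ζ : Γ × ℕ → ℂ) (s, c (k, b))) (h (gF s⁻¹ b.F))
  have h2 : b.F = gF s (gF s⁻¹ b.F) := by
    rw [← gF_mul, mul_inv_cancel, gF_one]
  simp only [eF_apply] at h1
  rwa [if_pos h2, if_pos h2] at h1

/-- PROOF: at the slice `s`: `BF (gF s F) W_s = W_s BF F` (`W_mul_dia`; `(s⁻¹ • b).F = F ↔ b.F = gF s F`): `ext_sk`,
`sk_eF`, `SAct.sk_V`, `sk_dgs`; and `dsum` of the scalars `[b.F = F]` is the operator with
`sb b (· ξ) = [b.F = F] sb b ξ`, which on the slices is `BF F` (coordinates `sb_apply`, `sk_apply`). -/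
theorem eF_mul_V (c : ℕ × Bs I ≃ ℕ) (e : I ↪ ℕ) (F : Finset I) :
    (eF c F : Op Γ) * (sact e).V c =
      (sact e).V c * dsum c (fun b => if b.F = F then 1 else 0) := by
  have hn : ∀ b : Bs I, ‖(if b.F = F then (1 : Op Γ) else 0)‖ ≤ 1 := by
    intro b
    split_ifs
    · exact ContinuousLinearMap.norm_id_le
    · simp
  refine ContinuousLinearMap.ext fun ξ => ?_
  refine ext_sk c fun s k => ?_
  ext b
  show (sk c s k (eF c F ((sact e).V c ξ)) : Bs I → ℂ) b =
    (sk c s k ((sact e).V c (dsum c (fun b => if b.F = F then 1 else 0) ξ)) : Bs I → ℂ) b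
  rw [sk_eF, BF_apply, SAct.sk_V, SAct.sk_V, SAct.W_apply, SAct.W_apply, sk_apply, sk_apply,
    ← sb_apply c (s⁻¹ • b) (dsum c _ ξ) s k, sb_dsum c zero_le_one hn]
  have h3 : (s⁻¹ • b).F = F ↔ b.F = gF s F := by
    rw [Bs.smul_F]
    constructor
    · rintro rfl
      rw [← gF_mul, mul_inv_cancel, gF_one]
    · intro h
      rw [h, ← gF_mul, inv_mul_cancel, gF_one]
  by_cases hb : b.F = gF s F
  · rw [if_pos hb, if_pos (h3.2 hb)]
    show _ = _ * (sb c (s⁻¹ • b) ξ : Γ × ℕ → ℂ) (s, k)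
    rw [sb_apply]
  · rw [if_neg hb, if_neg fun h => hb (h3.1 h)]
    show _ = _ * (0 : ℂ)
    rw [mul_zero]

end

end Pool.Agent.Lib.MP_aa9b81_an.Hs
end
end

section

/-!
# Hereditary shifts, part H1b: block diagonal and local families
-/

open scoped ENNReal Topology ZeroAtInfty
open Function Filter Set

noncomputable section

namespace Pool.Agent.Lib.MP_aa9b81_an.Hs

open Cut

section

variable {Γ I : Type} [Group Γ] [MulAction Γ I] [DecidableEq I]

/-- PROOF: from `eF_mul_V` and `V' V = 1 = V V'`. -/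
theorem V'_mul_eF (c : ℕ × Bs I ≃ ℕ) (e : I ↪ ℕ) (F : Finset I) :
    (sact e).V' c * (eF c F : Op Γ) =
      dsum c (fun b => if b.F = F then 1 else 0) * (sact e).V' c := by
  have h := eF_mul_V (Γ := Γ) c e F
  have h1 := (sact e : SAct Γ (Bs I)).V_mul_V' c
  have h2 := (sact e : SAct Γ (Bs I)).V'_mul_V c
  calc (sact e).V' c * (eF c F : Op Γ)
      = (sact e).V' c * (eF c F * ((sact e).V c * (sact e).V' c)) := by rw [h1, mul_one]
    _ = (sact e).V' c * ((eF c F * (sact e).V c) * (sact e).V' c) := by simp only [mul_assoc]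
    _ = ((sact e).V' c * (sact e).V c) * dsum c (fun b => if b.F = F then 1 else 0) *
        (sact e).V' c := by rw [h]; simp only [mul_assoc]
    _ = _ := by rw [h2, one_mul]

end

variable {Γ Z I A : Type} [Group Γ] [MulAction Γ I] [MulAction Γ Z] [TopologicalSpace Z]
    [TopologicalSpace A] {a₀ : A} [DecidableEq I] (Y : Hered Γ Z I A a₀)

/-- Block diagonal, and the block `F ⊆ supp x` is the block at the point `cut F x`. -/
structure BD (c : ℕ × Bs I ≃ ℕ) (a : Fam Γ Y.St) : Prop where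
  comm : ∀ x F, eF c F * a x = a x * eF c F
  cut : ∀ x x' (F : Finset I), (∀ i ∈ F, Y.y x i ≠ a₀) → Y.cutP (F : Set I) x = some x' →
    a x * eF c F = a x' * eF c F

/-- Moreover the blocks vanish which are empty or not contained in the support. -/
structure Loc (c : ℕ × Bs I ≃ ℕ) (a : Fam Γ Y.St) : Prop extends BD Y c a where
  zero : ∀ x (F : Finset I), ¬ (F.Nonempty ∧ ∀ i ∈ F, Y.y x i ≠ a₀) → a x * eF c F = 0

variable {Y}

/-- PROOF: `comm`, `cut` for both factors: `a b eF = a eF b = a' eF b = a' b eF = a' b' eF`. -/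
theorem BD.mul {c : ℕ × Bs I ≃ ℕ} {a b : Fam Γ Y.St} (ha : BD Y c a) (hb : BD Y c b) :
    BD Y c (a * b) := by
  constructor
  · intro x F
    rw [Fam.mul_apply, ← mul_assoc, ha.comm, mul_assoc, hb.comm, mul_assoc]
  · intro x x' F h h'
    rw [Fam.mul_apply, Fam.mul_apply, mul_assoc, mul_assoc, hb.cut x x' F h h', ← hb.comm,
      ← mul_assoc, ← mul_assoc, ha.cut x x' F h h']

/-- PROOF: termwise. -/
theorem Loc.add {c : ℕ × Bs I ≃ ℕ} {a b : Fam Γ Y.St} (ha : Loc Y c a) (hb : Loc Y c b) :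
    Loc Y c (a + b) where
  comm x F := by
    rw [Fam.add_apply, mul_add, add_mul, ha.comm, hb.comm]
  cut x x' F h h' := by
    rw [Fam.add_apply, Fam.add_apply, add_mul, add_mul, ha.cut x x' F h h', hb.cut x x' F h h']
  zero x F h := by
    rw [Fam.add_apply, add_mul, ha.zero x F h, hb.zero x F h, add_zero]

theorem Loc.sub {c : ℕ × Bs I ≃ ℕ} {a b : Fam Γ Y.St} (ha : Loc Y c a) (hb : Loc Y c b) :
    Loc Y c (a - b) where
  comm x F := by
    rw [Fam.sub_apply, mul_sub, sub_mul, ha.comm, hb.comm]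
  cut x x' F h h' := by
    rw [Fam.sub_apply, Fam.sub_apply, sub_mul, sub_mul, ha.cut x x' F h h', hb.cut x x' F h h']
  zero x F h := by
    rw [Fam.sub_apply, sub_mul, ha.zero x F h, hb.zero x F h, sub_zero]

/-- PROOF: `BD.mul`; `a b eF = 0`. -/
theorem Loc.mul_left {c : ℕ × Bs I ≃ ℕ} {a b : Fam Γ Y.St} (ha : BD Y c a) (hb : Loc Y c b) :
    Loc Y c (a * b) where
  toBD := ha.mul hb.toBD
  zero x F h := by
    rw [Fam.mul_apply, mul_assoc, hb.zero x F h, mul_zero]

end Pool.Agent.Lib.MP_aa9b81_an.Hs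
end
end

section

/-!
# Hereditary shifts, part B1: covariant families
-/

open scoped ENNReal Topology
open Function

noncomputable section

namespace Pool.Agent.Lib.MP_aa9b81_an.Hs

open Cut

variable {Γ B P : Type} [Group Γ] [MulAction Γ B]

variable [Nonempty B] [MulAction Γ P]

omit [MulAction Γ B] in
/-- PROOF: as `m1_add`. -/
theorem m1_smul (c : ℕ × B ≃ ℕ) (z : ℂ) (n : FB B P) : (m1 c (z • n) : Fam Γ P) = z • m1 c n := by
  refine Fam.ext fun p => ContinuousLinearMap.ext fun ξ => ext_sk c fun s k => ?_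
  rw [Fam.smul_apply, smul_apply, map_smul, sk_m1, sk_m1, FB.smul_apply, smul_apply]

omit [MulAction Γ B] in
/-- PROOF: `Fam.ext`, `ContinuousLinearMap.ext`, `ext_sk c`, `sk_m1`. -/
theorem m1_mul (c : ℕ × B ≃ ℕ) (n n' : FB B P) : (m1 c (n * n') : Fam Γ P) = m1 c n * m1 c n' := by
  refine Fam.ext fun p => ContinuousLinearMap.ext fun ξ => ext_sk c fun s k => ?_
  rw [Fam.mul_apply, mul_apply_eq_comp, sk_m1, sk_m1, sk_m1, FB.mul_apply, mul_apply_eq_comp]

omit [MulAction Γ B] in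
/-- PROOF: `Fam.ext`, `ContinuousLinearMap.ext`, `ext_sk c`, `sk_m1`. -/
theorem m1_one (c : ℕ × B ≃ ℕ) : (m1 c (1 : FB B P) : Fam Γ P) = 1 := by
  refine Fam.ext fun p => ContinuousLinearMap.ext fun ξ => ext_sk c fun s k => ?_
  rw [sk_m1, FB.one_apply, Fam.one_apply]
  rfl

lemma cov_BOK (E : SAct Γ B) (g : Γ) (i j : ℕ) (n : FB B P) (p : P) :
    BOK (fun q : Γ × ℕ => (g⁻¹ * q.1, j)) (fun q => if q.2 = i then n (q.1 • p) * E.W g else 0)
      ‖n‖ := by
  refine ⟨norm_nonneg n, fun q => ?_, ?_⟩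
  · split_ifs
    · refine (norm_mul_le _ _).trans ?_
      have h1 := n.norm_apply_le (q.1 • p)
      have h2 := E.norm_W_le g
      have h3 := norm_nonneg n
      have h4 := norm_nonneg (E.W g)
      have h5 := norm_nonneg (n (q.1 • p))
      nlinarith
    · simp
  · rintro ⟨s, k⟩ ⟨s', k'⟩ h1 h2 h3
    have e1 : k = i := by
      by_contra h
      exact h1 (by simp [h])
    have e2 : k' = i := by
      by_contra h
      exact h2 (by simp [h])
    have e3 : s = s' := mul_left_cancel (Prod.ext_iff.1 h3).1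
    rw [e1, e2, e3]

/-- The covariant family `(T_p ξ)(s, c(i, ·)) = n_{s p} W_g (ξ(g⁻¹ s, c(j, ·)))`, and `0` at the other
`(s, c(k, ·))`. -/
def cov (c : ℕ × B ≃ ℕ) (E : SAct Γ B) (g : Γ) (i j : ℕ) (n : FB B P) : Fam Γ P :=
  Fam.mk (fun p => blk (eS c) (eS c) (fun q : Γ × ℕ => (g⁻¹ * q.1, j))
    fun q => if q.2 = i then n (q.1 • p) * E.W g else 0) ‖n‖
    fun p => norm_blk_le (eS c) (eS c) (cov_BOK E g i j n p)

lemma cov_apply (c : ℕ × B ≃ ℕ) (E : SAct Γ B) (g : Γ) (i j : ℕ) (n : FB B P) (p : P) :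
    cov c E g i j n p = blk (eS c) (eS c) (fun q : Γ × ℕ => (g⁻¹ * q.1, j))
      (fun q => if q.2 = i then n (q.1 • p) * E.W g else 0) := rfl

lemma sk_cov (c : ℕ × B ≃ ℕ) (E : SAct Γ B) (g : Γ) (i j : ℕ) (n : FB B P) (p : P) (ξ : Hil Γ)
    (s : Γ) (k : ℕ) : sk c s k (cov c E g i j n p ξ) =
      if k = i then n (s • p) (E.W g (sk c (g⁻¹ * s) j ξ)) else 0 := by
  rw [cov_apply, sk, sl_blk (eS c) (eS c) (cov_BOK E g i j n p) ξ (s, k)]
  by_cases hk : k = i
  · simp only [hk, if_true]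
    rfl
  · simp only [hk, if_false]
    rfl

lemma norm_cov_le (c : ℕ × B ≃ ℕ) (E : SAct Γ B) (g : Γ) (i j : ℕ) (n : FB B P) :
    ‖cov c E g i j n‖ ≤ ‖n‖ := by
  rw [Fam.norm_le_iff (norm_nonneg n)]
  intro p
  rw [cov_apply]
  exact norm_blk_le (eS c) (eS c) (cov_BOK E g i j n p)

/-- The action `n ↦ W_g n_{g⁻¹ p} W_g⁻¹`. -/
def SAct.Ad (E : SAct Γ B) (g : Γ) (n : FB B P) : FB B P :=
  FB.mk (fun p => E.W g * n (g⁻¹ • p) * E.W g⁻¹) ‖n‖ fun p => by
    refine (norm_mul_le _ _).trans ?_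
    have h0 := norm_mul_le (E.W g) (n (g⁻¹ • p))
    have h1 := n.norm_apply_le (g⁻¹ • p)
    have h2 := E.norm_W_le g
    have h2' := E.norm_W_le g⁻¹
    have h3 := norm_nonneg n
    have h4 := norm_nonneg (E.W g)
    have h4' := norm_nonneg (E.W g⁻¹)
    have h5 := norm_nonneg (n (g⁻¹ • p))
    have h6 := norm_nonneg (E.W g * n (g⁻¹ • p))
    nlinarith

@[simp] lemma SAct.Ad_apply (E : SAct Γ B) (g : Γ) (n : FB B P) (p : P) :
    E.Ad g n p = E.W g * n (g⁻¹ • p) * E.W g⁻¹ := rfl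

end Pool.Agent.Lib.MP_aa9b81_an.Hs
end
end

section

/-!
# Hereditary shifts, part C0: the homomorphism given by a covariant partial map, definition
-/

open scoped ENNReal Topology ZeroAtInfty
open Function

noncomputable section

namespace Pool.Agent.Lib.MP_aa9b81_an.Hs

open Cut

variable {Γ B P X : Type} [Group Γ] [MulAction Γ B] [Nonempty B] [MulAction Γ P] [MulAction Γ X]

/-- PROOF: `psiV`, `dsum_mul`, `V'_mul_V`. -/
theorem psiV_mul (c : ℕ × B ≃ ℕ) (E : SAct Γ B) (π : P → B → Option X) (a a' : Fam Γ X) (p : P) :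
    psiV c E π (a * a') p = psiV c E π a p * psiV c E π a' p := by
  have h : (fun b => opt (a * a') (π p b)) = fun b => opt a (π p b) * opt a' (π p b) := by
    funext b
    cases π p b with
    | none => simp
    | some x => simp
  rw [psiV, psiV, psiV, h, dsum_mul c (norm_nonneg a) (fun b => norm_opt_le a _) (norm_nonneg a')
    (fun b => norm_opt_le a' _)]
  have h1 : E.V c * dsum c (fun b => opt a (π p b)) * E.V' c *
      (E.V c * dsum c (fun b => opt a' (π p b)) * E.V' c) =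
      E.V c * dsum c (fun b => opt a (π p b)) * (E.V' c * E.V c) *
        dsum c (fun b => opt a' (π p b)) * E.V' c := by
    simp only [mul_assoc]
  rw [h1, E.V'_mul_V, mul_one]
  simp only [mul_assoc]

/-- PROOF: `psiV`, `dsum_smul`. -/
theorem psiV_smul (c : ℕ × B ≃ ℕ) (E : SAct Γ B) (π : P → B → Option X) (z : ℂ) (a : Fam Γ X)
    (p : P) : psiV c E π (z • a) p = z • psiV c E π a p := by
  have h : (fun b => opt (z • a) (π p b)) = fun b => z • opt a (π p b) := by
    funext b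
    cases π p b with
    | none => simp
    | some x => simp
  rw [psiV, psiV, h, dsum_smul c z (norm_nonneg a) (fun b => norm_opt_le a _), mul_smul_comm,
    smul_mul_assoc]

/-- The homomorphism `a ↦ (V (⨁_b a_{π(p, b)}) V⁻¹)_p`. -/
def psi (c : ℕ × B ≃ ℕ) (E : SAct Γ B) (π : P → B → Option X) : Fam Γ X →ₙ+* Fam Γ P where
  toFun a := Fam.mk (psiV c E π a) ‖a‖ (norm_psiV_le c E π a)
  map_mul' a a' := Fam.ext fun p => psiV_mul c E π a a' p
  map_zero' := Fam.ext fun p => by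
    have h := psiV_smul c E π 0 (0 : Fam Γ X) p
    rw [zero_smul, zero_smul] at h
    exact h
  map_add' a a' := Fam.ext fun p => psiV_add c E π a a' p

lemma psi_apply (c : ℕ × B ≃ ℕ) (E : SAct Γ B) (π : P → B → Option X) (a : Fam Γ X) (p : P) :
    psi c E π a p = psiV c E π a p := rfl

lemma psi_smul (c : ℕ × B ≃ ℕ) (E : SAct Γ B) (π : P → B → Option X) (z : ℂ) (a : Fam Γ X) :
    psi c E π (z • a) = z • psi c E π a := Fam.ext fun p => psiV_smul c E π z a p

lemma norm_psi_le (c : ℕ × B ≃ ℕ) (E : SAct Γ B) (π : P → B → Option X) (a : Fam Γ X) :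
    ‖psi c E π a‖ ≤ ‖a‖ := by
  rw [Fam.norm_le_iff (norm_nonneg a)]
  intro p
  rw [psi_apply]
  exact norm_psiV_le c E π a p

end Pool.Agent.Lib.MP_aa9b81_an.Hs
end
end

section

/-!
# Hereditary shifts, part C1: `psi` on the generators
-/

open scoped ENNReal Topology ZeroAtInfty
open Function

noncomputable section

namespace Pool.Agent.Lib.MP_aa9b81_an.Hs

open Cut

variable {Γ B P X : Type} [Group Γ] [MulAction Γ B] [Nonempty B] [MulAction Γ P] [MulAction Γ X]
  [TopologicalSpace X]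

/-- The value `f(x)` for `some x`, and `0` for `none`. -/
def optf (f : C₀(X, ℂ)) (o : Option X) : ℂ := o.elim 0 f

omit [MulAction Γ X] [Group Γ] in
@[simp] lemma optf_none (f : C₀(X, ℂ)) : optf f none = 0 := rfl

omit [MulAction Γ X] [Group Γ] in
@[simp] lemma optf_some (f : C₀(X, ℂ)) (x : X) : optf f (some x) = f x := rfl

lemma norm_optf_le (f : C₀(X, ℂ)) (o : Option X) : ‖optf f o‖ ≤ ‖f‖ := by
  cases o with
  | none => simp
  | some x => exact f.toBCF.norm_coe_le_norm x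

/-- The family of the multiplications by `b ↦ f(π(p, b))`. -/
def dgf (π : P → B → Option X) (f : C₀(X, ℂ)) : FB B P :=
  FB.mk (fun p => dia fun b => optf f (π p b)) ‖f‖ fun p =>
    norm_dia_le (norm_nonneg f) fun b => norm_optf_le f _

omit [Nonempty B] in
lemma dgf_apply (π : P → B → Option X) (f : C₀(X, ℂ)) (p : P) (ξ : L2 B) (b : B) :
    (dgf π f p ξ : B → ℂ) b = optf f (π p b) * (ξ : B → ℂ) b :=
  dia_apply (norm_nonneg f) (fun b => norm_optf_le f _) ξ b

/-- PROOF. `Fam.ext`, `ContinuousLinearMap.ext`, `ext_sk c`: fix `p`, `ξ`, `s`, `k`, and a point `b`.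
Left side (`psi_apply`, `psiV`, `E.sk_V`, `E.W_apply`, `sk_apply`):
`ε(s, s⁻¹ b) (dsum(..)(V' ξ))(s, c(k, s⁻¹ b))`, and with `b' = s⁻¹ b`, by `sb_dsum` (`sb_apply`) this is
`ε(s, b') (opt (gen f g i j) (π p b') (sb c b' (V' ξ)))(s, k)`. If `π p b' = none` it is `0`, and
`π (s p) b = none` (`π.equi s p b'`), so the right side is `0` as well. If `π p b' = some x`, then
`π (s p) b = some (s x)` and by `Cut.gen_apply` the value is `0` for `k ≠ i`, and for `k = i` it is
`ε(s, b') f(s x) (V' ξ)(g⁻¹ s, c(j, b'))`, where `(V' ξ)(t, c(j, b')) = (W_{t⁻¹} (sk c t j ξ))(b')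
= ε(t⁻¹, t b') ξ(t, c(j, t b'))`, `t = g⁻¹ s`, `t b' = g⁻¹ b`. The signs: `ε(s, s⁻¹ b) ε(t⁻¹, t s⁻¹ b)`
with `t⁻¹ = s⁻¹ g`, `t s⁻¹ b = g⁻¹ b`: by `E.mul s t⁻¹ (g⁻¹ b)` it is `ε(g, g⁻¹ b)` (`s t⁻¹ = g`).
The right side (`sk_cov`, `dgf_apply`, `W_apply`) is `f(s x) ε(g, g⁻¹ b) ξ(g⁻¹ s, c(j, g⁻¹ b))`. -/
theorem psi_gen (c : ℕ × B ≃ ℕ) (E : SAct Γ B) (π : PMap Γ P B X) (f : C₀(X, ℂ)) (g : Γ)
    (i j : ℕ) : psi c E π.f (gen f g i j) = cov c E g i j (dgf π.f f) := by
  refine Fam.ext fun p => ContinuousLinearMap.ext fun ξ => ext_sk c fun s k => ?_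
  ext b
  rw [psi_apply, psiV, mul_apply_eq_comp, mul_apply_eq_comp, E.sk_V, E.W_apply, sk_cov, sk_apply,
    ← sb_apply, sb_dsum c (norm_nonneg (gen f g i j)) (fun b => norm_opt_le _ _)]
  obtain ⟨b', hb'⟩ : ∃ b', b' = s⁻¹ • b := ⟨_, rfl⟩
  have hb : b = s • b' := by rw [hb', smul_inv_smul]
  rw [← hb']
  have hπ : π.f (s • p) b = (π.f p b').map (s • ·) := by rw [hb]; exact π.equi s p b'
  by_cases hk : k = i
  · rw [if_pos hk, dgf_apply, E.W_apply, hπ]
    cases hx : π.f p b' with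
    | none =>
      simp
    | some x =>
      rw [opt_some, gen_apply, if_pos hk, Option.map_some, optf_some, sb_apply]
      have h1 : ((E.V' c ξ : Hil Γ) : Γ × ℕ → ℂ) (g⁻¹ * s, c (j, b')) =
          E.ε (g⁻¹ * s)⁻¹ (g⁻¹ • b) * (ξ : Γ × ℕ → ℂ) (g⁻¹ * s, c (j, g⁻¹ • b)) := by
        rw [← sk_apply, E.sk_V', E.W_apply, sk_apply, inv_inv]
        have e : (g⁻¹ * s) • b' = g⁻¹ • b := by rw [hb, mul_smul]
        rw [e]
      rw [h1, sk_apply]
      have h2 := E.mul s (g⁻¹ * s)⁻¹ (g⁻¹ • b)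
      have e1 : s * (g⁻¹ * s)⁻¹ = g := by group
      have e2 : (g⁻¹ * s)⁻¹ • (g⁻¹ • b) = b' := by
        rw [smul_smul, hb']
        congr 1
        group
      rw [e1, e2] at h2
      rw [h2]
      ring
  · rw [if_neg hk]
    cases hx : π.f p b' with
    | none =>
      simp
    | some x =>
      rw [opt_some, gen_apply, if_neg hk, mul_zero]
      rfl

end Pool.Agent.Lib.MP_aa9b81_an.Hs
end
end

section

/-!
# Hereditary shifts, part F1a: the space of nonzero configurations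
-/

open scoped ENNReal Topology ZeroAtInfty
open Function Filter Set

noncomputable section

namespace Pool.Agent.Lib.MP_aa9b81_an.Hs

open Cut

variable {Γ Z I A : Type} [Group Γ] [MulAction Γ I] [MulAction Γ Z] [TopologicalSpace Z]
    [TopologicalSpace A] {a₀ : A} (Y : Hered Γ Z I A a₀)

instance instT2St [T2Space Z] [T2Space A] : T2Space Y.St :=
  inferInstanceAs (T2Space {x : Z × Cf I A // x ∈ Y.carrier ∧ ∃ i, x.2 i ≠ a₀})

instance instContSt [ContinuousConstSMul Γ Z] : ContinuousConstSMul Γ Y.St :=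
  ⟨fun g => Continuous.subtype_mk
    ((continuous_const_smul g).comp continuous_subtype_val) _⟩

/-- PROOF: the subset `{x ∈ carrier | ∃ i, x.2 i ≠ a₀}` of the locally compact Hausdorff space `Z × A^I` (`A` compact) is
the intersection of a closed and an open set: `IsLocallyClosed`, `IsLocallyClosed.locallyCompactSpace`. -/
instance instLCSt [T2Space Z] [LocallyCompactSpace Z] [T2Space A] [CompactSpace A] :
    LocallyCompactSpace Y.St := by
  have h1 : IsLocallyClosed {x : Z × Cf I A | x ∈ Y.carrier ∧ ∃ i, x.2 i ≠ a₀} := by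
    refine ⟨{x : Z × Cf I A | ∃ i, x.2 i ≠ a₀}, Y.carrier, ?_, Y.closed, ?_⟩
    · have h2 : {x : Z × Cf I A | ∃ i, x.2 i ≠ a₀} = ⋃ i : I, {x : Z × Cf I A | x.2 i ≠ a₀} := by
        ext x
        simp
      rw [h2]
      refine isOpen_iUnion fun i => ?_
      have h3 : Continuous fun x : Z × Cf I A => x.2 i := (continuous_apply i).comp continuous_snd
      exact isOpen_compl_singleton.preimage h3
    · ext x
      simp only [mem_setOf_eq, mem_inter_iff]
      exact and_comm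
  exact h1.locallyCompactSpace

omit [TopologicalSpace A] [TopologicalSpace Z] [MulAction Γ Z] [MulAction Γ I] [Group Γ] in
/-- PROOF: for each coordinate: continuous. -/
theorem continuous_cut [TopologicalSpace A] (J : Set I) : Continuous (cut a₀ J : Cf I A → Cf I A) := by
  refine continuous_pi fun i => ?_
  by_cases hi : i ∈ J
  · have h1 : (fun y : Cf I A => cut a₀ J y i) = fun y => y i := by
      funext y
      exact cut_of_mem y hi
    change Continuous fun y : Cf I A => cut a₀ J y i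
    rw [h1]
    exact continuous_apply i
  · have h1 : (fun y : Cf I A => cut a₀ J y i) = fun _ => a₀ := by
      funext y
      exact cut_of_notMem y hi
    change Continuous fun y : Cf I A => cut a₀ J y i
    rw [h1]
    exact continuous_const

end Pool.Agent.Lib.MP_aa9b81_an.Hs
end
end

section

/-!
# Hereditary shifts, part F1b: the space of nonzero configurations
-/

open scoped ENNReal Topology ZeroAtInfty
open Function Filter Set

noncomputable section

namespace Pool.Agent.Lib.MP_aa9b81_an.Hs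

open Cut

variable {Γ Z I A : Type} [Group Γ] [MulAction Γ I] [MulAction Γ Z] [TopologicalSpace Z]
    [TopologicalSpace A] {a₀ : A} (Y : Hered Γ Z I A a₀)

private lemma F1b_cutP_iff (J : Set I) (x x' : Y.St) :
    Y.cutP J x = some x' ↔ x'.1 = (Y.z x, cut a₀ J (Y.y x)) := by
  unfold Hered.cutP
  constructor
  · intro h
    split_ifs at h with h1
    have h2 := Option.some.inj h
    rw [← h2]
  · intro h
    have h1 : ∃ i ∈ J, Y.y x i ≠ a₀ := by
      obtain ⟨i, hi⟩ := x'.2.2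
      rw [h] at hi
      by_cases hJ : i ∈ J
      · refine ⟨i, hJ, ?_⟩
        rwa [show (Y.z x, cut a₀ J (Y.y x)).2 i = Y.y x i from cut_of_mem _ hJ] at hi
      · exact absurd (cut_of_notMem _ hJ) hi
    rw [dif_pos h1]
    exact congrArg some (Subtype.ext h.symm)

/-- COMPACTNESS. PROOF: let `Kz ⊆ Z` be the compact image of `K`. The set is the preimage under the embedding `Y.St → Z × A^I`
of `D = {(z, y) ∈ carrier | z ∈ Kz, (z, cut J y) ∈ K'}`, `K'` the compact (closed) image of `K` in `Z × A^I`; `D` is a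
closed subset of the compact set `Kz × A^I`, and it is contained in the range of the embedding (`cut J y ≠ a₀` gives
`y ≠ a₀`). `Topology.IsInducing.isCompact_iff` (`Subtype.isCompact_iff`). -/
theorem isCompact_cutP [T2Space Z] [T2Space A] [CompactSpace A] (J : Set I) {K : Set Y.St}
    (hK : IsCompact K) : IsCompact {x : Y.St | ∃ x' ∈ K, Y.cutP J x = some x'} := by
  have hι : Topology.IsEmbedding (fun x : Y.St => (x.1 : Z × Cf I A)) :=
    Topology.IsEmbedding.subtypeVal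
  have hK' : IsCompact ((fun x : Y.St => (x.1 : Z × Cf I A)) '' K) := hK.image hι.continuous
  have hKz : IsCompact (Y.z '' K) := hK.image Y.continuous_z
  rw [hι.isInducing.isCompact_iff]
  have h1 : (fun x : Y.St => (x.1 : Z × Cf I A)) '' {x : Y.St | ∃ x' ∈ K, Y.cutP J x = some x'} =
      {x | x ∈ Y.carrier ∧ x.1 ∈ Y.z '' K ∧
        (x.1, cut a₀ J x.2) ∈ (fun x : Y.St => (x.1 : Z × Cf I A)) '' K} := by
    ext x
    constructor
    · rintro ⟨x, ⟨x', hx', h2⟩, rfl⟩
      rw [F1b_cutP_iff] at h2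
      refine ⟨x.2.1, ⟨x', hx', ?_⟩, ⟨x', hx', h2⟩⟩
      change x'.1.1 = Y.z x
      rw [h2]
    · rintro ⟨h2, -, ⟨x', hx', h3⟩⟩
      have h4 : ∃ i, x.2 i ≠ a₀ := by
        obtain ⟨i, hi⟩ := x'.2.2
        have h5 : x'.1.2 i = cut a₀ J x.2 i := congrFun (congrArg Prod.snd h3) i
        rw [h5] at hi
        by_cases hJ : i ∈ J
        · rw [cut_of_mem _ hJ] at hi
          exact ⟨i, hi⟩
        · exact absurd (cut_of_notMem _ hJ) hi
      refine ⟨⟨x, h2, h4⟩, ⟨x', hx', ?_⟩, rfl⟩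
      rw [F1b_cutP_iff]
      exact h3
  rw [h1]
  have h2 : IsClosed {x : Z × Cf I A | x ∈ Y.carrier ∧ x.1 ∈ Y.z '' K ∧
        (x.1, cut a₀ J x.2) ∈ (fun x : Y.St => (x.1 : Z × Cf I A)) '' K} := by
    refine Y.closed.inter (IsClosed.inter (hKz.isClosed.preimage continuous_fst) ?_)
    exact hK'.isClosed.preimage
      (continuous_fst.prodMk ((continuous_cut J).comp continuous_snd))
  refine (hKz.prod isCompact_univ).of_isClosed_subset h2 ?_
  rintro x ⟨-, hx, -⟩
  exact ⟨hx, trivial⟩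

end Pool.Agent.Lib.MP_aa9b81_an.Hs
end
end

section

/-!
# Hereditary shifts, part B2: the algebra of covariant families
-/

open scoped ENNReal Topology ZeroAtInfty
open Function

noncomputable section

namespace Pool.Agent.Lib.MP_aa9b81_an.Hs

open Cut

variable {Γ B P : Type} [Group Γ] [MulAction Γ B] [Nonempty B] [MulAction Γ P]

private lemma B2_key (E : SAct Γ B) (g : Γ) {n n' : FB B P} {p : P} (ζ : L2 B) :
    n p (E.W g (n' (g⁻¹ • p) ζ)) = (n * E.Ad g n') p (E.W g ζ) := by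
  rw [FB.mul_apply, SAct.Ad_apply, mul_apply_eq_comp, mul_apply_eq_comp, mul_apply_eq_comp]
  have h : E.W g⁻¹ (E.W g ζ) = ζ := by
    rw [← mul_apply_eq_comp, E.W_inv_mul]
    rfl
  rw [h]

/-- PROOF: `(n_{sp} W_g n'_{g⁻¹ s p}) ζ = (n_{sp} (W_g n'_{g⁻¹ s p} W_{g⁻¹}) W_g) ζ`, `SAct.W_inv_mul`. -/
theorem cov_mul_m1 (c : ℕ × B ≃ ℕ) (E : SAct Γ B) (g : Γ) (i j : ℕ) (n n' : FB B P) :
    cov c E g i j n * m1 c n' = cov c E g i j (n * E.Ad g n') := by
  refine Fam.ext fun p => ContinuousLinearMap.ext fun ξ => ext_sk c fun s k => ?_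
  rw [Fam.mul_apply, mul_apply_eq_comp, sk_cov, sk_m1, sk_cov]
  split_ifs
  · have h := B2_key E g (n := n) (n' := n') (p := s • p) (sk c (g⁻¹ * s) j ξ)
    rw [smul_smul] at h
    exact h
  · rfl

/-- PROOF: `Fam.ext`, `ContinuousLinearMap.ext`, `ext_sk c`, then `sk_cov` twice, `W_{g g'} = W_g W_{g'}`, and as for `cov_mul_m1`. -/
theorem cov_mul_cov (c : ℕ × B ≃ ℕ) (E : SAct Γ B) (g g' : Γ) (i j i' j' : ℕ) (n n' : FB B P) :
    cov c E g i j n * cov c E g' i' j' n' =
      if j = i' then cov c E (g * g') i j' (n * E.Ad g n') else 0 := by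
  refine Fam.ext fun p => ContinuousLinearMap.ext fun ξ => ext_sk c fun s k => ?_
  rw [Fam.mul_apply, mul_apply_eq_comp, sk_cov, sk_cov]
  by_cases hj : j = i'
  · simp only [hj, if_true]
    rw [sk_cov]
    split_ifs
    · have h := B2_key E g (n := n) (n' := n') (p := s • p)
        (E.W g' (sk c (g'⁻¹ * (g⁻¹ * s)) j' ξ))
      rw [smul_smul] at h
      rw [h, mul_inv_rev, mul_assoc, E.W_mul, mul_apply_eq_comp]
    · rfl
  · simp only [hj, if_false]
    rw [Fam.zero_apply]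
    split_ifs
    · simp
    · simp

end Pool.Agent.Lib.MP_aa9b81_an.Hs
end
end
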