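import Pool.Agent.Lib.MP_aa9b81_an.Mg.G002
import Pool.Agent.Lib.MP_aa9b81_an.Mg.G078
import Pool.Agent.Lib.MP_aa9b81_an.Mg.G073
import Pool.Agent.Lib.MP_aa9b81_an.Mg.G074

section

/-!
# Hereditary shifts, part H0a: the configurations with finite support
-/

open scoped ENNReal Topology ZeroAtInfty
open Function Filter Set

noncomputable section

namespace Pool.Agent.Lib.MP_aa9b81_an.Hs

open Cut

/-- The discrete space of the finite subsets of `I`. -/
def Fd (I : Type) : Type := Finset I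

instance (I : Type) : TopologicalSpace (Fd I) := ⊥

instance (I : Type) : DiscreteTopology (Fd I) := ⟨rfl⟩

instance (I : Type) : Nonempty (Fd I) := ⟨(∅ : Finset I)⟩

/-- The finite set. -/
def Fd.s {I : Type} (F : Fd I) : Finset I := F

/-- The point of `Fd I` of a finite set. -/
def Fd.of {I : Type} (F : Finset I) : Fd I := F

@[simp] lemma Fd.s_of {I : Type} (F : Finset I) : (Fd.of F).s = F := rfl

lemma Fd.ext {I : Type} {F F' : Fd I} (h : F.s = F'.s) : F = F' := h

instance (Γ I : Type) [Group Γ] [MulAction Γ I] : MulAction Γ (Fd I) where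
  smul g F := Fd.of (gF g F.s)
  one_smul F := Fd.ext (gF_one _)
  mul_smul g h F := Fd.ext (gF_mul g h _)

variable {Γ Z I A : Type} [Group Γ] [MulAction Γ I] [MulAction Γ Z] [TopologicalSpace Z]
    [TopologicalSpace A] {a₀ : A} (Y : Hered Γ Z I A a₀)

@[simp] lemma Fd.s_smul (g : Γ) (F : Fd I) : (g • F).s = gF g F.s := rfl

/-- The points of `Y` with finite support, with the support as a discrete coordinate. -/
def Hered.Sf : Type := {q : Y.St × Fd I // ∀ i, Y.y q.1 i ≠ a₀ ↔ i ∈ q.2.s}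

instance : TopologicalSpace Y.Sf :=
  inferInstanceAs (TopologicalSpace {q : Y.St × Fd I // ∀ i, Y.y q.1 i ≠ a₀ ↔ i ∈ q.2.s})

instance : MulAction Γ Y.Sf where
  smul g q := ⟨g • q.1, fun i => by
    change Y.y q.1.1 (g⁻¹ • i) ≠ a₀ ↔ i ∈ gF g q.1.2.s
    rw [mem_gF]
    exact q.2 _⟩
  one_smul q := Subtype.ext (one_smul Γ q.1)
  mul_smul g h q := Subtype.ext (mul_smul g h q.1)

namespace Hered

/-- The point. -/
def r (q : Y.Sf) : Y.St := q.1.1

/-- The support. -/
def F (q : Y.Sf) : Fd I := q.1.2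

lemma mem_F (q : Y.Sf) (i : I) : i ∈ (Y.F q).s ↔ Y.y (Y.r q) i ≠ a₀ := (q.2 i).symm

@[simp] lemma r_smul (g : Γ) (q : Y.Sf) : Y.r (g • q) = g • Y.r q := rfl

@[simp] lemma F_smul (g : Γ) (q : Y.Sf) : Y.F (g • q) = g • Y.F q := rfl

lemma continuous_r : Continuous Y.r := continuous_fst.comp continuous_subtype_val

lemma continuous_F : Continuous Y.F := continuous_snd.comp continuous_subtype_val

variable {Y} in
lemma Sf_ext {q q' : Y.Sf} (h : Y.r q = Y.r q') (h' : Y.F q = Y.F q') : q = q' :=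
  Subtype.ext (Prod.ext h h')

/-- The point `(x, F)` of `Y.Sf`. -/
def mkSf (x : Y.St) (F : Fd I) (h : ∀ i, Y.y x i ≠ a₀ ↔ i ∈ F.s) : Y.Sf := ⟨(x, F), h⟩

@[simp] lemma r_mkSf (x : Y.St) (F : Fd I) (h : ∀ i, Y.y x i ≠ a₀ ↔ i ∈ F.s) :
    Y.r (Y.mkSf x F h) = x := rfl

@[simp] lemma F_mkSf (x : Y.St) (F : Fd I) (h : ∀ i, Y.y x i ≠ a₀ ↔ i ∈ F.s) :
    Y.F (Y.mkSf x F h) = F := rfl

end Hered

instance instT2Sf [T2Space Z] [T2Space A] : T2Space Y.Sf :=
  inferInstanceAs (T2Space {q : Y.St × Fd I // ∀ i, Y.y q.1 i ≠ a₀ ↔ i ∈ q.2.s})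

instance instContSf [ContinuousConstSMul Γ Z] : ContinuousConstSMul Γ Y.Sf :=
  ⟨fun g => by
    have h1 : Continuous fun q : Y.Sf => g • Y.r q := Y.continuous_r.const_smul g
    have h2 : Continuous fun q : Y.Sf => g • Y.F q :=
      (continuous_of_discreteTopology (f := fun F : Fd I => g • F)).comp Y.continuous_F
    exact Continuous.subtype_mk (h1.prodMk h2) _⟩

/-- PROOF: `Y.Sf` is a locally closed subset of `Y.St × Fd I`: on the clopen piece of `F` it is
`{x | ∀ i ∉ F, y x i = a₀} ∩ {x | ∀ i ∈ F, y x i ≠ a₀}`, the intersection of a closed and an open set.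
`IsLocallyClosed.locallyCompactSpace`: `{q | ∀ i ∉ q.2.s, y q.1 i = a₀}` is closed and `{q | ∀ i ∈ q.2.s, y q.1 i ≠ a₀}` is
open (unions over the clopen pieces). -/
instance instLCSf [T2Space Z] [LocallyCompactSpace Z] [T2Space A] [CompactSpace A] :
    LocallyCompactSpace Y.Sf := by
  have hcl : ∀ s : Set (Y.St × Fd I), (∀ F : Fd I, IsClosed {x : Y.St | (x, F) ∈ s}) →
      IsClosed s := by
    intro s hs
    rw [← isOpen_compl_iff, isOpen_iff_mem_nhds]
    rintro ⟨x, F⟩ hx
    have h1 : {x' : Y.St | (x', F) ∈ s}ᶜ ∈ 𝓝 x := (hs F).isOpen_compl.mem_nhds hx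
    have h2 : ({F} : Set (Fd I)) ∈ 𝓝 F := (isOpen_discrete _).mem_nhds rfl
    filter_upwards [prod_mem_nhds h1 h2]
    rintro ⟨x', F'⟩ ⟨h3, h4⟩
    rw [mem_singleton_iff] at h4
    dsimp only at h3 h4
    rw [h4]
    exact h3
  have hop : ∀ s : Set (Y.St × Fd I), (∀ F : Fd I, IsOpen {x : Y.St | (x, F) ∈ s}) →
      IsOpen s := by
    intro s hs
    rw [← isClosed_compl_iff]
    exact hcl _ fun F => (hs F).isClosed_compl
  have e : {q : Y.St × Fd I | ∀ i, Y.y q.1 i ≠ a₀ ↔ i ∈ q.2.s} =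
      {q : Y.St × Fd I | ∀ i ∈ q.2.s, Y.y q.1 i ≠ a₀} ∩
        {q : Y.St × Fd I | ∀ i, i ∉ q.2.s → Y.y q.1 i = a₀} := by
    ext q
    constructor
    · intro h
      exact ⟨fun i hi => (h i).2 hi, fun i hi => by_contra fun h1 => hi ((h i).1 h1)⟩
    · rintro ⟨h1, h2⟩ i
      exact ⟨fun h => by_contra fun h3 => h (h2 i h3), h1 i⟩
  have hlc : IsLocallyClosed {q : Y.St × Fd I | ∀ i, Y.y q.1 i ≠ a₀ ↔ i ∈ q.2.s} := by
    rw [e]
    refine IsLocallyClosed.inter (IsOpen.isLocallyClosed (hop _ fun F => ?_))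
      (IsClosed.isLocallyClosed (hcl _ fun F => ?_))
    · have e1 : {x : Y.St | (x, F) ∈ {q : Y.St × Fd I | ∀ i ∈ q.2.s, Y.y q.1 i ≠ a₀}} =
          ⋂ i ∈ F.s, {x : Y.St | Y.y x i ≠ a₀} := by
        ext x
        simp only [mem_setOf_eq, mem_iInter]
      rw [e1]
      exact isOpen_biInter_finset fun i _ => isOpen_ne.preimage (Y.continuous_y i)
    · have e1 : {x : Y.St | (x, F) ∈ {q : Y.St × Fd I | ∀ i, i ∉ q.2.s → Y.y q.1 i = a₀}} =
          ⋂ i, ⋂ (_ : i ∉ F.s), {x : Y.St | Y.y x i = a₀} := by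
        ext x
        simp only [mem_setOf_eq, mem_iInter]
      rw [e1]
      exact isClosed_iInter fun i => isClosed_iInter fun _ =>
        isClosed_singleton.preimage (Y.continuous_y i)
  exact hlc.locallyCompactSpace

end Pool.Agent.Lib.MP_aa9b81_an.Hs
end
end

section

/-!
# Hereditary shifts, part H0: the configurations with finite support
-/

open scoped ENNReal Topology ZeroAtInfty
open Function Filter Set

noncomputable section

namespace Pool.Agent.Lib.MP_aa9b81_an.Hs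

open Cut

variable {Γ Z I A : Type} [Group Γ] [MulAction Γ I] [MulAction Γ Z] [TopologicalSpace Z]
    [TopologicalSpace A] {a₀ : A} (Y : Hered Γ Z I A a₀)

/-- RESTRICTION. PROOF: let `ft q = if (F q).s = F then f (r q) else 0`, continuous, as `{F q = F}` is clopen. For `ε > 0` let
`K = {x | ε ≤ ‖f x‖}` (compact), contained in `{x | ∀ i ∈ F, y x i ≠ a₀}` by `hf`, and `K' = {x ∈ K | ∀ i ∉ F, y x i = a₀}`
(compact). `{q | ε ≤ ‖ft q‖}` is the image of the compact subset `K'` (of the subtype `{x | supp x = F}`) under the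
continuous map `x ↦ (x, F)`. -/
theorem exists_C0_res [T2Space Z] [T2Space A] [CompactSpace A] (f : C₀(Y.St, ℂ)) (F : Finset I)
    (hf : ∀ x, f x ≠ 0 → ∀ i ∈ F, Y.y x i ≠ a₀) [DecidableEq (Finset I)] :
    ∃ ft : C₀(Y.Sf, ℂ), ∀ q, ft q = if (Y.F q).s = F then f (Y.r q) else 0 := by
  have hc : Continuous fun q : Y.Sf => if (Y.F q).s = F then f (Y.r q) else 0 := by
    have h1 : Continuous fun v : Fd I × Y.St => if v.1.s = F then f v.2 else 0 := by
      rw [continuous_prod_of_discrete_left]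
      intro G
      by_cases hG : G.s = F
      · have e : (fun x : Y.St => if ((G, x) : Fd I × Y.St).1.s = F
            then f ((G, x) : Fd I × Y.St).2 else 0) = fun x => f x := by
          funext x
          exact if_pos hG
        rw [e]
        exact f.continuous
      · have e : (fun x : Y.St => if ((G, x) : Fd I × Y.St).1.s = F
            then f ((G, x) : Fd I × Y.St).2 else 0) = fun _ => 0 := by
          funext x
          exact if_neg hG
        rw [e]
        exact continuous_const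
    exact h1.comp (Y.continuous_F.prodMk Y.continuous_r)
  refine ⟨⟨⟨fun q => if (Y.F q).s = F then f (Y.r q) else 0, hc⟩, ?_⟩, fun q => rfl⟩
  rw [Metric.tendsto_nhds]
  intro ε hε
  have hf0 : Tendsto f (cocompact Y.St) (𝓝 0) := zero_at_infty f
  rw [Metric.tendsto_nhds] at hf0
  obtain ⟨C, hC, hC2⟩ := mem_cocompact.1 (hf0 ε hε)
  have hKcl : IsClosed {x : Y.St | ε ≤ ‖f x‖ ∧ ∀ i, i ∉ F → Y.y x i = a₀} := by
    refine IsClosed.inter (isClosed_le continuous_const f.continuous.norm) ?_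
    have e1 : {x : Y.St | ∀ i, i ∉ F → Y.y x i = a₀} =
        ⋂ i, ⋂ (_ : i ∉ F), {x : Y.St | Y.y x i = a₀} := by
      ext x
      simp only [mem_ofPred_eq, mem_iInter]
    change IsClosed {x : Y.St | ∀ i, i ∉ F → Y.y x i = a₀}
    rw [e1]
    exact isClosed_iInter fun i => isClosed_iInter fun _ =>
      isClosed_singleton.preimage (Y.continuous_y i)
  have hK : IsCompact {x : Y.St | ε ≤ ‖f x‖ ∧ ∀ i, i ∉ F → Y.y x i = a₀} := by
    refine hC.of_isClosed_subset hKcl fun x hx => by_contra fun hxC => ?_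
    have h1 := hC2 hxC
    rw [mem_ofPred_eq, dist_zero_right] at h1
    exact absurd hx.1 (not_le.2 h1)
  have hKS : ∀ x ∈ {x : Y.St | ε ≤ ‖f x‖ ∧ ∀ i, i ∉ F → Y.y x i = a₀},
      ∀ i, Y.y x i ≠ a₀ ↔ i ∈ (Fd.of F).s := by
    intro x hx i
    refine ⟨fun h => by_contra fun h1 => h (hx.2 i h1), fun h => ?_⟩
    refine hf x (fun h0 => ?_) i h
    have h1 := hx.1
    rw [h0, norm_zero] at h1
    exact absurd hε (not_lt.2 h1)
  have hm : Continuous fun x : {x : Y.St | ∀ i, Y.y x i ≠ a₀ ↔ i ∈ (Fd.of F).s} =>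
      Y.mkSf x.1 (Fd.of F) x.2 :=
    Continuous.subtype_mk (continuous_subtype_val.prodMk continuous_const) _
  have hK2 : IsCompact (((↑) : {x : Y.St | ∀ i, Y.y x i ≠ a₀ ↔ i ∈ (Fd.of F).s} → Y.St) ⁻¹'
      {x : Y.St | ε ≤ ‖f x‖ ∧ ∀ i, i ∉ F → Y.y x i = a₀}) := by
    have hsub : {x : Y.St | ε ≤ ‖f x‖ ∧ ∀ i, i ∉ F → Y.y x i = a₀} ⊆
        {x : Y.St | ∀ i, Y.y x i ≠ a₀ ↔ i ∈ (Fd.of F).s} := hKS
    rw [Subtype.isCompact_iff, Subtype.image_preimage_coe, inter_eq_right.2 hsub]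
    exact hK
  refine mem_cocompact.2 ⟨_, hK2.image hm, fun q hq => ?_⟩
  by_contra h
  rw [mem_ofPred_eq, dist_zero_right, not_lt] at h
  change ε ≤ ‖if (Y.F q).s = F then f (Y.r q) else 0‖ at h
  apply hq
  by_cases h1 : (Y.F q).s = F
  · rw [if_pos h1] at h
    have h2 : ∀ i, Y.y (Y.r q) i ≠ a₀ ↔ i ∈ (Fd.of F).s := fun i => by
      rw [← Y.mem_F, h1, Fd.s_of]
    refine ⟨⟨Y.r q, h2⟩, ⟨h, fun i hi => by_contra fun h3 => hi ((h2 i).1 h3)⟩, ?_⟩
    exact Hered.Sf_ext rfl (Fd.ext h1.symm)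
  · rw [if_neg h1, norm_zero] at h
    exact absurd hε (not_lt.2 h)

end Pool.Agent.Lib.MP_aa9b81_an.Hs
end
end

section

/-!
# Hereditary shifts, part B2a: the algebra of covariant families
-/

open scoped ENNReal Topology ZeroAtInfty
open Function

noncomputable section

namespace Pool.Agent.Lib.MP_aa9b81_an.Hs

open Cut

variable {Γ B P : Type} [Group Γ] [MulAction Γ B] [Nonempty B] [MulAction Γ P]

/-- PROOF (all the statements of this file): `Fam.ext`, `ContinuousLinearMap.ext`, `ext_sk c`, then `sk_cov`,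
`sk_m1`, linearity. -/
theorem cov_add (c : ℕ × B ≃ ℕ) (E : SAct Γ B) (g : Γ) (i j : ℕ) (n n' : FB B P) :
    cov c E g i j (n + n') = cov c E g i j n + cov c E g i j n' := by
  refine Fam.ext fun p => ContinuousLinearMap.ext fun ξ => ext_sk c fun s k => ?_
  rw [Fam.add_apply, add_apply, map_add, sk_cov, sk_cov, sk_cov]
  split_ifs
  · rw [FB.add_apply, add_apply]
  · rw [add_zero]

/-- PROOF: as `cov_add`. -/
theorem cov_sub (c : ℕ × B ≃ ℕ) (E : SAct Γ B) (g : Γ) (i j : ℕ) (n n' : FB B P) :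
    cov c E g i j (n - n') = cov c E g i j n - cov c E g i j n' := by
  refine Fam.ext fun p => ContinuousLinearMap.ext fun ξ => ext_sk c fun s k => ?_
  rw [Fam.sub_apply, sub_apply, map_sub, sk_cov, sk_cov, sk_cov]
  split_ifs
  · rw [FB.sub_apply, sub_apply]
  · rw [sub_zero]

/-- PROOF: as `cov_add`. -/
theorem cov_smul (c : ℕ × B ≃ ℕ) (E : SAct Γ B) (g : Γ) (i j : ℕ) (z : ℂ) (n : FB B P) :
    cov c E g i j (z • n) = z • cov c E g i j n := by
  refine Fam.ext fun p => ContinuousLinearMap.ext fun ξ => ext_sk c fun s k => ?_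
  rw [Fam.smul_apply, smul_apply, map_smul, sk_cov, sk_cov]
  split_ifs
  · rw [FB.smul_apply, smul_apply]
  · rw [smul_zero]

/-- PROOF: as `cov_add`. -/
theorem cov_zero (c : ℕ × B ≃ ℕ) (E : SAct Γ B) (g : Γ) (i j : ℕ) :
    cov c E g i j (0 : FB B P) = 0 := by
  refine Fam.ext fun p => ContinuousLinearMap.ext fun ξ => ext_sk c fun s k => ?_
  rw [sk_cov, Fam.zero_apply, FB.zero_apply]
  split_ifs
  · simp
  · simp

/-- PROOF: `Fam.ext`, `ContinuousLinearMap.ext`, `ext_sk c`, then `sk_cov`, `sk_m1`. -/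
theorem m1_mul_cov (c : ℕ × B ≃ ℕ) (E : SAct Γ B) (g : Γ) (i j : ℕ) (n n' : FB B P) :
    m1 c n * cov c E g i j n' = cov c E g i j (n * n') := by
  refine Fam.ext fun p => ContinuousLinearMap.ext fun ξ => ext_sk c fun s k => ?_
  rw [Fam.mul_apply, mul_apply_eq_comp, sk_m1, sk_cov, sk_cov]
  split_ifs
  · rw [FB.mul_apply, mul_apply_eq_comp]
  · rw [map_zero]

end Pool.Agent.Lib.MP_aa9b81_an.Hs
end
end

section

/-!
# Hereditary shifts, part M1b: matrix units, the compact operators of the module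
-/

open scoped ENNReal Topology ZeroAtInfty
open Function Filter

noncomputable section

namespace Pool.Agent.Lib.MP_aa9b81_an.Hs

open Cut

variable {Γ B P : Type} [Group Γ] [MulAction Γ B] [Nonempty B]

omit [Group Γ] [MulAction Γ B] [Nonempty B] in
/-- If the row `b` of `X` is supported in the finite set `A`. PROOF: `ξ = ∑' ξ(b') bv b'`
(`lp.hasSum_single`), apply the continuous functional `ξ ↦ (X ξ) b`; the sum is finite. -/
theorem apply_eq_sum_ker (X : BL B) (b : B) {A : Finset B} (h : ∀ b' ∉ A, ker X b b' = 0)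
    (ξ : L2 B) : (X ξ : B → ℂ) b = ∑ b' ∈ A, ker X b b' * (ξ : B → ℂ) b' := by
  classical
  have h1 : HasSum (fun i => lp.single 2 i ((ξ : B → ℂ) i)) ξ :=
    lp.hasSum_single (by simp) ξ
  have h2 := ((lp.evalCLM ℂ (fun _ : B => ℂ) 2 b).comp X).hasSum h1
  have h3 : ∀ i, ((lp.evalCLM ℂ (fun _ : B => ℂ) 2 b).comp X) (lp.single 2 i ((ξ : B → ℂ) i)) =
      ker X b i * (ξ : B → ℂ) i := by
    intro i
    have h4 : lp.single 2 i ((ξ : B → ℂ) i) = (ξ : B → ℂ) i • (bv i : L2 B) := by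
      ext a
      rw [bv, lp.coeFn_smul, Pi.smul_apply, lp.single_apply, lp.single_apply]
      by_cases ha : a = i
      · subst ha
        simp
      · rw [Pi.single_eq_of_ne ha, Pi.single_eq_of_ne ha, smul_zero]
    rw [h4, map_smul, smul_eq_mul, mul_comm]
    rfl
  have h5 : HasSum (fun i => ker X b i * (ξ : B → ℂ) i) ((X ξ : B → ℂ) b) := by
    have h6 : HasSum (fun i => ker X b i * (ξ : B → ℂ) i)
        (((lp.evalCLM ℂ (fun _ : B => ℂ) 2 b).comp X) ξ) := by
      simpa only [Function.comp_def, h3] using h2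
    exact h6
  refine h5.unique (hasSum_sum_of_ne_finset_zero fun i hi => ?_)
  rw [h i hi, zero_mul]

omit [Group Γ] [MulAction Γ B] [Nonempty B] in
/-- PROOF: `apply_eq_sum_ker`-like: `X Eu(a, b') ξ = ξ(b') X bv_a`, whose value at `b` is `ker X b a`, zero off
`A`. -/
theorem mul_Eu (X : BL B) (a b' : B) {A : Finset B} (h : ∀ b ∉ A, ker X b a = 0) :
    X * Eu a b' = ∑ b ∈ A, ker X b a • Eu b b' := by
  classical
  refine ContinuousLinearMap.ext fun ξ => ?_
  have h1 : Eu a b' ξ = (ξ : B → ℂ) b' • (bv a : L2 B) := by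
    ext c
    rw [Eu_apply, bv, lp.coeFn_smul, Pi.smul_apply, lp.single_apply]
    by_cases hc : c = a
    · subst hc
      simp
    · rw [if_neg hc, Pi.single_eq_of_ne hc, smul_zero]
  ext c
  have h2 : (((X * Eu a b') ξ : L2 B) : B → ℂ) c = (ξ : B → ℂ) b' * ker X c a := by
    rw [ContinuousLinearMap.mul_apply, h1, map_smul]
    rfl
  rw [h2, ContinuousLinearMap.sum_apply, lp.coeFn_sum, Finset.sum_apply]
  have h3 : ∀ b ∈ A, (((ker X b a • Eu b b') ξ : L2 B) : B → ℂ) c =
      if c = b then ker X b a * (ξ : B → ℂ) b' else 0 := by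
    intro b _
    rw [ContinuousLinearMap.smul_apply, lp.coeFn_smul, Pi.smul_apply, Eu_apply]
    by_cases hc : c = b
    · rw [if_pos hc, if_pos hc, smul_eq_mul]
    · rw [if_neg hc, if_neg hc, smul_zero]
  rw [Finset.sum_congr rfl h3, Finset.sum_ite_eq]
  split_ifs with hc
  · exact mul_comm _ _
  · rw [h c hc, mul_zero]

end Pool.Agent.Lib.MP_aa9b81_an.Hs
end
end

section

/-!
# Hereditary shifts, part M1c: matrix units, the compact operators of the module
-/

open scoped ENNReal Topology ZeroAtInfty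
open Function Filter

noncomputable section

namespace Pool.Agent.Lib.MP_aa9b81_an.Hs

open Cut

variable {Γ B P : Type} [Group Γ] [MulAction Γ B] [Nonempty B]

omit [Group Γ] [MulAction Γ B] [Nonempty B] in
/-- PROOF: `(Eu b a X ξ)(b) = (X ξ)(a) = ∑_{b' ∈ A} ker X a b' ξ(b')` (`apply_eq_sum_ker`). -/
theorem Eu_mul (X : BL B) (b a : B) {A : Finset B} (h : ∀ b' ∉ A, ker X a b' = 0) :
    Eu b a * X = ∑ b' ∈ A, ker X a b' • Eu b b' := by
  classical
  refine ContinuousLinearMap.ext fun ξ => ?_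
  ext c
  rw [ContinuousLinearMap.sum_apply, lp.coeFn_sum, Finset.sum_apply]
  have h3 : ∀ b' ∈ A, (((ker X a b' • Eu b b') ξ : L2 B) : B → ℂ) c =
      if c = b then ker X a b' * (ξ : B → ℂ) b' else 0 := by
    intro b' _
    rw [ContinuousLinearMap.smul_apply, lp.coeFn_smul, Pi.smul_apply, Eu_apply]
    by_cases hc : c = b
    · rw [if_pos hc, if_pos hc, smul_eq_mul]
    · rw [if_neg hc, if_neg hc, smul_zero]
  rw [Finset.sum_congr rfl h3, ContinuousLinearMap.mul_apply, Eu_apply,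
    apply_eq_sum_ker X a h ξ]
  by_cases hc : c = b
  · simp only [if_pos hc]
  · simp only [if_neg hc, Finset.sum_const_zero]

variable [TopologicalSpace P]

omit [Group Γ] [MulAction Γ B] in
/-- The family `p ↦ f(p) E_{bb'}`. -/
def ge (f : C₀(P, ℂ)) (b b' : B) : FB B P :=
  FB.mk (fun p => f p • Eu b b') ‖f‖ fun p => by
    rw [norm_smul]
    have h1 := f.toBCF.norm_coe_le_norm p
    have h2 := norm_Eu_le b b'
    have h3 := norm_nonneg (f p)
    have h4 := norm_nonneg (Eu b b')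
    have h5 := norm_nonneg f
    change ‖f p‖ ≤ ‖f‖ at h1
    nlinarith

omit [Group Γ] [MulAction Γ B] [Nonempty B] in
@[simp] lemma ge_apply (f : C₀(P, ℂ)) (b b' : B) (p : P) : ge f b b' p = f p • Eu b b' := rfl

omit [Group Γ] [MulAction Γ B] in
theorem ge_add (f f' : C₀(P, ℂ)) (b b' : B) : ge (f + f') b b' = ge f b b' + ge f' b b' := by
  refine FB.ext fun p => ?_
  rw [FB.add_apply, ge_apply, ge_apply, ge_apply, ZeroAtInftyContinuousMap.add_apply, add_smul]

omit [Group Γ] [MulAction Γ B] in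
theorem ge_smul (z : ℂ) (f : C₀(P, ℂ)) (b b' : B) : ge (z • f) b b' = z • ge f b b' := by
  refine FB.ext fun p => ?_
  rw [FB.smul_apply, ge_apply, ge_apply, ZeroAtInftyContinuousMap.smul_apply, smul_assoc]

omit [Group Γ] [MulAction Γ B] in
open Classical in
/-- PROOF: coordinates (`Eu_apply`). -/
theorem ge_mul_ge (f f' : C₀(P, ℂ)) (a b b' a' : B) :
    ge f a b * ge f' b' a' = if b = b' then ge (f * f') a a' else 0 := by
  have h1 : (Eu a b : BL B) * Eu b' a' = if b = b' then Eu a a' else 0 := by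
    refine ContinuousLinearMap.ext fun ξ => ?_
    ext c
    rw [ContinuousLinearMap.mul_apply, Eu_apply, Eu_apply]
    by_cases hb : b = b'
    · rw [if_pos hb, if_pos hb, Eu_apply]
    · rw [if_neg hb, if_neg hb]
      split_ifs <;> rfl
  refine FB.ext fun p => ?_
  rw [FB.mul_apply, ge_apply, ge_apply, smul_mul_smul_comm, h1]
  by_cases hb : b = b'
  · rw [if_pos hb, if_pos hb, ge_apply, ZeroAtInftyContinuousMap.mul_apply]
  · rw [if_neg hb, if_neg hb, smul_zero, FB.zero_apply]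

omit [Group Γ] [MulAction Γ B] in
/-- PROOF: `FB.norm_le_iff`, `norm_Eu_le`. -/
theorem norm_ge_le (f : C₀(P, ℂ)) (b b' : B) : ‖ge f b b'‖ ≤ ‖f‖ := by
  rw [FB.norm_le_iff (norm_nonneg f)]
  intro p
  rw [ge_apply, norm_smul]
  have h1 := f.toBCF.norm_coe_le_norm p
  have h2 := norm_Eu_le b b'
  have h3 := norm_nonneg (f p)
  have h4 := norm_nonneg (Eu b b')
  have h5 := norm_nonneg f
  change ‖f p‖ ≤ ‖f‖ at h1
  nlinarith

end Pool.Agent.Lib.MP_aa9b81_an.Hs
end
end

section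

/-!
# Hereditary shifts, part M1d: matrix units, the compact operators of the module
-/

open scoped ENNReal Topology ZeroAtInfty
open Function Filter

noncomputable section

namespace Pool.Agent.Lib.MP_aa9b81_an.Hs

open Cut

variable {Γ B P : Type} [Group Γ] [MulAction Γ B] [Nonempty B]

variable [TopologicalSpace P]

variable [MulAction Γ P]

/-- PROOF: `Fam.ext`, `ext`, coordinates: `eS c ((s, k), b)`: `sk_cov`, `sk_apply`, `W_apply`, `Eu_apply`,
`Cut.gen_apply`: at `(s, c(k, a))` both sides are `0` unless `k = i` and `a = b`, and then both are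
`f(s p) ε(g, g⁻¹ b') ξ(g⁻¹ s, c(j, g⁻¹ b'))`. Every element of `ℕ` is `c (k, a)`. -/
theorem cov_ge (c : ℕ × B ≃ ℕ) (E : SAct Γ B) (g : Γ) (i j : ℕ) (f : C₀(P, ℂ)) (b b' : B) :
    cov c E g i j (ge f b b') =
      E.ε g (g⁻¹ • b') • (gen f g (c (i, b)) (c (j, g⁻¹ • b')) : Fam Γ P) := by
  classical
  refine Fam.ext fun p => ContinuousLinearMap.ext fun ξ => ext_sk c fun s k => ?_
  ext a
  rw [sk_cov, sk_apply]
  have e : ((E.ε g (g⁻¹ • b') • (gen f g (c (i, b)) (c (j, g⁻¹ • b')) : Fam Γ P)) p ξ :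
      Γ × ℕ → ℂ) (s, c (k, a)) = E.ε g (g⁻¹ • b') *
      (gen f g (c (i, b)) (c (j, g⁻¹ • b')) p ξ : Γ × ℕ → ℂ) (s, c (k, a)) := rfl
  rw [e, gen_apply]
  have hiff : c (k, a) = c (i, b) ↔ k = i ∧ a = b := by
    rw [c.apply_eq_iff_eq, Prod.mk.injEq]
  by_cases hk : k = i
  · subst hk
    rw [if_pos rfl, ge_apply]
    have e2 : ((f (s • p) • Eu b b') (E.W g (sk c (g⁻¹ * s) j ξ)) : B → ℂ) a
        = f (s • p) * (Eu b b' (E.W g (sk c (g⁻¹ * s) j ξ)) : B → ℂ) a := rfl
    rw [e2, Eu_apply]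
    by_cases ha : a = b
    · subst ha
      rw [if_pos rfl, if_pos rfl, E.W_apply, sk_apply]
      ring
    · rw [if_neg ha, if_neg (fun h => ha (hiff.1 h).2)]
      ring
  · rw [if_neg hk, if_neg (fun h => hk (hiff.1 h).1)]
    rw [mul_zero]
    rfl

end Pool.Agent.Lib.MP_aa9b81_an.Hs
end
end

section

/-!
# Hereditary shifts, part M2a: the compact operators of the module, and multipliers
-/

open scoped ENNReal Topology ZeroAtInfty
open Function Filter Set

noncomputable section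

namespace Pool.Agent.Lib.MP_aa9b81_an.Hs

open Cut

variable {Γ B P : Type} [Group Γ] [MulAction Γ B] [Nonempty B] [TopologicalSpace P] [MulAction Γ P]

omit [Group Γ] [MulAction Γ B] [Nonempty B] [MulAction Γ P] in
/-- `f` vanishes off `U b ∩ U b'`. -/
def Good (U : B → Set P) (f : C₀(P, ℂ)) (b b' : B) : Prop := ∀ p, f p ≠ 0 → p ∈ U b ∧ p ∈ U b'

/-- The generators of the compact operators of the crossed product. -/
def AEgen (c : ℕ × B ≃ ℕ) (E : SAct Γ B) (U : B → Set P) : Set (Fam Γ P) :=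
  {a | ∃ g i j b b' f, Good U f b b' ∧ a = cov c E g i j (ge f b b')}

/-- The compact operators of the crossed product of the module with the basis `b` over `U b`. -/
def AE (c : ℕ × B ≃ ℕ) (E : SAct Γ B) (U : B → Set P) : NonUnitalSubalgebra ℂ (Fam Γ P) :=
  (NonUnitalAlgebra.adjoin ℂ (AEgen c E U)).topologicalClosure

omit [Group Γ] [MulAction Γ B] [MulAction Γ P] in
/-- The compact operators of the module. -/
def KE (U : B → Set P) : Submodule ℂ (FB B P) :=
  (Submodule.span ℂ {n | ∃ b b' f, Good U f b b' ∧ n = ge f b b'}).topologicalClosure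

/-- PROOF: the generators are multiples of elements `gen ..` (`cov_ge`), and `cp Γ P` is a closed algebra. -/
theorem AE_le_cp (c : ℕ × B ≃ ℕ) (E : SAct Γ B) (U : B → Set P) : AE c E U ≤ cp Γ P := by
  refine NonUnitalSubalgebra.topologicalClosure_minimal ?_ isClosed_cp
  refine NonUnitalAlgebra.adjoin_le ?_
  rintro a ⟨g, i, j, b, b', f, -, rfl⟩
  rw [SetLike.mem_coe, cov_ge]
  refine SMulMemClass.smul_mem _ ?_
  refine NonUnitalSubalgebra.le_topologicalClosure _ ?_
  exact NonUnitalAlgebra.subset_adjoin ℂ ⟨f, g, _, _, rfl⟩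

theorem isClosed_AE (c : ℕ × B ≃ ℕ) (E : SAct Γ B) (U : B → Set P) :
    IsClosed (AE c E U : Set (Fam Γ P)) := isClosed_closure

/-- PROOF: `cov` is linear and contractive (`cov_add`, `cov_smul`, `norm_cov_le`): `Submodule.span_induction`, and
the closure. -/
theorem cov_mem_AE (c : ℕ × B ≃ ℕ) (E : SAct Γ B) (U : B → Set P) (g : Γ) (i j : ℕ)
    {n : FB B P} (hn : n ∈ KE U) : cov c E g i j n ∈ AE c E U := by
  have h1 : ∀ m ∈ Submodule.span ℂ {n : FB B P | ∃ b b' f, Good U f b b' ∧ n = ge f b b'},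
      cov c E g i j m ∈ AE c E U := by
    intro m hm
    induction hm using Submodule.span_induction with
    | mem x hx =>
      obtain ⟨b, b', f, hf, rfl⟩ := hx
      refine NonUnitalSubalgebra.le_topologicalClosure _ ?_
      exact NonUnitalAlgebra.subset_adjoin ℂ ⟨g, i, j, b, b', f, hf, rfl⟩
    | zero =>
      rw [cov_zero]
      exact zero_mem _
    | add x y _ _ hx hy =>
      rw [cov_add]
      exact add_mem hx hy
    | smul z x _ hx =>
      rw [cov_smul]
      exact SMulMemClass.smul_mem z hx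
  have h2 : n ∈ closure (Submodule.span ℂ
      {n : FB B P | ∃ b b' f, Good U f b b' ∧ n = ge f b b'} : Set (FB B P)) := hn
  rw [← SetLike.mem_coe, ← (isClosed_AE c E U).closure_eq, Metric.mem_closure_iff]
  intro ε hε
  obtain ⟨m, hm, hd⟩ := Metric.mem_closure_iff.1 h2 ε hε
  refine ⟨cov c E g i j m, h1 m hm, ?_⟩
  rw [dist_eq_norm, ← cov_sub]
  rw [dist_eq_norm] at hd
  exact lt_of_le_of_lt (norm_cov_le c E g i j _) hd

omit [Group Γ] [MulAction Γ B] [MulAction Γ P] in
/-- The multipliers: the rows and columns are finite, uniformly in `p`, the entries `(b, b')` are continuous on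
`U b` and on `U b'`, and vanish unless `p ∈ U b ↔ p ∈ U b'`. -/
structure Mlt (U : B → Set P) (n : FB B P) : Prop where
  row : ∀ b, ∃ A : Finset B, ∀ p, ∀ b' ∉ A, ker (n p) b b' = 0
  col : ∀ b', ∃ A : Finset B, ∀ p, ∀ b ∉ A, ker (n p) b b' = 0
  cont : ∀ b b', ContinuousOn (fun p => ker (n p) b b') (U b)
  cont' : ∀ b b', ContinuousOn (fun p => ker (n p) b b') (U b')
  supp : ∀ b b' p, ker (n p) b b' ≠ 0 → (p ∈ U b ↔ p ∈ U b')

end Pool.Agent.Lib.MP_aa9b81_an.Hs
end
end

section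

/-!
# Hereditary shifts, part M1: matrix units, the compact operators of the module
-/

open scoped ENNReal Topology ZeroAtInfty
open Function Filter

noncomputable section

namespace Pool.Agent.Lib.MP_aa9b81_an.Hs

open Cut

variable {Γ B P : Type} [Group Γ] [MulAction Γ B] [Nonempty B]

variable [TopologicalSpace P]

variable [MulAction Γ P]

variable [ContinuousConstSMul Γ P]

/-- PROOF: at `p`: `W_g (f(g⁻¹ p) E_{bb'}) W_{g⁻¹}`, and `W_g E_{bb'} W_{g⁻¹} = ε(g, b) ε(g⁻¹, g b') E_{gb, gb'}`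
(`W_apply`, `Eu_apply`). -/
theorem Ad_ge (E : SAct Γ B) (g : Γ) (f : C₀(P, ℂ)) (b b' : B) :
    E.Ad g (ge f b b') =
      (E.ε g b * E.ε g⁻¹ (g • b')) • ge (shift g f) (g • b) (g • b') := by
  classical
  refine FB.ext fun p => ?_
  rw [SAct.Ad_apply, FB.smul_apply, ge_apply, ge_apply, shift_apply]
  refine ContinuousLinearMap.ext fun ξ => ?_
  ext a
  rw [ContinuousLinearMap.mul_apply, ContinuousLinearMap.mul_apply, SAct.W_apply,
    ContinuousLinearMap.smul_apply, lp.coeFn_smul, Pi.smul_apply, Eu_apply, SAct.W_apply,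
    inv_inv, ContinuousLinearMap.smul_apply, ContinuousLinearMap.smul_apply, lp.coeFn_smul,
    lp.coeFn_smul, Pi.smul_apply, Pi.smul_apply, Eu_apply]
  by_cases ha : a = g • b
  · subst ha
    rw [if_pos rfl, if_pos (inv_smul_smul g b), inv_smul_smul]
    simp only [smul_eq_mul]
    ring
  · have hb : g⁻¹ • a ≠ b := fun h => ha (by rw [← h, smul_inv_smul])
    rw [if_neg ha, if_neg hb]
    simp only [smul_zero, mul_zero]

end Pool.Agent.Lib.MP_aa9b81_an.Hs
end
end
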