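import Pool.Agent.Lib.MP_aa9b81_an.Mg.G073
import Pool.Agent.Lib.MP_aa9b81_an.Mg.G075
import Pool.Agent.Lib.MP_aa9b81_an.Mg.G078

section

section
/-!
# Hereditary shifts, part D6d: rotations at one site
-/

open scoped ENNReal Topology
open Function

noncomputable section

namespace Pool.Agent.Lib.MP_aa9b81_an.Hs

open Cut

variable {Γ I : Type} [Group Γ] [MulAction Γ I] [DecidableEq I]

omit [Group Γ] [MulAction Γ I] in
theorem D6d_Ui_apply (i : I) (φ : ℝ) (ξ : L2 (Bs I)) (b : Bs I) :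
    (Ui i φ ξ : Bs I → ℂ) b = (ξ : Bs I → ℂ) b
      + ((Real.cos φ - 1 : ℝ) : ℂ) * (if i ∈ b.S then 0 else (ξ : Bs I → ℂ) b)
      + ((Real.sin φ : ℝ) : ℂ) * (Jw i b * (ξ : Bs I → ℂ) (fl i b)) := by
  have h : Ui i φ ξ = ξ + ((Real.cos φ - 1 : ℝ) : ℂ) • Ni i ξ + ((Real.sin φ : ℝ) : ℂ) • Ji i ξ := by
    unfold Ui
    simp only [ContinuousLinearMap.add_apply, ContinuousLinearMap.smul_apply,
      ContinuousLinearMap.one_apply]
  rw [h, lp.coeFn_add, Pi.add_apply, lp.coeFn_add, Pi.add_apply, lp.coeFn_smul, Pi.smul_apply,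
    lp.coeFn_smul, Pi.smul_apply, Ni_apply, Ji_apply, smul_eq_mul, smul_eq_mul]

omit [Group Γ] [MulAction Γ I] in
theorem D6d_fl_S (i : I) (b : Bs I) : (fl i b).S = b.S := by
  unfold fl
  split_ifs <;> simp

omit [Group Γ] [MulAction Γ I] in
theorem D6d_fl_F {i : I} {b : Bs I} (h : i ∉ b.S) : (fl i b).F = tg i b.F := by
  unfold fl
  rw [dif_neg h]
  simp

omit [Group Γ] [MulAction Γ I] in
theorem D6d_fl_of_mem {i : I} {b : Bs I} (h : i ∈ b.S) : fl i b = b := by
  unfold fl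
  rw [dif_pos h]

theorem D6d_mem_smul_S (g : Γ) (i : I) (b : Bs I) : i ∈ (g⁻¹ • b).S ↔ g • i ∈ b.S := by
  rw [Bs.smul_S, mem_gF, inv_inv]

theorem D6d_mem_smul_F (g : Γ) (i : I) (b : Bs I) : i ∈ (g⁻¹ • b).F ↔ g • i ∈ b.F := by
  rw [Bs.smul_F, mem_gF, inv_inv]

theorem D6d_fl_smul (g : Γ) (i : I) (b : Bs I) : fl i (g⁻¹ • b) = g⁻¹ • fl (g • i) b := by
  by_cases h : g • i ∈ b.S
  · rw [D6d_fl_of_mem h, D6d_fl_of_mem ((D6d_mem_smul_S g i b).2 h)]
  · have h' : i ∉ (g⁻¹ • b).S := fun h1 => h ((D6d_mem_smul_S g i b).1 h1)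
    apply Bs.ext
    · rw [D6d_fl_F h', Bs.smul_F, Bs.smul_F, D6d_fl_F h, gF_tg, inv_smul_smul]
    · rw [D6d_fl_S, Bs.smul_S, Bs.smul_S, D6d_fl_S]

/-- PROOF: coordinates; `fl (g i) (g b) = g (fl i b)` (`gF_tg`), and the sign `ε(g, b) = ep g S` does not depend
on `F`; `W_mul_dia` for `Ni`. -/
theorem W_mul_Ui (e : I ↪ ℕ) (g : Γ) (i : I) (φ : ℝ) : (sact e : SAct Γ (Bs I)).W g * Ui i φ =
    Ui (g • i) φ * (sact e : SAct Γ (Bs I)).W g := by
  refine ContinuousLinearMap.ext fun ξ => ?_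
  ext b
  rw [ContinuousLinearMap.mul_apply, ContinuousLinearMap.mul_apply, SAct.W_apply, D6d_Ui_apply,
    D6d_Ui_apply, SAct.W_apply, SAct.W_apply]
  have h1 : Jw i (g⁻¹ • b) = Jw (g • i) b := by
    unfold Jw
    simp only [D6d_mem_smul_S, D6d_mem_smul_F]
  have h2 : (sact e : SAct Γ (Bs I)).ε g (g⁻¹ • fl (g • i) b)
      = (sact e : SAct Γ (Bs I)).ε g (g⁻¹ • b) := by
    rw [sact_ε, sact_ε, Bs.smul_S, Bs.smul_S, D6d_fl_S]
  rw [h1, h2, D6d_fl_smul]
  simp only [D6d_mem_smul_S]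
  split_ifs <;> ring

omit [Group Γ] [MulAction Γ I] in
theorem D6d_XL_iff {i : I} {L : Finset I} (h : i ∉ L) (b : Bs I) :
    L ⊆ (fl i b).F \ (fl i b).S ↔ L ⊆ b.F \ b.S := by
  by_cases hi : i ∈ b.S
  · rw [D6d_fl_of_mem hi]
  · rw [D6d_fl_S, D6d_fl_F hi]
    constructor
    · intro h1 j hj
      have hji : j ≠ i := fun e => h (e ▸ hj)
      have h2 := Finset.mem_sdiff.1 (h1 hj)
      refine Finset.mem_sdiff.2 ⟨?_, h2.2⟩
      rcases mem_tg.1 h2.1 with h3 | h3
      · exact absurd h3.1 hji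
      · exact h3.2
    · intro h1 j hj
      have hji : j ≠ i := fun e => h (e ▸ hj)
      have h2 := Finset.mem_sdiff.1 (h1 hj)
      exact Finset.mem_sdiff.2 ⟨mem_tg.2 (Or.inr ⟨hji, h2.1⟩), h2.2⟩

omit [Group Γ] [MulAction Γ I] in
/-- PROOF: coordinates; `(fl j b).S = b.S` and `i ∈ (fl j b).F ↔ i ∈ b.F` for `i ≠ j`. -/
theorem Ui_comm_XL {i : I} {L : Finset I} (h : i ∉ L) (φ : ℝ) : Commute (Ui i φ) (XL L) := by
  refine ContinuousLinearMap.ext fun ξ => ?_
  ext b
  rw [ContinuousLinearMap.mul_apply, ContinuousLinearMap.mul_apply, XL_apply, D6d_Ui_apply,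
    D6d_Ui_apply, XL_apply, XL_apply]
  simp only [D6d_XL_iff h]
  split_ifs <;> ring

omit [Group Γ] [MulAction Γ I] in
/-- PROOF: coordinates, `(fl i b).S = b.S`. -/
theorem Ui_comm_Pp (i : I) (φ : ℝ) : Commute (Ui i φ) Pp := by
  refine ContinuousLinearMap.ext fun ξ => ?_
  ext b
  rw [ContinuousLinearMap.mul_apply, ContinuousLinearMap.mul_apply, Pp_apply, D6d_Ui_apply,
    D6d_Ui_apply, Pp_apply, Pp_apply]
  simp only [D6d_fl_S]
  split_ifs <;> ring

omit [Group Γ] [MulAction Γ I] in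
/-- The projection onto the span of the pairs with `F ⊆ s`. -/
def Es (s : Set I) : BL (Bs I) :=
  haveI := Classical.dec
  dia fun b => if (b.F : Set I) ⊆ s then 1 else 0

omit [Group Γ] [MulAction Γ I] [DecidableEq I] in
open Classical in
/-- PROOF: `dia_apply` with `C = 1`. -/
theorem Es_apply (s : Set I) (ξ : L2 (Bs I)) (b : Bs I) :
    (Es s ξ : Bs I → ℂ) b = if (b.F : Set I) ⊆ s then (ξ : Bs I → ℂ) b else 0 := by
  unfold Es
  rw [dia_apply zero_le_one (fun b => by split_ifs <;> simp)]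
  split_ifs <;> simp

end Pool.Agent.Lib.MP_aa9b81_an.Hs
end

end


section
/-!
# Hereditary shifts, part E0: sites, weights, the operator `T`
-/

open scoped ENNReal Topology ZeroAtInfty
open Function Filter Set

noncomputable section

namespace Pool.Agent.Lib.MP_aa9b81_an.Hs

open Cut

variable {Γ P I : Type} [Group Γ] [TopologicalSpace P] [MulAction Γ P] [MulAction Γ I]
  [DecidableEq I] (H : Site Γ P I) (w : Wt Γ I)

/-- PROOF: `∑ Ws² / nW² = 1` for `F ≠ ∅`, and `0` for `F = ∅`. -/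
theorem Site.sum_uu_sq {s : ℝ} (hs : 0 ≤ s) (p : P) (F : Finset I) :
    ∑ i ∈ F, H.uu w s p F i ^ 2 = if F = ∅ then 0 else 1 := by
  split_ifs with h
  · rw [h, Finset.sum_empty]
  · have hF : F.Nonempty := Finset.nonempty_iff_ne_empty.2 h
    have h1 : 0 < ∑ i ∈ F, H.Ws w s p i ^ 2 := by
      refine Finset.sum_pos (fun i _ => ?_) hF
      have h2 := H.one_le_Ws w hs p i
      positivity
    simp only [Site.uu, div_pow]
    rw [← Finset.sum_div, Site.nW, Real.sq_sqrt h1.le, div_self h1.ne']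

theorem Site.CB_uu {s : ℝ} (hs : 0 ≤ s) (p : P) : CB (H.uu w s p) 1 := by
  refine ⟨zero_le_one, fun F => ?_⟩
  rw [H.sum_uu_sq w hs]
  split_ifs <;> norm_num

/-- The projection onto the module at `p`. -/
def Site.EP : FB (Bs I) P := FB.mk (fun p => Es (H.supp p)) 1 fun p => by
  classical
  exact norm_dia_le zero_le_one fun b => by split_ifs <;> simp

@[simp] lemma Site.EP_apply (p : P) : H.EP p = Es (H.supp p) := rfl

/-- The operator `T`, with the deformed weights. -/
def Site.T (e : I ↪ ℕ) (s : ℝ) (hs : 0 ≤ s) : FB (Bs I) P :=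
  FB.mk (fun p => Cl e (H.uu w s p) * Es (H.supp p)) 1 fun p => by
    have h1 := norm_Cl_le e (H.CB_uu w hs p)
    have h2 : ‖(Es (H.supp p) : BL (Bs I))‖ ≤ 1 := by
      classical
      exact norm_dia_le zero_le_one fun b => by split_ifs <;> simp
    refine (norm_mul_le _ _).trans ?_
    have h3 := norm_nonneg (Cl e (H.uu w s p))
    have h4 := norm_nonneg (Es (H.supp p) : BL (Bs I))
    nlinarith

@[simp] lemma Site.T_apply (e : I ↪ ℕ) (s : ℝ) (hs : 0 ≤ s) (p : P) :
    H.T w e s hs p = Cl e (H.uu w s p) * Es (H.supp p) := rfl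

/-- The translated coefficients `u(g⁻¹ p, g⁻¹ F)(g⁻¹ i)`. -/
def Site.ug (g : Γ) (s : ℝ) (p : P) (F : Finset I) (i : I) : ℝ :=
  H.uu w s (g⁻¹ • p) (gF g⁻¹ F) (g⁻¹ • i)

end Pool.Agent.Lib.MP_aa9b81_an.Hs
end

end
end

section

/-!
# Hereditary shifts, part D6: rotations at one site
-/

open scoped ENNReal Topology
open Function

noncomputable section

namespace Pool.Agent.Lib.MP_aa9b81_an.Hs

open Cut

variable {Γ I : Type} [Group Γ] [MulAction Γ I] [DecidableEq I]

omit [Group Γ] [MulAction Γ I] in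
theorem D6_Ui_apply (i : I) (φ : ℝ) (ξ : L2 (Bs I)) (b : Bs I) :
    (Ui i φ ξ : Bs I → ℂ) b = (ξ : Bs I → ℂ) b
      + ((Real.cos φ - 1 : ℝ) : ℂ) * (if i ∈ b.S then 0 else (ξ : Bs I → ℂ) b)
      + ((Real.sin φ : ℝ) : ℂ) * (Jw i b * (ξ : Bs I → ℂ) (fl i b)) := by
  have h : Ui i φ ξ = ξ + ((Real.cos φ - 1 : ℝ) : ℂ) • Ni i ξ + ((Real.sin φ : ℝ) : ℂ) • Ji i ξ := by
    unfold Ui
    simp only [ContinuousLinearMap.add_apply, ContinuousLinearMap.smul_apply,
      ContinuousLinearMap.one_apply]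
  rw [h, lp.coeFn_add, Pi.add_apply, lp.coeFn_add, Pi.add_apply, lp.coeFn_smul, Pi.smul_apply,
    lp.coeFn_smul, Pi.smul_apply, Ni_apply, Ji_apply, smul_eq_mul, smul_eq_mul]

omit [Group Γ] [MulAction Γ I] in
theorem D6_fl_F {i : I} {b : Bs I} (h : i ∉ b.S) : (fl i b).F = tg i b.F := by
  unfold fl
  rw [dif_neg h]
  simp

omit [Group Γ] [MulAction Γ I] in
theorem D6_fl_of_mem {i : I} {b : Bs I} (h : i ∈ b.S) : fl i b = b := by
  unfold fl
  rw [dif_pos h]

omit [Group Γ] [MulAction Γ I] in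
theorem D6_Es_iff {i : I} {s : Set I} (h : i ∈ s) (b : Bs I) :
    ((fl i b).F : Set I) ⊆ s ↔ (b.F : Set I) ⊆ s := by
  by_cases hi : i ∈ b.S
  · rw [D6_fl_of_mem hi]
  · rw [D6_fl_F hi]
    constructor
    · intro h1 j hj
      by_cases hji : j = i
      · rw [hji]; exact h
      · exact h1 (Finset.mem_coe.2 (mem_tg.2 (Or.inr ⟨hji, Finset.mem_coe.1 hj⟩)))
    · intro h1 j hj
      rcases mem_tg.1 (Finset.mem_coe.1 hj) with h3 | h3
      · rw [h3.1]; exact h
      · exact h1 (Finset.mem_coe.2 h3.2)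

omit [Group Γ] [MulAction Γ I] in
/-- PROOF: coordinates: `(fl i b).F ⊆ s ↔ b.F ⊆ s` for `i ∈ s`. -/
theorem Ui_comm_Es {i : I} {s : Set I} (h : i ∈ s) (φ : ℝ) : Commute (Ui i φ) (Es s) := by
  classical
  refine ContinuousLinearMap.ext fun ξ => ?_
  ext b
  rw [ContinuousLinearMap.mul_apply, ContinuousLinearMap.mul_apply, Es_apply, D6_Ui_apply,
    D6_Ui_apply, Es_apply, Es_apply]
  by_cases hb : (b.F : Set I) ⊆ s
  · rw [if_pos hb, if_pos hb, if_pos ((D6_Es_iff h b).2 hb)]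
  · rw [if_neg hb, if_neg hb, if_neg (fun h2 => hb ((D6_Es_iff h b).1 h2))]
    split_ifs <;> ring

end Pool.Agent.Lib.MP_aa9b81_an.Hs
end
end

section

section
/-!
# Hereditary shifts, part D7b: rotations at finitely many sites
-/

open scoped ENNReal Topology
open Function

noncomputable section

namespace Pool.Agent.Lib.MP_aa9b81_an.Hs

open Cut

variable {Γ I : Type} [Group Γ] [MulAction Γ I] [DecidableEq I]

omit [Group Γ] [MulAction Γ I] in
theorem D7b_union (K L : Finset I) (h : Disjoint K L) (φ : ℝ) :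
    UK (K ∪ L) φ = UK K φ * UK L φ := by
  classical
  induction K using Finset.induction_on with
  | empty => rw [Finset.empty_union, UK_empty, one_mul]
  | insert i K hi ih =>
    have h1 : i ∉ L := fun hL =>
      (Finset.disjoint_left.1 h) (Finset.mem_insert_self i K) hL
    have h2 : Disjoint K L := Finset.disjoint_left.2 fun j hj hL =>
      (Finset.disjoint_left.1 h) (Finset.mem_insert_of_mem hj) hL
    have h3 : i ∉ K ∪ L := fun hu => (Finset.mem_union.1 hu).elim hi h1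
    have h4 : insert i K ∪ L = insert i (K ∪ L) := Finset.insert_union i K L
    rw [h4, UK_insert h3, UK_insert hi, ih h2, mul_assoc]

omit [Group Γ] [MulAction Γ I] in
/-- PROOF: `Finset.noncommProd_union_of_disjoint`, or induction on `K ∖ L`. -/
theorem UK_sdiff {L K : Finset I} (h : L ⊆ K) (φ : ℝ) : UK K φ = UK (K \ L) φ * UK L φ := by
  rw [← D7b_union _ _ Finset.sdiff_disjoint, Finset.sdiff_union_of_subset h]

omit [Group Γ] [MulAction Γ I] in
/-- PROOF: induction, `Ui_zero`. -/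
theorem UK_zero (K : Finset I) : UK K 0 = 1 := by
  classical
  induction K using Finset.induction_on with
  | empty => rw [UK_empty]
  | insert i K hi ih =>
    rw [UK_insert hi, ih, mul_one]
    exact Units.ext (Ui_zero i)

/-- PROOF: induction on `K`: `W_mul_Ui`, `gF g (insert i K) = insert (g i) (gF g K)`. -/
theorem W_mul_UK (e : I ↪ ℕ) (g : Γ) (K : Finset I) (φ : ℝ) :
    (sact e : SAct Γ (Bs I)).W g * (UK K φ : BL (Bs I)) =
      (UK (gF g K) φ : BL (Bs I)) * (sact e : SAct Γ (Bs I)).W g := by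
  classical
  induction K using Finset.induction_on with
  | empty =>
    have h0 : gF g (∅ : Finset I) = ∅ := by
      ext j
      rw [mem_gF]
      simp
    rw [h0, UK_empty, Units.val_one, mul_one, one_mul]
  | insert i K hi ih =>
    have h0 : gF g (insert i K) = insert (g • i) (gF g K) := by
      ext j
      rw [mem_gF, Finset.mem_insert, Finset.mem_insert, mem_gF, inv_smul_eq_iff]
    have h1 : g • i ∉ gF g K := by
      rw [mem_gF, inv_smul_smul]
      exact hi
    have h2 : ((Uu i φ : (BL (Bs I))ˣ) : BL (Bs I)) = Ui i φ := rfl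
    have h3 : ((Uu (g • i) φ : (BL (Bs I))ˣ) : BL (Bs I)) = Ui (g • i) φ := rfl
    rw [h0, UK_insert h1, UK_insert hi, Units.val_mul, Units.val_mul, h2, h3, ← mul_assoc,
      W_mul_Ui, mul_assoc, ih, mul_assoc]

/-- PROOF: from `W_mul_UK` by multiplication with the inverses from both sides. -/
theorem W_mul_UK_inv (e : I ↪ ℕ) (g : Γ) (K : Finset I) (φ : ℝ) :
    (sact e : SAct Γ (Bs I)).W g * ((UK K φ)⁻¹ : (BL (Bs I))ˣ).val =
      ((UK (gF g K) φ)⁻¹ : (BL (Bs I))ˣ).val * (sact e : SAct Γ (Bs I)).W g := by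
  have h := W_mul_UK e g K φ
  rw [Units.mul_inv_eq_iff_eq_mul, mul_assoc, h, ← mul_assoc, Units.inv_mul, one_mul]

omit [Group Γ] [MulAction Γ I] in
/-- The rotated projection. -/
def Sp (L : Finset I) (φ : ℝ) : BL (Bs I) :=
  (UK L φ : BL (Bs I)) * XL L * ((UK L φ)⁻¹ : (BL (Bs I))ˣ).val

end Pool.Agent.Lib.MP_aa9b81_an.Hs
end

end


section
/-!
# Hereditary shifts, part D7: rotations at finitely many sites
-/

open scoped ENNReal Topology
open Function

noncomputable section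

namespace Pool.Agent.Lib.MP_aa9b81_an.Hs

open Cut

variable {Γ I : Type} [Group Γ] [MulAction Γ I] [DecidableEq I]

omit [Group Γ] [MulAction Γ I] in
theorem D7_Ui_apply (i : I) (φ : ℝ) (ξ : L2 (Bs I)) (b : Bs I) :
    (Ui i φ ξ : Bs I → ℂ) b = (ξ : Bs I → ℂ) b
      + ((Real.cos φ - 1 : ℝ) : ℂ) * (if i ∈ b.S then 0 else (ξ : Bs I → ℂ) b)
      + ((Real.sin φ : ℝ) : ℂ) * (Jw i b * (ξ : Bs I → ℂ) (fl i b)) := by
  have h : Ui i φ ξ = ξ + ((Real.cos φ - 1 : ℝ) : ℂ) • Ni i ξ + ((Real.sin φ : ℝ) : ℂ) • Ji i ξ := by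
    unfold Ui
    simp only [ContinuousLinearMap.add_apply, ContinuousLinearMap.smul_apply,
      ContinuousLinearMap.one_apply]
  rw [h, lp.coeFn_add, Pi.add_apply, lp.coeFn_add, Pi.add_apply, lp.coeFn_smul, Pi.smul_apply,
    lp.coeFn_smul, Pi.smul_apply, Ni_apply, Ji_apply, smul_eq_mul, smul_eq_mul]

omit [Group Γ] [MulAction Γ I] in
theorem D7_fl_S (i : I) (b : Bs I) : (fl i b).S = b.S := by
  unfold fl
  split_ifs <;> simp

omit [Group Γ] [MulAction Γ I] in
theorem D7_fl_F {i : I} {b : Bs I} (h : i ∉ b.S) : (fl i b).F = tg i b.F := by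
  unfold fl
  rw [dif_neg h]
  simp

omit [Group Γ] [MulAction Γ I] in
/-- The projection onto the span of the pairs with `L ∩ F = ∅` and `M ⊆ F ∖ S`. -/
def D7_D (L M : Finset I) : BL (Bs I) :=
  dia fun b => if Disjoint L b.F ∧ M ⊆ b.F \ b.S then 1 else 0

omit [Group Γ] [MulAction Γ I] in
theorem D7_D_apply (L M : Finset I) (ξ : L2 (Bs I)) (b : Bs I) :
    (D7_D L M ξ : Bs I → ℂ) b =
      if Disjoint L b.F ∧ M ⊆ b.F \ b.S then (ξ : Bs I → ℂ) b else 0 := by
  rw [D7_D, dia_apply zero_le_one (fun b => by split_ifs <;> simp)]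
  split_ifs <;> simp

omit [Group Γ] [MulAction Γ I] in
theorem D7_iff {i : I} {L M : Finset I} (hL : i ∉ L) (hM : i ∉ M) {b : Bs I} (hb : i ∉ b.S) :
    (Disjoint L (fl i b).F ∧ insert i M ⊆ (fl i b).F \ (fl i b).S) ↔
      (Disjoint (insert i L) b.F ∧ M ⊆ b.F \ b.S) := by
  have hm : ∀ j, j ≠ i → (j ∈ tg i b.F ↔ j ∈ b.F) := by
    intro j hj
    rw [mem_tg]
    constructor
    · rintro (h | h)
      · exact absurd h.1 hj
      · exact h.2
    · intro h
      exact Or.inr ⟨hj, h⟩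
  have hi : i ∈ tg i b.F ↔ i ∉ b.F := by
    rw [mem_tg]
    constructor
    · rintro (h | h)
      · exact h.2
      · exact absurd rfl h.1
    · intro h
      exact Or.inl ⟨rfl, h⟩
  rw [D7_fl_S, D7_fl_F hb]
  constructor
  · rintro ⟨h1, h2⟩
    have h3 : i ∉ b.F := hi.1 (Finset.mem_sdiff.1 (h2 (Finset.mem_insert_self i M))).1
    refine ⟨?_, ?_⟩
    · rw [Finset.disjoint_left]
      intro j hj hjF
      rcases Finset.mem_insert.1 hj with h4 | h4
      · exact h3 (h4 ▸ hjF)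
      · have hji : j ≠ i := fun e => hL (e ▸ h4)
        exact (Finset.disjoint_left.1 h1) h4 ((hm j hji).2 hjF)
    · intro j hj
      have hji : j ≠ i := fun e => hM (e ▸ hj)
      have h4 := Finset.mem_sdiff.1 (h2 (Finset.mem_insert_of_mem hj))
      exact Finset.mem_sdiff.2 ⟨(hm j hji).1 h4.1, h4.2⟩
  · rintro ⟨h1, h2⟩
    have h3 : i ∉ b.F := (Finset.disjoint_left.1 h1) (Finset.mem_insert_self i L)
    refine ⟨?_, ?_⟩
    · rw [Finset.disjoint_left]
      intro j hj hjF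
      have hji : j ≠ i := fun e => hL (e ▸ hj)
      exact (Finset.disjoint_left.1 h1) (Finset.mem_insert_of_mem hj) ((hm j hji).1 hjF)
    · intro j hj
      rcases Finset.mem_insert.1 hj with h4 | h4
      · rw [h4]
        exact Finset.mem_sdiff.2 ⟨hi.2 h3, hb⟩
      · have hji : j ≠ i := fun e => hM (e ▸ h4)
        have h5 := Finset.mem_sdiff.1 (h2 h4)
        exact Finset.mem_sdiff.2 ⟨(hm j hji).2 h5.1, h5.2⟩

omit [Group Γ] [MulAction Γ I] in
theorem D7_step {i : I} {L M : Finset I} (hL : i ∉ L) (hM : i ∉ M) :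
    Ui i (Real.pi / 2) * D7_D L (insert i M) = D7_D (insert i L) M * Ui i (Real.pi / 2) := by
  refine ContinuousLinearMap.ext fun ξ => ?_
  ext b
  rw [ContinuousLinearMap.mul_apply, ContinuousLinearMap.mul_apply, D7_D_apply, D7_Ui_apply,
    D7_Ui_apply, D7_D_apply, D7_D_apply, Real.cos_pi_div_two, Real.sin_pi_div_two]
  by_cases hb : i ∈ b.S
  · have h1 : ¬ (Disjoint L b.F ∧ insert i M ⊆ b.F \ b.S) := fun h =>
      (Finset.mem_sdiff.1 (h.2 (Finset.mem_insert_self i M))).2 hb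
    have h2 : ¬ (Disjoint (insert i L) b.F ∧ M ⊆ b.F \ b.S) := fun h =>
      (Finset.disjoint_left.1 h.1) (Finset.mem_insert_self i L) (b.2 hb)
    have h3 : Jw i b = 0 := by
      unfold Jw
      rw [if_pos hb]
    rw [if_neg h1, if_neg h2, h3, if_pos hb]
    ring
  · rw [if_neg hb]
    by_cases h4 : Disjoint (insert i L) b.F ∧ M ⊆ b.F \ b.S
    · rw [if_pos h4, if_pos ((D7_iff hL hM hb).2 h4), if_neg hb]
      push_cast
      ring
    · rw [if_neg h4, if_neg (fun h => h4 ((D7_iff hL hM hb).1 h))]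
      push_cast
      ring

omit [Group Γ] [MulAction Γ I] in
theorem D7_UK (L M : Finset I) (h : Disjoint L M) :
    (UK L (Real.pi / 2) : BL (Bs I)) * D7_D ∅ (L ∪ M) =
      D7_D L M * (UK L (Real.pi / 2) : BL (Bs I)) := by
  induction L using Finset.induction_on generalizing M with
  | empty => rw [Finset.empty_union, UK_empty, Units.val_one, one_mul, mul_one]
  | insert i L hi ih =>
    have h1 : i ∉ M := (Finset.disjoint_left.1 h) (Finset.mem_insert_self i L)
    have h2 : Disjoint L (insert i M) := by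
      rw [Finset.disjoint_left]
      intro j hj hjM
      rcases Finset.mem_insert.1 hjM with h4 | h4
      · exact hi (h4 ▸ hj)
      · exact (Finset.disjoint_left.1 h) (Finset.mem_insert_of_mem hj) h4
    have h3 : insert i L ∪ M = L ∪ insert i M := by
      rw [Finset.insert_union, Finset.union_insert]
    have h4 : ((Uu i (Real.pi / 2) : (BL (Bs I))ˣ) : BL (Bs I)) = Ui i (Real.pi / 2) := rfl
    rw [UK_insert hi, Units.val_mul, h3, mul_assoc, ih _ h2, h4, ← mul_assoc, D7_step hi h1,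
      mul_assoc]

omit [Group Γ] [MulAction Γ I] in
theorem D7_continuous_UK (L : Finset I) :
    Continuous (fun φ : ℝ => (UK L φ : BL (Bs I))) ∧
      Continuous (fun φ : ℝ => ((UK L φ)⁻¹ : (BL (Bs I))ˣ).val) := by
  induction L using Finset.induction_on with
  | empty =>
    constructor
    · simp only [UK_empty]
      exact continuous_const
    · simp only [UK_empty]
      exact continuous_const
  | insert i L hi ih =>
    constructor
    · have h : (fun φ : ℝ => (UK (insert i L) φ : BL (Bs I))) =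
          fun φ => Ui i φ * (UK L φ : BL (Bs I)) := by
        funext φ
        rw [UK_insert hi, Units.val_mul]
        rfl
      rw [h]
      exact (continuous_Ui i).mul ih.1
    · have h : (fun φ : ℝ => ((UK (insert i L) φ)⁻¹ : (BL (Bs I))ˣ).val) =
          fun φ => ((UK L φ)⁻¹ : (BL (Bs I))ˣ).val * Ui i (-φ) := by
        funext φ
        rw [UK_insert hi, mul_inv_rev, Units.val_mul]
        rfl
      rw [h]
      exact ih.2.mul ((continuous_Ui i).comp continuous_neg)

omit [Group Γ] [MulAction Γ I] in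
/-- PROOF: induction on `K` for `φ ↦ UK K φ` and its inverse (`UK_insert`, `continuous_Ui`), products. -/
theorem continuous_Sp (L : Finset I) : Continuous (Sp L) := by
  have h := D7_continuous_UK L
  exact (h.1.mul continuous_const).mul h.2

omit [Group Γ] [MulAction Γ I] in
/-- At `φ = π/2`: the projection onto the span of the pairs with `L ∩ F = ∅`. PROOF: it is enough to
show `Ui i (π/2) * XL (insert i L) * Ui i (-π/2) = K_i * XL L` for `i ∉ L`, with `K_i` the multiplication by the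
indicator function of `i ∉ F`: coordinates, `cos (π/2) = 0`, `sin (π/2) = 1`. Then induction on `L` for the
statement `UK L (π/2) * XL (L ∪ M) * (UK L (π/2))⁻¹ = [L ∩ F = ∅] XL M` for `M` disjoint from `L`. -/
theorem Sp_pi_div_two (L : Finset I) :
    Sp L (Real.pi / 2) = dia fun b : Bs I => if Disjoint L b.F then 1 else 0 := by
  have h1 := D7_UK L ∅ (Finset.disjoint_empty_right L)
  rw [Finset.union_empty] at h1
  have h2 : D7_D ∅ L = XL L := by
    unfold D7_D XL
    congr 1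
    funext b
    have : (Disjoint (∅ : Finset I) b.F ∧ L ⊆ b.F \ b.S) ↔ L ⊆ b.F \ b.S :=
      ⟨fun h => h.2, fun h => ⟨Finset.disjoint_empty_left _, h⟩⟩
    simp only [this]
  have h3 : D7_D L ∅ = dia fun b : Bs I => if Disjoint L b.F then 1 else 0 := by
    unfold D7_D
    congr 1
    funext b
    have : (Disjoint L b.F ∧ ∅ ⊆ b.F \ b.S) ↔ Disjoint L b.F :=
      ⟨fun h => h.1, fun h => ⟨h, Finset.empty_subset _⟩⟩
    simp only [this]
  rw [← h3]
  unfold Sp
  rw [← h2, h1, mul_assoc, Units.mul_inv, mul_one]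

end Pool.Agent.Lib.MP_aa9b81_an.Hs
end

end
end
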