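import Pool.Agent.Lib.MP_aa9b81_an.CutM.B
import Pool.Agent.Lib.MP_aa9b81_an.CutM.J
import Pool.Agent.Lib.MP_aa9b81_an.Mg.G002
import Pool.Agent.Lib.MP_aa9b81_an.Mg.G079
import Pool.Agent.Lib.MP_aa9b81_an.Mg.G078
import Pool.Agent.Lib.MP_aa9b81_an.Mg.G005

section

/-!
# Cutting theorem, part JB: comparison with the elementary description of `K₁`
-/

noncomputable section

namespace Pool.Agent.Lib.MP_aa9b81_an.Cut

section PartJB1

open scoped ENNReal Topology ZeroAtInfty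
open Filter Topology Set

variable {Γ Y Z : Type} [Group Γ] [TopologicalSpace Y] [MulAction Γ Y]
  [TopologicalSpace Z] [MulAction Γ Z]

private theorem JB1_cons (d : Dat Γ Y) (l : List (Dat Γ Y)) (y : Y) (ξ : Hil Γ) (s : Γ) (k : ℕ) :
    ((val (d :: l) : Fam Γ Y) y ξ : Γ × ℕ → ℂ) (s, k) =
      (if k = d.i then d.f (s • y) * (ξ : Γ × ℕ → ℂ) (d.g⁻¹ * s, d.j) else 0) +
        ((val l : Fam Γ Y) y ξ : Γ × ℕ → ℂ) (s, k) := by
  rw [val_cons]
  rfl

/-- PROOF: `val l` is the sum of the `gen f g i j` over the list `l` of data, and `gen f g i j` at `y` is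
the operator `wOp`, whose values are given by `wFun`; with `n = l.length`, `l.get` (or `l[m]`). -/
theorem finSum_val (l : List (Dat Γ Y)) : FinSum Γ (Y := Y) (val l : Fam Γ Y) := by
  induction l with
  | nil =>
    refine ⟨0, Fin.elim0, Fin.elim0, Fin.elim0, Fin.elim0, fun y ξ s k => ?_⟩
    rw [Fin.sum_univ_zero]
    rfl
  | cons d l ih =>
    obtain ⟨n, f, g, i, j, h⟩ := ih
    refine ⟨n + 1, Fin.cons d.f f, Fin.cons d.g g, Fin.cons d.i i, Fin.cons d.j j,
      fun y ξ s k => ?_⟩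
    rw [JB1_cons, h y ξ s k, Fin.sum_univ_succ]
    rfl

private theorem JB1_exists (n : ℕ) : ∀ (f : Fin n → C₀(Y, ℂ)) (g : Fin n → Γ) (i j : Fin n → ℕ),
    ∃ l : List (Dat Γ Y), ∀ (y : Y) (ξ : Hil Γ) (s : Γ) (k : ℕ),
      ((val l : Fam Γ Y) y ξ : Γ × ℕ → ℂ) (s, k) =
        ∑ m, if k = i m then f m (s • y) * (ξ : Γ × ℕ → ℂ) ((g m)⁻¹ * s, j m) else 0 := by
  induction n with
  | zero =>
    intro f g i j
    refine ⟨[], fun y ξ s k => ?_⟩
    rw [Fin.sum_univ_zero]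
    rfl
  | succ n ih =>
    intro f g i j
    obtain ⟨l, hl⟩ := ih (fun m => f m.succ) (fun m => g m.succ) (fun m => i m.succ)
      fun m => j m.succ
    refine ⟨⟨f 0, g 0, i 0, j 0⟩ :: l, fun y ξ s k => ?_⟩
    rw [JB1_cons, hl y ξ s k, Fin.sum_univ_succ]

/-- PROOF: let `l` be the list of the data `(f m, g m, i m, j m)`, `m : Fin n` (`List.ofFn`). The operators
`b y` and `(val l) y` have the same values, so `b y = (val l) y` (`lp.ext`, `ContinuousLinearMap.ext`). -/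
theorem exists_val_of_finSum {b : Y → Op Γ} (hb : FinSum Γ b) :
    ∃ l : List (Dat Γ Y), ∀ y, (val l : Fam Γ Y) y = b y := by
  obtain ⟨n, f, g, i, j, h⟩ := hb
  obtain ⟨l, hl⟩ := JB1_exists n f g i j
  refine ⟨l, fun y => ContinuousLinearMap.ext fun ξ => ?_⟩
  ext1
  funext p
  exact (hl y ξ p.1 p.2).trans (h y ξ p.1 p.2).symm

end PartJB1

section PartJB2

open scoped ENNReal Topology ZeroAtInfty
open Filter Topology Set

variable {Γ Y Z : Type} [Group Γ] [TopologicalSpace Y] [MulAction Γ Y]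
  [TopologicalSpace Z] [MulAction Γ Z]

/-- the direction from elementary families to the algebra -/
theorem JB2_mem_cp {a : Fam Γ Y} (h : InA Γ (fun y => a y)) : a ∈ cp Γ Y := by
  have h1 : a ∈ closure (cp Γ Y : Set (Fam Γ Y)) := by
    rw [Metric.mem_closure_iff]
    intro ε hε
    obtain ⟨b, hb, hn⟩ := h (ε / 2) (half_pos hε)
    obtain ⟨l, hl⟩ := exists_val_of_finSum hb
    refine ⟨val l, val_mem l, ?_⟩
    rw [dist_eq_norm]
    refine lt_of_le_of_lt ((Fam.norm_le_iff (half_pos hε).le).2 fun y => ?_) (half_lt_self hε)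
    rw [Fam.sub_apply, hl y]
    exact hn y
  rw [(isClosed_cp (Γ := Γ) (Y := Y)).closure_eq] at h1
  exact h1

/-- PROOF: `→`: for `ε` take `l` with `‖a - val l‖ < ε` (`exists_val_near`), `finSum_val`,
`Fam.norm_apply_le`. `←`: `cp` is closed (`isClosed_cp`), contains `val l` (`val_mem`), and
`‖a - val l‖ ≤ ε` (`Fam.norm_le_iff`) for the list of `exists_val_of_finSum`. -/
theorem mem_cp_iff [ContinuousConstSMul Γ Y] {a : Fam Γ Y} :
    a ∈ cp Γ Y ↔ InA Γ (fun y => a y) := by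
  constructor
  · intro h ε hε
    obtain ⟨l, -, hl⟩ := exists_val_near h hε
    refine ⟨fun y => (val l : Fam Γ Y) y, finSum_val l, fun y => ?_⟩
    have h1 := Fam.norm_apply_le (a - val l) y
    rw [Fam.sub_apply] at h1
    exact h1.trans hl.le
  · exact JB2_mem_cp

omit [Group Γ] [TopologicalSpace Y] [MulAction Γ Y] in
/-- PROOF: `Fam.mk` with the bound. -/
theorem exists_fam {a : Y → Op Γ} {C : ℝ} (h : ∀ y, ‖a y‖ ≤ C) :
    ∃ A : Fam Γ Y, ∀ y, A y = a y :=
  ⟨Fam.mk a C h, fun _ => rfl⟩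

/-- PROOF: for `ε = 1` there is `b = val l` (`exists_val_of_finSum`) with `‖a y - (val l) y‖ ≤ 1`, so
`‖a y‖ ≤ 1 + ‖val l‖`; `exists_fam`, and `A ∈ cp` by `mem_cp_iff`. -/
theorem InA.exists_fam {a : Y → Op Γ} (h : InA Γ a) : ∃ A ∈ cp Γ Y, ∀ y, (A : Fam Γ Y) y = a y := by
  obtain ⟨b, hb, hn⟩ := h 1 one_pos
  obtain ⟨l, hl⟩ := exists_val_of_finSum hb
  have h1 : ∀ y, ‖a y‖ ≤ 1 + ‖(val l : Fam Γ Y)‖ := by
    intro y
    have h2 : ‖a y - (val l : Fam Γ Y) y‖ ≤ 1 := by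
      rw [hl y]
      exact hn y
    have h3 := Fam.norm_apply_le (val l : Fam Γ Y) y
    calc ‖a y‖ = ‖(a y - (val l : Fam Γ Y) y) + (val l : Fam Γ Y) y‖ := by rw [sub_add_cancel]
      _ ≤ ‖a y - (val l : Fam Γ Y) y‖ + ‖(val l : Fam Γ Y) y‖ := norm_add_le _ _
      _ ≤ 1 + ‖(val l : Fam Γ Y)‖ := add_le_add h2 h3
  obtain ⟨A, hA⟩ := Pool.Agent.Lib.MP_aa9b81_an.Cut.exists_fam h1
  refine ⟨A, JB2_mem_cp ?_, hA⟩
  have h4 : (fun y => A y) = a := funext hA
  rw [h4]
  exact h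

end PartJB2

section PartJB3

open scoped ENNReal Topology ZeroAtInfty
open Filter Topology Set

variable {Γ Y Z : Type} [Group Γ] [TopologicalSpace Y] [MulAction Γ Y]
  [TopologicalSpace Z] [MulAction Γ Z]

/-- PROOF: `→`: for `u`, `v` as in `Unit1` take `A`, `B ∈ cp` with `A y = u y - 1`, `B y = v y - 1`
(`InA.exists_fam`); `U = 1 + A` is a unit with inverse `1 + B` (pointwise: `Fam.ext`).
`←`: `v y = (U⁻¹) y`; `mem_cp_iff`. -/
theorem unit1_iff [ContinuousConstSMul Γ Y] {u : Y → Op Γ} :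
    Unit1 Γ u ↔ ∃ U ∈ GL1 (cp Γ Y), ∀ y, ((U : (Fam Γ Y)ˣ) : Fam Γ Y) y = u y := by
  constructor
  · rintro ⟨v, huv, hu, hv⟩
    obtain ⟨A, hA, hAu⟩ := hu.exists_fam
    obtain ⟨B, hB, hBv⟩ := hv.exists_fam
    have h1 : ∀ y, (1 + A) y = u y := by
      intro y
      rw [Fam.add_apply, Fam.one_apply, hAu y]
      abel
    have h2 : ∀ y, (1 + B) y = v y := by
      intro y
      rw [Fam.add_apply, Fam.one_apply, hBv y]
      abel
    have h3 : (1 + A) * (1 + B) = 1 := by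
      ext1 y
      rw [Fam.mul_apply, h1 y, h2 y, Fam.one_apply]
      exact (huv y).1
    have h4 : (1 + B) * (1 + A) = 1 := by
      ext1 y
      rw [Fam.mul_apply, h1 y, h2 y, Fam.one_apply]
      exact (huv y).2
    refine ⟨⟨1 + A, 1 + B, h3, h4⟩, ⟨?_, ?_⟩, h1⟩
    · show (1 + A) - 1 ∈ cp Γ Y
      rw [add_sub_cancel_left]
      exact hA
    · show (1 + B) - 1 ∈ cp Γ Y
      rw [add_sub_cancel_left]
      exact hB
  · rintro ⟨U, ⟨hU1, hU2⟩, hU⟩
    refine ⟨fun y => ((U⁻¹ : (Fam Γ Y)ˣ) : Fam Γ Y) y, fun y => ⟨?_, ?_⟩, ?_, ?_⟩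
    · rw [← hU y, ← Fam.mul_apply, Units.mul_inv, Fam.one_apply]
    · show ((U⁻¹ : (Fam Γ Y)ˣ) : Fam Γ Y) y * u y = 1
      rw [← hU y, ← Fam.mul_apply, Units.inv_mul, Fam.one_apply]
    · have h1 := mem_cp_iff.1 hU1
      have h2 : (fun y => ((U : Fam Γ Y) - 1) y) = fun y => u y - 1 := by
        funext y
        rw [Fam.sub_apply, Fam.one_apply, hU y]
      rw [h2] at h1
      exact h1
    · have h1 := mem_cp_iff.1 hU2
      exact h1

end PartJB3

section PartJB4

open scoped ENNReal Topology ZeroAtInfty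
open Filter Topology Set

variable {Γ Y Z : Type} [Group Γ] [TopologicalSpace Y] [MulAction Γ Y]
  [TopologicalSpace Z] [MulAction Γ Z]

/-- PROOF: let `U`, `U' ∈ GL1 (cp Γ Y)`, `W = U⁻¹ * U' ∈ GL1`.
`→`: for a path `w` of units as in `Homot` let `W t ∈ GL1` be the unit with `W t y = w t y` (`unit1_iff`;
unique), continuous in norm: `‖W t' - W t‖ ≤ ε` by `Fam.norm_le_iff`. `t ↦ U⁻¹ * W t` is a path in `GL1`
from `1` to `U⁻¹ * U'`, so this is in `E1` (`E1_of_path`, or as there).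
`←`: by `mem_E1_iff` (`isClosed_cp`) `W ∈ E1` gives a path `q : [0,1] → GL1` from `1` to `W`; put
`w t y = (U * q (projIcc t)) y`; it is continuous in norm since multiplication by `U` is. -/
theorem homot_iff [ContinuousConstSMul Γ Y] {U U' : (Fam Γ Y)ˣ} (hU : U ∈ GL1 (cp Γ Y)) (hU' : U' ∈ GL1 (cp Γ Y)) :
    Homot Γ (fun y => (U : Fam Γ Y) y) (fun y => (U' : Fam Γ Y) y) ↔ U⁻¹ * U' ∈ E1 (cp Γ Y) := by
  constructor
  · rintro ⟨w, h0, h1, hw, hc⟩
    have hex : ∀ t : ℝ, ∃ W ∈ GL1 (cp Γ Y), ∀ y, ((W : (Fam Γ Y)ˣ) : Fam Γ Y) y = w t y :=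
      fun t => unit1_iff.1 (hw t)
    choose W hW hWe using hex
    have e0 : W 0 = U := Units.ext (Fam.ext fun y => by rw [hWe 0 y, h0])
    have e1 : W 1 = U' := Units.ext (Fam.ext fun y => by rw [hWe 1 y, h1])
    have hcont : Continuous (fun t : ℝ => ((W t : (Fam Γ Y)ˣ) : Fam Γ Y)) := by
      rw [Metric.continuous_iff]
      intro t ε hε
      obtain ⟨δ, hδ, hδ2⟩ := hc t (ε / 2) (half_pos hε)
      refine ⟨δ, hδ, fun t' ht' => ?_⟩
      rw [dist_eq_norm]
      refine lt_of_le_of_lt ?_ (half_lt_self hε)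
      refine (Fam.norm_le_iff (half_pos hε).le).2 fun y => ?_
      rw [Fam.sub_apply, hWe t' y, hWe t y]
      exact hδ2 t' (by rwa [Real.dist_eq] at ht') y
    have h := E1_of_path W (fun t _ => hW t) hcont.continuousOn
    rwa [e0, e1] at h
  · intro h
    obtain ⟨hu, hj⟩ := (mem_E1_iff isClosed_cp _).1 h
    have hj' : Joined (1 : GL1 (cp Γ Y)) ⟨U⁻¹ * U', hu⟩ := hj
    obtain ⟨γ⟩ := hj'
    have hq : ∀ t : ℝ, U * ((γ.extend t : GL1 (cp Γ Y)) : (Fam Γ Y)ˣ) ∈ GL1 (cp Γ Y) :=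
      fun t => mul_mem hU (γ.extend t).2
    have hcont : Continuous (fun t : ℝ =>
        ((U * ((γ.extend t : GL1 (cp Γ Y)) : (Fam Γ Y)ˣ) : (Fam Γ Y)ˣ) : Fam Γ Y)) := by
      have h1 : Continuous (fun t : ℝ => ((γ.extend t : GL1 (cp Γ Y)) : (Fam Γ Y)ˣ)) :=
        continuous_subtype_val.comp γ.continuous_extend
      have h2 : Continuous (fun t : ℝ =>
          (((γ.extend t : GL1 (cp Γ Y)) : (Fam Γ Y)ˣ) : Fam Γ Y)) :=
        Units.continuous_val.comp h1
      have h3 : Continuous (fun t : ℝ => (U : Fam Γ Y) *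
          (((γ.extend t : GL1 (cp Γ Y)) : (Fam Γ Y)ˣ) : Fam Γ Y)) := h2.const_mul _
      exact h3
    refine ⟨fun t y => ((U * ((γ.extend t : GL1 (cp Γ Y)) : (Fam Γ Y)ˣ) : (Fam Γ Y)ˣ) :
      Fam Γ Y) y, ?_, ?_, fun t => ?_, fun t ε hε => ?_⟩
    · funext y
      change ((U * ((γ.extend 0 : GL1 (cp Γ Y)) : (Fam Γ Y)ˣ) : (Fam Γ Y)ˣ) : Fam Γ Y) y = _
      rw [γ.extend_zero, OneMemClass.coe_one, mul_one]
    · funext y
      change ((U * ((γ.extend 1 : GL1 (cp Γ Y)) : (Fam Γ Y)ˣ) : (Fam Γ Y)ˣ) : Fam Γ Y) y = _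
      rw [γ.extend_one, mul_inv_cancel_left]
    · exact unit1_iff.2 ⟨_, hq t, fun y => rfl⟩
    · obtain ⟨δ, hδ, hδ2⟩ := (Metric.continuous_iff.1 hcont) t ε hε
      refine ⟨δ, hδ, fun t' ht' y => ?_⟩
      have h1 := hδ2 t' (by rwa [Real.dist_eq])
      rw [dist_eq_norm] at h1
      have h2 := Fam.norm_apply_le (((U * ((γ.extend t' : GL1 (cp Γ Y)) : (Fam Γ Y)ˣ) :
        (Fam Γ Y)ˣ) : Fam Γ Y) - ((U * ((γ.extend t : GL1 (cp Γ Y)) : (Fam Γ Y)ˣ) :
        (Fam Γ Y)ˣ) : Fam Γ Y)) y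
      rw [Fam.sub_apply] at h2
      exact h2.trans h1.le

end PartJB4

section PartJB5

open scoped ENNReal Topology ZeroAtInfty
open Filter Topology Set

variable {Γ Y Z : Type} [Group Γ] [TopologicalSpace Y] [MulAction Γ Y]
  [TopologicalSpace Z] [MulAction Γ Z]

/-- PROOF: `unit1_iff`, `homot_iff` with `U' = 1` (and `E1` is closed under inverses). -/
theorem k1Zero_iff [ContinuousConstSMul Γ Y] : K1Zero Γ Y ↔ GL1 (cp Γ Y) ≤ E1 (cp Γ Y) := by
  constructor
  · intro h U hU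
    have h1 : Unit1 Γ (fun y => (U : Fam Γ Y) y) := unit1_iff.2 ⟨U, hU, fun y => rfl⟩
    have h2 := h _ h1
    have h3 : Homot Γ (fun y => (U : Fam Γ Y) y) (fun y => ((1 : (Fam Γ Y)ˣ) : Fam Γ Y) y) := h2
    have h4 := (homot_iff hU (one_mem _)).1 h3
    rw [mul_one] at h4
    exact (inv_mem_iff).1 h4
  · intro h u hu
    obtain ⟨U, hU, hUe⟩ := unit1_iff.1 hu
    have e : u = fun y => (U : Fam Γ Y) y := funext fun y => (hUe y).symm
    rw [e]
    have h4 : U⁻¹ * 1 ∈ E1 (cp Γ Y) := by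
      rw [mul_one]
      exact inv_mem (h hU)
    exact (homot_iff hU (one_mem _)).2 h4

/-- PROOF: `unit1_iff`, `homot_iff`; for the first part `pull_mem_cp` (`GL1_map`). `→`: injectivity of
`IsoU`: for `u ∈ GL1` with `pullU p u ∈ E1` apply the second part to `1` and `u`
(`(pullU p 1)⁻¹ * pullU p u ∈ E1`); `←`: for `U`, `U'` with `(pullU p U)⁻¹ * pullU p U' ∈ E1` apply the
injectivity to `U⁻¹ * U'`. Surjectivity is the same condition on both sides. -/
theorem k1Bij_iff [ContinuousConstSMul Γ Y] [ContinuousConstSMul Γ Z] {p : Z → Y} (hp : IsProperMap p) (he : ∀ (g : Γ) z, p (g • z) = g • p z) :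
    K1Bij Γ p ↔ IsoU Γ p := by
  have hpull : ∀ U : (Fam Γ Y)ˣ, ∀ z, ((pullU p U : (Fam Γ Z)ˣ) : Fam Γ Z) z =
      (U : Fam Γ Y) (p z) := fun U z => rfl
  have hmem : ∀ {U : (Fam Γ Y)ˣ}, U ∈ GL1 (cp Γ Y) → pullU p U ∈ GL1 (cp Γ Z) :=
    fun hU => GL1_map (pull_mem_cp hp he) hU
  constructor
  · rintro ⟨-, h2, h3⟩
    constructor
    · intro U hU hE
      have h4 : Homot Γ (fun z => (fun y => ((1 : (Fam Γ Y)ˣ) : Fam Γ Y) y) (p z))
          (fun z => (fun y => (U : Fam Γ Y) y) (p z)) := by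
        have h5 : (pullU p 1)⁻¹ * pullU p U ∈ E1 (cp Γ Z) := by
          rw [map_one, inv_one, one_mul]
          exact hE
        exact (homot_iff (hmem (one_mem _)) (hmem hU)).2 h5
      have h6 := h2 _ _ (unit1_iff.2 ⟨1, one_mem _, fun y => rfl⟩)
        (unit1_iff.2 ⟨U, hU, fun y => rfl⟩) h4
      have h7 := (homot_iff (one_mem _) hU).1 h6
      rwa [inv_one, one_mul] at h7
    · intro V hV
      obtain ⟨u, hu, huv⟩ := h3 _ (unit1_iff.2 ⟨V, hV, fun y => rfl⟩)
      obtain ⟨U, hU, hUe⟩ := unit1_iff.1 hu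
      refine ⟨U, hU, ?_⟩
      have e : (fun z => u (p z)) = fun z => ((pullU p U : (Fam Γ Z)ˣ) : Fam Γ Z) z :=
        funext fun z => (hUe (p z)).symm
      rw [e] at huv
      exact (homot_iff (hmem hU) hV).1 huv
  · rintro ⟨h1, h2⟩
    refine ⟨fun u hu => ?_, fun u u' hu hu' hh => ?_, fun v hv => ?_⟩
    · obtain ⟨U, hU, hUe⟩ := unit1_iff.1 hu
      exact unit1_iff.2 ⟨pullU p U, hmem hU, fun z => hUe (p z)⟩
    · obtain ⟨U, hU, hUe⟩ := unit1_iff.1 hu
      obtain ⟨U', hU', hUe'⟩ := unit1_iff.1 hu'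
      have e : (fun z => u (p z)) = fun z => ((pullU p U : (Fam Γ Z)ˣ) : Fam Γ Z) z :=
        funext fun z => (hUe (p z)).symm
      have e' : (fun z => u' (p z)) = fun z => ((pullU p U' : (Fam Γ Z)ˣ) : Fam Γ Z) z :=
        funext fun z => (hUe' (p z)).symm
      rw [e, e'] at hh
      have h3 := (homot_iff (hmem hU) (hmem hU')).1 hh
      have h4 : pullU p (U⁻¹ * U') ∈ E1 (cp Γ Z) := by
        rw [map_mul, map_inv]
        exact h3
      have h5 := h1 _ (mul_mem (inv_mem hU) hU') h4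
      have e2 : u = fun y => (U : Fam Γ Y) y := funext fun y => (hUe y).symm
      have e3 : u' = fun y => (U' : Fam Γ Y) y := funext fun y => (hUe' y).symm
      rw [e2, e3]
      exact (homot_iff hU hU').2 h5
    · obtain ⟨V, hV, hVe⟩ := unit1_iff.1 hv
      obtain ⟨U, hU, hUV⟩ := h2 V hV
      refine ⟨fun y => (U : Fam Γ Y) y, unit1_iff.2 ⟨U, hU, fun y => rfl⟩, ?_⟩
      have e : v = fun z => (V : Fam Γ Z) z := funext fun z => (hVe z).symm
      rw [e]
      exact (homot_iff (hmem hU) hV).2 hUV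

end PartJB5

section PartJB6

open scoped ENNReal Topology ZeroAtInfty
open Filter Topology Set

instance {Γ E : Type} [Group Γ] [AddCommGroup E] [Module ℝ E] [TopologicalSpace E]
    [DistribMulAction Γ E] [ContinuousConstSMul Γ E] (Q : ConvexSpace Γ E) :
    ContinuousConstSMul Γ Q.Pt :=
  ⟨fun g => Continuous.subtype_mk (continuous_subtype_val.const_smul g) _⟩

instance {Γ : Type} [Group Γ] {n : ℕ} {F : Finset Γ} {P : Set (F → Fin n)} :
    ContinuousConstSMul Γ (SFT Γ n F P) :=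
  ⟨fun h => by
    have h1 : Continuous fun z : SFT Γ n F P => (fun g : Γ => z.1 (h⁻¹ * g)) :=
      continuous_pi fun g => (continuous_apply (h⁻¹ * g)).comp continuous_subtype_val
    exact h1.subtype_mk _⟩

end PartJB6

end Pool.Agent.Lib.MP_aa9b81_an.Cut
end
end

section

/-!
# Hereditary shifts, part H1c: block diagonal and local families
-/

open scoped ENNReal Topology ZeroAtInfty
open Function Filter Set

noncomputable section

namespace Pool.Agent.Lib.MP_aa9b81_an.Hs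

open Cut

variable {Γ Z I A : Type} [Group Γ] [MulAction Γ I] [MulAction Γ Z] [TopologicalSpace Z]
    [TopologicalSpace A] {a₀ : A} [DecidableEq I] (Y : Hered Γ Z I A a₀)

variable {Y}

/-- PROOF: `a b eF = a eF b = 0`. -/
theorem Loc.mul_right {c : ℕ × Bs I ≃ ℕ} {a b : Fam Γ Y.St} (ha : Loc Y c a) (hb : BD Y c b) :
    Loc Y c (a * b) where
  toBD := ha.toBD.mul hb
  zero x F h := by
    rw [Fam.mul_apply, mul_assoc, ← hb.comm, ← mul_assoc, ha.zero x F h, zero_mul]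

variable (Y)

omit [DecidableEq I] in
/-- Auxiliary: the value of `cutP`. -/
theorem H1c_cutP {F : Set I} {x x' : Y.St} (h : Y.cutP F x = some x') :
    Y.z x' = Y.z x ∧ Y.y x' = cut a₀ F (Y.y x) := by
  classical
  rw [Hered.cutP] at h
  split_ifs at h with h1
  have h2 := Option.some.inj h
  rw [← h2]
  exact ⟨rfl, rfl⟩

omit [DecidableEq I] in
/-- PROOF: definitions: `cutP F x = some x'`, so `y x' = cut F (y x)`, `Hered.ext`, for a subset `J ⊆ F`. -/
theorem cutP_cutP {J F : Set I} (hJ : J ⊆ F) {x x' : Y.St} (h : Y.cutP F x = some x') :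
    Y.cutP J x' = Y.cutP J x := by
  classical
  obtain ⟨hz, hy⟩ := H1c_cutP Y h
  have h1 : ∀ i ∈ J, Y.y x' i = Y.y x i := fun i hi => by
    rw [hy, cut_of_mem _ (hJ hi)]
  have h2 : (∃ i ∈ J, Y.y x' i ≠ a₀) ↔ ∃ i ∈ J, Y.y x i ≠ a₀ := by
    constructor
    · rintro ⟨i, hi, hi'⟩
      exact ⟨i, hi, by rwa [← h1 i hi]⟩
    · rintro ⟨i, hi, hi'⟩
      exact ⟨i, hi, by rwa [h1 i hi]⟩
  have h3 : cut a₀ J (Y.y x') = cut a₀ J (Y.y x) := by
    funext i
    by_cases hi : i ∈ J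
    · rw [cut_of_mem _ hi, cut_of_mem _ hi, h1 i hi]
    · rw [cut_of_notMem _ hi, cut_of_notMem _ hi]
  by_cases hx : ∃ i ∈ J, Y.y x i ≠ a₀
  · rw [Hered.cutP, Hered.cutP, dif_pos hx, dif_pos (h2.2 hx)]
    refine congrArg some (Subtype.ext (Prod.ext ?_ ?_))
    · exact hz
    · exact h3
  · rw [Hered.cutP, Hered.cutP, dif_neg hx, dif_neg fun h => hx (h2.1 h)]

omit [DecidableEq I] in
/-- PROOF: definition of `cutP`, `cut_of_mem`. -/
theorem y_cutP {F : Set I} {x x' : Y.St} (h : Y.cutP F x = some x') (i : I) (hi : i ∈ F) :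
    Y.y x' i = Y.y x i := by
  rw [(H1c_cutP Y h).2, cut_of_mem _ hi]

omit [DecidableEq I] in
/-- PROOF: definition of `cutP`, `cut_of_notMem`. -/
theorem y_cutP' {F : Set I} {x x' : Y.St} (h : Y.cutP F x = some x') (i : I) (hi : i ∉ F) :
    Y.y x' i = a₀ := by
  rw [(H1c_cutP Y h).2, cut_of_notMem _ hi]

omit [DecidableEq I] in
theorem z_cutP {F : Set I} {x x' : Y.St} (h : Y.cutP F x = some x') : Y.z x' = Y.z x :=
  (H1c_cutP Y h).1

end Pool.Agent.Lib.MP_aa9b81_an.Hs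
end
end

section

/-!
# Hereditary shifts, part E2a: families of Clifford operators which vanish at infinity are compact
-/

open scoped ENNReal Topology ZeroAtInfty
open Function Filter Set

noncomputable section

namespace Pool.Agent.Lib.MP_aa9b81_an.Hs

open Cut

variable {Γ P I : Type} [Group Γ] [TopologicalSpace P] [MulAction Γ P] [MulAction Γ I]
  [DecidableEq I] (H : Site Γ P I)

theorem norm_Es_le (s : Set I) : ‖(Es s : BL (Bs I))‖ ≤ 1 := by
  classical
  exact norm_dia_le zero_le_one fun b => by split_ifs <;> simp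

/-- The family `p ↦ f(p) Cl(a_p) Es(supp p)`. -/
def Site.clf (e : I ↪ ℕ) (f : C₀(P, ℂ)) {a : P → Finset I → I → ℝ} {C : ℝ}
    (h : ∀ p, CB (a p) C) : FB (Bs I) P :=
  FB.mk (fun p => f p • (Cl e (a p) * Es (H.supp p))) (‖f‖ * C) fun p => by
    have hC := (h p).nonneg
    have h1 := norm_Cl_le e (h p)
    have h2 := norm_Es_le (H.supp p)
    have h3 := norm_nonneg (Cl e (a p))
    have h4 := norm_nonneg (Es (H.supp p) : BL (Bs I))
    have h5 : ‖Cl e (a p) * Es (H.supp p)‖ ≤ C := (norm_mul_le _ _).trans (by nlinarith)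
    have h6 := f.toBCF.norm_coe_le_norm p
    rw [norm_smul]
    exact mul_le_mul h6 h5 (norm_nonneg _) (norm_nonneg _)

@[simp] lemma Site.clf_apply (e : I ↪ ℕ) (f : C₀(P, ℂ)) {a : P → Finset I → I → ℝ} {C : ℝ}
    (h : ∀ p, CB (a p) C) (p : P) : H.clf e f h p = f p • (Cl e (a p) * Es (H.supp p)) := rfl

omit [DecidableEq I] in
/-- The decay condition for the coefficients `a`, on the support of `f`. -/
def Site.Decay (f : C₀(P, ℂ)) (a : P → Finset I → I → ℝ) : Prop :=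
  ∀ ε : ℝ, 0 < ε → ∃ (𝒜 : Finset (Finset I)) (δ : ℝ), 0 < δ ∧ ∀ p, f p ≠ 0 →
    ∀ F : Finset I, (F : Set I) ⊆ H.supp p → (F ∉ 𝒜 ∨ ∃ j ∈ F, H.hh p j < δ) →
      ∑ i ∈ F, a p F i ^ 2 ≤ ε ^ 2

omit [DecidableEq I] in
/-- auxiliary: the coefficients are bounded -/
private theorem E2a_abs_le {a : Finset I → I → ℝ} {c : ℝ} (hc : 0 ≤ c) (F : Finset I) {i : I} (hi : i ∈ F)
    (h : ∑ j ∈ F, a F j ^ 2 ≤ c ^ 2) : |a F i| ≤ c := by
  have h1 : a F i ^ 2 ≤ ∑ j ∈ F, a F j ^ 2 :=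
    Finset.single_le_sum (f := fun j => a F j ^ 2) (fun j _ => sq_nonneg _) hi
  exact abs_le_of_sq_le_sq (h1.trans h) hc

omit [DecidableEq I] in
private theorem E2a_isOpen (F : Finset I) : IsOpen {p : P | (F : Set I) ⊆ H.supp p} := by
  have h1 : {p : P | (F : Set I) ⊆ H.supp p} = ⋂ j ∈ F, {p : P | 0 < H.hh p j} := by
    ext p
    simp only [Set.mem_ofPred_eq, Set.mem_iInter]
    exact Iff.rfl
  rw [h1]
  exact isOpen_biInter_finset fun j _ => isOpen_lt continuous_const (H.cont j)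

open Classical in
omit [DecidableEq I] in
/-- auxiliary: the function `g` -/
private def E2a_g (f : C₀(P, ℂ)) (a : P → Finset I → I → ℝ) (F : Finset I) (i : I) (p : P) : ℂ :=
  if (F : Set I) ⊆ H.supp p then f p * (a p F i : ℂ) else 0

omit [DecidableEq I] in
private theorem E2a_compact [T2Space P] {f : C₀(P, ℂ)} {a : P → Finset I → I → ℝ} {C : ℝ}
    (h : ∀ p, CB (a p) C) (hd : H.Decay f a) (F : Finset I) {i : I} (hi : i ∈ F)
    (hc : ContinuousOn (fun p => a p F i) {p | (F : Set I) ⊆ H.supp p}) {η : ℝ} (hη : 0 < η) :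
    IsCompact {p : P | η ≤ ‖E2a_g H f a F i p‖} := by
  rcases isEmpty_or_nonempty P with hP | ⟨⟨p0⟩⟩
  · have : {p : P | η ≤ ‖E2a_g H f a F i p‖} = ∅ := Set.eq_empty_of_isEmpty _
    rw [this]
    exact isCompact_empty
  have hC : 0 ≤ C := (h p0).nonneg
  have hf0 : 0 ≤ ‖f‖ := norm_nonneg f
  obtain ⟨𝒜, δ, hδ, hA⟩ := hd (η / (2 * (‖f‖ + 1))) (by positivity)
  -- the properties of the points of the set
  have hprop : ∀ p : P, η ≤ ‖E2a_g H f a F i p‖ → (F : Set I) ⊆ H.supp p ∧ η / (C + 1) ≤ ‖f p‖ ∧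
      ∀ j ∈ F, δ ≤ H.hh p j := by
    intro p hp
    have hF : (F : Set I) ⊆ H.supp p := by
      by_contra hF
      rw [E2a_g, if_neg hF, norm_zero] at hp
      linarith
    rw [E2a_g, if_pos hF, norm_mul, Complex.norm_real, Real.norm_eq_abs] at hp
    have hfp : ‖f p‖ ≤ ‖f‖ := f.toBCF.norm_coe_le_norm p
    have ha := E2a_abs_le (a := a p) hC F hi ((h p).bdd F)
    have h0 : 0 ≤ ‖f p‖ := norm_nonneg _
    refine ⟨hF, ?_, ?_⟩
    · rw [div_le_iff₀ (by linarith)]
      nlinarith [mul_le_mul_of_nonneg_left ha h0]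
    · intro j hj
      by_contra hlt
      have hlt' : H.hh p j < δ := not_le.1 hlt
      have hne : f p ≠ 0 := by
        intro h1
        rw [h1, norm_zero, zero_mul] at hp
        linarith
      have h1 := hA p hne F hF (Or.inr ⟨j, hj, hlt'⟩)
      have h2 := E2a_abs_le (a := a p) (by positivity) F hi h1
      have h3 : ‖f p‖ * |a p F i| ≤ ‖f‖ * (η / (2 * (‖f‖ + 1))) :=
        mul_le_mul hfp h2 (abs_nonneg _) hf0
      have h4 : ‖f‖ * (η / (2 * (‖f‖ + 1))) < η := by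
        rw [← mul_div_assoc, div_lt_iff₀ (by positivity)]
        nlinarith
      linarith
  have hK1c : IsClosed {p : P | η / (C + 1) ≤ ‖f p‖} :=
    isClosed_le continuous_const (map_continuous f).norm
  have hK1 : IsCompact {p : P | η / (C + 1) ≤ ‖f p‖} := by
    have h1 : Tendsto f (cocompact P) (𝓝 0) := f.zero_at_infty'
    have h2 : ∀ᶠ p in cocompact P, ‖f p‖ < η / (C + 1) := by
      have h3 := (Metric.tendsto_nhds.1 h1) (η / (C + 1)) (by positivity)
      simpa [dist_zero_right] using h3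
    obtain ⟨t, ht, hts⟩ := mem_cocompact.1 h2
    refine ht.of_isClosed_subset hK1c ?_
    intro p hp
    by_contra hpt
    have h4 : ‖f p‖ < η / (C + 1) := hts hpt
    have h5 : η / (C + 1) ≤ ‖f p‖ := hp
    linarith
  have hK2c : IsClosed {p : P | ∀ j ∈ F, δ ≤ H.hh p j} := by
    have h1 : {p : P | ∀ j ∈ F, δ ≤ H.hh p j} = ⋂ j ∈ F, {p : P | δ ≤ H.hh p j} := by
      ext p
      simp only [Set.mem_ofPred_eq, Set.mem_iInter]
    rw [h1]
    exact isClosed_biInter fun j _ => isClosed_le continuous_const (H.cont j)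
  have hKc := hK1c.inter hK2c
  have hKU : {p : P | η / (C + 1) ≤ ‖f p‖} ∩ {p : P | ∀ j ∈ F, δ ≤ H.hh p j}
      ⊆ {p | (F : Set I) ⊆ H.supp p} := by
    intro p hp j hj
    exact lt_of_lt_of_le hδ (hp.2 j hj)
  have hcon : ContinuousOn (fun p => ‖f p * (a p F i : ℂ)‖)
      ({p : P | η / (C + 1) ≤ ‖f p‖} ∩ {p : P | ∀ j ∈ F, δ ≤ H.hh p j}) := by
    refine ContinuousOn.norm (ContinuousOn.mul (map_continuous f).continuousOn ?_)
    exact Complex.continuous_ofReal.comp_continuousOn (hc.mono hKU)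
  have hS : {p : P | η ≤ ‖E2a_g H f a F i p‖}
      = ({p : P | η / (C + 1) ≤ ‖f p‖} ∩ {p : P | ∀ j ∈ F, δ ≤ H.hh p j})
        ∩ (fun p => ‖f p * (a p F i : ℂ)‖) ⁻¹' (Set.Ici η) := by
    ext p
    constructor
    · intro hp
      obtain ⟨h1, h2, h3⟩ := hprop p hp
      refine ⟨⟨h2, h3⟩, ?_⟩
      have hp' : η ≤ ‖E2a_g H f a F i p‖ := hp
      rw [E2a_g, if_pos h1] at hp'
      exact hp'
    · rintro ⟨hp1, hp2⟩
      have h1 : (F : Set I) ⊆ H.supp p := hKU hp1
      change η ≤ ‖E2a_g H f a F i p‖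
      rw [E2a_g, if_pos h1]
      exact hp2
  rw [hS]
  refine hK1.of_isClosed_subset (hcon.preimage_isClosed_of_isClosed hKc isClosed_Ici) ?_
  intro p hp
  exact hp.1.1

omit [DecidableEq I] in
/-- PROOF: let `g(p) = f(p) a_p(F)(i)` for `F ⊆ supp p` and `0` otherwise. For `η > 0` the set
`S = {p | η ≤ ‖g p‖}` is compact: by the decay condition for `ε = η / (2 (‖f‖ + 1))` there is `δ > 0` such that
`hh p j ≥ δ` for all `j ∈ F`, `p ∈ S` (otherwise `|a_p(F)(i)| ≤ ε` and `‖g p‖ < η`). So `S` is the set of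
the points of `K = {‖f‖ ≥ η/(C+1)} ∩ ⋂_j {hh p j ≥ δ}` (compact: `{‖f‖ ≥ η/(C+1)}` is compact since `f ∈ C₀`,
and the second set is closed) at which the continuous function `‖f a‖` (on `K ⊆ {F ⊆ supp p}`) is `≥ η`: closed in
`K`. Hence `S` is closed (`P` Hausdorff) for all `η`: `g` is continuous at the points where it vanishes;
at the points of the open set `{F ⊆ supp p}` it is continuous by `hc`. It vanishes at infinity. -/
theorem Site.exists_C0_of_decay [T2Space P] {f : C₀(P, ℂ)} {a : P → Finset I → I → ℝ} {C : ℝ}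
    (h : ∀ p, CB (a p) C) (hd : H.Decay f a) (F : Finset I) {i : I} (hi : i ∈ F)
    (hc : ContinuousOn (fun p => a p F i) {p | (F : Set I) ⊆ H.supp p}) :
    ∃ G : C₀(P, ℂ), (∀ p, (F : Set I) ⊆ H.supp p → G p = f p * (a p F i : ℂ)) ∧
      ∀ p, ¬ (F : Set I) ⊆ H.supp p → G p = 0 := by
  have hcomp : ∀ η : ℝ, 0 < η → IsCompact {p : P | η ≤ ‖E2a_g H f a F i p‖} :=
    fun η hη => E2a_compact H h hd F hi hc hη
  have hcont : Continuous (E2a_g H f a F i) := by
    rw [continuous_iff_continuousAt]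
    intro p
    by_cases hp : (F : Set I) ⊆ H.supp p
    · have hU : {p : P | (F : Set I) ⊆ H.supp p} ∈ 𝓝 p := (E2a_isOpen H F).mem_nhds hp
      have h1 : ContinuousAt (fun p => f p * (a p F i : ℂ)) p := by
        refine ContinuousAt.mul (map_continuous f).continuousAt ?_
        exact Complex.continuous_ofReal.continuousAt.comp (hc.continuousAt hU)
      refine h1.congr ?_
      filter_upwards [hU] with q hq
      rw [E2a_g, if_pos hq]
    · have h0 : E2a_g H f a F i p = 0 := by rw [E2a_g, if_neg hp]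
      rw [ContinuousAt, h0, Metric.tendsto_nhds]
      intro η hη
      have h1 : {p : P | η ≤ ‖E2a_g H f a F i p‖}ᶜ ∈ 𝓝 p := by
        refine (hcomp η hη).isClosed.isOpen_compl.mem_nhds ?_
        intro h2
        have h3 : η ≤ ‖E2a_g H f a F i p‖ := h2
        rw [h0, norm_zero] at h3
        linarith
      filter_upwards [h1] with q hq
      rw [dist_zero_right]
      exact not_le.1 hq
  refine ⟨⟨⟨E2a_g H f a F i, hcont⟩, ?_⟩, ?_, ?_⟩
  · change Tendsto (E2a_g H f a F i) (cocompact P) (𝓝 0)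
    rw [Metric.tendsto_nhds]
    intro η hη
    have h1 := (hcomp η hη).compl_mem_cocompact
    filter_upwards [h1] with q hq
    rw [dist_zero_right]
    exact not_le.1 hq
  · intro p hp
    change E2a_g H f a F i p = _
    rw [E2a_g, if_pos hp]
  · intro p hp
    change E2a_g H f a F i p = _
    rw [E2a_g, if_neg hp]

end Pool.Agent.Lib.MP_aa9b81_an.Hs
end
end

section

/-!
# Hereditary shifts, part E2b: families of Clifford operators which vanish at infinity are compact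
-/

open scoped ENNReal Topology ZeroAtInfty
open Function Filter Set

noncomputable section

namespace Pool.Agent.Lib.MP_aa9b81_an.Hs

open Cut

private theorem E2b_sum {B P ι : Type} [Nonempty B] (s : Finset ι) (g : ι → FB B P) (p : P)
    (ξ : L2 B) (b : B) : ((∑ i ∈ s, g i : FB B P) p ξ : B → ℂ) b = ∑ i ∈ s, (g i p ξ : B → ℂ) b := by
  classical
  induction s using Finset.induction with
  | empty =>
    rw [Finset.sum_empty, Finset.sum_empty, FB.zero_apply]
    rfl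
  | insert i s hi ih =>
    rw [Finset.sum_insert hi, Finset.sum_insert hi, ← ih, FB.add_apply]
    rfl

variable {Γ P I : Type} [Group Γ] [TopologicalSpace P] [MulAction Γ P] [MulAction Γ I]
  [DecidableEq I] (H : Site Γ P I)

/-- One block. PROOF: for `S ⊆ F`, `i ∈ F`: `n_p = ∑_{S ∈ F.powerset} ∑_{i ∈ F} G_i(p) th i S E_{(F, S), (F, tg i S)}`, with
`G_i` from `exists_C0_of_decay`: `ge (th i S • G_i) ..`, good for `U` (both blocks are `F`). The equality is checked in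
coordinates: `clf_apply`, `Cl_apply`, `Es_apply`; `(tog i b).F = b.F`. -/
theorem Site.clf_block_mem [T2Space P] (e : I ↪ ℕ) {f : C₀(P, ℂ)} {a : P → Finset I → I → ℝ}
    {C : ℝ} (h : ∀ p, CB (a p) C) (hd : H.Decay f a) (F : Finset I)
    (hc : ∀ i ∈ F, ContinuousOn (fun p => a p F i) {p | (F : Set I) ⊆ H.supp p})
    (h' : ∀ p, CB (fun F' i => if F' = F then a p F' i else 0) C) :
    H.clf e f h' ∈ KE H.U := by
  classical
  -- the functions
  have hG : ∀ i, ∃ G : C₀(P, ℂ), i ∈ F → (∀ p, (F : Set I) ⊆ H.supp p → G p = f p * (a p F i : ℂ)) ∧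
      ∀ p, ¬ (F : Set I) ⊆ H.supp p → G p = 0 := by
    intro i
    by_cases hi : i ∈ F
    · obtain ⟨G, h1, h2⟩ := H.exists_C0_of_decay h hd F hi (hc i hi)
      exact ⟨G, fun _ => ⟨h1, h2⟩⟩
    · exact ⟨0, fun hi' => absurd hi' hi⟩
  choose G hG using hG
  let bk : Finset I → Bs I := fun S => Bs.mk F (S ∩ F) Finset.inter_subset_right
  have hbkF : ∀ S, (bk S).F = F := fun S => rfl
  have hbkS : ∀ S ∈ F.powerset, (bk S).S = S := fun S hS =>
    Finset.inter_eq_left.2 (Finset.mem_powerset.1 hS)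
  have key : H.clf e f h' = ∑ S ∈ F.powerset, ∑ i ∈ F, ge (th e i S • G i) (bk S) (tog i (bk S)) := by
    refine FB.ext fun p => ContinuousLinearMap.ext fun ξ => ?_
    ext b
    rw [E2b_sum]
    have hR : ∀ S ∈ F.powerset,
        ((∑ i ∈ F, ge (th e i S • G i) (bk S) (tog i (bk S)) : FB (Bs I) P) p ξ : Bs I → ℂ) b =
        if b = bk S then ∑ i ∈ F, (th e i S * G i p) * (ξ : Bs I → ℂ) (tog i (bk S)) else 0 := by
      intro S _
      rw [E2b_sum]
      have h1 : ∀ i ∈ F, ((ge (th e i S • G i) (bk S) (tog i (bk S)) : FB (Bs I) P) p ξ : Bs I → ℂ) b =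
          if b = bk S then (th e i S * G i p) * (ξ : Bs I → ℂ) (tog i (bk S)) else 0 := by
        intro i _
        rw [ge_apply, smul_apply, lp.coeFn_smul, Pi.smul_apply, Eu_apply]
        split_ifs
        · rw [ZeroAtInftyContinuousMap.smul_apply, smul_eq_mul, smul_eq_mul]
        · rw [smul_zero]
      rw [Finset.sum_congr rfl h1]
      split_ifs
      · rfl
      · exact Finset.sum_const_zero
    rw [Finset.sum_congr rfl hR]
    rw [Site.clf_apply, smul_apply, lp.coeFn_smul, Pi.smul_apply, smul_eq_mul,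
      mul_apply_eq_comp, Cl_apply e (h' p), clF]
    by_cases hb : b.F = F
    · have hbS : b.S ∈ F.powerset := Finset.mem_powerset.2 (hb ▸ b.sub)
      have hbb : b = bk b.S := Bs.ext (by rw [hbkF, hb]) (by rw [hbkS _ hbS])
      rw [Finset.sum_eq_single_of_mem b.S hbS (fun S hS hne => by
        rw [if_neg]
        intro h2
        apply hne
        rw [h2, hbkS S hS]), if_pos hbb, ← hbb, Finset.mul_sum, hb]
      refine Finset.sum_congr rfl fun i hi => ?_
      rw [if_pos rfl, Es_apply, (tog_of_mem (hb ▸ hi : i ∈ b.F)).1, hb]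
      split_ifs with hs
      · rw [(hG i hi).1 p hs]
        ring
      · rw [(hG i hi).2 p hs]
        ring
    · trans (0 : ℂ)
      · rw [Finset.sum_eq_zero (fun i _ => by
          rw [if_neg hb, Complex.ofReal_zero, zero_mul]), mul_zero]
      · symm
        refine Finset.sum_eq_zero fun S _ => ?_
        rw [if_neg]
        intro h2
        apply hb
        rw [h2, hbkF]
  rw [key]
  refine Submodule.sum_mem _ fun S _ => Submodule.sum_mem _ fun i hi => ?_
  refine Submodule.le_topologicalClosure _ (Submodule.subset_span ⟨_, _, _, ?_, rfl⟩)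
  intro p hp
  have hs : (F : Set I) ⊆ H.supp p := by
    by_contra hs
    apply hp
    rw [ZeroAtInftyContinuousMap.smul_apply, (hG i hi).2 p hs, smul_zero]
  refine ⟨?_, ?_⟩
  · change ((bk S).F : Set I) ⊆ H.supp p
    rw [hbkF]
    exact hs
  · change ((tog i (bk S)).F : Set I) ⊆ H.supp p
    rw [(tog_of_mem (b := bk S) (by rw [hbkF]; exact hi)).1, hbkF]
    exact hs

end Pool.Agent.Lib.MP_aa9b81_an.Hs
end
end
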