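import Pool.Agent.Lib.MP_aa9b81_an.Mg.G079
import Pool.Agent.Lib.MP_aa9b81_an.Mg.G008
import Pool.Agent.Lib.MP_aa9b81_an.Mg.G075
import Pool.Agent.Lib.MP_aa9b81_an.Mg.G073
import Pool.Agent.Lib.MP_aa9b81_an.Mg.G001

section

section
/-!
# Hereditary shifts, part E1b: the weights at infinity
-/

open scoped ENNReal Topology ZeroAtInfty
open Function Filter Set

noncomputable section

namespace Pool.Agent.Lib.MP_aa9b81_an.Hs

open Cut

variable {Γ P I : Type} [Group Γ] [TopologicalSpace P] [MulAction Γ P] [MulAction Γ I]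
  [DecidableEq I] (H : Site Γ P I) (w : Wt Γ I)

omit [DecidableEq I] in
/-- PROOF: `R > 0` without loss of generality (replace `R` by `max R 1`). Let `A = {i | w i ^ 2 ≤ 2 R}`, a finite
set with `m` elements. If `∑ w² ≤ R |F|`, then `2 R (|F| - m) ≤ ∑_{i ∈ F, i ∉ A} w² ≤ R |F|`, so `|F| ≤ 2 m`, so
`∑ w² ≤ 2 R m`: `finite_sum_sq_le`. -/
theorem finite_sum_sq_le_card (R : ℝ) :
    {F : Finset I | ∑ i ∈ F, w.w i ^ 2 ≤ R * F.card}.Finite := by
  classical
  obtain ⟨R', hR', hR1⟩ : ∃ R' : ℝ, R ≤ R' ∧ 1 ≤ R' := ⟨max R 1, le_max_left _ _, le_max_right _ _⟩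
  have hA : {i | w.w i ≤ 2 * R'}.Finite := w.proper (2 * R')
  refine (finite_sum_sq_le w (R' * (2 * hA.toFinset.card))).subset fun F hF => ?_
  rw [Set.mem_ofPred_eq] at hF ⊢
  have h1 : ∑ i ∈ F, w.w i ^ 2 ≤ R' * F.card :=
    hF.trans (mul_le_mul_of_nonneg_right hR' (Nat.cast_nonneg _))
  have h2 : 2 * R' * ((F \ hA.toFinset).card : ℝ) ≤ ∑ i ∈ F, w.w i ^ 2 := by
    calc 2 * R' * ((F \ hA.toFinset).card : ℝ) = ∑ i ∈ F \ hA.toFinset, 2 * R' := by
          rw [Finset.sum_const, nsmul_eq_mul, mul_comm]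
      _ ≤ ∑ i ∈ F \ hA.toFinset, w.w i ^ 2 := by
          refine Finset.sum_le_sum fun i hi => ?_
          rw [Finset.mem_sdiff, Set.Finite.mem_toFinset, Set.mem_ofPred_eq, not_le] at hi
          have h3 := w.one_le i
          nlinarith [hi.2]
      _ ≤ ∑ i ∈ F, w.w i ^ 2 :=
          Finset.sum_le_sum_of_subset_of_nonneg Finset.sdiff_subset fun i _ _ => sq_nonneg _
  have h3 : (F.card : ℝ) ≤ ((F \ hA.toFinset).card : ℝ) + hA.toFinset.card := by
    have : F.card ≤ (F \ hA.toFinset).card + hA.toFinset.card := by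
      have := Finset.card_le_card_sdiff_add_card (s := F) (t := hA.toFinset)
      omega
    exact_mod_cast this
  have h4 : (F.card : ℝ) ≤ 2 * hA.toFinset.card := by
    have h5 : 2 * R' * ((F \ hA.toFinset).card : ℝ) ≤ R' * F.card := h2.trans h1
    have h6 : 2 * ((F \ hA.toFinset).card : ℝ) ≤ F.card := by
      by_contra h7
      rw [not_le] at h7
      nlinarith
    linarith
  exact h1.trans (mul_le_mul_of_nonneg_left h4 (by linarith))

omit [DecidableEq I] in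
theorem Site.Ws_le {s : ℝ} (hs : s ≤ 1) (p : P) (i : I) : H.Ws w s p i ≤ H.W w p i := by
  have h1 := H.one_le_W w p i
  rw [Site.Ws]
  nlinarith

omit [DecidableEq I] in
theorem Site.mul_le_Ws {s : ℝ} (hs : s ≤ 1) (p : P) (i : I) : s * H.W w p i ≤ H.Ws w s p i := by
  have h1 := H.one_le_W w p i
  rw [Site.Ws]
  nlinarith

omit [DecidableEq I] in
/-- PROOF: by `H.equi`, `hh (g⁻¹ p) (g⁻¹ i) = hh p i`, so `Ws s (g⁻¹ p) (g⁻¹ i) - Ws s p i = s (w (g⁻¹ i) - w i)`. The sum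
over `gF g⁻¹ F` of `Ws s (g⁻¹ p) j ^ 2` is the sum over `i ∈ F` of `Ws s (g⁻¹ p) (g⁻¹ i) ^ 2` (`Finset.sum_map`). By
`normalize_sub_sq_le` the left side is at most `4 s² C² |F| / ∑ Ws²`, and `∑ Ws² ≥ s² ∑ W²` (`mul_le_Ws`); for `s = 0` the
numerator is `0`. -/
theorem Site.ug_sub_uu_sq_le {g : Γ} {C : ℝ} (hC : 0 ≤ C)
    (hg : ∀ i, |w.w (g⁻¹ • i) - w.w i| ≤ C) {s : ℝ} (hs : 0 ≤ s) (hs1 : s ≤ 1) (p : P)
    {F : Finset I} (hF : F.Nonempty) :
    ∑ i ∈ F, (H.ug w g s p F i - H.uu w s p F i) ^ 2 ≤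
      4 * C ^ 2 * F.card / ∑ i ∈ F, H.W w p i ^ 2 := by
  have hb : 0 < ∑ i ∈ F, H.Ws w s p i ^ 2 := by
    refine Finset.sum_pos (fun i _ => ?_) hF
    have h2 := H.one_le_Ws w hs p i
    positivity
  have hW : 0 < ∑ i ∈ F, H.W w p i ^ 2 := by
    refine Finset.sum_pos (fun i _ => ?_) hF
    have h2 := H.one_le_W w p i
    positivity
  have h1 := normalize_sub_sq_le F (fun i => H.Ws w s (g⁻¹ • p) (g⁻¹ • i))
    (fun i => H.Ws w s p i) hb
  have hn : H.nW w s (g⁻¹ • p) (gF g⁻¹ F) =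
      √(∑ i ∈ F, H.Ws w s (g⁻¹ • p) (g⁻¹ • i) ^ 2) := by
    rw [Site.nW, gF, Finset.sum_map]
    simp only [Equiv.coe_toEmbedding, MulAction.toPerm_apply]
  have h2 : ∑ i ∈ F, (H.ug w g s p F i - H.uu w s p F i) ^ 2 ≤
      4 * (∑ i ∈ F, (H.Ws w s (g⁻¹ • p) (g⁻¹ • i) - H.Ws w s p i) ^ 2) /
        ∑ i ∈ F, H.Ws w s p i ^ 2 := by
    simp only [Site.ug, Site.uu, hn]
    exact h1
  have hd : ∀ i, H.Ws w s (g⁻¹ • p) (g⁻¹ • i) - H.Ws w s p i = s * (w.w (g⁻¹ • i) - w.w i) := by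
    intro i
    simp only [Site.Ws, Site.W, H.equi]
    ring
  have h3 : ∑ i ∈ F, (H.Ws w s (g⁻¹ • p) (g⁻¹ • i) - H.Ws w s p i) ^ 2 ≤
      s ^ 2 * (C ^ 2 * F.card) := by
    calc _ ≤ ∑ i ∈ F, s ^ 2 * C ^ 2 := by
          refine Finset.sum_le_sum fun i _ => ?_
          rw [hd, mul_pow]
          refine mul_le_mul_of_nonneg_left ?_ (sq_nonneg s)
          rw [sq_le_sq, abs_of_nonneg hC]
          exact hg i
      _ = s ^ 2 * (C ^ 2 * F.card) := by
          rw [Finset.sum_const, nsmul_eq_mul]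
          ring
  have h4 : s ^ 2 * ∑ i ∈ F, H.W w p i ^ 2 ≤ ∑ i ∈ F, H.Ws w s p i ^ 2 := by
    rw [Finset.mul_sum]
    refine Finset.sum_le_sum fun i _ => ?_
    rw [← mul_pow]
    have h5 := H.one_le_W w p i
    exact pow_le_pow_left₀ (by positivity) (H.mul_le_Ws w hs1 p i) 2
  refine h2.trans ?_
  rw [div_le_div_iff₀ hb hW]
  have h5 : 0 ≤ C ^ 2 * (F.card : ℝ) := by positivity
  calc 4 * (∑ i ∈ F, (H.Ws w s (g⁻¹ • p) (g⁻¹ • i) - H.Ws w s p i) ^ 2) *
        ∑ i ∈ F, H.W w p i ^ 2 ≤ 4 * (s ^ 2 * (C ^ 2 * F.card)) * ∑ i ∈ F, H.W w p i ^ 2 := by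
        refine mul_le_mul_of_nonneg_right ?_ hW.le
        linarith
    _ = 4 * (C ^ 2 * F.card) * (s ^ 2 * ∑ i ∈ F, H.W w p i ^ 2) := by ring
    _ ≤ 4 * (C ^ 2 * F.card) * ∑ i ∈ F, H.Ws w s p i ^ 2 :=
        mul_le_mul_of_nonneg_left h4 (by positivity)
    _ = 4 * C ^ 2 * F.card * ∑ i ∈ F, H.Ws w s p i ^ 2 := by ring

end Pool.Agent.Lib.MP_aa9b81_an.Hs
end

end


section
/-!
# Hereditary shifts, part E1c: the weights at infinity
-/

open scoped ENNReal Topology ZeroAtInfty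
open Function Filter Set

noncomputable section

namespace Pool.Agent.Lib.MP_aa9b81_an.Hs

open Cut

variable {Γ P I : Type} [Group Γ] [TopologicalSpace P] [MulAction Γ P] [MulAction Γ I]
  [DecidableEq I] (H : Site Γ P I) (w : Wt Γ I)

/-- DECAY of `ug - uu`, uniform in `s`. PROOF: `C` from `w.var g⁻¹`; `R = 4 C²/ε² + 1`; `𝒜 =
{F | ∑ w² ≤ R |F|}` finite (`finite_sum_sq_le_card`). For `F ∉ 𝒜`: `∑ W² ≥ ∑ w² > R |F|` (`W ≥ w`), so
`ug_sub_uu_sq_le` gives `≤ 4 C²/R ≤ ε²`. Let `m` be the maximal cardinality in `𝒜`, and `δ > 0` with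
`δ⁻² ≥ R m`. If `hh p j < δ` for some `j ∈ F`, `0 < hh p j`, then `∑ W² ≥ (hh p j)⁻² ≥ R |F|`. -/
theorem Site.decay_ug (g : Γ) {ε : ℝ} (hε : 0 < ε) : ∃ (𝒜 : Finset (Finset I)) (δ : ℝ), 0 < δ ∧
    ∀ s, 0 ≤ s → s ≤ 1 → ∀ p (F : Finset I), (F : Set I) ⊆ H.supp p →
      (F ∉ 𝒜 ∨ ∃ j ∈ F, H.hh p j < δ) →
      ∑ i ∈ F, (H.ug w g s p F i - H.uu w s p F i) ^ 2 ≤ ε ^ 2 := by
  obtain ⟨C, hC, hg⟩ := w.var g⁻¹
  obtain ⟨R, hR, hR1⟩ : ∃ R : ℝ, 4 * C ^ 2 ≤ R * ε ^ 2 ∧ 1 ≤ R := by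
    refine ⟨4 * C ^ 2 / ε ^ 2 + 1, ?_, ?_⟩
    · rw [add_mul, div_mul_cancel₀ _ (by positivity)]
      nlinarith [sq_nonneg ε]
    · have : 0 ≤ 4 * C ^ 2 / ε ^ 2 := by positivity
      linarith
  have hfin := finite_sum_sq_le_card w R
  obtain ⟨m, hm⟩ : ∃ m : ℕ, ∀ F ∈ hfin.toFinset, F.card ≤ m :=
    ⟨hfin.toFinset.sup Finset.card, fun F hF => Finset.le_sup (f := Finset.card) hF⟩
  have hRm : 0 < R * m + 1 := by positivity
  have key : ∀ s, 0 ≤ s → s ≤ 1 → ∀ p (F : Finset I), F.Nonempty →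
      R * F.card ≤ ∑ i ∈ F, H.W w p i ^ 2 →
      ∑ i ∈ F, (H.ug w g s p F i - H.uu w s p F i) ^ 2 ≤ ε ^ 2 := by
    intro s hs hs1 p F hF hW
    have hW0 : 0 < ∑ i ∈ F, H.W w p i ^ 2 := by
      refine Finset.sum_pos (fun i _ => ?_) hF
      have h2 := H.one_le_W w p i
      positivity
    refine (H.ug_sub_uu_sq_le w hC hg hs hs1 p hF).trans ?_
    rw [div_le_iff₀ hW0]
    calc 4 * C ^ 2 * F.card ≤ R * ε ^ 2 * F.card :=
          mul_le_mul_of_nonneg_right hR (Nat.cast_nonneg _)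
      _ = ε ^ 2 * (R * F.card) := by ring
      _ ≤ ε ^ 2 * ∑ i ∈ F, H.W w p i ^ 2 := mul_le_mul_of_nonneg_left hW (sq_nonneg _)
  refine ⟨hfin.toFinset, 1 / (R * m + 1), by positivity, fun s hs hs1 p F hFs h => ?_⟩
  rcases F.eq_empty_or_nonempty with hF | hF
  · rw [hF, Finset.sum_empty]
    positivity
  by_cases hFA : F ∈ hfin.toFinset
  · rcases h with h | ⟨j, hj, hjδ⟩
    · exact absurd hFA h
    · refine key s hs hs1 p F hF ?_
      have h0 : 0 < H.hh p j := hFs (Finset.mem_coe.2 hj)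
      have h1 : R * m + 1 ≤ (H.hh p j)⁻¹ := by
        rw [← one_div, le_div_iff₀ h0]
        rw [lt_div_iff₀ hRm] at hjδ
        linarith
      have h2 : (H.hh p j)⁻¹ ≤ H.W w p j := by
        have := w.one_le j
        rw [Site.W]
        linarith
      have h3 : H.W w p j ^ 2 ≤ ∑ i ∈ F, H.W w p i ^ 2 :=
        Finset.single_le_sum (f := fun i => H.W w p i ^ 2) (fun i _ => sq_nonneg _) hj
      have h4 : (F.card : ℝ) ≤ m := by exact_mod_cast hm F hFA
      have h5 : R * F.card ≤ R * m := mul_le_mul_of_nonneg_left h4 (by linarith)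
      have h6 := H.one_le_W w p j
      nlinarith
  · refine key s hs hs1 p F hF ?_
    rw [Set.Finite.mem_toFinset, Set.mem_ofPred_eq, not_le] at hFA
    refine hFA.le.trans (Finset.sum_le_sum fun i _ => ?_)
    have h1 := w.one_le i
    have h2 : w.w i ≤ H.W w p i := by
      have : 0 ≤ (H.hh p i)⁻¹ := inv_nonneg.2 (H.nonneg p i)
      rw [Site.W]
      linarith
    exact pow_le_pow_left₀ (by linarith) h2 2

/-- The coefficients which do not see `L`. -/
def Site.uh (L : Finset I) (s : ℝ) (p : P) (F : Finset I) (i : I) : ℝ :=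
  if i ∈ L then 0 else H.uu w s p (F \ L) i

end Pool.Agent.Lib.MP_aa9b81_an.Hs
end

end
end

section

/-!
# Hereditary shifts, part E1d: the weights at infinity
-/

open scoped ENNReal Topology ZeroAtInfty
open Function Filter Set

noncomputable section

namespace Pool.Agent.Lib.MP_aa9b81_an.Hs

open Cut

variable {Γ P I : Type} [Group Γ] [TopologicalSpace P] [MulAction Γ P] [MulAction Γ I]
  [DecidableEq I] (H : Site Γ P I) (w : Wt Γ I)

/-- PROOF: with `a i = Ws i` for `i ∈ F ∖ L`, `a i = 0` for `i ∈ F ∩ L`, and `b = Ws`, `normalize_sub_sq_le` (the norm of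
`a` on `F` is `nW s p (F ∖ L)`) gives at most `4 ∑_{i ∈ F ∩ L} Ws² / ∑_{F} Ws²`, `Ws ≤ W ≤ M` on `L`
(`Ws_le`) and `Ws ≥ s W`. -/
theorem Site.uu_sub_uh_sq_le (L : Finset I) {M : ℝ} {s : ℝ} (hs : 0 < s) (hs1 : s ≤ 1) (p : P)
    (hM : ∀ i ∈ L, H.W w p i ≤ M) {F : Finset I} (hF : F.Nonempty) :
    ∑ i ∈ F, (H.uu w s p F i - H.uh w L s p F i) ^ 2 ≤
      4 * (L.card * M ^ 2) / (s ^ 2 * ∑ i ∈ F, H.W w p i ^ 2) := by
  have hb : 0 < ∑ i ∈ F, H.Ws w s p i ^ 2 := by
    refine Finset.sum_pos (fun i _ => ?_) hF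
    have h2 := H.one_le_Ws w hs.le p i
    positivity
  have hW : 0 < ∑ i ∈ F, H.W w p i ^ 2 := by
    refine Finset.sum_pos (fun i _ => ?_) hF
    have h2 := H.one_le_W w p i
    positivity
  have h1 := normalize_sub_sq_le F (fun i => if i ∈ L then 0 else H.Ws w s p i)
    (fun i => H.Ws w s p i) hb
  have hsum : ∑ i ∈ F, (if i ∈ L then 0 else H.Ws w s p i) ^ 2 =
      ∑ i ∈ F \ L, H.Ws w s p i ^ 2 := by
    rw [Finset.sdiff_eq_filter, Finset.sum_filter]
    refine Finset.sum_congr rfl fun i _ => ?_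
    by_cases hi : i ∈ L
    · simp [hi]
    · simp [hi]
  have h2 : ∑ i ∈ F, (H.uu w s p F i - H.uh w L s p F i) ^ 2 ≤
      4 * (∑ i ∈ F, ((if i ∈ L then 0 else H.Ws w s p i) - H.Ws w s p i) ^ 2) /
        ∑ i ∈ F, H.Ws w s p i ^ 2 := by
    refine le_trans (le_of_eq (Finset.sum_congr rfl fun i _ => ?_)) h1
    rw [hsum]
    by_cases hi : i ∈ L
    · simp only [Site.uh, Site.uu, Site.nW, hi, if_true]
      ring
    · simp only [Site.uh, Site.uu, Site.nW, hi, if_false]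
      ring
  have h3 : ∑ i ∈ F, ((if i ∈ L then 0 else H.Ws w s p i) - H.Ws w s p i) ^ 2 ≤
      L.card * M ^ 2 := by
    calc _ ≤ ∑ i ∈ F, if i ∈ L then M ^ 2 else 0 := by
          refine Finset.sum_le_sum fun i _ => ?_
          by_cases hi : i ∈ L
          · simp only [hi, if_true, zero_sub, neg_sq]
            have h4 := H.one_le_Ws w hs.le p i
            exact pow_le_pow_left₀ (by linarith) ((H.Ws_le w hs1 p i).trans (hM i hi)) 2
          · simp [hi]
      _ = ∑ i ∈ F.filter (fun i => i ∈ L), M ^ 2 := by rw [Finset.sum_filter]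
      _ ≤ ∑ i ∈ L, M ^ 2 := by
          refine Finset.sum_le_sum_of_subset_of_nonneg ?_ fun i _ _ => sq_nonneg _
          intro i hi
          exact (Finset.mem_filter.1 hi).2
      _ = L.card * M ^ 2 := by rw [Finset.sum_const, nsmul_eq_mul]
  have h4 : s ^ 2 * ∑ i ∈ F, H.W w p i ^ 2 ≤ ∑ i ∈ F, H.Ws w s p i ^ 2 := by
    rw [Finset.mul_sum]
    refine Finset.sum_le_sum fun i _ => ?_
    rw [← mul_pow]
    have h5 := H.one_le_W w p i
    exact pow_le_pow_left₀ (by positivity) (H.mul_le_Ws w hs1 p i) 2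
  refine h2.trans ?_
  have hs2 : 0 < s ^ 2 * ∑ i ∈ F, H.W w p i ^ 2 := by positivity
  have h5 : 0 ≤ (L.card : ℝ) * M ^ 2 := by positivity
  exact div_le_div₀ (by positivity) (by linarith) hs2 h4

end Pool.Agent.Lib.MP_aa9b81_an.Hs
end
end

section

section
/-!
# Hereditary shifts, part E1e: the weights at infinity
-/

open scoped ENNReal Topology ZeroAtInfty
open Function Filter Set

noncomputable section

namespace Pool.Agent.Lib.MP_aa9b81_an.Hs

open Cut

variable {Γ P I : Type} [Group Γ] [TopologicalSpace P] [MulAction Γ P] [MulAction Γ I]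
  [DecidableEq I] (H : Site Γ P I) (w : Wt Γ I)

/-- DECAY of `uu - uh`. PROOF: as `decay_ug`, with `𝒜 = {F | ∑ w² ≤ R}` (`finite_sum_sq_le`),
`R = 4 |L| M² / (s² ε²) + 1`, and `δ⁻² ≥ R`. -/
theorem Site.decay_uh (L : Finset I) (M : ℝ) {s : ℝ} (hs : 0 < s) (hs1 : s ≤ 1) {ε : ℝ}
    (hε : 0 < ε) : ∃ (𝒜 : Finset (Finset I)) (δ : ℝ), 0 < δ ∧
    ∀ p, (∀ i ∈ L, H.W w p i ≤ M) → ∀ F : Finset I, (F : Set I) ⊆ H.supp p →
      (F ∉ 𝒜 ∨ ∃ j ∈ F, H.hh p j < δ) →
      ∑ i ∈ F, (H.uu w s p F i - H.uh w L s p F i) ^ 2 ≤ ε ^ 2 := by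
  obtain ⟨R, hR, hR1⟩ : ∃ R : ℝ, 4 * (L.card * M ^ 2) ≤ R * (s ^ 2 * ε ^ 2) ∧ 1 ≤ R := by
    have h0 : 0 < s ^ 2 * ε ^ 2 := by positivity
    refine ⟨4 * (L.card * M ^ 2) / (s ^ 2 * ε ^ 2) + 1, ?_, ?_⟩
    · rw [add_mul, div_mul_cancel₀ _ h0.ne']
      linarith
    · have : 0 ≤ 4 * (L.card * M ^ 2) / (s ^ 2 * ε ^ 2) := by positivity
      linarith
  have hfin := finite_sum_sq_le w R
  have hR0 : 0 < R := by linarith
  have key : ∀ p, (∀ i ∈ L, H.W w p i ≤ M) → ∀ F : Finset I, F.Nonempty →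
      R ≤ ∑ i ∈ F, H.W w p i ^ 2 →
      ∑ i ∈ F, (H.uu w s p F i - H.uh w L s p F i) ^ 2 ≤ ε ^ 2 := by
    intro p hM F hF hW
    have hW0 : 0 < s ^ 2 * ∑ i ∈ F, H.W w p i ^ 2 := by
      have : 0 < ∑ i ∈ F, H.W w p i ^ 2 := by linarith
      positivity
    refine (H.uu_sub_uh_sq_le w L hs hs1 p hM hF).trans ?_
    rw [div_le_iff₀ hW0]
    calc 4 * (L.card * M ^ 2) ≤ R * (s ^ 2 * ε ^ 2) := hR
      _ ≤ (∑ i ∈ F, H.W w p i ^ 2) * (s ^ 2 * ε ^ 2) :=
          mul_le_mul_of_nonneg_right hW (by positivity)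
      _ = ε ^ 2 * (s ^ 2 * ∑ i ∈ F, H.W w p i ^ 2) := by ring
  refine ⟨hfin.toFinset, 1 / R, by positivity, fun p hM F hFs h => ?_⟩
  rcases F.eq_empty_or_nonempty with hF | hF
  · rw [hF, Finset.sum_empty]
    positivity
  by_cases hFA : F ∈ hfin.toFinset
  · rcases h with h | ⟨j, hj, hjδ⟩
    · exact absurd hFA h
    · refine key p hM F hF ?_
      have h0 : 0 < H.hh p j := hFs (Finset.mem_coe.2 hj)
      have h1 : R ≤ (H.hh p j)⁻¹ := by
        rw [← one_div, le_div_iff₀ h0]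
        rw [lt_div_iff₀ hR0] at hjδ
        linarith
      have h2 : (H.hh p j)⁻¹ ≤ H.W w p j := by
        have := w.one_le j
        rw [Site.W]
        linarith
      have h3 : H.W w p j ^ 2 ≤ ∑ i ∈ F, H.W w p i ^ 2 :=
        Finset.single_le_sum (f := fun i => H.W w p i ^ 2) (fun i _ => sq_nonneg _) hj
      have h6 := H.one_le_W w p j
      nlinarith
  · refine key p hM F hF ?_
    rw [Set.Finite.mem_toFinset, Set.mem_ofPred_eq, not_le] at hFA
    refine hFA.le.trans (Finset.sum_le_sum fun i _ => ?_)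
    have h1 := w.one_le i
    have h2 : w.w i ≤ H.W w p i := by
      have : 0 ≤ (H.hh p i)⁻¹ := inv_nonneg.2 (H.nonneg p i)
      rw [Site.W]
      linarith
    exact pow_le_pow_left₀ (by linarith) h2 2

/-- PROOF: for `i ∈ F ⊆ supp p` everything is a continuous function of the `hh p j`, `j ∈ F`, which are positive
there. -/
theorem Site.continuousOn_uu {s : ℝ} (hs : 0 ≤ s) (F : Finset I) (i : I) :
    ContinuousOn (fun p => H.uu w s p F i) {p | (insert i F : Set I) ⊆ H.supp p} := by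
  have hW : ∀ j ∈ (insert i F : Set I),
      ContinuousOn (fun p => H.Ws w s p j) {p | (insert i F : Set I) ⊆ H.supp p} := by
    intro j hj
    have h1 : ContinuousOn (fun p => (H.hh p j)⁻¹) {p | (insert i F : Set I) ⊆ H.supp p} := by
      refine (H.cont j).continuousOn.inv₀ fun p hp => ?_
      rw [Set.mem_ofPred_eq] at hp
      exact ne_of_gt (hp hj)
    simp only [Site.Ws, Site.W]
    exact continuousOn_const.add (continuousOn_const.mul ((continuousOn_const.add h1).sub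
      continuousOn_const))
  rcases F.eq_empty_or_nonempty with hF | hF
  · have h0 : (fun p => H.uu w s p F i) = fun _ => 0 := by
      funext p
      rw [Site.uu, Site.nW, hF, Finset.sum_empty, Real.sqrt_zero, div_zero]
    rw [h0]
    exact continuousOn_const
  · have hn : ContinuousOn (fun p => H.nW w s p F) {p | (insert i F : Set I) ⊆ H.supp p} := by
      simp only [Site.nW]
      refine (continuousOn_finsetSum F fun j hj => ?_).sqrt
      exact (hW j (Set.mem_insert_of_mem i (Finset.mem_coe.2 hj))).pow 2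
    simp only [Site.uu]
    refine (hW i (Set.mem_insert i _)).div hn fun p _ => ?_
    have h1 : 0 < ∑ i ∈ F, H.Ws w s p i ^ 2 := by
      refine Finset.sum_pos (fun i _ => ?_) hF
      have h2 := H.one_le_Ws w hs p i
      positivity
    exact (Real.sqrt_pos.2 h1).ne'

end Pool.Agent.Lib.MP_aa9b81_an.Hs
end

end


section
/-!
# Hereditary shifts, part E1: the weights at infinity
-/

open scoped ENNReal Topology ZeroAtInfty
open Function Filter Set

noncomputable section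

namespace Pool.Agent.Lib.MP_aa9b81_an.Hs

open Cut

variable {Γ P I : Type} [Group Γ] [TopologicalSpace P] [MulAction Γ P] [MulAction Γ I]
  [DecidableEq I] (H : Site Γ P I) (w : Wt Γ I)

/-- PROOF: `continuousOn_uu` for `gF g⁻¹ F`, `g⁻¹ • i`, composed with the continuous map `p ↦ g⁻¹ • p` (`H.equi`: it maps the set into the corresponding set). -/
theorem Site.continuousOn_ug [ContinuousConstSMul Γ P] (g : Γ) {s : ℝ} (hs : 0 ≤ s)
    (F : Finset I) (i : I) :
    ContinuousOn (fun p => H.ug w g s p F i) {p | (insert i F : Set I) ⊆ H.supp p} := by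
  have h1 := H.continuousOn_uu w hs (gF g⁻¹ F) (g⁻¹ • i)
  refine h1.comp (continuous_const_smul g⁻¹).continuousOn fun p hp => ?_
  rw [Set.mem_ofPred_eq] at hp ⊢
  intro j hj
  have h2 : g • j ∈ (insert i F : Set I) := by
    rcases Set.mem_insert_iff.1 hj with h | h
    · rw [h, smul_inv_smul]
      exact Set.mem_insert i _
    · rw [Finset.mem_coe, mem_gF, inv_inv] at h
      exact Set.mem_insert_of_mem i (Finset.mem_coe.2 h)
  have h3 := hp h2
  have h4 := (H.mem_supp_smul g⁻¹ p (g • j)).2 h3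
  rwa [inv_smul_smul] at h4

/-- PROOF: `continuousOn_uu` for `F ∖ L`, on a larger set. -/
theorem Site.continuousOn_uh (L : Finset I) {s : ℝ} (hs : 0 ≤ s) (F : Finset I) (i : I) :
    ContinuousOn (fun p => H.uh w L s p F i) {p | (insert i F : Set I) ⊆ H.supp p} := by
  by_cases hi : i ∈ L
  · simp only [Site.uh, hi, if_true]
    exact continuousOn_const
  · simp only [Site.uh, hi, if_false]
    refine (H.continuousOn_uu w hs (F \ L) i).mono fun p hp => ?_
    rw [Set.mem_ofPred_eq] at hp ⊢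
    refine subset_trans (Set.insert_subset_insert ?_) hp
    exact Finset.coe_subset.2 Finset.sdiff_subset

/-- PROOF: the sum over `F` is at most the sum over `F ∖ L` of `uu w s p (F ∖ L) i ^ 2`: `CB_uu`. -/
theorem Site.CB_uh (L : Finset I) {s : ℝ} (hs : 0 ≤ s) (p : P) : CB (H.uh w L s p) 1 := by
  refine ⟨zero_le_one, fun F => ?_⟩
  have h1 := (H.CB_uu w hs p).2 (F \ L)
  refine le_trans (le_of_eq ?_) h1
  rw [Finset.sdiff_eq_filter, Finset.sum_filter]
  refine Finset.sum_congr rfl fun i _ => ?_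
  by_cases hi : i ∈ L
  · simp [Site.uh, hi]
  · simp [Site.uh, hi, Finset.sdiff_eq_filter]

omit [DecidableEq I] in
/-- PROOF: `CB.smul` for `CB_uu` at `g⁻¹ p`. -/
theorem Site.CB_ug (g : Γ) {s : ℝ} (hs : 0 ≤ s) (p : P) : CB (H.ug w g s p) 1 := by
  classical
  exact (H.CB_uu w hs (g⁻¹ • p)).smul g

end Pool.Agent.Lib.MP_aa9b81_an.Hs
end

end
end

section

/-!
# Hereditary shifts, part E2: families of Clifford operators which vanish at infinity are compact
-/

open scoped ENNReal Topology ZeroAtInfty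
open Function Filter Set

noncomputable section

namespace Pool.Agent.Lib.MP_aa9b81_an.Hs

open Cut

variable {Γ P I : Type} [Group Γ] [TopologicalSpace P] [MulAction Γ P] [MulAction Γ I]
  [DecidableEq I] (H : Site Γ P I)

private theorem E2_Cl_zero (e : I ↪ ℕ) : Cl e (fun (_ : Finset I) (_ : I) => (0 : ℝ)) = 0 := by
  have h0 : CB (fun (_ : Finset I) (_ : I) => (0 : ℝ)) 0 := ⟨le_rfl, fun F => by simp⟩
  refine ContinuousLinearMap.ext fun ξ => ?_
  ext b
  rw [Cl_apply e h0]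
  unfold clF
  simp

private theorem E2_CB_ite {a : Finset I → I → ℝ} {C : ℝ} (h : CB a C) (Q : Finset I → Prop)
    [DecidablePred Q] : CB (fun F i => if Q F then a F i else 0) C := by
  refine ⟨h.nonneg, fun F => ?_⟩
  by_cases hF : Q F
  · simpa [hF] using h.bdd F
  · simp only [if_neg hF]
    simp
    positivity

private theorem E2_add (e : I ↪ ℕ) (f : C₀(P, ℂ)) {a a₁ a₂ : P → Finset I → I → ℝ} {C C₁ C₂ : ℝ}
    (h : ∀ p, CB (a p) C) (h₁ : ∀ p, CB (a₁ p) C₁) (h₂ : ∀ p, CB (a₂ p) C₂)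
    (hs : ∀ p F i, a p F i = a₁ p F i + a₂ p F i) :
    H.clf e f h = H.clf e f h₁ + H.clf e f h₂ := by
  refine FB.ext fun p => ?_
  rw [FB.add_apply, Site.clf_apply, Site.clf_apply, Site.clf_apply, ← smul_add, ← add_mul,
    ← Cl_add e (h₁ p) (h₂ p)]
  have h3 : a p = fun F i => a₁ p F i + a₂ p F i := by
    funext F i
    exact hs p F i
  rw [h3]

private theorem E2_fin [T2Space P] (e : I ↪ ℕ) {f : C₀(P, ℂ)} {a : P → Finset I → I → ℝ}
    {C : ℝ} (h : ∀ p, CB (a p) C) (hd : H.Decay f a)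
    (hc : ∀ F, ∀ i ∈ F, ContinuousOn (fun p => a p F i) {p | (F : Set I) ⊆ H.supp p})
    (A : Finset (Finset I)) :
    H.clf e f (fun p => E2_CB_ite (h p) (fun F => F ∈ A)) ∈ KE H.U := by
  induction A using Finset.induction_on with
  | empty =>
    have h1 : H.clf e f (fun p => E2_CB_ite (h p) (fun F => F ∈ (∅ : Finset (Finset I)))) = 0 := by
      refine FB.ext fun p => ?_
      rw [FB.zero_apply, Site.clf_apply]
      have h2 : (fun (F : Finset I) (i : I) => if F ∈ (∅ : Finset (Finset I)) then a p F i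
          else 0) = fun _ _ => (0 : ℝ) := by
        funext F i
        simp
      rw [h2, E2_Cl_zero, zero_mul, smul_zero]
    rw [h1]
    exact Submodule.zero_mem _
  | insert F₀ A hF₀ ih =>
    have h1 := H.clf_block_mem e h hd F₀ (hc F₀) (fun p => E2_CB_ite (h p) (fun F => F = F₀))
    rw [E2_add H e f (fun p => E2_CB_ite (h p) (fun F => F ∈ insert F₀ A))
      (fun p => E2_CB_ite (h p) (fun F => F = F₀)) (fun p => E2_CB_ite (h p) (fun F => F ∈ A))]
    · exact Submodule.add_mem _ h1 ih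
    · intro p F i
      by_cases h3 : F = F₀
      · subst h3
        simp [hF₀]
      · simp [h3]

private theorem E2_small (e : I ↪ ℕ) {a : P → Finset I → I → ℝ} {C : ℝ} (h : ∀ p, CB (a p) C)
    (A : Finset (Finset I)) {ε : ℝ} (hε : 0 ≤ ε) (p : P)
    (hA : ∀ F : Finset I, (F : Set I) ⊆ H.supp p → F ∉ A → ∑ i ∈ F, a p F i ^ 2 ≤ ε ^ 2) :
    ‖Cl e (a p) * Es (H.supp p) -
      Cl e (fun F i => if F ∈ A then a p F i else 0) * Es (H.supp p)‖ ≤ ε := by
  classical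
  have hA' := E2_CB_ite (h p) (fun F => F ∈ A)
  have hb : CB (fun (F : Finset I) i => if ((F : Set I) ⊆ H.supp p ∧ F ∉ A) then a p F i else 0)
      ε := by
    refine ⟨hε, fun F => ?_⟩
    by_cases hF : (F : Set I) ⊆ H.supp p ∧ F ∉ A
    · simpa only [if_pos hF] using hA F hF.1 hF.2
    · simp only [if_neg hF]
      simp
      positivity
  have h1 : Cl e (a p) * Es (H.supp p) -
      Cl e (fun F i => if F ∈ A then a p F i else 0) * Es (H.supp p) =
      Cl e (fun (F : Finset I) i => if ((F : Set I) ⊆ H.supp p ∧ F ∉ A) then a p F i else 0) *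
        Es (H.supp p) := by
    rw [← sub_mul, ← Cl_sub e (h p) hA']
    refine ContinuousLinearMap.ext fun ξ => ?_
    ext b
    rw [ContinuousLinearMap.mul_apply, ContinuousLinearMap.mul_apply,
      Cl_apply e ((h p).sub hA'), Cl_apply e hb]
    unfold clF
    refine Finset.sum_congr rfl fun i hi => ?_
    rw [Es_apply, (tog_of_mem hi).1]
    by_cases hF : (b.F : Set I) ⊆ H.supp p
    · by_cases hF' : b.F ∈ A
      · simp [hF, hF']
      · simp [hF, hF']
    · simp [hF]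
  rw [h1]
  have h2 := norm_Cl_le e hb
  have h3 := norm_Es_le (I := I) (H.supp p)
  have h4 := norm_nonneg (Es (H.supp p) : BL (Bs I))
  refine (norm_mul_le _ _).trans ?_
  nlinarith [norm_nonneg (Cl e (fun (F : Finset I) i =>
    if ((F : Set I) ⊆ H.supp p ∧ F ∉ A) then a p F i else 0))]

/-- PROOF: the closure: given `ε > 0`, take `𝒜` for `ε / (‖f‖ + 1)` from the decay condition. The sum over
`F ∈ 𝒜` of the blocks `clf (if F' = F then a else 0)` is the family with the coefficients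
`if F' ∈ 𝒜 then a else 0` (`Cl_add`, induction on `𝒜`), in `KE U` by `clf_block_mem`. The difference to
`clf e f h` at `p` is `f(p) Cl(a_p 1_{F' ∉ 𝒜}) Es(supp p) = f(p) Cl(a_p 1_{F' ∉ 𝒜, F' ⊆ supp p}) Es(supp p)`, of norm
at most `‖f‖ ε / (‖f‖ + 1) ≤ ε` (`norm_Cl_le`; if `f p = 0` it is `0`). -/
theorem Site.clf_mem_KE [T2Space P] (e : I ↪ ℕ) {f : C₀(P, ℂ)} {a : P → Finset I → I → ℝ}
    {C : ℝ} (h : ∀ p, CB (a p) C) (hd : H.Decay f a)
    (hc : ∀ F, ∀ i ∈ F, ContinuousOn (fun p => a p F i) {p | (F : Set I) ⊆ H.supp p}) :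
    H.clf e f h ∈ KE H.U := by
  have hcl : IsClosed (KE H.U : Set (FB (Bs I) P)) := Submodule.isClosed_topologicalClosure _
  change H.clf e f h ∈ (KE H.U : Set (FB (Bs I) P))
  rw [← hcl.closure_eq, Metric.mem_closure_iff]
  intro ε hε
  have hf : 0 ≤ ‖f‖ := norm_nonneg f
  have hε' : 0 < ε / (‖f‖ + 1) := by positivity
  obtain ⟨A, δ, hδ, hA⟩ := hd (ε / (‖f‖ + 1)) hε'
  refine ⟨H.clf e f (fun p => E2_CB_ite (h p) (fun F => F ∈ A)), E2_fin H e h hd hc A, ?_⟩
  rw [dist_eq_norm]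
  have hlt : ‖f‖ * (ε / (‖f‖ + 1)) < ε := by
    rw [← mul_div_assoc, div_lt_iff₀ (by positivity)]
    nlinarith
  refine lt_of_le_of_lt ((FB.norm_le_iff (by positivity)).2 fun p => ?_) hlt
  rw [FB.sub_apply, Site.clf_apply, Site.clf_apply, ← smul_sub, norm_smul]
  by_cases hp : f p = 0
  · rw [hp, norm_zero, zero_mul]
    positivity
  · have h1 := E2_small H e h A hε'.le p (fun F hF hF' => hA p hp F hF (Or.inl hF'))
    have h2 : ‖f p‖ ≤ ‖f‖ := f.toBCF.norm_coe_le_norm p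
    exact mul_le_mul h2 h1 (norm_nonneg _) hf

/-- The projection onto the vacuum vector. -/
def Pv : BL (Bs I) := Eu Bs.vac Bs.vac

/-- PROOF: `ge f vac vac` is a generator; `vac.F = ∅`. -/
theorem Site.ge_vac_mem_KE (f : C₀(P, ℂ)) : ge f Bs.vac Bs.vac ∈ KE H.U := by
  refine Submodule.le_topologicalClosure _ (Submodule.subset_span ⟨Bs.vac, Bs.vac, f, ?_, rfl⟩)
  intro p _
  have h1 : p ∈ H.U Bs.vac := by
    intro i hi
    have h2 : i ∈ (∅ : Finset I) := hi
    simp at h2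
  exact ⟨h1, h1⟩

end Pool.Agent.Lib.MP_aa9b81_an.Hs
end
end

section

/-!
# Hereditary shifts, part E4: the rotated projections times functions
-/

open scoped ENNReal Topology ZeroAtInfty
open Function Filter Set

noncomputable section

namespace Pool.Agent.Lib.MP_aa9b81_an.Hs

open Cut

variable {Γ P I : Type} [Group Γ] [TopologicalSpace P] [MulAction Γ P] [MulAction Γ I]
  [DecidableEq I] (H : Site Γ P I) (w : Wt Γ I)

/-- PROOF: `Ui_comm_Cl`, `XL_comm_Cl`, `UK_comm`, `UK_inv_comm`. -/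
theorem Sp_comm_Cl (e : I ↪ ℕ) {a : Finset I → I → ℝ} {C : ℝ} (h : CB a C) {L : Finset I}
    (h0 : ∀ F, ∀ i ∈ L, a F i = 0) (h1 : ∀ F j, a F j = a (F \ L) j) (φ : ℝ) :
    Commute (Sp L φ) (Cl e a) := by
  have hU : ∀ i ∈ L, Commute (Ui i φ) (Cl e a) := fun i hi => Ui_comm_Cl e h h0 h1 hi φ
  exact ((UK_comm hU).mul_left (XL_comm_Cl e h h0)).mul_left (UK_inv_comm hU)

theorem Site.uh_mem {L : Finset I} {s : ℝ} (p : P) (F : Finset I) {i : I} (hi : i ∈ L) :
    H.uh w L s p F i = 0 := by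
  rw [Site.uh, if_pos hi]

theorem Site.uh_sdiff (L : Finset I) (s : ℝ) (p : P) (F : Finset I) (j : I) :
    H.uh w L s p F j = H.uh w L s p (F \ L) j := by
  rw [Site.uh, Site.uh, Finset.sdiff_idem]

end Pool.Agent.Lib.MP_aa9b81_an.Hs
end
end
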