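import Pool.Agent.Lib.MP_aa9b81_an.Mg.G003
import Pool.Agent.Lib.MP_aa9b81_an.Mg.G001
import Pool.Agent.Lib.MP_aa9b81_an.Mg.G078
import Pool.Agent.Lib.MP_aa9b81_an.Mg.G079
import Pool.Agent.Lib.MP_aa9b81_an.Mg.G009
import Pool.Agent.Lib.MP_aa9b81_an.Mg.G005

section

/-!
# Hereditary shifts, part E4a: the rotated projections times functions
-/

open scoped ENNReal Topology ZeroAtInfty
open Function Filter Set

noncomputable section

namespace Pool.Agent.Lib.MP_aa9b81_an.Hs

open Cut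

variable {Γ P I : Type} [Group Γ] [TopologicalSpace P] [MulAction Γ P] [MulAction Γ I]
  [DecidableEq I] (H : Site Γ P I) (w : Wt Γ I)

omit [DecidableEq I] in
/-- `f` lives where the sites of the nonempty set `L` have heights at least `δ`. -/
structure Site.Ex (L : Finset I) (δ : ℝ) (f : C₀(P, ℂ)) : Prop where
  ne : L.Nonempty
  pos : 0 < δ
  le : ∀ p, f p ≠ 0 → ∀ i ∈ L, δ ≤ H.hh p i

/-- The family `p ↦ f(p) Sp(L, φ) Es(supp p)`. -/
def Site.nf (f : C₀(P, ℂ)) (L : Finset I) (φ : ℝ) : FB (Bs I) P :=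
  FB.mk (fun p => f p • (Sp L φ * Es (H.supp p))) ‖f‖ fun p => by
    have h1 := norm_Sp_le L φ
    have h2 := norm_Es_le (H.supp p)
    have h3 := norm_nonneg (Sp L φ)
    have h4 := norm_nonneg (Es (H.supp p) : BL (Bs I))
    have h5 : ‖Sp L φ * Es (H.supp p)‖ ≤ 1 := (norm_mul_le _ _).trans (by nlinarith)
    have h6 := f.toBCF.norm_coe_le_norm p
    have h7 := norm_nonneg f
    rw [norm_smul]
    calc ‖f p‖ * ‖Sp L φ * Es (H.supp p)‖ ≤ ‖f‖ * 1 :=
          mul_le_mul h6 h5 (norm_nonneg _) (norm_nonneg _)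
      _ = ‖f‖ := mul_one _

@[simp] lemma Site.nf_apply (f : C₀(P, ℂ)) (L : Finset I) (φ : ℝ) (p : P) :
    H.nf f L φ p = f p • (Sp L φ * Es (H.supp p)) := rfl

private lemma E4a_fl_S (i : I) (b : Bs I) : (fl i b).S = b.S := by
  unfold fl
  split_ifs <;> rfl

private lemma E4a_fl_F {i : I} {K : Finset I} (hi : i ∈ K) (b : Bs I) :
    (fl i b).F \ K = b.F \ K := by
  unfold fl
  split_ifs with h
  · rfl
  · rw [Bs.mk_F]
    unfold tg
    split_ifs with h'
    · ext j
      simp only [Finset.mem_sdiff, Finset.mem_erase]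
      constructor
      · rintro ⟨⟨_, h2⟩, h3⟩
        exact ⟨h2, h3⟩
      · rintro ⟨h2, h3⟩
        exact ⟨⟨fun e => h3 (e ▸ hi), h2⟩, h3⟩
    · ext j
      simp only [Finset.mem_sdiff, Finset.mem_insert]
      constructor
      · rintro ⟨h2 | h2, h3⟩
        · exact absurd (h2 ▸ hi) h3
        · exact ⟨h2, h3⟩
      · rintro ⟨h2, h3⟩
        exact ⟨Or.inr h2, h3⟩

/-- the projection onto the span of the class of `b` -/
private def E4a_D (K : Finset I) (b : Bs I) : BL (Bs I) :=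
  dia fun a => if a.S = b.S ∧ a.F \ K = b.F \ K then 1 else 0

private lemma E4a_D_apply (K : Finset I) (b : Bs I) (ξ : L2 (Bs I)) (a : Bs I) :
    (E4a_D K b ξ : Bs I → ℂ) a =
      if a.S = b.S ∧ a.F \ K = b.F \ K then (ξ : Bs I → ℂ) a else 0 := by
  rw [E4a_D, dia_apply zero_le_one (fun b => by split_ifs <;> simp)]
  split_ifs <;> simp

private lemma E4a_comm_XL (K : Finset I) (b : Bs I) (L : Finset I) :
    Commute (XL L) (E4a_D K b) := by
  refine ContinuousLinearMap.ext fun ξ => ?_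
  ext a
  change (XL L (E4a_D K b ξ) : Bs I → ℂ) a = (E4a_D K b (XL L ξ) : Bs I → ℂ) a
  rw [XL_apply, E4a_D_apply, E4a_D_apply, XL_apply]
  split_ifs <;> rfl

private lemma E4a_comm_Ni (K : Finset I) (b : Bs I) (i : I) :
    Commute (Ni i) (E4a_D K b) := by
  refine ContinuousLinearMap.ext fun ξ => ?_
  ext a
  change (Ni i (E4a_D K b ξ) : Bs I → ℂ) a = (E4a_D K b (Ni i ξ) : Bs I → ℂ) a
  rw [Ni_apply, E4a_D_apply, E4a_D_apply, Ni_apply]
  split_ifs <;> rfl

private lemma E4a_comm_Ji {K : Finset I} (b : Bs I) {i : I} (hi : i ∈ K) :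
    Commute (Ji i) (E4a_D K b) := by
  refine ContinuousLinearMap.ext fun ξ => ?_
  ext a
  change (Ji i (E4a_D K b ξ) : Bs I → ℂ) a = (E4a_D K b (Ji i ξ) : Bs I → ℂ) a
  rw [Ji_apply, E4a_D_apply, E4a_D_apply, Ji_apply, E4a_fl_S, E4a_fl_F hi]
  split_ifs
  · rfl
  · rw [mul_zero]

private lemma E4a_comm_Ui {K : Finset I} (b : Bs I) {i : I} (hi : i ∈ K) (φ : ℝ) :
    Commute (Ui i φ) (E4a_D K b) := by
  unfold Ui
  exact ((Commute.one_left _).add_left ((E4a_comm_Ni K b i).smul_left _)).add_left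
    ((E4a_comm_Ji b hi).smul_left _)

private lemma E4a_comm_Sp (K : Finset I) (φ : ℝ) (b : Bs I) :
    Commute (Sp K φ) (E4a_D K b) := by
  unfold Sp
  exact ((UK_comm fun i hi => E4a_comm_Ui b hi φ).mul_left (E4a_comm_XL K b K)).mul_left
    (UK_inv_comm fun i hi => E4a_comm_Ui b hi φ)

/-- PROOF: `ker (X * Y) b b' = ∑ ker X b a ker Y a b'` for row finite `X`; the rows and columns of `Ui` have at most two
entries: `Ui i φ` maps `b` to combinations of `b` and `fl i b`. Induction on `K` (`UK_insert`): for each `b` the row and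
the column of `UK K φ`, `(UK K φ)⁻¹` are supported in the finite set of the `b'` with `b'.S = b.S`,
`b'.F ∖ K = b.F ∖ K`. Same for `Sp K φ`. -/
theorem ker_Sp_supp (K : Finset I) (φ : ℝ) (b b' : Bs I) (h : ker (Sp K φ) b b' ≠ 0) :
    b'.S = b.S ∧ b'.F \ K = b.F \ K := by
  by_contra hcon
  apply h
  have h1 := E4a_comm_Sp K φ b
  have h2 : E4a_D K b (bv b') = 0 := by
    ext a
    rw [E4a_D_apply]
    split_ifs with h3
    · by_cases h4 : a = b'
      · exact absurd (h4 ▸ h3) hcon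
      · classical
        unfold bv
        rw [lp.single_apply_ne _ _ _ h4]
        rfl
    · rfl
  have h3 : (E4a_D K b (Sp K φ (bv b')) : Bs I → ℂ) b = (Sp K φ (bv b') : Bs I → ℂ) b := by
    rw [E4a_D_apply, if_pos ⟨rfl, rfl⟩]
  have h4 : E4a_D K b (Sp K φ (bv b')) = Sp K φ (E4a_D K b (bv b')) :=
    (DFunLike.congr_fun h1.eq (bv b')).symm
  unfold ker
  rw [← h3, h4, h2, map_zero]
  rfl

/-- PROOF: the pairs `b'` with `b'.S = S`, `b'.F ∖ K = F ∖ K` have `b'.F ⊆ F ∪ K`: finitely many. -/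
theorem finite_supp (K : Finset I) (b : Bs I) :
    {b' : Bs I | b'.S = b.S ∧ b'.F \ K = b.F \ K}.Finite := by
  have h1 : ((((b.F ∪ K).powerset ×ˢ {b.S} : Finset (Finset I × Finset I)) :
      Set (Finset I × Finset I))).Finite := Finset.finite_toSet _
  have h2 : ((fun b' : Bs I => (b'.1 : Finset I × Finset I)) ⁻¹'
      (((b.F ∪ K).powerset ×ˢ {b.S} : Finset (Finset I × Finset I)) :
      Set (Finset I × Finset I))).Finite := h1.preimage (Subtype.val_injective.injOn)
  refine h2.subset ?_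
  rintro b' ⟨h3, h4⟩
  rw [Set.mem_preimage, Finset.mem_coe, Finset.mem_product, Finset.mem_powerset,
    Finset.mem_singleton]
  refine ⟨?_, h3⟩
  intro i hi
  rw [Finset.mem_union]
  by_cases hK : i ∈ K
  · exact Or.inr hK
  · left
    have h5 : i ∈ b'.F \ K := Finset.mem_sdiff.mpr ⟨hi, hK⟩
    rw [h4] at h5
    exact (Finset.mem_sdiff.mp h5).1

end Pool.Agent.Lib.MP_aa9b81_an.Hs
end
end

section

/-!
# Hereditary shifts, part F1: the space of nonzero configurations
-/

open scoped ENNReal Topology ZeroAtInfty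
open Function Filter Set

noncomputable section

namespace Pool.Agent.Lib.MP_aa9b81_an.Hs

open Cut

variable {Γ Z I A : Type} [Group Γ] [MulAction Γ I] [MulAction Γ Z] [TopologicalSpace Z]
    [TopologicalSpace A] {a₀ : A} (Y : Hered Γ Z I A a₀)

private lemma F1_cutP_iff (J : Set I) (x x' : Y.St) :
    Y.cutP J x = some x' ↔ x'.1 = (Y.z x, cut a₀ J (Y.y x)) := by
  unfold Hered.cutP
  constructor
  · intro h
    split_ifs at h with h1
    have h2 := Option.some.inj h
    rw [← h2]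
  · intro h
    have h1 : ∃ i ∈ J, Y.y x i ≠ a₀ := by
      obtain ⟨i, hi⟩ := x'.2.2
      rw [h] at hi
      by_cases hJ : i ∈ J
      · refine ⟨i, hJ, ?_⟩
        rwa [show (Y.z x, cut a₀ J (Y.y x)).2 i = Y.y x i from cut_of_mem _ hJ] at hi
      · exact absurd (cut_of_notMem _ hJ) hi
    rw [dif_pos h1]
    exact congrArg some (Subtype.ext h.symm)

private lemma F1_cutP_none (J : Set I) (x : Y.St) (h : ¬ ∃ i ∈ J, Y.y x i ≠ a₀) :
    Y.cutP J x = none := by
  unfold Hered.cutP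
  rw [dif_neg h]

/-- PROOF: as `pi0_smul`. -/
theorem pi1_smul (g : Γ) (x : Y.St) (b : Bs I) :
    Y.pi1 (g • x) (g • b) = (Y.pi1 x b).map (g • ·) := by
  have h1 : (∀ i ∈ (g • b).F, Y.y (g • x) i ≠ a₀) ↔ ∀ i ∈ b.F, Y.y x i ≠ a₀ := by
    constructor
    · intro h i hi
      have h2 := h (g • i) (by rw [Bs.smul_F, mem_gF, inv_smul_smul]; exact hi)
      rwa [Y.y_smul, inv_smul_smul] at h2
    · intro h i hi
      rw [Bs.smul_F, mem_gF] at hi
      exact h _ hi
  unfold Hered.pi1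
  by_cases h2 : ∀ i ∈ b.F, Y.y x i ≠ a₀
  · rw [if_pos h2, if_pos (h1.2 h2), ← cutP_smul]
    have h3 : {i | i ∉ (g • b).F} = {i | g⁻¹ • i ∈ {i | i ∉ b.F}} := by
      ext i
      change i ∉ gF g b.F ↔ g⁻¹ • i ∉ b.F
      rw [mem_gF]
    rw [h3]
  · rw [if_neg h2, if_neg fun h3 => h2 (h1.1 h3)]
    rfl

/-- The equivariant partial map `pi0`. -/
def Pi0 : PMap Γ Y.St (Bs I) Y.St := ⟨Y.pi0, pi0_smul Y⟩

/-- The equivariant partial map `pi1`. -/
def Pi1 : PMap Γ Y.St (Bs I) Y.St := ⟨Y.pi1, pi1_smul Y⟩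

/-- Exact functions: `f` lives where the heights of the sites in `L ≠ ∅` are at least `δ`, and depends only on the
base point and the coordinates in `L`. -/
structure ExF (h : Ht A a₀) (L : Finset I) (δ : ℝ) (f : C₀(Y.St, ℂ)) : Prop
    extends (Y.site h).Ex L δ f where
  cyl : ∀ x x' : Y.St, Y.z x = Y.z x' → (∀ i ∈ L, Y.y x i = Y.y x' i) → f x = f x'

/-- PROOF: cases. If `cutP J x = none` then all `y x i = a₀` for `i ∈ J`. If `L ⊆ J` this contradicts `f x ≠ 0`
(`L ≠ ∅`, heights positive), so both sides are `0`; if `L ⊄ J` both are `0`. If `cutP J x = some x'`: for `L ⊆ J`,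
`x` and `x'` agree on `L` (`cyl`). If `i ∈ L ∖ J` then `y x' i = a₀` has height `0`, so `f x' = 0` (`le`, `pos`). -/
theorem ExF.optf_cutP {h : Ht A a₀} {L : Finset I} {δ : ℝ} {f : C₀(Y.St, ℂ)} (hf : ExF Y h L δ f)
    (J : Set I) (x : Y.St) [Decidable ((L : Set I) ⊆ J)] :
    optf f (Y.cutP J x) = if (L : Set I) ⊆ J then f x else 0 := by
  have hpos : ∀ x : Y.St, f x ≠ 0 → ∀ i ∈ L, Y.y x i ≠ a₀ := by
    intro x hx i hi
    have h1 : δ ≤ h.h (Y.y x i) := hf.le x hx i hi
    rw [← h.pos_iff]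
    exact lt_of_lt_of_le hf.pos h1
  cases h2 : Y.cutP J x with
  | none =>
    rw [optf_none]
    split_ifs with h3
    · by_contra h4
      obtain ⟨i, hi⟩ := hf.ne
      have h5 := hpos x (fun e => h4 e.symm) i hi
      have h6 : ∃ i ∈ J, Y.y x i ≠ a₀ := ⟨i, h3 hi, h5⟩
      unfold Hered.cutP at h2
      rw [dif_pos h6] at h2
      exact Option.some_ne_none _ h2
    · rfl
  | some x' =>
    rw [F1_cutP_iff] at h2
    have hy : ∀ i, Y.y x' i = cut a₀ J (Y.y x) i := fun i => by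
      change x'.1.2 i = _
      rw [h2]
    rw [optf_some]
    split_ifs with h3
    · refine hf.cyl x' x ?_ fun i hi => ?_
      · change x'.1.1 = _
        rw [h2]
      · rw [hy, cut_of_mem _ (h3 hi)]
    · by_contra h4
      obtain ⟨i, hi, hJ⟩ := Set.not_subset.1 h3
      refine hpos x' h4 i hi ?_
      rw [hy, cut_of_notMem _ hJ]

end Pool.Agent.Lib.MP_aa9b81_an.Hs
end
end

section

/-!
# Hereditary shifts, part T0b: the rotated representations, finite stages
-/

open scoped ENNReal Topology ZeroAtInfty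
open Function Filter Set

noncomputable section

namespace Pool.Agent.Lib.MP_aa9b81_an.Hs

open Cut

variable {Γ Z I A : Type} [Group Γ] [MulAction Γ I] [MulAction Γ Z] [TopologicalSpace Z]
    [TopologicalSpace A] {a₀ : A} [DecidableEq I] (Y : Hered Γ Z I A a₀)

/-- PROOF: `FB.ext`, coordinates at `b`: `dgf_apply`, `nf_apply`, `Sp_zero`, `XL_apply`, `Es_apply`: if `b.F ⊆ supp x`:
`ExF.optf_cutP` for `J = F ∖ S`; otherwise both are `0`. -/
theorem dgf_pi0 {h : Ht A a₀} {L : Finset I} {δ : ℝ} {f : C₀(Y.St, ℂ)} (hf : ExF Y h L δ f) :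
    dgf Y.pi0 f = (Y.site h).nf f L 0 := by
  classical
  refine FB.ext fun x => ContinuousLinearMap.ext fun ξ => ?_
  ext b
  rw [dgf_apply, Site.nf_apply, Sp_zero]
  change _ = f x * (XL L (Es ((Y.site h).supp x) ξ) : Bs I → ℂ) b
  rw [XL_apply, Es_apply]
  have hs : (↑b.F : Set I) ⊆ (Y.site h).supp x ↔ ∀ i ∈ b.F, Y.y x i ≠ a₀ :=
    ⟨fun h1 i hi => (Y.mem_supp h x i).1 (h1 hi), fun h1 i hi => (Y.mem_supp h x i).2 (h1 i hi)⟩
  have hL : (↑L : Set I) ⊆ {i | i ∈ b.F ∧ i ∉ b.S} ↔ L ⊆ b.F \ b.S :=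
    ⟨fun h1 i hi => Finset.mem_sdiff.2 (h1 hi), fun h1 i hi => Finset.mem_sdiff.1 (h1 hi)⟩
  rw [Hered.pi0]
  by_cases h1 : ∀ i ∈ b.F, Y.y x i ≠ a₀
  · rw [if_pos h1, hf.optf_cutP]
    by_cases h2 : L ⊆ b.F \ b.S
    · rw [if_pos h2, if_pos (hL.2 h2), if_pos (hs.2 h1)]
    · rw [if_neg h2, if_neg (fun h3 => h2 (hL.1 h3)), zero_mul, mul_zero]
  · rw [if_neg h1, if_neg (fun h3 => h1 (hs.1 h3)), optf_none, zero_mul]
    split_ifs <;> rw [mul_zero]

/-- PROOF: as `dgf_pi0`, with `Sp_pi_div_two`, `J = {i | i ∉ F}`. -/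
theorem dgf_pi1 {h : Ht A a₀} {L : Finset I} {δ : ℝ} {f : C₀(Y.St, ℂ)} (hf : ExF Y h L δ f) :
    dgf Y.pi1 f = (Y.site h).nf f L (Real.pi / 2) := by
  classical
  refine FB.ext fun x => ContinuousLinearMap.ext fun ξ => ?_
  ext b
  rw [dgf_apply, Site.nf_apply, Sp_pi_div_two]
  change _ = f x * ((dia fun b : Bs I => if Disjoint L b.F then (1 : ℂ) else 0)
    (Es ((Y.site h).supp x) ξ) : Bs I → ℂ) b
  rw [dia_apply zero_le_one (fun b => by split_ifs <;> simp), Es_apply]
  have hs : (↑b.F : Set I) ⊆ (Y.site h).supp x ↔ ∀ i ∈ b.F, Y.y x i ≠ a₀ :=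
    ⟨fun h1 i hi => (Y.mem_supp h x i).1 (h1 hi), fun h1 i hi => (Y.mem_supp h x i).2 (h1 i hi)⟩
  have hL : (↑L : Set I) ⊆ {i | i ∉ b.F} ↔ Disjoint L b.F :=
    ⟨fun h1 => Finset.disjoint_left.2 fun i hi => h1 hi,
      fun h1 i hi => Finset.disjoint_left.1 h1 hi⟩
  rw [Hered.pi1]
  by_cases h1 : ∀ i ∈ b.F, Y.y x i ≠ a₀
  · rw [if_pos h1, hf.optf_cutP]
    by_cases h2 : Disjoint L b.F
    · rw [if_pos h2, if_pos (hL.2 h2), if_pos (hs.2 h1), one_mul]
    · rw [if_neg h2, if_neg (fun h3 => h2 (hL.1 h3)), zero_mul, zero_mul, mul_zero]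
  · rw [if_neg h1, if_neg (fun h3 => h1 (hs.1 h3)), optf_none, zero_mul]
    split_ifs <;> simp only [mul_zero]

end Pool.Agent.Lib.MP_aa9b81_an.Hs
end
end

section

/-!
# Hereditary shifts, part H1d: block diagonal and local families
-/

open scoped ENNReal Topology ZeroAtInfty
open Function Filter Set

noncomputable section

namespace Pool.Agent.Lib.MP_aa9b81_an.Hs

open Cut

variable {Γ Z I A : Type} [Group Γ] [MulAction Γ I] [MulAction Γ Z] [TopologicalSpace Z]
    [TopologicalSpace A] {a₀ : A} [DecidableEq I] (Y : Hered Γ Z I A a₀)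

variable {Y}

/-- Auxiliary: the product of the direct sum with the projection onto a block. -/
theorem H1d_aux (c : ℕ × Bs I ≃ ℕ) (a : Fam Γ Y.St) (π : Bs I → Option Y.St) (F : Finset I) :
    (dsum c (fun b => opt a (π b)) * dsum c (fun b => if b.F = F then 1 else 0) =
      dsum c (fun b => if b.F = F then opt a (π b) else 0)) ∧
    (dsum c (fun b => if b.F = F then 1 else 0) * dsum c (fun b => opt a (π b)) =
      dsum c (fun b => if b.F = F then opt a (π b) else 0)) := by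
  have hn : ∀ b : Bs I, ‖(if b.F = F then (1 : Op Γ) else 0)‖ ≤ 1 := by
    intro b
    split_ifs
    · exact ContinuousLinearMap.norm_id_le
    · simp
  constructor
  · rw [← dsum_mul c (norm_nonneg a) (fun b => norm_opt_le a (π b)) zero_le_one hn]
    congr 1
    funext b
    split_ifs
    · rw [mul_one]
    · rw [mul_zero]
  · rw [← dsum_mul c zero_le_one hn (norm_nonneg a) (fun b => norm_opt_le a (π b))]
    congr 1
    funext b
    split_ifs
    · rw [one_mul]
    · rw [zero_mul]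

/-- Auxiliary: the block of `psi`. -/
theorem H1d_block (c : ℕ × Bs I ≃ ℕ) (e : I ↪ ℕ) (a : Fam Γ Y.St) (x : Y.St) (F : Finset I) :
    psi c (sact e) Y.pi0 a x * eF c F = (sact e).V c *
      dsum c (fun b => if b.F = F then opt a (Y.pi0 x b) else 0) * (sact e).V' c := by
  rw [psi_apply, psiV, mul_assoc, V'_mul_eF, ← mul_assoc, mul_assoc ((sact e).V c),
    (H1d_aux c a (Y.pi0 x) F).1]

variable (Y)

/-- PROOF: `comm`, `cut`: `eF_mul_V`, `V'_mul_eF`, `psi_apply`, `psiV`, and `dsum_mul`: on the `b` with `b.F = F` the values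
of `opt a (pi0 x b)` and of `opt a (pi0 x' b)` agree, since `pi0 x b = cutP (F ∖ S) x = cutP (F ∖ S) x'`
(`cutP_cutP`, `y_cutP`). `zero`: for `b.F = F` not contained in the support `pi0 x b = none`; for `F = ∅`,
`pi0 x b = cutP ∅ x = none`. -/
theorem Loc_psi (c : ℕ × Bs I ≃ ℕ) (e : I ↪ ℕ) (a : Fam Γ Y.St) :
    Loc Y c (psi c (sact e) Y.pi0 a) where
  comm x F := by
    rw [H1d_block, psi_apply, psiV, ← mul_assoc, ← mul_assoc, eF_mul_V,
      mul_assoc ((sact e).V c), (H1d_aux c a (Y.pi0 x) F).2]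
  cut x x' F hF h := by
    rw [H1d_block, H1d_block]
    congr 3
    funext b
    split_ifs with hb
    · subst hb
      congr 1
      rw [Hered.pi0, Hered.pi0, if_pos hF, if_pos, cutP_cutP Y (fun i hi => hi.1) h]
      intro i hi
      rw [y_cutP Y h i hi]
      exact hF i hi
    · rfl
  zero x F h := by
    rw [H1d_block]
    have h1 : (fun b : Bs I => if b.F = F then opt a (Y.pi0 x b) else 0) = fun _ => (0 : Op Γ) := by
      funext b
      split_ifs with hb
      · subst hb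
        have h2 : Y.pi0 x b = none := by
          rw [Hered.pi0]
          split_ifs with h3
          · rw [Hered.cutP, dif_neg]
            rintro ⟨i, hi, -⟩
            exact h ⟨⟨i, hi.1⟩, h3⟩
          · rfl
        rw [h2, opt_none]
      · rfl
    have h2 : dsum c (fun _ : Bs I => (0 : Op Γ)) = 0 := by
      have h3 := norm_dsum_le (Γ := Γ) c (A := fun _ : Bs I => (0 : Op Γ)) le_rfl
        (fun b => by rw [norm_zero])
      exact norm_le_zero_iff.1 h3
    rw [h1, h2, mul_zero, zero_mul]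

end Pool.Agent.Lib.MP_aa9b81_an.Hs
end
end

section

/-!
# Hereditary shifts, part E3a: relations of the operator `T`
-/

open scoped ENNReal Topology ZeroAtInfty
open Function Filter Set

noncomputable section

namespace Pool.Agent.Lib.MP_aa9b81_an.Hs

open Cut

variable {Γ P I : Type} [Group Γ] [TopologicalSpace P] [MulAction Γ P] [MulAction Γ I]
  [DecidableEq I] (H : Site Γ P I) (w : Wt Γ I)

/-- PROOF: coordinates, `(tog i b).F = b.F`. -/
theorem Es_comm_Cl (e : I ↪ ℕ) (s : Set I) {a : Finset I → I → ℝ} {C : ℝ} (h : CB a C) :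
    Commute (Es s) (Cl e a) := by
  refine ContinuousLinearMap.ext fun ξ => ?_
  ext b
  rw [ContinuousLinearMap.mul_apply, ContinuousLinearMap.mul_apply, Es_apply, Cl_apply e h,
    Cl_apply e h]
  unfold clF
  by_cases hb : (b.F : Set I) ⊆ s
  · rw [if_pos hb]
    refine Finset.sum_congr rfl fun i hi => ?_
    rw [Es_apply, (tog_of_mem hi).1, if_pos hb]
  · rw [if_neg hb]
    symm
    refine Finset.sum_eq_zero fun i hi => ?_
    rw [Es_apply, (tog_of_mem hi).1, if_neg hb, mul_zero, mul_zero]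

theorem Es_mul_Es (s : Set I) : (Es s * Es s : BL (Bs I)) = Es s := by
  refine ContinuousLinearMap.ext fun ξ => ?_
  ext b
  rw [ContinuousLinearMap.mul_apply, Es_apply, Es_apply]
  by_cases hb : (b.F : Set I) ⊆ s
  · rw [if_pos hb, if_pos hb]
  · rw [if_neg hb, if_neg hb]

/-- PROOF: multiplication operators commute: coordinates. -/
theorem Es_comm_Pp (s : Set I) : Commute (Es s : BL (Bs I)) Pp := by
  refine ContinuousLinearMap.ext fun ξ => ?_
  ext b
  rw [ContinuousLinearMap.mul_apply, ContinuousLinearMap.mul_apply, Es_apply, Pp_apply, Pp_apply,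
    Es_apply]
  by_cases hb : (b.F : Set I) ⊆ s
  · rw [if_pos hb, if_pos hb]
  · rw [if_neg hb, if_neg hb, ite_self]

/-- PROOF: coordinates at `b`: `Pv` is the coordinate projection of the pair `vac` (`Eu_apply`), and
`b.F = ∅ ↔ b = vac`. -/
theorem Pv_eq : (Pv : BL (Bs I)) = dia fun b => if b.F = ∅ then 1 else 0 := by
  refine ContinuousLinearMap.ext fun ξ => ?_
  ext b
  rw [Pv, Eu_apply, dia_apply zero_le_one (fun b => by split_ifs <;> simp)]
  by_cases hb : b.F = ∅
  · have h1 : b = Bs.vac := by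
      refine Bs.ext hb ?_
      have h2 := b.sub
      rw [hb] at h2
      exact Finset.subset_empty.1 h2
    rw [if_pos h1, if_pos hb, one_mul, h1]
  · have h1 : b ≠ Bs.vac := fun h => hb (by rw [h]; rfl)
    rw [if_neg h1, if_neg hb, zero_mul]

/-- `T_p² = (1 - Pv) Es(supp p)`. PROOF: `Es_comm_Cl`, `Es_mul_Es`, `Cl_mul_self`, `sum_uu_sq`, `Pv_eq`. -/
theorem Site.T_mul_T (e : I ↪ ℕ) (s : ℝ) (hs : 0 ≤ s) :
    H.T w e s hs * H.T w e s hs = (1 - cst Pv) * H.EP := by
  refine FB.ext fun p => ?_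
  have h1 : (dia (fun b : Bs I => ((∑ i ∈ b.F, H.uu w s p b.F i ^ 2 : ℝ) : ℂ)) : BL (Bs I)) =
      1 - Pv := by
    rw [Pv_eq]
    refine ContinuousLinearMap.ext fun ξ => ?_
    ext b
    have h2 : ∀ b : Bs I, ‖((∑ i ∈ b.F, H.uu w s p b.F i ^ 2 : ℝ) : ℂ)‖ ≤ 1 := fun b => by
      rw [H.sum_uu_sq w hs]
      split_ifs <;> simp
    have h3 : ((1 - dia (fun b : Bs I => if b.F = ∅ then (1 : ℂ) else 0) : BL (Bs I)) ξ :
        Bs I → ℂ) b = (ξ : Bs I → ℂ) b -
          (dia (fun b : Bs I => if b.F = ∅ then (1 : ℂ) else 0) ξ : Bs I → ℂ) b := rfl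
    rw [dia_apply zero_le_one h2, h3, dia_apply zero_le_one (fun b => by split_ifs <;> simp),
      H.sum_uu_sq w hs]
    split_ifs <;> simp
  have h4 : (Es (H.supp p) : BL (Bs I)) * Cl e (H.uu w s p) =
      Cl e (H.uu w s p) * Es (H.supp p) := Es_comm_Cl e (H.supp p) (H.CB_uu w hs p)
  have h5 : (Es (H.supp p) : BL (Bs I)) * Es (H.supp p) = Es (H.supp p) := Es_mul_Es _
  have h6 := Cl_mul_self e (H.CB_uu w hs p)
  simp only [FB.mul_apply, FB.sub_apply, FB.one_apply, cst_apply, Site.T_apply, Site.EP_apply]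
  rw [← h1, ← h6]
  calc Cl e (H.uu w s p) * Es (H.supp p) * (Cl e (H.uu w s p) * Es (H.supp p))
      = Cl e (H.uu w s p) * (Es (H.supp p) * Cl e (H.uu w s p)) * Es (H.supp p) := by
        simp only [mul_assoc]
    _ = Cl e (H.uu w s p) * (Cl e (H.uu w s p) * Es (H.supp p)) * Es (H.supp p) := by rw [h4]
    _ = Cl e (H.uu w s p) * Cl e (H.uu w s p) * (Es (H.supp p) * Es (H.supp p)) := by
        simp only [mul_assoc]
    _ = _ := by rw [h5]

end Pool.Agent.Lib.MP_aa9b81_an.Hs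
end
end

section

/-!
# Hereditary shifts, part E3c: relations of the operator `T`
-/

open scoped ENNReal Topology ZeroAtInfty
open Function Filter Set

noncomputable section

namespace Pool.Agent.Lib.MP_aa9b81_an.Hs

open Cut

variable {Γ P I : Type} [Group Γ] [TopologicalSpace P] [MulAction Γ P] [MulAction Γ I]
  [DecidableEq I] (H : Site Γ P I) (w : Wt Γ I)

/-- PROOF: as `Pm_mul_Pv`. -/
theorem Pp_mul_Pv : (Pp * Pv : BL (Bs I)) = Pv := by
  refine ContinuousLinearMap.ext fun ξ => ?_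
  ext b
  rw [ContinuousLinearMap.mul_apply, Pp_apply, Pv_eq,
    dia_apply zero_le_one (fun b => by split_ifs <;> simp)]
  by_cases hb : b.F = ∅
  · have hS : b.S = ∅ := Finset.subset_empty.1 (hb ▸ b.sub)
    simp [hS]
  · simp [hb]

/-- The conjugate of a multiplication operator. -/
private theorem E3c_conj_dia (e : I ↪ ℕ) {φ : Bs I → ℂ} {C : ℝ} (hC : 0 ≤ C)
    (h : ∀ b, ‖φ b‖ ≤ C) (g : Γ) :
    (sact e : SAct Γ (Bs I)).W g * dia φ * (sact e : SAct Γ (Bs I)).W g⁻¹ =
      dia (fun b => φ (g⁻¹ • b)) := by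
  rw [W_mul_dia e hC h g, mul_assoc, SAct.W_mul_inv, mul_one]

omit [DecidableEq I] [Group Γ] [MulAction Γ I] in
open Classical in
private theorem E3c_Es_eq (s : Set I) :
    (Es s : BL (Bs I)) = dia fun b => if (b.F : Set I) ⊆ s then 1 else 0 := by
  refine ContinuousLinearMap.ext fun ξ => ?_
  ext b
  rw [Es_apply, dia_apply zero_le_one (fun b => by split_ifs <;> simp)]
  split_ifs <;> simp

/-- PROOF: `W_g Es(s) W_{g⁻¹} = Es(g s)` (`W_mul_dia`, `W_mul_inv`), and `supp` is equivariant. -/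
theorem Site.Ad_EP (e : I ↪ ℕ) (g : Γ) : (sact e).Ad g H.EP = H.EP := by
  classical
  refine FB.ext fun p => ?_
  rw [SAct.Ad_apply, Site.EP_apply, Site.EP_apply, E3c_Es_eq, E3c_Es_eq,
    E3c_conj_dia e zero_le_one (fun b => by split_ifs <;> simp)]
  congr 1
  funext b
  have h1 : (((g⁻¹ • b).F : Finset I) : Set I) ⊆ H.supp (g⁻¹ • p) ↔ (b.F : Set I) ⊆ H.supp p := by
    constructor
    · intro h i hi
      have h2 : g⁻¹ • i ∈ ((g⁻¹ • b).F : Set I) := by
        rw [Bs.smul_F, Finset.mem_coe, mem_gF]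
        simpa using hi
      exact (H.mem_supp_smul g⁻¹ p i).1 (h h2)
    · intro h i hi
      rw [Bs.smul_F, Finset.mem_coe, mem_gF] at hi
      have h2 := h (Finset.mem_coe.2 hi)
      have h3 := (H.mem_supp_smul g⁻¹ p (g⁻¹⁻¹ • i)).2 h2
      simpa using h3
  simp only [h1]

/-- PROOF: `Pv_eq`, coordinates: `∅ ⊆ s`. -/
theorem Pv_mul_Es (s : Set I) : (Pv * Es s : BL (Bs I)) = Pv := by
  refine ContinuousLinearMap.ext fun ξ => ?_
  ext b
  rw [ContinuousLinearMap.mul_apply, Pv_eq,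
    dia_apply zero_le_one (fun b => by split_ifs <;> simp),
    dia_apply zero_le_one (fun b => by split_ifs <;> simp), Es_apply]
  by_cases hb : b.F = ∅
  · simp [hb]
  · simp [hb]

/-- PROOF: `Pv_eq`, `W_mul_dia`, `W_mul_inv`. -/
theorem Ad_Pv (e : I ↪ ℕ) (g : Γ) : (sact e).Ad g (cst Pv : FB (Bs I) P) = cst Pv := by
  refine FB.ext fun p => ?_
  rw [SAct.Ad_apply, cst_apply, cst_apply, Pv_eq,
    E3c_conj_dia e zero_le_one (fun b => by split_ifs <;> simp)]
  congr 1
  funext b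
  have h1 : (g⁻¹ • b).F = ∅ ↔ b.F = ∅ := by
    rw [Bs.smul_F, ← Finset.card_eq_zero, card_gF, Finset.card_eq_zero]
  simp only [h1]

/-- PROOF: `W_{g⁻¹} W_g = 1`. -/
theorem SAct.Ad_mul (E : SAct Γ (Bs I)) (g : Γ) (n n' : FB (Bs I) P) :
    E.Ad g (n * n') = E.Ad g n * E.Ad g n' := by
  refine FB.ext fun p => ?_
  simp only [SAct.Ad_apply, FB.mul_apply]
  have h1 := E.W_inv_mul g
  calc E.W g * (n (g⁻¹ • p) * n' (g⁻¹ • p)) * E.W g⁻¹
      = E.W g * n (g⁻¹ • p) * 1 * n' (g⁻¹ • p) * E.W g⁻¹ := by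
        rw [mul_one]; simp only [mul_assoc]
    _ = E.W g * n (g⁻¹ • p) * E.W g⁻¹ * (E.W g * n' (g⁻¹ • p) * E.W g⁻¹) := by
        rw [← h1]; simp only [mul_assoc]

/-- The family `p ↦ Cl(ug_p) Es(supp p)`. -/
def Site.Tg (e : I ↪ ℕ) (g : Γ) (s : ℝ) (hs : 0 ≤ s) : FB (Bs I) P :=
  FB.mk (fun p => Cl e (H.ug w g s p) * Es (H.supp p)) 1 fun p => by
    have h1 := norm_Cl_le e (H.CB_ug w g hs p)
    have h2 := norm_Es_le (H.supp p)
    have h3 := norm_nonneg (Cl e (H.ug w g s p))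
    have h4 := norm_nonneg (Es (H.supp p) : BL (Bs I))
    exact (norm_mul_le _ _).trans (by nlinarith)

@[simp] lemma Site.Tg_apply (e : I ↪ ℕ) (g : Γ) (s : ℝ) (hs : 0 ≤ s) (p : P) :
    H.Tg w e g s hs p = Cl e (H.ug w g s p) * Es (H.supp p) := rfl

end Pool.Agent.Lib.MP_aa9b81_an.Hs
end
end

section

/-!
# Hereditary shifts, part E3d: relations of the operator `T`
-/

open scoped ENNReal Topology ZeroAtInfty
open Function Filter Set

noncomputable section

namespace Pool.Agent.Lib.MP_aa9b81_an.Hs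

open Cut

variable {Γ P I : Type} [Group Γ] [TopologicalSpace P] [MulAction Γ P] [MulAction Γ I]
  [DecidableEq I] (H : Site Γ P I) (w : Wt Γ I)

/-- PROOF: `W_mul_Cl` at `g⁻¹ p`, `W_g Es W_{g⁻¹} = Es(g ·)`. -/
theorem Site.Ad_T (e : I ↪ ℕ) (g : Γ) (s : ℝ) (hs : 0 ≤ s) :
    (sact e).Ad g (H.T w e s hs) = H.Tg w e g s hs := by
  refine FB.ext fun p => ?_
  have h1 := W_mul_Cl e (H.CB_uu w hs (g⁻¹ • p)) g
  have h2 : (sact e).Ad g H.EP p = H.EP p := by rw [H.Ad_EP e g]
  rw [SAct.Ad_apply, Site.EP_apply, Site.EP_apply] at h2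
  rw [SAct.Ad_apply, Site.T_apply, Site.Tg_apply, ← mul_assoc, h1, mul_assoc, mul_assoc,
    ← mul_assoc ((sact e : SAct Γ (Bs I)).W g), h2]
  rfl

open Classical in
/-- The matrix entries of a Clifford operator. PROOF: `Cl_apply` for `ξ = bv b'`. -/
theorem ker_Cl (e : I ↪ ℕ) {a : Finset I → I → ℝ} {C : ℝ} (h : CB a C) (b b' : Bs I) :
    ker (Cl e a) b b' =
      ∑ i ∈ b.F, (a b.F i : ℂ) * (th e i b.S * if b' = tog i b then 1 else 0) := by
  rw [ker, Cl_apply e h, clF]
  refine Finset.sum_congr rfl fun i _ => ?_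
  congr 2
  rw [bv, lp.single_apply]
  by_cases hb : b' = tog i b
  · subst hb
    simp
  · have hb' : tog i b ≠ b' := fun h' => hb h'.symm
    simp [hb, hb']

end Pool.Agent.Lib.MP_aa9b81_an.Hs
end
end

section

/-!
# Hereditary shifts, part E3: relations of the operator `T`
-/

open scoped ENNReal Topology ZeroAtInfty
open Function Filter Set

noncomputable section

namespace Pool.Agent.Lib.MP_aa9b81_an.Hs

open Cut

variable {Γ P I : Type} [Group Γ] [TopologicalSpace P] [MulAction Γ P] [MulAction Γ I]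
  [DecidableEq I] (H : Site Γ P I) (w : Wt Γ I)

omit [DecidableEq I] in
open Classical in
/-- Coordinates of a basis vector. -/
private theorem E3_bv_apply (b b' : Bs I) : (bv b' : Bs I → ℂ) b = if b = b' then 1 else 0 := by
  rw [bv, lp.single_apply]
  by_cases hb : b = b'
  · subst hb
    simp
  · simp [hb]

omit [DecidableEq I] in
open Classical in
private theorem E3_Es_bv (s : Set I) (b' : Bs I) :
    Es s (bv b') = if (b'.F : Set I) ⊆ s then bv b' else 0 := by
  ext b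
  rw [Es_apply]
  by_cases h : (b'.F : Set I) ⊆ s
  · rw [if_pos h]
    by_cases hb : b = b'
    · subst hb
      rw [if_pos h]
    · rw [E3_bv_apply, if_neg hb]
      simp
  · rw [if_neg h]
    by_cases hb : b = b'
    · subst hb
      rw [if_neg h]
      simp
    · rw [E3_bv_apply, if_neg hb]
      simp

open Classical in
private theorem E3_ker_T (e : I ↪ ℕ) (s : ℝ) (hs : 0 ≤ s) (b b' : Bs I) (p : P) :
    ker (H.T w e s hs p) b b' = if (b'.F : Set I) ⊆ H.supp p then
      ∑ i ∈ b.F, (H.uu w s p b.F i : ℂ) * (th e i b.S * if b' = tog i b then 1 else 0) else 0 := by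
  rw [← ker_Cl e (H.CB_uu w hs p) b b', Site.T_apply, ker, ContinuousLinearMap.mul_apply, E3_Es_bv]
  split_ifs
  · rfl
  · simp

omit [Group Γ] [MulAction Γ I] in
private theorem E3_tog_F {i : I} {b : Bs I} (h : i ∈ b.F) : (tog i b).F = b.F := (tog_of_mem h).1

private theorem E3_tog_tog {i : I} {b : Bs I} (h : i ∈ b.F) : tog i (tog i b) = b := by
  have h1 := tog_of_mem h
  have h2 : i ∈ (tog i b).F := by rw [h1.1]; exact h
  have h3 := tog_of_mem h2
  exact Bs.ext (h3.1.trans h1.1) (by rw [h3.2, h1.2, tg_tg])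

private theorem E3_ker_T_ne (e : I ↪ ℕ) (s : ℝ) (hs : 0 ≤ s) (b b' : Bs I) (p : P)
    (h : ker (H.T w e s hs p) b b' ≠ 0) : ∃ i ∈ b.F, b' = tog i b := by
  classical
  by_contra hne
  push Not at hne
  refine h ?_
  rw [E3_ker_T]
  split_ifs
  · refine Finset.sum_eq_zero fun i hi => ?_
    rw [if_neg (hne i hi), mul_zero, mul_zero]
  · rfl

private theorem E3_cont (e : I ↪ ℕ) (s : ℝ) (hs : 0 ≤ s) (b b' : Bs I) :
    ContinuousOn (fun p => ker (H.T w e s hs p) b b') (H.U b) := by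
  classical
  by_cases hex : ∃ i ∈ b.F, b' = tog i b
  · obtain ⟨i, hi, hb'⟩ := hex
    have hF : b'.F = b.F := by rw [hb']; exact E3_tog_F hi
    have h1 : ContinuousOn (fun p => ∑ i ∈ b.F, (H.uu w s p b.F i : ℂ) *
        (th e i b.S * if b' = tog i b then 1 else 0)) (H.U b) := by
      refine continuousOn_finsetSum _ fun j hj => ?_
      refine ContinuousOn.mul ?_ continuousOn_const
      refine Complex.continuous_ofReal.comp_continuousOn ?_
      refine (H.continuousOn_uu w hs b.F j).mono ?_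
      intro p hp
      have hp' : (b.F : Set I) ⊆ H.supp p := hp
      exact Set.insert_subset (hp' (Finset.mem_coe.2 hj)) hp'
    refine h1.congr fun p hp => ?_
    have hp' : (b'.F : Set I) ⊆ H.supp p := by rw [hF]; exact hp
    rw [E3_ker_T, if_pos hp']
  · have h0 : (fun p => ker (H.T w e s hs p) b b') = fun _ => 0 := by
      funext p
      by_contra hne
      exact hex (E3_ker_T_ne H w e s hs b b' p hne)
    rw [h0]
    exact continuousOn_const

/-- PROOF: `ker_Cl`; the row of `b` is supported in the finite set of the `tog i b`, `i ∈ b.F`; the column of `b'` as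
well (`b' = tog i b ↔ b = tog i b'` for `i ∈ b.F = b'.F`); both blocks are the same, so `U b = U b'`; the entries are
`[p ∈ U b]` times the entries of `ker_Cl`, and the coefficients `uu w s p F i`, `i ∈ F`, are continuous on `U b`
(`continuousOn_uu`). -/
theorem Site.Mlt_T (e : I ↪ ℕ) (s : ℝ) (hs : 0 ≤ s) : Mlt H.U (H.T w e s hs) := by
  classical
  refine ⟨fun b => ⟨b.F.image fun i => tog i b, fun p b' hb' => ?_⟩,
    fun b' => ⟨b'.F.image fun i => tog i b', fun p b hb => ?_⟩, fun b b' => E3_cont H w e s hs b b',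
    fun b b' => ?_, fun b b' p h => ?_⟩
  · by_contra hne
    obtain ⟨i, hi, h⟩ := E3_ker_T_ne H w e s hs b b' p hne
    exact hb' (Finset.mem_image.2 ⟨i, hi, h.symm⟩)
  · by_contra hne
    obtain ⟨i, hi, h⟩ := E3_ker_T_ne H w e s hs b b' p hne
    have hi' : i ∈ b'.F := by rw [h, E3_tog_F hi]; exact hi
    exact hb (Finset.mem_image.2 ⟨i, hi', by rw [h, E3_tog_tog hi]⟩)
  · by_cases hF : b'.F = b.F
    · have hU : H.U b' = H.U b := by
        unfold Site.U
        rw [hF]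
      rw [hU]
      exact E3_cont H w e s hs b b'
    · have h0 : (fun p => ker (H.T w e s hs p) b b') = fun _ => 0 := by
        funext p
        by_contra hne
        obtain ⟨i, hi, h⟩ := E3_ker_T_ne H w e s hs b b' p hne
        exact hF (by rw [h, E3_tog_F hi])
      rw [h0]
      exact continuousOn_const
  · obtain ⟨i, hi, h⟩ := E3_ker_T_ne H w e s hs b b' p h
    have hF : b'.F = b.F := by rw [h, E3_tog_F hi]
    unfold Site.U
    rw [Set.mem_setOf_eq, Set.mem_setOf_eq, hF]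

omit [DecidableEq I] in
open Classical in
private theorem E3_Mlt_diag (X : BL (Bs I)) (φ : Bs I → ℂ)
    (hX : ∀ b b' : Bs I, ker X b b' = if b = b' then φ b else 0) :
    Mlt H.U (cst X : FB (Bs I) P) := by
  have h1 : ∀ (b b' : Bs I) (p : P), ker ((cst X : FB (Bs I) P) p) b b' =
      if b = b' then φ b else 0 := fun b b' p => by rw [cst_apply, hX]
  refine ⟨fun b => ⟨{b}, fun p b' hb' => ?_⟩, fun b' => ⟨{b'}, fun p b hb => ?_⟩, fun b b' => ?_,
    fun b b' => ?_, fun b b' p h => ?_⟩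
  · rw [h1, if_neg]
    exact fun h => hb' (Finset.mem_singleton.2 h.symm)
  · rw [h1, if_neg]
    exact fun h => hb (Finset.mem_singleton.2 h)
  · exact continuousOn_const.congr fun p _ => h1 b b' p
  · exact continuousOn_const.congr fun p _ => h1 b b' p
  · rw [h1] at h
    by_cases hb : b = b'
    · rw [hb]
    · exact absurd (if_neg hb) h

/-- PROOF: the matrix entries of `Pp` are `[b = b'] [|S| even]`. -/
theorem Site.Mlt_Pp : Mlt H.U (cst Pp : FB (Bs I) P) := by
  classical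
  refine E3_Mlt_diag H Pp (fun b => if Even b.S.card then 1 else 0) fun b b' => ?_
  rw [ker, Pp_apply, E3_bv_apply]
  split_ifs <;> rfl

/-- PROOF: as `Mlt_Pp`. -/
theorem Site.Mlt_Pm : Mlt H.U (cst Pm : FB (Bs I) P) := by
  classical
  refine E3_Mlt_diag H Pm (fun b => if Even b.S.card then 0 else 1) fun b b' => ?_
  rw [ker, Pm_apply, E3_bv_apply]
  split_ifs <;> rfl

end Pool.Agent.Lib.MP_aa9b81_an.Hs
end
end

section

/-!
# Hereditary shifts, part E4c: the rotated projections times functions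
-/

open scoped ENNReal Topology ZeroAtInfty
open Function Filter Set

noncomputable section

namespace Pool.Agent.Lib.MP_aa9b81_an.Hs

open Cut

variable {Γ P I : Type} [Group Γ] [TopologicalSpace P] [MulAction Γ P] [MulAction Γ I]
  [DecidableEq I] (H : Site Γ P I) (w : Wt Γ I)

/-- The cut-off function. -/
private def E4c_chi (L : Finset I) (δ : ℝ) (p : P) : ℝ := ∏ i ∈ L, min 1 (H.hh p i / δ)

private lemma E4c_cont (L : Finset I) (δ : ℝ) : Continuous (E4c_chi H L δ) := by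
  unfold E4c_chi
  exact continuous_finsetProd _ fun i _ => continuous_const.min ((H.cont i).div_const δ)

private lemma E4c_nonneg (L : Finset I) {δ : ℝ} (hδ : 0 < δ) (p : P) : 0 ≤ E4c_chi H L δ p :=
  Finset.prod_nonneg fun i _ => le_min zero_le_one (div_nonneg (H.nonneg p i) hδ.le)

private lemma E4c_le (L : Finset I) {δ : ℝ} (hδ : 0 < δ) (p : P) : E4c_chi H L δ p ≤ 1 :=
  Finset.prod_le_one (fun i _ => le_min zero_le_one (div_nonneg (H.nonneg p i) hδ.le))
    fun i _ => min_le_left _ _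

private lemma E4c_supp (L : Finset I) {δ : ℝ} (hδ : 0 < δ) {p : P} (h : E4c_chi H L δ p ≠ 0) :
    ∀ i ∈ L, i ∈ H.supp p := by
  intro i hi
  have h1 : min 1 (H.hh p i / δ) ≠ 0 := by
    intro h0
    exact h (Finset.prod_eq_zero hi h0)
  by_contra h2
  have h3 : H.hh p i = 0 := by
    have h4 : ¬ (0 < H.hh p i) := h2
    exact le_antisymm (not_lt.1 h4) (H.nonneg p i)
  rw [h3, zero_div] at h1
  exact h1 (min_eq_right zero_le_one)

private lemma E4c_one (L : Finset I) {δ : ℝ} (hδ : 0 < δ) {p : P} (h : ∀ i ∈ L, δ ≤ H.hh p i) :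
    E4c_chi H L δ p = 1 :=
  Finset.prod_eq_one fun i hi => min_eq_left ((one_le_div hδ).2 (h i hi))

omit [DecidableEq I] in
open Classical in
private lemma E4c_bv (b' : Bs I) (a : Bs I) :
    ((bv b' : L2 (Bs I)) : Bs I → ℂ) a = if a = b' then 1 else 0 := by
  unfold bv
  by_cases h : a = b'
  · subst h
    simp
  · simp [h]

omit [DecidableEq I] in
private lemma E4c_Es_bv (s : Set I) (b' : Bs I) :
    (Es s (bv b') : L2 (Bs I)) = (haveI := Classical.dec ((b'.F : Set I) ⊆ s)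
      (if (b'.F : Set I) ⊆ s then (1 : ℂ) else 0)) • bv b' := by
  classical
  ext a
  rw [Es_apply]
  rw [lp.coeFn_smul, Pi.smul_apply, E4c_bv]
  by_cases h : a = b'
  · subst h
    by_cases h1 : (a.F : Set I) ⊆ s <;> simp [h1]
  · simp [h]

omit [DecidableEq I] in
private lemma E4c_ker (X : BL (Bs I)) (s : Set I) (b b' : Bs I) :
    ker (X * Es s) b b' = (haveI := Classical.dec ((b'.F : Set I) ⊆ s)
      (if (b'.F : Set I) ⊆ s then (1 : ℂ) else 0)) * ker X b b' := by
  have h0 : (X * Es s) (bv b') = X (Es s (bv b')) := rfl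
  unfold ker
  rw [h0, E4c_Es_bv, map_smul, lp.coeFn_smul, Pi.smul_apply, smul_eq_mul]

omit [DecidableEq I] in
private lemma E4c_ker_smul (c : ℂ) (X : BL (Bs I)) (b b' : Bs I) :
    ker (c • X) b b' = c * ker X b b' := by
  unfold ker
  have h0 : (c • X) (bv b') = c • X (bv b') := rfl
  rw [h0, lp.coeFn_smul, Pi.smul_apply, smul_eq_mul]

/-- The multiplier. -/
private def E4c_D (L : Finset I) (φ : ℝ) {δ : ℝ} (hδ : 0 < δ) : FB (Bs I) P :=
  FB.mk (fun p => ((E4c_chi H L δ p : ℝ) : ℂ) • (Sp L φ * Es (H.supp p))) 1 fun p => by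
    have h1 := norm_Sp_le L φ
    have h2 := norm_Es_le (H.supp p)
    have h3 := norm_nonneg (Sp L φ)
    have h4 := norm_nonneg (Es (H.supp p) : BL (Bs I))
    have h5 : ‖Sp L φ * Es (H.supp p)‖ ≤ 1 := (norm_mul_le _ _).trans (by nlinarith)
    have h6 : ‖((E4c_chi H L δ p : ℝ) : ℂ)‖ ≤ 1 := by
      rw [Complex.norm_real, Real.norm_eq_abs, abs_of_nonneg (E4c_nonneg H L hδ p)]
      exact E4c_le H L hδ p
    rw [norm_smul]
    calc ‖((E4c_chi H L δ p : ℝ) : ℂ)‖ * ‖Sp L φ * Es (H.supp p)‖ ≤ 1 * 1 :=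
          mul_le_mul h6 h5 (norm_nonneg _) zero_le_one
      _ = 1 := mul_one _

private lemma E4c_D_apply (L : Finset I) (φ : ℝ) {δ : ℝ} (hδ : 0 < δ) (p : P) :
    E4c_D H L φ hδ p = ((E4c_chi H L δ p : ℝ) : ℂ) • (Sp L φ * Es (H.supp p)) := rfl

private lemma E4c_kerD (L : Finset I) (φ : ℝ) {δ : ℝ} (hδ : 0 < δ) (p : P) (b b' : Bs I) :
    ker (E4c_D H L φ hδ p) b b' = ((E4c_chi H L δ p : ℝ) : ℂ) *
      ((haveI := Classical.dec ((b'.F : Set I) ⊆ H.supp p)
      (if (b'.F : Set I) ⊆ H.supp p then (1 : ℂ) else 0)) * ker (Sp L φ) b b') := by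
  rw [E4c_D_apply, E4c_ker_smul, E4c_ker]

/-- Same support. -/
private lemma E4c_iff {s : Set I} {L : Finset I} (hL : ∀ i ∈ L, i ∈ s) {b b' : Bs I}
    (h : b'.F \ L = b.F \ L) : ((b.F : Set I) ⊆ s ↔ (b'.F : Set I) ⊆ s) := by
  have key : ∀ {c c' : Bs I}, c'.F \ L = c.F \ L → (c.F : Set I) ⊆ s → (c'.F : Set I) ⊆ s := by
    intro c c' hc h1 i hi
    by_cases hiL : i ∈ L
    · exact hL i hiL
    · have h2 : i ∈ c'.F \ L := Finset.mem_sdiff.2 ⟨hi, hiL⟩
      rw [hc] at h2
      exact h1 (Finset.mem_sdiff.1 h2).1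
  exact ⟨key h, key h.symm⟩

/-- The family `p ↦ χ(p) Sp(L, φ) Es(supp p)`, with `χ(p) = ∏_{i ∈ L} min(1, hh p i / δ)`: a multiplier, equal to
`Sp(L, φ) Es(supp p)` where all the `hh p i ≥ δ`. PROOF: take `D p = χ(p) • (Sp L φ * Es (supp p))`; `χ` is continuous,
`χ(p) ≠ 0` implies `L ⊆ supp p`: as `Mlt_nf`. `f(p) Sp Es = f(p) χ(p) Sp Es` because `χ = 1` where `f ≠ 0`. -/
theorem Site.exists_mlt {f : C₀(P, ℂ)} {L : Finset I} {δ : ℝ} (h : H.Ex L δ f) (φ : ℝ) :
    ∃ D : FB (Bs I) P, Mlt H.U D ∧ ∀ p, f p ≠ 0 → D p = Sp L φ * Es (H.supp p) := by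
  classical
  have hδ := h.pos
  have hcont : ∀ b b' : Bs I, Continuous fun p => ((E4c_chi H L δ p : ℝ) : ℂ) * ker (Sp L φ) b b' :=
    fun b b' => (Complex.continuous_ofReal.comp (E4c_cont H L δ)).mul continuous_const
  -- the entry on `U b'`
  have hU' : ∀ b b' : Bs I, ∀ p ∈ H.U b',
      ker (E4c_D H L φ hδ p) b b' = ((E4c_chi H L δ p : ℝ) : ℂ) * ker (Sp L φ) b b' := by
    intro b b' p hp
    have hp' : (b'.F : Set I) ⊆ H.supp p := hp
    rw [E4c_kerD, if_pos hp', one_mul]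
  have hU : ∀ b b' : Bs I, ∀ p ∈ H.U b,
      ker (E4c_D H L φ hδ p) b b' = ((E4c_chi H L δ p : ℝ) : ℂ) * ker (Sp L φ) b b' := by
    intro b b' p hp
    have hp' : (b.F : Set I) ⊆ H.supp p := hp
    rw [E4c_kerD]
    by_cases h1 : E4c_chi H L δ p = 0
    · rw [h1]
      simp
    · by_cases h2 : ker (Sp L φ) b b' = 0
      · rw [h2]
        simp
      · have h3 := (ker_Sp_supp L φ b b' h2).2
        have h4 := (E4c_iff (E4c_supp H L hδ h1) h3).1 hp'
        rw [if_pos h4, one_mul]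
  refine ⟨E4c_D H L φ hδ, ⟨?_, ?_, ?_, ?_, ?_⟩, ?_⟩
  · intro b
    refine ⟨(finite_supp L b).toFinset, fun p b' hb' => ?_⟩
    rw [E4c_kerD]
    have h2 : ker (Sp L φ) b b' = 0 := by
      by_contra h3
      exact hb' ((finite_supp L b).mem_toFinset.2 (ker_Sp_supp L φ b b' h3))
    rw [h2]
    simp
  · intro b'
    refine ⟨(finite_supp L b').toFinset, fun p b hb => ?_⟩
    rw [E4c_kerD]
    have h2 : ker (Sp L φ) b b' = 0 := by
      by_contra h3
      have h4 := ker_Sp_supp L φ b b' h3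
      exact hb ((finite_supp L b').mem_toFinset.2 ⟨h4.1.symm, h4.2.symm⟩)
    rw [h2]
    simp
  · intro b b'
    exact (hcont b b').continuousOn.congr (hU b b')
  · intro b b'
    exact (hcont b b').continuousOn.congr (hU' b b')
  · intro b b' p hne
    rw [E4c_kerD] at hne
    have h1 : E4c_chi H L δ p ≠ 0 := by
      intro h0
      rw [h0] at hne
      simp at hne
    have h2 : ker (Sp L φ) b b' ≠ 0 := by
      intro h0
      rw [h0] at hne
      simp at hne
    exact E4c_iff (E4c_supp H L hδ h1) (ker_Sp_supp L φ b b' h2).2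
  · intro p hp
    rw [E4c_D_apply, E4c_one H L hδ (h.le p hp), Complex.ofReal_one, one_smul]

end Pool.Agent.Lib.MP_aa9b81_an.Hs
end
end

section

/-!
# Hereditary shifts, part E4b: the rotated projections times functions
-/

open scoped ENNReal Topology ZeroAtInfty
open Function Filter Set

noncomputable section

namespace Pool.Agent.Lib.MP_aa9b81_an.Hs

open Cut

variable {Γ P I : Type} [Group Γ] [TopologicalSpace P] [MulAction Γ P] [MulAction Γ I]
  [DecidableEq I] (H : Site Γ P I) (w : Wt Γ I)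

open Classical in
private theorem E4b_ker {f : C₀(P, ℂ)} {L : Finset I} (φ : ℝ) (b b' : Bs I) (p : P) :
    ker (H.nf f L φ p) b b'
      = f p * (if (b'.F : Set I) ⊆ H.supp p then ker (Sp L φ) b b' else 0) := by
  have h1 : Es (H.supp p) (bv b') = if (b'.F : Set I) ⊆ H.supp p then bv b' else 0 := by
    ext a
    rw [Es_apply]
    by_cases hab : a = b'
    · subst hab
      split_ifs <;> simp
    · have h2 : (bv b' : Bs I → ℂ) a = 0 := by
        unfold bv
        rw [lp.single_apply_ne]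
        exact hab
      split_ifs <;> simp [h2]
  unfold ker
  rw [Site.nf_apply, smul_apply, mul_apply_eq_comp, h1]
  split_ifs with hc
  · rfl
  · rw [map_zero]
    simp

private theorem E4b_L {f : C₀(P, ℂ)} {L : Finset I} {δ : ℝ} (h : H.Ex L δ f) {b b' : Bs I} {p : P}
    (hf : f p ≠ 0) (hL : b'.F \ L = b.F \ L) : p ∈ H.U b → p ∈ H.U b' := by
  intro hb i hi
  by_cases hiL : i ∈ L
  · exact lt_of_lt_of_le h.pos (h.le p hf i hiL)
  · have h1 : i ∈ b'.F \ L := Finset.mem_sdiff.mpr ⟨hi, hiL⟩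
    rw [hL] at h1
    exact hb (Finset.mem_sdiff.mp h1).1

/-- PROOF: `ker (f(p) Sp Es) b b' = f(p) ker Sp b b' [b'.F ⊆ supp p]`. Rows and columns: `ker_Sp_supp`, `finite_supp`. If
`f p ≠ 0` then `L ⊆ supp p`, so if `ker Sp b b' ≠ 0` then `b.F ⊆ supp p ↔ b'.F ⊆ supp p`: this gives `supp`, and that on
`U b` and on `U b'` the entry is equal to `f(p) ker Sp b b'` (also where `f p = 0`): continuous. -/
theorem Site.Mlt_nf {f : C₀(P, ℂ)} {L : Finset I} {δ : ℝ} (h : H.Ex L δ f) (φ : ℝ) :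
    Mlt H.U (H.nf f L φ) := by
  classical
  constructor
  · intro b
    refine ⟨(finite_supp L b).toFinset, fun p b' hb' => ?_⟩
    rw [E4b_ker]
    have h1 : ker (Sp L φ) b b' = 0 := by
      by_contra hcon
      exact hb' ((Set.Finite.mem_toFinset _).mpr (ker_Sp_supp L φ b b' hcon))
    rw [h1]
    simp
  · intro b'
    refine ⟨(finite_supp L b').toFinset, fun p b hb => ?_⟩
    rw [E4b_ker]
    have h1 : ker (Sp L φ) b b' = 0 := by
      by_contra hcon
      have h2 := ker_Sp_supp L φ b b' hcon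
      exact hb ((Set.Finite.mem_toFinset _).mpr ⟨h2.1.symm, h2.2.symm⟩)
    rw [h1]
    simp
  · intro b b'
    have h1 : ContinuousOn (fun p => f p * ker (Sp L φ) b b') (H.U b) :=
      (f.continuous.mul continuous_const).continuousOn
    refine h1.congr fun p hp => ?_
    rw [E4b_ker]
    by_cases h2 : ker (Sp L φ) b b' = 0
    · rw [h2]; simp
    by_cases hf : f p = 0
    · rw [hf, zero_mul]
      exact (mul_eq_zero_of_left hf _).symm
    · have h3 : (b'.F : Set I) ⊆ H.supp p := E4b_L H h hf (ker_Sp_supp L φ b b' h2).2 hp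
      rw [if_pos h3]
  · intro b b'
    have h1 : ContinuousOn (fun p => f p * ker (Sp L φ) b b') (H.U b') :=
      (f.continuous.mul continuous_const).continuousOn
    refine h1.congr fun p hp => ?_
    have h3 : (b'.F : Set I) ⊆ H.supp p := hp
    rw [E4b_ker, if_pos h3]
  · intro b b' p hne
    rw [E4b_ker] at hne
    have hf : f p ≠ 0 := left_ne_zero_of_mul hne
    have h2 := right_ne_zero_of_mul hne
    have h3 : (b'.F : Set I) ⊆ H.supp p := by
      by_contra hcon
      rw [if_neg hcon] at h2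
      exact h2 rfl
    rw [if_pos h3] at h2
    have h4 := (ker_Sp_supp L φ b b' h2).2
    exact ⟨E4b_L H h hf h4, E4b_L H h hf h4.symm⟩

/-- The family `p ↦ f(p) 1`. -/
def sc (f : C₀(P, ℂ)) : FB (Bs I) P :=
  FB.mk (fun p => f p • 1) ‖f‖ fun p => by
    have h6 := f.toBCF.norm_coe_le_norm p
    rw [norm_smul, norm_one, mul_one]
    exact h6

@[simp] lemma sc_apply (f : C₀(P, ℂ)) (p : P) : (sc f : FB (Bs I) P) p = f p • 1 := rfl

end Pool.Agent.Lib.MP_aa9b81_an.Hs
end
end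

section

/-!
# Hereditary shifts, part T0: the rotated representations, finite stages
-/

open scoped ENNReal Topology ZeroAtInfty
open Function Filter Set

noncomputable section

namespace Pool.Agent.Lib.MP_aa9b81_an.Hs

open Cut

variable {Γ Z I A : Type} [Group Γ] [MulAction Γ I] [MulAction Γ Z] [TopologicalSpace Z]
    [TopologicalSpace A] {a₀ : A} [DecidableEq I] (Y : Hered Γ Z I A a₀)

/-- PROOF: `psi_gen` (for `Pi0 Y`), `dgf_pi0`. -/
theorem psi_pi0_gen (c : ℕ × Bs I ≃ ℕ) (e : I ↪ ℕ) {h : Ht A a₀} {L : Finset I} {δ : ℝ}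
    {f : C₀(Y.St, ℂ)} (hf : ExF Y h L δ f) (g : Γ) (i j : ℕ) :
    psi c (sact e) Y.pi0 (gen f g i j) = cov c (sact e) g i j ((Y.site h).nf f L 0) := by
  rw [← dgf_pi0 Y hf]
  exact psi_gen c (sact e) (Pi0 Y) f g i j

/-- PROOF: as `psi_pi0_gen`, with `Pi1 Y`, `dgf_pi1`. -/
theorem psi_pi1_gen (c : ℕ × Bs I ≃ ℕ) (e : I ↪ ℕ) {h : Ht A a₀} {L : Finset I} {δ : ℝ}
    {f : C₀(Y.St, ℂ)} (hf : ExF Y h L δ f) (g : Γ) (i j : ℕ) :
    psi c (sact e) Y.pi1 (gen f g i j) = cov c (sact e) g i j ((Y.site h).nf f L (Real.pi / 2)) := by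
  rw [← dgf_pi1 Y hf]
  exact psi_gen c (sact e) (Pi1 Y) f g i j

end Pool.Agent.Lib.MP_aa9b81_an.Hs
end
end
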