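import Pool.Agent.Lib.MP_aa9b81_an.Mg.G002
import Pool.Agent.Lib.MP_aa9b81_an.Mg.G073
import Pool.Agent.Lib.MP_aa9b81_an.Mg.G079
import Pool.Agent.Lib.MP_aa9b81_an.Mg.G001
import Pool.Agent.Lib.MP_aa9b81_an.Mg.G005

section

/-!
# Hereditary shifts, part F1c: the space of nonzero configurations
-/

open scoped ENNReal Topology ZeroAtInfty
open Function Filter Set

noncomputable section

namespace Pool.Agent.Lib.MP_aa9b81_an.Hs

open Cut

variable {Γ Z I A : Type} [Group Γ] [MulAction Γ I] [MulAction Γ Z] [TopologicalSpace Z]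
    [TopologicalSpace A] {a₀ : A} (Y : Hered Γ Z I A a₀)

private lemma F1c_cutP_iff (J : Set I) (x x' : Y.St) :
    Y.cutP J x = some x' ↔ x'.1 = (Y.z x, cut a₀ J (Y.y x)) := by
  unfold Hered.cutP
  constructor
  · intro h
    split_ifs at h with h1
    have h2 := Option.some.inj h
    rw [← h2]
  · intro h
    have h1 : ∃ i ∈ J, Y.y x i ≠ a₀ := by
      obtain ⟨i, hi⟩ := x'.2.2
      rw [h] at hi
      by_cases hJ : i ∈ J
      · refine ⟨i, hJ, ?_⟩
        rwa [show (Y.z x, cut a₀ J (Y.y x)).2 i = Y.y x i from cut_of_mem _ hJ] at hi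
      · exact absurd (cut_of_notMem _ hJ) hi
    rw [dif_pos h1]
    exact congrArg some (Subtype.ext h.symm)

private lemma F1c_cutP_none (J : Set I) (x : Y.St) (h : ¬ ∃ i ∈ J, Y.y x i ≠ a₀) :
    Y.cutP J x = none := by
  unfold Hered.cutP
  rw [dif_neg h]

private lemma F1c_compact {X : Type} [TopologicalSpace X] (f : C₀(X, ℂ)) {ε : ℝ} (hε : 0 < ε) :
    IsCompact {x | ε ≤ ‖f x‖} := by
  have h1 : ∀ᶠ x in cocompact X, ‖f x‖ < ε := by
    have h2 := f.zero_at_infty'
    rw [tendsto_zero_iff_norm_tendsto_zero] at h2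
    exact h2.eventually (gt_mem_nhds hε)
  obtain ⟨K, hKc, hKs⟩ := mem_cocompact.1 h1
  refine hKc.of_isClosed_subset (isClosed_le continuous_const f.continuous.norm) ?_
  intro z hz
  by_contra hzK
  have h3 : ‖f z‖ < ε := hKs hzK
  have h4 : ε ≤ ‖f z‖ := hz
  linarith

private lemma F1c_mkC0 {X : Type} [TopologicalSpace X] [T2Space X] (G : X → ℂ)
    (h1 : ∀ ε : ℝ, 0 < ε → IsCompact {x | ε ≤ ‖G x‖}) (h2 : ∀ x, G x ≠ 0 → ContinuousAt G x) :
    ∃ F : C₀(X, ℂ), ∀ x, F x = G x := by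
  have h3 : Continuous G := by
    rw [continuous_iff_continuousAt]
    intro x
    by_cases hx : G x = 0
    · rw [ContinuousAt, hx, Metric.tendsto_nhds]
      intro ε hε
      have h4 : {x | ε ≤ ‖G x‖}ᶜ ∈ 𝓝 x := by
        refine (h1 ε hε).isClosed.isOpen_compl.mem_nhds ?_
        intro h5
        have h6 : ε ≤ ‖G x‖ := h5
        rw [hx, norm_zero] at h6
        linarith
      refine Filter.mem_of_superset h4 fun y hy => ?_
      have h5 : ¬ ε ≤ ‖G y‖ := hy
      change dist (G y) 0 < ε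
      rw [dist_zero_right]
      exact not_le.1 h5
    · exact h2 x hx
  refine ⟨⟨⟨G, h3⟩, ?_⟩, fun x => rfl⟩
  change Tendsto G (cocompact X) (𝓝 0)
  rw [Metric.tendsto_nhds]
  intro ε hε
  refine mem_cocompact.2 ⟨_, h1 ε hε, fun y hy => ?_⟩
  have h5 : ¬ ε ≤ ‖G y‖ := hy
  change dist (G y) 0 < ε
  rw [dist_zero_right]
  exact not_le.1 h5

/-- PROOF: `G x = optf f (cutP J x)`. For `ε > 0` the set `{ε ≤ ‖G‖}` is the set of `isCompact_cutP` for the compact set
`K = {ε ≤ ‖f‖}`, so compact and closed. So `G` is continuous where it vanishes and vanishes at infinity. At a point `x` with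
`cutP J x = some x'`: the set `{x | ∃ i ∈ J, y x i ≠ a₀}` is open, and there `x ↦ x'` is continuous (`continuous_cut`). -/
theorem exists_C0_cut [T2Space Z] [T2Space A] [CompactSpace A] (J : Set I) (f : C₀(Y.St, ℂ)) :
    ∃ G : C₀(Y.St, ℂ), ∀ x, G x = optf f (Y.cutP J x) := by
  refine F1c_mkC0 _ (fun ε hε => ?_) fun x hx => ?_
  · have h1 : {x | ε ≤ ‖optf f (Y.cutP J x)‖} =
        {x : Y.St | ∃ x' ∈ {x' | ε ≤ ‖f x'‖}, Y.cutP J x = some x'} := by
      ext x
      constructor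
      · intro hx
        have hx' : ε ≤ ‖optf f (Y.cutP J x)‖ := hx
        cases h2 : Y.cutP J x with
        | none =>
          rw [h2, optf_none, norm_zero] at hx'
          linarith
        | some x' =>
          rw [h2, optf_some] at hx'
          exact ⟨x', hx', h2⟩
      · rintro ⟨x', hx', h2⟩
        change ε ≤ ‖optf f (Y.cutP J x)‖
        rw [h2, optf_some]
        exact hx'
    rw [h1]
    exact isCompact_cutP Y J (F1c_compact f hε)
  · have h1 : ∃ i ∈ J, Y.y x i ≠ a₀ := by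
      by_contra h2
      rw [F1c_cutP_none Y J x h2, optf_none] at hx
      exact hx rfl
    obtain ⟨i, hi, hxi⟩ := h1
    have hO : IsOpen {x : Y.St | Y.y x i ≠ a₀} :=
      isOpen_compl_singleton.preimage (Y.continuous_y i)
    have hmem : ∀ x : Y.St, Y.y x i ≠ a₀ → (Y.z x, cut a₀ J (Y.y x)) ∈ Y.carrier ∧
        ∃ j, (Y.z x, cut a₀ J (Y.y x)).2 j ≠ a₀ := fun x hx =>
      ⟨Y.cut_mem J x.1 x.2.1, i, by
        rw [show (Y.z x, cut a₀ J (Y.y x)).2 i = Y.y x i from cut_of_mem _ hi]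
        exact hx⟩
    have hcont : ContinuousOn (fun x => optf f (Y.cutP J x)) {x : Y.St | Y.y x i ≠ a₀} := by
      rw [continuousOn_iff_continuous_domRestrict]
      let m : {x : Y.St | Y.y x i ≠ a₀} → Y.St := fun x =>
        ⟨(Y.z x.1, cut a₀ J (Y.y x.1)), hmem x.1 x.2⟩
      have hm : ∀ x, Y.cutP J x.1 = some (m x) := fun x => (F1c_cutP_iff Y J x.1 (m x)).2 rfl
      have h3 : ({x : Y.St | Y.y x i ≠ a₀}.domRestrict fun x => optf f (Y.cutP J x)) =
          fun x => f (m x) := funext fun x => congrArg (optf f) (hm x)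
      rw [h3]
      refine f.continuous.comp (Continuous.subtype_mk ?_ _)
      refine (Y.continuous_z.comp continuous_subtype_val).prodMk ((continuous_cut J).comp ?_)
      exact continuous_snd.comp (continuous_subtype_val.comp continuous_subtype_val)
    exact hcont.continuousAt (hO.mem_nhds hxi)

/-- PROOF: definitions. `cutP {i | g⁻¹ i ∈ J} (g x) = (cutP J x).map (g ·)`: both sides are `none` or both are `some` with
equal values (`Hered.ext`). -/
theorem cutP_smul (g : Γ) (J : Set I) (x : Y.St) :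
    Y.cutP {i | g⁻¹ • i ∈ J} (g • x) = (Y.cutP J x).map (g • ·) := by
  have key : ∀ x' : Y.St, Y.cutP J x = some x' →
      Y.cutP {i | g⁻¹ • i ∈ J} (g • x) = some (g • x') := by
    intro x' h
    rw [F1c_cutP_iff] at h ⊢
    change (g • x'.1 : Z × Cf I A) = _
    rw [h]
    refine Prod.ext rfl ?_
    funext i
    change cut a₀ J (Y.y x) (g⁻¹ • i) = cut a₀ {i | g⁻¹ • i ∈ J} (Y.y (g • x)) i
    by_cases hJ : g⁻¹ • i ∈ J
    · rw [cut_of_mem _ hJ, cut_of_mem _ (show i ∈ {i | g⁻¹ • i ∈ J} from hJ)]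
      rfl
    · rw [cut_of_notMem _ hJ, cut_of_notMem _ (show i ∉ {i | g⁻¹ • i ∈ J} from hJ)]
  cases h2 : Y.cutP J x with
  | some x' =>
    rw [key x' h2]
    rfl
  | none =>
    refine F1c_cutP_none Y _ _ ?_
    rintro ⟨i, hi, hi'⟩
    have h3 : ∃ i ∈ J, Y.y x i ≠ a₀ := ⟨g⁻¹ • i, hi, hi'⟩
    unfold Hered.cutP at h2
    rw [dif_pos h3] at h2
    exact Option.some_ne_none _ h2

/-- PROOF: `cutP_smul`, `mem_gF`. -/
theorem pi0_smul (g : Γ) (x : Y.St) (b : Bs I) :
    Y.pi0 (g • x) (g • b) = (Y.pi0 x b).map (g • ·) := by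
  have h1 : (∀ i ∈ (g • b).F, Y.y (g • x) i ≠ a₀) ↔ ∀ i ∈ b.F, Y.y x i ≠ a₀ := by
    constructor
    · intro h i hi
      have h2 := h (g • i) (by rw [Bs.smul_F, mem_gF, inv_smul_smul]; exact hi)
      rwa [Y.y_smul, inv_smul_smul] at h2
    · intro h i hi
      rw [Bs.smul_F, mem_gF] at hi
      exact h _ hi
  unfold Hered.pi0
  by_cases h2 : ∀ i ∈ b.F, Y.y x i ≠ a₀
  · rw [if_pos h2, if_pos (h1.2 h2), ← cutP_smul]
    have h3 : {i | i ∈ (g • b).F ∧ i ∉ (g • b).S} = {i | g⁻¹ • i ∈ {i | i ∈ b.F ∧ i ∉ b.S}} := by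
      ext i
      change (i ∈ gF g b.F ∧ i ∉ gF g b.S) ↔ (g⁻¹ • i ∈ b.F ∧ g⁻¹ • i ∉ b.S)
      rw [mem_gF, mem_gF]
    rw [h3]
  · rw [if_neg h2, if_neg fun h3 => h2 (h1.1 h3)]
    rfl

end Pool.Agent.Lib.MP_aa9b81_an.Hs
end
end

section

/-!
# Hereditary shifts, part H1e: block diagonal and local families
-/

open scoped ENNReal Topology ZeroAtInfty
open Function Filter Set

noncomputable section

namespace Pool.Agent.Lib.MP_aa9b81_an.Hs

open Cut

variable {Γ Z I A : Type} [Group Γ] [MulAction Γ I] [MulAction Γ Z] [TopologicalSpace Z]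
    [TopologicalSpace A] {a₀ : A} [DecidableEq I] (Y : Hered Γ Z I A a₀)

variable {Y}

variable (Y)

/-- The conditions for `m1 c n` in terms of `n`. PROOF: at the slice `s`: `sk_m1`, `sk_eF`; `n (s x)` commutes with
`BF (gF s F)`; and `n (s x) BF (gF s F) = n (s x') BF (gF s F)` by `h2` at `s x`, `s x'`, `gF s F` (`cutP_smul`:
`cutP (gF s F) (s x) = some (s x')`). -/
theorem BD_m1 (c : ℕ × Bs I ≃ ℕ) {n : FB (Bs I) Y.St} (h1 : ∀ x F, BF F * n x = n x * BF F)
    (h2 : ∀ x x' (F : Finset I), (∀ i ∈ F, Y.y x i ≠ a₀) → Y.cutP (F : Set I) x = some x' →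
      n x * BF F = n x' * BF F) : BD Y c (m1 c n) := by
  constructor
  · intro x F
    refine ContinuousLinearMap.ext fun ξ => ext_sk c fun s k => ?_
    change sk c s k (eF c F (m1 c n x ξ)) = sk c s k (m1 c n x (eF c F ξ))
    rw [sk_eF, sk_m1, sk_m1, sk_eF]
    exact congrArg (fun T : BL (Bs I) => T (sk c s k ξ)) (h1 (s • x) (gF s F))
  · intro x x' F hF hx
    refine ContinuousLinearMap.ext fun ξ => ext_sk c fun s k => ?_
    change sk c s k (m1 c n x (eF c F ξ)) = sk c s k (m1 c n x' (eF c F ξ))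
    rw [sk_m1, sk_m1, sk_eF]
    have h3 : ∀ i ∈ gF s F, Y.y (s • x) i ≠ a₀ := by
      intro i hi
      rw [Y.y_smul]
      exact hF _ (mem_gF.1 hi)
    have h4 : Y.cutP ((gF s F : Finset I) : Set I) (s • x) = some (s • x') := by
      have h5 := cutP_smul (Y := Y) s (F : Set I) x
      have h6 : {i | s⁻¹ • i ∈ (F : Set I)} = ((gF s F : Finset I) : Set I) := by
        ext i
        simp only [Set.mem_ofPred_eq, Finset.mem_coe, mem_gF]
      rw [h6, hx] at h5
      exact h5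
    exact congrArg (fun T : BL (Bs I) => T (sk c s k ξ)) (h2 (s • x) (s • x') (gF s F) h3 h4)

/-- PROOF: `BD_m1`; multiplication operators commute; `n` is constant. -/
theorem BD_Pp (c : ℕ × Bs I ≃ ℕ) : BD Y c (m1 c (cst Pp)) := by
  refine BD_m1 Y c (fun x F => ?_) (fun x x' F _ _ => ?_)
  · rw [cst_apply]
    refine ContinuousLinearMap.ext fun ξ => ?_
    change BF F (Pp ξ) = Pp (BF F ξ)
    ext b
    rw [BF_apply, Pp_apply, Pp_apply, BF_apply]
    split_ifs <;> rfl
  · rw [cst_apply, cst_apply]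

/-- PROOF: as `BD_Pp`. -/
theorem BD_Pm (c : ℕ × Bs I ≃ ℕ) : BD Y c (m1 c (cst Pm)) := by
  refine BD_m1 Y c (fun x F => ?_) (fun x x' F _ _ => ?_)
  · rw [cst_apply]
    refine ContinuousLinearMap.ext fun ξ => ?_
    change BF F (Pm ξ) = Pm (BF F ξ)
    ext b
    rw [BF_apply, Pm_apply, Pm_apply, BF_apply]
    split_ifs <;> rfl
  · rw [cst_apply, cst_apply]

end Pool.Agent.Lib.MP_aa9b81_an.Hs
end
end

section

/-!
# Hereditary shifts, part H1: block diagonal and local families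
-/

open scoped ENNReal Topology ZeroAtInfty
open Function Filter Set

noncomputable section

namespace Pool.Agent.Lib.MP_aa9b81_an.Hs

open Cut

variable {Γ Z I A : Type} [Group Γ] [MulAction Γ I] [MulAction Γ Z] [TopologicalSpace Z]
    [TopologicalSpace A] {a₀ : A} [DecidableEq I] (Y : Hered Γ Z I A a₀)

variable {Y}

variable (Y)

private lemma H1_T_apply (w : Wt Γ I) (e : I ↪ ℕ) (h : Ht A a₀) {s : ℝ} (hs : 0 ≤ s) (x : Y.St)
    (ξ : L2 (Bs I)) (b : Bs I) :
    ((Y.site h).T w e s hs x ξ : Bs I → ℂ) b = ∑ i ∈ b.F, ((Y.site h).uu w s x b.F i : ℂ) *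
      (th e i b.S * (Es ((Y.site h).supp x) ξ : Bs I → ℂ) (tog i b)) := by
  rw [Site.T_apply]
  change (Cl e ((Y.site h).uu w s x) (Es ((Y.site h).supp x) ξ) : Bs I → ℂ) b = _
  rw [Cl_apply e ((Y.site h).CB_uu w hs x)]
  rfl

/-- PROOF: `BD_m1`. `h1`: `(tog i b).F = b.F` and `Es` is a multiplication operator. `h2`: for `b.F = F ⊆ supp x`,
`cutP F x = some x'`: the heights of the `i ∈ F` at `x` and `x'` agree (`y_cutP`), so `uu w s x F i = uu w s x' F i` for
`i ∈ F`, and `F ⊆ supp x'`; coordinates `Cl_apply`, `Es_apply`, `BF_apply`. -/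
theorem BD_T (w : Wt Γ I) (c : ℕ × Bs I ≃ ℕ) (e : I ↪ ℕ) (h : Ht A a₀) {s : ℝ} (hs : 0 ≤ s) :
    BD Y c (m1 c ((Y.site h).T w e s hs)) := by
  classical
  refine BD_m1 Y c (fun x F => ?_) (fun x x' F hF hx => ?_)
  · refine ContinuousLinearMap.ext fun ξ => ?_
    change BF F ((Y.site h).T w e s hs x ξ) = (Y.site h).T w e s hs x (BF F ξ)
    ext b
    rw [BF_apply, H1_T_apply, H1_T_apply]
    by_cases hb : b.F = F
    · rw [if_pos hb]
      refine Finset.sum_congr rfl fun i hi => ?_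
      rw [Es_apply, Es_apply, BF_apply, (tog_of_mem hi).1, if_pos hb]
    · rw [if_neg hb]
      symm
      refine Finset.sum_eq_zero fun i hi => ?_
      rw [Es_apply, BF_apply, (tog_of_mem hi).1, if_neg hb]
      simp
  · refine ContinuousLinearMap.ext fun ξ => ?_
    change (Y.site h).T w e s hs x (BF F ξ) = (Y.site h).T w e s hs x' (BF F ξ)
    ext b
    rw [H1_T_apply, H1_T_apply]
    refine Finset.sum_congr rfl fun i hi => ?_
    rw [Es_apply, Es_apply, BF_apply, (tog_of_mem hi).1]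
    by_cases hb : b.F = F
    · have hh : ∀ j ∈ F, (Y.site h).hh x' j = (Y.site h).hh x j := by
        intro j hj
        change h.h (Y.y x' j) = h.h (Y.y x j)
        rw [y_cutP Y hx j hj]
      have h1 : (b.F : Set I) ⊆ (Y.site h).supp x := by
        intro j hj
        rw [hb] at hj
        exact (Y.mem_supp h x j).2 (hF j hj)
      have h2 : (b.F : Set I) ⊆ (Y.site h).supp x' := by
        intro j hj
        have h3 : (0 : ℝ) < (Y.site h).hh x j := h1 hj
        rw [hb] at hj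
        change (0 : ℝ) < (Y.site h).hh x' j
        rw [hh j hj]
        exact h3
      have h4 : ∀ j ∈ F, (Y.site h).Ws w s x j = (Y.site h).Ws w s x' j := by
        intro j hj
        rw [Site.Ws, Site.Ws, Site.W, Site.W, hh j hj]
      have h5 : (Y.site h).nW w s x F = (Y.site h).nW w s x' F := by
        rw [Site.nW, Site.nW]
        congr 1
        exact Finset.sum_congr rfl fun j hj => by rw [h4 j hj]
      have h6 : (Y.site h).uu w s x b.F i = (Y.site h).uu w s x' b.F i := by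
        rw [hb] at hi ⊢
        rw [Site.uu, Site.uu, h4 i hi, h5]
      rw [h6, if_pos h1, if_pos h2]
    · rw [if_neg hb]
      simp

end Pool.Agent.Lib.MP_aa9b81_an.Hs
end
end

section

/-!
# Hereditary shifts, part D7c: rotations at finitely many sites
-/

open scoped ENNReal Topology
open Function

noncomputable section

namespace Pool.Agent.Lib.MP_aa9b81_an.Hs

open Cut

variable {Γ I : Type} [Group Γ] [MulAction Γ I] [DecidableEq I]

omit [Group Γ] [MulAction Γ I] in
theorem D7c_norm_XL_le (L : Finset I) : ‖XL L‖ ≤ 1 := by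
  unfold XL
  exact norm_dia_le zero_le_one fun b => by split_ifs <;> simp

omit [Group Γ] [MulAction Γ I] in
theorem D7c_XL_comm_Es (L : Finset I) (s : Set I) : Commute (XL L) (Es s) := by
  classical
  refine ContinuousLinearMap.ext fun ξ => ?_
  ext b
  rw [ContinuousLinearMap.mul_apply, ContinuousLinearMap.mul_apply, Es_apply, XL_apply, Es_apply,
    XL_apply]
  split_ifs <;> rfl

omit [Group Γ] [MulAction Γ I] in
theorem D7c_XL_comm_Pp (L : Finset I) : Commute (XL L) Pp := by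
  refine ContinuousLinearMap.ext fun ξ => ?_
  ext b
  rw [ContinuousLinearMap.mul_apply, ContinuousLinearMap.mul_apply, Pp_apply, XL_apply, Pp_apply,
    XL_apply]
  split_ifs <;> rfl

omit [Group Γ] [MulAction Γ I] in
/-- PROOF: `norm_UK_le`, `norm_UK_inv_le`, `norm_dia_le` for `XL`. -/
theorem norm_Sp_le (L : Finset I) (φ : ℝ) : ‖Sp L φ‖ ≤ 1 := by
  unfold Sp
  have h1 := norm_UK_le L φ
  have h2 := norm_UK_inv_le L φ
  have h3 := D7c_norm_XL_le L
  refine (norm_mul_le _ _).trans ?_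
  have h4 : ‖(UK L φ : BL (Bs I)) * XL L‖ ≤ 1 := by
    refine (norm_mul_le _ _).trans ?_
    have := mul_le_mul h1 h3 (norm_nonneg _) zero_le_one
    simpa using this
  have := mul_le_mul h4 h2 (norm_nonneg _) zero_le_one
  simpa using this

omit [Group Γ] [MulAction Γ I] in
/-- PROOF: `UK_sdiff`, and `UK (K ∖ L)` commutes with `Sp L φ` (`UK_comm` with `Ui_comm` and `Ui_comm_XL`,
`UK_inv_comm`). -/
theorem UK_conj_XL {L K : Finset I} (h : L ⊆ K) (φ : ℝ) :
    (UK K φ : BL (Bs I)) * XL L * ((UK K φ)⁻¹ : (BL (Bs I))ˣ).val = Sp L φ := by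
  have hU : ∀ i ∈ K \ L, Commute (Ui i φ) (UK L φ : BL (Bs I)) := fun i _ =>
    (UK_comm (X := Ui i φ) fun j _ => Ui_comm j i φ φ).symm
  have hX : ∀ i ∈ K \ L, Commute (Ui i φ) (XL L) := fun i hi =>
    Ui_comm_XL (Finset.mem_sdiff.1 hi).2 φ
  have hV : ∀ i ∈ K \ L, Commute (Ui i φ) ((UK L φ)⁻¹ : (BL (Bs I))ˣ).val := fun i hi =>
    Commute.units_inv_right (hU i hi)
  have hS : Commute (UK (K \ L) φ : BL (Bs I)) (Sp L φ) := by
    refine UK_comm fun i hi => ?_
    unfold Sp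
    exact Commute.mul_right (Commute.mul_right (hU i hi) (hX i hi)) (hV i hi)
  have h1 : (UK K φ : BL (Bs I)) * XL L * ((UK K φ)⁻¹ : (BL (Bs I))ˣ).val =
      (UK (K \ L) φ : BL (Bs I)) * Sp L φ * ((UK (K \ L) φ)⁻¹ : (BL (Bs I))ˣ).val := by
    rw [UK_sdiff h φ, mul_inv_rev, Units.val_mul, Units.val_mul]
    unfold Sp
    simp only [mul_assoc]
  rw [h1, hS.eq, mul_assoc, Units.mul_inv, mul_one]

omit [Group Γ] [MulAction Γ I] in
/-- PROOF: `UK_zero`. -/
theorem Sp_zero (L : Finset I) : Sp L 0 = XL L := by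
  unfold Sp
  rw [UK_zero, inv_one, Units.val_one, one_mul, mul_one]

omit [Group Γ] [MulAction Γ I] in
/-- PROOF: `UK_comm`, `UK_inv_comm`, `Ui_comm_Es`; `XL` and `Es` are multiplication operators. -/
theorem Sp_comm_Es {L : Finset I} {s : Set I} (h : (L : Set I) ⊆ s) (φ : ℝ) :
    Commute (Sp L φ) (Es s) := by
  have hU : ∀ i ∈ L, Commute (Ui i φ) (Es s) := fun i hi =>
    Ui_comm_Es (h (Finset.mem_coe.2 hi)) φ
  unfold Sp
  exact Commute.mul_left (Commute.mul_left (UK_comm hU) (D7c_XL_comm_Es L s)) (UK_inv_comm hU)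

omit [Group Γ] [MulAction Γ I] in
/-- PROOF: `UK_comm`, `UK_inv_comm`, `Ui_comm_Pp`; `XL` and `Pp` are multiplication operators. -/
theorem Sp_comm_Pp (L : Finset I) (φ : ℝ) : Commute (Sp L φ) Pp := by
  have hU : ∀ i ∈ L, Commute (Ui i φ) Pp := fun i _ => Ui_comm_Pp i φ
  unfold Sp
  exact Commute.mul_left (Commute.mul_left (UK_comm hU) (D7c_XL_comm_Pp L)) (UK_inv_comm hU)

end Pool.Agent.Lib.MP_aa9b81_an.Hs
end
end

section

/-!
# Hereditary shifts, part H3a: from the finite configurations to all configurations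
-/

open scoped ENNReal Topology ZeroAtInfty
open Function Filter Set

noncomputable section

namespace Pool.Agent.Lib.MP_aa9b81_an.Hs

open Cut

variable {Γ Z I A : Type} [Group Γ] [MulAction Γ I] [MulAction Γ Z] [TopologicalSpace Z]
    [TopologicalSpace A] {a₀ : A} (Y : Hered Γ Z I A a₀)

/-- The point `(z, cut F y)` for a nonempty `F ⊆ supp y`. -/
theorem cut_point (x : Y.St) (F : Fd I) (h : F.s.Nonempty ∧ ∀ i ∈ F.s, Y.y x i ≠ a₀) :
    ∃ q : Y.Sf, Y.F q = F ∧ Y.cutP (F.s : Set I) x = some (Y.r q) := by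
  obtain ⟨⟨i, hi⟩, h2⟩ := h
  have h3 : ∃ i ∈ (F.s : Set I), Y.y x i ≠ a₀ := ⟨i, hi, h2 i hi⟩
  refine ⟨Y.mkSf ⟨(Y.z x, cut a₀ (F.s : Set I) (Y.y x)), Y.cut_mem _ x.1 x.2.1, i, ?_⟩ F ?_, rfl, ?_⟩
  · change cut a₀ (F.s : Set I) (Y.y x) i ≠ a₀
    rw [cut_of_mem _ (show i ∈ (F.s : Set I) from hi)]
    exact h2 i hi
  · intro j
    change cut a₀ (F.s : Set I) (Y.y x) j ≠ a₀ ↔ j ∈ F.s
    by_cases hj : j ∈ F.s
    · rw [cut_of_mem _ (show j ∈ (F.s : Set I) from hj)]
      exact ⟨fun _ => hj, fun _ => h2 j hj⟩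
    · rw [cut_of_notMem _ (show j ∉ (F.s : Set I) from hj)]
      exact ⟨fun h => absurd rfl h, fun h => absurd h hj⟩
  · rw [Hered.cutP, dif_pos h3]
    rfl

open Classical in
/-- The partial map `(x, F) ↦ (cut F x, F)`, for a nonempty `F ⊆ supp x`. -/
def Hered.pF (x : Y.St) (F : Fd I) : Option Y.Sf :=
  if h : F.s.Nonempty ∧ ∀ i ∈ F.s, Y.y x i ≠ a₀ then some (cut_point Y x F h).choose else none

theorem pF_eq_some {x : Y.St} {F : Fd I} (h : F.s.Nonempty ∧ ∀ i ∈ F.s, Y.y x i ≠ a₀) :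
    ∃ q : Y.Sf, Y.pF x F = some q ∧ Y.F q = F ∧ Y.cutP (F.s : Set I) x = some (Y.r q) :=
  ⟨(cut_point Y x F h).choose, by rw [Hered.pF, dif_pos h], (cut_point Y x F h).choose_spec.1,
    (cut_point Y x F h).choose_spec.2⟩

theorem pF_eq_none {x : Y.St} {F : Fd I} (h : ¬ (F.s.Nonempty ∧ ∀ i ∈ F.s, Y.y x i ≠ a₀)) :
    Y.pF x F = none := by rw [Hered.pF, dif_neg h]

/-- PROOF: the conditions for `(g x, g F)` and `(x, F)` are equivalent; `pF_eq_some`, `cutP_smul` (`mem_gF`), `Hered.Sf_ext`. -/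
theorem pF_smul (g : Γ) (x : Y.St) (F : Fd I) : Y.pF (g • x) (g • F) = (Y.pF x F).map (g • ·) := by
  have hiff : ((g • F).s.Nonempty ∧ ∀ i ∈ (g • F).s, Y.y (g • x) i ≠ a₀) ↔
      (F.s.Nonempty ∧ ∀ i ∈ F.s, Y.y x i ≠ a₀) := by
    constructor
    · rintro ⟨⟨i, hi⟩, h2⟩
      rw [Fd.s_smul, mem_gF] at hi
      refine ⟨⟨_, hi⟩, fun j hj => ?_⟩
      have h3 := h2 (g • j) (by rw [Fd.s_smul, mem_gF, inv_smul_smul]; exact hj)
      rwa [Hered.y_smul, inv_smul_smul] at h3
    · rintro ⟨⟨i, hi⟩, h2⟩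
      refine ⟨⟨g • i, by rw [Fd.s_smul, mem_gF, inv_smul_smul]; exact hi⟩, fun j hj => ?_⟩
      rw [Fd.s_smul, mem_gF] at hj
      rw [Hered.y_smul]
      exact h2 _ hj
  by_cases h : F.s.Nonempty ∧ ∀ i ∈ F.s, Y.y x i ≠ a₀
  · obtain ⟨q, hq, hqF, hqr⟩ := pF_eq_some Y h
    obtain ⟨q', hq', hqF', hqr'⟩ := pF_eq_some Y (hiff.2 h)
    rw [hq, hq', Option.map_some]
    have h1 := cutP_smul Y g (F.s : Set I) x
    have h2 : {i | g⁻¹ • i ∈ (F.s : Set I)} = ((g • F).s : Set I) := by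
      ext i
      rw [Fd.s_smul]
      simp only [Set.mem_ofPred_eq, Finset.mem_coe, mem_gF]
    rw [h2, hqr', hqr, Option.map_some, Option.some_inj] at h1
    congr 1
    refine Hered.Sf_ext ?_ ?_
    · rw [h1, Hered.r_smul]
    · rw [hqF', Hered.F_smul, hqF]
  · rw [pF_eq_none Y h, pF_eq_none Y (fun h' => h (hiff.1 h')), Option.map_none]

theorem H3a_cutP_eq {J : Set I} {x x' : Y.St} (h : Y.cutP J x = some x') :
    Y.z x' = Y.z x ∧ Y.y x' = cut a₀ J (Y.y x) := by
  unfold Hered.cutP at h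
  split_ifs at h with h1
  rw [Option.some_inj] at h
  rw [← h]
  exact ⟨rfl, rfl⟩

theorem H3a_compact {X : Type} [TopologicalSpace X] (f : C₀(X, ℂ)) {ε : ℝ} (hε : 0 < ε) :
    IsCompact {q | ε ≤ ‖f q‖} := by
  have h1 : {q | ‖f q‖ < ε} ∈ cocompact X := by
    have h2 := (f.zero_at_infty'.norm).eventually_lt_const (v := ‖(0 : ℂ)‖) (u := ε) (by simpa using hε)
    exact h2
  obtain ⟨t, ht, ht'⟩ := mem_cocompact.1 h1
  refine ht.of_isClosed_subset ?_ ?_
  · exact isClosed_le continuous_const f.continuous.norm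
  · intro q hq
    by_contra hqt
    have h3 := ht' hqt
    simp only [Set.mem_ofPred_eq] at h3 hq
    linarith

/-- The equivariant partial map `pF`. -/
def PF : PMap Γ Y.St (Fd I) Y.Sf := ⟨Y.pF, pF_smul Y⟩

/-- PROOF: for `ε > 0` let `K = {q | ε ≤ ‖f q‖}`, compact, and `K' = r '' (K ∩ {F q = F})`, a compact subset of `Y.St`. With
`G x = optf f (pF x F)`: `{x | ε ≤ ‖G x‖} = {x | ∃ x' ∈ K', cutP F x = some x'}` (if `cutP F x = some x'` with
`supp x' = F` then `F ⊆ supp x`, nonempty), compact by `isCompact_cutP`. So `G` vanishes at infinity and is continuous where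
it vanishes. On the open set `{x | ∀ i ∈ F, y x i ≠ a₀}` (`F` nonempty) the map `x ↦ pF x F` is continuous. -/
theorem exists_C0_pF [T2Space Z] [T2Space A] [CompactSpace A] (f : C₀(Y.Sf, ℂ)) (F : Fd I) :
    ∃ G : C₀(Y.St, ℂ), ∀ x, G x = optf f (Y.pF x F) := by
  by_cases hF : F.s.Nonempty
  swap
  · refine ⟨0, fun x => ?_⟩
    rw [pF_eq_none Y (fun h => hF h.1)]
    rfl
  have hcpt : ∀ ε : ℝ, 0 < ε → IsCompact {x : Y.St | ε ≤ ‖optf f (Y.pF x F)‖} := by
    intro ε hε
    have h1 : IsCompact ({q : Y.Sf | ε ≤ ‖f q‖} ∩ Y.F ⁻¹' {F}) :=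
      (H3a_compact f hε).inter_right ((isClosed_discrete {F}).preimage Y.continuous_F)
    have h2 : IsCompact (Y.r '' ({q : Y.Sf | ε ≤ ‖f q‖} ∩ Y.F ⁻¹' {F})) := h1.image Y.continuous_r
    have h3 := isCompact_cutP Y (F.s : Set I) h2
    have h4 : {x : Y.St | ε ≤ ‖optf f (Y.pF x F)‖} = {x : Y.St |
        ∃ x' ∈ Y.r '' ({q : Y.Sf | ε ≤ ‖f q‖} ∩ Y.F ⁻¹' {F}), Y.cutP (F.s : Set I) x = some x'} := by
      ext x
      simp only [Set.mem_ofPred_eq]
      constructor
      · intro hx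
        by_cases h : F.s.Nonempty ∧ ∀ i ∈ F.s, Y.y x i ≠ a₀
        · obtain ⟨q, hq, hqF, hqr⟩ := pF_eq_some Y h
          rw [hq, optf_some] at hx
          exact ⟨Y.r q, ⟨q, ⟨hx, hqF⟩, rfl⟩, hqr⟩
        · rw [pF_eq_none Y h, optf_none, norm_zero] at hx
          linarith
      · rintro ⟨_, ⟨q, ⟨hq1, hq2⟩, rfl⟩, hcut⟩
        have hq2' : Y.F q = F := hq2
        have hq1' : ε ≤ ‖f q‖ := hq1
        have h : F.s.Nonempty ∧ ∀ i ∈ F.s, Y.y x i ≠ a₀ := by
          refine ⟨hF, fun i hi => ?_⟩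
          have h5 : i ∈ (Y.F q).s := by rw [hq2']; exact hi
          rw [Hered.mem_F, (H3a_cutP_eq Y hcut).2, cut_of_mem _ (show i ∈ (F.s : Set I) from hi)] at h5
          exact h5
        obtain ⟨q', hq', hqF', hqr'⟩ := pF_eq_some Y h
        rw [hcut, Option.some_inj] at hqr'
        have h6 : q = q' := Hered.Sf_ext hqr' (by rw [hq2', hqF'])
        rw [hq', ← h6, optf_some]
        exact hq1'
    rw [h4]
    exact h3
  have hUo : IsOpen {x : Y.St | ∀ i ∈ F.s, Y.y x i ≠ a₀} := by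
    have h1 : {x : Y.St | ∀ i ∈ F.s, Y.y x i ≠ a₀} = ⋂ i ∈ F.s, {x : Y.St | Y.y x i ≠ a₀} := by
      ext x; simp
    rw [h1]
    exact isOpen_biInter_finset fun i _ => isOpen_ne.preimage (Y.continuous_y i)
  have hcontU : ContinuousOn (fun x : Y.St => optf f (Y.pF x F))
      {x : Y.St | ∀ i ∈ F.s, Y.y x i ≠ a₀} := by
    rw [continuousOn_iff_continuous_domRestrict]
    have hch : ∀ x : {x : Y.St | ∀ i ∈ F.s, Y.y x i ≠ a₀}, ∃ q : Y.Sf, Y.pF x.1 F = some q ∧ Y.F q = F ∧
        Y.cutP (F.s : Set I) x.1 = some (Y.r q) := fun x => pF_eq_some Y ⟨hF, x.2⟩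
    choose q hq hqF hqr using hch
    have hqc : Continuous q := by
      have hz : ∀ x, Y.z (Y.r (q x)) = Y.z x.1 := fun x => (H3a_cutP_eq Y (hqr x)).1
      have hy : ∀ x, Y.y (Y.r (q x)) = cut a₀ (F.s : Set I) (Y.y x.1) :=
        fun x => (H3a_cutP_eq Y (hqr x)).2
      have hr : Continuous fun x => Y.r (q x) := by
        have h1 : Continuous fun x => ((Y.z (Y.r (q x)), Y.y (Y.r (q x))) : Z × Cf I A) := by
          have h2 : (fun x => ((Y.z (Y.r (q x)), Y.y (Y.r (q x))) : Z × Cf I A)) =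
              fun x => (Y.z x.1, cut a₀ (F.s : Set I) (Y.y x.1)) := by
            funext x; rw [hz, hy]
          rw [h2]
          refine (Y.continuous_z.comp continuous_subtype_val).prodMk ?_
          exact (continuous_cut (F.s : Set I)).comp
            ((continuous_snd.comp continuous_subtype_val).comp continuous_subtype_val)
        exact continuous_induced_rng.2 h1
      have hFc : Continuous fun x => Y.F (q x) := by
        have h2 : (fun x => Y.F (q x)) = fun _ => F := funext hqF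
        rw [h2]; exact continuous_const
      exact continuous_induced_rng.2 (hr.prodMk hFc)
    have h3 : (Set.domRestrict {x : Y.St | ∀ i ∈ F.s, Y.y x i ≠ a₀}
        (fun x : Y.St => optf f (Y.pF x F))) = fun x => f (q x) := by
      funext x
      rw [Set.domRestrict_apply, hq x, optf_some]
    rw [h3]
    exact f.continuous.comp hqc
  have hoff : ∀ x : Y.St, ¬ (∀ i ∈ F.s, Y.y x i ≠ a₀) → optf f (Y.pF x F) = 0 := by
    intro x hx
    rw [pF_eq_none Y (fun h => hx h.2), optf_none]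
  have hcont : Continuous (fun x : Y.St => optf f (Y.pF x F)) := by
    rw [continuous_iff_continuousAt]
    intro x
    by_cases hx : ∀ i ∈ F.s, Y.y x i ≠ a₀
    · exact hcontU.continuousAt (hUo.mem_nhds hx)
    · rw [ContinuousAt, Metric.tendsto_nhds]
      intro ε hε
      have h1 : IsOpen {x : Y.St | ε ≤ ‖optf f (Y.pF x F)‖}ᶜ := (hcpt ε hε).isClosed.isOpen_compl
      have h2 : x ∈ {x : Y.St | ε ≤ ‖optf f (Y.pF x F)‖}ᶜ := by
        simp only [Set.mem_compl_iff, Set.mem_ofPred_eq, hoff x hx, norm_zero, not_le]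
        exact hε
      filter_upwards [h1.mem_nhds h2] with x' hx'
      rw [hoff x hx, dist_zero_right]
      simpa using hx'
  refine ⟨⟨⟨fun x => optf f (Y.pF x F), hcont⟩, ?_⟩, fun x => rfl⟩
  rw [Metric.tendsto_nhds]
  intro ε hε
  rw [Filter.Eventually, mem_cocompact]
  refine ⟨_, hcpt ε hε, fun x hx => ?_⟩
  simp only [Set.mem_compl_iff, Set.mem_ofPred_eq, not_le] at hx
  change dist (optf f (Y.pF x F)) 0 < ε
  rw [dist_zero_right]
  exact hx

end Pool.Agent.Lib.MP_aa9b81_an.Hs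
end
end

section

/-!
# Hereditary shifts, part H3b: from the finite configurations to all configurations
-/

open scoped ENNReal Topology ZeroAtInfty
open Function Filter Set

noncomputable section

namespace Pool.Agent.Lib.MP_aa9b81_an.Hs

open Cut

variable {Γ Z I A : Type} [Group Γ] [MulAction Γ I] [MulAction Γ Z] [TopologicalSpace Z]
    [TopologicalSpace A] {a₀ : A} (Y : Hered Γ Z I A a₀)

/-- PROOF: the compact set `{q | ε ≤ ‖f q‖}` has a compact, so finite, image under the continuous map `F` to the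
discrete space `Fd I`. -/
theorem exists_finite_near (f : C₀(Y.Sf, ℂ)) {ε : ℝ} (hε : 0 < ε) :
    ∃ s : Finset (Fd I), ∀ q, Y.F q ∉ s → ‖f q‖ ≤ ε := by
  have h1 : {q : Y.Sf | ‖f q‖ < ε} ∈ cocompact Y.Sf := by
    have h2 := f.zero_at_infty'
    have h3 : {z : ℂ | ‖z‖ < ε} ∈ 𝓝 (0 : ℂ) := by
      have h4 := Metric.ball_mem_nhds (0 : ℂ) hε
      refine Filter.mem_of_superset h4 fun z hz => ?_
      simpa using hz
    exact h2 h3
  obtain ⟨K, hK, hKs⟩ := mem_cocompact.1 h1
  have hfin : (Y.F '' K).Finite := isCompact_iff_finite.1 (hK.image Y.continuous_F)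
  refine ⟨hfin.toFinset, fun q hq => ?_⟩
  have hq' : q ∉ K := fun h => hq (hfin.mem_toFinset.2 ⟨q, h, rfl⟩)
  exact le_of_lt (hKs hq')

omit [TopologicalSpace Z] [TopologicalSpace A] [MulAction Γ Z] in
open Classical in
private theorem H3b_sum_apply {P : Type} [TopologicalSpace P] (G : Fd I → C₀(P, ℂ))
    (s : Finset (Fd I)) (x : P) (ξ : L2 (Fd I)) (b : Fd I) :
    ((∑ F ∈ s, ge (G F) F F : FB (Fd I) P) x ξ : Fd I → ℂ) b =
      if b ∈ s then G b x * (ξ : Fd I → ℂ) b else 0 := by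
  induction s using Finset.induction_on with
  | empty =>
    rw [Finset.sum_empty, if_neg (Finset.notMem_empty b)]
    rfl
  | insert a s ha ih =>
    rw [Finset.sum_insert ha]
    have e1 : ((ge (G a) a a + ∑ F ∈ s, ge (G F) F F : FB (Fd I) P) x ξ : Fd I → ℂ) b =
        (ge (G a) a a x ξ : Fd I → ℂ) b +
          ((∑ F ∈ s, ge (G F) F F : FB (Fd I) P) x ξ : Fd I → ℂ) b := rfl
    have e2 : (ge (G a) a a x ξ : Fd I → ℂ) b = G a x * (Eu a a ξ : Fd I → ℂ) b := rfl
    rw [e1, ih, e2, Eu_apply]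
    by_cases hb : b = a
    · subst hb
      rw [if_pos rfl, if_neg ha, if_pos (Finset.mem_insert_self _ _), add_zero]
    · rw [if_neg hb, mul_zero, zero_add]
      by_cases hs : b ∈ s
      · rw [if_pos hs, if_pos (Finset.mem_insert_of_mem hs)]
      · rw [if_neg hs, if_neg]
        rw [Finset.mem_insert]
        push Not
        exact ⟨hb, hs⟩

/-- PROOF: for `ε > 0` take `s` from `exists_finite_near` and `G F` from `exists_C0_pF`. At `x` the operator
`dgf pF f - ∑_{F ∈ s} ge (G F) F F` is the multiplication by the function which is `0` for `F ∈ s`, and `optf f (pF x F)`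
for `F ∉ s`, of absolute value `≤ ε` (`F (q) = F` for `pF x F = some q`): coordinates (`dgf_apply`, `Eu_apply`), `norm_dia_le`,
`FB.norm_le_iff`. The elements `ge (G F) F F` are in `KE univ`. -/
theorem dgf_pF_mem [T2Space Z] [T2Space A] [CompactSpace A] (f : C₀(Y.Sf, ℂ)) :
    dgf Y.pF f ∈ KE (fun _ : Fd I => (Set.univ : Set Y.St)) := by
  classical
  choose G hG using fun F : Fd I => exists_C0_pF Y f F
  have hmem : ∀ s : Finset (Fd I), (∑ F ∈ s, ge (G F) F F : FB (Fd I) Y.St) ∈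
      Submodule.span ℂ {n : FB (Fd I) Y.St | ∃ b b' f,
        Good (fun _ : Fd I => (Set.univ : Set Y.St)) f b b' ∧ n = ge f b b'} := fun s =>
    Submodule.sum_mem _ fun F _ => Submodule.subset_span
      ⟨F, F, G F, fun p _ => ⟨Set.mem_univ _, Set.mem_univ _⟩, rfl⟩
  have hcl : dgf Y.pF f ∈ closure ((Submodule.span ℂ {n : FB (Fd I) Y.St | ∃ b b' f,
        Good (fun _ : Fd I => (Set.univ : Set Y.St)) f b b' ∧ n = ge f b b'} :
        Submodule ℂ (FB (Fd I) Y.St)) : Set (FB (Fd I) Y.St)) := by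
    rw [Metric.mem_closure_iff]
    intro ε hε
    obtain ⟨s, hs⟩ := exists_finite_near Y f (half_pos hε)
    refine ⟨∑ F ∈ s, ge (G F) F F, hmem s, ?_⟩
    rw [dist_eq_norm]
    refine lt_of_le_of_lt ?_ (half_lt_self hε)
    rw [FB.norm_le_iff (half_pos hε).le]
    intro x
    have heq : (dgf Y.pF f - ∑ F ∈ s, ge (G F) F F : FB (Fd I) Y.St) x =
        dia fun F : Fd I => if F ∈ s then 0 else optf f (Y.pF x F) := by
      refine ContinuousLinearMap.ext fun ξ => ?_
      ext b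
      have e1 : ((dgf Y.pF f - ∑ F ∈ s, ge (G F) F F : FB (Fd I) Y.St) x ξ : Fd I → ℂ) b =
          (dgf Y.pF f x ξ : Fd I → ℂ) b -
            ((∑ F ∈ s, ge (G F) F F : FB (Fd I) Y.St) x ξ : Fd I → ℂ) b := rfl
      rw [e1, dgf_apply, H3b_sum_apply, dia_apply (norm_nonneg f) (fun F => by
        split_ifs
        · rw [norm_zero]; exact norm_nonneg f
        · exact norm_optf_le f _)]
      by_cases hb : b ∈ s
      · rw [if_pos hb, if_pos hb, hG b x, sub_self, zero_mul]
      · rw [if_neg hb, if_neg hb, sub_zero]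
    rw [heq]
    refine norm_dia_le (half_pos hε).le fun F => ?_
    by_cases hF : F ∈ s
    · rw [if_pos hF, norm_zero]
      exact (half_pos hε).le
    · rw [if_neg hF]
      by_cases hc : F.s.Nonempty ∧ ∀ i ∈ F.s, Y.y x i ≠ a₀
      · obtain ⟨q, hq1, hq2, _⟩ := pF_eq_some Y hc
        rw [hq1, optf_some]
        exact hs q (by rw [hq2]; exact hF)
      · rw [pF_eq_none Y hc, optf_none, norm_zero]
        exact (half_pos hε).le
  exact hcl

end Pool.Agent.Lib.MP_aa9b81_an.Hs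
end
end

section

/-!
# Hereditary shifts, part F2b: exact functions are dense
-/

open scoped ENNReal Topology ZeroAtInfty
open Function Filter Set

noncomputable section

namespace Pool.Agent.Lib.MP_aa9b81_an.Hs

open Cut

variable {Γ Z I A : Type} [Group Γ] [MulAction Γ I] [MulAction Γ Z] [TopologicalSpace Z]
    [TopologicalSpace A] {a₀ : A} (Y : Hered Γ Z I A a₀)

private lemma F2b_cutP_iff (J : Set I) (x x' : Y.St) :
    Y.cutP J x = some x' ↔ x'.1 = (Y.z x, cut a₀ J (Y.y x)) := by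
  unfold Hered.cutP
  constructor
  · intro h
    split_ifs at h with h1
    have h2 := Option.some.inj h
    rw [← h2]
  · intro h
    have h1 : ∃ i ∈ J, Y.y x i ≠ a₀ := by
      obtain ⟨i, hi⟩ := x'.2.2
      rw [h] at hi
      by_cases hJ : i ∈ J
      · refine ⟨i, hJ, ?_⟩
        rwa [show (Y.z x, cut a₀ J (Y.y x)).2 i = Y.y x i from cut_of_mem _ hJ] at hi
      · exact absurd (cut_of_notMem _ hJ) hi
    rw [dif_pos h1]
    exact congrArg some (Subtype.ext h.symm)

private lemma F2b_cutP_none (J : Set I) (x : Y.St) (h : ¬ ∃ i ∈ J, Y.y x i ≠ a₀) :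
    Y.cutP J x = none := by
  unfold Hered.cutP
  rw [dif_neg h]

open Classical in
/-- The function `f`, extended by `0`. -/
private def F2b_ext (f : C₀(Y.St, ℂ)) (x : Z × Cf I A) : ℂ :=
  if h : x ∈ Y.carrier ∧ ∃ i, x.2 i ≠ a₀ then f (⟨x, h⟩ : Y.St) else 0

private lemma F2b_ext_val (f : C₀(Y.St, ℂ)) (x : Y.St) : F2b_ext Y f x.1 = f x := by
  unfold F2b_ext
  rw [dif_pos x.2]
  rfl

private lemma F2b_ext_zero (f : C₀(Y.St, ℂ)) (x : Z × Cf I A) (h : ∀ i, x.2 i = a₀) :
    F2b_ext Y f x = 0 := by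
  unfold F2b_ext
  rw [dif_neg]
  rintro ⟨-, i, hi⟩
  exact hi (h i)

private lemma F2b_optf (f : C₀(Y.St, ℂ)) (J : Set I) (x : Y.St) :
    optf f (Y.cutP J x) = F2b_ext Y f (Y.z x, cut a₀ J (Y.y x)) := by
  cases h : Y.cutP J x with
  | none =>
    rw [optf_none, F2b_ext_zero]
    intro i
    by_contra hi
    change cut a₀ J (Y.y x) i ≠ a₀ at hi
    have h1 : ∃ i ∈ J, Y.y x i ≠ a₀ := by
      by_cases hJ : i ∈ J
      · rw [cut_of_mem _ hJ] at hi
        exact ⟨i, hJ, hi⟩
      · exact absurd (cut_of_notMem _ hJ) hi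
    unfold Hered.cutP at h
    rw [dif_pos h1] at h
    exact Option.some_ne_none _ h
  | some x' =>
    rw [optf_some]
    rw [F2b_cutP_iff] at h
    rw [← h, F2b_ext_val]

private lemma F2b_moebius [DecidableEq I] (L₀ : Finset I) : ∀ g : Finset I → ℂ,
    ∑ L ∈ L₀.powerset, ∑ X ∈ L.powerset, (-1 : ℂ) ^ (L \ X).card * g X = g L₀ := by
  induction L₀ using Finset.induction_on with
  | empty =>
    intro g
    simp
  | insert a s ha ih =>
    intro g
    rw [Finset.sum_powerset_insert ha, ← ih fun X => g (insert a X), ← Finset.sum_add_distrib]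
    refine Finset.sum_congr rfl fun L hL => ?_
    have haL : a ∉ L := fun h => ha (Finset.mem_powerset.1 hL h)
    rw [Finset.sum_powerset_insert haL]
    have h1 : ∑ X ∈ L.powerset, (-1 : ℂ) ^ (insert a L \ X).card * g X =
        -∑ X ∈ L.powerset, (-1 : ℂ) ^ (L \ X).card * g X := by
      rw [← Finset.sum_neg_distrib]
      refine Finset.sum_congr rfl fun X hX => ?_
      have haX : a ∉ X := fun h => haL (Finset.mem_powerset.1 hX h)
      have h2 : (insert a L \ X).card = (L \ X).card + 1 := by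
        rw [Finset.insert_sdiff_of_notMem _ haX, Finset.card_insert_of_notMem]
        intro h
        exact haL (Finset.mem_sdiff.1 h).1
      rw [h2, pow_succ]
      ring
    have h2 : ∑ X ∈ L.powerset, (-1 : ℂ) ^ (insert a L \ insert a X).card * g (insert a X) =
        ∑ X ∈ L.powerset, (-1 : ℂ) ^ (L \ X).card * g (insert a X) := by
      refine Finset.sum_congr rfl fun X hX => ?_
      have h3 : insert a L \ insert a X = L \ X := by
        rw [Finset.insert_sdiff_insert, Finset.sdiff_insert_of_notMem haL]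
      rw [h3]
    rw [h1, h2]
    ring

/-- INCLUSION-EXCLUSION. Let `f_X(x) = optf f (cutP X x)` (`exists_C0_cut`), `F_L = ∑_{X ⊆ L} (-1)^{|L ∖ X|} f_X`. Then
`F_L(x) = 0` if `y x i = a₀` for some `i ∈ L`: the terms of `X` and `X ∪ {i}`, `i ∉ X`, cancel because
`cutP (X ∪ {i}) x = cutP X x` (`Hered.ext`; the same point, since `y x i = a₀`). `F_L` depends only on `z` and the
coordinates in `L`. And `∑_{L ⊆ L₀} F_L = f_{L₀}` (`Finset.sum_powerset`-identities: for fixed `X ⊆ L₀` the sum over the `L`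
with `X ⊆ L ⊆ L₀` of `(-1)^{|L ∖ X|}` is `0` unless `X = L₀`: `Finset.sum_powerset_neg_one_pow_card`), and
`F_∅ = f_∅ = 0` (`cutP ∅ x = none`). -/
theorem exists_incl_excl [DecidableEq I] [T2Space Z] [T2Space A] [CompactSpace A]
    (f : C₀(Y.St, ℂ)) (L₀ : Finset I) :
    ∃ F : Finset I → C₀(Y.St, ℂ), (∀ L ⊆ L₀, ∀ x, ∀ i ∈ L, Y.y x i = a₀ → F L x = 0) ∧
      (∀ L ⊆ L₀, ∀ x x' : Y.St, Y.z x = Y.z x' → (∀ i ∈ L, Y.y x i = Y.y x' i) →
        F L x = F L x') ∧ F ∅ = 0 ∧
      ∀ x, optf f (Y.cutP (L₀ : Set I) x) = ∑ L ∈ L₀.powerset, F L x := by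
  choose G hG using fun X : Finset I => exists_C0_cut Y (X : Set I) f
  have hF : ∀ (L : Finset I) (x : Y.St), (∑ X ∈ L.powerset, (-1 : ℂ) ^ (L \ X).card • G X) x =
      ∑ X ∈ L.powerset, (-1 : ℂ) ^ (L \ X).card * G X x := by
    intro L x
    have h1 : ∀ s : Finset (Finset I), (∑ X ∈ s, (-1 : ℂ) ^ (L \ X).card • G X) x =
        ∑ X ∈ s, (-1 : ℂ) ^ (L \ X).card * G X x := by
      intro s
      induction s using Finset.induction_on with
      | empty => simp
      | insert a s ha ih =>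
        rw [Finset.sum_insert ha, Finset.sum_insert ha, ZeroAtInftyContinuousMap.add_apply, ih]
        rfl
    exact h1 _
  have hG' : ∀ (X : Finset I) (x x' : Y.St), Y.z x = Y.z x' →
      ∀ X' : Finset I, cut a₀ (X : Set I) (Y.y x) = cut a₀ (X' : Set I) (Y.y x') →
      G X x = G X' x' := by
    intro X x x' h1 X' h2
    rw [hG, hG, F2b_optf, F2b_optf, h1, h2]
  refine ⟨fun L => ∑ X ∈ L.powerset, (-1 : ℂ) ^ (L \ X).card • G X, ?_, ?_, ?_, ?_⟩
  · intro L _ x i hi hxi
    change (∑ X ∈ L.powerset, (-1 : ℂ) ^ (L \ X).card • G X) x = 0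
    rw [hF, ← Finset.insert_erase hi, Finset.sum_powerset_insert (Finset.notMem_erase i L),
      ← Finset.sum_add_distrib]
    refine Finset.sum_eq_zero fun X hX => ?_
    have hiL : i ∉ L.erase i := Finset.notMem_erase i L
    have hiX : i ∉ X := fun h => hiL (Finset.mem_powerset.1 hX h)
    have h2 : (insert i (L.erase i) \ X).card = (L.erase i \ X).card + 1 := by
      rw [Finset.insert_sdiff_of_notMem _ hiX, Finset.card_insert_of_notMem]
      intro h
      exact hiL (Finset.mem_sdiff.1 h).1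
    have h3 : insert i (L.erase i) \ insert i X = L.erase i \ X := by
      rw [Finset.insert_sdiff_insert, Finset.sdiff_insert_of_notMem hiL]
    have h4 : G (insert i X) x = G X x := by
      refine hG' _ x x rfl _ ?_
      funext j
      by_cases hj : j ∈ (X : Set I)
      · have hj' : j ∈ ((insert i X : Finset I) : Set I) := Finset.mem_insert_of_mem hj
        rw [cut_of_mem _ hj, cut_of_mem _ hj']
      · rw [cut_of_notMem _ hj]
        by_cases hji : j = i
        · have hj' : j ∈ ((insert i X : Finset I) : Set I) := by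
            rw [hji]
            exact Finset.mem_insert_self i X
          rw [cut_of_mem _ hj', hji, hxi]
        · have hj' : j ∉ ((insert i X : Finset I) : Set I) := by
            intro h
            rcases Finset.mem_insert.1 h with h | h
            · exact hji h
            · exact hj h
          rw [cut_of_notMem _ hj']
    rw [h2, h3, h4, pow_succ]
    ring
  · intro L _ x x' hz hy
    change (∑ X ∈ L.powerset, (-1 : ℂ) ^ (L \ X).card • G X) x =
      (∑ X ∈ L.powerset, (-1 : ℂ) ^ (L \ X).card • G X) x'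
    rw [hF, hF]
    refine Finset.sum_congr rfl fun X hX => ?_
    rw [hG' X x x' hz X]
    funext j
    by_cases hj : j ∈ (X : Set I)
    · rw [cut_of_mem _ hj, cut_of_mem _ hj]
      exact hy j (Finset.mem_powerset.1 hX hj)
    · rw [cut_of_notMem _ hj, cut_of_notMem _ hj]
  · have h1 : G ∅ = 0 := by
      ext x
      rw [hG, F2b_cutP_none]
      · rfl
      · rintro ⟨i, hi, -⟩
        simp at hi
    simp [h1]
  · intro x
    change _ = ∑ L ∈ L₀.powerset, (∑ X ∈ L.powerset, (-1 : ℂ) ^ (L \ X).card • G X) x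
    rw [← hG, ← F2b_moebius L₀ fun X => G X x]
    refine Finset.sum_congr rfl fun L _ => ?_
    rw [hF]

end Pool.Agent.Lib.MP_aa9b81_an.Hs
end
end
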