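import Pool.Agent.Lib.MP_aa9b81_an.Mg.G074
import Pool.Agent.Lib.MP_aa9b81_an.Mg.G073
import Pool.Agent.Lib.MP_aa9b81_an.Mg.G078
import Pool.Agent.Lib.MP_aa9b81_an.CutM.Defs

section

/-!
# Hereditary shifts, part R0: the corner homomorphism of an injection `ρ : ℕ → ℕ`, definition
-/

open scoped ENNReal Topology ZeroAtInfty
open Function

noncomputable section

namespace Pool.Agent.Lib.MP_aa9b81_an.Hs

open Cut

variable {Γ P : Type} [Group Γ]

omit [Group Γ] in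
/-- The projection `(s, k) ↦ ξ(s, ρ k)`. -/
def pr (ρ : ℕ → ℕ) : Op Γ := pb fun q : Γ × ℕ => (q.1, ρ q.2)

open Classical in
omit [Group Γ] in
/-- `(s, ρ k) ↦ (s, k)`. -/
def emT (ρ : ℕ → ℕ) (q : Γ × ℕ) : Γ × ℕ := (q.1, if h : ∃ k, ρ k = q.2 then h.choose else 0)

open Classical in
omit [Group Γ] in
/-- The indicator function of the range of `ρ`. -/
def emW (ρ : ℕ → ℕ) (q : Γ × ℕ) : ℂ := if ∃ k, ρ k = q.2 then 1 else 0

omit [Group Γ] in
/-- The isometry `(s, ρ k) ↦ ξ(s, k)`, `(s, k) ↦ 0` for `k` not in the range of `ρ`. -/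
def em (ρ : ℕ → ℕ) : Op Γ := wop (emT ρ) (emW ρ)

omit [Group Γ] in
lemma pr_apply {ρ : ℕ → ℕ} (h : Injective ρ) (ξ : Hil Γ) (s : Γ) (k : ℕ) :
    (pr ρ ξ : Γ × ℕ → ℂ) (s, k) = (ξ : Γ × ℕ → ℂ) (s, ρ k) :=
  pb_apply (fun q q' e => by
    have h1 := Prod.ext_iff.1 e
    exact Prod.ext h1.1 (h h1.2)) ξ (s, k)

omit [Group Γ] in
/-- PROOF: if the weights at `(s, k)` and `(s', k')` are not `0` then `k = ρ m`, `k' = ρ m'` with the chosen
`m`, `m'` (`Exists.choose_spec`); equality of the images gives `s = s'`, `m = m'`. -/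
theorem em_wok {ρ : ℕ → ℕ} (h : Injective ρ) :
    WOK (emT ρ : Γ × ℕ → Γ × ℕ) (emW ρ) 1 := by
  refine ⟨zero_le_one, fun q => ?_, ?_⟩
  · unfold emW
    split_ifs <;> simp
  · intro q₁ q₂ h₁ h₂ he
    have e₁ : ∃ k, ρ k = q₁.2 := by
      by_contra hc
      exact h₁ (by unfold emW; rw [if_neg hc])
    have e₂ : ∃ k, ρ k = q₂.2 := by
      by_contra hc
      exact h₂ (by unfold emW; rw [if_neg hc])
    unfold emT at he
    rw [dif_pos e₁, dif_pos e₂] at he
    have h3 := Prod.ext_iff.1 he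
    refine Prod.ext h3.1 ?_
    rw [← e₁.choose_spec, ← e₂.choose_spec]
    exact congrArg ρ h3.2

omit [Group Γ] in
/-- PROOF: `wop_apply em_wok`; the chosen preimage of `ρ k` is `k`. -/
theorem em_apply {ρ : ℕ → ℕ} (h : Injective ρ) (ξ : Hil Γ) (s : Γ) (k : ℕ) :
    (em ρ ξ : Γ × ℕ → ℂ) (s, ρ k) = (ξ : Γ × ℕ → ℂ) (s, k) := by
  have e : ∃ m, ρ m = ((s, ρ k) : Γ × ℕ).2 := ⟨k, rfl⟩
  have h1 : e.choose = k := h e.choose_spec
  have hw : emW ρ ((s, ρ k) : Γ × ℕ) = 1 := by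
    unfold emW
    rw [if_pos e]
  have ht : emT ρ ((s, ρ k) : Γ × ℕ) = (s, k) := by
    unfold emT
    rw [dif_pos e, h1]
  rw [em, wop_apply (em_wok h), hw, ht, one_mul]

omit [Group Γ] in
/-- PROOF: `wop_apply em_wok`; the weight is `0`. -/
theorem em_apply_of_notMem {ρ : ℕ → ℕ} (h : Injective ρ) (ξ : Hil Γ) (s : Γ) {k : ℕ}
    (hk : ∀ m, ρ m ≠ k) : (em ρ ξ : Γ × ℕ → ℂ) (s, k) = 0 := by
  have hw : emW ρ ((s, k) : Γ × ℕ) = 0 := by
    unfold emW
    rw [if_neg]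
    rintro ⟨m, hm⟩
    exact hk m hm
  rw [em, wop_apply (em_wok h), hw, zero_mul]

omit [Group Γ] in
/-- PROOF: `em_apply`, `pr_apply`. -/
theorem pr_mul_em {ρ : ℕ → ℕ} (h : Injective ρ) : (pr ρ : Op Γ) * em ρ = 1 := by
  refine ContinuousLinearMap.ext fun ξ => ?_
  ext q
  obtain ⟨s, k⟩ := q
  change (pr ρ (em ρ ξ) : Γ × ℕ → ℂ) (s, k) = (ξ : Γ × ℕ → ℂ) (s, k)
  rw [pr_apply h, em_apply h]

omit [Group Γ] in
lemma norm_pr_le {ρ : ℕ → ℕ} (h : Injective ρ) : ‖(pr ρ : Op Γ)‖ ≤ 1 :=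
  norm_pb_le fun q q' e => by
    have h1 := Prod.ext_iff.1 e
    exact Prod.ext h1.1 (h h1.2)

omit [Group Γ] in
lemma norm_em_le {ρ : ℕ → ℕ} (h : Injective ρ) : ‖(em ρ : Op Γ)‖ ≤ 1 := norm_wop_le (em_wok h)

lemma norm_em_mul_pr_le {ρ : ℕ → ℕ} (h : Injective ρ) (a : Fam Γ P) (p : P) :
    ‖em ρ * a p * pr ρ‖ ≤ ‖a‖ := by
  have h2 := norm_em_le (Γ := Γ) h
  have h3 := norm_pr_le (Γ := Γ) h
  have h1 := a.norm_apply_le p
  have h4 := norm_mul_le (em ρ) (a p)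
  have h5 := norm_mul_le (em ρ * a p) (pr ρ)
  have h6 := norm_nonneg (em ρ : Op Γ)
  have h7 := norm_nonneg (pr ρ : Op Γ)
  have h8 := norm_nonneg (a p)
  have h9 := norm_nonneg a
  have h10 := norm_nonneg (em ρ * a p)
  nlinarith

/-- The corner homomorphism `a ↦ em ρ a pr ρ`. -/
def co {ρ : ℕ → ℕ} (h : Injective ρ) : Fam Γ P →ₙ+* Fam Γ P where
  toFun a := Fam.mk (fun p => em ρ * a p * pr ρ) ‖a‖ (norm_em_mul_pr_le h a)
  map_mul' a b := by
    ext1 p
    simp only [Fam.mk_apply, Fam.mul_apply]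
    have h1 := pr_mul_em (Γ := Γ) h
    calc em ρ * (a p * b p) * pr ρ = em ρ * (a p * 1 * b p) * pr ρ := by rw [mul_one]
      _ = em ρ * (a p * (pr ρ * em ρ) * b p) * pr ρ := by rw [h1]
      _ = _ := by simp only [mul_assoc]
  map_zero' := by
    ext1 p
    simp only [Fam.mk_apply, Fam.zero_apply, mul_zero, zero_mul]
  map_add' a b := by
    ext1 p
    simp only [Fam.mk_apply, Fam.add_apply, mul_add, add_mul]

lemma co_apply {ρ : ℕ → ℕ} (h : Injective ρ) (a : Fam Γ P) (p : P) :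
    co h a p = em ρ * a p * pr ρ := rfl

lemma norm_co_le {ρ : ℕ → ℕ} (h : Injective ρ) (a : Fam Γ P) : ‖co h a‖ ≤ ‖a‖ := by
  rw [Fam.norm_le_iff (norm_nonneg a)]
  intro p
  rw [co_apply]
  exact norm_em_mul_pr_le h a p

lemma co_smul {ρ : ℕ → ℕ} (h : Injective ρ) (z : ℂ) (a : Fam Γ P) : co h (z • a) = z • co h a := by
  ext1 p
  rw [co_apply, Fam.smul_apply, Fam.smul_apply, co_apply]
  simp only [mul_smul_comm, smul_mul_assoc]

/-- PROOF: coordinates: `(co h a p ξ)(s, ρ k) = (a_p (pr ρ ξ))(s, k)`. -/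
theorem co_coord {ρ : ℕ → ℕ} (h : Injective ρ) (a : Fam Γ P) (p : P) (ξ : Hil Γ) (s : Γ) (k : ℕ) :
    (co h a p ξ : Γ × ℕ → ℂ) (s, ρ k) = (a p (pr ρ ξ) : Γ × ℕ → ℂ) (s, k) := by
  rw [co_apply]
  change (em ρ (a p (pr ρ ξ)) : Γ × ℕ → ℂ) (s, ρ k) = _
  rw [em_apply h]

/-- PROOF: `co_apply`, `em_apply_of_notMem`. -/
theorem co_coord_of_notMem {ρ : ℕ → ℕ} (h : Injective ρ) (a : Fam Γ P) (p : P) (ξ : Hil Γ) (s : Γ)
    {k : ℕ} (hk : ∀ m, ρ m ≠ k) : (co h a p ξ : Γ × ℕ → ℂ) (s, k) = 0 := by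
  rw [co_apply]
  change (em ρ (a p (pr ρ ξ)) : Γ × ℕ → ℂ) (s, k) = _
  exact em_apply_of_notMem h _ s hk

end Pool.Agent.Lib.MP_aa9b81_an.Hs
end
end

section

/-!
# Hereditary shifts, part M0: multipliers of a subalgebra
-/

open scoped ENNReal Topology ZeroAtInfty
open Function Filter

noncomputable section

namespace Pool.Agent.Lib.MP_aa9b81_an.Hs

open Cut

variable {R : Type} [NormedRing R] [NormedAlgebra ℂ R]

variable {A : NonUnitalSubalgebra ℂ R}

/-- PROOF: it is enough to check the products with a generating set: if `A` is the closure of the set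
`span S`-like set: every element of `A` is a limit of finite sums of elements of `S ⊆ A`. `List.sum`
induction and the continuity of the multiplication. -/
theorem IsMul.of_dense (hA : IsClosed (A : Set R)) {S : Set R} (hS : S ⊆ A)
    (hd : ∀ a ∈ A, ∀ ε : ℝ, 0 < ε → ∃ l : List R, (∀ x ∈ l, x ∈ S) ∧ ‖a - l.sum‖ ≤ ε) {m : R}
    (h : ∀ a ∈ S, m * a ∈ A ∧ a * m ∈ A) : IsMul A m := by
  have hsum : ∀ l : List R, (∀ x ∈ l, x ∈ S) → m * l.sum ∈ A ∧ l.sum * m ∈ A := by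
    intro l
    induction l with
    | nil => intro _; simp
    | cons x l ih =>
      intro hl
      have hx := h x (hl x List.mem_cons_self)
      have hl' := ih fun y hy => hl y (List.mem_cons_of_mem x hy)
      rw [List.sum_cons, mul_add, add_mul]
      exact ⟨add_mem hx.1 hl'.1, add_mem hx.2 hl'.2⟩
  intro a ha
  have hm : 0 < ‖m‖ + 1 := by positivity
  have key : ∀ ε : ℝ, 0 < ε → ∃ l : List R, (∀ x ∈ l, x ∈ S) ∧ ‖m‖ * ‖a - l.sum‖ < ε := by
    intro ε hε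
    obtain ⟨l, hl, hle⟩ := hd a ha (ε / (‖m‖ + 1)) (by positivity)
    refine ⟨l, hl, ?_⟩
    calc ‖m‖ * ‖a - l.sum‖ ≤ ‖m‖ * (ε / (‖m‖ + 1)) :=
          mul_le_mul_of_nonneg_left hle (norm_nonneg m)
      _ < ε := by
          rw [← mul_div_assoc, div_lt_iff₀ hm]
          nlinarith [norm_nonneg m]
  constructor
  · have h1 : m * a ∈ closure (A : Set R) := by
      rw [Metric.mem_closure_iff]
      intro ε hε
      obtain ⟨l, hl, hle⟩ := key ε hε
      refine ⟨m * l.sum, (hsum l hl).1, ?_⟩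
      rw [dist_eq_norm, ← mul_sub]
      exact lt_of_le_of_lt (norm_mul_le _ _) hle
    rwa [hA.closure_eq] at h1
  · have h1 : a * m ∈ closure (A : Set R) := by
      rw [Metric.mem_closure_iff]
      intro ε hε
      obtain ⟨l, hl, hle⟩ := key ε hε
      refine ⟨l.sum * m, (hsum l hl).2, ?_⟩
      rw [dist_eq_norm, ← sub_mul]
      exact lt_of_le_of_lt (norm_mul_le _ _) (by rw [mul_comm]; exact hle)
    rwa [hA.closure_eq] at h1

end Pool.Agent.Lib.MP_aa9b81_an.Hs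
end
end

section

/-!
# Hereditary shifts, part R1a: corners and involutions
-/

open scoped ENNReal Topology ZeroAtInfty
open Function

noncomputable section

namespace Pool.Agent.Lib.MP_aa9b81_an.Hs

open Cut

variable {Γ P : Type} [Group Γ] [TopologicalSpace P] [MulAction Γ P]

/-- PROOF: `Fam.ext`, `ContinuousLinearMap.ext`, `lp.ext`, `funext ⟨s, k⟩`; if `k = ρ m`: `co_coord`,
`Cut.gen_apply`, `pr_apply`; if `k` is not in the range: `co_coord_of_notMem` and `k ≠ ρ i`. -/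
theorem co_gen {ρ : ℕ → ℕ} (h : Injective ρ) (f : C₀(P, ℂ)) (g : Γ) (i j : ℕ) :
    co h (gen f g i j : Fam Γ P) = gen f g (ρ i) (ρ j) := by
  refine Fam.ext fun p => ContinuousLinearMap.ext fun ξ => lp.ext (funext fun q => ?_)
  obtain ⟨s, k⟩ := q
  by_cases hk : ∃ m, ρ m = k
  · obtain ⟨m, rfl⟩ := hk
    rw [co_coord, gen_apply, gen_apply, pr_apply h]
    by_cases hm : m = i
    · rw [if_pos hm, if_pos (congrArg ρ hm)]
    · rw [if_neg hm, if_neg fun e => hm (h e)]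
  · rw [co_coord_of_notMem h _ _ _ _ fun m hm => hk ⟨m, hm⟩, gen_apply,
      if_neg fun e => hk ⟨i, e.symm⟩]

/-- PROOF: as `Cut.pull_mem_cp` (CutM/C.lean): `co h` maps generators to generators, is additive,
multiplicative, complex linear (`co_smul`) and contractive (`norm_co_le`), and `cp Γ P` is closed. -/
theorem co_mem_cp {ρ : ℕ → ℕ} (h : Injective ρ) : ∀ a ∈ cp Γ P, co h a ∈ cp Γ P := by
  have hcont : Continuous (co h : Fam Γ P → Fam Γ P) := by
    have hl : LipschitzWith 1 (co h : Fam Γ P → Fam Γ P) := by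
      refine LipschitzWith.of_dist_le_mul fun a b => ?_
      rw [dist_eq_norm, dist_eq_norm, ← map_sub, NNReal.coe_one, one_mul]
      exact norm_co_le h (a - b)
    exact hl.continuous
  have hcl : IsClosed {a : Fam Γ P | co h a ∈ cp Γ P} :=
    (isClosed_cp (Γ := Γ) (Y := P)).preimage hcont
  have hsub : ((NonUnitalAlgebra.adjoin ℂ {a : Fam Γ P | ∃ f g i j, a = gen f g i j} :
      NonUnitalSubalgebra ℂ (Fam Γ P)) : Set (Fam Γ P)) ⊆ {a : Fam Γ P | co h a ∈ cp Γ P} := by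
    intro a ha
    refine NonUnitalAlgebra.adjoin_induction (p := fun a _ => co h a ∈ cp Γ P)
      ?_ ?_ ?_ ?_ ?_ ha
    · rintro _ ⟨f, g, i, j, rfl⟩
      rw [co_gen h]
      exact NonUnitalSubalgebra.le_topologicalClosure _
        (NonUnitalAlgebra.subset_adjoin ℂ ⟨_, _, _, _, rfl⟩)
    · intro x y _ _ hx hy
      rw [map_add]
      exact add_mem hx hy
    · rw [map_zero]
      exact zero_mem _
    · intro x y _ _ hx hy
      rw [map_mul]
      exact mul_mem hx hy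
    · intro c x _ hx
      rw [co_smul]
      exact (cp Γ P).smul_mem c hx
  intro a ha
  exact closure_minimal hsub hcl ha

omit [TopologicalSpace P] [MulAction Γ P] in
/-- The operator `ξ ↦ ((s, k) ↦ ξ(s, σ k))`, for an involution `σ`. -/
def sw {σ : ℕ → ℕ} (h : Involutive σ) : Fam Γ P :=
  Fam.mk (fun _ => pr σ) 1 fun _ => norm_pr_le h.injective

omit [TopologicalSpace P] [MulAction Γ P] in
/-- PROOF: coordinates, `pr_apply`. -/
theorem sw_mul_sw {σ : ℕ → ℕ} (h : Involutive σ) : (sw h : Fam Γ P) * sw h = 1 := by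
  refine Fam.ext fun p => ContinuousLinearMap.ext fun ξ => lp.ext (funext fun q => ?_)
  obtain ⟨s, k⟩ := q
  have e : (((sw h : Fam Γ P) * sw h : Fam Γ P) p) ξ = pr σ (pr σ ξ) := rfl
  rw [e, pr_apply h.injective, pr_apply h.injective, h k]
  rfl

/-- PROOF: coordinates (`pr_apply`, `Cut.gen_apply`): `σ k = i ↔ k = σ i`. -/
theorem sw_mul_gen {σ : ℕ → ℕ} (h : Involutive σ) (f : C₀(P, ℂ)) (g : Γ) (i j : ℕ) :
    (sw h : Fam Γ P) * gen f g i j = gen f g (σ i) j := by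
  refine Fam.ext fun p => ContinuousLinearMap.ext fun ξ => lp.ext (funext fun q => ?_)
  obtain ⟨s, k⟩ := q
  have e : ((sw h : Fam Γ P) * gen f g i j) p ξ = pr σ ((gen f g i j : Fam Γ P) p ξ) := rfl
  rw [e, pr_apply h.injective, gen_apply, gen_apply]
  by_cases hk : σ k = i
  · rw [if_pos hk, if_pos]
    rw [← hk, h k]
  · rw [if_neg hk, if_neg]
    intro h2
    exact hk (by rw [h2, h i])

end Pool.Agent.Lib.MP_aa9b81_an.Hs
end
end

section

/-!
# Hereditary shifts, part R1: corners and involutions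
-/

open scoped ENNReal Topology ZeroAtInfty
open Function

noncomputable section

namespace Pool.Agent.Lib.MP_aa9b81_an.Hs

open Cut

variable {Γ P : Type} [Group Γ] [TopologicalSpace P] [MulAction Γ P]

/-- PROOF: coordinates: `(sw ξ)(s, j) = ξ(s, σ j)`. -/
theorem gen_mul_sw {σ : ℕ → ℕ} (h : Involutive σ) (f : C₀(P, ℂ)) (g : Γ) (i j : ℕ) :
    gen f g i j * (sw h : Fam Γ P) = gen f g i (σ j) := by
  refine Fam.ext fun p => ContinuousLinearMap.ext fun ξ => ?_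
  ext1
  funext q
  obtain ⟨s, k⟩ := q
  have h1 : ((gen f g i j * (sw h : Fam Γ P)) p ξ : Γ × ℕ → ℂ) (s, k)
      = (gen f g i j p (pr σ ξ) : Γ × ℕ → ℂ) (s, k) := rfl
  rw [h1, gen_apply, gen_apply, pr_apply h.injective]

omit [TopologicalSpace P] [MulAction Γ P] in
/-- PROOF: `em σ = pr σ` since `em σ = em σ (pr σ)(pr σ) = pr σ` as `em σ pr σ = 1` for a bijective `σ` (or
coordinates: `co_coord` with `k = σ (σ k)`). -/
theorem co_eq_sw {σ : ℕ → ℕ} (h : Involutive σ) (a : Fam Γ P) :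
    co h.injective a = sw h * a * sw h := by
  refine Fam.ext fun p => ContinuousLinearMap.ext fun ξ => ?_
  ext1
  funext q
  obtain ⟨s, k⟩ := q
  have h1 : ((sw h * a * sw h : Fam Γ P) p ξ : Γ × ℕ → ℂ) (s, k)
      = (pr σ (a p (pr σ ξ)) : Γ × ℕ → ℂ) (s, k) := rfl
  have h2 := co_coord h.injective a p ξ s (σ k)
  rw [h k] at h2
  rw [h1, pr_apply h.injective, h2]

/-- PROOF: `IsMul.of_dense` with the set of all `gen f g i j`, by `Cut.exists_val_near` (`val l` is the sum of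
the list `l.map Dat.gen`), `sw_mul_gen`, `gen_mul_sw`; `Cut.isClosed_cp`. -/
theorem isMul_sw [ContinuousConstSMul Γ P] {σ : ℕ → ℕ} (h : Involutive σ) :
    IsMul (cp Γ P) (sw h : Fam Γ P) := by
  have hgen : ∀ (f : C₀(P, ℂ)) (g : Γ) (i j : ℕ), (gen f g i j : Fam Γ P) ∈ cp Γ P := by
    intro f g i j
    exact NonUnitalSubalgebra.le_topologicalClosure _
      (NonUnitalAlgebra.subset_adjoin ℂ ⟨f, g, i, j, rfl⟩)
  refine IsMul.of_dense (S := {a : Fam Γ P | ∃ f g i j, a = gen f g i j}) isClosed_cp ?_ ?_ ?_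
  · rintro _ ⟨f, g, i, j, rfl⟩
    exact hgen f g i j
  · intro a ha ε hε
    obtain ⟨l, -, hl⟩ := exists_val_near ha hε
    refine ⟨l.map Dat.gen, ?_, hl.le⟩
    intro x hx
    obtain ⟨d, -, rfl⟩ := List.mem_map.1 hx
    exact ⟨d.f, d.g, d.i, d.j, rfl⟩
  · rintro _ ⟨f, g, i, j, rfl⟩
    rw [sw_mul_gen, gen_mul_sw]
    exact ⟨hgen _ _ _ _, hgen _ _ _ _⟩

end Pool.Agent.Lib.MP_aa9b81_an.Hs
end
end

section

/-!
# Hereditary shifts, part R2a: involutions act trivially on K-theory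
-/

open scoped ENNReal Topology ZeroAtInfty
open Function

noncomputable section

namespace Pool.Agent.Lib.MP_aa9b81_an.Hs

open Cut

section Abstract

variable {R : Type} [NormedRing R] [NormedAlgebra ℂ R] {A : NonUnitalSubalgebra ℂ R}

/-- PROOF: `m (w - 1) m⁻¹ ∈ A`, `m (w⁻¹ - 1) m⁻¹ ∈ A`. -/
theorem conj_mem_GL1 {m w : Rˣ} (hm : IsMul A (m : R)) (hm' : IsMul A ((m⁻¹ : Rˣ) : R))
    (hw : w ∈ GL1 A) : m * w * m⁻¹ ∈ GL1 A := by
  have key : ∀ x : Rˣ, ((x : R) - 1) ∈ A → ((m * x * m⁻¹ : Rˣ) : R) - 1 ∈ A := by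
    intro x hx
    have h1 := (hm' _ (hm _ hx).1).2
    have h2 : ((m * x * m⁻¹ : Rˣ) : R) - 1 = (m : R) * ((x : R) - 1) * ((m⁻¹ : Rˣ) : R) := by
      rw [mul_sub, sub_mul, mul_one, Units.mul_inv]
      push_cast
      rfl
    rw [h2]
    exact h1
  refine ⟨key w hw.1, ?_⟩
  have h3 : (m * w * m⁻¹)⁻¹ = m * w⁻¹ * m⁻¹ := by group
  rw [h3]
  exact key w⁻¹ hw.2

/-- The unit `1 + (z - 1)(1 - s)/2` for an involution `s` of a ring and `z ≠ 0`, with the inverse
`1 + (z⁻¹ - 1)(1 - s)/2`. PROOF: `q = (1 - s)/2` is an idempotent and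
`(z - 1) + (z⁻¹ - 1) + (z - 1)(z⁻¹ - 1) = 0`. -/
theorem exists_rot {s : R} (hs : s * s = 1) {z : ℂ} (hz : z ≠ 0) : ∃ m : Rˣ,
    (m : R) = 1 + ((z - 1) / 2) • (1 - s) ∧ ((m⁻¹ : Rˣ) : R) = 1 + ((z⁻¹ - 1) / 2) • (1 - s) := by
  have hq : (1 - s) * (1 - s) = (2 : ℂ) • (1 - s) := by
    rw [two_smul, mul_sub, mul_one, sub_mul, one_mul, hs]
    abel
  have key : ∀ a b : ℂ, a + b + a * b * 2 = 0 →
      (1 + a • (1 - s)) * (1 + b • (1 - s)) = 1 := by
    intro a b h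
    have h1 : (1 + a • (1 - s)) * (1 + b • (1 - s))
        = 1 + (a + b + a * b * 2) • (1 - s) := by
      rw [mul_add, mul_one, add_mul, one_mul, smul_mul_smul_comm, hq, smul_smul, add_smul, add_smul]
      abel
    rw [h1, h, zero_smul, add_zero]
  refine ⟨⟨1 + ((z - 1) / 2) • (1 - s), 1 + ((z⁻¹ - 1) / 2) • (1 - s), key _ _ ?_, key _ _ ?_⟩,
    rfl, rfl⟩
  · field_simp
    ring
  · field_simp
    ring

end Abstract

end Pool.Agent.Lib.MP_aa9b81_an.Hs
end
end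

section

/-!
# Hereditary shifts, part R2b: involutions act trivially on K-theory
-/

open scoped ENNReal Topology ZeroAtInfty
open Function

noncomputable section

namespace Pool.Agent.Lib.MP_aa9b81_an.Hs

open Cut

section Abstract

variable {R : Type} [NormedRing R] [NormedAlgebra ℂ R] {A : NonUnitalSubalgebra ℂ R}

/-- PROOF: for `t ∈ [0,1]` let `m_t` be the unit of `exists_rot` for `z = exp(iπt)`; `m_0 = 1`, `m_1 = s`. The path
`t ↦ m_t u m_t⁻¹` is in `GL1 A` (`conj_mem_GL1`, `IsMul`: `1`, `s` are multipliers) and is norm continuous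
(`t ↦ exp(iπt)` is continuous). `Cut.E1_of_path`. -/
theorem conj_involution [CompleteSpace R] {s : Rˣ} (hs : (s : R) * s = 1) (hm : IsMul A (s : R))
    {u : Rˣ} (hu : u ∈ GL1 A) : u⁻¹ * (s * u * s⁻¹) ∈ E1 A := by
  have hz : ∀ t : ℝ, Complex.exp ((t : ℂ) * ((Real.pi : ℂ) * Complex.I)) ≠ 0 :=
    fun t => Complex.exp_ne_zero _
  choose m hm1 hm2 using fun t : ℝ => exists_rot hs (hz t)
  have hmul : ∀ z : ℂ, IsMul A (1 + z • (1 - (s : R))) := fun z =>
    (IsMul.one).add ((IsMul.one.sub hm).smul z)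
  have e0 : m 0 = 1 := by
    apply Units.ext
    rw [hm1]
    simp
  have e1 : m 1 = s := by
    apply Units.ext
    rw [hm1]
    have h1 : Complex.exp (((1 : ℝ) : ℂ) * ((Real.pi : ℂ) * Complex.I)) = -1 := by
      rw [Complex.ofReal_one, one_mul, Complex.exp_pi_mul_I]
    rw [h1]
    have h2 : ((-1 : ℂ) - 1) / 2 = -1 := by norm_num
    rw [h2, neg_one_smul]
    abel
  have h := E1_of_path (A := A) (fun t => m t * u * (m t)⁻¹) (fun t _ => ?_) ?_
  · simp only [e0, e1] at h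
    have h3 : ((1 : Rˣ) * u * 1⁻¹)⁻¹ * (s * u * s⁻¹) = u⁻¹ * (s * u * s⁻¹) := by group
    rwa [h3] at h
  · refine conj_mem_GL1 ?_ ?_ hu
    · rw [hm1]
      exact hmul _
    · rw [hm2]
      exact hmul _
  · refine Continuous.continuousOn ?_
    have h4 : (fun t : ℝ => ((m t * u * (m t)⁻¹ : Rˣ) : R)) = fun t : ℝ =>
        (1 + ((Complex.exp ((t : ℂ) * ((Real.pi : ℂ) * Complex.I)) - 1) / 2) • (1 - (s : R))) * (u : R)
          * (1 + (((Complex.exp ((t : ℂ) * ((Real.pi : ℂ) * Complex.I)))⁻¹ - 1) / 2) •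
            (1 - (s : R))) := by
      funext t
      rw [Units.val_mul, Units.val_mul, hm1, hm2]
    rw [h4]
    have h5 : Continuous fun t : ℝ => Complex.exp ((t : ℂ) * ((Real.pi : ℂ) * Complex.I)) := by
      fun_prop
    have h6 : Continuous fun t : ℝ => (Complex.exp ((t : ℂ) * ((Real.pi : ℂ) * Complex.I)))⁻¹ :=
      h5.inv₀ hz
    refine ((continuous_const.add ((Continuous.smul ((h5.sub continuous_const).div_const 2)
      continuous_const))).mul continuous_const).mul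
      (continuous_const.add (Continuous.smul ((h6.sub continuous_const).div_const 2)
        continuous_const))

end Abstract

end Pool.Agent.Lib.MP_aa9b81_an.Hs
end
end

section

/-!
# Hereditary shifts, part R4a: corners act trivially on K-theory, conclusion
-/

open scoped ENNReal Topology ZeroAtInfty
open Function

noncomputable section

namespace Pool.Agent.Lib.MP_aa9b81_an.Hs

open Cut

variable {Γ P : Type} [Group Γ] [TopologicalSpace P] [MulAction Γ P]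

/-- PROOF: `σ k = k + M` for `k < N`, `σ (k + M) = k` for `k < N`, and `σ k = k` otherwise (`M ≥ N`). -/
theorem exists_invol (N M : ℕ) (h : N ≤ M) : ∃ σ : ℕ → ℕ, Involutive σ ∧ ∀ k < N, σ k = k + M := by
  refine ⟨fun k => if k < N then k + M else if M ≤ k ∧ k < N + M then k - M else k, ?_, ?_⟩
  · intro k
    dsimp only
    split_ifs <;> omega
  · intro k hk
    dsimp only
    rw [if_pos hk]

/-- PROOF: `τ (ρ k) = k + M`, `τ (k + M) = ρ k` for `k < N`, `τ k = k` otherwise; the two sets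
`{ρ k | k < N}` and `{k + M | k < N}` are disjoint since `ρ k < M` for `k < N`, and `ρ` is injective. -/
theorem exists_invol' {ρ : ℕ → ℕ} (hρ : Injective ρ) (N M : ℕ) (h : ∀ k < N, ρ k < M) :
    ∃ τ : ℕ → ℕ, Involutive τ ∧ ∀ k < N, τ (ρ k) = k + M := by
  classical
  have hch : ∀ k, k < N → ∀ hx : (∃ m, m < N ∧ ρ m = ρ k), hx.choose = k := by
    intro k hk hx
    exact hρ hx.choose_spec.2
  refine ⟨fun x => if hx : ∃ m, m < N ∧ ρ m = x then hx.choose + M
    else if M ≤ x ∧ x < N + M then ρ (x - M) else x, ?_, ?_⟩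
  · intro x
    by_cases hx : ∃ m, m < N ∧ ρ m = x
    · have h1 := hx.choose_spec
      have h2 : ¬ ∃ m, m < N ∧ ρ m = hx.choose + M := by
        rintro ⟨m, hm, hm2⟩
        have := h m hm
        omega
      dsimp only
      rw [dif_pos hx, dif_neg h2, if_pos (by omega), Nat.add_sub_cancel]
      exact h1.2
    · by_cases hx2 : M ≤ x ∧ x < N + M
      · have h3 : ∃ m, m < N ∧ ρ m = ρ (x - M) := ⟨x - M, by omega, rfl⟩
        dsimp only
        rw [dif_neg hx, if_pos hx2, dif_pos h3, hch (x - M) (by omega) h3]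
        omega
      · dsimp only
        rw [dif_neg hx, if_neg hx2, dif_neg hx, if_neg hx2]
  · intro k hk
    have h3 : ∃ m, m < N ∧ ρ m = ρ k := ⟨k, hk, rfl⟩
    dsimp only
    rw [dif_pos h3, hch k hk h3]

end Pool.Agent.Lib.MP_aa9b81_an.Hs
end
end

section

/-!
# Hereditary shifts, part M2b: the compact operators of the module, and multipliers
-/

open scoped ENNReal Topology ZeroAtInfty
open Function Filter Set

noncomputable section

namespace Pool.Agent.Lib.MP_aa9b81_an.Hs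

open Cut

variable {Γ B P : Type} [Group Γ] [MulAction Γ B] [Nonempty B] [TopologicalSpace P] [MulAction Γ P]

omit [Group Γ] [MulAction Γ B] [MulAction Γ P] [Nonempty B] in
/-- PROOF: for `ε > 0`: continuity at `p ∈ U` clear; for `p ∉ U` the set `{‖f‖ ≥ ε/(C+1)}` is compact, so closed
(`P` Hausdorff), and does not contain `p`: off it `‖f k‖ < ε`. At infinity: `‖f k‖ ≤ C ‖f‖`. -/
theorem exists_C0_mul [T2Space P] {U : Set P} (hU : IsOpen U) (f : C₀(P, ℂ))
    (hf : ∀ p, f p ≠ 0 → p ∈ U) (k : P → ℂ) {C : ℝ} (hk : ∀ p, ‖k p‖ ≤ C)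
    (hc : ContinuousOn k U) : ∃ F : C₀(P, ℂ), ∀ p, F p = f p * k p := by
  have hle : ∀ p, ‖f p * k p‖ ≤ ‖f p‖ * C := fun p => by
    rw [norm_mul]
    exact mul_le_mul_of_nonneg_left (hk p) (norm_nonneg _)
  have hcont : Continuous fun p => f p * k p := by
    rw [continuous_iff_continuousAt]
    intro p
    by_cases hp : p ∈ U
    · exact f.continuous.continuousAt.mul (hc.continuousAt (hU.mem_nhds hp))
    · have h0 : f p = 0 := by
        by_contra h
        exact hp (hf p h)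
      have h1 : Tendsto (fun q => ‖f q‖ * C) (𝓝 p) (𝓝 0) := by
        have h2 : Tendsto (fun q => ‖f q‖) (𝓝 p) (𝓝 0) := by
          have h3 : Tendsto (fun q => ‖f q‖) (𝓝 p) (𝓝 ‖f p‖) := (f.continuous.tendsto p).norm
          rw [h0, norm_zero] at h3
          exact h3
        have h4 := h2.mul_const C
        rw [zero_mul] at h4
        exact h4
      change Tendsto (fun q => f q * k q) (𝓝 p) (𝓝 (f p * k p))
      rw [h0, zero_mul]
      exact squeeze_zero_norm hle h1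
  have hinf : Tendsto (fun p => f p * k p) (cocompact P) (𝓝 0) := by
    have h1 : Tendsto (fun q => ‖f q‖ * C) (cocompact P) (𝓝 0) := by
      have h3 := (f.zero_at_infty').norm
      rw [norm_zero] at h3
      have h4 := h3.mul_const C
      rw [zero_mul] at h4
      exact h4
    exact squeeze_zero_norm hle h1
  exact ⟨⟨⟨fun p => f p * k p, hcont⟩, hinf⟩, fun p => rfl⟩

end Pool.Agent.Lib.MP_aa9b81_an.Hs
end
end

section

/-!
# Hereditary shifts, part S0a: strong limits of families of operators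
-/

open scoped ENNReal Topology ZeroAtInfty
open Function Filter

noncomputable section

namespace Pool.Agent.Lib.MP_aa9b81_an.Hs

open Cut

variable {Γ P ι : Type} [Group Γ] [Nonempty ι] [Preorder ι] [IsDirectedOrder ι]

omit [Group Γ] [Nonempty ι] [IsDirectedOrder ι] in
/-- `B` is the strong limit of the families `F L`. -/
def SL (F : ι → Fam Γ P) (B : Fam Γ P) : Prop :=
  ∀ p ξ, Tendsto (fun L => F L p ξ) atTop (𝓝 (B p ξ))

/-- PROOF: `tendsto_nhds_unique`. -/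
theorem SL.unique {F : ι → Fam Γ P} {B B' : Fam Γ P} (h : SL F B) (h' : SL F B') : B = B' := by
  refine Fam.ext fun p => ContinuousLinearMap.ext fun ξ => ?_
  exact tendsto_nhds_unique (h p ξ) (h' p ξ)

theorem SL.add {F F' : ι → Fam Γ P} {B B' : Fam Γ P} (h : SL F B) (h' : SL F' B') :
    SL (fun L => F L + F' L) (B + B') := by
  intro p ξ
  exact (h p ξ).add (h' p ξ)

theorem SL.smul {F : ι → Fam Γ P} {B : Fam Γ P} (z : ℂ) (h : SL F B) :
    SL (fun L => z • F L) (z • B) := by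
  intro p ξ
  exact (h p ξ).const_smul z

theorem SL.const (B : Fam Γ P) : SL (fun _ : ι => B) B := by
  intro p ξ
  exact tendsto_const_nhds

/-- PROOF: `‖F_L F'_L ξ - B B' ξ‖ ≤ C ‖F'_L ξ - B' ξ‖ + ‖F_L (B' ξ) - B (B' ξ)‖`. -/
theorem SL.mul {F F' : ι → Fam Γ P} {B B' : Fam Γ P} {C : ℝ} (hC : ∀ L, ‖F L‖ ≤ C) (h : SL F B)
    (h' : SL F' B') : SL (fun L => F L * F' L) (B * B') := by
  intro p ξ
  rw [tendsto_iff_norm_sub_tendsto_zero]
  have h1 : Tendsto (fun L => C * ‖F' L p ξ - B' p ξ‖ + ‖F L p (B' p ξ) - B p (B' p ξ)‖) atTop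
      (𝓝 0) := by
    have h2 := (tendsto_iff_norm_sub_tendsto_zero.1 (h' p ξ)).const_mul C
    have h3 := tendsto_iff_norm_sub_tendsto_zero.1 (h p (B' p ξ))
    simpa using h2.add h3
  refine squeeze_zero (fun L => norm_nonneg _) (fun L => ?_) h1
  have e : (F L * F' L) p ξ - (B * B') p ξ
      = F L p (F' L p ξ - B' p ξ) + (F L p (B' p ξ) - B p (B' p ξ)) := by
    rw [map_sub]
    change F L p (F' L p ξ) - B p (B' p ξ) = _
    abel
  rw [e]
  refine (norm_add_le _ _).trans (add_le_add ?_ le_rfl)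
  refine ((F L p).le_opNorm _).trans ?_
  exact mul_le_mul_of_nonneg_right (((F L).norm_apply_le p).trans (hC L)) (norm_nonneg _)

end Pool.Agent.Lib.MP_aa9b81_an.Hs
end
end

section

/-!
# Hereditary shifts, part S0b: strong limits of families of operators
-/

open scoped ENNReal Topology ZeroAtInfty
open Function Filter

noncomputable section

namespace Pool.Agent.Lib.MP_aa9b81_an.Hs

open Cut

variable {Γ P ι : Type} [Group Γ] [Nonempty ι] [Preorder ι] [IsDirectedOrder ι]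

/-- PROOF: `‖B_p ξ‖ = lim ‖F_L,p ξ‖ ≤ C ‖ξ‖`: `le_of_tendsto`, `ContinuousLinearMap.opNorm_le_bound`,
`Fam.norm_le_iff`. -/
theorem SL.norm_le {F : ι → Fam Γ P} {B : Fam Γ P} {C : ℝ} (hC0 : 0 ≤ C) (hC : ∀ L, ‖F L‖ ≤ C)
    (h : SL F B) : ‖B‖ ≤ C := by
  rw [Fam.norm_le_iff hC0]
  intro p
  refine ContinuousLinearMap.opNorm_le_bound _ hC0 fun ξ => ?_
  refine le_of_tendsto (h p ξ).norm (Eventually.of_forall fun L => ?_)
  refine ((F L p).le_opNorm _).trans ?_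
  exact mul_le_mul_of_nonneg_right (((F L).norm_apply_le p).trans (hC L)) (norm_nonneg _)

/-- PROOF: for `n` let `F_n`, `B_n` be given for `ε = 1/(n+1)`. By `SL.norm_le` for the differences
(`SL.add`, `SL.smul`) `‖B_n - B_m‖ ≤ 1/(n+1) + 1/(m+1)`, so `B_n` is a Cauchy sequence in `Fam Γ P`; let `B` be its limit.
`‖F_L ξ - B ξ‖ ≤ ‖F_L - F_{n,L}‖ ‖ξ‖ + ‖F_{n,L} ξ - B_n ξ‖ + ‖B_n - B‖ ‖ξ‖`. -/
theorem SL.exists_of_limit {F : ι → Fam Γ P} (h : ∀ ε : ℝ, 0 < ε → ∃ (F' : ι → Fam Γ P)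
    (B' : Fam Γ P), SL F' B' ∧ ∀ L, ‖F L - F' L‖ ≤ ε) : ∃ B, SL F B := by
  have hpos : ∀ n : ℕ, (0 : ℝ) < 1 / ((n : ℝ) + 1) := fun n => by positivity
  choose F' B' hSL hF using fun n : ℕ => h (1 / ((n : ℝ) + 1)) (hpos n)
  have hd : ∀ n m, ‖B' n - B' m‖ ≤ 1 / ((n : ℝ) + 1) + 1 / ((m : ℝ) + 1) := by
    intro n m
    have h1 : SL (fun L => F' n L + (-1 : ℂ) • F' m L) (B' n + (-1 : ℂ) • B' m) :=
      (hSL n).add ((hSL m).smul (-1))
    have h2 : B' n - B' m = B' n + (-1 : ℂ) • B' m := by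
      rw [neg_one_smul, sub_eq_add_neg]
    rw [h2]
    refine h1.norm_le (by positivity) fun L => ?_
    have e : F' n L + (-1 : ℂ) • F' m L = (F L - F' m L) - (F L - F' n L) := by
      rw [neg_one_smul]
      abel
    rw [e]
    refine (norm_sub_le _ _).trans ?_
    have h3 := hF n L
    have h4 := hF m L
    linarith
  have hlim : Tendsto (fun n : ℕ => 1 / ((n : ℝ) + 1)) atTop (𝓝 0) :=
    tendsto_one_div_add_atTop_nhds_zero_nat
  have hcau : CauchySeq B' := by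
    refine cauchySeq_of_le_tendsto_0' (fun n => 2 * (1 / ((n : ℝ) + 1))) ?_ (by
      simpa using hlim.const_mul 2)
    intro n m hnm
    rw [dist_eq_norm]
    refine (hd n m).trans ?_
    have h5 : 1 / ((m : ℝ) + 1) ≤ 1 / ((n : ℝ) + 1) := by
      refine one_div_le_one_div_of_le (by positivity) ?_
      have : (n : ℝ) ≤ m := by exact_mod_cast hnm
      linarith
    linarith
  obtain ⟨B, hB⟩ := cauchySeq_tendsto_of_complete hcau
  refine ⟨B, fun p ξ => ?_⟩
  rw [Metric.tendsto_nhds]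
  intro ε hε
  have hB' : Tendsto (fun n => ‖B' n - B‖) atTop (𝓝 0) := tendsto_iff_norm_sub_tendsto_zero.1 hB
  have h6 : Tendsto (fun n : ℕ => (1 / ((n : ℝ) + 1)) * ‖ξ‖ + ‖B' n - B‖ * ‖ξ‖) atTop (𝓝 0) := by
    simpa using (hlim.mul_const ‖ξ‖).add (hB'.mul_const ‖ξ‖)
  obtain ⟨n, hn⟩ := (h6.eventually (gt_mem_nhds (half_pos hε))).exists
  have h7 := Metric.tendsto_nhds.1 (hSL n p ξ) (ε / 2) (half_pos hε)
  filter_upwards [h7] with L hL
  rw [dist_eq_norm] at hL ⊢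
  have e : F L p ξ - B p ξ = (F L - F' n L) p ξ + (F' n L p ξ - B' n p ξ) + (B' n - B) p ξ := by
    change _ = (F L p ξ - F' n L p ξ) + _ + (B' n p ξ - B p ξ)
    abel
  rw [e]
  have h8 : ‖(F L - F' n L) p ξ‖ ≤ (1 / ((n : ℝ) + 1)) * ‖ξ‖ := by
    refine (((F L - F' n L) p).le_opNorm _).trans ?_
    exact mul_le_mul_of_nonneg_right (((F L - F' n L).norm_apply_le p).trans (hF n L))
      (norm_nonneg _)
  have h9 : ‖(B' n - B) p ξ‖ ≤ ‖B' n - B‖ * ‖ξ‖ := by
    refine (((B' n - B) p).le_opNorm _).trans ?_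
    exact mul_le_mul_of_nonneg_right ((B' n - B).norm_apply_le p) (norm_nonneg _)
  refine ((norm_add_le _ _).trans (add_le_add (norm_add_le _ _) le_rfl)).trans_lt ?_
  linarith

end Pool.Agent.Lib.MP_aa9b81_an.Hs
end
end

section

/-!
# Hereditary shifts, part S0: strong limits of families of operators
-/

open scoped ENNReal Topology ZeroAtInfty
open Function Filter

noncomputable section

namespace Pool.Agent.Lib.MP_aa9b81_an.Hs

open Cut

variable {Γ P ι : Type} [Group Γ] [Nonempty ι] [Preorder ι] [IsDirectedOrder ι]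

/-- PROOF: let `ξ` be given, `ε > 0`. There is a finite set `T ⊆ Γ` such that the restriction `ξ'` of `ξ` to `T × ℕ` has
`‖ξ - ξ'‖ ≤ ε` (`sl`-decomposition: `norm_sq_sl` for the bijection `Γ × ℕ ≃ Γ × ℕ`, or the sum of squares); `ξ'` is
a finite sum of vectors supported in one `{t} × ℕ`, so `F L p ξ' = B p ξ'` eventually, and
`‖F L p (ξ - ξ')‖ ≤ C ε`. -/
theorem SL.of_slices {F : ι → Fam Γ P} {B : Fam Γ P} {C : ℝ} (hC : ∀ L, ‖F L‖ ≤ C)
    (h : ∀ p (t : Γ), ∀ᶠ L in atTop, ∀ ξ : Hil Γ, (∀ s k, s ≠ t → (ξ : Γ × ℕ → ℂ) (s, k) = 0) →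
      F L p ξ = B p ξ) : SL F B := by
  classical
  intro p ξ
  rw [Metric.tendsto_nhds]
  intro ε hε
  obtain ⟨L₀⟩ := ‹Nonempty ι›
  have hC0 : 0 ≤ C := (norm_nonneg _).trans (hC L₀)
  have hD : 0 < C + ‖B‖ + 1 := by
    have := norm_nonneg B
    linarith
  have hs := lp.hasSum_single (E := fun _ : Γ × ℕ => ℂ) (p := 2) (by simp) ξ
  obtain ⟨T, hT⟩ := (Metric.tendsto_nhds.1 hs (ε / (C + ‖B‖ + 1)) (by positivity)).exists
  rw [dist_eq_norm] at hT
  set ξ' : Hil Γ := ∑ q ∈ T, lp.single 2 q ((ξ : Γ × ℕ → ℂ) q) with hξ'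
  have h1 : ∀ᶠ L in atTop, ∀ q ∈ T, F L p (lp.single 2 q ((ξ : Γ × ℕ → ℂ) q))
      = B p (lp.single 2 q ((ξ : Γ × ℕ → ℂ) q)) := by
    rw [Filter.eventually_all_finset]
    intro q _
    filter_upwards [h p q.1] with L hL
    refine hL _ fun s k hs => ?_
    refine lp.single_apply_ne (E := fun _ : Γ × ℕ => ℂ) 2 q _ ?_
    rintro rfl
    exact hs rfl
  filter_upwards [h1] with L hL
  have h2 : F L p ξ' = B p ξ' := by
    rw [hξ', map_sum, map_sum]
    exact Finset.sum_congr rfl hL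
  rw [dist_eq_norm]
  have e : F L p ξ - B p ξ = B p (ξ' - ξ) - F L p (ξ' - ξ) := by
    rw [map_sub, map_sub, h2]
    abel
  rw [e]
  have h3 : ‖B p (ξ' - ξ)‖ ≤ ‖B‖ * ‖ξ' - ξ‖ :=
    ((B p).le_opNorm _).trans (mul_le_mul_of_nonneg_right (B.norm_apply_le p) (norm_nonneg _))
  have h4 : ‖F L p (ξ' - ξ)‖ ≤ C * ‖ξ' - ξ‖ :=
    ((F L p).le_opNorm _).trans (mul_le_mul_of_nonneg_right
      (((F L).norm_apply_le p).trans (hC L)) (norm_nonneg _))
  have h5 : ‖ξ' - ξ‖ * (C + ‖B‖ + 1) < ε := by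
    rwa [lt_div_iff₀ hD] at hT
  have h6 := norm_nonneg (ξ' - ξ)
  refine (norm_sub_le _ _).trans_lt ?_
  nlinarith

end Pool.Agent.Lib.MP_aa9b81_an.Hs
end
end

section

/-!
# The machine, part A0: conjugation by invertible multipliers
-/

open scoped ENNReal Topology
open Function

noncomputable section

namespace Pool.Agent.Lib.MP_aa9b81_an.Mc

open Cut Hs

variable {R : Type} [NormedRing R] [NormedAlgebra ℂ R] {A : NonUnitalSubalgebra ℂ R}

/-- PROOF: by `Cut.E1_le_closure` with `δ = ((‖m‖ + 1) * (‖m⁻¹‖ + 1))⁻¹` the unit `w` is in the closure of the elements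
of `GL1 A` with `‖w - 1‖ < δ`; for such an element `m w m⁻¹ ∈ GL1 A` (`Hs.conj_mem_GL1`) and
`‖m w m⁻¹ - 1‖ = ‖m (w - 1) m⁻¹‖ < 1`, so `m w m⁻¹ ∈ E1 A` (`Cut.mem_E1_of_small`). The set of the `w` with
`m w m⁻¹ ∈ E1 A` is the subgroup `(E1 A).comap (MulAut.conj m).toMonoidHom`: `Subgroup.closure_le`. -/
theorem conj_mem_E1 [CompleteSpace R] (hA : IsClosed (A : Set R)) {m w : Rˣ}
    (hm : IsMul A (m : R)) (hm' : IsMul A ((m⁻¹ : Rˣ) : R)) (hw : w ∈ E1 A) :
    m * w * m⁻¹ ∈ E1 A := by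
  have hD : (0 : ℝ) < (‖(m : R)‖ + 1) * (‖((m⁻¹ : Rˣ) : R)‖ + 1) := by positivity
  have h1 := E1_le_closure hA (inv_pos.2 hD) hw
  have h2 : Subgroup.closure {u : Rˣ | u ∈ GL1 A ∧ ‖(u : R) - 1‖ <
      ((‖(m : R)‖ + 1) * (‖((m⁻¹ : Rˣ) : R)‖ + 1))⁻¹} ≤
      (E1 A).comap (MulAut.conj m).toMonoidHom := by
    refine (Subgroup.closure_le _).2 ?_
    rintro u ⟨hu, hu1⟩
    change m * u * m⁻¹ ∈ E1 A
    refine mem_E1_of_small (conj_mem_GL1 hm hm' hu) ?_
    have e : ((m * u * m⁻¹ : Rˣ) : R) - 1 = (m : R) * ((u : R) - 1) * ((m⁻¹ : Rˣ) : R) := by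
      rw [mul_sub, sub_mul, mul_one, Units.mul_inv, Units.val_mul, Units.val_mul]
    rw [e]
    have h3 : ‖(m : R) * ((u : R) - 1) * ((m⁻¹ : Rˣ) : R)‖ ≤
        ‖(m : R)‖ * ‖(u : R) - 1‖ * ‖((m⁻¹ : Rˣ) : R)‖ :=
      (norm_mul_le _ _).trans (mul_le_mul_of_nonneg_right (norm_mul_le _ _) (norm_nonneg _))
    have h4 : ‖(m : R)‖ * ‖(u : R) - 1‖ * ‖((m⁻¹ : Rˣ) : R)‖ ≤
        (‖(m : R)‖ + 1) * ‖(u : R) - 1‖ * (‖((m⁻¹ : Rˣ) : R)‖ + 1) := by
      have := norm_nonneg (m : R)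
      have := norm_nonneg ((u : R) - 1)
      have := norm_nonneg ((m⁻¹ : Rˣ) : R)
      gcongr <;> linarith
    refine (h3.trans h4).trans_lt ?_
    calc (‖(m : R)‖ + 1) * ‖(u : R) - 1‖ * (‖((m⁻¹ : Rˣ) : R)‖ + 1)
        = (‖(m : R)‖ + 1) * (‖((m⁻¹ : Rˣ) : R)‖ + 1) * ‖(u : R) - 1‖ := by ring
      _ < (‖(m : R)‖ + 1) * (‖((m⁻¹ : Rˣ) : R)‖ + 1) *
          ((‖(m : R)‖ + 1) * (‖((m⁻¹ : Rˣ) : R)‖ + 1))⁻¹ := mul_lt_mul_of_pos_left hu1 hD
      _ = 1 := mul_inv_cancel₀ hD.ne'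
  exact h2 h1

end Pool.Agent.Lib.MP_aa9b81_an.Mc
end
end
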