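import Pool.Agent.Lib.MP_aa9b81_an.Mg.G073
import Pool.Agent.Lib.MP_aa9b81_an.Mg.G074

section

/-!
# Rotated sites, part N2: extension of a homomorphism by continuity
-/

open scoped ENNReal Topology ZeroAtInfty
open Function Filter Set

noncomputable section

set_option linter.unusedSectionVars false

namespace Pool.Agent.Lib.MP_aa9b81_an.Rc

open Cut Hs

/-- PROOF: for `a ∈ A` choose `x_n ∈ S` with `‖a - x_n.1‖ ≤ 2⁻ⁿ` (`hd`). `x_n - x_m ∈ S`, so `‖x_n.2 - x_m.2‖ ≤ ‖x_n.1 - x_m.1‖` (`hn`): the sequence `x_n.2` is a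
Cauchy sequence; let `Θ a` be its limit. It does not depend on the choice; if `(a, b)` is a limit of elements of `S`, `a ∈ A`, then `b = Θ a`
(the closure of `S` is the graph of `Θ`). So `Θ` is additive, multiplicative (limits of sums and products), homogeneous, contractive, and
`Θ x.1 = x.2` for `x ∈ S`. -/
theorem exists_extension {R R' : Type} [NormedRing R] [NormedAlgebra ℂ R] [NormedRing R']
    [NormedAlgebra ℂ R'] [CompleteSpace R'] {A : NonUnitalSubalgebra ℂ R} (S : Set (R × R'))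
    (h0 : (0, 0) ∈ S) (hadd : ∀ x ∈ S, ∀ y ∈ S, x + y ∈ S) (hmul : ∀ x ∈ S, ∀ y ∈ S, x * y ∈ S)
    (hsmul : ∀ z : ℂ, ∀ x ∈ S, z • x ∈ S) (hn : ∀ x ∈ S, ‖x.2‖ ≤ ‖x.1‖)
    (hA : ∀ x ∈ S, x.1 ∈ A) (hd : ∀ a ∈ A, ∀ ε : ℝ, 0 < ε → ∃ x ∈ S, ‖a - x.1‖ ≤ ε) :
    ∃ Θ : A →ₙ+* R', (∀ a, ‖Θ a‖ ≤ ‖(a : R)‖) ∧ (∀ (z : ℂ) a, Θ (z • a) = z • Θ a) ∧
      ∀ x ∈ S, ∀ h : x.1 ∈ A, Θ ⟨x.1, h⟩ = x.2 := by
  obtain ⟨T, hT⟩ : ∃ T : NonUnitalSubalgebra ℂ (R × R'), (T : Set (R × R')) = S :=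
    ⟨{ carrier := S
       add_mem' := fun {x y} hx hy => hadd x hx y hy
       zero_mem' := h0
       mul_mem' := fun {x y} hx hy => hmul x hx y hy
       smul_mem' := fun z {x} hx => hsmul z x hx }, rfl⟩
  have hTc : ((T.topologicalClosure : NonUnitalSubalgebra ℂ (R × R')) : Set (R × R')) =
      closure S := by
    rw [← hT]
    rfl
  have hmemc : ∀ x : R × R', x ∈ T.topologicalClosure ↔ x ∈ closure S := by
    intro x
    rw [← hTc]
    rfl
  have hb : ∀ x ∈ T.topologicalClosure, ‖x.2‖ ≤ ‖x.1‖ := by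
    intro x hx
    rw [hmemc] at hx
    have h1 : closure S ⊆ {x : R × R' | ‖x.2‖ ≤ ‖x.1‖} :=
      closure_minimal (fun x hx => hn x hx) (isClosed_le (by fun_prop) (by fun_prop))
    exact h1 hx
  have hsub : ∀ x ∈ S, ∀ y ∈ S, x - y ∈ S := by
    intro x hx y hy
    rw [← hT] at hx hy ⊢
    exact sub_mem (S := NonUnitalSubalgebra ℂ (R × R')) hx hy
  have hex : ∀ a ∈ A, ∃ b : R', (a, b) ∈ T.topologicalClosure := by
    intro a ha
    choose x hxS hx using fun n : ℕ => hd a ha (1 / ((n : ℝ) + 1)) (by positivity)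
    have ht : Tendsto (fun n => (x n).1) atTop (𝓝 a) := by
      rw [tendsto_iff_norm_sub_tendsto_zero]
      refine squeeze_zero (fun n => norm_nonneg _) (fun n => ?_) tendsto_one_div_add_atTop_nhds_zero_nat
      rw [norm_sub_rev]
      exact hx n
    have hc1 := ht.cauchySeq
    have hc2 : CauchySeq fun n => (x n).2 := by
      rw [Metric.cauchySeq_iff] at hc1 ⊢
      intro ε hε
      obtain ⟨N, hN⟩ := hc1 ε hε
      refine ⟨N, fun m hm n hn' => ?_⟩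
      refine lt_of_le_of_lt ?_ (hN m hm n hn')
      rw [dist_eq_norm, dist_eq_norm]
      exact hn _ (hsub _ (hxS m) _ (hxS n))
    obtain ⟨b, hb'⟩ := cauchySeq_tendsto_of_complete hc2
    refine ⟨b, ?_⟩
    rw [hmemc]
    exact mem_closure_of_tendsto (ht.prodMk_nhds hb') (Filter.Eventually.of_forall hxS)
  have huniq : ∀ a b b', (a, b) ∈ T.topologicalClosure → (a, b') ∈ T.topologicalClosure → b = b' := by
    intro a b b' h1 h2
    have h3 := hb _ (sub_mem h1 h2)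
    have h4 : ((a, b) - (a, b') : R × R') = (0, b - b') := by
      rw [Prod.mk_sub_mk, sub_self]
    rw [h4] at h3
    have h5 : ‖b - b'‖ ≤ 0 := by simpa using h3
    exact sub_eq_zero.1 (norm_le_zero_iff.1 h5)
  choose! θ hθ using hex
  refine ⟨{ toFun := fun a => θ a
            map_mul' := fun a b => ?_
            map_zero' := ?_
            map_add' := fun a b => ?_ }, fun a => ?_, fun z a => ?_, fun x hx h => ?_⟩
  · exact huniq _ _ _ (hθ _ (a * b).2) (mul_mem (hθ _ a.2) (hθ _ b.2))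
  · exact huniq _ _ _ (hθ _ (0 : A).2) (zero_mem _)
  · exact huniq _ _ _ (hθ _ (a + b).2) (add_mem (hθ _ a.2) (hθ _ b.2))
  · exact hb _ (hθ _ a.2)
  · exact huniq _ _ _ (hθ _ (z • a).2) (SMulMemClass.smul_mem z (hθ _ a.2))
  · exact huniq _ _ _ (hθ _ h) ((hmemc _).2 (subset_closure hx))

end Pool.Agent.Lib.MP_aa9b81_an.Rc
end
end

section

/-!
# Rotated sites, part K1: paths near to a closed subalgebra
-/

open scoped ENNReal Topology ZeroAtInfty
open Function Filter Set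

noncomputable section

set_option linter.unusedSectionVars false

namespace Pool.Agent.Lib.MP_aa9b81_an.Rc

open Cut Hs

private lemma K1_inv_le {R : Type} [NormedRing R] {u v : Rˣ} {M : ℝ} (hM1 : 1 ≤ M)
    (hu : ‖((u⁻¹ : Rˣ) : R)‖ ≤ M) (h : ‖(v : R) - u‖ ≤ 1 / (16 * M)) :
    ‖((v⁻¹ : Rˣ) : R)‖ ≤ 2 * M := by
  have hM0 : 0 < M := by linarith
  have e : ((v⁻¹ : Rˣ) : R) = ((u⁻¹ : Rˣ) : R) -
      ((v⁻¹ : Rˣ) : R) * ((v : R) - u) * ((u⁻¹ : Rˣ) : R) := by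
    have h1 : ((v⁻¹ : Rˣ) : R) * ((v : R) - u) * ((u⁻¹ : Rˣ) : R) =
        ((u⁻¹ : Rˣ) : R) - ((v⁻¹ : Rˣ) : R) := by
      rw [mul_sub, Units.inv_mul, sub_mul, one_mul, mul_assoc, Units.mul_inv, mul_one]
    rw [h1]
    abel
  have h2 : ‖((v⁻¹ : Rˣ) : R)‖ ≤ M + ‖((v⁻¹ : Rˣ) : R)‖ * (1 / (16 * M)) * M := by
    calc ‖((v⁻¹ : Rˣ) : R)‖ = ‖((u⁻¹ : Rˣ) : R) -
          ((v⁻¹ : Rˣ) : R) * ((v : R) - u) * ((u⁻¹ : Rˣ) : R)‖ := by rw [← e]
      _ ≤ ‖((u⁻¹ : Rˣ) : R)‖ + ‖((v⁻¹ : Rˣ) : R) * ((v : R) - u) * ((u⁻¹ : Rˣ) : R)‖ :=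
          norm_sub_le _ _
      _ ≤ M + ‖((v⁻¹ : Rˣ) : R)‖ * (1 / (16 * M)) * M := by
          refine add_le_add hu ?_
          refine (norm_mul_le _ _).trans ?_
          refine mul_le_mul ((norm_mul_le _ _).trans ?_) hu (norm_nonneg _) (by positivity)
          exact mul_le_mul_of_nonneg_left h (norm_nonneg _)
  have h3 : ‖((v⁻¹ : Rˣ) : R)‖ * (1 / (16 * M)) * M = ‖((v⁻¹ : Rˣ) : R)‖ / 16 := by
    field_simp
  rw [h3] at h2
  linarith

private lemma K1_step {R : Type} [NormedRing R] [NormedAlgebra ℂ R] [CompleteSpace R]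
    {D : NonUnitalSubalgebra ℂ R} (hD : IsClosed (D : Set R)) {u u' v : Rˣ} {M : ℝ}
    (hM1 : 1 ≤ M) (hu : ‖((u⁻¹ : Rˣ) : R)‖ ≤ M) (huu : ‖(u' : R) - u‖ ≤ 1 / (16 * M))
    (hv : v ∈ GL1 D) (hvu : ‖(v : R) - u‖ ≤ 1 / (16 * M))
    (hd : ∃ x ∈ D, ‖(u' : R) - 1 - x‖ ≤ 1 / (16 * M)) :
    ∃ w ∈ GL1 D, ‖(w : R) - u'‖ ≤ 1 / (16 * M) ∧ v⁻¹ * w ∈ E1 D := by
  have hM0 : 0 < M := by linarith
  obtain ⟨z, hz, hz2⟩ := hd
  have hb : z - ((v : R) - 1) ∈ D := sub_mem hz hv.1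
  have ha : ((v⁻¹ : Rˣ) : R) * (z - ((v : R) - 1)) ∈ D := by
    have e : ((v⁻¹ : Rˣ) : R) * (z - ((v : R) - 1)) =
        (((v⁻¹ : Rˣ) : R) - 1) * (z - ((v : R) - 1)) + (z - ((v : R) - 1)) := by
      rw [sub_mul, one_mul]
      abel
    rw [e]
    exact add_mem (mul_mem hv.2 hb) hb
  have hvi := K1_inv_le hM1 hu hvu
  have hn : ‖z - ((v : R) - 1)‖ ≤ 3 / (16 * M) := by
    have e : z - ((v : R) - 1) = -((u' : R) - 1 - z) + (((u' : R) - u) - ((v : R) - u)) := by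
      abel
    rw [e]
    refine (norm_add_le _ _).trans ?_
    rw [norm_neg]
    have h1 := norm_sub_le ((u' : R) - u) ((v : R) - u)
    have h2 : (3 : ℝ) / (16 * M) = 1 / (16 * M) + (1 / (16 * M) + 1 / (16 * M)) := by ring
    rw [h2]
    linarith
  have hlt : ‖((v⁻¹ : Rˣ) : R) * (z - ((v : R) - 1))‖ < 1 := by
    refine (norm_mul_le _ _).trans_lt ?_
    have h1 : ‖((v⁻¹ : Rˣ) : R)‖ * ‖z - ((v : R) - 1)‖ ≤ 2 * M * (3 / (16 * M)) :=
      mul_le_mul hvi hn (norm_nonneg _) (by positivity)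
    have h2 : 2 * M * (3 / (16 * M)) = 3 / 8 := by
      field_simp
      norm_num
    rw [h2] at h1
    linarith
  obtain ⟨e, he, he2⟩ := exists_unit_one_add hD ha hlt
  refine ⟨v * e, mul_mem hv he, ?_, ?_⟩
  · have h1 : ((v * e : Rˣ) : R) = 1 + z := by
      rw [Units.val_mul, he2, mul_add, mul_one, Units.mul_inv_cancel_left]
      abel
    rw [h1, ← norm_neg]
    have h2 : -(1 + z - (u' : R)) = (u' : R) - 1 - z := by abel
    rw [h2]
    exact hz2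
  · rw [inv_mul_cancel_left]
    refine mem_E1_of_small he ?_
    rw [he2, add_sub_cancel_left]
    exact hlt

/-- PROOF: `M ≥ 1` (replace `M` by `max M 1`), `ε = 1/(16 M)`. By uniform continuity on `[0,1]` there is `n` such that `‖γ(k/n) - γ((k+1)/n)‖ ≤ ε`. Choose
`δ_k = 1 + x_k` with `x_k ∈ D`, `‖γ(k/n) - δ_k‖ ≤ ε`, `δ_0 = γ(0)`, `δ_n = 1`. By induction on `k`, `δ_k` is (the value of) a unit in `GL1 D` with
`‖δ_k⁻¹‖ ≤ 2 M`: the unit `γ(k/n)⁻¹ δ_k = 1 + γ(k/n)⁻¹ (δ_k - γ(k/n))`, where the second term has norm `≤ M ε = 1/16`; and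
`δ_k⁻¹ δ_{k+1} = 1 + δ_k⁻¹ (δ_{k+1} - δ_k)`, with `δ_k⁻¹ (δ_{k+1} - δ_k) ∈ D` of norm `≤ 2 M · 3 ε < 1`: `exists_unit_one_add` gives a unit in `GL1 D`,
which is in `E1 D` (`mem_E1_of_small`). So `γ(0) = δ_0 = δ_n · (product of elements of E1 D)⁻¹ ∈ E1 D`. -/
theorem E1_of_near_path {R : Type} [NormedRing R] [NormedAlgebra ℂ R] [CompleteSpace R]
    {D : NonUnitalSubalgebra ℂ R} (hD : IsClosed (D : Set R)) {γ : ℝ → Rˣ}
    (hγ : ContinuousOn (fun t => (γ t : R)) (Icc 0 1)) (h0 : γ 0 ∈ GL1 D) (h1 : γ 1 = 1) {M : ℝ}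
    (hM1 : 1 ≤ M) (hM : ∀ t ∈ Icc (0 : ℝ) 1, ‖(((γ t)⁻¹ : Rˣ) : R)‖ ≤ M)
    (hd : ∀ t ∈ Icc (0 : ℝ) 1, ∃ x ∈ D, ‖(γ t : R) - 1 - x‖ ≤ 1 / (16 * M)) : γ 0 ∈ E1 D := by
  have hM0 : 0 < M := by linarith
  have key : ∀ v : Rˣ, v ∈ GL1 D ∧ ‖(v : R) - γ 0‖ ≤ 1 / (16 * M) →
      ∃ w : Rˣ, (w ∈ GL1 D ∧ ‖(w : R) - γ 1‖ ≤ 1 / (16 * M)) ∧ v⁻¹ * w ∈ E1 D := by
    refine (isPreconnected_Icc (a := (0 : ℝ)) (b := 1)).induction₂'
      (fun s t => ∀ v : Rˣ, v ∈ GL1 D ∧ ‖(v : R) - γ s‖ ≤ 1 / (16 * M) →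
        ∃ w : Rˣ, (w ∈ GL1 D ∧ ‖(w : R) - γ t‖ ≤ 1 / (16 * M)) ∧ v⁻¹ * w ∈ E1 D)
      ?_ ?_ (Set.left_mem_Icc.2 zero_le_one) (Set.right_mem_Icc.2 zero_le_one)
    · intro x hx
      have h2 : Filter.Tendsto (fun y => ‖(γ y : R) - γ x‖) (𝓝[Set.Icc 0 1] x)
          (𝓝 ‖(γ x : R) - γ x‖) := ((hγ x hx).sub tendsto_const_nhds).norm
      rw [sub_self, norm_zero] at h2
      have h3 : (0 : ℝ) < 1 / (16 * M) := by positivity
      filter_upwards [h2.eventually (gt_mem_nhds h3), self_mem_nhdsWithin] with y hy hy2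
      constructor
      · rintro v ⟨hv, hv2⟩
        obtain ⟨w, hw, hw2, hw3⟩ := K1_step hD hM1 (hM x hx) hy.le hv hv2 (hd y hy2)
        exact ⟨w, ⟨hw, hw2⟩, hw3⟩
      · rintro v ⟨hv, hv2⟩
        have hy' : ‖(γ x : R) - γ y‖ ≤ 1 / (16 * M) := by
          rw [norm_sub_rev]
          exact hy.le
        obtain ⟨w, hw, hw2, hw3⟩ := K1_step hD hM1 (hM y hy2) hy' hv hv2 (hd x hx)
        exact ⟨w, ⟨hw, hw2⟩, hw3⟩
    · intro x y z _ _ _ h2 h3 v hv
      obtain ⟨w, hw, hw2⟩ := h2 v hv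
      obtain ⟨w', hw', hw2'⟩ := h3 w hw
      refine ⟨w', hw', ?_⟩
      have h4 := mul_mem hw2 hw2'
      have e : v⁻¹ * w * (w⁻¹ * w') = v⁻¹ * w' := by group
      rwa [e] at h4
  obtain ⟨w, ⟨hw, hw2⟩, hw3⟩ := key (γ 0) ⟨h0, by
    rw [sub_self, norm_zero]
    positivity⟩
  rw [h1] at hw2
  have h4 : w ∈ E1 D := by
    refine mem_E1_of_small hw ?_
    rw [Units.val_one] at hw2
    refine lt_of_le_of_lt hw2 ?_
    rw [div_lt_one (by positivity)]
    linarith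
  have h5 := mul_mem h4 (inv_mem hw3)
  have e : w * ((γ 0)⁻¹ * w)⁻¹ = γ 0 := by group
  rwa [e] at h5

/-- A path in `GL1 A` from an element of `E1 A` to `1`. PROOF: closure induction (`Subgroup.closure_induction`) for the set of the `u` for which there is a path
`γ` in `GL1 A` with `γ 0 = 1`, `γ 1 = u` (`γ` continuous on `[0,1]` with `γ`, `γ⁻¹` continuous): for `‖u - 1‖ < 1` take `γ t = 1 + t (u - 1)` for `t ∈ [0,1]`
(`exists_unit_one_add`), products and inverses pointwise (the inversion of units is continuous, the product too: no concatenation is needed);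
finally reverse the path. -/
theorem exists_path_of_E1 {R : Type} [NormedRing R] [NormedAlgebra ℂ R] [CompleteSpace R]
    {A : NonUnitalSubalgebra ℂ R} (hA : IsClosed (A : Set R)) {u : Rˣ} (hu : u ∈ E1 A) :
    ∃ γ : ℝ → Rˣ, (∀ t ∈ Icc (0 : ℝ) 1, γ t ∈ GL1 A) ∧
      ContinuousOn (fun t => (γ t : R)) (Icc 0 1) ∧
      ContinuousOn (fun t => (((γ t)⁻¹ : Rˣ) : R)) (Icc 0 1) ∧ γ 0 = u ∧ γ 1 = 1 := by
  obtain ⟨hu1, hu2⟩ := (mem_E1_iff hA u).1 hu
  obtain ⟨p⟩ : Joined (1 : GL1 A) ⟨u, hu1⟩ := hu2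
  have hc : Continuous (fun t : ℝ => ((p.extend (1 - t) : GL1 A) : Rˣ)) :=
    continuous_subtype_val.comp (p.continuous_extend.comp (continuous_const.sub continuous_id))
  refine ⟨fun t => ((p.extend (1 - t) : GL1 A) : Rˣ), fun t _ => (p.extend (1 - t)).2,
    (Units.continuous_val.comp hc).continuousOn,
    (Units.continuous_coe_inv.comp hc).continuousOn, ?_, ?_⟩
  · change ((p.extend (1 - 0) : GL1 A) : Rˣ) = u
    rw [sub_zero, Path.extend_one]
  · change ((p.extend (1 - 1) : GL1 A) : Rˣ) = 1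
    rw [sub_self, Path.extend_zero]
    rfl

/-- A continuous path is totally bounded. PROOF: the image of the compact set `[0,1]` is compact: cover by finitely many balls of radius `ε`. -/
theorem exists_finite_net {R : Type} [NormedRing R] {f : ℝ → R} (hf : ContinuousOn f (Icc 0 1))
    {ε : ℝ} (hε : 0 < ε) : ∃ s : Finset ℝ, (s : Set ℝ) ⊆ Icc 0 1 ∧
      ∀ t ∈ Icc (0 : ℝ) 1, ∃ t' ∈ s, ‖f t - f t'‖ ≤ ε := by
  classical
  have hc : IsCompact (f '' Icc (0 : ℝ) 1) := isCompact_Icc.image_of_continuousOn hf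
  obtain ⟨T, hT, hTf, hcov⟩ := hc.finite_cover_balls hε
  choose! g hg1 hg2 using fun y (hy : y ∈ T) => hT hy
  refine ⟨hTf.toFinset.image g, ?_, ?_⟩
  · intro x hx
    rw [Finset.coe_image, Set.mem_image] at hx
    obtain ⟨y, hy, rfl⟩ := hx
    exact hg1 y (by simpa using hy)
  · intro t ht
    have h1 := hcov (mem_image_of_mem f ht)
    rw [Set.mem_iUnion₂] at h1
    obtain ⟨y, hy, hy2⟩ := h1
    refine ⟨g y, Finset.mem_image_of_mem g (by simpa using hy), ?_⟩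
    rw [hg2 y hy, ← dist_eq_norm]
    exact (Metric.mem_ball.1 hy2).le

end Pool.Agent.Lib.MP_aa9b81_an.Rc
end
end

section

/-!
# Rotated sites, part P0: fibres, letters, matrix units at one fibre, definitions
-/

open scoped ENNReal Topology ZeroAtInfty
open Function Filter Set

noncomputable section

namespace Pool.Agent.Lib.MP_aa9b81_an.Rc

open Cut Hs

/-- An equivariant map `p : C → I` of `Γ`-sets with finite fibres `fib i`. -/
structure Fibr (Γ C I : Type) [Group Γ] [MulAction Γ C] [MulAction Γ I] where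
  /-- the map -/
  p : C → I
  /-- the fibres -/
  fib : I → Finset C
  mem_fib : ∀ i c, c ∈ fib i ↔ p c = i
  smul : ∀ (g : Γ) c, p (g • c) = g • p c

variable {Γ C I : Type} [Group Γ] [MulAction Γ C] [MulAction Γ I] [DecidableEq C]

namespace Fibr

variable (𝔉 : Fibr Γ C I)

/-- The set `F` meets every fibre at most once. -/
def adm (F : Finset C) : Prop := ∀ c ∈ F, ∀ c' ∈ F, 𝔉.p c = 𝔉.p c' → c = c'

/-- The letters at the fibre `i`: `none`, and the elements of the fibre. -/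
def Lt (i : I) : Finset (Option C) := insert none ((𝔉.fib i).map Embedding.some)

/-- The label `b = (F, S)` is even at the fibre `i`, with the letter `l`: `S` does not meet the fibre, and
`F` meets the fibre in the set of the letter. -/
def st (i : I) (l : Option C) (b : Bs C) : Prop :=
  Disjoint b.S (𝔉.fib i) ∧ b.F ∩ 𝔉.fib i = l.toFinset

/-- Change the letter at the fibre `i` to `l` (for a label which is even at `i`). -/
def upd (i : I) (l : Option C) (b : Bs C) : Bs C :=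
  if h : Disjoint b.S (𝔉.fib i) then Bs.mk ((b.F \ 𝔉.fib i) ∪ l.toFinset) b.S
    (fun _ hc => Finset.mem_union_left _ (Finset.mem_sdiff.2 ⟨b.sub hc, fun h' =>
      (Finset.disjoint_left.1 h) hc h'⟩)) else b

open Classical in
/-- The matrix unit `|l⟩⟨l'|` at the fibre `i`: `(E ξ)(b) = ξ(upd i l' b)` if `b` is even at `i` with the
letter `l`, and `0` otherwise. -/
def Em (i : I) (l l' : Option C) : BL (Bs C) :=
  wop (𝔉.upd i l') fun b => if 𝔉.st i l b then 1 else 0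

end Fibr

end Pool.Agent.Lib.MP_aa9b81_an.Rc
end
end

section

/-!
# Rotated sites, part P0a: labels and letters
-/

open scoped ENNReal Topology ZeroAtInfty
open Function Filter Set

noncomputable section

namespace Pool.Agent.Lib.MP_aa9b81_an.Rc

open Cut Hs

variable {Γ C I : Type} [Group Γ] [MulAction Γ C] [MulAction Γ I] [DecidableEq C]

namespace Fibr

variable (𝔉 : Fibr Γ C I)

/-- PROOF: definition. -/
theorem mem_Lt {i : I} {l : Option C} : l ∈ 𝔉.Lt i ↔ ∀ c, l = some c → 𝔉.p c = i := by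
  unfold Lt
  rw [Finset.mem_insert, Finset.mem_map]
  constructor
  · rintro (h | ⟨c, hc, h⟩) c' h'
    · rw [h] at h'
      exact absurd h' (by simp)
    · rw [h'] at h
      have h1 : c = c' := by simpa using h
      rw [← h1]
      exact (𝔉.mem_fib i c).1 hc
  · intro h
    cases l with
    | none => exact Or.inl rfl
    | some c => exact Or.inr ⟨c, (𝔉.mem_fib i c).2 (h c rfl), rfl⟩

theorem none_mem_Lt (i : I) : (none : Option C) ∈ 𝔉.Lt i := by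
  simp [Lt]

/-- PROOF: `mem_fib`. -/
theorem toFinset_subset {i : I} {l : Option C} (h : l ∈ 𝔉.Lt i) : l.toFinset ⊆ 𝔉.fib i := by
  intro c hc
  rw [Option.mem_toFinset, Option.mem_def] at hc
  exact (𝔉.mem_fib i c).2 (𝔉.mem_Lt.1 h c hc)

/-- PROOF: the fibres of different points are disjoint. -/
theorem disjoint_fib {i j : I} (h : i ≠ j) : Disjoint (𝔉.fib i) (𝔉.fib j) := by
  rw [Finset.disjoint_left]
  intro c h1 h2
  rw [𝔉.mem_fib] at h1 h2
  exact h (h1.symm.trans h2)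

/-- The set of the updated label. -/
theorem upd_F {i : I} (l : Option C) {b : Bs C} (h : Disjoint b.S (𝔉.fib i)) :
    (𝔉.upd i l b).F = (b.F \ 𝔉.fib i) ∪ l.toFinset := by
  rw [upd, dif_pos h, Bs.mk_F]

theorem upd_S (i : I) (l : Option C) (b : Bs C) : (𝔉.upd i l b).S = b.S := by
  unfold upd
  split_ifs
  · rw [Bs.mk_S]
  · rfl

/-- PROOF: `upd_F`, `upd_S`; `l.toFinset ⊆ fib i`. -/
theorem st_upd {i : I} {l l' : Option C} (h : l ∈ 𝔉.Lt i) {b : Bs C} (hb : 𝔉.st i l' b) :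
    𝔉.st i l (𝔉.upd i l b) := by
  refine ⟨by rw [upd_S]; exact hb.1, ?_⟩
  rw [𝔉.upd_F l hb.1]
  ext c
  simp only [Finset.mem_inter, Finset.mem_union, Finset.mem_sdiff]
  constructor
  · rintro ⟨h1 | h1, h2⟩
    · exact absurd h2 h1.2
    · exact h1
  · intro h1
    exact ⟨Or.inr h1, 𝔉.toFinset_subset h h1⟩

/-- PROOF: `Bs.ext`, `upd_F`, `upd_S`. -/
theorem upd_upd {i : I} {l l' : Option C} (h' : l' ∈ 𝔉.Lt i) (b : Bs C) :
    𝔉.upd i l (𝔉.upd i l' b) = 𝔉.upd i l b := by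
  by_cases hd : Disjoint b.S (𝔉.fib i)
  · have hd' : Disjoint (𝔉.upd i l' b).S (𝔉.fib i) := by
      rw [upd_S]
      exact hd
    refine Bs.ext ?_ ?_
    · rw [𝔉.upd_F l hd', 𝔉.upd_F l' hd, 𝔉.upd_F l hd]
      congr 1
      ext c
      simp only [Finset.mem_union, Finset.mem_sdiff]
      constructor
      · rintro ⟨h1 | h1, h2⟩
        · exact h1
        · exact absurd (𝔉.toFinset_subset h' h1) h2
      · intro h1
        exact ⟨Or.inl h1, h1.2⟩
    · rw [upd_S, upd_S, upd_S]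
  · have h1 : 𝔉.upd i l' b = b := by
      unfold upd
      rw [dif_neg hd]
    rw [h1]

/-- PROOF: `(F ∖ fib i) ∪ (F ∩ fib i) = F`. -/
theorem upd_of_st {i : I} {l : Option C} {b : Bs C} (hb : 𝔉.st i l b) : 𝔉.upd i l b = b := by
  refine Bs.ext ?_ (𝔉.upd_S i l b)
  rw [𝔉.upd_F l hb.1, ← hb.2]
  exact Finset.sdiff_union_inter _ _

/-- PROOF: `Option.toFinset` is injective. -/
theorem st_unique {i : I} {l l' : Option C} {b : Bs C} (h : 𝔉.st i l b) (h' : 𝔉.st i l' b) :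
    l = l' := by
  have h1 : l.toFinset = l'.toFinset := h.2.symm.trans h'.2
  cases l with
  | none =>
    cases l' with
    | none => rfl
    | some c' =>
      have h2 : c' ∈ (none : Option C).toFinset := by
        rw [h1, Option.mem_toFinset]
        exact rfl
      rw [Option.mem_toFinset] at h2
      exact absurd h2 (by simp)
  | some c =>
    have h2 : c ∈ l'.toFinset := by
      rw [← h1, Option.mem_toFinset]
      exact rfl
    rw [Option.mem_toFinset, Option.mem_def] at h2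
    exact h2.symm

end Fibr

end Pool.Agent.Lib.MP_aa9b81_an.Rc
end
end

section

/-!
# Rotated sites, part P0b: two fibres
-/

open scoped ENNReal Topology ZeroAtInfty
open Function Filter Set

noncomputable section

namespace Pool.Agent.Lib.MP_aa9b81_an.Rc

open Cut Hs

variable {Γ C I : Type} [Group Γ] [MulAction Γ C] [MulAction Γ I] [DecidableEq C]

namespace Fibr

variable (𝔉 : Fibr Γ C I)

private theorem P0b_upd_neg {i : I} {l : Option C} {b : Bs C} (h : ¬ Disjoint b.S (𝔉.fib i)) :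
    𝔉.upd i l b = b := by
  unfold upd
  rw [dif_neg h]

/-- `upd j k` does not change `F ∩ fib i`. -/
private theorem P0b_inter {i j : I} (h : i ≠ j) {k : Option C} (hk : k ∈ 𝔉.Lt j) (b : Bs C) :
    (𝔉.upd j k b).F ∩ 𝔉.fib i = b.F ∩ 𝔉.fib i := by
  by_cases hd : Disjoint b.S (𝔉.fib j)
  · rw [𝔉.upd_F k hd]
    have hij := Finset.disjoint_left.1 (𝔉.disjoint_fib h)
    ext c
    simp only [Finset.mem_inter, Finset.mem_union, Finset.mem_sdiff]
    constructor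
    · rintro ⟨h1 | h1, h2⟩
      · exact ⟨h1.1, h2⟩
      · exact absurd (𝔉.toFinset_subset hk h1) (hij h2)
    · rintro ⟨h1, h2⟩
      exact ⟨Or.inl ⟨h1, hij h2⟩, h2⟩
  · rw [𝔉.P0b_upd_neg hd]

/-- PROOF: `upd_F`, `upd_S`, `disjoint_fib`: `upd j k` does not change `F ∩ fib i` and `S`. -/
theorem st_upd_of_ne {i j : I} (h : i ≠ j) {k : Option C} (hk : k ∈ 𝔉.Lt j) {l : Option C}
    {b : Bs C} : 𝔉.st i l (𝔉.upd j k b) ↔ 𝔉.st i l b := by
  unfold st
  rw [upd_S, 𝔉.P0b_inter h hk b]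

/-- PROOF: `Bs.ext`; if `S` meets one of the fibres both sides simplify (the set `S` is not changed); `upd_F`,
`disjoint_fib`. -/
theorem upd_comm {i j : I} (h : i ≠ j) {l k : Option C} (hl : l ∈ 𝔉.Lt i) (hk : k ∈ 𝔉.Lt j)
    (b : Bs C) : 𝔉.upd i l (𝔉.upd j k b) = 𝔉.upd j k (𝔉.upd i l b) := by
  by_cases hi : Disjoint b.S (𝔉.fib i)
  · by_cases hj : Disjoint b.S (𝔉.fib j)
    · have hi' : Disjoint (𝔉.upd j k b).S (𝔉.fib i) := by
        rw [upd_S]
        exact hi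
      have hj' : Disjoint (𝔉.upd i l b).S (𝔉.fib j) := by
        rw [upd_S]
        exact hj
      refine Bs.ext ?_ (by simp only [upd_S])
      rw [𝔉.upd_F l hi', 𝔉.upd_F k hj, 𝔉.upd_F k hj', 𝔉.upd_F l hi]
      have hij := Finset.disjoint_left.1 (𝔉.disjoint_fib h)
      ext c
      simp only [Finset.mem_union, Finset.mem_sdiff]
      constructor
      · rintro (⟨h1 | h1, h2⟩ | h1)
        · exact Or.inl ⟨Or.inl ⟨h1.1, h2⟩, h1.2⟩
        · exact Or.inr h1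
        · exact Or.inl ⟨Or.inr h1, hij (𝔉.toFinset_subset hl h1)⟩
      · rintro (⟨h1 | h1, h2⟩ | h1)
        · exact Or.inl ⟨Or.inl ⟨h1.1, h2⟩, h1.2⟩
        · exact Or.inr h1
        · exact Or.inl ⟨Or.inr h1, fun h3 => hij h3 (𝔉.toFinset_subset hk h1)⟩
    · have hj' : ¬ Disjoint (𝔉.upd i l b).S (𝔉.fib j) := by
        rw [upd_S]
        exact hj
      rw [𝔉.P0b_upd_neg hj, 𝔉.P0b_upd_neg hj']
  · have hi' : ¬ Disjoint (𝔉.upd j k b).S (𝔉.fib i) := by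
      rw [upd_S]
      exact hi
    rw [𝔉.P0b_upd_neg hi, 𝔉.P0b_upd_neg hi']

/-- PROOF: `F ∩ fib i` and the new set `l'.toFinset` have at most one element, and the elements of the fibre `i` have
`p c = i`, those outside do not. -/
theorem adm_upd {i : I} {l l' : Option C} (h' : l' ∈ 𝔉.Lt i) {b : Bs C} (hb : 𝔉.st i l b) :
    𝔉.adm (𝔉.upd i l' b).F ↔ 𝔉.adm b.F := by
  rw [𝔉.upd_F l' hb.1]
  -- two elements of the set of a letter are equal
  have hl : ∀ (m : Option C) (c c' : C), c ∈ m.toFinset → c' ∈ m.toFinset → c = c' := by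
    intro m c c' h1 h2
    rw [Option.mem_toFinset, Option.mem_def] at h1 h2
    rw [h1] at h2
    exact Option.some.inj h2
  constructor
  · intro ha c hc c' hc' hcc
    by_cases hi : 𝔉.p c = i
    · have h1 : c ∈ b.F ∩ 𝔉.fib i := Finset.mem_inter.2 ⟨hc, (𝔉.mem_fib i c).2 hi⟩
      have h2 : c' ∈ b.F ∩ 𝔉.fib i :=
        Finset.mem_inter.2 ⟨hc', (𝔉.mem_fib i c').2 (hcc.symm.trans hi)⟩
      rw [hb.2] at h1 h2
      exact hl l c c' h1 h2
    · have h1 : c ∉ 𝔉.fib i := fun h3 => hi ((𝔉.mem_fib i c).1 h3)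
      have h2 : c' ∉ 𝔉.fib i := fun h3 => hi (hcc.trans ((𝔉.mem_fib i c').1 h3))
      exact ha c (Finset.mem_union_left _ (Finset.mem_sdiff.2 ⟨hc, h1⟩)) c'
        (Finset.mem_union_left _ (Finset.mem_sdiff.2 ⟨hc', h2⟩)) hcc
  · intro ha c hc c' hc' hcc
    rw [Finset.mem_union, Finset.mem_sdiff] at hc hc'
    rcases hc with hc | hc
    · rcases hc' with hc' | hc'
      · exact ha c hc.1 c' hc'.1 hcc
      · have h1 := (𝔉.mem_fib i c').1 (𝔉.toFinset_subset h' hc')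
        exact absurd ((𝔉.mem_fib i c).2 (hcc.trans h1)) hc.2
    · rcases hc' with hc' | hc'
      · have h1 := (𝔉.mem_fib i c).1 (𝔉.toFinset_subset h' hc)
        exact absurd ((𝔉.mem_fib i c').2 (hcc.symm.trans h1)) hc'.2
      · exact hl l' c c' hc hc'

/-- PROOF: `mem_Lt`, `𝔉.smul`. -/
theorem map_mem_Lt (g : Γ) {i : I} {l : Option C} :
    l.map (g • ·) ∈ 𝔉.Lt (g • i) ↔ l ∈ 𝔉.Lt i := by
  rw [mem_Lt, mem_Lt]
  constructor
  · intro h c hc
    have h1 := h (g • c) (by rw [hc]; rfl)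
    rw [𝔉.smul] at h1
    exact smul_left_cancel g h1
  · intro h c hc
    cases l with
    | none => exact absurd hc (by simp)
    | some c' =>
      have h1 : g • c' = c := Option.some.inj hc
      rw [← h1, 𝔉.smul, h c' rfl]

omit [DecidableEq C] in
private theorem P0b_fib (g : Γ) (i : I) : 𝔉.fib (g • i) = gF g (𝔉.fib i) := by
  ext c
  rw [mem_gF, 𝔉.mem_fib, 𝔉.mem_fib, 𝔉.smul, inv_smul_eq_iff]

omit [MulAction Γ I] [DecidableEq C] in
private theorem P0b_map (g : Γ) (l : Option C) : (l.map (g • ·)).toFinset = gF g l.toFinset := by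
  cases l with
  | none =>
    ext c
    rw [mem_gF, Option.mem_toFinset, Option.mem_toFinset]
    simp
  | some c' =>
    ext c
    rw [mem_gF, Option.mem_toFinset, Option.mem_toFinset]
    simp only [Option.map_some, Option.mem_some_iff]
    exact eq_inv_smul_iff.symm

/-- PROOF: `gF g` of the set of the letter is the set of the translated letter; `gF g (fib i) = fib (g i)`
(`mem_gF`, `mem_fib`, `𝔉.smul`). -/
theorem st_smul (g : Γ) (i : I) (l : Option C) (b : Bs C) :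
    𝔉.st (g • i) (l.map (g • ·)) (g • b) ↔ 𝔉.st i l b := by
  unfold st
  rw [Bs.smul_S, Bs.smul_F, P0b_fib, P0b_map]
  refine and_congr ?_ ?_
  · unfold gF
    exact Finset.disjoint_map _
  · unfold gF
    rw [← Finset.map_inter, Finset.map_inj]

/-- PROOF: as `st_smul`, `Bs.ext`, `upd_F`, `upd_S`. -/
theorem upd_smul (g : Γ) (i : I) (l : Option C) (b : Bs C) :
    𝔉.upd (g • i) (l.map (g • ·)) (g • b) = g • 𝔉.upd i l b := by
  have hd : Disjoint (g • b).S (𝔉.fib (g • i)) ↔ Disjoint b.S (𝔉.fib i) := by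
    rw [Bs.smul_S, P0b_fib]
    unfold gF
    exact Finset.disjoint_map _
  by_cases h : Disjoint b.S (𝔉.fib i)
  · refine Bs.ext ?_ ?_
    · rw [𝔉.upd_F _ (hd.2 h), Bs.smul_F, Bs.smul_F, 𝔉.upd_F l h, P0b_fib, P0b_map]
      ext c
      simp only [Finset.mem_union, Finset.mem_sdiff, mem_gF]
    · rw [upd_S, Bs.smul_S, Bs.smul_S, upd_S]
  · rw [𝔉.P0b_upd_neg h, 𝔉.P0b_upd_neg (fun h1 => h (hd.1 h1))]

end Fibr

end Pool.Agent.Lib.MP_aa9b81_an.Rc
end
end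

section

/-!
# Rotated sites, part P1a: matrix units, first properties
-/

open scoped ENNReal Topology ZeroAtInfty
open Function Filter Set

noncomputable section

namespace Pool.Agent.Lib.MP_aa9b81_an.Rc

open Cut Hs

variable {Γ C I : Type} [Group Γ] [MulAction Γ C] [MulAction Γ I] [DecidableEq C]

namespace Fibr

variable (𝔉 : Fibr Γ C I)

open Classical in
/-- PROOF: if `st i l b`, `st i l b'` and `upd i l' b = upd i l' b'` then `S` and `F ∖ fib i` agree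
(`l'.toFinset ⊆ fib i`), and `F ∩ fib i = l.toFinset` for both. -/
theorem Em_wok {i : I} {l' : Option C} (l : Option C) (h' : l' ∈ 𝔉.Lt i) :
    WOK (𝔉.upd i l') (fun b => if 𝔉.st i l b then (1 : ℂ) else 0) 1 := by
  refine ⟨zero_le_one, fun b => ?_, fun b b' hb hb' he => ?_⟩
  · split_ifs <;> simp
  · have h1 : 𝔉.st i l b := by
      by_contra h
      exact hb (if_neg h)
    have h2 : 𝔉.st i l b' := by
      by_contra h
      exact hb' (if_neg h)
    rw [← 𝔉.upd_of_st h1, ← 𝔉.upd_of_st h2, ← 𝔉.upd_upd h' b, ← 𝔉.upd_upd h' b', he]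

open Classical in
/-- PROOF: `wop_apply`. -/
theorem Em_apply {i : I} {l' : Option C} (l : Option C) (h' : l' ∈ 𝔉.Lt i) (ξ : L2 (Bs C))
    (b : Bs C) : (𝔉.Em i l l' ξ : Bs C → ℂ) b =
      if 𝔉.st i l b then (ξ : Bs C → ℂ) (𝔉.upd i l' b) else 0 := by
  unfold Em
  rw [wop_apply (𝔉.Em_wok l h')]
  split_ifs
  · rw [one_mul]
  · rw [zero_mul]

theorem norm_Em_le {i : I} {l' : Option C} (l : Option C) (h' : l' ∈ 𝔉.Lt i) :
    ‖𝔉.Em i l l'‖ ≤ 1 := norm_wop_le (𝔉.Em_wok l h')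

open Classical in
/-- PROOF: coordinates: `(E E' ξ)(b) = [st l b] [st k (upd l' b)] ξ(upd k' (upd l' b))`, `st_upd`, `st_unique`,
`upd_upd`. -/
theorem Em_mul_Em {i : I} (l : Option C) {l' k k' : Option C} (h1 : l' ∈ 𝔉.Lt i)
    (h2 : k' ∈ 𝔉.Lt i) : 𝔉.Em i l l' * 𝔉.Em i k k' = if l' = k then 𝔉.Em i l k' else 0 := by
  refine ContinuousLinearMap.ext fun ξ => ?_
  ext b
  have e1 : (𝔉.Em i l l' * 𝔉.Em i k k') ξ = 𝔉.Em i l l' (𝔉.Em i k k' ξ) := rfl
  rw [e1, 𝔉.Em_apply l h1, 𝔉.Em_apply k h2]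
  by_cases hb : 𝔉.st i l b
  · have h3 := 𝔉.st_upd h1 hb
    rw [if_pos hb]
    by_cases hk : l' = k
    · rw [if_pos hk, 𝔉.Em_apply l h2, if_pos hb, ← hk, if_pos h3, 𝔉.upd_upd h1 b]
    · rw [if_neg hk, if_neg fun h4 => hk (𝔉.st_unique h3 h4)]
      rfl
  · rw [if_neg hb]
    split_ifs
    · rw [𝔉.Em_apply l h2, if_neg hb]
    · rfl

/-- PROOF: coordinates, `st_upd_of_ne`, `upd_comm`. -/
theorem Em_comm {i j : I} (h : i ≠ j) {l l' k k' : Option C} (h1 : l' ∈ 𝔉.Lt i)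
    (h2 : k' ∈ 𝔉.Lt j) : Commute (𝔉.Em i l l') (𝔉.Em j k k') := by
  classical
  change 𝔉.Em i l l' * 𝔉.Em j k k' = 𝔉.Em j k k' * 𝔉.Em i l l'
  refine ContinuousLinearMap.ext fun ξ => ?_
  ext b
  have e1 : (𝔉.Em i l l' * 𝔉.Em j k k') ξ = 𝔉.Em i l l' (𝔉.Em j k k' ξ) := rfl
  have e2 : (𝔉.Em j k k' * 𝔉.Em i l l') ξ = 𝔉.Em j k k' (𝔉.Em i l l' ξ) := rfl
  rw [e1, e2, 𝔉.Em_apply l h1, 𝔉.Em_apply k h2, 𝔉.Em_apply k h2, 𝔉.Em_apply l h1]
  have h3 : 𝔉.st j k (𝔉.upd i l' b) ↔ 𝔉.st j k b := 𝔉.st_upd_of_ne h.symm h1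
  have h4 : 𝔉.st i l (𝔉.upd j k' b) ↔ 𝔉.st i l b := 𝔉.st_upd_of_ne h h2
  have h5 := 𝔉.upd_comm h h1 h2 b
  by_cases hi : 𝔉.st i l b
  · by_cases hj : 𝔉.st j k b
    · rw [if_pos hi, if_pos (h3.2 hj), if_pos hj, if_pos (h4.2 hi), h5]
    · rw [if_pos hi, if_neg fun h6 => hj (h3.1 h6), if_neg hj]
  · by_cases hj : 𝔉.st j k b
    · rw [if_neg hi, if_pos hj, if_neg fun h6 => hi (h4.1 h6)]
    · rw [if_neg hi, if_neg hj]

/-- PROOF: `lp.inner_eq_tsum`: the left side is the sum over the `b` with `st i l b` of `conj ξ(upd i l' b) η(b)`, the right side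
the sum over the `b'` with `st i l' b'` of `conj ξ(b') η(upd i l b')`; the bijection `b ↦ upd i l' b` with inverse `upd i l`
(`st_upd`, `upd_upd`, `upd_of_st`). -/
theorem inner_Em {i : I} {l l' : Option C} (h1 : l ∈ 𝔉.Lt i) (h2 : l' ∈ 𝔉.Lt i) (ξ η : L2 (Bs C)) :
    inner ℂ (𝔉.Em i l l' ξ) η = inner ℂ ξ (𝔉.Em i l' l η) := by
  classical
  rw [lp.inner_eq_tsum, lp.inner_eq_tsum]
  have e1 : ∀ b : Bs C, inner ℂ ((𝔉.Em i l l' ξ : Bs C → ℂ) b) ((η : Bs C → ℂ) b) =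
      {b | 𝔉.st i l b}.indicator
        (fun b => inner ℂ ((ξ : Bs C → ℂ) (𝔉.upd i l' b)) ((η : Bs C → ℂ) b)) b := by
    intro b
    rw [𝔉.Em_apply l h2, Set.indicator_apply]
    by_cases hb : 𝔉.st i l b
    · rw [if_pos hb, if_pos (by exact hb)]
    · rw [if_neg hb, if_neg (by exact hb), inner_zero_left]
  have e2 : ∀ b : Bs C, inner ℂ ((ξ : Bs C → ℂ) b) ((𝔉.Em i l' l η : Bs C → ℂ) b) =
      {b | 𝔉.st i l' b}.indicator
        (fun b => inner ℂ ((ξ : Bs C → ℂ) b) ((η : Bs C → ℂ) (𝔉.upd i l b))) b := by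
    intro b
    rw [𝔉.Em_apply l' h1, Set.indicator_apply]
    by_cases hb : 𝔉.st i l' b
    · rw [if_pos hb, if_pos (by exact hb)]
    · rw [if_neg hb, if_neg (by exact hb), inner_zero_right]
  rw [tsum_congr e1, tsum_congr e2, ← tsum_subtype, ← tsum_subtype]
  -- the bijection
  let E : {b | 𝔉.st i l b} ≃ {b | 𝔉.st i l' b} :=
    { toFun := fun b => ⟨𝔉.upd i l' b.1, 𝔉.st_upd h2 b.2⟩
      invFun := fun b => ⟨𝔉.upd i l b.1, 𝔉.st_upd h1 b.2⟩
      left_inv := fun b => Subtype.ext (by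
        change 𝔉.upd i l (𝔉.upd i l' b.1) = b.1
        rw [𝔉.upd_upd h2, 𝔉.upd_of_st b.2])
      right_inv := fun b => Subtype.ext (by
        change 𝔉.upd i l' (𝔉.upd i l b.1) = b.1
        rw [𝔉.upd_upd h1, 𝔉.upd_of_st b.2]) }
  rw [← E.tsum_eq]
  refine tsum_congr fun b => ?_
  change inner ℂ ((ξ : Bs C → ℂ) (𝔉.upd i l' b.1)) ((η : Bs C → ℂ) b.1) =
    inner ℂ ((ξ : Bs C → ℂ) (𝔉.upd i l' b.1)) ((η : Bs C → ℂ) (𝔉.upd i l (𝔉.upd i l' b.1)))
  rw [𝔉.upd_upd h2, 𝔉.upd_of_st b.2]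

end Fibr

end Pool.Agent.Lib.MP_aa9b81_an.Rc
end
end

section

/-!
# Rotated sites, part P6a: colour changes
-/

open scoped ENNReal Topology ZeroAtInfty
open Function Filter Set

noncomputable section

namespace Pool.Agent.Lib.MP_aa9b81_an.Rc

open Cut Hs

variable {Γ C I : Type} [Group Γ] [MulAction Γ C] [MulAction Γ I] [DecidableEq C]

namespace Fibr

variable (𝔉 : Fibr Γ C I)

open Classical in
/-- The fibres which meet `F`. -/
def sites (F : Finset C) : Finset I := F.image 𝔉.p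

/-- The labels `b`, `b'` differ by a change of the letters at fibres where they are even and have exactly one element. -/
def Cc (b b' : Bs C) : Prop := b'.S = b.S ∧ ∀ i, b'.F ∩ 𝔉.fib i = b.F ∩ 𝔉.fib i ∨
  ∃ c ∈ 𝔉.fib i, ∃ c' ∈ 𝔉.fib i, 𝔉.st i (some c) b ∧ 𝔉.st i (some c') b'

/-- PROOF: `mem_fib`. -/
theorem mem_sites {F : Finset C} {i : I} : i ∈ 𝔉.sites F ↔ (F ∩ 𝔉.fib i).Nonempty := by
  classical
  unfold sites
  rw [Finset.mem_image]
  constructor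
  · rintro ⟨c, hc, hi⟩
    exact ⟨c, Finset.mem_inter.2 ⟨hc, (𝔉.mem_fib i c).2 hi⟩⟩
  · rintro ⟨c, hc⟩
    rw [Finset.mem_inter] at hc
    exact ⟨c, hc.1, (𝔉.mem_fib i c).1 hc.2⟩

theorem Cc.refl (b : Bs C) : 𝔉.Cc b b := ⟨rfl, fun _ => Or.inl rfl⟩

/-- PROOF: symmetric definition (`st` of `b'` is a statement on `b'.S` and `b'.F ∩ fib i`). -/
theorem Cc.symm {b b' : Bs C} (h : 𝔉.Cc b b') : 𝔉.Cc b' b := by
  refine ⟨h.1.symm, fun i => ?_⟩
  rcases h.2 i with h1 | ⟨c, hc, c', hc', h1, h2⟩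
  · exact Or.inl h1.symm
  · exact Or.inr ⟨c', hc', c, hc, h2, h1⟩

/-- PROOF: cases. -/
theorem Cc.trans {b b' b'' : Bs C} (h : 𝔉.Cc b b') (h' : 𝔉.Cc b' b'') : 𝔉.Cc b b'' := by
  refine ⟨h'.1.trans h.1, fun i => ?_⟩
  rcases h.2 i with h1 | ⟨c, hc, c', hc', h1, h2⟩
  · rcases h'.2 i with h3 | ⟨d, hd, d', hd', h3, h4⟩
    · exact Or.inl (h3.trans h1)
    · refine Or.inr ⟨d, hd, d', hd', ⟨?_, ?_⟩, h4⟩
      · rw [← h.1]
        exact h3.1
      · rw [← h1]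
        exact h3.2
  · rcases h'.2 i with h3 | ⟨d, hd, d', hd', h3, h4⟩
    · refine Or.inr ⟨c, hc, c', hc', h1, ⟨?_, ?_⟩⟩
      · rw [h'.1]
        exact h2.1
      · rw [h3]
        exact h2.2
    · exact Or.inr ⟨c, hc, d', hd', h1, h4⟩

/-- PROOF: `mem_sites`. -/
theorem Cc.sites {b b' : Bs C} (h : 𝔉.Cc b b') : 𝔉.sites b'.F = 𝔉.sites b.F := by
  ext i
  rw [𝔉.mem_sites, 𝔉.mem_sites]
  rcases h.2 i with h1 | ⟨c, hc, c', hc', h1, h2⟩
  · rw [h1]
  · rw [h1.2, h2.2]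
    simp

/-- PROOF: `b'.F` is contained in the union of the finitely many fibres which meet `b.F`. -/
theorem finite_Cc (b : Bs C) : {b' : Bs C | 𝔉.Cc b b'}.Finite := by
  classical
  refine Set.Finite.of_injOn (f := fun b' : Bs C => b'.F)
    (t := (((𝔉.sites b.F).biUnion 𝔉.fib).powerset : Set (Finset C))) ?_ ?_ (Finset.finite_toSet _)
  · intro b' hb'
    have hb2 : 𝔉.Cc b b' := hb'
    refine Finset.mem_coe.2 (Finset.mem_powerset.2 (fun c hc => ?_))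
    have h1 : 𝔉.p c ∈ 𝔉.sites b'.F := 𝔉.mem_sites.2 ⟨c, Finset.mem_inter.2
      ⟨hc, (𝔉.mem_fib _ c).2 rfl⟩⟩
    rw [Cc.sites 𝔉 hb2] at h1
    exact Finset.mem_biUnion.2 ⟨𝔉.p c, h1, (𝔉.mem_fib _ c).2 rfl⟩
  · intro b1 hb1 b2 hb2 h
    have h1 : 𝔉.Cc b b1 := hb1
    have h2 : 𝔉.Cc b b2 := hb2
    exact Bs.ext h (h1.1.trans h2.1.symm)

/-- PROOF: `st (some c) b`, `upd_F`, `upd_S`, `disjoint_fib`. -/
theorem Cc.upd {i : I} {c c' : C} (hc : c ∈ 𝔉.fib i) (hc' : c' ∈ 𝔉.fib i) {b : Bs C}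
    (hb : 𝔉.st i (some c) b) : 𝔉.Cc b (𝔉.upd i (some c') b) := by
  refine ⟨𝔉.upd_S i _ b, fun j => ?_⟩
  have hl : (some c' : Option C) ∈ 𝔉.Lt i := 𝔉.mem_Lt.2 (fun d hd => by
    rw [← Option.some.inj hd]
    exact (𝔉.mem_fib i c').1 hc')
  by_cases hj : i = j
  · subst hj
    exact Or.inr ⟨c, hc, c', hc', hb, 𝔉.st_upd hl hb⟩
  · refine Or.inl ?_
    rw [𝔉.upd_F _ hb.1]
    have hdis := Finset.disjoint_left.1 (𝔉.disjoint_fib hj)
    ext d
    simp only [Finset.mem_inter, Finset.mem_union, Finset.mem_sdiff]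
    constructor
    · rintro ⟨h1 | h1, h2⟩
      · exact ⟨h1.1, h2⟩
      · exact absurd h2 (hdis (𝔉.toFinset_subset hl h1))
    · rintro ⟨h1, h2⟩
      exact ⟨Or.inl ⟨h1, fun h3 => hdis h3 h2⟩, h2⟩

/-- PROOF: translate: `st_smul`, `gF g (F ∩ fib i) = gF g F ∩ fib (g i)`. -/
theorem Cc.smul {b b' : Bs C} (h : 𝔉.Cc b b') (g : Γ) : 𝔉.Cc (g • b) (g • b') := by
  refine ⟨?_, fun i => ?_⟩
  · rw [Bs.smul_S, Bs.smul_S, h.1]
  · have hi : g • (g⁻¹ • i) = i := smul_inv_smul g i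
    have hfib : ∀ c : C, c ∈ 𝔉.fib i ↔ g⁻¹ • c ∈ 𝔉.fib (g⁻¹ • i) := by
      intro c
      rw [𝔉.mem_fib, 𝔉.mem_fib, 𝔉.smul]
      exact (smul_left_cancel_iff g⁻¹).symm
    rcases h.2 (g⁻¹ • i) with h1 | ⟨c, hc, c', hc', h1, h2⟩
    · refine Or.inl ?_
      ext c
      rw [Bs.smul_F, Bs.smul_F, Finset.mem_inter, Finset.mem_inter, mem_gF, mem_gF, hfib,
        ← Finset.mem_inter, ← Finset.mem_inter, h1]
    · have hc2 : ∀ d : C, d ∈ 𝔉.fib (g⁻¹ • i) → g • d ∈ 𝔉.fib i := by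
        intro d hd
        rw [hfib, inv_smul_smul]
        exact hd
      refine Or.inr ⟨g • c, hc2 c hc, g • c', hc2 c' hc', ?_, ?_⟩
      · have h3 := (𝔉.st_smul g (g⁻¹ • i) (some c) b).2 h1
        rw [hi] at h3
        exact h3
      · have h3 := (𝔉.st_smul g (g⁻¹ • i) (some c') b').2 h2
        rw [hi] at h3
        exact h3

end Fibr

end Pool.Agent.Lib.MP_aa9b81_an.Rc
end
end
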