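import Pool.Agent.Lib.MP_aa9b81_an.Mg.G075
import Pool.Agent.Lib.MP_aa9b81_an.Mg.G073
import Pool.Agent.Lib.MP_aa9b81_an.Mg.G020
import Pool.Agent.Lib.MP_aa9b81_an.Mg.G078

section

/-!
# Rotated sites, part P1b: matrix units and other operators
-/

open scoped ENNReal Topology ZeroAtInfty
open Function Filter Set

noncomputable section

namespace Pool.Agent.Lib.MP_aa9b81_an.Rc

open Cut Hs

variable {Γ C I : Type} [Group Γ] [MulAction Γ C] [MulAction Γ I] [DecidableEq C]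

namespace Fibr

variable (𝔉 : Fibr Γ C I)

/-- PROOF: coordinates, `Em_apply`, `dia_apply`. -/
theorem Em_comm_dia {i : I} {l l' : Option C} (h' : l' ∈ 𝔉.Lt i) {k : Bs C → ℂ} {M : ℝ}
    (hM : 0 ≤ M) (hk : ∀ b, ‖k b‖ ≤ M) (h : ∀ b, 𝔉.st i l b → k (𝔉.upd i l' b) = k b) :
    Commute (𝔉.Em i l l') (dia k) := by
  refine ContinuousLinearMap.ext fun ξ => ?_
  ext b
  change (𝔉.Em i l l' (dia k ξ) : Bs C → ℂ) b = (dia k (𝔉.Em i l l' ξ) : Bs C → ℂ) b
  rw [Em_apply 𝔉 l h', dia_apply hM hk, dia_apply hM hk, Em_apply 𝔉 l h']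
  by_cases hb : 𝔉.st i l b
  · simp only [if_pos hb]
    rw [h b hb]
  · simp only [if_neg hb]
    rw [mul_zero]

/-- PROOF: `Em_comm_dia`, `upd_S`. -/
theorem Em_comm_Pp {i : I} {l l' : Option C} (h' : l' ∈ 𝔉.Lt i) :
    Commute (𝔉.Em i l l') (Pp : BL (Bs C)) := by
  unfold Pp
  refine 𝔉.Em_comm_dia h' zero_le_one (fun b => ?_) (fun b _ => ?_)
  · split_ifs <;> simp
  · rw [upd_S]

/-- PROOF: coordinates: `Em_apply`, `SAct.W_apply`, `sact_ε`: the sign depends only on `S`, `upd_S`; `st_smul`, `upd_smul`,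
`map_mem_Lt`. -/
theorem W_mul_Em (e : C ↪ ℕ) (g : Γ) {i : I} {l l' : Option C} (h' : l' ∈ 𝔉.Lt i) :
    (sact e : SAct Γ (Bs C)).W g * 𝔉.Em i l l' =
      𝔉.Em (g • i) (l.map (g • ·)) (l'.map (g • ·)) * (sact e : SAct Γ (Bs C)).W g := by
  refine ContinuousLinearMap.ext fun ξ => ?_
  ext b
  change ((sact e : SAct Γ (Bs C)).W g (𝔉.Em i l l' ξ) : Bs C → ℂ) b =
    (𝔉.Em (g • i) (l.map (g • ·)) (l'.map (g • ·)) ((sact e : SAct Γ (Bs C)).W g ξ) : Bs C → ℂ) b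
  have hb : g • (g⁻¹ • b) = b := smul_inv_smul g b
  have hst : 𝔉.st (g • i) (l.map (g • ·)) b ↔ 𝔉.st i l (g⁻¹ • b) := by
    have := 𝔉.st_smul g i l (g⁻¹ • b)
    rwa [hb] at this
  have hup : 𝔉.upd (g • i) (l'.map (g • ·)) b = g • 𝔉.upd i l' (g⁻¹ • b) := by
    have := 𝔉.upd_smul g i l' (g⁻¹ • b)
    rwa [hb] at this
  rw [SAct.W_apply, Em_apply 𝔉 l h', Em_apply 𝔉 _ ((𝔉.map_mem_Lt g).2 h'), SAct.W_apply]
  by_cases h1 : 𝔉.st i l (g⁻¹ • b)
  · rw [if_pos h1, if_pos (hst.2 h1), hup, inv_smul_smul, sact_ε, sact_ε, upd_S]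
  · rw [if_neg h1, if_neg (fun h2 => h1 (hst.1 h2)), mul_zero]

omit [Group Γ] [MulAction Γ C] [MulAction Γ I] in
private theorem P1b_mem_tg {c x : C} (S : Finset C) (h : x ≠ c) : x ∈ tg c S ↔ x ∈ S := by
  unfold tg
  split_ifs
  · rw [Finset.mem_erase]
    exact ⟨fun h1 => h1.2, fun h1 => ⟨h, h1⟩⟩
  · rw [Finset.mem_insert]
    exact ⟨fun h1 => h1.resolve_left h, Or.inr⟩

private theorem P1b_disj {i : I} {c : C} (S : Finset C) (hc : c ∉ 𝔉.fib i) :
    Disjoint (tg c S) (𝔉.fib i) ↔ Disjoint S (𝔉.fib i) := by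
  rw [Finset.disjoint_right, Finset.disjoint_right]
  constructor
  · intro h x hx h1
    exact h hx ((P1b_mem_tg S (ne_of_mem_of_not_mem hx hc)).2 h1)
  · intro h x hx h1
    exact h hx ((P1b_mem_tg S (ne_of_mem_of_not_mem hx hc)).1 h1)

private theorem P1b_st {i : I} {l : Option C} {c : C} {b : Bs C} (hc : c ∈ b.F)
    (hci : c ∉ 𝔉.fib i) : 𝔉.st i l (tog c b) ↔ 𝔉.st i l b := by
  unfold st
  rw [(tog_of_mem hc).1, (tog_of_mem hc).2, 𝔉.P1b_disj b.S hci]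

/-- PROOF: coordinates at `b = (F, S)`: `Cl_apply`, `clF`. If `b` is not even at `i` with the letter `l`, the left side is `0`, and in the
right side the term of `c ∈ F` is `0`: for `c ∉ fib i` the label `tog c b` is not even at `i` with the letter `l` either
(`tog` changes `S` only at `c`), and `a F c = 0` for `c ∈ fib i`. Otherwise let `b' = upd i l' b = (F', S)`; both sides are
sums over the `c ∈ F ∖ fib i = F' ∖ fib i` (the coefficients in the fibre vanish), `a F' c = a F c` by `h1`, and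
`upd i l' (tog c b) = tog c b'`, `st i l (tog c b)`. -/
theorem Em_comm_Cl (e : C ↪ ℕ) {i : I} {l l' : Option C} (h' : l' ∈ 𝔉.Lt i)
    {a : Finset C → C → ℝ} {M : ℝ} (h : CB a M) (h0 : ∀ F, ∀ c ∈ 𝔉.fib i, a F c = 0)
    (h1 : ∀ F c, a F c = a (F \ 𝔉.fib i) c) : Commute (𝔉.Em i l l') (Cl e a) := by
  refine ContinuousLinearMap.ext fun ξ => ?_
  ext b
  change (𝔉.Em i l l' (Cl e a ξ) : Bs C → ℂ) b = (Cl e a (𝔉.Em i l l' ξ) : Bs C → ℂ) b
  rw [Em_apply 𝔉 l h', Cl_apply e h, Cl_apply e h]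
  unfold clF
  by_cases hb : 𝔉.st i l b
  · rw [if_pos hb]
    have hF : (𝔉.upd i l' b).F = (b.F \ 𝔉.fib i) ∪ l'.toFinset := 𝔉.upd_F l' hb.1
    have hS : (𝔉.upd i l' b).S = b.S := 𝔉.upd_S i l' b
    have hl' : l'.toFinset ⊆ 𝔉.fib i := 𝔉.toFinset_subset h'
    have hsd : (𝔉.upd i l' b).F \ 𝔉.fib i = b.F \ 𝔉.fib i := by
      rw [hF]
      ext c
      simp only [Finset.mem_sdiff, Finset.mem_union]
      constructor
      · rintro ⟨h2 | h2, h3⟩
        · exact h2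
        · exact absurd (hl' h2) h3
      · intro h2
        exact ⟨Or.inl h2, h2.2⟩
    have e1 : ∑ c ∈ b.F \ 𝔉.fib i, (a (𝔉.upd i l' b).F c : ℂ) *
        (th e c (𝔉.upd i l' b).S * (ξ : Bs C → ℂ) (tog c (𝔉.upd i l' b))) =
        ∑ c ∈ (𝔉.upd i l' b).F, (a (𝔉.upd i l' b).F c : ℂ) *
        (th e c (𝔉.upd i l' b).S * (ξ : Bs C → ℂ) (tog c (𝔉.upd i l' b))) := by
      refine Finset.sum_subset ?_ fun c hc hc' => ?_
      · rw [hF]
        exact Finset.subset_union_left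
      · have h2 : c ∈ 𝔉.fib i := by
          rw [hF, Finset.mem_union] at hc
          rcases hc with h3 | h3
          · exact absurd h3 hc'
          · exact hl' h3
        rw [h0 _ c h2]
        simp
    have e2 : ∑ c ∈ b.F \ 𝔉.fib i, (a b.F c : ℂ) *
        (th e c b.S * ((𝔉.Em i l l' ξ : L2 (Bs C)) : Bs C → ℂ) (tog c b)) =
        ∑ c ∈ b.F, (a b.F c : ℂ) *
        (th e c b.S * ((𝔉.Em i l l' ξ : L2 (Bs C)) : Bs C → ℂ) (tog c b)) := by
      refine Finset.sum_subset Finset.sdiff_subset fun c hc hc' => ?_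
      have h2 : c ∈ 𝔉.fib i := by
        by_contra h3
        exact hc' (Finset.mem_sdiff.2 ⟨hc, h3⟩)
      rw [h0 _ c h2]
      simp
    rw [← e1, ← e2]
    refine Finset.sum_congr rfl fun c hc => ?_
    obtain ⟨hcF, hci⟩ := Finset.mem_sdiff.1 hc
    have hcF' : c ∈ (𝔉.upd i l' b).F := by
      rw [hF]
      exact Finset.mem_union_left _ hc
    have hst : 𝔉.st i l (tog c b) := (𝔉.P1b_st hcF hci).2 hb
    have htog : 𝔉.upd i l' (tog c b) = tog c (𝔉.upd i l' b) := by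
      apply Bs.ext
      · rw [𝔉.upd_F l' hst.1, (tog_of_mem hcF').1, (tog_of_mem hcF).1, hF]
      · rw [𝔉.upd_S, (tog_of_mem hcF').2, (tog_of_mem hcF).2, hS]
    rw [Em_apply 𝔉 l h', if_pos hst, htog, hS, h1 (𝔉.upd i l' b).F c, hsd, ← h1]
  · rw [if_neg hb]
    refine (Finset.sum_eq_zero fun c hc => ?_).symm
    by_cases hci : c ∈ 𝔉.fib i
    · rw [h0 _ c hci]
      simp
    · rw [Em_apply 𝔉 l h', if_neg (fun h2 => hb ((𝔉.P1b_st hc hci).1 h2)), mul_zero, mul_zero]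

end Fibr

end Pool.Agent.Lib.MP_aa9b81_an.Rc
end
end

section

/-!
# Rotated sites, part P2a: local operators at one fibre, definitions
-/

open scoped ENNReal Topology ZeroAtInfty
open Function Filter Set

noncomputable section

namespace Pool.Agent.Lib.MP_aa9b81_an.Rc

open Cut Hs

variable {Γ C I : Type} [Group Γ] [MulAction Γ C] [MulAction Γ I] [DecidableEq C]

/-- The product of matrices on the letters in the finite set `A`. -/
def mm {C : Type} (A : Finset (Option C)) (m m' : Option C → Option C → ℝ) :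
    Option C → Option C → ℝ := fun l l'' => ∑ l' ∈ A, m l l' * m' l' l''

/-- The unit matrix. -/
def id1 {C : Type} [DecidableEq C] : Option C → Option C → ℝ := fun l l' => if l = l' then 1 else 0

namespace Fibr

variable (𝔉 : Fibr Γ C I)

/-- The projection onto the labels which are even at the fibre `i` and meet it at most once. -/
def Nf (i : I) : BL (Bs C) := ∑ l ∈ 𝔉.Lt i, 𝔉.Em i l l

/-- The matrix `m` at the fibre `i`. -/
def Mi (i : I) (m : Option C → Option C → ℝ) : BL (Bs C) :=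
  ∑ l ∈ 𝔉.Lt i, ∑ l' ∈ 𝔉.Lt i, ((m l l' : ℝ) : ℂ) • 𝔉.Em i l l'

/-- The matrix `m` at the fibre `i`, and `α` on the labels which are not even at `i` or meet the fibre twice. -/
def Li (i : I) (α : ℝ) (m : Option C → Option C → ℝ) : BL (Bs C) :=
  ((α : ℝ) : ℂ) • (1 - 𝔉.Nf i) + 𝔉.Mi i m

/-- PROOF: `Em_mul_Em`, `Finset.sum_mul_sum`: `(∑ m l l' E_{ll'}) (∑ m' k k' E_{kk'}) = ∑ m l l' m' l' k' E_{lk'}`. -/
theorem Mi_mul_Mi (i : I) (m m' : Option C → Option C → ℝ) :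
    𝔉.Mi i m * 𝔉.Mi i m' = 𝔉.Mi i (mm (𝔉.Lt i) m m') := by
  unfold Mi
  rw [Finset.sum_mul_sum]
  have h1 : ∀ l ∈ 𝔉.Lt i, ∀ k ∈ 𝔉.Lt i,
      (∑ l' ∈ 𝔉.Lt i, ((m l l' : ℝ) : ℂ) • 𝔉.Em i l l') *
        (∑ k' ∈ 𝔉.Lt i, ((m' k k' : ℝ) : ℂ) • 𝔉.Em i k k') =
      ∑ k' ∈ 𝔉.Lt i, ((m l k * m' k k' : ℝ) : ℂ) • 𝔉.Em i l k' := by
    intro l hl k hk
    rw [Finset.sum_mul_sum]
    rw [Finset.sum_eq_single_of_mem k hk]
    · apply Finset.sum_congr rfl
      intro k' hk'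
      rw [smul_mul_smul_comm, 𝔉.Em_mul_Em l hk hk', if_pos rfl]
      push_cast
      rfl
    · intro l' hl' hne
      apply Finset.sum_eq_zero
      intro k' hk'
      rw [smul_mul_smul_comm, 𝔉.Em_mul_Em l hl' hk', if_neg hne, smul_zero]
  rw [Finset.sum_congr rfl fun l hl => Finset.sum_congr rfl fun k hk => h1 l hl k hk]
  apply Finset.sum_congr rfl
  intro l hl
  rw [Finset.sum_comm]
  apply Finset.sum_congr rfl
  intro k' hk'
  rw [← Finset.sum_smul]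
  congr 1
  unfold mm
  push_cast
  rfl

/-- PROOF: the inner sum has one term. -/
theorem Mi_id (i : I) : 𝔉.Mi i id1 = 𝔉.Nf i := by
  unfold Mi Nf id1
  apply Finset.sum_congr rfl
  intro l hl
  rw [Finset.sum_eq_single_of_mem l hl]
  · simp
  · intro l' _ hne
    rw [if_neg (Ne.symm hne)]
    simp

theorem Mi_congr {i : I} {m m' : Option C → Option C → ℝ}
    (h : ∀ l ∈ 𝔉.Lt i, ∀ l' ∈ 𝔉.Lt i, m l l' = m' l l') : 𝔉.Mi i m = 𝔉.Mi i m' := by
  unfold Mi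
  exact Finset.sum_congr rfl fun l hl => Finset.sum_congr rfl fun l' hl' => by rw [h l hl l' hl']

/-- PROOF: `Finset.sum_add_distrib`, `add_smul`. -/
theorem Mi_add (i : I) (m m' : Option C → Option C → ℝ) :
    𝔉.Mi i (fun l l' => m l l' + m' l l') = 𝔉.Mi i m + 𝔉.Mi i m' := by
  unfold Mi
  rw [← Finset.sum_add_distrib]
  refine Finset.sum_congr rfl fun l _ => ?_
  rw [← Finset.sum_add_distrib]
  refine Finset.sum_congr rfl fun l' _ => ?_
  rw [← add_smul]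
  push_cast
  rfl

/-- PROOF: `Mi_id`, `Mi_mul_Mi`, `Mi_congr` for the three products `N N = N`, `N M = M`, `M N = M`. -/
theorem Nf_mul (i : I) (m : Option C → Option C → ℝ) : 𝔉.Nf i * 𝔉.Nf i = 𝔉.Nf i ∧
    𝔉.Nf i * 𝔉.Mi i m = 𝔉.Mi i m ∧ 𝔉.Mi i m * 𝔉.Nf i = 𝔉.Mi i m := by
  have h1 : ∀ m : Option C → Option C → ℝ, ∀ l ∈ 𝔉.Lt i, ∀ l' ∈ 𝔉.Lt i,
      mm (𝔉.Lt i) id1 m l l' = m l l' := by
    intro m l hl l' _
    unfold mm id1
    rw [Finset.sum_eq_single_of_mem l hl]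
    · simp
    · intro k _ hne
      rw [if_neg (Ne.symm hne), zero_mul]
  have h2 : ∀ m : Option C → Option C → ℝ, ∀ l ∈ 𝔉.Lt i, ∀ l' ∈ 𝔉.Lt i,
      mm (𝔉.Lt i) m id1 l l' = m l l' := by
    intro m l _ l' hl'
    unfold mm id1
    rw [Finset.sum_eq_single_of_mem l' hl']
    · simp
    · intro k _ hne
      rw [if_neg hne, mul_zero]
  rw [← Mi_id]
  refine ⟨?_, ?_, ?_⟩
  · rw [Mi_mul_Mi]
    exact 𝔉.Mi_congr (h1 id1)
  · rw [Mi_mul_Mi]
    exact 𝔉.Mi_congr (h1 m)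
  · rw [Mi_mul_Mi]
    exact 𝔉.Mi_congr (h2 m)

/-- PROOF: expand, `Nf_mul`, `Mi_mul_Mi`. -/
theorem Li_mul_Li (i : I) (α α' : ℝ) (m m' : Option C → Option C → ℝ) :
    𝔉.Li i α m * 𝔉.Li i α' m' = 𝔉.Li i (α * α') (mm (𝔉.Lt i) m m') := by
  unfold Li
  obtain ⟨h1, h2, _⟩ := 𝔉.Nf_mul i m'
  obtain ⟨_, _, h3⟩ := 𝔉.Nf_mul i m
  rw [← Mi_mul_Mi]
  have e1 : (1 - 𝔉.Nf i) * (1 - 𝔉.Nf i) = 1 - 𝔉.Nf i := by
    rw [mul_sub, mul_one, sub_mul, h1, one_mul, sub_self, sub_zero]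
  have e2 : (1 - 𝔉.Nf i) * 𝔉.Mi i m' = 0 := by
    rw [sub_mul, h2, one_mul, sub_self]
  have e3 : 𝔉.Mi i m * (1 - 𝔉.Nf i) = 0 := by
    rw [mul_sub, mul_one, h3, sub_self]
  rw [add_mul, mul_add, mul_add, smul_mul_smul_comm, smul_mul_assoc, mul_smul_comm, e1, e2, e3,
    smul_zero, smul_zero, add_zero, zero_add]
  push_cast
  rfl

/-- PROOF: `Mi_id`. -/
theorem Li_one (i : I) : 𝔉.Li i 1 id1 = 1 := by
  unfold Li
  rw [Mi_id]
  simp

/-- PROOF: `Mi_congr`. -/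
theorem Li_congr {i : I} (α : ℝ) {m m' : Option C → Option C → ℝ}
    (h : ∀ l ∈ 𝔉.Lt i, ∀ l' ∈ 𝔉.Lt i, m l l' = m' l l') : 𝔉.Li i α m = 𝔉.Li i α m' := by
  unfold Li
  rw [𝔉.Mi_congr h]

end Fibr

end Pool.Agent.Lib.MP_aa9b81_an.Rc
end
end

section

/-!
# Rotated sites, part P2b: local operators at one fibre and other operators
-/

open scoped ENNReal Topology ZeroAtInfty
open Function Filter Set

noncomputable section

namespace Pool.Agent.Lib.MP_aa9b81_an.Rc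

open Cut Hs

variable {Γ C I : Type} [Group Γ] [MulAction Γ C] [MulAction Γ I] [DecidableEq C]

namespace Fibr

variable (𝔉 : Fibr Γ C I)

/-- PROOF: `inner_Em`, sums (`sum_inner`, `inner_sum`), real coefficients (`inner_smul_left`, `inner_smul_right`), exchange of the
two sums, `h`. -/
theorem inner_Li {i : I} (α : ℝ) {m : Option C → Option C → ℝ}
    (h : ∀ l ∈ 𝔉.Lt i, ∀ l' ∈ 𝔉.Lt i, m l l' = m l' l) (ξ η : L2 (Bs C)) :
    inner ℂ (𝔉.Li i α m ξ) η = inner ℂ ξ (𝔉.Li i α m η) := by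
  have hsum : ∀ (ξ : L2 (Bs C)), 𝔉.Nf i ξ = ∑ l ∈ 𝔉.Lt i, 𝔉.Em i l l ξ := by
    intro ξ
    rw [Nf, _root_.sum_apply]
  have hM : ∀ (ξ : L2 (Bs C)), 𝔉.Mi i m ξ =
      ∑ l ∈ 𝔉.Lt i, ∑ l' ∈ 𝔉.Lt i, ((m l l' : ℝ) : ℂ) • 𝔉.Em i l l' ξ := by
    intro ξ
    rw [Mi, _root_.sum_apply]
    apply Finset.sum_congr rfl
    intro l _
    rw [_root_.sum_apply]
    rfl
  have hN1 : inner ℂ (𝔉.Nf i ξ) η = inner ℂ ξ (𝔉.Nf i η) := by
    rw [hsum, hsum, sum_inner, inner_sum]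
    apply Finset.sum_congr rfl
    intro l hl
    exact 𝔉.inner_Em hl hl ξ η
  have hM1 : inner ℂ (𝔉.Mi i m ξ) η = inner ℂ ξ (𝔉.Mi i m η) := by
    rw [hM, hM, sum_inner, inner_sum]
    have e1 : ∀ l ∈ 𝔉.Lt i, inner ℂ (∑ l' ∈ 𝔉.Lt i, ((m l l' : ℝ) : ℂ) • 𝔉.Em i l l' ξ) η =
        ∑ l' ∈ 𝔉.Lt i, ((m l l' : ℝ) : ℂ) * inner ℂ ξ (𝔉.Em i l' l η) := by
      intro l hl
      rw [sum_inner]
      apply Finset.sum_congr rfl
      intro l' hl'
      rw [inner_smul_left, Complex.conj_ofReal, 𝔉.inner_Em hl hl' ξ η]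
    have e2 : ∀ l ∈ 𝔉.Lt i, inner ℂ ξ (∑ l' ∈ 𝔉.Lt i, ((m l l' : ℝ) : ℂ) • 𝔉.Em i l l' η) =
        ∑ l' ∈ 𝔉.Lt i, ((m l l' : ℝ) : ℂ) * inner ℂ ξ (𝔉.Em i l l' η) := by
      intro l hl
      rw [inner_sum]
      apply Finset.sum_congr rfl
      intro l' hl'
      rw [inner_smul_right]
    rw [Finset.sum_congr rfl e1, Finset.sum_congr rfl e2, Finset.sum_comm]
    apply Finset.sum_congr rfl
    intro l hl
    apply Finset.sum_congr rfl
    intro l' hl'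
    rw [h l' hl' l hl]
  have hL : ∀ ζ : L2 (Bs C), 𝔉.Li i α m ζ = ((α : ℝ) : ℂ) • (ζ - 𝔉.Nf i ζ) + 𝔉.Mi i m ζ := fun ζ => rfl
  rw [hL, hL, inner_add_left, inner_add_right, inner_smul_left, inner_smul_right, inner_sub_left,
    inner_sub_right, Complex.conj_ofReal, hN1, hM1]

/-- PROOF: sums of the `Em i l l'` (`Commute.sum_left`, `Commute.smul_left`, `Commute.sub_left`, ...). -/
theorem Li_comm_of {i : I} (α : ℝ) (m : Option C → Option C → ℝ) {X : BL (Bs C)}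
    (h : ∀ l ∈ 𝔉.Lt i, ∀ l' ∈ 𝔉.Lt i, Commute (𝔉.Em i l l') X) : Commute (𝔉.Li i α m) X := by
  have hN : Commute (𝔉.Nf i) X := Commute.sum_left _ _ _ (fun l hl => h l hl l hl)
  have hM : Commute (𝔉.Mi i m) X :=
    Commute.sum_left _ _ _ (fun l hl => Commute.sum_left _ _ _ (fun l' hl' => (h l hl l' hl').smul_left _))
  exact (((Commute.one_left X).sub_left hN).smul_left _).add_left hM

/-- PROOF: `Li_comm_of` twice, `Em_comm`. -/
theorem Li_comm {i j : I} (h : i ≠ j) (α α' : ℝ) (m m' : Option C → Option C → ℝ) :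
    Commute (𝔉.Li i α m) (𝔉.Li j α' m') := by
  exact 𝔉.Li_comm_of α m (fun l hl l' hl' =>
    (𝔉.Li_comm_of α' m' (fun k hk k' hk' => (𝔉.Em_comm h hl' hk').symm)).symm)

/-- PROOF: `W_mul_Em`; reindex the sums over the letters by `l ↦ l.map (g • ·)`, a bijection `Lt i → Lt (g i)`
(`map_mem_Lt`). -/
theorem W_mul_Li (e : C ↪ ℕ) (g : Γ) {i : I} (α : ℝ) {m m' : Option C → Option C → ℝ}
    (h : ∀ l ∈ 𝔉.Lt i, ∀ l' ∈ 𝔉.Lt i, m' (l.map (g • ·)) (l'.map (g • ·)) = m l l') :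
    (sact e : SAct Γ (Bs C)).W g * 𝔉.Li i α m =
      𝔉.Li (g • i) α m' * (sact e : SAct Γ (Bs C)).W g := by
  have hLt : 𝔉.Lt (g • i) = (𝔉.Lt i).image (fun l => l.map (g • ·)) := by
    ext l'
    rw [Finset.mem_image]
    constructor
    · intro hl'
      have e : (l'.map (g⁻¹ • ·)).map (g • ·) = l' := by
        rw [Option.map_map]
        have e2 : ((g • ·) ∘ (g⁻¹ • ·) : C → C) = id := by
          funext c
          simp
        rw [e2, Option.map_id]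
        rfl
      refine ⟨l'.map (g⁻¹ • ·), ?_, e⟩
      rw [← 𝔉.map_mem_Lt g, e]
      exact hl'
    · rintro ⟨l, hl, rfl⟩
      exact (𝔉.map_mem_Lt g).2 hl
  have hinj : Function.Injective (fun l : Option C => l.map (g • ·)) :=
    Option.map_injective (MulAction.injective g)
  have hN : (sact e : SAct Γ (Bs C)).W g * 𝔉.Nf i = 𝔉.Nf (g • i) * (sact e : SAct Γ (Bs C)).W g := by
    rw [Nf, Nf, hLt, Finset.sum_image (fun _ _ _ _ h => hinj h), Finset.mul_sum, Finset.sum_mul]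
    apply Finset.sum_congr rfl
    intro l hl
    exact 𝔉.W_mul_Em e g hl
  have hM : (sact e : SAct Γ (Bs C)).W g * 𝔉.Mi i m = 𝔉.Mi (g • i) m' * (sact e : SAct Γ (Bs C)).W g := by
    rw [Mi, Mi, hLt, Finset.sum_image (fun _ _ _ _ h => hinj h), Finset.mul_sum, Finset.sum_mul]
    apply Finset.sum_congr rfl
    intro l hl
    rw [Finset.sum_image (fun _ _ _ _ h => hinj h), Finset.mul_sum, Finset.sum_mul]
    apply Finset.sum_congr rfl
    intro l' hl'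
    rw [mul_smul_comm, smul_mul_assoc, 𝔉.W_mul_Em e g hl', h l hl l' hl']
  rw [Li, Li, mul_add, add_mul, mul_smul_comm, smul_mul_assoc, mul_sub, sub_mul, mul_one, one_mul, hN, hM]

/-- PROOF: finite sums of continuous functions times constant operators. -/
theorem continuous_Li (i : I) (α : ℝ) :
    Continuous fun m : Option C → Option C → ℝ => 𝔉.Li i α m := by
  unfold Li Mi
  refine continuous_const.add ?_
  refine continuous_finsetSum _ (fun l _ => continuous_finsetSum _ (fun l' _ => ?_))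
  exact (Complex.continuous_ofReal.comp (continuous_apply_apply l l')).smul continuous_const

open Classical in
/-- the coordinates of a local operator at one fibre -/
private theorem P2b_apply {i : I} (α : ℝ) (m : Option C → Option C → ℝ) (b : Bs C) (ξ : L2 (Bs C)) :
    (𝔉.Li i α m ξ : Bs C → ℂ) b = ((α : ℝ) : ℂ) * ((ξ : Bs C → ℂ) b -
      ∑ l ∈ 𝔉.Lt i, if 𝔉.st i l b then (ξ : Bs C → ℂ) (𝔉.upd i l b) else 0) +
      ∑ l ∈ 𝔉.Lt i, ∑ l' ∈ 𝔉.Lt i, ((m l l' : ℝ) : ℂ) *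
        (if 𝔉.st i l b then (ξ : Bs C → ℂ) (𝔉.upd i l' b) else 0) := by
  have hN : (𝔉.Nf i ξ : Bs C → ℂ) b =
      ∑ l ∈ 𝔉.Lt i, if 𝔉.st i l b then (ξ : Bs C → ℂ) (𝔉.upd i l b) else 0 := by
    rw [Nf, _root_.sum_apply, lp.coeFn_sum, Finset.sum_apply]
    apply Finset.sum_congr rfl
    intro l hl
    exact 𝔉.Em_apply l hl ξ b
  have hM : (𝔉.Mi i m ξ : Bs C → ℂ) b = ∑ l ∈ 𝔉.Lt i, ∑ l' ∈ 𝔉.Lt i, ((m l l' : ℝ) : ℂ) *
        (if 𝔉.st i l b then (ξ : Bs C → ℂ) (𝔉.upd i l' b) else 0) := by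
    rw [Mi, _root_.sum_apply, lp.coeFn_sum, Finset.sum_apply]
    apply Finset.sum_congr rfl
    intro l hl
    rw [_root_.sum_apply, lp.coeFn_sum, Finset.sum_apply]
    apply Finset.sum_congr rfl
    intro l' hl'
    have e1 := 𝔉.Em_apply l hl' ξ b
    have e2 : (((((m l l' : ℝ) : ℂ) • 𝔉.Em i l l') ξ : L2 (Bs C)) : Bs C → ℂ) b =
      ((m l l' : ℝ) : ℂ) * (𝔉.Em i l l' ξ : Bs C → ℂ) b := rfl
    rw [e2, e1]
  have hL : (𝔉.Li i α m ξ : Bs C → ℂ) b = ((α : ℝ) : ℂ) * ((ξ : Bs C → ℂ) b - (𝔉.Nf i ξ : Bs C → ℂ) b) +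
    (𝔉.Mi i m ξ : Bs C → ℂ) b := rfl
  rw [hL, hN, hM]

/-- PROOF: coordinates: `Em_apply`, `upd_of_st`, `st_unique`: at `b` with `st i l b`, `l ∈ Lt i`, the value of `Nf i ξ` is `ξ b`. -/
theorem Li_apply_st {i : I} (α : ℝ) (m : Option C → Option C → ℝ) {l : Option C}
    (hl : l ∈ 𝔉.Lt i) {b : Bs C} (hb : 𝔉.st i l b) (ξ : L2 (Bs C)) :
    (𝔉.Li i α m ξ : Bs C → ℂ) b =
      ∑ l' ∈ 𝔉.Lt i, ((m l l' : ℝ) : ℂ) * (ξ : Bs C → ℂ) (𝔉.upd i l' b) := by
  classical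
  rw [P2b_apply]
  have hst : ∀ k, 𝔉.st i k b ↔ k = l := fun k => ⟨fun hk => 𝔉.st_unique hk hb, fun hk => hk ▸ hb⟩
  have e1 : (∑ k ∈ 𝔉.Lt i, if 𝔉.st i k b then (ξ : Bs C → ℂ) (𝔉.upd i k b) else 0) = (ξ : Bs C → ℂ) b := by
    rw [Finset.sum_eq_single l]
    · rw [if_pos hb, 𝔉.upd_of_st hb]
    · intro k _ hk
      rw [if_neg (fun h => hk ((hst k).1 h))]
    · intro h
      exact absurd hl h
  rw [e1, sub_self, mul_zero, zero_add, Finset.sum_eq_single l]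
  · apply Finset.sum_congr rfl
    intro l' _
    rw [if_pos hb]
  · intro k _ hk
    apply Finset.sum_eq_zero
    intro l' _
    rw [if_neg (fun h => hk ((hst k).1 h)), mul_zero]
  · intro h
    exact absurd hl h

/-- PROOF: coordinates, `Em_apply`: all the `Em i l l' ξ` vanish at `b`. -/
theorem Li_apply_not {i : I} (α : ℝ) (m : Option C → Option C → ℝ) {b : Bs C}
    (hb : ∀ l ∈ 𝔉.Lt i, ¬ 𝔉.st i l b) (ξ : L2 (Bs C)) :
    (𝔉.Li i α m ξ : Bs C → ℂ) b = ((α : ℝ) : ℂ) * (ξ : Bs C → ℂ) b := by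
  classical
  rw [P2b_apply, Finset.sum_eq_zero (fun l hl => if_neg (hb l hl)), sub_zero, Finset.sum_eq_zero, add_zero]
  intro l hl
  apply Finset.sum_eq_zero
  intro l' _
  rw [if_neg (hb l hl), mul_zero]

end Fibr

end Pool.Agent.Lib.MP_aa9b81_an.Rc
end
end

section

/-!
# Rotated sites, part P3a: local operators at finitely many fibres, definitions
-/

open scoped ENNReal Topology ZeroAtInfty
open Function Filter Set

noncomputable section

namespace Pool.Agent.Lib.MP_aa9b81_an.Rc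

open Cut Hs

variable {Γ C I : Type} [Group Γ] [MulAction Γ C] [MulAction Γ I] [DecidableEq C]

/-- Symmetric matrices with square `1` on the letters at `i`, for all fibres `i`. -/
structure Mf (𝔉 : Fibr Γ C I) where
  /-- the matrices -/
  m : I → Option C → Option C → ℝ
  symm : ∀ i, ∀ l ∈ 𝔉.Lt i, ∀ l' ∈ 𝔉.Lt i, m i l l' = m i l' l
  sq : ∀ i, ∀ l ∈ 𝔉.Lt i, ∀ l' ∈ 𝔉.Lt i, mm (𝔉.Lt i) (m i) (m i) l l' = id1 l l'

namespace Fibr

variable (𝔉 : Fibr Γ C I)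

/-- The local operator of `V` at the fibre `i`. -/
def Wi (V : Mf 𝔉) (i : I) : BL (Bs C) := 𝔉.Li i 1 (V.m i)

/-- PROOF: `Li_mul_Li`, `Li_congr`, `Mf.sq`, `Li_one`. -/
theorem Wi_mul_self (V : Mf 𝔉) (i : I) : 𝔉.Wi V i * 𝔉.Wi V i = 1 := by
  unfold Wi
  rw [Li_mul_Li, one_mul, 𝔉.Li_congr 1 (V.sq i), Li_one]

/-- PROOF: `‖W ξ‖² = ⟪W ξ, W ξ⟫ = ⟪ξ, W W ξ⟫ = ‖ξ‖²` (`inner_Li`, `Wi_mul_self`). -/
theorem norm_Wi_le (V : Mf 𝔉) (i : I) : ‖𝔉.Wi V i‖ ≤ 1 := by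
  refine ContinuousLinearMap.opNorm_le_bound _ zero_le_one fun ξ => ?_
  rw [one_mul]
  have h1 : inner ℂ (𝔉.Wi V i ξ) (𝔉.Wi V i ξ) = inner ℂ ξ ξ := by
    have h2 := 𝔉.inner_Li (i := i) 1 (V.symm i) ξ (𝔉.Wi V i ξ)
    have h3 : 𝔉.Li i 1 (V.m i) (𝔉.Wi V i ξ) = (𝔉.Wi V i * 𝔉.Wi V i) ξ := rfl
    rw [h3, 𝔉.Wi_mul_self V i] at h2
    exact h2
  rw [inner_self_eq_norm_sq_to_K, inner_self_eq_norm_sq_to_K] at h1
  have h4 : ‖𝔉.Wi V i ξ‖ ^ 2 = ‖ξ‖ ^ 2 := by exact_mod_cast h1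
  exact le_of_eq ((sq_eq_sq₀ (norm_nonneg _) (norm_nonneg _)).1 h4)

/-- The local operator at the fibre `i` as a unit. -/
def Wu (V : Mf 𝔉) (i : I) : (BL (Bs C))ˣ :=
  ⟨𝔉.Wi V i, 𝔉.Wi V i, 𝔉.Wi_mul_self V i, 𝔉.Wi_mul_self V i⟩

theorem Wu_pair (E : Finset I) (V : Mf 𝔉) : (E : Set I).Pairwise (Commute on fun i => 𝔉.Wu V i) :=
  fun _ _ _ _ h => Units.ext (𝔉.Li_comm h _ _ _ _)

/-- The product of the local operators at the fibres in the finite set `E`. -/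
def WU (E : Finset I) (V : Mf 𝔉) : (BL (Bs C))ˣ := E.noncommProd (fun i => 𝔉.Wu V i) (𝔉.Wu_pair E V)

/-- The product of the local operators at the fibres in the finite set `E`. -/
def WE (E : Finset I) (V : Mf 𝔉) : BL (Bs C) := (𝔉.WU E V : BL (Bs C))

/-- PROOF: definition. -/
theorem WE_empty (V : Mf 𝔉) : 𝔉.WE ∅ V = 1 := by
  unfold WE WU
  rw [Finset.noncommProd_empty]
  rfl

/-- PROOF: `Finset.noncommProd_insert_of_notMem`. -/
theorem WE_insert [DecidableEq I] {i : I} {E : Finset I} (h : i ∉ E) (V : Mf 𝔉) :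
    𝔉.WE (insert i E) V = 𝔉.Wi V i * 𝔉.WE E V := by
  unfold WE WU
  rw [Finset.noncommProd_insert_of_notMem _ _ _ _ h]
  rfl

/-- PROOF: induction on `E` (`classical`, `WE_insert`), `Commute.mul_left`. -/
theorem WE_comm {E : Finset I} {V : Mf 𝔉} {X : BL (Bs C)}
    (h : ∀ i ∈ E, Commute (𝔉.Wi V i) X) : Commute (𝔉.WE E V) X := by
  classical
  induction E using Finset.induction_on with
  | empty => rw [WE_empty]; exact Commute.one_left X
  | insert i E hi ih =>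
    rw [𝔉.WE_insert hi]
    exact (h i (Finset.mem_insert_self i E)).mul_left
      (ih fun j hj => h j (Finset.mem_insert_of_mem hj))

/-- PROOF: induction on `E`: `WE_insert`, the new factor commutes with the old ones (`WE_comm`, `Li_comm`),
`Wi_mul_self`. -/
theorem WE_mul_self (E : Finset I) (V : Mf 𝔉) : 𝔉.WE E V * 𝔉.WE E V = 1 := by
  classical
  induction E using Finset.induction_on with
  | empty => rw [WE_empty, one_mul]
  | insert i E hi ih =>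
    rw [𝔉.WE_insert hi]
    have hc : Commute (𝔉.WE E V) (𝔉.Wi V i) := by
      refine 𝔉.WE_comm fun j hj => ?_
      have hji : j ≠ i := by
        rintro rfl
        exact hi hj
      exact 𝔉.Li_comm hji _ _ _ _
    calc 𝔉.Wi V i * 𝔉.WE E V * (𝔉.Wi V i * 𝔉.WE E V)
        = 𝔉.Wi V i * (𝔉.WE E V * 𝔉.Wi V i) * 𝔉.WE E V := by
          rw [mul_assoc, mul_assoc, mul_assoc]
      _ = 𝔉.Wi V i * (𝔉.Wi V i * 𝔉.WE E V) * 𝔉.WE E V := by rw [hc.eq]
      _ = (𝔉.Wi V i * 𝔉.Wi V i) * (𝔉.WE E V * 𝔉.WE E V) := by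
          rw [mul_assoc, mul_assoc, mul_assoc]
      _ = 1 := by rw [𝔉.Wi_mul_self, ih, one_mul]

/-- PROOF: induction on `E`, `norm_Wi_le`. -/
theorem norm_WE_le (E : Finset I) (V : Mf 𝔉) : ‖𝔉.WE E V‖ ≤ 1 := by
  classical
  induction E using Finset.induction_on with
  | empty =>
    rw [WE_empty]
    exact ContinuousLinearMap.norm_id_le
  | insert i E hi ih =>
    rw [𝔉.WE_insert hi]
    calc ‖𝔉.Wi V i * 𝔉.WE E V‖ ≤ ‖𝔉.Wi V i‖ * ‖𝔉.WE E V‖ := norm_mul_le _ _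
      _ ≤ 1 * 1 := mul_le_mul (𝔉.norm_Wi_le V i) ih (norm_nonneg _) zero_le_one
      _ = 1 := one_mul 1

/-- PROOF: induction on `E' ∖ E`, or `Finset.noncommProd_union_of_disjoint`. -/
theorem WE_sdiff [DecidableEq I] {E E' : Finset I} (h : E ⊆ E') (V : Mf 𝔉) :
    𝔉.WE E' V = 𝔉.WE (E' \ E) V * 𝔉.WE E V := by
  have h1 : ∀ D : Finset I, Disjoint D E → 𝔉.WE (D ∪ E) V = 𝔉.WE D V * 𝔉.WE E V := by
    intro D
    induction D using Finset.induction_on with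
    | empty => intro _; rw [WE_empty, one_mul, Finset.empty_union]
    | insert i D hi ih =>
      intro hd
      rw [Finset.disjoint_insert_left] at hd
      have h2 : i ∉ D ∪ E := by
        rw [Finset.mem_union]
        rintro (h3 | h3)
        · exact hi h3
        · exact hd.1 h3
      rw [Finset.insert_union, 𝔉.WE_insert h2, ih hd.2, 𝔉.WE_insert hi, mul_assoc]
  rw [← h1 (E' \ E) Finset.sdiff_disjoint, Finset.sdiff_union_of_subset h]

end Fibr

end Pool.Agent.Lib.MP_aa9b81_an.Rc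
end
end

section

/-!
# The machine, part B1: compact operators on `ℓ²(Bs I)`
-/

open scoped ENNReal Topology
open Function

noncomputable section

namespace Pool.Agent.Lib.MP_aa9b81_an.Mc

open Cut Hs

/-- The compact operators on `ℓ²(B)`: the closed linear span of the matrix units. -/
def Kc (B : Type) : Submodule ℂ (BL B) :=
  (Submodule.span ℂ {X | ∃ b b', X = Eu b b'}).topologicalClosure

variable {Γ I : Type} [Group Γ] [MulAction Γ I] [DecidableEq I]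

/-- The decay of coefficients. -/
def Dcy (a : Finset I → I → ℝ) : Prop :=
  ∀ ε : ℝ, 0 < ε → ∃ 𝒜 : Finset (Finset I), ∀ F ∉ 𝒜, ∑ i ∈ F, a F i ^ 2 ≤ ε ^ 2


open Classical in
omit [Group Γ] [MulAction Γ I] [DecidableEq I] in
private lemma B1_inner (c : I → ℂ) (τ : I → Bs I) (b : Bs I) (s : Finset I) (ξ : L2 (Bs I))
    (b' : Bs I) : ((∑ i ∈ s, c i • Eu b (τ i) : BL (Bs I)) ξ : Bs I → ℂ) b' =
      if b' = b then ∑ i ∈ s, c i * (ξ : Bs I → ℂ) (τ i) else 0 := by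
  induction s using Finset.induction_on with
  | empty =>
    rw [Finset.sum_empty, Finset.sum_empty, ite_self]
    rfl
  | insert a s ha ih =>
    rw [Finset.sum_insert ha, Finset.sum_insert ha]
    have e1 : ((c a • Eu b (τ a) + ∑ i ∈ s, c i • Eu b (τ i) : BL (Bs I)) ξ : Bs I → ℂ) b' =
        c a * (Eu b (τ a) ξ : Bs I → ℂ) b' +
          ((∑ i ∈ s, c i • Eu b (τ i) : BL (Bs I)) ξ : Bs I → ℂ) b' := rfl
    rw [e1, ih, Eu_apply]
    by_cases hb : b' = b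
    · rw [if_pos hb, if_pos hb, if_pos hb]
    · rw [if_neg hb, if_neg hb, if_neg hb, mul_zero, zero_add]

open Classical in
omit [Group Γ] [MulAction Γ I] in
private lemma B1_outer (c : Bs I → I → ℂ) (T : Finset (Bs I)) (ξ : L2 (Bs I))
    (b' : Bs I) : ((∑ b ∈ T, ∑ i ∈ b.F, c b i • Eu b (tog i b) : BL (Bs I)) ξ : Bs I → ℂ) b' =
      if b' ∈ T then ∑ i ∈ b'.F, c b' i * (ξ : Bs I → ℂ) (tog i b') else 0 := by
  induction T using Finset.induction_on with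
  | empty =>
    rw [Finset.sum_empty, if_neg (Finset.notMem_empty b')]
    rfl
  | insert a T ha ih =>
    rw [Finset.sum_insert ha]
    have e1 : ((∑ i ∈ a.F, c a i • Eu a (tog i a) +
        ∑ b ∈ T, ∑ i ∈ b.F, c b i • Eu b (tog i b) : BL (Bs I)) ξ : Bs I → ℂ) b' =
        ((∑ i ∈ a.F, c a i • Eu a (tog i a) : BL (Bs I)) ξ : Bs I → ℂ) b' +
        ((∑ b ∈ T, ∑ i ∈ b.F, c b i • Eu b (tog i b) : BL (Bs I)) ξ : Bs I → ℂ) b' := rfl
    rw [e1, ih, B1_inner]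
    by_cases hb : b' = a
    · subst hb
      rw [if_pos rfl, if_neg ha, if_pos (Finset.mem_insert_self _ _), add_zero]
    · rw [if_neg hb, zero_add]
      by_cases hs : b' ∈ T
      · rw [if_pos hs, if_pos (Finset.mem_insert_of_mem hs)]
      · rw [if_neg hs, if_neg]
        rw [Finset.mem_insert]
        push Not
        exact ⟨hb, hs⟩

omit [Group Γ] [MulAction Γ I] [DecidableEq I] in
private lemma B1_finite (𝒜 : Finset (Finset I)) : {b : Bs I | b.F ∈ 𝒜}.Finite := by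
  classical
  refine Set.Finite.of_finite_image (f := fun b : Bs I => (b.F, b.S)) ?_ ?_
  · refine Set.Finite.subset (𝒜 ×ˢ 𝒜.biUnion Finset.powerset : Finset (Finset I × Finset I)).finite_toSet ?_
    rintro x ⟨b, hb, rfl⟩
    rw [Finset.mem_coe, Finset.mem_product]
    exact ⟨hb, Finset.mem_biUnion.2 ⟨b.F, hb, Finset.mem_powerset.2 b.sub⟩⟩
  · intro b _ b' _ h
    exact Bs.ext (congrArg Prod.fst h) (congrArg Prod.snd h)

omit [Group Γ] [MulAction Γ I] in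
/-- PROOF: given `ε > 0` take `𝒜` from the decay condition. `Cl e (if F ∈ 𝒜 then a F i else 0)` is the finite sum of the
`(a F i * th e i S) • Eu (F, S) (F, tg i S)` over `F ∈ 𝒜`, `S ∈ F.powerset`, `i ∈ F` (coordinates: `Cl_apply`, `Eu_apply`,
`(tog i b).F = b.F`), an element of the span; the difference is `Cl e (if F ∈ 𝒜 then 0 else a F i)` (`Cl_sub`), of norm
at most `ε` (`norm_Cl_le`). -/
theorem Cl_mem_Kc (e : I ↪ ℕ) {a : Finset I → I → ℝ} {C : ℝ} (h : CB a C) (hd : Dcy a) :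
    Cl e a ∈ Kc (Bs I) := by
  classical
  have key : Cl e a ∈ closure ((Submodule.span ℂ {X : BL (Bs I) | ∃ b b', X = Eu b b'} :
      Submodule ℂ (BL (Bs I))) : Set (BL (Bs I))) := by
    rw [Metric.mem_closure_iff]
    intro ε hε
    obtain ⟨𝒜, h𝒜⟩ := hd (ε / 2) (half_pos hε)
    have hφ : ∀ F : Finset I, |(if F ∈ 𝒜 then (1 : ℝ) else 0)| ≤ 1 := by
      intro F
      split_ifs <;> simp
    have h1 := h.mul (φ := fun F : Finset I => if F ∈ 𝒜 then (1 : ℝ) else 0) hφ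
    refine ⟨∑ b ∈ (B1_finite 𝒜).toFinset, ∑ i ∈ b.F,
      ((a b.F i : ℂ) * th e i b.S) • Eu b (tog i b), ?_, ?_⟩
    · refine Submodule.sum_mem _ fun b _ => Submodule.sum_mem _ fun i _ => ?_
      exact Submodule.smul_mem _ _ (Submodule.subset_span ⟨_, _, rfl⟩)
    · rw [dist_eq_norm]
      refine lt_of_le_of_lt ?_ (half_lt_self hε)
      have heq : Cl e a - ∑ b ∈ (B1_finite 𝒜).toFinset, ∑ i ∈ b.F,
          ((a b.F i : ℂ) * th e i b.S) • Eu b (tog i b) =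
          Cl e fun F i => a F i - (if F ∈ 𝒜 then (1 : ℝ) else 0) * a F i := by
        rw [Cl_sub e h h1]
        congr 1
        refine ContinuousLinearMap.ext fun ξ => ?_
        ext b
        rw [B1_outer, Cl_apply e h1, clF]
        by_cases hb : b.F ∈ 𝒜
        · have hbT : b ∈ (B1_finite 𝒜).toFinset := (Set.Finite.mem_toFinset _).2 hb
          rw [if_pos hbT]
          refine Finset.sum_congr rfl fun i _ => ?_
          rw [if_pos hb, one_mul, mul_assoc]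
        · have hbT : b ∉ (B1_finite 𝒜).toFinset := fun hh => hb ((Set.Finite.mem_toFinset (B1_finite 𝒜)).1 hh)
          rw [if_neg hbT]
          symm
          refine Finset.sum_eq_zero fun i _ => ?_
          rw [if_neg hb, zero_mul, Complex.ofReal_zero, zero_mul]
      rw [heq]
      refine norm_Cl_le e ⟨(half_pos hε).le, fun F => ?_⟩
      by_cases hF : F ∈ 𝒜
      · rw [Finset.sum_eq_zero]
        · positivity
        · intro i _
          rw [if_pos hF]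
          ring
      · refine le_trans (le_of_eq ?_) (h𝒜 F hF)
        refine Finset.sum_congr rfl fun i _ => ?_
        rw [if_neg hF]
        ring
  exact key

end Pool.Agent.Lib.MP_aa9b81_an.Mc
end
end
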