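import Pool.Agent.Lib.MP_aa9b81_an.Mg.G002
import Pool.Agent.Lib.MP_aa9b81_an.Mg.G075

section

/-!
# The machine, part F0: `psi` for a partial map which is not equivariant; systems of representations
-/

open scoped ENNReal Topology ZeroAtInfty
open Function

noncomputable section

namespace Pool.Agent.Lib.MP_aa9b81_an.Mc

open Cut Hs

section

variable {Γ B P X : Type} [Group Γ] [MulAction Γ B] [Nonempty B] [MulAction Γ P] [MulAction Γ X]
  [TopologicalSpace X]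

/-- PROOF: the calculation of `Hs.psi_gen`, without its last step: at the point `b` with `b' = s⁻¹ b` the left side is
`ε(s, b') (opt (gen f g i j) (π p b') (sb c b' (V' ξ)))(s, k)` (`psi_apply`, `psiV`, `SAct.sk_V`, `SAct.W_apply`, `sb_dsum`,
`sb_apply`); it is `0` if `π p b' = none` or `k ≠ i`; for `π p b' = some x` and `k = i` it is
`ε(s, b') f(s x) (V' ξ)(g⁻¹ s, c(j, b')) = f(s x) ε(g, g⁻¹ b) ξ(g⁻¹ s, c(j, g⁻¹ b))` (`Cut.gen_apply`, `SAct.sk_V'`, `E.mul`). The right side is the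
same (`dia_apply` with `C = ‖f‖`, `norm_optf_le`, `W_apply`). -/
theorem psi_gen' (c : ℕ × B ≃ ℕ) (E : SAct Γ B) (π : P → B → Option X) (f : C₀(X, ℂ)) (g : Γ)
    (i j : ℕ) (p : P) (ξ : Hil Γ) (s : Γ) (k : ℕ) :
    sk c s k (psi c E π (gen f g i j) p ξ) =
      if k = i then dia (fun b => optf f ((π p (s⁻¹ • b)).map (s • ·)))
        (E.W g (sk c (g⁻¹ * s) j ξ)) else 0 := by
  ext b
  rw [psi_apply, psiV, mul_apply_eq_comp, mul_apply_eq_comp, E.sk_V, E.W_apply, sk_apply,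
    ← sb_apply, sb_dsum c (norm_nonneg (gen f g i j)) (fun b => norm_opt_le _ _)]
  obtain ⟨b', hb'⟩ : ∃ b', b' = s⁻¹ • b := ⟨_, rfl⟩
  have hb : b = s • b' := by rw [hb', smul_inv_smul]
  rw [← hb']
  by_cases hk : k = i
  · rw [if_pos hk, dia_apply (norm_nonneg f) (fun b => norm_optf_le f _), E.W_apply, ← hb']
    cases hx : π p b' with
    | none =>
      simp
    | some x =>
      rw [opt_some, gen_apply, if_pos hk, Option.map_some, optf_some, sb_apply]
      have h1 : ((E.V' c ξ : Hil Γ) : Γ × ℕ → ℂ) (g⁻¹ * s, c (j, b')) =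
          E.ε (g⁻¹ * s)⁻¹ (g⁻¹ • b) * (ξ : Γ × ℕ → ℂ) (g⁻¹ * s, c (j, g⁻¹ • b)) := by
        rw [← sk_apply, E.sk_V', E.W_apply, sk_apply, inv_inv]
        have e : (g⁻¹ * s) • b' = g⁻¹ • b := by rw [hb, mul_smul]
        rw [e]
      rw [h1, sk_apply]
      have h2 := E.mul s (g⁻¹ * s)⁻¹ (g⁻¹ • b)
      have e1 : s * (g⁻¹ * s)⁻¹ = g := by group
      have e2 : (g⁻¹ * s)⁻¹ • (g⁻¹ • b) = b' := by
        rw [smul_smul, hb']
        congr 1
        group
      rw [e1, e2] at h2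
      rw [h2]
      ring
  · rw [if_neg hk]
    cases hx : π p b' with
    | none =>
      simp
    | some x =>
      rw [opt_some, gen_apply, if_neg hk, mul_zero]
      rfl

end

/-- A system of representations: for every finite set `L` of sites a partial map `P × Bs I ⇀ X` and a unitary. -/
structure Sys (Γ X P I : Type) [Group Γ] [MulAction Γ X] [MulAction Γ P] [MulAction Γ I]
    [DecidableEq I] (e : I ↪ ℕ) where
  /-- the partial map -/
  π : Finset I → P → Bs I → Option X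
  /-- the unitary -/
  U : Finset I → P → (BL (Bs I))ˣ
  norm_U : ∀ L p, ‖(U L p : BL (Bs I))‖ ≤ 1
  norm_U' : ∀ L p, ‖((U L p)⁻¹ : (BL (Bs I))ˣ).val‖ ≤ 1
  π_smul : ∀ (g : Γ) L p b, π (gF g L) (g • p) (g • b) = (π L p b).map (g • ·)
  U_smul : ∀ (g : Γ) L p, (sact e : SAct Γ (Bs I)).W g * (U L p : BL (Bs I)) =
    (U (gF g L) (g • p) : BL (Bs I)) * (sact e : SAct Γ (Bs I)).W g

variable {Γ X P I : Type} [Group Γ] [MulAction Γ X] [MulAction Γ P] [MulAction Γ I]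
  [DecidableEq I] {e : I ↪ ℕ}

end Pool.Agent.Lib.MP_aa9b81_an.Mc
end
end

section

/-!
# The machine, part F0: `psi` for a partial map which is not equivariant; systems of representations
-/

open scoped ENNReal Topology ZeroAtInfty
open Function

noncomputable section

namespace Pool.Agent.Lib.MP_aa9b81_an.Mc

open Cut Hs

variable {Γ X P I : Type} [Group Γ] [MulAction Γ X] [MulAction Γ P] [MulAction Γ I]
  [DecidableEq I] {e : I ↪ ℕ}

/-- PROOF: from `U_smul` by multiplication with the inverses from both sides. -/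
theorem Sys.U_smul' (σ : Sys Γ X P I e) (g : Γ) (L : Finset I) (p : P) :
    (sact e : SAct Γ (Bs I)).W g * ((σ.U L p)⁻¹ : (BL (Bs I))ˣ).val =
      ((σ.U (gF g L) (g • p))⁻¹ : (BL (Bs I))ˣ).val * (sact e : SAct Γ (Bs I)).W g := by
  have h := σ.U_smul g L p
  calc (sact e : SAct Γ (Bs I)).W g * ((σ.U L p)⁻¹ : (BL (Bs I))ˣ).val =
      (((σ.U (gF g L) (g • p))⁻¹ : (BL (Bs I))ˣ).val * (σ.U (gF g L) (g • p) : BL (Bs I))) *
        (sact e : SAct Γ (Bs I)).W g * ((σ.U L p)⁻¹ : (BL (Bs I))ˣ).val := by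
        rw [Units.inv_mul, one_mul]
    _ = ((σ.U (gF g L) (g • p))⁻¹ : (BL (Bs I))ˣ).val * ((σ.U (gF g L) (g • p) : BL (Bs I)) *
        (sact e : SAct Γ (Bs I)).W g) * ((σ.U L p)⁻¹ : (BL (Bs I))ˣ).val := by
        rw [mul_assoc (((σ.U (gF g L) (g • p))⁻¹ : (BL (Bs I))ˣ).val)]
    _ = ((σ.U (gF g L) (g • p))⁻¹ : (BL (Bs I))ˣ).val * (sact e : SAct Γ (Bs I)).W g *
        ((σ.U L p : BL (Bs I)) * ((σ.U L p)⁻¹ : (BL (Bs I))ˣ).val) := by
        rw [← h]
        simp only [mul_assoc]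
    _ = _ := by rw [Units.mul_inv, mul_one]

/-- The function `f` is stable from `L₀` on, with the value `n`. -/
def Sys.St [TopologicalSpace X] (σ : Sys Γ X P I e) (f : C₀(X, ℂ)) (L₀ : Finset I)
    (n : FB (Bs I) P) : Prop :=
  ∀ L, L₀ ⊆ L → ∀ p, (σ.U L p : BL (Bs I)) * dia (fun b => optf f (σ.π L p b)) *
    ((σ.U L p)⁻¹ : (BL (Bs I))ˣ).val = n p

/-- The unitaries `U` in the slices. -/
def Sys.uo (σ : Sys Γ X P I e) (c : ℕ × Bs I ≃ ℕ) (L : Finset I) (p : P) : Op Γ :=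
  dgs c fun t => (σ.U (gF t L) (t • p) : BL (Bs I))

/-- The inverse unitaries in the slices. -/
def Sys.uo' (σ : Sys Γ X P I e) (c : ℕ × Bs I ≃ ℕ) (L : Finset I) (p : P) : Op Γ :=
  dgs c fun t => ((σ.U (gF t L) (t • p))⁻¹ : (BL (Bs I))ˣ).val

theorem Sys.sk_uo (σ : Sys Γ X P I e) (c : ℕ × Bs I ≃ ℕ) (L : Finset I) (p : P) (ξ : Hil Γ)
    (t : Γ) (k : ℕ) :
    sk c t k (σ.uo c L p ξ) = (σ.U (gF t L) (t • p) : BL (Bs I)) (sk c t k ξ) :=
  sk_dgs c zero_le_one (fun _ => σ.norm_U _ _) ξ t k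

theorem Sys.sk_uo' (σ : Sys Γ X P I e) (c : ℕ × Bs I ≃ ℕ) (L : Finset I) (p : P) (ξ : Hil Γ)
    (t : Γ) (k : ℕ) :
    sk c t k (σ.uo' c L p ξ) = ((σ.U (gF t L) (t • p))⁻¹ : (BL (Bs I))ˣ).val (sk c t k ξ) :=
  sk_dgs c zero_le_one (fun _ => σ.norm_U' _ _) ξ t k

theorem Sys.norm_uo_le (σ : Sys Γ X P I e) (c : ℕ × Bs I ≃ ℕ) (L : Finset I) (p : P) :
    ‖(σ.uo c L p : Op Γ)‖ ≤ 1 := norm_dgs_le c zero_le_one fun _ => σ.norm_U _ _

theorem Sys.norm_uo'_le (σ : Sys Γ X P I e) (c : ℕ × Bs I ≃ ℕ) (L : Finset I) (p : P) :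
    ‖(σ.uo' c L p : Op Γ)‖ ≤ 1 := norm_dgs_le c zero_le_one fun _ => σ.norm_U' _ _

/-- PROOF: `ext_sk`, `sk_uo`, `sk_uo'`, `Units.inv_mul`. -/
theorem Sys.uo'_mul_uo (σ : Sys Γ X P I e) (c : ℕ × Bs I ≃ ℕ) (L : Finset I) (p : P) :
    (σ.uo' c L p : Op Γ) * σ.uo c L p = 1 := by
  refine ContinuousLinearMap.ext fun ξ => ext_sk c fun t k => ?_
  change sk c t k (σ.uo' c L p (σ.uo c L p ξ)) = sk c t k ξ
  rw [σ.sk_uo', σ.sk_uo]
  have h := congrArg (fun T : BL (Bs I) => T (sk c t k ξ))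
    (Units.inv_mul (σ.U (gF t L) (t • p)))
  exact h

end Pool.Agent.Lib.MP_aa9b81_an.Mc
end
end

section

/-!
# The machine, part F1: the representation of a finite stage
-/

open scoped ENNReal Topology ZeroAtInfty
open Function

noncomputable section

namespace Pool.Agent.Lib.MP_aa9b81_an.Mc

open Cut Hs

variable {Γ X P I : Type} [Group Γ] [MulAction Γ X] [MulAction Γ P] [MulAction Γ I]
  [DecidableEq I] {e : I ↪ ℕ} (σ : Sys Γ X P I e)

/-- PROOF: norms of products: `norm_uo_le`, `norm_uo'_le`, `Fam.norm_apply_le`, `norm_psi_le`. -/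
theorem Sys.norm_st_aux (c : ℕ × Bs I ≃ ℕ) (L : Finset I) (a : Fam Γ X) (p : P) :
    ‖σ.uo c L p * psi c (sact e) (σ.π L) a p * σ.uo' c L p‖ ≤ ‖a‖ := by
  have h1 : ‖(psi c (sact e) (σ.π L) a : Fam Γ P) p‖ ≤ ‖a‖ :=
    (Fam.norm_apply_le _ p).trans (norm_psi_le c (sact e) (σ.π L) a)
  have h2 := σ.norm_uo_le c L p
  have h3 := σ.norm_uo'_le c L p
  calc ‖σ.uo c L p * psi c (sact e) (σ.π L) a p * σ.uo' c L p‖
      ≤ ‖σ.uo c L p * psi c (sact e) (σ.π L) a p‖ * ‖σ.uo' c L p‖ := norm_mul_le _ _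
    _ ≤ (‖σ.uo c L p‖ * ‖psi c (sact e) (σ.π L) a p‖) * ‖σ.uo' c L p‖ :=
        mul_le_mul_of_nonneg_right (norm_mul_le _ _) (norm_nonneg _)
    _ ≤ (1 * ‖a‖) * 1 :=
        mul_le_mul (mul_le_mul h2 h1 (norm_nonneg _) zero_le_one) h3 (norm_nonneg _)
          (mul_nonneg zero_le_one (norm_nonneg _))
    _ = ‖a‖ := by rw [one_mul, mul_one]

/-- The representation at the stage `L`. -/
def Sys.st (c : ℕ × Bs I ≃ ℕ) (L : Finset I) (a : Fam Γ X) : Fam Γ P :=
  Fam.mk (fun p => σ.uo c L p * psi c (sact e) (σ.π L) a p * σ.uo' c L p) ‖a‖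
    (σ.norm_st_aux c L a)

theorem Sys.st_apply (c : ℕ × Bs I ≃ ℕ) (L : Finset I) (a : Fam Γ X) (p : P) :
    σ.st c L a p = σ.uo c L p * psi c (sact e) (σ.π L) a p * σ.uo' c L p := rfl

theorem Sys.norm_st_le (c : ℕ × Bs I ≃ ℕ) (L : Finset I) (a : Fam Γ X) : ‖σ.st c L a‖ ≤ ‖a‖ := by
  rw [Fam.norm_le_iff (norm_nonneg a)]
  intro p
  rw [σ.st_apply]
  exact σ.norm_st_aux c L a p

/-- PROOF: `map_add`, distributivity, at each point. -/
theorem Sys.st_add (c : ℕ × Bs I ≃ ℕ) (L : Finset I) (a a' : Fam Γ X) :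
    σ.st c L (a + a') = σ.st c L a + σ.st c L a' := by
  refine Fam.ext fun p => ?_
  rw [Fam.add_apply, σ.st_apply, σ.st_apply, σ.st_apply, map_add, Fam.add_apply, mul_add, add_mul]

theorem Sys.st_sub (c : ℕ × Bs I ≃ ℕ) (L : Finset I) (a a' : Fam Γ X) :
    σ.st c L (a - a') = σ.st c L a - σ.st c L a' := by
  refine Fam.ext fun p => ?_
  rw [Fam.sub_apply, σ.st_apply, σ.st_apply, σ.st_apply, map_sub, Fam.sub_apply, mul_sub, sub_mul]

/-- PROOF: `map_mul`, `uo'_mul_uo`. -/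
theorem Sys.st_mul (c : ℕ × Bs I ≃ ℕ) (L : Finset I) (a a' : Fam Γ X) :
    σ.st c L (a * a') = σ.st c L a * σ.st c L a' := by
  refine Fam.ext fun p => ?_
  rw [Fam.mul_apply, σ.st_apply, σ.st_apply, σ.st_apply, map_mul, Fam.mul_apply]
  have h := σ.uo'_mul_uo c L p
  calc σ.uo c L p * (psi c (sact e) (σ.π L) a p * psi c (sact e) (σ.π L) a' p) * σ.uo' c L p
      = σ.uo c L p * psi c (sact e) (σ.π L) a p * 1 * psi c (sact e) (σ.π L) a' p *
          σ.uo' c L p := by rw [mul_one, ← mul_assoc (σ.uo c L p)]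
    _ = σ.uo c L p * psi c (sact e) (σ.π L) a p * (σ.uo' c L p * σ.uo c L p) *
          psi c (sact e) (σ.π L) a' p * σ.uo' c L p := by rw [h]
    _ = _ := by simp only [mul_assoc]

variable [TopologicalSpace X]

end Pool.Agent.Lib.MP_aa9b81_an.Mc
end
end

section

/-!
# The machine, part F1: the representation of a finite stage
-/

open scoped ENNReal Topology ZeroAtInfty
open Function

noncomputable section

namespace Pool.Agent.Lib.MP_aa9b81_an.Mc

open Cut Hs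

variable {Γ X P I : Type} [Group Γ] [MulAction Γ X] [MulAction Γ P] [MulAction Γ I]
  [DecidableEq I] {e : I ↪ ℕ} (σ : Sys Γ X P I e)

variable [TopologicalSpace X]

/-- THE SLICES. PROOF: at `p`, `ext_sk`: at `(s, k)` the left side is (`st_apply`, `sk_uo`, `psi_gen'`, `sk_uo'`) `0` for `k ≠ i`, and
for `k = i` it is `U(sL)(sp) dia(b ↦ optf f ((π L p (s⁻¹ b)).map (s ·))) W_g U(g⁻¹sL)(g⁻¹sp)⁻¹ (sk c (g⁻¹ s) j ξ)`. For
`g⁻¹ s ≠ t` the slice of `ξ` is `0`, and both sides are `0` (`sk_cov`). Let `s = g t`. By `π_smul` (for `s`, `s⁻¹ b`) the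
function is `optf f (π (gF s L) (s p) b)`, and by `U_smul'` `W_g U(tL)(tp)⁻¹ = U(sL)(sp)⁻¹ W_g` (`gF_mul`, `mul_smul`). As
`L₀ ⊆ gF s L`, `hst` gives `n (s p) (W_g (sk c t j ξ))`, the right side (`sk_cov`). -/
theorem Sys.st_gen_slice (c : ℕ × Bs I ≃ ℕ) {f : C₀(X, ℂ)} {L₀ : Finset I} {n : FB (Bs I) P}
    (hst : σ.St f L₀ n) (g : Γ) (i j : ℕ) (p : P) (t : Γ) {L : Finset I}
    (hL : gF (g * t)⁻¹ L₀ ⊆ L) (ξ : Hil Γ) (hξ : ∀ s k, s ≠ t → (ξ : Γ × ℕ → ℂ) (s, k) = 0) :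
    σ.st c L (gen f g i j) p ξ = cov c (sact e) g i j n p ξ := by
  refine ext_sk c fun s k => ?_
  rw [σ.st_apply, mul_apply_eq_comp, mul_apply_eq_comp, σ.sk_uo, psi_gen', sk_cov]
  by_cases hk : k = i
  · rw [if_pos hk, if_pos hk, σ.sk_uo']
    by_cases hs : g⁻¹ * s = t
    · have hs' : s = g * t := by rw [← hs, mul_inv_cancel_left]
      subst hs'
      have hsub : L₀ ⊆ gF (g * t) L := by
        intro x hx
        rw [mem_gF]
        refine hL ?_
        rw [mem_gF, smul_smul]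
        simpa using hx
      have hπ : (fun b => optf f ((σ.π L p ((g * t)⁻¹ • b)).map ((g * t) • ·))) =
          fun b => optf f (σ.π (gF (g * t) L) ((g * t) • p) b) := by
        funext b
        have h := σ.π_smul (g * t) L p ((g * t)⁻¹ • b)
        rw [smul_inv_smul] at h
        rw [h]
      have hU := congrArg (fun T : BL (Bs I) => T (sk c (g⁻¹ * (g * t)) j ξ))
        (σ.U_smul' g (gF (g⁻¹ * (g * t)) L) ((g⁻¹ * (g * t)) • p))
      simp only [mul_apply_eq_comp] at hU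
      rw [hU, hπ, ← gF_mul, smul_smul]
      rw [mul_inv_cancel_left]
      have h2 := congrArg (fun T : BL (Bs I) => T ((sact e : SAct Γ (Bs I)).W g
        (sk c (g⁻¹ * (g * t)) j ξ))) (hst (gF (g * t) L) hsub ((g * t) • p))
      simp only [mul_apply_eq_comp] at h2
      exact h2
    · have h0 : sk c (g⁻¹ * s) j ξ = 0 := by
        ext b
        rw [sk_apply, hξ _ _ hs]
        rfl
      rw [h0]
      simp only [map_zero]
  · rw [if_neg hk, if_neg hk, map_zero]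

end Pool.Agent.Lib.MP_aa9b81_an.Mc
end
end

section

/-!
# The machine, part H0: cylinder approximation
-/

open scoped ENNReal Topology ZeroAtInfty
open Function Set

noncomputable section

namespace Pool.Agent.Lib.MP_aa9b81_an.Mc

open Cut Hs

open Classical in
/-- The partial inverse of an injective map. -/
def oinv {X Z : Type} (j : X → Z) (z : Z) : Option X := if h : ∃ x, j x = z then some h.choose else none

theorem oinv_apply {X Z : Type} {j : X → Z} (hj : Injective j) (x : X) : oinv j (j x) = some x := by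
  have h : ∃ x', j x' = j x := ⟨x, rfl⟩
  rw [oinv, dif_pos h]
  exact congrArg some (hj h.choose_spec)

theorem oinv_none {X Z : Type} {j : X → Z} {z : Z} (h : z ∉ range j) : oinv j z = none :=
  dif_neg h

/-- PROOF: definition. -/
theorem oinv_eq_some {X Z : Type} {j : X → Z} {z : Z} {x : X} (h : oinv j z = some x) :
    j x = z := by
  unfold oinv at h
  split_ifs at h with hx
  · rw [Option.some.injEq] at h
    rw [← h]
    exact hx.choose_spec

/-- The extension by zero. PROOF: `Cut.exists_extC`, `oinv_apply`, `oinv_none`. -/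
theorem exists_extO {X Z : Type} [TopologicalSpace X] [TopologicalSpace Z] [T2Space Z]
    {j : X → Z} (hj : Topology.IsOpenEmbedding j) (f : C₀(X, ℂ)) :
    ∃ F : C₀(Z, ℂ), ∀ z, F z = optf f (oinv j z) := by
  obtain ⟨F, h1, h2⟩ := Cut.exists_extC hj f
  refine ⟨F, fun z => ?_⟩
  by_cases hz : z ∈ range j
  · obtain ⟨x, rfl⟩ := hz
    rw [oinv_apply hj.injective, h1]
    rfl
  · rw [oinv_none hz, h2 z hz]
    rfl

variable {I : Type} [DecidableEq I]

end Pool.Agent.Lib.MP_aa9b81_an.Mc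
end
end
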