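import Pool.Agent.Lib.MP_aa9b81_an.Mg.G005
import Pool.Agent.Lib.MP_aa9b81_an.Mg.G002
import Pool.Agent.Lib.MP_aa9b81_an.Mg.G003
import Pool.Agent.Lib.MP_aa9b81_an.Mg.G007
import Pool.Agent.Lib.MP_aa9b81_an.Mg.G008
import Pool.Agent.Lib.MP_aa9b81_an.Mg.G022
import Pool.Agent.Lib.MP_aa9b81_an.Mg.G026

section

/-!
# Hereditary shifts, part H2a: restriction to the top block
-/

open scoped ENNReal Topology ZeroAtInfty
open Function Filter Set

noncomputable section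

namespace Pool.Agent.Lib.MP_aa9b81_an.Hs

open Cut

variable {Γ Z I A : Type} [Group Γ] [MulAction Γ I] [MulAction Γ Z] [TopologicalSpace Z]
    [TopologicalSpace A] {a₀ : A} [DecidableEq I] (Y : Hered Γ Z I A a₀)

theorem norm_kap_le (c : ℕ × Bs I ≃ ℕ) (F : Finset I) (a : Fam Γ Y.St) (x : Y.St) :
    ‖eF c F * a x * eF c F‖ ≤ ‖a‖ := by
  have h1 := norm_eF_le (Γ := Γ) c F
  have h3 := a.norm_apply_le x
  have h5 := norm_mul_le (eF c F) (a x)
  have h6 := norm_mul_le (eF c F * a x) (eF c F)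
  have h7 := norm_nonneg (eF c F : Op Γ)
  have h9 := norm_nonneg (a x)
  have h10 := norm_nonneg a
  have h11 := norm_nonneg (eF c F * a x)
  nlinarith

/-- The restriction to the top block, `q = (x, F) ↦ eF F a_x eF F`. -/
def kap (c : ℕ × Bs I ≃ ℕ) (a : Fam Γ Y.St) : Fam Γ Y.Sf :=
  Fam.mk (fun q => eF c (Y.F q).s * a (Y.r q) * eF c (Y.F q).s) ‖a‖ fun q =>
    norm_kap_le Y c (Y.F q).s a (Y.r q)

theorem kap_apply (c : ℕ × Bs I ≃ ℕ) (a : Fam Γ Y.St) (q : Y.Sf) :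
    kap Y c a q = eF c (Y.F q).s * a (Y.r q) * eF c (Y.F q).s := rfl

theorem norm_kap (c : ℕ × Bs I ≃ ℕ) (a : Fam Γ Y.St) : ‖kap Y c a‖ ≤ ‖a‖ := by
  rw [Fam.norm_le_iff (norm_nonneg a)]
  intro q
  rw [kap_apply]
  exact norm_kap_le Y c _ a _

theorem kap_add (c : ℕ × Bs I ≃ ℕ) (a b : Fam Γ Y.St) : kap Y c (a + b) = kap Y c a + kap Y c b := by
  ext1 q
  simp only [kap_apply, Fam.add_apply, mul_add, add_mul]

theorem kap_sub (c : ℕ × Bs I ≃ ℕ) (a b : Fam Γ Y.St) : kap Y c (a - b) = kap Y c a - kap Y c b := by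
  ext1 q
  simp only [kap_apply, Fam.sub_apply, mul_sub, sub_mul]

theorem kap_smul (c : ℕ × Bs I ≃ ℕ) (z : ℂ) (a : Fam Γ Y.St) :
    kap Y c (z • a) = z • kap Y c a := by
  ext1 q
  simp only [kap_apply, Fam.smul_apply, mul_smul_comm, smul_mul_assoc]

/-- PROOF: `eF a b eF = eF a eF eF b eF` since `eF` commutes with `b_x` (`BD.comm`, `eF_mul_eF`). -/
theorem kap_mul (c : ℕ × Bs I ≃ ℕ) {a b : Fam Γ Y.St} (hb : BD Y c b) :
    kap Y c (a * b) = kap Y c a * kap Y c b := by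
  ext1 q
  rw [Fam.mul_apply, kap_apply, kap_apply, kap_apply, Fam.mul_apply]
  have h1 := hb.comm (Y.r q) (Y.F q).s
  have h2 := eF_mul_eF (Γ := Γ) c (Y.F q).s
  set E : Op Γ := eF c (Y.F q).s
  set A := a (Y.r q)
  set B := b (Y.r q)
  calc E * (A * B) * E = E * A * (B * E) := by simp only [mul_assoc]
    _ = E * A * (B * (E * E)) := by rw [h2]
    _ = E * A * ((B * E) * E) := by simp only [mul_assoc]
    _ = E * A * ((E * B) * E) := by rw [h1]
    _ = E * A * (((E * E) * B) * E) := by rw [h2]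
    _ = (E * A * E) * (E * B * E) := by simp only [mul_assoc]

/-- THE GENERATORS. PROOF: `Fam.ext`, `ContinuousLinearMap.ext`, `lp.ext`, coordinates at `(s, c(k, b''))` (`eF_apply`,
`cov_ge`, `Cut.gen_apply`). With `q = (x, F)`: the value is `0` unless `b'' = b`, `k = i`, `b.F = gF s F`; and then it is
`ε f(s x)` times the value of `eF c F ξ` at `(g⁻¹ s, c(j, g⁻¹ b'))`, which is that of `ξ` if `gF g⁻¹ b'.F = gF (g⁻¹ s) F`, i.e.
`b'.F = gF s F`, and `0` otherwise. So for `b.F ≠ b'.F` it is `0`; for `b.F = b'.F` it is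
`ε gen ft g (c(i, b)) (c(j, g⁻¹ b'))` with `ft q = [F q = b.F] f (r q)` (`exists_C0_res`, by `Good`: `f x ≠ 0` implies
`b.F ⊆ supp x`), as `F (s q) = gF s F`. -/
theorem kap_cov_ge [T2Space Z] [T2Space A] [CompactSpace A] (c : ℕ × Bs I ≃ ℕ) (e : I ↪ ℕ)
    (h : Ht A a₀) (g : Γ) (i j : ℕ) {f : C₀(Y.St, ℂ)} {b b' : Bs I}
    (hf : Good (Y.site h).U f b b') :
    kap Y c (cov c (sact e) g i j (ge f b b')) ∈ cp Γ Y.Sf := by
  rw [cov_ge, kap_smul]
  suffices hmem : kap Y c (gen f g (c (i, b)) (c (j, g⁻¹ • b'))) ∈ cp Γ Y.Sf from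
    SMulMemClass.smul_mem _ hmem
  have hU : ∀ x, f x ≠ 0 → ∀ i ∈ b.F, Y.y x i ≠ a₀ := by
    intro x hx i hi
    exact (Y.mem_supp h x i).1 ((hf x hx).1 (by exact_mod_cast hi))
  obtain ⟨ft, hft⟩ := exists_C0_res Y f b.F hU
  have hgF : ∀ (s : Γ) (F : Finset I), (g⁻¹ • b').F = gF (g⁻¹ * s) F ↔ b'.F = gF s F := by
    intro s F
    rw [Bs.smul_F, gF_mul]
    constructor
    · intro h1
      have h2 := congrArg (gF g) h1
      rw [← gF_mul, ← gF_mul, mul_inv_cancel, gF_one, gF_one] at h2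
      exact h2
    · intro h1
      rw [h1]
  have key : ∀ (q : Y.Sf) (ξ : Hil Γ) (s : Γ) (k : ℕ) (a : Bs I),
      (kap Y c (gen f g (c (i, b)) (c (j, g⁻¹ • b'))) q ξ : Γ × ℕ → ℂ) (s, c (k, a)) =
        if c (k, a) = c (i, b) then (if gF s (Y.F q).s = b.F ∧ gF s (Y.F q).s = b'.F then
          f (s • Y.r q) * (ξ : Γ × ℕ → ℂ) (g⁻¹ * s, c (j, g⁻¹ • b')) else 0) else 0 := by
    intro q ξ s k a
    have e1 : (kap Y c (gen f g (c (i, b)) (c (j, g⁻¹ • b'))) q ξ : Γ × ℕ → ℂ) (s, c (k, a)) =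
        (eF c (Y.F q).s (gen f g (c (i, b)) (c (j, g⁻¹ • b')) (Y.r q) (eF c (Y.F q).s ξ)) :
          Γ × ℕ → ℂ) (s, c (k, a)) := rfl
    rw [e1, eF_apply, gen_apply, eF_apply]
    by_cases hk : c (k, a) = c (i, b)
    · rw [if_pos hk, if_pos hk]
      have hk' : a = b := (Prod.ext_iff.1 (c.injective hk)).2
      rw [hk']
      by_cases h1 : b.F = gF s (Y.F q).s
      · rw [if_pos h1]
        by_cases h2 : b'.F = gF s (Y.F q).s
        · rw [if_pos ((hgF s _).2 h2), if_pos ⟨h1.symm, h2.symm⟩]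
        · rw [if_neg (fun h3 => h2 ((hgF s _).1 h3)), if_neg (fun h3 => h2 h3.2.symm), mul_zero]
      · rw [if_neg h1, if_neg (fun h3 => h1 h3.1.symm)]
    · rw [if_neg hk, if_neg hk, ite_self]
  by_cases hbb : b.F = b'.F
  · have e : kap Y c (gen f g (c (i, b)) (c (j, g⁻¹ • b'))) =
        gen ft g (c (i, b)) (c (j, g⁻¹ • b')) := by
      refine Fam.ext fun q => ContinuousLinearMap.ext fun ξ => ?_
      ext1
      funext p
      obtain ⟨s, n⟩ := p
      obtain ⟨⟨k, a⟩, rfl⟩ := c.surjective n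
      rw [key, gen_apply, hft]
      by_cases hk : c (k, a) = c (i, b)
      · rw [if_pos hk, if_pos hk, Hered.F_smul, Hered.r_smul, Fd.s_smul]
        by_cases h1 : gF s (Y.F q).s = b.F
        · rw [if_pos ⟨h1, h1.trans hbb⟩, if_pos h1]
        · rw [if_neg (fun h3 => h1 h3.1), if_neg h1, zero_mul]
      · rw [if_neg hk, if_neg hk]
    rw [e]
    exact NonUnitalSubalgebra.le_topologicalClosure _
      (NonUnitalAlgebra.subset_adjoin ℂ ⟨ft, g, _, _, rfl⟩)
  · have e : kap Y c (gen f g (c (i, b)) (c (j, g⁻¹ • b'))) = 0 := by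
      refine Fam.ext fun q => ContinuousLinearMap.ext fun ξ => ?_
      ext1
      funext p
      obtain ⟨s, n⟩ := p
      obtain ⟨⟨k, a⟩, rfl⟩ := c.surjective n
      rw [key]
      rw [if_neg (fun h3 : gF s (Y.F q).s = b.F ∧ gF s (Y.F q).s = b'.F => hbb (h3.1.symm.trans h3.2)),
        ite_self]
      rfl
    rw [e]
    exact zero_mem _

end Pool.Agent.Lib.MP_aa9b81_an.Hs
end
end

section

/-!
# Hereditary shifts, part H2: restriction to the top block
-/

open scoped ENNReal Topology ZeroAtInfty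
open Function Filter Set

noncomputable section

namespace Pool.Agent.Lib.MP_aa9b81_an.Hs

open Cut

variable {Γ Z I A : Type} [Group Γ] [MulAction Γ I] [MulAction Γ Z] [TopologicalSpace Z]
    [TopologicalSpace A] {a₀ : A} [DecidableEq I] (Y : Hered Γ Z I A a₀)

/-- `AE` is the closed linear span of its generators. PROOF: the span of `AEgen` is closed under products:
`cov g i j (ge f b b') * cov g' i' j' (ge f' a a') = if j = i' then cov (g g') i j' (ge f b b' * Ad g (ge f' a a')) else 0`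
(`cov_mul_cov`), `Ad_ge`, `ge_mul_ge`: for `b' = g a` it is a scalar times
`cov (g g') i j' (ge (f * shift g f') b (g a'))`, good for `U`: `f p ≠ 0` gives `p ∈ U b`, and `f' (g⁻¹ p) ≠ 0` gives
`g⁻¹ p ∈ U a'`, so `p ∈ U (g a')` (`hUe`). So the algebra generated by `AEgen` is its span
(`NonUnitalAlgebra.adjoin_eq_span`, or `adjoin_induction` into the span). -/
theorem AE_le_span {Γ B P : Type} [Group Γ] [MulAction Γ B] [Nonempty B] [TopologicalSpace P]
    [MulAction Γ P] [ContinuousConstSMul Γ P] (c : ℕ × B ≃ ℕ) (E : SAct Γ B) {U : B → Set P}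
    (hUe : ∀ (g : Γ) b p, g • p ∈ U (g • b) ↔ p ∈ U b) {a : Fam Γ P} (ha : a ∈ AE c E U) :
    a ∈ closure ((Submodule.span ℂ (AEgen c E U) : Submodule ℂ (Fam Γ P)) : Set (Fam Γ P)) := by
  classical
  have hgen : ∀ x ∈ AEgen c E U, ∀ y ∈ AEgen c E U,
      x * y ∈ (Submodule.span ℂ (AEgen c E U) : Submodule ℂ (Fam Γ P)) := by
    rintro x ⟨g, i, j, b, b', f, hf, rfl⟩ y ⟨g', i', j', a, a', f', hf', rfl⟩
    rw [cov_mul_cov]
    split_ifs with hji
    · rw [Ad_ge, mul_smul_comm, ge_mul_ge, cov_smul]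
      apply Submodule.smul_mem
      split_ifs with hb
      · apply Submodule.subset_span
        refine ⟨g * g', i, j', b, g • a', f * shift g f', ?_, rfl⟩
        intro p hp
        have hp' : f p * f' (g⁻¹ • p) ≠ 0 := hp
        have h1 : f p ≠ 0 := left_ne_zero_of_mul hp'
        have h2 : f' (g⁻¹ • p) ≠ 0 := right_ne_zero_of_mul hp'
        refine ⟨(hf p h1).1, ?_⟩
        have h3 := (hUe g a' (g⁻¹ • p)).2 (hf' _ h2).2
        rwa [smul_inv_smul] at h3
      · rw [cov_zero]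
        exact Submodule.zero_mem _
    · exact Submodule.zero_mem _
  have hmul : ∀ x ∈ (Submodule.span ℂ (AEgen c E U) : Submodule ℂ (Fam Γ P)),
      ∀ y ∈ (Submodule.span ℂ (AEgen c E U) : Submodule ℂ (Fam Γ P)),
      x * y ∈ (Submodule.span ℂ (AEgen c E U) : Submodule ℂ (Fam Γ P)) := by
    intro x hx y hy
    induction hx using Submodule.span_induction with
    | mem x hx =>
      induction hy using Submodule.span_induction with
      | mem y hy => exact hgen x hx y hy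
      | zero => rw [mul_zero]; exact Submodule.zero_mem _
      | add y y' _ _ h1 h2 => rw [mul_add]; exact Submodule.add_mem _ h1 h2
      | smul z y _ h1 => rw [mul_smul_comm]; exact Submodule.smul_mem _ _ h1
    | zero => rw [zero_mul]; exact Submodule.zero_mem _
    | add x x' _ _ h1 h2 => rw [add_mul]; exact Submodule.add_mem _ h1 h2
    | smul z x _ h1 => rw [smul_mul_assoc]; exact Submodule.smul_mem _ _ h1
  have hsub : ((NonUnitalAlgebra.adjoin ℂ (AEgen c E U) : NonUnitalSubalgebra ℂ (Fam Γ P)) :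
      Set (Fam Γ P)) ⊆ ((Submodule.span ℂ (AEgen c E U) : Submodule ℂ (Fam Γ P)) :
      Set (Fam Γ P)) := by
    intro x hx
    have hx' : x ∈ NonUnitalAlgebra.adjoin ℂ (AEgen c E U) := hx
    show x ∈ (Submodule.span ℂ (AEgen c E U) : Submodule ℂ (Fam Γ P))
    clear hx
    induction hx' using NonUnitalAlgebra.adjoin_induction with
    | mem x hx => exact Submodule.subset_span hx
    | add x y _ _ h1 h2 => exact Submodule.add_mem _ h1 h2
    | zero => exact Submodule.zero_mem _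
    | mul x y _ _ h1 h2 => exact hmul x h1 y h2
    | smul r x _ h1 => exact Submodule.smul_mem _ _ h1
  have ha' : a ∈ closure ((NonUnitalAlgebra.adjoin ℂ (AEgen c E U) :
      NonUnitalSubalgebra ℂ (Fam Γ P)) : Set (Fam Γ P)) := ha
  exact closure_mono hsub ha'

/-- PROOF: `AE_le_span`, `kap_cov_ge`, `kap_add`, `kap_smul`, `norm_kap`, `Cut.isClosed_cp`. -/
theorem kap_mem_cp [T2Space Z] [T2Space A] [CompactSpace A] [ContinuousConstSMul Γ Z]
    (c : ℕ × Bs I ≃ ℕ) (e : I ↪ ℕ) (h : Ht A a₀) {a : Fam Γ Y.St}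
    (ha : a ∈ AE c (sact e) (Y.site h).U) : kap Y c a ∈ cp Γ Y.Sf := by
  have hcont : Continuous (kap Y c) := by
    have hL : LipschitzWith 1 (kap Y c) := LipschitzWith.of_dist_le_mul fun a b => by
      rw [dist_eq_norm, dist_eq_norm, ← kap_sub]
      have := norm_kap Y c (a - b)
      simpa using this
    exact hL.continuous
  have hclosed : IsClosed {a | kap Y c a ∈ cp Γ Y.Sf} := isClosed_cp.preimage hcont
  have h0 : kap Y c (0 : Fam Γ Y.St) = 0 := by
    have := kap_smul Y c 0 (0 : Fam Γ Y.St)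
    rw [zero_smul, zero_smul] at this
    exact this
  have hspan : ((Submodule.span ℂ (AEgen c (sact e) (Y.site h).U) : Submodule ℂ (Fam Γ Y.St)) :
      Set (Fam Γ Y.St)) ⊆ {a | kap Y c a ∈ cp Γ Y.Sf} := by
    intro x hx
    have hx' : x ∈ Submodule.span ℂ (AEgen c (sact e) (Y.site h).U) := hx
    show kap Y c x ∈ cp Γ Y.Sf
    clear hx
    induction hx' using Submodule.span_induction with
    | mem x hx =>
      obtain ⟨g, i, j, b, b', f, hf, rfl⟩ := hx
      exact kap_cov_ge Y c e h g i j hf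
    | zero => rw [h0]; exact zero_mem _
    | add x y _ _ h1 h2 => rw [kap_add]; exact add_mem h1 h2
    | smul z x _ h1 => rw [kap_smul]; exact SMulMemClass.smul_mem z h1
  have h1 := AE_le_span c (sact e) (U := (Y.site h).U) (fun g b p => (Y.site h).smul_mem_U g b p) ha
  exact closure_minimal hspan hclosed h1

end Pool.Agent.Lib.MP_aa9b81_an.Hs
end
end

section

/-!
# Hereditary shifts, part H3: from the finite configurations to all configurations
-/

open scoped ENNReal Topology ZeroAtInfty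
open Function Filter Set

noncomputable section

namespace Pool.Agent.Lib.MP_aa9b81_an.Hs

open Cut

variable {Γ Z I A : Type} [Group Γ] [MulAction Γ I] [MulAction Γ Z] [TopologicalSpace Z]
    [TopologicalSpace A] {a₀ : A} (Y : Hered Γ Z I A a₀)

/-- PROOF: as `Cut.pull_mem_cp` (CutM/C.lean): `psi` maps the generators into `AE .. univ ≤ cp` (`psi_gen` for `PF Y`,
`dgf_pF_mem`, `cov_mem_AE`, `AE_le_cp`), is additive, multiplicative, complex linear (`psi_smul`), contractive (`norm_psi_le`);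
`Cut.isClosed_cp`. -/
theorem psi_pF_mem [T2Space Z] [T2Space A] [CompactSpace A] (c' : ℕ × Fd I ≃ ℕ)
    (a : Fam Γ Y.Sf) (ha : a ∈ cp Γ Y.Sf) :
    psi c' (SAct.triv Γ (Fd I)) Y.pF a ∈ cp Γ Y.St := by
  have hcont : Continuous (psi c' (SAct.triv Γ (Fd I)) Y.pF) :=
    AddMonoidHomClass.continuous_of_bound (psi c' (SAct.triv Γ (Fd I)) Y.pF) 1
      (fun a => by rw [one_mul]; exact norm_psi_le c' (SAct.triv Γ (Fd I)) Y.pF a)
  have hclosed : IsClosed {a : Fam Γ Y.Sf | psi c' (SAct.triv Γ (Fd I)) Y.pF a ∈ cp Γ Y.St} :=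
    isClosed_cp.preimage hcont
  have hadj : ∀ a ∈ NonUnitalAlgebra.adjoin ℂ {a : Fam Γ Y.Sf | ∃ f g i j, a = gen f g i j},
      psi c' (SAct.triv Γ (Fd I)) Y.pF a ∈ cp Γ Y.St := by
    intro a ha
    induction ha using NonUnitalAlgebra.adjoin_induction with
    | mem x hx =>
      obtain ⟨f, g, i, j, rfl⟩ := hx
      have h1 := psi_gen c' (SAct.triv Γ (Fd I)) (PF Y) f g i j
      have h2 : psi c' (SAct.triv Γ (Fd I)) Y.pF (gen f g i j) =
          cov c' (SAct.triv Γ (Fd I)) g i j (dgf Y.pF f) := h1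
      rw [h2]
      exact AE_le_cp _ _ _ (cov_mem_AE _ _ _ _ _ _ (dgf_pF_mem Y f))
    | add x y _ _ hx hy => rw [map_add]; exact add_mem hx hy
    | zero => rw [map_zero]; exact zero_mem _
    | mul x y _ _ hx hy => rw [map_mul]; exact mul_mem hx hy
    | smul r x _ hx => rw [psi_smul]; exact SMulMemClass.smul_mem r hx
  exact closure_minimal hadj hclosed ha

end Pool.Agent.Lib.MP_aa9b81_an.Hs
end
end

section

/-!
# Hereditary shifts, part H4a: local families come from the finite configurations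
-/

open scoped ENNReal Topology ZeroAtInfty
open Function Filter Set

noncomputable section

namespace Pool.Agent.Lib.MP_aa9b81_an.Hs

open Cut

variable {Γ Z I A : Type} [Group Γ] [MulAction Γ I] [MulAction Γ Z] [TopologicalSpace Z]
    [TopologicalSpace A] {a₀ : A} [DecidableEq I] (Y : Hered Γ Z I A a₀)

omit [DecidableEq I] in
/-- The injection `n = c(k, b) ↦ c'(n, b.F)`. -/
def rR (c : ℕ × Bs I ≃ ℕ) (c' : ℕ × Fd I ≃ ℕ) (n : ℕ) : ℕ := c' (n, Fd.of (c.symm n).2.F)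

omit [DecidableEq I] in
theorem inj_rR (c : ℕ × Bs I ≃ ℕ) (c' : ℕ × Fd I ≃ ℕ) : Injective (rR c c') := fun n n' h =>
  (Prod.ext_iff.1 (c'.injective h)).1

/-- PROOF: if `F` is nonempty and contained in `supp x`, then `pF x F = some q` with `F q = F`, `cutP F x = some (r q)`
(`pF_eq_some`), so the left side is `eF F a_{r q} eF F = eF F a_x eF F = a_x eF F` (`kap_apply`, `BD.cut`, `BD.comm`,
`eF_mul_eF`). Otherwise it is `0 = a_x eF F` (`pF_eq_none`, `Loc.zero`). -/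
theorem opt_kap (c : ℕ × Bs I ≃ ℕ) {a : Fam Γ Y.St} (ha : Loc Y c a) (x : Y.St) (F : Fd I) :
    opt (kap Y c a) (Y.pF x F) = a x * eF c F.s := by
  by_cases h : F.s.Nonempty ∧ ∀ i ∈ F.s, Y.y x i ≠ a₀
  · obtain ⟨q, hq, hqF, hqr⟩ := pF_eq_some Y h
    rw [hq, opt_some, kap_apply, hqF, mul_assoc, ← ha.cut x (Y.r q) F.s h.2 hqr, ← mul_assoc,
      ha.comm x F.s, mul_assoc, eF_mul_eF]
  · rw [pF_eq_none Y h, opt_none, ha.zero x F.s h]

private theorem H4a_eF (c : ℕ × Bs I ≃ ℕ) {a : Fam Γ Y.St} (ha : Loc Y c a) (x : Y.St)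
    (F : Finset I) (ζ : Hil Γ) (s : Γ) (k : ℕ) (b : Bs I) :
    (a x (eF c F ζ) : Γ × ℕ → ℂ) (s, c (k, b)) =
      if b.F = gF s F then (a x ζ : Γ × ℕ → ℂ) (s, c (k, b)) else 0 := by
  have h1 : eF c F (a x ζ) = a x (eF c F ζ) := by
    have h2 := congrArg (fun T : Op Γ => T ζ) (ha.comm x F)
    exact h2
  rw [← h1, eF_apply]

omit [DecidableEq I] in
private theorem H4a_eta (c' : ℕ × Fd I ≃ ℕ) (ξ : Hil Γ) (F : Fd I) (t : Γ) (m : ℕ) :
    (sb c' F ((SAct.triv Γ (Fd I)).V' c' ξ) : Γ × ℕ → ℂ) (t, m) =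
      (ξ : Γ × ℕ → ℂ) (t, c' (m, t • F)) := by
  rw [sb_apply, ← sk_apply c' t m ((SAct.triv Γ (Fd I)).V' c' ξ) F, SAct.sk_V', SAct.W_apply,
    sk_apply, inv_inv]
  change (1 : ℂ) * _ = _
  rw [one_mul]

/-- THE IDENTITY. PROOF: `Fam.ext` (at `x`), `ContinuousLinearMap.ext`, `lp.ext`, coordinates at `(s, c'(n, G))` with
`n = c(k, b)`. Let `F = s⁻¹ • G`, so `gF s F.s = G.s`, and `η = sb c' F ((SAct.triv ..).V' c' ξ)`, so
`η(t, m) = ξ(t, c'(m, t • F))` (`sb_apply`, `SAct.sk_V'`, `SAct.W_apply`). The right side is (`psi_apply`, `psiV`,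
`SAct.sk_V`, `W_apply`, `sb_dsum`, `opt_kap`) `(a_x (eF F η))(s, n) = (eF F (a_x (eF F η)))(s, n)` (`BD.comm`, `eF_mul_eF`), so
by `eF_apply` it is `0` unless `b.F = G.s`. The left side is `0` too for `b.F ≠ G.s` (`co_coord_of_notMem`:
`rR m = c'(n, G)` implies `m = n`, `G = b.F`). For `b.F = G.s`: `c'(n, G) = rR n`, `co_coord`: it is
`(a_x (pr ρ ξ))(s, n) = (eF F (a_x (pr ρ ξ)))(s, n) = (a_x (eF F (pr ρ ξ)))(s, n)`, and `eF F (pr ρ ξ) = eF F η`:
coordinates at `(t, c(k', b'))`, `b'.F = gF t F.s`: `(pr ρ ξ)(t, m) = ξ(t, c'(m, b'.F))`, `m = c(k', b')`. -/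
theorem co_eq_psi (c : ℕ × Bs I ≃ ℕ) (c' : ℕ × Fd I ≃ ℕ) {a : Fam Γ Y.St} (ha : Loc Y c a) :
    co (inj_rR c c') a = psi c' (SAct.triv Γ (Fd I)) Y.pF (kap Y c a) := by
  refine Fam.ext fun x => ContinuousLinearMap.ext fun ξ => ?_
  ext q
  obtain ⟨s, l⟩ := q
  obtain ⟨⟨n, G⟩, rfl⟩ := c'.surjective l
  obtain ⟨⟨k, b⟩, rfl⟩ := c.surjective n
  set F : Fd I := s⁻¹ • G with hF
  set η : Hil Γ := sb c' F ((SAct.triv Γ (Fd I)).V' c' ξ) with hη
  have hGF : gF s F.s = G.s := by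
    have h1 : (s • F).s = G.s := by rw [hF, smul_inv_smul]
    exact h1
  have hR : (psi c' (SAct.triv Γ (Fd I)) Y.pF (kap Y c a) x ξ : Γ × ℕ → ℂ) (s, c' (c (k, b), G)) =
      (a x (eF c F.s η) : Γ × ℕ → ℂ) (s, c (k, b)) := by
    rw [psi_apply, psiV]
    have h1 : ((SAct.triv Γ (Fd I)).V c' * dsum c' (fun b => opt (kap Y c a) (Y.pF x b)) *
        (SAct.triv Γ (Fd I)).V' c') ξ = (SAct.triv Γ (Fd I)).V c'
          (dsum c' (fun b => opt (kap Y c a) (Y.pF x b)) ((SAct.triv Γ (Fd I)).V' c' ξ)) := rfl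
    rw [h1, ← sk_apply c' s (c (k, b)), SAct.sk_V, SAct.W_apply, sk_apply]
    have h2 : ∀ g (F : Fd I), (SAct.triv Γ (Fd I)).ε g F = 1 := fun _ _ => rfl
    rw [h2, one_mul, ← hF, ← sb_apply c' F, sb_dsum c' (norm_nonneg (kap Y c a))
      (fun b => norm_opt_le (kap Y c a) _), opt_kap Y c ha x F, ← hη]
    rfl
  rw [hR, H4a_eF Y c ha, hGF]
  by_cases hb : b.F = G.s
  · rw [if_pos hb]
    have h3 : c' (c (k, b), G) = rR c c' (c (k, b)) := by
      rw [rR, c.symm_apply_apply, hb]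
      rfl
    rw [h3, co_coord]
    have h4 : eF c F.s (pr (rR c c') ξ) = eF c F.s η := by
      ext q
      obtain ⟨t, l⟩ := q
      obtain ⟨⟨k', b'⟩, rfl⟩ := c.surjective l
      rw [eF_apply, eF_apply]
      by_cases hb' : b'.F = gF t F.s
      · rw [if_pos hb', if_pos hb', pr_apply (inj_rR c c'), hη, H4a_eta, rR, c.symm_apply_apply]
        have h5 : Fd.of b'.F = t • F := Fd.ext hb'
        rw [h5]
      · rw [if_neg hb', if_neg hb']
    have h6 := H4a_eF Y c ha x F.s (pr (rR c c') ξ) s k b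
    have h7 := H4a_eF Y c ha x F.s η s k b
    rw [hGF, if_pos hb] at h6 h7
    rw [← h6, ← h7, h4]
  · rw [if_neg hb]
    refine co_coord_of_notMem (inj_rR c c') a x ξ s fun m hm => hb ?_
    rw [rR] at hm
    have h8 := Prod.ext_iff.1 (c'.injective hm)
    have h9 : m = c (k, b) := h8.1
    have h10 : Fd.of (c.symm m).2.F = G := h8.2
    rw [h9, c.symm_apply_apply] at h10
    rw [← h10]
    rfl

end Pool.Agent.Lib.MP_aa9b81_an.Hs
end
end

section

/-!
# Hereditary shifts, part H4: local families come from the finite configurations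
-/

open scoped ENNReal Topology ZeroAtInfty
open Function Filter Set

noncomputable section

namespace Pool.Agent.Lib.MP_aa9b81_an.Hs

open Cut

variable {Γ Z I A : Type} [Group Γ] [MulAction Γ I] [MulAction Γ Z] [TopologicalSpace Z]
    [TopologicalSpace A] {a₀ : A} [DecidableEq I] (Y : Hered Γ Z I A a₀)

variable [T2Space Z] [T2Space A] [CompactSpace A] [ContinuousConstSMul Γ Z]

omit [T2Space Z] [T2Space A] [CompactSpace A] [ContinuousConstSMul Γ Z] in
/-- `(1 + kap a) (1 + kap b) = 1` if `(1 + a) (1 + b) = 1`. -/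
private theorem H4_one_add_kap (c : ℕ × Bs I ≃ ℕ) {a b : Fam Γ Y.St} (hb : BD Y c b)
    (h : (1 + a) * (1 + b) = 1) : (1 + kap Y c a) * (1 + kap Y c b) = 1 := by
  have h1 : a + b + a * b = 0 := by
    have : a + b + a * b = (1 + a) * (1 + b) - 1 := by noncomm_ring
    rw [this, h, sub_self]
  have h0 : kap Y c (0 : Fam Γ Y.St) = 0 := by
    have h3 := kap_sub Y c (0 : Fam Γ Y.St) 0
    rwa [sub_self, sub_self] at h3
  have h2 : kap Y c a + kap Y c b + kap Y c a * kap Y c b = 0 := by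
    rw [← kap_mul Y c hb, ← kap_add, ← kap_add, h1, h0]
  have h3 : (1 + kap Y c a) * (1 + kap Y c b) =
      1 + (kap Y c a + kap Y c b + kap Y c a * kap Y c b) := by noncomm_ring
  rw [h3, h2, add_zero]

/-- PROOF: let `x = v - 1`, `y = v⁻¹ - 1`, `x + y + x y = 0 = y + x + y x`. Then `w = 1 + kap x` is a unit with inverse
`1 + kap y` (`kap_mul`, `kap_add`), in `GL1 (cp Γ Y.Sf)` (`kap_mem_cp`), so in `E1` (`hfin`). With `Φ = psi c' triv pF`
the unit `extUnit Φ w` is in `E1 (cp Γ Y.St)` (`Cut.extUnit_mem_E1`, `norm_psi_le`, `psi_pF_mem`), and it is equal to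
`extUnit (co (inj_rR c c')) v` (`co_eq_psi`). `E1_of_co`, `AE_le_cp`. -/
theorem E1_of_fin (c : ℕ × Bs I ≃ ℕ) (c' : ℕ × Fd I ≃ ℕ) (e : I ↪ ℕ) (h : Ht A a₀)
    (hfin : GL1 (cp Γ Y.Sf) ≤ E1 (cp Γ Y.Sf)) {v : (Fam Γ Y.St)ˣ}
    (hv : v ∈ GL1 (AE c (sact e) (Y.site h).U)) (h1 : Loc Y c ((v : Fam Γ Y.St) - 1))
    (h2 : Loc Y c (((v⁻¹ : (Fam Γ Y.St)ˣ) : Fam Γ Y.St) - 1)) : v ∈ E1 (cp Γ Y.St) := by
  have hx : (1 + ((v : Fam Γ Y.St) - 1)) * (1 + (((v⁻¹ : (Fam Γ Y.St)ˣ) : Fam Γ Y.St) - 1)) = 1 := by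
    rw [add_sub_cancel, add_sub_cancel, Units.mul_inv]
  have hy : (1 + (((v⁻¹ : (Fam Γ Y.St)ˣ) : Fam Γ Y.St) - 1)) * (1 + ((v : Fam Γ Y.St) - 1)) = 1 := by
    rw [add_sub_cancel, add_sub_cancel, Units.inv_mul]
  let w : (Fam Γ Y.Sf)ˣ := ⟨1 + kap Y c ((v : Fam Γ Y.St) - 1),
    1 + kap Y c (((v⁻¹ : (Fam Γ Y.St)ˣ) : Fam Γ Y.St) - 1),
    H4_one_add_kap Y c h2.toBD hx, H4_one_add_kap Y c h1.toBD hy⟩
  have hw : w ∈ GL1 (cp Γ Y.Sf) := by
    constructor
    · show (1 + kap Y c ((v : Fam Γ Y.St) - 1)) - 1 ∈ cp Γ Y.Sf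
      rw [add_sub_cancel_left]
      exact kap_mem_cp Y c e h hv.1
    · show (1 + kap Y c (((v⁻¹ : (Fam Γ Y.St)ˣ) : Fam Γ Y.St) - 1)) - 1 ∈ cp Γ Y.Sf
      rw [add_sub_cancel_left]
      exact kap_mem_cp Y c e h hv.2
  have hv' : v ∈ GL1 (cp Γ Y.St) := ⟨AE_le_cp c (sact e) _ hv.1, AE_le_cp c (sact e) _ hv.2⟩
  refine E1_of_co (inj_rR c c') hv' ?_
  have h5 : extUnit (psi c' (SAct.triv Γ (Fd I)) Y.pF) w ∈ E1 (cp Γ Y.St) :=
    extUnit_mem_E1 (fun a => norm_psi_le c' (SAct.triv Γ (Fd I)) Y.pF a)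
      (fun a ha => psi_pF_mem Y c' a ha) (hfin hw)
  have h6 : extUnit (co (inj_rR c c')) v = extUnit (psi c' (SAct.triv Γ (Fd I)) Y.pF) w := by
    apply Units.ext
    show 1 + co (inj_rR c c') ((v : Fam Γ Y.St) - 1) =
      1 + psi c' (SAct.triv Γ (Fd I)) Y.pF ((1 + kap Y c ((v : Fam Γ Y.St) - 1)) - 1)
    rw [add_sub_cancel_left, co_eq_psi Y c c' h1]
  rw [h6]
  exact h5

end Pool.Agent.Lib.MP_aa9b81_an.Hs
end
end

section

/-!
# Rotated sites, part P5a: the matrices of the laws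
-/

open scoped ENNReal Topology ZeroAtInfty
open Function Filter Set

noncomputable section

namespace Pool.Agent.Lib.MP_aa9b81_an.Rc

open Cut Hs

variable {Γ C I : Type} [Group Γ] [MulAction Γ C] [MulAction Γ I] [DecidableEq C]

namespace Fibr

variable (𝔉 : Fibr Γ C I)

/-- The vector `√2 (cos(θ/2), sin(θ/2) / √n, …, sin(θ/2) / √n)`, `n = |fib i|`. -/
def vth (θ : ℝ) (i : I) (l : Option C) : ℝ :=
  l.elim (√2 * Real.cos (θ / 2)) fun _ => √2 * Real.sin (θ / 2) / √((𝔉.fib i).card : ℝ)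

/-- PROOF: `Finset.sum_insert`, `Finset.sum_map`: `2 cos² + n (2 sin² / n) = 2`. -/
theorem sum_vth_sq (hn : ∀ i, (𝔉.fib i).Nonempty) (θ : ℝ) (i : I) :
    ∑ l ∈ 𝔉.Lt i, 𝔉.vth θ i l ^ 2 = 2 := by
  have hc : (0 : ℝ) < ((𝔉.fib i).card : ℝ) := by
    exact_mod_cast Finset.card_pos.2 (hn i)
  have h1 : (none : Option C) ∉ (𝔉.fib i).map Embedding.some := by
    intro h
    rw [Finset.mem_map] at h
    obtain ⟨c, _, hc⟩ := h
    exact absurd hc (by simp)
  have h2 : √(2 : ℝ) ^ 2 = 2 := Real.sq_sqrt (by norm_num)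
  have h3 : √((𝔉.fib i).card : ℝ) ^ 2 = (𝔉.fib i).card := Real.sq_sqrt hc.le
  rw [Lt, Finset.sum_insert h1, Finset.sum_map]
  have h4 : ∀ c ∈ 𝔉.fib i, 𝔉.vth θ i (Embedding.some c) ^ 2 =
      2 * Real.sin (θ / 2) ^ 2 / (𝔉.fib i).card := by
    intro c _
    show (√2 * Real.sin (θ / 2) / √((𝔉.fib i).card : ℝ)) ^ 2 = _
    rw [div_pow, mul_pow, h2, h3]
  rw [Finset.sum_congr rfl h4, Finset.sum_const, nsmul_eq_mul, mul_div_cancel₀ _ hc.ne']
  show (√2 * Real.cos (θ / 2)) ^ 2 + 2 * Real.sin (θ / 2) ^ 2 = 2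
  rw [mul_pow, h2]
  have h5 := Real.sin_sq_add_cos_sq (θ / 2)
  linarith

/-- PROOF: `∑_{l'} (-[l = l'] + v_l v_l') (-[l' = l''] + v_l' v_l'') = [l = l''] - 2 v_l v_l'' + v_l v_l'' ∑ v²`. -/
theorem mm_vv {i : I} {v : Option C → ℝ} (h : ∑ l ∈ 𝔉.Lt i, v l ^ 2 = 2) {l l'' : Option C}
    (hl : l ∈ 𝔉.Lt i) (hl'' : l'' ∈ 𝔉.Lt i) :
    mm (𝔉.Lt i) (fun l l' => -id1 l l' + v l * v l') (fun l l' => -id1 l l' + v l * v l') l l'' =
      id1 l l'' := by
  have h1 : ∀ l' ∈ 𝔉.Lt i, (-id1 l l' + v l * v l') * (-id1 l' l'' + v l' * v l'') =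
      (if l = l' then id1 l' l'' else 0) - (if l = l' then v l' * v l'' else 0) -
        (if l' = l'' then v l * v l' else 0) + v l * v l'' * v l' ^ 2 := by
    intro l' _
    by_cases h2 : l = l'
    · by_cases h3 : l' = l''
      · simp only [id1, if_pos h2, if_pos h3]
        ring
      · simp only [id1, if_pos h2, if_neg h3]
        ring
    · by_cases h3 : l' = l''
      · simp only [id1, if_neg h2, if_pos h3]
        ring
      · simp only [id1, if_neg h2, if_neg h3]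
        ring
  show ∑ l' ∈ 𝔉.Lt i, (-id1 l l' + v l * v l') * (-id1 l' l'' + v l' * v l'') = id1 l l''
  rw [Finset.sum_congr rfl h1, Finset.sum_add_distrib, Finset.sum_sub_distrib,
    Finset.sum_sub_distrib, ← Finset.mul_sum, h, Finset.sum_ite_eq, Finset.sum_ite_eq,
    Finset.sum_ite_eq', if_pos hl, if_pos hl, if_pos hl'']
  ring

/-- The matrices of the law with the angle `θ`: at `θ = 0` the vacuum sees the letter `none`, at `θ = π/2` the uniformly
distributed letters of the fibre. -/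
def Vth (hn : ∀ i, (𝔉.fib i).Nonempty) (θ : ℝ) : Mf 𝔉 where
  m i l l' := -id1 l l' + 𝔉.vth θ i l * 𝔉.vth θ i l'
  symm i l _ l' _ := by
    unfold id1
    by_cases h : l = l'
    · rw [if_pos h, if_pos h.symm, mul_comm]
    · rw [if_neg h, if_neg (Ne.symm h), mul_comm]
  sq i l hl l' hl' := 𝔉.mm_vv (𝔉.sum_vth_sq hn θ i) hl hl'

/-- PROOF: `|fib (g i)| = |fib i|` (`fib (g i) = gF g (fib i)`, `card_gF`), `Option.map` injective. -/
theorem Vth_equi (hn : ∀ i, (𝔉.fib i).Nonempty) (θ : ℝ) (g : Γ) (i : I) (l l' : Option C) :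
    (𝔉.Vth hn θ).m (g • i) (l.map (g • ·)) (l'.map (g • ·)) = (𝔉.Vth hn θ).m i l l' := by
  have h1 : 𝔉.fib (g • i) = gF g (𝔉.fib i) := by
    ext c
    rw [𝔉.mem_fib, mem_gF, 𝔉.mem_fib, 𝔉.smul, inv_smul_eq_iff]
  have h2 : ((𝔉.fib (g • i)).card : ℝ) = (𝔉.fib i).card := by rw [h1, card_gF]
  have h3 : ∀ l : Option C, 𝔉.vth θ (g • i) (l.map (g • ·)) = 𝔉.vth θ i l := by
    intro l
    cases l with
    | none => rfl
    | some c =>
      show √2 * Real.sin (θ / 2) / √((𝔉.fib (g • i)).card : ℝ) =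
        √2 * Real.sin (θ / 2) / √((𝔉.fib i).card : ℝ)
      rw [h2]
  have h4 : (id1 (l.map (g • ·)) (l'.map (g • ·)) : ℝ) = id1 l l' := by
    have h5 : l.map (g • ·) = l'.map (g • ·) ↔ l = l' :=
      (Option.map_injective (MulAction.injective g)).eq_iff
    by_cases h6 : l = l'
    · simp only [id1, if_pos h6, if_pos (h5.2 h6)]
    · simp only [id1, if_neg h6, if_neg (fun h => h6 (h5.1 h))]
  show -id1 (l.map (g • ·)) (l'.map (g • ·)) + 𝔉.vth θ (g • i) (l.map (g • ·)) *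
    𝔉.vth θ (g • i) (l'.map (g • ·)) = -id1 l l' + 𝔉.vth θ i l * 𝔉.vth θ i l'
  rw [h3, h3, h4]

/-- PROOF: `cos`, `sin` are continuous. -/
theorem continuous_Vth (hn : ∀ i, (𝔉.fib i).Nonempty) (i : I) (l l' : Option C) :
    Continuous fun θ => (𝔉.Vth hn θ).m i l l' := by
  have h1 : ∀ l : Option C, Continuous fun θ => 𝔉.vth θ i l := by
    intro l
    cases l with
    | none =>
      exact continuous_const.mul (Real.continuous_cos.comp (continuous_id.div_const 2))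
    | some c =>
      exact (continuous_const.mul (Real.continuous_sin.comp
        (continuous_id.div_const 2))).div_const _
  show Continuous fun θ => -id1 l l' + 𝔉.vth θ i l * 𝔉.vth θ i l'
  exact continuous_const.add ((h1 l).mul (h1 l'))

end Fibr

end Pool.Agent.Lib.MP_aa9b81_an.Rc
end
end

section

/-!
# The machine, part F1: the representation of a finite stage
-/

open scoped ENNReal Topology ZeroAtInfty
open Function

noncomputable section

namespace Pool.Agent.Lib.MP_aa9b81_an.Mc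

open Cut Hs

variable {Γ X P I : Type} [Group Γ] [MulAction Γ X] [MulAction Γ P] [MulAction Γ I]
  [DecidableEq I] {e : I ↪ ℕ} (σ : Sys Γ X P I e)

variable [TopologicalSpace X]

/-- PROOF: `SL.of_slices` with `st_gen_slice` (`Filter.eventually_ge_atTop`), `norm_st_le`. -/
theorem Sys.SL_st_gen (c : ℕ × Bs I ≃ ℕ) {f : C₀(X, ℂ)} {L₀ : Finset I} {n : FB (Bs I) P}
    (hst : σ.St f L₀ n) (g : Γ) (i j : ℕ) :
    SL (fun L => σ.st c L (gen f g i j)) (cov c (sact e) g i j n) := by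
  refine SL.of_slices (fun L => σ.norm_st_le c L _) fun p t => ?_
  filter_upwards [Filter.eventually_ge_atTop (gF (g * t)⁻¹ L₀)] with L hL
  intro ξ hξ
  exact σ.st_gen_slice c hst g i j p t hL ξ hξ

end Pool.Agent.Lib.MP_aa9b81_an.Mc
end
end
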