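import Pool.Agent.Lib.MP_aa9b81_an.Mg.G005
import Pool.Agent.Lib.MP_aa9b81_an.Mg.G007
import Pool.Agent.Lib.MP_aa9b81_an.Mg.G002
import Pool.Agent.Lib.MP_aa9b81_an.Mg.G022
import Pool.Agent.Lib.MP_aa9b81_an.Mg.G074
import Pool.Agent.Lib.MP_aa9b81_an.TC.Pow
import Pool.Agent.Lib.MP_aa9b81_an.Mg.G075
import Pool.Agent.Lib.MP_aa9b81_an.Mg.G006

section

/-!
# Hereditary shifts, part M2c: the compact operators of the module, and multipliers
-/

open scoped ENNReal Topology ZeroAtInfty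
open Function Filter Set

noncomputable section

namespace Pool.Agent.Lib.MP_aa9b81_an.Hs

open Cut

variable {Γ B P : Type} [Group Γ] [MulAction Γ B] [Nonempty B] [TopologicalSpace P] [MulAction Γ P]

omit [Group Γ] [MulAction Γ B] [Nonempty B] in
private theorem M2c_norm_ker_le (X : BL B) (b b' : B) : ‖ker X b b'‖ ≤ ‖X‖ := by
  classical
  unfold ker
  have h1 : ‖(X (bv b') : B → ℂ) b‖ ≤ ‖X (bv b')‖ :=
    lp.norm_apply_le_norm (E := fun _ : B => ℂ) (by norm_num) _ _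
  have h2 : ‖X (bv b')‖ ≤ ‖X‖ * ‖(bv b' : L2 B)‖ := X.le_opNorm _
  have h3 : ‖(bv b' : L2 B)‖ = 1 := by
    unfold bv
    rw [lp.norm_single (by norm_num)]
    exact norm_one
  rw [h3, mul_one] at h2
  exact h1.trans h2

omit [Group Γ] [MulAction Γ B] [TopologicalSpace P] [MulAction Γ P] in
private theorem M2c_sum_apply (A : Finset B) (G : B → FB B P) (p : P) :
    (∑ a ∈ A, G a : FB B P) p = ∑ a ∈ A, G a p := by
  classical
  induction A using Finset.induction_on with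
  | empty => rw [Finset.sum_empty, Finset.sum_empty]; rfl
  | insert a A ha ih =>
    rw [Finset.sum_insert ha, Finset.sum_insert ha, FB.add_apply, ih]

omit [Group Γ] [MulAction Γ B] [MulAction Γ P] in
/-- PROOF: at the point `p`: `n_p (f(p) E_{bb'}) = ∑_{a ∈ A} f(p) ker(n_p) a b E_{ab'}` (`mul_Eu`), and
`f(p) ker(n_p) a b` is in `C₀` by `exists_C0_mul` for `U b` (`cont'`), vanishing off `U a ∩ U b'` by `supp`
(`f(p) ≠ 0` gives `p ∈ U b ∩ U b'`). The entries are bounded: `‖ker X b b'‖ ≤ ‖X‖`. -/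
theorem Mlt.mul_ge [T2Space P] {U : B → Set P} (hU : ∀ b, IsOpen (U b)) {n : FB B P} (hn : Mlt U n)
    {f : C₀(P, ℂ)} {b b' : B} (hf : Good U f b b') : ∃ (A : Finset B) (F : B → C₀(P, ℂ)),
      (∀ a, Good U (F a) a b') ∧ n * ge f b b' = ∑ a ∈ A, ge (F a) a b' := by
  obtain ⟨A, hA⟩ := hn.col b
  have hF : ∀ a : B, ∃ F : C₀(P, ℂ), ∀ p, F p = f p * ker (n p) a b := fun a =>
    exists_C0_mul (hU b) f (fun p hp => (hf p hp).1) (fun p => ker (n p) a b)
      (fun p => (M2c_norm_ker_le (n p) a b).trans (n.norm_apply_le p)) (hn.cont' a b)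
  choose F hF using hF
  refine ⟨A, F, ?_, ?_⟩
  · intro a p hp
    rw [hF a p] at hp
    have h1 : f p ≠ 0 := left_ne_zero_of_mul hp
    have h2 : ker (n p) a b ≠ 0 := right_ne_zero_of_mul hp
    exact ⟨(hn.supp a b p h2).2 (hf p h1).1, (hf p h1).2⟩
  · refine FB.ext fun p => ?_
    rw [FB.mul_apply, M2c_sum_apply, ge_apply, mul_smul_comm, mul_Eu (n p) b b' (hA p),
      Finset.smul_sum]
    refine Finset.sum_congr rfl fun a _ => ?_
    rw [ge_apply, hF a p, smul_smul]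

end Pool.Agent.Lib.MP_aa9b81_an.Hs
end
end

section

/-!
# Hereditary shifts, part M2d: the compact operators of the module, and multipliers
-/

open scoped ENNReal Topology ZeroAtInfty
open Function Filter Set

noncomputable section

namespace Pool.Agent.Lib.MP_aa9b81_an.Hs

open Cut

variable {Γ B P : Type} [Group Γ] [MulAction Γ B] [Nonempty B] [TopologicalSpace P] [MulAction Γ P]

omit [Group Γ] [MulAction Γ B] [Nonempty B] [MulAction Γ P] [TopologicalSpace P] in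
/-- The matrix entries are bounded by the norm. -/
private theorem M2d_norm_ker_le (X : BL B) (b b' : B) : ‖ker X b b'‖ ≤ ‖X‖ := by
  classical
  have h1 : ‖(X (bv b') : B → ℂ) b‖ ≤ ‖X (bv b')‖ :=
    lp.norm_apply_le_norm (E := fun _ : B => ℂ) (by simp) _ b
  have h2 : ‖(bv b' : L2 B)‖ = 1 := by
    unfold bv
    rw [lp.norm_single (by simp)]
    simp
  have h3 := X.le_opNorm (bv b')
  rw [h2, mul_one] at h3
  exact h1.trans h3

omit [Group Γ] [MulAction Γ B] [MulAction Γ P] [TopologicalSpace P] in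
/-- Finite sums of families. -/
private theorem M2d_sum_apply {ι : Type} (A : Finset ι) (F : ι → FB B P) (p : P) :
    (∑ a ∈ A, F a) p = ∑ a ∈ A, (F a) p := by
  classical
  induction A using Finset.induction_on with
  | empty => simp
  | insert a A ha ih => rw [Finset.sum_insert ha, Finset.sum_insert ha, FB.add_apply, ih]

omit [Group Γ] [MulAction Γ B] [MulAction Γ P] in
/-- PROOF: as `Mlt.mul_ge`, with `Eu_mul`, `row`, `cont`. -/
theorem Mlt.ge_mul [T2Space P] {U : B → Set P} (hU : ∀ b, IsOpen (U b)) {n : FB B P} (hn : Mlt U n)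
    {f : C₀(P, ℂ)} {b b' : B} (hf : Good U f b b') : ∃ (A : Finset B) (F : B → C₀(P, ℂ)),
      (∀ a, Good U (F a) b a) ∧ ge f b b' * n = ∑ a ∈ A, ge (F a) b a := by
  obtain ⟨A, hA⟩ := hn.row b'
  have h1 : ∀ a : B, ∃ F : C₀(P, ℂ), ∀ p, F p = f p * ker (n p) b' a := fun a =>
    exists_C0_mul (hU b') f (fun p hp => (hf p hp).2) (fun p => ker (n p) b' a) (C := ‖n‖)
      (fun p => (M2d_norm_ker_le _ _ _).trans (n.norm_apply_le p)) (hn.cont b' a)
  choose F hF using h1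
  refine ⟨A, F, ?_, ?_⟩
  · intro a p hp
    rw [hF a p] at hp
    have h2 := hf p (left_ne_zero_of_mul hp)
    exact ⟨h2.1, (hn.supp b' a p (right_ne_zero_of_mul hp)).1 h2.2⟩
  · refine FB.ext fun p => ?_
    rw [M2d_sum_apply, FB.mul_apply, ge_apply, smul_mul_assoc,
      Eu_mul (n p) b b' (A := A) (fun a ha => hA p a ha), Finset.smul_sum]
    refine Finset.sum_congr rfl fun a _ => ?_
    rw [ge_apply, hF a p, smul_smul]

omit [Group Γ] [MulAction Γ B] [MulAction Γ P] in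
/-- PROOF: `Mlt.mul_ge` for the generators, `Submodule.span_induction`, closure. -/
theorem Mlt.mul_mem_KE [T2Space P] {U : B → Set P} (hU : ∀ b, IsOpen (U b)) {n : FB B P}
    (hn : Mlt U n) {k : FB B P} (hk : k ∈ KE U) : n * k ∈ KE U := by
  have h1 : ∀ x ∈ Submodule.span ℂ {n : FB B P | ∃ b b' f, Good U f b b' ∧ n = ge f b b'},
      n * x ∈ Submodule.span ℂ {n : FB B P | ∃ b b' f, Good U f b b' ∧ n = ge f b b'} := by
    intro x hx
    induction hx using Submodule.span_induction with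
    | mem x hx =>
      obtain ⟨b, b', f, hf, rfl⟩ := hx
      obtain ⟨A, F, hF, hE⟩ := hn.mul_ge hU hf
      rw [hE]
      exact Submodule.sum_mem _ fun a _ => Submodule.subset_span ⟨a, b', F a, hF a, rfl⟩
    | zero =>
      rw [mul_zero]
      exact Submodule.zero_mem _
    | add x y _ _ hx hy =>
      rw [mul_add]
      exact Submodule.add_mem _ hx hy
    | smul z x _ hx =>
      rw [mul_smul_comm]
      exact Submodule.smul_mem _ z hx
  exact map_mem_closure (continuous_const.mul continuous_id) hk h1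

end Pool.Agent.Lib.MP_aa9b81_an.Hs
end
end

section

/-!
# Hereditary shifts, part M2e: the compact operators of the module, and multipliers
-/

open scoped ENNReal Topology ZeroAtInfty
open Function Filter Set

noncomputable section

namespace Pool.Agent.Lib.MP_aa9b81_an.Hs

open Cut

variable {Γ B P : Type} [Group Γ] [MulAction Γ B] [Nonempty B] [TopologicalSpace P] [MulAction Γ P]

omit [Group Γ] [MulAction Γ B] [MulAction Γ P] in
/-- PROOF: as `Mlt.mul_mem_KE`, with `Mlt.ge_mul`. -/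
theorem Mlt.mem_KE_mul [T2Space P] {U : B → Set P} (hU : ∀ b, IsOpen (U b)) {n : FB B P}
    (hn : Mlt U n) {k : FB B P} (hk : k ∈ KE U) : k * n ∈ KE U := by
  have h1 : ∀ x ∈ Submodule.span ℂ {n : FB B P | ∃ b b' f, Good U f b b' ∧ n = ge f b b'},
      x * n ∈ Submodule.span ℂ {n : FB B P | ∃ b b' f, Good U f b b' ∧ n = ge f b b'} := by
    intro x hx
    induction hx using Submodule.span_induction with
    | mem x hx =>
      obtain ⟨b, b', f, hf, rfl⟩ := hx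
      obtain ⟨A, F, hF, hE⟩ := hn.ge_mul hU hf
      rw [hE]
      exact Submodule.sum_mem _ fun a _ => Submodule.subset_span ⟨b, a, F a, hF a, rfl⟩
    | zero =>
      rw [zero_mul]
      exact Submodule.zero_mem _
    | add x y _ _ hx hy =>
      rw [add_mul]
      exact Submodule.add_mem _ hx hy
    | smul z x _ hx =>
      rw [smul_mul_assoc]
      exact Submodule.smul_mem _ z hx
  exact map_mem_closure (f := fun x => x * n) (continuous_id.mul continuous_const) hk h1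

omit [Group Γ] [MulAction Γ B] [MulAction Γ P] in
private theorem M2e_ge_mem_KE {U : B → Set P} {f : C₀(P, ℂ)} {b b' : B} (hf : Good U f b b') :
    ge f b b' ∈ KE U :=
  Submodule.le_topologicalClosure _ (Submodule.subset_span ⟨b, b', f, hf, rfl⟩)

omit [TopologicalSpace P] in
/-- The action `Ad g` is additive. -/
private theorem M2e_Ad_sum (E : SAct Γ B) (g : Γ) (A : Finset B) (F : B → FB B P) :
    E.Ad g (∑ a ∈ A, F a) = ∑ a ∈ A, E.Ad g (F a) := by
  classical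
  have h0 : E.Ad g (0 : FB B P) = 0 := by
    refine FB.ext fun p => ?_
    rw [SAct.Ad_apply, FB.zero_apply, FB.zero_apply, mul_zero, zero_mul]
  have h1 : ∀ x y : FB B P, E.Ad g (x + y) = E.Ad g x + E.Ad g y := by
    intro x y
    refine FB.ext fun p => ?_
    rw [SAct.Ad_apply, FB.add_apply, FB.add_apply, SAct.Ad_apply, SAct.Ad_apply, mul_add, add_mul]
  induction A using Finset.induction_on with
  | empty => rw [Finset.sum_empty, Finset.sum_empty, h0]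
  | insert a A ha ih => rw [Finset.sum_insert ha, Finset.sum_insert ha, h1, ih]

omit [TopologicalSpace P] in
private theorem M2e_Ad_mul (E : SAct Γ B) (g : Γ) (x y : FB B P) :
    E.Ad g (x * y) = E.Ad g x * E.Ad g y := by
  refine FB.ext fun p => ?_
  rw [SAct.Ad_apply, FB.mul_apply, FB.mul_apply, SAct.Ad_apply, SAct.Ad_apply]
  calc E.W g * (x (g⁻¹ • p) * y (g⁻¹ • p)) * E.W g⁻¹
      = E.W g * x (g⁻¹ • p) * 1 * y (g⁻¹ • p) * E.W g⁻¹ := by simp only [mul_one, mul_assoc]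
    _ = E.W g * x (g⁻¹ • p) * (E.W g⁻¹ * E.W g) * y (g⁻¹ • p) * E.W g⁻¹ := by rw [E.W_inv_mul]
    _ = _ := by simp only [mul_assoc]

variable [ContinuousConstSMul Γ P]

/-- PROOF: `isMul_of_gen`: for a generator, `m1 n * cov g i j (ge f b b') = cov g i j (n * ge f b b')`
(`m1_mul_cov`, `Mlt.mul_ge`, `cov_mem_AE`), and
`cov g i j (ge f b b') * m1 n = cov g i j (ge f b b' * Ad g n)`: write
`ge f b b' * Ad g n = Ad g (z • ge (shift g⁻¹ f) (g⁻¹ b) (g⁻¹ b') * n)` (`Ad_ge`; `Ad g` is multiplicative), and use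
`Mlt.ge_mul` for `ge (shift g⁻¹ f) (g⁻¹ b) (g⁻¹ b') * n` (good for `U` by `hUe`), then `Ad_ge` again. -/
theorem Mlt.isMul_m1 [T2Space P] (c : ℕ × B ≃ ℕ) (E : SAct Γ B) {U : B → Set P}
    (hU : ∀ b, IsOpen (U b)) (hUe : ∀ (g : Γ) b p, g • p ∈ U (g • b) ↔ p ∈ U b) {n : FB B P}
    (hn : Mlt U n) : IsMul (AE c E U) (m1 c n) := by
  unfold AE
  refine isMul_of_gen ?_
  rintro a ⟨g, i, j, b, b', f, hf, rfl⟩
  constructor
  · rw [m1_mul_cov]
    exact cov_mem_AE c E U g i j (hn.mul_mem_KE hU (M2e_ge_mem_KE hf))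
  · rw [cov_mul_m1]
    refine cov_mem_AE c E U g i j ?_
    -- `ge f b b' = z • Ad g (ge (shift g⁻¹ f) (g⁻¹ b) (g⁻¹ b'))`
    obtain ⟨z, hz⟩ : ∃ z : ℂ, z = E.ε g (g⁻¹ • b) * E.ε g⁻¹ (g • (g⁻¹ • b')) := ⟨_, rfl⟩
    have hz0 : z ≠ 0 := by
      rw [hz]
      refine mul_ne_zero ?_ ?_
      · intro h
        have h1 := E.norm g (g⁻¹ • b)
        rw [h, norm_zero] at h1
        exact zero_ne_one h1
      · intro h
        have h1 := E.norm g⁻¹ (g • (g⁻¹ • b'))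
        rw [h, norm_zero] at h1
        exact zero_ne_one h1
    have hshift : shift g (shift g⁻¹ f) = f := by
      ext p
      rw [shift_apply, shift_apply, inv_inv, smul_inv_smul]
    have h1 : E.Ad g (ge (shift g⁻¹ f) (g⁻¹ • b) (g⁻¹ • b')) = z • ge f b b' := by
      rw [Ad_ge, hshift, smul_inv_smul, smul_inv_smul, hz, smul_inv_smul]
    have h2 : ge f b b' * E.Ad g n =
        z⁻¹ • E.Ad g (ge (shift g⁻¹ f) (g⁻¹ • b) (g⁻¹ • b') * n) := by
      rw [M2e_Ad_mul, h1, smul_mul_assoc, smul_smul, inv_mul_cancel₀ hz0, one_smul]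
    have hgood : Good U (shift g⁻¹ f) (g⁻¹ • b) (g⁻¹ • b') := by
      intro p hp
      rw [shift_apply, inv_inv] at hp
      have h3 := hf _ hp
      constructor
      · have h4 := hUe g (g⁻¹ • b) p
        rw [smul_inv_smul] at h4
        exact h4.1 h3.1
      · have h4 := hUe g (g⁻¹ • b') p
        rw [smul_inv_smul] at h4
        exact h4.1 h3.2
    obtain ⟨A, F, hF, hE⟩ := hn.ge_mul hU hgood
    rw [h2, hE, M2e_Ad_sum]
    refine Submodule.smul_mem _ _ (Submodule.sum_mem _ fun a _ => ?_)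
    rw [Ad_ge]
    refine Submodule.smul_mem _ _ (M2e_ge_mem_KE ?_)
    intro p hp
    rw [shift_apply] at hp
    have h3 := hF a _ hp
    constructor
    · have h4 := hUe g (g⁻¹ • b) (g⁻¹ • p)
      rw [smul_inv_smul g p] at h4
      exact h4.2 h3.1
    · have h4 := hUe g a (g⁻¹ • p)
      rw [smul_inv_smul g p] at h4
      exact h4.2 h3.2

end Pool.Agent.Lib.MP_aa9b81_an.Hs
end
end

section

/-!
# Rotated sites, part P3b: local operators at finitely many fibres, other operators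
-/

open scoped ENNReal Topology ZeroAtInfty
open Function Filter Set

noncomputable section

namespace Pool.Agent.Lib.MP_aa9b81_an.Rc

open Cut Hs

variable {Γ C I : Type} [Group Γ] [MulAction Γ C] [MulAction Γ I] [DecidableEq C]

namespace Fibr

variable (𝔉 : Fibr Γ C I)

/-- PROOF: induction on `E` (`WE_insert`, `gF g (insert i E) = insert (g i) (gF g E)`), `W_mul_Li`. -/
theorem W_mul_WE (e : C ↪ ℕ) (g : Γ) (E : Finset I) {V V' : Mf 𝔉}
    (h : ∀ i, ∀ l ∈ 𝔉.Lt i, ∀ l' ∈ 𝔉.Lt i,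
      V'.m (g • i) (l.map (g • ·)) (l'.map (g • ·)) = V.m i l l') :
    (sact e : SAct Γ (Bs C)).W g * 𝔉.WE E V = 𝔉.WE (gF g E) V' * (sact e : SAct Γ (Bs C)).W g := by
  classical
  induction E using Finset.induction_on with
  | empty =>
    have h0 : gF g (∅ : Finset I) = ∅ := by
      ext j
      simp
    rw [h0, 𝔉.WE_empty, 𝔉.WE_empty, mul_one, one_mul]
  | insert i E hi ih =>
    have hins : gF g (insert i E) = insert (g • i) (gF g E) := by
      ext j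
      simp only [mem_gF, Finset.mem_insert, inv_smul_eq_iff]
    have hi' : g • i ∉ gF g E := by
      simpa using hi
    rw [hins, 𝔉.WE_insert hi, 𝔉.WE_insert hi', ← mul_assoc, Wi,
      𝔉.W_mul_Li e g 1 (m' := V'.m (g • i)) (h i), mul_assoc, ih, ← mul_assoc]
    rfl

/-- PROOF: induction on `E` (`WE_insert`), `continuous_Li`, `continuous_pi`. -/
theorem continuous_WE (E : Finset I) {X : Type} [TopologicalSpace X] {V : X → Mf 𝔉}
    (h : ∀ i l l', Continuous fun x => (V x).m i l l') : Continuous fun x => 𝔉.WE E (V x) := by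
  classical
  induction E using Finset.induction_on with
  | empty =>
    simp only [𝔉.WE_empty]
    exact continuous_const
  | insert i E hi ih =>
    simp only [𝔉.WE_insert hi]
    have h1 : Continuous fun x => 𝔉.Wi (V x) i :=
      (𝔉.continuous_Li i 1).comp (continuous_pi fun l => continuous_pi fun l' => h i l l')
    exact h1.mul ih

/-- PROOF: `WE_comm`, `Li_comm_of`, `Em_comm_Pp`. -/
theorem WE_comm_Pp (E : Finset I) (V : Mf 𝔉) : Commute (𝔉.WE E V) (Pp : BL (Bs C)) :=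
  𝔉.WE_comm fun _ _ => 𝔉.Li_comm_of 1 _ fun _ _ _ hl' => 𝔉.Em_comm_Pp hl'

/-- PROOF: `WE_comm`, `Li_comm_of`, `Em_comm_Cl`. -/
theorem WE_comm_Cl (e : C ↪ ℕ) {E : Finset I} (V : Mf 𝔉) {a : Finset C → C → ℝ} {M : ℝ}
    (h : CB a M) (h0 : ∀ F c, 𝔉.p c ∈ E → a F c = 0)
    (h1 : ∀ i ∈ E, ∀ F c, a F c = a (F \ 𝔉.fib i) c) : Commute (𝔉.WE E V) (Cl e a) :=
  𝔉.WE_comm fun i hi => 𝔉.Li_comm_of 1 _ fun _ _ _ hl' => 𝔉.Em_comm_Cl e hl' h
    (fun F c hc => h0 F c (by rw [(𝔉.mem_fib i c).1 hc]; exact hi)) (h1 i hi)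

/-- PROOF: `WE_comm`, `Li_comm_of`, `Em_comm_dia`. -/
theorem WE_comm_dia {E : Finset I} (V : Mf 𝔉) {k : Bs C → ℂ} {M : ℝ} (hM : 0 ≤ M)
    (hk : ∀ b, ‖k b‖ ≤ M)
    (h : ∀ i ∈ E, ∀ l ∈ 𝔉.Lt i, ∀ l' ∈ 𝔉.Lt i, ∀ b, 𝔉.st i l b → k (𝔉.upd i l' b) = k b) :
    Commute (𝔉.WE E V) (dia k) :=
  𝔉.WE_comm fun i hi => 𝔉.Li_comm_of 1 _ fun l hl _ hl' => 𝔉.Em_comm_dia hl' hM hk
    (h i hi l hl _ hl')

/-- PROOF: induction on `E` (`WE_insert`): the value at `b` of `Wi V i η` involves only values of `η` at labels `b'` with `b'.S = b.S`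
which agree with `b` off the fibre `i` (`Li_apply_st`, `Li_apply_not`). -/
theorem WE_apply_congr {E : Finset I} (V : Mf 𝔉) {ξ η : L2 (Bs C)} {b : Bs C}
    (h : ∀ b' : Bs C, b'.S = b.S → (∀ c, 𝔉.p c ∉ E → (c ∈ b'.F ↔ c ∈ b.F)) →
      (ξ : Bs C → ℂ) b' = (η : Bs C → ℂ) b') :
    (𝔉.WE E V ξ : Bs C → ℂ) b = (𝔉.WE E V η : Bs C → ℂ) b := by
  classical
  induction E using Finset.induction_on generalizing b with
  | empty =>
    rw [𝔉.WE_empty]
    change (ξ : Bs C → ℂ) b = (η : Bs C → ℂ) b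
    refine h b rfl fun c _ => Iff.rfl
  | insert i E hi ih =>
    rw [𝔉.WE_insert hi]
    change (𝔉.Li i 1 (V.m i) (𝔉.WE E V ξ) : Bs C → ℂ) b =
      (𝔉.Li i 1 (V.m i) (𝔉.WE E V η) : Bs C → ℂ) b
    by_cases hb : ∃ l ∈ 𝔉.Lt i, 𝔉.st i l b
    · obtain ⟨l, hl, hb⟩ := hb
      rw [𝔉.Li_apply_st 1 _ hl hb, 𝔉.Li_apply_st 1 _ hl hb]
      refine Finset.sum_congr rfl fun l' hl' => ?_
      rw [ih fun b' h1 h2 => h b' (by rw [h1, 𝔉.upd_S]) fun c hc => ?_]
      have hc1 : 𝔉.p c ∉ E := fun h3 => hc (Finset.mem_insert_of_mem h3)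
      have hc2 : c ∉ 𝔉.fib i := fun h3 => hc (by
        rw [(𝔉.mem_fib i c).1 h3]
        exact Finset.mem_insert_self _ _)
      have hc3 : c ∉ l'.toFinset := fun h3 => hc2 (𝔉.toFinset_subset hl' h3)
      rw [h2 c hc1, 𝔉.upd_F l' hb.1, Finset.mem_union, Finset.mem_sdiff]
      tauto
    · have hb' : ∀ l ∈ 𝔉.Lt i, ¬ 𝔉.st i l b := fun l hl h3 => hb ⟨l, hl, h3⟩
      rw [𝔉.Li_apply_not 1 _ hb', 𝔉.Li_apply_not 1 _ hb',
        ih fun b' h1 h2 => h b' h1 fun c hc => h2 c fun h3 => hc (Finset.mem_insert_of_mem h3)]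

end Fibr

end Pool.Agent.Lib.MP_aa9b81_an.Rc
end
end

section

/-!
# Rotated sites, part P4a: cylinder operators
-/

open scoped ENNReal Topology ZeroAtInfty
open Function Filter Set

noncomputable section

namespace Pool.Agent.Lib.MP_aa9b81_an.Rc

open Cut Hs

variable {Γ C I : Type} [Group Γ] [MulAction Γ C] [MulAction Γ I] [DecidableEq C]

namespace Fibr

variable (𝔉 : Fibr Γ C I)

/-- The function `φ` of the finite sets `F` is bounded by `1` and depends only on the part of `F` in the fibres of `E`. -/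
structure Cyl (E : Finset I) (φ : Finset C → ℂ) : Prop where
  bdd : ∀ F, ‖φ F‖ ≤ 1
  loc : ∀ F F' : Finset C, (∀ c, 𝔉.p c ∈ E → (c ∈ F ↔ c ∈ F')) → φ F = φ F'

/-- The multiplication by `φ(F)`. -/
def dF (φ : Finset C → ℂ) : BL (Bs C) := dia fun b => φ b.F

/-- The cylinder operator. -/
def Xo (E : Finset I) (V : Mf 𝔉) (φ : Finset C → ℂ) : BL (Bs C) :=
  𝔉.WE E V * dF φ * 𝔉.WE E V

variable {𝔉}

/-- PROOF: `norm_WE_le`, `norm_dia_le`. -/
theorem Cyl.norm_Xo_le {E : Finset I} {φ : Finset C → ℂ} (h : 𝔉.Cyl E φ) (V : Mf 𝔉) :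
    ‖𝔉.Xo E V φ‖ ≤ 1 := by
  have h1 := 𝔉.norm_WE_le E V
  have h2 : ‖dF φ‖ ≤ 1 := norm_dia_le zero_le_one fun b => h.bdd b.F
  have h3 : ‖𝔉.WE E V * dF φ‖ ≤ 1 :=
    (norm_mul_le _ _).trans (mul_le_one₀ h1 (norm_nonneg _) h2)
  exact (norm_mul_le _ _).trans (mul_le_one₀ h3 (norm_nonneg _) h1)

theorem Cyl.mono {E E' : Finset I} {φ : Finset C → ℂ} (h : 𝔉.Cyl E φ) (hE : E ⊆ E') :
    𝔉.Cyl E' φ :=
  ⟨h.bdd, fun F F' hF => h.loc F F' fun c hc => hF c (hE hc)⟩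

theorem Cyl.mul {E : Finset I} {φ φ' : Finset C → ℂ} (h : 𝔉.Cyl E φ) (h' : 𝔉.Cyl E φ') :
    𝔉.Cyl E fun F => φ F * φ' F :=
  ⟨fun F => by
    rw [norm_mul]
    exact mul_le_one₀ (h.bdd F) (norm_nonneg _) (h'.bdd F), fun F F' hF => by
    rw [h.loc F F' hF, h'.loc F F' hF]⟩

/-- PROOF: `mem_gF`, `𝔉.smul`: `p c ∈ gF g E ↔ p (g⁻¹ c) ∈ E`. -/
theorem Cyl.gF {E : Finset I} {φ : Finset C → ℂ} (h : 𝔉.Cyl E φ) (g : Γ) :
    𝔉.Cyl (Hs.gF g E) fun F => φ (Hs.gF g⁻¹ F) := by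
  refine ⟨fun F => h.bdd _, fun F F' hF => h.loc _ _ fun c hc => ?_⟩
  rw [mem_gF, mem_gF, inv_inv]
  refine hF (g • c) ?_
  rw [mem_gF, 𝔉.smul, inv_smul_smul]
  exact hc

/-- PROOF: `WE_sdiff`; `WE (E' ∖ E) V` commutes with `dF φ` (`WE_comm_dia`; `upd i l' b` for `i ∉ E` agrees with `b` on the fibres of
`E`) and with `WE E V` (`WE_comm`, `Li_comm`), and has square `1`. -/
theorem Cyl.Xo_mono {E E' : Finset I} {φ : Finset C → ℂ} (h : 𝔉.Cyl E φ) (hE : E ⊆ E') (V : Mf 𝔉) :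
    𝔉.Xo E' V φ = 𝔉.Xo E V φ := by
  classical
  have hAB : Commute (𝔉.WE (E' \ E) V) (𝔉.WE E V) :=
    𝔉.WE_comm fun i hi => (𝔉.WE_comm fun j hj => 𝔉.Li_comm (fun hji => by
      rw [hji] at hj
      exact (Finset.mem_sdiff.1 hi).2 hj) _ _ _ _).symm
  have hAD : Commute (𝔉.WE (E' \ E) V) (dF φ) := by
    refine 𝔉.WE_comm_dia V zero_le_one (fun b => h.bdd b.F) fun i hi l hl l' hl' b hb => ?_
    refine h.loc _ _ fun c hc => ?_
    have hc2 : c ∉ 𝔉.fib i := fun h3 => (Finset.mem_sdiff.1 hi).2 (by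
      rw [← (𝔉.mem_fib i c).1 h3]
      exact hc)
    have hc3 : c ∉ l'.toFinset := fun h3 => hc2 (𝔉.toFinset_subset hl' h3)
    rw [𝔉.upd_F l' hb.1, Finset.mem_union, Finset.mem_sdiff]
    tauto
  have hAA := 𝔉.WE_mul_self (E' \ E) V
  have hA : Commute (𝔉.WE (E' \ E) V) (𝔉.WE E V * dF φ) := hAB.mul_right hAD
  unfold Xo
  rw [𝔉.WE_sdiff hE V]
  calc 𝔉.WE (E' \ E) V * 𝔉.WE E V * dF φ * (𝔉.WE (E' \ E) V * 𝔉.WE E V)
      = 𝔉.WE (E' \ E) V * ((𝔉.WE E V * dF φ) * 𝔉.WE (E' \ E) V) * 𝔉.WE E V := by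
        simp only [mul_assoc]
    _ = 𝔉.WE (E' \ E) V * (𝔉.WE (E' \ E) V * (𝔉.WE E V * dF φ)) * 𝔉.WE E V := by
        rw [hA.eq]
    _ = (𝔉.WE (E' \ E) V * 𝔉.WE (E' \ E) V) * (𝔉.WE E V * dF φ) * 𝔉.WE E V := by
        simp only [mul_assoc]
    _ = 𝔉.WE E V * dF φ * 𝔉.WE E V := by rw [hAA, one_mul]

/-- PROOF: `WE_mul_self`, `dia` is multiplicative on bounded functions. -/
theorem Cyl.Xo_mul {E : Finset I} {φ φ' : Finset C → ℂ} (h : 𝔉.Cyl E φ) (h' : 𝔉.Cyl E φ')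
    (V : Mf 𝔉) : 𝔉.Xo E V φ * 𝔉.Xo E V φ' = 𝔉.Xo E V fun F => φ F * φ' F := by
  have hWW := 𝔉.WE_mul_self E V
  have hD : dF φ * dF φ' = dF fun F => φ F * φ' F := by
    refine ContinuousLinearMap.ext fun ξ => ?_
    ext b
    change (dF φ (dF φ' ξ) : Bs C → ℂ) b = _
    have h1 : ∀ b : Bs C, ‖φ b.F‖ ≤ 1 := fun b => h.bdd _
    have h2 : ∀ b : Bs C, ‖φ' b.F‖ ≤ 1 := fun b => h'.bdd _
    have h3 : ∀ b : Bs C, ‖φ b.F * φ' b.F‖ ≤ 1 := fun b => (h.mul h').bdd b.F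
    unfold dF
    rw [dia_apply zero_le_one h1, dia_apply zero_le_one h2, dia_apply zero_le_one h3, mul_assoc]
  unfold Xo
  calc 𝔉.WE E V * dF φ * 𝔉.WE E V * (𝔉.WE E V * dF φ' * 𝔉.WE E V)
      = 𝔉.WE E V * (dF φ * (𝔉.WE E V * 𝔉.WE E V) * dF φ') * 𝔉.WE E V := by
        simp only [mul_assoc]
    _ = _ := by rw [hWW, mul_one, hD]

end Fibr

end Pool.Agent.Lib.MP_aa9b81_an.Rc
end
end

section

/-!
# Rotated sites, part L0: cylinder functions on the space of subsets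
-/

open scoped ENNReal Topology ZeroAtInfty
open Function Filter Set

noncomputable section

set_option linter.unusedSectionVars false

namespace Pool.Agent.Lib.MP_aa9b81_an.Rc

open Cut Hs

variable {Γ C I : Type} [Group Γ] [MulAction Γ C] [MulAction Γ I] [DecidableEq C]

/-- The characteristic function of a finite set. -/
def indP (F : Finset C) : Pow C := fun c => decide (c ∈ F)

/-- PROOF: `Pow.smul_apply`, `mem_gF`. -/
theorem indP_smul (g : Γ) (F : Finset C) : g • indP F = indP (gF g F) := by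
  funext c
  change decide (g⁻¹ • c ∈ F) = decide (c ∈ gF g F)
  rw [decide_eq_decide, mem_gF]

/-- The function `φ` is bounded by `1` and depends only on the coordinates in the fibres of `E`. -/
structure CylP (𝔉 : Fibr Γ C I) (E : Finset I) (φ : C₀(Pow C, ℂ)) : Prop where
  bdd : ∀ S, ‖φ S‖ ≤ 1
  loc : ∀ S S' : Pow C, (∀ c, 𝔉.p c ∈ E → S c = S' c) → φ S = φ S'

/-- The function on the finite sets. -/
def phF (φ : C₀(Pow C, ℂ)) : Finset C → ℂ := fun F => φ (indP F)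

variable {𝔉 : Fibr Γ C I}

theorem CylP.cyl {E : Finset I} {φ : C₀(Pow C, ℂ)} (h : CylP 𝔉 E φ) : 𝔉.Cyl E (phF φ) := by
  refine ⟨fun F => h.bdd _, fun F F' hF => h.loc _ _ fun c hc => ?_⟩
  change decide (c ∈ F) = decide (c ∈ F')
  rw [decide_eq_decide]
  exact hF c hc

theorem CylP.mono {E E' : Finset I} {φ : C₀(Pow C, ℂ)} (h : CylP 𝔉 E φ) (hE : E ⊆ E') :
    CylP 𝔉 E' φ := ⟨h.bdd, fun S S' hS => h.loc S S' fun c hc => hS c (hE hc)⟩

theorem CylP.mul {E : Finset I} {φ φ' : C₀(Pow C, ℂ)} (h : CylP 𝔉 E φ) (h' : CylP 𝔉 E φ') :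
    CylP 𝔉 E (φ * φ') := by
  refine ⟨fun S => ?_, fun S S' hS => ?_⟩
  · change ‖φ S * φ' S‖ ≤ 1
    rw [norm_mul]
    exact mul_le_one₀ (h.bdd S) (norm_nonneg _) (h'.bdd S)
  · change φ S * φ' S = φ S' * φ' S'
    rw [h.loc S S' hS, h'.loc S S' hS]

theorem phF_mul (φ φ' : C₀(Pow C, ℂ)) : phF (φ * φ') = fun F => phF φ F * phF φ' F := by
  rfl

/-- PROOF: `shift g φ S = φ (g⁻¹ S)`, `(g⁻¹ S) c = S (g c)`. -/
theorem CylP.shift {E : Finset I} {φ : C₀(Pow C, ℂ)} (h : CylP 𝔉 E φ) (g : Γ) :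
    CylP 𝔉 (gF g E) (Cut.shift g φ) := by
  refine ⟨fun S => ?_, fun S S' hS => ?_⟩
  · rw [shift_apply]
    exact h.bdd _
  · rw [shift_apply, shift_apply]
    refine h.loc _ _ fun c hc => ?_
    rw [Pow.smul_apply, Pow.smul_apply]
    apply hS
    rw [inv_inv, mem_gF, 𝔉.smul, inv_smul_smul]
    exact hc

/-- PROOF: `indP_smul`. -/
theorem phF_shift (g : Γ) (φ : C₀(Pow C, ℂ)) :
    phF (shift g φ) = fun F => phF φ (gF g⁻¹ F) := by
  funext F
  change φ (g⁻¹ • indP F) = φ (indP (gF g⁻¹ F))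
  rw [indP_smul]

omit [MulAction Γ C] [DecidableEq C] [Group Γ] in
/-- Uniform continuity on the compact space of subsets. -/
theorem L0_unif {f : Pow C → ℂ} (hf : Continuous f) {ε : ℝ} (hε : 0 < ε) :
    ∃ L : Finset C, ∀ S S' : Pow C, (∀ c ∈ L, S c = S' c) → ‖f S - f S'‖ ≤ ε := by
  classical
  have h1 : ∀ S : Pow C, ∃ L : Finset C, ∀ S' : Pow C, (∀ c ∈ L, S' c = S c) →
      dist (f S') (f S) < ε / 2 := by
    intro S
    have ho : IsOpen (f ⁻¹' Metric.ball (f S) (ε / 2)) := Metric.isOpen_ball.preimage hf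
    have ho' : @IsOpen (C → Bool) _ (f ⁻¹' Metric.ball (f S) (ε / 2)) := ho
    rw [isOpen_pi_iff] at ho'
    obtain ⟨L, u, hu, hsub⟩ := ho' S (Metric.mem_ball_self (by linarith))
    refine ⟨L, fun S' hS' => ?_⟩
    have h2 : S' ∈ (L : Set C).pi u := fun c hc => by
      rw [hS' c hc]
      exact (hu c hc).2
    exact hsub h2
  choose L hL using h1
  have hopen : ∀ S : Pow C, IsOpen {S' : Pow C | ∀ c ∈ L S, S' c = S c} := by
    intro S
    have e : {S' : Pow C | ∀ c ∈ L S, S' c = S c} = ⋂ c ∈ L S, {S' : Pow C | S' c = S c} := by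
      ext S'
      simp
    rw [e]
    exact isOpen_biInter_finset fun c _ => Pow.isOpen_eval c (S c)
  obtain ⟨t, ht⟩ := isCompact_univ.elim_finite_subcover
    (fun S : Pow C => {S' : Pow C | ∀ c ∈ L S, S' c = S c}) hopen
    (fun S _ => Set.mem_iUnion.2 ⟨S, fun _ _ => rfl⟩)
  refine ⟨t.biUnion L, fun S S' hS => ?_⟩
  obtain ⟨T, hT, hST⟩ := Set.mem_iUnion₂.1 (ht (Set.mem_univ S))
  have h3 := hL T S hST
  have h4 := hL T S' fun c hc => by
    rw [← hST c hc]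
    exact (hS c (Finset.mem_biUnion.2 ⟨T, hT, hc⟩)).symm
  rw [← dist_eq_norm]
  have h5 := dist_triangle_right (f S) (f S') (f T)
  linarith

open Classical in
/-- The restriction of a set to the fibres of `E`. -/
def L0_res (𝔉 : Fibr Γ C I) (E : Finset I) (S : Pow C) : Pow C :=
  fun c => if 𝔉.p c ∈ E then S c else false

theorem L0_res_continuous (𝔉 : Fibr Γ C I) (E : Finset I) : Continuous (L0_res 𝔉 E) := by
  refine continuous_pi fun c => ?_
  unfold L0_res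
  by_cases h : 𝔉.p c ∈ E
  · simp only [if_pos h]
    exact Pow.continuous_eval c
  · simp only [if_neg h]
    exact continuous_const

/-- Density. PROOF: `φ` is uniformly continuous on the compact space `Pow C` (product topology): there is a finite set `L` of coordinates such
that `‖φ S - φ S'‖ ≤ ε` if `S`, `S'` agree on `L` (compactness: each point has a basic neighbourhood on which `φ` varies by less than `ε / 2`; or
the functions `S ↦ φ (S ∩ L)` converge uniformly). Let `E` be the image of `L` and `φ' S = φ (S restricted to the fibres of E) / (‖φ‖ + 1)`,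
`z = ‖φ‖ + 1`; the space is compact, so every continuous function is in `C₀`. -/
theorem exists_cylP (𝔉 : Fibr Γ C I) (φ : C₀(Pow C, ℂ)) {ε : ℝ} (hε : 0 < ε) :
    ∃ (z : ℂ) (E : Finset I) (φ' : C₀(Pow C, ℂ)), CylP 𝔉 E φ' ∧ ‖φ - z • φ'‖ ≤ ε := by
  classical
  obtain ⟨L, hL⟩ := L0_unif φ.continuous hε
  set E : Finset I := L.image 𝔉.p with hE
  have hcont : Continuous fun S : Pow C => φ (L0_res 𝔉 E S) :=
    φ.continuous.comp (L0_res_continuous 𝔉 E)
  have hN : 0 < ‖φ‖ + 1 := by positivity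
  let φ' : C₀(Pow C, ℂ) :=
    { toFun := fun S => ((‖φ‖ + 1 : ℝ) : ℂ)⁻¹ * φ (L0_res 𝔉 E S)
      continuous_toFun := continuous_const.mul hcont
      zero_at_infty' := by
        rw [Filter.cocompact_eq_bot]
        exact Filter.tendsto_bot }
  have hφ' : ∀ S, φ' S = ((‖φ‖ + 1 : ℝ) : ℂ)⁻¹ * φ (L0_res 𝔉 E S) := fun _ => rfl
  refine ⟨((‖φ‖ + 1 : ℝ) : ℂ), E, φ', ⟨fun S => ?_, fun S S' hS => ?_⟩, ?_⟩
  · rw [hφ', norm_mul, norm_inv, Complex.norm_real, Real.norm_eq_abs, abs_of_pos hN,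
      inv_mul_le_iff₀ hN, mul_one]
    have h1 : ‖φ (L0_res 𝔉 E S)‖ ≤ ‖φ‖ := φ.toBCF.norm_coe_le_norm _
    linarith
  · rw [hφ', hφ']
    congr 2
    funext c
    unfold L0_res
    split_ifs with h
    · exact hS c h
    · rfl
  · rw [← ZeroAtInftyContinuousMap.norm_toBCF_eq_norm, BoundedContinuousFunction.norm_le hε.le]
    intro S
    change ‖φ S - ((‖φ‖ + 1 : ℝ) : ℂ) * φ' S‖ ≤ ε
    have h0 : ((‖φ‖ + 1 : ℝ) : ℂ) ≠ 0 := by
      exact_mod_cast hN.ne'
    rw [hφ', mul_inv_cancel_left₀ h0]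
    apply hL
    intro c hc
    unfold L0_res
    rw [if_pos (Finset.mem_image_of_mem _ hc)]

end Pool.Agent.Lib.MP_aa9b81_an.Rc
end
end

section

/-!
# Rotated sites, part P4b: cylinder operators and other operators
-/

open scoped ENNReal Topology ZeroAtInfty
open Function Filter Set

noncomputable section

namespace Pool.Agent.Lib.MP_aa9b81_an.Rc

open Cut Hs

variable {Γ C I : Type} [Group Γ] [MulAction Γ C] [MulAction Γ I] [DecidableEq C]

namespace Fibr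

variable {𝔉 : Fibr Γ C I}

/-- PROOF: `W_mul_WE` twice, `W_mul_dia` (`(g⁻¹ • b).F = gF g⁻¹ b.F`). -/
theorem Cyl.W_mul_Xo (e : C ↪ ℕ) (g : Γ) {E : Finset I} {φ : Finset C → ℂ} (h : 𝔉.Cyl E φ)
    {V V' : Mf 𝔉} (hV : ∀ i, ∀ l ∈ 𝔉.Lt i, ∀ l' ∈ 𝔉.Lt i,
      V'.m (g • i) (l.map (g • ·)) (l'.map (g • ·)) = V.m i l l') :
    (sact e : SAct Γ (Bs C)).W g * 𝔉.Xo E V φ =
      𝔉.Xo (Hs.gF g E) V' (fun F => φ (Hs.gF g⁻¹ F)) * (sact e : SAct Γ (Bs C)).W g := by
  have h1 := 𝔉.W_mul_WE e g E hV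
  have h2 := W_mul_dia (Γ := Γ) e zero_le_one (fun b : Bs C => h.bdd b.F) g
  unfold Xo dF
  rw [← mul_assoc, ← mul_assoc, h1, mul_assoc (𝔉.WE (Hs.gF g E) V'), h2, mul_assoc, mul_assoc,
    h1, ← mul_assoc, ← mul_assoc]
  rfl

/-- PROOF: `WE_comm_Pp`; multiplication operators commute. -/
theorem Cyl.Xo_comm_Pp {E : Finset I} {φ : Finset C → ℂ} (h : 𝔉.Cyl E φ) (V : Mf 𝔉) :
    Commute (𝔉.Xo E V φ) (Pp : BL (Bs C)) := by
  have h1 := 𝔉.WE_comm_Pp E V
  have h2 : Commute (dF φ) (Pp : BL (Bs C)) := by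
    refine ContinuousLinearMap.ext fun ξ => ?_
    ext b
    rw [ContinuousLinearMap.mul_apply, ContinuousLinearMap.mul_apply, dF,
      dia_apply zero_le_one (fun b : Bs C => h.bdd b.F), Pp_apply, Pp_apply,
      dia_apply zero_le_one (fun b : Bs C => h.bdd b.F)]
    split_ifs
    · rfl
    · rw [mul_zero]
  exact (h1.mul_left h2).mul_left h1

/-- PROOF: `WE_comm_Cl`; `dF φ` commutes with `Cl e a`: `(tog c b).F = b.F`. -/
theorem Cyl.Xo_comm_Cl (e : C ↪ ℕ) {E : Finset I} {φ : Finset C → ℂ} (h : 𝔉.Cyl E φ) (V : Mf 𝔉)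
    {a : Finset C → C → ℝ} {M : ℝ} (ha : CB a M) (h0 : ∀ F c, 𝔉.p c ∈ E → a F c = 0)
    (h1 : ∀ i ∈ E, ∀ F c, a F c = a (F \ 𝔉.fib i) c) : Commute (𝔉.Xo E V φ) (Cl e a) := by
  have h2 := 𝔉.WE_comm_Cl e V ha h0 h1
  have h3 : Commute (dF φ) (Cl e a) := by
    refine ContinuousLinearMap.ext fun ξ => ?_
    ext b
    rw [ContinuousLinearMap.mul_apply, ContinuousLinearMap.mul_apply, dF,
      dia_apply zero_le_one (fun b : Bs C => h.bdd b.F), Cl_apply e ha, Cl_apply e ha, clF, clF,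
      Finset.mul_sum]
    refine Finset.sum_congr rfl fun c hc => ?_
    rw [dia_apply zero_le_one (fun b : Bs C => h.bdd b.F), (tog_of_mem hc).1]
    ring
  exact (h2.mul_left h3).mul_left h2

/-- PROOF: `continuous_WE`. -/
theorem Cyl.continuous_Xo {E : Finset I} {φ : Finset C → ℂ} (h : 𝔉.Cyl E φ) {X : Type}
    [TopologicalSpace X] {V : X → Mf 𝔉} (hV : ∀ i l l', Continuous fun x => (V x).m i l l') :
    Continuous fun x => 𝔉.Xo E (V x) φ := by
  have h1 := 𝔉.continuous_WE E hV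
  exact (h1.mul continuous_const).mul h1

/-- PROOF: `WE_apply_congr` twice: if `ξ` vanishes at all labels `b''` with `b''.S = b.S` which agree with `b` off the fibres of `E`, then
`(Xo ξ)(b) = 0`; apply it to the basis vector `bv b'`. -/
theorem Cyl.ker_Xo {E : Finset I} {φ : Finset C → ℂ} (h : 𝔉.Cyl E φ) (V : Mf 𝔉) {b b' : Bs C}
    (hk : ker (𝔉.Xo E V φ) b b' ≠ 0) :
    b'.S = b.S ∧ ∀ c, 𝔉.p c ∉ E → (c ∈ b'.F ↔ c ∈ b.F) := by
  by_contra hcon
  apply hk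
  have hzero : ∀ x : Bs C, ((0 : L2 (Bs C)) : Bs C → ℂ) x = 0 := fun x => rfl
  have key : (𝔉.WE E V (dF φ (𝔉.WE E V (bv b'))) : Bs C → ℂ) b =
      (𝔉.WE E V 0 : Bs C → ℂ) b := by
    refine 𝔉.WE_apply_congr V fun b1 hb1S hb1F => ?_
    rw [dF, dia_apply zero_le_one (fun b : Bs C => h.bdd b.F), hzero]
    have key2 : (𝔉.WE E V (bv b') : Bs C → ℂ) b1 = (𝔉.WE E V 0 : Bs C → ℂ) b1 := by
      refine 𝔉.WE_apply_congr V fun b2 hb2S hb2F => ?_
      rw [hzero, bv]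
      have hne : b2 ≠ b' := by
        rintro rfl
        exact hcon ⟨hb2S.trans hb1S, fun c hc => (hb2F c hc).trans (hb1F c hc)⟩
      simp [lp.single_apply, hne]
    rw [key2, map_zero, hzero, mul_zero]
  rw [map_zero, hzero] at key
  exact key

/-- PROOF: `b'.F ⊆ b.F ∪ (the union of the fibres of E)`. -/
theorem finite_agree (𝔉 : Fibr Γ C I) (E : Finset I) (b : Bs C) :
    {b' : Bs C | b'.S = b.S ∧ ∀ c, 𝔉.p c ∉ E → (c ∈ b'.F ↔ c ∈ b.F)}.Finite := by
  classical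
  refine Set.Finite.of_finite_image (f := fun b' : Bs C => b'.F) ?_ ?_
  · refine ((b.F ∪ E.biUnion 𝔉.fib).powerset.finite_toSet).subset ?_
    rintro _ ⟨b', ⟨_, hb'⟩, rfl⟩
    rw [Finset.mem_coe, Finset.mem_powerset]
    intro c hc
    rw [Finset.mem_union]
    by_cases hcE : 𝔉.p c ∈ E
    · right
      rw [Finset.mem_biUnion]
      exact ⟨𝔉.p c, hcE, (𝔉.mem_fib _ _).2 rfl⟩
    · left
      exact (hb' c hcE).1 hc
  · intro b1 hb1 b2 hb2 h12
    exact Bs.ext h12 (hb1.1.trans hb2.1.symm)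

end Fibr

end Pool.Agent.Lib.MP_aa9b81_an.Rc
end
end

section

/-!
# Rotated sites, part P5b: the end points of the path of laws
-/

open scoped ENNReal Topology ZeroAtInfty
open Function Filter Set

noncomputable section

namespace Pool.Agent.Lib.MP_aa9b81_an.Rc

open Cut Hs

variable {Γ C I : Type} [Group Γ] [MulAction Γ C] [MulAction Γ I] [DecidableEq C]

namespace Fibr

variable (𝔉 : Fibr Γ C I)

private theorem P5b_vth_none (i : I) : 𝔉.vth 0 i none = √2 := by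
  simp [vth]

private theorem P5b_vth_some (i : I) (c : C) : 𝔉.vth 0 i (some c) = 0 := by
  simp [vth]

private theorem P5b_V0_ne (hn : ∀ i, (𝔉.fib i).Nonempty) (i : I) {l l' : Option C} (h : l ≠ l') :
    (𝔉.Vth hn 0).m i l l' = 0 := by
  have h1 : (𝔉.Vth hn 0).m i l l' = -id1 l l' + 𝔉.vth 0 i l * 𝔉.vth 0 i l' := rfl
  rw [h1, id1, if_neg h]
  rcases l with _ | c
  · rcases l' with _ | c'
    · exact absurd rfl h
    · rw [P5b_vth_some]; ring
  · rw [P5b_vth_some]; ring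

private theorem P5b_Wi_st (hn : ∀ i, (𝔉.fib i).Nonempty) {i : I} {l : Option C}
    (hl : l ∈ 𝔉.Lt i) {b : Bs C} (hb : 𝔉.st i l b) (ξ : L2 (Bs C)) :
    (𝔉.Wi (𝔉.Vth hn 0) i ξ : Bs C → ℂ) b =
      (((𝔉.Vth hn 0).m i l l : ℝ) : ℂ) * (ξ : Bs C → ℂ) b := by
  have h1 : (𝔉.Wi (𝔉.Vth hn 0) i ξ : Bs C → ℂ) b =
      ∑ l' ∈ 𝔉.Lt i, (((𝔉.Vth hn 0).m i l l' : ℝ) : ℂ) * (ξ : Bs C → ℂ) (𝔉.upd i l' b) :=
    𝔉.Li_apply_st 1 _ hl hb ξ
  rw [h1, Finset.sum_eq_single_of_mem l hl, 𝔉.upd_of_st hb]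
  intro l' _ hne
  rw [𝔉.P5b_V0_ne hn i (Ne.symm hne)]
  simp

private theorem P5b_comm (hn : ∀ i, (𝔉.fib i).Nonempty) (i : I) {k : Bs C → ℂ} {M : ℝ}
    (hM : 0 ≤ M) (hk : ∀ b, ‖k b‖ ≤ M) : Commute (𝔉.Wi (𝔉.Vth hn 0) i) (dia k) := by
  refine ContinuousLinearMap.ext fun ξ => ?_
  ext b
  have e1 : ((𝔉.Wi (𝔉.Vth hn 0) i * dia k) ξ : L2 (Bs C)) =
      𝔉.Wi (𝔉.Vth hn 0) i (dia k ξ) := rfl
  have e2 : ((dia k * 𝔉.Wi (𝔉.Vth hn 0) i) ξ : L2 (Bs C)) =
      dia k (𝔉.Wi (𝔉.Vth hn 0) i ξ) := rfl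
  rw [e1, e2, dia_apply hM hk]
  by_cases h : ∃ l ∈ 𝔉.Lt i, 𝔉.st i l b
  · obtain ⟨l, hl, hb⟩ := h
    rw [𝔉.P5b_Wi_st hn hl hb, 𝔉.P5b_Wi_st hn hl hb, dia_apply hM hk]
    ring
  · have hb : ∀ l ∈ 𝔉.Lt i, ¬ 𝔉.st i l b := fun l hl hs => h ⟨l, hl, hs⟩
    have h1 : ∀ η : L2 (Bs C), (𝔉.Wi (𝔉.Vth hn 0) i η : Bs C → ℂ) b =
        ((1 : ℝ) : ℂ) * (η : Bs C → ℂ) b := fun η => 𝔉.Li_apply_not 1 _ hb η
    rw [h1, h1, dia_apply hM hk]
    ring

/-- PROOF: at `θ = 0` the matrix is `1` at `(none, none)`, `-1` at `(some c, some c)`, and `0` otherwise (`vth 0 i none = √2`,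
`vth 0 i (some c) = 0`). So `(Wi ξ)(b) = ± ξ(b)` with a sign depending on `b` (`Li_apply_st`, `Li_apply_not`, `upd_of_st`), and
`Wi * dia k * Wi = dia k`; induction on `E` (`WE_insert`, the new factor commutes with the old ones): `WE * dia k * WE = dia k`. -/
theorem Xo_zero (hn : ∀ i, (𝔉.fib i).Nonempty) {E : Finset I} {φ : Finset C → ℂ}
    (h : 𝔉.Cyl E φ) : 𝔉.Xo E (𝔉.Vth hn 0) φ = dF φ := by
  have h1 : Commute (𝔉.WE E (𝔉.Vth hn 0)) (dF φ) :=
    𝔉.WE_comm fun i _ => 𝔉.P5b_comm hn i zero_le_one fun b => h.bdd b.F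
  rw [Xo, h1.eq, mul_assoc, 𝔉.WE_mul_self, mul_one]

/-- The matrix of the projection onto the uniform vector of the fibre. -/
def kk (i : I) (l l' : Option C) : ℝ :=
  if l = none ∨ l' = none then 0 else ((𝔉.fib i).card : ℝ)⁻¹

/-- The matrix unit of the letter `a`. -/
def ea {C : Type} [DecidableEq C] (a l l' : Option C) : ℝ := if l = a ∧ l' = a then 1 else 0

/-- The charge at the fibre `i`: the projection onto the uniform vector of the fibre, and onto the labels which are not even at `i` or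
meet the fibre twice. -/
def Qi (i : I) : BL (Bs C) := 𝔉.Li i 1 (𝔉.kk i)

/-- The product of three matrices with a matrix unit in the middle. -/
private theorem P5b_three {A : Finset (Option C)} {a : Option C} (ha : a ∈ A)
    (m m' : Option C → Option C → ℝ) (l l' : Option C) :
    mm A (mm A m (ea a)) m' l l' = m l a * m' a l' := by
  have h1 : ∀ k ∈ A, k ≠ a → (∑ j ∈ A, m l j * ea a j k) * m' k l' = 0 := by
    intro k _ hk
    have h2 : ∑ j ∈ A, m l j * ea a j k = 0 := by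
      refine Finset.sum_eq_zero fun j _ => ?_
      rw [ea, if_neg (fun h => hk h.2), mul_zero]
    rw [h2, zero_mul]
  have h3 : ∑ j ∈ A, m l j * ea a j a = m l a := by
    rw [Finset.sum_eq_single_of_mem a ha]
    · rw [ea, if_pos ⟨rfl, rfl⟩, mul_one]
    · intro j _ hj
      rw [ea, if_neg (fun h => hj h.1), mul_zero]
  unfold mm
  rw [Finset.sum_eq_single_of_mem a ha h1, h3]

/-- Sandwich of a matrix unit. -/
private theorem P5b_sand (V : Mf 𝔉) {i : I} {a : Option C} (ha : a ∈ 𝔉.Lt i)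
    (h : ∀ l ∈ 𝔉.Lt i, ∀ l' ∈ 𝔉.Lt i, V.m i l a * V.m i a l' = 𝔉.kk i l l') :
    𝔉.Wi V i * 𝔉.Li i 1 (ea a) * 𝔉.Wi V i = 𝔉.Qi i := by
  rw [Wi, 𝔉.Li_mul_Li, 𝔉.Li_mul_Li, mul_one, mul_one, Qi]
  refine 𝔉.Li_congr 1 fun l hl l' hl' => ?_
  rw [P5b_three ha]
  exact h l hl l' hl'

private theorem P5b_card_pos (hn : ∀ i, (𝔉.fib i).Nonempty) (i : I) :
    (0 : ℝ) < ((𝔉.fib i).card : ℝ) := by
  exact_mod_cast Finset.card_pos.2 (hn i)

/-- PROOF: `Li_mul_Li`, `Li_congr`: at `θ = π/2` the matrix `m` has `m none none = 0`, `m none (some c) = 1/√n` (`√2 cos (π/4) = 1`,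
`√2 sin (π/4) = 1`), so `m * ea none * m = kk` (`mm` of three matrices: `m l none * m none l'`). -/
theorem Wi_enn_Wi (hn : ∀ i, (𝔉.fib i).Nonempty) (i : I) :
    𝔉.Wi (𝔉.Vth hn (Real.pi / 2)) i * 𝔉.Li i 1 (ea none) * 𝔉.Wi (𝔉.Vth hn (Real.pi / 2)) i =
      𝔉.Qi i := by
  refine 𝔉.P5b_sand _ (𝔉.none_mem_Lt i) ?_
  have hpi : Real.pi / 2 / 2 = Real.pi / 4 := by ring
  have hs2 : √2 * √2 = (2 : ℝ) := Real.mul_self_sqrt (by norm_num)
  have v0 : 𝔉.vth (Real.pi / 2) i none = 1 := by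
    have : 𝔉.vth (Real.pi / 2) i none = √2 * Real.cos (Real.pi / 2 / 2) := rfl
    rw [this, hpi, Real.cos_pi_div_four]
    linarith
  have v1 : ∀ c, 𝔉.vth (Real.pi / 2) i (some c) = 1 / √((𝔉.fib i).card : ℝ) := by
    intro c
    have : 𝔉.vth (Real.pi / 2) i (some c) =
        √2 * Real.sin (Real.pi / 2 / 2) / √((𝔉.fib i).card : ℝ) := rfl
    rw [this, hpi, Real.sin_pi_div_four]
    have : √2 * (√2 / 2) = (1 : ℝ) := by linarith
    rw [this]
  have m0 : ∀ l, (𝔉.Vth hn (Real.pi / 2)).m i l none =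
      if l = none then 0 else 1 / √((𝔉.fib i).card : ℝ) := by
    intro l
    have : (𝔉.Vth hn (Real.pi / 2)).m i l none =
      -id1 l none + 𝔉.vth (Real.pi / 2) i l * 𝔉.vth (Real.pi / 2) i none := rfl
    rw [this, v0]
    rcases l with _ | c
    · rw [v0, id1, if_pos rfl, if_pos rfl]
      ring
    · rw [v1, id1, if_neg (by simp), if_neg (by simp)]
      ring
  have m1 : ∀ l, (𝔉.Vth hn (Real.pi / 2)).m i none l =
      if l = none then 0 else 1 / √((𝔉.fib i).card : ℝ) := by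
    intro l
    have : (𝔉.Vth hn (Real.pi / 2)).m i none l =
      -id1 none l + 𝔉.vth (Real.pi / 2) i none * 𝔉.vth (Real.pi / 2) i l := rfl
    rw [this, v0]
    rcases l with _ | c
    · rw [v0, id1, if_pos rfl, if_pos rfl]
      ring
    · rw [v1, id1, if_neg (by simp), if_neg (by simp)]
      ring
  intro l _ l' _
  rw [m0, m1, kk]
  have hc := 𝔉.P5b_card_pos hn i
  have hss : √((𝔉.fib i).card : ℝ) * √((𝔉.fib i).card : ℝ) = ((𝔉.fib i).card : ℝ) :=
    Real.mul_self_sqrt hc.le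
  by_cases h1 : l = none
  · rw [if_pos h1, zero_mul, if_pos (Or.inl h1)]
  · by_cases h2 : l' = none
    · rw [if_pos h2, mul_zero, if_pos (Or.inr h2)]
    · rw [if_neg h1, if_neg h2, if_neg (not_or.2 ⟨h1, h2⟩), one_div, ← mul_inv, hss]

/-- The vector `(1/√n, …, 1/√n) + e_{cb i}` of the fibre. -/
def yv (cb : I → C) (i : I) (c : C) : ℝ :=
  1 / √((𝔉.fib i).card : ℝ) + if c = cb i then 1 else 0

/-- The matrix of the reflection which exchanges the uniform vector of the fibre and the basis vector of `cb i`, and fixes `none`. -/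
def mO (cb : I → C) (i : I) : Option C → Option C → ℝ
  | none, none => 1
  | none, some _ => 0
  | some _, none => 0
  | some c, some c' => -(if c = c' then 1 else 0) +
      𝔉.yv cb i c * 𝔉.yv cb i c' / (1 + 1 / √((𝔉.fib i).card : ℝ))

private theorem P5b_sqrt {cb : I → C} (hcb : ∀ i, cb i ∈ 𝔉.fib i) (i : I) :
    0 < √((𝔉.fib i).card : ℝ) ∧
      √((𝔉.fib i).card : ℝ) * √((𝔉.fib i).card : ℝ) = ((𝔉.fib i).card : ℝ) := by
  have hc : (0 : ℝ) < ((𝔉.fib i).card : ℝ) := by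
    exact_mod_cast Finset.card_pos.2 ⟨cb i, hcb i⟩
  exact ⟨Real.sqrt_pos.2 hc, Real.mul_self_sqrt hc.le⟩

private theorem P5b_sum_yv {cb : I → C} (hcb : ∀ i, cb i ∈ 𝔉.fib i) (i : I) :
    ∑ c ∈ 𝔉.fib i, 𝔉.yv cb i c * 𝔉.yv cb i c = 2 * (1 + 1 / √((𝔉.fib i).card : ℝ)) := by
  obtain ⟨hs, hss⟩ := 𝔉.P5b_sqrt hcb i
  have h1 : ∀ c ∈ 𝔉.fib i, 𝔉.yv cb i c * 𝔉.yv cb i c =
      1 / √((𝔉.fib i).card : ℝ) * (1 / √((𝔉.fib i).card : ℝ)) +
        (if c = cb i then 2 * (1 / √((𝔉.fib i).card : ℝ)) + 1 else 0) := by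
    intro c _
    unfold yv
    split_ifs
    · ring
    · ring
  rw [Finset.sum_congr rfl h1, Finset.sum_add_distrib, Finset.sum_const, nsmul_eq_mul,
    Finset.sum_ite_eq' (𝔉.fib i) (cb i), if_pos (hcb i)]
  have h2 : ((𝔉.fib i).card : ℝ) * (1 / √((𝔉.fib i).card : ℝ) * (1 / √((𝔉.fib i).card : ℝ))) =
      1 := by
    rw [one_div, ← mul_inv, hss, mul_inv_cancel₀ (by rw [← hss]; positivity)]
  rw [h2]
  ring

/-- PROOF: `∑_{c ∈ fib i} yv c ^ 2 = 1 + 2/√n + 1 = 2 (1 + 1/√n)`; as `mm_vv` with `v = yv / √(1 + 1/√n)`. -/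
theorem mO_sq {cb : I → C} (hcb : ∀ i, cb i ∈ 𝔉.fib i) (i : I) {l l' : Option C}
    (hl : l ∈ 𝔉.Lt i) (hl' : l' ∈ 𝔉.Lt i) :
    mm (𝔉.Lt i) (𝔉.mO cb i) (𝔉.mO cb i) l l' = id1 l l' := by
  obtain ⟨hs, hss⟩ := 𝔉.P5b_sqrt hcb i
  have hD : 0 < 1 + 1 / √((𝔉.fib i).card : ℝ) := by positivity
  have hsum := 𝔉.P5b_sum_yv hcb i
  have hnot : (none : Option C) ∉ (𝔉.fib i).map Embedding.some := by simp
  have e0 : mm (𝔉.Lt i) (𝔉.mO cb i) (𝔉.mO cb i) l l' = 𝔉.mO cb i l none * 𝔉.mO cb i none l' +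
      ∑ c ∈ 𝔉.fib i, 𝔉.mO cb i l (some c) * 𝔉.mO cb i (some c) l' := by
    unfold mm Lt
    rw [Finset.sum_insert hnot, Finset.sum_map]
    rfl
  rw [e0]
  rcases l with _ | a
  · rcases l' with _ | b
    · have : ∀ c ∈ 𝔉.fib i, 𝔉.mO cb i none (some c) * 𝔉.mO cb i (some c) none = 0 :=
        fun c _ => zero_mul _
      rw [Finset.sum_congr rfl this, Finset.sum_const_zero, id1, if_pos rfl]
      change (1 : ℝ) * 1 + 0 = 1
      ring
    · have : ∀ c ∈ 𝔉.fib i, 𝔉.mO cb i none (some c) * 𝔉.mO cb i (some c) (some b) = 0 :=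
        fun c _ => zero_mul _
      rw [Finset.sum_congr rfl this, Finset.sum_const_zero, id1, if_neg (by simp)]
      change (1 : ℝ) * 0 + 0 = 0
      ring
  · rcases l' with _ | b
    · have : ∀ c ∈ 𝔉.fib i, 𝔉.mO cb i (some a) (some c) * 𝔉.mO cb i (some c) none = 0 :=
        fun c _ => mul_zero _
      rw [Finset.sum_congr rfl this, Finset.sum_const_zero, id1, if_neg (by simp)]
      change (0 : ℝ) * 1 + 0 = 0
      ring
    · have ha : a ∈ 𝔉.fib i := by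
        rw [𝔉.mem_fib]
        exact 𝔉.mem_Lt.1 hl a rfl
      have hb : b ∈ 𝔉.fib i := by
        rw [𝔉.mem_fib]
        exact 𝔉.mem_Lt.1 hl' b rfl
      have h1 : ∀ c ∈ 𝔉.fib i, 𝔉.mO cb i (some a) (some c) * 𝔉.mO cb i (some c) (some b) =
          (if a = c then (if c = b then 1 else 0) - 𝔉.yv cb i c * 𝔉.yv cb i b /
            (1 + 1 / √((𝔉.fib i).card : ℝ)) else 0) -
          (if c = b then 𝔉.yv cb i a * 𝔉.yv cb i c / (1 + 1 / √((𝔉.fib i).card : ℝ)) else 0) +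
          𝔉.yv cb i a * 𝔉.yv cb i b / ((1 + 1 / √((𝔉.fib i).card : ℝ)) *
            (1 + 1 / √((𝔉.fib i).card : ℝ))) * (𝔉.yv cb i c * 𝔉.yv cb i c) := by
        intro c _
        change (-(if a = c then (1 : ℝ) else 0) +
          𝔉.yv cb i a * 𝔉.yv cb i c / (1 + 1 / √((𝔉.fib i).card : ℝ))) *
          (-(if c = b then (1 : ℝ) else 0) +
          𝔉.yv cb i c * 𝔉.yv cb i b / (1 + 1 / √((𝔉.fib i).card : ℝ))) = _
        generalize 1 + 1 / √((𝔉.fib i).card : ℝ) = D at hD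
        split_ifs
        · field_simp
          ring
        · field_simp
          ring
        · field_simp
          ring
        · field_simp
          ring
      rw [Finset.sum_congr rfl h1, Finset.sum_add_distrib, Finset.sum_sub_distrib,
        ← Finset.mul_sum, hsum, Finset.sum_ite_eq (𝔉.fib i) a, if_pos ha,
        Finset.sum_ite_eq' (𝔉.fib i) b, if_pos hb]
      have h0 : 𝔉.mO cb i (some a) none * 𝔉.mO cb i none (some b) = 0 := zero_mul _
      have hid : id1 (some a) (some b) = (if a = b then (1 : ℝ) else 0) := by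
        unfold id1
        by_cases h : a = b
        · rw [if_pos h, if_pos (congrArg some h)]
        · rw [if_neg h, if_neg fun h' => h (Option.some.inj h')]
      rw [h0, hid]
      generalize 1 + 1 / √((𝔉.fib i).card : ℝ) = D at hD
      field_simp
      ring

/-- PROOF: cases; symmetric in `c`, `c'`. -/
theorem mO_symm (cb : I → C) (i : I) (l l' : Option C) : 𝔉.mO cb i l l' = 𝔉.mO cb i l' l := by
  rcases l with _ | a
  · rcases l' with _ | b
    · rfl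
    · rfl
  · rcases l' with _ | b
    · rfl
    · change -(if a = b then (1 : ℝ) else 0) +
        𝔉.yv cb i a * 𝔉.yv cb i b / (1 + 1 / √((𝔉.fib i).card : ℝ)) =
        -(if b = a then (1 : ℝ) else 0) +
        𝔉.yv cb i b * 𝔉.yv cb i a / (1 + 1 / √((𝔉.fib i).card : ℝ))
      by_cases h : a = b
      · rw [if_pos h, if_pos h.symm, mul_comm (𝔉.yv cb i a)]
      · rw [if_neg h, if_neg (Ne.symm h), mul_comm (𝔉.yv cb i a)]

/-- The matrices `mO`. -/
def VO {cb : I → C} (hcb : ∀ i, cb i ∈ 𝔉.fib i) : Mf 𝔉 where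
  m := 𝔉.mO cb
  symm i l _ l' _ := 𝔉.mO_symm cb i l l'
  sq i _ hl _ hl' := 𝔉.mO_sq hcb i hl hl'

/-- PROOF: `Li_mul_Li`, `Li_congr`: `mO (some (cb i)) (some c) = 1/√n` and `mO (some (cb i)) none = 0`, so `mO * ea * mO = kk`. -/
theorem Wi_eO_Wi {cb : I → C} (hcb : ∀ i, cb i ∈ 𝔉.fib i) (i : I) :
    𝔉.Wi (𝔉.VO hcb) i * 𝔉.Li i 1 (ea (some (cb i))) * 𝔉.Wi (𝔉.VO hcb) i = 𝔉.Qi i := by
  obtain ⟨hs, hss⟩ := 𝔉.P5b_sqrt hcb i
  have hD : 0 < 1 + 1 / √((𝔉.fib i).card : ℝ) := by positivity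
  have hmem : some (cb i) ∈ 𝔉.Lt i := by
    refine 𝔉.mem_Lt.2 fun c hc => ?_
    rw [← Option.some.inj hc]
    exact (𝔉.mem_fib _ _).1 (hcb i)
  refine 𝔉.P5b_sand _ hmem ?_
  have m1 : ∀ l, (𝔉.VO hcb).m i (some (cb i)) l =
      if l = none then 0 else 1 / √((𝔉.fib i).card : ℝ) := by
    intro l
    rcases l with _ | c
    · rw [if_pos rfl]
      rfl
    · rw [if_neg (by simp)]
      change -(if cb i = c then (1 : ℝ) else 0) +
        𝔉.yv cb i (cb i) * 𝔉.yv cb i c / (1 + 1 / √((𝔉.fib i).card : ℝ)) = _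
      have h1 : 𝔉.yv cb i (cb i) = 1 + 1 / √((𝔉.fib i).card : ℝ) := by
        unfold yv
        rw [if_pos rfl, add_comm]
      rw [h1, mul_div_assoc, mul_div_cancel₀ _ hD.ne']
      unfold yv
      by_cases h : cb i = c
      · rw [if_pos h, if_pos h.symm]
        ring
      · rw [if_neg h, if_neg (Ne.symm h)]
        ring
  have m0 : ∀ l, (𝔉.VO hcb).m i l (some (cb i)) =
      if l = none then 0 else 1 / √((𝔉.fib i).card : ℝ) := by
    intro l
    rw [← m1 l]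
    exact 𝔉.mO_symm cb i l _
  intro l _ l' _
  rw [m0, m1, kk]
  by_cases h1 : l = none
  · rw [if_pos h1, zero_mul, if_pos (Or.inl h1)]
  · by_cases h2 : l' = none
    · rw [if_pos h2, mul_zero, if_pos (Or.inr h2)]
    · rw [if_neg h1, if_neg h2, if_neg (not_or.2 ⟨h1, h2⟩), one_div, ← mul_inv, hss]

end Fibr

end Pool.Agent.Lib.MP_aa9b81_an.Rc
end
end
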