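import Pool.Agent.Lib.MP_aa9b81_an.Mg.G073
import Pool.Agent.Lib.MP_aa9b81_an.Mg.G075
import Pool.Agent.Lib.MP_aa9b81_an.Mg.G002
import Pool.Agent.Lib.MP_aa9b81_an.Mg.G079
import Pool.Agent.Lib.MP_aa9b81_an.Mg.G005
import Pool.Agent.Lib.MP_aa9b81_an.Mg.G078
import Pool.Agent.Lib.MP_aa9b81_an.Mc.G0

section

/-!
# Hereditary shifts, part D5: relations of the Clifford operators
-/

open scoped ENNReal Topology
open Function

noncomputable section

namespace Pool.Agent.Lib.MP_aa9b81_an.Hs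

open Cut

variable {Γ I : Type} [Group Γ] [MulAction Γ I] [DecidableEq I]

/-- PROOF: `W_mul_dia`, `card_gF`. -/
theorem W_mul_Pp (e : I ↪ ℕ) (g : Γ) : (sact e : SAct Γ (Bs I)).W g * Pp =
    Pp * (sact e : SAct Γ (Bs I)).W g := by
  rw [Pp, W_mul_dia e zero_le_one (fun b => by split_ifs <;> simp) g]
  congr 2
  funext b
  rw [Bs.smul_S, card_gF]

/-- PROOF: as `W_mul_Pp`. -/
theorem W_mul_Pm (e : I ↪ ℕ) (g : Γ) : (sact e : SAct Γ (Bs I)).W g * Pm =
    Pm * (sact e : SAct Γ (Bs I)).W g := by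
  rw [Pm, W_mul_dia e zero_le_one (fun b => by split_ifs <;> simp) g]
  congr 2
  funext b
  rw [Bs.smul_S, card_gF]

end Pool.Agent.Lib.MP_aa9b81_an.Hs
end
end

section

/-!
# Hereditary shifts, part F2a: exact functions are dense
-/

open scoped ENNReal Topology ZeroAtInfty
open Function Filter Set

noncomputable section

namespace Pool.Agent.Lib.MP_aa9b81_an.Hs

open Cut

variable {Γ Z I A : Type} [Group Γ] [MulAction Γ I] [MulAction Γ Z] [TopologicalSpace Z]
    [TopologicalSpace A] {a₀ : A} (Y : Hered Γ Z I A a₀)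

private lemma F2a_cutP_iff (J : Set I) (x x' : Y.St) :
    Y.cutP J x = some x' ↔ x'.1 = (Y.z x, cut a₀ J (Y.y x)) := by
  unfold Hered.cutP
  constructor
  · intro h
    split_ifs at h with h1
    have h2 := Option.some.inj h
    rw [← h2]
  · intro h
    have h1 : ∃ i ∈ J, Y.y x i ≠ a₀ := by
      obtain ⟨i, hi⟩ := x'.2.2
      rw [h] at hi
      by_cases hJ : i ∈ J
      · refine ⟨i, hJ, ?_⟩
        rwa [show (Y.z x, cut a₀ J (Y.y x)).2 i = Y.y x i from cut_of_mem _ hJ] at hi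
      · exact absurd (cut_of_notMem _ hJ) hi
    rw [dif_pos h1]
    exact congrArg some (Subtype.ext h.symm)

private lemma F2a_cutP_none (J : Set I) (x : Y.St) (h : ¬ ∃ i ∈ J, Y.y x i ≠ a₀) :
    Y.cutP J x = none := by
  unfold Hered.cutP
  rw [dif_neg h]

private lemma F2a_compact {X : Type} [TopologicalSpace X] (f : C₀(X, ℂ)) {ε : ℝ} (hε : 0 < ε) :
    IsCompact {x | ε ≤ ‖f x‖} := by
  have h1 : ∀ᶠ x in cocompact X, ‖f x‖ < ε := by
    have h2 := f.zero_at_infty'
    rw [tendsto_zero_iff_norm_tendsto_zero] at h2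
    exact h2.eventually (gt_mem_nhds hε)
  obtain ⟨K, hKc, hKs⟩ := mem_cocompact.1 h1
  refine hKc.of_isClosed_subset (isClosed_le continuous_const f.continuous.norm) ?_
  intro z hz
  by_contra hzK
  have h3 : ‖f z‖ < ε := hKs hzK
  have h4 : ε ≤ ‖f z‖ := hz
  linarith

open Classical in
/-- The function `f`, extended by `0`. -/
private def F2a_ext (f : C₀(Y.St, ℂ)) (x : Z × Cf I A) : ℂ :=
  if h : x ∈ Y.carrier ∧ ∃ i, x.2 i ≠ a₀ then f (⟨x, h⟩ : Y.St) else 0

private lemma F2a_ext_val (f : C₀(Y.St, ℂ)) (x : Y.St) : F2a_ext Y f x.1 = f x := by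
  unfold F2a_ext
  rw [dif_pos x.2]
  rfl

private lemma F2a_ext_zero (f : C₀(Y.St, ℂ)) (x : Z × Cf I A) (h : ∀ i, x.2 i = a₀) :
    F2a_ext Y f x = 0 := by
  unfold F2a_ext
  rw [dif_neg]
  rintro ⟨-, i, hi⟩
  exact hi (h i)

private lemma F2a_optf (f : C₀(Y.St, ℂ)) (J : Set I) (x : Y.St) :
    optf f (Y.cutP J x) = F2a_ext Y f (Y.z x, cut a₀ J (Y.y x)) := by
  cases h : Y.cutP J x with
  | none =>
    rw [optf_none, F2a_ext_zero]
    intro i
    by_contra hi
    change cut a₀ J (Y.y x) i ≠ a₀ at hi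
    have h1 : ∃ i ∈ J, Y.y x i ≠ a₀ := by
      by_cases hJ : i ∈ J
      · rw [cut_of_mem _ hJ] at hi
        exact ⟨i, hJ, hi⟩
      · exact absurd (cut_of_notMem _ hJ) hi
    unfold Hered.cutP at h
    rw [dif_pos h1] at h
    exact Option.some_ne_none _ h
  | some x' =>
    rw [optf_some]
    rw [F2a_cutP_iff] at h
    rw [← h, F2a_ext_val]

private lemma F2a_contOn [T2Space Z] [T2Space A] (f : C₀(Y.St, ℂ)) :
    ContinuousOn (F2a_ext Y f) Y.carrier := by
  intro p hp
  by_cases h1 : ∃ i, p.2 i ≠ a₀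
  · obtain ⟨i, hi⟩ := h1
    have hO : {x : Z × Cf I A | x.2 i ≠ a₀} ∈ 𝓝 p := by
      have h3 : Continuous fun x : Z × Cf I A => x.2 i := (continuous_apply i).comp continuous_snd
      exact (isOpen_compl_singleton.preimage h3).mem_nhds hi
    rw [← continuousWithinAt_inter hO]
    have h2 : ContinuousOn (F2a_ext Y f) {x : Z × Cf I A | x ∈ Y.carrier ∧ ∃ i, x.2 i ≠ a₀} := by
      rw [continuousOn_iff_continuous_domRestrict]
      have h3 : ({x : Z × Cf I A | x ∈ Y.carrier ∧ ∃ i, x.2 i ≠ a₀}.domRestrict (F2a_ext Y f)) =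
          fun x => f (x : Y.St) := funext fun x => F2a_ext_val Y f x
      rw [h3]
      exact f.continuous
    refine (h2 p ⟨hp, i, hi⟩).mono ?_
    rintro x ⟨hx, hx'⟩
    exact ⟨hx, i, hx'⟩
  · have h2 : ∀ i, p.2 i = a₀ := fun i => by
      by_contra h3
      exact h1 ⟨i, h3⟩
    refine ContinuousAt.continuousWithinAt ?_
    rw [ContinuousAt, F2a_ext_zero Y f p h2, Metric.tendsto_nhds]
    intro ε hε
    have hK : IsCompact ((fun x : Y.St => (x.1 : Z × Cf I A)) '' {x | ε ≤ ‖f x‖}) :=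
      (F2a_compact f hε).image continuous_subtype_val
    have hp' : p ∉ (fun x : Y.St => (x.1 : Z × Cf I A)) '' {x | ε ≤ ‖f x‖} := by
      rintro ⟨x, -, rfl⟩
      exact h1 x.2.2
    refine Filter.mem_of_superset (hK.isClosed.isOpen_compl.mem_nhds hp') fun x hx => ?_
    change dist (F2a_ext Y f x) 0 < ε
    rw [dist_zero_right]
    by_cases h3 : x ∈ Y.carrier ∧ ∃ i, x.2 i ≠ a₀
    · have h4 : F2a_ext Y f x = f (⟨x, h3⟩ : Y.St) := F2a_ext_val Y f ⟨x, h3⟩
      rw [h4]
      by_contra h5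
      exact hx ⟨⟨x, h3⟩, not_lt.1 h5, rfl⟩
    · have h4 : F2a_ext Y f x = 0 := by
        unfold F2a_ext
        rw [dif_neg h3]
      rw [h4, norm_zero]
      exact hε

/-- CYLINDER APPROXIMATION. PROOF. Let `F : carrier → ℂ`, `F = f` on `Y.St` and `0` on the zero section: continuous
(the sets `{ε ≤ ‖f‖}` are compact in `Y.St`, so closed in `Z × A^I`). With `2^I = (I → Prop)` or `I → Bool` (compact), the map
`(y, J) ↦ cut J y`, `A^I × 2^I → A^I`, is continuous, so `G(z, y, J) = F(z, cut J y) - F(z, y)` is continuous on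
`carrier × 2^I`, `G(z, y, I) = 0`. The set `{|G| ≥ ε}` is closed, and contained in `{z ∈ Kz}`, `Kz` the compact
projection of `{ε/2 ≤ ‖f‖}`: compact. Its image in `2^I` is compact and does not contain the full set, so a basic
neighbourhood `{J | L ⊆ J}` of the full set is disjoint from it. So `|F(z, cut L y) - F(z, y)| < ε` for all
`(z, y)`. -/
theorem exists_cyl [T2Space Z] [T2Space A] [CompactSpace A] [LocallyCompactSpace Z]
    (f : C₀(Y.St, ℂ)) {ε : ℝ} (hε : 0 < ε) :
    ∃ L : Finset I, ∀ x, ‖optf f (Y.cutP (L : Set I) x) - f x‖ ≤ ε := by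
  classical
  by_contra hcon
  push Not at hcon
  choose x hx using hcon
  have hK : IsCompact (Y.z '' {x | ε / 2 ≤ ‖f x‖}) :=
    (F2a_compact f (half_pos hε)).image Y.continuous_z
  have hmem : ∀ L : Finset I, (x L).1 ∈ (Y.z '' {x | ε / 2 ≤ ‖f x‖}) ×ˢ (univ : Set (Cf I A)) := by
    intro L
    refine ⟨?_, trivial⟩
    by_cases h1 : ε / 2 ≤ ‖f (x L)‖
    · exact ⟨x L, h1, rfl⟩
    · cases h2 : Y.cutP (L : Set I) (x L) with
      | none =>
        have h3 := hx L
        rw [h2, optf_none, zero_sub, norm_neg] at h3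
        exact absurd (by linarith) h1
      | some x' =>
        refine ⟨x', ?_, ?_⟩
        · have h3 := hx L
          rw [h2, optf_some] at h3
          have h4 := norm_sub_le (f x') (f (x L))
          change ε / 2 ≤ ‖f x'‖
          linarith
        · rw [F2a_cutP_iff] at h2
          change x'.1.1 = (x L).1.1
          rw [h2]
          rfl
  let U : Ultrafilter (Finset I) := Ultrafilter.of atTop
  have hU : (U : Filter (Finset I)) ≤ atTop := Ultrafilter.of_le atTop
  obtain ⟨p, hp, hpU⟩ := (hK.prod isCompact_univ).ultrafilter_le_nhds (U.map fun L => (x L).1) (by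
    rw [Filter.le_principal_iff]
    have h1 : ∀ᶠ L : Finset I in (U : Filter (Finset I)),
        (x L).1 ∈ (Y.z '' {x | ε / 2 ≤ ‖f x‖}) ×ˢ (univ : Set (Cf I A)) :=
      Filter.Eventually.of_forall hmem
    exact h1)
  have ht1 : Tendsto (fun L => (x L).1) (U : Filter (Finset I)) (𝓝 p) := hpU
  have hpY : p ∈ Y.carrier := Y.closed.mem_of_tendsto ht1 (Filter.Eventually.of_forall fun L => (x L).2.1)
  have ht2 : Tendsto (fun L : Finset I => ((Y.z (x L), cut a₀ (L : Set I) (Y.y (x L))) : Z × Cf I A))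
      (U : Filter (Finset I)) (𝓝 p) := by
    have h1 : Tendsto (fun L => (x L).1.1) (U : Filter (Finset I)) (𝓝 p.1) :=
      (continuous_fst.tendsto p).comp ht1
    have h2 : Tendsto (fun L => (x L).1.2) (U : Filter (Finset I)) (𝓝 p.2) :=
      (continuous_snd.tendsto p).comp ht1
    have h3 : Tendsto (fun L : Finset I => cut a₀ (L : Set I) (Y.y (x L)))
        (U : Filter (Finset I)) (𝓝 p.2) := by
      refine tendsto_pi_nhds.2 fun i => ?_
      have h4 : Tendsto (fun L => (x L).1.2 i) (U : Filter (Finset I)) (𝓝 (p.2 i)) :=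
        (tendsto_pi_nhds.1 h2) i
      refine h4.congr' ?_
      have h5 : ∀ᶠ L : Finset I in (U : Filter (Finset I)), ({i} : Finset I) ≤ L :=
        (Filter.eventually_ge_atTop ({i} : Finset I)).filter_mono hU
      filter_upwards [h5] with L hL
      have hi : i ∈ (L : Set I) := hL (Finset.mem_singleton_self i)
      rw [cut_of_mem _ hi]
      rfl
    exact h1.prodMk_nhds h3
  have hF := F2a_contOn Y f p hpY
  have hl1 : Tendsto (fun L => F2a_ext Y f (x L).1) (U : Filter (Finset I)) (𝓝 (F2a_ext Y f p)) :=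
    hF.tendsto.comp (tendsto_nhdsWithin_iff.2 ⟨ht1, Filter.Eventually.of_forall fun L => (x L).2.1⟩)
  have hl2 : Tendsto (fun L : Finset I => F2a_ext Y f (Y.z (x L), cut a₀ (L : Set I) (Y.y (x L))))
      (U : Filter (Finset I)) (𝓝 (F2a_ext Y f p)) :=
    hF.tendsto.comp (tendsto_nhdsWithin_iff.2 ⟨ht2, Filter.Eventually.of_forall fun L =>
      Y.cut_mem (L : Set I) (x L).1 (x L).2.1⟩)
  have hl3 := (hl2.sub hl1).norm
  rw [sub_self, norm_zero] at hl3
  have hl4 : ∀ᶠ L : Finset I in (U : Filter (Finset I)),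
      ‖F2a_ext Y f (Y.z (x L), cut a₀ (L : Set I) (Y.y (x L))) - F2a_ext Y f (x L).1‖ < ε :=
    hl3.eventually (gt_mem_nhds hε)
  obtain ⟨L, hL⟩ := hl4.exists
  have h6 := hx L
  rw [F2a_optf] at h6
  rw [F2a_ext_val] at hL
  linarith

end Pool.Agent.Lib.MP_aa9b81_an.Hs
end
end

section

/-!
# Hereditary shifts, part T0a: the rotated representations, finite stages
-/

open scoped ENNReal Topology ZeroAtInfty
open Function Filter Set

noncomputable section

namespace Pool.Agent.Lib.MP_aa9b81_an.Hs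

open Cut

variable {Γ Z I A : Type} [Group Γ] [MulAction Γ I] [MulAction Γ Z] [TopologicalSpace Z]
    [TopologicalSpace A] {a₀ : A} [DecidableEq I] (Y : Hered Γ Z I A a₀)

open Classical in
omit [DecidableEq I] in
/-- The sites of `L` in the support of `x`. -/
def Lx (L : Finset I) (x : Y.St) : Finset I := L.filter fun i => Y.y x i ≠ a₀

omit [DecidableEq I] in
theorem mem_Lx {L : Finset I} {x : Y.St} {i : I} : i ∈ Lx Y L x ↔ i ∈ L ∧ Y.y x i ≠ a₀ := by
  classical
  simp [Lx]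

/-- The rotations at the sites of `L ∩ supp x` (moved by `t` on the slice `t`). -/
def uop (c : ℕ × Bs I ≃ ℕ) (φ : ℝ) (L : Finset I) (x : Y.St) : Op Γ :=
  dgs c fun t => (UK (gF t (Lx Y L x)) φ : BL (Bs I))

/-- The inverse rotations. -/
def uop' (c : ℕ × Bs I ≃ ℕ) (φ : ℝ) (L : Finset I) (x : Y.St) : Op Γ :=
  dgs c fun t => ((UK (gF t (Lx Y L x)) φ)⁻¹ : (BL (Bs I))ˣ).val

theorem sk_uop (c : ℕ × Bs I ≃ ℕ) (φ : ℝ) (L : Finset I) (x : Y.St) (ξ : Hil Γ) (t : Γ) (k : ℕ) :
    sk c t k (uop Y c φ L x ξ) = (UK (gF t (Lx Y L x)) φ : BL (Bs I)) (sk c t k ξ) := by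
  rw [uop]
  exact sk_dgs c zero_le_one (fun t => norm_UK_le _ _) ξ t k

theorem sk_uop' (c : ℕ × Bs I ≃ ℕ) (φ : ℝ) (L : Finset I) (x : Y.St) (ξ : Hil Γ) (t : Γ) (k : ℕ) :
    sk c t k (uop' Y c φ L x ξ) = ((UK (gF t (Lx Y L x)) φ)⁻¹ : (BL (Bs I))ˣ).val (sk c t k ξ) := by
  rw [uop']
  exact sk_dgs c zero_le_one (fun t => norm_UK_inv_le _ _) ξ t k

theorem norm_uop_le (c : ℕ × Bs I ≃ ℕ) (φ : ℝ) (L : Finset I) (x : Y.St) :
    ‖(uop Y c φ L x : Op Γ)‖ ≤ 1 := by
  rw [uop]
  exact norm_dgs_le c zero_le_one (fun t => norm_UK_le _ _)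

theorem norm_uop'_le (c : ℕ × Bs I ≃ ℕ) (φ : ℝ) (L : Finset I) (x : Y.St) :
    ‖(uop' Y c φ L x : Op Γ)‖ ≤ 1 := by
  rw [uop']
  exact norm_dgs_le c zero_le_one (fun t => norm_UK_inv_le _ _)

/-- PROOF: `ext_sk`, `sk_uop`, `sk_uop'`. -/
theorem uop'_mul_uop (c : ℕ × Bs I ≃ ℕ) (φ : ℝ) (L : Finset I) (x : Y.St) :
    (uop' Y c φ L x : Op Γ) * uop Y c φ L x = 1 := by
  refine ContinuousLinearMap.ext fun ξ => ext_sk c fun t k => ?_
  change sk c t k (uop' Y c φ L x (uop Y c φ L x ξ)) = sk c t k ξ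
  rw [sk_uop', sk_uop]
  change (((UK (gF t (Lx Y L x)) φ)⁻¹ : (BL (Bs I))ˣ).val *
    (UK (gF t (Lx Y L x)) φ : BL (Bs I))) (sk c t k ξ) = _
  rw [Units.inv_mul]
  rfl

theorem norm_thL_aux (c : ℕ × Bs I ≃ ℕ) (e : I ↪ ℕ) (φ : ℝ) (L : Finset I) (a : Fam Γ Y.St)
    (x : Y.St) : ‖uop Y c φ L x * psi c (sact e) Y.pi0 a x * uop' Y c φ L x‖ ≤ ‖a‖ := by
  have h1 := norm_uop_le Y (Γ := Γ) c φ L x
  have h2 := norm_uop'_le Y (Γ := Γ) c φ L x
  have h3 := (psi c (sact e) Y.pi0 a).norm_apply_le x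
  have h4 := norm_psi_le c (sact e) Y.pi0 a
  have h5 := norm_mul_le (uop Y c φ L x : Op Γ) (psi c (sact e) Y.pi0 a x)
  have h6 := norm_mul_le (uop Y c φ L x * psi c (sact e) Y.pi0 a x) (uop' Y c φ L x : Op Γ)
  have h7 := norm_nonneg (uop Y c φ L x : Op Γ)
  have h8 := norm_nonneg (uop' Y c φ L x : Op Γ)
  have h9 := norm_nonneg (psi c (sact e) Y.pi0 a x)
  have h10 := norm_nonneg a
  have h11 := norm_nonneg (uop Y c φ L x * psi c (sact e) Y.pi0 a x)
  nlinarith

/-- The representation rotated at the sites of `L`. -/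
def thL (c : ℕ × Bs I ≃ ℕ) (e : I ↪ ℕ) (φ : ℝ) (L : Finset I) (a : Fam Γ Y.St) : Fam Γ Y.St :=
  Fam.mk (fun x => uop Y c φ L x * psi c (sact e) Y.pi0 a x * uop' Y c φ L x) ‖a‖
    (norm_thL_aux Y c e φ L a)

theorem thL_apply (c : ℕ × Bs I ≃ ℕ) (e : I ↪ ℕ) (φ : ℝ) (L : Finset I) (a : Fam Γ Y.St)
    (x : Y.St) : thL Y c e φ L a x = uop Y c φ L x * psi c (sact e) Y.pi0 a x * uop' Y c φ L x :=
  rfl

theorem norm_thL_le (c : ℕ × Bs I ≃ ℕ) (e : I ↪ ℕ) (φ : ℝ) (L : Finset I) (a : Fam Γ Y.St) :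
    ‖thL Y c e φ L a‖ ≤ ‖a‖ := by
  rw [Fam.norm_le_iff (norm_nonneg a)]
  intro x
  rw [thL_apply]
  exact norm_thL_aux Y c e φ L a x

/-- PROOF: `map_add`, distributivity, at each point. -/
theorem thL_add (c : ℕ × Bs I ≃ ℕ) (e : I ↪ ℕ) (φ : ℝ) (L : Finset I) (a a' : Fam Γ Y.St) :
    thL Y c e φ L (a + a') = thL Y c e φ L a + thL Y c e φ L a' := by
  refine Fam.ext fun x => ?_
  rw [Fam.add_apply, thL_apply, thL_apply, thL_apply, map_add, Fam.add_apply, mul_add, add_mul]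

theorem thL_sub (c : ℕ × Bs I ≃ ℕ) (e : I ↪ ℕ) (φ : ℝ) (L : Finset I) (a a' : Fam Γ Y.St) :
    thL Y c e φ L (a - a') = thL Y c e φ L a - thL Y c e φ L a' := by
  refine Fam.ext fun x => ?_
  rw [Fam.sub_apply, thL_apply, thL_apply, thL_apply, map_sub, Fam.sub_apply, mul_sub, sub_mul]

/-- PROOF: `psi_smul`. -/
theorem thL_smul (c : ℕ × Bs I ≃ ℕ) (e : I ↪ ℕ) (φ : ℝ) (L : Finset I) (z : ℂ) (a : Fam Γ Y.St) :
    thL Y c e φ L (z • a) = z • thL Y c e φ L a := by
  refine Fam.ext fun x => ?_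
  rw [Fam.smul_apply, thL_apply, thL_apply, psi_smul, Fam.smul_apply, mul_smul_comm,
    smul_mul_assoc]

/-- PROOF: `uop'_mul_uop`. -/
theorem thL_mul (c : ℕ × Bs I ≃ ℕ) (e : I ↪ ℕ) (φ : ℝ) (L : Finset I) (a a' : Fam Γ Y.St) :
    thL Y c e φ L (a * a') = thL Y c e φ L a * thL Y c e φ L a' := by
  refine Fam.ext fun x => ?_
  rw [Fam.mul_apply, thL_apply, thL_apply, thL_apply, map_mul, Fam.mul_apply]
  have h1 := uop'_mul_uop Y (Γ := Γ) c φ L x
  calc uop Y c φ L x * (psi c (sact e) Y.pi0 a x * psi c (sact e) Y.pi0 a' x) * uop' Y c φ L x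
      = uop Y c φ L x * psi c (sact e) Y.pi0 a x * 1 * psi c (sact e) Y.pi0 a' x *
          uop' Y c φ L x := by rw [mul_one]; simp only [mul_assoc]
    _ = uop Y c φ L x * psi c (sact e) Y.pi0 a x * (uop' Y c φ L x * uop Y c φ L x) *
          psi c (sact e) Y.pi0 a' x * uop' Y c φ L x := by rw [h1]
    _ = _ := by simp only [mul_assoc]

/-- PROOF: `UK_zero`: `uop = 1`. -/
theorem thL_zero_angle (c : ℕ × Bs I ≃ ℕ) (e : I ↪ ℕ) (L : Finset I) (a : Fam Γ Y.St) :
    thL Y c e 0 L a = psi c (sact e) Y.pi0 a := by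
  refine Fam.ext fun x => ?_
  rw [thL_apply]
  have h1 : (uop Y c 0 L x : Op Γ) = 1 := by
    refine ContinuousLinearMap.ext fun ξ => ext_sk c fun t k => ?_
    rw [sk_uop, UK_zero]
    rfl
  have h2 : (uop' Y c 0 L x : Op Γ) = 1 := by
    refine ContinuousLinearMap.ext fun ξ => ext_sk c fun t k => ?_
    rw [sk_uop', UK_zero, inv_one]
    rfl
  rw [h1, h2, one_mul, mul_one]

end Pool.Agent.Lib.MP_aa9b81_an.Hs
end
end

section

/-!
# The machine, part B2: multipliers which vanish at infinity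
-/

open scoped ENNReal Topology
open Function

noncomputable section

namespace Pool.Agent.Lib.MP_aa9b81_an.Mc

open Cut Hs

variable {B P : Type} [Nonempty B] [TopologicalSpace P]

/-- The rows and columns are finite, uniformly in `p`, the entries are continuous, and `n` vanishes at infinity. -/
structure MZ (n : FB B P) : Prop where
  row : ∀ b, ∃ A : Finset B, ∀ p, ∀ b' ∉ A, ker (n p) b b' = 0
  col : ∀ b', ∃ A : Finset B, ∀ p, ∀ b ∉ A, ker (n p) b b' = 0
  cont : ∀ b b', Continuous fun p => ker (n p) b b'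
  zero : ∀ ε : ℝ, 0 < ε → ∃ K : Set P, IsCompact K ∧ ∀ p ∉ K, ‖n p‖ ≤ ε

theorem MZ.mlt {n : FB B P} (h : MZ n) : Mlt (fun _ => Set.univ) n where
  row := h.row
  col := h.col
  cont b b' := (h.cont b b').continuousOn
  cont' b b' := (h.cont b b').continuousOn
  supp _ _ _ _ := ⟨fun _ => trivial, fun _ => trivial⟩

omit [Nonempty B] [TopologicalSpace P] in
/-- PROOF: `ker X b b' = (X (bv b')) b`, `‖bv b'‖ = 1`, `lp.norm_apply_le_norm`. -/
theorem norm_ker_le (X : BL B) (b b' : B) : ‖ker X b b'‖ ≤ ‖X‖ := by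
  classical
  have h1 : ‖(X (bv b') : B → ℂ) b‖ ≤ ‖X (bv b')‖ :=
    lp.norm_apply_le_norm (E := fun _ : B => ℂ) (by simp) _ b
  have h2 : ‖(bv b' : L2 B)‖ = 1 := by
    unfold bv
    rw [lp.norm_single (by simp)]
    simp
  have h3 := X.le_opNorm (bv b')
  rw [h2, mul_one] at h3
  exact h1.trans h3

/-- PROOF: continuous by `cont`; for `ε > 0` off the compact set of `zero` it is at most `ε` (`norm_ker_le`):
`ZeroAtInftyContinuousMap` from `Metric`/`tendsto_cocompact`: `Filter.mem_cocompact`. -/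
theorem MZ.exists_entry {n : FB B P} (h : MZ n) (b b' : B) :
    ∃ G : ZeroAtInftyContinuousMap P ℂ, ∀ p, G p = ker (n p) b b' := by
  refine ⟨⟨⟨fun p => ker (n p) b b', h.cont b b'⟩, ?_⟩, fun p => rfl⟩
  change Filter.Tendsto (fun p => ker (n p) b b') (Filter.cocompact P) (𝓝 0)
  rw [Metric.tendsto_nhds]
  intro ε hε
  obtain ⟨K, hK, hK'⟩ := h.zero (ε / 2) (by linarith)
  refine Filter.mem_cocompact.2 ⟨K, hK, fun p hp => ?_⟩
  change dist (ker (n p) b b') 0 < ε
  rw [dist_zero_right]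
  have h1 := (norm_ker_le (n p) b b').trans (hK' p hp)
  linarith

end Pool.Agent.Lib.MP_aa9b81_an.Mc
end
end

section

/-!
# The machine, part G0: rotations with an angle function
-/

open scoped ENNReal Topology
open Function

noncomputable section

namespace Pool.Agent.Lib.MP_aa9b81_an.Mc

open Cut Hs

variable {Γ I : Type} [Group Γ] [MulAction Γ I] [DecidableEq I]

omit [Group Γ] [MulAction Γ I] in
/-- PROOF: induction on `K` (`UKf_insert`, `Ui_mul`, `Ui_comm`). -/
theorem UKf_add (K : Finset I) (φ φ' : I → ℝ) :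
    UKf K (fun i => φ i + φ' i) = UKf K φ * UKf K φ' := by
  classical
  induction K using Finset.induction_on with
  | empty => rw [UKf_empty, UKf_empty, UKf_empty, one_mul]
  | insert i K hi ih =>
    have h1 : (Uu i (φ i + φ' i) : (BL (Bs I))ˣ) = Uu i (φ i) * Uu i (φ' i) :=
      Units.ext (Ui_mul i (φ i) (φ' i)).symm
    have h2 : Commute (UKf K φ) (Uu i (φ' i)) :=
      Units.ext (UKf_comm (K := K) (φ := φ) (X := Ui i (φ' i))
        fun j _ => Ui_comm j i (φ j) (φ' i)).1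
    rw [UKf_insert hi, UKf_insert hi, UKf_insert hi, ih, h1, mul_assoc, mul_assoc,
      ← mul_assoc (UKf K φ), h2.eq, mul_assoc]

/-- PROOF: induction on `K`: `W_mul_Ui`, `gF g (insert i K) = insert (g i) (gF g K)`, `UKf_insert`; the angle of `g i` is
`φ (g⁻¹ g i) = φ i`. -/
theorem W_mul_UKf (e : I ↪ ℕ) (g : Γ) (K : Finset I) (φ : I → ℝ) :
    (sact e : SAct Γ (Bs I)).W g * (UKf K φ : BL (Bs I)) =
      (UKf (gF g K) (fun i => φ (g⁻¹ • i)) : BL (Bs I)) * (sact e : SAct Γ (Bs I)).W g := by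
  classical
  induction K using Finset.induction_on with
  | empty =>
    have h0 : gF g (∅ : Finset I) = ∅ := by
      ext j
      rw [mem_gF]
      simp
    rw [h0, UKf_empty, UKf_empty, Units.val_one, mul_one, one_mul]
  | insert i K hi ih =>
    have h0 : gF g (insert i K) = insert (g • i) (gF g K) := by
      ext j
      rw [mem_gF, Finset.mem_insert, Finset.mem_insert, mem_gF, inv_smul_eq_iff]
    have h1 : g • i ∉ gF g K := by
      rw [mem_gF, inv_smul_smul]
      exact hi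
    have h2 : ((Uu i (φ i) : (BL (Bs I))ˣ) : BL (Bs I)) = Ui i (φ i) := rfl
    have h3 : ((Uu (g • i) (φ (g⁻¹ • g • i)) : (BL (Bs I))ˣ) : BL (Bs I)) = Ui (g • i) (φ i) := by
      rw [inv_smul_smul]
      rfl
    rw [h0, UKf_insert h1, UKf_insert hi, Units.val_mul, Units.val_mul, h2, h3, ← mul_assoc,
      W_mul_Ui, mul_assoc, ih, mul_assoc]

omit [Group Γ] [MulAction Γ I] in
/-- PROOF: induction on `K` for `φ ↦ UKf K φ` and its inverse (`UKf_insert`, `continuous_Ui`, `continuous_apply`), products. -/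
theorem continuous_UKf (K : Finset I) : (Continuous fun φ : I → ℝ => (UKf K φ : BL (Bs I))) ∧
    Continuous fun φ : I → ℝ => ((UKf K φ)⁻¹ : (BL (Bs I))ˣ).val := by
  classical
  induction K using Finset.induction_on with
  | empty =>
    constructor
    · simp only [UKf_empty]
      exact continuous_const
    · simp only [UKf_empty]
      exact continuous_const
  | insert i L hi ih =>
    constructor
    · have h : (fun φ : I → ℝ => (UKf (insert i L) φ : BL (Bs I))) =
          fun φ => Ui i (φ i) * (UKf L φ : BL (Bs I)) := by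
        funext φ
        rw [UKf_insert hi, Units.val_mul]
        rfl
      rw [h]
      exact ((continuous_Ui i).comp (continuous_apply i)).mul ih.1
    · have h : (fun φ : I → ℝ => ((UKf (insert i L) φ)⁻¹ : (BL (Bs I))ˣ).val) =
          fun φ => ((UKf L φ)⁻¹ : (BL (Bs I))ˣ).val * Ui i (-φ i) := by
        funext φ
        rw [UKf_insert hi, mul_inv_rev, Units.val_mul]
        rfl
      rw [h]
      exact ih.2.mul ((continuous_Ui i).comp (continuous_apply i).neg)

omit [Group Γ] [MulAction Γ I] in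
private lemma G0b_fl_S (i : I) (b : Bs I) : (fl i b).S = b.S := by
  unfold fl
  split_ifs <;> rfl

omit [Group Γ] [MulAction Γ I] in
private lemma G0b_fl_F {i : I} {K : Finset I} (hi : i ∈ K) (b : Bs I) :
    (fl i b).F \ K = b.F \ K := by
  unfold fl
  split_ifs with h
  · rfl
  · rw [Bs.mk_F]
    unfold tg
    split_ifs with h'
    · ext j
      simp only [Finset.mem_sdiff, Finset.mem_erase]
      constructor
      · rintro ⟨⟨_, h2⟩, h3⟩
        exact ⟨h2, h3⟩
      · rintro ⟨h2, h3⟩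
        exact ⟨⟨fun e => h3 (e ▸ hi), h2⟩, h3⟩
    · ext j
      simp only [Finset.mem_sdiff, Finset.mem_insert]
      constructor
      · rintro ⟨h2 | h2, h3⟩
        · exact absurd (h2 ▸ hi) h3
        · exact ⟨h2, h3⟩
      · rintro ⟨h2, h3⟩
        exact ⟨Or.inr h2, h3⟩

omit [Group Γ] [MulAction Γ I] in
/-- the projection onto the span of the class of `b` -/
private def G0b_D (K : Finset I) (b : Bs I) : BL (Bs I) :=
  dia fun a => if a.S = b.S ∧ a.F \ K = b.F \ K then 1 else 0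

omit [Group Γ] [MulAction Γ I] in
private lemma G0b_D_apply (K : Finset I) (b : Bs I) (ξ : L2 (Bs I)) (a : Bs I) :
    (G0b_D K b ξ : Bs I → ℂ) a =
      if a.S = b.S ∧ a.F \ K = b.F \ K then (ξ : Bs I → ℂ) a else 0 := by
  rw [G0b_D, dia_apply zero_le_one (fun b => by split_ifs <;> simp)]
  split_ifs <;> simp

omit [Group Γ] [MulAction Γ I] in
private lemma G0b_comm_Ni (K : Finset I) (b : Bs I) (i : I) :
    Commute (Ni i) (G0b_D K b) := by
  refine ContinuousLinearMap.ext fun ξ => ?_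
  ext a
  change (Ni i (G0b_D K b ξ) : Bs I → ℂ) a = (G0b_D K b (Ni i ξ) : Bs I → ℂ) a
  rw [Ni_apply, G0b_D_apply, G0b_D_apply, Ni_apply]
  split_ifs <;> rfl

omit [Group Γ] [MulAction Γ I] in
private lemma G0b_comm_Ji {K : Finset I} (b : Bs I) {i : I} (hi : i ∈ K) :
    Commute (Ji i) (G0b_D K b) := by
  refine ContinuousLinearMap.ext fun ξ => ?_
  ext a
  change (Ji i (G0b_D K b ξ) : Bs I → ℂ) a = (G0b_D K b (Ji i ξ) : Bs I → ℂ) a
  rw [Ji_apply, G0b_D_apply, G0b_D_apply, Ji_apply, G0b_fl_S, G0b_fl_F hi]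
  split_ifs
  · rfl
  · rw [mul_zero]

omit [Group Γ] [MulAction Γ I] in
private lemma G0b_comm_Ui {K : Finset I} (b : Bs I) {i : I} (hi : i ∈ K) (φ : ℝ) :
    Commute (Ui i φ) (G0b_D K b) := by
  unfold Ui
  exact ((Commute.one_left _).add_left ((G0b_comm_Ni K b i).smul_left _)).add_left
    ((G0b_comm_Ji b hi).smul_left _)

omit [Group Γ] [MulAction Γ I] in
private lemma G0b_ker {K : Finset I} {X : BL (Bs I)} {b : Bs I} (h1 : Commute X (G0b_D K b))
    (b' : Bs I) (h : ker X b b' ≠ 0) : b'.S = b.S ∧ b'.F \ K = b.F \ K := by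
  by_contra hcon
  apply h
  have h2 : G0b_D K b (bv b') = 0 := by
    ext a
    rw [G0b_D_apply]
    split_ifs with h3
    · by_cases h4 : a = b'
      · exact absurd (h4 ▸ h3) hcon
      · classical
        unfold bv
        rw [lp.single_apply_ne _ _ _ h4]
        rfl
    · rfl
  have h3 : (G0b_D K b (X (bv b')) : Bs I → ℂ) b = (X (bv b') : Bs I → ℂ) b := by
    rw [G0b_D_apply, if_pos ⟨rfl, rfl⟩]
  have h4 : G0b_D K b (X (bv b')) = X (G0b_D K b (bv b')) :=
    (DFunLike.congr_fun h1.eq (bv b')).symm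
  unfold ker
  rw [← h3, h4, h2, map_zero]
  rfl

omit [Group Γ] [MulAction Γ I] in
/-- Rows and columns. PROOF: induction on `K` (`UKf_insert`): `Ui i φ` maps the coordinates at `b` and `fl i b` to
themselves: `ker (Ui i φ) b b' ≠ 0` implies `b' = b` or (`i ∉ b.S`, `b' = fl i b`); `ker (X * Y) b b' = ∑ ker X b a ker Y a b'`
for row finite `X` (`apply_eq_sum_ker`). Compare `Hs.ker_Sp_supp`. -/
theorem ker_UKf_supp (K : Finset I) (φ : I → ℝ) (b b' : Bs I) :
    (ker (UKf K φ : BL (Bs I)) b b' ≠ 0 → b'.S = b.S ∧ b'.F \ K = b.F \ K) ∧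
      (ker ((UKf K φ)⁻¹ : (BL (Bs I))ˣ).val b b' ≠ 0 → b'.S = b.S ∧ b'.F \ K = b.F \ K) := by
  have h := UKf_comm (K := K) (φ := φ) (X := G0b_D K b) fun i hi => G0b_comm_Ui b hi (φ i)
  exact ⟨G0b_ker h.1 b', G0b_ker h.2 b'⟩

end Pool.Agent.Lib.MP_aa9b81_an.Mc
end
end

section

/-!
# Rotated sites, part N0: tensor products and local representations, definitions
-/

open scoped ENNReal Topology ZeroAtInfty
open Function Filter Set

noncomputable section

set_option linter.unusedSectionVars false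

namespace Pool.Agent.Lib.MP_aa9b81_an.Rc

open Cut Hs

section Tp

variable {Y A : Type} [TopologicalSpace Y] [TopologicalSpace A]

/-- PROOF: continuity: clear. At infinity: for `ε > 0` the set `{‖h‖ ≥ δ} × {‖φ‖ ≥ δ}` with `δ (‖h‖ + ‖φ‖ + 1) ≤ ε` is compact, and off it
`‖h(y) φ(a)‖ < ε` (or `Filter.coprod_cocompact` and boundedness of both factors). -/
theorem exists_tp (h : C₀(Y, ℂ)) (φ : C₀(A, ℂ)) :
    ∃ F : C₀(Y × A, ℂ), ∀ x, F x = h x.1 * φ x.2 := by
  have hh : ∀ y, ‖h y‖ ≤ ‖h‖ := fun y => h.toBCF.norm_coe_le_norm y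
  have hφ : ∀ a, ‖φ a‖ ≤ ‖φ‖ := fun a => φ.toBCF.norm_coe_le_norm a
  have hz : Tendsto (fun x : Y × A => h x.1 * φ x.2) (cocompact (Y × A)) (nhds 0) := by
    rw [← Filter.coprod_cocompact, Metric.tendsto_nhds]
    intro ε hε
    have n1 := norm_nonneg h
    have n2 := norm_nonneg φ
    have e1 : ∀ᶠ y in cocompact Y, ‖h y‖ < ε / (‖φ‖ + 1) := by
      have h1 := Metric.tendsto_nhds.1 h.zero_at_infty' (ε / (‖φ‖ + 1)) (by positivity)
      filter_upwards [h1] with y hy
      have h2 : dist (h y) 0 < ε / (‖φ‖ + 1) := hy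
      rwa [dist_zero_right] at h2
    have e2 : ∀ᶠ a in cocompact A, ‖φ a‖ < ε / (‖h‖ + 1) := by
      have h1 := Metric.tendsto_nhds.1 φ.zero_at_infty' (ε / (‖h‖ + 1)) (by positivity)
      filter_upwards [h1] with y hy
      have h2 : dist (φ y) 0 < ε / (‖h‖ + 1) := hy
      rwa [dist_zero_right] at h2
    refine Filter.mem_coprod_iff.2 ⟨⟨_, e1, ?_⟩, ⟨_, e2, ?_⟩⟩
    · intro x hx
      have h1 : ‖h x.1‖ < ε / (‖φ‖ + 1) := hx
      rw [lt_div_iff₀ (by positivity)] at h1
      show dist (h x.1 * φ x.2) 0 < ε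
      rw [dist_zero_right, norm_mul]
      have h2 := mul_le_mul_of_nonneg_left (hφ x.2) (norm_nonneg (h x.1))
      nlinarith [norm_nonneg (h x.1)]
    · intro x hx
      have h1 : ‖φ x.2‖ < ε / (‖h‖ + 1) := hx
      rw [lt_div_iff₀ (by positivity)] at h1
      show dist (h x.1 * φ x.2) 0 < ε
      rw [dist_zero_right, norm_mul]
      have h2 := mul_le_mul_of_nonneg_right (hh x.1) (norm_nonneg (φ x.2))
      nlinarith [norm_nonneg (φ x.2)]
  refine ⟨⟨⟨fun x => h x.1 * φ x.2, ?_⟩, hz⟩, fun _ => rfl⟩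
  exact (h.continuous.comp continuous_fst).mul (φ.continuous.comp continuous_snd)

/-- The function `(y, a) ↦ h(y) φ(a)`. -/
def tp (h : C₀(Y, ℂ)) (φ : C₀(A, ℂ)) : C₀(Y × A, ℂ) := (exists_tp h φ).choose

@[simp] lemma tp_apply (h : C₀(Y, ℂ)) (φ : C₀(A, ℂ)) (x : Y × A) : tp h φ x = h x.1 * φ x.2 :=
  (exists_tp h φ).choose_spec x

end Tp

section Sx

variable {B Y : Type} [Nonempty B] [TopologicalSpace Y]

omit [Nonempty B] in
/-- The family `y ↦ h(y) X`. -/
def sx (h : C₀(Y, ℂ)) (X : BL B) : FB B Y :=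
  FB.mk (fun y => h y • X) (‖h‖ * ‖X‖) fun y => by
    rw [norm_smul]
    exact mul_le_mul_of_nonneg_right (h.toBCF.norm_coe_le_norm y) (norm_nonneg X)

omit [Nonempty B] in
@[simp] lemma sx_apply (h : C₀(Y, ℂ)) (X : BL B) (y : Y) : (sx h X : FB B Y) y = h y • X := rfl

end Sx

/-- A locally diagonalisable representation of `C₀(A)` on `ℓ²(B)`: a set `R` of pairs `(φ, X)`, where the operator `X` represents the
function `φ`. -/
structure LRep {Γ B : Type} [Group Γ] [MulAction Γ B] (E : SAct Γ B) (A : Type)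
    [TopologicalSpace A] [MulAction Γ A] [ContinuousConstSMul Γ A] where
  /-- the pairs -/
  R : Set (C₀(A, ℂ) × BL B)
  mul : ∀ x ∈ R, ∀ y ∈ R, (x.1 * y.1, x.2 * y.2) ∈ R
  smul : ∀ z : ℂ, ∀ x ∈ R, (z • x.1, z • x.2) ∈ R
  equi : ∀ g : Γ, ∀ x ∈ R, ∃ X : BL B, (shift g x.1, X) ∈ R ∧ E.W g * x.2 = X * E.W g
  diag : ∀ l : List (C₀(A, ℂ) × BL B), (∀ x ∈ l, x ∈ R) → ∃ (V V' : BL B) (π : B → Option A),
    ‖V‖ ≤ 1 ∧ ‖V'‖ ≤ 1 ∧ ∀ x ∈ l, x.2 = V * (dia fun b => optf x.1 (π b)) * V'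
  dense : ∀ (φ : C₀(A, ℂ)) (ε : ℝ), 0 < ε → ∃ l : List (C₀(A, ℂ) × BL B),
    (∀ x ∈ l, x ∈ R) ∧ ‖φ - (l.map Prod.fst).sum‖ ≤ ε

/-- The data of a generator `(h ⊗ φ) u_g ⊗ e_{ij}`, together with an operator `X`. -/
structure LDat (Γ Y A B : Type) [TopologicalSpace Y] [TopologicalSpace A] where
  /-- the function on `Y` -/
  h : C₀(Y, ℂ)
  /-- the function on `A` and the operator -/
  x : C₀(A, ℂ) × BL B
  /-- group element -/
  g : Γ
  /-- row index -/
  i : ℕ
  /-- column index -/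
  j : ℕ

section LDat

variable {Γ Y A B : Type} [Group Γ] [TopologicalSpace Y] [MulAction Γ Y]
  [TopologicalSpace A] [MulAction Γ A] [MulAction Γ B] [Nonempty B]

/-- The generator of the crossed product of `Y × A`. -/
def LDat.src (d : LDat Γ Y A B) : Fam Γ (Y × A) := gen (tp d.h d.x.1) d.g d.i d.j

/-- The corresponding element of the crossed product of `Y`. -/
def LDat.tgt (c : ℕ × B ≃ ℕ) (E : SAct Γ B) (d : LDat Γ Y A B) : Fam Γ Y :=
  cov c E d.g d.i d.j (sx d.h d.x.2)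

/-- The sum of the generators of a list. -/
def lsrc (l : List (LDat Γ Y A B)) : Fam Γ (Y × A) := (l.map LDat.src).sum

/-- The sum of the corresponding elements. -/
def ltgt (c : ℕ × B ≃ ℕ) (E : SAct Γ B) (l : List (LDat Γ Y A B)) : Fam Γ Y :=
  (l.map (LDat.tgt c E)).sum

end LDat

end Pool.Agent.Lib.MP_aa9b81_an.Rc
end
end

section

/-!
# Rotated sites, part N0a: tensor products of functions
-/

open scoped ENNReal Topology ZeroAtInfty
open Function Filter Set

noncomputable section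

set_option linter.unusedSectionVars false

namespace Pool.Agent.Lib.MP_aa9b81_an.Rc

open Cut Hs

variable {Γ Y A : Type} [Group Γ] [TopologicalSpace Y] [MulAction Γ Y] [TopologicalSpace A]
  [MulAction Γ A]

theorem tp_add (h : C₀(Y, ℂ)) (φ φ' : C₀(A, ℂ)) : tp h (φ + φ') = tp h φ + tp h φ' := by
  ext x
  rw [ZeroAtInftyContinuousMap.add_apply, tp_apply, tp_apply, tp_apply,
    ZeroAtInftyContinuousMap.add_apply, mul_add]

theorem tp_add_left (h h' : C₀(Y, ℂ)) (φ : C₀(A, ℂ)) : tp (h + h') φ = tp h φ + tp h' φ := by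
  ext x
  rw [ZeroAtInftyContinuousMap.add_apply, tp_apply, tp_apply, tp_apply,
    ZeroAtInftyContinuousMap.add_apply, add_mul]

theorem tp_smul_left (z : ℂ) (h : C₀(Y, ℂ)) (φ : C₀(A, ℂ)) : tp (z • h) φ = z • tp h φ := by
  ext x
  rw [ZeroAtInftyContinuousMap.smul_apply, tp_apply, tp_apply,
    ZeroAtInftyContinuousMap.smul_apply, smul_eq_mul, smul_eq_mul, mul_assoc]

theorem tp_smul (z : ℂ) (h : C₀(Y, ℂ)) (φ : C₀(A, ℂ)) : tp h (z • φ) = z • tp h φ := by
  ext x
  rw [ZeroAtInftyContinuousMap.smul_apply, tp_apply, tp_apply,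
    ZeroAtInftyContinuousMap.smul_apply, smul_eq_mul, smul_eq_mul]
  ring

theorem tp_zero (h : C₀(Y, ℂ)) : tp h (0 : C₀(A, ℂ)) = 0 := by
  ext x
  rw [tp_apply, ZeroAtInftyContinuousMap.zero_apply, ZeroAtInftyContinuousMap.zero_apply,
    mul_zero]

theorem tp_mul (h h' : C₀(Y, ℂ)) (φ φ' : C₀(A, ℂ)) : tp h φ * tp h' φ' = tp (h * h') (φ * φ') := by
  ext x
  rw [ZeroAtInftyContinuousMap.mul_apply, tp_apply, tp_apply, tp_apply,
    ZeroAtInftyContinuousMap.mul_apply, ZeroAtInftyContinuousMap.mul_apply]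
  ring

theorem norm_tp_le (h : C₀(Y, ℂ)) (φ : C₀(A, ℂ)) : ‖tp h φ‖ ≤ ‖h‖ * ‖φ‖ := by
  have h1 : ‖(tp h φ).toBCF‖ ≤ ‖h‖ * ‖φ‖ := by
    rw [BoundedContinuousFunction.norm_le (mul_nonneg (norm_nonneg _) (norm_nonneg _))]
    intro x
    have h2 : (tp h φ).toBCF x = h x.1 * φ x.2 := tp_apply h φ x
    rw [h2, norm_mul]
    exact mul_le_mul (h.toBCF.norm_coe_le_norm x.1) (φ.toBCF.norm_coe_le_norm x.2)
      (norm_nonneg _) (norm_nonneg _)
  exact h1

theorem shift_tp [ContinuousConstSMul Γ Y] [ContinuousConstSMul Γ A] (g : Γ) (h : C₀(Y, ℂ))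
    (φ : C₀(A, ℂ)) : shift g (tp h φ) = tp (shift g h) (shift g φ) := by
  ext x
  rw [tp_apply, shift_apply, shift_apply, shift_apply, tp_apply]
  rfl

theorem shift_mul [ContinuousConstSMul Γ A] (g : Γ) (φ φ' : C₀(A, ℂ)) :
    shift g (φ * φ') = shift g φ * shift g φ' := by
  ext x
  rw [ZeroAtInftyContinuousMap.mul_apply, shift_apply, shift_apply, shift_apply,
    ZeroAtInftyContinuousMap.mul_apply]

end Pool.Agent.Lib.MP_aa9b81_an.Rc
end
end

section

/-!
# Rotated sites, part N0b: tensor products are dense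
-/

open scoped ENNReal Topology ZeroAtInfty
open Function Filter Set

noncomputable section

namespace Pool.Agent.Lib.MP_aa9b81_an.Rc

open Cut Hs


section Compact

variable {X Z : Type} [TopologicalSpace X] [TopologicalSpace Z]

/-- A tensor product of continuous functions. -/
private def N0b_ten (x : C(X, ℂ) × C(Z, ℂ)) : C(X × Z, ℂ) :=
  (x.1.comp ContinuousMap.fst) * (x.2.comp ContinuousMap.snd)

private lemma N0b_ten_apply (x : C(X, ℂ) × C(Z, ℂ)) (p : X × Z) :
    N0b_ten x p = x.1 p.1 * x.2 p.2 := rfl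

/-- The finite sums of tensor products. -/
private def N0b_sum (l : List (C(X, ℂ) × C(Z, ℂ))) : C(X × Z, ℂ) := (l.map N0b_ten).sum

private lemma N0b_sum_nil : N0b_sum ([] : List (C(X, ℂ) × C(Z, ℂ))) = 0 := rfl

private lemma N0b_sum_cons (x : C(X, ℂ) × C(Z, ℂ)) (l : List (C(X, ℂ) × C(Z, ℂ))) :
    N0b_sum (x :: l) = N0b_ten x + N0b_sum l := by
  simp [N0b_sum]

private lemma N0b_sum_append (l l' : List (C(X, ℂ) × C(Z, ℂ))) :
    N0b_sum (l ++ l') = N0b_sum l + N0b_sum l' := by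
  simp [N0b_sum]

private lemma N0b_ten_mul (x y : C(X, ℂ) × C(Z, ℂ)) :
    N0b_ten (x * y) = N0b_ten x * N0b_ten y := by
  ext p
  rw [ContinuousMap.mul_apply, N0b_ten_apply, N0b_ten_apply, N0b_ten_apply]
  show x.1 p.1 * y.1 p.1 * (x.2 p.2 * y.2 p.2) = _
  ring

private lemma N0b_mul_one (x : C(X, ℂ) × C(Z, ℂ)) (l : List (C(X, ℂ) × C(Z, ℂ))) :
    N0b_sum (l.map fun y => x * y) = N0b_ten x * N0b_sum l := by
  induction l with
  | nil => rw [List.map_nil, N0b_sum_nil, mul_zero]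
  | cons y l ih => rw [List.map_cons, N0b_sum_cons, ih, N0b_sum_cons, mul_add, N0b_ten_mul]

private lemma N0b_mul (l l' : List (C(X, ℂ) × C(Z, ℂ))) :
    ∃ m : List (C(X, ℂ) × C(Z, ℂ)), N0b_sum m = N0b_sum l * N0b_sum l' := by
  induction l with
  | nil => exact ⟨[], by rw [N0b_sum_nil, zero_mul]⟩
  | cons x l ih =>
    obtain ⟨m, hm⟩ := ih
    exact ⟨(l'.map fun y => x * y) ++ m, by
      rw [N0b_sum_append, hm, N0b_mul_one, N0b_sum_cons, add_mul]⟩

private lemma N0b_star (l : List (C(X, ℂ) × C(Z, ℂ))) :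
    N0b_sum (l.map fun x => (star x.1, star x.2)) = star (N0b_sum l) := by
  induction l with
  | nil => rw [List.map_nil, N0b_sum_nil, star_zero]
  | cons x l ih =>
    rw [List.map_cons, N0b_sum_cons, ih, N0b_sum_cons, star_add]
    congr 1
    ext p
    rw [ContinuousMap.star_apply, N0b_ten_apply, N0b_ten_apply, star_mul']
    rfl

private lemma N0b_const (z : ℂ) :
    N0b_sum [((ContinuousMap.const X z : C(X, ℂ)), (1 : C(Z, ℂ)))] = ContinuousMap.const _ z := by
  ext p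
  rw [N0b_sum_cons, N0b_sum_nil, add_zero, N0b_ten_apply]
  simp

variable (X Z) in
/-- The star algebra of the finite sums of tensor products. -/
private def N0b_alg : StarSubalgebra ℂ C(X × Z, ℂ) where
  carrier := {G | ∃ l, N0b_sum l = G}
  mul_mem' := by
    rintro a b ⟨l, rfl⟩ ⟨l', rfl⟩
    exact N0b_mul l l'
  one_mem' := ⟨_, N0b_const 1⟩
  add_mem' := by
    rintro a b ⟨l, rfl⟩ ⟨l', rfl⟩
    exact ⟨l ++ l', N0b_sum_append l l'⟩
  zero_mem' := ⟨[], rfl⟩
  algebraMap_mem' z := ⟨_, N0b_const z⟩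
  star_mem' := by
    rintro a ⟨l, rfl⟩
    exact ⟨_, N0b_star l⟩

private lemma N0b_sep [CompactSpace X] [T2Space X] [CompactSpace Z] [T2Space Z] :
    (N0b_alg X Z).SeparatesPoints := by
  have hsep : ∀ (W : Type) [TopologicalSpace W] [CompactSpace W] [T2Space W] (x y : W), x ≠ y →
      ∃ f : C(W, ℂ), f x ≠ f y := by
    intro W _ _ _ x y hxy
    obtain ⟨f, hf0, hf1, -⟩ := exists_continuous_zero_one_of_isClosed
      (isClosed_singleton (x := x)) (isClosed_singleton (x := y))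
      (Set.disjoint_singleton.2 hxy)
    refine ⟨⟨fun w => (f w : ℂ), Complex.continuous_ofReal.comp f.continuous⟩, ?_⟩
    have h0 : f x = 0 := hf0 (Set.mem_singleton x)
    have h1 : f y = 1 := hf1 (Set.mem_singleton y)
    show ((f x : ℝ) : ℂ) ≠ ((f y : ℝ) : ℂ)
    rw [h0, h1]
    norm_num
  rintro ⟨x, z⟩ ⟨x', z'⟩ hne
  by_cases hx : x = x'
  · have hz : z ≠ z' := by
      intro h
      exact hne (by rw [hx, h])
    obtain ⟨f, hf⟩ := hsep Z z z' hz
    refine ⟨_, ⟨N0b_sum [((1 : C(X, ℂ)), f)], ⟨_, rfl⟩, rfl⟩, ?_⟩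
    rw [N0b_sum_cons, N0b_sum_nil, add_zero]
    show N0b_ten ((1 : C(X, ℂ)), f) (x, z) ≠ N0b_ten ((1 : C(X, ℂ)), f) (x', z')
    rw [N0b_ten_apply, N0b_ten_apply]
    simpa using hf
  · obtain ⟨f, hf⟩ := hsep X x x' hx
    refine ⟨_, ⟨N0b_sum [(f, (1 : C(Z, ℂ)))], ⟨_, rfl⟩, rfl⟩, ?_⟩
    rw [N0b_sum_cons, N0b_sum_nil, add_zero]
    show N0b_ten (f, (1 : C(Z, ℂ))) (x, z) ≠ N0b_ten (f, (1 : C(Z, ℂ))) (x', z')
    rw [N0b_ten_apply, N0b_ten_apply]
    simpa using hf

private lemma N0b_dense [CompactSpace X] [T2Space X] [CompactSpace Z] [T2Space Z]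
    (G : C(X × Z, ℂ)) {ε : ℝ} (hε : 0 < ε) :
    ∃ l : List (C(X, ℂ) × C(Z, ℂ)), ∀ p, ‖G p - N0b_sum l p‖ < ε := by
  have h1 := ContinuousMap.starSubalgebra_topologicalClosure_eq_top_of_separatesPoints
    (N0b_alg X Z) N0b_sep
  have h2 : G ∈ closure ((N0b_alg X Z : StarSubalgebra ℂ C(X × Z, ℂ)) : Set C(X × Z, ℂ)) := by
    rw [← StarSubalgebra.topologicalClosure_coe, h1]
    exact StarSubalgebra.mem_top
  rw [Metric.mem_closure_iff] at h2
  obtain ⟨_, ⟨l, rfl⟩, hl⟩ := h2 ε hε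
  refine ⟨l, fun p => ?_⟩
  rw [← dist_eq_norm]
  exact lt_of_le_of_lt (ContinuousMap.dist_apply_le_dist p) hl

end Compact

section Ext

variable {Y A : Type} [TopologicalSpace Y] [TopologicalSpace A]

/-- The extension by zero. -/
private def N0b_ext (F : C₀(Y × A, ℂ)) (p : OnePoint Y × OnePoint A) : ℂ :=
  p.1.elim 0 fun y => p.2.elim 0 fun a => F (y, a)

private lemma N0b_ext_coe (F : C₀(Y × A, ℂ)) (y : Y) (a : A) :
    N0b_ext F ((y : OnePoint Y), (a : OnePoint A)) = F (y, a) := rfl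

private lemma N0b_ext_left (F : C₀(Y × A, ℂ)) (b : OnePoint A) :
    N0b_ext F (OnePoint.infty, b) = 0 := rfl

private lemma N0b_ext_right (F : C₀(Y × A, ℂ)) (b : OnePoint Y) :
    N0b_ext F (b, OnePoint.infty) = 0 := by
  induction b using OnePoint.rec with
  | infty => rfl
  | coe y => rfl

private lemma N0b_ext_small [T2Space Y] [LocallyCompactSpace Y] [T2Space A]
    [LocallyCompactSpace A] (F : C₀(Y × A, ℂ)) {p : OnePoint Y × OnePoint A}
    (hp : p.1 = OnePoint.infty ∨ p.2 = OnePoint.infty) : ContinuousAt (N0b_ext F) p := by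
  have h0 : N0b_ext F p = 0 := by
    rcases hp with hp | hp
    · have e : p = (OnePoint.infty, p.2) := by rw [← hp]
      rw [e, N0b_ext_left]
    · have e : p = (p.1, OnePoint.infty) := by rw [← hp]
      rw [e, N0b_ext_right]
  rw [ContinuousAt, h0, Metric.tendsto_nhds]
  intro ε hε
  have h1 : {q : Y × A | ‖F q‖ < ε} ∈ cocompact (Y × A) := by
    have h2 := F.zero_at_infty'
    have h4 := Metric.ball_mem_nhds (0 : ℂ) hε
    have h3 := h2 h4
    refine Filter.mem_of_superset h3 fun q hq => ?_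
    simpa using hq
  obtain ⟨K, hK, hKs⟩ := mem_cocompact.1 h1
  have hc1 : IsClosed ((fun y : Y => (y : OnePoint Y)) '' (Prod.fst '' K)) :=
    ((hK.image continuous_fst).image OnePoint.continuous_coe).isClosed
  have hc2 : IsClosed ((fun y : A => (y : OnePoint A)) '' (Prod.snd '' K)) :=
    ((hK.image continuous_snd).image OnePoint.continuous_coe).isClosed
  have hev : ∀ᶠ q in 𝓝 p, q.1 ∉ (fun y : Y => (y : OnePoint Y)) '' (Prod.fst '' K) ∨
      q.2 ∉ (fun y : A => (y : OnePoint A)) '' (Prod.snd '' K) := by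
    rcases hp with hp | hp
    · have h5 : IsOpen {q : OnePoint Y × OnePoint A |
          q.1 ∉ (fun y : Y => (y : OnePoint Y)) '' (Prod.fst '' K)} :=
        hc1.isOpen_compl.preimage continuous_fst
      have h6 : p ∈ {q : OnePoint Y × OnePoint A |
          q.1 ∉ (fun y : Y => (y : OnePoint Y)) '' (Prod.fst '' K)} := by
        show p.1 ∉ _
        rw [hp]
        rintro ⟨y, -, hy⟩
        exact OnePoint.coe_ne_infty y hy
      filter_upwards [h5.mem_nhds h6] with q hq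
      exact Or.inl hq
    · have h5 : IsOpen {q : OnePoint Y × OnePoint A |
          q.2 ∉ (fun y : A => (y : OnePoint A)) '' (Prod.snd '' K)} :=
        hc2.isOpen_compl.preimage continuous_snd
      have h6 : p ∈ {q : OnePoint Y × OnePoint A |
          q.2 ∉ (fun y : A => (y : OnePoint A)) '' (Prod.snd '' K)} := by
        show p.2 ∉ _
        rw [hp]
        rintro ⟨y, -, hy⟩
        exact OnePoint.coe_ne_infty y hy
      filter_upwards [h5.mem_nhds h6] with q hq
      exact Or.inr hq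
  filter_upwards [hev] with q hq
  rw [dist_zero_right]
  obtain ⟨y, a⟩ := q
  induction y using OnePoint.rec with
  | infty =>
    rw [N0b_ext_left, norm_zero]
    exact hε
  | coe y =>
    induction a using OnePoint.rec with
    | infty =>
      rw [N0b_ext_right, norm_zero]
      exact hε
    | coe a =>
      rw [N0b_ext_coe]
      by_contra hcon
      have hmem : (y, a) ∈ K := by
        by_contra hK'
        exact hcon (hKs hK')
      rcases hq with hq | hq
      · exact hq ⟨y, ⟨(y, a), hmem, rfl⟩, rfl⟩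
      · exact hq ⟨a, ⟨(y, a), hmem, rfl⟩, rfl⟩

private lemma N0b_ext_cont [T2Space Y] [LocallyCompactSpace Y] [T2Space A]
    [LocallyCompactSpace A] (F : C₀(Y × A, ℂ)) : Continuous (N0b_ext F) := by
  rw [continuous_iff_continuousAt]
  rintro ⟨y, a⟩
  induction y using OnePoint.rec with
  | infty => exact N0b_ext_small F (Or.inl rfl)
  | coe y =>
    induction a using OnePoint.rec with
    | infty => exact N0b_ext_small F (Or.inr rfl)
    | coe a =>
      have h1 : Topology.IsOpenEmbedding (Prod.map (fun y : Y => (y : OnePoint Y))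
          (fun a : A => (a : OnePoint A))) :=
        OnePoint.isOpenEmbedding_coe.prodMap OnePoint.isOpenEmbedding_coe
      have h2 : ContinuousAt (N0b_ext F ∘ Prod.map (fun y : Y => (y : OnePoint Y))
          (fun a : A => (a : OnePoint A))) (y, a) := by
        have e : N0b_ext F ∘ Prod.map (fun y : Y => (y : OnePoint Y))
          (fun a : A => (a : OnePoint A)) = F := by
          funext q
          rfl
        rw [e]
        exact F.continuous.continuousAt
      exact (h1.continuousAt_iff (x := (y, a))).1 h2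

/-- Restriction of a function on the compactification. -/
private lemma N0b_res [T2Space Y] (f : C(OnePoint Y, ℂ)) :
    ∃ h : C₀(Y, ℂ), ∀ y, h y = f (y : OnePoint Y) - f OnePoint.infty := by
  refine ⟨⟨⟨fun y => f (y : OnePoint Y) - f OnePoint.infty,
    (f.continuous.comp OnePoint.continuous_coe).sub continuous_const⟩, ?_⟩, fun _ => rfl⟩
  have h1 : Tendsto (fun y : Y => f (y : OnePoint Y)) (cocompact Y) (𝓝 (f OnePoint.infty)) := by
    rw [← Filter.coclosedCompact_eq_cocompact]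
    exact (f.continuous.tendsto _).comp OnePoint.tendsto_coe_infty
  have h2 := h1.sub_const (f OnePoint.infty)
  rw [sub_self] at h2
  exact h2

private lemma N0b_lists [T2Space Y] [T2Space A] (l : List (C(OnePoint Y, ℂ) × C(OnePoint A, ℂ))) :
    ∃ m : List (C₀(Y, ℂ) × C₀(A, ℂ)), ∀ (y : Y) (a : A),
      (m.map fun x => tp x.1 x.2).sum (y, a) =
        N0b_sum l ((y : OnePoint Y), (a : OnePoint A)) - N0b_sum l ((y : OnePoint Y), OnePoint.infty) -
          N0b_sum l (OnePoint.infty, (a : OnePoint A)) + N0b_sum l (OnePoint.infty, OnePoint.infty) := by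
  induction l with
  | nil =>
    refine ⟨[], fun y a => ?_⟩
    rw [N0b_sum_nil]
    simp
  | cons x l ih =>
    obtain ⟨m, hm⟩ := ih
    obtain ⟨h, hh⟩ := N0b_res x.1
    obtain ⟨φ, hφ⟩ := N0b_res x.2
    refine ⟨(h, φ) :: m, fun y a => ?_⟩
    rw [List.map_cons, List.sum_cons]
    have e1 : (tp h φ + (m.map fun x => tp x.1 x.2).sum : C₀(Y × A, ℂ)) (y, a) =
        tp h φ (y, a) + (m.map fun x => tp x.1 x.2).sum (y, a) := rfl
    rw [e1, hm, tp_apply, hh, hφ, N0b_sum_cons, ContinuousMap.add_apply, ContinuousMap.add_apply,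
      ContinuousMap.add_apply, ContinuousMap.add_apply, N0b_ten_apply, N0b_ten_apply,
      N0b_ten_apply, N0b_ten_apply]
    ring

end Ext

/-- The finite sums of tensor products are dense in `C₀(Y × A)`. PROOF: replace `F` by a function with compact support `K` (as in `CB2_dense`,
`Cut.exists_val_near`); `K ⊆ K₁ × K₂`. By compactness there are finitely many open sets `U_k × V_k` which cover `K₁ × K₂` on which `F` varies by at
most `ε`; with a partition of unity of products (finite partitions of unity on `K₁` and on `K₂` subordinate to suitable finite covers, `K₁`, `K₂`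
compact in locally compact Hausdorff spaces; `F` is uniformly close to `∑ F(y_k, a_l) p_k(y) q_l(a)`). Or Stone-Weierstrass on the compact
space of the one point compactifications. -/
theorem tp_dense {Y A : Type} [TopologicalSpace Y] [T2Space Y] [LocallyCompactSpace Y]
    [TopologicalSpace A] [T2Space A] [LocallyCompactSpace A] (F : C₀(Y × A, ℂ)) {ε : ℝ}
    (hε : 0 < ε) : ∃ l : List (C₀(Y, ℂ) × C₀(A, ℂ)), ‖F - (l.map fun x => tp x.1 x.2).sum‖ ≤ ε := by
  obtain ⟨G, hG⟩ : ∃ G : C(OnePoint Y × OnePoint A, ℂ), ∀ p, G p = N0b_ext F p :=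
    ⟨⟨N0b_ext F, N0b_ext_cont F⟩, fun _ => rfl⟩
  obtain ⟨l, hl⟩ := N0b_dense G (show 0 < ε / 4 by positivity)
  obtain ⟨m, hm⟩ := N0b_lists l
  refine ⟨m, ?_⟩
  have hpt : ∀ x : Y × A, ‖F x - (m.map fun x => tp x.1 x.2).sum x‖ ≤ ε := by
    rintro ⟨y, a⟩
    rw [hm]
    have h1 := hl ((y : OnePoint Y), (a : OnePoint A))
    have h2 := hl ((y : OnePoint Y), OnePoint.infty)
    have h3 := hl (OnePoint.infty, (a : OnePoint A))
    have h4 := hl (OnePoint.infty, OnePoint.infty)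
    rw [hG, N0b_ext_coe] at h1
    rw [hG, N0b_ext_right, zero_sub, norm_neg] at h2
    rw [hG, N0b_ext_left, zero_sub, norm_neg] at h3 h4
    have e : F (y, a) - (N0b_sum l ((y : OnePoint Y), (a : OnePoint A)) -
        N0b_sum l ((y : OnePoint Y), OnePoint.infty) - N0b_sum l (OnePoint.infty, (a : OnePoint A)) +
          N0b_sum l (OnePoint.infty, OnePoint.infty)) =
        (F (y, a) - N0b_sum l ((y : OnePoint Y), (a : OnePoint A))) +
        N0b_sum l ((y : OnePoint Y), OnePoint.infty) +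
        (N0b_sum l (OnePoint.infty, (a : OnePoint A)) -
          N0b_sum l (OnePoint.infty, OnePoint.infty)) := by ring
    rw [e]
    refine (norm_add_le _ _).trans ?_
    have h5 := norm_add_le (F (y, a) - N0b_sum l ((y : OnePoint Y), (a : OnePoint A)))
      (N0b_sum l ((y : OnePoint Y), OnePoint.infty))
    have h6 := norm_sub_le (N0b_sum l (OnePoint.infty, (a : OnePoint A)))
      (N0b_sum l (OnePoint.infty, OnePoint.infty))
    linarith
  rw [← ZeroAtInftyContinuousMap.norm_toBCF_eq_norm, BoundedContinuousFunction.norm_le hε.le]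
  exact hpt

end Pool.Agent.Lib.MP_aa9b81_an.Rc
end
end
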