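import Pool.Agent.Lib.MP_aa9b81_an.Mg.G012
import Pool.Agent.Lib.MP_aa9b81_an.Mg.G002
import Pool.Agent.Lib.MP_aa9b81_an.Mg.G005
import Pool.Agent.Lib.MP_aa9b81_an.Mg.G074
import Pool.Agent.Lib.MP_aa9b81_an.Mg.G009
import Pool.Agent.Lib.MP_aa9b81_an.Mg.G004
import Pool.Agent.Lib.MP_aa9b81_an.Mg.G020
import Pool.Agent.Lib.MP_aa9b81_an.Mg.G011

section

/-!
# Rotated sites, part N1: the norm estimate
-/

open scoped ENNReal Topology ZeroAtInfty
open Function Filter Set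

noncomputable section

set_option linter.unusedSectionVars false

namespace Pool.Agent.Lib.MP_aa9b81_an.Rc

open Cut Hs

variable {Γ Y A B : Type} [Group Γ] [TopologicalSpace Y] [MulAction Γ Y]
  [TopologicalSpace A] [MulAction Γ A] [MulAction Γ B] [Nonempty B]

theorem lsrc_nil : lsrc ([] : List (LDat Γ Y A B)) = 0 := rfl

theorem lsrc_cons (d : LDat Γ Y A B) (l : List (LDat Γ Y A B)) :
    lsrc (d :: l) = d.src + lsrc l := by
  simp [lsrc]

theorem lsrc_append (l l' : List (LDat Γ Y A B)) : lsrc (l ++ l') = lsrc l + lsrc l' := by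
  simp [lsrc]

theorem ltgt_nil (c : ℕ × B ≃ ℕ) (E : SAct Γ B) : ltgt c E ([] : List (LDat Γ Y A B)) = 0 := rfl

theorem ltgt_cons (c : ℕ × B ≃ ℕ) (E : SAct Γ B) (d : LDat Γ Y A B) (l : List (LDat Γ Y A B)) :
    ltgt c E (d :: l) = d.tgt c E + ltgt c E l := by
  simp [ltgt]

theorem ltgt_append (c : ℕ × B ≃ ℕ) (E : SAct Γ B) (l l' : List (LDat Γ Y A B)) :
    ltgt c E (l ++ l') = ltgt c E l + ltgt c E l' := by
  simp [ltgt]

/-- The formula for the slices of `ltgt`. PROOF: induction on `l`, `sk_cov`. -/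
theorem sk_ltgt (c : ℕ × B ≃ ℕ) (E : SAct Γ B) (l : List (LDat Γ Y A B)) (y : Y) (ξ : Hil Γ)
    (s : Γ) (k : ℕ) : sk c s k (ltgt c E l y ξ) =
      (l.map fun d => if k = d.i then d.h (s • y) • d.x.2 (E.W d.g (sk c (d.g⁻¹ * s) d.j ξ))
        else 0).sum := by
  induction l with
  | nil => simp [ltgt]
  | cons d l ih =>
    rw [ltgt_cons, List.map_cons, List.sum_cons, Fam.add_apply]
    have h1 : sk c s k (d.tgt c E y ξ) = if k = d.i then
        d.h (s • y) • d.x.2 (E.W d.g (sk c (d.g⁻¹ * s) d.j ξ)) else 0 := by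
      rw [LDat.tgt, sk_cov]
      split_ifs
      · rfl
      · rfl
    rw [← h1, ← ih]
    exact map_add (sk c s k) _ _

open Classical in
/-- The diagonalised formula. Let `V`, `V'`, `π` be as in `LRep.diag` for the pairs `(shift s⁻¹ φ, X_s)`, where `W_{s⁻¹} X = X_s W_{s⁻¹}`. PROOF: `sk_ltgt`,
`map_list_sum`, and for each `d`: `W_{s⁻¹} X W_g ζ = X_s W_{s⁻¹} W_g ζ = X_s W_{(g⁻¹ s)⁻¹} ζ` (`SAct.W_mul`), and `X_s = V dia(..) V'`. -/
theorem W_sk_ltgt (c : ℕ × B ≃ ℕ) (E : SAct Γ B) [ContinuousConstSMul Γ A]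
    (l : List (LDat Γ Y A B)) {V V' : BL B}
    {π : B → Option A} (s : Γ) (h : ∀ d ∈ l, E.W s⁻¹ * d.x.2 =
      V * (dia fun b => optf (shift s⁻¹ d.x.1) (π b)) * V' * E.W s⁻¹) (y : Y) (ξ : Hil Γ) (k : ℕ) :
    E.W s⁻¹ (sk c s k (ltgt c E l y ξ)) =
      V (l.map fun d => if k = d.i then d.h (s • y) • (dia (fun b => optf (shift s⁻¹ d.x.1) (π b))
        (V' (E.W (d.g⁻¹ * s)⁻¹ (sk c (d.g⁻¹ * s) d.j ξ)))) else 0).sum := by
  rw [sk_ltgt, map_list_sum, map_list_sum, List.map_map, List.map_map]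
  refine congrArg List.sum (List.map_congr_left fun d hd => ?_)
  simp only [Function.comp_apply]
  split_ifs with hk
  · rw [map_smul (E.W s⁻¹), map_smul V]
    refine congrArg (d.h (s • y) • ·) ?_
    have h1 := congrArg (fun T : BL B => T (E.W d.g (sk c (d.g⁻¹ * s) d.j ξ))) (h d hd)
    have h1' : E.W s⁻¹ (d.x.2 (E.W d.g (sk c (d.g⁻¹ * s) d.j ξ))) =
        V (dia (fun b => optf (shift s⁻¹ d.x.1) (π b)) (V' (E.W s⁻¹
          (E.W d.g (sk c (d.g⁻¹ * s) d.j ξ))))) := h1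
    rw [h1']
    have h2 : E.W s⁻¹ (E.W d.g (sk c (d.g⁻¹ * s) d.j ξ)) =
        E.W (d.g⁻¹ * s)⁻¹ (sk c (d.g⁻¹ * s) d.j ξ) := by
      have h3 : (d.g⁻¹ * s)⁻¹ = s⁻¹ * d.g := by group
      rw [h3, E.W_mul]
      rfl
    rw [h2]
  · rw [map_zero, map_zero]

end Pool.Agent.Lib.MP_aa9b81_an.Rc
end
end

section

/-!
# Rotated sites, part N3: the graph of the representation
-/

open scoped ENNReal Topology ZeroAtInfty
open Function Filter Set

noncomputable section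

set_option linter.unusedSectionVars false

namespace Pool.Agent.Lib.MP_aa9b81_an.Rc

open Cut Hs

variable {Γ Y A B : Type} [Group Γ] [TopologicalSpace Y] [MulAction Γ Y]
  [TopologicalSpace A] [MulAction Γ A] [ContinuousConstSMul Γ A] [MulAction Γ B] [Nonempty B]

private lemma N3_sx_smul (z : ℂ) (h : C₀(Y, ℂ)) (X : BL B) :
    (sx (z • h) X : FB B Y) = z • sx h X := by
  refine FB.ext fun y => ?_
  rw [sx_apply, FB.smul_apply, sx_apply]
  have e1 : (z • h) y = z * h y := rfl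
  rw [e1, mul_smul]

private lemma N3_sx_mul [ContinuousConstSMul Γ Y] {E : SAct Γ B} {g : Γ} {h h' : C₀(Y, ℂ)}
    {X X' X'' : BL B} (he : E.W g * X' = X'' * E.W g) :
    (sx (h * shift g h') (X * X'') : FB B Y) = sx h X * E.Ad g (sx h' X') := by
  refine FB.ext fun y => ?_
  rw [sx_apply, FB.mul_apply, sx_apply, SAct.Ad_apply, sx_apply]
  have e1 : (h * shift g h') y = h y * h' (g⁻¹ • y) := rfl
  have e2 : E.W g * (h' (g⁻¹ • y) • X') * E.W g⁻¹ = h' (g⁻¹ • y) • X'' := by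
    rw [mul_smul_comm, smul_mul_assoc, he, mul_assoc, E.W_mul_inv, mul_one]
  rw [e1, e2, smul_mul_smul_comm]

private lemma N3_tp_sub (h : C₀(Y, ℂ)) (φ φ' : C₀(A, ℂ)) :
    tp h (φ - φ') = tp h φ - tp h φ' := by
  have e1 := tp_add h (φ - φ') φ'
  rw [sub_add_cancel] at e1
  rw [e1, add_sub_cancel_right]

private lemma N3_lsrc_map (h : C₀(Y, ℂ)) (g : Γ) (i j : ℕ) (k : List (C₀(A, ℂ) × BL B)) :
    lsrc (k.map fun x => (⟨h, x, g, i, j⟩ : LDat Γ Y A B)) =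
      gen (tp h (k.map Prod.fst).sum) g i j := by
  induction k with
  | nil =>
    rw [List.map_nil, lsrc_nil, List.map_nil, List.sum_nil, tp_zero, gen_zero]
  | cons x k ih =>
    rw [List.map_cons, lsrc_cons, ih, List.map_cons, List.sum_cons, tp_add, gen_add]
    rfl

private lemma N3_pair {E : SAct Γ B} (L : LRep E A) (h : C₀(Y, ℂ)) (φ : C₀(A, ℂ)) (g : Γ)
    (i j : ℕ) {δ : ℝ} (hδ : 0 < δ) : ∃ l : List (LDat Γ Y A B), (∀ d ∈ l, d.x ∈ L.R) ∧
      ‖gen (tp h φ) g i j - lsrc l‖ ≤ δ := by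
  obtain ⟨k, hk, hk'⟩ := L.dense φ (δ / (‖h‖ + 1)) (by positivity)
  refine ⟨k.map fun x => (⟨h, x, g, i, j⟩ : LDat Γ Y A B), ?_, ?_⟩
  · intro d hd
    rw [List.mem_map] at hd
    obtain ⟨x, hx, rfl⟩ := hd
    exact hk x hx
  · rw [N3_lsrc_map, ← gen_sub, ← N3_tp_sub]
    refine (norm_gen_le _ _ _ _).trans ((norm_tp_le _ _).trans ?_)
    have h1 : 0 < ‖h‖ + 1 := by positivity
    calc ‖h‖ * ‖φ - (k.map Prod.fst).sum‖ ≤ (‖h‖ + 1) * (δ / (‖h‖ + 1)) :=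
          mul_le_mul (by linarith) hk' (norm_nonneg _) h1.le
      _ = δ := by field_simp

private lemma N3_pairs {E : SAct Γ B} (L : LRep E A) (g : Γ) (i j : ℕ)
    (m : List (C₀(Y, ℂ) × C₀(A, ℂ))) : ∀ {δ : ℝ}, 0 < δ → ∃ l : List (LDat Γ Y A B),
      (∀ d ∈ l, d.x ∈ L.R) ∧ ‖gen (m.map fun x => tp x.1 x.2).sum g i j - lsrc l‖ ≤ δ := by
  induction m with
  | nil =>
    intro δ hδ
    refine ⟨[], fun d hd => absurd hd (List.not_mem_nil), ?_⟩
    rw [List.map_nil, List.sum_nil, gen_zero, lsrc_nil, sub_zero, norm_zero]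
    exact hδ.le
  | cons x m ih =>
    intro δ hδ
    obtain ⟨l₁, h1, h1'⟩ := N3_pair L x.1 x.2 g i j (half_pos hδ)
    obtain ⟨l₂, h2, h2'⟩ := ih (half_pos hδ)
    refine ⟨l₁ ++ l₂, fun d hd => ?_, ?_⟩
    · rcases List.mem_append.1 hd with hd | hd
      · exact h1 d hd
      · exact h2 d hd
    · rw [List.map_cons, List.sum_cons, gen_add, lsrc_append, add_sub_add_comm]
      refine (norm_add_le _ _).trans ?_
      linarith

private lemma N3_val [T2Space Y] [LocallyCompactSpace Y] [T2Space A]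
    [LocallyCompactSpace A] {E : SAct Γ B} (L : LRep E A) (m : List (Dat Γ (Y × A))) :
    ∀ {δ : ℝ}, 0 < δ → ∃ l : List (LDat Γ Y A B),
      (∀ d ∈ l, d.x ∈ L.R) ∧ ‖val m - lsrc l‖ ≤ δ := by
  induction m with
  | nil =>
    intro δ hδ
    refine ⟨[], fun d hd => absurd hd (List.not_mem_nil), ?_⟩
    rw [val_nil, lsrc_nil, sub_zero, norm_zero]
    exact hδ.le
  | cons x m ih =>
    intro δ hδ
    obtain ⟨k, hk⟩ := tp_dense x.f (show 0 < δ / 4 by positivity)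
    obtain ⟨l₁, h1, h1'⟩ := N3_pairs L x.g x.i x.j k (show 0 < δ / 4 by positivity)
    obtain ⟨l₂, h2, h2'⟩ := ih (half_pos hδ)
    refine ⟨l₁ ++ l₂, fun d hd => ?_, ?_⟩
    · rcases List.mem_append.1 hd with hd | hd
      · exact h1 d hd
      · exact h2 d hd
    · rw [val_cons, lsrc_append, add_sub_add_comm]
      refine (norm_add_le _ _).trans ?_
      have h3 : ‖(x.gen : Fam Γ (Y × A)) - gen (k.map fun x => tp x.1 x.2).sum x.g x.i x.j‖ ≤
          δ / 4 := by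
        have e1 : (x.gen : Fam Γ (Y × A)) = gen x.f x.g x.i x.j := rfl
        rw [e1, ← gen_sub]
        exact (norm_gen_le _ _ _ _).trans hk
      have h4 : ‖(x.gen : Fam Γ (Y × A)) - lsrc l₁‖ ≤ δ / 4 + δ / 4 := by
        have e2 : (x.gen : Fam Γ (Y × A)) - lsrc l₁ =
            (x.gen - gen (k.map fun x => tp x.1 x.2).sum x.g x.i x.j) +
              (gen (k.map fun x => tp x.1 x.2).sum x.g x.i x.j - lsrc l₁) := by abel
        rw [e2]
        exact (norm_add_le _ _).trans (add_le_add h3 h1')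
      linarith

private lemma N3_mul_one [ContinuousConstSMul Γ Y] {E : SAct Γ B} (L : LRep E A)
    (c : ℕ × B ≃ ℕ) (hdat : ∀ {d d' : LDat Γ Y A B}, d.x ∈ L.R → d'.x ∈ L.R →
      ∃ l : List (LDat Γ Y A B), (∀ d ∈ l, d.x ∈ L.R) ∧ lsrc l = d.src * d'.src ∧
      ltgt c E l = d.tgt c E * d'.tgt c E) {d : LDat Γ Y A B} (hd : d.x ∈ L.R)
    (l' : List (LDat Γ Y A B)) :
    (∀ d ∈ l', d.x ∈ L.R) → ∃ m : List (LDat Γ Y A B), (∀ d ∈ m, d.x ∈ L.R) ∧
      lsrc m = d.src * lsrc l' ∧ ltgt c E m = d.tgt c E * ltgt c E l' := by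
  induction l' with
  | nil =>
    intro _
    refine ⟨[], fun d hd => absurd hd (List.not_mem_nil), ?_, ?_⟩
    · rw [lsrc_nil, mul_zero]
    · rw [ltgt_nil, mul_zero]
  | cons x l ih =>
    intro hl
    obtain ⟨l₁, h1, h1', h1''⟩ := hdat hd (hl x (List.mem_cons_self))
    obtain ⟨l₂, h2, h2', h2''⟩ := ih fun d hd => hl d (List.mem_cons_of_mem _ hd)
    refine ⟨l₁ ++ l₂, fun d hd => ?_, ?_, ?_⟩
    · rcases List.mem_append.1 hd with hd | hd
      · exact h1 d hd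
      · exact h2 d hd
    · rw [lsrc_append, h1', h2', lsrc_cons, mul_add]
    · rw [ltgt_append, h1'', h2'', ltgt_cons, mul_add]


theorem lsrc_mem (l : List (LDat Γ Y A B)) : lsrc l ∈ cp Γ (Y × A) := by
  induction l with
  | nil =>
    rw [lsrc_nil]
    exact zero_mem _
  | cons d l ih =>
    rw [lsrc_cons]
    refine add_mem ?_ ih
    exact NonUnitalSubalgebra.le_topologicalClosure _
      (NonUnitalAlgebra.subset_adjoin ℂ ⟨_, _, _, _, rfl⟩)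

omit [MulAction Γ A] [ContinuousConstSMul Γ A] [MulAction Γ B] [Group Γ] [MulAction Γ Y] in
theorem norm_sx_le (h : C₀(Y, ℂ)) (X : BL B) : ‖(sx h X : FB B Y)‖ ≤ ‖h‖ * ‖X‖ := by
  rw [FB.norm_le_iff (by positivity)]
  intro y
  rw [sx_apply, norm_smul]
  exact mul_le_mul_of_nonneg_right (h.toBCF.norm_coe_le_norm y) (norm_nonneg X)

/-- PROOF: `cov_mul_cov`; `E.Ad g (sx h X) = sx (shift g h) X'` if `E.W g * X = X' * E.W g` (`SAct.W_mul_inv`); `gen_mul_gen`, `tp_mul`, `shift_tp`.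
(For `d.j ≠ d'.i` both products are `0`.) -/
theorem LRep.exists_mul_dat [ContinuousConstSMul Γ Y] {E : SAct Γ B} (L : LRep E A)
    (c : ℕ × B ≃ ℕ) {d d' : LDat Γ Y A B} (hd : d.x ∈ L.R) (hd' : d'.x ∈ L.R) :
    ∃ l : List (LDat Γ Y A B), (∀ d ∈ l, d.x ∈ L.R) ∧ lsrc l = d.src * d'.src ∧
      ltgt c E l = d.tgt c E * d'.tgt c E := by
  by_cases hj : d.j = d'.i
  · obtain ⟨X, hX, hX'⟩ := L.equi d.g d'.x hd'
    refine ⟨[⟨d.h * shift d.g d'.h, (d.x.1 * shift d.g d'.x.1, d.x.2 * X), d.g * d'.g, d.i,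
      d'.j⟩], ?_, ?_, ?_⟩
    · intro d₀ hd₀
      rw [List.mem_singleton] at hd₀
      rw [hd₀]
      exact L.mul _ hd _ hX
    · rw [lsrc_cons, lsrc_nil, add_zero, LDat.src, LDat.src, LDat.src, gen_mul_gen, if_pos hj,
        shift_tp, tp_mul]
    · rw [ltgt_cons, ltgt_nil, add_zero, LDat.tgt, LDat.tgt, LDat.tgt, cov_mul_cov, if_pos hj]
      show cov c E (d.g * d'.g) d.i d'.j (sx (d.h * shift d.g d'.h) (d.x.2 * X)) = _
      rw [N3_sx_mul hX']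
  · refine ⟨[], fun d hd => absurd hd (List.not_mem_nil), ?_, ?_⟩
    · rw [lsrc_nil, LDat.src, LDat.src, gen_mul_gen, if_neg hj]
    · rw [ltgt_nil, LDat.tgt, LDat.tgt, cov_mul_cov, if_neg hj]

/-- PROOF: double induction, `exists_mul_dat`, `lsrc_append`, `ltgt_append`. -/
theorem LRep.exists_mul [ContinuousConstSMul Γ Y] {E : SAct Γ B} (L : LRep E A)
    (c : ℕ × B ≃ ℕ) {l l' : List (LDat Γ Y A B)} (hl : ∀ d ∈ l, d.x ∈ L.R)
    (hl' : ∀ d ∈ l', d.x ∈ L.R) : ∃ m : List (LDat Γ Y A B), (∀ d ∈ m, d.x ∈ L.R) ∧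
      lsrc m = lsrc l * lsrc l' ∧ ltgt c E m = ltgt c E l * ltgt c E l' := by
  induction l with
  | nil =>
    refine ⟨[], fun d hd => absurd hd (List.not_mem_nil), ?_, ?_⟩
    · rw [lsrc_nil, zero_mul]
    · rw [ltgt_nil, zero_mul]
  | cons x l ih =>
    obtain ⟨l₁, h1, h1', h1''⟩ := N3_mul_one L c (fun h1 h2 => L.exists_mul_dat c h1 h2)
      (hl x (List.mem_cons_self)) l' hl'
    obtain ⟨l₂, h2, h2', h2''⟩ := ih fun d hd => hl d (List.mem_cons_of_mem _ hd)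
    refine ⟨l₁ ++ l₂, fun d hd => ?_, ?_, ?_⟩
    · rcases List.mem_append.1 hd with hd | hd
      · exact h1 d hd
      · exact h2 d hd
    · rw [lsrc_append, h1', h2', lsrc_cons, add_mul]
    · rw [ltgt_append, h1'', h2'', ltgt_cons, add_mul]

/-- PROOF: multiply the functions `h` by `z`: `tp_smul_left`, `gen_smul`, `cov_smul`. -/
theorem exists_smul (c : ℕ × B ≃ ℕ) (E : SAct Γ B) (z : ℂ) (l : List (LDat Γ Y A B)) :
    ∃ m : List (LDat Γ Y A B), (∀ d ∈ m, ∃ d' ∈ l, d.x = d'.x) ∧ lsrc m = z • lsrc l ∧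
      ltgt c E m = z • ltgt c E l := by
  refine ⟨l.map fun d => (⟨z • d.h, d.x, d.g, d.i, d.j⟩ : LDat Γ Y A B), ?_, ?_, ?_⟩
  · intro d hd
    rw [List.mem_map] at hd
    obtain ⟨d', hd', rfl⟩ := hd
    exact ⟨d', hd', rfl⟩
  · induction l with
    | nil => rw [List.map_nil, lsrc_nil, smul_zero]
    | cons d l ih =>
      rw [List.map_cons, lsrc_cons, ih, lsrc_cons, smul_add, LDat.src, LDat.src, tp_smul_left,
        gen_smul]
  · induction l with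
    | nil => rw [List.map_nil, ltgt_nil, smul_zero]
    | cons d l ih =>
      rw [List.map_cons, ltgt_cons, ih, ltgt_cons, smul_add, LDat.tgt, LDat.tgt, N3_sx_smul,
        cov_smul]

/-- PROOF: `Cut.exists_val_near` gives `a` near to a finite sum of generators `gen F g i j`; approximate each `F` by a finite sum of `tp h φ`
(`tp_dense`), and each `φ` by a finite sum of first components of elements of `L.R` (`L.dense`, `norm_tp_le`); `gen_add`, `gen_sub`,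
`norm_gen_le`. -/
theorem LRep.dense_lsrc [T2Space Y] [LocallyCompactSpace Y] [ContinuousConstSMul Γ Y] [T2Space A]
    [LocallyCompactSpace A] {E : SAct Γ B} (L : LRep E A) {a : Fam Γ (Y × A)}
    (ha : a ∈ cp Γ (Y × A)) {ε : ℝ} (hε : 0 < ε) :
    ∃ l : List (LDat Γ Y A B), (∀ d ∈ l, d.x ∈ L.R) ∧ ‖a - lsrc l‖ ≤ ε := by
  obtain ⟨m, -, hm⟩ := exists_val_near ha (half_pos hε)
  obtain ⟨l, hl, hl'⟩ := N3_val L m (half_pos hε)
  refine ⟨l, hl, ?_⟩
  have e2 : a - lsrc l = (a - val m) + (val m - lsrc l) := by abel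
  rw [e2]
  refine (norm_add_le _ _).trans ?_
  linarith

end Pool.Agent.Lib.MP_aa9b81_an.Rc
end
end

section

/-!
# Rotated sites, part N5: the Clifford operator of the weights
-/

open scoped ENNReal Topology ZeroAtInfty
open Function Filter Set

noncomputable section

set_option linter.unusedSectionVars false

namespace Pool.Agent.Lib.MP_aa9b81_an.Rc

open Cut Hs

variable {Γ C Y A : Type} [Group Γ] [MulAction Γ C] [DecidableEq C]

/-- All sites have the height `1` at all points. -/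
def site1 (Γ Y C : Type) [Group Γ] [TopologicalSpace Y] [MulAction Γ Y] [MulAction Γ C] :
    Site Γ Y C where
  hh _ _ := 1
  nonneg _ _ := zero_le_one
  le_one _ _ := le_rfl
  cont _ := continuous_const
  equi _ _ _ := rfl

/-- The whole space, for all labels. -/
def U1 (C Y : Type) : Bs C → Set Y := fun _ => univ

/-- The coefficients `(w_i + 1) / √(∑_{j ∈ F} (w_j + 1)²)`. -/
def cw (w : Wt Γ C) (F : Finset C) (i : C) : ℝ := (w.w i + 1) / √(∑ j ∈ F, (w.w j + 1) ^ 2)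

/-- The coefficients which do not see `L`. -/
def cwL (w : Wt Γ C) (L F : Finset C) (i : C) : ℝ := if i ∈ L then 0 else cw w (F \ L) i

/-- The Clifford operator of the weights. -/
def T1 (w : Wt Γ C) (e : C ↪ ℕ) : BL (Bs C) := Cl e (cw w)

theorem N5_supp [TopologicalSpace Y] [MulAction Γ Y] (y : Y) :
    (site1 Γ Y C).supp y = univ := by
  ext i
  simp [Site.supp, site1]

theorem site1_U [TopologicalSpace Y] [MulAction Γ Y] : (site1 Γ Y C).U = U1 C Y := by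
  funext b
  ext y
  simp [Site.U, N5_supp, U1]

/-- PROOF: `Site.uu`, `Ws`, `W` unfold: `1 + 1 * (w + 1⁻¹ - 1) ...`: with `s = 1`, `hh = 1` one has `Ws = w + 1`. -/
theorem site1_uu [TopologicalSpace Y] [MulAction Γ Y] (w : Wt Γ C) (y : Y) :
    (site1 Γ Y C).uu w 1 y = cw w := by
  have h1 : ∀ i, (site1 Γ Y C).Ws w 1 y i = w.w i + 1 := by
    intro i
    simp [Site.Ws, Site.W, site1, add_comm]
  funext F i
  simp only [Site.uu, Site.nW, cw, h1]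

theorem site1_uh [TopologicalSpace Y] [MulAction Γ Y] (w : Wt Γ C) (L : Finset C) (y : Y) :
    (site1 Γ Y C).uh w L 1 y = cwL w L := by
  funext F i
  simp only [Site.uh, cwL, site1_uu]

theorem Es_univ : (Es univ : BL (Bs C)) = 1 := by
  classical
  refine ContinuousLinearMap.ext fun ξ => ?_
  ext b
  rw [Es_apply, if_pos (Set.subset_univ _)]
  rfl

/-- PROOF: `site1_uu`, `Es_univ` (`supp = univ`). -/
theorem site1_T [TopologicalSpace Y] [MulAction Γ Y] (w : Wt Γ C) (e : C ↪ ℕ) :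
    (site1 Γ Y C).T w e 1 zero_le_one = cst (T1 w e) := by
  refine FB.ext fun y => ?_
  rw [Site.T_apply, cst_apply, site1_uu, N5_supp, Es_univ, mul_one, T1]

/-- PROOF: the sum of the squares is `1`, or `0` for `F = ∅` (`w ≥ 1`). -/
theorem CB_cw (w : Wt Γ C) : CB (cw w) 1 := by
  let _ : TopologicalSpace Unit := ⊤
  let _ : MulAction Γ Unit :=
    { smul := fun _ y => y
      one_smul := fun _ => rfl
      mul_smul := fun _ _ _ => rfl }
  have h := (site1 Γ Unit C).CB_uu w zero_le_one ()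
  rwa [site1_uu] at h

/-- PROOF: `CB_cw` for `F ∖ L`. -/
theorem CB_cwL (w : Wt Γ C) (L : Finset C) : CB (cwL w L) 1 := by
  let _ : TopologicalSpace Unit := ⊤
  let _ : MulAction Γ Unit :=
    { smul := fun _ y => y
      one_smul := fun _ => rfl
      mul_smul := fun _ _ _ => rfl }
  have h := (site1 Γ Unit C).CB_uh w L zero_le_one ()
  rwa [site1_uh] at h

theorem norm_T1_le (w : Wt Γ C) (e : C ↪ ℕ) : ‖T1 w e‖ ≤ 1 := norm_Cl_le e (CB_cw w)

/-- PROOF: `Cl_mul_self`, the sum of the squares, `Pv_eq`. -/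
theorem T1_mul_T1 (w : Wt Γ C) (e : C ↪ ℕ) : T1 w e * T1 w e = 1 - Pv := by
  have h1 : ∀ b : Bs C, ((∑ i ∈ b.F, cw w b.F i ^ 2 : ℝ) : ℂ) =
      if b.F = ∅ then 0 else 1 := by
    intro b
    let _ : TopologicalSpace Unit := ⊤
    let _ : MulAction Γ Unit :=
      { smul := fun _ y => y
        one_smul := fun _ => rfl
        mul_smul := fun _ _ _ => rfl }
    have h2 := (site1 Γ Unit C).sum_uu_sq w zero_le_one () b.F
    rw [site1_uu] at h2
    rw [h2]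
    split_ifs <;> simp
  unfold T1
  rw [Cl_mul_self e (CB_cw w), Pv_eq]
  simp only [h1]
  refine ContinuousLinearMap.ext fun ξ => ?_
  ext b
  rw [dia_apply zero_le_one (fun b => by split_ifs <;> simp)]
  change _ = (ξ : Bs C → ℂ) b - (dia (fun b : Bs C => if b.F = ∅ then (1 : ℂ) else 0) ξ :
    Bs C → ℂ) b
  rw [dia_apply zero_le_one (fun b => by split_ifs <;> simp)]
  split_ifs <;> simp

theorem Pp_mul_T1 (w : Wt Γ C) (e : C ↪ ℕ) : Pp * T1 w e = T1 w e * Pm := Pp_mul_Cl e (CB_cw w)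

theorem Pm_mul_T1 (w : Wt Γ C) (e : C ↪ ℕ) : Pm * T1 w e = T1 w e * Pp := Pm_mul_Cl e (CB_cw w)

end Pool.Agent.Lib.MP_aa9b81_an.Rc
end
end

section

/-!
# Rotated sites, part N1a: the norm estimate, preparations
-/

open scoped ENNReal Topology ZeroAtInfty
open Function Filter Set

noncomputable section

set_option linter.unusedSectionVars false

namespace Pool.Agent.Lib.MP_aa9b81_an.Rc

open Cut Hs

variable {Γ Y A B : Type} [Group Γ] [TopologicalSpace Y] [MulAction Γ Y]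
  [TopologicalSpace A] [MulAction Γ A] [ContinuousConstSMul Γ A] [MulAction Γ B] [Nonempty B]

open Classical in
/-- PROOF: for `s ∈ S`, `d ∈ l` let `X_{d,s}` be given by `L.equi s⁻¹`. Apply `L.diag` to the list of all `(shift s⁻¹ φ_d, X_{d,s})`. -/
theorem LRep.exists_diag {E : SAct Γ B} (L : LRep E A) {l : List (LDat Γ Y A B)}
    (hl : ∀ d ∈ l, d.x ∈ L.R) (S : Finset Γ) : ∃ (V V' : BL B) (π : B → Option A),
      ‖V‖ ≤ 1 ∧ ‖V'‖ ≤ 1 ∧ ∀ s ∈ S, ∀ d ∈ l, E.W s⁻¹ * d.x.2 =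
        V * (dia fun b => optf (shift s⁻¹ d.x.1) (π b)) * V' * E.W s⁻¹ := by
  choose X hX1 hX2 using fun (s : Γ) (x : L.R) => L.equi s⁻¹ x.1 x.2
  obtain ⟨m, hm⟩ : ∃ m : List (C₀(A, ℂ) × BL B), m = S.toList.flatMap fun s : Γ =>
      l.attach.map fun d : {d // d ∈ l} =>
        ((shift s⁻¹ (d : LDat Γ Y A B).x.1, X s ⟨(d : LDat Γ Y A B).x, hl d.1 d.2⟩) :
          C₀(A, ℂ) × BL B) := ⟨_, rfl⟩
  obtain ⟨V, V', π, hV, hV', h⟩ := L.diag m (by
    intro x hx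
    rw [hm] at hx
    rw [List.mem_flatMap] at hx
    obtain ⟨s, -, hx⟩ := hx
    rw [List.mem_map] at hx
    obtain ⟨d, -, rfl⟩ := hx
    exact hX1 s ⟨d.1.x, hl d.1 d.2⟩)
  refine ⟨V, V', π, hV, hV', fun s hs d hd => ?_⟩
  have h1 := h (shift s⁻¹ d.x.1, X s ⟨d.x, hl d hd⟩) (by
    rw [hm, List.mem_flatMap]
    refine ⟨s, Finset.mem_toList.2 hs, ?_⟩
    rw [List.mem_map]
    exact ⟨⟨d, hd⟩, List.mem_attach _ _, rfl⟩)
  rw [hX2 s ⟨d.x, hl d hd⟩]
  exact congrArg (· * E.W s⁻¹) h1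

/-- PROOF: the function `(s, k) ↦ (V' W_{s⁻¹} (sk c s k ξ)) b` is square summable, and the sum over `b` of the squares of the norms is at most
`∑_{s,k} ‖sk c s k ξ‖² = ‖ξ‖²` (`norm_sq_sl (eS c)`; interchange of the sums of nonnegative numbers, e.g. for finite subsets of `b` or
with `ENNReal`; `‖V' W ζ‖ ≤ ‖ζ‖`). -/
theorem exists_eta (c : ℕ × B ≃ ℕ) (E : SAct Γ B) {V' : BL B} (hV : ‖V'‖ ≤ 1) (ξ : Hil Γ) :
    ∃ η : B → Hil Γ, (∀ b s k, (η b : Γ × ℕ → ℂ) (s, k) =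
      (V' (E.W s⁻¹ (sk c s k ξ)) : B → ℂ) b) ∧ Summable (fun b => ‖η b‖ ^ 2) ∧
      ∑' b, ‖η b‖ ^ 2 ≤ ‖ξ‖ ^ 2 := by
  obtain ⟨ζ, hζ⟩ : ∃ ζ : Γ × ℕ → L2 B, ∀ q, ζ q = V' (E.W q.1⁻¹ (sk c q.1 q.2 ξ)) :=
    ⟨fun q => V' (E.W q.1⁻¹ (sk c q.1 q.2 ξ)), fun _ => rfl⟩
  have hle : ∀ q : Γ × ℕ, ‖ζ q‖ ≤ ‖sl (eS c) q ξ‖ := by
    intro q
    rw [hζ]
    have h1 : ‖V' (E.W q.1⁻¹ (sk c q.1 q.2 ξ))‖ ≤ ‖E.W q.1⁻¹ (sk c q.1 q.2 ξ)‖ := by
      refine (V'.le_opNorm _).trans ?_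
      exact mul_le_of_le_one_left (norm_nonneg _) hV
    have h2 : ‖E.W q.1⁻¹ (sk c q.1 q.2 ξ)‖ ≤ ‖sk c q.1 q.2 ξ‖ := by
      refine ((E.W q.1⁻¹).le_opNorm _).trans ?_
      exact mul_le_of_le_one_left (norm_nonneg _) (E.norm_W_le _)
    exact h1.trans h2
  have hle2 : ∀ q : Γ × ℕ, ‖ζ q‖ ^ 2 ≤ ‖sl (eS c) q ξ‖ ^ 2 := fun q =>
    pow_le_pow_left₀ (norm_nonneg _) (hle q) 2
  have hs0 : Summable fun q : Γ × ℕ => ‖sl (eS c) q ξ‖ ^ 2 := summable_sl (eS c) ξ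
  have hs1 : Summable fun q : Γ × ℕ => ‖ζ q‖ ^ 2 :=
    Summable.of_nonneg_of_le (fun _ => by positivity) hle2 hs0
  have hcoord : ∀ (q : Γ × ℕ) (b : B), ‖(ζ q : B → ℂ) b‖ ^ 2 ≤ ‖ζ q‖ ^ 2 := fun q b =>
    pow_le_pow_left₀ (norm_nonneg _) (lp.norm_apply_le_norm (by norm_num) (ζ q) b) 2
  have hsb : ∀ b : B, Summable fun q : Γ × ℕ => ‖(ζ q : B → ℂ) b‖ ^ 2 := fun b =>
    Summable.of_nonneg_of_le (fun _ => by positivity) (fun q => hcoord q b) hs1
  obtain ⟨η, hη⟩ : ∃ η : B → Hil Γ, ∀ b q, (η b : Γ × ℕ → ℂ) q = (ζ q : B → ℂ) b :=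
    ⟨fun b => ⟨fun q => (ζ q : B → ℂ) b, memℓp_two (hsb b)⟩, fun _ _ => rfl⟩
  have hnorm : ∀ b, ‖η b‖ ^ 2 = ∑' q : Γ × ℕ, ‖(ζ q : B → ℂ) b‖ ^ 2 := by
    intro b
    rw [norm_sq_L2 (η b)]
    exact tsum_congr fun q => by rw [hη]
  have hprod : Summable fun x : (Γ × ℕ) × B => ‖(ζ x.1 : B → ℂ) x.2‖ ^ 2 := by
    rw [summable_prod_of_nonneg (fun x => by positivity)]
    refine ⟨fun q => summable_L2 (ζ q), ?_⟩
    refine hs1.congr fun q => ?_
    exact norm_sq_L2 (ζ q)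
  refine ⟨η, fun b s k => ?_, ?_, ?_⟩
  · rw [hη, hζ]
  · refine (hprod.prod_symm.prod).congr fun b => ?_
    exact (hnorm b).symm
  · have h1 : ∑' b, ‖η b‖ ^ 2 = ∑' q : Γ × ℕ, ‖ζ q‖ ^ 2 := by
      rw [tsum_congr hnorm]
      rw [Summable.tsum_comm (f := fun (q : Γ × ℕ) (b : B) => ‖(ζ q : B → ℂ) b‖ ^ 2) hprod]
      exact tsum_congr fun q => (norm_sq_L2 (ζ q)).symm
    rw [h1, norm_sq_sl (eS c) ξ]
    exact hs1.tsum_le_tsum hle2 hs0

/-- PROOF: induction on `l`, `gen_apply`, `dia_apply`, `tp_apply`: `(s • (y, x)) = (s y, s x)`, `shift s⁻¹ φ x = φ (s x)`. -/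
theorem coord_some (l : List (LDat Γ Y A B)) {ζ : Γ → ℕ → L2 B} {η : Hil Γ}
    {b : B} (hη : ∀ s k, (η : Γ × ℕ → ℂ) (s, k) = (ζ s k : B → ℂ) b) {π : B → Option A} {x : A}
    (hb : π b = some x) (y : Y) (s : Γ) (k : ℕ) :
    ((l.map fun d => if k = d.i then d.h (s • y) • (dia (fun b => optf (shift s⁻¹ d.x.1) (π b))
        (ζ (d.g⁻¹ * s) d.j)) else 0).sum : B → ℂ) b =
      (lsrc l (y, x) η : Γ × ℕ → ℂ) (s, k) := by
  induction l with
  | nil => simp [lsrc]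
  | cons d l ih =>
    rw [lsrc_cons, List.map_cons, List.sum_cons]
    have e1 : ((d.src + lsrc l : Fam Γ (Y × A)) (y, x) η : Γ × ℕ → ℂ) (s, k) =
        (d.src (y, x) η : Γ × ℕ → ℂ) (s, k) + (lsrc l (y, x) η : Γ × ℕ → ℂ) (s, k) := rfl
    rw [e1, ← ih]
    have e2 : (d.src (y, x) η : Γ × ℕ → ℂ) (s, k) = if k = d.i then
        tp d.h d.x.1 (s • (y, x)) * (η : Γ × ℕ → ℂ) (d.g⁻¹ * s, d.j) else 0 := rfl
    rw [e2, tp_apply, hη]
    split_ifs with hk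
    · have e3 : ((d.h (s • y) • (dia (fun b => optf (shift s⁻¹ d.x.1) (π b))
        (ζ (d.g⁻¹ * s) d.j)) + (l.map fun d => if k = d.i then d.h (s • y) • (dia (fun b => optf (shift s⁻¹ d.x.1) (π b))
        (ζ (d.g⁻¹ * s) d.j)) else 0).sum : L2 B) : B → ℂ) b = d.h (s • y) * (dia (fun b => optf (shift s⁻¹ d.x.1) (π b))
        (ζ (d.g⁻¹ * s) d.j) : B → ℂ) b + ((l.map fun d => if k = d.i then d.h (s • y) • (dia (fun b => optf (shift s⁻¹ d.x.1) (π b))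
        (ζ (d.g⁻¹ * s) d.j)) else 0).sum : B → ℂ) b := rfl
      rw [e3, dia_apply (norm_nonneg _) (fun b => norm_optf_le _ _), hb, optf_some, shift_apply,
        inv_inv]
      have e4 : (s • (y, x) : Y × A) = (s • y, s • x) := rfl
      rw [e4]
      ring
    · rw [zero_add, zero_add]

/-- PROOF: induction on `l`, `dia_apply`, `optf_none`. -/
theorem coord_none (l : List (LDat Γ Y A B)) {ζ : Γ → ℕ → L2 B}
    {b : B} {π : B → Option A} (hb : π b = none) (y : Y) (s : Γ) (k : ℕ) :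
    ((l.map fun d => if k = d.i then d.h (s • y) • (dia (fun b => optf (shift s⁻¹ d.x.1) (π b))
        (ζ (d.g⁻¹ * s) d.j)) else 0).sum : B → ℂ) b = 0 := by
  induction l with
  | nil => simp
  | cons d l ih =>
    rw [List.map_cons, List.sum_cons]
    split_ifs with hk
    · have e3 : ((d.h (s • y) • (dia (fun b => optf (shift s⁻¹ d.x.1) (π b))
        (ζ (d.g⁻¹ * s) d.j)) + (l.map fun d => if k = d.i then d.h (s • y) • (dia (fun b => optf (shift s⁻¹ d.x.1) (π b))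
        (ζ (d.g⁻¹ * s) d.j)) else 0).sum : L2 B) : B → ℂ) b = d.h (s • y) * (dia (fun b => optf (shift s⁻¹ d.x.1) (π b))
        (ζ (d.g⁻¹ * s) d.j) : B → ℂ) b + ((l.map fun d => if k = d.i then d.h (s • y) • (dia (fun b => optf (shift s⁻¹ d.x.1) (π b))
        (ζ (d.g⁻¹ * s) d.j)) else 0).sum : B → ℂ) b := rfl
      rw [e3, dia_apply (norm_nonneg _) (fun b => norm_optf_le _ _), hb, optf_none, ih]
      ring
    · rw [zero_add, ih]

end Pool.Agent.Lib.MP_aa9b81_an.Rc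
end
end

section

/-!
# Rotated sites, part N1b: the norm estimate, proof
-/

open scoped ENNReal Topology ZeroAtInfty
open Function Filter Set

noncomputable section

set_option linter.unusedSectionVars false

namespace Pool.Agent.Lib.MP_aa9b81_an.Rc

open Cut Hs

variable {Γ Y A B : Type} [Group Γ] [TopologicalSpace Y] [MulAction Γ Y]
  [TopologicalSpace A] [MulAction Γ A] [ContinuousConstSMul Γ A] [MulAction Γ B] [Nonempty B]

/-- THE NORM ESTIMATE. PROOF: fix `y`, `ξ`. `‖ltgt l y ξ‖²` is the supremum over the finite sets `S ⊆ Γ` of `∑_{s ∈ S} ∑_k ‖sk c s k (ltgt l y ξ)‖²`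
(`norm_sq_sl (eS c)`; for each `s` only the `k` which occur as `d.i` contribute: `sk_ltgt`). For given `S` take `V`, `V'`, `π` from `exists_diag`
and `η` from `exists_eta`. `‖sk c s k (..)‖ = ‖W_{s⁻¹} (sk ..)‖` (`W_{s⁻¹}` is isometric: `W_inv_mul`, `norm_W_le`) `≤ ‖Z_{s,k}‖`, where `Z_{s,k}` is the list sum
of `W_sk_ltgt` (`‖V‖ ≤ 1`). At `b` with `π b = some x` the value of `Z_{s,k}` is `(lsrc l (y, x) (η b)) (s, k)` (`coord_some` with
`ζ s k = V' (W_{s⁻¹} (sk c s k ξ))`), and `0` for `π b = none`. So `∑_{s ∈ S, k} ‖Z_{s,k}‖² ≤ ∑_b ‖lsrc l (y, x_b) (η b)‖² ≤ ‖lsrc l‖² ∑_b ‖η b‖²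
≤ ‖lsrc l‖² ‖ξ‖²`. -/
theorem LRep.norm_ltgt_le {E : SAct Γ B} (L : LRep E A) (c : ℕ × B ≃ ℕ)
    {l : List (LDat Γ Y A B)} (hl : ∀ d ∈ l, d.x ∈ L.R) : ‖ltgt c E l‖ ≤ ‖lsrc l‖ := by
  classical
  rw [Fam.norm_le_iff (norm_nonneg _)]
  intro y
  refine ContinuousLinearMap.opNorm_le_bound _ (norm_nonneg _) fun ξ => ?_
  have hM : 0 ≤ ‖lsrc l‖ := norm_nonneg _
  refine le_of_sq_le_sq ?_ (mul_nonneg hM (norm_nonneg _))
  rw [norm_sq_sl (eS c), mul_pow]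
  refine tsum_le_of_sum_le' (by positivity) fun T => ?_
  obtain ⟨V, V', π, hV, hV', h⟩ := L.exists_diag hl (T.image Prod.fst)
  obtain ⟨η, hη, hη1, hη2⟩ := exists_eta c E hV' ξ
  set ζ : Γ → ℕ → L2 B := fun s k => V' (E.W s⁻¹ (sk c s k ξ)) with hζ
  set Z : Γ × ℕ → L2 B := fun q => (l.map fun d => if q.2 = d.i then d.h (q.1 • y) •
    (dia (fun b => optf (shift q.1⁻¹ d.x.1) (π b)) (ζ (d.g⁻¹ * q.1) d.j)) else 0).sum with hZ
  have hW : ∀ (g : Γ) (v : L2 B), ‖v‖ ≤ ‖E.W g⁻¹ v‖ := by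
    intro g v
    have e1 : v = E.W g (E.W g⁻¹ v) := by
      have e2 := congrArg (fun T : BL B => T v) (E.W_mul_inv g)
      exact e2.symm
    calc ‖v‖ = ‖E.W g (E.W g⁻¹ v)‖ := congrArg norm e1
      _ ≤ ‖E.W g‖ * ‖E.W g⁻¹ v‖ := (E.W g).le_opNorm _
      _ ≤ 1 * ‖E.W g⁻¹ v‖ := mul_le_mul_of_nonneg_right (E.norm_W_le g) (norm_nonneg _)
      _ = ‖E.W g⁻¹ v‖ := one_mul _
  have hle : ∀ q ∈ T, ‖sl (eS c) q (ltgt c E l y ξ)‖ ^ 2 ≤ ‖Z q‖ ^ 2 := by
    rintro ⟨s, k⟩ hq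
    have hs : s ∈ T.image Prod.fst := Finset.mem_image.2 ⟨(s, k), hq, rfl⟩
    have h1 := W_sk_ltgt c E l s (h s hs) y ξ k
    have h2 : E.W s⁻¹ (sk c s k (ltgt c E l y ξ)) = V (Z (s, k)) := h1
    refine pow_le_pow_left₀ (norm_nonneg _) ?_ 2
    calc ‖sl (eS c) (s, k) (ltgt c E l y ξ)‖ ≤ ‖E.W s⁻¹ (sk c s k (ltgt c E l y ξ))‖ := hW s _
      _ = ‖V (Z (s, k))‖ := by rw [h2]
      _ ≤ ‖V‖ * ‖Z (s, k)‖ := V.le_opNorm _
      _ ≤ 1 * ‖Z (s, k)‖ := mul_le_mul_of_nonneg_right hV (norm_nonneg _)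
      _ = ‖Z (s, k)‖ := one_mul _
  refine (Finset.sum_le_sum hle).trans ?_
  have hb : ∀ b, ∑ q ∈ T, ‖(Z q : B → ℂ) b‖ ^ 2 ≤ ‖lsrc l‖ ^ 2 * ‖η b‖ ^ 2 := by
    intro b
    rcases hp : π b with _ | x
    · have h0 : ∀ q ∈ T, ‖(Z q : B → ℂ) b‖ ^ 2 = 0 := by
        intro q _
        have h1 := coord_none l (ζ := ζ) hp y q.1 q.2
        have h2 : (Z q : B → ℂ) b = 0 := h1
        rw [h2, norm_zero]
        norm_num
      rw [Finset.sum_eq_zero h0]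
      positivity
    · have h0 : ∀ q ∈ T, ‖(Z q : B → ℂ) b‖ ^ 2 =
          ‖(lsrc l (y, x) (η b) : Γ × ℕ → ℂ) q‖ ^ 2 := by
        intro q _
        have h1 := coord_some l (ζ := ζ) (η := η b) (b := b) (fun s k => hη b s k) hp y q.1 q.2
        have h2 : (Z q : B → ℂ) b = (lsrc l (y, x) (η b) : Γ × ℕ → ℂ) q := h1
        rw [h2]
      rw [Finset.sum_congr rfl h0]
      have h1 : ∑ q ∈ T, ‖(lsrc l (y, x) (η b) : Γ × ℕ → ℂ) q‖ ^ 2 ≤
          ‖lsrc l (y, x) (η b)‖ ^ 2 := by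
        rw [norm_sq_L2]
        exact (summable_L2 _).sum_le_tsum _ fun q _ => by positivity
      refine h1.trans ?_
      rw [← mul_pow]
      refine pow_le_pow_left₀ (norm_nonneg _) ?_ 2
      refine ((lsrc l (y, x)).le_opNorm _).trans ?_
      exact mul_le_mul_of_nonneg_right (Fam.norm_apply_le _ _) (norm_nonneg _)
  have hZs : ∀ q ∈ T, Summable fun b => ‖(Z q : B → ℂ) b‖ ^ 2 := fun q _ => summable_L2 _
  calc ∑ q ∈ T, ‖Z q‖ ^ 2 = ∑ q ∈ T, ∑' b, ‖(Z q : B → ℂ) b‖ ^ 2 :=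
        Finset.sum_congr rfl fun q _ => norm_sq_L2 _
    _ = ∑' b, ∑ q ∈ T, ‖(Z q : B → ℂ) b‖ ^ 2 := (Summable.tsum_finsetSum hZs).symm
    _ ≤ ∑' b, ‖lsrc l‖ ^ 2 * ‖η b‖ ^ 2 :=
        (summable_sum hZs).tsum_le_tsum hb (hη1.mul_left _)
    _ = ‖lsrc l‖ ^ 2 * ∑' b, ‖η b‖ ^ 2 := tsum_mul_left
    _ ≤ ‖lsrc l‖ ^ 2 * ‖ξ‖ ^ 2 := mul_le_mul_of_nonneg_left hη2 (by positivity)

end Pool.Agent.Lib.MP_aa9b81_an.Rc
end
end

section

/-!
# Rotated sites, part N4: the representation of the crossed product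
-/

open scoped ENNReal Topology ZeroAtInfty
open Function Filter Set

noncomputable section

set_option linter.unusedSectionVars false

namespace Pool.Agent.Lib.MP_aa9b81_an.Rc

open Cut Hs

variable {Γ Y A B : Type} [Group Γ] [TopologicalSpace Y] [MulAction Γ Y]
  [TopologicalSpace A] [MulAction Γ A] [ContinuousConstSMul Γ A] [MulAction Γ B] [Nonempty B]
  [T2Space Y] [LocallyCompactSpace Y] [ContinuousConstSMul Γ Y] [T2Space A] [LocallyCompactSpace A]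

/-- PROOF: `exists_extension` for the set of the pairs `(lsrc l, ltgt c E l)`, `l` a list with `d.x ∈ L.R` for all `d ∈ l`: `norm_ltgt_le`, `exists_mul`,
`exists_smul`, `lsrc_append`, `ltgt_append`, `lsrc_mem`, `dense_lsrc`. -/
theorem LRep.exists_Th {E : SAct Γ B} (L : LRep E A) (c : ℕ × B ≃ ℕ) :
    ∃ Θ : cp Γ (Y × A) →ₙ+* Fam Γ Y, (∀ a, ‖Θ a‖ ≤ ‖(a : Fam Γ (Y × A))‖) ∧
      (∀ (z : ℂ) a, Θ (z • a) = z • Θ a) ∧ ∀ l : List (LDat Γ Y A B), (∀ d ∈ l, d.x ∈ L.R) →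
        Θ ⟨lsrc l, lsrc_mem l⟩ = ltgt c E l := by
  let S : Set (Fam Γ (Y × A) × Fam Γ Y) :=
    {x | ∃ l : List (LDat Γ Y A B), (∀ d ∈ l, d.x ∈ L.R) ∧ x = (lsrc l, ltgt c E l)}
  have key : ∃ Θ : cp Γ (Y × A) →ₙ+* Fam Γ Y, (∀ a, ‖Θ a‖ ≤ ‖(a : Fam Γ (Y × A))‖) ∧
      (∀ (z : ℂ) a, Θ (z • a) = z • Θ a) ∧
        ∀ x ∈ S, ∀ h : x.1 ∈ cp Γ (Y × A), Θ ⟨x.1, h⟩ = x.2 := by
    apply exists_extension (A := cp Γ (Y × A)) S
    · exact ⟨[], fun d hd => absurd hd List.not_mem_nil, rfl⟩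
    · rintro _ ⟨l, hl, rfl⟩ _ ⟨l', hl', rfl⟩
      refine ⟨l ++ l', fun d hd => ?_, ?_⟩
      · rcases List.mem_append.1 hd with h | h
        · exact hl d h
        · exact hl' d h
      · rw [lsrc_append, ltgt_append]
        rfl
    · rintro _ ⟨l, hl, rfl⟩ _ ⟨l', hl', rfl⟩
      obtain ⟨m, hm, h4, h5⟩ := L.exists_mul c hl hl'
      refine ⟨m, hm, ?_⟩
      rw [h4, h5]
      rfl
    · rintro z _ ⟨l, hl, rfl⟩
      obtain ⟨m, hm, h4, h5⟩ := exists_smul c E z l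
      refine ⟨m, fun d hd => ?_, ?_⟩
      · obtain ⟨d', hd', e⟩ := hm d hd
        rw [e]
        exact hl d' hd'
      · rw [h4, h5]
        rfl
    · rintro _ ⟨l, hl, rfl⟩
      exact L.norm_ltgt_le c hl
    · rintro _ ⟨l, hl, rfl⟩
      exact lsrc_mem l
    · intro a ha ε hε
      obtain ⟨l, hl, h4⟩ := L.dense_lsrc ha hε
      exact ⟨(lsrc l, ltgt c E l), ⟨l, hl, rfl⟩, h4⟩
  obtain ⟨Θ, h1, h2, h3⟩ := key
  exact ⟨Θ, h1, h2, fun l hl => h3 (lsrc l, ltgt c E l) ⟨l, hl, rfl⟩ (lsrc_mem l)⟩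

/-- The representation of the crossed product of `Y × A`. -/
def LRep.Th {E : SAct Γ B} (L : LRep E A) (c : ℕ × B ≃ ℕ) : cp Γ (Y × A) →ₙ+* Fam Γ Y :=
  (L.exists_Th c).choose

theorem LRep.norm_Th_le {E : SAct Γ B} (L : LRep E A) (c : ℕ × B ≃ ℕ) (a : cp Γ (Y × A)) :
    ‖L.Th c a‖ ≤ ‖(a : Fam Γ (Y × A))‖ := (L.exists_Th c).choose_spec.1 a

theorem LRep.Th_smul {E : SAct Γ B} (L : LRep E A) (c : ℕ × B ≃ ℕ) (z : ℂ) (a : cp Γ (Y × A)) :
    L.Th c (z • a) = z • L.Th c a := (L.exists_Th c).choose_spec.2.1 z a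

theorem LRep.Th_lsrc {E : SAct Γ B} (L : LRep E A) (c : ℕ × B ≃ ℕ) {l : List (LDat Γ Y A B)}
    (hl : ∀ d ∈ l, d.x ∈ L.R) : L.Th c ⟨lsrc l, lsrc_mem l⟩ = ltgt c E l :=
  (L.exists_Th c).choose_spec.2.2 l hl

/-- PROOF: `Th_lsrc` for the list with one element. -/
theorem LRep.Th_src {E : SAct Γ B} (L : LRep E A) (c : ℕ × B ≃ ℕ) {d : LDat Γ Y A B}
    (hd : d.x ∈ L.R) (h : d.src ∈ cp Γ (Y × A)) : L.Th c ⟨d.src, h⟩ = d.tgt c E := by
  have hl : ∀ d' ∈ [d], d'.x ∈ L.R := fun d' hd' => by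
    rw [List.mem_singleton.1 hd']
    exact hd
  have e1 : lsrc [d] = d.src := by
    rw [lsrc_cons, lsrc_nil, add_zero]
  have e2 : ltgt c E [d] = d.tgt c E := by
    rw [ltgt_cons, ltgt_nil, add_zero]
  have h1 := L.Th_lsrc c hl
  rw [e2] at h1
  rw [← h1]
  congr 1
  exact Subtype.ext e1.symm

/-- INDUCTION PRINCIPLE. PROOF: `dense_lsrc`, and induction on the list. -/
theorem LRep.Th_induction {E : SAct Γ B} (L : LRep E A) {p : cp Γ (Y × A) → Prop}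
    (hgen : ∀ d : LDat Γ Y A B, d.x ∈ L.R → ∀ h : d.src ∈ cp Γ (Y × A), p ⟨d.src, h⟩) (h0 : p 0)
    (hadd : ∀ a b : cp Γ (Y × A), p a → p b → p (a + b))
    (hlim : ∀ a : cp Γ (Y × A), (∀ ε : ℝ, 0 < ε → ∃ b : cp Γ (Y × A), p b ∧
      ‖(a : Fam Γ (Y × A)) - b‖ ≤ ε) → p a) :
    ∀ a, p a := by
  have key : ∀ l : List (LDat Γ Y A B), (∀ d ∈ l, d.x ∈ L.R) → p ⟨lsrc l, lsrc_mem l⟩ := by
    intro l
    induction l with
    | nil => intro _; exact h0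
    | cons d l ih =>
      intro hl
      have hd : d.src ∈ cp Γ (Y × A) := by
        have := lsrc_mem [d]
        rwa [lsrc_cons, lsrc_nil, add_zero] at this
      have e : (⟨lsrc (d :: l), lsrc_mem (d :: l)⟩ : cp Γ (Y × A)) =
          ⟨d.src, hd⟩ + ⟨lsrc l, lsrc_mem l⟩ := Subtype.ext (lsrc_cons d l)
      rw [e]
      exact hadd _ _ (hgen d (hl d List.mem_cons_self) hd)
        (ih fun d' hd' => hl d' (List.mem_cons_of_mem _ hd'))
  intro a
  refine hlim a fun ε hε => ?_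
  obtain ⟨l, hl, h4⟩ := L.dense_lsrc a.2 hε
  exact ⟨⟨lsrc l, lsrc_mem l⟩, key l hl, h4⟩

end Pool.Agent.Lib.MP_aa9b81_an.Rc
end
end

section

/-!
# Rotated sites, part P5c: the charges
-/

open scoped ENNReal Topology ZeroAtInfty
open Function Filter Set

noncomputable section

namespace Pool.Agent.Lib.MP_aa9b81_an.Rc

open Cut Hs

variable {Γ C I : Type} [Group Γ] [MulAction Γ C] [MulAction Γ I] [DecidableEq C]

namespace Fibr

variable (𝔉 : Fibr Γ C I)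

/-- PROOF: `Li_mul_Li`, `Li_congr`: `∑ kk kk = n / n² = 1/n`. -/
theorem Qi_mul_Qi (hn : ∀ i, (𝔉.fib i).Nonempty) (i : I) : 𝔉.Qi i * 𝔉.Qi i = 𝔉.Qi i := by
  classical
  have hc : ((𝔉.fib i).card : ℝ) ≠ 0 := by
    have h := Finset.card_pos.2 (hn i)
    exact_mod_cast h.ne'
  have hnm : (none : Option C) ∉ (𝔉.fib i).map Embedding.some := by simp
  rw [Qi, Li_mul_Li, mul_one]
  refine 𝔉.Li_congr 1 fun l _ l' _ => ?_
  rw [mm, Lt, Finset.sum_insert hnm, Finset.sum_map]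
  rcases l with _ | c
  · simp [kk]
  · rcases l' with _ | c'
    · simp [kk]
    · simp only [kk, Embedding.some_apply, reduceCtorEq, or_self, or_true, true_or, if_true,
        if_false, Finset.sum_const, nsmul_eq_mul]
      field_simp
      ring

/-- PROOF: `Li_comm`; the case `i = j` is trivial. -/
theorem Qi_comm (i j : I) : Commute (𝔉.Qi i) (𝔉.Qi j) := by
  by_cases h : i = j
  · subst h
    exact Commute.refl _
  · exact 𝔉.Li_comm h _ _ _ _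

/-- PROOF: `W_mul_Li`, `|fib (g i)| = |fib i|`. -/
theorem W_mul_Qi (e : C ↪ ℕ) (g : Γ) (i : I) : (sact e : SAct Γ (Bs C)).W g * 𝔉.Qi i =
    𝔉.Qi (g • i) * (sact e : SAct Γ (Bs C)).W g := by
  have hf : 𝔉.fib (g • i) = gF g (𝔉.fib i) := by
    ext c
    rw [𝔉.mem_fib, mem_gF, 𝔉.mem_fib, 𝔉.smul, inv_smul_eq_iff]
  refine 𝔉.W_mul_Li e g 1 fun l _ l' _ => ?_
  have hc : (𝔉.fib (g • i)).card = (𝔉.fib i).card := by rw [hf, card_gF]
  unfold kk
  rw [hc]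
  simp only [Option.map_eq_none_iff]

/-- PROOF: `inner_Li`. -/
theorem inner_Qi (i : I) (ξ η : L2 (Bs C)) : inner ℂ (𝔉.Qi i ξ) η = inner ℂ ξ (𝔉.Qi i η) := by
  refine 𝔉.inner_Li 1 (fun l _ l' _ => ?_) ξ η
  by_cases h1 : l = none <;> by_cases h2 : l' = none <;> simp [kk, h1, h2]

/-- PROOF: `Li_comm_of`, `Em_comm_Pp`. -/
theorem Qi_comm_Pp (i : I) : Commute (𝔉.Qi i) (Pp : BL (Bs C)) := by
  exact 𝔉.Li_comm_of 1 _ fun l _ l' hl' => 𝔉.Em_comm_Pp hl'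

open Classical in
/-- PROOF: coordinates: `Li_apply_st` (`upd_of_st`), `Li_apply_not`, `st_unique`, `dia_apply`. -/
theorem Li_ea_eq {i : I} {a : Option C} (ha : a ∈ 𝔉.Lt i) : 𝔉.Li i 1 (ea a) =
    dia fun b : Bs C => if ∃ l ∈ 𝔉.Lt i, l ≠ a ∧ 𝔉.st i l b then (0 : ℂ) else 1 := by
  refine ContinuousLinearMap.ext fun ξ => ?_
  ext b
  have hb1 : ∀ b : Bs C, ‖(if ∃ l ∈ 𝔉.Lt i, l ≠ a ∧ 𝔉.st i l b then (0 : ℂ) else 1)‖ ≤ 1 := by
    intro b
    split_ifs <;> simp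
  rw [dia_apply zero_le_one hb1]
  by_cases hb : ∃ l ∈ 𝔉.Lt i, 𝔉.st i l b
  · obtain ⟨l, hl, hlb⟩ := hb
    rw [𝔉.Li_apply_st 1 _ hl hlb]
    by_cases hla : l = a
    · subst hla
      have hno : ¬ ∃ l' ∈ 𝔉.Lt i, l' ≠ l ∧ 𝔉.st i l' b := by
        rintro ⟨l', _, hne, hst⟩
        exact hne (𝔉.st_unique hst hlb)
      rw [if_neg hno, one_mul, Finset.sum_eq_single l]
      · rw [𝔉.upd_of_st hlb]
        simp [ea]
      · intro l' _ hne
        simp [ea, hne]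
      · intro h
        exact absurd hl h
    · have hyes : ∃ l' ∈ 𝔉.Lt i, l' ≠ a ∧ 𝔉.st i l' b := ⟨l, hl, hla, hlb⟩
      rw [if_pos hyes, zero_mul]
      refine Finset.sum_eq_zero fun l' _ => ?_
      simp [ea, hla]
  · have hb' : ∀ l ∈ 𝔉.Lt i, ¬ 𝔉.st i l b := fun l hl h => hb ⟨l, hl, h⟩
    have hno : ¬ ∃ l' ∈ 𝔉.Lt i, l' ≠ a ∧ 𝔉.st i l' b := by
      rintro ⟨l', hl', _, hst⟩
      exact hb' l' hl' hst
    rw [𝔉.Li_apply_not 1 _ hb', if_neg hno]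
    simp

/-- PROOF: `Li_comm_of`, `Em_comm_Cl` for the fibre `j`. -/
theorem Qi_comm_Cl (e : C ↪ ℕ) (j : I) {a : Finset C → C → ℝ} {M : ℝ} (h : CB a M)
    (h0 : ∀ F, ∀ c ∈ 𝔉.fib j, a F c = 0) (h1 : ∀ F c, a F c = a (F \ 𝔉.fib j) c) :
    Commute (𝔉.Qi j) (Cl e a) := by
  exact 𝔉.Li_comm_of 1 _ fun l _ l' hl' => 𝔉.Em_comm_Cl e hl' h h0 h1

/-- At `θ = π/2` the cylinder operators commute with the charges. PROOF: `Xo_mono` for `insert i E`; `WE (insert i E)` conjugates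
`Qi i` into `Li i 1 (ea none)` (`WE_insert`, `Wi_enn_Wi`, `Wi_mul_self`, the other factors commute with it: `Li_comm`), a
multiplication operator (`Li_ea_eq`), which commutes with `dF φ`. -/
theorem Cyl.Xo_comm_Qi {𝔉 : Fibr Γ C I} (hn : ∀ i, (𝔉.fib i).Nonempty) {E : Finset I}
    {φ : Finset C → ℂ} (h : 𝔉.Cyl E φ) (i : I) :
    Commute (𝔉.Xo E (𝔉.Vth hn (Real.pi / 2)) φ) (𝔉.Qi i) := by
  classical
  set V : Mf 𝔉 := 𝔉.Vth hn (Real.pi / 2) with hV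
  have h1 : 𝔉.Xo (insert i E) V φ = 𝔉.Xo E V φ := h.Xo_mono (Finset.subset_insert i E) V
  rw [← h1]
  have hm : 𝔉.Cyl (insert i E) φ := h.mono (Finset.subset_insert i E)
  -- the set of the other fibres
  set E' : Finset I := E.erase i with hE'
  have hiE' : i ∉ E' := Finset.notMem_erase i E
  have hins : insert i E = insert i E' := by
    ext j
    by_cases hj : j = i <;> simp [hE', hj]
  have hW : 𝔉.WE (insert i E) V = 𝔉.Wi V i * 𝔉.WE E' V := by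
    rw [hins, 𝔉.WE_insert hiE' V]
  set W := 𝔉.WE (insert i E) V with hWdef
  have hWW : W * W = 1 := 𝔉.WE_mul_self _ V
  have hcE : Commute (𝔉.WE E' V) (𝔉.Li i 1 (ea none)) := by
    refine 𝔉.WE_comm fun j hj => ?_
    have hji : j ≠ i := fun hji => hiE' (by rw [← hji]; exact hj)
    exact 𝔉.Li_comm hji _ _ _ _
  have hcW : Commute (𝔉.WE E' V) (𝔉.Wi V i) := by
    refine 𝔉.WE_comm fun j hj => ?_
    have hji : j ≠ i := fun hji => hiE' (by rw [← hji]; exact hj)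
    exact 𝔉.Li_comm hji _ _ _ _
  have hEE : 𝔉.WE E' V * 𝔉.WE E' V = 1 := 𝔉.WE_mul_self _ V
  set L := 𝔉.Li i 1 (ea none) with hL
  have hQ : 𝔉.Wi V i * L * 𝔉.Wi V i = 𝔉.Qi i := 𝔉.Wi_enn_Wi hn i
  -- conjugation
  have hconj : W * L * W = 𝔉.Qi i := by
    rw [hW, ← hQ]
    calc 𝔉.Wi V i * 𝔉.WE E' V * L * (𝔉.Wi V i * 𝔉.WE E' V)
        = 𝔉.Wi V i * (𝔉.WE E' V * L) * (𝔉.Wi V i * 𝔉.WE E' V) := by simp only [mul_assoc]
      _ = 𝔉.Wi V i * (L * 𝔉.WE E' V) * (𝔉.WE E' V * 𝔉.Wi V i) := by rw [hcE.eq, hcW.eq]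
      _ = 𝔉.Wi V i * L * (𝔉.WE E' V * 𝔉.WE E' V) * 𝔉.Wi V i := by simp only [mul_assoc]
      _ = 𝔉.Wi V i * L * 𝔉.Wi V i := by rw [hEE, mul_one]
  have hLd : Commute (dF φ : BL (Bs C)) L := by
    rw [hL, 𝔉.Li_ea_eq (𝔉.none_mem_Lt i)]
    refine ContinuousLinearMap.ext fun ξ => ?_
    ext b
    have hb1 : ∀ b : Bs C, ‖(if ∃ l ∈ 𝔉.Lt i, l ≠ none ∧ 𝔉.st i l b then (0 : ℂ) else 1)‖ ≤ 1 := by
      intro b
      split_ifs <;> simp
    rw [mul_apply_eq_comp, mul_apply_eq_comp, dF,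
      dia_apply zero_le_one (fun b => h.bdd _), dia_apply zero_le_one hb1,
      dia_apply zero_le_one hb1, dia_apply zero_le_one (fun b => h.bdd _)]
    ring
  change 𝔉.Xo (insert i E) V φ * 𝔉.Qi i = 𝔉.Qi i * 𝔉.Xo (insert i E) V φ
  rw [Xo, ← hWdef, ← hconj]
  calc W * dF φ * W * (W * L * W) = W * dF φ * (W * W) * L * W := by simp only [mul_assoc]
    _ = W * (dF φ * L) * W := by rw [hWW, mul_one]; simp only [mul_assoc]
    _ = W * (L * dF φ) * W := by rw [hLd.eq]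
    _ = W * L * (W * W) * dF φ * W := by rw [hWW, mul_one]; simp only [mul_assoc]
    _ = W * L * W * (W * dF φ * W) := by simp only [mul_assoc]

end Fibr

end Pool.Agent.Lib.MP_aa9b81_an.Rc
end
end

section

/-!
# Rotated sites, part P7a: Clifford operators and charges
-/

open scoped ENNReal Topology ZeroAtInfty
open Function Filter Set

noncomputable section

namespace Pool.Agent.Lib.MP_aa9b81_an.Rc

open Cut Hs

variable {Γ C I : Type} [Group Γ] [MulAction Γ C] [MulAction Γ I] [DecidableEq C]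

/-- The coefficients are invariant under colour changes: they depend only on the fibre of `c` and on the numbers of elements of `F` in the
fibres. -/
def Col (𝔉 : Fibr Γ C I) (a : Finset C → C → ℝ) : Prop :=
  ∀ (F F' : Finset C) (c c' : C), (∀ j, (F ∩ 𝔉.fib j).card = (F' ∩ 𝔉.fib j).card) →
    c ∈ F → c' ∈ F' → 𝔉.p c = 𝔉.p c' → a F c = a F' c'

open Classical in
/-- The coefficient of the fibre `i`. -/
def alp (𝔉 : Fibr Γ C I) (a : Finset C → C → ℝ) (i : I) (F : Finset C) : ℝ :=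
  if h : ∃ c ∈ F, 𝔉.p c = i then a F h.choose else 0

open Classical in
/-- The Clifford operator of the fibre `i`. -/
def kap (𝔉 : Fibr Γ C I) (e : C ↪ ℕ) (i : I) : BL (Bs C) :=
  Cl e fun _ c => if 𝔉.p c = i then 1 else 0

open Classical in
/-- PROOF: the number of the `c ∈ F` with `p c = i` is at most `|fib i|`. -/
theorem CB_kap (𝔉 : Fibr Γ C I) (i : I) :
    CB (fun (_ : Finset C) c => if 𝔉.p c = i then (1 : ℝ) else 0) (√((𝔉.fib i).card : ℝ)) := by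
  constructor
  · exact Real.sqrt_nonneg _
  · intro F
    rw [Real.sq_sqrt (Nat.cast_nonneg _)]
    have h1 : ∀ c ∈ F, (if 𝔉.p c = i then (1 : ℝ) else 0) ^ 2 = if 𝔉.p c = i then (1 : ℝ) else 0 := by
      intro c _
      split_ifs <;> simp
    rw [Finset.sum_congr rfl h1, Finset.sum_boole]
    have h2 : F.filter (fun c => 𝔉.p c = i) ⊆ 𝔉.fib i := by
      intro c hc
      exact (𝔉.mem_fib i c).2 (Finset.mem_filter.1 hc).2
    exact_mod_cast Finset.card_le_card h2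

/-- PROOF: coordinates `Cl_apply`, termwise: `th e i (tg i S) = th e i S` (`th_tg_self`), the involution `b ↦ tog c b` of the labels with
`c ∈ F`, for finitely supported `ξ`, `η`; or `ξ = bv b`, `η = bv b'`, both sides continuous and sesquilinear. The signs and
coefficients are real (`conj_th`). -/
theorem inner_Cl (e : C ↪ ℕ) {a : Finset C → C → ℝ} {M : ℝ} (h : CB a M) (ξ η : L2 (Bs C)) :
    inner ℂ (Cl e a ξ) η = inner ℂ ξ (Cl e a η) := by
  classical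
  have htog : ∀ {c : C} {b : Bs C}, c ∈ b.F → tog c (tog c b) = b := by
    intro c b hc
    have h1 := tog_of_mem hc
    have h2 : c ∈ (tog c b).F := by rw [h1.1]; exact hc
    have h3 := tog_of_mem h2
    apply Bs.ext
    · rw [h3.1, h1.1]
    · rw [h3.2, h1.2, tg_tg]
  have hsing : ∀ (b : Bs C) (z : ℂ), Cl e a (lp.single 2 b z : L2 (Bs C)) =
      ∑ c ∈ b.F, ((a b.F c : ℂ) * th e c b.S) • (lp.single 2 (tog c b) z : L2 (Bs C)) := by
    intro b z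
    ext b'
    rw [Cl_apply e h, clF]
    simp only [lp.coeFn_sum, Finset.sum_apply, lp.coeFn_smul, Pi.smul_apply, smul_eq_mul]
    by_cases hF : b'.F = b.F
    · rw [hF]
      refine Finset.sum_congr rfl fun c hc => ?_
      have hc' : c ∈ b'.F := by rw [hF]; exact hc
      by_cases h1 : tog c b' = b
      · have h2 : b' = tog c b := by rw [← h1, htog hc']
        rw [h1, ← h2]
        have h3 : th e c b'.S = th e c b.S := by
          rw [h2, (tog_of_mem hc).2, th_tg_self]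
        rw [h3]
        simp only [lp.coeFn_single, Pi.single_eq_same]
        ring
      · have h2 : b' ≠ tog c b := by
          intro h3
          apply h1
          rw [h3, htog hc]
        simp only [lp.coeFn_single, Pi.single_eq_of_ne h1, Pi.single_eq_of_ne h2, mul_zero]
    · rw [Finset.sum_eq_zero, Finset.sum_eq_zero]
      · intro c hc
        have h2 : b' ≠ tog c b := by
          intro h3
          apply hF
          rw [h3, (tog_of_mem hc).1]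
        simp only [lp.coeFn_single, Pi.single_eq_of_ne h2, mul_zero]
      · intro c hc
        have h2 : tog c b' ≠ b := by
          intro h3
          apply hF
          rw [← h3, (tog_of_mem hc).1]
        simp only [lp.coeFn_single, Pi.single_eq_of_ne h2, mul_zero]
  have hmain : ((innerSL ℂ ξ).comp (Cl e a) : L2 (Bs C) →L[ℂ] ℂ) = innerSL ℂ (Cl e a ξ) := by
    apply lp.ext_continuousLinearMap (by norm_num)
    intro b
    ext
    simp only [ContinuousLinearMap.comp_apply, lp.singleContinuousLinearMap_apply, innerSL_apply_apply]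
    rw [hsing, inner_sum]
    simp only [inner_smul_right, lp.inner_single_right]
    rw [Cl_apply e h, clF]
    simp only [RCLike.inner_apply, map_sum, map_mul, one_mul, conj_th, Complex.conj_ofReal]
    refine Finset.sum_congr rfl fun c _ => ?_
    ring
  have h1 := congrArg (fun T : L2 (Bs C) →L[ℂ] ℂ => T η) hmain
  simp only [ContinuousLinearMap.comp_apply, innerSL_apply_apply] at h1
  exact h1.symm

/-- PROOF: `Cl_mul_self`: `kap * kap` is the multiplication by `|F ∩ fib i|`; a vector `ζ` supported in the labels with `|F ∩ fib i| ≤ 1`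
satisfies `‖kap ζ‖² = ⟪kap kap ζ, ζ⟫ ≤ ‖ζ‖²` (`inner_Cl`). The vector `ζ = (1 - Qi i) ξ` is supported in the labels which are even at `i`
with some letter (`Li_apply_not` with `α = 1`). `1 - Qi i` is a projection (`Qi_mul_Qi`, `inner_Qi`). -/
theorem norm_kap_le (𝔉 : Fibr Γ C I) (hn : ∀ i, (𝔉.fib i).Nonempty) (e : C ↪ ℕ) (i : I)
    (ξ : L2 (Bs C)) : ‖kap 𝔉 e i ((1 - 𝔉.Qi i) ξ)‖ ≤ ‖ξ‖ := by
  classical
  set a : Finset C → C → ℝ := fun _ c => if 𝔉.p c = i then 1 else 0 with ha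
  have hkap : kap 𝔉 e i = Cl e a := rfl
  have hCB : CB a (√((𝔉.fib i).card : ℝ)) := CB_kap 𝔉 i
  set ζ : L2 (Bs C) := (1 - 𝔉.Qi i) ξ with hζ
  have hζξ : ‖ζ‖ ≤ ‖ξ‖ := by
    have hQQ : 𝔉.Qi i (𝔉.Qi i ξ) = 𝔉.Qi i ξ := by
      have h1 := congrArg (fun T : BL (Bs C) => T ξ) (𝔉.Qi_mul_Qi hn i)
      exact h1
    have hQζ : 𝔉.Qi i ζ = 0 := by
      rw [hζ, sub_apply, one_apply_eq_self, map_sub, hQQ, sub_self]
    have h1 : inner ℂ ζ ζ = inner ℂ ξ ζ := by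
      have h2 : inner ℂ (𝔉.Qi i ξ) ζ = 0 := by
        rw [𝔉.inner_Qi i ξ ζ, hQζ, inner_zero_right]
      have h3 : ζ = ξ - 𝔉.Qi i ξ := rfl
      calc inner ℂ ζ ζ = inner ℂ (ξ - 𝔉.Qi i ξ) ζ := by rw [← h3]
        _ = inner ℂ ξ ζ - inner ℂ (𝔉.Qi i ξ) ζ := inner_sub_left _ _ _
        _ = inner ℂ ξ ζ := by rw [h2, sub_zero]
    have h2 : ‖ζ‖ * ‖ζ‖ ≤ ‖ξ‖ * ‖ζ‖ := by
      have h3 : ‖(inner ℂ ζ ζ : ℂ)‖ = ‖ζ‖ * ‖ζ‖ := by
        rw [inner_self_eq_norm_sq_to_K]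
        simp [sq]
      rw [← h3, h1]
      exact norm_inner_le_norm ξ ζ
    rcases eq_or_lt_of_le (norm_nonneg ζ) with h3 | h3
    · rw [← h3]
      exact norm_nonneg ξ
    · exact le_of_mul_le_mul_right h2 h3
  refine le_trans ?_ hζξ
  rw [hkap]
  set w : Bs C → ℂ := fun b => ((∑ c ∈ b.F, a b.F c ^ 2 : ℝ) : ℂ) with hw
  set w' : Bs C → ℂ := fun b => if ∃ l ∈ 𝔉.Lt i, 𝔉.st i l b then w b else 0 with hw'
  have hwsum : ∀ b : Bs C, (∑ c ∈ b.F, a b.F c ^ 2 : ℝ) = ((b.F ∩ 𝔉.fib i).card : ℝ) := by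
    intro b
    have h1 : ∀ c ∈ b.F, a b.F c ^ 2 = if c ∈ 𝔉.fib i then (1 : ℝ) else 0 := by
      intro c _
      rw [ha]
      by_cases h2 : 𝔉.p c = i
      · simp [h2, 𝔉.mem_fib]
      · simp [h2, 𝔉.mem_fib]
    rw [Finset.sum_congr rfl h1, Finset.sum_boole, Finset.filter_mem_eq_inter]
  have hwb : ∀ b, ‖w b‖ ≤ (√((𝔉.fib i).card : ℝ)) ^ 2 := by
    intro b
    have h1 : (0 : ℝ) ≤ ∑ c ∈ b.F, a b.F c ^ 2 := Finset.sum_nonneg fun c _ => sq_nonneg _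
    rw [hw]
    simp only
    rw [Complex.norm_real, Real.norm_of_nonneg h1]
    exact hCB.bdd b.F
  have hw'b : ∀ b, ‖w' b‖ ≤ 1 := by
    intro b
    rw [hw']
    simp only
    split_ifs with h1
    · obtain ⟨l, hl, hst⟩ := h1
      have h2 : w b = ((b.F ∩ 𝔉.fib i).card : ℂ) := by
        rw [hw]
        simp only
        rw [hwsum b]
        norm_cast
      rw [h2, hst.2, Complex.norm_natCast]
      have h3 : l.toFinset.card ≤ 1 := by
        cases l with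
        | none => simp
        | some c => simp
      exact_mod_cast h3
    · simp
  have hζ0 : ∀ b : Bs C, (¬ ∃ l ∈ 𝔉.Lt i, 𝔉.st i l b) → (ζ : Bs C → ℂ) b = 0 := by
    intro b hb
    have hb' : ∀ l ∈ 𝔉.Lt i, ¬ 𝔉.st i l b := fun l hl hst => hb ⟨l, hl, hst⟩
    have h1 : (ζ : Bs C → ℂ) b = (ξ : Bs C → ℂ) b - (𝔉.Qi i ξ : Bs C → ℂ) b := rfl
    rw [h1, Fibr.Qi, 𝔉.Li_apply_not 1 (𝔉.kk i) hb' ξ]
    push_cast
    ring
  have hTT : Cl e a (Cl e a ζ) = dia w' ζ := by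
    have h1 := congrArg (fun T : BL (Bs C) => T ζ) (Cl_mul_self e hCB)
    have h2 : Cl e a (Cl e a ζ) = dia w ζ := h1
    rw [h2]
    ext b
    rw [dia_apply (by positivity) hwb, dia_apply zero_le_one hw'b]
    by_cases hb : ∃ l ∈ 𝔉.Lt i, 𝔉.st i l b
    · have h3 : w' b = w b := by rw [hw']; exact if_pos hb
      rw [h3]
    · rw [hζ0 b hb, mul_zero, mul_zero]
  have hfin : ‖Cl e a ζ‖ ^ 2 ≤ ‖ζ‖ ^ 2 := by
    have h1 : inner ℂ (Cl e a ζ) (Cl e a ζ) = inner ℂ (dia w' ζ) ζ := by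
      rw [← hTT, inner_Cl e hCB (Cl e a ζ) ζ]
    have h2 : ‖(inner ℂ (Cl e a ζ) (Cl e a ζ) : ℂ)‖ = ‖Cl e a ζ‖ ^ 2 := by
      rw [inner_self_eq_norm_sq_to_K]
      simp
    rw [← h2, h1]
    refine le_trans (norm_inner_le_norm _ _) ?_
    have h3 : ‖dia w' ζ‖ ≤ ‖ζ‖ := by
      refine le_trans (ContinuousLinearMap.le_opNorm _ _) ?_
      have h4 := norm_dia_le zero_le_one hw'b
      calc ‖dia w'‖ * ‖ζ‖ ≤ 1 * ‖ζ‖ := mul_le_mul_of_nonneg_right h4 (norm_nonneg _)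
        _ = ‖ζ‖ := one_mul _
    calc ‖dia w' ζ‖ * ‖ζ‖ ≤ ‖ζ‖ * ‖ζ‖ := mul_le_mul_of_nonneg_right h3 (norm_nonneg _)
      _ = ‖ζ‖ ^ 2 := by ring
  exact (pow_le_pow_iff_left₀ (norm_nonneg _) (norm_nonneg _) two_ne_zero).1 hfin

/-- PROOF: `Qi_comm_Cl` for the coefficients `[p c = i]`, which vanish on the fibre `j`. -/
theorem kap_comm_Qi (𝔉 : Fibr Γ C I) (e : C ↪ ℕ) {i j : I} (h : i ≠ j) :
    Commute (kap 𝔉 e i) (𝔉.Qi j) := by
  have h1 := 𝔉.Qi_comm_Cl e j (CB_kap 𝔉 i) (fun F c hc => by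
    have h2 : 𝔉.p c = j := (𝔉.mem_fib j c).1 hc
    have h3 : ¬ 𝔉.p c = i := fun h4 => h (h4.symm.trans h2)
    exact if_neg h3) (fun F c => rfl)
  exact h1.symm

/-- PROOF: for `Q = Qi i`, `κ = kap`: `Q κ Q` cancels: `κ Q - Q κ = (1 - Q) κ Q - Q κ (1 - Q)`, an identity in any ring. -/
theorem comm_split {R : Type} [Ring R] (Q κ : R) :
    κ * Q - Q * κ = (1 - Q) * κ * Q - Q * κ * (1 - Q) := by
  noncomm_ring

end Pool.Agent.Lib.MP_aa9b81_an.Rc
end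
end
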