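import Pool.Agent.Lib.MP_aa9b81_an.Mg.G002
import Pool.Agent.Lib.MP_aa9b81_an.Mg.G005
import Pool.Agent.Lib.MP_aa9b81_an.Mg.G011
import Pool.Agent.Lib.MP_aa9b81_an.Mg.G009
import Pool.Agent.Lib.MP_aa9b81_an.Mg.G004
import Pool.Agent.Lib.MP_aa9b81_an.Mg.G012
import Pool.Agent.Lib.MP_aa9b81_an.Mg.G008
import Pool.Agent.Lib.MP_aa9b81_an.Mg.G074
import Pool.Agent.Lib.MP_aa9b81_an.Mg.G006
import Pool.Agent.Lib.MP_aa9b81_an.Mg.G019
import Pool.Agent.Lib.MP_aa9b81_an.CutM.B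
import Pool.Agent.Lib.MP_aa9b81_an.TC.Pow
import Pool.Agent.Lib.MP_aa9b81_an.Mg.G022
import Pool.Agent.Lib.MP_aa9b81_an.Mg.G007

section

/-!
# Hereditary shifts, part M2: the compact operators of the module, and multipliers
-/

open scoped ENNReal Topology ZeroAtInfty
open Function Filter Set

noncomputable section

namespace Pool.Agent.Lib.MP_aa9b81_an.Hs

open Cut

variable {Γ B P : Type} [Group Γ] [MulAction Γ B] [Nonempty B] [TopologicalSpace P] [MulAction Γ P]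

variable [ContinuousConstSMul Γ P]

omit [TopologicalSpace P] [ContinuousConstSMul Γ P] in
private lemma M2_Ad_mul (E : SAct Γ B) (g : Γ) (x y : FB B P) :
    E.Ad g (x * y) = E.Ad g x * E.Ad g y := by
  refine FB.ext fun p => ?_
  have h : E.W g⁻¹ * E.W g = 1 := E.W_inv_mul g
  rw [FB.mul_apply, SAct.Ad_apply, SAct.Ad_apply, SAct.Ad_apply, FB.mul_apply]
  calc E.W g * (x (g⁻¹ • p) * y (g⁻¹ • p)) * E.W g⁻¹
      = E.W g * x (g⁻¹ • p) * 1 * (y (g⁻¹ • p) * E.W g⁻¹) := by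
        rw [mul_one]; simp only [mul_assoc]
    _ = _ := by rw [← h]; simp only [mul_assoc]

omit [TopologicalSpace P] [ContinuousConstSMul Γ P] in
private lemma M2_Ad_inv (E : SAct Γ B) (g : Γ) (x : FB B P) :
    E.Ad g (E.Ad g⁻¹ x) = x := by
  refine FB.ext fun p => ?_
  have h : E.W g * E.W g⁻¹ = 1 := E.W_mul_inv g
  rw [SAct.Ad_apply, SAct.Ad_apply]
  simp only [inv_inv, smul_inv_smul]
  calc E.W g * (E.W g⁻¹ * x p * E.W g) * E.W g⁻¹
      = (E.W g * E.W g⁻¹) * x p * (E.W g * E.W g⁻¹) := by simp only [mul_assoc]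
    _ = x p := by rw [h, one_mul, mul_one]

omit [TopologicalSpace P] [ContinuousConstSMul Γ P] in
private lemma M2_Ad_add (E : SAct Γ B) (g : Γ) (x y : FB B P) :
    E.Ad g (x + y) = E.Ad g x + E.Ad g y := by
  refine FB.ext fun p => ?_
  rw [FB.add_apply, SAct.Ad_apply, SAct.Ad_apply, SAct.Ad_apply, FB.add_apply, mul_add, add_mul]

omit [TopologicalSpace P] [ContinuousConstSMul Γ P] in
private lemma M2_Ad_smul (E : SAct Γ B) (g : Γ) (z : ℂ) (x : FB B P) :
    E.Ad g (z • x) = z • E.Ad g x := by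
  refine FB.ext fun p => ?_
  rw [FB.smul_apply, SAct.Ad_apply, SAct.Ad_apply, FB.smul_apply, mul_smul_comm, smul_mul_assoc]

omit [TopologicalSpace P] [ContinuousConstSMul Γ P] in
private lemma M2_Ad_zero (E : SAct Γ B) (g : Γ) : E.Ad g (0 : FB B P) = 0 := by
  refine FB.ext fun p => ?_
  rw [FB.zero_apply, SAct.Ad_apply, FB.zero_apply, mul_zero, zero_mul]

private lemma M2_good (U : B → Set P) (hUe : ∀ (g : Γ) b p, g • p ∈ U (g • b) ↔ p ∈ U b)
    (g : Γ) {f : C₀(P, ℂ)} {b b' : B} (hf : Good U f b b') :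
    Good U (shift g f) (g • b) (g • b') := by
  intro p hp
  rw [shift_apply] at hp
  obtain ⟨h1, h2⟩ := hf _ hp
  have h3 := (hUe g b (g⁻¹ • p)).mpr h1
  have h4 := (hUe g b' (g⁻¹ • p)).mpr h2
  rw [smul_inv_smul] at h3 h4
  exact ⟨h3, h4⟩

omit [Group Γ] [MulAction Γ B] [MulAction Γ P] [ContinuousConstSMul Γ P] in
private lemma M2_ge_mem (U : B → Set P) {f : C₀(P, ℂ)} {b b' : B} (hf : Good U f b b') :
    ge f b b' ∈ KE U :=
  Submodule.le_topologicalClosure _ (Submodule.subset_span ⟨b, b', f, hf, rfl⟩)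

private lemma M2_Ad_mem (E : SAct Γ B) (U : B → Set P)
    (hUe : ∀ (g : Γ) b p, g • p ∈ U (g • b) ↔ p ∈ U b)
    (g : Γ) {f : C₀(P, ℂ)} {b b' : B} (hf : Good U f b b') :
    E.Ad g (ge f b b') ∈ KE U := by
  rw [Ad_ge]
  exact Submodule.smul_mem _ _ (M2_ge_mem U (M2_good U hUe g hf))

/-- PROOF: as `Mlt.isMul_m1`, with `cov_mul_cov`: `cov g i j n * cov g' j j' (ge f b b') =
cov (g g') i j' (n * Ad g (ge f b b'))`, and `cov g' i' i (ge f b b') * cov g i j n =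
cov (g' g) i' j (ge f b b' * Ad g' n)`. -/
theorem Mlt.isMul_cov [T2Space P] (c : ℕ × B ≃ ℕ) (E : SAct Γ B) {U : B → Set P}
    (hU : ∀ b, IsOpen (U b)) (hUe : ∀ (g : Γ) b p, g • p ∈ U (g • b) ↔ p ∈ U b) {n : FB B P}
    (hn : Mlt U n) (g : Γ) (i j : ℕ) : IsMul (AE c E U) (cov c E g i j n) := by
  refine isMul_of_gen ?_
  rintro a ⟨g', i', j', b, b', f, hf, rfl⟩
  constructor
  · rw [cov_mul_cov]
    split_ifs
    · exact cov_mem_AE c E U _ _ _ (hn.mul_mem_KE hU (M2_Ad_mem E U hUe g hf))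
    · exact zero_mem (AE c E U)
  · rw [cov_mul_cov]
    split_ifs
    · refine cov_mem_AE c E U _ _ _ ?_
      have h1 : ge f b b' * E.Ad g' n = E.Ad g' (E.Ad g'⁻¹ (ge f b b') * n) := by
        rw [M2_Ad_mul, M2_Ad_inv]
      rw [h1, Ad_ge, smul_mul_assoc, M2_Ad_smul]
      refine Submodule.smul_mem _ _ ?_
      obtain ⟨A, F, hF, hA⟩ := hn.ge_mul hU (M2_good U hUe g'⁻¹ hf)
      rw [hA]
      have h2 : ∀ A' : Finset B, E.Ad g' (∑ a ∈ A', ge (F a) (g'⁻¹ • b) a) ∈ KE U := by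
        classical
        intro A'
        induction A' using Finset.induction_on with
        | empty =>
          rw [Finset.sum_empty, M2_Ad_zero]
          exact zero_mem _
        | insert a s ha ih =>
          rw [Finset.sum_insert ha, M2_Ad_add]
          exact add_mem (M2_Ad_mem E U hUe g' (hF a)) ih
      exact h2 A
    · exact zero_mem (AE c E U)

end Pool.Agent.Lib.MP_aa9b81_an.Hs
end
end

section

section
/-!
# The machine, part B0: the constant operator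
-/

open scoped ENNReal Topology
open Function

noncomputable section

namespace Pool.Agent.Lib.MP_aa9b81_an.Mc

open Cut Hs

variable {Γ I : Type} [Group Γ] [MulAction Γ I]

variable (Γ I) in
/-- All the sites have height `1`. -/
def H1 : Site Γ PUnit.{1} I where
  hh _ _ := 1
  nonneg _ _ := zero_le_one
  le_one _ _ := le_rfl
  cont _ := continuous_const
  equi _ _ _ := rfl

variable (w : Wt Γ I)

/-- The unit vector of the weights. -/
def tc (s : ℝ) (F : Finset I) (i : I) : ℝ := (H1 Γ I).uu w |s| PUnit.unit F i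

/-- The translated unit vector. -/
def tcg (g : Γ) (s : ℝ) (F : Finset I) (i : I) : ℝ := (H1 Γ I).ug w g |s| PUnit.unit F i

/-- The unit vector which does not see `L`. -/
def tch [DecidableEq I] (L : Finset I) (s : ℝ) (F : Finset I) (i : I) : ℝ :=
  (H1 Γ I).uh w L |s| PUnit.unit F i

variable [DecidableEq I]

theorem CB_tc (s : ℝ) : CB (tc w s) 1 := (H1 Γ I).CB_uu w (abs_nonneg s) PUnit.unit

theorem CB_tcg (g : Γ) (s : ℝ) : CB (tcg w g s) 1 := (H1 Γ I).CB_ug w g (abs_nonneg s) PUnit.unit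

theorem CB_tch (L : Finset I) (s : ℝ) : CB (tch w L s) 1 :=
  (H1 Γ I).CB_uh w L (abs_nonneg s) PUnit.unit

/-- The operator `T`. -/
def Tc (e : I ↪ ℕ) (s : ℝ) : BL (Bs I) := Cl e (tc w s)

/-- The translated operator. -/
def Tg (e : I ↪ ℕ) (g : Γ) (s : ℝ) : BL (Bs I) := Cl e (tcg w g s)

/-- The operator which does not see `L`. -/
def Th (e : I ↪ ℕ) (L : Finset I) (s : ℝ) : BL (Bs I) := Cl e (tch w L s)

theorem norm_Tc_le (e : I ↪ ℕ) (s : ℝ) : ‖Tc w e s‖ ≤ 1 := norm_Cl_le e (CB_tc w s)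

omit [DecidableEq I] in
theorem supp_H1 (p : PUnit.{1}) : (H1 Γ I).supp p = Set.univ := by
  ext i
  simp [Site.supp, H1]

/-- PROOF: `Es_apply`: every `b.F ⊆ univ`. -/
theorem Es_univ : (Es Set.univ : BL (Bs I)) = 1 := by
  classical
  refine ContinuousLinearMap.ext fun ξ => ?_
  ext b
  rw [Es_apply, if_pos (Set.subset_univ _)]
  rfl

/-- PROOF: `Cl_mul_self`, `Site.sum_uu_sq`, `Pv_eq`: coordinates (`dia_apply`). -/
theorem Tc_mul_Tc (e : I ↪ ℕ) (s : ℝ) : Tc w e s * Tc w e s = 1 - Pv := by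
  have h1 : ∀ b : Bs I, ((∑ i ∈ b.F, tc w s b.F i ^ 2 : ℝ) : ℂ) =
      if b.F = ∅ then 0 else 1 := by
    intro b
    have h2 := (H1 Γ I).sum_uu_sq w (abs_nonneg s) PUnit.unit b.F
    unfold tc
    rw [h2]
    split_ifs <;> simp
  unfold Tc
  rw [Cl_mul_self e (CB_tc w s), Pv_eq]
  simp only [h1]
  refine ContinuousLinearMap.ext fun ξ => ?_
  ext b
  rw [dia_apply zero_le_one (fun b => by split_ifs <;> simp)]
  change _ = (ξ : Bs I → ℂ) b - (dia (fun b : Bs I => if b.F = ∅ then (1 : ℂ) else 0) ξ :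
    Bs I → ℂ) b
  rw [dia_apply zero_le_one (fun b => by split_ifs <;> simp)]
  split_ifs <;> simp

end Pool.Agent.Lib.MP_aa9b81_an.Mc
end

end


section
/-!
# The machine, part C1: representations
-/

open scoped ENNReal Topology ZeroAtInfty
open Function

noncomputable section

namespace Pool.Agent.Lib.MP_aa9b81_an.Mc

open Cut Hs

/-- The coefficients `a` do not see the sites of `L`. -/
structure Uns {I : Type} [DecidableEq I] (L : Finset I) (a : Finset I → I → ℝ) : Prop where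
  zero : ∀ F, ∀ i ∈ L, a F i = 0
  sdiff : ∀ F j, a F j = a (F \ L) j

/-- A representation of the crossed product of `X` on the module over `P` with the basis `Bs I`, without condition on the
commutators. -/
structure Rp0 (Γ X P I : Type) [Group Γ] [TopologicalSpace X] [MulAction Γ X] [TopologicalSpace P]
    [MulAction Γ P] [MulAction Γ I] [DecidableEq I] (c : ℕ × Bs I ≃ ℕ) (e : I ↪ ℕ) where
  /-- a dense set of functions -/
  dom : Set C₀(X, ℂ)
  /-- the representation of the functions -/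
  n : C₀(X, ℂ) → FB (Bs I) P
  /-- the representation of the crossed product -/
  Θ : cp Γ X →ₙ+* Fam Γ P
  norm_le : ∀ a, ‖Θ a‖ ≤ ‖(a : Fam Γ X)‖
  onGen : ∀ f ∈ dom, ∀ g i j (hm : gen f g i j ∈ cp Γ X),
    Θ ⟨gen f g i j, hm⟩ = cov c (sact e) g i j (n f)
  dense : ∀ (f : C₀(X, ℂ)) (ε : ℝ), 0 < ε →
    ∃ l : List C₀(X, ℂ), (∀ f' ∈ l, f' ∈ dom) ∧ ‖f - l.sum‖ ≤ ε
  mz : ∀ f ∈ dom, MZ (n f)
  par : ∀ f ∈ dom, cst Pp * n f = n f * cst Pp

/-- A representation of the crossed product of `X` on the module over `P` with the basis `Bs I`, which depends on finitely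
many sites only. -/
structure Rp (Γ X P I : Type) [Group Γ] [TopologicalSpace X] [MulAction Γ X] [TopologicalSpace P]
    [MulAction Γ P] [MulAction Γ I] [DecidableEq I] (c : ℕ × Bs I ≃ ℕ) (e : I ↪ ℕ)
    extends Rp0 Γ X P I c e where
  loc : ∀ f ∈ dom, ∃ L : Finset I, ∀ (a : Finset I → I → ℝ) (C : ℝ), CB a C → Uns L a →
    Commute (n f) (cst (Cl e a))

variable {Γ X P I : Type} [Group Γ] [TopologicalSpace X] [MulAction Γ X] [TopologicalSpace P]
  [MulAction Γ P] [MulAction Γ I] [DecidableEq I] {c : ℕ × Bs I ≃ ℕ} {e : I ↪ ℕ}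

/-- INDUCTION PRINCIPLE. PROOF: `Cut.exists_val_near`: `a` is near to `val l`; by induction on `l` (`hadd`, `h0`) it is enough
to treat `d.gen = gen f g i j`; `dense` for `f`, the sum of a list (`Cut.gen_add`, `gen_zero`, induction),
`Cut.norm_gen_le`, `hlim`. Compare `Hs.cp_induction`, `Hs.cp_induction'`. -/
theorem Rp.ind [ContinuousConstSMul Γ X] {dom : Set C₀(X, ℂ)}
    (dense : ∀ (f : C₀(X, ℂ)) (ε : ℝ), 0 < ε →
      ∃ l : List C₀(X, ℂ), (∀ f' ∈ l, f' ∈ dom) ∧ ‖f - l.sum‖ ≤ ε) {p : cp Γ X → Prop}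
    (hgen : ∀ f ∈ dom, ∀ g i j (hm : gen f g i j ∈ cp Γ X), p ⟨gen f g i j, hm⟩)
    (h0 : p 0) (hadd : ∀ a b, p a → p b → p (a + b))
    (hlim : ∀ a : cp Γ X,
      (∀ ε : ℝ, 0 < ε → ∃ b : cp Γ X, p b ∧ ‖(a : Fam Γ X) - b‖ ≤ ε) → p a) :
    ∀ a, p a := by
  have hmem : ∀ (f : C₀(X, ℂ)) (g : Γ) (i j : ℕ), (gen f g i j : Fam Γ X) ∈ cp Γ X :=
    fun f g i j => NonUnitalSubalgebra.le_topologicalClosure _
      (NonUnitalAlgebra.subset_adjoin ℂ ⟨f, g, i, j, rfl⟩)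
  have h1 : ∀ (l : List C₀(X, ℂ)), (∀ f' ∈ l, f' ∈ dom) → ∀ (g : Γ) (i j : ℕ),
      p ⟨gen l.sum g i j, hmem l.sum g i j⟩ := by
    intro l
    induction l with
    | nil =>
      intro _ g i j
      have e : (⟨gen (List.sum ([] : List C₀(X, ℂ))) g i j, hmem _ g i j⟩ : cp Γ X) = 0 := by
        refine Subtype.ext ?_
        show (gen (List.sum ([] : List C₀(X, ℂ))) g i j : Fam Γ X) = 0
        rw [List.sum_nil, gen_zero]
      rw [e]
      exact h0
    | cons f l ih =>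
      intro hl g i j
      have e : (⟨gen (List.sum (f :: l)) g i j, hmem _ g i j⟩ : cp Γ X) =
          ⟨gen f g i j, hmem f g i j⟩ + ⟨gen l.sum g i j, hmem l.sum g i j⟩ := by
        refine Subtype.ext ?_
        show (gen (List.sum (f :: l)) g i j : Fam Γ X) = gen f g i j + gen l.sum g i j
        rw [List.sum_cons, gen_add]
      rw [e]
      exact hadd _ _ (hgen f (hl f List.mem_cons_self) g i j _)
        (ih (fun f' hf' => hl f' (List.mem_cons_of_mem _ hf')) g i j)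
  have h2 : ∀ (f : C₀(X, ℂ)) (g : Γ) (i j : ℕ), p ⟨gen f g i j, hmem f g i j⟩ := by
    intro f g i j
    refine hlim _ fun ε hε => ?_
    obtain ⟨l, hl, hn⟩ := dense f ε hε
    refine ⟨⟨gen l.sum g i j, hmem l.sum g i j⟩, h1 l hl g i j, ?_⟩
    show ‖(gen f g i j : Fam Γ X) - gen l.sum g i j‖ ≤ ε
    rw [← gen_sub]
    exact (norm_gen_le _ _ _ _).trans hn
  have h3 : ∀ l : List (Dat Γ X), p ⟨val l, val_mem l⟩ := by
    intro l
    induction l with
    | nil =>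
      have e : (⟨val ([] : List (Dat Γ X)), val_mem _⟩ : cp Γ X) = 0 := Subtype.ext val_nil
      rw [e]
      exact h0
    | cons d l ih =>
      have e : (⟨val (d :: l), val_mem _⟩ : cp Γ X) =
          ⟨gen d.f d.g d.i d.j, hmem _ _ _ _⟩ + ⟨val l, val_mem l⟩ := by
        refine Subtype.ext ?_
        show val (d :: l) = gen d.f d.g d.i d.j + val l
        rw [val_cons]
        rfl
      rw [e]
      exact hadd _ _ (h2 _ _ _ _) ih
  intro a
  refine hlim a fun ε hε => ?_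
  obtain ⟨l, _, hl⟩ := exists_val_near a.2 hε
  exact ⟨⟨val l, val_mem l⟩, h3 l, hl.le⟩

/-- The condition on the commutators. -/
def Rp0.Cpt (ρ : Rp0 Γ X P I c e) (w : Wt Γ I) (s : ℝ) : Prop :=
  ∀ f ∈ ρ.dom, ∀ g, ρ.n f * cst (Tg w e g s) - cst (Tc w e s) * ρ.n f ∈
    KE (fun _ : Bs I => (Set.univ : Set P))

theorem Rp0.sub_le (ρ : Rp0 Γ X P I c e) (a b : cp Γ X) :
    ‖ρ.Θ a - ρ.Θ b‖ ≤ ‖(a : Fam Γ X) - b‖ := by
  rw [← map_sub]
  exact ρ.norm_le (a - b)

end Pool.Agent.Lib.MP_aa9b81_an.Mc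
end

end


section
/-!
# The machine, part G1: the rotated cylinder projections
-/

open scoped ENNReal Topology
open Function

noncomputable section

namespace Pool.Agent.Lib.MP_aa9b81_an.Mc

open Cut Hs

variable {I : Type} [DecidableEq I]

/-- The projection onto the span of the pairs with `F ∩ M = m`. -/
def cyl (M m : Finset I) : BL (Bs I) := dia fun b => if b.F ∩ M = m then 1 else 0

theorem norm_cyl_le (M m : Finset I) : ‖(cyl M m : BL (Bs I))‖ ≤ 1 :=
  norm_dia_le zero_le_one fun b => by split_ifs <;> simp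

/-- The rotated cylinder projection. -/
def EM (M m : Finset I) (φ : I → ℝ) : BL (Bs I) :=
  (UKf M φ : BL (Bs I)) * cyl M m * ((UKf M φ)⁻¹ : (BL (Bs I))ˣ).val

theorem G1_cyl_apply (M m : Finset I) (ξ : L2 (Bs I)) (b : Bs I) :
    (cyl M m ξ : Bs I → ℂ) b = if b.F ∩ M = m then (ξ : Bs I → ℂ) b else 0 := by
  rw [cyl, dia_apply zero_le_one (fun b => by split_ifs <;> simp)]
  split_ifs <;> simp

theorem G1_cyl_comm_Pp (M m : Finset I) : Commute (cyl M m : BL (Bs I)) Pp := by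
  refine ContinuousLinearMap.ext fun ξ => ?_
  ext b
  rw [ContinuousLinearMap.mul_apply, ContinuousLinearMap.mul_apply, Pp_apply, G1_cyl_apply,
    Pp_apply, G1_cyl_apply]
  split_ifs <;> rfl

/-- PROOF: `norm_UKf_le`, `norm_cyl_le`. -/
theorem norm_EM_le (M m : Finset I) (φ : I → ℝ) : ‖EM M m φ‖ ≤ 1 := by
  unfold EM
  obtain ⟨h1, h2⟩ := norm_UKf_le M φ
  have h3 := norm_cyl_le M m
  refine (norm_mul_le _ _).trans ?_
  have h4 : ‖(UKf M φ : BL (Bs I)) * cyl M m‖ ≤ 1 := by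
    refine (norm_mul_le _ _).trans ?_
    have := mul_le_mul h1 h3 (norm_nonneg _) zero_le_one
    simpa using this
  have := mul_le_mul h4 h2 (norm_nonneg _) zero_le_one
  simpa using this

/-- PROOF: `UKf_comm` with `Ui_comm_Pp`; `cyl` and `Pp` are multiplication operators. -/
theorem EM_comm_Pp (M m : Finset I) (φ : I → ℝ) : Commute (EM M m φ) Pp := by
  have hU := UKf_comm (K := M) (φ := φ) (X := (Pp : BL (Bs I))) fun i _ => Ui_comm_Pp i (φ i)
  unfold EM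
  exact Commute.mul_left (Commute.mul_left hU.1 (G1_cyl_comm_Pp M m)) hU.2

/-- PROOF: coordinates: `(tog i b).F = b.F`. -/
theorem dia_comm_Cl (e : I ↪ ℕ) {a : Finset I → I → ℝ} {C : ℝ} (h : CB a C) {ψ : Finset I → ℂ}
    {C' : ℝ} (hC' : 0 ≤ C') (hψ : ∀ F, ‖ψ F‖ ≤ C') :
    Commute (dia fun b : Bs I => ψ b.F) (Cl e a) := by
  have hb : ∀ b : Bs I, ‖ψ b.F‖ ≤ C' := fun b => hψ b.F
  refine ContinuousLinearMap.ext fun ξ => ?_
  ext b
  change (dia (fun b : Bs I => ψ b.F) (Cl e a ξ) : Bs I → ℂ) b =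
    (Cl e a (dia (fun b : Bs I => ψ b.F) ξ) : Bs I → ℂ) b
  rw [dia_apply hC' hb, Cl_apply e h, Cl_apply e h, clF, clF, Finset.mul_sum]
  refine Finset.sum_congr rfl fun i hi => ?_
  rw [dia_apply hC' hb, (tog_of_mem hi).1]
  ring

/-- PROOF: `UKf_comm` with `Ui_comm_Cl` (`L = M`), `dia_comm_Cl` for `cyl`. -/
theorem EM_comm_Cl (e : I ↪ ℕ) {a : Finset I → I → ℝ} {C : ℝ} (h : CB a C) {M : Finset I}
    (ha : Uns M a) (m : Finset I) (φ : I → ℝ) : Commute (EM M m φ) (Cl e a) := by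
  have hU := UKf_comm (K := M) (φ := φ) (X := Cl e a) fun i hi =>
    Ui_comm_Cl e h ha.zero ha.sdiff hi (φ i)
  have hc : Commute (cyl M m : BL (Bs I)) (Cl e a) :=
    dia_comm_Cl e h (ψ := fun F => if F ∩ M = m then 1 else 0) zero_le_one
      fun F => by split_ifs <;> simp
  unfold EM
  exact Commute.mul_left (Commute.mul_left hU.1 hc) hU.2

/-- PROOF: `continuous_UKf`, products with constants. -/
theorem continuous_EM (M m : Finset I) : Continuous fun φ : I → ℝ => EM M m φ := by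
  obtain ⟨h1, h2⟩ := continuous_UKf (I := I) M
  unfold EM
  exact (h1.mul continuous_const).mul h2

end Pool.Agent.Lib.MP_aa9b81_an.Mc
end

end


section
/-!
# The machine, part G1: the rotated cylinder projections
-/

open scoped ENNReal Topology
open Function

noncomputable section

namespace Pool.Agent.Lib.MP_aa9b81_an.Mc

open Cut Hs

variable {I : Type} [DecidableEq I]

theorem G1b_cyl_apply (M m : Finset I) (ξ : L2 (Bs I)) (b : Bs I) :
    (cyl M m ξ : Bs I → ℂ) b = if b.F ∩ M = m then (ξ : Bs I → ℂ) b else 0 := by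
  rw [cyl, dia_apply zero_le_one (fun b => by split_ifs <;> simp)]
  split_ifs <;> simp

theorem G1b_Ui_apply (i : I) (φ : ℝ) (ξ : L2 (Bs I)) (b : Bs I) :
    (Ui i φ ξ : Bs I → ℂ) b = (ξ : Bs I → ℂ) b
      + ((Real.cos φ - 1 : ℝ) : ℂ) * (if i ∈ b.S then 0 else (ξ : Bs I → ℂ) b)
      + ((Real.sin φ : ℝ) : ℂ) * (Jw i b * (ξ : Bs I → ℂ) (fl i b)) := by
  have h : Ui i φ ξ = ξ + ((Real.cos φ - 1 : ℝ) : ℂ) • Ni i ξ + ((Real.sin φ : ℝ) : ℂ) • Ji i ξ := by
    unfold Ui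
    simp only [ContinuousLinearMap.add_apply, ContinuousLinearMap.smul_apply,
      ContinuousLinearMap.one_apply]
  rw [h, lp.coeFn_add, Pi.add_apply, lp.coeFn_add, Pi.add_apply, lp.coeFn_smul, Pi.smul_apply,
    lp.coeFn_smul, Pi.smul_apply, Ni_apply, Ji_apply, smul_eq_mul, smul_eq_mul]

theorem G1b_fl_S (i : I) (b : Bs I) : (fl i b).S = b.S := by
  unfold fl
  split_ifs <;> rfl

theorem G1b_fl_F {i : I} {b : Bs I} (h : i ∉ b.S) : (fl i b).F = tg i b.F := by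
  unfold fl
  rw [dif_neg h]
  rfl

theorem G1b_fl_of_mem {i : I} {b : Bs I} (h : i ∈ b.S) : fl i b = b := by
  unfold fl
  rw [dif_pos h]

theorem G1b_tg_tg (i : I) (S : Finset I) : tg i (tg i S) = S := by
  unfold tg
  by_cases h : i ∈ S
  · rw [if_pos h, if_neg (Finset.notMem_erase i S), Finset.insert_erase h]
  · rw [if_neg h, if_pos (Finset.mem_insert_self i S), Finset.erase_insert h]

theorem G1b_fl_fl (i : I) (b : Bs I) : fl i (fl i b) = b := by
  by_cases h : i ∈ b.S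
  · rw [G1b_fl_of_mem h, G1b_fl_of_mem h]
  · have h' : i ∉ (fl i b).S := by rw [G1b_fl_S]; exact h
    apply Bs.ext
    · rw [G1b_fl_F h', G1b_fl_F h, G1b_tg_tg]
    · rw [G1b_fl_S, G1b_fl_S]

theorem G1b_Jw {i : I} {b : Bs I} (h : i ∉ b.S) : Jw i b * Jw i (fl i b) = -1 := by
  have h' : i ∉ (fl i b).S := by rw [G1b_fl_S]; exact h
  unfold Jw
  rw [if_neg h, if_neg h', G1b_fl_F h]
  by_cases hF : i ∈ b.F
  · have hF' : i ∉ tg i b.F := by
      unfold tg
      rw [if_pos hF]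
      exact Finset.notMem_erase i _
    rw [if_pos hF, if_neg hF', one_mul]
  · have hF' : i ∈ tg i b.F := by
      unfold tg
      rw [if_neg hF]
      exact Finset.mem_insert_self i _
    rw [if_neg hF, if_pos hF', mul_one]

/-- PROOF: `ker_UKf_supp`, `cyl` is diagonal; `ker (X * Y) b b' = ∑ ker X b a ker Y a b'` for row finite `X`
(`apply_eq_sum_ker`). -/
theorem ker_EM_supp (M m : Finset I) (φ : I → ℝ) (b b' : Bs I) (h : ker (EM M m φ) b b' ≠ 0) :
    b'.S = b.S ∧ b'.F \ M = b.F \ M := by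
  by_contra hcon
  apply h
  obtain ⟨A, hA⟩ : ∃ A : Finset (Bs I), ∀ a, a ∈ A ↔ (a.S = b.S ∧ a.F \ M = b.F \ M) :=
    ⟨(finite_supp M b).toFinset, fun a => (finite_supp M b).mem_toFinset⟩
  have h1 : ∀ a ∉ A, ker (UKf M φ : BL (Bs I)) b a = 0 := by
    intro a ha
    by_contra h2
    exact ha ((hA a).2 ((ker_UKf_supp M φ b a).1 h2))
  have h3 : ker (EM M m φ) b b' = ((UKf M φ : BL (Bs I))
      (cyl M m (((UKf M φ)⁻¹ : (BL (Bs I))ˣ).val (bv b'))) : Bs I → ℂ) b := rfl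
  rw [h3, apply_eq_sum_ker _ b h1]
  refine Finset.sum_eq_zero fun a ha => ?_
  obtain ⟨h4, h5⟩ := (hA a).1 ha
  rw [G1b_cyl_apply]
  by_cases h6 : ker ((UKf M φ)⁻¹ : (BL (Bs I))ˣ).val a b' = 0
  · have h7 : ((((UKf M φ)⁻¹ : (BL (Bs I))ˣ).val (bv b')) : Bs I → ℂ) a = 0 := h6
    rw [h7]
    split_ifs <;> rw [mul_zero]
  · obtain ⟨h7, h8⟩ := (ker_UKf_supp M φ a b').2 h6
    exact absurd ⟨h7.trans h4, h8.trans h5⟩ hcon

/-- PROOF: coordinates: `(dia ψ ξ) = ..`: with `ker (X * dia ψ) b b' = ker X b b' * ψ b'` (`dia ψ (bv b') = ψ b' • bv b'`). -/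
theorem ker_mul_dia (X : BL (Bs I)) {ψ : Bs I → ℂ} {C : ℝ} (hC : 0 ≤ C) (hψ : ∀ b, ‖ψ b‖ ≤ C)
    (b b' : Bs I) : ker (X * dia ψ) b b' = ker X b b' * ψ b' := by
  have h1 : dia ψ (bv b') = ψ b' • bv b' := by
    ext a
    rw [dia_apply hC hψ, lp.coeFn_smul, Pi.smul_apply, smul_eq_mul]
    by_cases h : a = b'
    · rw [h]
    · have h2 : (bv b' : Bs I → ℂ) a = 0 := by
        classical
        unfold bv
        rw [lp.single_apply_ne _ _ _ h]
      rw [h2, mul_zero, mul_zero]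
  have h2 : ker (X * dia ψ) b b' = (X (dia ψ (bv b')) : Bs I → ℂ) b := rfl
  rw [h2, h1, map_smul, lp.coeFn_smul, Pi.smul_apply, smul_eq_mul, mul_comm]
  rfl

/-- Rotation by `π/2` exchanges `i ∉ F` and `i ∈ F ∖ S`. PROOF: coordinates: `cos (π/2) = 0`, `sin (π/2) = 1`:
`Ui i (π/2) = 1 - Ni i + Ji i`; at `b` with `i ∉ b.S` the left side is `ψ (fl i b) ξ b`, as the weights of `Ji` at `b`
and `fl i b` are opposite; at `b` with `i ∈ b.S` it is `ψ b ξ b`, and `fl i b = b`. -/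
theorem Ui_pi_conj (i : I) {ψ : Bs I → ℂ} {C : ℝ} (hC : 0 ≤ C) (hψ : ∀ b, ‖ψ b‖ ≤ C) :
    Ui i (Real.pi / 2) * dia ψ * Ui i (-(Real.pi / 2)) = dia fun b => ψ (fl i b) := by
  refine ContinuousLinearMap.ext fun ξ => ?_
  ext b
  change (Ui i (Real.pi / 2) (dia ψ (Ui i (-(Real.pi / 2)) ξ)) : Bs I → ℂ) b = _
  rw [dia_apply hC (fun b => hψ (fl i b)), G1b_Ui_apply, dia_apply hC hψ, dia_apply hC hψ,
    G1b_Ui_apply, G1b_Ui_apply, Real.cos_neg, Real.cos_pi_div_two, Real.sin_neg,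
    Real.sin_pi_div_two, G1b_fl_fl, G1b_fl_S]
  by_cases h : i ∈ b.S
  · rw [G1b_fl_of_mem h]
    simp [h, Jw]
  · have h1 := G1b_Jw h
    simp only [h, if_false]
    push_cast
    linear_combination (-(ψ (fl i b) * (ξ : Bs I → ℂ) b)) * h1

/-- PROOF: coordinates: `(fl i b).S = b.S`; if `ψ (fl i b) = ψ b` for all `b`, then `dia ψ` commutes with `Ni i` (a
multiplication operator) and `Ji i`. -/
theorem Ui_comm_dia (i : I) (φ : ℝ) {ψ : Bs I → ℂ} {C : ℝ} (hC : 0 ≤ C) (hψ : ∀ b, ‖ψ b‖ ≤ C)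
    (h : ∀ b, ψ (fl i b) = ψ b) : Commute (Ui i φ) (dia ψ) := by
  refine ContinuousLinearMap.ext fun ξ => ?_
  ext b
  change (Ui i φ (dia ψ ξ) : Bs I → ℂ) b = (dia ψ (Ui i φ ξ) : Bs I → ℂ) b
  rw [dia_apply hC hψ, G1b_Ui_apply, G1b_Ui_apply, dia_apply hC hψ, dia_apply hC hψ, h]
  split_ifs <;> ring

end Pool.Agent.Lib.MP_aa9b81_an.Mc
end

end
end

section

/-!
# The machine, part B0: the constant operator
-/

open scoped ENNReal Topology
open Function

noncomputable section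

namespace Pool.Agent.Lib.MP_aa9b81_an.Mc

open Cut Hs

variable {Γ I : Type} [Group Γ] [MulAction Γ I]

variable (w : Wt Γ I)

variable [DecidableEq I]

private lemma B0b_Pv_apply (ξ : L2 (Bs I)) (b : Bs I) :
    (Pv ξ : Bs I → ℂ) b = if b.F = ∅ then (ξ : Bs I → ℂ) b else 0 := by
  rw [Pv_eq, dia_apply zero_le_one (fun b => by split_ifs <;> simp)]
  split_ifs <;> simp


/-- PROOF: `Pp_mul_Cl`. -/
theorem Pp_mul_Tc (e : I ↪ ℕ) (s : ℝ) : Pp * Tc w e s = Tc w e s * Pm := by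
  exact Pp_mul_Cl e (CB_tc w s)

theorem Pm_mul_Tc (e : I ↪ ℕ) (s : ℝ) : Pm * Tc w e s = Tc w e s * Pp := by
  exact Pm_mul_Cl e (CB_tc w s)

/-- PROOF: `Pv_eq`, coordinates: the value of `Cl ..` at `vac` is an empty sum. -/
theorem Pv_mul_Tc (e : I ↪ ℕ) (s : ℝ) : Pv * Tc w e s = 0 := by
  refine ContinuousLinearMap.ext fun ξ => ?_
  ext b
  change (Pv (Cl e (tc w s) ξ) : Bs I → ℂ) b = 0
  rw [B0b_Pv_apply]
  split_ifs with hb
  · rw [Cl_apply e (CB_tc w s), clF, hb, Finset.sum_empty]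
  · rfl

/-- PROOF: coordinates: `Pv ξ` is zero at all `b` with `b.F ≠ ∅`, so at all the `tog i b`, `i ∈ b.F`. -/
theorem Tc_mul_Pv (e : I ↪ ℕ) (s : ℝ) : Tc w e s * Pv = 0 := by
  refine ContinuousLinearMap.ext fun ξ => ?_
  ext b
  change (Cl e (tc w s) (Pv ξ) : Bs I → ℂ) b = 0
  rw [Cl_apply e (CB_tc w s), clF]
  refine Finset.sum_eq_zero fun i hi => ?_
  rw [B0b_Pv_apply, (tog_of_mem hi).1, if_neg (Finset.ne_empty_of_mem hi), mul_zero, mul_zero]

/-- PROOF: `W_mul_Cl`; `tcg w g s F i = tc w s (gF g⁻¹ F) (g⁻¹ • i)` by definition (`Site.ug`; `g⁻¹ • PUnit.unit = PUnit.unit`). -/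
theorem W_mul_Tc (e : I ↪ ℕ) (g : Γ) (s : ℝ) :
    (sact e : SAct Γ (Bs I)).W g * Tc w e s = Tg w e g s * (sact e : SAct Γ (Bs I)).W g := by
  exact W_mul_Cl e (CB_tc w s) g

end Pool.Agent.Lib.MP_aa9b81_an.Mc
end
end

section

/-!
# The machine, part C0: the crossed product as the compact operators of the constant module
-/

open scoped ENNReal Topology ZeroAtInfty
open Function

noncomputable section

namespace Pool.Agent.Lib.MP_aa9b81_an.Mc

open Cut Hs

section General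

variable {Γ B P : Type} [Group Γ] [MulAction Γ B] [Nonempty B] [TopologicalSpace P] [MulAction Γ P]

/-- PROOF: `≤` is `AE_le_cp`. `≥`: `cp Γ P` is the closure of the algebra generated by the `gen f g k l`
(`NonUnitalSubalgebra.topologicalClosure_mono`-like, `NonUnitalAlgebra.adjoin_le`); with `(i, b) = c.symm k`,
`(j, b'') = c.symm l`, `b' = g • b''`: `cov c E g i j (ge f b b') = E.ε g (g⁻¹ • b') • gen f g k l` (`cov_ge`), and
`E.ε ≠ 0` (`E.norm`); the element on the left is in `AEgen` (`Good` is trivial). -/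
theorem AE_univ (c : ℕ × B ≃ ℕ) (E : SAct Γ B) :
    AE c E (fun _ => (Set.univ : Set P)) = cp Γ P := by
  refine le_antisymm (AE_le_cp c E _) ?_
  refine NonUnitalSubalgebra.topologicalClosure_minimal ?_
    (isClosed_AE c E (fun _ => (Set.univ : Set P)))
  refine NonUnitalAlgebra.adjoin_le ?_
  rintro a ⟨f, g, k, l, rfl⟩
  obtain ⟨⟨i, b⟩, rfl⟩ := c.surjective k
  obtain ⟨⟨j, b''⟩, rfl⟩ := c.surjective l
  have h1 := cov_ge c E g i j f b (g • b'')
  rw [inv_smul_smul] at h1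
  have h2 : cov c E g i j (ge f b (g • b'')) ∈ AE c E (fun _ => (Set.univ : Set P)) :=
    NonUnitalSubalgebra.le_topologicalClosure _ (NonUnitalAlgebra.subset_adjoin ℂ
      ⟨g, i, j, b, g • b'', f, fun _ _ => ⟨Set.mem_univ _, Set.mem_univ _⟩, rfl⟩)
  have h3 : E.ε g b'' ≠ 0 := by
    intro h
    have := E.norm g b''
    rw [h, norm_zero] at this
    exact zero_ne_one this
  have h4 := (AE c E (fun _ => (Set.univ : Set P))).smul_mem (E.ε g b'')⁻¹ h2
  rw [h1, smul_smul, inv_mul_cancel₀ h3, one_smul] at h4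
  exact h4

theorem cov_mem_cp (c : ℕ × B ≃ ℕ) (E : SAct Γ B) (g : Γ) (i j : ℕ) {n : FB B P}
    (hn : n ∈ KE (fun _ : B => (Set.univ : Set P))) : cov c E g i j n ∈ cp Γ P := by
  rw [← AE_univ c E]
  exact cov_mem_AE c E _ g i j hn

variable [ContinuousConstSMul Γ P] [T2Space P]

theorem isMul_m1_cp (c : ℕ × B ≃ ℕ) (E : SAct Γ B) {n : FB B P}
    (hn : Mlt (fun _ => (Set.univ : Set P)) n) : IsMul (cp Γ P) (m1 c n) := by
  rw [← AE_univ c E]
  exact hn.isMul_m1 c E (fun _ => isOpen_univ) (fun _ _ _ => ⟨fun _ => trivial, fun _ => trivial⟩)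

theorem isMul_cov_cp (c : ℕ × B ≃ ℕ) (E : SAct Γ B) {n : FB B P}
    (hn : Mlt (fun _ => (Set.univ : Set P)) n) (g : Γ) (i j : ℕ) :
    IsMul (cp Γ P) (cov c E g i j n) := by
  rw [← AE_univ c E]
  exact hn.isMul_cov c E (fun _ => isOpen_univ)
    (fun _ _ _ => ⟨fun _ => trivial, fun _ => trivial⟩) g i j

omit [Group Γ] [MulAction Γ B] [MulAction Γ P] [ContinuousConstSMul Γ P] [T2Space P] in
theorem Mlt_cst {X : BL B} (hr : ∀ b, ∃ A : Finset B, ∀ b' ∉ A, ker X b b' = 0)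
    (hc : ∀ b', ∃ A : Finset B, ∀ b ∉ A, ker X b b' = 0) :
    Mlt (fun _ => (Set.univ : Set P)) (cst X) where
  row b := (hr b).imp fun _ h _ => h
  col b := (hc b).imp fun _ h _ => h
  cont b b' := continuousOn_const (c := ker X b b')
  cont' b b' := continuousOn_const (c := ker X b b')
  supp _ _ _ _ := ⟨fun _ => trivial, fun _ => trivial⟩

end General

variable {Γ P I : Type} [Group Γ] [TopologicalSpace P] [MulAction Γ P] [MulAction Γ I]
  [DecidableEq I]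

end Pool.Agent.Lib.MP_aa9b81_an.Mc
end
end

section

/-!
# The machine, part C0: the crossed product as the compact operators of the constant module
-/

open scoped ENNReal Topology ZeroAtInfty
open Function

noncomputable section

namespace Pool.Agent.Lib.MP_aa9b81_an.Mc

open Cut Hs

variable {Γ P I : Type} [Group Γ] [TopologicalSpace P] [MulAction Γ P] [MulAction Γ I]
  [DecidableEq I]

private theorem C0b_tog_tog {i : I} {b : Bs I} (h : i ∈ b.F) : tog i (tog i b) = b := by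
  have h1 := tog_of_mem h
  have h2 : i ∈ (tog i b).F := by rw [h1.1]; exact h
  have h3 := tog_of_mem h2
  refine Bs.ext (h3.1.trans h1.1) ?_
  rw [h3.2, h1.2]
  unfold tg
  by_cases hS : i ∈ b.S
  · rw [if_pos hS, if_neg (Finset.notMem_erase i b.S), Finset.insert_erase hS]
  · rw [if_neg hS, if_pos (Finset.mem_insert_self i b.S), Finset.erase_insert hS]

omit [Group Γ] [MulAction Γ P] [MulAction Γ I] in
/-- PROOF: `Mlt_cst`, `ker_Cl`: the row of `b` is supported in the finite set of the `tog i b`, `i ∈ b.F`; the column of `b'`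
in the finite set of the `tog i b'`, `i ∈ b'.F` (`b' = tog i b` with `i ∈ b.F` gives `b'.F = b.F`, `b = tog i b'`). -/
theorem Mlt_Cl (e : I ↪ ℕ) {a : Finset I → I → ℝ} {C : ℝ} (h : CB a C) :
    Mlt (fun _ => (Set.univ : Set P)) (cst (Cl e a)) := by
  apply Mlt_cst
  · intro b
    have hfin : (Set.range fun i : b.F => tog (i : I) b).Finite := Set.finite_range _
    refine ⟨hfin.toFinset, fun b' hb' => ?_⟩
    rw [ker_Cl e h]
    apply Finset.sum_eq_zero
    intro i hi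
    rw [if_neg, mul_zero, mul_zero]
    intro hcon
    apply hb'
    rw [Set.Finite.mem_toFinset]
    exact ⟨⟨i, hi⟩, hcon.symm⟩
  · intro b'
    have hfin : (Set.range fun i : b'.F => tog (i : I) b').Finite := Set.finite_range _
    refine ⟨hfin.toFinset, fun b hb => ?_⟩
    rw [ker_Cl e h]
    apply Finset.sum_eq_zero
    intro i hi
    rw [if_neg, mul_zero, mul_zero]
    intro hcon
    apply hb
    rw [Set.Finite.mem_toFinset]
    refine ⟨⟨i, ?_⟩, ?_⟩
    · rw [hcon, (tog_of_mem hi).1]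
      exact hi
    · change tog i b' = b
      rw [hcon, C0b_tog_tog hi]

omit [Group Γ] [MulAction Γ P] [MulAction Γ I] [DecidableEq I] in
/-- PROOF: `Mlt_cst`: the matrix entries of a multiplication operator vanish off the diagonal (`dia_apply`, `lp.single`). -/
theorem Mlt_dia {φ : Bs I → ℂ} {C : ℝ} (hC : 0 ≤ C) (h : ∀ b, ‖φ b‖ ≤ C) :
    Mlt (fun _ => (Set.univ : Set P)) (cst (dia φ)) := by
  have key : ∀ b b' : Bs I, b ≠ b' → ker (dia φ) b b' = 0 := by
    intro b b' hne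
    rw [ker, dia_apply hC h, bv]
    simp [lp.single_apply, hne]
  apply Mlt_cst
  · intro b
    refine ⟨{b}, fun b' hb' => key b b' ?_⟩
    rintro rfl
    exact hb' (Finset.mem_singleton_self _)
  · intro b'
    refine ⟨{b'}, fun b hb => key b b' ?_⟩
    rintro rfl
    exact hb (Finset.mem_singleton_self _)

omit [Group Γ] [MulAction Γ P] [MulAction Γ I] [DecidableEq I] in
theorem Mlt_Pp : Mlt (fun _ => (Set.univ : Set P)) (cst Pp : FB (Bs I) P) :=
  Mlt_dia zero_le_one fun b => by split_ifs <;> simp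

omit [Group Γ] [MulAction Γ P] [MulAction Γ I] [DecidableEq I] in
/-- PROOF: coordinates, `Pv_eq`: `b.F = ∅` implies `b.S = ∅`, of even cardinality. -/
theorem Pv_mul_Pm : (Pv * Pm : BL (Bs I)) = 0 := by
  refine ContinuousLinearMap.ext fun ξ => ?_
  ext b
  change (Pv (Pm ξ) : Bs I → ℂ) b = (0 : ℂ)
  rw [Pv, Eu_apply, Pm_apply]
  have hS : (Bs.vac : Bs I).S = ∅ := rfl
  rw [hS, Finset.card_empty, if_pos (by decide : Even 0)]
  split_ifs <;> rfl

end Pool.Agent.Lib.MP_aa9b81_an.Mc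
end
end

section

/-!
# Rotated sites, part L1: the rotated representations
-/

open scoped ENNReal Topology ZeroAtInfty
open Function Filter Set

noncomputable section

set_option linter.unusedSectionVars false

namespace Pool.Agent.Lib.MP_aa9b81_an.Rc

open Cut Hs

variable {Γ C I : Type} [Group Γ] [MulAction Γ C] [MulAction Γ I] [DecidableEq C]

/-- The pairs of the rotated representation with the matrices `V`. -/
def RV (𝔉 : Fibr Γ C I) (V : Mf 𝔉) : Set (C₀(Pow C, ℂ) × BL (Bs C)) :=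
  {x | ∃ (z : ℂ) (E : Finset I) (φ : C₀(Pow C, ℂ)), CylP 𝔉 E φ ∧
    x = (z • φ, z • 𝔉.Xo E V (phF φ))}

variable {𝔉 : Fibr Γ C I} {V : Mf 𝔉}

/-- PROOF: `Cyl.Xo_mono` for `E ∪ E'`, `Cyl.Xo_mul`, `CylP.mul`, `phF_mul`. -/
theorem RV_mul {x y : C₀(Pow C, ℂ) × BL (Bs C)} (hx : x ∈ RV 𝔉 V) (hy : y ∈ RV 𝔉 V) :
    (x.1 * y.1, x.2 * y.2) ∈ RV 𝔉 V := by
  classical
  obtain ⟨z, E, φ, h, rfl⟩ := hx
  obtain ⟨z', E', φ', h', rfl⟩ := hy
  refine ⟨z * z', E ∪ E', φ * φ', (h.mono Finset.subset_union_left).mul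
    (h'.mono Finset.subset_union_right), ?_⟩
  have e1 : 𝔉.Xo E V (phF φ) = 𝔉.Xo (E ∪ E') V (phF φ) :=
    (h.cyl.Xo_mono Finset.subset_union_left V).symm
  have e2 : 𝔉.Xo E' V (phF φ') = 𝔉.Xo (E ∪ E') V (phF φ') :=
    (h'.cyl.Xo_mono Finset.subset_union_right V).symm
  have e3 := (h.mono (Finset.subset_union_left (s₂ := E'))).cyl.Xo_mul
    (h'.mono (Finset.subset_union_right (s₁ := E))).cyl V
  rw [phF_mul, ← e3]
  ext1
  · change (z • φ) * (z' • φ') = (z * z') • (φ * φ')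
    rw [smul_mul_smul_comm]
  · change (z • 𝔉.Xo E V (phF φ)) * (z' • 𝔉.Xo E' V (phF φ')) =
      (z * z') • (𝔉.Xo (E ∪ E') V (phF φ) * 𝔉.Xo (E ∪ E') V (phF φ'))
    rw [e1, e2, smul_mul_smul_comm]

theorem RV_smul (z : ℂ) {x : C₀(Pow C, ℂ) × BL (Bs C)} (hx : x ∈ RV 𝔉 V) :
    (z • x.1, z • x.2) ∈ RV 𝔉 V := by
  obtain ⟨z', E, φ, h, rfl⟩ := hx
  refine ⟨z * z', E, φ, h, ?_⟩
  ext1
  · exact (mul_smul z z' φ).symm
  · exact (mul_smul z z' _).symm

/-- PROOF: `Cyl.W_mul_Xo` with `V' = V`, `CylP.shift`, `phF_shift`; `shift g (z • φ) = z • shift g φ`. -/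
theorem RV_equi (e : C ↪ ℕ) (hV : ∀ (g : Γ) i, ∀ l ∈ 𝔉.Lt i, ∀ l' ∈ 𝔉.Lt i,
    V.m (g • i) (l.map (g • ·)) (l'.map (g • ·)) = V.m i l l') (g : Γ)
    {x : C₀(Pow C, ℂ) × BL (Bs C)} (hx : x ∈ RV 𝔉 V) : ∃ X : BL (Bs C),
      (shift g x.1, X) ∈ RV 𝔉 V ∧
      (sact e : SAct Γ (Bs C)).W g * x.2 = X * (sact e : SAct Γ (Bs C)).W g := by
  obtain ⟨z, E, φ, h, rfl⟩ := hx
  refine ⟨z • 𝔉.Xo (gF g E) V (phF (shift g φ)), ⟨z, gF g E, shift g φ, h.shift g, ?_⟩, ?_⟩
  · ext1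
    · ext S
      rfl
    · rfl
  · have h1 := h.cyl.W_mul_Xo e g (V := V) (V' := V) (hV g)
    change (sact e : SAct Γ (Bs C)).W g * (z • 𝔉.Xo E V (phF φ)) = _
    rw [mul_smul_comm, h1, phF_shift, smul_mul_assoc]

theorem L1_common {l : List (C₀(Pow C, ℂ) × BL (Bs C))} (hl : ∀ x ∈ l, x ∈ RV 𝔉 V) :
    ∃ E : Finset I, ∀ x ∈ l, ∃ (z : ℂ) (φ : C₀(Pow C, ℂ)), CylP 𝔉 E φ ∧
      x = (z • φ, z • 𝔉.Xo E V (phF φ)) := by
  classical
  induction l with
  | nil => exact ⟨∅, fun x hx => absurd hx List.not_mem_nil⟩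
  | cons y l ih =>
    obtain ⟨E, hE⟩ := ih fun x hx => hl x (List.mem_cons_of_mem _ hx)
    obtain ⟨z, E', φ, h, hy⟩ := hl y List.mem_cons_self
    refine ⟨E' ∪ E, fun x hx => ?_⟩
    rcases List.mem_cons.1 hx with rfl | hx
    · refine ⟨z, φ, h.mono Finset.subset_union_left, ?_⟩
      rw [hy, h.cyl.Xo_mono Finset.subset_union_left V]
    · obtain ⟨z', φ', h', hx'⟩ := hE x hx
      refine ⟨z', φ', h'.mono Finset.subset_union_right, ?_⟩
      rw [hx', h'.cyl.Xo_mono Finset.subset_union_right V]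

/-- PROOF: let `E` be the union of the sets `E` of the elements of `l`: for all of them `x.2 = WE E V * dia (fun b => x.1 (indP b.F)) * WE E V`
(`Cyl.Xo_mono`; `dF (z φ) = z dF φ`). Take `V = V' = WE E V`, `π b = some (indP b.F)`. -/
theorem RV_diag {l : List (C₀(Pow C, ℂ) × BL (Bs C))} (hl : ∀ x ∈ l, x ∈ RV 𝔉 V) :
    ∃ (W W' : BL (Bs C)) (π : Bs C → Option (Pow C)), ‖W‖ ≤ 1 ∧ ‖W'‖ ≤ 1 ∧
      ∀ x ∈ l, x.2 = W * (dia fun b => optf x.1 (π b)) * W' := by
  obtain ⟨E, hE⟩ := L1_common hl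
  refine ⟨𝔉.WE E V, 𝔉.WE E V, fun b => some (indP b.F), 𝔉.norm_WE_le E V, 𝔉.norm_WE_le E V,
    fun x hx => ?_⟩
  obtain ⟨z, φ, h, rfl⟩ := hE x hx
  have e1 : (dia fun b : Bs C => optf (z • φ) (some (indP b.F))) = z • (Fibr.dF (phF φ) : BL (Bs C)) := by
    have h1 : ∀ b : Bs C, ‖phF φ b.F‖ ≤ 1 := fun b => h.bdd _
    have h2 : ∀ b : Bs C, ‖optf (z • φ) (some (indP b.F))‖ ≤ ‖z‖ := fun b => by
      change ‖z * φ (indP b.F)‖ ≤ ‖z‖
      rw [norm_mul]
      exact mul_le_of_le_one_right (norm_nonneg z) (h.bdd _)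
    apply ContinuousLinearMap.ext
    intro ξ
    ext b
    change _ = z * (dia (fun b : Bs C => phF φ b.F) ξ : Bs C → ℂ) b
    rw [dia_apply (norm_nonneg z) h2, dia_apply zero_le_one h1]
    change z * φ (indP b.F) * _ = z * (φ (indP b.F) * _)
    rw [mul_assoc]
  change z • (𝔉.WE E V * Fibr.dF (phF φ) * 𝔉.WE E V) = _
  rw [e1, mul_smul_comm, smul_mul_assoc]

/-- PROOF: `exists_cylP`, a list with one element. -/
theorem RV_dense (φ : C₀(Pow C, ℂ)) {ε : ℝ} (hε : 0 < ε) :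
    ∃ l : List (C₀(Pow C, ℂ) × BL (Bs C)), (∀ x ∈ l, x ∈ RV 𝔉 V) ∧
      ‖φ - (l.map Prod.fst).sum‖ ≤ ε := by
  obtain ⟨z, E, φ', h, h1⟩ := exists_cylP 𝔉 φ hε
  refine ⟨[(z • φ', z • 𝔉.Xo E V (phF φ'))], fun x hx => ?_, ?_⟩
  · rw [List.mem_singleton.1 hx]
    exact ⟨z, E, φ', h, rfl⟩
  · simpa using h1

/-- The rotated representation with the angle `θ`. -/
def LR (𝔉 : Fibr Γ C I) (hn : ∀ i, (𝔉.fib i).Nonempty) (e : C ↪ ℕ) (θ : ℝ) :
    LRep (sact e : SAct Γ (Bs C)) (Pow C) where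
  R := RV 𝔉 (𝔉.Vth hn θ)
  mul _ hx _ hy := RV_mul hx hy
  smul z _ hx := RV_smul z hx
  equi g _ hx := RV_equi e (fun g i l _ l' _ => 𝔉.Vth_equi hn θ g i l l') g hx
  diag _ hl := RV_diag hl
  dense φ _ hε := RV_dense φ hε

end Pool.Agent.Lib.MP_aa9b81_an.Rc
end
end

section

/-!
# Rotated sites, part M0: copies and weights
-/

open scoped ENNReal Topology ZeroAtInfty
open Function Filter Set

noncomputable section

set_option linter.unusedSectionVars false

namespace Pool.Agent.Lib.MP_aa9b81_an.Rc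

open Cut Hs

/-- `n + 1` copies of a set. -/
def Cpy (n : ℕ) (C : Type) : Type := C × Fin (n + 1)

instance (n : ℕ) (C : Type) [DecidableEq C] : DecidableEq (Cpy n C) :=
  inferInstanceAs (DecidableEq (C × Fin (n + 1)))

instance (n : ℕ) (C : Type) [Countable C] : Countable (Cpy n C) :=
  inferInstanceAs (Countable (C × Fin (n + 1)))

/-- The copy `m` of `c`. -/
def Cpy.mk {n : ℕ} {C : Type} (c : C) (m : Fin (n + 1)) : Cpy n C := (c, m)

/-- The underlying element. -/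
def Cpy.el {n : ℕ} {C : Type} (x : Cpy n C) : C := x.1

/-- The index of the copy. -/
def Cpy.ix {n : ℕ} {C : Type} (x : Cpy n C) : Fin (n + 1) := x.2

@[ext] theorem Cpy.ext {n : ℕ} {C : Type} {x y : Cpy n C} (h : x.el = y.el) (h' : x.ix = y.ix) :
    x = y := Prod.ext h h'

@[simp] theorem Cpy.el_mk {n : ℕ} {C : Type} (c : C) (m : Fin (n + 1)) : (Cpy.mk c m).el = c := rfl

@[simp] theorem Cpy.ix_mk {n : ℕ} {C : Type} (c : C) (m : Fin (n + 1)) : (Cpy.mk c m).ix = m := rfl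

@[simp] theorem Cpy.mk_el_ix {n : ℕ} {C : Type} (x : Cpy n C) : Cpy.mk x.el x.ix = x := rfl

instance (Γ C : Type) [Group Γ] [MulAction Γ C] (n : ℕ) : MulAction Γ (Cpy n C) where
  smul g x := Cpy.mk (g • x.el) x.ix
  one_smul x := Cpy.ext (one_smul Γ x.el) rfl
  mul_smul g h x := Cpy.ext (mul_smul g h x.el) rfl

section

variable {Γ C I : Type} [Group Γ] [MulAction Γ C] [MulAction Γ I] [DecidableEq C]

@[simp] theorem Cpy.el_smul {n : ℕ} (g : Γ) (x : Cpy n C) : (g • x).el = g • x.el := rfl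

@[simp] theorem Cpy.ix_smul {n : ℕ} (g : Γ) (x : Cpy n C) : (g • x).ix = x.ix := rfl

theorem Cpy.mk_injective {n : ℕ} {C : Type} (m : Fin (n + 1)) :
    Injective fun c : C => Cpy.mk c m := fun _ _ h => congrArg Cpy.el h

/-- The copies of an equivariant map with finite fibres. -/
def Fibr.copies (𝔉 : Fibr Γ C I) (n : ℕ) : Fibr Γ (Cpy n C) (Cpy n I) where
  p x := Cpy.mk (𝔉.p x.el) x.ix
  fib i := (𝔉.fib i.el).map ⟨fun c => Cpy.mk c i.ix, Cpy.mk_injective i.ix⟩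
  mem_fib i x := by
    rw [Finset.mem_map]
    constructor
    · rintro ⟨c, hc, rfl⟩
      exact Cpy.ext ((𝔉.mem_fib _ _).1 hc) rfl
    · rintro rfl
      exact ⟨x.el, (𝔉.mem_fib _ _).2 rfl, rfl⟩
  smul g x := Cpy.ext (𝔉.smul g x.el) rfl

theorem Fibr.copies_ne {𝔉 : Fibr Γ C I} (hn : ∀ i, (𝔉.fib i).Nonempty) (n : ℕ) (i : Cpy n I) :
    ((𝔉.copies n).fib i).Nonempty := (hn i.el).map

/-- The weights on `C` which are constant on the fibres. PROOF of properness: `{c | w (p c) ≤ R}` is contained in the union of the finitely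
many fibres of the `i` with `w i ≤ R`. -/
theorem Fibr.proper_wt (𝔉 : Fibr Γ C I) (w : Wt Γ I) (R : ℝ) : {c | w.w (𝔉.p c) ≤ R}.Finite := by
  have h1 : (⋃ i ∈ {i | w.w i ≤ R}, ((𝔉.fib i : Finset C) : Set C)).Finite :=
    (w.proper R).biUnion fun i _ => (𝔉.fib i).finite_toSet
  refine h1.subset fun c hc => ?_
  exact Set.mem_biUnion (show 𝔉.p c ∈ {i | w.w i ≤ R} from hc)
    (Finset.mem_coe.2 ((𝔉.mem_fib _ _).2 rfl))

/-- The weights on `C` which are constant on the fibres. -/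
def Fibr.wt (𝔉 : Fibr Γ C I) (w : Wt Γ I) : Wt Γ C where
  w c := w.w (𝔉.p c)
  one_le c := w.one_le _
  proper R := 𝔉.proper_wt w R
  var g := by
    obtain ⟨D, hD, h⟩ := w.var g
    exact ⟨D, hD, fun c => by
      rw [𝔉.smul]
      exact h _⟩

/-- PROOF: `∑_{j ∈ F} (w (p j) + 1)²` is the sum over the fibres `i` of `|F ∩ fib i| (w i + 1)²` (over any finite set of fibres which contains the `p c`,
`c ∈ F ∪ F'`): it depends only on the numbers `|F ∩ fib i|`. -/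
theorem Fibr.col_cw (𝔉 : Fibr Γ C I) (w : Wt Γ I) : Col 𝔉 (cw (𝔉.wt w)) := by
  classical
  intro F F' c c' h _ _ hp
  have key : ∀ (G : Finset C) (t : Finset I), (∀ x ∈ G, 𝔉.p x ∈ t) →
      ∑ j ∈ G, ((𝔉.wt w).w j + 1) ^ 2 = ∑ i ∈ t, ((G ∩ 𝔉.fib i).card : ℝ) * (w.w i + 1) ^ 2 := by
    intro G t ht
    rw [← Finset.sum_fiberwise_of_maps_to ht]
    refine Finset.sum_congr rfl fun i _ => ?_
    have h1 : G.filter (fun x => 𝔉.p x = i) = G ∩ 𝔉.fib i := by
      ext x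
      rw [Finset.mem_filter, Finset.mem_inter, 𝔉.mem_fib]
    have h2 : ∀ x ∈ G.filter (fun x => 𝔉.p x = i), ((𝔉.wt w).w x + 1) ^ 2 = (w.w i + 1) ^ 2 := by
      intro x hx
      have h3 : 𝔉.p x = i := (Finset.mem_filter.1 hx).2
      show (w.w (𝔉.p x) + 1) ^ 2 = _
      rw [h3]
    rw [Finset.sum_congr rfl h2, Finset.sum_const, h1, nsmul_eq_mul]
  have hs : ∑ j ∈ F, ((𝔉.wt w).w j + 1) ^ 2 = ∑ j ∈ F', ((𝔉.wt w).w j + 1) ^ 2 := by
    rw [key F ((F ∪ F').image 𝔉.p) (fun x hx =>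
        Finset.mem_image_of_mem _ (Finset.mem_union_left _ hx)),
      key F' ((F ∪ F').image 𝔉.p) (fun x hx =>
        Finset.mem_image_of_mem _ (Finset.mem_union_right _ hx))]
    refine Finset.sum_congr rfl fun i _ => ?_
    rw [h i]
  have hw : (𝔉.wt w).w c = (𝔉.wt w).w c' := by
    show w.w (𝔉.p c) = w.w (𝔉.p c')
    rw [hp]
  unfold cw
  rw [hs, hw]

end

end Pool.Agent.Lib.MP_aa9b81_an.Rc
end
end

section

/-!
# Rotated sites, part M1: selection of the first good copy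
-/

open scoped ENNReal Topology ZeroAtInfty
open Function Filter Set

noncomputable section

set_option linter.unusedSectionVars false

namespace Pool.Agent.Lib.MP_aa9b81_an.Rc

open Cut Hs

variable {Γ C I : Type} [Group Γ] [MulAction Γ C] [MulAction Γ I] [DecidableEq C]

/-- The set `S` meets the fibre `i` in exactly one point. -/
def One (𝔉 : Fibr Γ C I) (i : I) (S : Pow C) : Prop := ∃! c, 𝔉.p c = i ∧ S c = true

/-- The copy `m` of the set. -/
def lay {n : ℕ} (m : Fin (n + 1)) (S : Pow (Cpy n C)) : Pow C := fun c => S (Cpy.mk c m)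

open Classical in
/-- The first copy which is good at `i`, or the copy `0`. -/
def sel (𝔉 : Fibr Γ C I) (n : ℕ) (i : I) (S : Pow (Cpy n C)) : Fin (n + 1) :=
  if h : (Finset.univ.filter fun m => One 𝔉 i (lay m S)).Nonempty then
    (Finset.univ.filter fun m => One 𝔉 i (lay m S)).min' h else 0

/-- In each fibre, take the first good copy. -/
def psiC (𝔉 : Fibr Γ C I) (n : ℕ) (S : Pow (Cpy n C)) : Pow C :=
  fun c => lay (sel 𝔉 n (𝔉.p c) S) S c

variable (𝔉 : Fibr Γ C I) (n : ℕ)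

open Classical in
/-- The first element of a set, or `0`. -/
private def M1_min (n : ℕ) (s : Finset (Fin (n + 1))) : Fin (n + 1) :=
  if h : s.Nonempty then s.min' h else 0

open Classical in
private theorem M1_sel (i : I) (S : Pow (Cpy n C)) :
    sel 𝔉 n i S = M1_min n (Finset.univ.filter fun m => One 𝔉 i (lay m S)) := rfl

private theorem M1_sel_eq {i i' : I} {S S' : Pow (Cpy n C)}
    (h : ∀ m, One 𝔉 i (lay m S) ↔ One 𝔉 i' (lay m S')) : sel 𝔉 n i S = sel 𝔉 n i' S' := by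
  classical
  rw [M1_sel, M1_sel]
  exact congrArg (M1_min n) (Finset.filter_congr fun m _ => h m)

private theorem M1_sel_spec {i : I} {S : Pow (Cpy n C)} (h : ∃ m, One 𝔉 i (lay m S)) :
    One 𝔉 i (lay (sel 𝔉 n i S) S) := by
  classical
  obtain ⟨m, hm⟩ := h
  have h1 : (Finset.univ.filter fun m => One 𝔉 i (lay m S)).Nonempty :=
    ⟨m, Finset.mem_filter.2 ⟨Finset.mem_univ _, hm⟩⟩
  have h2 : sel 𝔉 n i S = (Finset.univ.filter fun m => One 𝔉 i (lay m S)).min' h1 := by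
    rw [M1_sel]
    exact dif_pos h1
  rw [h2]
  exact (Finset.mem_filter.1 (Finset.min'_mem _ h1)).2

private theorem M1_near (A : Finset C) (S₀ : Pow C) :
    ∀ᶠ S in nhds S₀, ∀ c ∈ A, S c = S₀ c := by
  rw [Filter.eventually_all_finset]
  intro c _
  exact (Pow.isOpen_eval c (S₀ c)).mem_nhds rfl

/-- PROOF: `𝔉.smul`: `p (g c) = g i ↔ p c = i`, `(g S) (g c) = S c`. -/
theorem One_smul (g : Γ) (i : I) (S : Pow C) : One 𝔉 (g • i) (g • S) ↔ One 𝔉 i S := by
  have key : ∀ (g : Γ) (i : I) (S : Pow C), One 𝔉 i S → One 𝔉 (g • i) (g • S) := by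
    rintro g i S ⟨c, ⟨h1, h2⟩, h3⟩
    refine ⟨g • c, ⟨by rw [𝔉.smul, h1], ?_⟩, ?_⟩
    · rw [Pow.smul_apply, inv_smul_smul]
      exact h2
    · rintro y ⟨h4, h5⟩
      rw [Pow.smul_apply] at h5
      have h6 := h3 (g⁻¹ • y) ⟨by rw [𝔉.smul, h4, inv_smul_smul], h5⟩
      rw [← h6, smul_inv_smul]
  constructor
  · intro h
    have h1 := key g⁻¹ _ _ h
    rwa [inv_smul_smul, inv_smul_smul] at h1
  · exact key g i S

theorem lay_smul {n : ℕ} (g : Γ) (m : Fin (n + 1)) (S : Pow (Cpy n C)) :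
    lay m (g • S) = g • lay m S := rfl

/-- PROOF: `One_smul`, `lay_smul`: the sets of the good copies agree. -/
theorem sel_smul (g : Γ) (i : I) (S : Pow (Cpy n C)) : sel 𝔉 n (g • i) (g • S) = sel 𝔉 n i S := by
  refine M1_sel_eq 𝔉 n fun m => ?_
  rw [lay_smul, One_smul]

/-- PROOF: `sel_smul`, `𝔉.smul`. -/
theorem psiC_smul (g : Γ) (S : Pow (Cpy n C)) : psiC 𝔉 n (g • S) = g • psiC 𝔉 n S := by
  funext c
  rw [Pow.smul_apply]
  show lay (sel 𝔉 n (𝔉.p c) (g • S)) (g • S) c = lay (sel 𝔉 n (𝔉.p (g⁻¹ • c)) S) S (g⁻¹ • c)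
  have h1 : sel 𝔉 n (𝔉.p c) (g • S) = sel 𝔉 n (𝔉.p (g⁻¹ • c)) S := by
    rw [𝔉.smul, ← sel_smul 𝔉 n g (g⁻¹ • 𝔉.p c) S, smul_inv_smul]
  rw [h1]
  rfl

/-- PROOF: `One 𝔉 i S` depends only on the `S c`, `c ∈ fib i`. -/
theorem One_congr {i : I} {S S' : Pow C} (h : ∀ c, 𝔉.p c = i → S c = S' c) :
    One 𝔉 i S ↔ One 𝔉 i S' := by
  have key : ∀ {S S' : Pow C}, (∀ c, 𝔉.p c = i → S c = S' c) → One 𝔉 i S → One 𝔉 i S' := by
    rintro S S' h ⟨c, ⟨h1, h2⟩, h3⟩
    refine ⟨c, ⟨h1, by rw [← h c h1]; exact h2⟩, ?_⟩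
    rintro y ⟨h4, h5⟩
    exact h3 y ⟨h4, by rw [h y h4]; exact h5⟩
  exact ⟨key h, key fun c hc => (h c hc).symm⟩

/-- PROOF: `One_congr`: the set of the good copies depends only on the `S (c, m)`, `p c = i`. -/
theorem sel_congr {i : I} {S S' : Pow (Cpy n C)}
    (h : ∀ x : Cpy n C, 𝔉.p x.el = i → S x = S' x) : sel 𝔉 n i S = sel 𝔉 n i S' := by
  refine M1_sel_eq 𝔉 n fun m => One_congr 𝔉 fun c hc => ?_
  exact h (Cpy.mk c m) hc

/-- PROOF: `sel_congr`. -/
theorem psiC_congr {i : I} {S S' : Pow (Cpy n C)}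
    (h : ∀ x : Cpy n C, 𝔉.p x.el = i → S x = S' x) {c : C} (hc : 𝔉.p c = i) :
    psiC 𝔉 n S c = psiC 𝔉 n S' c := by
  show lay (sel 𝔉 n (𝔉.p c) S) S c = lay (sel 𝔉 n (𝔉.p c) S') S' c
  rw [hc, sel_congr 𝔉 n h]
  exact h (Cpy.mk c _) hc

/-- PROOF: each coordinate `S ↦ psiC S c` depends only on finitely many coordinates (`psiC_congr`, the fibre is finite): it is continuous to the
discrete space `Bool` (locally constant). -/
theorem continuous_psiC : Continuous (psiC 𝔉 n : Pow (Cpy n C) → Pow C) := by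
  classical
  refine continuous_pi fun c => ?_
  rw [continuous_iff_continuousAt]
  intro S₀
  have h1 := M1_near (C := Cpy n C) ((𝔉.fib (𝔉.p c) ×ˢ (Finset.univ : Finset (Fin (n + 1)))).image
    fun x => Cpy.mk x.1 x.2) S₀
  have h2 : (fun _ : Pow (Cpy n C) => psiC 𝔉 n S₀ c) =ᶠ[nhds S₀] fun S => psiC 𝔉 n S c := by
    filter_upwards [h1] with S hS
    refine (psiC_congr 𝔉 n (i := 𝔉.p c) (fun x hx => ?_) rfl).symm
    apply hS
    rw [Finset.mem_image]
    exact ⟨(x.el, x.ix), Finset.mem_product.2 ⟨(𝔉.mem_fib _ _).2 hx, Finset.mem_univ _⟩, rfl⟩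
  exact continuousAt_const.congr h2

/-- PROOF: if some copy is good at `i`, then `psiC S` agrees on the fibre `i` with the good copy `sel` (`Finset.min'_mem`), and `One_congr`; otherwise it
agrees with the copy `0`, which is not good. -/
theorem One_psiC (i : I) (S : Pow (Cpy n C)) : One 𝔉 i (psiC 𝔉 n S) ↔ ∃ m, One 𝔉 i (lay m S) := by
  have h1 : One 𝔉 i (psiC 𝔉 n S) ↔ One 𝔉 i (lay (sel 𝔉 n i S) S) := by
    refine One_congr 𝔉 fun c hc => ?_
    show lay (sel 𝔉 n (𝔉.p c) S) S c = _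
    rw [hc]
  rw [h1]
  exact ⟨fun h => ⟨_, h⟩, M1_sel_spec 𝔉 n⟩

theorem psiC_zero : psiC 𝔉 n (Pow.zero (Cpy n C)) = Pow.zero C := rfl

/-- The sets which meet every fibre in exactly one point. -/
def Om : InvSet Γ (Pow C) where
  carrier := {S | ∀ i, One 𝔉 i S}
  inv g S hS i := by
    rw [← smul_inv_smul g i, One_smul]
    exact hS _

/-- PROOF: for each `i` the set of the `S` with `One 𝔉 i S` is clopen (`One_congr`, finite fibres). -/
theorem isClosed_Om : IsClosed (Om 𝔉).carrier := by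
  have h1 : (Om 𝔉 : InvSet Γ (Pow C)).carrier = ⋂ i, {S | One 𝔉 i S} := by
    ext S
    rw [Set.mem_iInter]
    rfl
  rw [h1]
  refine isClosed_iInter fun i => ?_
  rw [← isOpen_compl_iff, isOpen_iff_mem_nhds]
  intro S₀ hS₀
  filter_upwards [M1_near (𝔉.fib i) S₀] with S hS
  intro h
  exact hS₀ ((One_congr 𝔉 fun c hc => hS c ((𝔉.mem_fib _ _).2 hc)).1 h)

end Pool.Agent.Lib.MP_aa9b81_an.Rc
end
end

section

/-!
# The machine, part B1: compact operators on `ℓ²(Bs I)`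
-/

open scoped ENNReal Topology
open Function

noncomputable section

namespace Pool.Agent.Lib.MP_aa9b81_an.Mc

open Cut Hs

variable {Γ I : Type} [Group Γ] [MulAction Γ I] [DecidableEq I]

/-- PROOF: `Site.decay_ug` for `H1` at `|s|`: `F ⊆ supp = univ`. -/
theorem Dcy_tcg (w : Wt Γ I) (g : Γ) {s : ℝ} (hs1 : |s| ≤ 1) :
    Dcy fun F i => tcg w g s F i - tc w s F i := by
  intro ε hε
  obtain ⟨𝒜, δ, hδ, h⟩ := (H1 Γ I).decay_ug w g hε
  refine ⟨𝒜, fun F hF => ?_⟩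
  exact h |s| (abs_nonneg s) hs1 PUnit.unit F (by rw [supp_H1]; exact Set.subset_univ _) (Or.inl hF)

/-- PROOF: `Site.decay_uh` for `H1` at `|s|`, with `M = ∑ i ∈ L, w.w i + 1` (`W p i = w i + 1⁻¹ ≤ M` for `i ∈ L`, since
`1 ≤ w.w i`). -/
theorem Dcy_tch (w : Wt Γ I) (L : Finset I) {s : ℝ} (hs : s ≠ 0) (hs1 : |s| ≤ 1) :
    Dcy fun F i => tc w s F i - tch w L s F i := by
  intro ε hε
  obtain ⟨𝒜, δ, hδ, h⟩ := (H1 Γ I).decay_uh w L (∑ i ∈ L, w.w i + 1) (abs_pos.2 hs) hs1 hε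
  refine ⟨𝒜, fun F hF => ?_⟩
  refine h PUnit.unit (fun i hi => ?_) F (by rw [supp_H1]; exact Set.subset_univ _) (Or.inl hF)
  have h1 : w.w i ≤ ∑ i ∈ L, w.w i :=
    Finset.single_le_sum (f := fun i => w.w i) (fun j _ => zero_le_one.trans (w.one_le j)) hi
  have h2 : (H1 Γ I).W w PUnit.unit i = w.w i + 1⁻¹ := rfl
  rw [h2, inv_one]
  linarith

end Pool.Agent.Lib.MP_aa9b81_an.Mc
end
end

section

/-!
# The machine, part B1: compact operators on `ℓ²(Bs I)`
-/

open scoped ENNReal Topology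
open Function

noncomputable section

namespace Pool.Agent.Lib.MP_aa9b81_an.Mc

open Cut Hs

variable {Γ I : Type} [Group Γ] [MulAction Γ I] [DecidableEq I]

/-- PROOF: `Cl_sub`, `Cl_mem_Kc`, `Dcy_tcg`, `CB.sub`. -/
theorem Tg_sub_Tc_mem (w : Wt Γ I) (e : I ↪ ℕ) (g : Γ) {s : ℝ} (hs1 : |s| ≤ 1) :
    Tg w e g s - Tc w e s ∈ Kc (Bs I) := by
  unfold Tg Tc
  rw [← Cl_sub e (CB_tcg w g s) (CB_tc w s)]
  exact Cl_mem_Kc e ((CB_tcg w g s).sub (CB_tc w s)) (Dcy_tcg w g hs1)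

/-- PROOF: `Cl_sub`, `Cl_mem_Kc`, `Dcy_tch`, `CB.sub`. -/
theorem Tc_sub_Th_mem (w : Wt Γ I) (e : I ↪ ℕ) (L : Finset I) {s : ℝ} (hs : s ≠ 0)
    (hs1 : |s| ≤ 1) : Tc w e s - Th w e L s ∈ Kc (Bs I) := by
  unfold Tc Th
  rw [← Cl_sub e (CB_tc w s) (CB_tch w L s)]
  exact Cl_mem_Kc e ((CB_tc w s).sub (CB_tch w L s)) (Dcy_tch w L hs hs1)

end Pool.Agent.Lib.MP_aa9b81_an.Mc
end
end

section

/-!
# The machine, part F2: the strong limit of a system
-/

open scoped ENNReal Topology ZeroAtInfty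
open Function

noncomputable section

namespace Pool.Agent.Lib.MP_aa9b81_an.Mc

open Cut Hs

variable {Γ X P I : Type} [Group Γ] [TopologicalSpace X] [MulAction Γ X] [MulAction Γ P]
  [MulAction Γ I] [DecidableEq I] {e : I ↪ ℕ} (σ : Sys Γ X P I e) [ContinuousConstSMul Γ X]

/-- PROOF: `Rp.ind dense` for the property `∃ B, SL (σ.st c · a) B`: `SL_st_gen`; `SL.const` (`st 0 = 0`); `SL.add`,
`st_add`; `SL.exists_of_limit`, `st_sub`, `norm_st_le`. -/
theorem Sys.exists_SL (c : ℕ × Bs I ≃ ℕ) {dom : Set C₀(X, ℂ)}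
    (dense : ∀ (f : C₀(X, ℂ)) (ε : ℝ), 0 < ε →
      ∃ l : List C₀(X, ℂ), (∀ f' ∈ l, f' ∈ dom) ∧ ‖f - l.sum‖ ≤ ε)
    (hst : ∀ f ∈ dom, ∃ (L₀ : Finset I) (n : FB (Bs I) P), σ.St f L₀ n) (a : cp Γ X) :
    ∃ B, SL (fun L => σ.st c L (a : Fam Γ X)) B := by
  refine Rp.ind (p := fun a : cp Γ X => ∃ B, SL (fun L => σ.st c L (a : Fam Γ X)) B)
    dense ?_ ?_ ?_ ?_ a
  · intro f hf g i j hm
    obtain ⟨L₀, n, hn⟩ := hst f hf
    exact ⟨_, σ.SL_st_gen c hn g i j⟩
  · refine ⟨0, ?_⟩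
    have h1 : (fun L : Finset I => σ.st c L ((0 : cp Γ X) : Fam Γ X)) =
        fun _ : Finset I => (0 : Fam Γ P) := by
      funext L
      have h2 := σ.st_add c L (0 : Fam Γ X) 0
      rw [add_zero] at h2
      exact left_eq_add.1 h2
    rw [h1]
    exact SL.const 0
  · rintro a b ⟨A, hA⟩ ⟨B, hB⟩
    refine ⟨A + B, ?_⟩
    have h1 : (fun L : Finset I => σ.st c L ((a + b : cp Γ X) : Fam Γ X)) =
        fun L => σ.st c L (a : Fam Γ X) + σ.st c L (b : Fam Γ X) := by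
      funext L
      exact σ.st_add c L (a : Fam Γ X) (b : Fam Γ X)
    rw [h1]
    exact hA.add hB
  · intro a ha
    apply SL.exists_of_limit
    intro ε hε
    obtain ⟨b, ⟨B, hB⟩, hb⟩ := ha ε hε
    refine ⟨_, B, hB, fun L => ?_⟩
    rw [← σ.st_sub]
    exact (σ.norm_st_le c L _).trans hb

end Pool.Agent.Lib.MP_aa9b81_an.Mc
end
end

section

/-!
# The machine, part G2: the finite stages of the rotated cylinder projections
-/

open scoped ENNReal Topology
open Function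

noncomputable section

namespace Pool.Agent.Lib.MP_aa9b81_an.Mc

open Cut Hs

/-- The space of the subsets of `I`; `x i = true` means that the site `i` is turned. -/
abbrev Pow (I : Type) : Type := Cf I Bool

/-- The sites of `M` where `x` is true. -/
def res {I : Type} (M : Finset I) (x : Pow I) : Finset I := M.filter fun i => x i = true

section

variable {I : Type} [DecidableEq I]

/-- The indicator function of a finite set. -/
def ind (m : Finset I) : Pow I := fun i => decide (i ∈ m)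

open Classical in
/-- The reading of `b` at the stage `L`. -/
def rdF (θ : I → ℝ) (L : Finset I) (b : Bs I) : Pow I := fun i =>
  decide (if i ∈ L ∧ θ i = 1 then (i ∉ b.F ∨ i ∈ b.S) else i ∈ b.F)

/-- The angles. -/
def ang (θ : I → ℝ) (i : I) : ℝ := θ i * (Real.pi / 2)

open Classical in
/-- The angles, with `0` instead of `π/2`. -/
def ang' (θ : I → ℝ) (i : I) : ℝ := if θ i = 1 then 0 else θ i * (Real.pi / 2)

theorem G2_fl_S (i : I) (b : Bs I) : (fl i b).S = b.S := by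
  unfold fl
  split_ifs <;> rfl

theorem G2_mem_fl (i j : I) (b : Bs I) :
    j ∈ (fl i b).F ↔ if j = i then (j ∉ b.F ∨ j ∈ b.S) else j ∈ b.F := by
  unfold fl
  by_cases h : i ∈ b.S
  · rw [dif_pos h]
    by_cases hj : j = i
    · rw [if_pos hj, hj]
      exact ⟨fun _ => Or.inr h, fun _ => b.sub h⟩
    · rw [if_neg hj]
  · rw [dif_neg h, Bs.mk_F, mem_tg]
    by_cases hj : j = i
    · rw [if_pos hj, hj]
      constructor
      · rintro (h1 | h1)
        · exact Or.inl h1.2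
        · exact absurd rfl h1.1
      · rintro (h1 | h1)
        · exact Or.inl ⟨rfl, h1⟩
        · exact absurd h1 h
    · rw [if_neg hj]
      constructor
      · rintro (h1 | h1)
        · exact absurd h1.1 hj
        · exact h1.2
      · exact fun h1 => Or.inr ⟨hj, h1⟩

/-- PROOF: induction on `K` (`UKf_insert`, `Ui_pi_conj`). The pair `flK K b` has the same `S`, and `i ∈ F'` is
`if i ∈ K then (i ∉ F ∨ i ∈ S) else i ∈ F`. -/
theorem exists_flips (K : Finset I) : ∃ fK : Bs I → Bs I, (∀ b, (fK b).S = b.S) ∧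
    (∀ b i, i ∈ (fK b).F ↔ if i ∈ K then (i ∉ b.F ∨ i ∈ b.S) else i ∈ b.F) ∧
    ∀ (ψ : Bs I → ℂ) (C : ℝ), 0 ≤ C → (∀ b, ‖ψ b‖ ≤ C) →
      (UKf K (fun _ => Real.pi / 2) : BL (Bs I)) * dia ψ *
        ((UKf K (fun _ => Real.pi / 2))⁻¹ : (BL (Bs I))ˣ).val = dia fun b => ψ (fK b) := by
  induction K using Finset.induction_on with
  | empty =>
    refine ⟨fun b => b, fun b => rfl, fun b i => ?_, fun ψ C _ _ => ?_⟩
    · rw [if_neg (Finset.notMem_empty i)]
    · rw [UKf_empty, inv_one, Units.val_one, one_mul, mul_one]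
  | insert i K hi ih =>
    obtain ⟨fK, h1, h2, h3⟩ := ih
    refine ⟨fun b => fK (fl i b), fun b => ?_, fun b j => ?_, fun ψ C hC hψ => ?_⟩
    · show (fK (fl i b)).S = b.S
      rw [h1, G2_fl_S]
    · show j ∈ (fK (fl i b)).F ↔ _
      rw [h2, G2_fl_S]
      by_cases hj : j = i
      · have hK : j ∉ K := by rw [hj]; exact hi
        rw [if_neg hK, G2_mem_fl, if_pos hj, if_pos (Finset.mem_insert.2 (Or.inl hj))]
      · by_cases hK : j ∈ K
        · rw [if_pos hK, if_pos (Finset.mem_insert.2 (Or.inr hK)), G2_mem_fl, if_neg hj]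
        · rw [if_neg hK, if_neg (fun h => (Finset.mem_insert.1 h).elim hj hK), G2_mem_fl,
            if_neg hj]
    · have h4 := h3 ψ C hC hψ
      have h5 := Ui_pi_conj i (ψ := fun b => ψ (fK b)) hC (fun b => hψ _)
      rw [UKf_insert hi, mul_inv_rev, Units.val_mul, Units.val_mul]
      have h6 : ((Uu i (Real.pi / 2))⁻¹ : (BL (Bs I))ˣ).val = Ui i (-(Real.pi / 2)) := rfl
      have h7 : ((Uu i (Real.pi / 2)) : (BL (Bs I))ˣ).val = Ui i (Real.pi / 2) := rfl
      rw [h6, h7]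
      calc Ui i (Real.pi / 2) * (UKf K (fun _ => Real.pi / 2) : BL (Bs I)) * dia ψ *
            (((UKf K (fun _ => Real.pi / 2))⁻¹ : (BL (Bs I))ˣ).val * Ui i (-(Real.pi / 2)))
          = Ui i (Real.pi / 2) * ((UKf K (fun _ => Real.pi / 2) : BL (Bs I)) * dia ψ *
            ((UKf K (fun _ => Real.pi / 2))⁻¹ : (BL (Bs I))ˣ).val) * Ui i (-(Real.pi / 2)) := by
            simp only [mul_assoc]
        _ = _ := by rw [h4, h5]

end

end Pool.Agent.Lib.MP_aa9b81_an.Mc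
end
end
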