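import Pool.Agent.Lib.MP_aa9b81_an.Mg.G004
import Pool.Agent.Lib.MP_aa9b81_an.Mg.G009
import Pool.Agent.Lib.MP_aa9b81_an.Mg.G011
import Pool.Agent.Lib.MP_aa9b81_an.Mg.G012
import Pool.Agent.Lib.MP_aa9b81_an.Mg.G079
import Pool.Agent.Lib.MP_aa9b81_an.Mg.G002
import Pool.Agent.Lib.MP_aa9b81_an.Mg.G016

section

/-!
# Hereditary shifts, part G1a: almost commutation of `T` with the representation
-/

open scoped ENNReal Topology ZeroAtInfty
open Function Filter Set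

noncomputable section

namespace Pool.Agent.Lib.MP_aa9b81_an.Hs

open Cut

variable {Γ P I : Type} [Group Γ] [TopologicalSpace P] [MulAction Γ P] [MulAction Γ I]
  [DecidableEq I] (H : Site Γ P I) (w : Wt Γ I)

/-- The coefficients of `T^g - T` decay. PROOF: `decay_ug` at `s`. -/
theorem Site.Decay_ug (g : Γ) {s : ℝ} (hs : 0 ≤ s) (hs1 : s ≤ 1) (f : C₀(P, ℂ)) :
    H.Decay f fun p F i => H.ug w g s p F i - H.uu w s p F i := by
  intro ε hε
  obtain ⟨𝒜, δ, hδ, h⟩ := H.decay_ug w g hε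
  exact ⟨𝒜, δ, hδ, fun p _ F hF hc => h s hs hs1 p F hF hc⟩

/-- PROOF: `decay_uh` with `M` the maximum of the `w i + δ⁻¹`, `i ∈ L`: `W p i = w i + (hh p i)⁻¹ ≤ M` where `f p ≠ 0`. -/
theorem Site.Decay_uh {f : C₀(P, ℂ)} {L : Finset I} {δ : ℝ} (h : H.Ex L δ f) {s : ℝ} (hs : 0 < s)
    (hs1 : s ≤ 1) : H.Decay f fun p F i => H.uu w s p F i - H.uh w L s p F i := by
  intro ε hε
  obtain ⟨𝒜, δ', hδ', h'⟩ := H.decay_uh w L (∑ i ∈ L, (w.w i + δ⁻¹)) hs hs1 hε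
  refine ⟨𝒜, δ', hδ', fun p hp F hF hc => h' p (fun i hi => ?_) F hF hc⟩
  have h1 : δ ≤ H.hh p i := h.le p hp i hi
  have h2 : (H.hh p i)⁻¹ ≤ δ⁻¹ := inv_anti₀ h.pos h1
  have h3 : w.w i + δ⁻¹ ≤ ∑ j ∈ L, (w.w j + δ⁻¹) := by
    refine Finset.single_le_sum (f := fun j => w.w j + δ⁻¹) (fun j _ => ?_) hi
    have h4 := w.one_le j
    have h5 : 0 ≤ δ⁻¹ := inv_nonneg.2 h.pos.le
    linarith
  rw [Site.W]
  linarith

theorem Site.CB_ug_sub (g : Γ) {s : ℝ} (hs : 0 ≤ s) (p : P) :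
    CB (fun F i => H.ug w g s p F i - H.uu w s p F i) 2 := by
  have h := (H.CB_ug w g hs p).sub (H.CB_uu w hs p)
  norm_num at h
  exact h

theorem Site.CB_uh_sub (L : Finset I) {s : ℝ} (hs : 0 ≤ s) (p : P) :
    CB (fun F i => H.uu w s p F i - H.uh w L s p F i) 2 := by
  have h := (H.CB_uu w hs p).sub (H.CB_uh w L hs p)
  norm_num at h
  exact h

/-- `f (T^g - T)` is compact. PROOF: `clf_mem_KE`, `Decay_ug`, `continuousOn_ug`, `continuousOn_uu`
(`insert i F = F` for `i ∈ F`); and `Cl_sub`. -/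
theorem Site.sc_Tg_sub_T [T2Space P] [ContinuousConstSMul Γ P] (e : I ↪ ℕ) (g : Γ) {s : ℝ}
    (hs : 0 ≤ s) (hs1 : s ≤ 1) (f : C₀(P, ℂ)) :
    sc f * (H.Tg w e g s hs - H.T w e s hs) ∈ KE H.U := by
  have hE : sc f * (H.Tg w e g s hs - H.T w e s hs) = H.clf e f (H.CB_ug_sub w g hs) := by
    ext1 p
    rw [FB.mul_apply, FB.sub_apply, sc_apply, Site.Tg_apply, Site.T_apply, Site.clf_apply,
      Cl_sub e (H.CB_ug w g hs p) (H.CB_uu w hs p), smul_mul_assoc, one_mul, sub_mul]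
  rw [hE]
  refine H.clf_mem_KE e (H.CB_ug_sub w g hs) (H.Decay_ug w g hs hs1 f) fun F i hi => ?_
  have hS : ((insert i F : Set I)) = (F : Set I) := Set.insert_eq_of_mem (Finset.mem_coe.2 hi)
  have h1 := H.continuousOn_ug w g hs F i
  have h2 := H.continuousOn_uu w hs F i
  rw [hS] at h1 h2
  exact h1.sub h2

/-- The Clifford operators which do not see `L`. -/
def Site.Th (e : I ↪ ℕ) (L : Finset I) (s : ℝ) (hs : 0 ≤ s) : FB (Bs I) P :=
  FB.mk (fun p => Cl e (H.uh w L s p) * Es (H.supp p)) 1 fun p => by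
    have h1 := norm_Cl_le e (H.CB_uh w L hs p)
    have h2 := norm_Es_le (H.supp p)
    have h3 := norm_nonneg (Cl e (H.uh w L s p))
    have h4 := norm_nonneg (Es (H.supp p) : BL (Bs I))
    exact (norm_mul_le _ _).trans (by nlinarith)

@[simp] lemma Site.Th_apply (e : I ↪ ℕ) (L : Finset I) (s : ℝ) (hs : 0 ≤ s) (p : P) :
    H.Th w e L s hs p = Cl e (H.uh w L s p) * Es (H.supp p) := rfl

end Pool.Agent.Lib.MP_aa9b81_an.Hs
end
end

section

/-!
# Hereditary shifts, part G1b: almost commutation of `T` with the representation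
-/

open scoped ENNReal Topology ZeroAtInfty
open Function Filter Set

noncomputable section

namespace Pool.Agent.Lib.MP_aa9b81_an.Hs

open Cut

variable {Γ P I : Type} [Group Γ] [TopologicalSpace P] [MulAction Γ P] [MulAction Γ I]
  [DecidableEq I] (H : Site Γ P I) (w : Wt Γ I)

/-- `f (T - Th)` is compact. PROOF: `clf_mem_KE`, `Decay_uh`, `continuousOn_uh`, `Cl_sub`. -/
theorem Site.sc_T_sub_Th [T2Space P] (e : I ↪ ℕ) {f : C₀(P, ℂ)} {L : Finset I} {δ : ℝ}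
    (h : H.Ex L δ f) {s : ℝ} (hs : 0 < s) (hs1 : s ≤ 1) :
    sc f * (H.T w e s hs.le - H.Th w e L s hs.le) ∈ KE H.U := by
  have hCB := H.CB_uh_sub w L hs.le
  have key : sc f * (H.T w e s hs.le - H.Th w e L s hs.le) = H.clf e f hCB := by
    refine FB.ext fun p => ?_
    rw [FB.mul_apply, FB.sub_apply, sc_apply, Site.T_apply, Site.Th_apply, Site.clf_apply,
      Cl_sub e (H.CB_uu w hs.le p) (H.CB_uh w L hs.le p), smul_mul_assoc, one_mul, sub_mul]
  rw [key]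
  refine H.clf_mem_KE e hCB (H.Decay_uh w h hs hs1) fun F i hi => ?_
  have h1 := H.continuousOn_uu w hs.le F i
  have h2 := H.continuousOn_uh w L hs.le F i
  rw [Set.insert_eq_of_mem (Finset.mem_coe.2 hi)] at h1 h2
  exact h1.sub h2

/-- PROOF: at `p` with `f p ≠ 0`: `L ⊆ supp p`, so `Sp L φ` commutes with `Es (supp p)` (`Sp_comm_Es`) and with
`Cl (uh p)` (`Sp_comm_Cl`, `uh_mem`, `uh_sdiff`), and `Es` with `Cl` (`Es_comm_Cl`). -/
theorem Site.nf_comm_Th (e : I ↪ ℕ) {f : C₀(P, ℂ)} {L : Finset I} {δ : ℝ} (h : H.Ex L δ f)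
    (φ : ℝ) {s : ℝ} (hs : 0 ≤ s) : Commute (H.nf f L φ) (H.Th w e L s hs) := by
  refine FB.ext fun p => ?_
  rw [FB.mul_apply, FB.mul_apply, Site.nf_apply, Site.Th_apply]
  by_cases hf : f p = 0
  · rw [hf, zero_smul, zero_mul, mul_zero]
  · have hL : (L : Set I) ⊆ H.supp p := fun i hi =>
      lt_of_lt_of_le h.pos (h.le p hf i (Finset.mem_coe.1 hi))
    have h1 := Sp_comm_Es hL φ
    have h2 := Sp_comm_Cl e (H.CB_uh w L hs p) (L := L) (fun F i hi => H.uh_mem w p F hi)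
      (fun F j => H.uh_sdiff w L s p F j) φ
    have h3 := Es_comm_Cl e (H.supp p) (H.CB_uh w L hs p)
    have h4 : Commute (Sp L φ * Es (H.supp p)) (Cl e (H.uh w L s p) * Es (H.supp p)) :=
      (h2.mul_right h1).mul_left (h3.mul_right (Commute.refl _))
    rw [smul_mul_assoc, mul_smul_comm, h4.eq]

end Pool.Agent.Lib.MP_aa9b81_an.Hs
end
end

section

/-!
# Hereditary shifts, part G1c: almost commutation of `T` with the representation
-/

open scoped ENNReal Topology ZeroAtInfty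
open Function Filter Set

noncomputable section

namespace Pool.Agent.Lib.MP_aa9b81_an.Hs

open Cut

variable {Γ P I : Type} [Group Γ] [TopologicalSpace P] [MulAction Γ P] [MulAction Γ I]
  [DecidableEq I] (H : Site Γ P I) (w : Wt Γ I)

/-- THE COMMUTATOR. PROOF: `D` from `exists_mlt`; `n = nf f L φ = sc f * D = D * sc f` (`sc f` is central). With
`n Th = Th n` (`nf_comm_Th`):
`n T^g - T n = n (T^g - T) + n (T - Th) - (T - Th) n
= D (sc f (T^g - T)) + D (sc f (T - Th)) - (sc f (T - Th)) D`, and these are in `KE U` by `sc_Tg_sub_T`,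
`sc_T_sub_Th`, `Mlt.mul_mem_KE`, `Mlt.mem_KE_mul`. -/
theorem Site.commutator_mem [T2Space P] [ContinuousConstSMul Γ P] (e : I ↪ ℕ) {f : C₀(P, ℂ)}
    {L : Finset I} {δ : ℝ} (h : H.Ex L δ f) (φ : ℝ) (g : Γ) {s : ℝ} (hs : 0 < s) (hs1 : s ≤ 1) :
    H.nf f L φ * H.Tg w e g s hs.le - H.T w e s hs.le * H.nf f L φ ∈ KE H.U := by
  obtain ⟨D, hD, hDp⟩ := H.exists_mlt h φ
  have hn : H.nf f L φ = D * sc f := by
    refine FB.ext fun p => ?_
    rw [H.nf_apply, FB.mul_apply, sc_apply]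
    by_cases h0 : f p = 0
    · rw [h0, zero_smul, zero_smul, mul_zero]
    · rw [hDp p h0, mul_smul_comm, mul_one]
  have hc : ∀ X : FB (Bs I) P, sc f * X = X * sc f := by
    intro X
    refine FB.ext fun p => ?_
    rw [FB.mul_apply, FB.mul_apply, sc_apply, smul_mul_assoc, one_mul, mul_smul_comm, mul_one]
  have hTh : H.nf f L φ * H.Th w e L s hs.le = H.Th w e L s hs.le * H.nf f L φ :=
    (H.nf_comm_Th w e h φ hs.le).eq
  have e1 := H.sc_Tg_sub_T w e g hs.le hs1 f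
  have e2 := H.sc_T_sub_Th w e h hs hs1
  have e3 := hD.mul_mem_KE H.isOpen_U e1
  have e4 := hD.mul_mem_KE H.isOpen_U e2
  have e5 := hD.mem_KE_mul H.isOpen_U e2
  have key : H.nf f L φ * H.Tg w e g s hs.le - H.T w e s hs.le * H.nf f L φ =
      D * (sc f * (H.Tg w e g s hs.le - H.T w e s hs.le)) +
        D * (sc f * (H.T w e s hs.le - H.Th w e L s hs.le)) -
        sc f * (H.T w e s hs.le - H.Th w e L s hs.le) * D := by
    have f1 : sc f * (H.T w e s hs.le - H.Th w e L s hs.le) * D =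
        H.T w e s hs.le * H.nf f L φ - H.Th w e L s hs.le * H.nf f L φ := by
      rw [hc, mul_assoc, hc D, ← hn, sub_mul]
    rw [f1, ← mul_assoc, ← mul_assoc, ← hn, mul_sub, mul_sub, hTh]
    abel
  rw [key]
  exact Submodule.sub_mem _ (Submodule.add_mem _ e3 e4) e5

/-- PROOF: `nf f L φ * cst Pv = D * ge f vac vac` with `D` from `exists_mlt` (`sc f * cst Pv = ge f vac vac`);
`ge_vac_mem_KE`, `Mlt.mul_mem_KE`. -/
theorem Site.nf_mul_Pv_mem [T2Space P] {f : C₀(P, ℂ)} {L : Finset I} {δ : ℝ} (h : H.Ex L δ f)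
    (φ : ℝ) : H.nf f L φ * cst Pv ∈ KE H.U := by
  obtain ⟨D, hD, hDp⟩ := H.exists_mlt h φ
  have hn : H.nf f L φ * cst Pv = D * ge f Bs.vac Bs.vac := by
    refine FB.ext fun p => ?_
    rw [FB.mul_apply, FB.mul_apply, H.nf_apply, cst_apply, ge_apply]
    by_cases h0 : f p = 0
    · rw [h0, zero_smul, zero_smul, zero_mul, mul_zero]
    · rw [hDp p h0, mul_smul_comm, smul_mul_assoc, Pv]
  rw [hn]
  exact hD.mul_mem_KE H.isOpen_U (H.ge_vac_mem_KE f)

end Pool.Agent.Lib.MP_aa9b81_an.Hs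
end
end

section

/-!
# Hereditary shifts, part G1: almost commutation of `T` with the representation
-/

open scoped ENNReal Topology ZeroAtInfty
open Function Filter Set

noncomputable section

namespace Pool.Agent.Lib.MP_aa9b81_an.Hs

open Cut

variable {Γ P I : Type} [Group Γ] [TopologicalSpace P] [MulAction Γ P] [MulAction Γ I]
  [DecidableEq I] (H : Site Γ P I) (w : Wt Γ I)

/-- MAIN LEMMA. PROOF: `X = cov g i j n`, `n = nf f L φ`, `τ = m1 T`. `X τ = cov g i j (n Ad_g T) = cov g i j (n T^g)`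
(`cov_mul_m1`, `Ad_T`), `τ X = cov g i j (T n)` (`m1_mul_cov`). Hence
`X τ - τ X = cov g i j (n T^g - T n) ∈ AE` (`commutator_mem`, `cov_sub`, `cov_mem_AE`). And
`X τ τ = X m1(T T) = X m1((1 - cst Pv) EP) = cov g i j (n (1 - cst Pv) EP)` (`m1_mul`, `T_mul_T`, `cov_mul_m1`,
`SAct.Ad_mul`, `Ad_EP`, `Ad_Pv`; `Ad_g 1 = 1`) `= cov g i j (n EP - n cst Pv EP) = X - cov g i j (n cst Pv)`
(`n EP = n` by `Es_mul_Es`, `cst Pv EP = cst Pv` by `Pv_mul_Es`). So
`X - τ X τ = (X τ - τ X) τ + (X - X τ τ) = (X τ - τ X) τ + cov g i j (n cst Pv) ∈ AE`: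
`Mlt_T`, `Mlt.isMul_m1`, `nf_mul_Pv_mem`, `cov_mem_AE`. -/
theorem Site.main_mem [T2Space P] [ContinuousConstSMul Γ P] (c : ℕ × Bs I ≃ ℕ) (e : I ↪ ℕ)
    {f : C₀(P, ℂ)} {L : Finset I} {δ : ℝ} (h : H.Ex L δ f) (φ : ℝ) (g : Γ) (i j : ℕ) {s : ℝ}
    (hs : 0 < s) (hs1 : s ≤ 1) :
    cov c (sact e) g i j (H.nf f L φ) -
      m1 c (H.T w e s hs.le) * cov c (sact e) g i j (H.nf f L φ) * m1 c (H.T w e s hs.le) ∈
      AE c (sact e) H.U := by
  have hTT : H.T w e s hs.le * H.T w e s hs.le = H.EP - cst Pv := by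
    rw [H.T_mul_T w e s hs.le]
    refine FB.ext fun p => ?_
    rw [FB.mul_apply, FB.sub_apply, FB.sub_apply, FB.one_apply, cst_apply, Site.EP_apply, sub_mul,
      one_mul, Pv_mul_Es]
  have hEP : H.nf f L φ * H.EP = H.nf f L φ := by
    refine FB.ext fun p => ?_
    rw [FB.mul_apply, Site.nf_apply, Site.EP_apply, smul_mul_assoc, mul_assoc, Es_mul_Es]
  have h1 : cov c (sact e) g i j (H.nf f L φ) * m1 c (H.T w e s hs.le) -
      m1 c (H.T w e s hs.le) * cov c (sact e) g i j (H.nf f L φ) ∈ AE c (sact e) H.U := by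
    rw [cov_mul_m1, m1_mul_cov, H.Ad_T w e g s hs.le, ← cov_sub]
    exact cov_mem_AE c (sact e) H.U g i j (H.commutator_mem w e h φ g hs hs1)
  have h2 : cov c (sact e) g i j (H.nf f L φ) *
      (m1 c (H.T w e s hs.le) * m1 c (H.T w e s hs.le)) =
      cov c (sact e) g i j (H.nf f L φ) - cov c (sact e) g i j (H.nf f L φ * cst Pv) := by
    rw [← m1_mul, hTT, m1_sub, mul_sub, cov_mul_m1, cov_mul_m1, H.Ad_EP e g, Ad_Pv e g, hEP]
  have h3 := (Mlt.isMul_m1 c (sact e) H.isOpen_U H.smul_mem_U (H.Mlt_T w e s hs.le) _ h1).2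
  have h4 := cov_mem_AE c (sact e) H.U g i j (H.nf_mul_Pv_mem h φ)
  have h5 : cov c (sact e) g i j (H.nf f L φ) -
      m1 c (H.T w e s hs.le) * cov c (sact e) g i j (H.nf f L φ) * m1 c (H.T w e s hs.le) =
      (cov c (sact e) g i j (H.nf f L φ) * m1 c (H.T w e s hs.le) -
        m1 c (H.T w e s hs.le) * cov c (sact e) g i j (H.nf f L φ)) * m1 c (H.T w e s hs.le) +
      cov c (sact e) g i j (H.nf f L φ * cst Pv) := by
    rw [sub_mul, mul_assoc (cov c (sact e) g i j (H.nf f L φ)), h2]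
    abel
  rw [h5]
  exact add_mem h3 h4

end Pool.Agent.Lib.MP_aa9b81_an.Hs
end
end

section

/-!
# Hereditary shifts, part G2a: deformation of the weights
-/

open scoped ENNReal Topology ZeroAtInfty
open Function Filter Set

noncomputable section

namespace Pool.Agent.Lib.MP_aa9b81_an.Hs

open Cut

variable {Γ P I : Type} [Group Γ] [TopologicalSpace P] [MulAction Γ P] [MulAction Γ I]
  [DecidableEq I] (H : Site Γ P I) (w : Wt Γ I)

/-- The operator `T` for the deformation parameter `|s|`. -/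
def Site.TT (e : I ↪ ℕ) (s : ℝ) : FB (Bs I) P := H.T w e |s| (abs_nonneg s)

/-- The translated operator for the deformation parameter `|s|`. -/
def Site.TTg (e : I ↪ ℕ) (g : Γ) (s : ℝ) : FB (Bs I) P := H.Tg w e g |s| (abs_nonneg s)

omit [DecidableEq I] in
/-- PROOF: `normalize_sub_sq_le` with `b = Ws s'`: `Ws s i - Ws s' i = (s - s') (W i - 1)`, so
`∑ (Ws s - Ws s')² ≤ (s - s')² M² |F|`, and `∑ Ws s'² ≥ |F|` (`one_le_Ws`). -/
theorem Site.uu_lip {M : ℝ} {s s' : ℝ} (hs : 0 ≤ s) (hs' : 0 ≤ s') (p : P) {F : Finset I}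
    (hF : F.Nonempty) (hM : ∀ i ∈ F, H.W w p i ≤ M) :
    ∑ i ∈ F, (H.uu w s p F i - H.uu w s' p F i) ^ 2 ≤ 4 * (s - s') ^ 2 * M ^ 2 := by
  have hb : 0 < ∑ i ∈ F, H.Ws w s' p i ^ 2 := by
    refine Finset.sum_pos (fun i _ => ?_) hF
    have h2 := H.one_le_Ws w hs' p i
    positivity
  have h1 := normalize_sub_sq_le F (fun i => H.Ws w s p i) (fun i => H.Ws w s' p i) hb
  have h2 : ∑ i ∈ F, (H.Ws w s p i - H.Ws w s' p i) ^ 2 ≤ (s - s') ^ 2 * M ^ 2 * F.card := by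
    calc _ ≤ ∑ i ∈ F, (s - s') ^ 2 * M ^ 2 := by
          refine Finset.sum_le_sum fun i hi => ?_
          have h3 : H.Ws w s p i - H.Ws w s' p i = (s - s') * (H.W w p i - 1) := by
            simp only [Site.Ws]
            ring
          rw [h3, mul_pow]
          refine mul_le_mul_of_nonneg_left ?_ (sq_nonneg _)
          have h4 := H.one_le_W w p i
          have h5 := hM i hi
          exact pow_le_pow_left₀ (by linarith) (by linarith) 2
      _ = (s - s') ^ 2 * M ^ 2 * F.card := by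
          rw [Finset.sum_const, nsmul_eq_mul]
          ring
  have h3 : (F.card : ℝ) ≤ ∑ i ∈ F, H.Ws w s' p i ^ 2 := by
    calc (F.card : ℝ) = ∑ i ∈ F, (1 : ℝ) := by simp
      _ ≤ ∑ i ∈ F, H.Ws w s' p i ^ 2 := by
          refine Finset.sum_le_sum fun i _ => ?_
          have h4 := H.one_le_Ws w hs' p i
          nlinarith
  refine h1.trans ?_
  rw [div_le_iff₀ hb]
  have h5 : 0 ≤ (s - s') ^ 2 * M ^ 2 := by positivity
  calc 4 * ∑ i ∈ F, (H.Ws w s p i - H.Ws w s' p i) ^ 2 ≤ 4 * ((s - s') ^ 2 * M ^ 2 * F.card) := by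
        linarith
    _ ≤ 4 * ((s - s') ^ 2 * M ^ 2 * ∑ i ∈ F, H.Ws w s' p i ^ 2) := by
        have := mul_le_mul_of_nonneg_left h3 h5
        linarith
    _ = 4 * (s - s') ^ 2 * M ^ 2 * ∑ i ∈ F, H.Ws w s' p i ^ 2 := by ring

omit [DecidableEq I] in
/-- PROOF: `uu_lip` at `g⁻¹ p`, `gF g⁻¹ F`: `W (g⁻¹ p) (g⁻¹ i) = w (g⁻¹ i) + (hh p i)⁻¹ ≤ W p i + C`. -/
theorem Site.ug_lip {g : Γ} {C : ℝ} (hg : ∀ i, |w.w (g⁻¹ • i) - w.w i| ≤ C) {M : ℝ} {s s' : ℝ}
    (hs : 0 ≤ s) (hs' : 0 ≤ s') (p : P) {F : Finset I} (hF : F.Nonempty)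
    (hM : ∀ i ∈ F, H.W w p i ≤ M) :
    ∑ i ∈ F, (H.ug w g s p F i - H.ug w g s' p F i) ^ 2 ≤ 4 * (s - s') ^ 2 * (M + C) ^ 2 := by
  have hF' : (gF g⁻¹ F).Nonempty := by
    rw [← Finset.card_pos, card_gF]
    exact Finset.card_pos.2 hF
  have h1 := H.uu_lip w (M := M + C) hs hs' (g⁻¹ • p) hF' (fun j hj => by
    rw [mem_gF, inv_inv] at hj
    have h2 := hM _ hj
    have h3 := hg (g • j)
    rw [inv_smul_smul] at h3
    have h4 := H.equi g⁻¹ p (g • j)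
    rw [inv_smul_smul] at h4
    rw [Site.W] at h2 ⊢
    rw [h4]
    have h5 := (abs_le.1 h3).2
    linarith)
  have key : ∀ f : I → ℝ, ∑ j ∈ gF g⁻¹ F, f j = ∑ i ∈ F, f (g⁻¹ • i) := by
    intro f
    rw [gF, Finset.sum_map]
    rfl
  refine le_trans (le_of_eq ?_) h1
  rw [key]
  rfl

end Pool.Agent.Lib.MP_aa9b81_an.Hs
end
end

section

/-!
# Hereditary shifts, part G2b: deformation of the weights
-/

open scoped ENNReal Topology ZeroAtInfty
open Function Filter Set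

noncomputable section

namespace Pool.Agent.Lib.MP_aa9b81_an.Hs

open Cut

variable {Γ P I : Type} [Group Γ] [TopologicalSpace P] [MulAction Γ P] [MulAction Γ I]
  [DecidableEq I] (H : Site Γ P I) (w : Wt Γ I)

/-- Estimate at one point. Let `χ(F) = 1` if `F ∈ 𝒜` and `δ ≤ hh p j` for all `j ∈ F`, and `0` otherwise. PROOF:
`Cl(uu s) Cl(ug s) = Cl(uu s) Cl(χ ug s) + Cl(uu s) Cl((1-χ)(ug s - uu s)) + dia((1-χ)[F ≠ ∅])`
(`Cl_add`, `Cl_mul_self`, `dia_mul_Cl`, `sum_uu_sq`), the last summand does not depend on `s`. After multiplication by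
`Es (supp p)` the second summand has norm `≤ ε` (`hbad`, `norm_Cl_le`: only `F ⊆ supp p` matter). The first:
`Cl(uu s) Cl(χ ug s) - Cl(uu s') Cl(χ ug s') = Cl(uu s) Cl(χ (ug s - ug s')) + Cl(χ (uu s - uu s')) Cl(ug s')`
(`dia_mul_Cl`, `Cl_mul_dia`: `χ` is a function of `F`), norm `≤ K + K`. -/
theorem Site.TTg_near (e : I ↪ ℕ) (g : Γ) {s s' : ℝ} (hs : 0 ≤ s) (hs' : 0 ≤ s') (p : P)
    {ε K δ : ℝ} (hε : 0 ≤ ε) (hK : 0 ≤ K) (𝒜 : Finset (Finset I))
    (hbad : ∀ r ∈ ({s, s'} : Set ℝ), ∀ F : Finset I, (F : Set I) ⊆ H.supp p →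
      (F ∉ 𝒜 ∨ ∃ j ∈ F, H.hh p j < δ) →
      ∑ i ∈ F, (H.ug w g r p F i - H.uu w r p F i) ^ 2 ≤ ε ^ 2)
    (h1 : ∀ F ∈ 𝒜, (F : Set I) ⊆ H.supp p → (∀ j ∈ F, δ ≤ H.hh p j) →
      ∑ i ∈ F, (H.uu w s p F i - H.uu w s' p F i) ^ 2 ≤ K ^ 2)
    (h2 : ∀ F ∈ 𝒜, (F : Set I) ⊆ H.supp p → (∀ j ∈ F, δ ≤ H.hh p j) →
      ∑ i ∈ F, (H.ug w g s p F i - H.ug w g s' p F i) ^ 2 ≤ K ^ 2) :
    ‖(H.T w e s hs * H.Tg w e g s hs : FB (Bs I) P) p -
      (H.T w e s' hs' * H.Tg w e g s' hs' : FB (Bs I) P) p‖ ≤ 2 * ε + 2 * K := by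
  classical
  have hA : CB (H.uu w s p) 1 := H.CB_uu w hs p
  have hA' : CB (H.uu w s' p) 1 := H.CB_uu w hs' p
  have hB : CB (H.ug w g s p) 1 := H.CB_ug w g hs p
  have hB' : CB (H.ug w g s' p) 1 := H.CB_ug w g hs' p
  let good : Finset I → Prop := fun F => F ∈ 𝒜 ∧ ∀ j ∈ F, δ ≤ H.hh p j
  let ψ : Finset I → ℝ := fun F => if good F ∧ (F : Set I) ⊆ H.supp p then 1 else 0
  let ψ' : Finset I → ℝ := fun F => if ¬ good F ∧ (F : Set I) ⊆ H.supp p then 1 else 0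
  have hψ : ∀ F, |ψ F| ≤ 1 := by
    intro F
    by_cases h : good F ∧ (F : Set I) ⊆ H.supp p
    · simp only [ψ, if_pos h, abs_one, le_refl]
    · simp only [ψ, if_neg h, abs_zero, zero_le_one]
  have hψ' : ∀ F, |ψ' F| ≤ 1 := by
    intro F
    by_cases h : ¬ good F ∧ (F : Set I) ⊆ H.supp p
    · simp only [ψ', if_pos h, abs_one, le_refl]
    · simp only [ψ', if_neg h, abs_zero, zero_le_one]
  have hnψ : ∀ b : Bs I, ‖((ψ b.F : ℝ) : ℂ)‖ ≤ 1 := by
    intro b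
    rw [Complex.norm_real]
    exact hψ b.F
  have hnψ' : ∀ b : Bs I, ‖((ψ' b.F : ℝ) : ℂ)‖ ≤ 1 := by
    intro b
    rw [Complex.norm_real]
    exact hψ' b.F
  have hE : (Es (H.supp p) : BL (Bs I)) =
      dia (fun b : Bs I => ((ψ b.F : ℝ) : ℂ)) + dia (fun b : Bs I => ((ψ' b.F : ℝ) : ℂ)) := by
    refine ContinuousLinearMap.ext fun ξ => ?_
    ext b
    rw [Es_apply, ContinuousLinearMap.add_apply, lp.coeFn_add, Pi.add_apply,
      dia_apply zero_le_one hnψ, dia_apply zero_le_one hnψ']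
    by_cases h1 : (b.F : Set I) ⊆ H.supp p
    · by_cases h2 : good b.F
      · simp [ψ, ψ', h1, h2]
      · simp [ψ, ψ', h1, h2]
    · simp [ψ, ψ', h1]
  -- the two multiplication operators commute with the Clifford operators
  have hDc : ∀ {a : Finset I → I → ℝ} {C : ℝ}, CB a C →
      dia (fun b : Bs I => ((ψ b.F : ℝ) : ℂ)) * Cl e a =
        Cl e a * dia (fun b : Bs I => ((ψ b.F : ℝ) : ℂ)) := by
    intro a C h
    rw [dia_mul_Cl e h hψ, Cl_mul_dia e h hψ]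
  have hDc' : ∀ {a : Finset I → I → ℝ} {C : ℝ}, CB a C →
      dia (fun b : Bs I => ((ψ' b.F : ℝ) : ℂ)) * Cl e a =
        Cl e a * dia (fun b : Bs I => ((ψ' b.F : ℝ) : ℂ)) := by
    intro a C h
    rw [dia_mul_Cl e h hψ', Cl_mul_dia e h hψ']
  -- norm estimates
  have hbound : ∀ {a : Finset I → I → ℝ} {c : ℝ} (φ : Finset I → ℝ), 0 ≤ c →
      (∀ F, φ F = 0 ∨ (φ F = 1 ∧ ∑ i ∈ F, a F i ^ 2 ≤ c ^ 2)) →
      CB (fun F i => φ F * a F i) c := by
    intro a c φ hc h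
    refine ⟨hc, fun F => ?_⟩
    rcases h F with h0 | ⟨h0, h3⟩
    · simp only [h0, zero_mul, ne_eq, OfNat.ofNat_ne_zero, not_false_eq_true, zero_pow,
        Finset.sum_const_zero]
      positivity
    · simpa only [h0, one_mul] using h3
  have hn1 : ‖dia (fun b : Bs I => ((ψ b.F : ℝ) : ℂ)) *
      (Cl e (H.ug w g s p) - Cl e (H.ug w g s' p))‖ ≤ K := by
    rw [← Cl_sub e hB hB', dia_mul_Cl e (hB.sub hB') hψ]
    refine norm_Cl_le e (hbound ψ hK fun F => ?_)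
    by_cases h : good F ∧ (F : Set I) ⊆ H.supp p
    · exact Or.inr ⟨if_pos h, h2 F h.1.1 h.2 h.1.2⟩
    · exact Or.inl (if_neg h)
  have hn2 : ‖dia (fun b : Bs I => ((ψ b.F : ℝ) : ℂ)) *
      (Cl e (H.uu w s p) - Cl e (H.uu w s' p))‖ ≤ K := by
    rw [← Cl_sub e hA hA', dia_mul_Cl e (hA.sub hA') hψ]
    refine norm_Cl_le e (hbound ψ hK fun F => ?_)
    by_cases h : good F ∧ (F : Set I) ⊆ H.supp p
    · exact Or.inr ⟨if_pos h, h1 F h.1.1 h.2 h.1.2⟩
    · exact Or.inl (if_neg h)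
  have hbad' : ∀ r ∈ ({s, s'} : Set ℝ), ∀ F, ψ' F = 0 ∨ (ψ' F = 1 ∧
      ∑ i ∈ F, (H.ug w g r p F i - H.uu w r p F i) ^ 2 ≤ ε ^ 2) := by
    intro r hr F
    by_cases h : ¬ good F ∧ (F : Set I) ⊆ H.supp p
    · refine Or.inr ⟨if_pos h, hbad r hr F h.2 ?_⟩
      have h3 := h.1
      simp only [good, not_and_or, not_forall, not_le] at h3
      rcases h3 with h3 | ⟨j, hj, h3⟩
      · exact Or.inl h3
      · exact Or.inr ⟨j, hj, h3⟩
    · exact Or.inl (if_neg h)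
  have hn3 : ‖dia (fun b : Bs I => ((ψ' b.F : ℝ) : ℂ)) *
      (Cl e (H.ug w g s p) - Cl e (H.uu w s p))‖ ≤ ε := by
    rw [← Cl_sub e hB hA, dia_mul_Cl e (hB.sub hA) hψ']
    exact norm_Cl_le e (hbound ψ' hε fun F => hbad' s (Set.mem_insert _ _) F)
  have hn4 : ‖dia (fun b : Bs I => ((ψ' b.F : ℝ) : ℂ)) *
      (Cl e (H.ug w g s' p) - Cl e (H.uu w s' p))‖ ≤ ε := by
    rw [← Cl_sub e hB' hA', dia_mul_Cl e (hB'.sub hA') hψ']
    exact norm_Cl_le e (hbound ψ' hε fun F => hbad' s' (Set.mem_insert_of_mem _ rfl) F)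
  have hsq : Cl e (H.uu w s p) * Cl e (H.uu w s p) = Cl e (H.uu w s' p) * Cl e (H.uu w s' p) := by
    rw [Cl_mul_self e hA, Cl_mul_self e hA']
    congr 1
    funext b
    rw [H.sum_uu_sq w hs, H.sum_uu_sq w hs']
  have hEA : Commute (Es (H.supp p)) (Cl e (H.ug w g s p)) := Es_comm_Cl e (H.supp p) hB
  have hEA' : Commute (Es (H.supp p)) (Cl e (H.ug w g s' p)) := Es_comm_Cl e (H.supp p) hB'
  have hEE := Es_mul_Es (I := I) (H.supp p)
  have hX : (H.T w e s hs * H.Tg w e g s hs : FB (Bs I) P) p =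
      Cl e (H.uu w s p) * (Es (H.supp p) * Cl e (H.ug w g s p)) := by
    show (Cl e (H.uu w s p) * Es (H.supp p)) * (Cl e (H.ug w g s p) * Es (H.supp p)) = _
    rw [← hEA.eq, mul_assoc, ← mul_assoc (Es (H.supp p)) (Es (H.supp p)), hEE]
  have hX' : (H.T w e s' hs' * H.Tg w e g s' hs' : FB (Bs I) P) p =
      Cl e (H.uu w s' p) * (Es (H.supp p) * Cl e (H.ug w g s' p)) := by
    show (Cl e (H.uu w s' p) * Es (H.supp p)) * (Cl e (H.ug w g s' p) * Es (H.supp p)) = _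
    rw [← hEA'.eq, mul_assoc, ← mul_assoc (Es (H.supp p)) (Es (H.supp p)), hEE]
  have cA := hDc hA
  have cA' := hDc hA'
  have cB' := hDc hB'
  have dA := hDc' hA
  have dA' := hDc' hA'
  have nA := norm_Cl_le e hA
  have nA' := norm_Cl_le e hA'
  have nB' := norm_Cl_le e hB'
  rw [hX, hX', hE]
  generalize dia (fun b : Bs I => ((ψ b.F : ℝ) : ℂ)) = D at *
  generalize dia (fun b : Bs I => ((ψ' b.F : ℝ) : ℂ)) = D' at *
  generalize Cl e (H.uu w s p) = A at *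
  generalize Cl e (H.uu w s' p) = A' at *
  generalize Cl e (H.ug w g s p) = B at *
  generalize Cl e (H.ug w g s' p) = B' at *
  have key : A * ((D + D') * B) - A' * ((D + D') * B') =
      A * (D * (B - B')) + (D * (A - A')) * B' + (A * (D' * (B - A)) - A' * (D' * (B' - A'))) := by
    have e1 : A * (D * B') = D * A * B' := by rw [cA, mul_assoc]
    have e2 : A' * (D * B') = D * A' * B' := by rw [cA', mul_assoc]
    have e3 : A * (D' * A) = D' * (A * A) := by rw [← mul_assoc, ← dA, mul_assoc]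
    have e4 : A' * (D' * A') = D' * (A * A) := by rw [← mul_assoc, ← dA', mul_assoc, hsq]
    simp only [mul_sub, sub_mul, add_mul, mul_add]
    rw [e1, e2, e3, e4]
    abel
  rw [key]
  have f1 : ‖A * (D * (B - B'))‖ ≤ K := by
    refine (norm_mul_le _ _).trans ?_
    calc ‖A‖ * ‖D * (B - B')‖ ≤ 1 * K := mul_le_mul nA hn1 (norm_nonneg _) zero_le_one
      _ = K := one_mul K
  have f2 : ‖(D * (A - A')) * B'‖ ≤ K := by
    refine (norm_mul_le _ _).trans ?_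
    calc ‖D * (A - A')‖ * ‖B'‖ ≤ K * 1 := mul_le_mul hn2 nB' (norm_nonneg _) hK
      _ = K := mul_one K
  have f3 : ‖A * (D' * (B - A))‖ ≤ ε := by
    refine (norm_mul_le _ _).trans ?_
    calc ‖A‖ * ‖D' * (B - A)‖ ≤ 1 * ε := mul_le_mul nA hn3 (norm_nonneg _) zero_le_one
      _ = ε := one_mul ε
  have f4 : ‖A' * (D' * (B' - A'))‖ ≤ ε := by
    refine (norm_mul_le _ _).trans ?_
    calc ‖A'‖ * ‖D' * (B' - A')‖ ≤ 1 * ε := mul_le_mul nA' hn4 (norm_nonneg _) zero_le_one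
      _ = ε := one_mul ε
  refine (norm_add_le _ _).trans ?_
  have f5 := norm_add_le (A * (D * (B - B'))) ((D * (A - A')) * B')
  have f6 := norm_sub_le (A * (D' * (B - A))) (A' * (D' * (B' - A')))
  linarith

end Pool.Agent.Lib.MP_aa9b81_an.Hs
end
end

section

/-!
# Hereditary shifts, part G2: deformation of the weights
-/

open scoped ENNReal Topology ZeroAtInfty
open Function Filter Set

noncomputable section

namespace Pool.Agent.Lib.MP_aa9b81_an.Hs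

open Cut

variable {Γ P I : Type} [Group Γ] [TopologicalSpace P] [MulAction Γ P] [MulAction Γ I]
  [DecidableEq I] (H : Site Γ P I) (w : Wt Γ I)

/-- CONTINUITY of `s ↦ T_s (T_s)^g`. PROOF: let `s' ∈ [0,1]`, `ε > 0`; `𝒜`, `δ` from `decay_ug` for `ε/8`; `C` from
`w.var g⁻¹`. Let `M ≥ 0` be such that `w i + δ⁻¹ ≤ M` for all `i` in the sets of `𝒜`; then `W p i ≤ M` if `δ ≤ hh p i`. For
`|s - s'|` small, `K = 2 |s - s'| (M + C) ≤ ε/8`: `uu_lip`, `ug_lip` (for `F = ∅` the sums are `0`), `TTg_near`,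
`FB.norm_le_iff`. -/
theorem Site.continuousOn_TTg (e : I ↪ ℕ) (g : Γ) :
    ContinuousOn (fun s => H.TT w e s * H.TTg w e g s) (Icc 0 1) := by
  classical
  rw [Metric.continuousOn_iff]
  intro s' hs' ε hε
  obtain ⟨𝒜, δ, hδ, hdec⟩ := H.decay_ug w g (ε := ε / 8) (by positivity)
  obtain ⟨C, hC, hvar⟩ := w.var g⁻¹
  obtain ⟨M, hM0, hM⟩ : ∃ M : ℝ, 0 ≤ M ∧ ∀ F ∈ 𝒜, ∀ i ∈ F, w.w i + δ⁻¹ ≤ M := by
    have hnn : ∀ i, 0 ≤ w.w i + δ⁻¹ := fun i => by
      have h1 := w.one_le i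
      have h2 : 0 ≤ δ⁻¹ := by positivity
      linarith
    refine ⟨∑ F ∈ 𝒜, ∑ i ∈ F, (w.w i + δ⁻¹),
      Finset.sum_nonneg fun F _ => Finset.sum_nonneg fun i _ => hnn i, fun F hF i hi => ?_⟩
    have h1 : w.w i + δ⁻¹ ≤ ∑ i ∈ F, (w.w i + δ⁻¹) :=
      Finset.single_le_sum (f := fun i => w.w i + δ⁻¹) (fun i _ => hnn i) hi
    have h2 : ∑ i ∈ F, (w.w i + δ⁻¹) ≤ ∑ F ∈ 𝒜, ∑ i ∈ F, (w.w i + δ⁻¹) :=
      Finset.single_le_sum (f := fun F => ∑ i ∈ F, (w.w i + δ⁻¹))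
        (fun F _ => Finset.sum_nonneg fun i _ => hnn i) hF
    exact h1.trans h2
  have hWM : ∀ F ∈ 𝒜, ∀ p, (∀ j ∈ F, δ ≤ H.hh p j) → ∀ i ∈ F, H.W w p i ≤ M := by
    intro F hF p hp i hi
    have h1 : (H.hh p i)⁻¹ ≤ δ⁻¹ := inv_anti₀ hδ (hp i hi)
    have h2 := hM F hF i hi
    rw [Site.W]
    linarith
  refine ⟨ε / (16 * (M + C + 1)), by positivity, fun s hs hd => ?_⟩
  rw [Real.dist_eq] at hd
  rw [dist_eq_norm]
  set t := |s| with ht
  set t' := |s'| with ht'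
  have hts : t = s := abs_of_nonneg hs.1
  have hts' : t' = s' := abs_of_nonneg hs'.1
  have htt : |t - t'| < ε / (16 * (M + C + 1)) := by rw [hts, hts']; exact hd
  set K : ℝ := 2 * |t - t'| * (M + C) with hK
  have hMC : 0 ≤ M + C := add_nonneg hM0 hC
  have hK0 : 0 ≤ K := by positivity
  have hKle : K ≤ ε / 8 := by
    have h1 : |t - t'| * (16 * (M + C + 1)) < ε := (lt_div_iff₀ (by positivity)).1 htt
    have h2 : 0 ≤ |t - t'| := abs_nonneg _
    rw [hK]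
    nlinarith
  have hKsq : K ^ 2 = 4 * (t - t') ^ 2 * (M + C) ^ 2 := by
    rw [hK, mul_pow, mul_pow, sq_abs]
    ring
  have key : ‖H.TT w e s * H.TTg w e g s - H.TT w e s' * H.TTg w e g s'‖ ≤
      2 * (ε / 8) + 2 * K := by
    rw [FB.norm_le_iff (by positivity)]
    intro p
    refine H.TTg_near w e g (abs_nonneg s) (abs_nonneg s') p (by positivity) hK0 𝒜 (δ := δ) ?_ ?_ ?_
    · intro r hr F hF hbad
      have hr' : 0 ≤ r ∧ r ≤ 1 := by
        rcases hr with hr | hr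
        · rw [hr, ← ht, hts]
          exact hs
        · rw [Set.mem_singleton_iff.1 hr, ← ht', hts']
          exact hs'
      exact hdec r hr'.1 hr'.2 p F hF hbad
    · intro F hF hsup hh
      rcases F.eq_empty_or_nonempty with rfl | hne
      · simp only [Finset.sum_empty]
        positivity
      · refine (H.uu_lip w (abs_nonneg s) (abs_nonneg s') p hne (hWM F hF p hh)).trans ?_
        rw [hKsq]
        have h3 : M ^ 2 ≤ (M + C) ^ 2 := by nlinarith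
        exact mul_le_mul_of_nonneg_left h3 (by positivity)
    · intro F hF hsup hh
      rcases F.eq_empty_or_nonempty with rfl | hne
      · simp only [Finset.sum_empty]
        positivity
      · refine (H.ug_lip w hvar (abs_nonneg s) (abs_nonneg s') p hne (hWM F hF p hh)).trans ?_
        rw [hKsq]
  linarith

/-- At `s = 0` all the weights are `1`: the operator is invariant. PROOF: `uu w 0 p F i = 1 / √|F|`, `card_gF`. -/
theorem Site.Tg_zero (e : I ↪ ℕ) (g : Γ) (hs : (0 : ℝ) ≤ 0) : H.Tg w e g 0 hs = H.T w e 0 hs := by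
  have h1 : ∀ p (F : Finset I) i, H.uu w 0 p F i = 1 / √(F.card : ℝ) := by
    intro p F i
    simp only [Site.uu, Site.nW, Site.Ws, zero_mul, add_zero, one_pow, Finset.sum_const,
      nsmul_eq_mul, mul_one]
  have h2 : ∀ p, H.ug w g 0 p = H.uu w 0 p := by
    intro p
    funext F i
    rw [Site.ug, h1, h1, card_gF]
  apply FB.ext
  intro p
  rw [Site.Tg_apply, Site.T_apply, h2]

end Pool.Agent.Lib.MP_aa9b81_an.Hs
end
end

section

/-!
# Hereditary shifts, part G4a: the representation on exact functions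
-/

open scoped ENNReal Topology ZeroAtInfty
open Function Filter Set

noncomputable section

namespace Pool.Agent.Lib.MP_aa9b81_an.Hs

open Cut

variable {Γ P I : Type} [Group Γ] [TopologicalSpace P] [MulAction Γ P] [MulAction Γ I]
  [DecidableEq I] (H : Site Γ P I) (w : Wt Γ I)

theorem Site.TT_eq (e : I ↪ ℕ) {s : ℝ} (hs : 0 ≤ s) : H.TT w e s = H.T w e s hs := by
  unfold Site.TT
  congr 1
  exact abs_of_nonneg hs

theorem Site.TTg_eq (e : I ↪ ℕ) (g : Γ) {s : ℝ} (hs : 0 ≤ s) :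
    H.TTg w e g s = H.Tg w e g s hs := by
  unfold Site.TTg
  congr 1
  exact abs_of_nonneg hs

omit [TopologicalSpace P] [DecidableEq I] in
/-- PROOF: `FB.ext`. -/
theorem cst_mul (X X' : BL (Bs I)) : (cst (X * X') : FB (Bs I) P) = cst X * cst X' :=
  FB.ext fun _ => rfl

/-- PROOF: at `p` the difference is `(f(p) (Sp L φ - Sp L φ')) Es`, `norm_Es_le`, `‖f p‖ ≤ ‖f‖`; `FB.norm_le_iff`. -/
theorem Site.norm_nf_sub_le (f : C₀(P, ℂ)) (L : Finset I) (φ φ' : ℝ) :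
    ‖H.nf f L φ - H.nf f L φ'‖ ≤ ‖f‖ * ‖Sp L φ - Sp L φ'‖ := by
  rw [FB.norm_le_iff (by positivity)]
  intro p
  rw [FB.sub_apply, H.nf_apply, H.nf_apply, ← smul_sub, ← sub_mul, norm_smul]
  have h1 : ‖f p‖ ≤ ‖f‖ := f.toBCF.norm_coe_le_norm p
  have h2 := norm_Es_le (H.supp p)
  have h3 : ‖(Sp L φ - Sp L φ') * Es (H.supp p)‖ ≤ ‖Sp L φ - Sp L φ'‖ := by
    refine (norm_mul_le _ _).trans ?_
    calc ‖Sp L φ - Sp L φ'‖ * ‖(Es (H.supp p) : BL (Bs I))‖ ≤ ‖Sp L φ - Sp L φ'‖ * 1 :=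
          mul_le_mul_of_nonneg_left h2 (norm_nonneg _)
      _ = _ := mul_one _
  exact mul_le_mul h1 h3 (norm_nonneg _) (norm_nonneg _)

/-- PROOF: `norm_nf_sub_le`, `continuous_Sp`, `cov_sub`, `norm_cov_le`. -/
theorem Site.continuous_cov_nf (c : ℕ × Bs I ≃ ℕ) (e : I ↪ ℕ) (f : C₀(P, ℂ)) (L : Finset I)
    (g : Γ) (i j : ℕ) : Continuous fun φ => cov c (sact e) g i j (H.nf f L φ) := by
  rw [continuous_iff_continuousAt]
  intro φ
  rw [ContinuousAt, tendsto_iff_norm_sub_tendsto_zero]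
  have h1 : Tendsto (fun x => ‖f‖ * ‖Sp L x - Sp L φ‖) (𝓝 φ) (𝓝 0) := by
    have h2 := (tendsto_iff_norm_sub_tendsto_zero.1 ((continuous_Sp L).tendsto φ)).const_mul ‖f‖
    rwa [mul_zero] at h2
  refine squeeze_zero (fun x => norm_nonneg _) (fun x => ?_) h1
  rw [← cov_sub]
  exact (norm_cov_le c (sact e) g i j _).trans (H.norm_nf_sub_le f L x φ)

/-- PROOF: `W_mul_Pp`, `SAct.W_mul_inv`. -/
theorem Ad_cst_Pp (e : I ↪ ℕ) (g : Γ) :
    (sact e).Ad g (cst Pp : FB (Bs I) P) = cst Pp := by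
  refine FB.ext fun p => ?_
  rw [SAct.Ad, FB.mk_apply, cst_apply, cst_apply, W_mul_Pp, mul_assoc, SAct.W_mul_inv, mul_one]

/-- PROOF: `Sp_comm_Pp`, `Es_comm_Pp`. -/
theorem Site.Pp_mul_nf (f : C₀(P, ℂ)) (L : Finset I) (φ : ℝ) :
    cst Pp * H.nf f L φ = H.nf f L φ * cst Pp := by
  refine FB.ext fun p => ?_
  rw [FB.mul_apply, FB.mul_apply, cst_apply, H.nf_apply, mul_smul_comm, smul_mul_assoc, ← mul_assoc,
    ← (Sp_comm_Pp L φ).eq, mul_assoc, mul_assoc, (Es_comm_Pp (H.supp p)).eq]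

end Pool.Agent.Lib.MP_aa9b81_an.Hs
end
end

section

/-!
# Hereditary shifts, part G4b: the representation on exact functions
-/

open scoped ENNReal Topology ZeroAtInfty
open Function Filter Set

noncomputable section

namespace Pool.Agent.Lib.MP_aa9b81_an.Hs

open Cut

variable {Γ P I : Type} [Group Γ] [TopologicalSpace P] [MulAction Γ P] [MulAction Γ I]
  [DecidableEq I] (H : Site Γ P I) (w : Wt Γ I)

/-- PROOF: at `p`: if `f p = 0` both are `0`; otherwise `L ⊆ supp p`, `Sp_comm_Es`, `Es_mul_Es`. -/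
theorem Site.EP_mul_nf {f : C₀(P, ℂ)} {L : Finset I} {δ : ℝ} (h : H.Ex L δ f) (φ : ℝ) :
    H.EP * H.nf f L φ = H.nf f L φ := by
  refine FB.ext fun p => ?_
  rw [FB.mul_apply, H.EP_apply, H.nf_apply]
  by_cases hf : f p = 0
  · rw [hf, zero_smul, mul_zero]
  · have hL : (L : Set I) ⊆ H.supp p := fun i hi =>
      lt_of_lt_of_le h.pos (h.le p hf i (Finset.mem_coe.1 hi))
    rw [mul_smul_comm, ← mul_assoc, ← (Sp_comm_Es hL φ).eq, mul_assoc, Es_mul_Es]

/-- PROOF: `Es_mul_Es`. -/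
theorem Site.nf_mul_EP (f : C₀(P, ℂ)) (L : Finset I) (φ : ℝ) :
    H.nf f L φ * H.EP = H.nf f L φ := by
  refine FB.ext fun p => ?_
  rw [FB.mul_apply, H.EP_apply, H.nf_apply, smul_mul_assoc, mul_assoc, Es_mul_Es]

/-- PROOF: `m1_mul_cov`, `cov_mul_m1`, `Ad_cst_Pp`, `Pp_mul_nf`. -/
theorem Site.Pp_cov_nf (c : ℕ × Bs I ≃ ℕ) (e : I ↪ ℕ) (f : C₀(P, ℂ)) (L : Finset I) (φ : ℝ)
    (g : Γ) (i j : ℕ) : m1 c (cst Pp) * cov c (sact e) g i j (H.nf f L φ) =
      cov c (sact e) g i j (H.nf f L φ) * m1 c (cst Pp) := by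
  rw [m1_mul_cov, cov_mul_m1, Ad_cst_Pp, H.Pp_mul_nf]

/-- PROOF: `m1_mul_cov`, `EP_mul_nf`. -/
theorem Site.EP_cov_nf (c : ℕ × Bs I ≃ ℕ) (e : I ↪ ℕ) {f : C₀(P, ℂ)} {L : Finset I} {δ : ℝ}
    (h : H.Ex L δ f) (φ : ℝ) (g : Γ) (i j : ℕ) :
    m1 c H.EP * cov c (sact e) g i j (H.nf f L φ) = cov c (sact e) g i j (H.nf f L φ) := by
  rw [m1_mul_cov, H.EP_mul_nf h]

/-- `T_s² Pm X = Pm X` if `EP X = X`. PROOF: `m1_mul`, `T_mul_T`, `m1_sub`; `(1 - cst Pv) EP cst Pm = (cst Pm) EP`: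
`Pm_mul_Pv`, `Pv_mul_Es`, `Es_comm_Pp` and `Pp_add_Pm` (so `Es` commutes with `Pm`; `Pv Pm = 0` similarly: both are
multiplication operators). -/
theorem Site.TT_Pm (c : ℕ × Bs I ≃ ℕ) (e : I ↪ ℕ) (s : ℝ) {X : Fam Γ P}
    (hX : m1 c H.EP * X = X) :
    m1 c (H.TT w e s) * m1 c (H.TT w e s) * (m1 c (cst Pm) * X) = m1 c (cst Pm) * X := by
  have hPvPm : (Pv * Pm : BL (Bs I)) = 0 := by
    refine ContinuousLinearMap.ext fun ξ => ?_
    ext b
    have e1 : ((Pv * Pm : BL (Bs I)) ξ : Bs I → ℂ) b = (Pv (Pm ξ) : Bs I → ℂ) b := rfl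
    have e2 : ((0 : BL (Bs I)) ξ : Bs I → ℂ) b = 0 := rfl
    rw [e1, e2]
    unfold Pv
    rw [Eu_apply, Pm_apply]
    have e3 : Even (Bs.vac : Bs I).S.card := by
      have : (Bs.vac : Bs I).S = ∅ := rfl
      rw [this]
      exact ⟨0, rfl⟩
    rw [if_pos e3]
    split_ifs <;> rfl
  have hPm : (Pm : BL (Bs I)) = 1 - Pp := by
    rw [← Pp_add_Pm]
    abel
  have hEsPm : ∀ t : Set I, (Es t * Pm : BL (Bs I)) = Pm * Es t := by
    intro t
    rw [hPm, mul_sub, sub_mul, mul_one, one_mul, (Es_comm_Pp t).eq]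
  have key : H.TT w e s * H.TT w e s * cst Pm = cst Pm * H.EP := by
    unfold Site.TT
    rw [H.T_mul_T w e]
    refine FB.ext fun p => ?_
    rw [FB.mul_apply, FB.mul_apply, FB.mul_apply, FB.sub_apply, FB.one_apply, cst_apply,
      cst_apply, H.EP_apply, mul_assoc, hEsPm, ← mul_assoc, sub_mul, one_mul, hPvPm, sub_zero]
  calc m1 c (H.TT w e s) * m1 c (H.TT w e s) * (m1 c (cst Pm) * X)
      = m1 c (H.TT w e s * H.TT w e s * cst Pm) * X := by
        rw [m1_mul, m1_mul, mul_assoc, mul_assoc, mul_assoc]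
    _ = m1 c (cst Pm) * (m1 c H.EP * X) := by
        rw [key, m1_mul, mul_assoc]
    _ = m1 c (cst Pm) * X := by rw [hX]

end Pool.Agent.Lib.MP_aa9b81_an.Hs
end
end

section

/-!
# The machine, part C2: the commutators of a representation are compact
-/

open scoped ENNReal Topology ZeroAtInfty
open Function

noncomputable section

namespace Pool.Agent.Lib.MP_aa9b81_an.Mc

open Cut Hs

variable {Γ X P I : Type} [Group Γ] [TopologicalSpace X] [MulAction Γ X] [TopologicalSpace P]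
  [MulAction Γ P] [MulAction Γ I] [DecidableEq I] {c : ℕ × Bs I ≃ ℕ} {e : I ↪ ℕ}

omit [TopologicalSpace P] in
/-- PROOF: `FB.ext`, `SAct.Ad_apply`, `W_mul_Tc`, `SAct.W_mul_inv`. -/
theorem Ad_Tc (w : Wt Γ I) (g : Γ) (s : ℝ) :
    (sact e).Ad g (cst (Tc w e s) : FB (Bs I) P) = cst (Tg w e g s) := by
  refine FB.ext fun p => ?_
  rw [SAct.Ad_apply, cst_apply, cst_apply, W_mul_Tc, mul_assoc, SAct.W_mul_inv, mul_one]

/-- The identity for a generator. PROOF: `X = cov g i j n`, `τ = m1 (cst T)`, `T T = 1 - Pv` (`Tc_mul_Tc`, `Hs.cst_mul`).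
`X τ = cov g i j (n * cst Tg)` (`cov_mul_m1`, `Ad_Tc`), `τ X = cov g i j (cst T * n)` (`m1_mul_cov`),
`X τ τ = cov g i j (n * Ad g (cst (1 - Pv))) = X - cov g i j (n * cst Pv)` (`m1_mul`, `Ad_Pv`), so
`X - τ X τ = (X τ - τ X) τ + (X - X τ τ)`. -/
theorem cov_sub_T (w : Wt Γ I) (n : FB (Bs I) P) (g : Γ) (i j : ℕ) (s : ℝ) :
    cov c (sact e) g i j n - m1 c (cst (Tc w e s)) * cov c (sact e) g i j n *
        m1 c (cst (Tc w e s)) =
      cov c (sact e) g i j (n * cst (Tg w e g s) - cst (Tc w e s) * n) *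
        m1 c (cst (Tc w e s)) + cov c (sact e) g i j (n * cst Pv) := by
  have h1 : cov c (sact e) g i j n * m1 c (cst (Tc w e s)) =
      cov c (sact e) g i j (n * cst (Tg w e g s)) := by
    rw [cov_mul_m1, Ad_Tc]
  have h2 : (m1 c (cst (Tc w e s)) : Fam Γ P) * cov c (sact e) g i j n =
      cov c (sact e) g i j (cst (Tc w e s) * n) := m1_mul_cov c (sact e) g i j _ _
  have h3 : (m1 c (cst (Tc w e s)) : Fam Γ P) * m1 c (cst (Tc w e s)) = 1 - m1 c (cst Pv) := by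
    have h4 : (cst (Tc w e s) : FB (Bs I) P) * cst (Tc w e s) = 1 - cst Pv := by
      rw [← cst_mul, Tc_mul_Tc]
      rfl
    have h5 : (m1 c (1 - cst Pv : FB (Bs I) P) : Fam Γ P) = m1 c 1 - m1 c (cst Pv) := by
      have h6 := m1_add (Γ := Γ) c (1 - cst Pv : FB (Bs I) P) (cst Pv)
      rw [sub_add_cancel] at h6
      rw [h6, add_sub_cancel_right]
    rw [← m1_mul, h4, h5, m1_one]
  have h7 : cov c (sact e) g i j n * m1 c (cst Pv) = cov c (sact e) g i j (n * cst Pv) := by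
    rw [cov_mul_m1, Ad_Pv]
  have h8 : cov c (sact e) g i j n * m1 c (cst (Tc w e s)) * m1 c (cst (Tc w e s)) =
      cov c (sact e) g i j n - cov c (sact e) g i j (n * cst Pv) := by
    rw [mul_assoc, h3, mul_sub, mul_one, h7]
  rw [cov_sub, ← h1, ← h2, sub_mul, h8]
  abel

variable [ContinuousConstSMul Γ X] [ContinuousConstSMul Γ P] [T2Space P]

end Pool.Agent.Lib.MP_aa9b81_an.Mc
end
end
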