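import Pool.Agent.Lib.MP_aa9b81_an.Mg.G022
import Pool.Agent.Lib.MP_aa9b81_an.Mg.G012

section

/-!
# The machine, part B2: multipliers which vanish at infinity
-/

open scoped ENNReal Topology
open Function

noncomputable section

namespace Pool.Agent.Lib.MP_aa9b81_an.Mc

open Cut Hs

variable {B P : Type} [Nonempty B] [TopologicalSpace P]

/-- PROOF: `k` is a limit of finite sums of multiples of `Eu a a'`, `‖n * cst k - n * cst k'‖ ≤ ‖n‖ ‖k - k'‖` and `KE` is a
closed submodule, so it is enough to treat `k = Eu a a'` (`Submodule.closure_induction`-like: `Kc` is a closure,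
`map_mem_closure`, `Submodule.span_induction`). `n_p Eu a a' = ∑_{b ∈ A} ker (n p) b a • Eu b a'` (`mul_Eu`, `col`), so
`n * cst (Eu a a') = ∑_{b ∈ A} ge (G_b) b a'` with `G_b` from `exists_entry`, and `Good (fun _ => univ)` is trivial. -/
theorem MZ.mul_mem {n : FB B P} (h : MZ n) {k : BL B} (hk : k ∈ Kc B) :
    n * cst k ∈ KE (fun _ : B => (Set.univ : Set P)) := by
  classical
  have hcst_add : ∀ x y : BL B, (cst (x + y) : FB B P) = cst x + cst y := fun x y =>
    FB.ext fun p => rfl
  have hcst_smul : ∀ (z : ℂ) (x : BL B), (cst (z • x) : FB B P) = z • cst x := fun z x =>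
    FB.ext fun p => rfl
  have hcst_sub : ∀ x y : BL B, (cst (x - y) : FB B P) = cst x - cst y := fun x y =>
    FB.ext fun p => rfl
  have hcst_norm : ∀ x : BL B, ‖(cst x : FB B P)‖ ≤ ‖x‖ := fun x =>
    (FB.norm_le_iff (norm_nonneg x)).2 fun p => le_rfl
  have hcont : Continuous fun x : BL B => n * (cst x : FB B P) := by
    refine (LipschitzWith.of_dist_le' (K := ‖n‖) fun x y => ?_).continuous
    rw [dist_eq_norm, dist_eq_norm, ← mul_sub, ← hcst_sub]
    exact (norm_mul_le _ _).trans (mul_le_mul_of_nonneg_left (hcst_norm _) (norm_nonneg n))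
  have h1 : ∀ x ∈ Submodule.span ℂ {X : BL B | ∃ b b', X = Eu b b'},
      n * (cst x : FB B P) ∈ Submodule.span ℂ
        {n : FB B P | ∃ b b' f, Good (fun _ : B => (Set.univ : Set P)) f b b' ∧
          n = ge f b b'} := by
    intro x hx
    induction hx using Submodule.span_induction with
    | mem x hx =>
      obtain ⟨a, a', rfl⟩ := hx
      obtain ⟨A, hA⟩ := h.col a
      choose G hG using fun b => h.exists_entry b a
      have h2 : n * (cst (Eu a a') : FB B P) = ∑ b ∈ A, ge (G b) b a' := by
        refine FB.ext fun p => ?_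
        have h3 : ∀ S : Finset B, (∑ b ∈ S, ge (G b) b a' : FB B P) p =
            ∑ b ∈ S, (ge (G b) b a' : FB B P) p := by
          intro S
          induction S using Finset.induction_on with
          | empty => simp
          | insert b S hb ih =>
            rw [Finset.sum_insert hb, Finset.sum_insert hb, FB.add_apply, ih]
        rw [h3, FB.mul_apply, cst_apply, mul_Eu (n p) a a' (A := A) (fun b hb => hA p b hb)]
        refine Finset.sum_congr rfl fun b _ => ?_
        rw [ge_apply, hG b p]
      rw [h2]
      exact Submodule.sum_mem _ fun b _ =>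
        Submodule.subset_span ⟨b, a', G b, fun _ _ => ⟨trivial, trivial⟩, rfl⟩
    | zero =>
      have h2 : (cst (0 : BL B) : FB B P) = 0 := FB.ext fun p => rfl
      rw [h2, mul_zero]
      exact Submodule.zero_mem _
    | add x y _ _ hx hy =>
      rw [hcst_add, mul_add]
      exact Submodule.add_mem _ hx hy
    | smul z x _ hx =>
      rw [hcst_smul, mul_smul_comm]
      exact Submodule.smul_mem _ z hx
  exact map_mem_closure (f := fun x : BL B => n * (cst x : FB B P)) hcont hk h1

end Pool.Agent.Lib.MP_aa9b81_an.Mc
end
end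

section

/-!
# The machine, part B2: multipliers which vanish at infinity
-/

open scoped ENNReal Topology
open Function

noncomputable section

namespace Pool.Agent.Lib.MP_aa9b81_an.Mc

open Cut Hs

variable {B P : Type} [Nonempty B] [TopologicalSpace P]

/-- PROOF: as `MZ.mul_mem`, with `Eu_mul`, `row`. -/
theorem MZ.mem_mul {n : FB B P} (h : MZ n) {k : BL B} (hk : k ∈ Kc B) :
    cst k * n ∈ KE (fun _ : B => (Set.univ : Set P)) := by
  have hc : Continuous fun k : BL B => (cst k : FB B P) := by
    refine LipschitzWith.continuous (K := 1) (LipschitzWith.of_dist_le_mul fun k k' => ?_)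
    rw [dist_eq_norm, dist_eq_norm, NNReal.coe_one, one_mul]
    refine (FB.norm_le_iff (norm_nonneg _)).2 fun y => ?_
    rw [FB.sub_apply, cst_apply, cst_apply]
  have hcont : Continuous fun k : BL B => (cst k : FB B P) * n := hc.mul continuous_const
  have hgen : ∀ a a' : B, (cst (Eu a a') : FB B P) * n ∈ KE (fun _ : B => (Set.univ : Set P)) := by
    intro a a'
    obtain ⟨A, hA⟩ := h.row a'
    have e : (cst (Eu a a') : FB B P) * n =
        ∑ b' ∈ A, ge (Classical.choose (h.exists_entry a' b')) a b' := by
      refine FB.ext fun p => ?_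
      let ev : FB B P →+ BL B := ⟨⟨fun x => x p, rfl⟩, fun _ _ => rfl⟩
      have h1 : (∑ b' ∈ A, ge (Classical.choose (h.exists_entry a' b')) a b' : FB B P) p =
          ∑ b' ∈ A, (ge (Classical.choose (h.exists_entry a' b')) a b') p := map_sum ev _ _
      rw [h1, FB.mul_apply, cst_apply, Eu_mul (n p) a a' (hA p)]
      refine Finset.sum_congr rfl fun b' _ => ?_
      rw [ge_apply, Classical.choose_spec (h.exists_entry a' b') p]
    rw [e]
    refine Submodule.sum_mem _ fun b' _ => ?_
    exact Submodule.le_topologicalClosure _ (Submodule.subset_span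
      ⟨a, b', _, fun _ _ => ⟨trivial, trivial⟩, rfl⟩)
  have hspan : ∀ k ∈ Submodule.span ℂ {X : BL B | ∃ b b', X = Eu b b'},
      (cst k : FB B P) * n ∈ KE (fun _ : B => (Set.univ : Set P)) := by
    intro k hk
    induction hk using Submodule.span_induction with
    | mem x hx =>
      obtain ⟨b, b', rfl⟩ := hx
      exact hgen b b'
    | zero =>
      have e : (cst (0 : BL B) : FB B P) * n = 0 := by
        refine FB.ext fun p => ?_
        rw [FB.mul_apply, cst_apply, zero_mul, FB.zero_apply]
      rw [e]
      exact Submodule.zero_mem _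
    | add x y _ _ hx hy =>
      have e : (cst (x + y) : FB B P) * n = cst x * n + cst y * n := by
        refine FB.ext fun p => ?_
        rw [FB.mul_apply, cst_apply, add_mul]
        rfl
      rw [e]
      exact Submodule.add_mem _ hx hy
    | smul z x _ hx =>
      have e : (cst (z • x) : FB B P) * n = z • (cst x * n) := by
        refine FB.ext fun p => ?_
        rw [FB.mul_apply, cst_apply, smul_mul_assoc]
        rfl
      rw [e]
      exact Submodule.smul_mem _ z hx
  have h2 := map_mem_closure hcont hk (t := (KE (fun _ : B => (Set.univ : Set P)) : Set (FB B P)))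
    hspan
  have h3 : IsClosed (KE (fun _ : B => (Set.univ : Set P)) : Set (FB B P)) := isClosed_closure
  rwa [h3.closure_eq] at h2

end Pool.Agent.Lib.MP_aa9b81_an.Mc
end
end
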