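import Pool.Agent.Lib.MP_aa9b81_an.Mg.G079
import Pool.Agent.Lib.MP_aa9b81_an.Mg.G004
import Pool.Agent.Lib.MP_aa9b81_an.Mg.G010
import Pool.Agent.Lib.MP_aa9b81_an.Mg.G012
import Pool.Agent.Lib.MP_aa9b81_an.Mg.G019
import Pool.Agent.Lib.MP_aa9b81_an.Mg.G009
import Pool.Agent.Lib.MP_aa9b81_an.Mg.G016
import Pool.Agent.Lib.MP_aa9b81_an.Mg.G025

section

/-!
# Hereditary shifts, part G4c: the representation on exact functions
-/

open scoped ENNReal Topology ZeroAtInfty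
open Function Filter Set

noncomputable section

namespace Pool.Agent.Lib.MP_aa9b81_an.Hs

open Cut

variable {Γ P I : Type} [Group Γ] [TopologicalSpace P] [MulAction Γ P] [MulAction Γ I]
  [DecidableEq I] (H : Site Γ P I) (w : Wt Γ I)

omit [Group Γ] [TopologicalSpace P] [MulAction Γ P] [MulAction Γ I] in
private theorem G4c_Sp_pi_eq (L : Finset I) :
    Sp L (Real.pi / 2) = dia fun b : Bs I =>
      (((if Disjoint L b.F then (1 : ℝ) else 0) : ℝ) : ℂ) := by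
  rw [Sp_pi_div_two]
  congr 1
  funext b
  split_ifs <;> simp

omit [Group Γ] [TopologicalSpace P] [MulAction Γ P] [MulAction Γ I] in
private theorem G4c_Sp_pi_apply (L : Finset I) (ξ : L2 (Bs I)) (b : Bs I) :
    (Sp L (Real.pi / 2) ξ : Bs I → ℂ) b = if Disjoint L b.F then (ξ : Bs I → ℂ) b else 0 := by
  rw [Sp_pi_div_two, dia_apply zero_le_one (fun b => by split_ifs <;> simp)]
  split_ifs <;> simp

omit [Group Γ] [TopologicalSpace P] [MulAction Γ P] [MulAction Γ I] in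
private theorem G4c_Sp_pi_comm_Cl (e : I ↪ ℕ) {a : Finset I → I → ℝ} {C : ℝ} (h : CB a C)
    (L : Finset I) : Cl e a * Sp L (Real.pi / 2) = Sp L (Real.pi / 2) * Cl e a := by
  have hφ : ∀ F : Finset I, |(fun F : Finset I => if Disjoint L F then (1 : ℝ) else 0) F| ≤ 1 := by
    intro F
    change |if Disjoint L F then (1 : ℝ) else 0| ≤ 1
    split_ifs <;> simp
  rw [G4c_Sp_pi_eq]
  exact (Cl_mul_dia e h hφ).trans (dia_mul_Cl e h hφ).symm

omit [Group Γ] [TopologicalSpace P] [MulAction Γ P] [MulAction Γ I] in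
private theorem G4c_Sp_pi_comm_Es (L : Finset I) (s : Set I) :
    Commute (Sp L (Real.pi / 2)) (Es s) := by
  classical
  refine ContinuousLinearMap.ext fun ξ => ?_
  ext b
  change (Sp L (Real.pi / 2) (Es s ξ) : Bs I → ℂ) b = (Es s (Sp L (Real.pi / 2) ξ) : Bs I → ℂ) b
  rw [G4c_Sp_pi_apply, Es_apply, Es_apply, G4c_Sp_pi_apply]
  split_ifs <;> rfl

/-- At `φ = π/2` the family commutes with `T`. PROOF: `Sp_pi_div_two`; a multiplication operator by a function of `F`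
commutes with the Clifford operators (`dia_mul_Cl`, `Cl_mul_dia`) and with `Es`. Also for the translated `T`. -/
theorem Site.T_mul_nf_pi (e : I ↪ ℕ) (f : C₀(P, ℂ)) (L : Finset I) {s : ℝ} (hs : 0 ≤ s) :
    H.T w e s hs * H.nf f L (Real.pi / 2) = H.nf f L (Real.pi / 2) * H.T w e s hs := by
  refine FB.ext fun p => ?_
  rw [FB.mul_apply, FB.mul_apply, H.T_apply, H.nf_apply, mul_smul_comm, smul_mul_assoc]
  congr 1
  have h1 := G4c_Sp_pi_comm_Cl e (H.CB_uu w hs p) L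
  have h2 := (G4c_Sp_pi_comm_Es L (H.supp p)).eq
  have h3 := (Es_comm_Cl e (H.supp p) (H.CB_uu w hs p)).eq
  have h4 := Es_mul_Es (I := I) (H.supp p)
  calc Cl e (H.uu w s p) * Es (H.supp p) * (Sp L (Real.pi / 2) * Es (H.supp p))
      = Cl e (H.uu w s p) * (Es (H.supp p) * Sp L (Real.pi / 2)) * Es (H.supp p) := by
        noncomm_ring
    _ = Cl e (H.uu w s p) * Sp L (Real.pi / 2) * (Es (H.supp p) * Es (H.supp p)) := by
        rw [← h2]
        noncomm_ring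
    _ = Sp L (Real.pi / 2) * Cl e (H.uu w s p) * (Es (H.supp p) * Es (H.supp p)) := by
        rw [h1]
    _ = Sp L (Real.pi / 2) * (Cl e (H.uu w s p) * Es (H.supp p)) * Es (H.supp p) := by
        noncomm_ring
    _ = Sp L (Real.pi / 2) * (Es (H.supp p) * Cl e (H.uu w s p)) * Es (H.supp p) := by
        rw [h3]
    _ = Sp L (Real.pi / 2) * Es (H.supp p) * (Cl e (H.uu w s p) * Es (H.supp p)) := by
        noncomm_ring

/-- PROOF: `Sp_pi_div_two`; `vac.F = ∅`: `[L ∩ ∅ = ∅] = 1`; `Pv_mul_Es`; coordinates or `Pv_eq`. -/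
theorem Site.nf_pi_mul_Pv (f : C₀(P, ℂ)) (L : Finset I) :
    H.nf f L (Real.pi / 2) * cst Pv = ge f Bs.vac Bs.vac := by
  classical
  refine FB.ext fun p => ?_
  rw [FB.mul_apply, H.nf_apply, cst_apply, ge_apply, smul_mul_assoc]
  congr 1
  refine ContinuousLinearMap.ext fun ξ => ?_
  ext b
  change (Sp L (Real.pi / 2) (Es (H.supp p) (Pv ξ)) : Bs I → ℂ) b = (Eu Bs.vac Bs.vac ξ : Bs I → ℂ) b
  rw [G4c_Sp_pi_apply, Es_apply, Pv, Eu_apply]
  by_cases hb : b = Bs.vac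
  · subst hb
    have h1 : Disjoint L (Bs.vac : Bs I).F := by
      change Disjoint L ∅
      exact Finset.disjoint_empty_right L
    have h2 : (((Bs.vac : Bs I).F : Finset I) : Set I) ⊆ H.supp p := by
      change ((∅ : Finset I) : Set I) ⊆ H.supp p
      simp
    rw [if_pos h1, if_pos h2, if_pos rfl]
  · rw [if_neg hb]
    split_ifs <;> rfl

/-- PROOF: `cov_ge`; `g⁻¹ • vac = vac`, `ep e g ∅ = 1`. -/
theorem cov_ge_vac (c : ℕ × Bs I ≃ ℕ) (e : I ↪ ℕ) (f : C₀(P, ℂ)) (g : Γ) (i j : ℕ) :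
    cov c (sact e) g i j (ge f Bs.vac Bs.vac) =
      (gen f g (c (i, Bs.vac)) (c (j, Bs.vac)) : Fam Γ P) := by
  have h1 : g⁻¹ • (Bs.vac : Bs I) = Bs.vac := by
    refine Bs.ext ?_ ?_
    · change gF g⁻¹ (∅ : Finset I) = ∅
      exact Finset.map_empty _
    · change gF g⁻¹ (∅ : Finset I) = ∅
      exact Finset.map_empty _
  have h2 : ep e g (Bs.vac : Bs I).S = 1 := by
    change ep e g (∅ : Finset I) = 1
    rw [ep, Finset.prod_empty]
  rw [cov_ge, h1, sact_ε, h2, one_smul]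

end Pool.Agent.Lib.MP_aa9b81_an.Hs
end
end

section

/-!
# Hereditary shifts, part G4: the representation on exact functions
-/

open scoped ENNReal Topology ZeroAtInfty
open Function Filter Set

noncomputable section

namespace Pool.Agent.Lib.MP_aa9b81_an.Hs

open Cut

variable {Γ P I : Type} [Group Γ] [TopologicalSpace P] [MulAction Γ P] [MulAction Γ I]
  [DecidableEq I] (H : Site Γ P I) (w : Wt Γ I)

/-- The case `s = 0`, `φ = π/2`. PROOF: `X = cov g i j n`, `n = nf f L (π/2)`. `T X T = cov (T n T^g) = cov (n T T)`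
(`Tg_zero`, `T_mul_nf_pi`) `= cov (n (1 - cst Pv) EP) = X - cov (n cst Pv)` (`T_mul_T`, `nf_mul_EP`, `Pv_mul_Es`), and
`n cst Pv = ge f vac vac` (`nf_pi_mul_Pv`). -/
theorem Site.sub_T_cov_T_zero (c : ℕ × Bs I ≃ ℕ) (e : I ↪ ℕ) (f : C₀(P, ℂ)) (L : Finset I)
    (g : Γ) (i j : ℕ) :
    cov c (sact e) g i j (H.nf f L (Real.pi / 2)) - m1 c (H.TT w e 0) *
        cov c (sact e) g i j (H.nf f L (Real.pi / 2)) * m1 c (H.TT w e 0) =
      gen f g (c (i, Bs.vac)) (c (j, Bs.vac)) := by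
  have h0 : H.TT w e 0 = H.T w e 0 le_rfl := H.TT_eq w e le_rfl
  have hPE : (cst Pv : FB (Bs I) P) * H.EP = cst Pv := by
    refine FB.ext fun p => ?_
    rw [FB.mul_apply, cst_apply, H.EP_apply, Pv_mul_Es]
  have h1 : H.T w e 0 le_rfl * H.nf f L (Real.pi / 2) * H.T w e 0 le_rfl =
      H.nf f L (Real.pi / 2) - H.nf f L (Real.pi / 2) * cst Pv := by
    rw [H.T_mul_nf_pi w e f L le_rfl, mul_assoc, H.T_mul_T w e 0 le_rfl, sub_mul, one_mul, hPE,
      mul_sub, H.nf_mul_EP]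
  rw [h0, m1_mul_cov, cov_mul_m1, H.Ad_T w e g 0 le_rfl, H.Tg_zero w e g le_rfl, h1, cov_sub,
    sub_sub_cancel, H.nf_pi_mul_Pv, cov_ge_vac]

/-- PROOF: `main_mem` for `0 < s`, `sub_T_cov_T_zero` for `s = 0` (`cov_ge_vac`, `ge_vac_mem_KE`,
`cov_mem_AE`). -/
theorem Site.sub_T_cov_T_pi_mem [T2Space P] [ContinuousConstSMul Γ P] (c : ℕ × Bs I ≃ ℕ)
    (e : I ↪ ℕ) {f : C₀(P, ℂ)} {L : Finset I} {δ : ℝ} (h : H.Ex L δ f) (g : Γ) (i j : ℕ) {s : ℝ}
    (hs : 0 ≤ s) (hs1 : s ≤ 1) :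
    cov c (sact e) g i j (H.nf f L (Real.pi / 2)) - m1 c (H.TT w e s) *
        cov c (sact e) g i j (H.nf f L (Real.pi / 2)) * m1 c (H.TT w e s) ∈
      AE c (sact e) H.U := by
  rcases hs.eq_or_lt with h0 | h0
  · rw [← h0, H.sub_T_cov_T_zero w c e f L g i j, ← cov_ge_vac c e f g i j]
    exact cov_mem_AE c (sact e) H.U g i j (H.ge_vac_mem_KE f)
  · rw [H.TT_eq w e hs]
    exact H.main_mem w c e h (Real.pi / 2) g i j h0 hs1

end Pool.Agent.Lib.MP_aa9b81_an.Hs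
end
end

section

/-!
# Rotated sites, part N5a: row and column finite operators
-/

open scoped ENNReal Topology ZeroAtInfty
open Function Filter Set

noncomputable section

set_option linter.unusedSectionVars false

namespace Pool.Agent.Lib.MP_aa9b81_an.Rc

open Cut Hs

variable {Γ C Y A : Type} [Group Γ] [MulAction Γ C] [DecidableEq C]

/-- The rows and the columns of `X` are finite. -/
structure FinM (X : BL (Bs C)) : Prop where
  row : ∀ b, ∃ A : Finset (Bs C), ∀ b' ∉ A, ker X b b' = 0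
  col : ∀ b', ∃ A : Finset (Bs C), ∀ b ∉ A, ker X b b' = 0

theorem N5a_bv_apply {B : Type} (b b' : B) [Decidable (b = b')] :
    ((bv b' : L2 B) : B → ℂ) b = if b = b' then 1 else 0 := by
  classical
  by_cases h : b = b'
  · subst h
    rw [if_pos rfl, bv]
    simp
  · rw [if_neg h, bv]
    simp [h]

theorem N5a_col {B : Type} (X Y : BL B) (b b' : B) {A : Finset B}
    (h : ∀ a ∉ A, ker Y a b' = 0) : ker (X * Y) b b' = ∑ a ∈ A, ker Y a b' * ker X b a := by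
  classical
  have h1 : Y (bv b') = ∑ a ∈ A, ker Y a b' • (bv a : L2 B) := by
    ext q
    rw [lp.coeFn_sum, Finset.sum_apply]
    have h2 : ∀ a ∈ A, (((ker Y a b' • (bv a : L2 B) : L2 B)) : B → ℂ) q =
        if q = a then ker Y q b' else 0 := by
      intro a _
      rw [lp.coeFn_smul, Pi.smul_apply, N5a_bv_apply, smul_eq_mul]
      split_ifs with hq
      · rw [hq, mul_one]
      · rw [mul_zero]
    rw [Finset.sum_congr rfl h2, Finset.sum_ite_eq]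
    split_ifs with hq
    · rfl
    · exact h q hq
  change (X (Y (bv b')) : B → ℂ) b = _
  rw [h1, map_sum, lp.coeFn_sum, Finset.sum_apply]
  refine Finset.sum_congr rfl fun a _ => ?_
  rw [map_smul, lp.coeFn_smul, Pi.smul_apply, smul_eq_mul]
  rfl

/-- PROOF: the row `b` of `X Y` is a finite combination of rows of `Y` (`apply_eq_sum_ker`); the column `b'`: `Y bv_{b'}` has finite support,
`Y bv_{b'} = ∑ ker Y a b' bv_a`. -/
theorem FinM.mul {X Y : BL (Bs C)} (hX : FinM X) (hY : FinM Y) : FinM (X * Y) := by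
  classical
  refine ⟨fun b => ?_, fun b' => ?_⟩
  · obtain ⟨A, hA⟩ := hX.row b
    choose R hR using hY.row
    refine ⟨A.biUnion R, fun b' hb' => ?_⟩
    have h1 : ker (X * Y) b b' = ∑ a ∈ A, ker X b a * (Y (bv b') : Bs C → ℂ) a :=
      apply_eq_sum_ker X b hA (Y (bv b'))
    rw [h1]
    refine Finset.sum_eq_zero fun a ha => ?_
    have h2 : ker Y a b' = 0 := hR a b' fun h => hb' (Finset.mem_biUnion.2 ⟨a, ha, h⟩)
    have h3 : (Y (bv b') : Bs C → ℂ) a = 0 := h2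
    rw [h3, mul_zero]
  · obtain ⟨A, hA⟩ := hY.col b'
    choose R hR using hX.col
    refine ⟨A.biUnion R, fun b hb => ?_⟩
    rw [N5a_col X Y b b' hA]
    refine Finset.sum_eq_zero fun a ha => ?_
    rw [hR a b fun h => hb (Finset.mem_biUnion.2 ⟨a, ha, h⟩), mul_zero]

theorem FinM.add {X Y : BL (Bs C)} (hX : FinM X) (hY : FinM Y) : FinM (X + Y) := by
  classical
  have h1 : ∀ b b', ker (X + Y) b b' = ker X b b' + ker Y b b' := fun _ _ => rfl
  refine ⟨fun b => ?_, fun b' => ?_⟩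
  · obtain ⟨A, hA⟩ := hX.row b
    obtain ⟨A', hA'⟩ := hY.row b
    refine ⟨A ∪ A', fun b' hb' => ?_⟩
    rw [Finset.mem_union, not_or] at hb'
    rw [h1, hA b' hb'.1, hA' b' hb'.2, add_zero]
  · obtain ⟨A, hA⟩ := hX.col b'
    obtain ⟨A', hA'⟩ := hY.col b'
    refine ⟨A ∪ A', fun b hb => ?_⟩
    rw [Finset.mem_union, not_or] at hb
    rw [h1, hA b hb.1, hA' b hb.2, add_zero]

theorem FinM.sub {X Y : BL (Bs C)} (hX : FinM X) (hY : FinM Y) : FinM (X - Y) := by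
  classical
  have h1 : ∀ b b', ker (X - Y) b b' = ker X b b' - ker Y b b' := fun _ _ => rfl
  refine ⟨fun b => ?_, fun b' => ?_⟩
  · obtain ⟨A, hA⟩ := hX.row b
    obtain ⟨A', hA'⟩ := hY.row b
    refine ⟨A ∪ A', fun b' hb' => ?_⟩
    rw [Finset.mem_union, not_or] at hb'
    rw [h1, hA b' hb'.1, hA' b' hb'.2, sub_zero]
  · obtain ⟨A, hA⟩ := hX.col b'
    obtain ⟨A', hA'⟩ := hY.col b'
    refine ⟨A ∪ A', fun b hb => ?_⟩
    rw [Finset.mem_union, not_or] at hb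
    rw [h1, hA b hb.1, hA' b hb.2, sub_zero]

theorem FinM.smul {X : BL (Bs C)} (z : ℂ) (hX : FinM X) : FinM (z • X) := by
  have h1 : ∀ b b', ker (z • X) b b' = z * ker X b b' := fun _ _ => rfl
  refine ⟨fun b => ?_, fun b' => ?_⟩
  · obtain ⟨A, hA⟩ := hX.row b
    exact ⟨A, fun b' hb' => by rw [h1, hA b' hb', mul_zero]⟩
  · obtain ⟨A, hA⟩ := hX.col b'
    exact ⟨A, fun b hb => by rw [h1, hA b hb, mul_zero]⟩

/-- PROOF: the entries of a multiplication operator off the diagonal vanish. -/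
theorem FinM.dia {k : Bs C → ℂ} {M : ℝ} (hM : 0 ≤ M) (hk : ∀ b, ‖k b‖ ≤ M) : FinM (dia k) := by
  classical
  have h1 : ∀ b b', b ≠ b' → ker (Hs.dia k) b b' = 0 := by
    intro b b' h
    rw [Hs.ker, dia_apply hM hk, N5a_bv_apply, if_neg h, mul_zero]
  refine ⟨fun b => ⟨{b}, fun b' hb' => h1 b b' fun h => hb' ?_⟩,
    fun b' => ⟨{b'}, fun b hb => h1 b b' fun h => hb ?_⟩⟩
  · rw [h]
    exact Finset.mem_singleton_self _
  · rw [h]
    exact Finset.mem_singleton_self _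

/-- PROOF: `ker_Cl`. -/
theorem FinM.Cl (e : C ↪ ℕ) {a : Finset C → C → ℝ} {M : ℝ} (h : CB a M) :
    FinM (Cl e a : BL (Bs C)) := by
  classical
  refine ⟨fun b => ⟨b.F.image fun i => tog i b, fun b' hb' => ?_⟩,
    fun b' => ⟨b'.F.image fun i => tog i b', fun b hb => ?_⟩⟩
  · rw [ker_Cl e h]
    refine Finset.sum_eq_zero fun i hi => ?_
    have h1 : b' ≠ tog i b := fun h2 => hb' (Finset.mem_image.2 ⟨i, hi, h2.symm⟩)
    rw [if_neg h1, mul_zero, mul_zero]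
  · rw [ker_Cl e h]
    refine Finset.sum_eq_zero fun i hi => ?_
    have h1 : b' ≠ tog i b := by
      intro h2
      have h3 := tog_of_mem hi
      have h4 : b'.F = b.F := by rw [h2, h3.1]
      have h5 : i ∈ b'.F := by rw [h4]; exact hi
      have h6 := tog_of_mem h5
      refine hb (Finset.mem_image.2 ⟨i, h5, Bs.ext (h6.1.trans h4) ?_⟩)
      rw [h6.2, h2, h3.2, tg_tg]
    rw [if_neg h1, mul_zero, mul_zero]

/-- PROOF: `FinM.dia`, `Pv_eq`. -/
theorem FinM.Pv : FinM (Pv : BL (Bs C)) := by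
  rw [Pv_eq]
  exact FinM.dia zero_le_one fun b => by split_ifs <;> simp

variable [TopologicalSpace Y] [MulAction Γ Y]

omit [Group Γ] [MulAction Γ C] [MulAction Γ Y] [DecidableEq C] in
/-- PROOF: the entries of `y ↦ h(y) X` are `h(y) ker X b b'`, continuous; `U1` is everything. -/
theorem FinM.mlt {X : BL (Bs C)} (hX : FinM X) (h : C₀(Y, ℂ)) :
    Mlt (U1 C Y) (sx h X : FB (Bs C) Y) := by
  have h1 : ∀ y b b', ker ((sx h X : FB (Bs C) Y) y) b b' = h y * ker X b b' := fun _ _ _ => rfl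
  refine ⟨fun b => ?_, fun b' => ?_, fun b b' => ?_, fun b b' => ?_, fun b b' p _ => ?_⟩
  · obtain ⟨A, hA⟩ := hX.row b
    exact ⟨A, fun y b' hb' => by rw [h1, hA b' hb', mul_zero]⟩
  · obtain ⟨A, hA⟩ := hX.col b'
    exact ⟨A, fun y b hb => by rw [h1, hA b hb, mul_zero]⟩
  · simp only [h1]
    exact (h.continuous.mul continuous_const).continuousOn
  · simp only [h1]
    exact (h.continuous.mul continuous_const).continuousOn
  · exact Iff.rfl

omit [Group Γ] [MulAction Γ C] [MulAction Γ Y] [DecidableEq C] in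
theorem FinM.mlt_cst {X : BL (Bs C)} (hX : FinM X) : Mlt (U1 C Y) (cst X : FB (Bs C) Y) := by
  have h1 : ∀ y b b', ker ((cst X : FB (Bs C) Y) y) b b' = ker X b b' := fun _ _ _ => rfl
  refine ⟨fun b => ?_, fun b' => ?_, fun b b' => ?_, fun b b' => ?_, fun b b' p _ => ?_⟩
  · obtain ⟨A, hA⟩ := hX.row b
    exact ⟨A, fun y b' hb' => by rw [h1, hA b' hb']⟩
  · obtain ⟨A, hA⟩ := hX.col b'
    exact ⟨A, fun y b hb => by rw [h1, hA b hb]⟩
  · simp only [h1]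
    exact continuousOn_const
  · simp only [h1]
    exact continuousOn_const
  · exact Iff.rfl

omit [Group Γ] [MulAction Γ C] [MulAction Γ Y] [DecidableEq C] in
theorem sx_mul (h : C₀(Y, ℂ)) (X X' : BL (Bs C)) :
    (sx h (X * X') : FB (Bs C) Y) = sx h X * cst X' := by
  refine FB.ext fun y => ?_
  rw [FB.mul_apply, sx_apply, sx_apply, cst_apply, smul_mul_assoc]

omit [Group Γ] [MulAction Γ C] [MulAction Γ Y] [DecidableEq C] in
theorem sx_mul' (h : C₀(Y, ℂ)) (X X' : BL (Bs C)) :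
    (sx h (X * X') : FB (Bs C) Y) = cst X * sx h X' := by
  refine FB.ext fun y => ?_
  rw [FB.mul_apply, sx_apply, sx_apply, cst_apply, mul_smul_comm]

omit [Group Γ] [MulAction Γ C] [MulAction Γ Y] [DecidableEq C] in
theorem sx_add (h : C₀(Y, ℂ)) (X X' : BL (Bs C)) :
    (sx h (X + X') : FB (Bs C) Y) = sx h X + sx h X' := by
  refine FB.ext fun y => ?_
  rw [FB.add_apply, sx_apply, sx_apply, sx_apply, smul_add]

omit [Group Γ] [MulAction Γ C] [MulAction Γ Y] [DecidableEq C] in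
theorem sx_sub (h : C₀(Y, ℂ)) (X X' : BL (Bs C)) :
    (sx h (X - X') : FB (Bs C) Y) = sx h X - sx h X' := by
  refine FB.ext fun y => ?_
  rw [FB.sub_apply, sx_apply, sx_apply, sx_apply, smul_sub]

omit [Group Γ] [MulAction Γ C] [MulAction Γ Y] [DecidableEq C] in
theorem norm_cst_le (X : BL (Bs C)) : ‖(cst X : FB (Bs C) Y)‖ ≤ ‖X‖ := by
  rw [FB.norm_le_iff (norm_nonneg X)]
  intro y
  rw [cst_apply]

omit [Group Γ] [MulAction Γ C] [MulAction Γ Y] [DecidableEq C] in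
theorem N5a_sum (s : Finset (Bs C)) (k : Bs C → ℂ) (h : C₀(Y, ℂ)) (y : Y) :
    (∑ b' ∈ s, k b' • ge h Bs.vac b' : FB (Bs C) Y) y =
      ∑ b' ∈ s, k b' • (h y • (Eu Bs.vac b' : BL (Bs C))) := by
  induction s using Finset.cons_induction with
  | empty => rfl
  | cons a s ha ih =>
    rw [Finset.sum_cons, Finset.sum_cons, FB.add_apply, FB.smul_apply, ge_apply, ih]

omit [Group Γ] [MulAction Γ C] [MulAction Γ Y] [DecidableEq C] in
/-- PROOF: `Pv * X = ∑_{b'} ker X vac b' E_{vac,b'}` (`Eu_mul`), a finite sum: generators `ge`. -/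
theorem sx_Pv_mul_mem {X : BL (Bs C)} (hX : FinM X) (h : C₀(Y, ℂ)) :
    (sx h (Hs.Pv * X) : FB (Bs C) Y) ∈ KE (U1 C Y) := by
  obtain ⟨A, hA⟩ := hX.row Bs.vac
  have h1 : (sx h (Hs.Pv * X) : FB (Bs C) Y) =
      ∑ b' ∈ A, ker X Bs.vac b' • ge h Bs.vac b' := by
    refine FB.ext fun y => ?_
    rw [N5a_sum, sx_apply, Hs.Pv, Eu_mul X _ _ hA, Finset.smul_sum]
    refine Finset.sum_congr rfl fun b' _ => ?_
    rw [smul_comm]
  rw [h1]
  refine Submodule.sum_mem _ fun b' _ => Submodule.smul_mem _ _ ?_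
  refine Submodule.le_topologicalClosure _ (Submodule.subset_span ?_)
  exact ⟨Bs.vac, b', h, fun _ _ => ⟨mem_univ _, mem_univ _⟩, rfl⟩

end Pool.Agent.Lib.MP_aa9b81_an.Rc
end
end

section

/-!
# The machine, part C1: representations
-/

open scoped ENNReal Topology ZeroAtInfty
open Function

noncomputable section

namespace Pool.Agent.Lib.MP_aa9b81_an.Mc

open Cut Hs

variable {Γ X P I : Type} [Group Γ] [TopologicalSpace X] [MulAction Γ X] [TopologicalSpace P]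
  [MulAction Γ P] [MulAction Γ I] [DecidableEq I] {c : ℕ × Bs I ≃ ℕ} {e : I ↪ ℕ}

/-- PROOF: `uh_mem`, `uh_sdiff`. -/
theorem Uns_tch (w : Wt Γ I) (L : Finset I) (s : ℝ) : Uns L (tch w L s) where
  zero F _ hi := (H1 Γ I).uh_mem w PUnit.unit F hi
  sdiff F j := (H1 Γ I).uh_sdiff w L |s| PUnit.unit F j

/-- THE COMMUTATOR. PROOF: with `L` from `loc`, `n = ρ.n f`, `Th = Th w e L s`: `n` commutes with `cst Th` (`CB_tch`,
`Uns_tch`), so `n Tg - T n = n (Tg - T) + n (T - Th) - (T - Th) n`, in `KE` by `MZ.mul_mem`, `MZ.mem_mul`,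
`Tg_sub_Tc_mem`, `Tc_sub_Th_mem`. -/
theorem Rp.comm_mem (ρ : Rp Γ X P I c e) (w : Wt Γ I) {f : C₀(X, ℂ)} (hf : f ∈ ρ.dom) (g : Γ)
    {s : ℝ} (hs : s ≠ 0) (hs1 : |s| ≤ 1) :
    ρ.n f * cst (Tg w e g s) - cst (Tc w e s) * ρ.n f ∈ KE (fun _ : Bs I => (Set.univ : Set P)) := by
  obtain ⟨L, hL⟩ := ρ.loc f hf
  have hc : ρ.n f * cst (Th w e L s) = cst (Th w e L s) * ρ.n f :=
    hL (tch w L s) 1 (CB_tch w L s) (Uns_tch w L s)
  have hsub : ∀ Y Z : BL (Bs I), (cst (Y - Z) : FB (Bs I) P) = cst Y - cst Z := fun Y Z =>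
    FB.ext fun p => rfl
  have e1 : ρ.n f * cst (Tg w e g s) - cst (Tc w e s) * ρ.n f =
      ρ.n f * cst (Tg w e g s - Tc w e s) + ρ.n f * cst (Tc w e s - Th w e L s) -
        cst (Tc w e s - Th w e L s) * ρ.n f := by
    rw [hsub, hsub, mul_sub, mul_sub, sub_mul, hc]
    abel
  rw [e1]
  exact sub_mem (add_mem ((ρ.mz f hf).mul_mem (Tg_sub_Tc_mem w e g hs1))
    ((ρ.mz f hf).mul_mem (Tc_sub_Th_mem w e L hs hs1)))
    ((ρ.mz f hf).mem_mul (Tc_sub_Th_mem w e L hs hs1))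

theorem Rp.cpt (ρ : Rp Γ X P I c e) (w : Wt Γ I) {s : ℝ} (hs : s ≠ 0) (hs1 : |s| ≤ 1) :
    ρ.Cpt w s := fun _ hf g => ρ.comm_mem w hf g hs hs1

theorem Rp.cpt1 (ρ : Rp Γ X P I c e) (w : Wt Γ I) : ρ.Cpt w 1 :=
  ρ.cpt w one_ne_zero (by simp)

/-- PROOF: `Pv = Eu vac vac ∈ Kc` (the definition of `Pv`), `MZ.mul_mem`. -/
theorem Rp0.mul_Pv_mem (ρ : Rp0 Γ X P I c e) {f : C₀(X, ℂ)} (hf : f ∈ ρ.dom) :
    ρ.n f * cst Pv ∈ KE (fun _ : Bs I => (Set.univ : Set P)) := by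
  refine (ρ.mz f hf).mul_mem ?_
  exact Submodule.le_topologicalClosure _ (Submodule.subset_span ⟨Bs.vac, Bs.vac, rfl⟩)

end Pool.Agent.Lib.MP_aa9b81_an.Mc
end
end

section

/-!
# The machine, part C2: the commutators of a representation are compact
-/

open scoped ENNReal Topology ZeroAtInfty
open Function

noncomputable section

namespace Pool.Agent.Lib.MP_aa9b81_an.Mc

open Cut Hs

variable {Γ X P I : Type} [Group Γ] [TopologicalSpace X] [MulAction Γ X] [TopologicalSpace P]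
  [MulAction Γ P] [MulAction Γ I] [DecidableEq I] {c : ℕ × Bs I ≃ ℕ} {e : I ↪ ℕ}

variable [ContinuousConstSMul Γ X] [ContinuousConstSMul Γ P] [T2Space P]

private lemma C2b_closure {Γ X P I : Type} [Group Γ] [TopologicalSpace X] [MulAction Γ X]
    [TopologicalSpace P] [MulAction Γ P] [MulAction Γ I] [DecidableEq I] {c : ℕ × Bs I ≃ ℕ}
    {e : I ↪ ℕ} (ρ : Rp0 Γ X P I c e) (τ : Fam Γ P) (hτ : ‖τ‖ ≤ 1) (a b : cp Γ X) :
    ‖(ρ.Θ a - τ * ρ.Θ a * τ) - (ρ.Θ b - τ * ρ.Θ b * τ)‖ ≤ 2 * ‖(a : Fam Γ X) - b‖ := by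
  have h1 : (ρ.Θ a - τ * ρ.Θ a * τ) - (ρ.Θ b - τ * ρ.Θ b * τ) =
      (ρ.Θ a - ρ.Θ b) - τ * (ρ.Θ a - ρ.Θ b) * τ := by
    rw [mul_sub, sub_mul]
    abel
  have h2 := ρ.sub_le a b
  have h3 := norm_nonneg (ρ.Θ a - ρ.Θ b)
  have h4 : ‖τ * (ρ.Θ a - ρ.Θ b) * τ‖ ≤ ‖ρ.Θ a - ρ.Θ b‖ := by
    calc ‖τ * (ρ.Θ a - ρ.Θ b) * τ‖ ≤ ‖τ * (ρ.Θ a - ρ.Θ b)‖ * ‖τ‖ := norm_mul_le _ _
      _ ≤ (‖τ‖ * ‖ρ.Θ a - ρ.Θ b‖) * ‖τ‖ :=
          mul_le_mul_of_nonneg_right (norm_mul_le _ _) (norm_nonneg _)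
      _ ≤ (1 * ‖ρ.Θ a - ρ.Θ b‖) * 1 :=
          mul_le_mul (mul_le_mul_of_nonneg_right hτ h3) hτ (norm_nonneg _) (by positivity)
      _ = ‖ρ.Θ a - ρ.Θ b‖ := by ring
  rw [h1]
  refine (norm_sub_le _ _).trans ?_
  linarith

/-- PROOF: `Rp.ind ρ.dense`. Generators: `ρ.onGen`, `cov_sub_T`, `hc`, `Rp0.mul_Pv_mem`, `cov_mem_cp`,
`isMul_m1_cp`, `Mlt_Cl`. Sums: `add_mem`. Limits: `Cut.isClosed_cp`, and
`‖(Y - τ Y τ) - (Y' - τ Y' τ)‖ ≤ 2 ‖Y - Y'‖` (`norm_m1_le`, `‖cst T‖ ≤ 1`, `Rp0.sub_le`). -/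
theorem Rp0.main (ρ : Rp0 Γ X P I c e) (w : Wt Γ I) {s : ℝ} (hc : ρ.Cpt w s)
    (a : cp Γ X) : ρ.Θ a - m1 c (cst (Tc w e s)) * ρ.Θ a * m1 c (cst (Tc w e s)) ∈ cp Γ P := by
  obtain ⟨τ, hτ⟩ : ∃ τ : Fam Γ P, τ = m1 c (cst (Tc w e s)) := ⟨_, rfl⟩
  rw [← hτ]
  have hτn : ‖τ‖ ≤ 1 := by
    rw [hτ]
    refine (norm_m1_le c _).trans ((FB.norm_le_iff zero_le_one).2 fun p => ?_)
    rw [cst_apply]
    exact norm_Tc_le w e s
  have hmul : IsMul (cp Γ P) τ := by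
    rw [hτ]
    exact isMul_m1_cp c (sact e) (Mlt_Cl e (CB_tc w s))
  revert a
  refine Rp.ind ρ.dense ?_ ?_ ?_ ?_
  · intro f hf g i j hm
    rw [ρ.onGen f hf g i j hm, hτ, cov_sub_T, ← hτ]
    refine add_mem ?_ ?_
    · exact (hmul _ (cov_mem_cp c (sact e) g i j (hc f hf g))).2
    · exact cov_mem_cp c (sact e) g i j (ρ.mul_Pv_mem hf)
  · rw [map_zero, mul_zero, zero_mul, sub_zero]
    exact zero_mem _
  · intro a b ha hb
    have h1 : ρ.Θ (a + b) - τ * ρ.Θ (a + b) * τ =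
        (ρ.Θ a - τ * ρ.Θ a * τ) + (ρ.Θ b - τ * ρ.Θ b * τ) := by
      rw [map_add, mul_add, add_mul]
      abel
    rw [h1]
    exact add_mem ha hb
  · intro a ha
    have h1 : ρ.Θ a - τ * ρ.Θ a * τ ∈ closure (cp Γ P : Set (Fam Γ P)) := by
      rw [Metric.mem_closure_iff]
      intro ε hε
      obtain ⟨b, hb, hab⟩ := ha (ε / 3) (by positivity)
      refine ⟨_, hb, ?_⟩
      rw [dist_eq_norm]
      have h2 := C2b_closure ρ τ hτn a b
      linarith
    rw [isClosed_cp.closure_eq] at h1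
    exact h1

end Pool.Agent.Lib.MP_aa9b81_an.Mc
end
end

section

/-!
# The machine, part F2: the strong limit of a system
-/

open scoped ENNReal Topology ZeroAtInfty
open Function

noncomputable section

namespace Pool.Agent.Lib.MP_aa9b81_an.Mc

open Cut Hs

variable {Γ X P I : Type} [Group Γ] [TopologicalSpace X] [MulAction Γ X] [MulAction Γ P]
  [MulAction Γ I] [DecidableEq I] {e : I ↪ ℕ} (σ : Sys Γ X P I e) [ContinuousConstSMul Γ X]

/-- THE STRONG LIMIT. PROOF: `Θ a` = the limit of `exists_SL` (`choose`). Additive, multiplicative: `SL.unique` with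
`SL.add`, `SL.mul` (`norm_st_le`), `st_add`, `st_mul`; `Θ 0 = 0` from additivity. Norm: `SL.norm_le`. Generators:
`SL.unique`, `SL_st_gen`. Compare `Hs.thV`, `Hs.th'`. -/
theorem Sys.exists_rep (c : ℕ × Bs I ≃ ℕ) {dom : Set C₀(X, ℂ)}
    (dense : ∀ (f : C₀(X, ℂ)) (ε : ℝ), 0 < ε →
      ∃ l : List C₀(X, ℂ), (∀ f' ∈ l, f' ∈ dom) ∧ ‖f - l.sum‖ ≤ ε)
    {n : C₀(X, ℂ) → FB (Bs I) P} (hst : ∀ f ∈ dom, ∃ L₀ : Finset I, σ.St f L₀ (n f)) :
    ∃ Θ : cp Γ X →ₙ+* Fam Γ P, (∀ a, ‖Θ a‖ ≤ ‖(a : Fam Γ X)‖) ∧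
      ∀ f ∈ dom, ∀ g i j (hm : gen f g i j ∈ cp Γ X),
        Θ ⟨gen f g i j, hm⟩ = cov c (sact e) g i j (n f) := by
  have hex : ∀ a : cp Γ X, ∃ B, SL (fun L => σ.st c L (a : Fam Γ X)) B := fun a =>
    σ.exists_SL c dense (fun f hf => by
      obtain ⟨L₀, h⟩ := hst f hf
      exact ⟨L₀, n f, h⟩) a
  choose Θ hΘ using hex
  have hadd : ∀ a b, Θ (a + b) = Θ a + Θ b := by
    intro a b
    refine SL.unique (hΘ (a + b)) ?_
    have h1 : (fun L : Finset I => σ.st c L ((a + b : cp Γ X) : Fam Γ X)) =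
        fun L => σ.st c L (a : Fam Γ X) + σ.st c L (b : Fam Γ X) := by
      funext L
      exact σ.st_add c L (a : Fam Γ X) (b : Fam Γ X)
    rw [h1]
    exact (hΘ a).add (hΘ b)
  have hmul : ∀ a b, Θ (a * b) = Θ a * Θ b := by
    intro a b
    refine SL.unique (hΘ (a * b)) ?_
    have h1 : (fun L : Finset I => σ.st c L ((a * b : cp Γ X) : Fam Γ X)) =
        fun L => σ.st c L (a : Fam Γ X) * σ.st c L (b : Fam Γ X) := by
      funext L
      exact σ.st_mul c L (a : Fam Γ X) (b : Fam Γ X)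
    rw [h1]
    exact SL.mul (fun L => σ.norm_st_le c L _) (hΘ a) (hΘ b)
  have hzero : Θ 0 = 0 := by
    have h1 := hadd 0 0
    rw [add_zero] at h1
    exact left_eq_add.1 h1
  refine ⟨{ toFun := Θ, map_mul' := hmul, map_zero' := hzero, map_add' := hadd }, ?_, ?_⟩
  · intro a
    exact SL.norm_le (norm_nonneg _) (fun L => σ.norm_st_le c L _) (hΘ a)
  · intro f hf g i j hm
    obtain ⟨L₀, h⟩ := hst f hf
    exact SL.unique (hΘ ⟨gen f g i j, hm⟩) (σ.SL_st_gen c h g i j)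

end Pool.Agent.Lib.MP_aa9b81_an.Mc
end
end
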