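import Pool.Agent.Lib.MP_aa9b81_an.Mg.G004
import Pool.Agent.Lib.MP_aa9b81_an.Mg.G012
import Pool.Agent.Lib.MP_aa9b81_an.Mg.G003
import Pool.Agent.Lib.MP_aa9b81_an.Mg.G007
import Pool.Agent.Lib.MP_aa9b81_an.Mg.G010
import Pool.Agent.Lib.MP_aa9b81_an.Mg.G074

section

/-!
# Hereditary shifts, part F2c: exact functions are dense
-/

open scoped ENNReal Topology ZeroAtInfty
open Function Filter Set

noncomputable section

namespace Pool.Agent.Lib.MP_aa9b81_an.Hs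

open Cut

variable {Γ Z I A : Type} [Group Γ] [MulAction Γ I] [MulAction Γ Z] [TopologicalSpace Z]
    [TopologicalSpace A] {a₀ : A} (Y : Hered Γ Z I A a₀)

private lemma F2c_compact {X : Type} [TopologicalSpace X] (f : C₀(X, ℂ)) {ε : ℝ} (hε : 0 < ε) :
    IsCompact {x | ε ≤ ‖f x‖} := by
  have h1 : ∀ᶠ x in cocompact X, ‖f x‖ < ε := by
    have h2 := f.zero_at_infty'
    rw [tendsto_zero_iff_norm_tendsto_zero] at h2
    exact h2.eventually (gt_mem_nhds hε)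
  obtain ⟨K, hKc, hKs⟩ := mem_cocompact.1 h1
  refine hKc.of_isClosed_subset (isClosed_le continuous_const f.continuous.norm) ?_
  intro z hz
  by_contra hzK
  have h3 : ‖f z‖ < ε := hKs hzK
  have h4 : ε ≤ ‖f z‖ := hz
  linarith

/-- CUT-OFF. PROOF: the compact set `{ε ≤ ‖F‖}` is contained in the open set where the heights of the sites of `L` are
positive, so there is `δ > 0` such that they are `≥ 2 δ` there. Put `f x = F x * ∏_{i ∈ L} χ(hh x i)`,
`χ(t) = min 1 (max 0 (t/δ - 1))` (zero for `t ≤ δ`, one for `t ≥ 2 δ`); `‖F - f‖ ≤ ε`. -/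
theorem exists_cutoff_ex [T2Space Z] [T2Space A] [CompactSpace A] (h : Ht A a₀) {L : Finset I}
    (hL : L.Nonempty) (F : C₀(Y.St, ℂ)) (h0 : ∀ x, ∀ i ∈ L, Y.y x i = a₀ → F x = 0)
    (h1 : ∀ x x' : Y.St, Y.z x = Y.z x' → (∀ i ∈ L, Y.y x i = Y.y x' i) → F x = F x')
    {ε : ℝ} (hε : 0 < ε) : ∃ (f : C₀(Y.St, ℂ)) (δ : ℝ), ExF Y h L δ f ∧ ‖F - f‖ ≤ ε := by
  have hpos : ∀ i ∈ L, ∃ d : ℝ, 0 < d ∧ ∀ x ∈ {x | ε ≤ ‖F x‖}, d ≤ h.h (Y.y x i) := by
    intro i hi
    refine (F2c_compact F hε).exists_forall_le' (h.cont.comp (Y.continuous_y i)).continuousOn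
      fun x hx => ?_
    change 0 < h.h (Y.y x i)
    rw [h.pos_iff]
    intro h2
    have h3 := h0 x i hi h2
    have h4 : ε ≤ ‖F x‖ := hx
    rw [h3, norm_zero] at h4
    linarith
  have hd : ∃ d : ℝ, 0 < d ∧ ∀ i ∈ L, ∀ x ∈ {x | ε ≤ ‖F x‖}, d ≤ h.h (Y.y x i) := by
    clear hL h0 h1
    induction L using Finset.cons_induction with
    | empty => exact ⟨1, one_pos, fun i hi => absurd hi (Finset.notMem_empty i)⟩
    | cons a s ha ih =>
      obtain ⟨d, hd, hd'⟩ := ih fun i hi => hpos i (Finset.mem_cons_of_mem hi)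
      obtain ⟨d', hd1, hd1'⟩ := hpos a (Finset.mem_cons_self a s)
      refine ⟨min d d', lt_min hd hd1, fun i hi x hx => ?_⟩
      rcases Finset.mem_cons.1 hi with rfl | hi
      · exact (min_le_right _ _).trans (hd1' x hx)
      · exact (min_le_left _ _).trans (hd' i hi x hx)
  obtain ⟨d, hd, hd'⟩ := hd
  let χ : ℝ → ℝ := fun t => min 1 (max 0 (t / (d / 2) - 1))
  have hχc : Continuous χ := by fun_prop
  have hχ0 : ∀ t, 0 ≤ χ t := fun t => le_min zero_le_one (le_max_left _ _)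
  have hχ1 : ∀ t, χ t ≤ 1 := fun t => min_le_left _ _
  have hχd : ∀ t, χ t ≠ 0 → d / 2 ≤ t := by
    intro t ht
    by_contra h2
    apply ht
    have h3 : t / (d / 2) - 1 ≤ 0 := by
      rw [sub_nonpos, div_le_one (by linarith)]
      linarith
    change min 1 (max 0 (t / (d / 2) - 1)) = 0
    rw [max_eq_left h3]
    exact min_eq_right zero_le_one
  have hχe : ∀ t, d ≤ t → χ t = 1 := by
    intro t ht
    have h3 : 1 ≤ t / (d / 2) - 1 := by
      rw [le_sub_iff_add_le, le_div_iff₀ (by linarith)]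
      linarith
    change min 1 (max 0 (t / (d / 2) - 1)) = 1
    exact min_eq_left (h3.trans (le_max_right _ _))
  let W : Y.St → ℝ := fun x => ∏ i ∈ L, χ (h.h (Y.y x i))
  have hWc : Continuous W :=
    continuous_finsetProd _ fun i _ => hχc.comp (h.cont.comp (Y.continuous_y i))
  have hW0 : ∀ x, 0 ≤ W x := fun x => Finset.prod_nonneg fun i _ => hχ0 _
  have hW1 : ∀ x, W x ≤ 1 := fun x => Finset.prod_le_one (fun i _ => hχ0 _) fun i _ => hχ1 _
  have hfc : Continuous fun x => F x * ((W x : ℝ) : ℂ) :=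
    F.continuous.mul (Complex.continuous_ofReal.comp hWc)
  have hfn : ∀ x, ‖F x * ((W x : ℝ) : ℂ)‖ ≤ ‖F x‖ := by
    intro x
    rw [norm_mul, Complex.norm_real, Real.norm_eq_abs, abs_of_nonneg (hW0 x)]
    exact mul_le_of_le_one_right (norm_nonneg _) (hW1 x)
  have hinf : Tendsto (fun x => F x * ((W x : ℝ) : ℂ)) (cocompact Y.St) (𝓝 0) := by
    have h2 := F.zero_at_infty'
    rw [tendsto_zero_iff_norm_tendsto_zero] at h2 ⊢
    exact squeeze_zero (fun z => norm_nonneg _) hfn h2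
  refine ⟨⟨⟨fun x => F x * ((W x : ℝ) : ℂ), hfc⟩, hinf⟩, d / 2, ?_, ?_⟩
  · refine ⟨⟨hL, by linarith, ?_⟩, ?_⟩
    · intro x hx i hi
      have h2 : F x * ((W x : ℝ) : ℂ) ≠ 0 := hx
      have h3 : W x ≠ 0 := by
        intro h4
        rw [h4, Complex.ofReal_zero, mul_zero] at h2
        exact h2 rfl
      exact hχd _ (Finset.prod_ne_zero_iff.1 h3 i hi)
    · intro x x' hz hy
      change F x * ((W x : ℝ) : ℂ) = F x' * ((W x' : ℝ) : ℂ)
      rw [h1 x x' hz hy]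
      have h2 : W x = W x' := Finset.prod_congr rfl fun i hi => by rw [hy i hi]
      rw [h2]
  · refine (BoundedContinuousFunction.norm_le (f := (F -
      (⟨⟨fun x => F x * ((W x : ℝ) : ℂ), hfc⟩, hinf⟩ : C₀(Y.St, ℂ))).toBCF) hε.le).2 fun x => ?_
    change ‖F x - F x * ((W x : ℝ) : ℂ)‖ ≤ ε
    have h2 : F x - F x * ((W x : ℝ) : ℂ) = F x * ((1 - W x : ℝ) : ℂ) := by
      push_cast
      ring
    rw [h2, norm_mul, Complex.norm_real, Real.norm_eq_abs, abs_of_nonneg (by linarith [hW1 x])]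
    by_cases hx : ε ≤ ‖F x‖
    · have h3 : W x = 1 := Finset.prod_eq_one fun i hi => hχe _ (hd' i hi x hx)
      rw [h3, sub_self, mul_zero]
      exact hε.le
    · have h4 := hW0 x
      have h5 := norm_nonneg (F x)
      have h6 := hW1 x
      nlinarith

end Pool.Agent.Lib.MP_aa9b81_an.Hs
end
end

section

/-!
# Hereditary shifts, part F2d: exact functions are dense
-/

open scoped ENNReal Topology ZeroAtInfty
open Function Filter Set

noncomputable section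

namespace Pool.Agent.Lib.MP_aa9b81_an.Hs

open Cut

variable {Γ Z I A : Type} [Group Γ] [MulAction Γ I] [MulAction Γ Z] [TopologicalSpace Z]
    [TopologicalSpace A] {a₀ : A} (Y : Hered Γ Z I A a₀)

/-- DENSITY. PROOF: `exists_cyl` for `ε/2` gives `L₀`; `exists_incl_excl`; `exists_cutoff_ex` for each nonempty `L ⊆ L₀` with
`ε / (2 · 2^|L₀|)`; sum. -/
theorem exists_exact_near [T2Space Z] [T2Space A] [CompactSpace A] [LocallyCompactSpace Z]
    (h : Ht A a₀) (f : C₀(Y.St, ℂ)) {ε : ℝ} (hε : 0 < ε) :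
    ∃ l : List (C₀(Y.St, ℂ)), (∀ f' ∈ l, ∃ L δ, ExF Y h L δ f') ∧ ‖f - l.sum‖ ≤ ε := by
  classical
  obtain ⟨L₀, hL₀⟩ := exists_cyl Y f (half_pos hε)
  obtain ⟨F, hF0, hF1, hF2, hF3⟩ := exists_incl_excl Y f L₀
  have hN : (0 : ℝ) < (L₀.powerset.card : ℝ) + 1 := by positivity
  have hε' : 0 < ε / 2 / ((L₀.powerset.card : ℝ) + 1) := by positivity
  have key : ∀ S : Finset (Finset I), S ⊆ L₀.powerset →
      ∃ l : List (C₀(Y.St, ℂ)), (∀ f' ∈ l, ∃ L δ, ExF Y h L δ f') ∧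
        ‖(∑ L ∈ S, F L) - l.sum‖ ≤ S.card * (ε / 2 / ((L₀.powerset.card : ℝ) + 1)) := by
    intro S
    induction S using Finset.induction_on with
    | empty =>
      intro _
      refine ⟨[], fun f' hf' => absurd hf' List.not_mem_nil, ?_⟩
      simp
    | insert L s hL ih =>
      intro hs
      obtain ⟨l, hl, hn⟩ := ih fun X hX => hs (Finset.mem_insert_of_mem hX)
      have hLL : L ⊆ L₀ := Finset.mem_powerset.1 (hs (Finset.mem_insert_self L s))
      rw [Finset.sum_insert hL, Finset.card_insert_of_notMem hL]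
      push_cast
      rcases L.eq_empty_or_nonempty with h1 | h1
      · refine ⟨l, hl, ?_⟩
        rw [h1, hF2, zero_add]
        linarith
      · obtain ⟨f', δ, h2, h3⟩ := exists_cutoff_ex Y h h1 (F L) (hF0 L hLL) (hF1 L hLL) hε'
        refine ⟨f' :: l, ?_, ?_⟩
        · intro f'' hf''
          rcases List.mem_cons.1 hf'' with h4 | h4
          · rw [h4]
            exact ⟨L, δ, h2⟩
          · exact hl f'' h4
        · rw [List.sum_cons, add_sub_add_comm]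
          refine (norm_add_le _ _).trans ?_
          linarith
  obtain ⟨l, hl, hn⟩ := key L₀.powerset (Finset.Subset.refl _)
  refine ⟨l, hl, ?_⟩
  have h1 : ‖f - ∑ L ∈ L₀.powerset, F L‖ ≤ ε / 2 := by
    refine (BoundedContinuousFunction.norm_le
      (f := (f - ∑ L ∈ L₀.powerset, F L).toBCF) (half_pos hε).le).2 fun x => ?_
    change ‖f x - (∑ L ∈ L₀.powerset, F L) x‖ ≤ ε / 2
    have h2 : (∑ L ∈ L₀.powerset, F L) x = ∑ L ∈ L₀.powerset, F L x := by
      have h3 : ∀ s : Finset (Finset I), (∑ L ∈ s, F L) x = ∑ L ∈ s, F L x := by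
        intro s
        induction s using Finset.induction_on with
        | empty => simp
        | insert a s ha ih =>
          rw [Finset.sum_insert ha, Finset.sum_insert ha, ZeroAtInftyContinuousMap.add_apply, ih]
      exact h3 _
    rw [h2, ← hF3, norm_sub_rev]
    exact hL₀ x
  have h2 : f - l.sum = (f - ∑ L ∈ L₀.powerset, F L) + ((∑ L ∈ L₀.powerset, F L) - l.sum) := by
    abel
  rw [h2]
  refine (norm_add_le _ _).trans ?_
  have h3 : (L₀.powerset.card : ℝ) * (ε / 2 / ((L₀.powerset.card : ℝ) + 1)) ≤ ε / 2 := by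
    rw [mul_div_assoc', div_le_iff₀ hN]
    nlinarith
  linarith

end Pool.Agent.Lib.MP_aa9b81_an.Hs
end
end

section

/-!
# Hereditary shifts, part F2: exact functions are dense
-/

open scoped ENNReal Topology ZeroAtInfty
open Function Filter Set

noncomputable section

namespace Pool.Agent.Lib.MP_aa9b81_an.Hs

open Cut

variable {Γ Z I A : Type} [Group Γ] [MulAction Γ I] [MulAction Γ Z] [TopologicalSpace Z]
    [TopologicalSpace A] {a₀ : A} (Y : Hered Γ Z I A a₀)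

private lemma F2_gen_mem {G X : Type} [Group G] [MulAction G X] [TopologicalSpace X]
    (f : C₀(X, ℂ)) (g : G) (i j : ℕ) : (gen f g i j : Fam G X) ∈ cp G X :=
  NonUnitalSubalgebra.le_topologicalClosure _
    (NonUnitalAlgebra.subset_adjoin ℂ ⟨f, g, i, j, rfl⟩)

/-- INDUCTION PRINCIPLE. PROOF: `Cut.exists_val_near`: `a` is near to `val l`; by induction on `l` (`hadd`, `h0`) it is
enough to treat `d.gen = gen f g i j`; `exists_exact_near` for `f`, `Cut.gen_add`, `Cut.norm_gen_le`, `hlim`. -/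
theorem cp_induction [T2Space Z] [T2Space A] [CompactSpace A] [LocallyCompactSpace Z]
    [ContinuousConstSMul Γ Z] (h : Ht A a₀) {p : Fam Γ Y.St → Prop}
    (hgen : ∀ L δ f, ExF Y h L δ f → ∀ g i j, p (gen f g i j)) (h0 : p 0)
    (hadd : ∀ a ∈ cp Γ Y.St, ∀ b ∈ cp Γ Y.St, p a → p b → p (a + b))
    (hlim : ∀ a ∈ cp Γ Y.St, (∀ ε : ℝ, 0 < ε → ∃ b ∈ cp Γ Y.St, p b ∧ ‖a - b‖ ≤ ε) → p a) :
    ∀ a ∈ cp Γ Y.St, p a := by
  have hgen' : ∀ (f : C₀(Y.St, ℂ)) (g : Γ) (i j : ℕ), p (gen f g i j) := by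
    intro f g i j
    refine hlim _ (F2_gen_mem f g i j) fun ε hε => ?_
    obtain ⟨l, hl, hn⟩ := exists_exact_near Y h f hε
    refine ⟨gen l.sum g i j, F2_gen_mem _ g i j, ?_, ?_⟩
    · clear hn
      induction l with
      | nil =>
        have h1 : (gen (List.nil (α := C₀(Y.St, ℂ))).sum g i j : Fam Γ Y.St) = 0 := by
          rw [List.sum_nil, gen_zero]
        rw [h1]
        exact h0
      | cons f' l ih =>
        rw [List.sum_cons, gen_add]
        refine hadd _ (F2_gen_mem _ g i j) _ (F2_gen_mem _ g i j) ?_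
          (ih fun f'' hf'' => hl f'' (List.mem_cons_of_mem _ hf''))
        obtain ⟨L, δ, h2⟩ := hl f' List.mem_cons_self
        exact hgen L δ f' h2 g i j
    · rw [← gen_sub]
      exact (norm_gen_le _ g i j).trans hn
  intro a ha
  refine hlim a ha fun ε hε => ?_
  obtain ⟨l, -, hn⟩ := exists_val_near ha hε
  refine ⟨val l, val_mem l, ?_, hn.le⟩
  clear hn
  induction l with
  | nil => exact h0
  | cons d l ih =>
    rw [val_cons]
    exact hadd _ (F2_gen_mem _ _ _ _) _ (val_mem l) (hgen' _ _ _ _) ih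

end Pool.Agent.Lib.MP_aa9b81_an.Hs
end
end

section

/-!
# Hereditary shifts, part T1a: the rotated representations, limits
-/

open scoped ENNReal Topology ZeroAtInfty
open Function Filter Set

noncomputable section

namespace Pool.Agent.Lib.MP_aa9b81_an.Hs

open Cut

variable {Γ Z I A : Type} [Group Γ] [MulAction Γ I] [MulAction Γ Z] [TopologicalSpace Z]
    [TopologicalSpace A] {a₀ : A} [DecidableEq I] (Y : Hered Γ Z I A a₀)

/-- THE SLICES. Let `f` be exact for `L₀`, `g ∈ Γ`, `t ∈ Γ`, and `L ⊇ (g t)⁻¹ L₀`. Then on the vectors `ξ` supported in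
`{t} × ℕ` the finite stage is equal to the limit. PROOF: `Fam`-values at `x`, `ext_sk`: at `(s, k)` both sides are `0`
unless `k = i` and `g⁻¹ s = t` (for `g⁻¹ s ≠ t` the slice `sk c (g⁻¹ s) j ξ` is `0`, and the rotations act in the
slices). Let `s = g t`, `η = sk c t j ξ`, `K' = gF t (Lx L x)`, `K = gF s (Lx L x) = gF g K'`, `x' = s x`. The left side
(`thL_apply`, `sk_uop`, `psi_pi0_gen`, `sk_cov`, `sk_uop'`) is
`UK K * (f(x') Sp L₀ 0 Es(supp x')) * W_g * (UK K')⁻¹ η = f(x') UK K * XL L₀ * Es(supp x') * (UK K)⁻¹ * W_g η`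
(`W_mul_UK_inv`, `Sp_zero`). If `f x' = 0` both sides are `0`. Otherwise `L₀ ⊆ supp x'` and `L₀ ⊆ s L`, so `L₀ ⊆ K`
(`i ∈ K ↔ s⁻¹ i ∈ L ∧ y x (s⁻¹ i) ≠ a₀`, and `y x (s⁻¹ i) = y x' i`), and `K ⊆ supp x'`, so `UK K` commutes with
`Es(supp x')` (`UK_inv_comm`, `Ui_comm_Es`), and `UK K * XL L₀ * (UK K)⁻¹ = Sp L₀ φ` (`UK_conj_XL`). -/
theorem thL_gen_slice (c : ℕ × Bs I ≃ ℕ) (e : I ↪ ℕ) (φ : ℝ) {h : Ht A a₀} {L₀ : Finset I}
    {δ : ℝ} {f : C₀(Y.St, ℂ)} (hf : ExF Y h L₀ δ f) (g : Γ) (i j : ℕ) (x : Y.St) (t : Γ)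
    {L : Finset I} (hL : gF (g * t)⁻¹ L₀ ⊆ L) (ξ : Hil Γ)
    (hξ : ∀ s k, s ≠ t → (ξ : Γ × ℕ → ℂ) (s, k) = 0) :
    thL Y c e φ L (gen f g i j) x ξ =
      cov c (sact e) g i j ((Y.site h).nf f L₀ φ) x ξ := by
  have hξ0 : ∀ s', s' ≠ t → sk c s' j ξ = 0 := by
    intro s' hs'
    ext b
    rw [sk_apply, hξ s' _ hs']
    rfl
  refine ext_sk c fun s k => ?_
  rw [thL_apply, psi_pi0_gen Y c e hf]
  change sk c s k (uop Y c φ L x (cov c (sact e) g i j ((Y.site h).nf f L₀ 0) x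
    (uop' Y c φ L x ξ))) = _
  rw [sk_uop, sk_cov, sk_cov, sk_uop']
  by_cases hk : k = i
  swap
  · rw [if_neg hk, if_neg hk, map_zero]
  rw [if_pos hk, if_pos hk]
  by_cases hs : g⁻¹ * s = t
  swap
  · rw [hξ0 _ hs]
    simp only [map_zero]
  have hs' : s = g * t := by rw [← hs, mul_inv_cancel_left]
  set η : L2 (Bs I) := sk c (g⁻¹ * s) j ξ with hη
  set K : Finset I := gF s (Lx Y L x) with hK
  set K' : Finset I := gF (g⁻¹ * s) (Lx Y L x) with hK'
  have hKK : gF g K' = K := by rw [hK, hK', ← gF_mul, mul_inv_cancel_left]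
  have h1 : (sact e : SAct Γ (Bs I)).W g (((UK K' φ)⁻¹ : (BL (Bs I))ˣ).val η) =
      ((UK K φ)⁻¹ : (BL (Bs I))ˣ).val ((sact e : SAct Γ (Bs I)).W g η) := by
    have h2 := W_mul_UK_inv e g K' φ
    rw [hKK] at h2
    exact congrArg (fun X : BL (Bs I) => X η) h2
  rw [h1, Site.nf_apply, Site.nf_apply, Sp_zero]
  set ζ : L2 (Bs I) := (sact e : SAct Γ (Bs I)).W g η with hζ
  change (UK K φ : BL (Bs I)) (f (s • x) • (XL L₀ (Es ((Y.site h).supp (s • x))
    (((UK K φ)⁻¹ : (BL (Bs I))ˣ).val ζ)))) =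
      f (s • x) • (Sp L₀ φ (Es ((Y.site h).supp (s • x)) ζ))
  rw [map_smul]
  by_cases hf0 : f (s • x) = 0
  · rw [hf0, zero_smul, zero_smul]
  congr 1
  have hLK : L₀ ⊆ K := by
    intro i' hi'
    rw [hK, mem_gF, mem_Lx]
    constructor
    · refine hL (mem_gF.2 ?_)
      rw [hs', inv_inv, smul_inv_smul]
      exact hi'
    · have h3 := hf.le _ hf0 i' hi'
      have h4 : i' ∈ (Y.site h).supp (s • x) := hf.pos.trans_le h3
      have h5 := (Y.mem_supp h (s • x) i').1 h4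
      rwa [Hered.y_smul] at h5
  have hKs : ∀ i' ∈ K, i' ∈ (Y.site h).supp (s • x) := by
    intro i' hi'
    rw [hK, mem_gF, mem_Lx] at hi'
    rw [Y.mem_supp h, Hered.y_smul]
    exact hi'.2
  have h6 : Commute ((UK K φ)⁻¹ : (BL (Bs I))ˣ).val (Es ((Y.site h).supp (s • x))) :=
    UK_inv_comm fun i' hi' => Ui_comm_Es (hKs i' hi') φ
  have h7 : Es ((Y.site h).supp (s • x)) (((UK K φ)⁻¹ : (BL (Bs I))ˣ).val ζ) =
      ((UK K φ)⁻¹ : (BL (Bs I))ˣ).val (Es ((Y.site h).supp (s • x)) ζ) :=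
    congrArg (fun X : BL (Bs I) => X ζ) h6.eq.symm
  rw [h7, ← UK_conj_XL hLK φ]
  rfl

/-- PROOF: `SL.of_slices` with `thL_gen_slice` (`Filter.eventually_ge_atTop`), `norm_thL_le`. -/
theorem SL_thL_gen (c : ℕ × Bs I ≃ ℕ) (e : I ↪ ℕ) (φ : ℝ) {h : Ht A a₀} {L₀ : Finset I}
    {δ : ℝ} {f : C₀(Y.St, ℂ)} (hf : ExF Y h L₀ δ f) (g : Γ) (i j : ℕ) :
    SL (fun L => thL Y c e φ L (gen f g i j)) (cov c (sact e) g i j ((Y.site h).nf f L₀ φ)) := by
  refine SL.of_slices (fun L => norm_thL_le Y c e φ L _) fun x t => ?_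
  filter_upwards [Filter.eventually_ge_atTop (gF (g * t)⁻¹ L₀)] with L hL
  intro ξ hξ
  exact thL_gen_slice Y c e φ hf g i j x t hL ξ hξ

end Pool.Agent.Lib.MP_aa9b81_an.Hs
end
end

section

/-!
# Hereditary shifts, part T1b: the rotated representations, limits
-/

open scoped ENNReal Topology ZeroAtInfty
open Function Filter Set

noncomputable section

namespace Pool.Agent.Lib.MP_aa9b81_an.Hs

open Cut

variable {Γ Z I A : Type} [Group Γ] [MulAction Γ I] [MulAction Γ Z] [TopologicalSpace Z]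
    [TopologicalSpace A] {a₀ : A} [DecidableEq I] (Y : Hered Γ Z I A a₀)

variable [T2Space Z] [T2Space A] [CompactSpace A] [LocallyCompactSpace Z]
    [ContinuousConstSMul Γ Z]

/-- PROOF: `cp_induction` for the property `∃ B, SL (thL · a) B`: `SL_thL_gen`; `SL.const` (`thL 0 = 0`); `SL.add`,
`thL_add`; `SL.exists_of_limit`, `thL_sub`, `norm_thL_le`. -/
theorem exists_SL (c : ℕ × Bs I ≃ ℕ) (e : I ↪ ℕ) (h : Ht A a₀) (φ : ℝ) (a : Fam Γ Y.St)
    (ha : a ∈ cp Γ Y.St) : ∃ B, SL (fun L => thL Y c e φ L a) B := by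
  refine cp_induction Y h (p := fun a => ∃ B, SL (fun L => thL Y c e φ L a) B) ?_ ?_ ?_ ?_ a ha
  · intro L δ f hf g i j
    exact ⟨_, SL_thL_gen Y c e φ hf g i j⟩
  · refine ⟨0, ?_⟩
    have h1 : (fun L => thL Y c e φ L (0 : Fam Γ Y.St)) = fun _ : Finset I => 0 := by
      funext L
      have h2 := thL_smul Y c e φ L 0 (0 : Fam Γ Y.St)
      rw [zero_smul, zero_smul] at h2
      exact h2
    rw [h1]
    exact SL.const 0
  · rintro a _ b _ ⟨B, hB⟩ ⟨B', hB'⟩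
    refine ⟨B + B', ?_⟩
    have h1 : (fun L => thL Y c e φ L (a + b)) =
        fun L => thL Y c e φ L a + thL Y c e φ L b := funext fun L => thL_add Y c e φ L a b
    rw [h1]
    exact hB.add hB'
  · intro a _ hlim
    refine SL.exists_of_limit fun ε hε => ?_
    obtain ⟨b, _, ⟨B', hB'⟩, hb⟩ := hlim ε hε
    refine ⟨_, B', hB', fun L => ?_⟩
    rw [← thL_sub]
    exact (norm_thL_le Y c e φ L _).trans hb

/-- The rotated representation. -/
def thV (c : ℕ × Bs I ≃ ℕ) (e : I ↪ ℕ) (h : Ht A a₀) (φ : ℝ) (a : cp Γ Y.St) : Fam Γ Y.St :=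
  (exists_SL Y c e h φ a.1 a.2).choose

theorem SL_thV (c : ℕ × Bs I ≃ ℕ) (e : I ↪ ℕ) (h : Ht A a₀) (φ : ℝ) (a : cp Γ Y.St) :
    SL (fun L => thL Y c e φ L a.1) (thV Y c e h φ a) :=
  (exists_SL Y c e h φ a.1 a.2).choose_spec

/-- PROOF: `SL.unique`, `SL.add`, `thL_add`, `SL_thV`. -/
theorem thV_add (c : ℕ × Bs I ≃ ℕ) (e : I ↪ ℕ) (h : Ht A a₀) (φ : ℝ) (a b : cp Γ Y.St) :
    thV Y c e h φ (a + b) = thV Y c e h φ a + thV Y c e h φ b := by
  have h1 : (fun L => thL Y c e φ L (a + b : cp Γ Y.St).1) =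
      fun L => thL Y c e φ L a.1 + thL Y c e φ L b.1 := funext fun L => thL_add Y c e φ L a.1 b.1
  have h2 := SL_thV Y c e h φ (a + b)
  rw [h1] at h2
  exact h2.unique ((SL_thV Y c e h φ a).add (SL_thV Y c e h φ b))

/-- PROOF: `SL.unique`, `SL.mul` (`norm_thL_le`), `thL_mul`. -/
theorem thV_mul (c : ℕ × Bs I ≃ ℕ) (e : I ↪ ℕ) (h : Ht A a₀) (φ : ℝ) (a b : cp Γ Y.St) :
    thV Y c e h φ (a * b) = thV Y c e h φ a * thV Y c e h φ b := by
  have h1 : (fun L => thL Y c e φ L (a * b : cp Γ Y.St).1) =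
      fun L => thL Y c e φ L a.1 * thL Y c e φ L b.1 := funext fun L => thL_mul Y c e φ L a.1 b.1
  have h2 := SL_thV Y c e h φ (a * b)
  rw [h1] at h2
  exact h2.unique (SL.mul (fun L => norm_thL_le Y c e φ L a.1) (SL_thV Y c e h φ a)
    (SL_thV Y c e h φ b))

/-- PROOF: `SL.norm_le`, `norm_thL_le`. -/
theorem norm_thV_le (c : ℕ × Bs I ≃ ℕ) (e : I ↪ ℕ) (h : Ht A a₀) (φ : ℝ) (a : cp Γ Y.St) :
    ‖thV Y c e h φ a‖ ≤ ‖a.1‖ := by
  exact SL.norm_le (norm_nonneg _) (fun L => norm_thL_le Y c e φ L a.1) (SL_thV Y c e h φ a)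

/-- The rotated representation, a homomorphism. -/
def th' (c : ℕ × Bs I ≃ ℕ) (e : I ↪ ℕ) (h : Ht A a₀) (φ : ℝ) : cp Γ Y.St →ₙ+* Fam Γ Y.St where
  toFun := thV Y c e h φ
  map_mul' := thV_mul Y c e h φ
  map_add' := thV_add Y c e h φ
  map_zero' := by
    have h1 := thV_add Y c e h φ 0 0
    rw [add_zero] at h1
    exact left_eq_add.1 h1

theorem th'_apply (c : ℕ × Bs I ≃ ℕ) (e : I ↪ ℕ) (h : Ht A a₀) (φ : ℝ) (a : cp Γ Y.St) :
    th' Y c e h φ a = thV Y c e h φ a := rfl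

theorem norm_th'_le (c : ℕ × Bs I ≃ ℕ) (e : I ↪ ℕ) (h : Ht A a₀) (φ : ℝ) (a : cp Γ Y.St) :
    ‖th' Y c e h φ a‖ ≤ ‖a.1‖ := norm_thV_le Y c e h φ a

end Pool.Agent.Lib.MP_aa9b81_an.Hs
end
end

section

/-!
# Hereditary shifts, part T1: the rotated representations, limits
-/

open scoped ENNReal Topology ZeroAtInfty
open Function Filter Set

noncomputable section

namespace Pool.Agent.Lib.MP_aa9b81_an.Hs

open Cut

variable {Γ Z I A : Type} [Group Γ] [MulAction Γ I] [MulAction Γ Z] [TopologicalSpace Z]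
    [TopologicalSpace A] {a₀ : A} [DecidableEq I] (Y : Hered Γ Z I A a₀)

variable [T2Space Z] [T2Space A] [CompactSpace A] [LocallyCompactSpace Z]
    [ContinuousConstSMul Γ Z]

/-- PROOF: `SL.unique`, `SL_thL_gen`. -/
theorem th'_gen (c : ℕ × Bs I ≃ ℕ) (e : I ↪ ℕ) (h : Ht A a₀) (φ : ℝ) {L : Finset I} {δ : ℝ}
    {f : C₀(Y.St, ℂ)} (hf : ExF Y h L δ f) (g : Γ) (i j : ℕ) (hm : gen f g i j ∈ cp Γ Y.St) :
    th' Y c e h φ ⟨gen f g i j, hm⟩ = cov c (sact e) g i j ((Y.site h).nf f L φ) := by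
  rw [th'_apply]
  exact (SL_thV Y c e h φ ⟨gen f g i j, hm⟩).unique (SL_thL_gen Y c e φ hf g i j)

/-- PROOF: `SL.unique`, `thL_zero_angle`, `SL.const`. -/
theorem th'_zero (c : ℕ × Bs I ≃ ℕ) (e : I ↪ ℕ) (h : Ht A a₀) (a : cp Γ Y.St) :
    th' Y c e h 0 a = psi c (sact e) Y.pi0 a.1 := by
  rw [th'_apply]
  have h1 := SL_thV Y c e h 0 a
  have h2 : (fun L => thL Y c e 0 L a.1) = fun _ : Finset I => psi c (sact e) Y.pi0 a.1 :=
    funext fun L => thL_zero_angle Y c e L a.1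
  rw [h2] at h1
  exact h1.unique (SL.const _)

end Pool.Agent.Lib.MP_aa9b81_an.Hs
end
end

section

/-!
# Hereditary shifts, part T2a: properties of the rotated representations
-/

open scoped ENNReal Topology ZeroAtInfty
open Function Filter Set

noncomputable section

namespace Pool.Agent.Lib.MP_aa9b81_an.Hs

open Cut

variable {Γ Z I A : Type} [Group Γ] [MulAction Γ I] [MulAction Γ Z] [TopologicalSpace Z]
    [TopologicalSpace A] {a₀ : A} [DecidableEq I] (Y : Hered Γ Z I A a₀) (w : Wt Γ I)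
    [T2Space Z] [T2Space A] [CompactSpace A] [LocallyCompactSpace Z] [ContinuousConstSMul Γ Z]

omit [DecidableEq I] in
/-- PROOF: `cp_induction` for the property `∀ ha : a ∈ cp Γ Y.St, p ⟨a, ha⟩`. -/
theorem cp_induction' (h : Ht A a₀) {p : cp Γ Y.St → Prop}
    (hgen : ∀ L δ f, ExF Y h L δ f → ∀ g i j (hm : gen f g i j ∈ cp Γ Y.St),
      p ⟨gen f g i j, hm⟩)
    (h0 : p 0) (hadd : ∀ a b, p a → p b → p (a + b))
    (hlim : ∀ a : cp Γ Y.St,
      (∀ ε : ℝ, 0 < ε → ∃ b : cp Γ Y.St, p b ∧ ‖(a : Fam Γ Y.St) - b‖ ≤ ε) → p a) :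
    ∀ a, p a := by
  have key : ∀ a ∈ cp Γ Y.St, ∀ ha : a ∈ cp Γ Y.St, p ⟨a, ha⟩ := by
    refine cp_induction Y h (p := fun a => ∀ ha : a ∈ cp Γ Y.St, p ⟨a, ha⟩) ?_ ?_ ?_ ?_
    · intro L δ f hf g i j ha
      exact hgen L δ f hf g i j ha
    · intro _
      exact h0
    · intro a ha b hb pa pb _
      exact hadd ⟨a, ha⟩ ⟨b, hb⟩ (pa ha) (pb hb)
    · intro a _ hl ha
      refine hlim ⟨a, ha⟩ fun ε hε => ?_
      obtain ⟨b, hb, pb, hab⟩ := hl ε hε
      exact ⟨⟨b, hb⟩, pb hb, hab⟩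
  intro a
  exact key a.1 a.2 a.2

theorem th'_sub_le (c : ℕ × Bs I ≃ ℕ) (e : I ↪ ℕ) (h : Ht A a₀) (φ : ℝ) (a b : cp Γ Y.St) :
    ‖th' Y c e h φ a - th' Y c e h φ b‖ ≤ ‖(a : Fam Γ Y.St) - b‖ := by
  rw [← map_sub]
  exact norm_th'_le Y c e h φ (a - b)

/-- PROOF: `cp_induction'`: `th'_gen`, `Site.continuous_cov_nf`; `map_add`; uniform limits of continuous functions
(`th'_sub_le`; `continuous_of_uniform_approx_of_continuous`). -/
theorem continuous_th' (c : ℕ × Bs I ≃ ℕ) (e : I ↪ ℕ) (h : Ht A a₀) (a : cp Γ Y.St) :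
    Continuous fun φ => th' Y c e h φ a := by
  refine cp_induction' Y h (p := fun a => Continuous fun φ => th' Y c e h φ a) ?_ ?_ ?_ ?_ a
  · intro L δ f hf g i j hm
    have h1 : (fun φ => th' Y c e h φ ⟨gen f g i j, hm⟩) =
        fun φ => cov c (sact e) g i j ((Y.site h).nf f L φ) :=
      funext fun φ => th'_gen Y c e h φ hf g i j hm
    rw [h1]
    exact (Y.site h).continuous_cov_nf c e f L g i j
  · have h1 : (fun φ => th' Y c e h φ 0) = fun _ => 0 := funext fun φ => map_zero _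
    rw [h1]
    exact continuous_const
  · intro a b ha hb
    have h1 : (fun φ => th' Y c e h φ (a + b)) =
        fun φ => th' Y c e h φ a + th' Y c e h φ b := funext fun φ => map_add _ _ _
    rw [h1]
    exact ha.add hb
  · intro a hl
    refine continuous_of_uniform_approx_of_continuous fun u hu => ?_
    obtain ⟨ε, hε, hu⟩ := Metric.mem_uniformity_dist.1 hu
    obtain ⟨b, hb, hab⟩ := hl (ε / 2) (half_pos hε)
    refine ⟨_, hb, fun φ => hu ?_⟩
    rw [dist_eq_norm]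
    refine (th'_sub_le Y c e h φ a b).trans_lt ?_
    linarith

/-- PROOF: `cp_induction'`: both sides are contractive and additive; `th'_gen`, `psi_pi1_gen`. -/
theorem th'_pi_div_two (c : ℕ × Bs I ≃ ℕ) (e : I ↪ ℕ) (h : Ht A a₀) (a : cp Γ Y.St) :
    th' Y c e h (Real.pi / 2) a = psi c (sact e) Y.pi1 a.1 := by
  refine cp_induction' Y h (p := fun a => th' Y c e h (Real.pi / 2) a =
    psi c (sact e) Y.pi1 a.1) ?_ ?_ ?_ ?_ a
  · intro L δ f hf g i j hm
    rw [th'_gen Y c e h _ hf, psi_pi1_gen Y c e hf]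
  · rw [map_zero]
    exact (map_zero (psi c (sact e) Y.pi1)).symm
  · intro a b ha hb
    rw [map_add, ha, hb]
    exact (map_add (psi c (sact e) Y.pi1) a.1 b.1).symm
  · intro a hl
    rw [← sub_eq_zero, ← norm_le_zero_iff]
    refine le_of_forall_pos_le_add fun ε hε => ?_
    obtain ⟨b, hb, hab⟩ := hl (ε / 2) (half_pos hε)
    have h1 := th'_sub_le Y c e h (Real.pi / 2) a b
    have h2 := norm_psi_le c (sact e) Y.pi1 (a.1 - b.1)
    rw [map_sub] at h2
    have h3 : th' Y c e h (Real.pi / 2) a - psi c (sact e) Y.pi1 a.1 =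
        (th' Y c e h (Real.pi / 2) a - th' Y c e h (Real.pi / 2) b) -
          (psi c (sact e) Y.pi1 a.1 - psi c (sact e) Y.pi1 b.1) := by
      rw [hb]
      abel
    rw [h3]
    refine (norm_sub_le _ _).trans ?_
    linarith

end Pool.Agent.Lib.MP_aa9b81_an.Hs
end
end

section

/-!
# Hereditary shifts, part E3b: relations of the operator `T`
-/

open scoped ENNReal Topology ZeroAtInfty
open Function Filter Set

noncomputable section

namespace Pool.Agent.Lib.MP_aa9b81_an.Hs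

open Cut

variable {Γ P I : Type} [Group Γ] [TopologicalSpace P] [MulAction Γ P] [MulAction Γ I]
  [DecidableEq I] (H : Site Γ P I) (w : Wt Γ I)

private lemma E3b_Pm_eq : (Pm : BL (Bs I)) = 1 - Pp := by
  rw [← Pp_add_Pm (I := I)]
  abel

private lemma E3b_Es_comm_Pm (s : Set I) : Commute (Es s : BL (Bs I)) Pm := by
  rw [E3b_Pm_eq]
  exact (Commute.one_right _).sub_right (Es_comm_Pp s)

/-- PROOF: `Pp_mul_Cl`, `Es_comm_Pp`, and `Pm = 1 - Pp`. -/
theorem Site.Pp_mul_T (e : I ↪ ℕ) (s : ℝ) (hs : 0 ≤ s) :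
    cst Pp * H.T w e s hs = H.T w e s hs * cst Pm := by
  ext1 p
  rw [FB.mul_apply, FB.mul_apply, cst_apply, cst_apply, Site.T_apply, ← mul_assoc,
    Pp_mul_Cl e (H.CB_uu w hs p), mul_assoc, mul_assoc, (E3b_Es_comm_Pm (H.supp p)).eq]

/-- PROOF: `Pm_mul_Cl`, and `Es` commutes with `Pp = 1 - Pm`. -/
theorem Site.Pm_mul_T (e : I ↪ ℕ) (s : ℝ) (hs : 0 ≤ s) :
    cst Pm * H.T w e s hs = H.T w e s hs * cst Pp := by
  ext1 p
  rw [FB.mul_apply, FB.mul_apply, cst_apply, cst_apply, Site.T_apply, ← mul_assoc,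
    Pm_mul_Cl e (H.CB_uu w hs p), mul_assoc, mul_assoc, (Es_comm_Pp (H.supp p)).eq]

/-- PROOF: `Es_comm_Cl`, `Es_mul_Es`. -/
theorem Site.EP_mul_T (e : I ↪ ℕ) (s : ℝ) (hs : 0 ≤ s) :
    H.EP * H.T w e s hs = H.T w e s hs := by
  ext1 p
  rw [FB.mul_apply, Site.EP_apply, Site.T_apply, ← mul_assoc,
    (Es_comm_Cl e (H.supp p) (H.CB_uu w hs p)).eq, mul_assoc, Es_mul_Es]

theorem Site.T_mul_EP (e : I ↪ ℕ) (s : ℝ) (hs : 0 ≤ s) :
    H.T w e s hs * H.EP = H.T w e s hs := by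
  ext1 p
  rw [FB.mul_apply, Site.EP_apply, Site.T_apply, mul_assoc, Es_mul_Es]

private lemma E3b_Pv_apply (ξ : L2 (Bs I)) (b : Bs I) :
    (Pv ξ : Bs I → ℂ) b = if b.F = ∅ then (ξ : Bs I → ℂ) b else 0 := by
  rw [Pv_eq, dia_apply zero_le_one (fun b => by split_ifs <;> simp)]
  split_ifs <;> simp

/-- PROOF: coordinates: the value of `Cl ..` at `vac` is an empty sum (`Cl_apply`, `clF`). -/
theorem Site.Pv_mul_T (e : I ↪ ℕ) (s : ℝ) (hs : 0 ≤ s) :
    cst Pv * H.T w e s hs = 0 := by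
  ext1 p
  rw [FB.mul_apply, cst_apply, Site.T_apply, FB.zero_apply]
  refine ContinuousLinearMap.ext fun ξ => ?_
  ext b
  change (Pv (Cl e (H.uu w s p) (Es (H.supp p) ξ)) : Bs I → ℂ) b = 0
  rw [E3b_Pv_apply]
  split_ifs with hb
  · rw [Cl_apply e (H.CB_uu w hs p), clF, hb, Finset.sum_empty]
  · rfl

/-- PROOF: `Pv_eq`, coordinates: `|vac.S| = 0` is even (`b.F = ∅` implies `b.S = ∅`). -/
theorem Pm_mul_Pv : (Pm * Pv : BL (Bs I)) = 0 := by
  refine ContinuousLinearMap.ext fun ξ => ?_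
  ext b
  change (Pm (Pv ξ) : Bs I → ℂ) b = 0
  rw [Pm_apply, E3b_Pv_apply]
  by_cases hb : b.F = ∅
  · have hS : b.S = ∅ := Finset.subset_empty.1 (hb ▸ b.sub)
    rw [hS, Finset.card_empty, if_pos (by simp)]
  · rw [if_neg hb, ite_self]

end Pool.Agent.Lib.MP_aa9b81_an.Hs
end
end

section

/-!
# Hereditary shifts, part T3a: the cycles
-/

open scoped ENNReal Topology ZeroAtInfty
open Function Filter Set

noncomputable section

namespace Pool.Agent.Lib.MP_aa9b81_an.Hs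

open Cut

section

variable {Γ P I : Type} [Group Γ] [TopologicalSpace P] [MulAction Γ P] [MulAction Γ I]
  [DecidableEq I] (H : Site Γ P I) (w : Wt Γ I)

omit [DecidableEq I] [TopologicalSpace P] in
/-- PROOF: `m1_mul`, `cst_mul`, `Pp_mul_Pp`. -/
theorem m1_Pp_mul (c : ℕ × Bs I ≃ ℕ) :
    (m1 c (cst Pp) : Fam Γ P) * m1 c (cst Pp) = m1 c (cst Pp) := by
  rw [← m1_mul, ← cst_mul, Pp_mul_Pp]

omit [DecidableEq I] [TopologicalSpace P] in
theorem m1_Pm_mul (c : ℕ × Bs I ≃ ℕ) :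
    (m1 c (cst Pm) : Fam Γ P) * m1 c (cst Pm) = m1 c (cst Pm) := by
  rw [← m1_mul, ← cst_mul, Pm_mul_Pm]

omit [DecidableEq I] [TopologicalSpace P] in
/-- PROOF: `m1_add`, `Pp_add_Pm`, `m1_one`. -/
theorem m1_Pp_add (c : ℕ × Bs I ≃ ℕ) :
    (m1 c (cst Pp) : Fam Γ P) + m1 c (cst Pm) = 1 := by
  have h1 : (cst Pp + cst Pm : FB (Bs I) P) = 1 := FB.ext fun _ => Pp_add_Pm
  rw [← m1_add, h1, m1_one]

/-- PROOF: `m1_mul`, `Site.Pp_mul_T`. -/
theorem Site.m1_T_mul_Pm (c : ℕ × Bs I ≃ ℕ) (e : I ↪ ℕ) (s : ℝ) :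
    (m1 c (H.TT w e s) : Fam Γ P) * m1 c (cst Pm) = m1 c (cst Pp) * m1 c (H.TT w e s) := by
  rw [← m1_mul, ← m1_mul]
  exact congrArg (m1 c) (H.Pp_mul_T w e |s| (abs_nonneg s)).symm

/-- PROOF: `m1_mul`, `Site.Pm_mul_T`. -/
theorem Site.m1_Pm_mul_T (c : ℕ × Bs I ≃ ℕ) (e : I ↪ ℕ) (s : ℝ) :
    (m1 c (cst Pm) : Fam Γ P) * m1 c (H.TT w e s) = m1 c (H.TT w e s) * m1 c (cst Pp) := by
  rw [← m1_mul, ← m1_mul]
  exact congrArg (m1 c) (H.Pm_mul_T w e |s| (abs_nonneg s))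

end

end Pool.Agent.Lib.MP_aa9b81_an.Hs
end
end
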