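import Pool.Agent.Lib.MP_aa9b81_an.Mg.G013
import Pool.Agent.Lib.MP_aa9b81_an.Mg.G014
import Pool.Agent.Lib.MP_aa9b81_an.Mg.G002
import Pool.Agent.Lib.MP_aa9b81_an.Mg.G004
import Pool.Agent.Lib.MP_aa9b81_an.Mg.G010
import Pool.Agent.Lib.MP_aa9b81_an.Mg.G007
import Pool.Agent.Lib.MP_aa9b81_an.Mg.G016
import Pool.Agent.Lib.MP_aa9b81_an.Mg.G012
import Pool.Agent.Lib.MP_aa9b81_an.Mg.G008
import Pool.Agent.Lib.MP_aa9b81_an.Mg.G019

section

/-!
# Hereditary shifts, part T2c: properties of the rotated representations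
-/

open scoped ENNReal Topology ZeroAtInfty
open Function Filter Set

noncomputable section

namespace Pool.Agent.Lib.MP_aa9b81_an.Hs

open Cut

variable {Γ Z I A : Type} [Group Γ] [MulAction Γ I] [MulAction Γ Z] [TopologicalSpace Z]
    [TopologicalSpace A] {a₀ : A} [DecidableEq I] (Y : Hered Γ Z I A a₀) (w : Wt Γ I)
    [T2Space Z] [T2Space A] [CompactSpace A] [LocallyCompactSpace Z] [ContinuousConstSMul Γ Z]

private theorem T2c_closed {R : Type} [NormedRing R] {S : Set R} (hS : IsClosed S) {x : R}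
    (h : ∀ ε : ℝ, 0 < ε → ∃ y ∈ S, ‖x - y‖ ≤ ε) : x ∈ S := by
  rw [← hS.closure_eq]
  refine Metric.mem_closure_iff.2 fun ε hε => ?_
  obtain ⟨y, hy, hxy⟩ := h (ε / 2) (half_pos hε)
  refine ⟨y, hy, ?_⟩
  rw [dist_eq_norm]
  linarith

private theorem T2c_isClosed {R : Type} [NormedRing R] [NormedAlgebra ℂ R]
    {A : NonUnitalSubalgebra ℂ R} (hA : IsClosed (A : Set R)) (M : R) :
    IsClosed {X : R | X - M * X * M ∈ A} := by
  have h1 : Continuous fun X : R => X - M * X * M := by fun_prop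
  exact hA.preimage h1

/-- PROOF: `cp_induction'`: `Site.main_mem` (`TT` for `|s| = s`: `abs_of_pos`); `add_mem`; limits: `isClosed_AE` and
`‖(X - T X T) - (X' - T X' T)‖ ≤ 2 ‖X - X'‖`-like estimate with `‖m1 c T‖ ≤ 1`. -/
theorem th'_sub_mem (c : ℕ × Bs I ≃ ℕ) (e : I ↪ ℕ) (h : Ht A a₀) (φ : ℝ) {s : ℝ} (hs : 0 < s)
    (hs1 : s ≤ 1) (a : cp Γ Y.St) :
    th' Y c e h φ a - m1 c ((Y.site h).TT w e s) * th' Y c e h φ a *
      m1 c ((Y.site h).TT w e s) ∈ AE c (sact e) (Y.site h).U := by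
  set M : Fam Γ Y.St := m1 c ((Y.site h).TT w e s) with hM
  refine cp_induction' Y h (p := fun a => th' Y c e h φ a - M * th' Y c e h φ a * M ∈
    AE c (sact e) (Y.site h).U) ?_ ?_ ?_ ?_ a
  · intro L δ f hf g i j hm
    rw [th'_gen Y c e h _ hf, hM, (Y.site h).TT_eq w e hs.le]
    exact (Y.site h).main_mem w c e hf.toEx φ g i j hs hs1
  · rw [map_zero, mul_zero, zero_mul, sub_zero]
    exact zero_mem _
  · intro a b ha hb
    have h1 : th' Y c e h φ (a + b) - M * th' Y c e h φ (a + b) * M =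
        (th' Y c e h φ a - M * th' Y c e h φ a * M) +
          (th' Y c e h φ b - M * th' Y c e h φ b * M) := by
      rw [map_add, mul_add, add_mul]
      abel
    rw [h1]
    exact add_mem ha hb
  · intro a hl
    refine T2c_closed (T2c_isClosed (isClosed_AE c (sact e) (Y.site h).U) M) fun ε hε => ?_
    obtain ⟨b, hb, hab⟩ := hl ε hε
    exact ⟨_, hb, (th'_sub_le Y c e h φ a b).trans hab⟩

/-- PROOF: as `th'_sub_mem`, with `Site.sub_T_cov_T_pi_mem`. -/
theorem th'_sub_mem_pi (c : ℕ × Bs I ≃ ℕ) (e : I ↪ ℕ) (h : Ht A a₀) {s : ℝ} (hs : 0 ≤ s)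
    (hs1 : s ≤ 1) (a : cp Γ Y.St) :
    th' Y c e h (Real.pi / 2) a - m1 c ((Y.site h).TT w e s) * th' Y c e h (Real.pi / 2) a *
      m1 c ((Y.site h).TT w e s) ∈ AE c (sact e) (Y.site h).U := by
  set M : Fam Γ Y.St := m1 c ((Y.site h).TT w e s) with hM
  refine cp_induction' Y h (p := fun a => th' Y c e h (Real.pi / 2) a -
    M * th' Y c e h (Real.pi / 2) a * M ∈ AE c (sact e) (Y.site h).U) ?_ ?_ ?_ ?_ a
  · intro L δ f hf g i j hm
    rw [th'_gen Y c e h _ hf, hM]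
    exact (Y.site h).sub_T_cov_T_pi_mem w c e hf.toEx g i j hs hs1
  · rw [map_zero, mul_zero, zero_mul, sub_zero]
    exact zero_mem _
  · intro a b ha hb
    have h1 : th' Y c e h (Real.pi / 2) (a + b) - M * th' Y c e h (Real.pi / 2) (a + b) * M =
        (th' Y c e h (Real.pi / 2) a - M * th' Y c e h (Real.pi / 2) a * M) +
          (th' Y c e h (Real.pi / 2) b - M * th' Y c e h (Real.pi / 2) b * M) := by
      rw [map_add, mul_add, add_mul]
      abel
    rw [h1]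
    exact add_mem ha hb
  · intro a hl
    refine T2c_closed (T2c_isClosed (isClosed_AE c (sact e) (Y.site h).U) M) fun ε hε => ?_
    obtain ⟨b, hb, hab⟩ := hl ε hε
    exact ⟨_, hb, (th'_sub_le Y c e h (Real.pi / 2) a b).trans hab⟩

end Pool.Agent.Lib.MP_aa9b81_an.Hs
end
end

section

/-!
# Hereditary shifts, part G4d: the representation on exact functions
-/

open scoped ENNReal Topology ZeroAtInfty
open Function Filter Set

noncomputable section

namespace Pool.Agent.Lib.MP_aa9b81_an.Hs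

open Cut

variable {Γ P I : Type} [Group Γ] [TopologicalSpace P] [MulAction Γ P] [MulAction Γ I]
  [DecidableEq I] (H : Site Γ P I) (w : Wt Γ I)

private theorem G4d_continuous_cov {B : Type} [MulAction Γ B] [Nonempty B] (c : ℕ × B ≃ ℕ)
    (E : SAct Γ B) (g : Γ) (i j : ℕ) :
    Continuous fun n : FB B P => (cov c E g i j n : Fam Γ P) := by
  have h := AddMonoidHomClass.continuous_of_bound
    (AddMonoidHom.mk' (fun n : FB B P => (cov c E g i j n : Fam Γ P)) fun n n' =>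
      cov_add c E g i j n n') 1 (fun n => by
        rw [one_mul]
        exact norm_cov_le c E g i j n)
  exact h

/-- PROOF: `T (Pm n) T^g = Pp T n T^g = Pp n (T T^g)`: `m1_mul_cov`, `cov_mul_m1`, `Ad_T`, `Pp_mul_T`,
`T_mul_nf_pi`. (`cst Pm` on the left of the representation.) -/
theorem Site.T_cov_T_pi (c : ℕ × Bs I ≃ ℕ) (e : I ↪ ℕ) (f : C₀(P, ℂ)) (L : Finset I) (g : Γ)
    (i j : ℕ) (s : ℝ) :
    m1 c (H.TT w e s) * m1 c (cst Pm) * cov c (sact e) g i j (H.nf f L (Real.pi / 2)) *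
        m1 c (H.TT w e s) =
      cov c (sact e) g i j
        (cst Pp * H.nf f L (Real.pi / 2) * (H.TT w e s * H.TTg w e g s)) := by
  have h1 : H.TT w e s * cst Pm = cst Pp * H.TT w e s := (H.Pp_mul_T w e |s| (abs_nonneg s)).symm
  have h2 : H.TT w e s * H.nf f L (Real.pi / 2) = H.nf f L (Real.pi / 2) * H.TT w e s :=
    H.T_mul_nf_pi w e f L (abs_nonneg s)
  have h3 : (sact e).Ad g (H.TT w e s) = H.TTg w e g s := H.Ad_T w e g |s| (abs_nonneg s)
  rw [← m1_mul, m1_mul_cov, cov_mul_m1, h3, h1]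
  congr 1
  rw [mul_assoc (cst Pp) (H.TT w e s), h2]
  simp only [mul_assoc]

/-- PROOF: `T_cov_T_pi`, `continuousOn_TTg`; `n ↦ cov (n' * n)` is additive and bounded. -/
theorem Site.continuousOn_T_cov_T_pi (c : ℕ × Bs I ≃ ℕ) (e : I ↪ ℕ) (f : C₀(P, ℂ))
    (L : Finset I) (g : Γ) (i j : ℕ) :
    ContinuousOn (fun s => m1 c (H.TT w e s) * m1 c (cst Pm) *
      cov c (sact e) g i j (H.nf f L (Real.pi / 2)) * m1 c (H.TT w e s)) (Icc 0 1) := by
  have h0 : (fun s => m1 c (H.TT w e s) * m1 c (cst Pm) *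
      cov c (sact e) g i j (H.nf f L (Real.pi / 2)) * m1 c (H.TT w e s)) = fun s =>
      (cov c (sact e) g i j (cst Pp * H.nf f L (Real.pi / 2) *
        (H.TT w e s * H.TTg w e g s)) : Fam Γ P) := by
    funext s
    exact H.T_cov_T_pi w c e f L g i j s
  rw [h0]
  have h1 : Continuous fun n : FB (Bs I) P => (cov c (sact e) g i j n : Fam Γ P) :=
    G4d_continuous_cov c (sact e) g i j
  have h2 := H.continuousOn_TTg w e g
  exact h1.comp_continuousOn (continuousOn_const.mul h2)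

end Pool.Agent.Lib.MP_aa9b81_an.Hs
end
end

section

/-!
# Hereditary shifts, part T2: properties of the rotated representations
-/

open scoped ENNReal Topology ZeroAtInfty
open Function Filter Set

noncomputable section

namespace Pool.Agent.Lib.MP_aa9b81_an.Hs

open Cut

variable {Γ Z I A : Type} [Group Γ] [MulAction Γ I] [MulAction Γ Z] [TopologicalSpace Z]
    [TopologicalSpace A] {a₀ : A} [DecidableEq I] (Y : Hered Γ Z I A a₀) (w : Wt Γ I)
    [T2Space Z] [T2Space A] [CompactSpace A] [LocallyCompactSpace Z] [ContinuousConstSMul Γ Z]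

private theorem T2_norm_TT_le {P : Type} [TopologicalSpace P] [MulAction Γ P]
    (H : Site Γ P I) (e : I ↪ ℕ) (s : ℝ) : ‖H.TT w e s‖ ≤ 1 := by
  rw [FB.norm_le_iff zero_le_one]
  intro p
  have h1 := norm_Cl_le e (H.CB_uu w (abs_nonneg s) p)
  have h2 := norm_Es_le (H.supp p)
  have h3 := norm_nonneg (Cl e (H.uu w |s| p))
  have h4 := norm_nonneg (Es (H.supp p) : BL (Bs I))
  change ‖Cl e (H.uu w |s| p) * Es (H.supp p)‖ ≤ 1
  exact (norm_mul_le _ _).trans (by nlinarith)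

/-- PROOF: `cp_induction'`: `Site.continuousOn_T_cov_T_pi` with `th'_gen`; sums; uniform limits of continuous functions on
`[0,1]` (`continuousOn_of_uniform_approx_of_continuousOn`; `‖m1 c T‖ ≤ 1`, `‖m1 c (cst Pm)‖ ≤ ‖Pm‖`). -/
theorem continuousOn_T_th'_T (c : ℕ × Bs I ≃ ℕ) (e : I ↪ ℕ) (h : Ht A a₀) (a : cp Γ Y.St) :
    ContinuousOn (fun s => m1 c ((Y.site h).TT w e s) * m1 c (cst Pm) *
      th' Y c e h (Real.pi / 2) a * m1 c ((Y.site h).TT w e s)) (Icc 0 1) := by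
  refine cp_induction' Y h (p := fun a => ContinuousOn (fun s => m1 c ((Y.site h).TT w e s) *
    m1 c (cst Pm) * th' Y c e h (Real.pi / 2) a * m1 c ((Y.site h).TT w e s)) (Icc 0 1))
    ?_ ?_ ?_ ?_ a
  · intro L δ f hf g i j hm
    rw [th'_gen Y c e h _ hf]
    exact (Y.site h).continuousOn_T_cov_T_pi w c e f L g i j
  · simp only [map_zero, mul_zero, zero_mul]
    exact continuousOn_const
  · intro a b ha hb
    have h1 : (fun s => m1 c ((Y.site h).TT w e s) * m1 c (cst Pm) *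
        th' Y c e h (Real.pi / 2) (a + b) * m1 c ((Y.site h).TT w e s)) =
        fun s => m1 c ((Y.site h).TT w e s) * m1 c (cst Pm) *
          th' Y c e h (Real.pi / 2) a * m1 c ((Y.site h).TT w e s) +
          m1 c ((Y.site h).TT w e s) * m1 c (cst Pm) *
          th' Y c e h (Real.pi / 2) b * m1 c ((Y.site h).TT w e s) := by
      funext s
      rw [map_add, mul_add, add_mul]
    rw [h1]
    exact ha.add hb
  · intro a hl
    refine continuousOn_of_uniform_approx_of_continuousOn fun u hu => ?_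
    obtain ⟨ε, hε, hu⟩ := Metric.mem_uniformity_dist.1 hu
    set N : Fam Γ Y.St := m1 c (cst Pm) with hN
    have hD : 0 < ‖N‖ + 1 := by
      have := norm_nonneg N
      linarith
    obtain ⟨b, hb, hab⟩ := hl (ε / 2 / (‖N‖ + 1)) (by positivity)
    refine ⟨_, hb, fun s _ => hu ?_⟩
    rw [dist_eq_norm]
    have h1 := (th'_sub_le Y c e h (Real.pi / 2) a b).trans hab
    set X := th' Y c e h (Real.pi / 2) a
    set X' := th' Y c e h (Real.pi / 2) b
    set M : Fam Γ Y.St := m1 c ((Y.site h).TT w e s) with hM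
    have hM1 : ‖M‖ ≤ 1 := (norm_m1_le c _).trans (T2_norm_TT_le w (Y.site h) e s)
    have h3 : M * N * X * M - M * N * X' * M = M * (N * (X - X')) * M := by
      rw [mul_sub, mul_sub, sub_mul]
      simp only [mul_assoc]
    rw [h3]
    have h4 := norm_mul_le (M * (N * (X - X'))) M
    have h5 := norm_mul_le M (N * (X - X'))
    have h6 := norm_mul_le N (X - X')
    have h7 := norm_nonneg M
    have h8 := norm_nonneg N
    have h9 := norm_nonneg (X - X')
    have h10 : ‖X - X'‖ * (‖N‖ + 1) ≤ ε / 2 := by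
      rwa [le_div_iff₀ hD] at h1
    have h11 : ‖M * (N * (X - X'))‖ ≤ ‖N‖ * ‖X - X'‖ := by
      calc ‖M * (N * (X - X'))‖ ≤ ‖M‖ * ‖N * (X - X')‖ := h5
        _ ≤ 1 * ‖N * (X - X')‖ := mul_le_mul_of_nonneg_right hM1 (norm_nonneg _)
        _ ≤ ‖N‖ * ‖X - X'‖ := by rw [one_mul]; exact h6
    have h12 : ‖M * (N * (X - X')) * M‖ ≤ ‖N‖ * ‖X - X'‖ := by
      calc ‖M * (N * (X - X')) * M‖ ≤ ‖M * (N * (X - X'))‖ * ‖M‖ := h4
        _ ≤ ‖M * (N * (X - X'))‖ * 1 := mul_le_mul_of_nonneg_left hM1 (norm_nonneg _)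
        _ ≤ ‖N‖ * ‖X - X'‖ := by rw [mul_one]; exact h11
    nlinarith

omit [TopologicalSpace A] [T2Space Z] [T2Space A] [CompactSpace A] [LocallyCompactSpace Z] [ContinuousConstSMul Γ Z] [MulAction Γ Z] [TopologicalSpace Z] [Group Γ] [MulAction Γ I] [DecidableEq I] in
/-- The injection `k ↦ c(k, vac)`. -/
theorem inj_vac (c : ℕ × Bs I ≃ ℕ) : Injective fun k => c (k, Bs.vac) := fun k k' h => by
  simpa using c.injective h

/-- PROOF: `cp_induction'`: `Site.sub_T_cov_T_zero`, `co_gen`; both sides are additive and bounded (`norm_co_le`). -/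
theorem th'_sub_zero (c : ℕ × Bs I ≃ ℕ) (e : I ↪ ℕ) (h : Ht A a₀) (a : cp Γ Y.St) :
    th' Y c e h (Real.pi / 2) a - m1 c ((Y.site h).TT w e 0) * th' Y c e h (Real.pi / 2) a *
      m1 c ((Y.site h).TT w e 0) = co (inj_vac c) a.1 := by
  set M : Fam Γ Y.St := m1 c ((Y.site h).TT w e 0) with hM
  refine cp_induction' Y h (p := fun a => th' Y c e h (Real.pi / 2) a -
    M * th' Y c e h (Real.pi / 2) a * M = co (inj_vac c) a.1) ?_ ?_ ?_ ?_ a
  · intro L δ f hf g i j hm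
    rw [th'_gen Y c e h _ hf, hM, (Y.site h).sub_T_cov_T_zero w c e f L g i j, co_gen]
  · rw [map_zero, mul_zero, zero_mul, sub_zero]
    exact (map_zero (co (inj_vac c) : Fam Γ Y.St →ₙ+* Fam Γ Y.St)).symm
  · intro a b ha hb
    have h1 : th' Y c e h (Real.pi / 2) (a + b) - M * th' Y c e h (Real.pi / 2) (a + b) * M =
        (th' Y c e h (Real.pi / 2) a - M * th' Y c e h (Real.pi / 2) a * M) +
          (th' Y c e h (Real.pi / 2) b - M * th' Y c e h (Real.pi / 2) b * M) := by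
      rw [map_add, mul_add, add_mul]
      abel
    rw [h1, ha, hb]
    exact (map_add (co (inj_vac c) : Fam Γ Y.St →ₙ+* Fam Γ Y.St) a.1 b.1).symm
  · intro a hl
    rw [← sub_eq_zero, ← norm_le_zero_iff]
    refine le_of_forall_pos_le_add fun ε hε => ?_
    have hM1 : ‖M‖ ≤ 1 := (norm_m1_le c _).trans (T2_norm_TT_le w (Y.site h) e 0)
    obtain ⟨b, hb, hab⟩ := hl (ε / 3) (by positivity)
    have h1 := (th'_sub_le Y c e h (Real.pi / 2) a b).trans hab
    have h2 := norm_co_le (inj_vac c) (a.1 - b.1)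
    rw [map_sub] at h2
    set X := th' Y c e h (Real.pi / 2) a
    set X' := th' Y c e h (Real.pi / 2) b
    have h3 : X - M * X * M - co (inj_vac c) a.1 = (X - X') - M * (X - X') * M -
        (co (inj_vac c) a.1 - co (inj_vac c) b.1) := by
      rw [← hb, mul_sub, sub_mul]
      abel
    rw [h3]
    have h4 := norm_mul_le (M * (X - X')) M
    have h5 := norm_mul_le M (X - X')
    have h7 := norm_nonneg M
    have h9 := norm_nonneg (X - X')
    have h11 : ‖M * (X - X')‖ ≤ ‖X - X'‖ := by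
      calc ‖M * (X - X')‖ ≤ ‖M‖ * ‖X - X'‖ := h5
        _ ≤ 1 * ‖X - X'‖ := mul_le_mul_of_nonneg_right hM1 (norm_nonneg _)
        _ = _ := one_mul _
    have h12 : ‖M * (X - X') * M‖ ≤ ‖X - X'‖ := by
      calc ‖M * (X - X') * M‖ ≤ ‖M * (X - X')‖ * ‖M‖ := h4
        _ ≤ ‖M * (X - X')‖ * 1 := mul_le_mul_of_nonneg_left hM1 (norm_nonneg _)
        _ ≤ _ := by rw [mul_one]; exact h11
    have h13 := norm_sub_le ((X - X') - M * (X - X') * M)
      (co (inj_vac c) a.1 - co (inj_vac c) b.1)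
    have h14 := norm_sub_le (X - X') (M * (X - X') * M)
    linarith

end Pool.Agent.Lib.MP_aa9b81_an.Hs
end
end

section

/-!
# Hereditary shifts, part T2b: properties of the rotated representations
-/

open scoped ENNReal Topology ZeroAtInfty
open Function Filter Set

noncomputable section

namespace Pool.Agent.Lib.MP_aa9b81_an.Hs

open Cut

variable {Γ Z I A : Type} [Group Γ] [MulAction Γ I] [MulAction Γ Z] [TopologicalSpace Z]
    [TopologicalSpace A] {a₀ : A} [DecidableEq I] (Y : Hered Γ Z I A a₀) (w : Wt Γ I)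
    [T2Space Z] [T2Space A] [CompactSpace A] [LocallyCompactSpace Z] [ContinuousConstSMul Γ Z]

/-- PROOF: `cp_induction'`: `th'_gen`, `Site.Mlt_nf`, `Mlt.isMul_cov` (`Site.isOpen_U`, `Site.smul_mem_U`);
`IsMul.add`; `IsMul.of_limit`, `th'_sub_le`, `isClosed_AE`. -/
theorem isMul_th' (c : ℕ × Bs I ≃ ℕ) (e : I ↪ ℕ) (h : Ht A a₀) (φ : ℝ) (a : cp Γ Y.St) :
    IsMul (AE c (sact e) (Y.site h).U) (th' Y c e h φ a) := by
  refine cp_induction' Y h (p := fun a => IsMul (AE c (sact e) (Y.site h).U)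
    (th' Y c e h φ a)) ?_ ?_ ?_ ?_ a
  · intro L δ f hf g i j hm
    rw [th'_gen Y c e h _ hf]
    exact Mlt.isMul_cov c (sact e) (fun b => (Y.site h).isOpen_U b)
      (fun g b p => (Y.site h).smul_mem_U g b p) ((Y.site h).Mlt_nf hf.toEx φ) g i j
  · rw [map_zero]
    exact IsMul.of_mem (zero_mem _)
  · intro a b ha hb
    rw [map_add]
    exact ha.add hb
  · intro a hl
    refine IsMul.of_limit (isClosed_AE _ _ _) fun ε hε => ?_
    obtain ⟨b, hb, hab⟩ := hl ε hε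
    exact ⟨_, hb, (th'_sub_le Y c e h φ a b).trans hab⟩

/-- PROOF: `cp_induction'`: `Site.Pp_cov_nf`; limits: the equation is closed (`eq_of_forall_dist_le`, or: `‖X‖ ≤ ε` for all
`ε > 0` gives `X = 0`). -/
theorem Pp_mul_th' (c : ℕ × Bs I ≃ ℕ) (e : I ↪ ℕ) (h : Ht A a₀) (φ : ℝ) (a : cp Γ Y.St) :
    m1 c (cst Pp) * th' Y c e h φ a = th' Y c e h φ a * m1 c (cst Pp) := by
  refine cp_induction' Y h (p := fun a => m1 c (cst Pp) * th' Y c e h φ a =
    th' Y c e h φ a * m1 c (cst Pp)) ?_ ?_ ?_ ?_ a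
  · intro L δ f hf g i j hm
    rw [th'_gen Y c e h _ hf]
    exact (Y.site h).Pp_cov_nf c e f L φ g i j
  · rw [map_zero, mul_zero, zero_mul]
  · intro a b ha hb
    rw [map_add, mul_add, add_mul, ha, hb]
  · intro a hl
    rw [← sub_eq_zero, ← norm_le_zero_iff]
    refine le_of_forall_pos_le_add fun ε hε => ?_
    set M : Fam Γ Y.St := m1 c (cst Pp) with hM
    have hD : 0 < 2 * ‖M‖ + 1 := by
      have := norm_nonneg M
      linarith
    obtain ⟨b, hb, hab⟩ := hl (ε / (2 * ‖M‖ + 1)) (by positivity)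
    have h1 := (th'_sub_le Y c e h φ a b).trans hab
    set X := th' Y c e h φ a
    set X' := th' Y c e h φ b
    have h3 : M * X - X * M = M * (X - X') - (X - X') * M := by
      rw [mul_sub, sub_mul, hb]
      abel
    rw [h3]
    have h4 := norm_mul_le M (X - X')
    have h5 := norm_mul_le (X - X') M
    have h6 := norm_nonneg (X - X')
    have h7 := norm_nonneg M
    have h8 : ‖X - X'‖ * (2 * ‖M‖ + 1) ≤ ε := by
      rwa [le_div_iff₀ hD] at h1
    refine (norm_sub_le _ _).trans ?_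
    nlinarith

/-- PROOF: `cp_induction'`: `Site.EP_cov_nf`. -/
theorem EP_mul_th' (c : ℕ × Bs I ≃ ℕ) (e : I ↪ ℕ) (h : Ht A a₀) (φ : ℝ) (a : cp Γ Y.St) :
    m1 c (Y.site h).EP * th' Y c e h φ a = th' Y c e h φ a := by
  refine cp_induction' Y h (p := fun a => m1 c (Y.site h).EP * th' Y c e h φ a =
    th' Y c e h φ a) ?_ ?_ ?_ ?_ a
  · intro L δ f hf g i j hm
    rw [th'_gen Y c e h _ hf]
    exact (Y.site h).EP_cov_nf c e hf.toEx φ g i j
  · rw [map_zero, mul_zero]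
  · intro a b ha hb
    rw [map_add, mul_add, ha, hb]
  · intro a hl
    rw [← sub_eq_zero, ← norm_le_zero_iff]
    refine le_of_forall_pos_le_add fun ε hε => ?_
    set M : Fam Γ Y.St := m1 c (Y.site h).EP with hM
    have hD : 0 < ‖M‖ + 1 := by
      have := norm_nonneg M
      linarith
    obtain ⟨b, hb, hab⟩ := hl (ε / (‖M‖ + 1)) (by positivity)
    have h1 := (th'_sub_le Y c e h φ a b).trans hab
    set X := th' Y c e h φ a
    set X' := th' Y c e h φ b
    have h3 : M * X - X = M * (X - X') - (X - X') := by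
      rw [mul_sub, hb]
      abel
    rw [h3]
    have h4 := norm_mul_le M (X - X')
    have h6 := norm_nonneg (X - X')
    have h7 := norm_nonneg M
    have h8 : ‖X - X'‖ * (‖M‖ + 1) ≤ ε := by
      rwa [le_div_iff₀ hD] at h1
    refine (norm_sub_le _ _).trans ?_
    nlinarith

end Pool.Agent.Lib.MP_aa9b81_an.Hs
end
end

section

/-!
# Rotated sites, part N6: the cycle of a local representation
-/

open scoped ENNReal Topology ZeroAtInfty
open Function Filter Set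

noncomputable section

set_option linter.unusedSectionVars false

namespace Pool.Agent.Lib.MP_aa9b81_an.Rc

open Cut Hs

variable {Γ C Y A : Type} [Group Γ] [MulAction Γ C] [DecidableEq C] [TopologicalSpace Y]
  [MulAction Γ Y] [TopologicalSpace A] [MulAction Γ A] [ContinuousConstSMul Γ A]
  [T2Space Y] [LocallyCompactSpace Y] [ContinuousConstSMul Γ Y] [T2Space A] [LocallyCompactSpace A]

/-- The operators have finite rows and columns and are even. -/
structure LRep.Ok {e : C ↪ ℕ} (L : LRep (sact e : SAct Γ (Bs C)) A) : Prop where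
  fin : ∀ x ∈ L.R, FinM x.2
  even : ∀ x ∈ L.R, Commute x.2 (Pp : BL (Bs C))

variable {e : C ↪ ℕ} (L : LRep (sact e : SAct Γ (Bs C)) A)

theorem N6_lim {R : Type} [NormedRing R] {x : R} {K : ℝ} (hK : 0 ≤ K)
    (h : ∀ ε : ℝ, 0 < ε → ‖x‖ ≤ K * ε) : x = 0 := by
  rw [← norm_le_zero_iff]
  apply le_of_forall_pos_le_add
  intro ε hε
  have h1 := h (ε / (K + 1)) (by positivity)
  refine h1.trans ?_
  rw [zero_add, mul_div_assoc', div_le_iff₀ (by positivity)]
  nlinarith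

/-- PROOF: `Th_induction`. For a generator: `m1 Pp * cov n = cov (cst Pp * n)`, `cov n * m1 Pp = cov (n * Ad g (cst Pp)) = cov (n * cst Pp)` (`W_mul_Pp`,
`SAct.W_mul_inv`), and `X` commutes with `Pp`. Limits: `norm_Th_le`. -/
theorem LRep.Pp_mul_Th (hL : L.Ok) (c : ℕ × Bs C ≃ ℕ) (a : cp Γ (Y × A)) :
    m1 c (cst Pp) * L.Th c a = L.Th c a * m1 c (cst Pp) := by
  refine L.Th_induction (p := fun a => m1 c (cst Pp) * L.Th c a = L.Th c a * m1 c (cst Pp))
    ?_ ?_ ?_ ?_ a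
  · intro d hd h
    rw [L.Th_src c hd h]
    unfold LDat.tgt
    rw [m1_mul_cov, cov_mul_m1]
    congr 1
    apply FB.ext
    intro y
    have h1 : (sact e : SAct Γ (Bs C)).W d.g * Pp * (sact e : SAct Γ (Bs C)).W d.g⁻¹ = Pp := by
      rw [W_mul_Pp, mul_assoc, SAct.W_mul_inv, mul_one]
    change Pp * (d.h y • d.x.2) = (d.h y • d.x.2) *
      ((sact e : SAct Γ (Bs C)).W d.g * Pp * (sact e : SAct Γ (Bs C)).W d.g⁻¹)
    rw [h1, mul_smul_comm, smul_mul_assoc, (hL.even d.x hd).eq]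
  · rw [map_zero, mul_zero, zero_mul]
  · intro a b ha hb
    rw [map_add, mul_add, add_mul, ha, hb]
  · intro a ha
    rw [← sub_eq_zero]
    refine N6_lim (K := 2 * ‖(m1 c (cst Pp) : Fam Γ Y)‖) (by positivity) fun ε hε => ?_
    obtain ⟨b, hb, hab⟩ := ha ε hε
    have h1 : ‖L.Th c a - L.Th c b‖ ≤ ε := by
      rw [← map_sub]
      exact (L.norm_Th_le c (a - b)).trans hab
    have h2 : m1 c (cst Pp) * L.Th c a - L.Th c a * m1 c (cst Pp) =
        m1 c (cst Pp) * (L.Th c a - L.Th c b) - (L.Th c a - L.Th c b) * m1 c (cst Pp) := by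
      rw [mul_sub, sub_mul, hb]
      abel
    rw [h2]
    refine (norm_sub_le _ _).trans ?_
    have h3 : ‖(m1 c (cst Pp) : Fam Γ Y) * (L.Th c a - L.Th c b)‖ ≤
        ‖(m1 c (cst Pp) : Fam Γ Y)‖ * ε :=
      (norm_mul_le _ _).trans (mul_le_mul_of_nonneg_left h1 (norm_nonneg _))
    have h4 : ‖(L.Th c a - L.Th c b) * (m1 c (cst Pp) : Fam Γ Y)‖ ≤
        ε * ‖(m1 c (cst Pp) : Fam Γ Y)‖ :=
      (norm_mul_le _ _).trans (mul_le_mul_of_nonneg_right h1 (norm_nonneg _))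
    calc _ ≤ ‖(m1 c (cst Pp) : Fam Γ Y)‖ * ε + ε * ‖(m1 c (cst Pp) : Fam Γ Y)‖ := add_le_add h3 h4
      _ = _ := by ring

/-- PROOF: `m1_mul`, `Pp_mul_Pp`. -/
theorem m1_Pp_mul (c : ℕ × Bs C ≃ ℕ) :
    (m1 c (cst Pp) * m1 c (cst Pp) : Fam Γ Y) = m1 c (cst Pp) := by
  rw [← m1_mul]
  congr 1
  apply FB.ext
  intro y
  change Pp * Pp = Pp
  exact Pp_mul_Pp

theorem m1_Pm_mul (c : ℕ × Bs C ≃ ℕ) :
    (m1 c (cst Pm) * m1 c (cst Pm) : Fam Γ Y) = m1 c (cst Pm) := by
  rw [← m1_mul]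
  congr 1
  apply FB.ext
  intro y
  change Pm * Pm = Pm
  exact Pm_mul_Pm

/-- PROOF: `m1_add`, `Pp_add_Pm`, `m1_one`. -/
theorem m1_Pp_add (c : ℕ × Bs C ≃ ℕ) : (m1 c (cst Pp) + m1 c (cst Pm) : Fam Γ Y) = 1 := by
  rw [← m1_add, ← m1_one c]
  congr 1
  apply FB.ext
  intro y
  change Pp + Pm = 1
  exact Pp_add_Pm

/-- PROOF: `m1_mul`, `Pp_mul_T1`. -/
theorem m1_T1_mul_Pm (w : Wt Γ C) (c : ℕ × Bs C ≃ ℕ) :
    (m1 c (cst (T1 w e)) * m1 c (cst Pm) : Fam Γ Y) = m1 c (cst Pp) * m1 c (cst (T1 w e)) := by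
  rw [← m1_mul, ← m1_mul]
  congr 1
  apply FB.ext
  intro y
  change T1 w e * Pm = Pp * T1 w e
  exact (Pp_mul_T1 w e).symm

theorem m1_Pm_mul_T1 (w : Wt Γ C) (c : ℕ × Bs C ≃ ℕ) :
    (m1 c (cst Pm) * m1 c (cst (T1 w e)) : Fam Γ Y) = m1 c (cst (T1 w e)) * m1 c (cst Pp) := by
  rw [← m1_mul, ← m1_mul]
  congr 1
  apply FB.ext
  intro y
  change Pm * T1 w e = T1 w e * Pp
  exact Pm_mul_T1 w e

theorem N6_Pv_mul_Pm : (Hs.Pv * Pm : BL (Bs C)) = 0 := by
  have hb : ∀ b : Bs C, ‖(if b.F = ∅ then (1 : ℂ) else 0)‖ ≤ 1 := fun b => by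
    split_ifs <;> simp
  apply ContinuousLinearMap.ext
  intro ξ
  ext b
  change (Hs.Pv (Pm ξ) : Bs C → ℂ) b = 0
  rw [Pv_eq, dia_apply zero_le_one hb, Pm_apply]
  by_cases h : b.F = ∅
  · have h1 : b.S = ∅ := Finset.subset_empty.1 (h ▸ b.sub)
    rw [h1, Finset.card_empty, if_pos Even.zero, mul_zero]
  · rw [if_neg h, zero_mul]

/-- PROOF: `T1 * T1 * Pm = (1 - Pv) * Pm = Pm` (`T1_mul_T1`; `Pv * Pm = 0`: `vac` is even). -/
theorem m1_T1_T1_Pm (w : Wt Γ C) (c : ℕ × Bs C ≃ ℕ) :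
    (m1 c (cst (T1 w e)) * m1 c (cst (T1 w e)) * m1 c (cst Pm) : Fam Γ Y) = m1 c (cst Pm) := by
  rw [← m1_mul, ← m1_mul]
  congr 1
  apply FB.ext
  intro y
  change T1 w e * T1 w e * Pm = Pm
  rw [T1_mul_T1, sub_mul, one_mul, N6_Pv_mul_Pm, sub_zero]

/-- The cycle of a local representation. -/
def LRep.cyc (hL : L.Ok) (w : Wt Γ C) (c : ℕ × Bs C ≃ ℕ) : Cyc (cp Γ (Y × A)) (Fam Γ Y) where
  Θ := L.Th c
  Pe := m1 c (cst Pp)
  Qo := m1 c (cst Pm)
  T := m1 c (cst (T1 w e))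
  hPP := m1_Pp_mul c
  hQQ := m1_Pm_mul c
  hPQ := m1_Pp_add c
  hPΘ := L.Pp_mul_Th hL c
  hTQ := m1_T1_mul_Pm w c
  hQT := m1_Pm_mul_T1 w c
  hT a := by rw [← mul_assoc, m1_T1_T1_Pm]

end Pool.Agent.Lib.MP_aa9b81_an.Rc
end
end
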