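import Pool.Agent.Lib.MP_aa9b81_an.Mg.G010
import Pool.Agent.Lib.MP_aa9b81_an.Mg.G016
import Pool.Agent.Lib.MP_aa9b81_an.Mg.G008
import Pool.Agent.Lib.MP_aa9b81_an.Mg.G014
import Pool.Agent.Lib.MP_aa9b81_an.Mg.G002
import Pool.Agent.Lib.MP_aa9b81_an.Mg.G004
import Pool.Agent.Lib.MP_aa9b81_an.Mg.G011
import Pool.Agent.Lib.MP_aa9b81_an.Mg.G019
import Pool.Agent.Lib.MP_aa9b81_an.Mg.G013
import Pool.Agent.Lib.MP_aa9b81_an.Mg.G015

section

/-!
# The machine, part C2: the commutators of a representation are compact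
-/

open scoped ENNReal Topology ZeroAtInfty
open Function

noncomputable section

namespace Pool.Agent.Lib.MP_aa9b81_an.Mc

open Cut Hs

variable {Γ X P I : Type} [Group Γ] [TopologicalSpace X] [MulAction Γ X] [TopologicalSpace P]
  [MulAction Γ P] [MulAction Γ I] [DecidableEq I] {c : ℕ × Bs I ≃ ℕ} {e : I ↪ ℕ}

variable [ContinuousConstSMul Γ X] [ContinuousConstSMul Γ P] [T2Space P]

/-- PROOF: `Rp.ind ρ.dense`: `isMul_cov_cp`, `MZ.mlt`; `IsMul.add`; `IsMul.of_limit`, `Rp0.sub_le`, `Cut.isClosed_cp`. -/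
theorem Rp0.isMul (ρ : Rp0 Γ X P I c e) (a : cp Γ X) : IsMul (cp Γ P) (ρ.Θ a) := by
  revert a
  refine Rp.ind ρ.dense ?_ ?_ ?_ ?_
  · intro f hf g i j hm
    rw [ρ.onGen f hf g i j hm]
    exact isMul_cov_cp c (sact e) (ρ.mz f hf).mlt g i j
  · rw [map_zero]
    exact IsMul.of_mem (zero_mem _)
  · intro a b ha hb
    rw [map_add]
    exact ha.add hb
  · intro a ha
    refine IsMul.of_limit isClosed_cp fun ε hε => ?_
    obtain ⟨b, hb, hab⟩ := ha ε hε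
    exact ⟨_, hb, (ρ.sub_le a b).trans hab⟩

omit [ContinuousConstSMul Γ P] [T2Space P] in
/-- PROOF: `Rp.ind ρ.dense`: `m1_mul_cov`, `cov_mul_m1`, `Ad_cst_Pp`, `ρ.par`; sums; limits: `‖X‖ ≤ ε` for all `ε > 0`
gives `X = 0`. -/
theorem Rp0.Pp_mul (ρ : Rp0 Γ X P I c e) (a : cp Γ X) :
    m1 c (cst Pp) * ρ.Θ a = ρ.Θ a * m1 c (cst Pp) := by
  obtain ⟨τ, hτ⟩ : ∃ τ : Fam Γ P, τ = m1 c (cst Pp) := ⟨_, rfl⟩
  rw [← hτ]
  revert a
  refine Rp.ind ρ.dense ?_ ?_ ?_ ?_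
  · intro f hf g i j hm
    rw [ρ.onGen f hf g i j hm, hτ, m1_mul_cov, cov_mul_m1, Ad_cst_Pp, ρ.par f hf]
  · rw [map_zero, mul_zero, zero_mul]
  · intro a b ha hb
    rw [map_add, mul_add, add_mul, ha, hb]
  · intro a ha
    have h1 : ∀ ε : ℝ, 0 < ε → ‖τ * ρ.Θ a - ρ.Θ a * τ‖ ≤ ε := by
      intro ε hε
      have hM : 0 < 2 * ‖τ‖ + 1 := by positivity
      obtain ⟨b, hb, hab⟩ := ha (ε / (2 * ‖τ‖ + 1)) (by positivity)
      have h2 : τ * ρ.Θ a - ρ.Θ a * τ = τ * (ρ.Θ a - ρ.Θ b) - (ρ.Θ a - ρ.Θ b) * τ := by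
        rw [mul_sub, sub_mul, hb]
        abel
      have h3 := (ρ.sub_le a b).trans hab
      rw [h2]
      have h4 := norm_sub_le (τ * (ρ.Θ a - ρ.Θ b)) ((ρ.Θ a - ρ.Θ b) * τ)
      have h5 := norm_mul_le τ (ρ.Θ a - ρ.Θ b)
      have h6 := norm_mul_le (ρ.Θ a - ρ.Θ b) τ
      have h7 : ‖τ‖ * ‖ρ.Θ a - ρ.Θ b‖ ≤ ‖τ‖ * (ε / (2 * ‖τ‖ + 1)) :=
        mul_le_mul_of_nonneg_left h3 (norm_nonneg _)
      have h8 : (2 * ‖τ‖) * (ε / (2 * ‖τ‖ + 1)) ≤ ε := by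
        rw [mul_div_assoc', div_le_iff₀ hM]
        nlinarith
      have h9 : ‖ρ.Θ a - ρ.Θ b‖ * ‖τ‖ = ‖τ‖ * ‖ρ.Θ a - ρ.Θ b‖ := mul_comm _ _
      linarith
    have h2 : ‖τ * ρ.Θ a - ρ.Θ a * τ‖ ≤ 0 := le_of_forall_pos_le_add fun ε hε => by
      rw [zero_add]
      exact h1 ε hε
    exact sub_eq_zero.mp (norm_le_zero_iff.mp h2)

end Pool.Agent.Lib.MP_aa9b81_an.Mc
end
end

section

/-!
# The machine, part C3: the cycle of a representation
-/

open scoped ENNReal Topology ZeroAtInfty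
open Function Set

noncomputable section

namespace Pool.Agent.Lib.MP_aa9b81_an.Mc

open Cut Hs

section

variable {Γ P I : Type} [Group Γ] [MulAction Γ P] [MulAction Γ I] [DecidableEq I]
  {c : ℕ × Bs I ≃ ℕ} {e : I ↪ ℕ}

/-- PROOF: `m1_mul`, `Hs.cst_mul`, `Pp_mul_Tc`. -/
theorem m1_Tc_mul_Pm (w : Wt Γ I) (s : ℝ) :
    (m1 c (cst (Tc w e s)) : Fam Γ P) * m1 c (cst Pm) = m1 c (cst Pp) * m1 c (cst (Tc w e s)) := by
  rw [← m1_mul, ← Hs.cst_mul, ← m1_mul, ← Hs.cst_mul, Pp_mul_Tc]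

/-- PROOF: `m1_mul`, `Hs.cst_mul`, `Pm_mul_Tc`. -/
theorem m1_Pm_mul_Tc (w : Wt Γ I) (s : ℝ) :
    (m1 c (cst Pm) : Fam Γ P) * m1 c (cst (Tc w e s)) = m1 c (cst (Tc w e s)) * m1 c (cst Pp) := by
  rw [← m1_mul, ← Hs.cst_mul, ← m1_mul, ← Hs.cst_mul, Pm_mul_Tc]

/-- PROOF: `m1_mul`, `Hs.cst_mul`, `Tc_mul_Tc`, `Pv_mul_Pm`: `(1 - Pv) Pm = Pm`. -/
theorem m1_Tc_Tc_Pm (w : Wt Γ I) (s : ℝ) :
    (m1 c (cst (Tc w e s)) : Fam Γ P) * m1 c (cst (Tc w e s)) * m1 c (cst Pm) =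
      m1 c (cst Pm) := by
  rw [← m1_mul, ← Hs.cst_mul, ← m1_mul, ← Hs.cst_mul, Tc_mul_Tc, sub_mul, one_mul, Pv_mul_Pm,
    sub_zero]

theorem norm_m1_Tc_le (w : Wt Γ I) (s : ℝ) : ‖(m1 c (cst (Tc w e s)) : Fam Γ P)‖ ≤ 1 := by
  refine (norm_m1_le c _).trans ((FB.norm_le_iff zero_le_one).2 fun p => ?_)
  rw [cst_apply]
  exact norm_Tc_le w e s

end

variable {Γ X P I : Type} [Group Γ] [TopologicalSpace X] [MulAction Γ X] [TopologicalSpace P]
  [MulAction Γ P] [MulAction Γ I] [DecidableEq I] {c : ℕ × Bs I ≃ ℕ} {e : I ↪ ℕ}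
  [ContinuousConstSMul Γ X]

/-- The cycle of a representation, with the deformation parameter `s`. -/
def Rp0.cyc (ρ : Rp0 Γ X P I c e) (w : Wt Γ I) (s : ℝ) : Cyc (cp Γ X) (Fam Γ P) where
  Θ := ρ.Θ
  Pe := m1 c (cst Pp)
  Qo := m1 c (cst Pm)
  T := m1 c (cst (Tc w e s))
  hPP := m1_Pp_mul c
  hQQ := m1_Pm_mul c
  hPQ := m1_Pp_add c
  hPΘ := ρ.Pp_mul
  hTQ := m1_Tc_mul_Pm w s
  hQT := m1_Pm_mul_Tc w s
  hT a := by rw [← mul_assoc, m1_Tc_Tc_Pm]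

/-- The difference map. -/
def Rp0.D (ρ : Rp0 Γ X P I c e) (w : Wt Γ I) (u : GL1 (cp Γ X)) : (Fam Γ P)ˣ := (ρ.cyc w 1).d u

/-- `D` depends only on the values of the representation. PROOF: `Units.ext`, `dU_val`, `Cyc.α_apply`, `Cyc.β_apply`. -/
theorem Rp0.D_congr {X' : Type} [TopologicalSpace X'] [MulAction Γ X'] [ContinuousConstSMul Γ X']
    (ρ : Rp0 Γ X P I c e) (ρ' : Rp0 Γ X' P I c e) (w : Wt Γ I) (u : GL1 (cp Γ X))
    (u' : GL1 (cp Γ X')) (h : ρ.Θ ⟨(u.1 : Fam Γ X) - 1, u.2.1⟩ = ρ'.Θ ⟨(u'.1 : Fam Γ X') - 1, u'.2.1⟩)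
    (h' : ρ.Θ ⟨((u.1⁻¹ : (Fam Γ X)ˣ) : Fam Γ X) - 1, u.2.2⟩ =
      ρ'.Θ ⟨((u'.1⁻¹ : (Fam Γ X')ˣ) : Fam Γ X') - 1, u'.2.2⟩) : ρ.D w u = ρ'.D w u' := by
  apply Units.ext
  have e1 : ((ρ.D w u : (Fam Γ P)ˣ) : Fam Γ P) =
      (1 + m1 c (cst Pp) * ρ.Θ ⟨(u.1 : Fam Γ X) - 1, u.2.1⟩) *
        (1 + m1 c (cst (Tc w e 1)) * m1 c (cst Pm) *
          ρ.Θ ⟨((u.1⁻¹ : (Fam Γ X)ˣ) : Fam Γ X) - 1, u.2.2⟩ * m1 c (cst (Tc w e 1))) := rfl
  have e2 : ((ρ'.D w u' : (Fam Γ P)ˣ) : Fam Γ P) =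
      (1 + m1 c (cst Pp) * ρ'.Θ ⟨(u'.1 : Fam Γ X') - 1, u'.2.1⟩) *
        (1 + m1 c (cst (Tc w e 1)) * m1 c (cst Pm) *
          ρ'.Θ ⟨((u'.1⁻¹ : (Fam Γ X')ˣ) : Fam Γ X') - 1, u'.2.2⟩ * m1 c (cst (Tc w e 1))) := rfl
  rw [e1, e2, h, h']

variable [ContinuousConstSMul Γ P] [T2Space P]

end Pool.Agent.Lib.MP_aa9b81_an.Mc
end
end

section

/-!
# The machine, part D0: the constant representation
-/

open scoped ENNReal Topology ZeroAtInfty
open Function Set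

noncomputable section

namespace Pool.Agent.Lib.MP_aa9b81_an.Mc

open Cut Hs

variable {Γ P I : Type} [Group Γ] [TopologicalSpace P] [MulAction Γ P] [MulAction Γ I]
  [DecidableEq I]

variable (Γ P I) in
omit [TopologicalSpace P] [DecidableEq I] in
/-- The constant partial map. -/
def PMc : PMap Γ P (Bs I) P := ⟨fun p _ => some p, fun _ _ _ => rfl⟩

omit [Group Γ] [MulAction Γ P] [MulAction Γ I] [DecidableEq I] in
/-- PROOF: coordinates (`dgf_apply`, `sc_apply`). -/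
theorem dgf_const (f : C₀(P, ℂ)) : dgf (fun p (_ : Bs I) => some p) f = sc f := by
  refine FB.ext fun p => ContinuousLinearMap.ext fun ξ => ?_
  refine lp.ext (funext fun b => ?_)
  rw [dgf_apply, optf_some]
  rfl

/-- PROOF: `psi_gen` for `PMc`, `dgf_const`. -/
theorem psi_const_gen (c : ℕ × Bs I ≃ ℕ) (e : I ↪ ℕ) (f : C₀(P, ℂ)) (g : Γ) (i j : ℕ) :
    psi c (sact e) (fun p (_ : Bs I) => some p) (gen f g i j) = cov c (sact e) g i j (sc f) := by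
  have h := psi_gen c (sact e) (PMc Γ P I) f g i j
  rw [show (PMc Γ P I).f = fun p (_ : Bs I) => some p from rfl, dgf_const] at h
  exact h

omit [Group Γ] [MulAction Γ P] [MulAction Γ I] in
/-- PROOF: `ker (f(p) • 1) b b' = f(p)` for `b = b'` and `0` otherwise; `‖f(p) • 1‖ = ‖f(p)‖`, and `f` vanishes at
infinity. -/
theorem MZ_sc (f : C₀(P, ℂ)) : MZ (sc f : FB (Bs I) P) := by
  have key : ∀ (p : P) (b b' : Bs I), ker ((sc f : FB (Bs I) P) p) b b' =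
      f p * (bv b' : Bs I → ℂ) b := fun p b b' => rfl
  have hbv : ∀ b b' : Bs I, b ≠ b' → (bv b' : Bs I → ℂ) b = 0 := by
    intro b b' h
    classical
    unfold bv
    rw [lp.single_apply]
    simp [h]
  refine ⟨fun b => ⟨{b}, fun p b' hb' => ?_⟩, fun b' => ⟨{b'}, fun p b hb => ?_⟩, fun b b' => ?_,
    fun ε hε => ?_⟩
  · rw [key, hbv b b' (fun h => hb' (by simp [h])), mul_zero]
  · rw [key, hbv b b' (fun h => hb (by simp [h])), mul_zero]
  · have h1 : (fun p => ker ((sc f : FB (Bs I) P) p) b b') = fun p => f p * (bv b' : Bs I → ℂ) b :=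
      funext fun p => key p b b'
    rw [h1]
    exact f.continuous.mul continuous_const
  · have h1 : ∀ᶠ p in Filter.cocompact P, dist (f p) 0 < ε :=
      (Metric.tendsto_nhds.1 (zero_at_infty f)) ε hε
    obtain ⟨K, hK, hK2⟩ := Filter.mem_cocompact.1 h1
    refine ⟨K, hK, fun p hp => ?_⟩
    have h2 : dist (f p) 0 < ε := hK2 hp
    rw [sc_apply, norm_smul, norm_one, mul_one]
    rw [dist_zero_right] at h2
    exact h2.le

omit [Group Γ] [MulAction Γ P] [MulAction Γ I] [DecidableEq I] in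
/-- PROOF: `FB.ext`: scalars are central. -/
theorem sc_comm (f : C₀(P, ℂ)) (n : FB (Bs I) P) : sc f * n = n * sc f := by
  refine FB.ext fun p => ?_
  have h : (sc f : FB (Bs I) P) p = f p • 1 := rfl
  rw [FB.mul_apply, FB.mul_apply, h, smul_mul_assoc, mul_smul_comm, one_mul, mul_one]

/-- The constant representation. -/
def Rp.const (c : ℕ × Bs I ≃ ℕ) (e : I ↪ ℕ) : Rp Γ P P I c e where
  dom := univ
  n := sc
  Θ :=
    { toFun := fun a => psi c (sact e) (fun p (_ : Bs I) => some p) a.1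
      map_mul' := fun a b => map_mul _ _ _
      map_zero' := map_zero _
      map_add' := fun a b => map_add _ _ _ }
  norm_le a := norm_psi_le c (sact e) _ a.1
  onGen f _ g i j _ := psi_const_gen c e f g i j
  dense f ε hε := ⟨[f], fun _ _ => trivial, by simpa using hε.le⟩
  mz f _ := MZ_sc f
  par f _ := (sc_comm f _).symm
  loc f _ := ⟨∅, fun _ _ _ _ => sc_comm f _⟩

theorem Rp.const_Θ (c : ℕ × Bs I ≃ ℕ) (e : I ↪ ℕ) (a : cp Γ P) :
    (Rp.const c e).Θ a = psi c (sact e) (fun p (_ : Bs I) => some p) a.1 := rfl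

end Pool.Agent.Lib.MP_aa9b81_an.Mc
end
end

section

/-!
# The machine, part D1: deformation of the weights for the constant representation
-/

open scoped ENNReal Topology ZeroAtInfty
open Function Set

noncomputable section

namespace Pool.Agent.Lib.MP_aa9b81_an.Mc

open Cut Hs

variable {Γ P I : Type} [Group Γ] [TopologicalSpace P] [MulAction Γ P] [MulAction Γ I]
  [DecidableEq I]

omit [TopologicalSpace P] [MulAction Γ P] in
/-- At `s = 0` all the weights are `1`. PROOF: as `Site.Tg_zero` (or from it, for `H1` at `PUnit.unit`, with `supp_H1`,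
`Es_univ`): `uu w 0 p F i = 1 / √|F|`, `card_gF`. -/
theorem Tg_zero (w : Wt Γ I) (e : I ↪ ℕ) (g : Γ) : Tg w e g 0 = Tc w e 0 := by
  have h := congrArg (fun a : FB (Bs I) PUnit.{1} => a PUnit.unit)
    ((H1 Γ I).Tg_zero w e g le_rfl)
  simp only [Site.Tg_apply, Site.T_apply, supp_H1, Es_univ, mul_one] at h
  have h1 : tcg w g (0 : ℝ) = (H1 Γ I).ug w g 0 PUnit.unit := by
    funext F i
    rw [tcg, abs_zero]
  have h2 : tc w (0 : ℝ) = (H1 Γ I).uu w 0 PUnit.unit := by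
    funext F i
    rw [tc, abs_zero]
  rw [Tg, Tc, h1, h2]
  exact h

omit [TopologicalSpace P] [MulAction Γ P] in
/-- PROOF: `Site.continuousOn_TTg` for `H1`, evaluated at `PUnit.unit` (a continuous map `FB → BL`); `supp_H1`, `Es_univ`:
`H1.TT w e s PUnit.unit = Tc w e s`, `H1.TTg w e g s PUnit.unit = Tg w e g s`. -/
theorem continuousOn_Tc_Tg (w : Wt Γ I) (e : I ↪ ℕ) (g : Γ) :
    ContinuousOn (fun s => Tc w e s * Tg w e g s) (Icc 0 1) := by
  have h := (H1 Γ I).continuousOn_TTg w e g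
  have hl : Continuous (fun a : FB (Bs I) PUnit.{1} => a PUnit.unit) := by
    refine continuous_iff_continuousAt.2 fun a => Metric.tendsto_nhds.2 fun ε hε => ?_
    filter_upwards [Metric.ball_mem_nhds a hε] with b hb
    rw [Metric.mem_ball, dist_eq_norm] at hb
    rw [dist_eq_norm]
    exact lt_of_le_of_lt (FB.norm_apply_le (b - a) PUnit.unit) hb
  have h2 := hl.comp_continuousOn h
  refine h2.congr fun s _ => ?_
  change Cl e (tc w s) * Cl e (tcg w g s) =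
    (Cl e ((H1 Γ I).uu w |s| PUnit.unit) * Es ((H1 Γ I).supp PUnit.unit)) *
      (Cl e ((H1 Γ I).ug w g |s| PUnit.unit) * Es ((H1 Γ I).supp PUnit.unit))
  rw [supp_H1, Es_univ, mul_one, mul_one]
  rfl

variable [ContinuousConstSMul Γ P]

end Pool.Agent.Lib.MP_aa9b81_an.Mc
end
end

section

/-!
# Rotated sites, part N5b: translations and cutting of the Clifford operator
-/

open scoped ENNReal Topology ZeroAtInfty
open Function Filter Set

noncomputable section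

set_option linter.unusedSectionVars false

namespace Pool.Agent.Lib.MP_aa9b81_an.Rc

open Cut Hs

variable {Γ C Y : Type} [Group Γ] [MulAction Γ C] [DecidableEq C] [TopologicalSpace Y]
  [MulAction Γ Y]

omit [DecidableEq C] in
theorem N5b_supp (y : Y) : (site1 Γ Y C).supp y = univ := by
  ext i
  simp [Site.supp, site1]

/-- PROOF: `h W_g T1 W_{g⁻¹}` has the coefficients `cw w (gF g⁻¹ F) (g⁻¹ i)` (`W_mul_Cl`, `SAct.W_mul_inv`), `= (site1 ..).ug w g 1` (`site1_uu`). The difference is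
`(site1 ..).clf e h ..` for the coefficients `ug - uu` (`Cl_sub`, `Es_univ`), in `KE` by `Site.clf_mem_KE`: `Decay` from `Site.decay_ug`, continuity: the
coefficients do not depend on the point. -/
theorem sx_Ad_T1_sub_mem [T2Space Y] (w : Wt Γ C) (e : C ↪ ℕ) (g : Γ) (h : C₀(Y, ℂ)) :
    (sx h ((sact e : SAct Γ (Bs C)).W g * T1 w e * (sact e : SAct Γ (Bs C)).W g⁻¹ - T1 w e) :
      FB (Bs C) Y) ∈ KE (U1 C Y) := by
  set H := site1 Γ Y C with hH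
  have hug : ∀ y, H.ug w g 1 y = fun F i => cw w (gF g⁻¹ F) (g⁻¹ • i) := by
    intro y
    funext F i
    rw [Site.ug, hH, site1_uu]
  have huu : ∀ y, H.uu w 1 y = cw w := fun y => site1_uu w y
  have hCB1 : CB (fun (F : Finset C) (i : C) => cw w (gF g⁻¹ F) (g⁻¹ • i)) 1 := (CB_cw w).smul g
  have hCB : ∀ _ : Y, CB (fun (F : Finset C) (i : C) => cw w (gF g⁻¹ F) (g⁻¹ • i) - cw w F i)
      (1 + 1) := fun _ => hCB1.sub (CB_cw w)
  have hd : H.Decay h fun (_ : Y) (F : Finset C) (i : C) =>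
      cw w (gF g⁻¹ F) (g⁻¹ • i) - cw w F i := by
    intro ε hε
    obtain ⟨𝒜, δ, hδ, hA⟩ := H.decay_ug w g hε
    refine ⟨𝒜, δ, hδ, fun p _ F hF hF' => ?_⟩
    have h1 := hA 1 zero_le_one le_rfl p F hF hF'
    rwa [hug p, huu p] at h1
  have hm := H.clf_mem_KE e hCB hd fun F i _ => continuousOn_const
  rw [hH, site1_U] at hm
  have he : (sx h ((sact e : SAct Γ (Bs C)).W g * T1 w e * (sact e : SAct Γ (Bs C)).W g⁻¹ -
      T1 w e) : FB (Bs C) Y) = (site1 Γ Y C).clf e h hCB := by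
    refine FB.ext fun y => ?_
    rw [Site.clf_apply, sx_apply, N5b_supp, Es_univ, mul_one, Cl_sub e hCB1 (CB_cw w), T1,
      W_mul_Cl e (CB_cw w) g, mul_assoc, SAct.W_mul_inv, mul_one]
  rw [he]
  exact hm

/-- PROOF: as `sx_Ad_T1_sub_mem`, with `Site.decay_uh` (`M` = the maximum of `w_i + 1`, `i ∈ L`). -/
theorem sx_T1_sub_mem [T2Space Y] (w : Wt Γ C) (e : C ↪ ℕ) (L : Finset C) (h : C₀(Y, ℂ)) :
    (sx h (T1 w e - Cl e (cwL w L)) : FB (Bs C) Y) ∈ KE (U1 C Y) := by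
  set H := site1 Γ Y C with hH
  have huh : ∀ y, H.uh w L 1 y = cwL w L := fun y => site1_uh w L y
  have huu : ∀ y, H.uu w 1 y = cw w := fun y => site1_uu w y
  have hCB : ∀ _ : Y, CB (fun (F : Finset C) (i : C) => cw w F i - cwL w L F i)
      (1 + 1) := fun _ => (CB_cw w).sub (CB_cwL w L)
  have hd : H.Decay h fun (_ : Y) (F : Finset C) (i : C) => cw w F i - cwL w L F i := by
    intro ε hε
    obtain ⟨𝒜, δ, hδ, hA⟩ := H.decay_uh w L (∑ i ∈ L, (w.w i + 1)) zero_lt_one le_rfl hε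
    refine ⟨𝒜, δ, hδ, fun p _ F hF hF' => ?_⟩
    have h0 : ∀ i ∈ L, H.W w p i ≤ ∑ i ∈ L, (w.w i + 1) := by
      intro i hi
      have h2 : H.W w p i = w.w i + 1 := by
        simp [Site.W, hH, site1]
      rw [h2]
      exact Finset.single_le_sum (f := fun i => w.w i + 1)
        (fun j _ => by have := w.one_le j; linarith) hi
    have h1 := hA p h0 F hF hF'
    rwa [huh p, huu p] at h1
  have hm := H.clf_mem_KE e hCB hd fun F i _ => continuousOn_const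
  rw [hH, site1_U] at hm
  have he : (sx h (T1 w e - Cl e (cwL w L)) : FB (Bs C) Y) = (site1 Γ Y C).clf e h hCB := by
    refine FB.ext fun y => ?_
    rw [Site.clf_apply, sx_apply, N5b_supp, Es_univ, mul_one, Cl_sub e (CB_cw w) (CB_cwL w L), T1]
  rw [he]
  exact hm

/-- The commutator with the Clifford operator is compact up to `δ`. -/
def NearT (Y : Type) [TopologicalSpace Y] (w : Wt Γ C) (e : C ↪ ℕ) (δ : ℝ) (X : BL (Bs C)) :
    Prop :=
  ∀ h : C₀(Y, ℂ), ∃ k ∈ KE (U1 C Y), ‖(sx h (X * T1 w e - T1 w e * X) : FB (Bs C) Y) - k‖ ≤ δ * ‖h‖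

/-- PROOF: `X T1 - T1 X = X (T1 - T_L) - (T1 - T_L) X` with `T_L = Cl e (cwL w L)`; `sx_T1_sub_mem`, `sx_mul`, `sx_mul'`, and `X` is a multiplier
(`FinM.mlt_cst`, `Mlt.mul_mem_KE`, `Mlt.mem_KE_mul`). -/
theorem NearT_of_comm [T2Space Y] (w : Wt Γ C) (e : C ↪ ℕ) {X : BL (Bs C)} (hX : FinM X)
    {L : Finset C} (h : Commute X (Cl e (cwL w L))) : NearT Y w e 0 X := by
  intro f
  have hU : ∀ b, IsOpen (U1 C Y b) := fun b => isOpen_univ
  have h1 : X * T1 w e - T1 w e * X =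
      X * (T1 w e - Cl e (cwL w L)) - (T1 w e - Cl e (cwL w L)) * X := by
    rw [mul_sub, sub_mul, h.eq]
    abel
  have hm := sx_T1_sub_mem (Y := Y) w e L f
  refine ⟨sx f (X * T1 w e - T1 w e * X), ?_, by simp⟩
  rw [h1, sx_sub, sx_mul', sx_mul]
  exact Submodule.sub_mem _ (hX.mlt_cst.mul_mem_KE hU hm) (hX.mlt_cst.mem_KE_mul hU hm)

/-- PROOF: `X X' T - T X X' = X (X' T - T X') + (X T - T X) X'`. -/
theorem NearT.mul [T2Space Y] {w : Wt Γ C} {e : C ↪ ℕ} {X X' : BL (Bs C)} (hX : FinM X)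
    (hX' : FinM X') {δ δ' : ℝ} (h : NearT Y w e δ X) (h' : NearT Y w e δ' X') :
    NearT Y w e (‖X‖ * δ' + δ * ‖X'‖) (X * X') := by
  intro f
  have hU : ∀ b, IsOpen (U1 C Y b) := fun b => isOpen_univ
  obtain ⟨k, hk, hk'⟩ := h f
  obtain ⟨l, hl, hl'⟩ := h' f
  refine ⟨cst X * l + k * cst X', Submodule.add_mem _ (hX.mlt_cst.mul_mem_KE hU hl)
    (hX'.mlt_cst.mem_KE_mul hU hk), ?_⟩
  have h1 : X * X' * T1 w e - T1 w e * (X * X') =
      X * (X' * T1 w e - T1 w e * X') + (X * T1 w e - T1 w e * X) * X' := by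
    noncomm_ring
  have h2 : (sx f (X * X' * T1 w e - T1 w e * (X * X')) : FB (Bs C) Y) -
      (cst X * l + k * cst X') =
      cst X * (sx f (X' * T1 w e - T1 w e * X') - l) +
        (sx f (X * T1 w e - T1 w e * X) - k) * cst X' := by
    rw [h1, sx_add, sx_mul', sx_mul, mul_sub, sub_mul]
    abel
  rw [h2]
  have h3 := norm_cst_le (Y := Y) X
  have h4 := norm_cst_le (Y := Y) X'
  calc ‖cst X * (sx f (X' * T1 w e - T1 w e * X') - l) +
        (sx f (X * T1 w e - T1 w e * X) - k) * cst X'‖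
      ≤ ‖(cst X : FB (Bs C) Y)‖ * ‖(sx f (X' * T1 w e - T1 w e * X') : FB (Bs C) Y) - l‖ +
        ‖(sx f (X * T1 w e - T1 w e * X) : FB (Bs C) Y) - k‖ * ‖(cst X' : FB (Bs C) Y)‖ :=
        (norm_add_le _ _).trans (add_le_add (norm_mul_le _ _) (norm_mul_le _ _))
    _ ≤ ‖X‖ * (δ' * ‖f‖) + (δ * ‖f‖) * ‖X'‖ := by
        refine add_le_add (mul_le_mul h3 hl' (norm_nonneg _) (norm_nonneg _)) ?_
        exact mul_le_mul hk' h4 (norm_nonneg _) ((norm_nonneg _).trans hk')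
    _ = (‖X‖ * δ' + δ * ‖X'‖) * ‖f‖ := by ring

theorem NearT.of_norm_le {w : Wt Γ C} {e : C ↪ ℕ} {X : BL (Bs C)} {δ : ℝ}
    (h : ‖X * T1 w e - T1 w e * X‖ ≤ δ) : NearT Y w e δ X := by
  intro f
  refine ⟨0, Submodule.zero_mem _, ?_⟩
  rw [sub_zero]
  refine (norm_sx_le f _).trans ?_
  rw [mul_comm]
  exact mul_le_mul_of_nonneg_right h (norm_nonneg f)

theorem NearT.smul {w : Wt Γ C} {e : C ↪ ℕ} {X : BL (Bs C)} {δ : ℝ} (h : NearT Y w e δ X)
    (z : ℂ) : NearT Y w e (‖z‖ * δ) (z • X) := by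
  intro f
  obtain ⟨k, hk, hk'⟩ := h f
  refine ⟨z • k, Submodule.smul_mem _ _ hk, ?_⟩
  have h1 : (sx f (z • X * T1 w e - T1 w e * z • X) : FB (Bs C) Y) - z • k =
      z • ((sx f (X * T1 w e - T1 w e * X) : FB (Bs C) Y) - k) := by
    refine FB.ext fun y => ?_
    rw [FB.sub_apply, FB.smul_apply, FB.smul_apply, FB.sub_apply, sx_apply, sx_apply,
      smul_mul_assoc, mul_smul_comm, smul_sub, smul_sub, smul_sub, smul_sub,
      smul_comm (f y) z, smul_comm (f y) z]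
  rw [h1, norm_smul, mul_assoc]
  exact mul_le_mul_of_nonneg_left hk' (norm_nonneg z)

/-- PROOF: with `T = T1`, `T_g = W_g T W_{g⁻¹}`, `n = sx h X`: `m1 T * cov n * m1 T = cov (cst T * n * cst T_g)` (`m1_mul_cov`, `cov_mul_m1`). And
`X - T X T_g = (X - T X T) - T X (T_g - T)`, `X - T X T = Pv X - T (X T - T X)` (`T T = 1 - Pv`). Here `h T X (T_g - T)` is in `KE`
(`sx_Ad_T1_sub_mem`, `sx_mul'`, `FinM.mlt_cst`, `Mlt.mul_mem_KE`), `h Pv X` too (`sx_Pv_mul_mem`), and `h T (X T - T X)` is in `KE` up to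
`δ ‖h‖` (`‖T‖ ≤ 1`). `cov_mem_AE`, `norm_cov_le`. -/
theorem NearT.cov [T2Space Y] [ContinuousConstSMul Γ Y] (c : ℕ × Bs C ≃ ℕ) {w : Wt Γ C}
    {e : C ↪ ℕ} {X : BL (Bs C)} (hX : FinM X) {δ : ℝ} (hδ : NearT Y w e δ X) (h : C₀(Y, ℂ)) (g : Γ)
    (i j : ℕ) : ∃ k ∈ AE c (sact e : SAct Γ (Bs C)) (U1 C Y),
      ‖(cov c (sact e) g i j (sx h X) : Fam Γ Y) -
        m1 c (cst (T1 w e)) * cov c (sact e) g i j (sx h X) * m1 c (cst (T1 w e)) - k‖ ≤
        δ * ‖h‖ := by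
  have hU : ∀ b, IsOpen (U1 C Y b) := fun b => isOpen_univ
  obtain ⟨k, hk, hk'⟩ := hδ h
  set T := T1 w e with hT
  have hTF : FinM T := FinM.Cl e (CB_cw w)
  set Tg : BL (Bs C) := (sact e : SAct Γ (Bs C)).W g * T * (sact e : SAct Γ (Bs C)).W g⁻¹ with hTg
  have hm := sx_Ad_T1_sub_mem (Y := Y) w e g h
  rw [← hT, ← hTg] at hm
  have hTT : T * T = 1 - Hs.Pv := T1_mul_T1 w e
  have h1 : X - T * X * Tg = Hs.Pv * X - T * (X * T - T * X) - T * X * (Tg - T) := by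
    have h2 : T * (X * T - T * X) = T * X * T - (1 - Hs.Pv) * X := by
      rw [mul_sub, ← hTT]
      noncomm_ring
    rw [h2, mul_sub, sub_mul, one_mul]
    abel
  have h3 : (sx h X : FB (Bs C) Y) - cst T * sx h X * (sact e : SAct Γ (Bs C)).Ad g (cst T) =
      sx h (X - T * X * Tg) := by
    refine FB.ext fun y => ?_
    rw [FB.sub_apply, FB.mul_apply, FB.mul_apply, SAct.Ad_apply, sx_apply, sx_apply, cst_apply,
      cst_apply, ← hTg, mul_smul_comm, smul_mul_assoc, smul_sub]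
  have h4 : (Hs.cov c (sact e) g i j (sx h X) : Fam Γ Y) -
        m1 c (cst T) * Hs.cov c (sact e) g i j (sx h X) * m1 c (cst T) =
      Hs.cov c (sact e) g i j (sx h (X - T * X * Tg)) := by
    rw [m1_mul_cov, cov_mul_m1, ← cov_sub, h3]
  refine ⟨Hs.cov c (sact e) g i j (sx h (Hs.Pv * X) - cst T * k - cst (T * X) * sx h (Tg - T)),
    cov_mem_AE c (sact e) (U1 C Y) g i j (Submodule.sub_mem _ (Submodule.sub_mem _
      (sx_Pv_mul_mem hX h) (hTF.mlt_cst.mul_mem_KE hU hk))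
      ((hTF.mul hX).mlt_cst.mul_mem_KE hU hm)), ?_⟩
  rw [h4, ← cov_sub]
  refine (norm_cov_le c (sact e) g i j _).trans ?_
  have h5 : (sx h (X - T * X * Tg) : FB (Bs C) Y) -
      (sx h (Hs.Pv * X) - cst T * k - cst (T * X) * sx h (Tg - T)) =
      -(cst T * (sx h (X * T - T * X) - k)) := by
    rw [h1, sx_sub, sx_sub, sx_mul' h T (X * T - T * X), sx_mul' h (T * X) (Tg - T), mul_sub]
    abel
  rw [h5, norm_neg]
  refine (norm_mul_le _ _).trans ?_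
  have h6 : ‖(cst T : FB (Bs C) Y)‖ ≤ 1 := (norm_cst_le T).trans (norm_T1_le w e)
  calc ‖(cst T : FB (Bs C) Y)‖ * ‖(sx h (X * T - T * X) : FB (Bs C) Y) - k‖
      ≤ 1 * (δ * ‖h‖) := mul_le_mul h6 hk' (norm_nonneg _) zero_le_one
    _ = δ * ‖h‖ := one_mul _

end Pool.Agent.Lib.MP_aa9b81_an.Rc
end
end

section

/-!
# Rotated sites, part N6a: estimates for the cycle
-/

open scoped ENNReal Topology ZeroAtInfty
open Function Filter Set

noncomputable section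

set_option linter.unusedSectionVars false

namespace Pool.Agent.Lib.MP_aa9b81_an.Rc

open Cut Hs

variable {Γ C Y A : Type} [Group Γ] [MulAction Γ C] [DecidableEq C] [TopologicalSpace Y]
  [MulAction Γ Y] [TopologicalSpace A] [MulAction Γ A] [ContinuousConstSMul Γ A]
  [T2Space Y] [LocallyCompactSpace Y] [ContinuousConstSMul Γ Y] [T2Space A] [LocallyCompactSpace A]

variable {e : C ↪ ℕ} (L : LRep (sact e : SAct Γ (Bs C)) A)

/-- PROOF: `Th_induction`: generators by `Mlt.isMul_cov`, `FinM.mlt`; sums; limits `IsMul.of_limit`, `isClosed_AE`, `norm_Th_le` (for `a - b`). -/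
theorem LRep.isMul_Th (hL : L.Ok) (c : ℕ × Bs C ≃ ℕ) (a : cp Γ (Y × A)) :
    IsMul (AE c (sact e : SAct Γ (Bs C)) (U1 C Y)) (L.Th c a) := by
  refine L.Th_induction (p := fun a => IsMul (AE c (sact e : SAct Γ (Bs C)) (U1 C Y)) (L.Th c a))
    ?_ ?_ ?_ ?_ a
  · intro d hd h
    rw [L.Th_src c hd h]
    unfold LDat.tgt
    exact Mlt.isMul_cov c _ (fun _ => isOpen_univ) (fun _ _ _ => by simp [U1])
      ((hL.fin d.x hd).mlt d.h) d.g d.i d.j
  · rw [map_zero]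
    exact IsMul.of_mem (zero_mem _)
  · intro a b ha hb
    rw [map_add]
    exact ha.add hb
  · intro a ha
    refine IsMul.of_limit (isClosed_AE _ _ _) fun ε hε => ?_
    obtain ⟨b, hb, hab⟩ := ha ε hε
    refine ⟨L.Th c b, hb, ?_⟩
    rw [← map_sub]
    exact (L.norm_Th_le c (a - b)).trans hab

/-- PROOF: `Mlt.isMul_m1`, `FinM.mlt_cst`. -/
theorem isMul_m1_cst {X : BL (Bs C)} (hX : FinM X) (c : ℕ × Bs C ≃ ℕ) :
    IsMul (AE c (sact e : SAct Γ (Bs C)) (U1 C Y)) (m1 c (cst X)) := by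
  exact Mlt.isMul_m1 c _ (fun _ => isOpen_univ) (fun _ _ _ => by simp [U1]) hX.mlt_cst

/-- PROOF: induction on the list, `NearT.cov`, the triangle inequality. -/
theorem near_ltgt (w : Wt Γ C) (c : ℕ × Bs C ≃ ℕ) {δ : ℝ} {l : List (LDat Γ Y A (Bs C))}
    (hl : ∀ d ∈ l, FinM d.x.2 ∧ NearT Y w e δ d.x.2) :
    ∃ k ∈ AE c (sact e : SAct Γ (Bs C)) (U1 C Y),
      ‖ltgt c (sact e) l - m1 c (cst (T1 w e)) * ltgt c (sact e) l * m1 c (cst (T1 w e)) - k‖ ≤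
        δ * (l.map fun d => ‖d.h‖).sum := by
  induction l with
  | nil =>
    refine ⟨0, zero_mem _, ?_⟩
    rw [ltgt_nil]
    simp
  | cons d l ih =>
    obtain ⟨k, hk, h1⟩ := ih fun d' hd' => hl d' (List.mem_cons_of_mem _ hd')
    obtain ⟨hf, hn⟩ := hl d List.mem_cons_self
    obtain ⟨k', hk', h2⟩ := NearT.cov c hf hn d.h d.g d.i d.j
    refine ⟨k' + k, add_mem hk' hk, ?_⟩
    rw [ltgt_cons, List.map_cons, List.sum_cons]
    have e1 : d.tgt c (sact e) + ltgt c (sact e) l -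
        m1 c (cst (T1 w e)) * (d.tgt c (sact e) + ltgt c (sact e) l) * m1 c (cst (T1 w e)) -
          (k' + k) =
        (cov c (sact e) d.g d.i d.j (sx d.h d.x.2) - m1 c (cst (T1 w e)) *
          cov c (sact e) d.g d.i d.j (sx d.h d.x.2) * m1 c (cst (T1 w e)) - k') +
        (ltgt c (sact e) l - m1 c (cst (T1 w e)) * ltgt c (sact e) l * m1 c (cst (T1 w e)) - k) := by
      unfold LDat.tgt
      rw [mul_add, add_mul]
      abel
    rw [e1]
    refine (norm_add_le _ _).trans ?_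
    calc _ ≤ δ * ‖d.h‖ + δ * (l.map fun d => ‖d.h‖).sum := add_le_add h2 h1
      _ = _ := by ring

/-- PROOF: `near_ltgt`; `‖Th a - ltgt l‖ = ‖Th (a - lsrc l)‖ ≤ ε` (`Th_lsrc`, `norm_Th_le`), `‖m1 T1‖ ≤ 1`. -/
theorem LRep.near_Th (hL : L.Ok) (w : Wt Γ C) (c : ℕ × Bs C ≃ ℕ) {a : cp Γ (Y × A)} {ε δ : ℝ}
    {l : List (LDat Γ Y A (Bs C))} (hl : ∀ d ∈ l, d.x ∈ L.R ∧ NearT Y w e δ d.x.2)
    (ha : ‖(a : Fam Γ (Y × A)) - lsrc l‖ ≤ ε) :
    ∃ k ∈ AE c (sact e : SAct Γ (Bs C)) (U1 C Y),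
      ‖L.Th c a - m1 c (cst (T1 w e)) * L.Th c a * m1 c (cst (T1 w e)) - k‖ ≤
        2 * ε + δ * (l.map fun d => ‖d.h‖).sum := by
  obtain ⟨k, hk, h1⟩ := near_ltgt (Y := Y) (A := A) w c
    (l := l) (δ := δ) (e := e) fun d hd => ⟨hL.fin _ (hl d hd).1, (hl d hd).2⟩
  refine ⟨k, hk, ?_⟩
  have hT : L.Th c ⟨lsrc l, lsrc_mem l⟩ = ltgt c (sact e) l := L.Th_lsrc c fun d hd => (hl d hd).1
  have h2 : ‖L.Th c a - ltgt c (sact e) l‖ ≤ ε := by
    rw [← hT, ← map_sub]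
    exact (L.norm_Th_le c _).trans ha
  have hm : ‖(m1 c (cst (T1 w e)) : Fam Γ Y)‖ ≤ 1 :=
    (norm_m1_le c _).trans ((norm_cst_le _).trans (norm_T1_le w e))
  set D := L.Th c a - ltgt c (sact e) l with hD
  have e1 : L.Th c a - m1 c (cst (T1 w e)) * L.Th c a * m1 c (cst (T1 w e)) - k =
      (D - m1 c (cst (T1 w e)) * D * m1 c (cst (T1 w e))) +
      (ltgt c (sact e) l - m1 c (cst (T1 w e)) * ltgt c (sact e) l * m1 c (cst (T1 w e)) - k) := by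
    rw [hD, mul_sub, sub_mul]
    abel
  rw [e1]
  have h3 : ‖m1 c (cst (T1 w e)) * D * m1 c (cst (T1 w e))‖ ≤ ε := by
    calc _ ≤ ‖(m1 c (cst (T1 w e)) : Fam Γ Y) * D‖ * ‖(m1 c (cst (T1 w e)) : Fam Γ Y)‖ :=
          norm_mul_le _ _
      _ ≤ ‖(m1 c (cst (T1 w e)) : Fam Γ Y)‖ * ‖D‖ * ‖(m1 c (cst (T1 w e)) : Fam Γ Y)‖ :=
          mul_le_mul_of_nonneg_right (norm_mul_le _ _) (norm_nonneg _)
      _ ≤ 1 * ‖D‖ * 1 := by gcongr
      _ = ‖D‖ := by ring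
      _ ≤ ε := h2
  refine (norm_add_le _ _).trans (add_le_add ?_ h1)
  refine (norm_sub_le _ _).trans ?_
  linarith

/-- PROOF: `near_Th` with `δ = 0`, `dense_lsrc`, `AE` is closed. -/
theorem LRep.exact_Th (hL : L.Ok) {w : Wt Γ C} (h0 : ∀ x ∈ L.R, NearT Y w e 0 x.2)
    (c : ℕ × Bs C ≃ ℕ) (a : cp Γ (Y × A)) :
    L.Th c a - m1 c (cst (T1 w e)) * L.Th c a * m1 c (cst (T1 w e)) ∈
      AE c (sact e : SAct Γ (Bs C)) (U1 C Y) := by
  have hcl := isClosed_AE c (sact e : SAct Γ (Bs C)) (U1 C Y)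
  rw [← SetLike.mem_coe, ← hcl.closure_eq, Metric.mem_closure_iff]
  intro ε hε
  obtain ⟨l, hl, hal⟩ := L.dense_lsrc a.2 (ε := ε / 4) (by linarith)
  obtain ⟨k, hk, h1⟩ := L.near_Th hL w c (δ := 0) (fun d hd => ⟨hl d hd, h0 _ (hl d hd)⟩) hal
  refine ⟨k, hk, ?_⟩
  rw [dist_eq_norm]
  refine lt_of_le_of_lt h1 ?_
  linarith

/-- PROOF: `Cyc.d_mem`, `exact_Th`, `isMul_Th`, `isMul_m1_cst`. -/
theorem LRep.d_mem (hL : L.Ok) {w : Wt Γ C} (h0 : ∀ x ∈ L.R, NearT Y w e 0 x.2)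
    (c : ℕ × Bs C ≃ ℕ) (u : GL1 (cp Γ (Y × A))) :
    (L.cyc hL w c).d u ∈ GL1 (AE c (sact e : SAct Γ (Bs C)) (U1 C Y)) := by
  have hPp : FinM (Pp : BL (Bs C)) := FinM.dia zero_le_one fun b => by split_ifs <;> simp
  exact (L.cyc hL w c).d_mem (isMul_m1_cst hPp c) (isMul_m1_cst (FinM.Cl e (CB_cw w)) c)
    (L.isMul_Th hL c) (L.exact_Th hL h0 c) u

/-- PROOF: `GL1 AE ≤ GL1 cp` by `AE_le_cp`. -/
theorem LRep.d_mem_cp (hL : L.Ok) {w : Wt Γ C} (h0 : ∀ x ∈ L.R, NearT Y w e 0 x.2)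
    (c : ℕ × Bs C ≃ ℕ) (u : GL1 (cp Γ (Y × A))) : (L.cyc hL w c).d u ∈ GL1 (cp Γ Y) := by
  have h := L.d_mem hL h0 c u
  exact ⟨AE_le_cp _ _ _ h.1, AE_le_cp _ _ _ h.2⟩

end Pool.Agent.Lib.MP_aa9b81_an.Rc
end
end

section

/-!
# Rotated sites, part K2: approximation by generators with functions in a dense set
-/

open scoped ENNReal Topology ZeroAtInfty
open Function Filter Set

noncomputable section

set_option linter.unusedSectionVars false

namespace Pool.Agent.Lib.MP_aa9b81_an.Rc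

open Cut Hs

/-- The data of a generator `(h ⊗ φ) u_g ⊗ e_{ij}`. -/
structure SDat (Γ Y A : Type) [TopologicalSpace Y] [TopologicalSpace A] where
  /-- the function on `Y` -/
  h : C₀(Y, ℂ)
  /-- the function on `A` -/
  φ : C₀(A, ℂ)
  /-- group element -/
  g : Γ
  /-- row index -/
  i : ℕ
  /-- column index -/
  j : ℕ

section SDat

variable {Γ Y A : Type} [Group Γ] [TopologicalSpace Y] [MulAction Γ Y]
  [TopologicalSpace A] [MulAction Γ A]

/-- The generator. -/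
def SDat.gen (d : SDat Γ Y A) : Fam Γ (Y × A) := Cut.gen (tp d.h d.φ) d.g d.i d.j

/-- The sum of a list. -/
def sval (l : List (SDat Γ Y A)) : Fam Γ (Y × A) := (l.map SDat.gen).sum

/-- The set `G` spans a dense subspace. -/
def DenseG (G : Set C₀(A, ℂ)) : Prop :=
  ∀ (φ : C₀(A, ℂ)) (ε : ℝ), 0 < ε → ∃ l : List C₀(A, ℂ), (∀ x ∈ l, x ∈ G) ∧ ‖φ - l.sum‖ ≤ ε

private lemma K2_sval_nil : sval ([] : List (SDat Γ Y A)) = 0 := rfl

private lemma K2_sval_cons (d : SDat Γ Y A) (l : List (SDat Γ Y A)) :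
    sval (d :: l) = d.gen + sval l := by
  simp [sval]

private lemma K2_sval_append (l l' : List (SDat Γ Y A)) : sval (l ++ l') = sval l + sval l' := by
  simp [sval]

private lemma K2_tp_sub (h : C₀(Y, ℂ)) (φ φ' : C₀(A, ℂ)) :
    tp h (φ - φ') = tp h φ - tp h φ' := by
  have e1 := tp_add h (φ - φ') φ'
  rw [sub_add_cancel] at e1
  rw [e1, add_sub_cancel_right]

private lemma K2_sval_map (h : C₀(Y, ℂ)) (g : Γ) (i j : ℕ) (k : List C₀(A, ℂ)) :
    sval (k.map fun x => (⟨h, x, g, i, j⟩ : SDat Γ Y A)) = Cut.gen (tp h k.sum) g i j := by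
  induction k with
  | nil =>
    rw [List.map_nil, K2_sval_nil, List.sum_nil, tp_zero, gen_zero]
  | cons x k ih =>
    rw [List.map_cons, K2_sval_cons, ih, List.sum_cons, tp_add, gen_add]
    rfl

private lemma K2_pair {G : Set C₀(A, ℂ)} (hG : DenseG G) (h : C₀(Y, ℂ)) (φ : C₀(A, ℂ)) (g : Γ)
    (i j : ℕ) {δ : ℝ} (hδ : 0 < δ) : ∃ l : List (SDat Γ Y A), (∀ d ∈ l, d.φ ∈ G) ∧
      ‖Cut.gen (tp h φ) g i j - sval l‖ ≤ δ := by
  obtain ⟨k, hk, hk'⟩ := hG φ (δ / (‖h‖ + 1)) (by positivity)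
  refine ⟨k.map fun x => (⟨h, x, g, i, j⟩ : SDat Γ Y A), ?_, ?_⟩
  · intro d hd
    rw [List.mem_map] at hd
    obtain ⟨x, hx, rfl⟩ := hd
    exact hk x hx
  · rw [K2_sval_map, ← gen_sub, ← K2_tp_sub]
    refine (norm_gen_le _ _ _ _).trans ((norm_tp_le _ _).trans ?_)
    have h1 : 0 < ‖h‖ + 1 := by positivity
    calc ‖h‖ * ‖φ - k.sum‖ ≤ (‖h‖ + 1) * (δ / (‖h‖ + 1)) :=
          mul_le_mul (by linarith) hk' (norm_nonneg _) h1.le
      _ = δ := by field_simp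

private lemma K2_pairs {G : Set C₀(A, ℂ)} (hG : DenseG G) (g : Γ) (i j : ℕ)
    (m : List (C₀(Y, ℂ) × C₀(A, ℂ))) : ∀ {δ : ℝ}, 0 < δ → ∃ l : List (SDat Γ Y A),
      (∀ d ∈ l, d.φ ∈ G) ∧ ‖Cut.gen (m.map fun x => tp x.1 x.2).sum g i j - sval l‖ ≤ δ := by
  induction m with
  | nil =>
    intro δ hδ
    refine ⟨[], fun d hd => absurd hd (List.not_mem_nil), ?_⟩
    rw [List.map_nil, List.sum_nil, gen_zero, K2_sval_nil, sub_zero, norm_zero]
    exact hδ.le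
  | cons x m ih =>
    intro δ hδ
    obtain ⟨l₁, h1, h1'⟩ := K2_pair hG x.1 x.2 g i j (half_pos hδ)
    obtain ⟨l₂, h2, h2'⟩ := ih (half_pos hδ)
    refine ⟨l₁ ++ l₂, fun d hd => ?_, ?_⟩
    · rcases List.mem_append.1 hd with hd | hd
      · exact h1 d hd
      · exact h2 d hd
    · rw [List.map_cons, List.sum_cons, gen_add, K2_sval_append, add_sub_add_comm]
      refine (norm_add_le _ _).trans ?_
      linarith

private lemma K2_val [T2Space Y] [LocallyCompactSpace Y] [T2Space A]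
    [LocallyCompactSpace A] {G : Set C₀(A, ℂ)} (hG : DenseG G) (m : List (Dat Γ (Y × A))) :
    ∀ {δ : ℝ}, 0 < δ → ∃ l : List (SDat Γ Y A),
      (∀ d ∈ l, d.φ ∈ G) ∧ ‖val m - sval l‖ ≤ δ := by
  induction m with
  | nil =>
    intro δ hδ
    refine ⟨[], fun d hd => absurd hd (List.not_mem_nil), ?_⟩
    rw [val_nil, K2_sval_nil, sub_zero, norm_zero]
    exact hδ.le
  | cons x m ih =>
    intro δ hδ
    obtain ⟨k, hk⟩ := tp_dense x.f (show 0 < δ / 4 by positivity)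
    obtain ⟨l₁, h1, h1'⟩ := K2_pairs hG x.g x.i x.j k (show 0 < δ / 4 by positivity)
    obtain ⟨l₂, h2, h2'⟩ := ih (half_pos hδ)
    refine ⟨l₁ ++ l₂, fun d hd => ?_, ?_⟩
    · rcases List.mem_append.1 hd with hd | hd
      · exact h1 d hd
      · exact h2 d hd
    · rw [val_cons, K2_sval_append, add_sub_add_comm]
      refine (norm_add_le _ _).trans ?_
      have h3 : ‖(x.gen : Fam Γ (Y × A)) - Cut.gen (k.map fun x => tp x.1 x.2).sum x.g x.i x.j‖ ≤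
          δ / 4 := by
        have e1 : (x.gen : Fam Γ (Y × A)) = Cut.gen x.f x.g x.i x.j := rfl
        rw [e1, ← gen_sub]
        exact (norm_gen_le _ _ _ _).trans hk
      have h4 : ‖(x.gen : Fam Γ (Y × A)) - sval l₁‖ ≤ δ / 4 + δ / 4 := by
        have e2 : (x.gen : Fam Γ (Y × A)) - sval l₁ =
            (x.gen - Cut.gen (k.map fun x => tp x.1 x.2).sum x.g x.i x.j) +
              (Cut.gen (k.map fun x => tp x.1 x.2).sum x.g x.i x.j - sval l₁) := by abel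
        rw [e2]
        exact (norm_add_le _ _).trans (add_le_add h3 h1')
      linarith

/-- PROOF: as `LRep.dense_lsrc` (or a consequence of it): `exists_val_near`, `tp_dense`, `hG`, `norm_tp_le`, `gen_add`, `norm_gen_le`. -/
theorem exists_sval [T2Space Y] [LocallyCompactSpace Y] [ContinuousConstSMul Γ Y] [T2Space A]
    [LocallyCompactSpace A] [ContinuousConstSMul Γ A] {G : Set C₀(A, ℂ)} (hG : DenseG G)
    {a : Fam Γ (Y × A)} (ha : a ∈ cp Γ (Y × A)) {ε : ℝ} (hε : 0 < ε) :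
    ∃ l : List (SDat Γ Y A), (∀ d ∈ l, d.φ ∈ G) ∧ ‖a - sval l‖ ≤ ε := by
  obtain ⟨m, -, hm⟩ := exists_val_near ha (half_pos hε)
  obtain ⟨l, hl, hl'⟩ := K2_val hG m (half_pos hε)
  refine ⟨l, hl, ?_⟩
  have e2 : a - sval l = (a - val m) + (val m - sval l) := by abel
  rw [e2]
  refine (norm_add_le _ _).trans ?_
  linarith

end SDat

variable {Γ C Y A : Type} [Group Γ] [MulAction Γ C] [DecidableEq C] [TopologicalSpace Y]
  [MulAction Γ Y] [TopologicalSpace A] [MulAction Γ A] [ContinuousConstSMul Γ A]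
  [T2Space Y] [LocallyCompactSpace Y] [ContinuousConstSMul Γ Y] [T2Space A] [LocallyCompactSpace A]

/-- PROOF: by induction on `l` there is a list `l'` of `LDat` with the same functions, `d'.x ∈ L.R`, `NearT .. d'.x.2`, `lsrc l' = sval l` and the same `∑ ‖h‖`; then
`LRep.near_Th`. -/
theorem LRep.near_of_sval {e : C ↪ ℕ} (L : LRep (sact e : SAct Γ (Bs C)) A) (hL : L.Ok)
    (w : Wt Γ C) (c : ℕ × Bs C ≃ ℕ) {δ : ℝ} {l : List (SDat Γ Y A)}
    (hl : ∀ d ∈ l, ∃ X, (d.φ, X) ∈ L.R ∧ NearT Y w e δ X) {a : cp Γ (Y × A)} {ε : ℝ}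
    (ha : ‖(a : Fam Γ (Y × A)) - sval l‖ ≤ ε) :
    ∃ k ∈ AE c (sact e : SAct Γ (Bs C)) (U1 C Y),
      ‖L.Th c a - m1 c (cst (T1 w e)) * L.Th c a * m1 c (cst (T1 w e)) - k‖ ≤
        2 * ε + δ * (l.map fun d => ‖d.h‖).sum := by
  have hlist : ∀ l : List (SDat Γ Y A), (∀ d ∈ l, ∃ X, (d.φ, X) ∈ L.R ∧ NearT Y w e δ X) →
      ∃ l' : List (LDat Γ Y A (Bs C)), (∀ d ∈ l', d.x ∈ L.R ∧ NearT Y w e δ d.x.2) ∧
        lsrc l' = sval l ∧ (l'.map fun d => ‖d.h‖) = (l.map fun d => ‖d.h‖) := by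
    intro l
    induction l with
    | nil =>
      intro _
      exact ⟨[], fun d hd => absurd hd (List.not_mem_nil), rfl, rfl⟩
    | cons d l ih =>
      intro hl
      obtain ⟨X, hX, hX'⟩ := hl d List.mem_cons_self
      obtain ⟨l', h1, h2, h3⟩ := ih fun d hd => hl d (List.mem_cons_of_mem _ hd)
      refine ⟨(⟨d.h, (d.φ, X), d.g, d.i, d.j⟩ : LDat Γ Y A (Bs C)) :: l', ?_, ?_, ?_⟩
      · intro d' hd'
        rcases List.mem_cons.1 hd' with rfl | hd'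
        · exact ⟨hX, hX'⟩
        · exact h1 d' hd'
      · rw [lsrc_cons, h2]
        simp only [sval, List.map_cons, List.sum_cons]
        rfl
      · rw [List.map_cons, List.map_cons, h3]
  obtain ⟨l', h1, h2, h3⟩ := hlist l hl
  rw [← h3]
  refine L.near_Th hL w c h1 ?_
  rw [h2]
  exact ha

end Pool.Agent.Lib.MP_aa9b81_an.Rc
end
end

section

/-!
# Rotated sites, part L1a: the rotated representations and the Clifford operator
-/

open scoped ENNReal Topology ZeroAtInfty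
open Function Filter Set

noncomputable section

set_option linter.unusedSectionVars false

namespace Pool.Agent.Lib.MP_aa9b81_an.Rc

open Cut Hs

variable {Γ C I : Type} [Group Γ] [MulAction Γ C] [MulAction Γ I] [DecidableEq C]

variable (𝔉 : Fibr Γ C I)

/-- PROOF: `Cyl.ker_Xo`, `finite_agree`; for the columns: the relation is symmetric. -/
theorem finM_Xo {𝔉 : Fibr Γ C I} {E : Finset I} {φ : Finset C → ℂ} (h : 𝔉.Cyl E φ) (V : Mf 𝔉) :
    FinM (𝔉.Xo E V φ) := by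
  constructor
  · intro b
    refine ⟨(𝔉.finite_agree E b).toFinset, fun b' hb' => ?_⟩
    by_contra hne
    exact hb' ((Set.Finite.mem_toFinset _).2 (h.ker_Xo V hne))
  · intro b'
    refine ⟨(𝔉.finite_agree E b').toFinset, fun b hb => ?_⟩
    by_contra hne
    have h1 := h.ker_Xo V hne
    exact hb ((Set.Finite.mem_toFinset _).2 ⟨h1.1.symm, fun c hc => (h1.2 c hc).symm⟩)

/-- PROOF: `finM_Xo`, `FinM.smul`; `Cyl.Xo_comm_Pp`. -/
theorem LR_ok (hn : ∀ i, (𝔉.fib i).Nonempty) (e : C ↪ ℕ) (θ : ℝ) : (LR 𝔉 hn e θ).Ok := by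
  constructor
  · rintro x ⟨z, E, φ, h, rfl⟩
    exact (finM_Xo h.cyl _).smul z
  · rintro x ⟨z, E, φ, h, rfl⟩
    exact (h.cyl.Xo_comm_Pp _).smul_left z

open Classical in
/-- PROOF: `Cyl.Xo_comm_Cl` for `a = cwL w L`, `L` the union of the fibres of `E`: `cwL` vanishes on `L` and `(F ∖ fib i) ∖ L = F ∖ L` for
`i ∈ E`. -/
theorem Xo_comm_cwL {𝔉 : Fibr Γ C I} (w : Wt Γ C) (e : C ↪ ℕ) {E : Finset I} {φ : Finset C → ℂ}
    (h : 𝔉.Cyl E φ) (V : Mf 𝔉) : Commute (𝔉.Xo E V φ) (Cl e (cwL w (E.biUnion 𝔉.fib))) := by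
  refine h.Xo_comm_Cl e V (CB_cwL w _) ?_ ?_
  · intro F c hc
    unfold cwL
    rw [if_pos]
    exact Finset.mem_biUnion.2 ⟨𝔉.p c, hc, (𝔉.mem_fib _ c).2 rfl⟩
  · intro i hi F c
    unfold cwL
    have h1 : (F \ 𝔉.fib i) \ E.biUnion 𝔉.fib = F \ E.biUnion 𝔉.fib := by
      ext x
      simp only [Finset.mem_sdiff, Finset.mem_biUnion, not_exists, not_and]
      constructor
      · rintro ⟨⟨h1, _⟩, h2⟩
        exact ⟨h1, h2⟩
      · rintro ⟨h1, h2⟩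
        exact ⟨⟨h1, h2 i hi⟩, h2⟩
    rw [h1]

variable {Y : Type} [TopologicalSpace Y] [MulAction Γ Y] [T2Space Y]

/-- PROOF: `NearT_of_comm`, `Xo_comm_cwL`, `finM_Xo`. -/
theorem NearT_Xo {𝔉 : Fibr Γ C I} (w : Wt Γ C) (e : C ↪ ℕ) {E : Finset I} {φ : Finset C → ℂ}
    (h : 𝔉.Cyl E φ) (V : Mf 𝔉) : NearT Y w e 0 (𝔉.Xo E V φ) := by
  classical
  exact NearT_of_comm w e (finM_Xo h V) (Xo_comm_cwL w e h V)

/-- PROOF: `NearT_Xo`, `NearT.smul`. -/
theorem LR_near (hn : ∀ i, (𝔉.fib i).Nonempty) (w : Wt Γ C) (e : C ↪ ℕ) (θ : ℝ) :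
    ∀ x ∈ (LR 𝔉 hn e θ).R, NearT Y w e 0 x.2 := by
  rintro x ⟨z, E, φ, h, rfl⟩
  have h1 := (NearT_Xo (Y := Y) w e h.cyl (𝔉.Vth hn θ)).smul z
  rwa [mul_zero] at h1

end Pool.Agent.Lib.MP_aa9b81_an.Rc
end
end
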