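import Pool.Agent.Lib.MP_aa9b81_an.Mg.G016
import Pool.Agent.Lib.MP_aa9b81_an.Mg.G026
import Pool.Agent.Lib.MP_aa9b81_an.Mg.G013

section

/-!
# The machine, part G2: the finite stages of the rotated cylinder projections
-/

open scoped ENNReal Topology
open Function

noncomputable section

namespace Pool.Agent.Lib.MP_aa9b81_an.Mc

open Cut Hs

section

variable {I : Type} [DecidableEq I]

theorem G2b_fl_S (i : I) (b : Bs I) : (fl i b).S = b.S := by
  unfold fl
  split_ifs <;> rfl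

theorem G2b_mem_fl {i j : I} (h : j ≠ i) (b : Bs I) : j ∈ (fl i b).F ↔ j ∈ b.F := by
  unfold fl
  by_cases h1 : i ∈ b.S
  · rw [dif_pos h1]
  · rw [dif_neg h1, Bs.mk_F, mem_tg]
    constructor
    · rintro (h2 | h2)
      · exact absurd h2.1 h
      · exact h2.2
    · exact fun h2 => Or.inr ⟨h, h2⟩

theorem G2b_UKf_eq (M : Finset I) (θ : I → ℝ) (M₁ : Finset I) (hM : M₁ ⊆ M)
    (h1 : ∀ i ∈ M₁, ang θ i = Real.pi / 2 ∧ ang' θ i = 0)
    (h2 : ∀ i ∈ M \ M₁, ang θ i = ang' θ i) :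
    UKf M (ang θ) = UKf M (ang' θ) * UKf M₁ (fun _ => Real.pi / 2) := by
  have h3 : ∀ K : Finset I, (∀ i ∈ K, ang' θ i = 0) → UKf K (ang' θ) = 1 := by
    intro K
    induction K using Finset.induction_on with
    | empty => intro _; exact UKf_empty _
    | insert i K hi ih =>
      intro h
      rw [UKf_insert hi, ih fun j hj => h j (Finset.mem_insert_of_mem hj),
        h i (Finset.mem_insert_self i K), mul_one]
      refine Units.ext ?_
      show Ui i 0 = 1
      exact Ui_zero i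
  rw [UKf_sdiff hM (ang θ), UKf_sdiff hM (ang' θ), h3 M₁ fun i hi => (h1 i hi).2, mul_one,
    UKf_congr h2, UKf_congr fun i hi => (h1 i hi).1]

/-- THE STAGES. PROOF: let `χ b = [res M (rdF θ L b) = m]`, a function of `b.F ∩ M`, `b.S ∩ M`. For `i ∉ M` it is invariant
under `fl i`, so `Ui i` commutes with `dia χ` (`Ui_comm_dia`), and by `UKf_sdiff`, `UKf_comm` the set `L` can be replaced by
`M` in `UKf`. Let `M₁ = {i ∈ M | θ i = 1}`. `ang θ = ang' θ + δ` with `δ i = π/2` for `θ i = 1` and `0` otherwise; by `UKf_add`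
`UKf M (ang θ) = UKf M (ang' θ) * UKf M δ`, and `UKf M δ = UKf M₁ (π/2)` (`UKf_sdiff`, `UKf_congr`; angle `0`: `Ui_zero`, induction).
By `exists_flips` for `M₁`: `UKf M₁ (π/2) * cyl M m * (..)⁻¹ = dia (b ↦ [(fK b).F ∩ M = m]) = dia χ`. -/
theorem stage_EM {M L : Finset I} (h : M ⊆ L) (m : Finset I) (θ : I → ℝ) :
    (UKf L (ang' θ) : BL (Bs I)) * dia (fun b => if res M (rdF θ L b) = m then 1 else 0) *
      ((UKf L (ang' θ))⁻¹ : (BL (Bs I))ˣ).val = EM M m (ang θ) := by
  have hM₁ : ∃ M₁ : Finset I, M₁ ⊆ M ∧ ∀ i ∈ M, i ∈ M₁ ↔ θ i = 1 := by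
    classical
    exact ⟨M.filter fun i => θ i = 1, Finset.filter_subset _ _, fun i hi => by
      rw [Finset.mem_filter]
      exact ⟨fun h => h.2, fun h => ⟨hi, h⟩⟩⟩
  obtain ⟨M₁, hM, hθ⟩ := hM₁
  obtain ⟨fK, hS, hF, hK⟩ := exists_flips M₁
  -- the function
  have hres : ∀ b : Bs I, res M (rdF θ L b) = (fK b).F ∩ M := by
    intro b
    ext i
    unfold res rdF
    rw [Finset.mem_filter, Finset.mem_inter, decide_eq_true_eq]
    constructor
    · rintro ⟨hi, h1⟩
      refine ⟨(hF b i).2 ?_, hi⟩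
      by_cases h2 : θ i = 1
      · rw [if_pos ((hθ i hi).2 h2)]
        rwa [if_pos ⟨h hi, h2⟩] at h1
      · rw [if_neg fun h3 => h2 ((hθ i hi).1 h3)]
        rwa [if_neg fun h3 => h2 h3.2] at h1
    · rintro ⟨h1, hi⟩
      refine ⟨hi, ?_⟩
      have h1 := (hF b i).1 h1
      by_cases h2 : θ i = 1
      · rw [if_pos ((hθ i hi).2 h2)] at h1
        rwa [if_pos ⟨h hi, h2⟩]
      · rw [if_neg fun h3 => h2 ((hθ i hi).1 h3)] at h1
        rwa [if_neg fun h3 => h2 h3.2]
  have hfun : (fun b : Bs I => if res M (rdF θ L b) = m then (1 : ℂ) else 0) =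
      fun b => if (fK b).F ∩ M = m then (1 : ℂ) else 0 := by
    funext b
    rw [hres]
  have hinv : ∀ i, i ∉ M → ∀ b : Bs I, (fK (fl i b)).F ∩ M = (fK b).F ∩ M := by
    intro i hi b
    ext j
    rw [Finset.mem_inter, Finset.mem_inter, hF, hF, G2b_fl_S]
    refine and_congr_left fun hj => ?_
    have hji : j ≠ i := fun h => hi (h ▸ hj)
    by_cases h1 : j ∈ M₁
    · rw [if_pos h1, if_pos h1, G2b_mem_fl hji]
    · rw [if_neg h1, if_neg h1, G2b_mem_fl hji]
  rw [hfun]
  -- from `L` to `M`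
  have hb : ∀ b : Bs I, ‖(if (fK b).F ∩ M = m then (1 : ℂ) else 0)‖ ≤ 1 := by
    intro b
    split_ifs <;> simp
  have hc1 : ∀ i ∈ L \ M, Commute (Ui i (ang' θ i)) ((UKf M (ang' θ) : BL (Bs I)) *
      dia (fun b => if (fK b).F ∩ M = m then (1 : ℂ) else 0) *
      ((UKf M (ang' θ))⁻¹ : (BL (Bs I))ˣ).val) := by
    intro i hi
    have hi' : i ∉ M := (Finset.mem_sdiff.1 hi).2
    have h1 := UKf_comm (K := M) (φ := ang' θ) (X := Ui i (ang' θ i)) fun j _ =>
      Ui_comm j i (ang' θ j) (ang' θ i)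
    have h2 := Ui_comm_dia i (ang' θ i) zero_le_one hb fun b => by rw [hinv i hi' b]
    exact (h1.1.symm.mul_right h2).mul_right h1.2.symm
  have hc2 := UKf_comm hc1
  have hL : (UKf L (ang' θ) : BL (Bs I)) *
      dia (fun b => if (fK b).F ∩ M = m then (1 : ℂ) else 0) *
      ((UKf L (ang' θ))⁻¹ : (BL (Bs I))ˣ).val = (UKf M (ang' θ) : BL (Bs I)) *
      dia (fun b => if (fK b).F ∩ M = m then (1 : ℂ) else 0) *
      ((UKf M (ang' θ))⁻¹ : (BL (Bs I))ˣ).val := by
    rw [UKf_sdiff h (ang' θ), mul_inv_rev, Units.val_mul, Units.val_mul]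
    have h3 := hc2.1.eq
    calc (UKf (L \ M) (ang' θ) : BL (Bs I)) * (UKf M (ang' θ) : BL (Bs I)) *
          dia (fun b => if (fK b).F ∩ M = m then (1 : ℂ) else 0) *
          (((UKf M (ang' θ))⁻¹ : (BL (Bs I))ˣ).val * ((UKf (L \ M) (ang' θ))⁻¹ : (BL (Bs I))ˣ).val)
        = ((UKf (L \ M) (ang' θ) : BL (Bs I)) * ((UKf M (ang' θ) : BL (Bs I)) *
          dia (fun b => if (fK b).F ∩ M = m then (1 : ℂ) else 0) *
          ((UKf M (ang' θ))⁻¹ : (BL (Bs I))ˣ).val)) *
          ((UKf (L \ M) (ang' θ))⁻¹ : (BL (Bs I))ˣ).val := by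
          simp only [mul_assoc]
      _ = _ := by
          rw [h3, mul_assoc _ (UKf (L \ M) (ang' θ) : BL (Bs I)), Units.mul_inv, mul_one]
  rw [hL]
  -- the angles
  have ha1 : ∀ i ∈ M₁, ang θ i = Real.pi / 2 ∧ ang' θ i = 0 := by
    intro i hi
    have h1 : θ i = 1 := (hθ i (hM hi)).1 hi
    refine ⟨?_, ?_⟩
    · unfold ang
      rw [h1, one_mul]
    · unfold ang'
      rw [if_pos h1]
  have ha2 : ∀ i ∈ M \ M₁, ang θ i = ang' θ i := by
    intro i hi
    obtain ⟨hi1, hi2⟩ := Finset.mem_sdiff.1 hi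
    have h1 : ¬ θ i = 1 := fun h => hi2 ((hθ i hi1).2 h)
    unfold ang ang'
    rw [if_neg h1]
  unfold EM cyl
  have h5 := hK (fun b => if b.F ∩ M = m then (1 : ℂ) else 0) 1 zero_le_one fun b => by
    split_ifs <;> simp
  rw [G2b_UKf_eq M θ M₁ hM ha1 ha2, mul_inv_rev, Units.val_mul, Units.val_mul, ← h5]
  simp only [mul_assoc]

end

end Pool.Agent.Lib.MP_aa9b81_an.Mc
end
end

section

section
/-!
# The machine, part G2: the finite stages of the rotated cylinder projections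
-/

open scoped ENNReal Topology
open Function

noncomputable section

namespace Pool.Agent.Lib.MP_aa9b81_an.Mc

open Cut Hs

section

variable {I : Type} [DecidableEq I]

theorem G2c_dia_mul_eq_zero {ψ ψ' : Bs I → ℂ} {C C' : ℝ} (hC : 0 ≤ C) (hψ : ∀ b, ‖ψ b‖ ≤ C)
    (hC' : 0 ≤ C') (hψ' : ∀ b, ‖ψ' b‖ ≤ C') (h : ∀ b, ψ b * ψ' b = 0) : dia ψ * dia ψ' = 0 := by
  refine ContinuousLinearMap.ext fun ξ => ?_
  ext b
  change (dia ψ (dia ψ' ξ) : Bs I → ℂ) b = (0 : ℂ)
  rw [dia_apply hC hψ, dia_apply hC' hψ', ← mul_assoc, h b, zero_mul]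

theorem G2c_cyl_mul {M m : Finset I} {ψ : Bs I → ℂ} {C : ℝ} (hC : 0 ≤ C) (hψ : ∀ b, ‖ψ b‖ ≤ C)
    (h : ∀ b : Bs I, b.F ∩ M = m → ψ b = 1) : cyl M m * dia ψ = cyl M m := by
  refine ContinuousLinearMap.ext fun ξ => ?_
  ext b
  have h1 : ∀ b : Bs I, ‖(if b.F ∩ M = m then (1 : ℂ) else 0)‖ ≤ 1 := fun b => by
    split_ifs <;> simp
  change (cyl M m (dia ψ ξ) : Bs I → ℂ) b = (cyl M m ξ : Bs I → ℂ) b
  unfold cyl
  rw [dia_apply zero_le_one h1, dia_apply hC hψ, dia_apply zero_le_one h1]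
  by_cases hb : b.F ∩ M = m
  · rw [h b hb, one_mul]
  · rw [if_neg hb, zero_mul, zero_mul]

theorem G2c_absorb {M m : Finset I} {φ : I → ℝ} {D D' X : BL (Bs I)}
    (h1 : (UKf M φ : BL (Bs I)) * D = D' * (UKf M φ : BL (Bs I))) (h2 : cyl M m * D = cyl M m)
    (h3 : D' * X = 0) : EM M m φ * X = 0 := by
  have h4 : D * ((UKf M φ)⁻¹ : (BL (Bs I))ˣ).val = ((UKf M φ)⁻¹ : (BL (Bs I))ˣ).val * D' := by
    calc D * ((UKf M φ)⁻¹ : (BL (Bs I))ˣ).val
        = (((UKf M φ)⁻¹ : (BL (Bs I))ˣ).val * (UKf M φ : BL (Bs I))) * D *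
            ((UKf M φ)⁻¹ : (BL (Bs I))ˣ).val := by rw [Units.inv_mul, one_mul]
      _ = ((UKf M φ)⁻¹ : (BL (Bs I))ˣ).val * ((UKf M φ : BL (Bs I)) * D) *
            ((UKf M φ)⁻¹ : (BL (Bs I))ˣ).val := by simp only [mul_assoc]
      _ = ((UKf M φ)⁻¹ : (BL (Bs I))ˣ).val * D' * ((UKf M φ : BL (Bs I)) *
            ((UKf M φ)⁻¹ : (BL (Bs I))ˣ).val) := by rw [h1]; simp only [mul_assoc]
      _ = _ := by rw [Units.mul_inv, mul_one]
  unfold EM
  calc (UKf M φ : BL (Bs I)) * cyl M m * ((UKf M φ)⁻¹ : (BL (Bs I))ˣ).val * X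
      = (UKf M φ : BL (Bs I)) * (cyl M m * D) * ((UKf M φ)⁻¹ : (BL (Bs I))ˣ).val * X := by
        rw [h2]
    _ = (UKf M φ : BL (Bs I)) * cyl M m * (D * ((UKf M φ)⁻¹ : (BL (Bs I))ˣ).val) * X := by
        simp only [mul_assoc]
    _ = (UKf M φ : BL (Bs I)) * cyl M m * ((UKf M φ)⁻¹ : (BL (Bs I))ˣ).val * (D' * X) := by
        rw [h4]
        simp only [mul_assoc]
    _ = 0 := by rw [h3, mul_zero]

theorem G2c_mem_fl {i j : I} (h : i ≠ j) (b : Bs I) : i ∈ (fl j b).F ↔ i ∈ b.F := by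
  unfold fl
  split_ifs with h1
  · rfl
  · rw [Bs.mk_F]
    unfold tg
    split_ifs with h2
    · rw [Finset.mem_erase]
      exact ⟨fun h3 => h3.2, fun h3 => ⟨h, h3⟩⟩
    · rw [Finset.mem_insert]
      exact ⟨fun h3 => h3.resolve_left h, fun h3 => Or.inr h3⟩

theorem G2c_mem_fl_self {i : I} {b : Bs I} (h : i ∉ (fl i b).F) : i ∈ b.F := by
  unfold fl at h
  split_ifs at h with h1
  · exact b.sub h1
  · rw [Bs.mk_F] at h
    unfold tg at h
    split_ifs at h with h2
    · exact h2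
    · exact absurd (Finset.mem_insert_self i b.F) h

/-- Absorption. PROOF: by `stage_EM` for `L = M` (`θ` with `ang θ = φ` near to `0`, `1` irrelevant), or directly: `cyl M m` is
`cyl M m * dia [i ∈ F]` for `i ∈ m`, and `cyl M m * dia [i ∉ F]` for `i ∉ m`. Case `i ∈ m`, `φ i = 0`: `UKf M φ = UKf (M ∖ {i}) φ`
(`UKf_insert`, `Ui_zero`) commutes with `dia [i ∈ F]` (`Ui_comm_dia`), so `EM M m φ = EM M m φ * dia [i ∈ F]`. Case `i ∉ m`,
`φ i = π/2`: `UKf M φ = UKf (M ∖ {i}) φ * Ui i (π/2)`, and `Ui i (π/2) dia [i ∉ F] Ui i (-π/2) = dia [i ∈ F ∖ S]`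
(`Ui_pi_conj`), so `EM M m φ = EM M m φ * dia [i ∈ F ∖ S]`. In both cases `EM M m φ = EM M m φ * dia [i ∈ F] `-type, and
`dia [i ∈ F] * dia ψ = 0`. -/
theorem EM_mul_dia_zero {M m : Finset I} {i : I} (hi : i ∈ M) {φ : I → ℝ}
    (h : (i ∈ m ∧ φ i = 0) ∨ (i ∉ m ∧ φ i = Real.pi / 2)) {ψ : Bs I → ℂ} {C : ℝ} (hC : 0 ≤ C)
    (hψ : ∀ b, ‖ψ b‖ ≤ C) (h0 : ∀ b : Bs I, i ∈ b.F → ψ b = 0) : EM M m φ * dia ψ = 0 := by
  have hb1 : ∀ b : Bs I, ‖(if i ∈ b.F then (1 : ℂ) else 0)‖ ≤ 1 := fun b => by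
    split_ifs <;> simp
  have hb2 : ∀ b : Bs I, ‖(if i ∈ b.F then (0 : ℂ) else 1)‖ ≤ 1 := fun b => by
    split_ifs <;> simp
  rcases h with ⟨him, hφ⟩ | ⟨him, hφ⟩
  · refine G2c_absorb (D := dia fun b : Bs I => if i ∈ b.F then (1 : ℂ) else 0)
      (D' := dia fun b : Bs I => if i ∈ b.F then (1 : ℂ) else 0) ?_ ?_ ?_
    · refine (UKf_comm fun j _ => ?_).1.eq
      by_cases hj : j = i
      · rw [hj, hφ, Ui_zero]
        exact Commute.one_left _
      · refine Ui_comm_dia j (φ j) zero_le_one hb1 fun b => ?_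
        simp only [G2c_mem_fl (Ne.symm hj) b]
    · refine G2c_cyl_mul zero_le_one hb1 fun b hb => if_pos ?_
      rw [← hb] at him
      exact (Finset.mem_inter.1 him).1
    · refine G2c_dia_mul_eq_zero zero_le_one hb1 hC hψ fun b => ?_
      by_cases hb : i ∈ b.F
      · rw [h0 b hb, mul_zero]
      · rw [if_neg hb, zero_mul]
  · have hb3 : ∀ b : Bs I, ‖(if i ∈ (fl i b).F then (0 : ℂ) else 1)‖ ≤ 1 := fun b => hb2 (fl i b)
    refine G2c_absorb (D := dia fun b : Bs I => if i ∈ b.F then (0 : ℂ) else 1)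
      (D' := dia fun b : Bs I => if i ∈ (fl i b).F then (0 : ℂ) else 1) ?_ ?_ ?_
    · have hins : UKf M φ = Uu i (φ i) * UKf (M.erase i) φ := by
        rw [← UKf_insert (Finset.notMem_erase i M) φ, Finset.insert_erase hi]
      have hc : Commute (UKf (M.erase i) φ : BL (Bs I))
          (dia fun b : Bs I => if i ∈ b.F then (0 : ℂ) else 1) := by
        refine (UKf_comm fun j hj => ?_).1
        refine Ui_comm_dia j (φ j) zero_le_one hb2 fun b => ?_
        simp only [G2c_mem_fl (Ne.symm (Finset.ne_of_mem_erase hj)) b]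
      have hcj := Ui_pi_conj i zero_le_one hb2
      have hcj' : Ui i (Real.pi / 2) * (dia fun b : Bs I => if i ∈ b.F then (0 : ℂ) else 1) =
          (dia fun b : Bs I => if i ∈ (fl i b).F then (0 : ℂ) else 1) * Ui i (Real.pi / 2) := by
        rw [← hcj, mul_assoc _ _ (Ui i (Real.pi / 2)), Ui_mul, neg_add_cancel, Ui_zero, mul_one]
      have hval : (UKf M φ : BL (Bs I)) = Ui i (Real.pi / 2) * (UKf (M.erase i) φ : BL (Bs I)) := by
        rw [hins, hφ, Units.val_mul]
        rfl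
      rw [hval, mul_assoc, hc.eq, ← mul_assoc, hcj', mul_assoc]
    · refine G2c_cyl_mul zero_le_one hb2 fun b hb => if_neg fun h1 => him ?_
      rw [← hb]
      exact Finset.mem_inter.2 ⟨h1, hi⟩
    · refine G2c_dia_mul_eq_zero zero_le_one hb3 hC hψ fun b => ?_
      by_cases hb : i ∈ (fl i b).F
      · rw [if_pos hb, zero_mul]
      · rw [h0 b (G2c_mem_fl_self hb), mul_zero]

end

section

variable {Γ I : Type} [Group Γ] [MulAction Γ I] [DecidableEq I]

/-- PROOF: `funext`, definitions: at `i`, with `j = g⁻¹ • i`. -/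
theorem rdF_smul (g : Γ) (θ : I → ℝ) (L : Finset I) (b : Bs I) :
    rdF (fun i => θ (g⁻¹ • i)) (gF g L) (g • b) = g • rdF θ L b := by
  funext i
  rw [Cf.smul_apply]
  unfold rdF
  rw [decide_eq_decide]
  simp only [mem_gF, Bs.smul_F, Bs.smul_S]

end

end Pool.Agent.Lib.MP_aa9b81_an.Mc
end

end


section
/-!
# The machine, part G3: readers
-/

open scoped ENNReal Topology ZeroAtInfty
open Function Set

noncomputable section

namespace Pool.Agent.Lib.MP_aa9b81_an.Mc

open Cut Hs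

/-- Equivariant continuous parameters `θ p i ∈ [0, 1]`. -/
structure Ang (Γ P I : Type) [Group Γ] [TopologicalSpace P] [MulAction Γ P] [MulAction Γ I] where
  /-- the parameter -/
  θ : P → I → ℝ
  nonneg : ∀ p i, 0 ≤ θ p i
  le_one : ∀ p i, θ p i ≤ 1
  cont : ∀ i, Continuous fun p => θ p i
  equi : ∀ (g : Γ) p i, θ (g • p) (g • i) = θ p i

variable {Γ X P I : Type} [Group Γ] [TopologicalSpace X] [MulAction Γ X] [TopologicalSpace P]
  [MulAction Γ P] [MulAction Γ I] [DecidableEq I]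

omit [DecidableEq I] in
theorem Ang.smul (A : Ang Γ P I) (g : Γ) (p : P) : A.θ (g • p) = fun i => A.θ p (g⁻¹ • i) := by
  funext i
  have h := A.equi g p (g⁻¹ • i)
  rwa [smul_inv_smul] at h

/-- A reader: the point of `X` read from `p`, the subset `x` and the finite set `F`. -/
structure Rdr (Γ X P I : Type) [Group Γ] [MulAction Γ X] [TopologicalSpace P]
    [MulAction Γ P] [MulAction Γ I] [DecidableEq I] (A : Ang Γ P I) where
  /-- the reading -/
  R : P → Pow I → Finset I → Option X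
  smul : ∀ (g : Γ) p x F, R (g • p) (g • x) (gF g F) = (R p x F).map (g • ·)
  loc : ∀ p x F i, 0 < A.θ p i → A.θ p i < 1 → R p x (tg i F) = R p x F

variable {A : Ang Γ P I} (r : Rdr Γ X P I A)

/-- The system of a reader. -/
def Rdr.sys (e : I ↪ ℕ) : Sys Γ X P I e where
  π L p b := r.R p (rdF (A.θ p) L b) b.F
  U L p := UKf L (ang' (A.θ p))
  norm_U L p := (norm_UKf_le L _).1
  norm_U' L p := (norm_UKf_le L _).2
  π_smul g L p b := by
    rw [A.smul, rdF_smul, Bs.smul_F, r.smul]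
  U_smul g L p := by
    rw [W_mul_UKf, A.smul]
    rfl

theorem Rdr.sys_π (e : I ↪ ℕ) (L : Finset I) (p : P) (b : Bs I) :
    (r.sys e).π L p b = r.R p (rdF (A.θ p) L b) b.F := rfl

theorem Rdr.sys_U (e : I ↪ ℕ) (L : Finset I) (p : P) :
    (r.sys e).U L p = UKf L (ang' (A.θ p)) := rfl

/-- `f` depends only on the coordinates of `x` in `M`. -/
def Rdr.Cyl (M : Finset I) (f : C₀(X, ℂ)) : Prop :=
  ∀ p x x' F, (∀ i ∈ M, x i = x' i) → optf f (r.R p x F) = optf f (r.R p x' F)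

/-- PROOF: sum of `2^|M|` terms of norm at most `‖f‖` (`norm_EM_le`, `norm_dia_le`, `norm_optf_le`). -/
theorem Rdr.norm_nM_aux (M : Finset I) (f : C₀(X, ℂ)) (p : P) :
    ‖∑ m ∈ M.powerset, EM M m (ang (A.θ p)) *
      dia (fun b : Bs I => optf f (r.R p (ind m) b.F))‖ ≤ 2 ^ M.card * ‖f‖ := by
  refine (norm_sum_le _ _).trans ?_
  have h1 : ∀ m ∈ M.powerset, ‖EM M m (ang (A.θ p)) *
      dia (fun b : Bs I => optf f (r.R p (ind m) b.F))‖ ≤ ‖f‖ := by
    intro m _
    refine (norm_mul_le _ _).trans ?_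
    have h2 := norm_EM_le M m (ang (A.θ p))
    have h3 : ‖dia (fun b : Bs I => optf f (r.R p (ind m) b.F))‖ ≤ ‖f‖ :=
      norm_dia_le (norm_nonneg f) fun b => norm_optf_le f _
    calc ‖EM M m (ang (A.θ p))‖ * ‖dia (fun b : Bs I => optf f (r.R p (ind m) b.F))‖
        ≤ 1 * ‖f‖ := mul_le_mul h2 h3 (norm_nonneg _) zero_le_one
      _ = ‖f‖ := one_mul _
  refine (Finset.sum_le_sum h1).trans ?_
  rw [Finset.sum_const, Finset.card_powerset, nsmul_eq_mul]
  push_cast
  exact le_refl _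

/-- The representation of the function `f`. -/
def Rdr.nM (M : Finset I) (f : C₀(X, ℂ)) : FB (Bs I) P :=
  FB.mk (fun p => ∑ m ∈ M.powerset, EM M m (ang (A.θ p)) *
    dia (fun b : Bs I => optf f (r.R p (ind m) b.F))) (2 ^ M.card * ‖f‖) (r.norm_nM_aux M f)

theorem Rdr.nM_apply (M : Finset I) (f : C₀(X, ℂ)) (p : P) :
    r.nM M f p = ∑ m ∈ M.powerset, EM M m (ang (A.θ p)) *
      dia (fun b : Bs I => optf f (r.R p (ind m) b.F)) := rfl

end Pool.Agent.Lib.MP_aa9b81_an.Mc
end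

end
end

section

/-!
# The machine, part G3: readers
-/

open scoped ENNReal Topology ZeroAtInfty
open Function Set

noncomputable section

namespace Pool.Agent.Lib.MP_aa9b81_an.Mc

open Cut Hs

variable {Γ X P I : Type} [Group Γ] [TopologicalSpace X] [MulAction Γ X] [TopologicalSpace P]
  [MulAction Γ P] [MulAction Γ I] [DecidableEq I]

variable {A : Ang Γ P I} (r : Rdr Γ X P I A)

omit [TopologicalSpace X] [MulAction Γ X] [Group Γ] [TopologicalSpace P]
  [MulAction Γ P] [MulAction Γ I] in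
private theorem G3b_fl_F (i : I) (b : Bs I) : (fl i b).F = tg i b.F ∨ (fl i b).F = b.F := by
  unfold fl
  split_ifs with h
  · exact Or.inr rfl
  · exact Or.inl rfl

omit [TopologicalSpace X] [MulAction Γ X] [Group Γ] [TopologicalSpace P] [MulAction Γ P]
  [MulAction Γ I] [DecidableEq I] in
private theorem G3b_sum_apply {ι : Type} (K : Finset ι) (T : ι → BL (Bs I)) (ξ : L2 (Bs I))
    (b : Bs I) : ((∑ i ∈ K, T i) ξ : Bs I → ℂ) b = ∑ i ∈ K, (T i ξ : Bs I → ℂ) b := by
  classical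
  induction K using Finset.induction_on with
  | empty => simp
  | insert i K hi ih =>
    rw [Finset.sum_insert hi, Finset.sum_insert hi, ← ih]
    rfl

omit [TopologicalSpace X] [MulAction Γ X] [Group Γ] [TopologicalSpace P] [MulAction Γ P]
  [MulAction Γ I] [DecidableEq I] in
private theorem G3b_dia_sum {ι : Type} (S : Finset ι) (χ D : ι → Bs I → ℂ) (ψ : Bs I → ℂ)
    {C : ℝ} (hC : 0 ≤ C) (hψ : ∀ b, ‖ψ b‖ ≤ C) (hχ : ∀ m b, ‖χ m b‖ ≤ 1) (hD : ∀ m b, ‖D m b‖ ≤ C)
    (h : ∀ b, ψ b = ∑ m ∈ S, χ m b * D m b) :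
    dia ψ = ∑ m ∈ S, dia (χ m) * dia (D m) := by
  refine ContinuousLinearMap.ext fun ξ => ?_
  ext b
  rw [G3b_sum_apply, dia_apply hC hψ, h b, Finset.sum_mul]
  refine Finset.sum_congr rfl fun m _ => ?_
  change _ = (dia (χ m) (dia (D m) ξ) : Bs I → ℂ) b
  rw [dia_apply zero_le_one (hχ m), dia_apply hC (hD m), mul_assoc]

/-- STABILITY. PROOF: let `L ⊇ M`, `p`, `θ = A.θ p`. By `hf` (`rdF θ L b` and `ind (res M (rdF θ L b))` agree on `M`)
`optf f (r.R p (rdF θ L b) b.F) = ∑_{m ⊆ M} [res M (rdF θ L b) = m] * D_m b`, `D_m b = optf f (r.R p (ind m) b.F)`, so the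
multiplication operator is `∑ dia χ_m * dia D_m` (coordinates). `UKf L (ang' θ)` commutes with `dia D_m` (`UKf_comm`): for
`θ i = 0` or `1` the angle is `0` (`Ui_zero`); for `0 < θ i < 1` `Ui_comm_dia` with `r.loc` (`(fl i b).F` is `tg i b.F` or
`b.F`). Then `stage_EM`. -/
theorem Rdr.stable (e : I ↪ ℕ) {M : Finset I} {f : C₀(X, ℂ)} (hf : r.Cyl M f) :
    (r.sys e).St f M (r.nM M f) := by
  classical
  intro L hL p
  rw [r.nM_apply, r.sys_U]
  have hπ : (dia fun b => optf f ((r.sys e).π L p b) : BL (Bs I)) =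
      ∑ m ∈ M.powerset, dia (fun b : Bs I => if res M (rdF (A.θ p) L b) = m then 1 else 0) *
        dia (fun b : Bs I => optf f (r.R p (ind m) b.F)) := by
    refine G3b_dia_sum M.powerset
      (fun m (b : Bs I) => if res M (rdF (A.θ p) L b) = m then 1 else 0)
      (fun m (b : Bs I) => optf f (r.R p (ind m) b.F)) _ (norm_nonneg f)
      (fun b => norm_optf_le f _) (fun m b => by split_ifs <;> simp)
      (fun m b => norm_optf_le f _) fun b => ?_
    have h1 : res M (rdF (A.θ p) L b) ∈ M.powerset :=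
      Finset.mem_powerset.2 (Finset.filter_subset _ _)
    simp only [ite_mul, one_mul, zero_mul]
    rw [Finset.sum_ite_eq, if_pos h1, r.sys_π]
    refine hf p _ _ _ fun i hi => ?_
    unfold ind res
    rw [Bool.eq_iff_iff]
    simp [hi]
  rw [hπ, Finset.mul_sum, Finset.sum_mul]
  refine Finset.sum_congr rfl fun m _ => ?_
  have hcomm : ∀ i ∈ L, Commute (Ui i (ang' (A.θ p) i))
      (dia (fun b : Bs I => optf f (r.R p (ind m) b.F))) := by
    intro i _
    by_cases h1 : A.θ p i = 1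
    · have h2 : ang' (A.θ p) i = 0 := by
        unfold ang'
        rw [if_pos h1]
      rw [h2, Ui_zero]
      exact Commute.one_left _
    · have h2 : ang' (A.θ p) i = A.θ p i * (Real.pi / 2) := by
        unfold ang'
        rw [if_neg h1]
      by_cases h3 : A.θ p i = 0
      · rw [h2, h3, zero_mul, Ui_zero]
        exact Commute.one_left _
      · refine Ui_comm_dia i _ (norm_nonneg f) (fun b => norm_optf_le f _) fun b => ?_
        rcases G3b_fl_F i b with h4 | h4
        · rw [h4, r.loc p _ _ i (lt_of_le_of_ne (A.nonneg p i) (Ne.symm h3))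
            (lt_of_le_of_ne (A.le_one p i) h1)]
        · rw [h4]
  have h5 := (UKf_comm hcomm).2
  rw [← stage_EM hL m (A.θ p), mul_assoc, mul_assoc, ← h5.eq]
  simp only [mul_assoc]

/-- PROOF: `stable` at the stage `M ∪ M'`: both are equal to the conjugate at this stage. -/
theorem Rdr.nM_eq {M M' : Finset I} {f : C₀(X, ℂ)} (hf : r.Cyl M f) (hf' : r.Cyl M' f)
    (e : I ↪ ℕ) : r.nM M f = r.nM M' f := by
  refine FB.ext fun p => ?_
  exact (r.stable e hf (M ∪ M') Finset.subset_union_left p).symm.trans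
    (r.stable e hf' (M ∪ M') Finset.subset_union_right p)

end Pool.Agent.Lib.MP_aa9b81_an.Mc
end
end

section

/-!
# The machine, part G4: the representation of a reader
-/

open scoped ENNReal Topology ZeroAtInfty
open Function Set

noncomputable section

namespace Pool.Agent.Lib.MP_aa9b81_an.Mc

open Cut Hs

variable {Γ X P I : Type} [Group Γ] [TopologicalSpace X] [MulAction Γ X] [TopologicalSpace P]
  [MulAction Γ P] [MulAction Γ I] [DecidableEq I] {A : Ang Γ P I} (r : Rdr Γ X P I A)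

/-- The conditions on `f` for the representation. -/
structure Rdr.Good (M : Finset I) (f : C₀(X, ℂ)) : Prop where
  cyl : r.Cyl M f
  cont : ∀ m ⊆ M, ∀ b' b : Bs I, Continuous fun p =>
    ker (EM M m (ang (A.θ p))) b' b * optf f (r.R p (ind m) b.F)
  zero : ∀ ε : ℝ, 0 < ε → ∃ K : Set P, IsCompact K ∧ ∀ p ∉ K, ∀ x F, ‖optf f (r.R p x F)‖ ≤ ε

variable {r}

private theorem G4_ker_sum {ι : Type} (s : Finset ι) (T : ι → BL (Bs I)) (b b' : Bs I) :
    ker (∑ m ∈ s, T m) b b' = ∑ m ∈ s, ker (T m) b b' := by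
  classical
  induction s using Finset.induction_on with
  | empty =>
    rw [Finset.sum_empty, Finset.sum_empty]
    unfold ker
    rw [ContinuousLinearMap.zero_apply]
    rfl
  | insert i s hi ih =>
    rw [Finset.sum_insert hi, Finset.sum_insert hi, ← ih]
    unfold ker
    rw [ContinuousLinearMap.add_apply, lp.coeFn_add, Pi.add_apply]

private theorem G4_ker (M : Finset I) (f : C₀(X, ℂ)) (p : P) (b b' : Bs I) :
    ker (r.nM M f p) b b' = ∑ m ∈ M.powerset, ker (EM M m (ang (A.θ p))) b b' *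
      optf f (r.R p (ind m) b'.F) := by
  rw [Rdr.nM_apply, G4_ker_sum]
  exact Finset.sum_congr rfl fun m _ =>
    ker_mul_dia _ (norm_nonneg f) (fun b => norm_optf_le f _) b b'

/-- PROOF: `row`, `col`: `ker (nM M f p) b b' = ∑ ker (EM M m ..) b b' * optf f (..)` (`ker_mul_dia`; `ker` is additive),
`ker_EM_supp`, and the set of the `b'` with `b'.S = b.S`, `b'.F ∖ M = b.F ∖ M` is finite (`Hs.finite_supp`), symmetric in
`b`, `b'`. `cont`: the same formula, `Good.cont`. `zero`: `Good.zero` for `ε / 2^|M|`, `norm_EM_le`, `norm_dia_le`. -/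
theorem Rdr.Good.mz {M : Finset I} {f : C₀(X, ℂ)} (h : r.Good M f) : MZ (r.nM M f) := by
  refine ⟨fun b => ⟨(finite_supp M b).toFinset, fun p b' hb' => ?_⟩,
    fun b' => ⟨(finite_supp M b').toFinset, fun p b hb => ?_⟩, fun b b' => ?_, fun ε hε => ?_⟩
  · rw [G4_ker]
    refine Finset.sum_eq_zero fun m _ => ?_
    have h1 : ker (EM M m (ang (A.θ p))) b b' = 0 := by
      by_contra h2
      exact hb' ((Set.Finite.mem_toFinset _).2 (ker_EM_supp M m _ b b' h2))
    rw [h1, zero_mul]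
  · rw [G4_ker]
    refine Finset.sum_eq_zero fun m _ => ?_
    have h1 : ker (EM M m (ang (A.θ p))) b b' = 0 := by
      by_contra h2
      have h3 := ker_EM_supp M m _ b b' h2
      exact hb ((Set.Finite.mem_toFinset _).2 ⟨h3.1.symm, h3.2.symm⟩)
    rw [h1, zero_mul]
  · have h1 : (fun p => ker (r.nM M f p) b b') = fun p =>
        ∑ m ∈ M.powerset, ker (EM M m (ang (A.θ p))) b b' * optf f (r.R p (ind m) b'.F) :=
      funext fun p => G4_ker M f p b b'
    rw [h1]
    exact continuous_finsetSum _ fun m hm => h.cont m (Finset.mem_powerset.1 hm) b b'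
  · have h2 : (0 : ℝ) < 2 ^ M.card := by positivity
    obtain ⟨K, hK, hK'⟩ := h.zero (ε / 2 ^ M.card) (by positivity)
    refine ⟨K, hK, fun p hp => ?_⟩
    have h3 : ∀ m ∈ M.powerset, ‖EM M m (ang (A.θ p)) *
        dia (fun b : Bs I => optf f (r.R p (ind m) b.F))‖ ≤ ε / 2 ^ M.card := by
      intro m _
      refine (norm_mul_le _ _).trans ?_
      have e1 := norm_EM_le M m (ang (A.θ p))
      have e2 : ‖(dia (fun b : Bs I => optf f (r.R p (ind m) b.F)) : BL (Bs I))‖ ≤
          ε / 2 ^ M.card := norm_dia_le (by positivity) fun b => hK' p hp (ind m) b.F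
      calc ‖EM M m (ang (A.θ p))‖ * ‖(dia (fun b : Bs I => optf f (r.R p (ind m) b.F)) :
            BL (Bs I))‖ ≤ 1 * (ε / 2 ^ M.card) :=
            mul_le_mul e1 e2 (norm_nonneg _) zero_le_one
        _ = ε / 2 ^ M.card := one_mul _
    rw [Rdr.nM_apply]
    refine (norm_sum_le _ _).trans ((Finset.sum_le_sum h3).trans ?_)
    rw [Finset.sum_const, Finset.card_powerset, nsmul_eq_mul]
    push_cast
    rw [mul_div_cancel₀ _ h2.ne']

end Pool.Agent.Lib.MP_aa9b81_an.Mc
end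
end

section

/-!
# The machine, part H0: cylinder approximation
-/

open scoped ENNReal Topology ZeroAtInfty
open Function Set

noncomputable section

namespace Pool.Agent.Lib.MP_aa9b81_an.Mc

open Cut Hs

variable {I : Type} [DecidableEq I]

omit [DecidableEq I] in
private theorem H0b_nhds (x₀ : Pow I) {W : Set (Pow I)} (hW : W ∈ 𝓝 x₀) :
    ∃ M : Finset I, (∀ x : Pow I, (∀ i ∈ M, x i = x₀ i) → x ∈ W) ∧
      {x : Pow I | ∀ i ∈ M, x i = x₀ i} ∈ 𝓝 x₀ := by
  have h1 : W ∈ Filter.pi fun i => 𝓝 (x₀ i) := by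
    have h2 : 𝓝 x₀ = Filter.pi fun i => 𝓝 (x₀ i) := nhds_pi
    rwa [h2] at hW
  obtain ⟨J, hJ, t, ht, hsub⟩ := Filter.mem_pi.1 h1
  refine ⟨hJ.toFinset, fun x hx => hsub fun i hi => ?_, ?_⟩
  · rw [hx i ((Set.Finite.mem_toFinset hJ).2 hi)]
    exact mem_of_mem_nhds (ht i)
  · have h3 : {x : Pow I | ∀ i ∈ hJ.toFinset, x i = x₀ i} =
        ⋂ i ∈ hJ.toFinset, {x : Pow I | x i = x₀ i} := by
      ext x
      simp only [Set.mem_ofPred_eq, Set.mem_iInter]
    rw [h3, Filter.biInter_finset_mem]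
    intro i _
    have h4 : IsOpen {x : Pow I | x i = x₀ i} :=
      (isOpen_discrete {x₀ i}).preimage (continuous_apply (A := fun _ : I => Bool) i)
    exact h4.mem_nhds rfl

omit [DecidableEq I] in
private theorem H0b_compact {Y : Type} [TopologicalSpace Y] (F : C₀(Y × Pow I, ℂ))
    {ε : ℝ} (hε : 0 < ε) : ∃ Ky : Set Y, IsCompact Ky ∧ ∀ y ∉ Ky, ∀ x, ‖F (y, x)‖ < ε := by
  have h1 : ∀ᶠ z in Filter.cocompact (Y × Pow I), ‖F z‖ < ε := by
    have h2 := F.zero_at_infty'.norm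
    rw [norm_zero] at h2
    exact h2.eventually (gt_mem_nhds hε)
  obtain ⟨K, hK, hKs⟩ := Filter.mem_cocompact.1 h1
  refine ⟨Prod.fst '' K, hK.image continuous_fst, fun y hy x => ?_⟩
  exact hKs fun h => hy ⟨(y, x), h, rfl⟩

/-- PROOF. Let `Ky ⊆ Y` be the compact projection of the compact set `{z | ε/2 ≤ ‖F z‖}`, `K' = Ky × Pow I` (compact). Every
point `(y₀, x₀)` of `K'` has a neighbourhood `V × {x | x = x₀ on M₀}`, `M₀` finite, on which
`‖F - F(y₀, x₀)‖ < ε/2`; finitely many cover `K'`; let `M` be the union of their sets `M₀`. For `(y, x) ∈ K'` in one of them,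
`ind (res M x)` agrees with `x` on `M ⊇ M₀`, so `(y, ind (res M x))` is in it too, and `‖F(y, ind (res M x)) - F(y, x)‖ ≤ ε`.
For `y ∉ Ky` both values have norm at most `ε/2`. -/
theorem exists_cut_near {Y : Type} [TopologicalSpace Y] [T2Space Y] (F : C₀(Y × Pow I, ℂ))
    {ε : ℝ} (hε : 0 < ε) : ∃ M : Finset I, ∀ y x, ‖F (y, ind (res M x)) - F (y, x)‖ ≤ ε := by
  obtain ⟨Ky, hKy, hF⟩ := H0b_compact F (half_pos hε)
  have hc : IsCompact (Ky ×ˢ (Set.univ : Set (Pow I))) := hKy.prod isCompact_univ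
  obtain ⟨M, hM⟩ := hc.induction_on (p := fun s => ∃ M : Finset I, ∀ z ∈ s, ∀ x' : Pow I,
      (∀ i ∈ M, x' i = z.2 i) → ‖F (z.1, x') - F z‖ ≤ ε)
    ⟨∅, fun z hz => absurd hz (Set.notMem_empty z)⟩
    (fun s t hst ⟨M, hM⟩ => ⟨M, fun z hz => hM z (hst hz)⟩)
    (fun s t ⟨M, hM⟩ ⟨M', hM'⟩ => ⟨M ∪ M', fun z hz x' hx' => hz.elim
      (fun h => hM z h x' fun i hi => hx' i (Finset.mem_union_left _ hi))
      (fun h => hM' z h x' fun i hi => hx' i (Finset.mem_union_right _ hi))⟩)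
    (fun z₀ _ => by
      have hnear : {z | ‖F z - F z₀‖ < ε / 2} ∈ 𝓝 z₀ := by
        have h1 : Continuous fun z => ‖F z - F z₀‖ := (F.continuous.sub continuous_const).norm
        exact (isOpen_lt h1 continuous_const).mem_nhds (by simp [hε])
      obtain ⟨V, hV, W, hW, hVW⟩ := mem_nhds_prod_iff.1 hnear
      obtain ⟨M, hM1, hM2⟩ := H0b_nhds z₀.2 hW
      refine ⟨V ×ˢ {x : Pow I | ∀ i ∈ M, x i = z₀.2 i},
        mem_nhdsWithin_of_mem_nhds (prod_mem_nhds hV hM2), M, fun z hz x' hx' => ?_⟩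
      have h1 : ‖F (z.1, x') - F z₀‖ < ε / 2 :=
        hVW (Set.mk_mem_prod hz.1 (hM1 x' fun i hi => (hx' i hi).trans (hz.2 i hi)))
      have h2 : ‖F z - F z₀‖ < ε / 2 := hVW (Set.mk_mem_prod hz.1 (hM1 z.2 hz.2))
      calc ‖F (z.1, x') - F z‖ = ‖(F (z.1, x') - F z₀) - (F z - F z₀)‖ := by
            rw [sub_sub_sub_cancel_right]
        _ ≤ ‖F (z.1, x') - F z₀‖ + ‖F z - F z₀‖ := norm_sub_le _ _
        _ ≤ ε := by linarith)
  refine ⟨M, fun y x => ?_⟩
  by_cases hy : y ∈ Ky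
  · refine hM (y, x) ⟨hy, Set.mem_univ _⟩ (ind (res M x)) fun i hi => ?_
    change decide (i ∈ M.filter fun i => x i = true) = x i
    cases hx : x i
    · rw [decide_eq_false_iff_not, Finset.mem_filter, hx]
      exact fun h => Bool.false_ne_true h.2
    · rw [decide_eq_true_iff, Finset.mem_filter]
      exact ⟨hi, hx⟩
  · have h1 := hF y hy (ind (res M x))
    have h2 := hF y hy x
    exact (norm_sub_le _ _).trans (by linarith)

end Pool.Agent.Lib.MP_aa9b81_an.Mc
end
end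

section

/-!
# The machine, part H0: cylinder approximation
-/

open scoped ENNReal Topology ZeroAtInfty
open Function Set

noncomputable section

namespace Pool.Agent.Lib.MP_aa9b81_an.Mc

open Cut Hs

variable {I : Type} [DecidableEq I]

private theorem H0c_continuous (M : Finset I) : Continuous fun x : Pow I => ind (res M x) := by
  refine continuous_pi (A := fun _ : I => Bool) fun i => ?_
  by_cases hi : i ∈ M
  · have h : (fun x : Pow I => ind (res M x) i) = fun x => x i := by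
      funext x
      change decide (i ∈ M.filter fun i => x i = true) = x i
      cases hx : x i
      · rw [decide_eq_false_iff_not, Finset.mem_filter, hx]
        exact fun h => Bool.false_ne_true h.2
      · rw [decide_eq_true_iff, Finset.mem_filter]
        exact ⟨hi, hx⟩
    rw [h]
    exact continuous_apply (A := fun _ : I => Bool) i
  · have h : (fun x : Pow I => ind (res M x) i) = fun _ => false := by
      funext x
      change decide (i ∈ M.filter fun i => x i = true) = false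
      rw [decide_eq_false_iff_not, Finset.mem_filter]
      exact fun h => hi h.1
    rw [h]
    exact continuous_const

/-- PROOF: `x ↦ ind (res M x)` is continuous (every coordinate is continuous); `{ε ≤ ‖G‖}` is closed and contained in the
compact set `Ky × Pow I`. -/
theorem exists_C0_cutM {Y : Type} [TopologicalSpace Y] [T2Space Y] (F : C₀(Y × Pow I, ℂ))
    (M : Finset I) : ∃ G : C₀(Y × Pow I, ℂ), ∀ y x, G (y, x) = F (y, ind (res M x)) := by
  have hcont : Continuous fun z : Y × Pow I => F (z.1, ind (res M z.2)) :=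
    F.continuous.comp (continuous_fst.prodMk ((H0c_continuous M).comp continuous_snd))
  refine ⟨⟨⟨fun z => F (z.1, ind (res M z.2)), hcont⟩, ?_⟩, fun y x => rfl⟩
  change Filter.Tendsto (fun z : Y × Pow I => F (z.1, ind (res M z.2)))
    (Filter.cocompact (Y × Pow I)) (𝓝 0)
  rw [Metric.tendsto_nhds]
  intro ε hε
  have h1 : ∀ᶠ z in Filter.cocompact (Y × Pow I), ‖F z‖ < ε := by
    have h2 := F.zero_at_infty'.norm
    rw [norm_zero] at h2
    exact h2.eventually (gt_mem_nhds hε)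
  obtain ⟨K, hK, hKs⟩ := Filter.mem_cocompact.1 h1
  refine Filter.mem_cocompact.2 ⟨(Prod.fst '' K) ×ˢ (Set.univ : Set (Pow I)),
    (hK.image continuous_fst).prod isCompact_univ, fun z hz => ?_⟩
  change dist (F (z.1, ind (res M z.2))) 0 < ε
  rw [dist_zero_right]
  exact hKs fun h => hz ⟨⟨_, h, rfl⟩, Set.mem_univ _⟩

end Pool.Agent.Lib.MP_aa9b81_an.Mc
end
end

section

/-!
# The machine, part H0: cylinder approximation
-/

open scoped ENNReal Topology ZeroAtInfty
open Function Set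

noncomputable section

namespace Pool.Agent.Lib.MP_aa9b81_an.Mc

open Cut Hs

variable {I : Type} [DecidableEq I]

/-- A continuous cut off of the values of norm at most `δ`. -/
private def H0d_psi (δ : ℝ) (w : ℂ) : ℂ := w * ((max 0 (‖w‖ - δ) / max ‖w‖ δ : ℝ) : ℂ)

private theorem H0d_psi_continuous {δ : ℝ} (hδ : 0 < δ) : Continuous (H0d_psi δ) := by
  unfold H0d_psi
  refine continuous_id.mul (Complex.continuous_ofReal.comp ?_)
  refine (continuous_const.max (continuous_norm.sub continuous_const)).div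
    (continuous_norm.max continuous_const) fun w => ?_
  exact (lt_of_lt_of_le hδ (le_max_right _ _)).ne'

private theorem H0d_psi_zero {δ : ℝ} {w : ℂ} (hw : ‖w‖ ≤ δ) : H0d_psi δ w = 0 := by
  rw [H0d_psi, max_eq_left (by linarith), zero_div, Complex.ofReal_zero, mul_zero]

private theorem H0d_psi_sub {δ : ℝ} (hδ : 0 < δ) (w : ℂ) : ‖w - H0d_psi δ w‖ ≤ δ := by
  rcases le_or_gt ‖w‖ δ with hw | hw
  · rwa [H0d_psi_zero hw, sub_zero]
  · have h0 : ‖w‖ ≠ 0 := (hδ.trans hw).ne'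
    have h1 : w - H0d_psi δ w = w * ((δ / ‖w‖ : ℝ) : ℂ) := by
      rw [H0d_psi, max_eq_right (by linarith : (0 : ℝ) ≤ ‖w‖ - δ), max_eq_left hw.le]
      have h2 : ((‖w‖ - δ) / ‖w‖ : ℝ) = 1 - δ / ‖w‖ := by rw [sub_div, div_self h0]
      rw [h2, Complex.ofReal_sub, Complex.ofReal_one]
      ring
    rw [h1, norm_mul, Complex.norm_real, Real.norm_of_nonneg (div_nonneg hδ.le (norm_nonneg _)),
      mul_div_cancel₀ _ h0]

/-- DENSITY OF THE CYLINDER FUNCTIONS. PROOF. Let `F` be the extension by zero of `f` (`exists_extO`), `M` from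
`exists_cut_near` for `δ = ε/2`, `G` from `exists_C0_cutM`. Let `ψ(w) = w * max 0 (1 - δ/‖w‖)` (`0` for `‖w‖ ≤ δ`),
continuous, `‖ψ w - w‖ ≤ δ`. If `‖G (y, x)‖ > δ` then `F (y, x) ≠ 0`, so `(y, x) ∈ range j`: `ψ ∘ G` vanishes off `range j`. Put
`f' = (ψ ∘ G) ∘ j`: continuous, and `{η ≤ ‖f'‖} = j ⁻¹' {η ≤ ‖ψ ∘ G‖}` is compact, as `{η ≤ ‖ψ ∘ G‖}` is a compact subset of
`range j` (`Topology.IsInducing.isCompact_preimage`-like). The extension by zero of `f'` is `ψ ∘ G`, a cylinder function, and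
`‖f - f'‖ ≤ 2 δ`. -/
theorem dense_cyl {X Y : Type} [TopologicalSpace X] [TopologicalSpace Y] [T2Space Y]
    {j : X → Y × Pow I} (hj : Topology.IsOpenEmbedding j) (f : C₀(X, ℂ)) {ε : ℝ} (hε : 0 < ε) :
    ∃ (f' : C₀(X, ℂ)) (M : Finset I), (∀ y x x', (∀ i ∈ M, x i = x' i) →
      optf f' (oinv j (y, x)) = optf f' (oinv j (y, x'))) ∧ ‖f - f'‖ ≤ ε := by
  have hδ : 0 < ε / 2 := half_pos hε
  obtain ⟨F, hF⟩ := exists_extO hj f
  obtain ⟨M, hM⟩ := exists_cut_near F hδ
  obtain ⟨G, hG⟩ := exists_C0_cutM F M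
  have hGF : ∀ z, ‖G z - F z‖ ≤ ε / 2 := fun z => by
    have h := hM z.1 z.2
    rw [← hG] at h
    exact h
  have hoff : ∀ z, z ∉ range j → H0d_psi (ε / 2) (G z) = 0 := fun z hz => by
    refine H0d_psi_zero ?_
    have h := hGF z
    rwa [hF z, oinv_none hz, optf_none, sub_zero] at h
  have hcont : Continuous fun z => H0d_psi (ε / 2) (G z) :=
    (H0d_psi_continuous hδ).comp G.continuous
  have h0 : H0d_psi (ε / 2) 0 = 0 := H0d_psi_zero (by rw [norm_zero]; exact hδ.le)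
  have hvan : Filter.Tendsto (fun x => H0d_psi (ε / 2) (G (j x))) (Filter.cocompact X) (𝓝 0) := by
    rw [Metric.tendsto_nhds]
    intro η hη
    have h1 : ∀ᶠ z in Filter.cocompact (Y × Pow I), ‖H0d_psi (ε / 2) (G z)‖ < η := by
      have h2 : Filter.Tendsto (fun z => ‖H0d_psi (ε / 2) (G z)‖) (Filter.cocompact (Y × Pow I))
          (𝓝 ‖H0d_psi (ε / 2) 0‖) :=
        (((H0d_psi_continuous hδ).tendsto 0).comp G.zero_at_infty').norm
      rw [h0, norm_zero] at h2
      exact h2.eventually (gt_mem_nhds hη)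
    obtain ⟨K, hK, hKs⟩ := Filter.mem_cocompact.1 h1
    have hcl : IsClosed {z : Y × Pow I | η ≤ ‖H0d_psi (ε / 2) (G z)‖} :=
      isClosed_le continuous_const hcont.norm
    have hsub : {z : Y × Pow I | η ≤ ‖H0d_psi (ε / 2) (G z)‖} ⊆ K := fun z hz => by
      by_contra h
      have h3 : ‖H0d_psi (ε / 2) (G z)‖ < η := hKs h
      exact absurd h3 (not_lt.2 hz)
    have hcp : IsCompact {z : Y × Pow I | η ≤ ‖H0d_psi (ε / 2) (G z)‖} :=
      hK.of_isClosed_subset hcl hsub
    have hr : {z : Y × Pow I | η ≤ ‖H0d_psi (ε / 2) (G z)‖} ⊆ range j := fun z hz => by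
      by_contra h
      have h3 : η ≤ ‖H0d_psi (ε / 2) (G z)‖ := hz
      rw [hoff z h, norm_zero] at h3
      exact absurd hη (not_lt.2 h3)
    refine Filter.mem_cocompact.2 ⟨j ⁻¹' {z : Y × Pow I | η ≤ ‖H0d_psi (ε / 2) (G z)‖},
      (hj.isInducing.isCompact_preimage_iff hr).2 hcp, fun x hx => ?_⟩
    change dist (H0d_psi (ε / 2) (G (j x))) 0 < η
    rw [dist_zero_right]
    exact not_le.1 hx
  refine ⟨⟨⟨fun x => H0d_psi (ε / 2) (G (j x)), hcont.comp hj.continuous⟩, hvan⟩, M, ?_, ?_⟩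
  · have key : ∀ z, optf (⟨⟨fun x => H0d_psi (ε / 2) (G (j x)), hcont.comp hj.continuous⟩, hvan⟩ :
        C₀(X, ℂ)) (oinv j z) = H0d_psi (ε / 2) (G z) := by
      intro z
      by_cases hz : z ∈ range j
      · obtain ⟨x, rfl⟩ := hz
        rw [oinv_apply hj.injective, optf_some]
        rfl
      · rw [oinv_none hz, optf_none, hoff z hz]
    intro y x x' hxx'
    rw [key, key, hG, hG]
    have h : res M x = res M x' := Finset.filter_congr fun i hi => by rw [hxx' i hi]
    rw [h]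
  · rw [← ZeroAtInftyContinuousMap.norm_toBCF_eq_norm]
    refine (BoundedContinuousFunction.norm_le hε.le).2 fun x => ?_
    change ‖f x - H0d_psi (ε / 2) (G (j x))‖ ≤ ε
    have h1 : F (j x) = f x := by rw [hF, oinv_apply hj.injective, optf_some]
    have h2 := hGF (j x)
    rw [h1] at h2
    calc ‖f x - H0d_psi (ε / 2) (G (j x))‖ =
        ‖(G (j x) - H0d_psi (ε / 2) (G (j x))) - (G (j x) - f x)‖ := by
          rw [sub_sub_sub_cancel_left]
      _ ≤ ‖G (j x) - H0d_psi (ε / 2) (G (j x))‖ + ‖G (j x) - f x‖ := norm_sub_le _ _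
      _ ≤ ε := by linarith [H0d_psi_sub hδ (G (j x))]

end Pool.Agent.Lib.MP_aa9b81_an.Mc
end
end

section

/-!
# The machine, part H3: labels
-/

open scoped ENNReal Topology ZeroAtInfty
open Function Set

noncomputable section

namespace Pool.Agent.Lib.MP_aa9b81_an.Mc

open Cut Hs

variable {Γ B I E : Type} [Group Γ] [TopologicalSpace B] [MulAction Γ B] [MulAction Γ I]
  [AddCommGroup E] [Module ℝ E] [TopologicalSpace E] [T2Space E]
  [ContinuousAdd E] [ContinuousSMul ℝ E] [DistribMulAction Γ E] [SMulCommClass Γ ℝ E]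
  [ContinuousConstSMul Γ E]

/-- The weights of the labels: the sites with positive weight have extreme parameters. -/
structure Lam (A : Ang Γ B I) where
  /-- the weight -/
  lam : B → I → ℝ
  nonneg : ∀ b i, 0 ≤ lam b i
  cont : ∀ i, Continuous fun b => lam b i
  equi : ∀ (g : Γ) b i, lam (g • b) (g • i) = lam b i
  ext : ∀ b i, 0 < lam b i → A.θ b i = 0 ∨ A.θ b i = 1

variable {A : Ang Γ B I} (l : Lam A) (Q : ConvexSpace Γ E) (q : I → Q.Pt)

omit [T2Space E] [ContinuousAdd E] [ContinuousSMul ℝ E] [SMulCommClass Γ ℝ E]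
  [ContinuousConstSMul Γ E] in
/-- PROOF: a convex combination: `Convex.sum_mem` (`Finset.smul_sum`, `Finset.sum_div`). -/
theorem lab_mem (b : B) (F : Finset I) (h : 0 < ∑ i ∈ F, l.lam b i) :
    (∑ i ∈ F, l.lam b i)⁻¹ • ∑ i ∈ F, l.lam b i • (q i).1 ∈ Q.carrier := by
  rw [Finset.smul_sum]
  simp_rw [smul_smul]
  refine Q.convex.sum_mem (fun i _ => ?_) ?_ (fun i _ => (q i).2)
  · exact mul_nonneg (inv_nonneg.2 h.le) (l.nonneg b i)
  · rw [← Finset.mul_sum]
    exact inv_mul_cancel₀ h.ne'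

open Classical in
/-- The label of the finite set `F`: the average of the `q i`, `i ∈ F`. -/
def Lam.lab (b : B) (F : Finset I) : Option Q.Pt :=
  if h : 0 < ∑ i ∈ F, l.lam b i then some ⟨_, lab_mem l Q q b F h⟩ else none

omit [T2Space E] [ContinuousAdd E] [ContinuousSMul ℝ E]
  [ContinuousConstSMul Γ E] in
/-- PROOF: `Finset.sum_map` (`gF`), `l.equi`; the action on `E` is linear (`Finset.smul_sum`, `smul_comm`), `hq`. -/
theorem lab_smul (hq : ∀ (g : Γ) i, q (g • i) = g • q i) (g : Γ) (b : B) (F : Finset I) :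
    l.lab Q q (g • b) (gF g F) = (l.lab Q q b F).map (g • ·) := by
  have h1 : ∑ i ∈ gF g F, l.lam (g • b) i = ∑ i ∈ F, l.lam b i := by
    unfold gF
    rw [Finset.sum_map]
    exact Finset.sum_congr rfl fun i _ => l.equi g b i
  have h2 : ∑ i ∈ gF g F, l.lam (g • b) i • (q i).1 = g • ∑ i ∈ F, l.lam b i • (q i).1 := by
    unfold gF
    rw [Finset.sum_map, Finset.smul_sum]
    refine Finset.sum_congr rfl fun i _ => ?_
    have e1 : (MulAction.toPerm g).toEmbedding i = g • i := rfl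
    have e2 : (q (g • i)).1 = g • (q i).1 := by rw [hq]; rfl
    rw [e1, l.equi, e2]
    exact (smul_comm g (l.lam b i) (q i).1).symm
  unfold Lam.lab
  by_cases h : 0 < ∑ i ∈ F, l.lam b i
  · have h' : 0 < ∑ i ∈ gF g F, l.lam (g • b) i := by rw [h1]; exact h
    rw [dif_pos h, dif_pos h', Option.map_some]
    congr 1
    apply Subtype.ext
    change (∑ i ∈ gF g F, l.lam (g • b) i)⁻¹ • ∑ i ∈ gF g F, l.lam (g • b) i • (q i).1
      = g • ((∑ i ∈ F, l.lam b i)⁻¹ • ∑ i ∈ F, l.lam b i • (q i).1)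
    rw [h1, h2]
    exact (smul_comm g _ _).symm
  · have h' : ¬ 0 < ∑ i ∈ gF g F, l.lam (g • b) i := by rw [h1]; exact h
    rw [dif_neg h, dif_neg h', Option.map_none]

omit [T2Space E] [ContinuousAdd E] [ContinuousSMul ℝ E] [SMulCommClass Γ ℝ E]
  [ContinuousConstSMul Γ E] in
/-- PROOF: the sums over `F` and `tg i F` are equal if the term of `i` is `0`. -/
theorem lab_tg [DecidableEq I] {b : B} {i : I} (h : l.lam b i = 0) (F : Finset I) :
    l.lab Q q b (tg i F) = l.lab Q q b F := by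
  have h1 : ∑ j ∈ tg i F, l.lam b j = ∑ j ∈ F, l.lam b j := by
    unfold tg
    split_ifs with hi
    · rw [← Finset.add_sum_erase F _ hi, h, zero_add]
    · rw [Finset.sum_insert hi, h, zero_add]
  have h2 : ∑ j ∈ tg i F, l.lam b j • (q j).1 = ∑ j ∈ F, l.lam b j • (q j).1 := by
    unfold tg
    split_ifs with hi
    · rw [← Finset.add_sum_erase F _ hi, h, zero_smul, zero_add]
    · rw [Finset.sum_insert hi, h, zero_smul, zero_add]
  unfold Lam.lab
  by_cases hp : 0 < ∑ j ∈ F, l.lam b j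
  · have hp' : 0 < ∑ j ∈ tg i F, l.lam b j := by rw [h1]; exact hp
    rw [dif_pos hp, dif_pos hp']
    congr 1
    apply Subtype.ext
    change (∑ j ∈ tg i F, l.lam b j)⁻¹ • ∑ j ∈ tg i F, l.lam b j • (q j).1
      = (∑ j ∈ F, l.lam b j)⁻¹ • ∑ j ∈ F, l.lam b j • (q j).1
    rw [h1, h2]
  · have hp' : ¬ 0 < ∑ j ∈ tg i F, l.lam b j := by rw [h1]; exact hp
    rw [dif_neg hp, dif_neg hp']

end Pool.Agent.Lib.MP_aa9b81_an.Mc
end
end

section

section
/-!
# The machine, part G4: the representation of a reader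
-/

open scoped ENNReal Topology ZeroAtInfty
open Function Set

noncomputable section

namespace Pool.Agent.Lib.MP_aa9b81_an.Mc

open Cut Hs

variable {Γ X P I : Type} [Group Γ] [TopologicalSpace X] [MulAction Γ X] [TopologicalSpace P]
  [MulAction Γ P] [MulAction Γ I] [DecidableEq I] {A : Ang Γ P I} (r : Rdr Γ X P I A)

variable {r}

/-- PROOF: `EM_comm_Pp`, and `dia`, `Pp` are multiplication operators. -/
theorem Rdr.par (M : Finset I) (f : C₀(X, ℂ)) : cst Pp * r.nM M f = r.nM M f * cst Pp := by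
  refine FB.ext fun p => ?_
  rw [FB.mul_apply, FB.mul_apply, cst_apply, r.nM_apply, Finset.mul_sum, Finset.sum_mul]
  refine Finset.sum_congr rfl fun m _ => ?_
  have h1 : Commute (dia fun b : Bs I => optf f (r.R p (ind m) b.F)) (Pp : BL (Bs I)) := by
    refine ContinuousLinearMap.ext fun ξ => ?_
    ext b
    change (dia (fun b : Bs I => optf f (r.R p (ind m) b.F)) (Pp ξ) : Bs I → ℂ) b =
      (Pp (dia (fun b : Bs I => optf f (r.R p (ind m) b.F)) ξ) : Bs I → ℂ) b
    rw [dia_apply (norm_nonneg f) (fun b => norm_optf_le f _), Pp_apply, Pp_apply,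
      dia_apply (norm_nonneg f) (fun b => norm_optf_le f _)]
    split_ifs
    · rfl
    · rw [mul_zero]
  exact ((EM_comm_Pp M m (ang (A.θ p))).mul_left h1).eq.symm

/-- PROOF: `EM_comm_Cl`, `dia_comm_Cl`. -/
theorem Rdr.loc' (M : Finset I) (f : C₀(X, ℂ)) (e : I ↪ ℕ) {a : Finset I → I → ℝ} {C : ℝ}
    (ha : CB a C) (hM : Uns M a) : Commute (r.nM M f) (cst (Cl e a)) := by
  refine FB.ext fun p => ?_
  rw [FB.mul_apply, FB.mul_apply, cst_apply, r.nM_apply, Finset.mul_sum, Finset.sum_mul]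
  refine Finset.sum_congr rfl fun m _ => ?_
  exact ((EM_comm_Cl e ha hM m (ang (A.θ p))).mul_left (dia_comm_Cl e ha
    (ψ := fun F => optf f (r.R p (ind m) F)) (norm_nonneg f) fun F => norm_optf_le f _)).eq

variable (r) in
open Classical in
/-- The representation of the function `f`, for a chosen `M`. -/
def Rdr.nn (f : C₀(X, ℂ)) : FB (Bs I) P := if h : ∃ M, r.Good M f then r.nM h.choose f else 0

/-- PROOF: definition, `nM_eq`. -/
theorem Rdr.nn_eq {M : Finset I} {f : C₀(X, ℂ)} (h : r.Good M f) (e : I ↪ ℕ) :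
    r.nn f = r.nM M f := by
  have h' : ∃ M, r.Good M f := ⟨M, h⟩
  unfold Rdr.nn
  rw [dif_pos h']
  exact r.nM_eq h'.choose_spec.cyl h.cyl e

variable [ContinuousConstSMul Γ X]

variable (r) in
/-- PROOF: `Sys.exists_rep` for `r.sys e`, `Rdr.stable`, `nn_eq`. -/
theorem Rdr.exists_Θ (c : ℕ × Bs I ≃ ℕ) (e : I ↪ ℕ) {dom : Set C₀(X, ℂ)}
    (dense : ∀ (f : C₀(X, ℂ)) (ε : ℝ), 0 < ε →
      ∃ l : List C₀(X, ℂ), (∀ f' ∈ l, f' ∈ dom) ∧ ‖f - l.sum‖ ≤ ε)
    (hg : ∀ f ∈ dom, ∃ M, r.Good M f) :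
    ∃ Θ : cp Γ X →ₙ+* Fam Γ P, (∀ a, ‖Θ a‖ ≤ ‖(a : Fam Γ X)‖) ∧
      ∀ f ∈ dom, ∀ g i j (hm : gen f g i j ∈ cp Γ X),
        Θ ⟨gen f g i j, hm⟩ = cov c (sact e) g i j (r.nn f) := by
  refine (r.sys e).exists_rep c dense (n := r.nn) fun f hf => ?_
  obtain ⟨M, hM⟩ := hg f hf
  refine ⟨M, ?_⟩
  rw [Rdr.nn_eq hM e]
  exact r.stable e hM.cyl

variable (r) in
/-- The representation of a reader. -/
def Rdr.rp (c : ℕ × Bs I ≃ ℕ) (e : I ↪ ℕ) {dom : Set C₀(X, ℂ)}
    (dense : ∀ (f : C₀(X, ℂ)) (ε : ℝ), 0 < ε →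
      ∃ l : List C₀(X, ℂ), (∀ f' ∈ l, f' ∈ dom) ∧ ‖f - l.sum‖ ≤ ε)
    (hg : ∀ f ∈ dom, ∃ M, r.Good M f) : Rp Γ X P I c e where
  dom := dom
  n := r.nn
  Θ := (r.exists_Θ c e dense hg).choose
  norm_le := (r.exists_Θ c e dense hg).choose_spec.1
  onGen := (r.exists_Θ c e dense hg).choose_spec.2
  dense := dense
  mz f hf := by
    obtain ⟨M, hM⟩ := hg f hf
    rw [Rdr.nn_eq hM e]
    exact hM.mz
  par f hf := by
    obtain ⟨M, hM⟩ := hg f hf
    rw [Rdr.nn_eq hM e]
    exact Rdr.par M f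
  loc f hf := by
    obtain ⟨M, hM⟩ := hg f hf
    rw [Rdr.nn_eq hM e]
    exact ⟨M, fun a C ha hu => Rdr.loc' M f e ha hu⟩

/-- PROOF: `onGen`, `nn_eq`. -/
theorem Rdr.rp_gen (c : ℕ × Bs I ≃ ℕ) (e : I ↪ ℕ) {dom : Set C₀(X, ℂ)}
    (dense : ∀ (f : C₀(X, ℂ)) (ε : ℝ), 0 < ε →
      ∃ l : List C₀(X, ℂ), (∀ f' ∈ l, f' ∈ dom) ∧ ‖f - l.sum‖ ≤ ε)
    (hg : ∀ f ∈ dom, ∃ M, r.Good M f) {f : C₀(X, ℂ)} (hf : f ∈ dom) {M : Finset I}
    (hM : r.Good M f) (g : Γ) (i j : ℕ) (hm : gen f g i j ∈ cp Γ X) :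
    (r.rp c e dense hg).Θ ⟨gen f g i j, hm⟩ = cov c (sact e) g i j (r.nM M f) := by
  rw [← Rdr.nn_eq hM e]
  exact (r.rp c e dense hg).onGen f hf g i j hm

end Pool.Agent.Lib.MP_aa9b81_an.Mc
end

end


section
/-!
# The machine, part H1: the representation of the subsets
-/

open scoped ENNReal Topology ZeroAtInfty
open Function Set

noncomputable section

namespace Pool.Agent.Lib.MP_aa9b81_an.Mc

open Cut Hs

variable {Γ B W I : Type} [Group Γ] [TopologicalSpace B] [MulAction Γ B] [TopologicalSpace W]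
  [MulAction Γ W] [MulAction Γ I]

/-- The parameters on `B × W`. -/
def Ang.fst (A : Ang Γ B I) : Ang Γ (B × W) I where
  θ p := A.θ p.1
  nonneg p := A.nonneg p.1
  le_one p := A.le_one p.1
  cont i := (A.cont i).comp continuous_fst
  equi g p := A.equi g p.1

variable [DecidableEq I]

/-- The reader of the subsets. -/
def r1 (A : Ang Γ B I) : Rdr Γ ((B × Pow I) × W) (B × W) I A.fst where
  R p x _ := some ((p.1, x), p.2)
  smul _ _ _ _ := rfl
  loc _ _ _ _ _ _ := rfl

omit [Group Γ] [MulAction Γ B] [MulAction Γ W] [MulAction Γ I] [DecidableEq I] in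
/-- The cylinder functions. -/
def dom1 (B W I : Type) [TopologicalSpace B] [TopologicalSpace W] :
    Set C₀((B × Pow I) × W, ℂ) :=
  {f | ∃ M : Finset I, ∀ b x x' w, (∀ i ∈ M, x i = x' i) → f ((b, x), w) = f ((b, x'), w)}

omit [Group Γ] [MulAction Γ B] [MulAction Γ W] [MulAction Γ I] in
/-- PROOF: `dense_cyl` for the homeomorphism `((b, x), w) ↦ ((b, w), x)`; `oinv_apply`; the list `[f']`. -/
theorem dense1 [T2Space B] [T2Space W] (f : C₀((B × Pow I) × W, ℂ)) (ε : ℝ) (hε : 0 < ε) :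
    ∃ l : List C₀((B × Pow I) × W, ℂ), (∀ f' ∈ l, f' ∈ dom1 B W I) ∧ ‖f - l.sum‖ ≤ ε := by
  let j : (B × Pow I) × W ≃ₜ (B × W) × Pow I :=
    (Homeomorph.prodAssoc B (Pow I) W).trans
      (((Homeomorph.refl B).prodCongr (Homeomorph.prodComm (Pow I) W)).trans
        (Homeomorph.prodAssoc B W (Pow I)).symm)
  have hj : ∀ b x w, j ((b, x), w) = ((b, w), x) := fun _ _ _ => rfl
  obtain ⟨f', M, h1, h2⟩ := dense_cyl j.isOpenEmbedding f hε
  refine ⟨[f'], fun g hg => ?_, ?_⟩
  · rw [List.mem_singleton] at hg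
    subst hg
    refine ⟨M, fun b x x' w hx => ?_⟩
    have h3 := h1 (b, w) x x' hx
    rw [← hj b x w, ← hj b x' w, oinv_apply j.injective, oinv_apply j.injective] at h3
    exact h3
  · rw [List.sum_singleton]
    exact h2

private theorem H1_coord {J : Type} (b : J) : Continuous fun v : L2 J => (v : J → ℂ) b := by
  exact (lp.evalCLM ℂ (fun _ : J => ℂ) 2 b).continuous

/-- PROOF: `cyl`: definition. `cont`: `f ((p.1, ind m), p.2)` is continuous in `p`, and `ker (EM M m (ang (A.θ p.1))) b' b` is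
continuous: `continuous_EM`, `ang`, `A.cont` (`continuous_pi`), and `X ↦ ker X b' b` is continuous. `zero`: `K` is the image of
the compact set `{x | ε ≤ ‖f x‖}` under `((b, x), w) ↦ (b, w)` (for `ε/2` to get `≤ ε` off it). -/
theorem good1 (A : Ang Γ B I) {f : C₀((B × Pow I) × W, ℂ)} {M : Finset I}
    (hM : ∀ b x x' w, (∀ i ∈ M, x i = x' i) → f ((b, x), w) = f ((b, x'), w)) :
    (r1 A).Good M f := by
  refine ⟨fun p x x' _ hx => hM _ _ _ _ hx, fun m _ b' b => ?_, fun ε hε => ?_⟩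
  · have h1 : Continuous fun p : B × W => ang (A.fst.θ p) := by
      refine continuous_pi fun i => ?_
      exact (A.fst.cont i).mul continuous_const
    have h2 : Continuous fun p : B × W => EM M m (ang (A.fst.θ p)) := (continuous_EM M m).comp h1
    have h3 : Continuous fun p : B × W => ker (EM M m (ang (A.fst.θ p))) b' b := by
      unfold ker
      have h4 : Continuous fun p : B × W => (EM M m (ang (A.fst.θ p))) (bv b) := h2.clm_apply continuous_const
      exact H1_coord b' |>.comp h4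
    have h5 : Continuous fun p : B × W => f ((p.1, ind m), p.2) :=
      f.continuous.comp ((continuous_fst.prodMk continuous_const).prodMk continuous_snd)
    exact h3.mul h5
  · have h1 : ∀ᶠ x in Filter.cocompact ((B × Pow I) × W), ‖f x‖ < ε := by
      have := f.zero_at_infty'
      have h2 := this.norm
      rw [norm_zero] at h2
      exact h2.eventually_lt_const hε
    rw [Filter.eventually_iff, Filter.mem_cocompact] at h1
    obtain ⟨K, hK, hKs⟩ := h1
    refine ⟨(fun x : (B × Pow I) × W => (x.1.1, x.2)) '' K,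
      hK.image ((continuous_fst.comp continuous_fst).prodMk continuous_snd), fun p hp x F => ?_⟩
    have h3 : ((p.1, x), p.2) ∉ K := fun h => hp ⟨_, h, rfl⟩
    have h4 := hKs h3
    exact le_of_lt h4

variable [T2Space B] [T2Space W] [ContinuousConstSMul Γ B] [ContinuousConstSMul Γ W]

/-- The representation of the subsets. -/
def ρ1 (A : Ang Γ B I) (c : ℕ × Bs I ≃ ℕ) (e : I ↪ ℕ) :
    Rp Γ ((B × Pow I) × W) (B × W) I c e :=
  (r1 A).rp c e (dom := dom1 B W I) dense1 fun _ ⟨M, hM⟩ => ⟨M, good1 A hM⟩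

theorem ρ1_gen (A : Ang Γ B I) (c : ℕ × Bs I ≃ ℕ) (e : I ↪ ℕ) {f : C₀((B × Pow I) × W, ℂ)}
    {M : Finset I} (hM : ∀ b x x' w, (∀ i ∈ M, x i = x' i) → f ((b, x), w) = f ((b, x'), w))
    (g : Γ) (i j : ℕ) (hm : gen f g i j ∈ cp Γ ((B × Pow I) × W)) :
    (ρ1 A c e).Θ ⟨gen f g i j, hm⟩ = cov c (sact e) g i j ((r1 A).nM M f) :=
  Rdr.rp_gen c e dense1 (fun _ ⟨M, hM⟩ => ⟨M, good1 A hM⟩) (⟨M, hM⟩ : f ∈ dom1 B W I)
    (good1 A hM) g i j hm

/-- The projection `(B × Pow I) × W → B × W`. -/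
def prP (B W I : Type) (x : (B × Pow I) × W) : B × W := (x.1.1, x.2)

end Pool.Agent.Lib.MP_aa9b81_an.Mc
end

end


section
/-!
# The machine, part H4: the labelled representation
-/

open scoped ENNReal Topology ZeroAtInfty
open Function Set

noncomputable section

namespace Pool.Agent.Lib.MP_aa9b81_an.Mc

open Cut Hs

variable {Γ B I E : Type} [Group Γ] [TopologicalSpace B] [MulAction Γ B] [MulAction Γ I]
  [AddCommGroup E] [Module ℝ E] [TopologicalSpace E] [T2Space E]
  [ContinuousAdd E] [ContinuousSMul ℝ E] [DistribMulAction Γ E] [SMulCommClass Γ ℝ E]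
  [ContinuousConstSMul Γ E] {O W : Type} [TopologicalSpace O] [MulAction Γ O]
  [TopologicalSpace W] [MulAction Γ W]

omit [TopologicalSpace B] [TopologicalSpace O] in
/-- PROOF: `oinv_apply`, `oinv_none`; `z ∈ range o ↔ g • z ∈ range o`. -/
theorem oinv_smul {o : O → B × Pow I} (ho : Injective o) (he : ∀ (g : Γ) x, o (g • x) = g • o x)
    (g : Γ) (z : B × Pow I) : oinv o (g • z) = (oinv o z).map (g • ·) := by
  by_cases h : z ∈ range o
  · obtain ⟨x, rfl⟩ := h
    rw [← he, oinv_apply ho, oinv_apply ho]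
    rfl
  · have h' : g • z ∉ range o := by
      rintro ⟨x, hx⟩
      apply h
      refine ⟨g⁻¹ • x, ?_⟩
      rw [he, hx, inv_smul_smul]
    rw [oinv_none h, oinv_none h']
    rfl

/-- the map of `dense2` -/
private def H4_j {B I O Y : Type} (o : O → B × Pow I) (z : O × Y) : (B × Y) × Pow I :=
  (((o z.1).1, z.2), (o z.1).2)

/-- the exchange of the last two factors -/
private def H4_homeo (B I Y : Type) [TopologicalSpace B] [TopologicalSpace Y] :
    (B × Pow I) × Y ≃ₜ (B × Y) × Pow I where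
  toFun z := ((z.1.1, z.2), z.1.2)
  invFun z := ((z.1.1, z.2), z.1.2)
  left_inv _ := rfl
  right_inv _ := rfl
  continuous_toFun := by fun_prop
  continuous_invFun := by fun_prop

private theorem H4_open {B I O Y : Type} [TopologicalSpace B] [TopologicalSpace O]
    [TopologicalSpace Y] {o : O → B × Pow I} (ho : Topology.IsOpenEmbedding o) :
    Topology.IsOpenEmbedding (H4_j (Y := Y) o) :=
  (H4_homeo B I Y).isOpenEmbedding.comp (ho.prodMap Topology.IsOpenEmbedding.id)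

private theorem H4_inj {B I O Y : Type} {o : O → B × Pow I} (ho : Injective o) :
    Injective (H4_j (Y := Y) o) := by
  rintro ⟨z, y⟩ ⟨z', y'⟩ h
  have h1 : (((o z).1, y), (o z).2) = (((o z').1, y'), (o z').2) := h
  simp only [Prod.mk.injEq] at h1
  have h2 : z = z' := ho (Prod.ext h1.1.1 h1.2)
  rw [h2, h1.1.2]

private theorem H4_oinv {B I O Y : Type} {o : O → B × Pow I} (ho : Injective o) (b : B)
    (y : Y) (x : Pow I) :
    oinv (H4_j (Y := Y) o) ((b, y), x) = (oinv o (b, x)).map fun z => (z, y) := by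
  by_cases h : (b, x) ∈ range o
  · obtain ⟨z, hz⟩ := h
    have h1 : H4_j o (z, y) = ((b, y), x) := by
      unfold H4_j
      rw [hz]
    rw [← h1, oinv_apply (H4_inj ho), ← hz, oinv_apply ho]
    rfl
  · have h' : ((b, y), x) ∉ range (H4_j (Y := Y) o) := by
      rintro ⟨⟨z, y'⟩, hz⟩
      apply h
      have h1 : (((o z).1, y'), (o z).2) = ((b, y), x) := hz
      simp only [Prod.mk.injEq] at h1
      exact ⟨z, Prod.ext h1.1.1 h1.2⟩
    rw [oinv_none h, oinv_none h']
    rfl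

variable {A : Ang Γ B I} (l : Lam A) (Q : ConvexSpace Γ E) {q : I → Q.Pt}

variable [DecidableEq I]

/-- The reader with labels. -/
def r2 (hq : ∀ (g : Γ) i, q (g • i) = g • q i) {o : O → B × Pow I} (ho : Injective o)
    (he : ∀ (g : Γ) x, o (g • x) = g • o x) :
    Rdr Γ (O × Q.Pt × W) (B × W) I A.fst where
  R p x F := (oinv o (p.1, x)).bind fun z => (l.lab Q q p.1 F).map fun y => (z, y, p.2)
  smul g p x F := by
    have h1 : oinv o ((g • p).1, g • x) = (oinv o (p.1, x)).map (g • ·) :=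
      oinv_smul ho he g (p.1, x)
    have h2 : l.lab Q q (g • p).1 (gF g F) = (l.lab Q q p.1 F).map (g • ·) :=
      lab_smul l Q q hq g p.1 F
    rw [h1, h2]
    cases oinv o (p.1, x) with
    | none => rfl
    | some z =>
      cases l.lab Q q p.1 F with
      | none => rfl
      | some y => rfl
  loc p x F i h0 h1 := by
    have h2 : l.lam p.1 i = 0 := by
      by_contra h
      rcases l.ext p.1 i (lt_of_le_of_ne (l.nonneg _ _) (Ne.symm h)) with h3 | h3
      · exact h0.ne' h3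
      · exact h1.ne h3
    rw [lab_tg l Q q h2]

/-- The value of `f` at `((b, x), y, w)`, and `0` if `(b, x)` is not in the range of `o`. -/
def vf {O Y W Z : Type} [TopologicalSpace O] [TopologicalSpace Y] [TopologicalSpace W]
    (o : O → Z) (f : C₀(O × Y × W, ℂ)) (z : Z) (y : Y) (w : W) : ℂ :=
  optf f ((oinv o z).map fun x => (x, y, w))

/-- The cylinder functions. -/
def Cy2 (Q : ConvexSpace Γ E) (W : Type) [TopologicalSpace W] (o : O → B × Pow I) (M : Finset I)
    (f : C₀(O × Q.Pt × W, ℂ)) : Prop :=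
  ∀ b x x' y w, (∀ i ∈ M, x i = x' i) → vf o f (b, x) y w = vf o f (b, x') y w

omit [ContinuousAdd E] [ContinuousSMul ℝ E] [SMulCommClass Γ ℝ E] [ContinuousConstSMul Γ E]
  [MulAction Γ B] [MulAction Γ O] [MulAction Γ W] [MulAction Γ I] in
/-- PROOF: `dense_cyl` for the open embedding `(z, y, w) ↦ (((o z).1, y, w), (o z).2)` of `O × Q.Pt × W` into
`(B × Q.Pt × W) × Pow I` (a product of open embeddings composed with a homeomorphism); its `oinv` is
`((b, y, w), x) ↦ (oinv o (b, x)).map (·, y, w)` (`oinv_apply`, `oinv_none`, `oinv_eq_some`). -/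
theorem dense2 [T2Space B] [T2Space W] {o : O → B × Pow I} (ho : Topology.IsOpenEmbedding o)
    (f : C₀(O × Q.Pt × W, ℂ)) (ε : ℝ) (hε : 0 < ε) :
    ∃ l : List C₀(O × Q.Pt × W, ℂ), (∀ f' ∈ l, f' ∈ {f | ∃ M, Cy2 Q W o M f}) ∧
      ‖f - l.sum‖ ≤ ε := by
  have hT2 : T2Space Q.Pt := inferInstanceAs (T2Space Q.carrier)
  obtain ⟨f', M, h1, h2⟩ := dense_cyl (H4_open (Y := Q.Pt × W) ho) f hε
  refine ⟨[f'], ?_, ?_⟩
  · intro f'' hf''
    rw [List.mem_singleton] at hf''
    subst hf''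
    refine ⟨M, fun b x x' y w hx => ?_⟩
    have h3 := h1 (b, (y, w)) x x' hx
    rw [H4_oinv ho.injective, H4_oinv ho.injective] at h3
    exact h3
  · rw [List.sum_singleton]
    exact h2

end Pool.Agent.Lib.MP_aa9b81_an.Mc
end

end
end

section

/-!
# The machine, part H3: labels
-/

open scoped ENNReal Topology ZeroAtInfty
open Function Set

noncomputable section

namespace Pool.Agent.Lib.MP_aa9b81_an.Mc

open Cut Hs

variable {Γ B I E : Type} [Group Γ] [TopologicalSpace B] [MulAction Γ B] [MulAction Γ I]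
  [AddCommGroup E] [Module ℝ E] [TopologicalSpace E] [T2Space E]
  [ContinuousAdd E] [ContinuousSMul ℝ E] [DistribMulAction Γ E] [SMulCommClass Γ ℝ E]
  [ContinuousConstSMul Γ E]

variable {A : Ang Γ B I} (l : Lam A) (Q : ConvexSpace Γ E) (q : I → Q.Pt)

omit [T2Space E] [ContinuousAdd E] [ContinuousSMul ℝ E] [SMulCommClass Γ ℝ E]
  [ContinuousConstSMul Γ E] in
/-- PROOF: the set is the preimage of `(0, ∞)` under the continuous function `b ↦ ∑_{i ∈ F} lam b i`. -/
theorem isOpen_lab (F : Finset I) : IsOpen {b | ∃ y, l.lab Q q b F = some y} := by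
  have h1 : {b | ∃ y, l.lab Q q b F = some y} = {b | 0 < ∑ i ∈ F, l.lam b i} := by
    ext b
    simp only [Set.mem_ofPred_eq]
    unfold Lam.lab
    constructor
    · rintro ⟨y, hy⟩
      by_contra h
      rw [dif_neg h] at hy
      exact absurd hy (by simp)
    · intro h
      exact ⟨_, dif_pos h⟩
  rw [h1]
  exact isOpen_lt continuous_const (continuous_finsetSum _ fun i _ => l.cont i)

omit [T2Space E] [SMulCommClass Γ ℝ E] [ContinuousConstSMul Γ E] in
/-- Continuity where the label is defined. PROOF: `b ↦ (∑ lam)⁻¹ • ∑ lam • q i` is continuous on the subtype, with values in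
`Q.carrier` (`lab_mem`): `Continuous.subtype_mk`. -/
theorem continuous_lab (F : Finset I) :
    ∃ L : {b : B // ∃ y, l.lab Q q b F = some y} → Q.Pt, Continuous L ∧
      ∀ b, l.lab Q q b.1 F = some (L b) := by
  have hpos : ∀ b : {b : B // ∃ y, l.lab Q q b F = some y}, 0 < ∑ i ∈ F, l.lam b.1 i := by
    rintro ⟨b, y, hy⟩
    by_contra h
    unfold Lam.lab at hy
    rw [dif_neg h] at hy
    exact absurd hy (by simp)
  refine ⟨fun b => ⟨_, lab_mem l Q q b.1 F (hpos b)⟩, ?_, fun b => ?_⟩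
  · refine Continuous.subtype_mk ?_ _
    have h1 : Continuous fun b : {b : B // ∃ y, l.lab Q q b F = some y} =>
        (∑ i ∈ F, l.lam b.1 i)⁻¹ :=
      Continuous.inv₀ (continuous_finsetSum _ fun i _ => (l.cont i).comp continuous_subtype_val)
        fun b => (hpos b).ne'
    have h2 : Continuous fun b : {b : B // ∃ y, l.lab Q q b F = some y} =>
        ∑ i ∈ F, l.lam b.1 i • (q i).1 :=
      continuous_finsetSum _ fun i _ =>
        ((l.cont i).comp continuous_subtype_val).smul continuous_const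
    exact h1.smul h2
  · unfold Lam.lab
    exact dif_pos (hpos b)

end Pool.Agent.Lib.MP_aa9b81_an.Mc
end
end

section

/-!
# The machine, part H6: the labelled representation extends the representation of the subsets
-/

open scoped ENNReal Topology ZeroAtInfty
open Function Set

noncomputable section

namespace Pool.Agent.Lib.MP_aa9b81_an.Mc

open Cut Hs

/-- PROOF: as in the proof of `Cut.extF_mem_cp` (`hgen` there): at `y = j x` both operators have
`(T ξ)(s, k) = [k = i] f(s x) ξ(g⁻¹ s, j)`; at `y` outside the range `s • y` is outside the range too. -/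
theorem extF_gen {Γ X Z : Type} [Group Γ] [TopologicalSpace X] [MulAction Γ X]
    [TopologicalSpace Z] [MulAction Γ Z] {j : X → Z} (hj : Injective j)
    (he : ∀ (g : Γ) x, j (g • x) = g • j x) {f : C₀(X, ℂ)} {F : C₀(Z, ℂ)}
    (hF : ∀ z, F z = optf f (oinv j z)) (g : Γ) (k m : ℕ) :
    extF j (gen f g k m : Fam Γ X) = gen F g k m := by
  have hnot : ∀ (s : Γ) (y : Z), y ∉ Set.range j → s • y ∉ Set.range j := by
    rintro s y hy ⟨x, hx⟩
    refine hy ⟨s⁻¹ • x, ?_⟩
    rw [he, hx, inv_smul_smul]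
  have hF1 : ∀ x, F (j x) = f x := by
    intro x
    rw [hF, oinv_apply hj, optf_some]
  have hF2 : ∀ y ∉ Set.range j, F y = 0 := by
    intro y hy
    rw [hF, oinv_none hy, optf_none]
  ext1 y
  by_cases hy : y ∈ Set.range j
  · obtain ⟨x, rfl⟩ := hy
    rw [extF_apply hj]
    refine ContinuousLinearMap.ext fun ξ => ?_
    ext1
    funext p
    rw [show p = (p.1, p.2) from rfl, gen_apply, gen_apply, ← he, hF1]
  · rw [extF_apply_of_notMem _ hy]
    refine ContinuousLinearMap.ext fun ξ => ?_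
    ext1
    funext p
    rw [show p = (p.1, p.2) from rfl, gen_apply, hF2 _ (hnot _ _ hy), zero_mul, ite_self]
    rfl

variable {Γ B I E : Type} [Group Γ] [TopologicalSpace B] [MulAction Γ B] [MulAction Γ I]
  [AddCommGroup E] [Module ℝ E] [TopologicalSpace E] [T2Space E]
  [ContinuousAdd E] [ContinuousSMul ℝ E] [DistribMulAction Γ E] [SMulCommClass Γ ℝ E]
  [ContinuousConstSMul Γ E] {O W : Type} [TopologicalSpace O] [MulAction Γ O]
  [TopologicalSpace W] [MulAction Γ W] {A : Ang Γ B I} (l : Lam A) (Q : ConvexSpace Γ E)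
  {q : I → Q.Pt} [DecidableEq I]

omit [TopologicalSpace B] [TopologicalSpace O] [TopologicalSpace W] [Group Γ] [MulAction Γ B]
  [MulAction Γ I] [MulAction Γ O] [MulAction Γ W] [DecidableEq I] in
/-- PROOF: `oinv_apply`, `oinv_none`, `oinv_eq_some`: `(z, w) ∈ range (Prod.map o id) ↔ z ∈ range o`. -/
theorem oinv_prodMap {o : O → B × Pow I} (ho : Injective o) (z : B × Pow I) (w : W) :
    oinv (Prod.map o (id : W → W)) (z, w) = (oinv o z).map fun x => (x, w) := by
  by_cases hz : z ∈ range o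
  · obtain ⟨x, rfl⟩ := hz
    rw [oinv_apply ho]
    exact oinv_apply (ho.prodMap injective_id) (x, w)
  · rw [oinv_none hz]
    refine oinv_none ?_
    rintro ⟨⟨x, w'⟩, h⟩
    exact hz ⟨x, congrArg Prod.fst h⟩

end Pool.Agent.Lib.MP_aa9b81_an.Mc
end
end
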