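import Pool.Agent.Lib.MP_aa9b81_an.Mg.G008
import Pool.Agent.Lib.MP_aa9b81_an.Mg.G015
import Pool.Agent.Lib.MP_aa9b81_an.Mg.G014
import Pool.Agent.Lib.MP_aa9b81_an.Mg.G010
import Pool.Agent.Lib.MP_aa9b81_an.Mg.G018
import Pool.Agent.Lib.MP_aa9b81_an.Mg.G003
import Pool.Agent.Lib.MP_aa9b81_an.Mg.G004
import Pool.Agent.Lib.MP_aa9b81_an.Mg.G006
import Pool.Agent.Lib.MP_aa9b81_an.Mg.G027

section

/-!
# Hereditary shifts, part T3b: the cycles
-/

open scoped ENNReal Topology ZeroAtInfty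
open Function Filter Set

noncomputable section

namespace Pool.Agent.Lib.MP_aa9b81_an.Hs

open Cut

section

variable {Γ P I : Type} [Group Γ] [TopologicalSpace P] [MulAction Γ P] [MulAction Γ I]
  [DecidableEq I] (H : Site Γ P I) (w : Wt Γ I)

/-- PROOF: coordinates (`ext`, `co_coord`, `co_coord_of_notMem`, `sk_m1`, `Pp_apply`): `co a` has values supported in the
coordinates `(s, c(k, vac))`, and `|vac.S| = 0` is even. -/
theorem m1_Pp_mul_co (c : ℕ × Bs I ≃ ℕ) (a : Fam Γ P) :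
    (m1 c (cst Pp) : Fam Γ P) * co (inj_vac c) a = co (inj_vac c) a := by
  refine Fam.ext fun p => ContinuousLinearMap.ext fun ξ => ext_sk c fun s k => ?_
  change sk c s k (m1 c (cst Pp) p (co (inj_vac c) a p ξ)) = _
  rw [sk_m1, cst_apply]
  ext b
  rw [Pp_apply]
  split_ifs with hb
  · rfl
  · rw [sk_apply, co_coord_of_notMem (inj_vac c)]
    intro m hm
    have h1 := c.injective hm
    have h2 : Bs.vac = b := (Prod.ext_iff.1 h1).2
    exact hb (by rw [← h2]; simp [Bs.vac])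

/-- PROOF: `pr ρ (m1 T ζ) = 0`, `ρ k = c(k, vac)`: `(m1 T ζ)(s, c(k, vac)) = (T_{s p} (sk s k ζ))(vac) = 0` since
`vac.F = ∅` (`Cl_apply`, `clF`). -/
theorem Site.co_mul_T (c : ℕ × Bs I ≃ ℕ) (e : I ↪ ℕ) (s : ℝ) (a : Fam Γ P) :
    co (inj_vac c) a * m1 c (H.TT w e s) = 0 := by
  have key : ∀ p : P, pr (fun k => c (k, Bs.vac)) * m1 c (H.TT w e s) p = (0 : Op Γ) := by
    intro p
    refine ContinuousLinearMap.ext fun ξ => ?_
    ext ⟨t, k⟩
    change (pr (fun k => c (k, Bs.vac)) (m1 c (H.TT w e s) p ξ) : Γ × ℕ → ℂ) (t, k) = 0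
    rw [pr_apply (inj_vac c)]
    have h1 : (m1 c (H.TT w e s) p ξ : Γ × ℕ → ℂ) (t, c (k, Bs.vac)) =
        (sk c t k (m1 c (H.TT w e s) p ξ) : Bs I → ℂ) Bs.vac := (sk_apply c t k _ _).symm
    rw [h1, sk_m1]
    change (Cl e (H.uu w |s| (t • p)) (Es (H.supp (t • p)) (sk c t k ξ)) : Bs I → ℂ) Bs.vac = 0
    rw [Cl_apply e (H.CB_uu w (abs_nonneg s) (t • p))]
    simp [clF, Bs.vac]
  refine Fam.ext fun p => ?_
  rw [Fam.mul_apply, co_apply, mul_assoc, key p, mul_zero]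
  rfl

end

variable {Γ Z I A : Type} [Group Γ] [MulAction Γ I] [MulAction Γ Z] [TopologicalSpace Z]
    [TopologicalSpace A] {a₀ : A} [DecidableEq I] (Y : Hered Γ Z I A a₀) (w : Wt Γ I)
    [T2Space Z] [T2Space A] [CompactSpace A] [LocallyCompactSpace Z] [ContinuousConstSMul Γ Z]

/-- The cycle at the angle `φ` and the deformation parameter `s`. -/
def cyc (c : ℕ × Bs I ≃ ℕ) (e : I ↪ ℕ) (h : Ht A a₀) (φ s : ℝ) :
    Cyc (cp Γ Y.St) (Fam Γ Y.St) where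
  Θ := th' Y c e h φ
  Pe := m1 c (cst Pp)
  Qo := m1 c (cst Pm)
  T := m1 c ((Y.site h).TT w e s)
  hPP := m1_Pp_mul c
  hQQ := m1_Pm_mul c
  hPQ := m1_Pp_add c
  hPΘ := Pp_mul_th' Y c e h φ
  hTQ := (Y.site h).m1_T_mul_Pm w c e s
  hQT := (Y.site h).m1_Pm_mul_T w c e s
  hT a := (Y.site h).TT_Pm w c e s (EP_mul_th' Y c e h φ a)

/-- PROOF: `Mlt.isMul_m1`, `Site.Mlt_Pp`, `Site.isOpen_U`, `Site.smul_mem_U`. -/
theorem isMul_Pp (c : ℕ × Bs I ≃ ℕ) (e : I ↪ ℕ) (h : Ht A a₀) :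
    IsMul (AE c (sact (Γ := Γ) e) (Y.site h).U) (m1 c (cst Pp) : Fam Γ Y.St) := by
  exact Mlt.isMul_m1 c (sact e) (fun b => (Y.site h).isOpen_U b)
    (fun g b p => (Y.site h).smul_mem_U g b p) (Site.Mlt_Pp (Y.site h))

/-- PROOF: as `isMul_Pp`, with `Site.Mlt_T`. -/
theorem isMul_T (c : ℕ × Bs I ≃ ℕ) (e : I ↪ ℕ) (h : Ht A a₀) (s : ℝ) :
    IsMul (AE c (sact (Γ := Γ) e) (Y.site h).U) (m1 c ((Y.site h).TT w e s)) := by
  exact Mlt.isMul_m1 c (sact e) (fun b => (Y.site h).isOpen_U b)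
    (fun g b p => (Y.site h).smul_mem_U g b p) ((Y.site h).Mlt_T w e |s| (abs_nonneg s))

end Pool.Agent.Lib.MP_aa9b81_an.Hs
end
end

section

/-!
# Hereditary shifts, part T3c: the cycles
-/

open scoped ENNReal Topology ZeroAtInfty
open Function Filter Set

noncomputable section

namespace Pool.Agent.Lib.MP_aa9b81_an.Hs

open Cut

variable {Γ Z I A : Type} [Group Γ] [MulAction Γ I] [MulAction Γ Z] [TopologicalSpace Z]
    [TopologicalSpace A] {a₀ : A} [DecidableEq I] (Y : Hered Γ Z I A a₀) (w : Wt Γ I)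
    [T2Space Z] [T2Space A] [CompactSpace A] [LocallyCompactSpace Z] [ContinuousConstSMul Γ Z]

/-- The element at the angle `0`. PROOF: `Cyc.d_mem`, `isMul_Pp`, `isMul_T`, `isMul_th'`, `th'_sub_mem`. -/
theorem cyc_d_mem (c : ℕ × Bs I ≃ ℕ) (e : I ↪ ℕ) (h : Ht A a₀) (φ : ℝ)
    (u : GL1 (cp Γ Y.St)) :
    (cyc Y w c e h φ 1).d u ∈ GL1 (AE c (sact e) (Y.site h).U) := by
  exact Cyc.d_mem (cyc Y w c e h φ 1) (isMul_Pp Y c e h) (isMul_T Y w c e h 1)
    (fun a => isMul_th' Y c e h φ a)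
    (fun a => th'_sub_mem Y w c e h φ zero_lt_one le_rfl a) u

/-- PROOF: `Cyc.path` for `Z t = cyc (t * (π/2)) 1`, with `D = AE ..`, `AE_le_cp`: `continuous_th'`, `isMul_Pp`, `isMul_T`,
`isMul_th'`, `th'_sub_mem`. -/
theorem path_rot (c : ℕ × Bs I ≃ ℕ) (e : I ↪ ℕ) (h : Ht A a₀) (u : GL1 (cp Γ Y.St)) :
    ((cyc Y w c e h 0 1).d u)⁻¹ * (cyc Y w c e h (Real.pi / 2) 1).d u ∈ E1 (cp Γ Y.St) := by
  have hc : Continuous fun t : ℝ => t * (Real.pi / 2) := by fun_prop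
  have h2 : ∀ a, Continuous fun t : ℝ => th' Y c e h (t * (Real.pi / 2)) a := fun a =>
    (continuous_th' Y c e h a).comp hc
  have hα : ∀ a, ContinuousOn (fun t : ℝ => (cyc Y w c e h (t * (Real.pi / 2)) 1).α a)
      (Icc 0 1) := by
    intro a
    have h3 : (fun t : ℝ => (cyc Y w c e h (t * (Real.pi / 2)) 1).α a) =
        fun t : ℝ => m1 c (cst Pp) * th' Y c e h (t * (Real.pi / 2)) a := rfl
    rw [h3]
    have h4 := h2 a
    exact (Continuous.mul continuous_const h4).continuousOn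
  have hβ : ∀ a, ContinuousOn (fun t : ℝ => (cyc Y w c e h (t * (Real.pi / 2)) 1).β a)
      (Icc 0 1) := by
    intro a
    have h3 : (fun t : ℝ => (cyc Y w c e h (t * (Real.pi / 2)) 1).β a) =
        fun t : ℝ => m1 c ((Y.site h).TT w e 1) * m1 c (cst Pm) *
          th' Y c e h (t * (Real.pi / 2)) a * m1 c ((Y.site h).TT w e 1) := rfl
    rw [h3]
    have h4 := h2 a
    exact (Continuous.mul (Continuous.mul continuous_const h4) continuous_const).continuousOn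
  have h1 := Cyc.path (AE_le_cp c (sact (Γ := Γ) e) (Y.site h).U)
    (fun t => cyc Y w c e h (t * (Real.pi / 2)) 1) hα hβ
    (fun t _ => isMul_Pp Y c e h) (fun t _ => isMul_T Y w c e h 1)
    (fun t _ a => isMul_th' Y c e h _ a)
    (fun t _ a => th'_sub_mem Y w c e h _ zero_lt_one le_rfl a) u
  simp only [zero_mul, one_mul] at h1
  exact h1

end Pool.Agent.Lib.MP_aa9b81_an.Hs
end
end

section

/-!
# Hereditary shifts, part T3d: the cycles
-/

open scoped ENNReal Topology ZeroAtInfty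
open Function Filter Set

noncomputable section

namespace Pool.Agent.Lib.MP_aa9b81_an.Hs

open Cut

variable {Γ Z I A : Type} [Group Γ] [MulAction Γ I] [MulAction Γ Z] [TopologicalSpace Z]
    [TopologicalSpace A] {a₀ : A} [DecidableEq I] (Y : Hered Γ Z I A a₀) (w : Wt Γ I)
    [T2Space Z] [T2Space A] [CompactSpace A] [LocallyCompactSpace Z] [ContinuousConstSMul Γ Z]

/-- PROOF: `Cyc.path` for `Z t = cyc (π/2) (1 - t)`: `continuousOn_T_th'_T`, `th'_sub_mem_pi`. -/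
theorem path_def (c : ℕ × Bs I ≃ ℕ) (e : I ↪ ℕ) (h : Ht A a₀) (u : GL1 (cp Γ Y.St)) :
    ((cyc Y w c e h (Real.pi / 2) 1).d u)⁻¹ * (cyc Y w c e h (Real.pi / 2) 0).d u ∈
      E1 (cp Γ Y.St) := by
  have hmaps : MapsTo (fun t : ℝ => 1 - t) (Icc 0 1) (Icc 0 1) := fun t ht =>
    ⟨by linarith [ht.2], by linarith [ht.1]⟩
  have key := Cyc.path (D := AE c (sact e) (Y.site h).U) (A' := cp Γ Y.St)
    (AE_le_cp c (sact e) (Y.site h).U)
    (fun t => cyc Y w c e h (Real.pi / 2) (1 - t))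
    (fun a => (continuousOn_const (c := m1 c (cst Pp) * th' Y c e h (Real.pi / 2) a)).congr
      fun t _ => rfl)
    (fun a => by
      have h1 := (continuousOn_T_th'_T Y w c e h a).comp
        (continuousOn_const.sub continuousOn_id) hmaps
      exact h1)
    (fun t _ => isMul_Pp Y c e h)
    (fun t _ => isMul_T Y w c e h (1 - t))
    (fun t _ a => isMul_th' Y c e h (Real.pi / 2) a)
    (fun t ht a => th'_sub_mem_pi Y w c e h (hmaps ht).1 (hmaps ht).2 a) u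
  have e0 : (1 : ℝ) - 0 = 1 := sub_zero 1
  have e1 : (1 : ℝ) - 1 = 0 := sub_self 1
  simp only [e0, e1] at key
  exact key

end Pool.Agent.Lib.MP_aa9b81_an.Hs
end
end

section

/-!
# Hereditary shifts, part T3: the cycles
-/

open scoped ENNReal Topology ZeroAtInfty
open Function Filter Set

noncomputable section

namespace Pool.Agent.Lib.MP_aa9b81_an.Hs

open Cut

variable {Γ Z I A : Type} [Group Γ] [MulAction Γ I] [MulAction Γ Z] [TopologicalSpace Z]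
    [TopologicalSpace A] {a₀ : A} [DecidableEq I] (Y : Hered Γ Z I A a₀) (w : Wt Γ I)
    [T2Space Z] [T2Space A] [CompactSpace A] [LocallyCompactSpace Z] [ContinuousConstSMul Γ Z]

/-- THE END POINT. PROOF: `Units.ext`. Let `x = u - 1`, `y = u⁻¹ - 1` in `cp`, `x + y + x y = 0`, `ν = co (inj_vac c)`. By
`Cyc.α_sub_β`, `th'_sub_zero`, `m1_Pp_mul_co`: `α x = β x + ν x`. So the value of `d u` (`dU_val`) is
`(1 + β x + ν x)(1 + β y) = 1 + β (x + y + x y) + ν x + ν x β y = 1 + ν x`, since `ν x β y = ν x T (..) = 0`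
(`Site.co_mul_T`, `β_apply`). -/
theorem d_end (c : ℕ × Bs I ≃ ℕ) (e : I ↪ ℕ) (h : Ht A a₀) (u : GL1 (cp Γ Y.St)) :
    (cyc Y w c e h (Real.pi / 2) 0).d u = extUnit (co (inj_vac c)) u.1 := by
  refine Units.ext ?_
  set C := cyc Y w c e h (Real.pi / 2) 0 with hC
  set x : cp Γ Y.St := ⟨(u.1 : Fam Γ Y.St) - 1, u.2.1⟩ with hx
  set y : cp Γ Y.St := ⟨((u.1⁻¹ : (Fam Γ Y.St)ˣ) : Fam Γ Y.St) - 1, u.2.2⟩ with hy
  have hxy : x + y + x * y = 0 := by
    refine Subtype.ext ?_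
    change ((u.1 : Fam Γ Y.St) - 1) + (((u.1⁻¹ : (Fam Γ Y.St)ˣ) : Fam Γ Y.St) - 1) +
      ((u.1 : Fam Γ Y.St) - 1) * (((u.1⁻¹ : (Fam Γ Y.St)ˣ) : Fam Γ Y.St) - 1) = 0
    rw [sub_mul, mul_sub, Units.mul_inv, one_mul, mul_one]
    abel
  have hα : C.α x = C.β x + co (inj_vac c) (x : Fam Γ Y.St) := by
    have h1 := C.α_sub_β x
    have h2 := th'_sub_zero Y w c e h x
    have h3 : C.Pe * (C.Θ x - C.T * C.Θ x * C.T) = co (inj_vac c) (x : Fam Γ Y.St) := by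
      change m1 c (cst Pp) * (th' Y c e h (Real.pi / 2) x - m1 c ((Y.site h).TT w e 0) *
        th' Y c e h (Real.pi / 2) x * m1 c ((Y.site h).TT w e 0)) = _
      rw [h2, m1_Pp_mul_co]
    rw [h3] at h1
    rw [← h1]
    abel
  have h0 : co (inj_vac c) (x : Fam Γ Y.St) * C.β y = 0 := by
    rw [C.β_apply]
    change co (inj_vac c) (x : Fam Γ Y.St) * (m1 c ((Y.site h).TT w e 0) * m1 c (cst Pm) *
      th' Y c e h (Real.pi / 2) y * m1 c ((Y.site h).TT w e 0)) = 0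
    rw [← mul_assoc, ← mul_assoc, ← mul_assoc, (Y.site h).co_mul_T, zero_mul, zero_mul, zero_mul]
  have hβ : C.β x + C.β y + C.β x * C.β y = 0 := by
    rw [← map_mul, ← map_add, ← map_add, hxy, map_zero]
  change (1 + C.α x) * (1 + C.β y) = 1 + co (inj_vac c) ((u.1 : Fam Γ Y.St) - 1)
  change (1 + C.α x) * (1 + C.β y) = 1 + co (inj_vac c) (x : Fam Γ Y.St)
  rw [hα]
  have e1 : (1 + (C.β x + co (inj_vac c) (x : Fam Γ Y.St))) * (1 + C.β y) =
      1 + (C.β x + C.β y + C.β x * C.β y) + co (inj_vac c) (x : Fam Γ Y.St) +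
        co (inj_vac c) (x : Fam Γ Y.St) * C.β y := by
    noncomm_ring
  rw [e1, hβ, h0, add_zero, add_zero]

theorem E1_of_d0 (c : ℕ × Bs I ≃ ℕ) (e : I ↪ ℕ) (h : Ht A a₀) (u : GL1 (cp Γ Y.St))
    (h1 : (cyc Y w c e h 0 1).d u ∈ E1 (cp Γ Y.St)) : u.1 ∈ E1 (cp Γ Y.St) := by
  refine E1_of_co (inj_vac c) u.2 ?_
  rw [← d_end Y w c e h u]
  have h2 := mul_mem (mul_mem h1 (path_rot Y w c e h u)) (path_def Y w c e h u)
  rw [mul_inv_cancel_left] at h2
  rwa [mul_inv_cancel_left] at h2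

end Pool.Agent.Lib.MP_aa9b81_an.Hs
end
end

section

/-!
# The machine, part D1: deformation of the weights for the constant representation
-/

open scoped ENNReal Topology ZeroAtInfty
open Function Set

noncomputable section

namespace Pool.Agent.Lib.MP_aa9b81_an.Mc

open Cut Hs

variable {Γ P I : Type} [Group Γ] [TopologicalSpace P] [MulAction Γ P] [MulAction Γ I]
  [DecidableEq I]

variable [ContinuousConstSMul Γ P]

/-- PROOF: `Rp.ind` (`Rp.const.dense`). Generators: `psi_const_gen`, `cov_sub_T` at `s = 0`, `Tg_zero`, `sc_comm`: the first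
term is `0`; `sc f * cst Pv = ge f vac vac`, `cov_ge_vac`, `co_gen`. Sums, limits (`norm_co_le`, `Rp0.sub_le`). -/
theorem const_sub_zero (w : Wt Γ I) (c : ℕ × Bs I ≃ ℕ) (e : I ↪ ℕ) (a : cp Γ P) :
    (Rp.const c e).Θ a - m1 c (cst (Tc w e 0)) * (Rp.const c e).Θ a * m1 c (cst (Tc w e 0)) =
      co (inj_vac c) a.1 := by
  obtain ⟨τ, hτ⟩ : ∃ τ : Fam Γ P, τ = m1 c (cst (Tc w e 0)) := ⟨_, rfl⟩
  rw [← hτ]
  have hτn : ‖τ‖ ≤ 1 := by
    rw [hτ]
    refine (norm_m1_le c _).trans ((FB.norm_le_iff zero_le_one).2 fun p => ?_)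
    rw [cst_apply]
    exact norm_Tc_le w e 0
  obtain ⟨ρ, hρ⟩ : ∃ ρ : Rp Γ P P I c e, ρ = Rp.const c e := ⟨_, rfl⟩
  rw [← hρ]
  have hdense := ρ.dense
  revert a
  refine Rp.ind hdense ?_ ?_ ?_ ?_
  · intro f hf g i j hm
    have h1 : ρ.Θ ⟨gen f g i j, hm⟩ = cov c (sact e) g i j (sc f) := by
      rw [hρ]
      exact psi_const_gen c e f g i j
    have h2 : (sc f : FB (Bs I) P) * cst Pv = ge f Bs.vac Bs.vac := by
      refine FB.ext fun p => ?_
      rw [FB.mul_apply, sc_apply, cst_apply, ge_apply, smul_mul_assoc, one_mul]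
      rfl
    rw [h1, hτ, cov_sub_T, Tg_zero, sc_comm f (cst (Tc w e 0)), sub_self, cov_zero, zero_mul,
      zero_add, h2, cov_ge_vac, co_gen]
  · rw [map_zero, mul_zero, zero_mul, sub_zero]
    exact (map_zero _).symm
  · intro a b ha hb
    have h1 : ρ.Θ (a + b) - τ * ρ.Θ (a + b) * τ =
        (ρ.Θ a - τ * ρ.Θ a * τ) + (ρ.Θ b - τ * ρ.Θ b * τ) := by
      rw [map_add, mul_add, add_mul]
      abel
    rw [h1, ha, hb]
    exact (map_add (co (inj_vac c)) a.1 b.1).symm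
  · intro a ha
    have key : ∀ ε : ℝ, 0 < ε → ‖(ρ.Θ a - τ * ρ.Θ a * τ) - co (inj_vac c) a.1‖ ≤ ε := by
      intro ε hε
      obtain ⟨b, hb, hab⟩ := ha (ε / 3) (by positivity)
      have h1 : (ρ.Θ a - τ * ρ.Θ a * τ) - co (inj_vac c) a.1 =
          ((ρ.Θ a - ρ.Θ b) - τ * (ρ.Θ a - ρ.Θ b) * τ) - co (inj_vac c) (a.1 - b.1) := by
        rw [map_sub, ← hb, mul_sub, sub_mul]
        abel
      have h2 := (ρ.sub_le a b).trans hab
      have h3 := norm_nonneg (ρ.Θ a - ρ.Θ b)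
      have h4 : ‖τ * (ρ.Θ a - ρ.Θ b) * τ‖ ≤ ‖ρ.Θ a - ρ.Θ b‖ := by
        calc ‖τ * (ρ.Θ a - ρ.Θ b) * τ‖ ≤ ‖τ * (ρ.Θ a - ρ.Θ b)‖ * ‖τ‖ := norm_mul_le _ _
          _ ≤ (‖τ‖ * ‖ρ.Θ a - ρ.Θ b‖) * ‖τ‖ :=
              mul_le_mul_of_nonneg_right (norm_mul_le _ _) (norm_nonneg _)
          _ ≤ (1 * ‖ρ.Θ a - ρ.Θ b‖) * 1 :=
              mul_le_mul (mul_le_mul_of_nonneg_right hτn h3) hτn (norm_nonneg _) (by positivity)
          _ = ‖ρ.Θ a - ρ.Θ b‖ := by ring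
      have h5 := norm_co_le (inj_vac c) (a.1 - b.1)
      have h6 : ‖a.1 - b.1‖ ≤ ε / 3 := hab
      rw [h1]
      have h7 := norm_sub_le ((ρ.Θ a - ρ.Θ b) - τ * (ρ.Θ a - ρ.Θ b) * τ)
        (co (inj_vac c) (a.1 - b.1))
      have h8 := norm_sub_le (ρ.Θ a - ρ.Θ b) (τ * (ρ.Θ a - ρ.Θ b) * τ)
      linarith
    have h2 : ‖(ρ.Θ a - τ * ρ.Θ a * τ) - co (inj_vac c) a.1‖ ≤ 0 :=
      le_of_forall_pos_le_add fun ε hε => by
        rw [zero_add]
        exact key ε hε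
    exact sub_eq_zero.mp (norm_le_zero_iff.mp h2)

end Pool.Agent.Lib.MP_aa9b81_an.Mc
end
end

section

/-!
# The machine, part D2: the constant representation induces the identity
-/

open scoped ENNReal Topology ZeroAtInfty
open Function Set

noncomputable section

namespace Pool.Agent.Lib.MP_aa9b81_an.Mc

open Cut Hs

variable {Γ P I : Type} [Group Γ] [TopologicalSpace P] [MulAction Γ P] [MulAction Γ I]
  [DecidableEq I]

omit [TopologicalSpace P] in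
/-- PROOF: coordinates: `pr ρ (m1 T ζ) = 0`, `ρ k = c(k, vac)`: the value of `Cl ..` at `vac` is an empty sum; compare
`Site.co_mul_T`. -/
theorem co_mul_Tc (w : Wt Γ I) (c : ℕ × Bs I ≃ ℕ) (e : I ↪ ℕ) (s : ℝ) (a : Fam Γ P) :
    co (inj_vac c) a * m1 c (cst (Tc w e s)) = 0 := by
  refine Fam.ext fun p => ?_
  have h0 : (pr (fun k => c (k, Bs.vac)) : Op Γ) *
      (m1 c (cst (Tc w e s) : FB (Bs I) P) : Fam Γ P) p = 0 := by
    refine ContinuousLinearMap.ext fun ξ => ?_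
    refine lp.ext (funext fun q => ?_)
    obtain ⟨t, k⟩ := q
    have h1 : ((pr (fun k => c (k, Bs.vac)) ((m1 c (cst (Tc w e s) : FB (Bs I) P) : Fam Γ P) p ξ) :
        Hil Γ) : Γ × ℕ → ℂ) (t, k) =
        ((m1 c (cst (Tc w e s) : FB (Bs I) P) : Fam Γ P) p ξ : Γ × ℕ → ℂ) (t, c (k, Bs.vac)) :=
      pr_apply (inj_vac c) _ t k
    have h2 : ((m1 c (cst (Tc w e s) : FB (Bs I) P) : Fam Γ P) p ξ : Γ × ℕ → ℂ)
        (t, c (k, Bs.vac)) =
        (sk c t k ((m1 c (cst (Tc w e s) : FB (Bs I) P) : Fam Γ P) p ξ) : Bs I → ℂ) Bs.vac :=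
      (sk_apply c t k _ Bs.vac).symm
    have h3 : (Tc w e s (sk c t k ξ) : Bs I → ℂ) Bs.vac = 0 := by
      rw [Tc, Cl_apply e (CB_tc w s), clF]
      exact Finset.sum_empty
    have h4 : ((m1 c (cst (Tc w e s) : FB (Bs I) P) : Fam Γ P) p ξ : Γ × ℕ → ℂ)
        (t, c (k, Bs.vac)) = 0 := by
      rw [h2, sk_m1, cst_apply]
      exact h3
    exact h1.trans h4
  rw [Fam.mul_apply, co_apply, mul_assoc, h0, mul_zero]
  rfl

variable [ContinuousConstSMul Γ P] [T2Space P]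

/-- THE END POINT. PROOF: `Units.ext`. Let `x = u - 1`, `y = u⁻¹ - 1` in `cp`, `x + y + x y = 0`, `ν = co (inj_vac c)`. By
`Cyc.α_sub_β`, `const_sub_zero`, `m1_Pp_mul_co`: `α x = β x + ν x`. So the value (`dU_val`) is
`(1 + β x + ν x)(1 + β y) = 1 + β (x + y + x y) + ν x + ν x β y = 1 + ν x`, since `ν x β y = ν x T (..) = 0`
(`co_mul_Tc`, `Cyc.β_apply`). Compare `Hs.d_end`. -/
theorem const_end (w : Wt Γ I) (c : ℕ × Bs I ≃ ℕ) (e : I ↪ ℕ) (u : GL1 (cp Γ P)) :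
    ((Rp.const c e).cyc w 0).d u = extUnit (co (inj_vac c)) u.1 := by
  refine Units.ext ?_
  have hα : ∀ a : cp Γ P, ((Rp.const c e).cyc w 0).α a =
      ((Rp.const c e).cyc w 0).β a + co (inj_vac c) a.1 := by
    intro a
    have h1 := ((Rp.const c e).cyc w 0).α_sub_β a
    have h2 : ((Rp.const c e).cyc w 0).Θ a - ((Rp.const c e).cyc w 0).T *
        ((Rp.const c e).cyc w 0).Θ a * ((Rp.const c e).cyc w 0).T = co (inj_vac c) a.1 :=
      const_sub_zero w c e a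
    rw [h2] at h1
    have h3 : ((Rp.const c e).cyc w 0).Pe * co (inj_vac c) a.1 = co (inj_vac c) a.1 :=
      m1_Pp_mul_co c a.1
    rw [h3] at h1
    exact sub_eq_iff_eq_add'.1 h1
  have hβ : ∀ a b : cp Γ P, co (inj_vac c) a.1 * ((Rp.const c e).cyc w 0).β b = 0 := by
    intro a b
    have h1 : co (inj_vac c) a.1 * ((Rp.const c e).cyc w 0).T = 0 := co_mul_Tc w c e 0 a.1
    rw [Cyc.β_apply, mul_assoc, mul_assoc, ← mul_assoc, h1, zero_mul]
  have haux := (exS_aux ((Rp.const c e).cyc w 0).β u).1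
  rw [Cyc.d, dU_val, hα]
  have h5 : (1 + (((Rp.const c e).cyc w 0).β ⟨(u.1 : Fam Γ P) - 1, u.2.1⟩ +
      co (inj_vac c) ((u.1 : Fam Γ P) - 1))) *
      (1 + ((Rp.const c e).cyc w 0).β ⟨((u.1⁻¹ : (Fam Γ P)ˣ) : Fam Γ P) - 1, u.2.2⟩) =
      (1 + ((Rp.const c e).cyc w 0).β ⟨(u.1 : Fam Γ P) - 1, u.2.1⟩) *
      (1 + ((Rp.const c e).cyc w 0).β ⟨((u.1⁻¹ : (Fam Γ P)ˣ) : Fam Γ P) - 1, u.2.2⟩) +
      co (inj_vac c) ((u.1 : Fam Γ P) - 1) +
      co (inj_vac c) ((u.1 : Fam Γ P) - 1) *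
        ((Rp.const c e).cyc w 0).β ⟨((u.1⁻¹ : (Fam Γ P)ˣ) : Fam Γ P) - 1, u.2.2⟩ := by
    noncomm_ring
  have h6 : co (inj_vac c) ((u.1 : Fam Γ P) - 1) *
        ((Rp.const c e).cyc w 0).β ⟨((u.1⁻¹ : (Fam Γ P)ˣ) : Fam Γ P) - 1, u.2.2⟩ = 0 :=
    hβ ⟨(u.1 : Fam Γ P) - 1, u.2.1⟩ _
  refine h5.trans ?_
  rw [haux, h6, add_zero]
  rfl

end Pool.Agent.Lib.MP_aa9b81_an.Mc
end
end

section

/-!
# Hereditary shifts, part H5: reduction to the finite configurations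
-/

open scoped ENNReal Topology ZeroAtInfty
open Function Filter Set

noncomputable section

namespace Pool.Agent.Lib.MP_aa9b81_an.Hs

open Cut

variable {Γ Z I A : Type} [Group Γ] [MulAction Γ I] [MulAction Γ Z] [TopologicalSpace Z]
    [TopologicalSpace A] {a₀ : A} [DecidableEq I] (Y : Hered Γ Z I A a₀) (w : Wt Γ I)
    [T2Space Z] [T2Space A] [CompactSpace A] [LocallyCompactSpace Z] [ContinuousConstSMul Γ Z]

/-- PROOF: `α a = m1 Pp * psi pi0 a` (`th'_zero`): `Loc_psi`, `BD_Pp`, `Loc.mul_left`. -/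
theorem Loc_α (c : ℕ × Bs I ≃ ℕ) (e : I ↪ ℕ) (h : Ht A a₀) (a : cp Γ Y.St) :
    Loc Y c ((cyc Y w c e h 0 1).α a) := by
  have h1 : (cyc Y w c e h 0 1).α a = m1 c (cst Pp) * psi c (sact e) Y.pi0 a.1 := by
    rw [Cyc.α_apply, ← th'_zero Y c e h a]
    rfl
  rw [h1]
  exact Loc.mul_left (BD_Pp Y c) (Loc_psi Y c e a.1)

/-- PROOF: `β a = m1 T * m1 Pm * psi pi0 a * m1 T`: `BD_T` (`Site.TT_eq`), `BD_Pm`, `Loc_psi`, `Loc.mul_left`,
`Loc.mul_right`. -/
theorem Loc_β (c : ℕ × Bs I ≃ ℕ) (e : I ↪ ℕ) (h : Ht A a₀) (a : cp Γ Y.St) :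
    Loc Y c ((cyc Y w c e h 0 1).β a) := by
  have h1 : (cyc Y w c e h 0 1).β a = m1 c ((Y.site h).TT w e 1) * m1 c (cst Pm) *
      psi c (sact e) Y.pi0 a.1 * m1 c ((Y.site h).TT w e 1) := by
    rw [Cyc.β_apply, ← th'_zero Y c e h a]
    rfl
  have hT : BD Y c (m1 c ((Y.site h).TT w e 1)) := by
    rw [(Y.site h).TT_eq w e zero_le_one]
    exact BD_T Y w c e h zero_le_one
  rw [h1]
  exact Loc.mul_right (Loc.mul_left (BD.mul hT (BD_Pm Y c)) (Loc_psi Y c e a.1)) hT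

/-- PROOF: the value of `d u` is `(1 + α x)(1 + β y)` (`dU_val`), minus `1` it is `α x + β y + α x β y`; `Loc_α`, `Loc_β`,
`Loc.add`, `Loc.mul_right`. -/
theorem Loc_d (c : ℕ × Bs I ≃ ℕ) (e : I ↪ ℕ) (h : Ht A a₀) (u : GL1 (cp Γ Y.St)) :
    Loc Y c ((((cyc Y w c e h 0 1).d u : (Fam Γ Y.St)ˣ) : Fam Γ Y.St) - 1) := by
  have h1 : (((cyc Y w c e h 0 1).d u : (Fam Γ Y.St)ˣ) : Fam Γ Y.St) - 1 =
      (cyc Y w c e h 0 1).α ⟨(u.1 : Fam Γ Y.St) - 1, u.2.1⟩ +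
      (cyc Y w c e h 0 1).β ⟨((u.1⁻¹ : (Fam Γ Y.St)ˣ) : Fam Γ Y.St) - 1, u.2.2⟩ +
      (cyc Y w c e h 0 1).α ⟨(u.1 : Fam Γ Y.St) - 1, u.2.1⟩ *
      (cyc Y w c e h 0 1).β ⟨((u.1⁻¹ : (Fam Γ Y.St)ˣ) : Fam Γ Y.St) - 1, u.2.2⟩ := by
    rw [Cyc.d, dU_val]
    noncomm_ring
  rw [h1]
  have hα := Loc_α Y w c e h ⟨(u.1 : Fam Γ Y.St) - 1, u.2.1⟩
  have hβ := Loc_β Y w c e h ⟨((u.1⁻¹ : (Fam Γ Y.St)ˣ) : Fam Γ Y.St) - 1, u.2.2⟩
  exact Loc.add (Loc.add hα hβ) (Loc.mul_right hα hβ.toBD)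

/-- PROOF: as `Loc_d`, with `dU_inv`. -/
theorem Loc_d_inv (c : ℕ × Bs I ≃ ℕ) (e : I ↪ ℕ) (h : Ht A a₀) (u : GL1 (cp Γ Y.St)) :
    Loc Y c (((((cyc Y w c e h 0 1).d u)⁻¹ : (Fam Γ Y.St)ˣ) : Fam Γ Y.St) - 1) := by
  have h1 : ((((cyc Y w c e h 0 1).d u)⁻¹ : (Fam Γ Y.St)ˣ) : Fam Γ Y.St) - 1 =
      (cyc Y w c e h 0 1).β ⟨(u.1 : Fam Γ Y.St) - 1, u.2.1⟩ +
      (cyc Y w c e h 0 1).α ⟨((u.1⁻¹ : (Fam Γ Y.St)ˣ) : Fam Γ Y.St) - 1, u.2.2⟩ +
      (cyc Y w c e h 0 1).β ⟨(u.1 : Fam Γ Y.St) - 1, u.2.1⟩ *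
      (cyc Y w c e h 0 1).α ⟨((u.1⁻¹ : (Fam Γ Y.St)ˣ) : Fam Γ Y.St) - 1, u.2.2⟩ := by
    rw [Cyc.d, dU_inv]
    noncomm_ring
  rw [h1]
  have hβ := Loc_β Y w c e h ⟨(u.1 : Fam Γ Y.St) - 1, u.2.1⟩
  have hα := Loc_α Y w c e h ⟨((u.1⁻¹ : (Fam Γ Y.St)ˣ) : Fam Γ Y.St) - 1, u.2.2⟩
  exact Loc.add (Loc.add hβ hα) (Loc.mul_right hβ hα.toBD)

omit [DecidableEq I] in
/-- REDUCTION TO THE FINITE CONFIGURATIONS. PROOF: bijections `c : ℕ × Bs I ≃ ℕ`, `c' : ℕ × Fd I ≃ ℕ` exist, as `Bs I`, `Fd I` are countable and nonempty (`nonempty_equiv_of_countable`, infinite since `ℕ` is). -/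
theorem exists_codes (I : Type) [Countable I] :
    Nonempty (ℕ × Bs I ≃ ℕ) ∧ Nonempty (ℕ × Fd I ≃ ℕ) := by
  classical
  have hB : Countable (Bs I) := by
    unfold Bs
    infer_instance
  have hF : Countable (Fd I) := by
    unfold Fd
    infer_instance
  have hB0 : Nonempty (Bs I) := inferInstance
  have hF0 : Nonempty (Fd I) := inferInstance
  have h1 : Infinite (ℕ × Bs I) := inferInstance
  have h2 : Infinite (ℕ × Fd I) := inferInstance
  exact ⟨nonempty_equiv_of_countable, nonempty_equiv_of_countable⟩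

omit [DecidableEq I] in
theorem GL1_le_E1_of_finite [Countable Γ] [Countable I] [TopologicalSpace.MetrizableSpace A]
    (hfin : GL1 (cp Γ Y.Sf) ≤ E1 (cp Γ Y.Sf)) : GL1 (cp Γ Y.St) ≤ E1 (cp Γ Y.St) := by
  classical
  obtain ⟨⟨c⟩, ⟨c'⟩⟩ := exists_codes I
  obtain ⟨e⟩ : Nonempty (I ↪ ℕ) := ⟨⟨(exists_injective_nat I).choose, (exists_injective_nat I).choose_spec⟩⟩
  obtain ⟨h⟩ := exists_ht A a₀
  obtain ⟨w⟩ := exists_wt Γ I
  intro u hu
  exact E1_of_d0 Y w c e h ⟨u, hu⟩ (E1_of_fin Y c c' e h hfin (cyc_d_mem Y w c e h 0 ⟨u, hu⟩)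
    (Loc_d Y w c e h ⟨u, hu⟩) (Loc_d_inv Y w c e h ⟨u, hu⟩))

end Pool.Agent.Lib.MP_aa9b81_an.Hs
end
end

section

/-!
# The machine, part H1: the representation of the subsets
-/

open scoped ENNReal Topology ZeroAtInfty
open Function Set

noncomputable section

namespace Pool.Agent.Lib.MP_aa9b81_an.Mc

open Cut Hs

variable {Γ B W I : Type} [Group Γ] [TopologicalSpace B] [MulAction Γ B] [TopologicalSpace W]
  [MulAction Γ W] [MulAction Γ I]

variable [DecidableEq I]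

variable [T2Space B] [T2Space W] [ContinuousConstSMul Γ B] [ContinuousConstSMul Γ W]

omit [DecidableEq I] [MulAction Γ B] [MulAction Γ W] [MulAction Γ I] [Group Γ]
  [ContinuousConstSMul Γ B] [ContinuousConstSMul Γ W] in
/-- PROOF: `Pow I` is compact: continuous, and preimages of compact sets are compact
(`isProperMap_iff_isCompact_preimage`, or the composition of a homeomorphism with the proper map `Prod.fst`:
`isProperMap_fst_of_compactSpace`). -/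
theorem isProperMap_prP : IsProperMap (prP B W I) := by
  let h : (B × Pow I) × W ≃ₜ (B × W) × Pow I :=
    { toFun := fun x => ((x.1.1, x.2), x.1.2)
      invFun := fun y => ((y.1.1, y.2), y.1.2)
      left_inv := fun _ => rfl
      right_inv := fun _ => rfl
      continuous_toFun := by fun_prop
      continuous_invFun := by fun_prop }
  have h1 : IsProperMap (Prod.fst : (B × W) × Pow I → B × W) := isProperMap_fst_of_compactSpace
  exact h1.comp h.isProperMap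

/-- PROOF: `Rp.ind` for `a ∈ cp Γ (B × W)` (with `dom = univ`): for a generator `pull (gen f g i j) = gen (f ∘ prP) g i j`
(`Cut.pull_gen`), `f ∘ prP` is a cylinder function for `M = ∅`, `nM ∅ (f ∘ prP) = sc f` (`EM ∅ ∅ φ = 1`: `UKf_empty`,
`cyl ∅ ∅ = 1`), `ρ1_gen`, `psi_const_gen`. Sums, limits (`norm_le`, `pull_norm_le`, `norm_psi_le`). -/
theorem ρ1_pull (A : Ang Γ B I) (c : ℕ × Bs I ≃ ℕ) (e : I ↪ ℕ) (a : Fam Γ (B × W))
    (ha : a ∈ cp Γ (B × W)) (hm : pull (prP B W I) a ∈ cp Γ ((B × Pow I) × W)) :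
    (ρ1 A c e).Θ ⟨pull (prP B W I) a, hm⟩ =
      psi c (sact e) (fun p (_ : Bs I) => some p) a := by
  have hp : IsProperMap (prP B W I) := isProperMap_prP
  have he : ∀ (g : Γ) (z : (B × Pow I) × W), prP B W I (g • z) = g • prP B W I z := fun _ _ => rfl
  have hnM : ∀ f : C₀(B × W, ℂ), (r1 A).nM ∅ (pullC (prP B W I) hp f) = sc f := by
    intro f
    refine FB.ext fun p => ?_
    rw [Rdr.nM_apply, sc_apply, Finset.powerset_empty, Finset.sum_singleton]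
    have h1 : EM (∅ : Finset I) ∅ (ang (A.fst.θ p)) = 1 := by
      rw [EM, UKf_empty, inv_one, Units.val_one, one_mul, mul_one]
      refine ContinuousLinearMap.ext fun ξ => ?_
      ext b
      rw [cyl, dia_apply zero_le_one (fun b => by split_ifs <;> simp), if_pos (Finset.inter_empty _),
        one_mul]
      rfl
    have h2 : (fun b : Bs I => optf (pullC (prP B W I) hp f) ((r1 A).R p (ind ∅) b.F)) =
        fun _ => f p := rfl
    rw [h1, one_mul, h2]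
    refine ContinuousLinearMap.ext fun ξ => ?_
    ext b
    rw [dia_apply (norm_nonneg (f p)) (fun b => le_of_eq rfl)]
    rfl
  have key : ∀ a : cp Γ (B × W), (ρ1 A c e).Θ ⟨pull (prP B W I) a.1, pull_mem_cp hp he a.1 a.2⟩ =
      psi c (sact e) (fun p (_ : Bs I) => some p) a.1 := by
    refine Rp.ind (dom := univ) (fun f ε hε => ⟨[f], fun _ _ => trivial, by simpa using hε.le⟩)
      ?_ ?_ ?_ ?_
    · intro f _ g i j hm
      have h1 : pull (prP B W I) (gen f g i j : Fam Γ (B × W)) =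
          gen (pullC (prP B W I) hp f) g i j := pull_gen hp he f g i j
      have h2 : (⟨pull (prP B W I) (gen f g i j : Fam Γ (B × W)),
          pull_mem_cp hp he _ hm⟩ : cp Γ ((B × Pow I) × W)) =
          ⟨gen (pullC (prP B W I) hp f) g i j, h1 ▸ pull_mem_cp hp he _ hm⟩ := Subtype.ext h1
      have h3 := ρ1_gen A c e (f := pullC (prP B W I) hp f) (M := ∅) (fun _ _ _ _ _ => rfl) g i j
        (h1 ▸ pull_mem_cp hp he _ hm)
      rw [h2, h3, hnM, psi_const_gen]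
    · have h1 : (⟨pull (prP B W I) ((0 : cp Γ (B × W)) : Fam Γ (B × W)),
          pull_mem_cp hp he _ (0 : cp Γ (B × W)).2⟩ : cp Γ ((B × Pow I) × W)) = 0 :=
        Subtype.ext (map_zero _)
      rw [h1, map_zero]
      exact (map_zero _).symm
    · intro a b ha hb
      have h1 : (⟨pull (prP B W I) ((a + b : cp Γ (B × W)) : Fam Γ (B × W)),
          pull_mem_cp hp he _ (a + b).2⟩ : cp Γ ((B × Pow I) × W)) =
          ⟨pull (prP B W I) a.1, pull_mem_cp hp he _ a.2⟩ +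
          ⟨pull (prP B W I) b.1, pull_mem_cp hp he _ b.2⟩ := Subtype.ext (map_add _ _ _)
      rw [h1, map_add, ha, hb]
      exact (map_add _ _ _).symm
    · intro a hlim
      refine eq_of_forall_dist_le fun ε hε => ?_
      obtain ⟨b, hb, hab⟩ := hlim (ε / 2) (half_pos hε)
      have h1 : ‖(ρ1 A c e).Θ ⟨pull (prP B W I) a.1, pull_mem_cp hp he a.1 a.2⟩ -
          (ρ1 A c e).Θ ⟨pull (prP B W I) b.1, pull_mem_cp hp he b.1 b.2⟩‖ ≤ ε / 2 := by
        refine ((ρ1 A c e).sub_le _ _).trans ?_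
        have h2 : pull (prP B W I) a.1 - pull (prP B W I) b.1 = pull (prP B W I) (a.1 - b.1) :=
          (map_sub _ _ _).symm
        change ‖pull (prP B W I) a.1 - pull (prP B W I) b.1‖ ≤ ε / 2
        rw [h2]
        exact (pull_norm_le _ _).trans hab
      have h3 : ‖psi c (sact e) (fun p (_ : Bs I) => some p) b.1 -
          psi c (sact e) (fun p (_ : Bs I) => some p) a.1‖ ≤ ε / 2 := by
        rw [← map_sub]
        refine (norm_psi_le _ _ _ _).trans ?_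
        rw [norm_sub_rev]
        exact hab
      rw [dist_eq_norm]
      rw [hb] at h1
      calc _ = ‖((ρ1 A c e).Θ ⟨pull (prP B W I) a.1, pull_mem_cp hp he a.1 a.2⟩ -
            psi c (sact e) (fun p (_ : Bs I) => some p) b.1) +
            (psi c (sact e) (fun p (_ : Bs I) => some p) b.1 -
              psi c (sact e) (fun p (_ : Bs I) => some p) a.1)‖ := by rw [sub_add_sub_cancel]
        _ ≤ ε / 2 + ε / 2 := (norm_add_le _ _).trans (add_le_add h1 h3)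
        _ = ε := add_halves ε
  exact key ⟨a, ha⟩

end Pool.Agent.Lib.MP_aa9b81_an.Mc
end
end
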