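import Pool.Agent.Lib.MP_aa9b81_an.Mg.G008
import Pool.Agent.Lib.MP_aa9b81_an.Mg.G018
import Pool.Agent.Lib.MP_aa9b81_an.Mg.G016
import Pool.Agent.Lib.MP_aa9b81_an.Mg.G015
import Pool.Agent.Lib.MP_aa9b81_an.Mg.G011
import Pool.Agent.Lib.MP_aa9b81_an.Mg.G076
import Pool.Agent.Lib.MP_aa9b81_an.Mg.G013
import Pool.Agent.Lib.MP_aa9b81_an.Mg.G027

section

/-!
# Rotated sites, part L1b: continuity in the angle
-/

open scoped ENNReal Topology ZeroAtInfty
open Function Filter Set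

noncomputable section

set_option linter.unusedSectionVars false

namespace Pool.Agent.Lib.MP_aa9b81_an.Rc

open Cut Hs

section General

variable {Γ Y A B : Type} [Group Γ] [TopologicalSpace Y] [MulAction Γ Y]
  [TopologicalSpace A] [MulAction Γ A] [ContinuousConstSMul Γ A] [MulAction Γ B] [Nonempty B]
  [T2Space Y] [LocallyCompactSpace Y] [ContinuousConstSMul Γ Y] [T2Space A] [LocallyCompactSpace A]

private theorem L1b_cont {E : SAct Γ B} (c : ℕ × B ≃ ℕ) (g : Γ) (i j : ℕ) (h : C₀(Y, ℂ)) :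
    Continuous fun X : BL B => (cov c E g i j (sx h X) : Fam Γ Y) := by
  have key : ∀ X X' : BL B, ‖(cov c E g i j (sx h X) : Fam Γ Y) - cov c E g i j (sx h X')‖ ≤
      ‖h‖ * ‖X - X'‖ := by
    intro X X'
    have h1 : (sx h X : FB B Y) - sx h X' = sx h (X - X') := by
      ext y
      simp [smul_sub]
    rw [← cov_sub, h1]
    exact (norm_cov_le _ _ _ _ _ _).trans (norm_sx_le h _)
  refine (LipschitzWith.of_dist_le_mul (K := ⟨‖h‖, norm_nonneg h⟩) fun X X' => ?_).continuous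
  rw [dist_eq_norm, dist_eq_norm]
  exact key X X'

/-- PROOF: for a generator `(h, φ, g, i, j)` with `φ` as in `hX`: `‖cov (sx h (X t)) - cov (sx h (X t'))‖ ≤ ‖h‖ ‖X t - X t'‖` (`cov_sub`, `norm_cov_le`). The elements
`a` with the property are closed under sums and uniform limits (`norm_Th_le`: `tendstoUniformly`-like `ε / 3` argument). Use
`(L 0).Th_induction`. -/
theorem continuous_Th {E : SAct Γ B} (L : ℝ → LRep E A)
    (hX : ∀ x ∈ (L 0).R, ∃ X : ℝ → BL B, Continuous X ∧ ∀ t, (x.1, X t) ∈ (L t).R)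
    (c : ℕ × B ≃ ℕ) (a : cp Γ (Y × A)) : Continuous fun t => (L t).Th c a := by
  refine (L 0).Th_induction (p := fun a => Continuous fun t => (L t).Th c a) ?_ ?_ ?_ ?_ a
  · intro d hd h
    obtain ⟨X, hXc, hXm⟩ := hX d.x hd
    have h1 : (fun t => (L t).Th c ⟨d.src, h⟩) =
        fun t => (cov c E d.g d.i d.j (sx d.h (X t)) : Fam Γ Y) := by
      funext t
      exact (L t).Th_src c (d := ⟨d.h, (d.x.1, X t), d.g, d.i, d.j⟩) (hXm t) h
    show Continuous fun t => (L t).Th c ⟨d.src, h⟩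
    rw [h1]
    exact (L1b_cont c d.g d.i d.j d.h).comp hXc
  · simp only [map_zero]
    exact continuous_const
  · intro a b ha hb
    simp only [map_add]
    exact ha.add hb
  · intro a ha
    refine continuous_of_uniform_approx_of_continuous fun u hu => ?_
    obtain ⟨ε, hε, hu⟩ := Metric.mem_uniformity_dist.1 hu
    obtain ⟨b, hb, hab⟩ := ha (ε / 2) (by positivity)
    refine ⟨_, hb, fun t => hu ?_⟩
    rw [dist_eq_norm, ← map_sub]
    refine lt_of_le_of_lt (((L t).norm_Th_le c (a - b)).trans ?_) (half_lt_self hε)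
    simpa using hab

/-- Two representations with compatible pairs. PROOF: `L.Th_induction`: both sides agree on the generators (`Th_src`), additive, and limits
(`norm_Th_le`). -/
theorem Th_congr {E : SAct Γ B} {L L' : LRep E A} (h : L.R ⊆ L'.R) (c : ℕ × B ≃ ℕ)
    (a : cp Γ (Y × A)) : L.Th c a = L'.Th c a := by
  refine L.Th_induction (p := fun a => L.Th c a = L'.Th c a) ?_ ?_ ?_ ?_ a
  · intro d hd hs
    show L.Th c ⟨d.src, hs⟩ = L'.Th c ⟨d.src, hs⟩
    rw [L.Th_src c hd hs, L'.Th_src c (h hd) hs]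
  · simp only [map_zero]
  · intro a b ha hb
    simp only [map_add]
    rw [ha, hb]
  · intro a ha
    refine eq_of_forall_dist_le fun ε hε => ?_
    obtain ⟨b, hb, hab⟩ := ha (ε / 2) (by positivity)
    have h1 : ‖L.Th c a - L.Th c b‖ ≤ ε / 2 := by
      rw [← map_sub]
      exact (L.norm_Th_le c (a - b)).trans (by simpa using hab)
    have h2 : ‖L'.Th c a - L'.Th c b‖ ≤ ε / 2 := by
      rw [← map_sub]
      exact (L'.norm_Th_le c (a - b)).trans (by simpa using hab)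
    have h3 : L.Th c a - L'.Th c a = (L.Th c a - L.Th c b) - (L'.Th c a - L'.Th c b) := by
      rw [hb]
      abel
    rw [dist_eq_norm, h3]
    exact (norm_sub_le _ _).trans (by linarith)

end General

variable {Γ C I Y : Type} [Group Γ] [MulAction Γ C] [MulAction Γ I] [DecidableEq C]
  [TopologicalSpace Y] [MulAction Γ Y] [T2Space Y] [LocallyCompactSpace Y]
  [ContinuousConstSMul Γ Y]

variable (𝔉 : Fibr Γ C I)

/-- PROOF: `continuous_Th`: for `x = (z φ, z Xo E (Vth 0) φ)` take `X t = z Xo E (Vth t) φ` (`Cyl.continuous_Xo`, `continuous_Vth`). -/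
theorem continuous_LR (hn : ∀ i, (𝔉.fib i).Nonempty) (e : C ↪ ℕ) (c : ℕ × Bs C ≃ ℕ)
    (a : cp Γ (Y × Pow C)) : Continuous fun θ => (LR 𝔉 hn e θ).Th c a := by
  refine continuous_Th (fun θ => LR 𝔉 hn e θ) ?_ c a
  rintro x ⟨z, E, φ, h, rfl⟩
  refine ⟨fun t => z • 𝔉.Xo E (𝔉.Vth hn t) (phF φ), ?_, fun t => ⟨z, E, φ, h, rfl⟩⟩
  exact (h.cyl.continuous_Xo (V := fun t => 𝔉.Vth hn t)
    (fun i l l' => 𝔉.continuous_Vth hn i l l')).const_smul z

private theorem L1b_Pp : FinM (Pp : BL (Bs C)) := by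
  unfold Pp
  refine FinM.dia zero_le_one fun b => ?_
  split_ifs <;> simp

/-- The path from `θ = 0` to `θ = π/2`. PROOF: `Cyc.path` with `D = AE ≤ A' = cp` (`AE_le_cp`), `Z t = (LR .. (t π/2)).cyc ..`: continuity of `Z.α`,
`Z.β` from `continuous_LR`; multipliers: `isMul_Th`, `isMul_m1_cst`; `exact_Th`, `LR_near`. -/
theorem LR_path (hn : ∀ i, (𝔉.fib i).Nonempty) (w : Wt Γ C) (e : C ↪ ℕ) (c : ℕ × Bs C ≃ ℕ)
    (u : GL1 (cp Γ (Y × Pow C))) :
    (((LR 𝔉 hn e 0).cyc (LR_ok 𝔉 hn e 0) w c).d u)⁻¹ *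
      ((LR 𝔉 hn e (Real.pi / 2)).cyc (LR_ok 𝔉 hn e (Real.pi / 2)) w c).d u ∈ E1 (cp Γ Y) := by
  have key := Cyc.path (AE_le_cp c (sact e : SAct Γ (Bs C)) (U1 C Y))
    (fun t : ℝ => (LR 𝔉 hn e (t * (Real.pi / 2))).cyc (LR_ok 𝔉 hn e (t * (Real.pi / 2))) w c)
    ?_ ?_ ?_ ?_ ?_ ?_ u
  · simpa only [zero_mul, one_mul] using key
  · intro a
    have h1 : Continuous fun t : ℝ => (LR 𝔉 hn e (t * (Real.pi / 2))).Th c a :=
      (continuous_LR 𝔉 hn e c a).comp (continuous_id.mul continuous_const)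
    have h2 : Continuous fun t : ℝ => (m1 c (cst Pp) : Fam Γ Y) *
        (LR 𝔉 hn e (t * (Real.pi / 2))).Th c a := continuous_const.mul h1
    exact h2.continuousOn
  · intro a
    have h1 : Continuous fun t : ℝ => (LR 𝔉 hn e (t * (Real.pi / 2))).Th c a :=
      (continuous_LR 𝔉 hn e c a).comp (continuous_id.mul continuous_const)
    have h2 : Continuous fun t : ℝ => (m1 c (cst (T1 w e)) : Fam Γ Y) * m1 c (cst Pm) *
        (LR 𝔉 hn e (t * (Real.pi / 2))).Th c a * m1 c (cst (T1 w e)) :=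
      (continuous_const.mul h1).mul continuous_const
    exact h2.continuousOn
  · intro t _
    exact isMul_m1_cst L1b_Pp c
  · intro t _
    exact isMul_m1_cst (FinM.Cl e (CB_cw w)) c
  · intro t _ a
    exact LRep.isMul_Th _ (LR_ok 𝔉 hn e _) c a
  · intro t _ a
    exact LRep.exact_Th _ (LR_ok 𝔉 hn e _) (LR_near 𝔉 hn w e _) c a

end Pool.Agent.Lib.MP_aa9b81_an.Rc
end
end

section

/-!
# Rotated sites, part L2: representations by maps
-/

open scoped ENNReal Topology ZeroAtInfty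
open Function Filter Set

noncomputable section

set_option linter.unusedSectionVars false

namespace Pool.Agent.Lib.MP_aa9b81_an.Rc

open Cut Hs

variable {Γ C : Type} [Group Γ] [MulAction Γ C] [DecidableEq C]

/-- An equivariant partial map from the labels to `A`, depending only on the set `F`. -/
structure LMap (Γ C A : Type) [Group Γ] [MulAction Γ C] [MulAction Γ A] where
  /-- the map -/
  f : Bs C → Option A
  equi : ∀ (g : Γ) (b : Bs C), f (g • b) = (f b).map (g • ·)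
  onF : ∀ b b' : Bs C, b.F = b'.F → f b = f b'

variable {A : Type} [TopologicalSpace A] [MulAction Γ A] [ContinuousConstSMul Γ A]

/-- The pairs. -/
def RM (ϖ : LMap Γ C A) : Set (C₀(A, ℂ) × BL (Bs C)) := {x | x.2 = dia fun b => optf x.1 (ϖ.f b)}

/-- PROOF: coordinates, `dia_apply`, `norm_optf_le`. -/
theorem RM_mul (ϖ : LMap Γ C A) {x y : C₀(A, ℂ) × BL (Bs C)} (hx : x ∈ RM ϖ) (hy : y ∈ RM ϖ) :
    (x.1 * y.1, x.2 * y.2) ∈ RM ϖ := by
  have hx' : x.2 = dia fun b => optf x.1 (ϖ.f b) := hx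
  have hy' : y.2 = dia fun b => optf y.1 (ϖ.f b) := hy
  show x.2 * y.2 = dia fun b => optf (x.1 * y.1) (ϖ.f b)
  rw [hx', hy']
  refine ContinuousLinearMap.ext fun ξ => ?_
  ext b
  rw [mul_apply_eq_comp, dia_apply (norm_nonneg _) (fun b => norm_optf_le _ _),
    dia_apply (norm_nonneg _) (fun b => norm_optf_le _ _),
    dia_apply (norm_nonneg _) (fun b => norm_optf_le _ _)]
  cases ϖ.f b with
  | none => simp
  | some a => simp [mul_assoc]

theorem RM_smul (ϖ : LMap Γ C A) (z : ℂ) {x : C₀(A, ℂ) × BL (Bs C)} (hx : x ∈ RM ϖ) :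
    (z • x.1, z • x.2) ∈ RM ϖ := by
  have hx' : x.2 = dia fun b => optf x.1 (ϖ.f b) := hx
  show z • x.2 = dia fun b => optf (z • x.1) (ϖ.f b)
  rw [hx']
  refine ContinuousLinearMap.ext fun ξ => ?_
  ext b
  rw [smul_apply, dia_apply (norm_nonneg _) (fun b => norm_optf_le _ _)]
  rw [lp.coeFn_smul, Pi.smul_apply, dia_apply (norm_nonneg _) (fun b => norm_optf_le _ _)]
  cases ϖ.f b with
  | none => simp
  | some a => simp [mul_assoc]

/-- PROOF: `W_mul_dia`, `ϖ.equi`. -/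
theorem RM_equi (ϖ : LMap Γ C A) (e : C ↪ ℕ) (g : Γ) {x : C₀(A, ℂ) × BL (Bs C)} (hx : x ∈ RM ϖ) :
    ∃ X : BL (Bs C), (shift g x.1, X) ∈ RM ϖ ∧
      (sact e : SAct Γ (Bs C)).W g * x.2 = X * (sact e : SAct Γ (Bs C)).W g := by
  have hx' : x.2 = dia fun b => optf x.1 (ϖ.f b) := hx
  refine ⟨dia fun b => optf (shift g x.1) (ϖ.f b), rfl, ?_⟩
  rw [hx', W_mul_dia e (norm_nonneg _) (fun b => norm_optf_le _ _)]
  congr 2
  funext b
  rw [ϖ.equi]
  cases ϖ.f b with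
  | none => rfl
  | some a => rfl

/-- The representation by multiplication operators. -/
def LMap.rep (ϖ : LMap Γ C A) (e : C ↪ ℕ) : LRep (sact e : SAct Γ (Bs C)) A where
  R := RM ϖ
  mul _ hx _ hy := RM_mul ϖ hx hy
  smul z _ hx := RM_smul ϖ z hx
  equi g _ hx := RM_equi ϖ e g hx
  diag l hl := ⟨1, 1, ϖ.f, by simp, by simp, fun x hx => by
    rw [one_mul, mul_one]
    exact hl x hx⟩
  dense φ ε hε := ⟨[(φ, dia fun b => optf φ (ϖ.f b))], by
    intro x hx
    rw [List.mem_singleton] at hx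
    rw [hx]
    exact rfl, by simpa using hε.le⟩

/-- PROOF: `FinM.dia`; multiplication operators commute. -/
theorem LMap.ok (ϖ : LMap Γ C A) (e : C ↪ ℕ) : (ϖ.rep e).Ok := by
  constructor
  · intro x hx
    have hx' : x.2 = dia fun b => optf x.1 (ϖ.f b) := hx
    rw [hx']
    exact FinM.dia (norm_nonneg _) fun b => norm_optf_le _ _
  · intro x hx
    have hx' : x.2 = dia fun b => optf x.1 (ϖ.f b) := hx
    rw [hx']
    refine ContinuousLinearMap.ext fun ξ => ?_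
    ext b
    rw [mul_apply_eq_comp, mul_apply_eq_comp,
      dia_apply (norm_nonneg _) (fun b => norm_optf_le _ _), Pp_apply, Pp_apply,
      dia_apply (norm_nonneg _) (fun b => norm_optf_le _ _)]
    split_ifs <;> simp

/-- PROOF: `ϖ.f (tog c b) = ϖ.f b` (`onF`), so the operator commutes with `T1` (coordinates, `Cl_apply`): `NearT.of_norm_le`-like with `0`. -/
theorem LMap.near {Y : Type} [TopologicalSpace Y] [MulAction Γ Y] [T2Space Y] (ϖ : LMap Γ C A)
    (w : Wt Γ C) (e : C ↪ ℕ) : ∀ x ∈ (ϖ.rep e).R, NearT Y w e 0 x.2 := by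
  intro x hx
  have hx' : x.2 = dia fun b => optf x.1 (ϖ.f b) := hx
  refine NearT.of_norm_le ?_
  have h1 : x.2 * T1 w e = T1 w e * x.2 := by
    rw [hx']
    refine ContinuousLinearMap.ext fun ξ => ?_
    ext b
    rw [mul_apply_eq_comp, mul_apply_eq_comp,
      dia_apply (norm_nonneg _) (fun b => norm_optf_le _ _), T1, Cl_apply e (CB_cw w),
      Cl_apply e (CB_cw w)]
    unfold clF
    rw [Finset.mul_sum]
    refine Finset.sum_congr rfl fun i hi => ?_
    rw [dia_apply (norm_nonneg _) (fun b => norm_optf_le _ _)]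
    have h2 : ϖ.f (tog i b) = ϖ.f b := ϖ.onF _ _ (tog_of_mem hi).1
    rw [h2]
    ring
  rw [h1, sub_self, norm_zero]

/-- The map `b ↦ F`. -/
def ϖ0 (Γ C : Type) [Group Γ] [MulAction Γ C] [DecidableEq C] : LMap Γ C (Pow C) where
  f b := some (indP b.F)
  equi g b := by
    change some (indP (gF g b.F)) = some (g • indP b.F)
    rw [indP_smul]
  onF b b' h := by rw [h]

/-- PROOF: `Xo_zero`: `z dF (phF φ) = dia (optf (z φ) ..)`. -/
theorem LR_zero_subset {I : Type} [MulAction Γ I] (𝔉 : Fibr Γ C I)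
    (hn : ∀ i, (𝔉.fib i).Nonempty) (e : C ↪ ℕ) : (LR 𝔉 hn e 0).R ⊆ ((ϖ0 Γ C).rep e).R := by
  rintro x ⟨z, E, φ, h, rfl⟩
  have h1 : (φ, dia fun b : Bs C => optf φ ((ϖ0 Γ C).f b)) ∈ RM (ϖ0 Γ C) := rfl
  have h2 := RM_smul (ϖ0 Γ C) z h1
  have h3 : 𝔉.Xo E (𝔉.Vth hn 0) (phF φ) = dia fun b : Bs C => optf φ ((ϖ0 Γ C).f b) := by
    rw [𝔉.Xo_zero hn h.cyl]
    rfl
  show (z • φ, z • 𝔉.Xo E (𝔉.Vth hn 0) (phF φ)) ∈ RM (ϖ0 Γ C)
  rw [h3]
  exact h2

end Pool.Agent.Lib.MP_aa9b81_an.Rc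
end
end

section

/-!
# Rotated sites, part L2a: barycentres and labels
-/

open scoped ENNReal Topology ZeroAtInfty
open Function Filter Set

noncomputable section

set_option linter.unusedSectionVars false

namespace Pool.Agent.Lib.MP_aa9b81_an.Rc

open Cut Hs

section Avg

variable {Γ E J : Type} [Group Γ] [AddCommGroup E] [Module ℝ E] [TopologicalSpace E]
  [DistribMulAction Γ E] [SMulCommClass Γ ℝ E]

/-- PROOF: `Q.convex`, `Convex.sum_mem` with the weights `1 / |F|`. -/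
theorem exists_avgQ (Q : ConvexSpace Γ E) (q : J → Q.Pt) (F : Finset J) (hF : F.Nonempty) :
    ∃ x : Q.Pt, Q.vec x = (F.card : ℝ)⁻¹ • ∑ i ∈ F, Q.vec (q i) := by
  have hc : (0 : ℝ) < F.card := by
    exact_mod_cast Finset.card_pos.2 hF
  have h1 : ∑ i ∈ F, (F.card : ℝ)⁻¹ • Q.vec (q i) ∈ Q.carrier := by
    refine Q.convex.sum_mem (fun i _ => (inv_pos.2 hc).le) ?_ (fun i _ => (q i).2)
    rw [Finset.sum_const, nsmul_eq_mul, mul_inv_cancel₀ hc.ne']
  refine ⟨⟨_, h1⟩, ?_⟩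
  change ∑ i ∈ F, (F.card : ℝ)⁻¹ • Q.vec (q i) = _
  rw [Finset.smul_sum]

/-- The barycentre of the points `q i`, `i ∈ F`. -/
def avgQ (Q : ConvexSpace Γ E) (q : J → Q.Pt) (F : Finset J) (hF : F.Nonempty) : Q.Pt :=
  (exists_avgQ Q q F hF).choose

theorem vec_avgQ (Q : ConvexSpace Γ E) (q : J → Q.Pt) (F : Finset J) (hF : F.Nonempty) :
    Q.vec (avgQ Q q F hF) = (F.card : ℝ)⁻¹ • ∑ i ∈ F, Q.vec (q i) :=
  (exists_avgQ Q q F hF).choose_spec

variable [MulAction Γ J]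

/-- PROOF: `vec_avgQ`, `card_gF`, the sum over `gF g F`; `Q.vec` is injective, `vec_smul`, `smul_comm`. -/
theorem smul_avgQ (Q : ConvexSpace Γ E) {q : J → Q.Pt} (hq : ∀ (g : Γ) i, q (g • i) = g • q i)
    (g : Γ) (F : Finset J) (hF : F.Nonempty) (hF' : (gF g F).Nonempty) :
    avgQ Q q (gF g F) hF' = g • avgQ Q q F hF := by
  apply Subtype.ext
  change Q.vec (avgQ Q q (gF g F) hF') = Q.vec (g • avgQ Q q F hF)
  rw [Q.vec_smul, vec_avgQ, vec_avgQ, card_gF, smul_comm g, Finset.smul_sum (r := g)]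
  have h1 : ∑ i ∈ gF g F, Q.vec (q i) = ∑ i ∈ F, g • Q.vec (q i) := by
    rw [gF, Finset.sum_map]
    refine Finset.sum_congr rfl fun i _ => ?_
    change Q.vec (q (g • i)) = _
    rw [hq, Q.vec_smul]
  rw [h1]

end Avg

variable {Γ C E : Type} [Group Γ] [MulAction Γ C] [DecidableEq C]
  [AddCommGroup E] [Module ℝ E] [TopologicalSpace E] [T2Space E] [ContinuousAdd E]
  [ContinuousSMul ℝ E] [DistribMulAction Γ E] [SMulCommClass Γ ℝ E] [ContinuousConstSMul Γ E]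

open Classical in
/-- PROOF: `smul_avgQ`, `indP_smul`; `gF g F = ∅ ↔ F = ∅`. -/
theorem w1_equi (Q : ConvexSpace Γ E) {q : C → Q.Pt} (hq : ∀ (g : Γ) i, q (g • i) = g • q i)
    (g : Γ) (b : Bs C) :
    (if h : (g • b).F.Nonempty then some (indP (g • b).F, avgQ Q q (g • b).F h) else none) =
      (if h : b.F.Nonempty then some (indP b.F, avgQ Q q b.F h) else none : Option (Pow C × Q.Pt)).map
        (g • ·) := by
  by_cases hb : b.F.Nonempty
  · have hb' : (g • b).F.Nonempty := by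
      change (gF g b.F).Nonempty
      obtain ⟨c, hc⟩ := hb
      exact ⟨g • c, by rw [mem_gF]; simpa using hc⟩
    rw [dif_pos hb, dif_pos hb', Option.map_some]
    have h1 : indP (g • b).F = g • indP b.F := (indP_smul g b.F).symm
    have h2 : avgQ Q q (g • b).F hb' = g • avgQ Q q b.F hb := smul_avgQ Q hq g b.F hb hb'
    rw [h1, h2]
    rfl
  · have hb' : ¬ (g • b).F.Nonempty := by
      rintro ⟨c, hc⟩
      have hc' : c ∈ gF g b.F := hc
      rw [mem_gF] at hc'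
      exact hb ⟨_, hc'⟩
    rw [dif_neg hb, dif_neg hb', Option.map_none]

open Classical in
/-- The map `b ↦ (F, barycentre of F)` for `F ≠ ∅`. -/
def ϖ1 (Q : ConvexSpace Γ E) {q : C → Q.Pt} (hq : ∀ (g : Γ) i, q (g • i) = g • q i) :
    LMap Γ C (Pow C × Q.Pt) where
  f b := if h : b.F.Nonempty then some (indP b.F, avgQ Q q b.F h) else none
  equi g b := w1_equi Q hq g b
  onF b b' h := by
    obtain ⟨b1, b2⟩ := b
    simp only [h]

variable {Y : Type} [TopologicalSpace Y] [MulAction Γ Y] [T2Space Y] [LocallyCompactSpace Y]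
  [ContinuousConstSMul Γ Y]

instance instContinuousConstSMulPt (Q : ConvexSpace Γ E) : ContinuousConstSMul Γ Q.Pt :=
  ⟨fun g => Continuous.subtype_mk ((continuous_const_smul g).comp continuous_subtype_val) _⟩

instance instT2SpacePt (Q : ConvexSpace Γ E) : T2Space Q.Pt :=
  inferInstanceAs (T2Space Q.carrier)

instance instCompactSpacePt (Q : ConvexSpace Γ E) : CompactSpace Q.Pt :=
  isCompact_iff_compactSpace.1 Q.compact

/-- The zero section. -/
def s0 (C Y : Type) : Y → Y × Pow C := fun y => (y, Pow.zero C)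

theorem isProperMap_s0 : IsProperMap (s0 C Y) := by
  have h : Topology.IsClosedEmbedding (s0 C Y) := by
    have h1 : Topology.IsClosedEmbedding fun y : Y => (y, Pow.zero C) :=
      ⟨isEmbedding_prodMkLeft _, by
        have : range (fun y : Y => (y, Pow.zero C)) = univ ×ˢ {Pow.zero C} := by
          ext ⟨y, z⟩
          simp [eq_comm]
        rw [this]
        exact isClosed_univ.prod isClosed_singleton⟩
    exact h1
  exact h.isProperMap

theorem s0_smul (g : Γ) (y : Y) : s0 C Y (g • y) = g • s0 C Y y := rfl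

/-- PROOF: the projection along the compact space `Q.Pt`. -/
theorem isProperMap_id_fst (Q : ConvexSpace Γ E) (A : Type) [TopologicalSpace A] :
    IsProperMap (Prod.map (id : Y → Y) (Prod.fst : A × Q.Pt → A)) := by
  have : CompactSpace Q.Pt := isCompact_iff_compactSpace.mp Q.compact
  exact IsProperMap.prodMap isProperMap_id isProperMap_fst_of_compactSpace

end Pool.Agent.Lib.MP_aa9b81_an.Rc
end
end

section

/-!
# The machine, part C3: the cycle of a representation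
-/

open scoped ENNReal Topology ZeroAtInfty
open Function Set

noncomputable section

namespace Pool.Agent.Lib.MP_aa9b81_an.Mc

open Cut Hs

variable {Γ X P I : Type} [Group Γ] [TopologicalSpace X] [MulAction Γ X] [TopologicalSpace P]
  [MulAction Γ P] [MulAction Γ I] [DecidableEq I] {c : ℕ × Bs I ≃ ℕ} {e : I ↪ ℕ}
  [ContinuousConstSMul Γ X]

variable [ContinuousConstSMul Γ P] [T2Space P]

private theorem C3b_P (c : ℕ × Bs I ≃ ℕ) (e : I ↪ ℕ) :
    IsMul (cp Γ P) (m1 c (cst Pp) : Fam Γ P) := isMul_m1_cp c (sact e) Mlt_Pp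

private theorem C3b_Q (c : ℕ × Bs I ≃ ℕ) (e : I ↪ ℕ) :
    IsMul (cp Γ P) (m1 c (cst Pm) : Fam Γ P) := by
  have h1 : (m1 c (cst Pm) : Fam Γ P) = 1 - m1 c (cst Pp) := by
    rw [← m1_Pp_add c]
    abel
  rw [h1]
  exact IsMul.one.sub (C3b_P c e)

private theorem C3b_T (w : Wt Γ I) :
    IsMul (cp Γ P) (m1 c (cst (Tc w e 1)) : Fam Γ P) :=
  isMul_m1_cp c (sact e) (Mlt_Cl e (CB_tc w 1))

/-- PROOF: `Cyc.d_mem` with `D = cp Γ P`: `isMul_m1_cp` with `Mlt_Pp`, `Mlt_Cl`; `Rp0.isMul`, `Rp0.main` at `s = 1`. -/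
theorem Rp0.D_GL1 (ρ : Rp0 Γ X P I c e) (w : Wt Γ I) (hc : ρ.Cpt w 1) (u : GL1 (cp Γ X)) :
    ρ.D w u ∈ GL1 (cp Γ P) := by
  exact Cyc.d_mem (ρ.cyc w 1) (C3b_P c e) (C3b_T w) ρ.isMul (ρ.main w hc) u

/-- PROOF: the hypotheses of `dU_mem_E1`, `dU_right` for `α = (ρ.cyc w 1).α`, `β = (ρ.cyc w 1).β`: `Cyc.α_sub_β` is in
`cp Γ P` (`Rp0.main`, `isMul_m1_cp` for `Pp`), `β a` is a product of multipliers (`Qo = 1 - Pe`). -/
theorem Rp0.hyp (ρ : Rp0 Γ X P I c e) (w : Wt Γ I) (hc : ρ.Cpt w 1) :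
    (∀ a, (ρ.cyc w 1).α a - (ρ.cyc w 1).β a ∈ cp Γ P) ∧
      ∀ a, IsMul (cp Γ P) ((ρ.cyc w 1).β a) := by
  refine ⟨fun a => ?_, fun a => ?_⟩
  · rw [Cyc.α_sub_β]
    exact (C3b_P c e _ (ρ.main w hc a)).1
  · rw [Cyc.β_apply]
    exact (((C3b_T w).mul (C3b_Q c e)).mul (ρ.isMul a)).mul (C3b_T w)

/-- PROOF: `dU_mem_E1` with `Rp0.hyp`, `Cut.isClosed_cp`, `C = (‖Pp‖ + 1) * (‖Pm‖ + 1)`: `norm_m1_le`, `norm_m1_Tc_le`,
`Rp0.norm_le`. -/
theorem Rp0.D_E1 (ρ : Rp0 Γ X P I c e) (w : Wt Γ I) (hc : ρ.Cpt w 1) (u : GL1 (cp Γ X))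
    (hu : (u : (Fam Γ X)ˣ) ∈ E1 (cp Γ X)) : ρ.D w u ∈ E1 (cp Γ P) := by
  have hT : ‖(m1 c (cst (Tc w e 1)) : Fam Γ P)‖ ≤ 1 := norm_m1_Tc_le w 1
  refine dU_mem_E1 (C := (‖(m1 c (cst Pp) : Fam Γ P)‖ + 1) * (‖(m1 c (cst Pm) : Fam Γ P)‖ + 1))
    isClosed_cp isClosed_cp (by positivity) (fun a => ?_) (fun a => ?_) (ρ.hyp w hc).1 (ρ.hyp w hc).2 u hu
  · have h1 : ‖(ρ.cyc w 1).α a‖ ≤ ‖(m1 c (cst Pp) : Fam Γ P)‖ * ‖ρ.Θ a‖ := norm_mul_le _ _
    have h2 := ρ.norm_le a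
    have h3 : ‖(m1 c (cst Pp) : Fam Γ P)‖ * ‖ρ.Θ a‖ ≤ ‖(m1 c (cst Pp) : Fam Γ P)‖ * ‖(a : Fam Γ X)‖ :=
      mul_le_mul_of_nonneg_left h2 (norm_nonneg _)
    refine (h1.trans h3).trans (mul_le_mul_of_nonneg_right ?_ (norm_nonneg _))
    nlinarith [norm_nonneg (m1 c (cst Pp) : Fam Γ P), norm_nonneg (m1 c (cst Pm) : Fam Γ P)]
  · have h1 : ‖(ρ.cyc w 1).β a‖ ≤ 1 * ‖(m1 c (cst Pm) : Fam Γ P)‖ * ‖(a : Fam Γ X)‖ * 1 := by
      refine (norm_mul_le _ _).trans (mul_le_mul ?_ hT (norm_nonneg _) (by positivity))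
      refine (norm_mul_le _ _).trans (mul_le_mul ?_ (ρ.norm_le a) (norm_nonneg _) (by positivity))
      exact (norm_mul_le _ _).trans (mul_le_mul_of_nonneg_right hT (norm_nonneg _))
    rw [one_mul, mul_one] at h1
    refine h1.trans (mul_le_mul_of_nonneg_right ?_ (norm_nonneg _))
    nlinarith [norm_nonneg (m1 c (cst Pp) : Fam Γ P), norm_nonneg (m1 c (cst Pm) : Fam Γ P)]

theorem Rp0.D_right (ρ : Rp0 Γ X P I c e) (w : Wt Γ I) (hc : ρ.Cpt w 1) (u v : GL1 (cp Γ X))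
    (hv : ρ.D w v ∈ E1 (cp Γ P)) : ρ.D w (u * v) * (ρ.D w u)⁻¹ ∈ E1 (cp Γ P) :=
  dU_right isClosed_cp (ρ.hyp w hc).1 (ρ.hyp w hc).2 u v hv

end Pool.Agent.Lib.MP_aa9b81_an.Mc
end
end

section

/-!
# The machine, part C3: the cycle of a representation
-/

open scoped ENNReal Topology ZeroAtInfty
open Function Set

noncomputable section

namespace Pool.Agent.Lib.MP_aa9b81_an.Mc

open Cut Hs

variable {Γ X P I : Type} [Group Γ] [TopologicalSpace X] [MulAction Γ X] [TopologicalSpace P]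
  [MulAction Γ P] [MulAction Γ I] [DecidableEq I] {c : ℕ × Bs I ≃ ℕ} {e : I ↪ ℕ}
  [ContinuousConstSMul Γ X]

variable [ContinuousConstSMul Γ P] [T2Space P]

/-- PROOF: `Cyc.path` for `Z t = (ρ t).cyc w 1`, `D = A' = cp Γ P`; `α`, `β` are products with constants. -/
theorem Rp0.D_path (ρ : ℝ → Rp0 Γ X P I c e) (w : Wt Γ I) (hcp : ∀ t, (ρ t).Cpt w 1)
    (hc : ∀ a, ContinuousOn (fun t => (ρ t).Θ a) (Icc 0 1)) (u : GL1 (cp Γ X)) :
    ((ρ 0).D w u)⁻¹ * (ρ 1).D w u ∈ E1 (cp Γ P) := by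
  have h1 : ∀ a t, ((ρ t).cyc w 1).α a = (m1 c (cst Pp) : Fam Γ P) * (ρ t).Θ a := fun a t =>
    Cyc.α_apply _ a
  have h2 : ∀ a t, ((ρ t).cyc w 1).β a = (m1 c (cst (Tc w e 1)) : Fam Γ P) * m1 c (cst Pm) *
      (ρ t).Θ a * m1 c (cst (Tc w e 1)) := fun a t => Cyc.β_apply _ a
  have hα : ∀ a, ContinuousOn (fun t => ((ρ t).cyc w 1).α a) (Icc 0 1) := by
    intro a
    simp only [h1]
    exact continuousOn_const.mul (hc a)
  have hβ : ∀ a, ContinuousOn (fun t => ((ρ t).cyc w 1).β a) (Icc 0 1) := by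
    intro a
    simp only [h2]
    exact (continuousOn_const.mul (hc a)).mul continuousOn_const
  exact Cyc.path (le_refl (cp Γ P)) (fun t => (ρ t).cyc w 1) hα hβ
    (fun t _ => isMul_m1_cp c (sact e) Mlt_Pp)
    (fun t _ => isMul_m1_cp c (sact e) (Mlt_Cl e (CB_tc w 1)))
    (fun t _ a => (ρ t).isMul a) (fun t _ a => (ρ t).main w (hcp t) a) u

theorem Rp.D_GL1 (ρ : Rp Γ X P I c e) (w : Wt Γ I) (u : GL1 (cp Γ X)) :
    ρ.D w u ∈ GL1 (cp Γ P) := ρ.toRp0.D_GL1 w (ρ.cpt1 w) u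

theorem Rp.D_E1 (ρ : Rp Γ X P I c e) (w : Wt Γ I) (u : GL1 (cp Γ X))
    (hu : (u : (Fam Γ X)ˣ) ∈ E1 (cp Γ X)) : ρ.D w u ∈ E1 (cp Γ P) :=
  ρ.toRp0.D_E1 w (ρ.cpt1 w) u hu

theorem Rp.D_right (ρ : Rp Γ X P I c e) (w : Wt Γ I) (u v : GL1 (cp Γ X))
    (hv : ρ.D w v ∈ E1 (cp Γ P)) : ρ.D w (u * v) * (ρ.D w u)⁻¹ ∈ E1 (cp Γ P) :=
  ρ.toRp0.D_right w (ρ.cpt1 w) u v hv

theorem Rp.D_path (ρ : ℝ → Rp Γ X P I c e) (w : Wt Γ I)
    (hc : ∀ a, ContinuousOn (fun t => (ρ t).Θ a) (Icc 0 1)) (u : GL1 (cp Γ X)) :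
    ((ρ 0).D w u)⁻¹ * (ρ 1).D w u ∈ E1 (cp Γ P) :=
  Rp0.D_path (fun t => (ρ t).toRp0) w (fun t => (ρ t).cpt1 w) hc u

end Pool.Agent.Lib.MP_aa9b81_an.Mc
end
end

section

/-!
# The machine, part H5: the conditions for the labelled representation
-/

open scoped ENNReal Topology ZeroAtInfty
open Function Set

noncomputable section

namespace Pool.Agent.Lib.MP_aa9b81_an.Mc

open Cut Hs

variable {Γ B I E : Type} [Group Γ] [TopologicalSpace B] [MulAction Γ B] [MulAction Γ I]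
  [AddCommGroup E] [Module ℝ E] [TopologicalSpace E] [T2Space E]
  [ContinuousAdd E] [ContinuousSMul ℝ E] [DistribMulAction Γ E] [SMulCommClass Γ ℝ E]
  [ContinuousConstSMul Γ E] {O W : Type} [TopologicalSpace O] [MulAction Γ O]
  [TopologicalSpace W] [MulAction Γ W] {A : Ang Γ B I} (l : Lam A) (Q : ConvexSpace Γ E)
  {q : I → Q.Pt} [DecidableEq I]

private theorem H5_oinv {O Z Y : Type} {o : O → Z} (ho : Injective o) (z : Z) (y : Y) :
    oinv (Prod.map o (id : Y → Y)) (z, y) = (oinv o z).map fun x => (x, y) := by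
  by_cases h : z ∈ range o
  · obtain ⟨x, rfl⟩ := h
    have h1 : (o x, y) = Prod.map o (id : Y → Y) (x, y) := rfl
    rw [h1, oinv_apply (ho.prodMap injective_id), oinv_apply ho]
    rfl
  · have h' : (z, y) ∉ range (Prod.map o (id : Y → Y)) := by
      rintro ⟨⟨x, y'⟩, hx⟩
      apply h
      simp only [Prod.map_apply, id_eq, Prod.mk.injEq] at hx
      exact ⟨x, hx.1⟩
    rw [oinv_none h, oinv_none h']
    rfl

omit [MulAction Γ I] [DecidableEq I] [MulAction Γ B] [MulAction Γ O] [MulAction Γ W]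
  [T2Space E] [ContinuousAdd E] [ContinuousSMul ℝ E] [SMulCommClass Γ ℝ E]
  [ContinuousConstSMul Γ E] in
/-- The extension by zero is continuous. PROOF: `exists_extO` for the open embedding `(z, y, w) ↦ (o z, y, w)` into
`(B × Pow I) × Q.Pt × W`. -/
theorem continuous_vf [T2Space B] [T2Space W] [T2Space E] {o : O → B × Pow I}
    (ho : Topology.IsOpenEmbedding o) (f : C₀(O × Q.Pt × W, ℂ)) :
    ∃ F : C₀((B × Pow I) × Q.Pt × W, ℂ), ∀ z y w, F (z, y, w) = vf o f z y w := by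
  have hT2 : T2Space Q.Pt := inferInstanceAs (T2Space Q.carrier)
  obtain ⟨F, hF⟩ := exists_extO
    (ho.prodMap (Topology.IsOpenEmbedding.id (X := Q.Pt × W))) f
  refine ⟨F, fun z y w => ?_⟩
  rw [hF, H5_oinv ho.injective]
  rfl

/-- PROOF: by definition the value is `vf o f (p.1, x) y p.2` if `lab p.1 F = some y`, and `0` if there is no label. -/
theorem r2_val (hq : ∀ (g : Γ) i, q (g • i) = g • q i) {o : O → B × Pow I} (ho : Injective o)
    (he : ∀ (g : Γ) x, o (g • x) = g • o x) (f : C₀(O × Q.Pt × W, ℂ)) (p : B × W) (x : Pow I)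
    (F : Finset I) : optf f ((r2 l Q hq ho he).R p x F) =
      (l.lab Q q p.1 F).elim 0 fun y => vf o f (p.1, x) y p.2 := by
  have h : (r2 l Q hq ho he).R p x F = (oinv o (p.1, x)).bind fun z =>
    (l.lab Q q p.1 F).map fun y => (z, y, p.2) := rfl
  rw [h]
  unfold vf
  cases oinv o (p.1, x) with
  | none =>
    cases l.lab Q q p.1 F with
    | none => rfl
    | some y => rfl
  | some z =>
    cases l.lab Q q p.1 F with
    | none => rfl
    | some y => rfl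

end Pool.Agent.Lib.MP_aa9b81_an.Mc
end
end
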