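import Pool.Agent.Lib.MP_aa9b81_an.Mg.G022
import Pool.Agent.Lib.MP_aa9b81_an.Mg.G020
import Pool.Agent.Lib.MP_aa9b81_an.Mg.G011
import Pool.Agent.Lib.MP_aa9b81_an.Mg.G019
import Pool.Agent.Lib.MP_aa9b81_an.CutM.B
import Pool.Agent.Lib.MP_aa9b81_an.TC.Pow

section

/-!
# Rotated sites, part P6b: the infinite product of local operators which fix the vacuum
-/

open scoped ENNReal Topology ZeroAtInfty
open Function Filter Set

noncomputable section

namespace Pool.Agent.Lib.MP_aa9b81_an.Rc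

open Cut Hs

variable {Γ C I : Type} [Group Γ] [MulAction Γ C] [MulAction Γ I] [DecidableEq C]

namespace Fibr

/-- The matrices fix the letter `none`. -/
def FixV (𝔉 : Fibr Γ C I) (V : Mf 𝔉) : Prop :=
  ∀ i, V.m i none none = 1 ∧ ∀ c ∈ 𝔉.fib i, V.m i none (some c) = 0 ∧ V.m i (some c) none = 0

variable {𝔉 : Fibr Γ C I} {V : Mf 𝔉}

private theorem P6b_Wi_congr (hV : 𝔉.FixV V) (i : I) {ξ η : L2 (Bs C)} {b : Bs C}
    (h : ∀ b', 𝔉.Cc b b' → (ξ : Bs C → ℂ) b' = (η : Bs C → ℂ) b') :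
    (𝔉.Wi V i ξ : Bs C → ℂ) b = (𝔉.Wi V i η : Bs C → ℂ) b := by
  unfold Wi
  by_cases h1 : ∃ l ∈ 𝔉.Lt i, 𝔉.st i l b
  · obtain ⟨l, hl, hb⟩ := h1
    rw [𝔉.Li_apply_st 1 (V.m i) hl hb ξ, 𝔉.Li_apply_st 1 (V.m i) hl hb η]
    refine Finset.sum_congr rfl fun l' hl' => ?_
    cases l with
    | none =>
      cases l' with
      | none => rw [𝔉.upd_of_st hb, h b (Cc.refl 𝔉 b)]
      | some c' =>
        have hc' : c' ∈ 𝔉.fib i := (𝔉.mem_fib i c').2 ((𝔉.mem_Lt.1 hl') c' rfl)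
        rw [((hV i).2 c' hc').1]
        simp
    | some c =>
      have hc : c ∈ 𝔉.fib i := (𝔉.mem_fib i c).2 ((𝔉.mem_Lt.1 hl) c rfl)
      cases l' with
      | none =>
        rw [((hV i).2 c hc).2]
        simp
      | some c' =>
        have hc' : c' ∈ 𝔉.fib i := (𝔉.mem_fib i c').2 ((𝔉.mem_Lt.1 hl') c' rfl)
        rw [h _ (Cc.upd 𝔉 hc hc' hb)]
  · have h1' : ∀ l ∈ 𝔉.Lt i, ¬ 𝔉.st i l b := fun l hl hb => h1 ⟨l, hl, hb⟩
    rw [𝔉.Li_apply_not 1 (V.m i) h1' ξ, 𝔉.Li_apply_not 1 (V.m i) h1' η, h b (Cc.refl 𝔉 b)]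

/-- PROOF: induction on `E` (`WE_insert`): the value at `b` of `Wi V i η` involves only values of `η` at the `b'` with `Cc b b'`:
`Li_apply_st`: for the letter `none` the sum is `η b` (`FixV`, `upd_of_st`), for `some c` the term of `none` is `0` (`Cc.upd`);
`Li_apply_not`. `Cc.trans`. -/
theorem FixV.WE_apply_congr (hV : 𝔉.FixV V) (E : Finset I) {ξ η : L2 (Bs C)} {b : Bs C}
    (h : ∀ b', 𝔉.Cc b b' → (ξ : Bs C → ℂ) b' = (η : Bs C → ℂ) b') :
    (𝔉.WE E V ξ : Bs C → ℂ) b = (𝔉.WE E V η : Bs C → ℂ) b := by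
  classical
  induction E using Finset.induction_on generalizing b with
  | empty => simpa [𝔉.WE_empty V] using h b (Cc.refl 𝔉 b)
  | insert i E hi IH =>
    rw [𝔉.WE_insert hi V]
    simp only [ContinuousLinearMap.mul_apply]
    refine P6b_Wi_congr hV i fun b' hb' => IH fun b'' hb'' => h b'' (Cc.trans 𝔉 hb' hb'')

private theorem P6b_WE_apply_out (hV : 𝔉.FixV V) (D : Finset I) {b : Bs C}
    (hb : ∀ i ∈ D, i ∉ 𝔉.sites b.F) (η : L2 (Bs C)) :
    (𝔉.WE D V η : Bs C → ℂ) b = (η : Bs C → ℂ) b := by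
  classical
  induction D using Finset.induction_on with
  | empty => simp [𝔉.WE_empty V]
  | insert i D hi IH =>
    rw [𝔉.WE_insert hi V]
    simp only [ContinuousLinearMap.mul_apply]
    have h1 : b.F ∩ 𝔉.fib i = ∅ := by
      by_contra h
      exact hb i (Finset.mem_insert_self i D)
        (𝔉.mem_sites.2 (Finset.nonempty_iff_ne_empty.2 h))
    have h2 : 𝔉.st i none b := by
      refine ⟨?_, ?_⟩
      · rw [Finset.disjoint_left]
        intro c hc hc'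
        have : c ∈ b.F ∩ 𝔉.fib i := Finset.mem_inter.2 ⟨b.sub hc, hc'⟩
        rw [h1] at this
        exact Finset.notMem_empty c this
      · simpa using h1
    unfold Wi
    rw [𝔉.Li_apply_st 1 (V.m i) (𝔉.none_mem_Lt i) h2 _,
      Finset.sum_eq_single_of_mem none (𝔉.none_mem_Lt i)]
    · rw [𝔉.upd_of_st h2, (hV i).1, IH fun j hj => hb j (Finset.mem_insert_of_mem hj)]
      simp
    · intro l' hl' hne
      cases l' with
      | none => exact absurd rfl hne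
      | some c' =>
        have hc' : c' ∈ 𝔉.fib i := (𝔉.mem_fib i c').2 ((𝔉.mem_Lt.1 hl') c' rfl)
        rw [((hV i).2 c' hc').1]
        simp

/-- PROOF: induction on `E' ∖ E`: for `i ∉ sites b.F` the label `b` has the letter `none` at `i` (`S ⊆ F`), so `(Wi V i η)(b) = η(b)`
(`Li_apply_st`, `FixV`, `upd_of_st`). -/
theorem FixV.WE_apply_mono (hV : 𝔉.FixV V) {E E' : Finset I} {b : Bs C}
    (hb : 𝔉.sites b.F ⊆ E) (hE : E ⊆ E') (ξ : L2 (Bs C)) :
    (𝔉.WE E' V ξ : Bs C → ℂ) b = (𝔉.WE E V ξ : Bs C → ℂ) b := by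
  classical
  rw [𝔉.WE_sdiff hE V]
  simp only [ContinuousLinearMap.mul_apply]
  exact P6b_WE_apply_out hV (E' \ E) (fun i hi h => (Finset.mem_sdiff.1 hi).2 (hb h)) _

private theorem P6b_sum_le (hV : 𝔉.FixV V) (ξ : L2 (Bs C)) (s : Finset (Bs C)) :
    ∑ b ∈ s, ‖(𝔉.WE (𝔉.sites b.F) V ξ : Bs C → ℂ) b‖ ^ (2 : ENNReal).toReal ≤
      ‖ξ‖ ^ (2 : ENNReal).toReal := by
  classical
  have h2 : (0 : ℝ) < (2 : ENNReal).toReal := by norm_num
  set E : Finset I := s.biUnion fun b => 𝔉.sites b.F with hE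
  have h1 : ∀ b ∈ s, (𝔉.WE (𝔉.sites b.F) V ξ : Bs C → ℂ) b = (𝔉.WE E V ξ : Bs C → ℂ) b := by
    intro b hb
    refine (hV.WE_apply_mono (Finset.Subset.refl _) ?_ ξ).symm
    exact Finset.subset_biUnion_of_mem (fun b : Bs C => 𝔉.sites b.F) hb
  rw [Finset.sum_congr rfl fun b hb => by rw [h1 b hb]]
  refine (lp.sum_rpow_le_norm_rpow h2 (𝔉.WE E V ξ) s).trans ?_
  refine Real.rpow_le_rpow (norm_nonneg _) ?_ h2.le
  have := (𝔉.WE E V).le_of_opNorm_le (𝔉.norm_WE_le E V) ξ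
  simpa using this

private theorem P6b_memlp (hV : 𝔉.FixV V) (ξ : L2 (Bs C)) :
    Memℓp (fun b : Bs C => (𝔉.WE (𝔉.sites b.F) V ξ : Bs C → ℂ) b) 2 :=
  memℓp_gen' (P6b_sum_le hV ξ)

/-- PROOF: let `f b = (WE (sites b.F) V ξ) b`. For a finite set `s` of labels let `E` be the union of their sites: `f b = (WE E V ξ) b` for
`b ∈ s` (`WE_apply_mono`), so `∑_{b ∈ s} ‖f b‖² ≤ ‖WE E V ξ‖² ≤ ‖ξ‖²` (`norm_WE_le`). So `f` is square summable with norm
`≤ ‖ξ‖` (`summable_of_sum_le`, `tsum_le_of_sum_le`), linear in `ξ`; `LinearMap.mkContinuous`. -/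
theorem FixV.exists_OO (hV : 𝔉.FixV V) : ∃ T : BL (Bs C), ‖T‖ ≤ 1 ∧
    ∀ (E : Finset I) (ξ : L2 (Bs C)) (b : Bs C), 𝔉.sites b.F ⊆ E →
      (T ξ : Bs C → ℂ) b = (𝔉.WE E V ξ : Bs C → ℂ) b := by
  have h2 : (0 : ℝ) < (2 : ENNReal).toReal := by norm_num
  let T0 : L2 (Bs C) →ₗ[ℂ] L2 (Bs C) :=
    { toFun := fun ξ => ⟨fun b => (𝔉.WE (𝔉.sites b.F) V ξ : Bs C → ℂ) b, P6b_memlp hV ξ⟩
      map_add' := by
        intro ξ η
        ext b
        simp
      map_smul' := by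
        intro z ξ
        ext b
        simp }
  have hT0 : ∀ ξ, ‖T0 ξ‖ ≤ 1 * ‖ξ‖ := by
    intro ξ
    rw [one_mul]
    exact lp.norm_le_of_forall_sum_le h2 (norm_nonneg _) (P6b_sum_le hV ξ)
  refine ⟨T0.mkContinuous 1 hT0, T0.mkContinuous_norm_le zero_le_one hT0, ?_⟩
  intro E ξ b hE
  exact (hV.WE_apply_mono (Finset.Subset.refl _) hE ξ).symm

/-- The product of the local operators at all fibres. -/
def FixV.OO (hV : 𝔉.FixV V) : BL (Bs C) := hV.exists_OO.choose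

theorem FixV.norm_OO_le (hV : 𝔉.FixV V) : ‖hV.OO‖ ≤ 1 := hV.exists_OO.choose_spec.1

theorem FixV.OO_apply (hV : 𝔉.FixV V) {E : Finset I} (ξ : L2 (Bs C)) {b : Bs C}
    (h : 𝔉.sites b.F ⊆ E) : (hV.OO ξ : Bs C → ℂ) b = (𝔉.WE E V ξ : Bs C → ℂ) b :=
  hV.exists_OO.choose_spec.2 E ξ b h

/-- PROOF: `OO_apply`, `WE_apply_congr`. -/
theorem FixV.OO_apply_congr (hV : 𝔉.FixV V) {ξ η : L2 (Bs C)} {b : Bs C}
    (h : ∀ b', 𝔉.Cc b b' → (ξ : Bs C → ℂ) b' = (η : Bs C → ℂ) b') :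
    (hV.OO ξ : Bs C → ℂ) b = (hV.OO η : Bs C → ℂ) b := by
  rw [hV.OO_apply ξ (Finset.Subset.refl _), hV.OO_apply η (Finset.Subset.refl _)]
  exact hV.WE_apply_congr _ h

/-- PROOF: at `b` with `E = sites b.F`: `(OO (OO ξ)) b = (WE E (OO ξ)) b = (WE E (WE E ξ)) b` (`OO_apply`; `WE_apply_congr`,
`Cc.sites`), and `WE_mul_self`. -/
theorem FixV.OO_mul_OO (hV : 𝔉.FixV V) : hV.OO * hV.OO = 1 := by
  refine ContinuousLinearMap.ext fun ξ => ?_
  ext b
  rw [ContinuousLinearMap.mul_apply, hV.OO_apply (hV.OO ξ) (Finset.Subset.refl _)]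
  have h1 : (𝔉.WE (𝔉.sites b.F) V (hV.OO ξ) : Bs C → ℂ) b =
      (𝔉.WE (𝔉.sites b.F) V (𝔉.WE (𝔉.sites b.F) V ξ) : Bs C → ℂ) b := by
    refine hV.WE_apply_congr _ fun b' hb' => ?_
    refine hV.OO_apply ξ ?_
    rw [Cc.sites 𝔉 hb']
  rw [h1, ← ContinuousLinearMap.mul_apply, 𝔉.WE_mul_self]

/-- PROOF: the equality holds if `ξ` and `η` are finitely supported: for `E` containing all sites of both supports the left side is
`⟪WE E ξ, η⟫` (the values of `OO ξ` and `WE E ξ` agree at all `b` in the support of `η`) and the right side is `⟪ξ, WE E η⟫`; `WE E` is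
symmetric (`inner_Li`, induction on `E`, the factors commute). The finitely supported vectors are dense (both sides are continuous);
or take `ξ = bv b`, `η = bv b'`. -/
theorem FixV.inner_OO (hV : 𝔉.FixV V) (ξ η : L2 (Bs C)) :
    inner ℂ (hV.OO ξ) η = inner ℂ ξ (hV.OO η) := by
  have hle : ∀ ζ, ‖hV.OO ζ‖ ≤ ‖ζ‖ := fun ζ => by
    simpa using hV.OO.le_of_opNorm_le hV.norm_OO_le ζ
  have hinv : ∀ ζ, hV.OO (hV.OO ζ) = ζ := fun ζ => by
    rw [← ContinuousLinearMap.mul_apply, hV.OO_mul_OO]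
    rfl
  let U : L2 (Bs C) →ₗᵢ[ℂ] L2 (Bs C) :=
    { toLinearMap := (hV.OO : L2 (Bs C) →ₗ[ℂ] L2 (Bs C))
      norm_map' := fun ζ => le_antisymm (hle ζ) (by
        have := hle (hV.OO ζ)
        rw [hinv ζ] at this
        exact this) }
  have h1 := U.inner_map_map ξ (hV.OO η)
  have h2 : U (hV.OO η) = η := hinv η
  have h3 : U ξ = hV.OO ξ := rfl
  rw [h2, h3] at h1
  exact h1

end Fibr

end Pool.Agent.Lib.MP_aa9b81_an.Rc
end
end

section

/-!
# Rotated sites, part P6c: functions of the charges, definition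
-/

open scoped ENNReal Topology ZeroAtInfty
open Function Filter Set

noncomputable section

namespace Pool.Agent.Lib.MP_aa9b81_an.Rc

open Cut Hs

variable {Γ C I : Type} [Group Γ] [MulAction Γ C] [MulAction Γ I] [DecidableEq C]

/-- Data: a map `C → I` with finite nonempty fibres, a point in each fibre. -/
structure Bas (𝔉 : Fibr Γ C I) where
  /-- the points -/
  cb : I → C
  mem : ∀ i, cb i ∈ 𝔉.fib i

theorem Bas.ne {𝔉 : Fibr Γ C I} (β : Bas 𝔉) (i : I) : (𝔉.fib i).Nonempty := ⟨_, β.mem i⟩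

/-- PROOF: definition of `mO`. -/
theorem Bas.fixV {𝔉 : Fibr Γ C I} (β : Bas 𝔉) : 𝔉.FixV (𝔉.VO β.mem) :=
  fun _ => ⟨rfl, fun _ _ => ⟨rfl, rfl⟩⟩

/-- The product of the reflections `mO` at all fibres. -/
def Bas.O {𝔉 : Fibr Γ C I} (β : Bas 𝔉) : BL (Bs C) := β.fixV.OO

open Classical in
/-- The set of the charged fibres in the rotated basis. -/
def Bas.ch {𝔉 : Fibr Γ C I} (β : Bas 𝔉) (b : Bs C) : Finset I :=
  (𝔉.sites b.F).filter fun i => ¬ ∃ l ∈ 𝔉.Lt i, l ≠ some (β.cb i) ∧ 𝔉.st i l b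

/-- The function `f` of the set of the charged fibres. -/
def Bas.G {𝔉 : Fibr Γ C I} (β : Bas 𝔉) (f : Finset I → ℂ) : BL (Bs C) :=
  β.O * (dia fun b => f (β.ch b)) * β.O

variable {𝔉 : Fibr Γ C I} (β : Bas 𝔉)

/-- PROOF: for `i ∉ sites b.F` the label `b` is even at `i` with the letter `none`. -/
theorem Bas.mem_ch {b : Bs C} {i : I} :
    i ∈ β.ch b ↔ ¬ ∃ l ∈ 𝔉.Lt i, l ≠ some (β.cb i) ∧ 𝔉.st i l b := by
  have h0 : i ∈ β.ch b ↔ i ∈ 𝔉.sites b.F ∧
      ¬ ∃ l ∈ 𝔉.Lt i, l ≠ some (β.cb i) ∧ 𝔉.st i l b := by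
    classical
    unfold Bas.ch
    simp only [Finset.mem_filter]
  rw [h0]
  constructor
  · exact fun h => h.2
  · intro h
    refine ⟨?_, h⟩
    by_contra hi
    apply h
    rw [𝔉.mem_sites, Finset.not_nonempty_iff_eq_empty] at hi
    refine ⟨none, 𝔉.none_mem_Lt i, Option.some_ne_none _ |>.symm, ?_⟩
    unfold Fibr.st
    refine ⟨?_, ?_⟩
    · rw [Finset.disjoint_left]
      intro c hc hc'
      have h1 : c ∈ b.F ∩ 𝔉.fib i := Finset.mem_inter.2 ⟨b.sub hc, hc'⟩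
      rw [hi] at h1
      exact (Finset.notMem_empty c) h1
    · rw [hi]
      rfl

private theorem P6c_ext {T T' : BL (Bs C)}
    (h : ∀ (ξ : L2 (Bs C)) (b : Bs C), (T ξ : Bs C → ℂ) b = (T' ξ : Bs C → ℂ) b) : T = T' := by
  refine ContinuousLinearMap.ext fun ξ => ?_
  ext b
  exact h ξ b

private theorem P6c_dia_mul {φ ψ : Bs C → ℂ} {M M' : ℝ} (hM : 0 ≤ M) (hφ : ∀ b, ‖φ b‖ ≤ M)
    (hM' : 0 ≤ M') (hψ : ∀ b, ‖ψ b‖ ≤ M') : dia φ * dia ψ = dia fun b => φ b * ψ b := by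
  refine P6c_ext fun ξ b => ?_
  have h1 : ∀ b, ‖φ b * ψ b‖ ≤ M * M' := fun b => by
    rw [norm_mul]
    exact mul_le_mul (hφ b) (hψ b) (norm_nonneg _) hM
  have e : ((dia φ * dia ψ) ξ : Bs C → ℂ) b = (dia φ (dia ψ ξ) : Bs C → ℂ) b := rfl
  rw [e, dia_apply hM hφ, dia_apply hM' hψ, dia_apply (mul_nonneg hM hM') h1, mul_assoc]

private theorem P6c_dia_add {φ ψ : Bs C → ℂ} {M M' : ℝ} (hM : 0 ≤ M) (hφ : ∀ b, ‖φ b‖ ≤ M)
    (hM' : 0 ≤ M') (hψ : ∀ b, ‖ψ b‖ ≤ M') : dia φ + dia ψ = dia fun b => φ b + ψ b := by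
  refine P6c_ext fun ξ b => ?_
  have h1 : ∀ b, ‖φ b + ψ b‖ ≤ M + M' := fun b =>
    (norm_add_le _ _).trans (add_le_add (hφ b) (hψ b))
  have e : ((dia φ + dia ψ) ξ : Bs C → ℂ) b =
      (dia φ ξ : Bs C → ℂ) b + (dia ψ ξ : Bs C → ℂ) b := rfl
  rw [e, dia_apply hM hφ, dia_apply hM' hψ, dia_apply (add_nonneg hM hM') h1, add_mul]

private theorem P6c_dia_smul (z : ℂ) {φ : Bs C → ℂ} {M : ℝ} (hM : 0 ≤ M) (hφ : ∀ b, ‖φ b‖ ≤ M) :
    z • dia φ = dia fun b => z * φ b := by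
  refine P6c_ext fun ξ b => ?_
  have h1 : ∀ b, ‖z * φ b‖ ≤ ‖z‖ * M := fun b => by
    rw [norm_mul]
    exact mul_le_mul_of_nonneg_left (hφ b) (norm_nonneg _)
  have e : ((z • dia φ) ξ : Bs C → ℂ) b = z * (dia φ ξ : Bs C → ℂ) b := rfl
  rw [e, dia_apply hM hφ, dia_apply (mul_nonneg (norm_nonneg z) hM) h1, mul_assoc]

/-- PROOF: `norm_OO_le`, `norm_dia_le`. -/
theorem Bas.norm_G_le {f : Finset I → ℂ} {M : ℝ} (hM : 0 ≤ M) (hf : ∀ G, ‖f G‖ ≤ M) :
    ‖β.G f‖ ≤ M := by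
  unfold Bas.G
  have h1 : ‖β.O‖ ≤ 1 := β.fixV.norm_OO_le
  have h2 : ‖dia fun b : Bs C => f (β.ch b)‖ ≤ M := norm_dia_le hM fun b => hf _
  have h3 := norm_mul_le β.O (dia fun b : Bs C => f (β.ch b))
  have h4 := norm_mul_le (β.O * dia fun b : Bs C => f (β.ch b)) β.O
  have h5 := norm_nonneg β.O
  have h6 := norm_nonneg (dia fun b : Bs C => f (β.ch b))
  have h7 := norm_nonneg (β.O * dia fun b : Bs C => f (β.ch b))
  have h8 : ‖β.O * dia fun b : Bs C => f (β.ch b)‖ ≤ M := by nlinarith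
  nlinarith

/-- PROOF: `OO_mul_OO`. -/
theorem Bas.G_mul_G {f f' : Finset I → ℂ} {M M' : ℝ} (hM : 0 ≤ M) (hf : ∀ G, ‖f G‖ ≤ M)
    (hM' : 0 ≤ M') (hf' : ∀ G, ‖f' G‖ ≤ M') : β.G f * β.G f' = β.G fun G => f G * f' G := by
  unfold Bas.G
  rw [← P6c_dia_mul hM (fun b => hf (β.ch b)) hM' (fun b => hf' (β.ch b))]
  have h : β.O * β.O = 1 := β.fixV.OO_mul_OO
  set D : BL (Bs C) := dia fun b => f (β.ch b)
  set D' : BL (Bs C) := dia fun b => f' (β.ch b)
  calc β.O * D * β.O * (β.O * D' * β.O) = β.O * D * (β.O * β.O) * D' * β.O := by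
        simp only [mul_assoc]
    _ = β.O * (D * D') * β.O := by
        rw [h]
        simp only [mul_assoc, one_mul]

/-- PROOF: `dia` is additive on bounded functions. -/
theorem Bas.G_add {f f' : Finset I → ℂ} {M M' : ℝ} (hM : 0 ≤ M) (hf : ∀ G, ‖f G‖ ≤ M)
    (hM' : 0 ≤ M') (hf' : ∀ G, ‖f' G‖ ≤ M') : β.G f + β.G f' = β.G fun G => f G + f' G := by
  unfold Bas.G
  rw [← P6c_dia_add hM (fun b => hf (β.ch b)) hM' (fun b => hf' (β.ch b)), mul_add, add_mul]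

/-- PROOF: `dia` is homogeneous. -/
theorem Bas.G_smul (z : ℂ) {f : Finset I → ℂ} {M : ℝ} (hM : 0 ≤ M) (hf : ∀ G, ‖f G‖ ≤ M) :
    z • β.G f = β.G fun G => z * f G := by
  unfold Bas.G
  rw [← P6c_dia_smul z hM (fun b => hf (β.ch b)), mul_smul_comm, smul_mul_assoc]

/-- PROOF: `OO_mul_OO`, `dia 1 = 1`. -/
theorem Bas.G_one : (β.G fun _ => 1) = 1 := by
  unfold Bas.G
  have h : β.O * β.O = 1 := β.fixV.OO_mul_OO
  have h1 : (dia fun _ : Bs C => (1 : ℂ)) = 1 := by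
    refine P6c_ext fun ξ b => ?_
    rw [dia_apply zero_le_one (fun _ => by simp), one_mul]
    rfl
  rw [h1, mul_one, h]

end Pool.Agent.Lib.MP_aa9b81_an.Rc
end
end

section

/-!
# Rotated sites, part P6d: functions of the charges, algebra
-/

open scoped ENNReal Topology ZeroAtInfty
open Function Filter Set

noncomputable section

namespace Pool.Agent.Lib.MP_aa9b81_an.Rc

open Cut Hs

variable {Γ C I : Type} [Group Γ] [MulAction Γ C] [MulAction Γ I] [DecidableEq C]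

variable {𝔉 : Fibr Γ C I} (β : Bas 𝔉)

/-- PROOF: `OO_apply_congr`, `dia_apply`: the value of `β.G f ξ` at `b` involves only values of `ξ` at labels `b'` with `Cc b b'`. -/
theorem Bas.G_apply_congr (f : Finset I → ℂ) {M : ℝ} (hM : 0 ≤ M) (hf : ∀ G, ‖f G‖ ≤ M)
    {ξ η : L2 (Bs C)} {b : Bs C}
    (h : ∀ b', 𝔉.Cc b b' → (ξ : Bs C → ℂ) b' = (η : Bs C → ℂ) b') :
    (β.G f ξ : Bs C → ℂ) b = (β.G f η : Bs C → ℂ) b := by
  have hφ : ∀ b', ‖f (β.ch b')‖ ≤ M := fun b' => hf _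
  have e : ∀ ζ : L2 (Bs C), β.G f ζ =
      β.fixV.OO ((dia fun b => f (β.ch b)) (β.fixV.OO ζ)) := fun _ => rfl
  rw [e, e]
  refine β.fixV.OO_apply_congr fun b' hb' => ?_
  rw [dia_apply hM hφ, dia_apply hM hφ,
    β.fixV.OO_apply_congr (ξ := ξ) (η := η) fun b'' hb'' => h b'' (hb'.trans 𝔉 hb'')]

/-- PROOF: `OO_apply_congr` at `b`: only the labels `b'` with `Cc b b'` enter, and `ch b' ⊆ sites b'.F = sites b.F`
(`Cc.sites`). -/
theorem Bas.G_row {f f' : Finset I → ℂ} {M : ℝ} (hM : 0 ≤ M) (hf : ∀ G, ‖f G‖ ≤ M)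
    (hf' : ∀ G, ‖f' G‖ ≤ M) {b : Bs C} (h : ∀ G ⊆ 𝔉.sites b.F, f G = f' G) (ξ : L2 (Bs C)) :
    (β.G f ξ : Bs C → ℂ) b = (β.G f' ξ : Bs C → ℂ) b := by
  have hφ : ∀ b', ‖f (β.ch b')‖ ≤ M := fun b' => hf _
  have hφ' : ∀ b', ‖f' (β.ch b')‖ ≤ M := fun b' => hf' _
  have e : ∀ (g : Finset I → ℂ) (ζ : L2 (Bs C)), β.G g ζ =
      β.fixV.OO ((dia fun b => g (β.ch b)) (β.fixV.OO ζ)) := fun _ _ => rfl
  rw [e, e]
  refine β.fixV.OO_apply_congr fun b' hb' => ?_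
  rw [dia_apply hM hφ, dia_apply hM hφ', h (β.ch b') ?_]
  have h1 : 𝔉.sites b'.F = 𝔉.sites b.F := hb'.sites 𝔉
  rw [← h1]
  intro j hj
  unfold Bas.ch at hj
  classical exact (Finset.mem_filter.1 hj).1

open Classical in
/-- PROOF: coordinates at `b`, `E = insert i (sites b.F)`: `(O (dia k (O ξ))) b = (WE E (dia k (WE E ξ))) b` with
`k b' = [i ∈ ch b']` (`OO_apply`, `WE_apply_congr`, `Cc.sites`). By `mem_ch` and `Li_ea_eq`, `dia k = Li i 1 (ea (some (cb i)))`,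
which commutes with the `Wi V j`, `j ≠ i` (`Li_comm`), so `WE E * dia k * WE E = Wi V i * dia k * Wi V i = Qi i` (`Wi_eO_Wi`). -/
theorem Bas.G_ind (i : I) : (β.G fun G => if i ∈ G then 1 else 0) = 𝔉.Qi i := by
  have hk : (dia fun b : Bs C => if i ∈ β.ch b then (1 : ℂ) else 0) =
      𝔉.Li i 1 (Fibr.ea (some (β.cb i))) := by
    rw [𝔉.Li_ea_eq (a := some (β.cb i)) (𝔉.mem_Lt.2 fun c hc => by
      rw [← Option.some.inj hc]; exact (𝔉.mem_fib i _).1 (β.mem i))]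
    congr 1
    funext b
    have h1 := β.mem_ch (b := b) (i := i)
    by_cases h : ∃ l ∈ 𝔉.Lt i, l ≠ some (β.cb i) ∧ 𝔉.st i l b
    · rw [if_pos h, if_neg fun h' => (h1.1 h') h]
    · rw [if_neg h, if_pos (h1.2 h)]
  have hb1 : ∀ b : Bs C, ‖(if i ∈ β.ch b then (1 : ℂ) else 0)‖ ≤ 1 := by
    intro b
    split_ifs <;> simp
  refine ContinuousLinearMap.ext fun ξ => ?_
  ext b
  have hi : i ∉ (𝔉.sites b.F).erase i := Finset.notMem_erase i _
  have hsub : 𝔉.sites b.F ⊆ insert i ((𝔉.sites b.F).erase i) := by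
    intro j hj
    by_cases hji : j = i
    · rw [hji]; exact Finset.mem_insert_self _ _
    · exact Finset.mem_insert_of_mem (Finset.mem_erase.2 ⟨hji, hj⟩)
  have e : (β.G fun G => if i ∈ G then 1 else 0) ξ = β.fixV.OO ((dia fun b : Bs C =>
      if i ∈ β.ch b then (1 : ℂ) else 0) (β.fixV.OO ξ)) := rfl
  rw [e, β.fixV.OO_apply _ hsub]
  have h2 : (𝔉.WE (insert i ((𝔉.sites b.F).erase i)) (𝔉.VO β.mem)
      ((dia fun b : Bs C => if i ∈ β.ch b then (1 : ℂ) else 0) (β.fixV.OO ξ)) : Bs C → ℂ) b =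
      (𝔉.WE (insert i ((𝔉.sites b.F).erase i)) (𝔉.VO β.mem)
      ((dia fun b : Bs C => if i ∈ β.ch b then (1 : ℂ) else 0)
        (𝔉.WE (insert i ((𝔉.sites b.F).erase i)) (𝔉.VO β.mem) ξ)) : Bs C → ℂ) b := by
    refine β.fixV.WE_apply_congr _ fun b' hb' => ?_
    have h3 : 𝔉.sites b'.F = 𝔉.sites b.F := hb'.sites 𝔉
    rw [dia_apply zero_le_one hb1, dia_apply zero_le_one hb1,
      β.fixV.OO_apply (E := insert i ((𝔉.sites b.F).erase i)) ξ (by rw [h3]; exact hsub)]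
  rw [h2, hk]
  have hc1 : Commute (𝔉.WE ((𝔉.sites b.F).erase i) (𝔉.VO β.mem))
      (𝔉.Li i 1 (Fibr.ea (some (β.cb i)))) :=
    𝔉.WE_comm fun j hj => 𝔉.Li_comm (Finset.mem_erase.1 hj).1 _ _ _ _
  have hc2 : Commute (𝔉.WE ((𝔉.sites b.F).erase i) (𝔉.VO β.mem)) (𝔉.Wi (𝔉.VO β.mem) i) :=
    𝔉.WE_comm fun j hj => 𝔉.Li_comm (Finset.mem_erase.1 hj).1 _ _ _ _
  have h4 : 𝔉.WE (insert i ((𝔉.sites b.F).erase i)) (𝔉.VO β.mem) *
      𝔉.Li i 1 (Fibr.ea (some (β.cb i))) *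
      𝔉.WE (insert i ((𝔉.sites b.F).erase i)) (𝔉.VO β.mem) = 𝔉.Qi i := by
    rw [𝔉.WE_insert hi]
    calc 𝔉.Wi (𝔉.VO β.mem) i * 𝔉.WE ((𝔉.sites b.F).erase i) (𝔉.VO β.mem) *
          𝔉.Li i 1 (Fibr.ea (some (β.cb i))) *
          (𝔉.Wi (𝔉.VO β.mem) i * 𝔉.WE ((𝔉.sites b.F).erase i) (𝔉.VO β.mem))
        = 𝔉.Wi (𝔉.VO β.mem) i * (𝔉.WE ((𝔉.sites b.F).erase i) (𝔉.VO β.mem) *
          𝔉.Li i 1 (Fibr.ea (some (β.cb i)))) *
          𝔉.Wi (𝔉.VO β.mem) i * 𝔉.WE ((𝔉.sites b.F).erase i) (𝔉.VO β.mem) := by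
          simp only [mul_assoc]
      _ = 𝔉.Wi (𝔉.VO β.mem) i * 𝔉.Li i 1 (Fibr.ea (some (β.cb i))) *
          (𝔉.WE ((𝔉.sites b.F).erase i) (𝔉.VO β.mem) *
          𝔉.Wi (𝔉.VO β.mem) i) * 𝔉.WE ((𝔉.sites b.F).erase i) (𝔉.VO β.mem) := by
          rw [hc1.eq]; simp only [mul_assoc]
      _ = 𝔉.Wi (𝔉.VO β.mem) i * 𝔉.Li i 1 (Fibr.ea (some (β.cb i))) *
          𝔉.Wi (𝔉.VO β.mem) i * (𝔉.WE ((𝔉.sites b.F).erase i) (𝔉.VO β.mem) *
          𝔉.WE ((𝔉.sites b.F).erase i) (𝔉.VO β.mem)) := by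
          rw [hc2.eq]; simp only [mul_assoc]
      _ = 𝔉.Qi i := by rw [𝔉.WE_mul_self, mul_one, 𝔉.Wi_eO_Wi]
  rw [← h4]
  rfl

omit [DecidableEq C] in
/-- INDUCTION PRINCIPLE. PROOF: `f (G ∩ K) = ∑_{G₀ ⊆ K} f G₀ ∏_{i ∈ K} (if i ∈ G₀ then [i ∈ G] else 1 - [i ∈ G])`; induction on `K`:
`f (G ∩ insert i K) = [i ∈ G] f (insert i (G ∩ K)) + (1 - [i ∈ G]) f (G ∩ K)`, and `G ↦ f (insert i (G ∩ K))` is of the form
`f' (G ∩ K)`. -/
theorem fun_induction [DecidableEq I] {p : (Finset I → ℂ) → Prop} (K : Finset I)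
    (hQ : ∀ i ∈ K, p fun G => if i ∈ G then 1 else 0) (h1 : p fun _ => 1)
    (hadd : ∀ f f', p f → p f' → p fun G => f G + f' G)
    (hmul : ∀ f f', p f → p f' → p fun G => f G * f' G)
    (hsmul : ∀ (z : ℂ) f, p f → p fun G => z * f G) (f : Finset I → ℂ) :
    p fun G => f (G ∩ K) := by
  induction K using Finset.induction_on generalizing f with
  | empty =>
    have h2 : (fun G : Finset I => f (G ∩ ∅)) = fun G => f ∅ * (fun _ : Finset I => (1 : ℂ)) G := by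
      funext G
      rw [Finset.inter_empty, mul_one]
    rw [h2]
    exact hsmul _ _ h1
  | insert i K' hi ih =>
    have ih' := ih fun j hj => hQ j (Finset.mem_insert_of_mem hj)
    have hq := hQ i (Finset.mem_insert_self _ _)
    have h2 := hmul _ _ hq (ih' fun G => f (insert i G))
    have h3 := hmul _ _ (hadd _ _ h1 (hsmul (-1) _ hq)) (ih' f)
    have h4 := hadd _ _ h2 h3
    have h5 : (fun G : Finset I => f (G ∩ insert i K')) = fun G =>
        (if i ∈ G then (1 : ℂ) else 0) * f (insert i (G ∩ K')) +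
        (1 + -1 * (if i ∈ G then (1 : ℂ) else 0)) * f (G ∩ K') := by
      funext G
      by_cases h : i ∈ G
      · rw [Finset.inter_insert_of_mem h, if_pos h]; ring
      · rw [Finset.inter_insert_of_notMem h, if_neg h]; ring
    rw [h5]
    exact h4

/-- PROOF: `inner_OO` twice, `dia` has the adjoint `dia (conj ..)` (`lp.inner_eq_tsum`, termwise). -/
theorem Bas.inner_G {f : Finset I → ℂ} {M : ℝ} (hM : 0 ≤ M) (hf : ∀ G, ‖f G‖ ≤ M)
    (ξ η : L2 (Bs C)) : inner ℂ (β.G f ξ) η =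
      inner ℂ ξ (β.G (fun G => (starRingEnd ℂ) (f G)) η) := by
  have hφ : ∀ b', ‖f (β.ch b')‖ ≤ M := fun b' => hf _
  have hφ' : ∀ b', ‖(starRingEnd ℂ) (f (β.ch b'))‖ ≤ M := fun b' => by
    rw [RCLike.norm_conj]; exact hf _
  have e : ∀ (g : Finset I → ℂ) (ζ : L2 (Bs C)), β.G g ζ =
      β.fixV.OO ((dia fun b => g (β.ch b)) (β.fixV.OO ζ)) := fun _ _ => rfl
  have hd : ∀ ζ θ : L2 (Bs C), inner ℂ ((dia fun b => f (β.ch b)) ζ) θ =
      inner ℂ ζ ((dia fun b => (starRingEnd ℂ) (f (β.ch b))) θ) := by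
    intro ζ θ
    rw [lp.inner_eq_tsum, lp.inner_eq_tsum]
    refine tsum_congr fun b => ?_
    have e1 := dia_apply hM hφ ζ b
    have e2 := dia_apply hM hφ' θ b
    simp only at e1 e2
    rw [e1, e2, RCLike.inner_apply, RCLike.inner_apply, map_mul]
    ring
  rw [e, e]
  calc inner ℂ (β.fixV.OO ((dia fun b => f (β.ch b)) (β.fixV.OO ξ))) η
      = inner ℂ ((dia fun b => f (β.ch b)) (β.fixV.OO ξ)) (β.fixV.OO η) := β.fixV.inner_OO _ _
    _ = inner ℂ (β.fixV.OO ξ) ((dia fun b => (starRingEnd ℂ) (f (β.ch b))) (β.fixV.OO η)) :=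
        hd _ _
    _ = inner ℂ ξ (β.fixV.OO ((dia fun b => (starRingEnd ℂ) (f (β.ch b))) (β.fixV.OO η))) :=
        β.fixV.inner_OO _ _

end Pool.Agent.Lib.MP_aa9b81_an.Rc
end
end

section

/-!
# Products of finite sets, encoded by their characteristic functions

`p : C → I` is a map of `Γ`-sets with finite fibres. The product of the fibres is the set of the
subsets of `C` which meet every fibre in exactly one point.
-/

noncomputable section

namespace Pool.Agent.Lib.MP_aa9b81_an.Cut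

open scoped ENNReal Topology ZeroAtInfty
open Filter Topology Set

/-- The pairs `(x, S)`, `x ∈ X`, where `S` meets every fibre of `p : C → I` in exactly one point. -/
def FX {Γ C I : Type} [Group Γ] [MulAction Γ C] [MulAction Γ I] (p : C → I)
    (hp : ∀ (g : Γ) c, p (g • c) = g • p c) (X : Type) [MulAction Γ X] : InvSet Γ (X × Pow C) where
  carrier := {x | ∀ i, ∃! c, p c = i ∧ x.2 c = true}
  inv g x hx i := by
    obtain ⟨c, ⟨hc1, hc2⟩, hc3⟩ := hx (g⁻¹ • i)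
    refine ⟨g • c, ⟨?_, ?_⟩, ?_⟩
    · rw [hp, hc1, smul_inv_smul]
    · change x.2 (g⁻¹ • g • c) = true
      rw [inv_smul_smul]
      exact hc2
    · rintro c' ⟨h1, h2⟩
      have h3 := hc3 (g⁻¹ • c') ⟨by rw [hp, h1], h2⟩
      rw [← h3, smul_inv_smul]

end Pool.Agent.Lib.MP_aa9b81_an.Cut
end
end

section

/-!
# Total cutting theorem: metrizable quotients
-/

noncomputable section

namespace Pool.Agent.Lib.MP_aa9b81_an.Cut

open scoped ENNReal Topology ZeroAtInfty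
open Filter Topology Set

/-- Configurations with values in a space `M`. -/
def MSp (Γ : Type) (n : ℕ) (M : Type) : Type := Γ × Fin n → M

instance (Γ : Type) (n : ℕ) (M : Type) [TopologicalSpace M] : TopologicalSpace (MSp Γ n M) :=
  inferInstanceAs (TopologicalSpace (Γ × Fin n → M))

instance (Γ : Type) [Countable Γ] (n : ℕ) (M : Type) [MetricSpace M] :
    TopologicalSpace.MetrizableSpace (MSp Γ n M) := by
  have h : TopologicalSpace.MetrizableSpace (Γ × Fin n → M) := UniformSpace.metrizableSpace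
  exact h

instance (Γ : Type) [Group Γ] (n : ℕ) (M : Type) : MulAction Γ (MSp Γ n M) where
  smul h a := fun q => a (h⁻¹ * q.1, q.2)
  one_smul a := funext fun q => by
    change a ((1 : Γ)⁻¹ * q.1, q.2) = a q
    rw [inv_one, one_mul]
  mul_smul g h a := funext fun q => by
    change a ((g * h)⁻¹ * q.1, q.2) = a (h⁻¹ * (g⁻¹ * q.1), q.2)
    rw [mul_inv_rev, mul_assoc]

instance (Γ : Type) [Group Γ] (n : ℕ) (M : Type) [TopologicalSpace M] :
    ContinuousConstSMul Γ (MSp Γ n M) :=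
  ⟨fun h => continuous_pi fun q =>
    continuous_apply (A := fun _ : Γ × Fin n => M) (h⁻¹ * q.1, q.2)⟩

section Quot

variable {Γ Z V : Type} [Group Γ] [Countable Γ] [TopologicalSpace Z] [T2Space Z] [CompactSpace Z]
  [MulAction Γ Z] [ContinuousConstSMul Γ Z] [TopologicalSpace V] [T2Space V]

omit [T2Space Z] [T2Space V] in
/-- Finitely many functions come from a metrizable quotient. -/
theorem exists_metrizable_quotient (fs : List C₀(Z × V, ℂ)) (hfs : ∀ f ∈ fs, HasCompactSupport f) :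
    ∃ (A : Type) (_ : TopologicalSpace A) (_ : MulAction Γ A) (_ : CompactSpace A)
      (_ : TopologicalSpace.MetrizableSpace A) (_ : ContinuousConstSMul Γ A) (π : Z → A),
      Continuous π ∧ Function.Surjective π ∧ (∀ (g : Γ) z, π (g • z) = g • π z) ∧
        ∀ f ∈ fs, ∃ F : C₀(A × V, ℂ), ∀ z v, f (z, v) = F (π z, v) := by
  classical
  obtain ⟨K, hK⟩ : ∃ K : Set V, K = ⋃ k : Fin fs.length, Prod.snd '' tsupport (fs.get k) :=
    ⟨_, rfl⟩
  have hKc : IsCompact K := by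
    rw [hK]
    exact isCompact_iUnion fun k => (hfs _ (List.get_mem fs k)).isCompact.image continuous_snd
  have : CompactSpace K := isCompact_iff_compactSpace.1 hKc
  have hK0 : ∀ (k : Fin fs.length) z v, v ∉ K → fs.get k (z, v) = 0 := by
    intro k z v hv
    by_contra h
    apply hv
    rw [hK]
    exact mem_iUnion.2 ⟨k, (z, v), subset_tsupport _ h, rfl⟩
  let φ : Fin fs.length → C(Z, C(K, ℂ)) := fun k =>
    ContinuousMap.curry ⟨fun p : Z × K => fs.get k (p.1, (p.2 : V)),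
      (fs.get k).continuous.comp (continuous_fst.prodMk (continuous_subtype_val.comp continuous_snd))⟩
  have hφ : ∀ k z (v : K), φ k z v = fs.get k (z, (v : V)) := fun k z v => rfl
  let π₀ : Z → MSp Γ fs.length C(K, ℂ) := fun z q => φ q.2 (q.1⁻¹ • z)
  have hπ₀ : Continuous π₀ := continuous_pi fun q =>
    (φ q.2).continuous.comp (continuous_const_smul q.1⁻¹)
  have hπe : ∀ (g : Γ) z, π₀ (g • z) = g • π₀ z := by
    intro g z
    funext q
    change φ q.2 (q.1⁻¹ • g • z) = φ q.2 ((g⁻¹ * q.1)⁻¹ • z)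
    rw [mul_inv_rev, inv_inv, mul_smul]
  let A : InvSet Γ (MSp Γ fs.length C(K, ℂ)) :=
    { carrier := range π₀
      inv := by
        rintro g _ ⟨z, rfl⟩
        exact ⟨g • z, hπe g z⟩ }
  let π : Z → A.Pt := fun z => A.pt (π₀ z) ⟨z, rfl⟩
  have hπc : Continuous π := Continuous.subtype_mk hπ₀ _
  have hπs : Function.Surjective π := by
    rintro ⟨_, z, rfl⟩
    exact ⟨z, rfl⟩
  have hAc : CompactSpace A.Pt := by
    refine ⟨?_⟩
    have h1 := isCompact_range hπc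
    rwa [hπs.range_eq] at h1
  have hAm : TopologicalSpace.MetrizableSpace A.Pt := A.isEmbedding_val.metrizableSpace
  refine ⟨A.Pt, inferInstance, inferInstance, hAc, hAm, inferInstance, π, hπc, hπs,
    fun g z => A.val_injective (hπe g z), ?_⟩
  intro f hf
  obtain ⟨k, rfl⟩ := List.get_of_mem hf
  have hT : T2Space A.Pt := inferInstance
  have hπp : IsProperMap (Prod.map π (id : V → V)) := hπc.isProperMap.prodMap isProperMap_id
  have hπs' : Function.Surjective (Prod.map π (id : V → V)) := hπs.prodMap Function.surjective_id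
  let F₀ : A.Pt × V → ℂ := fun x =>
    if h : x.2 ∈ K then ((A.val x.1 : Γ × Fin fs.length → C(K, ℂ)) (1, k)) ⟨x.2, h⟩ else 0
  have hF₀ : ∀ z v, fs.get k (z, v) = F₀ (π z, v) := by
    intro z v
    by_cases h : v ∈ K
    · have h1 : F₀ (π z, v) = φ k ((1 : Γ)⁻¹ • z) ⟨v, h⟩ := dif_pos h
      rw [h1, inv_one, one_smul, hφ]
    · have h1 : F₀ (π z, v) = 0 := dif_neg h
      rw [h1, hK0 k z v h]
  have hcomp : F₀ ∘ Prod.map π (id : V → V) = fs.get k := by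
    funext x
    exact (hF₀ x.1 x.2).symm
  have hquot : IsQuotientMap (Prod.map π (id : V → V)) :=
    hπp.isClosedMap.isQuotientMap hπp.continuous hπs'
  have hFc : Continuous F₀ := by
    rw [hquot.continuous_iff, hcomp]
    exact (fs.get k).continuous
  refine ⟨⟨⟨F₀, hFc⟩, ?_⟩, hF₀⟩
  refine Metric.tendsto_nhds.2 fun ε hε => ?_
  have h1 := Metric.tendsto_nhds.1 (zero_at_infty (fs.get k)) ε hε
  rw [Filter.eventually_iff, Filter.mem_cocompact] at h1 ⊢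
  obtain ⟨t, ht, hts⟩ := h1
  refine ⟨Prod.map π id '' t, ht.image hπp.continuous, ?_⟩
  intro x hx
  obtain ⟨y, rfl⟩ := hπs' x
  have h2 : y ∉ t := fun hy => hx ⟨y, hy, rfl⟩
  have h3 := hts h2
  change dist (F₀ (π y.1, y.2)) 0 < ε
  rw [← hF₀]
  exact h3

end Quot

section Main

variable {Γ : Type} [Group Γ] [Countable Γ] {V : Type} [TopologicalSpace V] [T2Space V]
  [LocallyCompactSpace V] [MulAction Γ V] [ContinuousConstSMul Γ V]

omit [Countable Γ] [T2Space V] [LocallyCompactSpace V] [ContinuousConstSMul Γ V] in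
/-- Lists of data over a quotient. -/
theorem exists_list_quotient {Z A : Type} [TopologicalSpace Z] [T2Space Z] [CompactSpace Z]
    [MulAction Γ Z] [ContinuousConstSMul Γ Z] [TopologicalSpace A] [T2Space A] [MulAction Γ A]
    {π : Z → A} (hπ : Continuous π) (hπe : ∀ (g : Γ) z, π (g • z) = g • π z)
    (l : List (Dat Γ (Z × V))) (hl : ∀ d ∈ l, ∃ F : C₀(A × V, ℂ), ∀ z v, d.f (z, v) = F (π z, v)) :
    ∃ L : List (Dat Γ (A × V)), val l = pull (Prod.map π (id : V → V)) (val L) := by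
  have hπp : IsProperMap (Prod.map π (id : V → V)) := hπ.isProperMap.prodMap isProperMap_id
  have hee : ∀ (g : Γ) (z : Z × V), Prod.map π (id : V → V) (g • z) =
      g • Prod.map π (id : V → V) z := fun g z => Prod.ext (hπe g z.1) rfl
  induction l with
  | nil => exact ⟨[], by rw [val_nil, val_nil, map_zero]⟩
  | cons d m ih =>
    obtain ⟨M, hM⟩ := ih fun d' hd' => hl d' (List.mem_cons_of_mem _ hd')
    obtain ⟨F, hF⟩ := hl d List.mem_cons_self
    refine ⟨⟨F, d.g, d.i, d.j⟩ :: M, ?_⟩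
    rw [val_cons, val_cons, map_add, hM]
    congr 1
    have h2 : pull (Prod.map π (id : V → V)) (Dat.gen ⟨F, d.g, d.i, d.j⟩ : Fam Γ (A × V)) =
        gen (pullC _ hπp F) d.g d.i d.j := pull_gen hπp hee _ _ _ _
    rw [h2]
    have h3 : d.f = pullC _ hπp F := by
      ext x
      exact hF x.1 x.2
    rw [← h3]
    rfl

omit [LocallyCompactSpace V] in
/-- From a compact space to its metrizable quotients. -/
theorem GL1_le_E1_of_metrizable {Z : Type} [TopologicalSpace Z] [T2Space Z] [CompactSpace Z]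
    [MulAction Γ Z] [ContinuousConstSMul Γ Z]
    (h : ∀ (A : Type) [TopologicalSpace A] [MulAction Γ A] [CompactSpace A]
      [TopologicalSpace.MetrizableSpace A] [ContinuousConstSMul Γ A],
      GL1 (cp Γ (A × V)) ≤ E1 (cp Γ (A × V))) :
    GL1 (cp Γ (Z × V)) ≤ E1 (cp Γ (Z × V)) := by
  intro u hu
  obtain ⟨η, hη, hη'⟩ := exists_near_unit (isClosed_cp (Γ := Γ) (Y := Z × V)) le_rfl hu
  obtain ⟨b', hb'⟩ : ∃ b' : Fam Γ (Z × V), b' = (u : Fam Γ (Z × V)) - 1 := ⟨_, rfl⟩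
  obtain ⟨c', hc'⟩ : ∃ c' : Fam Γ (Z × V), c' = ((u⁻¹ : (Fam Γ (Z × V))ˣ) : Fam Γ (Z × V)) - 1 :=
    ⟨_, rfl⟩
  have hbc : b' + c' + b' * c' = 0 := by
    have h1 : (u : Fam Γ (Z × V)) * ((u⁻¹ : (Fam Γ (Z × V))ˣ) : Fam Γ (Z × V)) = 1 := u.mul_inv
    have h2 : b' + c' + b' * c' =
        (u : Fam Γ (Z × V)) * ((u⁻¹ : (Fam Γ (Z × V))ˣ) : Fam Γ (Z × V)) - 1 := by
      rw [hb', hc']
      noncomm_ring
    rw [h2, h1, sub_self]
  have hcb : c' + b' + c' * b' = 0 := by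
    have h1 : ((u⁻¹ : (Fam Γ (Z × V))ˣ) : Fam Γ (Z × V)) * (u : Fam Γ (Z × V)) = 1 := u.inv_mul
    have h2 : c' + b' + c' * b' =
        ((u⁻¹ : (Fam Γ (Z × V))ˣ) : Fam Γ (Z × V)) * (u : Fam Γ (Z × V)) - 1 := by
      rw [hb', hc']
      noncomm_ring
    rw [h2, h1, sub_self]
  obtain ⟨δ, hδ0, hδη, hδ1, hδM⟩ : ∃ δ : ℝ, 0 < δ ∧ δ < η ∧ δ ≤ 1 ∧
      δ * (3 + ‖b'‖ + ‖c'‖) < 1 := by
    have hM : (0 : ℝ) < 3 + ‖b'‖ + ‖c'‖ := by positivity
    refine ⟨min (η / 2) (min 1 (1 / (2 * (3 + ‖b'‖ + ‖c'‖)))), ?_, ?_, ?_, ?_⟩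
    · exact lt_min (half_pos hη) (lt_min one_pos (by positivity))
    · exact (min_le_left _ _).trans_lt (half_lt_self hη)
    · exact (min_le_right _ _).trans (min_le_left _ _)
    · have h1 : min (η / 2) (min 1 (1 / (2 * (3 + ‖b'‖ + ‖c'‖)))) ≤
          1 / (2 * (3 + ‖b'‖ + ‖c'‖)) := (min_le_right _ _).trans (min_le_right _ _)
      calc min (η / 2) (min 1 (1 / (2 * (3 + ‖b'‖ + ‖c'‖)))) * (3 + ‖b'‖ + ‖c'‖)
          ≤ 1 / (2 * (3 + ‖b'‖ + ‖c'‖)) * (3 + ‖b'‖ + ‖c'‖) :=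
            mul_le_mul_of_nonneg_right h1 hM.le
        _ = 1 / 2 := by field_simp
        _ < 1 := by norm_num
  have hb'm : b' ∈ cp Γ (Z × V) := hb' ▸ hu.1
  have hc'm : c' ∈ cp Γ (Z × V) := hc' ▸ hu.2
  obtain ⟨l, hl, hlb⟩ := exists_val_near hb'm hδ0
  obtain ⟨l', hl', hlc⟩ := exists_val_near hc'm hδ0
  obtain ⟨A, _, _, _, _, _, π, hπc, hπs, hπe, hF⟩ :=
    exists_metrizable_quotient (Γ := Γ) ((l ++ l').map Dat.f) (by
      intro f hf
      obtain ⟨d, hd, rfl⟩ := List.mem_map.1 hf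
      rcases List.mem_append.1 hd with h | h
      · exact hl d h
      · exact hl' d h)
  obtain ⟨L, hL⟩ := exists_list_quotient hπc hπe l fun d hd =>
    hF _ (List.mem_map_of_mem (List.mem_append_left _ hd))
  obtain ⟨L', hL'⟩ := exists_list_quotient hπc hπe l' fun d hd =>
    hF _ (List.mem_map_of_mem (List.mem_append_right _ hd))
  have hπp : IsProperMap (Prod.map π (id : V → V)) := hπc.isProperMap.prodMap isProperMap_id
  have hπs' : Function.Surjective (Prod.map π (id : V → V)) := hπs.prodMap Function.surjective_id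
  have hnorm : ∀ a : Fam Γ (A × V), ‖pull (Prod.map π (id : V → V)) a‖ = ‖a‖ := by
    intro a
    refine le_antisymm (pull_norm_le _ a) ((Fam.norm_le_iff (norm_nonneg _)).2 fun y => ?_)
    obtain ⟨z, rfl⟩ := hπs' y
    exact (pull (Prod.map π (id : V → V)) a).norm_apply_le z
  have hbound : ∀ {b b' c c' : Fam Γ (Z × V)} (_ : b' + c' + b' * c' = 0) (_ : ‖b' - b‖ ≤ δ)
      (_ : ‖c' - c‖ ≤ δ) (_ : δ * (3 + ‖b'‖ + ‖c'‖) < 1), ‖b + c + b * c‖ < 1 := by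
    intro b b' c c' h0 hb hc hδ'
    have hδ0 : 0 ≤ δ := (norm_nonneg _).trans hb
    have h1 : b + c + b * c = -(b' - b) - (c' - c) - (b' - b) * c' - b' * (c' - c) +
        (b' - b) * (c' - c) := by
      have h2 : b + c + b * c = (b + c + b * c) - (b' + c' + b' * c') := by rw [h0, sub_zero]
      rw [h2]
      noncomm_ring
    rw [h1]
    have e1 : ‖(b' - b) * c'‖ ≤ δ * ‖c'‖ :=
      (norm_mul_le _ _).trans (mul_le_mul_of_nonneg_right hb (norm_nonneg _))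
    have e2 : ‖b' * (c' - c)‖ ≤ ‖b'‖ * δ :=
      (norm_mul_le _ _).trans (mul_le_mul_of_nonneg_left hc (norm_nonneg _))
    have e3 : ‖(b' - b) * (c' - c)‖ ≤ δ * 1 :=
      (norm_mul_le _ _).trans (mul_le_mul hb (hc.trans hδ1) (norm_nonneg _) hδ0)
    have e4 : ‖-(b' - b)‖ ≤ δ := by rwa [norm_neg]
    have f1 := norm_add_le (-(b' - b) - (c' - c) - (b' - b) * c' - b' * (c' - c))
      ((b' - b) * (c' - c))
    have f2 := norm_sub_le (-(b' - b) - (c' - c) - (b' - b) * c') (b' * (c' - c))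
    have f3 := norm_sub_le (-(b' - b) - (c' - c)) ((b' - b) * c')
    have f4 := norm_sub_le (-(b' - b)) (c' - c)
    have f5 : δ * (3 + ‖b'‖ + ‖c'‖) = δ + δ + δ * ‖c'‖ + ‖b'‖ * δ + δ * 1 := by ring
    linarith
  have h1 : ‖val L + val L' + val L * val L'‖ < 1 := by
    rw [← hnorm, map_add, map_add, map_mul, ← hL, ← hL']
    exact hbound hbc hlb.le hlc.le hδM
  have h2 : ‖val L' + val L + val L' * val L‖ < 1 := by
    rw [← hnorm, map_add, map_add, map_mul, ← hL, ← hL']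
    exact hbound hcb hlc.le hlb.le (by linarith [hδM])
  obtain ⟨v, hv, hv'⟩ := exists_unit_of_almost_inverse isClosed_cp (val_mem L) (val_mem L') h1 h2
  have hvE := E1_map (φ := pull (Prod.map π (id : V → V))) (pull_norm_le _)
    (pull_mem_cp hπp (fun g x => Prod.ext (hπe g x.1) rfl)) (h A hv)
  obtain ⟨v₁, hv₁, hv₁', hv₁E⟩ := hη' (val l) (val_mem l) (val l') (val_mem l')
    (by rw [← hb']; exact hlb.trans hδη) (by rw [← hc']; exact hlc.trans hδη)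
  have h3 : Units.map ((pull (Prod.map π (id : V → V)) : Fam Γ (A × V) →+* Fam Γ (Z × V)) :
      Fam Γ (A × V) →* Fam Γ (Z × V)) v = v₁ := by
    apply Units.ext
    rw [hv₁', hL]
    change pull (Prod.map π (id : V → V)) (v : Fam Γ (A × V)) = _
    rw [hv', map_add, map_one]
  rw [h3] at hvE
  have h4 : u = v₁ * (u⁻¹ * v₁)⁻¹ := by group
  rw [h4]
  exact mul_mem hvE (inv_mem hv₁E)

end Main

end Pool.Agent.Lib.MP_aa9b81_an.Cut
end
end
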