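import Pool.Agent.Lib.MP_aa9b81_an.Mg.G027
import Pool.Agent.Lib.MP_aa9b81_an.Mg.G074
import Pool.Agent.Lib.MP_aa9b81_an.Mg.G004
import Pool.Agent.Lib.MP_aa9b81_an.Mg.G032
import Pool.Agent.Lib.MP_aa9b81_an.Mg.G019

section

/-!
# The machine, part H6: the labelled representation extends the representation of the subsets
-/

open scoped ENNReal Topology ZeroAtInfty
open Function Set

noncomputable section

namespace Pool.Agent.Lib.MP_aa9b81_an.Mc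

open Cut Hs

variable {Γ B I E : Type} [Group Γ] [TopologicalSpace B] [MulAction Γ B] [MulAction Γ I]
  [AddCommGroup E] [Module ℝ E] [TopologicalSpace E] [T2Space E]
  [ContinuousAdd E] [ContinuousSMul ℝ E] [DistribMulAction Γ E] [SMulCommClass Γ ℝ E]
  [ContinuousConstSMul Γ E] {O W : Type} [TopologicalSpace O] [MulAction Γ O]
  [TopologicalSpace W] [MulAction Γ W] {A : Ang Γ B I} (l : Lam A) (Q : ConvexSpace Γ E)
  {q : I → Q.Pt} [DecidableEq I]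

omit [MulAction Γ B] [MulAction Γ I] [Group Γ] [MulAction Γ O] [MulAction Γ W] [DecidableEq I]
  [TopologicalSpace O] [TopologicalSpace B] [TopologicalSpace W] in
private theorem H6c_oinv {o : O → B × Pow I} (ho : Injective o) (b : B) (x : Pow I) (w : W) :
    oinv (fun p : O × W => (((o p.1).1, p.2), (o p.1).2)) ((b, w), x) =
      (oinv o (b, x)).map fun z => (z, w) := by
  have hinj : Injective (fun p : O × W => (((o p.1).1, p.2), (o p.1).2)) := by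
    rintro ⟨z, w⟩ ⟨z', w'⟩ h
    simp only [Prod.mk.injEq] at h
    have h1 : z = z' := ho (Prod.ext h.1.1 h.2)
    rw [h1, h.1.2]
  by_cases hz : (b, x) ∈ range o
  · obtain ⟨z, hz⟩ := hz
    have h1 : ((b, w), x) = (fun p : O × W => (((o p.1).1, p.2), (o p.1).2)) (z, w) := by
      simp only [hz]
    rw [h1, oinv_apply hinj, ← hz, oinv_apply ho]
    rfl
  · rw [oinv_none hz]
    refine oinv_none ?_
    rintro ⟨⟨z, w'⟩, h⟩
    simp only [Prod.mk.injEq] at h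
    exact hz ⟨z, Prod.ext h.1.1 h.2⟩

omit [MulAction Γ I] [MulAction Γ B] [MulAction Γ O] [MulAction Γ W] in
/-- PROOF: `dense_cyl` for the open embedding `(z, w) ↦ (((o z).1, w), (o z).2)`. -/
theorem dense3 [T2Space B] [T2Space W] {o : O → B × Pow I} (ho : Topology.IsOpenEmbedding o)
    (f : C₀(O × W, ℂ)) (ε : ℝ) (hε : 0 < ε) :
    ∃ l : List C₀(O × W, ℂ), (∀ f' ∈ l, f' ∈ {f : C₀(O × W, ℂ) | ∃ M : Finset I,
      ∀ b x x' w, (∀ i ∈ M, x i = x' i) → optf f ((oinv o (b, x)).map fun z => (z, w)) =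
        optf f ((oinv o (b, x')).map fun z => (z, w))}) ∧ ‖f - l.sum‖ ≤ ε := by
  let h : (B × Pow I) × W ≃ₜ (B × W) × Pow I :=
    { toFun := fun x => ((x.1.1, x.2), x.1.2)
      invFun := fun y => ((y.1.1, y.2), y.1.2)
      left_inv := fun _ => rfl
      right_inv := fun _ => rfl
      continuous_toFun := by fun_prop
      continuous_invFun := by fun_prop }
  have hj : Topology.IsOpenEmbedding (fun p : O × W => (((o p.1).1, p.2), (o p.1).2)) :=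
    h.isOpenEmbedding.comp (ho.prodMap Topology.IsOpenEmbedding.id)
  obtain ⟨f', M, h1, h2⟩ := dense_cyl hj f hε
  refine ⟨[f'], ?_, ?_⟩
  · intro g hg
    rw [List.mem_singleton] at hg
    subst hg
    refine ⟨M, fun b x x' w hx => ?_⟩
    have h3 := h1 (b, w) x x' hx
    rw [H6c_oinv ho.injective, H6c_oinv ho.injective] at h3
    exact h3
  · rw [List.sum_singleton]
    exact h2

variable [T2Space B] [T2Space W] [T2Space O] [LocallyCompactSpace O] [LocallyCompactSpace W]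
  [ContinuousConstSMul Γ B] [ContinuousConstSMul Γ O] [ContinuousConstSMul Γ W]

end Pool.Agent.Lib.MP_aa9b81_an.Mc
end
end

section

/-!
# The machine, part H7: the label lemma
-/

open scoped ENNReal Topology ZeroAtInfty
open Function Set

noncomputable section

namespace Pool.Agent.Lib.MP_aa9b81_an.Mc

open Cut Hs

variable {Γ B I E : Type} [Group Γ] [TopologicalSpace B] [MulAction Γ B] [MulAction Γ I]
  [AddCommGroup E] [Module ℝ E] [TopologicalSpace E] [T2Space E]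
  [ContinuousAdd E] [ContinuousSMul ℝ E] [DistribMulAction Γ E] [SMulCommClass Γ ℝ E]
  [ContinuousConstSMul Γ E] {O V : Type} [TopologicalSpace O] [MulAction Γ O]
  [TopologicalSpace V] [MulAction Γ V] {A : Ang Γ B I} (l : Lam A) (Q : ConvexSpace Γ E)
  {q : I → Q.Pt} [DecidableEq I] [T2Space B] [T2Space V] [T2Space O] [LocallyCompactSpace O]
  [LocallyCompactSpace V] [ContinuousConstSMul Γ B] [ContinuousConstSMul Γ O]
  [ContinuousConstSMul Γ V]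

omit [T2Space B] [ContinuousConstSMul Γ O] [ContinuousConstSMul Γ V] [ContinuousConstSMul Γ B]
  [TopologicalSpace B] [MulAction Γ B] [MulAction Γ I] [DecidableEq I] [ContinuousConstSMul Γ E] in
/-- PROOF: `Cut.GL1_le_E1_of_map Q` for `S = O × Q.Pt` and the map `Prod.snd` (`Q.Pt` compact, so locally compact; `T2`), and
the homeomorphism `Homeomorph.prodAssoc` (`Cut.GL1_le_E1_of_homeomorph`). -/
theorem GL1_le_E1_lab : GL1 (cp Γ (O × Q.Pt × (Cone Q × V))) ≤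
    E1 (cp Γ (O × Q.Pt × (Cone Q × V))) := by
  have hc : CompactSpace Q.Pt := isCompact_iff_compactSpace.1 Q.compact
  have ht : T2Space Q.Pt := inferInstanceAs (T2Space Q.carrier)
  have h1 : GL1 (cp Γ ((O × Q.Pt) × Cone Q × V)) ≤ E1 (cp Γ ((O × Q.Pt) × Cone Q × V)) :=
    GL1_le_E1_of_map Q (S := O × Q.Pt) (V := V) (fun s => s.2) continuous_snd (fun _ _ => rfl)
  exact GL1_le_E1_of_homeomorph (Homeomorph.prodAssoc O Q.Pt (Cone Q × V)) (fun _ _ => rfl) h1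

end Pool.Agent.Lib.MP_aa9b81_an.Mc
end
end

section

/-!
# Rotated sites, part P6e: functions of the charges and other operators
-/

open scoped ENNReal Topology ZeroAtInfty
open Function Filter Set

noncomputable section

namespace Pool.Agent.Lib.MP_aa9b81_an.Rc

open Cut Hs

variable {Γ C I : Type} [Group Γ] [MulAction Γ C] [MulAction Γ I] [DecidableEq C]

variable {𝔉 : Fibr Γ C I} (β : Bas 𝔉)

/-- Bounded functions of the finite set `G ∩ K`. -/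
private theorem P6e_bdd [DecidableEq I] (K : Finset I) (f : Finset I → ℂ) :
    ∃ M : ℝ, 0 ≤ M ∧ ∀ G, ‖f (G ∩ K)‖ ≤ M := by
  refine ⟨∑ H ∈ K.powerset, ‖f H‖, Finset.sum_nonneg fun _ _ => norm_nonneg _, fun G => ?_⟩
  exact Finset.single_le_sum (f := fun H => ‖f H‖) (fun _ _ => norm_nonneg _)
    (Finset.mem_powerset.2 (Finset.inter_subset_right : G ∩ K ⊆ K))

private theorem P6e_ind (i : I) [∀ G : Finset I, Decidable (i ∈ G)] :
    (β.G fun G => if i ∈ G then 1 else 0) = 𝔉.Qi i := by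
  rw [← β.G_ind i]
  congr 1
  funext G
  split_ifs <;> rfl

private theorem P6e_comm_fin [DecidableEq I] {X : BL (Bs C)} (K : Finset I)
    (hQ : ∀ i ∈ K, Commute X (𝔉.Qi i)) (f : Finset I → ℂ) :
    Commute X (β.G fun G => f (G ∩ K)) := by
  have key := fun_induction (p := fun f : Finset I → ℂ =>
    (∃ M : ℝ, 0 ≤ M ∧ ∀ G, ‖f G‖ ≤ M) ∧ Commute X (β.G f)) K ?_ ?_ ?_ ?_ ?_ f
  · exact key.2
  · intro i hi
    refine ⟨⟨1, zero_le_one, fun G => ?_⟩, ?_⟩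
    · dsimp only
      split_ifs <;> simp
    · rw [P6e_ind β i]
      exact hQ i hi
  · refine ⟨⟨1, zero_le_one, fun G => by simp⟩, ?_⟩
    rw [β.G_one]
    exact Commute.one_right X
  · rintro f f' ⟨⟨M, hM, hf⟩, h1⟩ ⟨⟨M', hM', hf'⟩, h2⟩
    refine ⟨⟨M + M', add_nonneg hM hM', fun G => (norm_add_le _ _).trans
      (add_le_add (hf G) (hf' G))⟩, ?_⟩
    rw [← β.G_add hM hf hM' hf']
    exact h1.add_right h2
  · rintro f f' ⟨⟨M, hM, hf⟩, h1⟩ ⟨⟨M', hM', hf'⟩, h2⟩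
    refine ⟨⟨M * M', mul_nonneg hM hM', fun G => ?_⟩, ?_⟩
    · rw [norm_mul]
      exact mul_le_mul (hf G) (hf' G) (norm_nonneg _) hM
    · rw [← β.G_mul_G hM hf hM' hf']
      exact h1.mul_right h2
  · rintro z f ⟨⟨M, hM, hf⟩, h1⟩
    refine ⟨⟨‖z‖ * M, mul_nonneg (norm_nonneg _) hM, fun G => ?_⟩, ?_⟩
    · rw [norm_mul]
      exact mul_le_mul_of_nonneg_left (hf G) (norm_nonneg _)
    · rw [← β.G_smul z hM hf]
      exact h1.smul_right z

/-- PROOF: at the label `b` let `A` be the finite set of the `b'` with `ker X b b' ≠ 0`, together with `b`, and `K` the union of the sites of the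
labels in `A` (intersected with `J`: `f` depends only on the fibres in `J`), `f' G = f (G ∩ K)`. `X` commutes with `β.G f'`:
`fun_induction` for the predicate `f bounded ∧ Commute X (β.G f)` (`G_ind`, `G_one`, `G_add`, `G_mul_G`, `G_smul`). `(G f (X ξ)) b = (G f' (X ξ)) b` (`G_row`), and
`(X (G f ξ)) b = ∑_{b' ∈ A} ker X b b' (G f ξ) b' = ∑ ker X b b' (G f' ξ) b' = (X (G f' ξ)) b` (`apply_eq_sum_ker`, `G_row`). -/
theorem Bas.G_comm [DecidableEq I] {X : BL (Bs C)}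
    (hX : ∀ b, ∃ A : Finset (Bs C), ∀ b' ∉ A, ker X b b' = 0) (J : Set I)
    (hQ : ∀ i ∈ J, Commute X (𝔉.Qi i)) {f : Finset I → ℂ} {M : ℝ} (hM : 0 ≤ M)
    (hf : ∀ G, ‖f G‖ ≤ M) (hJ : ∀ G G', (∀ i ∈ J, (i ∈ G ↔ i ∈ G')) → f G = f G') :
    Commute X (β.G f) := by
  refine ContinuousLinearMap.ext fun ξ => ?_
  ext b
  obtain ⟨A, hA⟩ := hX b
  classical
  obtain ⟨K, hKJ, hK⟩ : ∃ K : Finset I, (∀ i ∈ K, i ∈ J) ∧
      ∀ b' : Bs C, b' = b ∨ b' ∈ A → ∀ i ∈ J, i ∈ 𝔉.sites b'.F → i ∈ K := by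
    refine ⟨((insert b A).biUnion fun b' => 𝔉.sites b'.F).filter fun i => i ∈ J,
      fun i hi => (Finset.mem_filter.1 hi).2, fun b' hb' i hi hi' => ?_⟩
    exact Finset.mem_filter.2 ⟨Finset.mem_biUnion.2 ⟨b', Finset.mem_insert.2 hb', hi'⟩, hi⟩
  have hrow : ∀ b' : Bs C, b' = b ∨ b' ∈ A → ∀ η : L2 (Bs C),
      (β.G f η : Bs C → ℂ) b' = (β.G (fun G => f (G ∩ K)) η : Bs C → ℂ) b' := by
    intro b' hb' η
    refine β.G_row hM hf (fun G => hf _) (fun G hG => ?_) η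
    refine hJ _ _ fun i hi => ?_
    rw [Finset.mem_inter]
    exact ⟨fun h => ⟨h, hK b' hb' i hi (hG h)⟩, fun h => h.1⟩
  have hc := P6e_comm_fin β K (fun i hi => hQ i (hKJ i hi)) f
  have hc' : X (β.G (fun G => f (G ∩ K)) ξ) = β.G (fun G => f (G ∩ K)) (X ξ) :=
    DFunLike.congr_fun hc.eq ξ
  change (X (β.G f ξ) : Bs C → ℂ) b = (β.G f (X ξ) : Bs C → ℂ) b
  rw [hrow b (Or.inl rfl), ← hc', apply_eq_sum_ker X b hA, apply_eq_sum_ker X b hA]
  exact Finset.sum_congr rfl fun b' hb' => by rw [hrow b' (Or.inr hb')]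

private theorem P6e_W_fin [DecidableEq I] (e : C ↪ ℕ) (g : Γ) (K : Finset I)
    (f : Finset I → ℂ) : (sact e : SAct Γ (Bs C)).W g * (β.G fun G => f (G ∩ K)) =
      β.G (fun G => f (gF g⁻¹ G ∩ K)) * (sact e : SAct Γ (Bs C)).W g := by
  have key := fun_induction (p := fun f : Finset I → ℂ =>
    (∃ M : ℝ, 0 ≤ M ∧ ∀ G, ‖f G‖ ≤ M) ∧ (sact e : SAct Γ (Bs C)).W g * β.G f =
      β.G (fun G => f (gF g⁻¹ G)) * (sact e : SAct Γ (Bs C)).W g) K ?_ ?_ ?_ ?_ ?_ f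
  · exact key.2
  · intro i hi
    refine ⟨⟨1, zero_le_one, fun G => ?_⟩, ?_⟩
    · dsimp only
      split_ifs <;> simp
    · rw [P6e_ind β i, 𝔉.W_mul_Qi, ← P6e_ind β (g • i)]
      congr 2
      funext G
      have h : i ∈ gF g⁻¹ G ↔ g • i ∈ G := by rw [mem_gF, inv_inv]
      change (if g • i ∈ G then (1 : ℂ) else 0) = if i ∈ gF g⁻¹ G then 1 else 0
      by_cases h' : g • i ∈ G
      · rw [if_pos h', if_pos (h.2 h')]
      · rw [if_neg h', if_neg fun h'' => h' (h.1 h'')]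
  · refine ⟨⟨1, zero_le_one, fun G => by simp⟩, ?_⟩
    rw [β.G_one, mul_one, one_mul]
  · rintro f f' ⟨⟨M, hM, hf⟩, h1⟩ ⟨⟨M', hM', hf'⟩, h2⟩
    refine ⟨⟨M + M', add_nonneg hM hM', fun G => (norm_add_le _ _).trans
      (add_le_add (hf G) (hf' G))⟩, ?_⟩
    rw [← β.G_add hM hf hM' hf', ← β.G_add hM (fun G => hf _) hM' (fun G => hf' _), mul_add,
      h1, h2, add_mul]
  · rintro f f' ⟨⟨M, hM, hf⟩, h1⟩ ⟨⟨M', hM', hf'⟩, h2⟩
    refine ⟨⟨M * M', mul_nonneg hM hM', fun G => ?_⟩, ?_⟩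
    · rw [norm_mul]
      exact mul_le_mul (hf G) (hf' G) (norm_nonneg _) hM
    · rw [← β.G_mul_G hM hf hM' hf', ← β.G_mul_G hM (fun G => hf _) hM' (fun G => hf' _),
        ← mul_assoc, h1, mul_assoc, h2, mul_assoc]
  · rintro z f ⟨⟨M, hM, hf⟩, h1⟩
    refine ⟨⟨‖z‖ * M, mul_nonneg (norm_nonneg _) hM, fun G => ?_⟩, ?_⟩
    · rw [norm_mul]
      exact mul_le_mul_of_nonneg_left (hf G) (norm_nonneg _)
    · rw [← β.G_smul z hM hf, ← β.G_smul z hM (fun G => hf _), mul_smul_comm, h1, smul_mul_assoc]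

/-- PROOF: for finite `K` and `f' G = f (G ∩ K)` the equality holds by `fun_induction` for the predicate
`f bounded ∧ W g * β.G f = β.G (f^g) * W g` (`G_ind`, `W_mul_Qi`, `G_one`, `G_add`, `G_mul_G`, `G_smul`). In general at the label `b`: `(W g (G f ξ)) b = ε (G f ξ) (g⁻¹ b)`, and `G_row` at `g⁻¹ b` with `K = sites (g⁻¹ b).F`, at `b` with `gF g K`. -/
theorem Bas.W_mul_G (e : C ↪ ℕ) (g : Γ) {f : Finset I → ℂ} {M : ℝ} (hM : 0 ≤ M)
    (hf : ∀ G, ‖f G‖ ≤ M) : (sact e : SAct Γ (Bs C)).W g * β.G f =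
      β.G (fun G => f (gF g⁻¹ G)) * (sact e : SAct Γ (Bs C)).W g := by
  classical
  refine ContinuousLinearMap.ext fun ξ => ?_
  ext b
  have h1 := P6e_W_fin β e g (𝔉.sites (g⁻¹ • b).F) f
  have h2 := congrArg (fun η : L2 (Bs C) => (η : Bs C → ℂ) b) (DFunLike.congr_fun h1 ξ)
  change ((sact e : SAct Γ (Bs C)).W g (β.G f ξ) : Bs C → ℂ) b =
    (β.G (fun G => f (gF g⁻¹ G)) ((sact e : SAct Γ (Bs C)).W g ξ) : Bs C → ℂ) b
  change ((sact e : SAct Γ (Bs C)).W g (β.G (fun G => f (G ∩ 𝔉.sites (g⁻¹ • b).F)) ξ) : Bs C → ℂ) b =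
    (β.G (fun G => f (gF g⁻¹ G ∩ 𝔉.sites (g⁻¹ • b).F)) ((sact e : SAct Γ (Bs C)).W g ξ) :
      Bs C → ℂ) b at h2
  have h3 : (β.G f ξ : Bs C → ℂ) (g⁻¹ • b) =
      (β.G (fun G => f (G ∩ 𝔉.sites (g⁻¹ • b).F)) ξ : Bs C → ℂ) (g⁻¹ • b) := by
    refine β.G_row hM hf (fun G => hf _) (fun G hG => ?_) ξ
    rw [Finset.inter_eq_left.2 hG]
  rw [SAct.W_apply, h3, ← SAct.W_apply, h2]
  refine β.G_row hM (fun G => hf _) (fun G => hf _) (fun G hG => ?_) _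
  rw [Finset.inter_eq_left.2]
  intro i hi
  rw [mem_gF, inv_inv] at hi
  obtain ⟨c, hc⟩ := 𝔉.mem_sites.1 (hG hi)
  rw [Finset.mem_inter, 𝔉.mem_fib] at hc
  refine 𝔉.mem_sites.2 ⟨g⁻¹ • c, Finset.mem_inter.2 ⟨?_, ?_⟩⟩
  · rw [Bs.smul_F, mem_gF, inv_inv, smul_inv_smul]
    exact hc.1
  · rw [𝔉.mem_fib, 𝔉.smul, hc.2, inv_smul_smul]

/-- PROOF: `G_comm` with `J = univ`, `Qi_comm_Pp`; the rows of `Pp` are finite. -/
theorem Bas.G_comm_Pp {f : Finset I → ℂ} {M : ℝ} (hM : 0 ≤ M) (hf : ∀ G, ‖f G‖ ≤ M) :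
    Commute (Pp : BL (Bs C)) (β.G f) := by
  classical
  refine β.G_comm (fun b => ⟨{b}, fun b' hb' => ?_⟩) Set.univ
    (fun i _ => (𝔉.Qi_comm_Pp i).symm) hM hf fun G G' h => ?_
  · have h0 : (bv b' : Bs C → ℂ) b = 0 := by
      have hne : b ≠ b' := fun h => hb' (by rw [h]; exact Finset.mem_singleton_self _)
      rw [bv, lp.single_apply, Pi.single_eq_of_ne hne]
    rw [Hs.ker, Pp_apply, h0]
    split_ifs <;> simp
  · congr 1
    ext i
    exact h i (Set.mem_univ _)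

/-- PROOF: `G_comm` with `J = univ`, `Cyl.Xo_comm_Qi`, `Cyl.ker_Xo`, `finite_agree`. -/
theorem Bas.G_comm_Xo {E : Finset I} {φ : Finset C → ℂ} (h : 𝔉.Cyl E φ) {f : Finset I → ℂ}
    {M : ℝ} (hM : 0 ≤ M) (hf : ∀ G, ‖f G‖ ≤ M) :
    Commute (𝔉.Xo E (𝔉.Vth β.ne (Real.pi / 2)) φ) (β.G f) := by
  classical
  refine Commute.symm ?_
  refine Commute.symm (β.G_comm (fun b => ⟨(Fibr.finite_agree 𝔉 E b).toFinset, fun b' hb' => ?_⟩) Set.univ
    (fun i _ => h.Xo_comm_Qi β.ne i) hM hf fun G G' h => ?_)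
  · by_contra hk
    exact hb' ((Set.Finite.mem_toFinset _).2 (h.ker_Xo _ hk))
  · congr 1
    ext i
    exact h i (Set.mem_univ _)

/-- PROOF: `G_apply_congr` applied to `bv b'` and `0`. -/
theorem Bas.ker_G {f : Finset I → ℂ} {M : ℝ} (hM : 0 ≤ M) (hf : ∀ G, ‖f G‖ ≤ M) {b b' : Bs C}
    (hk : ker (β.G f) b b' ≠ 0) : 𝔉.Cc b b' := by
  classical
  by_contra hc
  refine hk ?_
  have h0 : ∀ b'', 𝔉.Cc b b'' → (bv b' : Bs C → ℂ) b'' = ((0 : L2 (Bs C)) : Bs C → ℂ) b'' := by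
    intro b'' h''
    have hne : b'' ≠ b' := fun h => hc (h ▸ h'')
    rw [bv, lp.single_apply, Pi.single_eq_of_ne hne]
    rfl
  rw [Hs.ker, β.G_apply_congr f hM hf h0, map_zero]
  rfl

end Pool.Agent.Lib.MP_aa9b81_an.Rc
end
end

section

/-!
# Rotated sites, part P7b: the commutator with a function of the charges
-/

open scoped ENNReal Topology ZeroAtInfty
open Function Filter Set

noncomputable section

namespace Pool.Agent.Lib.MP_aa9b81_an.Rc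

open Cut Hs

variable {Γ C I : Type} [Group Γ] [MulAction Γ C] [MulAction Γ I] [DecidableEq C]
  [DecidableEq I]

/-- The difference `f(G ∪ i) - f(G ∖ i)`. -/
def df (f : Finset I → ℂ) (i : I) (G : Finset I) : ℂ := f (insert i G) - f (G.erase i)

variable {𝔉 : Fibr Γ C I} (β : Bas 𝔉)

/-- PROOF: `f G = [i ∈ G] (df f i G) + f (G ∖ i)`, so `G f = Qi i * G (df f i) + G f'` (`G_ind`, `G_mul_G`, `G_add`), where `df f i` and
`f' G = f (G ∖ i)` do not depend on `i`: they commute with `kap i` (`G_comm` with `J = {i}ᶜ`, `kap_comm_Qi`, the rows of `kap` are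
finite: `ker_Cl`). -/
theorem kap_comm_G (e : C ↪ ℕ) (i : I) {f : Finset I → ℂ} {M : ℝ} (hM : 0 ≤ M)
    (hf : ∀ G, ‖f G‖ ≤ M) : kap 𝔉 e i * β.G f - β.G f * kap 𝔉 e i =
      (kap 𝔉 e i * 𝔉.Qi i - 𝔉.Qi i * kap 𝔉 e i) * β.G (df f i) := by
  classical
  have hdf : ∀ G, ‖df f i G‖ ≤ M + M := fun G => (norm_sub_le _ _).trans (add_le_add (hf _) (hf _))
  have hf' : ∀ G : Finset I, ‖f (G.erase i)‖ ≤ M := fun G => hf _
  have hind : ∀ G : Finset I, ‖(if i ∈ G then (1 : ℂ) else 0)‖ ≤ 1 := by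
    intro G
    split_ifs <;> simp
  have hMM : 0 ≤ M + M := by linarith
  have hrows : ∀ b, ∃ A : Finset (Bs C), ∀ b' ∉ A, ker (kap 𝔉 e i) b b' = 0 := by
    intro b
    refine ⟨b.F.image fun c => tog c b, fun b' hb' => ?_⟩
    unfold kap
    rw [ker_Cl e (CB_kap 𝔉 i)]
    apply Finset.sum_eq_zero
    intro c hc
    have hne : ¬ b' = tog c b := by
      rintro rfl
      exact hb' (Finset.mem_image_of_mem _ hc)
    rw [if_neg hne, mul_zero, mul_zero]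
  have hQ : ∀ j ∈ ({i}ᶜ : Set I), Commute (kap 𝔉 e i) (𝔉.Qi j) := fun j hj =>
    kap_comm_Qi 𝔉 e (Ne.symm hj)
  have hag : ∀ G G' : Finset I, (∀ j ∈ ({i}ᶜ : Set I), (j ∈ G ↔ j ∈ G')) →
      insert i G = insert i G' ∧ G.erase i = G'.erase i := by
    intro G G' h
    constructor
    · ext j
      rw [Finset.mem_insert, Finset.mem_insert]
      by_cases hj : j = i
      · simp [hj]
      · simp [hj, h j hj]
    · ext j
      rw [Finset.mem_erase, Finset.mem_erase]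
      by_cases hj : j = i
      · simp [hj]
      · simp [hj, h j hj]
  have c1 : Commute (kap 𝔉 e i) (β.G (df f i)) := by
    refine β.G_comm hrows {i}ᶜ hQ hMM hdf fun G G' h => ?_
    unfold df
    rw [(hag G G' h).1, (hag G G' h).2]
  have c2 : Commute (kap 𝔉 e i) (β.G fun G => f (G.erase i)) := by
    refine β.G_comm hrows {i}ᶜ hQ hM hf' fun G G' h => ?_
    rw [(hag G G' h).2]
  have hprod : ∀ G : Finset I, ‖(if i ∈ G then (1 : ℂ) else 0) * df f i G‖ ≤ M + M := by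
    intro G
    rw [norm_mul]
    calc _ ≤ 1 * (M + M) := mul_le_mul (hind G) (hdf G) (norm_nonneg _) zero_le_one
      _ = _ := one_mul _
  have hG1 : (β.G fun G => if i ∈ G then (1 : ℂ) else 0) = 𝔉.Qi i := by
    refine (congrArg β.G (funext fun G => ?_)).trans (β.G_ind i)
    by_cases h : i ∈ G
    · rw [if_pos h, if_pos h]
    · rw [if_neg h, if_neg h]
  have key : β.G f = 𝔉.Qi i * β.G (df f i) + β.G fun G => f (G.erase i) := by
    rw [← hG1, β.G_mul_G zero_le_one hind hMM hdf, β.G_add hMM hprod hM hf']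
    congr 1
    funext G
    unfold df
    by_cases hG : i ∈ G
    · rw [if_pos hG, Finset.insert_eq_of_mem hG]
      ring
    · rw [if_neg hG, Finset.erase_eq_of_notMem hG]
      ring
  have e1 : β.G (df f i) * kap 𝔉 e i = kap 𝔉 e i * β.G (df f i) := c1.eq.symm
  have e2 : (β.G fun G => f (G.erase i)) * kap 𝔉 e i =
    kap 𝔉 e i * β.G fun G => f (G.erase i) := c2.eq.symm
  rw [key, mul_add, add_mul, mul_assoc (𝔉.Qi i), e1, e2, sub_mul, mul_assoc, mul_assoc]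
  abel

omit [DecidableEq I] [DecidableEq C] in
theorem P7b_alp_le {a : Finset C → C → ℝ} {A : ℝ} (ha : CB a A) (i : I) (F : Finset C) :
    ‖alp 𝔉 a i F‖ ≤ A := by
  unfold alp
  split_ifs with h
  · rw [Real.norm_eq_abs]
    apply abs_le_of_sq_le_sq _ ha.nonneg
    exact (Finset.single_le_sum (f := fun c => a F c ^ 2) (fun _ _ => sq_nonneg _)
      h.choose_spec.1).trans (ha.bdd F)
  · rw [norm_zero]
    exact ha.nonneg

omit [DecidableEq I] in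
theorem P7b_alp_Cc {a : Finset C → C → ℝ} (hc : Col 𝔉 a) (i : I) {b b' : Bs C}
    (h : 𝔉.Cc b b') : alp 𝔉 a i b'.F = alp 𝔉 a i b.F := by
  have hcard : ∀ j, (b'.F ∩ 𝔉.fib j).card = (b.F ∩ 𝔉.fib j).card := by
    intro j
    rcases h.2 j with h1 | ⟨c, _, c', _, h1, h2⟩
    · rw [h1]
    · rw [h1.2, h2.2]
      rfl
  have hex : ∀ F : Finset C, (∃ c ∈ F, 𝔉.p c = i) ↔ (F ∩ 𝔉.fib i).card ≠ 0 := by
    intro F
    rw [Finset.card_ne_zero]
    constructor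
    · rintro ⟨c, h1, h2⟩
      exact ⟨c, Finset.mem_inter.2 ⟨h1, (𝔉.mem_fib i c).2 h2⟩⟩
    · rintro ⟨c, h1⟩
      exact ⟨c, (Finset.mem_inter.1 h1).1, (𝔉.mem_fib i c).1 (Finset.mem_inter.1 h1).2⟩
  unfold alp
  by_cases h1 : ∃ c ∈ b.F, 𝔉.p c = i
  · have h2 : ∃ c ∈ b'.F, 𝔉.p c = i := by
      rw [hex, hcard i, ← hex]
      exact h1
    rw [dif_pos h1, dif_pos h2]
    exact hc _ _ _ _ hcard h2.choose_spec.1 h1.choose_spec.1
      (h2.choose_spec.2.trans h1.choose_spec.2.symm)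
  · have h2 : ¬ ∃ c ∈ b'.F, 𝔉.p c = i := by
      rw [hex, hcard i, ← hex]
      exact h1
    rw [dif_neg h1, dif_neg h2]

/-- PROOF: coordinates at `b`: `alp i b'.F = alp i b.F` for all `b'` with `Cc b b'` (`Col`; the numbers of elements in the fibres agree, also the
condition in the definition of `alp`), so `(G f (dia k ξ)) b = (G f (k b • ξ)) b = k b * (G f ξ) b` (`G_apply_congr`). -/
theorem alp_comm_G {a : Finset C → C → ℝ} {A : ℝ} (ha : CB a A) (hc : Col 𝔉 a) (i : I)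
    {f : Finset I → ℂ} {M : ℝ} (hM : 0 ≤ M) (hf : ∀ G, ‖f G‖ ≤ M) :
    Commute (dia fun b : Bs C => ((alp 𝔉 a i b.F : ℝ) : ℂ)) (β.G f) := by
  have hbd : ∀ b : Bs C, ‖((alp 𝔉 a i b.F : ℝ) : ℂ)‖ ≤ A := fun b => by
    rw [Complex.norm_real]
    exact P7b_alp_le ha i b.F
  have hA : 0 ≤ A := ha.nonneg
  apply ContinuousLinearMap.ext
  intro ξ
  ext b
  change (dia (fun b : Bs C => ((alp 𝔉 a i b.F : ℝ) : ℂ)) (β.G f ξ) : Bs C → ℂ) b =
    (β.G f (dia (fun b : Bs C => ((alp 𝔉 a i b.F : ℝ) : ℂ)) ξ) : Bs C → ℂ) b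
  rw [dia_apply hA hbd]
  have h1 : (β.G f (dia (fun b : Bs C => ((alp 𝔉 a i b.F : ℝ) : ℂ)) ξ) : Bs C → ℂ) b =
      (β.G f (((alp 𝔉 a i b.F : ℝ) : ℂ) • ξ) : Bs C → ℂ) b := by
    refine β.G_apply_congr f hM hf fun b' hb' => ?_
    rw [dia_apply hA hbd, lp.coeFn_smul, Pi.smul_apply, smul_eq_mul, P7b_alp_Cc hc i hb']
  rw [h1, map_smul, lp.coeFn_smul, Pi.smul_apply, smul_eq_mul]

/-- PROOF: `∑_i alp_i(F)²` over the fibres which meet `F` is at most `∑_{c ∈ F} a F c ^ 2 ≤ A²` (choose one `c` in each fibre). -/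
theorem sum_alp_sq_le {a : Finset C → C → ℝ} {A : ℝ} (ha : CB a A) (K : Finset I)
    (F : Finset C) : ∑ i ∈ K, alp 𝔉 a i F ^ 2 ≤ A ^ 2 := by
  classical
  have h1 : ∀ i ∈ K, alp 𝔉 a i F ^ 2 ≤ ∑ c ∈ F with 𝔉.p c = i, a F c ^ 2 := by
    intro i _
    unfold alp
    split_ifs with h
    · exact Finset.single_le_sum (f := fun c => a F c ^ 2) (fun _ _ => sq_nonneg _)
        (Finset.mem_filter.2 h.choose_spec)
    · rw [zero_pow two_ne_zero]
      exact Finset.sum_nonneg fun _ _ => sq_nonneg _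
  refine (Finset.sum_le_sum h1).trans (le_trans ?_ (ha.bdd F))
  exact Finset.sum_fiberwise_le_sum_of_sum_fiber_nonneg
    fun _ _ => Finset.sum_nonneg fun _ _ => sq_nonneg _

omit [DecidableEq C] [DecidableEq I] in
theorem P7b_sum {B : Type} (K : Finset I) (k : I → B → ℂ) {M N : ℝ} (hM : 0 ≤ M)
    (hk : ∀ i b, ‖k i b‖ ≤ M) (h : ∀ b, ∑ i ∈ K, ‖k i b‖ ^ 2 ≤ N ^ 2) (η : L2 B) :
    ∑ i ∈ K, ‖dia (k i) η‖ ^ 2 ≤ N ^ 2 * ‖η‖ ^ 2 := by
  have e : ∀ i, (fun b => ‖(dia (k i) η : B → ℂ) b‖ ^ 2) =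
      fun b => ‖k i b‖ ^ 2 * ‖(η : B → ℂ) b‖ ^ 2 := by
    intro i
    funext b
    rw [dia_apply hM (hk i), norm_mul, mul_pow]
  have h1 : ∀ i, ‖dia (k i) η‖ ^ 2 = ∑' b, ‖k i b‖ ^ 2 * ‖(η : B → ℂ) b‖ ^ 2 := by
    intro i
    rw [norm_sq_L2, e]
  have h2 : ∀ i, Summable fun b => ‖k i b‖ ^ 2 * ‖(η : B → ℂ) b‖ ^ 2 := by
    intro i
    have := summable_L2 (dia (k i) η)
    rw [e] at this
    exact this
  rw [Finset.sum_congr rfl fun i _ => h1 i, ← Summable.tsum_finsetSum fun i _ => h2 i,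
    norm_sq_L2, ← tsum_mul_left]
  refine Summable.tsum_le_tsum (fun b => ?_) (summable_sum fun i _ => h2 i)
    ((summable_L2 η).mul_left _)
  rw [← Finset.sum_mul]
  exact mul_le_mul_of_nonneg_right (h b) (sq_nonneg _)

/-- PROOF: coordinates: `dia_apply`, `norm_sq_L2`: `∑_i ∑_b alp_i(b.F)² ‖ξ b‖² ≤ A² ‖ξ‖²` (`sum_alp_sq_le`; exchange of the finite sum
with the series). -/
theorem sum_norm_alp_le {a : Finset C → C → ℝ} {A : ℝ} (ha : CB a A) (K : Finset I)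
    (ξ : L2 (Bs C)) :
    ∑ i ∈ K, ‖dia (fun b : Bs C => ((alp 𝔉 a i b.F : ℝ) : ℂ)) ξ‖ ^ 2 ≤ A ^ 2 * ‖ξ‖ ^ 2 := by
  have hbd : ∀ i, ∀ b : Bs C, ‖((alp 𝔉 a i b.F : ℝ) : ℂ)‖ ≤ A := fun i b => by
    rw [Complex.norm_real]
    exact P7b_alp_le ha i b.F
  refine P7b_sum K (fun i (b : Bs C) => ((alp 𝔉 a i b.F : ℝ) : ℂ)) ha.nonneg hbd (fun b => ?_) ξ
  refine le_trans (le_of_eq ?_) (sum_alp_sq_le (𝔉 := 𝔉) ha K b.F)
  refine Finset.sum_congr rfl fun i _ => ?_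
  rw [Complex.norm_real, Real.norm_eq_abs, sq_abs]

/-- PROOF: `β.G h ξ = O (dia (h ∘ ch)) (O ξ)` and `‖O ζ‖ ≤ ‖ζ‖`: the left side is at most
`∑_b (∑_{i ∈ K ∩ ch b} ‖df f i (ch b)‖²) ‖(O ξ) b‖² ≤ N² ‖O ξ‖²`: for `i ∈ G` one has `df f i G = f (insert i G') - f G'` with
`G' = G.erase i`, `i ∉ G'`, so `|G| ‖df f i G‖² ≤ N²` by `hN`. -/
theorem sum_norm_df_le {f : Finset I → ℂ} {M N : ℝ} (hM : 0 ≤ M) (hf : ∀ G, ‖f G‖ ≤ M)
    (hN : ∀ (G : Finset I) (i : I), i ∉ G → (G.card + 1 : ℝ) * ‖f (insert i G) - f G‖ ^ 2 ≤ N ^ 2)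
    (K : Finset I) (ξ : L2 (Bs C)) :
    ∑ i ∈ K, ‖β.G (fun G => if i ∈ G then df f i G else 0) ξ‖ ^ 2 ≤ N ^ 2 * ‖ξ‖ ^ 2 := by
  have hdf : ∀ i, ∀ G, ‖df f i G‖ ≤ M + M := fun i G =>
    (norm_sub_le _ _).trans (add_le_add (hf _) (hf _))
  have hMM : 0 ≤ M + M := by linarith
  have hbd : ∀ i, ∀ b : Bs C, ‖(if i ∈ β.ch b then df f i (β.ch b) else 0)‖ ≤ M + M := by
    intro i b
    split_ifs
    · exact hdf i _
    · rw [norm_zero]
      exact hMM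
  have hO : ∀ ζ : L2 (Bs C), ‖β.O ζ‖ ≤ ‖ζ‖ := fun ζ => by
    refine (β.O.le_opNorm ζ).trans ?_
    have := β.fixV.norm_OO_le
    calc ‖β.O‖ * ‖ζ‖ ≤ 1 * ‖ζ‖ := mul_le_mul_of_nonneg_right this (norm_nonneg _)
      _ = ‖ζ‖ := one_mul _
  have h1 : ∀ i ∈ K, ‖β.G (fun G => if i ∈ G then df f i G else 0) ξ‖ ^ 2 ≤
      ‖dia (fun b : Bs C => if i ∈ β.ch b then df f i (β.ch b) else 0) (β.O ξ)‖ ^ 2 := by
    intro i _
    have e : β.G (fun G => if i ∈ G then df f i G else 0) ξ =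
        β.O (dia (fun b : Bs C => if i ∈ β.ch b then df f i (β.ch b) else 0) (β.O ξ)) := rfl
    rw [e]
    exact pow_le_pow_left₀ (norm_nonneg _) (hO _) 2
  have hN2 : 0 ≤ N ^ 2 := sq_nonneg _
  refine (Finset.sum_le_sum h1).trans (le_trans (P7b_sum (N := N) K
    (fun i (b : Bs C) => if i ∈ β.ch b then df f i (β.ch b) else 0) hMM hbd (fun b => ?_) (β.O ξ))
    (mul_le_mul_of_nonneg_left (pow_le_pow_left₀ (norm_nonneg _) (hO ξ) 2) hN2))
  set G := β.ch b with hG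
  have h2 : ∀ i ∈ K, ‖(if i ∈ G then df f i G else 0)‖ ^ 2 =
      if i ∈ G then ‖df f i G‖ ^ 2 else 0 := by
    intro i _
    split_ifs
    · rfl
    · rw [norm_zero, zero_pow two_ne_zero]
  rw [Finset.sum_congr rfl h2, ← Finset.sum_filter]
  rcases Finset.eq_empty_or_nonempty G with h0 | h0
  · rw [Finset.filter_false_of_mem, Finset.sum_empty]
    · exact hN2
    · intro i _
      rw [h0]
      exact Finset.notMem_empty i
  have hcard : (0 : ℝ) < G.card := by exact_mod_cast h0.card_pos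
  have h3 : ∀ i ∈ K.filter (fun i => i ∈ G), ‖df f i G‖ ^ 2 ≤ N ^ 2 / G.card := by
    intro i hi
    have hiG := (Finset.mem_filter.1 hi).2
    rw [le_div_iff₀ hcard, mul_comm]
    have h4 := hN (G.erase i) i (Finset.notMem_erase i G)
    rw [Finset.insert_erase hiG] at h4
    have h5 : ((G.erase i).card : ℝ) + 1 = G.card := by
      exact_mod_cast Finset.card_erase_add_one hiG
    rw [h5] at h4
    unfold df
    rw [Finset.insert_eq_of_mem hiG]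
    exact h4
  refine (Finset.sum_le_sum h3).trans ?_
  rw [Finset.sum_const, nsmul_eq_mul]
  have h6 : ((K.filter (fun i => i ∈ G)).card : ℝ) ≤ G.card := by
    exact_mod_cast Finset.card_le_card fun i hi => (Finset.mem_filter.1 hi).2
  calc ((K.filter (fun i => i ∈ G)).card : ℝ) * (N ^ 2 / G.card) ≤ G.card * (N ^ 2 / G.card) :=
        mul_le_mul_of_nonneg_right h6 (div_nonneg hN2 hcard.le)
    _ = N ^ 2 := mul_div_cancel₀ _ hcard.ne'

end Pool.Agent.Lib.MP_aa9b81_an.Rc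
end
end

section

/-!
# Rotated sites, part P7c: the commutator with a function of the charges, estimate
-/

open scoped ENNReal Topology ZeroAtInfty
open Function Filter Set

noncomputable section

namespace Pool.Agent.Lib.MP_aa9b81_an.Rc

open Cut Hs

variable {Γ C I : Type} [Group Γ] [MulAction Γ C] [MulAction Γ I] [DecidableEq C]
  [DecidableEq I]

/-- The coefficients, restricted to the fibres in `K`. -/
def cutK (𝔉 : Fibr Γ C I) (K : Finset I) (a : Finset C → C → ℝ) : Finset C → C → ℝ :=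
  fun F c => if 𝔉.p c ∈ K then a F c else 0

theorem CB_cutK (𝔉 : Fibr Γ C I) (K : Finset I) {a : Finset C → C → ℝ} {A : ℝ} (ha : CB a A) :
    CB (cutK 𝔉 K a) A := by
  refine ⟨ha.nonneg, fun F => le_trans (Finset.sum_le_sum fun c _ => ?_) (ha.bdd F)⟩
  unfold cutK
  split_ifs
  · exact le_rfl
  · rw [zero_pow two_ne_zero]
    exact sq_nonneg _

private theorem P7c_alp_eq {𝔉 : Fibr Γ C I} {a : Finset C → C → ℝ} (hc : Col 𝔉 a) {F : Finset C}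
    {c : C} (h : c ∈ F) : alp 𝔉 a (𝔉.p c) F = a F c := by
  have hex : ∃ c' ∈ F, 𝔉.p c' = 𝔉.p c := ⟨c, h, rfl⟩
  unfold alp
  rw [dif_pos hex]
  exact hc F F _ c (fun _ => rfl) hex.choose_spec.1 h hex.choose_spec.2

private theorem P7c_alp_le {𝔉 : Fibr Γ C I} {a : Finset C → C → ℝ} {A : ℝ} (ha : CB a A) (i : I)
    (F : Finset C) : ‖((alp 𝔉 a i F : ℝ) : ℂ)‖ ≤ A := by
  have h1 := sum_alp_sq_le (𝔉 := 𝔉) ha {i} F
  rw [Finset.sum_singleton] at h1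
  rw [Complex.norm_real, Real.norm_eq_abs]
  exact abs_le_of_sq_le_sq h1 ha.nonneg

private theorem P7c_dia_apply {𝔉 : Fibr Γ C I} {a : Finset C → C → ℝ} {A : ℝ} (ha : CB a A)
    (i : I) (ξ : L2 (Bs C)) (b : Bs C) :
    (dia (fun b : Bs C => ((alp 𝔉 a i b.F : ℝ) : ℂ)) ξ : Bs C → ℂ) b =
      ((alp 𝔉 a i b.F : ℝ) : ℂ) * (ξ : Bs C → ℂ) b :=
  dia_apply ha.nonneg (fun b => P7c_alp_le ha i b.F) ξ b

private theorem P7c_inner_dia {𝔉 : Fibr Γ C I} {a : Finset C → C → ℝ} {A : ℝ} (ha : CB a A)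
    (i : I) (ξ η : L2 (Bs C)) :
    inner ℂ (dia (fun b : Bs C => ((alp 𝔉 a i b.F : ℝ) : ℂ)) ξ) η =
      inner ℂ ξ (dia (fun b : Bs C => ((alp 𝔉 a i b.F : ℝ) : ℂ)) η) := by
  rw [lp.inner_eq_tsum, lp.inner_eq_tsum]
  refine tsum_congr fun b => ?_
  rw [P7c_dia_apply ha, P7c_dia_apply ha]
  simp only [RCLike.inner_apply, map_mul, Complex.conj_ofReal]
  ring

private theorem P7c_sum_apply {ι : Type} (K : Finset ι) (T : ι → BL (Bs C)) (ξ : L2 (Bs C))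
    (b : Bs C) : ((∑ i ∈ K, T i) ξ : Bs C → ℂ) b = ∑ i ∈ K, (T i ξ : Bs C → ℂ) b := by
  classical
  induction K using Finset.induction_on with
  | empty => simp
  | insert i K hi ih =>
    rw [Finset.sum_insert hi, Finset.sum_insert hi, ← ih]
    rfl

/-- PROOF: coordinates: `Cl_apply`, `clF`; split the sum over `c ∈ F` according to `p c`; `a F c = alp i F` for `c ∈ F`, `p c = i` (`Col` with
`F = F'`). -/
theorem Cl_cutK {𝔉 : Fibr Γ C I} (e : C ↪ ℕ) (K : Finset I) {a : Finset C → C → ℝ} {A : ℝ}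
    (ha : CB a A) (hc : Col 𝔉 a) : Cl e (cutK 𝔉 K a) =
      ∑ i ∈ K, dia (fun b : Bs C => ((alp 𝔉 a i b.F : ℝ) : ℂ)) * kap 𝔉 e i := by
  refine ContinuousLinearMap.ext fun ξ => ?_
  ext b
  rw [Cl_apply e (CB_cutK 𝔉 K ha), P7c_sum_apply]
  have h1 : ∀ i ∈ K, ((dia (fun b : Bs C => ((alp 𝔉 a i b.F : ℝ) : ℂ)) * kap 𝔉 e i) ξ :
      Bs C → ℂ) b = ∑ c ∈ b.F, (if 𝔉.p c = i then ((a b.F c : ℝ) : ℂ) *
        (th e c b.S * (ξ : Bs C → ℂ) (tog c b)) else 0) := by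
    intro i _
    rw [ContinuousLinearMap.mul_apply, P7c_dia_apply ha, kap, Cl_apply e (CB_kap 𝔉 i), clF,
      Finset.mul_sum]
    refine Finset.sum_congr rfl fun c hcF => ?_
    by_cases hp : 𝔉.p c = i
    · subst hp
      rw [if_pos rfl, if_pos rfl, P7c_alp_eq hc hcF, Complex.ofReal_one, one_mul]
    · rw [if_neg hp, if_neg hp, Complex.ofReal_zero, zero_mul, mul_zero]
  rw [Finset.sum_congr rfl h1, Finset.sum_comm, clF]
  refine Finset.sum_congr rfl fun c _ => ?_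
  rw [Finset.sum_ite_eq]
  unfold cutK
  split_ifs
  · rfl
  · rw [Complex.ofReal_zero, zero_mul]

private theorem P7c_cs {ι : Type} (K : Finset ι) (v : L2 (Bs C)) (u w : ι → L2 (Bs C)) {x y : ℝ}
    (hx : 0 ≤ x) (hy : 0 ≤ y) (h : inner ℂ v v = ∑ i ∈ K, inner ℂ (u i) (w i))
    (hu : ∑ i ∈ K, ‖u i‖ ^ 2 ≤ x ^ 2) (hw : ∑ i ∈ K, ‖w i‖ ^ 2 ≤ (y * ‖v‖) ^ 2) :
    ‖v‖ ≤ x * y := by
  have h1 : ‖v‖ ^ 2 ≤ ∑ i ∈ K, ‖u i‖ * ‖w i‖ := by
    have h2 : ‖(inner ℂ v v : ℂ)‖ ≤ ∑ i ∈ K, ‖u i‖ * ‖w i‖ := by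
      rw [h]
      exact (norm_sum_le _ _).trans (Finset.sum_le_sum fun i _ => norm_inner_le_norm _ _)
    rw [inner_self_eq_norm_sq_to_K] at h2
    rw [norm_pow] at h2
    simpa using h2
  have h3 : (∑ i ∈ K, ‖u i‖ * ‖w i‖) ^ 2 ≤ (x * (y * ‖v‖)) ^ 2 := by
    refine (Finset.sum_mul_sq_le_sq_mul_sq K _ _).trans ?_
    rw [mul_pow]
    exact mul_le_mul hu hw (Finset.sum_nonneg fun _ _ => sq_nonneg _) (sq_nonneg _)
  have h4 : ∑ i ∈ K, ‖u i‖ * ‖w i‖ ≤ x * (y * ‖v‖) :=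
    le_of_sq_le_sq h3 (mul_nonneg hx (mul_nonneg hy (norm_nonneg _)))
  by_contra hcon
  push Not at hcon
  have h5 : 0 < ‖v‖ := lt_of_le_of_lt (mul_nonneg hx hy) hcon
  have h6 : ‖v‖ * ‖v‖ ≤ x * y * ‖v‖ := by
    calc ‖v‖ * ‖v‖ = ‖v‖ ^ 2 := (sq _).symm
      _ ≤ _ := h1
      _ ≤ _ := h4
      _ = _ := by ring
  exact absurd (le_of_mul_le_mul_right h6 h5) (not_le.2 hcon)

variable {𝔉 : Fibr Γ C I} (β : Bas 𝔉)

/-- PROOF: `(1 - Q) κ` is the adjoint of `κ (1 - Q)` (`inner_Cl`, `inner_Qi`), so `‖(1 - Q) κ ζ‖² = ⟪κ (1 - Q) (1 - Q) κ ζ, ζ⟫ ≤ ‖(1 - Q) κ ζ‖ ‖ζ‖`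
(`norm_kap_le`). -/
theorem norm_kap_le' (𝔉 : Fibr Γ C I) (hn : ∀ i, (𝔉.fib i).Nonempty) (e : C ↪ ℕ) (i : I)
    (ξ : L2 (Bs C)) : ‖(1 - 𝔉.Qi i) (kap 𝔉 e i ξ)‖ ≤ ‖ξ‖ := by
  obtain ⟨v, hv⟩ : ∃ v, v = (1 - 𝔉.Qi i) (kap 𝔉 e i ξ) := ⟨_, rfl⟩
  rw [← hv]
  have h1 : inner ℂ v v = inner ℂ ξ (kap 𝔉 e i ((1 - 𝔉.Qi i) v)) := by
    have h2 : ∀ ζ η : L2 (Bs C), inner ℂ ((1 - 𝔉.Qi i) ζ) η = inner ℂ ζ ((1 - 𝔉.Qi i) η) := by
      intro ζ η
      rw [ContinuousLinearMap.sub_apply, ContinuousLinearMap.sub_apply,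
        ContinuousLinearMap.one_apply, ContinuousLinearMap.one_apply, inner_sub_left,
        inner_sub_right, 𝔉.inner_Qi]
    refine (congrArg (fun z => inner ℂ z v) hv).trans ?_
    refine (h2 _ _).trans ?_
    rw [kap, inner_Cl e (CB_kap 𝔉 i)]
  have h3 : ‖v‖ ^ 2 ≤ ‖ξ‖ * ‖v‖ := by
    have h4 : ‖(inner ℂ v v : ℂ)‖ ≤ ‖ξ‖ * ‖v‖ := by
      rw [h1]
      exact (norm_inner_le_norm _ _).trans
        (mul_le_mul_of_nonneg_left (norm_kap_le 𝔉 hn e i v) (norm_nonneg _))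
    rw [inner_self_eq_norm_sq_to_K, norm_pow] at h4
    simpa using h4
  by_contra hcon
  push Not at hcon
  have h5 : 0 < ‖v‖ := lt_of_le_of_lt (norm_nonneg _) hcon
  rw [sq] at h3
  exact absurd (le_of_mul_le_mul_right h3 h5) (not_le.2 hcon)

/-- PROOF: write `D_i` for the multiplication by `alp i`. By Cauchy-Schwarz for the finite sum, `sum_norm_alp_le` and `hX`:
`|⟪∑ D_i (X_i ξ), η⟫| = |∑ ⟪X_i ξ, D_i η⟫| ≤ (∑ ‖X_i ξ‖²)^{1/2} (∑ ‖D_i η‖²)^{1/2} ≤ N ‖ξ‖ A ‖η‖`, with `η` the vector itself. -/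
theorem norm_sum_alp_le {a : Finset C → C → ℝ} {A N : ℝ} (ha : CB a A) (hN : 0 ≤ N)
    (K : Finset I) (X : I → BL (Bs C)) (hX : ∀ ξ, ∑ i ∈ K, ‖X i ξ‖ ^ 2 ≤ N ^ 2 * ‖ξ‖ ^ 2) :
    ‖∑ i ∈ K, dia (fun b : Bs C => ((alp 𝔉 a i b.F : ℝ) : ℂ)) * X i‖ ≤ A * N := by
  refine ContinuousLinearMap.opNorm_le_bound _ (mul_nonneg ha.nonneg hN) fun ξ => ?_
  obtain ⟨v, hv⟩ : ∃ v, v =
    (∑ i ∈ K, dia (fun b : Bs C => ((alp 𝔉 a i b.F : ℝ) : ℂ)) * X i) ξ := ⟨_, rfl⟩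
  rw [← hv]
  have h1 : inner ℂ v v = ∑ i ∈ K, inner ℂ (X i ξ)
      (dia (fun b : Bs C => ((alp 𝔉 a i b.F : ℝ) : ℂ)) v) := by
    refine (congrArg (fun z => inner ℂ z v) hv).trans ?_
    rw [ContinuousLinearMap.sum_apply, sum_inner]
    refine Finset.sum_congr rfl fun i _ => ?_
    rw [ContinuousLinearMap.mul_apply, P7c_inner_dia ha]
  have h2 := P7c_cs K v (fun i => X i ξ)
    (fun i => dia (fun b : Bs C => ((alp 𝔉 a i b.F : ℝ) : ℂ)) v)
    (mul_nonneg hN (norm_nonneg ξ)) ha.nonneg h1 (by rw [mul_pow]; exact hX ξ)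
    (by rw [mul_pow]; exact sum_norm_alp_le ha K v)
  calc ‖v‖ ≤ N * ‖ξ‖ * A := h2
    _ = A * N * ‖ξ‖ := by ring

/-- PROOF: `|⟪∑ Y_i (D_i ξ), η⟫| ≤ ∑ ‖D_i ξ‖ ‖Y_i* η‖`, where `hY` says that `Y_i` has the adjoint `Z_i`; Cauchy-Schwarz,
`sum_norm_alp_le`, `hZ`. -/
theorem norm_sum_alp_le' {a : Finset C → C → ℝ} {A N : ℝ} (ha : CB a A) (hN : 0 ≤ N)
    (K : Finset I) (Y Z : I → BL (Bs C))
    (hY : ∀ i ξ η, inner ℂ (Y i ξ) η = inner ℂ ξ (Z i η))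
    (hZ : ∀ ξ, ∑ i ∈ K, ‖Z i ξ‖ ^ 2 ≤ N ^ 2 * ‖ξ‖ ^ 2) :
    ‖∑ i ∈ K, Y i * dia (fun b : Bs C => ((alp 𝔉 a i b.F : ℝ) : ℂ))‖ ≤ A * N := by
  refine ContinuousLinearMap.opNorm_le_bound _ (mul_nonneg ha.nonneg hN) fun ξ => ?_
  obtain ⟨v, hv⟩ : ∃ v, v =
    (∑ i ∈ K, Y i * dia (fun b : Bs C => ((alp 𝔉 a i b.F : ℝ) : ℂ))) ξ := ⟨_, rfl⟩
  rw [← hv]
  have h1 : inner ℂ v v = ∑ i ∈ K, inner ℂ
      (dia (fun b : Bs C => ((alp 𝔉 a i b.F : ℝ) : ℂ)) ξ) (Z i v) := by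
    refine (congrArg (fun z => inner ℂ z v) hv).trans ?_
    rw [ContinuousLinearMap.sum_apply, sum_inner]
    refine Finset.sum_congr rfl fun i _ => ?_
    rw [ContinuousLinearMap.mul_apply, hY]
  have h2 := P7c_cs K v (fun i => dia (fun b : Bs C => ((alp 𝔉 a i b.F : ℝ) : ℂ)) ξ)
    (fun i => Z i v) (mul_nonneg ha.nonneg (norm_nonneg ξ)) hN h1
    (by rw [mul_pow]; exact sum_norm_alp_le ha K ξ) (by rw [mul_pow]; exact hZ v)
  calc ‖v‖ ≤ A * ‖ξ‖ * N := h2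
    _ = A * N * ‖ξ‖ := by ring

end Pool.Agent.Lib.MP_aa9b81_an.Rc
end
end
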