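import Pool.Agent.Lib.MP_aa9b81_an.Mg.G010
import Pool.Agent.Lib.MP_aa9b81_an.Mg.G018
import Pool.Agent.Lib.MP_aa9b81_an.Mg.G008
import Pool.Agent.Lib.MP_aa9b81_an.Mg.G013
import Pool.Agent.Lib.MP_aa9b81_an.Mg.G017
import Pool.Agent.Lib.MP_aa9b81_an.Mg.G027
import Pool.Agent.Lib.MP_aa9b81_an.Mg.G023
import Pool.Agent.Lib.MP_aa9b81_an.Mg.G077
import Pool.Agent.Lib.MP_aa9b81_an.Mg.G029

section

/-!
# The machine, part D1: deformation of the weights for the constant representation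
-/

open scoped ENNReal Topology ZeroAtInfty
open Function Set

noncomputable section

namespace Pool.Agent.Lib.MP_aa9b81_an.Mc

open Cut Hs

variable {Γ P I : Type} [Group Γ] [TopologicalSpace P] [MulAction Γ P] [MulAction Γ I]
  [DecidableEq I]

variable [ContinuousConstSMul Γ P]

omit [ContinuousConstSMul Γ P] in
/-- The value for a generator. -/
theorem D1c_gen (w : Wt Γ I) (c : ℕ × Bs I ≃ ℕ) (e : I ↪ ℕ) (f : C₀(P, ℂ)) (g : Γ) (i j : ℕ)
    (s : ℝ) : (m1 c (cst (Tc w e s)) * m1 c (cst Pm) * cov c (sact e) g i j (sc f) *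
      m1 c (cst (Tc w e s)) : Fam Γ P) =
      cov c (sact e) g i j (cst (Pp * (Tc w e s * Tg w e g s)) * sc f) := by
  rw [← m1_mul, ← cst_mul, ← Pp_mul_Tc, m1_mul_cov, cov_mul_m1, Ad_Tc, mul_assoc, sc_comm,
    ← mul_assoc, ← cst_mul, mul_assoc]

omit [ContinuousConstSMul Γ P] in
/-- The dependence on the operator is continuous. -/
theorem D1c_lip (c : ℕ × Bs I ≃ ℕ) (e : I ↪ ℕ) (f : C₀(P, ℂ)) (g : Γ) (i j : ℕ) :
    Continuous fun X : BL (Bs I) => (cov c (sact e) g i j (cst (Pp * X) * sc f) : Fam Γ P) := by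
  refine (LipschitzWith.of_dist_le_mul (K := ⟨‖(Pp : BL (Bs I))‖ * ‖(sc f : FB (Bs I) P)‖,
    mul_nonneg (norm_nonneg _) (norm_nonneg _)⟩) fun X Y => ?_).continuous
  rw [dist_eq_norm, dist_eq_norm, ← cov_sub, ← sub_mul]
  have h1 : ‖(cst (Pp * X) - cst (Pp * Y) : FB (Bs I) P)‖ ≤ ‖(Pp : BL (Bs I))‖ * ‖X - Y‖ := by
    refine (FB.norm_le_iff (mul_nonneg (norm_nonneg _) (norm_nonneg _))).2 fun p => ?_
    rw [FB.sub_apply, cst_apply, cst_apply, ← mul_sub]
    exact norm_mul_le _ _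
  calc ‖(cov c (sact e) g i j ((cst (Pp * X) - cst (Pp * Y)) * sc f) : Fam Γ P)‖
      ≤ ‖((cst (Pp * X) - cst (Pp * Y)) * sc f : FB (Bs I) P)‖ := norm_cov_le _ _ _ _ _ _
    _ ≤ ‖(cst (Pp * X) - cst (Pp * Y) : FB (Bs I) P)‖ * ‖(sc f : FB (Bs I) P)‖ := norm_mul_le _ _
    _ ≤ (‖(Pp : BL (Bs I))‖ * ‖X - Y‖) * ‖(sc f : FB (Bs I) P)‖ :=
        mul_le_mul_of_nonneg_right h1 (norm_nonneg _)
    _ = (‖(Pp : BL (Bs I))‖ * ‖(sc f : FB (Bs I) P)‖) * ‖X - Y‖ := by ring

/-- PROOF: for a generator: `m1_mul_cov`, `cov_mul_m1`, `Ad_Tc`: the value is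
`cov c (sact e) g i j (cst (Tc s * Pm * Tg s) * sc f) = cov .. (cst Pp * cst (Tc s * Tg s) * sc f)` (`Pp_mul_Tc`), continuous
by `continuousOn_Tc_Tg` (`cst`, the products and `cov` are additive and bounded). `Rp.ind`: sums; uniform limits of
continuous functions on `[0,1]` (`norm_m1_Tc_le`, `‖m1 c (cst Pm)‖ ≤ ‖Pm‖`). -/
theorem continuousOn_T_const_T (w : Wt Γ I) (c : ℕ × Bs I ≃ ℕ) (e : I ↪ ℕ) (a : cp Γ P) :
    ContinuousOn (fun s => m1 c (cst (Tc w e s)) * m1 c (cst Pm) * (Rp.const c e).Θ a *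
      m1 c (cst (Tc w e s))) (Icc 0 1) := by
  refine Rp.ind (Γ := Γ) (X := P) (Rp.const c e : Rp Γ P P I c e).dense (p := fun a : cp Γ P =>
    ContinuousOn (fun s => m1 c (cst (Tc w e s)) * m1 c (cst Pm) * (Rp.const c e).Θ a *
      m1 c (cst (Tc w e s))) (Icc 0 1)) ?_ ?_ ?_ ?_ a
  · intro f hf g i j hm
    have h1 : (Rp.const c e : Rp Γ P P I c e).Θ ⟨gen f g i j, hm⟩ =
        cov c (sact e) g i j (sc f) := (Rp.const c e : Rp Γ P P I c e).onGen f hf g i j hm
    rw [h1]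
    simp only [D1c_gen]
    exact (D1c_lip c e f g i j).comp_continuousOn (continuousOn_Tc_Tg w e g)
  · rw [map_zero]
    simp only [mul_zero, zero_mul]
    exact continuousOn_const
  · intro a b ha hb
    rw [map_add]
    simp only [mul_add, add_mul]
    exact ha.add hb
  · intro a ha
    refine continuousOn_of_uniform_approx_of_continuousOn fun u hu => ?_
    obtain ⟨ε, hε, hεu⟩ := Metric.mem_uniformity_dist.1 hu
    obtain ⟨q, hq⟩ : ∃ q : ℝ, q = ‖(m1 c (cst Pm) : Fam Γ P)‖ := ⟨_, rfl⟩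
    have hQ0 : 0 ≤ q := hq ▸ norm_nonneg _
    have hq2 : 0 < 2 * (q + 1) := by linarith
    obtain ⟨b, hb, hab⟩ := ha (ε / (2 * (q + 1))) (div_pos hε hq2)
    refine ⟨_, hb, fun s _ => hεu ?_⟩
    have hT := norm_m1_Tc_le (Γ := Γ) (P := P) (c := c) (e := e) w s
    rw [dist_eq_norm, ← sub_mul, ← mul_sub]
    have hΘ := ((Rp.const c e : Rp Γ P P I c e).sub_le a b).trans hab
    have hT0 : 0 ≤ ‖(m1 c (cst (Tc w e s)) : Fam Γ P)‖ := norm_nonneg _
    have hD0 : 0 ≤ ‖(Rp.const c e).Θ a - (Rp.const c e).Θ b‖ := norm_nonneg _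
    have h1 : ‖m1 c (cst (Tc w e s)) * m1 c (cst Pm) *
        ((Rp.const c e).Θ a - (Rp.const c e).Θ b) * m1 c (cst (Tc w e s))‖ ≤
        ‖(m1 c (cst (Tc w e s)) : Fam Γ P)‖ * q *
          ‖(Rp.const c e).Θ a - (Rp.const c e).Θ b‖ * ‖(m1 c (cst (Tc w e s)) : Fam Γ P)‖ := by
      rw [hq]
      refine (norm_mul_le _ _).trans (mul_le_mul_of_nonneg_right ?_ hT0)
      refine (norm_mul_le _ _).trans (mul_le_mul_of_nonneg_right ?_ hD0)
      exact norm_mul_le _ _
    refine lt_of_le_of_lt h1 ?_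
    generalize ‖(m1 c (cst (Tc w e s)) : Fam Γ P)‖ = τ at hT hT0
    generalize ‖(Rp.const c e).Θ a - (Rp.const c e).Θ b‖ = d at hΘ hD0
    have h2 : τ * q * d * τ ≤ 1 * q * d * 1 :=
      mul_le_mul (mul_le_mul_of_nonneg_right (mul_le_mul_of_nonneg_right hT hQ0) hD0) hT hT0
        (by rw [one_mul]; exact mul_nonneg hQ0 hD0)
    have h3 : q * d ≤ q * (ε / (2 * (q + 1))) := mul_le_mul_of_nonneg_left hΘ hQ0
    have h4 : q * (ε / (2 * (q + 1))) < ε := by
      rw [mul_div_assoc', div_lt_iff₀ hq2]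
      nlinarith
    linarith

end Pool.Agent.Lib.MP_aa9b81_an.Mc
end
end

section

/-!
# The machine, part D2: the constant representation induces the identity
-/

open scoped ENNReal Topology ZeroAtInfty
open Function Set

noncomputable section

namespace Pool.Agent.Lib.MP_aa9b81_an.Mc

open Cut Hs

variable {Γ P I : Type} [Group Γ] [TopologicalSpace P] [MulAction Γ P] [MulAction Γ I]
  [DecidableEq I]

variable [ContinuousConstSMul Γ P] [T2Space P]

/-- PROOF: `Cyc.path` for `Z t = (Rp.const c e).cyc w (1 - t)`, `D = A' = cp Γ P`: `α` is constant, `β`: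
`continuousOn_T_const_T` composed with `t ↦ 1 - t`; `isMul_m1_cp` with `Mlt_Pp`, `Mlt_Cl`, `Rp0.isMul`; for `t < 1` `Rp0.main` (with `Rp.cpt`),
for `t = 1` `const_sub_zero` and `co_mem_cp`. -/
theorem const_path (w : Wt Γ I) (c : ℕ × Bs I ≃ ℕ) (e : I ↪ ℕ) (u : GL1 (cp Γ P)) :
    ((Rp.const c e).D w u)⁻¹ * ((Rp.const c e).cyc w 0).d u ∈ E1 (cp Γ P) := by
  have key := Cyc.path (D := cp Γ P) (A' := cp Γ P) le_rfl
    (fun t => ((Rp.const c e).cyc w (1 - t) : Cyc (cp Γ P) (Fam Γ P)))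
    (fun a => continuousOn_const (c := (m1 c (cst Pp) : Fam Γ P) * (Rp.const c e).Θ a))
    (fun a => ?_) (fun t _ => isMul_m1_cp c (sact e) Mlt_Pp)
    (fun t _ => isMul_m1_cp c (sact e) (Mlt_Cl e (CB_tc w (1 - t))))
    (fun t _ a => (Rp.const c e).isMul a) (fun t ht a => ?_) u
  · have h0 : ((1 : ℝ) - 0) = 1 := sub_zero 1
    have h1 : ((1 : ℝ) - 1) = 0 := sub_self 1
    have key' : (((Rp.const c e).cyc w ((1 : ℝ) - 0)).d u)⁻¹ *
        ((Rp.const c e).cyc w ((1 : ℝ) - 1)).d u ∈ E1 (cp Γ P) := key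
    rw [h0, h1] at key'
    exact key'
  · have h1 := continuousOn_T_const_T w c e a
    have h2 : ContinuousOn (fun t : ℝ => 1 - t) (Icc 0 1) :=
      (continuous_const.sub continuous_id).continuousOn
    have h3 : MapsTo (fun t : ℝ => 1 - t) (Icc 0 1) (Icc 0 1) := fun t ht =>
      ⟨by linarith [ht.2], by linarith [ht.1]⟩
    exact h1.comp h2 h3
  · rcases eq_or_lt_of_le ht.2 with h | h
    · subst h
      have h1 : ((1 : ℝ) - 1) = 0 := sub_self 1
      have h2 := const_sub_zero w c e a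
      have h3 : (Rp.const c e).Θ a - m1 c (cst (Tc w e ((1 : ℝ) - 1))) * (Rp.const c e).Θ a *
          m1 c (cst (Tc w e ((1 : ℝ) - 1))) ∈ cp Γ P := by
        rw [h1, h2]
        exact co_mem_cp (inj_vac c) a.1 a.2
      exact h3
    · have h4 : (1 : ℝ) - t ≠ 0 := by
        intro h5
        linarith
      have h5 : |(1 : ℝ) - t| ≤ 1 := by
        rw [abs_le]
        constructor <;> linarith [ht.1, ht.2]
      exact (Rp.const c e).main w ((Rp.const c e).cpt w h4 h5) a

/-- PROOF: `Hs.rotation` for `inj_vac c`, `const_end`, `const_path`: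
`u⁻¹ D u = (u⁻¹ co u) ((D u)⁻¹ co u)⁻¹`. -/
theorem const_D (w : Wt Γ I) (c : ℕ × Bs I ≃ ℕ) (e : I ↪ ℕ) (u : GL1 (cp Γ P)) :
    (u : (Fam Γ P)ˣ)⁻¹ * (Rp.const c e).D w u ∈ E1 (cp Γ P) := by
  have h1 := rotation (inj_vac c) u.2
  have h2 := const_path w c e u
  rw [const_end w c e u] at h2
  have h3 := mul_mem h1 (inv_mem h2)
  have h4 : (u : (Fam Γ P)ˣ)⁻¹ * extUnit (co (inj_vac c)) (u : (Fam Γ P)ˣ) *
      (((Rp.const c e).D w u)⁻¹ * extUnit (co (inj_vac c)) (u : (Fam Γ P)ˣ))⁻¹ =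
      (u : (Fam Γ P)ˣ)⁻¹ * (Rp.const c e).D w u := by
    group
  rwa [h4] at h3

/-- PROPERTY (c). PROOF: `Rp0.D_congr` (`pull` of `u - 1` is `pull u - 1`) and `const_D`. -/
theorem Rp.D_pull {X : Type} [TopologicalSpace X] [MulAction Γ X] [ContinuousConstSMul Γ X]
    {c : ℕ × Bs I ≃ ℕ} {e : I ↪ ℕ} (ρ : Rp Γ X P I c e) (w : Wt Γ I) {q : X → P}
    (h : ∀ (a : Fam Γ P) (ha : a ∈ cp Γ P) (hm : pull q a ∈ cp Γ X),
      ρ.Θ ⟨pull q a, hm⟩ = (Rp.const c e).Θ ⟨a, ha⟩) (u : GL1 (cp Γ P))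
    (hu : pullU q (u : (Fam Γ P)ˣ) ∈ GL1 (cp Γ X)) :
    (u : (Fam Γ P)ˣ)⁻¹ * ρ.D w ⟨pullU q u, hu⟩ ∈ E1 (cp Γ P) := by
  have h1 : ρ.D w ⟨pullU q u, hu⟩ = (Rp.const c e).D w u := by
    refine Rp0.D_congr ρ.toRp0 (Rp.const c e).toRp0 w ⟨pullU q u, hu⟩ u ?_ ?_
    · have e1 : ((pullU q (u : (Fam Γ P)ˣ) : (Fam Γ X)ˣ) : Fam Γ X) - 1 =
          pull q (((u : (Fam Γ P)ˣ) : Fam Γ P) - 1) := by
        rw [pullU_val, map_sub, map_one]
      have hm : pull q (((u : (Fam Γ P)ˣ) : Fam Γ P) - 1) ∈ cp Γ X := e1 ▸ hu.1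
      have e2 : (⟨((pullU q (u : (Fam Γ P)ˣ) : (Fam Γ X)ˣ) : Fam Γ X) - 1, hu.1⟩ : cp Γ X) =
          ⟨pull q (((u : (Fam Γ P)ˣ) : Fam Γ P) - 1), hm⟩ := Subtype.ext e1
      exact (congrArg (fun z => ρ.Θ z) e2).trans (h _ u.2.1 hm)
    · have e1 : (((pullU q (u : (Fam Γ P)ˣ))⁻¹ : (Fam Γ X)ˣ) : Fam Γ X) - 1 =
          pull q ((((u : (Fam Γ P)ˣ)⁻¹ : (Fam Γ P)ˣ) : Fam Γ P) - 1) := by
        rw [← map_inv, pullU_val, map_sub, map_one]
      have hm : pull q ((((u : (Fam Γ P)ˣ)⁻¹ : (Fam Γ P)ˣ) : Fam Γ P) - 1) ∈ cp Γ X := e1 ▸ hu.2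
      have e2 : (⟨(((pullU q (u : (Fam Γ P)ˣ))⁻¹ : (Fam Γ X)ˣ) : Fam Γ X) - 1, hu.2⟩ : cp Γ X) =
          ⟨pull q ((((u : (Fam Γ P)ˣ)⁻¹ : (Fam Γ P)ˣ) : Fam Γ P) - 1), hm⟩ := Subtype.ext e1
      exact (congrArg (fun z => ρ.Θ z) e2).trans (h _ u.2.2 hm)
  rw [h1]
  exact const_D w c e u

end Pool.Agent.Lib.MP_aa9b81_an.Mc
end
end

section

/-!
# The machine, part H2: paths of parameters
-/

open scoped ENNReal Topology ZeroAtInfty
open Function Set

noncomputable section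

namespace Pool.Agent.Lib.MP_aa9b81_an.Mc

open Cut Hs

/-- A path of equivariant parameters. -/
structure AngP (Γ B I : Type) [Group Γ] [TopologicalSpace B] [MulAction Γ B] [MulAction Γ I] where
  /-- the parameter -/
  θ : B → Icc (0 : ℝ) 1 → I → ℝ
  nonneg : ∀ b t i, 0 ≤ θ b t i
  le_one : ∀ b t i, θ b t i ≤ 1
  cont : ∀ i, Continuous fun x : B × Icc (0 : ℝ) 1 => θ x.1 x.2 i
  equi : ∀ (g : Γ) b t i, θ (g • b) t (g • i) = θ b t i

variable {Γ B W I : Type} [Group Γ] [TopologicalSpace B] [MulAction Γ B] [TopologicalSpace W]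
  [MulAction Γ W] [MulAction Γ I]

/-- The parameters at the time `t`. -/
def AngP.at (A : AngP Γ B I) (t : Icc (0 : ℝ) 1) : Ang Γ B I where
  θ b := A.θ b t
  nonneg b := A.nonneg b t
  le_one b := A.le_one b t
  cont i := (A.cont i).comp (continuous_id.prodMk continuous_const)
  equi g b := A.equi g b t

variable [DecidableEq I]

omit [DecidableEq I] in
private theorem H2_dia (z : ℂ) : dia (fun _ : Bs I => z) = z • (1 : BL (Bs I)) := by
  refine ContinuousLinearMap.ext fun ξ => ?_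
  ext b
  rw [dia_apply (norm_nonneg z) (fun _ => le_rfl)]
  rfl

private theorem H2_val (A : AngP Γ B I) (f : C₀((B × Pow I) × W, ℂ)) (M : Finset I)
    (t : Icc (0 : ℝ) 1) (p : B × W) :
    (r1 (W := W) (A.at t)).nM M f p
      = ∑ m ∈ M.powerset, f ((p.1, ind m), p.2) • EM M m (ang (A.θ p.1 t)) := by
  rw [Rdr.nM_apply]
  refine Finset.sum_congr rfl fun m _ => ?_
  change EM M m (ang (A.θ p.1 t)) * dia (fun _ : Bs I => f ((p.1, ind m), p.2)) = _
  rw [H2_dia, mul_smul_comm, mul_one]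

/-- PROOF. Let `s ∈ [0,1]` and `ε > 0`. Off a compact set `K ⊆ B × W` (`Rdr.Good.zero` of `good1`) all the values of `f` have norm
`≤ ε`. The function `(p, t) ↦ EM M m (ang (A.θ p.1 t))` is continuous (`continuous_EM`, `A.cont`), so by compactness of `K`
(tube lemma: `generalized_tube_lemma`, or `IsCompact.uniformContinuousOn`-like for `K × [0,1]`) for `t` near to `s` it differs
from its value at `s` by at most `ε` for all `p ∈ K`, `m ⊆ M`. So
`‖nM_t - nM_s‖ ≤ 2^|M| * (2 ε + ε ‖f‖)` (`norm_EM_le`, `norm_dia_le`, `FB.norm_le_iff`). -/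
theorem continuous_nM (A : AngP Γ B I) {f : C₀((B × Pow I) × W, ℂ)} {M : Finset I}
    (hM : ∀ b x x' w, (∀ i ∈ M, x i = x' i) → f ((b, x), w) = f ((b, x'), w)) :
    Continuous fun t : Icc (0 : ℝ) 1 => (r1 (W := W) (A.at t)).nM M f := by
  rw [continuous_iff_continuousAt]
  intro s
  rw [Metric.continuousAt_iff']
  intro ε hε
  have hN : (0 : ℝ) < 2 ^ M.card := by positivity
  set δ : ℝ := ε / (4 * 2 ^ M.card) with hδ
  have hδ0 : 0 < δ := by positivity
  obtain ⟨K, hK, hKz⟩ := (good1 (W := W) (A.at s) hM).zero δ hδ0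
  have hKz' : ∀ p ∉ K, ∀ x : Pow I, ‖f ((p.1, x), p.2)‖ ≤ δ := fun p hp x => hKz p hp x ∅
  set D : Icc (0 : ℝ) 1 × (B × W) → BL (Bs I) := fun x =>
    ∑ m ∈ M.powerset, f ((x.2.1, ind m), x.2.2) •
      (EM M m (ang (A.θ x.2.1 x.1)) - EM M m (ang (A.θ x.2.1 s))) with hD
  have hDval : ∀ t p, (r1 (W := W) (A.at t)).nM M f p - (r1 (W := W) (A.at s)).nM M f p = D (t, p) := by
    intro t p
    rw [H2_val, H2_val, hD, ← Finset.sum_sub_distrib]
    refine Finset.sum_congr rfl fun m _ => ?_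
    rw [smul_sub]
  have hang1 : Continuous fun x : Icc (0 : ℝ) 1 × (B × W) => ang (A.θ x.2.1 x.1) := by
    refine continuous_pi fun i => ?_
    have h1 : Continuous fun x : Icc (0 : ℝ) 1 × (B × W) => ((x.2.1, x.1) : B × Icc (0 : ℝ) 1) :=
      (continuous_fst.comp continuous_snd).prodMk continuous_fst
    exact ((A.cont i).comp h1).mul continuous_const
  have hang2 : Continuous fun x : Icc (0 : ℝ) 1 × (B × W) => ang (A.θ x.2.1 s) := by
    refine continuous_pi fun i => ?_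
    have h1 : Continuous fun x : Icc (0 : ℝ) 1 × (B × W) => ((x.2.1, s) : B × Icc (0 : ℝ) 1) :=
      (continuous_fst.comp continuous_snd).prodMk continuous_const
    exact ((A.cont i).comp h1).mul continuous_const
  have hDc : Continuous D := by
    rw [hD]
    refine continuous_finsetSum _ fun m _ => ?_
    have h1 : Continuous fun x : Icc (0 : ℝ) 1 × (B × W) => f ((x.2.1, ind m), x.2.2) :=
      f.continuous.comp (((continuous_fst.comp continuous_snd).prodMk continuous_const).prodMk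
        (continuous_snd.comp continuous_snd))
    have h2 : Continuous fun x : Icc (0 : ℝ) 1 × (B × W) => EM M m (ang (A.θ x.2.1 x.1)) :=
      (continuous_EM M m).comp hang1
    have h3 : Continuous fun x : Icc (0 : ℝ) 1 × (B × W) => EM M m (ang (A.θ x.2.1 s)) :=
      (continuous_EM M m).comp hang2
    exact h1.smul (h2.sub h3)
  have hopen : IsOpen {x : Icc (0 : ℝ) 1 × (B × W) | ‖D x‖ < ε / 2} :=
    isOpen_lt hDc.norm continuous_const
  have hsub : ({s} : Set (Icc (0 : ℝ) 1)) ×ˢ K ⊆ {x | ‖D x‖ < ε / 2} := by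
    rintro ⟨t, p⟩ ⟨ht, _⟩
    have ht' : t = s := ht
    subst ht'
    have h0 : D (t, p) = 0 := by
      rw [hD]
      refine Finset.sum_eq_zero fun m _ => ?_
      simp only [sub_self, smul_zero]
    change ‖D (t, p)‖ < ε / 2
    rw [h0, norm_zero]
    positivity
  obtain ⟨u, v, hu, _, hsu, hKv, huv⟩ := generalized_tube_lemma isCompact_singleton hK hopen hsub
  filter_upwards [hu.mem_nhds (hsu rfl)] with t ht
  rw [dist_eq_norm]
  refine lt_of_le_of_lt ?_ (half_lt_self hε)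
  rw [FB.norm_le_iff (by positivity)]
  intro p
  rw [FB.sub_apply, hDval]
  by_cases hp : p ∈ K
  · have h1 : (t, p) ∈ u ×ˢ v := ⟨ht, hKv hp⟩
    exact le_of_lt (huv h1)
  · have h1 : ∀ m ∈ M.powerset, ‖f ((p.1, ind m), p.2) •
        (EM M m (ang (A.θ p.1 t)) - EM M m (ang (A.θ p.1 s)))‖ ≤ δ * 2 := by
      intro m _
      rw [norm_smul]
      refine mul_le_mul (hKz' p hp _) ?_ (norm_nonneg _) hδ0.le
      refine (norm_sub_le _ _).trans ?_
      have h2 := norm_EM_le M m (ang (A.θ p.1 t))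
      have h3 := norm_EM_le M m (ang (A.θ p.1 s))
      linarith
    refine (norm_sum_le_of_le _ h1).trans ?_
    rw [Finset.sum_const, Finset.card_powerset, nsmul_eq_mul, hδ]
    push_cast
    apply le_of_eq
    field_simp
    ring

variable [T2Space B] [T2Space W] [ContinuousConstSMul Γ B] [ContinuousConstSMul Γ W]

end Pool.Agent.Lib.MP_aa9b81_an.Mc
end
end

section

/-!
# The machine, part H4: the labelled representation
-/

open scoped ENNReal Topology ZeroAtInfty
open Function Set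

noncomputable section

namespace Pool.Agent.Lib.MP_aa9b81_an.Mc

open Cut Hs

variable {Γ B I E : Type} [Group Γ] [TopologicalSpace B] [MulAction Γ B] [MulAction Γ I]
  [AddCommGroup E] [Module ℝ E] [TopologicalSpace E] [T2Space E]
  [ContinuousAdd E] [ContinuousSMul ℝ E] [DistribMulAction Γ E] [SMulCommClass Γ ℝ E]
  [ContinuousConstSMul Γ E] {O W : Type} [TopologicalSpace O] [MulAction Γ O]
  [TopologicalSpace W] [MulAction Γ W]

variable {A : Ang Γ B I} (l : Lam A) (Q : ConvexSpace Γ E) {q : I → Q.Pt}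

variable [DecidableEq I]

omit [ContinuousAdd E] [ContinuousSMul ℝ E] [SMulCommClass Γ ℝ E] [ContinuousConstSMul Γ E]
  [MulAction Γ O] [MulAction Γ W] [T2Space E] in
/-- THE KEY. PROOF: let `x* i = m i` for `i ∈ M` and `x* i = decide (θ b i ≠ 0)` for `i ∉ M`. By `hM` the value at `x*` is not
`0`, so `(b, x*) = o z` for some `z`. By `hO` there is `i` with `0 < lam b i` and `x* i = true ↔ θ b i = 0`; for `i ∉ M` this is
a contradiction, so `i ∈ M`. -/
theorem key2 {o : O → B × Pow I}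
    (hO : ∀ z, ∃ i, 0 < l.lam (o z).1 i ∧ ((o z).2 i = true ↔ A.θ (o z).1 i = 0))
    {M : Finset I} {f : C₀(O × Q.Pt × W, ℂ)} (hM : Cy2 Q W o M f) {b : B} {m : Finset I} {y : Q.Pt}
    {w : W} (h : vf o f (b, ind m) y w ≠ 0) :
    ∃ i ∈ M, 0 < l.lam b i ∧ (i ∈ m ↔ A.θ b i = 0) := by
  have hdec : ∃ x : Pow I, (∀ i ∈ M, x i = ind m i) ∧
      ∀ i, i ∉ M → (x i = true ↔ A.θ b i ≠ 0) := by
    classical
    refine ⟨fun i => if i ∈ M then ind m i else decide (A.θ b i ≠ 0), fun i hi => ?_,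
      fun i hi => ?_⟩
    · exact if_pos hi
    · have e : (fun i => if i ∈ M then ind m i else decide (A.θ b i ≠ 0) : I → Bool) i =
        decide (A.θ b i ≠ 0) := if_neg hi
      change (fun i => if i ∈ M then ind m i else decide (A.θ b i ≠ 0) : I → Bool) i = true ↔ _
      rw [e, decide_eq_true_eq]
  obtain ⟨x, hx1, hx2⟩ := hdec
  have h1 : vf o f (b, x) y w ≠ 0 := by
    rw [hM b x (ind m) y w hx1]
    exact h
  obtain ⟨z, hz⟩ : ∃ z, oinv o (b, x) = some z := by
    cases hc : oinv o (b, x) with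
    | none =>
      exfalso
      apply h1
      unfold vf
      rw [hc]
      rfl
    | some z => exact ⟨z, rfl⟩
  have hz' : o z = (b, x) := oinv_eq_some hz
  obtain ⟨i, hi1, hi2⟩ := hO z
  rw [hz'] at hi1 hi2
  have hiM : i ∈ M := by
    by_contra hiM
    have h2 := hx2 i hiM
    have h3 : A.θ b i ≠ 0 ↔ A.θ b i = 0 := h2.symm.trans hi2
    tauto
  refine ⟨i, hiM, hi1, ?_⟩
  rw [← hi2]
  change i ∈ m ↔ x i = true
  rw [hx1 i hiM]
  unfold ind
  rw [decide_eq_true_eq]

end Pool.Agent.Lib.MP_aa9b81_an.Mc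
end
end

section

section
/-!
# The machine, part H5: the conditions for the labelled representation
-/

open scoped ENNReal Topology ZeroAtInfty
open Function Set

noncomputable section

namespace Pool.Agent.Lib.MP_aa9b81_an.Mc

open Cut Hs

variable {Γ B I E : Type} [Group Γ] [TopologicalSpace B] [MulAction Γ B] [MulAction Γ I]
  [AddCommGroup E] [Module ℝ E] [TopologicalSpace E] [T2Space E]
  [ContinuousAdd E] [ContinuousSMul ℝ E] [DistribMulAction Γ E] [SMulCommClass Γ ℝ E]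
  [ContinuousConstSMul Γ E] {O W : Type} [TopologicalSpace O] [MulAction Γ O]
  [TopologicalSpace W] [MulAction Γ W] {A : Ang Γ B I} (l : Lam A) (Q : ConvexSpace Γ E)
  {q : I → Q.Pt} [DecidableEq I]

omit [DecidableEq I] in
theorem H5b_ker_sub (X Y : BL (Bs I)) (b b' : Bs I) :
    ker X b b' - ker Y b b' = ker (X - Y) b b' := rfl

omit [DecidableEq I] in
theorem H5b_continuous_ker (b b' : Bs I) : Continuous fun X : BL (Bs I) => ker X b b' := by
  refine LipschitzWith.continuous (K := 1) (LipschitzWith.of_dist_le_mul fun X Y => ?_)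
  rw [dist_eq_norm, dist_eq_norm, H5b_ker_sub, NNReal.coe_one, one_mul]
  exact norm_ker_le _ _ _

/-- THE ENTRIES ARE CONTINUOUS. PROOF. Let `G p = ker (EM M m (ang (A.θ p.1))) b' b * (value of r2_val at (p, ind m, b.F))`; continuity at
`p₀ = (b₀, w₀)`.
Case 1: there is `i ∈ M` with `0 < lam b₀ i`, `i ∈ m ↔ θ b₀ i = 0`, `i ∉ b.F`. Near to `b₀` `0 < lam`, so `θ ∈ {0, 1}`
(`l.ext`), equal to `θ b₀ i` by continuity; by `EM_mul_dia_zero` for `ψ = [· = b]` and `ker_mul_dia` the entry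
`ker (EM ..) b' b` is `0` near to `b₀`, so `G = 0` near to `p₀`.
Case 2: there is `i ∈ M` with `0 < lam b₀ i`, `i ∈ m ↔ θ b₀ i = 0`, and all these `i` are in `b.F`. Then
`0 < ∑_{i ∈ b.F} lam b₀ i`: the label is defined on a neighbourhood (`isOpen_lab`) and continuous (`continuous_lab`), so
`G` is continuous at `p₀` by `continuous_vf` and the continuity of the entries of `EM` (as in `good1`).
Case 3: there is no such `i`. By `key2` `vf o f (b₀, ind m) y w₀ = 0` for all `y`; so `G p₀ = 0`, and as `Q.Pt` is compact and the function of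
`continuous_vf` is continuous, for every `ε > 0` its values at `((b, ind m), y, w)` have norm `≤ ε` for all `y` and all
`(b, w)` near to `p₀` (tube lemma); `‖ker ..‖ ≤ 1` (`norm_ker_le`, `norm_EM_le`). -/
theorem cont2 [T2Space B] [T2Space W] (hq : ∀ (g : Γ) i, q (g • i) = g • q i)
    {o : O → B × Pow I} (ho : Topology.IsOpenEmbedding o)
    (he : ∀ (g : Γ) x, o (g • x) = g • o x)
    (hO : ∀ z, ∃ i, 0 < l.lam (o z).1 i ∧ ((o z).2 i = true ↔ A.θ (o z).1 i = 0))
    {M : Finset I} {f : C₀(O × Q.Pt × W, ℂ)} (hM : Cy2 Q W o M f) (m : Finset I) (b' b : Bs I) :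
    Continuous fun p : B × W => ker (EM M m (ang (A.fst.θ p))) b' b *
      optf f ((r2 l Q hq ho.injective he).R p (ind m) b.F) := by
  obtain ⟨Fc, hFc⟩ := continuous_vf (Q := Q) ho f
  have hQ : CompactSpace Q.Pt := isCompact_iff_compactSpace.1 Q.compact
  have hK : Continuous fun p : B × W => ker (EM M m (ang (A.fst.θ p))) b' b := by
    refine (H5b_continuous_ker b' b).comp ((continuous_EM M m).comp ?_)
    refine continuous_pi fun i => ?_
    exact (A.fst.cont i).mul continuous_const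
  have hK1 : ∀ p : B × W, ‖ker (EM M m (ang (A.fst.θ p))) b' b‖ ≤ 1 := fun p =>
    (norm_ker_le _ _ _).trans (norm_EM_le _ _ _)
  have hV : ∀ p : B × W, optf f ((r2 l Q hq ho.injective he).R p (ind m) b.F) =
      (l.lab Q q p.1 b.F).elim 0 fun y => Fc ((p.1, ind m), y, p.2) := by
    intro p
    rw [r2_val]
    cases l.lab Q q p.1 b.F with
    | none => rfl
    | some y => exact (hFc _ _ _).symm
  simp only [hV]
  rw [continuous_iff_continuousAt]
  intro p₀
  by_cases hA : ∃ i ∈ M, 0 < l.lam p₀.1 i ∧ (i ∈ m ↔ A.θ p₀.1 i = 0)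
  · by_cases hA1 : ∃ i ∈ M, (0 < l.lam p₀.1 i ∧ (i ∈ m ↔ A.θ p₀.1 i = 0)) ∧ i ∉ b.F
    · -- the entry of `EM` vanishes near to `p₀`
      obtain ⟨i, hiM, ⟨hl, hm⟩, hib⟩ := hA1
      have hev : ∀ᶠ p : B × W in 𝓝 p₀, ker (EM M m (ang (A.fst.θ p))) b' b = 0 := by
        have h1 : ∀ᶠ p : B × W in 𝓝 p₀, 0 < l.lam p.1 i :=
          ((l.cont i).comp continuous_fst).continuousAt.eventually (lt_mem_nhds hl)
        have h2 : ∀ᶠ p : B × W in 𝓝 p₀, dist (A.θ p.1 i) (A.θ p₀.1 i) < 1 :=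
          Metric.continuousAt_iff'.1 ((A.cont i).comp continuous_fst).continuousAt 1 one_pos
        filter_upwards [h1, h2] with p hp1 hp2
        have hθ : A.θ p.1 i = A.θ p₀.1 i := by
          rcases l.ext p.1 i hp1 with h3 | h3 <;> rcases l.ext p₀.1 i hl with h4 | h4
          · rw [h3, h4]
          · rw [h3, h4, Real.dist_eq] at hp2
            norm_num at hp2
          · rw [h3, h4, Real.dist_eq] at hp2
            norm_num at hp2
          · rw [h3, h4]
        have hcase : (i ∈ m ∧ ang (A.fst.θ p) i = 0) ∨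
            (i ∉ m ∧ ang (A.fst.θ p) i = Real.pi / 2) := by
          have h5 : ang (A.fst.θ p) i = A.θ p.1 i * (Real.pi / 2) := rfl
          rw [h5, hθ]
          rcases l.ext p₀.1 i hl with h4 | h4
          · exact Or.inl ⟨hm.2 h4, by rw [h4, zero_mul]⟩
          · refine Or.inr ⟨fun h => ?_, by rw [h4, one_mul]⟩
            rw [h4] at hm
            exact one_ne_zero (hm.1 h)
        classical
        have hψ : ∀ x : Bs I, ‖(if x = b then (1 : ℂ) else 0)‖ ≤ 1 := by
          intro x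
          split_ifs <;> simp
        have h6 := EM_mul_dia_zero hiM hcase zero_le_one hψ fun x hx => by
          rw [if_neg]
          rintro rfl
          exact hib hx
        have h7 := ker_mul_dia (EM M m (ang (A.fst.θ p))) zero_le_one hψ b' b
        rw [h6, if_pos rfl, mul_one] at h7
        rw [← h7]
        rfl
      have h8 : (fun p : B × W => ker (EM M m (ang (A.fst.θ p))) b' b *
          ((l.lab Q q p.1 b.F).elim 0 fun y => Fc ((p.1, ind m), y, p.2))) =ᶠ[𝓝 p₀]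
          fun _ => 0 := by
        filter_upwards [hev] with p hp
        rw [hp, zero_mul]
      exact continuousAt_const.congr h8.symm
    · -- the label is defined and continuous near to `p₀`
      obtain ⟨i, hiM, hl, hm⟩ := hA
      have hib : i ∈ b.F := by
        by_contra h
        exact hA1 ⟨i, hiM, ⟨hl, hm⟩, h⟩
      have hsum : 0 < ∑ j ∈ b.F, l.lam p₀.1 j :=
        Finset.sum_pos' (fun j _ => l.nonneg _ _) ⟨i, hib, hl⟩
      obtain ⟨L, hL, hL'⟩ := continuous_lab l Q q b.F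
      have hU : IsOpen {p : B × W | ∃ y, l.lab Q q p.1 b.F = some y} :=
        (isOpen_lab l Q q b.F).preimage continuous_fst
      have hp₀ : p₀ ∈ {p : B × W | ∃ y, l.lab Q q p.1 b.F = some y} := by
        refine ⟨⟨_, lab_mem l Q q p₀.1 b.F hsum⟩, ?_⟩
        rw [Lam.lab, dif_pos hsum]
      refine ContinuousAt.mul hK.continuousAt ?_
      refine ContinuousOn.continuousAt ?_ (hU.mem_nhds hp₀)
      rw [continuousOn_iff_continuous_domRestrict]
      have h1 : ({p : B × W | ∃ y, l.lab Q q p.1 b.F = some y}.domRestrict fun p : B × W =>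
          (l.lab Q q p.1 b.F).elim 0 fun y => Fc ((p.1, ind m), y, p.2)) =
          fun p => Fc ((p.1.1, ind m), L ⟨p.1.1, p.2⟩, p.1.2) := by
        funext p
        show (l.lab Q q p.1.1 b.F).elim 0 (fun y => Fc ((p.1.1, ind m), y, p.1.2)) = _
        rw [hL' ⟨p.1.1, p.2⟩]
        rfl
      rw [h1]
      refine (map_continuous Fc).comp ?_
      have h2 : Continuous fun p : {p : B × W | ∃ y, l.lab Q q p.1 b.F = some y} => p.1.1 :=
        continuous_fst.comp continuous_subtype_val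
      have h3 : Continuous fun p : {p : B × W | ∃ y, l.lab Q q p.1 b.F = some y} => p.1.2 :=
        continuous_snd.comp continuous_subtype_val
      have h4 : Continuous fun p : {p : B × W | ∃ y, l.lab Q q p.1 b.F = some y} =>
          L ⟨p.1.1, p.2⟩ := hL.comp (h2.subtype_mk _)
      exact (h2.prodMk continuous_const).prodMk (h4.prodMk h3)
  · -- the value tends to `0`
    have hz : ∀ y : Q.Pt, Fc ((p₀.1, ind m), y, p₀.2) = 0 := by
      intro y
      by_contra h
      rw [hFc] at h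
      exact hA (key2 l Q hO hM h)
    have hev : ∀ ε > 0, ∀ᶠ p : B × W in 𝓝 p₀, ∀ y : Q.Pt,
        ‖Fc ((p.1, ind m), y, p.2)‖ < ε := by
      intro ε hε
      have h1 := (isCompact_univ (X := Q.Pt)).eventually_forall_of_forall_eventually
        (x₀ := p₀) (P := fun p y => ‖Fc ((p.1, ind m), y, p.2)‖ < ε) fun y _ => by
          have h2 : Continuous fun z : (B × W) × Q.Pt => ‖Fc ((z.1.1, ind m), z.2, z.1.2)‖ := by
            refine continuous_norm.comp ((map_continuous Fc).comp ?_)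
            exact ((continuous_fst.comp continuous_fst).prodMk continuous_const).prodMk
              (continuous_snd.prodMk (continuous_snd.comp continuous_fst))
          have h3 : ‖Fc ((p₀.1, ind m), y, p₀.2)‖ < ε := by
            rw [hz y, norm_zero]
            exact hε
          exact h2.continuousAt.eventually (gt_mem_nhds h3)
      filter_upwards [h1] with p hp y
      exact hp y (mem_univ y)
    have h0 : ker (EM M m (ang (A.fst.θ p₀))) b' b *
        ((l.lab Q q p₀.1 b.F).elim 0 fun y => Fc ((p₀.1, ind m), y, p₀.2)) = 0 := by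
      cases l.lab Q q p₀.1 b.F with
      | none => exact mul_zero _
      | some y =>
        show _ * Fc ((p₀.1, ind m), y, p₀.2) = 0
        rw [hz, mul_zero]
    refine Metric.continuousAt_iff'.2 fun ε hε => ?_
    filter_upwards [hev ε hε] with p hp
    rw [h0, dist_zero_right, norm_mul]
    have h4 : ‖(l.lab Q q p.1 b.F).elim 0 fun y => Fc ((p.1, ind m), y, p.2)‖ < ε := by
      cases l.lab Q q p.1 b.F with
      | none =>
        show ‖(0 : ℂ)‖ < ε
        rw [norm_zero]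
        exact hε
      | some y => exact hp y
    calc _ ≤ 1 * ‖(l.lab Q q p.1 b.F).elim 0 fun y => Fc ((p.1, ind m), y, p.2)‖ :=
          mul_le_mul_of_nonneg_right (hK1 p) (norm_nonneg _)
      _ < ε := by rw [one_mul]; exact h4

end Pool.Agent.Lib.MP_aa9b81_an.Mc
end

end


section
/-!
# The machine, part H5: the conditions for the labelled representation
-/

open scoped ENNReal Topology ZeroAtInfty
open Function Set

noncomputable section

namespace Pool.Agent.Lib.MP_aa9b81_an.Mc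

open Cut Hs

variable {Γ B I E : Type} [Group Γ] [TopologicalSpace B] [MulAction Γ B] [MulAction Γ I]
  [AddCommGroup E] [Module ℝ E] [TopologicalSpace E] [T2Space E]
  [ContinuousAdd E] [ContinuousSMul ℝ E] [DistribMulAction Γ E] [SMulCommClass Γ ℝ E]
  [ContinuousConstSMul Γ E] {O W : Type} [TopologicalSpace O] [MulAction Γ O]
  [TopologicalSpace W] [MulAction Γ W] {A : Ang Γ B I} (l : Lam A) (Q : ConvexSpace Γ E)
  {q : I → Q.Pt} [DecidableEq I]

/-- PROOF: `cyl`: `r2_val`, `hM`. `cont`: `cont2`. `zero`: `K` is the image of the compact set `{x | ε ≤ ‖f x‖}` under the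
continuous map `(z, y, w) ↦ ((o z).1, w)`. -/
theorem good2 [T2Space B] [T2Space W] (hq : ∀ (g : Γ) i, q (g • i) = g • q i)
    {o : O → B × Pow I} (ho : Topology.IsOpenEmbedding o)
    (he : ∀ (g : Γ) x, o (g • x) = g • o x)
    (hO : ∀ z, ∃ i, 0 < l.lam (o z).1 i ∧ ((o z).2 i = true ↔ A.θ (o z).1 i = 0))
    {M : Finset I} {f : C₀(O × Q.Pt × W, ℂ)} (hM : Cy2 Q W o M f) :
    (r2 l Q hq ho.injective he).Good M f := by
  refine ⟨?_, fun m _ b' b => cont2 l Q hq ho he hO hM m b' b, ?_⟩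
  · intro p x x' F hx
    rw [r2_val, r2_val]
    cases l.lab Q q p.1 F with
    | none => rfl
    | some y => exact hM p.1 x x' y p.2 hx
  · intro ε hε
    have hcomp : IsCompact {u : O × Q.Pt × W | ε ≤ ‖f u‖} := by
      have h1 := f.zero_at_infty'
      have h2 : ∀ᶠ u in Filter.cocompact (O × Q.Pt × W), ‖f u‖ < ε := by
        have h3 := h1.norm
        rw [norm_zero] at h3
        exact h3.eventually_lt_const hε
      rw [Filter.eventually_iff, Filter.mem_cocompact] at h2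
      obtain ⟨K, hK, hKs⟩ := h2
      refine hK.of_isClosed_subset (isClosed_le continuous_const (map_continuous f).norm) ?_
      intro u hu
      by_contra hn
      have h4 : ‖f u‖ < ε := hKs hn
      exact absurd h4 (not_lt.2 hu)
    have hcont : Continuous fun u : O × Q.Pt × W => ((o u.1).1, u.2.2) :=
      (continuous_fst.comp (ho.continuous.comp continuous_fst)).prodMk
        (continuous_snd.comp continuous_snd)
    refine ⟨_, hcomp.image hcont, fun p hp x F => ?_⟩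
    rw [r2_val]
    cases l.lab Q q p.1 F with
    | none => simpa using hε.le
    | some y =>
      show ‖vf o f (p.1, x) y p.2‖ ≤ ε
      unfold vf
      cases hz : oinv o (p.1, x) with
      | none => simpa using hε.le
      | some z =>
        have hz' := oinv_eq_some hz
        show ‖f (z, y, p.2)‖ ≤ ε
        by_contra hn
        apply hp
        refine ⟨(z, y, p.2), (not_le.1 hn).le, ?_⟩
        show ((o z).1, p.2) = p
        rw [hz']

variable [T2Space B] [T2Space W] [ContinuousConstSMul Γ O] [ContinuousConstSMul Γ W]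

instance instContPt : ContinuousConstSMul Γ Q.Pt :=
  ⟨fun g => Continuous.subtype_mk (continuous_subtype_val.const_smul g) _⟩

/-- The labelled representation. -/
def ρ2 (hq : ∀ (g : Γ) i, q (g • i) = g • q i) {o : O → B × Pow I}
    (ho : Topology.IsOpenEmbedding o) (he : ∀ (g : Γ) x, o (g • x) = g • o x)
    (hO : ∀ z, ∃ i, 0 < l.lam (o z).1 i ∧ ((o z).2 i = true ↔ A.θ (o z).1 i = 0))
    (c : ℕ × Bs I ≃ ℕ) (e : I ↪ ℕ) : Rp Γ (O × Q.Pt × W) (B × W) I c e :=
  (r2 l Q hq ho.injective he).rp c e (dense2 Q ho)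
    fun _ ⟨M, hM⟩ => ⟨M, good2 l Q hq ho he hO hM⟩

theorem ρ2_gen (hq : ∀ (g : Γ) i, q (g • i) = g • q i) {o : O → B × Pow I}
    (ho : Topology.IsOpenEmbedding o) (he : ∀ (g : Γ) x, o (g • x) = g • o x)
    (hO : ∀ z, ∃ i, 0 < l.lam (o z).1 i ∧ ((o z).2 i = true ↔ A.θ (o z).1 i = 0))
    (c : ℕ × Bs I ≃ ℕ) (e : I ↪ ℕ) {f : C₀(O × Q.Pt × W, ℂ)} {M : Finset I}
    (hM : Cy2 Q W o M f) (g : Γ) (i j : ℕ) (hm : gen f g i j ∈ cp Γ (O × Q.Pt × W)) :
    (ρ2 l Q hq ho he hO c e).Θ ⟨gen f g i j, hm⟩ =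
      cov c (sact e) g i j ((r2 l Q hq ho.injective he).nM M f) :=
  Rdr.rp_gen c e (dense2 Q ho) (fun _ ⟨M, hM⟩ => ⟨M, good2 l Q hq ho he hO hM⟩)
    (⟨M, hM⟩ : f ∈ {f | ∃ M, Cy2 Q W o M f}) (good2 l Q hq ho he hO hM) g i j hm

end Pool.Agent.Lib.MP_aa9b81_an.Mc
end

end
end

section

/-!
# The machine, part H6: the labelled representation extends the representation of the subsets
-/

open scoped ENNReal Topology ZeroAtInfty
open Function Set

noncomputable section

namespace Pool.Agent.Lib.MP_aa9b81_an.Mc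

open Cut Hs

variable {Γ B I E : Type} [Group Γ] [TopologicalSpace B] [MulAction Γ B] [MulAction Γ I]
  [AddCommGroup E] [Module ℝ E] [TopologicalSpace E] [T2Space E]
  [ContinuousAdd E] [ContinuousSMul ℝ E] [DistribMulAction Γ E] [SMulCommClass Γ ℝ E]
  [ContinuousConstSMul Γ E] {O W : Type} [TopologicalSpace O] [MulAction Γ O]
  [TopologicalSpace W] [MulAction Γ W] {A : Ang Γ B I} (l : Lam A) (Q : ConvexSpace Γ E)
  {q : I → Q.Pt} [DecidableEq I]

private theorem H6b_vf {o : O → B × Pow I} {f : C₀(O × W, ℂ)} {F : C₀((B × Pow I) × W, ℂ)}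
    {f₂ : C₀(O × Q.Pt × W, ℂ)}
    (hF : ∀ z w, F (z, w) = optf f ((oinv o z).map fun x => (x, w)))
    (hf₂ : ∀ z y w, f₂ (z, y, w) = f (z, w)) (z : B × Pow I) (y : Q.Pt) (w : W) :
    vf o f₂ z y w = F (z, w) := by
  rw [hF]
  unfold vf
  cases oinv o z with
  | none => rfl
  | some x => exact hf₂ x y w

private theorem H6b_dia {ψ₁ ψ₂ : Bs I → ℂ} {C : ℝ} (hC : 0 ≤ C) (h1 : ∀ b, ‖ψ₁ b‖ ≤ C)
    (h2 : ∀ b, ‖ψ₂ b‖ ≤ C) : dia ψ₁ = dia ψ₂ + dia fun b => ψ₁ b - ψ₂ b := by
  refine ContinuousLinearMap.ext fun ξ => ?_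
  ext b
  have h3 : ∀ b, ‖ψ₁ b - ψ₂ b‖ ≤ C + C := fun b =>
    (norm_sub_le _ _).trans (add_le_add (h1 b) (h2 b))
  have e : ((dia ψ₂ + dia fun b => ψ₁ b - ψ₂ b) ξ : Bs I → ℂ) b =
      (dia ψ₂ ξ : Bs I → ℂ) b + (dia (fun b => ψ₁ b - ψ₂ b) ξ : Bs I → ℂ) b := rfl
  rw [e, dia_apply hC h1, dia_apply hC h2, dia_apply (add_nonneg hC hC) h3]
  ring

/-- PROOF: `FB.ext`; at `p` termwise in `m` (`nM_apply`): with `ψ₂ b = (lab p.1 b.F).elim 0 (F ((p.1, ind m), p.2))` (`r2_val`; `vf o f₂ z y w =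
F (z, w)` for all `y`) and `ψ₁ b = F ((p.1, ind m), p.2)`, `EM * dia ψ₁ - EM * dia ψ₂ = EM * dia ψ` with
`ψ b = F (..) * [there is no label for b.F]`. If `F (..) = 0` it is `0`. Otherwise `key2` for `f₂` (any `y : Q.Pt`, `Q.nonempty`) gives
`i ∈ M` with `0 < lam p.1 i`, `i ∈ m ↔ θ = 0`; for `i ∈ b.F` the sum of the `lam` over `b.F` is positive, so `ψ b = 0`:
`EM_mul_dia_zero` (`l.ext`). -/
theorem nM_r2 (hq : ∀ (g : Γ) i, q (g • i) = g • q i) {o : O → B × Pow I} (ho : Injective o)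
    (he : ∀ (g : Γ) x, o (g • x) = g • o x)
    (hO : ∀ z, ∃ i, 0 < l.lam (o z).1 i ∧ ((o z).2 i = true ↔ A.θ (o z).1 i = 0))
    {M : Finset I} {f : C₀(O × W, ℂ)} {F : C₀((B × Pow I) × W, ℂ)} {f₂ : C₀(O × Q.Pt × W, ℂ)}
    (hF : ∀ z w, F (z, w) = optf f ((oinv o z).map fun x => (x, w)))
    (hf₂ : ∀ z y w, f₂ (z, y, w) = f (z, w))
    (hM : ∀ b x x' w, (∀ i ∈ M, x i = x' i) → F ((b, x), w) = F ((b, x'), w)) :
    (r2 l Q hq ho he).nM M f₂ = (r1 A).nM M F := by
  refine FB.ext fun p => ?_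
  rw [Rdr.nM_apply, Rdr.nM_apply]
  refine Finset.sum_congr rfl fun m _ => ?_
  have hψ₂ : ∀ b : Bs I, optf f₂ ((r2 l Q hq ho he).R p (ind m) b.F) =
      (l.lab Q q p.1 b.F).elim 0 fun _ => F ((p.1, ind m), p.2) := by
    intro b
    rw [r2_val l Q hq ho he f₂ p (ind m) b.F]
    cases l.lab Q q p.1 b.F with
    | none => rfl
    | some y => exact H6b_vf Q hF hf₂ _ y _
  have hψ₁ : ∀ b : Bs I, optf F ((r1 A).R p (ind m) b.F) = F ((p.1, ind m), p.2) := fun _ => rfl
  simp only [hψ₂, hψ₁]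
  by_cases hz : F ((p.1, ind m), p.2) = 0
  · have e : (fun b : Bs I => (l.lab Q q p.1 b.F).elim 0 fun _ => F ((p.1, ind m), p.2)) =
        fun _ : Bs I => F ((p.1, ind m), p.2) := by
      funext b
      cases l.lab Q q p.1 b.F with
      | none => exact hz.symm
      | some y => rfl
    rw [e]
  · obtain ⟨y₀, hy₀⟩ := Q.nonempty
    have hcy : Cy2 Q W o M f₂ := by
      intro b x x' y w h
      rw [H6b_vf Q hF hf₂, H6b_vf Q hF hf₂]
      exact hM b x x' w h
    have hne : vf o f₂ (p.1, ind m) (⟨y₀, hy₀⟩ : Q.Pt) p.2 ≠ 0 := by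
      rw [H6b_vf Q hF hf₂]
      exact hz
    obtain ⟨i, hiM, hi0, him⟩ := key2 l Q hO hcy hne
    have hC : 0 ≤ ‖F‖ := norm_nonneg F
    have hb1 : ∀ _ : Bs I, ‖F ((p.1, ind m), p.2)‖ ≤ ‖F‖ := fun _ =>
      F.toBCF.norm_coe_le_norm _
    have hb2 : ∀ b : Bs I, ‖((l.lab Q q p.1 b.F).elim 0 fun _ => F ((p.1, ind m), p.2) : ℂ)‖ ≤
        ‖F‖ := by
      intro b
      cases l.lab Q q p.1 b.F with
      | none =>
        change ‖(0 : ℂ)‖ ≤ ‖F‖
        rw [norm_zero]
        exact hC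
      | some y => exact hb1 b
    rw [H6b_dia hC hb1 hb2, mul_add]
    have h0 : EM M m (ang (A.fst.θ p)) * (dia fun b : Bs I => F ((p.1, ind m), p.2) -
        ((l.lab Q q p.1 b.F).elim 0 fun _ => F ((p.1, ind m), p.2))) = 0 := by
      refine EM_mul_dia_zero hiM ?_ (add_nonneg hC hC)
        (fun b => (norm_sub_le _ _).trans (add_le_add (hb1 b) (hb2 b))) ?_
      · rcases l.ext p.1 i hi0 with h1 | h1
        · left
          refine ⟨him.2 h1, ?_⟩
          unfold ang
          change A.θ p.1 i * _ = 0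
          rw [h1, zero_mul]
        · right
          refine ⟨fun h2 => ?_, ?_⟩
          · rw [him.1 h2] at h1
            exact zero_ne_one h1
          · unfold ang
            change A.θ p.1 i * _ = _
            rw [h1, one_mul]
      · intro b hb
        have hpos : 0 < ∑ i ∈ b.F, l.lam p.1 i :=
          Finset.sum_pos' (fun j _ => l.nonneg _ _) ⟨i, hb, hi0⟩
        have hl : ∃ y, l.lab Q q p.1 b.F = some y := by
          unfold Lam.lab
          rw [dif_pos hpos]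
          exact ⟨_, rfl⟩
        obtain ⟨y, hy⟩ := hl
        rw [hy]
        exact sub_self _
    rw [h0, add_zero]

end Pool.Agent.Lib.MP_aa9b81_an.Mc
end
end

section

/-!
# The machine, part H6: the labelled representation extends the representation of the subsets
-/

open scoped ENNReal Topology ZeroAtInfty
open Function Set

noncomputable section

namespace Pool.Agent.Lib.MP_aa9b81_an.Mc

open Cut Hs

variable {Γ B I E : Type} [Group Γ] [TopologicalSpace B] [MulAction Γ B] [MulAction Γ I]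
  [AddCommGroup E] [Module ℝ E] [TopologicalSpace E] [T2Space E]
  [ContinuousAdd E] [ContinuousSMul ℝ E] [DistribMulAction Γ E] [SMulCommClass Γ ℝ E]
  [ContinuousConstSMul Γ E] {O W : Type} [TopologicalSpace O] [MulAction Γ O]
  [TopologicalSpace W] [MulAction Γ W] {A : Ang Γ B I} (l : Lam A) (Q : ConvexSpace Γ E)
  {q : I → Q.Pt} [DecidableEq I]

variable [T2Space B] [T2Space W] [T2Space O] [LocallyCompactSpace O] [LocallyCompactSpace W]
  [ContinuousConstSMul Γ B] [ContinuousConstSMul Γ O] [ContinuousConstSMul Γ W]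

/-- PROOF: `Rp.ind` for `a ∈ cp Γ (O × W)` with `dense3`. Generators: `pull (gen f g i j) = gen f₂ g i j`, `f₂ = pullC (prQ ..) f`
(`Cut.pull_gen`, `isProperMap_prQ`), `extF (gen f g i j) = gen F g i j` (`extF_gen`, `exists_extO`, `oinv_prodMap`), `ρ2_gen`
(`Cy2` for `f₂` from the cylinder property of `F`), `ρ1_gen`, `nM_r2`. Sums; limits: `norm_extF`, `pull_norm_le`, `norm_le`. -/
theorem ρ2_pull (hq : ∀ (g : Γ) i, q (g • i) = g • q i) {o : O → B × Pow I}
    (ho : Topology.IsOpenEmbedding o) (he : ∀ (g : Γ) x, o (g • x) = g • o x)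
    (hO : ∀ z, ∃ i, 0 < l.lam (o z).1 i ∧ ((o z).2 i = true ↔ A.θ (o z).1 i = 0))
    (c : ℕ × Bs I ≃ ℕ) (e : I ↪ ℕ) (a : Fam Γ (O × W)) (ha : a ∈ cp Γ (O × W))
    (hm : pull (prQ Q O W) a ∈ cp Γ (O × Q.Pt × W))
    (hm' : extF (Prod.map o (id : W → W)) a ∈ cp Γ ((B × Pow I) × W)) :
    (ρ2 l Q hq ho he hO c e).Θ ⟨pull (prQ Q O W) a, hm⟩ =
      (ρ1 A c e).Θ ⟨extF (Prod.map o (id : W → W)) a, hm'⟩ := by
  have hP : IsProperMap (prQ Q O W) := isProperMap_prQ Q
  have hPe : ∀ (g : Γ) (z : O × Q.Pt × W), prQ Q O W (g • z) = g • prQ Q O W z := prQ_smul Q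
  have ho2 : Topology.IsOpenEmbedding (Prod.map o (id : W → W)) :=
    ho.prodMap Topology.IsOpenEmbedding.id
  have he2 : ∀ (g : Γ) (x : O × W), Prod.map o (id : W → W) (g • x) =
      g • Prod.map o (id : W → W) x := fun g x => Prod.ext (he g x.1) rfl
  have key : ∀ a : cp Γ (O × W), ∀ (hm : pull (prQ Q O W) (a : Fam Γ (O × W)) ∈
      cp Γ (O × Q.Pt × W)) (hm' : extF (Prod.map o (id : W → W)) (a : Fam Γ (O × W)) ∈
        cp Γ ((B × Pow I) × W)),
      (ρ2 l Q hq ho he hO c e).Θ ⟨pull (prQ Q O W) (a : Fam Γ (O × W)), hm⟩ =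
        (ρ1 A c e).Θ ⟨extF (Prod.map o (id : W → W)) (a : Fam Γ (O × W)), hm'⟩ := by
    refine Rp.ind (dense3 ho) ?_ ?_ ?_ ?_
    · rintro f ⟨M, hM⟩ g i j hm0 hm hm'
      obtain ⟨F, hF⟩ := exists_extO ho2 f
      have hF2 : ∀ z w, F (z, w) = optf f ((oinv o z).map fun x => (x, w)) := by
        intro z w
        rw [hF, oinv_prodMap ho.injective]
      have e1 : pull (prQ Q O W) (gen f g i j : Fam Γ (O × W)) =
          gen (pullC (prQ Q O W) hP f) g i j := pull_gen hP hPe f g i j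
      have e2 : extF (Prod.map o (id : W → W)) (gen f g i j : Fam Γ (O × W)) = gen F g i j :=
        extF_gen ho2.injective he2 hF g i j
      have hm1 : gen (pullC (prQ Q O W) hP f) g i j ∈ cp Γ (O × Q.Pt × W) := by
        rw [← e1]
        exact hm
      have hm2 : gen F g i j ∈ cp Γ ((B × Pow I) × W) := by
        rw [← e2]
        exact hm'
      have hvf : ∀ z y w, vf o (pullC (prQ Q O W) hP f) z y w =
          optf f ((oinv o z).map fun x => (x, w)) := by
        intro z y w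
        unfold vf
        cases oinv o z with
        | none => rfl
        | some x => rfl
      have hC2 : Cy2 Q W o M (pullC (prQ Q O W) hP f) := by
        intro b x x' y w hx
        rw [hvf, hvf]
        exact hM b x x' w hx
      have hC1 : ∀ b x x' w, (∀ i ∈ M, x i = x' i) → F ((b, x), w) = F ((b, x'), w) := by
        intro b x x' w hx
        rw [hF2, hF2]
        exact hM b x x' w hx
      have h1 : (⟨pull (prQ Q O W) (gen f g i j : Fam Γ (O × W)), hm⟩ : cp Γ (O × Q.Pt × W)) =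
          ⟨gen (pullC (prQ Q O W) hP f) g i j, hm1⟩ := Subtype.ext e1
      have h2 : (⟨extF (Prod.map o (id : W → W)) (gen f g i j : Fam Γ (O × W)), hm'⟩ :
          cp Γ ((B × Pow I) × W)) = ⟨gen F g i j, hm2⟩ := Subtype.ext e2
      refine (congrArg (ρ2 l Q hq ho he hO c e).Θ h1).trans ?_
      refine Eq.trans ?_ (congrArg (ρ1 A c e).Θ h2).symm
      rw [ρ2_gen l Q hq ho he hO c e hC2 g i j hm1, ρ1_gen A c e hC1 g i j hm2]
      exact congrArg (cov c (sact e) g i j) (nM_r2 l Q hq ho.injective he hO hF2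
        (fun _ _ _ => rfl) hC1)
    · intro hm hm'
      have h1 : (⟨pull (prQ Q O W) ((0 : cp Γ (O × W)) : Fam Γ (O × W)), hm⟩ :
          cp Γ (O × Q.Pt × W)) = 0 := Subtype.ext (map_zero _)
      have h2 : (⟨extF (Prod.map o (id : W → W)) ((0 : cp Γ (O × W)) : Fam Γ (O × W)), hm'⟩ :
          cp Γ ((B × Pow I) × W)) = 0 := Subtype.ext (map_zero _)
      rw [h1, h2, map_zero, map_zero]
    · intro a b ha hb hm hm'
      have ma := pull_mem_cp hP hPe (a : Fam Γ (O × W)) a.2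
      have mb := pull_mem_cp hP hPe (b : Fam Γ (O × W)) b.2
      have na := extF_mem_cp ho2 he2 (a : Fam Γ (O × W)) a.2
      have nb := extF_mem_cp ho2 he2 (b : Fam Γ (O × W)) b.2
      have h1 : (⟨pull (prQ Q O W) ((a + b : cp Γ (O × W)) : Fam Γ (O × W)), hm⟩ :
          cp Γ (O × Q.Pt × W)) = ⟨_, ma⟩ + ⟨_, mb⟩ := Subtype.ext (map_add _ _ _)
      have h2 : (⟨extF (Prod.map o (id : W → W)) ((a + b : cp Γ (O × W)) : Fam Γ (O × W)), hm'⟩ :
          cp Γ ((B × Pow I) × W)) = ⟨_, na⟩ + ⟨_, nb⟩ := Subtype.ext (map_add _ _ _)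
      rw [h1, h2, map_add, map_add, ha ma na, hb mb nb]
    · intro a hlim hm hm'
      rw [← sub_eq_zero, ← norm_le_zero_iff]
      refine le_of_forall_pos_le_add fun ε hε => ?_
      obtain ⟨b, hb, hab⟩ := hlim (ε / 2) (half_pos hε)
      have mb := pull_mem_cp hP hPe (b : Fam Γ (O × W)) b.2
      have nb := extF_mem_cp ho2 he2 (b : Fam Γ (O × W)) b.2
      have h1 := (ρ2 l Q hq ho he hO c e).sub_le
        (⟨pull (prQ Q O W) (a : Fam Γ (O × W)), hm⟩ : cp Γ (O × Q.Pt × W)) ⟨_, mb⟩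
      have h2 := (ρ1 (W := W) A c e).sub_le (⟨_, nb⟩ : cp Γ ((B × Pow I) × W))
        (⟨extF (Prod.map o (id : W → W)) (a : Fam Γ (O × W)), hm'⟩ : cp Γ ((B × Pow I) × W))
      have h3 : ‖pull (prQ Q O W) (a : Fam Γ (O × W)) - pull (prQ Q O W) (b : Fam Γ (O × W))‖ ≤
          ε / 2 := by
        rw [← map_sub]
        exact (pull_norm_le _ _).trans hab
      have h4 : ‖extF (Prod.map o (id : W → W)) (b : Fam Γ (O × W)) -
          extF (Prod.map o (id : W → W)) (a : Fam Γ (O × W))‖ ≤ ε / 2 := by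
        rw [← map_sub, norm_extF ho2.injective, norm_sub_rev]
        exact hab
      have h5 := hb mb nb
      rw [zero_add, ← sub_add_sub_cancel _ ((ρ2 l Q hq ho he hO c e).Θ ⟨_, mb⟩)]
      refine (norm_add_le _ _).trans ?_
      rw [h5]
      rw [h5] at h1
      have h6 := h1.trans h3
      have h7 := h2.trans h4
      linarith
  exact key ⟨a, ha⟩ hm hm'

end Pool.Agent.Lib.MP_aa9b81_an.Mc
end
end
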