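import Pool.Agent.Lib.MP_aa9b81_an.Mg.G015
import Pool.Agent.Lib.MP_aa9b81_an.Mg.G023
import Pool.Agent.Lib.MP_aa9b81_an.CutM.B
import Pool.Agent.Lib.MP_aa9b81_an.Mg.G008
import Pool.Agent.Lib.MP_aa9b81_an.Mg.G017
import Pool.Agent.Lib.MP_aa9b81_an.Mg.G028
import Pool.Agent.Lib.MP_aa9b81_an.Mg.G029
import Pool.Agent.Lib.MP_aa9b81_an.TC.Pow

section

/-!
# Rotated sites, part L2b: the vacuum and the rest
-/

open scoped ENNReal Topology ZeroAtInfty
open Function Filter Set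

noncomputable section

set_option linter.unusedSectionVars false

namespace Pool.Agent.Lib.MP_aa9b81_an.Rc

open Cut Hs

variable {Γ C E : Type} [Group Γ] [MulAction Γ C] [DecidableEq C]
  [AddCommGroup E] [Module ℝ E] [TopologicalSpace E] [T2Space E] [ContinuousAdd E]
  [ContinuousSMul ℝ E] [DistribMulAction Γ E] [SMulCommClass Γ ℝ E] [ContinuousConstSMul Γ E]

variable {Y : Type} [TopologicalSpace Y] [MulAction Γ Y] [T2Space Y] [LocallyCompactSpace Y]
  [ContinuousConstSMul Γ Y]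

/-- PROOF: `cov_ge`: `sx h (φ Pv) = ge (φ h) vac vac`, `g⁻¹ vac = vac`, `ep e g ∅ = 1` (empty product), `co_gen`. -/
theorem cov_sx_Pv (c : ℕ × Bs C ≃ ℕ) (e : C ↪ ℕ) (h : C₀(Y, ℂ)) (z : ℂ) (g : Γ) (i j : ℕ) :
    (cov c (sact e) g i j (sx h (z • Pv)) : Fam Γ Y) = co (inj_vac c) (gen (z • h) g i j) := by
  have h1 : (sx h (z • Pv) : FB (Bs C) Y) = ge (z • h) Bs.vac Bs.vac := by
    ext1 y
    rw [sx_apply, ge_apply]
    change h y • (z • Pv) = (z • h y) • Eu Bs.vac Bs.vac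
    rw [smul_smul, smul_eq_mul, mul_comm]
    rfl
  have h2 : g⁻¹ • (Bs.vac : Bs C) = Bs.vac := Bs.ext (Finset.map_empty _) (Finset.map_empty _)
  rw [h1, cov_ge, h2, sact_ε, co_gen]
  have h3 : ep e g (Bs.vac : Bs C).S = 1 := Finset.prod_empty
  rw [h3, one_smul]

private theorem L2b_isProperMap_fst (Q : ConvexSpace Γ E) :
    IsProperMap (Prod.fst : Pow C × Q.Pt → Pow C) := isProperMap_fst_of_compactSpace

private theorem L2b_dia (Q : ConvexSpace Γ E) {q : C → Q.Pt}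
    (hq : ∀ (g : Γ) i, q (g • i) = g • q i) (φ : C₀(Pow C, ℂ)) :
    (dia (fun b => optf φ ((ϖ0 Γ C).f b)) : BL (Bs C)) = φ (Pow.zero C) • Pv +
      dia fun b => optf (pullC Prod.fst (L2b_isProperMap_fst Q) φ) ((ϖ1 Q hq).f b) := by
  refine ContinuousLinearMap.ext fun ξ => ?_
  ext b
  change (dia (fun b => optf φ ((ϖ0 Γ C).f b)) ξ : Bs C → ℂ) b =
    φ (Pow.zero C) * (Pv ξ : Bs C → ℂ) b + (dia (fun b =>
      optf (pullC Prod.fst (L2b_isProperMap_fst Q) φ) ((ϖ1 Q hq).f b)) ξ : Bs C → ℂ) b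
  have hPv : (Pv ξ : Bs C → ℂ) b = (if b.F = ∅ then 1 else 0) * (ξ : Bs C → ℂ) b := by
    rw [Pv_eq]
    exact dia_apply (φ := fun b : Bs C => if b.F = ∅ then (1 : ℂ) else 0) zero_le_one
      (fun b => by split_ifs <;> simp) ξ b
  rw [dia_apply (norm_nonneg φ) (fun b => norm_optf_le φ _), hPv,
    dia_apply (norm_nonneg _) (fun b => norm_optf_le _ _)]
  by_cases hb : b.F = ∅
  · have h1 : (ϖ1 Q hq).f b = none := dif_neg (by rw [hb]; exact Finset.not_nonempty_empty)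
    have h2 : (ϖ0 Γ C).f b = some (Pow.zero C) := by
      change some (indP b.F) = some (Pow.zero C)
      rw [hb]
      congr 1
    rw [h1, h2, optf_none, optf_some, if_pos hb]
    ring
  · have h1 : (ϖ1 Q hq).f b = some (indP b.F, avgQ Q q b.F (Finset.nonempty_iff_ne_empty.2 hb)) :=
      dif_pos (Finset.nonempty_iff_ne_empty.2 hb)
    have h2 : (ϖ0 Γ C).f b = some (indP b.F) := rfl
    rw [h1, h2, optf_some, optf_some, if_neg hb, pullC_apply]
    ring

private theorem L2b_lim {R R' : Type} [NormedRing R] [NormedAlgebra ℂ R] [NormedAddCommGroup R']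
    {A : NonUnitalSubalgebra ℂ R} {F : A → R'} (hsub : ∀ a b, F (a - b) = F a - F b) {M : ℝ}
    (hM : 0 ≤ M) (hn : ∀ a, ‖F a‖ ≤ M * ‖(a : R)‖) {a : A}
    (h : ∀ ε : ℝ, 0 < ε → ∃ b : A, F b = 0 ∧ ‖(a : R) - b‖ ≤ ε) : F a = 0 := by
  have hM' : 0 < M + 1 := by linarith
  rw [← norm_le_zero_iff]
  refine le_of_forall_pos_le_add fun ε hε => ?_
  obtain ⟨b, hb, hab⟩ := h (ε / (M + 1)) (div_pos hε hM')
  have h1 : F a = F (a - b) := by rw [hsub, hb, sub_zero]
  rw [h1, zero_add]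
  have h2 : ‖((a - b : A) : R)‖ ≤ ε / (M + 1) := hab
  have h3 : M * (ε / (M + 1)) ≤ ε := by
    rw [mul_div_assoc', div_le_iff₀ hM']
    nlinarith
  exact (hn (a - b)).trans ((mul_le_mul_of_nonneg_left h2 hM).trans h3)

/-- PROOF: `((ϖ0 ..).rep e).Th_induction`. Generator `(h, φ, g, i, j)` with `φ` arbitrary: `dia (optf φ (ϖ0 b)) = φ(∅) Pv + dia (optf (φ ∘ fst) (ϖ1 b))` (`Pv_eq`;
`indP ∅ = Pow.zero C`), so the left side is `cov (sx h (φ(∅) Pv)) + cov (sx h (..))` (`cov_add`, `cov_sx_Pv`); `pull_gen`: `pull s0 (gen (tp h φ)) = gen (φ(∅) h)`,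
`pull (id × fst) (gen (tp h φ)) = gen (tp h (φ ∘ fst))`. All maps are additive and contractive (`norm_co_le`, `pull_norm_le`, `norm_Th_le`). -/
theorem Th_split (Q : ConvexSpace Γ E) {q : C → Q.Pt} (hq : ∀ (g : Γ) i, q (g • i) = g • q i)
    (c : ℕ × Bs C ≃ ℕ) (e : C ↪ ℕ) (a : cp Γ (Y × Pow C)) :
    ((ϖ0 Γ C).rep e).Th c a = co (inj_vac c) (pull (s0 C Y) (a : Fam Γ (Y × Pow C))) +
      ((ϖ1 Q hq).rep e).Th c ⟨pull (Prod.map id Prod.fst) (a : Fam Γ (Y × Pow C)),
        pull_mem_cp (isProperMap_id_fst Q (Pow C)) (fun _ _ => rfl) a.1 a.2⟩ := by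
  set F : cp Γ (Y × Pow C) → Fam Γ Y := fun a => ((ϖ0 Γ C).rep e).Th c a -
    (co (inj_vac c) (pull (s0 C Y) (a : Fam Γ (Y × Pow C))) +
      ((ϖ1 Q hq).rep e).Th c ⟨pull (Prod.map id Prod.fst) (a : Fam Γ (Y × Pow C)),
        pull_mem_cp (isProperMap_id_fst Q (Pow C)) (fun _ _ => rfl) a.1 a.2⟩) with hF
  have hadd : ∀ a b, F (a + b) = F a + F b := by
    intro a b
    have h1 : (⟨pull (Prod.map id Prod.fst) ((a + b : cp Γ (Y × Pow C)) : Fam Γ (Y × Pow C)),
        pull_mem_cp (isProperMap_id_fst Q (Pow C)) (fun _ _ => rfl) _ (a + b).2⟩ :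
          cp Γ (Y × (Pow C × Q.Pt))) =
        ⟨pull (Prod.map id Prod.fst) (a : Fam Γ (Y × Pow C)),
          pull_mem_cp (isProperMap_id_fst Q (Pow C)) (fun _ _ => rfl) a.1 a.2⟩ +
        ⟨pull (Prod.map id Prod.fst) (b : Fam Γ (Y × Pow C)),
          pull_mem_cp (isProperMap_id_fst Q (Pow C)) (fun _ _ => rfl) b.1 b.2⟩ :=
      Subtype.ext (map_add (pull (Prod.map id Prod.fst)) _ _)
    have h2 : pull (s0 C Y) ((a + b : cp Γ (Y × Pow C)) : Fam Γ (Y × Pow C)) =
        pull (s0 C Y) (a : Fam Γ (Y × Pow C)) + pull (s0 C Y) (b : Fam Γ (Y × Pow C)) :=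
      map_add (pull (s0 C Y)) _ _
    simp only [hF]
    rw [h1, h2, map_add, map_add, map_add]
    abel
  have hzero : F 0 = 0 := by
    have h := hadd 0 0
    rw [add_zero] at h
    exact left_eq_add.1 h
  have hsub : ∀ a b, F (a - b) = F a - F b := by
    intro a b
    have h := hadd (a - b) b
    rw [sub_add_cancel] at h
    rw [h, add_sub_cancel_right]
  have hnorm : ∀ a, ‖F a‖ ≤ 3 * ‖(a : Fam Γ (Y × Pow C))‖ := by
    intro a
    have h1 := ((ϖ0 Γ C).rep e).norm_Th_le c a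
    have h2 := (norm_co_le (inj_vac c) (pull (s0 C Y) (a : Fam Γ (Y × Pow C)))).trans
      (pull_norm_le (s0 C Y) (a : Fam Γ (Y × Pow C)))
    have h3 := (((ϖ1 Q hq).rep e).norm_Th_le c (⟨pull (Prod.map id Prod.fst)
      (a : Fam Γ (Y × Pow C)), pull_mem_cp (isProperMap_id_fst Q (Pow C)) (fun _ _ => rfl)
        a.1 a.2⟩ : cp Γ (Y × (Pow C × Q.Pt)))).trans
      (pull_norm_le (Prod.map id Prod.fst) (a : Fam Γ (Y × Pow C)))
    have h4 := norm_sub_le (((ϖ0 Γ C).rep e).Th c a)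
      (co (inj_vac c) (pull (s0 C Y) (a : Fam Γ (Y × Pow C))) +
      ((ϖ1 Q hq).rep e).Th c ⟨pull (Prod.map id Prod.fst) (a : Fam Γ (Y × Pow C)),
        pull_mem_cp (isProperMap_id_fst Q (Pow C)) (fun _ _ => rfl) a.1 a.2⟩)
    have h5 := norm_add_le (co (inj_vac c) (pull (s0 C Y) (a : Fam Γ (Y × Pow C))))
      (((ϖ1 Q hq).rep e).Th c ⟨pull (Prod.map id Prod.fst) (a : Fam Γ (Y × Pow C)),
        pull_mem_cp (isProperMap_id_fst Q (Pow C)) (fun _ _ => rfl) a.1 a.2⟩)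
    simp only [hF]
    linarith
  have key : ∀ a, F a = 0 := by
    refine ((ϖ0 Γ C).rep e).Th_induction (p := fun a => F a = 0) ?_ hzero
      (fun a b ha hb => by rw [hadd, ha, hb, add_zero])
      (fun a h => L2b_lim hsub (by norm_num) hnorm h)
    rintro ⟨h, ⟨φ, X⟩, g, i, j⟩ hd hm
    have hX : X = dia fun b => optf φ ((ϖ0 Γ C).f b) := hd
    set φ' : C₀(Pow C × Q.Pt, ℂ) := pullC Prod.fst (L2b_isProperMap_fst Q) φ with hφ'
    set X' : BL (Bs C) := dia fun b => optf φ' ((ϖ1 Q hq).f b) with hX'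
    have hsrc : (⟨h, (φ, X), g, i, j⟩ : LDat Γ Y (Pow C) (Bs C)).src = gen (tp h φ) g i j := rfl
    have e1 : pull (s0 C Y) (gen (tp h φ) g i j : Fam Γ (Y × Pow C)) =
        gen (φ (Pow.zero C) • h) g i j := by
      rw [pull_gen isProperMap_s0 s0_smul]
      congr 1
      ext y
      change tp h φ (y, Pow.zero C) = φ (Pow.zero C) * h y
      rw [tp_apply, mul_comm]
    have e2 : pull (Prod.map id Prod.fst) (gen (tp h φ) g i j : Fam Γ (Y × Pow C)) =
        (gen (tp h φ') g i j : Fam Γ (Y × (Pow C × Q.Pt))) := by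
      rw [pull_gen (isProperMap_id_fst Q (Pow C)) (fun _ _ => rfl)]
      congr 1
      ext y
      change tp h φ (y.1, y.2.1) = tp h φ' y
      rw [tp_apply, tp_apply]
      rfl
    have hm' : (⟨h, (φ', X'), g, i, j⟩ : LDat Γ Y (Pow C × Q.Pt) (Bs C)).src ∈
        cp Γ (Y × (Pow C × Q.Pt)) := by
      change (gen (tp h φ') g i j : Fam Γ (Y × (Pow C × Q.Pt))) ∈ _
      rw [← e2]
      exact pull_mem_cp (isProperMap_id_fst Q (Pow C)) (fun _ _ => rfl) _ hm
    have e3 : (⟨pull (Prod.map id Prod.fst) (gen (tp h φ) g i j : Fam Γ (Y × Pow C)),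
        pull_mem_cp (isProperMap_id_fst Q (Pow C)) (fun _ _ => rfl) _ hm⟩ :
          cp Γ (Y × (Pow C × Q.Pt))) =
        ⟨(⟨h, (φ', X'), g, i, j⟩ : LDat Γ Y (Pow C × Q.Pt) (Bs C)).src, hm'⟩ :=
      Subtype.ext e2
    have t0 := ((ϖ0 Γ C).rep e).Th_src c hd hm
    have t1 := ((ϖ1 Q hq).rep e).Th_src (d := ⟨h, (φ', X'), g, i, j⟩) c
      (show ((φ', X') : C₀(Pow C × Q.Pt, ℂ) × BL (Bs C)) ∈ RM (ϖ1 Q hq) from rfl) hm'
    simp only [hF]
    rw [t0]
    change cov c (sact e) g i j (sx h X) - (co (inj_vac c)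
      (pull (s0 C Y) (gen (tp h φ) g i j : Fam Γ (Y × Pow C))) +
      ((ϖ1 Q hq).rep e).Th c ⟨pull (Prod.map id Prod.fst)
        (gen (tp h φ) g i j : Fam Γ (Y × Pow C)),
        pull_mem_cp (isProperMap_id_fst Q (Pow C)) (fun _ _ => rfl) _ hm⟩) = 0
    rw [e3, t1, e1]
    change cov c (sact e) g i j (sx h X) - (co (inj_vac c) (gen (φ (Pow.zero C) • h) g i j) +
      cov c (sact e) g i j (sx h X')) = 0
    rw [hX, L2b_dia Q hq φ, sx_add, cov_add, cov_sx_Pv, sub_self]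
  exact sub_eq_zero.1 (key a)

open Classical in
private theorem L2b_Pv_apply (ζ : L2 (Bs C)) (b : Bs C) :
    (Pv ζ : Bs C → ℂ) b = if b = Bs.vac then (ζ : Bs C → ℂ) Bs.vac else 0 := Eu_apply _ _ ζ b

private theorem L2b_vac (Q : ConvexSpace Γ E) {q : C → Q.Pt}
    (hq : ∀ (g : Γ) i, q (g • i) = g • q i) : (ϖ1 Q hq).f (Bs.vac : Bs C) = none := by
  have h : ∀ b : Bs C, ¬ b.F.Nonempty → (ϖ1 Q hq).f b = none := fun b hb => dif_neg hb
  exact h _ Finset.not_nonempty_empty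

private theorem L2b_m1_em (c : ℕ × Bs C ≃ ℕ) (y : Y) :
    (m1 c (cst (Pv : BL (Bs C))) : Fam Γ Y) y * em (fun k => c (k, Bs.vac)) =
      em (fun k => c (k, Bs.vac)) := by
  refine ContinuousLinearMap.ext fun ξ => ext_sk c fun s k => ?_
  change sk c s k ((m1 c (cst (Pv : BL (Bs C))) : Fam Γ Y) y (em (fun k => c (k, Bs.vac)) ξ)) = _
  rw [sk_m1, cst_apply]
  ext b
  rw [L2b_Pv_apply]
  split_ifs with hb
  · rw [hb]
  · rw [sk_apply, em_apply_of_notMem (inj_vac c)]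
    intro m hm
    have h1 := c.injective hm
    exact hb (Prod.ext_iff.1 h1).2.symm

private theorem L2b_pr_m1 (c : ℕ × Bs C ≃ ℕ) (y : Y) :
    pr (fun k => c (k, Bs.vac)) * (m1 c (cst (Pv : BL (Bs C))) : Fam Γ Y) y =
      pr (fun k => c (k, Bs.vac)) := by
  refine ContinuousLinearMap.ext fun ξ => ?_
  ext ⟨s, k⟩
  change (pr (fun k => c (k, Bs.vac)) ((m1 c (cst (Pv : BL (Bs C))) : Fam Γ Y) y ξ) :
    Γ × ℕ → ℂ) (s, k) = (pr (fun k => c (k, Bs.vac)) ξ : Γ × ℕ → ℂ) (s, k)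
  rw [pr_apply (inj_vac c), pr_apply (inj_vac c), ← sk_apply, ← sk_apply, sk_m1, cst_apply,
    L2b_Pv_apply, if_pos rfl]

/-- PROOF: for elements of `cp` near to generators: `co (gen f g i j) = cov (ge f vac vac)` up to the sign `1` (`cov_sx_Pv`), `m1_mul_cov`, `Pv * Pv = Pv`,
`cov_mul_m1`, `W_g Pv W_{g⁻¹} = Pv` (`Ad_Pv`); or in coordinates (`co_coord`, `co_coord_of_notMem`, `sk_m1`) for all `a`. -/
theorem Pv_mul_co (c : ℕ × Bs C ≃ ℕ) (a : Fam Γ Y) :
    (m1 c (cst (Pv : BL (Bs C))) : Fam Γ Y) * co (inj_vac c) a = co (inj_vac c) a ∧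
      co (inj_vac c) a * (m1 c (cst (Pv : BL (Bs C))) : Fam Γ Y) = co (inj_vac c) a := by
  constructor
  · ext1 y
    rw [Fam.mul_apply, co_apply, ← mul_assoc, ← mul_assoc, L2b_m1_em]
  · ext1 y
    rw [Fam.mul_apply, co_apply, mul_assoc, L2b_pr_m1]

/-- PROOF: `Th_induction`: `Pv * dia (optf φ (ϖ1 b)) = 0`, as `ϖ1 vac = none`; `m1_mul_cov`, `cov_mul_m1`, `Ad_Pv`. -/
theorem Pv_mul_Th (Q : ConvexSpace Γ E) {q : C → Q.Pt} (hq : ∀ (g : Γ) i, q (g • i) = g • q i)
    (c : ℕ × Bs C ≃ ℕ) (e : C ↪ ℕ) (a : cp Γ (Y × (Pow C × Q.Pt))) :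
    m1 c (cst Pv) * ((ϖ1 Q hq).rep e).Th c a = 0 ∧
      ((ϖ1 Q hq).rep e).Th c a * m1 c (cst Pv) = 0 := by
  have h1 : ∀ a, m1 c (cst Pv) * ((ϖ1 Q hq).rep e).Th (Y := Y) c a = 0 := by
    refine ((ϖ1 Q hq).rep e).Th_induction
      (p := fun a => m1 c (cst Pv) * ((ϖ1 Q hq).rep e).Th (Y := Y) c a = 0) ?_ ?_ ?_ ?_
    · rintro ⟨h, ⟨φ, X⟩, g, i, j⟩ hd hm
      have hX : X = dia fun b => optf φ ((ϖ1 Q hq).f b) := hd
      rw [((ϖ1 Q hq).rep e).Th_src c hd hm]
      change m1 c (cst Pv) * cov c (sact e) g i j (sx h X) = 0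
      have h0 : (Pv * X : BL (Bs C)) = 0 := by
        refine ContinuousLinearMap.ext fun ξ => ?_
        ext b
        change (Pv (X ξ) : Bs C → ℂ) b = 0
        rw [L2b_Pv_apply, hX, dia_apply (norm_nonneg φ) (fun b => norm_optf_le φ _)]
        have h2 : (ϖ1 Q hq).f Bs.vac = none := L2b_vac Q hq
        rw [h2, optf_none, zero_mul, ite_self]
      rw [m1_mul_cov, ← sx_mul', h0]
      have h3 : (sx h (0 : BL (Bs C)) : FB (Bs C) Y) = 0 := by
        ext1 y
        rw [sx_apply, smul_zero]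
        rfl
      rw [h3, cov_zero]
    · rw [map_zero, mul_zero]
    · intro a b ha hb
      rw [map_add, mul_add, ha, hb, add_zero]
    · intro a h
      refine L2b_lim (F := fun a => m1 c (cst Pv) * ((ϖ1 Q hq).rep e).Th (Y := Y) c a)
        (M := ‖(m1 c (cst (Pv : BL (Bs C))) : Fam Γ Y)‖) (fun a b => ?_) (norm_nonneg _)
        (fun a => ?_) h
      · rw [map_sub, mul_sub]
      · exact (norm_mul_le _ _).trans (mul_le_mul_of_nonneg_left
          (((ϖ1 Q hq).rep e).norm_Th_le c a) (norm_nonneg _))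
  have h2 : ∀ a, ((ϖ1 Q hq).rep e).Th (Y := Y) c a * m1 c (cst Pv) = 0 := by
    refine ((ϖ1 Q hq).rep e).Th_induction
      (p := fun a => ((ϖ1 Q hq).rep e).Th (Y := Y) c a * m1 c (cst Pv) = 0) ?_ ?_ ?_ ?_
    · rintro ⟨h, ⟨φ, X⟩, g, i, j⟩ hd hm
      have hX : X = dia fun b => optf φ ((ϖ1 Q hq).f b) := hd
      rw [((ϖ1 Q hq).rep e).Th_src c hd hm]
      change cov c (sact e) g i j (sx h X) * m1 c (cst Pv) = 0
      have h0 : (X * Pv : BL (Bs C)) = 0 := by
        refine ContinuousLinearMap.ext fun ξ => ?_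
        ext b
        change (X (Pv ξ) : Bs C → ℂ) b = 0
        rw [hX, dia_apply (norm_nonneg φ) (fun b => norm_optf_le φ _), L2b_Pv_apply]
        split_ifs with hb
        · have h2 : (ϖ1 Q hq).f b = none := by
            rw [hb]
            exact L2b_vac Q hq
          rw [h2, optf_none, zero_mul]
        · rw [mul_zero]
      rw [cov_mul_m1, Ad_Pv, ← sx_mul, h0]
      have h3 : (sx h (0 : BL (Bs C)) : FB (Bs C) Y) = 0 := by
        ext1 y
        rw [sx_apply, smul_zero]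
        rfl
      rw [h3, cov_zero]
    · rw [map_zero, zero_mul]
    · intro a b ha hb
      rw [map_add, add_mul, ha, hb, add_zero]
    · intro a h
      refine L2b_lim (F := fun a => ((ϖ1 Q hq).rep e).Th (Y := Y) c a * m1 c (cst Pv))
        (M := ‖(m1 c (cst (Pv : BL (Bs C))) : Fam Γ Y)‖) (fun a b => ?_) (norm_nonneg _)
        (fun a => ?_) h
      · rw [map_sub, sub_mul]
      · rw [mul_comm ‖(m1 c (cst (Pv : BL (Bs C))) : Fam Γ Y)‖]
        exact (norm_mul_le _ _).trans (mul_le_mul_of_nonneg_right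
          (((ϖ1 Q hq).rep e).norm_Th_le c a) (norm_nonneg _))
  exact ⟨h1 a, h2 a⟩

end Pool.Agent.Lib.MP_aa9b81_an.Rc
end
end

section

/-!
# Rotated sites, part L2c: the end point 0 of the path
-/

open scoped ENNReal Topology ZeroAtInfty
open Function Filter Set

noncomputable section

set_option linter.unusedSectionVars false

namespace Pool.Agent.Lib.MP_aa9b81_an.Rc

open Cut Hs

section PullGL

variable {Γ Y Z : Type} [Group Γ] [TopologicalSpace Y] [MulAction Γ Y] [TopologicalSpace Z]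
  [MulAction Γ Z]

/-- The pull back on `GL1`. -/
def pullG {p : Z → Y} (hp : IsProperMap p) (he : ∀ (g : Γ) z, p (g • z) = g • p z)
    (u : GL1 (cp Γ Y)) : GL1 (cp Γ Z) := ⟨pullU p u, BA1_mem_GL1 hp he u.2⟩

end PullGL

variable {Γ C E : Type} [Group Γ] [MulAction Γ C] [DecidableEq C]
  [AddCommGroup E] [Module ℝ E] [TopologicalSpace E] [T2Space E] [ContinuousAdd E]
  [ContinuousSMul ℝ E] [DistribMulAction Γ E] [SMulCommClass Γ ℝ E] [ContinuousConstSMul Γ E]

variable {Y : Type} [TopologicalSpace Y] [MulAction Γ Y] [T2Space Y] [LocallyCompactSpace Y]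
  [ContinuousConstSMul Γ Y]

/-- PROOF: `Units.ext`; with `x = u - 1`, `x' = u⁻¹ - 1`, `Z0`, `Z1` the two cycles: `Z0.d u = (1 + P Θ0(x)) (1 + T Q Θ0(x') T)`, `Θ0(x) = co(s0* x) + Θ1(pr* x)` (`Th_split`),
`P co(..) = co(..)`, `Q co(..) = 0` (`Pv_mul_co`, `Pp_mul_Pv`, `Pm_mul_Pv`), so the second factor is `1 + T Q Θ1(pr* x') T` and the first is
`(1 + co(s0* x)) (1 + P Θ1(pr* x))`, since `co(..) P Θ1(..) = co(..) Pv P Θ1(..) = co(..) Pv Θ1(..) = 0` (`Pv_mul_Th`). -/
theorem d_zero (Q : ConvexSpace Γ E) {q : C → Q.Pt} (hq : ∀ (g : Γ) i, q (g • i) = g • q i)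
    (w : Wt Γ C) (c : ℕ × Bs C ≃ ℕ) (e : C ↪ ℕ) (u : GL1 (cp Γ (Y × Pow C))) :
    (((ϖ0 Γ C).rep e).cyc ((ϖ0 Γ C).ok e) w c).d u =
      extUnit (co (inj_vac c)) (pullU (s0 C Y) (u : (Fam Γ (Y × Pow C))ˣ)) *
        ((((ϖ1 Q hq).rep e).cyc ((ϖ1 Q hq).ok e) w c).d
          (pullG (isProperMap_id_fst Q (Pow C)) (fun _ _ => rfl) u)) := by
  apply Units.ext
  set Z0 := ((ϖ0 Γ C).rep e).cyc (Y := Y) ((ϖ0 Γ C).ok e) w c with hZ0
  set Z1 := ((ϖ1 Q hq).rep e).cyc (Y := Y) ((ϖ1 Q hq).ok e) w c with hZ1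
  set N : Fam Γ Y := m1 c (cst (Pv : BL (Bs C))) with hN
  set K : cp Γ (Y × Pow C) → Fam Γ Y := fun a =>
    co (inj_vac c) (pull (s0 C Y) (a : Fam Γ (Y × Pow C))) with hK
  set q1 : cp Γ (Y × Pow C) → cp Γ (Y × (Pow C × Q.Pt)) := fun a =>
    ⟨pull (Prod.map id Prod.fst) (a : Fam Γ (Y × Pow C)),
        pull_mem_cp (isProperMap_id_fst Q (Pow C)) (fun _ _ => rfl) a.1 a.2⟩ with hq1
  have hsplit : ∀ a, Z0.Θ a = K a + Z1.Θ (q1 a) := fun a => Th_split Q hq c e a
  have hNK : ∀ a, N * K a = K a := fun a => (Pv_mul_co c _).1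
  have hKN : ∀ a, K a * N = K a := fun a => (Pv_mul_co c _).2
  have hNT : ∀ a, N * Z1.Θ a = 0 := fun a => (Pv_mul_Th Q hq c e a).1
  have hPN : Z0.Pe * N = N := by
    change m1 c (cst Pp) * m1 c (cst Pv) = m1 c (cst Pv)
    rw [← m1_mul]
    congr 1
    ext1 y
    exact Pp_mul_Pv
  have hQN : Z0.Qo * N = 0 := by
    change m1 c (cst Pm) * m1 c (cst Pv) = 0
    rw [← m1_mul]
    have h1 : (cst Pm * cst Pv : FB (Bs C) Y) = 0 := by
      ext1 y
      exact Pm_mul_Pv
    rw [h1]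
    ext1 y
    refine ContinuousLinearMap.ext fun ξ => ext_sk c fun s k => ?_
    rw [sk_m1]
    change (0 : BL (Bs C)) (sk c s k ξ) = sk c s k 0
    rw [map_zero]
    rfl
  have hα : ∀ a, Z0.α a = K a + Z1.α (q1 a) := by
    intro a
    rw [Cyc.α_apply, Cyc.α_apply, hsplit, mul_add, ← hNK a, ← mul_assoc, hPN]
    rfl
  have hβ : ∀ a, Z0.β a = Z1.β (q1 a) := by
    intro a
    rw [Cyc.β_apply, Cyc.β_apply, hsplit, mul_add, add_mul, mul_assoc Z0.T Z0.Qo (K a), ← hNK a,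
      ← mul_assoc Z0.Qo N, hQN, zero_mul, mul_zero, zero_mul, zero_add]
    rfl
  have hKα : ∀ a b, K a * Z1.α b = 0 := by
    intro a b
    rw [Cyc.α_apply, Z1.hPΘ, ← hKN a, mul_assoc (K a), ← mul_assoc N, hNT, zero_mul, mul_zero]
  have hu1 : q1 ⟨((u.1 : (Fam Γ (Y × Pow C))ˣ) : Fam Γ (Y × Pow C)) - 1, u.2.1⟩ =
      ⟨((pullG (isProperMap_id_fst Q (Pow C)) (fun _ _ => rfl) u).1 : Fam Γ (Y × (Pow C × Q.Pt))) - 1,
        (pullG (isProperMap_id_fst Q (Pow C)) (fun _ _ => rfl) u).2.1⟩ :=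
    Subtype.ext (by
      change pull (Prod.map id Prod.fst) ((u.1 : Fam Γ (Y × Pow C)) - 1) =
        pull (Prod.map id Prod.fst) (u.1 : Fam Γ (Y × Pow C)) - 1
      rw [map_sub, map_one])
  have hu2 : q1 ⟨((u.1⁻¹ : (Fam Γ (Y × Pow C))ˣ) : Fam Γ (Y × Pow C)) - 1, u.2.2⟩ =
      ⟨(((pullG (isProperMap_id_fst Q (Pow C)) (fun _ _ => rfl) u).1⁻¹ :
        (Fam Γ (Y × (Pow C × Q.Pt)))ˣ) : Fam Γ (Y × (Pow C × Q.Pt))) - 1,
        (pullG (isProperMap_id_fst Q (Pow C)) (fun _ _ => rfl) u).2.2⟩ :=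
    Subtype.ext (by
      change pull (Prod.map id Prod.fst) (((u.1⁻¹ : (Fam Γ (Y × Pow C))ˣ) :
        Fam Γ (Y × Pow C)) - 1) = pull (Prod.map id Prod.fst) ((u.1⁻¹ :
        (Fam Γ (Y × Pow C))ˣ) : Fam Γ (Y × Pow C)) - 1
      rw [map_sub, map_one])
  have hK1 : ((extUnit (co (inj_vac c)) (pullU (s0 C Y) (u : (Fam Γ (Y × Pow C))ˣ)) :
      (Fam Γ Y)ˣ) : Fam Γ Y) =
      1 + K ⟨((u.1 : (Fam Γ (Y × Pow C))ˣ) : Fam Γ (Y × Pow C)) - 1, u.2.1⟩ := by
    change 1 + co (inj_vac c) (pull (s0 C Y) (u.1 : Fam Γ (Y × Pow C)) - 1) =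
      1 + co (inj_vac c) (pull (s0 C Y) ((u.1 : Fam Γ (Y × Pow C)) - 1))
    rw [map_sub (pull (s0 C Y)), map_one]
  rw [Units.val_mul, hK1, Cyc.d, Cyc.d, dU_val, dU_val, hα, hβ, hu1, hu2]
  set A1 := Z1.α ⟨((pullG (isProperMap_id_fst Q (Pow C)) (fun _ _ => rfl) u).1 :
    Fam Γ (Y × (Pow C × Q.Pt))) - 1,
        (pullG (isProperMap_id_fst Q (Pow C)) (fun _ _ => rfl) u).2.1⟩ with hA1
  rw [← mul_assoc]
  congr 1
  rw [mul_add, mul_one, add_mul, one_mul, hKα, add_zero, add_assoc]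

/-- PROOF: the cycles have the same `Θ` (`Th_congr`, `LR_zero_subset`), `Pe`, `Qo`, `T`. -/
theorem d_LR_zero {I : Type} [MulAction Γ I] (𝔉 : Fibr Γ C I) (hn : ∀ i, (𝔉.fib i).Nonempty)
    (w : Wt Γ C) (c : ℕ × Bs C ≃ ℕ) (e : C ↪ ℕ) (u : GL1 (cp Γ (Y × Pow C))) :
    ((LR 𝔉 hn e 0).cyc (LR_ok 𝔉 hn e 0) w c).d u =
      (((ϖ0 Γ C).rep e).cyc ((ϖ0 Γ C).ok e) w c).d u := by
  have h : ∀ a : cp Γ (Y × Pow C), (LR 𝔉 hn e 0).Th c a = ((ϖ0 Γ C).rep e).Th c a :=
    fun a => Th_congr (LR_zero_subset 𝔉 hn e) c a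
  apply Units.ext
  rw [Cyc.d, Cyc.d, dU_val, dU_val, Cyc.α_apply, Cyc.α_apply, Cyc.β_apply, Cyc.β_apply]
  change (1 + m1 c (cst Pp) * (LR 𝔉 hn e 0).Th c _) * (1 + m1 c (cst (T1 w e)) * m1 c (cst Pm) *
    (LR 𝔉 hn e 0).Th c _ * m1 c (cst (T1 w e))) = (1 + m1 c (cst Pp) *
    ((ϖ0 Γ C).rep e).Th c _) * (1 + m1 c (cst (T1 w e)) * m1 c (cst Pm) *
    ((ϖ0 Γ C).rep e).Th c _ * m1 c (cst (T1 w e)))
  rw [h, h]

/-- PROOF: `pullG .. u ∈ E1` by `hK`; so its image under the cycle of `ϖ1` is in `E1 AE ≤ E1 cp` (`Cyc.d_mem_E1`, `E1_mono`, `AE_le_cp`; `isMul_Th`, `isMul_m1_cst`,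
`exact_Th`, `LMap.near`, `norm_Th_le`). With `h`, `d_LR_zero`, `d_zero`: `extUnit (co ..) (pullU s0 u) ∈ E1`, and `E1_of_co`. -/
theorem E1_of_d_zero {I : Type} [MulAction Γ I] (𝔉 : Fibr Γ C I) (hn : ∀ i, (𝔉.fib i).Nonempty)
    (Q : ConvexSpace Γ E) {q : C → Q.Pt} (hq : ∀ (g : Γ) i, q (g • i) = g • q i)
    (hK : GL1 (cp Γ (Y × (Pow C × Q.Pt))) ≤ E1 (cp Γ (Y × (Pow C × Q.Pt))))
    (w : Wt Γ C) (c : ℕ × Bs C ≃ ℕ) (e : C ↪ ℕ) (u : GL1 (cp Γ (Y × Pow C)))
    (h : ((LR 𝔉 hn e 0).cyc (LR_ok 𝔉 hn e 0) w c).d u ∈ E1 (cp Γ Y)) :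
    pullU (s0 C Y) (u : (Fam Γ (Y × Pow C))ˣ) ∈ E1 (cp Γ Y) := by
  have h1 : ((pullG (isProperMap_id_fst Q (Pow C)) (fun _ _ => rfl) u :
      GL1 (cp Γ (Y × (Pow C × Q.Pt)))) : (Fam Γ (Y × (Pow C × Q.Pt)))ˣ) ∈
      E1 (cp Γ (Y × (Pow C × Q.Pt))) :=
    hK (pullG (isProperMap_id_fst Q (Pow C)) (fun _ _ => rfl) u).2
  have h2 : (((ϖ1 Q hq).rep e).cyc (Y := Y) ((ϖ1 Q hq).ok e) w c).d
      (pullG (isProperMap_id_fst Q (Pow C)) (fun _ _ => rfl) u) ∈ E1 (cp Γ Y) := by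
    refine E1_mono (AE_le_cp c (sact e : SAct Γ (Bs C)) (U1 C Y)) ?_
    refine Cyc.d_mem_E1 _ isClosed_cp (isClosed_AE c (sact e : SAct Γ (Bs C)) (U1 C Y)) ?_ ?_ ?_ ?_
      ?_ h1
    · exact isMul_m1_cst (FinM.dia (M := 1) zero_le_one fun b => by split_ifs <;> simp) c
    · exact isMul_m1_cst (FinM.Cl e (CB_cw w)) c
    · exact fun a => ((ϖ1 Q hq).rep e).isMul_Th ((ϖ1 Q hq).ok e) c a
    · exact fun a => ((ϖ1 Q hq).rep e).norm_Th_le c a
    · exact fun a => ((ϖ1 Q hq).rep e).exact_Th ((ϖ1 Q hq).ok e) ((ϖ1 Q hq).near w e) c a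
  rw [d_LR_zero, d_zero Q hq] at h
  have h3 : extUnit (co (inj_vac c)) (pullU (s0 C Y) (u : (Fam Γ (Y × Pow C))ˣ)) ∈
      E1 (cp Γ Y) := by
    have h4 := mul_mem h (inv_mem h2)
    rwa [mul_inv_cancel_right] at h4
  exact E1_of_co (inj_vac c) (BA1_mem_GL1 isProperMap_s0 s0_smul u.2) h3

end Pool.Agent.Lib.MP_aa9b81_an.Rc
end
end

section

/-!
# The machine, part H2: paths of parameters
-/

open scoped ENNReal Topology ZeroAtInfty
open Function Set

noncomputable section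

namespace Pool.Agent.Lib.MP_aa9b81_an.Mc

open Cut Hs

variable {Γ B W I : Type} [Group Γ] [TopologicalSpace B] [MulAction Γ B] [TopologicalSpace W]
  [MulAction Γ W] [MulAction Γ I]

variable [DecidableEq I]

variable [T2Space B] [T2Space W] [ContinuousConstSMul Γ B] [ContinuousConstSMul Γ W]

/-- PROOF: `Rp.ind dense1`: for the generators `ρ1_gen`, `continuous_nM`, `cov_sub`, `norm_cov_le`; `map_add`; uniform limits of
continuous functions (`Rp0.sub_le`; `continuous_of_uniform_approx_of_continuous`). -/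
theorem continuous_ρ1 (A : AngP Γ B I) (c : ℕ × Bs I ≃ ℕ) (e : I ↪ ℕ)
    (a : cp Γ ((B × Pow I) × W)) : Continuous fun t => (ρ1 (A.at t) c e).Θ a := by
  refine Rp.ind (dom := dom1 B W I) dense1
    (p := fun a => Continuous fun t => (ρ1 (A.at t) c e).Θ a) ?_ ?_ ?_ ?_ a
  · rintro f ⟨M, hM⟩ g i j hm
    have h1 : (fun t => (ρ1 (A.at t) c e).Θ ⟨gen f g i j, hm⟩) =
        fun t => cov c (sact e) g i j ((r1 (W := W) (A.at t)).nM M f) := by
      funext t
      exact ρ1_gen (A.at t) c e hM g i j hm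
    rw [h1]
    have h2 : LipschitzWith 1 (cov (P := B × W) c (sact e) g i j) := by
      refine LipschitzWith.of_dist_le_mul fun n n' => ?_
      rw [dist_eq_norm, dist_eq_norm, ← cov_sub, NNReal.coe_one, one_mul]
      exact norm_cov_le c (sact e) g i j (n - n')
    exact h2.continuous.comp (continuous_nM (W := W) A hM)
  · have h1 : (fun t => (ρ1 (W := W) (A.at t) c e).Θ 0) = fun _ => 0 := by
      funext t
      rw [map_zero]
    rw [h1]
    exact continuous_const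
  · intro a b ha hb
    have h1 : (fun t => (ρ1 (W := W) (A.at t) c e).Θ (a + b)) =
        fun t => (ρ1 (A.at t) c e).Θ a + (ρ1 (A.at t) c e).Θ b := by
      funext t
      rw [map_add]
    rw [h1]
    exact ha.add hb
  · intro a ha
    refine continuous_of_uniform_approx_of_continuous fun u hu => ?_
    obtain ⟨ε, hε, hεu⟩ := Metric.mem_uniformity_dist.1 hu
    obtain ⟨b, hb, hab⟩ := ha (ε / 2) (half_pos hε)
    refine ⟨_, hb, fun t => hεu ?_⟩
    rw [dist_eq_norm]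
    exact lt_of_le_of_lt ((ρ1 (A.at t) c e).toRp0.sub_le a b) (lt_of_le_of_lt hab (half_lt_self hε))

/-- PROPERTY (path). PROOF: `Rp.D_path` for `ρ t = ρ1 (A.at (projIcc 0 1 t)) c e`: `continuous_projIcc`. -/
theorem ρ1_path (A : AngP Γ B I) (w : Wt Γ I) (c : ℕ × Bs I ≃ ℕ) (e : I ↪ ℕ)
    (u : GL1 (cp Γ ((B × Pow I) × W))) :
    ((ρ1 (A.at 0) c e).D w u)⁻¹ * (ρ1 (A.at 1) c e).D w u ∈ E1 (cp Γ (B × W)) := by
  have h := Rp.D_path (fun t : ℝ => ρ1 (W := W) (A.at (projIcc 0 1 zero_le_one t)) c e) w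
    (fun a => ((continuous_ρ1 A c e a).comp continuous_projIcc).continuousOn) u
  have h0 : projIcc (0 : ℝ) 1 zero_le_one 0 = 0 := projIcc_left zero_le_one
  have h1 : projIcc (0 : ℝ) 1 zero_le_one 1 = 1 := projIcc_right zero_le_one
  simp only [h0, h1] at h
  exact h

end Pool.Agent.Lib.MP_aa9b81_an.Mc
end
end

section

section
/-!
# The machine, part H7: the label lemma
-/

open scoped ENNReal Topology ZeroAtInfty
open Function Set

noncomputable section

namespace Pool.Agent.Lib.MP_aa9b81_an.Mc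

open Cut Hs

variable {Γ B I E : Type} [Group Γ] [TopologicalSpace B] [MulAction Γ B] [MulAction Γ I]
  [AddCommGroup E] [Module ℝ E] [TopologicalSpace E] [T2Space E]
  [ContinuousAdd E] [ContinuousSMul ℝ E] [DistribMulAction Γ E] [SMulCommClass Γ ℝ E]
  [ContinuousConstSMul Γ E] {O V : Type} [TopologicalSpace O] [MulAction Γ O]
  [TopologicalSpace V] [MulAction Γ V] {A : Ang Γ B I} (l : Lam A) (Q : ConvexSpace Γ E)
  {q : I → Q.Pt} [DecidableEq I] [T2Space B] [T2Space V] [T2Space O] [LocallyCompactSpace O]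
  [LocallyCompactSpace V] [ContinuousConstSMul Γ B] [ContinuousConstSMul Γ O]
  [ContinuousConstSMul Γ V]

/-- PROPERTY (d), the label lemma. PROOF: `v = pullU (prQ Q O (Cone Q × V)) u` is in `GL1` (`Cut.pull_mem_cp`, `isProperMap_prQ`), so in `E1`
(`GL1_le_E1_lab`), so `(ρ2 ..).D w v ∈ E1` (`Rp.D_E1`), and it is equal to the left side: `Rp0.D_congr`, `ρ2_pull`
(`pull` and `extF` of `u - 1`, `u⁻¹ - 1`; `extUnit` has the value `1 + extF (u - 1)`). -/
theorem D_label (w : Wt Γ I) (hq : ∀ (g : Γ) i, q (g • i) = g • q i) {o : O → B × Pow I}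
    (ho : Topology.IsOpenEmbedding o) (he : ∀ (g : Γ) x, o (g • x) = g • o x)
    (hO : ∀ z, ∃ i, 0 < l.lam (o z).1 i ∧ ((o z).2 i = true ↔ A.θ (o z).1 i = 0))
    (c : ℕ × Bs I ≃ ℕ) (e : I ↪ ℕ) {u : (Fam Γ (O × (Cone Q × V)))ˣ}
    (hu : u ∈ GL1 (cp Γ (O × (Cone Q × V))))
    (hu' : extUnit (extF (Prod.map o (id : Cone Q × V → Cone Q × V))) u ∈
      GL1 (cp Γ ((B × Pow I) × (Cone Q × V)))) :
    (ρ1 A c e).D w ⟨extUnit (extF (Prod.map o (id : Cone Q × V → Cone Q × V))) u, hu'⟩ ∈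
      E1 (cp Γ (B × (Cone Q × V))) := by
  have hlc : LocallyCompactSpace (Cone Q) := cone_locallyCompact Q
  have hp : IsProperMap (prQ Q O (Cone Q × V)) := isProperMap_prQ Q
  have hv : pullU (prQ Q O (Cone Q × V)) u ∈ GL1 (cp Γ (O × Q.Pt × (Cone Q × V))) :=
    GL1_map (pull_mem_cp hp (fun _ _ => rfl)) hu
  have hE := GL1_le_E1_lab Q hv
  have h1 := (ρ2 l Q hq ho he hO c e).D_E1 w ⟨pullU (prQ Q O (Cone Q × V)) u, hv⟩ hE
  have h2 : (ρ2 l Q hq ho he hO c e).D w ⟨pullU (prQ Q O (Cone Q × V)) u, hv⟩ =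
      (ρ1 A c e).D w
        ⟨extUnit (extF (Prod.map o (id : Cone Q × V → Cone Q × V))) u, hu'⟩ := by
    refine Rp0.D_congr _ _ w _ _ ?_ ?_
    · have e1 : pull (prQ Q O (Cone Q × V)) ((u : Fam Γ (O × (Cone Q × V))) - 1) =
          ((pullU (prQ Q O (Cone Q × V)) u : (Fam Γ (O × Q.Pt × (Cone Q × V)))ˣ) :
            Fam Γ (O × Q.Pt × (Cone Q × V))) - 1 := by
        rw [map_sub, map_one]
        rfl
      have e2 : extF (Prod.map o (id : Cone Q × V → Cone Q × V))
          ((u : Fam Γ (O × (Cone Q × V))) - 1) =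
          ((extUnit (extF (Prod.map o (id : Cone Q × V → Cone Q × V))) u :
            (Fam Γ ((B × Pow I) × (Cone Q × V)))ˣ) : Fam Γ ((B × Pow I) × (Cone Q × V))) - 1 :=
        (add_sub_cancel_left _ _).symm
      have h3 := ρ2_pull l Q hq ho he hO c e ((u : Fam Γ (O × (Cone Q × V))) - 1) hu.1
        (by rw [e1]; exact hv.1) (by rw [e2]; exact hu'.1)
      simp only [e1, e2] at h3
      exact h3
    · have e1 : pull (prQ Q O (Cone Q × V))
          (((u⁻¹ : (Fam Γ (O × (Cone Q × V)))ˣ) : Fam Γ (O × (Cone Q × V))) - 1) =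
          (((pullU (prQ Q O (Cone Q × V)) u)⁻¹ : (Fam Γ (O × Q.Pt × (Cone Q × V)))ˣ) :
            Fam Γ (O × Q.Pt × (Cone Q × V))) - 1 := by
        rw [map_sub, map_one]
        rfl
      have e2 : extF (Prod.map o (id : Cone Q × V → Cone Q × V))
          (((u⁻¹ : (Fam Γ (O × (Cone Q × V)))ˣ) : Fam Γ (O × (Cone Q × V))) - 1) =
          (((extUnit (extF (Prod.map o (id : Cone Q × V → Cone Q × V))) u)⁻¹ :
            (Fam Γ ((B × Pow I) × (Cone Q × V)))ˣ) : Fam Γ ((B × Pow I) × (Cone Q × V))) - 1 :=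
        (add_sub_cancel_left _ _).symm
      have h3 := ρ2_pull l Q hq ho he hO c e
        (((u⁻¹ : (Fam Γ (O × (Cone Q × V)))ˣ) : Fam Γ (O × (Cone Q × V))) - 1) hu.2
        (by rw [e1]; exact hv.2) (by rw [e2]; exact hu'.2)
      simp only [e1, e2] at h3
      exact h3
  rw [← h2]
  exact h1

end Pool.Agent.Lib.MP_aa9b81_an.Mc
end

end


section
/-!
# The machine
-/

open scoped ENNReal Topology ZeroAtInfty
open Function Set

noncomputable section

namespace Pool.Agent.Lib.MP_aa9b81_an.Mc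

open Cut Hs

variable {Γ B I E : Type} [Group Γ] [TopologicalSpace B] [MulAction Γ B] [MulAction Γ I]
  [AddCommGroup E] [Module ℝ E] [TopologicalSpace E] [T2Space E]
  [ContinuousAdd E] [ContinuousSMul ℝ E] [DistribMulAction Γ E] [SMulCommClass Γ ℝ E]
  [ContinuousConstSMul Γ E] {V : Type} [TopologicalSpace V] [MulAction Γ V]
  [T2Space B] [T2Space V] [LocallyCompactSpace V] [ContinuousConstSMul Γ B]
  [ContinuousConstSMul Γ V]

open Classical in
/-- The difference map as a map of all units (`1` off `GL1`). -/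
def DM {X P : Type} [TopologicalSpace X] [MulAction Γ X] [TopologicalSpace P] [MulAction Γ P]
    [ContinuousConstSMul Γ X] [DecidableEq I] {c : ℕ × Bs I ≃ ℕ} {e : I ↪ ℕ}
    (ρ : Rp Γ X P I c e) (w : Wt Γ I) (u : (Fam Γ X)ˣ) : (Fam Γ P)ˣ :=
  if hu : u ∈ GL1 (cp Γ X) then ρ.D w ⟨u, hu⟩ else 1

omit [T2Space B] [ContinuousConstSMul Γ B] [TopologicalSpace B] [MulAction Γ B] in
theorem DM_eq {X P : Type} [TopologicalSpace X] [MulAction Γ X] [TopologicalSpace P]
    [MulAction Γ P] [ContinuousConstSMul Γ X] [DecidableEq I] {c : ℕ × Bs I ≃ ℕ} {e : I ↪ ℕ}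
    (ρ : Rp Γ X P I c e) (w : Wt Γ I) {u : (Fam Γ X)ˣ} (hu : u ∈ GL1 (cp Γ X)) :
    DM ρ w u = ρ.D w ⟨u, hu⟩ := dif_pos hu

omit [Group Γ] [MulAction Γ I] in
theorem exists_code (I : Type) [Countable I] : Nonempty (ℕ × Bs I ≃ ℕ) := by
  have h1 : Countable (Bs I) :=
    inferInstanceAs (Countable {b : Finset I × Finset I // b.2 ⊆ b.1})
  exact nonempty_equiv_of_countable

/-- THE MACHINE. -/
theorem machine [Countable Γ] [Countable I] (Q : ConvexSpace Γ E) {q : I → Q.Pt}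
    (hq : ∀ (g : Γ) i, q (g • i) = g • q i) (A : AngP Γ B I) :
    ∃ D : Fin 2 → (Fam Γ ((B × Pow I) × Cone Q × V))ˣ → (Fam Γ (B × Cone Q × V))ˣ,
      (∀ k, ∀ u ∈ GL1 (cp Γ ((B × Pow I) × Cone Q × V)),
        D k u ∈ GL1 (cp Γ (B × Cone Q × V))) ∧
      (∀ k, ∀ u ∈ E1 (cp Γ ((B × Pow I) × Cone Q × V)), D k u ∈ E1 (cp Γ (B × Cone Q × V))) ∧
      (∀ k, ∀ u ∈ GL1 (cp Γ ((B × Pow I) × Cone Q × V)),
        ∀ v ∈ GL1 (cp Γ ((B × Pow I) × Cone Q × V)), D k v ∈ E1 (cp Γ (B × Cone Q × V)) →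
          D k (u * v) * (D k u)⁻¹ ∈ E1 (cp Γ (B × Cone Q × V))) ∧
      (∀ u ∈ GL1 (cp Γ ((B × Pow I) × Cone Q × V)),
        (D 0 u)⁻¹ * D 1 u ∈ E1 (cp Γ (B × Cone Q × V))) ∧
      (∀ k, ∀ u ∈ GL1 (cp Γ (B × Cone Q × V)),
        u⁻¹ * D k (pullU (fun x : (B × Pow I) × Cone Q × V => (x.1.1, x.2)) u) ∈
          E1 (cp Γ (B × Cone Q × V))) ∧
      ∀ (k : Fin 2) (l : Lam (A.at (if k = 0 then 0 else 1))) (O : Type) [TopologicalSpace O]
        [T2Space O] [LocallyCompactSpace O] [MulAction Γ O] [ContinuousConstSMul Γ O]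
        (o : O → B × Pow I), Topology.IsOpenEmbedding o → (∀ (g : Γ) x, o (g • x) = g • o x) →
        (∀ z, ∃ i, 0 < l.lam (o z).1 i ∧
          ((o z).2 i = true ↔ A.θ (o z).1 (if k = 0 then 0 else 1) i = 0)) →
        ∀ u ∈ GL1 (cp Γ (O × Cone Q × V)),
          D k (extUnit (extF (Prod.map o (id : Cone Q × V → Cone Q × V))) u) ∈
            E1 (cp Γ (B × Cone Q × V)) := by
  classical
  obtain ⟨c⟩ := exists_code I
  obtain ⟨e⟩ : Nonempty (I ↪ ℕ) :=
    ⟨⟨(exists_injective_nat I).choose, (exists_injective_nat I).choose_spec⟩⟩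
  obtain ⟨w⟩ := exists_wt Γ I
  have hlc : LocallyCompactSpace (Cone Q) := cone_locallyCompact Q
  let ρ : Fin 2 → Rp Γ ((B × Pow I) × Cone Q × V) (B × Cone Q × V) I c e := fun k =>
    ρ1 (A.at (if k = 0 then 0 else 1)) c e
  refine ⟨fun k => DM (ρ k) w, ?_, ?_, ?_, ?_, ?_, ?_⟩
  · intro k u hu
    change DM (ρ k) w u ∈ _
    rw [DM_eq _ _ hu]
    exact (ρ k).D_GL1 w _
  · intro k u hu
    change DM (ρ k) w u ∈ _
    rw [DM_eq _ _ (E1_le _ hu)]
    exact (ρ k).D_E1 w _ hu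
  · intro k u hu v hv h
    change DM (ρ k) w (u * v) * (DM (ρ k) w u)⁻¹ ∈ _
    change DM (ρ k) w v ∈ _ at h
    rw [DM_eq _ _ hv] at h
    rw [DM_eq _ _ hu, DM_eq _ _ (mul_mem hu hv)]
    exact (ρ k).D_right w ⟨u, hu⟩ ⟨v, hv⟩ h
  · intro u hu
    have h := ρ1_path (W := Cone Q × V) A w c e ⟨u, hu⟩
    change (DM (ρ 0) w u)⁻¹ * DM (ρ 1) w u ∈ _
    rw [DM_eq _ _ hu, DM_eq _ _ hu]
    simpa [ρ] using h
  · intro k u hu
    have hp : IsProperMap (prP B (Cone Q × V) I) := isProperMap_prP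
    have hu' : pullU (prP B (Cone Q × V) I) u ∈ GL1 (cp Γ ((B × Pow I) × Cone Q × V)) := by
      constructor
      · have h1 := pull_mem_cp hp (fun _ _ => rfl) _ hu.1
        rwa [map_sub, map_one] at h1
      · have h1 := pull_mem_cp hp (fun _ _ => rfl) _ hu.2
        rwa [map_sub, map_one] at h1
    change u⁻¹ * DM (ρ k) w (pullU (prP B (Cone Q × V) I) u) ∈ _
    rw [DM_eq _ _ hu']
    exact (ρ k).D_pull w (q := prP B (Cone Q × V) I)
      (fun a ha hm => ρ1_pull (A.at (if k = 0 then 0 else 1)) c e a ha hm) ⟨u, hu⟩ hu'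
  · intro k l O _ _ _ _ _ o ho he hO u hu
    have ho' : Topology.IsOpenEmbedding (Prod.map o (id : Cone Q × V → Cone Q × V)) :=
      ho.prodMap .id
    have hu' : extUnit (extF (Prod.map o (id : Cone Q × V → Cone Q × V))) u ∈
        GL1 (cp Γ ((B × Pow I) × Cone Q × V)) :=
      extUnit_mem_GL1 (extF_mem_cp ho' fun g x => Prod.ext (he g x.1) rfl) hu
    change DM (ρ k) w _ ∈ _
    rw [DM_eq _ _ hu']
    exact D_label l Q w hq ho he hO c e hu hu'

end Pool.Agent.Lib.MP_aa9b81_an.Mc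
end

end


section
/-!
# Total cutting theorem: the machine
-/

noncomputable section

namespace Pool.Agent.Lib.MP_aa9b81_an.Cut

open scoped ENNReal Topology ZeroAtInfty
open Filter Topology Set

/-- The end points of `[0,1]`. -/
def endPt (k : Fin 2) : Icc (0 : ℝ) 1 := if k = 0 then 0 else 1

/-- THE MACHINE. `D k` is defined by the random turning with the probabilities `th (·, endPt k)`. -/
theorem machine {Γ I E : Type} [Group Γ] [Countable Γ] [MulAction Γ I] [Countable I]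
    [AddCommGroup E] [Module ℝ E] [TopologicalSpace E] [T2Space E] [ContinuousAdd E]
    [ContinuousSMul ℝ E] [DistribMulAction Γ E] [SMulCommClass Γ ℝ E] [ContinuousConstSMul Γ E]
    (Q : ConvexSpace Γ E) (hA : PropA Γ) (q : I → Q.Pt) (hq : ∀ (g : Γ) i, q (g • i) = g • q i)
    (w : I → ℝ) (hw : ∀ R : ℝ, {i | w i ≤ R}.Finite)
    (hwg : ∀ g : Γ, ∃ C : ℝ, ∀ i, |w (g • i) - w i| ≤ C)
    {B V : Type} [TopologicalSpace B] [T2Space B] [LocallyCompactSpace B] [MulAction Γ B]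
    [ContinuousConstSMul Γ B] [TopologicalSpace V] [T2Space V] [LocallyCompactSpace V]
    [MulAction Γ V] [ContinuousConstSMul Γ V]
    (th : B × Icc (0 : ℝ) 1 → I → ℝ) (hth : ∀ i, Continuous fun x => th x i)
    (hth0 : ∀ x i, 0 ≤ th x i) (hth1 : ∀ x i, th x i ≤ 1)
    (hthg : ∀ (g : Γ) b t i, th (g • b, t) (g • i) = th (b, t) i) :
    ∃ D : Fin 2 → (Fam Γ ((B × Pow I) × Cone Q × V))ˣ → (Fam Γ (B × Cone Q × V))ˣ,
      (∀ k, ∀ u ∈ GL1 (cp Γ ((B × Pow I) × Cone Q × V)), D k u ∈ GL1 (cp Γ (B × Cone Q × V))) ∧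
      (∀ k, ∀ u ∈ E1 (cp Γ ((B × Pow I) × Cone Q × V)), D k u ∈ E1 (cp Γ (B × Cone Q × V))) ∧
      (∀ k, ∀ u ∈ GL1 (cp Γ ((B × Pow I) × Cone Q × V)),
        ∀ v ∈ GL1 (cp Γ ((B × Pow I) × Cone Q × V)), D k v ∈ E1 (cp Γ (B × Cone Q × V)) →
        D k (u * v) * (D k u)⁻¹ ∈ E1 (cp Γ (B × Cone Q × V))) ∧
      (∀ u ∈ GL1 (cp Γ ((B × Pow I) × Cone Q × V)),
        (D 0 u)⁻¹ * D 1 u ∈ E1 (cp Γ (B × Cone Q × V))) ∧
      (∀ k, ∀ u ∈ GL1 (cp Γ (B × Cone Q × V)),
        u⁻¹ * D k (pullU (Prod.map Prod.fst id) u) ∈ E1 (cp Γ (B × Cone Q × V))) ∧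
      (∀ k, ∀ lam : B → I → ℝ, (∀ i, Continuous fun b => lam b i) → (∀ b i, 0 ≤ lam b i) →
        (∀ (g : Γ) b i, lam (g • b) (g • i) = lam b i) →
        (∀ b i, 0 < lam b i → th (b, endPt k) i = 0 ∨ th (b, endPt k) i = 1) →
        ∀ (O : Type) [TopologicalSpace O] [MulAction Γ O] (o : O → B × Pow I),
        IsOpenEmbedding o → (∀ (g : Γ) x, o (g • x) = g • o x) →
        (∀ x, ∃ i, 0 < lam (o x).1 i ∧ ((o x).2 i = true ↔ th ((o x).1, endPt k) i = 0)) →
        ∀ u ∈ GL1 (cp Γ (O × Cone Q × V)),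
          D k (extUnit (extF (Prod.map o id)) u) ∈ E1 (cp Γ (B × Cone Q × V))) := by
  let A : Mc.AngP Γ B I :=
    { θ := fun b t => th (b, t)
      nonneg := fun b t => hth0 (b, t)
      le_one := fun b t => hth1 (b, t)
      cont := hth
      equi := hthg }
  obtain ⟨D, h1, h2, h3, h4, h5, h6⟩ := Mc.machine (V := V) Q hq A
  refine ⟨D, h1, h2, h3, h4, h5, ?_⟩
  intro k lam hlc hl0 hlg hlth O _ _ o ho he hO u hu
  have hT : T2Space O := ho.toIsEmbedding.t2Space
  have hL : LocallyCompactSpace O := ho.locallyCompactSpace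
  have hC : ContinuousConstSMul Γ O := ⟨fun g => by
    rw [ho.toIsInducing.continuous_iff]
    have h : o ∘ (fun x => g • x) = fun x => g • o x := funext fun x => he g x
    rw [h]
    exact (continuous_const_smul g).comp ho.continuous⟩
  exact h6 k { lam := lam, nonneg := hl0, cont := hlc, equi := hlg, ext := hlth } O o ho he hO u hu

end Pool.Agent.Lib.MP_aa9b81_an.Cut
end

end
end

section

/-!
# Total cutting theorem: hereditary families of subsets
-/

noncomputable section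

namespace Pool.Agent.Lib.MP_aa9b81_an.Cut

open scoped ENNReal Topology ZeroAtInfty
open Filter Topology Set

/-- The `Γ`-set `I` maps to `Q` and has a proper function which moves by a bounded amount under each
element of `Γ`. -/
structure Sites {Γ E : Type} [Group Γ] [AddCommGroup E] [Module ℝ E] [TopologicalSpace E]
    [DistribMulAction Γ E] (Q : ConvexSpace Γ E) (I : Type) [MulAction Γ I] : Prop where
  exists_q : ∃ q : I → Q.Pt, ∀ (g : Γ) i, q (g • i) = g • q i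
  exists_w : ∃ w : I → ℝ, (∀ R : ℝ, {i | w i ≤ R}.Finite) ∧
    ∀ g : Γ, ∃ C : ℝ, ∀ i, |w (g • i) - w i| ≤ C

section General

variable {Γ P W : Type} [Group Γ] [TopologicalSpace P] [MulAction Γ P] [ContinuousConstSMul Γ P]
  [T2Space P] [LocallyCompactSpace P] [TopologicalSpace W] [MulAction Γ W]
  [ContinuousConstSMul Γ W] [T2Space W] [LocallyCompactSpace W]

/-- The complement of an invariant subset. -/
def InvSet.compl {Γ P : Type} [Group Γ] [MulAction Γ P] (C : InvSet Γ P) : InvSet Γ P where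
  carrier := C.carrierᶜ
  inv g p hp h := hp (by
    have h1 := C.inv g⁻¹ _ h
    rwa [inv_smul_smul] at h1)

omit [ContinuousConstSMul Γ P] [T2Space P] [LocallyCompactSpace P] in
theorem InvSet.isOpenEmbedding_compl (C : InvSet Γ P) (hC : IsClosed C.carrier) :
    IsOpenEmbedding C.compl.val :=
  IsOpen.isOpenEmbedding_subtypeVal hC.isOpen_compl

omit [ContinuousConstSMul Γ P] [T2Space P] [LocallyCompactSpace P] in
theorem InvSet.isClosedEmbedding_val (C : InvSet Γ P) (hC : IsClosed C.carrier) :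
    IsClosedEmbedding C.val :=
  IsClosed.isClosedEmbedding_subtypeVal hC

omit [TopologicalSpace P] [ContinuousConstSMul Γ P] [T2Space P] [LocallyCompactSpace P] in
theorem InvSet.range_val (C : InvSet Γ P) : range C.val = C.carrier := Subtype.range_val

/-- The exact sequence of a closed invariant subset, times a space `W`. -/
theorem exactSeq_compl (hA : PropA Γ) (C : InvSet Γ P) (hC : IsClosed C.carrier) :
    ExactSeq (extF (Prod.map C.compl.val (id : W → W)) : Fam Γ (C.compl.Pt × W) →ₙ+* Fam Γ (P × W))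
      (pull (Prod.map C.val (id : W → W))) (cp Γ (C.compl.Pt × W)) (cp Γ (P × W))
      (cp Γ (C.Pt × W)) := by
  refine exactSeq_closed hA ((C.isClosedEmbedding_val hC).prodMap IsClosedEmbedding.id)
    (fun g x => rfl) ((C.isOpenEmbedding_compl hC).prodMap IsOpenEmbedding.id)
    (fun g x => rfl) ?_
  rw [Set.range_prodMap, Set.range_prodMap, InvSet.range_val, InvSet.range_val, Set.range_id]
  ext ⟨x, y⟩
  simp [InvSet.compl]

/-- A unit which is `1` over a closed subset comes from the complement. -/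
theorem exists_ext_compl (hA : PropA Γ) (C : InvSet Γ P) (hC : IsClosed C.carrier)
    {a : (Fam Γ (P × W))ˣ} (ha : a ∈ GL1 (cp Γ (P × W)))
    (h1 : ∀ p ∈ C.carrier, ∀ y : W, (a : Fam Γ (P × W)) (p, y) = 1) :
    ∃ x ∈ GL1 (cp Γ (C.compl.Pt × W)), extUnit (extF (Prod.map C.compl.val (id : W → W))) x = a := by
  refine (exactSeq_compl hA C hC).exists_ext ha (Units.ext (Fam.ext fun y => ?_))
  exact h1 _ y.1.2 _

end General

section HS

variable {Γ I E : Type} [Group Γ] [Countable Γ] [MulAction Γ I] [Countable I]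
  [AddCommGroup E] [Module ℝ E] [TopologicalSpace E] [T2Space E] [ContinuousAdd E]
  [ContinuousSMul ℝ E] [DistribMulAction Γ E] [SMulCommClass Γ ℝ E] [ContinuousConstSMul Γ E]

variable {B V : Type} [TopologicalSpace B] [T2Space B] [LocallyCompactSpace B] [MulAction Γ B]
  [ContinuousConstSMul Γ B] [TopologicalSpace V] [T2Space V] [LocallyCompactSpace V]
  [MulAction Γ V] [ContinuousConstSMul Γ V]

/-- The projection of a subset of `B × {0,1}^I` to `B`, times the identity of `V`. -/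
def prP (A : InvSet Γ (B × Pow I)) (V : Type) : A.Pt × V → B × V :=
  Prod.map (fun p => (A.val p).1) (id : V → V)

omit [Countable Γ] [Countable I] [T2Space B] [LocallyCompactSpace B] [ContinuousConstSMul Γ B] in
theorem isProperMap_prP_aux (A : InvSet Γ (B × Pow I)) (hA : IsClosed A.carrier) :
    IsProperMap (fun p : A.Pt => (A.val p).1) := by
  have h1 : IsProperMap A.val := (A.isClosedEmbedding_val hA).isProperMap
  have h2 : IsProperMap (Prod.fst : B × Pow I → B) := isProperMap_fst_of_compactSpace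
  exact h2.comp h1

omit [Countable Γ] [Countable I] [T2Space B] [LocallyCompactSpace B] [ContinuousConstSMul Γ B]
  [T2Space V] [LocallyCompactSpace V] [MulAction Γ V] [ContinuousConstSMul Γ V] in
theorem isProperMap_prP (A : InvSet Γ (B × Pow I)) (hA : IsClosed A.carrier) :
    IsProperMap (prP A V) :=
  (isProperMap_prP_aux A hA).prodMap isProperMap_id

omit [Countable Γ] [Countable I] [TopologicalSpace B] [T2Space B] [LocallyCompactSpace B]
  [ContinuousConstSMul Γ B] [TopologicalSpace V] [T2Space V] [LocallyCompactSpace V]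
  [ContinuousConstSMul Γ V] in
theorem prP_smul (A : InvSet Γ (B × Pow I)) (g : Γ) (x : A.Pt × V) :
    prP A V (g • x) = g • prP A V x := rfl

/-- Turning off. -/
def offS {B I : Type} (x : (B × Pow I) × Pow I) : B × Pow I := (x.1.1, fun i => x.1.2 i && !(x.2 i))

omit [Countable I] [T2Space B] [LocallyCompactSpace B] in
theorem continuous_offS : Continuous (offS : (B × Pow I) × Pow I → B × Pow I) := by
  refine (continuous_fst.comp continuous_fst).prodMk (continuous_pi fun i => ?_)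
  have h1 : Continuous fun x : (B × Pow I) × Pow I => (x.1.2 i, x.2 i) :=
    ((Pow.continuous_eval i).comp (continuous_snd.comp continuous_fst)).prodMk
      ((Pow.continuous_eval i).comp continuous_snd)
  exact (continuous_of_discreteTopology (f := fun b : Bool × Bool => b.1 && !b.2)).comp h1

/-- HEREDITARY SHIFTS. -/
theorem isoU_hered (Q : ConvexSpace Γ E) (hA : PropA Γ) (hI : Sites Q I)
    (H : InvSet Γ (B × Pow I)) (hH : IsClosed H.carrier)
    (hher : ∀ b S S', (b, S) ∈ H.carrier → (∀ i, S' i = true → S i = true) → (b, S') ∈ H.carrier)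
    (hzero : ∀ b, (b, Pow.zero I) ∈ H.carrier) :
    IsoU Γ (prP H (Cone Q × V)) := by
  have : LocallyCompactSpace (Cone Q) := cone_locallyCompact Q
  have : LocallyCompactSpace H.Pt := H.locallyCompactSpace hH.isLocallyClosed
  -- the zero section
  let z : B → H.Pt := fun b => H.pt (b, Pow.zero I) (hzero b)
  have hzc : Continuous z := Continuous.subtype_mk (continuous_id.prodMk continuous_const) _
  have hze : ∀ (g : Γ) b, z (g • b) = g • z b := fun g b => rfl
  have hpr := isProperMap_prP_aux H hH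
  have hzp : IsProperMap z :=
    isProperMap_of_comp_of_t2 hzc hpr.continuous (by
      have h1 : (fun p : H.Pt => (H.val p).1) ∘ z = id := rfl
      rw [h1]
      exact isProperMap_id)
  have hzp' : IsProperMap (Prod.map z (id : Cone Q × V → Cone Q × V)) := hzp.prodMap isProperMap_id
  have hze' : ∀ (g : Γ) x, Prod.map z (id : Cone Q × V → Cone Q × V) (g • x) =
      g • Prod.map z (id : Cone Q × V → Cone Q × V) x := fun g x => rfl
  have hprp := isProperMap_prP (V := Cone Q × V) H hH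
  have hpre := prP_smul (V := Cone Q × V) H
  have hzpr : ∀ u : (Fam Γ (B × Cone Q × V))ˣ,
      pullU (Prod.map z (id : Cone Q × V → Cone Q × V)) (pullU (prP H (Cone Q × V)) u) = u :=
    fun u => Units.ext (Fam.ext fun y => rfl)
  constructor
  · intro u hu hu'
    rw [← hzpr u]
    exact BA1_mem_E1 hzp' hze' hu'
  · intro v hv
    refine ⟨pullU (Prod.map z (id : Cone Q × V → Cone Q × V)) v, BA1_mem_GL1 hzp' hze' hv, ?_⟩
    set u : (Fam Γ (B × Cone Q × V))ˣ := pullU (Prod.map z (id : Cone Q × V → Cone Q × V)) v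
      with hu
    obtain ⟨v', hv'⟩ : ∃ v', v' = (pullU (prP H (Cone Q × V)) u)⁻¹ * v := ⟨_, rfl⟩
    rw [← hv']
    have hv'G : v' ∈ GL1 (cp Γ (H.Pt × Cone Q × V)) := by
      rw [hv']
      exact mul_mem (inv_mem (BA1_mem_GL1 hprp hpre (BA1_mem_GL1 hzp' hze' hv))) hv
    have hv'1 : ∀ b y, (v' : Fam Γ (H.Pt × Cone Q × V)) (z b, y) = 1 := by
      have h1 : pullU (Prod.map z (id : Cone Q × V → Cone Q × V)) v' = 1 := by
        rw [hv', map_mul, map_inv, hzpr, hu, inv_mul_cancel]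
      intro b y
      exact congrArg (fun x : (Fam Γ (B × Cone Q × V))ˣ => (x : Fam Γ (B × Cone Q × V)) (b, y)) h1
    -- turning off
    let off : H.Pt × Pow I → H.Pt := fun x => H.pt (offS (H.val x.1, x.2)) (by
      refine hher _ _ _ (H.val_mem x.1) ?_
      intro i hi
      change ((H.val x.1).2 i && !(x.2 i)) = true at hi
      simp only [Bool.and_eq_true] at hi
      exact hi.1)
    have hoffc : Continuous off :=
      Continuous.subtype_mk (continuous_offS.comp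
        ((H.continuous_val.comp continuous_fst).prodMk continuous_snd)) _
    have hoffe : ∀ (g : Γ) x, off (g • x) = g • off x := fun g x => rfl
    have hoffp : IsProperMap off := by
      refine isProperMap_of_comp_of_t2 hoffc hpr.continuous ?_
      have h1 : (fun p : H.Pt => (H.val p).1) ∘ off = (fun p : H.Pt => (H.val p).1) ∘ Prod.fst := rfl
      rw [h1]
      exact hpr.comp isProperMap_fst_of_compactSpace
    have hoffp' : IsProperMap (Prod.map off (id : Cone Q × V → Cone Q × V)) :=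
      hoffp.prodMap isProperMap_id
    have hoffe' : ∀ (g : Γ) x, Prod.map off (id : Cone Q × V → Cone Q × V) (g • x) =
      g • Prod.map off (id : Cone Q × V → Cone Q × V) x := fun g x => rfl
    have hfst : IsProperMap (Prod.map (Prod.fst : H.Pt × Pow I → H.Pt)
        (id : Cone Q × V → Cone Q × V)) :=
      isProperMap_fst_of_compactSpace.prodMap isProperMap_id
    obtain ⟨a, ha⟩ : ∃ a : (Fam Γ ((H.Pt × Pow I) × Cone Q × V))ˣ,
      a = pullU (Prod.map off (id : Cone Q × V → Cone Q × V)) v' := ⟨_, rfl⟩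
    obtain ⟨b, hb⟩ : ∃ b : (Fam Γ ((H.Pt × Pow I) × Cone Q × V))ˣ,
      b = pullU (Prod.map (Prod.fst : H.Pt × Pow I → H.Pt) (id : Cone Q × V → Cone Q × V)) v' :=
      ⟨_, rfl⟩
    have haG : a ∈ GL1 (cp Γ ((H.Pt × Pow I) × Cone Q × V)) := by
      rw [ha]
      exact BA1_mem_GL1 hoffp' hoffe' hv'G
    have hbG : b ∈ GL1 (cp Γ ((H.Pt × Pow I) × Cone Q × V)) := by
      rw [hb]
      exact BA1_mem_GL1 hfst (fun g x => rfl) hv'G
    -- the machine
    obtain ⟨q, hq⟩ := hI.exists_q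
    obtain ⟨w, hw, hwg⟩ := hI.exists_w
    obtain ⟨D, hD1, hD2, hD3, hD4, hD5, hD6⟩ := machine (B := H.Pt) (V := V) Q hA q hq w hw hwg
      (fun x _ => ((x.2 : Icc (0 : ℝ) 1) : ℝ))
      (fun i => continuous_subtype_val.comp continuous_snd) (fun x i => x.2.2.1)
      (fun x i => x.2.2.2) (fun g b t i => rfl)
    -- `D 1 a = 0`
    have h1 : D 1 a ∈ E1 (cp Γ (H.Pt × Cone Q × V)) := by
      let C : InvSet Γ (H.Pt × Pow I) :=
        { carrier := {x | ∀ i, (H.val x.1).2 i = true → x.2 i = true}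
          inv := fun g x hx i hi => hx (g⁻¹ • i) hi }
      have hC : IsClosed C.carrier := by
        have h2 : C.carrier = ⋂ i, {x : H.Pt × Pow I | (H.val x.1).2 i = false} ∪
            {x | x.2 i = true} := by
          ext x
          simp only [mem_iInter, mem_union, mem_ofPred_eq]
          refine forall_congr' fun i => ?_
          rcases h : (H.val x.1).2 i with _ | _ <;> simp
        rw [h2]
        refine isClosed_iInter fun i => IsClosed.union ?_ ?_
        · exact (Pow.isClosed_eval i false).preimage (continuous_snd.comp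
            (H.continuous_val.comp continuous_fst))
        · exact (Pow.isClosed_eval i true).preimage continuous_snd
      obtain ⟨x, hx, hxa⟩ := exists_ext_compl hA C hC haG (by
        intro p hp y
        have h3 : off p = z (H.val p.1).1 := by
          apply H.val_injective
          refine Prod.ext rfl (funext fun i => ?_)
          change ((H.val p.1).2 i && !(p.2 i)) = false
          have h4 := hp i
          rcases h : (H.val p.1).2 i with _ | _
          · rfl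
          · rw [h4 h]
            rfl
        have h5 : (a : Fam Γ ((H.Pt × Pow I) × Cone Q × V)) (p, y) =
            (v' : Fam Γ (H.Pt × Cone Q × V)) (off p, y) := by
          rw [ha]
          rfl
        rw [h5, h3]
        exact hv'1 _ y)
      rw [← hxa]
      refine hD6 1 (fun p i => if (H.val p).2 i = true then 1 else 0) ?_ ?_ ?_ ?_ C.compl.Pt
        C.compl.val (C.isOpenEmbedding_compl hC) (fun g x => rfl) ?_ x hx
      · intro i
        exact (continuous_of_discreteTopology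
          (f := fun b : Bool => if b = true then (1 : ℝ) else 0)).comp
            ((Pow.continuous_eval i).comp (continuous_snd.comp H.continuous_val))
      · intro b i
        split_ifs
        · exact zero_le_one
        · exact le_rfl
      · intro g b i
        have h2 : (H.val (g • b)).2 (g • i) = (H.val b).2 i := by
          change (H.val b).2 (g⁻¹ • g • i) = _
          rw [inv_smul_smul]
        change (if (H.val (g • b)).2 (g • i) = true then (1 : ℝ) else 0) = _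
        rw [h2]
      · intro b i _
        right
        rfl
      · intro x
        have h2 : ∃ i, (H.val (C.compl.val x).1).2 i = true ∧ (C.compl.val x).2 i = false := by
          by_contra hcon
          refine C.compl.val_mem x ?_
          intro i hi
          by_contra h3
          exact hcon ⟨i, hi, by simpa using h3⟩
        obtain ⟨i, hi1, hi2⟩ := h2
        refine ⟨i, ?_, ?_⟩
        · rw [if_pos hi1]
          exact zero_lt_one
        · rw [hi2]
          simp [endPt]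
    -- `D 0 a = v'`
    have h2 : D 0 b * (D 0 a)⁻¹ ∈ E1 (cp Γ (H.Pt × Cone Q × V)) := by
      have habG : a⁻¹ * b ∈ GL1 (cp Γ ((H.Pt × Pow I) × Cone Q × V)) := mul_mem (inv_mem haG) hbG
      have h3 : D 0 (a⁻¹ * b) ∈ E1 (cp Γ (H.Pt × Cone Q × V)) := by
        let C : InvSet Γ (H.Pt × Pow I) :=
          { carrier := {x | ∀ i, x.2 i = false}
            inv := fun g x hx i => hx (g⁻¹ • i) }
        have hC : IsClosed C.carrier := by
          have h2 : C.carrier = ⋂ i, {x : H.Pt × Pow I | x.2 i = false} := by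
            ext x
            simp only [mem_iInter, mem_ofPred_eq]
            exact Iff.rfl
          rw [h2]
          exact isClosed_iInter fun i => (Pow.isClosed_eval i false).preimage continuous_snd
        obtain ⟨x, hx, hxa⟩ := exists_ext_compl hA C hC habG (by
          intro p hp y
          have h3 : off p = p.1 := by
            apply H.val_injective
            refine Prod.ext rfl (funext fun i => ?_)
            change ((H.val p.1).2 i && !(p.2 i)) = (H.val p.1).2 i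
            rw [hp i]
            simp
          have h5 : ((a⁻¹ * b : (Fam Γ ((H.Pt × Pow I) × Cone Q × V))ˣ) :
              Fam Γ ((H.Pt × Pow I) × Cone Q × V)) (p, y) =
              ((v'⁻¹ : (Fam Γ (H.Pt × Cone Q × V))ˣ) : Fam Γ (H.Pt × Cone Q × V)) (off p, y) *
                (v' : Fam Γ (H.Pt × Cone Q × V)) (p.1, y) := by
            rw [ha, hb]
            rfl
          rw [h5, h3, ← Fam.mul_apply, Units.inv_mul]
          rfl)
        rw [← hxa]
        refine hD6 0 (fun p i => 1) (fun i => continuous_const) (fun _ _ => zero_le_one)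
          (fun _ _ _ => rfl) ?_ C.compl.Pt
          C.compl.val (C.isOpenEmbedding_compl hC) (fun g x => rfl) ?_ x hx
        · intro b i _
          left
          rfl
        · intro x
          have h2 : ∃ i, (C.compl.val x).2 i = true := by
            by_contra hcon
            refine C.compl.val_mem x ?_
            intro i
            by_contra h3
            exact hcon ⟨i, by simpa using h3⟩
          obtain ⟨i, hi⟩ := h2
          refine ⟨i, zero_lt_one, ?_⟩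
          rw [hi]
          simp [endPt]
      have h4 := hD3 0 a haG (a⁻¹ * b) habG h3
      rwa [mul_inv_cancel_left] at h4
    have h3 : v'⁻¹ * D 0 b ∈ E1 (cp Γ (H.Pt × Cone Q × V)) := by
      rw [hb]
      exact hD5 0 v' hv'G
    have h4 := hD4 a haG
    have h5 := mul_mem h3 (inv_mem (mul_mem h2 (mul_mem h1 (inv_mem h4))))
    have e : v'⁻¹ * D 0 b * (D 0 b * (D 0 a)⁻¹ * (D 1 a * ((D 0 a)⁻¹ * D 1 a)⁻¹))⁻¹ = v'⁻¹ := by
      group
    rw [e] at h5
    simpa using inv_mem h5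

end HS

end Pool.Agent.Lib.MP_aa9b81_an.Cut
end
end
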