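import Pool.Agent.Lib.MP_aa9b81_an.Mg.G017
import Pool.Agent.Lib.MP_aa9b81_an.Mg.G020
import Pool.Agent.Lib.MP_aa9b81_an.Mg.G018
import Pool.Agent.Lib.MP_aa9b81_an.Mg.G008
import Pool.Agent.Lib.MP_aa9b81_an.Mg.G024

section

/-!
# Rotated sites, part K3: almost exact cycles along a path
-/

open scoped ENNReal Topology ZeroAtInfty
open Function Filter Set

noncomputable section

set_option linter.unusedSectionVars false

namespace Pool.Agent.Lib.MP_aa9b81_an.Rc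

open Cut Hs

variable {Γ C Y A : Type} [Group Γ] [MulAction Γ C] [DecidableEq C] [TopologicalSpace Y]
  [MulAction Γ Y] [TopologicalSpace A] [MulAction Γ A] [ContinuousConstSMul Γ A]
  [T2Space Y] [LocallyCompactSpace Y] [ContinuousConstSMul Γ Y] [T2Space A] [LocallyCompactSpace A]

variable {e : C ↪ ℕ} (L : LRep (sact e : SAct Γ (Bs C)) A)

private theorem K3_Pp : FinM (Pp : BL (Bs C)) := by
  unfold Pp
  refine FinM.dia zero_le_one fun b => ?_
  split_ifs <;> simp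

private theorem K3_Pm : FinM (Pm : BL (Bs C)) := by
  unfold Pm
  refine FinM.dia zero_le_one fun b => ?_
  split_ifs <;> simp

private theorem K3_norm_Pp : ‖(Pp : BL (Bs C))‖ ≤ 1 := by
  unfold Pp
  refine norm_dia_le zero_le_one fun b => ?_
  split_ifs <;> simp

private theorem K3_norm_Pm : ‖(Pm : BL (Bs C))‖ ≤ 1 := by
  unfold Pm
  refine norm_dia_le zero_le_one fun b => ?_
  split_ifs <;> simp

private theorem K3_norm_m1 {X : BL (Bs C)} (h : ‖X‖ ≤ 1) (c : ℕ × Bs C ≃ ℕ) :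
    ‖(m1 c (cst X) : Fam Γ Y)‖ ≤ 1 :=
  (norm_m1_le c (cst X)).trans ((norm_cst_le X).trans h)

private theorem K3_norm_one : ‖(1 : Fam Γ Y)‖ ≤ 1 := by
  rw [Fam.norm_le_iff zero_le_one]
  intro y
  exact ContinuousLinearMap.norm_id_le

private theorem K3_mul_le {R : Type} [NormedRing R] {p x : R} (hp : ‖p‖ ≤ 1) :
    ‖p * x‖ ≤ ‖x‖ :=
  (norm_mul_le _ _).trans (by
    have := mul_le_mul_of_nonneg_right hp (norm_nonneg x)
    rwa [one_mul] at this)

private theorem K3_mul_le' {R : Type} [NormedRing R] {p x : R} (hp : ‖p‖ ≤ 1) :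
    ‖x * p‖ ≤ ‖x‖ :=
  (norm_mul_le _ _).trans (by
    have := mul_le_mul_of_nonneg_left hp (norm_nonneg x)
    rwa [mul_one] at this)

private theorem K3_norm_α (hL : L.Ok) (w : Wt Γ C) (c : ℕ × Bs C ≃ ℕ) (a : cp Γ (Y × A)) :
    ‖(L.cyc hL w c).α a‖ ≤ ‖(a : Fam Γ (Y × A))‖ :=
  (K3_mul_le (K3_norm_m1 K3_norm_Pp c)).trans (L.norm_Th_le c a)

private theorem K3_norm_β (hL : L.Ok) (w : Wt Γ C) (c : ℕ × Bs C ≃ ℕ) (a : cp Γ (Y × A)) :
    ‖(L.cyc hL w c).β a‖ ≤ ‖(a : Fam Γ (Y × A))‖ := by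
  show ‖(m1 c (cst (T1 w e)) : Fam Γ Y) * m1 c (cst Pm) * L.Th c a * m1 c (cst (T1 w e))‖ ≤ _
  have hT : ‖(m1 c (cst (T1 w e)) : Fam Γ Y)‖ ≤ 1 := K3_norm_m1 (norm_T1_le w e) c
  refine (K3_mul_le' hT).trans ?_
  rw [mul_assoc]
  exact (K3_mul_le hT).trans ((K3_mul_le (K3_norm_m1 K3_norm_Pm c)).trans (L.norm_Th_le c a))

private theorem K3_add_le {x : Fam Γ Y} {M : ℝ} (h : ‖x‖ ≤ M) : ‖1 + x‖ ≤ 1 + M :=
  (norm_add_le _ _).trans (add_le_add K3_norm_one h)

private theorem K3_cont (c : ℕ × Bs C ≃ ℕ) :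
    Continuous (fun a : cp Γ (Y × A) => (L.Th c a : Fam Γ Y)) := by
  refine (LipschitzWith.of_dist_le_mul (K := 1) fun a b => ?_).continuous
  rw [dist_eq_norm, ← map_sub]
  refine (L.norm_Th_le c (a - b)).trans ?_
  rw [NNReal.coe_one, one_mul, Subtype.dist_eq, dist_eq_norm]
  exact le_of_eq rfl

/-- PROOF: with `x = u - 1`, `x' = u⁻¹ - 1`, `Z` the cycle: `Z.d u = (1 + Z.α x)(1 + Z.β x')`, and `(1 + β x)(1 + β x') = 1` (`exS_aux`), so
`Z.d u - 1 = (α x - β x)(1 + β x')`, where `α x - β x = P (Θ x - T Θ x T)` (`Cyc.α_sub_β`). Take `P k (1 + β x')`: in `AE` since `P`, `β x' = T Q Θ(x') T` are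
multipliers (`isMul_Th`, `isMul_m1_cst`). `‖P‖ ≤ 1` (`norm_m1_le`, `norm_cst_le`, `norm_dia_le`), `‖β x'‖ ≤ ‖x'‖`. -/
theorem LRep.d_near (hL : L.Ok) (w : Wt Γ C) (c : ℕ × Bs C ≃ ℕ) (u : GL1 (cp Γ (Y × A)))
    {η M : ℝ} (hM : ‖((((u : (Fam Γ (Y × A))ˣ)⁻¹ : (Fam Γ (Y × A))ˣ)) : Fam Γ (Y × A)) - 1‖ ≤ M)
    {k : Fam Γ Y} (hk : k ∈ AE c (sact e : SAct Γ (Bs C)) (U1 C Y))
    (h : ‖L.Th c ⟨((u : (Fam Γ (Y × A))ˣ) : Fam Γ (Y × A)) - 1, u.2.1⟩ - m1 c (cst (T1 w e)) *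
      L.Th c ⟨((u : (Fam Γ (Y × A))ˣ) : Fam Γ (Y × A)) - 1, u.2.1⟩ * m1 c (cst (T1 w e)) - k‖ ≤ η) :
    ∃ k' ∈ AE c (sact e : SAct Γ (Bs C)) (U1 C Y),
      ‖(((L.cyc hL w c).d u : (Fam Γ Y)ˣ) : Fam Γ Y) - 1 - k'‖ ≤ η * (1 + M) := by
  set x : cp Γ (Y × A) := ⟨((u : (Fam Γ (Y × A))ˣ) : Fam Γ (Y × A)) - 1, u.2.1⟩ with hx
  set x' : cp Γ (Y × A) :=
    ⟨((((u : (Fam Γ (Y × A))ˣ)⁻¹ : (Fam Γ (Y × A))ˣ)) : Fam Γ (Y × A)) - 1, u.2.2⟩ with hx'
  have hval : (((L.cyc hL w c).d u : (Fam Γ Y)ˣ) : Fam Γ Y) =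
      (1 + (L.cyc hL w c).α x) * (1 + (L.cyc hL w c).β x') := rfl
  have h1 : (1 + (L.cyc hL w c).β x) * (1 + (L.cyc hL w c).β x') = 1 :=
    (exS_aux (L.cyc hL w c).β u).1
  have h2 : (L.cyc hL w c).α x - (L.cyc hL w c).β x = m1 c (cst Pp) *
      (L.Th c x - m1 c (cst (T1 w e)) * L.Th c x * m1 c (cst (T1 w e))) :=
    (L.cyc hL w c).α_sub_β x
  have hβ : IsMul (AE c (sact e : SAct Γ (Bs C)) (U1 C Y)) ((L.cyc hL w c).β x') := by
    show IsMul _ ((m1 c (cst (T1 w e)) : Fam Γ Y) * m1 c (cst Pm) * L.Th c x' *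
      m1 c (cst (T1 w e)))
    have hT := isMul_m1_cst (Γ := Γ) (Y := Y) (e := e) (FinM.Cl e (CB_cw w)) c
    exact ((hT.mul (isMul_m1_cst K3_Pm c)).mul (L.isMul_Th hL c x')).mul hT
  have hP : IsMul (AE c (sact e : SAct Γ (Bs C)) (U1 C Y)) (m1 c (cst Pp) : Fam Γ Y) :=
    isMul_m1_cst K3_Pp c
  have hone : IsMul (AE c (sact e : SAct Γ (Bs C)) (U1 C Y)) (1 : Fam Γ Y) := IsMul.one
  refine ⟨m1 c (cst Pp) * k * (1 + (L.cyc hL w c).β x'),
    ((hone.add hβ) _ ((hP k hk).1)).2, ?_⟩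
  have h3 : (((L.cyc hL w c).d u : (Fam Γ Y)ˣ) : Fam Γ Y) - 1 -
      m1 c (cst Pp) * k * (1 + (L.cyc hL w c).β x') =
      m1 c (cst Pp) * (L.Th c x - m1 c (cst (T1 w e)) * L.Th c x * m1 c (cst (T1 w e)) - k) *
        (1 + (L.cyc hL w c).β x') := by
    have h4 : (((L.cyc hL w c).d u : (Fam Γ Y)ˣ) : Fam Γ Y) - 1 =
        ((L.cyc hL w c).α x - (L.cyc hL w c).β x) * (1 + (L.cyc hL w c).β x') := by
      calc (((L.cyc hL w c).d u : (Fam Γ Y)ˣ) : Fam Γ Y) - 1 =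
          (1 + (L.cyc hL w c).α x) * (1 + (L.cyc hL w c).β x') -
            (1 + (L.cyc hL w c).β x) * (1 + (L.cyc hL w c).β x') := by rw [hval, h1]
        _ = _ := by
            rw [← sub_mul]
            congr 1
            abel
    rw [h4, h2, mul_sub (m1 c (cst Pp)) _ k, sub_mul]
  rw [h3]
  have h5 : ‖1 + (L.cyc hL w c).β x'‖ ≤ 1 + M := K3_add_le ((K3_norm_β L hL w c x').trans hM)
  have hη : 0 ≤ η := (norm_nonneg _).trans h
  calc ‖m1 c (cst Pp) * (L.Th c x - m1 c (cst (T1 w e)) * L.Th c x * m1 c (cst (T1 w e)) - k) *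
        (1 + (L.cyc hL w c).β x')‖ ≤
        ‖m1 c (cst Pp) * (L.Th c x - m1 c (cst (T1 w e)) * L.Th c x * m1 c (cst (T1 w e)) - k)‖ *
        ‖1 + (L.cyc hL w c).β x'‖ := norm_mul_le _ _
    _ ≤ η * (1 + M) := mul_le_mul ((K3_mul_le (K3_norm_m1 K3_norm_Pp c)).trans h) h5
        (norm_nonneg _) hη

/-- PROOF: `dU_inv`: `(1 + β x)(1 + α x')`, `‖α‖, ‖β‖ ≤ 1`. -/
theorem LRep.norm_d_inv_le (hL : L.Ok) (w : Wt Γ C) (c : ℕ × Bs C ≃ ℕ) (u : GL1 (cp Γ (Y × A)))
    {M : ℝ} (hM : ‖((((u : (Fam Γ (Y × A))ˣ)⁻¹ : (Fam Γ (Y × A))ˣ)) : Fam Γ (Y × A)) - 1‖ ≤ M)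
    (hM' : ‖((u : (Fam Γ (Y × A))ˣ) : Fam Γ (Y × A)) - 1‖ ≤ M) :
    ‖((((L.cyc hL w c).d u)⁻¹ : (Fam Γ Y)ˣ) : Fam Γ Y)‖ ≤ (1 + M) * (1 + M) := by
  have hM0 : 0 ≤ M := (norm_nonneg _).trans hM
  rw [Cyc.d, dU_inv]
  refine (norm_mul_le _ _).trans (mul_le_mul ?_ ?_ (norm_nonneg _) (by positivity))
  · exact K3_add_le ((K3_norm_β L hL w c _).trans hM')
  · exact K3_add_le ((K3_norm_α L hL w c _).trans hM)

/-- PROOF: `dU_val`, `Th` is additive and contractive, so continuous. -/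
theorem LRep.continuousOn_d (hL : L.Ok) (w : Wt Γ C) (c : ℕ × Bs C ≃ ℕ)
    {γ : ℝ → GL1 (cp Γ (Y × A))} {S : Set ℝ}
    (h1 : ContinuousOn (fun t => ((γ t : (Fam Γ (Y × A))ˣ) : Fam Γ (Y × A))) S)
    (h2 : ContinuousOn (fun t => ((((γ t : (Fam Γ (Y × A))ˣ)⁻¹ : (Fam Γ (Y × A))ˣ)) :
      Fam Γ (Y × A))) S) :
    ContinuousOn (fun t => (((L.cyc hL w c).d (γ t) : (Fam Γ Y)ˣ) : Fam Γ Y)) S := by
  have h3 : ContinuousOn (fun t => (L.Th c ⟨((γ t : (Fam Γ (Y × A))ˣ) : Fam Γ (Y × A)) - 1,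
      (γ t).2.1⟩ : Fam Γ Y)) S := by
    refine (K3_cont L c).comp_continuousOn ?_
    rw [Topology.IsInducing.subtypeVal.continuousOn_iff]
    exact h1.sub continuousOn_const
  have h4 : ContinuousOn (fun t => (L.Th c ⟨((((γ t : (Fam Γ (Y × A))ˣ)⁻¹ :
      (Fam Γ (Y × A))ˣ)) : Fam Γ (Y × A)) - 1, (γ t).2.2⟩ : Fam Γ Y)) S := by
    refine (K3_cont L c).comp_continuousOn ?_
    rw [Topology.IsInducing.subtypeVal.continuousOn_iff]
    exact h2.sub continuousOn_const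
  show ContinuousOn (fun t => (1 + (m1 c (cst Pp) : Fam Γ Y) *
    L.Th c ⟨((γ t : (Fam Γ (Y × A))ˣ) : Fam Γ (Y × A)) - 1, (γ t).2.1⟩) *
    (1 + (m1 c (cst (T1 w e)) : Fam Γ Y) * m1 c (cst Pm) *
      L.Th c ⟨((((γ t : (Fam Γ (Y × A))ˣ)⁻¹ : (Fam Γ (Y × A))ˣ)) : Fam Γ (Y × A)) - 1,
        (γ t).2.2⟩ * m1 c (cst (T1 w e)))) S
  exact (continuousOn_const.add (continuousOn_const.mul h3)).mul
    (continuousOn_const.add ((continuousOn_const.mul h4).mul continuousOn_const))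

/-- PROOF: `dU_val` with `u - 1 = 0`. -/
theorem LRep.d_one (hL : L.Ok) (w : Wt Γ C) (c : ℕ × Bs C ≃ ℕ) :
    (L.cyc hL w c).d (1 : GL1 (cp Γ (Y × A))) = 1 := by
  refine Units.ext ?_
  rw [Cyc.d, dU_val]
  have h1 : (⟨(((1 : GL1 (cp Γ (Y × A))) : (Fam Γ (Y × A))ˣ) : Fam Γ (Y × A)) - 1,
      (1 : GL1 (cp Γ (Y × A))).2.1⟩ : cp Γ (Y × A)) = 0 := Subtype.ext (by simp)
  have h2 : (⟨((((1 : GL1 (cp Γ (Y × A))) : (Fam Γ (Y × A))ˣ)⁻¹ : (Fam Γ (Y × A))ˣ) :
      Fam Γ (Y × A)) - 1, (1 : GL1 (cp Γ (Y × A))).2.2⟩ : cp Γ (Y × A)) = 0 :=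
    Subtype.ext (by simp)
  rw [h1, h2, map_zero, map_zero]
  simp

/-- PROOF: `E1_of_near_path` for the path `t ↦ Z.d (γ t)`: `d_near`, `norm_d_inv_le`, `continuousOn_d`, `d_one`; the constant there is `(1 + M)²`. Then
`E1_mono`, `AE_le_cp`. -/
theorem LRep.d_mem_of_path (hL : L.Ok) (w : Wt Γ C) (c : ℕ × Bs C ≃ ℕ)
    {γ : ℝ → GL1 (cp Γ (Y × A))}
    (h1 : ContinuousOn (fun t => ((γ t : (Fam Γ (Y × A))ˣ) : Fam Γ (Y × A))) (Icc 0 1))
    (h2 : ContinuousOn (fun t => ((((γ t : (Fam Γ (Y × A))ˣ)⁻¹ : (Fam Γ (Y × A))ˣ)) :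
      Fam Γ (Y × A))) (Icc 0 1)) (hγ : γ 1 = 1) {M : ℝ} (hM0 : 0 ≤ M)
    (hM : ∀ t ∈ Icc (0 : ℝ) 1,
      ‖((((γ t : (Fam Γ (Y × A))ˣ)⁻¹ : (Fam Γ (Y × A))ˣ)) : Fam Γ (Y × A)) - 1‖ ≤ M)
    (hM' : ∀ t ∈ Icc (0 : ℝ) 1, ‖((γ t : (Fam Γ (Y × A))ˣ) : Fam Γ (Y × A)) - 1‖ ≤ M) {η : ℝ}
    (hη : η * (1 + M) ≤ 1 / (16 * ((1 + M) * (1 + M))))
    (hd : ∀ t ∈ Icc (0 : ℝ) 1, ∃ k ∈ AE c (sact e : SAct Γ (Bs C)) (U1 C Y),
      ‖L.Th c ⟨((γ t : (Fam Γ (Y × A))ˣ) : Fam Γ (Y × A)) - 1, (γ t).2.1⟩ -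
        m1 c (cst (T1 w e)) * L.Th c ⟨((γ t : (Fam Γ (Y × A))ˣ) : Fam Γ (Y × A)) - 1, (γ t).2.1⟩ *
          m1 c (cst (T1 w e)) - k‖ ≤ η)
    (h0 : (L.cyc hL w c).d (γ 0) ∈ GL1 (AE c (sact e : SAct Γ (Bs C)) (U1 C Y))) :
    (L.cyc hL w c).d (γ 0) ∈ E1 (cp Γ Y) := by
  refine E1_mono (AE_le_cp c (sact e : SAct Γ (Bs C)) (U1 C Y)) ?_
  refine E1_of_near_path (isClosed_AE c _ _) (γ := fun t => (L.cyc hL w c).d (γ t))
    (M := (1 + M) * (1 + M)) (L.continuousOn_d hL w c h1 h2) h0 ?_ ?_ ?_ ?_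
  · show (L.cyc hL w c).d (γ 1) = 1
    rw [hγ, L.d_one]
  · nlinarith
  · intro t ht
    exact L.norm_d_inv_le hL w c (γ t) (hM t ht) (hM' t ht)
  · intro t ht
    obtain ⟨k, hk, hk'⟩ := hd t ht
    obtain ⟨k', h3, h4⟩ := L.d_near hL w c (γ t) (hM t ht) hk hk'
    exact ⟨k', h3, h4.trans hη⟩

end Pool.Agent.Lib.MP_aa9b81_an.Rc
end
end

section

/-!
# Rotated sites, part K4: a finite test
-/

open scoped ENNReal Topology ZeroAtInfty
open Function Filter Set

noncomputable section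

set_option linter.unusedSectionVars false

namespace Pool.Agent.Lib.MP_aa9b81_an.Rc

open Cut Hs

variable {Γ Y A : Type} [Group Γ] [TopologicalSpace Y]
  [MulAction Γ Y] [TopologicalSpace A] [MulAction Γ A] [ContinuousConstSMul Γ A]
  [T2Space Y] [LocallyCompactSpace Y] [ContinuousConstSMul Γ Y] [T2Space A] [LocallyCompactSpace A]

/-- The approximation data for a path, independent of the representation. PROOF: let `η > 0` be given. `f t = γ t - 1` is continuous; take a finite net `s`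
for `ε = η / 8` (`exists_finite_net`), for `t' ∈ s` a list `l_{t'}` with `‖f t' - sval l_{t'}‖ ≤ η / 8` (`exists_sval`), `F` the set of all functions `φ` in these
lists, and `δ > 0` with `δ ∑ ‖h‖ ≤ η / 8` for all the lists. For `t ∈ [0,1]` choose `t'`: then `‖f t - sval l_{t'}‖ ≤ η / 4`, and `near_of_sval` gives the bound
`η / 2 + η / 8 ≤ η`. -/
theorem exists_path_data {G : Set C₀(A, ℂ)} (hG : DenseG G) {γ : ℝ → GL1 (cp Γ (Y × A))}
    (h1 : ContinuousOn (fun t => ((γ t : (Fam Γ (Y × A))ˣ) : Fam Γ (Y × A))) (Icc 0 1)) {η : ℝ}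
    (hη : 0 < η) : ∃ (F : Finset C₀(A, ℂ)) (δ : ℝ), (F : Set C₀(A, ℂ)) ⊆ G ∧ 0 < δ ∧
      ∀ (C : Type) [MulAction Γ C] [DecidableEq C] (e : C ↪ ℕ) (w : Wt Γ C)
        (c : ℕ × Bs C ≃ ℕ) (L : LRep (sact e : SAct Γ (Bs C)) A), L.Ok →
        (∀ φ ∈ F, ∃ X, (φ, X) ∈ L.R ∧ NearT Y w e δ X) → ∀ t ∈ Icc (0 : ℝ) 1,
        ∃ k ∈ AE c (sact e : SAct Γ (Bs C)) (U1 C Y),
          ‖L.Th c ⟨((γ t : (Fam Γ (Y × A))ˣ) : Fam Γ (Y × A)) - 1, (γ t).2.1⟩ -
          m1 c (cst (T1 w e)) * L.Th c ⟨((γ t : (Fam Γ (Y × A))ˣ) : Fam Γ (Y × A)) - 1, (γ t).2.1⟩ *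
            m1 c (cst (T1 w e)) - k‖ ≤ η := by
  classical
  have hf : ContinuousOn (fun t => ((γ t : (Fam Γ (Y × A))ˣ) : Fam Γ (Y × A)) - 1) (Icc 0 1) :=
    h1.sub continuousOn_const
  obtain ⟨s, hs, hnet⟩ := exists_finite_net hf (show 0 < η / 8 by positivity)
  have hl : ∀ t : ℝ, ∃ l : List (SDat Γ Y A), (∀ d ∈ l, d.φ ∈ G) ∧
      ‖((γ t : (Fam Γ (Y × A))ˣ) : Fam Γ (Y × A)) - 1 - sval l‖ ≤ η / 8 := fun t =>
    exists_sval hG (γ t).2.1 (by positivity)
  choose l hlG hl using hl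
  set B : ℝ := ∑ t ∈ s, ((l t).map fun d => ‖d.h‖).sum with hB
  have hsum0 : ∀ t, 0 ≤ ((l t).map fun d => ‖d.h‖).sum := fun t =>
    List.sum_nonneg (by
      intro x hx
      obtain ⟨d, _, rfl⟩ := List.mem_map.1 hx
      exact norm_nonneg _)
  have hB0 : 0 ≤ B := Finset.sum_nonneg fun t _ => hsum0 t
  refine ⟨s.biUnion fun t => ((l t).map fun d => d.φ).toFinset, η / (8 * (B + 1)), ?_,
    by positivity, ?_⟩
  · intro φ hφ
    obtain ⟨t, _, h2⟩ := Finset.mem_biUnion.1 (Finset.mem_coe.1 hφ)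
    obtain ⟨d, hd, rfl⟩ := List.mem_map.1 (List.mem_toFinset.1 h2)
    exact hlG t d hd
  · intro C _ _ e w c L hL hF t ht
    obtain ⟨t', ht', h2⟩ := hnet t ht
    have h3 : ∀ d ∈ l t', ∃ X, (d.φ, X) ∈ L.R ∧ NearT Y w e (η / (8 * (B + 1))) X := by
      intro d hd
      exact hF d.φ (Finset.mem_biUnion.2 ⟨t', ht', List.mem_toFinset.2
        (List.mem_map.2 ⟨d, hd, rfl⟩)⟩)
    have h4 : ‖((⟨((γ t : (Fam Γ (Y × A))ˣ) : Fam Γ (Y × A)) - 1, (γ t).2.1⟩ : cp Γ (Y × A)) :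
        Fam Γ (Y × A)) - sval (l t')‖ ≤ η / 4 := by
      have h5 : ((γ t : (Fam Γ (Y × A))ˣ) : Fam Γ (Y × A)) - 1 - sval (l t') =
          (((γ t : (Fam Γ (Y × A))ˣ) : Fam Γ (Y × A)) - 1 -
            (((γ t' : (Fam Γ (Y × A))ˣ) : Fam Γ (Y × A)) - 1)) +
          (((γ t' : (Fam Γ (Y × A))ˣ) : Fam Γ (Y × A)) - 1 - sval (l t')) := by abel
      show ‖((γ t : (Fam Γ (Y × A))ˣ) : Fam Γ (Y × A)) - 1 - sval (l t')‖ ≤ η / 4
      rw [h5]
      refine (norm_add_le _ _).trans ?_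
      have h6 := hl t'
      linarith
    obtain ⟨k, hk, h5⟩ := L.near_of_sval hL w c h3 h4
    refine ⟨k, hk, h5.trans ?_⟩
    have h6 : ((l t').map fun d => ‖d.h‖).sum ≤ B :=
      Finset.single_le_sum (f := fun t => ((l t).map fun d => ‖d.h‖).sum)
        (fun t _ => hsum0 t) ht'
    have h7 : η / (8 * (B + 1)) * ((l t').map fun d => ‖d.h‖).sum ≤ η / 8 := by
      calc η / (8 * (B + 1)) * ((l t').map fun d => ‖d.h‖).sum ≤ η / (8 * (B + 1)) * (B + 1) :=
            mul_le_mul_of_nonneg_left (h6.trans (by linarith)) (by positivity)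
        _ = η / 8 := by
            field_simp
    linarith

/-- THE FINITE TEST. PROOF: a path `γ` from `v` to `1` in `GL1 cp` (`exists_path_of_E1`), modified outside `[0,1]` to have values in the group (e.g. `γ (max 0 (min 1 t))`);
`M` a bound of `‖γ t - 1‖`, `‖(γ t)⁻¹ - 1‖` on `[0,1]` (compactness); `η > 0` with `η (1 + M) ≤ 1 / (16 (1 + M)²)`; `exists_path_data` and
`LRep.d_mem_of_path`. -/
theorem exists_test {G : Set C₀(A, ℂ)} (hG : DenseG G) (v : GL1 (cp Γ (Y × A)))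
    (hv : (v : (Fam Γ (Y × A))ˣ) ∈ E1 (cp Γ (Y × A))) :
    ∃ (F : Finset C₀(A, ℂ)) (δ : ℝ), (F : Set C₀(A, ℂ)) ⊆ G ∧ 0 < δ ∧
      ∀ (C : Type) [MulAction Γ C] [DecidableEq C] (e : C ↪ ℕ) (w : Wt Γ C)
        (c : ℕ × Bs C ≃ ℕ) (L : LRep (sact e : SAct Γ (Bs C)) A) (hL : L.Ok),
        (∀ φ ∈ F, ∃ X, (φ, X) ∈ L.R ∧ NearT Y w e δ X) →
        (L.cyc hL w c).d v ∈ GL1 (AE c (sact e : SAct Γ (Bs C)) (U1 C Y)) →
        (L.cyc hL w c).d v ∈ E1 (cp Γ Y) := by
  obtain ⟨γ, hγ, hc, hc', hγ0, hγ1⟩ := exists_path_of_E1 isClosed_cp hv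
  set pr : ℝ → ℝ := fun t => max 0 (min 1 t) with hpr
  have hpr1 : ∀ t, pr t ∈ Icc (0 : ℝ) 1 := fun t =>
    ⟨le_max_left _ _, max_le zero_le_one (min_le_left _ _)⟩
  have hpr2 : ∀ t ∈ Icc (0 : ℝ) 1, pr t = t := by
    intro t ht
    rw [hpr]
    show max 0 (min 1 t) = t
    rw [min_eq_right ht.2, max_eq_right ht.1]
  set γ' : ℝ → GL1 (cp Γ (Y × A)) := fun t => ⟨γ (pr t), hγ _ (hpr1 t)⟩ with hγ'
  have h1 : ContinuousOn (fun t => ((γ' t : (Fam Γ (Y × A))ˣ) : Fam Γ (Y × A))) (Icc 0 1) := by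
    refine hc.congr fun t ht => ?_
    show ((γ (pr t) : (Fam Γ (Y × A))ˣ) : Fam Γ (Y × A)) = γ t
    rw [hpr2 t ht]
  have h2 : ContinuousOn (fun t => ((((γ' t : (Fam Γ (Y × A))ˣ)⁻¹ : (Fam Γ (Y × A))ˣ)) :
      Fam Γ (Y × A))) (Icc 0 1) := by
    refine hc'.congr fun t ht => ?_
    show (((γ (pr t))⁻¹ : (Fam Γ (Y × A))ˣ) : Fam Γ (Y × A)) = ((γ t)⁻¹ : (Fam Γ (Y × A))ˣ)
    rw [hpr2 t ht]
  have h1' : ContinuousOn (fun t => ((γ' t : (Fam Γ (Y × A))ˣ) : Fam Γ (Y × A)) - 1)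
      (Icc (0 : ℝ) 1) := h1.sub continuousOn_const
  have h2' : ContinuousOn (fun t => ((((γ' t : (Fam Γ (Y × A))ˣ)⁻¹ : (Fam Γ (Y × A))ˣ)) :
      Fam Γ (Y × A)) - 1) (Icc (0 : ℝ) 1) := h2.sub continuousOn_const
  obtain ⟨M1, hM1⟩ := isCompact_Icc.exists_bound_of_continuousOn h1'
  obtain ⟨M2, hM2⟩ := isCompact_Icc.exists_bound_of_continuousOn h2'
  have hM10 : 0 ≤ M1 := (norm_nonneg _).trans (hM1 0 ⟨le_rfl, zero_le_one⟩)
  set M : ℝ := max M1 M2 with hM
  have hM0 : 0 ≤ M := hM10.trans (le_max_left _ _)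
  obtain ⟨F, δ, hFG, hδ, H⟩ := exists_path_data hG h1
    (show 0 < 1 / (16 * ((1 + M) * (1 + M))) / (1 + M) by positivity)
  refine ⟨F, δ, hFG, hδ, ?_⟩
  intro C _ _ e w c L hL hF hv1
  have hv0 : γ' 0 = v := by
    refine Subtype.ext ?_
    show γ (pr 0) = v
    rw [hpr2 0 ⟨le_rfl, zero_le_one⟩, hγ0]
  have hv2 : γ' 1 = 1 := by
    refine Subtype.ext ?_
    show γ (pr 1) = 1
    rw [hpr2 1 ⟨zero_le_one, le_rfl⟩, hγ1]
  have key := L.d_mem_of_path hL w c h1 h2 hv2 hM0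
    (fun t ht => (hM2 t ht).trans (le_max_right _ _))
    (fun t ht => (hM1 t ht).trans (le_max_left _ _))
    (η := 1 / (16 * ((1 + M) * (1 + M))) / (1 + M))
    (le_of_eq (div_mul_cancel₀ _ (by positivity))) (H C e w c L hL hF) (by
      rw [hv0]
      exact hv1)
  rw [hv0] at key
  exact key

end Pool.Agent.Lib.MP_aa9b81_an.Rc
end
end

section

/-!
# Total cutting theorem: injectivity for the cut space
-/

noncomputable section

namespace Pool.Agent.Lib.MP_aa9b81_an.Cut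

open scoped ENNReal Topology ZeroAtInfty
open Filter Topology Set

section Inj

variable {Γ I E : Type} [Group Γ] [Countable Γ] [MulAction Γ I] [Countable I]
  [AddCommGroup E] [Module ℝ E] [TopologicalSpace E] [T2Space E] [ContinuousAdd E]
  [ContinuousSMul ℝ E] [DistribMulAction Γ E] [SMulCommClass Γ ℝ E] [ContinuousConstSMul Γ E]

variable {X V : Type} [TopologicalSpace X] [T2Space X] [LocallyCompactSpace X] [MulAction Γ X]
  [ContinuousConstSMul Γ X] [TopologicalSpace V] [T2Space V] [LocallyCompactSpace V]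
  [MulAction Γ V] [ContinuousConstSMul Γ V]

/-- The cut space `R_f`: the pairs `(x, σ)` with `σ_i = 1` if `f_i(x) > 1` and `σ_i = 0` if
`f_i(x) < -1`. -/
def cutR {Γ I X : Type} [Group Γ] [MulAction Γ I] [MulAction Γ X] (f : I → X → ℝ)
    (hf : ∀ (g : Γ) i x, f (g • i) (g • x) = f i x) : InvSet Γ (X × Pow I) where
  carrier := {p | ∀ i, (1 < f i p.1 → p.2 i = true) ∧ (f i p.1 < -1 → p.2 i = false)}
  inv g p hp i := by
    have h1 := hp (g⁻¹ • i)
    have h2 : f (g⁻¹ • i) p.1 = f i (g • p).1 := by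
      rw [← hf g, smul_inv_smul]
      rfl
    rw [h2] at h1
    exact h1

omit [Countable Γ] [Countable I] [T2Space X] [LocallyCompactSpace X]
  [ContinuousConstSMul Γ X] in
theorem isClosed_cutR {f : I → X → ℝ} (hf : ∀ (g : Γ) i x, f (g • i) (g • x) = f i x)
    (hfc : ∀ i, Continuous (f i)) : IsClosed (cutR f hf).carrier := by
  have h1 : (cutR f hf).carrier = ⋂ i, ({p : X × Pow I | f i p.1 ≤ 1} ∪ {p | p.2 i = true}) ∩
      ({p | -1 ≤ f i p.1} ∪ {p | p.2 i = false}) := by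
    ext p
    simp only [mem_iInter, mem_inter_iff, mem_union, mem_ofPred_eq]
    refine forall_congr' fun i => ?_
    rw [← not_lt, ← not_lt, ← imp_iff_not_or, ← imp_iff_not_or]
  rw [h1]
  refine isClosed_iInter fun i => IsClosed.inter (IsClosed.union ?_ ?_) (IsClosed.union ?_ ?_)
  · exact isClosed_le ((hfc i).comp continuous_fst) continuous_const
  · exact (Pow.isClosed_eval i true).preimage continuous_snd
  · exact isClosed_le continuous_const ((hfc i).comp continuous_fst)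
  · exact (Pow.isClosed_eval i false).preimage continuous_snd

/-- INJECTIVITY. -/
theorem inj_cutR (Q : ConvexSpace Γ E) (hA : PropA Γ) (hI : Sites Q I) {f : I → X → ℝ}
    (hf : ∀ (g : Γ) i x, f (g • i) (g • x) = f i x) (hfc : ∀ i, Continuous (f i))
    {u : (Fam Γ (X × Cone Q × V))ˣ} (hu : u ∈ GL1 (cp Γ (X × Cone Q × V)))
    (hu' : pullU (prP (cutR f hf) (Cone Q × V)) u ∈ E1 (cp Γ ((cutR f hf).Pt × Cone Q × V))) :
    u ∈ E1 (cp Γ (X × Cone Q × V)) := by
  have : LocallyCompactSpace (Cone Q) := cone_locallyCompact Q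
  obtain ⟨q, hq⟩ := hI.exists_q
  obtain ⟨w, hw, hwg⟩ := hI.exists_w
  have hR := isClosed_cutR hf hfc
  obtain ⟨D, hD1, hD2, hD3, hD4, hD5, hD6⟩ := machine (B := X) (V := V) Q hA q hq w hw hwg
    (fun x i => max 0 (min 1 ((f i x.1 + 1) / 2)))
    (fun i => continuous_const.max (continuous_const.min
      ((((hfc i).comp continuous_fst).add continuous_const).div_const 2)))
    (fun x i => le_max_left _ _) (fun x i => max_le zero_le_one (min_le_left _ _))
    (fun g b t i => by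
      change max 0 (min 1 ((f (g • i) (g • b) + 1) / 2)) = max 0 (min 1 ((f i b + 1) / 2))
      rw [hf])
  obtain ⟨a, ha⟩ : ∃ a : (Fam Γ ((X × Pow I) × Cone Q × V))ˣ,
      a = pullU (Prod.map (Prod.fst : X × Pow I → X) (id : Cone Q × V → Cone Q × V)) u :=
    ⟨_, rfl⟩
  have hfst : IsProperMap (Prod.map (Prod.fst : X × Pow I → X)
      (id : Cone Q × V → Cone Q × V)) :=
    isProperMap_fst_of_compactSpace.prodMap isProperMap_id
  have haG : a ∈ GL1 (cp Γ ((X × Pow I) × Cone Q × V)) := by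
    rw [ha]
    exact BA1_mem_GL1 hfst (fun g x => rfl) hu
  have ha' : Units.map ((pull (Prod.map (cutR f hf).val (id : Cone Q × V → Cone Q × V)) :
      Fam Γ ((X × Pow I) × Cone Q × V) →+* Fam Γ ((cutR f hf).Pt × Cone Q × V)) :
      Fam Γ ((X × Pow I) × Cone Q × V) →* Fam Γ ((cutR f hf).Pt × Cone Q × V)) a ∈
      E1 (cp Γ ((cutR f hf).Pt × Cone Q × V)) := by
    rw [ha]
    exact hu'
  obtain ⟨b, hb, hb1, hb2⟩ := exact_middle isClosed_cp isClosed_cp
    (exactSeq_compl (W := Cone Q × V) hA (cutR f hf) hR).lift haG ha'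
  obtain ⟨x, hx, hxb⟩ := (exactSeq_compl (W := Cone Q × V) hA (cutR f hf) hR).exists_ext hb hb1
  -- `D b = 0`
  have h1 : D 0 b ∈ E1 (cp Γ (X × Cone Q × V)) := by
    rw [← hxb]
    refine hD6 0 (fun p i => max 0 (|f i p| - 1)) ?_ (fun _ _ => le_max_left _ _) ?_ ?_
      (cutR f hf).compl.Pt (cutR f hf).compl.val ((cutR f hf).isOpenEmbedding_compl hR)
      (fun g x => rfl) ?_ x hx
    · intro i
      exact continuous_const.max ((hfc i).abs.sub continuous_const)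
    · intro g p i
      rw [hf]
    · intro p i hp
      have h2 : 1 < |f i p| := by
        by_contra h3
        rw [max_eq_left (by linarith)] at hp
        exact lt_irrefl _ hp
      rcases lt_abs.1 h2 with h3 | h3
      · right
        change max 0 (min 1 ((f i p + 1) / 2)) = 1
        rw [min_eq_left (by linarith), max_eq_right zero_le_one]
      · left
        change max 0 (min 1 ((f i p + 1) / 2)) = 0
        rw [min_eq_right (by linarith), max_eq_left (by linarith)]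
    · intro y
      obtain ⟨p, hp⟩ : ∃ p, p = (cutR f hf).compl.val y := ⟨_, rfl⟩
      have h2 : ¬ ∀ i, (1 < f i p.1 → p.2 i = true) ∧ (f i p.1 < -1 → p.2 i = false) := by
        rw [hp]
        exact (cutR f hf).compl.val_mem y
      rw [← hp]
      rw [not_forall] at h2
      obtain ⟨i, hi⟩ := h2
      refine ⟨i, ?_⟩
      rw [not_and_or, Classical.not_imp, Classical.not_imp] at hi
      rcases hi with ⟨h3, h4⟩ | ⟨h3, h4⟩
      · constructor
        · refine lt_max_of_lt_right ?_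
          have := le_abs_self (f i p.1)
          linarith
        · change _ ↔ max 0 (min 1 ((f i p.1 + 1) / 2)) = 0
          rw [min_eq_left (by linarith), max_eq_right zero_le_one]
          constructor
          · intro h5
            exact absurd h5 h4
          · intro h5
            exact absurd h5 one_ne_zero
      · constructor
        · refine lt_max_of_lt_right ?_
          have := neg_le_abs (f i p.1)
          linarith
        · change _ ↔ max 0 (min 1 ((f i p.1 + 1) / 2)) = 0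
          rw [min_eq_right (by linarith), max_eq_left (by linarith)]
          constructor
          · intro _
            rfl
          · intro _
            simpa using h4
  have h2 := hD3 0 b hb (b⁻¹ * a) (mul_mem (inv_mem hb) haG) (hD2 0 _ hb2)
  rw [mul_inv_cancel_left] at h2
  have h5 : u⁻¹ * D 0 a ∈ E1 (cp Γ (X × Cone Q × V)) := by
    rw [ha]
    exact hD5 0 u hu
  have h6 := mul_mem h5 (inv_mem (mul_mem h2 h1))
  have e : u⁻¹ * D 0 a * (D 0 a * (D 0 b)⁻¹ * D 0 b)⁻¹ = u⁻¹ := by group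
  rw [e] at h6
  simpa using inv_mem h6

end Inj

end Pool.Agent.Lib.MP_aa9b81_an.Cut
end
end

section

/-!
# Total cutting theorem: bijectivity by descent
-/

noncomputable section

namespace Pool.Agent.Lib.MP_aa9b81_an.Cut

open scoped ENNReal Topology ZeroAtInfty
open Filter Topology Set

set_option linter.unusedVariables false

section Conj

variable {Γ X Y : Type} [Group Γ] [TopologicalSpace X] [MulAction Γ X]
  [TopologicalSpace Y] [MulAction Γ Y]

/-- Conjugate maps. -/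
theorem isoU_conj {X' Y' : Type} [TopologicalSpace X'] [MulAction Γ X']
    [TopologicalSpace Y'] [MulAction Γ Y'] {p : X → Y} {p' : X' → Y'} (e : X' ≃ₜ X)
    (e' : Y' ≃ₜ Y) (he : ∀ (g : Γ) x, e (g • x) = g • e x)
    (he' : ∀ (g : Γ) x, e' (g • x) = g • e' x) (h : ∀ x, p (e x) = e' (p' x))
    (hp : IsProperMap p) (hep : ∀ (g : Γ) x, p (g • x) = g • p x)
    (hp' : IsProperMap p') (hep' : ∀ (g : Γ) x, p' (g • x) = g • p' x) (h1 : IsoU Γ p) :
    IsoU Γ p' := by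
  have he1 : ∀ (g : Γ) y, e'.symm (g • y) = g • e'.symm y := by
    intro g y
    rw [Homeomorph.symm_apply_eq, he', Homeomorph.apply_symm_apply]
  have h2 := IsoU.comp hp hep e.isProperMap he h1 (IsoU.of_homeomorph e he)
  have h3 := IsoU.comp e'.symm.isProperMap he1 (hp.comp e.isProperMap)
    (fun g x => by rw [Function.comp_apply, Function.comp_apply, he, hep])
    (IsoU.of_homeomorph e'.symm he1) h2
  have h4 : (e'.symm : Y → Y') ∘ p ∘ (e : X' → X) = p' := by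
    funext x
    rw [Function.comp_apply, Function.comp_apply, h, Homeomorph.symm_apply_apply]
  rwa [h4] at h3

/-- Change of the second factor. -/
theorem isoU_map_congr {W W' : Type} [TopologicalSpace W] [MulAction Γ W] [TopologicalSpace W']
    [MulAction Γ W'] {p : X → Y} (hp : IsProperMap p) (hep : ∀ (g : Γ) x, p (g • x) = g • p x)
    (e : W' ≃ₜ W) (he : ∀ (g : Γ) x, e (g • x) = g • e x)
    (h : IsoU Γ (Prod.map p (id : W → W))) : IsoU Γ (Prod.map p (id : W' → W')) :=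
  isoU_conj ((Homeomorph.refl X).prodCongr e) ((Homeomorph.refl Y).prodCongr e)
    (fun g x => Prod.ext rfl (he g x.2)) (fun g x => Prod.ext rfl (he g x.2)) (fun _ => rfl)
    (hp.prodMap isProperMap_id) (fun g x => Prod.ext (hep g x.1) rfl)
    (hp.prodMap isProperMap_id) (fun g x => Prod.ext (hep g x.1) rfl) h

end Conj

/-! ### The indices -/

/-- The index set `ℕ × Γ`, with the action on the second factor. -/
def Idx (Γ : Type) : Type := ℕ × Γ

instance (Γ : Type) [Countable Γ] : Countable (Idx Γ) := inferInstanceAs (Countable (ℕ × Γ))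

instance (Γ : Type) [Group Γ] : MulAction Γ (Idx Γ) where
  smul g q := (q.1, g * q.2)
  one_smul q := Prod.ext rfl (one_mul q.2)
  mul_smul g h q := Prod.ext rfl (mul_assoc g h q.2)

section Desc

variable {Γ X : Type} [Group Γ] [MulAction Γ X]

/-- The translates of a sequence of functions. -/
def shF (f : ℕ → X → ℝ) : Idx Γ → X → ℝ := fun q x => f q.1 (q.2⁻¹ • x)

lemma shF_smul (f : ℕ → X → ℝ) (g : Γ) (q : Idx Γ) (x : X) :
    shF f (g • q) (g • x) = shF f q x := by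
  change f q.1 ((g * q.2)⁻¹ • g • x) = f q.1 (q.2⁻¹ • x)
  rw [mul_inv_rev, mul_smul, inv_smul_smul]

lemma continuous_shF [TopologicalSpace X] [ContinuousConstSMul Γ X] {f : ℕ → X → ℝ}
    (hf : ∀ m, Continuous (f m)) (q : Idx Γ) : Continuous (shF f q) :=
  (hf q.1).comp (continuous_const_smul _)

/-- The cut space of a sequence of functions. -/
def RR (Γ : Type) {X : Type} [Group Γ] [MulAction Γ X] (f : ℕ → X → ℝ) :
    InvSet Γ (X × Pow (Idx Γ)) :=
  cutR (shF f) (fun g q x => shF_smul f g q x)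

lemma isClosed_RR [TopologicalSpace X] [ContinuousConstSMul Γ X] {f : ℕ → X → ℝ}
    (hf : ∀ m, Continuous (f m)) : IsClosed (RR Γ f).carrier :=
  isClosed_cutR _ (continuous_shF hf)

/-- The vertices of the cube. -/
def vtx {Γ : Type} (S : Pow (Idx Γ)) : Cfg Γ := fun q =>
  if S q = true then ⟨1, zero_le_one, le_rfl⟩ else ⟨0, le_rfl, zero_le_one⟩

lemma vtx_co {Γ : Type} (S : Pow (Idx Γ)) (q : ℕ × Γ) :
    (vtx S).co q = if S q = true then 1 else 0 := by
  change (((if S q = true then ⟨1, zero_le_one, le_rfl⟩ else ⟨0, le_rfl, zero_le_one⟩ :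
    Icc (0 : ℝ) 1)) : ℝ) = _
  split_ifs <;> rfl

lemma vtx_injective {Γ : Type} {S S' : Pow (Idx Γ)} (hS : vtx S = vtx S') : S = S' := by
  refine funext fun q : ℕ × Γ => ?_
  have h4 : (vtx S).co q = (vtx S').co q := by rw [hS]
  rw [vtx_co, vtx_co] at h4
  rcases h5 : S q with _ | _ <;> rcases h6 : S' q with _ | _ <;> simp_all

lemma vtx_smul (g : Γ) (S : Pow (Idx Γ)) : vtx (g • S) = g • vtx S := rfl

lemma continuous_vtx {Γ : Type} : Continuous (vtx : Pow (Idx Γ) → Cfg Γ) := by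
  refine continuous_pi fun q => ?_
  exact (continuous_of_discreteTopology (f := fun b : Bool =>
    if b = true then (⟨1, zero_le_one, le_rfl⟩ : Icc (0 : ℝ) 1) else ⟨0, le_rfl, zero_le_one⟩)).comp
      (Pow.continuous_eval (I := Idx Γ) q)

lemma vtx_mem_box {f : ℕ → X → ℝ} {p : X × Pow (Idx Γ)} (hp : p ∈ (RR Γ f).carrier) :
    (p.1, vtx p.2) ∈ (box f 1 : InvSet Γ (X × Cfg Γ)).carrier := by
  intro m g
  have h := hp (m, g)
  constructor
  · intro h1
    change (vtx p.2).co (m, g) = 1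
    rw [vtx_co, if_pos (h.1 h1)]
  · intro h1
    change (vtx p.2).co (m, g) = 0
    have h2 : p.2 (m, g) = false := h.2 h1
    rw [vtx_co]
    rw [if_neg]
    rw [h2]
    exact Bool.false_ne_true

/-- The inclusion of the cut space into the box space. -/
def cR (f : ℕ → X → ℝ) (p : (RR Γ f).Pt) : (box f 1 : InvSet Γ (X × Cfg Γ)).Pt :=
  (box f 1 : InvSet Γ (X × Cfg Γ)).pt (((RR Γ f).val p).1, vtx ((RR Γ f).val p).2)
    (vtx_mem_box ((RR Γ f).val_mem p))

lemma cR_smul (f : ℕ → X → ℝ) (g : Γ) (p : (RR Γ f).Pt) : cR f (g • p) = g • cR f p := rfl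

/-- The rest of the box space. -/
def boxO (Γ : Type) {X : Type} [Group Γ] [MulAction Γ X] (f : ℕ → X → ℝ) :
    InvSet Γ (X × Cfg Γ) where
  carrier := {p | p ∈ (box f 1 : InvSet Γ (X × Cfg Γ)).carrier ∧ ∃ q, p.2.co q ≠ 0 ∧ p.2.co q ≠ 1}
  inv g p hp := by
    refine ⟨(box f 1).inv g p hp.1, ?_⟩
    obtain ⟨⟨m, h⟩, hq⟩ := hp.2
    refine ⟨(m, g * h), ?_⟩
    change (g • p.2).co (m, g * h) ≠ 0 ∧ (g • p.2).co (m, g * h) ≠ 1
    rw [Cfg.smul_co, inv_mul_cancel_left]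
    exact hq

lemma boxO_subset (f : ℕ → X → ℝ) :
    (boxO Γ f).carrier ⊆ (box f 1 : InvSet Γ (X × Cfg Γ)).carrier := fun _ h => h.1

/-- The inclusion of the rest into the box space. -/
def oR (f : ℕ → X → ℝ) : (boxO Γ f).Pt → (box f 1 : InvSet Γ (X × Cfg Γ)).Pt :=
  InvSet.incl (boxO_subset f)

lemma oR_smul (f : ℕ → X → ℝ) (g : Γ) (p : (boxO Γ f).Pt) : oR f (g • p) = g • oR f p := rfl

lemma injective_cR (f : ℕ → X → ℝ) : Function.Injective (cR (Γ := Γ) f) := by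
  intro p p' h
  apply (RR Γ f).val_injective
  have h2 : ((RR Γ f).val p).1 = ((RR Γ f).val p').1 :=
    congrArg (fun y => ((box f 1 : InvSet Γ (X × Cfg Γ)).val y).1) h
  have h3 : vtx ((RR Γ f).val p).2 = vtx ((RR Γ f).val p').2 :=
    congrArg (fun y => ((box f 1 : InvSet Γ (X × Cfg Γ)).val y).2) h
  exact Prod.ext h2 (vtx_injective h3)

lemma range_oR (f : ℕ → X → ℝ) : range (oR (Γ := Γ) f) = (range (cR (Γ := Γ) f))ᶜ := by
  ext y
  constructor
  · rintro ⟨x, rfl⟩ ⟨p, hp⟩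
    obtain ⟨-, q, hq0, hq1⟩ := (boxO Γ f).val_mem x
    have h1 := congrArg (fun y => ((box f 1 : InvSet Γ (X × Cfg Γ)).val y).2.co q) hp
    change (vtx ((RR Γ f).val p).2).co q = ((boxO Γ f).val x).2.co q at h1
    rw [← h1, vtx_co] at hq0 hq1
    split_ifs at hq0 hq1 <;> simp_all
  · intro hy
    by_contra h
    apply hy
    have h1 : ∀ q, ((box f 1 : InvSet Γ (X × Cfg Γ)).val y).2.co q ≠ 0 →
        ((box f 1 : InvSet Γ (X × Cfg Γ)).val y).2.co q = 1 := by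
      intro q h0
      by_contra h1
      exact h ⟨(boxO Γ f).pt ((box f 1 : InvSet Γ (X × Cfg Γ)).val y)
        ⟨(box f 1 : InvSet Γ (X × Cfg Γ)).val_mem y, q, h0, h1⟩, rfl⟩
    classical
    obtain ⟨S, hS⟩ : ∃ S : Pow (Idx Γ), S = fun q =>
      decide (((box f 1 : InvSet Γ (X × Cfg Γ)).val y).2.co q ≠ 0) := ⟨_, rfl⟩
    have hSv : ∀ q : ℕ × Γ, S q = true ↔ ((box f 1 : InvSet Γ (X × Cfg Γ)).val y).2.co q ≠ 0 := by
      intro q
      rw [hS]
      exact decide_eq_true_iff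
    have h2 : vtx S = ((box f 1 : InvSet Γ (X × Cfg Γ)).val y).2 := by
      funext q
      apply Subtype.ext
      change (vtx S).co q = ((box f 1 : InvSet Γ (X × Cfg Γ)).val y).2.co q
      rw [vtx_co]
      by_cases h3 : ((box f 1 : InvSet Γ (X × Cfg Γ)).val y).2.co q = 0
      · rw [if_neg (by rw [hSv]; exact fun h => h h3), h3]
      · rw [if_pos ((hSv q).2 h3), h1 q h3]
    have h3 : (((box f 1 : InvSet Γ (X × Cfg Γ)).val y).1, S) ∈ (RR Γ f).carrier := by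
      rintro ⟨m, g⟩
      have h4 := (box f 1 : InvSet Γ (X × Cfg Γ)).val_mem y m g
      constructor
      · intro h5
        change S (m, g) = true
        rw [hSv, h4.1 h5]
        exact one_ne_zero
      · intro h5
        change S (m, g) = false
        rw [← Bool.not_eq_true, hSv, not_not]
        exact h4.2 h5
    refine ⟨(RR Γ f).pt _ h3, ?_⟩
    apply (box f 1 : InvSet Γ (X × Cfg Γ)).val_injective
    exact Prod.ext rfl h2

end Desc

section DescTop

variable {Γ X : Type} [Group Γ] [MulAction Γ X] [TopologicalSpace X] [ContinuousConstSMul Γ X]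
  [T2Space X]

omit [ContinuousConstSMul Γ X] [T2Space X] in
lemma continuous_cR (f : ℕ → X → ℝ) : Continuous (cR (Γ := Γ) f) :=
  Continuous.subtype_mk ((continuous_fst.comp (RR Γ f).continuous_val).prodMk
    (continuous_vtx.comp (continuous_snd.comp (RR Γ f).continuous_val))) _

lemma isProperMap_cR {f : ℕ → X → ℝ} (hf : ∀ m, Continuous (f m)) :
    IsProperMap (cR (Γ := Γ) f) := by
  have h1 : IsProperMap fun p : (box f 1 : InvSet Γ (X × Cfg Γ)).Pt =>
      ((box f 1 : InvSet Γ (X × Cfg Γ)).val p).1 :=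
    isProperMap_fst_of_compactSpace.comp
      ((box f 1 : InvSet Γ (X × Cfg Γ)).isClosedEmbedding_val (isClosed_box hf 1)).isProperMap
  refine isProperMap_of_comp_of_t2 (continuous_cR f) h1.continuous ?_
  exact isProperMap_prP_aux (RR Γ f) (isClosed_RR hf)

lemma isClosedEmbedding_cR {f : ℕ → X → ℝ} (hf : ∀ m, Continuous (f m)) :
    IsClosedEmbedding (cR (Γ := Γ) f) :=
  IsClosedEmbedding.of_continuous_injective_isClosedMap (continuous_cR f) (injective_cR f)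
    (isProperMap_cR hf).isClosedMap

lemma isOpenEmbedding_oR {f : ℕ → X → ℝ} (hf : ∀ m, Continuous (f m)) :
    IsOpenEmbedding (oR (Γ := Γ) f) := by
  refine ⟨InvSet.BA2_isEmbedding (boxO_subset f), ?_⟩
  rw [range_oR]
  exact (isClosedEmbedding_cR hf).isClosed_range.isOpen_compl

end DescTop

section StepA

variable {Γ X W : Type} [Group Γ] [MulAction Γ X] [TopologicalSpace X] [ContinuousConstSMul Γ X]
  [T2Space X] [LocallyCompactSpace X] [TopologicalSpace W] [T2Space W] [LocallyCompactSpace W]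
  [MulAction Γ W] [ContinuousConstSMul Γ W]

/-- `K₁` of the cut space and of the box space. -/
theorem isoU_cR {f : ℕ → X → ℝ} (hf : ∀ m, Continuous (f m)) (h : IsoU Γ (prP (RR Γ f) W)) :
    IsoU Γ (Prod.map (cR (Γ := Γ) f) (id : W → W)) := by
  refine IsoU.of_comp_left (isProperMap_prX (V := W) (box f 1 : InvSet Γ (X × Cfg Γ))
    (isClosed_box hf 1)) (prX_smul _) ((isProperMap_cR hf).prodMap isProperMap_id)
    (fun g x => rfl) ?_ (isoU_box_pos hf one_pos)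
  exact h

theorem isoU_prP_of_cR {f : ℕ → X → ℝ} (hf : ∀ m, Continuous (f m))
    (h : IsoU Γ (Prod.map (cR (Γ := Γ) f) (id : W → W))) : IsoU Γ (prP (RR Γ f) W) := by
  have h1 := IsoU.comp (isProperMap_prX (V := W) (box f 1 : InvSet Γ (X × Cfg Γ))
    (isClosed_box hf 1)) (prX_smul _) ((isProperMap_cR hf).prodMap isProperMap_id)
    (fun g x => rfl) (isoU_box_pos hf one_pos) h
  exact h1

/-- STEP A. -/
theorem boxO_le_of_isoU (hA : PropA Γ) {f : ℕ → X → ℝ} (hf : ∀ m, Continuous (f m))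
    (h0 : IsoU Γ (prP (RR Γ f) W)) (h1 : IsoU Γ (prP (RR Γ f) (W × OO))) :
    GL1 (cp Γ ((boxO Γ f).Pt × W)) ≤ E1 (cp Γ ((boxO Γ f).Pt × W)) := by
  have : LocallyCompactSpace (box f 1 : InvSet Γ (X × Cfg Γ)).Pt :=
    InvSet.locallyCompactSpace _ (isClosed_box hf 1).isLocallyClosed
  have hco : range (Prod.map (oR (Γ := Γ) f) (id : W → W)) =
      (range (Prod.map (cR (Γ := Γ) f) (id : W → W)))ᶜ := by
    rw [Set.range_prodMap, Set.range_prodMap, range_oR]
    ext ⟨x, t⟩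
    simp
  refine GL1_le_E1_of_surj (P := (box f 1 : InvSet Γ (X × Cfg Γ)).Pt × W)
    (C := (RR Γ f).Pt × W) hA ((isClosedEmbedding_cR hf).prodMap IsClosedEmbedding.id)
    (fun g x => rfl) ((isOpenEmbedding_oR hf).prodMap IsOpenEmbedding.id) (fun g x => rfl) hco
    (isoU_cR hf h0).1 ?_
  exact ((isoU_assoc (V := W) (isProperMap_cR hf) (cR_smul f)).2 (isoU_cR hf h1)).2

end StepA

section Main

variable {Γ E : Type} [Group Γ] [Countable Γ]
  [AddCommGroup E] [Module ℝ E] [TopologicalSpace E] [T2Space E] [ContinuousAdd E]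
  [ContinuousSMul ℝ E] [DistribMulAction Γ E] [SMulCommClass Γ ℝ E] [ContinuousConstSMul Γ E]

variable {X V : Type} [TopologicalSpace X] [T2Space X] [LocallyCompactSpace X] [MulAction Γ X]
  [ContinuousConstSMul Γ X] [TopologicalSpace V] [T2Space V] [LocallyCompactSpace V]
  [MulAction Γ V] [ContinuousConstSMul Γ V]

/-- The functions on the cut space. -/
def fR (Γ : Type) {X : Type} [Group Γ] [MulAction Γ X] (f : ℕ → X → ℝ) : ℕ → (RR Γ f).Pt → ℝ :=
  fun m p => f m ((RR Γ f).val p).1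

omit [Countable Γ] [T2Space X] [LocallyCompactSpace X] [ContinuousConstSMul Γ X] in
lemma continuous_fR {f : ℕ → X → ℝ} (hf : ∀ m, Continuous (f m)) (m : ℕ) :
    Continuous (fR Γ f m) :=
  (hf m).comp (continuous_fst.comp (RR Γ f).continuous_val)

omit [Group Γ] [Countable Γ] in
lemma xor_xor_self' (a b : Bool) : xor a (xor a b) = b := by
  rw [← Bool.xor_assoc, Bool.xor_self, Bool.false_xor]

/-- The pairs of points of the cut space over the same point are a hereditary family, relative to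
the first one. -/
def HR (Γ : Type) {X : Type} [Group Γ] [MulAction Γ X] (f : ℕ → X → ℝ) :
    InvSet Γ ((RR Γ f).Pt × Pow (Idx Γ)) where
  carrier := {p | ∀ q, p.2 q = true → |shF (Γ := Γ) (fR Γ f) q p.1| ≤ 1}
  inv g p hp q hq := by
    have h1 := hp (g⁻¹ • q) hq
    have h2 : shF (Γ := Γ) (fR Γ f) (g⁻¹ • q) p.1 = shF (fR Γ f) q (g • p).1 := by
      rw [← shF_smul (fR Γ f) g (g⁻¹ • q) p.1, smul_inv_smul]
      rfl
    rwa [h2] at h1

omit [Countable Γ] [T2Space X] [LocallyCompactSpace X] in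
lemma isClosed_HR {f : ℕ → X → ℝ} (hf : ∀ m, Continuous (f m)) : IsClosed (HR Γ f).carrier := by
  have h1 : (HR Γ f).carrier = ⋂ q : Idx Γ, ({p : (RR Γ f).Pt × Pow (Idx Γ) | p.2 q = false} ∪
      {p | |shF (Γ := Γ) (fR Γ f) q p.1| ≤ 1}) := by
    ext p
    simp only [mem_iInter, mem_union, mem_ofPred_eq]
    refine forall_congr' fun q => ?_
    rcases h : p.2 q with _ | _ <;> simp
  rw [h1]
  refine isClosed_iInter fun q => IsClosed.union ?_ ?_
  · exact (Pow.isClosed_eval q false).preimage continuous_snd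
  · exact isClosed_le ((continuous_shF (continuous_fR hf) q).comp continuous_fst).abs
      continuous_const

omit [TopologicalSpace X] [T2Space X] [LocallyCompactSpace X] [ContinuousConstSMul Γ X]
  [Countable Γ] in
lemma sxor_mem (f : ℕ → X → ℝ) {p : (RR Γ f).Pt} {S : Pow (Idx Γ)} :
    (p, S) ∈ (RR Γ (fR Γ f)).carrier ↔
      (p, fun q => xor (((RR Γ f).val p).2 q) (S q)) ∈ (HR Γ f).carrier := by
  have hp := (RR Γ f).val_mem p
  constructor
  · intro h q
    have h1 := h q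
    have h2 := hp q
    change (1 < shF (fR Γ f) q p → _) ∧ (shF (fR Γ f) q p < -1 → _) at h1
    change (1 < shF (fR Γ f) q p → _) ∧ (shF (fR Γ f) q p < -1 → _) at h2
    change xor (((RR Γ f).val p).2 q) (S q) = true → |shF (fR Γ f) q p| ≤ 1
    intro h3
    rw [abs_le]
    constructor
    · by_contra h4
      rw [not_le] at h4
      have h5 : S q = false := h1.2 h4
      rw [h2.2 h4, h5] at h3
      exact Bool.false_ne_true h3
    · by_contra h4
      rw [not_le] at h4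
      have h5 : S q = true := h1.1 h4
      rw [h2.1 h4, h5] at h3
      exact Bool.false_ne_true h3
  · intro h q
    have h1 : xor (((RR Γ f).val p).2 q) (S q) = true → |shF (fR Γ f) q p| ≤ 1 := h q
    have h2 := hp q
    change (1 < shF (fR Γ f) q p → _) ∧ (shF (fR Γ f) q p < -1 → _) at h2
    change (1 < shF (fR Γ f) q p → S q = true) ∧ (shF (fR Γ f) q p < -1 → S q = false)
    constructor
    · intro h3
      by_contra h4
      rw [Bool.not_eq_true] at h4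
      rw [h2.1 h3, h4] at h1
      have h5 := (abs_le.1 (h1 rfl)).2
      linarith
    · intro h3
      by_contra h4
      rw [Bool.not_eq_false] at h4
      rw [h2.2 h3, h4] at h1
      have h5 := (abs_le.1 (h1 rfl)).1
      linarith

omit [TopologicalSpace X] [T2Space X] [LocallyCompactSpace X] [ContinuousConstSMul Γ X]
  [Countable Γ] in
lemma sxor_mem' (f : ℕ → X → ℝ) {p : (RR Γ f).Pt} {S : Pow (Idx Γ)} :
    (p, S) ∈ (HR Γ f).carrier ↔
      (p, fun q => xor (((RR Γ f).val p).2 q) (S q)) ∈ (RR Γ (fR Γ f)).carrier := by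
  have h1 : (fun q => xor (((RR Γ f).val p).2 q) (xor (((RR Γ f).val p).2 q) (S q))) = S := by
    funext q
    rw [← Bool.xor_assoc, Bool.xor_self, Bool.false_xor]
  have h2 := sxor_mem f (p := p) (S := fun q => xor (((RR Γ f).val p).2 q) (S q))
  rw [h1] at h2
  exact h2.symm

/-- The homeomorphism. -/
def eHR (f : ℕ → X → ℝ) : (RR Γ (fR Γ f)).Pt ≃ₜ (HR Γ f).Pt where
  toFun x := (HR Γ f).pt (((RR Γ (fR Γ f)).val x).1,
    fun q => xor (((RR Γ f).val ((RR Γ (fR Γ f)).val x).1).2 q) (((RR Γ (fR Γ f)).val x).2 q))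
    ((sxor_mem f).1 ((RR Γ (fR Γ f)).val_mem x))
  invFun x := (RR Γ (fR Γ f)).pt (((HR Γ f).val x).1,
    fun q => xor (((RR Γ f).val ((HR Γ f).val x).1).2 q) (((HR Γ f).val x).2 q))
    ((sxor_mem' f).1 ((HR Γ f).val_mem x))
  left_inv x := by
    apply (RR Γ (fR Γ f)).val_injective
    refine Prod.ext rfl (funext fun q => ?_)
    exact xor_xor_self' _ _
  right_inv x := by
    apply (HR Γ f).val_injective
    refine Prod.ext rfl (funext fun q => ?_)
    exact xor_xor_self' _ _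
  continuous_toFun := by
    have h1 := (RR Γ (fR Γ f)).continuous_val
    refine Continuous.subtype_mk ((continuous_fst.comp h1).prodMk (continuous_pi fun q => ?_)) _
    have h2 : Continuous fun x : (RR Γ (fR Γ f)).Pt =>
        (((RR Γ f).val ((RR Γ (fR Γ f)).val x).1).2 q, ((RR Γ (fR Γ f)).val x).2 q) :=
      ((Pow.continuous_eval q).comp (continuous_snd.comp
        ((RR Γ f).continuous_val.comp (continuous_fst.comp h1)))).prodMk
        ((Pow.continuous_eval q).comp (continuous_snd.comp h1))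
    exact (continuous_of_discreteTopology (f := fun b : Bool × Bool => xor b.1 b.2)).comp h2
  continuous_invFun := by
    have h1 := (HR Γ f).continuous_val
    refine Continuous.subtype_mk ((continuous_fst.comp h1).prodMk (continuous_pi fun q => ?_)) _
    have h2 : Continuous fun x : (HR Γ f).Pt =>
        (((RR Γ f).val ((HR Γ f).val x).1).2 q, ((HR Γ f).val x).2 q) :=
      ((Pow.continuous_eval q).comp (continuous_snd.comp
        ((RR Γ f).continuous_val.comp (continuous_fst.comp h1)))).prodMk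
        ((Pow.continuous_eval q).comp (continuous_snd.comp h1))
    exact (continuous_of_discreteTopology (f := fun b : Bool × Bool => xor b.1 b.2)).comp h2

/-- STEP B1: the fibre product of the cut space with itself. -/
theorem isoU_RR_fR (Q : ConvexSpace Γ E) (hA : PropA Γ) (hI : Sites Q (Idx Γ))
    {f : ℕ → X → ℝ} (hf : ∀ m, Continuous (f m)) :
    IsoU Γ (prP (RR Γ (fR Γ f)) (Cone Q × V)) := by
  have : LocallyCompactSpace (RR Γ f).Pt :=
    InvSet.locallyCompactSpace _ (isClosed_RR hf).isLocallyClosed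
  have h1 : IsoU Γ (prP (HR Γ f) (Cone Q × V)) := by
    refine isoU_hered Q hA hI (HR Γ f) (isClosed_HR hf) ?_ ?_
    · intro b S S' h h' q hq
      exact h q (h' q hq)
    · intro b q hq
      exact absurd hq Bool.false_ne_true
  refine isoU_conj ((eHR f).prodCongr (Homeomorph.refl (Cone Q × V)))
    (Homeomorph.refl ((RR Γ f).Pt × Cone Q × V)) (fun g x => ?_) (fun g x => rfl)
    (fun x => rfl) (isProperMap_prP _ (isClosed_HR hf)) (fun g x => rfl)
    (isProperMap_prP _ (isClosed_RR (continuous_fR hf))) (fun g x => rfl) h1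
  rfl

/-- STEP B2. -/
theorem boxO_fR_le (Q : ConvexSpace Γ E) (hA : PropA Γ) (hI : Sites Q (Idx Γ))
    {f : ℕ → X → ℝ} (hf : ∀ m, Continuous (f m)) :
    GL1 (cp Γ ((boxO Γ (fR Γ f)).Pt × Cone Q × V)) ≤
      E1 (cp Γ ((boxO Γ (fR Γ f)).Pt × Cone Q × V)) := by
  have : LocallyCompactSpace (Cone Q) := cone_locallyCompact Q
  have : LocallyCompactSpace (RR Γ f).Pt :=
    InvSet.locallyCompactSpace _ (isClosed_RR hf).isLocallyClosed
  refine boxO_le_of_isoU hA (continuous_fR hf) (isoU_RR_fR Q hA hI hf) ?_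
  exact isoU_map_congr (isProperMap_prP_aux (RR Γ (fR Γ f)) (isClosed_RR (continuous_fR hf)))
    (fun g x => rfl) (Homeomorph.prodAssoc (Cone Q) V OO) (fun g x => rfl)
    (isoU_RR_fR Q hA hI hf)

/-- The functions on the rest of the box space. -/
def fO (Γ : Type) {X : Type} [Group Γ] [MulAction Γ X] (f : ℕ → X → ℝ) : ℕ → (boxO Γ f).Pt → ℝ :=
  fun m p => f m ((boxO Γ f).val p).1

omit [Countable Γ] [T2Space X] [LocallyCompactSpace X] [ContinuousConstSMul Γ X] in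
lemma continuous_fO {f : ℕ → X → ℝ} (hf : ∀ m, Continuous (f m)) (m : ℕ) :
    Continuous (fO Γ f m) :=
  (hf m).comp (continuous_fst.comp (boxO Γ f).continuous_val)

/-- The cut space over the rest of the box space is the rest of the box space over the cut
space. -/
def eSwap (f : ℕ → X → ℝ) : (boxO Γ (fR Γ f)).Pt ≃ₜ (RR Γ (fO Γ f)).Pt where
  toFun x := (RR Γ (fO Γ f)).pt ((boxO Γ f).pt
      (((RR Γ f).val ((boxO Γ (fR Γ f)).val x).1).1, ((boxO Γ (fR Γ f)).val x).2)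
      ((boxO Γ (fR Γ f)).val_mem x), ((RR Γ f).val ((boxO Γ (fR Γ f)).val x).1).2)
    ((RR Γ f).val_mem ((boxO Γ (fR Γ f)).val x).1)
  invFun x := (boxO Γ (fR Γ f)).pt ((RR Γ f).pt
      (((boxO Γ f).val ((RR Γ (fO Γ f)).val x).1).1, ((RR Γ (fO Γ f)).val x).2)
      ((RR Γ (fO Γ f)).val_mem x), ((boxO Γ f).val ((RR Γ (fO Γ f)).val x).1).2)
    ((boxO Γ f).val_mem ((RR Γ (fO Γ f)).val x).1)
  left_inv x := rfl
  right_inv x := rfl
  continuous_toFun := by
    have h1 := (boxO Γ (fR Γ f)).continuous_val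
    have h2 := (RR Γ f).continuous_val.comp (continuous_fst.comp h1)
    exact Continuous.subtype_mk ((Continuous.subtype_mk ((continuous_fst.comp h2).prodMk
      (continuous_snd.comp h1)) _).prodMk (continuous_snd.comp h2)) _
  continuous_invFun := by
    have h1 := (RR Γ (fO Γ f)).continuous_val
    have h2 := (boxO Γ f).continuous_val.comp (continuous_fst.comp h1)
    exact Continuous.subtype_mk ((Continuous.subtype_mk ((continuous_fst.comp h2).prodMk
      (continuous_snd.comp h1)) _).prodMk (continuous_snd.comp h2)) _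

/-- STEP C. -/
theorem boxO_le (Q : ConvexSpace Γ E) (hA : PropA Γ) (hI : Sites Q (Idx Γ))
    {f : ℕ → X → ℝ} (hf : ∀ m, Continuous (f m)) :
    GL1 (cp Γ ((boxO Γ f).Pt × Cone Q × V)) ≤ E1 (cp Γ ((boxO Γ f).Pt × Cone Q × V)) := by
  have : LocallyCompactSpace (Cone Q) := cone_locallyCompact Q
  have : LocallyCompactSpace (box f 1 : InvSet Γ (X × Cfg Γ)).Pt :=
    InvSet.locallyCompactSpace _ (isClosed_box hf 1).isLocallyClosed
  have : LocallyCompactSpace (boxO Γ f).Pt := (isOpenEmbedding_oR hf).locallyCompactSpace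
  intro u hu
  refine inj_cutR Q hA hI (fun g q x => shF_smul (fO Γ f) g q x)
    (continuous_shF (continuous_fO hf)) hu ?_
  have h1 : GL1 (cp Γ ((RR Γ (fO Γ f)).Pt × Cone Q × V)) ≤
      E1 (cp Γ ((RR Γ (fO Γ f)).Pt × Cone Q × V)) :=
    GL1_le_E1_of_homeomorph ((eSwap f).prodCongr (Homeomorph.refl (Cone Q × V)))
      (fun g x => rfl) (boxO_fR_le Q hA hI hf)
  exact h1 (BA1_mem_GL1 (isProperMap_prP _ (isClosed_RR (continuous_fO hf))) (fun g x => rfl) hu)

/-- STEP D: BIJECTIVITY. -/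
theorem isoU_RR (Q : ConvexSpace Γ E) (hA : PropA Γ) (hI : Sites Q (Idx Γ))
    {f : ℕ → X → ℝ} (hf : ∀ m, Continuous (f m)) :
    IsoU Γ (prP (RR Γ f) ((Cone Q × V) × OO)) := by
  have : LocallyCompactSpace (Cone Q) := cone_locallyCompact Q
  have : LocallyCompactSpace (box f 1 : InvSet Γ (X × Cfg Γ)).Pt :=
    InvSet.locallyCompactSpace _ (isClosed_box hf 1).isLocallyClosed
  refine isoU_prP_of_cR hf ?_
  rw [← isoU_assoc (isProperMap_cR hf) (cR_smul f)]
  have hp : IsProperMap (Prod.map (Prod.map (cR (Γ := Γ) f) (id : Cone Q × V → Cone Q × V))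
      (id : OO → OO)) := ((isProperMap_cR hf).prodMap isProperMap_id).prodMap isProperMap_id
  rw [isoU_iff hp (fun _ _ => rfl)]
  have hco : range (Prod.map (oR (Γ := Γ) f) (id : Cone Q × V → Cone Q × V)) =
      (range (Prod.map (cR (Γ := Γ) f) (id : Cone Q × V → Cone Q × V)))ᶜ := by
    rw [Set.range_prodMap, Set.range_prodMap, range_oR]
    ext ⟨x, t⟩
    simp
  refine K1_pull_bijective_step hA ((isClosedEmbedding_cR hf).prodMap IsClosedEmbedding.id)
    (fun _ _ => rfl) ((isOpenEmbedding_oR hf).prodMap IsOpenEmbedding.id) (fun _ _ => rfl) hco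
    (boxO_le Q hA hI hf) ?_ hp (fun _ _ => rfl)
  exact GL1_le_E1_of_homeomorph
    ((Homeomorph.refl (boxO Γ f).Pt).prodCongr (Homeomorph.prodAssoc (Cone Q) V OO).symm |>.trans
      (Homeomorph.prodAssoc (boxO Γ f).Pt (Cone Q × V) OO).symm) (fun _ _ => rfl)
    (boxO_le (V := V × OO) Q hA hI hf)

end Main

end Pool.Agent.Lib.MP_aa9b81_an.Cut
end
end
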