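import Pool.Agent.Lib.MP_aa9b81_an.Mg.G024
import Pool.Agent.Lib.MP_aa9b81_an.Mg.G032
import Pool.Agent.Lib.MP_aa9b81_an.Mg.G021

section

/-!
# Products of simplices
-/

noncomputable section

namespace Pool.Agent.Lib.MP_aa9b81_an.Cut

open scoped ENNReal Topology ZeroAtInfty
open Filter Topology Set

/-- The space `[0,1]^C`. -/
def Cf (C : Type) : Type := C → Icc (0 : ℝ) 1

instance (C : Type) : TopologicalSpace (Cf C) := inferInstanceAs (TopologicalSpace (C → Icc (0 : ℝ) 1))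

instance (C : Type) : T2Space (Cf C) := inferInstanceAs (T2Space (C → Icc (0 : ℝ) 1))

instance (C : Type) : CompactSpace (Cf C) := inferInstanceAs (CompactSpace (C → Icc (0 : ℝ) 1))

instance (Γ C : Type) [Group Γ] [MulAction Γ C] : MulAction Γ (Cf C) where
  smul g t := fun c => t (g⁻¹ • c)
  one_smul t := funext fun c => by
    change t ((1 : Γ)⁻¹ • c) = t c
    rw [inv_one, one_smul]
  mul_smul g h t := funext fun c => by
    change t ((g * h)⁻¹ • c) = t (h⁻¹ • g⁻¹ • c)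
    rw [mul_inv_rev, mul_smul]

/-- The coordinates, as real numbers. -/
def Cf.co {C : Type} (t : Cf C) (c : C) : ℝ := (t c : ℝ)

lemma Cf.co_mem {C : Type} (t : Cf C) (c : C) : 0 ≤ t.co c ∧ t.co c ≤ 1 := (t c).2

lemma Cf.smul_co {Γ C : Type} [Group Γ] [MulAction Γ C] (g : Γ) (t : Cf C) (c : C) :
    (g • t).co c = t.co (g⁻¹ • c) := rfl

lemma Cf.ext' {C : Type} {t t' : Cf C} (h : ∀ c, t.co c = t'.co c) : t = t' :=
  funext fun c => Subtype.ext (h c)

lemma Cf.continuous_co {C : Type} (c : C) : Continuous fun t : Cf C => t.co c :=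
  continuous_subtype_val.comp (continuous_apply (A := fun _ : C => Icc (0 : ℝ) 1) c)

instance (Γ C : Type) [Group Γ] [MulAction Γ C] : ContinuousConstSMul Γ (Cf C) :=
  ⟨fun g => continuous_pi fun c => continuous_apply (A := fun _ : C => Icc (0 : ℝ) 1) (g⁻¹ • c)⟩

/-- Convex combinations. -/
def Cf.mix {C : Type} (r : Icc (0 : ℝ) 1) (t t' : Cf C) : Cf C := fun c =>
  ⟨(1 - (r : ℝ)) * t.co c + r * t'.co c, by
    have h1 := t.co_mem c
    have h2 := t'.co_mem c
    have h3 := r.2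
    constructor
    · have := mul_nonneg (sub_nonneg.2 h3.2) h1.1
      have := mul_nonneg h3.1 h2.1
      linarith
    · have := mul_le_mul_of_nonneg_left h1.2 (sub_nonneg.2 h3.2)
      have := mul_le_mul_of_nonneg_left h2.2 h3.1
      linarith⟩

lemma Cf.mix_co {C : Type} (r : Icc (0 : ℝ) 1) (t t' : Cf C) (c : C) :
    (Cf.mix r t t').co c = (1 - (r : ℝ)) * t.co c + r * t'.co c := rfl

section Convex

variable {Γ C X W : Type} [Group Γ] [MulAction Γ C] [TopologicalSpace X] [MulAction Γ X]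
  [ContinuousConstSMul Γ X] [T2Space X] [LocallyCompactSpace X] [TopologicalSpace W]
  [MulAction Γ W] [ContinuousConstSMul Γ W] [T2Space W] [LocallyCompactSpace W]

omit [ContinuousConstSMul Γ X] [T2Space X] [LocallyCompactSpace X] in
theorem isProperMap_fst_Cf (A : InvSet Γ (X × Cf C)) (hA : IsClosed A.carrier) :
    IsProperMap (fun y : A.Pt => (A.val y).1) :=
  isProperMap_fst_of_compactSpace.comp (A.isClosedEmbedding_val hA).isProperMap

/-- A closed subset of `X × [0,1]^C` with convex fibres and an equivariant section. -/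
theorem isoU_convex (A : InvSet Γ (X × Cf C)) (hA : IsClosed A.carrier) (s : X → Cf C)
    (hs : Continuous s) (hse : ∀ (g : Γ) x, s (g • x) = g • s x)
    (hsA : ∀ x, (x, s x) ∈ A.carrier)
    (hconv : ∀ x t t' r, (x, t) ∈ A.carrier → (x, t') ∈ A.carrier →
      (x, Cf.mix r t t') ∈ A.carrier) :
    IsoU Γ (Prod.map (fun y : A.Pt => (A.val y).1) (id : W → W)) := by
  have hp := isProperMap_fst_Cf A hA
  let σ : X → A.Pt := fun x => A.pt (x, s x) (hsA x)
  have hσc : Continuous σ := Continuous.subtype_mk (continuous_id.prodMk hs) _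
  have hσe : ∀ (g : Γ) x, σ (g • x) = g • σ x := by
    intro g x
    apply A.val_injective
    exact Prod.ext rfl (hse g x)
  have hσp : IsProperMap σ := isProperMap_of_comp_of_t2 hσc hp.continuous isProperMap_id
  let h : A.Pt × Icc (0 : ℝ) 1 → A.Pt := fun y =>
    A.pt ((A.val y.1).1, Cf.mix y.2 (s (A.val y.1).1) (A.val y.1).2)
      (hconv _ _ _ _ (hsA _) (A.val_mem y.1))
  have hc1 : Continuous fun y : A.Pt × Icc (0 : ℝ) 1 => A.val y.1 :=
    A.continuous_val.comp continuous_fst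
  have hhc : Continuous h := by
    refine Continuous.subtype_mk ((continuous_fst.comp hc1).prodMk ?_) _
    refine continuous_pi fun c => Continuous.subtype_mk ?_ _
    have h1 : Continuous fun y : A.Pt × Icc (0 : ℝ) 1 => ((y.2 : Icc (0 : ℝ) 1) : ℝ) :=
      continuous_subtype_val.comp continuous_snd
    exact ((continuous_const.sub h1).mul
      ((Cf.continuous_co c).comp (hs.comp (continuous_fst.comp hc1)))).add
      (h1.mul ((Cf.continuous_co c).comp (continuous_snd.comp hc1)))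
  have hhe : ∀ (g : Γ) y t, h (g • y, t) = g • h (y, t) := by
    intro g y t
    apply A.val_injective
    refine Prod.ext rfl (Cf.ext' fun c => ?_)
    change (Cf.mix t (s (g • (A.val y).1)) (g • (A.val y).2)).co c =
      (g • Cf.mix t (s (A.val y).1) (A.val y).2).co c
    rw [hse]
    rfl
  -- the homotopy on the product
  let H : (A.Pt × W) × Icc (0 : ℝ) 1 → A.Pt × W := fun x => (h (x.1.1, x.2), x.1.2)
  have hHc : Continuous H :=
    (hhc.comp ((continuous_fst.comp continuous_fst).prodMk continuous_snd)).prodMk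
      (continuous_snd.comp continuous_fst)
  have hpp : IsProperMap (Prod.map (fun y : A.Pt => (A.val y).1) (id : W → W)) :=
    hp.prodMap isProperMap_id
  have hHp : IsProperMap H := by
    refine isProperMap_of_comp_of_t2 hHc hpp.continuous ?_
    have h1 : (Prod.map (fun y : A.Pt => (A.val y).1) (id : W → W)) ∘ H =
        (Prod.map (fun y : A.Pt => (A.val y).1) (id : W → W)) ∘ Prod.fst := rfl
    rw [h1]
    exact hpp.comp isProperMap_fst_of_compactSpace
  refine IsoU.of_retract (s := Prod.map σ (id : W → W)) (h := H) hpp (fun g x => rfl)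
    (hσp.prodMap isProperMap_id) (fun g x => Prod.ext (hσe g x.1) rfl) (fun y => rfl) hHp
    (fun g x t => Prod.ext (hhe g x.1 t) rfl) ?_ ?_
  · intro x
    refine Prod.ext (A.val_injective (Prod.ext rfl (Cf.ext' fun c => ?_))) rfl
    change (1 - ((0 : Icc (0 : ℝ) 1) : ℝ)) * (s (A.val x.1).1).co c +
      ((0 : Icc (0 : ℝ) 1) : ℝ) * (A.val x.1).2.co c = (s (A.val x.1).1).co c
    rw [Icc.coe_zero]
    ring
  · intro x
    refine Prod.ext (A.val_injective (Prod.ext rfl (Cf.ext' fun c => ?_))) rfl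
    change (1 - ((1 : Icc (0 : ℝ) 1) : ℝ)) * (s (A.val x.1).1).co c +
      ((1 : Icc (0 : ℝ) 1) : ℝ) * (A.val x.1).2.co c = (A.val x.1).2.co c
    rw [Icc.coe_one]
    ring

end Convex

section Simplex

variable {Γ C I : Type} [Group Γ] [MulAction Γ C] [MulAction Γ I]

/-- The fibres. -/
def fib {p : C → I} (hpf : ∀ i, {c | p c = i}.Finite) (i : I) : Finset C := (hpf i).toFinset

omit [MulAction Γ C] [MulAction Γ I] [Group Γ] in
lemma mem_fib {p : C → I} (hpf : ∀ i, {c | p c = i}.Finite) {i : I} {c : C} :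
    c ∈ fib hpf i ↔ p c = i := (hpf i).mem_toFinset

lemma sum_fib_smul {p : C → I} (hp : ∀ (g : Γ) c, p (g • c) = g • p c)
    (hpf : ∀ i, {c | p c = i}.Finite) (g : Γ) (i : I) (f : C → ℝ) :
    ∑ c ∈ fib hpf i, f (g⁻¹ • c) = ∑ c ∈ fib hpf (g⁻¹ • i), f c := by
  refine Finset.sum_bij' (fun c _ => g⁻¹ • c) (fun c _ => g • c) ?_ ?_ ?_ ?_ ?_
  · intro c hc
    rw [mem_fib] at hc ⊢
    rw [hp, hc]
  · intro c hc
    rw [mem_fib] at hc ⊢
    rw [hp, hc, smul_inv_smul]
  · intro c _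
    exact smul_inv_smul g c
  · intro c _
    exact inv_smul_smul g c
  · intro c _
    rfl

/-- The pairs `(x, t)`, `t` in the product of the simplices. -/
def FB {p : C → I} (hp : ∀ (g : Γ) c, p (g • c) = g • p c)
    (hpf : ∀ i, {c | p c = i}.Finite) (X : Type) [MulAction Γ X] : InvSet Γ (X × Cf C) where
  carrier := {x | ∀ i, ∑ c ∈ fib hpf i, x.2.co c = 1}
  inv g x hx i := by
    change ∑ c ∈ fib hpf i, x.2.co (g⁻¹ • c) = 1
    rw [sum_fib_smul hp hpf g i (fun c => x.2.co c)]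
    exact hx _

lemma isClosed_FB {p : C → I} (hp : ∀ (g : Γ) c, p (g • c) = g • p c)
    (hpf : ∀ i, {c | p c = i}.Finite) (X : Type) [MulAction Γ X] [TopologicalSpace X] :
    IsClosed (FB hp hpf X).carrier := by
  have h1 : (FB hp hpf X).carrier = ⋂ i, {x : X × Cf C | ∑ c ∈ fib hpf i, x.2.co c = 1} := by
    ext x
    simp only [mem_iInter, mem_ofPred_eq]
    exact Iff.rfl
  rw [h1]
  refine isClosed_iInter fun i => isClosed_eq ?_ continuous_const
  exact continuous_finsetSum _ fun c _ => (Cf.continuous_co c).comp continuous_snd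

/-- The uniform distribution. -/
def unif {p : C → I} (hpf : ∀ i, {c | p c = i}.Finite) : Cf C := fun c =>
  ⟨1 / ((fib hpf (p c)).card : ℝ), by
    have h : 0 < (fib hpf (p c)).card := Finset.card_pos.2 ⟨c, (mem_fib hpf).2 rfl⟩
    have h1 : (1 : ℝ) ≤ (fib hpf (p c)).card := by exact_mod_cast h
    constructor
    · positivity
    · rw [div_le_one (by linarith)]
      exact h1⟩

lemma unif_smul {p : C → I} (hp : ∀ (g : Γ) c, p (g • c) = g • p c)
    (hpf : ∀ i, {c | p c = i}.Finite) (g : Γ) : g • unif hpf = unif hpf := by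
  refine Cf.ext' fun c => ?_
  change 1 / ((fib hpf (p (g⁻¹ • c))).card : ℝ) = 1 / ((fib hpf (p c)).card : ℝ)
  have h := sum_fib_smul hp hpf g (p c) (fun _ => (1 : ℝ))
  simp only [Finset.sum_const, nsmul_eq_mul, mul_one] at h
  rw [hp, h]

lemma unif_mem {p : C → I} (hp : ∀ (g : Γ) c, p (g • c) = g • p c)
    (hps : Function.Surjective p) (hpf : ∀ i, {c | p c = i}.Finite) {X : Type} [MulAction Γ X]
    (x : X) : (x, unif hpf) ∈ (FB hp hpf X).carrier := by
  intro i
  obtain ⟨c₀, rfl⟩ := hps i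
  have h : 0 < (fib hpf (p c₀)).card := Finset.card_pos.2 ⟨c₀, (mem_fib hpf).2 rfl⟩
  have h1 : ∀ c ∈ fib hpf (p c₀), (unif hpf).co c = 1 / ((fib hpf (p c₀)).card : ℝ) := by
    intro c hc
    rw [mem_fib] at hc
    change 1 / ((fib hpf (p c)).card : ℝ) = _
    rw [hc]
  change ∑ c ∈ fib hpf (p c₀), (unif hpf).co c = 1
  rw [Finset.sum_congr rfl h1, Finset.sum_const, nsmul_eq_mul]
  have h2 : ((fib hpf (p c₀)).card : ℝ) ≠ 0 := by
    exact_mod_cast h.ne'
  field_simp

lemma mix_mem {p : C → I} (hp : ∀ (g : Γ) c, p (g • c) = g • p c)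
    (hpf : ∀ i, {c | p c = i}.Finite) {X : Type} [MulAction Γ X] (x : X) (t t' : Cf C)
    (r : Icc (0 : ℝ) 1) (h : (x, t) ∈ (FB hp hpf X).carrier)
    (h' : (x, t') ∈ (FB hp hpf X).carrier) : (x, Cf.mix r t t') ∈ (FB hp hpf X).carrier := by
  intro i
  have h1 : ∑ c ∈ fib hpf i, t.co c = 1 := h i
  have h2 : ∑ c ∈ fib hpf i, t'.co c = 1 := h' i
  change ∑ c ∈ fib hpf i, ((1 - (r : ℝ)) * t.co c + r * t'.co c) = 1
  rw [Finset.sum_add_distrib, ← Finset.mul_sum, ← Finset.mul_sum, h1, h2]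
  ring

end Simplex

end Pool.Agent.Lib.MP_aa9b81_an.Cut
end
end

section

/-!
# The free totally disconnected space
-/

noncomputable section

namespace Pool.Agent.Lib.MP_aa9b81_an.Cut

open scoped ENNReal Topology ZeroAtInfty
open Filter Topology Set

section Weight

/-- Proper functions on countable `Γ`-sets which move by a bounded amount under each element. -/
theorem exists_proper_weight_set (Γ I : Type) [Group Γ] [Countable Γ] [MulAction Γ I] [Countable I] :
    ∃ w : I → ℕ, (∀ n : ℕ, {i | w i ≤ n}.Finite) ∧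
    ∀ g : Γ, ∃ k : ℕ, ∀ i, w (g • i) ≤ w i + k ∧ w i ≤ w (g • i) + k := by
  classical
  rcases isEmpty_or_nonempty I with hI | hI
  · exact ⟨fun i => hI.elim i, fun n => Set.toFinite _, fun g => ⟨0, fun i => hI.elim i⟩⟩
  obtain ⟨e, he⟩ := exists_surjective_nat Γ
  obtain ⟨d, hd⟩ := exists_surjective_nat I
  let F : ℕ → Finset I := fun n => Nat.rec (motive := fun _ => Finset I) {d 0}
    (fun n s => Finset.image₂ (fun (g : Γ) i => g • i) ((Finset.range (n + 1)).image e) s ∪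
      ({d n} ∪ s)) n
  have hF0 : ∀ n, F (n + 1) = Finset.image₂ (fun (g : Γ) i => g • i)
      ((Finset.range (n + 1)).image e) (F n) ∪ ({d n} ∪ F n) := fun n => rfl
  have hmono1 : ∀ n, F n ⊆ F (n + 1) := by
    intro n x hx
    rw [hF0]
    simp [hx]
  have hmono : Monotone F := monotone_nat_of_le_succ hmono1
  have hmul : ∀ n m i, m ≤ n → i ∈ F n → e m • i ∈ F (n + 1) := by
    intro n m i hm hi
    rw [hF0]
    refine Finset.mem_union_left _ (Finset.mem_image₂_of_mem ?_ hi)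
    exact Finset.mem_image_of_mem _ (Finset.mem_range.2 (Nat.lt_succ_of_le hm))
  obtain ⟨P, hP⟩ : ∃ P : I → ℕ → Prop, ∀ i n, P i n ↔ i ∈ F n := ⟨_, fun _ _ => Iff.rfl⟩
  have hex : ∀ i : I, ∃ n : ℕ, P i n := by
    intro i
    obtain ⟨n, rfl⟩ := hd i
    refine ⟨n + 1, ?_⟩
    rw [hP, hF0]
    simp
  have hspec : ∀ i : I, i ∈ F (Nat.find (hex i)) := fun i => (hP _ _).1 (Nat.find_spec (hex i))
  have hw : ∀ (i : I) (n : ℕ), Nat.find (hex i) ≤ n ↔ i ∈ F n := by
    intro i n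
    constructor
    · intro h
      exact hmono h (hspec i)
    · intro h
      exact Nat.find_min' (hex i) ((hP _ _).2 h)
  refine ⟨fun i => Nat.find (hex i), fun n => ?_, fun g => ?_⟩
  · refine (F n).finite_toSet.subset ?_
    intro i hi
    exact (hw i n).1 hi
  · obtain ⟨a, ha⟩ := he g
    obtain ⟨b, hb⟩ := he g⁻¹
    refine ⟨max a b + 1, fun i => ⟨?_, ?_⟩⟩
    · rw [hw]
      have h1 : i ∈ F (max (Nat.find (hex i)) (max a b)) := hmono (le_max_left _ _) (hspec i)
      have h2 := hmul _ a i ((le_max_left a b).trans (le_max_right _ _)) h1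
      rw [ha] at h2
      have h4 : max (Nat.find (hex i)) (max a b) + 1 ≤ Nat.find (hex i) + (max a b + 1) := by
        omega
      exact hmono h4 h2
    · rw [hw]
      have h1 : g • i ∈ F (max (Nat.find (hex (g • i))) (max a b)) := hmono (le_max_left _ _)
        (hspec (g • i))
      have h2 := hmul _ b (g • i) ((le_max_right a b).trans (le_max_right _ _)) h1
      rw [hb, inv_smul_smul] at h2
      have h4 : max (Nat.find (hex (g • i))) (max a b) + 1 ≤
          Nat.find (hex (g • i)) + (max a b + 1) := by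
        omega
      exact hmono h4 h2

theorem sites_of_q {Γ I E : Type} [Group Γ] [Countable Γ] [MulAction Γ I] [Countable I]
    [AddCommGroup E] [Module ℝ E] [TopologicalSpace E] [DistribMulAction Γ E]
    (Q : ConvexSpace Γ E) (q : I → Q.Pt) (hq : ∀ (g : Γ) i, q (g • i) = g • q i) : Sites Q I := by
  obtain ⟨w, hw1, hw2⟩ := exists_proper_weight_set Γ I
  refine ⟨⟨q, hq⟩, ⟨fun i => (w i : ℝ), fun R => ?_, fun g => ?_⟩⟩
  · obtain ⟨n, hn⟩ := exists_nat_ge R
    refine (hw1 n).subset ?_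
    intro i hi
    have h1 : (w i : ℝ) ≤ n := le_trans hi hn
    exact_mod_cast h1
  · obtain ⟨k, hk⟩ := hw2 g
    refine ⟨k, fun i => ?_⟩
    have h1 := hk i
    have h2 : (w (g • i) : ℝ) ≤ w i + k := by exact_mod_cast h1.1
    have h3 : (w i : ℝ) ≤ w (g • i) + k := by exact_mod_cast h1.2
    rw [abs_le]
    constructor <;> linarith

end Weight

section Fixed

variable {Γ E : Type} [Group Γ] [AddCommGroup E] [Module ℝ E] [TopologicalSpace E] [T2Space E]
  [ContinuousAdd E] [ContinuousSMul ℝ E] [DistribMulAction Γ E] [SMulCommClass Γ ℝ E]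
  [ContinuousConstSMul Γ E]

/-- Every element of `Γ` has a fixed point in a compact convex set (Markov, Kakutani). -/
theorem exists_fixed (Q : ConvexSpace Γ E) (g : Γ) : ∃ x : Q.Pt, g • x = x := by
  obtain ⟨q₀, hq₀⟩ := Q.nonempty
  have hpow : ∀ k : ℕ, g ^ k • q₀ ∈ Q.carrier := fun k => Q.smul_mem _ _ hq₀
  let y : ℕ → E := fun n => ∑ k ∈ Finset.range (n + 1), ((n : ℝ) + 1)⁻¹ • (g ^ k • q₀)
  have hy : ∀ n, y n ∈ Q.carrier := by
    intro n
    refine Q.convex.sum_mem (fun k _ => by positivity) ?_ (fun k _ => hpow k)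
    rw [Finset.sum_const, Finset.card_range, nsmul_eq_mul]
    push_cast
    exact mul_inv_cancel₀ (by positivity)
  have hsmall : ∀ x : ℕ → E, (∀ n, x n ∈ Q.carrier) →
      Tendsto (fun n : ℕ => ((n : ℝ) + 1)⁻¹ • x n) atTop (𝓝 0) := by
    intro x hx U hU
    have h1 : ∀ᶠ α : ℝ in 𝓝 0, ∀ x ∈ Q.carrier, α • x ∈ U := by
      refine Q.compact.eventually_forall_of_forall_eventually fun x _ => ?_
      have h2 : ContinuousAt (fun p : ℝ × E => p.1 • p.2) (0, x) := continuous_smul.continuousAt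
      refine h2.preimage_mem_nhds ?_
      simpa using hU
    have h2 : Tendsto (fun n : ℕ => ((n : ℝ) + 1)⁻¹) atTop (𝓝 0) :=
      tendsto_inv_atTop_zero.comp (tendsto_atTop_add_const_right _ 1 tendsto_natCast_atTop_atTop)
    exact (h2.eventually h1).mono fun n hn => hn _ (hx n)
  have htel : ∀ n, g • y n + (-1 : ℝ) • y n =
      ((n : ℝ) + 1)⁻¹ • (g ^ (n + 1) • q₀) + (-1 : ℝ) • (((n : ℝ) + 1)⁻¹ • q₀) := by
    intro n
    have h1 : g • y n = ∑ k ∈ Finset.range (n + 1), ((n : ℝ) + 1)⁻¹ • (g ^ (k + 1) • q₀) := by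
      rw [Finset.smul_sum]
      refine Finset.sum_congr rfl fun k _ => ?_
      rw [smul_comm, smul_smul, ← pow_succ']
    have h2 : y n = ∑ k ∈ Finset.range n, ((n : ℝ) + 1)⁻¹ • (g ^ (k + 1) • q₀) +
        ((n : ℝ) + 1)⁻¹ • q₀ := by
      change ∑ k ∈ Finset.range (n + 1), ((n : ℝ) + 1)⁻¹ • (g ^ k • q₀) = _
      rw [Finset.sum_range_succ', pow_zero, one_smul]
    rw [h1, Finset.sum_range_succ, h2, smul_add]
    have h3 : ∀ a b c : E, a + b + ((-1 : ℝ) • a + (-1 : ℝ) • c) = b + (-1 : ℝ) • c := by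
      intro a b c
      rw [neg_smul, neg_smul, one_smul, one_smul]
      abel
    exact h3 _ _ _
  have hlim : Tendsto (fun n => g • y n + (-1 : ℝ) • y n) atTop (𝓝 0) := by
    have h1 := (hsmall (fun n => g ^ (n + 1) • q₀) (fun n => hpow _)).add
      ((hsmall (fun _ => q₀) (fun _ => hq₀)).const_smul (-1 : ℝ))
    rw [smul_zero, add_zero] at h1
    exact h1.congr fun n => (htel n).symm
  obtain ⟨x, hx, hcl⟩ := Q.compact.exists_mapClusterPt_of_frequently
    (Filter.Eventually.of_forall (f := atTop) hy).frequently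
  have hc : Continuous fun z : E => g • z + (-1 : ℝ) • z :=
    (continuous_const_smul g).add (continuous_const_smul (-1 : ℝ))
  have h1 : MapClusterPt (g • x + (-1 : ℝ) • x) atTop (fun n => g • y n + (-1 : ℝ) • y n) :=
    hcl.continuousAt_comp hc.continuousAt
  have h2 : g • x + (-1 : ℝ) • x = 0 := by
    have h3 : (𝓝 (g • x + (-1 : ℝ) • x) ⊓ 𝓝 0).NeBot := by
      have h4 : ClusterPt (g • x + (-1 : ℝ) • x) (map (fun n => g • y n + (-1 : ℝ) • y n) atTop) := h1
      exact h4.mono hlim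
    exact eq_of_nhds_neBot h3
  refine ⟨⟨x, hx⟩, Subtype.ext ?_⟩
  change g • x = x
  rw [neg_smul, one_smul, ← sub_eq_add_neg, sub_eq_zero] at h2
  exact h2

end Fixed

/-! ### The `Γ`-sets -/

/-- The exponent. -/
def ex {Γ : Type} [Group Γ] (g : Γ) : ℕ := (orderOf g).minFac

/-- The sites: the cosets of the cyclic subgroups. -/
def I₀ (Γ : Type) [Group Γ] : Type := Σ g : {g : Γ // g ≠ 1}, Γ ⧸ Subgroup.zpowers g.1

/-- The letters. -/
def C₀' (Γ : Type) [Group Γ] : Type := Σ g : {g : Γ // g ≠ 1}, Γ ⧸ Subgroup.zpowers (g.1 ^ ex g.1)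

section Sets

variable {Γ : Type} [Group Γ]

instance : MulAction Γ (I₀ Γ) :=
  inferInstanceAs (MulAction Γ (Σ g : {g : Γ // g ≠ 1}, Γ ⧸ Subgroup.zpowers g.1))

instance : MulAction Γ (C₀' Γ) :=
  inferInstanceAs (MulAction Γ (Σ g : {g : Γ // g ≠ 1}, Γ ⧸ Subgroup.zpowers (g.1 ^ ex g.1)))

instance [Countable Γ] : Countable (I₀ Γ) := by
  have h : ∀ g : {g : Γ // g ≠ 1}, Countable (Γ ⧸ Subgroup.zpowers g.1) := fun g =>
    (Quotient.mk''_surjective).countable
  exact inferInstanceAs (Countable (Σ g : {g : Γ // g ≠ 1}, Γ ⧸ Subgroup.zpowers g.1))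

instance [Countable Γ] : Countable (C₀' Γ) := by
  have h : ∀ g : {g : Γ // g ≠ 1}, Countable (Γ ⧸ Subgroup.zpowers (g.1 ^ ex g.1)) := fun g =>
    (Quotient.mk''_surjective).countable
  exact inferInstanceAs (Countable (Σ g : {g : Γ // g ≠ 1}, Γ ⧸ Subgroup.zpowers (g.1 ^ ex g.1)))

/-- The site of a coset. -/
def mkI (g : {g : Γ // g ≠ 1}) (x : Γ) : I₀ Γ := ⟨g, (x : Γ ⧸ Subgroup.zpowers g.1)⟩

/-- The letter of a coset. -/
def mkC (g : {g : Γ // g ≠ 1}) (x : Γ) : C₀' Γ := ⟨g, (x : Γ ⧸ Subgroup.zpowers (g.1 ^ ex g.1))⟩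

lemma smul_mkI (h : Γ) (g : {g : Γ // g ≠ 1}) (x : Γ) : h • mkI g x = mkI g (h * x) := rfl

lemma smul_mkC (h : Γ) (g : {g : Γ // g ≠ 1}) (x : Γ) : h • mkC g x = mkC g (h * x) := rfl

lemma exists_mkI (i : I₀ Γ) : ∃ g x, i = mkI g x := by
  obtain ⟨g, i⟩ := i
  obtain ⟨x, rfl⟩ := Quotient.mk''_surjective i
  exact ⟨g, x, rfl⟩

lemma exists_mkC (c : C₀' Γ) : ∃ g x, c = mkC g x := by
  obtain ⟨g, c⟩ := c
  obtain ⟨x, rfl⟩ := Quotient.mk''_surjective c
  exact ⟨g, x, rfl⟩

lemma mkI_eq {g : {g : Γ // g ≠ 1}} {x y : Γ} : mkI g x = mkI g y ↔ x⁻¹ * y ∈ Subgroup.zpowers g.1 := by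
  constructor
  · intro h
    have h1 : (⟨g, (x : Γ ⧸ Subgroup.zpowers g.1)⟩ :
        Σ g : {g : Γ // g ≠ 1}, Γ ⧸ Subgroup.zpowers g.1) = ⟨g, (y : Γ ⧸ Subgroup.zpowers g.1)⟩ := h
    exact QuotientGroup.eq.1 (eq_of_heq (Sigma.mk.inj h1).2)
  · intro h
    exact congrArg (Sigma.mk (β := fun g : {g : Γ // g ≠ 1} => Γ ⧸ Subgroup.zpowers g.1) g)
      (QuotientGroup.eq.2 h)

lemma mkC_eq {g : {g : Γ // g ≠ 1}} {x y : Γ} :
    mkC g x = mkC g y ↔ x⁻¹ * y ∈ Subgroup.zpowers (g.1 ^ ex g.1) := by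
  constructor
  · intro h
    have h1 : (⟨g, (x : Γ ⧸ Subgroup.zpowers (g.1 ^ ex g.1))⟩ :
        Σ g : {g : Γ // g ≠ 1}, Γ ⧸ Subgroup.zpowers (g.1 ^ ex g.1)) =
        ⟨g, (y : Γ ⧸ Subgroup.zpowers (g.1 ^ ex g.1))⟩ := h
    exact QuotientGroup.eq.1 (eq_of_heq (Sigma.mk.inj h1).2)
  · intro h
    exact congrArg (Sigma.mk (β := fun g : {g : Γ // g ≠ 1} =>
      Γ ⧸ Subgroup.zpowers (g.1 ^ ex g.1)) g) (QuotientGroup.eq.2 h)

lemma zle (g : Γ) (n : ℕ) : Subgroup.zpowers (g ^ n) ≤ Subgroup.zpowers g :=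
  Subgroup.zpowers_le_of_mem (Subgroup.npow_mem_zpowers g n)

/-- The map from letters to sites. -/
def p₀ (c : C₀' Γ) : I₀ Γ := ⟨c.1, Subgroup.quotientMapOfLE (zle c.1.1 (ex c.1.1)) c.2⟩

lemma p₀_mk (g : {g : Γ // g ≠ 1}) (x : Γ) : p₀ (mkC g x) = mkI g x := rfl

lemma p₀_smul (h : Γ) (c : C₀' Γ) : p₀ (h • c) = h • p₀ c := by
  obtain ⟨g, x, rfl⟩ := exists_mkC c
  rw [smul_mkC, p₀_mk, p₀_mk, smul_mkI]

lemma surjective_p₀ : Function.Surjective (p₀ : C₀' Γ → I₀ Γ) := by
  intro i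
  obtain ⟨g, x, rfl⟩ := exists_mkI i
  exact ⟨mkC g x, rfl⟩

lemma ex_pos (g : Γ) : 0 < ex g := Nat.minFac_pos _

lemma finite_fibre (i : I₀ Γ) : {c : C₀' Γ | p₀ c = i}.Finite := by
  obtain ⟨g, x, rfl⟩ := exists_mkI i
  refine ((Finset.range (ex g.1)).finite_toSet.image fun k => mkC g (x * g.1 ^ k)).subset ?_
  intro c hc
  obtain ⟨g', y, rfl⟩ := exists_mkC c
  have h1 : mkI g' y = mkI g x := hc
  have h2 : g' = g := congrArg Sigma.fst h1
  subst h2
  rw [eq_comm, mkI_eq] at h1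
  obtain ⟨m, hm⟩ := h1
  have h0 : (0 : ℤ) < ex g'.1 := by exact_mod_cast ex_pos g'.1
  refine ⟨(m % (ex g'.1 : ℤ)).toNat, ?_, ?_⟩
  · rw [Finset.mem_coe, Finset.mem_range]
    have h3 := Int.emod_lt_of_pos m h0
    have h4 := Int.emod_nonneg m h0.ne'
    omega
  · change mkC g' (x * g'.1 ^ (m % (ex g'.1 : ℤ)).toNat) = mkC g' y
    rw [mkC_eq]
    refine ⟨m / (ex g'.1 : ℤ), ?_⟩
    have h4 := Int.emod_nonneg m h0.ne'
    have h5 : (g'.1 ^ (m % (ex g'.1 : ℤ)).toNat : Γ) = g'.1 ^ (m % (ex g'.1 : ℤ)) := by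
      rw [← zpow_natCast, Int.toNat_of_nonneg h4]
    have h6 : y = x * g'.1 ^ m := by
      change g'.1 ^ m = x⁻¹ * y at hm
      rw [hm, mul_inv_cancel_left]
    change (g'.1 ^ ex g'.1) ^ (m / (ex g'.1 : ℤ)) = (x * g'.1 ^ (m % (ex g'.1 : ℤ)).toNat)⁻¹ * y
    rw [h5, h6, mul_inv_rev, mul_assoc, inv_mul_cancel_left, ← zpow_natCast, ← zpow_mul,
      ← zpow_neg, ← zpow_add]
    congr 1
    have h7 := Int.emod_add_mul_ediv m (ex g'.1 : ℤ)
    linarith

/-- No element `h ≠ 1` fixes a point of the product of the fibres. -/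
theorem free_FX {X : Type} [MulAction Γ X] (y : (FX (p₀ : C₀' Γ → I₀ Γ) p₀_smul X).Pt) (h : Γ)
    (hy : h • y = y) : h = 1 := by
  by_contra h1
  obtain ⟨c, ⟨hc1, hc2⟩, hc3⟩ := (FX (p₀ : C₀' Γ → I₀ Γ) p₀_smul X).val_mem y (mkI ⟨h, h1⟩ 1)
  obtain ⟨g, x, rfl⟩ := exists_mkC c
  rw [p₀_mk] at hc1
  have h2 : g = ⟨h, h1⟩ := congrArg Sigma.fst hc1
  subst h2
  have h3 : x⁻¹ * 1 ∈ Subgroup.zpowers h := mkI_eq.1 hc1
  rw [mul_one] at h3
  have h4 : x ∈ Subgroup.zpowers h := by simpa using inv_mem h3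
  obtain ⟨m, hm⟩ := h4
  change h ^ m = x at hm
  have h5 : h • mkC ⟨h, h1⟩ x = mkC ⟨h, h1⟩ x := by
    refine hc3 _ ⟨?_, ?_⟩
    · rw [p₀_smul, p₀_mk, hc1, smul_mkI, mkI_eq]
      simp
    · have h6 : ((FX (p₀ : C₀' Γ → I₀ Γ) p₀_smul X).val (h • y)).2 (h • mkC ⟨h, h1⟩ x) = true := by
        change ((FX (p₀ : C₀' Γ → I₀ Γ) p₀_smul X).val y).2 (h⁻¹ • h • mkC ⟨h, h1⟩ x) = true
        rw [inv_smul_smul]
        exact hc2
      rwa [hy] at h6
  rw [smul_mkC, eq_comm, mkC_eq] at h5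
  have h6 : x⁻¹ * (h * x) = h := by
    rw [← hm, ← zpow_neg, ← zpow_one_add, ← zpow_add]
    have : -m + (1 + m) = 1 := by ring
    rw [this, zpow_one]
  rw [h6] at h5
  obtain ⟨k, hk⟩ := h5
  change (h ^ ex h) ^ k = h at hk
  rw [← zpow_natCast, ← zpow_mul] at hk
  have h7 : h ^ ((ex h : ℤ) * k - 1) = 1 := by
    rw [zpow_sub, zpow_one, hk, mul_inv_cancel]
  have h8 : ((orderOf h : ℕ) : ℤ) ∣ (ex h : ℤ) * k - 1 := orderOf_dvd_iff_zpow_eq_one.2 h7
  have h9 : ((ex h : ℕ) : ℤ) ∣ (orderOf h : ℤ) := by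
    exact_mod_cast Nat.minFac_dvd (orderOf h)
  have h10 : (ex h : ℤ) ∣ 1 := by
    have h11 := h9.trans h8
    have h12 : (ex h : ℤ) ∣ (ex h : ℤ) * k := dvd_mul_right _ _
    have h13 := dvd_sub h12 h11
    simpa using h13
  have h11 : ex h = 1 := by
    have := Int.natAbs_dvd_natAbs.2 h10
    simpa using this
  have h12 : orderOf h = 1 := Nat.minFac_eq_one_iff.1 h11
  exact h1 (orderOf_eq_one_iff.1 h12)

end Sets

section Q

variable {Γ E : Type} [Group Γ] [AddCommGroup E] [Module ℝ E] [TopologicalSpace E] [T2Space E]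
  [ContinuousAdd E] [ContinuousSMul ℝ E] [DistribMulAction Γ E] [SMulCommClass Γ ℝ E]
  [ContinuousConstSMul Γ E]

/-- The sites map to the convex space. -/
theorem exists_q₀ (Q : ConvexSpace Γ E) :
    ∃ q : I₀ Γ → Q.Pt, ∀ (h : Γ) i, q (h • i) = h • q i := by
  choose x hx using fun g : Γ => exists_fixed Q g
  have hz : ∀ (g y : Γ), y ∈ Subgroup.zpowers g → y • x g = x g := by
    intro g y hy
    have h1 : Subgroup.zpowers g ≤ MulAction.stabilizer Γ (x g) :=
      Subgroup.zpowers_le_of_mem (MulAction.mem_stabilizer_iff.2 (hx g))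
    exact MulAction.mem_stabilizer_iff.1 (h1 hy)
  refine ⟨fun i => Quotient.liftOn' i.2 (fun y => y • x i.1.1) ?_, ?_⟩
  · intro y y' hyy
    have h1 : y⁻¹ * y' ∈ Subgroup.zpowers i.1.1 := QuotientGroup.leftRel_apply.1 hyy
    have h2 := hz _ _ h1
    change y • x i.1.1 = y' • x i.1.1
    rw [mul_smul, inv_smul_eq_iff] at h2
    exact h2.symm
  · intro h i
    obtain ⟨g, y, rfl⟩ := exists_mkI i
    change (h * y) • x g.1 = h • y • x g.1
    rw [mul_smul]

end Q

end Pool.Agent.Lib.MP_aa9b81_an.Cut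
end
end

section

/-!
# Total cutting theorem: the weights, separating functions
-/

noncomputable section

namespace Pool.Agent.Lib.MP_aa9b81_an.Cut

open scoped ENNReal Topology ZeroAtInfty
open Filter Topology Set

section Weights

variable {Γ : Type} [Group Γ] [Countable Γ]

/-- A proper function which moves by a bounded amount under left multiplications. -/
theorem exists_proper_weight : ∃ w : Γ → ℕ, (∀ n : ℕ, {g | w g ≤ n}.Finite) ∧
    ∀ g : Γ, ∃ k : ℕ, ∀ h, w (g * h) ≤ w h + k ∧ w h ≤ w (g * h) + k := by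
  classical
  obtain ⟨e, he⟩ := exists_surjective_nat Γ
  let F : ℕ → Finset Γ := fun n => Nat.rec (motive := fun _ => Finset Γ) {1}
    (fun n s => Finset.image₂ (· * ·) s s ∪ ({e n} ∪ s)) n
  have hF0 : ∀ n, F (n + 1) = Finset.image₂ (· * ·) (F n) (F n) ∪ ({e n} ∪ F n) := fun n => rfl
  have hmono1 : ∀ n, F n ⊆ F (n + 1) := by
    intro n x hx
    rw [hF0]
    simp [hx]
  have hmono : Monotone F := monotone_nat_of_le_succ hmono1
  have hmul : ∀ n x y, x ∈ F n → y ∈ F n → x * y ∈ F (n + 1) := by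
    intro n x y hx hy
    rw [hF0]
    exact Finset.mem_union_left _ (Finset.mem_image₂_of_mem hx hy)
  have hex : ∀ g, ∃ n, g ∈ F n := by
    intro g
    obtain ⟨n, rfl⟩ := he g
    refine ⟨n + 1, ?_⟩
    rw [hF0]
    simp
  have hw : ∀ g n, Nat.find (hex g) ≤ n ↔ g ∈ F n := by
    intro g n
    constructor
    · intro h
      exact hmono h (Nat.find_spec (hex g))
    · intro h
      exact Nat.find_min' (hex g) h
  refine ⟨fun g => Nat.find (hex g), fun n => ?_, fun g => ?_⟩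
  · refine (F n).finite_toSet.subset ?_
    intro g hg
    exact (hw g n).1 hg
  · obtain ⟨a, ha⟩ := hex g
    obtain ⟨b, hb⟩ := hex g⁻¹
    refine ⟨max a b + 1, fun h => ⟨?_, ?_⟩⟩
    · rw [hw]
      have h1 : h ∈ F (max (Nat.find (hex h)) (max a b)) := hmono (le_max_left _ _)
        (Nat.find_spec (hex h))
      have h2 : g ∈ F (max (Nat.find (hex h)) (max a b)) :=
        hmono ((le_max_left a b).trans (le_max_right _ _)) ha
      have h4 : max (Nat.find (hex h)) (max a b) + 1 ≤ Nat.find (hex h) + (max a b + 1) := by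
        omega
      exact hmono h4 (hmul _ _ _ h2 h1)
    · rw [hw]
      have h1 : g * h ∈ F (max (Nat.find (hex (g * h))) (max a b)) := hmono (le_max_left _ _)
        (Nat.find_spec (hex (g * h)))
      have h2 : g⁻¹ ∈ F (max (Nat.find (hex (g * h))) (max a b)) :=
        hmono ((le_max_right a b).trans (le_max_right _ _)) hb
      have h3 := hmul _ _ _ h2 h1
      rw [inv_mul_cancel_left] at h3
      have h4 : max (Nat.find (hex (g * h))) (max a b) + 1 ≤
          Nat.find (hex (g * h)) + (max a b + 1) := by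
        omega
      exact hmono h4 h3

theorem sites_Idx {E : Type} [AddCommGroup E] [Module ℝ E] [TopologicalSpace E]
    [DistribMulAction Γ E] (Q : ConvexSpace Γ E) : Sites Q (Idx Γ) := by
  obtain ⟨w, hw1, hw2⟩ := exists_proper_weight (Γ := Γ)
  obtain ⟨q₀, hq₀⟩ := Q.nonempty
  obtain ⟨q₁, -⟩ : ∃ q₁ : Q.Pt, q₁ = ⟨q₀, hq₀⟩ := ⟨_, rfl⟩
  refine ⟨⟨fun i => i.2 • q₁, fun g i => ?_⟩,
    ⟨fun i => (i.1 : ℝ) + (w i.2 : ℝ), fun R => ?_, fun g => ?_⟩⟩
  · exact mul_smul g i.2 _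
  · obtain ⟨n, hn⟩ := exists_nat_ge R
    refine ((Set.finite_Iic n).prod (hw1 n)).subset ?_
    intro i hi
    have h1 : (i.1 : ℝ) + (w i.2 : ℝ) ≤ n := le_trans hi hn
    have h2 : i.1 + w i.2 ≤ n := by exact_mod_cast h1
    refine ⟨?_, ?_⟩
    · change i.1 ≤ n
      omega
    · change w i.2 ≤ n
      omega
  · obtain ⟨k, hk⟩ := hw2 g
    refine ⟨k, fun i => ?_⟩
    have h1 := hk i.2
    change |((i.1 : ℝ) + (w (g * i.2) : ℝ)) - ((i.1 : ℝ) + (w i.2 : ℝ))| ≤ k
    have h2 : (w (g * i.2) : ℝ) ≤ w i.2 + k := by exact_mod_cast h1.1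
    have h3 : (w i.2 : ℝ) ≤ w (g * i.2) + k := by exact_mod_cast h1.2
    rw [abs_le]
    constructor <;> linarith

end Weights

section Sep

/-- Separating functions. -/
theorem exists_separating {X : Type} [TopologicalSpace X] [TopologicalSpace.MetrizableSpace X]
    [SigmaCompactSpace X] :
    ∃ f : ℕ → X → ℝ, (∀ m, Continuous (f m)) ∧ ∀ x y : X, x ≠ y → ∃ m, 1 < f m x ∧ f m y < -1 := by
  let _ : MetricSpace X := TopologicalSpace.metrizableSpaceMetric X
  have : SecondCountableTopology X := inferInstance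
  rcases isEmpty_or_nonempty X with h | h
  · exact ⟨fun _ _ => 0, fun _ => continuous_const, fun x => h.elim x⟩
  obtain ⟨e, he⟩ := exists_surjective_nat (ℕ × ℚ × ℕ)
  refine ⟨fun m x => ((e m).2.2 : ℝ) * (((e m).2.1 : ℝ) - dist x (TopologicalSpace.denseSeq X (e m).1)),
    fun m => continuous_const.mul (continuous_const.sub (continuous_id.dist continuous_const)),
    fun x y hxy => ?_⟩
  have hd : 0 < dist x y := dist_pos.2 hxy
  obtain ⟨n, hn⟩ := (Metric.denseRange_iff.1 (TopologicalSpace.denseRange_denseSeq X)) x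
    (dist x y / 4) (by positivity)
  obtain ⟨r, hr1, hr2⟩ := exists_rat_btwn (show 3 * dist x y / 8 < 5 * dist x y / 8 by linarith)
  obtain ⟨K, hK⟩ := exists_nat_gt (8 / dist x y)
  obtain ⟨m, hm⟩ := he (n, r, K)
  refine ⟨m, ?_, ?_⟩
  · change 1 < ((e m).2.2 : ℝ) *
      (((e m).2.1 : ℝ) - dist x (TopologicalSpace.denseSeq X (e m).1))
    rw [hm]
    have h1 : 1 < (K : ℝ) * (dist x y / 8) := by
      rw [div_lt_iff₀ hd] at hK
      linarith
    have h2 : dist x y / 8 < (r : ℝ) - dist x (TopologicalSpace.denseSeq X n) := by linarith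
    have h3 : (0 : ℝ) < K := by
      by_contra h4
      have h5 : (K : ℝ) = 0 := le_antisymm (not_lt.1 h4) (Nat.cast_nonneg K)
      rw [h5, zero_mul] at h1
      linarith
    change 1 < (K : ℝ) * ((r : ℝ) - dist x (TopologicalSpace.denseSeq X n))
    nlinarith
  · change ((e m).2.2 : ℝ) *
      (((e m).2.1 : ℝ) - dist y (TopologicalSpace.denseSeq X (e m).1)) < -1
    rw [hm]
    have h1 : 1 < (K : ℝ) * (dist x y / 8) := by
      rw [div_lt_iff₀ hd] at hK
      linarith
    have h6 := dist_triangle x (TopologicalSpace.denseSeq X n) y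
    rw [dist_comm (TopologicalSpace.denseSeq X n) y] at h6
    have h2 : (r : ℝ) - dist y (TopologicalSpace.denseSeq X n) < - (dist x y / 8) := by linarith
    have h3 : (0 : ℝ) < K := by
      by_contra h4
      have h5 : (K : ℝ) = 0 := le_antisymm (not_lt.1 h4) (Nat.cast_nonneg K)
      rw [h5, zero_mul] at h1
      linarith
    change (K : ℝ) * ((r : ℝ) - dist y (TopologicalSpace.denseSeq X n)) < -1
    nlinarith

end Sep

end Pool.Agent.Lib.MP_aa9b81_an.Cut
end
end

section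

/-!
# Total cutting theorem: the limit of the cut spaces
-/

noncomputable section

namespace Pool.Agent.Lib.MP_aa9b81_an.Cut

open scoped ENNReal Topology ZeroAtInfty
open Filter Topology Set

section Lim

variable {Γ I X V : Type} [Group Γ] [MulAction Γ I] [TopologicalSpace X] [MulAction Γ X]
  [ContinuousConstSMul Γ X] [T2Space X] [LocallyCompactSpace X] [TopologicalSpace V]
  [MulAction Γ V] [ContinuousConstSMul Γ V] [T2Space V] [LocallyCompactSpace V]

/-- Decreasing sequences of closed subsets. -/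
theorem isoU_iInter (hA : PropA Γ) {D : ℕ → InvSet Γ (X × Pow I)} {C : InvSet Γ (X × Pow I)}
    (hDc : ∀ n, IsClosed (D n).carrier)
    (hDD : ∀ n m : ℕ, n ≤ m → (D m).carrier ⊆ (D n).carrier)
    (hint : ⋂ n, (D n).carrier = C.carrier) (hiso : ∀ n, IsoU Γ (prP (D n) V)) :
    IsoU Γ (prP C V) := by
  have hCD : ∀ n, C.carrier ⊆ (D n).carrier := fun n => by
    rw [← hint]
    exact iInter_subset _ n
  have hCc : IsClosed C.carrier := by
    rw [← hint]
    exact isClosed_iInter hDc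
  have : LocallyCompactSpace (D 0).Pt := (D 0).locallyCompactSpace (hDc 0).isLocallyClosed
  have hc : IsClosedEmbedding (Prod.map (InvSet.incl (hCD 0)) (id : V → V)) :=
    InvSet.isClosedEmbedding_incl (hCD 0) hCc
  have hd : ∀ n, IsClosedEmbedding (Prod.map (InvSet.incl (hDD 0 n (Nat.zero_le n))) (id : V → V)) :=
    fun n => InvSet.isClosedEmbedding_incl _ (hDc n)
  have hec : ∀ (g : Γ) (x : C.Pt × V), Prod.map (InvSet.incl (hCD 0)) (id : V → V) (g • x) =
      g • Prod.map (InvSet.incl (hCD 0)) (id : V → V) x := fun g x => rfl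
  have hed : ∀ n (g : Γ) (x : (D n).Pt × V),
      Prod.map (InvSet.incl (hDD 0 n (Nat.zero_le n))) (id : V → V) (g • x) =
      g • Prod.map (InvSet.incl (hDD 0 n (Nat.zero_le n))) (id : V → V) x := fun n g x => rfl
  have hrange : ∀ (A : InvSet Γ (X × Pow I)) (h : A.carrier ⊆ (D 0).carrier),
      range (Prod.map (InvSet.incl h) (id : V → V)) = {y | (D 0).val y.1 ∈ A.carrier} := by
    intro A h
    ext y
    constructor
    · rintro ⟨x, rfl⟩
      exact A.val_mem x.1
    · intro hy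
      exact ⟨(A.pt _ hy, y.2), Prod.ext ((D 0).val_injective rfl) rfl⟩
  have hanti : ∀ n, range (Prod.map (InvSet.incl (hDD 0 (n + 1) (Nat.zero_le (n + 1)))) (id : V → V)) ⊆
      range (Prod.map (InvSet.incl (hDD 0 n (Nat.zero_le n))) (id : V → V)) := by
    intro n
    rw [hrange, hrange]
    intro y hy
    exact hDD n (n + 1) (Nat.le_succ n) hy
  have hinter : ⋂ n, range (Prod.map (InvSet.incl (hDD 0 n (Nat.zero_le n))) (id : V → V)) =
      range (Prod.map (InvSet.incl (hCD 0)) (id : V → V)) := by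
    rw [hrange]
    ext y
    rw [mem_iInter, mem_ofPred_eq, ← hint, mem_iInter]
    exact forall_congr' fun n => by rw [hrange]; rfl
  constructor
  · intro u hu hu'
    have h0 : IsProperMap (prP (D 0) V) := isProperMap_prP _ (hDc 0)
    have hu0 : pullU (prP (D 0) V) u ∈ GL1 (cp Γ ((D 0).Pt × V)) :=
      GL1_map (pull_mem_cp h0 (prP_smul _)) hu
    have h1 : pullU (Prod.map (InvSet.incl (hCD 0)) (id : V → V)) (pullU (prP (D 0) V) u) =
        pullU (prP C V) u := rfl
    obtain ⟨n, hn⟩ := continuity_inj hA hc hec hd hed hanti hinter hu0 (by rw [h1]; exact hu')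
    exact (hiso n).1 u hu hn
  · intro v hv
    obtain ⟨n, w, hw, hwv⟩ := continuity_surj hA hc hec hd hed hanti hinter
      (fun n => Prod.map (InvSet.incl (hCD n)) (id : V → V)) (fun n x => rfl) hv
    obtain ⟨u, hu, hu'⟩ := (hiso n).2 w hw
    refine ⟨u, hu, ?_⟩
    have hcn : IsClosedEmbedding (Prod.map (InvSet.incl (hCD n)) (id : V → V)) :=
      InvSet.isClosedEmbedding_incl (hCD n) hCc
    have h2 := E1_map (φ := pull (Prod.map (InvSet.incl (hCD n)) (id : V → V))) (pull_norm_le _)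
      (pull_mem_cp hcn.isProperMap (fun g x => rfl)) hu'
    rw [map_mul, map_inv] at h2
    change (pullU (prP C V) u)⁻¹ * pullU (Prod.map (InvSet.incl (hCD n)) (id : V → V)) w ∈ _ at h2
    rwa [hwv] at h2

end Lim

section Zero

variable {Γ X : Type} [Group Γ] [MulAction Γ X]

/-- The limit cut space: `σ_q = 1` if `f_q(x) > 0`, `σ_q = 0` if `f_q(x) < 0`. -/
def RZ (Γ : Type) {X : Type} [Group Γ] [MulAction Γ X] (f : ℕ → X → ℝ) :
    InvSet Γ (X × Pow (Idx Γ)) where
  carrier := {p | ∀ q, (0 < shF (Γ := Γ) f q p.1 → p.2 q = true) ∧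
    (shF (Γ := Γ) f q p.1 < 0 → p.2 q = false)}
  inv g p hp q := by
    have h1 := hp (g⁻¹ • q)
    have h2 : shF f (g⁻¹ • q) p.1 = shF f q (g • p).1 := by
      rw [← shF_smul f g (g⁻¹ • q) p.1, smul_inv_smul]
      rfl
    rw [h2] at h1
    exact h1

/-- The multiples of the functions. -/
def mulF {X : Type} (n : ℕ) (f : ℕ → X → ℝ) : ℕ → X → ℝ := fun m x => ((n : ℝ) + 1) * f m x

lemma shF_mulF (n : ℕ) (f : ℕ → X → ℝ) (q : Idx Γ) (x : X) :
    shF (mulF n f) q x = ((n : ℝ) + 1) * shF f q x := rfl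

lemma iInter_RR (f : ℕ → X → ℝ) : ⋂ n, (RR Γ (mulF n f)).carrier = (RZ Γ f).carrier := by
  refine Set.Subset.antisymm ?_ ?_
  · intro p hp q
    rw [Set.mem_iInter] at hp
    refine ⟨fun h1 => ?_, fun h1 => ?_⟩
    · obtain ⟨n, hn⟩ := exists_nat_one_div_lt h1
      refine (hp n q).1 ?_
      change 1 < shF (mulF n f) q p.1
      rw [shF_mulF]
      rwa [div_lt_iff₀' (by positivity)] at hn
    · obtain ⟨n, hn⟩ := exists_nat_one_div_lt (neg_pos.mpr h1)
      refine (hp n q).2 ?_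
      change shF (mulF n f) q p.1 < -1
      rw [shF_mulF]
      rw [div_lt_iff₀' (by positivity)] at hn
      linarith
  · intro p hp
    rw [Set.mem_iInter]
    intro n q
    have h0 : (0 : ℝ) < (n : ℝ) + 1 := by positivity
    constructor
    · intro h
      change 1 < shF (mulF n f) q p.1 at h
      rw [shF_mulF] at h
      refine (hp q).1 ?_
      by_contra h1
      nlinarith
    · intro h
      change shF (mulF n f) q p.1 < -1 at h
      rw [shF_mulF] at h
      refine (hp q).2 ?_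
      by_contra h1
      nlinarith

lemma RR_mono (f : ℕ → X → ℝ) (n m : ℕ) (h : n ≤ m) :
    (RR Γ (mulF m f)).carrier ⊆ (RR Γ (mulF n f)).carrier := by
  intro p hp q
  have h1 := hp q
  change (1 < shF (mulF m f) q p.1 → _) ∧ (shF (mulF m f) q p.1 < -1 → _) at h1
  change (1 < shF (mulF n f) q p.1 → _) ∧ (shF (mulF n f) q p.1 < -1 → _)
  rw [shF_mulF] at h1 ⊢
  have h0 : (0 : ℝ) < (n : ℝ) + 1 := by positivity
  have h2 : (n : ℝ) ≤ m := by exact_mod_cast h
  constructor
  · intro h3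
    refine h1.1 (h3.trans_le ?_)
    have h4 : 0 < shF f q p.1 := by
      by_contra h5
      nlinarith
    nlinarith
  · intro h3
    refine h1.2 (lt_of_le_of_lt ?_ h3)
    have h4 : shF f q p.1 < 0 := by
      by_contra h5
      nlinarith
    nlinarith

lemma isClosed_RZ [TopologicalSpace X] [ContinuousConstSMul Γ X] {f : ℕ → X → ℝ}
    (hf : ∀ m, Continuous (f m)) : IsClosed (RZ Γ f).carrier := by
  rw [← iInter_RR]
  exact isClosed_iInter fun n => isClosed_RR fun m => continuous_const.mul (hf m)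

/-- The limit cut space is totally disconnected if the functions separate the points. -/
theorem totallyDisconnected_RZ [TopologicalSpace X] {f : ℕ → X → ℝ} (hs : SepF f) :
    TotallyDisconnectedSpace (RZ Γ f).Pt := by
  have hVc : Continuous (RZ Γ f).val := (RZ Γ f).continuous_val
  refine ⟨fun S _ hS a ha b hb => ?_⟩
  have hconst : ∀ q : Idx Γ, ((RZ Γ f).val a).2 q = ((RZ Γ f).val b).2 q := by
    intro q
    have h1 : Continuous fun p => ((RZ Γ f).val p).2 q :=
      (Pow.continuous_eval q).comp (continuous_snd.comp hVc)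
    have h2 := (hS.image _ h1.continuousOn).subsingleton
    exact h2 (mem_image_of_mem _ ha) (mem_image_of_mem _ hb)
  apply (RZ Γ f).val_injective
  refine Prod.ext ?_ (funext hconst)
  by_contra hne
  obtain ⟨m, h1, h2⟩ := hs _ _ hne
  have e1 := ((RZ Γ f).val_mem a (m, 1)).1 (by
    change 0 < f m ((1 : Γ)⁻¹ • _)
    rw [inv_one, one_smul]
    exact h1)
  have e2 := ((RZ Γ f).val_mem b (m, 1)).2 (by
    change f m ((1 : Γ)⁻¹ • _) < 0
    rw [inv_one, one_smul]
    exact h2)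
  have e3 := hconst (m, 1)
  rw [e1, e2] at e3
  exact Bool.false_ne_true e3.symm

theorem surjective_RZ (f : ℕ → X → ℝ) :
    Function.Surjective fun p : (RZ Γ f).Pt => ((RZ Γ f).val p).1 := by
  classical
  intro x
  refine ⟨(RZ Γ f).pt (x, fun q => decide (0 ≤ shF f q x)) (fun q => ⟨fun h => ?_, fun h => ?_⟩), rfl⟩
  · exact decide_eq_true (le_of_lt h)
  · exact decide_eq_false (not_le.2 h)

/-- The map to the space of rank `0`. -/
theorem encard_fibre_RZ_le {f : ℕ → X → ℝ} {d : ℕ} (hd : GenLE Γ f d)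
    (hx : ∀ x : X, MulAction.stabilizer Γ x = ⊥) (x : X) :
    ((fun p : (RZ Γ f).Pt => ((RZ Γ f).val p).1) ⁻¹' {x}).encard ≤ 2 ^ d := by
  have hmem : ∀ p : (RZ Γ f).Pt, (((RZ Γ f).val p).1, vtx ((RZ Γ f).val p).2) ∈
      (boxR f 0 : InvSet Γ (X × Cfg Γ)).carrier := by
    intro p
    refine ⟨fun m g => ⟨fun h => ?_, fun h => ?_⟩, fun F hF _ => ?_⟩
    · change (vtx ((RZ Γ f).val p).2).co (m, g) = 1
      rw [vtx_co, if_pos (((RZ Γ f).val_mem p (m, g)).1 h)]
    · change (vtx ((RZ Γ f).val p).2).co (m, g) = 0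
      rw [neg_zero] at h
      have h1 : ((RZ Γ f).val p).2 (m, g) = false := ((RZ Γ f).val_mem p (m, g)).2 h
      rw [vtx_co, if_neg]
      rw [h1]
      exact Bool.false_ne_true
    · rw [Nat.le_zero, Finset.card_eq_zero]
      refine Finset.eq_empty_of_forall_notMem fun q hq => ?_
      have h1 := hF q hq
      change 0 < (vtx ((RZ Γ f).val p).2).co q ∧ (vtx ((RZ Γ f).val p).2).co q < 1 at h1
      rw [vtx_co] at h1
      split_ifs at h1
      · exact lt_irrefl _ h1.2
      · exact lt_irrefl _ h1.1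
  refine le_trans ?_ (encard_fibre_le hd hx x)
  refine Set.encard_le_encard_of_injOn (f := fun p => (boxR f 0 : InvSet Γ (X × Cfg Γ)).pt _ (hmem p))
    (fun p hp => hp) ?_
  intro p _ p' _ h
  apply (RZ Γ f).val_injective
  have h2 : ((RZ Γ f).val p).1 = ((RZ Γ f).val p').1 :=
    congrArg (fun y => ((boxR f 0 : InvSet Γ (X × Cfg Γ)).val y).1) h
  have h3 : vtx ((RZ Γ f).val p).2 = vtx ((RZ Γ f).val p').2 :=
    congrArg (fun y => ((boxR f 0 : InvSet Γ (X × Cfg Γ)).val y).2) h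
  exact Prod.ext h2 (vtx_injective h3)

end Zero

section Main

variable {Γ E : Type} [Group Γ] [Countable Γ]
  [AddCommGroup E] [Module ℝ E] [TopologicalSpace E] [T2Space E] [ContinuousAdd E]
  [ContinuousSMul ℝ E] [DistribMulAction Γ E] [SMulCommClass Γ ℝ E] [ContinuousConstSMul Γ E]

variable {X V : Type} [TopologicalSpace X] [T2Space X] [LocallyCompactSpace X] [MulAction Γ X]
  [ContinuousConstSMul Γ X] [TopologicalSpace V] [T2Space V] [LocallyCompactSpace V]
  [MulAction Γ V] [ContinuousConstSMul Γ V]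

/-- THE LIMIT. -/
theorem isoU_RZ (Q : ConvexSpace Γ E) (hA : PropA Γ) {f : ℕ → X → ℝ}
    (hf : ∀ m, Continuous (f m)) : IsoU Γ (prP (RZ Γ f) ((Cone Q × V) × OO)) := by
  have : LocallyCompactSpace (Cone Q) := cone_locallyCompact Q
  have hf' : ∀ n m, Continuous (mulF n f m) := fun n m => continuous_const.mul (hf m)
  exact isoU_iInter hA (fun n => isClosed_RR (hf' n)) (RR_mono f) (iInter_RR f)
    (fun n => isoU_RR Q hA (sites_Idx Q) (hf' n))

/-- Injectivity without suspension. -/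
theorem inj_RZ (Q : ConvexSpace Γ E) (hA : PropA Γ) {f : ℕ → X → ℝ}
    (hf : ∀ m, Continuous (f m)) {u : (Fam Γ (X × Cone Q × V))ˣ}
    (hu : u ∈ GL1 (cp Γ (X × Cone Q × V)))
    (hu' : pullU (prP (RR Γ f) (Cone Q × V)) u ∈ E1 (cp Γ ((RR Γ f).Pt × Cone Q × V))) :
    u ∈ E1 (cp Γ (X × Cone Q × V)) :=
  inj_cutR Q hA (sites_Idx Q) _ (continuous_shF hf) hu hu'

end Main

end Pool.Agent.Lib.MP_aa9b81_an.Cut
end
end
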