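import Pool.Agent.Lib.MP_aa9b81_an.Mg.G023
import Pool.Agent.Lib.MP_aa9b81_an.Mg.G013
import Pool.Agent.Lib.MP_aa9b81_an.Mg.G032
import Pool.Agent.Lib.MP_aa9b81_an.Mg.G029

section

/-!
# Rotated sites, part M3: functions which are Lipschitz along segments
-/

open scoped ENNReal Topology ZeroAtInfty
open Function Filter Set

noncomputable section

set_option linter.unusedSectionVars false

namespace Pool.Agent.Lib.MP_aa9b81_an.Rc

open Cut Hs

section RLip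

variable {Γ E : Type} [Group Γ] [AddCommGroup E] [Module ℝ E] [TopologicalSpace E]
  [DistribMulAction Γ E] [SMulCommClass Γ ℝ E]

/-- The function `g` is bounded by `1` and `L`-Lipschitz along segments. -/
structure RLip (Q : ConvexSpace Γ E) (g : Q.Pt → ℂ) (L : ℝ) : Prop where
  nonneg : 0 ≤ L
  bdd : ∀ x, ‖g x‖ ≤ 1
  lip : ∀ (x y z : Q.Pt) (t : ℝ), 0 ≤ t → t ≤ 1 →
    Q.vec z = (1 - t) • Q.vec x + t • Q.vec y → ‖g z - g x‖ ≤ L * t

variable (Q : ConvexSpace Γ E)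

theorem RLip.one : RLip Q (fun _ => 1) 0 := ⟨le_rfl, fun _ => by simp, fun _ _ _ _ _ _ _ => by simp⟩

variable {Q}

/-- PROOF: `g z g' z - g x g' x = (g z - g x) g' z + g x (g' z - g' x)`. -/
theorem RLip.mul {g g' : Q.Pt → ℂ} {L L' : ℝ} (h : RLip Q g L) (h' : RLip Q g' L') :
    RLip Q (fun x => g x * g' x) (L + L') := by
  refine ⟨add_nonneg h.nonneg h'.nonneg, fun x => ?_, fun x y z t h0 h1 hz => ?_⟩
  · rw [norm_mul]
    exact mul_le_one₀ (h.bdd x) (norm_nonneg _) (h'.bdd x)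
  · have e : g z * g' z - g x * g' x = (g z - g x) * g' z + g x * (g' z - g' x) := by ring
    rw [e]
    have a1 := h.lip x y z t h0 h1 hz
    have a2 := h'.lip x y z t h0 h1 hz
    have b1 := mul_nonneg h.nonneg h0
    calc _ ≤ ‖(g z - g x) * g' z‖ + ‖g x * (g' z - g' x)‖ := norm_add_le _ _
      _ ≤ L * t * 1 + 1 * (L' * t) := by
        rw [norm_mul, norm_mul]
        exact add_le_add (mul_le_mul a1 (h'.bdd z) (norm_nonneg _) b1)
          (mul_le_mul (h.bdd x) a2 (norm_nonneg _) zero_le_one)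
      _ = _ := by ring

/-- PROOF: the action is linear. -/
theorem RLip.shift {g : Q.Pt → ℂ} {L : ℝ} (h : RLip Q g L) (s : Γ) :
    RLip Q (fun x => g (s⁻¹ • x)) L := by
  refine ⟨h.nonneg, fun x => h.bdd _, fun x y z t h0 h1 hz => ?_⟩
  refine h.lip (s⁻¹ • x) (s⁻¹ • y) (s⁻¹ • z) t h0 h1 ?_
  rw [ConvexSpace.vec_smul, ConvexSpace.vec_smul, ConvexSpace.vec_smul, hz, smul_add,
    smul_comm s⁻¹ (1 - t) (Q.vec x), smul_comm s⁻¹ t (Q.vec y)]

open Classical in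
/-- The function of the set of charges: `min (1, |G| / (n+1)) g(barycentre of G)`, and `0` for `G = ∅`. -/
def fG {J : Type} (Q : ConvexSpace Γ E) (q : J → Q.Pt) (n : ℕ) (g : Q.Pt → ℂ) (G : Finset J) : ℂ :=
  if h : G.Nonempty then ((min 1 ((G.card : ℝ) / (n + 1)) : ℝ) : ℂ) * g (avgQ Q q G h) else 0

variable {J : Type} (q : J → Q.Pt) (n : ℕ)

theorem norm_fG_le {g : Q.Pt → ℂ} {L : ℝ} (h : RLip Q g L) (G : Finset J) : ‖fG Q q n g G‖ ≤ 1 := by
  unfold fG
  split_ifs with hG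
  · rw [norm_mul, Complex.norm_real, Real.norm_eq_abs, abs_of_nonneg]
    · exact mul_le_one₀ (min_le_left _ _) (norm_nonneg _) (h.bdd _)
    · exact le_min zero_le_one (by positivity)
  · simp

/-- PROOF: `min (1, |G| / (n + 1)) = 1`. -/
theorem fG_of_le {g : Q.Pt → ℂ} {G : Finset J} (hG : n + 1 ≤ G.card) (h : G.Nonempty) :
    fG Q q n g G = g (avgQ Q q G h) := by
  unfold fG
  rw [dif_pos h, min_eq_left, Complex.ofReal_one, one_mul]
  rw [one_le_div (by positivity)]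
  exact_mod_cast hG

/-- PROOF: `vec_avgQ`: `avg (insert i G) = (1 - 1/(k+1)) avg G + (1/(k+1)) q i`, `k = |G| ≥ 1`. -/
theorem vec_avgQ_insert [DecidableEq J] {G : Finset J} {i : J} (hi : i ∉ G) (h : G.Nonempty)
    (h' : (insert i G).Nonempty) : Q.vec (avgQ Q q (insert i G) h') =
      (1 - ((G.card : ℝ) + 1)⁻¹) • Q.vec (avgQ Q q G h) + ((G.card : ℝ) + 1)⁻¹ • Q.vec (q i) := by
  have hk : (0 : ℝ) < G.card := by exact_mod_cast h.card_pos
  rw [vec_avgQ, vec_avgQ, Finset.card_insert_of_notMem hi, Finset.sum_insert hi, smul_add,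
    smul_smul, Nat.cast_add, Nat.cast_one, add_comm]
  congr 2
  field_simp
  ring

/-- PROOF: let `k = |G|`, `χ(k) = min (1, k/(n+1))`. If `k = 0` the left side is `‖χ(1) g(..)‖² ≤ 1/(n+1)² ≤ 1/(n+1)`. If `k ≥ 1`:
`f(insert i G) - f(G) = (χ(k+1) - χ(k)) g(a') + χ(k) (g(a') - g(a))`, `‖g(a') - g(a)‖ ≤ L/(k+1)` (`vec_avgQ_insert`, `lip`), `χ(k+1) - χ(k) ≤ 1/(n+1)`, and it is
`0` for `k ≥ n+1`; so the left side is at most `2 (k+1) (χ(k+1)-χ(k))² + 2 χ(k)² L² / (k+1) ≤ 2/(n+1) + 2 L²/(n+1)` (`χ(k)² ≤ k²/(n+1)²` for `k ≤ n+1`). -/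
theorem fG_lip [DecidableEq J] {g : Q.Pt → ℂ} {L : ℝ} (h : RLip Q g L) (G : Finset J) {i : J}
    (hi : i ∉ G) : (G.card + 1 : ℝ) * ‖fG Q q n g (insert i G) - fG Q q n g G‖ ^ 2 ≤
      √((2 + 2 * L ^ 2) / (n + 1)) ^ 2 := by
  have hN : (0 : ℝ) < (n : ℝ) + 1 := by positivity
  rw [Real.sq_sqrt (by positivity)]
  have hins : (insert i G).Nonempty := Finset.insert_nonempty i G
  by_cases hG : G.Nonempty
  · have hk : (1 : ℝ) ≤ G.card := by exact_mod_cast hG.card_pos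
    have e1 : fG Q q n g (insert i G) =
        ((min 1 (((G.card : ℝ) + 1) / (n + 1)) : ℝ) : ℂ) * g (avgQ Q q (insert i G) hins) := by
      unfold fG
      rw [dif_pos hins, Finset.card_insert_of_notMem hi, Nat.cast_add, Nat.cast_one]
    have e2 : fG Q q n g G = ((min 1 ((G.card : ℝ) / (n + 1)) : ℝ) : ℂ) * g (avgQ Q q G hG) := by
      unfold fG
      rw [dif_pos hG]
    have hl := h.lip (avgQ Q q G hG) (q i) (avgQ Q q (insert i G) hins) ((G.card : ℝ) + 1)⁻¹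
      (by positivity) (inv_le_one_of_one_le₀ (by linarith)) (vec_avgQ_insert q hi hG hins)
    have hb := h.bdd (avgQ Q q (insert i G) hins)
    set k : ℝ := (G.card : ℝ) with hkd
    set N : ℝ := (n : ℝ) + 1 with hNd
    have e3 : fG Q q n g (insert i G) - fG Q q n g G =
        ((min 1 ((k + 1) / N) - min 1 (k / N) : ℝ) : ℂ) * g (avgQ Q q (insert i G) hins) +
          ((min 1 (k / N) : ℝ) : ℂ) *
            (g (avgQ Q q (insert i G) hins) - g (avgQ Q q G hG)) := by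
      rw [e1, e2]
      push_cast
      ring
    have hx0 : 0 ≤ min 1 (k / N) := le_min zero_le_one (by positivity)
    have hd0 : 0 ≤ min 1 ((k + 1) / N) - min 1 (k / N) := by
      refine sub_nonneg.2 (min_le_min le_rfl ?_)
      gcongr
      linarith
    have hn : ‖fG Q q n g (insert i G) - fG Q q n g G‖ ≤
        (min 1 ((k + 1) / N) - min 1 (k / N)) + min 1 (k / N) * (L * (k + 1)⁻¹) := by
      rw [e3]
      refine (norm_add_le _ _).trans (add_le_add ?_ ?_)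
      · rw [norm_mul, Complex.norm_real, Real.norm_eq_abs, abs_of_nonneg hd0]
        exact mul_le_of_le_one_right hd0 hb
      · rw [norm_mul, Complex.norm_real, Real.norm_eq_abs, abs_of_nonneg hx0]
        exact mul_le_mul_of_nonneg_left hl hx0
    set x : ℝ := min 1 (k / N) with hxd
    set d : ℝ := min 1 ((k + 1) / N) - x with hdd
    have hA : (k + 1) * d ^ 2 ≤ 1 / N := by
      rcases le_or_gt N k with hc | hc
      · have h1 : x = 1 := by
          rw [hxd]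
          exact min_eq_left ((one_le_div hN).2 hc)
        have h2 : min 1 ((k + 1) / N) = 1 := min_eq_left ((one_le_div hN).2 (by linarith))
        have h3 : d = 0 := by rw [hdd, h1, h2, sub_self]
        rw [h3]
        have : 0 ≤ 1 / N := by positivity
        simpa using this
      · have hc' : k + 1 ≤ N := by
          have : G.card < n + 1 := by
            have : (G.card : ℝ) < ((n + 1 : ℕ) : ℝ) := by
              push_cast
              exact hc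
            exact_mod_cast this
          have h2 : G.card + 1 ≤ n + 1 := this
          have h3 : ((G.card + 1 : ℕ) : ℝ) ≤ ((n + 1 : ℕ) : ℝ) := by exact_mod_cast h2
          push_cast at h3
          exact h3
        have h1 : x = k / N := by
          rw [hxd]
          exact min_eq_right ((div_le_one hN).2 hc.le)
        have h2 : min 1 ((k + 1) / N) = (k + 1) / N := min_eq_right ((div_le_one hN).2 hc')
        have h3 : d = 1 / N := by
          rw [hdd, h1, h2]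
          ring
        rw [h3]
        rw [div_pow, one_pow, mul_one_div, div_le_div_iff₀ (by positivity) hN]
        nlinarith
    have hB : x ^ 2 * (k + 1)⁻¹ ≤ 1 / N := by
      rcases le_or_gt N k with hc | hc
      · have h1 : x ≤ 1 := min_le_left _ _
        have h2 : x ^ 2 ≤ 1 := pow_le_one₀ hx0 h1
        calc x ^ 2 * (k + 1)⁻¹ ≤ 1 * (k + 1)⁻¹ := by gcongr
          _ = 1 / (k + 1) := by rw [one_mul, one_div]
          _ ≤ 1 / N := one_div_le_one_div_of_le hN (by linarith)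
      · have h1 : x ≤ k / N := min_le_right _ _
        have h2 : x ^ 2 ≤ (k / N) ^ 2 := by gcongr
        calc x ^ 2 * (k + 1)⁻¹ ≤ (k / N) ^ 2 * (k + 1)⁻¹ := by gcongr
          _ = k ^ 2 / (N ^ 2 * (k + 1)) := by field_simp
          _ ≤ 1 / N := by
            rw [div_le_div_iff₀ (by positivity) hN]
            have h3 : k ^ 2 ≤ N * (k + 1) := by nlinarith
            nlinarith
    have hL := h.nonneg
    have hsq : ‖fG Q q n g (insert i G) - fG Q q n g G‖ ^ 2 ≤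
        2 * d ^ 2 + 2 * (x ^ 2 * (L * (k + 1)⁻¹) ^ 2) := by
      have h0 : 0 ≤ d + x * (L * (k + 1)⁻¹) := by positivity
      calc _ ≤ (d + x * (L * (k + 1)⁻¹)) ^ 2 := by gcongr
        _ ≤ _ := by nlinarith [sq_nonneg (d - x * (L * (k + 1)⁻¹))]
    have hkp : 0 < k + 1 := by linarith
    calc (k + 1) * ‖fG Q q n g (insert i G) - fG Q q n g G‖ ^ 2
        ≤ (k + 1) * (2 * d ^ 2 + 2 * (x ^ 2 * (L * (k + 1)⁻¹) ^ 2)) := by gcongr
      _ = 2 * ((k + 1) * d ^ 2) + 2 * L ^ 2 * (x ^ 2 * (k + 1)⁻¹) := by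
        field_simp
      _ ≤ 2 * (1 / N) + 2 * L ^ 2 * (1 / N) := by
        have h2L : 0 ≤ 2 * L ^ 2 := by positivity
        exact add_le_add (mul_le_mul_of_nonneg_left hA zero_le_two)
          (mul_le_mul_of_nonneg_left hB h2L)
      _ = _ := by ring
  · have hG0 : G = ∅ := Finset.not_nonempty_iff_eq_empty.1 hG
    have e2 : fG Q q n g G = 0 := by
      unfold fG
      rw [dif_neg hG]
    have e1 : fG Q q n g (insert i G) =
        ((min 1 ((1 : ℝ) / (n + 1)) : ℝ) : ℂ) * g (avgQ Q q (insert i G) hins) := by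
      unfold fG
      have hc0 : G.card = 0 := by rw [hG0, Finset.card_empty]
      rw [dif_pos hins, Finset.card_insert_of_notMem hi, hc0, zero_add, Nat.cast_one]
    have hb := h.bdd (avgQ Q q (insert i G) hins)
    have hx0 : 0 ≤ min 1 ((1 : ℝ) / (n + 1)) := le_min zero_le_one (by positivity)
    have hn : ‖fG Q q n g (insert i G) - fG Q q n g G‖ ≤ 1 / ((n : ℝ) + 1) := by
      rw [e1, e2, sub_zero, norm_mul, Complex.norm_real, Real.norm_eq_abs, abs_of_nonneg hx0]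
      calc min 1 ((1 : ℝ) / (n + 1)) * ‖g (avgQ Q q (insert i G) hins)‖
          ≤ min 1 ((1 : ℝ) / (n + 1)) * 1 := by gcongr
        _ ≤ 1 / ((n : ℝ) + 1) := by
          rw [mul_one]
          exact min_le_right _ _
    have hc0 : (G.card : ℝ) = 0 := by rw [hG0, Finset.card_empty, Nat.cast_zero]
    have h1 : (1 : ℝ) / (n + 1) ≤ 1 := by
      rw [div_le_one hN]
      have : (0 : ℝ) ≤ n := Nat.cast_nonneg n
      linarith
    have hp : (0 : ℝ) ≤ 1 / (n + 1) := by positivity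
    calc ((G.card : ℝ) + 1) * ‖fG Q q n g (insert i G) - fG Q q n g G‖ ^ 2
        ≤ 1 * (1 / ((n : ℝ) + 1)) ^ 2 := by
          rw [hc0, zero_add]
          gcongr
      _ ≤ 1 / ((n : ℝ) + 1) := by nlinarith
      _ ≤ _ := by
        gcongr
        nlinarith [sq_nonneg L]

/-- PROOF: `smul_avgQ`, `card_gF`. -/
theorem fG_gF [MulAction Γ J] {q : J → Q.Pt} (hq : ∀ (g : Γ) i, q (g • i) = g • q i) (s : Γ)
    (g : Q.Pt → ℂ) (G : Finset J) :
    fG Q q n g (gF s⁻¹ G) = fG Q q n (fun x => g (s⁻¹ • x)) G := by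
  have hne : (gF s⁻¹ G).Nonempty ↔ G.Nonempty := by
    rw [← Finset.card_pos, ← Finset.card_pos, card_gF]
  unfold fG
  by_cases hG : G.Nonempty
  · rw [dif_pos hG, dif_pos (hne.2 hG), card_gF, smul_avgQ Q hq s⁻¹ G hG (hne.2 hG)]
  · rw [dif_neg hG, dif_neg fun h => hG (hne.1 h)]

end RLip

variable {Γ E : Type} [Group Γ] [AddCommGroup E] [Module ℝ E] [TopologicalSpace E]
  [DistribMulAction Γ E] [SMulCommClass Γ ℝ E] [T2Space E] [ContinuousAdd E]
  [ContinuousSMul ℝ E] [LocallyConvexSpace ℝ E]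

/-- Density. PROOF: the functions `z • g`, `g` continuous with `RLip Q g L` for some `L`, form a star subalgebra of `C(Q, ℂ)` containing the constants
(sums: scale), and they separate the points: by Hahn-Banach (`E` is locally convex and Hausdorff: `geometric_hahn_banach_point_point`) there is a continuous real
functional `λ` with `λ x ≠ λ y`, and `g = λ / (1 + sup_Q |λ|)` satisfies `g z - g x = t (g y - g x)`. Stone-Weierstrass
(`ContinuousMap.starSubalgebra_topologicalClosure_eq_top_of_separatesPoints`). -/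
theorem exists_RLip (Q : ConvexSpace Γ E) [CompactSpace Q.Pt] (f : C(Q.Pt, ℂ)) {ε : ℝ} (hε : 0 < ε) :
    ∃ (z : ℂ) (g : C(Q.Pt, ℂ)) (L : ℝ), RLip Q g L ∧ ∀ x, ‖f x - z * g x‖ ≤ ε := by
  classical
  have : IsTopologicalAddGroup E := by
    have : ContinuousNeg E := ⟨by
      have : Continuous fun x : E => (-1 : ℝ) • x := continuous_const_smul (-1 : ℝ)
      simpa using this⟩
    exact {}
  let 𝒜 : StarSubalgebra ℂ C(Q.Pt, ℂ) :=
    { carrier := {f | ∃ (z : ℂ) (g : C(Q.Pt, ℂ)) (L : ℝ), RLip Q g L ∧ f = z • g}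
      mul_mem' := by
        rintro _ _ ⟨z, g, L, h, rfl⟩ ⟨z', g', L', h', rfl⟩
        refine ⟨z * z', g * g', L + L', ?_, ?_⟩
        · exact h.mul h'
        · rw [smul_mul_smul_comm]
      add_mem' := by
        rintro _ _ ⟨z, g, L, h, rfl⟩ ⟨z', g', L', h', rfl⟩
        set w : ℝ := ‖z‖ + ‖z'‖ + 1 with hw
        have hw0 : 0 < w := by positivity
        have hwc : (w : ℂ) ≠ 0 := by exact_mod_cast hw0.ne'
        refine ⟨(w : ℂ), (w : ℂ)⁻¹ • (z • g + z' • g'), L + L', ?_, ?_⟩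
        · have hL := h.nonneg
          have hL' := h'.nonneg
          refine ⟨add_nonneg hL hL', fun x => ?_, fun x y v t h0 h1 hz => ?_⟩
          · have e : ((w : ℂ)⁻¹ • (z • g + z' • g')) x = (w : ℂ)⁻¹ * (z * g x + z' * g' x) := rfl
            rw [e, norm_mul, norm_inv, Complex.norm_real, Real.norm_eq_abs, abs_of_pos hw0,
              inv_mul_le_iff₀ hw0, mul_one]
            calc _ ≤ ‖z * g x‖ + ‖z' * g' x‖ := norm_add_le _ _
              _ ≤ ‖z‖ * 1 + ‖z'‖ * 1 := by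
                rw [norm_mul, norm_mul]
                exact add_le_add (mul_le_mul_of_nonneg_left (h.bdd x) (norm_nonneg _))
                  (mul_le_mul_of_nonneg_left (h'.bdd x) (norm_nonneg _))
              _ ≤ w := by
                rw [hw]
                linarith
          · have e : ((w : ℂ)⁻¹ • (z • g + z' • g')) v - ((w : ℂ)⁻¹ • (z • g + z' • g')) x =
                (w : ℂ)⁻¹ * (z * (g v - g x) + z' * (g' v - g' x)) := by
              change (w : ℂ)⁻¹ * (z * g v + z' * g' v) - (w : ℂ)⁻¹ * (z * g x + z' * g' x) = _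
              ring
            rw [e, norm_mul, norm_inv, Complex.norm_real, Real.norm_eq_abs, abs_of_pos hw0,
              inv_mul_le_iff₀ hw0]
            have a1 := h.lip x y v t h0 h1 hz
            have a2 := h'.lip x y v t h0 h1 hz
            have hz1 : ‖z‖ ≤ w := by
              rw [hw]
              linarith [norm_nonneg z']
            have hz2 : ‖z'‖ ≤ w := by
              rw [hw]
              linarith [norm_nonneg z]
            calc _ ≤ ‖z * (g v - g x)‖ + ‖z' * (g' v - g' x)‖ := norm_add_le _ _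
              _ ≤ w * (L * t) + w * (L' * t) := by
                rw [norm_mul, norm_mul]
                exact add_le_add (mul_le_mul hz1 a1 (norm_nonneg _) hw0.le)
                  (mul_le_mul hz2 a2 (norm_nonneg _) hw0.le)
              _ = _ := by ring
        · rw [smul_smul, mul_inv_cancel₀ hwc, one_smul]
      algebraMap_mem' := by
        intro r
        refine ⟨r, 1, 0, RLip.one Q, ?_⟩
        ext x
        simp [Algebra.algebraMap_eq_smul_one]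
      star_mem' := by
        rintro _ ⟨z, g, L, h, rfl⟩
        refine ⟨star z, star g, L, ⟨h.nonneg, fun x => ?_, fun x y v t h0 h1 hz => ?_⟩, ?_⟩
        · change ‖star (g x)‖ ≤ 1
          rw [norm_star]
          exact h.bdd x
        · change ‖star (g v) - star (g x)‖ ≤ _
          rw [← star_sub, norm_star]
          exact h.lip x y v t h0 h1 hz
        · rw [star_smul] }
  have hcont : Continuous Q.vec := continuous_subtype_val
  have hsep : 𝒜.SeparatesPoints := by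
    intro x y hxy
    have hne : Q.vec x ≠ Q.vec y := fun h => hxy (Subtype.ext h)
    obtain ⟨l, hl⟩ := geometric_hahn_banach_point_point hne
    have hlc : Continuous fun v : Q.Pt => l (Q.vec v) := l.continuous.comp hcont
    obtain ⟨M, hM⟩ := isCompact_univ.exists_bound_of_continuousOn (s := (Set.univ : Set Q.Pt))
      hlc.continuousOn
    have hM0 : 0 ≤ M := (norm_nonneg _).trans (hM x (Set.mem_univ x))
    have hM1 : 0 < 1 + M := by linarith
    have hgc : Continuous fun v : Q.Pt => ((l (Q.vec v) / (1 + M) : ℝ) : ℂ) :=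
      Complex.continuous_ofReal.comp (hlc.div_const _)
    let G : C(Q.Pt, ℂ) := ⟨fun v => ((l (Q.vec v) / (1 + M) : ℝ) : ℂ), hgc⟩
    have hG1 : ∀ v, ‖G v‖ ≤ 1 := by
      intro v
      change ‖((l (Q.vec v) / (1 + M) : ℝ) : ℂ)‖ ≤ 1
      rw [Complex.norm_real, norm_div, Real.norm_of_nonneg hM1.le, div_le_one hM1]
      linarith [hM v (Set.mem_univ v)]
    have hR : RLip Q G 2 := by
      refine ⟨by norm_num, hG1, fun a b v t h0 h1 hz => ?_⟩
      have e : G v - G a = (t : ℂ) * (G b - G a) := by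
        change ((l (Q.vec v) / (1 + M) : ℝ) : ℂ) - ((l (Q.vec a) / (1 + M) : ℝ) : ℂ) =
          (t : ℂ) * (((l (Q.vec b) / (1 + M) : ℝ) : ℂ) - ((l (Q.vec a) / (1 + M) : ℝ) : ℂ))
        rw [hz, map_add, map_smul, map_smul, smul_eq_mul, smul_eq_mul]
        push_cast
        ring
      rw [e, norm_mul, Complex.norm_real, Real.norm_of_nonneg h0, mul_comm]
      refine mul_le_mul_of_nonneg_right ?_ h0
      calc _ ≤ ‖G b‖ + ‖G a‖ := norm_sub_le _ _
        _ ≤ 1 + 1 := add_le_add (hG1 b) (hG1 a)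
        _ = 2 := by norm_num
    refine ⟨G, ⟨G, ⟨1, G, 2, hR, (one_smul _ _).symm⟩, rfl⟩, ?_⟩
    change ((l (Q.vec x) / (1 + M) : ℝ) : ℂ) ≠ ((l (Q.vec y) / (1 + M) : ℝ) : ℂ)
    intro h
    have h2 : l (Q.vec x) / (1 + M) = l (Q.vec y) / (1 + M) := by exact_mod_cast h
    rw [div_left_inj' hM1.ne'] at h2
    exact hl.ne h2
  have htop := ContinuousMap.starSubalgebra_topologicalClosure_eq_top_of_separatesPoints 𝒜 hsep
  have hf : f ∈ 𝒜.topologicalClosure := by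
    rw [htop]
    exact StarSubalgebra.mem_top
  have hf' : f ∈ closure (𝒜 : Set C(Q.Pt, ℂ)) := hf
  obtain ⟨f', hf1, hf2⟩ := Metric.mem_closure_iff.1 hf' ε hε
  obtain ⟨z, g, L, hR, rfl⟩ := hf1
  refine ⟨z, g, L, hR, fun x => ?_⟩
  have := (ContinuousMap.norm_coe_le_norm (f - z • g) x)
  rw [dist_eq_norm] at hf2
  exact this.trans hf2.le

end Pool.Agent.Lib.MP_aa9b81_an.Rc
end
end

section

/-!
# Rotated sites, part M4: the charges at finitely many fibres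
-/

open scoped ENNReal Topology ZeroAtInfty
open Function Filter Set

noncomputable section

set_option linter.unusedSectionVars false

namespace Pool.Agent.Lib.MP_aa9b81_an.Rc

open Cut Hs

variable {Γ C I : Type} [Group Γ] [MulAction Γ C] [MulAction Γ I] [DecidableEq C]
  [DecidableEq I]

open Classical in
/-- The charged fibres in `K`, in the basis of the law with `θ = π/2`: the fibres where `b` has the letter `none`, or no letter. -/
def sch (𝔉 : Fibr Γ C I) (K : Finset I) (b : Bs C) : Finset I :=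
  K.filter fun i => ¬ ∃ l ∈ 𝔉.Lt i, l ≠ none ∧ 𝔉.st i l b

private theorem M4_ext {T T' : BL (Bs C)}
    (h : ∀ (ξ : L2 (Bs C)) (b : Bs C), (T ξ : Bs C → ℂ) b = (T' ξ : Bs C → ℂ) b) : T = T' := by
  refine ContinuousLinearMap.ext fun ξ => ?_
  ext b
  exact h ξ b

private theorem M4_dia_mul {φ ψ : Bs C → ℂ} {M M' : ℝ} (hM : 0 ≤ M) (hφ : ∀ b, ‖φ b‖ ≤ M)
    (hM' : 0 ≤ M') (hψ : ∀ b, ‖ψ b‖ ≤ M') : dia φ * dia ψ = dia fun b => φ b * ψ b := by
  refine M4_ext fun ξ b => ?_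
  have h1 : ∀ b, ‖φ b * ψ b‖ ≤ M * M' := fun b => by
    rw [norm_mul]
    exact mul_le_mul (hφ b) (hψ b) (norm_nonneg _) hM
  have e : ((dia φ * dia ψ) ξ : Bs C → ℂ) b = (dia φ (dia ψ ξ) : Bs C → ℂ) b := rfl
  rw [e, dia_apply hM hφ, dia_apply hM' hψ, dia_apply (mul_nonneg hM hM') h1, mul_assoc]

private theorem M4_dia_add {φ ψ : Bs C → ℂ} {M M' : ℝ} (hM : 0 ≤ M) (hφ : ∀ b, ‖φ b‖ ≤ M)
    (hM' : 0 ≤ M') (hψ : ∀ b, ‖ψ b‖ ≤ M') : dia φ + dia ψ = dia fun b => φ b + ψ b := by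
  refine M4_ext fun ξ b => ?_
  have h1 : ∀ b, ‖φ b + ψ b‖ ≤ M + M' := fun b =>
    (norm_add_le _ _).trans (add_le_add (hφ b) (hψ b))
  have e : ((dia φ + dia ψ) ξ : Bs C → ℂ) b =
      (dia φ ξ : Bs C → ℂ) b + (dia ψ ξ : Bs C → ℂ) b := rfl
  rw [e, dia_apply hM hφ, dia_apply hM' hψ, dia_apply (add_nonneg hM hM') h1, add_mul]

private theorem M4_dia_smul (z : ℂ) {φ : Bs C → ℂ} {M : ℝ} (hM : 0 ≤ M) (hφ : ∀ b, ‖φ b‖ ≤ M) :
    z • dia φ = dia fun b => z * φ b := by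
  refine M4_ext fun ξ b => ?_
  have h1 : ∀ b, ‖z * φ b‖ ≤ ‖z‖ * M := fun b => by
    rw [norm_mul]
    exact mul_le_mul_of_nonneg_left (hφ b) (norm_nonneg _)
  have e : ((z • dia φ) ξ : Bs C → ℂ) b = z * (dia φ ξ : Bs C → ℂ) b := rfl
  rw [e, dia_apply hM hφ, dia_apply (mul_nonneg (norm_nonneg _) hM) h1, mul_assoc]

private theorem M4_dia_one : (dia fun _ : Bs C => (1 : ℂ)) = 1 := by
  refine M4_ext fun ξ b => ?_
  have e : ((1 : BL (Bs C)) ξ : Bs C → ℂ) b = (ξ : Bs C → ℂ) b := rfl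
  rw [e, dia_apply zero_le_one (fun _ => by simp), one_mul]

private theorem M4_dia_sch (𝔉 : Fibr Γ C I) {K : Finset I} {i : I} (hi : i ∈ K) :
    (dia fun b : Bs C => if i ∈ sch 𝔉 K b then (1 : ℂ) else 0) = 𝔉.Li i 1 (Fibr.ea none) := by
  classical
  rw [𝔉.Li_ea_eq (𝔉.none_mem_Lt i)]
  congr 1
  funext b
  by_cases h : ∃ l ∈ 𝔉.Lt i, l ≠ none ∧ 𝔉.st i l b
  · rw [if_pos h, if_neg]
    intro h'
    unfold sch at h'
    exact (Finset.mem_filter.1 h').2 h
  · rw [if_neg h, if_pos]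
    unfold sch
    exact Finset.mem_filter.2 ⟨hi, h⟩

private theorem M4_ind {𝔉 : Fibr Γ C I} (β : Bas 𝔉) (i : I) [∀ G : Finset I, Decidable (i ∈ G)] :
    (β.G fun G => if i ∈ G then 1 else 0) = 𝔉.Qi i := by
  rw [← β.G_ind i]
  congr 1
  funext G
  split_ifs <;> rfl

variable {𝔉 : Fibr Γ C I} (β : Bas 𝔉)

/-- PROOF: `WE K` conjugates `Li i 1 (ea none)` into `Qi i`: `WE K = Wi i * WE (K.erase i)` (`WE_insert`), the other factor commutes with `Li i ..` (`WE_comm`, `Li_comm`) and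
has square `1`; `Wi_enn_Wi`; `Li_ea_eq`. -/
theorem Qi_eq_sch {K : Finset I} {i : I} (hi : i ∈ K) : 𝔉.Qi i =
    𝔉.WE K (𝔉.Vth β.ne (Real.pi / 2)) * (dia fun b => if i ∈ sch 𝔉 K b then 1 else 0) *
      𝔉.WE K (𝔉.Vth β.ne (Real.pi / 2)) := by
  set V : Mf 𝔉 := 𝔉.Vth β.ne (Real.pi / 2) with hV
  have hiE : i ∉ K.erase i := Finset.notMem_erase i K
  have hW : 𝔉.WE K V = 𝔉.Wi V i * 𝔉.WE (K.erase i) V := by
    rw [← 𝔉.WE_insert hiE V, Finset.insert_erase hi]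
  have hcL : Commute (𝔉.WE (K.erase i) V) (𝔉.Li i 1 (Fibr.ea none)) :=
    𝔉.WE_comm fun j hj => 𝔉.Li_comm (Finset.ne_of_mem_erase hj) _ _ _ _
  have hcW : Commute (𝔉.WE (K.erase i) V) (𝔉.Wi V i) :=
    𝔉.WE_comm fun j hj => 𝔉.Li_comm (Finset.ne_of_mem_erase hj) _ _ _ _
  have hWW := 𝔉.WE_mul_self (K.erase i) V
  rw [M4_dia_sch 𝔉 hi, hW]
  calc 𝔉.Qi i = 𝔉.Wi V i * 𝔉.Li i 1 (Fibr.ea none) * 𝔉.Wi V i := (𝔉.Wi_enn_Wi β.ne i).symm
    _ = 𝔉.Wi V i * 𝔉.Li i 1 (Fibr.ea none) * 𝔉.Wi V i *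
          (𝔉.WE (K.erase i) V * 𝔉.WE (K.erase i) V) := by rw [hWW, mul_one]
    _ = 𝔉.Wi V i * 𝔉.Li i 1 (Fibr.ea none) * (𝔉.Wi V i * 𝔉.WE (K.erase i) V) *
          𝔉.WE (K.erase i) V := by simp only [mul_assoc]
    _ = 𝔉.Wi V i * 𝔉.Li i 1 (Fibr.ea none) * (𝔉.WE (K.erase i) V * 𝔉.Wi V i) *
          𝔉.WE (K.erase i) V := by rw [hcW.eq]
    _ = 𝔉.Wi V i * (𝔉.Li i 1 (Fibr.ea none) * 𝔉.WE (K.erase i) V) * 𝔉.Wi V i *
          𝔉.WE (K.erase i) V := by simp only [mul_assoc]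
    _ = 𝔉.Wi V i * (𝔉.WE (K.erase i) V * 𝔉.Li i 1 (Fibr.ea none)) * 𝔉.Wi V i *
          𝔉.WE (K.erase i) V := by rw [hcL.eq]
    _ = _ := by simp only [mul_assoc]

/-- PROOF: `fun_induction` for the predicate `f bounded ∧ β.G f = WE K * dia (f ∘ sch) * WE K`: `G_ind`, `Qi_eq_sch`, `G_one`, `WE_mul_self`, `G_add`, `G_mul_G`, `G_smul`;
`sch K b ⊆ K`. -/
theorem Bas.G_inter (K : Finset I) {f : Finset I → ℂ} {M : ℝ} (hM : 0 ≤ M) (hf : ∀ G, ‖f G‖ ≤ M) :
    (β.G fun G => f (G ∩ K)) =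
      𝔉.WE K (𝔉.Vth β.ne (Real.pi / 2)) * (dia fun b => f (sch 𝔉 K b)) *
        𝔉.WE K (𝔉.Vth β.ne (Real.pi / 2)) := by
  have hn1 : ∀ b : Bs C, sch 𝔉 K b ∩ K = sch 𝔉 K b := fun b => by
    classical
    refine Finset.inter_eq_left.2 ?_
    unfold sch
    exact Finset.filter_subset _ _
  set V : Mf 𝔉 := 𝔉.Vth β.ne (Real.pi / 2) with hV
  have hWW := 𝔉.WE_mul_self K V
  have key := fun_induction (p := fun f : Finset I → ℂ =>
    (∃ M : ℝ, 0 ≤ M ∧ ∀ G, ‖f G‖ ≤ M) ∧ β.G f =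
      𝔉.WE K V * (dia fun b => f (sch 𝔉 K b)) * 𝔉.WE K V) K ?_ ?_ ?_ ?_ ?_ f
  · rw [key.2]
    simp only [hn1]
  · intro i hi
    refine ⟨⟨1, zero_le_one, fun G => ?_⟩, ?_⟩
    · dsimp only
      split_ifs <;> simp
    · rw [M4_ind β i]
      exact Qi_eq_sch β hi
  · refine ⟨⟨1, zero_le_one, fun G => by simp⟩, ?_⟩
    rw [β.G_one, M4_dia_one, mul_one, hWW]
  · rintro f f' ⟨⟨M, hM, hf⟩, h1⟩ ⟨⟨M', hM', hf'⟩, h2⟩
    refine ⟨⟨M + M', add_nonneg hM hM', fun G => (norm_add_le _ _).trans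
      (add_le_add (hf G) (hf' G))⟩, ?_⟩
    rw [← β.G_add hM hf hM' hf', h1, h2, ← add_mul, ← mul_add,
      M4_dia_add hM (fun b => hf _) hM' (fun b => hf' _)]
  · rintro f f' ⟨⟨M, hM, hf⟩, h1⟩ ⟨⟨M', hM', hf'⟩, h2⟩
    refine ⟨⟨M * M', mul_nonneg hM hM', fun G => ?_⟩, ?_⟩
    · rw [norm_mul]
      exact mul_le_mul (hf G) (hf' G) (norm_nonneg _) hM
    · rw [← β.G_mul_G hM hf hM' hf', h1, h2]
      calc _ = 𝔉.WE K V * (dia fun b => f (sch 𝔉 K b)) * (𝔉.WE K V * 𝔉.WE K V) *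
            (dia fun b => f' (sch 𝔉 K b)) * 𝔉.WE K V := by simp only [mul_assoc]
        _ = 𝔉.WE K V * ((dia fun b => f (sch 𝔉 K b)) * (dia fun b => f' (sch 𝔉 K b))) *
            𝔉.WE K V := by rw [hWW, mul_one]; simp only [mul_assoc]
        _ = _ := by rw [M4_dia_mul hM (fun b => hf _) hM' (fun b => hf' _)]
  · rintro z f ⟨⟨M, hM, hf⟩, h1⟩
    refine ⟨⟨‖z‖ * M, mul_nonneg (norm_nonneg _) hM, fun G => ?_⟩, ?_⟩
    · rw [norm_mul]
      exact mul_le_mul_of_nonneg_left (hf G) (norm_nonneg _)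
    · rw [← β.G_smul z hM hf, h1, ← smul_mul_assoc, ← mul_smul_comm,
        M4_dia_smul z hM (fun b => hf _)]

/-- The product of the reflections at the fibres off `K`. -/
def Bas.OK (K : Finset I) : BL (Bs C) := β.O * 𝔉.WE K (𝔉.VO β.mem)

/-- PROOF: `OO_apply`, `WE_apply_congr` (`FixV`), `WE_sdiff`, `WE_mul_self`: `(O (WE K ξ)) b = (WE E (WE K ξ)) b = (WE (E ∖ K) ξ) b`. -/
theorem Bas.OK_apply {K E : Finset I} (ξ : L2 (Bs C)) {b : Bs C} (hK : K ⊆ E)
    (hb : 𝔉.sites b.F ⊆ E) :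
    (β.OK K ξ : Bs C → ℂ) b = (𝔉.WE (E \ K) (𝔉.VO β.mem) ξ : Bs C → ℂ) b := by
  have e : (β.OK K ξ : Bs C → ℂ) b = (β.O (𝔉.WE K (𝔉.VO β.mem) ξ) : Bs C → ℂ) b := rfl
  have e2 : 𝔉.WE E (𝔉.VO β.mem) (𝔉.WE K (𝔉.VO β.mem) ξ) = 𝔉.WE (E \ K) (𝔉.VO β.mem) ξ := by
    have h1 : 𝔉.WE E (𝔉.VO β.mem) * 𝔉.WE K (𝔉.VO β.mem) = 𝔉.WE (E \ K) (𝔉.VO β.mem) := by
      rw [𝔉.WE_sdiff hK, mul_assoc, 𝔉.WE_mul_self, mul_one]
    exact DFunLike.congr_fun h1 ξ
  rw [e, Bas.O, β.fixV.OO_apply _ hb, e2]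

private theorem M4_OK_congr (K : Finset I) {ξ η : L2 (Bs C)} {b : Bs C}
    (h : ∀ b', 𝔉.Cc b b' → (ξ : Bs C → ℂ) b' = (η : Bs C → ℂ) b') :
    (β.OK K ξ : Bs C → ℂ) b = (β.OK K η : Bs C → ℂ) b := by
  rw [β.OK_apply (E := K ∪ 𝔉.sites b.F) ξ Finset.subset_union_left Finset.subset_union_right,
    β.OK_apply (E := K ∪ 𝔉.sites b.F) η Finset.subset_union_left Finset.subset_union_right]
  exact β.fixV.WE_apply_congr _ h

/-- PROOF: coordinates at `b`: `OK_apply`; `X` does not change the value of `WE (E ∖ K)`..: let `A` be a finite set containing `b` and the support of the row `b` of `X`, `E` the union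
of `K` and of the sites of the labels in `A`; both sides at `b` are `(WE (E ∖ K) X ξ) b = (X WE (E ∖ K) ξ) b`, using `apply_eq_sum_ker`. -/
theorem Bas.OK_comm {K : Finset I} {X : BL (Bs C)} (hX : FinM X)
    (h : ∀ i ∉ K, Commute X (𝔉.Wi (𝔉.VO β.mem) i)) : Commute X (β.OK K) := by
  refine M4_ext fun ξ b => ?_
  obtain ⟨A, hA⟩ := hX.row b
  set E : Finset I := K ∪ (𝔉.sites b.F ∪ A.biUnion fun b' => 𝔉.sites b'.F) with hE
  have hKE : K ⊆ E := Finset.subset_union_left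
  have hsE : ∀ b', b' = b ∨ b' ∈ A → 𝔉.sites b'.F ⊆ E := by
    rintro b' (rfl | hb') i hi
    · exact Finset.mem_union_right _ (Finset.mem_union_left _ hi)
    · exact Finset.mem_union_right _ (Finset.mem_union_right _ (Finset.mem_biUnion.2 ⟨b', hb', hi⟩))
  have hc : Commute X (𝔉.WE (E \ K) (𝔉.VO β.mem)) :=
    (𝔉.WE_comm fun i hi => (h i (Finset.mem_sdiff.1 hi).2).symm).symm
  have e1 : ((X * β.OK K) ξ : Bs C → ℂ) b = (X (β.OK K ξ) : Bs C → ℂ) b := rfl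
  have e2 : ((β.OK K * X) ξ : Bs C → ℂ) b = (β.OK K (X ξ) : Bs C → ℂ) b := rfl
  have e3 : 𝔉.WE (E \ K) (𝔉.VO β.mem) (X ξ) = X (𝔉.WE (E \ K) (𝔉.VO β.mem) ξ) :=
    (DFunLike.congr_fun hc.eq ξ).symm
  rw [e1, e2, β.OK_apply (X ξ) hKE (hsE b (Or.inl rfl)), e3, apply_eq_sum_ker X b hA,
    apply_eq_sum_ker X b hA]
  exact Finset.sum_congr rfl fun b' hb' => by
    rw [β.OK_apply ξ hKE (hsE b' (Or.inr hb'))]

/-- PROOF: `OK_comm`-like: `WE K (VO)` commutes with `O` (`OO_apply`, `WE_apply_congr`; all the local operators commute or coincide), `OO_mul_OO`, `WE_mul_self`. -/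
theorem Bas.OK_mul_OK (K : Finset I) : β.OK K * β.OK K = 1 := by
  refine M4_ext fun ξ b => ?_
  set E : Finset I := K ∪ 𝔉.sites b.F with hE
  have hKE : K ⊆ E := Finset.subset_union_left
  have hsE : 𝔉.sites b.F ⊆ E := Finset.subset_union_right
  have e1 : ((β.OK K * β.OK K) ξ : Bs C → ℂ) b = (β.OK K (β.OK K ξ) : Bs C → ℂ) b := rfl
  have e2 : ((1 : BL (Bs C)) ξ : Bs C → ℂ) b = (ξ : Bs C → ℂ) b := rfl
  have e3 : (𝔉.WE (E \ K) (𝔉.VO β.mem) (β.OK K ξ) : Bs C → ℂ) b =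
      (𝔉.WE (E \ K) (𝔉.VO β.mem) (𝔉.WE (E \ K) (𝔉.VO β.mem) ξ) : Bs C → ℂ) b := by
    refine β.fixV.WE_apply_congr _ fun b' hb' => ?_
    refine β.OK_apply ξ hKE ?_
    rw [hb'.sites]
    exact hsE
  have e4 : 𝔉.WE (E \ K) (𝔉.VO β.mem) (𝔉.WE (E \ K) (𝔉.VO β.mem) ξ) = ξ :=
    DFunLike.congr_fun (𝔉.WE_mul_self (E \ K) (𝔉.VO β.mem)) ξ
  rw [e1, e2, β.OK_apply (β.OK K ξ) hKE hsE, e3, e4]

theorem Bas.norm_OK_le (K : Finset I) : ‖β.OK K‖ ≤ 1 := by
  unfold Bas.OK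
  refine (norm_mul_le _ _).trans ?_
  exact mul_le_one₀ β.fixV.norm_OO_le (norm_nonneg _) (𝔉.norm_WE_le _ _)

/-- PROOF: rows: `OO_apply_congr` and `WE_apply_congr` (`FixV`): `Cc`-classes; finite by `finite_Cc`; columns: symmetric. -/
theorem Bas.finM_OK (K : Finset I) : FinM (β.OK K) := by
  classical
  have key : ∀ b b' : Bs C, ker (β.OK K) b b' ≠ 0 → 𝔉.Cc b b' := by
    intro b b' hk
    by_contra hc
    refine hk ?_
    have h0 : ∀ b'', 𝔉.Cc b b'' → (bv b' : Bs C → ℂ) b'' = ((0 : L2 (Bs C)) : Bs C → ℂ) b'' := by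
      intro b'' h''
      have hne : b'' ≠ b' := fun h => hc (h ▸ h'')
      rw [bv, lp.single_apply, Pi.single_eq_of_ne hne]
      rfl
    rw [Hs.ker, M4_OK_congr β K h0, map_zero]
    rfl
  constructor
  · intro b
    refine ⟨(𝔉.finite_Cc b).toFinset, fun b' hb' => ?_⟩
    by_contra hne
    exact hb' ((Set.Finite.mem_toFinset _).2 (key _ _ hne))
  · intro b'
    refine ⟨(𝔉.finite_Cc b').toFinset, fun b hb => ?_⟩
    by_contra hne
    exact hb ((Set.Finite.mem_toFinset _).2 (key _ _ hne).symm)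

/-- PROOF: `OK_comm`, `Li_comm`; `WE K V` is a finite product of `Wi V i`, `i ∈ K` (`WE_comm`), whose rows and columns are finite. -/
theorem Bas.OK_comm_WE (K : Finset I) (V : Mf 𝔉) : Commute (𝔉.WE K V) (β.OK K) := by
  classical
  have key : ∀ b b' : Bs C, ker (𝔉.WE K V) b b' ≠ 0 →
      b'.S = b.S ∧ ∀ c, 𝔉.p c ∉ K → (c ∈ b'.F ↔ c ∈ b.F) := by
    intro b b' hk
    by_contra hcon
    refine hk ?_
    have h0 : (𝔉.WE K V (bv b') : Bs C → ℂ) b = (𝔉.WE K V 0 : Bs C → ℂ) b := by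
      refine 𝔉.WE_apply_congr V fun b2 hb2S hb2F => ?_
      have hne : b2 ≠ b' := by
        rintro rfl
        exact hcon ⟨hb2S, hb2F⟩
      rw [bv, lp.single_apply, Pi.single_eq_of_ne hne]
      rfl
    rw [Hs.ker, h0, map_zero]
    rfl
  have hfin : FinM (𝔉.WE K V) := by
    constructor
    · intro b
      refine ⟨(𝔉.finite_agree K b).toFinset, fun b' hb' => ?_⟩
      by_contra hne
      exact hb' ((Set.Finite.mem_toFinset _).2 (key _ _ hne))
    · intro b'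
      refine ⟨(𝔉.finite_agree K b').toFinset, fun b hb => ?_⟩
      by_contra hne
      have h1 := key _ _ hne
      exact hb ((Set.Finite.mem_toFinset _).2 ⟨h1.1.symm, fun c hc => (h1.2 c hc).symm⟩)
  refine β.OK_comm hfin fun i hi => 𝔉.WE_comm fun j hj => 𝔉.Li_comm (fun hji => hi ?_) _ _ _ _
  rw [← hji]
  exact hj

/-- PROOF: `OK_comm`: `dF φ` commutes with `Wi i` for `i ∉ K` (`Li_comm_of`, `Em_comm_dia`: `φ` depends only on the fibres of `K`). -/
theorem Bas.OK_comm_dF {K : Finset I} {φ : Finset C → ℂ} (h : 𝔉.Cyl K φ) :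
    Commute (Fibr.dF φ) (β.OK K) := by
  refine β.OK_comm (FinM.dia zero_le_one fun b => h.bdd b.F) fun i hi => ?_
  refine (𝔉.Li_comm_of _ _ fun l hl l' hl' => ?_).symm
  refine 𝔉.Em_comm_dia hl' zero_le_one (fun b => h.bdd b.F) fun b hb => ?_
  refine h.loc _ _ fun c hc => ?_
  have hc2 : c ∉ 𝔉.fib i := fun h3 => hi (by
    rw [← (𝔉.mem_fib i c).1 h3]
    exact hc)
  have hc3 : c ∉ l'.toFinset := fun h3 => hc2 (𝔉.toFinset_subset hl' h3)
  rw [𝔉.upd_F l' hb.1, Finset.mem_union, Finset.mem_sdiff]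
  tauto

end Pool.Agent.Lib.MP_aa9b81_an.Rc
end
end

section

/-!
# Rotated sites, part M5: simultaneous diagonalisation
-/

open scoped ENNReal Topology ZeroAtInfty
open Function Filter Set

noncomputable section

set_option linter.unusedSectionVars false

namespace Pool.Agent.Lib.MP_aa9b81_an.Rc

open Cut Hs

variable {Γ C I : Type} [Group Γ] [MulAction Γ C] [MulAction Γ I] [DecidableEq C]
  [DecidableEq I]

private theorem M5_ext {T T' : BL (Bs C)}
    (h : ∀ (ξ : L2 (Bs C)) (b : Bs C), (T ξ : Bs C → ℂ) b = (T' ξ : Bs C → ℂ) b) : T = T' := by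
  refine ContinuousLinearMap.ext fun ξ => ?_
  ext b
  exact h ξ b

private theorem M5_dia_mul {φ ψ : Bs C → ℂ} {M M' : ℝ} (hM : 0 ≤ M) (hφ : ∀ b, ‖φ b‖ ≤ M)
    (hM' : 0 ≤ M') (hψ : ∀ b, ‖ψ b‖ ≤ M') : dia φ * dia ψ = dia fun b => φ b * ψ b := by
  refine M5_ext fun ξ b => ?_
  have h1 : ∀ b, ‖φ b * ψ b‖ ≤ M * M' := fun b => by
    rw [norm_mul]
    exact mul_le_mul (hφ b) (hψ b) (norm_nonneg _) hM
  have e : ((dia φ * dia ψ) ξ : Bs C → ℂ) b = (dia φ (dia ψ ξ) : Bs C → ℂ) b := rfl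
  rw [e, dia_apply hM hφ, dia_apply hM' hψ, dia_apply (mul_nonneg hM hM') h1, mul_assoc]

private theorem M5_dia_add {φ ψ : Bs C → ℂ} {M M' : ℝ} (hM : 0 ≤ M) (hφ : ∀ b, ‖φ b‖ ≤ M)
    (hM' : 0 ≤ M') (hψ : ∀ b, ‖ψ b‖ ≤ M') : dia φ + dia ψ = dia fun b => φ b + ψ b := by
  refine M5_ext fun ξ b => ?_
  have h1 : ∀ b, ‖φ b + ψ b‖ ≤ M + M' := fun b =>
    (norm_add_le _ _).trans (add_le_add (hφ b) (hψ b))
  have e : ((dia φ + dia ψ) ξ : Bs C → ℂ) b =
      (dia φ ξ : Bs C → ℂ) b + (dia ψ ξ : Bs C → ℂ) b := rfl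
  rw [e, dia_apply hM hφ, dia_apply hM' hψ, dia_apply (add_nonneg hM hM') h1, add_mul]

private theorem M5_dia_smul (z : ℂ) {φ : Bs C → ℂ} {M : ℝ} (hM : 0 ≤ M) (hφ : ∀ b, ‖φ b‖ ≤ M) :
    z • dia φ = dia fun b => z * φ b := by
  refine M5_ext fun ξ b => ?_
  have h1 : ∀ b, ‖z * φ b‖ ≤ ‖z‖ * M := fun b => by
    rw [norm_mul]
    exact mul_le_mul_of_nonneg_left (hφ b) (norm_nonneg _)
  have e : ((z • dia φ) ξ : Bs C → ℂ) b = z * (dia φ ξ : Bs C → ℂ) b := rfl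
  rw [e, dia_apply hM hφ, dia_apply (mul_nonneg (norm_nonneg _) hM) h1, mul_assoc]

private theorem M5_dia_one : (dia fun _ : Bs C => (1 : ℂ)) = 1 := by
  refine M5_ext fun ξ b => ?_
  have e : ((1 : BL (Bs C)) ξ : Bs C → ℂ) b = (ξ : Bs C → ℂ) b := rfl
  rw [e, dia_apply zero_le_one (fun _ => by simp), one_mul]

private theorem M5_dia_sch (𝔉 : Fibr Γ C I) {K : Finset I} {i : I} (hi : i ∈ K) :
    (dia fun b : Bs C => if i ∈ sch 𝔉 K b then (1 : ℂ) else 0) = 𝔉.Li i 1 (Fibr.ea none) := by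
  classical
  rw [𝔉.Li_ea_eq (𝔉.none_mem_Lt i)]
  congr 1
  funext b
  by_cases h : ∃ l ∈ 𝔉.Lt i, l ≠ none ∧ 𝔉.st i l b
  · rw [if_pos h, if_neg]
    intro h'
    unfold sch at h'
    exact (Finset.mem_filter.1 h').2 h
  · rw [if_neg h, if_pos]
    unfold sch
    exact Finset.mem_filter.2 ⟨hi, h⟩

private theorem M5_some_mem {𝔉 : Fibr Γ C I} (β : Bas 𝔉) (i : I) :
    some (β.cb i) ∈ 𝔉.Lt i := by
  rw [𝔉.mem_Lt]
  intro c hc
  rw [← Option.some.inj hc]
  exact (𝔉.mem_fib _ _).1 (β.mem i)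

private theorem M5_dia_ch {𝔉 : Fibr Γ C I} (β : Bas 𝔉) (i : I) :
    (dia fun b : Bs C => if i ∈ β.ch b then (1 : ℂ) else 0) =
      𝔉.Li i 1 (Fibr.ea (some (β.cb i))) := by
  classical
  rw [𝔉.Li_ea_eq (M5_some_mem β i)]
  congr 1
  funext b
  by_cases h : ∃ l ∈ 𝔉.Lt i, l ≠ some (β.cb i) ∧ 𝔉.st i l b
  · rw [if_pos h, if_neg fun h' => (β.mem_ch.1 h') h]
  · rw [if_neg h, if_pos (β.mem_ch.2 h)]

private theorem M5_ind {𝔉 : Fibr Γ C I} (β : Bas 𝔉) (i : I) [∀ G : Finset I, Decidable (i ∈ G)] :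
    (β.G fun G => if i ∈ G then 1 else 0) = 𝔉.Qi i := by
  rw [← β.G_ind i]
  congr 1
  funext G
  split_ifs <;> rfl

private theorem M5_sch_subset (𝔉 : Fibr Γ C I) (K : Finset I) (b : Bs C) : sch 𝔉 K b ⊆ K := by
  classical
  unfold sch
  exact Finset.filter_subset _ _

variable {𝔉 : Fibr Γ C I} (β : Bas 𝔉)

/-- The charged fibres: in the basis of the law for the fibres in `K`, in the basis of the reflections for the other fibres. -/
def Bas.chK (K : Finset I) (b : Bs C) : Finset I := sch 𝔉 K b ∪ (β.ch b \ K)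

/-- The diagonalising operator. -/
def Bas.DK (K : Finset I) : BL (Bs C) := 𝔉.WE K (𝔉.Vth β.ne (Real.pi / 2)) * β.OK K

private theorem M5_OK_congr (K : Finset I) {ξ η : L2 (Bs C)} {b : Bs C}
    (h : ∀ b', 𝔉.Cc b b' → (ξ : Bs C → ℂ) b' = (η : Bs C → ℂ) b') :
    (β.OK K ξ : Bs C → ℂ) b = (β.OK K η : Bs C → ℂ) b := by
  rw [β.OK_apply (E := K ∪ 𝔉.sites b.F) ξ Finset.subset_union_left Finset.subset_union_right,
    β.OK_apply (E := K ∪ 𝔉.sites b.F) η Finset.subset_union_left Finset.subset_union_right]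
  exact β.fixV.WE_apply_congr _ h

theorem Bas.norm_DK_le (K : Finset I) : ‖β.DK K‖ ≤ 1 := by
  unfold Bas.DK
  refine (norm_mul_le _ _).trans ?_
  exact mul_le_one₀ (𝔉.norm_WE_le _ _) (norm_nonneg _) (β.norm_OK_le K)

/-- PROOF: `OK_comm_WE`, `OK_mul_OK`, `WE_mul_self`. -/
theorem Bas.DK_mul_DK (K : Finset I) : β.DK K * β.DK K = 1 := by
  have hc := β.OK_comm_WE K (𝔉.Vth β.ne (Real.pi / 2))
  have h1 := β.OK_mul_OK K
  have h2 := 𝔉.WE_mul_self K (𝔉.Vth β.ne (Real.pi / 2))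
  unfold Bas.DK
  set W := 𝔉.WE K (𝔉.Vth β.ne (Real.pi / 2))
  calc W * β.OK K * (W * β.OK K) = W * (β.OK K * W) * β.OK K := by simp only [mul_assoc]
    _ = W * (W * β.OK K) * β.OK K := by rw [hc.eq]
    _ = (W * W) * (β.OK K * β.OK K) := by simp only [mul_assoc]
    _ = 1 := by rw [h1, h2, one_mul]

/-- PROOF: for `i ∈ K`: `Qi_eq_sch`, and `OK K` commutes with the multiplication by `[i ∈ sch K b] = [i ∈ chK K b]` (`OK_comm`). For `i ∉ K`: `WE K (Vth)` commutes with `Qi i`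
(`Li_comm`), and `OK K * dia [i ∈ ch b] * OK K = Qi i`: as `G_ind`, with `OK_apply` instead of `OO_apply`; `dia [i ∈ ch b]` commutes with `WE K (Vth)`. -/
theorem Bas.Qi_eq_DK (K : Finset I) (i : I) :
    𝔉.Qi i = β.DK K * (dia fun b => if i ∈ β.chK K b then 1 else 0) * β.DK K := by
  have hc := β.OK_comm_WE K (𝔉.Vth β.ne (Real.pi / 2))
  have h1 := β.OK_mul_OK K
  have h2 := 𝔉.WE_mul_self K (𝔉.Vth β.ne (Real.pi / 2))
  by_cases hi : i ∈ K
  · have e1 : (dia fun b : Bs C => if i ∈ β.chK K b then (1 : ℂ) else 0) =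
        dia fun b : Bs C => if i ∈ sch 𝔉 K b then (1 : ℂ) else 0 := by
      congr 1
      funext b
      have : i ∈ β.chK K b ↔ i ∈ sch 𝔉 K b := by
        unfold Bas.chK
        rw [Finset.mem_union, Finset.mem_sdiff]
        exact ⟨fun h => h.elim id fun h => absurd hi h.2, Or.inl⟩
      by_cases h : i ∈ sch 𝔉 K b
      · rw [if_pos h, if_pos (this.2 h)]
      · rw [if_neg h, if_neg fun h' => h (this.1 h')]
    have hD : Commute (dia fun b : Bs C => if i ∈ sch 𝔉 K b then (1 : ℂ) else 0) (β.OK K) := by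
      refine β.OK_comm (FinM.dia zero_le_one fun b => by split_ifs <;> simp) fun j hj => ?_
      rw [M5_dia_sch 𝔉 hi]
      exact 𝔉.Li_comm (fun hij => hj (by rw [← hij]; exact hi)) _ _ _ _
    rw [e1, Qi_eq_sch β hi]
    unfold Bas.DK
    set W := 𝔉.WE K (𝔉.Vth β.ne (Real.pi / 2))
    set D : BL (Bs C) := dia fun b : Bs C => if i ∈ sch 𝔉 K b then (1 : ℂ) else 0
    calc W * D * W = W * D * W * (β.OK K * β.OK K) := by rw [h1, mul_one]
      _ = W * D * (W * β.OK K) * β.OK K := by simp only [mul_assoc]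
      _ = W * D * (β.OK K * W) * β.OK K := by rw [hc.eq]
      _ = W * (D * β.OK K) * W * β.OK K := by simp only [mul_assoc]
      _ = W * (β.OK K * D) * W * β.OK K := by rw [hD.eq]
      _ = W * β.OK K * D * (W * β.OK K) := by simp only [mul_assoc]
  · have e1 : (dia fun b : Bs C => if i ∈ β.chK K b then (1 : ℂ) else 0) =
        𝔉.Li i 1 (Fibr.ea (some (β.cb i))) := by
      rw [← M5_dia_ch β i]
      congr 1
      funext b
      have : i ∈ β.chK K b ↔ i ∈ β.ch b := by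
        unfold Bas.chK
        rw [Finset.mem_union, Finset.mem_sdiff]
        exact ⟨fun h => h.elim (fun h => absurd (M5_sch_subset 𝔉 K b h) hi) fun h => h.1,
          fun h => Or.inr ⟨h, hi⟩⟩
      by_cases h : i ∈ β.ch b
      · rw [if_pos h, if_pos (this.2 h)]
      · rw [if_neg h, if_neg fun h' => h (this.1 h')]
    have hQ : β.O * 𝔉.Li i 1 (Fibr.ea (some (β.cb i))) * β.O = 𝔉.Qi i := by
      rw [← M5_dia_ch β i]
      exact M5_ind β i
    have hne : ∀ j ∈ K, j ≠ i := fun j hj hji => hi (by rw [← hji]; exact hj)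
    have hWQ : Commute (𝔉.WE K (𝔉.Vth β.ne (Real.pi / 2))) (𝔉.Qi i) :=
      𝔉.WE_comm fun j hj => 𝔉.Li_comm (hne j hj) _ _ _ _
    have hVD : Commute (𝔉.WE K (𝔉.VO β.mem)) (𝔉.Li i 1 (Fibr.ea (some (β.cb i)))) :=
      𝔉.WE_comm fun j hj => 𝔉.Li_comm (hne j hj) _ _ _ _
    have hWD : Commute (𝔉.WE K (𝔉.Vth β.ne (Real.pi / 2)))
        (𝔉.Li i 1 (Fibr.ea (some (β.cb i)))) :=
      𝔉.WE_comm fun j hj => 𝔉.Li_comm (hne j hj) _ _ _ _
    have hVV := 𝔉.WE_mul_self K (𝔉.VO β.mem)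
    have hOO : β.O * β.O = 1 := β.fixV.OO_mul_OO
    have hOK : β.OK K * 𝔉.Li i 1 (Fibr.ea (some (β.cb i))) * β.OK K = 𝔉.Qi i := by
      have hOV : β.O * 𝔉.WE K (𝔉.VO β.mem) = 𝔉.WE K (𝔉.VO β.mem) * β.O := by
        have h3 : β.O * 𝔉.WE K (𝔉.VO β.mem) * (β.O * 𝔉.WE K (𝔉.VO β.mem)) = 1 := h1
        set V := 𝔉.WE K (𝔉.VO β.mem)
        calc β.O * V = β.O * V * (β.O * (V * V) * β.O) := by rw [hVV, mul_one, hOO, mul_one]
          _ = (β.O * V * (β.O * V)) * V * β.O := by simp only [mul_assoc]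
          _ = V * β.O := by rw [h3, one_mul]
      unfold Bas.OK
      set V := 𝔉.WE K (𝔉.VO β.mem)
      set D := 𝔉.Li i 1 (Fibr.ea (some (β.cb i)))
      calc β.O * V * D * (β.O * V) = β.O * (V * D) * (β.O * V) := by simp only [mul_assoc]
        _ = β.O * (D * V) * (V * β.O) := by rw [hVD.eq, hOV]
        _ = β.O * D * (V * V) * β.O := by simp only [mul_assoc]
        _ = β.O * D * β.O := by rw [hVV, mul_one]
        _ = 𝔉.Qi i := hQ
    rw [e1]
    unfold Bas.DK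
    set W := 𝔉.WE K (𝔉.Vth β.ne (Real.pi / 2))
    set D := 𝔉.Li i 1 (Fibr.ea (some (β.cb i)))
    calc 𝔉.Qi i = W * W * 𝔉.Qi i := by rw [h2, one_mul]
      _ = W * (W * 𝔉.Qi i) := by simp only [mul_assoc]
      _ = W * (𝔉.Qi i * W) := by rw [hWQ.eq]
      _ = W * (β.OK K * D * β.OK K * W) := by rw [hOK]
      _ = W * β.OK K * D * (β.OK K * W) := by simp only [mul_assoc]
      _ = W * β.OK K * D * (W * β.OK K) := by rw [hc.eq]

private theorem M5_fin (K K' : Finset I) (f : Finset I → ℂ) :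
    (β.G fun G => f (G ∩ K')) =
      β.DK K * (dia fun b => f (β.chK K b ∩ K')) * β.DK K := by
  have hDD := β.DK_mul_DK K
  have key := fun_induction (p := fun f : Finset I → ℂ =>
    (∃ M : ℝ, 0 ≤ M ∧ ∀ G, ‖f G‖ ≤ M) ∧ β.G f =
      β.DK K * (dia fun b => f (β.chK K b)) * β.DK K) K' ?_ ?_ ?_ ?_ ?_ f
  · exact key.2
  · intro i hi
    refine ⟨⟨1, zero_le_one, fun G => ?_⟩, ?_⟩
    · dsimp only
      split_ifs <;> simp
    · rw [M5_ind β i]
      exact β.Qi_eq_DK K i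
  · refine ⟨⟨1, zero_le_one, fun G => by simp⟩, ?_⟩
    rw [β.G_one, M5_dia_one, mul_one, hDD]
  · rintro f f' ⟨⟨M, hM, hf⟩, h1⟩ ⟨⟨M', hM', hf'⟩, h2⟩
    refine ⟨⟨M + M', add_nonneg hM hM', fun G => (norm_add_le _ _).trans
      (add_le_add (hf G) (hf' G))⟩, ?_⟩
    rw [← β.G_add hM hf hM' hf', h1, h2, ← add_mul, ← mul_add,
      M5_dia_add hM (fun b => hf _) hM' (fun b => hf' _)]
  · rintro f f' ⟨⟨M, hM, hf⟩, h1⟩ ⟨⟨M', hM', hf'⟩, h2⟩
    refine ⟨⟨M * M', mul_nonneg hM hM', fun G => ?_⟩, ?_⟩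
    · rw [norm_mul]
      exact mul_le_mul (hf G) (hf' G) (norm_nonneg _) hM
    · rw [← β.G_mul_G hM hf hM' hf', h1, h2]
      calc _ = β.DK K * (dia fun b => f (β.chK K b)) * (β.DK K * β.DK K) *
            (dia fun b => f' (β.chK K b)) * β.DK K := by simp only [mul_assoc]
        _ = β.DK K * ((dia fun b => f (β.chK K b)) * (dia fun b => f' (β.chK K b))) *
            β.DK K := by rw [hDD, mul_one]; simp only [mul_assoc]
        _ = _ := by rw [M5_dia_mul hM (fun b => hf _) hM' (fun b => hf' _)]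
  · rintro z f ⟨⟨M, hM, hf⟩, h1⟩
    refine ⟨⟨‖z‖ * M, mul_nonneg (norm_nonneg _) hM, fun G => ?_⟩, ?_⟩
    · rw [norm_mul]
      exact mul_le_mul_of_nonneg_left (hf G) (norm_nonneg _)
    · rw [← β.G_smul z hM hf, h1, ← smul_mul_assoc, ← mul_smul_comm,
        M5_dia_smul z hM (fun b => hf _)]

/-- PROOF: at the label `b`: the row `b` of both sides involves only the values of `f` on the subsets of a finite set `K'`, which contains `K` and `sites b.F`: the labels which occur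
agree with `b` up to letters at the fibres in `K ∪ sites b.F` (`WE_apply_congr`, `OO_apply_congr`), so their `ch`, `chK K` are subsets of `K'`. So one may
replace `f` by `G ↦ f (G ∩ K')`, and `fun_induction` applies (`Qi_eq_DK`, `G_ind`, `G_one`, `DK_mul_DK`, `G_add`, `G_mul_G`, `G_smul`). -/
theorem Bas.G_eq_DK (K : Finset I) {f : Finset I → ℂ} {M : ℝ} (hM : 0 ≤ M)
    (hf : ∀ G, ‖f G‖ ≤ M) : β.G f = β.DK K * (dia fun b => f (β.chK K b)) * β.DK K := by
  classical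
  refine M5_ext fun ξ b => ?_
  set K' : Finset I := K ∪ 𝔉.sites b.F with hK'
  have h1 : (β.G f ξ : Bs C → ℂ) b = (β.G (fun G => f (G ∩ K')) ξ : Bs C → ℂ) b := by
    refine β.G_row hM hf (fun G => hf _) (fun G hG => ?_) ξ
    rw [Finset.inter_eq_left.2 (hG.trans Finset.subset_union_right)]
  have h2 : ∀ η η' : L2 (Bs C), (∀ b' : Bs C, β.chK K b' ⊆ K' → (η : Bs C → ℂ) b' =
      (η' : Bs C → ℂ) b') → (β.DK K η : Bs C → ℂ) b = (β.DK K η' : Bs C → ℂ) b := by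
    intro η η' h
    change (𝔉.WE K (𝔉.Vth β.ne (Real.pi / 2)) (β.OK K η) : Bs C → ℂ) b =
      (𝔉.WE K (𝔉.Vth β.ne (Real.pi / 2)) (β.OK K η') : Bs C → ℂ) b
    refine 𝔉.WE_apply_congr _ fun b1 hb1S hb1F => ?_
    refine M5_OK_congr β K fun b2 hb2 => ?_
    refine h b2 fun i hi => ?_
    by_cases hiK : i ∈ K
    · exact Finset.mem_union_left _ hiK
    · refine Finset.mem_union_right _ ?_
      have h3 : i ∈ β.ch b2 := by
        unfold Bas.chK at hi
        rw [Finset.mem_union, Finset.mem_sdiff] at hi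
        exact hi.elim (fun h => absurd (M5_sch_subset 𝔉 K b2 h) hiK) fun h => h.1
      have h4 : i ∈ 𝔉.sites b2.F := by
        unfold Bas.ch at h3
        exact (Finset.mem_filter.1 h3).1
      rw [hb2.sites] at h4
      rw [𝔉.mem_sites] at h4 ⊢
      obtain ⟨c, hc⟩ := h4
      rw [Finset.mem_inter] at hc
      refine ⟨c, Finset.mem_inter.2 ⟨(hb1F c ?_).1 hc.1, hc.2⟩⟩
      rw [(𝔉.mem_fib i c).1 hc.2]
      exact hiK
  rw [h1, M5_fin β K K' f]
  change (β.DK K (dia (fun b => f (β.chK K b ∩ K')) (β.DK K ξ)) : Bs C → ℂ) b =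
    (β.DK K (dia (fun b => f (β.chK K b)) (β.DK K ξ)) : Bs C → ℂ) b
  refine h2 _ _ fun b' hb' => ?_
  rw [dia_apply hM (fun b => hf _), dia_apply hM (fun b => hf _), Finset.inter_eq_left.2 hb']

/-- PROOF: `Xo K = WE K * dF φ * WE K`, and `dF φ` commutes with `OK K` (`OK_comm_dF`), which commutes with `WE K` and has square `1`. -/
theorem Bas.Xo_eq_DK {K : Finset I} {φ : Finset C → ℂ} (h : 𝔉.Cyl K φ) :
    𝔉.Xo K (𝔉.Vth β.ne (Real.pi / 2)) φ = β.DK K * (dia fun b => φ b.F) * β.DK K := by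
  have hc := β.OK_comm_WE K (𝔉.Vth β.ne (Real.pi / 2))
  have h1 := β.OK_mul_OK K
  have hD := β.OK_comm_dF h
  have e : (dia fun b : Bs C => φ b.F) = Fibr.dF φ := rfl
  rw [e]
  unfold Bas.DK Fibr.Xo
  set W := 𝔉.WE K (𝔉.Vth β.ne (Real.pi / 2))
  set D : BL (Bs C) := Fibr.dF φ
  calc W * D * W = W * D * W * (β.OK K * β.OK K) := by rw [h1, mul_one]
    _ = W * D * (W * β.OK K) * β.OK K := by simp only [mul_assoc]
    _ = W * D * (β.OK K * W) * β.OK K := by rw [hc.eq]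
    _ = W * (D * β.OK K) * W * β.OK K := by simp only [mul_assoc]
    _ = W * (β.OK K * D) * W * β.OK K := by rw [hD.eq]
    _ = W * β.OK K * D * (W * β.OK K) := by simp only [mul_assoc]

/-- PROOF: `Xo_eq_DK`, `G_eq_DK`, `DK_mul_DK`, multiplicativity of `dia` on bounded functions. -/
theorem Bas.Xo_mul_G {K : Finset I} {φ : Finset C → ℂ} (h : 𝔉.Cyl K φ) {f : Finset I → ℂ} {M : ℝ}
    (hM : 0 ≤ M) (hf : ∀ G, ‖f G‖ ≤ M) : 𝔉.Xo K (𝔉.Vth β.ne (Real.pi / 2)) φ * β.G f =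
      β.DK K * (dia fun b => φ b.F * f (β.chK K b)) * β.DK K := by
  rw [β.Xo_eq_DK h, β.G_eq_DK K hM hf,
    ← M5_dia_mul zero_le_one (fun b : Bs C => h.bdd b.F) hM (fun b => hf (β.chK K b))]
  have hDD := β.DK_mul_DK K
  set D : BL (Bs C) := dia fun b : Bs C => φ b.F
  set D' : BL (Bs C) := dia fun b : Bs C => f (β.chK K b)
  calc β.DK K * D * β.DK K * (β.DK K * D' * β.DK K) =
        β.DK K * D * (β.DK K * β.DK K) * D' * β.DK K := by simp only [mul_assoc]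
    _ = β.DK K * (D * D') * β.DK K := by rw [hDD, mul_one]; simp only [mul_assoc]

/-- PROOF: `Xo_mul_G`. -/
theorem Bas.Xo_mul_G_congr {K : Finset I} {φ : Finset C → ℂ} (h : 𝔉.Cyl K φ)
    {f f' : Finset I → ℂ} {M : ℝ} (hM : 0 ≤ M) (hf : ∀ G, ‖f G‖ ≤ M) (hf' : ∀ G, ‖f' G‖ ≤ M)
    (he : ∀ b : Bs C, φ b.F ≠ 0 → f (β.chK K b) = f' (β.chK K b)) :
    𝔉.Xo K (𝔉.Vth β.ne (Real.pi / 2)) φ * β.G f = 𝔉.Xo K (𝔉.Vth β.ne (Real.pi / 2)) φ * β.G f' := by
  rw [β.Xo_mul_G h hM hf, β.Xo_mul_G h hM hf']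
  congr 2
  congr 1
  funext b
  by_cases hb : φ b.F = 0
  · rw [hb, zero_mul, zero_mul]
  · rw [he b hb]

/-- PROOF: rows: `ker_G`, `finite_Cc`; columns: `Cc.symm`. -/
theorem Bas.finM_G {f : Finset I → ℂ} {M : ℝ} (hM : 0 ≤ M) (hf : ∀ G, ‖f G‖ ≤ M) :
    FinM (β.G f) := by
  constructor
  · intro b
    refine ⟨(𝔉.finite_Cc b).toFinset, fun b' hb' => ?_⟩
    by_contra hne
    exact hb' ((Set.Finite.mem_toFinset _).2 (β.ker_G hM hf hne))
  · intro b'
    refine ⟨(𝔉.finite_Cc b').toFinset, fun b hb => ?_⟩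
    by_contra hne
    exact hb ((Set.Finite.mem_toFinset _).2 (β.ker_G hM hf hne).symm)

end Pool.Agent.Lib.MP_aa9b81_an.Rc
end
end
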