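import Pool.Agent.Lib.MP_aa9b81_an.Mg.G011
import Pool.Agent.Lib.MP_aa9b81_an.Mg.G016
import Pool.Agent.Lib.MP_aa9b81_an.Mg.G024
import Pool.Agent.Lib.MP_aa9b81_an.Mg.G018
import Pool.Agent.Lib.MP_aa9b81_an.Mg.G031
import Pool.Agent.Lib.MP_aa9b81_an.Rc.P7d
import Pool.Agent.Lib.MP_aa9b81_an.Mg.G017
import Pool.Agent.Lib.MP_aa9b81_an.Mg.G021
import Pool.Agent.Lib.MP_aa9b81_an.CutM.Q
import Pool.Agent.Lib.MP_aa9b81_an.Mg.G033
import Pool.Agent.Lib.MP_aa9b81_an.Mg.G032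

section

/-!
# Rotated sites, part M2: cylinder functions and the selection
-/

open scoped ENNReal Topology ZeroAtInfty
open Function Filter Set

noncomputable section

set_option linter.unusedSectionVars false

namespace Pool.Agent.Lib.MP_aa9b81_an.Rc

open Cut Hs

variable {Γ C I : Type} [Group Γ] [MulAction Γ C] [MulAction Γ I] [DecidableEq C]

/-- All copies of the elements of `E`. -/
def cpE (n : ℕ) (E : Finset I) : Finset (Cpy n I) := E ×ˢ (Finset.univ : Finset (Fin (n + 1)))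

theorem mem_cpE {n : ℕ} {E : Finset I} {x : Cpy n I} : x ∈ cpE n E ↔ x.el ∈ E := by
  constructor
  · intro h
    exact (Finset.mem_product.1 h).1
  · intro h
    exact Finset.mem_product.2 ⟨h, Finset.mem_univ _⟩

variable (𝔉 : Fibr Γ C I) (n : ℕ)

theorem isProperMap_psiC : IsProperMap (psiC 𝔉 n : Pow (Cpy n C) → Pow C) :=
  (continuous_psiC 𝔉 n).isProperMap

/-- The function `φ ∘ psiC`. -/
def cpP (φ : C₀(Pow C, ℂ)) : C₀(Pow (Cpy n C), ℂ) := pullC (psiC 𝔉 n) (isProperMap_psiC 𝔉 n) φ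

@[simp] theorem cpP_apply (φ : C₀(Pow C, ℂ)) (S : Pow (Cpy n C)) :
    cpP 𝔉 n φ S = φ (psiC 𝔉 n S) := rfl

variable {𝔉 n}

/-- PROOF: `psiC_congr`. -/
theorem CylP.copies {E : Finset I} {φ : C₀(Pow C, ℂ)} (h : CylP 𝔉 E φ) :
    CylP (𝔉.copies n) (cpE n E) (cpP 𝔉 n φ) := by
  refine ⟨fun S => ?_, fun S S' hS => ?_⟩
  · rw [cpP_apply]
    exact h.bdd _
  · rw [cpP_apply, cpP_apply]
    refine h.loc _ _ fun c hc => ?_
    refine psiC_congr 𝔉 n (i := 𝔉.p c) (fun x hx => ?_) rfl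
    apply hS
    rw [mem_cpE]
    change 𝔉.p x.el ∈ E
    rw [hx]
    exact hc

theorem cpP_mul (φ φ' : C₀(Pow C, ℂ)) : cpP 𝔉 n (φ * φ') = cpP 𝔉 n φ * cpP 𝔉 n φ' := by
  rfl

/-- PROOF: `psiC_smul`. -/
theorem cpP_shift (g : Γ) (φ : C₀(Pow C, ℂ)) : cpP 𝔉 n (shift g φ) = shift g (cpP 𝔉 n φ) := by
  refine ZeroAtInftyContinuousMap.ext fun S => ?_
  rw [cpP_apply, shift_apply, shift_apply, cpP_apply, psiC_smul]

/-- A cylinder function which vanishes on `Om` is supported where some fibre of `E` is bad. PROOF: otherwise `S` is good at all `i ∈ E`; let `S'` agree with `S`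
on the fibres of `E` and be the singleton of a point of the fibre on all other fibres (`hn`): `S' ∈ Om`, so `φ S = φ S' = 0`. -/
theorem CylP.exists_bad {E : Finset I} {φ : C₀(Pow C, ℂ)} (h : CylP 𝔉 E φ)
    (hn : ∀ i, (𝔉.fib i).Nonempty) (h0 : ∀ S ∈ (Om 𝔉).carrier, φ S = 0) {S : Pow C}
    (hS : φ S ≠ 0) : ∃ i ∈ E, ¬ One 𝔉 i S := by
  classical
  by_contra hcon
  push Not at hcon
  choose c₀ hc₀ using hn
  have hp : ∀ i, 𝔉.p (c₀ i) = i := fun i => (𝔉.mem_fib _ _).1 (hc₀ i)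
  let S' : Pow C := fun c => if 𝔉.p c ∈ E then S c else decide (c = c₀ (𝔉.p c))
  have hS' : ∀ c, S' c = if 𝔉.p c ∈ E then S c else decide (c = c₀ (𝔉.p c)) := fun _ => rfl
  have hOm : S' ∈ (Om 𝔉).carrier := by
    intro i
    by_cases hi : i ∈ E
    · refine (One_congr 𝔉 fun c hc => ?_).1 (hcon i hi)
      rw [hS', if_pos (by rw [hc]; exact hi)]
    · refine ⟨c₀ i, ⟨hp i, ?_⟩, ?_⟩
      · rw [hS', hp, if_neg hi]
        simp
      · rintro y ⟨h1, h2⟩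
        rw [hS', h1, if_neg hi] at h2
        simpa using h2
  refine hS ?_
  rw [← h0 S' hOm]
  refine h.loc _ _ fun c hc => ?_
  rw [hS', if_pos hc]

/-- PROOF: `W = (Om 𝔉).compl.Pt` is open in the compact space `Pow C` (`isClosed_Om`), `φ` is continuous and vanishes off `W`: at infinity of `W`, the set
`{‖φ‖ ≥ ε}` is closed in `Pow C`, so compact, and contained in `W`. -/
theorem exists_resW {φ : C₀(Pow C, ℂ)} (h0 : ∀ S ∈ (Om 𝔉).carrier, φ S = 0) :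
    ∃ f : C₀((Om 𝔉).compl.Pt, ℂ), ∀ x, f x = φ ((Om 𝔉).compl.val x) := by
  refine ⟨⟨⟨fun x => φ ((Om 𝔉).compl.val x),
    φ.continuous.comp (Om 𝔉).compl.continuous_val⟩, ?_⟩, fun x => rfl⟩
  change Tendsto (fun x => φ ((Om 𝔉).compl.val x)) (cocompact _) (𝓝 0)
  rw [tendsto_zero_iff_norm_tendsto_zero, Metric.tendsto_nhds]
  intro ε hε
  have hK : IsCompact {S : Pow C | ε ≤ ‖φ S‖} :=
    (isClosed_le continuous_const φ.continuous.norm).isCompact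
  have hK' : IsCompact ((Om 𝔉).compl.val ⁻¹' {S : Pow C | ε ≤ ‖φ S‖}) := by
    refine ((Om 𝔉).compl.isEmbedding_val.isInducing.isCompact_preimage_iff ?_).2 hK
    intro S hS
    have h1 : S ∈ (Om 𝔉).compl.carrier := by
      intro h2
      have h3 : ε ≤ ‖φ S‖ := hS
      rw [h0 S h2, norm_zero] at h3
      linarith
    exact ⟨(Om 𝔉).compl.pt S h1, rfl⟩
  refine mem_cocompact.2 ⟨_, hK', fun x hx => ?_⟩
  have h4 : ¬ ε ≤ ‖φ ((Om 𝔉).compl.val x)‖ := hx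
  change dist ‖φ ((Om 𝔉).compl.val x)‖ 0 < ε
  rw [Real.dist_eq, sub_zero, abs_norm]
  exact not_le.1 h4

/-- The restriction to the complement of `Om`. -/
def resW {φ : C₀(Pow C, ℂ)} (h0 : ∀ S ∈ (Om 𝔉).carrier, φ S = 0) : C₀((Om 𝔉).compl.Pt, ℂ) :=
  (exists_resW h0).choose

@[simp] theorem resW_apply {φ : C₀(Pow C, ℂ)} (h0 : ∀ S ∈ (Om 𝔉).carrier, φ S = 0)
    (x : (Om 𝔉).compl.Pt) : resW h0 x = φ ((Om 𝔉).compl.val x) := (exists_resW h0).choose_spec x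

/-- The bad sets at a fibre are open and closed. -/
theorem M2_isOpen_bad (i : I) : IsOpen {S : Pow C | ¬ One 𝔉 i S} := by
  rw [isOpen_iff_mem_nhds]
  intro S₀ hS₀
  have h1 : ∀ᶠ S in nhds S₀, ∀ c ∈ 𝔉.fib i, S c = S₀ c := by
    rw [Filter.eventually_all_finset]
    intro c _
    exact (Pow.isOpen_eval c (S₀ c)).mem_nhds rfl
  filter_upwards [h1] with S hS
  intro h
  exact hS₀ ((One_congr 𝔉 fun c hc => hS c ((𝔉.mem_fib _ _).2 hc)).1 h)

theorem M2_isOpen_good (i : I) : IsOpen {S : Pow C | One 𝔉 i S} := by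
  rw [isOpen_iff_mem_nhds]
  intro S₀ hS₀
  have h1 : ∀ᶠ S in nhds S₀, ∀ c ∈ 𝔉.fib i, S c = S₀ c := by
    rw [Filter.eventually_all_finset]
    intro c _
    exact (Pow.isOpen_eval c (S₀ c)).mem_nhds rfl
  filter_upwards [h1] with S hS
  exact (One_congr 𝔉 fun c hc => hS c ((𝔉.mem_fib _ _).2 hc)).2 hS₀

/-- Density. PROOF: approximate `f` by a function with compact support `K` (`{‖f‖ ≥ ε/2}`, as in `CB2_dense`), extend it by `0` to `Pow C` (`exists_extC`). `K` is covered by the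
open sets `{S | ¬ One 𝔉 i S}`, so by those with `i` in a finite set `E₀`. Approximate the extension by a cylinder function `φ` (`exists_cylP`) and multiply `φ` by
the indicator function of the clopen set `{S | ∃ i ∈ E₀, ¬ One 𝔉 i S}` (again a cylinder function, for `E ∪ E₀`; it vanishes on `Om`, and is `1` on
`K`). -/
theorem exists_cylW (hn : ∀ i, (𝔉.fib i).Nonempty) (f : C₀((Om 𝔉).compl.Pt, ℂ)) {ε : ℝ}
    (hε : 0 < ε) : ∃ (z : ℂ) (E : Finset I) (φ : C₀(Pow C, ℂ)) (_ : CylP 𝔉 E φ)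
      (h0 : ∀ S ∈ (Om 𝔉).carrier, φ S = 0), ‖f - z • resW h0‖ ≤ ε := by
  classical
  obtain ⟨f', hf', hff'⟩ := CB2_dense f (half_pos hε)
  have hoe : Topology.IsOpenEmbedding (Om 𝔉).compl.val := (Om 𝔉).isOpenEmbedding_compl (isClosed_Om 𝔉)
  obtain ⟨F, hF1, hF2⟩ := exists_extC hoe f'
  have hK : IsCompact ((Om 𝔉).compl.val '' tsupport f') := hf'.image (Om 𝔉).compl.continuous_val
  obtain ⟨E₀, hE₀⟩ := hK.elim_finite_subcover (fun i : I => {S : Pow C | ¬ One 𝔉 i S})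
    M2_isOpen_bad (by
      rintro _ ⟨x, _, rfl⟩
      have h1 : ¬ ∀ i, One 𝔉 i ((Om 𝔉).compl.val x) := (Om 𝔉).compl.val_mem x
      push Not at h1
      obtain ⟨i, hi⟩ := h1
      exact Set.mem_iUnion.2 ⟨i, hi⟩)
  obtain ⟨z, E, φ, hφ, hFφ⟩ := exists_cylP 𝔉 F (half_pos hε)
  -- the indicator function
  let U : Set (Pow C) := {S | ∃ i ∈ E₀, ¬ One 𝔉 i S}
  have hUo : IsOpen U := by
    have e : U = ⋃ i ∈ E₀, {S : Pow C | ¬ One 𝔉 i S} := by
      ext S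
      simp [U]
    rw [e]
    exact isOpen_biUnion fun i _ => M2_isOpen_bad i
  have hUc : IsOpen Uᶜ := by
    have e : Uᶜ = ⋂ i ∈ E₀, {S : Pow C | One 𝔉 i S} := by
      ext S
      simp [U]
    rw [e]
    exact isOpen_biInter_finset fun i _ => M2_isOpen_good i
  have hcont : Continuous fun S : Pow C => if S ∈ U then φ S else 0 := by
    rw [continuous_iff_continuousAt]
    intro S₀
    by_cases hS₀ : S₀ ∈ U
    · refine φ.continuous.continuousAt.congr ?_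
      filter_upwards [hUo.mem_nhds hS₀] with S hS
      rw [if_pos hS]
      rfl
    · have h1 : ContinuousAt (fun _ : Pow C => (0 : ℂ)) S₀ := continuousAt_const
      refine h1.congr ?_
      filter_upwards [hUc.mem_nhds hS₀] with S hS
      rw [if_neg hS]
  let φ' : C₀(Pow C, ℂ) :=
    { toFun := fun S => if S ∈ U then φ S else 0
      continuous_toFun := hcont
      zero_at_infty' := by
        rw [Filter.cocompact_eq_bot]
        exact Filter.tendsto_bot }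
  have hφ' : ∀ S, φ' S = if S ∈ U then φ S else 0 := fun _ => rfl
  have hcyl : CylP 𝔉 (E ∪ E₀) φ' := by
    refine ⟨fun S => ?_, fun S S' hS => ?_⟩
    · rw [hφ']
      split_ifs
      · exact hφ.bdd S
      · rw [norm_zero]
        exact zero_le_one
    · have h1 : φ S = φ S' := hφ.loc _ _ fun c hc => hS c (Finset.mem_union_left _ hc)
      have h2 : S ∈ U ↔ S' ∈ U := by
        have h3 : ∀ i ∈ E₀, (One 𝔉 i S ↔ One 𝔉 i S') := fun i hi =>
          One_congr 𝔉 fun c hc => hS c (Finset.mem_union_right _ (by rw [hc]; exact hi))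
        constructor
        · rintro ⟨i, hi, h4⟩
          exact ⟨i, hi, fun h5 => h4 ((h3 i hi).2 h5)⟩
        · rintro ⟨i, hi, h4⟩
          exact ⟨i, hi, fun h5 => h4 ((h3 i hi).1 h5)⟩
      rw [hφ', hφ', h1]
      by_cases h6 : S ∈ U
      · rw [if_pos h6, if_pos (h2.1 h6)]
      · rw [if_neg h6, if_neg (fun h7 => h6 (h2.2 h7))]
  have h0 : ∀ S ∈ (Om 𝔉).carrier, φ' S = 0 := by
    intro S hS
    rw [hφ', if_neg]
    rintro ⟨i, _, hi⟩
    exact hi (hS i)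
  refine ⟨z, E ∪ E₀, φ', hcyl, h0, ?_⟩
  have h1 : ‖f' - z • resW h0‖ ≤ ε / 2 := by
    rw [← ZeroAtInftyContinuousMap.norm_toBCF_eq_norm,
      BoundedContinuousFunction.norm_le (half_pos hε).le]
    intro x
    change ‖f' x - z * resW h0 x‖ ≤ ε / 2
    rw [resW_apply, hφ']
    by_cases hx : (Om 𝔉).compl.val x ∈ U
    · rw [if_pos hx, ← hF1 x]
      have h2 : ‖(F - z • φ) ((Om 𝔉).compl.val x)‖ ≤ ‖F - z • φ‖ :=
        (F - z • φ).toBCF.norm_coe_le_norm _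
      exact h2.trans hFφ
    · rw [if_neg hx, mul_zero, sub_zero]
      have h3 : f' x = 0 := by
        by_contra h4
        have h5 : x ∈ tsupport f' := subset_tsupport _ h4
        obtain ⟨i, hi, h6⟩ := Set.mem_iUnion₂.1 (hE₀ (Set.mem_image_of_mem _ h5))
        exact hx ⟨i, hi, h6⟩
      rw [h3, norm_zero]
      exact (half_pos hε).le
  calc ‖f - z • resW h0‖ = ‖(f - f') + (f' - z • resW h0)‖ := by rw [sub_add_sub_cancel]
    _ ≤ ‖f - f'‖ + ‖f' - z • resW h0‖ := norm_add_le _ _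
    _ ≤ ε / 2 + ε / 2 := add_le_add hff'.le h1
    _ = ε := add_halves ε

end Pool.Agent.Lib.MP_aa9b81_an.Rc
end
end

section

/-!
# Rotated sites, part M6: many charges
-/

open scoped ENNReal Topology ZeroAtInfty
open Function Filter Set

noncomputable section

set_option linter.unusedSectionVars false

namespace Pool.Agent.Lib.MP_aa9b81_an.Rc

open Cut Hs

variable {Γ C I : Type} [Group Γ] [MulAction Γ C] [MulAction Γ I] [DecidableEq C]
  [DecidableEq I]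

/-- The base points of the copies. -/
def Bas.copies {𝔉 : Fibr Γ C I} (β : Bas 𝔉) (n : ℕ) : Bas (𝔉.copies n) where
  cb i := Cpy.mk (β.cb i.el) i.ix
  mem i := by
    rw [Fibr.mem_fib]
    exact Cpy.ext ((𝔉.mem_fib _ _).1 (β.mem i.el)) rfl

variable {𝔉 : Fibr Γ C I} (β : Bas 𝔉) (n : ℕ)

/-- PROOF: if `b` has at the fibre `(i, m)` the letter `some c`, then `b.F` meets this fibre exactly in `c`, so the copy `m` of `indP b.F` is good at `i`. -/
theorem mem_sch_of_bad {K : Finset (Cpy n I)} {b : Bs (Cpy n C)} {x : Cpy n I} (hx : x ∈ K)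
    (h : ¬ One 𝔉 x.el (lay x.ix (indP b.F))) : x ∈ sch (𝔉.copies n) K b := by
  classical
  unfold sch
  rw [Finset.mem_filter]
  refine ⟨hx, ?_⟩
  rintro ⟨l, hl, hne, hst⟩
  apply h
  cases l with
  | none => exact absurd rfl hne
  | some c =>
    have hF : b.F ∩ (𝔉.copies n).fib x = {c} := by
      have h1 := hst.2
      simpa using h1
    have hc : c ∈ b.F ∩ (𝔉.copies n).fib x := by
      rw [hF]
      exact Finset.mem_singleton_self c
    have hcF : c ∈ b.F := (Finset.mem_inter.1 hc).1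
    have hcx : (𝔉.copies n).p c = x := ((𝔉.copies n).mem_fib _ _).1 (Finset.mem_inter.1 hc).2
    have h1 : 𝔉.p c.el = x.el := congrArg Cpy.el hcx
    have h2 : c.ix = x.ix := congrArg Cpy.ix hcx
    refine ⟨c.el, ⟨h1, ?_⟩, ?_⟩
    · have h3 : Cpy.mk c.el x.ix = c := by
        rw [← h2]
        rfl
      show decide (Cpy.mk c.el x.ix ∈ b.F) = true
      rw [h3]
      exact decide_eq_true hcF
    · rintro c' ⟨h3, h4⟩
      have h5 : Cpy.mk c' x.ix ∈ b.F := of_decide_eq_true h4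
      have h6 : Cpy.mk c' x.ix ∈ b.F ∩ (𝔉.copies n).fib x :=
        Finset.mem_inter.2 ⟨h5, ((𝔉.copies n).mem_fib _ _).2 (Cpy.ext h3 rfl)⟩
      rw [hF, Finset.mem_singleton] at h6
      exact congrArg Cpy.el h6

/-- PROOF: `One_psiC`: all the copies of `i` are bad, so the `(i, m)`, `m : Fin (n + 1)`, are all in `sch` (`mem_sch_of_bad`, `mem_cpE`): `Finset.card_le_card` for the image of
`m ↦ (i, m)`. -/
theorem card_chK {E : Finset I} {b : Bs (Cpy n C)} {i : I} (hi : i ∈ E)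
    (h : ¬ One 𝔉 i (psiC 𝔉 n (indP b.F))) : n + 1 ≤ ((β.copies n).chK (cpE n E) b).card := by
  classical
  have h1 : ∀ m : Fin (n + 1), ¬ One 𝔉 i (lay m (indP b.F)) := fun m hm =>
    h ((One_psiC 𝔉 n i (indP b.F)).2 ⟨m, hm⟩)
  have h2 : (Finset.univ : Finset (Fin (n + 1))).image (fun m => (Cpy.mk i m : Cpy n I)) ⊆
      (β.copies n).chK (cpE n E) b := by
    intro x hx
    obtain ⟨m, -, rfl⟩ := Finset.mem_image.1 hx
    unfold Bas.chK
    refine Finset.mem_union_left _ (mem_sch_of_bad n (mem_cpE.2 hi) (h1 m))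
  have h3 : ((Finset.univ : Finset (Fin (n + 1))).image
      (fun m => (Cpy.mk i m : Cpy n I))).card = n + 1 := by
    have h4 : Injective fun m : Fin (n + 1) => (Cpy.mk i m : Cpy n I) := by
      intro m m' hm
      exact congrArg (Cpy.ix : Cpy n I → Fin (n + 1)) hm
    rw [Finset.card_image_of_injective _ h4, Finset.card_univ, Fintype.card_fin]
  rw [← h3]
  exact Finset.card_le_card h2

variable {Ev : Type} [AddCommGroup Ev] [Module ℝ Ev] [TopologicalSpace Ev]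
  [DistribMulAction Γ Ev] [SMulCommClass Γ ℝ Ev] (Q : ConvexSpace Γ Ev)

/-- The operator of the pair `(φ, g)`. -/
def X4 (β : Bas 𝔉) (n : ℕ) (Q : ConvexSpace Γ Ev) (q : I → Q.Pt) (E : Finset I) (φ : C₀(Pow C, ℂ))
    (g : Q.Pt → ℂ) : BL (Bs (Cpy n C)) :=
  (𝔉.copies n).Xo (cpE n E) ((𝔉.copies n).Vth (β.copies n).ne (Real.pi / 2)) (phF (cpP 𝔉 n φ)) *
    (β.copies n).G (fG Q (fun x => q x.el) n g)

variable {Q} {q : I → Q.Pt}

/-- PROOF: `Xo_mul_G` with `CylP.copies`, `CylP.cyl`, `norm_fG_le`; the function `phF (cpP φ) (b.F)` is `φ (psiC (indP b.F))`. -/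
theorem X4_eq {E : Finset I} {φ : C₀(Pow C, ℂ)} (h : CylP 𝔉 E φ) {g : Q.Pt → ℂ} {L : ℝ}
    (hg : RLip Q g L) : X4 β n Q q E φ g = (β.copies n).DK (cpE n E) *
      (dia fun b => φ (psiC 𝔉 n (indP b.F)) *
        fG Q (fun x => q x.el) n g ((β.copies n).chK (cpE n E) b)) * (β.copies n).DK (cpE n E) :=
  (β.copies n).Xo_mul_G (CylP.copies h).cyl zero_le_one
    (norm_fG_le (fun x : Cpy n I => q x.el) n hg)

/-- PROOF: `Cyl.Xo_mono` (`cpE n E ⊆ cpE n E'`), `CylP.copies`. -/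
theorem X4_mono {E E' : Finset I} (hE : E ⊆ E') {φ : C₀(Pow C, ℂ)} (h : CylP 𝔉 E φ)
    (g : Q.Pt → ℂ) : X4 β n Q q E' φ g = X4 β n Q q E φ g := by
  have h1 : cpE n E ⊆ cpE n E' := fun x hx => mem_cpE.2 (hE (mem_cpE.1 hx))
  unfold X4
  rw [Fibr.Cyl.Xo_mono (CylP.copies h).cyl h1]

/-- PROOF: `G_comm_Xo`, `Cyl.Xo_mul`, `G_mul_G`: the product is `Xo (φ φ') * G (fG g * fG g')`, and `Xo_mul_G_congr`: if `φ φ' ≠ 0` at `psiC (indP b.F)`, then some `i ∈ E` is bad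
(`CylP.exists_bad`), so `|chK| ≥ n + 1` (`card_chK`) and `fG g * fG g' = fG (g g')` there (`fG_of_le`). -/
theorem X4_mul {E : Finset I} {φ φ' : C₀(Pow C, ℂ)} (h : CylP 𝔉 E φ) (h' : CylP 𝔉 E φ')
    (h0 : ∀ S ∈ (Om 𝔉).carrier, φ S = 0) {g g' : Q.Pt → ℂ} {L L' : ℝ} (hg : RLip Q g L)
    (hg' : RLip Q g' L') :
    X4 β n Q q E φ g * X4 β n Q q E φ' g' = X4 β n Q q E (φ * φ') fun x => g x * g' x := by
  have hc := (CylP.copies (n := n) h).cyl
  have hc' := (CylP.copies (n := n) h').cyl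
  have hb : ∀ G, ‖fG Q (fun x : Cpy n I => q x.el) n g G‖ ≤ 1 := norm_fG_le _ n hg
  have hb' : ∀ G, ‖fG Q (fun x : Cpy n I => q x.el) n g' G‖ ≤ 1 := norm_fG_le _ n hg'
  have hbb : ∀ G, ‖fG Q (fun x : Cpy n I => q x.el) n (fun x => g x * g' x) G‖ ≤ 1 :=
    norm_fG_le _ n (hg.mul hg')
  have hbb' : ∀ G, ‖fG Q (fun x : Cpy n I => q x.el) n g G *
      fG Q (fun x : Cpy n I => q x.el) n g' G‖ ≤ 1 := fun G => by
    rw [norm_mul]
    exact mul_le_one₀ (hb G) (norm_nonneg _) (hb' G)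
  have h1 := ((β.copies n).G_comm_Xo hc' zero_le_one hb).eq
  have h2 : (𝔉.copies n).Xo (cpE n E) ((𝔉.copies n).Vth (β.copies n).ne (Real.pi / 2))
      (phF (cpP 𝔉 n φ)) * (𝔉.copies n).Xo (cpE n E)
        ((𝔉.copies n).Vth (β.copies n).ne (Real.pi / 2)) (phF (cpP 𝔉 n φ')) =
      (𝔉.copies n).Xo (cpE n E) ((𝔉.copies n).Vth (β.copies n).ne (Real.pi / 2))
        (phF (cpP 𝔉 n (φ * φ'))) := by
    rw [hc.Xo_mul hc', cpP_mul, phF_mul]
  have h3 := (β.copies n).Xo_mul_G_congr (CylP.copies (n := n) (h.mul h')).cyl zero_le_one hbb'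
    hbb (fun b hb0 => by
      have h4 : (φ * φ') (psiC 𝔉 n (indP b.F)) ≠ 0 := hb0
      have h5 : φ (psiC 𝔉 n (indP b.F)) ≠ 0 := by
        intro h6
        apply h4
        rw [ZeroAtInftyContinuousMap.mul_apply, h6, zero_mul]
      obtain ⟨i, hi, hbad⟩ := h.exists_bad β.ne h0 h5
      have h6 := card_chK β n hi hbad
      have h7 : ((β.copies n).chK (cpE n E) b).Nonempty := by
        rw [← Finset.card_pos]
        omega
      rw [fG_of_le _ n h6 h7, fG_of_le _ n h6 h7, fG_of_le _ n h6 h7])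
  unfold X4
  rw [← h3, ← h2, ← (β.copies n).G_mul_G zero_le_one hb zero_le_one hb']
  rw [mul_assoc, ← mul_assoc ((β.copies n).G _), ← h1]
  simp only [mul_assoc]

/-- PROOF: `Xo_mul_G_congr` with `f' = 1`, `G_one`: `fG 1 = 1` where `|chK| ≥ n + 1`. -/
theorem X4_one {E : Finset I} {φ : C₀(Pow C, ℂ)} (h : CylP 𝔉 E φ)
    (h0 : ∀ S ∈ (Om 𝔉).carrier, φ S = 0) : X4 β n Q q E φ (fun _ => 1) =
      (𝔉.copies n).Xo (cpE n E) ((𝔉.copies n).Vth (β.copies n).ne (Real.pi / 2))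
        (phF (cpP 𝔉 n φ)) := by
  have h3 := (β.copies n).Xo_mul_G_congr (CylP.copies (n := n) h).cyl zero_le_one
    (norm_fG_le (fun x : Cpy n I => q x.el) n (RLip.one Q))
    (f' := fun _ => 1) (fun G => by simp) (fun b hb0 => by
      have h5 : φ (psiC 𝔉 n (indP b.F)) ≠ 0 := hb0
      obtain ⟨i, hi, hbad⟩ := h.exists_bad β.ne h0 h5
      have h6 := card_chK β n hi hbad
      have h7 : ((β.copies n).chK (cpE n E) b).Nonempty := by
        rw [← Finset.card_pos]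
        omega
      rw [fG_of_le _ n h6 h7])
  unfold X4
  rw [h3, (β.copies n).G_one, mul_one]

/-- PROOF: `Cyl.W_mul_Xo` (`V' = V`, `Vth_equi`), `Bas.W_mul_G`, `fG_gF` (for `x ↦ q x.el`, equivariant), `cpP_shift`, `phF_shift`; `gF g (cpE n E) = cpE n (gF g E)`. -/
theorem W_mul_X4 (hq : ∀ (g : Γ) i, q (g • i) = g • q i) (e : Cpy n C ↪ ℕ) (s : Γ) {E : Finset I}
    {φ : C₀(Pow C, ℂ)} (h : CylP 𝔉 E φ) {g : Q.Pt → ℂ} {L : ℝ} (hg : RLip Q g L) :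
    (sact e : SAct Γ (Bs (Cpy n C))).W s * X4 β n Q q E φ g =
      X4 β n Q q (gF s E) (shift s φ) (fun x => g (s⁻¹ • x)) *
        (sact e : SAct Γ (Bs (Cpy n C))).W s := by
  have h1 : gF s (cpE n E) = cpE n (gF s E) := by
    ext x
    rw [mem_gF, mem_cpE, mem_cpE, mem_gF, Cpy.el_smul]
  have h2 : (fun F => phF (cpP 𝔉 n φ) (gF s⁻¹ F)) = phF (cpP 𝔉 n (shift s φ)) := by
    rw [cpP_shift, phF_shift]
  have h3 : (fun G => fG Q (fun x : Cpy n I => q x.el) n g (gF s⁻¹ G)) =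
      fG Q (fun x : Cpy n I => q x.el) n (fun x => g (s⁻¹ • x)) := by
    funext G
    exact fG_gF n (fun g i => hq g i.el) s g G
  have h4 := Fibr.Cyl.W_mul_Xo e s (CylP.copies (n := n) h).cyl
    (V := (𝔉.copies n).Vth (β.copies n).ne (Real.pi / 2))
    (V' := (𝔉.copies n).Vth (β.copies n).ne (Real.pi / 2))
    (fun i l _ l' _ => (𝔉.copies n).Vth_equi (β.copies n).ne (Real.pi / 2) s i l l')
  have h5 := (β.copies n).W_mul_G e s zero_le_one
    (norm_fG_le (fun x : Cpy n I => q x.el) n hg)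
  rw [h1, h2] at h4
  rw [h3] at h5
  unfold X4
  rw [← mul_assoc, h4, mul_assoc, h5, mul_assoc]

/-- PROOF: `finM_Xo`, `finM_G`, `FinM.mul`. -/
theorem finM_X4 {E : Finset I} {φ : C₀(Pow C, ℂ)} (h : CylP 𝔉 E φ) {g : Q.Pt → ℂ} {L : ℝ}
    (hg : RLip Q g L) : FinM (X4 β n Q q E φ g) := by
  have h1 := finM_Xo (CylP.copies (n := n) h).cyl
    ((𝔉.copies n).Vth (β.copies n).ne (Real.pi / 2))
  have h2 := (β.copies n).finM_G zero_le_one (norm_fG_le (fun x : Cpy n I => q x.el) n hg)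
  exact h1.mul h2

/-- PROOF: `Cyl.Xo_comm_Pp`, `G_comm_Pp`. -/
theorem X4_comm_Pp {E : Finset I} {φ : C₀(Pow C, ℂ)} (h : CylP 𝔉 E φ) {g : Q.Pt → ℂ} {L : ℝ}
    (hg : RLip Q g L) : Commute (X4 β n Q q E φ g) (Pp : BL (Bs (Cpy n C))) := by
  have h1 := Fibr.Cyl.Xo_comm_Pp (CylP.copies (n := n) h).cyl
    ((𝔉.copies n).Vth (β.copies n).ne (Real.pi / 2))
  have h2 := (β.copies n).G_comm_Pp zero_le_one
    (norm_fG_le (fun x : Cpy n I => q x.el) n hg)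
  exact h1.mul_left h2.symm

end Pool.Agent.Lib.MP_aa9b81_an.Rc
end
end

section

section
/-!
# Rotated sites, part M7: the charged representation
-/

open scoped ENNReal Topology ZeroAtInfty
open Function Filter Set

noncomputable section

set_option linter.unusedSectionVars false

namespace Pool.Agent.Lib.MP_aa9b81_an.Rc

open Cut Hs

variable {Γ C I : Type} [Group Γ] [MulAction Γ C] [MulAction Γ I] [DecidableEq C]
  [DecidableEq I]

variable {E : Type} [AddCommGroup E] [Module ℝ E] [TopologicalSpace E] [T2Space E]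
  [ContinuousAdd E] [ContinuousSMul ℝ E] [DistribMulAction Γ E] [SMulCommClass Γ ℝ E]
  [ContinuousConstSMul Γ E] (Q : ConvexSpace Γ E)

/-- A continuous function on the compact space `Q.Pt`, as a function vanishing at infinity. -/
def cQ (g : C(Q.Pt, ℂ)) : C₀(Q.Pt, ℂ) where
  toFun := g
  continuous_toFun := g.continuous
  zero_at_infty' := by
    rw [Filter.cocompact_eq_bot]
    exact tendsto_bot

@[simp] theorem cQ_apply (g : C(Q.Pt, ℂ)) (x : Q.Pt) : cQ Q g x = g x := rfl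

/-- The complement of the space `Om`, times `Q`. -/
abbrev AW (𝔉 : Fibr Γ C I) : Type := (Om 𝔉).compl.Pt × Q.Pt

/-- The pairs of the charged representation. -/
def R4 {𝔉 : Fibr Γ C I} (β : Bas 𝔉) (n : ℕ) (q : I → Q.Pt) :
    Set (C₀(AW Q 𝔉, ℂ) × BL (Bs (Cpy n C))) :=
  {x | ∃ (z : ℂ) (F : Finset I) (φ : C₀(Pow C, ℂ)) (_ : CylP 𝔉 F φ)
    (h0 : ∀ S ∈ (Om 𝔉).carrier, φ S = 0) (g : C(Q.Pt, ℂ)) (L : ℝ) (_ : RLip Q g L),
    x = (z • tp (resW h0) (cQ Q g), z • X4 β n Q q F φ g)}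

variable {𝔉 : Fibr Γ C I} (β : Bas 𝔉) (n : ℕ) {Q} {q : I → Q.Pt}

/-- PROOF: `X4_mono` to a common `F`, `X4_mul`; `tp_mul`; `RLip.mul`, `CylP.mul`; the product of the functions vanishes on `Om`. -/
theorem R4_mul {x y : C₀(AW Q 𝔉, ℂ) × BL (Bs (Cpy n C))} (hx : x ∈ R4 Q β n q)
    (hy : y ∈ R4 Q β n q) : (x.1 * y.1, x.2 * y.2) ∈ R4 Q β n q := by
  obtain ⟨z, F, φ, hφ, h0, g, L, hg, rfl⟩ := hx
  obtain ⟨z', F', φ', hφ', h0', g', L', hg', rfl⟩ := hy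
  have h0'' : ∀ S ∈ (Om 𝔉).carrier, (φ * φ') S = 0 := fun S hS => by
    rw [ZeroAtInftyContinuousMap.mul_apply, h0 S hS, zero_mul]
  refine ⟨z * z', F ∪ F', φ * φ', (hφ.mono Finset.subset_union_left).mul
    (hφ'.mono Finset.subset_union_right), h0'', g * g', L + L', hg.mul hg', ?_⟩
  refine Prod.ext ?_ ?_
  · have h1 : resW h0 * resW h0' = resW h0'' := by
      ext x
      rw [ZeroAtInftyContinuousMap.mul_apply, resW_apply, resW_apply, resW_apply,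
        ZeroAtInftyContinuousMap.mul_apply]
    have h2 : cQ Q g * cQ Q g' = cQ Q (g * g') := by
      ext x
      rfl
    change (z • tp (resW h0) (cQ Q g)) * (z' • tp (resW h0') (cQ Q g')) =
      (z * z') • tp (resW h0'') (cQ Q (g * g'))
    rw [smul_mul_smul_comm, tp_mul, h1, h2]
  · change (z • X4 β n Q q F φ g) * (z' • X4 β n Q q F' φ' g') =
      (z * z') • X4 β n Q q (F ∪ F') (φ * φ') (g * g')
    rw [smul_mul_smul_comm, ← X4_mono β n (Finset.subset_union_left (s₂ := F')) hφ g,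
      ← X4_mono β n (Finset.subset_union_right (s₁ := F)) hφ' g',
      X4_mul β n (hφ.mono Finset.subset_union_left) (hφ'.mono Finset.subset_union_right) h0 hg hg']
    rfl

theorem R4_smul (z : ℂ) {x : C₀(AW Q 𝔉, ℂ) × BL (Bs (Cpy n C))} (hx : x ∈ R4 Q β n q) :
    (z • x.1, z • x.2) ∈ R4 Q β n q := by
  obtain ⟨z', F, φ, hφ, h0, g, L, hg, rfl⟩ := hx
  refine ⟨z * z', F, φ, hφ, h0, g, L, hg, ?_⟩
  rw [smul_smul, smul_smul]

/-- PROOF: `W_mul_X4`, `shift_tp`; `shift s (resW h0) = resW ..` for `shift s φ` (which vanishes on the invariant set `Om`), `CylP.shift`, `RLip.shift`. -/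
theorem R4_equi (hq : ∀ (g : Γ) i, q (g • i) = g • q i) (e : Cpy n C ↪ ℕ) (s : Γ)
    {x : C₀(AW Q 𝔉, ℂ) × BL (Bs (Cpy n C))} (hx : x ∈ R4 Q β n q) : ∃ X : BL (Bs (Cpy n C)),
      (shift s x.1, X) ∈ R4 Q β n q ∧
      (sact e : SAct Γ (Bs (Cpy n C))).W s * x.2 = X * (sact e : SAct Γ (Bs (Cpy n C))).W s := by
  obtain ⟨z, F, φ, hφ, h0, g, L, hg, rfl⟩ := hx
  have h0' : ∀ S ∈ (Om 𝔉).carrier, (shift s φ) S = 0 := fun S hS => by
    rw [shift_apply]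
    exact h0 _ ((Om 𝔉).inv s⁻¹ S hS)
  refine ⟨z • X4 β n Q q (gF s F) (shift s φ) (fun x => g (s⁻¹ • x)), ⟨z, gF s F, shift s φ,
    hφ.shift s, h0', g.comp ⟨fun x => s⁻¹ • x, continuous_const_smul s⁻¹⟩, L, hg.shift s, ?_⟩, ?_⟩
  · refine Prod.ext ?_ rfl
    ext ⟨x, y⟩
    change z * (tp (resW h0) (cQ Q g)) (s⁻¹ • (x, y)) = z * (tp (resW h0') _) (x, y)
    rw [tp_apply, tp_apply, resW_apply, resW_apply]
    rfl
  · change (sact e : SAct Γ (Bs (Cpy n C))).W s * (z • X4 β n Q q F φ g) = _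
    rw [mul_smul_comm, W_mul_X4 β n hq e s hφ hg, smul_mul_assoc]

/-- A common set `F`. -/
private theorem M7_common {l : List (C₀(AW Q 𝔉, ℂ) × BL (Bs (Cpy n C)))}
    (hl : ∀ x ∈ l, x ∈ R4 Q β n q) : ∃ F : Finset I, ∀ x ∈ l, ∃ (z : ℂ) (φ : C₀(Pow C, ℂ))
      (_ : CylP 𝔉 F φ) (h0 : ∀ S ∈ (Om 𝔉).carrier, φ S = 0) (g : C(Q.Pt, ℂ)) (L : ℝ)
      (_ : RLip Q g L), x = (z • tp (resW h0) (cQ Q g), z • X4 β n Q q F φ g) := by
  induction l with
  | nil => exact ⟨∅, by simp⟩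
  | cons x l ih =>
    obtain ⟨F, hF⟩ := ih fun y hy => hl y (List.mem_cons_of_mem _ hy)
    obtain ⟨z, F', φ, hφ, h0, g, L, hg, hx⟩ := hl x List.mem_cons_self
    refine ⟨F ∪ F', fun y hy => ?_⟩
    rcases List.mem_cons.1 hy with rfl | hy
    · refine ⟨z, φ, hφ.mono Finset.subset_union_right, h0, g, L, hg, ?_⟩
      rw [hx, X4_mono β n (Finset.subset_union_right (s₁ := F)) hφ g]
    · obtain ⟨z', φ', hφ', h0', g', L', hg', hx'⟩ := hF y hy
      refine ⟨z', φ', hφ'.mono Finset.subset_union_left, h0', g', L', hg', ?_⟩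
      rw [hx', X4_mono β n (Finset.subset_union_left (s₂ := F')) hφ' g']

private theorem M7_smul_dia {J : Type} {f : J → ℂ} {M : ℝ} (hM : 0 ≤ M) (hf : ∀ b, ‖f b‖ ≤ M)
    (z : ℂ) : z • (dia f : BL J) = dia fun b => z * f b := by
  refine ContinuousLinearMap.ext fun ξ => ?_
  ext b
  have h1 : ∀ b, ‖z * f b‖ ≤ ‖z‖ * M := fun b => by
    rw [norm_mul]
    exact mul_le_mul_of_nonneg_left (hf b) (norm_nonneg _)
  rw [dia_apply (mul_nonneg (norm_nonneg z) hM) h1]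
  change z * (dia f ξ : J → ℂ) b = _
  rw [dia_apply hM hf]
  ring

open Classical in
/-- PROOF: let `F` be the union of the sets `F` of the elements of `l` (`X4_mono`), `V = V' = DK (cpE n F)` (`norm_DK_le`), and `π b = some (psiC (indP b.F), avgQ (chK b))` if
`psiC (indP b.F)` is bad at some `i ∈ F` (then it is not in `Om`, and `chK` is nonempty by `card_chK`), `none` otherwise. By `X4_eq` one has to compare the
functions: if `φ (psiC ..) ≠ 0` there is a bad `i ∈ F` (`exists_bad`), and `fG g (chK b) = g (avg)` (`fG_of_le`, `card_chK`); if `φ (psiC ..) = 0` both sides are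
`0`. -/
theorem R4_diag {l : List (C₀(AW Q 𝔉, ℂ) × BL (Bs (Cpy n C)))} (hl : ∀ x ∈ l, x ∈ R4 Q β n q) :
    ∃ (W W' : BL (Bs (Cpy n C))) (π : Bs (Cpy n C) → Option (AW Q 𝔉)), ‖W‖ ≤ 1 ∧ ‖W'‖ ≤ 1 ∧
      ∀ x ∈ l, x.2 = W * (dia fun b => optf x.1 (π b)) * W' := by
  obtain ⟨F, hF⟩ := M7_common β n hl
  have hne : ∀ b : Bs (Cpy n C), (∃ i ∈ F, ¬ One 𝔉 i (psiC 𝔉 n (indP b.F))) →
      ((β.copies n).chK (cpE n F) b).Nonempty := fun b ⟨i, hi, hb⟩ => by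
    rw [← Finset.card_pos]
    have h1 := card_chK β n hi hb
    omega
  have hnm : ∀ b : Bs (Cpy n C), (∃ i ∈ F, ¬ One 𝔉 i (psiC 𝔉 n (indP b.F))) →
      psiC 𝔉 n (indP b.F) ∈ (Om 𝔉).compl.carrier := fun b ⟨i, hi, hb⟩ h => hb (h i)
  refine ⟨(β.copies n).DK (cpE n F), (β.copies n).DK (cpE n F), fun b =>
    if h : ∃ i ∈ F, ¬ One 𝔉 i (psiC 𝔉 n (indP b.F)) then
      some ((Om 𝔉).compl.pt (psiC 𝔉 n (indP b.F)) (hnm b h),
        avgQ Q (fun x : Cpy n I => q x.el) ((β.copies n).chK (cpE n F) b) (hne b h)) else none,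
    (β.copies n).norm_DK_le _, (β.copies n).norm_DK_le _, fun x hx => ?_⟩
  obtain ⟨z, φ, hφ, h0, g, L, hg, rfl⟩ := hF x hx
  change z • X4 β n Q q F φ g = _
  have hbd : ∀ b : Bs (Cpy n C), ‖φ (psiC 𝔉 n (indP b.F)) *
      fG Q (fun x => q x.el) n g ((β.copies n).chK (cpE n F) b)‖ ≤ 1 := fun b => by
    rw [norm_mul]
    exact mul_le_one₀ (hφ.bdd _) (norm_nonneg _) (norm_fG_le _ _ hg _)
  rw [X4_eq β n hφ hg, ← smul_mul_assoc, ← mul_smul_comm, M7_smul_dia zero_le_one hbd]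
  congr 3
  funext b
  beta_reduce
  by_cases h : ∃ i ∈ F, ¬ One 𝔉 i (psiC 𝔉 n (indP b.F))
  · rw [dif_pos h, optf_some]
    obtain ⟨i, hi, hb⟩ := h
    rw [fG_of_le _ _ (card_chK β n hi hb) (hne b ⟨i, hi, hb⟩)]
    change _ = z * (tp (resW h0) (cQ Q g)) _
    rw [tp_apply, resW_apply]
    rfl
  · rw [dif_neg h, optf_none]
    have h1 : φ (psiC 𝔉 n (indP b.F)) = 0 := by
      by_contra h2
      exact h (hφ.exists_bad β.ne h0 h2)
    rw [h1, zero_mul, mul_zero]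

/-- The first components of the pairs. -/
def G4 (Q : ConvexSpace Γ E) (𝔉 : Fibr Γ C I) : Set C₀(AW Q 𝔉, ℂ) :=
  {f | ∃ (z : ℂ) (F : Finset I) (φ : C₀(Pow C, ℂ)) (_ : CylP 𝔉 F φ)
    (h0 : ∀ S ∈ (Om 𝔉).carrier, φ S = 0) (g : C(Q.Pt, ℂ)) (L : ℝ) (_ : RLip Q g L),
    f = z • tp (resW h0) (cQ Q g)}

/-- PROOF: `tp_dense` on `(Om 𝔉).compl.Pt × Q.Pt` (an open subset of a compact Hausdorff space: locally compact), `exists_cylW`, `exists_RLip`, `norm_tp_le`, scalars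
combined. -/
theorem denseG4 [LocallyConvexSpace ℝ E] (hn : ∀ i, (𝔉.fib i).Nonempty) (f : C₀(AW Q 𝔉, ℂ)) {ε : ℝ} (hε : 0 < ε) :
    ∃ l : List C₀(AW Q 𝔉, ℂ), (∀ x ∈ l, x ∈ G4 Q 𝔉) ∧ ‖f - l.sum‖ ≤ ε := by
  have : LocallyCompactSpace (Om 𝔉).compl.Pt :=
    (Om 𝔉).compl.locallyCompactSpace (isClosed_Om 𝔉).isOpen_compl.isLocallyClosed
  obtain ⟨l, hl⟩ := tp_dense f (half_pos hε)
  have key : ∀ (l : List (C₀((Om 𝔉).compl.Pt, ℂ) × C₀(Q.Pt, ℂ))) (δ : ℝ), 0 < δ →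
      ∃ l' : List C₀(AW Q 𝔉, ℂ), (∀ x ∈ l', x ∈ G4 Q 𝔉) ∧
        ‖(l.map fun x => tp x.1 x.2).sum - l'.sum‖ ≤ δ := by
    intro l
    induction l with
    | nil =>
      intro δ hδ
      exact ⟨[], by simp, by simpa using hδ.le⟩
    | cons x l ih =>
      intro δ hδ
      obtain ⟨l', hl', hl'2⟩ := ih (δ / 2) (half_pos hδ)
      obtain ⟨z, F, φ, hφ, h0, h1⟩ := exists_cylW hn x.1
        (ε := δ / (4 * (‖x.2‖ + 1))) (by positivity)
      obtain ⟨z', g, L, hg, h2⟩ := exists_RLip Q (⟨x.2, x.2.continuous⟩ : C(Q.Pt, ℂ))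
        (ε := δ / (4 * (‖z • resW h0‖ + 1))) (by positivity)
      refine ⟨(z * z') • tp (resW h0) (cQ Q g) :: l', fun y hy => ?_, ?_⟩
      · rcases List.mem_cons.1 hy with rfl | hy
        · exact ⟨z * z', F, φ, hφ, h0, g, L, hg, rfl⟩
        · exact hl' y hy
      · rw [List.map_cons, List.sum_cons, List.sum_cons]
        have e1 : (z * z') • tp (resW h0) (cQ Q g) = tp (z • resW h0) (z' • cQ Q g) := by
          rw [tp_smul, tp_smul_left, smul_smul, mul_comm]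
        have e2 : tp x.1 x.2 + (l.map fun x => tp x.1 x.2).sum -
            ((z * z') • tp (resW h0) (cQ Q g) + l'.sum) =
            (tp x.1 x.2 - tp (z • resW h0) (z' • cQ Q g)) +
              ((l.map fun x => tp x.1 x.2).sum - l'.sum) := by
          rw [e1]
          abel
        have e3 : tp x.1 x.2 - tp (z • resW h0) (z' • cQ Q g) =
            tp (x.1 - z • resW h0) x.2 + tp (z • resW h0) (x.2 - z' • cQ Q g) := by
          ext y
          simp only [ZeroAtInftyContinuousMap.sub_apply, ZeroAtInftyContinuousMap.add_apply,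
            tp_apply]
          ring
        have h3 : ‖x.2 - z' • cQ Q g‖ ≤ δ / (4 * (‖z • resW h0‖ + 1)) := by
          rw [← ZeroAtInftyContinuousMap.norm_toBCF_eq_norm,
            BoundedContinuousFunction.norm_le (by positivity)]
          intro y
          exact h2 y
        have h4 : ‖tp (x.1 - z • resW h0) x.2‖ ≤ δ / 4 := by
          refine (norm_tp_le _ _).trans ?_
          calc ‖x.1 - z • resW h0‖ * ‖x.2‖ ≤ δ / (4 * (‖x.2‖ + 1)) * (‖x.2‖ + 1) :=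
                mul_le_mul h1 (by linarith) (norm_nonneg _) (by positivity)
            _ = δ / 4 := by
                have : ‖x.2‖ + 1 ≠ 0 := by positivity
                field_simp
        have h5 : ‖tp (z • resW h0) (x.2 - z' • cQ Q g)‖ ≤ δ / 4 := by
          refine (norm_tp_le _ _).trans ?_
          calc ‖z • resW h0‖ * ‖x.2 - z' • cQ Q g‖ ≤
                (‖z • resW h0‖ + 1) * (δ / (4 * (‖z • resW h0‖ + 1))) :=
                mul_le_mul (by linarith) h3 (norm_nonneg _) (by positivity)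
            _ = δ / 4 := by
                have : ‖z • resW h0‖ + 1 ≠ 0 := by positivity
                field_simp
        rw [e2, e3]
        refine (norm_add_le _ _).trans ?_
        have h6 := norm_add_le (tp (x.1 - z • resW h0) x.2)
          (tp (z • resW h0) (x.2 - z' • cQ Q g))
        linarith
  obtain ⟨l', hl', hl'2⟩ := key l (ε / 2) (half_pos hε)
  refine ⟨l', hl', ?_⟩
  have h7 : f - l'.sum = (f - (l.map fun x => tp x.1 x.2).sum) +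
      ((l.map fun x => tp x.1 x.2).sum - l'.sum) := by abel
  rw [h7]
  refine (norm_add_le _ _).trans ?_
  linarith

/-- PROOF: `denseG4`, each element of `G4` is the first component of an element of `R4`. -/
theorem R4_dense [LocallyConvexSpace ℝ E] (f : C₀(AW Q 𝔉, ℂ)) {ε : ℝ} (hε : 0 < ε) :
    ∃ l : List (C₀(AW Q 𝔉, ℂ) × BL (Bs (Cpy n C))), (∀ x ∈ l, x ∈ R4 Q β n q) ∧
      ‖f - (l.map Prod.fst).sum‖ ≤ ε := by
  obtain ⟨l, hl, hl2⟩ := denseG4 (Q := Q) β.ne f hε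
  have key : ∀ l : List C₀(AW Q 𝔉, ℂ), (∀ x ∈ l, x ∈ G4 Q 𝔉) →
      ∃ l' : List (C₀(AW Q 𝔉, ℂ) × BL (Bs (Cpy n C))), (∀ x ∈ l', x ∈ R4 Q β n q) ∧
        l'.map Prod.fst = l := by
    intro l
    induction l with
    | nil => exact fun _ => ⟨[], by simp, rfl⟩
    | cons x l ih =>
      intro h
      obtain ⟨l', hl', hl'2⟩ := ih fun y hy => h y (List.mem_cons_of_mem _ hy)
      obtain ⟨z, F, φ, hφ, h0, g, L, hg, hx⟩ := h x List.mem_cons_self
      refine ⟨(z • tp (resW h0) (cQ Q g), z • X4 β n Q q F φ g) :: l', fun y hy => ?_, ?_⟩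
      · rcases List.mem_cons.1 hy with rfl | hy
        · exact ⟨z, F, φ, hφ, h0, g, L, hg, rfl⟩
        · exact hl' y hy
      · rw [List.map_cons, hl'2, hx]
  obtain ⟨l', hl', hl'2⟩ := key l hl
  exact ⟨l', hl', by rw [hl'2]; exact hl2⟩

/-- The charged representation. -/
def L4 [LocallyConvexSpace ℝ E] (hq : ∀ (g : Γ) i, q (g • i) = g • q i) (e : Cpy n C ↪ ℕ) :
    LRep (sact e : SAct Γ (Bs (Cpy n C))) (AW Q 𝔉) where
  R := R4 Q β n q
  mul _ hx _ hy := R4_mul β n hx hy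
  smul z _ hx := R4_smul β n z hx
  equi g _ hx := R4_equi β n hq e g hx
  diag _ hl := R4_diag β n hl
  dense φ _ hε := R4_dense β n φ hε

end Pool.Agent.Lib.MP_aa9b81_an.Rc
end

end


section
/-!
# Rotated sites, part M8: the charged representation and the Clifford operator
-/

open scoped ENNReal Topology ZeroAtInfty
open Function Filter Set

noncomputable section

set_option linter.unusedSectionVars false

namespace Pool.Agent.Lib.MP_aa9b81_an.Rc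

open Cut Hs

variable {Γ C I : Type} [Group Γ] [MulAction Γ C] [MulAction Γ I] [DecidableEq C]
  [DecidableEq I]

variable {E : Type} [AddCommGroup E] [Module ℝ E] [TopologicalSpace E] [T2Space E]
  [ContinuousAdd E] [ContinuousSMul ℝ E] [DistribMulAction Γ E] [SMulCommClass Γ ℝ E]
  [ContinuousConstSMul Γ E] {Q : ConvexSpace Γ E}

variable {𝔉 : Fibr Γ C I} (β : Bas 𝔉) (n : ℕ) {q : I → Q.Pt}

instance instLocallyCompactCompl (𝔉 : Fibr Γ C I) : LocallyCompactSpace (Om 𝔉).compl.Pt :=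
  ((Om 𝔉).isOpenEmbedding_compl (isClosed_Om 𝔉)).locallyCompactSpace

private theorem M8_mono {Γ C : Type} [Group Γ] [MulAction Γ C] [DecidableEq C] {Y : Type}
    [TopologicalSpace Y] [MulAction Γ Y] {w : Wt Γ C} {e : C ↪ ℕ} {X : BL (Bs C)} {δ δ' : ℝ}
    (h : NearT Y w e δ X) (hδ : δ ≤ δ') : NearT Y w e δ' X := fun h' => by
  obtain ⟨k, hk, h1⟩ := h h'
  exact ⟨k, hk, h1.trans (mul_le_mul_of_nonneg_right hδ (norm_nonneg _))⟩

private theorem M8_sqrt {L : ℝ} {δ : ℝ} (hδ : 0 < δ) : ∃ N : ℕ, ∀ n : ℕ, N ≤ n →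
    2 * √((2 + 2 * L ^ 2) / (n + 1)) ≤ δ := by
  obtain ⟨N, hN⟩ := exists_nat_ge ((2 + 2 * L ^ 2) / (δ / 2) ^ 2)
  refine ⟨N, fun n hn => ?_⟩
  have h1 : (2 + 2 * L ^ 2) / ((n : ℝ) + 1) ≤ (δ / 2) ^ 2 := by
    rw [div_le_iff₀ (by positivity)]
    have h2 : ((N : ℕ) : ℝ) ≤ n := by exact_mod_cast hn
    have h3 : (2 + 2 * L ^ 2) / (δ / 2) ^ 2 ≤ (n : ℝ) + 1 := by linarith
    rw [div_le_iff₀ (by positivity)] at h3
    linarith
  have h4 : √((2 + 2 * L ^ 2) / ((n : ℝ) + 1)) ≤ δ / 2 :=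
    (Real.sqrt_le_sqrt h1).trans (by rw [Real.sqrt_sq (by positivity)])
  linarith

/-- PROOF: `finM_X4`, `X4_comm_Pp`, `FinM.smul`. -/
theorem L4_ok [LocallyConvexSpace ℝ E] (hq : ∀ (g : Γ) i, q (g • i) = g • q i)
    (e : Cpy n C ↪ ℕ) : (L4 β n hq e).Ok := by
  refine ⟨fun x hx => ?_, fun x hx => ?_⟩
  · obtain ⟨z, F, φ, hφ, h0, g, L, hg, rfl⟩ := hx
    exact FinM.smul z (finM_X4 β n hφ hg)
  · obtain ⟨z, F, φ, hφ, h0, g, L, hg, rfl⟩ := hx
    exact (X4_comm_Pp β n hφ hg).smul_left z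

variable {Y : Type} [TopologicalSpace Y] [MulAction Γ Y] [T2Space Y]

/-- PROOF: `X4 = Xo * G`: `NearT.mul` with `NearT_Xo` (`δ = 0`) and `NearT.of_norm_le` for `G` with `2 * 1 * √(..)` (`norm_comm_le` for `a = cw ..`, `CB_cw`, `Fibr.col_cw`, `fG_lip`,
`norm_fG_le`); `‖Xo‖ ≤ 1`. -/
theorem NearT_X4 (w : Wt Γ (Cpy n I)) (e : Cpy n C ↪ ℕ) {F : Finset I} {φ : C₀(Pow C, ℂ)}
    (h : CylP 𝔉 F φ) {g : Q.Pt → ℂ} {L : ℝ} (hg : RLip Q g L) :
    NearT Y ((𝔉.copies n).wt w) e (2 * √((2 + 2 * L ^ 2) / (n + 1))) (X4 β n Q q F φ g) := by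
  classical
  unfold X4
  have h1 : NearT Y ((𝔉.copies n).wt w) e 0
      ((𝔉.copies n).Xo (cpE n F) ((𝔉.copies n).Vth (β.copies n).ne (Real.pi / 2))
        (phF (cpP 𝔉 n φ))) := NearT_Xo ((𝔉.copies n).wt w) e h.copies.cyl _
  have h2 : NearT Y ((𝔉.copies n).wt w) e (2 * √((2 + 2 * L ^ 2) / (n + 1)))
      ((β.copies n).G (fG Q (fun x => q x.el) n g)) := by
    apply NearT.of_norm_le
    have h3 := norm_comm_le (β.copies n) e (CB_cw ((𝔉.copies n).wt w))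
      (Fibr.col_cw (𝔉.copies n) w) (f := fG Q (fun x : Cpy n I => q x.el) n g)
      (M := 1) (N := √((2 + 2 * L ^ 2) / (n + 1))) zero_le_one
      (norm_fG_le _ n hg) (Real.sqrt_nonneg _) (fun G i hi => fG_lip _ n hg G hi)
    rw [mul_one] at h3
    rw [norm_sub_rev]
    exact h3
  have h4 := NearT.mul (finM_Xo h.copies.cyl _) ((β.copies n).finM_G zero_le_one
    (norm_fG_le _ n hg)) h1 h2
  refine M8_mono h4 ?_
  rw [zero_mul, add_zero]
  exact mul_le_of_le_one_left (by positivity) (h.copies.cyl.norm_Xo_le _)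

/-- PROOF: for each element `f = z tp (resW φ) g` of `F`, `(f, z X4)` is in `R4` and near up to `‖z‖ 2 √((2 + 2 L²)/(n+1))` (`NearT_X4`, `NearT.smul`), which is `≤ δ` for large `n`;
take the maximum over the finite set `F` (monotonicity of `NearT` in `δ`). -/
theorem exists_large [LocallyConvexSpace ℝ E] (hq : ∀ (g : Γ) i, q (g • i) = g • q i)
    (F : Finset C₀(AW Q 𝔉, ℂ)) (hF : (F : Set C₀(AW Q 𝔉, ℂ)) ⊆ G4 Q 𝔉) {δ : ℝ} (hδ : 0 < δ) :
    ∃ n : ℕ, ∀ (w : Wt Γ (Cpy n I)) (e : Cpy n C ↪ ℕ), ∀ φ ∈ F, ∃ X, (φ, X) ∈ (L4 β n hq e).R ∧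
      NearT Y ((𝔉.copies n).wt w) e δ X := by
  classical
  have key : ∀ F : Finset C₀(AW Q 𝔉, ℂ), (F : Set C₀(AW Q 𝔉, ℂ)) ⊆ G4 Q 𝔉 → ∃ N : ℕ,
      ∀ n : ℕ, N ≤ n → ∀ (w : Wt Γ (Cpy n I)) (e : Cpy n C ↪ ℕ), ∀ φ ∈ F,
        ∃ X, (φ, X) ∈ (L4 β n hq e).R ∧ NearT Y ((𝔉.copies n).wt w) e δ X := by
    intro F
    induction F using Finset.induction_on with
    | empty =>
      intro _
      exact ⟨0, fun n _ w e φ hφ => absurd hφ (Finset.notMem_empty _)⟩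
    | insert a s ha ih =>
      intro hs
      have hs' : (s : Set C₀(AW Q 𝔉, ℂ)) ⊆ G4 Q 𝔉 := fun x hx =>
        hs (Finset.mem_coe.2 (Finset.mem_insert_of_mem (Finset.mem_coe.1 hx)))
      obtain ⟨N, hN⟩ := ih hs'
      have ha' : a ∈ G4 Q 𝔉 := hs (Finset.mem_coe.2 (Finset.mem_insert_self a s))
      obtain ⟨z, F', φ, hφ, h0, g, L, hg, rfl⟩ := ha'
      obtain ⟨N', hN'⟩ := M8_sqrt (L := L) (δ := δ / (‖z‖ + 1)) (by positivity)
      refine ⟨max N N', fun n hn w e ψ hψ => ?_⟩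
      rcases Finset.mem_insert.1 hψ with rfl | hψ
      · refine ⟨z • X4 β n Q q F' φ g, ⟨z, F', φ, hφ, h0, g, L, hg, rfl⟩, ?_⟩
        refine M8_mono ((NearT_X4 β n w e hφ hg).smul z) ?_
        have h1 := hN' n ((le_max_right _ _).trans hn)
        calc ‖z‖ * (2 * √((2 + 2 * L ^ 2) / (n + 1))) ≤ ‖z‖ * (δ / (‖z‖ + 1)) :=
              mul_le_mul_of_nonneg_left h1 (norm_nonneg _)
          _ ≤ δ := by
              rw [mul_div_assoc', div_le_iff₀ (by positivity)]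
              nlinarith [norm_nonneg z]
      · exact hN n ((le_max_left _ _).trans hn) w e ψ hψ
  obtain ⟨N, hN⟩ := key F hF
  exact ⟨N, hN N le_rfl⟩

end Pool.Agent.Lib.MP_aa9b81_an.Rc
end

end


section
/-!
# Rotated sites, part M9: the charged representation and the rotated representation
-/

open scoped ENNReal Topology ZeroAtInfty
open Function Filter Set

noncomputable section

set_option linter.unusedSectionVars false

namespace Pool.Agent.Lib.MP_aa9b81_an.Rc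

open Cut Hs

variable {Γ C I : Type} [Group Γ] [MulAction Γ C] [MulAction Γ I] [DecidableEq C]
  [DecidableEq I]

variable {E : Type} [AddCommGroup E] [Module ℝ E] [TopologicalSpace E] [T2Space E]
  [ContinuousAdd E] [ContinuousSMul ℝ E] [DistribMulAction Γ E] [SMulCommClass Γ ℝ E]
  [ContinuousConstSMul Γ E] [LocallyConvexSpace ℝ E] {Q : ConvexSpace Γ E}

variable {𝔉 : Fibr Γ C I} (β : Bas 𝔉) (n : ℕ) {q : I → Q.Pt}

variable {Y : Type} [TopologicalSpace Y] [MulAction Γ Y] [T2Space Y] [LocallyCompactSpace Y]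
  [ContinuousConstSMul Γ Y]

/-- The inclusion of `Y × W` into `Y × Pow C`. -/
def oW (𝔉 : Fibr Γ C I) (Y : Type) : Y × (Om 𝔉).compl.Pt → Y × Pow C :=
  Prod.map id (Om 𝔉).compl.val

theorem isOpenEmbedding_oW : Topology.IsOpenEmbedding (oW 𝔉 Y) := by
  exact Topology.IsOpenEmbedding.id.prodMap ((Om 𝔉).isOpenEmbedding_compl (isClosed_Om 𝔉))

theorem oW_smul (g : Γ) (x : Y × (Om 𝔉).compl.Pt) : oW 𝔉 Y (g • x) = g • oW 𝔉 Y x := rfl

/-- The map `id × psiC`. -/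
def pY (𝔉 : Fibr Γ C I) (n : ℕ) (Y : Type) : Y × Pow (Cpy n C) → Y × Pow C :=
  Prod.map id (psiC 𝔉 n)

theorem isProperMap_pY : IsProperMap (pY 𝔉 n Y) := by
  exact isProperMap_id.prodMap (isProperMap_psiC 𝔉 n)

/-- PROOF: `psiC_smul`. -/
theorem pY_smul (g : Γ) (x : Y × Pow (Cpy n C)) : pY 𝔉 n Y (g • x) = g • pY 𝔉 n Y x := by
  exact Prod.ext rfl (psiC_smul 𝔉 n g x.2)

/-- PROOF: as in `extF_mem_cp`: at `(y, S)` with `S ∈ W` both sides have the same coordinates, at the other points both are `0` (`φ = 0` on `Om`, an invariant set). -/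
theorem extF_gen {φ : C₀(Pow C, ℂ)} (h0 : ∀ S ∈ (Om 𝔉).carrier, φ S = 0) (h : C₀(Y, ℂ)) (g : Γ)
    (i j : ℕ) : extF (oW 𝔉 Y) (gen (tp h (resW h0)) g i j) = gen (tp h φ) g i j := by
  ext1 y
  by_cases hy : y ∈ Set.range (oW 𝔉 Y)
  · obtain ⟨x, rfl⟩ := hy
    rw [extF_apply isOpenEmbedding_oW.injective]
    refine ContinuousLinearMap.ext fun ξ => ?_
    ext1
    funext p
    rw [show p = (p.1, p.2) from rfl, gen_apply, gen_apply, ← oW_smul, tp_apply, tp_apply,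
      resW_apply]
    rfl
  · have h1 : y.2 ∈ (Om 𝔉).carrier := by
      by_contra h2
      exact hy ⟨(y.1, (Om 𝔉).compl.pt y.2 h2), rfl⟩
    rw [extF_apply_of_notMem _ hy]
    refine ContinuousLinearMap.ext fun ξ => ?_
    ext1
    funext p
    rw [show p = (p.1, p.2) from rfl, gen_apply, tp_apply]
    have h2 : φ (p.1 • y).2 = 0 := h0 _ ((Om 𝔉).inv p.1 y.2 h1)
    rw [h2, mul_zero, zero_mul, ite_self]
    rfl

/-- The functions `z φ`, `φ` the restriction of a cylinder function. -/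
private def M9_G (𝔉 : Fibr Γ C I) : Set C₀((Om 𝔉).compl.Pt, ℂ) :=
  {f | ∃ (z : ℂ) (E : Finset I) (φ : C₀(Pow C, ℂ)) (_ : CylP 𝔉 E φ)
    (h0 : ∀ S ∈ (Om 𝔉).carrier, φ S = 0), f = z • resW h0}

private theorem M9_dense (hn : ∀ i, (𝔉.fib i).Nonempty) : DenseG (M9_G 𝔉) := by
  intro f ε hε
  obtain ⟨z, E, φ, hφ, h0, h⟩ := exists_cylW hn f hε
  refine ⟨[z • resW h0], ?_, ?_⟩
  · intro x hx
    rw [List.mem_singleton] at hx
    exact ⟨z, E, φ, hφ, h0, hx⟩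
  · rw [List.sum_singleton]
    exact h

private theorem M9_gmem {Z : Type} [TopologicalSpace Z] [MulAction Γ Z] (f : C₀(Z, ℂ)) (g : Γ)
    (i j : ℕ) : (gen f g i j : Fam Γ Z) ∈ cp Γ Z :=
  NonUnitalSubalgebra.le_topologicalClosure _
    (NonUnitalAlgebra.subset_adjoin ℂ ⟨f, g, i, j, rfl⟩)

private theorem M9_h1 {a : Fam Γ (Y × (Om 𝔉).compl.Pt)} (ha : a ∈ cp Γ (Y × (Om 𝔉).compl.Pt)) :
    pull (pY 𝔉 n Y) (extF (oW 𝔉 Y) a) ∈ cp Γ (Y × Pow (Cpy n C)) :=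
  pull_mem_cp (isProperMap_pY n) (pY_smul n) _
    (extF_mem_cp isOpenEmbedding_oW (fun _ _ => rfl) a ha)

private theorem M9_h2 (Q : ConvexSpace Γ E) {a : Fam Γ (Y × (Om 𝔉).compl.Pt)}
    (ha : a ∈ cp Γ (Y × (Om 𝔉).compl.Pt)) :
    pull (Prod.map id Prod.fst) a ∈ cp Γ (Y × AW Q 𝔉) :=
  pull_mem_cp (isProperMap_id_fst Q (Om 𝔉).compl.Pt) (fun _ _ => rfl) _ ha

private theorem M9_pull1 (h : C₀(Y, ℂ)) (φ : C₀(Pow C, ℂ)) :
    pullC (pY 𝔉 n Y) (isProperMap_pY n) (tp h φ) = tp h (cpP 𝔉 n φ) := by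
  ext x
  rw [pullC_apply, tp_apply, tp_apply]
  rfl

private theorem M9_pull2 (Q : ConvexSpace Γ E) (h : C₀(Y, ℂ)) (f : C₀((Om 𝔉).compl.Pt, ℂ)) :
    pullC (Prod.map id Prod.fst) (isProperMap_id_fst Q (Om 𝔉).compl.Pt) (tp h f) =
      tp h (tp f (cQ Q 1)) := by
  ext x
  rw [pullC_apply, tp_apply, tp_apply, tp_apply, cQ_apply]
  change h x.1 * f x.2.1 = h x.1 * (f x.2.1 * 1)
  rw [mul_one]

private theorem M9_Th {A B : Type} [TopologicalSpace A] [MulAction Γ A] [ContinuousConstSMul Γ A]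
    [MulAction Γ B] [Nonempty B] [T2Space A] [LocallyCompactSpace A] {Es : SAct Γ B}
    (L : LRep Es A) (c : ℕ × B ≃ ℕ) {f : C₀(A, ℂ)} {X : BL B} (hX : (f, X) ∈ L.R) (h : C₀(Y, ℂ))
    (g : Γ) (i j : ℕ) {a : Fam Γ (Y × A)} (ha : a ∈ cp Γ (Y × A)) (ea : a = gen (tp h f) g i j) :
    L.Th c ⟨a, ha⟩ = cov c Es g i j (sx h X) := by
  subst ea
  exact L.Th_src c (d := ⟨h, (f, X), g, i, j⟩) hX ha

private theorem M9_e0 {h : C₀(Y, ℂ)} {f f' : C₀((Om 𝔉).compl.Pt, ℂ)} {z : ℂ} (hf : f = z • f')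
    (g : Γ) (i j : ℕ) : (SDat.gen ⟨h, f, g, i, j⟩ : Fam Γ (Y × (Om 𝔉).compl.Pt)) =
      gen (tp (z • h) f') g i j := by
  change gen (tp h f) g i j = _
  rw [hf, tp_smul, tp_smul_left]

private theorem M9_e1 {a : Fam Γ (Y × (Om 𝔉).compl.Pt)} {φ : C₀(Pow C, ℂ)}
    (h0 : ∀ S ∈ (Om 𝔉).carrier, φ S = 0) (h : C₀(Y, ℂ)) (g : Γ) (i j : ℕ)
    (ha : a = gen (tp h (resW h0)) g i j) :
    pull (pY 𝔉 n Y) (extF (oW 𝔉 Y) a) = gen (tp h (cpP 𝔉 n φ)) g i j := by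
  rw [ha, extF_gen h0, pull_gen (isProperMap_pY n) (pY_smul n), M9_pull1]

private theorem M9_e2 (Q : ConvexSpace Γ E) {a : Fam Γ (Y × (Om 𝔉).compl.Pt)}
    (f : C₀((Om 𝔉).compl.Pt, ℂ)) (h : C₀(Y, ℂ)) (g : Γ) (i j : ℕ)
    (ha : a = gen (tp h f) g i j) :
    (pull (Prod.map id Prod.fst) a : Fam Γ (Y × AW Q 𝔉)) =
      gen (tp h (tp f (cQ Q 1))) g i j := by
  rw [ha, pull_gen (isProperMap_id_fst Q (Om 𝔉).compl.Pt) (fun _ _ => rfl), M9_pull2]

private theorem M9_r1 (e : Cpy n C ↪ ℕ) {F : Finset I} {φ : C₀(Pow C, ℂ)} (hφ : CylP 𝔉 F φ) :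
    (cpP 𝔉 n φ, (𝔉.copies n).Xo (cpE n F)
      ((𝔉.copies n).Vth (β.copies n).ne (Real.pi / 2)) (phF (cpP 𝔉 n φ))) ∈
      (LR (𝔉.copies n) (β.copies n).ne e (Real.pi / 2)).R :=
  ⟨1, cpE n F, cpP 𝔉 n φ, hφ.copies, by rw [one_smul, one_smul]⟩

private theorem M9_r2 (hq : ∀ (g : Γ) i, q (g • i) = g • q i) (e : Cpy n C ↪ ℕ) {F : Finset I}
    {φ : C₀(Pow C, ℂ)} (hφ : CylP 𝔉 F φ) (h0 : ∀ S ∈ (Om 𝔉).carrier, φ S = 0) :
    (tp (resW h0) (cQ Q 1), (𝔉.copies n).Xo (cpE n F)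
      ((𝔉.copies n).Vth (β.copies n).ne (Real.pi / 2)) (phF (cpP 𝔉 n φ))) ∈
      (L4 β n hq e).R := by
  rw [← X4_one β n (Q := Q) (q := q) hφ h0]
  exact ⟨1, F, φ, hφ, h0, 1, 0, RLip.one Q, by rw [one_smul, one_smul]; rfl⟩

private theorem M9_gen (hq : ∀ (g : Γ) i, q (g • i) = g • q i) (e : Cpy n C ↪ ℕ)
    (c : ℕ × Bs (Cpy n C) ≃ ℕ) (d : SDat Γ Y (Om 𝔉).compl.Pt) (hd : d.φ ∈ M9_G 𝔉)
    (h1 : pull (pY 𝔉 n Y) (extF (oW 𝔉 Y) d.gen) ∈ cp Γ (Y × Pow (Cpy n C)))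
    (h2 : pull (Prod.map id Prod.fst) d.gen ∈ cp Γ (Y × AW Q 𝔉)) :
    (LR (𝔉.copies n) (β.copies n).ne e (Real.pi / 2)).Th c
        ⟨pull (pY 𝔉 n Y) (extF (oW 𝔉 Y) d.gen), h1⟩ =
      (L4 β n hq e).Th c ⟨pull (Prod.map id Prod.fst) d.gen, h2⟩ := by
  obtain ⟨h, f, g, i, j⟩ := d
  obtain ⟨z, F, φ, hφ, h0, hf⟩ := hd
  have e0 := M9_e0 (h := h) hf g i j
  rw [M9_Th (LR (𝔉.copies n) (β.copies n).ne e (Real.pi / 2)) c (M9_r1 β n e hφ) (z • h) g i j h1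
      (M9_e1 n h0 (z • h) g i j e0),
    M9_Th (L4 β n hq e) c (M9_r2 β n hq e hφ h0) (z • h) g i j h2
      (M9_e2 Q (resW h0) (z • h) g i j e0)]

private theorem M9_sval (l : List (SDat Γ Y (Om 𝔉).compl.Pt)) :
    sval l ∈ cp Γ (Y × (Om 𝔉).compl.Pt) := by
  induction l with
  | nil => exact zero_mem _
  | cons d' l' ih' =>
    have : sval (d' :: l') = d'.gen + sval l' := by simp [sval]
    rw [this]
    exact add_mem (M9_gmem _ _ _ _) ih'

private theorem M9_list (hq : ∀ (g : Γ) i, q (g • i) = g • q i) (e : Cpy n C ↪ ℕ)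
    (c : ℕ × Bs (Cpy n C) ≃ ℕ) (l : List (SDat Γ Y (Om 𝔉).compl.Pt))
    (hl : ∀ d ∈ l, d.φ ∈ M9_G 𝔉)
    (h1 : pull (pY 𝔉 n Y) (extF (oW 𝔉 Y) (sval l)) ∈ cp Γ (Y × Pow (Cpy n C)))
    (h2 : pull (Prod.map id Prod.fst) (sval l) ∈ cp Γ (Y × AW Q 𝔉)) :
    (LR (𝔉.copies n) (β.copies n).ne e (Real.pi / 2)).Th c
        ⟨pull (pY 𝔉 n Y) (extF (oW 𝔉 Y) (sval l)), h1⟩ =
      (L4 β n hq e).Th c ⟨pull (Prod.map id Prod.fst) (sval l), h2⟩ := by
  induction l with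
  | nil =>
    have s1 : (⟨pull (pY 𝔉 n Y) (extF (oW 𝔉 Y) (sval [])), h1⟩ :
        cp Γ (Y × Pow (Cpy n C))) = 0 := Subtype.ext (by
      change pull (pY 𝔉 n Y) (extF (oW 𝔉 Y) 0) = 0
      rw [map_zero, map_zero])
    have s2 : (⟨pull (Prod.map id Prod.fst) (sval []), h2⟩ :
        cp Γ (Y × AW Q 𝔉)) = 0 := Subtype.ext (by
      change pull (Prod.map id Prod.fst) 0 = 0
      rw [map_zero])
    rw [s1, s2, map_zero, map_zero]
  | cons d l ih =>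
    have hg : d.gen ∈ cp Γ (Y × (Om 𝔉).compl.Pt) := M9_gmem _ _ _ _
    have hv : sval l ∈ cp Γ (Y × (Om 𝔉).compl.Pt) := M9_sval l
    have hc : sval (d :: l) = d.gen + sval l := by simp [sval]
    have s1 : (⟨pull (pY 𝔉 n Y) (extF (oW 𝔉 Y) (sval (d :: l))), h1⟩ :
        cp Γ (Y × Pow (Cpy n C))) =
          ⟨pull (pY 𝔉 n Y) (extF (oW 𝔉 Y) d.gen), M9_h1 n hg⟩ +
            ⟨pull (pY 𝔉 n Y) (extF (oW 𝔉 Y) (sval l)), M9_h1 n hv⟩ := Subtype.ext (by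
      change pull (pY 𝔉 n Y) (extF (oW 𝔉 Y) (sval (d :: l))) =
        pull (pY 𝔉 n Y) (extF (oW 𝔉 Y) d.gen) + pull (pY 𝔉 n Y) (extF (oW 𝔉 Y) (sval l))
      rw [hc, map_add, map_add])
    have s2 : (⟨pull (Prod.map id Prod.fst) (sval (d :: l)), h2⟩ :
        cp Γ (Y × AW Q 𝔉)) = ⟨pull (Prod.map id Prod.fst) d.gen, M9_h2 Q hg⟩ +
          ⟨pull (Prod.map id Prod.fst) (sval l), M9_h2 Q hv⟩ := Subtype.ext (by
      change pull (Prod.map id Prod.fst) (sval (d :: l)) =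
        pull (Prod.map id Prod.fst) d.gen + pull (Prod.map id Prod.fst) (sval l)
      rw [hc, map_add])
    rw [s1, s2, map_add, map_add, M9_gen β n hq e c d (hl d List.mem_cons_self),
      ih (fun d' hd' => hl d' (List.mem_cons_of_mem _ hd')) (M9_h1 n hv) (M9_h2 Q hv)]

/-- PROOF: the elements of the form `sval l` with functions `φ = z • resW h0` are dense in `cp Γ (Y × W)` (`exists_sval` with `exists_cylW`); all maps are additive and contractive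
(`norm_extF`, `pull_norm_le`, `norm_Th_le`). For such a generator: `extF_gen`, `pull_gen`: the left side is `Th (gen (tp h (cpP φ)) ..) = cov (sx h (Xo ..))`
(`Th_src`; `(cpP φ, Xo ..)` is in `RV`: `CylP.copies`), the right side is `Th (gen (tp h (tp (resW h0) 1)) ..) = cov (sx h (X4 φ 1))` (`RLip.one`), and `X4_one`. -/
theorem Th_L4 (hq : ∀ (g : Γ) i, q (g • i) = g • q i) (e : Cpy n C ↪ ℕ)
    (c : ℕ × Bs (Cpy n C) ≃ ℕ) (a : Fam Γ (Y × (Om 𝔉).compl.Pt)) (ha : a ∈ cp Γ (Y × (Om 𝔉).compl.Pt))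
    (h1 : pull (pY 𝔉 n Y) (extF (oW 𝔉 Y) a) ∈ cp Γ (Y × Pow (Cpy n C)))
    (h2 : pull (Prod.map id Prod.fst) a ∈ cp Γ (Y × AW Q 𝔉)) :
    (LR (𝔉.copies n) (β.copies n).ne e (Real.pi / 2)).Th c ⟨pull (pY 𝔉 n Y) (extF (oW 𝔉 Y) a), h1⟩ =
      (L4 β n hq e).Th c ⟨pull (Prod.map id Prod.fst) a, h2⟩ := by
  have key : ∀ ε : ℝ, 0 < ε → ‖(LR (𝔉.copies n) (β.copies n).ne e (Real.pi / 2)).Th c
      ⟨pull (pY 𝔉 n Y) (extF (oW 𝔉 Y) a), h1⟩ -
      (L4 β n hq e).Th c ⟨pull (Prod.map id Prod.fst) a, h2⟩‖ ≤ 2 * ε := by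
    intro ε hε
    obtain ⟨l, hl, hla⟩ := exists_sval (M9_dense β.ne) ha hε
    have hv : sval l ∈ cp Γ (Y × (Om 𝔉).compl.Pt) := M9_sval l
    have h3 := M9_list β n hq e c l hl (M9_h1 n hv) (M9_h2 Q hv)
    have h4 : ‖(LR (𝔉.copies n) (β.copies n).ne e (Real.pi / 2)).Th c
        (⟨pull (pY 𝔉 n Y) (extF (oW 𝔉 Y) a), h1⟩ -
          ⟨pull (pY 𝔉 n Y) (extF (oW 𝔉 Y) (sval l)), M9_h1 n hv⟩)‖ ≤ ε := by
      refine (LRep.norm_Th_le _ _ _).trans ?_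
      change ‖pull (pY 𝔉 n Y) (extF (oW 𝔉 Y) a) -
        pull (pY 𝔉 n Y) (extF (oW 𝔉 Y) (sval l))‖ ≤ ε
      rw [← map_sub, ← map_sub]
      refine (pull_norm_le _ _).trans ?_
      rw [norm_extF isOpenEmbedding_oW.injective]
      exact hla
    have h5 : ‖(L4 β n hq e).Th c
        (⟨pull (Prod.map id Prod.fst) a, h2⟩ -
          ⟨pull (Prod.map id Prod.fst) (sval l), M9_h2 Q hv⟩)‖ ≤ ε := by
      refine (LRep.norm_Th_le _ _ _).trans ?_
      change ‖pull (Prod.map id Prod.fst) a - pull (Prod.map id Prod.fst) (sval l)‖ ≤ ε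
      rw [← map_sub]
      exact (pull_norm_le _ _).trans hla
    rw [map_sub] at h4 h5
    rw [h3] at h4
    have h6 := norm_sub_le_norm_sub_add_norm_sub
      ((LR (𝔉.copies n) (β.copies n).ne e (Real.pi / 2)).Th c
        ⟨pull (pY 𝔉 n Y) (extF (oW 𝔉 Y) a), h1⟩)
      ((L4 β n hq e).Th c ⟨pull (Prod.map id Prod.fst) (sval l), M9_h2 Q hv⟩)
      ((L4 β n hq e).Th c ⟨pull (Prod.map id Prod.fst) a, h2⟩)
    rw [norm_sub_rev] at h5
    linarith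
  have h7 : ‖(LR (𝔉.copies n) (β.copies n).ne e (Real.pi / 2)).Th c
      ⟨pull (pY 𝔉 n Y) (extF (oW 𝔉 Y) a), h1⟩ -
      (L4 β n hq e).Th c ⟨pull (Prod.map id Prod.fst) a, h2⟩‖ ≤ 0 := by
    refine le_of_forall_pos_le_add fun ε hε => ?_
    have h8 := key (ε / 2) (half_pos hε)
    linarith
  exact sub_eq_zero.1 (norm_le_zero_iff.1 h7)

/-- PROOF: the values of `extUnit`, `pullU` (`- 1`), and `Th_L4` for `v - 1` and `v⁻¹ - 1`; the cycles have the same `Pe`, `Qo`, `T`. -/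
theorem d_L4 (hq : ∀ (g : Γ) i, q (g • i) = g • q i) (w : Wt Γ (Cpy n C)) (e : Cpy n C ↪ ℕ)
    (c : ℕ × Bs (Cpy n C) ≃ ℕ) (v : GL1 (cp Γ (Y × (Om 𝔉).compl.Pt)))
    (u : GL1 (cp Γ (Y × Pow (Cpy n C))))
    (hu : (u : (Fam Γ (Y × Pow (Cpy n C)))ˣ) = pullU (pY 𝔉 n Y) (extUnit (extF (oW 𝔉 Y)) v))
    (v' : GL1 (cp Γ (Y × AW Q 𝔉)))
    (hv' : (v' : (Fam Γ (Y × AW Q 𝔉))ˣ) = pullU (Prod.map id Prod.fst) (v : (Fam Γ _)ˣ)) :
    ((LR (𝔉.copies n) (β.copies n).ne e (Real.pi / 2)).cyc (LR_ok _ _ e _) w c).d u =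
      ((L4 β n hq e).cyc (L4_ok β n hq e) w c).d v' := by
  have hu1 : ((u : (Fam Γ (Y × Pow (Cpy n C)))ˣ) : Fam Γ (Y × Pow (Cpy n C))) - 1 =
      pull (pY 𝔉 n Y) (extF (oW 𝔉 Y)
        (((v : (Fam Γ (Y × (Om 𝔉).compl.Pt))ˣ) : Fam Γ (Y × (Om 𝔉).compl.Pt)) - 1)) := by
    rw [hu, pullU_val]
    change pull (pY 𝔉 n Y) (1 + extF (oW 𝔉 Y)
        (((v : (Fam Γ (Y × (Om 𝔉).compl.Pt))ˣ) : Fam Γ (Y × (Om 𝔉).compl.Pt)) - 1)) - 1 = _
    rw [map_add, map_one, add_sub_cancel_left]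
  have hu2 : (((u : (Fam Γ (Y × Pow (Cpy n C)))ˣ)⁻¹ : (Fam Γ (Y × Pow (Cpy n C)))ˣ) :
      Fam Γ (Y × Pow (Cpy n C))) - 1 = pull (pY 𝔉 n Y) (extF (oW 𝔉 Y)
        ((((v : (Fam Γ (Y × (Om 𝔉).compl.Pt))ˣ)⁻¹ : (Fam Γ (Y × (Om 𝔉).compl.Pt))ˣ) :
          Fam Γ (Y × (Om 𝔉).compl.Pt)) - 1)) := by
    rw [hu, ← map_inv, ← map_inv, pullU_val]
    change pull (pY 𝔉 n Y) (1 + extF (oW 𝔉 Y)
        ((((v : (Fam Γ (Y × (Om 𝔉).compl.Pt))ˣ)⁻¹ : (Fam Γ (Y × (Om 𝔉).compl.Pt))ˣ) :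
          Fam Γ (Y × (Om 𝔉).compl.Pt)) - 1)) - 1 = _
    rw [map_add, map_one, add_sub_cancel_left]
  have hv1 : ((v' : (Fam Γ (Y × AW Q 𝔉))ˣ) : Fam Γ (Y × AW Q 𝔉)) - 1 =
      pull (Prod.map id Prod.fst)
        (((v : (Fam Γ (Y × (Om 𝔉).compl.Pt))ˣ) : Fam Γ (Y × (Om 𝔉).compl.Pt)) - 1) := by
    rw [hv', pullU_val, map_sub, map_one]
  have hv2 : (((v' : (Fam Γ (Y × AW Q 𝔉))ˣ)⁻¹ : (Fam Γ (Y × AW Q 𝔉))ˣ) :
      Fam Γ (Y × AW Q 𝔉)) - 1 = pull (Prod.map id Prod.fst)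
        ((((v : (Fam Γ (Y × (Om 𝔉).compl.Pt))ˣ)⁻¹ : (Fam Γ (Y × (Om 𝔉).compl.Pt))ˣ) :
          Fam Γ (Y × (Om 𝔉).compl.Pt)) - 1) := by
    rw [hv', ← map_inv, pullU_val, map_sub, map_one]
  have t1 : ∀ p p', (LR (𝔉.copies n) (β.copies n).ne e (Real.pi / 2)).Th c
      ⟨((u : (Fam Γ (Y × Pow (Cpy n C)))ˣ) : Fam Γ (Y × Pow (Cpy n C))) - 1, p⟩ =
      (L4 β n hq e).Th c ⟨((v' : (Fam Γ (Y × AW Q 𝔉))ˣ) : Fam Γ (Y × AW Q 𝔉)) - 1, p'⟩ := by
    rw [hu1, hv1]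
    intro p p'
    exact Th_L4 β n hq e c _ v.2.1 p p'
  have t2 : ∀ p p', (LR (𝔉.copies n) (β.copies n).ne e (Real.pi / 2)).Th c
      ⟨(((u : (Fam Γ (Y × Pow (Cpy n C)))ˣ)⁻¹ : (Fam Γ (Y × Pow (Cpy n C)))ˣ) :
        Fam Γ (Y × Pow (Cpy n C))) - 1, p⟩ =
      (L4 β n hq e).Th c ⟨(((v' : (Fam Γ (Y × AW Q 𝔉))ˣ)⁻¹ : (Fam Γ (Y × AW Q 𝔉))ˣ) :
        Fam Γ (Y × AW Q 𝔉)) - 1, p'⟩ := by
    rw [hu2, hv2]
    intro p p'
    exact Th_L4 β n hq e c _ v.2.2 p p'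
  refine Units.ext ?_
  change (1 + m1 c (cst Pp) * (LR (𝔉.copies n) (β.copies n).ne e (Real.pi / 2)).Th c
      ⟨_, u.2.1⟩) * (1 + m1 c (cst (T1 w e)) * m1 c (cst Pm) *
      (LR (𝔉.copies n) (β.copies n).ne e (Real.pi / 2)).Th c ⟨_, u.2.2⟩ *
        m1 c (cst (T1 w e))) =
    (1 + m1 c (cst Pp) * (L4 β n hq e).Th c ⟨_, v'.2.1⟩) *
      (1 + m1 c (cst (T1 w e)) * m1 c (cst Pm) * (L4 β n hq e).Th c ⟨_, v'.2.2⟩ *
        m1 c (cst (T1 w e)))
  rw [t1 _ v'.2.1, t2 _ v'.2.2]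

end Pool.Agent.Lib.MP_aa9b81_an.Rc
end

end


section
/-!
# Rotated sites, part J1: vanishing of the charged part
-/

open scoped ENNReal Topology ZeroAtInfty
open Function Filter Set

noncomputable section

set_option linter.unusedSectionVars false

namespace Pool.Agent.Lib.MP_aa9b81_an.Rc

open Cut Hs

variable {Γ C I : Type} [Group Γ] [Countable Γ] [MulAction Γ C] [Countable C] [MulAction Γ I]
  [Countable I] [DecidableEq C] [DecidableEq I]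

variable {E : Type} [AddCommGroup E] [Module ℝ E] [TopologicalSpace E] [T2Space E]
  [ContinuousAdd E] [ContinuousSMul ℝ E] [DistribMulAction Γ E] [SMulCommClass Γ ℝ E]
  [ContinuousConstSMul Γ E] [LocallyConvexSpace ℝ E] {Q : ConvexSpace Γ E}

variable {𝔉 : Fibr Γ C I} (β : Bas 𝔉) {q : I → Q.Pt}

variable {Y : Type} [TopologicalSpace Y] [MulAction Γ Y] [T2Space Y] [LocallyCompactSpace Y]
  [ContinuousConstSMul Γ Y]

/-- PROOF: `exactSeq_closed` for the closed embedding `id × (Om 𝔉).val` (`isClosed_Om`, `InvSet.isClosedEmbedding_val`) and `oW` (`isOpenEmbedding_oW`); the ranges are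
complementary. `exact_middle` and `ExactSeq.exists_ext` (as in `TC/Inj`). -/
theorem exists_decomp (hA : PropA Γ) {a : (Fam Γ (Y × Pow C))ˣ} (ha : a ∈ GL1 (cp Γ (Y × Pow C)))
    (ha' : pullU (Prod.map id (Om 𝔉).val : Y × (Om 𝔉).Pt → Y × Pow C) a ∈
      E1 (cp Γ (Y × (Om 𝔉).Pt))) :
    ∃ v ∈ GL1 (cp Γ (Y × (Om 𝔉).compl.Pt)),
      (extUnit (extF (oW 𝔉 Y)) v)⁻¹ * a ∈ E1 (cp Γ (Y × Pow C)) := by
  have hex : ExactSeq (extF (oW 𝔉 Y) : Fam Γ (Y × (Om 𝔉).compl.Pt) →ₙ+* Fam Γ (Y × Pow C))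
      (pull (Prod.map id (Om 𝔉).val : Y × (Om 𝔉).Pt → Y × Pow C))
      (cp Γ (Y × (Om 𝔉).compl.Pt)) (cp Γ (Y × Pow C)) (cp Γ (Y × (Om 𝔉).Pt)) := by
    refine exactSeq_closed hA (Topology.IsClosedEmbedding.id.prodMap
      ((Om 𝔉).isClosedEmbedding_val (isClosed_Om 𝔉))) (fun g x => rfl) isOpenEmbedding_oW
      (fun g x => rfl) ?_
    unfold oW
    rw [Set.range_prodMap, Set.range_prodMap, InvSet.range_val, InvSet.range_val, Set.range_id]
    ext ⟨x, y⟩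
    simp [InvSet.compl]
  obtain ⟨w, hw, hw1, hw2⟩ := exact_middle isClosed_cp isClosed_cp hex.lift ha ha'
  obtain ⟨v, hv, hvw⟩ := hex.exists_ext hw hw1
  refine ⟨v, hv, ?_⟩
  rw [hvw]
  exact hw2

/-- PROOF: 1. `v₁ = pullG (isProperMap_id_fst Q _) .. v ∈ GL1 (cp Γ (Y × AW Q 𝔉))` is in `E1` by `hK`. `exists_test` with `G = G4 Q 𝔉` (`denseG4`) gives `F`, `δ`; `exists_large`
gives `n`. Choose `e : Cpy n C ↪ ℕ`, `c` (`exists_codes`), `w : Wt Γ (Cpy n I)` (`exists_wt`), and the weight `(𝔉.copies n).wt w`.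
2. `u = pullG isProperMap_pY .. (extUnit (extF oW) v)`; by `d_L4` the unit `(LR .. (π/2)).d u` is `(L4 ..).d v₁`. It is in `GL1 AE` (`LRep.d_mem`, `LR_near`), so in `E1 (cp Γ Y)` by the test.
3. `LR_path`: `(LR .. 0).d u ∈ E1`. `E1_of_d_zero` for `𝔉.copies n` and `x ↦ q (𝔉.p x.el)` (with `hK` for `L = Pow (Cpy n C)`): `pullU s0 u ∈ E1`, and
`pullU (s0 (Cpy n C) Y) (pullU (pY ..) x) = pullU (s0 C Y) x` (`BA1_pullU_comp`, `psiC_zero`). -/
theorem pull_s0_ext_mem (β : Bas 𝔉) (hq : ∀ (g : Γ) i, q (g • i) = g • q i)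
    (hK : ∀ (L : Type) [TopologicalSpace L] [T2Space L] [LocallyCompactSpace L] [MulAction Γ L]
      [ContinuousConstSMul Γ L], GL1 (cp Γ (Y × (L × Q.Pt))) ≤ E1 (cp Γ (Y × (L × Q.Pt))))
    {v : (Fam Γ (Y × (Om 𝔉).compl.Pt))ˣ} (hv : v ∈ GL1 (cp Γ (Y × (Om 𝔉).compl.Pt))) :
    pullU (s0 C Y) (extUnit (extF (oW 𝔉 Y)) v) ∈ E1 (cp Γ Y) := by
  obtain ⟨v₁, hv₁⟩ : ∃ v₁ : GL1 (cp Γ (Y × AW Q 𝔉)), (v₁ : (Fam Γ (Y × AW Q 𝔉))ˣ) =
      pullU (Prod.map id Prod.fst) v :=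
    ⟨pullG (isProperMap_id_fst (Y := Y) Q (Om 𝔉).compl.Pt) (fun _ _ => rfl) ⟨v, hv⟩, rfl⟩
  have hv₁E : (v₁ : (Fam Γ (Y × AW Q 𝔉))ˣ) ∈ E1 (cp Γ (Y × AW Q 𝔉)) :=
    hK (Om 𝔉).compl.Pt v₁.2
  have hG : DenseG (G4 Q 𝔉) := fun f ε hε => denseG4 β.ne f hε
  obtain ⟨F, δ, hF, hδ, htest⟩ := exists_test (Y := Y) hG v₁ hv₁E
  obtain ⟨n, hn⟩ := exists_large (Y := Y) β hq F hF hδ
  obtain ⟨⟨c⟩, -⟩ := exists_codes (Cpy n C)
  obtain ⟨e⟩ : Nonempty (Cpy n C ↪ ℕ) :=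
    ⟨⟨(exists_injective_nat (Cpy n C)).choose, (exists_injective_nat (Cpy n C)).choose_spec⟩⟩
  obtain ⟨w⟩ := exists_wt Γ (Cpy n I)
  have hU : extUnit (extF (oW 𝔉 Y)) v ∈ GL1 (cp Γ (Y × Pow C)) :=
    extUnit_mem_GL1 (extF_mem_cp isOpenEmbedding_oW (oW_smul (𝔉 := 𝔉) (Y := Y))) hv
  obtain ⟨u, hu⟩ : ∃ u : GL1 (cp Γ (Y × Pow (Cpy n C))),
      (u : (Fam Γ (Y × Pow (Cpy n C)))ˣ) = pullU (pY 𝔉 n Y) (extUnit (extF (oW 𝔉 Y)) v) :=
    ⟨pullG (isProperMap_pY n) (pY_smul n) ⟨_, hU⟩, rfl⟩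
  have hd := d_L4 β n hq ((𝔉.copies n).wt w) e c ⟨v, hv⟩ u hu v₁ hv₁
  have hmem : ((L4 β n hq e).cyc (L4_ok β n hq e) ((𝔉.copies n).wt w) c).d v₁ ∈
      GL1 (AE c (sact e : SAct Γ (Bs (Cpy n C))) (U1 (Cpy n C) Y)) := by
    rw [← hd]
    exact LRep.d_mem _ (LR_ok _ _ e _) (LR_near _ _ _ _ _) c u
  have h1 := htest (Cpy n C) e ((𝔉.copies n).wt w) c (L4 β n hq e) (L4_ok β n hq e) (hn w e) hmem
  rw [← hd] at h1
  have h2 := LR_path (𝔉.copies n) (β.copies n).ne ((𝔉.copies n).wt w) e c u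
  have h3 := mul_mem h1 (inv_mem h2)
  rw [mul_inv_rev, inv_inv, mul_inv_cancel_left] at h3
  have hq' : ∀ (g : Γ) (x : Cpy n C), q (𝔉.p (g • x).el) = g • q (𝔉.p x.el) := by
    intro g x
    rw [← hq, ← 𝔉.smul]
    rfl
  have h4 := E1_of_d_zero (𝔉.copies n) (β.copies n).ne Q (q := fun x => q (𝔉.p x.el)) hq'
    (hK (Pow (Cpy n C))) ((𝔉.copies n).wt w) c e u h3
  rw [hu, ← BA1_pullU_comp] at h4
  exact h4

/-- INJECTIVITY. PROOF: `a = pullU Prod.fst u ∈ GL1 (cp Γ (Y × Pow C))` (the projection is proper); `exists_decomp` (`fst ∘ (id × val) = fst`). `pullU s0 a = u`, and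
`pullU s0` maps `E1` to `E1` (`isProperMap_s0`). With `pull_s0_ext_mem`: `u = pullU s0 (ext v) * pullU s0 ((ext v)⁻¹ * a) ∈ E1`. -/
theorem inj_Om (β : Bas 𝔉) (hA : PropA Γ) (hq : ∀ (g : Γ) i, q (g • i) = g • q i)
    (hK : ∀ (L : Type) [TopologicalSpace L] [T2Space L] [LocallyCompactSpace L] [MulAction Γ L]
      [ContinuousConstSMul Γ L], GL1 (cp Γ (Y × (L × Q.Pt))) ≤ E1 (cp Γ (Y × (L × Q.Pt))))
    {u : (Fam Γ Y)ˣ} (hu : u ∈ GL1 (cp Γ Y))
    (hu' : pullU (Prod.fst : Y × (Om 𝔉).Pt → Y) u ∈ E1 (cp Γ (Y × (Om 𝔉).Pt))) :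
    u ∈ E1 (cp Γ Y) := by
  have hfst : IsProperMap (Prod.fst : Y × Pow C → Y) := isProperMap_fst_of_compactSpace
  have ha : pullU (Prod.fst : Y × Pow C → Y) u ∈ GL1 (cp Γ (Y × Pow C)) :=
    BA1_mem_GL1 hfst (fun _ _ => rfl) hu
  have ha' : pullU (Prod.map id (Om 𝔉).val : Y × (Om 𝔉).Pt → Y × Pow C)
      (pullU (Prod.fst : Y × Pow C → Y) u) ∈ E1 (cp Γ (Y × (Om 𝔉).Pt)) := by
    rw [← BA1_pullU_comp]
    exact hu'
  obtain ⟨v, hv, hva⟩ := exists_decomp hA ha ha'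
  have h1 := pull_s0_ext_mem β hq hK hv
  have h2 := BA1_mem_E1 (isProperMap_s0 (C := C)) (s0_smul (C := C)) hva
  rw [map_mul, map_inv] at h2
  have h3 := mul_mem h1 h2
  rw [mul_inv_cancel_left, ← BA1_pullU_comp] at h3
  exact h3

end Pool.Agent.Lib.MP_aa9b81_an.Rc
end

end
end

section

/-!
# Total cutting theorem: the theorem
-/

noncomputable section

namespace Pool.Agent.Lib.MP_aa9b81_an.Cut

open scoped ENNReal Topology ZeroAtInfty
open Filter Topology Set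

theorem metrizable_pow (I : Type) [Countable I] : TopologicalSpace.MetrizableSpace (Pow I) := by
  have h1 : SecondCountableTopology (Pow I) :=
    inferInstanceAs (SecondCountableTopology (I → Bool))
  exact TopologicalSpace.metrizableSpace_of_t3_secondCountable _

/-- The cut space is totally disconnected if the functions separate the points well. -/
theorem totallyDisconnected_RR {Γ X : Type} [Group Γ] [MulAction Γ X] [TopologicalSpace X]
    {f : ℕ → X → ℝ} (hs : ∀ x y : X, x ≠ y → ∃ m, 1 < f m x ∧ f m y < -1) :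
    TotallyDisconnectedSpace (RR Γ f).Pt := by
  have hVc : Continuous (RR Γ f).val := (RR Γ f).continuous_val
  refine ⟨fun S _ hS a ha b hb => ?_⟩
  have hconst : ∀ q : Idx Γ, ((RR Γ f).val a).2 q = ((RR Γ f).val b).2 q := by
    intro q
    have h1 : Continuous fun p => ((RR Γ f).val p).2 q :=
      (Pow.continuous_eval q).comp (continuous_snd.comp hVc)
    have h2 := (hS.image _ h1.continuousOn).subsingleton
    exact h2 (mem_image_of_mem _ ha) (mem_image_of_mem _ hb)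
  apply (RR Γ f).val_injective
  refine Prod.ext ?_ (funext hconst)
  by_contra hne
  obtain ⟨m, h1, h2⟩ := hs _ _ hne
  have e1 := ((RR Γ f).val_mem a (m, 1)).1 (by
    change 1 < f m ((1 : Γ)⁻¹ • _)
    rw [inv_one, one_smul]
    exact h1)
  have e2 := ((RR Γ f).val_mem b (m, 1)).2 (by
    change f m ((1 : Γ)⁻¹ • _) < -1
    rw [inv_one, one_smul]
    exact h2)
  have e3 := hconst (m, 1)
  rw [e1, e2] at e3
  exact Bool.false_ne_true e3.symm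

/-- TOTAL CUTTING. -/
theorem total_cutting (Γ : Type) [Group Γ] [Countable Γ] (X : Type)
    [TopologicalSpace X] [TopologicalSpace.MetrizableSpace X] [LocallyCompactSpace X]
    [SigmaCompactSpace X] [MulAction Γ X] [ContinuousConstSMul Γ X] :
    ∃ (Z : Type) (_ : TopologicalSpace Z) (_ : MulAction Γ Z) (p : Z → X),
      IsProperMap p ∧ (∀ (g : Γ) z, p (g • z) = g • p z) ∧ Function.Surjective p ∧
      ContinuousConstSMul Γ Z ∧ TopologicalSpace.MetrizableSpace Z ∧ LocallyCompactSpace Z ∧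
      SigmaCompactSpace Z ∧ TotallyDisconnectedSpace Z ∧
      (∀ d, DimLE X d → (∀ x : X, MulAction.stabilizer Γ x = ⊥) →
        ∀ x, (p ⁻¹' {x}).encard ≤ 2 ^ d) ∧
      ∀ (E : Type) [AddCommGroup E] [Module ℝ E] [TopologicalSpace E] [T2Space E]
        [ContinuousAdd E] [ContinuousSMul ℝ E] [DistribMulAction Γ E] [SMulCommClass Γ ℝ E]
        [ContinuousConstSMul Γ E] (Q : ConvexSpace Γ E), PropA Γ →
        ∀ j, IsoU Γ (Prod.map p (id : Cone Q × Cube (j + 1) → Cone Q × Cube (j + 1))) := by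
  classical
  obtain ⟨f, hf, hsep, hgen⟩ : ∃ f : ℕ → X → ℝ, (∀ m, Continuous (f m)) ∧ SepF f ∧
      ∀ d, DimLE X d → GenLE Γ f d := by
    by_cases hd : ∃ d, DimLE X d
    · obtain ⟨f, hf, hgen, hsep⟩ := exists_general_position (Γ := Γ) (Nat.find_spec hd)
      refine ⟨f, hf, hsep, fun d hd' => ?_⟩
      intro x F h1 h2
      exact (hgen x F h1 h2).trans (Nat.find_min' hd hd')
    · obtain ⟨f, hf, hsep⟩ := exists_separating (X := X)
      refine ⟨f, hf, fun x y hxy => ?_, fun d hd' => absurd ⟨d, hd'⟩ hd⟩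
      obtain ⟨m, h1, h2⟩ := hsep x y hxy
      exact ⟨m, by linarith, by linarith⟩
  have hRc : IsClosed (RZ Γ f).carrier := isClosed_RZ hf
  have hval : IsClosedEmbedding (RZ Γ f).val := (RZ Γ f).isClosedEmbedding_val hRc
  have hp : IsProperMap (fun z : (RZ Γ f).Pt => ((RZ Γ f).val z).1) := isProperMap_prP_aux _ hRc
  have he : ∀ (g : Γ) (z : (RZ Γ f).Pt), ((RZ Γ f).val (g • z)).1 = g • ((RZ Γ f).val z).1 :=
    fun _ _ => rfl
  have hmC := metrizable_pow (Idx Γ)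
  refine ⟨(RZ Γ f).Pt, inferInstance, inferInstance, fun z => ((RZ Γ f).val z).1, hp, he,
    surjective_RZ f, inferInstance, hval.isEmbedding.metrizableSpace,
    InvSet.locallyCompactSpace _ hRc.isLocallyClosed, hval.sigmaCompactSpace,
    totallyDisconnected_RZ hsep, ?_, ?_⟩
  · intro d hd hst x
    exact encard_fibre_RZ_le (hgen d hd) hst x
  · intro E _ _ _ _ _ _ _ _ _ Q hA j
    rw [← isoU_cube hp he j]
    exact isoU_RZ (V := Cube j) Q hA hf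

section Main

variable {Γ E : Type} [Group Γ] [Countable Γ]
  [AddCommGroup E] [Module ℝ E] [TopologicalSpace E] [T2Space E] [ContinuousAdd E]
  [ContinuousSMul ℝ E] [DistribMulAction Γ E] [SMulCommClass Γ ℝ E] [ContinuousConstSMul Γ E]

/-- Subshifts of finite type suffice for compact metrizable spaces. -/
theorem sft_suffice_metrizable (Q : ConvexSpace Γ E) (hQ : AmenableAction Γ Q.Pt) (j : ℕ)
    (h : ∀ (n : ℕ) (F : Finset Γ) (P : Set (F → Fin n)),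
      GL1 (cp Γ (SFT Γ n F P × Cone Q × Cube j)) ≤ E1 (cp Γ (SFT Γ n F P × Cone Q × Cube j)))
    (h' : GL1 (cp Γ (SFT Γ 1 ∅ Set.univ × Cone Q × Cube (j + 1))) ≤
      E1 (cp Γ (SFT Γ 1 ∅ Set.univ × Cone Q × Cube (j + 1))))
    {X : Type} [TopologicalSpace X] [TopologicalSpace.MetrizableSpace X] [LocallyCompactSpace X]
    [SigmaCompactSpace X] [MulAction Γ X] [ContinuousConstSMul Γ X] :
    GL1 (cp Γ (X × Cone Q × Cube j)) ≤ E1 (cp Γ (X × Cone Q × Cube j)) := by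
  intro u hu
  obtain ⟨f, hf, hsep⟩ := exists_separating (X := X)
  have hcone := cone_locallyCompact Q
  have hRc : IsClosed (RR Γ f).carrier := isClosed_RR hf
  have : LocallyCompactSpace (RR Γ f).Pt := InvSet.locallyCompactSpace _ hRc.isLocallyClosed
  have : TotallyDisconnectedSpace (RR Γ f).Pt := totallyDisconnected_RR hsep
  exact inj_RZ Q (propA_of_convexSpace Q hQ) hf hu
    (sft_suffice_lc Q hQ j h h' (BA1_mem_GL1 (isProperMap_prP _ hRc) (fun g x => rfl) hu))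

/-- SUBSHIFTS OF FINITE TYPE SUFFICE. -/
theorem sft_suffice_total (Q : ConvexSpace Γ E) (hQ : AmenableAction Γ Q.Pt) (j : ℕ)
    (h : ∀ (n : ℕ) (F : Finset Γ) (P : Set (F → Fin n)),
      GL1 (cp Γ (SFT Γ n F P × Cone Q × Cube j)) ≤ E1 (cp Γ (SFT Γ n F P × Cone Q × Cube j)))
    (h' : GL1 (cp Γ (SFT Γ 1 ∅ Set.univ × Cone Q × Cube (j + 1))) ≤
      E1 (cp Γ (SFT Γ 1 ∅ Set.univ × Cone Q × Cube (j + 1))))
    {X : Type} [TopologicalSpace X] [T2Space X] [LocallyCompactSpace X] [MulAction Γ X]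
    [ContinuousConstSMul Γ X] :
    GL1 (cp Γ (X × Cone Q × Cube j)) ≤ E1 (cp Γ (X × Cone Q × Cube j)) := by
  have hcone := cone_locallyCompact Q
  refine GL1_le_E1_of_OP (V := Cone Q × Cube j) (propA_of_convexSpace Q hQ) ?_ ?_
  · exact GL1_le_E1_of_metrizable fun A _ _ _ _ _ => sft_suffice_metrizable Q hQ j h h'
  · obtain ⟨e⟩ := exists_cubeHomeo j
    exact GL1_le_E1_of_homeomorph
      ((Homeomorph.refl (SFT Γ 1 ∅ Set.univ)).prodCongr
        (((Homeomorph.refl (Cone Q)).prodCongr e).trans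
          (Homeomorph.prodAssoc (Cone Q) (Cube j) OO).symm)) (fun _ _ => rfl) h'

end Main

end Pool.Agent.Lib.MP_aa9b81_an.Cut
end
end
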