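import Pool.Agent.Lib.MP_aa9b81_an.Mg.G082
import Pool.Agent.Lib.MP_aa9b81_an.TC.FinF
import Pool.Agent.Lib.MP_aa9b81_an.Mg.G080
import Pool.Agent.Lib.MP_aa9b81_an.TC.Mis

section

/-!
# Random retracts

`Ω` is the free totally disconnected space. If `π : Y → B` is proper and equivariant, `s : B × Ω → Y`
is an equivariant map over `B`, and the projection `Y × Ω → Y` is Bernoulli homotopic to
`(y, ω) ↦ s (π y, ω)`, then `π` induces isomorphisms.
-/

noncomputable section

namespace Pool.Agent.Lib.MP_aa9b81_an.Cut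

open scoped ENNReal Topology ZeroAtInfty
open Filter Topology Set MulAction

/-- The map `Y × Ω → B × Ω` induced by a map `Y → B`. -/
def XOm {Γ Y B : Type} [Group Γ] [MulAction Γ Y] [MulAction Γ B] (π : Y → B)
    (z : (XO Γ Y).Pt) : (XO Γ B).Pt :=
  (XO Γ B).pt (π ((XO Γ Y).val z).1, ((XO Γ Y).val z).2) ((XO Γ Y).val_mem z)

/-- RANDOM RETRACTS. -/
theorem isoU_random (Γ : Type) [Group Γ] [Countable Γ]
    (E : Type) [AddCommGroup E] [Module ℝ E] [TopologicalSpace E] [T2Space E]
    [ContinuousAdd E] [ContinuousSMul ℝ E] [DistribMulAction Γ E] [SMulCommClass Γ ℝ E]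
    [ContinuousConstSMul Γ E] [LocallyConvexSpace ℝ E] (Q : ConvexSpace Γ E) (hA : PropA Γ)
    {I : Type} [Countable I] [MulAction Γ I] {q : I → Q.Pt}
    (hq : ∀ (g : Γ) i, q (g • i) = g • q i)
    {Y B : Type} [TopologicalSpace Y] [T2Space Y] [LocallyCompactSpace Y] [MulAction Γ Y]
    [ContinuousConstSMul Γ Y] [TopologicalSpace B] [T2Space B] [LocallyCompactSpace B]
    [MulAction Γ B] [ContinuousConstSMul Γ B] {π : Y → B} (hπp : IsProperMap π)
    (hπ : ∀ (g : Γ) y, π (g • y) = g • π y)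
    {s : (XO Γ B).Pt → Y} (hsc : Continuous s) (hse : ∀ (g : Γ) z, s (g • z) = g • s z)
    (hs : ∀ z, π (s z) = prO z)
    {H : (XO Γ Y).Pt × Pow I → Y} (hH : IsProperMap H) (hHe : ∀ (g : Γ) x, H (g • x) = g • H x)
    (h0 : ∀ z, H (z, Pow.cst I false) = prO z)
    (h1 : ∀ z, H (z, Pow.cst I true) = s (XOm π z)) (j : ℕ) :
    IsoU Γ (Prod.map π (id : Cone Q × Cube (j + 1) → Cone Q × Cube (j + 1))) := by
  have hcone := cone_locallyCompact Q
  -- the maps
  have hsp : IsProperMap s := by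
    refine isProperMap_of_comp_of_t2 hsc hπp.continuous ?_
    have e : π ∘ s = prO := funext hs
    rw [e]
    exact isProperMap_prO
  have hXl : LocallyCompactSpace (XO Γ Y).Pt :=
    InvSet.locallyCompactSpace _ isClosed_XO.isLocallyClosed
  let W := Cone Q × Cube (j + 1)
  have hvc : Continuous (XO Γ Y).val := (XO Γ Y).continuous_val
  have hπtc : Continuous (XOm (Γ := Γ) π) := Continuous.subtype_mk
    ((hπp.continuous.comp (continuous_fst.comp hvc)).prodMk (continuous_snd.comp hvc)) _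
  have hπte : ∀ (g : Γ) z, XOm (Γ := Γ) π (g • z) = g • XOm π z := by
    intro g z
    apply (XO Γ B).val_injective
    exact Prod.ext (hπ g _) rfl
  have hπtp : IsProperMap (XOm (Γ := Γ) π) := by
    refine isProperMap_of_comp_of_t2 hπtc isProperMap_prO.continuous ?_
    have e : (prO : (XO Γ B).Pt → B) ∘ XOm π = π ∘ prO := rfl
    rw [e]
    exact hπp.comp isProperMap_prO
  -- the maps times the identity
  have P1 : IsProperMap (Prod.map π (id : W → W)) := hπp.prodMap isProperMap_id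
  have E1' : ∀ (g : Γ) x, Prod.map π (id : W → W) (g • x) = g • Prod.map π (id : W → W) x :=
    fun g x => Prod.ext (hπ g x.1) rfl
  have P2 : IsProperMap (Prod.map s (id : W → W)) := hsp.prodMap isProperMap_id
  have E2 : ∀ (g : Γ) x, Prod.map s (id : W → W) (g • x) = g • Prod.map s (id : W → W) x :=
    fun g x => Prod.ext (hse g x.1) rfl
  have P3 : IsProperMap (Prod.map (XOm (Γ := Γ) π) (id : W → W)) := hπtp.prodMap isProperMap_id
  have E3 : ∀ (g : Γ) x, Prod.map (XOm (Γ := Γ) π) (id : W → W) (g • x) =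
    g • Prod.map (XOm (Γ := Γ) π) (id : W → W) x := fun g x => Prod.ext (hπte g x.1) rfl
  have hIY := isoU_prO Γ (X := Y) E Q hA j
  have hIB := isoU_prO Γ (X := B) E Q hA j
  have hsπ : ∀ u : (Fam Γ (B × W))ˣ, pullU (Prod.map s (id : W → W))
      (pullU (Prod.map π (id : W → W)) u) = pullU (Prod.map prO (id : W → W)) u := by
    intro u
    refine Units.ext (Fam.ext fun z => ?_)
    change (u : Fam Γ (B × W)) (π (s z.1), z.2) = (u : Fam Γ (B × W)) (prO z.1, z.2)
    rw [hs]
  constructor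
  · intro u hu hu'
    refine hIB.1 u hu ?_
    rw [← hsπ u]
    exact BA1_mem_E1 P2 E2 hu'
  · intro v hv
    obtain ⟨u, hu, huv⟩ := hIB.2 (pullU (Prod.map s (id : W → W)) v) (BA1_mem_GL1 P2 E2 hv)
    refine ⟨u, hu, ?_⟩
    obtain ⟨u', hu'⟩ : ∃ u', u' = pullU (Prod.map π (id : W → W)) u := ⟨_, rfl⟩
    have hu'G : u' ∈ GL1 (cp Γ (Y × W)) := by
      rw [hu']
      exact BA1_mem_GL1 P1 E1' hu
    change (pullU (Prod.map π (id : W → W)) u)⁻¹ * v ∈ _
    rw [← hu']
    refine hIY.1 _ (mul_mem (inv_mem hu'G) hv) ?_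
    change pullU (Prod.map prO (id : W → W)) (u'⁻¹ * v) ∈ _
    rw [map_mul, map_inv]
    -- the homotopy
    have h4 := homotopy_eq (B := (XO Γ Y).Pt) (V := Cube (j + 1)) Q hq hH hHe hv
    have h5 : pullU (Prod.map (fun b => H (b, Pow.cst I false)) (id : W → W)) v =
        pullU (Prod.map prO (id : W → W)) v := by
      refine Units.ext (Fam.ext fun z => ?_)
      change (v : Fam Γ (Y × W)) (H (z.1, Pow.cst I false), z.2) = _
      rw [h0]
      rfl
    have h6 : pullU (Prod.map (fun b => H (b, Pow.cst I true)) (id : W → W)) v =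
        pullU (Prod.map (XOm π) (id : W → W)) (pullU (Prod.map s (id : W → W)) v) := by
      refine Units.ext (Fam.ext fun z => ?_)
      change (v : Fam Γ (Y × W)) (H (z.1, Pow.cst I true), z.2) = _
      rw [h1]
      rfl
    have h7 : (pullU (Prod.map prO (id : W → W)) v)⁻¹ *
        pullU (Prod.map (XOm π) (id : W → W)) (pullU (Prod.map s (id : W → W)) v) ∈
          E1 (cp Γ ((XO Γ Y).Pt × W)) := by
      rw [← h5, ← h6]
      exact h4
    have h8 := BA1_mem_E1 P3 E3 huv
    rw [map_mul, map_inv] at h8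
    have h9 : pullU (Prod.map (XOm π) (id : W → W)) (pullU (Prod.map (prO : (XO Γ B).Pt → B) (id : W → W)) u) =
        pullU (Prod.map (prO : (XO Γ Y).Pt → Y) (id : W → W)) u' := by
      rw [hu']
      rfl
    have h10 : (pullU (Prod.map prO (id : W → W)) u')⁻¹ *
        pullU (Prod.map (XOm π) (id : W → W)) (pullU (Prod.map s (id : W → W)) v) ∈
          E1 (cp Γ ((XO Γ Y).Pt × W)) := by
      rw [← h9]
      exact h8
    have h11 := mul_mem h10 (inv_mem h7)
    have e : (pullU (Prod.map prO (id : W → W)) u')⁻¹ *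
        pullU (Prod.map (XOm π) (id : W → W)) (pullU (Prod.map s (id : W → W)) v) *
        ((pullU (Prod.map prO (id : W → W)) v)⁻¹ *
        pullU (Prod.map (XOm π) (id : W → W)) (pullU (Prod.map s (id : W → W)) v))⁻¹ =
        (pullU (Prod.map prO (id : W → W)) u')⁻¹ * pullU (Prod.map prO (id : W → W)) v := by group
    rwa [e] at h11

end Pool.Agent.Lib.MP_aa9b81_an.Cut
end
end

section

/-!
# Maximal sets without forbidden subsets: the retraction
-/

noncomputable section

namespace Pool.Agent.Lib.MP_aa9b81_an.Cut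

open scoped ENNReal Topology ZeroAtInfty
open Filter Topology Set MulAction

lemma continuous_of_eventually {Z : Type} [TopologicalSpace Z] {C : Type} {f : Z → Pow C}
    (h : ∀ c z, ∀ᶠ z' in 𝓝 z, f z' c = f z c) : Continuous f :=
  continuous_pi fun c => ((IsLocallyConstant.iff_eventually_eq _).2 (h c)).continuous

lemma eventually_eval {Z : Type} [TopologicalSpace Z] {C : Type} {f : Z → Pow C}
    (hf : Continuous f) (c : C) (z : Z) : ∀ᶠ z' in 𝓝 z, f z' c = f z c :=
  hf.continuousAt.eventually ((Pow.isOpen_eval c (f z c)).mem_nhds rfl)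

lemma decide_eq_decide' {p q : Prop} [Decidable p] [Decidable q] (h : p ↔ q) :
    decide p = decide q := by
  simp [h]

section Comp

variable {Γ B C : Type} [Group Γ] [TopologicalSpace B] [MulAction Γ B] [MulAction Γ C]
  {L : Type} [LinearOrder L] [WellFoundedLT L]

open scoped Classical

/-- The greedy completion. -/
def Forbidden.comp (F : Forbidden Γ B C) (b : B) (lab : C → L) (T : Pow C) : Pow C :=
  fun c => decide (grd (F.rel b) lab (fun c => T c = true) c)

lemma Forbidden.isFree_iff (F : Forbidden Γ B C) (b : B) (T : Pow C) :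
    IsFree (F.rel b) (fun c => T c = true) ↔ F.Free b T := by
  refine forall_congr' fun σ => forall_congr' fun _ => exists_congr fun c =>
    and_congr Iff.rfl ?_
  exact Iff.of_eq (Bool.not_eq_true _)

lemma Forbidden.comp_mem (F : Forbidden Γ B C) {b : B} {lab : C → L}
    (hlab : ∀ σ, F.rel b σ → ∀ c ∈ σ, ∀ c' ∈ σ, c' ≠ c → lab c' ≠ lab c) {T : Pow C}
    (hT : F.Free b T) : (b, F.comp b lab T) ∈ F.maxSets.carrier := by
  rw [F.mem_maxSets]
  refine ⟨?_, fun c hc => ?_⟩
  · intro σ hσ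
    obtain ⟨c, hc, h⟩ := grd_free (F.finite b) hlab ((F.isFree_iff b T).2 hT) σ hσ
    exact ⟨c, hc, decide_eq_false h⟩
  · have h1 : ¬ grd (F.rel b) lab (fun c => T c = true) c := of_decide_eq_false hc
    obtain ⟨σ, hσ, hcσ, h2⟩ := grd_max h1
    exact ⟨σ, hσ, hcσ, fun c' hc' hne => decide_eq_true (h2 c' hc' hne)⟩

lemma Forbidden.comp_eq (F : Forbidden Γ B C) {b : B} {lab : C → L}
    (hlab : ∀ σ, F.rel b σ → ∀ c ∈ σ, ∀ c' ∈ σ, c' ≠ c → lab c' ≠ lab c) {T : Pow C}
    (hT : (b, T) ∈ F.maxSets.carrier) : F.comp b lab T = T := by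
  rw [F.mem_maxSets] at hT
  funext c
  have h1 : grd (F.rel b) lab (fun c => T c = true) c ↔ T c = true := by
    refine grd_eq_of_max (F.finite b) hlab ((F.isFree_iff b T).2 hT.1) (fun c hc => ?_) c
    exact hT.2 c (by simpa using hc)
  unfold Forbidden.comp
  rcases h2 : T c with _ | _
  · rw [h2] at h1
    exact decide_eq_false (fun h => Bool.false_ne_true (h1.1 h))
  · exact decide_eq_true (h1.2 h2)

lemma Forbidden.rel_smul_iff (F : Forbidden Γ B C) (g : Γ) (b : B) (σ : Set C) :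
    F.rel (g • b) ((MulAction.toPerm g : C ≃ C) '' σ) ↔ F.rel b σ := by
  refine ⟨fun h => ?_, F.smul g b σ⟩
  have h1 := F.smul g⁻¹ _ _ h
  rw [inv_smul_smul, Set.image_image] at h1
  simpa using h1

lemma Forbidden.comp_smul (F : Forbidden Γ B C) (g : Γ) {b : B} {lab lab' : C → L}
    (hl : ∀ c, lab' (g • c) = lab c) (T : Pow C) :
    F.comp (g • b) lab' (g • T) = g • F.comp b lab T := by
  funext c
  change decide _ = decide _
  apply decide_eq_decide'
  obtain ⟨c', rfl⟩ : ∃ c', c = g • c' := ⟨g⁻¹ • c, (smul_inv_smul g c).symm⟩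
  rw [inv_smul_smul]
  refine grd_map (MulAction.toPerm g : C ≃ C) (F.rel_smul_iff g b) hl (fun c => ?_) c'
  change T (g⁻¹ • g • c) = true ↔ T c = true
  rw [inv_smul_smul]

lemma Forbidden.comp_eventually (F : Forbidden Γ B C) {Z : Type} [TopologicalSpace Z] {β : Z → B}
    (hβ : Continuous β) {lab : Z → C → L} (hl : ∀ c z, ∀ᶠ z' in 𝓝 z, lab z' c = lab z c)
    {T : Z → Pow C} (hT : Continuous T) :
    Continuous fun z => F.comp (β z) (lab z) (T z) := by
  refine continuous_of_eventually fun c z => ?_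
  have h1 := grd_eventually (F := fun z => F.rel (β z)) (lab := lab)
    (T := fun z c => T z c = true) (z := z)
    (fun σ => hβ.continuousAt.eventually (F.rel_eventually (β z) σ))
    (fun z' σ => F.finite (β z') σ)
    (fun c => (F.locallyFinite c).subset fun σ hσ => ⟨hσ.1, β hσ.2.choose, hσ.2.choose_spec⟩)
    (fun c => hl c z) (fun c => by
      filter_upwards [eventually_eval hT c z] with z' hz'
      rw [hz']) c
  filter_upwards [h1] with z' hz'
  exact decide_eq_decide' hz'

/-- Remove all forbidden subsets. -/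
def Forbidden.prune (F : Forbidden Γ B C) (b : B) (T : Pow C) : Pow C :=
  fun c => decide (T c = true ∧ ¬ ∃ σ, F.rel b σ ∧ c ∈ σ ∧ ∀ c' ∈ σ, T c' = true)

lemma Forbidden.prune_free (F : Forbidden Γ B C) (b : B) (T : Pow C) : F.Free b (F.prune b T) := by
  intro σ hσ
  by_contra hcon
  push Not at hcon
  have h1 : ∀ c ∈ σ, T c = true ∧ ¬ ∃ σ, F.rel b σ ∧ c ∈ σ ∧ ∀ c' ∈ σ, T c' = true := by
    intro c hc
    have h2 := hcon c hc
    rw [Bool.ne_false_iff] at h2
    exact of_decide_eq_true h2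
  obtain ⟨c₀, hc₀⟩ := F.nonempty b σ hσ
  exact (h1 c₀ hc₀).2 ⟨σ, hσ, hc₀, fun c' hc' => (h1 c' hc').1⟩

lemma Forbidden.prune_eq (F : Forbidden Γ B C) {b : B} {T : Pow C} (hT : F.Free b T) :
    F.prune b T = T := by
  funext c
  unfold Forbidden.prune
  rcases h : T c with _ | _
  · exact decide_eq_false fun h1 => Bool.false_ne_true h1.1
  · refine decide_eq_true ⟨rfl, ?_⟩
    rintro ⟨σ, hσ, -, h1⟩
    obtain ⟨c', hc', h2⟩ := hT σ hσ
    rw [h1 c' hc'] at h2
    exact Bool.false_ne_true h2.symm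

lemma Forbidden.prune_smul (F : Forbidden Γ B C) (g : Γ) (b : B) (T : Pow C) :
    F.prune (g • b) (g • T) = g • F.prune b T := by
  funext c
  change decide _ = decide _
  apply decide_eq_decide'
  refine and_congr Iff.rfl (not_congr ?_)
  constructor
  · rintro ⟨σ, hσ, hc, h⟩
    have h1 := F.smul g⁻¹ _ _ hσ
    rw [inv_smul_smul] at h1
    refine ⟨_, h1, mem_image_of_mem _ hc, ?_⟩
    rintro _ ⟨c', hc', rfl⟩
    exact h c' hc'
  · rintro ⟨σ, hσ, hc, h⟩
    refine ⟨_, F.smul g _ _ hσ, ⟨_, hc, smul_inv_smul g c⟩, ?_⟩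
    rintro _ ⟨c', hc', rfl⟩
    change T (g⁻¹ • g • c') = true
    rw [inv_smul_smul]
    exact h c' hc'

lemma Forbidden.continuous_prune (F : Forbidden Γ B C) {Z : Type} [TopologicalSpace Z] {β : Z → B}
    (hβ : Continuous β) {T : Z → Pow C} (hT : Continuous T) :
    Continuous fun z => F.prune (β z) (T z) := by
  refine continuous_of_eventually fun c z => ?_
  have hN : (⋃ σ ∈ {σ | c ∈ σ ∧ ∃ b, F.rel b σ}, σ).Finite :=
    (F.locallyFinite c).biUnion fun σ hσ => F.finite _ σ hσ.2.choose_spec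
  have h1 : ∀ᶠ z' in 𝓝 z, ∀ σ ∈ {σ | c ∈ σ ∧ ∃ b, F.rel b σ}, (F.rel (β z') σ ↔ F.rel (β z) σ) :=
    (eventually_all_finite (F.locallyFinite c)).2 fun σ _ =>
      hβ.continuousAt.eventually (F.rel_eventually (β z) σ)
  have h2 : ∀ᶠ z' in 𝓝 z, ∀ c' ∈ (⋃ σ ∈ {σ | c ∈ σ ∧ ∃ b, F.rel b σ}, σ), T z' c' = T z c' :=
    (eventually_all_finite hN).2 fun c' _ => eventually_eval hT c' z
  filter_upwards [h1, h2, eventually_eval hT c z] with z' e1 e2 e3
  apply decide_eq_decide'
  rw [e3]
  refine and_congr Iff.rfl (not_congr (exists_congr fun σ => ?_))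
  constructor
  · rintro ⟨a, b, h⟩
    have hσ : σ ∈ {σ | c ∈ σ ∧ ∃ b, F.rel b σ} := ⟨b, _, a⟩
    exact ⟨(e1 σ hσ).1 a, b, fun c' hc' => by rw [← e2 c' (mem_biUnion hσ hc')]; exact h c' hc'⟩
  · rintro ⟨a, b, h⟩
    have hσ : σ ∈ {σ | c ∈ σ ∧ ∃ b, F.rel b σ} := ⟨b, _, a⟩
    exact ⟨(e1 σ hσ).2 a, b, fun c' hc' => by rw [e2 c' (mem_biUnion hσ hc')]; exact h c' hc'⟩

/-- Replace `T₀` by `T₁` at the letters whose transporters are contained in `S`. -/
def mix (S : Pow Γ) (T₀ T₁ : Pow C) : Pow C :=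
  fun c => if ∀ g : Γ, g • orep Γ c = c → S g = true then T₁ c else T₀ c

lemma mix_false (T₀ T₁ : Pow C) : mix (Pow.cst Γ false) T₀ T₁ = T₀ := by
  funext c
  refine if_neg ?_
  intro h
  obtain ⟨g, hg⟩ := exists_smul_orep (Γ := Γ) c
  exact Bool.false_ne_true (h g hg)

lemma mix_true (T₀ T₁ : Pow C) : mix (Pow.cst Γ true) T₀ T₁ = T₁ := by
  funext c
  exact if_pos fun _ _ => rfl

lemma mix_smul (h : Γ) (S : Pow Γ) (T₀ T₁ : Pow C) :
    mix (h • S) (h • T₀) (h • T₁) = h • mix S T₀ T₁ := by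
  funext c
  change (if _ then _ else _) = (if _ then _ else _)
  refine if_congr ?_ rfl rfl
  constructor
  · intro H g hg
    rw [orep_smul] at hg
    have h1 := H (h * g) (by rw [mul_smul, hg, smul_inv_smul])
    change S (h⁻¹ • (h * g)) = true at h1
    rwa [smul_eq_mul, inv_mul_cancel_left] at h1
  · intro H g hg
    refine H (h⁻¹ * g) ?_
    rw [orep_smul, mul_smul, hg]

lemma continuous_mix (hC : ∀ c : C, Finite (stabilizer Γ c)) {Z : Type} [TopologicalSpace Z]
    {S : Z → Pow Γ} (hS : Continuous S) {T₀ T₁ : Z → Pow C} (h₀ : Continuous T₀)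
    (h₁ : Continuous T₁) : Continuous fun z => mix (S z) (T₀ z) (T₁ z) := by
  refine continuous_of_eventually fun c z => ?_
  have h2 : ∀ᶠ z' in 𝓝 z, ∀ g ∈ {g : Γ | g • orep Γ c = c}, S z' g = S z g :=
    (eventually_all_finite (finite_transporter hC _ c)).2 fun g _ => eventually_eval hS g z
  filter_upwards [h2, eventually_eval h₀ c z, eventually_eval h₁ c z] with z' e1 e2 e3
  change (if _ then _ else _) = (if _ then _ else _)
  rw [e2, e3]
  refine if_congr ?_ rfl rfl
  refine forall_congr' fun g => forall_congr' fun hg => ?_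
  rw [e1 g hg]

end Comp

/-- MAXIMAL SETS. -/
theorem isoU_maxSets (Γ : Type) [Group Γ] [Countable Γ]
    (E : Type) [AddCommGroup E] [Module ℝ E] [TopologicalSpace E] [T2Space E]
    [ContinuousAdd E] [ContinuousSMul ℝ E] [DistribMulAction Γ E] [SMulCommClass Γ ℝ E]
    [ContinuousConstSMul Γ E] [LocallyConvexSpace ℝ E] (Q : ConvexSpace Γ E) (hA : PropA Γ)
    {B C : Type} [TopologicalSpace B] [T2Space B] [LocallyCompactSpace B] [MulAction Γ B]
    [ContinuousConstSMul Γ B] [MulAction Γ C] (hC : ∀ c : C, Finite (stabilizer Γ c))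
    (F : Forbidden Γ B C) (j : ℕ) :
    IsoU Γ (Prod.map (fun z : F.maxSets.Pt => (F.maxSets.val z).1)
      (id : Cone Q × Cube (j + 1) → Cone Q × Cube (j + 1))) := by
  obtain ⟨_, hwf⟩ := exists_wellFoundedLT (Lab Γ C)
  obtain ⟨q₀, hq₀⟩ := Q.nonempty
  have hMc := F.isClosed_maxSets
  have hMl : LocallyCompactSpace F.maxSets.Pt := InvSet.locallyCompactSpace _ hMc.isLocallyClosed
  have hvc : Continuous F.maxSets.val := F.maxSets.continuous_val
  -- labels
  have hlab : ∀ {X : Type} [MulAction Γ X] (z : (XO Γ X).Pt) (b : B) (σ : Set C), F.rel b σ →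
      ∀ c ∈ σ, ∀ c' ∈ σ, c' ≠ c →
        F.lab ((XO Γ X).val z).2 c' ≠ F.lab ((XO Γ X).val z).2 c := by
    intro X _ z b σ hσ c hc c' hc' hne
    exact F.lab_ne ((XO Γ X).val_mem z) hσ hc hc' hne
  -- the section
  let s₂ : B → Pow (C₀' Γ) → Pow C := fun b ω => F.comp b (F.lab ω) (Pow.cst C false)
  have hfree : ∀ b, F.Free b (Pow.cst C false) := by
    intro b σ hσ
    obtain ⟨c, hc⟩ := F.nonempty b σ hσ
    exact ⟨c, hc, rfl⟩
  have hs₂ : ∀ {X : Type} [MulAction Γ X] (z : (XO Γ X).Pt) (b : B),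
      (b, s₂ b ((XO Γ X).val z).2) ∈ F.maxSets.carrier := fun z b =>
    F.comp_mem (hlab z b) (hfree b)
  have hs₂e : ∀ (g : Γ) b ω, s₂ (g • b) (g • ω) = g • s₂ b ω := by
    intro g b ω
    have h1 := F.comp_smul g (b := b) (F.lab_smul g ω) (Pow.cst C false)
    exact h1
  have hs₂c : ∀ {Z : Type} [TopologicalSpace Z] {β : Z → B} (_ : Continuous β)
      {ω : Z → Pow (C₀' Γ)} (_ : Continuous ω), Continuous fun z => s₂ (β z) (ω z) := by
    intro Z _ β hβ ω hω
    exact F.comp_eventually hβ (fun c z => hω.continuousAt.eventually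
      (F.lab_eventually hC (ω z) c)) continuous_const
  let s : (XO Γ B).Pt → F.maxSets.Pt := fun z =>
    F.maxSets.pt (prO z, s₂ (prO z) ((XO Γ B).val z).2) (hs₂ z _)
  have hprc : ∀ {X : Type} [TopologicalSpace X] [MulAction Γ X],
      Continuous (prO : (XO Γ X).Pt → X) := isProperMap_prO.continuous
  -- the homotopy
  let T : (XO Γ F.maxSets.Pt).Pt × Pow Γ → Pow C := fun x =>
    mix x.2 (F.maxSets.val (prO x.1)).2
      (s₂ (F.maxSets.val (prO x.1)).1 ((XO Γ F.maxSets.Pt).val x.1).2)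
  let H₂ : (XO Γ F.maxSets.Pt).Pt × Pow Γ → Pow C := fun x =>
    F.comp (F.maxSets.val (prO x.1)).1 (F.lab ((XO Γ F.maxSets.Pt).val x.1).2)
      (F.prune (F.maxSets.val (prO x.1)).1 (T x))
  let H : (XO Γ F.maxSets.Pt).Pt × Pow Γ → F.maxSets.Pt := fun x =>
    F.maxSets.pt ((F.maxSets.val (prO x.1)).1, H₂ x)
      (F.comp_mem (hlab x.1 _) (F.prune_free _ _))
  have hbc : Continuous fun x : (XO Γ F.maxSets.Pt).Pt × Pow Γ => (F.maxSets.val (prO x.1)).1 :=
    continuous_fst.comp (hvc.comp (hprc.comp continuous_fst))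
  have hωc : Continuous fun x : (XO Γ F.maxSets.Pt).Pt × Pow Γ =>
      ((XO Γ F.maxSets.Pt).val x.1).2 :=
    continuous_snd.comp ((XO Γ F.maxSets.Pt).continuous_val.comp continuous_fst)
  have hTc : Continuous T := continuous_mix hC continuous_snd
    (continuous_snd.comp (hvc.comp (hprc.comp continuous_fst))) (hs₂c hbc hωc)
  have hTe : ∀ (g : Γ) x, T (g • x) = g • T x := by
    intro g x
    have h1 := mix_smul g x.2 (F.maxSets.val (prO x.1)).2
      (s₂ (F.maxSets.val (prO x.1)).1 ((XO Γ F.maxSets.Pt).val x.1).2)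
    rw [← hs₂e] at h1
    exact h1
  have hHc : Continuous H := Continuous.subtype_mk (hbc.prodMk (F.comp_eventually hbc
    (fun c z => hωc.continuousAt.eventually (F.lab_eventually hC _ c))
    (F.continuous_prune hbc hTc))) _
  have hHe : ∀ (g : Γ) x, H (g • x) = g • H x := by
    intro g x
    apply F.maxSets.val_injective
    refine Prod.ext rfl ?_
    have h1 := F.comp_smul g (b := (F.maxSets.val (prO x.1)).1)
      (F.lab_smul g ((XO Γ F.maxSets.Pt).val x.1).2) (F.prune (F.maxSets.val (prO x.1)).1 (T x))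
    rw [← F.prune_smul, ← hTe] at h1
    exact h1
  have hπp : IsProperMap fun z : F.maxSets.Pt => (F.maxSets.val z).1 :=
    isProperMap_prP_aux _ hMc
  have hHp : IsProperMap H := by
    refine isProperMap_of_comp_of_t2 hHc hπp.continuous ?_
    have e : (fun z : F.maxSets.Pt => (F.maxSets.val z).1) ∘ H =
        (fun z : F.maxSets.Pt => (F.maxSets.val z).1) ∘ prO ∘ Prod.fst := rfl
    rw [e]
    exact hπp.comp (isProperMap_prO.comp isProperMap_fst_of_compactSpace)
  refine isoU_random Γ E Q hA (I := Γ) (q := fun g => g • ⟨q₀, hq₀⟩)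
    (fun g i => mul_smul g i _) hπp (fun g y => rfl) (s := s) ?_ ?_ (fun z => rfl) hHp hHe ?_ ?_ j
  · exact Continuous.subtype_mk (hprc.prodMk (hs₂c hprc
      (continuous_snd.comp (XO Γ B).continuous_val))) _
  · intro g z
    apply F.maxSets.val_injective
    exact Prod.ext rfl (hs₂e g _ _)
  · intro z
    apply F.maxSets.val_injective
    refine Prod.ext rfl ?_
    change F.comp _ _ (F.prune _ (mix (Pow.cst Γ false) _ _)) = _
    rw [mix_false, F.prune_eq (F.maxSets.val_mem (prO z)).1]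
    exact F.comp_eq (hlab z _) (F.maxSets.val_mem (prO z))
  · intro z
    apply F.maxSets.val_injective
    refine Prod.ext rfl ?_
    change F.comp _ _ (F.prune _ (mix (Pow.cst Γ true) _ _)) = _
    have h1 := hs₂ z (F.maxSets.val (prO z)).1
    rw [mix_true, F.prune_eq h1.1]
    exact F.comp_eq (hlab z _) h1

end Pool.Agent.Lib.MP_aa9b81_an.Cut
end
end

section

/-!
# Maximal sets without forbidden subsets: differences
-/

noncomputable section

namespace Pool.Agent.Lib.MP_aa9b81_an.Cut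

open scoped ENNReal Topology ZeroAtInfty
open Filter Topology Set MulAction

section Diff

variable {Γ P E : Type} [Group Γ] [AddCommGroup E] [Module ℝ E] [TopologicalSpace E] [T2Space E]
  [ContinuousAdd E] [ContinuousSMul ℝ E] [DistribMulAction Γ E] [SMulCommClass Γ ℝ E]
  [ContinuousConstSMul Γ E] (Q : ConvexSpace Γ E) [TopologicalSpace P] [T2Space P]
  [LocallyCompactSpace P] [MulAction Γ P] [ContinuousConstSMul Γ P]

/-- If the restriction to a closed invariant subset is an isomorphism, then the groups of the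
complement vanish. -/
theorem GL1_le_E1_diff (hA : PropA Γ) {A A' : InvSet Γ P} (h : A'.carrier ⊆ A.carrier)
    (hAc : IsClosed A.carrier) (hAc' : IsClosed A'.carrier)
    (hi : ∀ j : ℕ, IsoU Γ (Prod.map (InvSet.incl h)
      (id : Cone Q × Cube (j + 1) → Cone Q × Cube (j + 1)))) (j : ℕ) :
    GL1 (cp Γ ((A.diff A').Pt × Cone Q × Cube (j + 1))) ≤
      E1 (cp Γ ((A.diff A').Pt × Cone Q × Cube (j + 1))) := by
  have hcone := cone_locallyCompact Q
  have h1 : LocallyCompactSpace A.Pt := A.locallyCompactSpace hAc.isLocallyClosed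
  have h2 : LocallyCompactSpace A'.Pt := A'.locallyCompactSpace hAc'.isLocallyClosed
  have h3 : LocallyCompactSpace (A.diff A').Pt :=
    (A.diff A').locallyCompactSpace (hAc.isLocallyClosed.inter hAc'.isOpen_compl.isLocallyClosed)
  have hS : (A.diff A').carrier ⊆ A.carrier := fun x hx => hx.1
  have hci := InvSet.isClosedEmbedding_incl h hAc' (V := Cone Q × Cube (j + 1))
  have hcp : IsProperMap (InvSet.incl h) := by
    have h4 : IsClosedEmbedding (InvSet.incl h) := by
      refine ⟨InvSet.BA2_isEmbedding h, ?_⟩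
      rw [InvSet.BA2_range]
      exact hAc'.preimage A.continuous_val
    exact h4.isProperMap
  refine GL1_le_E1_of_surj (P := A.Pt × Cone Q × Cube (j + 1))
    (C := A'.Pt × Cone Q × Cube (j + 1)) hA hci (fun g x => rfl)
    (InvSet.isOpenEmbedding_incl hS rfl hAc') (fun g x => rfl)
    (InvSet.range_incl_compl hS h rfl) (hi j).1 ?_
  exact ((isoU_assoc (V := Cone Q × Cube (j + 1)) hcp (fun g x => rfl)).2
    ((isoU_cube (W := Cone Q) hcp (fun g x => rfl) (j + 1)).2 (hi (j + 1)))).2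

end Diff

/-- MAXIMAL SETS, differences. -/
theorem zero_maxSets_diff (Γ : Type) [Group Γ] [Countable Γ]
    (E : Type) [AddCommGroup E] [Module ℝ E] [TopologicalSpace E] [T2Space E]
    [ContinuousAdd E] [ContinuousSMul ℝ E] [DistribMulAction Γ E] [SMulCommClass Γ ℝ E]
    [ContinuousConstSMul Γ E] [LocallyConvexSpace ℝ E] (Q : ConvexSpace Γ E) (hA : PropA Γ)
    {B C : Type} [TopologicalSpace B] [T2Space B] [LocallyCompactSpace B] [MulAction Γ B]
    [ContinuousConstSMul Γ B] [MulAction Γ C] (hC : ∀ c : C, Finite (stabilizer Γ c))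
    (F F' : Forbidden Γ B C) (hF : F'.maxSets.carrier ⊆ F.maxSets.carrier) (j : ℕ) :
    GL1 (cp Γ ((F.maxSets.diff F'.maxSets).Pt × Cone Q × Cube (j + 1))) ≤
      E1 (cp Γ ((F.maxSets.diff F'.maxSets).Pt × Cone Q × Cube (j + 1))) := by
  refine GL1_le_E1_diff Q hA hF F.isClosed_maxSets F'.isClosed_maxSets (fun j => ?_) j
  have hp : IsProperMap fun z : F.maxSets.Pt => (F.maxSets.val z).1 :=
    isProperMap_prP_aux _ F.isClosed_maxSets
  have hcp : IsProperMap (InvSet.incl hF) := by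
    have h4 : IsClosedEmbedding (InvSet.incl hF) := by
      refine ⟨InvSet.BA2_isEmbedding hF, ?_⟩
      rw [InvSet.BA2_range]
      exact F'.isClosed_maxSets.preimage F.maxSets.continuous_val
    exact h4.isProperMap
  have h1 := isoU_maxSets Γ E Q hA hC F j
  have h2 := isoU_maxSets Γ E Q hA hC F' j
  have h3 : IsoU Γ (Prod.map (fun z : F.maxSets.Pt => (F.maxSets.val z).1)
      (id : Cone Q × Cube (j + 1) → Cone Q × Cube (j + 1)) ∘
      Prod.map (InvSet.incl hF) (id : Cone Q × Cube (j + 1) → Cone Q × Cube (j + 1))) := h2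
  exact IsoU.of_comp_left (hp.prodMap isProperMap_id) (fun g x => rfl)
    (hcp.prodMap isProperMap_id) (fun g x => rfl) h3 h1

end Pool.Agent.Lib.MP_aa9b81_an.Cut
end
end
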