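import Pool.Agent.Lib.MP_aa9b81_an.Mg.G059

section

/-!
# Continuous Bernoulli, part Va: generalised weighted maps, separated sets, partitions
-/

open scoped ENNReal Topology
open Function Filter

noncomputable section

namespace Pool.Agent.Lib.MP_aa9b81_an.Cb

open Cut Hs

section Gop

variable {Q Q' : Type}

/-- The data of a generalised weighted map `τ : Q' → Q`: over every point the squares of the weights have
sum at most `C²`. -/
structure GOK (τ : Q' → Q) (w : Q' → ℂ) (C : ℝ) : Prop where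
  nonneg : 0 ≤ C
  bdd : ∀ (β : Q) (A : Finset Q'), (∀ q ∈ A, τ q = β) → ∑ q ∈ A, ‖w q‖ ^ 2 ≤ C ^ 2

private theorem Va_summable (ξ : L2 Q) : Summable fun q => ‖(ξ : Q → ℂ) q‖ ^ 2 := by
  have h := (lp.memℓp ξ).summable (by simp)
  simpa using h

private theorem Va_sum_le {τ : Q' → Q} {w : Q' → ℂ} {C : ℝ} (h : GOK τ w C) (ξ : L2 Q)
    (A : Finset Q') : ∑ q ∈ A, ‖w q * (ξ : Q → ℂ) (τ q)‖ ^ 2 ≤
      C ^ 2 * ∑' q, ‖(ξ : Q → ℂ) q‖ ^ 2 := by
  classical
  have h1 := Finset.sum_fiberwise_of_maps_to (s := A) (t := A.image τ) (g := τ)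
    (fun q hq => Finset.mem_image_of_mem τ hq) (fun q => ‖w q * (ξ : Q → ℂ) (τ q)‖ ^ 2)
  rw [← h1]
  have h2 : ∀ β ∈ A.image τ, ∑ q ∈ A with τ q = β, ‖w q * (ξ : Q → ℂ) (τ q)‖ ^ 2 ≤
      C ^ 2 * ‖(ξ : Q → ℂ) β‖ ^ 2 := by
    intro β _
    have h3 : ∑ q ∈ A with τ q = β, ‖w q * (ξ : Q → ℂ) (τ q)‖ ^ 2 =
        (∑ q ∈ A with τ q = β, ‖w q‖ ^ 2) * ‖(ξ : Q → ℂ) β‖ ^ 2 := by
      rw [Finset.sum_mul]
      refine Finset.sum_congr rfl fun q hq => ?_
      rw [(Finset.mem_filter.1 hq).2, norm_mul, mul_pow]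
    rw [h3]
    gcongr
    exact h.bdd β _ fun q hq => (Finset.mem_filter.1 hq).2
  refine (Finset.sum_le_sum h2).trans ?_
  rw [← Finset.mul_sum]
  gcongr
  exact (Va_summable ξ).sum_le_tsum _ fun _ _ => by positivity

private theorem Va_summable' {τ : Q' → Q} {w : Q' → ℂ} {C : ℝ} (h : GOK τ w C) (ξ : L2 Q) :
    Summable fun q => ‖w q * (ξ : Q → ℂ) (τ q)‖ ^ 2 :=
  summable_of_sum_le (fun _ => by positivity) (Va_sum_le h ξ)

private theorem Va_memℓp {τ : Q' → Q} {w : Q' → ℂ} {C : ℝ} (h : GOK τ w C) (ξ : L2 Q) :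
    Memℓp (fun q => w q * (ξ : Q → ℂ) (τ q)) 2 := by
  refine memℓp_gen ?_
  simpa using Va_summable' h ξ

private theorem Va_norm_le {τ : Q' → Q} {w : Q' → ℂ} {C : ℝ} (h : GOK τ w C) (ξ : L2 Q) :
    ‖(⟨fun q => w q * (ξ : Q → ℂ) (τ q), Va_memℓp h ξ⟩ : L2 Q')‖ ≤ C * ‖ξ‖ := by
  have hC0 : 0 ≤ C := h.nonneg
  have h1 : ∑' q, ‖w q * (ξ : Q → ℂ) (τ q)‖ ^ 2 ≤ C ^ 2 * ∑' q, ‖(ξ : Q → ℂ) q‖ ^ 2 :=
    (Va_summable' h ξ).tsum_le_of_sum_le (Va_sum_le h ξ)
  have h2 : (0 : ℝ) < (2 : ℝ≥0∞).toReal := by simp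
  rw [lp.norm_eq_tsum_rpow h2, lp.norm_eq_tsum_rpow h2]
  have h3 : ∀ (R : Type) (η : R → ℂ), (∑' p, ‖η p‖ ^ (2 : ℝ≥0∞).toReal) = ∑' p, ‖η p‖ ^ 2 := by
    intro R η
    simp
  rw [h3 Q (ξ : Q → ℂ)]
  change (∑' q, ‖w q * (ξ : Q → ℂ) (τ q)‖ ^ (2 : ℝ≥0∞).toReal) ^ _ ≤ _
  rw [h3 Q' (fun q => w q * (ξ : Q → ℂ) (τ q))]
  have h4 : C = (C ^ 2) ^ (1 / (2 : ℝ≥0∞).toReal) := by
    rw [show (2 : ℝ≥0∞).toReal = (2 : ℝ) by simp, ← Real.sqrt_eq_rpow, Real.sqrt_sq hC0]
  have h5 : (0 : ℝ) ≤ ∑' p, ‖(ξ : Q → ℂ) p‖ ^ 2 := tsum_nonneg fun _ => by positivity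
  conv_rhs => rw [h4]
  rw [← Real.mul_rpow (by positivity) h5]
  exact Real.rpow_le_rpow (tsum_nonneg fun _ => by positivity) h1 (by simp)

/-- PROOF: for a finite set `A` of points `q`: `∑_{q ∈ A} ‖w q‖² ‖ξ (τ q)‖² = ∑_{β ∈ τ A} ‖ξ β‖² ∑_{q ∈ A, τ q = β} ‖w q‖²
≤ C² ‖ξ‖²` (`Finset.sum_fiberwise_of_maps_to`; the sum of `‖ξ β‖²` over a finite set is at most `‖ξ‖²`,
compare `Hs.exists_wop` in Hs/A0.lean: `memℓp_gen`, `lp.norm_eq_tsum_rpow`, `Real.tsum_le_of_sum_le`-type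
lemmas). `LinearMap.mkContinuous`. -/
theorem exists_gop {τ : Q' → Q} {w : Q' → ℂ} {C : ℝ} (h : GOK τ w C) :
    ∃ T : L2 Q →L[ℂ] L2 Q', ‖T‖ ≤ C ∧
      ∀ (ξ : L2 Q) (q : Q'), (T ξ : Q' → ℂ) q = w q * (ξ : Q → ℂ) (τ q) := by
  refine ⟨LinearMap.mkContinuous
    { toFun := fun ξ => ⟨fun q => w q * (ξ : Q → ℂ) (τ q), Va_memℓp h ξ⟩
      map_add' := fun ξ η => by
        ext q
        change w q * ((ξ : Q → ℂ) (τ q) + (η : Q → ℂ) (τ q)) =
          w q * (ξ : Q → ℂ) (τ q) + w q * (η : Q → ℂ) (τ q)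
        ring
      map_smul' := fun c ξ => by
        ext q
        change w q * (c * (ξ : Q → ℂ) (τ q)) = c * (w q * (ξ : Q → ℂ) (τ q))
        ring } C (Va_norm_le h), ?_, ?_⟩
  · exact LinearMap.mkContinuous_norm_le _ h.nonneg _
  · intro ξ q
    rfl

open Classical in
/-- The generalised weighted map `(T ξ)(q) = w(q) ξ(τ q)`. -/
def gop (τ : Q' → Q) (w : Q' → ℂ) : L2 Q →L[ℂ] L2 Q' :=
  if h : ∃ C, GOK τ w C then (exists_gop h.choose_spec).choose else 0

/-- PROOF: as `Hs.wop_apply`. -/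
theorem gop_apply {τ : Q' → Q} {w : Q' → ℂ} {C : ℝ} (h : GOK τ w C) (ξ : L2 Q) (q : Q') :
    (gop τ w ξ : Q' → ℂ) q = w q * (ξ : Q → ℂ) (τ q) := by
  have h' : ∃ C, GOK τ w C := ⟨C, h⟩
  rw [gop, dif_pos h']
  exact (exists_gop h'.choose_spec).choose_spec.2 ξ q

/-- PROOF: as `Hs.norm_wop_le`. -/
theorem norm_gop_le {τ : Q' → Q} {w : Q' → ℂ} {C : ℝ} (h : GOK τ w C) : ‖gop τ w‖ ≤ C := by
  obtain ⟨T, hT, hT'⟩ := exists_gop h
  have h1 : gop τ w = T := by
    refine ContinuousLinearMap.ext fun ξ => ?_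
    ext q
    rw [gop_apply h, hT']
  rw [h1]
  exact hT

/-- PROOF: `⟪gop ξ, bv q⟫ = conj (gop ξ q) = conj (w q) conj (ξ (τ q)) = ⟪ξ, conj (w q) bv (τ q)⟫` for all `ξ`
(`lp.inner_single_right` or `lp.inner_eq_tsum`; `ContinuousLinearMap.adjoint_inner_right`). -/
theorem adjoint_gop_bv {τ : Q' → Q} {w : Q' → ℂ} {C : ℝ} (h : GOK τ w C) (q : Q') :
    ContinuousLinearMap.adjoint (gop τ w) (bv q) = (starRingEnd ℂ) (w q) • bv (τ q) := by
  classical
  refine ext_bv fun b => ?_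
  rw [ContinuousLinearMap.adjoint_inner_right, ← inner_conj_symm, inner_bv_left, gop_apply h,
    bv_apply, inner_smul_right, inner_bv_left, bv_apply, map_mul]
  by_cases hb : τ q = b
  · subst hb
    simp
  · rw [if_neg hb, if_neg fun h' => hb h'.symm, map_zero]

/-- PROOF: for `ξ`, `η`: `⟪gop ξ, gop η⟫ = ∑ q, ‖w q‖² conj (ξ (τ q)) η (τ q)`; it is enough to take `η = bv β`
(the adjoint is determined by the inner products with the `bv β`; or: both sides are continuous and agree on the `bv β`),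
then it is `conj (ξ β) ∑_{τ q = β} ‖w q‖² = conj (ξ β) c β`. -/
theorem adjoint_gop_mul_gop {τ : Q' → Q} {w : Q' → ℂ} {C : ℝ} (h : GOK τ w C) {c : Q → ℂ}
    (hc : ∀ β, HasSum (fun q : {q : Q' // τ q = β} => ((‖w q.1‖ ^ 2 : ℝ) : ℂ)) (c β)) :
    (ContinuousLinearMap.adjoint (gop τ w)).comp (gop τ w) = dia c := by
  classical
  have hc' : ∀ β, ‖c β‖ ≤ C ^ 2 := by
    intro β
    have h1 : Tendsto (fun A : Finset {q : Q' // τ q = β} =>
        ‖∑ q ∈ A, ((‖w q.1‖ ^ 2 : ℝ) : ℂ)‖) atTop (𝓝 ‖c β‖) := (hc β).norm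
    refine le_of_tendsto' h1 fun A => ?_
    rw [← Complex.ofReal_sum, Complex.norm_real, Real.norm_eq_abs,
      abs_of_nonneg (Finset.sum_nonneg fun _ _ => by positivity)]
    have h2 := h.bdd β (A.map (Embedding.subtype _)) (by
      intro q hq
      obtain ⟨q', _, rfl⟩ := Finset.mem_map.1 hq
      exact q'.2)
    rw [Finset.sum_map] at h2
    exact h2
  refine ContinuousLinearMap.ext fun ξ => ?_
  refine ext_bv fun β => ?_
  rw [ContinuousLinearMap.comp_apply, ContinuousLinearMap.adjoint_inner_right, inner_bv_left,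
    dia_apply (by positivity) hc']
  have h1 := lp.hasSum_inner (𝕜 := ℂ) (G := fun _ : Q' => ℂ) (gop τ w (bv β)) (gop τ w ξ)
  have h2 : (fun q => inner ℂ ((gop τ w (bv β) : Q' → ℂ) q) ((gop τ w ξ : Q' → ℂ) q)) =
      fun q => if τ q = β then ((‖w q‖ ^ 2 : ℝ) : ℂ) * (ξ : Q → ℂ) β else 0 := by
    funext q
    rw [gop_apply h, gop_apply h, bv_apply]
    by_cases hq : τ q = β
    · rw [if_pos hq, if_pos hq, mul_one, hq]
      rw [RCLike.inner_apply, mul_comm (w q), mul_assoc, RCLike.mul_conj, mul_comm]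
      push_cast
      rfl
    · rw [if_neg hq, if_neg hq, mul_zero, inner_zero_left]
  rw [h2] at h1
  refine h1.unique ?_
  have h3 := (hc β).mul_right ((ξ : Q → ℂ) β)
  rw [← hasSum_subtype_iff_of_support_subset (s := {q | τ q = β})]
  · have e : ((fun q => if τ q = β then ((‖w q‖ ^ 2 : ℝ) : ℂ) * (ξ : Q → ℂ) β else 0) ∘
        (Subtype.val : {q | τ q = β} → Q')) =
        fun q : {q : Q' // τ q = β} => ((‖w q.1‖ ^ 2 : ℝ) : ℂ) * (ξ : Q → ℂ) β := by
      funext q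
      exact if_pos q.2
    rw [e]
    exact h3
  · intro q hq
    by_contra hne
    exact hq (if_neg hne)

end Gop

section Part

variable {G : Type} [Group G] [TopologicalSpace G]

/-- The set `D` is `V`-separated. -/
def Sep (V D : Set G) : Prop := ∀ a ∈ D, ∀ b ∈ D, a⁻¹ * b ∈ V → a = b

/-- A partition into squares of functions with small compact supports. -/
structure Part (V : Set G) where
  /-- the functions -/
  χ : ℕ → G → ℝ
  cont : ∀ k, Continuous (χ k)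
  nonneg : ∀ k a, 0 ≤ χ k a
  cpt : ∀ k, HasCompactSupport (χ k)
  small : ∀ k a b, χ k a ≠ 0 → χ k b ≠ 0 → a⁻¹ * b ∈ V
  fin : LocallyFinite fun k => Function.support (χ k)
  sum : ∀ a, HasSum (fun k => χ k a ^ 2) 1

/-- PROOF: let `N` be an open neighbourhood of `1` with compact closure and `N⁻¹ N ⊆ V`. The translates
`a N` cover `G`; `G` is second countable, locally compact, Hausdorff, so paracompact and Lindelöf: there is a countable
locally finite partition of unity `ρ_k` (`PartitionOfUnity.exists_isSubordinate_of_locallyFinite` or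
`exists_isSubordinate` for a locally finite refinement of a countable subcover by translates, indexed by `ℕ`, functions with support in `a_k N`, so
compact support). `χ_k = √ρ_k`. For `a, b` in the support of `χ_k`: `a = a_k n`, `b = a_k n'`, so `a⁻¹ b = n⁻¹ n' ∈ V`. -/
theorem exists_part [IsTopologicalGroup G] [LocallyCompactSpace G] [SecondCountableTopology G]
    [T2Space G] {V : Set G} (hV : V ∈ 𝓝 (1 : G)) : Nonempty (Part V) := by
  classical
  -- a neighbourhood `N` with `N⁻¹ N ⊆ V`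
  obtain ⟨N₁, hN₁, hN₁V⟩ : ∃ N ∈ 𝓝 (1 : G), ∀ x ∈ N, ∀ y ∈ N, x⁻¹ * y ∈ V := by
    have hc : Tendsto (fun p : G × G => p.1⁻¹ * p.2) (𝓝 (1, 1)) (𝓝 1) := by
      have : Continuous fun p : G × G => p.1⁻¹ * p.2 := by fun_prop
      have h := this.tendsto (1, 1)
      simpa using h
    have h1 := hc hV
    rw [Filter.mem_map, nhds_prod_eq] at h1
    obtain ⟨N, hN, N', hN', hs⟩ := Filter.mem_prod_iff.1 h1
    exact ⟨N ∩ N', inter_mem hN hN', fun x hx y hy =>
      hs (a := (x, y)) ⟨hx.1, hy.2⟩⟩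
  obtain ⟨K, hK, hK1⟩ := exists_compact_mem_nhds (1 : G)
  set N : Set G := interior (N₁ ∩ K) with hN
  have hN1 : (1 : G) ∈ N := mem_interior_iff_mem_nhds.2 (inter_mem hN₁ hK1)
  have hNo : IsOpen N := isOpen_interior
  have hNs : N ⊆ N₁ ∩ K := interior_subset
  -- countable cover
  obtain ⟨s, hs, hsU⟩ := TopologicalSpace.countable_cover_nhds
    (f := fun a : G => (fun x => a⁻¹ * x) ⁻¹' N) (fun a => by
      refine (hNo.preimage (by fun_prop)).mem_nhds ?_
      simpa using hN1)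
  have hsne : s.Nonempty := by
    rw [Set.nonempty_iff_ne_empty]
    rintro rfl
    simp at hsU
    exact (hsU.symm.subset (Set.mem_univ (1 : G)))
  obtain ⟨a, ha⟩ := hs.exists_eq_range hsne
  have hcov : (Set.univ : Set G) ⊆ ⋃ k : ℕ, (fun x => (a k)⁻¹ * x) ⁻¹' N := by
    intro x _
    have : x ∈ ⋃ b ∈ s, (fun x => b⁻¹ * x) ⁻¹' N := by rw [hsU]; trivial
    rw [ha] at this
    simpa using this
  obtain ⟨ρ, hρ⟩ := PartitionOfUnity.exists_isSubordinate (X := G) isClosed_univ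
    (fun k : ℕ => (fun x => (a k)⁻¹ * x) ⁻¹' N) (fun k => hNo.preimage (by fun_prop)) hcov
  have hsupp : ∀ k x, Real.sqrt (ρ k x) ≠ 0 → (a k)⁻¹ * x ∈ N := by
    intro k x hx
    refine hρ k (subset_tsupport _ ?_)
    intro h0
    exact hx (by rw [h0, Real.sqrt_zero])
  refine ⟨⟨fun k x => Real.sqrt (ρ k x), fun k => (ρ k).continuous.sqrt, fun k x => Real.sqrt_nonneg _,
    fun k => ?_, fun k x y hx hy => ?_, ?_, fun x => ?_⟩⟩
  · refine HasCompactSupport.of_support_subset_isCompact (K := (fun x => a k * x) '' K)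
      (hK.image (by fun_prop)) ?_
    intro x hx
    exact ⟨(a k)⁻¹ * x, (hNs (hsupp k x hx)).2, by simp⟩
  · have h1 := hN₁V _ (hNs (hsupp k x hx)).1 _ (hNs (hsupp k y hy)).1
    have h2 : ((a k)⁻¹ * x)⁻¹ * ((a k)⁻¹ * y) = x⁻¹ * y := by group
    rwa [h2] at h1
  · refine ρ.locallyFinite.subset fun k x hx => ?_
    intro h0
    exact hx (by change Real.sqrt (ρ k x) = 0; rw [h0, Real.sqrt_zero])
  · have h1 : (fun k => Real.sqrt (ρ k x) ^ 2) = fun k => ρ k x := by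
      funext k
      exact Real.sq_sqrt (ρ.nonneg k x)
    rw [h1]
    have hfin : (Function.support fun k => ρ k x).Finite := ρ.locallyFinite.point_finite x
    have h2 := ρ.sum_eq_one (Set.mem_univ x)
    rw [finsum_eq_sum _ hfin] at h2
    rw [← h2]
    exact hasSum_sum_of_ne_finset_zero fun k hk => by
      by_contra hne
      exact hk (hfin.mem_toFinset.2 hne)

variable {V : Set G} (χ : Part V)

/-- Some point of `D` is in the support of `χ_k`. -/
def Part.ok (D : Set G) (k : ℕ) : Prop := ∃ a ∈ D, χ.χ k a ≠ 0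

open Classical in
/-- The point of `D` in the support of `χ_k` (`1` if there is none). -/
def Part.pt (D : Set G) (k : ℕ) : G := if h : ∃ a ∈ D, χ.χ k a ≠ 0 then h.choose else 1

theorem Part.pt_spec {D : Set G} {k : ℕ} (h : χ.ok D k) :
    χ.pt D k ∈ D ∧ χ.χ k (χ.pt D k) ≠ 0 := by
  unfold Part.ok at h
  unfold Part.pt
  rw [dif_pos h]
  exact h.choose_spec

/-- PROOF: `pt_spec`, `small`, `hD`. -/
theorem Part.pt_eq {D : Set G} (hD : Sep V D) {k : ℕ} {a : G} (ha : a ∈ D) (h : χ.χ k a ≠ 0) :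
    χ.ok D k ∧ χ.pt D k = a := by
  have h1 : χ.ok D k := ⟨a, ha, h⟩
  refine ⟨h1, hD _ (χ.pt_spec h1).1 _ ha (χ.small k _ _ (χ.pt_spec h1).2 h)⟩

open Classical in
/-- The pair of the points of the pair `q` of finite sets of indices. -/
def Part.tau (D : Set G) (q : Bs ℕ) : Bs G :=
  Bs.mk (q.F.image (χ.pt D)) (q.S.image (χ.pt D)) (Finset.image_subset_image q.sub)

open Classical in
/-- The weight of the pair `q`. -/
def Part.wt {O : Type} [LinearOrder O] (e : G ↪ O) (D : Set G) (q : Bs ℕ) : ℂ :=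
  if (∀ k ∈ q.F, χ.ok D k) ∧ Set.InjOn (χ.pt D) q.F then
    ((∏ k ∈ q.F, χ.χ k (χ.pt D k) : ℝ) : ℂ) * sg (Embedding.refl ℕ) e (χ.pt D) q.S
  else 0

/-- The operator `V_D : ℓ²(Bs G) → ℓ²(Bs ℕ)`. -/
def Part.Vd {O : Type} [LinearOrder O] (e : G ↪ O) (D : Set G) : L2 (Bs G) →L[ℂ] L2 (Bs ℕ) :=
  gop (χ.tau D) (χ.wt e D)

/-- The adjoint of `V_D`. -/
def Part.Vs {O : Type} [LinearOrder O] (e : G ↪ O) (D : Set G) : L2 (Bs ℕ) →L[ℂ] L2 (Bs G) :=
  ContinuousLinearMap.adjoint (χ.Vd e D)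

end Part

end Pool.Agent.Lib.MP_aa9b81_an.Cb
end
end

section

/-!
# Continuous Bernoulli, part Lha: approximation
-/

open scoped ENNReal Topology Pointwise CompactlySupported
open Function Filter MeasureTheory

noncomputable section

set_option linter.unusedSectionVars false

namespace Pool.Agent.Lib.MP_aa9b81_an.Cb

open Cut Hs

/-- Approximation of functions vanishing at infinity. PROOF: `φ p = f p * (max (‖f p‖ - ε) 0 / max ‖f p‖ ε)`, as in `Cut.CB2_dense` (CutM/C.lean, proved there for `C₀`): it is continuous, at distance `≤ ε` from `f`,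
and it is `0` where `‖f p‖ ≤ ε`, so outside of the compact set `K` of the hypothesis for `ε` (`HasCompactSupport.intro`). -/
theorem exists_Cc_near {Z : Type} [TopologicalSpace Z] [T2Space Z] {f : Z → ℂ} (hf : Continuous f)
    {ε : ℝ} (hε : 0 < ε) (hK : ∃ K : Set Z, IsCompact K ∧ ∀ p ∉ K, ‖f p‖ ≤ ε) :
    ∃ φ : C_c(Z, ℂ), (∀ p, ‖f p - φ p‖ ≤ ε) ∧ ∀ p, f p = 0 → φ p = 0 := by
  obtain ⟨K, hKc, hK⟩ := hK
  let φ : ℝ → ℝ := fun t => max (t - ε) 0 / max t ε
  have hφc : Continuous φ := by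
    apply Continuous.div (by fun_prop) (by fun_prop)
    intro t
    exact (lt_of_lt_of_le hε (le_max_right _ _)).ne'
  let F : Z → ℂ := fun z => f z * ((φ ‖f z‖ : ℝ) : ℂ)
  have hF : Continuous F := hf.mul (Complex.continuous_ofReal.comp (hφc.comp hf.norm))
  have hφ1 : ∀ t, 0 ≤ t → 0 ≤ φ t ∧ φ t ≤ 1 := by
    intro t ht
    have h1 : 0 < max t ε := lt_of_lt_of_le hε (le_max_right _ _)
    constructor
    · exact div_nonneg (le_max_right _ _) h1.le
    · rw [div_le_one h1]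
      apply max_le
      · have := le_max_left t ε
        linarith
      · exact h1.le
  have hdist : ∀ z, ‖f z - F z‖ ≤ ε := by
    intro z
    have h1 : f z - F z = f z * ((1 - φ ‖f z‖ : ℝ) : ℂ) := by
      show f z - f z * ((φ ‖f z‖ : ℝ) : ℂ) = _
      push_cast
      ring
    have h2 := hφ1 ‖f z‖ (norm_nonneg _)
    rw [h1, norm_mul, Complex.norm_real, Real.norm_eq_abs, abs_of_nonneg (by linarith)]
    by_cases h3 : ‖f z‖ ≤ ε
    · calc ‖f z‖ * (1 - φ ‖f z‖) ≤ ‖f z‖ * 1 := by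
            apply mul_le_mul_of_nonneg_left _ (norm_nonneg _)
            linarith
        _ ≤ ε := by rw [mul_one]; exact h3
    · rw [not_le] at h3
      have h4 : φ ‖f z‖ = (‖f z‖ - ε) / ‖f z‖ := by
        show max (‖f z‖ - ε) 0 / max ‖f z‖ ε = _
        rw [max_eq_left (by linarith), max_eq_left h3.le]
      have h5 : ‖f z‖ ≠ 0 := by
        have := hε
        linarith
      rw [h4]
      field_simp
      linarith
  have hzero : ∀ z, ‖f z‖ ≤ ε → F z = 0 := by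
    intro z hz
    have h4 : φ ‖f z‖ = 0 := by
      show max (‖f z‖ - ε) 0 / max ‖f z‖ ε = _
      rw [max_eq_right (by linarith), zero_div]
    show f z * ((φ ‖f z‖ : ℝ) : ℂ) = 0
    rw [h4]
    simp
  refine ⟨⟨⟨F, hF⟩, HasCompactSupport.intro hKc fun z hz => hzero z (hK z hz)⟩, hdist, ?_⟩
  intro p hp
  show f p * ((φ ‖f p‖ : ℝ) : ℂ) = 0
  rw [hp, zero_mul]

/-- Uniform approximation on compact sets by finitely many coordinates. PROOF: for `v₀ ∈ ℓ²(J)` there is a finite set `F` with `‖v₀ - ∑_{i ∈ F} v₀ i • bv i‖ < ε / 3` (`hasSum_bv`), so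
`‖v - ∑_{i ∈ F'} v i • bv i‖ ≤ ε` for all `v` with `‖v - v₀‖ < ε / 3` and all `F' ⊇ F` (the operator `v ↦ ∑_{i ∈ F} v i • bv i` is `dia` of the indicator function of `F`, of norm
`≤ 1`, and it is increasing in `F`); `K` is covered by finitely many such balls. -/
theorem exists_finset_near {J : Type} {K : Set (L2 J)} (hK : IsCompact K) {ε : ℝ} (hε : 0 < ε) :
    ∃ F : Finset J, ∀ v ∈ K, ‖v - ∑ i ∈ F, (v : J → ℂ) i • bv i‖ ≤ ε := by
  classical
  have hP : ∀ (F : Finset J) (v : L2 J),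
      ∑ i ∈ F, (v : J → ℂ) i • (bv i : L2 J) = dia (fun i => if i ∈ F then (1 : ℂ) else 0) v := by
    intro F v
    ext c
    rw [dia_apply zero_le_one (fun b => by split_ifs <;> simp)]
    have h1 : ((∑ i ∈ F, (v : J → ℂ) i • (bv i : L2 J) : L2 J) : J → ℂ) c =
        ∑ i ∈ F, ((v : J → ℂ) i • (bv i : L2 J) : L2 J) c := by
      rw [lp.coeFn_sum, Finset.sum_apply]
    rw [h1]
    have h2 : ∀ i ∈ F, ((v : J → ℂ) i • (bv i : L2 J) : L2 J) c =
        if c = i then (v : J → ℂ) i else 0 := by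
      intro i _
      rw [lp.coeFn_smul, Pi.smul_apply, bv_apply, smul_eq_mul]
      split_ifs <;> simp
    rw [Finset.sum_congr rfl h2, Finset.sum_ite_eq]
    split_ifs <;> simp
  have hnorm : ∀ (F : Finset J) (v : L2 J), ‖∑ i ∈ F, (v : J → ℂ) i • (bv i : L2 J)‖ ≤ ‖v‖ := by
    intro F v
    rw [hP]
    refine (ContinuousLinearMap.le_opNorm _ _).trans ?_
    have h1 : ‖(dia (fun i => if i ∈ F then (1 : ℂ) else 0) : BL J)‖ ≤ 1 :=
      norm_dia_le zero_le_one fun b => by split_ifs <;> simp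
    calc _ ≤ 1 * ‖v‖ := mul_le_mul_of_nonneg_right h1 (norm_nonneg _)
      _ = ‖v‖ := one_mul _
  have hsub : ∀ (F : Finset J) (v w : L2 J), ∑ i ∈ F, (v : J → ℂ) i • (bv i : L2 J) -
      ∑ i ∈ F, (w : J → ℂ) i • (bv i : L2 J) = ∑ i ∈ F, ((v - w : L2 J) : J → ℂ) i • (bv i : L2 J) := by
    intro F v w
    rw [hP, hP, hP, map_sub]
  have h0 : ∀ v : L2 J, ∃ F0 : Finset J, ∀ F, F0 ⊆ F →
      ‖v - ∑ i ∈ F, (v : J → ℂ) i • (bv i : L2 J)‖ < ε / 3 := by
    intro v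
    have h1 := (Metric.tendsto_atTop.1 (hasSum_bv v)) (ε / 3) (by positivity)
    obtain ⟨F0, hF0⟩ := h1
    refine ⟨F0, fun F hF => ?_⟩
    have h2 := hF0 F hF
    rw [dist_comm, dist_eq_norm] at h2
    exact h2
  choose F0 hF0 using h0
  obtain ⟨t, _, ht⟩ := hK.elim_nhds_subcover (fun v => Metric.ball v (ε / 3))
    (fun v _ => Metric.ball_mem_nhds v (by positivity))
  refine ⟨t.biUnion F0, fun v hv => ?_⟩
  have h1 := ht hv
  rw [Set.mem_iUnion₂] at h1
  obtain ⟨w, hw, hvw⟩ := h1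
  rw [Metric.mem_ball, dist_eq_norm] at hvw
  have h2 := hF0 w (t.biUnion F0) (Finset.subset_biUnion_of_mem F0 hw)
  have h3 := hnorm (t.biUnion F0) (w - v)
  rw [← hsub, norm_sub_rev w v] at h3
  have h4 : v - ∑ i ∈ t.biUnion F0, (v : J → ℂ) i • (bv i : L2 J) =
      (v - w) + (w - ∑ i ∈ t.biUnion F0, (w : J → ℂ) i • (bv i : L2 J)) +
      (∑ i ∈ t.biUnion F0, (w : J → ℂ) i • (bv i : L2 J) -
        ∑ i ∈ t.biUnion F0, (v : J → ℂ) i • (bv i : L2 J)) := by abel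
  rw [h4]
  refine (norm_add_le _ _).trans ?_
  have h5 := norm_add_le (v - w) (w - ∑ i ∈ t.biUnion F0, (w : J → ℂ) i • (bv i : L2 J))
  linarith

end Pool.Agent.Lib.MP_aa9b81_an.Cb
end
end

section

/-!
# Continuous Bernoulli, part F8: the rotated functions of a set of sites
-/

open scoped ENNReal Topology
open Function Filter

noncomputable section

set_option linter.unusedSectionVars false

namespace Pool.Agent.Lib.MP_aa9b81_an.Cb

open Cut Hs

variable {I : Type} [DecidableEq I]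

/-- The indicator function of `F`. -/
def ind (F : Finset I) : I → Bool := fun i => decide (i ∈ F)

/-- `f` depends only on the values on `L`, up to `ε`. -/
def Dep (L : Set I) (ε : ℝ) (f : (I → Bool) → ℂ) : Prop :=
  ∀ T T' : I → Bool, (∀ i ∈ L, T i = T' i) → ‖f T - f T'‖ ≤ ε

/-- The multiplication by `f(1_F)`. -/
def dF (f : (I → Bool) → ℂ) : BL (Bs I) := dia fun b => f (ind b.F)

/-- The rotated function, rotation at the sites of `L`. -/
def sigL (L : Finset I) (θ : ℝ) (f : (I → Bool) → ℂ) : BL (Bs I) :=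
  (UK L (-θ) : BL (Bs I)) * dF f * (UK L θ : BL (Bs I))

/-- The rotated function. -/
def sig (θ : ℝ) (f : (I → Bool) → ℂ) : BL (Bs I) :=
  limUnder atTop fun L : Finset I => sigL L θ f

/-- The restriction of a set of sites to `L`. -/
def rs (L : Finset I) (T : I → Bool) : I → Bool := fun i => T i && decide (i ∈ L)

theorem rs_eq {L : Finset I} (T : I → Bool) {i : I} (h : i ∈ L) : rs L T i = T i := by
  simp [rs, h]

theorem Dep.mono {L L' : Set I} {ε ε' : ℝ} {f : (I → Bool) → ℂ} (h : Dep L ε f) (hL : L ⊆ L')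
    (hε : ε ≤ ε') : Dep L' ε' f :=
  fun T T' hT => (h T T' fun i hi => hT i (hL hi)).trans hε

theorem Dep.norm_sub_le {L : Finset I} {ε : ℝ} {f : (I → Bool) → ℂ} (h : Dep (L : Set I) ε f)
    (T : I → Bool) : ‖f T - f (rs L T)‖ ≤ ε :=
  h T _ fun _ hi => (rs_eq T (Finset.mem_coe.1 hi)).symm

theorem dep_rs (L : Finset I) (f : (I → Bool) → ℂ) : Dep (L : Set I) 0 fun T => f (rs L T) := by
  intro T T' h
  have h1 : Cb.rs L T = Cb.rs L T' := by
    funext i
    unfold Cb.rs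
    by_cases hi : i ∈ L
    · rw [h i hi]
    · simp [hi]
  simp only [h1, sub_self, norm_zero, le_refl]

/-- Continuous functions depend, up to `ε`, only on finitely many sites. PROOF: the sets
`{T' | T' = T on L}`, `L` finite, are a basis of the neighbourhoods of `T`; compactness of `I → Bool`. -/
theorem exists_dep {f : (I → Bool) → ℂ} (hf : Continuous f) {ε : ℝ} (hε : 0 < ε) :
    ∃ L : Finset I, Dep (L : Set I) ε f := by
  have h1 : ∀ T : I → Bool, ∃ L : Finset I, ∀ T', (∀ i ∈ L, T' i = T i) →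
      ‖f T' - f T‖ < ε / 2 := by
    intro T
    have h2 : IsOpen (f ⁻¹' Metric.ball (f T) (ε / 2)) := Metric.isOpen_ball.preimage hf
    rw [isOpen_pi_iff] at h2
    obtain ⟨L, u, h3, h4⟩ := h2 T (Metric.mem_ball_self (by linarith))
    refine ⟨L, fun T' hT' => ?_⟩
    have h5 : T' ∈ (L : Set I).pi u := by
      intro i hi
      rw [hT' i hi]
      exact (h3 i hi).2
    have h6 := h4 h5
    rwa [Set.mem_preimage, Metric.mem_ball, dist_eq_norm] at h6
  choose Lc hLc using h1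
  have hop : ∀ T : I → Bool, {T' : I → Bool | ∀ i ∈ Lc T, T' i = T i} ∈ 𝓝 T := by
    intro T
    have h2 : {T' : I → Bool | ∀ i ∈ Lc T, T' i = T i} = ⋂ i ∈ Lc T, {T' | T' i = T i} := by
      ext T'
      simp
    rw [h2]
    refine (isOpen_biInter_finset fun i _ => ?_).mem_nhds (by simp)
    have h3 : IsOpen ((fun T' : I → Bool => T' i) ⁻¹' {T i}) :=
      (isOpen_discrete _).preimage (continuous_apply i)
    exact h3
  obtain ⟨t, -, ht⟩ := isCompact_univ.elim_nhds_subcover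
    (fun T : I → Bool => {T' : I → Bool | ∀ i ∈ Lc T, T' i = T i}) fun T _ => hop T
  refine ⟨t.biUnion Lc, fun T T' hT => ?_⟩
  have h2 := ht (Set.mem_univ T)
  simp only [Set.mem_iUnion] at h2
  obtain ⟨T₀, hT₀, h3⟩ := h2
  have h3' : ∀ i ∈ Lc T₀, T i = T₀ i := h3
  have h4 := hLc T₀ T h3'
  have h5 := hLc T₀ T' fun i hi => by
    rw [← hT i (Finset.mem_coe.2 (Finset.mem_biUnion.2 ⟨T₀, hT₀, hi⟩)), h3' i hi]
  have h6 : f T - f T' = (f T - f T₀) - (f T' - f T₀) := by ring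
  rw [h6]
  have h7 := norm_sub_le (f T - f T₀) (f T' - f T₀)
  linarith

/-- PROOF: compactness. -/
theorem exists_bdd {f : (I → Bool) → ℂ} (hf : Continuous f) : ∃ C : ℝ, 0 ≤ C ∧ ∀ T, ‖f T‖ ≤ C := by
  obtain ⟨C, hC⟩ := isCompact_univ.exists_bound_of_continuousOn hf.continuousOn
  exact ⟨|C|, abs_nonneg _, fun T => (hC T (Set.mem_univ _)).trans (le_abs_self C)⟩

/-- A function depending on finitely many sites is bounded. -/
theorem Dep.exists_bdd {L : Finset I} {ε : ℝ} {f : (I → Bool) → ℂ} (h : Dep (L : Set I) ε f) :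
    ∃ C : ℝ, 0 ≤ C ∧ ∀ T, ‖f T‖ ≤ C := by
  have h1 : (Set.range fun T : I → Bool => f (rs L T)).Finite := by
    have h2 : (Set.range fun T : I → Bool => rs L T).Finite := by
      have h3 : Set.range (fun T : I → Bool => rs L T) ⊆
          Set.range fun t : {i // i ∈ L} → Bool => fun i => if h : i ∈ L then t ⟨i, h⟩ else false := by
        rintro _ ⟨T, rfl⟩
        refine ⟨fun i => T i.1, ?_⟩
        funext i
        by_cases hi : i ∈ L
        · simp [Cb.rs, hi]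
        · simp [Cb.rs, hi]
      exact (Set.finite_range _).subset h3
    have h4 : (Set.range fun T : I → Bool => f (rs L T)) = f '' Set.range fun T : I → Bool => rs L T := by
      rw [← Set.range_comp]
      rfl
    rw [h4]
    exact h2.image f
  obtain ⟨C, hC⟩ := h1.isBounded.exists_norm_le
  have hε : 0 ≤ ε := (norm_nonneg _).trans (h (fun _ => false) (fun _ => false) fun _ _ => rfl)
  refine ⟨|C| + ε, by positivity, fun T => ?_⟩
  have h2 := h.norm_sub_le T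
  have h3 := hC (f (Cb.rs L T)) ⟨T, rfl⟩
  have h4 : f T = f (Cb.rs L T) + (f T - f (Cb.rs L T)) := by ring
  rw [h4]
  refine (norm_add_le _ _).trans (add_le_add (h3.trans (le_abs_self C)) h2)

theorem norm_dF_le {f : (I → Bool) → ℂ} {C : ℝ} (hC : 0 ≤ C) (h : ∀ T, ‖f T‖ ≤ C) :
    ‖dF f‖ ≤ C := norm_dia_le hC fun _ => h _

theorem dF_apply {f : (I → Bool) → ℂ} {C : ℝ} (hC : 0 ≤ C) (h : ∀ T, ‖f T‖ ≤ C) (ξ : L2 (Bs I))
    (b : Bs I) : (dF f ξ : Bs I → ℂ) b = f (ind b.F) * (ξ : Bs I → ℂ) b :=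
  dia_apply hC (fun _ => h _) ξ b

theorem dF_sub {f f' : (I → Bool) → ℂ} {C C' : ℝ} (hC : 0 ≤ C) (h : ∀ T, ‖f T‖ ≤ C)
    (hC' : 0 ≤ C') (h' : ∀ T, ‖f' T‖ ≤ C') : dF f - dF f' = dF fun T => f T - f' T := by
  refine ContinuousLinearMap.ext fun ξ => ?_
  ext b
  have h1 : ((dF f - dF f' : BL (Bs I)) ξ : Bs I → ℂ) b =
      (dF f ξ : Bs I → ℂ) b - (dF f' ξ : Bs I → ℂ) b := rfl
  rw [h1, dF_apply hC h, dF_apply hC' h', dF_apply (add_nonneg hC hC')
    (fun T => (norm_sub_le _ _).trans (add_le_add (h T) (h' T)))]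
  ring

theorem dF_add {f f' : (I → Bool) → ℂ} {C C' : ℝ} (hC : 0 ≤ C) (h : ∀ T, ‖f T‖ ≤ C)
    (hC' : 0 ≤ C') (h' : ∀ T, ‖f' T‖ ≤ C') : dF f + dF f' = dF fun T => f T + f' T := by
  refine ContinuousLinearMap.ext fun ξ => ?_
  ext b
  have h1 : ((dF f + dF f' : BL (Bs I)) ξ : Bs I → ℂ) b =
      (dF f ξ : Bs I → ℂ) b + (dF f' ξ : Bs I → ℂ) b := rfl
  rw [h1, dF_apply hC h, dF_apply hC' h', dF_apply (add_nonneg hC hC')
    (fun T => (norm_add_le _ _).trans (add_le_add (h T) (h' T)))]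
  ring

theorem dF_smul {f : (I → Bool) → ℂ} {C : ℝ} (hC : 0 ≤ C) (h : ∀ T, ‖f T‖ ≤ C) (c : ℂ) :
    c • dF f = dF fun T => c * f T := by
  refine ContinuousLinearMap.ext fun ξ => ?_
  ext b
  have h1 : ((c • dF f : BL (Bs I)) ξ : Bs I → ℂ) b = c * (dF f ξ : Bs I → ℂ) b := rfl
  rw [h1, dF_apply hC h, dF_apply (mul_nonneg (norm_nonneg c) hC) (fun T => by
    rw [norm_mul]
    exact mul_le_mul_of_nonneg_left (h T) (norm_nonneg c))]
  ring

theorem dF_mul {f f' : (I → Bool) → ℂ} {C C' : ℝ} (hC : 0 ≤ C) (h : ∀ T, ‖f T‖ ≤ C)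
    (hC' : 0 ≤ C') (h' : ∀ T, ‖f' T‖ ≤ C') : dF f * dF f' = dF fun T => f T * f' T := by
  refine ContinuousLinearMap.ext fun ξ => ?_
  ext b
  rw [mul_apply_eq_comp, dF_apply hC h, dF_apply hC' h', dF_apply (mul_nonneg hC hC')
    (fun T => by
      rw [norm_mul]
      exact mul_le_mul (h T) (h' T) (norm_nonneg _) hC)]
  ring

theorem adjoint_dF {f : (I → Bool) → ℂ} {C : ℝ} (hC : 0 ≤ C) (h : ∀ T, ‖f T‖ ≤ C) :
    ContinuousLinearMap.adjoint (dF f) = dF fun T => (starRingEnd ℂ) (f T) := by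
  have h' : ∀ T, ‖(starRingEnd ℂ) (f T)‖ ≤ C := fun T => by
    rw [RCLike.norm_conj]
    exact h T
  symm
  rw [ContinuousLinearMap.eq_adjoint_iff]
  intro ξ η
  rw [lp.inner_eq_tsum, lp.inner_eq_tsum]
  refine tsum_congr fun b => ?_
  rw [dF_apply hC h', dF_apply hC h]
  simp only [RCLike.inner_apply, map_mul, RCLike.conj_conj]
  ring

theorem norm_mul_mul_le {A B X : BL (Bs I)} (hA : ‖A‖ ≤ 1) (hB : ‖B‖ ≤ 1) : ‖A * X * B‖ ≤ ‖X‖ := by
  have h1 := norm_mul_le (A * X) B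
  have h2 := norm_mul_le A X
  have h3 := norm_nonneg X
  have h4 := norm_nonneg (A * X)
  have h5 := norm_nonneg A
  have h6 := norm_nonneg B
  nlinarith

theorem norm_sigL_le {f : (I → Bool) → ℂ} {C : ℝ} (hC : 0 ≤ C) (h : ∀ T, ‖f T‖ ≤ C)
    (L : Finset I) (θ : ℝ) : ‖sigL L θ f‖ ≤ C :=
  (norm_mul_mul_le (norm_UK_le L (-θ)) (norm_UK_le L θ)).trans (norm_dF_le hC h)

theorem norm_sigL_sub_le {f f' : (I → Bool) → ℂ} {C C' : ℝ} (hC : 0 ≤ C) (h : ∀ T, ‖f T‖ ≤ C)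
    (hC' : 0 ≤ C') (h' : ∀ T, ‖f' T‖ ≤ C') {ε : ℝ} (hε : 0 ≤ ε) (hff : ∀ T, ‖f T - f' T‖ ≤ ε)
    (L : Finset I) (θ : ℝ) : ‖sigL L θ f - sigL L θ f'‖ ≤ ε := by
  have h1 : sigL L θ f - sigL L θ f' =
      (UK L (-θ) : BL (Bs I)) * (dF f - dF f') * (UK L θ : BL (Bs I)) := by
    unfold sigL
    rw [mul_sub, sub_mul]
  rw [h1, dF_sub hC h hC' h']
  exact (norm_mul_mul_le (norm_UK_le L (-θ)) (norm_UK_le L θ)).trans (norm_dF_le hε hff)

theorem ind_fl {i j : I} (h : j ≠ i) (b : Bs I) : ind (fl i b).F j = ind b.F j := by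
  by_cases hi : i ∈ b.S
  · rw [D6_fl_of_mem hi]
  · unfold ind
    rw [D7_fl_F hi]
    have h1 : j ∈ tg i b.F ↔ j ∈ b.F := by
      rw [mem_tg]
      constructor
      · rintro (h2 | h2)
        · exact absurd h2.1 h
        · exact h2.2
      · intro h2
        exact Or.inr ⟨h, h2⟩
    simp only [h1]

/-- The rotation at a site on which `f` does not depend. PROOF: coordinates, `D7_Ui_apply`. -/
theorem Ui_comm_dF {f : (I → Bool) → ℂ} {C : ℝ} (hC : 0 ≤ C) (h : ∀ T, ‖f T‖ ≤ C) {L : Set I}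
    (hf : Dep L 0 f) {i : I} (hi : i ∉ L) (θ : ℝ) : Commute (Ui i θ) (dF f) := by
  refine ContinuousLinearMap.ext fun ξ => ?_
  ext b
  have h1 : f (ind (fl i b).F) = f (ind b.F) := by
    have h2 := hf (ind (fl i b).F) (ind b.F) fun j hj => ind_fl (fun h3 => hi (by rw [← h3]; exact hj)) b
    exact sub_eq_zero.1 (norm_eq_zero.1 (le_antisymm h2 (norm_nonneg _)))
  rw [mul_apply_eq_comp, mul_apply_eq_comp, dF_apply hC h, D7_Ui_apply, D7_Ui_apply,
    dF_apply hC h, dF_apply hC h, h1]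
  split_ifs <;> ring

/-- PROOF: `UK L = UK (L ∖ L₀) UK L₀`, and `UK (L ∖ L₀)` commutes with `dF f`. -/
theorem sigL_eq {f : (I → Bool) → ℂ} {C : ℝ} (hC : 0 ≤ C) (h : ∀ T, ‖f T‖ ≤ C) {L₀ L : Finset I}
    (hf : Dep (L₀ : Set I) 0 f) (hL : L₀ ⊆ L) (θ : ℝ) : sigL L θ f = sigL L₀ θ f := by
  have h1 : Commute (UK (L \ L₀) θ : BL (Bs I)) (dF f) := UK_comm fun i hi =>
    Ui_comm_dF hC h hf (fun h2 => (Finset.mem_sdiff.1 hi).2 (Finset.mem_coe.1 h2)) θ
  have h2 : Commute (UK (L \ L₀) (-θ) : BL (Bs I)) (UK L₀ (-θ) : BL (Bs I)) :=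
    UK_comm fun i _ => (UK_comm (X := Ui i (-θ)) fun j _ => Ui_comm j i (-θ) (-θ)).symm
  unfold sigL
  rw [UK_sdiff hL (-θ), UK_sdiff hL θ, Units.val_mul, Units.val_mul, h2.eq]
  calc (UK L₀ (-θ) : BL (Bs I)) * (UK (L \ L₀) (-θ) : BL (Bs I)) * dF f *
        ((UK (L \ L₀) θ : BL (Bs I)) * (UK L₀ θ : BL (Bs I)))
      = (UK L₀ (-θ) : BL (Bs I)) * (UK (L \ L₀) (-θ) : BL (Bs I)) *
        (dF f * (UK (L \ L₀) θ : BL (Bs I))) * (UK L₀ θ : BL (Bs I)) := by
        simp only [mul_assoc]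
    _ = (UK L₀ (-θ) : BL (Bs I)) * ((UK (L \ L₀) (-θ) : BL (Bs I)) *
        (UK (L \ L₀) θ : BL (Bs I))) * dF f * (UK L₀ θ : BL (Bs I)) := by
        rw [← h1.eq]
        simp only [mul_assoc]
    _ = _ := by rw [UK_neg_mul_UK, mul_one]

/-- PROOF: `norm_sigL_sub_le` and `sigL_eq` for the restriction. -/
theorem norm_sigL_sub_rs_le {f : (I → Bool) → ℂ} {L₀ L : Finset I} {ε : ℝ}
    (hf : Dep (L₀ : Set I) ε f) (hL : L₀ ⊆ L) (θ : ℝ) :
    ‖sigL L θ f - sigL L₀ θ fun T => f (rs L₀ T)‖ ≤ ε := by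
  obtain ⟨C, hC, h⟩ := hf.exists_bdd
  have hε : 0 ≤ ε := (norm_nonneg _).trans (hf (fun _ => false) (fun _ => false) fun _ _ => rfl)
  rw [← sigL_eq hC (fun T => h (rs L₀ T)) (dep_rs L₀ f) hL θ]
  exact norm_sigL_sub_le hC h hC (fun T => h _) hε (fun T => hf.norm_sub_le T) L θ

/-- The limit exists. PROOF: the net is Cauchy by `norm_sigL_sub_rs_le`. -/
theorem tendsto_sig {f : (I → Bool) → ℂ} (hf : Continuous f) (θ : ℝ) :
    Tendsto (fun L : Finset I => sigL L θ f) atTop (𝓝 (sig θ f)) := by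
  have h1 : Cauchy (map (fun L : Finset I => sigL L θ f) atTop) := by
    rw [Metric.cauchy_iff]
    refine ⟨inferInstance, fun ε hε => ?_⟩
    obtain ⟨L₀, hL₀⟩ := exists_dep hf (show 0 < ε / 3 by linarith)
    refine ⟨(fun L : Finset I => sigL L θ f) '' Set.Ici L₀, image_mem_map (Ici_mem_atTop L₀), ?_⟩
    rintro _ ⟨L, hL, rfl⟩ _ ⟨L', hL', rfl⟩
    have h2 := norm_sigL_sub_rs_le hL₀ (Set.mem_Ici.1 hL) θ
    have h3 := norm_sigL_sub_rs_le hL₀ (Set.mem_Ici.1 hL') θ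
    rw [dist_eq_norm]
    have h4 : sigL L θ f - sigL L' θ f = (sigL L θ f - sigL L₀ θ fun T => f (rs L₀ T)) -
        (sigL L' θ f - sigL L₀ θ fun T => f (rs L₀ T)) := by abel
    rw [h4]
    have h5 := norm_sub_le (sigL L θ f - sigL L₀ θ fun T => f (rs L₀ T))
      (sigL L' θ f - sigL L₀ θ fun T => f (rs L₀ T))
    linarith
  obtain ⟨x, hx⟩ := CompleteSpace.complete h1
  exact tendsto_nhds_limUnder ⟨x, hx⟩

theorem Dep.continuous {L : Finset I} {f : (I → Bool) → ℂ} (h : Dep (L : Set I) 0 f) :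
    Continuous f := by
  rw [continuous_iff_continuousAt]
  intro T
  have h2 : {T' : I → Bool | ∀ i ∈ L, T' i = T i} = ⋂ i ∈ L, {T' | T' i = T i} := by
    ext T'
    simp
  have h3 : {T' : I → Bool | ∀ i ∈ L, T' i = T i} ∈ 𝓝 T := by
    rw [h2]
    refine (isOpen_biInter_finset fun i _ => ?_).mem_nhds (by simp)
    have h3 : IsOpen ((fun T' : I → Bool => T' i) ⁻¹' {T i}) :=
      (isOpen_discrete _).preimage (continuous_apply i)
    exact h3
  refine (continuousAt_const (y := f T)).congr ?_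
  filter_upwards [h3] with T' hT'
  have h4 := h T T' fun i hi => (hT' i hi).symm
  exact sub_eq_zero.1 (norm_eq_zero.1 (le_antisymm h4 (norm_nonneg _)))

/-- PROOF: the net is eventually constant. -/
theorem sig_eq {f : (I → Bool) → ℂ} {L : Finset I} (h : Dep (L : Set I) 0 f) (θ : ℝ) :
    sig θ f = sigL L θ f := by
  obtain ⟨C, hC, hb⟩ := h.exists_bdd
  refine tendsto_nhds_unique (tendsto_sig h.continuous θ) ?_
  refine tendsto_const_nhds.congr' ?_
  filter_upwards [Ici_mem_atTop L] with L' hL'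
  exact (sigL_eq hC hb h hL' θ).symm

/-- PROOF: the limit of `norm_sigL_sub_rs_le`. -/
theorem norm_sig_sub_le {f : (I → Bool) → ℂ} (hf : Continuous f) {L : Finset I} {ε : ℝ}
    (h : Dep (L : Set I) ε f) (θ : ℝ) : ‖sig θ f - sigL L θ fun T => f (rs L T)‖ ≤ ε := by
  refine le_of_tendsto ((tendsto_sig hf θ).sub_const _).norm ?_
  filter_upwards [Ici_mem_atTop L] with L' hL'
  exact norm_sigL_sub_rs_le h hL' θ

theorem norm_sig_le {f : (I → Bool) → ℂ} (hf : Continuous f) {C : ℝ} (hC : 0 ≤ C)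
    (h : ∀ T, ‖f T‖ ≤ C) (θ : ℝ) : ‖sig θ f‖ ≤ C :=
  le_of_tendsto (tendsto_sig hf θ).norm (Eventually.of_forall fun L => norm_sigL_le hC h L θ)

end Pool.Agent.Lib.MP_aa9b81_an.Cb
end
end

section

/-!
# Continuous Bernoulli, part F5: unit vectors on finite sets
-/

open scoped ENNReal Topology
open Function

noncomputable section

set_option linter.unusedSectionVars false

namespace Pool.Agent.Lib.MP_aa9b81_an.Cb

open Cut Hs

variable {I I₀ : Type}

/-- The `ℓ²` norm of `a` on the finite set `F`. -/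
def nF (F : Finset I) (a : I → ℝ) : ℝ := √(∑ i ∈ F, a i ^ 2)

theorem nF_nonneg (F : Finset I) (a : I → ℝ) : 0 ≤ nF F a := Real.sqrt_nonneg _

theorem nF_sq (F : Finset I) (a : I → ℝ) : nF F a ^ 2 = ∑ i ∈ F, a i ^ 2 :=
  Real.sq_sqrt (Finset.sum_nonneg fun _ _ => sq_nonneg _)

theorem nF_congr {F : Finset I} {a b : I → ℝ} (h : ∀ i ∈ F, a i = b i) : nF F a = nF F b := by
  unfold nF
  rw [Finset.sum_congr rfl fun i hi => by rw [h i hi]]

theorem nF_empty (a : I → ℝ) : nF ∅ a = 0 := by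
  unfold nF
  rw [Finset.sum_empty, Real.sqrt_zero]

theorem nF_map (s : I₀ ↪ I) (F : Finset I₀) (a : I → ℝ) :
    nF (F.map s) a = nF F fun i => a (s i) := by
  unfold nF
  rw [Finset.sum_map]

theorem nF_le_iff {F : Finset I} {a : I → ℝ} {C : ℝ} (hC : 0 ≤ C) :
    nF F a ≤ C ↔ ∑ i ∈ F, a i ^ 2 ≤ C ^ 2 := by
  unfold nF
  rw [Real.sqrt_le_left hC]

theorem nF_mono {F F' : Finset I} (h : F ⊆ F') (a : I → ℝ) : nF F a ≤ nF F' a :=
  Real.sqrt_le_sqrt (Finset.sum_le_sum_of_subset_of_nonneg h fun _ _ _ => sq_nonneg _)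

theorem nF_mono_fun {F : Finset I} {a b : I → ℝ} (h : ∀ i ∈ F, |a i| ≤ |b i|) :
    nF F a ≤ nF F b :=
  Real.sqrt_le_sqrt (Finset.sum_le_sum fun i hi => sq_le_sq.2 (h i hi))

theorem nF_smul (F : Finset I) (c : ℝ) (a : I → ℝ) : (nF F fun i => c * a i) = |c| * nF F a := by
  unfold nF
  have h : ∑ i ∈ F, (c * a i) ^ 2 = c ^ 2 * ∑ i ∈ F, a i ^ 2 := by
    rw [Finset.mul_sum]
    exact Finset.sum_congr rfl fun i _ => by ring
  rw [h, Real.sqrt_mul (sq_nonneg c), Real.sqrt_sq_eq_abs]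

theorem nF_div (F : Finset I) {c : ℝ} (hc : 0 ≤ c) (a : I → ℝ) :
    (nF F fun i => a i / c) = nF F a / c := by
  have h := nF_smul F c⁻¹ a
  rw [abs_of_nonneg (inv_nonneg.2 hc)] at h
  rw [div_eq_inv_mul, ← h]
  exact nF_congr fun i _ => by rw [div_eq_inv_mul]

/-- PROOF: Cauchy-Schwarz, as `Hs.CB.add`. -/
theorem nF_add_le (F : Finset I) (a b : I → ℝ) :
    (nF F fun i => a i + b i) ≤ nF F a + nF F b := by
  rw [nF_le_iff (add_nonneg (nF_nonneg _ _) (nF_nonneg _ _))]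
  have h1 := Finset.sum_mul_sq_le_sq_mul_sq F a b
  rw [← nF_sq, ← nF_sq, ← mul_pow] at h1
  have h5 : ∑ i ∈ F, a i * b i ≤ nF F a * nF F b :=
    le_of_abs_le (abs_le_of_sq_le_sq h1 (mul_nonneg (nF_nonneg _ _) (nF_nonneg _ _)))
  have h6 : ∑ i ∈ F, (a i + b i) ^ 2 =
      ∑ i ∈ F, a i ^ 2 + 2 * ∑ i ∈ F, a i * b i + ∑ i ∈ F, b i ^ 2 := by
    rw [Finset.mul_sum, ← Finset.sum_add_distrib, ← Finset.sum_add_distrib]
    exact Finset.sum_congr rfl fun i _ => by ring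
  rw [h6, ← nF_sq, ← nF_sq]
  nlinarith

theorem nF_neg (F : Finset I) (a : I → ℝ) : (nF F fun i => -a i) = nF F a := by
  unfold nF
  simp

theorem nF_sub_comm (F : Finset I) (a b : I → ℝ) :
    (nF F fun i => a i - b i) = nF F fun i => b i - a i := by
  rw [← nF_neg]
  exact nF_congr fun i _ => by ring

theorem nF_le_add_sub (F : Finset I) (a b : I → ℝ) :
    nF F a ≤ nF F b + nF F fun i => a i - b i := by
  have h := nF_add_le F b fun i => a i - b i
  simpa using h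

theorem abs_nF_sub_le (F : Finset I) (a b : I → ℝ) :
    |nF F a - nF F b| ≤ nF F fun i => a i - b i := by
  rw [abs_le]
  have h1 := nF_le_add_sub F a b
  have h2 := nF_le_add_sub F b a
  rw [nF_sub_comm] at h2
  constructor <;> linarith

theorem nF_one (F : Finset I) : (nF F fun _ => 1) = √(F.card : ℝ) := by
  unfold nF
  simp

theorem nF_pos {F : Finset I} (hF : F.Nonempty) {a : I → ℝ} (ha : ∀ i, 0 < a i) : 0 < nF F a :=
  Real.sqrt_pos.2 (Finset.sum_pos (fun i _ => by have := ha i; positivity) hF)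

/-- The normalization is Lipschitz. PROOF: `a/|a| - b/|b| = (a - b)/|a| + b (1/|a| - 1/|b|)`. -/
theorem nF_normalize_sub {F : Finset I} {a b : I → ℝ} (ha : 0 < nF F a) (hb : 0 < nF F b) :
    (nF F fun i => a i / nF F a - b i / nF F b) ≤ 2 * (nF F fun i => a i - b i) / nF F a := by
  have h1 : (nF F fun i => a i / nF F a - b i / nF F b) ≤
      (nF F fun i => (a i - b i) / nF F a) + nF F fun i => (1 / nF F a - 1 / nF F b) * b i := by
    have h := nF_add_le F (fun i => (a i - b i) / nF F a) fun i => (1 / nF F a - 1 / nF F b) * b i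
    refine le_trans (le_of_eq ?_) h
    exact nF_congr fun i _ => by ring
  rw [nF_div F ha.le, nF_smul] at h1
  have h2 : |1 / nF F a - 1 / nF F b| * nF F b ≤ (nF F fun i => a i - b i) / nF F a := by
    have h3 : |1 / nF F a - 1 / nF F b| * nF F b = |nF F a - nF F b| / nF F a := by
      have h4 : 1 / nF F a - 1 / nF F b = -(nF F a - nF F b) / (nF F a * nF F b) := by
        field_simp
        ring
      rw [h4, abs_div, abs_neg, abs_of_pos (mul_pos ha hb)]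
      field_simp
    rw [h3]
    exact div_le_div_of_nonneg_right (abs_nF_sub_le F a b) ha.le
  have h3 : 2 * (nF F fun i => a i - b i) / nF F a =
      (nF F fun i => a i - b i) / nF F a + (nF F fun i => a i - b i) / nF F a := by ring
  rw [h3]
  linarith

/-- The interpolation between the unit vectors along `w` and along `1`. -/
def pp (s : ℝ) (w : I → ℝ) (F : Finset I) (i : I) : ℝ :=
  (1 - s) * (w i / nF F w) + s * (1 / nF F fun _ => 1)

/-- The unit vector along `pp`. -/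
def uu (s : ℝ) (w : I → ℝ) (F : Finset I) (i : I) : ℝ := pp s w F i / nF F (pp s w F)

theorem pp_map (s : ℝ) (w : I → ℝ) (σ : I₀ ↪ I) (F : Finset I₀) (i : I₀) :
    pp s w (F.map σ) (σ i) = pp s (fun i => w (σ i)) F i := by
  unfold pp
  rw [nF_map, nF_map]

theorem uu_map (s : ℝ) (w : I → ℝ) (σ : I₀ ↪ I) (F : Finset I₀) (i : I₀) :
    uu s w (F.map σ) (σ i) = uu s (fun i => w (σ i)) F i := by
  unfold uu
  rw [pp_map, nF_map]
  congr 2
  funext i
  exact pp_map s w σ F i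

theorem pc_uu (s : ℝ) (w : I → ℝ) (σ : I₀ ↪ I) : pc σ (uu s w) = uu s fun i => w (σ i) := by
  funext F i
  exact uu_map s w σ F i

theorem CB_uu (s : ℝ) (w : I → ℝ) : CB (uu s w) 1 := by
  refine ⟨zero_le_one, fun F => ?_⟩
  have h1 : ∑ i ∈ F, uu s w F i ^ 2 = nF F (pp s w F) ^ 2 / nF F (pp s w F) ^ 2 := by
    rw [nF_sq, Finset.sum_div]
    refine Finset.sum_congr rfl fun i _ => ?_
    rw [uu, div_pow, nF_sq]
  rw [h1, one_pow]
  exact div_self_le_one _

theorem nF_unit {F : Finset I} {a : I → ℝ} (ha : 0 < nF F a) : (nF F fun i => a i / nF F a) = 1 := by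
  rw [nF_div F ha.le, div_self ha.ne']

/-- PROOF: `∑ pp² ≥ (1-s)² ∑ (w/|w|)² + s² ∑ (1/√|F|)² = (1-s)² + s² ≥ 1/2`. -/
theorem nF_pp_ge {s : ℝ} (hs : 0 ≤ s) (hs1 : s ≤ 1) {w : I → ℝ} (hw : ∀ i, 1 ≤ w i) {F : Finset I}
    (hF : F.Nonempty) : 1 / 2 ≤ nF F (pp s w F) := by
  have hw0 : ∀ i, 0 < w i := fun i => lt_of_lt_of_le one_pos (hw i)
  have h1 := nF_pos hF hw0
  have h2 := nF_pos hF (a := fun _ => (1 : ℝ)) fun _ => one_pos
  have h3 := nF_unit h1
  have h4 : (nF F fun _ => 1 / nF F fun _ => (1 : ℝ)) = 1 := nF_unit (a := fun _ => (1 : ℝ)) h2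
  have h5 : (1 - s) ^ 2 + s ^ 2 ≤ nF F (pp s w F) ^ 2 := by
    have e3 : ∑ i ∈ F, (w i / nF F w) ^ 2 = 1 := by
      rw [← nF_sq, h3, one_pow]
    have e4 : ∑ i ∈ F, (1 / nF F fun _ => (1 : ℝ)) ^ 2 = 1 := by
      rw [← nF_sq F fun _ => 1 / nF F fun _ => (1 : ℝ), h4, one_pow]
    rw [nF_sq]
    calc (1 - s) ^ 2 + s ^ 2 = ∑ i ∈ F, ((1 - s) ^ 2 * (w i / nF F w) ^ 2 +
          s ^ 2 * (1 / nF F fun _ => (1 : ℝ)) ^ 2) := by
          rw [Finset.sum_add_distrib, ← Finset.mul_sum, ← Finset.mul_sum, e3, e4]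
          ring
      _ ≤ _ := by
          refine Finset.sum_le_sum fun i _ => ?_
          have h6 : 0 ≤ (1 - s) * (w i / nF F w) :=
            mul_nonneg (by linarith) (div_nonneg (hw0 i).le h1.le)
          have h7 : 0 ≤ s * (1 / nF F fun _ => (1 : ℝ)) :=
            mul_nonneg hs (div_nonneg zero_le_one h2.le)
          unfold pp
          nlinarith [mul_nonneg h6 h7]
  have h6 : 0 ≤ nF F (pp s w F) := nF_nonneg _ _
  nlinarith [sq_nonneg (1 - 2 * s)]

/-- PROOF: `nF_pp_ge`. -/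
theorem sum_uu_sq [DecidableEq I] {s : ℝ} (hs : 0 ≤ s) (hs1 : s ≤ 1) {w : I → ℝ} (hw : ∀ i, 1 ≤ w i)
    (F : Finset I) : ∑ i ∈ F, uu s w F i ^ 2 = if F = ∅ then 0 else 1 := by
  split_ifs with h
  · rw [h, Finset.sum_empty]
  · have h1 := nF_pp_ge hs hs1 hw (Finset.nonempty_iff_ne_empty.2 h)
    have h2 : 0 < nF F (pp s w F) := by linarith
    have h3 := nF_unit h2
    rw [← nF_sq F (uu s w F)]
    have h4 : nF F (uu s w F) = 1 := h3
    rw [h4, one_pow]

theorem nF_uu_le (s : ℝ) (w : I → ℝ) (F : Finset I) : nF F (uu s w F) ≤ 1 := by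
  rw [nF_le_iff zero_le_one]
  exact (CB_uu s w).bdd F

/-- PROOF: `nF_normalize_sub`, `nF_pp_ge`; `pp s - pp s' = (s' - s) (w/|w| - 1/√|F|)`. -/
theorem nF_uu_sub_s {s s' : ℝ} (hs : 0 ≤ s) (hs1 : s ≤ 1) (hs' : 0 ≤ s') (hs1' : s' ≤ 1)
    {w : I → ℝ} (hw : ∀ i, 1 ≤ w i) (F : Finset I) :
    (nF F fun i => uu s w F i - uu s' w F i) ≤ 8 * |s - s'| := by
  rcases F.eq_empty_or_nonempty with rfl | hF
  · rw [nF_empty]
    positivity
  have h1 := nF_pp_ge hs hs1 hw hF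
  have h2 := nF_pp_ge hs' hs1' hw hF
  have h3 := nF_normalize_sub (F := F) (a := pp s w F) (b := pp s' w F) (by linarith) (by linarith)
  refine h3.trans ?_
  have hw0 : ∀ i, 0 < w i := fun i => lt_of_lt_of_le one_pos (hw i)
  have h4 := nF_unit (nF_pos hF hw0)
  have h5 : (nF F fun _ => 1 / nF F fun _ => (1 : ℝ)) = 1 :=
    nF_unit (a := fun _ => (1 : ℝ)) (nF_pos hF fun _ => one_pos)
  have h6 : (nF F fun i => pp s w F i - pp s' w F i) ≤ 2 * |s - s'| := by
    have e1 : (nF F fun i => pp s w F i - pp s' w F i) =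
        nF F fun i => (-(s - s')) * (w i / nF F w) + (s - s') * (1 / nF F fun _ => (1 : ℝ)) :=
      nF_congr fun i _ => by unfold pp; ring
    rw [e1]
    refine (nF_add_le F _ _).trans ?_
    rw [nF_smul, nF_smul F (s - s') fun _ => 1 / nF F fun _ => (1 : ℝ), h4, h5, abs_neg]
    linarith
  rw [div_le_iff₀ (by linarith)]
  have h7 : 0 ≤ |s - s'| := abs_nonneg _
  nlinarith

/-- PROOF: `nF_normalize_sub` twice, `nF_pp_ge`. -/
theorem nF_uu_sub_w {s : ℝ} (hs : 0 ≤ s) (hs1 : s ≤ 1) {w w' : I → ℝ} (hw : ∀ i, 1 ≤ w i)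
    (hw' : ∀ i, 1 ≤ w' i) {F : Finset I} (hF : F.Nonempty) :
    (nF F fun i => uu s w F i - uu s w' F i) ≤ 8 * (nF F fun i => w i - w' i) / nF F w' := by
  have hw0 : ∀ i, 0 < w i := fun i => lt_of_lt_of_le one_pos (hw i)
  have hw0' : ∀ i, 0 < w' i := fun i => lt_of_lt_of_le one_pos (hw' i)
  have h1 := nF_pp_ge hs hs1 hw hF
  have h2 := nF_pp_ge hs hs1 hw' hF
  have h3 := nF_normalize_sub (F := F) (a := pp s w F) (b := pp s w' F) (by linarith) (by linarith)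
  refine h3.trans ?_
  have h4 : (nF F fun i => pp s w F i - pp s w' F i) ≤
      2 * (nF F fun i => w i - w' i) / nF F w' := by
    have e1 : (nF F fun i => pp s w F i - pp s w' F i) =
        nF F fun i => (1 - s) * (w i / nF F w - w' i / nF F w') :=
      nF_congr fun i _ => by unfold pp; ring
    rw [e1, nF_smul, abs_of_nonneg (by linarith)]
    have h5 := nF_normalize_sub (F := F) (a := w') (b := w) (nF_pos hF hw0') (nF_pos hF hw0)
    rw [nF_sub_comm F w w', nF_sub_comm F (fun i => w i / nF F w) fun i => w' i / nF F w']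
    have h6 := nF_nonneg F fun i => w' i / nF F w' - w i / nF F w
    nlinarith
  rw [div_le_iff₀ (by linarith)]
  have h5 := nF_nonneg F fun i => pp s w F i - pp s w' F i
  have h6 : 8 * (nF F fun i => w i - w' i) / nF F w' =
    4 * (2 * (nF F fun i => w i - w' i) / nF F w') := by ring
  rw [h6]
  nlinarith

end Pool.Agent.Lib.MP_aa9b81_an.Cb
end
end

section

/-!
# Continuous Bernoulli, part F7: separated sets and weights on a group
-/

open scoped ENNReal Topology Pointwise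
open Function Filter

noncomputable section

set_option linter.unusedSectionVars false

namespace Pool.Agent.Lib.MP_aa9b81_an.Cb

open Cut Hs

variable {G : Type} [Group G] [TopologicalSpace G]

theorem Sep.mono {V D D' : Set G} (h : Sep V D) (hD : D' ⊆ D) : Sep V D' :=
  fun a ha b hb hab => h a (hD ha) b (hD hb) hab

/-- Translates of separated sets are separated. -/
theorem Sep.translate {V : Set G} {F : Finset G} (h : Sep V (F : Set G)) (g : G) :
    Sep V ((F.map (mulLeftEmbedding g) : Finset G) : Set G) := by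
  intro a ha b hb hab
  rw [Finset.coe_map] at ha hb
  obtain ⟨a, ha, rfl⟩ := ha
  obtain ⟨b, hb, rfl⟩ := hb
  have h1 : (mulLeftEmbedding g a)⁻¹ * mulLeftEmbedding g b = a⁻¹ * b := by
    simp only [mulLeftEmbedding_apply]
    group
  rw [h1] at hab
  rw [h a ha b hb hab]

/-- The number of the points of a separated set in a compact set is bounded. PROOF: cover `C` by finitely
many translates `c W` with `W⁻¹ W ⊆ V`; each contains at most one point of `F`. -/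
theorem exists_card_le [IsTopologicalGroup G] {V : Set G} (hV : V ∈ 𝓝 (1 : G)) {C : Set G}
    (hC : IsCompact C) :
    ∃ N : ℕ, ∀ F : Finset G, Sep V (F : Set G) → (F : Set G) ⊆ C → F.card ≤ N := by
  classical
  obtain ⟨W, hW, hWV⟩ : ∃ W ∈ 𝓝 (1 : G), ∀ a ∈ W, ∀ b ∈ W, a⁻¹ * b ∈ V := by
    have h1 : Tendsto (fun p : G × G => p.1⁻¹ * p.2) (𝓝 (1, 1)) (𝓝 1) := by
      have h2 : Continuous fun p : G × G => p.1⁻¹ * p.2 := by fun_prop
      have h3 := h2.tendsto (1, 1)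
      simpa using h3
    have h2 := h1 hV
    rw [nhds_prod_eq, mem_map, mem_prod_self_iff] at h2
    obtain ⟨W, hW, hs⟩ := h2
    exact ⟨W, hW, fun a ha b hb => hs (Set.mk_mem_prod ha hb)⟩
  obtain ⟨t, ht, hcov⟩ := hC.elim_nhds_subcover (fun c => (fun x => c⁻¹ * x) ⁻¹' W) (by
    intro c _
    have h1 : Continuous fun x : G => c⁻¹ * x := by fun_prop
    exact h1.continuousAt.preimage_mem_nhds (by rw [inv_mul_cancel]; exact hW))
  refine ⟨t.card, fun F hF hFC => ?_⟩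
  have h1 : ∀ a ∈ F, ∃ c ∈ t, c⁻¹ * a ∈ W := by
    intro a ha
    have h2 := hcov (hFC ha)
    simp only [Set.mem_iUnion] at h2
    obtain ⟨c, hc, h3⟩ := h2
    exact ⟨c, hc, h3⟩
  choose! φ hφ hφ' using h1
  refine Finset.card_le_card_of_injOn φ (fun a ha => hφ a ha) fun a ha b hb hab => ?_
  refine hF a ha b hb ?_
  have h2 := hWV _ (hφ' a ha) _ (hφ' b hb)
  have h3 : (φ a)⁻¹ * b = (φ b)⁻¹ * b := by rw [hab]
  rw [← h3] at h2
  have h4 : ((φ a)⁻¹ * a)⁻¹ * ((φ a)⁻¹ * b) = a⁻¹ * b := by group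
  rwa [h4] at h2

/-- The norm of a bounded function on a separated set in a compact set. -/
theorem exists_nF_le [IsTopologicalGroup G] {V : Set G} (hV : V ∈ 𝓝 (1 : G)) {C : Set G}
    (hC : IsCompact C) {w : G → ℝ} (hw : Continuous w) :
    ∃ m : ℝ, 0 ≤ m ∧ ∀ F : Finset G, Sep V (F : Set G) → (F : Set G) ⊆ C → nF F w ≤ m := by
  obtain ⟨N, hN⟩ := exists_card_le hV hC
  obtain ⟨B, hB⟩ := hC.exists_bound_of_continuousOn hw.continuousOn
  refine ⟨√(N : ℝ) * |B|, by positivity, fun F hF hFC => ?_⟩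
  rw [nF_le_iff (by positivity), mul_pow, Real.sq_sqrt (Nat.cast_nonneg _), sq_abs]
  have h1 : ∑ i ∈ F, w i ^ 2 ≤ ∑ i ∈ F, B ^ 2 := by
    refine Finset.sum_le_sum fun i hi => ?_
    have h2 := hB i (hFC hi)
    rw [Real.norm_eq_abs] at h2
    rw [← sq_abs]
    exact pow_le_pow_left₀ (abs_nonneg _) h2 2
  rw [Finset.sum_const, nsmul_eq_mul] at h1
  refine h1.trans (mul_le_mul_of_nonneg_right ?_ (sq_nonneg _))
  exact_mod_cast hN F hF hFC

/-- A weight on a locally compact group: continuous, proper, of bounded variation under compact sets. -/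
structure Wc (G : Type) [Group G] [TopologicalSpace G] where
  /-- the weight -/
  w : G → ℝ
  cont : Continuous w
  one_le : ∀ i, 1 ≤ w i
  proper : ∀ R : ℝ, ∃ K : Set G, IsCompact K ∧ {i | w i ≤ R} ⊆ K
  var : ∀ C : Set G, IsCompact C → ∃ c : ℝ, 0 ≤ c ∧ ∀ g ∈ C, ∀ i, |w (g * i) - w i| ≤ c

/-- PROOF. Let `K_n` be a compact exhaustion. Choose compact sets `A_n` with `L_n L_n ∪ L_n ⊆ interior A_{n+1}`,
`L_n = A_n ∪ K_n`. With `ℓ(x) = min {n | x ∈ A_n}`: `ℓ(g i) ≤ max (m, ℓ(i)) + 1` for `g ∈ K_m`. Let `f_n` be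
continuous, `1` on `A_n`, `0` outside the interior of `A_{n+1}`, and `w = 1 + ∑ (1 - f_n)`; then `ℓ ≤ w ≤ ℓ + 1`. -/
theorem exists_wc [IsTopologicalGroup G] [LocallyCompactSpace G] [SigmaCompactSpace G] [T2Space G] :
    Nonempty (Wc G) := by
  classical
  obtain ⟨K⟩ : Nonempty (CompactExhaustion G) := ⟨default⟩
  -- the sets
  have hex : ∀ L : Set G, ∃ A : Set G, IsCompact L → IsCompact A ∧ (L * L) ∪ L ⊆ interior A := by
    intro L
    by_cases hL : IsCompact L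
    · obtain ⟨A, hA, hA'⟩ := exists_compact_superset ((hL.mul hL).union hL)
      exact ⟨A, fun _ => ⟨hA, hA'⟩⟩
    · exact ⟨∅, fun h => absurd h hL⟩
  choose nx hnx using hex
  let A : ℕ → Set G := fun n => Nat.rec ∅ (fun n X => nx (X ∪ K n)) n
  have hA0 : A 0 = ∅ := rfl
  have hAs : ∀ n, A (n + 1) = nx (A n ∪ K n) := fun n => rfl
  have hAc : ∀ n, IsCompact (A n) := by
    intro n
    induction n with
    | zero => exact isCompact_empty
    | succ n ih => exact (hnx _ (ih.union (K.isCompact n))).1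
  have hAi : ∀ n, ((A n ∪ K n) * (A n ∪ K n)) ∪ (A n ∪ K n) ⊆ interior (A (n + 1)) := fun n =>
    (hnx _ ((hAc n).union (K.isCompact n))).2
  have hAi' : ∀ n, A n ⊆ interior (A (n + 1)) := fun n x hx => hAi n (Or.inr (Or.inl hx))
  have hmono : Monotone A := monotone_nat_of_le_succ fun n => (hAi' n).trans interior_subset
  have hcov : ∀ x, ∃ n, x ∈ A n := by
    intro x
    obtain ⟨n, hn⟩ := K.exists_mem x
    exact ⟨n + 1, interior_subset (hAi n (Or.inr (Or.inr hn)))⟩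
  have hact : ∀ (m n : ℕ) (g i : G), g ∈ K m → i ∈ A n → g * i ∈ A (max m n + 1) := by
    intro m n g i hg hi
    refine interior_subset (hAi (max m n) (Or.inl (Set.mul_mem_mul ?_ ?_)))
    · exact Or.inr (K.subset (le_max_left _ _) hg)
    · exact Or.inl (hmono (le_max_right _ _) hi)
  clear_value A
  obtain ⟨ℓ, hℓ, hℓ'⟩ : ∃ ℓ : G → ℕ, (∀ x, x ∈ A (ℓ x)) ∧ ∀ x n, x ∈ A n → ℓ x ≤ n :=
    ⟨fun x => Nat.find (hcov x), fun x => Nat.find_spec (hcov x),
      fun x n h => Nat.find_min' (hcov x) h⟩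
  have hf : ∀ n, ∃ f : C(G, ℝ), Set.EqOn f 1 (A n) ∧ Set.EqOn f 0 (interior (A (n + 1)))ᶜ ∧
      ∀ x, f x ∈ Set.Icc (0 : ℝ) 1 := by
    intro n
    obtain ⟨f, h1, h2, _, h4⟩ := exists_continuous_one_zero_of_isCompact (hAc n)
      (isOpen_interior (s := A (n + 1))).isClosed_compl
      (Set.disjoint_compl_right_iff_subset.2 (hAi' n))
    exact ⟨f, h1, h2, h4⟩
  choose f hf1 hf0 hf01 using hf
  have hsum : ∀ m x, x ∈ A m → ∑' n, (1 - f n x) = ∑ n ∈ Finset.range m, (1 - f n x) := by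
    intro m x hx
    refine tsum_eq_sum fun n hn => ?_
    have h1 : m ≤ n := by simpa using hn
    rw [hf1 n (hmono h1 hx)]
    simp
  have hup : ∀ x, (1 : ℝ) + ∑' n, (1 - f n x) ≤ (ℓ x : ℝ) + 1 := by
    intro x
    rw [hsum _ x (hℓ x)]
    have h1 : ∑ n ∈ Finset.range (ℓ x), (1 - f n x) ≤ ∑ n ∈ Finset.range (ℓ x), (1 : ℝ) :=
      Finset.sum_le_sum fun n _ => by linarith [(hf01 n x).1]
    rw [Finset.sum_const, Finset.card_range, nsmul_eq_mul, mul_one] at h1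
    linarith
  have hlow : ∀ x, (ℓ x : ℝ) ≤ (1 : ℝ) + ∑' n, (1 - f n x) := by
    intro x
    rw [hsum _ x (hℓ x)]
    rcases Nat.eq_zero_or_pos (ℓ x) with h0 | h0
    · rw [h0]
      simp
    · obtain ⟨m, hm⟩ : ∃ m, ℓ x = m + 1 := ⟨ℓ x - 1, by omega⟩
      rw [hm, Finset.sum_range_succ]
      have h1 : ∑ n ∈ Finset.range m, (1 - f n x) = ∑ n ∈ Finset.range m, (1 : ℝ) := by
        refine Finset.sum_congr rfl fun n hn => ?_
        have h2 : x ∉ A (n + 1) := by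
          intro h3
          have h4 := hℓ' x _ h3
          have h5 := Finset.mem_range.1 hn
          omega
        rw [hf0 n fun h3 => h2 (interior_subset h3)]
        simp
      rw [h1, Finset.sum_const, Finset.card_range, nsmul_eq_mul, mul_one]
      push_cast
      linarith [(hf01 m x).2]
  have hvar : ∀ C : Set G, IsCompact C → ∃ c : ℝ, 0 ≤ c ∧ ∀ g ∈ C, ∀ i,
      (ℓ (g * i) : ℝ) ≤ ℓ i + c := by
    intro C hC
    obtain ⟨m, hm⟩ := K.exists_superset_of_isCompact hC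
    refine ⟨m + 1, by positivity, fun g hg i => ?_⟩
    have h1 := hℓ' _ _ (hact m (ℓ i) g i (hm hg) (hℓ i))
    have h2 : max m (ℓ i) ≤ m + ℓ i := max_le (by omega) (by omega)
    have h3 : ℓ (g * i) ≤ m + ℓ i + 1 := by omega
    have h4 : (ℓ (g * i) : ℝ) ≤ m + ℓ i + 1 := by exact_mod_cast h3
    linarith
  refine ⟨⟨fun x => 1 + ∑' n, (1 - f n x), ?_, fun x => ?_, fun R => ?_, fun C hC => ?_⟩⟩
  · rw [continuous_iff_continuousAt]
    intro x
    have h1 : x ∈ interior (A (ℓ x + 1)) := hAi' _ (hℓ x)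
    have h2 : ContinuousAt (fun y => (1 : ℝ) + ∑ n ∈ Finset.range (ℓ x + 1), (1 - f n y)) x :=
      (continuous_const.add (continuous_finsetSum _ fun n _ =>
        continuous_const.sub (f n).continuous)).continuousAt
    refine h2.congr ?_
    filter_upwards [isOpen_interior.mem_nhds h1] with y hy
    rw [hsum _ y (interior_subset hy)]
  · have h1 : 0 ≤ ∑' n, (1 - f n x) := tsum_nonneg fun n => by linarith [(hf01 n x).2]
    linarith
  · refine ⟨A ⌈R⌉₊, hAc _, fun x hx => ?_⟩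
    have h1 : (ℓ x : ℝ) ≤ R := (hlow x).trans hx
    have h2 : (ℓ x : ℝ) ≤ (⌈R⌉₊ : ℝ) := h1.trans (Nat.le_ceil R)
    exact hmono (by exact_mod_cast h2) (hℓ x)
  · obtain ⟨c₁, hc₁, h1⟩ := hvar C hC
    obtain ⟨c₂, hc₂, h2⟩ := hvar C⁻¹ hC.inv
    refine ⟨c₁ + c₂ + 1, by positivity, fun g hg i => ?_⟩
    have h3 := h1 g hg i
    have h4 := h2 g⁻¹ (Set.inv_mem_inv.2 hg) (g * i)
    rw [inv_mul_cancel_left] at h4
    have h5 := hup (g * i)
    have h6 := hlow (g * i)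
    have h7 := hup i
    have h8 := hlow i
    rw [abs_le]
    constructor <;> linarith

/-- The translated weight `w^(a)(i) = w(a⁻¹ i)`. -/
def Wc.tr (W : Wc G) (a : G) (i : G) : ℝ := W.w (a⁻¹ * i)

theorem Wc.one_le_tr (W : Wc G) (a i : G) : 1 ≤ W.tr a i := W.one_le _

theorem Wc.tr_one (W : Wc G) : W.tr 1 = W.w := by
  funext i
  simp [Wc.tr]

theorem Wc.tr_mul (W : Wc G) (a b i : G) : W.tr (a * b) (a * i) = W.tr b i := by
  unfold Wc.tr
  congr 1
  group

theorem Wc.nF_tr (W : Wc G) (g : G) (F : Finset G) :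
    nF F (W.tr g) = nF (F.map (mulLeftEmbedding g⁻¹)) W.w := by
  rw [nF_map]
  rfl

/-- THE KEY BOUND: on separated sets `√|F|` is small against the norm of the weight. PROOF: with
`N = N(r)` a bound of the number of the separated points in `{w ≤ r}`:
`|F| ≤ N + ∑_{w i > r} 1 ≤ N + |w_F|² / r²`. Choose `r` with `1 / r² ≤ η² / 2` and then `R₀` with
`N ≤ η² R₀² / 2`. -/
theorem Wc.exists_sqrt_card_le [IsTopologicalGroup G] (W : Wc G) {V : Set G}
    (hV : V ∈ 𝓝 (1 : G)) {η : ℝ} (hη : 0 < η) :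
    ∃ R₀ : ℝ, 0 < R₀ ∧ ∀ (g : G) (F : Finset G), Sep V (F : Set G) → R₀ ≤ nF F (W.tr g) →
      √(F.card : ℝ) ≤ η * nF F (W.tr g) := by
  classical
  have key : ∃ R₀ : ℝ, 0 < R₀ ∧ ∀ F : Finset G, Sep V (F : Set G) → R₀ ≤ nF F W.w →
      √(F.card : ℝ) ≤ η * nF F W.w := by
    obtain ⟨r, hr⟩ : ∃ r : ℝ, r = 2 / η := ⟨_, rfl⟩
    have hr0 : 0 < r := by rw [hr]; positivity
    obtain ⟨K, hK, hKr⟩ := W.proper r
    obtain ⟨N, hN⟩ := exists_card_le hV hK
    refine ⟨2 * √(N : ℝ) / η + 1, by positivity, fun F hF hR => ?_⟩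
    have h1 : ((F.filter fun i => W.w i ≤ r).card : ℝ) ≤ N := by
      have h2 := hN (F.filter fun i => W.w i ≤ r) (hF.mono (by
        intro i hi
        exact (Finset.mem_filter.1 hi).1)) (by
        intro i hi
        exact hKr (Finset.mem_filter.1 hi).2)
      exact_mod_cast h2
    have h2 : ((F.filter fun i => ¬ W.w i ≤ r).card : ℝ) * r ^ 2 ≤ nF F W.w ^ 2 := by
      rw [nF_sq]
      calc ((F.filter fun i => ¬ W.w i ≤ r).card : ℝ) * r ^ 2
          = ∑ i ∈ F.filter fun i => ¬ W.w i ≤ r, r ^ 2 := by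
            rw [Finset.sum_const, nsmul_eq_mul]
        _ ≤ ∑ i ∈ F.filter fun i => ¬ W.w i ≤ r, W.w i ^ 2 := by
            refine Finset.sum_le_sum fun i hi => ?_
            have h3 := (Finset.mem_filter.1 hi).2
            push Not at h3
            exact pow_le_pow_left₀ hr0.le h3.le 2
        _ ≤ _ := Finset.sum_le_sum_of_subset_of_nonneg (Finset.filter_subset _ _)
            fun _ _ _ => sq_nonneg _
    have h3 : (F.card : ℝ) = ((F.filter fun i => W.w i ≤ r).card : ℝ) +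
        ((F.filter fun i => ¬ W.w i ≤ r).card : ℝ) := by
      rw [← Nat.cast_add, Finset.card_filter_add_card_filter_not]
    have hn : 0 ≤ nF F W.w := nF_nonneg _ _
    rw [Real.sqrt_le_left (by positivity), h3, mul_pow]
    have h4 : ((F.filter fun i => ¬ W.w i ≤ r).card : ℝ) ≤ η ^ 2 / 4 * nF F W.w ^ 2 := by
      have h5 : r ^ 2 = 4 / η ^ 2 := by rw [hr]; ring
      rw [h5] at h2
      have h6 : ((F.filter fun i => ¬ W.w i ≤ r).card : ℝ) =
          (((F.filter fun i => ¬ W.w i ≤ r).card : ℝ) * (4 / η ^ 2)) * (η ^ 2 / 4) := by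
        field_simp
      rw [h6]
      nlinarith [mul_le_mul_of_nonneg_right h2 (show (0 : ℝ) ≤ η ^ 2 / 4 by positivity)]
    have h5 : (N : ℝ) ≤ η ^ 2 / 4 * nF F W.w ^ 2 := by
      have h6 : 2 * √(N : ℝ) / η ≤ nF F W.w := by linarith
      have h7 : √(N : ℝ) ≤ η / 2 * nF F W.w := by
        rw [div_le_iff₀ hη] at h6
        linarith
      have h8 := pow_le_pow_left₀ (Real.sqrt_nonneg _) h7 2
      rw [Real.sq_sqrt (Nat.cast_nonneg _)] at h8
      linarith [mul_pow (η / 2) (nF F W.w) 2, show (η / 2) ^ 2 = η ^ 2 / 4 by ring,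
        congrArg (fun x => x * nF F W.w ^ 2) (show (η / 2) ^ 2 = η ^ 2 / 4 by ring)]
    have h6 : 0 ≤ η ^ 2 * nF F W.w ^ 2 := by positivity
    linarith
  obtain ⟨R₀, hR₀, h⟩ := key
  refine ⟨R₀, hR₀, fun g F hF hR => ?_⟩
  rw [W.nF_tr] at hR ⊢
  have h1 := h (F.map (mulLeftEmbedding g⁻¹)) (hF.translate g⁻¹) hR
  rwa [Finset.card_map] at h1

/-- The translated weights are close. PROOF: `|w(i) - w(g⁻¹ i)| ≤ c`. -/
theorem Wc.exists_sub_le (W : Wc G) {C : Set G} (hC : IsCompact C) [IsTopologicalGroup G] :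
    ∃ c : ℝ, 0 ≤ c ∧ ∀ g ∈ C, ∀ F : Finset G,
      (nF F fun i => W.w i - W.tr g i) ≤ c * √(F.card : ℝ) := by
  obtain ⟨c, hc, h⟩ := W.var C⁻¹ hC.inv
  refine ⟨c, hc, fun g hg F => ?_⟩
  rw [← nF_one F]
  have h1 := nF_smul F c fun _ => (1 : ℝ)
  rw [abs_of_nonneg hc] at h1
  rw [← h1]
  refine nF_mono_fun fun i _ => ?_
  have h2 := h g⁻¹ (Set.inv_mem_inv.2 hg) i
  rw [abs_sub_comm] at h2
  rw [mul_one, abs_of_nonneg hc]
  exact h2

/-- The unit vectors of the translated weights are close on large separated sets. -/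
theorem Wc.exists_uu_le [IsTopologicalGroup G] (W : Wc G) {V : Set G} (hV : V ∈ 𝓝 (1 : G))
    {C : Set G} (hC : IsCompact C) {η : ℝ} (hη : 0 < η) :
    ∃ R₀ : ℝ, 0 < R₀ ∧ ∀ g ∈ C, ∀ s : ℝ, 0 ≤ s → s ≤ 1 → ∀ F : Finset G, Sep V (F : Set G) →
      R₀ ≤ nF F (W.tr g) → (nF F fun i => uu s W.w F i - uu s (W.tr g) F i) ≤ η := by
  obtain ⟨c, hc, h⟩ := W.exists_sub_le hC
  obtain ⟨R₀, hR₀, h'⟩ := W.exists_sqrt_card_le hV (η := η / (8 * (c + 1))) (by positivity)
  refine ⟨R₀, hR₀, fun g hg s hs hs1 F hF hR => ?_⟩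
  have hpos : 0 < nF F (W.tr g) := hR₀.trans_le hR
  have hne : F.Nonempty := by
    rw [Finset.nonempty_iff_ne_empty]
    rintro rfl
    rw [nF_empty] at hpos
    exact lt_irrefl _ hpos
  refine (nF_uu_sub_w hs hs1 W.one_le (W.one_le_tr g) hne).trans ?_
  rw [div_le_iff₀ hpos]
  have h1 := h g hg F
  have h2 := h' g F hF hR
  have h3 : c * √(F.card : ℝ) ≤ c * (η / (8 * (c + 1)) * nF F (W.tr g)) :=
    mul_le_mul_of_nonneg_left h2 hc
  have h4 : c * (η / (8 * (c + 1)) * nF F (W.tr g)) ≤ η / 8 * nF F (W.tr g) := by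
    have h5 : c * (η / (8 * (c + 1)) * nF F (W.tr g)) =
        c / (c + 1) * (η / 8 * nF F (W.tr g)) := by
      field_simp
    rw [h5]
    have h6 : c / (c + 1) ≤ 1 := by
      rw [div_le_one (by linarith)]
      linarith
    have h7 : 0 ≤ η / 8 * nF F (W.tr g) := by positivity
    nlinarith
  linarith

end Pool.Agent.Lib.MP_aa9b81_an.Cb
end
end
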