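import Pool.Agent.Lib.MP_aa9b81_an.Mg.G059
import Pool.Agent.Lib.MP_aa9b81_an.Mg.G064

section

/-!
# Continuous Bernoulli, part Lba: Schur's test
-/

open scoped ENNReal Topology Pointwise
open Function Filter MeasureTheory

noncomputable section

set_option linter.unusedSectionVars false

namespace Pool.Agent.Lib.MP_aa9b81_an.Cb

open Cut Hs

variable {G J J' J'' : Type} [Group G] [TopologicalSpace G] [IsTopologicalGroup G]
  [LocallyCompactSpace G] [SecondCountableTopology G] [T2Space G] [MeasurableSpace G] [BorelSpace G]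

/-- The Schur constant of a compact set. -/
def cs (C : Set G) : ℝ := √((mu G).real C * (mu G).real C⁻¹)

private theorem Lba_cs {X : Type} [MeasurableSpace X] (ν : Measure X) {g : X → ℝ≥0∞}
    (hg : Measurable g) (S : Set X) :
    (∫⁻ b in S, g b ∂ν) ^ 2 ≤ ν S * ∫⁻ b in S, g b ^ 2 ∂ν := by
  have h1 := ENNReal.lintegral_mul_le_Lp_mul_Lq (ν.restrict S) (p := 2) (q := 2)
    Real.HolderConjugate.two_two (f := fun _ => 1) (g := g) aemeasurable_const hg.aemeasurable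
  have h2 : ∫⁻ b in S, g b ∂ν ≤ (ν S) ^ (1 / 2 : ℝ) * (∫⁻ b in S, g b ^ 2 ∂ν) ^ (1 / 2 : ℝ) := by
    simpa using h1
  calc (∫⁻ b in S, g b ∂ν) ^ 2
      ≤ ((ν S) ^ (1 / 2 : ℝ) * (∫⁻ b in S, g b ^ 2 ∂ν) ^ (1 / 2 : ℝ)) ^ 2 :=
        pow_le_pow_left' h2 2
    _ = ν S * ∫⁻ b in S, g b ^ 2 ∂ν := by
        rw [mul_pow, ← ENNReal.rpow_natCast, ← ENNReal.rpow_natCast, ← ENNReal.rpow_mul,
          ← ENNReal.rpow_mul]
        norm_num

/-- Schur's test. PROOF: by the Cauchy-Schwarz inequality (`ENNReal.lintegral_mul_le_Lp_mul_Lq` with `p = q = 2`, for `f` and `1` on the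
restricted measure, or `ENNReal.inner_le_Lp_mul_Lq`-like)
`(∫⁻_{b, a⁻¹ b ∈ C} f b)² ≤ mu {b | a⁻¹ b ∈ C} * ∫⁻_{b, a⁻¹ b ∈ C} f b ²`, and `mu {b | a⁻¹ b ∈ C} = mu C` by left invariance
(`measure_preimage_mul`). Then Tonelli (`lintegral_lintegral_swap`): `∫⁻_a ∫⁻_b [a⁻¹ b ∈ C] f b ² = ∫⁻_b f b ² mu {a | a⁻¹ b ∈ C}` and
`{a | a⁻¹ b ∈ C} = b C⁻¹ = {a | b⁻¹ a ∈ C⁻¹}` has the measure `mu C⁻¹`. -/
theorem schur {C : Set G} (hC : IsCompact C) {f : G → ℝ≥0∞} (hf : AEMeasurable f (mu G)) :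
    ∫⁻ a, (∫⁻ b in {b | a⁻¹ * b ∈ C}, f b ∂mu G) ^ 2 ∂mu G ≤
      mu G C * mu G C⁻¹ * ∫⁻ b, f b ^ 2 ∂mu G := by
  classical
  have hCm : MeasurableSet C := hC.isClosed.measurableSet
  -- reduction to a measurable function
  have hfm : Measurable (hf.mk f) := hf.measurable_mk
  have hfe : f =ᵐ[mu G] hf.mk f := hf.ae_eq_mk
  have e1 : ∀ a : G, ∫⁻ b in {b | a⁻¹ * b ∈ C}, f b ∂mu G =
      ∫⁻ b in {b | a⁻¹ * b ∈ C}, hf.mk f b ∂mu G := fun a =>
    lintegral_congr_ae (ae_restrict_of_ae hfe)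
  have e2 : ∫⁻ b, f b ^ 2 ∂mu G = ∫⁻ b, hf.mk f b ^ 2 ∂mu G :=
    lintegral_congr_ae (hfe.mono fun b hb => by simp only [hb])
  rw [e2]
  simp only [e1]
  generalize hf.mk f = g at hfm
  have hS : ∀ a : G, MeasurableSet {b : G | a⁻¹ * b ∈ C} := fun a =>
    (continuous_const_mul a⁻¹).measurable hCm
  have hμS : ∀ a : G, mu G {b : G | a⁻¹ * b ∈ C} = mu G C := fun a =>
    measure_preimage_mul (mu G) a⁻¹ C
  have hμT : ∀ b : G, mu G {a : G | a⁻¹ * b ∈ C} = mu G C⁻¹ := fun b => by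
    rw [← measure_preimage_mul (mu G) b⁻¹ C⁻¹]
    congr 1
    ext a
    simp only [Set.mem_setOf_eq, Set.mem_preimage, Set.mem_inv, mul_inv_rev, inv_inv]
  have hCS : ∀ a : G, (∫⁻ b in {b | a⁻¹ * b ∈ C}, g b ∂mu G) ^ 2 ≤
      mu G C * ∫⁻ b, ({b | a⁻¹ * b ∈ C} : Set G).indicator (fun b => g b ^ 2) b ∂mu G := by
    intro a
    rw [lintegral_indicator (hS a), ← hμS a]
    exact Lba_cs _ hfm _
  refine (lintegral_mono hCS).trans ?_
  have hmeas : Measurable (uncurry fun a b : G =>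
      ({b | a⁻¹ * b ∈ C} : Set G).indicator (fun b => g b ^ 2) b) := by
    have h1 : (uncurry fun a b : G =>
        ({b | a⁻¹ * b ∈ C} : Set G).indicator (fun b => g b ^ 2) b) =
        ({p : G × G | p.1⁻¹ * p.2 ∈ C}).indicator (fun p => g p.2 ^ 2) := by
      ext p
      rfl
    rw [h1]
    refine Measurable.indicator ((hfm.comp measurable_snd).pow_const 2) ?_
    exact (continuous_fst.inv.mul continuous_snd).measurable hCm
  rw [lintegral_const_mul _ (Measurable.lintegral_prod_right hmeas),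
    lintegral_lintegral_swap hmeas.aemeasurable, mul_assoc]
  refine mul_le_mul_right (le_of_eq ?_) _
  have h2 : ∀ b : G, ∫⁻ a, ({b | a⁻¹ * b ∈ C} : Set G).indicator (fun b => g b ^ 2) b ∂mu G =
      mu G C⁻¹ * g b ^ 2 := by
    intro b
    have h3 : (fun a : G => ({b | a⁻¹ * b ∈ C} : Set G).indicator (fun b => g b ^ 2) b) =
        ({a : G | a⁻¹ * b ∈ C} : Set G).indicator (fun _ => g b ^ 2) := by
      ext a
      rfl
    rw [h3, lintegral_indicator_const, hμT b, mul_comm]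
    exact (continuous_inv.mul continuous_const).measurable hCm
  simp only [h2]
  rw [lintegral_const_mul _ (hfm.pow_const 2)]

/-- A function in `L²` is integrable over compact sets. PROOF: `MemLp.mono_exponent` on the finite measure `(mu G).restrict K`
(`IsCompact.measure_lt_top`). -/
theorem integrableOn_HG (ξ : HG G J) {K : Set G} (hK : IsCompact K) :
    IntegrableOn (ξ : G → L2 J) K (mu G) := by
  haveI : IsFiniteMeasure ((mu G).restrict K) :=
    ⟨by rw [Measure.restrict_apply_univ]; exact hK.measure_lt_top⟩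
  have h1 : MemLp (ξ : G → L2 J) 2 ((mu G).restrict K) := (Lp.memLp ξ).restrict K
  have h2 : MemLp (ξ : G → L2 J) 1 ((mu G).restrict K) := h1.mono_exponent (by norm_num)
  exact memLp_one_iff_integrable.1 h2

end Pool.Agent.Lib.MP_aa9b81_an.Cb
end
end

section

/-!
# Continuous Bernoulli, part Lb: kernel operators on `L²(G, ℓ²(J))`
-/

open scoped ENNReal Topology Pointwise
open Function Filter MeasureTheory

noncomputable section

set_option linter.unusedSectionVars false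

namespace Pool.Agent.Lib.MP_aa9b81_an.Cb

open Cut Hs

/-- The data of a kernel operator: the kernel is jointly strongly continuous, bounded by `M`, and supported in
`a⁻¹ b ∈ C`, `C` compact. -/
structure KOK {G J J' : Type} [Group G] [TopologicalSpace G] (C : Set G) (M : ℝ)
    (k : G → G → (L2 J →L[ℂ] L2 J')) : Prop where
  cpt : IsCompact C
  nonneg : 0 ≤ M
  cont : ∀ v, Continuous fun p : G × G => k p.1 p.2 v
  bdd : ∀ a b, ‖k a b‖ ≤ M
  supp : ∀ a b, a⁻¹ * b ∉ C → k a b = 0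

theorem KOK.sc {G J J' : Type} [Group G] [TopologicalSpace G] {C : Set G} {M : ℝ}
    {k : G → G → (L2 J →L[ℂ] L2 J')} (h : KOK C M k) : SC fun p : G × G => k p.1 p.2 :=
  ⟨h.cont, M, fun p => h.bdd p.1 p.2⟩

variable {G J J' J'' : Type} [Group G] [TopologicalSpace G] [IsTopologicalGroup G]
  [LocallyCompactSpace G] [SecondCountableTopology G] [T2Space G] [MeasurableSpace G] [BorelSpace G]

private theorem Lb_compact {C : Set G} (hC : IsCompact C) (a : G) :
    IsCompact {b | a⁻¹ * b ∈ C} := by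
  have h1 : (fun x => a * x) '' C = {b | a⁻¹ * b ∈ C} := by
    ext b
    constructor
    · rintro ⟨x, hx, rfl⟩
      change a⁻¹ * (a * x) ∈ C
      rw [inv_mul_cancel_left]
      exact hx
    · intro hb
      exact ⟨a⁻¹ * b, hb, mul_inv_cancel_left a b⟩
  rw [← h1]
  exact hC.image (continuous_const_mul a)

/-- The integrand. PROOF: measurable by `SC.aesm` for `b ↦ k a b` (`h.cont` composed with `b ↦ (a, b)`), zero outside of the compact set `{b | a⁻¹ b ∈ C}`
(the image of `C` under `x ↦ a x`), and bounded by `M ‖ξ b‖`; `integrableOn_HG`. -/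
theorem KOK.integrable {C : Set G} {M : ℝ} {k : G → G → (L2 J →L[ℂ] L2 J')} (h : KOK C M k)
    (ξ : HG G J) (a : G) : Integrable (fun b => k a b (ξ b)) (mu G) := by
  have hm : TopologicalSpace.MetrizableSpace G :=
    TopologicalSpace.metrizableSpace_of_t3_secondCountable G
  have hS := Lb_compact (G := G) h.cpt a
  have hsc : SC fun b : G => k a b :=
    ⟨fun v => (h.cont v).comp (continuous_const.prodMk continuous_id), M, fun b => h.bdd a b⟩
  have h1 : AEStronglyMeasurable (fun b => k a b (ξ b)) (mu G) :=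
    hsc.aesm (Lp.aestronglyMeasurable ξ)
  have h2 : IntegrableOn (fun b => k a b (ξ b)) {b | a⁻¹ * b ∈ C} (mu G) := by
    refine Integrable.mono' ((integrableOn_HG ξ hS).norm.const_mul M) h1.restrict ?_
    exact Filter.Eventually.of_forall fun b => (k a b).le_of_opNorm_le (h.bdd a b) _
  rwa [integrableOn_iff_integrable_of_support_subset] at h2
  intro b hb
  by_contra hcon
  apply hb
  change k a b (ξ b) = 0
  rw [h.supp a b hcon]
  rfl

private theorem Lb_sq {E : Type} [NormedAddCommGroup E] (f : G → E) :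
    eLpNorm f 2 (mu G) ^ 2 = ∫⁻ a, ‖f a‖ₑ ^ 2 ∂mu G := by
  rw [eLpNorm_eq_lintegral_rpow_enorm_toReal (by norm_num) (by norm_num)]
  simp only [ENNReal.toReal_ofNat]
  rw [← ENNReal.rpow_natCast, ← ENNReal.rpow_mul]
  norm_num

private theorem Lb_meas {C : Set G} {M : ℝ} {k : G → G → (L2 J →L[ℂ] L2 J')} (h : KOK C M k)
    (ξ : HG G J) : AEStronglyMeasurable (fun a => ∫ b, k a b (ξ b) ∂mu G) (mu G) := by
  have hm : TopologicalSpace.MetrizableSpace G :=
    TopologicalSpace.metrizableSpace_of_t3_secondCountable G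
  have h1 : AEStronglyMeasurable (fun p : G × G => k p.1 p.2 (ξ p.2)) ((mu G).prod (mu G)) :=
    h.sc.aesm (ξ := fun p : G × G => ξ p.2) (Lp.aestronglyMeasurable ξ).comp_snd
  exact h1.integral_prod_right'

private theorem Lb_bound {C : Set G} {M : ℝ} {k : G → G → (L2 J →L[ℂ] L2 J')} (h : KOK C M k)
    (ξ : HG G J) : eLpNorm (fun a => ∫ b, k a b (ξ b) ∂mu G) 2 (mu G) ≤
      ENNReal.ofReal (M * cs C) * eLpNorm ξ 2 (mu G) := by
  have hp : ∀ a : G, ‖∫ b, k a b (ξ b) ∂mu G‖ₑ ≤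
      ∫⁻ b in {b | a⁻¹ * b ∈ C}, ENNReal.ofReal M * ‖ξ b‖ₑ ∂mu G := by
    intro a
    have hS : MeasurableSet {b | a⁻¹ * b ∈ C} := (Lb_compact (G := G) h.cpt a).measurableSet
    refine (enorm_integral_le_lintegral_enorm _).trans ?_
    rw [← lintegral_indicator hS]
    refine lintegral_mono fun b => ?_
    by_cases hb : b ∈ {b | a⁻¹ * b ∈ C}
    · rw [Set.indicator_of_mem hb]
      have h1 : ‖k a b (ξ b)‖ ≤ M * ‖ξ b‖ := (k a b).le_of_opNorm_le (h.bdd a b) _
      rw [← ofReal_norm, ← ofReal_norm, ← ENNReal.ofReal_mul h.nonneg]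
      exact ENNReal.ofReal_le_ofReal h1
    · rw [Set.indicator_of_notMem hb, h.supp a b hb]
      simp
  have hsq : eLpNorm (fun a => ∫ b, k a b (ξ b) ∂mu G) 2 (mu G) ^ 2 ≤
      (ENNReal.ofReal (M * cs C) * eLpNorm ξ 2 (mu G)) ^ 2 := by
    rw [Lb_sq, mul_pow, Lb_sq]
    have h1 : AEMeasurable (fun b => ENNReal.ofReal M * ‖ξ b‖ₑ) (mu G) :=
      (Lp.aestronglyMeasurable ξ).enorm.const_mul _
    refine (lintegral_mono fun a => pow_le_pow_left' (hp a) 2).trans ?_
    refine (schur h.cpt h1).trans ?_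
    simp_rw [mul_pow]
    rw [lintegral_const_mul'' _ ((Lp.aestronglyMeasurable ξ).enorm.pow_const 2), ← mul_assoc]
    refine mul_le_mul_left ?_ _
    have hC1 : mu G C ≠ ⊤ := h.cpt.measure_lt_top.ne
    have hC2 : mu G C⁻¹ ≠ ⊤ := h.cpt.inv.measure_lt_top.ne
    have h2 : (M * cs C) ^ 2 = ((mu G).real C * (mu G).real C⁻¹) * M ^ 2 := by
      rw [mul_pow, cs, Real.sq_sqrt (by positivity)]
      ring
    have h0 : 0 ≤ M * cs C := mul_nonneg h.nonneg (Real.sqrt_nonneg _)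
    rw [← ENNReal.ofReal_pow h0, h2,
      ENNReal.ofReal_mul (by positivity), ENNReal.ofReal_mul measureReal_nonneg,
      ofReal_measureReal hC1, ofReal_measureReal hC2, ENNReal.ofReal_pow h.nonneg]
  by_contra hcon
  push Not at hcon
  exact absurd hsq (not_le.2 (ENNReal.pow_lt_pow_left two_ne_zero hcon))

private theorem Lb_memLp {C : Set G} {M : ℝ} {k : G → G → (L2 J →L[ℂ] L2 J')} (h : KOK C M k)
    (ξ : HG G J) : MemLp (fun a => ∫ b, k a b (ξ b) ∂mu G) 2 (mu G) :=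
  ⟨Lb_meas h ξ, (Lb_bound h ξ).trans_lt (ENNReal.mul_lt_top ENNReal.ofReal_lt_top
    (Lp.memLp ξ).eLpNorm_lt_top)⟩

/-- PROOF. The function `a ↦ ∫ b, k a b (ξ b)` is a.e. strongly measurable: `(a, b) ↦ k a b (ξ b)` is a.e. strongly measurable on `G × G`
(`SC.aesm` for `h.sc` on `Z = G × G`, whose Borel structure is the product structure, `Prod.opensMeasurableSpace`; `(a, b) ↦ ξ b` is a.e. strongly measurable:
`AEStronglyMeasurable.comp_snd`), and `AEStronglyMeasurable.integral_prod_right'`. Its norm at `a` is at most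
`∫⁻ b, [a⁻¹ b ∈ C] M ‖ξ b‖` (`enorm_integral_le_lintegral_enorm`, `h.supp`, `h.bdd`), so by `schur` the square of its
`L²`-norm is at most `M² mu C mu C⁻¹ ‖ξ‖²`. Linear in `ξ` (`integral_add`, `KOK.integrable`, `Lp.coeFn_add`, `integral_congr_ae`). `LinearMap.mkContinuous`. -/
theorem exists_opk {C : Set G} {M : ℝ} {k : G → G → (L2 J →L[ℂ] L2 J')} (h : KOK C M k) :
    ∃ T : HG G J →L[ℂ] HG G J', ‖T‖ ≤ M * cs C ∧
      ∀ ξ : HG G J, (T ξ : G → L2 J') =ᵐ[mu G] fun a => ∫ b, k a b (ξ b) ∂mu G := by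
  have hadd : ∀ ξ η : HG G J, (fun a => ∫ b, k a b ((ξ + η : HG G J) b) ∂mu G) =
      (fun a => ∫ b, k a b (ξ b) ∂mu G) + fun a => ∫ b, k a b (η b) ∂mu G := by
    intro ξ η
    funext a
    rw [Pi.add_apply, ← integral_add (h.integrable ξ a) (h.integrable η a)]
    refine integral_congr_ae ?_
    filter_upwards [Lp.coeFn_add ξ η] with b hb
    rw [hb, Pi.add_apply, map_add]
  have hsmul : ∀ (c : ℂ) (ξ : HG G J), (fun a => ∫ b, k a b ((c • ξ : HG G J) b) ∂mu G) =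
      c • fun a => ∫ b, k a b (ξ b) ∂mu G := by
    intro c ξ
    funext a
    rw [Pi.smul_apply, ← integral_smul]
    refine integral_congr_ae ?_
    filter_upwards [Lp.coeFn_smul c ξ] with b hb
    rw [hb, Pi.smul_apply, map_smul]
  let L : HG G J →ₗ[ℂ] HG G J' :=
    { toFun := fun ξ => (Lb_memLp h ξ).toLp
      map_add' := fun ξ η => by
        rw [← MemLp.toLp_add]
        exact MemLp.toLp_congr _ _ (Filter.Eventually.of_forall fun a => congrFun (hadd ξ η) a)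
      map_smul' := fun c ξ => by
        rw [RingHom.id_apply, ← MemLp.toLp_const_smul]
        exact MemLp.toLp_congr _ _ (Filter.Eventually.of_forall fun a => congrFun (hsmul c ξ) a) }
  have hM : 0 ≤ M * cs C := mul_nonneg h.nonneg (Real.sqrt_nonneg _)
  refine ⟨L.mkContinuous (M * cs C) fun ξ => ?_, LinearMap.mkContinuous_norm_le _ hM _, fun ξ => ?_⟩
  · change ‖(Lb_memLp h ξ).toLp‖ ≤ _
    rw [Lp.norm_toLp, Lp.norm_def]
    have h1 := ENNReal.toReal_mono (ENNReal.mul_ne_top ENNReal.ofReal_ne_top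
      (Lp.memLp ξ).eLpNorm_lt_top.ne) (Lb_bound h ξ)
    rw [ENNReal.toReal_mul, ENNReal.toReal_ofReal hM] at h1
    exact h1
  · exact (Lb_memLp h ξ).coeFn_toLp

open Classical in
/-- The kernel operator `(opk k ξ)(a) = ∫ k(a, b) ξ(b) db`. -/
def opk (k : G → G → (L2 J →L[ℂ] L2 J')) : HG G J →L[ℂ] HG G J' :=
  if h : ∃ (C : Set G) (M : ℝ), KOK C M k then (exists_opk h.choose_spec.choose_spec).choose else 0

theorem opk_ae {C : Set G} {M : ℝ} {k : G → G → (L2 J →L[ℂ] L2 J')} (h : KOK C M k)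
    (ξ : HG G J) : (opk k ξ : G → L2 J') =ᵐ[mu G] fun a => ∫ b, k a b (ξ b) ∂mu G := by
  have h' : ∃ (C : Set G) (M : ℝ), KOK C M k := ⟨C, M, h⟩
  rw [opk, dif_pos h']
  exact (exists_opk h'.choose_spec.choose_spec).choose_spec.2 ξ

theorem norm_opk_le {C : Set G} {M : ℝ} {k : G → G → (L2 J →L[ℂ] L2 J')} (h : KOK C M k) :
    ‖opk k‖ ≤ M * cs C := by
  obtain ⟨T, hT, hT'⟩ := exists_opk h
  have h1 : opk k = T := ext_ae fun ξ => (opk_ae h ξ).trans (hT' ξ).symm
  rw [h1]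
  exact hT

end Pool.Agent.Lib.MP_aa9b81_an.Cb
end
end

section

/-!
# Continuous Bernoulli, part Ld: products of kernels, dominated convergence
-/

open scoped ENNReal Topology Pointwise
open Function Filter MeasureTheory

noncomputable section

set_option linter.unusedSectionVars false

namespace Pool.Agent.Lib.MP_aa9b81_an.Cb

open Cut Hs

variable {G J J' J'' : Type} [Group G] [TopologicalSpace G] [IsTopologicalGroup G]
  [LocallyCompactSpace G] [SecondCountableTopology G] [T2Space G] [MeasurableSpace G] [BorelSpace G]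

/-- The integral over a compact set, with parameters. -/
theorem continuous_integral {Z E : Type} [TopologicalSpace Z] [NormedAddCommGroup E]
    [NormedSpace ℝ E] {f : Z → G → E} (hf : Continuous fun p : Z × G => f p.1 p.2)
    (hs : ∀ z₀, ∃ K : Set G, IsCompact K ∧ ∀ᶠ z in 𝓝 z₀, ∀ b ∉ K, f z b = 0) :
    Continuous fun z => ∫ b, f z b ∂mu G := by
  rw [continuous_iff_continuousAt]
  intro z₀
  obtain ⟨K, hK, hU⟩ := hs z₀
  have h1 := continuousOn_integral_of_compact_support (μ := mu G) (f := f)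
    (s := {z | ∀ b ∉ K, f z b = 0}) hK hf.continuousOn (fun p x hp hx => hp x hx)
  exact h1.continuousAt hU

private theorem Ld_cpt {C : Set G} (hC : IsCompact C) (a : G) : IsCompact {b | a⁻¹ * b ∈ C} := by
  have h1 : {b | a⁻¹ * b ∈ C} = (fun x => a * x) '' C := by
    ext b
    constructor
    · intro hb
      exact ⟨a⁻¹ * b, hb, by simp⟩
    · rintro ⟨x, hx, rfl⟩
      show a⁻¹ * (a * x) ∈ C
      rw [inv_mul_cancel_left]
      exact hx
  rw [h1]
  exact hC.image (continuous_const.mul continuous_id)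

private theorem Ld_meas {C : Set G} (a : G) : (mu G).real {b | a⁻¹ * b ∈ C} = (mu G).real C := by
  have h1 : mu G {b | a⁻¹ * b ∈ C} = mu G C := measure_preimage_mul (mu G) a⁻¹ C
  rw [Measure.real, Measure.real, h1]

private theorem Ld_sc {C C' : Set G} {M M' : ℝ} {k : G → G → (L2 J' →L[ℂ] L2 J'')}
    {k' : G → G → (L2 J →L[ℂ] L2 J')} (h : KOK C M k) (h' : KOK C' M' k') (v : L2 J) :
    Continuous fun p : (G × G) × G => k p.1.1 p.2 (k' p.2 p.1.2 v) := by
  have h1 : SC fun p : (G × G) × G => k p.1.1 p.2 := by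
    refine ⟨fun w => ?_, M, fun p => h.bdd _ _⟩
    exact (h.cont w).comp ((continuous_fst.comp continuous_fst).prodMk continuous_snd)
  refine h1.apply (v := fun p : (G × G) × G => k' p.2 p.1.2 v) ?_
  exact (h'.cont v).comp (continuous_snd.prodMk (continuous_snd.comp continuous_fst))

private theorem Ld_int {C C' : Set G} {M M' : ℝ} {k : G → G → (L2 J' →L[ℂ] L2 J'')}
    {k' : G → G → (L2 J →L[ℂ] L2 J')} (h : KOK C M k) (h' : KOK C' M' k') (a c : G) (v : L2 J) :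
    Integrable (fun b => k a b (k' b c v)) (mu G) := by
  have h1 : Continuous fun b => k a b (k' b c v) := by
    have := (Ld_sc h h' v).comp ((continuous_const (y := (a, c))).prodMk continuous_id)
    exact this
  refine h1.integrable_of_hasCompactSupport (HasCompactSupport.intro (Ld_cpt h.cpt a) ?_)
  intro b hb
  rw [h.supp a b hb]
  rfl

/-- The product kernel. PROOF: for fixed `a, c` the map `v ↦ ∫ b, k a b (k' b c v)` is linear (the integrand is continuous in `b` by `SC.apply`, supported in the compact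
set `{b | a⁻¹ b ∈ C}`, so integrable: `Continuous.integrable_of_hasCompactSupport`), with norm at most `mu C * M * M' * ‖v‖` (`mu {b | a⁻¹ b ∈ C} = mu C`;
`norm_integral_le_of_norm_le_const`-like on the set). `LinearMap.mkContinuous`. Support: if the integrand is not `0` for some `b`, then `a⁻¹ b ∈ C`, `b⁻¹ c ∈ C'`, so
`a⁻¹ c ∈ C * C'` (`IsCompact.mul`). Continuity: `continuous_integral` with `Z = G × G`, `f p b = k p.1 b (k' b p.2 v)`; for `p` in a neighbourhood of `p₀`, `p.1` is in a compact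
neighbourhood `N` of `p₀.1`, and `b ∈ N * C`. -/
theorem exists_kc {C C' : Set G} {M M' : ℝ} {k : G → G → (L2 J' →L[ℂ] L2 J'')}
    {k' : G → G → (L2 J →L[ℂ] L2 J')} (h : KOK C M k) (h' : KOK C' M' k') :
    ∃ q : G → G → (L2 J →L[ℂ] L2 J''), KOK (C * C') ((mu G).real C * (M * M')) q ∧
      ∀ a c v, q a c v = ∫ b, k a b (k' b c v) ∂mu G := by
  have hbound : ∀ a c v, ‖∫ b, k a b (k' b c v) ∂mu G‖ ≤ (mu G).real C * (M * M') * ‖v‖ := by
    intro a c v
    have h1 : ∫ b, k a b (k' b c v) ∂mu G = ∫ b in {b | a⁻¹ * b ∈ C}, k a b (k' b c v) ∂mu G := by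
      refine (setIntegral_eq_integral_of_forall_compl_eq_zero fun b hb => ?_).symm
      rw [h.supp a b hb]
      rfl
    have h2 : ∀ b ∈ {b | a⁻¹ * b ∈ C}, ‖k a b (k' b c v)‖ ≤ M * M' * ‖v‖ := by
      intro b _
      have e1 := (k a b).le_opNorm (k' b c v)
      have e2 := (k' b c).le_opNorm v
      calc ‖k a b (k' b c v)‖ ≤ ‖k a b‖ * ‖k' b c v‖ := e1
        _ ≤ M * (M' * ‖v‖) := by
          refine mul_le_mul (h.bdd a b) (e2.trans ?_) (norm_nonneg _) h.nonneg
          exact mul_le_mul_of_nonneg_right (h'.bdd b c) (norm_nonneg _)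
        _ = _ := by ring
    rw [h1]
    have h3 := norm_setIntegral_le_of_norm_le_const (μ := mu G) (Ld_cpt h.cpt a).measure_lt_top h2
    rw [Ld_meas] at h3
    calc _ ≤ _ := h3
      _ = _ := by ring
  set q : G → G → (L2 J →L[ℂ] L2 J'') := fun a c => LinearMap.mkContinuous
    { toFun := fun v => ∫ b, k a b (k' b c v) ∂mu G
      map_add' := fun v w => by
        simp only [map_add]
        exact integral_add (Ld_int h h' a c v) (Ld_int h h' a c w)
      map_smul' := fun r v => by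
        simp only [map_smul, RingHom.id_apply]
        exact integral_smul r _ } ((mu G).real C * (M * M')) (hbound a c) with hq
  have hqa : ∀ a c v, q a c v = ∫ b, k a b (k' b c v) ∂mu G := fun a c v => rfl
  have hn : 0 ≤ (mu G).real C * (M * M') :=
    mul_nonneg measureReal_nonneg (mul_nonneg h.nonneg h'.nonneg)
  refine ⟨q, ⟨h.cpt.mul h'.cpt, hn, fun v => ?_, fun a c => ?_, fun a c hac => ?_⟩, hqa⟩
  · simp only [hqa]
    refine continuous_integral (f := fun (p : G × G) b => k p.1 b (k' b p.2 v)) (Ld_sc h h' v)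
      fun z₀ => ?_
    obtain ⟨N, hN, hNz⟩ := exists_compact_mem_nhds z₀.1
    refine ⟨N * C, hN.mul h.cpt, ?_⟩
    have h1 : ∀ᶠ z : G × G in 𝓝 z₀, z.1 ∈ N := continuousAt_fst.eventually hNz
    filter_upwards [h1] with z hz b hb
    have h2 : z.1⁻¹ * b ∉ C := by
      intro h3
      refine hb ⟨z.1, hz, z.1⁻¹ * b, h3, ?_⟩
      simp
    rw [h.supp z.1 b h2]
    rfl
  · exact LinearMap.mkContinuous_norm_le _ hn _
  · refine ContinuousLinearMap.ext fun v => ?_
    rw [hqa]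
    refine (integral_congr_ae (Eventually.of_forall fun b => ?_)).trans (integral_zero _ _)
    show k a b (k' b c v) = 0
    by_cases h1 : a⁻¹ * b ∈ C
    · have h2 : b⁻¹ * c ∉ C' := by
        intro h3
        refine hac ⟨a⁻¹ * b, h1, b⁻¹ * c, h3, ?_⟩
        simp [mul_assoc]
      rw [h'.supp b c h2]
      simp
    · rw [h.supp a b h1]
      rfl

open Classical in
/-- The product kernel `(k * k')(a, c) = ∫ k(a, b) k'(b, c) db`. -/
def kc (k : G → G → (L2 J' →L[ℂ] L2 J'')) (k' : G → G → (L2 J →L[ℂ] L2 J')) :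
    G → G → (L2 J →L[ℂ] L2 J'') :=
  if h : ∃ q : G → G → (L2 J →L[ℂ] L2 J''), ∀ a c v, q a c v = ∫ b, k a b (k' b c v) ∂mu G then
    h.choose else 0

theorem kc_apply {C C' : Set G} {M M' : ℝ} {k : G → G → (L2 J' →L[ℂ] L2 J'')}
    {k' : G → G → (L2 J →L[ℂ] L2 J')} (h : KOK C M k) (h' : KOK C' M' k') (a c : G) (v : L2 J) :
    kc k k' a c v = ∫ b, k a b (k' b c v) ∂mu G := by
  obtain ⟨q, hq, hq'⟩ := exists_kc h h'
  have h1 : ∃ q : G → G → (L2 J →L[ℂ] L2 J''), ∀ a c v, q a c v = ∫ b, k a b (k' b c v) ∂mu G :=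
    ⟨q, hq'⟩
  rw [kc, dif_pos h1]
  exact h1.choose_spec a c v

theorem KOK.kc {C C' : Set G} {M M' : ℝ} {k : G → G → (L2 J' →L[ℂ] L2 J'')}
    {k' : G → G → (L2 J →L[ℂ] L2 J')} (h : KOK C M k) (h' : KOK C' M' k') :
    KOK (C * C') ((mu G).real C * (M * M')) (Cb.kc k k') := by
  obtain ⟨q, hq, hq'⟩ := exists_kc h h'
  have h1 : Cb.kc k k' = q := by
    funext a c
    refine ContinuousLinearMap.ext fun v => ?_
    rw [kc_apply h h', hq']
  rw [h1]
  exact hq

end Pool.Agent.Lib.MP_aa9b81_an.Cb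
end
end

section

/-!
# Continuous Bernoulli, part Vb: the isometry `V_D : ℓ²(Bs D) → ℓ²(Bs ℕ)`
-/

open scoped ENNReal Topology
open Function Filter

noncomputable section

namespace Pool.Agent.Lib.MP_aa9b81_an.Cb

open Cut Hs

variable {G O : Type} [Group G] [TopologicalSpace G] [LinearOrder O] {V : Set G} (χ : Part V)

private theorem Vb_wt_ok (e : G ↪ O) {D : Set G} {q : Bs ℕ} (h : χ.wt e D q ≠ 0) :
    (∀ k ∈ q.F, χ.ok D k) ∧ Set.InjOn (χ.pt D) q.F := by
  classical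
  by_contra hcon
  apply h
  unfold Part.wt
  rw [if_neg hcon]

private theorem Vb_wt_norm (e : G ↪ O) {D : Set G} {q : Bs ℕ}
    (h : (∀ k ∈ q.F, χ.ok D k) ∧ Set.InjOn (χ.pt D) q.F) :
    ‖χ.wt e D q‖ ^ 2 = ∏ k ∈ q.F, χ.χ k (χ.pt D k) ^ 2 := by
  classical
  unfold Part.wt
  rw [if_pos h, norm_mul, norm_sg, mul_one, Complex.norm_real, Real.norm_eq_abs, sq_abs,
    Finset.prod_pow]

private theorem Vb_tau_F (D : Set G) (q : Bs ℕ) [DecidableEq G] :
    (χ.tau D q).F = q.F.image (χ.pt D) := by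
  unfold Part.tau
  rw [Bs.mk_F]
  congr
  exact Subsingleton.elim _ _

private theorem Vb_tau_S (D : Set G) (q : Bs ℕ) [DecidableEq G] :
    (χ.tau D q).S = q.S.image (χ.pt D) := by
  unfold Part.tau
  rw [Bs.mk_S]
  congr
  exact Subsingleton.elim _ _

private theorem Vb_sub (e : G ↪ O) {D : Set G} {q : Bs ℕ} (h : χ.wt e D q ≠ 0) :
    ((χ.tau D q).F : Set G) ⊆ D := by
  classical
  intro a ha
  rw [Finset.mem_coe, Vb_tau_F, Finset.mem_image] at ha
  obtain ⟨k, hk, rfl⟩ := ha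
  exact (χ.pt_spec ((Vb_wt_ok χ e h).1 k hk)).1

private theorem Vb_card (e : G ↪ O) {D : Set G} {q : Bs ℕ} (h : χ.wt e D q ≠ 0) :
    (χ.tau D q).S.card = q.S.card := by
  classical
  rw [Vb_tau_S]
  exact Finset.card_image_of_injOn ((Vb_wt_ok χ e h).2.mono (Finset.coe_subset.2 q.sub))

private theorem Vb_conj (e : G ↪ O) (D : Set G) (q : Bs ℕ) :
    (starRingEnd ℂ) (χ.wt e D q) = χ.wt e D q := by
  classical
  unfold Part.wt
  split_ifs
  · rw [map_mul, Complex.conj_ofReal, conj_sg]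
  · rw [map_zero]

private theorem Vb_real (e : G ↪ O) {D : Set G} (hD : Sep V D) (β : Bs G)
    (hβ : (β.F : Set G) ⊆ D) :
    HasSum (fun q : {q : Bs ℕ // χ.tau D q = β} => (‖χ.wt e D q.1‖ ^ 2 : ℝ)) 1 := by
  classical
  -- the finite sets of indices
  have hfin : ∀ i : G, {k | χ.χ k i ≠ 0}.Finite := fun i => χ.fin.point_finite i
  set A : G → Finset ℕ := fun i => (hfin i).toFinset with hA
  have hmemA : ∀ i k, k ∈ A i ↔ χ.χ k i ≠ 0 := by
    intro i k
    rw [hA, Set.Finite.mem_toFinset]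
    rfl
  have hsumA : ∀ i, ∑ k ∈ A i, χ.χ k i ^ 2 = 1 := by
    intro i
    have h1 : HasSum (fun k => χ.χ k i ^ 2) (∑ k ∈ A i, χ.χ k i ^ 2) := by
      apply hasSum_sum_of_ne_finset_zero
      intro k hk
      have : χ.χ k i = 0 := by
        by_contra h
        exact hk ((hmemA i k).2 h)
      rw [this]
      norm_num
    exact h1.unique (χ.sum i)
  have hpt : ∀ (i : {i // i ∈ β.F}) (k : ℕ), k ∈ A i.1 → χ.ok D k ∧ χ.pt D k = i.1 := by
    intro i k hk
    exact χ.pt_eq hD (hβ (Finset.mem_coe.2 i.2)) ((hmemA _ _).1 hk)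
  set P : Finset ({i // i ∈ β.F} → ℕ) := Fintype.piFinset (fun i => A i.1) with hP
  have hPm : ∀ κ : {i // i ∈ β.F} → ℕ, κ ∈ P → ∀ i, κ i ∈ A i.1 := by
    intro κ hκ i
    exact Fintype.mem_piFinset.1 hκ i
  -- the point of a choice function
  let Q : ({i // i ∈ β.F} → ℕ) → Bs ℕ := fun κ =>
    Bs.mk (Finset.univ.image κ) ((Finset.univ.filter (fun i : {i // i ∈ β.F} => i.1 ∈ β.S)).image κ)
      (Finset.image_subset_image (Finset.filter_subset _ _))
  have hQF : ∀ κ, (Q κ).F = Finset.univ.image κ := fun κ => rfl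
  have hQS : ∀ κ, (Q κ).S = (Finset.univ.filter (fun i : {i // i ∈ β.F} => i.1 ∈ β.S)).image κ :=
    fun κ => rfl
  have hQtau : ∀ κ ∈ P, χ.tau D (Q κ) = β := by
    intro κ hκ
    refine Bs.ext ?_ ?_
    · rw [Vb_tau_F, hQF]
      ext a
      simp only [Finset.mem_image, Finset.mem_univ, true_and]
      constructor
      · rintro ⟨k, ⟨i, rfl⟩, rfl⟩
        rw [(hpt i (κ i) (hPm κ hκ i)).2]
        exact i.2
      · intro ha
        exact ⟨κ ⟨a, ha⟩, ⟨⟨a, ha⟩, rfl⟩, (hpt ⟨a, ha⟩ _ (hPm κ hκ ⟨a, ha⟩)).2⟩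
    · rw [Vb_tau_S, hQS]
      ext a
      simp only [Finset.mem_image, Finset.mem_filter, Finset.mem_univ, true_and]
      constructor
      · rintro ⟨k, ⟨i, hi, rfl⟩, rfl⟩
        rw [(hpt i (κ i) (hPm κ hκ i)).2]
        exact hi
      · intro ha
        exact ⟨κ ⟨a, β.sub ha⟩, ⟨⟨a, β.sub ha⟩, ha, rfl⟩,
          (hpt ⟨a, β.sub ha⟩ _ (hPm κ hκ ⟨a, β.sub ha⟩)).2⟩
  have hQok : ∀ κ ∈ P, (∀ k ∈ (Q κ).F, χ.ok D k) ∧ Set.InjOn (χ.pt D) (Q κ).F := by
    intro κ hκ
    constructor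
    · intro k hk
      rw [hQF, Finset.mem_image] at hk
      obtain ⟨i, -, rfl⟩ := hk
      exact (hpt i _ (hPm κ hκ i)).1
    · intro k hk k' hk' hkk
      rw [Finset.mem_coe, hQF, Finset.mem_image] at hk hk'
      obtain ⟨i, -, rfl⟩ := hk
      obtain ⟨j, -, rfl⟩ := hk'
      rw [(hpt i _ (hPm κ hκ i)).2, (hpt j _ (hPm κ hκ j)).2] at hkk
      rw [Subtype.ext hkk]
  have hQinj : ∀ κ ∈ P, ∀ κ' ∈ P, Q κ = Q κ' → κ = κ' := by
    intro κ hκ κ' hκ' hQQ
    funext i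
    have h1 : κ i ∈ (Q κ').F := by
      rw [← hQQ, hQF]
      exact Finset.mem_image_of_mem _ (Finset.mem_univ i)
    rw [hQF, Finset.mem_image] at h1
    obtain ⟨j, -, hj⟩ := h1
    have h2 : j.1 = i.1 := by
      rw [← (hpt i _ (hPm κ hκ i)).2, ← (hpt j _ (hPm κ' hκ' j)).2, hj]
    rw [← hj, Subtype.ext h2]
  have hQnorm : ∀ κ ∈ P, ‖χ.wt e D (Q κ)‖ ^ 2 = ∏ i : {i // i ∈ β.F}, χ.χ (κ i) i.1 ^ 2 := by
    intro κ hκ
    rw [Vb_wt_norm χ e (hQok κ hκ), hQF, Finset.prod_image]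
    · refine Finset.prod_congr rfl fun i _ => ?_
      rw [(hpt i _ (hPm κ hκ i)).2]
    · intro i _ j _ hij
      have h2 : i.1 = j.1 := by
        rw [← (hpt i _ (hPm κ hκ i)).2, ← (hpt j _ (hPm κ hκ j)).2, hij]
      exact Subtype.ext h2
  -- the parametrisation
  let g : {κ // κ ∈ P} → {q : Bs ℕ // χ.tau D q = β} := fun κ => ⟨Q κ.1, hQtau κ.1 κ.2⟩
  have hg : Injective g := by
    intro κ κ' h
    exact Subtype.ext (hQinj κ.1 κ.2 κ'.1 κ'.2 (congrArg Subtype.val h))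
  have hrange : ∀ x ∉ Set.range g, (‖χ.wt e D x.1‖ ^ 2 : ℝ) = 0 := by
    rintro ⟨q, hq⟩ hx
    by_contra hne
    apply hx
    have hw : χ.wt e D q ≠ 0 := by
      intro h0
      apply hne
      show ‖χ.wt e D q‖ ^ 2 = 0
      rw [h0, norm_zero]
      norm_num
    obtain ⟨hok, hinj⟩ := Vb_wt_ok χ e hw
    have hF : q.F.image (χ.pt D) = β.F := by rw [← Vb_tau_F, hq]
    have hS : q.S.image (χ.pt D) = β.S := by rw [← Vb_tau_S, hq]
    have hex : ∀ i : {i // i ∈ β.F}, ∃ k ∈ q.F, χ.pt D k = i.1 := by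
      intro i
      exact Finset.mem_image.1 ((Finset.ext_iff.1 hF i.1).2 i.2)
    choose κ hκF hκpt using hex
    have hκP : κ ∈ P := by
      rw [hP, Fintype.mem_piFinset]
      intro i
      rw [hmemA]
      have := (χ.pt_spec (hok (κ i) (hκF i))).2
      rw [hκpt i] at this
      exact this
    have hκeq : ∀ k (hk : k ∈ q.F) (hi : χ.pt D k ∈ β.F), κ ⟨χ.pt D k, hi⟩ = k := by
      intro k hk hi
      exact hinj (Finset.mem_coe.2 (hκF _)) (Finset.mem_coe.2 hk) (hκpt ⟨χ.pt D k, hi⟩)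
    refine ⟨⟨κ, hκP⟩, Subtype.ext ?_⟩
    show Q κ = q
    refine Bs.ext ?_ ?_
    · rw [hQF]
      ext k
      simp only [Finset.mem_image, Finset.mem_univ, true_and]
      constructor
      · rintro ⟨i, rfl⟩
        exact hκF i
      · intro hk
        have hi : χ.pt D k ∈ β.F := by
          rw [← hF]
          exact Finset.mem_image_of_mem _ hk
        exact ⟨⟨χ.pt D k, hi⟩, hκeq k hk hi⟩
    · rw [hQS]
      ext k
      simp only [Finset.mem_image, Finset.mem_filter, Finset.mem_univ, true_and]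
      constructor
      · rintro ⟨i, hi, rfl⟩
        have hi' := hi
        rw [← hS, Finset.mem_image] at hi'
        obtain ⟨k', hk', hkk'⟩ := hi'
        have : κ i = k' := hinj (Finset.mem_coe.2 (hκF i)) (Finset.mem_coe.2 (q.sub hk'))
          ((hκpt i).trans hkk'.symm)
        rw [this]
        exact hk'
      · intro hk
        have hiS : χ.pt D k ∈ β.S := by
          rw [← hS]
          exact Finset.mem_image_of_mem _ hk
        exact ⟨⟨χ.pt D k, β.sub hiS⟩, hiS, hκeq k (q.sub hk) (β.sub hiS)⟩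
  rw [← hg.hasSum_iff hrange]
  have h1 : HasSum ((fun q : {q : Bs ℕ // χ.tau D q = β} => (‖χ.wt e D q.1‖ ^ 2 : ℝ)) ∘ g)
      (∑ κ : {κ // κ ∈ P}, ‖χ.wt e D (Q κ.1)‖ ^ 2) := hasSum_fintype _
  have h2 : ∑ κ : {κ // κ ∈ P}, ‖χ.wt e D (Q κ.1)‖ ^ 2 = 1 := by
    rw [Finset.sum_coe_sort P (fun κ => ‖χ.wt e D (Q κ)‖ ^ 2), Finset.sum_congr rfl hQnorm, hP,
      ← Finset.prod_univ_sum (fun i : {i // i ∈ β.F} => A i.1)
        (fun i k => χ.χ k i.1 ^ 2)]
    exact Finset.prod_eq_one fun i _ => hsumA i.1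
  rw [h2] at h1
  exact h1

private theorem Vb_real' (e : G ↪ O) {D : Set G} (hD : Sep V D) (β : Bs G)
    [Decidable ((β.F : Set G) ⊆ D)] :
    HasSum (fun q : {q : Bs ℕ // χ.tau D q = β} => (‖χ.wt e D q.1‖ ^ 2 : ℝ))
      (if (β.F : Set G) ⊆ D then 1 else 0) := by
  split_ifs with hβ
  · exact Vb_real χ e hD β hβ
  · have h0 : (fun q : {q : Bs ℕ // χ.tau D q = β} => (‖χ.wt e D q.1‖ ^ 2 : ℝ)) = fun _ => 0 := by
      funext q
      have hw : χ.wt e D q.1 = 0 := by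
        by_contra hne
        apply hβ
        have := Vb_sub χ e hne
        rwa [q.2] at this
      rw [hw, norm_zero]
      norm_num
    rw [h0]
    exact hasSum_zero

/-- The squares of the weights over a pair `β` have the sum `1` if `β.F ⊆ D`, and `0` otherwise. PROOF: `‖sg‖ = 1` (a product of
factors of norm `1`, `norm_ta`). If `wt q ≠ 0` and `tau q = β` then `β.F = pt (q.F) ⊆ D` (`pt_spec`): so if not `β.F ⊆ D`, all terms are `0`.
Let `β.F ⊆ D`. For `i ∈ β.F` the set `A i` of the `k` with `χ_k i ≠ 0` is finite (`χ.fin.point_finite i`), and `∑_{k ∈ A i} χ_k i ^ 2 = 1` (`χ.sum`).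
For a choice function `κ ∈ ∏_{i ∈ β.F} A i` (`Finset.pi`), `pt (κ i) = i` (`pt_eq`), so `κ` is injective, and
`q = (κ (β.F), κ (β.S))` has `tau q = β` and `‖wt q‖ = ∏_i χ_{κ i} i`. Every `q` with `tau q = β`, `wt q ≠ 0` is obtained exactly once: `κ i` is
the element `k` of `q.F` with `pt k = i` (`InjOn`). So the sum is a finite sum, `∑_κ ∏_i χ_{κ i} i ^ 2 = ∏_i ∑_k χ_k i ^ 2 = 1` (`Finset.prod_sum`).
(`hasSum_sum_of_ne_finset_zero` for the finite set of these `q`, `Finset.sum_bij`/`Finset.sum_nbij'`.) -/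
theorem hasSum_wt (e : G ↪ O) {D : Set G} (hD : Sep V D) (β : Bs G) [Decidable ((β.F : Set G) ⊆ D)] :
    HasSum (fun q : {q : Bs ℕ // χ.tau D q = β} => ((‖χ.wt e D q.1‖ ^ 2 : ℝ) : ℂ))
      (if (β.F : Set G) ⊆ D then 1 else 0) := by
  have h1 := Vb_real' χ e hD β
  have h2 := Complex.hasSum_ofReal.2 h1
  have h3 : (((if (β.F : Set G) ⊆ D then 1 else 0 : ℝ)) : ℂ) = if (β.F : Set G) ⊆ D then 1 else 0 := by
    split_ifs <;> simp
  rw [h3] at h2
  exact h2

/-- PROOF: a finite sum of nonnegative terms of the sum `hasSum_wt` is at most the sum, so at most `1`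
(take real parts, `Complex.hasSum_re` or `hasSum_ofReal`; `sum_le_hasSum`; the finite set `A` of `q` with `tau q = β` as a finite set in the subtype: `Finset.subtype`,
`Finset.sum_subtype_of_mem` or `Finset.sum_coe_sort`). -/
theorem gok (e : G ↪ O) {D : Set G} (hD : Sep V D) : GOK (χ.tau D) (χ.wt e D) 1 := by
  classical
  refine ⟨zero_le_one, fun β A hA => ?_⟩
  have h1 := Vb_real' χ e hD β
  have h2 : ∑ q ∈ A, ‖χ.wt e D q‖ ^ 2 =
      ∑ q ∈ A.subtype (fun q => χ.tau D q = β), ‖χ.wt e D q.1‖ ^ 2 :=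
    (Finset.sum_subtype_of_mem (fun q => ‖χ.wt e D q‖ ^ 2) hA).symm
  rw [h2]
  have h3 := sum_le_hasSum (A.subtype (fun q => χ.tau D q = β))
    (fun q _ => by positivity) h1
  refine h3.trans ?_
  split_ifs <;> norm_num

theorem Vd_apply (e : G ↪ O) {D : Set G} (hD : Sep V D) (ξ : L2 (Bs G)) (q : Bs ℕ) :
    (χ.Vd e D ξ : Bs ℕ → ℂ) q = χ.wt e D q * (ξ : Bs G → ℂ) (χ.tau D q) :=
  gop_apply (gok χ e hD) ξ q

theorem norm_Vd_le (e : G ↪ O) {D : Set G} (hD : Sep V D) : ‖χ.Vd e D‖ ≤ 1 :=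
  norm_gop_le (gok χ e hD)

/-- PROOF: `norm_Vd_le` and the norm of the adjoint. -/
theorem norm_Vs_le (e : G ↪ O) {D : Set G} (hD : Sep V D) : ‖χ.Vs e D‖ ≤ 1 := by
  unfold Part.Vs
  rw [LinearIsometryEquiv.norm_map]
  exact norm_Vd_le χ e hD

/-- PROOF: `adjoint_gop_bv`; the weights are real (`sg` is a product of the `ta`, which are `1` or `-1`). -/
theorem Vs_bv (e : G ↪ O) {D : Set G} (hD : Sep V D) (q : Bs ℕ) :
    χ.Vs e D (bv q) = χ.wt e D q • bv (χ.tau D q) := by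
  have h1 := adjoint_gop_bv (gok χ e hD) q
  rw [Vb_conj] at h1
  exact h1

/-- PROOF: `adjoint_gop_mul_gop`, `hasSum_wt`; `Es D` is by definition `dia` of the indicator function (`Es`, Hs/D6d.lean). -/
theorem Vs_comp_Vd (e : G ↪ O) {D : Set G} (hD : Sep V D) :
    (χ.Vs e D).comp (χ.Vd e D) = Es D := by
  exact adjoint_gop_mul_gop (gok χ e hD)
    (fun β => @hasSum_wt G O _ _ _ V χ e D hD β (Classical.dec _))

/-- PROOF: coordinates: if `wt q ≠ 0` then `(tau q).F ⊆ D`. -/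
theorem Vd_comp_Es (e : G ↪ O) {D : Set G} (hD : Sep V D) :
    (χ.Vd e D).comp (Es D) = χ.Vd e D := by
  classical
  refine ContinuousLinearMap.ext fun ξ => ?_
  ext q
  rw [ContinuousLinearMap.comp_apply, Vd_apply χ e hD, Vd_apply χ e hD, Es_apply]
  by_cases h : χ.wt e D q = 0
  · rw [h, zero_mul, zero_mul]
  · rw [if_pos (Vb_sub χ e h)]

/-- PROOF: the adjoint of `Vd_comp_Es` (`Es D` is self adjoint), or check the vectors `bv q` (`Vs_bv`, `ext_op` in F3.lean). -/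
theorem Es_comp_Vs (e : G ↪ O) {D : Set G} (hD : Sep V D) :
    (Es D).comp (χ.Vs e D) = χ.Vs e D := by
  classical
  refine ext_op fun q => ?_
  rw [ContinuousLinearMap.comp_apply, Vs_bv χ e hD, map_smul]
  by_cases h : χ.wt e D q = 0
  · rw [h, zero_smul, zero_smul]
  · have h1 : Es D (bv (χ.tau D q)) = bv (χ.tau D q) := by
      ext b
      rw [Es_apply, bv_apply]
      by_cases hb : b = χ.tau D q
      · rw [if_pos hb, if_pos (by rw [hb]; exact Vb_sub χ e h)]
      · rw [if_neg hb]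
        split_ifs <;> rfl
    rw [h1]

/-- `V_D` intertwines the parities. PROOF: coordinates: if `wt q ≠ 0` then `pt` is injective on `q.F`, so `(tau q).S.card = q.S.card`
(`Finset.card_image_of_injOn`). `Pp` is `dia` of the indicator function of `Even b.S.card`. -/
theorem Vd_comp_Pp (e : G ↪ O) {D : Set G} (hD : Sep V D) :
    (χ.Vd e D).comp Pp = (Pp : BL (Bs ℕ)).comp (χ.Vd e D) := by
  refine ContinuousLinearMap.ext fun ξ => ?_
  ext q
  rw [ContinuousLinearMap.comp_apply, ContinuousLinearMap.comp_apply, Vd_apply χ e hD, Pp_apply,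
    Pp_apply, Vd_apply χ e hD]
  by_cases h : χ.wt e D q = 0
  · rw [h, zero_mul, zero_mul]
    split_ifs <;> rfl
  · rw [Vb_card χ e h]
    split_ifs <;> simp

/-- PROOF: the adjoint of `Vd_comp_Pp`, or `ext_op` and `Vs_bv`. -/
theorem Pp_comp_Vs (e : G ↪ O) {D : Set G} (hD : Sep V D) :
    (Pp : BL (Bs G)).comp (χ.Vs e D) = (χ.Vs e D).comp Pp := by
  classical
  refine ext_op fun q => ?_
  rw [ContinuousLinearMap.comp_apply, ContinuousLinearMap.comp_apply, Vs_bv χ e hD, map_smul]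
  have h1 : ∀ {B : Type} (b : Bs B), (Pp : BL (Bs B)) (bv b) =
      (if Even b.S.card then (1 : ℂ) else 0) • bv b := by
    intro B b
    ext c
    rw [Pp_apply, lp.coeFn_smul, Pi.smul_apply, bv_apply, smul_eq_mul]
    by_cases hc : c = b
    · rw [if_pos hc, hc, mul_one]
    · rw [if_neg hc, mul_zero]
      split_ifs <;> rfl
  rw [h1, h1, map_smul, Vs_bv χ e hD]
  by_cases h : χ.wt e D q = 0
  · rw [h, zero_smul, zero_smul, smul_zero]
  · rw [Vb_card χ e h, smul_comm]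

private theorem Vb_tau_vac (D : Set G) : χ.tau D Bs.vac = Bs.vac := by
  classical
  refine Bs.ext ?_ ?_
  · rw [Vb_tau_F]
    rfl
  · rw [Vb_tau_S]
    rfl

private theorem Vb_wt_vac (e : G ↪ O) (D : Set G) : χ.wt e D Bs.vac = 1 := by
  classical
  unfold Part.wt
  have hF : (Bs.vac : Bs ℕ).F = ∅ := rfl
  have hS : (Bs.vac : Bs ℕ).S = ∅ := rfl
  rw [if_pos, hF, hS, Finset.prod_empty, sg_empty]
  · norm_num
  · rw [hF]
    refine ⟨fun k hk => absurd hk (Finset.notMem_empty k), ?_⟩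
    rw [Finset.coe_empty]
    exact Set.injOn_empty _

/-- PROOF: `tau D vac = vac` and the weight is `1` (empty products). -/
theorem Vs_vac (e : G ↪ O) {D : Set G} (hD : Sep V D) :
    χ.Vs e D (bv Bs.vac) = bv Bs.vac := by
  classical
  rw [Vs_bv χ e hD, Vb_tau_vac, Vb_wt_vac, one_smul]

/-- PROOF: coordinates: `tau q = vac` means `q.F = ∅`, so `q = vac`. -/
theorem Vd_vac (e : G ↪ O) {D : Set G} (hD : Sep V D) :
    χ.Vd e D (bv Bs.vac) = bv Bs.vac := by
  classical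
  ext q
  rw [Vd_apply χ e hD, bv_apply, bv_apply]
  by_cases hq : q = Bs.vac
  · rw [hq, Vb_tau_vac, Vb_wt_vac, if_pos rfl, if_pos rfl, one_mul]
  · rw [if_neg hq, if_neg, mul_zero]
    intro h
    apply hq
    have hF : q.F.image (χ.pt D) = ∅ := by
      rw [← Vb_tau_F, h]
      rfl
    have hF' : q.F = ∅ := Finset.image_eq_empty.1 hF
    have hS' : q.S = ∅ := Finset.subset_empty.1 (hF' ▸ q.sub)
    exact Bs.ext hF' hS'

end Pool.Agent.Lib.MP_aa9b81_an.Cb
end
end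

section

section
/-!
# Continuous Bernoulli, part Vc: the composition `V_D ∘ Tr s` for a finite index set, and its continuity
-/

open scoped ENNReal Topology
open Function Filter

noncomputable section

namespace Pool.Agent.Lib.MP_aa9b81_an.Cb

open Cut Hs

variable {G O I₀ O₀ Zp : Type} [Group G] [TopologicalSpace G] [LinearOrder O] [LinearOrder O₀]
  {V : Set G} (χ : Part V)

open Classical in
/-- The inclusion of the finite set `K`. -/
def vE (K : Finset ℕ) : K ↪ ℕ := Embedding.subtype _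

open Classical in
/-- The matrix entry of `V_D ∘ Tr x` at `(q, β)`: a sum over the maps `j : q.F → I₀`. -/
def Part.vcoef [Fintype I₀] (e₀ : I₀ ↪ O₀) (x : I₀ → G) (β : Bs I₀) (q : Bs ℕ) : ℂ :=
  ∑ j : (q.F → I₀), if Injective j ∧ Finset.univ.image j = β.F ∧
      (Finset.univ.filter fun k : q.F => k.1 ∈ q.S).image j = β.S then
    sg (vE q.F) e₀ j (Finset.univ.filter fun k : q.F => k.1 ∈ q.S) * ∏ k : q.F, (χ.χ k (x (j k)) : ℂ)
  else 0

/-- The sign of the inclusion is `1`. -/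
private theorem Vc_sg_incl (K : Finset ℕ) (M : Finset K) :
    sg (vE K) (Embedding.refl ℕ) (fun k : K => (k : ℕ)) M = 1 := by
  unfold sg
  refine Finset.prod_eq_one fun j _ => Finset.prod_eq_one fun k hk => ?_
  unfold ta
  have h1 : vE K k < vE K j := (Finset.mem_filter.1 hk).2
  have h2 : (k : ℕ) < (j : ℕ) := h1
  rw [if_neg]
  exact not_lt.2 h2.le

open Classical in
private theorem Vc_image_S (q : Bs ℕ) :
    (Finset.univ.filter fun k : q.F => k.1 ∈ q.S).image (fun k : q.F => (k : ℕ)) = q.S := by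
  ext k
  rw [Finset.mem_image]
  constructor
  · rintro ⟨k', hk', rfl⟩
    exact (Finset.mem_filter.1 hk').2
  · intro hk
    exact ⟨⟨k, q.sub hk⟩, Finset.mem_filter.2 ⟨Finset.mem_univ _, hk⟩, rfl⟩

open Classical in
/-- The sign of `pt` as a sign over the subtype. -/
private theorem Vc_sg (e : G ↪ O) (f : ℕ → G) (q : Bs ℕ) (hf : Set.InjOn f q.F) (g : q.F → G)
    (hg : ∀ k : q.F, f k = g k) :
    sg (Embedding.refl ℕ) e f q.S = sg (vE q.F) e g (Finset.univ.filter fun k : q.F => k.1 ∈ q.S) := by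
  have hinj : Set.InjOn (f ∘ fun k : q.F => (k : ℕ))
      ((Finset.univ.filter fun k : q.F => k.1 ∈ q.S : Finset q.F) : Set q.F) := by
    intro a _ b _ hab
    exact Subtype.ext (hf a.2 b.2 hab)
  have h1 := sg_comp (vE q.F) (Embedding.refl ℕ) e (fun k : q.F => (k : ℕ)) f hinj
  rw [Vc_sg_incl, mul_one, Vc_image_S] at h1
  rw [← h1]
  exact sg_congr _ _ fun k _ => hg k

/-- PROOF: `Tr e₀ e s (bv β) = sg e₀ e s β.S • bv (mp s β)` (`Tr_bv`), so the left side is `wt q * sg e₀ e s β.S` if `tau D q = mp s β`, and `0` otherwise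
(`Vd_apply`, `bv_apply`). (a) If a term of `vcoef` is not `0`, for the map `j`, then `χ_k (s (j k)) ≠ 0` for all `k ∈ q.F`, so `ok D k` and `pt D k = s (j k)` (`Part.pt_eq`,
`hs`); so `j` is unique (`s` is injective), `pt` is injective on `q.F` (`j` and `s` are), `tau D q = mp s β`, and `wt q` is
`∏_{k ∈ q.F} χ_k (s (j k))` times `sg (refl ℕ) e (pt D) q.S`. The signs: `sg (refl ℕ) e (pt D) q.S = sg (vE q.F) e (fun k => s (j k)) M'` for the filtered set `M'` of the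
elements of `q.F` which are in `q.S` (reindex the products: `Finset.prod_nbij'` or `sg_comp` with the inclusion, which is order preserving, so has sign `1`), and
`sg (vE q.F) e (s ∘ j) M' = sg (vE q.F) e₀ j M' * sg e₀ e s β.S` (`sg_comp`), and `sg e₀ e s β.S` squared is `1` (`sg_mul_self`). So both sides agree (the sum over `j` has one nonzero
term, `Finset.sum_eq_single`). (b) If all terms are `0` then the left side is `0`: otherwise `tau D q = mp s β` and `wt q ≠ 0`, so `ok D k` for `k ∈ q.F`, `pt` is injective on `q.F`, and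
`pt D k ∈ s (β.F)`; choose `j k ∈ β.F` with `s (j k) = pt D k`; then the term of `j` is not `0` (`‖sg‖ = 1`, `pt_spec`). -/
theorem Vd_Tr_bv [Fintype I₀] (e₀ : I₀ ↪ O₀) (e : G ↪ O) {D : Set G} (hD : Sep V D) (s : I₀ ↪ G)
    (hs : ∀ i, s i ∈ D) (β : Bs I₀) (q : Bs ℕ) :
    (χ.Vd e D (Tr e₀ e s (bv β)) : Bs ℕ → ℂ) q = χ.vcoef e₀ s β q := by
  classical
  rw [Vd_apply χ e hD, Tr_bv, lp.coeFn_smul, Pi.smul_apply, bv_apply, smul_eq_mul]
  by_cases hA : ∃ j : (q.F → I₀), (Injective j ∧ Finset.univ.image j = β.F ∧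
      (Finset.univ.filter fun k : q.F => k.1 ∈ q.S).image j = β.S) ∧
      ∀ k : q.F, χ.χ k (s (j k)) ≠ 0
  · obtain ⟨j, hj, hne⟩ := hA
    have hok : ∀ k : q.F, χ.ok D k ∧ χ.pt D k = s (j k) := fun k =>
      Part.pt_eq χ hD (hs (j k)) (hne k)
    have hinj : Set.InjOn (χ.pt D) q.F := by
      intro a ha b hb hab
      have h1 := (hok ⟨a, ha⟩).2
      have h2 := (hok ⟨b, hb⟩).2
      have h3 : s (j ⟨a, ha⟩) = s (j ⟨b, hb⟩) := by rw [← h1, ← h2]; exact hab
      exact congrArg Subtype.val (hj.1 (s.injective h3))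
    have htau : χ.tau D q = mp s β := by
      refine Bs.ext ?_ ?_
      · show q.F.image (χ.pt D) = β.F.map s
        rw [← hj.2.1]
        ext a
        rw [Finset.mem_image, Finset.mem_map]
        constructor
        · rintro ⟨k, hk, rfl⟩
          exact ⟨j ⟨k, hk⟩, Finset.mem_image.2 ⟨⟨k, hk⟩, Finset.mem_univ _, rfl⟩,
            (hok ⟨k, hk⟩).2.symm⟩
        · rintro ⟨i, hi, rfl⟩
          obtain ⟨k, _, rfl⟩ := Finset.mem_image.1 hi
          exact ⟨k, k.2, (hok k).2⟩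
      · show q.S.image (χ.pt D) = β.S.map s
        rw [← hj.2.2]
        ext a
        rw [Finset.mem_image, Finset.mem_map]
        constructor
        · rintro ⟨k, hk, rfl⟩
          exact ⟨j ⟨k, q.sub hk⟩, Finset.mem_image.2 ⟨⟨k, q.sub hk⟩,
            Finset.mem_filter.2 ⟨Finset.mem_univ _, hk⟩, rfl⟩, (hok ⟨k, q.sub hk⟩).2.symm⟩
        · rintro ⟨i, hi, rfl⟩
          obtain ⟨k, hk, rfl⟩ := Finset.mem_image.1 hi
          exact ⟨k, (Finset.mem_filter.1 hk).2, (hok k).2⟩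
    have hwt : χ.wt e D q = ((∏ k ∈ q.F, χ.χ k (χ.pt D k) : ℝ) : ℂ) *
        sg (Embedding.refl ℕ) e (χ.pt D) q.S := by
      unfold Part.wt
      rw [if_pos ⟨fun k hk => (hok ⟨k, hk⟩).1, hinj⟩]
    have hprod : ((∏ k ∈ q.F, χ.χ k (χ.pt D k) : ℝ) : ℂ) = ∏ k : q.F, (χ.χ k (s (j k)) : ℂ) := by
      rw [← Finset.prod_coe_sort, Complex.ofReal_prod]
      exact Finset.prod_congr rfl fun k _ => by rw [(hok k).2]
    have hsg : sg (Embedding.refl ℕ) e (χ.pt D) q.S = sg e₀ e s β.S *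
        sg (vE q.F) e₀ j (Finset.univ.filter fun k : q.F => k.1 ∈ q.S) := by
      rw [Vc_sg e (χ.pt D) q hinj (s ∘ j) fun k => (hok k).2,
        sg_comp (vE q.F) e₀ e j s ((s.injective.comp hj.1).injOn), hj.2.2]
    have hsum : χ.vcoef e₀ s β q =
        sg (vE q.F) e₀ j (Finset.univ.filter fun k : q.F => k.1 ∈ q.S) *
          ∏ k : q.F, (χ.χ k (s (j k)) : ℂ) := by
      unfold Part.vcoef
      rw [Finset.sum_eq_single j]
      · rw [if_pos hj]
      · intro j' _ hj'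
        by_cases hc : Injective j' ∧ Finset.univ.image j' = β.F ∧
            (Finset.univ.filter fun k : q.F => k.1 ∈ q.S).image j' = β.S
        · rw [if_pos hc]
          have hex : ∃ k : q.F, χ.χ k (s (j' k)) = 0 := by
            by_contra hcon
            push Not at hcon
            apply hj'
            funext k
            have h1 := (Part.pt_eq χ hD (hs (j' k)) (hcon k)).2
            rw [(hok k).2] at h1
            exact (s.injective h1).symm
          obtain ⟨k, hk⟩ := hex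
          rw [Finset.prod_eq_zero (Finset.mem_univ k) (by rw [hk, Complex.ofReal_zero]), mul_zero]
        · rw [if_neg hc]
      · intro h
        exact absurd (Finset.mem_univ j) h
    rw [hsum, hwt, htau, if_pos rfl, hprod, hsg, mul_one]
    have h2 := sg_mul_self e₀ e s β.S
    linear_combination (∏ k : q.F, (χ.χ k (s (j k)) : ℂ)) *
      sg (vE q.F) e₀ j (Finset.univ.filter fun k : q.F => k.1 ∈ q.S) * h2
  · have hR : χ.vcoef e₀ s β q = 0 := by
      unfold Part.vcoef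
      refine Finset.sum_eq_zero fun j _ => ?_
      by_cases hc : Injective j ∧ Finset.univ.image j = β.F ∧
          (Finset.univ.filter fun k : q.F => k.1 ∈ q.S).image j = β.S
      · rw [if_pos hc]
        have hex : ∃ k : q.F, χ.χ k (s (j k)) = 0 := by
          by_contra hcon
          push Not at hcon
          exact hA ⟨j, hc, hcon⟩
        obtain ⟨k, hk⟩ := hex
        rw [Finset.prod_eq_zero (Finset.mem_univ k) (by rw [hk, Complex.ofReal_zero]), mul_zero]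
      · rw [if_neg hc]
    rw [hR]
    by_cases htau : χ.tau D q = mp s β
    · by_cases hw : (∀ k ∈ q.F, χ.ok D k) ∧ Set.InjOn (χ.pt D) q.F
      · exfalso
        apply hA
        have hF : q.F.image (χ.pt D) = β.F.map s := congrArg Bs.F htau
        have hS : q.S.image (χ.pt D) = β.S.map s := congrArg Bs.S htau
        have hex : ∀ k : q.F, ∃ i ∈ β.F, s i = χ.pt D k := by
          intro k
          have h1 : χ.pt D k ∈ β.F.map s := by
            rw [← hF]
            exact Finset.mem_image_of_mem _ k.2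
          exact Finset.mem_map.1 h1
        choose j hjF hj using hex
        have hjinj : Injective j := by
          intro a b hab
          have h1 : χ.pt D a = χ.pt D b := by rw [← hj a, ← hj b, hab]
          exact Subtype.ext (hw.2 a.2 b.2 h1)
        refine ⟨j, ⟨hjinj, ?_, ?_⟩, ?_⟩
        · apply Finset.map_injective s
          rw [← hF]
          ext a
          rw [Finset.mem_image, Finset.mem_map]
          constructor
          · rintro ⟨i, hi, rfl⟩
            obtain ⟨k, _, rfl⟩ := Finset.mem_image.1 hi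
            exact ⟨k, k.2, (hj k).symm⟩
          · rintro ⟨k, hk, rfl⟩
            exact ⟨j ⟨k, hk⟩, Finset.mem_image.2 ⟨⟨k, hk⟩, Finset.mem_univ _, rfl⟩, hj ⟨k, hk⟩⟩
        · apply Finset.map_injective s
          rw [← hS]
          ext a
          rw [Finset.mem_image, Finset.mem_map]
          constructor
          · rintro ⟨i, hi, rfl⟩
            obtain ⟨k, hk, rfl⟩ := Finset.mem_image.1 hi
            exact ⟨k, (Finset.mem_filter.1 hk).2, (hj k).symm⟩
          · rintro ⟨k, hk, rfl⟩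
            exact ⟨j ⟨k, q.sub hk⟩, Finset.mem_image.2 ⟨⟨k, q.sub hk⟩,
              Finset.mem_filter.2 ⟨Finset.mem_univ _, hk⟩, rfl⟩, hj ⟨k, q.sub hk⟩⟩
        · intro k
          rw [hj k]
          exact (χ.pt_spec (hw.1 k k.2)).2
      · have hwt : χ.wt e D q = 0 := by
          unfold Part.wt
          rw [if_neg hw]
        rw [hwt, zero_mul]
    · rw [if_neg htau, mul_zero, mul_zero]

/-- PROOF: a finite sum of finite products of continuous functions. -/
theorem tendsto_vcoef [Fintype I₀] (e₀ : I₀ ↪ O₀) (β : Bs I₀) (q : Bs ℕ) {l : Filter Zp}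
    {s : Zp → I₀ → G} {s₀ : I₀ → G} (h : ∀ i, Tendsto (fun z => s z i) l (𝓝 (s₀ i))) :
    Tendsto (fun z => χ.vcoef e₀ (s z) β q) l (𝓝 (χ.vcoef e₀ s₀ β q)) := by
  classical
  unfold Part.vcoef
  refine tendsto_finsetSum _ fun j _ => ?_
  split_ifs with hc
  · refine tendsto_const_nhds.mul (tendsto_finsetProd _ fun k _ => ?_)
    have h1 : Tendsto (fun z => χ.χ k (s z (j k))) l (𝓝 (χ.χ k (s₀ (j k)))) :=
      ((χ.cont k).tendsto _).comp (h (j k))
    exact (Complex.continuous_ofReal.tendsto _).comp h1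
  · exact tendsto_const_nhds

/-- Only finitely many `q` matter. PROOF: for every `i` there are a neighbourhood `U` of `s₀ i` and a finite set `A i` with `χ_k = 0` on `U` for `k ∉ A i` (`χ.fin (s₀ i)`); let `K` be the
union of the `A i`, `Q` the (finite) set of the pairs `q` with `q.F ⊆ K` (the image of `K.powerset ×ˢ K.powerset`). If `s z i` is in the
neighbourhood of `s₀ i` for all `i` and `q.F` is not contained in `K`, then for `k ∈ q.F` not in `K` the factor `χ_k (s z (j k))` is `0` for all `j`. -/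
theorem exists_finset_vcoef [Fintype I₀] (e₀ : I₀ ↪ O₀) {l : Filter Zp}
    {s : Zp → I₀ → G} {s₀ : I₀ → G} (h : ∀ i, Tendsto (fun z => s z i) l (𝓝 (s₀ i))) :
    ∃ Q : Finset (Bs ℕ), ∀ᶠ z in l, ∀ q ∉ Q, ∀ β : Bs I₀, χ.vcoef e₀ (s z) β q = 0 := by
  classical
  have h1 : ∀ i, ∃ U ∈ 𝓝 (s₀ i), {k | (Function.support (χ.χ k) ∩ U).Nonempty}.Finite :=
    fun i => χ.fin (s₀ i)
  choose U hU hfin using h1
  let K : Finset ℕ := Finset.univ.biUnion fun i => (hfin i).toFinset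
  have hi : Set.InjOn (fun q : Bs ℕ => (q.F, q.S))
      ((fun q : Bs ℕ => (q.F, q.S)) ⁻¹' ((K.powerset ×ˢ K.powerset : Finset _) : Set _)) := by
    intro a _ b _ hab
    exact Bs.ext (congrArg Prod.fst hab) (congrArg Prod.snd hab)
  refine ⟨(K.powerset ×ˢ K.powerset).preimage (fun q : Bs ℕ => (q.F, q.S)) hi, ?_⟩
  have h2 : ∀ᶠ z in l, ∀ i, s z i ∈ U i := Filter.eventually_all.2 fun i => (h i) (hU i)
  filter_upwards [h2] with z hz q hq β
  have h3 : ¬ q.F ⊆ K := by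
    intro hF
    apply hq
    rw [Finset.mem_preimage, Finset.mem_product, Finset.mem_powerset, Finset.mem_powerset]
    exact ⟨hF, q.sub.trans hF⟩
  obtain ⟨k, hk, hkK⟩ := Finset.not_subset.1 h3
  unfold Part.vcoef
  refine Finset.sum_eq_zero fun j _ => ?_
  split_ifs with hc
  · have h4 : χ.χ k (s z (j ⟨k, hk⟩)) = 0 := by
      by_contra hne
      apply hkK
      rw [Finset.mem_biUnion]
      exact ⟨j ⟨k, hk⟩, Finset.mem_univ _, (hfin _).mem_toFinset.2 ⟨_, hne, hz _⟩⟩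
    rw [Finset.prod_eq_zero (Finset.mem_univ (⟨k, hk⟩ : q.F)) (by rw [h4, Complex.ofReal_zero]),
      mul_zero]
  · rfl

/-- Convergence of vectors which are `0` outside a fixed finite set. PROOF: `ξ = ∑_{q ∈ Q} ξ q • bv q` (`hasSum_bv`, `hasSum_sum_of_ne_finset_zero`), `tendsto_finset_sum`; the limit `ξ₀` is also `0` outside `Q`
(limits are unique, if `l` is not `⊥`; if `l = ⊥` there is nothing to prove). -/
theorem tendsto_of_finset {J : Type} {l : Filter Zp} {ξ : Zp → L2 J} {ξ₀ : L2 J} (Q : Finset J)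
    (h : ∀ᶠ z in l, ∀ q ∉ Q, (ξ z : J → ℂ) q = 0)
    (hq : ∀ q, Tendsto (fun z => (ξ z : J → ℂ) q) l (𝓝 ((ξ₀ : J → ℂ) q))) :
    Tendsto ξ l (𝓝 ξ₀) := by
  rcases eq_or_neBot l with hl | hl
  · rw [hl]
    exact tendsto_bot
  · have h0 : ∀ q ∉ Q, (ξ₀ : J → ℂ) q = 0 := by
      intro q hqQ
      have h1 : Tendsto (fun z => (ξ z : J → ℂ) q) l (𝓝 0) := by
        refine tendsto_const_nhds.congr' ?_
        filter_upwards [h] with z hz
        exact (hz q hqQ).symm
      exact tendsto_nhds_unique (hq q) h1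
    have hexp : ∀ η : L2 J, (∀ q ∉ Q, (η : J → ℂ) q = 0) →
        η = ∑ q ∈ Q, (η : J → ℂ) q • bv q := by
      intro η hη
      have h1 : HasSum (fun b => (η : J → ℂ) b • (bv b : L2 J)) (∑ q ∈ Q, (η : J → ℂ) q • bv q) :=
        hasSum_sum_of_ne_finset_zero fun b hb => by rw [hη b hb, zero_smul]
      exact (hasSum_bv η).unique h1
    have h2 : Tendsto (fun z => ∑ q ∈ Q, (ξ z : J → ℂ) q • (bv q : L2 J)) l
        (𝓝 (∑ q ∈ Q, (ξ₀ : J → ℂ) q • (bv q : L2 J))) :=
      tendsto_finsetSum _ fun q _ => (hq q).smul_const _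
    rw [← hexp ξ₀ h0] at h2
    refine h2.congr' ?_
    filter_upwards [h] with z hz
    exact (hexp (ξ z) hz).symm

/-- Continuity of `V_D ∘ Tr s`. PROOF: `Bs I₀` is finite (a subtype of `Finset I₀ × Finset I₀`), so `ξ` is a finite sum of the `ξ β • bv β` (`hasSum_bv`) and we may assume `ξ = bv β`
(`tendsto_finset_sum`, `map_sum`). Then `tendsto_of_finset` with the coordinates `Vd_Tr_bv`, `tendsto_vcoef`, `exists_finset_vcoef`
(`tendsto_congr'`; the coordinates of the limit are also given by `Vd_Tr_bv`). -/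
theorem tendsto_Vd_Tr [Finite I₀] (e₀ : I₀ ↪ O₀) (e : G ↪ O) {l : Filter Zp} {D : Zp → Set G}
    {D₀ : Set G} (hD : ∀ᶠ z in l, Sep V (D z)) (hD₀ : Sep V D₀) {s : Zp → I₀ ↪ G} {s₀ : I₀ ↪ G}
    (hs : ∀ᶠ z in l, ∀ i, s z i ∈ D z) (hs₀ : ∀ i, s₀ i ∈ D₀)
    (h : ∀ i, Tendsto (fun z => s z i) l (𝓝 (s₀ i))) (ξ : L2 (Bs I₀)) :
    Tendsto (fun z => χ.Vd e (D z) (Tr e₀ e (s z) ξ)) l (𝓝 (χ.Vd e D₀ (Tr e₀ e s₀ ξ))) := by
  classical
  obtain ⟨hF⟩ := nonempty_fintype I₀
  have hB : Finite (Bs I₀) := by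
    unfold Bs
    infer_instance
  obtain ⟨hBF⟩ := nonempty_fintype (Bs I₀)
  have hξ : ξ = ∑ β : Bs I₀, (ξ : Bs I₀ → ℂ) β • bv β :=
    (hasSum_bv ξ).unique (hasSum_fintype _)
  have key : ∀ β : Bs I₀, Tendsto (fun z => χ.Vd e (D z) (Tr e₀ e (s z) (bv β))) l
      (𝓝 (χ.Vd e D₀ (Tr e₀ e s₀ (bv β)))) := by
    intro β
    obtain ⟨Q, hQ⟩ := exists_finset_vcoef χ e₀ (s := fun z => (s z : I₀ → G)) (s₀ := s₀) h
    refine tendsto_of_finset Q ?_ ?_
    · filter_upwards [hQ, hD, hs] with z h1 h2 h3 q hq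
      rw [Vd_Tr_bv χ e₀ e h2 (s z) h3 β q]
      exact h1 q hq β
    · intro q
      rw [Vd_Tr_bv χ e₀ e hD₀ s₀ hs₀ β q]
      refine (tendsto_vcoef χ e₀ β q (s := fun z => (s z : I₀ → G)) (s₀ := s₀) h).congr' ?_
      filter_upwards [hD, hs] with z h2 h3
      exact (Vd_Tr_bv χ e₀ e h2 (s z) h3 β q).symm
  have hrw : ∀ (A : Set G) (t : I₀ ↪ G), χ.Vd e A (Tr e₀ e t ξ) =
      ∑ β : Bs I₀, (ξ : Bs I₀ → ℂ) β • χ.Vd e A (Tr e₀ e t (bv β)) := by
    intro A t
    conv_lhs => rw [hξ]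
    rw [map_sum, map_sum]
    refine Finset.sum_congr rfl fun β _ => ?_
    rw [map_smul, map_smul]
  rw [hrw]
  simp only [hrw]
  exact tendsto_finsetSum _ fun β _ => (key β).const_smul _

end Pool.Agent.Lib.MP_aa9b81_an.Cb
end

end


section
/-!
# Continuous Bernoulli, part Ve: local sections and strong continuity of `V_D n V_D^*`
-/

open scoped ENNReal Topology Pointwise
open Function Filter

noncomputable section

namespace Pool.Agent.Lib.MP_aa9b81_an.Cb

open Cut Hs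

variable {G O Zp : Type} [Group G] [TopologicalSpace G] [LinearOrder O] [TopologicalSpace Zp]
  {V : Set G}

/-- The family `D z` of sets is continuous for the Fell topology. -/
structure Fell (D : Zp → Set G) : Prop where
  lower : ∀ z₀, ∀ i ∈ D z₀, ∀ N ∈ 𝓝 i, ∀ᶠ z in 𝓝 z₀, (D z ∩ N).Nonempty
  upper : ∀ z₀, ∀ C : Set G, IsCompact C → Disjoint C (D z₀) → ∀ᶠ z in 𝓝 z₀, Disjoint C (D z)

/-- `s` is a local section of `D` over the finite set `L ⊆ D z₀`, near `z₀`. -/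
structure LSec (D : Zp → Set G) (z₀ : Zp) (L : Finset G) (s : Zp → (L ↪ G)) : Prop where
  mem : ∀ᶠ z in 𝓝 z₀, ∀ i, s z i ∈ D z
  tend : ∀ i, Tendsto (fun z => s z i) (𝓝 z₀) (𝓝 i.1)

/-- The embedding of `L` in `O`. -/
def eL (e : G ↪ O) (L : Finset G) : L ↪ O := (Embedding.subtype _).trans e

/-- The inclusion of `L` in `G`. -/
def iL (L : Finset G) : L ↪ G := Embedding.subtype _

/-- The inclusion of `L'` in `L`. -/
def inL {L L' : Finset G} (h : L' ⊆ L) : L' ↪ L :=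
  ⟨fun i => ⟨i.1, h i.2⟩, fun i j e => Subtype.ext (congrArg (fun x : L => x.1) e)⟩

/-- At `z₀` a local section is the inclusion. PROOF: `pure z₀ ≤ 𝓝 z₀` and limits are unique (`T1`: if `s z₀ i ≠ i` the complement of `{s z₀ i}` is a
neighbourhood of `i`, but `s z` is in it for `z = z₀`, `mem_of_mem_nhds`). -/
theorem LSec.eq [T1Space G] {D : Zp → Set G} {z₀ : Zp} {L : Finset G} {s : Zp → (L ↪ G)}
    (h : LSec D z₀ L s) : s z₀ = iL L := by
  ext i
  show s z₀ i = i.1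
  by_contra hne
  have h1 : {x : G | x ≠ s z₀ i} ∈ 𝓝 i.1 := isOpen_compl_singleton.mem_nhds fun h2 => hne h2.symm
  have h2 : ∀ᶠ z in 𝓝 z₀, s z i ∈ {x : G | x ≠ s z₀ i} := (h.tend i) h1
  exact h2.self_of_nhds rfl

private theorem Ve_unique [IsTopologicalGroup G] (hV : V ∈ 𝓝 (1 : G)) (i : G) :
    ∃ N ∈ 𝓝 i, ∀ D : Set G, Sep V D → ∀ a ∈ D, ∀ b ∈ D, a ∈ N → b ∈ N → a = b := by
  have h1 : Continuous fun p : G × G => p.1⁻¹ * p.2 := continuous_fst.inv.mul continuous_snd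
  have h2 : (fun p : G × G => p.1⁻¹ * p.2) ⁻¹' V ∈ 𝓝 (i, i) := by
    apply h1.continuousAt
    show V ∈ 𝓝 (i⁻¹ * i)
    rw [inv_mul_cancel]
    exact hV
  obtain ⟨u, hu, v, hv, huv⟩ := mem_nhds_prod_iff.1 h2
  refine ⟨u ∩ v, Filter.inter_mem hu hv, ?_⟩
  intro D hD a ha b hb haN hbN
  exact hD a ha b hb (huv (show (a, b) ∈ u ×ˢ v from ⟨haN.1, hbN.2⟩))

/-- Local sections exist. PROOF: `V ∈ 𝓝 1`; for every `i ∈ L` choose a decreasing... simpler: for every `z` such that for all `i ∈ L` the set `D z ∩ i • N` is not empty, where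
`N` is an open neighbourhood of `1` with `N⁻¹ * N ⊆ V` and the sets `i • N`, `i ∈ L`, are pairwise disjoint (a finite set in a Hausdorff space), let `s z i` be an element of `D z ∩ i • N`: it is unique
(`Sep V (D z)`), and `i ↦ s z i` is injective; for the other `z` let `s z` be the inclusion. `mem`: `Fell.lower` for the finitely many `i`. `tend`: let `N'` be a
neighbourhood of `i`; for `z` near `z₀` the set `D z ∩ (N' ∩ i • N)` is not empty, and its element is `s z i` by uniqueness. -/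
theorem exists_LSec [IsTopologicalGroup G] [T2Space G] (hV : V ∈ 𝓝 (1 : G)) {D : Zp → Set G}
    (hD : Fell D) (hS : ∀ z, Sep V (D z)) {z₀ : Zp} {L : Finset G} (hL : (L : Set G) ⊆ D z₀) :
    ∃ s : Zp → (L ↪ G), LSec D z₀ L s := by
  classical
  obtain ⟨U, hU, hdis⟩ := L.finite_toSet.t2_separation
  have h1 := fun i : G => Ve_unique hV i
  choose N hN huniq using h1
  let M : G → Set G := fun i => N i ∩ U i
  have hM : ∀ i, M i ∈ 𝓝 i := fun i => Filter.inter_mem (hN i) ((hU i).2.mem_nhds (hU i).1)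
  have hMu : ∀ (i : G) (z : Zp) (a b : G), a ∈ D z → b ∈ D z → a ∈ M i → b ∈ M i → a = b :=
    fun i z a b ha hb haM hbM => huniq i (D z) (hS z) a ha b hb haM.1 hbM.1
  let P : Zp → Prop := fun z => ∀ i : L, (D z ∩ M i.1).Nonempty
  have hinj : ∀ (z : Zp) (h : P z), Injective fun i : L => (h i).choose := by
    intro z h i j hij
    by_contra hne
    have hne' : i.1 ≠ j.1 := fun h' => hne (Subtype.ext h')
    have hd := hdis i.2 j.2 hne'
    have hi := (h i).choose_spec.2.2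
    have hj := (h j).choose_spec.2.2
    have hij' : (h i).choose = (h j).choose := hij
    rw [← hij'] at hj
    exact Set.disjoint_left.1 hd hi hj
  let s : Zp → (L ↪ G) := fun z => if h : P z then ⟨fun i => (h i).choose, hinj z h⟩ else iL L
  have hs : ∀ (z : Zp) (h : P z) (i : L), s z i ∈ D z ∧ s z i ∈ M i.1 := by
    intro z h i
    have h2 : s z i = (h i).choose := by
      show (if h : P z then (⟨fun i => (h i).choose, hinj z h⟩ : L ↪ G) else iL L) i = _
      rw [dif_pos h]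
      rfl
    rw [h2]
    exact (h i).choose_spec
  have hP : ∀ᶠ z in 𝓝 z₀, P z :=
    Filter.eventually_all.2 fun i => hD.lower z₀ i.1 (hL i.2) (M i.1) (hM i.1)
  refine ⟨s, ?_, ?_⟩
  · filter_upwards [hP] with z hz i
    exact (hs z hz i).1
  · intro i
    rw [Filter.tendsto_def]
    intro N' hN'
    have h2 := hD.lower z₀ i.1 (hL i.2) (N' ∩ M i.1) (Filter.inter_mem hN' (hM i.1))
    filter_upwards [hP, h2] with z hz hz2
    obtain ⟨a, haD, haN, haM⟩ := hz2
    have h3 := hMu i.1 z (s z i) a (hs z hz i).1 haD (hs z hz i).2 haM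
    show s z i ∈ N'
    rw [h3]
    exact haN

/-- Restriction of a local section. PROOF: definition. -/
theorem LSec.restrict {D : Zp → Set G} {z₀ : Zp} {L L' : Finset G} {s : Zp → (L ↪ G)}
    (h : LSec D z₀ L s) (hL : L' ⊆ L) :
    LSec D z₀ L' fun z => (inL hL).trans (s z) := by
  refine ⟨?_, ?_⟩
  · filter_upwards [h.mem] with z hz i
    exact hz (inL hL i)
  · intro i
    exact h.tend (inL hL i)

/-- Any two points of `D z` near to `i ∈ D z₀` are equal; so a point of `D z` near to `i` is on the local section. PROOF: let `N` be a neighbourhood of `1` with `N⁻¹ * N ⊆ V`; the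
neighbourhood `i • N` of `i`. -/
theorem exists_nhds_unique [IsTopologicalGroup G] (hV : V ∈ 𝓝 (1 : G)) (i : G) :
    ∃ N ∈ 𝓝 i, ∀ D : Set G, Sep V D → ∀ a ∈ D, ∀ b ∈ D, a ∈ N → b ∈ N → a = b :=
  Ve_unique hV i

variable (χ : Part V)

/-- The sign of the inclusion is `1`. -/
private theorem Ve_sg_incl (K : Finset ℕ) (M : Finset K) :
    sg (vE K) (Embedding.refl ℕ) (fun k : K => (k : ℕ)) M = 1 := by
  unfold sg
  refine Finset.prod_eq_one fun j _ => Finset.prod_eq_one fun k hk => ?_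
  unfold ta
  have h1 : vE K k < vE K j := (Finset.mem_filter.1 hk).2
  have h2 : (k : ℕ) < (j : ℕ) := h1
  rw [if_neg]
  exact not_lt.2 h2.le

open Classical in
theorem Ve_image_S (q : Bs ℕ) :
    (Finset.univ.filter fun k : q.F => k.1 ∈ q.S).image (fun k : q.F => (k : ℕ)) = q.S := by
  ext k
  rw [Finset.mem_image]
  constructor
  · rintro ⟨k', hk', rfl⟩
    exact (Finset.mem_filter.1 hk').2
  · intro hk
    exact ⟨⟨k, q.sub hk⟩, Finset.mem_filter.2 ⟨Finset.mem_univ _, hk⟩, rfl⟩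

open Classical in
/-- The sign of `pt` as a sign over the subtype. -/
theorem Ve_sg (e : G ↪ O) (f : ℕ → G) (q : Bs ℕ) (hf : Set.InjOn f q.F) (g : q.F → G)
    (hg : ∀ k : q.F, f k = g k) :
    sg (Embedding.refl ℕ) e f q.S = sg (vE q.F) e g (Finset.univ.filter fun k : q.F => k.1 ∈ q.S) := by
  have hinj : Set.InjOn (f ∘ fun k : q.F => (k : ℕ))
      ((Finset.univ.filter fun k : q.F => k.1 ∈ q.S : Finset q.F) : Set q.F) := by
    intro a _ b _ hab
    exact Subtype.ext (hf a.2 b.2 hab)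
  have h1 := sg_comp (vE q.F) (Embedding.refl ℕ) e (fun k : q.F => (k : ℕ)) f hinj
  rw [Ve_sg_incl, mul_one, Ve_image_S] at h1
  rw [← h1]
  exact sg_congr _ _ fun k _ => hg k

open Classical in
/-- The pair of the points of `q` over the index set `L`. -/
def Ve_beta {L : Finset G} (q : Bs ℕ) (j : q.F → L) : Bs L :=
  Bs.mk (Finset.univ.image j) ((Finset.univ.filter fun k : q.F => k.1 ∈ q.S).image j)
    (Finset.image_subset_image (Finset.filter_subset _ _))

open Classical in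
/-- The coefficient. -/
def Ve_c {L : Finset G} (e : G ↪ O) (q : Bs ℕ) (j : q.F → L) (x : L → G) : ℂ :=
  (∏ k : q.F, (χ.χ k (x (j k)) : ℂ)) *
    sg (vE q.F) (eL e L) j (Finset.univ.filter fun k : q.F => k.1 ∈ q.S)

private theorem Ve_c_cont {L : Finset G} (e : G ↪ O) (q : Bs ℕ) (j : q.F → L) :
    Continuous (Ve_c χ e q j) := by
  unfold Ve_c
  refine Continuous.mul ?_ continuous_const
  refine continuous_finsetProd _ fun k _ => ?_
  exact Complex.continuous_ofReal.comp ((χ.cont k).comp (continuous_apply (j k)))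

/-- `V_D^*` of a basis vector all of whose indices are used by the points `t i`. -/
private theorem Ve_Vs {L : Finset G} (e : G ↪ O) {D : Set G} (hD : Sep V D) (q : Bs ℕ) (t : L ↪ G)
    (ht : ∀ i, t i ∈ D) (j : q.F → L) (hj : Injective j) (hne : ∀ k : q.F, χ.χ k (t (j k)) ≠ 0) :
    χ.Vs e D (bv q) = Ve_c χ e q j t • Tr (eL e L) e t (bv (Ve_beta q j)) := by
  classical
  have hok : ∀ k : q.F, χ.ok D k ∧ χ.pt D k = t (j k) := fun k =>
    Part.pt_eq χ hD (ht (j k)) (hne k)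
  have hinj : Set.InjOn (χ.pt D) q.F := by
    intro a ha b hb hab
    have h1 := (hok ⟨a, ha⟩).2
    have h2 := (hok ⟨b, hb⟩).2
    have h3 : t (j ⟨a, ha⟩) = t (j ⟨b, hb⟩) := by rw [← h1, ← h2]; exact hab
    exact congrArg Subtype.val (hj (t.injective h3))
  have htau : χ.tau D q = mp t (Ve_beta q j) := by
    refine Bs.ext ?_ ?_
    · show q.F.image (χ.pt D) = (Finset.univ.image j).map t
      ext a
      rw [Finset.mem_image, Finset.mem_map]
      constructor
      · rintro ⟨k, hk, rfl⟩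
        exact ⟨j ⟨k, hk⟩, Finset.mem_image.2 ⟨⟨k, hk⟩, Finset.mem_univ _, rfl⟩,
          (hok ⟨k, hk⟩).2.symm⟩
      · rintro ⟨i, hi, rfl⟩
        obtain ⟨k, _, rfl⟩ := Finset.mem_image.1 hi
        exact ⟨k, k.2, (hok k).2⟩
    · show q.S.image (χ.pt D) = ((Finset.univ.filter fun k : q.F => k.1 ∈ q.S).image j).map t
      ext a
      rw [Finset.mem_image, Finset.mem_map]
      constructor
      · rintro ⟨k, hk, rfl⟩
        exact ⟨j ⟨k, q.sub hk⟩, Finset.mem_image.2 ⟨⟨k, q.sub hk⟩,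
          Finset.mem_filter.2 ⟨Finset.mem_univ _, hk⟩, rfl⟩, (hok ⟨k, q.sub hk⟩).2.symm⟩
      · rintro ⟨i, hi, rfl⟩
        obtain ⟨k, hk, rfl⟩ := Finset.mem_image.1 hi
        exact ⟨k, (Finset.mem_filter.1 hk).2, (hok k).2⟩
  have hwt : χ.wt e D q = ((∏ k ∈ q.F, χ.χ k (χ.pt D k) : ℝ) : ℂ) *
      sg (Embedding.refl ℕ) e (χ.pt D) q.S := by
    unfold Part.wt
    rw [if_pos ⟨fun k hk => (hok ⟨k, hk⟩).1, hinj⟩]
  have hprod : ((∏ k ∈ q.F, χ.χ k (χ.pt D k) : ℝ) : ℂ) = ∏ k : q.F, (χ.χ k (t (j k)) : ℂ) := by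
    rw [← Finset.prod_coe_sort, Complex.ofReal_prod]
    exact Finset.prod_congr rfl fun k _ => by rw [(hok k).2]
  have hsg : sg (Embedding.refl ℕ) e (χ.pt D) q.S = sg (eL e L) e t (Ve_beta q j).S *
      sg (vE q.F) (eL e L) j (Finset.univ.filter fun k : q.F => k.1 ∈ q.S) := by
    rw [Ve_sg e (χ.pt D) q hinj (t ∘ j) fun k => (hok k).2,
      sg_comp (vE q.F) (eL e L) e j t ((t.injective.comp hj).injOn)]
    rfl
  rw [Vs_bv χ e hD, htau, hwt, hprod, hsg, Tr_bv, smul_smul]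
  congr 1
  unfold Ve_c
  ring

/-- The functions are at most `1`. -/
private theorem Ve_le_one (k : ℕ) (a : G) : χ.χ k a ≤ 1 := by
  have h1 : χ.χ k a ^ 2 ≤ 1 := by
    have h2 := le_hasSum (χ.sum a) k fun k' _ => sq_nonneg (χ.χ k' a)
    exact h2
  have h3 := χ.nonneg k a
  nlinarith

private theorem Ve_Vs_zero (e : G ↪ O) {D : Set G} (hD : Sep V D) (q : Bs ℕ)
    (h : ¬ ((∀ k ∈ q.F, χ.ok D k) ∧ Set.InjOn (χ.pt D) q.F)) : χ.Vs e D (bv q) = 0 := by
  rw [Vs_bv χ e hD]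
  have hwt : χ.wt e D q = 0 := by
    unfold Part.wt
    rw [if_neg h]
  rw [hwt, zero_smul]

/-- The norm of `V_D^*` of a basis vector. -/
private theorem Ve_norm_Vs (e : G ↪ O) {D : Set G} (hD : Sep V D) (q : Bs ℕ) {k : ℕ}
    (hk : k ∈ q.F) (hok : χ.ok D k) : ‖χ.Vs e D (bv q)‖ ≤ χ.χ k (χ.pt D k) := by
  by_cases h : (∀ k ∈ q.F, χ.ok D k) ∧ Set.InjOn (χ.pt D) q.F
  · rw [Vs_bv χ e hD, norm_smul, norm_bv, mul_one]
    have hwt : χ.wt e D q = ((∏ k ∈ q.F, χ.χ k (χ.pt D k) : ℝ) : ℂ) *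
        sg (Embedding.refl ℕ) e (χ.pt D) q.S := by
      unfold Part.wt
      rw [if_pos h]
    classical
    rw [hwt, norm_mul, norm_sg, mul_one, Complex.norm_real, Real.norm_eq_abs,
      abs_of_nonneg (Finset.prod_nonneg fun k' _ => χ.nonneg k' _),
      ← Finset.mul_prod_erase _ _ hk]
    have h1 : ∏ k' ∈ q.F.erase k, χ.χ k' (χ.pt D k') ≤ 1 :=
      Finset.prod_le_one (fun k' _ => χ.nonneg k' _) fun k' _ => Ve_le_one χ k' _
    exact mul_le_of_le_one_right (χ.nonneg k _) h1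
  · rw [Ve_Vs_zero χ e hD q h, norm_zero]
    exact χ.nonneg k _

/-- The adjoint of `V_D` on a basis vector, near `z₀`. PROOF. Let `q = (K, M)`. `Vs (bv q) = wt q • bv (tau q)` (`Vs_bv`) and `|wt q|` is `∏_{k ∈ K} χ_k (pt k)` or `0`.
Case 1: some `k ∈ K` is not `ok` at `D z₀`: `χ_k = 0` on `D z₀`. Then `wt` is `0` at `z₀`, and for `ε > 0` the set `C = {a | ε ≤ χ_k a}` is compact (closed in the
compact support of `χ_k`) and disjoint from `D z₀`, so disjoint from `D z` for `z` near `z₀` (`Fell.upper`): so `χ_k (pt (D z) k) < ε` and `‖wt q‖ ≤ ε` times the product of the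
maxima of the other `χ_{k'}` (a constant; `χ ≤ 1` since the sum of the squares is `1`). First alternative.
Case 2: all `k ∈ K` are `ok` at `D z₀`, let `i_k = pt (D z₀) k ∈ D z₀`, `L₁ = {i_k}`. By `exists_nhds_unique` (`V`) and `Fell.lower` there is for `z` near `z₀` a point of `D z` near to `i_k`, and
`χ_k` is not `0` there (continuity), so this point is `pt (D z) k` (`Part.pt_eq`); for a local section `s` on `L₁` it is `s z i_k`. So eventually `ok (D z) k` and
`pt (D z) k = s z i_k` for `k ∈ K`. If `k ↦ i_k` is not injective on `K` then `wt q = 0` at `z₀` and near `z₀`: first alternative. Otherwise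
`wt q = ∏_k χ_k (s z i_k) * sg (refl ℕ) e (pt (D z)) M`, `tau q = mp (s z) β₀` with `β₀ = ({i_k}, {i_k : k ∈ M})`, and the sign is a constant `±1` times `sg (eL e L₁) e (s z) β₀.S` (`sg_comp`), so
`Vs (bv q) = c (s z) • Tr (s z) (bv β₀)` with `c x = ± ∏_k χ_k (x i_k)` (`Tr_bv`, `sg_mul_self`). Second alternative with `ξ₀ = bv β₀`. -/
theorem Vs_bv_cases [IsTopologicalGroup G] [T2Space G] [LocallyCompactSpace G]
    (hV : V ∈ 𝓝 (1 : G)) (e : G ↪ O) {D : Zp → Set G} (hD : Fell D) (hS : ∀ z, Sep V (D z))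
    (z₀ : Zp) (q : Bs ℕ) :
    (Tendsto (fun z => χ.Vs e (D z) (bv q)) (𝓝 z₀) (𝓝 0) ∧ χ.Vs e (D z₀) (bv q) = 0) ∨
      ∃ L₁ : Finset G, (L₁ : Set G) ⊆ D z₀ ∧ ∃ (ξ₀ : L2 (Bs L₁)) (c : (L₁ → G) → ℂ),
        Continuous c ∧ ∀ s : Zp → (L₁ ↪ G), LSec D z₀ L₁ s →
          ∀ᶠ z in 𝓝 z₀, χ.Vs e (D z) (bv q) = c (s z) • Tr (eL e L₁) e (s z) ξ₀ := by
  classical
  by_cases h1 : ∀ k ∈ q.F, χ.ok (D z₀) k
  · by_cases h2 : Set.InjOn (χ.pt (D z₀)) q.F
    · right
      let L₁ : Finset G := q.F.image (χ.pt (D z₀))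
      let j : q.F → L₁ := fun k => ⟨χ.pt (D z₀) k, Finset.mem_image_of_mem _ k.2⟩
      have hj : Injective j := by
        intro a b hab
        have h3 : χ.pt (D z₀) a = χ.pt (D z₀) b := congrArg Subtype.val hab
        exact Subtype.ext (h2 a.2 b.2 h3)
      refine ⟨L₁, ?_, bv (Ve_beta q j), Ve_c χ e q j, Ve_c_cont χ e q j, ?_⟩
      · intro a ha
        obtain ⟨k, hk, rfl⟩ := Finset.mem_image.1 ha
        exact (χ.pt_spec (h1 k hk)).1
      · intro s hs
        have h3 : ∀ᶠ z in 𝓝 z₀, ∀ k : q.F, χ.χ k (s z (j k)) ≠ 0 := by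
          refine Filter.eventually_all.2 fun k => ?_
          have h4 : Tendsto (fun z => χ.χ k (s z (j k))) (𝓝 z₀)
              (𝓝 (χ.χ k (χ.pt (D z₀) k))) := ((χ.cont k).tendsto _).comp (hs.tend (j k))
          exact h4.eventually_ne (χ.pt_spec (h1 k k.2)).2
        filter_upwards [hs.mem, h3] with z hz1 hz2
        exact Ve_Vs χ e (hS z) q (s z) hz1 j hj hz2
    · left
      have h3 : ∃ k ∈ q.F, ∃ k' ∈ q.F, χ.pt (D z₀) k = χ.pt (D z₀) k' ∧ k ≠ k' := by
        by_contra hcon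
        push Not at hcon
        exact h2 fun a ha b hb hab => hcon a ha b hb hab
      obtain ⟨k, hk, k', hk', heq, hne⟩ := h3
      refine ⟨?_, Ve_Vs_zero χ e (hS z₀) q fun h => h2 h.2⟩
      have h4 : {a | χ.χ k a ≠ 0} ∩ {a | χ.χ k' a ≠ 0} ∈ 𝓝 (χ.pt (D z₀) k) := by
        refine Filter.inter_mem ?_ ?_
        · exact (isOpen_ne.preimage (χ.cont k)).mem_nhds (χ.pt_spec (h1 k hk)).2
        · refine (isOpen_ne.preimage (χ.cont k')).mem_nhds ?_
          show χ.χ k' (χ.pt (D z₀) k) ≠ 0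
          rw [heq]
          exact (χ.pt_spec (h1 k' hk')).2
      have h5 := hD.lower z₀ _ (χ.pt_spec (h1 k hk)).1 _ h4
      refine tendsto_const_nhds.congr' ?_
      filter_upwards [h5] with z hz
      obtain ⟨a, haD, ha1, ha2⟩ := hz
      have h6 := (Part.pt_eq χ (hS z) haD ha1).2
      have h7 := (Part.pt_eq χ (hS z) haD ha2).2
      exact (Ve_Vs_zero χ e (hS z) q fun h => hne (h.2 hk hk' (h6.trans h7.symm))).symm
  · left
    push Not at h1
    obtain ⟨k, hk, hok⟩ := h1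
    refine ⟨?_, Ve_Vs_zero χ e (hS z₀) q fun h => hok (h.1 k hk)⟩
    rw [Metric.tendsto_nhds]
    intro ε hε
    have hcpt : IsCompact {a | ε / 2 ≤ χ.χ k a} := by
      refine IsCompact.of_isClosed_subset (χ.cpt k) (isClosed_le continuous_const (χ.cont k)) ?_
      intro a ha
      apply subset_tsupport
      have h2 : ε / 2 ≤ χ.χ k a := ha
      exact (by linarith : (0 : ℝ) < χ.χ k a).ne'
    have hdis : Disjoint {a | ε / 2 ≤ χ.χ k a} (D z₀) := by
      rw [Set.disjoint_left]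
      intro a ha haD
      have h2 : ε / 2 ≤ χ.χ k a := ha
      exact hok ⟨a, haD, (by linarith : (0 : ℝ) < χ.χ k a).ne'⟩
    filter_upwards [hD.upper z₀ _ hcpt hdis] with z hz
    rw [dist_zero_right]
    by_cases h2 : χ.ok (D z) k
    · have h3 := Ve_norm_Vs χ e (hS z) q hk h2
      have h4 : χ.χ k (χ.pt (D z) k) < ε / 2 := by
        by_contra hcon
        push Not at hcon
        exact Set.disjoint_left.1 hz hcon (χ.pt_spec h2).1
      linarith
    · rw [Ve_Vs_zero χ e (hS z) q fun h => h2 (h.1 k hk), norm_zero]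
      exact hε

/-- The operators `n z` are compatible with the local transport near `z₀`. -/
def LocAt (e : G ↪ O) (D : Zp → Set G) (n : Zp → BL (Bs G)) (z₀ : Zp) : Prop :=
  ∀ ε : ℝ, 0 < ε → ∀ L₁ : Finset G, (L₁ : Set G) ⊆ D z₀ → ∃ L₀ : Finset G, L₁ ⊆ L₀ ∧
    (L₀ : Set G) ⊆ D z₀ ∧ ∃ N₀ : BL (Bs L₀), ∀ s : Zp → (L₀ ↪ G), LSec D z₀ L₀ s →
      ∀ᶠ z in 𝓝 z₀, ‖(n z).comp (Tr (eL e L₀) e (s z)) - (Tr (eL e L₀) e (s z)).comp N₀‖ ≤ ε

/-- The main continuity theorem. PROOF: `‖V n V^*‖ ≤ C` (`norm_Vd_le`, `norm_Vs_le`), so by `SC.of_bv` (and `tendsto_of_bv`) it is enough to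
show for every `q` and `z₀` that `V_{D z} n_z V_{D z}^* (bv q)` tends to its value at `z₀`. By `Vs_bv_cases`: in the first case it tends to `0`, which is the value. In the second case,
let `ε > 0`, take `L₀ ⊇ L₁`, `N₀` from `LocAt` and a local section `s` on `L₀` (`exists_LSec`), `s'` its restriction to `L₁` (`LSec.restrict`), and let `ξ₁ = Tr (inclusion) ξ₀ ∈ ℓ²(Bs L₀)`, so that
`Tr (s' z) ξ₀ = Tr (s z) ξ₁` (`Tr_comp_Tr`). Then `V n V^* (bv q) = c (s' z) • V n Tr (s z) ξ₁`, which differs by at most `‖c (s' z)‖ ε ‖ξ₁‖` from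
`c (s' z) • V Tr (s z) (N₀ ξ₁)`, for `z` near `z₀` and also for `z = z₀`; and `V_{D z} Tr (s z) (N₀ ξ₁)` tends to its value at `z₀` by `tendsto_Vd_Tr` (`LSec.eq`), `c (s' z)` tends to `c (s' z₀)`. So the
limit superior of the distance is at most `2 ‖c‖ ‖ξ₁‖ ε`: `ξ₁` depends on `L₀`, so on `ε`, but `‖ξ₁‖ ≤ ‖ξ₀‖` (`norm_Tr_le`). -/
theorem SC_of_LocAt [IsTopologicalGroup G] [T2Space G] [LocallyCompactSpace G]
    (hV : V ∈ 𝓝 (1 : G)) (e : G ↪ O) {D : Zp → Set G} (hD : Fell D) (hS : ∀ z, Sep V (D z))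
    {n : Zp → BL (Bs G)} {C : ℝ} (hn : ∀ z, ‖n z‖ ≤ C) (h : ∀ z₀, LocAt e D n z₀) :
    SC fun z => ((χ.Vd e (D z)).comp (n z)).comp (χ.Vs e (D z)) := by
  classical
  have hb : ∀ z, ‖((χ.Vd e (D z)).comp (n z)).comp (χ.Vs e (D z))‖ ≤ C := by
    intro z
    have hC : 0 ≤ C := (norm_nonneg _).trans (hn z)
    calc _ ≤ ‖χ.Vd e (D z)‖ * ‖n z‖ * ‖χ.Vs e (D z)‖ :=
          (ContinuousLinearMap.opNorm_comp_le _ _).trans
            (mul_le_mul_of_nonneg_right (ContinuousLinearMap.opNorm_comp_le _ _) (norm_nonneg _))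
      _ ≤ 1 * C * 1 := by
          refine mul_le_mul (mul_le_mul (norm_Vd_le χ e (hS z)) (hn z) (norm_nonneg _) zero_le_one)
            (norm_Vs_le χ e (hS z)) (norm_nonneg _) (by positivity)
      _ = C := by ring
  refine SC.of_bv hb fun q => ?_
  rw [continuous_iff_continuousAt]
  intro z₀
  have hC : 0 ≤ C := (norm_nonneg _).trans (hn z₀)
  rcases Vs_bv_cases χ hV e hD hS z₀ q with ⟨h1, h2⟩ | ⟨L₁, hL₁, ξ₀, c, hc, hcs⟩
  · show Tendsto (fun z => χ.Vd e (D z) (n z (χ.Vs e (D z) (bv q)))) (𝓝 z₀)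
      (𝓝 (χ.Vd e (D z₀) (n z₀ (χ.Vs e (D z₀) (bv q)))))
    rw [h2, map_zero, map_zero]
    have h3 : Tendsto (fun z => C * ‖χ.Vs e (D z) (bv q)‖) (𝓝 z₀) (𝓝 0) := by
      have h4 := (tendsto_norm_zero.comp h1).const_mul C
      rw [mul_zero] at h4
      exact h4
    refine squeeze_zero_norm (fun z => ?_) h3
    calc ‖χ.Vd e (D z) (n z (χ.Vs e (D z) (bv q)))‖
        ≤ ‖χ.Vd e (D z)‖ * ‖n z (χ.Vs e (D z) (bv q))‖ := ContinuousLinearMap.le_opNorm _ _
      _ ≤ 1 * (C * ‖χ.Vs e (D z) (bv q)‖) := by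
          refine mul_le_mul (norm_Vd_le χ e (hS z)) ?_ (norm_nonneg _) zero_le_one
          exact ((n z).le_opNorm _).trans (mul_le_mul_of_nonneg_right (hn z) (norm_nonneg _))
      _ = _ := one_mul _
  · show Tendsto (fun z => χ.Vd e (D z) (n z (χ.Vs e (D z) (bv q)))) (𝓝 z₀)
      (𝓝 (χ.Vd e (D z₀) (n z₀ (χ.Vs e (D z₀) (bv q)))))
    rw [Metric.tendsto_nhds]
    intro ε hε
    obtain ⟨K, hK⟩ : ∃ K : ℝ, K = ‖c (iL L₁)‖ + 1 := ⟨_, rfl⟩
    have hK0 : 0 < K := by
      rw [hK]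
      positivity
    obtain ⟨δ, hδ⟩ : ∃ δ : ℝ, δ = ε / (4 * (K * ‖ξ₀‖ + 1)) := ⟨_, rfl⟩
    have hδ0 : 0 < δ := by
      rw [hδ]
      positivity
    obtain ⟨L₀, hLL, hL₀, N₀, hN₀⟩ := h z₀ δ hδ0 L₁ hL₁
    obtain ⟨s, hs⟩ := exists_LSec hV hD hS hL₀
    have hs' := hs.restrict hLL
    obtain ⟨ξ₁, hξ₁⟩ : ∃ ξ₁, ξ₁ = Tr (eL e L₁) (eL e L₀) (inL hLL) ξ₀ := ⟨_, rfl⟩
    have hξn : ‖ξ₁‖ ≤ ‖ξ₀‖ := by
      rw [hξ₁]
      refine (ContinuousLinearMap.le_opNorm _ _).trans ?_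
      exact mul_le_of_le_one_left (norm_nonneg _) (norm_Tr_le _ _ _)
    have htr : ∀ z, Tr (eL e L₁) e ((inL hLL).trans (s z)) ξ₀ = Tr (eL e L₀) e (s z) ξ₁ := by
      intro z
      have h3 := Tr_comp_Tr (eL e L₁) (eL e L₀) e (inL hLL) (s z)
      rw [← h3, hξ₁]
      rfl
    have hpi : Tendsto (fun z => ((((inL hLL).trans (s z)) : L₁ ↪ G) : L₁ → G)) (𝓝 z₀)
        (𝓝 (iL L₁ : L₁ → G)) := by
      rw [tendsto_pi_nhds]
      intro i
      exact hs'.tend i
    have hct : Tendsto (fun z => c ((inL hLL).trans (s z))) (𝓝 z₀) (𝓝 (c (iL L₁))) :=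
      (hc.tendsto _).comp hpi
    have e1 := hcs _ hs'
    have e2 := hN₀ s hs
    have e3 : ∀ᶠ z in 𝓝 z₀, ‖c ((inL hLL).trans (s z))‖ ≤ K := by
      have h3 : ∀ᶠ z in 𝓝 z₀, ‖c ((inL hLL).trans (s z))‖ < K := by
        refine hct.norm.eventually_lt_const ?_
        rw [hK]
        linarith
      exact h3.mono fun z hz => hz.le
    have hFG : ∀ z, χ.Vs e (D z) (bv q) = c ((inL hLL).trans (s z)) •
        Tr (eL e L₁) e ((inL hLL).trans (s z)) ξ₀ →
        ‖(n z).comp (Tr (eL e L₀) e (s z)) - (Tr (eL e L₀) e (s z)).comp N₀‖ ≤ δ →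
        ‖c ((inL hLL).trans (s z))‖ ≤ K →
        ‖χ.Vd e (D z) (n z (χ.Vs e (D z) (bv q))) - c ((inL hLL).trans (s z)) •
          χ.Vd e (D z) (Tr (eL e L₀) e (s z) (N₀ ξ₁))‖ ≤ ε / 4 := by
      intro z h3 h4 h5
      rw [h3, htr, map_smul, map_smul, ← smul_sub, norm_smul, ← map_sub]
      have h6 : n z (Tr (eL e L₀) e (s z) ξ₁) - Tr (eL e L₀) e (s z) (N₀ ξ₁) =
          ((n z).comp (Tr (eL e L₀) e (s z)) - (Tr (eL e L₀) e (s z)).comp N₀) ξ₁ := rfl
      rw [h6]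
      have h7 : ‖χ.Vd e (D z) (((n z).comp (Tr (eL e L₀) e (s z)) -
          (Tr (eL e L₀) e (s z)).comp N₀) ξ₁)‖ ≤ 1 * (δ * ‖ξ₀‖) := by
        refine (ContinuousLinearMap.le_opNorm _ _).trans ?_
        refine mul_le_mul (norm_Vd_le χ e (hS z)) ?_ (norm_nonneg _) zero_le_one
        refine (ContinuousLinearMap.le_opNorm _ _).trans ?_
        exact mul_le_mul h4 hξn (norm_nonneg _) hδ0.le
      calc _ ≤ K * (1 * (δ * ‖ξ₀‖)) := mul_le_mul h5 h7 (norm_nonneg _) hK0.le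
        _ = δ * (K * ‖ξ₀‖) := by ring
        _ ≤ δ * (K * ‖ξ₀‖ + 1) := by
            refine mul_le_mul_of_nonneg_left ?_ hδ0.le
            linarith
        _ = ε / 4 := by
            rw [hδ]
            have h8 : K * ‖ξ₀‖ + 1 ≠ 0 := by positivity
            field_simp
    have hG : Tendsto (fun z => c ((inL hLL).trans (s z)) •
        χ.Vd e (D z) (Tr (eL e L₀) e (s z) (N₀ ξ₁))) (𝓝 z₀)
        (𝓝 (c ((inL hLL).trans (s z₀)) • χ.Vd e (D z₀) (Tr (eL e L₀) e (s z₀) (N₀ ξ₁)))) := by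
      have hz : s z₀ = iL L₀ := hs.eq
      have hz' : ((inL hLL).trans (s z₀) : L₁ ↪ G) = iL L₁ := hs'.eq
      rw [hz']
      refine hct.smul ?_
      refine tendsto_Vd_Tr χ (eL e L₀) e (Filter.Eventually.of_forall fun z => hS z) (hS z₀)
        hs.mem ?_ ?_ (N₀ ξ₁)
      · intro i
        rw [hz]
        exact hL₀ i.2
      · intro i
        rw [hz]
        exact hs.tend i
    have e4 := (Metric.tendsto_nhds.1 hG) (ε / 4) (by positivity)
    have h0 := hFG z₀ e1.self_of_nhds e2.self_of_nhds e3.self_of_nhds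
    filter_upwards [e1, e2, e3, e4] with z z1 z2 z3 z4
    have h5 := hFG z z1 z2 z3
    rw [dist_eq_norm] at z4 ⊢
    obtain ⟨A, hA⟩ : ∃ A, A = χ.Vd e (D z) (n z (χ.Vs e (D z) (bv q))) := ⟨_, rfl⟩
    obtain ⟨A₀, hA₀⟩ : ∃ A₀, A₀ = χ.Vd e (D z₀) (n z₀ (χ.Vs e (D z₀) (bv q))) := ⟨_, rfl⟩
    obtain ⟨B, hB⟩ : ∃ B, B = c ((inL hLL).trans (s z)) •
        χ.Vd e (D z) (Tr (eL e L₀) e (s z) (N₀ ξ₁)) := ⟨_, rfl⟩
    obtain ⟨B₀, hB₀⟩ : ∃ B₀, B₀ = c ((inL hLL).trans (s z₀)) •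
        χ.Vd e (D z₀) (Tr (eL e L₀) e (s z₀) (N₀ ξ₁)) := ⟨_, rfl⟩
    rw [← hA, ← hB] at h5
    rw [← hA₀, ← hB₀] at h0
    rw [← hB, ← hB₀] at z4
    rw [← hA, ← hA₀]
    have h6 : A - A₀ = (A - B) + (B - B₀) + (B₀ - A₀) := by abel
    have h7 : ‖B₀ - A₀‖ ≤ ε / 4 := by
      rw [norm_sub_rev]
      exact h0
    rw [h6]
    have h8 := norm_add_le ((A - B) + (B - B₀)) (B₀ - A₀)
    have h9 := norm_add_le (A - B) (B - B₀)
    linarith

/-- Continuity of the translations. PROOF: as `SC_of_LocAt`: `SC.of_bv`; `Vs_bv_cases` for the family `z ↦ D' z`; in the second case, with a local section `s` of `D'` on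
`L₁`, `V_{D z} W_(g z) V_{D' z}^* (bv q) = c (s z) • V_{D z} Tr (g z · s z) ξ₀` (`Wg` is by definition `Tr e e (gs g)`, F4.lean; `Tr_comp_Tr`), and `g z • s z i ∈ D z` tends to `g z₀ • i`: `tendsto_Vd_Tr`. -/
theorem SC_transl [IsTopologicalGroup G] [T2Space G] [LocallyCompactSpace G]
    (hV : V ∈ 𝓝 (1 : G)) (e : G ↪ O) {D D' : Zp → Set G} (hD' : Fell D')
    (hS : ∀ z, Sep V (D z)) (hS' : ∀ z, Sep V (D' z)) {g : Zp → G} (hg : Continuous g)
    (h : ∀ z, ∀ a ∈ D' z, g z * a ∈ D z) :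
    SC fun z => ((χ.Vd e (D z)).comp (Wg e (g z))).comp (χ.Vs e (D' z)) := by
  classical
  have hb : ∀ z, ‖((χ.Vd e (D z)).comp (Wg e (g z))).comp (χ.Vs e (D' z))‖ ≤ 1 := by
    intro z
    calc _ ≤ ‖χ.Vd e (D z)‖ * ‖(Wg e (g z) : BL (Bs G))‖ * ‖χ.Vs e (D' z)‖ :=
          (ContinuousLinearMap.opNorm_comp_le _ _).trans
            (mul_le_mul_of_nonneg_right (ContinuousLinearMap.opNorm_comp_le _ _) (norm_nonneg _))
      _ ≤ 1 * 1 * 1 := by
          refine mul_le_mul (mul_le_mul (norm_Vd_le χ e (hS z)) (norm_Wg_le e (g z))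
            (norm_nonneg _) zero_le_one) (norm_Vs_le χ e (hS' z)) (norm_nonneg _) (by norm_num)
      _ = 1 := by norm_num
  refine SC.of_bv hb fun q => ?_
  rw [continuous_iff_continuousAt]
  intro z₀
  rcases Vs_bv_cases χ hV e hD' hS' z₀ q with ⟨h1, h2⟩ | ⟨L₁, hL₁, ξ₀, c, hc, hcs⟩
  · show Tendsto (fun z => χ.Vd e (D z) (Wg e (g z) (χ.Vs e (D' z) (bv q)))) (𝓝 z₀)
      (𝓝 (χ.Vd e (D z₀) (Wg e (g z₀) (χ.Vs e (D' z₀) (bv q)))))
    rw [h2, map_zero, map_zero]
    refine squeeze_zero_norm (fun z => ?_) (tendsto_norm_zero.comp h1)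
    calc ‖χ.Vd e (D z) (Wg e (g z) (χ.Vs e (D' z) (bv q)))‖
        ≤ ‖χ.Vd e (D z)‖ * ‖Wg e (g z) (χ.Vs e (D' z) (bv q))‖ := ContinuousLinearMap.le_opNorm _ _
      _ ≤ 1 * (1 * ‖χ.Vs e (D' z) (bv q)‖) := by
          refine mul_le_mul (norm_Vd_le χ e (hS z)) ?_ (norm_nonneg _) zero_le_one
          exact ((Wg e (g z)).le_opNorm _).trans
            (mul_le_mul_of_nonneg_right (norm_Wg_le e (g z)) (norm_nonneg _))
      _ = _ := by
          rw [one_mul, one_mul]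
          rfl
  · show Tendsto (fun z => χ.Vd e (D z) (Wg e (g z) (χ.Vs e (D' z) (bv q)))) (𝓝 z₀)
      (𝓝 (χ.Vd e (D z₀) (Wg e (g z₀) (χ.Vs e (D' z₀) (bv q)))))
    obtain ⟨s, hs⟩ := exists_LSec hV hD' hS' hL₁
    have e1 := hcs s hs
    have hF : ∀ z, χ.Vs e (D' z) (bv q) = c (s z) • Tr (eL e L₁) e (s z) ξ₀ →
        χ.Vd e (D z) (Wg e (g z) (χ.Vs e (D' z) (bv q))) =
          c (s z) • χ.Vd e (D z) (Tr (eL e L₁) e ((s z).trans (gs (g z))) ξ₀) := by
      intro z hz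
      have h3 := Tr_comp_Tr (eL e L₁) e e (s z) (gs (g z))
      rw [hz, map_smul, map_smul, ← h3]
      rfl
    have hz : s z₀ = iL L₁ := hs.eq
    have hpi : Tendsto (fun z => (s z : L₁ → G)) (𝓝 z₀) (𝓝 (s z₀ : L₁ → G)) := by
      rw [tendsto_pi_nhds]
      intro i
      rw [hz]
      exact hs.tend i
    have hG : Tendsto (fun z => c (s z) •
        χ.Vd e (D z) (Tr (eL e L₁) e ((s z).trans (gs (g z))) ξ₀)) (𝓝 z₀)
        (𝓝 (c (s z₀) • χ.Vd e (D z₀) (Tr (eL e L₁) e ((s z₀).trans (gs (g z₀))) ξ₀))) := by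
      refine ((hc.tendsto _).comp hpi).smul ?_
      refine tendsto_Vd_Tr χ (eL e L₁) e (Filter.Eventually.of_forall fun z => hS z) (hS z₀)
        ?_ ?_ ?_ ξ₀
      · filter_upwards [hs.mem] with z hz2 i
        exact h z (s z i) (hz2 i)
      · intro i
        exact h z₀ (s z₀ i) (hs.mem.self_of_nhds i)
      · intro i
        have h4 : Tendsto (fun z => g z * s z i) (𝓝 z₀) (𝓝 (g z₀ * s z₀ i)) := by
          refine (hg.tendsto z₀).mul ?_
          rw [hz]
          exact hs.tend i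
        exact h4
    rw [hF z₀ e1.self_of_nhds]
    refine hG.congr' ?_
    filter_upwards [e1] with z hz3
    exact (hF z hz3).symm

end Pool.Agent.Lib.MP_aa9b81_an.Cb
end

end


section
/-!
# Continuous Bernoulli, part Za: the space `Cl_V(G)` of the `V`-separated subsets of `G`
-/

open scoped ENNReal Topology
open Function Filter

noncomputable section

namespace Pool.Agent.Lib.MP_aa9b81_an.Cb

open Cut Hs

/-- The space of the `V`-separated subsets of `G`. -/
def ClV {G : Type} [Group G] (V : Set G) : Type := {D : Set G // Sep V D}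

variable {G : Type} [Group G] {V : Set G}

namespace ClV

/-- The underlying set. -/
def s (D : ClV V) : Set G := D.1

lemma sep (D : ClV V) : Sep V D.s := D.2

@[ext] lemma ext {D D' : ClV V} (h : D.s = D'.s) : D = D' := Subtype.ext h

/-- The empty set. -/
def emp : ClV V := ⟨∅, fun _ h => h.elim⟩

/-- The part of `D` in `T`. -/
def cut (D : ClV V) (T : Set G) : ClV V := ⟨D.s ∩ T, fun a ha b hb => D.2 a ha.1 b hb.1⟩

@[simp] lemma emp_s : (emp : ClV V).s = ∅ := rfl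

@[simp] lemma cut_s (D : ClV V) (T : Set G) : (D.cut T).s = D.s ∩ T := rfl

lemma cut_subset (D : ClV V) (T : Set G) : (D.cut T).s ⊆ D.s := Set.inter_subset_left

instance : SMul G (ClV V) where
  smul g D := ⟨{x | g⁻¹ * x ∈ D.s}, fun a ha b hb h => by
    have h1 := D.2 (g⁻¹ * a) ha (g⁻¹ * b) hb (by
      have h2 : (g⁻¹ * a)⁻¹ * (g⁻¹ * b) = a⁻¹ * b := by group
      rw [h2]
      exact h)
    exact mul_left_cancel h1⟩

@[simp] lemma mem_smul {g : G} {D : ClV V} {x : G} : x ∈ (g • D).s ↔ g⁻¹ * x ∈ D.s := Iff.rfl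

instance : MulAction G (ClV V) where
  one_smul D := by
    ext x
    simp
  mul_smul g h D := by
    ext x
    simp [mul_assoc]

variable [TopologicalSpace G]

/-- The Fell topology, generated by the sets `{D | D ∩ K = ∅}`, `K` compact, and `{D | D ∩ U ≠ ∅}`, `U` open. -/
instance : TopologicalSpace (ClV V) :=
  TopologicalSpace.generateFrom
    ({A | ∃ K : Set G, IsCompact K ∧ A = {D : ClV V | Disjoint K D.s}} ∪
      {A | ∃ U : Set G, IsOpen U ∧ A = {D : ClV V | (D.s ∩ U).Nonempty}})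

lemma isOpen_miss {K : Set G} (hK : IsCompact K) : IsOpen {D : ClV V | Disjoint K D.s} :=
  TopologicalSpace.isOpen_generateFrom_of_mem (Or.inl ⟨K, hK, rfl⟩)

lemma isOpen_hit {U : Set G} (hU : IsOpen U) : IsOpen {D : ClV V | (D.s ∩ U).Nonempty} :=
  TopologicalSpace.isOpen_generateFrom_of_mem (Or.inr ⟨U, hU, rfl⟩)

variable {Zp : Type}

/-- PROOF: `TopologicalSpace.tendsto_nhds_generateFrom_iff`. -/
theorem tendsto_iff {l : Filter Zp} {f : Zp → ClV V} {D : ClV V} :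
    Tendsto f l (𝓝 D) ↔ (∀ K : Set G, IsCompact K → Disjoint K D.s → ∀ᶠ z in l, Disjoint K (f z).s) ∧
      ∀ U : Set G, IsOpen U → (D.s ∩ U).Nonempty → ∀ᶠ z in l, ((f z).s ∩ U).Nonempty := by
  refine TopologicalSpace.tendsto_nhds_generateFrom_iff.trans
    ⟨fun h => ⟨fun K hK hD => ?_, fun U hU hD => ?_⟩, fun h A hA hD => ?_⟩
  · exact h _ (Or.inl ⟨K, hK, rfl⟩) hD
  · exact h _ (Or.inr ⟨U, hU, rfl⟩) hD
  · rcases hA with ⟨K, hK, rfl⟩ | ⟨U, hU, rfl⟩
    · exact h.1 K hK hD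
    · exact h.2 U hU hD

/-- PROOF: `continuous_iff_continuousAt`, `tendsto_iff`; a neighbourhood `N` of `i` contains an open neighbourhood `U` of `i`; `i ∈ D ∩ U`. -/
theorem continuous_iff_fell [TopologicalSpace Zp] {f : Zp → ClV V} :
    Continuous f ↔ Fell fun z => (f z).s := by
  rw [continuous_iff_continuousAt]
  constructor
  · intro h
    refine ⟨fun z₀ i hi N hN => ?_, fun z₀ C hC hd => ?_⟩
    · obtain ⟨U, hUN, hU, hiU⟩ := mem_nhds_iff.1 hN
      exact ((tendsto_iff.1 (h z₀)).2 U hU ⟨i, hi, hiU⟩).mono fun z hz =>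
        hz.mono (Set.inter_subset_inter_right _ hUN)
    · exact (tendsto_iff.1 (h z₀)).1 C hC hd
  · intro h z₀
    refine tendsto_iff.2 ⟨fun K hK hd => h.upper z₀ K hK hd, fun U hU hne => ?_⟩
    obtain ⟨i, hi, hiU⟩ := hne
    exact h.lower z₀ i hi U (hU.mem_nhds hiU)

section Top

variable [IsTopologicalGroup G] [T2Space G] [LocallyCompactSpace G]

/-- PROOF: let `x` be in the closure of `D`. Let `N` be a neighbourhood of `1` with `N⁻¹ * N ⊆ V` (`V ∈ 𝓝 1`). There is a point `a ∈ D ∩ x • N`. If `a ≠ x`, there is a point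
`b ∈ D ∩ (x • N ∖ {a})` (a neighbourhood of `x`, as `G` is `T1`), so `a⁻¹ * b ∈ V` and `a = b`, a contradiction. So `x = a ∈ D`. -/
theorem isClosed_of_sep (hV : V ∈ 𝓝 (1 : G)) {D : Set G} (hD : Sep V D) : IsClosed D := by
  refine isClosed_of_closure_subset fun x hx => ?_
  obtain ⟨N, hN, hu⟩ := exists_nhds_unique hV x
  rw [mem_closure_iff_nhds] at hx
  obtain ⟨a, haN, haD⟩ := hx N hN
  by_cases hax : a = x
  · rw [← hax]; exact haD
  · have h1 : N ∩ {a}ᶜ ∈ 𝓝 x :=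
      Filter.inter_mem hN (isOpen_compl_singleton.mem_nhds fun h => hax h.symm)
    obtain ⟨b, ⟨hbN, hba⟩, hbD⟩ := hx _ h1
    exact (hba (hu D hD b hbD a haD hbN haN)).elim

/-- PROOF: for a compact `C` cover `C` by the interiors of finitely many translates `x • N`, `N⁻¹ * N ⊆ V`; each contains at most one point of `D`
(`exists_nhds_unique`). -/
theorem finite_inter (hV : V ∈ 𝓝 (1 : G)) {D : Set G} (hD : Sep V D) {C : Set G}
    (hC : IsCompact C) : (D ∩ C).Finite := by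
  choose N hN hu using fun x : G => exists_nhds_unique hV x
  obtain ⟨t, -, ht⟩ := hC.elim_nhds_subcover N fun x _ => hN x
  refine Set.Finite.subset (Set.Finite.biUnion t.finite_toSet (t := fun x => D ∩ N x) fun x _ => ?_) ?_
  · exact Set.Subsingleton.finite fun a ha b hb => hu x D hD a ha.1 b hb.1 ha.2 hb.2
  · intro a ha
    obtain ⟨x, hx, hax⟩ := Set.mem_iUnion₂.1 (ht ha.2)
    exact Set.mem_iUnion₂.2 ⟨x, hx, ha.1, hax⟩

private theorem Za_cpt (hV : V ∈ 𝓝 (1 : G)) (D : ClV V) {a : G} (ha : a ∉ D.s) :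
    ∃ K : Set G, IsCompact K ∧ a ∈ interior K ∧ Disjoint K D.s := by
  obtain ⟨K, hK, haK, hKD⟩ := exists_compact_subset (isClosed_of_sep hV D.sep).isOpen_compl ha
  exact ⟨K, hK, haK, Set.disjoint_left.2 fun x hx hxD => hKD hx hxD⟩

/-- PROOF: let `D ≠ D'`, say `a ∈ D`, `a ∉ D'` (the other case is symmetric). `D'` is closed (`isClosed_of_sep`), so there is a compact neighbourhood `K` of `a` with `K ∩ D' = ∅`. The sets
`{A | A ∩ interior K ≠ ∅}` and `{A | A ∩ K = ∅}` are open, disjoint, and contain `D` and `D'`. -/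
theorem t2Space (hV : V ∈ 𝓝 (1 : G)) : T2Space (ClV V) := by
  have key : ∀ D D' : ClV V, ∀ a ∈ D.s, a ∉ D'.s → ∃ u v : Set (ClV V), IsOpen u ∧ IsOpen v ∧
      D ∈ u ∧ D' ∈ v ∧ Disjoint u v := by
    intro D D' a ha ha'
    obtain ⟨K, hK, haK, hKD⟩ := Za_cpt hV D' ha'
    refine ⟨_, _, isOpen_hit isOpen_interior, isOpen_miss hK, ⟨a, ha, haK⟩, hKD, ?_⟩
    rw [Set.disjoint_left]
    rintro A ⟨x, hxA, hxK⟩ hA
    exact Set.disjoint_left.1 hA (interior_subset hxK) hxA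
  refine ⟨fun D D' hne => ?_⟩
  by_cases h : D.s ⊆ D'.s
  · have h' : ¬ D'.s ⊆ D.s := fun h' => hne (ClV.ext (Set.Subset.antisymm h h'))
    obtain ⟨a, ha, ha'⟩ := Set.not_subset.1 h'
    obtain ⟨u, v, hu, hv, h1, h2, h3⟩ := key D' D a ha ha'
    exact ⟨v, u, hv, hu, h2, h1, h3.symm⟩
  · obtain ⟨a, ha, ha'⟩ := Set.not_subset.1 h
    exact key D D' a ha ha'

/-- `ClV V` is compact for open `V`. PROOF: Alexander's subbase theorem (`isCompact_generateFrom`) cannot be applied directly; use an ultrafilter `F` on `ClV V` (`isCompact_iff_ultrafilter_le_nhds`): let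
`A = {x | ∀ U open, x ∈ U → {D | D ∩ U ≠ ∅} ∈ F}`. (1) `A` is `V`-separated: if `a ≠ b` are in `A` and `a⁻¹ * b ∈ V`, `V` open, choose disjoint open `U ∋ a`, `U' ∋ b` with
`x⁻¹ * y ∈ V` for `x ∈ U`, `y ∈ U'`; the two sets of `D` are in `F`, so there is a `D` which meets `U` and `U'`, in different points `x`, `y` with `x⁻¹ * y ∈ V`, a contradiction.
(2) `F ≤ 𝓝 A`: the subbasic sets containing `A` are in `F`: for `U` open with `A ∩ U ≠ ∅` this is the definition of `A`; let `K` be compact with `K ∩ A = ∅`: every `x ∈ K` has an open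
neighbourhood `U_x` with `{D | D ∩ U_x ≠ ∅} ∉ F`, so `{D | D ∩ U_x = ∅} ∈ F`; finitely many `U_x` cover `K`, so `{D | D ∩ K = ∅} ∈ F`
(`tendsto_iff` for `id`, `Filter.tendsto_id'`). -/
theorem compactSpace (hV : IsOpen V) : CompactSpace (ClV V) := by
  refine ⟨isCompact_iff_ultrafilter_le_nhds.2 fun F _ => ?_⟩
  set A : Set G := {x | ∀ U : Set G, IsOpen U → x ∈ U → {D : ClV V | (D.s ∩ U).Nonempty} ∈ F} with hA
  have hsep : Sep V A := by
    intro a ha b hb hab
    by_contra hne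
    obtain ⟨U, U', hU, hU', haU, hbU', hd⟩ := t2_separation hne
    have hop : IsOpen {p : G × G | p.1⁻¹ * p.2 ∈ V} :=
      hV.preimage (continuous_fst.inv.mul continuous_snd)
    obtain ⟨U₁, U₁', hU₁, hU₁', ha₁, hb₁, hs⟩ := isOpen_prod_iff.1 hop a b hab
    have h1 := ha (U ∩ U₁) (hU.inter hU₁) ⟨haU, ha₁⟩
    have h2 := hb (U' ∩ U₁') (hU'.inter hU₁') ⟨hbU', hb₁⟩
    obtain ⟨D, ⟨x, hxD, hxU, hxU₁⟩, y, hyD, hyU', hyU₁'⟩ :=
      Ultrafilter.nonempty_of_mem (Filter.inter_mem h1 h2)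
    have h3 : x = y := D.2 x hxD y hyD (hs (Set.mk_mem_prod hxU₁ hyU₁'))
    rw [h3] at hxU
    exact Set.disjoint_left.1 hd hxU hyU'
  refine ⟨⟨A, hsep⟩, Set.mem_univ _, ?_⟩
  rw [← Filter.tendsto_id']
  refine tendsto_iff.2 ⟨fun K hK hd => ?_, fun U hU hne => ?_⟩
  · have h1 : ∀ x ∈ K, ∃ U : Set G, U ∈ 𝓝 x ∧ {D : ClV V | (D.s ∩ U).Nonempty} ∉ F := by
      intro x hx
      have hxA : x ∉ A := fun h => Set.disjoint_left.1 hd hx h
      rw [hA, Set.mem_setOf_eq] at hxA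
      push Not at hxA
      obtain ⟨U, hU, hxU, hF⟩ := hxA
      exact ⟨U, hU.mem_nhds hxU, hF⟩
    choose U hU hF using h1
    obtain ⟨t, ht⟩ := hK.elim_nhds_subcover' U hU
    have h2 : ∀ x ∈ t, {D : ClV V | (D.s ∩ U x.1 x.2).Nonempty}ᶜ ∈ F := fun x _ =>
      Ultrafilter.compl_mem_iff_notMem.2 (hF x.1 x.2)
    have h3 : ⋂ x ∈ t, {D : ClV V | (D.s ∩ U x.1 x.2).Nonempty}ᶜ ∈ (F : Filter (ClV V)) :=
      (Filter.biInter_finset_mem t).2 h2
    refine Filter.mem_of_superset h3 fun D hD => ?_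
    show Disjoint K D.s
    rw [Set.disjoint_left]
    intro x hxK hxD
    obtain ⟨y, hy, hxy⟩ := Set.mem_iUnion₂.1 (ht hxK)
    exact Set.mem_iInter₂.1 hD y hy ⟨x, hxD, hxy⟩
  · obtain ⟨a, ha, haU⟩ := hne
    exact ha U hU haU

/-- PROOF: `continuous_generateFrom_iff`. Let `(g₀, D₀)` be given. (a) `K` compact, `K ∩ g₀ D₀ = ∅`, that is `D₀ ∩ g₀⁻¹ K = ∅`; `D₀` is closed (`isClosed_of_sep`); the set of the pairs `(g, x)` with `g⁻¹ x ∉ D₀` is open and contains
`{g₀} × K`, so by the tube lemma there is a neighbourhood of `g₀`, and in it a compact neighbourhood `N` of `g₀`, with `g⁻¹ x ∉ D₀` for `g ∈ N`, `x ∈ K`. `C = {g⁻¹ x | g ∈ N, x ∈ K}` is compact and `C ∩ D₀ = ∅`. For `g ∈ interior N` and `D` with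
`C ∩ D = ∅` we have `K ∩ g D = ∅`. (b) `U` open and `g₀ a ∈ U`, `a ∈ D₀`: there are neighbourhoods `N` of `g₀`, `M` of `a` (open) with `N M ⊆ U`; for `g ∈ N` and `D` with `D ∩ M ≠ ∅` we have `g D ∩ U ≠ ∅`. -/
theorem continuousSMul (hV : V ∈ 𝓝 (1 : G)) : ContinuousSMul G (ClV V) := by
  refine ⟨continuous_iff_continuousAt.2 ?_⟩
  rintro ⟨g₀, D₀⟩
  refine tendsto_iff.2 ⟨fun K hK hd => ?_, fun U hU hne => ?_⟩
  · have hcl := isClosed_of_sep hV D₀.sep
    have hW : IsOpen {p : G × G | p.1⁻¹ * p.2 ∈ (D₀.s)ᶜ} :=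
      hcl.isOpen_compl.preimage (continuous_fst.inv.mul continuous_snd)
    have hsub : ({g₀} : Set G) ×ˢ K ⊆ {p : G × G | p.1⁻¹ * p.2 ∈ (D₀.s)ᶜ} := by
      rintro ⟨g, x⟩ ⟨hg, hx⟩
      have hg' : g = g₀ := hg
      subst hg'
      exact fun h => Set.disjoint_left.1 hd hx h
    obtain ⟨u, v, hu, -, hgu, hKv, huv⟩ := generalized_tube_lemma isCompact_singleton hK hW hsub
    obtain ⟨N, hN, hgN, hNu⟩ := exists_compact_subset hu (hgu rfl)
    have hC : IsCompact ((fun p : G × G => p.1⁻¹ * p.2) '' (N ×ˢ K)) :=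
      (hN.prod hK).image (continuous_fst.inv.mul continuous_snd)
    have hCd : Disjoint ((fun p : G × G => p.1⁻¹ * p.2) '' (N ×ˢ K)) D₀.s := by
      rw [Set.disjoint_left]
      rintro _ ⟨⟨g, x⟩, ⟨hg, hx⟩, rfl⟩ hD
      exact huv (Set.mk_mem_prod (hNu hg) (hKv hx)) hD
    have h1 : ∀ᶠ p : G × ClV V in 𝓝 (g₀, D₀), p.1 ∈ interior N :=
      continuous_fst.continuousAt.eventually (isOpen_interior.mem_nhds hgN)
    have h2 : ∀ᶠ p : G × ClV V in 𝓝 (g₀, D₀),
        Disjoint ((fun p : G × G => p.1⁻¹ * p.2) '' (N ×ˢ K)) p.2.s := by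
      have hm : {D : ClV V | Disjoint ((fun p : G × G => p.1⁻¹ * p.2) '' (N ×ˢ K)) D.s} ∈ 𝓝 D₀ :=
        (isOpen_miss hC).mem_nhds hCd
      exact ((continuous_snd (X := G) (Y := ClV V)).continuousAt (x := (g₀, D₀))).eventually hm
    filter_upwards [h1, h2] with p hp1 hp2
    rw [Set.disjoint_left]
    intro x hxK hx
    exact Set.disjoint_left.1 hp2 ⟨(p.1, x), ⟨interior_subset hp1, hxK⟩, rfl⟩ hx
  · obtain ⟨x, hxD, hxU⟩ := hne
    have hW : IsOpen {p : G × G | p.1 * p.2 ∈ U} := hU.preimage continuous_mul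
    obtain ⟨N, M, hN, hM, hgN, hxM, hs⟩ := isOpen_prod_iff.1 hW g₀ (g₀⁻¹ * x) (by
      show g₀ * (g₀⁻¹ * x) ∈ U
      rw [mul_inv_cancel_left]
      exact hxU)
    have h1 : ∀ᶠ p : G × ClV V in 𝓝 (g₀, D₀), p.1 ∈ N :=
      continuous_fst.continuousAt.eventually (hN.mem_nhds hgN)
    have h2 : ∀ᶠ p : G × ClV V in 𝓝 (g₀, D₀), (p.2.s ∩ M).Nonempty :=
      continuous_snd.continuousAt.eventually ((isOpen_hit hM).mem_nhds ⟨g₀⁻¹ * x, hxD, hxM⟩)
    filter_upwards [h1, h2] with p hp1 hp2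
    obtain ⟨y, hyD, hyM⟩ := hp2
    refine ⟨p.1 * y, ?_, hs (Set.mk_mem_prod hp1 hyM)⟩
    show p.1⁻¹ * (p.1 * y) ∈ p.2.s
    rw [inv_mul_cancel_left]
    exact hyD

/-- PROOF: let `A ⊄ D`, `a ∈ A`, `a ∉ D`; `D` is closed, so there is a compact neighbourhood `K` of `a` with `K ∩ D = ∅`; the set of the `(A', D')` with `A' ∩ interior K ≠ ∅` and
`D' ∩ K = ∅` is an open neighbourhood of `(A, D)` with no pair `A' ⊆ D'`. -/
theorem isClosed_le (hV : V ∈ 𝓝 (1 : G)) : IsClosed {p : ClV V × ClV V | p.1.s ⊆ p.2.s} := by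
  rw [← isOpen_compl_iff, isOpen_iff_mem_nhds]
  rintro ⟨A, D⟩ h
  obtain ⟨a, ha, ha'⟩ := Set.not_subset.1 h
  obtain ⟨K, hK, haK, hKD⟩ := Za_cpt hV D ha'
  have h1 : {A : ClV V | (A.s ∩ interior K).Nonempty} ×ˢ {D : ClV V | Disjoint K D.s} ∈ 𝓝 (A, D) :=
    prod_mem_nhds ((isOpen_hit isOpen_interior).mem_nhds ⟨a, ha, haK⟩) ((isOpen_miss hK).mem_nhds hKD)
  refine Filter.mem_of_superset h1 ?_
  rintro ⟨A', D'⟩ ⟨⟨x, hxA, hxK⟩, hD'⟩ hle
  exact Set.disjoint_left.1 hD' (interior_subset hxK) (hle hxA)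

/-- Two different sets are separated by a compact set, uniformly. PROOF: say `a ∈ A`, `a ∉ A'`; `K` a compact neighbourhood of `a` with `K ∩ A' = ∅`; the neighbourhood of `(A, A')` is
`{(B, B') | B ∩ interior K ≠ ∅, B' ∩ K = ∅}`; the other case is symmetric. -/
theorem exists_nhds_ne (hV : V ∈ 𝓝 (1 : G)) {A A' : ClV V} (h : A ≠ A') :
    ∃ K : Set G, IsCompact K ∧ ∀ᶠ p in 𝓝 (A, A'), p.1.s ∩ K ≠ p.2.s ∩ K := by
  have key : ∀ D D' : ClV V, ∀ a ∈ D.s, a ∉ D'.s → ∃ K : Set G, IsCompact K ∧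
      {A : ClV V | (A.s ∩ interior K).Nonempty} ∈ 𝓝 D ∧ {A : ClV V | Disjoint K A.s} ∈ 𝓝 D' := by
    intro D D' a ha ha'
    obtain ⟨K, hK, haK, hKD⟩ := Za_cpt hV D' ha'
    exact ⟨K, hK, (isOpen_hit isOpen_interior).mem_nhds ⟨a, ha, haK⟩, (isOpen_miss hK).mem_nhds hKD⟩
  have key2 : ∀ (K : Set G) (B B' : ClV V), (B.s ∩ interior K).Nonempty → Disjoint K B'.s →
      B.s ∩ K ≠ B'.s ∩ K := by
    rintro K B B' ⟨x, hxB, hxK⟩ hd he
    have h1 : x ∈ B'.s ∩ K := by
      rw [← he]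
      exact ⟨hxB, interior_subset hxK⟩
    exact Set.disjoint_left.1 hd h1.2 h1.1
  by_cases hs : A.s ⊆ A'.s
  · have hs' : ¬ A'.s ⊆ A.s := fun h' => h (ClV.ext (Set.Subset.antisymm hs h'))
    obtain ⟨a, ha, ha'⟩ := Set.not_subset.1 hs'
    obtain ⟨K, hK, h1, h2⟩ := key A' A a ha ha'
    refine ⟨K, hK, ?_⟩
    have h3 : ∀ᶠ p : ClV V × ClV V in 𝓝 (A, A'), Disjoint K p.1.s :=
      ((continuous_fst (X := ClV V) (Y := ClV V)).continuousAt (x := (A, A'))).eventually h2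
    have h4 : ∀ᶠ p : ClV V × ClV V in 𝓝 (A, A'), (p.2.s ∩ interior K).Nonempty :=
      ((continuous_snd (X := ClV V) (Y := ClV V)).continuousAt (x := (A, A'))).eventually h1
    filter_upwards [h3, h4] with p hp1 hp2
    exact (key2 K p.2 p.1 hp2 hp1).symm
  · obtain ⟨a, ha, ha'⟩ := Set.not_subset.1 hs
    obtain ⟨K, hK, h1, h2⟩ := key A A' a ha ha'
    refine ⟨K, hK, ?_⟩
    have h3 : ∀ᶠ p : ClV V × ClV V in 𝓝 (A, A'), (p.1.s ∩ interior K).Nonempty :=
      ((continuous_fst (X := ClV V) (Y := ClV V)).continuousAt (x := (A, A'))).eventually h1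
    have h4 : ∀ᶠ p : ClV V × ClV V in 𝓝 (A, A'), Disjoint K p.2.s :=
      ((continuous_snd (X := ClV V) (Y := ClV V)).continuousAt (x := (A, A'))).eventually h2
    filter_upwards [h3, h4] with p hp1 hp2
    exact key2 K p.1 p.2 hp1 hp2

/-- Cutting at a local section, removed points. PROOF: `tendsto_iff`. Let `F' = F.map (iL L)`, so `(s z₀) (F) = F'` (`LSec.eq`). (a) `C` compact with `C ∩ (D z₀ ∖ F') = ∅`. For `j ∈ F'` let `N_j` be an open neighbourhood of `j` with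
`exists_nhds_unique`. `C' = C ∖ ⋃ N_j` is compact and disjoint from `D z₀`. So for `z` near `z₀`, `C' ∩ D z = ∅`, `s z j ∈ N_j ∩ D z` for all `j ∈ F`; if `a ∈ C ∩ D z` then `a ∈ N_j` for some `j`, so `a = s z j` is not in the complement of
`F.map (s z)`. (b) `U` open and `a ∈ D z₀ ∖ F'`, `a ∈ U`. Let `U' ⊆ U` be a neighbourhood of `a` and `N_j` neighbourhoods of the `j ∈ F'` disjoint from `U'` (`G` is Hausdorff). For `z` near `z₀` there is a point of `D z` in `U'`, and `s z j ∈ N_j`, so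
this point is not one of the `s z j`. -/
theorem tendsto_cut_compl (hV : V ∈ 𝓝 (1 : G)) [TopologicalSpace Zp] {D : Zp → ClV V} {z₀ : Zp}
    (hD : ContinuousAt D z₀) {L : Finset G} (hL : (L : Set G) ⊆ (D z₀).s) {s : Zp → (L ↪ G)}
    (hs : LSec (fun z => (D z).s) z₀ L s) (F : Finset L) :
    Tendsto (fun z => (D z).cut ((F.map (s z) : Finset G) : Set G)ᶜ) (𝓝 z₀)
      (𝓝 ((D z₀).cut ((F.map (iL L) : Finset G) : Set G)ᶜ)) := by
  refine tendsto_iff.2 ⟨fun C hC hd => ?_, fun U hU hne => ?_⟩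
  · choose N hN hu using fun x : G => exists_nhds_unique hV x
    have hop : IsOpen (⋃ j ∈ F, interior (N (j : G))) :=
      isOpen_biUnion fun j _ => isOpen_interior
    have hC' : IsCompact (C \ ⋃ j ∈ F, interior (N (j : G))) := hC.diff hop
    have hCd : Disjoint (C \ ⋃ j ∈ F, interior (N (j : G))) (D z₀).s := by
      rw [Set.disjoint_left]
      rintro x ⟨hxC, hxN⟩ hxD
      refine Set.disjoint_left.1 hd hxC ⟨hxD, fun hxF => hxN ?_⟩
      rw [Finset.mem_coe, Finset.mem_map] at hxF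
      obtain ⟨j, hj, rfl⟩ := hxF
      exact Set.mem_iUnion₂.2 ⟨j, hj, mem_interior_iff_mem_nhds.2 (hN _)⟩
    have h1 := (tendsto_iff.1 hD).1 _ hC' hCd
    have h2 : ∀ᶠ z in 𝓝 z₀, ∀ j ∈ F, s z j ∈ interior (N (j : G)) :=
      (Filter.eventually_all_finset F).2 fun j _ => (hs.tend j).eventually
        (isOpen_interior.mem_nhds (mem_interior_iff_mem_nhds.2 (hN _)))
    filter_upwards [h1, h2, hs.mem] with z hz1 hz2 hz3
    rw [Set.disjoint_left]
    rintro x hxC ⟨hxD, hxF⟩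
    by_cases hx : x ∈ ⋃ j ∈ F, interior (N (j : G))
    · obtain ⟨j, hj, hxj⟩ := Set.mem_iUnion₂.1 hx
      have h3 : x = s z j := hu _ _ (D z).sep x hxD _ (hz3 j) (interior_subset hxj)
        (interior_subset (hz2 j hj))
      refine hxF ?_
      rw [Finset.mem_coe, Finset.mem_map]
      exact ⟨j, hj, h3.symm⟩
    · exact Set.disjoint_left.1 hz1 ⟨hxC, hx⟩ hxD
  · obtain ⟨a, ⟨haD, haF⟩, haU⟩ := hne
    have h0 : ∀ j : L, j ∈ F → ∃ U' N' : Set G, IsOpen U' ∧ IsOpen N' ∧ a ∈ U' ∧ (j : G) ∈ N' ∧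
        Disjoint U' N' := by
      intro j hj
      refine t2_separation fun h => haF ?_
      rw [Finset.mem_coe, Finset.mem_map]
      exact ⟨j, hj, h.symm⟩
    choose! U' N' hU' hN' haU' hjN' hdis using h0
    have hop : IsOpen (⋂ j ∈ F, U' j) := isOpen_biInter_finset fun j hj => hU' j hj
    have h1 := (tendsto_iff.1 hD).2 (U ∩ ⋂ j ∈ F, U' j) (hU.inter hop)
      ⟨a, haD, haU, Set.mem_iInter₂.2 fun j hj => haU' j hj⟩
    have h2 : ∀ᶠ z in 𝓝 z₀, ∀ j ∈ F, s z j ∈ N' j :=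
      (Filter.eventually_all_finset F).2 fun j hj => (hs.tend j).eventually
        ((hN' j hj).mem_nhds (hjN' j hj))
    filter_upwards [h1, h2] with z hz1 hz2
    obtain ⟨x, hxD, hxU, hxU'⟩ := hz1
    refine ⟨x, ⟨hxD, fun hxF => ?_⟩, hxU⟩
    rw [Finset.mem_coe, Finset.mem_map] at hxF
    obtain ⟨j, hj, rfl⟩ := hxF
    exact Set.disjoint_left.1 (hdis j hj) (Set.mem_iInter₂.1 hxU' j hj) (hz2 j hj)

/-- Cutting at a local section, the points of the section. PROOF: `tendsto_iff`; for `z` near `z₀` the set `(D z).cut (F.map (s z))` is `{s z j | j ∈ F}`, finitely many points which converge to the points `j ∈ F`; `C` compact (closed) with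
`C ∩ F = ∅`: `s z j ∉ C` for `z` near `z₀`. -/
theorem tendsto_cut (hV : V ∈ 𝓝 (1 : G)) [TopologicalSpace Zp] {D : Zp → ClV V} {z₀ : Zp}
    (hD : ContinuousAt D z₀) {L : Finset G} (hL : (L : Set G) ⊆ (D z₀).s) {s : Zp → (L ↪ G)}
    (hs : LSec (fun z => (D z).s) z₀ L s) (F : Finset L) :
    Tendsto (fun z => (D z).cut ((F.map (s z) : Finset G) : Set G)) (𝓝 z₀)
      (𝓝 ((D z₀).cut ((F.map (iL L) : Finset G) : Set G))) := by
  refine tendsto_iff.2 ⟨fun C hC hd => ?_, fun U hU hne => ?_⟩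
  · have h2 : ∀ᶠ z in 𝓝 z₀, ∀ j ∈ F, s z j ∈ Cᶜ := by
      refine (Filter.eventually_all_finset F).2 fun j hj => (hs.tend j).eventually
        (hC.isClosed.isOpen_compl.mem_nhds fun hjC => ?_)
      refine Set.disjoint_left.1 hd hjC ⟨hL j.2, ?_⟩
      rw [Finset.mem_coe, Finset.mem_map]
      exact ⟨j, hj, rfl⟩
    filter_upwards [h2] with z hz
    rw [Set.disjoint_left]
    rintro x hxC ⟨-, hxF⟩
    rw [Finset.mem_coe, Finset.mem_map] at hxF
    obtain ⟨j, hj, rfl⟩ := hxF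
    exact hz j hj hxC
  · obtain ⟨a, ⟨haD, haF⟩, haU⟩ := hne
    rw [Finset.mem_coe, Finset.mem_map] at haF
    obtain ⟨j, hj, rfl⟩ := haF
    have h1 : ∀ᶠ z in 𝓝 z₀, s z j ∈ U := (hs.tend j).eventually (hU.mem_nhds haU)
    filter_upwards [h1, hs.mem] with z hz1 hz2
    refine ⟨s z j, ⟨hz2 j, ?_⟩, hz1⟩
    rw [Finset.mem_coe, Finset.mem_map]
    exact ⟨j, hj, rfl⟩

/-- For a fixed `D`, cutting is continuous in the set as a point of `{0,1}^G`. PROOF: `continuous_iff_continuousAt`, `tendsto_iff`; `C` compact: `D ∩ C` is finite (`finite_inter`), and the condition `C ∩ D.cut {x | T x = c} = ∅` depends only on the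
values `T x`, `x ∈ D ∩ C`, which are locally constant in `T`; `U` open, `a ∈ D ∩ U` with `T a = c`: the same for `T'` near `T`. -/
theorem continuous_cut (hV : V ∈ 𝓝 (1 : G)) (D : ClV V) (c : Bool) :
    Continuous fun T : G → Bool => D.cut {x | T x = c} := by
  have hev : ∀ (T₀ : G → Bool) (x : G), ∀ᶠ T in 𝓝 T₀, T x = T₀ x := fun T₀ x =>
    (continuous_apply x).continuousAt.eventually ((isOpen_discrete {T₀ x}).mem_nhds rfl)
  refine continuous_iff_continuousAt.2 fun T₀ => tendsto_iff.2 ⟨fun K hK hd => ?_, fun U hU hne => ?_⟩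
  · have hfin := finite_inter hV D.sep hK
    have h1 : ∀ᶠ T in 𝓝 T₀, ∀ x ∈ D.s ∩ K, T x = T₀ x :=
      (Filter.eventually_all_finite hfin).2 fun x _ => hev T₀ x
    filter_upwards [h1] with T hT
    rw [Set.disjoint_left]
    rintro x hxK ⟨hxD, hxT⟩
    refine Set.disjoint_left.1 hd hxK ⟨hxD, ?_⟩
    show T₀ x = c
    rw [← hT x ⟨hxD, hxK⟩]
    exact hxT
  · obtain ⟨a, ⟨haD, haT⟩, haU⟩ := hne
    filter_upwards [hev T₀ a] with T hT
    refine ⟨a, ⟨haD, ?_⟩, haU⟩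
    show T a = c
    rw [hT]
    exact haT

end Top

end ClV

end Pool.Agent.Lib.MP_aa9b81_an.Cb
end

end
end

section

/-!
# Continuous Bernoulli, part Zb: equivariant families of separated sets, the space of the pairs
-/

open scoped ENNReal Topology
open Function Filter Topology

noncomputable section

namespace Pool.Agent.Lib.MP_aa9b81_an.Cb

open Cut Hs

/-- A continuous equivariant family `D y`, `y ∈ Y`, of `V`-separated subsets of `G`. -/
structure Df (G Y : Type) [Group G] [TopologicalSpace G] [TopologicalSpace Y] [MulAction G Y]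
    (V : Set G) where
  /-- the family -/
  D : Y → ClV V
  cont : Continuous D
  smul : ∀ (g : G) (y : Y), D (g • y) = g • D y

variable {G Y : Type} [Group G] [TopologicalSpace G] [TopologicalSpace Y] [MulAction G Y]
  {V : Set G} (Δ : Df G Y V)

/-- The space of the pairs `(y, A)`, `A ⊆ D y`. -/
def Prs (Δ : Df G Y V) : Type := {p : Y × ClV V // p.2.s ⊆ (Δ.D p.1).s}

instance : TopologicalSpace (Prs Δ) :=
  inferInstanceAs (TopologicalSpace {p : Y × ClV V // p.2.s ⊆ (Δ.D p.1).s})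

instance : MulAction G (Prs Δ) where
  smul g p := ⟨(g • p.1.1, g • p.1.2), by
    intro x hx
    simp only [Δ.smul]
    exact p.2 hx⟩
  one_smul p := Subtype.ext (one_smul G p.1)
  mul_smul g h p := Subtype.ext (mul_smul g h p.1)

/-- The pair `(y, D y ∩ T)`. -/
def Df.pt (y : Y) (T : Set G) : Prs Δ := ⟨(y, (Δ.D y).cut T), (Δ.D y).cut_subset T⟩

/-- The pair `(y, D y)`. -/
def Df.full (y : Y) : Prs Δ := ⟨(y, Δ.D y), Set.Subset.refl _⟩

/-- The pair `(y, ∅)`. -/
def Df.non (y : Y) : Prs Δ := ⟨(y, ClV.emp), Set.empty_subset _⟩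

lemma Df.pt_congr {y : Y} {T T' : Set G} (h : (Δ.D y).s ∩ T = (Δ.D y).s ∩ T') :
    Δ.pt y T = Δ.pt y T' :=
  Subtype.ext (Prod.ext rfl (ClV.ext h))

lemma Df.pt_univ (y : Y) : Δ.pt y Set.univ = Δ.full y :=
  Subtype.ext (Prod.ext rfl (ClV.ext (Set.inter_univ _)))

lemma Df.pt_empty (y : Y) : Δ.pt y ∅ = Δ.non y :=
  Subtype.ext (Prod.ext rfl (ClV.ext (Set.inter_empty _)))

/-- PROOF: `Δ.smul`; `x ∈ g (D ∩ T)` iff `g⁻¹ x ∈ D` and `g⁻¹ x ∈ T`. -/
theorem Df.pt_smul (g : G) (y : Y) (T : Set G) :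
    Δ.pt (g • y) T = g • Δ.pt y {x | g * x ∈ T} := by
  refine Subtype.ext (Prod.ext rfl (ClV.ext ?_))
  ext x
  change x ∈ (Δ.D (g • y)).s ∩ T ↔ g⁻¹ * x ∈ (Δ.D y).s ∩ {x | g * x ∈ T}
  rw [Δ.smul]
  simp

theorem Df.full_smul (g : G) (y : Y) : Δ.full (g • y) = g • Δ.full y :=
  Subtype.ext (Prod.ext rfl (Δ.smul g y))

theorem Df.non_smul (g : G) (y : Y) : Δ.non (g • y) = g • Δ.non y := by
  refine Subtype.ext (Prod.ext rfl (ClV.ext ?_))
  ext x
  change x ∈ (∅ : Set G) ↔ g⁻¹ * x ∈ (∅ : Set G)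
  simp

section Top

variable [IsTopologicalGroup G] [T2Space G] [LocallyCompactSpace G]

/-- PROOF: a subtype of `Y × ClV V` (`ClV.t2Space`). -/
theorem Prs.t2Space [T2Space Y] (hV : V ∈ 𝓝 (1 : G)) : T2Space (Prs Δ) := by
  have := ClV.t2Space (G := G) (V := V) hV
  exact inferInstanceAs (T2Space {p : Y × ClV V // p.2.s ⊆ (Δ.D p.1).s})

/-- PROOF: `Prs` is a closed subset of `Y × ClV V` (`ClV.isClosed_le`, `Δ.cont`). -/
theorem Prs.isClosedEmbedding (hV : V ∈ 𝓝 (1 : G)) :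
    IsClosedEmbedding (fun p : Prs Δ => p.1) := by
  have h : IsClosed {p : Y × ClV V | p.2.s ⊆ (Δ.D p.1).s} :=
    (ClV.isClosed_le (G := G) (V := V) hV).preimage
      (continuous_snd.prodMk (Δ.cont.comp continuous_fst))
  exact h.isClosedEmbedding_subtypeVal

/-- PROOF: `Prs.isClosedEmbedding`; `ClV V` is compact Hausdorff (`ClV.compactSpace`, `ClV.t2Space`), so locally compact. -/
theorem Prs.locallyCompactSpace [LocallyCompactSpace Y] (hV : IsOpen V) (h1 : (1 : G) ∈ V) :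
    LocallyCompactSpace (Prs Δ) := by
  have := ClV.t2Space (G := G) (V := V) (hV.mem_nhds h1)
  have := ClV.compactSpace (G := G) (V := V) hV
  exact (Prs.isClosedEmbedding Δ (hV.mem_nhds h1)).locallyCompactSpace

/-- PROOF: `ClV.continuousSMul`. -/
theorem Prs.continuousSMul [ContinuousSMul G Y] (hV : V ∈ 𝓝 (1 : G)) :
    ContinuousSMul G (Prs Δ) := by
  have := ClV.continuousSMul (G := G) (V := V) hV
  refine ⟨?_⟩
  have h1 : Continuous fun q : G × Prs Δ => q.2.1 := continuous_subtype_val.comp continuous_snd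
  have h2 : Continuous fun q : G × Prs Δ => (q.1 • q.2.1.1, q.1 • q.2.1.2) :=
    (continuous_fst.smul (continuous_fst.comp h1)).prodMk
      (continuous_fst.smul (continuous_snd.comp h1))
  exact Continuous.subtype_mk h2 _

/-- PROOF: `Prs.isClosedEmbedding` and `isProperMap_fst_of_compactSpace`. -/
theorem Prs.isProperMap_fst (hV : IsOpen V) (h1 : (1 : G) ∈ V) :
    IsProperMap (fun p : Prs Δ => p.1.1) := by
  have := ClV.compactSpace (G := G) (V := V) hV
  have h := (isProperMap_fst_of_compactSpace (X := Y) (Y := ClV V)).comp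
    (Prs.isClosedEmbedding Δ (hV.mem_nhds h1)).isProperMap
  exact h

/-- PROOF: continuous; `fst ∘ full = id` and `fst` is continuous, `Prs` is Hausdorff: a closed embedding
(`IsClosedEmbedding.of_...`, or: the image is closed as the equalizer of `full ∘ fst` and `id`). -/
theorem Df.isClosedEmbedding_full [T2Space Y] (hV : V ∈ 𝓝 (1 : G)) :
    IsClosedEmbedding Δ.full := by
  have := Prs.t2Space Δ hV
  have h1 : Continuous fun p : Prs Δ => p.1.1 := continuous_fst.comp continuous_subtype_val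
  have h2 : Continuous Δ.full := Continuous.subtype_mk (continuous_id.prodMk Δ.cont) _
  exact Function.LeftInverse.isClosedEmbedding (f := fun p : Prs Δ => p.1.1) (fun _ => rfl) h1 h2

theorem Df.isClosedEmbedding_non [T2Space Y] (hV : V ∈ 𝓝 (1 : G)) :
    IsClosedEmbedding Δ.non := by
  have := Prs.t2Space Δ hV
  have h1 : Continuous fun p : Prs Δ => p.1.1 := continuous_fst.comp continuous_subtype_val
  have h2 : Continuous Δ.non := Continuous.subtype_mk (continuous_id.prodMk continuous_const) _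
  exact Function.LeftInverse.isClosedEmbedding (f := fun p : Prs Δ => p.1.1) (fun _ => rfl) h1 h2

variable {Zp : Type} [TopologicalSpace Zp]

/-- PROOF: `ClV.tendsto_cut_compl` for the family `z ↦ Δ.D (y z)`, and `Tendsto.prodMk_nhds`, `tendsto_subtype_rng`. -/
theorem Df.tendsto_pt_compl (hV : V ∈ 𝓝 (1 : G)) {y : Zp → Y} {z₀ : Zp} (hy : ContinuousAt y z₀)
    {L : Finset G} (hL : (L : Set G) ⊆ (Δ.D (y z₀)).s) {s : Zp → (L ↪ G)}
    (hs : LSec (fun z => (Δ.D (y z)).s) z₀ L s) (F : Finset L) :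
    Tendsto (fun z => Δ.pt (y z) ((F.map (s z) : Finset G) : Set G)ᶜ) (𝓝 z₀)
      (𝓝 (Δ.pt (y z₀) ((F.map (iL L) : Finset G) : Set G)ᶜ)) :=
  tendsto_subtype_rng.2 (hy.tendsto.prodMk_nhds (ClV.tendsto_cut_compl hV
    (D := fun z => Δ.D (y z)) (Δ.cont.continuousAt.comp hy) hL hs F))

/-- PROOF: as `tendsto_pt_compl`, with `ClV.tendsto_cut`. -/
theorem Df.tendsto_pt (hV : V ∈ 𝓝 (1 : G)) {y : Zp → Y} {z₀ : Zp} (hy : ContinuousAt y z₀)
    {L : Finset G} (hL : (L : Set G) ⊆ (Δ.D (y z₀)).s) {s : Zp → (L ↪ G)}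
    (hs : LSec (fun z => (Δ.D (y z)).s) z₀ L s) (F : Finset L) :
    Tendsto (fun z => Δ.pt (y z) ((F.map (s z) : Finset G) : Set G)) (𝓝 z₀)
      (𝓝 (Δ.pt (y z₀) ((F.map (iL L) : Finset G) : Set G))) :=
  tendsto_subtype_rng.2 (hy.tendsto.prodMk_nhds (ClV.tendsto_cut hV
    (D := fun z => Δ.D (y z)) (Δ.cont.continuousAt.comp hy) hL hs F))

/-- PROOF: `ClV.continuous_cut`. -/
theorem Df.continuous_pt (hV : V ∈ 𝓝 (1 : G)) (y : Y) (c : Bool) :
    Continuous fun T : G → Bool => Δ.pt y {x | T x = c} :=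
  Continuous.subtype_mk (continuous_const.prodMk (ClV.continuous_cut hV (Δ.D y) c)) _

/-- UNIFORM LOCALITY. PROOF: let `S = tsupport φ`, compact, `K ⊆ Y` the image of `S` under the projection to `Y`, and `S' ⊆ P` the image under the projection to `P`, both compact. Let `E` be the set of
all `(r, r', p) ∈ Prs × Prs × P` with `r.1.1 = r'.1.1 ∈ K`, `p ∈ S'` and `ε ≤ ‖φ (r, p) - φ (r', p)‖`. `E` is compact: it is closed, and contained in a product of the compact sets `fst⁻¹ K` (`Prs.isProperMap_fst`), `fst⁻¹ K`, `S'`. For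
a point of `E` the sets `A = r.1.2`, `A' = r'.1.2` are different (otherwise `r = r'`), so by `ClV.exists_nhds_ne` there are a compact set `K₁` and a neighbourhood of the point on which `A ∩ K₁ ≠ A' ∩ K₁`. Finitely many such neighbourhoods cover `E`
(`IsCompact.induction_on` or `IsCompact.elim_nhds_subcover`); let `C` be the union of the finitely many `K₁`. If `(r, r', p) ∈ E` then `A ∩ C ≠ A' ∩ C`. So if `(D y ∩ T) ∩ C = (D y ∩ T') ∩ C` then
`(pt y T, pt y T', p) ∉ E`; if `y ∈ K` and `p ∈ S'` the estimate holds, otherwise both values are `0`. -/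
theorem Df.exists_local [T2Space Y] {P : Type} [TopologicalSpace P] [T2Space P] (hV : IsOpen V)
    (h1 : (1 : G) ∈ V) {φ : Prs Δ × P → ℂ} (hφ : Continuous φ) (hc : HasCompactSupport φ) {ε : ℝ}
    (hε : 0 < ε) : ∃ C : Set G, IsCompact C ∧ ∀ (y : Y) (T T' : Set G) (p : P),
      (Δ.D y).s ∩ T ∩ C = (Δ.D y).s ∩ T' ∩ C → ‖φ (Δ.pt y T, p) - φ (Δ.pt y T', p)‖ ≤ ε := by
  have hV1 : V ∈ 𝓝 (1 : G) := hV.mem_nhds h1
  have := Prs.t2Space Δ hV1
  have c1 : Continuous fun q : Prs Δ => q.1.1 := continuous_fst.comp continuous_subtype_val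
  have c2 : Continuous fun q : Prs Δ => q.1.2 := continuous_snd.comp continuous_subtype_val
  have hS : IsCompact (tsupport φ) := hc
  have hK : IsCompact ((fun q : Prs Δ × P => q.1.1.1) '' tsupport φ) :=
    hS.image (c1.comp continuous_fst)
  have hS' : IsCompact (Prod.snd '' tsupport φ) := hS.image continuous_snd
  set K : Set Y := (fun q : Prs Δ × P => q.1.1.1) '' tsupport φ with hKdef
  set S' : Set P := Prod.snd '' tsupport φ with hSdef
  let E : Set (Prs Δ × Prs Δ × P) := {e | e.1.1.1 = e.2.1.1.1 ∧ e.1.1.1 ∈ K ∧ e.2.1.1.1 ∈ K ∧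
    e.2.2 ∈ S' ∧ ε ≤ ‖φ (e.1, e.2.2) - φ (e.2.1, e.2.2)‖}
  have d1 : Continuous fun e : Prs Δ × Prs Δ × P => e.1.1.1 := c1.comp continuous_fst
  have d2 : Continuous fun e : Prs Δ × Prs Δ × P => e.2.1.1.1 :=
    c1.comp (continuous_fst.comp continuous_snd)
  have d3 : Continuous fun e : Prs Δ × Prs Δ × P => e.2.2 := continuous_snd.comp continuous_snd
  have d4 : Continuous fun e : Prs Δ × Prs Δ × P => ‖φ (e.1, e.2.2) - φ (e.2.1, e.2.2)‖ :=
    ((hφ.comp (continuous_fst.prodMk d3)).sub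
      (hφ.comp ((continuous_fst.comp continuous_snd).prodMk d3))).norm
  have hEc : IsClosed E := by
    refine (isClosed_eq d1 d2).inter ((hK.isClosed.preimage d1).inter
      ((hK.isClosed.preimage d2).inter ((hS'.isClosed.preimage d3).inter ?_)))
    exact isClosed_le continuous_const d4
  have hpr := Prs.isProperMap_fst Δ hV h1
  have hE : IsCompact E := by
    refine ((hpr.isCompact_preimage hK).prod
      ((hpr.isCompact_preimage hK).prod hS')).of_isClosed_subset hEc ?_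
    rintro ⟨r, r', p⟩ ⟨-, hr, hr', hp, -⟩
    exact ⟨hr, hr', hp⟩
  obtain ⟨C, hC, hCE⟩ : ∃ C : Set G, IsCompact C ∧
      ∀ e ∈ E, e.1.1.2.s ∩ C ≠ e.2.1.1.2.s ∩ C := by
    refine hE.induction_on (p := fun s => ∃ C : Set G, IsCompact C ∧
      ∀ e ∈ s, e.1.1.2.s ∩ C ≠ e.2.1.1.2.s ∩ C) ⟨∅, isCompact_empty, fun e he => he.elim⟩ ?_ ?_ ?_
    · rintro s t hst ⟨C, hC, h⟩
      exact ⟨C, hC, fun e he => h e (hst he)⟩
    · rintro s t ⟨C, hC, h⟩ ⟨C', hC', h'⟩
      refine ⟨C ∪ C', hC.union hC', ?_⟩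
      rintro e (he | he) heq
      · refine h e he ?_
        have h3 := congrArg (fun A => A ∩ C) heq
        simpa [Set.inter_assoc, Set.inter_eq_self_of_subset_right Set.subset_union_left] using h3
      · refine h' e he ?_
        have h3 := congrArg (fun A => A ∩ C') heq
        simpa [Set.inter_assoc, Set.inter_eq_self_of_subset_right Set.subset_union_right] using h3
    · rintro e ⟨he, -, -, -, hn⟩
      have hne : e.1.1.2 ≠ e.2.1.1.2 := by
        intro h
        have h2 : e.1 = e.2.1 := Subtype.ext (Prod.ext he h)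
        rw [h2, sub_self, norm_zero] at hn
        exact absurd hε (not_lt.2 hn)
      obtain ⟨K₁, hK₁, hev⟩ := ClV.exists_nhds_ne hV1 hne
      have hct : Continuous fun e : Prs Δ × Prs Δ × P => (e.1.1.2, e.2.1.1.2) :=
        (c2.comp continuous_fst).prodMk (c2.comp (continuous_fst.comp continuous_snd))
      have h3 : ∀ᶠ e' in 𝓝 e, e'.1.1.2.s ∩ K₁ ≠ e'.2.1.1.2.s ∩ K₁ :=
        (hct.tendsto e).eventually hev
      exact ⟨_, mem_nhdsWithin_of_mem_nhds h3, K₁, hK₁, fun e' he' => he'⟩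
  refine ⟨C, hC, fun y T T' p heq => ?_⟩
  by_contra hlt
  rw [not_le] at hlt
  by_cases hyp : y ∈ K ∧ p ∈ S'
  · exact hCE (Δ.pt y T, Δ.pt y T', p) ⟨rfl, hyp.1, hyp.1, hyp.2, hlt.le⟩ heq
  · have hz : ∀ U : Set G, φ (Δ.pt y U, p) = 0 := by
      intro U
      refine image_eq_zero_of_notMem_tsupport fun hmem => hyp ⟨⟨_, hmem, rfl⟩, ⟨_, hmem, rfl⟩⟩
    rw [hz, hz, sub_self, norm_zero] at hlt
    exact absurd hlt (not_lt.2 hε.le)

/-- Vanishing outside a compact subset of the base. PROOF: `K` is the image of `tsupport φ` under `(r, p) ↦ (r.1.1, p)`. -/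
theorem Df.exists_compact {P : Type} [TopologicalSpace P]
    {φ : Prs Δ × P → ℂ} (hc : HasCompactSupport φ) : ∃ K : Set (Y × P), IsCompact K ∧
      ∀ (y : Y) (T : Set G) (p : P), (y, p) ∉ K → φ (Δ.pt y T, p) = 0 := by
  have c1 : Continuous fun q : Prs Δ × P => (q.1.1.1, q.2) :=
    (continuous_fst.comp (continuous_subtype_val.comp continuous_fst)).prodMk continuous_snd
  have hS : IsCompact (tsupport φ) := hc
  refine ⟨(fun q : Prs Δ × P => (q.1.1.1, q.2)) '' tsupport φ, hS.image c1, fun y T p h => ?_⟩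
  exact image_eq_zero_of_notMem_tsupport fun hmem => h ⟨_, hmem, rfl⟩

end Top

end Pool.Agent.Lib.MP_aa9b81_an.Cb
end
end

section

/-!
# Continuous Bernoulli, part Ldc: dominated convergence
-/

open scoped ENNReal Topology Pointwise
open Function Filter MeasureTheory

noncomputable section

set_option linter.unusedSectionVars false

namespace Pool.Agent.Lib.MP_aa9b81_an.Cb

open Cut Hs

variable {G J J' J'' : Type} [Group G] [TopologicalSpace G] [IsTopologicalGroup G]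
  [LocallyCompactSpace G] [SecondCountableTopology G] [T2Space G] [MeasurableSpace G] [BorelSpace G]

/-- The set `{b | a⁻¹ b ∈ C}` is compact. -/
private theorem Ldc_cpt {C : Set G} (hC : IsCompact C) (a : G) : IsCompact {b : G | a⁻¹ * b ∈ C} :=
  (Homeomorph.mulLeft a⁻¹).isCompact_preimage.2 hC

/-- The bound of the integrand. -/
private theorem Ldc_bd {C : Set G} {M : ℝ} {k : G → G → (L2 J →L[ℂ] L2 J')} (h : KOK C M k)
    (ξ : HG G J) (a b : G) :
    ‖k a b (ξ b)‖ ≤ {b : G | a⁻¹ * b ∈ C}.indicator (fun b => M * ‖ξ b‖) b := by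
  by_cases hb : b ∈ {b : G | a⁻¹ * b ∈ C}
  · rw [Set.indicator_of_mem hb]
    exact (k a b).le_of_opNorm_le (h.bdd a b) _
  · rw [Set.indicator_of_notMem hb, h.supp a b hb]
    simp

/-- The bound of the values. -/
private theorem Ldc_enorm {C : Set G} {M : ℝ} {k : G → G → (L2 J →L[ℂ] L2 J')} (h : KOK C M k)
    (ξ : HG G J) (a : G) :
    ‖∫ b, k a b (ξ b) ∂mu G‖ₑ ≤ ∫⁻ b in {b | a⁻¹ * b ∈ C}, ENNReal.ofReal M * ‖ξ b‖ₑ ∂mu G := by
  refine (enorm_integral_le_lintegral_enorm _).trans ?_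
  have hms : MeasurableSet {b : G | a⁻¹ * b ∈ C} := (Ldc_cpt h.cpt a).isClosed.measurableSet
  rw [← lintegral_indicator hms]
  refine lintegral_mono fun b => ?_
  by_cases hb : b ∈ {b : G | a⁻¹ * b ∈ C}
  · rw [Set.indicator_of_mem hb]
    have h1 := (k a b).le_of_opNorm_le (h.bdd a b) (ξ b)
    rw [← ofReal_norm, ← ofReal_norm, ← ENNReal.ofReal_mul h.nonneg]
    exact ENNReal.ofReal_le_ofReal h1
  · rw [Set.indicator_of_notMem hb, h.supp a b hb]
    simp

/-- Dominated convergence. PROOF: for almost every `a`: `(opk (k n) ξ) a = ∫ b, k n a b (ξ b)` tends to `∫ b, k₀ a b (ξ b)`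
(`tendsto_integral_of_dominated_convergence` with the bound `b ↦ [a⁻¹ b ∈ C] M ‖ξ b‖`), and `‖(opk (k n) ξ) a‖ ≤ g a := ∫ b, [a⁻¹ b ∈ C] M ‖ξ b‖`, a function in `L²` (`schur`). So
`∫⁻ ‖(opk (k n) ξ - opk k₀ ξ) a‖ₑ ^ 2` tends to `0` (`tendsto_lintegral_of_dominated_convergence` with the bound `(2 g a) ^ 2`);
`Lp.tendsto_Lp_iff_tendsto_eLpNorm'`, `eLpNorm_eq_lintegral_rpow_enorm`. -/
theorem tendsto_opk {C : Set G} {M : ℝ} {k : ℕ → G → G → (L2 J →L[ℂ] L2 J')}
    {k₀ : G → G → (L2 J →L[ℂ] L2 J')} (h : ∀ n, KOK C M (k n)) (h₀ : KOK C M k₀)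
    (hl : ∀ a b v, Tendsto (fun n => k n a b v) atTop (𝓝 (k₀ a b v))) (ξ : HG G J) :
    Tendsto (fun n => opk (k n) ξ) atTop (𝓝 (opk k₀ ξ)) := by
  have hCc : IsCompact C := h₀.cpt
  -- pointwise convergence
  have hpt : ∀ a : G, Tendsto (fun n => ∫ b, k n a b (ξ b) ∂mu G) atTop
      (𝓝 (∫ b, k₀ a b (ξ b) ∂mu G)) := by
    intro a
    refine tendsto_integral_of_dominated_convergence
      ({b : G | a⁻¹ * b ∈ C}.indicator (fun b => M * ‖ξ b‖)) ?_ ?_ ?_ ?_
    · exact fun n => ((h n).integrable ξ a).aestronglyMeasurable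
    · rw [integrable_indicator_iff (Ldc_cpt hCc a).isClosed.measurableSet]
      exact ((integrableOn_HG ξ (Ldc_cpt hCc a)).norm).const_mul M
    · exact fun n => Eventually.of_forall fun b => Ldc_bd (h n) ξ a b
    · exact Eventually.of_forall fun b => hl a b (ξ b)
  -- the bound
  set g : G → ℝ≥0∞ := fun a => ∫⁻ b in {b | a⁻¹ * b ∈ C}, ENNReal.ofReal M * ‖ξ b‖ₑ ∂mu G with hg
  have hgfin : ∫⁻ a, (2 * g a) ^ 2 ∂mu G ≠ ∞ := by
    have hae : AEMeasurable (fun b => ENNReal.ofReal M * ‖ξ b‖ₑ) (mu G) :=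
      (Lp.aestronglyMeasurable ξ).enorm.const_mul _
    have h1 := schur hCc hae
    have h2 : ∫⁻ b, (ENNReal.ofReal M * ‖ξ b‖ₑ) ^ 2 ∂mu G < ∞ := by
      have h3 : (fun b => (ENNReal.ofReal M * ‖ξ b‖ₑ) ^ 2) =
          fun b => ENNReal.ofReal M ^ 2 * ‖ξ b‖ₑ ^ 2 := by
        funext b
        rw [mul_pow]
      rw [h3, lintegral_const_mul' _ _ (by finiteness)]
      refine ENNReal.mul_lt_top (by finiteness) ?_
      have h4 := (Lp.memLp ξ).2
      rw [eLpNorm_lt_top_iff_lintegral_rpow_enorm_lt_top (by norm_num) (by norm_num)] at h4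
      simpa using h4
    have h5 : ∫⁻ a, (2 * g a) ^ 2 ∂mu G = 4 * ∫⁻ a, g a ^ 2 ∂mu G := by
      have h3 : (fun a => (2 * g a) ^ 2) = fun a => 4 * g a ^ 2 := by
        funext b
        rw [mul_pow]
        norm_num
      rw [h3, lintegral_const_mul' _ _ (by finiteness)]
    rw [h5]
    refine ENNReal.mul_ne_top (by finiteness) (ne_top_of_le_ne_top ?_ h1)
    refine ENNReal.mul_ne_top (ENNReal.mul_ne_top ?_ ?_) h2.ne
    · exact hCc.measure_lt_top.ne
    · exact hCc.inv.measure_lt_top.ne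
  rw [Lp.tendsto_Lp_iff_tendsto_eLpNorm']
  have hkey : Tendsto (fun n => ∫⁻ a, ‖(opk (k n) ξ : G → L2 J') a - (opk k₀ ξ : G → L2 J') a‖ₑ ^ 2
      ∂mu G) atTop (𝓝 (∫⁻ _a : G, 0 ∂mu G)) := by
    refine tendsto_lintegral_of_dominated_convergence' (fun a => (2 * g a) ^ 2) ?_ ?_ hgfin ?_
    · intro n
      exact (((Lp.aestronglyMeasurable (opk (k n) ξ)).sub
        (Lp.aestronglyMeasurable (opk k₀ ξ))).enorm).pow_const 2
    · intro n
      filter_upwards [opk_ae (h n) ξ, opk_ae h₀ ξ] with a h1 h2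
      rw [h1, h2]
      refine pow_le_pow_left' ?_ 2
      refine (enorm_sub_le).trans ?_
      rw [two_mul]
      exact add_le_add (Ldc_enorm (h n) ξ a) (Ldc_enorm h₀ ξ a)
    · have h1 : ∀ᵐ a ∂mu G, ∀ n, (opk (k n) ξ : G → L2 J') a = ∫ b, k n a b (ξ b) ∂mu G :=
        ae_all_iff.2 fun n => opk_ae (h n) ξ
      filter_upwards [h1, opk_ae h₀ ξ] with a h1 h2
      have h3 : Tendsto (fun n => (opk (k n) ξ : G → L2 J') a - (opk k₀ ξ : G → L2 J') a) atTop
          (𝓝 0) := by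
        rw [h2, show (fun n => (opk (k n) ξ : G → L2 J') a - ∫ b, k₀ a b (ξ b) ∂mu G) =
          fun n => (∫ b, k n a b (ξ b) ∂mu G) - ∫ b, k₀ a b (ξ b) ∂mu G from by
            funext n
            rw [h1 n]]
        exact tendsto_sub_nhds_zero_iff.2 (hpt a)
      have h4 := (ENNReal.Tendsto.pow (n := 2) h3.enorm)
      simpa using h4
  rw [lintegral_zero] at hkey
  have h6 : (fun n => eLpNorm ((opk (k n) ξ : G → L2 J') - (opk k₀ ξ : G → L2 J')) 2 (mu G)) =
      fun n => (∫⁻ a, ‖(opk (k n) ξ : G → L2 J') a - (opk k₀ ξ : G → L2 J') a‖ₑ ^ 2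
        ∂mu G) ^ (1 / 2 : ℝ) := by
    funext n
    rw [eLpNorm_eq_lintegral_rpow_enorm_toReal (by norm_num) (by norm_num)]
    simp
  rw [h6]
  have h7 := (ENNReal.continuous_rpow_const (y := (1 / 2 : ℝ))).tendsto (0 : ℝ≥0∞)
  rw [ENNReal.zero_rpow_of_pos (by norm_num)] at h7
  exact h7.comp hkey

end Pool.Agent.Lib.MP_aa9b81_an.Cb
end
end
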