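import Mathlib
import Pool.Agent.Lib.MP_aa9b81_an.Cb.LcK

section

/-!
# Continuous Bernoulli, part Ra: the algebra of the path
-/

noncomputable section

namespace Pool.Agent.Lib.MP_aa9b81_an.Cb

/-- The relations of the elements of the path. -/
structure DD {R : Type} [Ring R] (a b T ε P : R) : Prop where
  ab : (1 + a) * (1 + b) = 1
  ba : (1 + b) * (1 + a) = 1
  ea : ε * a = a * ε
  eb : ε * b = b * ε
  ee : ε * ε = ε
  eT : ε * T = T * (1 - ε)
  TT : T * T = 1 - P
  Pe : P * (1 - ε) = 0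

variable {R : Type} [Ring R] {a b T ε P : R}

/-- The value of the path. -/
def dval (a b T ε : R) : R := 1 + ε * (1 + a) * (T * b * T - b)

/-- The inverse of the value of the path. -/
def dinv (a b T ε : R) : R := (1 + T * (1 - ε) * a * T) * (1 + ε * b)

theorem DD.dval_eq (h : DD a b T ε P) :
    dval a b T ε = (1 + ε * a) * (1 + T * (1 - ε) * b * T) := by
  have h1 : a = -b - a * b := by
    have := h.ab
    have h2 : a + b + a * b = 0 := by
      have h3 : (1 + a) * (1 + b) = 1 + (a + b + a * b) := by noncomm_ring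
      rw [h3] at this
      simpa using this
    calc a = (a + b + a * b) - b - a * b := by abel
      _ = -b - a * b := by rw [h2]; abel
  have h2 : ε * a * ε = ε * a := by
    rw [mul_assoc, ← h.ea, ← mul_assoc, h.ee]
  have h3 : T * (1 - ε) * b * T = ε * (T * b * T) := by
    rw [← h.eT]
    noncomm_ring
  rw [h3, dval]
  have h4 : (1 + ε * a) * (1 + ε * (T * b * T)) =
      1 + ε * a + ε * (T * b * T) + ε * a * ε * (T * b * T) := by noncomm_ring
  rw [h4, h2]
  have h5 : ε * a = ε * (-b - a * b) := by rw [← h1]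
  have h6 : 1 + ε * (1 + a) * (T * b * T - b) =
      1 + ε * (-b - a * b) + ε * (T * b * T) + ε * a * (T * b * T) := by noncomm_ring
  rw [h6, ← h5]

theorem DD.aux1 (h : DD a b T ε P) : (1 + ε * a) * (1 + ε * b) = 1 := by
  have h1 : ε * a * ε = ε * a := by
    rw [mul_assoc, ← h.ea, ← mul_assoc, h.ee]
  have h3 : a + b + a * b = 0 := by
    have h4 : (1 + a) * (1 + b) = 1 + (a + b + a * b) := by noncomm_ring
    have := h.ab
    rw [h4] at this
    simpa using this
  have h2 : (1 + ε * a) * (1 + ε * b) = 1 + ε * a + ε * b + ε * a * ε * b := by noncomm_ring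
  rw [h2, h1]
  have h5 : 1 + ε * a + ε * b + ε * a * b = 1 + ε * (a + b + a * b) := by noncomm_ring
  rw [h5, h3]
  simp

theorem DD.symm (h : DD a b T ε P) : DD b a T ε P :=
  ⟨h.ba, h.ab, h.eb, h.ea, h.ee, h.eT, h.TT, h.Pe⟩

theorem DD.aux2 (h : DD a b T ε P) :
    (1 + T * (1 - ε) * a * T) * (1 + T * (1 - ε) * b * T) = 1 := by
  have h0 : T * T * (1 - ε) = 1 - ε := by
    rw [h.TT, sub_mul, one_mul, h.Pe, sub_zero]
  have h1 : (1 - ε) * (1 - ε) = 1 - ε := by
    have : (1 - ε) * (1 - ε) = 1 - ε - ε + ε * ε := by noncomm_ring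
    rw [this, h.ee]
    abel
  have h2 : (1 - ε) * a * (1 - ε) = (1 - ε) * a := by
    have h4 : a * (1 - ε) = (1 - ε) * a := by
      rw [mul_sub, sub_mul, h.ea, mul_one, one_mul]
    rw [mul_assoc, h4, ← mul_assoc, h1]
  have h3 : a + b + a * b = 0 := by
    have h4 : (1 + a) * (1 + b) = 1 + (a + b + a * b) := by noncomm_ring
    have := h.ab
    rw [h4] at this
    simpa using this
  have h5 : (1 + T * (1 - ε) * a * T) * (1 + T * (1 - ε) * b * T) =
      1 + T * (1 - ε) * a * T + T * (1 - ε) * b * T +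
        T * ((1 - ε) * a * (T * T * (1 - ε))) * b * T := by noncomm_ring
  rw [h5, h0, h2]
  have h6 : 1 + T * (1 - ε) * a * T + T * (1 - ε) * b * T + T * ((1 - ε) * a) * b * T =
      1 + T * (1 - ε) * (a + b + a * b) * T := by noncomm_ring
  rw [h6, h3]
  simp

theorem DD.mul_inv (h : DD a b T ε P) : dval a b T ε * dinv a b T ε = 1 := by
  rw [h.dval_eq, dinv]
  calc (1 + ε * a) * (1 + T * (1 - ε) * b * T) * ((1 + T * (1 - ε) * a * T) * (1 + ε * b)) =
      (1 + ε * a) * ((1 + T * (1 - ε) * b * T) * (1 + T * (1 - ε) * a * T)) * (1 + ε * b) := by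
        noncomm_ring
    _ = 1 := by rw [h.symm.aux2, mul_one, h.aux1]

theorem DD.inv_mul (h : DD a b T ε P) : dinv a b T ε * dval a b T ε = 1 := by
  rw [h.dval_eq, dinv]
  calc (1 + T * (1 - ε) * a * T) * (1 + ε * b) * ((1 + ε * a) * (1 + T * (1 - ε) * b * T)) =
      (1 + T * (1 - ε) * a * T) * ((1 + ε * b) * (1 + ε * a)) * (1 + T * (1 - ε) * b * T) := by
        noncomm_ring
    _ = 1 := by rw [h.symm.aux1, mul_one, h.aux2]

/-- The inverse minus `1`. -/
theorem DD.dinv_sub_one (h : DD a b T ε P) :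
    dinv a b T ε - 1 = -(dinv a b T ε * (dval a b T ε - 1)) := by
  rw [mul_sub, h.inv_mul, mul_one, neg_sub]

/-- If `T` commutes with `b`. -/
theorem DD.dval_of_comm (h : DD a b T ε P) (hT : T * b = b * T) (hP : ε * P = P) :
    dval a b T ε = 1 + a * P := by
  have h3 : a + b + a * b = 0 := by
    have h4 : (1 + a) * (1 + b) = 1 + (a + b + a * b) := by noncomm_ring
    have := h.ab
    rw [h4] at this
    simpa using this
  have h1 : T * b * T - b = -(b * P) := by
    rw [hT, mul_assoc, h.TT]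
    noncomm_ring
  have h6 : (1 + a) * b = -a := by
    have : (1 + a) * b = (a + b + a * b) - a := by noncomm_ring
    rw [this, h3]
    abel
  rw [dval, h1]
  have h7 : 1 + ε * (1 + a) * -(b * P) = 1 + -(ε * ((1 + a) * b) * P) := by noncomm_ring
  rw [h7, h6]
  have h8 : 1 + -(ε * -a * P) = 1 + ε * a * P := by noncomm_ring
  rw [h8, h.ea, mul_assoc, hP]

/-- If `T b = 0` and `ε a = a`. -/
theorem DD.dval_of_zero (h : DD a b T ε P) (hT : T * b = 0) (hP : ε * a = a) :
    dval a b T ε = 1 + a := by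
  have h3 : a + b + a * b = 0 := by
    have h4 : (1 + a) * (1 + b) = 1 + (a + b + a * b) := by noncomm_ring
    have := h.ab
    rw [h4] at this
    simpa using this
  have h6 : (1 + a) * b = -a := by
    have : (1 + a) * b = (a + b + a * b) - a := by noncomm_ring
    rw [this, h3]
    abel
  rw [dval, hT, zero_mul, zero_sub]
  have h7 : 1 + ε * (1 + a) * -b = 1 + -(ε * ((1 + a) * b)) := by noncomm_ring
  rw [h7, h6]
  have h8 : 1 + -(ε * -a) = 1 + ε * a := by noncomm_ring
  rw [h8, hP]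

/-- What commutes with `a`, `b`, `T`, `ε` commutes with the value and the inverse. -/
theorem commute_dval {X : R} (ha : Commute X a) (hb : Commute X b) (hT : Commute X T)
    (he : Commute X ε) : Commute X (dval a b T ε) :=
  (Commute.one_right X).add_right ((he.mul_right ((Commute.one_right X).add_right ha)).mul_right
    (((hT.mul_right hb).mul_right hT).sub_right hb))

theorem commute_dinv {X : R} (ha : Commute X a) (hb : Commute X b) (hT : Commute X T)
    (he : Commute X ε) : Commute X (dinv a b T ε) :=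
  ((Commute.one_right X).add_right (((hT.mul_right ((Commute.one_right X).sub_right he)).mul_right
    ha).mul_right hT)).mul_right ((Commute.one_right X).add_right (he.mul_right hb))

end Pool.Agent.Lib.MP_aa9b81_an.Cb
end
end

section

/-!
# Reduced crossed products by locally compact groups and `K₁`, in elementary terms

`G` is a locally compact group with a left Haar measure, `Y` a topological space with an action of
`G`. The stabilised reduced crossed product `(C₀(Y) ⋊_r G) ⊗ 𝒦` is described by its faithful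
representation on the family of Hilbert spaces `L²(G, ℓ²(ℕ))`, one for each point of `Y`.
-/

open scoped ENNReal CompactlySupported
open MeasureTheory

noncomputable section

namespace Pool.Agent.Lib.MP_aa9b81_an.LC0

/-- The Hilbert space `L²(G, ℓ²(ℕ))`, with respect to a left Haar measure. -/
abbrev Hil (G : Type) [Group G] [TopologicalSpace G] [IsTopologicalGroup G]
    [LocallyCompactSpace G] [MeasurableSpace G] [BorelSpace G] : Type :=
  Lp (lp (fun _ : ℕ => ℂ) 2) 2 (Measure.haar : Measure G)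

/-- The bounded operators on `L²(G, ℓ²(ℕ))`. -/
abbrev Op (G : Type) [Group G] [TopologicalSpace G] [IsTopologicalGroup G]
    [LocallyCompactSpace G] [MeasurableSpace G] [BorelSpace G] : Type := Hil G →L[ℂ] Hil G

section

variable (G : Type) {Y Z : Type} [Group G] [TopologicalSpace G] [IsTopologicalGroup G]
  [LocallyCompactSpace G] [MeasurableSpace G] [BorelSpace G] [TopologicalSpace Y] [MulAction G Y]
  [TopologicalSpace Z] [MulAction G Z]

/-- The family `a = (a_y)` of operators on `L²(G, ℓ²(ℕ))` is a finite sum of the families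
`φ ⊗ e_{ij}` (`φ ∈ C_c(Y × G)`):
`(a_y ξ)(s)_k = ∑_m [k = i_m] ∫ φ_m(s⁻¹ y, s⁻¹ t) ξ(t)_{j_m} dt` for almost every `s`. -/
def FinSum (a : Y → Op G) : Prop :=
  ∃ (n : ℕ) (φ : Fin n → C_c(Y × G, ℂ)) (i j : Fin n → ℕ),
    ∀ (y : Y) (ξ : Hil G), ∀ᵐ s ∂(Measure.haar : Measure G), ∀ k : ℕ,
      ((a y ξ : G → lp (fun _ : ℕ => ℂ) 2) s : ℕ → ℂ) k =
        ∑ m, if k = i m then ∫ t, φ m (s⁻¹ • y, s⁻¹ * t) *
          ((ξ : G → lp (fun _ : ℕ => ℂ) 2) t : ℕ → ℂ) (j m) ∂(Measure.haar : Measure G) else 0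

omit [TopologicalSpace Y] [MulAction G Y] in
/-- `‖a_y - b_y‖ ≤ ε` for all `y`. -/
def Near (a b : Y → Op G) (ε : ℝ) : Prop := ∀ y : Y, ‖a y - b y‖ ≤ ε

/-- The stabilised reduced crossed product `A = (C₀(Y) ⋊_r G) ⊗ 𝒦`: the uniform limits of finite
sums as in `FinSum`. -/
def InA (a : Y → Op G) : Prop := ∀ ε : ℝ, 0 < ε → ∃ b : Y → Op G, FinSum G b ∧ Near G a b ε

/-- `u` is an invertible element of `1 + A`, with inverse in `1 + A`. -/
def Unit1 (u : Y → Op G) : Prop :=
  ∃ v : Y → Op G, (∀ y, u y * v y = 1 ∧ v y * u y = 1) ∧ InA G (fun y => u y - 1) ∧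
    InA G (fun y => v y - 1)

/-- `u` and `u'` are joined by a norm continuous path in the group of units of `Unit1`. -/
def Homot (u u' : Y → Op G) : Prop :=
  ∃ w : ℝ → Y → Op G, w 0 = u ∧ w 1 = u' ∧ (∀ t, Unit1 G (w t)) ∧
    ∀ t ε : ℝ, 0 < ε → ∃ δ : ℝ, 0 < δ ∧ ∀ t' : ℝ, |t' - t| < δ → Near G (w t') (w t) ε

variable (Y) in
/-- `K₁(C₀(Y) ⋊_r G) = 0`: every unit is homotopic to `1`. -/
def K1Zero : Prop := ∀ u : Y → Op G, Unit1 G u → Homot G u (fun _ => 1)

/-- The map `p : Z → Y` induces a bijection `K₁(C₀(Y) ⋊_r G) → K₁(C₀(Z) ⋊_r G)` of the groups of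
homotopy classes of units. -/
def K1Bij (p : Z → Y) : Prop :=
  (∀ u : Y → Op G, Unit1 G u → Unit1 G (fun z => u (p z))) ∧
    (∀ u u' : Y → Op G, Unit1 G u → Unit1 G u' →
      Homot G (fun z => u (p z)) (fun z => u' (p z)) → Homot G u u') ∧
    ∀ v : Z → Op G, Unit1 G v → ∃ u : Y → Op G, Unit1 G u ∧ Homot G (fun z => u (p z)) v

end

end Pool.Agent.Lib.MP_aa9b81_an.LC0
end
end

section

/-!
# Continuous Bernoulli, part Lke: the two elementary descriptions agree
-/

open scoped ENNReal CompactlySupported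
open MeasureTheory

noncomputable section

namespace Pool.Agent.Lib.MP_aa9b81_an.Cb

variable {G Y Z : Type} [Group G] [TopologicalSpace G] [IsTopologicalGroup G]
  [LocallyCompactSpace G] [MeasurableSpace G] [BorelSpace G] [TopologicalSpace Y] [MulAction G Y]
  [TopologicalSpace Z] [MulAction G Z]

omit [TopologicalSpace Y] [MulAction G Y] in
theorem lc_near {a b : Y → LC0.Op G} {ε : ℝ} :
    LC.Near G (a : Y → LC.Op G) b ε ↔ LC0.Near G a b ε := Iff.rfl

theorem lc_finSum {a : Y → LC0.Op G} : LC.FinSum G (a : Y → LC.Op G) ↔ LC0.FinSum G a := Iff.rfl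

theorem lc_inA {a : Y → LC0.Op G} : LC.InA G (a : Y → LC.Op G) ↔ LC0.InA G a :=
  ⟨fun h ε hε => by
    obtain ⟨b, hb, hab⟩ := h ε hε
    exact ⟨b, lc_finSum.1 hb, lc_near.1 hab⟩,
  fun h ε hε => by
    obtain ⟨b, hb, hab⟩ := h ε hε
    exact ⟨b, lc_finSum.2 hb, lc_near.2 hab⟩⟩

theorem lc_unit1 {a : Y → LC0.Op G} : LC.Unit1 G (a : Y → LC.Op G) ↔ LC0.Unit1 G a :=
  ⟨fun h => by
    obtain ⟨b, hb, h1, h2⟩ := h
    exact ⟨b, hb, lc_inA.1 h1, lc_inA.1 h2⟩,
  fun h => by
    obtain ⟨b, hb, h1, h2⟩ := h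
    exact ⟨b, hb, lc_inA.2 h1, lc_inA.2 h2⟩⟩

theorem lc_homot {a b : Y → LC0.Op G} :
    LC.Homot G (a : Y → LC.Op G) b ↔ LC0.Homot G a b :=
  ⟨fun h => by
    obtain ⟨w, h0, h1, h2, h3⟩ := h
    exact ⟨w, h0, h1, fun t => lc_unit1.1 (h2 t), h3⟩,
  fun h => by
    obtain ⟨w, h0, h1, h2, h3⟩ := h
    exact ⟨w, h0, h1, fun t => lc_unit1.2 (h2 t), h3⟩⟩

theorem lc_k1Zero_iff : LC.K1Zero G Y ↔ LC0.K1Zero G Y :=
  ⟨fun h u hu => lc_homot.1 (h u (lc_unit1.2 hu)), fun h u hu => lc_homot.2 (h u (lc_unit1.1 hu))⟩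

theorem lc_k1Bij_iff {p : Z → Y} : LC.K1Bij G p ↔ LC0.K1Bij G p :=
  ⟨fun h => ⟨fun u hu => lc_unit1.1 (h.1 u (lc_unit1.2 hu)),
    fun u u' hu hu' hh => lc_homot.1 (h.2.1 u u' (lc_unit1.2 hu) (lc_unit1.2 hu') (lc_homot.2 hh)),
    fun v hv => by
      obtain ⟨u, hu, hh⟩ := h.2.2 v (lc_unit1.2 hv)
      exact ⟨u, lc_unit1.1 hu, lc_homot.1 hh⟩⟩,
  fun h => ⟨fun u hu => lc_unit1.2 (h.1 u (lc_unit1.1 hu)),
    fun u u' hu hu' hh => lc_homot.2 (h.2.1 u u' (lc_unit1.1 hu) (lc_unit1.1 hu') (lc_homot.1 hh)),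
    fun v hv => by
      obtain ⟨u, hu, hh⟩ := h.2.2 v (lc_unit1.1 hv)
      exact ⟨u, lc_unit1.2 hu, lc_homot.2 hh⟩⟩⟩

end Pool.Agent.Lib.MP_aa9b81_an.Cb
end
end
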