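import Pool.Agent.Lib.MP_aa9b81_an.Mg.G059

section

/-!
# Continuous Bernoulli, part Lab: multiplication operators, algebra
-/

open scoped ENNReal Topology
open Function Filter MeasureTheory

noncomputable section

set_option linter.unusedSectionVars false

namespace Pool.Agent.Lib.MP_aa9b81_an.Cb

open Cut Hs

variable {G J J' J'' : Type} [Group G] [TopologicalSpace G] [IsTopologicalGroup G]
  [LocallyCompactSpace G] [SecondCountableTopology G] [T2Space G] [MeasurableSpace G] [BorelSpace G]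

/-- PROOF: `ext_ae`, `Mul_ae`, `SC.const`. -/
theorem Mul_one : Mul (fun _ : G => (1 : BL J)) = 1 := by
  refine ext_ae fun ξ => ?_
  filter_upwards [Mul_ae (G := G) (SC.const (1 : BL J)) ξ] with a ha
  rw [ha]
  rfl

theorem Mul_zero : Mul (fun _ : G => (0 : L2 J →L[ℂ] L2 J')) = 0 := by
  refine ext_ae fun ξ => ?_
  filter_upwards [Mul_ae (G := G) (SC.const (0 : L2 J →L[ℂ] L2 J')) ξ,
    Lp.coeFn_zero (L2 J') 2 (mu G)] with a ha h0
  rw [ha]
  have e : (0 : HG G J →L[ℂ] HG G J') ξ = 0 := rfl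
  rw [e, h0]
  rfl

/-- PROOF: `ext_ae`, `Mul_ae`, `Lp.coeFn_add`. -/
theorem Mul_add {m m' : G → (L2 J →L[ℂ] L2 J')} (h : SC m) (h' : SC m') :
    Mul (fun a => m a + m' a) = Mul m + Mul m' := by
  refine ext_ae fun ξ => ?_
  filter_upwards [Mul_ae (h.add h') ξ, Mul_ae h ξ, Mul_ae h' ξ,
    Lp.coeFn_add (Mul m ξ) (Mul m' ξ)] with a h1 h2 h3 h4
  have e : (Mul m + Mul m') ξ = Mul m ξ + Mul m' ξ := rfl
  rw [h1, e, h4, Pi.add_apply, h2, h3]
  rfl

theorem Mul_sub {m m' : G → (L2 J →L[ℂ] L2 J')} (h : SC m) (h' : SC m') :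
    Mul (fun a => m a - m' a) = Mul m - Mul m' := by
  refine ext_ae fun ξ => ?_
  filter_upwards [Mul_ae (h.sub h') ξ, Mul_ae h ξ, Mul_ae h' ξ,
    Lp.coeFn_sub (Mul m ξ) (Mul m' ξ)] with a h1 h2 h3 h4
  have e : (Mul m - Mul m') ξ = Mul m ξ - Mul m' ξ := rfl
  rw [h1, e, h4, Pi.sub_apply, h2, h3]
  rfl

theorem Mul_smul {m : G → (L2 J →L[ℂ] L2 J')} (h : SC m) (c : ℂ) :
    Mul (fun a => c • m a) = c • Mul m := by
  refine ext_ae fun ξ => ?_
  filter_upwards [Mul_ae (h.smul (continuous_const (y := c)) (C := ‖c‖) fun _ => le_rfl) ξ,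
    Mul_ae h ξ, Lp.coeFn_smul c (Mul m ξ)] with a h1 h2 h3
  have e : (c • Mul m) ξ = c • Mul m ξ := rfl
  rw [h1, e, h3, Pi.smul_apply, h2]
  rfl

/-- PROOF: `ext_ae`: `Mul m (Mul m' ξ) = m a ((Mul m' ξ) a) = m a (m' a (ξ a))` almost everywhere (`Mul_ae`, `SC.comp`). -/
theorem Mul_comp_Mul {m : G → (L2 J' →L[ℂ] L2 J'')} {m' : G → (L2 J →L[ℂ] L2 J')} (h : SC m)
    (h' : SC m') : (Mul m).comp (Mul m') = Mul fun a => (m a).comp (m' a) := by
  refine ext_ae fun ξ => ?_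
  filter_upwards [Mul_ae (h.comp h') ξ, Mul_ae h (Mul m' ξ), Mul_ae h' ξ] with a h1 h2 h3
  rw [h1, ContinuousLinearMap.comp_apply, h2, h3]
  rfl

/-- Dominated convergence. PROOF: `‖Mul (m n) ξ - Mul m₀ ξ‖² = ∫ ‖(m n a - m₀ a) (ξ a)‖² ≤ ...` tends to `0` by dominated convergence (the bound
`(2 C ‖ξ a‖)²` is integrable), or `tendsto_Lp_of_...`: `Lp.tendsto_Lp_iff_tendsto_eLpNorm'`, `tendsto_lintegral_of_dominated_convergence`. -/
theorem tendsto_Mul {m : ℕ → G → (L2 J →L[ℂ] L2 J')} {m₀ : G → (L2 J →L[ℂ] L2 J')} {C : ℝ}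
    (h : ∀ n, SC (m n)) (h₀ : SC m₀) (hC : ∀ n a, ‖m n a‖ ≤ C)
    (hl : ∀ a v, Tendsto (fun n => m n a v) atTop (𝓝 (m₀ a v))) (ξ : HG G J) :
    Tendsto (fun n => Mul (m n) ξ) atTop (𝓝 (Mul m₀ ξ)) := by
  obtain ⟨C₀, hC₀⟩ := h₀.bdd
  have hC0 : 0 ≤ C := (norm_nonneg _).trans (hC 0 1)
  have hC00 : 0 ≤ C₀ := (norm_nonneg _).trans (hC₀ 1)
  rw [Lp.tendsto_Lp_iff_tendsto_eLpNorm']
  have key : Tendsto (fun n => eLpNorm (fun a => m n a (ξ a) - m₀ a (ξ a)) 2 (mu G)) atTop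
      (𝓝 0) := by
    have h2 : ∀ n, eLpNorm (fun a => m n a (ξ a) - m₀ a (ξ a)) 2 (mu G)
        = (∫⁻ a, ‖m n a (ξ a) - m₀ a (ξ a)‖ₑ ^ (2 : ℝ) ∂(mu G)) ^ (1 / 2 : ℝ) := by
      intro n
      rw [eLpNorm_eq_lintegral_rpow_enorm_toReal (by norm_num) (by norm_num)]
      norm_num
    simp only [h2]
    have h3 : Tendsto (fun n => ∫⁻ a, ‖m n a (ξ a) - m₀ a (ξ a)‖ₑ ^ (2 : ℝ) ∂(mu G)) atTop
        (𝓝 (∫⁻ _, 0 ∂(mu G))) := by
      haveI : TopologicalSpace.MetrizableSpace G :=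
        TopologicalSpace.metrizableSpace_of_t3_secondCountable G
      have hξm := Lp.aestronglyMeasurable ξ
      apply tendsto_lintegral_of_dominated_convergence'
        (bound := fun a => ‖(C + C₀) • ξ a‖ₑ ^ (2 : ℝ))
      · intro n
        exact ((((h n).aesm hξm).sub (h₀.aesm hξm)).enorm).pow_const _
      · intro n
        refine ae_of_all _ fun a => ?_
        apply ENNReal.rpow_le_rpow _ (by norm_num)
        rw [enorm_le_iff_norm_le, norm_smul, Real.norm_of_nonneg (by positivity)]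
        calc ‖m n a (ξ a) - m₀ a (ξ a)‖ ≤ ‖m n a (ξ a)‖ + ‖m₀ a (ξ a)‖ := norm_sub_le _ _
          _ ≤ C * ‖ξ a‖ + C₀ * ‖ξ a‖ :=
            add_le_add ((m n a).le_of_opNorm_le (hC n a) _) ((m₀ a).le_of_opNorm_le (hC₀ a) _)
          _ = (C + C₀) * ‖ξ a‖ := by ring
      · have h4 : MemLp (fun a => (C + C₀) • ξ a) 2 (mu G) := (Lp.memLp ξ).const_smul (C + C₀)
        have h5 := lintegral_rpow_enorm_lt_top_of_eLpNorm_lt_top (by norm_num) (by norm_num) h4.2
        norm_num at h5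
        simpa using h5.ne
      · refine ae_of_all _ fun a => ?_
        have h6 : Tendsto (fun n => ‖m n a (ξ a) - m₀ a (ξ a)‖ₑ) atTop (𝓝 ‖(0 : L2 J')‖ₑ) := by
          apply Tendsto.enorm
          have := (hl a (ξ a)).sub_const (m₀ a (ξ a))
          rwa [sub_self] at this
        rw [enorm_zero] at h6
        have h7 := (ENNReal.continuous_rpow_const (y := 2)).tendsto (0 : ℝ≥0∞)
        rw [ENNReal.zero_rpow_of_pos (by norm_num)] at h7
        exact h7.comp h6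
    rw [lintegral_zero] at h3
    have h8 := (ENNReal.continuous_rpow_const (y := (1 / 2 : ℝ))).tendsto (0 : ℝ≥0∞)
    rw [ENNReal.zero_rpow_of_pos (by norm_num)] at h8
    exact h8.comp h3
  refine key.congr fun n => ?_
  apply eLpNorm_congr_ae
  filter_upwards [Mul_ae (h n) ξ, Mul_ae h₀ ξ] with a h1 h2
  rw [Pi.sub_apply, h1, h2]

end Pool.Agent.Lib.MP_aa9b81_an.Cb
end
end

section

/-!
# Continuous Bernoulli, part Sd: amplifications
-/

open scoped ENNReal Topology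
open Function Filter

noncomputable section

namespace Pool.Agent.Lib.MP_aa9b81_an.Cb

open Cut Hs

variable {Z J J' J'' : Type} [TopologicalSpace Z]

/-- The operator `1 ⊗ m : ℓ²(ℕ × J) → ℓ²(ℕ × J')`. -/
def am (m : L2 J →L[ℂ] L2 J') : L2 (ℕ × J) →L[ℂ] L2 (ℕ × J') :=
  blk (Equiv.refl _) (Equiv.refl _) id fun _ => m

/-- The operator `E_ij ⊗ m : ℓ²(ℕ × J) → ℓ²(ℕ × J')`. -/
def ek (i j : ℕ) (m : L2 J →L[ℂ] L2 J') : L2 (ℕ × J) →L[ℂ] L2 (ℕ × J') :=
  blk (Equiv.refl _) (Equiv.refl _) (fun _ => j) fun k => if k = i then m else 0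

private theorem Sd_bok1 (m : L2 J →L[ℂ] L2 J') : BOK (id : ℕ → ℕ) (fun _ => m) ‖m‖ :=
  ⟨norm_nonneg _, fun _ => le_rfl, fun _ _ _ _ h => h⟩

private theorem Sd_bok2 (i j : ℕ) (m : L2 J →L[ℂ] L2 J') :
    BOK (fun _ : ℕ => j) (fun k => if k = i then m else 0) ‖m‖ := by
  refine ⟨norm_nonneg _, fun k => ?_, fun k₁ k₂ h₁ h₂ _ => ?_⟩
  · by_cases h : k = i
    · simp [h]
    · simp [h]
  · have e₁ : k₁ = i := by
      by_contra h
      exact h₁ (by simp [h])
    have e₂ : k₂ = i := by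
      by_contra h
      exact h₂ (by simp [h])
    rw [e₁, e₂]

/-- PROOF: `sl_blk`; `BOK id (fun _ => m) ‖m‖`. -/
theorem sl_am (m : L2 J →L[ℂ] L2 J') (ξ : L2 (ℕ × J)) (k : ℕ) :
    sl (Equiv.refl _) k (am m ξ) = m (sl (Equiv.refl _) k ξ) := by
  exact sl_blk (Equiv.refl _) (Equiv.refl _) (Sd_bok1 m) ξ k

/-- PROOF: `sl_blk`; `BOK (fun _ => j) (fun k => if k = i then m else 0) ‖m‖`. -/
theorem sl_ek (i j : ℕ) (m : L2 J →L[ℂ] L2 J') (ξ : L2 (ℕ × J)) (k : ℕ) :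
    sl (Equiv.refl _) k (ek i j m ξ) = if k = i then m (sl (Equiv.refl _) j ξ) else 0 := by
  have h := sl_blk (Equiv.refl _) (Equiv.refl _) (Sd_bok2 i j m) ξ k
  rw [ek, h]
  by_cases hk : k = i
  · simp [hk]
  · simp [hk]

theorem norm_am_le (m : L2 J →L[ℂ] L2 J') : ‖am m‖ ≤ ‖m‖ := by
  exact norm_blk_le (Equiv.refl _) (Equiv.refl _) (Sd_bok1 m)

theorem norm_ek_le (i j : ℕ) (m : L2 J →L[ℂ] L2 J') : ‖ek i j m‖ ≤ ‖m‖ := by
  exact norm_blk_le (Equiv.refl _) (Equiv.refl _) (Sd_bok2 i j m)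

/-- PROOF: `ext_sl`, `sl_am`. -/
theorem am_one : am (1 : BL J) = 1 := by
  refine ContinuousLinearMap.ext fun ξ => ext_sl (Equiv.refl _) fun k => ?_
  rw [sl_am]
  rfl

theorem am_add (m m' : L2 J →L[ℂ] L2 J') : am (m + m') = am m + am m' := by
  refine ContinuousLinearMap.ext fun ξ => ext_sl (Equiv.refl _) fun k => ?_
  rw [sl_am, ContinuousLinearMap.add_apply, ContinuousLinearMap.add_apply, map_add, sl_am, sl_am]

theorem am_sub (m m' : L2 J →L[ℂ] L2 J') : am (m - m') = am m - am m' := by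
  refine ContinuousLinearMap.ext fun ξ => ext_sl (Equiv.refl _) fun k => ?_
  rw [sl_am, ContinuousLinearMap.sub_apply, ContinuousLinearMap.sub_apply, map_sub, sl_am, sl_am]

theorem am_smul (c : ℂ) (m : L2 J →L[ℂ] L2 J') : am (c • m) = c • am m := by
  refine ContinuousLinearMap.ext fun ξ => ext_sl (Equiv.refl _) fun k => ?_
  rw [sl_am, ContinuousLinearMap.smul_apply, ContinuousLinearMap.smul_apply, map_smul, sl_am]

theorem am_comp (m : L2 J' →L[ℂ] L2 J'') (m' : L2 J →L[ℂ] L2 J') :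
    (am m).comp (am m') = am (m.comp m') := by
  refine ContinuousLinearMap.ext fun ξ => ext_sl (Equiv.refl _) fun k => ?_
  rw [ContinuousLinearMap.comp_apply, sl_am, sl_am, sl_am, ContinuousLinearMap.comp_apply]

theorem ek_add (i j : ℕ) (m m' : L2 J →L[ℂ] L2 J') : ek i j (m + m') = ek i j m + ek i j m' := by
  refine ContinuousLinearMap.ext fun ξ => ext_sl (Equiv.refl _) fun k => ?_
  rw [sl_ek, ContinuousLinearMap.add_apply, ContinuousLinearMap.add_apply, map_add, sl_ek, sl_ek]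
  by_cases hk : k = i
  · simp only [if_pos hk]
  · simp only [if_neg hk, add_zero]

theorem ek_sub (i j : ℕ) (m m' : L2 J →L[ℂ] L2 J') : ek i j (m - m') = ek i j m - ek i j m' := by
  refine ContinuousLinearMap.ext fun ξ => ext_sl (Equiv.refl _) fun k => ?_
  rw [sl_ek, ContinuousLinearMap.sub_apply, ContinuousLinearMap.sub_apply, map_sub, sl_ek, sl_ek]
  by_cases hk : k = i
  · simp only [if_pos hk]
  · simp only [if_neg hk, sub_zero]

theorem ek_smul (i j : ℕ) (c : ℂ) (m : L2 J →L[ℂ] L2 J') : ek i j (c • m) = c • ek i j m := by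
  refine ContinuousLinearMap.ext fun ξ => ext_sl (Equiv.refl _) fun k => ?_
  rw [sl_ek, ContinuousLinearMap.smul_apply, ContinuousLinearMap.smul_apply, map_smul, sl_ek]
  by_cases hk : k = i
  · simp only [if_pos hk]
  · simp only [if_neg hk, smul_zero]

theorem am_comp_ek (i j : ℕ) (m : L2 J' →L[ℂ] L2 J'') (m' : L2 J →L[ℂ] L2 J') :
    (am m).comp (ek i j m') = ek i j (m.comp m') := by
  refine ContinuousLinearMap.ext fun ξ => ext_sl (Equiv.refl _) fun k => ?_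
  rw [ContinuousLinearMap.comp_apply, sl_am, sl_ek, sl_ek, ContinuousLinearMap.comp_apply]
  by_cases hk : k = i
  · simp only [if_pos hk]
  · simp only [if_neg hk, map_zero]

theorem ek_comp_am (i j : ℕ) (m : L2 J' →L[ℂ] L2 J'') (m' : L2 J →L[ℂ] L2 J') :
    (ek i j m).comp (am m') = ek i j (m.comp m') := by
  refine ContinuousLinearMap.ext fun ξ => ext_sl (Equiv.refl _) fun k => ?_
  rw [ContinuousLinearMap.comp_apply, sl_ek, sl_am, sl_ek, ContinuousLinearMap.comp_apply]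

theorem ek_comp_ek (i j k : ℕ) (m : L2 J' →L[ℂ] L2 J'') (m' : L2 J →L[ℂ] L2 J') :
    (ek i j m).comp (ek j k m') = ek i k (m.comp m') := by
  refine ContinuousLinearMap.ext fun ξ => ext_sl (Equiv.refl _) fun l => ?_
  rw [ContinuousLinearMap.comp_apply, sl_ek, sl_ek, sl_ek, ContinuousLinearMap.comp_apply, if_pos rfl]

theorem ek_comp_ek_of_ne {i j j' k : ℕ} (h : j ≠ j') (m : L2 J' →L[ℂ] L2 J'')
    (m' : L2 J →L[ℂ] L2 J') : (ek i j m).comp (ek j' k m') = 0 := by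
  refine ContinuousLinearMap.ext fun ξ => ext_sl (Equiv.refl _) fun l => ?_
  rw [ContinuousLinearMap.comp_apply, sl_ek, sl_ek, if_neg h, map_zero, ContinuousLinearMap.zero_apply,
    map_zero, ite_self]

private theorem Sd_sl_bv (k l : ℕ) (b : J) :
    sl (Equiv.refl _) l (bv (k, b) : L2 (ℕ × J)) = if l = k then bv b else 0 := by
  classical
  ext c
  rw [sl_apply, bv_apply]
  by_cases hl : l = k
  · rw [if_pos hl, bv_apply]
    by_cases hc : c = b
    · simp [hl, hc]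
    · simp [hc]
  · rw [if_neg hl]
    simp [hl]

/-- The inclusion of the slice `k`. -/
private def Sd_in (k : ℕ) : L2 J' →L[ℂ] L2 (ℕ × J') :=
  blk (Equiv.uniqueProd J' Unit) (Equiv.refl _) (fun _ : ℕ => ()) fun l =>
    if l = k then ContinuousLinearMap.id ℂ (L2 J') else 0

private theorem Sd_sl_in (k l : ℕ) (ξ : L2 J') :
    sl (Equiv.refl _) l (Sd_in k ξ) = if l = k then ξ else 0 := by
  have hb : BOK (fun _ : ℕ => ()) (fun l => if l = k then ContinuousLinearMap.id ℂ (L2 J') else 0)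
      ‖ContinuousLinearMap.id ℂ (L2 J')‖ := by
    refine ⟨norm_nonneg _, fun l => ?_, fun k₁ k₂ h₁ h₂ _ => ?_⟩
    · by_cases h : l = k
      · simp only [if_pos h]; exact le_rfl
      · simp only [if_neg h, norm_zero]; exact norm_nonneg _
    · have e₁ : k₁ = k := by
        by_contra h
        exact h₁ (by simp [h])
      have e₂ : k₂ = k := by
        by_contra h
        exact h₂ (by simp [h])
      rw [e₁, e₂]
  rw [Sd_in, sl_blk (Equiv.uniqueProd J' Unit) (Equiv.refl _) hb ξ l]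
  have h0 : sl (Equiv.uniqueProd J' Unit) () ξ = ξ := by
    ext c
    rw [sl_apply]
    rfl
  rw [h0]
  by_cases hl : l = k
  · simp only [if_pos hl]; rfl
  · simp only [if_neg hl]; rfl

open Classical in
/-- The entries. PROOF: `sl_apply`: `(sl e k ξ) b = ξ (k, b)`; `sl_am` with `sl _ k (bv (k', b)) = bv b` for `k = k'`, and `0` otherwise. -/
theorem am_bv (m : L2 J →L[ℂ] L2 J') (k : ℕ) (b : J) (p : ℕ × J') :
    (am m (bv (k, b)) : ℕ × J' → ℂ) p = if p.1 = k then (m (bv b) : J' → ℂ) p.2 else 0 := by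
  have h1 : (am m (bv (k, b)) : ℕ × J' → ℂ) p =
      (sl (Equiv.refl _) p.1 (am m (bv (k, b))) : J' → ℂ) p.2 := by
    rw [sl_apply]
    rfl
  rw [h1, sl_am, Sd_sl_bv]
  by_cases hp : p.1 = k
  · simp only [if_pos hp]
  · simp only [if_neg hp, map_zero]
    rfl

open Classical in
theorem ek_bv (i j : ℕ) (m : L2 J →L[ℂ] L2 J') (k : ℕ) (b : J) (p : ℕ × J') :
    (ek i j m (bv (k, b)) : ℕ × J' → ℂ) p =
      if p.1 = i ∧ k = j then (m (bv b) : J' → ℂ) p.2 else 0 := by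
  have h1 : (ek i j m (bv (k, b)) : ℕ × J' → ℂ) p =
      (sl (Equiv.refl _) p.1 (ek i j m (bv (k, b))) : J' → ℂ) p.2 := by
    rw [sl_apply]
    rfl
  rw [h1, sl_ek, Sd_sl_bv]
  by_cases hp : p.1 = i
  · by_cases hk : k = j
    · have hk' : j = k := hk.symm
      simp only [if_pos hp, if_pos hk', hp, hk, and_self, if_true]
    · have hk' : ¬ j = k := fun h => hk h.symm
      simp only [if_pos hp, if_neg hk', map_zero, hk, and_false, if_false]
      rfl
  · simp only [if_neg hp, hp, false_and, if_false]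
    rfl

/-- PROOF: `SC.of_bv`: `am (m z) (bv (k, b))` is the image of `m z (bv b)` under a fixed isometry (`ξ ↦ ` the vector with `sl k = ξ` and the other slices `0`):
`‖am m (bv (k, b)) - am m' (bv (k, b))‖ = ‖m (bv b) - m' (bv b)‖` (`norm_sq_sl`, or `am_sub` and the norm of `am (m - m') (bv (k, b))`, one slice). -/
theorem SC.am {m : Z → (L2 J →L[ℂ] L2 J')} (h : SC m) : SC fun z => Cb.am (m z) := by
  obtain ⟨C, hC⟩ := h.bdd
  refine SC.of_bv (C := C) (fun z => (norm_am_le _).trans (hC z)) fun q => ?_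
  obtain ⟨k, b⟩ := q
  have key : ∀ z, Cb.am (m z) (bv (k, b)) = Sd_in k (m z (bv b)) := by
    intro z
    refine ext_sl (Equiv.refl _) fun l => ?_
    rw [sl_am, Sd_sl_bv, Sd_sl_in]
    by_cases hl : l = k
    · simp only [if_pos hl]
    · simp only [if_neg hl, map_zero]
  simp only [key]
  exact (Sd_in k).continuous.comp (h.cont (bv b))

theorem SC.ek (i j : ℕ) {m : Z → (L2 J →L[ℂ] L2 J')} (h : SC m) :
    SC fun z => Cb.ek i j (m z) := by
  obtain ⟨C, hC⟩ := h.bdd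
  refine SC.of_bv (C := C) (fun z => (norm_ek_le i j _).trans (hC z)) fun q => ?_
  obtain ⟨k, b⟩ := q
  by_cases hk : j = k
  · have key : ∀ z, Cb.ek i j (m z) (bv (k, b)) = Sd_in i (m z (bv b)) := by
      intro z
      refine ext_sl (Equiv.refl _) fun l => ?_
      rw [sl_ek, Sd_sl_bv, Sd_sl_in, if_pos hk]
    simp only [key]
    exact (Sd_in i).continuous.comp (h.cont (bv b))
  · have key : ∀ z, Cb.ek i j (m z) (bv (k, b)) = 0 := by
      intro z
      refine ext_sl (Equiv.refl _) fun l => ?_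
      rw [sl_ek, Sd_sl_bv, if_neg hk, map_zero, map_zero, ite_self]
    simp only [key]
    exact continuous_const

end Pool.Agent.Lib.MP_aa9b81_an.Cb
end
end

section

/-!
# Continuous Bernoulli, part Le: slices and block diagonal operators of `L²(G, ℓ²(ℕ × P))`
-/

open scoped ENNReal Topology Pointwise
open Function Filter MeasureTheory

noncomputable section

set_option linter.unusedSectionVars false

namespace Pool.Agent.Lib.MP_aa9b81_an.Cb

open Cut Hs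

section

variable {J P : Type}

/-- The slice of `ℓ²(ℕ × P)` at `β`. -/
def s0 (β : P) : L2 (ℕ × P) →L[ℂ] L2 ℕ := pb fun k => (k, β)

/-- The inclusion of `ℓ²(ℕ)` in `ℓ²(ℕ × P)` at `β`. -/
def i0 (β : P) : L2 ℕ →L[ℂ] L2 (ℕ × P) := open Classical in
  wop Prod.fst fun p => if p.2 = β then 1 else 0

theorem s0_apply (β : P) (ξ : L2 (ℕ × P)) (k : ℕ) :
    (s0 β ξ : ℕ → ℂ) k = (ξ : ℕ × P → ℂ) (k, β) :=
  pb_apply (fun k k' h => by simpa using h) ξ k

private theorem Le_wok (β : P) : WOK (Prod.fst : ℕ × P → ℕ)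
    (fun p => @ite ℂ (p.2 = β) (Classical.propDecidable _) 1 0) 1 := by
  classical
  refine ⟨zero_le_one, fun q => ?_, fun q₁ q₂ h₁ h₂ h => ?_⟩
  · by_cases h : q.2 = β
    · rw [if_pos h, norm_one]
    · rw [if_neg h, norm_zero]; exact zero_le_one
  · have e₁ : q₁.2 = β := by
      by_contra h'
      exact h₁ (if_neg h')
    have e₂ : q₂.2 = β := by
      by_contra h'
      exact h₂ (if_neg h')
    exact Prod.ext h (e₁.trans e₂.symm)

open Classical in
/-- PROOF: `wop_apply`; the support of the weight is `{(k, β)}`, on which `Prod.fst` is injective. -/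
theorem i0_apply (β : P) (ξ : L2 ℕ) (p : ℕ × P) :
    (i0 β ξ : ℕ × P → ℂ) p = if p.2 = β then (ξ : ℕ → ℂ) p.1 else 0 := by
  rw [i0, wop_apply (Le_wok β)]
  by_cases h : p.2 = β
  · rw [if_pos h, if_pos h, one_mul]
  · rw [if_neg h, if_neg h, zero_mul]

theorem norm_s0_le (β : P) : ‖(s0 β : L2 (ℕ × P) →L[ℂ] L2 ℕ)‖ ≤ 1 :=
  norm_pb_le fun k k' h => by simpa using h

/-- PROOF: `norm_wop_le`. -/
theorem norm_i0_le (β : P) : ‖(i0 β : L2 ℕ →L[ℂ] L2 (ℕ × P))‖ ≤ 1 := by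
  exact norm_wop_le (Le_wok β)

/-- PROOF: coordinates. -/
theorem s0_comp_i0 (β : P) : (s0 β).comp (i0 β) = (1 : BL ℕ) := by
  refine ContinuousLinearMap.ext fun ξ => ?_
  ext k
  rw [ContinuousLinearMap.comp_apply, s0_apply, i0_apply, if_pos rfl]
  rfl

theorem s0_comp_i0_of_ne {β β' : P} (h : β ≠ β') : (s0 β).comp (i0 β') = (0 : BL ℕ) := by
  refine ContinuousLinearMap.ext fun ξ => ?_
  ext k
  rw [ContinuousLinearMap.comp_apply, s0_apply, i0_apply, if_neg h]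
  rfl

/-- PROOF: coordinates, `s0_apply`, `sl_apply`; `am`: `(am m ξ)(k, p) = (m (ξ(k, ·)))(p)`. -/
theorem s0_comp_am_dia {h : P → ℂ} {C : ℝ} (hC : ∀ β, ‖h β‖ ≤ C) (β : P) :
    (s0 β).comp (am (dia h)) = h β • s0 β := by
  have hC0 : 0 ≤ C := (norm_nonneg _).trans (hC β)
  refine ContinuousLinearMap.ext fun ξ => ?_
  ext k
  have h1 : (am (dia h) ξ : ℕ × P → ℂ) (k, β) =
      (sl (Equiv.refl _) k (am (dia h) ξ) : P → ℂ) β := by
    rw [sl_apply]
    rfl
  rw [ContinuousLinearMap.comp_apply, s0_apply, h1, sl_am, dia_apply hC0 hC, sl_apply]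
  have h2 : ((h β • s0 β) ξ : ℕ → ℂ) k = h β * (s0 β ξ : ℕ → ℂ) k := rfl
  rw [h2, s0_apply]
  rfl

/-- PROOF: coordinates (`sl_ek`, `dia_apply`, `Eu_apply`): both sides map `ξ` to the function with the value `h β * ξ (j, β)` at `i`, and `0` elsewhere. -/
theorem s0_comp_ek_dia (i j : ℕ) {h : P → ℂ} {C : ℝ} (hC : ∀ β, ‖h β‖ ≤ C) (β : P) :
    (s0 β).comp (ek i j (dia h)) = (h β • Eu i j : BL ℕ).comp (s0 β) := by
  have hC0 : 0 ≤ C := (norm_nonneg _).trans (hC β)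
  refine ContinuousLinearMap.ext fun ξ => ?_
  ext k
  have h1 : (ek i j (dia h) ξ : ℕ × P → ℂ) (k, β) =
      (sl (Equiv.refl _) k (ek i j (dia h) ξ) : P → ℂ) β := by
    rw [sl_apply]
    rfl
  rw [ContinuousLinearMap.comp_apply, s0_apply, h1, sl_ek, ContinuousLinearMap.comp_apply]
  have h2 : ((h β • Eu i j : BL ℕ) (s0 β ξ) : ℕ → ℂ) k =
      h β * (Eu i j (s0 β ξ) : ℕ → ℂ) k := rfl
  rw [h2, Eu_apply, s0_apply]
  by_cases hk : k = i
  · rw [if_pos hk, if_pos hk, dia_apply hC0 hC, sl_apply]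
    rfl
  · rw [if_neg hk, if_neg hk, mul_zero]
    rfl

end

variable {G J J' J'' P : Type} [Group G] [TopologicalSpace G] [IsTopologicalGroup G]
  [LocallyCompactSpace G] [SecondCountableTopology G] [T2Space G] [MeasurableSpace G] [BorelSpace G]

/-- The slice at `β`. -/
def slg (β : P) : HG G (ℕ × P) →L[ℂ] HG G ℕ := Mul fun _ => s0 β

/-- The inclusion at `β`. -/
def ing (β : P) : HG G ℕ →L[ℂ] HG G (ℕ × P) := Mul fun _ => i0 β

/-- PROOF: `Mul_comp_Mul`, `s0_comp_i0`, `Mul_one`. -/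
theorem slg_comp_ing (β : P) : (slg β).comp (ing β) = (1 : HG G ℕ →L[ℂ] HG G ℕ) := by
  rw [slg, ing, Mul_comp_Mul (SC.const _) (SC.const _)]
  simp only [s0_comp_i0]
  exact Mul_one

theorem slg_comp_ing_of_ne {β β' : P} (h : β ≠ β') :
    (slg β).comp (ing β') = (0 : HG G ℕ →L[ℂ] HG G ℕ) := by
  rw [slg, ing, Mul_comp_Mul (SC.const _) (SC.const _)]
  simp only [s0_comp_i0_of_ne h]
  exact Mul_zero

private theorem Le_slg_ae (β : P) (ξ : HG G (ℕ × P)) :
    (slg β ξ : G → L2 ℕ) =ᵐ[mu G] fun a => s0 β (ξ a) :=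
  Mul_ae (SC.const _) ξ

private theorem Le_enorm_sq {K : Type} (ξ : HG G K) :
    ‖ξ‖ₑ ^ 2 = ∫⁻ a, ‖(ξ : G → L2 K) a‖ₑ ^ 2 ∂mu G := by
  rw [Lp.enorm_def]
  have h := eLpNorm_nnreal_pow_eq_lintegral (μ := mu G) (f := (ξ : G → L2 K)) (p := 2)
    (by norm_num)
  have e : (((2 : NNReal) : ℝ≥0∞)) = 2 := by norm_num
  rw [e] at h
  have h2 : ((2 : NNReal) : ℝ) = ((2 : ℕ) : ℝ) := by norm_num
  rw [h2] at h
  simpa only [ENNReal.rpow_natCast] using h

/-- Parseval. PROOF: `ξ` has almost everywhere values in a separable set (`AEStronglyMeasurable.isSeparable_ae_range`), so in the closure of a countable set `c`; every vector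
of `c` has a countable support (`Summable.countable_support`, `summable_L2`), so there is a countable set `P₀ ⊆ P` such that, for almost every `a`, `ξ a (k, β) = 0` for all `k` and `β ∉ P₀` (a closed
condition). For almost every `a` the numbers `‖s0 β (ξ a)‖²` have the sum `‖ξ a‖²` (`norm_sq_sl` with `e = Equiv.prodComm`), with nonzero terms for `β ∈ P₀` only. Integrate:
`‖ξ‖² = ∫⁻ ‖ξ a‖² = ∫⁻ ∑_{β ∈ P₀} ‖s0 β (ξ a)‖² = ∑_{β ∈ P₀} ‖slg β ξ‖²` (`lintegral_tsum`; `Lp.norm_def`, `eLpNorm` with `p = 2`), and `slg β ξ = 0` for `β ∉ P₀`. -/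
theorem hasSum_slg (ξ : HG G (ℕ × P)) : HasSum (fun β => ‖slg β ξ‖ ^ 2) (‖ξ‖ ^ 2) := by
  classical
  -- a countable set of indices
  obtain ⟨P₀, hP₀, hz⟩ : ∃ P₀ : Set P, P₀.Countable ∧
      ∀ a, ∀ β ∉ P₀, ∀ k, ((ξ : G → L2 (ℕ × P)) a : ℕ × P → ℂ) (k, β) = 0 := by
    obtain ⟨c, hc, hc'⟩ := (Lp.stronglyMeasurable ξ).isSeparable_range
    refine ⟨⋃ v ∈ c, Prod.snd '' Function.support fun q => (v : ℕ × P → ℂ) q, ?_, ?_⟩
    · refine hc.biUnion fun v _ => Set.Countable.image ?_ _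
      have h1 := (summable_L2 v).countable_support
      refine h1.mono fun q hq => ?_
      rw [Function.mem_support] at hq ⊢
      exact pow_ne_zero 2 (norm_ne_zero_iff.2 hq)
    · intro a β hβ k
      have hcl : IsClosed {v : L2 (ℕ × P) | (v : ℕ × P → ℂ) (k, β) = 0} := by
        have h2 : {v : L2 (ℕ × P) | (v : ℕ × P → ℂ) (k, β) = 0} =
            (fun v : L2 (ℕ × P) => inner ℂ (bv (k, β) : L2 (ℕ × P)) v) ⁻¹' {0} := by
          ext v
          rw [Set.mem_ofPred_eq, Set.mem_preimage, Set.mem_singleton_iff, inner_bv_left]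
        rw [h2]
        exact isClosed_singleton.preimage (continuous_const.inner continuous_id)
      have hsub : c ⊆ {v : L2 (ℕ × P) | (v : ℕ × P → ℂ) (k, β) = 0} := by
        intro v hv
        by_contra h
        exact hβ (Set.mem_biUnion hv ⟨(k, β), h, rfl⟩)
      exact closure_minimal hsub hcl (hc' ⟨a, rfl⟩)
  have hs0 : ∀ a, ∀ β ∉ P₀, s0 β ((ξ : G → L2 (ℕ × P)) a) = 0 := by
    intro a β hβ
    ext k
    rw [s0_apply, hz a β hβ k]
    rfl
  -- the pointwise sums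
  have hpt : ∀ a, ‖(ξ : G → L2 (ℕ × P)) a‖ₑ ^ 2 =
      ∑' β : P₀, ‖s0 (β : P) ((ξ : G → L2 (ℕ × P)) a)‖ₑ ^ 2 := by
    intro a
    have h1 : HasSum (fun β : P => ‖s0 β ((ξ : G → L2 (ℕ × P)) a)‖ ^ 2)
        (‖(ξ : G → L2 (ℕ × P)) a‖ ^ 2) := by
      have h2 := norm_sq_sl (Equiv.prodComm P ℕ) ((ξ : G → L2 (ℕ × P)) a)
      have h3 := (summable_sl (Equiv.prodComm P ℕ) ((ξ : G → L2 (ℕ × P)) a)).hasSum
      rw [← h2] at h3
      exact h3
    have h4 : HasSum ((fun β : P => ‖s0 β ((ξ : G → L2 (ℕ × P)) a)‖ ^ 2) ∘ ((↑) : P₀ → P))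
        (‖(ξ : G → L2 (ℕ × P)) a‖ ^ 2) := by
      refine (hasSum_subtype_iff_of_support_subset ?_).2 h1
      intro β hβ
      by_contra h
      refine hβ ?_
      change ‖s0 β ((ξ : G → L2 (ℕ × P)) a)‖ ^ 2 = 0
      rw [hs0 a β h, norm_zero]
      norm_num
    have h5 : HasSum (fun β : P₀ => ‖s0 (β : P) ((ξ : G → L2 (ℕ × P)) a)‖₊ ^ 2)
        (‖(ξ : G → L2 (ℕ × P)) a‖₊ ^ 2) := by
      rw [← NNReal.hasSum_coe]
      push_cast
      exact h4
    have h6 := ENNReal.hasSum_coe.2 h5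
    have h7 := h6.tsum_eq
    push_cast at h7
    rw [enorm_eq_nnnorm]
    rw [← h7]
    rfl
  have hmain : ‖ξ‖ₑ ^ 2 = ∑' β : P₀, ‖slg (β : P) ξ‖ₑ ^ 2 := by
    rw [Le_enorm_sq]
    simp only [Le_enorm_sq]
    have : Countable P₀ := hP₀.to_subtype
    have h1 : ∀ β : P₀, ∫⁻ a, ‖(slg (β : P) ξ : G → L2 ℕ) a‖ₑ ^ 2 ∂mu G =
        ∫⁻ a, ‖s0 (β : P) ((ξ : G → L2 (ℕ × P)) a)‖ₑ ^ 2 ∂mu G := by
      intro β
      refine lintegral_congr_ae ?_
      filter_upwards [Le_slg_ae (β : P) ξ] with a ha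
      rw [ha]
    simp only [h1]
    rw [← lintegral_tsum]
    · exact lintegral_congr hpt
    · intro β
      exact (((s0 (β : P)).continuous.comp_aestronglyMeasurable
        (Lp.aestronglyMeasurable ξ)).enorm).pow_const 2
  have hn : HasSum (fun β : P₀ => ‖slg (β : P) ξ‖₊ ^ 2) (‖ξ‖₊ ^ 2) := by
    rw [← ENNReal.hasSum_coe]
    push_cast
    have h1 : HasSum (fun β : P₀ => ‖slg (β : P) ξ‖ₑ ^ 2) (∑' β : P₀, ‖slg (β : P) ξ‖ₑ ^ 2) :=
      ENNReal.summable.hasSum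
    rw [← hmain] at h1
    exact h1
  have hr : HasSum ((fun β : P => ‖slg β ξ‖ ^ 2) ∘ ((↑) : P₀ → P)) (‖ξ‖ ^ 2) := by
    have h1 := NNReal.hasSum_coe.2 hn
    push_cast at h1
    exact h1
  refine (hasSum_subtype_iff_of_support_subset ?_).1 hr
  intro β hβ
  by_contra h
  refine hβ ?_
  change ‖slg β ξ‖ ^ 2 = 0
  have h0 : slg β ξ = 0 := by
    refine Lp.ext ?_
    filter_upwards [Le_slg_ae β ξ, Lp.coeFn_zero (L2 ℕ) 2 (mu G)] with a ha hb
    rw [ha, hs0 a β h, hb]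
    rfl
  rw [h0, norm_zero]
  norm_num

/-- PROOF: `hasSum_slg` for `ξ - η`. -/
theorem ext_slg {ξ η : HG G (ℕ × P)} (h : ∀ β, slg β ξ = slg β η) : ξ = η := by
  have h1 := hasSum_slg (ξ - η)
  have h2 : ∀ β, ‖slg β (ξ - η)‖ ^ 2 = 0 := by
    intro β
    rw [map_sub, h β, sub_self, norm_zero]
    norm_num
  simp only [h2] at h1
  have h3 := h1.unique hasSum_zero
  have h4 : ‖ξ - η‖ = 0 := by
    rcases pow_eq_zero_iff (two_ne_zero) |>.1 h3 with h
    exact h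
  exact sub_eq_zero.1 (norm_eq_zero.1 h4)

/-- Synthesis. PROOF: for a finite set `A` of indices the vector `∑_{β ∈ A} ing β (η β)` has the square norm `∑_{β ∈ A} ‖η β‖²` (`hasSum_slg`, `slg_comp_ing`), so the series
`∑ ing β (η β)` is Cauchy (`summable_iff_vanishing_norm`, applied to `∑ ‖η β‖²`), and its sum `ξ` has the slices `η β` (continuity of `slg β`). -/
theorem exists_of_slg {η : P → HG G ℕ} (h : Summable fun β => ‖η β‖ ^ 2) :
    ∃ ξ : HG G (ℕ × P), ∀ β, slg β ξ = η β := by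
  classical
  have hsl : ∀ β γ, slg β (ing γ (η γ)) = if γ = β then η β else 0 := by
    intro β γ
    by_cases hγ : γ = β
    · rw [if_pos hγ, hγ]
      have h1 := congrArg (fun T : HG G ℕ →L[ℂ] HG G ℕ => T (η β))
        (slg_comp_ing (G := G) β)
      exact h1
    · rw [if_neg hγ]
      have h1 := congrArg (fun T : HG G ℕ →L[ℂ] HG G ℕ => T (η γ))
        (slg_comp_ing_of_ne (G := G) (fun e => hγ e.symm : β ≠ γ))
      exact h1
  have hfin : ∀ A : Finset P, ‖∑ γ ∈ A, ing γ (η γ)‖ ^ 2 = ∑ γ ∈ A, ‖η γ‖ ^ 2 := by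
    intro A
    have h1 := hasSum_slg (∑ γ ∈ A, ing γ (η γ))
    have h2 : ∀ β, slg β (∑ γ ∈ A, ing γ (η γ)) = if β ∈ A then η β else 0 := by
      intro β
      rw [map_sum]
      simp only [hsl]
      rw [Finset.sum_ite_eq']
    have h3 : HasSum (fun β => ‖slg β (∑ γ ∈ A, ing γ (η γ))‖ ^ 2) (∑ γ ∈ A, ‖η γ‖ ^ 2) := by
      have h4 : HasSum (fun β => ‖slg β (∑ γ ∈ A, ing γ (η γ))‖ ^ 2)
          (∑ β ∈ A, ‖slg β (∑ γ ∈ A, ing γ (η γ))‖ ^ 2) := by
        refine hasSum_sum_of_ne_finset_zero fun β hβ => ?_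
        rw [h2, if_neg hβ, norm_zero]
        norm_num
      have h5 : ∑ β ∈ A, ‖slg β (∑ γ ∈ A, ing γ (η γ))‖ ^ 2 = ∑ γ ∈ A, ‖η γ‖ ^ 2 := by
        refine Finset.sum_congr rfl fun β hβ => ?_
        rw [h2, if_pos hβ]
      rwa [h5] at h4
    exact h1.unique h3
  have hsum : Summable fun γ => ing γ (η γ) := by
    rw [summable_iff_vanishing_norm]
    intro ε hε
    obtain ⟨s, hs⟩ := summable_iff_vanishing_norm.1 h (ε ^ 2) (by positivity)
    refine ⟨s, fun t ht => ?_⟩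
    have h1 := hs t ht
    rw [← hfin t, Real.norm_eq_abs, abs_of_nonneg (by positivity)] at h1
    exact lt_of_pow_lt_pow_left₀ 2 hε.le h1
  obtain ⟨ξ, hξ⟩ := hsum
  refine ⟨ξ, fun β => ?_⟩
  have h1 := (slg β).hasSum hξ
  have h2 : HasSum (fun γ => slg β (ing γ (η γ))) (η β) := by
    simp only [hsl]
    exact hasSum_ite_eq β (η β)
  exact h1.unique h2

end Pool.Agent.Lib.MP_aa9b81_an.Cb
end
end
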