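import Pool.Agent.Lib.MP_aa9b81_an.Mg.G074
import Pool.Agent.Lib.MP_aa9b81_an.Mg.G079
import Pool.Agent.Lib.MP_aa9b81_an.Mg.G078
import Pool.Agent.Lib.MP_aa9b81_an.Mg.G075

section

section
/-!
# Continuous Bernoulli, part Fb: transport along injections, definition
-/

open scoped ENNReal Topology
open Function

noncomputable section

namespace Pool.Agent.Lib.MP_aa9b81_an.Cb

open Cut Hs

variable {I I₀ I₁ O O₀ O₁ : Type} [LinearOrder O]
  [LinearOrder O₀] [LinearOrder O₁]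

/-- The pair `(s F, s S)`. -/
def mp (s : I₀ ↪ I) (b : Bs I₀) : Bs I :=
  Bs.mk (b.F.map s) (b.S.map s) (Finset.map_subset_map.2 b.sub)

@[simp] lemma mp_F (s : I₀ ↪ I) (b : Bs I₀) : (mp s b).F = b.F.map s := rfl

@[simp] lemma mp_S (s : I₀ ↪ I) (b : Bs I₀) : (mp s b).S = b.S.map s := rfl

lemma mp_injective (s : I₀ ↪ I) : Injective (mp s) := fun _ _ h =>
  Bs.ext (Finset.map_injective s (congrArg Bs.F h)) (Finset.map_injective s (congrArg Bs.S h))

/-- The sign of the map `s` at `S`: the product over the pairs `e₀ k < e₀ j` in `S` of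
`ta (s j) (s k)`; for an injective `s` it is `(-1)` to the number of the inversions. -/
def sg (e₀ : I₀ ↪ O₀) (e : I ↪ O) (s : I₀ → I) (S : Finset I₀) : ℂ :=
  ∏ j ∈ S, ∏ k ∈ S.filter (fun k => e₀ k < e₀ j), ta e (s j) (s k)

/-- The adjoint of the transport: `(Trs ξ)(F, S) = sg(s, S) ξ(s F, s S)`. -/
def Trs (e₀ : I₀ ↪ O₀) (e : I ↪ O) (s : I₀ ↪ I) : L2 (Bs I) →L[ℂ] L2 (Bs I₀) :=
  wop (mp s) fun b => sg e₀ e s b.S

/-- The transport: the isometry `e_(F,S) ↦ sg(s, S) e_(s F, s S)`. -/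
def Tr (e₀ : I₀ ↪ O₀) (e : I ↪ O) (s : I₀ ↪ I) : L2 (Bs I₀) →L[ℂ] L2 (Bs I) :=
  ContinuousLinearMap.adjoint (Trs e₀ e s)

end Pool.Agent.Lib.MP_aa9b81_an.Cb
end

end


section
/-!
# Continuous Bernoulli, part F1: the signs of maps
-/

open scoped ENNReal Topology
open Function

noncomputable section

set_option linter.unusedSectionVars false

namespace Pool.Agent.Lib.MP_aa9b81_an.Cb

open Cut Hs

variable {I I₀ I₁ O O₀ O₁ : Type} [DecidableEq I] [DecidableEq I₀] [DecidableEq I₁] [LinearOrder O]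
  [LinearOrder O₀] [LinearOrder O₁]

/-- The sign of a pair of points under the map `s`. -/
def pr (e₀ : I₀ ↪ O₀) (e : I ↪ O) (s : I₀ → I) (i j : I₀) : ℂ := ta e₀ i j * ta e (s i) (s j)

theorem pr_symm (e₀ : I₀ ↪ O₀) (e : I ↪ O) (s : I₀ → I) {i j : I₀} (h : i ≠ j) (h' : s i ≠ s j) :
    pr e₀ e s j i = pr e₀ e s i j := by
  unfold pr
  rw [ta_swap e₀ h, ta_swap e h']
  ring

theorem pr_mul_self (e₀ : I₀ ↪ O₀) (e : I ↪ O) (s : I₀ → I) (i j : I₀) :
    pr e₀ e s i j * pr e₀ e s i j = 1 := by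
  unfold pr
  rw [mul_mul_mul_comm, ta_mul_self, ta_mul_self, one_mul]

theorem pr_comp (e₀ : I₀ ↪ O₀) (e₁ : I₁ ↪ O₁) (e : I ↪ O) (s' : I₀ → I₁) (s : I₁ → I) (i j : I₀) :
    pr e₀ e (s ∘ s') i j = pr e₁ e s (s' i) (s' j) * pr e₀ e₁ s' i j := by
  unfold pr
  have h1 := ta_mul_self e₁ (s' i) (s' j)
  simp only [comp_apply]
  calc ta e₀ i j * ta e (s (s' i)) (s (s' j))
      = (ta e₁ (s' i) (s' j) * ta e₁ (s' i) (s' j)) *
        (ta e₀ i j * ta e (s (s' i)) (s (s' j))) := by rw [h1, one_mul]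
    _ = _ := by ring

theorem prod_pr_mul_self (e₀ : I₀ ↪ O₀) (e : I ↪ O) (s : I₀ → I) (i : I₀) (A : Finset I₀) :
    (∏ j ∈ A, pr e₀ e s i j) * (∏ j ∈ A, pr e₀ e s i j) = 1 := by
  rw [← Finset.prod_mul_distrib]
  exact Finset.prod_eq_one fun j _ => pr_mul_self e₀ e s i j

theorem sg_empty (e₀ : I₀ ↪ O₀) (e : I ↪ O) (s : I₀ → I) : sg e₀ e s ∅ = 1 := by
  unfold sg
  rw [Finset.prod_empty]

theorem sg_congr (e₀ : I₀ ↪ O₀) (e : I ↪ O) {s s' : I₀ → I} {S : Finset I₀}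
    (h : ∀ i ∈ S, s i = s' i) : sg e₀ e s S = sg e₀ e s' S := by
  unfold sg
  refine Finset.prod_congr rfl fun j hj => Finset.prod_congr rfl fun k hk => ?_
  rw [h j hj, h k (Finset.mem_filter.1 hk).1]

/-- PROOF: as `Hs.ep_insert`. -/
theorem sg_insert (e₀ : I₀ ↪ O₀) (e : I ↪ O) {s : I₀ → I} {i : I₀} {S : Finset I₀} (h : i ∉ S)
    (hs : ∀ j ∈ S, s i ≠ s j) :
    sg e₀ e s (insert i S) = (∏ j ∈ S, pr e₀ e s i j) * sg e₀ e s S := by
  unfold sg
  rw [Finset.prod_insert h]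
  have h1 : (insert i S).filter (fun k => e₀ k < e₀ i) = S.filter (fun k => e₀ k < e₀ i) := by
    rw [Finset.filter_insert, if_neg (lt_irrefl _)]
  have h2 : ∀ j ∈ S, ∏ k ∈ (insert i S).filter (fun k => e₀ k < e₀ j), ta e (s j) (s k) =
      (if e₀ i < e₀ j then ta e (s j) (s i) else 1) *
        ∏ k ∈ S.filter (fun k => e₀ k < e₀ j), ta e (s j) (s k) := by
    intro j _
    rw [Finset.filter_insert]
    by_cases h3 : e₀ i < e₀ j
    · rw [if_pos h3, if_pos h3, Finset.prod_insert]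
      exact fun h4 => h (Finset.mem_filter.1 h4).1
    · rw [if_neg h3, if_neg h3, one_mul]
  rw [h1, Finset.prod_congr rfl h2, Finset.prod_filter, ← Finset.prod_mul_distrib,
    ← Finset.prod_mul_distrib]
  refine Finset.prod_congr rfl fun j hj => ?_
  rw [← mul_assoc]
  have hij : i ≠ j := fun h4 => h (h4 ▸ hj)
  have hne : e₀ i ≠ e₀ j := fun h' => hij (e₀.injective h')
  have hg : s i ≠ s j := hs j hj
  have h5 : (if e₀ j < e₀ i then ta e (s i) (s j) else 1) *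
      (if e₀ i < e₀ j then ta e (s j) (s i) else 1) = pr e₀ e s i j := by
    unfold pr
    rcases lt_or_gt_of_ne hne with h6 | h6
    · rw [if_neg (not_lt.2 h6.le), if_pos h6, one_mul, ta_swap e hg]
      have h7 : ta e₀ i j = -1 := by
        unfold ta
        rw [if_pos h6]
      rw [h7]
      ring
    · rw [if_pos h6, if_neg (not_lt.2 h6.le), mul_one]
      have h7 : ta e₀ i j = 1 := by
        unfold ta
        rw [if_neg (not_lt.2 h6.le)]
      rw [h7, one_mul]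
  rw [h5]

theorem norm_sg (e₀ : I₀ ↪ O₀) (e : I ↪ O) (s : I₀ → I) (S : Finset I₀) :
    ‖sg e₀ e s S‖ = 1 := by
  unfold sg
  rw [norm_prod]
  refine Finset.prod_eq_one fun j _ => ?_
  rw [norm_prod]
  exact Finset.prod_eq_one fun j _ => norm_ta e _ _

theorem sg_mul_self (e₀ : I₀ ↪ O₀) (e : I ↪ O) (s : I₀ → I) (S : Finset I₀) :
    sg e₀ e s S * sg e₀ e s S = 1 := by
  unfold sg
  rw [← Finset.prod_mul_distrib]
  refine Finset.prod_eq_one fun j _ => ?_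
  rw [← Finset.prod_mul_distrib]
  exact Finset.prod_eq_one fun j _ => ta_mul_self e _ _

theorem conj_sg (e₀ : I₀ ↪ O₀) (e : I ↪ O) (s : I₀ → I) (S : Finset I₀) :
    (starRingEnd ℂ) (sg e₀ e s S) = sg e₀ e s S := by
  unfold sg
  rw [map_prod]
  refine Finset.prod_congr rfl fun j _ => ?_
  rw [map_prod]
  refine Finset.prod_congr rfl fun k _ => ?_
  unfold ta
  split_ifs <;> simp

theorem sg_id (e : I ↪ O) (S : Finset I) : sg e e id S = 1 := by
  unfold sg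
  refine Finset.prod_eq_one fun j _ => Finset.prod_eq_one fun k hk => ?_
  unfold ta
  rw [id, id, if_neg (not_lt.2 (Finset.mem_filter.1 hk).2.le)]

/-- FUNCTORIALITY. PROOF: induction on `S` with `sg_insert`, `pr_comp`. -/
theorem sg_comp (e₀ : I₀ ↪ O₀) (e₁ : I₁ ↪ O₁) (e : I ↪ O) (s' : I₀ → I₁) (s : I₁ → I)
    {S : Finset I₀} (hs : Set.InjOn (s ∘ s') S) :
    sg e₀ e (s ∘ s') S = sg e₁ e s (S.image s') * sg e₀ e₁ s' S := by
  induction S using Finset.induction_on with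
  | empty => rw [Finset.image_empty, sg_empty, sg_empty, sg_empty, one_mul]
  | insert i S hi ih =>
    have h0 : ∀ j ∈ S, (s ∘ s') i ≠ (s ∘ s') j := fun j hj h =>
      hi (hs (by simp) (by simp [hj]) h ▸ hj)
    have h1 : ∀ j ∈ S, s' i ≠ s' j := fun j hj h => h0 j hj (congrArg s h)
    have h2 : s' i ∉ S.image s' := by
      intro h
      obtain ⟨j, hj, hj'⟩ := Finset.mem_image.1 h
      exact h1 j hj hj'.symm
    have h3 : ∀ j ∈ S.image s', s (s' i) ≠ s j := by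
      intro j hj
      obtain ⟨k, hk, rfl⟩ := Finset.mem_image.1 hj
      exact h0 k hk
    have h4 : Set.InjOn (s ∘ s') (S : Set I₀) := hs.mono (by simp)
    have h5 : Set.InjOn s' (S : Set I₀) := fun a ha b hb hab => h4 ha hb (congrArg s hab)
    rw [Finset.image_insert, sg_insert e₀ e hi h0, sg_insert e₁ e h2 h3, sg_insert e₀ e₁ hi h1,
      ih h4, Finset.prod_image fun a ha b hb hab => h5 ha hb hab]
    have h6 : ∏ j ∈ S, pr e₀ e (s ∘ s') i j =
        (∏ j ∈ S, pr e₁ e s (s' i) (s' j)) * ∏ j ∈ S, pr e₀ e₁ s' i j := by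
      rw [← Finset.prod_mul_distrib]
      exact Finset.prod_congr rfl fun j _ => pr_comp e₀ e₁ e s' s i j
    rw [h6]
    ring

theorem sg_comp_map (e₀ : I₀ ↪ O₀) (e₁ : I₁ ↪ O₁) (e : I ↪ O) (s' : I₀ ↪ I₁) (s : I₁ ↪ I)
    (S : Finset I₀) :
    sg e₀ e (s'.trans s) S = sg e₁ e s (S.map s') * sg e₀ e₁ s' S := by
  have h := sg_comp e₀ e₁ e s' s (S := S) ((s.injective.comp s'.injective).injOn)
  rw [Finset.map_eq_image]
  exact h

/-- PROOF: as `Hs.ep_tg`. -/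
theorem sg_tg_prod (e₀ : I₀ ↪ O₀) (e : I ↪ O) {s : I₀ → I} {i : I₀} {S : Finset I₀}
    (hs : ∀ j ∈ S.erase i, s i ≠ s j) :
    sg e₀ e s (tg i S) = (∏ j ∈ S.erase i, pr e₀ e s i j) * sg e₀ e s S := by
  unfold tg
  by_cases hi : i ∈ S
  · rw [if_pos hi]
    have h1 := sg_insert e₀ e (i := i) (S := S.erase i) (Finset.notMem_erase i S) hs
    rw [Finset.insert_erase hi] at h1
    rw [h1, ← mul_assoc, prod_pr_mul_self, one_mul]
  · rw [if_neg hi]
    rw [Finset.erase_eq_of_notMem hi] at hs ⊢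
    exact sg_insert e₀ e hi hs

/-- THE SIGN IDENTITY of the Clifford operators. PROOF: as `Hs.D5c_sign`: `(S.image s).erase (s i)` is the image
of `S.erase i`, and `ta e (s i) (s j) = pr i j * ta e₀ i j`; `sg_tg_prod`. -/
theorem sg_tg (e₀ : I₀ ↪ O₀) (e : I ↪ O) {s : I₀ → I} {i : I₀} {S : Finset I₀}
    (hs : Set.InjOn s (insert i (S : Set I₀))) :
    th e (s i) (S.image s) * sg e₀ e s (tg i S) = sg e₀ e s S * th e₀ i S := by
  have h0 : ∀ j ∈ S.erase i, s i ≠ s j := by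
    intro j hj h
    have h1 := Finset.mem_erase.1 hj
    exact h1.1 (hs (Set.mem_insert_of_mem _ h1.2) (Set.mem_insert _ _) h.symm)
  have h1 : (S.image s).erase (s i) = (S.erase i).image s := by
    ext k
    rw [Finset.mem_erase, Finset.mem_image, Finset.mem_image]
    constructor
    · rintro ⟨h2, j, hj, rfl⟩
      exact ⟨j, Finset.mem_erase.2 ⟨fun h => h2 (congrArg s h), hj⟩, rfl⟩
    · rintro ⟨j, hj, rfl⟩
      exact ⟨(h0 j hj).symm, j, (Finset.mem_erase.1 hj).2, rfl⟩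
  have h2 : Set.InjOn s ((S.erase i : Finset I₀) : Set I₀) := fun a ha b hb hab =>
    hs (Set.mem_insert_of_mem _ (Finset.mem_erase.1 ha).2)
      (Set.mem_insert_of_mem _ (Finset.mem_erase.1 hb).2) hab
  have h3 : th e (s i) (S.image s) = (∏ j ∈ S.erase i, pr e₀ e s i j) * th e₀ i S := by
    unfold th
    rw [h1, Finset.prod_image fun a ha b hb hab => h2 ha hb hab, ← Finset.prod_mul_distrib]
    refine Finset.prod_congr rfl fun j _ => ?_
    unfold pr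
    have h4 := ta_mul_self e₀ i j
    calc ta e (s i) (s j) = (ta e₀ i j * ta e₀ i j) * ta e (s i) (s j) := by rw [h4, one_mul]
      _ = _ := by ring
  rw [h3, sg_tg_prod e₀ e h0]
  have h4 := prod_pr_mul_self e₀ e s i (S.erase i)
  calc _ = ((∏ j ∈ S.erase i, pr e₀ e s i j) * (∏ j ∈ S.erase i, pr e₀ e s i j)) *
        (sg e₀ e s S * th e₀ i S) := by ring
    _ = _ := by rw [h4, one_mul]

theorem sg_tg_map (e₀ : I₀ ↪ O₀) (e : I ↪ O) (s : I₀ ↪ I) (i : I₀) (S : Finset I₀) :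
    th e (s i) (S.map s) * sg e₀ e s (tg i S) = sg e₀ e s S * th e₀ i S := by
  rw [Finset.map_eq_image]
  exact sg_tg e₀ e s.injective.injOn

theorem tg_map (s : I₀ ↪ I) (i : I₀) (S : Finset I₀) : (tg i S).map s = tg (s i) (S.map s) := by
  ext k
  simp only [Finset.mem_map, mem_tg]
  constructor
  · rintro ⟨j, hj, rfl⟩
    rcases hj with ⟨rfl, h⟩ | ⟨h, h'⟩
    · refine Or.inl ⟨rfl, ?_⟩
      rintro ⟨a, ha, hab⟩
      exact h (s.injective hab ▸ ha)
    · exact Or.inr ⟨fun h2 => h (s.injective h2), j, h', rfl⟩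
  · rintro (⟨rfl, h⟩ | ⟨h, j, hj, rfl⟩)
    · exact ⟨i, Or.inl ⟨rfl, fun hi => h ⟨i, hi, rfl⟩⟩, rfl⟩
    · exact ⟨j, Or.inr ⟨fun h2 => h (congrArg s h2), hj⟩, rfl⟩

end Pool.Agent.Lib.MP_aa9b81_an.Cb
end

end


section
/-!
# Continuous Bernoulli, part F2: transport along injections
-/

open scoped ENNReal Topology
open Function

noncomputable section

set_option linter.unusedSectionVars false

namespace Pool.Agent.Lib.MP_aa9b81_an.Cb

open Cut Hs

variable {I I₀ I₁ O O₀ O₁ : Type} [DecidableEq I] [DecidableEq I₀] [DecidableEq I₁] [LinearOrder O]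
  [LinearOrder O₀] [LinearOrder O₁]

theorem Trs_wok (e₀ : I₀ ↪ O₀) (e : I ↪ O) (s : I₀ ↪ I) :
    WOK (mp s) (fun b => sg e₀ e s b.S) 1 :=
  ⟨zero_le_one, fun _ => (norm_sg e₀ e s _).le, fun _ _ _ _ h => mp_injective s h⟩

theorem Trs_apply (e₀ : I₀ ↪ O₀) (e : I ↪ O) (s : I₀ ↪ I) (ξ : L2 (Bs I)) (b : Bs I₀) :
    (Trs e₀ e s ξ : Bs I₀ → ℂ) b = sg e₀ e s b.S * (ξ : Bs I → ℂ) (mp s b) :=
  wop_apply (Trs_wok e₀ e s) ξ b

theorem norm_Trs_le (e₀ : I₀ ↪ O₀) (e : I ↪ O) (s : I₀ ↪ I) : ‖Trs e₀ e s‖ ≤ 1 :=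
  norm_wop_le (Trs_wok e₀ e s)

theorem norm_Tr_le (e₀ : I₀ ↪ O₀) (e : I ↪ O) (s : I₀ ↪ I) : ‖Tr e₀ e s‖ ≤ 1 := by
  unfold Tr
  rw [LinearIsometryEquiv.norm_map]
  exact norm_Trs_le e₀ e s

open Classical in
theorem bv_apply {B : Type} (b c : B) :
    (bv b : B → ℂ) c = if c = b then 1 else 0 := by
  rw [bv]
  by_cases h : c = b
  · subst h
    rw [if_pos rfl]
    exact lp.single_apply_self _ _ _
  · rw [if_neg h]
    exact lp.single_apply_ne _ _ _ h

theorem inner_bv_left {B : Type} (b : B) (ξ : L2 B) : inner ℂ (bv b) ξ = (ξ : B → ℂ) b := by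
  classical
  rw [bv, lp.inner_single_left]
  simp

theorem ext_bv {B : Type} {ξ η : L2 B} (h : ∀ b, (inner ℂ (bv b) ξ : ℂ) = inner ℂ (bv b) η) :
    ξ = η := by
  ext b
  have := h b
  rwa [inner_bv_left, inner_bv_left] at this

theorem Tr_apply_mp (e₀ : I₀ ↪ O₀) (e : I ↪ O) (s : I₀ ↪ I) (ξ : L2 (Bs I₀)) (b : Bs I₀) :
    (Tr e₀ e s ξ : Bs I → ℂ) (mp s b) = sg e₀ e s b.S * (ξ : Bs I₀ → ℂ) b := by
  classical
  rw [← inner_bv_left, Tr, ContinuousLinearMap.adjoint_inner_right]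
  have h1 : Trs e₀ e s (bv (mp s b)) = sg e₀ e s b.S • bv b := by
    ext c
    rw [Trs_apply, bv_apply, lp.coeFn_smul, Pi.smul_apply, bv_apply, smul_eq_mul]
    by_cases h : c = b
    · subst h
      rw [if_pos rfl, if_pos rfl]
    · rw [if_neg h, if_neg fun h' => h (mp_injective s h'), mul_zero, mul_zero]
  rw [h1, inner_smul_left, inner_bv_left, conj_sg]

theorem Tr_apply_of_not (e₀ : I₀ ↪ O₀) (e : I ↪ O) (s : I₀ ↪ I) (ξ : L2 (Bs I₀)) {c : Bs I}
    (h : ∀ b, mp s b ≠ c) : (Tr e₀ e s ξ : Bs I → ℂ) c = 0 := by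
  classical
  rw [← inner_bv_left, Tr, ContinuousLinearMap.adjoint_inner_right]
  have h1 : Trs e₀ e s (bv c) = 0 := by
    ext b
    rw [Trs_apply, bv_apply, if_neg (h b), mul_zero]
    rfl
  rw [h1, inner_zero_left]

theorem Tr_bv (e₀ : I₀ ↪ O₀) (e : I ↪ O) (s : I₀ ↪ I) (b : Bs I₀) :
    Tr e₀ e s (bv b) = sg e₀ e s b.S • bv (mp s b) := by
  classical
  ext c
  rw [lp.coeFn_smul, Pi.smul_apply, bv_apply, smul_eq_mul]
  by_cases h : ∃ b', mp s b' = c
  · obtain ⟨b', rfl⟩ := h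
    rw [Tr_apply_mp, bv_apply]
    by_cases h' : b' = b
    · subst h'
      rw [if_pos rfl, if_pos rfl]
    · rw [if_neg h', if_neg fun h2 => h' (mp_injective s h2), mul_zero, mul_zero]
  · rw [Tr_apply_of_not e₀ e s _ fun b' h' => h ⟨b', h'⟩, if_neg fun h' => h ⟨b, h'.symm⟩, mul_zero]

theorem Trs_Tr (e₀ : I₀ ↪ O₀) (e : I ↪ O) (s : I₀ ↪ I) :
    (Trs e₀ e s).comp (Tr e₀ e s) = ContinuousLinearMap.id ℂ _ := by
  refine ContinuousLinearMap.ext fun ξ => ?_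
  ext b
  rw [ContinuousLinearMap.comp_apply, Trs_apply, Tr_apply_mp, ← mul_assoc, sg_mul_self, one_mul]
  rfl

/-- The pairs in the image. -/
theorem exists_mp (s : I₀ ↪ I) {c : Bs I} (h : (c.F : Set I) ⊆ Set.range s) :
    ∃ b, mp s b = c := by
  have h1 : ∀ A : Finset I, (A : Set I) ⊆ Set.range s →
      (A.preimage s s.injective.injOn).map s = A := by
    intro A hA
    ext k
    rw [Finset.mem_map]
    constructor
    · rintro ⟨j, hj, rfl⟩
      exact Finset.mem_preimage.1 hj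
    · intro hk
      obtain ⟨j, rfl⟩ := hA hk
      exact ⟨j, Finset.mem_preimage.2 hk, rfl⟩
  refine ⟨Bs.mk (c.F.preimage s s.injective.injOn) (c.S.preimage s s.injective.injOn) ?_, ?_⟩
  · intro j hj
    exact Finset.mem_preimage.2 (c.sub (Finset.mem_preimage.1 hj))
  · refine Bs.ext ?_ ?_
    · rw [mp_F, Bs.mk_F, h1 _ h]
    · rw [mp_S, Bs.mk_S, h1 _ fun k hk => h (c.sub hk)]

theorem mp_range (s : I₀ ↪ I) (b : Bs I₀) : ((mp s b).F : Set I) ⊆ Set.range s := by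
  rw [mp_F, Finset.coe_map]
  exact Set.image_subset_range _ _

theorem Tr_Trs (e₀ : I₀ ↪ O₀) (e : I ↪ O) (s : I₀ ↪ I) :
    (Tr e₀ e s).comp (Trs e₀ e s) = Es (Set.range s) := by
  classical
  refine ContinuousLinearMap.ext fun ξ => ?_
  ext c
  rw [ContinuousLinearMap.comp_apply, Es_apply]
  by_cases h : (c.F : Set I) ⊆ Set.range s
  · obtain ⟨b, rfl⟩ := exists_mp s h
    rw [if_pos h, Tr_apply_mp, Trs_apply, ← mul_assoc, sg_mul_self, one_mul]
  · rw [if_neg h, Tr_apply_of_not]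
    intro b hb
    exact h (hb ▸ mp_range s b)

theorem Trs_trans (e₀ : I₀ ↪ O₀) (e₁ : I₁ ↪ O₁) (e : I ↪ O) (s' : I₀ ↪ I₁) (s : I₁ ↪ I) :
    Trs e₀ e (s'.trans s) = (Trs e₀ e₁ s').comp (Trs e₁ e s) := by
  refine ContinuousLinearMap.ext fun ξ => ?_
  ext b
  rw [ContinuousLinearMap.comp_apply, Trs_apply, Trs_apply, Trs_apply, sg_comp_map e₀ e₁ e]
  have h : mp (s'.trans s) b = mp s (mp s' b) :=
    Bs.ext (by simp [Finset.map_map]) (by simp [Finset.map_map])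
  rw [h, mp_S]
  ring

theorem Tr_trans (e₀ : I₀ ↪ O₀) (e₁ : I₁ ↪ O₁) (e : I ↪ O) (s' : I₀ ↪ I₁) (s : I₁ ↪ I) :
    Tr e₀ e (s'.trans s) = (Tr e₁ e s).comp (Tr e₀ e₁ s') := by
  unfold Tr
  rw [Trs_trans e₀ e₁ e, ContinuousLinearMap.adjoint_comp]

theorem Trs_comp_Tr (e₀ : I₀ ↪ O₀) (e : I ↪ O) (s : I₀ ↪ I) :
    (Trs e₀ e s).comp (Tr e₀ e s) = 1 := Trs_Tr e₀ e s

theorem Tr_comp_Tr (e₀ : I₀ ↪ O₀) (e₁ : I₁ ↪ O₁) (e : I ↪ O) (s : I₀ ↪ I₁) (s' : I₁ ↪ I) :
    (Tr e₁ e s').comp (Tr e₀ e₁ s) = Tr e₀ e (s.trans s') := (Tr_trans e₀ e₁ e s s').symm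

theorem Trs_refl (e : I ↪ O) : Trs e e (Embedding.refl I) = ContinuousLinearMap.id ℂ _ := by
  refine ContinuousLinearMap.ext fun ξ => ?_
  ext b
  rw [Trs_apply]
  have h : mp (Embedding.refl I) b = b := Bs.ext (by simp) (by simp)
  have h' : sg e e (Embedding.refl I) b.S = 1 := sg_id e b.S
  rw [h, h', one_mul]
  rfl

theorem Tr_refl (e : I ↪ O) : Tr e e (Embedding.refl I) = ContinuousLinearMap.id ℂ _ := by
  unfold Tr
  rw [Trs_refl]
  exact ContinuousLinearMap.adjoint_id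

end Pool.Agent.Lib.MP_aa9b81_an.Cb
end

end
end

section

/-!
# Continuous Bernoulli, part Sc: strongly continuous bounded families of operators
-/

open scoped ENNReal Topology
open Function Filter

noncomputable section

namespace Pool.Agent.Lib.MP_aa9b81_an.Cb

open Cut Hs

variable {Z Z' J J' J'' : Type} [TopologicalSpace Z] [TopologicalSpace Z']

/-! ### Basis vectors -/

/-- PROOF: `lp.hasSum_single`; `lp.single 2 b (c) = c • lp.single 2 b 1`. -/
theorem hasSum_bv (ξ : L2 J) : HasSum (fun b => (ξ : J → ℂ) b • bv b) ξ := by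
  classical
  have h := lp.hasSum_single (E := fun _ : J => ℂ) (p := 2) (by simp) ξ
  have e : (fun b => (ξ : J → ℂ) b • (bv b : L2 J)) =
      fun b => lp.single (E := fun _ : J => ℂ) 2 b ((ξ : J → ℂ) b) := by
    funext b
    ext c
    rw [lp.coeFn_smul, Pi.smul_apply, bv_apply, smul_eq_mul]
    by_cases hc : c = b
    · subst hc
      rw [if_pos rfl, mul_one, lp.single_apply_self]
    · rw [if_neg hc, mul_zero, lp.single_apply_ne _ _ _ hc]
  rw [e]
  exact h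

/-- PROOF: `bv_apply`, coordinates. -/
theorem dia_bv {f : J → ℂ} {C : ℝ} (h : ∀ b, ‖f b‖ ≤ C) (b : J) : dia f (bv b) = f b • bv b := by
  have hC : 0 ≤ C := (norm_nonneg _).trans (h b)
  ext c
  rw [dia_apply hC h, lp.coeFn_smul, Pi.smul_apply, bv_apply, smul_eq_mul]
  by_cases hc : c = b
  · subst hc
    rw [if_pos rfl]
  · rw [if_neg hc, mul_zero, mul_zero]

theorem norm_bv (b : J) : ‖(bv b : L2 J)‖ = 1 := by
  classical
  have h : (‖(bv b : L2 J)‖ : ℝ) ^ 2 = 1 := by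
    have h1 := inner_self_eq_norm_sq_to_K (𝕜 := ℂ) (bv b : L2 J)
    rw [inner_bv_left, bv_apply, if_pos rfl] at h1
    have h2 := congrArg Complex.re h1.symm
    have h3 : ((‖(bv b : L2 J)‖ : ℂ) ^ 2) = ((‖(bv b : L2 J)‖ ^ 2 : ℝ) : ℂ) := by push_cast; rfl
    rw [Complex.one_re] at h2
    change ((‖(bv b : L2 J)‖ : ℂ) ^ 2).re = 1 at h2
    rwa [h3, Complex.ofReal_re] at h2
  have h0 := norm_nonneg (bv b : L2 J)
  nlinarith

/-! ### Strongly continuous families -/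

/-- `m` is a bounded strongly continuous family of operators. -/
structure SC (m : Z → (L2 J →L[ℂ] L2 J')) : Prop where
  cont : ∀ v, Continuous fun z => m z v
  bdd : ∃ C : ℝ, ∀ z, ‖m z‖ ≤ C

/-- PROOF: `‖m z v - m z₀ v₀‖ ≤ C ‖v - v₀‖ + ‖m z v₀ - m z₀ v₀‖`. -/
theorem SC.continuous_uncurry {m : Z → (L2 J →L[ℂ] L2 J')} (h : SC m) :
    Continuous fun p : Z × L2 J => m p.1 p.2 := by
  obtain ⟨C, hC⟩ := h.bdd
  rw [continuous_iff_continuousAt]
  rintro ⟨z₀, v₀⟩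
  rw [ContinuousAt, tendsto_iff_norm_sub_tendsto_zero]
  have h1 : Tendsto (fun p : Z × L2 J => C * ‖p.2 - v₀‖ + ‖m p.1 v₀ - m z₀ v₀‖) (𝓝 (z₀, v₀))
      (𝓝 0) := by
    have c1 : Continuous fun p : Z × L2 J => C * ‖p.2 - v₀‖ + ‖m p.1 v₀ - m z₀ v₀‖ := by
      have := (h.cont v₀).comp (continuous_fst (X := Z) (Y := L2 J))
      exact (continuous_const.mul (continuous_snd.sub continuous_const).norm).add
        (this.sub continuous_const).norm
    have := c1.tendsto (z₀, v₀)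
    simpa using this
  refine squeeze_zero (fun _ => norm_nonneg _) (fun p => ?_) h1
  have h2 : m p.1 p.2 - m z₀ v₀ = m p.1 (p.2 - v₀) + (m p.1 v₀ - m z₀ v₀) := by
    rw [map_sub]; abel
  change ‖m p.1 p.2 - m z₀ v₀‖ ≤ _
  rw [h2]
  refine (norm_add_le _ _).trans ?_
  gcongr
  exact (ContinuousLinearMap.le_opNorm _ _).trans
    (mul_le_mul_of_nonneg_right (hC _) (norm_nonneg _))

theorem SC.const (T : L2 J →L[ℂ] L2 J') : SC fun _ : Z => T :=
  ⟨fun _ => continuous_const, ⟨‖T‖, fun _ => le_rfl⟩⟩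

/-- PROOF: `continuous_uncurry`. -/
theorem SC.apply {m : Z → (L2 J →L[ℂ] L2 J')} (h : SC m) {v : Z → L2 J} (hv : Continuous v) :
    Continuous fun z => m z (v z) := h.continuous_uncurry.comp (continuous_id.prodMk hv)

/-- PROOF: `SC.apply`; the norms. -/
theorem SC.comp {m : Z → (L2 J' →L[ℂ] L2 J'')} {m' : Z → (L2 J →L[ℂ] L2 J')} (h : SC m)
    (h' : SC m') : SC fun z => (m z).comp (m' z) := by
  obtain ⟨C, hC⟩ := h.bdd
  obtain ⟨C', hC'⟩ := h'.bdd
  refine ⟨fun v => h.apply (h'.cont v), C * C', fun z => ?_⟩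
  refine (ContinuousLinearMap.opNorm_comp_le _ _).trans ?_
  exact mul_le_mul (hC z) (hC' z) (norm_nonneg _) ((norm_nonneg _).trans (hC z))

theorem SC.add {m m' : Z → (L2 J →L[ℂ] L2 J')} (h : SC m) (h' : SC m') :
    SC fun z => m z + m' z := by
  obtain ⟨C, hC⟩ := h.bdd
  obtain ⟨C', hC'⟩ := h'.bdd
  exact ⟨fun v => (h.cont v).add (h'.cont v), C + C',
    fun z => (norm_add_le _ _).trans (add_le_add (hC z) (hC' z))⟩

theorem SC.sub {m m' : Z → (L2 J →L[ℂ] L2 J')} (h : SC m) (h' : SC m') :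
    SC fun z => m z - m' z := by
  obtain ⟨C, hC⟩ := h.bdd
  obtain ⟨C', hC'⟩ := h'.bdd
  exact ⟨fun v => (h.cont v).sub (h'.cont v), C + C',
    fun z => (norm_sub_le _ _).trans (add_le_add (hC z) (hC' z))⟩

theorem SC.smul {m : Z → (L2 J →L[ℂ] L2 J')} (h : SC m) {c : Z → ℂ} (hc : Continuous c)
    {C : ℝ} (hC : ∀ z, ‖c z‖ ≤ C) : SC fun z => c z • m z := by
  obtain ⟨C', hC'⟩ := h.bdd
  refine ⟨fun v => hc.smul (h.cont v), C * C', fun z => ?_⟩
  rw [norm_smul]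
  exact mul_le_mul (hC z) (hC' z) (norm_nonneg _) ((norm_nonneg _).trans (hC z))

theorem SC.precomp {m : Z → (L2 J →L[ℂ] L2 J')} (h : SC m) {r : Z' → Z} (hr : Continuous r) :
    SC fun z => m (r z) :=
  ⟨fun v => (h.cont v).comp hr, ⟨h.bdd.choose, fun z => h.bdd.choose_spec (r z)⟩⟩

/-- PROOF: norm continuity implies strong continuity (`Continuous.clm_apply`). -/
theorem SC.of_norm {m : Z → (L2 J →L[ℂ] L2 J')} (h : Continuous m) {C : ℝ} (hC : ∀ z, ‖m z‖ ≤ C) :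
    SC m :=
  ⟨fun _ => h.clm_apply continuous_const, C, hC⟩

private theorem Sc_tendsto_aux {m : Z → (L2 J →L[ℂ] L2 J')} {m₀ : L2 J →L[ℂ] L2 J'} {l : Filter Z} {C : ℝ}
    (hC : ∀ z, ‖m z‖ ≤ C) (hC₀ : ‖m₀‖ ≤ C) (h : ∀ j, Tendsto (fun z => m z (bv j)) l (𝓝 (m₀ (bv j))))
    (v : L2 J) : Tendsto (fun z => m z v) l (𝓝 (m₀ v)) := by
  have hC0 : 0 ≤ C := (norm_nonneg _).trans hC₀
  rw [Metric.tendsto_nhds]
  intro ε hε
  have h1 := hasSum_bv v
  obtain ⟨F, hF⟩ := ((Metric.tendsto_nhds.1 h1) (ε / (4 * (C + 1))) (by positivity)).exists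
  set s : L2 J := ∑ b ∈ F, (v : J → ℂ) b • bv b with hs
  have h2 : Tendsto (fun z => m z s) l (𝓝 (m₀ s)) := by
    simp only [hs, map_sum, map_smul]
    exact tendsto_finsetSum _ fun b _ => (h b).const_smul _
  filter_upwards [(Metric.tendsto_nhds.1 h2) (ε / 2) (by positivity)] with z hz
  rw [dist_eq_norm] at hF hz ⊢
  have h3 : m z v - m₀ v = m z (v - s) + (m z s - m₀ s) - m₀ (v - s) := by
    rw [map_sub, map_sub]; abel
  have h4 : ‖v - s‖ < ε / (4 * (C + 1)) := by rwa [norm_sub_rev]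
  have h5 : C * ‖v - s‖ ≤ ε / 4 := by
    have : C * ‖v - s‖ ≤ (C + 1) * (ε / (4 * (C + 1))) :=
      mul_le_mul (by linarith) h4.le (norm_nonneg _) (by linarith)
    refine this.trans (le_of_eq ?_)
    field_simp
  have h6 : ‖m z (v - s)‖ ≤ ε / 4 :=
    ((ContinuousLinearMap.le_opNorm _ _).trans
      (mul_le_mul_of_nonneg_right (hC z) (norm_nonneg _))).trans h5
  have h7 : ‖m₀ (v - s)‖ ≤ ε / 4 :=
    ((ContinuousLinearMap.le_opNorm _ _).trans
      (mul_le_mul_of_nonneg_right hC₀ (norm_nonneg _))).trans h5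
  rw [h3]
  have h8 := norm_sub_le (m z (v - s) + (m z s - m₀ s)) (m₀ (v - s))
  have h9 := norm_add_le (m z (v - s)) (m z s - m₀ s)
  linarith

/-- It is enough to check basis vectors. PROOF: the vectors `v` with `z ↦ m z v` continuous form a closed
subspace (uniform limits: `‖m z v - m z v'‖ ≤ C ‖v - v'‖`) which contains the `bv j`, so everything
(the finite sums of the `bv j` are dense in `ℓ²`: `lp.hasSum_single`). -/
theorem SC.of_bv {m : Z → (L2 J →L[ℂ] L2 J')} {C : ℝ} (hC : ∀ z, ‖m z‖ ≤ C)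
    (h : ∀ j, Continuous fun z => m z (bv j)) : SC m := by
  refine ⟨fun v => ?_, C, hC⟩
  rw [continuous_iff_continuousAt]
  intro z₀
  exact Sc_tendsto_aux hC (hC z₀) (fun j => (h j).tendsto z₀) v

/-- The local form of `SC.of_bv`, along a filter. PROOF: the same, `‖m z v - m₀ v‖ ≤ 2 C ‖v - v'‖ + ‖m z v' - m₀ v'‖`. -/
theorem tendsto_of_bv {m : Z → (L2 J →L[ℂ] L2 J')} {m₀ : L2 J →L[ℂ] L2 J'} {l : Filter Z} {C : ℝ}
    (hC : ∀ z, ‖m z‖ ≤ C) (hC₀ : ‖m₀‖ ≤ C) (h : ∀ j, Tendsto (fun z => m z (bv j)) l (𝓝 (m₀ (bv j))))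
    (v : L2 J) : Tendsto (fun z => m z v) l (𝓝 (m₀ v)) :=
  Sc_tendsto_aux hC hC₀ h v

private theorem Sc_limit_aux {m : Z → (L2 J →L[ℂ] L2 J')} {C : ℝ} (hC : ∀ z, ‖m z‖ ≤ C)
    (h : ∀ z₀, ∀ ε : ℝ, 0 < ε → ∃ m' : Z → (L2 J →L[ℂ] L2 J'), SC m' ∧
      ∀ᶠ z in 𝓝 z₀, ‖m z - m' z‖ ≤ ε) : SC m := by
  refine ⟨fun v => ?_, C, hC⟩
  rw [continuous_iff_continuousAt]
  intro z₀
  rw [ContinuousAt, Metric.tendsto_nhds]
  intro ε hε
  have hv : 0 < ‖v‖ + 1 := by positivity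
  obtain ⟨m', hm', he⟩ := h z₀ (ε / (4 * (‖v‖ + 1))) (by positivity)
  have he0 := he.self_of_nhds
  have hm2 := (Metric.tendsto_nhds.1 ((hm'.cont v).tendsto z₀)) (ε / 2) (by positivity)
  filter_upwards [he, hm2] with z h1 h2
  rw [dist_eq_norm] at h2 ⊢
  have key : ∀ w, ‖m w - m' w‖ ≤ ε / (4 * (‖v‖ + 1)) → ‖m w v - m' w v‖ ≤ ε / 4 := by
    intro w hw
    rw [← sub_apply]
    refine (ContinuousLinearMap.le_opNorm _ _).trans ?_
    have : ‖m w - m' w‖ * ‖v‖ ≤ (ε / (4 * (‖v‖ + 1))) * (‖v‖ + 1) :=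
      mul_le_mul hw (by linarith) (norm_nonneg _) (by positivity)
    refine this.trans (le_of_eq ?_)
    field_simp
  have k1 := key z h1
  have k2 := key z₀ he0
  have h3 : m z v - m z₀ v = (m z v - m' z v) + (m' z v - m' z₀ v) - (m z₀ v - m' z₀ v) := by
    abel
  rw [h3]
  have h8 := norm_sub_le ((m z v - m' z v) + (m' z v - m' z₀ v)) (m z₀ v - m' z₀ v)
  have h9 := norm_add_le (m z v - m' z v) (m' z v - m' z₀ v)
  linarith

/-- Uniform limits of strongly continuous families. PROOF: `ε / 3`. -/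
theorem SC.of_limit {m : Z → (L2 J →L[ℂ] L2 J')}
    (h : ∀ ε : ℝ, 0 < ε → ∃ m' : Z → (L2 J →L[ℂ] L2 J'), SC m' ∧ ∀ z, ‖m z - m' z‖ ≤ ε) : SC m := by
  obtain ⟨m₁, h₁, h₂⟩ := h 1 one_pos
  obtain ⟨C, hC⟩ := h₁.bdd
  refine Sc_limit_aux (C := 1 + C) (fun z => ?_) fun z₀ ε hε => ?_
  · have : m z = (m z - m₁ z) + m₁ z := by abel
    rw [this]
    exact (norm_add_le _ _).trans (add_le_add (h₂ z) (hC z))
  · obtain ⟨m', h3, h4⟩ := h ε hε
    exact ⟨m', h3, Eventually.of_forall h4⟩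

/-- Local version of `SC.of_limit`. PROOF: at `z₀` and for `v`: `‖m z v - m z₀ v‖ ≤ ε ‖v‖ + ‖m' z v - m' z₀ v‖ + ε ‖v‖` for `z` near `z₀`
(the estimate holds at `z₀` itself by `Eventually.self_of_nhds`). -/
theorem SC.of_limit_loc {m : Z → (L2 J →L[ℂ] L2 J')} {C : ℝ} (hC : ∀ z, ‖m z‖ ≤ C)
    (h : ∀ z₀, ∀ ε : ℝ, 0 < ε → ∃ m' : Z → (L2 J →L[ℂ] L2 J'), SC m' ∧
      ∀ᶠ z in 𝓝 z₀, ‖m z - m' z‖ ≤ ε) : SC m :=
  Sc_limit_aux hC h

end Pool.Agent.Lib.MP_aa9b81_an.Cb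
end
end

section

/-!
# Continuous Bernoulli, part La: the Hilbert space `L²(G, ℓ²(J))` and multiplication operators
-/

open scoped ENNReal Topology
open Function Filter MeasureTheory

noncomputable section

set_option linter.unusedSectionVars false

namespace Pool.Agent.Lib.MP_aa9b81_an.Cb

open Cut Hs

/-- A left Haar measure of `G`. -/
abbrev mu (G : Type) [Group G] [TopologicalSpace G] [IsTopologicalGroup G]
    [LocallyCompactSpace G] [MeasurableSpace G] [BorelSpace G] : Measure G := Measure.haar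

/-- The Hilbert space `L²(G, ℓ²(J))`. -/
abbrev HG (G J : Type) [Group G] [TopologicalSpace G] [IsTopologicalGroup G]
    [LocallyCompactSpace G] [MeasurableSpace G] [BorelSpace G] : Type := Lp (L2 J) 2 (mu G)

variable {G J J' J'' : Type} [Group G] [TopologicalSpace G] [IsTopologicalGroup G]
  [LocallyCompactSpace G] [SecondCountableTopology G] [T2Space G] [MeasurableSpace G] [BorelSpace G]

/-- PROOF: let `K` be a compact neighbourhood of `1` (or: an open set with compact closure): a measurable set with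
`0 < mu K < ∞` (`IsOpen.measure_pos`, `IsCompact.measure_lt_top`). `indicatorConstLp 2 _ _ (bv j)` has norm
`mu(K) ^ (1/2) * 1 ≠ 0` (`norm_indicatorConstLp`). -/
instance instNontrivialHG [Nonempty J] : Nontrivial (HG G J) := by
  obtain ⟨K, hK, hK1⟩ := exists_compact_mem_nhds (1 : G)
  have hm : MeasurableSet K := hK.measurableSet
  have hpos : 0 < mu G K := Measure.measure_pos_of_mem_nhds _ hK1
  have hfin : mu G K ≠ ⊤ := hK.measure_lt_top.ne
  obtain ⟨j⟩ := ‹Nonempty J›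
  refine ⟨⟨indicatorConstLp 2 hm hfin (bv j), 0, fun h0 => ?_⟩⟩
  have h1 : ‖indicatorConstLp 2 hm hfin (bv j)‖ = 0 := by rw [h0, norm_zero]
  rw [norm_indicatorConstLp (by norm_num) (by norm_num), norm_bv, one_mul] at h1
  have h2 : 0 < (mu G).real K := ENNReal.toReal_pos hpos.ne' hfin
  exact (Real.rpow_pos_of_pos h2 _).ne' h1

/-- Measurability. PROOF: `h.continuous_uncurry` composed with `z ↦ (z, ξ' z)`, `ξ'` a strongly measurable
representative of `ξ` (`AEStronglyMeasurable.mk`); `Continuous.comp_stronglyMeasurable`; the identity of `Z` is strongly measurable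
(`stronglyMeasurable_id`), `StronglyMeasurable.prodMk`. -/
theorem SC.aesm {Z : Type} [TopologicalSpace Z] [MeasurableSpace Z] [OpensMeasurableSpace Z]
    [SecondCountableTopology Z] [TopologicalSpace.PseudoMetrizableSpace Z] {ν : Measure Z}
    {m : Z → (L2 J →L[ℂ] L2 J')} (h : SC m) {ξ : Z → L2 J} (hξ : AEStronglyMeasurable ξ ν) :
    AEStronglyMeasurable (fun z => m z (ξ z)) ν := by
  obtain ⟨ξ', hξ', hae⟩ := hξ
  refine ⟨fun z => m z (ξ' z), ?_, ?_⟩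
  · exact h.continuous_uncurry.comp_stronglyMeasurable (stronglyMeasurable_id.prodMk hξ')
  · filter_upwards [hae] with z hz
    rw [hz]

/-- PROOF: `Memℒp` version: `G` is metrizable (`TopologicalSpace.metrizableSpace_of_t3_secondCountable`), so `SC.aesm`;
`‖m a (ξ a)‖ ≤ C ‖ξ a‖` (`MemLp.of_le_mul`); linear in `ξ` up to null sets (`Lp.coeFn_add`, `Lp.coeFn_smul`, `MemLp.toLp_add`-like);
`LinearMap.mkContinuous` (`Lp.norm_le_mul_norm_of_ae_le_mul`). -/
theorem exists_Mul {m : G → (L2 J →L[ℂ] L2 J')} (h : SC m) {C : ℝ} (hC : ∀ a, ‖m a‖ ≤ C) :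
    ∃ T : HG G J →L[ℂ] HG G J', ‖T‖ ≤ C ∧
      ∀ ξ : HG G J, (T ξ : G → L2 J') =ᵐ[mu G] fun a => m a (ξ a) := by
  haveI : TopologicalSpace.MetrizableSpace G :=
    TopologicalSpace.metrizableSpace_of_t3_secondCountable G
  have hC0 : 0 ≤ C := (norm_nonneg _).trans (hC 1)
  have hle : ∀ (ξ : HG G J) (a : G), ‖m a (ξ a)‖ ≤ C * ‖ξ a‖ := fun ξ a =>
    (m a).le_of_opNorm_le (hC a) _
  have hmem : ∀ ξ : HG G J, MemLp (fun a => m a (ξ a)) 2 (mu G) := fun ξ =>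
    (Lp.memLp ξ).of_le_mul (h.aesm (Lp.aestronglyMeasurable ξ)) (ae_of_all _ (hle ξ))
  let T0 : HG G J →ₗ[ℂ] HG G J' :=
    { toFun := fun ξ => (hmem ξ).toLp _
      map_add' := fun ξ η => by
        rw [← MemLp.toLp_add]
        apply MemLp.toLp_congr
        filter_upwards [Lp.coeFn_add ξ η] with a ha
        rw [ha]
        simp only [Pi.add_apply, map_add]
      map_smul' := fun c ξ => by
        simp only [RingHom.id_apply]
        rw [← MemLp.toLp_const_smul]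
        apply MemLp.toLp_congr
        filter_upwards [Lp.coeFn_smul c ξ] with a ha
        rw [ha]
        simp only [Pi.smul_apply, map_smul] }
  have hT0 : ∀ ξ : HG G J, (T0 ξ : G → L2 J') =ᵐ[mu G] fun a => m a (ξ a) := fun ξ =>
    MemLp.coeFn_toLp (hmem ξ)
  have hb : ∀ ξ : HG G J, ‖T0 ξ‖ ≤ C * ‖ξ‖ := fun ξ => by
    apply Lp.norm_le_mul_norm_of_ae_le_mul
    filter_upwards [hT0 ξ] with a ha
    rw [ha]
    exact hle ξ a
  refine ⟨T0.mkContinuous C hb, T0.mkContinuous_norm_le hC0 hb, fun ξ => ?_⟩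
  exact hT0 ξ

open Classical in
/-- The multiplication operator `(Mul m ξ)(a) = m(a) ξ(a)`. -/
def Mul (m : G → (L2 J →L[ℂ] L2 J')) : HG G J →L[ℂ] HG G J' :=
  if h : SC m then (exists_Mul h h.bdd.choose_spec).choose else 0

theorem Mul_ae {m : G → (L2 J →L[ℂ] L2 J')} (h : SC m) (ξ : HG G J) :
    (Mul m ξ : G → L2 J') =ᵐ[mu G] fun a => m a (ξ a) := by
  rw [Mul, dif_pos h]
  exact (exists_Mul h h.bdd.choose_spec).choose_spec.2 ξ

/-- Two operators with the same values almost everywhere are equal. -/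
theorem ext_ae {T T' : HG G J →L[ℂ] HG G J'}
    (h : ∀ ξ : HG G J, (T ξ : G → L2 J') =ᵐ[mu G] T' ξ) : T = T' :=
  ContinuousLinearMap.ext fun ξ => Lp.ext (h ξ)

/-- PROOF: the operator of `exists_Mul` with the bound `C` is equal to `Mul m` (`ext_ae`, `Mul_ae`). -/
theorem norm_Mul_le {m : G → (L2 J →L[ℂ] L2 J')} (h : SC m) {C : ℝ} (hC : ∀ a, ‖m a‖ ≤ C) :
    ‖Mul m‖ ≤ C := by
  obtain ⟨T, hT, hT'⟩ := exists_Mul h hC
  have h1 : Mul m = T := ext_ae fun ξ => (Mul_ae h ξ).trans (hT' ξ).symm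
  rw [h1]
  exact hT

end Pool.Agent.Lib.MP_aa9b81_an.Cb
end
end

section

/-!
# Continuous Bernoulli, part F3: transport of the Clifford operators, functions and rotations
-/

open scoped ENNReal Topology
open Function

noncomputable section

set_option linter.unusedSectionVars false

namespace Pool.Agent.Lib.MP_aa9b81_an.Cb

open Cut Hs

variable {I I₀ O O₀ : Type} [DecidableEq I] [DecidableEq I₀] [LinearOrder O] [LinearOrder O₀]

/-- The coefficients, pulled back along `s`. -/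
def pc (s : I₀ ↪ I) (a : Finset I → I → ℝ) (F : Finset I₀) (i : I₀) : ℝ := a (F.map s) (s i)

theorem CB_pc (s : I₀ ↪ I) {a : Finset I → I → ℝ} {C : ℝ} (h : CB a C) : CB (pc s a) C := by
  refine ⟨h.nonneg, fun F => ?_⟩
  have h1 := h.bdd (F.map s)
  rw [Finset.sum_map] at h1
  exact h1

theorem mp_tog (s : I₀ ↪ I) {i : I₀} {b : Bs I₀} (hi : i ∈ b.F) :
    mp s (tog i b) = tog (s i) (mp s b) := by
  have h1 := tog_of_mem hi
  have h2 : s i ∈ (mp s b).F := by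
    rw [mp_F, Finset.mem_map']
    exact hi
  have h3 := tog_of_mem h2
  refine Bs.ext ?_ ?_
  · rw [mp_F, h1.1, h3.1, mp_F]
  · rw [mp_S, h1.2, h3.2, mp_S, tg_map]

/-- PROOF: coordinates, `sg_tg_map`. -/
theorem Trs_Cl (e₀ : I₀ ↪ O₀) (e : I ↪ O) (s : I₀ ↪ I) {a : Finset I → I → ℝ} {C : ℝ}
    (h : CB a C) : (Trs e₀ e s).comp (Cl e a) = (Cl e₀ (pc s a)).comp (Trs e₀ e s) := by
  refine ContinuousLinearMap.ext fun ξ => ?_
  ext b
  rw [ContinuousLinearMap.comp_apply, ContinuousLinearMap.comp_apply, Trs_apply, Cl_apply e h,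
    Cl_apply e₀ (CB_pc s h), clF, clF, mp_F, Finset.sum_map, Finset.mul_sum]
  refine Finset.sum_congr rfl fun i hi => ?_
  have h1 := sg_tg_map e₀ e s i b.S
  have h2 : ((Trs e₀ e s) ξ : Bs I₀ → ℂ) (tog i b) =
      sg e₀ e s (tg i b.S) * (ξ : Bs I → ℂ) (tog (s i) (mp s b)) := by
    rw [Trs_apply, (tog_of_mem hi).2, mp_tog s hi]
  rw [h2, mp_S, pc]
  have h3 : sg e₀ e s b.S * th e (s i) (b.S.map s) = th e₀ i b.S * sg e₀ e s (tg i b.S) := by
    have h4 := sg_mul_self e₀ e s (tg i b.S)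
    have h5 := th_mul_self e₀ i b.S
    calc sg e₀ e s b.S * th e (s i) (b.S.map s)
        = (sg e₀ e s b.S * th e₀ i b.S) * th e₀ i b.S * th e (s i) (b.S.map s) := by
          rw [mul_assoc (sg e₀ e s b.S), h5, mul_one]
      _ = (th e (s i) (b.S.map s) * sg e₀ e s (tg i b.S)) * th e₀ i b.S *
          th e (s i) (b.S.map s) := by rw [h1]
      _ = (th e (s i) (b.S.map s) * th e (s i) (b.S.map s)) *
          (th e₀ i b.S * sg e₀ e s (tg i b.S)) := by ring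
      _ = _ := by rw [th_mul_self, one_mul]
  linear_combination ((a (b.F.map s) (s i) : ℂ) * (ξ : Bs I → ℂ) (tog (s i) (mp s b))) * h3

/-- Operators with the same adjoints on the basis vectors are equal. -/
theorem ext_adjoint {B B' : Type} {T T' : L2 B →L[ℂ] L2 B'}
    (h : ∀ b, ContinuousLinearMap.adjoint T (bv b) = ContinuousLinearMap.adjoint T' (bv b)) :
    T = T' := by
  refine ContinuousLinearMap.ext fun ξ => ext_bv fun b => ?_
  rw [← ContinuousLinearMap.adjoint_inner_left, ← ContinuousLinearMap.adjoint_inner_left, h]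

/-- Operators which agree on the basis vectors are equal. -/
theorem ext_op {B B' : Type} {T T' : L2 B →L[ℂ] L2 B'} (h : ∀ b, T (bv b) = T' (bv b)) :
    T = T' := by
  have h1 : ContinuousLinearMap.adjoint T = ContinuousLinearMap.adjoint T' := by
    refine ext_adjoint fun b => ?_
    rw [ContinuousLinearMap.adjoint_adjoint, ContinuousLinearMap.adjoint_adjoint, h]
  have h2 := congrArg ContinuousLinearMap.adjoint h1
  rwa [ContinuousLinearMap.adjoint_adjoint, ContinuousLinearMap.adjoint_adjoint] at h2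

theorem tog_tog {i : I} {b : Bs I} (hi : i ∈ b.F) : tog i (tog i b) = b := by
  have h1 := tog_of_mem hi
  have h2 : i ∈ (tog i b).F := by rw [h1.1]; exact hi
  have h3 := tog_of_mem h2
  refine Bs.ext ?_ ?_
  · rw [h3.1, h1.1]
  · rw [h3.2, h1.2, tg_tg]

/-- The Clifford operators are self adjoint. PROOF: the matrix entries are
`⟪bv b, Cl (bv b')⟫ = ∑_{i ∈ F} a_F(i) θ(i, S) [tog i b = b']`, and `tog i b = b' ↔ b = tog i b'` for
`i ∈ F = F'`. -/
theorem adjoint_Cl (e : I ↪ O) {a : Finset I → I → ℝ} {C : ℝ} (h : CB a C) :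
    ContinuousLinearMap.adjoint (Cl e a) = Cl e a := by
  classical
  have key : ∀ b b' : Bs I, clF e a (bv b' : L2 (Bs I)) b =
      (starRingEnd ℂ) (clF e a (bv b : L2 (Bs I)) b') := by
    intro b b'
    rw [clF, clF, map_sum]
    by_cases hF : b.F = b'.F
    · rw [← hF]
      refine Finset.sum_congr rfl fun i hi => ?_
      have hi' : i ∈ b'.F := hF ▸ hi
      rw [map_mul, map_mul, Complex.conj_ofReal, conj_th, bv_apply, bv_apply]
      by_cases h1 : tog i b = b'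
      · have h2 : tog i b' = b := by rw [← h1, tog_tog hi]
        rw [if_pos h1, if_pos h2, map_one, ← h1, (tog_of_mem hi).2, th_tg_self]
      · have h2 : tog i b' ≠ b := fun h3 => h1 (by rw [← h3, tog_tog hi'])
        rw [if_neg h1, if_neg h2, map_zero, mul_zero, mul_zero, mul_zero, mul_zero]
    · rw [Finset.sum_eq_zero, Finset.sum_eq_zero]
      · intro i hi
        rw [bv_apply, if_neg, mul_zero, mul_zero, map_zero]
        intro h1
        exact hF (by rw [← h1, (tog_of_mem hi).1])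
      · intro i hi
        rw [bv_apply, if_neg, mul_zero, mul_zero]
        intro h1
        exact hF (by rw [← h1, (tog_of_mem hi).1])
  refine ext_op fun b => ?_
  ext b'
  rw [Cl_apply e h, ← inner_bv_left, ContinuousLinearMap.adjoint_inner_right, key b' b,
    ← Cl_apply e h, ← inner_bv_left, inner_conj_symm]

/-- PROOF: adjoint of `Trs_Cl`. -/
theorem Cl_Tr (e₀ : I₀ ↪ O₀) (e : I ↪ O) (s : I₀ ↪ I) {a : Finset I → I → ℝ} {C : ℝ}
    (h : CB a C) : (Cl e a).comp (Tr e₀ e s) = (Tr e₀ e s).comp (Cl e₀ (pc s a)) := by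
  have h1 := congrArg ContinuousLinearMap.adjoint (Trs_Cl e₀ e s h)
  rw [ContinuousLinearMap.adjoint_comp, ContinuousLinearMap.adjoint_comp, adjoint_Cl e h,
    adjoint_Cl e₀ (CB_pc s h)] at h1
  exact h1

/-- PROOF: coordinates (`Tr_apply_mp`, `Tr_apply_of_not`). -/
theorem dia_Tr (e₀ : I₀ ↪ O₀) (e : I ↪ O) (s : I₀ ↪ I) {φ : Bs I → ℂ} {C : ℝ} (hC : 0 ≤ C)
    (h : ∀ b, ‖φ b‖ ≤ C) :
    (dia φ).comp (Tr e₀ e s) = (Tr e₀ e s).comp (dia fun b => φ (mp s b)) := by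
  refine ContinuousLinearMap.ext fun ξ => ?_
  ext c
  rw [ContinuousLinearMap.comp_apply, ContinuousLinearMap.comp_apply, dia_apply hC h]
  by_cases hc : ∃ b, mp s b = c
  · obtain ⟨b, rfl⟩ := hc
    rw [Tr_apply_mp, Tr_apply_mp, dia_apply hC fun b => h (mp s b)]
    ring
  · rw [Tr_apply_of_not e₀ e s _ fun b hb => hc ⟨b, hb⟩,
      Tr_apply_of_not e₀ e s _ fun b hb => hc ⟨b, hb⟩, mul_zero]

theorem Trs_dia (e₀ : I₀ ↪ O₀) (e : I ↪ O) (s : I₀ ↪ I) {φ : Bs I → ℂ} {C : ℝ} (hC : 0 ≤ C)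
    (h : ∀ b, ‖φ b‖ ≤ C) :
    (Trs e₀ e s).comp (dia φ) = (dia fun b => φ (mp s b)).comp (Trs e₀ e s) := by
  refine ContinuousLinearMap.ext fun ξ => ?_
  ext b
  rw [ContinuousLinearMap.comp_apply, ContinuousLinearMap.comp_apply, Trs_apply, dia_apply hC h,
    dia_apply hC fun b => h (mp s b), Trs_apply]
  ring

theorem mp_fl (s : I₀ ↪ I) (i : I₀) (b : Bs I₀) : mp s (fl i b) = fl (s i) (mp s b) := by
  by_cases h : i ∈ b.S
  · have h' : s i ∈ (mp s b).S := by rw [mp_S, Finset.mem_map']; exact h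
    rw [D6_fl_of_mem h, D6_fl_of_mem h']
  · have h' : s i ∉ (mp s b).S := by rw [mp_S, Finset.mem_map']; exact h
    refine Bs.ext ?_ ?_
    · rw [mp_F, D7_fl_F h, D7_fl_F h', mp_F, tg_map]
    · rw [mp_S, D7_fl_S, D7_fl_S, mp_S]

theorem Jw_mp (s : I₀ ↪ I) (i : I₀) (b : Bs I₀) : Jw (s i) (mp s b) = Jw i b := by
  unfold Jw
  simp only [mp_S, mp_F, Finset.mem_map']

/-- PROOF: coordinates, `D7_Ui_apply`, `mp_fl`, `Jw_mp`. -/
theorem Trs_Ui (e₀ : I₀ ↪ O₀) (e : I ↪ O) (s : I₀ ↪ I) (i : I₀) (φ : ℝ) :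
    (Trs e₀ e s).comp (Ui (s i) φ) = (Ui i φ).comp (Trs e₀ e s) := by
  refine ContinuousLinearMap.ext fun ξ => ?_
  ext b
  rw [ContinuousLinearMap.comp_apply, ContinuousLinearMap.comp_apply, Trs_apply, D7_Ui_apply,
    D7_Ui_apply, Trs_apply, Trs_apply, Jw_mp, ← mp_fl, D7_fl_S]
  simp only [mp_S, Finset.mem_map']
  split_ifs <;> ring

/-- PROOF: `⟪Ui φ ξ, η⟫ = ⟪ξ, Ui (-φ) η⟫` by `inner_Ji`, `inner_Ni` (compare `Hs.norm_Ui_le`). -/
theorem adjoint_Ui (i : I) (φ : ℝ) : ContinuousLinearMap.adjoint (Ui i φ) = Ui i (-φ) := by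
  symm
  rw [ContinuousLinearMap.eq_adjoint_iff]
  intro ξ η
  have h1 : ∀ (θ : ℝ) (ζ : L2 (Bs I)), Ui i θ ζ =
      ζ + (((Real.cos θ - 1 : ℝ) : ℂ) • Ni i ζ) + ((Real.sin θ : ℝ) : ℂ) • Ji i ζ := by
    intro θ ζ
    simp [Ui]
  rw [h1, h1, inner_add_left, inner_add_left, inner_add_right, inner_add_right,
    inner_smul_left, inner_smul_left, inner_smul_right, inner_smul_right, inner_Ni, inner_Ji,
    Complex.conj_ofReal, Complex.conj_ofReal, Real.cos_neg, Real.sin_neg]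
  push_cast
  ring

/-- PROOF: adjoint of `Trs_Ui` for `-φ`. -/
theorem Ui_Tr (e₀ : I₀ ↪ O₀) (e : I ↪ O) (s : I₀ ↪ I) (i : I₀) (φ : ℝ) :
    (Ui (s i) φ).comp (Tr e₀ e s) = (Tr e₀ e s).comp (Ui i φ) := by
  have h1 := congrArg ContinuousLinearMap.adjoint (Trs_Ui e₀ e s i (-φ))
  rw [ContinuousLinearMap.adjoint_comp, ContinuousLinearMap.adjoint_comp, adjoint_Ui, adjoint_Ui,
    neg_neg] at h1
  exact h1

/-- PROOF: induction on `K`, `Ui_Tr`, `UK_insert`. -/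
theorem UK_Tr (e₀ : I₀ ↪ O₀) (e : I ↪ O) (s : I₀ ↪ I) (K : Finset I₀) (φ : ℝ) :
    (UK (K.map s) φ : BL (Bs I)).comp (Tr e₀ e s) =
      (Tr e₀ e s).comp (UK K φ : BL (Bs I₀)) := by
  classical
  induction K using Finset.induction_on with
  | empty =>
    rw [Finset.map_empty, UK_empty, UK_empty]
    rfl
  | insert i K hi ih =>
    have h1 : s i ∉ K.map s := by rw [Finset.mem_map']; exact hi
    have h2 : ((Uu i φ : (BL (Bs I₀))ˣ) : BL (Bs I₀)) = Ui i φ := rfl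
    have h3 : ((Uu (s i) φ : (BL (Bs I))ˣ) : BL (Bs I)) = Ui (s i) φ := rfl
    rw [Finset.map_insert, UK_insert h1, UK_insert hi, Units.val_mul, Units.val_mul, h2, h3]
    show (Ui (s i) φ).comp ((UK (K.map s) φ : BL (Bs I)).comp (Tr e₀ e s)) =
      ((Tr e₀ e s).comp (Ui i φ)).comp (UK K φ : BL (Bs I₀))
    rw [ih, ← Ui_Tr]
    rfl

theorem UK_inv (K : Finset I) (φ : ℝ) :
    ((UK K φ)⁻¹ : (BL (Bs I))ˣ).val = (UK K (-φ) : BL (Bs I)) := by
  classical
  induction K using Finset.induction_on with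
  | empty => rw [UK_empty, UK_empty, inv_one]
  | insert i K hi ih =>
    have h2 : (((Uu i φ)⁻¹ : (BL (Bs I))ˣ) : BL (Bs I)) = Ui i (-φ) := rfl
    have h3 : ((Uu i (-φ) : (BL (Bs I))ˣ) : BL (Bs I)) = Ui i (-φ) := rfl
    rw [UK_insert hi, UK_insert hi, mul_inv_rev, Units.val_mul, Units.val_mul, ih, h2, h3]
    exact (UK_comm fun j _ => Ui_comm j i (-φ) (-φ))

theorem adjoint_UK (K : Finset I) (φ : ℝ) :
    ContinuousLinearMap.adjoint (UK K φ : BL (Bs I)) = (UK K (-φ) : BL (Bs I)) := by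
  classical
  induction K using Finset.induction_on with
  | empty =>
    rw [UK_empty, UK_empty]
    exact ContinuousLinearMap.adjoint_id
  | insert i K hi ih =>
    have h2 : ((Uu i φ : (BL (Bs I))ˣ) : BL (Bs I)) = Ui i φ := rfl
    have h3 : ((Uu i (-φ) : (BL (Bs I))ˣ) : BL (Bs I)) = Ui i (-φ) := rfl
    rw [UK_insert hi, UK_insert hi, Units.val_mul, Units.val_mul, h2, h3]
    show ContinuousLinearMap.adjoint ((Ui i φ).comp (UK K φ : BL (Bs I))) = _
    rw [ContinuousLinearMap.adjoint_comp, ih, adjoint_Ui]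
    exact (UK_comm fun j _ => Ui_comm j i (-φ) (-φ))

theorem UK_mul_UK_neg (K : Finset I) (φ : ℝ) :
    (UK K φ : BL (Bs I)) * (UK K (-φ) : BL (Bs I)) = 1 := by
  rw [← UK_inv, Units.mul_inv]

theorem UK_neg_mul_UK (K : Finset I) (φ : ℝ) :
    (UK K (-φ) : BL (Bs I)) * (UK K φ : BL (Bs I)) = 1 := by
  rw [← UK_inv, Units.inv_mul]

end Pool.Agent.Lib.MP_aa9b81_an.Cb
end
end

section

/-!
# Continuous Bernoulli, part F4: the signed action of a group on the pairs of finite sets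
-/

open scoped ENNReal Topology
open Function

noncomputable section

set_option linter.unusedSectionVars false

namespace Pool.Agent.Lib.MP_aa9b81_an.Cb

open Cut Hs

variable {Γ I O : Type} [Group Γ] [MulAction Γ I] [DecidableEq I] [LinearOrder O]

/-- The translation by `g` as an embedding. -/
def gs (g : Γ) : I ↪ I := (MulAction.toPerm g).toEmbedding

@[simp] lemma gs_apply (g : Γ) (i : I) : gs g i = g • i := rfl

lemma mp_gs (g : Γ) (b : Bs I) : mp (gs g) b = g • b := rfl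

lemma map_gs (g : Γ) (F : Finset I) : F.map (gs g) = gF g F := rfl

lemma gs_mul (g h : Γ) : (gs (g * h) : I ↪ I) = (gs h).trans (gs g) := by
  ext i
  simp [mul_smul]

lemma gs_one : (gs (1 : Γ) : I ↪ I) = Embedding.refl I := by
  ext i
  simp

/-- The unitary `e_(F,S) ↦ ± e_(gF,gS)`. -/
def Wg (e : I ↪ O) (g : Γ) : BL (Bs I) := Tr e e (gs g)

theorem Wg_bv (e : I ↪ O) (g : Γ) (b : Bs I) :
    Wg e g (bv b) = sg e e (fun i => g • i) b.S • bv (g • b) := Tr_bv e e (gs g) b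

theorem norm_Wg_le (e : I ↪ O) (g : Γ) : ‖(Wg e g : BL (Bs I))‖ ≤ 1 := norm_Tr_le e e (gs g)

theorem Wg_one (e : I ↪ O) : (Wg e (1 : Γ) : BL (Bs I)) = 1 := by
  unfold Wg
  rw [gs_one]
  exact Tr_refl e

theorem Wg_mul (e : I ↪ O) (g h : Γ) : (Wg e (g * h) : BL (Bs I)) = Wg e g * Wg e h := by
  unfold Wg
  rw [gs_mul, Tr_trans e e e]
  rfl

theorem Wg_mul_inv (e : I ↪ O) (g : Γ) : (Wg e g * Wg e g⁻¹ : BL (Bs I)) = 1 := by
  rw [← Wg_mul, mul_inv_cancel, Wg_one]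

theorem Wg_inv_mul (e : I ↪ O) (g : Γ) : (Wg e g⁻¹ * Wg e g : BL (Bs I)) = 1 := by
  rw [← Wg_mul, inv_mul_cancel, Wg_one]

theorem Wg_apply (e : I ↪ O) (g : Γ) (ξ : L2 (Bs I)) (b : Bs I) :
    (Wg e g ξ : Bs I → ℂ) b = sg e e (fun i => g • i) (gF g⁻¹ b.S) *
      (ξ : Bs I → ℂ) (g⁻¹ • b) := by
  have h := Tr_apply_mp e e (gs g) ξ (g⁻¹ • b)
  rw [mp_gs, smul_inv_smul] at h
  exact h

theorem adjoint_Wg (e : I ↪ O) (g : Γ) :
    ContinuousLinearMap.adjoint (Wg e g : BL (Bs I)) = Wg e g⁻¹ := by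
  have h1 : (Trs e e (gs g) : BL (Bs I)) = Wg e g⁻¹ := by
    have h2 : (Trs e e (gs g)).comp (Wg e g : BL (Bs I)) = ContinuousLinearMap.id ℂ _ :=
      Trs_Tr e e (gs g)
    have h3 : (Trs e e (gs g) : BL (Bs I)) * Wg e g = 1 := h2
    calc (Trs e e (gs g) : BL (Bs I)) = Trs e e (gs g) * (Wg e g * Wg e g⁻¹) := by
          rw [Wg_mul_inv, mul_one]
      _ = Wg e g⁻¹ := by rw [← mul_assoc, h3, one_mul]
  rw [← h1, Wg, Tr, ContinuousLinearMap.adjoint_adjoint]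

/-- PROOF: `CB.smul`-like. -/
theorem CB_smul {a : Finset I → I → ℝ} {C : ℝ} (h : CB a C) (g : Γ) :
    CB (fun F i => a (gF g⁻¹ F) (g⁻¹ • i)) C := h.smul g

/-- COVARIANCE of the Clifford operators. -/
theorem Wg_Cl (e : I ↪ O) {a : Finset I → I → ℝ} {C : ℝ} (h : CB a C) (g : Γ) :
    Wg e g * Cl e a = Cl e (fun F i => a (gF g⁻¹ F) (g⁻¹ • i)) * Wg e g := by
  have h1 := Cl_Tr e e (gs g) (h.smul g)
  have h2 : pc (gs g) (fun F i => a (gF g⁻¹ F) (g⁻¹ • i)) = a := by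
    funext F i
    unfold pc
    rw [map_gs, gs_apply]
    show a (gF g⁻¹ (gF g F)) (g⁻¹ • (g • i)) = a F i
    rw [← gF_mul, inv_mul_cancel, gF_one, inv_smul_smul]
  rw [h2] at h1
  exact h1.symm

theorem Wg_dia (e : I ↪ O) {φ : Bs I → ℂ} {C : ℝ} (hC : 0 ≤ C) (h : ∀ b, ‖φ b‖ ≤ C) (g : Γ) :
    Wg e g * dia φ = dia (fun b => φ (g⁻¹ • b)) * Wg e g := by
  have h1 := dia_Tr e e (gs g) hC (φ := fun b => φ (g⁻¹ • b)) fun b => h _
  have h2 : (fun b : Bs I => φ (g⁻¹ • mp (gs g) b)) = φ := by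
    funext b
    rw [mp_gs, inv_smul_smul]
  rw [h2] at h1
  exact h1.symm

theorem Wg_UK (e : I ↪ O) (g : Γ) (K : Finset I) (φ : ℝ) :
    Wg e g * (UK K φ : BL (Bs I)) = (UK (gF g K) φ : BL (Bs I)) * Wg e g :=
  (UK_Tr e e (gs g) K φ).symm

/-- PROOF: `Wg_dia`: `(gF g⁻¹ F) ⊆ D ↔ F ⊆ {i | g⁻¹ i ∈ D}`. -/
theorem Wg_Es (e : I ↪ O) (g : Γ) (D : Set I) :
    Wg e g * Es D = Es ((fun i => g⁻¹ • i) ⁻¹' D) * Wg e g := by
  classical
  refine ContinuousLinearMap.ext fun ξ => ?_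
  ext b
  rw [mul_apply_eq_comp, mul_apply_eq_comp, Wg_apply, Es_apply, Es_apply,
    Wg_apply]
  have h : ((g⁻¹ • b).F : Set I) ⊆ D ↔ (b.F : Set I) ⊆ (fun i => g⁻¹ • i) ⁻¹' D := by
    constructor
    · intro h i hi
      refine h ?_
      rw [Bs.smul_F, Finset.mem_coe, mem_gF, inv_inv, smul_inv_smul]
      exact hi
    · intro h i hi
      rw [Bs.smul_F, Finset.mem_coe, mem_gF, inv_inv] at hi
      have := h hi
      simpa using this
  by_cases h1 : ((g⁻¹ • b).F : Set I) ⊆ D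
  · rw [if_pos h1, if_pos (h.1 h1)]
  · rw [if_neg h1, if_neg fun h2 => h1 (h.2 h2), mul_zero]

/-- For the translations of a group. -/
theorem Wg_eq {G : Type} [Group G] [DecidableEq G] (e : G ↪ O) (g : G) :
    (Wg e g : BL (Bs G)) = Tr e e (mulLeftEmbedding g) := rfl

theorem Wg_Pp (e : I ↪ O) (g : Γ) : Wg e g * Pp = (Pp : BL (Bs I)) * Wg e g := by
  rw [Pp, Wg_dia e zero_le_one (fun b => by split_ifs <;> simp) g]
  congr 2
  funext b
  rw [Bs.smul_S, card_gF]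

theorem Wg_Pm (e : I ↪ O) (g : Γ) : Wg e g * Pm = (Pm : BL (Bs I)) * Wg e g := by
  rw [Pm, Wg_dia e zero_le_one (fun b => by split_ifs <;> simp) g]
  congr 2
  funext b
  rw [Bs.smul_S, card_gF]

end Pool.Agent.Lib.MP_aa9b81_an.Cb
end
end
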