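import Pool.Agent.Lib.MP_aa9b81_an.Mg.G061
import Pool.Agent.Lib.MP_aa9b81_an.Mg.G059
import Pool.Agent.Lib.MP_aa9b81_an.Mg.G064

section

/-!
# Continuous Bernoulli, part Vf: instances of `LocAt`, the slices
-/

open scoped ENNReal Topology
open Function Filter

noncomputable section

namespace Pool.Agent.Lib.MP_aa9b81_an.Cb

open Cut Hs

variable {G O Zp : Type} [Group G] [TopologicalSpace G] [LinearOrder O] [TopologicalSpace Zp]
  {V : Set G}

omit [Group G] [TopologicalSpace G] in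
private theorem Vf_finite (L : Finset G) : Finite (Bs L) :=
  inferInstanceAs (Finite {b : Finset L × Finset L // b.2 ⊆ b.1})

/-- Multiplication operators. PROOF: `L₀ = L₁ = L`, `N₀ = dia fun β => h z₀ (mp (iL L) β)`. By `dia_Tr` the difference is `Tr (s z)` composed with
`dia fun β => h z (mp (s z) β) - h z₀ (mp (iL L) β)`; `Bs L` is finite, so the supremum of the absolute values of this function is `≤ ε` for `z` near `z₀`
(`norm_Tr_le`, `norm_dia_le`). -/
theorem LocAt_dia (e : G ↪ O) {D : Zp → Set G} {h : Zp → Bs G → ℂ} {C : ℝ}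
    (hC : ∀ z b, ‖h z b‖ ≤ C) (z₀ : Zp)
    (hh : ∀ (L : Finset G), (L : Set G) ⊆ D z₀ → ∀ s : Zp → (L ↪ G), LSec D z₀ L s →
      ∀ β : Bs L, Tendsto (fun z => h z (mp (s z) β)) (𝓝 z₀) (𝓝 (h z₀ (mp (iL L) β)))) :
    LocAt e D (fun z => dia (h z)) z₀ := by
  classical
  intro ε hε L₁ hL₁
  refine ⟨L₁, Finset.Subset.refl _, hL₁, dia fun β => h z₀ (mp (iL L₁) β), fun s hs => ?_⟩
  have hC0 : 0 ≤ C := (norm_nonneg _).trans (hC z₀ Bs.vac)
  have hfin : Finite (Bs L₁) := Vf_finite L₁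
  have h1 : ∀ᶠ z in 𝓝 z₀, ∀ β : Bs L₁,
      ‖h z (mp (s z) β) - h z₀ (mp (iL L₁) β)‖ ≤ ε := by
    rw [eventually_all]
    intro β
    filter_upwards [Metric.tendsto_nhds.1 (hh L₁ hL₁ s hs β) ε hε] with z hz
    rw [← dist_eq_norm]
    exact hz.le
  filter_upwards [h1] with z hz
  have h3 : (dia (h z)).comp (Tr (eL e L₁) e (s z)) =
      (Tr (eL e L₁) e (s z)).comp (dia fun b => h z (mp (s z) b)) := dia_Tr _ _ _ hC0 (hC z)
  have h4 : (dia fun b => h z (mp (s z) b)) - dia (fun β => h z₀ (mp (iL L₁) β)) =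
      dia (fun β => h z (mp (s z) β) - h z₀ (mp (iL L₁) β)) := by
    refine ContinuousLinearMap.ext fun ξ => ?_
    ext β
    rw [dia_apply hε.le hz]
    show (dia (fun b => h z (mp (s z) b)) ξ : Bs L₁ → ℂ) β -
      (dia (fun β => h z₀ (mp (iL L₁) β)) ξ : Bs L₁ → ℂ) β = _
    rw [dia_apply hC0 (fun b => hC z _), dia_apply hC0 (fun b => hC z₀ _)]
    ring
  rw [h3, ← ContinuousLinearMap.comp_sub, h4]
  calc _ ≤ ‖Tr (eL e L₁) e (s z)‖ *
        ‖dia (fun β => h z (mp (s z) β) - h z₀ (mp (iL L₁) β))‖ :=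
        ContinuousLinearMap.opNorm_comp_le _ _
    _ ≤ 1 * ε := mul_le_mul (norm_Tr_le _ _ _) (norm_dia_le hε.le hz) (norm_nonneg _) zero_le_one
    _ = ε := one_mul _

/-- Clifford operators. PROOF: `L₀ = L₁ = L`, `N₀ = Cl (eL e L) (pc (iL L) u)`. By `Cl_Tr` the difference is `Tr (s z)` composed with `Cl (eL e L) (pc (s z) u) - Cl (eL e L) (pc (iL L) u)`, which is the Clifford operator of the
difference of the coefficients (`Cl_sub`), of norm at most the supremum over the finitely many `F` of the square root of `∑_{i ∈ F} (u (F.map (s z)) (s z i) - u (F.map (iL L)) i) ^ 2` (`norm_Cl_le`: `CB a C` for this `C`); it tends to `0`. -/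
theorem LocAt_Cl [DecidableEq G] (e : G ↪ O) {D : Zp → Set G} {u : Finset G → G → ℝ} {C : ℝ} (hu : CB u C)
    (z₀ : Zp)
    (hh : ∀ (L : Finset G), (L : Set G) ⊆ D z₀ → ∀ s : Zp → (L ↪ G), LSec D z₀ L s →
      ∀ (F : Finset L) (i : L), Tendsto (fun z => u (F.map (s z)) (s z i)) (𝓝 z₀)
        (𝓝 (u (F.map (iL L)) i))) :
    LocAt e D (fun _ => Cl e u) z₀ := by
  intro ε hε L₁ hL₁
  refine ⟨L₁, Finset.Subset.refl _, hL₁, Cl (eL e L₁) (pc (iL L₁) u), fun s hs => ?_⟩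
  have h1 : ∀ᶠ z in 𝓝 z₀, ∀ F : Finset L₁,
      ∑ i ∈ F, (pc (s z) u F i - pc (iL L₁) u F i) ^ 2 ≤ ε ^ 2 := by
    rw [eventually_all]
    intro F
    have h2 : Tendsto (fun z => ∑ i ∈ F, (pc (s z) u F i - pc (iL L₁) u F i) ^ 2) (𝓝 z₀)
        (𝓝 (∑ i ∈ F, (pc (iL L₁) u F i - pc (iL L₁) u F i) ^ 2)) := by
      refine tendsto_finsetSum _ fun i _ => ?_
      exact ((hh L₁ hL₁ s hs F i).sub_const _).pow 2
    have h3 : (∑ i ∈ F, (pc (iL L₁) u F i - pc (iL L₁) u F i) ^ 2) = 0 :=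
      Finset.sum_eq_zero fun i _ => by rw [sub_self]; norm_num
    rw [h3] at h2
    exact (h2.eventually_lt_const (by positivity : (0 : ℝ) < ε ^ 2)).mono fun z hz => hz.le
  filter_upwards [h1] with z hz
  have h3 : (Cl e u).comp (Tr (eL e L₁) e (s z)) =
      (Tr (eL e L₁) e (s z)).comp (Cl (eL e L₁) (pc (s z) u)) := Cl_Tr _ _ _ hu
  have h4 := Cl_sub (eL e L₁) (CB_pc (s z) hu) (CB_pc (iL L₁) hu)
  have h5 : CB (fun F i => pc (s z) u F i - pc (iL L₁) u F i) ε := ⟨hε.le, hz⟩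
  rw [h3, ← ContinuousLinearMap.comp_sub, ← h4]
  calc _ ≤ ‖Tr (eL e L₁) e (s z)‖ *
        ‖Cl (eL e L₁) (fun F i => pc (s z) u F i - pc (iL L₁) u F i)‖ :=
        ContinuousLinearMap.opNorm_comp_le _ _
    _ ≤ 1 * ε := mul_le_mul (norm_Tr_le _ _ _) (norm_Cl_le _ h5) (norm_nonneg _) zero_le_one
    _ = ε := one_mul _

/-- PROOF: `0` is compatible. -/
theorem LocAt_zero (e : G ↪ O) {D : Zp → Set G} (z₀ : Zp) :
    LocAt e D (fun _ => (0 : BL (Bs G))) z₀ := by
  intro ε hε L₁ hL₁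
  refine ⟨L₁, Finset.Subset.refl _, hL₁, 0, fun s _ => Eventually.of_forall fun z => ?_⟩
  rw [ContinuousLinearMap.zero_comp, ContinuousLinearMap.comp_zero, sub_zero, norm_zero]
  exact hε.le

variable (χ : Part V)

/-- The slice `V_{a⁻¹ D} W_a⁻¹` of the isometry, in absolute coordinates. -/
def Part.Va (e : G ↪ O) (D : ClV V) (a : G) : L2 (Bs G) →L[ℂ] L2 (Bs ℕ) :=
  (χ.Vd e (a⁻¹ • D).s).comp (Wg e a⁻¹)

/-- Its adjoint. -/
def Part.Vb (e : G ↪ O) (D : ClV V) (a : G) : L2 (Bs ℕ) →L[ℂ] L2 (Bs G) :=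
  (Wg e a).comp (χ.Vs e (a⁻¹ • D).s)

/-- PROOF: `norm_Vd_le`, `norm_Wg_le`. -/
theorem norm_Va_le (e : G ↪ O) (D : ClV V) (a : G) : ‖χ.Va e D a‖ ≤ 1 := by
  classical
  calc _ ≤ ‖χ.Vd e (a⁻¹ • D).s‖ * ‖(Wg e a⁻¹ : BL (Bs G))‖ :=
        ContinuousLinearMap.opNorm_comp_le _ _
    _ ≤ 1 * 1 := mul_le_mul (norm_Vd_le χ e (a⁻¹ • D).sep) (norm_Wg_le e _) (norm_nonneg _)
        zero_le_one
    _ = 1 := one_mul _

theorem norm_Vb_le (e : G ↪ O) (D : ClV V) (a : G) : ‖χ.Vb e D a‖ ≤ 1 := by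
  classical
  calc _ ≤ ‖(Wg e a : BL (Bs G))‖ * ‖χ.Vs e (a⁻¹ • D).s‖ :=
        ContinuousLinearMap.opNorm_comp_le _ _
    _ ≤ 1 * 1 := mul_le_mul (norm_Wg_le e _) (norm_Vs_le χ e (a⁻¹ • D).sep) (norm_nonneg _)
        zero_le_one
    _ = 1 := one_mul _

/-- PROOF: `Vs_comp_Vd`, `Wg_Es`, `Wg_mul_inv`: `W_a Es(a⁻¹ D) W_a⁻¹ = Es D`. -/
theorem Vb_comp_Va (e : G ↪ O) (D : ClV V) (a : G) :
    (χ.Vb e D a).comp (χ.Va e D a) = Es D.s := by
  classical
  have h1 := Vs_comp_Vd χ e (a⁻¹ • D).sep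
  have h2 := Wg_Es e a (a⁻¹ • D).s
  have h3 : (fun i : G => a⁻¹ • i) ⁻¹' (a⁻¹ • D).s = D.s := by
    ext x
    simp
  have h4 : (Wg e a * Wg e a⁻¹ : BL (Bs G)) = 1 := Wg_mul_inv e a
  calc (χ.Vb e D a).comp (χ.Va e D a)
      = Wg e a * ((χ.Vs e (a⁻¹ • D).s).comp (χ.Vd e (a⁻¹ • D).s)) * Wg e a⁻¹ := rfl
    _ = Wg e a * Es (a⁻¹ • D).s * Wg e a⁻¹ := by rw [h1]
    _ = Es D.s * (Wg e a * Wg e a⁻¹) := by rw [h2, h3, mul_assoc]
    _ = Es D.s := by rw [h4, mul_one]

/-- PROOF: `Vd_comp_Es`, `Wg_Es`. -/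
theorem Va_comp_Es (e : G ↪ O) (D : ClV V) (a : G) :
    (χ.Va e D a).comp (Es D.s) = χ.Va e D a := by
  classical
  have h2 := Wg_Es e a⁻¹ D.s
  have h3 : (fun i : G => (a⁻¹)⁻¹ • i) ⁻¹' D.s = (a⁻¹ • D).s := rfl
  rw [h3] at h2
  calc (χ.Va e D a).comp (Es D.s)
      = (χ.Vd e (a⁻¹ • D).s).comp (Wg e a⁻¹ * Es D.s) := rfl
    _ = ((χ.Vd e (a⁻¹ • D).s).comp (Es (a⁻¹ • D).s)).comp (Wg e a⁻¹) := by rw [h2]; rfl
    _ = χ.Va e D a := by rw [Vd_comp_Es χ e (a⁻¹ • D).sep]; rfl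

theorem Es_comp_Vb (e : G ↪ O) (D : ClV V) (a : G) :
    (Es D.s).comp (χ.Vb e D a) = χ.Vb e D a := by
  classical
  have h2 := Wg_Es e a (a⁻¹ • D).s
  have h3 : (fun i : G => a⁻¹ • i) ⁻¹' (a⁻¹ • D).s = D.s := by
    ext x
    simp
  rw [h3] at h2
  calc (Es D.s).comp (χ.Vb e D a)
      = (Es D.s * Wg e a).comp (χ.Vs e (a⁻¹ • D).s) := rfl
    _ = (Wg e a).comp ((Es (a⁻¹ • D).s).comp (χ.Vs e (a⁻¹ • D).s)) := by rw [← h2]; rfl
    _ = χ.Vb e D a := by rw [Es_comp_Vs χ e (a⁻¹ • D).sep]; rfl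

/-- PROOF: `Vd_comp_Pp`, `Wg_Pp`. -/
theorem Va_comp_Pp (e : G ↪ O) (D : ClV V) (a : G) :
    (χ.Va e D a).comp Pp = (Pp : BL (Bs ℕ)).comp (χ.Va e D a) := by
  classical
  have h2 : Wg e a⁻¹ * Pp = (Pp : BL (Bs G)) * Wg e a⁻¹ := Wg_Pp e a⁻¹
  calc (χ.Va e D a).comp Pp
      = (χ.Vd e (a⁻¹ • D).s).comp (Wg e a⁻¹ * Pp) := rfl
    _ = ((χ.Vd e (a⁻¹ • D).s).comp Pp).comp (Wg e a⁻¹) := by rw [h2]; rfl
    _ = (Pp : BL (Bs ℕ)).comp (χ.Va e D a) := by rw [Vd_comp_Pp χ e (a⁻¹ • D).sep]; rfl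

/-- PROOF: `SC.of_bv` with `norm_Va_le`. Let `β` be a pair. If not `β.F ⊆ D` then `Va (bv β) = 0` (`Va_comp_Es`, `Es_apply`). Otherwise let `L = β.F`, and `β₀` the pair `β` as a pair of
finite subsets of `L`, so `bv β = ± Tr (iL L) (bv β₀)` (`Tr_bv`); then `W_a⁻¹ Tr (iL L) = Tr (s a)`, `s a i = a⁻¹ i ∈ a⁻¹ D` (`Tr_comp_Tr`), and `tendsto_Vd_Tr`. -/
theorem SC_Va [IsTopologicalGroup G] [T2Space G] (e : G ↪ O) (D : ClV V) :
    SC fun a : G => χ.Va e D a := by
  classical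
  refine SC.of_bv (norm_Va_le χ e D) fun β => ?_
  by_cases hβ : (β.F : Set G) ⊆ D.s
  · have h1 : (β.F : Set G) ⊆ Set.range (iL β.F) := fun i hi => ⟨⟨i, hi⟩, rfl⟩
    obtain ⟨β₀, hβ₀⟩ := exists_mp (iL β.F) h1
    have h2 : bv β = sg (eL e β.F) e (iL β.F) β₀.S • Tr (eL e β.F) e (iL β.F) (bv β₀) := by
      rw [Tr_bv, smul_smul, sg_mul_self, one_smul, hβ₀]
    have h3 : ∀ a : G, χ.Va e D a (bv β) = sg (eL e β.F) e (iL β.F) β₀.S •
        χ.Vd e (a⁻¹ • D).s (Tr (eL e β.F) e ((iL β.F).trans (gs a⁻¹)) (bv β₀)) := by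
      intro a
      rw [h2, map_smul, ← Tr_comp_Tr (eL e β.F) e e]
      rfl
    simp only [h3]
    have h8 : Continuous fun a : G =>
        χ.Vd e (a⁻¹ • D).s (Tr (eL e β.F) e ((iL β.F).trans (gs a⁻¹)) (bv β₀)) := ?_
    · exact (continuous_const (y := sg (eL e β.F) e (iL β.F) β₀.S)).smul h8
    rw [continuous_iff_continuousAt]
    intro a₀
    refine tendsto_Vd_Tr χ (eL e β.F) e (Eventually.of_forall fun a => (a⁻¹ • D).sep)
      (a₀⁻¹ • D).sep ?_ ?_ ?_ (bv β₀)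
    · refine Eventually.of_forall fun a i => ?_
      rw [ClV.mem_smul]
      have h4 : (a⁻¹)⁻¹ * ((iL β.F).trans (gs a⁻¹)) i = i.1 := by
        show (a⁻¹)⁻¹ * (a⁻¹ * i.1) = i.1
        group
      rw [h4]
      exact hβ i.2
    · intro i
      rw [ClV.mem_smul]
      have h4 : (a₀⁻¹)⁻¹ * ((iL β.F).trans (gs a₀⁻¹)) i = i.1 := by
        show (a₀⁻¹)⁻¹ * (a₀⁻¹ * i.1) = i.1
        group
      rw [h4]
      exact hβ i.2
    · intro i
      have h5 : Continuous fun a : G => a⁻¹ * i.1 := continuous_inv.mul continuous_const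
      exact h5.continuousAt
  · have h1 : Es D.s (bv β) = 0 := by
      ext c
      rw [Es_apply, bv_apply]
      by_cases hc : (c.F : Set G) ⊆ D.s
      · rw [if_pos hc, if_neg]
        · rfl
        · intro h
          exact hβ (h ▸ hc)
      · rw [if_neg hc]
        rfl
    have h2 : ∀ a : G, χ.Va e D a (bv β) = 0 := by
      intro a
      rw [← Va_comp_Es χ e D a, ContinuousLinearMap.comp_apply, h1, map_zero]
    simp only [h2]
    exact continuous_const

/-- PROOF: `SC.of_bv`: the family `a ↦ a⁻¹ • D` is continuous (`continuousSMul`), so Fell (`continuous_iff_fell`), so `Vs_bv_cases` at `a₀` for the vector `bv q`: in the first case `Vb (bv q)` tends to `0`,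
its value at `a₀` (`norm_Wg_le`). In the second case `s a i = a⁻¹ a₀ i` is a local section on `L₁ ⊆ a₀⁻¹ D`, and `Vs (bv q) = c (s a) • Tr (s a) ξ₀`, so `Vb (bv q) = c (s a) • Tr (a · s a) ξ₀` where `a · s a i = a₀ i` is
constant: so it is a continuous function times a constant vector. -/
theorem SC_Vb [IsTopologicalGroup G] [T2Space G] [LocallyCompactSpace G]
    (hV : V ∈ 𝓝 (1 : G)) (e : G ↪ O) (D : ClV V) : SC fun a : G => χ.Vb e D a := by
  classical
  have := ClV.continuousSMul hV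
  have hc : Continuous fun a : G => a⁻¹ • D := continuous_inv.smul continuous_const
  have hF : Fell fun a : G => (a⁻¹ • D).s := ClV.continuous_iff_fell.1 hc
  refine SC.of_bv (norm_Vb_le χ e D) fun q => ?_
  rw [continuous_iff_continuousAt]
  intro a₀
  rcases Vs_bv_cases χ hV e hF (fun a => (a⁻¹ • D).sep) a₀ q with ⟨h1, h2⟩ | ⟨L₁, hL₁, ξ₀, c, hcc, hs⟩
  · have h3 : χ.Vb e D a₀ (bv q) = 0 := by
      show Wg e a₀ (χ.Vs e (a₀⁻¹ • D).s (bv q)) = 0
      rw [h2, map_zero]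
    show Tendsto (fun a => χ.Vb e D a (bv q)) (𝓝 a₀) (𝓝 (χ.Vb e D a₀ (bv q)))
    rw [h3]
    refine squeeze_zero_norm (fun a => ?_) (tendsto_zero_iff_norm_tendsto_zero.1 h1)
    show ‖Wg e a (χ.Vs e (a⁻¹ • D).s (bv q))‖ ≤ _
    refine ((Wg e a : BL (Bs G)).le_opNorm _).trans ?_
    exact mul_le_of_le_one_left (norm_nonneg _) (norm_Wg_le e a)
  · have h0 : ∀ i : L₁, a₀ * i.1 ∈ D.s := by
      intro i
      have h4 := hL₁ i.2
      rw [ClV.mem_smul, inv_inv] at h4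
      exact h4
    have h1 : LSec (fun a : G => (a⁻¹ • D).s) a₀ L₁
        fun a => (iL L₁).trans (gs (a⁻¹ * a₀)) := by
      constructor
      · refine Eventually.of_forall fun a i => ?_
        show (a⁻¹ * a₀) * i.1 ∈ (a⁻¹ • D).s
        rw [ClV.mem_smul]
        have h4 : (a⁻¹)⁻¹ * (a⁻¹ * a₀ * i.1) = a₀ * i.1 := by group
        rw [h4]
        exact h0 i
      · intro i
        have h5 : Continuous fun a : G => a⁻¹ * a₀ * i.1 :=
          (continuous_inv.mul continuous_const).mul continuous_const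
        have h6 := h5.tendsto a₀
        have h7 : a₀⁻¹ * a₀ * i.1 = i.1 := by group
        rw [h7] at h6
        exact h6
    have h2 : ∀ᶠ a in 𝓝 a₀, χ.Vb e D a (bv q) =
        c ((iL L₁).trans (gs (a⁻¹ * a₀))) • Tr (eL e L₁) e ((iL L₁).trans (gs a₀)) ξ₀ := by
      filter_upwards [hs _ h1] with a ha
      show Wg e a (χ.Vs e (a⁻¹ • D).s (bv q)) = _
      rw [ha, map_smul]
      have h4 : (iL L₁).trans (gs a₀) = ((iL L₁).trans (gs (a⁻¹ * a₀))).trans (gs a) := by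
        ext i
        show a₀ * i.1 = a * (a⁻¹ * a₀ * i.1)
        group
      rw [h4, ← Tr_comp_Tr (eL e L₁) e e ((iL L₁).trans (gs (a⁻¹ * a₀))) (gs a)]
      rfl
    have h3 : ContinuousAt (fun a : G => c ((iL L₁).trans (gs (a⁻¹ * a₀))) •
        Tr (eL e L₁) e ((iL L₁).trans (gs a₀)) ξ₀) a₀ := by
      have h5 : Continuous fun a : G => fun i : L₁ => a⁻¹ * a₀ * i.1 :=
        continuous_pi fun i => (continuous_inv.mul continuous_const).mul continuous_const
      have h6 : Continuous fun a : G => c ((iL L₁).trans (gs (a⁻¹ * a₀))) := hcc.comp h5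
      exact (h6.smul (continuous_const (y := Tr (eL e L₁) e ((iL L₁).trans (gs a₀)) ξ₀))).continuousAt
    exact h3.congr (h2.mono fun a ha => ha.symm)

/-- The translations: `V_D W_g V_{g⁻¹ D}^*`, on `ClV V × G`. PROOF: `SC_transl` with `Zp = ClV V × G`, `D z = z.1.s`, `D' z = (z.2⁻¹ • z.1).s`, `g z = z.2` (`continuousSMul`, `continuous_iff_fell`). -/
theorem SC_VWV [IsTopologicalGroup G] [T2Space G] [LocallyCompactSpace G]
    (hV : V ∈ 𝓝 (1 : G)) (e : G ↪ O) :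
    SC fun p : ClV V × G =>
      ((χ.Vd e p.1.s).comp (Wg e p.2)).comp (χ.Vs e (p.2⁻¹ • p.1).s) := by
  have := ClV.continuousSMul hV
  have hc : Continuous fun z : ClV V × G => z.2⁻¹ • z.1 :=
    (continuous_inv.comp continuous_snd).smul continuous_fst
  have hF : Fell fun z : ClV V × G => (z.2⁻¹ • z.1).s := ClV.continuous_iff_fell.1 hc
  refine SC_transl χ hV e (D := fun z : ClV V × G => z.1.s)
    (D' := fun z => (z.2⁻¹ • z.1).s) hF (fun z => z.1.sep) (fun z => (z.2⁻¹ • z.1).sep)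
    continuous_snd fun z a ha => ?_
  rw [ClV.mem_smul, inv_inv] at ha
  exact ha

end Pool.Agent.Lib.MP_aa9b81_an.Cb
end
end

section

/-!
# Continuous Bernoulli, part F10: the rotated functions: transport, covariance, commutation
-/

open scoped ENNReal Topology
open Function Filter

noncomputable section

set_option linter.unusedSectionVars false

namespace Pool.Agent.Lib.MP_aa9b81_an.Cb

open Cut Hs

variable {I I₀ O O₀ Γ : Type} [DecidableEq I] [DecidableEq I₀] [LinearOrder O] [LinearOrder O₀]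
  [Group Γ] [MulAction Γ I]

open Classical in
/-- The image of a set of sites under the injection `s`. -/
def push (s : I₀ ↪ I) (T : I₀ → Bool) : I → Bool := fun i => decide (∃ k, s k = i ∧ T k = true)

theorem push_apply (s : I₀ ↪ I) (T : I₀ → Bool) (k : I₀) : push s T (s k) = T k := by
  classical
  unfold push
  by_cases h : T k = true
  · rw [h]
    exact decide_eq_true ⟨k, rfl, h⟩
  · have h' : T k = false := by simpa using h
    rw [h']
    refine decide_eq_false ?_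
    rintro ⟨k', hk, hk'⟩
    rw [s.injective hk] at hk'
    exact h hk'

theorem push_of_not (s : I₀ ↪ I) (T : I₀ → Bool) {i : I} (h : i ∉ Set.range s) :
    push s T i = false := by
  classical
  unfold push
  refine decide_eq_false ?_
  rintro ⟨k, hk, -⟩
  exact h ⟨k, hk⟩

theorem continuous_push (s : I₀ ↪ I) : Continuous (push s) := by
  refine continuous_pi fun i => ?_
  by_cases h : i ∈ Set.range s
  · obtain ⟨k, rfl⟩ := h
    simp only [push_apply]
    exact continuous_apply k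
  · simp only [push_of_not s _ h]
    exact continuous_const

theorem ind_map (s : I₀ ↪ I) (F : Finset I₀) : ind (F.map s) = push s (ind F) := by
  funext i
  by_cases h : i ∈ Set.range s
  · obtain ⟨k, rfl⟩ := h
    rw [push_apply]
    unfold ind
    rw [decide_eq_decide]
    exact Finset.mem_map' s
  · rw [push_of_not s _ h]
    unfold ind
    refine decide_eq_false fun h1 => h ?_
    obtain ⟨k, -, hk⟩ := Finset.mem_map.1 h1
    exact ⟨k, hk⟩

theorem dF_Tr (e₀ : I₀ ↪ O₀) (e : I ↪ O) (s : I₀ ↪ I) {f : (I → Bool) → ℂ} {C : ℝ} (hC : 0 ≤ C)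
    (h : ∀ T, ‖f T‖ ≤ C) :
    (dF f).comp (Tr e₀ e s) = (Tr e₀ e s).comp (dF fun T => f (push s T)) := by
  unfold dF
  rw [dia_Tr e₀ e s hC fun b => h _]
  congr 2
  funext b
  rw [mp_F, ind_map]

/-- Intertwining by injections, finitely many sites. PROOF: `UK_Tr`, `dF_Tr`. -/
theorem sigL_Tr (e₀ : I₀ ↪ O₀) (e : I ↪ O) (s : I₀ ↪ I) {f : (I → Bool) → ℂ} {C : ℝ} (hC : 0 ≤ C)
    (h : ∀ T, ‖f T‖ ≤ C) (L : Finset I₀) (θ : ℝ) :
    (sigL (L.map s) θ f).comp (Tr e₀ e s) =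
      (Tr e₀ e s).comp (sigL L θ fun T => f (push s T)) := by
  unfold sigL
  show ((UK (L.map s) (-θ) : BL (Bs I)).comp ((dF f).comp ((UK (L.map s) θ : BL (Bs I)).comp
    (Tr e₀ e s)))) = _
  rw [UK_Tr, ← ContinuousLinearMap.comp_assoc (dF f), dF_Tr e₀ e s hC h,
    ContinuousLinearMap.comp_assoc, ← ContinuousLinearMap.comp_assoc, UK_Tr]
  rfl

/-- Intertwining by injections for functions which depend on finitely many sites of the image. -/
theorem sig_Tr_of_dep (e₀ : I₀ ↪ O₀) (e : I ↪ O) (s : I₀ ↪ I) {f : (I → Bool) → ℂ}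
    {L : Finset I₀} (hf : Dep ((L.map s : Finset I) : Set I) 0 f) (θ : ℝ) :
    (sig θ f).comp (Tr e₀ e s) = (Tr e₀ e s).comp (sigL L θ fun T => f (push s T)) := by
  obtain ⟨C, hC, h⟩ := hf.exists_bdd
  rw [sig_eq hf, sigL_Tr e₀ e s hC h]

/-- Intertwining by injections, up to `ε`, for functions which depend up to `ε` on finitely many sites of the
image. PROOF: `norm_sig_sub_le`, `sigL_Tr`. -/
theorem norm_sig_Tr_sub_le (e₀ : I₀ ↪ O₀) (e : I ↪ O) (s : I₀ ↪ I) {f : (I → Bool) → ℂ}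
    (hf : Continuous f) {L : Finset I₀} {ε : ℝ}
    (h : Dep ((L.map s : Finset I) : Set I) ε f) (θ : ℝ) :
    ‖(sig θ f).comp (Tr e₀ e s) - (Tr e₀ e s).comp (sigL L θ fun T => f (push s T))‖ ≤ 2 * ε := by
  obtain ⟨C, hC, hb⟩ := exists_bdd hf
  have hε : 0 ≤ ε := (norm_nonneg _).trans (h (fun _ => false) (fun _ => false) fun _ _ => rfl)
  rw [← sigL_Tr e₀ e s hC hb L θ, ← ContinuousLinearMap.sub_comp]
  refine (ContinuousLinearMap.opNorm_comp_le _ _).trans ?_
  have h1 : ‖sig θ f - sigL (L.map s) θ f‖ ≤ 2 * ε := by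
    have h2 := norm_sig_sub_le hf h θ
    have h3 := norm_sigL_sub_rs_le h (Finset.Subset.refl (L.map s)) θ
    have h4 : sig θ f - sigL (L.map s) θ f =
        (sig θ f - sigL (L.map s) θ fun T => f (rs (L.map s) T)) -
        (sigL (L.map s) θ f - sigL (L.map s) θ fun T => f (rs (L.map s) T)) := by abel
    rw [h4]
    have h5 := norm_sub_le (sig θ f - sigL (L.map s) θ fun T => f (rs (L.map s) T))
      (sigL (L.map s) θ f - sigL (L.map s) θ fun T => f (rs (L.map s) T))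
    linarith
  have h2 := norm_Tr_le e₀ e s
  have h3 := norm_nonneg (Tr e₀ e s)
  have h4 := norm_nonneg (sig θ f - sigL (L.map s) θ f)
  nlinarith

/-- A function which depends only on `D`, and up to `ε` only on `L`, depends up to `ε` only on `L ∩ D`. -/
theorem Dep.inter {D : Set I} {L : Set I} {ε : ℝ} {f : (I → Bool) → ℂ} (hD : Dep D 0 f)
    (hL : Dep L ε f) : Dep (L ∩ D) ε f := by
  classical
  intro T T' hT
  -- the set equal to `T'` on `D` and to `T` elsewhere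
  have h1 : f T' = f fun i => if i ∈ D then T' i else T i := by
    have h2 := hD T' (fun i => if i ∈ D then T' i else T i) fun i hi => by simp [hi]
    exact sub_eq_zero.1 (norm_eq_zero.1 (le_antisymm h2 (norm_nonneg _)))
  rw [h1]
  refine hL _ _ fun i hi => ?_
  by_cases hiD : i ∈ D
  · simp only [hiD, if_true]
    exact hT i ⟨hi, hiD⟩
  · simp only [hiD, if_false]

/-- Intertwining by injections for continuous functions which depend only on the image. -/
theorem sig_Tr (e₀ : I₀ ↪ O₀) (e : I ↪ O) (s : I₀ ↪ I) {f : (I → Bool) → ℂ}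
    (hf : Continuous f) (hD : Dep (Set.range s) 0 f) (θ : ℝ) :
    (sig θ f).comp (Tr e₀ e s) = (Tr e₀ e s).comp (sig θ fun T => f (push s T)) := by
  have hf' : Continuous fun T => f (push s T) := hf.comp (continuous_push s)
  refine eq_of_sub_eq_zero (norm_eq_zero.1 (le_antisymm (le_of_forall_pos_le_add fun ε hε => ?_)
    (norm_nonneg _)))
  obtain ⟨L, hL⟩ := exists_dep hf (show 0 < ε / 4 by linarith)
  have hL' := hD.inter hL
  have hL0 : ((L : Set I) ∩ Set.range s) ⊆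
      (((L.preimage s s.injective.injOn).map s : Finset I) : Set I) := by
    rintro i ⟨hi, k, rfl⟩
    exact Finset.mem_coe.2 (Finset.mem_map.2 ⟨k, Finset.mem_preimage.2 hi, rfl⟩)
  have hL1 := hL'.mono hL0 le_rfl
  have h1 := norm_sig_Tr_sub_le e₀ e s hf hL1 θ
  have h2 : Dep ((L.preimage s s.injective.injOn : Finset I₀) : Set I₀) (ε / 4)
      fun T => f (push s T) := by
    intro T T' hT
    refine hL' _ _ ?_
    rintro i ⟨hi, k, rfl⟩
    rw [push_apply, push_apply]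
    exact hT k (Finset.mem_coe.2 (Finset.mem_preimage.2 hi))
  have h3 : ‖(sig θ fun T => f (push s T)) - sigL (L.preimage s s.injective.injOn) θ
      fun T => f (push s T)‖ ≤ 2 * (ε / 4) := by
    have h4 := norm_sig_sub_le hf' h2 θ
    have h5 := norm_sigL_sub_rs_le h2 (Finset.Subset.refl _) θ
    rw [norm_sub_rev] at h5
    have h6 := norm_sub_le_norm_sub_add_norm_sub (sig θ fun T => f (push s T))
      (sigL (L.preimage s s.injective.injOn) θ fun T =>
        (fun T => f (push s T)) (rs (L.preimage s s.injective.injOn) T))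
      (sigL (L.preimage s s.injective.injOn) θ fun T => f (push s T))
    linarith
  have h4 : ‖(Tr e₀ e s).comp (sigL (L.preimage s s.injective.injOn) θ fun T => f (push s T)) -
      (Tr e₀ e s).comp (sig θ fun T => f (push s T))‖ ≤ 2 * (ε / 4) := by
    rw [← ContinuousLinearMap.comp_sub]
    refine (ContinuousLinearMap.opNorm_comp_le _ _).trans ?_
    have h5 := norm_Tr_le e₀ e s
    rw [norm_sub_rev] at h3
    have h6 := norm_nonneg ((sigL (L.preimage s s.injective.injOn) θ fun T => f (push s T)) -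
      sig θ fun T => f (push s T))
    have h7 := norm_nonneg (Tr e₀ e s)
    nlinarith
  have h5 := norm_sub_le_norm_sub_add_norm_sub ((sig θ f).comp (Tr e₀ e s))
    ((Tr e₀ e s).comp (sigL (L.preimage s s.injective.injOn) θ fun T => f (push s T)))
    ((Tr e₀ e s).comp (sig θ fun T => f (push s T)))
  linarith

/-- COVARIANCE. PROOF: `sig_Tr` for the translation; it is bijective. -/
theorem Wg_sig (e : I ↪ O) (g : Γ) {f : (I → Bool) → ℂ} (hf : Continuous f) (θ : ℝ) :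
    Wg e g * sig θ f = (sig θ fun T => f fun i => T (g • i)) * Wg e g := by
  have hc : Continuous fun T : I → Bool => fun i => T (g • i) :=
    continuous_pi fun i => continuous_apply _
  have h1 : Dep (Set.range (gs g : I ↪ I)) 0 fun T : I → Bool => f fun i => T (g • i) := by
    intro T T' hT
    have h2 : T = T' := by
      funext i
      exact hT i ⟨g⁻¹ • i, by rw [gs_apply, smul_inv_smul]⟩
    rw [h2, sub_self, norm_zero]
  have h2 := sig_Tr e e (gs g) (hf.comp hc) h1 θ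
  have h3 : (fun T : I → Bool => (f ∘ fun T : I → Bool => fun i => T (g • i)) (push (gs g) T)) =
      f := by
    funext T
    show f (fun i => push (gs g) T (g • i)) = f T
    congr 1
    funext i
    exact push_apply (gs g) T i
  rw [h3] at h2
  exact h2.symm

/-! ### Commutation -/

/-- What commutes with the rotations at the sites of `L` and with `dF f` commutes with `sigL L θ f`. -/
theorem sigL_comm {L : Finset I} {θ : ℝ} {f : (I → Bool) → ℂ} {X : BL (Bs I)}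
    (h1 : ∀ i ∈ L, ∀ φ : ℝ, Commute (Ui i φ) X) (h2 : Commute (dF f) X) :
    Commute (sigL L θ f) X := by
  unfold sigL
  exact ((UK_comm fun i hi => h1 i hi (-θ)).mul_left h2).mul_left (UK_comm fun i hi => h1 i hi θ)

/-- PROOF: limits. -/
theorem sig_comm {θ : ℝ} {f : (I → Bool) → ℂ} (hf : Continuous f) {X : BL (Bs I)} {D : Set I}
    (hD : Dep D 0 f) (h1 : ∀ i ∈ D, ∀ φ : ℝ, Commute (Ui i φ) X)
    (h2 : ∀ f' : (I → Bool) → ℂ, Dep D 0 f' → Continuous f' → Commute (dF f') X) :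
    Commute (sig θ f) X := by
  classical
  refine eq_of_sub_eq_zero (norm_eq_zero.1 (le_antisymm (le_of_forall_pos_le_add fun ε hε => ?_)
    (norm_nonneg _)))
  obtain ⟨L, hL⟩ := exists_dep hf (show 0 < ε / (2 * ‖X‖ + 1) by positivity)
  have hL' := hD.inter hL
  have hL0 : ((L : Set I) ∩ D) ⊆ ((L.filter fun i => i ∈ D : Finset I) : Set I) := by
    rintro i ⟨hi, hiD⟩
    exact Finset.mem_coe.2 (Finset.mem_filter.2 ⟨hi, hiD⟩)
  have hL1 := hL'.mono hL0 le_rfl
  have h3 := norm_sig_sub_le hf hL1 θ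
  have h4 : Commute (sigL (L.filter fun i => i ∈ D) θ
      fun T => f (rs (L.filter fun i => i ∈ D) T)) X := by
    refine sigL_comm (fun i hi => h1 i (Finset.mem_filter.1 hi).2) (h2 _ ?_ ?_)
    · exact (dep_rs (L.filter fun i => i ∈ D) f).mono (fun i hi =>
        (Finset.mem_filter.1 (Finset.mem_coe.1 hi)).2) le_rfl
    · exact (dep_rs (L.filter fun i => i ∈ D) f).continuous
  obtain ⟨Y, hY⟩ : ∃ Y : BL (Bs I), Y = sigL (L.filter fun i => i ∈ D) θ
      fun T => f (rs (L.filter fun i => i ∈ D) T) := ⟨_, rfl⟩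
  rw [← hY] at h3 h4
  have h5 : sig θ f * X - X * sig θ f = (sig θ f - Y) * X - X * (sig θ f - Y) := by
    rw [sub_mul, mul_sub, h4.eq]
    abel
  rw [h5, zero_add]
  refine (norm_sub_le _ _).trans ?_
  have h6 := norm_mul_le (sig θ f - Y) X
  have h7 := norm_mul_le X (sig θ f - Y)
  have h8 : ‖sig θ f - Y‖ * ‖X‖ ≤ ε / (2 * ‖X‖ + 1) * ‖X‖ :=
    mul_le_mul_of_nonneg_right h3 (norm_nonneg _)
  have h9 : ε / (2 * ‖X‖ + 1) * ‖X‖ ≤ ε / 2 := by
    have h10 : 0 ≤ ‖X‖ := norm_nonneg X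
    rw [div_mul_eq_mul_div, div_le_div_iff₀ (by positivity) (by norm_num)]
    nlinarith
  have h10 : ‖X‖ * ‖sig θ f - Y‖ = ‖sig θ f - Y‖ * ‖X‖ := mul_comm _ _
  linarith

theorem dF_comm_dia {f : (I → Bool) → ℂ} {C : ℝ} (hC : 0 ≤ C) (h : ∀ T, ‖f T‖ ≤ C)
    {φ : Bs I → ℂ} {C' : ℝ} (hC' : 0 ≤ C') (hφ : ∀ b, ‖φ b‖ ≤ C') : Commute (dF f) (dia φ) := by
  refine ContinuousLinearMap.ext fun ξ => ?_
  ext b
  rw [mul_apply_eq_comp, mul_apply_eq_comp, dF_apply hC h, dia_apply hC' hφ, dia_apply hC' hφ,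
    dF_apply hC h]
  ring

/-- A multiplication operator by a function invariant under `fl i` commutes with the rotation at `i`. -/
theorem Ui_comm_dia {φ : Bs I → ℂ} {C' : ℝ} (hC' : 0 ≤ C') (hφ : ∀ b, ‖φ b‖ ≤ C') {i : I}
    (hi : ∀ b, φ (fl i b) = φ b) (θ : ℝ) : Commute (Ui i θ) (dia φ) := by
  refine ContinuousLinearMap.ext fun ξ => ?_
  ext b
  rw [mul_apply_eq_comp, mul_apply_eq_comp, dia_apply hC' hφ, D7_Ui_apply, D7_Ui_apply,
    dia_apply hC' hφ, dia_apply hC' hφ, hi]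
  split_ifs <;> ring

/-- Multiplication operators by functions invariant under `fl i`, `i ∈ D`, commute with `sig θ f`, `f` depending
only on `D`. -/
theorem sig_comm_dia {θ : ℝ} {f : (I → Bool) → ℂ} (hf : Continuous f) {D : Set I}
    (hD : Dep D 0 f) {φ : Bs I → ℂ} {C' : ℝ} (hC' : 0 ≤ C') (hφ : ∀ b, ‖φ b‖ ≤ C')
    (hi : ∀ i ∈ D, ∀ b, φ (fl i b) = φ b) : Commute (sig θ f) (dia φ) := by
  refine sig_comm hf hD (fun i hiD θ' => Ui_comm_dia hC' hφ (hi i hiD) θ') fun f' _ hf'c => ?_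
  obtain ⟨C, hC, h⟩ := exists_bdd hf'c
  exact dF_comm_dia hC h hC' hφ

open Classical in
theorem Es_eq_dia (D : Set I) :
    (Es D : BL (Bs I)) = dia fun b : Bs I => if (b.F : Set I) ⊆ D then (1 : ℂ) else 0 := by
  refine ContinuousLinearMap.ext fun ξ => ?_
  ext b
  rw [Es_apply, dia_apply zero_le_one (fun b => by split_ifs <;> simp)]
  split_ifs <;> simp

/-- PROOF: `sig_comm_dia`, `D6_Es_iff`. -/
theorem sig_comm_Es {θ : ℝ} {f : (I → Bool) → ℂ} (hf : Continuous f) {D : Set I}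
    (hD : Dep D 0 f) : Commute (sig θ f) (Es D) := by
  classical
  rw [Es_eq_dia]
  refine sig_comm_dia hf hD zero_le_one (fun b => by split_ifs <;> simp) fun i hi b => ?_
  by_cases h : (b.F : Set I) ⊆ D
  · rw [if_pos h, if_pos ((D6_Es_iff hi b).2 h)]
  · rw [if_neg h, if_neg fun h1 => h ((D6_Es_iff hi b).1 h1)]

theorem dep_univ (f : (I → Bool) → ℂ) : Dep Set.univ 0 f := by
  intro T T' h
  have h1 : T = T' := funext fun i => h i (Set.mem_univ i)
  rw [h1, sub_self, norm_zero]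

/-- Multiplication operators by functions of `S` commute with `sig θ f`. -/
theorem sig_comm_S {θ : ℝ} {f : (I → Bool) → ℂ} (hf : Continuous f) {φ : Finset I → ℂ} {C' : ℝ}
    (hC' : 0 ≤ C') (hφ : ∀ S, ‖φ S‖ ≤ C') :
    Commute (sig θ f) (dia fun b : Bs I => φ b.S) :=
  sig_comm_dia hf (dep_univ f) hC' (fun b => hφ b.S) fun i _ b => by rw [D7_fl_S]

theorem sig_comm_Pp {θ : ℝ} {f : (I → Bool) → ℂ} (hf : Continuous f) :
    Commute (sig θ f) (Pp : BL (Bs I)) :=
  sig_comm_S hf (φ := fun S => if Even S.card then 1 else 0) zero_le_one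
    fun S => by split_ifs <;> simp

theorem sig_comm_Pm {θ : ℝ} {f : (I → Bool) → ℂ} (hf : Continuous f) :
    Commute (sig θ f) (Pm : BL (Bs I)) :=
  sig_comm_S hf (φ := fun S => if Even S.card then 0 else 1) zero_le_one
    fun S => by split_ifs <;> simp

end Pool.Agent.Lib.MP_aa9b81_an.Cb
end
end

section

/-!
# Continuous Bernoulli, part F6: the operators `T`, functions of `F`, cutoffs
-/

open scoped ENNReal Topology
open Function

noncomputable section

set_option linter.unusedSectionVars false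

namespace Pool.Agent.Lib.MP_aa9b81_an.Cb

open Cut Hs

variable {I I₀ O O₀ Γ : Type} [DecidableEq I] [DecidableEq I₀] [LinearOrder O] [LinearOrder O₀]
  [Group Γ] [MulAction Γ I]

/-- The projection onto the pairs with `F = ∅`. -/
def PV : BL (Bs I) := dia fun b => if b.F = ∅ then 1 else 0

theorem PV_apply (ξ : L2 (Bs I)) (b : Bs I) :
    (PV ξ : Bs I → ℂ) b = if b.F = ∅ then (ξ : Bs I → ℂ) b else 0 := by
  rw [PV, dia_apply zero_le_one (fun b => by split_ifs <;> simp)]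
  split_ifs <;> simp

/-- The operator `T` with the weight `w`, interpolated. -/
def TT (e : I ↪ O) (s : ℝ) (w : I → ℝ) : BL (Bs I) := Cl e (uu s w)

theorem norm_TT_le (e : I ↪ O) (s : ℝ) (w : I → ℝ) : ‖TT e s w‖ ≤ 1 := norm_Cl_le e (CB_uu s w)

theorem adjoint_TT (e : I ↪ O) (s : ℝ) (w : I → ℝ) :
    ContinuousLinearMap.adjoint (TT e s w) = TT e s w := adjoint_Cl e (CB_uu s w)

/-- PROOF: `Cl_mul_self`, `sum_uu_sq`. -/
theorem TT_mul_TT (e : I ↪ O) {s : ℝ} (hs : 0 ≤ s) (hs1 : s ≤ 1) {w : I → ℝ}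
    (hw : ∀ i, 1 ≤ w i) : TT e s w * TT e s w = 1 - PV := by
  unfold TT
  rw [Cl_mul_self e (CB_uu s w)]
  refine ContinuousLinearMap.ext fun ξ => ?_
  ext b
  have h1 : ∀ b : Bs I, ((∑ i ∈ b.F, uu s w b.F i ^ 2 : ℝ) : ℂ) = if b.F = ∅ then 0 else 1 := by
    intro b
    rw [sum_uu_sq hs hs1 hw]
    split_ifs <;> simp
  simp only [h1]
  rw [dia_apply zero_le_one (fun b => by split_ifs <;> simp)]
  have h2 : ((1 - PV : BL (Bs I)) ξ : Bs I → ℂ) b = (ξ : Bs I → ℂ) b - (PV ξ : Bs I → ℂ) b := rfl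
  rw [h2, PV_apply]
  split_ifs <;> ring

theorem TT_mul_Pp (e : I ↪ O) (s : ℝ) (w : I → ℝ) : Pp * TT e s w = TT e s w * Pm :=
  Pp_mul_Cl e (CB_uu s w)

theorem TT_mul_Pm (e : I ↪ O) (s : ℝ) (w : I → ℝ) : Pm * TT e s w = TT e s w * Pp :=
  Pm_mul_Cl e (CB_uu s w)

/-- Functions of `F` commute with the Clifford operators. PROOF: coordinates, `(tog i b).F = b.F`. -/
theorem Cl_comm_dia (e : I ↪ O) {a : Finset I → I → ℝ} {C : ℝ} (h : CB a C) {φ : Finset I → ℂ}
    {C' : ℝ} (hC' : 0 ≤ C') (hφ : ∀ F, ‖φ F‖ ≤ C') :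
    Cl e a * dia (fun b : Bs I => φ b.F) = dia (fun b : Bs I => φ b.F) * Cl e a := by
  refine ContinuousLinearMap.ext fun ξ => ?_
  ext b
  have hb : ∀ b : Bs I, ‖φ b.F‖ ≤ C' := fun b => hφ b.F
  rw [mul_apply_eq_comp, mul_apply_eq_comp, dia_apply hC' hb, Cl_apply e h,
    Cl_apply e h, clF, clF, Finset.mul_sum]
  refine Finset.sum_congr rfl fun i hi => ?_
  rw [dia_apply hC' hb, (tog_of_mem hi).1]
  ring

theorem TT_comm_dia (e : I ↪ O) (s : ℝ) (w : I → ℝ) {φ : Finset I → ℂ}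
    {C' : ℝ} (hC' : 0 ≤ C') (hφ : ∀ F, ‖φ F‖ ≤ C') :
    TT e s w * dia (fun b : Bs I => φ b.F) = dia (fun b : Bs I => φ b.F) * TT e s w :=
  Cl_comm_dia e (CB_uu s w) hC' hφ

theorem TT_comm_PV (e : I ↪ O) (s : ℝ) (w : I → ℝ) : TT e s w * PV = PV * TT e s w :=
  TT_comm_dia e s w (φ := fun F => if F = ∅ then 1 else 0) zero_le_one
    (fun F => by split_ifs <;> simp)

/-- PROOF: `PV (Cl ξ) = 0`: at `F = ∅` the sum is empty. -/
theorem PV_mul_Cl (e : I ↪ O) {a : Finset I → I → ℝ} {C : ℝ} (h : CB a C) :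
    PV * Cl e a = 0 := by
  refine ContinuousLinearMap.ext fun ξ => ?_
  ext b
  rw [mul_apply_eq_comp, PV_apply, Cl_apply e h, clF]
  split_ifs with hb
  · rw [hb, Finset.sum_empty]
    rfl
  · rfl

theorem PV_mul_TT (e : I ↪ O) (s : ℝ) (w : I → ℝ) : PV * TT e s w = 0 :=
  PV_mul_Cl e (CB_uu s w)

theorem TT_mul_PV (e : I ↪ O) (s : ℝ) (w : I → ℝ) : TT e s w * PV = 0 := by
  rw [TT_comm_PV, PV_mul_TT]

theorem PV_mul_PV : (PV * PV : BL (Bs I)) = PV := by
  refine ContinuousLinearMap.ext fun ξ => ?_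
  ext b
  rw [mul_apply_eq_comp, PV_apply, PV_apply]
  split_ifs <;> rfl

theorem PV_mul_Pm : (PV * Pm : BL (Bs I)) = 0 := by
  refine ContinuousLinearMap.ext fun ξ => ?_
  ext b
  rw [mul_apply_eq_comp, PV_apply, Pm_apply]
  split_ifs with h1 h2
  · rfl
  · exfalso
    apply h2
    have h3 : b.S = ∅ := Finset.subset_empty.1 (h1 ▸ b.sub)
    rw [h3]
    simp
  · rfl

theorem PV_mul_Pp : (PV * Pp : BL (Bs I)) = PV := by
  have h : (PV : BL (Bs I)) = PV * (Pp + Pm) := by rw [Pp_add_Pm, mul_one]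
  rw [mul_add, PV_mul_Pm, add_zero] at h
  exact h.symm

theorem Pm_mul_PV : (Pm * PV : BL (Bs I)) = 0 := by
  refine ContinuousLinearMap.ext fun ξ => ?_
  ext b
  rw [mul_apply_eq_comp, Pm_apply, PV_apply]
  split_ifs with h1 h2
  · rfl
  · exfalso
    apply h1
    have h3 : b.S = ∅ := Finset.subset_empty.1 (h2 ▸ b.sub)
    rw [h3]
    simp
  · rfl

theorem Pp_mul_PV : (Pp * PV : BL (Bs I)) = PV := by
  have h : (PV : BL (Bs I)) = (Pp + Pm) * PV := by rw [Pp_add_Pm, one_mul]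
  rw [add_mul, Pm_mul_PV, add_zero] at h
  exact h.symm

theorem Es_comm_Cl (e : I ↪ O) {a : Finset I → I → ℝ} {C : ℝ} (h : CB a C) (D : Set I) :
    Cl e a * Es D = Es D * Cl e a := by
  classical
  have h1 := Cl_comm_dia e h (φ := fun F : Finset I => if (F : Set I) ⊆ D then 1 else 0)
    zero_le_one (fun F => by split_ifs <;> simp)
  have h2 : (Es D : BL (Bs I)) = dia fun b : Bs I => if (b.F : Set I) ⊆ D then (1 : ℂ) else 0 := by
    refine ContinuousLinearMap.ext fun ξ => ?_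
    ext b
    rw [Es_apply, dia_apply zero_le_one (fun b => by split_ifs <;> simp)]
    split_ifs <;> simp
  rw [h2]
  exact h1

theorem Es_comm_TT (e : I ↪ O) (s : ℝ) (w : I → ℝ) (D : Set I) :
    TT e s w * Es D = Es D * TT e s w := Es_comm_Cl e (CB_uu s w) D

/-- Intertwining by injections. -/
theorem TT_Tr (e₀ : I₀ ↪ O₀) (e : I ↪ O) (σ : I₀ ↪ I) (s : ℝ) (w : I → ℝ) :
    (TT e s w).comp (Tr e₀ e σ) = (Tr e₀ e σ).comp (TT e₀ s fun i => w (σ i)) := by
  have h := Cl_Tr e₀ e σ (CB_uu s w)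
  rw [pc_uu] at h
  exact h

theorem Trs_TT (e₀ : I₀ ↪ O₀) (e : I ↪ O) (σ : I₀ ↪ I) (s : ℝ) (w : I → ℝ) :
    (Trs e₀ e σ).comp (TT e s w) = (TT e₀ s fun i => w (σ i)).comp (Trs e₀ e σ) := by
  have h := Trs_Cl e₀ e σ (CB_uu s w)
  rw [pc_uu] at h
  exact h

/-- COVARIANCE. -/
theorem Wg_TT (e : I ↪ O) (g : Γ) (s : ℝ) (w : I → ℝ) :
    Wg e g * TT e s w = (TT e s fun i => w (g⁻¹ • i)) * Wg e g := by
  have h := TT_Tr e e (gs g) s fun i => w (g⁻¹ • i)
  have h1 : (fun i : I => w (g⁻¹ • gs g i)) = w := by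
    funext i
    rw [gs_apply, inv_smul_smul]
  rw [h1] at h
  exact h.symm

/-! ### Norms -/

/-- PROOF: `Cl_mul_dia`: the product is `Cl e (φ a)`, `CB (φ a) C`. -/
theorem norm_Cl_mul_dia_le (e : I ↪ O) {a : Finset I → I → ℝ} {C₀ : ℝ} (h : CB a C₀)
    {φ : Finset I → ℝ} (hφ : ∀ F, |φ F| ≤ 1) {C : ℝ} (hC : 0 ≤ C)
    (ha : ∀ F, φ F ≠ 0 → nF F (a F) ≤ C) :
    ‖Cl e a * dia (fun b : Bs I => ((φ b.F : ℝ) : ℂ))‖ ≤ C := by
  rw [Cl_mul_dia e h hφ]
  refine norm_Cl_le e ⟨hC, fun F => ?_⟩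
  have h1 : ∑ i ∈ F, (φ F * a F i) ^ 2 = φ F ^ 2 * ∑ i ∈ F, a F i ^ 2 := by
    rw [Finset.mul_sum]
    exact Finset.sum_congr rfl fun i _ => by ring
  rw [h1]
  by_cases h2 : φ F = 0
  · rw [h2]
    have := sq_nonneg C
    nlinarith
  · have h3 := (nF_le_iff hC).1 (ha F h2)
    have h4 : φ F ^ 2 ≤ 1 := by
      rw [← sq_abs]
      exact pow_le_one₀ (abs_nonneg _) (hφ F)
    have h5 : 0 ≤ ∑ i ∈ F, a F i ^ 2 := Finset.sum_nonneg fun _ _ => sq_nonneg _
    nlinarith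

theorem norm_Cl_sub_mul_dia_le (e : I ↪ O) {a a' : Finset I → I → ℝ} {C₀ C₀' : ℝ} (h : CB a C₀)
    (h' : CB a' C₀') {φ : Finset I → ℝ} (hφ : ∀ F, |φ F| ≤ 1) {C : ℝ} (hC : 0 ≤ C)
    (ha : ∀ F, φ F ≠ 0 → (nF F fun i => a F i - a' F i) ≤ C) :
    ‖(Cl e a - Cl e a') * dia (fun b : Bs I => ((φ b.F : ℝ) : ℂ))‖ ≤ C := by
  rw [← Cl_sub e h h']
  exact norm_Cl_mul_dia_le e (h.sub h') hφ hC ha

theorem norm_Cl_sub_le (e : I ↪ O) {a a' : Finset I → I → ℝ} {C₀ C₀' : ℝ} (h : CB a C₀)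
    (h' : CB a' C₀') {C : ℝ} (hC : 0 ≤ C) (ha : ∀ F, (nF F fun i => a F i - a' F i) ≤ C) :
    ‖Cl e a - Cl e a'‖ ≤ C := by
  rw [← Cl_sub e h h']
  exact norm_Cl_le e ⟨hC, fun F => (nF_le_iff hC).1 (ha F)⟩

/-- The path is Lipschitz. -/
theorem norm_TT_sub_le (e : I ↪ O) {s s' : ℝ} (hs : 0 ≤ s) (hs1 : s ≤ 1) (hs' : 0 ≤ s')
    (hs1' : s' ≤ 1) {w : I → ℝ} (hw : ∀ i, 1 ≤ w i) :
    ‖TT e s w - TT e s' w‖ ≤ 8 * |s - s'| :=
  norm_Cl_sub_le e (CB_uu s w) (CB_uu s' w) (by positivity) fun F =>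
    nF_uu_sub_s hs hs1 hs' hs1' hw F

/-! ### Cutoffs -/

/-- The cutoff: `1` for `|w_F| ≤ R`, `0` for `|w_F| ≥ 2 R`. -/
def om (R : ℝ) (w : I → ℝ) (F : Finset I) : ℝ := min 1 (max 0 (2 - nF F w / R))

omit [DecidableEq I] [MulAction Γ I] in
theorem om_nonneg (R : ℝ) (w : I → ℝ) (F : Finset I) : 0 ≤ om R w F :=
  le_min zero_le_one (le_max_left _ _)

omit [DecidableEq I] [MulAction Γ I] in
theorem om_le_one (R : ℝ) (w : I → ℝ) (F : Finset I) : om R w F ≤ 1 := min_le_left _ _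

omit [DecidableEq I] [MulAction Γ I] in
theorem lt_of_om_ne_one {R : ℝ} (hR : 0 < R) {w : I → ℝ} {F : Finset I} (h : om R w F ≠ 1) :
    R < nF F w := by
  by_contra h1
  push Not at h1
  refine h ?_
  unfold om
  have h2 : nF F w / R ≤ 1 := (div_le_one hR).2 h1
  rw [max_eq_right (by linarith), min_eq_left (by linarith)]

omit [DecidableEq I] [MulAction Γ I] in
theorem lt_of_om_ne_zero {R : ℝ} (hR : 0 < R) {w : I → ℝ} {F : Finset I} (h : om R w F ≠ 0) :
    nF F w < 2 * R := by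
  by_contra h1
  push Not at h1
  refine h ?_
  unfold om
  have h2 : 2 ≤ nF F w / R := (le_div_iff₀ hR).2 h1
  rw [max_eq_left (by linarith), min_eq_right zero_le_one]

theorem om_map (R : ℝ) (w : I → ℝ) (σ : I₀ ↪ I) (F : Finset I₀) :
    om R w (F.map σ) = om R (fun i => w (σ i)) F := by
  unfold om
  rw [nF_map]

/-- The multiplication by the cutoff. -/
def Om (R : ℝ) (w : I → ℝ) : BL (Bs I) := dia fun b => ((om R w b.F : ℝ) : ℂ)

theorem norm_om_le (R : ℝ) (w : I → ℝ) (b : Bs I) : ‖((om R w b.F : ℝ) : ℂ)‖ ≤ 1 := by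
  rw [Complex.norm_real, Real.norm_eq_abs, abs_of_nonneg (om_nonneg R w b.F)]
  exact om_le_one R w b.F

theorem Om_apply (R : ℝ) (w : I → ℝ) (ξ : L2 (Bs I)) (b : Bs I) :
    (Om R w ξ : Bs I → ℂ) b = ((om R w b.F : ℝ) : ℂ) * (ξ : Bs I → ℂ) b :=
  dia_apply zero_le_one (norm_om_le R w) ξ b

theorem norm_Om_le (R : ℝ) (w : I → ℝ) : ‖Om R w‖ ≤ 1 := norm_dia_le zero_le_one (norm_om_le R w)

theorem TT_comm_Om (e : I ↪ O) (s : ℝ) (w : I → ℝ) (R : ℝ) (w' : I → ℝ) :
    TT e s w * Om R w' = Om R w' * TT e s w :=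
  TT_comm_dia e s w (φ := fun F => ((om R w' F : ℝ) : ℂ)) zero_le_one fun F => by
    rw [Complex.norm_real, Real.norm_eq_abs, abs_of_nonneg (om_nonneg R w' F)]
    exact om_le_one R w' F

open Classical in
/-- `(1 - Om) Es D` as one multiplication operator. -/
theorem one_sub_Om_mul_Es (R : ℝ) (w : I → ℝ) (D : Set I) :
    (1 - Om R w) * Es D = dia fun b : Bs I =>
      (((if (b.F : Set I) ⊆ D then 1 - om R w b.F else 0 : ℝ)) : ℂ) := by
  refine ContinuousLinearMap.ext fun ξ => ?_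
  ext b
  have h0 : ∀ b : Bs I, ‖(((if (b.F : Set I) ⊆ D then 1 - om R w b.F else 0 : ℝ)) : ℂ)‖ ≤ 1 := by
    intro b
    rw [Complex.norm_real, Real.norm_eq_abs]
    split_ifs
    · rw [abs_of_nonneg (by linarith [om_le_one R w b.F])]
      linarith [om_nonneg R w b.F]
    · simp
  rw [dia_apply zero_le_one h0]
  have h2 : (((1 - Om R w) * Es D : BL (Bs I)) ξ : Bs I → ℂ) b =
      (Es D ξ : Bs I → ℂ) b - (Om R w (Es D ξ) : Bs I → ℂ) b := rfl
  rw [h2, Om_apply, Es_apply]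
  split_ifs
  · push_cast
    ring
  · simp

end Pool.Agent.Lib.MP_aa9b81_an.Cb
end
end

section

/-!
# Continuous Bernoulli, part F11: the commutators are small on large sets
-/

open scoped ENNReal Topology
open Function Filter

noncomputable section

set_option linter.unusedSectionVars false

namespace Pool.Agent.Lib.MP_aa9b81_an.Cb

open Cut Hs

section Gen

variable {I O : Type} [DecidableEq I] [LinearOrder O]

theorem uu_zero {w : I → ℝ} (hw : ∀ i, 1 ≤ w i) {F : Finset I} (hF : F.Nonempty) (i : I) :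
    uu 0 w F i = w i / nF F w := by
  have hw0 : ∀ i, 0 < w i := fun i => lt_of_lt_of_le one_pos (hw i)
  have h1 : pp 0 w F = fun i => w i / nF F w := by
    funext i
    unfold pp
    ring
  unfold uu
  rw [h1, nF_unit (nF_pos hF hw0), div_one]

/-- The coefficients which do not see the sites of `L`. -/
def uL (w : I → ℝ) (L : Finset I) (F : Finset I) (i : I) : ℝ :=
  if i ∈ L then 0 else w i / nF (F ∪ L) w

theorem nF_union_le (w : I → ℝ) (F L : Finset I) : nF (F ∪ L) w ≤ nF F w + nF L w := by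
  have h1 : 0 ≤ nF F w := nF_nonneg _ _
  have h2 : 0 ≤ nF L w := nF_nonneg _ _
  rw [nF_le_iff (add_nonneg h1 h2)]
  have h3 : ∑ i ∈ F ∪ L, w i ^ 2 ≤ ∑ i ∈ F, w i ^ 2 + ∑ i ∈ L, w i ^ 2 := by
    rw [← Finset.sum_union_inter]
    have : 0 ≤ ∑ i ∈ F ∩ L, w i ^ 2 := Finset.sum_nonneg fun _ _ => sq_nonneg _
    linarith
  have e2 := nF_sq F w
  have e3 := nF_sq L w
  nlinarith

theorem CB_uL (w : I → ℝ) (L : Finset I) : CB (uL w L) 1 := by
  refine ⟨zero_le_one, fun F => ?_⟩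
  have h1 : ∑ i ∈ F, uL w L F i ^ 2 ≤ ∑ i ∈ F ∪ L, (w i / nF (F ∪ L) w) ^ 2 := by
    refine (Finset.sum_le_sum fun i _ => ?_).trans
      (Finset.sum_le_sum_of_subset_of_nonneg Finset.subset_union_left fun _ _ _ => sq_nonneg _)
    unfold uL
    split_ifs
    · rw [zero_pow (by norm_num)]
      exact sq_nonneg _
    · exact le_rfl
  have h2 : ∑ i ∈ F ∪ L, (w i / nF (F ∪ L) w) ^ 2 = nF (F ∪ L) w ^ 2 / nF (F ∪ L) w ^ 2 := by
    rw [nF_sq, Finset.sum_div]
    refine Finset.sum_congr rfl fun i _ => ?_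
    rw [div_pow, nF_sq]
  rw [h2] at h1
  rw [one_pow]
  exact h1.trans (div_self_le_one _)

/-- PROOF: `u - u' = A + B`, `A = u 1_L`, `B = 1_{L^c} w (1/|w_F| - 1/|w_{F ∪ L}|)`, both of norm at most
`|w_L| / |w_F|`. -/
theorem nF_uu_sub_uL {w : I → ℝ} (hw : ∀ i, 1 ≤ w i) (L : Finset I) {F : Finset I}
    (hF : F.Nonempty) :
    (nF F fun i => uu 0 w F i - uL w L F i) ≤ 2 * nF L w / nF F w := by
  have hw0 : ∀ i, 0 < w i := fun i => lt_of_lt_of_le one_pos (hw i)
  have hn : 0 < nF F w := nF_pos hF hw0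
  have hn' : nF F w ≤ nF (F ∪ L) w := nF_mono Finset.subset_union_left w
  have hn0 : 0 < nF (F ∪ L) w := hn.trans_le hn'
  have hL : 0 ≤ nF L w := nF_nonneg _ _
  have h1 : (nF F fun i => uu 0 w F i - uL w L F i) ≤
      (nF F fun i => (if i ∈ L then w i else 0) / nF F w) +
      (nF F fun i => (1 / nF F w - 1 / nF (F ∪ L) w) * (if i ∈ L then 0 else w i)) := by
    have h := nF_add_le F (fun i => (if i ∈ L then w i else 0) / nF F w)
      fun i => (1 / nF F w - 1 / nF (F ∪ L) w) * (if i ∈ L then 0 else w i)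
    refine le_trans (le_of_eq (nF_congr fun i _ => ?_)) h
    rw [uu_zero hw hF]
    unfold uL
    split_ifs
    · ring
    · ring
  have h2 : (nF F fun i => (if i ∈ L then w i else 0) / nF F w) ≤ nF L w / nF F w := by
    rw [nF_div F hn.le]
    refine div_le_div_of_nonneg_right ?_ hn.le
    rw [nF_le_iff hL, nF_sq]
    have h3 : ∑ i ∈ F, (if i ∈ L then w i else 0) ^ 2 = ∑ i ∈ F ∩ L, w i ^ 2 := by
      rw [← Finset.sum_filter_add_sum_filter_not F (fun i => i ∈ L)]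
      have h4 : ∑ i ∈ F.filter fun i => i ∈ L, (if i ∈ L then w i else 0) ^ 2 =
          ∑ i ∈ F ∩ L, w i ^ 2 := by
        rw [← Finset.filter_mem_eq_inter]
        exact Finset.sum_congr rfl fun i hi => by rw [if_pos (Finset.mem_filter.1 hi).2]
      have h5 : ∑ i ∈ F.filter fun i => i ∉ L, (if i ∈ L then w i else 0) ^ 2 = 0 :=
        Finset.sum_eq_zero fun i hi => by
          rw [if_neg (Finset.mem_filter.1 hi).2, zero_pow (by norm_num)]
      rw [h4, h5, add_zero]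
    rw [h3]
    exact Finset.sum_le_sum_of_subset_of_nonneg Finset.inter_subset_right
      fun _ _ _ => sq_nonneg _
  have h3 : (nF F fun i => (1 / nF F w - 1 / nF (F ∪ L) w) * (if i ∈ L then 0 else w i)) ≤
      nF L w / nF F w := by
    rw [nF_smul]
    have h4 : (nF F fun i => if i ∈ L then 0 else w i) ≤ nF F w := by
      refine nF_mono_fun fun i _ => ?_
      split_ifs
      · rw [abs_zero]
        exact abs_nonneg _
      · exact le_rfl
    have h5 : |1 / nF F w - 1 / nF (F ∪ L) w| * nF F w ≤ nF L w / nF F w := by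
      have h6 : 1 / nF F w - 1 / nF (F ∪ L) w =
          (nF (F ∪ L) w - nF F w) / (nF F w * nF (F ∪ L) w) := by
        field_simp
      rw [h6, abs_of_nonneg (div_nonneg (by linarith) (by positivity))]
      have h7 : (nF (F ∪ L) w - nF F w) / (nF F w * nF (F ∪ L) w) * nF F w =
          (nF (F ∪ L) w - nF F w) / nF (F ∪ L) w := by
        field_simp
      rw [h7]
      have h8 := nF_union_le w F L
      exact div_le_div₀ hL (by linarith) hn hn'
    exact (mul_le_mul_of_nonneg_left h4 (abs_nonneg _)).trans h5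
  have h4 : 2 * nF L w / nF F w = nF L w / nF F w + nF L w / nF F w := by ring
  rw [h4]
  linarith

theorem uL_of_mem (w : I → ℝ) {L : Finset I} (F : Finset I) {i : I} (h : i ∈ L) :
    uL w L F i = 0 := by
  unfold uL
  rw [if_pos h]

theorem uL_tg (w : I → ℝ) {L : Finset I} (F : Finset I) {i : I} (h : i ∈ L) (j : I) :
    uL w L (tg i F) j = uL w L F j := by
  have h1 : tg i F ∪ L = F ∪ L := by
    ext k
    rw [Finset.mem_union, Finset.mem_union, mem_tg]
    by_cases hk : k = i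
    · subst hk
      simp [h]
    · simp [hk]
  unfold uL
  rw [h1]

theorem tog_fl {i j : I} (h : j ≠ i) {b : Bs I} (hj : j ∈ b.F) (hi : i ∉ b.S) :
    tog j (fl i b) = fl i (tog j b) := by
  have h1 := tog_of_mem hj
  have h2 : j ∈ (fl i b).F := by
    rw [D6_fl_F hi, mem_tg]
    exact Or.inr ⟨h, hj⟩
  have h3 := tog_of_mem h2
  have h4 : i ∉ (tog j b).S := by
    rw [h1.2, mem_tg]
    rintro (h5 | h5)
    · exact h h5.1.symm
    · exact hi h5.2
  refine Bs.ext ?_ ?_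
  · rw [h3.1, D6_fl_F hi, D6_fl_F h4, h1.1]
  · rw [h3.2, D7_fl_S, D7_fl_S, h1.2]

/-- The Clifford operator `Cl e (uL w L)` commutes with the rotations at the sites of `L`. PROOF: coordinates:
for `j ∈ F`, `j ∉ L`: the sign `θ(j, S)` does not depend on `F`, `fl i` and `tog j` commute for `j ≠ i`
(on the pairs with `j ∈ F`), `Jw i (tog j b) = Jw i b`, and `(fl i b).F ∪ L = b.F ∪ L`. -/
theorem Ui_comm_uL (e : I ↪ O) (w : I → ℝ) {L : Finset I} {i : I}
    (hi : i ∈ L) (φ : ℝ) : Commute (Ui i φ) (Cl e (uL w L)) := by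
  refine ContinuousLinearMap.ext fun ξ => ?_
  ext b
  have hCB := CB_uL w L
  rw [mul_apply_eq_comp, mul_apply_eq_comp, D7_Ui_apply, Cl_apply e hCB, Cl_apply e hCB,
    Cl_apply e hCB]
  -- membership of `i` after toggling `j ≠ i`
  have hS : ∀ j, j ≠ i → j ∈ b.F → (i ∈ (tog j b).S ↔ i ∈ b.S) := by
    intro j hj hjF
    rw [(tog_of_mem hjF).2, mem_tg]
    constructor
    · rintro (h | h)
      · exact absurd h.1.symm hj
      · exact h.2
    · exact fun h => Or.inr ⟨hj.symm, h⟩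
  have hJ : ∀ j, j ≠ i → j ∈ b.F → Jw i (tog j b) = Jw i b := by
    intro j hj hjF
    unfold Jw
    simp only [hS j hj hjF, (tog_of_mem hjF).1]
  have hterm : ∀ j ∈ b.F, (uL w L b.F j : ℂ) * (th e j b.S * (Ui i φ ξ : Bs I → ℂ) (tog j b)) =
      (uL w L b.F j : ℂ) * (th e j b.S * (ξ : Bs I → ℂ) (tog j b)) +
      ((Real.cos φ - 1 : ℝ) : ℂ) * (if i ∈ b.S then 0 else
        (uL w L b.F j : ℂ) * (th e j b.S * (ξ : Bs I → ℂ) (tog j b))) +
      ((Real.sin φ : ℝ) : ℂ) * (Jw i b *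
        ((uL w L b.F j : ℂ) * (th e j b.S * (ξ : Bs I → ℂ) (fl i (tog j b))))) := by
    intro j hjF
    by_cases hj : j = i
    · rw [hj, uL_of_mem w b.F hi]
      simp
    · rw [D7_Ui_apply, hJ j hj hjF]
      simp only [hS j hj hjF]
      split_ifs <;> ring
  have hR : clF e (uL w L) (Ui i φ ξ : L2 (Bs I)) b = clF e (uL w L) ξ b +
      ((Real.cos φ - 1 : ℝ) : ℂ) * (if i ∈ b.S then 0 else clF e (uL w L) ξ b) +
      ((Real.sin φ : ℝ) : ℂ) * (Jw i b * ∑ j ∈ b.F,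
        ((uL w L b.F j : ℂ) * (th e j b.S * (ξ : Bs I → ℂ) (fl i (tog j b))))) := by
    unfold clF
    rw [Finset.sum_congr rfl hterm, Finset.sum_add_distrib, Finset.sum_add_distrib,
      ← Finset.mul_sum, ← Finset.mul_sum, ← Finset.mul_sum]
    congr 3
    split_ifs
    · exact Finset.sum_const_zero
    · rfl
  rw [hR]
  congr 2
  by_cases hb : i ∈ b.S
  · have h3 : Jw i b = 0 := by
      unfold Jw
      rw [if_pos hb]
    rw [h3, zero_mul, zero_mul]
  · congr 1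
    unfold clF
    rw [D6_fl_F hb, D7_fl_S]
    have e1 : ∑ j ∈ (tg i b.F).erase i, ((uL w L (tg i b.F) j : ℂ) * (th e j b.S *
        (ξ : Bs I → ℂ) (tog j (fl i b)))) = ∑ j ∈ tg i b.F, ((uL w L (tg i b.F) j : ℂ) *
        (th e j b.S * (ξ : Bs I → ℂ) (tog j (fl i b)))) :=
      Finset.sum_erase _ (by rw [uL_of_mem w _ hi]; simp)
    have e2 : ∑ j ∈ b.F.erase i, ((uL w L b.F j : ℂ) * (th e j b.S *
        (ξ : Bs I → ℂ) (fl i (tog j b)))) = ∑ j ∈ b.F, ((uL w L b.F j : ℂ) *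
        (th e j b.S * (ξ : Bs I → ℂ) (fl i (tog j b)))) :=
      Finset.sum_erase _ (by rw [uL_of_mem w _ hi]; simp)
    rw [← e1, ← e2, erase_tg]
    refine Finset.sum_congr rfl fun j hj => ?_
    have h1 := Finset.mem_erase.1 hj
    rw [uL_tg w b.F hi, tog_fl h1.1 h1.2 hb]

/-- PROOF: `sigL_comm`, `Ui_comm_uL`, `Cl_comm_dia`. -/
theorem sigL_comm_uL (e : I ↪ O) (w : I → ℝ) (L : Finset I) (θ : ℝ) {f : (I → Bool) → ℂ} {C : ℝ}
    (hC : 0 ≤ C) (h : ∀ T, ‖f T‖ ≤ C) : Commute (sigL L θ f) (Cl e (uL w L)) := by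
  refine sigL_comm (fun i hi φ => Ui_comm_uL e w hi φ) ?_
  exact (Cl_comm_dia e (CB_uL w L) (φ := fun F => f (ind F)) hC fun F => h _).symm

/-- The commutator with the rotated functions of the sites of `L` is small on the large sets. PROOF:
`Cl e (uL w L)` commutes with `n`, and `Ψ` (a function of `F ∖ L`) commutes with `n`; on the support of `Ψ` the
difference `u - u'` has norm at most `2 m / R₁`. -/
theorem norm_comm_sigL_le (e : I ↪ O) {w : I → ℝ} (hw : ∀ i, 1 ≤ w i) (L : Finset I) (θ : ℝ)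
    {f : (I → Bool) → ℂ} (h : ∀ T, ‖f T‖ ≤ 1) {m R₁ : ℝ} (hR₁ : 0 < R₁) (hm : nF L w ≤ m)
    {φ : Finset I → ℝ} (hφ : ∀ F, |φ F| ≤ 1) (hφR : ∀ F, φ F ≠ 0 → R₁ ≤ nF (F \ L) w) :
    ‖(TT e 0 w * sigL L θ f - sigL L θ f * TT e 0 w) *
      dia (fun b : Bs I => ((φ b.F : ℝ) : ℂ))‖ ≤ 4 * m / R₁ := by
  classical
  have hm0 : 0 ≤ m := (nF_nonneg L w).trans hm
  obtain ⟨ψ, hψ⟩ : ∃ ψ : Finset I → ℝ, ψ = fun F => if R₁ ≤ nF (F \ L) w then 1 else 0 := ⟨_, rfl⟩
  have hψ1 : ∀ F, |ψ F| ≤ 1 := by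
    intro F
    rw [hψ]
    show |if R₁ ≤ nF (F \ L) w then (1 : ℝ) else 0| ≤ 1
    split_ifs <;> simp
  have hψb : ∀ b : Bs I, ‖((ψ b.F : ℝ) : ℂ)‖ ≤ 1 := fun b => by
    rw [Complex.norm_real]
    exact hψ1 b.F
  have hφb : ∀ b : Bs I, ‖((φ b.F : ℝ) : ℂ)‖ ≤ 1 := fun b => by
    rw [Complex.norm_real]
    exact hφ b.F
  obtain ⟨Ψ, hΨ⟩ : ∃ Ψ : BL (Bs I), Ψ = dia fun b : Bs I => ((ψ b.F : ℝ) : ℂ) := ⟨_, rfl⟩
  obtain ⟨P, hP⟩ : ∃ P : BL (Bs I), P = dia fun b : Bs I => ((φ b.F : ℝ) : ℂ) := ⟨_, rfl⟩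
  obtain ⟨n, hn⟩ : ∃ n : BL (Bs I), n = sigL L θ f := ⟨_, rfl⟩
  obtain ⟨T', hT'⟩ : ∃ T' : BL (Bs I), T' = Cl e (uL w L) := ⟨_, rfl⟩
  have hPΨ : P = Ψ * P := by
    rw [hP, hΨ]
    refine ContinuousLinearMap.ext fun ξ => ?_
    ext b
    rw [mul_apply_eq_comp, dia_apply zero_le_one hψb, dia_apply zero_le_one hφb]
    by_cases h0 : φ b.F = 0
    · rw [h0]
      simp
    · have h1 : ψ b.F = 1 := by
        rw [hψ]
        exact if_pos (hφR b.F h0)
      rw [h1]
      simp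
  have hnΨ : n * Ψ = Ψ * n := by
    rw [hn, hΨ]
    refine sigL_comm (fun i hi φ' => Ui_comm_dia zero_le_one hψb (fun b => ?_) φ') ?_
    · have h1 : (fl i b).F \ L = b.F \ L := by
        by_cases hb : i ∈ b.S
        · rw [D6_fl_of_mem hb]
        · rw [D6_fl_F hb]
          ext k
          rw [Finset.mem_sdiff, Finset.mem_sdiff, mem_tg]
          by_cases hk : k = i
          · subst hk
            simp [hi]
          · simp [hk]
      rw [hψ]
      simp only [h1]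
    · exact dF_comm_dia zero_le_one h zero_le_one hψb
  have hnT : n * T' = T' * n := by
    rw [hn, hT']
    exact sigL_comm_uL e w L θ zero_le_one h
  have hdiff : ‖(TT e 0 w - T') * Ψ‖ ≤ 2 * m / R₁ := by
    rw [hT', hΨ]
    refine norm_Cl_sub_mul_dia_le e (CB_uu 0 w) (CB_uL w L) hψ1 (by positivity) fun F hF => ?_
    have h1 : R₁ ≤ nF (F \ L) w := by
      rw [hψ] at hF
      by_contra h2
      exact hF (if_neg h2)
    have h2 : R₁ ≤ nF F w := h1.trans (nF_mono Finset.sdiff_subset w)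
    have hne : F.Nonempty := by
      rw [Finset.nonempty_iff_ne_empty]
      rintro rfl
      rw [nF_empty] at h2
      linarith
    refine (nF_uu_sub_uL hw L hne).trans ?_
    have h3 : 0 < nF F w := hR₁.trans_le h2
    exact div_le_div₀ (by linarith) (by linarith) hR₁ h2
  have hcomm : (TT e 0 w * n - n * TT e 0 w) * P =
      ((TT e 0 w - T') * Ψ * n - n * ((TT e 0 w - T') * Ψ)) * P := by
    have h1 : (TT e 0 w * n - n * TT e 0 w) = (TT e 0 w - T') * n - n * (TT e 0 w - T') := by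
      rw [sub_mul, mul_sub, hnT]
      abel
    rw [h1]
    conv_lhs => rw [hPΨ]
    calc ((TT e 0 w - T') * n - n * (TT e 0 w - T')) * (Ψ * P)
        = ((TT e 0 w - T') * (n * Ψ) - n * ((TT e 0 w - T') * Ψ)) * P := by
          simp only [sub_mul, mul_assoc]
      _ = _ := by
          rw [hnΨ]
          simp only [sub_mul, mul_assoc]
  rw [← hn, ← hP, hcomm]
  have hn1 : ‖n‖ ≤ 1 := by
    rw [hn]
    exact norm_sigL_le zero_le_one h L θ
  have hP1 : ‖P‖ ≤ 1 := by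
    rw [hP]
    exact norm_dia_le zero_le_one hφb
  obtain ⟨X, hX⟩ : ∃ X : BL (Bs I), X = (TT e 0 w - T') * Ψ := ⟨_, rfl⟩
  rw [← hX] at hdiff ⊢
  have h1 : ‖X * n‖ ≤ 2 * m / R₁ :=
    (norm_mul_le _ _).trans ((mul_le_mul hdiff hn1 (norm_nonneg _) (by positivity)).trans
      (by rw [mul_one]))
  have h2 : ‖n * X‖ ≤ 2 * m / R₁ :=
    (norm_mul_le _ _).trans ((mul_le_mul hn1 hdiff (norm_nonneg _) zero_le_one).trans
      (by rw [one_mul]))
  have h3 : ‖X * n - n * X‖ ≤ 4 * m / R₁ := by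
    refine (norm_sub_le _ _).trans ((add_le_add h1 h2).trans (le_of_eq ?_))
    ring
  exact (norm_mul_le _ _).trans ((mul_le_mul h3 hP1 (norm_nonneg _) (by positivity)).trans
      (by rw [mul_one]))

end Gen

end Pool.Agent.Lib.MP_aa9b81_an.Cb
end
end

section

/-!
# Continuous Bernoulli, part F9: the rotated functions: algebra, the ends, continuity in the angle
-/

open scoped ENNReal Topology
open Function Filter

noncomputable section

set_option linter.unusedSectionVars false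

namespace Pool.Agent.Lib.MP_aa9b81_an.Cb

open Cut Hs

variable {I : Type} [DecidableEq I]

theorem sigL_add {f f' : (I → Bool) → ℂ} {C C' : ℝ} (hC : 0 ≤ C) (h : ∀ T, ‖f T‖ ≤ C)
    (hC' : 0 ≤ C') (h' : ∀ T, ‖f' T‖ ≤ C') (L : Finset I) (θ : ℝ) :
    (sigL L θ fun T => f T + f' T) = sigL L θ f + sigL L θ f' := by
  unfold sigL
  rw [← dF_add hC h hC' h', mul_add, add_mul]

theorem sigL_smul {f : (I → Bool) → ℂ} {C : ℝ} (hC : 0 ≤ C) (h : ∀ T, ‖f T‖ ≤ C) (c : ℂ)
    (L : Finset I) (θ : ℝ) : (sigL L θ fun T => c * f T) = c • sigL L θ f := by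
  unfold sigL
  rw [← dF_smul hC h, mul_smul_comm, smul_mul_assoc]

theorem sigL_mul {f f' : (I → Bool) → ℂ} {C C' : ℝ} (hC : 0 ≤ C) (h : ∀ T, ‖f T‖ ≤ C)
    (hC' : 0 ≤ C') (h' : ∀ T, ‖f' T‖ ≤ C') (L : Finset I) (θ : ℝ) :
    (sigL L θ fun T => f T * f' T) = sigL L θ f * sigL L θ f' := by
  unfold sigL
  rw [← dF_mul hC h hC' h']
  calc (UK L (-θ) : BL (Bs I)) * (dF f * dF f') * (UK L θ : BL (Bs I))
      = (UK L (-θ) : BL (Bs I)) * dF f * 1 * (dF f' * (UK L θ : BL (Bs I))) := by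
        rw [mul_one]
        simp only [mul_assoc]
    _ = _ := by
        rw [← UK_mul_UK_neg L θ]
        simp only [mul_assoc]

theorem adjoint_sigL {f : (I → Bool) → ℂ} {C : ℝ} (hC : 0 ≤ C) (h : ∀ T, ‖f T‖ ≤ C)
    (L : Finset I) (θ : ℝ) :
    ContinuousLinearMap.adjoint (sigL L θ f) = sigL L θ fun T => (starRingEnd ℂ) (f T) := by
  have h1 : ∀ A B : BL (Bs I), ContinuousLinearMap.adjoint (A * B) =
      ContinuousLinearMap.adjoint B * ContinuousLinearMap.adjoint A := fun A B =>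
    ContinuousLinearMap.adjoint_comp A B
  unfold sigL
  rw [h1, h1, adjoint_UK, adjoint_UK, neg_neg, adjoint_dF hC h, mul_assoc]

theorem sig_add {f f' : (I → Bool) → ℂ} (hf : Continuous f) (hf' : Continuous f') (θ : ℝ) :
    (sig θ fun T => f T + f' T) = sig θ f + sig θ f' := by
  obtain ⟨C, hC, h⟩ := exists_bdd hf
  obtain ⟨C', hC', h'⟩ := exists_bdd hf'
  refine tendsto_nhds_unique (tendsto_sig (hf.add hf') θ) ?_
  refine ((tendsto_sig hf θ).add (tendsto_sig hf' θ)).congr fun L => ?_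
  exact (sigL_add hC h hC' h' L θ).symm

theorem sig_smul {f : (I → Bool) → ℂ} (hf : Continuous f) (c : ℂ) (θ : ℝ) :
    (sig θ fun T => c * f T) = c • sig θ f := by
  obtain ⟨C, hC, h⟩ := exists_bdd hf
  refine tendsto_nhds_unique (tendsto_sig (continuous_const.mul hf) θ) ?_
  refine ((tendsto_sig hf θ).const_smul c).congr fun L => ?_
  exact (sigL_smul hC h c L θ).symm

theorem sig_sub {f f' : (I → Bool) → ℂ} (hf : Continuous f) (hf' : Continuous f') (θ : ℝ) :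
    (sig θ fun T => f T - f' T) = sig θ f - sig θ f' := by
  have hc : Continuous fun T => (-1 : ℂ) * f' T := continuous_const.mul hf'
  have h1 := sig_add hf hc θ
  rw [sig_smul hf' (-1) θ, neg_one_smul, ← sub_eq_add_neg] at h1
  rw [← h1]
  congr 1
  funext T
  ring

theorem sig_mul {f f' : (I → Bool) → ℂ} (hf : Continuous f) (hf' : Continuous f') (θ : ℝ) :
    (sig θ fun T => f T * f' T) = sig θ f * sig θ f' := by
  obtain ⟨C, hC, h⟩ := exists_bdd hf
  obtain ⟨C', hC', h'⟩ := exists_bdd hf'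
  refine tendsto_nhds_unique (tendsto_sig (hf.mul hf') θ) ?_
  refine ((tendsto_sig hf θ).mul (tendsto_sig hf' θ)).congr fun L => ?_
  exact (sigL_mul hC h hC' h' L θ).symm

theorem adjoint_sig {f : (I → Bool) → ℂ} (hf : Continuous f) (θ : ℝ) :
    ContinuousLinearMap.adjoint (sig θ f) = sig θ fun T => (starRingEnd ℂ) (f T) := by
  obtain ⟨C, hC, h⟩ := exists_bdd hf
  have hf' : Continuous fun T => (starRingEnd ℂ) (f T) := Complex.continuous_conj.comp hf
  refine tendsto_nhds_unique ?_ (tendsto_sig hf' θ)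
  have h1 : Continuous fun A : BL (Bs I) => ContinuousLinearMap.adjoint A :=
    (ContinuousLinearMap.adjoint (𝕜 := ℂ) (E := L2 (Bs I)) (F := L2 (Bs I))).continuous
  refine ((h1.tendsto _).comp (tendsto_sig hf θ)).congr fun L => ?_
  exact adjoint_sigL hC h L θ

theorem norm_sig_sub_sig_le {f f' : (I → Bool) → ℂ} (hf : Continuous f) (hf' : Continuous f')
    {ε : ℝ} (hε : 0 ≤ ε) (h : ∀ T, ‖f T - f' T‖ ≤ ε) (θ : ℝ) : ‖sig θ f - sig θ f'‖ ≤ ε := by
  rw [← sig_sub hf hf' θ]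
  exact norm_sig_le (hf.sub hf') hε h θ

/-- PROOF: `UK_zero`. -/
theorem sigL_zero (L : Finset I) (f : (I → Bool) → ℂ) : sigL L 0 f = dF f := by
  unfold sigL
  rw [neg_zero, UK_zero, Units.val_one, one_mul, mul_one]

theorem sig_zero {f : (I → Bool) → ℂ} (hf : Continuous f) : sig 0 f = dF f := by
  refine tendsto_nhds_unique (tendsto_sig hf 0) ?_
  exact tendsto_const_nhds.congr fun L => (sigL_zero L f).symm

/-! ### The angle `π / 2` -/

/-- PROOF: coordinates: at `φ = π/2` the rotation is `ξ ↦ Jw i b ξ (fl i b)` for `i ∉ S`. -/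
theorem dia_mul_Ui_pi_div_two {h : Bs I → ℂ} {C : ℝ} (hC : 0 ≤ C) (hh : ∀ b, ‖h b‖ ≤ C) (i : I) :
    dia h * Ui i (Real.pi / 2) = Ui i (Real.pi / 2) * dia fun b => h (fl i b) := by
  refine ContinuousLinearMap.ext fun ξ => ?_
  ext b
  rw [mul_apply_eq_comp, mul_apply_eq_comp, dia_apply hC hh, D7_Ui_apply, D7_Ui_apply,
    dia_apply hC fun b => hh (fl i b), dia_apply hC fun b => hh (fl i b), Real.cos_pi_div_two,
    Real.sin_pi_div_two, D6a_fl_fl]
  by_cases hb : i ∈ b.S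
  · have h3 : Jw i b = 0 := by
      unfold Jw
      rw [if_pos hb]
    rw [h3]
    simp only [if_pos hb]
    rw [D6_fl_of_mem hb]
    ring
  · simp only [if_neg hb]
    push_cast
    ring

/-- The pair with the membership in `F` changed at all the sites of `L ∖ S`. -/
def flL (L : Finset I) (b : Bs I) : Bs I :=
  Bs.mk (b.F.filter (fun i => i ∉ L) ∪ (L.filter fun i => i ∉ b.F) ∪ b.S) b.S
    Finset.subset_union_right

theorem mem_flL {L : Finset I} {b : Bs I} {i : I} :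
    i ∈ (flL L b).F ↔ (i ∈ b.F ∧ i ∉ L) ∨ (i ∈ L ∧ i ∉ b.F) ∨ i ∈ b.S := by
  unfold flL
  rw [Bs.mk_F, Finset.mem_union, Finset.mem_union, Finset.mem_filter, Finset.mem_filter, or_assoc]

theorem flL_empty (b : Bs I) : flL ∅ b = b := by
  refine Bs.ext ?_ rfl
  ext i
  rw [mem_flL]
  constructor
  · rintro (h | h | h)
    · exact h.1
    · exact absurd h.1 (Finset.notMem_empty i)
    · exact b.sub h
  · exact fun h => Or.inl ⟨h, Finset.notMem_empty i⟩

theorem flL_insert {i : I} {L : Finset I} (hi : i ∉ L) (b : Bs I) :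
    flL (insert i L) b = fl i (flL L b) := by
  by_cases hS : i ∈ b.S
  · have h1 : i ∈ (flL L b).S := hS
    rw [D6_fl_of_mem h1]
    refine Bs.ext ?_ rfl
    ext j
    rw [mem_flL, mem_flL]
    by_cases hj : j = i
    · subst hj
      simp [hS]
    · simp [hj]
  · have h1 : i ∉ (flL L b).S := hS
    refine Bs.ext ?_ ?_
    · rw [D6_fl_F h1]
      ext j
      rw [mem_tg, mem_flL, mem_flL, mem_flL]
      by_cases hj : j = i
      · subst hj
        simp [hS, hi]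
      · simp [hj]
    · rw [D7_fl_S]
      rfl

theorem dia_mul_UK_pi_div_two {h : Bs I → ℂ} {C : ℝ} (hC : 0 ≤ C) (hh : ∀ b, ‖h b‖ ≤ C)
    (L : Finset I) : dia h * (UK L (Real.pi / 2) : BL (Bs I)) =
      (UK L (Real.pi / 2) : BL (Bs I)) * dia fun b => h (flL L b) := by
  induction L using Finset.induction_on with
  | empty =>
    rw [UK_empty, Units.val_one, mul_one, one_mul]
    simp only [flL_empty]
  | insert i L hi ih =>
    have h1 : (UK (insert i L) (Real.pi / 2) : BL (Bs I)) =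
        (UK L (Real.pi / 2) : BL (Bs I)) * Ui i (Real.pi / 2) := by
      rw [UK_insert hi, Units.val_mul]
      exact (UK_comm fun j _ => Ui_comm j i (Real.pi / 2) (Real.pi / 2)).symm.eq
    rw [h1, ← mul_assoc, ih, mul_assoc, dia_mul_Ui_pi_div_two hC fun b => hh (flL L b), mul_assoc]
    congr 3
    funext b
    -- `flL L (fl i b) = flL (insert i L) b`
    have h2 : flL L (fl i b) = fl i (flL L b) := by
      by_cases hS : i ∈ b.S
      · have h3 : i ∈ (flL L b).S := hS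
        rw [D6_fl_of_mem hS, D6_fl_of_mem h3]
      · have h3 : i ∉ (flL L b).S := hS
        refine Bs.ext ?_ ?_
        · rw [D6_fl_F h3]
          ext j
          rw [mem_tg, mem_flL, mem_flL, mem_flL, D6_fl_F hS, mem_tg, D7_fl_S]
          by_cases hj : j = i
          · subst hj
            simp [hS, hi]
          · simp [hj]
        · rw [D7_fl_S]
          show (fl i b).S = b.S
          rw [D7_fl_S]
    rw [h2, flL_insert hi]

/-- The indicator function of the complement of `F ∖ S`. -/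
def indc (b : Bs I) : I → Bool := fun i => decide (i ∉ b.F \ b.S)

theorem sigL_pi_div_two {f : (I → Bool) → ℂ} {L : Finset I} (hf : Dep (L : Set I) 0 f) :
    sigL L (Real.pi / 2) f = dia fun b => f (indc b) := by
  obtain ⟨C, hC, h⟩ := hf.exists_bdd
  unfold sigL dF
  rw [mul_assoc, dia_mul_UK_pi_div_two hC (fun b => h (ind b.F)), ← mul_assoc, UK_neg_mul_UK,
    one_mul]
  congr 1
  funext b
  have h2 := hf (ind (flL L b).F) (indc b) (by
    intro i hi
    have hi' : i ∈ L := Finset.mem_coe.1 hi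
    unfold ind indc
    have h3 : i ∈ (flL L b).F ↔ i ∉ b.F \ b.S := by
      rw [mem_flL, Finset.mem_sdiff]
      by_cases h4 : i ∈ b.F <;> by_cases h5 : i ∈ b.S <;> simp [h4, h5, hi']
    exact decide_eq_decide.2 h3)
  exact sub_eq_zero.1 (norm_eq_zero.1 (le_antisymm h2 (norm_nonneg _)))

/-- PROOF: `sigL_pi_div_two` for the restrictions; both sides are within `ε` of it. -/
theorem sig_pi_div_two {f : (I → Bool) → ℂ} (hf : Continuous f) :
    sig (Real.pi / 2) f = dia fun b => f (indc b) := by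
  obtain ⟨C, hC, hb⟩ := exists_bdd hf
  refine eq_of_sub_eq_zero (norm_eq_zero.1 (le_antisymm (le_of_forall_pos_le_add fun ε hε => ?_)
    (norm_nonneg _)))
  obtain ⟨L, hL⟩ := exists_dep hf (show 0 < ε / 2 by linarith)
  have h1 := norm_sig_sub_le hf hL (Real.pi / 2)
  rw [sigL_pi_div_two (dep_rs L f)] at h1
  have h2 : ‖(dia fun b => f (rs L (indc b)) : BL (Bs I)) - dia fun b => f (indc b)‖ ≤ ε / 2 := by
    have h3 : (dia fun b => f (rs L (indc b)) : BL (Bs I)) - (dia fun b => f (indc b)) =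
        dia fun b => f (rs L (indc b)) - f (indc b) := by
      refine ContinuousLinearMap.ext fun ξ => ?_
      ext b
      have h4 : (((dia fun b => f (rs L (indc b)) : BL (Bs I)) - (dia fun b => f (indc b))) ξ :
          Bs I → ℂ) b = (dia (fun b => f (rs L (indc b))) ξ : Bs I → ℂ) b -
            (dia (fun b => f (indc b)) ξ : Bs I → ℂ) b := rfl
      rw [h4, dia_apply hC fun b => hb (rs L (indc b)), dia_apply hC fun b => hb (indc b),
        dia_apply (add_nonneg hC hC) fun b => (norm_sub_le _ _).trans (add_le_add (hb _) (hb _))]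
      ring
    rw [h3]
    refine norm_dia_le (by linarith) fun b => ?_
    rw [norm_sub_rev]
    exact hL.norm_sub_le _
  have h3 := norm_sub_le_norm_sub_add_norm_sub (sig (Real.pi / 2) f)
    (dia fun b => f (rs L (indc b))) (dia fun b => f (indc b))
  linarith

/-! ### Continuity in the angle -/

theorem norm_Ni_le (i : I) : ‖(Ni i : BL (Bs I))‖ ≤ 1 :=
  norm_dia_le zero_le_one fun b => by split_ifs <;> simp

theorem norm_Ji_le (i : I) : ‖(Ji i : BL (Bs I))‖ ≤ 1 := norm_wop_le (Ji_wok i)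

theorem norm_Ui_sub_le (i : I) (θ θ' : ℝ) : ‖(Ui i θ - Ui i θ' : BL (Bs I))‖ ≤ 2 * |θ - θ'| := by
  have h1 : (Ui i θ - Ui i θ' : BL (Bs I)) = ((Real.cos θ - Real.cos θ' : ℝ) : ℂ) • Ni i +
      ((Real.sin θ - Real.sin θ' : ℝ) : ℂ) • Ji i := by
    unfold Ui
    push_cast
    module
  rw [h1]
  refine (norm_add_le _ _).trans ?_
  rw [norm_smul, norm_smul, Complex.norm_real, Complex.norm_real, Real.norm_eq_abs,
    Real.norm_eq_abs]
  have h2 := Real.abs_cos_sub_cos_le θ θ'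
  have h3 := Real.abs_sin_sub_sin_le θ θ'
  have h4 := norm_Ni_le i
  have h5 := norm_Ji_le i
  have h6 : |Real.cos θ - Real.cos θ'| * ‖(Ni i : BL (Bs I))‖ ≤ |θ - θ'| * 1 :=
    mul_le_mul h2 h4 (norm_nonneg _) (abs_nonneg _)
  have h7 : |Real.sin θ - Real.sin θ'| * ‖(Ji i : BL (Bs I))‖ ≤ |θ - θ'| * 1 :=
    mul_le_mul h3 h5 (norm_nonneg _) (abs_nonneg _)
  linarith

theorem norm_UK_sub_le (L : Finset I) (θ θ' : ℝ) :
    ‖(UK L θ : BL (Bs I)) - (UK L θ' : BL (Bs I))‖ ≤ 2 * L.card * |θ - θ'| := by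
  induction L using Finset.induction_on with
  | empty =>
    rw [UK_empty, UK_empty, sub_self, norm_zero]
    positivity
  | insert i L hi ih =>
    have h2 : ((Uu i θ : (BL (Bs I))ˣ) : BL (Bs I)) = Ui i θ := rfl
    have h3 : ((Uu i θ' : (BL (Bs I))ˣ) : BL (Bs I)) = Ui i θ' := rfl
    rw [UK_insert hi, UK_insert hi, Units.val_mul, Units.val_mul, h2, h3]
    have h4 : Ui i θ * (UK L θ : BL (Bs I)) - Ui i θ' * (UK L θ' : BL (Bs I)) =
        (Ui i θ - Ui i θ') * (UK L θ : BL (Bs I)) +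
          Ui i θ' * ((UK L θ : BL (Bs I)) - (UK L θ' : BL (Bs I))) := by
      rw [sub_mul, mul_sub]
      abel
    rw [h4, Finset.card_insert_of_notMem hi]
    refine (norm_add_le _ _).trans ?_
    have h5 := (norm_mul_le (Ui i θ - Ui i θ') (UK L θ : BL (Bs I))).trans
      (mul_le_mul (norm_Ui_sub_le i θ θ') (norm_UK_le L θ) (norm_nonneg _) (by positivity))
    have h6 := (norm_mul_le (Ui i θ') ((UK L θ : BL (Bs I)) - (UK L θ' : BL (Bs I)))).trans
      (mul_le_mul (norm_Ui_le i θ') ih (norm_nonneg _) zero_le_one)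
    push_cast
    linarith

theorem norm_sigL_sub_angle {f : (I → Bool) → ℂ} {C : ℝ} (hC : 0 ≤ C) (h : ∀ T, ‖f T‖ ≤ C)
    (L : Finset I) (θ θ' : ℝ) :
    ‖sigL L θ f - sigL L θ' f‖ ≤ 4 * L.card * |θ - θ'| * C := by
  unfold sigL
  have h1 : (UK L (-θ) : BL (Bs I)) * dF f * (UK L θ : BL (Bs I)) -
      (UK L (-θ') : BL (Bs I)) * dF f * (UK L θ' : BL (Bs I)) =
      ((UK L (-θ) : BL (Bs I)) - (UK L (-θ') : BL (Bs I))) * dF f * (UK L θ : BL (Bs I)) +
      (UK L (-θ') : BL (Bs I)) * dF f * ((UK L θ : BL (Bs I)) - (UK L θ' : BL (Bs I))) := by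
    rw [sub_mul, sub_mul, mul_sub]
    abel
  rw [h1]
  have hf := norm_dF_le hC h
  have h2 := norm_UK_sub_le L (-θ) (-θ')
  have h3 := norm_UK_sub_le L θ θ'
  have h4 : |-θ - -θ'| = |θ - θ'| := by
    rw [← abs_neg]
    congr 1
    ring
  rw [h4] at h2
  refine (norm_add_le _ _).trans ?_
  have h5 : ‖((UK L (-θ) : BL (Bs I)) - (UK L (-θ') : BL (Bs I))) * dF f *
      (UK L θ : BL (Bs I))‖ ≤ (2 * L.card * |θ - θ'|) * C * 1 :=
    (norm_mul_le _ _).trans (mul_le_mul ((norm_mul_le _ _).trans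
      (mul_le_mul h2 hf (norm_nonneg _) (by positivity))) (norm_UK_le L θ) (norm_nonneg _)
      (by positivity))
  have h6 : ‖(UK L (-θ') : BL (Bs I)) * dF f *
      ((UK L θ : BL (Bs I)) - (UK L θ' : BL (Bs I)))‖ ≤ (1 * C) * (2 * L.card * |θ - θ'|) :=
    (norm_mul_le _ _).trans (mul_le_mul ((norm_mul_le _ _).trans
      (mul_le_mul (norm_UK_le L (-θ')) hf (norm_nonneg _) zero_le_one)) h3 (norm_nonneg _)
      (by positivity))
  linarith

/-- PROOF: `norm_sig_sub_le` for both angles and `norm_sigL_sub_angle`. -/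
theorem norm_sig_sub_angle {f : (I → Bool) → ℂ} (hf : Continuous f) {C : ℝ} (hC : 0 ≤ C)
    (h : ∀ T, ‖f T‖ ≤ C) {L : Finset I} {ε : ℝ} (hL : Dep (L : Set I) ε f) (θ θ' : ℝ) :
    ‖sig θ f - sig θ' f‖ ≤ 2 * ε + 4 * L.card * |θ - θ'| * C := by
  have h1 := norm_sig_sub_le hf hL θ
  have h2 := norm_sig_sub_le hf hL θ'
  have h3 := norm_sigL_sub_angle hC (fun T => h (rs L T)) L θ θ'
  have h4 : sig θ f - sig θ' f = (sig θ f - sigL L θ fun T => f (rs L T)) -
      (sig θ' f - sigL L θ' fun T => f (rs L T)) +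
      ((sigL L θ fun T => f (rs L T)) - sigL L θ' fun T => f (rs L T)) := by abel
  rw [h4]
  have h5 := norm_add_le ((sig θ f - sigL L θ fun T => f (rs L T)) -
      (sig θ' f - sigL L θ' fun T => f (rs L T)))
      ((sigL L θ fun T => f (rs L T)) - sigL L θ' fun T => f (rs L T))
  have h6 := norm_sub_le (sig θ f - sigL L θ fun T => f (rs L T))
      (sig θ' f - sigL L θ' fun T => f (rs L T))
  linarith

theorem continuous_sig {f : (I → Bool) → ℂ} (hf : Continuous f) :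
    Continuous fun θ : ℝ => sig θ f := by
  obtain ⟨C, hC, h⟩ := exists_bdd hf
  rw [Metric.continuous_iff]
  intro θ ε hε
  obtain ⟨L, hL⟩ := exists_dep hf (show 0 < ε / 4 by linarith)
  refine ⟨ε / (2 * (4 * L.card * C + 1)), by positivity, fun θ' hθ' => ?_⟩
  rw [dist_eq_norm]
  have h1 := norm_sig_sub_angle hf hC h hL θ' θ
  rw [Real.dist_eq] at hθ'
  have h2 : 4 * L.card * |θ' - θ| * C < ε / 2 := by
    have h3 : (0 : ℝ) < 4 * L.card * C + 1 := by positivity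
    have h4 : |θ' - θ| * (4 * L.card * C + 1) < ε / 2 := by
      rw [lt_div_iff₀ (by positivity)] at hθ'
      linarith
    have h5 : 0 ≤ |θ' - θ| := abs_nonneg _
    nlinarith
  linarith

end Pool.Agent.Lib.MP_aa9b81_an.Cb
end
end
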