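import Pool.Agent.Lib.MP_aa9b81_an.Mg.G062
import Pool.Agent.Lib.MP_aa9b81_an.Mg.G060
import Pool.Agent.Lib.MP_aa9b81_an.Mg.G065
import Pool.Agent.Lib.MP_aa9b81_an.Mg.G061
import Pool.Agent.Lib.MP_aa9b81_an.Mg.G064

section

/-!
# Continuous Bernoulli, part Lgb: products of generators, induction
-/

open scoped ENNReal Topology Pointwise CompactlySupported
open Function Filter MeasureTheory

noncomputable section

set_option linter.unusedSectionVars false

namespace Pool.Agent.Lib.MP_aa9b81_an.Cb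

open Cut Hs

variable {G J B : Type} [Group G] [TopologicalSpace G] [IsTopologicalGroup G]
  [LocallyCompactSpace G] [SecondCountableTopology G] [T2Space G] [MeasurableSpace G] [BorelSpace G]
  [TopologicalSpace B] [T2Space B] [MulAction G B] [ContinuousSMul G B] [Nonempty J]

/-- The convolution product. PROOF: continuity: `continuous_integral` with `Z = B × G` (the integrand is `0` for `x` outside of the compact set `C` of `exists_bound`); the support: if the integrand
is not `0` for some `x` then `b` is in the image in `B` of the support of `φ` (compact) and `g ∈ C * C'`; `HasCompactSupport.intro`. -/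
theorem exists_cv (φ ψ : C_c(B × G, ℂ)) : ∃ χ : C_c(B × G, ℂ), ∀ b g,
    χ (b, g) = ∫ x, φ (b, x) * ψ (x⁻¹ • b, x⁻¹ * g) ∂mu G := by
  obtain ⟨C, M, hC, hM, hφ, hs⟩ := exists_bound φ
  obtain ⟨C', M', hC', hM', hψ, hs'⟩ := exists_bound ψ
  have hcont : Continuous fun p : B × G =>
      ∫ x, φ (p.1, x) * ψ (x⁻¹ • p.1, x⁻¹ * p.2) ∂mu G := by
    refine continuous_integral (Z := B × G)
      (f := fun p x => φ (p.1, x) * ψ (x⁻¹ • p.1, x⁻¹ * p.2)) ?_ ?_
    · have h1 : Continuous fun q : (B × G) × G => φ (q.1.1, q.2) :=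
        φ.continuous.comp ((continuous_fst.comp continuous_fst).prodMk continuous_snd)
      have h2 : Continuous fun q : (B × G) × G => ψ (q.2⁻¹ • q.1.1, q.2⁻¹ * q.1.2) :=
        ψ.continuous.comp ((continuous_snd.inv.smul (continuous_fst.comp continuous_fst)).prodMk
          (continuous_snd.inv.mul (continuous_snd.comp continuous_fst)))
      exact h1.mul h2
    · intro z₀
      exact ⟨C, hC, Filter.Eventually.of_forall fun z b hb => by
        change φ (z.1, b) * ψ (b⁻¹ • z.1, b⁻¹ * z.2) = 0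
        rw [hs _ _ hb, zero_mul]⟩
  have hsupp : HasCompactSupport fun p : B × G =>
      ∫ x, φ (p.1, x) * ψ (x⁻¹ • p.1, x⁻¹ * p.2) ∂mu G := by
    refine HasCompactSupport.intro (K := (Prod.fst '' tsupport φ) ×ˢ (C * C')) ?_ ?_
    · exact (φ.hasCompactSupport.isCompact.image continuous_fst).prod (hC.mul hC')
    · intro p hp
      have h0 : ∀ x : G, φ (p.1, x) * ψ (x⁻¹ • p.1, x⁻¹ * p.2) = 0 := by
        intro x
        by_contra hne
        have h1 : φ (p.1, x) ≠ 0 := left_ne_zero_of_mul hne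
        have h2 : ψ (x⁻¹ • p.1, x⁻¹ * p.2) ≠ 0 := right_ne_zero_of_mul hne
        have h3 : x ∈ C := by
          by_contra h
          exact h1 (hs _ _ h)
        have h4 : x⁻¹ * p.2 ∈ C' := by
          by_contra h
          exact h2 (hs' _ _ h)
        refine hp ⟨⟨(p.1, x), subset_tsupport _ h1, rfl⟩, ?_⟩
        exact Set.mem_mul.2 ⟨x, h3, x⁻¹ * p.2, h4, by rw [mul_inv_cancel_left]⟩
      simp only [h0, integral_zero]
  exact ⟨⟨⟨_, hcont⟩, hsupp⟩, fun b g => rfl⟩

private theorem Lgb_Eu_mul (i j l : J) : (Eu i j : BL J).comp (Eu j l : BL J) = Eu i l := by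
  classical
  refine ContinuousLinearMap.ext fun v => ?_
  ext a
  rw [ContinuousLinearMap.comp_apply, Eu_apply, Eu_apply, Eu_apply, if_pos rfl]

private theorem Lgb_Eu_mul_of_ne (i l : J) {j j' : J} (h : j ≠ j') :
    (Eu i j : BL J).comp (Eu j' l : BL J) = 0 := by
  classical
  refine ContinuousLinearMap.ext fun v => ?_
  ext a
  rw [ContinuousLinearMap.comp_apply, Eu_apply, Eu_apply, if_neg h, ite_self]
  rfl

/-- The convolution product `(φ * ψ)(b, g) = ∫ φ(b, x) ψ(x⁻¹ b, x⁻¹ g) dx`. -/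
def cv (φ ψ : C_c(B × G, ℂ)) : C_c(B × G, ℂ) := (exists_cv φ ψ).choose

theorem cv_apply (φ ψ : C_c(B × G, ℂ)) (b : B) (g : G) :
    cv φ ψ (b, g) = ∫ x, φ (b, x) * ψ (x⁻¹ • b, x⁻¹ * g) ∂mu G := (exists_cv φ ψ).choose_spec b g

/-- PROOF: `opF_comp_opF`, and `fc_apply`: `fc` of the two kernels at `(b, g)` is `cv φ ψ (b, g) • Eu i l` (`Eu i j ∘ Eu j l = Eu i l` by `Eu_apply`; `integral_smul_const`). -/
theorem gen_mul_gen (φ ψ : C_c(B × G, ℂ)) (i j l : J) :
    (gen φ i j * gen ψ j l : FamG G J B) = gen (cv φ ψ) i l := by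
  obtain ⟨C, M, hC, hM, hφ, hs⟩ := exists_bound φ
  obtain ⟨C', M', hC', hM', hψ, hs'⟩ := exists_bound ψ
  have k1 : FOK C M fun (b : B) (g : G) => φ (b, g) • (Eu i j : BL J) :=
    FOK_smul (f := fun p => φ p) φ.continuous hC hM hφ hs i j
  have k2 : FOK C' M' fun (b : B) (g : G) => ψ (b, g) • (Eu j l : BL J) :=
    FOK_smul (f := fun p => ψ p) ψ.continuous hC' hM' hψ hs' j l
  refine FamG.ext fun b => ?_
  rw [FamG.mul_apply, gen_apply, gen_apply, gen_apply]
  refine (opF_comp_opF k1 k2 b).trans ?_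
  have key : fc (fun b g => φ (b, g) • (Eu i j : BL J)) (fun b g => ψ (b, g) • (Eu j l : BL J)) =
      fun b g => cv φ ψ (b, g) • (Eu i l : BL J) := by
    funext b g
    refine ContinuousLinearMap.ext fun v => ?_
    rw [fc_apply k1 k2, ContinuousLinearMap.smul_apply, cv_apply, ← integral_smul_const]
    refine integral_congr_ae (Filter.Eventually.of_forall fun x => ?_)
    change φ (b, x) • (Eu i j : BL J) (ψ (x⁻¹ • b, x⁻¹ * g) • (Eu j l : BL J) v) =
      (φ (b, x) * ψ (x⁻¹ • b, x⁻¹ * g)) • (Eu i l : BL J) v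
    rw [ContinuousLinearMap.map_smul, smul_smul, ← Lgb_Eu_mul i j l]
    rfl
  rw [key]

/-- PROOF: `Eu i j ∘ Eu j' l = 0`. -/
theorem gen_mul_gen_of_ne (φ ψ : C_c(B × G, ℂ)) {i j j' l : J} (h : j ≠ j') :
    (gen φ i j * gen ψ j' l : FamG G J B) = 0 := by
  obtain ⟨C, M, hC, hM, hφ, hs⟩ := exists_bound φ
  obtain ⟨C', M', hC', hM', hψ, hs'⟩ := exists_bound ψ
  have k1 : FOK C M fun (b : B) (g : G) => φ (b, g) • (Eu i j : BL J) :=
    FOK_smul (f := fun p => φ p) φ.continuous hC hM hφ hs i j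
  have k2 : FOK C' M' fun (b : B) (g : G) => ψ (b, g) • (Eu j' l : BL J) :=
    FOK_smul (f := fun p => ψ p) ψ.continuous hC' hM' hψ hs' j' l
  refine FamG.ext fun b => ?_
  rw [FamG.mul_apply, gen_apply, gen_apply, FamG.zero_apply]
  refine (opF_comp_opF k1 k2 b).trans ?_
  have key : fc (fun b g => φ (b, g) • (Eu i j : BL J)) (fun b g => ψ (b, g) • (Eu j' l : BL J)) =
      fun _ _ => 0 := by
    funext b g
    refine ContinuousLinearMap.ext fun v => ?_
    rw [fc_apply k1 k2]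
    have h0 : ∀ x : G, (fun b g => φ (b, g) • (Eu i j : BL J)) b x
        ((fun b g => ψ (b, g) • (Eu j' l : BL J)) (x⁻¹ • b) (x⁻¹ * g) v) = 0 := by
      intro x
      change φ (b, x) • (Eu i j : BL J) (ψ (x⁻¹ • b, x⁻¹ * g) • (Eu j' l : BL J) v) = 0
      have h2 : (Eu i j : BL J) ((Eu j' l : BL J) v) = 0 := by
        have h3 := congrArg (fun T : BL J => T v) (Lgb_Eu_mul_of_ne i l h)
        exact h3
      rw [ContinuousLinearMap.map_smul, h2, smul_zero, smul_zero]
    simp only [h0, integral_zero]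
    rfl
  rw [key]
  exact opk_zero

/-- Induction. PROOF: the additive subgroup (or submodule) `S` generated by the `gen φ i j` is closed under scalars (`gen_smul`) and products (`gen_mul_gen`, `gen_mul_gen_of_ne`), so it contains the
algebra generated by them (`NonUnitalAlgebra.adjoin_induction`, with `Submodule.span_induction` for the products), and `p` holds on `S` (`AddSubgroup`: `-gen φ i j = gen (-1 • φ) i j`); then
`closure_minimal`. -/
theorem cpG_induction {p : FamG G J B → Prop} (hcl : IsClosed {x | p x}) (h0 : p 0)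
    (hadd : ∀ x y, p x → p y → p (x + y)) (hgen : ∀ φ i j, p (gen φ i j)) :
    ∀ x ∈ cpG G J B, p x := by
  have hspan : ∀ x ∈ NonUnitalAlgebra.adjoin ℂ
      {a : FamG G J B | ∃ (φ : C_c(B × G, ℂ)) (i j : J), a = gen φ i j},
      x ∈ Submodule.span ℂ {a : FamG G J B | ∃ (φ : C_c(B × G, ℂ)) (i j : J), a = gen φ i j} := by
    intro x hx
    induction hx using NonUnitalAlgebra.adjoin_induction with
    | mem x hx => exact Submodule.subset_span hx
    | add x y _ _ hx hy => exact add_mem hx hy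
    | zero => exact zero_mem _
    | mul x y _ _ hx hy =>
      refine Submodule.span_induction (p := fun x _ => x * y ∈ Submodule.span ℂ
        {a : FamG G J B | ∃ (φ : C_c(B × G, ℂ)) (i j : J), a = gen φ i j}) ?_ ?_ ?_ ?_ hx
      · rintro _ ⟨φ, i, j, rfl⟩
        refine Submodule.span_induction (p := fun y _ => gen φ i j * y ∈ Submodule.span ℂ
          {a : FamG G J B | ∃ (φ : C_c(B × G, ℂ)) (i j : J), a = gen φ i j}) ?_ ?_ ?_ ?_ hy
        · rintro _ ⟨ψ, j', l, rfl⟩
          by_cases h : j = j'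
          · subst h
            rw [gen_mul_gen]
            exact Submodule.subset_span ⟨_, _, _, rfl⟩
          · rw [gen_mul_gen_of_ne φ ψ h]
            exact zero_mem _
        · rw [mul_zero]
          exact zero_mem _
        · intro a b _ _ ha hb
          rw [mul_add]
          exact add_mem ha hb
        · intro c a _ ha
          rw [mul_smul_comm]
          exact Submodule.smul_mem _ c ha
      · rw [zero_mul]
        exact zero_mem _
      · intro a b _ _ ha hb
        rw [add_mul]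
        exact add_mem ha hb
      · intro c a _ ha
        rw [smul_mul_assoc]
        exact Submodule.smul_mem _ c ha
    | smul r x _ hx => exact Submodule.smul_mem _ r hx
  have hp : ∀ x ∈ Submodule.span ℂ
      {a : FamG G J B | ∃ (φ : C_c(B × G, ℂ)) (i j : J), a = gen φ i j}, ∀ c : ℂ, p (c • x) := by
    intro x hx
    refine Submodule.span_induction (p := fun x _ => ∀ c : ℂ, p (c • x)) ?_ ?_ ?_ ?_ hx
    · rintro _ ⟨φ, i, j, rfl⟩ c
      rw [← gen_smul]
      exact hgen _ _ _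
    · intro c
      rw [smul_zero]
      exact h0
    · intro a b _ _ ha hb c
      rw [smul_add]
      exact hadd _ _ (ha c) (hb c)
    · intro c' a _ ha c
      rw [smul_smul]
      exact ha _
  intro x hx
  refine closure_minimal (s := ((NonUnitalAlgebra.adjoin ℂ
    {a : FamG G J B | ∃ (φ : C_c(B × G, ℂ)) (i j : J), a = gen φ i j} :
      NonUnitalSubalgebra ℂ (FamG G J B)) : Set (FamG G J B))) ?_ hcl hx
  intro y hy
  have h1 := hp y (hspan y hy) 1
  rw [one_smul] at h1
  exact h1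

end Pool.Agent.Lib.MP_aa9b81_an.Cb
end
end

section

/-!
# Continuous Bernoulli, part Li: corners
-/

open scoped ENNReal Topology Pointwise CompactlySupported
open Function Filter MeasureTheory

noncomputable section

set_option linter.unusedSectionVars false

namespace Pool.Agent.Lib.MP_aa9b81_an.Cb

open Cut Hs

section

variable {J J' J'' : Type}

/-- The restriction `(ξ ↦ ξ ∘ s) : ℓ²(J') → ℓ²(J)`. -/
def rsE (s : J ↪ J') : L2 J' →L[ℂ] L2 J := pb s

open Classical in
/-- The extension by zero `ℓ²(J) → ℓ²(J')` along the injection `s`. -/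
def ex [Nonempty J] (s : J ↪ J') : L2 J →L[ℂ] L2 J' :=
  wop (invFun s) fun j => if j ∈ Set.range s then 1 else 0

theorem rsE_apply (s : J ↪ J') (ξ : L2 J') (j : J) : (rsE s ξ : J → ℂ) j = (ξ : J' → ℂ) (s j) :=
  pb_apply s.injective ξ j

private theorem Li_wok [Nonempty J] (s : J ↪ J') :
    WOK (invFun s)
      (fun j => @ite ℂ (j ∈ Set.range s) (Classical.propDecidable _) 1 0) 1 := by
  classical
  refine ⟨zero_le_one, fun q => ?_, fun q₁ q₂ h1 h2 e => ?_⟩
  · split_ifs <;> simp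
  · have e1 : q₁ ∈ Set.range s := by
      by_contra h
      exact h1 (if_neg h)
    have e2 : q₂ ∈ Set.range s := by
      by_contra h
      exact h2 (if_neg h)
    obtain ⟨a, rfl⟩ := e1
    obtain ⟨b, rfl⟩ := e2
    rw [leftInverse_invFun s.injective a, leftInverse_invFun s.injective b] at e
    rw [e]

/-- PROOF: `wop_apply` with `C = 1`: `invFun s` is injective on the range of `s`. -/
theorem ex_apply [Nonempty J] (s : J ↪ J') (ξ : L2 J) (j : J) :
    (ex s ξ : J' → ℂ) (s j) = (ξ : J → ℂ) j := by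
  classical
  rw [ex, wop_apply (Li_wok s), leftInverse_invFun s.injective j, if_pos ⟨j, rfl⟩, one_mul]

theorem ex_apply_of_notMem [Nonempty J] (s : J ↪ J') (ξ : L2 J) {j' : J'}
    (h : j' ∉ Set.range s) : (ex s ξ : J' → ℂ) j' = 0 := by
  classical
  rw [ex, wop_apply (Li_wok s), if_neg h, zero_mul]

theorem norm_rsE_le (s : J ↪ J') : ‖rsE s‖ ≤ 1 := norm_pb_le s.injective

theorem norm_ex_le [Nonempty J] (s : J ↪ J') : ‖ex s‖ ≤ 1 := by
  exact norm_wop_le (Li_wok s)

theorem rsE_comp_ex [Nonempty J] (s : J ↪ J') : (rsE s).comp (ex s) = (1 : BL J) := by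
  refine ContinuousLinearMap.ext fun ξ => ?_
  ext j
  rw [ContinuousLinearMap.comp_apply, rsE_apply, ex_apply]
  rfl

theorem rsE_trans (s : J ↪ J') (t : J' ↪ J'') : rsE (s.trans t) = (rsE s).comp (rsE t) := by
  refine ContinuousLinearMap.ext fun ξ => ?_
  ext j
  rw [ContinuousLinearMap.comp_apply, rsE_apply, rsE_apply, rsE_apply]
  rfl

/-- PROOF: coordinates: at `t (s j)`, at `t j'` with `j'` not in the range of `s`, and at the points not in the range of `t`. -/
theorem ex_trans [Nonempty J] [Nonempty J'] (s : J ↪ J') (t : J' ↪ J'') :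
    ex (s.trans t) = (ex t).comp (ex s) := by
  refine ContinuousLinearMap.ext fun ξ => ?_
  ext q
  rw [ContinuousLinearMap.comp_apply]
  by_cases hq : q ∈ Set.range t
  · obtain ⟨j', rfl⟩ := hq
    rw [ex_apply]
    by_cases hj : j' ∈ Set.range s
    · obtain ⟨j, rfl⟩ := hj
      rw [ex_apply]
      exact ex_apply (s.trans t) ξ j
    · rw [ex_apply_of_notMem s ξ hj, ex_apply_of_notMem]
      rintro ⟨j, hj'⟩
      exact hj ⟨j, t.injective hj'⟩
  · rw [ex_apply_of_notMem t _ hq, ex_apply_of_notMem]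
    rintro ⟨j, rfl⟩
    exact hq ⟨s j, rfl⟩

/-- PROOF: coordinates. -/
theorem ex_comp_Eu [Nonempty J] (s : J ↪ J') (i j : J) :
    ((ex s).comp (Eu i j)).comp (rsE s) = Eu (s i) (s j) := by
  classical
  refine ContinuousLinearMap.ext fun ξ => ?_
  ext q
  rw [ContinuousLinearMap.comp_apply, ContinuousLinearMap.comp_apply, Eu_apply]
  by_cases hq : q ∈ Set.range s
  · obtain ⟨a, rfl⟩ := hq
    rw [ex_apply, Eu_apply, rsE_apply]
    by_cases ha : a = i
    · rw [if_pos ha, if_pos (congrArg s ha)]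
    · rw [if_neg ha, if_neg fun h => ha (s.injective h)]
  · rw [ex_apply_of_notMem s _ hq, if_neg]
    rintro rfl
    exact hq ⟨i, rfl⟩

end

variable {G J J' J'' B : Type} [Group G] [TopologicalSpace G] [IsTopologicalGroup G]
  [LocallyCompactSpace G] [SecondCountableTopology G] [T2Space G] [MeasurableSpace G] [BorelSpace G]
  [Nonempty J] [Nonempty J'] [Nonempty J'']

private theorem Li_mex (s : J ↪ J') :
    ‖(Mul fun _ : G => ex s : HG G J →L[ℂ] HG G J')‖ ≤ 1 :=
  norm_Mul_le (SC.const _) fun _ => norm_ex_le s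

private theorem Li_mrs (s : J ↪ J') :
    ‖(Mul fun _ : G => rsE s : HG G J' →L[ℂ] HG G J)‖ ≤ 1 :=
  norm_Mul_le (SC.const _) fun _ => norm_rsE_le s

private theorem Li_norm (s : J ↪ J') (x : FamG G J B) (b : B) :
    ‖((Mul fun _ : G => ex s).comp (x b)).comp (Mul fun _ : G => rsE s)‖ ≤ ‖x‖ := by
  calc ‖((Mul fun _ : G => ex s).comp (x b)).comp (Mul fun _ : G => rsE s)‖
      ≤ ‖(Mul fun _ : G => ex s).comp (x b)‖ * ‖(Mul fun _ : G => rsE s : HG G J' →L[ℂ] HG G J)‖ :=
        ContinuousLinearMap.opNorm_comp_le _ _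
    _ ≤ ‖(Mul fun _ : G => ex s).comp (x b)‖ * 1 :=
        mul_le_mul_of_nonneg_left (Li_mrs s) (norm_nonneg _)
    _ = ‖(Mul fun _ : G => ex s).comp (x b)‖ := mul_one _
    _ ≤ ‖(Mul fun _ : G => ex s : HG G J →L[ℂ] HG G J')‖ * ‖x b‖ :=
        ContinuousLinearMap.opNorm_comp_le _ _
    _ ≤ 1 * ‖x‖ := mul_le_mul (Li_mex s) (FamG.norm_apply_le x b) (norm_nonneg _) zero_le_one
    _ = ‖x‖ := one_mul _

private theorem Li_re (s : J ↪ J') (η : HG G J) :
    (Mul fun _ : G => rsE s : HG G J' →L[ℂ] HG G J) ((Mul fun _ : G => ex s) η) = η := by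
  have h1 : (Mul fun _ : G => rsE s).comp (Mul fun _ : G => ex s) = (1 : HG G J →L[ℂ] HG G J) := by
    rw [Mul_comp_Mul (SC.const _) (SC.const _)]
    simp only [rsE_comp_ex]
    exact Mul_one
  have h2 := congrArg (fun T : HG G J →L[ℂ] HG G J => T η) h1
  exact h2

/-- The corner homomorphism `x ↦ ex(s) x rsE(s)` of an injection `s`. PROOF of the fields: `Mul (fun _ => rsE s) ∘ Mul (fun _ => ex s) = 1` (`Mul_comp_Mul`, `rsE_comp_ex`, `Mul_one`);
the norms are at most `‖x‖` (`norm_Mul_le`). -/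
def corn (s : J ↪ J') : FamG G J B →ₙ+* FamG G J' B where
  toFun x := FamG.mk (fun b => ((Mul fun _ => ex s).comp (x b)).comp (Mul fun _ => rsE s)) ‖x‖
    (fun b => Li_norm s x b)
  map_mul' x y := by
    refine FamG.ext fun b => ContinuousLinearMap.ext fun ξ => ?_
    rw [FamG.mul_apply, FamG.mk_apply, FamG.mk_apply, FamG.mk_apply, FamG.mul_apply]
    change (Mul fun _ : G => ex s) (x b (y b ((Mul fun _ : G => rsE s) ξ))) =
      (Mul fun _ : G => ex s) (x b ((Mul fun _ : G => rsE s) ((Mul fun _ : G => ex s)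
        (y b ((Mul fun _ : G => rsE s) ξ)))))
    rw [Li_re]
  map_zero' := by
    refine FamG.ext fun b => ?_
    rw [FamG.mk_apply, FamG.zero_apply, FamG.zero_apply]
    rw [ContinuousLinearMap.comp_zero, ContinuousLinearMap.zero_comp]
  map_add' x y := by
    refine FamG.ext fun b => ?_
    rw [FamG.add_apply, FamG.mk_apply, FamG.mk_apply, FamG.mk_apply, FamG.add_apply,
      ContinuousLinearMap.comp_add, ContinuousLinearMap.add_comp]

theorem corn_apply (s : J ↪ J') (x : FamG G J B) (b : B) :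
    corn s x b = ((Mul fun _ => ex s).comp (x b)).comp (Mul fun _ => rsE s) := rfl

theorem norm_corn_le (s : J ↪ J') (x : FamG G J B) : ‖corn s x‖ ≤ ‖x‖ := by
  refine (FamG.norm_le_iff (norm_nonneg _)).2 fun b => ?_
  rw [corn_apply]
  exact Li_norm s x b

theorem corn_smul (s : J ↪ J') (c : ℂ) (x : FamG G J B) : corn s (c • x) = c • corn s x := by
  refine FamG.ext fun b => ?_
  rw [FamG.smul_apply, corn_apply, corn_apply, FamG.smul_apply, ContinuousLinearMap.comp_smul,
    ContinuousLinearMap.smul_comp]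

/-- PROOF: `corn_apply`, `ex_trans`, `rsE_trans`, `Mul_comp_Mul`. -/
theorem corn_trans (s : J ↪ J') (t : J' ↪ J'') (x : FamG G J B) :
    corn (s.trans t) x = corn t (corn s x) := by
  refine FamG.ext fun b => ?_
  rw [corn_apply, corn_apply, corn_apply]
  have h1 : (Mul fun _ : G => ex (s.trans t) : HG G J →L[ℂ] HG G J'') =
      (Mul fun _ : G => ex t).comp (Mul fun _ : G => ex s) := by
    rw [Mul_comp_Mul (SC.const _) (SC.const _), ex_trans]
  have h2 : (Mul fun _ : G => rsE (s.trans t) : HG G J'' →L[ℂ] HG G J) =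
      (Mul fun _ : G => rsE s).comp (Mul fun _ : G => rsE t) := by
    rw [Mul_comp_Mul (SC.const _) (SC.const _), rsE_trans]
  rw [h1, h2]
  rfl

theorem corn_refl (x : FamG G J B) : corn (Embedding.refl J) x = x := by
  refine FamG.ext fun b => ?_
  have h1 : ex (Embedding.refl J) = (1 : BL J) := by
    refine ContinuousLinearMap.ext fun ξ => ?_
    ext j
    exact ex_apply (Embedding.refl J) ξ j
  have h2 : rsE (Embedding.refl J) = (1 : BL J) := by
    refine ContinuousLinearMap.ext fun ξ => ?_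
    ext j
    exact rsE_apply (Embedding.refl J) ξ j
  rw [corn_apply, h1, h2, Mul_one]
  rfl

variable [TopologicalSpace B] [T2Space B] [MulAction G B] [ContinuousSMul G B]

/-- PROOF: `gen_apply`, `opk_comp_Mul`, `Mul_comp_opk` (`FOK_smul`, `exists_bound`, `FOK.kok`), `ex_comp_Eu`. -/
theorem corn_gen (s : J ↪ J') (φ : C_c(B × G, ℂ)) (i j : J) :
    corn s (gen φ i j : FamG G J B) = gen φ (s i) (s j) := by
  obtain ⟨C, M, hC, hM, hb, hs⟩ := exists_bound φ
  have hF : FOK C M fun b g => φ (b, g) • (Eu i j : BL J) :=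
    FOK_smul (f := fun p => φ p) φ.continuous hC hM hb hs i j
  refine FamG.ext fun b => ?_
  rw [corn_apply, gen_apply, gen_apply]
  have hk := hF.kok b
  have h1 := Mul_comp_opk hk (SC.const (ex s))
  have hk2 := hk.left (SC.const (ex s)) zero_le_one (fun _ => norm_ex_le s)
  have h2 := opk_comp_Mul hk2 (SC.const (rsE s))
  unfold opF
  rw [h1, h2]
  congr 1
  funext a a'
  change ((ex s).comp (φ (a⁻¹ • b, a⁻¹ * a') • Eu i j)).comp (rsE s) =
    φ (a⁻¹ • b, a⁻¹ * a') • Eu (s i) (s j)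
  rw [← ex_comp_Eu, ContinuousLinearMap.comp_smul, ContinuousLinearMap.smul_comp]

/-- PROOF: `cpG_induction`, `corn_gen`, `norm_corn_le` (continuity: `AddMonoidHomClass.continuous_of_bound`). -/
theorem corn_mem (s : J ↪ J') : ∀ x ∈ cpG G J B, corn s x ∈ cpG G J' B := by
  have hc : Continuous (corn s : FamG G J B → FamG G J' B) :=
    AddMonoidHomClass.continuous_of_bound (corn s) 1 fun x => by
      rw [one_mul]
      exact norm_corn_le s x
  refine cpG_induction (p := fun x => corn s x ∈ cpG G J' B) ?_ ?_ ?_ ?_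
  · exact (isClosed_cpG (G := G) (J := J') (B := B)).preimage hc
  · rw [map_zero]
    exact zero_mem _
  · intro x y hx hy
    rw [map_add]
    exact add_mem hx hy
  · intro φ i j
    rw [corn_gen]
    exact gen_mem _ _ _

end Pool.Agent.Lib.MP_aa9b81_an.Cb
end
end

section

/-!
# Continuous Bernoulli, part Ka: conjugation by the isometries `V`
-/

open scoped ENNReal Topology
open Function Filter MeasureTheory

noncomputable section

set_option linter.unusedSectionVars false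

namespace Pool.Agent.Lib.MP_aa9b81_an.Cb

open Cut Hs

variable {G O B P P' : Type} [Group G] [TopologicalSpace G] [IsTopologicalGroup G]
  [LocallyCompactSpace G] [SecondCountableTopology G] [T2Space G] [MeasurableSpace G]
  [BorelSpace G] [DecidableEq G] [LinearOrder O] {V : Set G}

/-- The constant multiplication operator `1 ⊗ m`. -/
def cm (m : L2 P →L[ℂ] L2 P') : HG G (ℕ × P) →L[ℂ] HG G (ℕ × P') := Mul fun _ => am m

/-- PROOF: `norm_Mul_le`, `norm_am_le`. -/
theorem norm_cm_le (m : L2 P →L[ℂ] L2 P') :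
    ‖(cm m : HG G (ℕ × P) →L[ℂ] HG G (ℕ × P'))‖ ≤ ‖m‖ := by
  exact norm_Mul_le (SC.const _) fun _ => norm_am_le m

theorem cm_one : (cm (1 : BL P) : HG G (ℕ × P) →L[ℂ] HG G (ℕ × P)) = 1 := by
  unfold cm
  rw [am_one]
  exact Mul_one

theorem cm_zero : (cm (0 : L2 P →L[ℂ] L2 P') : HG G (ℕ × P) →L[ℂ] HG G (ℕ × P')) = 0 := by
  have h : am (0 : L2 P →L[ℂ] L2 P') = 0 := by
    have h1 := norm_am_le (0 : L2 P →L[ℂ] L2 P')
    rw [norm_zero] at h1
    exact norm_le_zero_iff.1 h1
  unfold cm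
  rw [h]
  exact Mul_zero

theorem cm_sub (m m' : L2 P →L[ℂ] L2 P') :
    (cm (m - m') : HG G (ℕ × P) →L[ℂ] HG G (ℕ × P')) = cm m - cm m' := by
  unfold cm
  rw [am_sub]
  exact Mul_sub (SC.const _) (SC.const _)

/-- PROOF: `Mul_comp_Mul`, `am_comp`. -/
theorem cm_mul (m m' : BL P) :
    (cm (m * m') : HG G (ℕ × P) →L[ℂ] HG G (ℕ × P)) = cm m * cm m' := by
  have h1 : (cm m : HG G (ℕ × P) →L[ℂ] HG G (ℕ × P)).comp (cm m') =
      Mul fun _ => (am m).comp (am m') := Mul_comp_Mul (SC.const _) (SC.const _)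
  have h2 : (cm m : HG G (ℕ × P) →L[ℂ] HG G (ℕ × P)) * cm m' = (cm m).comp (cm m') := rfl
  rw [h2, h1, am_comp]
  rfl

variable (χ : Part V) (e : G ↪ O)

/-- The isometry `V` on `L²(G, ℓ²(ℕ × Bs G))`. -/
def bV (D : ClV V) : HG G (ℕ × Bs G) →L[ℂ] HG G (ℕ × Bs ℕ) := Mul fun a => am (χ.Va e D a)

/-- Its adjoint. -/
def bVs (D : ClV V) : HG G (ℕ × Bs ℕ) →L[ℂ] HG G (ℕ × Bs G) := Mul fun a => am (χ.Vb e D a)

private theorem Ka_scV (D : ClV V) : SC fun a : G => am (χ.Va e D a) := (SC_Va χ e D).am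

private theorem Ka_scVs (hV : V ∈ 𝓝 (1 : G)) (D : ClV V) : SC fun a : G => am (χ.Vb e D a) :=
  (SC_Vb χ hV e D).am

/-- PROOF: `SC_Va`, `SC.am`, `norm_Mul_le`, `norm_am_le`, `norm_Va_le`. -/
theorem norm_bV_le (D : ClV V) : ‖bV χ e D‖ ≤ 1 := by
  exact norm_Mul_le (Ka_scV χ e D) fun a => (norm_am_le _).trans (norm_Va_le χ e D a)

theorem norm_bVs_le (hV : V ∈ 𝓝 (1 : G)) (D : ClV V) : ‖bVs χ e D‖ ≤ 1 := by
  exact norm_Mul_le (Ka_scVs χ e hV D) fun a => (norm_am_le _).trans (norm_Vb_le χ e D a)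

/-- PROOF: `Mul_comp_Mul` (`SC_Va`, `SC_Vb`, `SC.am`), `am_comp`, `Vb_comp_Va`. -/
theorem bVs_comp_bV (hV : V ∈ 𝓝 (1 : G)) (D : ClV V) :
    (bVs χ e D).comp (bV χ e D) = cm (Es D.s) := by
  have h1 : (bVs χ e D).comp (bV χ e D) =
      Mul fun a => (am (χ.Vb e D a)).comp (am (χ.Va e D a)) :=
    Mul_comp_Mul (Ka_scVs χ e hV D) (Ka_scV χ e D)
  rw [h1]
  unfold cm
  congr 1
  funext a
  rw [am_comp, Vb_comp_Va]

/-- PROOF: `Va_comp_Es`. -/
theorem bV_comp_Es (D : ClV V) : (bV χ e D).comp (cm (Es D.s)) = bV χ e D := by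
  have h1 : (bV χ e D).comp (cm (Es D.s)) =
      Mul fun a => (am (χ.Va e D a)).comp (am (Es D.s)) :=
    Mul_comp_Mul (Ka_scV χ e D) (SC.const _)
  rw [h1]
  unfold bV
  congr 1
  funext a
  rw [am_comp, Va_comp_Es]

theorem Es_comp_bVs (hV : V ∈ 𝓝 (1 : G)) (D : ClV V) :
    (cm (Es D.s) : HG G (ℕ × Bs G) →L[ℂ] _).comp (bVs χ e D) = bVs χ e D := by
  have h1 : (cm (Es D.s) : HG G (ℕ × Bs G) →L[ℂ] _).comp (bVs χ e D) =
      Mul fun a => (am (Es D.s)).comp (am (χ.Vb e D a)) :=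
    Mul_comp_Mul (SC.const _) (Ka_scVs χ e hV D)
  rw [h1]
  unfold bVs
  congr 1
  funext a
  rw [am_comp, Es_comp_Vb]

/-- PROOF: `Va_comp_Pp`. -/
theorem bV_comp_Pp (D : ClV V) :
    (bV χ e D).comp (cm Pp) = (cm (Pp : BL (Bs ℕ)) : HG G (ℕ × Bs ℕ) →L[ℂ] _).comp (bV χ e D) := by
  have h1 : (bV χ e D).comp (cm Pp) = Mul fun a => (am (χ.Va e D a)).comp (am Pp) :=
    Mul_comp_Mul (Ka_scV χ e D) (SC.const _)
  have h2 : (cm (Pp : BL (Bs ℕ)) : HG G (ℕ × Bs ℕ) →L[ℂ] _).comp (bV χ e D) =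
      Mul fun a => (am Pp).comp (am (χ.Va e D a)) :=
    Mul_comp_Mul (SC.const _) (Ka_scV χ e D)
  rw [h1, h2]
  congr 1
  funext a
  rw [am_comp, am_comp, Va_comp_Pp]

section Vac

/-- The injection `k ↦ (k, vac)`. -/
def sV (I : Type) : ℕ ↪ ℕ × Bs I := ⟨fun k => (k, Bs.vac), fun k l h => (Prod.ext_iff.1 h).1⟩

/-- The inclusion of `L²(G, ℓ²(ℕ))` at the vacuum. -/
def iV (I : Type) : HG G ℕ →L[ℂ] HG G (ℕ × Bs I) := Mul fun _ => ex (sV I)

/-- The restriction to the vacuum. -/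
def rV (I : Type) : HG G (ℕ × Bs I) →L[ℂ] HG G ℕ := Mul fun _ => rsE (sV I)

private theorem Ka_ex (I : Type) (k : ℕ) : ex (sV I) (bv k) = bv (k, Bs.vac) := by
  classical
  ext p
  obtain ⟨l, q⟩ := p
  by_cases hq : q = Bs.vac
  · subst hq
    have h1 : (ex (sV I) (bv k) : ℕ × Bs I → ℂ) (sV I l) = (bv k : ℕ → ℂ) l :=
      ex_apply (sV I) (bv k) l
    have h2 : sV I l = (l, Bs.vac) := rfl
    rw [h2] at h1
    rw [h1, bv_apply, bv_apply]
    by_cases hl : l = k
    · subst hl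
      rw [if_pos rfl, if_pos rfl]
    · rw [if_neg hl, if_neg]
      intro h
      exact hl (Prod.ext_iff.1 h).1
  · rw [ex_apply_of_notMem, bv_apply, if_neg]
    · intro h
      exact hq (Prod.ext_iff.1 h).2
    · rintro ⟨m, hm⟩
      exact hq (Prod.ext_iff.1 hm).2.symm

private theorem Ka_Wg_vac (a : G) : Wg e a (bv (Bs.vac : Bs G)) = bv Bs.vac := by
  rw [Wg_bv]
  have h1 : (Bs.vac : Bs G).S = ∅ := rfl
  have h2 : a • (Bs.vac : Bs G) = Bs.vac := by
    refine Bs.ext ?_ ?_
    · rw [Bs.smul_F]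
      rfl
    · rw [Bs.smul_S]
      rfl
  rw [h1, sg_empty, one_smul, h2]

private theorem Ka_Va_vac (D : ClV V) (a : G) : χ.Va e D a (bv Bs.vac) = bv Bs.vac := by
  show χ.Vd e (a⁻¹ • D).s (Wg e a⁻¹ (bv Bs.vac)) = _
  rw [Ka_Wg_vac, Vd_vac χ e (a⁻¹ • D).sep]

private theorem Ka_Vb (D : ClV V) (a : G) (q : Bs ℕ) [Decidable (Bs.vac = q)] :
    (χ.Vb e D a (bv q) : Bs G → ℂ) Bs.vac = if Bs.vac = q then 1 else 0 := by
  classical
  have h0 : χ.Vb e D a (bv q) = Wg e a (χ.Vs e (a⁻¹ • D).s (bv q)) := rfl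
  by_cases hq : Bs.vac = q
  · rw [if_pos hq, h0, ← hq, Vs_vac χ e (a⁻¹ • D).sep, Ka_Wg_vac, bv_apply, if_pos rfl]
  · rw [if_neg hq, h0, Vs_bv χ e (a⁻¹ • D).sep, map_smul, Wg_bv]
    have h1 : (Bs.vac : Bs G) ≠ a • χ.tau (a⁻¹ • D).s q := by
      intro h
      apply hq
      have h2 : (a • χ.tau (a⁻¹ • D).s q).F = ∅ := by
        rw [← h]
        rfl
      rw [Bs.smul_F] at h2
      have h3 : (χ.tau (a⁻¹ • D).s q).F = ∅ := by
        rw [← Finset.card_eq_zero, ← card_gF a, h2, Finset.card_empty]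
      have h4 : q.F = ∅ := by
        unfold Part.tau at h3
        rw [Bs.mk_F] at h3
        exact (@Finset.image_eq_empty _ _ (fun a b => Classical.propDecidable (a = b)) _ _).1 h3
      have h5 : q.S = ∅ := Finset.subset_empty.1 (h4 ▸ q.sub)
      exact Bs.ext h4.symm h5.symm
    rw [lp.coeFn_smul, Pi.smul_apply, lp.coeFn_smul, Pi.smul_apply, bv_apply, if_neg h1,
      smul_zero, smul_zero]

/-- PROOF: `Mul_comp_Mul`; `am (Va a) (ex (sV G) (bv k)) = ex (sV ℕ) (bv k)`: `ex (sV G) (bv k) = bv (k, vac)`, `Va a (bv vac) = V_D W_a⁻¹ (bv vac) = V_D (bv vac) = bv vac` (`Wg_bv`, `Vd_vac`), `am_bv`; `ext_op`. -/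
theorem bV_comp_iV (D : ClV V) : (bV χ e D).comp (iV G) = iV ℕ := by
  classical
  have h1 : (bV χ e D).comp (iV G) = Mul fun a => (am (χ.Va e D a)).comp (ex (sV G)) :=
    Mul_comp_Mul (Ka_scV χ e D) (SC.const _)
  rw [h1]
  unfold iV
  congr 1
  funext a
  refine ext_op fun k => ?_
  rw [ContinuousLinearMap.comp_apply, Ka_ex, Ka_ex]
  ext p
  rw [am_bv, Ka_Va_vac, bv_apply, bv_apply]
  obtain ⟨l, q⟩ := p
  by_cases hl : l = k
  · subst hl
    simp
  · rw [if_neg hl, if_neg]
    intro h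
    exact hl (Prod.ext_iff.1 h).1

/-- PROOF: `rsE (sV G) ∘ am (Vb a) = rsE (sV ℕ)`: coordinates on the basis vectors `bv (k, q)` (`ext_op`): `Vb a (bv q)` is a multiple of `bv β` with `β.F` the image of `q.F`, so its coordinate at `vac` is `0` for `q ≠ vac`, and `Vb a (bv vac) = bv vac` (`Vs_bv`, `Vs_vac`). -/
theorem rV_comp_bVs (hV : V ∈ 𝓝 (1 : G)) (D : ClV V) : (rV G).comp (bVs χ e D) = rV ℕ := by
  classical
  have h1 : (rV G).comp (bVs χ e D) = Mul fun a => (rsE (sV G)).comp (am (χ.Vb e D a)) :=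
    Mul_comp_Mul (SC.const _) (Ka_scVs χ e hV D)
  rw [h1]
  unfold rV
  congr 1
  funext a
  refine ext_op fun p => ?_
  obtain ⟨k, q⟩ := p
  ext l
  rw [ContinuousLinearMap.comp_apply, rsE_apply, rsE_apply, am_bv, bv_apply]
  have h2 : ∀ I : Type, sV I l = (l, Bs.vac) := fun _ => rfl
  rw [h2, h2]
  by_cases hl : l = k
  · subst hl
    rw [if_pos rfl, Ka_Vb]
    simp only [Prod.mk.injEq, true_and]
  · rw [if_neg hl, if_neg]
    intro h
    exact hl (Prod.ext_iff.1 h).1

end Vac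

section Conj

variable [TopologicalSpace B] [MulAction G B] (Δ : Df G B V)

/-- The conjugation `x ↦ V x V^*`. -/
def cj (x : FamG G (ℕ × Bs G) B) : FamG G (ℕ × Bs ℕ) B :=
  fam fun b => (bV χ e (Δ.D b)).comp ((x b).comp (bVs χ e (Δ.D b)))

variable {χ e Δ} (hV : V ∈ 𝓝 (1 : G))

include hV

private theorem Ka_cj_bound (x : FamG G (ℕ × Bs G) B) (b : B) :
    ‖(bV χ e (Δ.D b)).comp ((x b).comp (bVs χ e (Δ.D b)))‖ ≤ ‖x‖ := by
  have h1 := norm_bV_le χ e (Δ.D b)
  have h2 := norm_bVs_le χ e hV (Δ.D b)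
  have h3 := FamG.norm_apply_le x b
  calc _ ≤ ‖bV χ e (Δ.D b)‖ * ‖(x b).comp (bVs χ e (Δ.D b))‖ :=
        ContinuousLinearMap.opNorm_comp_le _ _
    _ ≤ 1 * (‖x b‖ * ‖bVs χ e (Δ.D b)‖) := by
        refine mul_le_mul h1 (ContinuousLinearMap.opNorm_comp_le _ _) (norm_nonneg _) zero_le_one
    _ ≤ 1 * (‖x‖ * 1) := by
        refine mul_le_mul_of_nonneg_left ?_ zero_le_one
        exact mul_le_mul h3 h2 (norm_nonneg _) (norm_nonneg _)
    _ = ‖x‖ := by rw [one_mul, mul_one]

/-- PROOF: `fam_apply` with the bound `‖x‖`. -/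
theorem cj_apply (x : FamG G (ℕ × Bs G) B) (b : B) :
    cj χ e Δ x b = (bV χ e (Δ.D b)).comp ((x b).comp (bVs χ e (Δ.D b))) := by
  exact fam_apply (Ka_cj_bound hV x) b

theorem norm_cj_le (x : FamG G (ℕ × Bs G) B) : ‖cj χ e Δ x‖ ≤ ‖x‖ := by
  exact norm_fam_le (norm_nonneg x) (Ka_cj_bound hV x)

theorem cj_add (x y : FamG G (ℕ × Bs G) B) : cj χ e Δ (x + y) = cj χ e Δ x + cj χ e Δ y := by
  refine FamG.ext fun b => ?_
  rw [FamG.add_apply, cj_apply hV, cj_apply hV, cj_apply hV, FamG.add_apply,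
    ContinuousLinearMap.add_comp, ContinuousLinearMap.comp_add]

theorem cj_sub (x y : FamG G (ℕ × Bs G) B) : cj χ e Δ (x - y) = cj χ e Δ x - cj χ e Δ y := by
  refine FamG.ext fun b => ?_
  rw [FamG.sub_apply, cj_apply hV, cj_apply hV, cj_apply hV, FamG.sub_apply,
    ContinuousLinearMap.sub_comp, ContinuousLinearMap.comp_sub]

theorem cj_neg (x : FamG G (ℕ × Bs G) B) : cj χ e Δ (-x) = -cj χ e Δ x := by
  refine FamG.ext fun b => ?_
  rw [FamG.neg_apply, cj_apply hV, cj_apply hV, FamG.neg_apply,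
    ContinuousLinearMap.neg_comp, ContinuousLinearMap.comp_neg]

theorem cj_zero : cj χ e Δ (0 : FamG G (ℕ × Bs G) B) = 0 := by
  refine FamG.ext fun b => ?_
  rw [FamG.zero_apply, cj_apply hV, FamG.zero_apply,
    ContinuousLinearMap.zero_comp, ContinuousLinearMap.comp_zero]

/-- PROOF: `V x y V^* = V x Es y V^*` since `V x y = V Es x y = V x Es y`, `bVs_comp_bV`. -/
theorem cj_mul {x : FamG G (ℕ × Bs G) B} (hx : ∀ b, Commute (x b) (cm (Es (Δ.D b).s)))
    (y : FamG G (ℕ × Bs G) B) : cj χ e Δ (x * y) = cj χ e Δ x * cj χ e Δ y := by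
  refine FamG.ext fun b => ?_
  rw [FamG.mul_apply, cj_apply hV, cj_apply hV, cj_apply hV, FamG.mul_apply]
  have h1 : (x b) * cm (Es (Δ.D b).s) = cm (Es (Δ.D b).s) * x b := hx b
  have h2 := bVs_comp_bV χ e hV (Δ.D b)
  have h3 := bV_comp_Es χ e (Δ.D b)
  symm
  calc (bV χ e (Δ.D b)).comp ((x b).comp (bVs χ e (Δ.D b))) *
        (bV χ e (Δ.D b)).comp ((y b).comp (bVs χ e (Δ.D b)))
      = (bV χ e (Δ.D b)).comp (((x b) * ((bVs χ e (Δ.D b)).comp (bV χ e (Δ.D b)))).comp
          ((y b).comp (bVs χ e (Δ.D b)))) := rfl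
    _ = (bV χ e (Δ.D b)).comp ((cm (Es (Δ.D b).s) * x b).comp
          ((y b).comp (bVs χ e (Δ.D b)))) := by rw [h2, h1]
    _ = ((bV χ e (Δ.D b)).comp (cm (Es (Δ.D b).s))).comp ((x b * y b).comp
          (bVs χ e (Δ.D b))) := rfl
    _ = _ := by rw [h3]

/-- The constant family. PROOF: `bV_comp_Pp`. -/
theorem cj_Pp_mul (x : FamG G (ℕ × Bs G) B) :
    cj χ e Δ ((fam fun _ => cm Pp) * x) = (fam fun _ => cm Pp) * cj χ e Δ x := by
  refine FamG.ext fun b => ?_
  rw [FamG.mul_apply, cj_apply hV, cj_apply hV, FamG.mul_apply,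
    fam_apply (fun _ => le_refl ‖(cm Pp : HG G (ℕ × Bs G) →L[ℂ] HG G (ℕ × Bs G))‖),
    fam_apply (fun _ => le_refl ‖(cm Pp : HG G (ℕ × Bs ℕ) →L[ℂ] HG G (ℕ × Bs ℕ))‖)]
  have h1 := bV_comp_Pp χ e (Δ.D b)
  calc (bV χ e (Δ.D b)).comp ((cm Pp * x b).comp (bVs χ e (Δ.D b)))
      = ((bV χ e (Δ.D b)).comp (cm Pp)).comp ((x b).comp (bVs χ e (Δ.D b))) := rfl
    _ = _ := by rw [h1]; rfl

/-- PROOF: `cj_apply`, `bV_comp_iV`, `rV_comp_bVs`, `corn_apply`. -/
theorem cj_vac (y : FamG G ℕ B) :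
    cj χ e Δ (fam fun b => (iV G).comp ((y b).comp (rV G))) = corn (sV ℕ) y := by
  have hb : ∀ b, ‖(iV G).comp ((y b).comp (rV G))‖ ≤ ‖(iV G : HG G ℕ →L[ℂ] _)‖ *
      (‖y‖ * ‖(rV G : HG G (ℕ × Bs G) →L[ℂ] _)‖) := by
    intro b
    refine (ContinuousLinearMap.opNorm_comp_le _ _).trans ?_
    refine mul_le_mul_of_nonneg_left ?_ (norm_nonneg _)
    refine (ContinuousLinearMap.opNorm_comp_le _ _).trans ?_
    exact mul_le_mul_of_nonneg_right (FamG.norm_apply_le y b) (norm_nonneg _)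
  refine FamG.ext fun b => ?_
  rw [cj_apply hV, fam_apply hb, corn_apply]
  have h1 := bV_comp_iV χ e (Δ.D b)
  have h2 := rV_comp_bVs χ e hV (Δ.D b)
  calc (bV χ e (Δ.D b)).comp (((iV G).comp ((y b).comp (rV G))).comp (bVs χ e (Δ.D b)))
      = ((bV χ e (Δ.D b)).comp (iV G)).comp ((y b).comp ((rV G).comp (bVs χ e (Δ.D b)))) := rfl
    _ = (iV ℕ).comp ((y b).comp (rV ℕ)) := by rw [h1, h2]
    _ = _ := rfl

/-- The unit `1 + V (u - 1) V^*`. PROOF: `(1 + V x V^*)(1 + V y V^*) = 1 + V (x + y + x y) V^*` for `x = u - 1`, `y = u⁻¹ - 1`, both commuting with the projections (`cj_add`, `cj_mul`), `x + y + x y = u u⁻¹ - 1 = 0`. -/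
theorem exists_cjU {u w : FamG G (ℕ × Bs G) B} (h1 : u * w = 1) (h2 : w * u = 1)
    (hu : ∀ b, Commute (u b) (cm (Es (Δ.D b).s))) (hw : ∀ b, Commute (w b) (cm (Es (Δ.D b).s))) :
    ∃ U : (FamG G (ℕ × Bs ℕ) B)ˣ, (U : FamG G (ℕ × Bs ℕ) B) = 1 + cj χ e Δ (u - 1) ∧
      ((U⁻¹ : (FamG G (ℕ × Bs ℕ) B)ˣ) : FamG G (ℕ × Bs ℕ) B) = 1 + cj χ e Δ (w - 1) := by
  have hu' : ∀ b, Commute ((u - 1) b) (cm (Es (Δ.D b).s)) := fun b => by
    rw [FamG.sub_apply, FamG.one_apply]
    exact (hu b).sub_left (Commute.one_left _)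
  have hw' : ∀ b, Commute ((w - 1) b) (cm (Es (Δ.D b).s)) := fun b => by
    rw [FamG.sub_apply, FamG.one_apply]
    exact (hw b).sub_left (Commute.one_left _)
  have key : ∀ x y : FamG G (ℕ × Bs G) B, (∀ b, Commute ((x - 1) b) (cm (Es (Δ.D b).s))) →
      x * y = 1 → (1 + cj χ e Δ (x - 1)) * (1 + cj χ e Δ (y - 1)) = 1 := by
    intro x y hx hxy
    have e1 : (x - 1) + (y - 1) + (x - 1) * (y - 1) = 0 := by
      have : (x - 1) + (y - 1) + (x - 1) * (y - 1) = x * y - 1 := by noncomm_ring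
      rw [this, hxy, sub_self]
    have e2 : cj χ e Δ (x - 1) + cj χ e Δ (y - 1) + cj χ e Δ (x - 1) * cj χ e Δ (y - 1) = 0 := by
      rw [← cj_mul hV hx, ← cj_add hV, ← cj_add hV, e1, cj_zero hV]
    calc (1 + cj χ e Δ (x - 1)) * (1 + cj χ e Δ (y - 1))
        = 1 + (cj χ e Δ (x - 1) + cj χ e Δ (y - 1) + cj χ e Δ (x - 1) * cj χ e Δ (y - 1)) := by
          noncomm_ring
      _ = 1 := by rw [e2, add_zero]
  exact ⟨⟨1 + cj χ e Δ (u - 1), 1 + cj χ e Δ (w - 1), key u w hu' h1, key w u hw' h2⟩, rfl, rfl⟩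

end Conj

end Pool.Agent.Lib.MP_aa9b81_an.Cb
end
end

section

/-!
# Continuous Bernoulli, part Lh: right-finite kernels
-/

open scoped ENNReal Topology Pointwise CompactlySupported
open Function Filter MeasureTheory

noncomputable section

set_option linter.unusedSectionVars false

namespace Pool.Agent.Lib.MP_aa9b81_an.Cb

open Cut Hs

variable {G J B : Type} [Group G] [TopologicalSpace G] [IsTopologicalGroup G]
  [LocallyCompactSpace G] [SecondCountableTopology G] [T2Space G] [MeasurableSpace G] [BorelSpace G]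
  [TopologicalSpace B] [T2Space B] [MulAction G B] [ContinuousSMul G B] [Nonempty J]

private theorem Lh_Eu_bv (i j : J) : (Eu i j : BL J) (bv j) = bv i := by
  classical
  ext a
  rw [Eu_apply, bv_apply, bv_apply, if_pos rfl]

private theorem Lh_Eu_bv_of_ne (i : J) {j l : J} (h : j ≠ l) : (Eu i j : BL J) (bv l) = 0 := by
  classical
  ext a
  rw [Eu_apply, bv_apply, if_neg h, ite_self]
  rfl

private theorem Lh_sum_eq (F : Finset J) (w : L2 J) [DecidableEq J] :
    w - ∑ i ∈ F, (w : J → ℂ) i • (bv i : L2 J) = dia (fun i => if i ∈ F then (0 : ℂ) else 1) w := by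
  refine ext_bv fun b => ?_
  rw [inner_sub_right, inner_sum, inner_bv_left, inner_bv_left,
    dia_apply zero_le_one (fun q => by split_ifs <;> simp)]
  have h1 : ∀ i ∈ F, (inner ℂ (bv b : L2 J) ((w : J → ℂ) i • (bv i : L2 J)) : ℂ) =
      if i = b then (w : J → ℂ) b else 0 := by
    intro i _
    rw [inner_smul_right, inner_bv_left, bv_apply]
    by_cases h : i = b
    · subst h
      rw [if_pos rfl, if_pos rfl, mul_one]
    · rw [if_neg h, if_neg (fun h' => h h'.symm), mul_zero]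
  rw [Finset.sum_congr rfl h1, Finset.sum_ite_eq']
  by_cases h : b ∈ F
  · rw [if_pos h, if_pos h, sub_self, zero_mul]
  · rw [if_neg h, if_neg h, sub_zero, one_mul]

private theorem Lh_norm_sub_le (F : Finset J) (w : L2 J) :
    ‖w - ∑ i ∈ F, (w : J → ℂ) i • (bv i : L2 J)‖ ≤ ‖w‖ := by
  classical
  rw [Lh_sum_eq]
  refine (ContinuousLinearMap.le_opNorm _ _).trans ?_
  have h1 : ‖(dia (fun i => if i ∈ F then (0 : ℂ) else 1) : BL J)‖ ≤ 1 :=
    norm_dia_le zero_le_one (fun q => by split_ifs <;> simp)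
  have h2 := mul_le_mul_of_nonneg_right h1 (norm_nonneg w)
  rwa [one_mul] at h2

private theorem Lh_coord_le (w : L2 J) (i : J) : ‖(w : J → ℂ) i‖ ≤ ‖w‖ := by
  rw [← inner_bv_left]
  refine (norm_inner_le_norm _ _).trans ?_
  rw [norm_bv, one_mul]

/-- Vector valued functions vanishing at infinity. PROOF: let `K × C` be the compact set for `ε / 2`; outside of it `‖v p‖ ≤ ε / 2`. `exists_finset_near` for the image of `K × C` gives
`F` with `‖v p - ∑_{i ∈ F} v p i • bv i‖ ≤ ε / 2` on `K × C`; outside of `K × C` the left side is at most `‖v p‖ ≤ ε / 2` too (Pythagoras: `dia` of the indicator of the complement of `F` has norm `≤ 1`).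
`exists_Cc_near` for the functions `p ↦ v p i`, `i ∈ F`, with `ε / (2 (|F| + 1))`: `‖v p i‖ ≤ ‖v p‖` is small outside of a compact set (the hypothesis for `ε / (2 (|F| + 1))`), and `φ i p = 0` if
`v p = 0`. -/
theorem exists_Cc_vec {v : B × G → L2 J} (hv : Continuous v) {C : Set G} (hC : IsCompact C)
    (hs : ∀ b g, g ∉ C → v (b, g) = 0)
    (h0 : ∀ ε : ℝ, 0 < ε → ∃ K : Set B, IsCompact K ∧ ∀ b ∉ K, ∀ g, ‖v (b, g)‖ ≤ ε) {ε : ℝ}
    (hε : 0 < ε) : ∃ (F : Finset J) (φ : J → C_c(B × G, ℂ)),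
      (∀ p, ‖v p - ∑ i ∈ F, φ i p • bv i‖ ≤ ε) ∧ ∀ i b g, g ∉ C → φ i (b, g) = 0 := by
  classical
  obtain ⟨K, hK, hKv⟩ := h0 (ε / 2) (half_pos hε)
  obtain ⟨F, hF⟩ := exists_finset_near ((hK.prod hC).image hv) (half_pos hε)
  have h1 : ∀ p, ‖v p - ∑ i ∈ F, (v p : J → ℂ) i • (bv i : L2 J)‖ ≤ ε / 2 := by
    intro p
    by_cases hp : p ∈ K ×ˢ C
    · exact hF _ ⟨p, hp, rfl⟩
    · refine (Lh_norm_sub_le F (v p)).trans ?_
      by_cases hpC : p.2 ∈ C
      · have hpK : p.1 ∉ K := fun h => hp ⟨h, hpC⟩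
        exact hKv p.1 hpK p.2
      · have h2 : v p = 0 := hs p.1 p.2 hpC
        rw [h2, norm_zero]
        exact (half_pos hε).le
  set δ : ℝ := ε / (2 * ((F.card : ℝ) + 1)) with hδ
  have hc : (0 : ℝ) < (F.card : ℝ) + 1 := by positivity
  have hδ0 : 0 < δ := by positivity
  have hcont : ∀ i : J, Continuous fun p => (v p : J → ℂ) i := by
    intro i
    have h2 : (fun p => (v p : J → ℂ) i) = fun p => (inner ℂ (bv i : L2 J) (v p) : ℂ) := by
      funext p
      rw [inner_bv_left]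
    rw [h2]
    exact continuous_const.inner hv
  have hsm : ∀ i : J, ∃ K' : Set (B × G), IsCompact K' ∧ ∀ p ∉ K', ‖(v p : J → ℂ) i‖ ≤ δ := by
    intro i
    obtain ⟨K', hK', hK'v⟩ := h0 δ hδ0
    refine ⟨K' ×ˢ C, hK'.prod hC, fun p hp => ?_⟩
    refine (Lh_coord_le _ _).trans ?_
    by_cases hpC : p.2 ∈ C
    · have hpK : p.1 ∉ K' := fun h => hp ⟨h, hpC⟩
      exact hK'v p.1 hpK p.2
    · have h2 : v p = 0 := hs p.1 p.2 hpC
      rw [h2, norm_zero]
      exact hδ0.le
  choose φ hφ1 hφ2 using fun i : J => exists_Cc_near (hcont i) hδ0 (hsm i)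
  refine ⟨F, φ, fun p => ?_, fun i b g hg => ?_⟩
  · have e : v p - ∑ i ∈ F, φ i p • (bv i : L2 J) =
        (v p - ∑ i ∈ F, (v p : J → ℂ) i • (bv i : L2 J)) +
          ∑ i ∈ F, ((v p : J → ℂ) i - φ i p) • (bv i : L2 J) := by
      simp only [sub_smul, Finset.sum_sub_distrib]
      abel
    rw [e]
    refine (norm_add_le _ _).trans ?_
    have h3 : ‖∑ i ∈ F, ((v p : J → ℂ) i - φ i p) • (bv i : L2 J)‖ ≤ ε / 2 := by
      refine (norm_sum_le _ _).trans ?_
      have h4 : ∀ i ∈ F, ‖((v p : J → ℂ) i - φ i p) • (bv i : L2 J)‖ ≤ δ := by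
        intro i _
        rw [norm_smul, norm_bv, mul_one]
        exact hφ1 i p
      refine (Finset.sum_le_sum h4).trans ?_
      rw [Finset.sum_const, nsmul_eq_mul, hδ]
      have h5 : (F.card : ℝ) * (ε / (2 * ((F.card : ℝ) + 1))) =
          (ε / 2) * ((F.card : ℝ) / ((F.card : ℝ) + 1)) := by
        field_simp
      rw [h5]
      have h6 : (F.card : ℝ) / ((F.card : ℝ) + 1) ≤ 1 := by
        rw [div_le_one hc]
        linarith
      have h7 := mul_le_mul_of_nonneg_left h6 (half_pos hε).le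
      rwa [mul_one] at h7
    have h8 := h1 p
    linarith
  · refine hφ2 i (b, g) ?_
    rw [hs b g hg]
    rfl

private theorem Lh_sum {ι : Type} (s : Finset ι) {C : Set G} (hC : IsCompact C)
    {κ : ι → B → G → BL J} {N : ι → ℝ} (h : ∀ t, FOK C (N t) (κ t)) :
    FOK C (∑ t ∈ s, N t) (fun b g => ∑ t ∈ s, κ t b g) ∧
      ∀ b, opF (fun b g => ∑ t ∈ s, κ t b g) b = ∑ t ∈ s, opF (κ t) b := by
  classical
  induction s using Finset.induction_on with
  | empty =>
    simp only [Finset.sum_empty]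
    refine ⟨⟨hC, le_rfl, fun _ => continuous_const, fun _ _ => by simp, fun _ _ _ => rfl⟩, ?_⟩
    intro b
    exact opk_zero
  | insert a s ha ih =>
    simp only [Finset.sum_insert ha]
    have h1 := (h a).add ih.1
    rw [Set.union_self] at h1
    refine ⟨h1, fun b => ?_⟩
    rw [← ih.2 b]
    exact opF_add (h a) ih.1 b

/-- Right-finite kernels are in the crossed product. PROOF: `κ b g = ∑_{j ∈ F} (κ b g (bv j)) ⊗ ⟨bv j, ·⟩` (both sides agree on the `bv i`: `ext_op` in F3.lean). For `ε > 0` take for every `j ∈ F` the data of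
`exists_Cc_vec` for `p ↦ κ p.1 p.2 (bv j)` (small at infinity by `h0`, `norm_bv`): `F' j`, `φ j i`. Then the element `x = ∑_{j ∈ F} ∑_{i ∈ F' j} gen (φ j i) i j` of the crossed product is `fam (opF κ')` for
`κ' b g = ∑_j ∑_i φ j i (b, g) • Eu i j`, and `‖κ b g - κ' b g‖ ≤ |F| ε` (`(κ b g - κ' b g) v = ∑_{j ∈ F} v j • (κ b g (bv j) - ∑_i φ j i (b, g) • bv i)`, `‖v j‖ ≤ ‖v‖`), supported in `g ∈ C`. So
`‖fam (opF κ) - x‖ ≤ |F| ε cs C` (`opF_sub`, `norm_opF_le`); `isClosed_cpG`, `mem_closure_iff`. -/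
theorem mem_cpG_of_finite {κ : B → G → BL J} {C : Set G} {M : ℝ} (h : FOK C M κ) (F : Finset J)
    (hF : ∀ b g, ∀ j ∉ F, κ b g (bv j) = 0)
    (h0 : ∀ ε : ℝ, 0 < ε → ∃ K : Set B, IsCompact K ∧ ∀ b ∉ K, ∀ g, ‖κ b g‖ ≤ ε) :
    fam (opF κ) ∈ cpG G J B := by
  classical
  have hcl := (isClosed_cpG (G := G) (J := J) (B := B)).closure_eq
  change fam (opF κ) ∈ (cpG G J B : Set (FamG G J B))
  rw [← hcl, Metric.mem_closure_iff]
  intro ε hε
  have hcs : 0 ≤ cs C := Real.sqrt_nonneg _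
  set δ : ℝ := ε / (2 * ((F.card : ℝ) + 1) * (cs C + 1)) with hδ
  have hcF : (0 : ℝ) < (F.card : ℝ) + 1 := by positivity
  have hcC : (0 : ℝ) < cs C + 1 := by positivity
  have hδ0 : 0 < δ := by positivity
  have hex : ∀ j : J, ∃ (F' : Finset J) (φ : J → C_c(B × G, ℂ)),
      (∀ p : B × G, ‖κ p.1 p.2 (bv j) - ∑ i ∈ F', φ i p • (bv i : L2 J)‖ ≤ δ) ∧
        ∀ i b g, g ∉ C → φ i (b, g) = 0 := by
    intro j
    refine exists_Cc_vec (v := fun p : B × G => κ p.1 p.2 (bv j)) (h.cont (bv j)) h.cpt ?_ ?_ hδ0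
    · intro b g hg
      change κ b g (bv j) = 0
      rw [h.supp b g hg]
      rfl
    · intro η hη
      obtain ⟨K, hK, hK'⟩ := h0 η hη
      refine ⟨K, hK, fun b hb g => ?_⟩
      change ‖κ b g (bv j)‖ ≤ η
      refine (ContinuousLinearMap.le_opNorm _ _).trans ?_
      rw [norm_bv, mul_one]
      exact hK' b hb g
  choose F' φ hφ hφ0 using hex
  have hex2 : ∀ j i : J, ∃ N : ℝ, FOK C N fun (b : B) (g : G) => φ j i (b, g) • (Eu i j : BL J) := by
    intro j i
    obtain ⟨C', N, hC', hN, hb, _⟩ := exists_bound (φ j i)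
    exact ⟨N, FOK_smul (f := fun p => φ j i p) (φ j i).continuous h.cpt hN hb (hφ0 j i) i j⟩
  choose N hN using hex2
  have hin := fun j : J => Lh_sum (F' j) h.cpt (hN j)
  have hout := Lh_sum F h.cpt (fun j : J => (hin j).1)
  refine ⟨∑ j ∈ F, ∑ i ∈ F' j, gen (φ j i) i j, ?_, ?_⟩
  · exact sum_mem fun j _ => sum_mem fun i _ => gen_mem _ _ _
  · rw [dist_eq_norm]
    have hfn : ∀ (b : B), (∑ j ∈ F, ∑ i ∈ F' j, gen (φ j i) i j : FamG G J B) b =
        ∑ j ∈ F, ∑ i ∈ F' j, (gen (φ j i) i j : FamG G J B) b := by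
      intro b
      have e1 : ∀ (ι : Type) (s : Finset ι) (f : ι → FamG G J B),
          (∑ t ∈ s, f t : FamG G J B) b = ∑ t ∈ s, (f t) b := by
        intro ι s f
        induction s using Finset.induction_on with
        | empty => simp
        | insert a s ha ih => rw [Finset.sum_insert ha, Finset.sum_insert ha, FamG.add_apply, ih]
      rw [e1]
      exact Finset.sum_congr rfl fun j _ => e1 _ _ _
    have hb1 : ∀ b : B, (fam (opF κ) - ∑ j ∈ F, ∑ i ∈ F' j, gen (φ j i) i j : FamG G J B) b =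
        opF (fun b g => κ b g - ∑ j ∈ F, ∑ i ∈ F' j, φ j i (b, g) • (Eu i j : BL J)) b := by
      intro b
      rw [FamG.sub_apply, fam_apply (norm_opF_le h), hfn, opF_sub h hout.1, hout.2]
      refine congrArg (fun T => opF κ b - T) ?_
      refine Finset.sum_congr rfl fun j _ => ?_
      rw [(hin j).2]
      exact Finset.sum_congr rfl fun i _ => gen_apply _ _ _ _
    have hbd : ∀ (b : B) (g : G),
        ‖κ b g - ∑ j ∈ F, ∑ i ∈ F' j, φ j i (b, g) • (Eu i j : BL J)‖ ≤ (F.card : ℝ) * δ := by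
      intro b g
      set T : BL J := κ b g - ∑ j ∈ F, ∑ i ∈ F' j, φ j i (b, g) • (Eu i j : BL J) with hT
      have hTj : ∀ l ∈ F, ‖T (bv l)‖ ≤ δ := by
        intro l hl
        have e1 : T (bv l) = κ b g (bv l) - ∑ i ∈ F' l, φ l i (b, g) • (bv i : L2 J) := by
          rw [hT, _root_.sub_apply, _root_.sum_apply]
          refine congrArg (fun w => κ b g (bv l) - w) ?_
          rw [Finset.sum_eq_single l]
          · rw [_root_.sum_apply]
            refine Finset.sum_congr rfl fun i _ => ?_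
            change φ l i (b, g) • (Eu i l : BL J) (bv l) = _
            rw [Lh_Eu_bv]
          · intro j _ hj
            rw [_root_.sum_apply]
            refine Finset.sum_eq_zero fun i _ => ?_
            change φ j i (b, g) • (Eu i j : BL J) (bv l) = 0
            rw [Lh_Eu_bv_of_ne i hj, smul_zero]
          · intro h'
            exact absurd hl h'
        rw [e1]
        exact hφ l (b, g)
      have hTn : ∀ l ∉ F, T (bv l) = 0 := by
        intro l hl
        rw [hT, _root_.sub_apply, _root_.sum_apply, hF b g l hl, zero_sub,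
          neg_eq_zero]
        refine Finset.sum_eq_zero fun j hj => ?_
        rw [_root_.sum_apply]
        refine Finset.sum_eq_zero fun i _ => ?_
        change φ j i (b, g) • (Eu i j : BL J) (bv l) = 0
        have hjl : j ≠ l := by
          rintro rfl
          exact hl hj
        rw [Lh_Eu_bv_of_ne i hjl, smul_zero]
      refine ContinuousLinearMap.opNorm_le_bound _ (mul_nonneg (Nat.cast_nonneg _) hδ0.le) ?_
      intro w
      have h5 : HasSum (fun l => T ((w : J → ℂ) l • (bv l : L2 J))) (T w) := (hasSum_bv w).mapL T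
      have h6 : HasSum (fun l => T ((w : J → ℂ) l • (bv l : L2 J)))
          (∑ l ∈ F, T ((w : J → ℂ) l • (bv l : L2 J))) := by
        refine hasSum_sum_of_ne_finset_zero fun l hl => ?_
        rw [ContinuousLinearMap.map_smul, hTn l hl, smul_zero]
      rw [h5.unique h6]
      refine (norm_sum_le _ _).trans ?_
      have h7 : ∀ l ∈ F, ‖T ((w : J → ℂ) l • (bv l : L2 J))‖ ≤ δ * ‖w‖ := by
        intro l hl
        rw [ContinuousLinearMap.map_smul, norm_smul, mul_comm]
        exact mul_le_mul (hTj l hl) (Lh_coord_le w l) (norm_nonneg _) hδ0.le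
      refine (Finset.sum_le_sum h7).trans ?_
      rw [Finset.sum_const, nsmul_eq_mul, mul_assoc]
    have hfok : FOK C ((F.card : ℝ) * δ) fun (b : B) (g : G) =>
        κ b g - ∑ j ∈ F, ∑ i ∈ F' j, φ j i (b, g) • (Eu i j : BL J) := by
      have h8 := h.sub hout.1
      rw [Set.union_self] at h8
      exact ⟨h.cpt, mul_nonneg (Nat.cast_nonneg _) hδ0.le, h8.cont, hbd, h8.supp⟩
    have hle : ‖(fam (opF κ) - ∑ j ∈ F, ∑ i ∈ F' j, gen (φ j i) i j : FamG G J B)‖ ≤
        (F.card : ℝ) * δ * cs C := by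
      refine (FamG.norm_le_iff (mul_nonneg (mul_nonneg (Nat.cast_nonneg _) hδ0.le) hcs)).2 ?_
      intro b
      rw [hb1 b]
      exact norm_opF_le hfok b
    refine hle.trans_lt ?_
    have e9 : (F.card : ℝ) * δ * cs C =
        (ε / 2) * (((F.card : ℝ) / ((F.card : ℝ) + 1)) * (cs C / (cs C + 1))) := by
      rw [hδ]
      field_simp
    rw [e9]
    have h10 : (F.card : ℝ) / ((F.card : ℝ) + 1) ≤ 1 := by
      rw [div_le_one hcF]
      linarith
    have h11 : cs C / (cs C + 1) ≤ 1 := by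
      rw [div_le_one hcC]
      linarith
    have h12 : 0 ≤ (F.card : ℝ) / ((F.card : ℝ) + 1) := by positivity
    have h13 : 0 ≤ cs C / (cs C + 1) := div_nonneg hcs hcC.le
    have h14 : ((F.card : ℝ) / ((F.card : ℝ) + 1)) * (cs C / (cs C + 1)) ≤ 1 :=
      mul_le_one₀ h10 h13 h11
    have h15 := mul_le_mul_of_nonneg_left h14 (half_pos hε).le
    rw [mul_one] at h15
    linarith

end Pool.Agent.Lib.MP_aa9b81_an.Cb
end
end

section

/-!
# Continuous Bernoulli, part Lhb: left multipliers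
-/

open scoped ENNReal Topology Pointwise CompactlySupported
open Function Filter MeasureTheory

noncomputable section

set_option linter.unusedSectionVars false

namespace Pool.Agent.Lib.MP_aa9b81_an.Cb

open Cut Hs

variable {G J B : Type} [Group G] [TopologicalSpace G] [IsTopologicalGroup G]
  [LocallyCompactSpace G] [SecondCountableTopology G] [T2Space G] [MeasurableSpace G] [BorelSpace G]
  [TopologicalSpace B] [T2Space B] [MulAction G B] [ContinuousSMul G B] [Nonempty J]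

private theorem Lhb_smul_Eu_bv {Z J : Type} [TopologicalSpace Z] (φ : C_c(Z, ℂ)) {p : Z} {i j l : J}
    (h : l ≠ j) : (φ p • (Eu i j : BL J)) (bv l) = 0 := by
  have h1 : (Eu i j : BL J) (bv l) = 0 := by
    refine lp.ext (funext fun a => ?_)
    rw [Eu_apply, bv_apply]
    by_cases ha : a = i
    · rw [if_pos ha, if_neg (fun e => h e.symm)]
      rfl
    · rw [if_neg ha]
      rfl
  rw [ContinuousLinearMap.smul_apply, h1, smul_zero]

private theorem Lhb_zero {B G : Type} [TopologicalSpace B] [TopologicalSpace G]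
    (φ : C_c(B × G, ℂ)) {b : B} (hb : b ∉ Prod.fst '' tsupport φ) (g : G) : φ (b, g) = 0 := by
  by_contra hne
  exact hb ⟨(b, g), subset_tsupport _ hne, rfl⟩

/-! ### Left multipliers -/

variable (G J B) in
/-- The left multipliers of the crossed product. -/
def LM : Set (FamG G J B) := {x | ∀ y ∈ cpG G J B, x * y ∈ cpG G J B}

theorem LM_one : (1 : FamG G J B) ∈ LM G J B := fun y hy => by rwa [one_mul]

theorem LM_of_mem {x : FamG G J B} (h : x ∈ cpG G J B) : x ∈ LM G J B := fun _ hy => mul_mem h hy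

theorem LM_mul {x y : FamG G J B} (h : x ∈ LM G J B) (h' : y ∈ LM G J B) : x * y ∈ LM G J B :=
  fun z hz => by
    rw [mul_assoc]
    exact h _ (h' _ hz)

theorem LM_add {x y : FamG G J B} (h : x ∈ LM G J B) (h' : y ∈ LM G J B) : x + y ∈ LM G J B :=
  fun z hz => by
    rw [add_mul]
    exact add_mem (h _ hz) (h' _ hz)

theorem LM_sub {x y : FamG G J B} (h : x ∈ LM G J B) (h' : y ∈ LM G J B) : x - y ∈ LM G J B :=
  fun z hz => by
    rw [sub_mul]
    exact sub_mem (h _ hz) (h' _ hz)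

theorem LM_smul (c : ℂ) {x : FamG G J B} (h : x ∈ LM G J B) : c • x ∈ LM G J B :=
  fun z hz => by
    rw [smul_mul_assoc]
    exact (cpG G J B).smul_mem c (h _ hz)

/-- PROOF: an intersection of the closed sets `{x | x * y ∈ cpG}` (continuity of the multiplication). -/
theorem isClosed_LM : IsClosed (LM G J B) := by
  have h1 : LM G J B = ⋂ y ∈ (cpG G J B : Set (FamG G J B)),
      {x : FamG G J B | x * y ∈ (cpG G J B : Set (FamG G J B))} := by
    ext x
    rw [Set.mem_iInter₂]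
    exact Iff.rfl
  rw [h1]
  exact isClosed_biInter fun y _ =>
    (isClosed_cpG (G := G) (J := J) (B := B)).preimage (continuous_id.mul continuous_const)

/-- PROOF: `cpG_induction`. -/
theorem LM_of_gen {x : FamG G J B} (h : ∀ φ i j, x * gen φ i j ∈ cpG G J B) : x ∈ LM G J B := by
  intro y hy
  refine cpG_induction (p := fun y => x * y ∈ cpG G J B) ?_ ?_ ?_ h y hy
  · exact (isClosed_cpG (G := G) (J := J) (B := B)).preimage (continuous_const.mul continuous_id)
  · show x * 0 ∈ cpG G J B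
    rw [mul_zero]
    exact zero_mem _
  · intro y z hy hz
    show x * (y + z) ∈ cpG G J B
    rw [mul_add]
    exact add_mem hy hz

/-- PROOF: `LM_of_gen`; `fam (MulF τ) * gen φ i j = fam (opF (fun b g => (τ b).comp (φ (b, g) • Eu i j)))` (`MulF_comp_opF`), and `mem_cpG_of_finite` with `F = {j}`; the kernel is zero for `b`
outside of the image in `B` of the support of `φ`. -/
theorem LM_MulF {τ : B → BL J} (h : SC τ) : fam (MulF τ) ∈ LM G J B := by
  obtain ⟨N, hN⟩ := h.bdd
  have hN' : ∀ b, ‖τ b‖ ≤ |N| := fun b => (hN b).trans (le_abs_self N)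
  refine LM_of_gen fun φ i j => ?_
  obtain ⟨C, M, hC, hM, hb, hs⟩ := exists_bound φ
  have hF : FOK C M fun b g => φ (b, g) • (Eu i j : BL J) :=
    FOK_smul φ.continuous hC hM hb hs i j
  have hFl := hF.left h (abs_nonneg N) hN'
  have e : fam (MulF τ) * gen φ i j =
      fam (opF fun b g => (τ b).comp (φ (b, g) • (Eu i j : BL J))) := by
    refine FamG.ext fun b => ?_
    rw [FamG.mul_apply, fam_apply (norm_MulF_le h hN'), gen_apply, fam_apply (norm_opF_le hFl)]
    exact MulF_comp_opF hF h b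
  rw [e]
  refine mem_cpG_of_finite hFl {j} ?_ ?_
  · intro b g l hl
    rw [ContinuousLinearMap.comp_apply, Lhb_smul_Eu_bv φ (fun e => hl (Finset.mem_singleton.2 e)),
      map_zero]
  · intro ε hε
    refine ⟨Prod.fst '' tsupport φ, φ.hasCompactSupport.isCompact.image continuous_fst, ?_⟩
    intro b hb g
    rw [Lhb_zero φ hb g, zero_smul, ContinuousLinearMap.comp_zero, norm_zero]
    exact hε.le

/-- PROOF: `LM_of_gen`; `fam (opF θ) * gen φ i j = fam (opF (fc θ (fun b g => φ (b, g) • Eu i j)))` (`opF_comp_opF`, `FOK.fc`), and `mem_cpG_of_finite` with `F = {j}` (`fc_apply`: the vector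
`Eu i j (bv l)` is `0` for `l ≠ j`); the kernel is zero for `b` outside of the compact set of the products `x • b'`, `x ∈ C`, `b'` in the image in `B` of the support of `φ`. -/
theorem LM_opF {θ : B → G → BL J} {C : Set G} {M : ℝ} (h : FOK C M θ) :
    fam (opF θ) ∈ LM G J B := by
  refine LM_of_gen fun φ i j => ?_
  obtain ⟨C', M', hC', hM', hb', hs'⟩ := exists_bound φ
  have hF : FOK C' M' fun b g => φ (b, g) • (Eu i j : BL J) :=
    FOK_smul φ.continuous hC' hM' hb' hs' i j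
  have hFc := FOK.fc h hF
  have e : fam (opF θ) * gen φ i j =
      fam (opF (fc θ fun b g => φ (b, g) • (Eu i j : BL J))) := by
    refine FamG.ext fun b => ?_
    rw [FamG.mul_apply, fam_apply (norm_opF_le h), gen_apply, fam_apply (norm_opF_le hFc)]
    exact opF_comp_opF h hF b
  rw [e]
  refine mem_cpG_of_finite hFc {j} ?_ ?_
  · intro b g l hl
    rw [fc_apply h hF]
    refine (integral_congr_ae (Eventually.of_forall fun x => ?_)).trans (integral_zero G (L2 J))
    show θ b x ((φ (x⁻¹ • b, x⁻¹ * g) • (Eu i j : BL J)) (bv l)) = 0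
    rw [Lhb_smul_Eu_bv φ (fun e => hl (Finset.mem_singleton.2 e)), map_zero]
  · intro ε hε
    refine ⟨C • (Prod.fst '' tsupport φ),
      h.cpt.smul_set (φ.hasCompactSupport.isCompact.image continuous_fst), ?_⟩
    intro b hb g
    have h0 : fc θ (fun b g => φ (b, g) • (Eu i j : BL J)) b g = 0 := by
      refine ContinuousLinearMap.ext fun v => ?_
      rw [fc_apply h hF]
      refine (integral_congr_ae (Eventually.of_forall fun x => ?_)).trans (integral_zero G (L2 J))
      show θ b x ((φ (x⁻¹ • b, x⁻¹ * g) • (Eu i j : BL J)) v) = 0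
      by_cases hx : x ∈ C
      · have hx' : x⁻¹ • b ∉ Prod.fst '' tsupport φ := by
          intro hmem
          refine hb ?_
          have h2 := Set.smul_mem_smul hx hmem
          rwa [smul_inv_smul] at h2
        rw [Lhb_zero φ hx' (x⁻¹ * g), zero_smul, ContinuousLinearMap.zero_apply, map_zero]
      · rw [h.supp b x hx, ContinuousLinearMap.zero_apply]
    rw [h0, norm_zero]
    exact hε.le

end Pool.Agent.Lib.MP_aa9b81_an.Cb
end
end

section

/-!
# Continuous Bernoulli, part Lib: compressions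
-/

open scoped ENNReal Topology Pointwise CompactlySupported
open Function Filter MeasureTheory

noncomputable section

set_option linter.unusedSectionVars false

namespace Pool.Agent.Lib.MP_aa9b81_an.Cb

open Cut Hs

variable {G J J' J'' B : Type} [Group G] [TopologicalSpace G] [IsTopologicalGroup G]
  [LocallyCompactSpace G] [SecondCountableTopology G] [T2Space G] [MeasurableSpace G] [BorelSpace G]
  [Nonempty J] [Nonempty J'] [Nonempty J'']

variable [TopologicalSpace B] [T2Space B] [MulAction G B] [ContinuousSMul G B]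

/-! ### The corner lemma -/

/-- The projection of `ℓ²(ℕ)` onto the first `n` coordinates. -/
def pn (n : ℕ) : BL ℕ := dia fun k => if k < n then 1 else 0

theorem Lib_wpn (n : ℕ) (k : ℕ) : ‖(if k < n then (1 : ℂ) else 0)‖ ≤ 1 := by
  split_ifs
  · rw [norm_one]
  · rw [norm_zero]
    exact zero_le_one

theorem Lib_norm_pn (n : ℕ) : ‖pn n‖ ≤ 1 := norm_dia_le zero_le_one (Lib_wpn n)

theorem Lib_pn_apply (n : ℕ) (ξ : L2 ℕ) (k : ℕ) :
    (pn n ξ : ℕ → ℂ) k = (if k < n then (1 : ℂ) else 0) * (ξ : ℕ → ℂ) k :=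
  dia_apply zero_le_one (Lib_wpn n) ξ k

theorem Lib_pn_comp_pn (n : ℕ) : (pn n).comp (pn n) = pn n := by
  refine ContinuousLinearMap.ext fun ξ => ?_
  ext k
  rw [ContinuousLinearMap.comp_apply, Lib_pn_apply, Lib_pn_apply]
  split_ifs
  · rw [one_mul]
  · rw [zero_mul, zero_mul]

theorem Lib_pn_Eu (n i j : ℕ) : ((pn n).comp (Eu i j : BL ℕ)).comp (pn n) =
    if i < n ∧ j < n then Eu i j else 0 := by
  refine ContinuousLinearMap.ext fun ξ => ?_
  ext k
  rw [ContinuousLinearMap.comp_apply, ContinuousLinearMap.comp_apply, Lib_pn_apply, Eu_apply,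
    Lib_pn_apply]
  by_cases hij : i < n ∧ j < n
  · rw [if_pos hij, Eu_apply, if_pos hij.2, one_mul]
    by_cases hk : k = i
    · rw [if_pos hk, if_pos (by rw [hk]; exact hij.1), one_mul]
    · rw [if_neg hk, mul_zero]
  · rw [if_neg hij]
    have h0 : ((0 : BL ℕ) ξ : ℕ → ℂ) k = 0 := rfl
    rw [h0]
    by_cases hk : k = i
    · rw [if_pos hk]
      by_cases hi : i < n
      · have hj : ¬ j < n := fun h => hij ⟨hi, h⟩
        rw [if_neg hj, zero_mul, mul_zero]
      · rw [if_neg (by rw [hk]; exact hi), zero_mul]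
    · rw [if_neg hk, mul_zero]

omit [TopologicalSpace B] [T2Space B] [MulAction G B] [ContinuousSMul G B] in
/-- The compression to the first `n` coordinates. -/
def trn (n : ℕ) (x : FamG G ℕ B) : FamG G ℕ B :=
  fam fun b => ((Mul fun _ => pn n).comp (x b)).comp (Mul fun _ => pn n)

omit [TopologicalSpace B] [T2Space B] [MulAction G B] [ContinuousSMul G B] in
theorem Lib_norm_Mul (n : ℕ) : ‖(Mul fun _ => pn n : HG G ℕ →L[ℂ] HG G ℕ)‖ ≤ 1 :=
  norm_Mul_le (SC.const _) fun _ => Lib_norm_pn n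

omit [TopologicalSpace B] [T2Space B] [MulAction G B] [ContinuousSMul G B] in
theorem Lib_bound (n : ℕ) (x : FamG G ℕ B) (b : B) :
    ‖((Mul fun _ => pn n).comp (x b)).comp (Mul fun _ => pn n)‖ ≤ ‖x‖ := by
  have h1 := Lib_norm_Mul (G := G) n
  have h2 := FamG.norm_apply_le x b
  calc ‖((Mul fun _ => pn n).comp (x b)).comp (Mul fun _ => pn n)‖
      ≤ ‖(Mul fun _ => pn n : HG G ℕ →L[ℂ] HG G ℕ).comp (x b)‖ *
        ‖(Mul fun _ => pn n : HG G ℕ →L[ℂ] HG G ℕ)‖ := ContinuousLinearMap.opNorm_comp_le _ _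
    _ ≤ (‖(Mul fun _ => pn n : HG G ℕ →L[ℂ] HG G ℕ)‖ * ‖x b‖) *
        ‖(Mul fun _ => pn n : HG G ℕ →L[ℂ] HG G ℕ)‖ :=
        mul_le_mul_of_nonneg_right (ContinuousLinearMap.opNorm_comp_le _ _) (norm_nonneg _)
    _ ≤ (1 * ‖x‖) * 1 := by
        refine mul_le_mul (mul_le_mul h1 h2 (norm_nonneg _) zero_le_one) h1 (norm_nonneg _) ?_
        rw [one_mul]
        exact norm_nonneg _
    _ = ‖x‖ := by ring

omit [TopologicalSpace B] [T2Space B] [MulAction G B] [ContinuousSMul G B] in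
theorem Lib_Mul_pn (n : ℕ) : (Mul fun _ => pn n : HG G ℕ →L[ℂ] HG G ℕ).comp (Mul fun _ => pn n) =
    Mul fun _ => pn n := by
  rw [Mul_comp_Mul (SC.const _) (SC.const _)]
  congr 1
  funext a
  exact Lib_pn_comp_pn n

omit [TopologicalSpace B] [T2Space B] [MulAction G B] [ContinuousSMul G B] in
theorem Lib_Mul_left2 (n : ℕ) (T : HG G ℕ →L[ℂ] HG G ℕ) :
    (Mul fun _ => pn n).comp (((Mul fun _ => pn n).comp T).comp (Mul fun _ => pn n)) =
      ((Mul fun _ => pn n).comp T).comp (Mul fun _ => pn n) := by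
  rw [ContinuousLinearMap.comp_assoc, ← ContinuousLinearMap.comp_assoc (Mul fun _ => pn n),
    Lib_Mul_pn]

omit [TopologicalSpace B] [T2Space B] [MulAction G B] [ContinuousSMul G B] in
theorem Lib_Mul_right2 (n : ℕ) (T : HG G ℕ →L[ℂ] HG G ℕ) :
    (((Mul fun _ => pn n).comp T).comp (Mul fun _ => pn n)).comp (Mul fun _ => pn n) =
      ((Mul fun _ => pn n).comp T).comp (Mul fun _ => pn n) := by
  rw [ContinuousLinearMap.comp_assoc, Lib_Mul_pn]

omit [TopologicalSpace B] [T2Space B] [MulAction G B] [ContinuousSMul G B] in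
theorem Lib_Mul_left (n : ℕ) (T : HG G ℕ →L[ℂ] HG G ℕ) :
    (((Mul fun _ => pn n).comp (((Mul fun _ => pn n).comp T).comp (Mul fun _ => pn n)))).comp
      (Mul fun _ => pn n) = ((Mul fun _ => pn n).comp T).comp (Mul fun _ => pn n) := by
  rw [Lib_Mul_left2, Lib_Mul_right2]

omit [TopologicalSpace B] [T2Space B] [MulAction G B] [ContinuousSMul G B] in
/-- PROOF: `norm_Mul_le`, `norm_dia_le`: `Mul (fun _ => pn n)` has norm at most `1`. -/
theorem trn_apply (n : ℕ) (x : FamG G ℕ B) (b : B) :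
    trn n x b = ((Mul fun _ => pn n).comp (x b)).comp (Mul fun _ => pn n) := by
  rw [trn]
  exact fam_apply (C := ‖x‖) (fun b => Lib_bound n x b) b

omit [TopologicalSpace B] [T2Space B] [MulAction G B] [ContinuousSMul G B] in
theorem norm_trn_le (n : ℕ) (x : FamG G ℕ B) : ‖trn n x‖ ≤ ‖x‖ := by
  refine (FamG.norm_le_iff (norm_nonneg _)).2 fun b => ?_
  rw [trn_apply]
  exact Lib_bound n x b

omit [TopologicalSpace B] [T2Space B] [MulAction G B] [ContinuousSMul G B] in
theorem trn_sub (n : ℕ) (x y : FamG G ℕ B) : trn n (x - y) = trn n x - trn n y := by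
  refine FamG.ext fun b => ?_
  rw [FamG.sub_apply, trn_apply, trn_apply, trn_apply, FamG.sub_apply,
    ContinuousLinearMap.comp_sub, ContinuousLinearMap.sub_comp]

omit [TopologicalSpace B] [T2Space B] [MulAction G B] [ContinuousSMul G B] in
/-- PROOF: `pn n * pn n = pn n`. -/
theorem trn_trn (n : ℕ) (x : FamG G ℕ B) : trn n (trn n x) = trn n x := by
  refine FamG.ext fun b => ?_
  rw [trn_apply, trn_apply, Lib_Mul_left]

omit [TopologicalSpace B] [T2Space B] [MulAction G B] [ContinuousSMul G B] in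
theorem Lib_trn_zero (n : ℕ) : trn n (0 : FamG G ℕ B) = 0 := by
  have h := trn_sub n (0 : FamG G ℕ B) 0
  rwa [sub_self, sub_self] at h

omit [TopologicalSpace B] [T2Space B] [MulAction G B] [ContinuousSMul G B] in
theorem Lib_trn_add (n : ℕ) (x y : FamG G ℕ B) : trn n (x + y) = trn n x + trn n y := by
  refine FamG.ext fun b => ?_
  rw [FamG.add_apply, trn_apply, trn_apply, trn_apply, FamG.add_apply,
    ContinuousLinearMap.comp_add, ContinuousLinearMap.add_comp]

omit [TopologicalSpace B] [T2Space B] [MulAction G B] [ContinuousSMul G B] in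
theorem Lib_continuous_trn (n : ℕ) : Continuous fun x : FamG G ℕ B => trn n x := by
  refine (LipschitzWith.of_dist_le_mul (K := 1) fun x y => ?_).continuous
  rw [dist_eq_norm, dist_eq_norm, ← trn_sub, NNReal.coe_one, one_mul]
  exact norm_trn_le n _

/-- PROOF: `trn n (gen φ i j)` is `gen φ i j` if `i, j < n` and `0` otherwise. -/
theorem trn_gen (n : ℕ) (φ : C_c(B × G, ℂ)) (i j : ℕ) :
    trn n (gen φ i j : FamG G ℕ B) = if i < n ∧ j < n then gen φ i j else 0 := by
  obtain ⟨C, M, hC, hM, hb, hs⟩ := exists_bound φ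
  have hF : FOK C M fun b g => φ (b, g) • (Eu i j : BL ℕ) :=
    FOK_smul φ.continuous hC hM hb hs i j
  refine FamG.ext fun b => ?_
  have hK := hF.kok b
  have h1 : ∀ a, ‖((fun _ : G => pn n) a : BL ℕ)‖ ≤ 1 := fun _ => Lib_norm_pn n
  have hK' := hK.left (SC.const (Z := G) (pn n)) zero_le_one h1
  rw [trn_apply, gen_apply, opF, Mul_comp_opk hK (SC.const (pn n)),
    opk_comp_Mul hK' (SC.const (pn n))]
  by_cases hij : i < n ∧ j < n
  · rw [if_pos hij, gen_apply, opF]
    congr 1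
    funext a a'
    change ((pn n).comp (φ (a⁻¹ • b, a⁻¹ * a') • (Eu i j : BL ℕ))).comp (pn n) =
      φ (a⁻¹ • b, a⁻¹ * a') • (Eu i j : BL ℕ)
    rw [ContinuousLinearMap.comp_smul, ContinuousLinearMap.smul_comp, Lib_pn_Eu, if_pos hij]
  · rw [if_neg hij, FamG.zero_apply, ← opk_zero]
    congr 1
    funext a a'
    change ((pn n).comp (φ (a⁻¹ • b, a⁻¹ * a') • (Eu i j : BL ℕ))).comp (pn n) = 0
    rw [ContinuousLinearMap.comp_smul, ContinuousLinearMap.smul_comp, Lib_pn_Eu, if_neg hij,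
      smul_zero]

/-- PROOF: `cpG_induction`, `trn_gen`, `norm_trn_le`, `trn_sub`. -/
theorem trn_mem (n : ℕ) : ∀ x ∈ cpG G ℕ B, trn n x ∈ cpG G ℕ B := by
  refine cpG_induction ?_ ?_ ?_ ?_
  · exact isClosed_cpG.preimage (Lib_continuous_trn n)
  · rw [Lib_trn_zero]
    exact zero_mem _
  · intro x y hx hy
    rw [Lib_trn_add]
    exact add_mem hx hy
  · intro φ i j
    rw [trn_gen]
    split_ifs
    · exact gen_mem φ i j
    · exact zero_mem _

/-- PROOF: `cpG_induction` for the `x` with this property: closed by `norm_trn_le`, `trn_sub` (`ε / 3`); for `gen φ i j` the sequence is eventually constant. -/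
theorem tendsto_trn : ∀ x ∈ cpG G ℕ B, Tendsto (fun n => trn n x) atTop (𝓝 x) := by
  refine cpG_induction ?_ ?_ ?_ ?_
  · refine isClosed_of_closure_subset fun x hx => ?_
    change Tendsto (fun n => trn n x) atTop (𝓝 x)
    rw [Metric.tendsto_nhds]
    intro ε hε
    obtain ⟨y, hy, hxy⟩ := Metric.mem_closure_iff.1 hx (ε / 3) (by positivity)
    have hy' : Tendsto (fun n => trn n y) atTop (𝓝 y) := hy
    filter_upwards [(Metric.tendsto_nhds.1 hy') (ε / 3) (by positivity)] with n hn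
    rw [dist_eq_norm] at hxy hn ⊢
    have h1 : trn n x - x = trn n (x - y) + (trn n y - y) - (x - y) := by
      rw [trn_sub]
      abel
    rw [h1]
    have h2 := norm_trn_le n (x - y)
    have h3 := norm_sub_le (trn n (x - y) + (trn n y - y)) (x - y)
    have h4 := norm_add_le (trn n (x - y)) (trn n y - y)
    linarith
  · have h : ∀ n, trn n (0 : FamG G ℕ B) = 0 := fun n => Lib_trn_zero n
    simp only [h]
    exact tendsto_const_nhds
  · intro x y hx hy
    have h : ∀ n, trn n (x + y) = trn n x + trn n y := fun n => Lib_trn_add n x y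
    simp only [h]
    exact hx.add hy
  · intro φ i j
    refine tendsto_const_nhds.congr' ?_
    filter_upwards [eventually_gt_atTop (max i j)] with n hn
    rw [trn_gen, if_pos ⟨lt_of_le_of_lt (le_max_left _ _) hn, lt_of_le_of_lt (le_max_right _ _) hn⟩]

variable (G B) in
/-- The elements of the crossed product supported in the first `n` coordinates. PROOF of the fields: `trn n x = x` is equivalent to: `(Mul pn) (x b) = x b` and `(x b) (Mul pn) = x b` for all `b` (multiply with the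
projection `Mul (fun _ => pn n)`); this is closed under products. -/
def cpn (n : ℕ) : NonUnitalSubalgebra ℂ (FamG G ℕ B) where
  carrier := {x | x ∈ cpG G ℕ B ∧ trn n x = x}
  add_mem' := by
    intro x y hx hy
    refine ⟨add_mem hx.1 hy.1, ?_⟩
    rw [Lib_trn_add, hx.2, hy.2]
  zero_mem' := by
    exact ⟨zero_mem _, Lib_trn_zero n⟩
  mul_mem' := by
    intro x y hx hy
    refine ⟨mul_mem hx.1 hy.1, ?_⟩
    refine FamG.ext fun b => ?_
    have h1 : (Mul fun _ => pn n).comp (x b) = x b := by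
      have h2 : trn n x b = x b := by rw [hx.2]
      rw [trn_apply] at h2
      rw [← h2, Lib_Mul_left2]
    have h3 : (y b).comp (Mul fun _ => pn n) = y b := by
      have h2 : trn n y b = y b := by rw [hy.2]
      rw [trn_apply] at h2
      rw [← h2, Lib_Mul_right2]
    rw [trn_apply, FamG.mul_apply]
    change ((Mul fun _ => pn n).comp ((x b).comp (y b))).comp (Mul fun _ => pn n) =
      (x b).comp (y b)
    rw [← ContinuousLinearMap.comp_assoc, h1, ContinuousLinearMap.comp_assoc, h3]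
  smul_mem' := by
    intro c x hx
    refine ⟨(cpG G ℕ B).smul_mem c hx.1, ?_⟩
    refine FamG.ext fun b => ?_
    have h2 : trn n x b = x b := by rw [hx.2]
    rw [trn_apply] at h2
    rw [trn_apply, FamG.smul_apply, ContinuousLinearMap.comp_smul, ContinuousLinearMap.smul_comp, h2]

theorem mem_cpn (n : ℕ) (x : FamG G ℕ B) : x ∈ cpn G B n ↔ x ∈ cpG G ℕ B ∧ trn n x = x := Iff.rfl

/-- PROOF: `isClosed_cpG`, continuity of `trn n`. -/
theorem isClosed_cpn (n : ℕ) : IsClosed (cpn G B n : Set (FamG G ℕ B)) := by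
  exact isClosed_cpG.inter (isClosed_eq (Lib_continuous_trn n) continuous_id)

end Pool.Agent.Lib.MP_aa9b81_an.Cb
end
end
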