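import Pool.Agent.Lib.MP_aa9b81_an.Mg.G062
import Pool.Agent.Lib.MP_aa9b81_an.Mg.G063
import Pool.Agent.Lib.MP_aa9b81_an.Mg.G068

section

/-!
# Continuous Bernoulli, part Kg: strong limits of families
-/

open scoped ENNReal Topology CompactlySupported
open Function Filter MeasureTheory

noncomputable section

set_option linter.unusedSectionVars false

namespace Pool.Agent.Lib.MP_aa9b81_an.Cb

open Cut Hs

variable {G J B : Type} [Group G] [TopologicalSpace G] [IsTopologicalGroup G]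
  [LocallyCompactSpace G] [SecondCountableTopology G] [T2Space G] [MeasurableSpace G]
  [BorelSpace G] [Nonempty J]

/-- `x` is the strong limit of the families `F n`. -/
def SLim (F : ℕ → FamG G J B) (x : FamG G J B) : Prop :=
  ∀ (b : B) (ξ : HG G J), Tendsto (fun n => (F n).fn b ξ) atTop (𝓝 (x.fn b ξ))

/-- PROOF: `tendsto_nhds_unique`. -/
theorem SLim.unique {F : ℕ → FamG G J B} {x x' : FamG G J B} (h : SLim F x) (h' : SLim F x') :
    x = x' := by
  refine FamG.ext fun b => ContinuousLinearMap.ext fun ξ => ?_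
  exact tendsto_nhds_unique (h b ξ) (h' b ξ)

theorem SLim.add {F F' : ℕ → FamG G J B} {x x' : FamG G J B} (h : SLim F x) (h' : SLim F' x') :
    SLim (fun n => F n + F' n) (x + x') := by
  intro b ξ
  exact (h b ξ).add (h' b ξ)

/-- PROOF: `‖F_n F'_n ξ - x x' ξ‖ ≤ C ‖F'_n ξ - x' ξ‖ + ‖F_n (x' ξ) - x (x' ξ)‖`. -/
theorem SLim.mul {F F' : ℕ → FamG G J B} {x x' : FamG G J B} {C : ℝ} (hC : ∀ n, ‖F n‖ ≤ C)
    (h : SLim F x) (h' : SLim F' x') : SLim (fun n => F n * F' n) (x * x') := by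
  intro b ξ
  have h1 : Tendsto (fun n => C * ‖(F' n).fn b ξ - x'.fn b ξ‖ +
      ‖(F n).fn b (x'.fn b ξ) - x.fn b (x'.fn b ξ)‖) atTop (𝓝 (C * 0 + 0)) := by
    refine Tendsto.add (Tendsto.const_mul C ?_) ?_
    · exact tendsto_iff_norm_sub_tendsto_zero.1 (h' b ξ)
    · exact tendsto_iff_norm_sub_tendsto_zero.1 (h b (x'.fn b ξ))
  rw [mul_zero, add_zero] at h1
  refine tendsto_iff_norm_sub_tendsto_zero.2 (squeeze_zero (fun n => norm_nonneg _) (fun n => ?_) h1)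
  have e1 : (F n * F' n).fn b ξ - (x * x').fn b ξ =
      (F n).fn b ((F' n).fn b ξ - x'.fn b ξ) +
        ((F n).fn b (x'.fn b ξ) - x.fn b (x'.fn b ξ)) := by
    rw [map_sub]
    show (F n).fn b ((F' n).fn b ξ) - x.fn b (x'.fn b ξ) = _
    abel
  rw [e1]
  refine (norm_add_le _ _).trans (add_le_add ?_ le_rfl)
  refine (((F n).fn b).le_opNorm _).trans ?_
  exact mul_le_mul_of_nonneg_right ((FamG.norm_apply_le (F n) b).trans (hC n)) (norm_nonneg _)

/-- PROOF: `‖x b ξ‖ ≤ C ‖ξ‖` by the limit (`le_of_tendsto`). -/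
theorem SLim.norm_le {F : ℕ → FamG G J B} {x : FamG G J B} {C : ℝ} (hC0 : 0 ≤ C)
    (hC : ∀ n, ‖F n‖ ≤ C) (h : SLim F x) : ‖x‖ ≤ C := by
  refine (FamG.norm_le_iff hC0).2 fun b => ?_
  refine ContinuousLinearMap.opNorm_le_bound _ hC0 fun ξ => ?_
  refine le_of_tendsto (h b ξ).norm (Eventually.of_forall fun n => ?_)
  refine (((F n).fn b).le_opNorm _).trans ?_
  exact mul_le_mul_of_nonneg_right ((FamG.norm_apply_le (F n) b).trans (hC n)) (norm_nonneg _)

/-- PROOF: for `b` and `ξ` the sequence `F n b ξ` is Cauchy: it is within `ε ‖ξ‖` of the convergent sequence `F' n b ξ`. Its limit is linear in `ξ` and of norm at most `C ‖ξ‖` (`LinearMap.mkContinuous`; additivity by uniqueness of limits). -/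
theorem exists_SLim {F : ℕ → FamG G J B} {C : ℝ} (hC : ∀ n, ‖F n‖ ≤ C)
    (h : ∀ ε : ℝ, 0 < ε → ∃ (F' : ℕ → FamG G J B) (x' : FamG G J B), SLim F' x' ∧
      ∀ n, ‖F n - F' n‖ ≤ ε) : ∃ x, SLim F x := by
  have hb : ∀ n b ξ, ‖(F n).fn b ξ‖ ≤ C * ‖ξ‖ := fun n b ξ =>
    (((F n).fn b).le_opNorm _).trans
      (mul_le_mul_of_nonneg_right ((FamG.norm_apply_le (F n) b).trans (hC n)) (norm_nonneg _))
  have hlim : ∀ (b : B) (ξ : HG G J), ∃ η : HG G J,
      Tendsto (fun n => (F n).fn b ξ) atTop (𝓝 η) := by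
    intro b ξ
    refine cauchySeq_tendsto_of_complete (Metric.cauchySeq_iff'.2 fun ε hε => ?_)
    obtain ⟨F', x', hF', hd⟩ := h (ε / (4 * (‖ξ‖ + 1))) (by positivity)
    have hd' : ∀ n, ‖(F n).fn b ξ - (F' n).fn b ξ‖ ≤ ε / 4 := by
      intro n
      have h1 : ‖(F n - F' n).fn b ξ‖ ≤ ε / (4 * (‖ξ‖ + 1)) * ‖ξ‖ :=
        (((F n - F' n).fn b).le_opNorm _).trans
          (mul_le_mul_of_nonneg_right ((FamG.norm_apply_le _ b).trans (hd n)) (norm_nonneg _))
      have h2 : ε / (4 * (‖ξ‖ + 1)) * ‖ξ‖ ≤ ε / 4 := by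
        have h3 : 0 ≤ ‖ξ‖ := norm_nonneg ξ
        rw [div_mul_eq_mul_div, div_le_div_iff₀ (by positivity) (by norm_num)]
        nlinarith
      exact h1.trans h2
    have hc := (hF' b ξ).cauchySeq
    obtain ⟨N, hN⟩ := Metric.cauchySeq_iff'.1 hc (ε / 4) (by positivity)
    refine ⟨N, fun n hn => ?_⟩
    have h1 := hN n hn
    rw [dist_eq_norm] at h1 ⊢
    have e1 : (F n).fn b ξ - (F N).fn b ξ = ((F n).fn b ξ - (F' n).fn b ξ) +
        ((F' n).fn b ξ - (F' N).fn b ξ) - ((F N).fn b ξ - (F' N).fn b ξ) := by abel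
    rw [e1]
    have h2 := norm_sub_le (((F n).fn b ξ - (F' n).fn b ξ) +
        ((F' n).fn b ξ - (F' N).fn b ξ)) ((F N).fn b ξ - (F' N).fn b ξ)
    have h3 := norm_add_le ((F n).fn b ξ - (F' n).fn b ξ) ((F' n).fn b ξ - (F' N).fn b ξ)
    have h4 := hd' n
    have h5 := hd' N
    linarith
  choose x hx using hlim
  have hC0 : ∀ b, ∀ ξ, ‖x b ξ‖ ≤ C * ‖ξ‖ := fun b ξ =>
    le_of_tendsto (hx b ξ).norm (Eventually.of_forall fun n => hb n b ξ)
  have hadd : ∀ b ξ η, x b (ξ + η) = x b ξ + x b η := by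
    intro b ξ η
    refine tendsto_nhds_unique (hx b (ξ + η)) ?_
    have h1 := (hx b ξ).add (hx b η)
    refine h1.congr fun n => ?_
    rw [map_add]
  have hsmul : ∀ b (c : ℂ) ξ, x b (c • ξ) = c • x b ξ := by
    intro b c ξ
    refine tendsto_nhds_unique (hx b (c • ξ)) ?_
    have h1 := (hx b ξ).const_smul c
    refine h1.congr fun n => ?_
    rw [map_smul]
  let T : B → (HG G J →L[ℂ] HG G J) := fun b =>
    LinearMap.mkContinuous
      { toFun := x b
        map_add' := hadd b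
        map_smul' := fun c ξ => hsmul b c ξ } C (hC0 b)
  have hCn : 0 ≤ C := (norm_nonneg (F 0)).trans (hC 0)
  refine ⟨FamG.mk T C fun b => LinearMap.mkContinuous_norm_le _ hCn _, fun b ξ => ?_⟩
  exact hx b ξ

end Pool.Agent.Lib.MP_aa9b81_an.Cb
end
end

section

/-!
# Continuous Bernoulli, part Lkb: comparison with the elementary description of the crossed product
-/

open scoped ENNReal Topology Pointwise CompactlySupported
open Function Filter MeasureTheory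

noncomputable section

set_option linter.unusedSectionVars false

namespace Pool.Agent.Lib.MP_aa9b81_an.Cb

open Cut Hs

variable {G B : Type} [Group G] [TopologicalSpace G] [IsTopologicalGroup G]
  [LocallyCompactSpace G] [SecondCountableTopology G] [T2Space G] [MeasurableSpace G] [BorelSpace G]
  [TopologicalSpace B] [T2Space B] [MulAction G B] [ContinuousSMul G B]

/-- The generators in coordinates. PROOF: `gen_apply`, `opF`, `opk_ae` (`FOK_smul`, `exists_bound`, `FOK.kok`): for almost every `s` the value is `∫ t, (φ (s⁻¹ • b, s⁻¹ * t) • Eu i j) (ξ t)`; the coordinate `k`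
is a continuous linear functional (`lp.evalCLM`), so it can be exchanged with the integral (`ContinuousLinearMap.integral_comp_comm`, `KOK.integrable`), and `(Eu i j v) k = if k = i then v j else 0` (`Eu_apply`). -/
theorem gen_ae (φ : C_c(B × G, ℂ)) (i j : ℕ) (b : B) (ξ : HG G ℕ) :
    ∀ᵐ s ∂(mu G), ∀ k : ℕ, (((gen φ i j : FamG G ℕ B) b ξ : G → L2 ℕ) s : ℕ → ℂ) k =
      if k = i then ∫ t, φ (s⁻¹ • b, s⁻¹ * t) * ((ξ : G → L2 ℕ) t : ℕ → ℂ) j ∂mu G else 0 := by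
  obtain ⟨C, M, hC, hM, h, hs⟩ := exists_bound φ
  have hc : Continuous fun p => φ p := φ.continuous
  have hk : KOK C M (kat (fun b g => φ (b, g) • (Eu i j : BL ℕ)) b) :=
    (FOK_smul hc hC hM h hs i j).kok b
  rw [gen_apply]
  filter_upwards [opk_ae hk ξ] with s hs' k
  have h1 : ((opF (fun b g => φ (b, g) • (Eu i j : BL ℕ)) b ξ : G → L2 ℕ) s) =
      ∫ t, kat (fun b g => φ (b, g) • (Eu i j : BL ℕ)) b s t (ξ t) ∂mu G := hs'
  rw [h1]
  have h2 := ContinuousLinearMap.integral_comp_comm (lp.evalCLM ℂ (fun _ : ℕ => ℂ) 2 k)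
    (hk.integrable ξ s)
  have h3 : ((∫ t, kat (fun b g => φ (b, g) • (Eu i j : BL ℕ)) b s t (ξ t) ∂mu G : L2 ℕ) : ℕ → ℂ) k =
      lp.evalCLM ℂ (fun _ : ℕ => ℂ) 2 k
        (∫ t, kat (fun b g => φ (b, g) • (Eu i j : BL ℕ)) b s t (ξ t) ∂mu G) := rfl
  rw [h3, ← h2]
  have h4 : ∀ t, lp.evalCLM ℂ (fun _ : ℕ => ℂ) 2 k
      (kat (fun b g => φ (b, g) • (Eu i j : BL ℕ)) b s t (ξ t)) =
      if k = i then φ (s⁻¹ • b, s⁻¹ * t) * ((ξ : G → L2 ℕ) t : ℕ → ℂ) j else 0 := by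
    intro t
    have h5 : lp.evalCLM ℂ (fun _ : ℕ => ℂ) 2 k
        (kat (fun b g => φ (b, g) • (Eu i j : BL ℕ)) b s t (ξ t)) =
        φ (s⁻¹ • b, s⁻¹ * t) * (Eu i j (ξ t) : ℕ → ℂ) k := rfl
    rw [h5, Eu_apply]
    split_ifs
    · rfl
    · rw [mul_zero]
  simp only [h4]
  split_ifs
  · rfl
  · exact integral_zero _ _

/-- PROOF: `x = ∑ m, gen (φ m) (i m) (j m)`, by induction on `n`; the operators `a b` and `x b` have the same values almost everywhere, so they are equal (`ext_ae`). -/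
theorem exists_of_finSum {a : B → LC0.Op G} (h : LC0.FinSum G a) :
    ∃ x ∈ cpG G ℕ B, ∀ b, (x : FamG G ℕ B) b = a b := by
  obtain ⟨n, φ, i, j, h⟩ := h
  have key : ∀ (n : ℕ) (φ : Fin n → C_c(B × G, ℂ)) (i j : Fin n → ℕ),
      ∃ x ∈ cpG G ℕ B, ∀ (b : B) (ξ : HG G ℕ), ∀ᵐ s ∂(mu G), ∀ k : ℕ,
        ((x b ξ : G → L2 ℕ) s : ℕ → ℂ) k = ∑ m, if k = i m then
          ∫ t, φ m (s⁻¹ • b, s⁻¹ * t) * ((ξ : G → L2 ℕ) t : ℕ → ℂ) (j m) ∂mu G else 0 := by
    intro n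
    induction n with
    | zero =>
      intro φ i j
      refine ⟨0, zero_mem _, fun b ξ => ?_⟩
      have h1 : ((0 : FamG G ℕ B) b ξ : G → L2 ℕ) =ᵐ[mu G] 0 := Lp.coeFn_zero _ _ _
      filter_upwards [h1] with s hs k
      rw [hs, Fin.sum_univ_zero]
      rfl
    | succ n ih =>
      intro φ i j
      obtain ⟨x, hx, hx'⟩ := ih (fun m => φ m.succ) (fun m => i m.succ) fun m => j m.succ
      refine ⟨gen (φ 0) (i 0) (j 0) + x, add_mem (gen_mem _ _ _) hx, fun b ξ => ?_⟩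
      have h1 : (((gen (φ 0) (i 0) (j 0) + x : FamG G ℕ B) b ξ : HG G ℕ) : G → L2 ℕ) =ᵐ[mu G]
          fun s => ((gen (φ 0) (i 0) (j 0) : FamG G ℕ B) b ξ : G → L2 ℕ) s + (x b ξ : G → L2 ℕ) s :=
        Lp.coeFn_add _ _
      filter_upwards [h1, hx' b ξ, gen_ae (φ 0) (i 0) (j 0) b ξ] with s h2 h3 h4 k
      rw [h2, Fin.sum_univ_succ, ← h3 k, ← h4 k]
      rfl
  obtain ⟨x, hx, hx'⟩ := key n φ i j
  refine ⟨x, hx, fun b => ext_ae fun ξ => ?_⟩
  filter_upwards [hx' b ξ, h b ξ] with s h1 h2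
  ext k
  rw [h1 k]
  exact (h2 k).symm

/-- PROOF: `gen_ae`, `n = 1`. -/
theorem finSum_gen (φ : C_c(B × G, ℂ)) (i j : ℕ) :
    LC0.FinSum G (fun b => (gen φ i j : FamG G ℕ B) b) := by
  refine ⟨1, fun _ => φ, fun _ => i, fun _ => j, fun b ξ => ?_⟩
  filter_upwards [gen_ae φ i j b ξ] with s hs k
  rw [Fin.sum_univ_one]
  exact hs k

theorem finSum_zero : LC0.FinSum G (fun b => (0 : FamG G ℕ B) b) := by
  refine ⟨0, Fin.elim0, Fin.elim0, Fin.elim0, fun b ξ => ?_⟩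
  have h1 : ((0 : FamG G ℕ B) b ξ : G → L2 ℕ) =ᵐ[mu G] 0 := Lp.coeFn_zero _ _ _
  filter_upwards [h1] with s hs k
  rw [Fin.sum_univ_zero, hs]
  rfl

/-- PROOF: `Fin.append`, `Fin.sum_univ_add`. -/
theorem finSum_add {a b : B → LC0.Op G} (ha : LC0.FinSum G a) (hb : LC0.FinSum G b) :
    LC0.FinSum G (fun y => a y + b y) := by
  obtain ⟨n, φ, i, j, h⟩ := ha
  obtain ⟨n', φ', i', j', h'⟩ := hb
  refine ⟨n + n', Fin.append φ φ', Fin.append i i', Fin.append j j', fun y ξ => ?_⟩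
  have h1 : (((a y + b y) ξ : HG G ℕ) : G → L2 ℕ) =ᵐ[mu G]
      fun s => (a y ξ : G → L2 ℕ) s + (b y ξ : G → L2 ℕ) s := Lp.coeFn_add _ _
  filter_upwards [h1, h y ξ, h' y ξ] with s h2 h3 h4 k
  rw [h2, Fin.sum_univ_add]
  simp only [Fin.append_left, Fin.append_right]
  rw [← h3 k, ← h4 k]
  rfl

/-- PROOF: `→`: `cpG_induction` for the property `InA`, which is closed, additive and holds for the generators. `←`: `exists_of_finSum`, `isClosed_cpG`. -/
theorem mem_cpG_iff {x : FamG G ℕ B} : x ∈ cpG G ℕ B ↔ LC0.InA G (fun b => x b) := by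
  constructor
  · refine cpG_induction (p := fun x : FamG G ℕ B => LC0.InA G (fun b => x b)) ?_ ?_ ?_ ?_ x
    · rw [← isSeqClosed_iff_isClosed]
      intro u x hu hx ε hε
      obtain ⟨n, hn⟩ := ((Metric.tendsto_atTop.1 hx) (ε / 2) (half_pos hε))
      obtain ⟨b, hb, hb'⟩ := hu n (ε / 2) (half_pos hε)
      refine ⟨b, hb, fun y => ?_⟩
      have h1 := hn n le_rfl
      rw [dist_eq_norm] at h1
      have h2 := FamG.norm_apply_le (u n - x) y
      rw [FamG.sub_apply] at h2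
      calc ‖x y - b y‖ = ‖(u n y - b y) - (u n y - x y)‖ := by congr 1; abel
        _ ≤ ‖u n y - b y‖ + ‖u n y - x y‖ := norm_sub_le _ _
        _ ≤ ε / 2 + ε / 2 := add_le_add (hb' y) (h2.trans h1.le)
        _ = ε := add_halves ε
    · intro ε hε
      refine ⟨_, finSum_zero, fun y => ?_⟩
      rw [sub_self, norm_zero]
      exact hε.le
    · intro x y hx hy ε hε
      obtain ⟨b, hb, hb'⟩ := hx (ε / 2) (half_pos hε)
      obtain ⟨c, hc, hc'⟩ := hy (ε / 2) (half_pos hε)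
      refine ⟨_, finSum_add hb hc, fun z => ?_⟩
      change ‖(x + y) z - (b z + c z)‖ ≤ ε
      rw [FamG.add_apply]
      calc ‖x z + y z - (b z + c z)‖ = ‖(x z - b z) + (y z - c z)‖ := by congr 1; abel
        _ ≤ ‖x z - b z‖ + ‖y z - c z‖ := norm_add_le _ _
        _ ≤ ε / 2 + ε / 2 := add_le_add (hb' z) (hc' z)
        _ = ε := add_halves ε
    · intro φ i j ε hε
      refine ⟨_, finSum_gen φ i j, fun y => ?_⟩
      rw [sub_self, norm_zero]
      exact hε.le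
  · intro h
    have h1 : x ∈ closure (cpG G ℕ B : Set (FamG G ℕ B)) := by
      rw [Metric.mem_closure_iff]
      intro ε hε
      obtain ⟨b, hb, hn⟩ := h (ε / 2) (half_pos hε)
      obtain ⟨l, hl, hl'⟩ := exists_of_finSum hb
      refine ⟨l, hl, ?_⟩
      rw [dist_eq_norm]
      refine lt_of_le_of_lt ((FamG.norm_le_iff (half_pos hε).le).2 fun y => ?_) (half_lt_self hε)
      rw [FamG.sub_apply, hl' y]
      exact hn y
    rw [isClosed_cpG.closure_eq] at h1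
    exact h1

/-- PROOF: as `InA.exists_fam` of CutM/JB.lean. -/
theorem exists_fam_of_inA {a : B → LC0.Op G} (h : LC0.InA G a) :
    ∃ A ∈ cpG G ℕ B, ∀ y, (A : FamG G ℕ B) y = a y := by
  obtain ⟨b, hb, hn⟩ := h 1 one_pos
  obtain ⟨l, hl, hl'⟩ := exists_of_finSum hb
  have h1 : ∀ y, ‖a y‖ ≤ 1 + ‖(l : FamG G ℕ B)‖ := by
    intro y
    have h2 : ‖a y - (l : FamG G ℕ B) y‖ ≤ 1 := by
      rw [hl' y]
      exact hn y
    have h3 := FamG.norm_apply_le (l : FamG G ℕ B) y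
    calc ‖a y‖ = ‖(a y - (l : FamG G ℕ B) y) + (l : FamG G ℕ B) y‖ := by rw [sub_add_cancel]
      _ ≤ ‖a y - (l : FamG G ℕ B) y‖ + ‖(l : FamG G ℕ B) y‖ := norm_add_le _ _
      _ ≤ 1 + ‖(l : FamG G ℕ B)‖ := add_le_add h2 h3
  refine ⟨FamG.mk a _ h1, mem_cpG_iff.2 h, fun y => rfl⟩

end Pool.Agent.Lib.MP_aa9b81_an.Cb
end
end
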