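import Pool.Agent.Lib.MP_aa9b81_an.Mg.G061
import Pool.Agent.Lib.MP_aa9b81_an.Mg.G060

section

/-!
# Continuous Bernoulli, part Lc: linearity and multiplication of kernel operators by functions
-/

open scoped ENNReal Topology Pointwise
open Function Filter MeasureTheory

noncomputable section

set_option linter.unusedSectionVars false

namespace Pool.Agent.Lib.MP_aa9b81_an.Cb

open Cut Hs

section

variable {G J J' J'' : Type} [Group G] [TopologicalSpace G]

theorem KOK.zero : KOK (∅ : Set G) 0 fun _ _ => (0 : L2 J →L[ℂ] L2 J') :=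
  ⟨isCompact_empty, le_rfl, fun _ => continuous_const, fun _ _ => by simp, fun _ _ _ => rfl⟩

/-- PROOF: `C ∪ C'`, `M + M'`. -/
theorem KOK.add {C C' : Set G} {M M' : ℝ} {k k' : G → G → (L2 J →L[ℂ] L2 J')} (h : KOK C M k)
    (h' : KOK C' M' k') : KOK (C ∪ C') (M + M') fun a b => k a b + k' a b := by
  refine ⟨h.cpt.union h'.cpt, add_nonneg h.nonneg h'.nonneg, fun v => (h.cont v).add (h'.cont v),
    fun a b => (norm_add_le _ _).trans (add_le_add (h.bdd a b) (h'.bdd a b)), fun a b hab => ?_⟩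
  rw [Set.mem_union, not_or] at hab
  rw [h.supp a b hab.1, h'.supp a b hab.2, add_zero]

theorem KOK.sub {C C' : Set G} {M M' : ℝ} {k k' : G → G → (L2 J →L[ℂ] L2 J')} (h : KOK C M k)
    (h' : KOK C' M' k') : KOK (C ∪ C') (M + M') fun a b => k a b - k' a b := by
  refine ⟨h.cpt.union h'.cpt, add_nonneg h.nonneg h'.nonneg, fun v => (h.cont v).sub (h'.cont v),
    fun a b => (norm_sub_le _ _).trans (add_le_add (h.bdd a b) (h'.bdd a b)), fun a b hab => ?_⟩
  rw [Set.mem_union, not_or] at hab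
  rw [h.supp a b hab.1, h'.supp a b hab.2, sub_zero]

theorem KOK.smul {C : Set G} {M : ℝ} {k : G → G → (L2 J →L[ℂ] L2 J')} (h : KOK C M k) (c : ℂ) :
    KOK C (‖c‖ * M) fun a b => c • k a b := by
  refine ⟨h.cpt, mul_nonneg (norm_nonneg _) h.nonneg, fun v => (h.cont v).const_smul c,
    fun a b => ?_, fun a b hab => ?_⟩
  · rw [norm_smul]
    exact mul_le_mul_of_nonneg_left (h.bdd a b) (norm_nonneg _)
  · rw [h.supp a b hab, smul_zero]

/-- Another bound, and another support. -/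
theorem KOK.mono {C C' : Set G} {M M' : ℝ} {k : G → G → (L2 J →L[ℂ] L2 J')} (h : KOK C M k)
    (hC' : IsCompact C') (hM' : 0 ≤ M') (hb : ∀ a b, ‖k a b‖ ≤ M')
    (hs : ∀ a b, a⁻¹ * b ∉ C' → k a b = 0) : KOK C' M' k :=
  ⟨hC', hM', h.cont, hb, hs⟩

/-- PROOF: `SC.apply` for `p ↦ m p.1` and `p ↦ k p.1 p.2 v`; `‖m a ∘ k a b‖ ≤ N M`. -/
theorem KOK.left {C : Set G} {M N : ℝ} {k : G → G → (L2 J →L[ℂ] L2 J')}
    {m : G → (L2 J' →L[ℂ] L2 J'')} (h : KOK C M k) (hm : SC m) (hN : 0 ≤ N)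
    (hN' : ∀ a, ‖m a‖ ≤ N) : KOK C (N * M) fun a b => (m a).comp (k a b) := by
  refine ⟨h.cpt, mul_nonneg hN h.nonneg,
    fun v => (hm.precomp continuous_fst).apply (h.cont v), fun a b => ?_, fun a b hab => ?_⟩
  · exact (ContinuousLinearMap.opNorm_comp_le _ _).trans
      (mul_le_mul (hN' a) (h.bdd a b) (norm_nonneg _) hN)
  · rw [h.supp a b hab, ContinuousLinearMap.comp_zero]

/-- PROOF: `SC.apply` for `h.sc` and `p ↦ m p.2 v`. -/
theorem KOK.right {C : Set G} {M N : ℝ} {k : G → G → (L2 J' →L[ℂ] L2 J'')}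
    {m : G → (L2 J →L[ℂ] L2 J')} (h : KOK C M k) (hm : SC m) (hN : 0 ≤ N)
    (hN' : ∀ a, ‖m a‖ ≤ N) : KOK C (M * N) fun a b => (k a b).comp (m b) := by
  refine ⟨h.cpt, mul_nonneg h.nonneg hN,
    fun v => h.sc.apply ((hm.cont v).comp continuous_snd), fun a b => ?_, fun a b hab => ?_⟩
  · exact (ContinuousLinearMap.opNorm_comp_le _ _).trans
      (mul_le_mul (h.bdd a b) (hN' b) (norm_nonneg _) h.nonneg)
  · rw [h.supp a b hab, ContinuousLinearMap.zero_comp]

/-- The data of a scalar kernel. -/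
structure SOK (C : Set G) (M : ℝ) (f : G → G → ℂ) : Prop where
  cpt : IsCompact C
  nonneg : 0 ≤ M
  cont : Continuous fun p : G × G => f p.1 p.2
  bdd : ∀ a b, ‖f a b‖ ≤ M
  supp : ∀ a b, a⁻¹ * b ∉ C → f a b = 0

theorem SOK.kok {C : Set G} {M : ℝ} {f : G → G → ℂ} (h : SOK C M f) (T : L2 J →L[ℂ] L2 J') :
    KOK C (M * ‖T‖) fun a b => f a b • T := by
  refine ⟨h.cpt, mul_nonneg h.nonneg (norm_nonneg _), fun v => h.cont.smul continuous_const,
    fun a b => ?_, fun a b hab => ?_⟩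
  · rw [norm_smul]
    exact mul_le_mul_of_nonneg_right (h.bdd a b) (norm_nonneg _)
  · rw [h.supp a b hab, zero_smul]

end

variable {G J J' J'' : Type} [Group G] [TopologicalSpace G] [IsTopologicalGroup G]
  [LocallyCompactSpace G] [SecondCountableTopology G] [T2Space G] [MeasurableSpace G] [BorelSpace G]

/-- PROOF: `ext_ae`, `opk_ae`, `integral_add` (`KOK.integrable`), `Lp.coeFn_add`. -/
theorem opk_add {C C' : Set G} {M M' : ℝ} {k k' : G → G → (L2 J →L[ℂ] L2 J')} (h : KOK C M k)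
    (h' : KOK C' M' k') : opk (fun a b => k a b + k' a b) = opk k + opk k' := by
  refine ext_ae fun ξ => ?_
  filter_upwards [opk_ae (h.add h') ξ, opk_ae h ξ, opk_ae h' ξ,
    Lp.coeFn_add (opk k ξ) (opk k' ξ)] with a h1 h2 h3 h4
  rw [h1, add_apply, h4, Pi.add_apply, h2, h3,
    ← integral_add (h.integrable ξ a) (h'.integrable ξ a)]
  rfl

theorem opk_sub {C C' : Set G} {M M' : ℝ} {k k' : G → G → (L2 J →L[ℂ] L2 J')} (h : KOK C M k)
    (h' : KOK C' M' k') : opk (fun a b => k a b - k' a b) = opk k - opk k' := by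
  refine ext_ae fun ξ => ?_
  filter_upwards [opk_ae (h.sub h') ξ, opk_ae h ξ, opk_ae h' ξ,
    Lp.coeFn_sub (opk k ξ) (opk k' ξ)] with a h1 h2 h3 h4
  rw [h1, sub_apply, h4, Pi.sub_apply, h2, h3,
    ← integral_sub (h.integrable ξ a) (h'.integrable ξ a)]
  rfl

theorem opk_smul {C : Set G} {M : ℝ} {k : G → G → (L2 J →L[ℂ] L2 J')} (h : KOK C M k) (c : ℂ) :
    opk (fun a b => c • k a b) = c • opk k := by
  refine ext_ae fun ξ => ?_
  filter_upwards [opk_ae (h.smul c) ξ, opk_ae h ξ, Lp.coeFn_smul c (opk k ξ)] with a h1 h2 h3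
  rw [h1, smul_apply, h3, Pi.smul_apply, h2, ← integral_smul]
  rfl

theorem opk_zero : opk (fun _ _ => (0 : L2 J →L[ℂ] L2 J')) = (0 : HG G J →L[ℂ] HG G J') := by
  refine ext_ae fun ξ => ?_
  filter_upwards [opk_ae (KOK.zero (G := G) (J := J) (J' := J')) ξ,
    Lp.coeFn_zero (L2 J') 2 (mu G)] with a h1 h2
  rw [h1, zero_apply, h2]
  simp

/-- PROOF: `ext_ae`; `m a (∫ b, k a b (ξ b)) = ∫ b, m a (k a b (ξ b))` (`ContinuousLinearMap.integral_comp_comm`, `KOK.integrable`). -/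
theorem Mul_comp_opk {C : Set G} {M : ℝ} {k : G → G → (L2 J →L[ℂ] L2 J')}
    {m : G → (L2 J' →L[ℂ] L2 J'')} (h : KOK C M k) (hm : SC m) :
    (Mul m).comp (opk k) = opk fun a b => (m a).comp (k a b) := by
  obtain ⟨N, hN⟩ := hm.bdd
  have hN0 : 0 ≤ N := (norm_nonneg _).trans (hN 1)
  refine ext_ae fun ξ => ?_
  filter_upwards [opk_ae (h.left hm hN0 hN) ξ, opk_ae h ξ, Mul_ae hm (opk k ξ)] with a h1 h2 h3
  rw [h1, ContinuousLinearMap.comp_apply, h3, h2,
    ← ContinuousLinearMap.integral_comp_comm (m a) (h.integrable ξ a)]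
  rfl

/-- PROOF: `ext_ae`; `k a b ((Mul m ξ) b) = k a b (m b (ξ b))` for almost all `b` (`integral_congr_ae`, `Mul_ae`). -/
theorem opk_comp_Mul {C : Set G} {M : ℝ} {k : G → G → (L2 J' →L[ℂ] L2 J'')}
    {m : G → (L2 J →L[ℂ] L2 J')} (h : KOK C M k) (hm : SC m) :
    (opk k).comp (Mul m) = opk fun a b => (k a b).comp (m b) := by
  obtain ⟨N, hN⟩ := hm.bdd
  have hN0 : 0 ≤ N := (norm_nonneg _).trans (hN 1)
  refine ext_ae fun ξ => ?_
  filter_upwards [opk_ae (h.right hm hN0 hN) ξ, opk_ae h (Mul m ξ)] with a h1 h2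
  rw [h1, ContinuousLinearMap.comp_apply, h2]
  refine integral_congr_ae ?_
  filter_upwards [Mul_ae hm ξ] with b hb
  rw [hb]
  rfl

end Pool.Agent.Lib.MP_aa9b81_an.Cb
end
end

section

/-!
# Continuous Bernoulli, part Ldb: products of kernel operators
-/

open scoped ENNReal Topology Pointwise
open Function Filter MeasureTheory

noncomputable section

set_option linter.unusedSectionVars false

namespace Pool.Agent.Lib.MP_aa9b81_an.Cb

open Cut Hs

variable {G J J' J'' : Type} [Group G] [TopologicalSpace G] [IsTopologicalGroup G]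
  [LocallyCompactSpace G] [SecondCountableTopology G] [T2Space G] [MeasurableSpace G] [BorelSpace G]

private theorem Ldb_cpt {C : Set G} (hC : IsCompact C) (a : G) : IsCompact {b | a⁻¹ * b ∈ C} := by
  have h1 : {b | a⁻¹ * b ∈ C} = (fun x => a * x) '' C := by
    ext b
    constructor
    · intro hb
      exact ⟨a⁻¹ * b, hb, by simp⟩
    · rintro ⟨x, hx, rfl⟩
      show a⁻¹ * (a * x) ∈ C
      rw [inv_mul_cancel_left]
      exact hx
  rw [h1]
  exact hC.image (continuous_const.mul continuous_id)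

private theorem Ldb_int {C C' : Set G} {M M' : ℝ} {k : G → G → (L2 J' →L[ℂ] L2 J'')}
    {k' : G → G → (L2 J →L[ℂ] L2 J')} (h : KOK C M k) (h' : KOK C' M' k') (ξ : HG G J) (a : G) :
    Integrable (uncurry fun b c => k a b (k' b c (ξ c))) ((mu G).prod (mu G)) := by
  have : TopologicalSpace.MetrizableSpace G :=
    TopologicalSpace.metrizableSpace_of_t3_secondCountable G
  have hsc : SC fun p : G × G => (k a p.1).comp (k' p.1 p.2) := by
    have h1 : SC fun p : G × G => k a p.1 :=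
      ⟨fun w => (h.cont w).comp (continuous_const.prodMk continuous_fst), M, fun p => h.bdd _ _⟩
    exact h1.comp h'.sc
  have hm : AEStronglyMeasurable (uncurry fun b c => k a b (k' b c (ξ c)))
      ((mu G).prod (mu G)) := by
    have h1 : AEStronglyMeasurable (fun p : G × G => (ξ : G → L2 J) p.2) ((mu G).prod (mu G)) :=
      (Lp.aestronglyMeasurable ξ).comp_snd
    exact hsc.aesm h1
  have hf : Integrable ({b | a⁻¹ * b ∈ C}.indicator fun _ => M * M') (mu G) := by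
    rw [integrable_indicator_iff (Ldb_cpt h.cpt a).measurableSet]
    exact integrableOn_const (Ldb_cpt h.cpt a).measure_lt_top.ne
  have hg : Integrable ({c | a⁻¹ * c ∈ C * C'}.indicator fun c => ‖(ξ : G → L2 J) c‖) (mu G) := by
    have hc := Ldb_cpt (h.cpt.mul h'.cpt) a
    rw [integrable_indicator_iff hc.measurableSet]
    exact (integrableOn_HG ξ hc).norm
  refine (hf.mul_prod hg).mono' hm (Eventually.of_forall fun p => ?_)
  obtain ⟨b, c⟩ := p
  show ‖k a b (k' b c ((ξ : G → L2 J) c))‖ ≤ {b | a⁻¹ * b ∈ C}.indicator (fun _ => M * M') b *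
    {c | a⁻¹ * c ∈ C * C'}.indicator (fun c => ‖(ξ : G → L2 J) c‖) c
  by_cases h1 : a⁻¹ * b ∈ C
  · by_cases h2 : a⁻¹ * c ∈ C * C'
    · rw [Set.indicator_of_mem (show b ∈ {b | a⁻¹ * b ∈ C} from h1),
        Set.indicator_of_mem (show c ∈ {c | a⁻¹ * c ∈ C * C'} from h2)]
      calc ‖k a b (k' b c ((ξ : G → L2 J) c))‖ ≤ ‖k a b‖ * ‖k' b c ((ξ : G → L2 J) c)‖ :=
            (k a b).le_opNorm _
        _ ≤ M * (M' * ‖(ξ : G → L2 J) c‖) := by
          refine mul_le_mul (h.bdd a b) (((k' b c).le_opNorm _).trans ?_) (norm_nonneg _) h.nonneg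
          exact mul_le_mul_of_nonneg_right (h'.bdd b c) (norm_nonneg _)
        _ = _ := by ring
    · have h3 : b⁻¹ * c ∉ C' := by
        intro h3
        refine h2 ⟨a⁻¹ * b, h1, b⁻¹ * c, h3, ?_⟩
        simp [mul_assoc]
      rw [h'.supp b c h3, Set.indicator_of_notMem (show c ∉ {c | a⁻¹ * c ∈ C * C'} from h2)]
      simp
  · rw [h.supp a b h1, Set.indicator_of_notMem (show b ∉ {b | a⁻¹ * b ∈ C} from h1)]
    simp

/-- PROOF: `ext_ae`. For almost every `a` (`opk_ae`) the left side is `∫ b, k a b (∫ c, k' b c (ξ c))` (the inner operator is given by its formula for almost all `b`: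
`integral_congr_ae`), which is `∫ b, ∫ c, k a b (k' b c (ξ c))` (`ContinuousLinearMap.integral_comp_comm`, `KOK.integrable`); exchange the integrals
(`integral_integral_swap`: the integrand is a.e. strongly measurable on `G × G` (`SC.aesm`) and its norm is at most `M M' [a⁻¹ b ∈ C] [a⁻¹ c ∈ C * C'] ‖ξ c‖`, a product of an
integrable function of `b` and an integrable function of `c`: `Integrable.mul_prod`, `integrableOn_HG`, `Integrable.mono'`), and `∫ b, k a b (k' b c (ξ c)) = kc k k' a c (ξ c)` (`kc_apply`). -/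
theorem opk_comp_opk {C C' : Set G} {M M' : ℝ} {k : G → G → (L2 J' →L[ℂ] L2 J'')}
    {k' : G → G → (L2 J →L[ℂ] L2 J')} (h : KOK C M k) (h' : KOK C' M' k') :
    (opk k).comp (opk k') = opk (kc k k') := by
  refine ext_ae fun ξ => ?_
  have e1 := opk_ae h (opk k' ξ)
  have e2 := opk_ae (h.kc h') ξ
  have e3 := opk_ae h' ξ
  filter_upwards [e1, e2] with a h1 h2
  rw [ContinuousLinearMap.comp_apply, h1, h2]
  have h3 : ∫ b, k a b ((opk k' ξ : HG G J') b) ∂mu G =
      ∫ b, ∫ c, k a b (k' b c ((ξ : G → L2 J) c)) ∂mu G ∂mu G := by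
    refine integral_congr_ae ?_
    filter_upwards [e3] with b hb
    rw [hb]
    exact ((k a b).integral_comp_comm (h'.integrable ξ b)).symm
  rw [h3, integral_integral_swap (Ldb_int h h' ξ a)]
  refine integral_congr_ae (Eventually.of_forall fun c => ?_)
  exact (kc_apply h h' a c _).symm

/-- The product of scalar kernels. PROOF: `kc_apply`: `∫ b, f a b • T (f' b c • T' v) = (∫ b, f a b * f' b c) • T (T' v)`
(`integral_smul_const`). -/
theorem kc_smul {C C' : Set G} {M M' : ℝ} {f f' : G → G → ℂ} (h : SOK C M f) (h' : SOK C' M' f')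
    (T : L2 J' →L[ℂ] L2 J'') (T' : L2 J →L[ℂ] L2 J') :
    kc (fun a b => f a b • T) (fun a b => f' a b • T') =
      fun a c => (∫ b, f a b * f' b c ∂mu G) • T.comp T' := by
  funext a c
  refine ContinuousLinearMap.ext fun v => ?_
  rw [kc_apply (h.kok T) (h'.kok T') a c v]
  have h1 : ∀ b, (f a b • T) ((f' b c • T') v) = (f a b * f' b c) • T (T' v) := by
    intro b
    show f a b • T (f' b c • T' v) = _
    rw [map_smul, smul_smul]
  simp only [h1]
  exact integral_smul_const _ _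

/-- The product of scalar kernels is a scalar kernel. PROOF: as `exists_kc` (`continuous_integral`). -/
theorem SOK.mul {C C' : Set G} {M M' : ℝ} {f f' : G → G → ℂ} (h : SOK C M f) (h' : SOK C' M' f') :
    SOK (C * C') ((mu G).real C * (M * M')) fun a c => ∫ b, f a b * f' b c ∂mu G := by
  refine ⟨h.cpt.mul h'.cpt, mul_nonneg measureReal_nonneg (mul_nonneg h.nonneg h'.nonneg), ?_,
    fun a c => ?_, fun a c hac => ?_⟩
  · refine continuous_integral (f := fun (p : G × G) b => f p.1 b * f' b p.2) ?_ fun z₀ => ?_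
    · exact (h.cont.comp ((continuous_fst.comp continuous_fst).prodMk continuous_snd)).mul
        (h'.cont.comp (continuous_snd.prodMk (continuous_snd.comp continuous_fst)))
    · obtain ⟨N, hN, hNz⟩ := exists_compact_mem_nhds z₀.1
      refine ⟨N * C, hN.mul h.cpt, ?_⟩
      have h1 : ∀ᶠ z : G × G in 𝓝 z₀, z.1 ∈ N := continuousAt_fst.eventually hNz
      filter_upwards [h1] with z hz b hb
      have h2 : z.1⁻¹ * b ∉ C := by
        intro h3
        refine hb ⟨z.1, hz, z.1⁻¹ * b, h3, ?_⟩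
        simp
      rw [h.supp z.1 b h2, zero_mul]
  · have h1 : ∫ b, f a b * f' b c ∂mu G = ∫ b in {b | a⁻¹ * b ∈ C}, f a b * f' b c ∂mu G := by
      refine (setIntegral_eq_integral_of_forall_compl_eq_zero fun b hb => ?_).symm
      rw [h.supp a b hb, zero_mul]
    have h2 : ∀ b ∈ {b | a⁻¹ * b ∈ C}, ‖f a b * f' b c‖ ≤ M * M' := by
      intro b _
      rw [norm_mul]
      exact mul_le_mul (h.bdd a b) (h'.bdd b c) (norm_nonneg _) h.nonneg
    rw [h1]
    have h3 := norm_setIntegral_le_of_norm_le_const (μ := mu G) (Ldb_cpt h.cpt a).measure_lt_top h2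
    have h4 : (mu G).real {b | a⁻¹ * b ∈ C} = (mu G).real C := by
      have h5 : mu G {b | a⁻¹ * b ∈ C} = mu G C := measure_preimage_mul (mu G) a⁻¹ C
      rw [Measure.real, Measure.real, h5]
    rw [h4] at h3
    calc _ ≤ _ := h3
      _ = _ := by ring
  · refine (integral_congr_ae (Eventually.of_forall fun b => ?_)).trans (integral_zero _ _)
    show f a b * f' b c = 0
    by_cases h1 : a⁻¹ * b ∈ C
    · have h2 : b⁻¹ * c ∉ C' := by
        intro h3
        refine hac ⟨a⁻¹ * b, h1, b⁻¹ * c, h3, ?_⟩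
        simp [mul_assoc]
      rw [h'.supp b c h2, mul_zero]
    · rw [h.supp a b h1, zero_mul]

end Pool.Agent.Lib.MP_aa9b81_an.Cb
end
end

section

/-!
# Continuous Bernoulli, part Lf: bounded families of operators, equivariant kernels
-/

open scoped ENNReal Topology Pointwise
open Function Filter MeasureTheory

noncomputable section

set_option linter.unusedSectionVars false

namespace Pool.Agent.Lib.MP_aa9b81_an.Cb

open Cut Hs

/-- The Banach algebra of bounded families of operators on `L²(G, ℓ²(J))`, indexed by `B`. -/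
def FamG (G J B : Type) [Group G] [TopologicalSpace G] [IsTopologicalGroup G]
    [LocallyCompactSpace G] [MeasurableSpace G] [BorelSpace G] : Type :=
  lp (fun _ : B => HG G J →L[ℂ] HG G J) ∞

section FamG

variable (G J B : Type) [Group G] [TopologicalSpace G] [IsTopologicalGroup G]
  [LocallyCompactSpace G] [SecondCountableTopology G] [T2Space G] [MeasurableSpace G] [BorelSpace G]
  [Nonempty J]

instance : NormedRing (FamG G J B) :=
  inferInstanceAs (NormedRing (lp (fun _ : B => HG G J →L[ℂ] HG G J) ∞))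

instance : NormedAlgebra ℂ (FamG G J B) :=
  inferInstanceAs (NormedAlgebra ℂ (lp (fun _ : B => HG G J →L[ℂ] HG G J) ∞))

instance : CompleteSpace (FamG G J B) :=
  inferInstanceAs (CompleteSpace (lp (fun _ : B => HG G J →L[ℂ] HG G J) ∞))

variable {G J B}

omit [Nonempty J] [SecondCountableTopology G] [T2Space G] in
/-- The family of operators underlying an element of `FamG G J B`. -/
def FamG.fn (a : FamG G J B) : B → (HG G J →L[ℂ] HG G J) :=
  (Subtype.val (p := fun f : ∀ _ : B, HG G J →L[ℂ] HG G J => Memℓp f ∞) a :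
    ∀ _ : B, HG G J →L[ℂ] HG G J)

instance : CoeFun (FamG G J B) (fun _ => B → (HG G J →L[ℂ] HG G J)) := ⟨FamG.fn⟩

namespace FamG

omit [Nonempty J] [SecondCountableTopology G] [T2Space G] in
/-- The bounded family given by a function. -/
def mk (a : B → (HG G J →L[ℂ] HG G J)) (C : ℝ) (h : ∀ y, ‖a y‖ ≤ C) : FamG G J B :=
  ⟨a, memℓp_infty ⟨C, by rintro _ ⟨y, rfl⟩; exact h y⟩⟩

omit [Nonempty J] [SecondCountableTopology G] [T2Space G] in
@[simp] lemma mk_apply (a : B → (HG G J →L[ℂ] HG G J)) (C : ℝ) (h : ∀ y, ‖a y‖ ≤ C) (y : B) :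
    (mk a C h) y = a y := rfl

omit [Nonempty J] [SecondCountableTopology G] [T2Space G] in
@[ext] lemma ext {a b : FamG G J B} (h : ∀ y, a y = b y) : a = b :=
  Subtype.ext (funext h)

@[simp] lemma add_apply (a b : FamG G J B) (y : B) : (a + b) y = a y + b y := rfl

@[simp] lemma sub_apply (a b : FamG G J B) (y : B) : (a - b) y = a y - b y := rfl

@[simp] lemma neg_apply (a : FamG G J B) (y : B) : (-a) y = -a y := rfl

@[simp] lemma mul_apply (a b : FamG G J B) (y : B) : (a * b) y = a y * b y := rfl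

@[simp] lemma zero_apply (y : B) : (0 : FamG G J B) y = 0 := rfl

@[simp] lemma one_apply (y : B) : (1 : FamG G J B) y = 1 := rfl

@[simp] lemma smul_apply (c : ℂ) (a : FamG G J B) (y : B) : (c • a) y = c • a y := rfl

lemma norm_apply_le (a : FamG G J B) (y : B) : ‖a y‖ ≤ ‖a‖ :=
  lp.norm_apply_le_norm (E := fun _ : B => HG G J →L[ℂ] HG G J) (by simp) a y

lemma norm_le_iff {a : FamG G J B} {C : ℝ} (hC : 0 ≤ C) : ‖a‖ ≤ C ↔ ∀ y, ‖a y‖ ≤ C :=
  ⟨fun h y => (norm_apply_le a y).trans h, fun h =>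
    lp.norm_le_of_forall_le (E := fun _ : B => HG G J →L[ℂ] HG G J) hC h⟩

end FamG

omit [Nonempty J] [SecondCountableTopology G] [T2Space G] in
open Classical in
/-- The bounded family given by a bounded function (and `0` for other functions). -/
def fam (x : B → (HG G J →L[ℂ] HG G J)) : FamG G J B :=
  if h : ∃ C : ℝ, ∀ b, ‖x b‖ ≤ C then FamG.mk x h.choose h.choose_spec
  else FamG.mk (fun _ => 0) 0 fun _ => by simp

omit [Nonempty J] [SecondCountableTopology G] [T2Space G] in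
lemma fam_apply {x : B → (HG G J →L[ℂ] HG G J)} {C : ℝ} (h : ∀ b, ‖x b‖ ≤ C) (b : B) :
    fam x b = x b := by
  have h' : ∃ C : ℝ, ∀ b, ‖x b‖ ≤ C := ⟨C, h⟩
  rw [fam, dif_pos h', FamG.mk_apply]

lemma norm_fam_le {x : B → (HG G J →L[ℂ] HG G J)} {C : ℝ} (hC : 0 ≤ C) (h : ∀ b, ‖x b‖ ≤ C) :
    ‖fam x‖ ≤ C :=
  (FamG.norm_le_iff hC).2 fun b => by
    rw [fam_apply h]
    exact h b

end FamG

/-! ### Equivariant kernels -/

/-- The data of an equivariant kernel: jointly strongly continuous on `B × G`, bounded by `M`, supported in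
`g ∈ C`, `C` compact. -/
structure FOK {G J J' B : Type} [Group G] [TopologicalSpace G] [TopologicalSpace B] (C : Set G)
    (M : ℝ) (κ : B → G → (L2 J →L[ℂ] L2 J')) : Prop where
  cpt : IsCompact C
  nonneg : 0 ≤ M
  cont : ∀ v, Continuous fun p : B × G => κ p.1 p.2 v
  bdd : ∀ b g, ‖κ b g‖ ≤ M
  supp : ∀ b, ∀ g ∉ C, κ b g = 0

section

variable {G J J' J'' B : Type} [Group G] [TopologicalSpace G] [TopologicalSpace B] [MulAction G B]

/-- The kernel at `b`. -/
def kat (κ : B → G → (L2 J →L[ℂ] L2 J')) (b : B) : G → G → (L2 J →L[ℂ] L2 J') :=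
  fun a a' => κ (a⁻¹ • b) (a⁻¹ * a')

omit [MulAction G B] in
theorem FOK.sc {C : Set G} {M : ℝ} {κ : B → G → (L2 J →L[ℂ] L2 J')} (h : FOK C M κ) :
    SC fun p : B × G => κ p.1 p.2 :=
  ⟨h.cont, M, fun p => h.bdd p.1 p.2⟩

variable [IsTopologicalGroup G] [ContinuousSMul G B]

/-- PROOF: `(a, a') ↦ (a⁻¹ • b, a⁻¹ * a')` is continuous. -/
theorem FOK.kok {C : Set G} {M : ℝ} {κ : B → G → (L2 J →L[ℂ] L2 J')} (h : FOK C M κ) (b : B) :
    KOK C M (kat κ b) := by
  refine ⟨h.cpt, h.nonneg, fun v => ?_, fun a a' => h.bdd _ _, fun a a' hn => h.supp _ _ hn⟩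
  have h1 : Continuous fun p : G × G => ((p.1⁻¹ • b, p.1⁻¹ * p.2) : B × G) := by fun_prop
  exact (h.cont v).comp h1

/-- PROOF: `(b, g) ↦ κ b g`, as `KOK.add`. -/
theorem FOK.add {C C' : Set G} {M M' : ℝ} {κ κ' : B → G → (L2 J →L[ℂ] L2 J')} (h : FOK C M κ)
    (h' : FOK C' M' κ') : FOK (C ∪ C') (M + M') fun b g => κ b g + κ' b g := by
  refine ⟨h.cpt.union h'.cpt, add_nonneg h.nonneg h'.nonneg, fun v => (h.cont v).add (h'.cont v),
    fun b g => (norm_add_le _ _).trans (add_le_add (h.bdd b g) (h'.bdd b g)), fun b g hg => ?_⟩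
  rw [h.supp b g fun hC => hg (Or.inl hC), h'.supp b g fun hC => hg (Or.inr hC), add_zero]

theorem FOK.sub {C C' : Set G} {M M' : ℝ} {κ κ' : B → G → (L2 J →L[ℂ] L2 J')} (h : FOK C M κ)
    (h' : FOK C' M' κ') : FOK (C ∪ C') (M + M') fun b g => κ b g - κ' b g := by
  refine ⟨h.cpt.union h'.cpt, add_nonneg h.nonneg h'.nonneg, fun v => (h.cont v).sub (h'.cont v),
    fun b g => (norm_sub_le _ _).trans (add_le_add (h.bdd b g) (h'.bdd b g)), fun b g hg => ?_⟩
  rw [h.supp b g fun hC => hg (Or.inl hC), h'.supp b g fun hC => hg (Or.inr hC), sub_zero]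

theorem FOK.smul {C : Set G} {M : ℝ} {κ : B → G → (L2 J →L[ℂ] L2 J')} (h : FOK C M κ) (c : ℂ) :
    FOK C (‖c‖ * M) fun b g => c • κ b g := by
  refine ⟨h.cpt, mul_nonneg (norm_nonneg _) h.nonneg, fun v => (h.cont v).const_smul c,
    fun b g => ?_, fun b g hg => ?_⟩
  · rw [norm_smul]
    exact mul_le_mul_of_nonneg_left (h.bdd b g) (norm_nonneg _)
  · rw [h.supp b g hg, smul_zero]

theorem FOK.left {C : Set G} {M N : ℝ} {κ : B → G → (L2 J →L[ℂ] L2 J')}
    {τ : B → (L2 J' →L[ℂ] L2 J'')} (h : FOK C M κ) (hτ : SC τ) (hN : 0 ≤ N)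
    (hN' : ∀ b, ‖τ b‖ ≤ N) : FOK C (N * M) fun b g => (τ b).comp (κ b g) := by
  refine ⟨h.cpt, mul_nonneg hN h.nonneg, fun v => ?_, fun b g => ?_, fun b g hg => ?_⟩
  · have h1 : SC fun p : B × G => τ p.1 := hτ.precomp continuous_fst
    exact h1.apply (h.cont v)
  · exact (ContinuousLinearMap.opNorm_comp_le _ _).trans
      (mul_le_mul (hN' b) (h.bdd b g) (norm_nonneg _) hN)
  · rw [h.supp b g hg, ContinuousLinearMap.comp_zero]

theorem FOK.right {C : Set G} {M N : ℝ} {κ : B → G → (L2 J' →L[ℂ] L2 J'')}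
    {τ : B → (L2 J →L[ℂ] L2 J')} (h : FOK C M κ) (hτ : SC τ) (hN : 0 ≤ N)
    (hN' : ∀ b, ‖τ b‖ ≤ N) : FOK C (M * N) fun b g => (κ b g).comp (τ (g⁻¹ • b)) := by
  refine ⟨h.cpt, mul_nonneg h.nonneg hN, fun v => ?_, fun b g => ?_, fun b g hg => ?_⟩
  · have h1 : Continuous fun p : B × G => p.2⁻¹ • p.1 := by fun_prop
    exact h.sc.apply ((hτ.cont v).comp h1)
  · exact (ContinuousLinearMap.opNorm_comp_le _ _).trans
      (mul_le_mul (h.bdd b g) (hN' _) (norm_nonneg _) h.nonneg)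
  · rw [h.supp b g hg, ContinuousLinearMap.zero_comp]

/-- PROOF: composition with the continuous map `a ↦ a⁻¹ • b`. -/
theorem SC.orbit {τ : B → (L2 J →L[ℂ] L2 J')} (h : SC τ) (b : B) :
    SC fun a : G => τ (a⁻¹ • b) := by
  have h1 : Continuous fun a : G => a⁻¹ • b := by fun_prop
  exact h.precomp h1

end

variable {G J J' J'' B : Type} [Group G] [TopologicalSpace G] [IsTopologicalGroup G]
  [LocallyCompactSpace G] [SecondCountableTopology G] [T2Space G] [MeasurableSpace G] [BorelSpace G]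
  [TopologicalSpace B] [MulAction G B] [ContinuousSMul G B]

/-- The family of operators of an equivariant kernel. -/
def opF (κ : B → G → (L2 J →L[ℂ] L2 J')) (b : B) : HG G J →L[ℂ] HG G J' := opk (kat κ b)

/-- The family of multiplication operators of an equivariant function. -/
def MulF (τ : B → (L2 J →L[ℂ] L2 J')) (b : B) : HG G J →L[ℂ] HG G J' :=
  Mul fun a : G => τ (a⁻¹ • b)

theorem norm_opF_le {C : Set G} {M : ℝ} {κ : B → G → (L2 J →L[ℂ] L2 J')} (h : FOK C M κ) (b : B) :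
    ‖opF κ b‖ ≤ M * cs C := norm_opk_le (h.kok b)

/-- PROOF: `norm_Mul_le`, `SC.orbit`. -/
theorem norm_MulF_le {τ : B → (L2 J →L[ℂ] L2 J')} (h : SC τ) {N : ℝ} (hN : ∀ b, ‖τ b‖ ≤ N)
    (b : B) : ‖(MulF τ b : HG G J →L[ℂ] HG G J')‖ ≤ N :=
  norm_Mul_le (h.orbit b) fun _ => hN _

/-- PROOF: `opk_add`. -/
theorem opF_add {C C' : Set G} {M M' : ℝ} {κ κ' : B → G → (L2 J →L[ℂ] L2 J')} (h : FOK C M κ)
    (h' : FOK C' M' κ') (b : B) : opF (fun b g => κ b g + κ' b g) b = opF κ b + opF κ' b :=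
  opk_add (h.kok b) (h'.kok b)

theorem opF_sub {C C' : Set G} {M M' : ℝ} {κ κ' : B → G → (L2 J →L[ℂ] L2 J')} (h : FOK C M κ)
    (h' : FOK C' M' κ') (b : B) : opF (fun b g => κ b g - κ' b g) b = opF κ b - opF κ' b :=
  opk_sub (h.kok b) (h'.kok b)

theorem opF_smul {C : Set G} {M : ℝ} {κ : B → G → (L2 J →L[ℂ] L2 J')} (h : FOK C M κ) (c : ℂ)
    (b : B) : opF (fun b g => c • κ b g) b = c • opF κ b :=
  opk_smul (h.kok b) c

/-- PROOF: `Mul_comp_opk`, `SC.orbit`. -/
theorem MulF_comp_opF {C : Set G} {M : ℝ} {κ : B → G → (L2 J →L[ℂ] L2 J')}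
    {τ : B → (L2 J' →L[ℂ] L2 J'')} (h : FOK C M κ) (hτ : SC τ) (b : B) :
    (MulF τ b).comp (opF κ b) = opF (fun b g => (τ b).comp (κ b g)) b :=
  Mul_comp_opk (h.kok b) (hτ.orbit b)

/-- PROOF: `opk_comp_Mul`, `SC.orbit`; `(a⁻¹ * a')⁻¹ • a⁻¹ • b = a'⁻¹ • b`. -/
theorem opF_comp_MulF {C : Set G} {M : ℝ} {κ : B → G → (L2 J' →L[ℂ] L2 J'')}
    {τ : B → (L2 J →L[ℂ] L2 J')} (h : FOK C M κ) (hτ : SC τ) (b : B) :
    (opF κ b).comp (MulF τ b) = opF (fun b g => (κ b g).comp (τ (g⁻¹ • b))) b := by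
  have h1 : (opF κ b).comp (MulF τ b) = opk fun a a' => (kat κ b a a').comp (τ (a'⁻¹ • b)) :=
    opk_comp_Mul (h.kok b) (hτ.orbit b)
  rw [h1]
  unfold opF
  congr 1
  funext a a'
  have h2 : (a⁻¹ * a')⁻¹ • a⁻¹ • b = a'⁻¹ • b := by
    rw [smul_smul, mul_inv_rev, inv_inv, mul_assoc, mul_inv_cancel, mul_one]
  show (κ (a⁻¹ • b) (a⁻¹ * a')).comp (τ (a'⁻¹ • b)) =
    (κ (a⁻¹ • b) (a⁻¹ * a')).comp (τ ((a⁻¹ * a')⁻¹ • a⁻¹ • b))
  rw [h2]

theorem MulF_comp_MulF {τ : B → (L2 J' →L[ℂ] L2 J'')} {τ' : B → (L2 J →L[ℂ] L2 J')} (h : SC τ)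
    (h' : SC τ') (b : B) :
    (MulF τ b : HG G J' →L[ℂ] HG G J'').comp (MulF τ' b) =
      MulF (fun b => (τ b).comp (τ' b)) b :=
  Mul_comp_Mul (h.orbit b) (h'.orbit b)

end Pool.Agent.Lib.MP_aa9b81_an.Cb
end
end

section

/-!
# Continuous Bernoulli, part Lfb: products of equivariant kernels
-/

open scoped ENNReal Topology Pointwise
open Function Filter MeasureTheory

noncomputable section

set_option linter.unusedSectionVars false

namespace Pool.Agent.Lib.MP_aa9b81_an.Cb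

open Cut Hs

variable {G J J' J'' B : Type} [Group G] [TopologicalSpace G] [IsTopologicalGroup G]
  [LocallyCompactSpace G] [SecondCountableTopology G] [T2Space G] [MeasurableSpace G] [BorelSpace G]
  [TopologicalSpace B] [MulAction G B] [ContinuousSMul G B]

/-- The product of equivariant kernels, `(κ * κ')(b, g) = ∫ κ(b, h) κ'(h⁻¹ b, h⁻¹ g) dh`. -/
def fc (κ : B → G → (L2 J' →L[ℂ] L2 J'')) (κ' : B → G → (L2 J →L[ℂ] L2 J')) :
    B → G → (L2 J →L[ℂ] L2 J'') :=
  fun b g => kc (kat κ b) (kat κ' b) 1 g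

/-- PROOF: `kc_apply`. -/
theorem fc_apply {C C' : Set G} {M M' : ℝ} {κ : B → G → (L2 J' →L[ℂ] L2 J'')}
    {κ' : B → G → (L2 J →L[ℂ] L2 J')} (h : FOK C M κ) (h' : FOK C' M' κ') (b : B) (g : G)
    (v : L2 J) : fc κ κ' b g v = ∫ x, κ b x (κ' (x⁻¹ • b) (x⁻¹ * g) v) ∂mu G := by
  have h1 := kc_apply (h.kok b) (h'.kok b) 1 g v
  simp only [kat, inv_one, one_smul, one_mul] at h1
  exact h1

/-- PROOF: the substitution `b' = a x` (`integral_mul_left_eq_self`), `kc_apply`, `fc_apply`. -/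
theorem kat_fc {C C' : Set G} {M M' : ℝ} {κ : B → G → (L2 J' →L[ℂ] L2 J'')}
    {κ' : B → G → (L2 J →L[ℂ] L2 J')} (h : FOK C M κ) (h' : FOK C' M' κ') (b : B) :
    kat (fc κ κ') b = kc (kat κ b) (kat κ' b) := by
  funext a c
  refine ContinuousLinearMap.ext fun v => ?_
  rw [kc_apply (h.kok b) (h'.kok b)]
  have h1 : kat (fc κ κ') b a c v = fc κ κ' (a⁻¹ • b) (a⁻¹ * c) v := rfl
  rw [h1, fc_apply h h', ← integral_mul_left_eq_self (μ := mu G)
    (fun b' : G => kat κ b a b' (kat κ' b b' c v)) a]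
  refine integral_congr_ae (Filter.Eventually.of_forall fun x => ?_)
  simp only [kat, mul_inv_rev, inv_mul_cancel_left, mul_smul, mul_assoc]

/-- PROOF: the bound and the support from `KOK.kc` (for the kernels at `b`, at the points `1, g`). Continuity in `(b, g)`: `fc_apply` and `continuous_integral` with `Z = B × G`: the integrand
`(b, g, x) ↦ κ b x (κ' (x⁻¹ • b) (x⁻¹ * g) v)` is continuous (`SC.apply`), bounded and supported in `x ∈ C`. -/
theorem FOK.fc {C C' : Set G} {M M' : ℝ}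
    {κ : B → G → (L2 J' →L[ℂ] L2 J'')} {κ' : B → G → (L2 J →L[ℂ] L2 J')} (h : FOK C M κ)
    (h' : FOK C' M' κ') : FOK (C * C') ((mu G).real C * (M * M')) (Cb.fc κ κ') := by
  refine ⟨h.cpt.mul h'.cpt, mul_nonneg measureReal_nonneg (mul_nonneg h.nonneg h'.nonneg),
    fun v => ?_, fun b g => (KOK.kc (h.kok b) (h'.kok b)).bdd 1 g, fun b g hg => ?_⟩
  · have h1 : (fun p : B × G => Cb.fc κ κ' p.1 p.2 v) = fun p : B × G =>
        ∫ x, κ p.1 x (κ' (x⁻¹ • p.1) (x⁻¹ * p.2) v) ∂mu G := by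
      funext p
      exact fc_apply h h' p.1 p.2 v
    rw [h1]
    refine continuous_integral (Z := B × G)
      (f := fun p x => κ p.1 x (κ' (x⁻¹ • p.1) (x⁻¹ * p.2) v)) ?_ fun z₀ => ?_
    · have h2 : SC fun q : (B × G) × G => κ q.1.1 q.2 :=
        h.sc.precomp (r := fun q : (B × G) × G => (q.1.1, q.2)) (by fun_prop)
      have h3 : Continuous fun q : (B × G) × G => κ' (q.2⁻¹ • q.1.1) (q.2⁻¹ * q.1.2) v :=
        (h'.cont v).comp (f := fun q : (B × G) × G => (q.2⁻¹ • q.1.1, q.2⁻¹ * q.1.2))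
          (by fun_prop)
      exact h2.apply h3
    · refine ⟨C, h.cpt, Filter.Eventually.of_forall fun z x hx => ?_⟩
      rw [h.supp z.1 x hx]
      rfl
  · refine (KOK.kc (h.kok b) (h'.kok b)).supp 1 g ?_
    rwa [inv_one, one_mul]

/-- PROOF: `opk_comp_opk`, `kat_fc`. -/
theorem opF_comp_opF {C C' : Set G} {M M' : ℝ} {κ : B → G → (L2 J' →L[ℂ] L2 J'')}
    {κ' : B → G → (L2 J →L[ℂ] L2 J')} (h : FOK C M κ) (h' : FOK C' M' κ') (b : B) :
    (opF κ b).comp (opF κ' b) = opF (fc κ κ') b := by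
  unfold opF
  rw [opk_comp_opk (h.kok b) (h'.kok b), kat_fc h h']

end Pool.Agent.Lib.MP_aa9b81_an.Cb
end
end

section

/-!
# Continuous Bernoulli, part Lg: the stabilised reduced crossed product of a locally compact group
-/

open scoped ENNReal Topology Pointwise CompactlySupported
open Function Filter MeasureTheory

noncomputable section

set_option linter.unusedSectionVars false

namespace Pool.Agent.Lib.MP_aa9b81_an.Cb

open Cut Hs

variable {G J B : Type} [Group G] [TopologicalSpace G] [IsTopologicalGroup G]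
  [LocallyCompactSpace G] [SecondCountableTopology G] [T2Space G] [MeasurableSpace G] [BorelSpace G]
  [TopologicalSpace B] [T2Space B] [MulAction G B] [ContinuousSMul G B] [Nonempty J]

/-- The generator `φ ⊗ E_ij`, `φ ∈ C_c(B × G)`: the family of the operators
`(T_b ξ)(a) = ∫ φ(a⁻¹ b, a⁻¹ a') E_ij ξ(a') da'`. -/
def gen (φ : C_c(B × G, ℂ)) (i j : J) : FamG G J B :=
  fam (opF fun b g => φ (b, g) • (Eu i j : BL J))

variable (G J B) in
/-- The stabilised reduced crossed product `(C₀(B) ⋊_r G) ⊗ 𝒦(ℓ²(J))`: the closed algebra generated by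
the elements `φ ⊗ E_ij`. -/
def cpG : NonUnitalSubalgebra ℂ (FamG G J B) :=
  (NonUnitalAlgebra.adjoin ℂ
    {a : FamG G J B | ∃ (φ : C_c(B × G, ℂ)) (i j : J), a = gen φ i j}).topologicalClosure

/-- PROOF: `C` is the image of the support of `φ` in `G`; a continuous function of compact support is bounded
(`HasCompactSupport.exists_bound_of_continuous`). -/
theorem exists_bound (φ : C_c(B × G, ℂ)) : ∃ (C : Set G) (M : ℝ), IsCompact C ∧ 0 ≤ M ∧
    (∀ p, ‖φ p‖ ≤ M) ∧ ∀ b g, g ∉ C → φ (b, g) = 0 := by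
  obtain ⟨M, hM⟩ := φ.hasCompactSupport.exists_bound_of_continuous φ.continuous
  refine ⟨Prod.snd '' tsupport φ, max M 0, φ.hasCompactSupport.isCompact.image continuous_snd,
    le_max_right _ _, fun p => (hM p).trans (le_max_left _ _), fun b g hg => ?_⟩
  by_contra h
  exact hg ⟨(b, g), subset_tsupport φ h, rfl⟩

/-- PROOF: continuity of `φ`; `norm_Eu_le`. -/
theorem FOK_smul {f : B × G → ℂ} (hf : Continuous f) {C : Set G} {M : ℝ} (hC : IsCompact C)
    (hM : 0 ≤ M) (h : ∀ p, ‖f p‖ ≤ M) (hs : ∀ b g, g ∉ C → f (b, g) = 0) (i j : J) :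
    FOK C M fun b g => f (b, g) • (Eu i j : BL J) := by
  refine ⟨hC, hM, fun v => ?_, fun b g => ?_, fun b g hg => ?_⟩
  · exact hf.smul continuous_const
  · rw [norm_smul]
    calc ‖f (b, g)‖ * ‖(Eu i j : BL J)‖ ≤ M * 1 :=
          mul_le_mul (h (b, g)) (norm_Eu_le i j) (norm_nonneg _) hM
      _ = M := mul_one M
  · rw [hs b g hg, zero_smul]

/-- PROOF: `fam_apply` with `norm_opF_le`, `exists_bound`, `FOK_smul`. -/
theorem gen_apply (φ : C_c(B × G, ℂ)) (i j : J) (b : B) :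
    gen φ i j b = opF (fun b g => φ (b, g) • (Eu i j : BL J)) b := by
  obtain ⟨C, M, hC, hM, h, hs⟩ := exists_bound φ
  have hF := FOK_smul (f := ⇑φ) φ.continuous hC hM h hs i j
  exact fam_apply (fun b => norm_opF_le hF b) b

/-- PROOF: `norm_fam_le`, `norm_opF_le`, `FOK_smul`. -/
theorem norm_gen_le (φ : C_c(B × G, ℂ)) {C : Set G} {M : ℝ} (hC : IsCompact C)
    (hM : 0 ≤ M) (h : ∀ p, ‖φ p‖ ≤ M) (hs : ∀ b g, g ∉ C → φ (b, g) = 0) (i j : J) :
    ‖(gen φ i j : FamG G J B)‖ ≤ M * cs C := by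
  have hF := FOK_smul (f := ⇑φ) φ.continuous hC hM h hs i j
  exact norm_fam_le (mul_nonneg hM (Real.sqrt_nonneg _)) (fun b => norm_opF_le hF b)

theorem gen_mem (φ : C_c(B × G, ℂ)) (i j : J) : gen φ i j ∈ cpG G J B :=
  NonUnitalSubalgebra.le_topologicalClosure _ (NonUnitalAlgebra.subset_adjoin ℂ ⟨φ, i, j, rfl⟩)

theorem isClosed_cpG : IsClosed (cpG G J B : Set (FamG G J B)) :=
  NonUnitalSubalgebra.isClosed_topologicalClosure _

/-- PROOF: `FamG.ext`, `gen_apply`, `opF_add`. -/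
theorem gen_add (φ ψ : C_c(B × G, ℂ)) (i j : J) :
    (gen (φ + ψ) i j : FamG G J B) = gen φ i j + gen ψ i j := by
  obtain ⟨C, M, hC, hM, h, hs⟩ := exists_bound φ
  obtain ⟨C', M', hC', hM', h', hs'⟩ := exists_bound ψ
  refine FamG.ext fun b => ?_
  rw [FamG.add_apply, gen_apply, gen_apply, gen_apply,
    ← opF_add (FOK_smul (f := ⇑φ) φ.continuous hC hM h hs i j) (FOK_smul (f := ⇑ψ) ψ.continuous hC' hM' h' hs' i j)]
  congr 1
  funext b g
  exact add_smul _ _ _

theorem gen_smul (c : ℂ) (φ : C_c(B × G, ℂ)) (i j : J) :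
    (gen (c • φ) i j : FamG G J B) = c • gen φ i j := by
  obtain ⟨C, M, hC, hM, h, hs⟩ := exists_bound φ
  refine FamG.ext fun b => ?_
  rw [FamG.smul_apply, gen_apply, gen_apply,
    ← opF_smul (FOK_smul (f := ⇑φ) φ.continuous hC hM h hs i j)]
  congr 1
  funext b g
  exact mul_smul _ _ _

theorem gen_sub (φ ψ : C_c(B × G, ℂ)) (i j : J) :
    (gen (φ - ψ) i j : FamG G J B) = gen φ i j - gen ψ i j := by
  obtain ⟨C, M, hC, hM, h, hs⟩ := exists_bound φ
  obtain ⟨C', M', hC', hM', h', hs'⟩ := exists_bound ψ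
  refine FamG.ext fun b => ?_
  rw [FamG.sub_apply, gen_apply, gen_apply, gen_apply,
    ← opF_sub (FOK_smul (f := ⇑φ) φ.continuous hC hM h hs i j) (FOK_smul (f := ⇑ψ) ψ.continuous hC' hM' h' hs' i j)]
  congr 1
  funext b g
  exact sub_smul _ _ _

end Pool.Agent.Lib.MP_aa9b81_an.Cb
end
end

section

/-!
# Continuous Bernoulli, part Leb: block diagonal operators
-/

open scoped ENNReal Topology Pointwise
open Function Filter MeasureTheory

noncomputable section

set_option linter.unusedSectionVars false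

namespace Pool.Agent.Lib.MP_aa9b81_an.Cb

open Cut Hs

variable {G J J' J'' P : Type} [Group G] [TopologicalSpace G] [IsTopologicalGroup G]
  [LocallyCompactSpace G] [SecondCountableTopology G] [T2Space G] [MeasurableSpace G] [BorelSpace G]

/-- PROOF: for `ξ` let `T ξ` be the vector with the slices `x β (slg β ξ)` (`exists_of_slg`, unique by `ext_slg`, so linear), `‖T ξ‖² = ∑ ‖x β (slg β ξ)‖² ≤ C² ‖ξ‖²`
(`hasSum_slg`). `LinearMap.mkContinuous`. -/
theorem exists_bd {x : P → (HG G ℕ →L[ℂ] HG G ℕ)} {C : ℝ} (hC : 0 ≤ C) (h : ∀ β, ‖x β‖ ≤ C) :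
    ∃ T : HG G (ℕ × P) →L[ℂ] HG G (ℕ × P), ‖T‖ ≤ C ∧ ∀ ξ β, slg β (T ξ) = x β (slg β ξ) := by
  have hsum : ∀ ξ : HG G (ℕ × P), Summable fun β => ‖x β (slg β ξ)‖ ^ 2 := by
    intro ξ
    refine Summable.of_nonneg_of_le (fun β => by positivity) (fun β => ?_)
      ((hasSum_slg ξ).summable.mul_left (C ^ 2))
    rw [← mul_pow]
    refine pow_le_pow_left₀ (norm_nonneg _) ?_ 2
    exact (ContinuousLinearMap.le_opNorm _ _).trans
      (mul_le_mul_of_nonneg_right (h β) (norm_nonneg _))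
  have hex : ∀ ξ : HG G (ℕ × P), ∃ η : HG G (ℕ × P), ∀ β, slg β η = x β (slg β ξ) := fun ξ =>
    exists_of_slg (hsum ξ)
  choose T hT using hex
  have hadd : ∀ ξ η, T (ξ + η) = T ξ + T η := by
    intro ξ η
    refine ext_slg fun β => ?_
    rw [hT, map_add, map_add, map_add, hT, hT]
  have hsmul : ∀ (c : ℂ) ξ, T (c • ξ) = c • T ξ := by
    intro c ξ
    refine ext_slg fun β => ?_
    rw [hT, map_smul, map_smul, map_smul, hT]
  have hb : ∀ ξ, ‖T ξ‖ ≤ C * ‖ξ‖ := by
    intro ξ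
    have h1 := hasSum_slg (T ξ)
    have h2 := (hasSum_slg ξ).mul_left (C ^ 2)
    have h3 : ‖T ξ‖ ^ 2 ≤ C ^ 2 * ‖ξ‖ ^ 2 := by
      refine hasSum_le (fun β => ?_) h1 h2
      rw [hT, ← mul_pow]
      refine pow_le_pow_left₀ (norm_nonneg _) ?_ 2
      exact (ContinuousLinearMap.le_opNorm _ _).trans
        (mul_le_mul_of_nonneg_right (h β) (norm_nonneg _))
    rw [← mul_pow] at h3
    exact le_of_sq_le_sq h3 (by positivity)
  refine ⟨LinearMap.mkContinuous ⟨⟨T, hadd⟩, hsmul⟩ C hb,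
    LinearMap.mkContinuous_norm_le _ hC _, fun ξ β => ?_⟩
  exact hT ξ β

open Classical in
/-- The block diagonal operator. -/
def bd (x : P → (HG G ℕ →L[ℂ] HG G ℕ)) : HG G (ℕ × P) →L[ℂ] HG G (ℕ × P) :=
  if h : ∃ C : ℝ, 0 ≤ C ∧ ∀ β, ‖x β‖ ≤ C then (exists_bd h.choose_spec.1 h.choose_spec.2).choose
  else 0

theorem slg_bd {x : P → (HG G ℕ →L[ℂ] HG G ℕ)} {C : ℝ} (hC : 0 ≤ C) (h : ∀ β, ‖x β‖ ≤ C)
    (ξ : HG G (ℕ × P)) (β : P) : slg β (bd x ξ) = x β (slg β ξ) := by
  have h' : ∃ C : ℝ, 0 ≤ C ∧ ∀ β, ‖x β‖ ≤ C := ⟨C, hC, h⟩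
  rw [bd, dif_pos h']
  exact (exists_bd h'.choose_spec.1 h'.choose_spec.2).choose_spec.2 ξ β

theorem norm_bd_le {x : P → (HG G ℕ →L[ℂ] HG G ℕ)} {C : ℝ} (hC : 0 ≤ C) (h : ∀ β, ‖x β‖ ≤ C) :
    ‖bd x‖ ≤ C := by
  obtain ⟨T, hT, hT'⟩ := exists_bd hC h
  have h1 : bd x = T := ContinuousLinearMap.ext fun ξ => ext_slg fun β => by
    rw [slg_bd hC h, hT']
  rw [h1]
  exact hT

/-- PROOF: `ext_slg`, `slg_bd`. -/
theorem bd_add {x y : P → (HG G ℕ →L[ℂ] HG G ℕ)} {C C' : ℝ} (hC : 0 ≤ C) (h : ∀ β, ‖x β‖ ≤ C)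
    (hC' : 0 ≤ C') (h' : ∀ β, ‖y β‖ ≤ C') : bd (fun β => x β + y β) = bd x + bd y := by
  refine ContinuousLinearMap.ext fun ξ => ext_slg fun β => ?_
  rw [slg_bd (add_nonneg hC hC') (fun β => (norm_add_le _ _).trans (add_le_add (h β) (h' β))),
    ContinuousLinearMap.add_apply, ContinuousLinearMap.add_apply, map_add, slg_bd hC h,
    slg_bd hC' h']

theorem bd_smul {x : P → (HG G ℕ →L[ℂ] HG G ℕ)} {C : ℝ} (hC : 0 ≤ C) (h : ∀ β, ‖x β‖ ≤ C)
    (c : ℂ) : bd (fun β => c • x β) = c • bd x := by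
  refine ContinuousLinearMap.ext fun ξ => ext_slg fun β => ?_
  rw [slg_bd (C := ‖c‖ * C) (by positivity) (fun β => by
      rw [norm_smul]
      exact mul_le_mul_of_nonneg_left (h β) (norm_nonneg _)),
    ContinuousLinearMap.smul_apply, ContinuousLinearMap.smul_apply, map_smul, slg_bd hC h]

theorem bd_mul {x y : P → (HG G ℕ →L[ℂ] HG G ℕ)} {C C' : ℝ} (hC : 0 ≤ C) (h : ∀ β, ‖x β‖ ≤ C)
    (hC' : 0 ≤ C') (h' : ∀ β, ‖y β‖ ≤ C') : bd (fun β => x β * y β) = bd x * bd y := by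
  refine ContinuousLinearMap.ext fun ξ => ext_slg fun β => ?_
  rw [slg_bd (C := C * C') (by positivity) (fun β => (norm_mul_le _ _).trans
      (mul_le_mul (h β) (h' β) (norm_nonneg _) hC))]
  change x β (y β (slg β ξ)) = slg β (bd x (bd y ξ))
  rw [slg_bd hC h, slg_bd hC' h']

theorem bd_zero : bd (fun _ : P => (0 : HG G ℕ →L[ℂ] HG G ℕ)) = 0 := by
  refine ContinuousLinearMap.ext fun ξ => ext_slg fun β => ?_
  rw [slg_bd (C := 0) le_rfl (fun β => by rw [norm_zero]), ContinuousLinearMap.zero_apply,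
    ContinuousLinearMap.zero_apply, map_zero]

private theorem Leb_aux {h : P → ℂ} {C' : ℝ} (hC' : ∀ β, ‖h β‖ ≤ C') (ξ : HG G (ℕ × P)) (β : P) :
    slg β (Mul (fun _ : G => am (dia h)) ξ) = h β • slg β ξ := by
  have h1 : (slg β).comp (Mul (fun _ : G => am (dia h))) =
      h β • (slg β : HG G (ℕ × P) →L[ℂ] HG G ℕ) := by
    rw [slg, Mul_comp_Mul (SC.const _) (SC.const _), ← Mul_smul (SC.const _)]
    congr 1
    funext a
    exact s0_comp_am_dia hC' β
  exact DFunLike.congr_fun h1 ξ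

/-- PROOF: `ext_slg`, `slg_bd`; `slg β (Mul (fun _ => am (dia h)) ξ) = h β • slg β ξ` (`Mul_comp_Mul`, `s0_comp_am_dia`). -/
theorem Mul_dia_comp_bd {x : P → (HG G ℕ →L[ℂ] HG G ℕ)} {C : ℝ} (hC : 0 ≤ C)
    (hx : ∀ β, ‖x β‖ ≤ C) {h : P → ℂ} {C' : ℝ} (hC' : ∀ β, ‖h β‖ ≤ C') :
    (Mul fun _ : G => am (dia h)).comp (bd x) = bd fun β => h β • x β := by
  refine ContinuousLinearMap.ext fun ξ => ext_slg fun β => ?_
  rw [slg_bd (C := max C' 0 * C) (by positivity) (fun β => by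
      rw [norm_smul]
      exact mul_le_mul ((hC' β).trans (le_max_left _ _)) (hx β) (norm_nonneg _)
        (le_max_right _ _))]
  change slg β (Mul (fun _ : G => am (dia h)) (bd x ξ)) = h β • (x β (slg β ξ))
  rw [Leb_aux hC', slg_bd hC hx]

theorem bd_comp_Mul_dia {x : P → (HG G ℕ →L[ℂ] HG G ℕ)} {C : ℝ} (hC : 0 ≤ C)
    (hx : ∀ β, ‖x β‖ ≤ C) {h : P → ℂ} {C' : ℝ} (hC' : ∀ β, ‖h β‖ ≤ C') :
    (bd x).comp (Mul fun _ : G => am (dia h)) = bd fun β => h β • x β := by
  refine ContinuousLinearMap.ext fun ξ => ext_slg fun β => ?_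
  rw [slg_bd (C := max C' 0 * C) (by positivity) (fun β => by
      rw [norm_smul]
      exact mul_le_mul ((hC' β).trans (le_max_left _ _)) (hx β) (norm_nonneg _)
        (le_max_right _ _))]
  change slg β (bd x (Mul (fun _ : G => am (dia h)) ξ)) = h β • (x β (slg β ξ))
  rw [slg_bd hC hx, Leb_aux hC', map_smul]

/-- PROOF: `SC.of_bv` and `KOK`: `ek i j (dia h) (bv (k, β))` is `h β • bv (i, β)` if `k = j`, and `0` otherwise (`ek_bv`, `dia_bv`); `norm_ek_le`, `norm_dia_le`; outside of `C` the function is `0`, so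
`dia` of it is `0`. -/
theorem kok_ek_dia (i j : ℕ) {C : Set G} {M : ℝ} {f : P → G → G → ℂ} (hC : IsCompact C)
    (hM : 0 ≤ M) (h : ∀ β, SOK C M (f β)) :
    KOK C M fun a b => ek i j (dia fun β => f β a b) := by
  have hsc : SC fun p : G × G => (dia fun β => f β p.1 p.2 : BL P) := by
    refine SC.of_bv (C := M) (fun p => norm_dia_le hM fun β => (h β).bdd _ _) fun β => ?_
    have h1 : ∀ p : G × G, (dia fun β => f β p.1 p.2 : BL P) (bv β) = f β p.1 p.2 • bv β :=
      fun p => dia_bv (fun β => (h β).bdd _ _) β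
    simp only [h1]
    exact (h β).cont.smul continuous_const
  refine ⟨hC, hM, fun v => (hsc.ek i j).cont v, fun a b => (norm_ek_le _ _ _).trans
    (norm_dia_le hM fun β => (h β).bdd _ _), fun a b hab => ?_⟩
  refine norm_le_zero_iff.1 ((norm_ek_le _ _ _).trans (norm_dia_le le_rfl fun β => ?_))
  rw [(h β).supp a b hab, norm_zero]

/-- The block diagonal operator of scalar kernels. PROOF: `ext_slg`, `slg_bd` (`norm_opk_le`, `SOK.kok`), `Mul_comp_opk`, `s0_comp_ek_dia`, `opk_comp_Mul`. -/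
theorem bd_opk (i j : ℕ) {C : Set G} {M : ℝ} {f : P → G → G → ℂ} (hC : IsCompact C) (hM : 0 ≤ M)
    (h : ∀ β, SOK C M (f β)) :
    bd (fun β => opk fun a b => f β a b • (Eu i j : BL ℕ)) =
      opk fun a b => ek i j (dia fun β => f β a b) := by
  have hcs : 0 ≤ cs C := Real.sqrt_nonneg _
  have hb : ∀ β, ‖(opk fun a b => f β a b • (Eu i j : BL ℕ) : HG G ℕ →L[ℂ] HG G ℕ)‖ ≤
      M * ‖(Eu i j : BL ℕ)‖ * cs C := fun β => norm_opk_le ((h β).kok (Eu i j))
  refine ContinuousLinearMap.ext fun ξ => ext_slg fun β => ?_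
  rw [slg_bd (by positivity) hb]
  have h1 : (slg β).comp (opk fun a b => ek i j (dia fun β => f β a b)) =
      (opk fun a b => f β a b • (Eu i j : BL ℕ)).comp (slg β : HG G (ℕ × P) →L[ℂ] HG G ℕ) := by
    rw [slg, Mul_comp_opk (kok_ek_dia i j hC hM h) (SC.const (s0 β)),
      opk_comp_Mul ((h β).kok (Eu i j)) (SC.const (s0 β))]
    congr 1
    funext a b
    exact s0_comp_ek_dia i j (fun β => (h β).bdd a b) β
  exact (DFunLike.congr_fun h1 ξ).symm

end Pool.Agent.Lib.MP_aa9b81_an.Cb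
end
end
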