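import Pool.Agent.Lib.MP_aa9b81_an.Mg.G063
import Pool.Agent.Lib.MP_aa9b81_an.Mg.G074
import Pool.Agent.Lib.MP_aa9b81_an.Mg.G062

section

/-!
# Continuous Bernoulli, part Lic: the corner lemma
-/

open scoped ENNReal Topology Pointwise CompactlySupported
open Function Filter MeasureTheory

noncomputable section

set_option linter.unusedSectionVars false

namespace Pool.Agent.Lib.MP_aa9b81_an.Cb

open Cut Hs

variable {G J J' J'' B : Type} [Group G] [TopologicalSpace G] [IsTopologicalGroup G]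
  [LocallyCompactSpace G] [SecondCountableTopology G] [T2Space G] [MeasurableSpace G] [BorelSpace G]
  [Nonempty J] [Nonempty J'] [Nonempty J'']

variable [TopologicalSpace B] [T2Space B] [MulAction G B] [ContinuousSMul G B]

private theorem Lic_pn (n : ℕ) (ξ : L2 ℕ) (k : ℕ) :
    (pn n ξ : ℕ → ℂ) k = (if k < n then (1 : ℂ) else 0) * (ξ : ℕ → ℂ) k := by
  rw [pn, dia_apply zero_le_one (fun b => by split_ifs <;> simp)]

private theorem Lic_ex {J' : Type} {s t : ℕ ↪ J'} {n : ℕ} (h : ∀ k < n, s k = t k) :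
    (ex s).comp (pn n) = (ex t).comp (pn n) := by
  refine ContinuousLinearMap.ext fun ξ => ?_
  ext q
  rw [ContinuousLinearMap.comp_apply, ContinuousLinearMap.comp_apply]
  by_cases hq : ∃ k < n, s k = q
  · obtain ⟨k, hk, rfl⟩ := hq
    rw [ex_apply, h k hk, ex_apply]
  · have h0 : ∀ u : ℕ ↪ J', (∀ k < n, u k ≠ q) → (ex u (pn n ξ) : J' → ℂ) q = 0 := by
      intro u hu
      by_cases hq' : q ∈ Set.range u
      · obtain ⟨k, rfl⟩ := hq'
        rw [ex_apply, Lic_pn, if_neg, zero_mul]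
        intro hk
        exact hu k hk rfl
      · exact ex_apply_of_notMem u _ hq'
    rw [h0 s fun k hk e => hq ⟨k, hk, e⟩, h0 t fun k hk e => hq ⟨k, hk, (h k hk).trans e⟩]

private theorem Lic_rs {J' : Type} {s t : ℕ ↪ J'} {n : ℕ} (h : ∀ k < n, s k = t k) :
    (pn n).comp (rsE s) = (pn n).comp (rsE t) := by
  refine ContinuousLinearMap.ext fun ξ => ?_
  ext k
  rw [ContinuousLinearMap.comp_apply, ContinuousLinearMap.comp_apply, Lic_pn, Lic_pn, rsE_apply,
    rsE_apply]
  by_cases hk : k < n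
  · rw [h k hk]
  · rw [if_neg hk, zero_mul, zero_mul]

/-- Two injections which agree on the first `n` numbers. PROOF: `corn_apply`, `x = trn n x`, and `(ex s).comp (pn n) = (ex t).comp (pn n)`, `(pn n).comp (rsE s) = (pn n).comp (rsE t)` (coordinates),
`Mul_comp_Mul`. -/
theorem corn_eq_of_trn {s t : ℕ ↪ J'} {n : ℕ} (h : ∀ k < n, s k = t k) {x : FamG G ℕ B}
    (hx : trn n x = x) : corn s x = corn t x := by
  rw [← hx]
  refine FamG.ext fun b => ?_
  rw [corn_apply, corn_apply, trn_apply]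
  have h1 : (Mul fun _ : G => ex s : HG G ℕ →L[ℂ] HG G J').comp (Mul fun _ : G => pn n) =
      (Mul fun _ : G => ex t).comp (Mul fun _ : G => pn n) := by
    rw [Mul_comp_Mul (SC.const _) (SC.const _), Mul_comp_Mul (SC.const _) (SC.const _), Lic_ex h]
  have h2 : (Mul fun _ : G => pn n : HG G ℕ →L[ℂ] HG G ℕ).comp
      (Mul fun _ : G => rsE s : HG G J' →L[ℂ] HG G ℕ) =
      (Mul fun _ : G => pn n).comp (Mul fun _ : G => rsE t) := by
    rw [Mul_comp_Mul (SC.const _) (SC.const _), Mul_comp_Mul (SC.const _) (SC.const _), Lic_rs h]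
  calc ((Mul fun _ : G => ex s).comp (((Mul fun _ => pn n).comp (x b)).comp
        (Mul fun _ => pn n))).comp (Mul fun _ : G => rsE s)
      = (((Mul fun _ : G => ex s).comp (Mul fun _ => pn n)).comp (x b)).comp
          ((Mul fun _ => pn n).comp (Mul fun _ : G => rsE s)) := rfl
    _ = (((Mul fun _ : G => ex t).comp (Mul fun _ => pn n)).comp (x b)).comp
          ((Mul fun _ => pn n).comp (Mul fun _ : G => rsE t)) := by rw [h1, h2]
    _ = ((Mul fun _ : G => ex t).comp (((Mul fun _ => pn n).comp (x b)).comp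
        (Mul fun _ => pn n))).comp (Mul fun _ : G => rsE t) := rfl

/-- A finite part of an injection of `ℕ` is the restriction of a permutation. PROOF: the injection of the finite set `{k | k < n}` in `ℕ` given by `s` extends to a permutation of `ℕ`
(`Finset`/`Fintype` versions: choose `N` with `k, s k < N` for `k < n`, extend the injection of `Fin n`-type subsets of `Fin N` (`Equiv.Perm`: `Function.Embedding` to an `Equiv.extendSubtype` / `Equiv.extendSubtype_apply_of_mem`), and by the identity outside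
(`Equiv.Perm.extendDomain` or `Equiv.Perm.ofSubtype`)). -/
theorem exists_perm (s : ℕ ↪ ℕ) (n : ℕ) : ∃ σ : Equiv.Perm ℕ, ∀ k < n, σ k = s k := by
  obtain ⟨σ, hσ⟩ := Equiv.Perm.exists_extending_pair (fun i : Fin n => (i : ℕ))
    (fun i : Fin n => s i) Fin.val_injective (s.injective.comp Fin.val_injective)
  exact ⟨σ, fun k hk => hσ ⟨k, hk⟩⟩

/-- PROOF. Let `A = cpG G ℕ B`, `η` as in `exists_near_unit` for the `cpn G B n` (the `η` of that lemma does not depend on `A₀`: apply it with `A₀ = A` to find `v' = 1 + b`... simpler: apply it for each `n`; its proof takes `η = 1 / M` with `M`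
depending on `v` only, but the statement has `∃ η` after `A₀`; so repeat its proof: `exists_unit_of_almost_inverse` for `A₀ = cpn G B n` with `b = trn n (v - 1)`, `c = trn n (v⁻¹ - 1)`, for large `n`: `‖b + c + b c‖ < 1`, `‖c + b + c b‖ < 1`,
since they tend to `(v - 1) + (v⁻¹ - 1) + (v - 1) (v⁻¹ - 1) = 0` (`tendsto_trn`), and `‖v⁻¹‖ ‖1 + b - v‖ < 1`, `E1_of_near`). So there are `n` and `w ∈ GL1 (cpn G B n)` with `v⁻¹ * w ∈ E1 A`. Let `σ` be the
permutation of `exists_perm t n`. `extUnit (corn t) w = extUnit (corn t) v * extUnit (corn t) (v⁻¹ * w) ∈ E1 A` (`extUnit_mem_E1`, `corn_mem`), and `extUnit (corn t) w = extUnit (corn σ) w` (`corn_eq_of_trn`). Apply `extUnit (corn σ⁻¹)`: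
`w = extUnit (corn σ⁻¹) (extUnit (corn σ) w) ∈ E1 A` (`corn_trans`, `corn_refl`). So `v = w * (v⁻¹ * w)⁻¹ ∈ E1 A`. -/
theorem corner_nat (t : ℕ ↪ ℕ) {v : (FamG G ℕ B)ˣ} (hv : v ∈ GL1 (cpG G ℕ B))
    (h : extUnit (corn t) v ∈ E1 (cpG G ℕ B)) : v ∈ E1 (cpG G ℕ B) := by
  obtain ⟨η, hη, H⟩ := exists_near_unit (A := cpG G ℕ B) (A₀ := cpG G ℕ B) isClosed_cpG le_rfl hv
  have e1 := (Metric.tendsto_atTop.1 (tendsto_trn _ hv.1)) η hη
  have e2 := (Metric.tendsto_atTop.1 (tendsto_trn _ hv.2)) η hη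
  obtain ⟨N1, h1⟩ := e1
  obtain ⟨N2, h2⟩ := e2
  set n := max N1 N2 with hn
  have h1' := h1 n (le_max_left _ _)
  have h2' := h2 n (le_max_right _ _)
  rw [dist_comm, dist_eq_norm] at h1' h2'
  obtain ⟨w, hw, hwv, hvw⟩ := H _ (trn_mem n _ hv.1) _ (trn_mem n _ hv.2) h1' h2'
  have hw1 : ((w : (FamG G ℕ B)ˣ) : FamG G ℕ B) - 1 =
      trn n ((v : FamG G ℕ B) - 1) := by
    rw [hwv, add_sub_cancel_left]
  obtain ⟨σ, hσ⟩ := exists_perm t n
  have k1 : extUnit (corn t) w ∈ E1 (cpG G ℕ B) := by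
    have : w = v * (v⁻¹ * w) := by rw [mul_inv_cancel_left]
    rw [this, map_mul]
    exact mul_mem h (extUnit_mem_E1 (norm_corn_le _) (corn_mem _) hvw)
  have k2 : extUnit (corn t) w = extUnit (corn σ.toEmbedding) w := by
    refine Units.ext ?_
    change 1 + corn t ((w : FamG G ℕ B) - 1) = 1 + corn σ.toEmbedding ((w : FamG G ℕ B) - 1)
    rw [hw1, corn_eq_of_trn (s := t) (t := σ.toEmbedding) (n := n) (fun k hk => (hσ k hk).symm)
      (trn_trn n _)]
  rw [k2] at k1
  have k3 := extUnit_mem_E1 (norm_corn_le σ.symm.toEmbedding) (corn_mem σ.symm.toEmbedding) k1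
  have k4 : extUnit (corn σ.symm.toEmbedding) (extUnit (corn σ.toEmbedding) w) = w := by
    refine Units.ext ?_
    change 1 + corn σ.symm.toEmbedding ((1 + corn σ.toEmbedding ((w : FamG G ℕ B) - 1)) - 1) =
      (w : FamG G ℕ B)
    rw [add_sub_cancel_left, ← corn_trans]
    have e : σ.toEmbedding.trans σ.symm.toEmbedding = Embedding.refl ℕ := by
      ext k
      exact σ.symm_apply_apply k
    rw [e, corn_refl, add_sub_cancel]
  rw [k4] at k3
  have : v = w * (v⁻¹ * w)⁻¹ := by group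
  rw [this]
  exact mul_mem k3 (inv_mem hvw)

/-- The corner lemma. PROOF: let `c : J' ↪ ℕ`; `extUnit (corn (s.trans c)) v = extUnit (corn c) (extUnit (corn s) v) ∈ E1` (`extUnit_mem_E1`, `corn_mem`, `norm_corn_le`, `corn_trans`); `corner_nat`. -/
theorem corner [Countable J'] (s : ℕ ↪ J') {v : (FamG G ℕ B)ˣ} (hv : v ∈ GL1 (cpG G ℕ B))
    (h : extUnit (corn s) v ∈ E1 (cpG G J' B)) : v ∈ E1 (cpG G ℕ B) := by
  obtain ⟨c⟩ := nonempty_embedding_nat J'
  refine corner_nat (s.trans c) hv ?_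
  have e : extUnit (corn (s.trans c)) v = extUnit (corn c) (extUnit (corn s) v) := by
    refine Units.ext ?_
    change 1 + corn (s.trans c) ((v : FamG G ℕ B) - 1) =
      1 + corn c ((1 + corn s ((v : FamG G ℕ B) - 1)) - 1)
    rw [add_sub_cancel_left, corn_trans]
  rw [e]
  exact extUnit_mem_E1 (norm_corn_le c) (corn_mem c) h

end Pool.Agent.Lib.MP_aa9b81_an.Cb
end
end

section

/-!
# Continuous Bernoulli, part Lid: the corner at an index
-/

open scoped ENNReal Topology Pointwise CompactlySupported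
open Function Filter MeasureTheory

noncomputable section

set_option linter.unusedSectionVars false

namespace Pool.Agent.Lib.MP_aa9b81_an.Cb

open Cut Hs

/-- The injection `k ↦ (k, p)`. -/
def vc {P : Type} (p : P) : ℕ ↪ ℕ × P := ⟨fun k => (k, p), fun _ _ h => (Prod.ext_iff.1 h).1⟩

@[simp] lemma vc_apply {P : Type} (p : P) (k : ℕ) : vc p k = (k, p) := rfl

variable {G B P : Type} [Group G] [TopologicalSpace G] [IsTopologicalGroup G]
  [LocallyCompactSpace G] [SecondCountableTopology G] [T2Space G] [MeasurableSpace G] [BorelSpace G]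
  [Nonempty P]

private theorem Lid_ex_same (p : P) : (s0 p).comp (ex (vc p)) = (1 : BL ℕ) := by
  refine ContinuousLinearMap.ext fun ξ => lp.ext (funext fun k => ?_)
  rw [ContinuousLinearMap.comp_apply, s0_apply, ← vc_apply p k, ex_apply]
  rfl

private theorem Lid_ex_ne {β p : P} (h : β ≠ p) : (s0 β).comp (ex (vc p)) = (0 : BL ℕ) := by
  refine ContinuousLinearMap.ext fun ξ => lp.ext (funext fun k => ?_)
  rw [ContinuousLinearMap.comp_apply, s0_apply, ex_apply_of_notMem]
  · rfl
  · rintro ⟨l, hl⟩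
    rw [vc_apply] at hl
    exact h (Prod.ext_iff.1 hl).2.symm

open Classical in
/-- The corner at `p` is block diagonal. PROOF: `ext_slg` (Le.lean), `slg_bd` (Leb.lean), `corn_apply`; `(s0 β).comp (ex (vc p)) = 1` if `β = p` and `0` otherwise (coordinates:
`s0_apply`, `ex_apply`, `ex_apply_of_notMem`), `rsE (vc p) = s0 p`; `Mul_comp_Mul`, `Mul_one`, `Mul_zero`. -/
theorem corn_vc (p : P) (x : FamG G ℕ B) (b : B) :
    corn (vc p) x b = bd fun β : P => if β = p then x b else 0 := by
  have hb : ∀ β : P, ‖(if β = p then x b else 0 : HG G ℕ →L[ℂ] HG G ℕ)‖ ≤ ‖x b‖ := by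
    intro β
    split_ifs
    · exact le_rfl
    · rw [norm_zero]
      exact norm_nonneg _
  refine ContinuousLinearMap.ext fun ξ => ext_slg fun β => ?_
  rw [slg_bd (norm_nonneg (x b)) hb, corn_apply]
  have h1 : (slg β : HG G (ℕ × P) →L[ℂ] HG G ℕ).comp (Mul fun _ => ex (vc p)) =
      Mul fun _ => (s0 β).comp (ex (vc p)) := Mul_comp_Mul (SC.const _) (SC.const _)
  have h2 : ∀ η : HG G ℕ, slg β ((Mul fun _ => ex (vc p)) η : HG G (ℕ × P)) =
      (Mul fun _ => (s0 β).comp (ex (vc p))) η := fun η =>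
    congrArg (fun T : HG G ℕ →L[ℂ] HG G ℕ => T η) h1
  rw [ContinuousLinearMap.comp_apply, ContinuousLinearMap.comp_apply, h2]
  by_cases h : β = p
  · subst h
    rw [Lid_ex_same, Mul_one, if_pos rfl]
    rfl
  · rw [Lid_ex_ne h, Mul_zero, if_neg h]
    rfl

/-- The corner lemma in this case. PROOF: `corner` with `s = vc p`: `extUnit (corn (vc p)) v = u`, since `(u : FamG) = 1 + corn (vc p) (v - 1)` by `corn_vc` and the hypothesis (`Units.ext`). -/
theorem corner_vc [TopologicalSpace B] [T2Space B] [MulAction G B] [ContinuousSMul G B]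
    [Countable P] [DecidableEq P] (p : P) {v : (FamG G ℕ B)ˣ} (hv : v ∈ GL1 (cpG G ℕ B))
    {u : (FamG G (ℕ × P) B)ˣ} (hu : ∀ b, (u : FamG G (ℕ × P) B) b =
      1 + bd fun β : P => if β = p then ((v : FamG G ℕ B) - 1) b else 0)
    (h : u ∈ E1 (cpG G (ℕ × P) B)) : v ∈ E1 (cpG G ℕ B) := by
  refine corner (vc p) hv ?_
  have h1 : extUnit (corn (vc p)) v = u := by
    refine Units.ext (FamG.ext fun b => ?_)
    rw [hu b]
    show ((1 + corn (vc p) ((v : FamG G ℕ B) - 1) : FamG G (ℕ × P) B) : B → _) b = _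
    rw [FamG.add_apply, FamG.one_apply, corn_vc]
    congr 2
    funext β
    by_cases h : β = p
    · rw [if_pos h, if_pos h]
    · rw [if_neg h, if_neg h]
  rw [h1]
  exact h

end Pool.Agent.Lib.MP_aa9b81_an.Cb
end
end

section

/-!
# Continuous Bernoulli, part Lj: pull back along proper maps, extension by zero
-/

open scoped ENNReal Topology Pointwise CompactlySupported
open Function Filter MeasureTheory

noncomputable section

set_option linter.unusedSectionVars false

namespace Pool.Agent.Lib.MP_aa9b81_an.Cb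

open Cut Hs

variable {G J B B' B₀ : Type} [Group G] [TopologicalSpace G] [IsTopologicalGroup G]
  [LocallyCompactSpace G] [SecondCountableTopology G] [T2Space G] [MeasurableSpace G] [BorelSpace G]
  [Nonempty J]

/-- The pull back of families along a map. -/
def pullG (p : B' → B) : FamG G J B →+* FamG G J B' where
  toFun a := FamG.mk (fun z => a (p z)) ‖a‖ (fun z => a.norm_apply_le (p z))
  map_one' := rfl
  map_mul' _ _ := rfl
  map_zero' := rfl
  map_add' _ _ := rfl

@[simp] lemma pullG_apply (p : B' → B) (a : FamG G J B) (z : B') : pullG p a z = a (p z) := rfl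

lemma norm_pullG_le (p : B' → B) (a : FamG G J B) : ‖pullG p a‖ ≤ ‖a‖ :=
  (FamG.norm_le_iff (norm_nonneg a)).2 fun z => a.norm_apply_le (p z)

lemma continuous_pullG (p : B' → B) : Continuous (pullG p : FamG G J B →+* FamG G J B') :=
  AddMonoidHomClass.continuous_of_bound (pullG p : FamG G J B →+* FamG G J B') 1
    (fun a => by simpa using norm_pullG_le p a)

open Classical in
/-- The extension of families by zero, along an injective map. -/
def extG (ι : B₀ ↪ B) : FamG G J B₀ →ₙ+* FamG G J B where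
  toFun a := FamG.mk (fun b => if h : ∃ z, ι z = b then a h.choose else 0) ‖a‖ (fun b => by
    split_ifs with h
    · exact a.norm_apply_le _
    · rw [norm_zero]
      exact norm_nonneg _)
  map_mul' a a' := by
    refine FamG.ext fun b => ?_
    rw [FamG.mul_apply, FamG.mk_apply, FamG.mk_apply, FamG.mk_apply]
    split_ifs with h
    · rfl
    · rw [mul_zero]
  map_zero' := by
    refine FamG.ext fun b => ?_
    rw [FamG.mk_apply]
    split_ifs with h
    · rfl
    · rfl
  map_add' a a' := by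
    refine FamG.ext fun b => ?_
    rw [FamG.add_apply, FamG.mk_apply, FamG.mk_apply, FamG.mk_apply]
    split_ifs with h
    · rfl
    · rw [add_zero]

/-- PROOF: `ι` is injective: the chosen point is `z`. -/
theorem extG_apply (ι : B₀ ↪ B) (a : FamG G J B₀) (z : B₀) : extG ι a (ι z) = a z := by
  classical
  have h : ∃ w, ι w = ι z := ⟨z, rfl⟩
  change dite (∃ w, ι w = ι z) (fun h => a h.choose) (fun _ => 0) = a z
  rw [dif_pos h, ι.injective h.choose_spec]

theorem extG_apply_of_notMem (ι : B₀ ↪ B) (a : FamG G J B₀) {b : B} (h : b ∉ Set.range ι) :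
    extG ι a b = 0 := by
  classical
  have h1 : ¬ ∃ w, ι w = b := fun h2 => h h2
  change dite (∃ w, ι w = b) (fun h => a h.choose) (fun _ => 0) = 0
  rw [dif_neg h1]

/-- PROOF: `FamG.norm_le_iff` in both directions, `extG_apply`. -/
theorem norm_extG (ι : B₀ ↪ B) (a : FamG G J B₀) : ‖extG ι a‖ = ‖a‖ := by
  refine le_antisymm ((FamG.norm_le_iff (norm_nonneg a)).2 fun b => ?_)
    ((FamG.norm_le_iff (norm_nonneg _)).2 fun z => ?_)
  · by_cases h : b ∈ Set.range ι
    · obtain ⟨z, rfl⟩ := h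
      rw [extG_apply]
      exact a.norm_apply_le z
    · rw [extG_apply_of_notMem ι a h, norm_zero]
      exact norm_nonneg a
  · rw [← extG_apply ι a z]
    exact FamG.norm_apply_le _ _

variable [TopologicalSpace B] [T2Space B] [MulAction G B] [ContinuousSMul G B]
  [TopologicalSpace B'] [T2Space B'] [MulAction G B'] [ContinuousSMul G B']
  [TopologicalSpace B₀] [T2Space B₀] [MulAction G B₀] [ContinuousSMul G B₀]

/-- PROOF: `φ ∘ Prod.map p id`; `Prod.map p id` is proper (`IsProperMap.prodMap`, `isProperMap_id`), the support is contained in the preimage of the compact support of `φ`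
(`IsProperMap.isCompact_preimage`, `HasCompactSupport.intro`). -/
theorem exists_pullCc {p : B' → B} (hp : IsProperMap p) (φ : C_c(B × G, ℂ)) :
    ∃ ψ : C_c(B' × G, ℂ), ∀ z g, ψ (z, g) = φ (p z, g) := by
  refine ⟨⟨⟨fun q : B' × G => φ (p q.1, q.2), ?_⟩, ?_⟩, fun _ _ => rfl⟩
  · exact φ.continuous.comp ((hp.continuous.comp continuous_fst).prodMk continuous_snd)
  · refine HasCompactSupport.intro
      ((hp.prodMap isProperMap_id).isCompact_preimage φ.hasCompactSupport) fun q hq => ?_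
    have h1 : (p q.1, q.2) ∉ tsupport φ := hq
    have h2 : φ (p q.1, q.2) = 0 := image_eq_zero_of_notMem_tsupport h1
    exact h2

/-- PROOF: `FamG.ext`, `gen_apply`: the kernels at `z` are equal: `φ (a⁻¹ • p z, a⁻¹ * a') = ψ (a⁻¹ • z, a⁻¹ * a')`. -/
theorem pullG_gen {p : B' → B} (he : ∀ (g : G) z, p (g • z) = g • p z) {φ : C_c(B × G, ℂ)}
    {ψ : C_c(B' × G, ℂ)} (h : ∀ z g, ψ (z, g) = φ (p z, g)) (i j : J) :
    pullG p (gen φ i j : FamG G J B) = gen ψ i j := by
  refine FamG.ext fun z => ?_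
  rw [pullG_apply, gen_apply, gen_apply]
  have h1 : kat (fun b g => φ (b, g) • (Eu i j : BL J)) (p z) =
      kat (fun b g => ψ (b, g) • (Eu i j : BL J)) z := by
    funext a a'
    simp only [kat]
    rw [h, he]
  simp only [opF]
  rw [h1]

/-- PROOF: `cpG_induction`, `exists_pullCc`, `pullG_gen`, `continuous_pullG`. -/
theorem pullG_mem {p : B' → B} (hp : IsProperMap p) (he : ∀ (g : G) z, p (g • z) = g • p z) :
    ∀ x ∈ cpG G J B, pullG p x ∈ cpG G J B' := by
  refine cpG_induction (p := fun x => pullG p x ∈ cpG G J B') ?_ ?_ ?_ ?_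
  · exact isClosed_cpG.preimage (continuous_pullG p)
  · rw [map_zero]
    exact zero_mem _
  · intro x y hx hy
    rw [map_add]
    exact add_mem hx hy
  · intro φ i j
    obtain ⟨ψ, hψ⟩ := exists_pullCc (G := G) hp φ
    rw [pullG_gen he hψ]
    exact gen_mem ψ i j

/-- PROOF: the function which is `φ (z, g)` at `(ι z, g)`, and `0` at `(b, g)` for `b` not in the range of `ι`: its support is contained in the image `K` of the support of `φ` under
`Prod.map ι id`, a compact set; it is continuous on the open set `range (Prod.map ι id)` (an open embedding) and on the open complement of `K` (where it is zero): `continuous_iff_continuousAt`. -/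
theorem exists_extCc {ι : B₀ ↪ B} (hι : Topology.IsOpenEmbedding ι) (φ : C_c(B₀ × G, ℂ)) :
    ∃ ψ : C_c(B × G, ℂ), (∀ z g, ψ (ι z, g) = φ (z, g)) ∧
      ∀ b ∉ Set.range ι, ∀ g, ψ (b, g) = 0 := by
  classical
  have he : Topology.IsOpenEmbedding (Prod.map ι id : B₀ × G → B × G) :=
    hι.prodMap Topology.IsOpenEmbedding.id
  have hK : IsCompact (Prod.map ι id '' tsupport φ : Set (B × G)) :=
    φ.hasCompactSupport.isCompact.image he.continuous
  have h1 : ∀ w : B₀ × G, Function.extend (Prod.map ι id : B₀ × G → B × G) φ 0 (Prod.map ι id w) =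
      φ w := fun w => he.injective.extend_apply _ _ w
  have h2 : ∀ q : B × G, q ∉ Set.range (Prod.map ι id : B₀ × G → B × G) →
      Function.extend (Prod.map ι id : B₀ × G → B × G) φ 0 q = 0 := fun q hq =>
    Function.extend_apply' _ _ q fun ⟨w, hw⟩ => hq ⟨w, hw⟩
  have h3 : ∀ q : B × G, q ∉ (Prod.map ι id '' tsupport φ : Set (B × G)) →
      Function.extend (Prod.map ι id : B₀ × G → B × G) φ 0 q = 0 := by
    intro q hq
    by_cases hr : q ∈ Set.range (Prod.map ι id : B₀ × G → B × G)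
    · obtain ⟨w, rfl⟩ := hr
      rw [h1]
      exact image_eq_zero_of_notMem_tsupport fun hw => hq ⟨w, hw, rfl⟩
    · exact h2 q hr
  have hc : Continuous (Function.extend (Prod.map ι id : B₀ × G → B × G) φ 0) := by
    rw [continuous_iff_continuousAt]
    intro q
    by_cases hr : q ∈ Set.range (Prod.map ι id : B₀ × G → B × G)
    · obtain ⟨w, rfl⟩ := hr
      rw [← he.continuousAt_iff]
      have h4 : Function.extend (Prod.map ι id : B₀ × G → B × G) φ 0 ∘ Prod.map ι id = φ :=
        funext h1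
      rw [h4]
      exact φ.continuous.continuousAt
    · have h5 : q ∉ (Prod.map ι id '' tsupport φ : Set (B × G)) := by
        rintro ⟨w, -, rfl⟩
        exact hr ⟨w, rfl⟩
      have h6 : (Prod.map ι id '' tsupport φ : Set (B × G))ᶜ ∈ 𝓝 q :=
        hK.isClosed.isOpen_compl.mem_nhds h5
      have h7 : (fun _ : B × G => (0 : ℂ)) =ᶠ[𝓝 q]
          Function.extend (Prod.map ι id : B₀ × G → B × G) φ 0 :=
        Filter.eventually_of_mem h6 fun q' hq' => (h3 q' hq').symm
      exact continuousAt_const.congr h7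
  refine ⟨⟨⟨_, hc⟩, HasCompactSupport.intro hK h3⟩, fun z g => h1 (z, g), fun b hb g => ?_⟩
  refine h2 (b, g) ?_
  rintro ⟨w, hw⟩
  exact hb ⟨w.1, congrArg Prod.fst hw⟩

/-- PROOF: `FamG.ext`, `gen_apply`. At `b = ι z` the kernels are equal (`a⁻¹ • ι z = ι (a⁻¹ • z)`); at `b` outside of the range the kernel of the right side is `0`, since `a⁻¹ • b` is not in the range either
(`opk_zero`). -/
theorem extG_gen {ι : B₀ ↪ B} (he : ∀ (g : G) z, ι (g • z) = g • ι z) {φ : C_c(B₀ × G, ℂ)}
    {ψ : C_c(B × G, ℂ)} (h : ∀ z g, ψ (ι z, g) = φ (z, g))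
    (h' : ∀ b ∉ Set.range ι, ∀ g, ψ (b, g) = 0) (i j : J) :
    extG ι (gen φ i j : FamG G J B₀) = gen ψ i j := by
  refine FamG.ext fun b => ?_
  by_cases hb : b ∈ Set.range ι
  · obtain ⟨z, rfl⟩ := hb
    rw [extG_apply, gen_apply, gen_apply]
    have h1 : kat (fun b g => φ (b, g) • (Eu i j : BL J)) z =
        kat (fun b g => ψ (b, g) • (Eu i j : BL J)) (ι z) := by
      funext a a'
      simp only [kat]
      rw [← he, h]
    simp only [opF]
    rw [h1]
  · rw [extG_apply_of_notMem ι _ hb, gen_apply]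
    have h1 : kat (fun b g => ψ (b, g) • (Eu i j : BL J)) b = fun _ _ => (0 : BL J) := by
      funext a a'
      simp only [kat]
      rw [h', zero_smul]
      rintro ⟨z, hz⟩
      exact hb ⟨a • z, by rw [he, hz, smul_inv_smul]⟩
    simp only [opF]
    rw [h1, opk_zero]

/-- PROOF: `cpG_induction`, `exists_extCc`, `extG_gen`, `norm_extG` (continuity: `AddMonoidHomClass.continuous_of_bound`). -/
theorem extG_mem {ι : B₀ ↪ B} (hι : Topology.IsOpenEmbedding ι) (he : ∀ (g : G) z, ι (g • z) = g • ι z) :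
    ∀ x ∈ cpG G J B₀, extG ι x ∈ cpG G J B := by
  have hc : Continuous (extG ι : FamG G J B₀ →ₙ+* FamG G J B) :=
    AddMonoidHomClass.continuous_of_bound (extG ι : FamG G J B₀ →ₙ+* FamG G J B) 1
      (fun a => by rw [norm_extG, one_mul])
  refine cpG_induction (p := fun x => extG ι x ∈ cpG G J B) ?_ ?_ ?_ ?_
  · exact isClosed_cpG.preimage hc
  · rw [map_zero]
    exact zero_mem _
  · intro x y hx hy
    rw [map_add]
    exact add_mem hx hy
  · intro φ i j
    obtain ⟨ψ, hψ, hψ'⟩ := exists_extCc (G := G) hι φ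
    rw [extG_gen he hψ hψ']
    exact gen_mem ψ i j

end Pool.Agent.Lib.MP_aa9b81_an.Cb
end
end

section

/-!
# Continuous Bernoulli, part Ljb: split exactness
-/

open scoped ENNReal Topology Pointwise CompactlySupported
open Function Filter MeasureTheory

noncomputable section

set_option linter.unusedSectionVars false

namespace Pool.Agent.Lib.MP_aa9b81_an.Cb

open Cut Hs

variable {G J B B₀ B₁ : Type} [Group G] [TopologicalSpace G] [IsTopologicalGroup G]
  [LocallyCompactSpace G] [SecondCountableTopology G] [T2Space G] [MeasurableSpace G] [BorelSpace G]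
  [Nonempty J] [TopologicalSpace B] [T2Space B] [MulAction G B] [ContinuousSMul G B]
  [TopologicalSpace B₀] [T2Space B₀] [MulAction G B₀] [ContinuousSMul G B₀]
  [TopologicalSpace B₁] [T2Space B₁] [MulAction G B₁] [ContinuousSMul G B₁]

/-- `B` is the union of the open invariant subset `B₀` and of the closed invariant subset `B₁`, which is a proper equivariant
retract. -/
structure Split (ι : B₀ ↪ B) (i : B₁ → B) (r : B → B₁) : Prop where
  opn : Topology.IsOpenEmbedding ι
  eι : ∀ (g : G) z, ι (g • z) = g • ι z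
  pi : IsProperMap i
  ei : ∀ (g : G) z, i (g • z) = g • i z
  pr : IsProperMap r
  er : ∀ (g : G) z, r (g • z) = g • r z
  ret : ∀ z, r (i z) = z
  compl : ∀ b, b ∉ Set.range ι → b ∈ Set.range i

/-- Functions of compact support in `B₀ × G`, seen in `B × G`. PROOF: `Prod.map ι id` is an embedding, and the support of `ψ` is a compact subset of its range (`hK`), so its preimage is compact
(`Topology.IsInducing.isCompact_preimage_iff`-like), and `φ = ψ ∘ Prod.map ι id` (`HasCompactSupport.intro`). -/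
theorem exists_Cc_restrict {ι : B₀ ↪ B} (hι : Topology.IsOpenEmbedding ι) (ψ : C_c(B × G, ℂ))
    {K : Set (B × G)} (hK : IsCompact K) (hK' : ∀ p ∈ K, p.1 ∈ Set.range ι)
    (hs : ∀ p ∉ K, ψ p = 0) : ∃ φ : C_c(B₀ × G, ℂ), ∀ z g, φ (z, g) = ψ (ι z, g) := by
  have hf : Topology.IsOpenEmbedding (Prod.map ι (id : G → G)) := hι.prodMap .id
  have hKr : K ⊆ Set.range (Prod.map ι (id : G → G)) := by
    intro p hp
    obtain ⟨z, hz⟩ := hK' p hp
    exact ⟨(z, p.2), Prod.ext hz rfl⟩
  have hK2 : IsCompact (Prod.map ι (id : G → G) ⁻¹' K) :=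
    (hf.isEmbedding.isInducing.isCompact_preimage_iff hKr).2 hK
  refine ⟨⟨⟨fun p => ψ (Prod.map ι (id : G → G) p), ψ.continuous.comp hf.continuous⟩,
    HasCompactSupport.intro hK2 fun p hp => hs _ hp⟩, fun z g => rfl⟩

/-- A function vanishing on `B₁` is a limit of functions supported in `B₀`. PROOF: by `exists_bound ψ` let `C` be compact with `ψ (b, g) = 0` for `g ∉ C`. For `δ > 0` (with `δ cs C < ε`) let
`ψ' p = ψ p * (max (‖ψ p‖ - δ) 0 / max ‖ψ p‖ δ)` (as in `exists_Cc_near`, Lha.lean, whose statement does not give the support; or apply `exists_Cc_near`-like reasoning directly): `‖ψ p - ψ' p‖ ≤ δ`, and `ψ' p = 0` outside of the compact set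
`K = {p | δ ≤ ‖ψ p‖}` (a closed subset of the support of `ψ`). For `p ∈ K` the point `p.1` is not in the range of `i` (`hψ`), so it is in the range of `ι` (`h.compl`). So `exists_Cc_restrict` gives `φ`, and
`extG ι (gen φ i' j) = gen ψ' i' j` (`extG_gen`; `ψ' (b, g) = 0` for `b` not in the range of `ι` since `(b, g) ∉ K`), and `‖gen ψ i' j - gen ψ' i' j‖ = ‖gen (ψ - ψ') i' j‖ ≤ δ cs C` (`gen_sub`, `norm_gen_le`). -/
theorem Split.gen_near {ι : B₀ ↪ B} {i : B₁ → B} {r : B → B₁} (h : Split (G := G) ι i r)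
    (ψ : C_c(B × G, ℂ)) (hψ : ∀ z g, ψ (i z, g) = 0) (i' j : J) {ε : ℝ} (hε : 0 < ε) :
    ∃ φ : C_c(B₀ × G, ℂ), ‖(gen ψ i' j : FamG G J B) - extG ι (gen φ i' j)‖ ≤ ε := by
  obtain ⟨C, M, hC, _, _, hs⟩ := exists_bound ψ
  have hcs : 0 ≤ cs C := Real.sqrt_nonneg _
  set δ : ℝ := ε / (cs C + 1) with hδ
  have hδ0 : 0 < δ := div_pos hε (by linarith)
  have hδε : δ * cs C ≤ ε := by
    rw [hδ, div_mul_eq_mul_div, div_le_iff₀ (by linarith)]
    nlinarith
  have hKc : IsCompact {p | δ ≤ ‖ψ p‖} := by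
    refine ψ.hasCompactSupport.isCompact.of_isClosed_subset
      (isClosed_le continuous_const ψ.continuous.norm) fun p hp => subset_tsupport _ ?_
    intro h0
    have hp' : δ ≤ ‖ψ p‖ := hp
    rw [h0, norm_zero] at hp'
    linarith
  have hm : ∀ p, (max ‖ψ p‖ δ : ℝ) ≠ 0 := fun p => (lt_max_of_lt_right hδ0).ne'
  have hcont : Continuous fun p => ψ p * ((max (‖ψ p‖ - δ) 0 / max ‖ψ p‖ δ : ℝ) : ℂ) := by
    refine ψ.continuous.mul (Complex.continuous_ofReal.comp ?_)
    exact ((ψ.continuous.norm.sub continuous_const).max continuous_const).div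
      (ψ.continuous.norm.max continuous_const) hm
  have hz : ∀ p ∉ {p | δ ≤ ‖ψ p‖},
      ψ p * ((max (‖ψ p‖ - δ) 0 / max ‖ψ p‖ δ : ℝ) : ℂ) = 0 := by
    intro p hp
    have hp' : ‖ψ p‖ < δ := not_le.1 hp
    rw [max_eq_right (by linarith : ‖ψ p‖ - δ ≤ 0)]
    simp
  set ψ' : C_c(B × G, ℂ) := ⟨⟨fun p => ψ p * ((max (‖ψ p‖ - δ) 0 / max ‖ψ p‖ δ : ℝ) : ℂ), hcont⟩,
    HasCompactSupport.intro hKc hz⟩ with hψ'
  have hv : ∀ p, ψ' p = ψ p * ((max (‖ψ p‖ - δ) 0 / max ‖ψ p‖ δ : ℝ) : ℂ) := fun p => rfl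
  have hd : ∀ p, ‖(ψ - ψ') p‖ ≤ δ := by
    intro p
    rw [CompactlySupportedContinuousMap.sub_apply, hv]
    by_cases hp : δ ≤ ‖ψ p‖
    · rw [max_eq_left (by linarith : (0 : ℝ) ≤ ‖ψ p‖ - δ), max_eq_left hp]
      have hp0 : ‖ψ p‖ ≠ 0 := by linarith
      have e : ψ p - ψ p * (((‖ψ p‖ - δ) / ‖ψ p‖ : ℝ) : ℂ) = ψ p * ((δ / ‖ψ p‖ : ℝ) : ℂ) := by
        have e1 : (((‖ψ p‖ - δ) / ‖ψ p‖ : ℝ) : ℂ) = 1 - ((δ / ‖ψ p‖ : ℝ) : ℂ) := by
          rw [sub_div, div_self hp0]
          push_cast
          ring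
        rw [e1]
        ring
      rw [e, norm_mul, Complex.norm_real, Real.norm_eq_abs, abs_of_nonneg (by positivity),
        mul_div_cancel₀ _ hp0]
    · have hp' : ‖ψ p‖ < δ := not_le.1 hp
      rw [max_eq_right (by linarith : ‖ψ p‖ - δ ≤ 0), zero_div, Complex.ofReal_zero, mul_zero,
        sub_zero]
      exact hp'.le
  have hKι : ∀ p ∈ {p | δ ≤ ‖ψ p‖}, p.1 ∈ Set.range ι := by
    intro p hp
    by_contra hn
    obtain ⟨z, hz'⟩ := h.compl p.1 hn
    have h0 := hψ z p.2
    have hp' : δ ≤ ‖ψ p‖ := hp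
    have e : (i z, p.2) = p := Prod.ext hz' rfl
    rw [e] at h0
    rw [h0, norm_zero] at hp'
    linarith
  obtain ⟨φ, hφ⟩ := exists_Cc_restrict h.opn ψ' hKc hKι hz
  refine ⟨φ, ?_⟩
  have e : extG ι (gen φ i' j : FamG G J B₀) = gen ψ' i' j := by
    refine extG_gen h.eι (fun z g => (hφ z g).symm) (fun b hb g => hz _ fun hp => ?_) i' j
    exact hb (hKι (b, g) hp)
  rw [e, ← gen_sub]
  refine (norm_gen_le (ψ - ψ') hC hδ0.le hd (fun b g hg => ?_) i' j).trans hδε
  rw [CompactlySupportedContinuousMap.sub_apply, hv, hs b g hg]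
  simp

/-- PROOF: `extG ι` is isometric (`norm_extG`) and additive, so the image of the closed (so complete) set `cpG G J B₀` is closed: `IsClosed` of the image of a complete set under an isometry
(`Isometry.isClosedMap`-like for complete sets: `IsComplete.image`, `AddMonoidHomClass.isometry_of_norm`, `IsClosed.isComplete`, `IsUniformInducing.isComplete_range`...). -/
theorem isClosed_image_extG (ι : B₀ ↪ B) :
    IsClosed ((fun x => extG ι x) '' (cpG G J B₀ : Set (FamG G J B₀)) : Set (FamG G J B)) := by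
  have hiso : Isometry (fun x : FamG G J B₀ => extG ι x) :=
    AddMonoidHomClass.isometry_of_norm (extG ι) (norm_extG ι)
  exact ((hiso.isUniformInducing.isComplete_iff).2 isClosed_cpG.isComplete).isClosed

/-- PROOF: `cpG_induction` for the property `x - pullG r (pullG i x) ∈ image of cpG G J B₀` (closed by `isClosed_image_extG` and continuity; additive). For `x = gen φ i' j`: by `exists_pullCc`, `pullG_gen` there is `χ ∈ C_c(B × G)` with
`χ (b, g) = φ (i (r b), g)` and `pullG r (pullG i (gen φ i' j)) = gen χ i' j`; `ψ = φ - χ` vanishes on the points `(i z, g)` (`h.ret`); `Split.gen_near` and `isClosed_image_extG` (`mem_of_closure`). -/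
theorem Split.sub_mem {ι : B₀ ↪ B} {i : B₁ → B} {r : B → B₁} (h : Split (G := G) ι i r) :
    ∀ x ∈ cpG G J B, ∃ x₀ ∈ cpG G J B₀, extG ι x₀ = x - pullG r (pullG i x) := by
  have hcl : IsClosed ((fun x => extG ι x) '' (cpG G J B₀ : Set (FamG G J B₀)) :
    Set (FamG G J B)) := isClosed_image_extG ι
  have hcont : Continuous fun x : FamG G J B => x - pullG r (pullG i x) :=
    continuous_id.sub ((continuous_pullG r).comp (continuous_pullG i))
  refine cpG_induction (hcl.preimage hcont) ?_ ?_ ?_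
  · exact ⟨0, zero_mem _, by rw [map_zero, map_zero, map_zero, sub_zero]⟩
  · rintro x y ⟨x₀, hx₀, hx⟩ ⟨y₀, hy₀, hy⟩
    refine ⟨x₀ + y₀, add_mem hx₀ hy₀, ?_⟩
    rw [map_add, hx, hy, map_add, map_add]
    abel
  · intro φ i' j
    obtain ⟨χ₁, hχ₁⟩ := exists_pullCc (G := G) h.pi φ
    obtain ⟨χ, hχ⟩ := exists_pullCc (G := G) h.pr χ₁
    have e1 : pullG i (gen φ i' j : FamG G J B) = gen χ₁ i' j := pullG_gen h.ei hχ₁ i' j
    have e2 : pullG r (gen χ₁ i' j : FamG G J B₁) = gen χ i' j := pullG_gen h.er hχ i' j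
    have hmem : (gen φ i' j : FamG G J B) - gen χ i' j ∈
        ((fun x => extG ι x) '' (cpG G J B₀ : Set (FamG G J B₀)) : Set (FamG G J B)) := by
      rw [← hcl.closure_eq, Metric.mem_closure_iff]
      intro ε hε
      obtain ⟨φ₀, hφ₀⟩ := h.gen_near (J := J) (φ - χ) (fun z g => by
        rw [CompactlySupportedContinuousMap.sub_apply, hχ, h.ret, hχ₁, sub_self]) i' j
        (half_pos hε)
      refine ⟨_, ⟨gen φ₀ i' j, gen_mem φ₀ i' j, rfl⟩, ?_⟩
      rw [dist_eq_norm, ← gen_sub]
      exact hφ₀.trans_lt (half_lt_self hε)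
    obtain ⟨x₀, hx₀, hx⟩ := hmem
    refine ⟨x₀, hx₀, ?_⟩
    rw [e1, e2]
    exact hx

/-- PROOF: `norm`: `norm_extG`; `mem`: `extG_mem`; `ker`: `Split.sub_mem`; `lift`: `a = pullG r b`, `‖pullG r b‖ ≤ ‖b‖`, `pullG i (pullG r b) = b` (`h.ret`), `pullG_mem`; `isClosed_cpG`. -/
theorem Split.exactSeq {ι : B₀ ↪ B} {i : B₁ → B} {r : B → B₁} (h : Split (G := G) ι i r) :
    ExactSeq (extG ι : FamG G J B₀ →ₙ+* FamG G J B) (pullG i) (cpG G J B₀) (cpG G J B)
      (cpG G J B₁) := by
  refine ⟨norm_extG ι, extG_mem h.opn h.eι, fun a ha ha0 => ?_, ⟨pullG_mem h.pi h.ei,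
    fun b hb => ⟨pullG r b, pullG_mem h.pr h.er b hb, ?_, ?_⟩⟩, isClosed_cpG, isClosed_cpG,
    isClosed_cpG⟩
  · obtain ⟨x₀, hx₀, hx⟩ := h.sub_mem a ha
    refine ⟨x₀, hx₀, ?_⟩
    rw [hx, ha0, map_zero, sub_zero]
  · refine FamG.ext fun z => ?_
    rw [pullG_apply, pullG_apply, h.ret]
  · have h1 := norm_pullG_le r b
    have h2 := norm_nonneg b
    linarith

/-- If `K₁(A(B₀)) = 0` then the pull back along the retraction is an isomorphism `K₁(A(B₁)) → K₁(A(B))`. PROOF: injective: `K1.map_injective`: if `Units.map (pullG r) u ∈ E1` then apply `pullG i` (`E1_map`, `norm_pullG_le`):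
`u = Units.map (pullG i) (Units.map (pullG r) u) ∈ E1`. Surjective: `K1.map_surjective`: for `v` let `u = Units.map (pullG i) v` (`GL1_map`); `(Units.map (pullG r) u)⁻¹ * v ∈ GL1` is mapped to `1` by `pullG i`, so it is in `E1` by `ExactSeq.inj` (`Split.exactSeq`, `h0`). -/
theorem Split.bijective {ι : B₀ ↪ B} {i : B₁ → B} {r : B → B₁} (h : Split (G := G) ι i r)
    (h0 : GL1 (cpG G J B₀) ≤ E1 (cpG G J B₀)) :
    Bijective (K1.map (pullG r : FamG G J B₁ →+* FamG G J B) (continuous_pullG r)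
      (pullG_mem h.pr h.er)) := by
  have hri : ∀ b : FamG G J B₁, pullG i (pullG r b) = b := fun b => FamG.ext fun z => by
    rw [pullG_apply, pullG_apply, h.ret]
  have hmap : ∀ u : (FamG G J B₁)ˣ,
      Units.map ((pullG i : FamG G J B →+* FamG G J B₁) : FamG G J B →* FamG G J B₁)
        (Units.map ((pullG r : FamG G J B₁ →+* FamG G J B) : FamG G J B₁ →* FamG G J B) u) = u :=
    fun u => Units.ext (hri u)
  constructor
  · refine K1.map_injective isClosed_cpG isClosed_cpG _ _ fun u hu hu' => ?_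
    have h1 := E1_map (norm_pullG_le i) (pullG_mem h.pi h.ei) hu'
    rwa [hmap u] at h1
  · refine K1.map_surjective isClosed_cpG _ _ fun v hv => ?_
    refine ⟨Units.map ((pullG i : FamG G J B →+* FamG G J B₁) : FamG G J B →* FamG G J B₁) v,
      GL1_map (pullG_mem h.pi h.ei) hv, ?_⟩
    refine h.exactSeq.inj h0 (mul_mem (inv_mem (GL1_map (pullG_mem h.pr h.er)
      (GL1_map (pullG_mem h.pi h.ei) hv))) hv) ?_
    rw [map_mul, map_inv, hmap, inv_mul_cancel]
    exact one_mem _

end Pool.Agent.Lib.MP_aa9b81_an.Cb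
end
end
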