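import Pool.Agent.Lib.MP_aa9b81_an.Mg.G065
import Pool.Agent.Lib.MP_aa9b81_an.Mg.G064
import Pool.Agent.Lib.MP_aa9b81_an.Mg.G061
import Pool.Agent.Lib.MP_aa9b81_an.Mg.G077

section

/-!
# Continuous Bernoulli, part F12: the smallness theorems
-/

open scoped ENNReal Topology
open Function Filter

noncomputable section

set_option linter.unusedSectionVars false

namespace Pool.Agent.Lib.MP_aa9b81_an.Cb

open Cut Hs

variable {G O : Type} [Group G] [TopologicalSpace G] [IsTopologicalGroup G] [DecidableEq G]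
  [LinearOrder O]

/-- A separated set has finitely many points in a compact set. -/
theorem Sep.finite_inter {V D : Set G} (hV : V ∈ 𝓝 (1 : G)) (hD : Sep V D) {C : Set G}
    (hC : IsCompact C) : (D ∩ C).Finite := by
  obtain ⟨N, hN⟩ := exists_card_le hV hC
  by_contra h
  obtain ⟨t, ht, htc⟩ := Set.Infinite.exists_subset_card_eq h (N + 1)
  have h1 := hN t (hD.mono fun i hi => (ht hi).1) fun i hi => (ht hi).2
  omega

/-- The cutoff to the large sets in `D`, as an operator. -/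
def Lg (R : ℝ) (w : G → ℝ) (D : Set G) : BL (Bs G) := (1 - Om R w) * Es D

open Classical in
/-- The cutoff to the large sets in `D`, as a function. -/
def lg (R : ℝ) (w : G → ℝ) (D : Set G) (F : Finset G) : ℝ :=
  if (F : Set G) ⊆ D then 1 - om R w F else 0

theorem Lg_eq (R : ℝ) (w : G → ℝ) (D : Set G) :
    Lg R w D = dia fun b : Bs G => ((lg R w D b.F : ℝ) : ℂ) := one_sub_Om_mul_Es R w D

theorem abs_lg_le (R : ℝ) (w : G → ℝ) (D : Set G) (F : Finset G) : |lg R w D F| ≤ 1 := by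
  unfold lg
  split_ifs
  · rw [abs_of_nonneg (by linarith [om_le_one R w F])]
    linarith [om_nonneg R w F]
  · simp

theorem norm_lg_le (R : ℝ) (w : G → ℝ) (D : Set G) (b : Bs G) :
    ‖((lg R w D b.F : ℝ) : ℂ)‖ ≤ 1 := by
  rw [Complex.norm_real]
  exact abs_lg_le R w D b.F

theorem of_lg_ne_zero {R : ℝ} (hR : 0 < R) {w : G → ℝ} {D : Set G} {F : Finset G}
    (h : lg R w D F ≠ 0) : (F : Set G) ⊆ D ∧ R < nF F w := by
  unfold lg at h
  split_ifs at h with h1
  · exact ⟨h1, lt_of_om_ne_one hR fun h2 => h (by rw [h2, sub_self])⟩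
  · exact absurd rfl h

theorem norm_Lg_le (R : ℝ) (w : G → ℝ) (D : Set G) : ‖Lg R w D‖ ≤ 1 := by
  rw [Lg_eq]
  exact norm_dia_le zero_le_one (norm_lg_le R w D)

/-- The two operators `T` are close on large sets. -/
theorem Wc.norm_TT_sub_mul_Lg (W : Wc G) (e : G ↪ O) {V : Set G} (hV : V ∈ 𝓝 (1 : G))
    {C : Set G} (hC : IsCompact C) {η : ℝ} (hη : 0 < η) :
    ∃ R₀ : ℝ, 0 < R₀ ∧ ∀ R : ℝ, R₀ ≤ R → ∀ g ∈ C, ∀ s : ℝ, 0 ≤ s → s ≤ 1 → ∀ D : Set G,
      Sep V D → ‖(TT e s W.w - TT e s (W.tr g)) * Lg R (W.tr g) D‖ ≤ η := by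
  obtain ⟨R₀, hR₀, h⟩ := W.exists_uu_le hV hC hη
  refine ⟨R₀, hR₀, fun R hR g hg s hs hs1 D hD => ?_⟩
  rw [Lg_eq]
  refine norm_Cl_sub_mul_dia_le e (CB_uu s W.w) (CB_uu s (W.tr g)) (abs_lg_le R (W.tr g) D)
    hη.le fun F hF => ?_
  obtain ⟨h1, h2⟩ := of_lg_ne_zero (hR₀.trans_le hR) hF
  exact h g hg s hs hs1 F (hD.mono h1) (hR.trans h2.le)

/-- Large sets for `w^(g)` are large for `w`, also outside `C₁`. -/
theorem Wc.exists_sdiff (W : Wc G) {V : Set G} (hV : V ∈ 𝓝 (1 : G)) {C C₁ : Set G}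
    (hC : IsCompact C) (hC₁ : IsCompact C₁) :
    ∃ m : ℝ, 0 ≤ m ∧ (∀ F : Finset G, Sep V (F : Set G) → (F : Set G) ⊆ C₁ → nF F W.w ≤ m) ∧
      ∀ R₁ : ℝ, 0 < R₁ → ∃ R₀ : ℝ, 0 < R₀ ∧ ∀ g ∈ C, ∀ F L : Finset G, Sep V (F : Set G) →
        Sep V (L : Set G) → (L : Set G) ⊆ C₁ → R₀ ≤ nF F (W.tr g) → R₁ ≤ nF (F \ L) W.w := by
  obtain ⟨m, hm, hmC⟩ := exists_nF_le hV hC₁ W.cont
  obtain ⟨c, hc, hcC⟩ := W.exists_sub_le hC
  obtain ⟨R₂, hR₂, h2⟩ := W.exists_sqrt_card_le hV (η := 1 / (2 * (c + 1))) (by positivity)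
  refine ⟨m, hm, hmC, fun R₁ hR₁ => ⟨max R₂ (2 * (R₁ + m)), lt_max_of_lt_left hR₂,
    fun g hg F L hF hL hLC hR => ?_⟩⟩
  have h3 := h2 g F hF ((le_max_left _ _).trans hR)
  have h4 := hcC g hg F
  have h5 : nF F (W.tr g) ≤ nF F W.w + nF F fun i => W.w i - W.tr g i := by
    have := nF_le_add_sub F (W.tr g) W.w
    rwa [nF_sub_comm] at this
  have h6 : c * √(F.card : ℝ) ≤ nF F (W.tr g) / 2 := by
    have h7 := mul_le_mul_of_nonneg_left h3 hc
    have h8 : c * (1 / (2 * (c + 1)) * nF F (W.tr g)) = c / (c + 1) * (nF F (W.tr g) / 2) := by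
      field_simp
    rw [h8] at h7
    have h9 : c / (c + 1) ≤ 1 := by
      rw [div_le_one (by linarith)]
      linarith
    have h10 : 0 ≤ nF F (W.tr g) / 2 := by
      have := nF_nonneg F (W.tr g)
      linarith
    nlinarith
  have h7 : 2 * (R₁ + m) ≤ nF F (W.tr g) := (le_max_right _ _).trans hR
  have h8 : nF F W.w ≤ nF (F \ L) W.w + nF L W.w := by
    refine (nF_mono ?_ W.w).trans (nF_union_le W.w (F \ L) L)
    intro i hi
    rw [Finset.mem_union, Finset.mem_sdiff]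
    by_cases h : i ∈ L
    · exact Or.inr h
    · exact Or.inl ⟨hi, h⟩
  have h9 := hmC L hL hLC
  linarith

/-- SMALLNESS (S1), `s = 0`. -/
theorem Wc.small_sig (W : Wc G) (e : G ↪ O) {V : Set G} (hV : V ∈ 𝓝 (1 : G)) {C C₁ : Set G}
    (hC : IsCompact C) (hC₁ : IsCompact C₁) {η : ℝ} (hη : 0 < η) :
    ∃ R₀ : ℝ, 0 < R₀ ∧ ∀ R : ℝ, R₀ ≤ R → ∀ g ∈ C, ∀ D : Set G, Sep V D →
      ∀ f : (G → Bool) → ℂ, Continuous f → (∀ T, ‖f T‖ ≤ 1) → Dep D 0 f → ∀ ε : ℝ, Dep C₁ ε f →
      ∀ θ : ℝ, ‖(TT e 0 W.w * sig θ f - sig θ f * TT e 0 (W.tr g)) * Lg R (W.tr g) D‖ ≤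
        2 * ε + η := by
  obtain ⟨m, hm, hmC, hR1⟩ := W.exists_sdiff hV hC hC₁
  obtain ⟨R₁, hR₁⟩ : ∃ R₁ : ℝ, R₁ = 8 * (m + 1) / η := ⟨_, rfl⟩
  have hR₁0 : 0 < R₁ := by rw [hR₁]; positivity
  obtain ⟨R₀, hR₀, h0⟩ := hR1 R₁ hR₁0
  obtain ⟨R₂, hR₂, h2⟩ := W.norm_TT_sub_mul_Lg e hV hC (show 0 < η / 2 by linarith)
  refine ⟨max R₀ R₂, lt_max_of_lt_left hR₀, fun R hR g hg D hD f hf hf1 hfD ε hfε θ => ?_⟩
  have hRpos : 0 < R := (lt_max_of_lt_left hR₀).trans_le hR
  have hfin := hD.finite_inter hV hC₁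
  obtain ⟨L, hL⟩ : ∃ L : Finset G, (L : Set G) = D ∩ C₁ := ⟨hfin.toFinset, hfin.coe_toFinset⟩
  have hLD : (L : Set G) ⊆ D := by rw [hL]; exact Set.inter_subset_left
  have hLC : (L : Set G) ⊆ C₁ := by rw [hL]; exact Set.inter_subset_right
  have hLdep : Dep (L : Set G) ε f := by
    rw [hL, Set.inter_comm]
    exact hfD.inter hfε
  have hε : 0 ≤ ε := (norm_nonneg _).trans (hfε (fun _ => false) (fun _ => false) fun _ _ => rfl)
  obtain ⟨n, hn⟩ : ∃ n : BL (Bs G), n = sigL L θ fun T => f (rs L T) := ⟨_, rfl⟩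
  have hn1 : ‖n‖ ≤ 1 := by
    rw [hn]
    exact norm_sigL_le zero_le_one (fun T => hf1 _) L θ
  have hclose : ‖sig θ f - n‖ ≤ ε := by
    rw [hn]
    exact norm_sig_sub_le hf hLdep θ
  obtain ⟨P, hP⟩ : ∃ P : BL (Bs G), P = Lg R (W.tr g) D := ⟨_, rfl⟩
  have hP1 : ‖P‖ ≤ 1 := by
    rw [hP]
    exact norm_Lg_le R (W.tr g) D
  -- the commutator
  have hcomm : ‖(TT e 0 W.w * n - n * TT e 0 W.w) * P‖ ≤ η / 2 := by
    rw [hP, Lg_eq, hn]
    have h3 := norm_comm_sigL_le e W.one_le L θ (f := fun T => f (rs L T)) (fun T => hf1 _) hR₁0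
      (hmC L (hD.mono hLD) hLC) (abs_lg_le R (W.tr g) D) (fun F hF => by
        obtain ⟨h4, h5⟩ := of_lg_ne_zero hRpos hF
        exact h0 g hg F L (hD.mono h4) (hD.mono hLD) hLC
          ((le_max_left _ _).trans (hR.trans h5.le)))
    refine h3.trans ?_
    rw [hR₁, div_le_iff₀ (by positivity)]
    have h4 : η / 2 * (8 * (m + 1) / η) = 4 * (m + 1) := by
      field_simp
      ring
    rw [h4]
    linarith
  have hdiff := h2 R ((le_max_right _ _).trans hR) g hg 0 le_rfl zero_le_one D hD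
  rw [← hP] at hdiff ⊢
  have hT := norm_TT_le e 0 W.w
  have hT' := norm_TT_le e 0 (W.tr g)
  have key : (TT e 0 W.w * sig θ f - sig θ f * TT e 0 (W.tr g)) * P =
      (TT e 0 W.w * (sig θ f - n) - (sig θ f - n) * TT e 0 (W.tr g)) * P +
      ((TT e 0 W.w * n - n * TT e 0 W.w) * P + n * ((TT e 0 W.w - TT e 0 (W.tr g)) * P)) := by
    simp only [mul_sub, sub_mul, mul_assoc]
    abel
  rw [key]
  have a1 : ‖(TT e 0 W.w * (sig θ f - n) - (sig θ f - n) * TT e 0 (W.tr g)) * P‖ ≤ 2 * ε := by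
    have b1 : ‖TT e 0 W.w * (sig θ f - n)‖ ≤ 1 * ε :=
      (norm_mul_le _ _).trans (mul_le_mul hT hclose (norm_nonneg _) zero_le_one)
    have b2 : ‖(sig θ f - n) * TT e 0 (W.tr g)‖ ≤ ε * 1 :=
      (norm_mul_le _ _).trans (mul_le_mul hclose hT' (norm_nonneg _) hε)
    have b3 : ‖TT e 0 W.w * (sig θ f - n) - (sig θ f - n) * TT e 0 (W.tr g)‖ ≤ 2 * ε := by
      refine (norm_sub_le _ _).trans ?_
      linarith
    exact (norm_mul_le _ _).trans ((mul_le_mul b3 hP1 (norm_nonneg _) (by positivity)).trans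
      (by rw [mul_one]))
  have a2 : ‖n * ((TT e 0 W.w - TT e 0 (W.tr g)) * P)‖ ≤ η / 2 :=
    (norm_mul_le _ _).trans ((mul_le_mul hn1 hdiff (norm_nonneg _) zero_le_one).trans
      (by rw [one_mul]))
  have a3 := norm_add_le ((TT e 0 W.w * (sig θ f - n) - (sig θ f - n) * TT e 0 (W.tr g)) * P)
    ((TT e 0 W.w * n - n * TT e 0 W.w) * P + n * ((TT e 0 W.w - TT e 0 (W.tr g)) * P))
  have a4 := norm_add_le ((TT e 0 W.w * n - n * TT e 0 W.w) * P)
    (n * ((TT e 0 W.w - TT e 0 (W.tr g)) * P))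
  linarith

/-- SMALLNESS (S1) for the functions of `F`, all `s`. -/
theorem Wc.small_F (W : Wc G) (e : G ↪ O) {V : Set G} (hV : V ∈ 𝓝 (1 : G)) {C : Set G}
    (hC : IsCompact C) {η : ℝ} (hη : 0 < η) :
    ∃ R₀ : ℝ, 0 < R₀ ∧ ∀ R : ℝ, R₀ ≤ R → ∀ g ∈ C, ∀ D : Set G, Sep V D →
      ∀ h : Finset G → ℂ, (∀ F, ‖h F‖ ≤ 1) → ∀ s : ℝ, 0 ≤ s → s ≤ 1 →
      ‖(TT e s W.w * (dia fun b : Bs G => h b.F) - (dia fun b : Bs G => h b.F) *
        TT e s (W.tr g)) * Lg R (W.tr g) D‖ ≤ η := by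
  obtain ⟨R₀, hR₀, h1⟩ := W.norm_TT_sub_mul_Lg e hV hC hη
  refine ⟨R₀, hR₀, fun R hR g hg D hD h hh s hs hs1 => ?_⟩
  rw [TT_comm_dia e s W.w zero_le_one hh, ← mul_sub, mul_assoc]
  have h2 := h1 R hR g hg s hs hs1 D hD
  have h3 : ‖(dia fun b : Bs G => h b.F : BL (Bs G))‖ ≤ 1 := norm_dia_le zero_le_one fun b => hh _
  exact (norm_mul_le _ _).trans ((mul_le_mul h3 h2 (norm_nonneg _) zero_le_one).trans
    (by rw [one_mul]))

/-- Operators `Cl` whose coefficients vanish off `L` do the whole commutator with functions of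
`(F, S ∩ L)`. PROOF: coordinates: `(tog j b).S ∩ L = b.S ∩ L` for `j ∉ L`. -/
theorem comm_dia_of_dep {I O : Type} [DecidableEq I] [LinearOrder O] (e : I ↪ O)
    {a : Finset I → I → ℝ} {C₀ : ℝ} (ha : CB a C₀) {h : Bs I → ℂ} (hh : ∀ b, ‖h b‖ ≤ 1)
    {L : Finset I} (hL : ∀ b b' : Bs I, b.F = b'.F → b.S ∩ L = b'.S ∩ L → h b = h b') :
    Cl e a * dia h - dia h * Cl e a =
      (Cl e fun F i => if i ∈ L then a F i else 0) * dia h -
        dia h * Cl e fun F i => if i ∈ L then a F i else 0 := by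
  have ha' : CB (fun F i => if i ∈ L then a F i else 0) C₀ := by
    refine ⟨ha.nonneg, fun F => (Finset.sum_le_sum fun i _ => ?_).trans (ha.bdd F)⟩
    split_ifs
    · exact le_rfl
    · rw [zero_pow (by norm_num)]
      exact sq_nonneg _
  refine ContinuousLinearMap.ext fun ξ => ?_
  ext b
  have e1 : ∀ X Y : BL (Bs I), ((X - Y) ξ : Bs I → ℂ) b = (X ξ : Bs I → ℂ) b -
      (Y ξ : Bs I → ℂ) b := fun _ _ => rfl
  rw [e1, e1, mul_apply_eq_comp, mul_apply_eq_comp, mul_apply_eq_comp, mul_apply_eq_comp,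
    Cl_apply e ha, Cl_apply e ha', dia_apply zero_le_one hh, dia_apply zero_le_one hh,
    Cl_apply e ha, Cl_apply e ha']
  unfold clF
  rw [Finset.mul_sum, Finset.mul_sum, ← Finset.sum_sub_distrib, ← Finset.sum_sub_distrib]
  refine Finset.sum_congr rfl fun i hi => ?_
  rw [dia_apply zero_le_one hh]
  beta_reduce
  by_cases hiL : i ∈ L
  · rw [if_pos hiL]
  · rw [if_neg hiL]
    have h1 : h (tog i b) = h b := by
      refine hL _ _ (tog_of_mem hi).1 ?_
      rw [(tog_of_mem hi).2]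
      ext k
      rw [Finset.mem_inter, Finset.mem_inter, mem_tg]
      by_cases hk : k = i
      · subst hk
        simp [hiL]
      · simp [hk]
    rw [h1]
    push_cast
    ring

/-- SMALLNESS (S2). -/
theorem Wc.small_S (W : Wc G) (e : G ↪ O) {V : Set G} (hV : V ∈ 𝓝 (1 : G)) {C C₁ : Set G}
    (hC : IsCompact C) (hC₁ : IsCompact C₁) {η : ℝ} (hη : 0 < η) :
    ∃ R₀ : ℝ, 0 < R₀ ∧ ∀ R : ℝ, R₀ ≤ R → ∀ g ∈ C, ∀ D : Set G, Sep V D →
      ∀ h : Bs G → ℂ, (∀ b, ‖h b‖ ≤ 1) → ∀ ε : ℝ, (∀ b b' : Bs G, (b.F : Set G) ⊆ D →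
        b.F = b'.F → (b.S : Set G) ∩ C₁ = (b'.S : Set G) ∩ C₁ → ‖h b - h b'‖ ≤ ε) →
      ‖(TT e 0 W.w * dia h - dia h * TT e 0 (W.tr g)) * Lg R (W.tr g) D‖ ≤ 2 * ε + η := by
  classical
  obtain ⟨m, hm, hmC, hR1⟩ := W.exists_sdiff hV hC hC₁
  obtain ⟨R₁, hR₁⟩ : ∃ R₁ : ℝ, R₁ = 8 * (m + 1) / η := ⟨_, rfl⟩
  have hR₁0 : 0 < R₁ := by rw [hR₁]; positivity
  obtain ⟨R₀, hR₀, h0⟩ := hR1 R₁ hR₁0
  obtain ⟨R₂, hR₂, h2⟩ := W.norm_TT_sub_mul_Lg e hV hC (show 0 < η / 2 by linarith)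
  refine ⟨max R₀ R₂, lt_max_of_lt_left hR₀, fun R hR g hg D hD h hh ε hε' => ?_⟩
  have hRpos : 0 < R := (lt_max_of_lt_left hR₀).trans_le hR
  have hfin := hD.finite_inter hV hC₁
  obtain ⟨L, hL⟩ : ∃ L : Finset G, (L : Set G) = D ∩ C₁ := ⟨hfin.toFinset, hfin.coe_toFinset⟩
  have hLD : (L : Set G) ⊆ D := by rw [hL]; exact Set.inter_subset_left
  have hLC : (L : Set G) ⊆ C₁ := by rw [hL]; exact Set.inter_subset_right
  have hε : 0 ≤ ε := (norm_nonneg _).trans (hε' Bs.vac Bs.vac (by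
    intro i hi
    exact absurd hi (Finset.notMem_empty i)) rfl rfl)
  -- the modified function
  obtain ⟨h', hh'⟩ : ∃ h' : Bs G → ℂ, h' = fun b => h (Bs.mk b.F (b.S ∩ L)
    (Finset.inter_subset_left.trans b.sub)) := ⟨_, rfl⟩
  have hh'1 : ∀ b, ‖h' b‖ ≤ 1 := fun b => by rw [hh']; exact hh _
  have hdep : ∀ b b' : Bs G, b.F = b'.F → b.S ∩ L = b'.S ∩ L → h' b = h' b' := by
    intro b b' h1 h3
    rw [hh']
    exact congrArg h (Bs.ext h1 h3)
  have hclose : ∀ b : Bs G, (b.F : Set G) ⊆ D → ‖h b - h' b‖ ≤ ε := by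
    intro b hb
    rw [hh']
    refine hε' _ _ hb rfl ?_
    rw [Bs.mk_S, Finset.coe_inter, hL]
    ext i
    constructor
    · rintro ⟨h1, h3⟩
      exact ⟨⟨h1, hb (b.sub h1), h3⟩, h3⟩
    · rintro ⟨⟨h1, _⟩, h3⟩
      exact ⟨h1, h3⟩
  obtain ⟨P, hP⟩ : ∃ P : BL (Bs G), P = Lg R (W.tr g) D := ⟨_, rfl⟩
  have hPd : P = dia fun b : Bs G => ((lg R (W.tr g) D b.F : ℝ) : ℂ) := by rw [hP, Lg_eq]
  have hP1 : ‖P‖ ≤ 1 := by
    rw [hP]
    exact norm_Lg_le R (W.tr g) D
  have hdiaP : ∀ k : Bs G → ℂ, (∀ b, ‖k b‖ ≤ 2) → dia k * P = P * dia k := by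
    intro k hk
    rw [hPd]
    refine ContinuousLinearMap.ext fun ξ => ?_
    ext b
    rw [mul_apply_eq_comp, mul_apply_eq_comp, dia_apply zero_le_two hk,
      dia_apply zero_le_one (norm_lg_le R (W.tr g) D),
      dia_apply zero_le_one (norm_lg_le R (W.tr g) D), dia_apply zero_le_two hk]
    ring
  have hTP : ∀ a : Finset G → G → ℝ, ∀ C₀ : ℝ, CB a C₀ → Cl e a * P = P * Cl e a := by
    intro a C₀ ha
    rw [hPd]
    exact Cl_comm_dia e ha (φ := fun F => ((lg R (W.tr g) D F : ℝ) : ℂ)) zero_le_one fun F => by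
      rw [Complex.norm_real]
      exact abs_lg_le R (W.tr g) D F
  have hnP : ‖(dia h - dia h') * P‖ ≤ ε := by
    have h1 : (dia h - dia h') * P = dia fun b : Bs G => (h b - h' b) *
        ((lg R (W.tr g) D b.F : ℝ) : ℂ) := by
      rw [hPd]
      refine ContinuousLinearMap.ext fun ξ => ?_
      ext b
      have e1 : (((dia h - dia h') * (dia fun b : Bs G => ((lg R (W.tr g) D b.F : ℝ) : ℂ)) :
          BL (Bs G)) ξ : Bs G → ℂ) b =
          (dia h (dia (fun b : Bs G => ((lg R (W.tr g) D b.F : ℝ) : ℂ)) ξ) : Bs G → ℂ) b -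
          (dia h' (dia (fun b : Bs G => ((lg R (W.tr g) D b.F : ℝ) : ℂ)) ξ) : Bs G → ℂ) b := rfl
      rw [e1, dia_apply zero_le_one hh, dia_apply zero_le_one hh'1,
        dia_apply zero_le_one (norm_lg_le R (W.tr g) D),
        dia_apply (C := 2) zero_le_two (fun b => by
          rw [norm_mul]
          have b1 := norm_sub_le (h b) (h' b)
          have b2 := hh b
          have b3 := hh'1 b
          have b4 := norm_lg_le R (W.tr g) D b
          have b5 := norm_nonneg (h b - h' b)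
          nlinarith [norm_nonneg ((lg R (W.tr g) D b.F : ℝ) : ℂ)])]
      ring
    rw [h1]
    refine norm_dia_le hε fun b => ?_
    rw [norm_mul]
    by_cases hb : (b.F : Set G) ⊆ D
    · have b1 := hclose b hb
      have b4 := norm_lg_le R (W.tr g) D b
      have b5 := norm_nonneg (h b - h' b)
      nlinarith [norm_nonneg ((lg R (W.tr g) D b.F : ℝ) : ℂ)]
    · have b1 : lg R (W.tr g) D b.F = 0 := if_neg hb
      rw [b1]
      simpa using hε
  -- the commutator with `h'`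
  have hcomm : ‖(TT e 0 W.w * dia h' - dia h' * TT e 0 W.w) * P‖ ≤ η / 2 := by
    unfold TT
    rw [comm_dia_of_dep e (CB_uu 0 W.w) hh'1 hdep]
    obtain ⟨a, ha⟩ : ∃ a : Finset G → G → ℝ, a = fun F i => if i ∈ L then uu 0 W.w F i else 0 :=
      ⟨_, rfl⟩
    have hCB : CB a 1 := by
      rw [ha]
      refine ⟨zero_le_one, fun F => (Finset.sum_le_sum fun i _ => ?_).trans ((CB_uu 0 W.w).bdd F)⟩
      show (if i ∈ L then uu 0 W.w F i else 0) ^ 2 ≤ _
      split_ifs
      · exact le_rfl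
      · rw [zero_pow (by norm_num)]
        exact sq_nonneg _
    rw [← ha]
    have hX : ‖Cl e a * P‖ ≤ η / 4 := by
      rw [hPd]
      refine norm_Cl_mul_dia_le e hCB (abs_lg_le R (W.tr g) D) (by linarith) fun F hF => ?_
      obtain ⟨h4, h5⟩ := of_lg_ne_zero hRpos hF
      have h6 := h0 g hg F L (hD.mono h4) (hD.mono hLD) hLC
        ((le_max_left _ _).trans (hR.trans h5.le))
      have h7 : R₁ ≤ nF F W.w := h6.trans (nF_mono Finset.sdiff_subset W.w)
      have h8 : 0 < nF F W.w := hR₁0.trans_le h7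
      have hne : F.Nonempty := by
        rw [Finset.nonempty_iff_ne_empty]
        rintro rfl
        rw [nF_empty] at h8
        exact lt_irrefl _ h8
      have h9 : nF F (a F) = (nF F fun i => if i ∈ L then W.w i else 0) / nF F W.w := by
        rw [← nF_div F h8.le]
        refine nF_congr fun i _ => ?_
        rw [ha]
        show (if i ∈ L then uu 0 W.w F i else 0) = (if i ∈ L then W.w i else 0) / nF F W.w
        rw [uu_zero W.one_le hne]
        split_ifs
        · rfl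
        · rw [zero_div]
      have h10 : (nF F fun i => if i ∈ L then W.w i else 0) ≤ nF L W.w := by
        rw [nF_le_iff (nF_nonneg _ _), nF_sq]
        calc ∑ i ∈ F, (if i ∈ L then W.w i else 0) ^ 2
            = ∑ i ∈ F.filter fun i => i ∈ L, W.w i ^ 2 := by
              rw [Finset.sum_filter]
              refine Finset.sum_congr rfl fun i _ => ?_
              split_ifs
              · rfl
              · rw [zero_pow (by norm_num)]
          _ ≤ _ := Finset.sum_le_sum_of_subset_of_nonneg (fun i hi =>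
              (Finset.mem_filter.1 hi).2) fun _ _ _ => sq_nonneg _
      have h11 := hmC L (hD.mono hLD) hLC
      rw [h9, div_le_iff₀ h8]
      have h12 : η / 4 * R₁ = 2 * (m + 1) := by
        rw [hR₁]
        field_simp
        ring
      have h13 : η / 4 * R₁ ≤ η / 4 * nF F W.w := mul_le_mul_of_nonneg_left h7 (by linarith)
      linarith
    have hdh' : dia h' * P = P * dia h' := hdiaP h' fun b => (hh'1 b).trans one_le_two
    have hdn : ‖(dia h' : BL (Bs G))‖ ≤ 1 := norm_dia_le zero_le_one hh'1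
    have h3 : (Cl e a * dia h' - dia h' * Cl e a) * P =
        (Cl e a * P) * dia h' - dia h' * (Cl e a * P) := by
      rw [sub_mul, mul_assoc, hdh']
      simp only [mul_assoc]
    rw [h3]
    have h4 : ‖(Cl e a * P) * dia h'‖ ≤ η / 4 := (norm_mul_le _ _).trans
      ((mul_le_mul hX hdn (norm_nonneg _) (by linarith)).trans (by rw [mul_one]))
    have h5 : ‖dia h' * (Cl e a * P)‖ ≤ η / 4 := (norm_mul_le _ _).trans
      ((mul_le_mul hdn hX (norm_nonneg _) zero_le_one).trans (by rw [one_mul]))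
    have h6 := norm_sub_le ((Cl e a * P) * dia h') (dia h' * (Cl e a * P))
    linarith
  have hdiff := h2 R ((le_max_right _ _).trans hR) g hg 0 le_rfl zero_le_one D hD
  rw [← hP] at hdiff ⊢
  have hT := norm_TT_le e 0 W.w
  have hT' := norm_TT_le e 0 (W.tr g)
  have hT'P : TT e 0 (W.tr g) * P = P * TT e 0 (W.tr g) := hTP _ 1 (CB_uu 0 (W.tr g))
  have hdn : ‖(dia h' : BL (Bs G))‖ ≤ 1 := norm_dia_le zero_le_one hh'1
  have key : (TT e 0 W.w * dia h - dia h * TT e 0 (W.tr g)) * P =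
      (TT e 0 W.w * ((dia h - dia h') * P) - ((dia h - dia h') * P) * TT e 0 (W.tr g)) +
      ((TT e 0 W.w * dia h' - dia h' * TT e 0 W.w) * P +
        dia h' * ((TT e 0 W.w - TT e 0 (W.tr g)) * P)) := by
    have k1 : ((dia h - dia h') * P) * TT e 0 (W.tr g) =
        (dia h - dia h') * (TT e 0 (W.tr g) * P) := by
      rw [mul_assoc, hT'P]
    rw [k1]
    simp only [mul_sub, sub_mul, mul_assoc]
    abel
  rw [key]
  have a1 : ‖TT e 0 W.w * ((dia h - dia h') * P)‖ ≤ 1 * ε :=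
    (norm_mul_le _ _).trans (mul_le_mul hT hnP (norm_nonneg _) zero_le_one)
  have a2 : ‖((dia h - dia h') * P) * TT e 0 (W.tr g)‖ ≤ ε * 1 :=
    (norm_mul_le _ _).trans (mul_le_mul hnP hT' (norm_nonneg _) hε)
  have a3 : ‖dia h' * ((TT e 0 W.w - TT e 0 (W.tr g)) * P)‖ ≤ 1 * (η / 2) :=
    (norm_mul_le _ _).trans (mul_le_mul hdn hdiff (norm_nonneg _) zero_le_one)
  have a4 := norm_sub_le (TT e 0 W.w * ((dia h - dia h') * P))
    (((dia h - dia h') * P) * TT e 0 (W.tr g))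
  have a5 := norm_add_le ((TT e 0 W.w * dia h' - dia h' * TT e 0 W.w) * P)
    (dia h' * ((TT e 0 W.w - TT e 0 (W.tr g)) * P))
  have a6 := norm_add_le (TT e 0 W.w * ((dia h - dia h') * P) -
    ((dia h - dia h') * P) * TT e 0 (W.tr g))
    ((TT e 0 W.w * dia h' - dia h' * TT e 0 W.w) * P +
      dia h' * ((TT e 0 W.w - TT e 0 (W.tr g)) * P))
  linarith

end Pool.Agent.Lib.MP_aa9b81_an.Cb
end
end

section

/-!
# Continuous Bernoulli, part Zc: the cone
-/

open scoped ENNReal Topology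
open Function Filter Topology Set

noncomputable section

namespace Pool.Agent.Lib.MP_aa9b81_an.Cb

open Cut Hs

variable {G E : Type} [Group G] [TopologicalSpace G] [AddCommGroup E] [Module ℝ E]
  [TopologicalSpace E] [T2Space E] [ContinuousAdd E] [ContinuousSMul ℝ E] [DistribMulAction G E]
  [SMulCommClass G ℝ E] [ContinuousConstSMul G E] (Q : ConvexSpace G E)

/-- The closed cone is the image of `Q × [0,1]`. -/
private def Zc_map (Q : ConvexSpace G E) : Q.Pt × Icc (0 : ℝ) 1 → CCone Q := fun x =>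
  ⟨(x.2.1 • x.1.1, x.2.1), x.2.2.1, x.2.2.2, x.1.1, x.1.2, rfl⟩

omit [TopologicalSpace G] [T2Space E] [ContinuousAdd E] [SMulCommClass G ℝ E]
  [ContinuousConstSMul G E] in
private theorem Zc_map_cont : Continuous (Zc_map Q) := by
  refine Continuous.subtype_mk ?_ _
  have h1 : Continuous fun x : Q.Pt × Icc (0 : ℝ) 1 => (x.1.1 : E) :=
    continuous_subtype_val.comp continuous_fst
  have h2 : Continuous fun x : Q.Pt × Icc (0 : ℝ) 1 => (x.2.1 : ℝ) :=
    continuous_subtype_val.comp continuous_snd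
  exact (h2.smul h1).prodMk h2

omit [TopologicalSpace G] [T2Space E] [ContinuousAdd E] [ContinuousSMul ℝ E] [SMulCommClass G ℝ E]
  [ContinuousConstSMul G E] in
private theorem Zc_map_surj : Function.Surjective (Zc_map Q) := by
  intro w
  obtain ⟨q, hq, h⟩ := w.2.2.2
  exact ⟨(⟨q, hq⟩, ⟨w.1.2, w.2.1, w.2.2.1⟩), Subtype.ext (Prod.ext h.symm rfl)⟩

omit [ContinuousAdd E] [ContinuousConstSMul G E] in
private theorem Zc_ccone (hQ : Continuous fun p : G × Q.Pt => p.1 • p.2) :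
    Continuous fun p : G × CCone Q => p.1 • p.2 := by
  have hc : CompactSpace Q.Pt := isCompact_iff_compactSpace.1 Q.compact
  have hp : IsProperMap (Zc_map Q) := (Zc_map_cont Q).isProperMap
  have hp2 : IsProperMap (Prod.map (id : G → G) (Zc_map Q)) := isProperMap_id.prodMap hp
  have hq : IsQuotientMap (Prod.map (id : G → G) (Zc_map Q)) :=
    hp2.isClosedMap.isQuotientMap hp2.continuous
      (Function.surjective_id.prodMap (Zc_map_surj Q))
  rw [hq.continuous_iff]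
  have h1 : Continuous fun p : G × (Q.Pt × Icc (0 : ℝ) 1) => Zc_map Q (p.1 • p.2.1, p.2.2) := by
    refine (Zc_map_cont Q).comp (Continuous.prodMk ?_ (continuous_snd.comp continuous_snd))
    exact hQ.comp (continuous_fst.prodMk (continuous_fst.comp continuous_snd))
  have h2 : (fun p : G × CCone Q => p.1 • p.2) ∘ Prod.map (id : G → G) (Zc_map Q) =
      fun p : G × (Q.Pt × Icc (0 : ℝ) 1) => Zc_map Q (p.1 • p.2.1, p.2.2) := by
    funext p
    refine Subtype.ext (Prod.ext ?_ rfl)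
    change p.1 • p.2.2.1 • p.2.1.1 = p.2.2.1 • p.1 • p.2.1.1
    exact smul_comm _ _ _
  rw [h2]
  exact h1

/-- The action on the open cone is jointly continuous. PROOF: at `(g₀, w₀)`, `w₀ = (s₀ q₀, s₀)`. It is enough that `(g, w) ↦ g • w.1.1 ∈ E` is continuous (the action
does not change the height). If `s₀ > 0`: near `w₀` the height `s = w.1.2` is positive and `s⁻¹ • w.1.1 ∈ Q` depends continuously on `w`, so `g • w.1.1 = s • g • (s⁻¹ • w.1.1)`
is continuous by `hQ` (`Q.Pt` has the subspace topology). If `s₀ = 0` then `w₀.1.1 = 0`: let `U` be a neighbourhood of `0` in `E`; the map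
`(s, q) ↦ s • q` on `ℝ × Q` is continuous and maps `{0} × Q` to `0`, so by the tube lemma (`Q` compact) `s • q ∈ U` for all `q ∈ Q` and `|s| < δ`; and
`g • w.1.1 = s • g • q` with `g • q ∈ Q`. -/
theorem cone_continuousSMul (hQ : Continuous fun p : G × Q.Pt => p.1 • p.2) :
    ContinuousSMul G (Cone Q) := by
  have hcc := Zc_ccone Q hQ
  have hcont : Continuous (CCone.ofCone Q) := Continuous.subtype_mk continuous_subtype_val _
  have hval : Continuous (Subtype.val : CCone Q → E × ℝ) := continuous_subtype_val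
  have hind : IsInducing (CCone.ofCone Q) := by
    refine IsInducing.of_comp hcont hval ?_
    exact (IsInducing.subtypeVal : IsInducing (Subtype.val : Cone Q → E × ℝ))
  refine ⟨?_⟩
  rw [hind.continuous_iff]
  have h1 : Continuous fun p : G × Cone Q => p.1 • CCone.ofCone Q p.2 :=
    hcc.comp (continuous_fst.prodMk (hcont.comp continuous_snd))
  exact h1

open Classical in
/-- The mean of the points `i • q₀`, `i ∈ F` (`q₀` for `F = ∅`). -/
def mean (q₀ : Q.Pt) (F : Finset G) : Q.Pt :=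
  if h : F.Nonempty then ⟨∑ i ∈ F, ((F.card : ℝ)⁻¹) • (i • q₀).1, Q.convex.sum_mem
    (fun i _ => by positivity) (by
      have h0 : (F.card : ℝ) ≠ 0 := by exact_mod_cast h.card_pos.ne'
      rw [Finset.sum_const, nsmul_eq_mul, mul_inv_cancel₀ h0]) fun i _ => (i • q₀).2⟩ else q₀

/-- PROOF: `Finset.card_map`, `Finset.sum_map`, `mul_smul`, `DistribMulAction`. -/
theorem mean_smul (q₀ : Q.Pt) {F : Finset G} (h : F.Nonempty) (g : G) :
    mean Q q₀ (gF g F) = g • mean Q q₀ F := by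
  have h' : (gF g F).Nonempty := h.map
  unfold mean
  rw [dif_pos h, dif_pos h']
  refine Subtype.ext ?_
  change ∑ i ∈ gF g F, ((gF g F).card : ℝ)⁻¹ • (i • q₀).1 =
    g • ∑ i ∈ F, ((F.card : ℝ)⁻¹) • (i • q₀).1
  unfold gF
  rw [Finset.card_map, Finset.sum_map, Finset.smul_sum]
  refine Finset.sum_congr rfl fun i _ => ?_
  rw [smul_comm g]
  congr 1
  change ((g • i : G) • q₀).1 = g • (i • q₀).1
  rw [smul_eq_mul, mul_smul]
  rfl

/-- PROOF: `hQ`, finite sums; `(F.map (s z)).card` is constant. -/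
theorem tendsto_mean (hQ : Continuous fun p : G × Q.Pt => p.1 • p.2) (q₀ : Q.Pt) {Zp : Type}
    {l : Filter Zp} {L : Finset G} {s : Zp → (L ↪ G)}
    (hs : ∀ i, Tendsto (fun z => s z i) l (𝓝 i.1)) (F : Finset L) :
    Tendsto (fun z => mean Q q₀ (F.map (s z))) l (𝓝 (mean Q q₀ (F.map (iL L)))) := by
  rcases F.eq_empty_or_nonempty with h0 | h0
  · subst h0
    simp only [Finset.map_empty]
    exact tendsto_const_nhds
  · have h1 : ∀ z, (F.map (s z)).Nonempty := fun z => h0.map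
    have h2 : (F.map (iL L)).Nonempty := h0.map
    have hv : ∀ e : L ↪ G, (mean Q q₀ (F.map e)).1 =
        ∑ i ∈ F, ((F.card : ℝ)⁻¹) • ((e i) • q₀).1 := by
      intro e
      have h3 : (F.map e).Nonempty := h0.map
      unfold mean
      rw [dif_pos h3]
      change ∑ i ∈ F.map e, ((F.map e).card : ℝ)⁻¹ • (i • q₀).1 = _
      rw [Finset.card_map, Finset.sum_map]
    have hind : IsInducing (fun q : Q.Pt => q.1) :=
      (IsInducing.subtypeVal : IsInducing (Subtype.val : Q.carrier → E))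
    rw [hind.tendsto_nhds_iff]
    have h4 : (fun q : Q.Pt => q.1) ∘ (fun z => mean Q q₀ (F.map (s z))) =
        fun z => ∑ i ∈ F, ((F.card : ℝ)⁻¹) • ((s z i) • q₀).1 := by
      funext z
      exact hv (s z)
    rw [h4, hv (iL L)]
    refine tendsto_finsetSum _ fun i _ => ?_
    refine Tendsto.const_smul ?_ _
    have h5 : Continuous fun g : G => (g • q₀).1 :=
      hind.continuous.comp (hQ.comp (continuous_id.prodMk continuous_const))
    exact (h5.tendsto i.1).comp (hs i)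

open Classical in
/-- The function `φ` at the point `(1 - t) w + t (q, 1)` of the cone, extended by `0` to `t = 1`. -/
def cph {S Z : Type} (φ : S × Cone Q × Z → ℂ) (t : ℝ) (q : Q.Pt) (x : S × Cone Q × Z) : ℂ :=
  if h : t ∈ Ico (0 : ℝ) 1 then φ (x.1, cmove Q x.2.1 q ⟨t, h⟩, x.2.2) else 0

/-- PROOF: `cmove Q w q 0 = w`. -/
theorem cph_zero {S Z : Type} (φ : S × Cone Q × Z → ℂ) (q : Q.Pt) (x : S × Cone Q × Z) :
    cph Q φ 0 q x = φ x := by
  have h : (0 : ℝ) ∈ Ico (0 : ℝ) 1 := ⟨le_refl _, zero_lt_one⟩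
  unfold cph
  rw [dif_pos h]
  have h1 : cmove Q x.2.1 q ⟨0, h⟩ = x.2.1 := by
    refine Subtype.ext (Prod.ext ?_ ?_)
    · change (1 - (0 : ℝ)) • x.2.1.1.1 + (0 : ℝ) • Q.vec q = x.2.1.1.1
      rw [sub_zero, one_smul, zero_smul, add_zero]
    · change (1 - (0 : ℝ)) * x.2.1.1.2 + 0 = x.2.1.1.2
      rw [sub_zero, one_mul, add_zero]
  rw [h1]

theorem cph_one {S Z : Type} (φ : S × Cone Q × Z → ℂ) (q : Q.Pt) (x : S × Cone Q × Z) :
    cph Q φ 1 q x = 0 := by
  unfold cph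
  rw [dif_neg]
  exact fun h => lt_irrefl _ h.2

/-- PROOF: `g • ((1 - t) w + t (q, 1)) = (1 - t) g w + t (g q, 1)`. -/
theorem smul_cmove (g : G) (w : Cone Q) (q : Q.Pt) (t : Ico (0 : ℝ) 1) :
    g • cmove Q w q t = cmove Q (g • w) (g • q) t := by
  refine Subtype.ext (Prod.ext ?_ rfl)
  change g • ((1 - t.1) • w.1.1 + t.1 • Q.vec q) = (1 - t.1) • g • w.1.1 + t.1 • g • Q.vec q
  rw [smul_add, smul_comm g, smul_comm g]

variable {S Z : Type} [TopologicalSpace S] [TopologicalSpace Z]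

/-- PROOF: coordinates. -/
theorem continuous_cmove :
    Continuous fun x : Cone Q × Q.Pt × Ico (0 : ℝ) 1 => cmove Q x.1 x.2.1 x.2.2 := by
  unfold cmove
  refine Continuous.subtype_mk ?_ _
  have h1 : Continuous fun x : Cone Q × Q.Pt × Ico (0 : ℝ) 1 => x.1.1 :=
    (AD4_continuous_val Q).comp continuous_fst
  have h2 : Continuous fun x : Cone Q × Q.Pt × Ico (0 : ℝ) 1 => Q.vec x.2.1 :=
    (continuous_subtype_val : Continuous (Subtype.val : Q.carrier → E)).comp
      (continuous_fst.comp continuous_snd)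
  have h3 : Continuous fun x : Cone Q × Q.Pt × Ico (0 : ℝ) 1 => x.2.2.1 :=
    continuous_subtype_val.comp (continuous_snd.comp continuous_snd)
  exact (((continuous_const.sub h3).smul (continuous_fst.comp h1)).add (h3.smul h2)).prodMk
    (((continuous_const.sub h3).mul (continuous_snd.comp h1)).add h3)

/-- PROOF: the composition of `φ` with a continuous map for `t < 1` fixed; `0` for `t = 1`. -/
theorem continuous_cph {φ : S × Cone Q × Z → ℂ} (hφ : Continuous φ) (t : ℝ) :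
    Continuous fun x : (S × Cone Q × Z) × Q.Pt => cph Q φ t x.2 x.1 := by
  unfold cph
  by_cases h : t ∈ Ico (0 : ℝ) 1
  · simp only [dif_pos h]
    refine hφ.comp (Continuous.prodMk (continuous_fst.comp continuous_fst) (Continuous.prodMk ?_
      (continuous_snd.comp (continuous_snd.comp continuous_fst))))
    exact (continuous_cmove Q).comp (Continuous.prodMk
      (continuous_fst.comp (continuous_snd.comp continuous_fst))
      (continuous_snd.prodMk continuous_const))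
  · simp only [dif_neg h]
    exact continuous_const

/-- The height of the support is bounded: there is `r < 1` with `φ (s, w, z) = 0` for `w.1.2 > r`, all `s`, `z`. PROOF: the height is a continuous function on the compact support; if the
support is empty take `r = 0`. -/
theorem exists_height {φ : S × Cone Q × Z → ℂ} (hc : HasCompactSupport φ) :
    ∃ r : ℝ, 0 ≤ r ∧ r < 1 ∧ ∀ x : S × Cone Q × Z, r < x.2.1.1.2 → φ x = 0 := by
  have hh : Continuous fun x : S × Cone Q × Z => x.2.1.1.2 :=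
    continuous_snd.comp ((AD4_continuous_val Q).comp (continuous_fst.comp continuous_snd))
  rcases (tsupport φ).eq_empty_or_nonempty with h0 | h0
  · refine ⟨0, le_refl _, zero_lt_one, fun x _ => ?_⟩
    refine image_eq_zero_of_notMem_tsupport ?_
    rw [h0]
    exact fun h => h
  · obtain ⟨y, hy, hmax⟩ := hc.isCompact.exists_isMaxOn h0 hh.continuousOn
    refine ⟨y.2.1.1.2, y.2.1.2.1, y.2.1.2.2.1, fun x hx => ?_⟩
    refine image_eq_zero_of_notMem_tsupport fun h => ?_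
    exact absurd (hmax h) (not_le.2 hx)

omit [TopologicalSpace G] [ContinuousAdd E] [ContinuousSMul ℝ E] [SMulCommClass G ℝ E]
  [ContinuousConstSMul G E] [T2Space E] [TopologicalSpace S] [TopologicalSpace Z]
  [TopologicalSpace E] in
private theorem Zc_height_le (s t : ℝ) (hs : 0 ≤ s) (hs1 : s < 1) (ht : t ∈ Ico (0 : ℝ) 1) :
    s ≤ (1 - t) * s + t ∧ t ≤ (1 - t) * s + t := by
  obtain ⟨h0, h1⟩ := ht
  constructor
  · nlinarith
  · nlinarith

private theorem Zc_compact {φ : S × Cone Q × Z → ℂ} (hc : HasCompactSupport φ) :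
    ∃ K : Set (S × Cone Q × Z), IsCompact K ∧ ∀ (t : ℝ) (q : Q.Pt), ∀ x ∉ K,
      cph Q φ t q x = 0 := by
  obtain ⟨r, hr0, hr1, hr⟩ := exists_height Q hc
  refine ⟨(Prod.fst '' tsupport φ) ×ˢ {w : Cone Q | w.1.2 ≤ r} ×ˢ
    ((fun x : S × Cone Q × Z => x.2.2) '' tsupport φ), ?_, ?_⟩
  · exact (hc.isCompact.image continuous_fst).prod ((AD4_compact_cone Q hr1).prod
      (hc.isCompact.image (continuous_snd.comp continuous_snd)))
  · intro t q x hx
    unfold cph
    by_cases h : t ∈ Ico (0 : ℝ) 1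
    · rw [dif_pos h]
      by_contra hne
      apply hx
      have h1 : (x.1, cmove Q x.2.1 q ⟨t, h⟩, x.2.2) ∈ tsupport φ :=
        subset_tsupport _ hne
      refine ⟨⟨_, h1, rfl⟩, ?_, ⟨_, h1, rfl⟩⟩
      change x.2.1.1.2 ≤ r
      by_contra h2
      apply hne
      refine hr _ ?_
      change r < (1 - t) * x.2.1.1.2 + t
      exact (not_le.1 h2).trans_le (Zc_height_le _ _ x.2.1.2.1 x.2.1.2.2.1 h).1
    · rw [dif_neg h]

private theorem Zc_joint {φ : S × Cone Q × Z → ℂ} (hφ : Continuous φ) (hc : HasCompactSupport φ) :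
    Continuous fun p : Icc (0 : ℝ) 1 × (Q.Pt × (S × Cone Q × Z)) =>
      cph Q φ p.1.1 p.2.1 p.2.2 := by
  obtain ⟨r, hr0, hr1, hr⟩ := exists_height Q hc
  have ht : Continuous fun p : Icc (0 : ℝ) 1 × (Q.Pt × (S × Cone Q × Z)) => p.1.1 :=
    continuous_subtype_val.comp continuous_fst
  rw [continuous_iff_continuousAt]
  intro p
  rcases p.1.2.2.lt_or_eq with h | h
  · have hU : IsOpen {p : Icc (0 : ℝ) 1 × (Q.Pt × (S × Cone Q × Z)) | p.1.1 < 1} :=
      isOpen_lt ht continuous_const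
    have h1 : ContinuousOn (fun p : Icc (0 : ℝ) 1 × (Q.Pt × (S × Cone Q × Z)) =>
        cph Q φ p.1.1 p.2.1 p.2.2) {p | p.1.1 < 1} := by
      rw [continuousOn_iff_continuous_domRestrict]
      have h2 : Continuous fun p : {p : Icc (0 : ℝ) 1 × (Q.Pt × (S × Cone Q × Z)) | p.1.1 < 1} =>
          φ (p.1.2.2.1, cmove Q p.1.2.2.2.1 p.1.2.1 ⟨p.1.1.1, p.1.1.2.1, p.2⟩, p.1.2.2.2.2) := by
        have hv : Continuous fun p :
            {p : Icc (0 : ℝ) 1 × (Q.Pt × (S × Cone Q × Z)) | p.1.1 < 1} => p.1 :=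
          continuous_subtype_val
        have hx := continuous_snd.comp (continuous_snd.comp hv)
        have hq := continuous_fst.comp (continuous_snd.comp hv)
        have hcm := (continuous_cmove Q).comp (Continuous.prodMk
          (continuous_fst.comp (continuous_snd.comp hx)) (Continuous.prodMk hq
            ((ht.comp hv).subtype_mk fun p => ⟨p.1.1.2.1, p.2⟩)))
        exact hφ.comp (Continuous.prodMk (continuous_fst.comp hx) (Continuous.prodMk hcm
          (continuous_snd.comp (continuous_snd.comp hx))))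
      refine h2.congr fun p => ?_
      have h3 : p.1.1.1 ∈ Ico (0 : ℝ) 1 := ⟨p.1.1.2.1, p.2⟩
      change _ = cph Q φ p.1.1.1 p.1.2.1 p.1.2.2
      unfold cph
      rw [dif_pos h3]
    exact h1.continuousAt (hU.mem_nhds h)
  · have hU : {p : Icc (0 : ℝ) 1 × (Q.Pt × (S × Cone Q × Z)) | r < p.1.1} ∈ 𝓝 p := by
      refine (isOpen_lt continuous_const ht).mem_nhds ?_
      change r < p.1.1
      rw [h]
      exact hr1
    have h1 : (fun _ : Icc (0 : ℝ) 1 × (Q.Pt × (S × Cone Q × Z)) => (0 : ℂ)) =ᶠ[𝓝 p]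
        fun p => cph Q φ p.1.1 p.2.1 p.2.2 := by
      filter_upwards [hU] with y hy
      unfold cph
      by_cases h2 : y.1.1 ∈ Ico (0 : ℝ) 1
      · rw [dif_pos h2]
        refine (hr _ ?_).symm
        change r < (1 - y.1.1) * y.2.2.2.1.1.2 + y.1.1
        exact (show r < y.1.1 from hy).trans_le
          (Zc_height_le _ _ y.2.2.2.1.2.1 y.2.2.2.1.2.2.1 h2).2
      · rw [dif_neg h2]
    exact continuousAt_const.congr h1

/-- TIME CONTINUITY, uniform in everything else. PROOF: let `φ̂` be the extension of `φ` by `0` to `S × CCone Q × Z` (the closed cone; `isOpenEmbedding_inO` in CutM/P.lean); it is continuous with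
compact support, contained in `A × CCone Q × B` with compact `A ⊆ S`, `B ⊆ Z`. The map `(t, w, q) ↦ (1 - t) w + t (q, 1)`, `[0,1] × CCone Q × Q → CCone Q` is continuous on a compact
space, and `cph Q φ t q (s, w, z) = φ̂ (s, (1 - t) w + t (q, 1), z)` for `t ∈ [0,1]` (the height is `1` for `t = 1`). The set of the `(t, (s, w, q, z))` in `[0,1] × (A × CCone Q × Q × B)` with
`‖φ̂ (s, (1-t) w + t (q,1), z) - φ̂ (s, (1-t₀) w + t₀ (q,1), z)‖ < ε` is open and contains `{t₀} × (A × CCone Q × Q × B)`, so by the tube lemma (`generalized_tube_lemma`) it contains all `(t, ·)` with `|t - t₀| < δ`. For `(s, z)` not in `A × B`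
all values are `0`. -/
theorem exists_time_cont {φ : S × Cone Q × Z → ℂ} (hφ : Continuous φ) (hc : HasCompactSupport φ)
    {t₀ : ℝ} (ht₀ : t₀ ∈ Icc (0 : ℝ) 1) {ε : ℝ} (hε : 0 < ε) :
    ∃ δ : ℝ, 0 < δ ∧ ∀ t ∈ Icc (0 : ℝ) 1, |t - t₀| < δ → ∀ (q : Q.Pt) (x : S × Cone Q × Z),
      ‖cph Q φ t q x - cph Q φ t₀ q x‖ ≤ ε := by
  have hcp : CompactSpace Q.Pt := isCompact_iff_compactSpace.1 Q.compact
  obtain ⟨K, hK, hK0⟩ := Zc_compact Q hc
  have hj := Zc_joint Q hφ hc
  have hD : Continuous fun p : Icc (0 : ℝ) 1 × (Q.Pt × (S × Cone Q × Z)) =>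
      ‖cph Q φ p.1.1 p.2.1 p.2.2 - cph Q φ t₀ p.2.1 p.2.2‖ := by
    refine (hj.sub ?_).norm
    exact hj.comp ((continuous_const (y := (⟨t₀, ht₀⟩ : Icc (0 : ℝ) 1))).prodMk continuous_snd)
  have h1 : ∀ᶠ t : Icc (0 : ℝ) 1 in 𝓝 ⟨t₀, ht₀⟩, ∀ p ∈ (univ : Set Q.Pt) ×ˢ K,
      ‖cph Q φ t.1 p.1 p.2 - cph Q φ t₀ p.1 p.2‖ < ε := by
    refine (isCompact_univ.prod hK).eventually_forall_of_forall_eventually fun p _ => ?_
    refine hD.continuousAt.eventually_lt continuousAt_const ?_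
    change ‖cph Q φ t₀ p.1 p.2 - cph Q φ t₀ p.1 p.2‖ < ε
    rw [sub_self, norm_zero]
    exact hε
  obtain ⟨δ, hδ, h2⟩ := Metric.eventually_nhds_iff.1 h1
  refine ⟨δ, hδ, fun t ht htt q x => ?_⟩
  by_cases hx : x ∈ K
  · exact (h2 (y := ⟨t, ht⟩) (by
      change dist t t₀ < δ
      rw [Real.dist_eq]
      exact htt) (q, x) ⟨trivial, hx⟩).le
  · rw [hK0 t q x hx, hK0 t₀ q x hx, sub_self, norm_zero]
    exact hε.le

/-- PROOF: a bound of `φ`. -/
theorem norm_cph_le {φ : S × Cone Q × Z → ℂ} {C : ℝ} (hC : ∀ x, ‖φ x‖ ≤ C) (t : ℝ) (q : Q.Pt)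
    (x : S × Cone Q × Z) : ‖cph Q φ t q x‖ ≤ C := by
  unfold cph
  by_cases h : t ∈ Ico (0 : ℝ) 1
  · rw [dif_pos h]
    exact hC _
  · rw [dif_neg h, norm_zero]
    exact (norm_nonneg _).trans (hC x)

/-- Vanishing outside a compact subset. PROOF: let `A × _ × B` contain the support (`A`, `B` compact) and `r` as in `exists_height`. If `cph Q φ t q (s, w, z)` is not `0` then `s ∈ A`, `z ∈ B` and the height
of `(1 - t) w + t (q, 1)`, which is `(1 - t) w.1.2 + t ≥ w.1.2`, is at most `r`. The set of the `w` with `w.1.2 ≤ r` is compact (`AD4_compact_cone`). -/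
theorem exists_compact_cph {φ : S × Cone Q × Z → ℂ} (hc : HasCompactSupport φ) :
    ∃ K : Set (S × Cone Q × Z), IsCompact K ∧ ∀ (t : ℝ) (q : Q.Pt), ∀ x ∉ K,
      cph Q φ t q x = 0 :=
  Zc_compact Q hc

end Pool.Agent.Lib.MP_aa9b81_an.Cb
end
end

section

/-!
# Continuous Bernoulli, part F13: the rotated functions are compatible with the local transport
-/

open scoped ENNReal Topology
open Function Filter

noncomputable section

namespace Pool.Agent.Lib.MP_aa9b81_an.Cb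

open Cut Hs

variable {G O Zp : Type} [Group G] [TopologicalSpace G] [DecidableEq G] [LinearOrder O]
  [TopologicalSpace Zp] {V : Set G}

/-- Near `z₀` the points of `D z` in the compact set `C` are on the local section, if the section contains the
points of `D z₀` in `C`. PROOF: for `i ∈ L` let `N i` be the neighbourhood of `i` in `exists_nhds_unique`; the
compact set `C ∖ ⋃ interior (N i)` is disjoint from `D z₀`, so from `D z`; a point `a ∈ D z ∩ C` is in some
`N i`, and so is `s z i`. -/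
theorem LSec.eventually_range [IsTopologicalGroup G] (hV : V ∈ 𝓝 (1 : G))
    {D : Zp → Set G} (hD : Fell D) (hS : ∀ z, Sep V (D z)) {z₀ : Zp} {L : Finset G}
    {s : Zp → (L ↪ G)} (hs : LSec D z₀ L s) {C : Set G} (hC : IsCompact C)
    (hL : D z₀ ∩ C ⊆ L) : ∀ᶠ z in 𝓝 z₀, D z ∩ C ⊆ Set.range (s z) := by
  classical
  choose N hN huniq using fun i : G => exists_nhds_unique hV i
  have hC' : IsCompact (C \ ⋃ i ∈ L, interior (N i)) :=
    hC.diff (isOpen_biUnion fun i _ => isOpen_interior)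
  have hdis : Disjoint (C \ ⋃ i ∈ L, interior (N i)) (D z₀) := by
    rw [Set.disjoint_left]
    rintro x ⟨hxC, hx⟩ hxD
    exact hx (Set.mem_iUnion₂.2 ⟨x, hL ⟨hxD, hxC⟩, mem_interior_iff_mem_nhds.2 (hN x)⟩)
  have h1 := hD.upper z₀ _ hC' hdis
  have h2 : ∀ᶠ z in 𝓝 z₀, ∀ i : L, s z i ∈ N i.1 :=
    eventually_all.2 fun i => (hs.tend i).eventually (hN i.1)
  filter_upwards [h1, h2, hs.mem] with z hz1 hz2 hz3
  rintro a ⟨haD, haC⟩
  have h3 : a ∈ ⋃ i ∈ L, interior (N i) := by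
    by_contra h
    exact Set.disjoint_left.1 hz1 ⟨haC, h⟩ haD
  obtain ⟨i, hi, hai⟩ := Set.mem_iUnion₂.1 h3
  exact ⟨⟨i, hi⟩, huniq i (D z) (hS z) _ (hz3 ⟨i, hi⟩) a haD (hz2 ⟨i, hi⟩) (interior_subset hai)⟩

/-- The family `f z` of functions is continuous at `z₀`, as functions on the sets `D z`. -/
structure FAt (D : Zp → Set G) (f : Zp → (G → Bool) → ℂ) (z₀ : Zp) : Prop where
  loc : ∀ ε : ℝ, 0 < ε → ∃ C : Set G, IsCompact C ∧ ∀ᶠ z in 𝓝 z₀, Dep C ε (f z)
  tend : ∀ (L : Finset G), (L : Set G) ⊆ D z₀ → ∀ s : Zp → (L ↪ G), LSec D z₀ L s →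
    ∀ F : Finset L, Tendsto (fun z => f z (ind (F.map (s z)))) (𝓝 z₀)
      (𝓝 (f z₀ (ind (F.map (iL L)))))

/-- Every point of `L → Bool` is the indicator of a finite set. -/
theorem exists_ind_eq {I₀ : Type} [Fintype I₀] [DecidableEq I₀] (T : I₀ → Bool) :
    ∃ F : Finset I₀, ind F = T := by
  refine ⟨Finset.univ.filter fun i => T i = true, ?_⟩
  funext i
  unfold ind
  by_cases h : T i = true
  · rw [h]
    exact decide_eq_true (Finset.mem_filter.2 ⟨Finset.mem_univ _, h⟩)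
  · have h' : T i = false := by simpa using h
    rw [h']
    exact decide_eq_false fun h2 => h (Finset.mem_filter.1 h2).2

/-- The rotated functions are compatible with the local transport. PROOF: let `C` be compact with `Dep C (ε / 4) (f z)`
for `z` near `z₀`, `L₀ = L₁ ∪ (D z₀ ∩ C)`, which is finite, `N₀ = sigL univ (θ z₀) (f z₀ ∘ push (iL L₀))`. For `z` near `z₀` the
set `D z ∩ C` is in the range of `s z`, and `norm_sig_Tr_sub_le` gives `ε / 2` with `sigL univ (θ z) (f z ∘ push (s z))`; the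
functions `f z ∘ push (s z)` on the finite set `L₀ → Bool` converge uniformly; `norm_sigL_sub_le`, `norm_sigL_sub_angle`. -/
theorem LocAt_sig [IsTopologicalGroup G] (hV : V ∈ 𝓝 (1 : G)) (e : G ↪ O)
    {D : Zp → Set G} (hD : Fell D) (hS : ∀ z, Sep V (D z)) {f : Zp → (G → Bool) → ℂ}
    (hf : ∀ z, Continuous (f z)) (hfD : ∀ z, Dep (D z) 0 (f z)) {z₀ : Zp} (hfz : FAt D f z₀)
    {θ : Zp → ℝ} (hθ : ContinuousAt θ z₀) : LocAt e D (fun z => sig (θ z) (f z)) z₀ := by
  classical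
  intro ε hε L₁ hL₁
  obtain ⟨C, hC, hCf⟩ := hfz.loc (ε / 8) (by linarith)
  have hfin : (D z₀ ∩ C).Finite := Sep.finite_inter hV (hS z₀) hC
  set L₀ : Finset G := L₁ ∪ hfin.toFinset with hL₀
  have hL₀D : (L₀ : Set G) ⊆ D z₀ := by
    intro x hx
    rcases Finset.mem_union.1 (Finset.mem_coe.1 hx) with h | h
    · exact hL₁ h
    · exact ((hfin.mem_toFinset).1 h).1
  refine ⟨L₀, Finset.subset_union_left, hL₀D,
    sigL Finset.univ (θ z₀) (fun T => f z₀ (push (iL L₀) T)), fun s hs => ?_⟩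
  obtain ⟨B, hB, hBf⟩ := exists_bdd (hf z₀)
  have h1 : ∀ᶠ z in 𝓝 z₀, D z ∩ C ⊆ Set.range (s z) :=
    hs.eventually_range hV hD hS hC fun x hx =>
      Finset.mem_coe.2 (Finset.mem_union_right _ ((hfin.mem_toFinset).2 hx))
  have h2 : ∀ᶠ z in 𝓝 z₀, ∀ F : Finset L₀,
      ‖f z (ind (F.map (s z))) - f z₀ (ind (F.map (iL L₀)))‖ ≤ ε / 4 := by
    rw [eventually_all]
    intro F
    filter_upwards [Metric.tendsto_nhds.1 (hfz.tend L₀ hL₀D s hs F) (ε / 4) (by linarith)] with z hz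
    rw [← dist_eq_norm]
    exact hz.le
  have h3 : ∀ᶠ z in 𝓝 z₀,
      4 * ((Finset.univ : Finset L₀).card : ℝ) * |θ z - θ z₀| * B < ε / 4 := by
    have h4 : Tendsto (fun z => 4 * ((Finset.univ : Finset L₀).card : ℝ) * |θ z - θ z₀| * B) (𝓝 z₀)
        (𝓝 (4 * ((Finset.univ : Finset L₀).card : ℝ) * |θ z₀ - θ z₀| * B)) :=
      (((hθ.tendsto.sub_const _).abs).const_mul _).mul_const _
    rw [sub_self, abs_zero, mul_zero, zero_mul] at h4
    exact h4.eventually_lt_const (by linarith)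
  filter_upwards [h1, h2, h3, hCf] with z hz1 hz2 hz3 hz4
  have h5 : Dep (((Finset.univ : Finset L₀).map (s z) : Finset G) : Set G) (ε / 8) (f z) := by
    refine ((hfD z).inter hz4).mono ?_ le_rfl
    rintro x ⟨hxC, hxD⟩
    obtain ⟨i, hi⟩ := hz1 ⟨hxD, hxC⟩
    exact Finset.mem_coe.2 (Finset.mem_map.2 ⟨i, Finset.mem_univ _, hi⟩)
  have h6 := norm_sig_Tr_sub_le (eL e L₀) e (s z) (hf z) h5 (θ z)
  obtain ⟨B', hB', hBf'⟩ := exists_bdd (hf z)
  have h7 : ‖sigL Finset.univ (θ z) (fun T => f z (push (s z) T)) -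
      sigL Finset.univ (θ z) (fun T => f z₀ (push (iL L₀) T))‖ ≤ ε / 4 := by
    refine norm_sigL_sub_le hB' (fun T => hBf' _) hB (fun T => hBf _) (by linarith) (fun T => ?_) _ _
    obtain ⟨F, rfl⟩ := exists_ind_eq T
    have h8 := hz2 F
    rw [ind_map, ind_map] at h8
    exact h8
  have h8 : ‖sigL Finset.univ (θ z) (fun T => f z₀ (push (iL L₀) T)) -
      sigL Finset.univ (θ z₀) (fun T => f z₀ (push (iL L₀) T))‖ ≤ ε / 4 :=
    (norm_sigL_sub_angle hB (fun T => hBf _) _ _ _).trans hz3.le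
  set A : BL (Bs L₀) := sigL Finset.univ (θ z) (fun T => f z (push (s z) T)) with hA
  set A' : BL (Bs L₀) := sigL Finset.univ (θ z) (fun T => f z₀ (push (iL L₀) T)) with hA'
  set A'' : BL (Bs L₀) := sigL Finset.univ (θ z₀) (fun T => f z₀ (push (iL L₀) T)) with hA''
  have h9 : (sig (θ z) (f z)).comp (Tr (eL e L₀) e (s z)) - (Tr (eL e L₀) e (s z)).comp A'' =
      ((sig (θ z) (f z)).comp (Tr (eL e L₀) e (s z)) - (Tr (eL e L₀) e (s z)).comp A) +
      (Tr (eL e L₀) e (s z)).comp ((A - A') + (A' - A'')) := by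
    rw [ContinuousLinearMap.comp_add, ContinuousLinearMap.comp_sub, ContinuousLinearMap.comp_sub]
    abel
  rw [h9]
  have h10 : ‖(Tr (eL e L₀) e (s z)).comp ((A - A') + (A' - A''))‖ ≤ 1 * (ε / 4 + ε / 4) :=
    (ContinuousLinearMap.opNorm_comp_le _ _).trans (mul_le_mul (norm_Tr_le _ _ _)
      ((norm_add_le _ _).trans (add_le_add h7 h8)) (norm_nonneg _) zero_le_one)
  refine (norm_add_le _ _).trans ?_
  linarith

end Pool.Agent.Lib.MP_aa9b81_an.Cb
end
end
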