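import Pool.Agent.Lib.MP_aa9b81_an.Mg.G065
import Pool.Agent.Lib.MP_aa9b81_an.Mg.G061
import Pool.Agent.Lib.MP_aa9b81_an.Mg.G064
import Pool.Agent.Lib.MP_aa9b81_an.Mg.G069

section

/-!
# Continuous Bernoulli, part Sa: symbols
-/

open scoped ENNReal Topology
open Function Filter

noncomputable section

namespace Pool.Agent.Lib.MP_aa9b81_an.Cb

open Cut Hs

variable {G O B : Type} [Group G] [DecidableEq G] [TopologicalSpace G] [LinearOrder O] [TopologicalSpace B]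
  [MulAction G B] {V : Set G} (χ : Part V) (e : G ↪ O) (Δ : Df G B V)

/-- A cutoff function: `ω F` is in `[0, 1]`, `ω F ≠ 0` only for the `F` in a compact set, and `ω F` depends continuously on the positions
of the points of `F`. -/
structure Cutoff (ω : Finset G → ℝ) : Prop where
  nonneg : ∀ F, 0 ≤ ω F
  le_one : ∀ F, ω F ≤ 1
  cpt : ∃ C : Set G, IsCompact C ∧ ∀ F : Finset G, ω F ≠ 0 → (F : Set G) ⊆ C
  cont : ∀ (Zp : Type) (l : Filter Zp) (L : Finset G) (s : Zp → (L ↪ G)),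
    (∀ i, Tendsto (fun z => s z i) l (𝓝 i.1)) → ∀ F : Finset L,
      Tendsto (fun z => ω (F.map (s z))) l (𝓝 (ω (F.map (iL L))))

/-- The multiplication by the cutoff, translated by `g`. -/
def Ow (ω : Finset G → ℝ) (g : G) : BL (Bs G) := dia fun b => ((ω (gF g⁻¹ b.F) : ℝ) : ℂ)

/-- The properties of the Clifford operators `T a`, `a ∈ G`. -/
structure TOK (T : G → BL (Bs G)) : Prop where
  norm : ∀ a, ‖T a‖ ≤ 1
  cov : ∀ a b, Wg e a * T b = T (a * b) * Wg e a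
  sq : ∀ a, T a * T a = 1 - PV
  odd : ∀ a, Pp * T a = T a * (1 - Pp)
  es : ∀ a s, Commute (T a) (Es s)
  sc : SC T
  scV : SC fun D : ClV V => ((χ.Vd e D.s).comp (T 1)).comp (χ.Vs e D.s)

/-- The properties of a symbol `n b g`. -/
structure Sy (T : G → BL (Bs G)) (n : B → G → BL (Bs G)) : Prop where
  norm : ∃ C : ℝ, ∀ b g, ‖n b g‖ ≤ C
  supp : ∃ C : Set G, IsCompact C ∧ ∀ b, ∀ g ∉ C, n b g = 0
  dec : ∃ K : Set B, IsCompact K ∧ ∀ b ∉ K, ∀ g, n b g = 0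
  es : ∀ b g, Commute (n b g) (Es (Δ.D b).s)
  pp : ∀ b g, Commute (n b g) Pp
  sc : SC fun z : B × G =>
    ((χ.Vd e (Δ.D z.1).s).comp (n z.1 z.2)).comp (χ.Vs e (Δ.D z.1).s)
  abs : ∀ b, SC fun p : G × G => Wg e p.1 * n (p.1⁻¹ • b) (p.1⁻¹ * p.2) * Wg e p.1⁻¹
  comm : ∀ ε : ℝ, 0 < ε → ∃ ω : Finset G → ℝ, Cutoff ω ∧ ∀ b g,
    ‖(T 1 * n b g * T g - n b g) * (1 - Ow ω g) * Es (Δ.D b).s‖ ≤ ε

/-- `V_b T^(1) V_b^*`. -/
def tauV (T : G → BL (Bs G)) (D : ClV V) : BL (Bs ℕ) :=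
  ((χ.Vd e D.s).comp (T 1)).comp (χ.Vs e D.s)

/-- `V_b n(b, g) W_g V_{g⁻¹ b}^*`. -/
def thV (n : B → G → BL (Bs G)) (b : B) (g : G) : BL (Bs ℕ) :=
  (((χ.Vd e (Δ.D b).s).comp (n b g)).comp (Wg e g)).comp (χ.Vs e (Δ.D (g⁻¹ • b)).s)

/-- `V_b (T^(1) n(b, g) T^(g) - n(b, g)) W_g V_{g⁻¹ b}^*`. -/
def kapV (T : G → BL (Bs G)) (n : B → G → BL (Bs G)) (b : B) (g : G) : BL (Bs ℕ) :=
  thV χ e Δ (fun b g => T 1 * n b g * T g - n b g) b g

/-- `V_D ω V_D^*`. -/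
def OmV (ω : Finset G → ℝ) (D : ClV V) : BL (Bs ℕ) :=
  ((χ.Vd e D.s).comp (Ow ω 1)).comp (χ.Vs e D.s)

omit [Group G] [TopologicalSpace G] in
/-- Multiplication operators commute. -/
theorem dia_comm_dia' {h h' : Bs G → ℂ} {C C' : ℝ} (hC : ∀ b, ‖h b‖ ≤ C) (hC' : ∀ b, ‖h' b‖ ≤ C') :
    (dia h : BL (Bs G)) * dia h' = dia h' * dia h := by
  have h0 : 0 ≤ C := (norm_nonneg _).trans (hC Bs.vac)
  have h0' : 0 ≤ C' := (norm_nonneg _).trans (hC' Bs.vac)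
  refine ContinuousLinearMap.ext fun ξ => ?_
  ext b
  rw [mul_apply_eq_comp, mul_apply_eq_comp, dia_apply h0 hC, dia_apply h0' hC', dia_apply h0' hC',
    dia_apply h0 hC]
  ring

variable {χ e Δ} {T : G → BL (Bs G)} {n : B → G → BL (Bs G)}

/-- PROOF: `norm_Vd_le`, `norm_Vs_le`, `norm_Wg_le`. -/
theorem norm_thV_le (b : B) (g : G) : ‖thV χ e Δ n b g‖ ≤ ‖n b g‖ := by
  unfold thV
  have h1 := norm_Vd_le χ e (Δ.D b).sep
  have h2 := norm_Vs_le χ e (Δ.D (g⁻¹ • b)).sep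
  have h3 : ‖(Wg e g : BL (Bs G))‖ ≤ 1 := norm_Wg_le e g
  have h0 := norm_nonneg (n b g)
  calc _ ≤ ‖((χ.Vd e (Δ.D b).s).comp (n b g)).comp (Wg e g)‖ * ‖χ.Vs e (Δ.D (g⁻¹ • b)).s‖ :=
        ContinuousLinearMap.opNorm_comp_le _ _
    _ ≤ ‖((χ.Vd e (Δ.D b).s).comp (n b g)).comp (Wg e g)‖ * 1 :=
        mul_le_mul_of_nonneg_left h2 (norm_nonneg _)
    _ = ‖((χ.Vd e (Δ.D b).s).comp (n b g)).comp (Wg e g)‖ := mul_one _
    _ ≤ ‖(χ.Vd e (Δ.D b).s).comp (n b g)‖ * ‖(Wg e g : BL (Bs G))‖ :=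
        ContinuousLinearMap.opNorm_comp_le _ _
    _ ≤ ‖(χ.Vd e (Δ.D b).s).comp (n b g)‖ * 1 := mul_le_mul_of_nonneg_left h3 (norm_nonneg _)
    _ = ‖(χ.Vd e (Δ.D b).s).comp (n b g)‖ := mul_one _
    _ ≤ ‖χ.Vd e (Δ.D b).s‖ * ‖n b g‖ := ContinuousLinearMap.opNorm_comp_le _ _
    _ ≤ 1 * ‖n b g‖ := mul_le_mul_of_nonneg_right h1 h0
    _ = ‖n b g‖ := one_mul _

/-- PROOF: `Vs_comp_Vd`, `hn.es`, `Wg_Es` (`Δ.smul`: `Δ.D (g⁻¹ • b) = g⁻¹ • Δ.D b`), `Es_comp_Vs`. -/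
theorem thV_eq (hn : Sy χ e Δ T n) (b : B) (g : G) :
    thV χ e Δ n b g = (((χ.Vd e (Δ.D b).s).comp (n b g)).comp (χ.Vs e (Δ.D b).s)).comp
      (((χ.Vd e (Δ.D b).s).comp (Wg e g)).comp (χ.Vs e (g⁻¹ • Δ.D b).s)) := by
  have h1 : n b g * Es (Δ.D b).s = Es (Δ.D b).s * n b g := hn.es b g
  have h2 := Vs_comp_Vd χ e (Δ.D b).sep
  have h3 := Vd_comp_Es χ e (Δ.D b).sep
  symm
  calc (((χ.Vd e (Δ.D b).s).comp (n b g)).comp (χ.Vs e (Δ.D b).s)).comp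
          (((χ.Vd e (Δ.D b).s).comp (Wg e g)).comp (χ.Vs e (g⁻¹ • Δ.D b).s))
      = ((χ.Vd e (Δ.D b).s).comp (n b g * ((χ.Vs e (Δ.D b).s).comp (χ.Vd e (Δ.D b).s)) *
          Wg e g)).comp (χ.Vs e (g⁻¹ • Δ.D b).s) := rfl
    _ = ((χ.Vd e (Δ.D b).s).comp (Es (Δ.D b).s * n b g * Wg e g)).comp
          (χ.Vs e (g⁻¹ • Δ.D b).s) := by rw [h2, h1]
    _ = (((χ.Vd e (Δ.D b).s).comp (Es (Δ.D b).s)).comp (n b g * Wg e g)).comp
          (χ.Vs e (g⁻¹ • Δ.D b).s) := rfl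
    _ = ((χ.Vd e (Δ.D b).s).comp (n b g * Wg e g)).comp (χ.Vs e (g⁻¹ • Δ.D b).s) := by rw [h3]
    _ = thV χ e Δ n b g := by
        unfold thV
        rw [Δ.smul]
        rfl

/-- PROOF: `thV_eq`, `hn.sc`, `SC_VWV` precomposed with the continuous map `(b, g) ↦ (Δ.D b, g)`, `SC.comp`. -/
theorem SC_thV [IsTopologicalGroup G] [T2Space G] [LocallyCompactSpace G] (hV : V ∈ 𝓝 (1 : G))
    (hn : Sy χ e Δ T n) : SC fun z : B × G => thV χ e Δ n z.1 z.2 := by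
  have h1 := (SC_VWV χ hV e).precomp (r := fun z : B × G => (Δ.D z.1, z.2))
    ((Δ.cont.comp continuous_fst).prodMk continuous_snd)
  have h2 := hn.sc.comp h1
  have h3 : (fun z : B × G => thV χ e Δ n z.1 z.2) = fun z : B × G =>
      (((χ.Vd e (Δ.D z.1).s).comp (n z.1 z.2)).comp (χ.Vs e (Δ.D z.1).s)).comp
      (((χ.Vd e (Δ.D z.1).s).comp (Wg e z.2)).comp (χ.Vs e (z.2⁻¹ • Δ.D z.1).s)) :=
    funext fun z => thV_eq hn z.1 z.2
  rw [h3]
  exact h2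

/-- PROOF: with `V = V_b`, `V' = V_{g⁻¹ b}`: `tau θ tau' = V T(1) V^* V n W_g V'^* V' T(1) V'^*`; `V^* V = Es (D b)` commutes with `T 1` and `n b g`, `V'^* V' = Es (g⁻¹ D b)`, `W_g Es (g⁻¹ D) = Es D W_g` (`Wg_Es`), and
`W_g T(1) = T(g) W_g` (`hT.cov`); the projections are absorbed by `V` (`Vd_comp_Es`). -/
theorem kapV_eq (hT : TOK χ e T) (hn : Sy χ e Δ T n) (b : B) (g : G) :
    kapV χ e Δ T n b g = (tauV χ e T (Δ.D b)).comp ((thV χ e Δ n b g).comp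
      (tauV χ e T (Δ.D (g⁻¹ • b)))) - thV χ e Δ n b g := by
  have h1 : n b g * Es (Δ.D b).s = Es (Δ.D b).s * n b g := hn.es b g
  have h2 := Vs_comp_Vd χ e (Δ.D b).sep
  have h3 := Vd_comp_Es χ e (Δ.D b).sep
  have h4 := Vs_comp_Vd χ e (Δ.D (g⁻¹ • b)).sep
  have h5 := Es_comp_Vs χ e (Δ.D (g⁻¹ • b)).sep
  have h6 : T 1 * Es (Δ.D b).s = Es (Δ.D b).s * T 1 := hT.es 1 _
  have h7 : T 1 * Es (Δ.D (g⁻¹ • b)).s = Es (Δ.D (g⁻¹ • b)).s * T 1 := hT.es 1 _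
  have h8 : Wg e g * T 1 = T g * Wg e g := by
    have := hT.cov g 1
    rwa [mul_one] at this
  have h9 : (tauV χ e T (Δ.D b)).comp ((thV χ e Δ n b g).comp (tauV χ e T (Δ.D (g⁻¹ • b)))) =
      ((χ.Vd e (Δ.D b).s).comp (T 1 * n b g * T g * Wg e g)).comp
        (χ.Vs e (Δ.D (g⁻¹ • b)).s) := by
    calc (tauV χ e T (Δ.D b)).comp ((thV χ e Δ n b g).comp (tauV χ e T (Δ.D (g⁻¹ • b))))
        = ((χ.Vd e (Δ.D b).s).comp (T 1 * ((χ.Vs e (Δ.D b).s).comp (χ.Vd e (Δ.D b).s)) *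
            n b g * Wg e g * ((χ.Vs e (Δ.D (g⁻¹ • b)).s).comp (χ.Vd e (Δ.D (g⁻¹ • b)).s)) *
            T 1)).comp (χ.Vs e (Δ.D (g⁻¹ • b)).s) := rfl
      _ = ((χ.Vd e (Δ.D b).s).comp (T 1 * Es (Δ.D b).s * n b g * Wg e g *
            Es (Δ.D (g⁻¹ • b)).s * T 1)).comp (χ.Vs e (Δ.D (g⁻¹ • b)).s) := by rw [h2, h4]
      _ = ((χ.Vd e (Δ.D b).s).comp (Es (Δ.D b).s * T 1 * n b g * Wg e g *
            (Es (Δ.D (g⁻¹ • b)).s * T 1))).comp (χ.Vs e (Δ.D (g⁻¹ • b)).s) := by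
          rw [h6, mul_assoc _ (Es (Δ.D (g⁻¹ • b)).s) (T 1)]
      _ = (((χ.Vd e (Δ.D b).s).comp (Es (Δ.D b).s)).comp (T 1 * n b g * Wg e g * T 1)).comp
            ((Es (Δ.D (g⁻¹ • b)).s).comp (χ.Vs e (Δ.D (g⁻¹ • b)).s)) := by
          rw [← h7]
          rfl
      _ = ((χ.Vd e (Δ.D b).s).comp (T 1 * n b g * (Wg e g * T 1))).comp
            (χ.Vs e (Δ.D (g⁻¹ • b)).s) := by
          rw [h3, h5]
          rfl
      _ = _ := by
          rw [h8]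
          rfl
  rw [h9]
  unfold kapV thV
  have h10 : ((χ.Vd e (Δ.D b).s).comp (T 1 * n b g * T g - n b g)) =
      (χ.Vd e (Δ.D b).s).comp (T 1 * n b g * T g) - (χ.Vd e (Δ.D b).s).comp (n b g) :=
    ContinuousLinearMap.comp_sub _ _ _
  rw [h10, ContinuousLinearMap.sub_comp, ContinuousLinearMap.sub_comp]
  rfl

/-- PROOF: `kapV_eq`, `SC_thV`, `hT.scV`, `SC.comp`, `SC.precomp`, `SC.sub`; `(b, g) ↦ g⁻¹ • b` is continuous. -/
theorem SC_kapV [IsTopologicalGroup G] [T2Space G] [LocallyCompactSpace G] [ContinuousSMul G B]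
    (hV : V ∈ 𝓝 (1 : G)) (hT : TOK χ e T) (hn : Sy χ e Δ T n) :
    SC fun z : B × G => kapV χ e Δ T n z.1 z.2 := by
  have h1 := SC_thV hV hn
  have h2 : SC fun z : B × G => tauV χ e T (Δ.D z.1) :=
    hT.scV.precomp (r := fun z : B × G => Δ.D z.1) (Δ.cont.comp continuous_fst)
  have h3 : SC fun z : B × G => tauV χ e T (Δ.D (z.2⁻¹ • z.1)) :=
    hT.scV.precomp (r := fun z : B × G => Δ.D (z.2⁻¹ • z.1))
      (Δ.cont.comp (continuous_snd.inv.smul continuous_fst))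
  have h4 : (fun z : B × G => kapV χ e Δ T n z.1 z.2) = fun z : B × G =>
      (tauV χ e T (Δ.D z.1)).comp ((thV χ e Δ n z.1 z.2).comp
      (tauV χ e T (Δ.D (z.2⁻¹ • z.1)))) - thV χ e Δ n z.1 z.2 :=
    funext fun z => kapV_eq hT hn z.1 z.2
  rw [h4]
  exact (h2.comp (h1.comp h3)).sub h1

/-- PROOF: `SC_of_LocAt` for the family `D ↦ D.s` on `ClV V` (`continuous_iff_fell`) and the constant operators `Ow ω 1 = dia (ω ∘ F)`; `LocAt_dia` with
`h D b = ω b.F` and `hω.cont` (the filter `𝓝 D₀`; `gF 1⁻¹ F = F`); the norms: `hω.nonneg`, `hω.le_one`. -/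
theorem SC_OmV [IsTopologicalGroup G] [T2Space G] [LocallyCompactSpace G] (hV : V ∈ 𝓝 (1 : G))
    {ω : Finset G → ℝ} (hω : Cutoff ω) : SC fun D : ClV V => OmV χ e ω D := by
  have hn : ∀ (F : Finset G), ‖((ω F : ℝ) : ℂ)‖ ≤ 1 := fun F => by
    rw [Complex.norm_real, Real.norm_eq_abs, abs_of_nonneg (hω.nonneg F)]
    exact hω.le_one F
  refine SC_of_LocAt χ hV e (Zp := ClV V) (D := fun D => D.s) (n := fun _ => Ow ω 1) (C := 1)
    (ClV.continuous_iff_fell.1 continuous_id) (fun D => D.sep)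
    (fun _ => norm_dia_le zero_le_one fun b => hn _) fun z₀ => ?_
  refine LocAt_dia e (h := fun _ b => ((ω (gF (1 : G)⁻¹ b.F) : ℝ) : ℂ)) (C := 1)
    (fun z b => hn _) z₀ fun L hL σ hσ β => ?_
  simp only [inv_one, gF_one, mp_F]
  exact (Complex.continuous_ofReal.tendsto _).comp (hω.cont _ _ L σ hσ.tend β.F)

/-- RIGHT FINITE. PROOF: let `C` be the compact set of `hω.cpt`. The set `A` of the `k` with `χ_k ≠ 0` somewhere on `C` is finite (`χ.fin`, `LocallyFinite.finite_nonempty_inter_compact`). Let `K` be the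
finite set of the `q` with `q.F ⊆ A`. For `q ∉ K`: `V_D^* (bv q) = wt q • bv (tau q)` (`Vs_bv`); if `wt q ≠ 0` then all `k ∈ q.F` are `ok` and some `k ∈ q.F` is not in `A`, so the point `pt D k` of `(tau q).F` is not in `C`, so
`ω (tau q).F = 0` and `Ow ω 1 (bv (tau q)) = 0` (`dia_bv`). -/
theorem exists_OmV_bv [T2Space G] {ω : Finset G → ℝ} (hω : Cutoff ω) :
    ∃ K : Finset (Bs ℕ), ∀ (D : ClV V), ∀ q ∉ K, OmV χ e ω D (bv q) = 0 := by
  classical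
  obtain ⟨C, hC, hCω⟩ := hω.cpt
  have hA := χ.fin.finite_nonempty_inter_compact hC
  have hfin : {q : Bs ℕ | q.F ⊆ hA.toFinset}.Finite := by
    refine Set.Finite.of_finite_image (f := fun q : Bs ℕ => (q.F, q.S)) ?_ ?_
    · refine ((hA.toFinset.powerset ×ˢ hA.toFinset.powerset).finite_toSet).subset ?_
      rintro _ ⟨q, hq, rfl⟩
      rw [Finset.mem_coe, Finset.mem_product, Finset.mem_powerset, Finset.mem_powerset]
      exact ⟨hq, q.sub.trans hq⟩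
    · intro q _ q' _ h
      exact Bs.ext (Prod.ext_iff.1 h).1 (Prod.ext_iff.1 h).2
  refine ⟨hfin.toFinset, fun D q hq => ?_⟩
  have hn : ∀ b : Bs G, ‖((ω (gF (1 : G)⁻¹ b.F) : ℝ) : ℂ)‖ ≤ 1 := fun b => by
    rw [Complex.norm_real, Real.norm_eq_abs, abs_of_nonneg (hω.nonneg _)]
    exact hω.le_one _
  show χ.Vd e D.s (Ow ω 1 (χ.Vs e D.s (bv q))) = 0
  rw [Vs_bv χ e D.sep, map_smul, map_smul]
  by_cases hw : χ.wt e D.s q = 0
  · rw [hw, zero_smul]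
  have hok : (∀ k ∈ q.F, χ.ok D.s k) ∧ Set.InjOn (χ.pt D.s) q.F := by
    by_contra hcon
    apply hw
    unfold Part.wt
    rw [if_neg hcon]
  have hex : ∃ k ∈ q.F, k ∉ hA.toFinset := by
    by_contra hcon
    push Not at hcon
    exact hq (hfin.mem_toFinset.2 hcon)
  obtain ⟨k, hk, hkA⟩ := hex
  have h1 := χ.pt_spec (hok.1 k hk)
  have h2 : χ.pt D.s k ∉ C := fun h3 => hkA (hA.mem_toFinset.2 ⟨_, h1.2, h3⟩)
  have h3 : ω (gF (1 : G)⁻¹ (χ.tau D.s q).F) = 0 := by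
    by_contra h4
    have h5 := hCω _ h4
    refine h2 (h5 ?_)
    rw [inv_one, gF_one, Finset.mem_coe]
    unfold Part.tau
    rw [Bs.mk_F]
    simp only [Finset.mem_image]
    exact ⟨k, hk, rfl⟩
  have h4 : Ow ω (1 : G) (bv (χ.tau D.s q)) = 0 := by
    unfold Ow
    rw [dia_bv hn, h3, Complex.ofReal_zero, zero_smul]
  rw [h4, map_zero, smul_zero]

/-- PROOF: `kapV b g (1 - OmV (g⁻¹ D b)) = V_b X W_g (1 - ω) V'^*` with `X = T 1 n T g - n` (`V'^* V' = Es`, which commutes with the multiplication operator `Ow ω 1`, `Es_comp_Vs`), and `W_g (1 - Ow ω 1) = (1 - Ow ω g) W_g` (`Wg_dia`,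
`(g⁻¹ • b).F = gF g⁻¹ b.F`), `W_g V'^* = Es (D b) W_g V'^*`. So the norm is at most `‖X (1 - Ow ω g) Es (D b)‖`. -/
theorem norm_kapV_sub_le (hT : TOK χ e T) (hn : Sy χ e Δ T n) {ω : Finset G → ℝ} (hω : Cutoff ω)
    (b : B) (g : G) :
    ‖(kapV χ e Δ T n b g).comp (1 - OmV χ e ω (Δ.D (g⁻¹ • b)))‖ ≤
      ‖(T 1 * n b g * T g - n b g) * (1 - Ow ω g) * Es (Δ.D b).s‖ := by
  have hn' : ∀ b : Bs G, ‖((ω (gF (1 : G)⁻¹ b.F) : ℝ) : ℂ)‖ ≤ 1 := fun b => by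
    rw [Complex.norm_real, Real.norm_eq_abs, abs_of_nonneg (hω.nonneg _)]
    exact hω.le_one _
  obtain ⟨X, hX⟩ : ∃ X, X = T 1 * n b g * T g - n b g := ⟨_, rfl⟩
  obtain ⟨D', hD'⟩ : ∃ D', D' = Δ.D (g⁻¹ • b) := ⟨_, rfl⟩
  have hD'' : D' = g⁻¹ • Δ.D b := by rw [hD', Δ.smul]
  have h4 := Vs_comp_Vd χ e D'.sep
  have h5 := Es_comp_Vs χ e D'.sep
  have h6 : Es D'.s * Ow ω 1 = Ow ω (1 : G) * Es D'.s := by
    unfold Ow
    rw [Es_eq_dia]
    exact (dia_comm_dia' (C' := 1) hn' fun b => by split_ifs <;> simp).symm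
  have h7 : Wg e g * Ow ω 1 = Ow ω g * Wg e g := by
    unfold Ow
    rw [Wg_dia e zero_le_one hn' g]
    congr 2
    funext b
    rw [Bs.smul_F, inv_one, gF_one]
  have h8 : Wg e g * Es D'.s = Es (Δ.D b).s * Wg e g := by
    rw [Wg_Es]
    congr 2
    ext i
    rw [hD'']
    show (g⁻¹)⁻¹ * (g⁻¹ • i) ∈ (Δ.D b).s ↔ i ∈ (Δ.D b).s
    rw [smul_eq_mul, inv_inv, mul_inv_cancel_left]
  have h9 : (kapV χ e Δ T n b g).comp (1 - OmV χ e ω (Δ.D (g⁻¹ • b))) =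
      ((χ.Vd e (Δ.D b).s).comp (X * (1 - Ow ω g) * Es (Δ.D b).s)).comp
        ((Wg e g : BL (Bs G)).comp (χ.Vs e D'.s)) := by
    have e1 : kapV χ e Δ T n b g = ((χ.Vd e (Δ.D b).s).comp (X * Wg e g)).comp
        (χ.Vs e D'.s) := by
      rw [hX, hD']
      rfl
    have e2 : (χ.Vs e D'.s).comp (1 - OmV χ e ω D') =
        (1 - Ow ω (1 : G) : BL (Bs G)).comp (χ.Vs e D'.s) := by
      have e3 : (χ.Vs e D'.s).comp (OmV χ e ω D') =
          (Ow ω (1 : G) : BL (Bs G)).comp (χ.Vs e D'.s) := by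
        calc (χ.Vs e D'.s).comp (OmV χ e ω D')
            = (((χ.Vs e D'.s).comp (χ.Vd e D'.s)) * Ow ω 1 : BL (Bs G)).comp (χ.Vs e D'.s) := rfl
          _ = (Ow ω (1 : G) : BL (Bs G)).comp ((Es D'.s).comp (χ.Vs e D'.s)) := by
              rw [h4, h6]
              rfl
          _ = _ := by rw [h5]
      rw [ContinuousLinearMap.comp_sub, e3, ContinuousLinearMap.sub_comp]
      rfl
    have e4 : Wg e g * (1 - Ow ω (1 : G)) = (1 - Ow ω g) * Wg e g := by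
      rw [mul_sub, mul_one, h7, sub_mul, one_mul]
    calc (kapV χ e Δ T n b g).comp (1 - OmV χ e ω (Δ.D (g⁻¹ • b)))
        = ((χ.Vd e (Δ.D b).s).comp (X * Wg e g)).comp
            ((χ.Vs e D'.s).comp (1 - OmV χ e ω D')) := by
          rw [e1, hD']
          rfl
      _ = ((χ.Vd e (Δ.D b).s).comp (X * (Wg e g * (1 - Ow ω (1 : G))))).comp (χ.Vs e D'.s) := by
          rw [e2]
          rfl
      _ = ((χ.Vd e (Δ.D b).s).comp (X * ((1 - Ow ω g) * Wg e g))).comp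
            ((Es D'.s).comp (χ.Vs e D'.s)) := by rw [e4, h5]
      _ = ((χ.Vd e (Δ.D b).s).comp (X * ((1 - Ow ω g) * (Wg e g * Es D'.s)))).comp
            (χ.Vs e D'.s) := rfl
      _ = _ := by
          rw [h8]
          rfl
  rw [h9, ← hX]
  have a1 := norm_Vd_le χ e (Δ.D b).sep
  have a2 := norm_Vs_le χ e D'.sep
  have a3 : ‖(Wg e g : BL (Bs G))‖ ≤ 1 := norm_Wg_le e g
  have a4 : ‖(Wg e g : BL (Bs G)).comp (χ.Vs e D'.s)‖ ≤ 1 := by
    refine (ContinuousLinearMap.opNorm_comp_le _ _).trans ?_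
    calc ‖(Wg e g : BL (Bs G))‖ * ‖χ.Vs e D'.s‖ ≤ 1 * 1 :=
          mul_le_mul a3 a2 (norm_nonneg _) zero_le_one
      _ = 1 := one_mul _
  refine (ContinuousLinearMap.opNorm_comp_le _ _).trans ?_
  calc ‖(χ.Vd e (Δ.D b).s).comp (X * (1 - Ow ω g) * Es (Δ.D b).s)‖ *
        ‖(Wg e g : BL (Bs G)).comp (χ.Vs e D'.s)‖
      ≤ (1 * ‖X * (1 - Ow ω g) * Es (Δ.D b).s‖) * 1 :=
        mul_le_mul ((ContinuousLinearMap.opNorm_comp_le _ _).trans
          (mul_le_mul_of_nonneg_right a1 (norm_nonneg _))) a4 (norm_nonneg _) (by positivity)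
    _ = _ := by rw [one_mul, mul_one]

/-! ### The same in absolute coordinates -/

/-- The symbol in absolute coordinates. -/
def absS (e : G ↪ O) (n : B → G → BL (Bs G)) (b : B) (a a' : G) : BL (Bs G) :=
  Wg e a * n (a⁻¹ • b) (a⁻¹ * a') * Wg e a⁻¹

/-- PROOF: `Wg_mul`: `V_{a⁻¹ D} W_a⁻¹ W_a n W_a⁻¹ W_a' V_{a'⁻¹ D}^*`, `W_a⁻¹ W_a' = W_(a⁻¹ a')`, `(a⁻¹ a')⁻¹ a⁻¹ b = a'⁻¹ b`. -/
theorem Va_absS_Vb (b : B) (a a' : G) :
    ((χ.Va e (Δ.D b) a).comp (absS e n b a a')).comp (χ.Vb e (Δ.D b) a') =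
      thV χ e Δ n (a⁻¹ • b) (a⁻¹ * a') := by
  have h1 : Δ.D (a⁻¹ • b) = a⁻¹ • Δ.D b := Δ.smul _ _
  have h2 : Δ.D ((a⁻¹ * a')⁻¹ • a⁻¹ • b) = a'⁻¹ • Δ.D b := by
    rw [← Δ.smul]
    congr 1
    rw [smul_smul]
    congr 1
    group
  unfold thV
  rw [h1, h2]
  calc ((χ.Va e (Δ.D b) a).comp (absS e n b a a')).comp (χ.Vb e (Δ.D b) a')
      = ((χ.Vd e (a⁻¹ • Δ.D b).s).comp ((Wg e a⁻¹ * Wg e a) * n (a⁻¹ • b) (a⁻¹ * a') *
          (Wg e a⁻¹ * Wg e a'))).comp (χ.Vs e (a'⁻¹ • Δ.D b).s) := rfl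
    _ = ((χ.Vd e (a⁻¹ • Δ.D b).s).comp (n (a⁻¹ • b) (a⁻¹ * a') * Wg e (a⁻¹ * a'))).comp
          (χ.Vs e (a'⁻¹ • Δ.D b).s) := by rw [Wg_inv_mul, one_mul, Wg_mul]
    _ = _ := rfl

/-- PROOF: `hT.cov`: `T a = W_a T(1) W_a⁻¹`. -/
theorem Va_T_Vb (hT : TOK χ e T) (D : ClV V) (a : G) :
    ((χ.Va e D a).comp (T a)).comp (χ.Vb e D a) = tauV χ e T (a⁻¹ • D) := by
  have h8 : T a * Wg e a = Wg e a * T 1 := by
    have := hT.cov a 1
    rw [mul_one] at this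
    exact this.symm
  calc ((χ.Va e D a).comp (T a)).comp (χ.Vb e D a)
      = ((χ.Vd e (a⁻¹ • D).s).comp (Wg e a⁻¹ * (T a * Wg e a))).comp (χ.Vs e (a⁻¹ • D).s) := rfl
    _ = ((χ.Vd e (a⁻¹ • D).s).comp (Wg e a⁻¹ * Wg e a * T 1)).comp (χ.Vs e (a⁻¹ • D).s) := by
        rw [h8, mul_assoc]
    _ = _ := by
        rw [Wg_inv_mul, one_mul]
        rfl

/-- PROOF: `hT.cov`: `T a = W_a T(1) W_a⁻¹`, `T a' = W_a T(a⁻¹ a') W_a⁻¹`. -/
theorem absS_comm (hT : TOK χ e T) (b : B) (a a' : G) :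
    T a * absS e n b a a' * T a' - absS e n b a a' =
      absS e (fun b g => T 1 * n b g * T g - n b g) b a a' := by
  have h8 : T a * Wg e a = Wg e a * T 1 := by
    have := hT.cov a 1
    rw [mul_one] at this
    exact this.symm
  have h9 : Wg e a⁻¹ * T a' = T (a⁻¹ * a') * Wg e a⁻¹ := hT.cov a⁻¹ a'
  unfold absS
  calc T a * (Wg e a * n (a⁻¹ • b) (a⁻¹ * a') * Wg e a⁻¹) * T a' -
        Wg e a * n (a⁻¹ • b) (a⁻¹ * a') * Wg e a⁻¹
      = (T a * Wg e a) * n (a⁻¹ • b) (a⁻¹ * a') * (Wg e a⁻¹ * T a') -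
          Wg e a * n (a⁻¹ • b) (a⁻¹ * a') * Wg e a⁻¹ := by noncomm_ring
    _ = _ := by
        rw [h8, h9]
        noncomm_ring

/-- PROOF: `hn.es`, `Wg_Es`, `Δ.smul`. -/
theorem absS_es (hn : Sy χ e Δ T n) (b : B) (a a' : G) :
    Commute (absS e n b a a') (Es (Δ.D b).s) := by
  obtain ⟨D', hD'⟩ : ∃ D', D' = Δ.D (a⁻¹ • b) := ⟨_, rfl⟩
  have hD'' : D' = a⁻¹ • Δ.D b := by rw [hD', Δ.smul]
  have h1 : n (a⁻¹ • b) (a⁻¹ * a') * Es D'.s = Es D'.s * n (a⁻¹ • b) (a⁻¹ * a') := by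
    rw [hD']
    exact hn.es _ _
  have h2 : Wg e a * Es D'.s = Es (Δ.D b).s * Wg e a := by
    rw [Wg_Es]
    congr 2
    ext i
    rw [hD'']
    show (a⁻¹)⁻¹ * (a⁻¹ • i) ∈ (Δ.D b).s ↔ i ∈ (Δ.D b).s
    rw [smul_eq_mul, inv_inv, mul_inv_cancel_left]
  have h3 : Wg e a⁻¹ * Es (Δ.D b).s = Es D'.s * Wg e a⁻¹ := by
    rw [Wg_Es]
    congr 2
    rw [hD'']
    rfl
  unfold absS
  show Wg e a * n (a⁻¹ • b) (a⁻¹ * a') * Wg e a⁻¹ * Es (Δ.D b).s =
    Es (Δ.D b).s * (Wg e a * n (a⁻¹ • b) (a⁻¹ * a') * Wg e a⁻¹)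
  calc Wg e a * n (a⁻¹ • b) (a⁻¹ * a') * Wg e a⁻¹ * Es (Δ.D b).s
      = Wg e a * n (a⁻¹ • b) (a⁻¹ * a') * (Wg e a⁻¹ * Es (Δ.D b).s) := by noncomm_ring
    _ = Wg e a * (n (a⁻¹ • b) (a⁻¹ * a') * Es D'.s) * Wg e a⁻¹ := by rw [h3]; noncomm_ring
    _ = (Wg e a * Es D'.s) * n (a⁻¹ • b) (a⁻¹ * a') * Wg e a⁻¹ := by rw [h1]; noncomm_ring
    _ = _ := by rw [h2]; noncomm_ring

/-- PROOF: `hn.pp`, `Wg_Pp`. -/
theorem absS_pp (hn : Sy χ e Δ T n) (b : B) (a a' : G) : Commute (absS e n b a a') Pp := by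
  have h1 : n (a⁻¹ • b) (a⁻¹ * a') * Pp = Pp * n (a⁻¹ • b) (a⁻¹ * a') := hn.pp _ _
  have h2 : Wg e a * Pp = (Pp : BL (Bs G)) * Wg e a := Wg_Pp e a
  have h3 : Wg e a⁻¹ * Pp = (Pp : BL (Bs G)) * Wg e a⁻¹ := Wg_Pp e a⁻¹
  unfold absS
  show Wg e a * n (a⁻¹ • b) (a⁻¹ * a') * Wg e a⁻¹ * Pp =
    Pp * (Wg e a * n (a⁻¹ • b) (a⁻¹ * a') * Wg e a⁻¹)
  calc Wg e a * n (a⁻¹ • b) (a⁻¹ * a') * Wg e a⁻¹ * Pp
      = Wg e a * n (a⁻¹ • b) (a⁻¹ * a') * (Wg e a⁻¹ * Pp) := by noncomm_ring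
    _ = Wg e a * (n (a⁻¹ • b) (a⁻¹ * a') * Pp) * Wg e a⁻¹ := by rw [h3]; noncomm_ring
    _ = (Wg e a * Pp) * n (a⁻¹ • b) (a⁻¹ * a') * Wg e a⁻¹ := by rw [h1]; noncomm_ring
    _ = _ := by rw [h2]; noncomm_ring

theorem norm_absS_le (b : B) (a a' : G) : ‖absS e n b a a'‖ ≤ ‖n (a⁻¹ • b) (a⁻¹ * a')‖ :=
  norm_mul_mul_le (norm_Wg_le e a) (norm_Wg_le e a⁻¹)

end Pool.Agent.Lib.MP_aa9b81_an.Cb
end
end

section

section
/-!
# Continuous Bernoulli, part Sb0: the Clifford operators and the cutoffs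
-/

open scoped ENNReal Topology
open Function Filter Topology Set

noncomputable section

set_option linter.unusedSectionVars false

namespace Pool.Agent.Lib.MP_aa9b81_an.Cb

open Cut Hs

section Base

variable {G Y : Type} [Group G] [TopologicalSpace G] [TopologicalSpace Y] [MulAction G Y]
  {V : Set G} (Δ : Df G Y V)

/-- The family on a product. -/
def Df.base (P : Type) [TopologicalSpace P] [MulAction G P] : Df G (Y × P) V where
  D b := Δ.D b.1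
  cont := Δ.cont.comp continuous_fst
  smul g b := Δ.smul g b.1

end Base

section Clif

variable {I O Zp : Type} [DecidableEq I] [LinearOrder O]

/-- PROOF: `norm_Cl_sub_mul_dia_le` for the indicator function of `b.F`. -/
theorem norm_Cl_sub_bv_le (e : I ↪ O) {a a' : Finset I → I → ℝ} {C₀ C₀' : ℝ} (h : CB a C₀)
    (h' : CB a' C₀') (b : Bs I) :
    ‖Cl e a (bv b) - Cl e a' (bv b)‖ ≤ nF b.F fun i => a b.F i - a' b.F i := by
  have h1 := norm_Cl_sub_mul_dia_le e h h' (φ := fun F => if F = b.F then (1 : ℝ) else 0)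
    (fun F => by split_ifs <;> simp) (nF_nonneg b.F fun i => a b.F i - a' b.F i)
    (fun F hF => by
      by_cases h2 : F = b.F
      · rw [h2]
      · exact absurd (if_neg h2) hF)
  have h2 : (dia (fun c : Bs I => (((if c.F = b.F then (1 : ℝ) else 0 : ℝ)) : ℂ)) : BL (Bs I))
      (bv b) = bv b := by
    rw [dia_bv (C := 1) (fun c => by split_ifs <;> simp), if_pos rfl, Complex.ofReal_one, one_smul]
  have h3 : Cl e a (bv b) - Cl e a' (bv b) = ((Cl e a - Cl e a') *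
      dia (fun c : Bs I => (((if c.F = b.F then (1 : ℝ) else 0 : ℝ)) : ℂ)) : BL (Bs I)) (bv b) := by
    rw [mul_apply_eq_comp, h2]
    rfl
  rw [h3]
  refine (ContinuousLinearMap.le_opNorm _ _).trans ?_
  rw [norm_bv, mul_one]
  exact h1

/-- Continuity of the unit vectors in the weight. PROOF: `nF_uu_sub_w`. -/
theorem tendsto_nF_uu {s : ℝ} (hs : 0 ≤ s) (hs1 : s ≤ 1) {l : Filter Zp} {w : Zp → I → ℝ}
    {w₀ : I → ℝ} (hw : ∀ z i, 1 ≤ w z i) (hw₀ : ∀ i, 1 ≤ w₀ i) (F : Finset I)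
    (h : ∀ i ∈ F, Tendsto (fun z => w z i) l (𝓝 (w₀ i))) :
    Tendsto (fun z => nF F fun i => uu s (w z) F i - uu s w₀ F i) l (𝓝 0) := by
  rcases F.eq_empty_or_nonempty with rfl | hF
  · simp only [nF_empty]
    exact tendsto_const_nhds
  have h1 : Tendsto (fun z => nF F fun i => w z i - w₀ i) l (𝓝 0) := by
    have h2 : Tendsto (fun z => ∑ i ∈ F, (w z i - w₀ i) ^ 2) l (𝓝 (∑ i ∈ F, (w₀ i - w₀ i) ^ 2)) :=
      tendsto_finsetSum _ fun i hi => ((h i hi).sub_const _).pow 2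
    have h3 := (Real.continuous_sqrt.tendsto _).comp h2
    have h4 : √(∑ i ∈ F, (w₀ i - w₀ i) ^ 2) = 0 := by simp
    rw [h4] at h3
    exact h3
  have h5 : Tendsto (fun z => 8 * (nF F fun i => w z i - w₀ i) / nF F w₀) l (𝓝 0) := by
    have h6 := (h1.const_mul 8).div_const (nF F w₀)
    rw [mul_zero, zero_div] at h6
    exact h6
  exact squeeze_zero (fun z => nF_nonneg _ _)
    (fun z => nF_uu_sub_w hs hs1 (hw z) hw₀ hF) h5

theorem tendsto_nF {l : Filter Zp} {w : Zp → I → ℝ} {w₀ : I → ℝ} (F : Finset I)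
    (h : ∀ i ∈ F, Tendsto (fun z => w z i) l (𝓝 (w₀ i))) :
    Tendsto (fun z => nF F (w z)) l (𝓝 (nF F w₀)) := by
  unfold nF
  exact (Real.continuous_sqrt.tendsto _).comp (tendsto_finsetSum _ fun i hi => (h i hi).pow 2)

theorem tendsto_uu {s : ℝ} (hs : 0 ≤ s) (hs1 : s ≤ 1) {l : Filter Zp} {w : Zp → I → ℝ}
    {w₀ : I → ℝ} (hw₀ : ∀ i, 1 ≤ w₀ i) (F : Finset I)
    (h : ∀ i, Tendsto (fun z => w z i) l (𝓝 (w₀ i))) (i : I) :
    Tendsto (fun z => uu s (w z) F i) l (𝓝 (uu s w₀ F i)) := by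
  rcases F.eq_empty_or_nonempty with rfl | hF
  · unfold uu
    simp only [nF_empty, div_zero]
    exact tendsto_const_nhds
  have h1 := tendsto_nF F fun i _ => h i
  have h2 : nF F w₀ ≠ 0 := (nF_pos hF fun i => lt_of_lt_of_le one_pos (hw₀ i)).ne'
  have h3 : ∀ j, Tendsto (fun z => pp s (w z) F j) l (𝓝 (pp s w₀ F j)) := by
    intro j
    unfold pp
    exact (((h j).div h1 h2).const_mul _).add tendsto_const_nhds
  have h4 := tendsto_nF F fun i _ => h3 i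
  have h5 : nF F (pp s w₀ F) ≠ 0 := by
    have := nF_pp_ge hs hs1 hw₀ hF
    intro h6
    rw [h6] at this
    linarith
  exact (h3 i).div h4 h5

end Clif

section Sym

variable {G O : Type} [Group G] [TopologicalSpace G] [DecidableEq G] [LinearOrder O]
  {V : Set G}

/-- PROOF: `F.map (s z)` for a local section. -/
theorem Wc.LocAt_TT [IsTopologicalGroup G] (W : Wc G) (e : G ↪ O) {Zp : Type}
    [TopologicalSpace Zp] (D : Zp → Set G) {s : ℝ} (hs : 0 ≤ s) (hs1 : s ≤ 1) (z₀ : Zp) :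
    LocAt e D (fun _ => TT e s W.w) z₀ := by
  refine LocAt_Cl e (CB_uu s W.w) z₀ fun L hL σ hσ F i => ?_
  have h1 : ((i : G)) = iL L i := rfl
  rw [h1]
  simp only [uu_map]
  refine tendsto_uu hs hs1 (fun i => W.one_le _) F (fun j => ?_) i
  exact (W.cont.tendsto _).comp (hσ.tend j)

/-- The Clifford operators. PROOF: `norm_TT_le`, `Wg_TT` (with `W.tr_mul`), `TT_mul_TT`, `TT_mul_Pp` (`Pm = 1 - Pp`), `Es_comm_TT`. `sc`: `SC.of_bv`: for a basis vector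
`bv b`, `TT e s (W.tr a) (bv b)` is the finite sum of the `± uu s (W.tr a) b.F i • bv (tog i b)`, `i ∈ b.F`, and `a ↦ uu s (W.tr a) F i` is continuous (a quotient of finite sums and square roots of continuous functions
with a denominator which is not `0`, for `F ≠ ∅`: `nF_pp_ge`, `nF_pos`). `scV`: `SC_of_LocAt` for the family `D ↦ D.s` on `ClV V` and `LocAt_Cl` for `u = uu s W.w` (`W.tr_one`; `uu_map`, the same continuity in the positions of the points). -/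
theorem TOK_TT [IsTopologicalGroup G] [T2Space G] [LocallyCompactSpace G] (χ : Part V)
    (hV : V ∈ 𝓝 (1 : G)) (e : G ↪ O) (W : Wc G) {s : ℝ} (hs : 0 ≤ s) (hs1 : s ≤ 1) :
    TOK χ e fun a => TT e s (W.tr a) where
  norm a := norm_TT_le e s _
  cov a b := by
    rw [Wg_TT]
    congr 2
    funext i
    show W.tr b (a⁻¹ * i) = W.tr (a * b) i
    rw [← W.tr_mul a b, mul_inv_cancel_left]
  sq a := TT_mul_TT e hs hs1 (W.one_le_tr a)
  odd a := by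
    rw [TT_mul_Pp]
    congr 1
    rw [eq_sub_iff_add_eq, add_comm, Pp_add_Pm]
  es a s' := Es_comm_TT e s _ s'
  sc := by
    refine SC.of_bv (C := 1) (fun a => norm_TT_le e s _) fun b => ?_
    rw [continuous_iff_continuousAt]
    intro a₀
    rw [ContinuousAt, tendsto_iff_norm_sub_tendsto_zero]
    refine squeeze_zero (fun a => norm_nonneg _)
      (fun a => norm_Cl_sub_bv_le e (CB_uu s (W.tr a)) (CB_uu s (W.tr a₀)) b) ?_
    refine tendsto_nF_uu hs hs1 (fun a i => W.one_le_tr a i) (W.one_le_tr a₀) b.F fun i _ => ?_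
    exact (W.cont.tendsto _).comp ((continuous_inv.mul continuous_const).tendsto a₀)
  scV := by
    have h1 := SC_of_LocAt χ hV e (Zp := ClV V) (D := fun D => D.s) (n := fun _ => TT e s W.w)
      (C := 1) (ClV.continuous_iff_fell.1 continuous_id) (fun D => D.sep) (fun _ => norm_TT_le e s _)
      fun z₀ => W.LocAt_TT e _ hs hs1 z₀
    rw [W.tr_one]
    exact h1

/-- The cutoff functions. PROOF: `om_nonneg`, `om_le_one`; `cpt`: if `om R W.w F ≠ 0` then `w i ≤ nF F w < 2 R` for `i ∈ F` (`lt_of_om_ne_zero`), and `W.proper (2 R)`; `cont`: `om_map`, finite sums of continuous functions. -/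
theorem Cutoff_om [IsTopologicalGroup G] (W : Wc G) {R : ℝ} (hR : 0 < R) :
    Cutoff (om R W.w) where
  nonneg := om_nonneg R _
  le_one := om_le_one R _
  cpt := by
    obtain ⟨K, hK, hKw⟩ := W.proper (2 * R)
    refine ⟨K, hK, fun F hF i hi => hKw ?_⟩
    have h1 := lt_of_om_ne_zero hR hF
    refine le_trans ?_ h1.le
    have h2 : |W.w i| ≤ nF F W.w := Real.abs_le_sqrt
      (Finset.single_le_sum (f := fun i => W.w i ^ 2) (fun i _ => sq_nonneg _) (Finset.mem_coe.1 hi))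
    exact (le_abs_self _).trans h2
  cont := by
    intro Zp l L σ hσ F
    simp only [om_map]
    have h1 : Tendsto (fun z => nF F fun i => W.w (σ z i)) l (𝓝 (nF F fun i => W.w (iL L i))) := by
      unfold nF
      refine (Real.continuous_sqrt.tendsto _).comp ?_
      exact tendsto_finsetSum _ fun i _ => ((W.cont.tendsto _).comp (hσ i)).pow 2
    unfold om
    exact tendsto_const_nhds.min (tendsto_const_nhds.max (tendsto_const_nhds.sub (h1.div_const _)))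

theorem Ow_eq (W : Wc G) (R : ℝ) (g : G) : Ow (om R W.w) g = Om R (W.tr g) := by
  unfold Ow Om
  congr 1
  funext b
  unfold om
  rw [W.nF_tr]
  rfl

end Sym

end Pool.Agent.Lib.MP_aa9b81_an.Cb
end

end


section
/-!
# Continuous Bernoulli, part Sb1: the symbols of the three stages, stage 1
-/

open scoped ENNReal Topology
open Function Filter Topology Set

noncomputable section

set_option linter.unusedSectionVars false

namespace Pool.Agent.Lib.MP_aa9b81_an.Cb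

open Cut Hs

/-- `φ : B → G → ℂ` is continuous with compact support. -/
structure Cc (B G : Type) [TopologicalSpace B] [TopologicalSpace G] (φ : B → G → ℂ) : Prop where
  cont : Continuous fun z : B × G => φ z.1 z.2
  supp : HasCompactSupport fun z : B × G => φ z.1 z.2

section Gen

variable {G B : Type} [TopologicalSpace G] [TopologicalSpace B] {φ : B → G → ℂ}

theorem Cc.exists_bound (hφ : Cc B G φ) : ∃ M : ℝ, 0 < M ∧ ∀ b g, ‖φ b g‖ ≤ M := by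
  obtain ⟨M, hM⟩ := hφ.cont.bounded_above_of_compact_support hφ.supp
  exact ⟨|M| + 1, by positivity, fun b g => (hM (b, g)).trans ((le_abs_self M).trans (by linarith))⟩

theorem Cc.exists_supp (hφ : Cc B G φ) :
    ∃ C : Set G, IsCompact C ∧ ∀ b, ∀ g ∉ C, φ b g = 0 := by
  refine ⟨Prod.snd '' tsupport fun z : B × G => φ z.1 z.2, hφ.supp.image continuous_snd,
    fun b g hg => ?_⟩
  by_contra h
  exact hg ⟨(b, g), subset_tsupport _ h, rfl⟩

end Gen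

section Gen2

variable {G O Y P : Type} [Group G] [TopologicalSpace G] [DecidableEq G] [LinearOrder O]
  [TopologicalSpace Y] [MulAction G Y] [TopologicalSpace P]
  {V : Set G} {Δ : Df G Y V} {φ : Prs Δ × P → G → ℂ}

/-- PROOF: `Df.exists_local` for `P × G`. -/
theorem Cc.exists_loc [IsTopologicalGroup G] [T2Space G] [LocallyCompactSpace G] [T2Space Y]
    [T2Space P] (hV : IsOpen V) (h1 : (1 : G) ∈ V) (hφ : Cc _ G φ) {ε : ℝ} (hε : 0 < ε) :
    ∃ C : Set G, IsCompact C ∧ ∀ (y : Y) (T T' : Set G) (p : P) (g : G),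
      (Δ.D y).s ∩ T ∩ C = (Δ.D y).s ∩ T' ∩ C → ‖φ (Δ.pt y T, p) g - φ (Δ.pt y T', p) g‖ ≤ ε := by
  have h2 : Continuous fun q : Prs Δ × (P × G) => ((q.1, q.2.1), q.2.2) := by fun_prop
  have h3 : Continuous fun q : Prs Δ × (P × G) => φ (q.1, q.2.1) q.2.2 := hφ.cont.comp h2
  have h4 : HasCompactSupport fun q : Prs Δ × (P × G) => φ (q.1, q.2.1) q.2.2 :=
    hφ.supp.comp_homeomorph (Homeomorph.prodAssoc (Prs Δ) P G).symm
  obtain ⟨C, hC, h5⟩ := Δ.exists_local hV h1 h3 h4 hε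
  exact ⟨C, hC, fun y T T' p g h => h5 y T T' (p, g) h⟩

/-- PROOF: `Df.exists_compact` for `P × G`. -/
theorem Cc.exists_dec [IsTopologicalGroup G] [T2Space G] [LocallyCompactSpace G]
    (hφ : Cc _ G φ) : ∃ K : Set (Y × P), IsCompact K ∧
      ∀ (y : Y) (T : Set G) (p : P) (g : G), (y, p) ∉ K → φ (Δ.pt y T, p) g = 0 := by
  refine ⟨(fun z : (Prs Δ × P) × G => (z.1.1.1.1, z.1.2)) '' tsupport fun z : (Prs Δ × P) × G =>
    φ z.1 z.2, hφ.supp.image ?_, fun y T p g hg => ?_⟩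
  · refine Continuous.prodMk ?_ (by fun_prop)
    exact (continuous_fst.comp continuous_subtype_val).comp (continuous_fst.comp continuous_fst)
  · by_contra h
    exact hg ⟨((Δ.pt y T, p), g), subset_tsupport _ h, rfl⟩

/-- PROOF: `T g` commutes with `Lg R (W.tr g) D`, `T g T g = 1 - PV` and `PV Lg = 0` as `om ∅ = 1`. -/
theorem Wc.norm_comm_le [IsTopologicalGroup G] (W : Wc G) (e : G ↪ O) {s : ℝ} (hs : 0 ≤ s) (hs1 : s ≤ 1) {R : ℝ}
    (n : BL (Bs G)) (g : G) (D : Set G) :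
    ‖(TT e s W.w * n * TT e s (W.tr g) - n) * Lg R (W.tr g) D‖ ≤
      ‖(TT e s W.w * n - n * TT e s (W.tr g)) * Lg R (W.tr g) D‖ := by
  have hT := TT_mul_TT e hs hs1 (W.one_le_tr g)
  have hc : TT e s (W.tr g) * Lg R (W.tr g) D = Lg R (W.tr g) D * TT e s (W.tr g) := by
    unfold Lg
    calc TT e s (W.tr g) * ((1 - Om R (W.tr g)) * Es D)
        = (TT e s (W.tr g) - TT e s (W.tr g) * Om R (W.tr g)) * Es D := by
          rw [← mul_assoc, mul_sub, mul_one]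
      _ = ((1 - Om R (W.tr g)) * TT e s (W.tr g)) * Es D := by
          rw [TT_comm_Om, sub_mul 1, one_mul]
      _ = (1 - Om R (W.tr g)) * Es D * TT e s (W.tr g) := by
          rw [mul_assoc, Es_comm_TT, mul_assoc]
  have hP : (PV : BL (Bs G)) * Lg R (W.tr g) D = 0 := by
    rw [Lg_eq]
    refine ContinuousLinearMap.ext fun ξ => ?_
    ext b
    rw [mul_apply_eq_comp, PV_apply, dia_apply zero_le_one (norm_lg_le R _ D)]
    split_ifs with h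
    · have h2 : lg R (W.tr g) D b.F = 0 := by
        rw [h]
        unfold lg
        rw [if_pos (by simp), om, nF_empty, zero_div, sub_zero, max_eq_right (by norm_num),
          min_eq_left (by norm_num), sub_self]
      rw [h2]
      simp
    · rfl
  set T1 : BL (Bs G) := TT e s W.w
  set Tg : BL (Bs G) := TT e s (W.tr g) with hTg
  set P : BL (Bs G) := Lg R (W.tr g) D
  have h3 : n * P = n * Tg * P * Tg := by
    calc n * P = n * ((1 - PV) * P) := by rw [sub_mul, one_mul, hP, sub_zero]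
      _ = n * (Tg * Tg * P) := by rw [hT]
      _ = n * (Tg * (P * Tg)) := by rw [mul_assoc Tg Tg P, hc]
      _ = n * Tg * P * Tg := by noncomm_ring
  have h4 : (T1 * n * Tg - n) * P = ((T1 * n - n * Tg) * P) * Tg := by
    calc (T1 * n * Tg - n) * P = T1 * n * (Tg * P) - n * P := by noncomm_ring
      _ = T1 * n * (P * Tg) - n * Tg * P * Tg := by rw [hc, ← h3]
      _ = ((T1 * n - n * Tg) * P) * Tg := by noncomm_ring
  rw [h4]
  exact (norm_mul_le _ _).trans ((mul_le_mul_of_nonneg_left (norm_TT_le e s _)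
    (norm_nonneg _)).trans (by rw [mul_one]))

/-- The condition `comm` of a symbol. -/
theorem comm_of {B : Type} [TopologicalSpace B] [MulAction G B] {Δ : Df G B V}
    (W : Wc G) (e : G ↪ O) [IsTopologicalGroup G] {s : ℝ} (hs : 0 ≤ s) (hs1 : s ≤ 1)
    {n : B → G → BL (Bs G)} {C : Set G} (hC : ∀ b, ∀ g ∉ C, n b g = 0)
    (h : ∀ η : ℝ, 0 < η → ∃ R : ℝ, 0 < R ∧ ∀ b, ∀ g ∈ C,
      ‖(TT e s W.w * n b g - n b g * TT e s (W.tr g)) * Lg R (W.tr g) (Δ.D b).s‖ ≤ η)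
    (ε : ℝ) (hε : 0 < ε) : ∃ ω : Finset G → ℝ, Cutoff ω ∧ ∀ b g,
      ‖(TT e s (W.tr 1) * n b g * TT e s (W.tr g) - n b g) * (1 - Ow ω g) * Es (Δ.D b).s‖ ≤ ε := by
  obtain ⟨R, hR, h1⟩ := h ε hε
  refine ⟨om R W.w, Cutoff_om W hR, fun b g => ?_⟩
  by_cases hg : g ∈ C
  · rw [Ow_eq, W.tr_one, mul_assoc]
    exact (W.norm_comm_le e hs hs1 (n b g) g (Δ.D b).s).trans (h1 b g hg)
  · rw [hC b g hg]
    simp only [mul_zero, zero_mul, sub_self, norm_zero]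
    exact hε.le

end Gen2

section Dia

variable {I Zp : Type} [DecidableEq I] [TopologicalSpace Zp]

theorem dia_eq_zero {h : Bs I → ℂ} (h0 : ∀ β, h β = 0) : (dia h : BL (Bs I)) = 0 := by
  refine ContinuousLinearMap.ext fun ξ => ?_
  ext b
  rw [dia_apply (C := 0) le_rfl fun b => by rw [h0, norm_zero], h0, zero_mul]
  rfl

theorem dia_comm_dia {h h' : Bs I → ℂ} {C C' : ℝ} (hC : ∀ b, ‖h b‖ ≤ C) (hC' : ∀ b, ‖h' b‖ ≤ C') :
    Commute (dia h : BL (Bs I)) (dia h') := by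
  have h0 : 0 ≤ C := (norm_nonneg _).trans (hC Bs.vac)
  have h0' : 0 ≤ C' := (norm_nonneg _).trans (hC' Bs.vac)
  refine ContinuousLinearMap.ext fun ξ => ?_
  ext b
  rw [mul_apply_eq_comp, mul_apply_eq_comp, dia_apply h0 hC, dia_apply h0' hC', dia_apply h0' hC',
    dia_apply h0 hC]
  ring

theorem dia_comm_Es {h : Bs I → ℂ} {C : ℝ} (hC : ∀ b, ‖h b‖ ≤ C) (D : Set I) :
    Commute (dia h : BL (Bs I)) (Es D) := by
  classical
  rw [Es_eq_dia]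
  exact dia_comm_dia (C' := 1) hC fun b => by split_ifs <;> simp

theorem dia_comm_Pp {h : Bs I → ℂ} {C : ℝ} (hC : ∀ b, ‖h b‖ ≤ C) :
    Commute (dia h : BL (Bs I)) Pp := by
  rw [Pp]
  exact dia_comm_dia (C' := 1) hC fun b => by split_ifs <;> simp

theorem SC_dia {h : Zp → Bs I → ℂ} {C : ℝ} (hC : ∀ z b, ‖h z b‖ ≤ C)
    (hc : ∀ b, Continuous fun z => h z b) : SC fun z => (dia (h z) : BL (Bs I)) := by
  rcases isEmpty_or_nonempty Zp with hZ | ⟨⟨z₁⟩⟩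
  · exact ⟨fun v => continuous_of_discreteTopology, 0, fun z => hZ.elim z⟩
  have h0 : 0 ≤ C := (norm_nonneg _).trans (hC z₁ Bs.vac)
  refine SC.of_bv (C := C) (fun z => norm_dia_le h0 (hC z)) fun b => ?_
  simp only [dia_bv (hC _)]
  exact (hc b).smul continuous_const

end Dia

section M1

variable {G O Y P : Type} [Group G] [TopologicalSpace G] [DecidableEq G] [LinearOrder O]
  [TopologicalSpace Y] [MulAction G Y] [TopologicalSpace P] [MulAction G P]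
  {V : Set G} {Δ : Df G Y V} {φ : Prs Δ × P → G → ℂ}

theorem compl_gF (a : G) (F : Finset G) :
    {x : G | a⁻¹ * x ∈ ((gF a⁻¹ F : Finset G) : Set G)ᶜ} = (F : Set G)ᶜ := by
  ext x
  show a⁻¹ * x ∉ ((gF a⁻¹ F : Finset G) : Set G) ↔ x ∉ (F : Set G)
  rw [Finset.mem_coe, mem_gF, Finset.mem_coe, smul_eq_mul, inv_inv, mul_inv_cancel_left]

/-- STAGE 1, for any factor `P`. -/
theorem Sy_m1 [IsTopologicalGroup G] [T2Space G] [LocallyCompactSpace G] [T2Space Y]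
    [ContinuousSMul G Y] [T2Space P] [ContinuousSMul G P] (χ : Part V) (hV : IsOpen V)
    (h1 : (1 : G) ∈ V) (e : G ↪ O) (W : Wc G) {s : ℝ} (hs : 0 ≤ s)
    (hs1 : s ≤ 1) (hφ : Cc _ G φ) :
    Sy χ e (Δ.base P) (fun a => TT e s (W.tr a))
      (fun b g => dia fun β => φ (Δ.pt b.1 (β.F : Set G)ᶜ, b.2) g) := by
  have hV1 : V ∈ 𝓝 (1 : G) := hV.mem_nhds h1
  obtain ⟨M, hM, hMφ⟩ := hφ.exists_bound
  obtain ⟨C, hC, hCφ⟩ := hφ.exists_supp
  obtain ⟨K, hK, hKφ⟩ := hφ.exists_dec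
  refine ⟨⟨M, fun b g => norm_dia_le hM.le fun β => hMφ _ _⟩,
    ⟨C, hC, fun b g hg => dia_eq_zero fun β => hCφ _ g hg⟩,
    ⟨K, hK, fun b hb g => dia_eq_zero fun β => hKφ b.1 _ b.2 g hb⟩,
    fun b g => dia_comm_Es (C := M) (fun β => hMφ _ _) _,
    fun b g => dia_comm_Pp (C := M) fun β => hMφ _ _, ?_, ?_, ?_⟩
  · -- sc
    refine SC_of_LocAt χ hV1 e (Zp := (Y × P) × G) (D := fun z => (Δ.D z.1.1).s)
      (n := fun z => dia fun β => φ (Δ.pt z.1.1 (β.F : Set G)ᶜ, z.1.2) z.2) (C := M)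
      ?_ (fun z => (Δ.D z.1.1).sep) (fun z => norm_dia_le hM.le fun β => hMφ _ _) fun z₀ => ?_
    · exact ClV.continuous_iff_fell.1 (Δ.cont.comp (continuous_fst.comp continuous_fst))
    · refine LocAt_dia e (C := M) (fun z b => hMφ _ _) z₀ fun L hL σ hσ β => ?_
      have h2 := Δ.tendsto_pt_compl hV1 (y := fun z : (Y × P) × G => z.1.1) (z₀ := z₀)
        (continuous_fst.comp continuous_fst).continuousAt hL hσ β.F
      have h3 := (hφ.cont.tendsto ((Δ.pt z₀.1.1 ((β.F.map (iL L) : Finset G) : Set G)ᶜ, z₀.1.2),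
        z₀.2)).comp ((h2.prodMk_nhds ((continuous_snd.comp continuous_fst).tendsto z₀)).prodMk_nhds
          (continuous_snd.tendsto z₀))
      exact h3
  · -- abs
    intro b
    have h2 : ∀ p : G × G, Wg e p.1 * (dia fun β => φ (Δ.pt (p.1⁻¹ • b).1 (β.F : Set G)ᶜ,
        (p.1⁻¹ • b).2) (p.1⁻¹ * p.2)) * Wg e p.1⁻¹ = dia fun β : Bs G =>
          φ (p.1⁻¹ • (Δ.pt b.1 (β.F : Set G)ᶜ, b.2)) (p.1⁻¹ * p.2) := by
      intro p
      rw [Wg_dia e hM.le (fun β => hMφ _ _), mul_assoc, Wg_mul_inv, mul_one]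
      congr 1
      funext β
      congr 2
      show Δ.pt (p.1⁻¹ • b.1) ((gF p.1⁻¹ β.F : Finset G) : Set G)ᶜ = p.1⁻¹ • Δ.pt b.1 _
      rw [Δ.pt_smul, compl_gF]
    simp only [h2]
    have := Prs.continuousSMul Δ hV1
    refine SC_dia (C := M) (fun p β => hMφ _ _) fun β => ?_
    have h3 : Continuous fun p : G × G => (p.1⁻¹ • (Δ.pt b.1 (β.F : Set G)ᶜ, b.2), p.1⁻¹ * p.2) :=
      (continuous_fst.inv.smul continuous_const).prodMk (continuous_fst.inv.mul continuous_snd)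
    exact hφ.cont.comp h3
  · -- comm
    refine comm_of (Δ := Δ.base P) W e hs hs1 (C := C)
      (fun b g hg => dia_eq_zero fun β => hCφ _ g hg) fun η hη => ?_
    obtain ⟨R₀, hR₀, h2⟩ := W.small_F e hV1 hC (show 0 < η / M by positivity)
    refine ⟨R₀, hR₀, fun b g hg => ?_⟩
    have h3 := h2 R₀ le_rfl g hg (Δ.D b.1).s (Δ.D b.1).sep
      (fun F => (M : ℂ)⁻¹ * φ (Δ.pt b.1 (F : Set G)ᶜ, b.2) g) (fun F => ?_) s hs hs1
    · have h4 : (dia fun β : Bs G => φ (Δ.pt b.1 (β.F : Set G)ᶜ, b.2) g : BL (Bs G)) =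
          (M : ℂ) • dia fun β : Bs G => (M : ℂ)⁻¹ * φ (Δ.pt b.1 (β.F : Set G)ᶜ, b.2) g := by
        refine ContinuousLinearMap.ext fun ξ => ?_
        ext β
        have h5 : (((M : ℂ) • dia fun β : Bs G => (M : ℂ)⁻¹ *
            φ (Δ.pt b.1 (β.F : Set G)ᶜ, b.2) g : BL (Bs G)) ξ : Bs G → ℂ) β =
            (M : ℂ) * ((dia fun β : Bs G => (M : ℂ)⁻¹ *
            φ (Δ.pt b.1 (β.F : Set G)ᶜ, b.2) g : BL (Bs G)) ξ : Bs G → ℂ) β := rfl
        rw [h5, dia_apply hM.le (fun β => hMφ _ _), dia_apply zero_le_one (fun β => ?_)]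
        · have hM' : (M : ℂ) ≠ 0 := by exact_mod_cast hM.ne'
          field_simp
        · rw [norm_mul, norm_inv, Complex.norm_real, Real.norm_eq_abs, abs_of_pos hM]
          rw [inv_mul_le_iff₀ hM, mul_one]
          exact hMφ _ _
      rw [h4, mul_smul_comm, smul_mul_assoc, ← smul_sub, smul_mul_assoc, norm_smul,
        Complex.norm_real, Real.norm_eq_abs, abs_of_pos hM]
      calc M * _ ≤ M * (η / M) := mul_le_mul_of_nonneg_left h3 hM.le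
        _ = η := by field_simp
    · rw [norm_mul, norm_inv, Complex.norm_real, Real.norm_eq_abs, abs_of_pos hM]
      rw [inv_mul_le_iff₀ hM, mul_one]
      exact hMφ _ _

end M1

end Pool.Agent.Lib.MP_aa9b81_an.Cb
end

end
end
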