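import Pool.Agent.Lib.MP_aa9b81_an.Mg.G063
import Pool.Agent.Lib.MP_aa9b81_an.Mg.G066
import Pool.Agent.Lib.MP_aa9b81_an.Mg.G068
import Pool.Agent.Lib.MP_aa9b81_an.Mg.G074
import Pool.Agent.Lib.MP_aa9b81_an.Mg.G062
import Pool.Agent.Lib.MP_aa9b81_an.Mg.G069
import Pool.Agent.Lib.MP_aa9b81_an.Mg.G071

section

/-!
# Continuous Bernoulli, part Kb: the operators of the symbols, membership in the crossed product
-/

open scoped ENNReal Topology
open Function Filter MeasureTheory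

noncomputable section

set_option linter.unusedSectionVars false

namespace Pool.Agent.Lib.MP_aa9b81_an.Cb

open Cut Hs

variable {G O B : Type} [Group G] [TopologicalSpace G] [IsTopologicalGroup G]
  [LocallyCompactSpace G] [SecondCountableTopology G] [T2Space G] [MeasurableSpace G]
  [BorelSpace G] [DecidableEq G] [LinearOrder O] {V : Set G}

/-- The constant family `1 ⊗ m`. -/
def cF {P : Type} (B : Type) (m : BL P) : FamG G (ℕ × P) B := fam fun _ => cm m

/-- The constant family of the multiplication operators `T a`, `a ∈ G`. -/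
def tF (B : Type) (T : G → BL (Bs G)) : FamG G (ℕ × Bs G) B := fam fun _ => Mul fun a => am (T a)

/-- PROOF: `fam_apply`, `norm_cm_le`. -/
theorem cF_apply {P : Type} (m : BL P) (b : B) :
    (cF B m : FamG G (ℕ × P) B).fn b = (cm m : HG G (ℕ × P) →L[ℂ] HG G (ℕ × P)) := by
  exact fam_apply (fun _ => norm_cm_le m) b

theorem cF_mul {P : Type} [Nonempty P] (m m' : BL P) :
    (cF B (m * m') : FamG G (ℕ × P) B) = cF B m * cF B m' := by
  refine FamG.ext fun b => ?_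
  rw [FamG.mul_apply, cF_apply, cF_apply, cF_apply, cm_mul]

theorem cF_one {P : Type} [Nonempty P] : (cF B (1 : BL P) : FamG G (ℕ × P) B) = 1 := by
  refine FamG.ext fun b => ?_
  rw [FamG.one_apply, cF_apply, cm_one]

theorem cF_sub {P : Type} [Nonempty P] (m m' : BL P) :
    (cF B (m - m') : FamG G (ℕ × P) B) = cF B m - cF B m' := by
  refine FamG.ext fun b => ?_
  rw [FamG.sub_apply, cF_apply, cF_apply, cF_apply, cm_sub]

variable {χ : Part V} {e : G ↪ O} {T : G → BL (Bs G)}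

theorem tF_apply (hT : TOK χ e T) (b : B) :
    (tF B T : FamG G (ℕ × Bs G) B).fn b =
      (Mul fun a => am (T a) : HG G (ℕ × Bs G) →L[ℂ] HG G (ℕ × Bs G)) := by
  exact fam_apply (C := 1) (fun _ => norm_Mul_le hT.sc.am fun a =>
    (norm_am_le _).trans (hT.norm a)) b

/-- PROOF: `Mul_comp_Mul`, `am_comp`, `hT.odd`. -/
theorem Pp_mul_tF (hT : TOK χ e T) :
    (cF B Pp : FamG G (ℕ × Bs G) B) * tF B T = tF B T * (1 - cF B Pp) := by
  refine FamG.ext fun b => ?_
  rw [FamG.mul_apply, FamG.mul_apply, FamG.sub_apply, FamG.one_apply, cF_apply, tF_apply hT]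
  have h0 : (1 : HG G (ℕ × Bs G) →L[ℂ] HG G (ℕ × Bs G)) - cm Pp = cm (1 - Pp) := by
    rw [cm_sub, cm_one]
  rw [h0]
  have h1 : (cm (Pp : BL (Bs G)) : HG G (ℕ × Bs G) →L[ℂ] _).comp (Mul fun a => am (T a)) =
      Mul fun a => (am Pp).comp (am (T a)) := Mul_comp_Mul (SC.const _) hT.sc.am
  have h2 : (Mul fun a => am (T a) : HG G (ℕ × Bs G) →L[ℂ] _).comp (cm (1 - Pp)) =
      Mul fun a => (am (T a)).comp (am (1 - Pp)) := Mul_comp_Mul hT.sc.am (SC.const _)
  show (cm (Pp : BL (Bs G)) : HG G (ℕ × Bs G) →L[ℂ] _).comp (Mul fun a => am (T a)) =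
    (Mul fun a => am (T a) : HG G (ℕ × Bs G) →L[ℂ] _).comp (cm (1 - Pp))
  rw [h1, h2]
  congr 1
  funext a
  rw [am_comp, am_comp]
  exact congrArg am (hT.odd a)

/-- PROOF: `hT.sq`. -/
theorem tF_mul_tF (hT : TOK χ e T) :
    (tF B T : FamG G (ℕ × Bs G) B) * tF B T = 1 - cF B PV := by
  refine FamG.ext fun b => ?_
  rw [FamG.mul_apply, FamG.sub_apply, FamG.one_apply, cF_apply, tF_apply hT]
  have h0 : (1 : HG G (ℕ × Bs G) →L[ℂ] HG G (ℕ × Bs G)) - cm PV = cm (1 - PV) := by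
    rw [cm_sub, cm_one]
  rw [h0]
  have h1 : (Mul fun a => am (T a) : HG G (ℕ × Bs G) →L[ℂ] HG G (ℕ × Bs G)).comp
      (Mul fun a => am (T a)) = Mul fun a => (am (T a)).comp (am (T a)) :=
    Mul_comp_Mul hT.sc.am hT.sc.am
  show (Mul fun a => am (T a) : HG G (ℕ × Bs G) →L[ℂ] HG G (ℕ × Bs G)).comp
    (Mul fun a => am (T a)) = cm (1 - PV)
  rw [h1]
  unfold cm
  congr 1
  funext a
  rw [am_comp]
  exact congrArg am (hT.sq a)

/-- PROOF: `hT.es`. -/
theorem tF_es (hT : TOK χ e T) (s : Set G) (b : B) :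
    Commute ((tF B T : FamG G (ℕ × Bs G) B) b) (cm (Es s)) := by
  have h0 : (tF B T : FamG G (ℕ × Bs G) B) b =
      (Mul fun a => am (T a) : HG G (ℕ × Bs G) →L[ℂ] HG G (ℕ × Bs G)) := tF_apply hT b
  rw [h0]
  have h1 : (cm (Es s) : HG G (ℕ × Bs G) →L[ℂ] _).comp (Mul fun a => am (T a)) =
      Mul fun a => (am (Es s)).comp (am (T a)) := Mul_comp_Mul (SC.const _) hT.sc.am
  have h2 : (Mul fun a => am (T a) : HG G (ℕ × Bs G) →L[ℂ] _).comp (cm (Es s)) =
      Mul fun a => (am (T a)).comp (am (Es s)) := Mul_comp_Mul hT.sc.am (SC.const _)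
  show (Mul fun a => am (T a) : HG G (ℕ × Bs G) →L[ℂ] _).comp (cm (Es s)) =
    (cm (Es s) : HG G (ℕ × Bs G) →L[ℂ] _).comp (Mul fun a => am (T a))
  rw [h1, h2]
  congr 1
  funext a
  rw [am_comp, am_comp]
  exact congrArg am (hT.es a s)

theorem cF_es {m : BL (Bs G)} {s : Set G} (h : Commute m (Es s)) (b : B) :
    Commute ((cF B m : FamG G (ℕ × Bs G) B) b) (cm (Es s)) := by
  have h0 : (cF B m : FamG G (ℕ × Bs G) B) b = (cm m : HG G (ℕ × Bs G) →L[ℂ] _) := cF_apply m b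
  rw [h0]
  show cm m * cm (Es s) = cm (Es s) * cm m
  rw [← cm_mul, ← cm_mul, h.eq]

variable [TopologicalSpace B] [T2Space B] [MulAction G B] [ContinuousSMul G B] {Δ : Df G B V}
  {n : B → G → BL (Bs G)}

/-- The family of the operators with the kernel `E_ij ⊗ n`, in absolute coordinates. -/
def oS (e : G ↪ O) (n : B → G → BL (Bs G)) (i j : ℕ) : FamG G (ℕ × Bs G) B :=
  fam fun b => opk fun a a' => ek i j (absS e n b a a')

private theorem Kb_ek_zero {P P' : Type} (i j : ℕ) : ek i j (0 : L2 P →L[ℂ] L2 P') = 0 := by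
  have h1 := norm_ek_le i j (0 : L2 P →L[ℂ] L2 P')
  rw [norm_zero] at h1
  exact norm_le_zero_iff.1 h1

/-- PROOF: `hn.abs` (`SC.ek`), `hn.norm`, `hn.supp`, `norm_absS_le`, `norm_ek_le`. -/
theorem KOK_absS (hn : Sy χ e Δ T n) : ∃ (C : Set G) (M : ℝ), ∀ (b : B) (i j : ℕ),
    KOK C M fun a a' => ek i j (absS e n b a a') := by
  obtain ⟨M, hM⟩ := hn.norm
  obtain ⟨C, hC, hC'⟩ := hn.supp
  refine ⟨C, max M 0, fun b i j => ⟨hC, le_max_right _ _, fun v => ?_, fun a a' => ?_,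
    fun a a' ha => ?_⟩⟩
  · exact ((hn.abs b).ek i j).cont v
  · exact (norm_ek_le _ _ _).trans ((norm_absS_le (e := e) b a a').trans
      ((hM _ _).trans (le_max_left _ _)))
  · have h1 : absS e n b a a' = 0 := by
      have h2 := norm_absS_le (e := e) (n := n) b a a'
      rw [hC' _ _ ha, norm_zero] at h2
      exact norm_le_zero_iff.1 h2
    rw [h1, Kb_ek_zero]

/-- PROOF: `fam_apply`, `KOK_absS`, `norm_opk_le`. -/
theorem oS_apply (hn : Sy χ e Δ T n) (i j : ℕ) (b : B) :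
    oS e n i j b = opk fun a a' => ek i j (absS e n b a a') := by
  obtain ⟨C, M, h⟩ := KOK_absS hn
  exact fam_apply (fun b => norm_opk_le (h b i j)) b

/-- PROOF: `Mul_comp_opk`, `opk_comp_Mul`, `am_comp_ek`, `ek_comp_am`, `absS_es`. -/
theorem oS_es (hn : Sy χ e Δ T n) (i j : ℕ) (b : B) :
    Commute (oS e n i j b) (cm (Es (Δ.D b).s)) := by
  obtain ⟨C, M, h⟩ := KOK_absS hn
  rw [oS_apply hn]
  have h1 : (cm (Es (Δ.D b).s) : HG G (ℕ × Bs G) →L[ℂ] _).comp
      (opk fun a a' => ek i j (absS e n b a a')) =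
      opk fun a a' => (am (Es (Δ.D b).s)).comp (ek i j (absS e n b a a')) :=
    Mul_comp_opk (h b i j) (SC.const _)
  have h2 : (opk fun a a' => ek i j (absS e n b a a')).comp
      (cm (Es (Δ.D b).s) : HG G (ℕ × Bs G) →L[ℂ] _) =
      opk fun a a' => (ek i j (absS e n b a a')).comp (am (Es (Δ.D b).s)) :=
    opk_comp_Mul (h b i j) (SC.const _)
  show (opk fun a a' => ek i j (absS e n b a a')).comp
      (cm (Es (Δ.D b).s) : HG G (ℕ × Bs G) →L[ℂ] _) =
    (cm (Es (Δ.D b).s) : HG G (ℕ × Bs G) →L[ℂ] _).comp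
      (opk fun a a' => ek i j (absS e n b a a'))
  rw [h1, h2]
  congr 1
  funext a a'
  rw [am_comp_ek, ek_comp_am]
  exact congrArg (ek i j) (absS_es hn b a a')

/-- PROOF: `absS_pp`. -/
theorem oS_pp (hn : Sy χ e Δ T n) (i j : ℕ) :
    (cF B Pp : FamG G (ℕ × Bs G) B) * oS e n i j = oS e n i j * cF B Pp := by
  refine FamG.ext fun b => ?_
  obtain ⟨C, M, h⟩ := KOK_absS hn
  have h0 : (cF B Pp : FamG G (ℕ × Bs G) B) b = (cm Pp : HG G (ℕ × Bs G) →L[ℂ] _) :=
    cF_apply Pp b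
  rw [FamG.mul_apply, FamG.mul_apply, oS_apply hn, h0]
  have h1 : (cm Pp : HG G (ℕ × Bs G) →L[ℂ] HG G (ℕ × Bs G)).comp
      (opk fun a a' => ek i j (absS e n b a a')) =
      opk fun a a' => (am Pp).comp (ek i j (absS e n b a a')) :=
    Mul_comp_opk (h b i j) (SC.const _)
  have h2 : (opk fun a a' => ek i j (absS e n b a a')).comp
      (cm Pp : HG G (ℕ × Bs G) →L[ℂ] HG G (ℕ × Bs G)) =
      opk fun a a' => (ek i j (absS e n b a a')).comp (am Pp) :=
    opk_comp_Mul (h b i j) (SC.const _)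
  show (cm Pp : HG G (ℕ × Bs G) →L[ℂ] HG G (ℕ × Bs G)).comp
      (opk fun a a' => ek i j (absS e n b a a')) =
    (opk fun a a' => ek i j (absS e n b a a')).comp
      (cm Pp : HG G (ℕ × Bs G) →L[ℂ] HG G (ℕ × Bs G))
  rw [h1, h2]
  congr 1
  funext a a'
  rw [am_comp_ek, ek_comp_am]
  exact congrArg (ek i j) (absS_pp hn b a a').symm

/-- The kernels `E_ij ⊗ V n W V^*` are equivariant kernels. PROOF: `SC_thV`, `norm_thV_le`, `SC.ek`, `norm_ek_le`, `hn.supp`. -/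
theorem FOK_thV (hV : V ∈ 𝓝 (1 : G)) (hn : Sy χ e Δ T n) : ∃ (C : Set G) (M : ℝ), ∀ i j : ℕ,
    FOK C M fun b g => ek i j (thV χ e Δ n b g) := by
  obtain ⟨M, hM⟩ := hn.norm
  obtain ⟨C, hC, hC'⟩ := hn.supp
  refine ⟨C, max M 0, fun i j => ⟨hC, le_max_right _ _, fun v => ?_, fun b g => ?_,
    fun b g hg => ?_⟩⟩
  · exact ((SC_thV hV hn).ek i j).cont v
  · exact (norm_ek_le _ _ _).trans ((norm_thV_le b g).trans ((hM _ _).trans (le_max_left _ _)))
  · have h1 : thV χ e Δ n b g = 0 := by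
      have h2 := norm_thV_le (χ := χ) (e := e) (Δ := Δ) (n := n) b g
      rw [hC' _ _ hg, norm_zero] at h2
      exact norm_le_zero_iff.1 h2
    rw [h1, Kb_ek_zero]

private theorem Kb_norm_comm (hT : TOK χ e T) (b : B) (g : G) :
    ‖T 1 * n b g * T g - n b g‖ ≤ 2 * ‖n b g‖ := by
  have h1 : ‖T 1 * n b g * T g‖ ≤ ‖n b g‖ := by
    calc ‖T 1 * n b g * T g‖ ≤ ‖T 1 * n b g‖ * ‖T g‖ := norm_mul_le _ _
      _ ≤ (‖T 1‖ * ‖n b g‖) * ‖T g‖ := mul_le_mul_of_nonneg_right (norm_mul_le _ _) (norm_nonneg _)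
      _ ≤ (1 * ‖n b g‖) * 1 := by
        refine mul_le_mul ?_ (hT.norm g) (norm_nonneg _) (by positivity)
        exact mul_le_mul_of_nonneg_right (hT.norm 1) (norm_nonneg _)
      _ = ‖n b g‖ := by rw [one_mul, mul_one]
  calc ‖T 1 * n b g * T g - n b g‖ ≤ ‖T 1 * n b g * T g‖ + ‖n b g‖ := norm_sub_le _ _
    _ ≤ 2 * ‖n b g‖ := by linarith

/-- PROOF: `SC_kapV`; `norm_thV_le` for the symbol `T 1 * n b g * T g - n b g`, of norm at most `2 ‖n b g‖` (`hT.norm`). -/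
theorem FOK_kapV (hV : V ∈ 𝓝 (1 : G)) (hT : TOK χ e T) (hn : Sy χ e Δ T n) :
    ∃ (C : Set G) (M : ℝ), ∀ i j : ℕ, FOK C M fun b g => ek i j (kapV χ e Δ T n b g) := by
  obtain ⟨M, hM⟩ := hn.norm
  obtain ⟨C, hC, hC'⟩ := hn.supp
  refine ⟨C, max (2 * M) 0, fun i j => ⟨hC, le_max_right _ _, fun v => ?_, fun b g => ?_,
    fun b g hg => ?_⟩⟩
  · exact ((SC_kapV hV hT hn).ek i j).cont v
  · refine (norm_ek_le _ _ _).trans ((norm_thV_le b g).trans ((Kb_norm_comm hT b g).trans ?_))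
    exact (mul_le_mul_of_nonneg_left (hM b g) zero_le_two).trans (le_max_left _ _)
  · have h1 : kapV χ e Δ T n b g = 0 := by
      have h3 : T 1 * n b g * T g - n b g = 0 := by
        rw [hC' _ _ hg, mul_zero, zero_mul, sub_zero]
      have h2 : ‖kapV χ e Δ T n b g‖ ≤ ‖T 1 * n b g * T g - n b g‖ := norm_thV_le b g
      rw [h3, norm_zero] at h2
      exact norm_le_zero_iff.1 h2
    rw [h1, Kb_ek_zero]

private theorem Kb_conj (hV : V ∈ 𝓝 (1 : G)) (D : ClV V) {C : Set G} {M : ℝ}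
    {k : G → G → BL (Bs G)} {i j : ℕ} (h : KOK C M fun a a' => ek i j (k a a')) :
    (bV χ e D).comp ((opk fun a a' => ek i j (k a a')).comp (bVs χ e D)) =
      opk fun a a' => ek i j (((χ.Va e D a).comp (k a a')).comp (χ.Vb e D a')) := by
  have hs : SC fun a : G => am (χ.Vb e D a) := (SC_Vb χ hV e D).am
  have hs' : SC fun a : G => am (χ.Va e D a) := (SC_Va χ e D).am
  have h1 : (opk fun a a' => ek i j (k a a')).comp (bVs χ e D) =
      opk fun a a' => (ek i j (k a a')).comp (am (χ.Vb e D a')) := opk_comp_Mul h hs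
  have h2 := h.right hs zero_le_one fun a => (norm_am_le _).trans (norm_Vb_le χ e D a)
  have h3 : (bV χ e D).comp (opk fun a a' => (ek i j (k a a')).comp (am (χ.Vb e D a'))) =
      opk fun a a' => (am (χ.Va e D a)).comp ((ek i j (k a a')).comp (am (χ.Vb e D a'))) :=
    Mul_comp_opk h2 hs'
  rw [h1, h3]
  congr 1
  funext a a'
  rw [ek_comp_am, am_comp_ek]
  rfl

/-- PROOF: `cj_apply`, `oS_apply`, `Mul_comp_opk`, `opk_comp_Mul`, `am_comp_ek`, `ek_comp_am`, `Va_absS_Vb`; the right side is `opk (kat _ b)`. -/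
theorem cj_oS (hV : V ∈ 𝓝 (1 : G)) (hn : Sy χ e Δ T n) (i j : ℕ) :
    cj χ e Δ (oS e n i j) = fam (opF fun b g => ek i j (thV χ e Δ n b g)) := by
  obtain ⟨C, M, hK⟩ := KOK_absS (χ := χ) hn
  obtain ⟨C', M', hF⟩ := FOK_thV hV hn
  refine FamG.ext fun b => ?_
  rw [cj_apply hV, oS_apply hn, fam_apply (fun b => norm_opF_le (hF i j) b),
    Kb_conj hV _ (hK b i j)]
  unfold opF
  congr 1
  funext a a'
  rw [Va_absS_Vb]
  rfl

/-- PROOF: `cj_apply`, `Mul_comp_Mul`, `am_comp`, `Va_T_Vb`, `Δ.smul`. -/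
theorem cj_tF (hV : V ∈ 𝓝 (1 : G)) (hT : TOK χ e T) :
    cj χ e Δ (tF B T) = fam (MulF fun b => am (tauV χ e T (Δ.D b))) := by
  have hs : SC fun b : B => am (tauV χ e T (Δ.D b)) := (hT.scV.precomp Δ.cont).am
  obtain ⟨N, hN⟩ := hs.bdd
  refine FamG.ext fun b => ?_
  have h0 : (tF B T : FamG G (ℕ × Bs G) B) b =
      (Mul fun a => am (T a) : HG G (ℕ × Bs G) →L[ℂ] HG G (ℕ × Bs G)) := tF_apply hT b
  rw [cj_apply hV, h0, fam_apply (norm_MulF_le hs hN)]
  have hs1 : SC fun a : G => am (χ.Vb e (Δ.D b) a) := (SC_Vb χ hV e _).am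
  have hs2 : SC fun a : G => am (χ.Va e (Δ.D b) a) := (SC_Va χ e _).am
  have h1 : (Mul fun a => am (T a)).comp (bVs χ e (Δ.D b)) =
      Mul fun a => (am (T a)).comp (am (χ.Vb e (Δ.D b) a)) := Mul_comp_Mul hT.sc.am hs1
  have h2 : (bV χ e (Δ.D b)).comp (Mul fun a => (am (T a)).comp (am (χ.Vb e (Δ.D b) a))) =
      Mul fun a => (am (χ.Va e (Δ.D b) a)).comp ((am (T a)).comp (am (χ.Vb e (Δ.D b) a))) :=
    Mul_comp_Mul hs2 (hT.sc.am.comp hs1)
  rw [h1, h2]
  unfold MulF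
  congr 1
  funext a
  rw [am_comp, am_comp]
  show am ((χ.Va e (Δ.D b) a).comp ((T a).comp (χ.Vb e (Δ.D b) a))) =
    am (tauV χ e T (Δ.D (a⁻¹ • b)))
  rw [Δ.smul, ← Va_T_Vb hT]
  rfl

/-- PROOF: as `cj_oS`: `tF T * oS n * tF T - oS n` has at `b` the kernel `ek i j (T a * absS e n b a a' * T a' - absS e n b a a')`, which is `ek i j (absS e (T 1 n T g - n) b a a')` (`absS_comm`), so its conjugate has the kernel
`ek i j (thV (T 1 n T g - n) (a⁻¹ b) (a⁻¹ a'))` (`Va_absS_Vb`), and this is `kapV`. -/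
theorem cj_comm (hV : V ∈ 𝓝 (1 : G)) (hT : TOK χ e T) (hn : Sy χ e Δ T n) (i j : ℕ) :
    cj χ e Δ (tF B T * oS e n i j * tF B T - oS e n i j) =
      fam (opF fun b g => ek i j (kapV χ e Δ T n b g)) := by
  obtain ⟨C, M, hK⟩ := KOK_absS (χ := χ) hn
  obtain ⟨C', M', hF⟩ := FOK_kapV hV hT hn
  refine FamG.ext fun b => ?_
  have h0 : (tF B T : FamG G (ℕ × Bs G) B) b =
      (Mul fun a => am (T a) : HG G (ℕ × Bs G) →L[ℂ] HG G (ℕ × Bs G)) := tF_apply hT b
  rw [cj_apply hV, FamG.sub_apply, FamG.mul_apply, FamG.mul_apply, h0, oS_apply hn,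
    fam_apply (fun b => norm_opF_le (hF i j) b)]
  have hT' : ∀ a : G, ‖am (T a)‖ ≤ 1 := fun a => (norm_am_le _).trans (hT.norm a)
  have k1 := (hK b i j).left hT.sc.am zero_le_one hT'
  have h1 : (Mul fun a => am (T a)) * (opk fun a a' => ek i j (absS e n b a a')) =
      opk fun a a' => (am (T a)).comp (ek i j (absS e n b a a')) :=
    Mul_comp_opk (hK b i j) hT.sc.am
  have k2 := k1.right hT.sc.am zero_le_one hT'
  have h2 : (opk fun a a' => (am (T a)).comp (ek i j (absS e n b a a'))) *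
      (Mul fun a => am (T a)) =
      opk fun a a' => ((am (T a)).comp (ek i j (absS e n b a a'))).comp (am (T a')) :=
    opk_comp_Mul k1 hT.sc.am
  have h3 := opk_sub k2 (hK b i j)
  have k3 := k2.sub (hK b i j)
  have h4 : (fun a a' => ((am (T a)).comp (ek i j (absS e n b a a'))).comp (am (T a')) -
      ek i j (absS e n b a a')) = fun a a' =>
        ek i j (absS e (fun b g => T 1 * n b g * T g - n b g) b a a') := by
    funext a a'
    rw [am_comp_ek, ek_comp_am, ← ek_sub, ← absS_comm hT]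
    rfl
  rw [h4] at h3 k3
  rw [h1, h2, ← h3, Kb_conj hV _ k3]
  unfold opF
  congr 1
  funext a a'
  rw [Va_absS_Vb]
  rfl

/-- MEMBERSHIP. PROOF: `isClosed_cpG`: let `ε > 0`, and `ω` from `hn.comm`. By `norm_kapV_sub_le` the kernel `κ b g = ek i j (kapV b g)` differs from `κ' b g = ek i j (kapV b g ∘ OmV ω (g⁻¹ • Δ.D b))` in norm by at most `ε`, for all `b, g`, and both are supported in the
same compact set; so the operators differ by at most `ε cs C` (`opF_sub`, `norm_opF_le`). `κ'` is an equivariant kernel (`FOK.right` with `τ b = am (OmV ω (Δ.D b))`, `SC_OmV` precomposed with `Δ.cont`, `ek_comp_am`), it is zero on `bv (k, q)` for `k ≠ j` or `q` outside of the finite set of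
`exists_OmV_bv`, and `κ' b g → 0` for `b → ∞` since `n b g = 0` for `b` outside of a compact set (`hn.dec`). `mem_cpG_of_finite`. -/
theorem cj_comm_mem (hV : V ∈ 𝓝 (1 : G)) (hT : TOK χ e T) (hn : Sy χ e Δ T n) (i j : ℕ) :
    cj χ e Δ (tF B T * oS e n i j * tF B T - oS e n i j) ∈ cpG G (ℕ × Bs ℕ) B := by
  classical
  rw [cj_comm hV hT hn]
  obtain ⟨C, M, hF⟩ := FOK_kapV hV hT hn
  obtain ⟨K, hK, hK0⟩ := hn.dec
  have hcl := (isClosed_cpG (G := G) (J := ℕ × Bs ℕ) (B := B)).closure_eq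
  change fam (opF fun b g => ek i j (kapV χ e Δ T n b g)) ∈
    (cpG G (ℕ × Bs ℕ) B : Set (FamG G (ℕ × Bs ℕ) B))
  rw [← hcl, Metric.mem_closure_iff]
  intro ε hε
  have hcs : 0 ≤ cs C := Real.sqrt_nonneg _
  obtain ⟨ω, hω, hb⟩ := hn.comm (ε / (cs C + 1) / 2) (by positivity)
  have hs : SC fun b : B => am (OmV χ e ω (Δ.D b)) := ((SC_OmV hV hω).precomp Δ.cont).am
  obtain ⟨N, hN⟩ := hs.bdd
  have hN' : ∀ b : B, ‖am (OmV χ e ω (Δ.D b))‖ ≤ max N 0 := fun b =>
    (hN b).trans (le_max_left _ _)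
  have hR := (hF i j).right hs (le_max_right N 0) hN'
  obtain ⟨F, hF'⟩ := exists_OmV_bv (χ := χ) (e := e) hω
  have hz : ∀ b g, ∀ p ∉ ({j} ×ˢ F : Finset (ℕ × Bs ℕ)),
      ((ek i j (kapV χ e Δ T n b g)).comp (am (OmV χ e ω (Δ.D (g⁻¹ • b))))) (bv p) = 0 := by
    intro b g p hp
    obtain ⟨k, q⟩ := p
    rw [ek_comp_am]
    ext r
    rw [ek_bv]
    by_cases hr : r.1 = i ∧ k = j
    · rw [if_pos hr]
      have hq : q ∉ F := by
        intro hq
        exact hp (Finset.mem_product.2 ⟨Finset.mem_singleton.2 hr.2, hq⟩)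
      rw [ContinuousLinearMap.comp_apply, hF' _ _ hq, map_zero]
      rfl
    · rw [if_neg hr]
      rfl
  refine ⟨_, mem_cpG_of_finite hR _ hz fun δ hδ => ⟨K, hK, fun b hb g => ?_⟩, ?_⟩
  · have h1 : kapV χ e Δ T n b g = 0 := by
      have h3 : T 1 * n b g * T g - n b g = 0 := by
        rw [hK0 _ hb, mul_zero, zero_mul, sub_zero]
      have h2 : ‖kapV χ e Δ T n b g‖ ≤ ‖T 1 * n b g * T g - n b g‖ := norm_thV_le b g
      rw [h3, norm_zero] at h2
      exact norm_le_zero_iff.1 h2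
    rw [h1, Kb_ek_zero, ContinuousLinearMap.zero_comp, norm_zero]
    exact hδ.le
  · have hD : FOK C (ε / (cs C + 1) / 2) fun b g => ek i j (kapV χ e Δ T n b g) -
        (ek i j (kapV χ e Δ T n b g)).comp (am (OmV χ e ω (Δ.D (g⁻¹ • b)))) := by
      refine ⟨(hF i j).cpt, by positivity, ((hF i j).sub hR).cont, fun b g => ?_, fun b g hg => ?_⟩
      · have h1 : ek i j (kapV χ e Δ T n b g) -
            (ek i j (kapV χ e Δ T n b g)).comp (am (OmV χ e ω (Δ.D (g⁻¹ • b)))) =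
            ek i j ((kapV χ e Δ T n b g).comp (1 - OmV χ e ω (Δ.D (g⁻¹ • b)))) := by
          rw [ek_comp_am, ← ek_sub, ContinuousLinearMap.comp_sub]
          rfl
        rw [h1]
        exact (norm_ek_le _ _ _).trans ((norm_kapV_sub_le hT hn hω b g).trans (hb b g))
      · have h1 := (hF i j).supp b g hg
        have h1' : ek i j (kapV χ e Δ T n b g) = 0 := h1
        rw [h1', ContinuousLinearMap.zero_comp, sub_zero]
    rw [dist_eq_norm]
    refine lt_of_le_of_lt ((FamG.norm_le_iff (C := ε / (cs C + 1) / 2 * cs C)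
      (by positivity)).2 fun b => ?_) ?_
    · rw [FamG.sub_apply, fam_apply (fun b => norm_opF_le (hF i j) b),
        fam_apply (fun b => norm_opF_le hR b), ← opF_sub (hF i j) hR]
      exact norm_opF_le hD b
    · have h1 : ε / (cs C + 1) / 2 * cs C ≤ ε / 2 := by
        have h2 : ε / (cs C + 1) * cs C ≤ ε := by
          rw [div_mul_eq_mul_div, div_le_iff₀ (by positivity)]
          nlinarith
        linarith
      linarith

/-- PROOF: `cj_oS`, `FOK_thV`, `LM_opF`. -/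
theorem cj_oS_LM (hV : V ∈ 𝓝 (1 : G)) (hn : Sy χ e Δ T n) (i j : ℕ) :
    cj χ e Δ (oS e n i j) ∈ LM G (ℕ × Bs ℕ) B := by
  obtain ⟨C', M', hF⟩ := FOK_thV hV hn
  rw [cj_oS hV hn]
  exact LM_opF (hF i j)

/-- PROOF: `cj_tF`, `LM_MulF`, `hT.scV` precomposed with `Δ.cont`, `SC.am`. -/
theorem cj_tF_LM (hV : V ∈ 𝓝 (1 : G)) (hT : TOK χ e T) :
    cj χ e Δ (tF B T) ∈ LM G (ℕ × Bs ℕ) B := by
  rw [cj_tF hV hT]
  exact LM_MulF (hT.scV.precomp Δ.cont).am

/-- PROOF: `LM_MulF` for the constant function `am m`; `cF B m = fam (MulF fun _ => am m)`. -/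
theorem cF_LM (m : BL (Bs ℕ)) : (cF B m : FamG G (ℕ × Bs ℕ) B) ∈ LM G (ℕ × Bs ℕ) B := by
  exact LM_MulF (τ := fun _ : B => am m) (SC.const _)

end Pool.Agent.Lib.MP_aa9b81_an.Cb
end
end

section

section
/-!
# Continuous Bernoulli, part Kc: homomorphisms given by symbols, the unit at a fixed time, the path
-/

open scoped ENNReal Topology CompactlySupported
open Function Filter MeasureTheory

noncomputable section

set_option linter.unusedSectionVars false

namespace Pool.Agent.Lib.MP_aa9b81_an.Cb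

open Cut Hs

variable {G O B B' : Type} [Group G] [TopologicalSpace G] [IsTopologicalGroup G]
  [LocallyCompactSpace G] [SecondCountableTopology G] [T2Space G] [MeasurableSpace G]
  [BorelSpace G] [DecidableEq G] [LinearOrder O] {V : Set G}
  [TopologicalSpace B] [T2Space B] [MulAction G B] [ContinuousSMul G B]
  [TopologicalSpace B'] [T2Space B'] [MulAction G B'] [ContinuousSMul G B']

/-- A contractive homomorphism of the crossed product, given on the generators by the symbols `n φ`. -/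
structure SH (e : G ↪ O) (Th : FamG G ℕ B' → FamG G (ℕ × Bs G) B)
    (n : (B' → G → ℂ) → B → G → BL (Bs G)) : Prop where
  add : ∀ x ∈ cpG G ℕ B', ∀ y ∈ cpG G ℕ B', Th (x + y) = Th x + Th y
  mul : ∀ x ∈ cpG G ℕ B', ∀ y ∈ cpG G ℕ B', Th (x * y) = Th x * Th y
  norm : ∀ x ∈ cpG G ℕ B', ‖Th x‖ ≤ ‖x‖
  gen : ∀ (φ : C_c(B' × G, ℂ)) (i j : ℕ), Th (Cb.gen φ i j) = oS e (n fun b g => φ (b, g)) i j

variable {χ : Part V} {e : G ↪ O} {T : G → BL (Bs G)} {Δ : Df G B V}
  {Th : FamG G ℕ B' → FamG G (ℕ × Bs G) B} {n : (B' → G → ℂ) → B → G → BL (Bs G)}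

/-- PROOF: `Th 0 + Th 0 = Th 0`. -/
theorem SH.zero (h : SH e Th n) : Th 0 = 0 := by
  have h1 := h.add 0 (zero_mem _) 0 (zero_mem _)
  rw [add_zero] at h1
  exact left_eq_add.1 h1

/-- PROOF: `Th x + Th (-x) = Th 0 = 0`. -/
theorem SH.neg (h : SH e Th n) : ∀ x ∈ cpG G ℕ B', Th (-x) = -Th x := by
  intro x hx
  have h1 := h.add x hx (-x) (neg_mem hx)
  rw [add_neg_cancel, h.zero] at h1
  exact eq_neg_of_add_eq_zero_right h1.symm

theorem SH.sub (h : SH e Th n) : ∀ x ∈ cpG G ℕ B', ∀ y ∈ cpG G ℕ B', Th (x - y) = Th x - Th y := by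
  intro x hx y hy
  rw [sub_eq_add_neg, h.add x hx (-y) (neg_mem hy), h.neg y hy, ← sub_eq_add_neg]

/-- PROOF: `Th x - Th y = Th (x - y)`. -/
theorem SH.norm_sub_le (h : SH e Th n) :
    ∀ x ∈ cpG G ℕ B', ∀ y ∈ cpG G ℕ B', ‖Th x - Th y‖ ≤ ‖x - y‖ := by
  intro x hx y hy
  rw [← h.sub x hx y hy]
  exact h.norm _ (sub_mem hx hy)

/-- Induction. PROOF: `cpG_induction` for the predicate `x ∈ cpG ∧ Th x ∈ S`; it is closed: `Th` is continuous on the closed set `cpG` (`SH.norm_sub_le`; take limits of sequences). -/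
theorem SH.induction (h : SH e Th n) {S : Set (FamG G (ℕ × Bs G) B)} (hS : IsClosed S)
    (h0 : (0 : FamG G (ℕ × Bs G) B) ∈ S) (hadd : ∀ x ∈ S, ∀ y ∈ S, x + y ∈ S)
    (hgen : ∀ (φ : C_c(B' × G, ℂ)) (i j : ℕ), oS e (n fun b g => φ (b, g)) i j ∈ S) :
    ∀ x ∈ cpG G ℕ B', Th x ∈ S := by
  intro x hx
  refine (cpG_induction (p := fun x => x ∈ cpG G ℕ B' ∧ Th x ∈ S) ?_ ⟨zero_mem _, ?_⟩ ?_ ?_ x
    hx).2
  · refine isClosed_of_closure_subset fun x hx => ?_
    have hx1 : x ∈ cpG G ℕ B' :=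
      (isClosed_cpG (G := G) (J := ℕ) (B := B')).closure_subset_iff.2 (fun y hy => hy.1) hx
    refine ⟨hx1, hS.closure_subset (Metric.mem_closure_iff.2 fun ε hε => ?_)⟩
    obtain ⟨y, hy, hxy⟩ := Metric.mem_closure_iff.1 hx ε hε
    refine ⟨Th y, hy.2, ?_⟩
    rw [dist_eq_norm] at hxy ⊢
    exact (h.norm_sub_le x hx1 y hy.1).trans_lt hxy
  · rw [h.zero]
    exact h0
  · rintro x y ⟨hx, hx'⟩ ⟨hy, hy'⟩
    exact ⟨add_mem hx hy, by rw [h.add x hx y hy]; exact hadd _ hx' _ hy'⟩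
  · intro φ i j
    exact ⟨gen_mem φ i j, by rw [h.gen]; exact hgen φ i j⟩

/-- Two homomorphisms with the same symbols agree. PROOF: `cpG_induction` for the predicate `x ∈ cpG ∧ Th x = Th' x`. -/
theorem SH.eq {Th' : FamG G ℕ B' → FamG G (ℕ × Bs G) B} (h : SH e Th n) (h' : SH e Th' n) :
    ∀ x ∈ cpG G ℕ B', Th x = Th' x := by
  intro x hx
  refine (cpG_induction (p := fun x => x ∈ cpG G ℕ B' ∧ Th x = Th' x) ?_ ⟨zero_mem _, ?_⟩ ?_ ?_ x
    hx).2
  · refine isClosed_of_closure_subset fun x hx => ?_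
    have hx1 : x ∈ cpG G ℕ B' :=
      (isClosed_cpG (G := G) (J := ℕ) (B := B')).closure_subset_iff.2 (fun y hy => hy.1) hx
    refine ⟨hx1, eq_of_sub_eq_zero (norm_eq_zero.1 (le_antisymm
      (le_of_forall_pos_le_add fun ε hε => ?_) (norm_nonneg _)))⟩
    obtain ⟨y, hy, hxy⟩ := Metric.mem_closure_iff.1 hx (ε / 2) (by linarith)
    rw [dist_eq_norm] at hxy
    have h1 := h.norm_sub_le x hx1 y hy.1
    have h2 := h'.norm_sub_le x hx1 y hy.1
    have h3 : Th x - Th' x = (Th x - Th y) - (Th' x - Th' y) := by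
      rw [hy.2]
      abel
    rw [h3]
    have h4 := _root_.norm_sub_le (Th x - Th y) (Th' x - Th' y)
    linarith
  · rw [h.zero, h'.zero]
  · rintro x y ⟨hx, hx'⟩ ⟨hy, hy'⟩
    exact ⟨add_mem hx hy, by rw [h.add x hx y hy, h'.add x hx y hy, hx', hy']⟩
  · intro φ i j
    exact ⟨gen_mem φ i j, by rw [h.gen, h'.gen]⟩

private theorem Kc_continuous_apply {J : Type} [Nonempty J] (b : B) :
    Continuous fun y : FamG G J B => y.fn b := by
  rw [continuous_iff_continuousAt]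
  intro y₀
  rw [ContinuousAt, tendsto_iff_norm_sub_tendsto_zero]
  refine squeeze_zero (fun y => norm_nonneg _) (fun y => ?_)
    (tendsto_iff_norm_sub_tendsto_zero.1 (tendsto_id (x := 𝓝 y₀)))
  exact FamG.norm_apply_le (y - y₀) b

private theorem Kc_continuous_cj (hV : V ∈ 𝓝 (1 : G)) :
    Continuous (cj χ e Δ : FamG G (ℕ × Bs G) B → FamG G (ℕ × Bs ℕ) B) := by
  rw [continuous_iff_continuousAt]
  intro y₀
  rw [ContinuousAt, tendsto_iff_norm_sub_tendsto_zero]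
  refine squeeze_zero (fun y => norm_nonneg _) (fun y => ?_)
    (tendsto_iff_norm_sub_tendsto_zero.1 (tendsto_id (x := 𝓝 y₀)))
  rw [← cj_sub hV]
  exact norm_cj_le hV _

section Fixed

variable (hV : V ∈ 𝓝 (1 : G)) (hT : TOK χ e T) (h : SH e Th n)
  (hn : ∀ φ : C_c(B' × G, ℂ), Sy χ e Δ T (n fun b g => φ (b, g)))

include hn h

/-- PROOF: `SH.induction`, `oS_es`; the commutant of the projections is a closed subspace. -/
theorem SH.es : ∀ x ∈ cpG G ℕ B', ∀ b, Commute (Th x b) (cm (Es (Δ.D b).s)) := by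
  intro x hx b
  have h1 := h.induction (S := {y : FamG G (ℕ × Bs G) B |
    (y.fn b) * (cm (Es (Δ.D b).s)) = (cm (Es (Δ.D b).s)) * (y.fn b)}) ?_ ?_ ?_ ?_ x hx
  · exact h1
  · exact isClosed_eq ((Kc_continuous_apply b).mul continuous_const)
      (continuous_const.mul (Kc_continuous_apply b))
  · show (0 : FamG G (ℕ × Bs G) B).fn b * _ = _ * (0 : FamG G (ℕ × Bs G) B).fn b
    rw [FamG.zero_apply, zero_mul, mul_zero]
  · intro y hy z hz
    show (y + z).fn b * _ = _ * (y + z).fn b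
    rw [FamG.add_apply, add_mul, mul_add]
    exact congrArg₂ (· + ·) hy hz
  · intro φ i j
    exact oS_es (hn φ) i j b

/-- PROOF: `SH.induction`, `oS_pp`. -/
theorem SH.pp : ∀ x ∈ cpG G ℕ B', (cF B Pp : FamG G (ℕ × Bs G) B) * Th x = Th x * cF B Pp := by
  intro x hx
  refine h.induction (S := {y : FamG G (ℕ × Bs G) B | cF B Pp * y = y * cF B Pp}) ?_ ?_ ?_ ?_ x hx
  · exact isClosed_eq (continuous_const.mul continuous_id) (continuous_id.mul continuous_const)
  · show cF B Pp * 0 = 0 * cF B Pp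
    rw [zero_mul, mul_zero]
  · intro y hy z hz
    show cF B Pp * (y + z) = (y + z) * cF B Pp
    rw [add_mul, mul_add]
    exact congrArg₂ (· + ·) hy hz
  · intro φ i j
    exact oS_pp (hn φ) i j

include hV

/-- PROOF: `SH.induction`, `cj_oS_LM`, `isClosed_LM`, `LM_add`, `norm_cj_le`, `cj_add` (`cj` is continuous and additive). -/
theorem SH.cj_LM : ∀ x ∈ cpG G ℕ B', cj χ e Δ (Th x) ∈ LM G (ℕ × Bs ℕ) B := by
  intro x hx
  refine h.induction (S := {y : FamG G (ℕ × Bs G) B | cj χ e Δ y ∈ LM G (ℕ × Bs ℕ) B})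
    ?_ ?_ ?_ ?_ x hx
  · exact isClosed_LM.preimage (Kc_continuous_cj hV)
  · show cj χ e Δ 0 ∈ LM G (ℕ × Bs ℕ) B
    rw [cj_zero hV]
    exact LM_of_mem (zero_mem _)
  · intro y hy z hz
    show cj χ e Δ (y + z) ∈ LM G (ℕ × Bs ℕ) B
    rw [cj_add hV]
    exact LM_add hy hz
  · intro φ i j
    exact cj_oS_LM hV (hn φ) i j

include hT

/-- PROOF: `SH.induction`, `cj_comm_mem`, `isClosed_cpG`. -/
theorem SH.cj_comm_mem : ∀ x ∈ cpG G ℕ B',
    cj χ e Δ (tF B T * Th x * tF B T - Th x) ∈ cpG G (ℕ × Bs ℕ) B := by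
  intro x hx
  refine h.induction (S := {y : FamG G (ℕ × Bs G) B |
    cj χ e Δ (tF B T * y * tF B T - y) ∈ cpG G (ℕ × Bs ℕ) B}) ?_ ?_ ?_ ?_ x hx
  · exact (isClosed_cpG (G := G) (J := ℕ × Bs ℕ) (B := B)).preimage
      ((Kc_continuous_cj hV).comp
        (((continuous_const.mul continuous_id).mul continuous_const).sub continuous_id))
  · show cj χ e Δ (tF B T * 0 * tF B T - 0) ∈ cpG G (ℕ × Bs ℕ) B
    rw [mul_zero, zero_mul, sub_zero, cj_zero hV]
    exact zero_mem _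
  · intro y hy z hz
    show cj χ e Δ (tF B T * (y + z) * tF B T - (y + z)) ∈ cpG G (ℕ × Bs ℕ) B
    have h1 : tF B T * (y + z) * tF B T - (y + z) =
        (tF B T * y * tF B T - y) + (tF B T * z * tF B T - z) := by noncomm_ring
    rw [h1, cj_add hV]
    exact add_mem hy hz
  · intro φ i j
    exact Cb.cj_comm_mem hV hT (hn φ) i j

end Fixed

/-- The relations of the path. PROOF: `ab`: `(1 + Th (v - 1)) (1 + Th (v⁻¹ - 1)) = 1 + Th ((v - 1) + (v⁻¹ - 1) + (v - 1) (v⁻¹ - 1)) = 1 + Th 0 = 1`. `ea`, `eb`: `SH.pp`. `ee`: `Pp * Pp = Pp` (Hs/D5b.lean or coordinates), `cF_mul`. `eT`: `Pp_mul_tF`. `TT`: `tF_mul_tF`.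
`Pe`: `PV * (1 - Pp) = PV * Pm = 0` (`PV_mul_Pm`). -/
theorem DD_of_SH (hT : TOK χ e T) (h : SH e Th n)
    (hn : ∀ φ : C_c(B' × G, ℂ), Sy χ e Δ T (n fun b g => φ (b, g)))
    {v : (FamG G ℕ B')ˣ} (hv : v ∈ GL1 (cpG G ℕ B')) :
    DD (Th ((v : FamG G ℕ B') - 1)) (Th (((v⁻¹ : (FamG G ℕ B')ˣ) : FamG G ℕ B') - 1)) (tF B T)
      (cF B Pp) (cF B PV) := by
  have key : ∀ x ∈ cpG G ℕ B', ∀ y ∈ cpG G ℕ B', (1 + x) * (1 + y) = 1 →
      (1 + Th x) * (1 + Th y) = 1 := by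
    intro x hx y hy hxy
    have h1 : x + y + x * y = 0 := by
      have h2 : x + y + x * y = (1 + x) * (1 + y) - 1 := by noncomm_ring
      rw [h2, hxy, sub_self]
    have h3 : Th x + Th y + Th x * Th y = 0 := by
      rw [← h.mul x hx y hy, ← h.add x hx y hy, ← h.add _ (add_mem hx hy) _ (mul_mem hx hy), h1,
        h.zero]
    calc (1 + Th x) * (1 + Th y) = 1 + (Th x + Th y + Th x * Th y) := by noncomm_ring
      _ = 1 := by rw [h3, add_zero]
  exact ⟨key _ hv.1 _ hv.2 (by rw [add_sub_cancel, add_sub_cancel, Units.mul_inv]),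
    key _ hv.2 _ hv.1 (by rw [add_sub_cancel, add_sub_cancel, Units.inv_mul]),
    h.pp hn _ hv.1, h.pp hn _ hv.2, by rw [← cF_mul, Pp_mul_Pp], Pp_mul_tF hT, tF_mul_tF hT, by
      rw [mul_sub, mul_one, ← cF_mul, PV_mul_Pp, sub_self]⟩

/-- The value of the path. -/
def pv (Th : FamG G ℕ B' → FamG G (ℕ × Bs G) B) (T : G → BL (Bs G)) (v : (FamG G ℕ B')ˣ) :
    FamG G (ℕ × Bs G) B :=
  dval (Th ((v : FamG G ℕ B') - 1)) (Th (((v⁻¹ : (FamG G ℕ B')ˣ) : FamG G ℕ B') - 1)) (tF B T)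
    (cF B Pp)

/-- THE UNIT AT A FIXED TIME. PROOF: `u = pv`, `w = dinv a b T ε` are inverse to each other (`DD.mul_inv`, `DD.inv_mul`) and commute with the projections (`commute_dval`, `commute_dinv` pointwise: the families are evaluated at `b`, `SH.es`, `tF_es`, `cF_es`), so `exists_cjU` gives the unit `U`. Call `x` good if all `x b` commute with the projections and
`cj y ∈ cpG` implies `cj (x * y) ∈ cpG` for all `y`. Good elements are closed under sums, differences and products; `1`, `cF Pp` (`cj_Pp_mul`, `cF_LM`), `tF T` (`cj_mul`, `cj_tF_LM`), `Th x` (`cj_mul`, `SH.cj_LM`) are good. So `U - 1 = cj (pv - 1) = cj (ε (1 + a) (T b T - b))` is in the crossed product (`SH.cj_comm_mem`), and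
`U⁻¹ - 1 = cj (w - 1) = -cj (w (u - 1))` (`DD.dinv_sub_one`) too, as `w = dinv` is good. -/
theorem exists_pu (hV : V ∈ 𝓝 (1 : G)) (hT : TOK χ e T) (h : SH e Th n)
    (hn : ∀ φ : C_c(B' × G, ℂ), Sy χ e Δ T (n fun b g => φ (b, g)))
    {v : (FamG G ℕ B')ˣ} (hv : v ∈ GL1 (cpG G ℕ B')) :
    ∃ U ∈ GL1 (cpG G (ℕ × Bs ℕ) B), (U : FamG G (ℕ × Bs ℕ) B) = 1 + cj χ e Δ (pv Th T v - 1) := by
  have hD := DD_of_SH hT h hn hv
  obtain ⟨a, ha⟩ : ∃ a, a = Th ((v : FamG G ℕ B') - 1) := ⟨_, rfl⟩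
  obtain ⟨b, hb⟩ : ∃ b, b = Th (((v⁻¹ : (FamG G ℕ B')ˣ) : FamG G ℕ B') - 1) := ⟨_, rfl⟩
  have hpv : pv Th T v = dval a b (tF B T) (cF B Pp) := by rw [ha, hb]; rfl
  rw [← ha, ← hb] at hD
  rw [hpv]
  have ca : ∀ c, Commute (a.fn c) (cm (Es (Δ.D c).s)) := fun c => by
    rw [ha]; exact h.es hn _ hv.1 c
  have cb : ∀ c, Commute (b.fn c) (cm (Es (Δ.D c).s)) := fun c => by
    rw [hb]; exact h.es hn _ hv.2 c
  have cT : ∀ c, Commute ((tF B T : FamG G (ℕ × Bs G) B).fn c) (cm (Es (Δ.D c).s)) :=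
    fun c => tF_es hT _ c
  have hPE : ∀ s : Set G, Commute (Pp : BL (Bs G)) (Es s) := fun s => by
    classical
    rw [Es_eq_dia]
    exact (dia_comm_Pp (C := 1) fun b => by split_ifs <;> simp).symm
  have cP : ∀ c, Commute ((cF B Pp : FamG G (ℕ × Bs G) B).fn c) (cm (Es (Δ.D c).s)) :=
    fun c => cF_es (hPE _) c
  have hev : ∀ c, (dval a b (tF B T) (cF B Pp)).fn c =
      dval (a.fn c) (b.fn c) ((tF B T : FamG G (ℕ × Bs G) B).fn c)
        ((cF B Pp : FamG G (ℕ × Bs G) B).fn c) := fun c => rfl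
  have hev' : ∀ c, (dinv a b (tF B T) (cF B Pp)).fn c =
      dinv (a.fn c) (b.fn c) ((tF B T : FamG G (ℕ × Bs G) B).fn c)
        ((cF B Pp : FamG G (ℕ × Bs G) B).fn c) := fun c => rfl
  obtain ⟨U, hU, hU'⟩ := exists_cjU (χ := χ) (e := e) (Δ := Δ) hV hD.mul_inv hD.inv_mul
    (fun c => by
      rw [hev c]
      exact (commute_dval (ca c).symm (cb c).symm (cT c).symm (cP c).symm).symm)
    (fun c => by
      rw [hev' c]
      exact (commute_dinv (ca c).symm (cb c).symm (cT c).symm (cP c).symm).symm)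
  -- good elements
  let gd : FamG G (ℕ × Bs G) B → Prop := fun x => (∀ c, Commute (x.fn c) (cm (Es (Δ.D c).s))) ∧
    ∀ y, cj χ e Δ y ∈ cpG G (ℕ × Bs ℕ) B → cj χ e Δ (x * y) ∈ cpG G (ℕ × Bs ℕ) B
  have g1 : gd 1 := ⟨fun c => by rw [FamG.one_apply]; exact Commute.one_left _,
    fun y hy => by rwa [one_mul]⟩
  have gadd : ∀ x y, gd x → gd y → gd (x + y) := fun x y hx hy =>
    ⟨fun c => by rw [FamG.add_apply]; exact (hx.1 c).add_left (hy.1 c), fun z hz => by
      rw [add_mul, cj_add hV]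
      exact add_mem (hx.2 z hz) (hy.2 z hz)⟩
  have gsub : ∀ x y, gd x → gd y → gd (x - y) := fun x y hx hy =>
    ⟨fun c => by rw [FamG.sub_apply]; exact (hx.1 c).sub_left (hy.1 c), fun z hz => by
      rw [sub_mul, cj_sub hV]
      exact sub_mem (hx.2 z hz) (hy.2 z hz)⟩
  have gmul : ∀ x y, gd x → gd y → gd (x * y) := fun x y hx hy =>
    ⟨fun c => by rw [FamG.mul_apply]; exact (hx.1 c).mul_left (hy.1 c), fun z hz => by
      rw [mul_assoc]
      exact hx.2 _ (hy.2 z hz)⟩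
  have gLM : ∀ x : FamG G (ℕ × Bs G) B, (∀ c, Commute (x.fn c) (cm (Es (Δ.D c).s))) →
      cj χ e Δ x ∈ LM G (ℕ × Bs ℕ) B → gd x := fun x hx hL => ⟨hx, fun y hy => by
    rw [cj_mul hV hx]
    exact hL _ hy⟩
  have gP : gd (cF B Pp) := ⟨cP, fun y hy => by
    have h1 := cj_Pp_mul (χ := χ) (e := e) (Δ := Δ) hV y
    have h2 : cj χ e Δ (cF B Pp * y) = cF B Pp * cj χ e Δ y := h1
    rw [h2]
    exact cF_LM Pp _ hy⟩
  have gT : gd (tF B T) := gLM _ cT (cj_tF_LM hV hT)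
  have ga : gd a := gLM _ ca (by rw [ha]; exact h.cj_LM hV hn _ hv.1)
  have gb : gd b := gLM _ cb (by rw [hb]; exact h.cj_LM hV hn _ hv.2)
  have m1 : cj χ e Δ (dval a b (tF B T) (cF B Pp) - 1) ∈ cpG G (ℕ × Bs ℕ) B := by
    have h1 : dval a b (tF B T) (cF B Pp) - 1 =
        (cF B Pp * (1 + a)) * (tF B T * b * tF B T - b) := by
      rw [dval, add_sub_cancel_left]
    rw [h1]
    refine (gmul _ _ gP (gadd _ _ g1 ga)).2 _ ?_
    rw [hb]
    exact h.cj_comm_mem hV hT hn _ hv.2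
  have m2 : cj χ e Δ (dinv a b (tF B T) (cF B Pp) - 1) ∈ cpG G (ℕ × Bs ℕ) B := by
    rw [hD.dinv_sub_one, cj_neg hV]
    refine neg_mem ?_
    refine (gmul _ _ (gadd _ _ g1 (gmul _ _ (gmul _ _ (gmul _ _ gT (gsub _ _ g1 gP)) ga) gT))
      (gadd _ _ g1 (gmul _ _ gP gb))).2 _ m1
  refine ⟨U, ⟨?_, ?_⟩, hU⟩
  · rw [hU, add_sub_cancel_left]
    exact m1
  · rw [hU', add_sub_cancel_left]
    exact m2

/-- Continuity in time. PROOF: the set of the `x ∈ cpG` for which `t ↦ Th t x` is continuous on `[0,1]` is closed (`SH.norm_sub_le`, `ε / 3`), additive and contains the generators: `Th t (gen φ i j) - Th t₀ (gen φ i j)` has at `b` the kernel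
`ek i j (absS e (n t φ) b a a' - absS e (n t₀ φ) b a a')` (`opk_sub`, `KOK_absS`), of norm at most `ε` and supported in `a⁻¹ a' ∈ C`, so the norm is at most `ε cs C` (`KOK.mono`, `norm_opk_le`; `FamG.norm_le_iff`). `cpG_induction`. -/
theorem continuousOn_Th {Th : ℝ → FamG G ℕ B' → FamG G (ℕ × Bs G) B}
    {n : ℝ → (B' → G → ℂ) → B → G → BL (Bs G)} {T : ℝ → G → BL (Bs G)}
    (h : ∀ t ∈ Set.Icc (0 : ℝ) 1, SH e (Th t) (n t))
    (hn : ∀ t ∈ Set.Icc (0 : ℝ) 1, ∀ φ : C_c(B' × G, ℂ), Sy χ e Δ (T t) (n t fun b g => φ (b, g)))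
    (hs : ∀ φ : C_c(B' × G, ℂ), ∃ C : Set G, IsCompact C ∧ ∀ t ∈ Set.Icc (0 : ℝ) 1, ∀ b, ∀ g ∉ C,
      n t (fun b g => φ (b, g)) b g = 0)
    (hc : ∀ φ : C_c(B' × G, ℂ), ∀ t₀ ∈ Set.Icc (0 : ℝ) 1, ∀ ε : ℝ, 0 < ε → ∃ δ : ℝ, 0 < δ ∧
      ∀ t ∈ Set.Icc (0 : ℝ) 1, |t - t₀| < δ → ∀ b g,
        ‖n t (fun b g => φ (b, g)) b g - n t₀ (fun b g => φ (b, g)) b g‖ ≤ ε) :
    ∀ x ∈ cpG G ℕ B', ContinuousOn (fun t => Th t x) (Set.Icc 0 1) := by
  intro x hx
  refine (cpG_induction (p := fun x => x ∈ cpG G ℕ B' ∧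
    ContinuousOn (fun t => Th t x) (Set.Icc 0 1)) ?_ ⟨zero_mem _, ?_⟩ ?_ ?_ x hx).2
  · refine isClosed_of_closure_subset fun x hx => ?_
    have hx1 : x ∈ cpG G ℕ B' :=
      (isClosed_cpG (G := G) (J := ℕ) (B := B')).closure_subset_iff.2 (fun y hy => hy.1) hx
    refine ⟨hx1, fun t₀ ht₀ => Metric.continuousWithinAt_iff.2 fun ε hε => ?_⟩
    obtain ⟨y, hy, hxy⟩ := Metric.mem_closure_iff.1 hx (ε / 4) (by linarith)
    rw [dist_eq_norm] at hxy
    obtain ⟨δ, hδ, h1⟩ := Metric.continuousWithinAt_iff.1 (hy.2 t₀ ht₀) (ε / 4) (by linarith)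
    refine ⟨δ, hδ, fun t ht htt => ?_⟩
    have h2 := h1 ht htt
    rw [dist_eq_norm] at h2 ⊢
    have h3 := (h t ht).norm_sub_le x hx1 y hy.1
    have h4 := (h t₀ ht₀).norm_sub_le x hx1 y hy.1
    have h5 : Th t x - Th t₀ x = (Th t x - Th t y) + (Th t y - Th t₀ y) - (Th t₀ x - Th t₀ y) := by
      abel
    rw [h5]
    have h6 := _root_.norm_sub_le ((Th t x - Th t y) + (Th t y - Th t₀ y)) (Th t₀ x - Th t₀ y)
    have h7 := norm_add_le (Th t x - Th t y) (Th t y - Th t₀ y)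
    linarith
  · exact continuousOn_const.congr fun t ht => (h t ht).zero
  · rintro x y ⟨hx, hx'⟩ ⟨hy, hy'⟩
    exact ⟨add_mem hx hy, (hx'.add hy').congr fun t ht => (h t ht).add x hx y hy⟩
  · intro φ i j
    refine ⟨gen_mem φ i j, fun t₀ ht₀ => Metric.continuousWithinAt_iff.2 fun ε hε => ?_⟩
    obtain ⟨C, hC, hCs⟩ := hs φ
    have hcs : 0 ≤ cs C := Real.sqrt_nonneg _
    obtain ⟨δ, hδ, h1⟩ := hc φ t₀ ht₀ (ε / (2 * (cs C + 1))) (by positivity)
    refine ⟨δ, hδ, fun t ht htt => ?_⟩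
    rw [Real.dist_eq] at htt
    have h2 := h1 t ht htt
    rw [(h t ht).gen, (h t₀ ht₀).gen, dist_eq_norm]
    obtain ⟨C₁, M₁, k1⟩ := KOK_absS (e := e) (hn t ht φ)
    obtain ⟨C₂, M₂, k2⟩ := KOK_absS (e := e) (hn t₀ ht₀ φ)
    have h3 : ‖(oS e (n t fun b g => φ (b, g)) i j - oS e (n t₀ fun b g => φ (b, g)) i j :
        FamG G (ℕ × Bs G) B)‖ ≤ ε / (2 * (cs C + 1)) * cs C := by
      refine (FamG.norm_le_iff (by positivity)).2 fun b => ?_
      have h4 : (oS e (n t fun b g => φ (b, g)) i j - oS e (n t₀ fun b g => φ (b, g)) i j :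
          FamG G (ℕ × Bs G) B).fn b = opk fun a a' =>
            ek i j (absS e (n t fun b g => φ (b, g)) b a a') -
              ek i j (absS e (n t₀ fun b g => φ (b, g)) b a a') := by
        rw [FamG.sub_apply, oS_apply (hn t ht φ), oS_apply (hn t₀ ht₀ φ),
          opk_sub (k1 b i j) (k2 b i j)]
      have h5 := (k1 b i j).sub (k2 b i j)
      have h6 := h5.mono hC (M' := ε / (2 * (cs C + 1))) (by positivity) (fun a a' => by
        rw [← ek_sub]
        refine (norm_ek_le i j _).trans ?_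
        have h7 : absS e (n t fun b g => φ (b, g)) b a a' -
            absS e (n t₀ fun b g => φ (b, g)) b a a' =
            absS e (fun b g => n t (fun b g => φ (b, g)) b g -
              n t₀ (fun b g => φ (b, g)) b g) b a a' := by
          unfold absS
          rw [mul_sub, sub_mul]
        rw [h7]
        exact (norm_absS_le b a a').trans (h2 _ _)) (fun a a' haa => by
        unfold absS
        rw [hCs t ht _ _ haa, hCs t₀ ht₀ _ _ haa, sub_self])
      exact h4 ▸ norm_opk_le h6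
    refine h3.trans_lt ?_
    have h8 : ε / (2 * (cs C + 1)) * cs C = ε / 2 * (cs C / (cs C + 1)) := by
      field_simp
    rw [h8]
    have h9 : cs C / (cs C + 1) ≤ 1 := by
      rw [div_le_one (by linarith)]
      linarith
    have h10 : ε / 2 * (cs C / (cs C + 1)) ≤ ε / 2 * 1 :=
      mul_le_mul_of_nonneg_left h9 (by linarith)
    linarith

/-- THE PATH. PROOF: choose the units `p t` by `exists_pu` for `t ∈ [0,1]` (`p 0 = U₀`, `p 1 = U₁` have the given values: units with the same value are equal, `Units.ext`); the values are continuous: `dval` is a polynomial in continuous functions, `cj` is additive and contractive. `E1_of_path`. -/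
theorem path_E1 (hV : V ∈ 𝓝 (1 : G)) {Th : ℝ → FamG G ℕ B' → FamG G (ℕ × Bs G) B}
    {n : ℝ → (B' → G → ℂ) → B → G → BL (Bs G)} {T : ℝ → G → BL (Bs G)}
    (hT : ∀ t ∈ Set.Icc (0 : ℝ) 1, TOK χ e (T t))
    (hTc : ContinuousOn (fun t => (tF B (T t) : FamG G (ℕ × Bs G) B)) (Set.Icc 0 1))
    (h : ∀ t ∈ Set.Icc (0 : ℝ) 1, SH e (Th t) (n t))
    (hn : ∀ t ∈ Set.Icc (0 : ℝ) 1, ∀ φ : C_c(B' × G, ℂ), Sy χ e Δ (T t) (n t fun b g => φ (b, g)))
    (hc : ∀ x ∈ cpG G ℕ B', ContinuousOn (fun t => Th t x) (Set.Icc 0 1))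
    {v : (FamG G ℕ B')ˣ} (hv : v ∈ GL1 (cpG G ℕ B')) {U₀ U₁ : (FamG G (ℕ × Bs ℕ) B)ˣ}
    (h₀ : (U₀ : FamG G (ℕ × Bs ℕ) B) = 1 + cj χ e Δ (pv (Th 0) (T 0) v - 1))
    (h₁ : (U₁ : FamG G (ℕ × Bs ℕ) B) = 1 + cj χ e Δ (pv (Th 1) (T 1) v - 1)) :
    U₀⁻¹ * U₁ ∈ E1 (cpG G (ℕ × Bs ℕ) B) := by
  have h1 : ∀ t : ℝ, ∃ U : (FamG G (ℕ × Bs ℕ) B)ˣ, t ∈ Set.Icc (0 : ℝ) 1 →
      U ∈ GL1 (cpG G (ℕ × Bs ℕ) B) ∧
        (U : FamG G (ℕ × Bs ℕ) B) = 1 + cj χ e Δ (pv (Th t) (T t) v - 1) := by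
    intro t
    by_cases ht : t ∈ Set.Icc (0 : ℝ) 1
    · obtain ⟨U, hU, hU'⟩ := exists_pu (χ := χ) (Δ := Δ) hV (hT t ht) (h t ht) (hn t ht) hv
      exact ⟨U, fun _ => ⟨hU, hU'⟩⟩
    · exact ⟨1, fun h => absurd h ht⟩
  choose p hp using h1
  have e0 : p 0 = U₀ := Units.ext (((hp 0 (Set.left_mem_Icc.2 zero_le_one)).2).trans h₀.symm)
  have e1 : p 1 = U₁ := Units.ext (((hp 1 (Set.right_mem_Icc.2 zero_le_one)).2).trans h₁.symm)
  rw [← e0, ← e1]
  refine E1_of_path (A := cpG G (ℕ × Bs ℕ) B) p (fun t ht => (hp t ht).1) ?_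
  have h2 : ContinuousOn (fun t => pv (Th t) (T t) v) (Set.Icc 0 1) := by
    unfold pv dval
    have ha := hc _ hv.1
    have hb := hc _ hv.2
    exact continuousOn_const.add ((continuousOn_const.mul (continuousOn_const.add ha)).mul
      (((hTc.mul hb).mul hTc).sub hb))
  have h3 : ContinuousOn (fun t => (1 : FamG G (ℕ × Bs ℕ) B) +
      cj χ e Δ (pv (Th t) (T t) v - 1)) (Set.Icc 0 1) :=
    continuousOn_const.add ((Kc_continuous_cj hV).comp_continuousOn (h2.sub continuousOn_const))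
  exact h3.congr fun t ht => (hp t ht).2

end Pool.Agent.Lib.MP_aa9b81_an.Cb
end

end


section
/-!
# Continuous Bernoulli, part Ke: the homomorphisms of the stages 1 and 3
-/

open scoped ENNReal Topology CompactlySupported
open Function Filter MeasureTheory

noncomputable section

set_option linter.unusedSectionVars false

namespace Pool.Agent.Lib.MP_aa9b81_an.Cb

open Cut Hs

section

variable {G B B' : Type} [Group G] [TopologicalSpace G] [IsTopologicalGroup G]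
  [LocallyCompactSpace G] [SecondCountableTopology G] [T2Space G] [MeasurableSpace G]
  [BorelSpace G]

/-- The direct sum over the pairs `β` of the operators `x (r b β)`. -/
def Thr (r : B → Bs G → Option B') (x : FamG G ℕ B') : FamG G (ℕ × Bs G) B :=
  fam fun b => bd fun β => (r b β).elim 0 x.fn

/-- The multiplication by `φ(r b β, g)`. -/
def nr (r : B → Bs G → Option B') (φ : B' → G → ℂ) (b : B) (g : G) : BL (Bs G) :=
  dia fun β => (r b β).elim 0 fun b' => φ b' g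

private theorem Ke_elim_le (r : B → Bs G → Option B') (x : FamG G ℕ B') (b : B) (β : Bs G) :
    ‖(r b β).elim 0 x.fn‖ ≤ ‖x‖ := by
  cases h : r b β with
  | none => simp
  | some b' => exact FamG.norm_apply_le x b'

/-- PROOF: `fam_apply`, `norm_bd_le`. -/
theorem Thr_apply (r : B → Bs G → Option B') (x : FamG G ℕ B') (b : B) :
    (Thr r x).fn b = bd fun β => (r b β).elim 0 x.fn :=
  fam_apply (C := ‖x‖) (fun b => norm_bd_le (norm_nonneg x) (Ke_elim_le r x b)) b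

end

variable {G O B B' : Type} [Group G] [TopologicalSpace G] [IsTopologicalGroup G]
  [LocallyCompactSpace G] [SecondCountableTopology G] [T2Space G] [MeasurableSpace G]
  [BorelSpace G] [DecidableEq G] [LinearOrder O]
  [TopologicalSpace B] [T2Space B] [MulAction G B] [ContinuousSMul G B]
  [TopologicalSpace B'] [T2Space B'] [MulAction G B'] [ContinuousSMul G B']

/-- PROOF: `Wg_dia` with `h β = (r (a⁻¹ • b) β).elim 0 ..`: the function at `a⁻¹ • β` is `(r (a⁻¹ • b) (a⁻¹ • β)).elim 0 .. = ((r b β).map (a⁻¹ • ·)).elim 0 ..` (`hr`), and `Wg_mul_inv`. -/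
theorem absS_nr (e : G ↪ O) {r : B → Bs G → Option B'}
    (hr : ∀ (g : G) b β, r (g • b) (g • β) = (r b β).map fun b' => g • b') {φ : B' → G → ℂ}
    {C : ℝ} (hC : ∀ b' g, ‖φ b' g‖ ≤ C) (hC0 : 0 ≤ C) (b : B) (a a' : G) :
    absS e (nr r φ) b a a' =
      dia fun β => (r b β).elim 0 fun b' => φ (a⁻¹ • b') (a⁻¹ * a') := by
  have h1 : ∀ β, ‖(r (a⁻¹ • b) β).elim 0 fun b' => φ b' (a⁻¹ * a')‖ ≤ C := by
    intro β
    cases h : r (a⁻¹ • b) β with
    | none => simpa using hC0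
    | some b' => exact hC b' _
  unfold absS nr
  rw [Wg_dia e hC0 h1 a, mul_assoc, Wg_mul_inv, mul_one]
  congr 1
  funext β
  rw [hr]
  cases h : r b β with
  | none => rfl
  | some b' => rfl

/-- The direct sum is a homomorphism. PROOF: `add`, `mul`: `bd_add`, `bd_mul` (the elements of the family are bounded by `‖x‖`). `norm`: `norm_bd_le`. `gen`: `Thr_apply`, and for `b' = r b β`: `gen φ i j b' = opk fun a a' => φ (a⁻¹ • b', a⁻¹ * a') • Eu i j` (`gen_apply`, `opF`, `kat`),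
`0 = opk 0` (`opk_zero`) for `r b β = none`; `bd_opk` with `f β a a' = (r b β).elim 0 fun b' => φ (a⁻¹ • b', a⁻¹ * a')` (`exists_bound`); `absS_nr`; the right side is `fam` of a bounded function. -/
theorem SH_Thr (e : G ↪ O) {r : B → Bs G → Option B'}
    (hr : ∀ (g : G) b β, r (g • b) (g • β) = (r b β).map fun b' => g • b') :
    SH e (Thr r) (nr (B := B) r) where
  add x _ y _ := by
    refine FamG.ext fun b => ?_
    rw [FamG.add_apply, Thr_apply, Thr_apply, Thr_apply,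
      ← bd_add (norm_nonneg x) (Ke_elim_le r x b) (norm_nonneg y) (Ke_elim_le r y b)]
    congr 1
    funext β
    cases h : r b β with
    | none => simp
    | some b' => rfl
  mul x _ y _ := by
    refine FamG.ext fun b => ?_
    rw [FamG.mul_apply, Thr_apply, Thr_apply, Thr_apply,
      ← bd_mul (norm_nonneg x) (Ke_elim_le r x b) (norm_nonneg y) (Ke_elim_le r y b)]
    congr 1
    funext β
    cases h : r b β with
    | none => simp
    | some b' => rfl
  norm x _ := by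
    refine (FamG.norm_le_iff (norm_nonneg x)).2 fun b => ?_
    rw [Thr_apply]
    exact norm_bd_le (norm_nonneg x) (Ke_elim_le r x b)
  gen φ i j := by
    have key : ∀ b, (Thr r (Cb.gen φ i j)).fn b =
        (opk fun a a' => ek i j (absS e (nr r fun b g => φ (b, g)) b a a') :
          HG G (ℕ × Bs G) →L[ℂ] HG G (ℕ × Bs G)) := by
      intro b
      obtain ⟨C, M, hC, hM, hb, hs⟩ := exists_bound φ
      rw [Thr_apply]
      have h1 : ∀ β : Bs G, (r b β).elim 0 (Cb.gen φ i j : FamG G ℕ B').fn =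
          opk fun a a' => ((r b β).elim 0 fun b' => φ (a⁻¹ • b', a⁻¹ * a')) •
            (Eu i j : BL ℕ) := by
        intro β
        cases h : r b β with
        | none =>
          have h2 : (fun (a a' : G) => ((none : Option B').elim (0 : ℂ)
              fun b' => φ (a⁻¹ • b', a⁻¹ * a')) • (Eu i j : BL ℕ)) = fun _ _ => 0 := by
            funext a a'
            exact zero_smul ℂ _
          rw [h2, opk_zero]
          rfl
        | some b' => exact gen_apply φ i j b'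
      have h3 : ∀ β : Bs G, SOK C M fun a a' => (r b β).elim 0 fun b' => φ (a⁻¹ • b', a⁻¹ * a') := by
        intro β
        cases h : r b β with
        | none => exact ⟨hC, hM, continuous_const, fun _ _ => by simpa using hM, fun _ _ _ => rfl⟩
        | some b' =>
          refine ⟨hC, hM, ?_, fun a a' => hb _, fun a a' h' => hs _ _ h'⟩
          refine φ.continuous.comp ?_
          exact ((continuous_fst.inv).smul continuous_const).prodMk
            (continuous_fst.inv.mul continuous_snd)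
      rw [show (fun β => (r b β).elim 0 (Cb.gen φ i j : FamG G ℕ B').fn) = _ from funext h1,
        bd_opk i j hC hM h3]
      congr 1
      funext a a'
      rw [absS_nr e hr (fun b' g => hb (b', g)) hM]
    refine FamG.ext fun b => ?_
    have h4 : ∀ b, ‖(opk fun a a' => ek i j (absS e (nr r fun b g => φ (b, g)) b a a') :
        HG G (ℕ × Bs G) →L[ℂ] HG G (ℕ × Bs G))‖ ≤ ‖Thr r (Cb.gen φ i j)‖ := by
      intro b
      rw [← key b]
      exact FamG.norm_apply_le _ b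
    unfold oS
    rw [fam_apply h4 b]
    exact key b

end Pool.Agent.Lib.MP_aa9b81_an.Cb
end

end
end

section

/-!
# Continuous Bernoulli, part Sb3: stage 3
-/

open scoped ENNReal Topology
open Function Filter Topology Set

noncomputable section

set_option linter.unusedSectionVars false

namespace Pool.Agent.Lib.MP_aa9b81_an.Cb

open Cut Hs

section Sym

variable {G O Y E Z : Type} [Group G] [TopologicalSpace G] [DecidableEq G] [LinearOrder O]
  [TopologicalSpace Y] [MulAction G Y] [AddCommGroup E] [Module ℝ E]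
  [TopologicalSpace E] [T2Space E] [ContinuousAdd E] [ContinuousSMul ℝ E] [DistribMulAction G E]
  [SMulCommClass G ℝ E] [ContinuousConstSMul G E] [TopologicalSpace Z] [MulAction G Z]
  {V : Set G} (Δ : Df G Y V) (Q : ConvexSpace G E)

/-- The symbol of stage 1: the function `φ(y, D y ∖ F, w, z, g)` of the pair `(F, S)`. -/
def n1 (φ : Prs Δ × Cone Q × Z → G → ℂ) (b : Y × Cone Q × Z) (g : G) : BL (Bs G) :=
  dia fun β => φ (Δ.pt b.1 (β.F : Set G)ᶜ, b.2) g

/-- The symbol of stage 2: the same, rotated by the angle `θ`. -/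
def n2 (θ : ℝ) (φ : Prs Δ × Cone Q × Z → G → ℂ) (b : Y × Cone Q × Z) (g : G) : BL (Bs G) :=
  sig θ fun T => φ (Δ.pt b.1 {x | T x = false}, b.2) g

/-- The value of `φ` at the reading of stage 3: at `(y, D y ∩ (F ∖ S), (1 - t) w + t (q_F, 1), z, g)`, and at `(y, ∅, w, z, g)` for `F = ∅`. -/
def v3 (q₀ : Q.Pt) (t : ℝ) (φ : Prs Δ × Cone Q × Z → G → ℂ) (b : Y × Cone Q × Z) (g : G)
    (β : Bs G) : ℂ :=
  if β.F = ∅ then φ (Δ.pt b.1 ∅, b.2) g else
    cph Q (fun x => φ x g) t (mean Q q₀ β.F) (Δ.pt b.1 {x | x ∈ β.F ∧ x ∉ β.S}, b.2)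

/-- The symbol of stage 3. -/
def n3 (q₀ : Q.Pt) (t : ℝ) (φ : Prs Δ × Cone Q × Z → G → ℂ) (b : Y × Cone Q × Z) (g : G) :
    BL (Bs G) := dia fun β => v3 Δ Q q₀ t φ b g β

variable {Δ Q}

/-- `φ` with `g` as a coordinate of the last factor. -/
def ps3 (φ : Prs Δ × Cone Q × Z → G → ℂ) (x : Prs Δ × Cone Q × (Z × G)) : ℂ :=
  φ (x.1, x.2.1, x.2.2.1) x.2.2.2

theorem cph_ps3 (φ : Prs Δ × Cone Q × Z → G → ℂ) (t : ℝ) (q : Q.Pt) (r : Prs Δ)
    (w : Cone Q × Z) (g : G) :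
    cph Q (fun x => φ x g) t q (r, w) = cph Q (ps3 φ) t q (r, w.1, (w.2, g)) := rfl

theorem continuous_ps3 {φ : Prs Δ × Cone Q × Z → G → ℂ} (hφ : Cc _ G φ) :
    Continuous (ps3 φ) := by
  have h1 : Continuous fun x : Prs Δ × Cone Q × (Z × G) => ((x.1, x.2.1, x.2.2.1), x.2.2.2) := by
    fun_prop
  exact hφ.cont.comp h1

theorem hasCompactSupport_ps3 {φ : Prs Δ × Cone Q × Z → G → ℂ} (hφ : Cc _ G φ) :
    HasCompactSupport (ps3 φ) := by
  let H : (Prs Δ × Cone Q × (Z × G)) ≃ₜ (Prs Δ × Cone Q × Z) × G :=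
    { toFun := fun x => ((x.1, x.2.1, x.2.2.1), x.2.2.2)
      invFun := fun x => (x.1.1, x.1.2.1, (x.1.2.2, x.2))
      left_inv := fun _ => rfl
      right_inv := fun _ => rfl
      continuous_toFun := by fun_prop
      continuous_invFun := by fun_prop }
  exact hφ.supp.comp_homeomorph H

theorem norm_v3_le {φ : Prs Δ × Cone Q × Z → G → ℂ} {M : ℝ} (hM : ∀ x g, ‖φ x g‖ ≤ M) (q₀ : Q.Pt)
    (t : ℝ) (b : Y × Cone Q × Z) (g : G) (β : Bs G) : ‖v3 Δ Q q₀ t φ b g β‖ ≤ M := by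
  unfold v3
  split_ifs
  · exact hM _ _
  · exact norm_cph_le Q (fun x => hM x g) t _ _

theorem cph_eq_zero {φ : Prs Δ × Cone Q × Z → ℂ} (h : ∀ x, φ x = 0) (t : ℝ) (q : Q.Pt)
    (x : Prs Δ × Cone Q × Z) : cph Q φ t q x = 0 :=
  norm_eq_zero.1 (le_antisymm (norm_cph_le Q (C := 0) (fun x => by rw [h x, norm_zero]) t q x)
    (norm_nonneg _))

theorem norm_cph_sub_le {φ : Prs Δ × Cone Q × Z → ℂ} {r r' : Prs Δ} {ε : ℝ} (hε : 0 ≤ ε)
    (h : ∀ w, ‖φ (r, w) - φ (r', w)‖ ≤ ε) (t : ℝ) (q : Q.Pt) (w : Cone Q × Z) :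
    ‖cph Q φ t q (r, w) - cph Q φ t q (r', w)‖ ≤ ε := by
  unfold cph
  split_ifs
  · exact h _
  · rw [sub_zero, norm_zero]
    exact hε

theorem setOf_map_diff {L : Finset G} (s : L ↪ G) (F S : Finset L) :
    {x : G | x ∈ F.map s ∧ x ∉ S.map s} = (((F \ S).map s : Finset G) : Set G) := by
  ext x
  rw [mem_ofPred_eq, Finset.mem_coe]
  simp only [Finset.mem_map]
  constructor
  · rintro ⟨⟨i, hi, rfl⟩, h⟩
    exact ⟨i, Finset.mem_sdiff.2 ⟨hi, fun h2 => h ⟨i, h2, rfl⟩⟩, rfl⟩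
  · rintro ⟨i, hi, rfl⟩
    rw [Finset.mem_sdiff] at hi
    refine ⟨⟨i, hi.1, rfl⟩, ?_⟩
    rintro ⟨j, hj, hji⟩
    rw [s.injective hji] at hj
    exact hi.2 hj

variable [IsTopologicalGroup G] [T2Space G] [LocallyCompactSpace G] [T2Space Y]
  [LocallyCompactSpace Y] [ContinuousSMul G Y] [T2Space Z] [LocallyCompactSpace Z]
  [ContinuousSMul G Z]

/-- STAGE 3. PROOF. As stage 1. `dec`: also `exists_compact_cph`. `sc`: `LocAt_dia`, `Df.tendsto_pt` (for the finite set of the points of `F ∖ S`), `tendsto_mean`, `continuous_cph` for `φ · g`, jointly in `g`: apply the statements on `cph` with `S = Prs Δ`, `Z` replaced by `Z × G`, that is to the function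
`(r, w, (z, g)) ↦ φ (r, w, z) g`. `abs`: `Wg_dia`, `Df.pt_smul`, `smul_cmove`, `mean_smul` (`F ≠ ∅`). `comm`: `Wc.small_S`: the values for `(F, S)` and `(F, S')` with `S ∩ C₁ = S' ∩ C₁`, `F ⊆ D` are close by `Df.exists_local` (applied to `φ` with `P = (Cone Q × Z) × G`; `cph` is a value of `φ` or `0`); for `F = ∅` equal. -/
theorem Sy_n3 (χ : Part V) (hV : IsOpen V) (h1 : (1 : G) ∈ V)
    (hQ : Continuous fun p : G × Q.Pt => p.1 • p.2) (e : G ↪ O) (W : Wc G) (q₀ : Q.Pt) (t : ℝ)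
    {φ : Prs Δ × Cone Q × Z → G → ℂ} (hφ : Cc _ G φ) :
    Sy χ e (Δ.base (Cone Q × Z)) (fun a => TT e 0 (W.tr a)) (n3 Δ Q q₀ t φ) := by
  have hV1 : V ∈ 𝓝 (1 : G) := hV.mem_nhds h1
  have hcone : ContinuousSMul G (Cone Q) := cone_continuousSMul Q hQ
  obtain ⟨M, hM, hMφ⟩ := hφ.exists_bound
  obtain ⟨C, hC, hCφ⟩ := hφ.exists_supp
  obtain ⟨K, hK, hKφ⟩ := hφ.exists_dec
  have hψ := continuous_ps3 hφ
  have hψc := hasCompactSupport_ps3 hφ
  obtain ⟨K', hK', hKψ⟩ := exists_compact_cph Q hψc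
  have hMv : ∀ b g β, ‖v3 Δ Q q₀ t φ b g β‖ ≤ M := norm_v3_le hMφ q₀ t
  have hsupp : ∀ b : Y × Cone Q × Z, ∀ g ∉ C, n3 Δ Q q₀ t φ b g = 0 := by
    intro b g hg
    refine dia_eq_zero fun β => ?_
    unfold v3
    split_ifs
    · exact hCφ _ g hg
    · exact cph_eq_zero (fun x => hCφ x g hg) t _ _
  have hpc : Continuous fun r : Prs Δ => r.1.1 := continuous_fst.comp continuous_subtype_val
  refine ⟨⟨M, fun b g => norm_dia_le hM.le fun β => hMv _ _ _⟩, ⟨C, hC, hsupp⟩,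
    ⟨K ∪ (fun x : Prs Δ × Cone Q × (Z × G) => (x.1.1.1, x.2.1, x.2.2.1)) '' K',
      hK.union (hK'.image ?_), fun b hb g => dia_eq_zero fun β => ?_⟩,
    fun b g => dia_comm_Es (C := M) (fun β => hMv _ _ _) _,
    fun b g => dia_comm_Pp (C := M) fun β => hMv _ _ _, ?_, ?_, ?_⟩
  · exact (hpc.comp continuous_fst).prodMk (by fun_prop)
  · unfold v3
    split_ifs
    · exact hKφ b.1 _ b.2 g fun h => hb (Or.inl h)
    · rw [cph_ps3]
      exact hKψ t _ _ fun h => hb (Or.inr ⟨_, h, rfl⟩)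
  · -- sc
    refine SC_of_LocAt χ hV1 e (Zp := (Y × Cone Q × Z) × G) (D := fun z => (Δ.D z.1.1).s)
      (n := fun z => n3 Δ Q q₀ t φ z.1 z.2) (C := M)
      ?_ (fun z => (Δ.D z.1.1).sep) (fun z => norm_dia_le hM.le fun β => hMv _ _ _) fun z₀ => ?_
    · exact ClV.continuous_iff_fell.1 (Δ.cont.comp (continuous_fst.comp continuous_fst))
    · refine LocAt_dia e (C := M) (fun z b => hMv _ _ _) z₀ fun L hL σ hσ β => ?_
      unfold v3
      simp only [mp_F, mp_S, Finset.map_eq_empty]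
      split_ifs with hF
      · have h2 := Δ.tendsto_pt hV1 (y := fun z : (Y × Cone Q × Z) × G => z.1.1) (z₀ := z₀)
          (continuous_fst.comp continuous_fst).continuousAt hL hσ ∅
        simp only [Finset.map_empty, Finset.coe_empty] at h2
        exact (hφ.cont.tendsto ((Δ.pt z₀.1.1 ∅, z₀.1.2), z₀.2)).comp
          ((h2.prodMk_nhds ((continuous_snd.comp continuous_fst).tendsto z₀)).prodMk_nhds
            (continuous_snd.tendsto z₀))
      · simp only [setOf_map_diff, cph_ps3]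
        have h2 := Δ.tendsto_pt hV1 (y := fun z : (Y × Cone Q × Z) × G => z.1.1) (z₀ := z₀)
          (continuous_fst.comp continuous_fst).continuousAt hL hσ (β.F \ β.S)
        have h3 := tendsto_mean Q hQ q₀ hσ.tend β.F
        have h4 := continuous_cph Q hψ t
        have h5 : Continuous fun z : (Y × Cone Q × Z) × G => (z.1.2.1, (z.1.2.2, z.2)) := by
          fun_prop
        exact (h4.tendsto ((Δ.pt z₀.1.1 (((β.F \ β.S).map (iL L) : Finset G) : Set G),
          z₀.1.2.1, (z₀.1.2.2, z₀.2)), mean Q q₀ (β.F.map (iL L)))).comp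
          ((h2.prodMk_nhds (h5.tendsto z₀)).prodMk_nhds h3)
  · -- abs
    intro b
    have h2 : ∀ p : G × G, Wg e p.1 * n3 Δ Q q₀ t φ (p.1⁻¹ • b) (p.1⁻¹ * p.2) * Wg e p.1⁻¹ =
        dia fun β : Bs G => if β.F = ∅ then φ (p.1⁻¹ • (Δ.pt b.1 ∅, b.2)) (p.1⁻¹ * p.2) else
          cph Q (ps3 φ) t (p.1⁻¹ • mean Q q₀ β.F) (p.1⁻¹ • Δ.pt b.1 {x | x ∈ β.F ∧ x ∉ β.S},
            p.1⁻¹ • b.2.1, (p.1⁻¹ • b.2.2, p.1⁻¹ * p.2)) := by
      intro p
      unfold n3
      rw [Wg_dia e hM.le (fun β => hMv _ _ _), mul_assoc, Wg_mul_inv, mul_one]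
      congr 1
      funext β
      unfold v3
      have h3 : (p.1⁻¹ • β).F = ∅ ↔ β.F = ∅ := by
        rw [Bs.smul_F]
        exact Finset.map_eq_empty
      by_cases hF : β.F = ∅
      · rw [if_pos hF, if_pos (h3.2 hF)]
        congr 2
        show Δ.pt (p.1⁻¹ • b.1) ∅ = p.1⁻¹ • Δ.pt b.1 ∅
        rw [Δ.pt_smul]
        rfl
      · rw [if_neg hF, if_neg fun h => hF (h3.1 h), cph_ps3, Bs.smul_F, Bs.smul_S,
          mean_smul Q q₀ (Finset.nonempty_iff_ne_empty.2 hF)]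
        congr 2
        show Δ.pt (p.1⁻¹ • b.1) _ = p.1⁻¹ • Δ.pt b.1 _
        rw [Δ.pt_smul]
        congr 2
        ext x
        rw [mem_ofPred_eq, mem_ofPred_eq, mem_ofPred_eq, mem_gF, mem_gF, smul_eq_mul, inv_inv,
          mul_inv_cancel_left]
    simp only [h2]
    have := Prs.continuousSMul Δ hV1
    have h3 : Continuous fun p : G × G => p.1⁻¹ := continuous_fst.inv
    refine SC_dia (C := M) (fun p β => ?_) fun β => ?_
    · split_ifs
      · exact hMφ _ _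
      · exact norm_cph_le Q (fun x => hMφ _ _) t _ _
    · split_ifs
      · exact hφ.cont.comp ((h3.smul continuous_const).prodMk (h3.mul continuous_snd))
      · have h4 := continuous_cph Q hψ t
        refine h4.comp (Continuous.prodMk ?_ ?_)
        · exact (h3.smul continuous_const).prodMk ((h3.smul continuous_const).prodMk
            ((h3.smul continuous_const).prodMk (h3.mul continuous_snd)))
        · exact hQ.comp (h3.prodMk continuous_const)
  · -- comm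
    refine comm_of (Δ := Δ.base (Cone Q × Z)) W e le_rfl zero_le_one (C := C) hsupp
      fun η hη => ?_
    obtain ⟨C₁, hC₁, hC₁f⟩ := hφ.exists_loc hV h1 (show 0 < η / 4 by linarith)
    obtain ⟨R₀, hR₀, h2⟩ := W.small_S e hV1 hC hC₁ (show 0 < η / (2 * M) by positivity)
    refine ⟨R₀, hR₀, fun b g hg => ?_⟩
    have hMn : ∀ x : ℂ, ‖(M : ℂ)⁻¹ * x‖ = M⁻¹ * ‖x‖ := by
      intro x
      rw [norm_mul, norm_inv, Complex.norm_real, Real.norm_eq_abs, abs_of_pos hM]
    have hb1 : ∀ β, ‖(M : ℂ)⁻¹ * v3 Δ Q q₀ t φ b g β‖ ≤ 1 := by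
      intro β
      rw [hMn, inv_mul_le_iff₀ hM, mul_one]
      exact hMv _ _ _
    have h3 := h2 R₀ le_rfl g hg (Δ.D b.1).s (Δ.D b.1).sep
      (fun β => (M : ℂ)⁻¹ * v3 Δ Q q₀ t φ b g β) hb1 (η / (4 * M)) (fun β β' hβ hFF hSS => ?_)
    · have h4 : n3 Δ Q q₀ t φ b g =
          (M : ℂ) • dia fun β : Bs G => (M : ℂ)⁻¹ * v3 Δ Q q₀ t φ b g β := by
        refine ContinuousLinearMap.ext fun ξ => ?_
        ext β
        have h5 : (((M : ℂ) • dia fun β : Bs G => (M : ℂ)⁻¹ *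
            v3 Δ Q q₀ t φ b g β : BL (Bs G)) ξ : Bs G → ℂ) β =
            (M : ℂ) * ((dia fun β : Bs G => (M : ℂ)⁻¹ *
            v3 Δ Q q₀ t φ b g β : BL (Bs G)) ξ : Bs G → ℂ) β := rfl
        have hM' : (M : ℂ) ≠ 0 := by exact_mod_cast hM.ne'
        rw [h5, n3, dia_apply hM.le (fun β => hMv _ _ _), dia_apply zero_le_one hb1]
        field_simp
      rw [h4, mul_smul_comm, smul_mul_assoc, ← smul_sub, smul_mul_assoc, norm_smul,
        Complex.norm_real, Real.norm_eq_abs, abs_of_pos hM]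
      calc M * _ ≤ M * (2 * (η / (4 * M)) + η / (2 * M)) := mul_le_mul_of_nonneg_left h3 hM.le
        _ = η := by
          field_simp
          ring
    · rw [← mul_sub, hMn, inv_mul_le_iff₀ hM]
      have h6 : M * (η / (4 * M)) = η / 4 := by field_simp
      rw [h6]
      unfold v3
      by_cases hF : β.F = ∅
      · rw [if_pos hF, if_pos (hFF ▸ hF), sub_self, norm_zero]
        linarith
      · rw [if_neg hF, if_neg (hFF ▸ hF), ← hFF]
        refine norm_cph_sub_le (by linarith) (fun w => hC₁f b.1 _ _ w g ?_) t _ _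
        ext x
        constructor
        · rintro ⟨⟨hx, hxF, hxS⟩, hxC⟩
          refine ⟨⟨hx, hxF, fun h => hxS ?_⟩, hxC⟩
          have h7 : x ∈ (β'.S : Set G) ∩ C₁ := ⟨h, hxC⟩
          rw [← hSS] at h7
          exact h7.1
        · rintro ⟨⟨hx, hxF, hxS⟩, hxC⟩
          refine ⟨⟨hx, hxF, fun h => hxS ?_⟩, hxC⟩
          have h7 : x ∈ (β.S : Set G) ∩ C₁ := ⟨h, hxC⟩
          rw [hSS] at h7
          exact h7.1

end Sym

end Pool.Agent.Lib.MP_aa9b81_an.Cb
end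
end

section

/-!
# Continuous Bernoulli, part Kf: the readings of the stages 1 and 3
-/

open scoped ENNReal Topology CompactlySupported
open Function Filter MeasureTheory

noncomputable section

set_option linter.unusedSectionVars false

namespace Pool.Agent.Lib.MP_aa9b81_an.Cb

open Cut Hs

section

variable {G Y E Z : Type} [Group G] [TopologicalSpace G] [DecidableEq G]
  [TopologicalSpace Y] [MulAction G Y] [AddCommGroup E] [Module ℝ E]
  [TopologicalSpace E] [T2Space E] [ContinuousAdd E] [ContinuousSMul ℝ E] [DistribMulAction G E]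
  [SMulCommClass G ℝ E] [ContinuousConstSMul G E] [TopologicalSpace Z] [MulAction G Z]
  {V : Set G} (Δ : Df G Y V) (Q : ConvexSpace G E)

/-- The reading of stage 1. -/
def r1 (b : Y × Cone Q × Z) (β : Bs G) : Option (Prs Δ × Cone Q × Z) :=
  some (Δ.pt b.1 (β.F : Set G)ᶜ, b.2)

open Classical in
/-- The reading of stage 3. -/
def r3 (q₀ : Q.Pt) (t : ℝ) (b : Y × Cone Q × Z) (β : Bs G) : Option (Prs Δ × Cone Q × Z) :=
  if β.F = ∅ then some (Δ.pt b.1 ∅, b.2) else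
    if h : t ∈ Set.Ico (0 : ℝ) 1 then
      some (Δ.pt b.1 {x | x ∈ β.F ∧ x ∉ β.S}, cmove Q b.2.1 (mean Q q₀ β.F) ⟨t, h⟩, b.2.2)
    else none

/-- PROOF: `Df.pt_smul`: `{x | g x ∈ (g F)ᶜ} = Fᶜ`. -/
theorem r1_smul (g : G) (b : Y × Cone Q × Z) (β : Bs G) :
    r1 Δ Q (g • b) (g • β) = (r1 Δ Q b β).map fun b' => g • b' := by
  have h : {x : G | g * x ∈ ((gF g β.F : Finset G) : Set G)ᶜ} = (β.F : Set G)ᶜ := by
    ext x
    show g * x ∉ ((gF g β.F : Finset G) : Set G) ↔ x ∉ (β.F : Set G)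
    rw [Finset.mem_coe, mem_gF, Finset.mem_coe, smul_eq_mul, inv_mul_cancel_left]
  show some (Δ.pt (g • b.1) (((gF g β.F : Finset G) : Set G)ᶜ), g • b.2) =
    some (g • Δ.pt b.1 (β.F : Set G)ᶜ, g • b.2)
  rw [Δ.pt_smul, h]

/-- PROOF: `Df.pt_smul`, `smul_cmove`, `mean_smul`. -/
theorem r3_smul (q₀ : Q.Pt) (t : ℝ) (g : G) (b : Y × Cone Q × Z) (β : Bs G) :
    r3 Δ Q q₀ t (g • b) (g • β) = (r3 Δ Q q₀ t b β).map fun b' => g • b' := by
  have h3 : (g • β).F = ∅ ↔ β.F = ∅ := by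
    rw [Bs.smul_F]
    exact Finset.map_eq_empty
  unfold r3
  by_cases hF : β.F = ∅
  · rw [if_pos hF, if_pos (h3.2 hF)]
    show some (Δ.pt (g • b.1) ∅, g • b.2) = some (g • Δ.pt b.1 ∅, g • b.2)
    rw [Δ.pt_smul]
    rfl
  · rw [if_neg hF, if_neg fun h => hF (h3.1 h)]
    by_cases ht : t ∈ Set.Ico (0 : ℝ) 1
    · rw [dif_pos ht, dif_pos ht]
      have h4 : {x : G | g * x ∈ {x | x ∈ gF g β.F ∧ x ∉ gF g β.S}} =
          {x | x ∈ β.F ∧ x ∉ β.S} := by
        ext x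
        show g * x ∈ gF g β.F ∧ g * x ∉ gF g β.S ↔ x ∈ β.F ∧ x ∉ β.S
        rw [mem_gF, mem_gF, smul_eq_mul, inv_mul_cancel_left]
      show some (Δ.pt (g • b.1) {x | x ∈ gF g β.F ∧ x ∉ gF g β.S},
          cmove Q (g • b.2.1) (mean Q q₀ (gF g β.F)) ⟨t, ht⟩, g • b.2.2) =
        some (g • Δ.pt b.1 {x | x ∈ β.F ∧ x ∉ β.S},
          g • cmove Q b.2.1 (mean Q q₀ β.F) ⟨t, ht⟩, g • b.2.2)
      rw [Δ.pt_smul, h4, mean_smul Q q₀ (Finset.nonempty_iff_ne_empty.2 hF), smul_cmove]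
    · rw [dif_neg ht, dif_neg ht]
      rfl

theorem nr_r1 (φ : Prs Δ × Cone Q × Z → G → ℂ) : nr (r1 Δ Q) φ = n1 Δ Q φ := rfl

/-- PROOF: by cases: the three cases of `r3` correspond to the cases of `v3` and of `cph`. -/
theorem nr_r3 (q₀ : Q.Pt) (t : ℝ) (φ : Prs Δ × Cone Q × Z → G → ℂ) :
    nr (r3 Δ Q q₀ t) φ = n3 Δ Q q₀ t φ := by
  funext b g
  unfold nr n3
  congr 1
  funext β
  unfold r3 v3 cph
  by_cases hF : β.F = ∅
  · rw [if_pos hF, if_pos hF]
    rfl
  · rw [if_neg hF, if_neg hF]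
    by_cases ht : t ∈ Set.Ico (0 : ℝ) 1
    · rw [dif_pos ht, dif_pos ht]
      rfl
    · rw [dif_neg ht, dif_neg ht]
      rfl

end

end Pool.Agent.Lib.MP_aa9b81_an.Cb
end
end

section

/-!
# Continuous Bernoulli, part Ki: the ends of the path
-/

open scoped ENNReal Topology CompactlySupported
open Function Filter MeasureTheory

noncomputable section

set_option linter.unusedSectionVars false

namespace Pool.Agent.Lib.MP_aa9b81_an.Cb

open Cut Hs

/-- `F = ∅` only for the vacuum. -/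
theorem eq_vac_iff {I : Type} (β : Bs I) : β = Bs.vac ↔ β.F = ∅ := by
  constructor
  · intro h
    rw [h]
    rfl
  · intro h
    refine Bs.ext h ?_
    have h2 := β.sub
    rw [h] at h2
    exact Finset.subset_empty.1 h2

section

variable {G O B B' : Type} [Group G] [TopologicalSpace G] [IsTopologicalGroup G]
  [LocallyCompactSpace G] [SecondCountableTopology G] [T2Space G] [MeasurableSpace G]
  [BorelSpace G] [DecidableEq G] [LinearOrder O] {V : Set G}

/-- The corner at the vacuum. -/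
theorem corn_sV_apply (y : FamG G ℕ B) (b : B) :
    corn (sV G) y b = bd fun β : Bs G => if β.F = ∅ then y b else 0 := by
  have h := corn_vc (Bs.vac : Bs G) y b
  have h1 : (fun β : Bs G => if β.F = ∅ then y b else 0) =
      fun β : Bs G => open Classical in if β = Bs.vac then y b else 0 := by
    funext β
    by_cases hβ : β.F = ∅
    · rw [if_pos hβ, if_pos ((eq_vac_iff β).2 hβ)]
    · rw [if_neg hβ, if_neg fun h => hβ ((eq_vac_iff β).1 h)]
  rw [h1]
  exact h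

private theorem Ki_elim_le {r : B → Bs G → Option B'} (x : FamG G ℕ B') (b : B) (β : Bs G) :
    ‖(r b β).elim 0 x.fn‖ ≤ ‖x‖ := by
  cases h : r b β with
  | none => simp
  | some b' => exact x.norm_apply_le b'

/-- Multiplication by the projection onto the vacuum. -/
theorem Thr_mul_PV {r : B → Bs G → Option B'} {m : B → B'}
    (hm : ∀ b (β : Bs G), β.F = ∅ → r b β = some (m b)) (x : FamG G ℕ B') :
    Thr r x * cF B PV = corn (sV G) (pullG m x) := by
  refine FamG.ext fun b => ?_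
  rw [FamG.mul_apply, Thr_apply, cF_apply, corn_sV_apply]
  have h1 : (bd fun β => (r b β).elim 0 x.fn).comp
      (Mul fun _ : G => am (dia fun β : Bs G => if β.F = ∅ then (1 : ℂ) else 0)) =
      bd fun β : Bs G => (if β.F = ∅ then (1 : ℂ) else 0) • (r b β).elim 0 x.fn :=
    bd_comp_Mul_dia (norm_nonneg x) (fun β => Ki_elim_le x b β) (C' := 1)
      (fun β => by split_ifs <;> simp)
  refine h1.trans ?_
  congr 1
  funext β
  by_cases hβ : β.F = ∅
  · rw [if_pos hβ, if_pos hβ, one_smul, hm b β hβ]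
    rfl
  · rw [if_neg hβ, if_neg hβ, zero_smul]

/-- A reading with values at the vacuum only. -/
theorem Thr_eq_corn {r : B → Bs G → Option B'} {m : B → B'}
    (hm : ∀ b (β : Bs G), β.F = ∅ → r b β = some (m b))
    (hm' : ∀ b (β : Bs G), β.F ≠ ∅ → r b β = none) (x : FamG G ℕ B') :
    Thr r x = corn (sV G) (pullG m x) := by
  refine FamG.ext fun b => ?_
  rw [Thr_apply, corn_sV_apply]
  congr 1
  funext β
  by_cases hβ : β.F = ∅
  · rw [if_pos hβ, hm b β hβ]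
    rfl
  · rw [if_neg hβ, hm' b β hβ]
    rfl

private theorem Ki_am_ex {P : Type} [Nonempty P] {m : L2 P →L[ℂ] L2 P} {p : P} {c : ℂ}
    (hm : m (bv p) = c • bv p) : (am m).comp (ex (vc p)) = c • ex (vc p) := by
  refine ext_op fun k => ?_
  rw [ContinuousLinearMap.comp_apply, smul_apply]
  have h1 : ex (vc p) (bv k) = bv (k, p) := by
    ext q
    by_cases hq : q ∈ Set.range (vc p)
    · obtain ⟨l, rfl⟩ := hq
      rw [ex_apply, bv_apply, bv_apply]
      by_cases hl : l = k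
      · rw [if_pos hl, if_pos (by rw [hl]; rfl)]
      · rw [if_neg hl, if_neg fun h => hl (Prod.ext_iff.1 h).1]
    · rw [ex_apply_of_notMem _ _ hq, bv_apply, if_neg fun h => hq ⟨k, h.symm⟩]
  rw [h1]
  ext q
  rw [am_bv, hm]
  change (if q.1 = k then c * (bv p : P → ℂ) q.2 else 0) = c * (bv (k, p) : ℕ × P → ℂ) q
  rw [bv_apply, bv_apply]
  by_cases h2 : q.1 = k
  · rw [if_pos h2]
    congr 1
    by_cases h3 : q.2 = p
    · rw [if_pos h3, if_pos (Prod.ext h2 h3)]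
    · rw [if_neg h3, if_neg fun h => h3 (Prod.ext_iff.1 h).2]
  · rw [if_neg h2, if_neg fun h => h2 (Prod.ext_iff.1 h).1, mul_zero]

private theorem Ki_Mul_corn {T : G → BL (Bs G)} (hT : SC T) {c : ℂ}
    (h0 : ∀ a, T a (bv Bs.vac) = c • bv Bs.vac) (y : FamG G ℕ B) (b : B) :
    (Mul fun a => am (T a)).comp (corn (sV G) y b) = c • corn (sV G) y b := by
  rw [corn_apply, ← ContinuousLinearMap.comp_assoc, ← ContinuousLinearMap.comp_assoc,
    Mul_comp_Mul hT.am (SC.const _)]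
  have h1 : (fun a => (am (T a)).comp (ex (sV G))) = fun _ : G => c • ex (sV G) := by
    funext a
    exact Ki_am_ex (h0 a)
  rw [h1, Mul_smul (SC.const _), ContinuousLinearMap.smul_comp, ContinuousLinearMap.smul_comp]

theorem cF_mul_corn {m : BL (Bs G)} {c : ℂ} (hm : m (bv Bs.vac) = c • bv Bs.vac) (y : FamG G ℕ B) :
    cF B m * corn (sV G) y = c • corn (sV G) y := by
  refine FamG.ext fun b => ?_
  rw [FamG.mul_apply, cF_apply, FamG.smul_apply]
  exact Ki_Mul_corn (T := fun _ => m) (SC.const _) (fun _ => hm) y b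

theorem PV_vac : (PV : BL (Bs G)) (bv Bs.vac) = bv Bs.vac := by
  unfold PV
  rw [dia_bv (C := 1) (fun b => by split_ifs <;> simp), if_pos (show (Bs.vac : Bs G).F = ∅ from rfl),
    one_smul]

theorem tF_mul_corn {χ : Part V} {e : G ↪ O} {T : G → BL (Bs G)} (hT : TOK χ e T)
    (h0 : ∀ a, T a * PV = 0) (y : FamG G ℕ B) : tF B T * corn (sV G) y = 0 := by
  refine FamG.ext fun b => ?_
  rw [FamG.mul_apply, tF_apply hT, FamG.zero_apply]
  have h1 : ∀ a, T a (bv Bs.vac) = (0 : ℂ) • bv Bs.vac := by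
    intro a
    have h1 := congrArg (fun X : BL (Bs G) => X (bv Bs.vac)) (h0 a)
    rw [zero_smul]
    have h2 : T a ((PV : BL (Bs G)) (bv Bs.vac)) = 0 := h1
    rwa [PV_vac] at h2
  have h2 := Ki_Mul_corn hT.sc h1 y b
  rw [zero_smul] at h2
  exact h2

theorem TT_one_eq (e : G ↪ O) (w w' : G → ℝ) : TT e 1 w = TT e 1 w' := by
  have h : (uu 1 w : Finset G → G → ℝ) = uu 1 w' := by
    funext F i
    have h1 : (pp 1 w F : G → ℝ) = pp 1 w' F := by
      funext i
      unfold pp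
      simp
    unfold uu
    rw [h1]
  unfold TT
  rw [h]

/-- The conjugate of the corner. -/
theorem cj_corn [TopologicalSpace B] [MulAction G B] (χ : Part V) (e : G ↪ O) (Δ : Df G B V)
    (hV : V ∈ 𝓝 (1 : G)) (y : FamG G ℕ B) : cj χ e Δ (corn (sV G) y) = corn (sV ℕ) y := by
  rw [← cj_vac (χ := χ) (e := e) (Δ := Δ) hV y]
  congr 1
  refine FamG.ext fun b => ?_
  have h1 : ∀ b, ‖((iV G).comp ((y b).comp (rV G)) : HG G (ℕ × Bs G) →L[ℂ] _)‖ ≤ ‖y‖ := by
    intro b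
    have h2 := norm_corn_le (sV G) y
    have h3 := (corn (sV G) y).norm_apply_le b
    rw [corn_apply, ContinuousLinearMap.comp_assoc] at h3
    exact h3.trans h2
  rw [fam_apply h1, corn_apply, ContinuousLinearMap.comp_assoc]
  rfl

end

end Pool.Agent.Lib.MP_aa9b81_an.Cb
end
end

section

/-!
# Continuous Bernoulli, part Kia: the three stages
-/

open scoped ENNReal Topology CompactlySupported
open Function Filter MeasureTheory

noncomputable section

set_option linter.unusedSectionVars false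

namespace Pool.Agent.Lib.MP_aa9b81_an.Cb

open Cut Hs

section

variable {G O B : Type} [Group G] [TopologicalSpace G] [IsTopologicalGroup G]
  [LocallyCompactSpace G] [SecondCountableTopology G] [T2Space G] [MeasurableSpace G]
  [BorelSpace G] [DecidableEq G] [LinearOrder O] {V : Set G}

/-- The operators of stage 1. -/
def Tw (e : G ↪ O) (W : Wc G) (s : ℝ) (a : G) : BL (Bs G) := TT e s (W.tr a)

theorem TOK_Tw (χ : Part V) (hV : V ∈ 𝓝 (1 : G)) (e : G ↪ O) (W : Wc G) {s : ℝ} (hs : 0 ≤ s)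
    (hs1 : s ≤ 1) : TOK χ e (Tw e W s) := TOK_TT χ hV e W hs hs1

theorem norm_tF_sub_le (χ : Part V) (hV : V ∈ 𝓝 (1 : G)) (e : G ↪ O) (W : Wc G) {s s' : ℝ}
    (hs : 0 ≤ s) (hs1 : s ≤ 1) (hs' : 0 ≤ s') (hs1' : s' ≤ 1) :
    ‖(tF B (Tw e W s) : FamG G (ℕ × Bs G) B) - tF B (Tw e W s')‖ ≤ 8 * |s - s'| := by
  have h := TOK_Tw χ hV e W hs hs1
  have h' := TOK_Tw χ hV e W hs' hs1'
  refine (FamG.norm_le_iff (by positivity)).2 fun b => ?_
  rw [FamG.sub_apply, tF_apply h, tF_apply h', ← Mul_sub h.sc.am h'.sc.am]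
  refine norm_Mul_le (h.sc.am.sub h'.sc.am) fun a => ?_
  rw [← am_sub]
  exact (norm_am_le _).trans (norm_TT_sub_le e hs hs1 hs' hs1' (W.one_le_tr a))

theorem continuousOn_Tw (χ : Part V) (hV : V ∈ 𝓝 (1 : G)) (e : G ↪ O) (W : Wc G) :
    ContinuousOn (fun t : ℝ => (tF B (Tw e W (1 - t)) : FamG G (ℕ × Bs G) B)) (Set.Icc 0 1) := by
  rw [Metric.continuousOn_iff]
  intro t ht ε hε
  refine ⟨ε / 9, by positivity, fun t' ht' h => ?_⟩
  rw [dist_eq_norm]
  refine (norm_tF_sub_le χ hV e W (by linarith [ht'.2]) (by linarith [ht'.1])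
    (by linarith [ht.2]) (by linarith [ht.1])).trans_lt ?_
  rw [Real.dist_eq] at h
  have h1 : 1 - t' - (1 - t) = -(t' - t) := by ring
  rw [h1, abs_neg]
  linarith

end

section

variable {G O Y E Z : Type} [Group G] [TopologicalSpace G] [DecidableEq G] [LinearOrder O]
  [TopologicalSpace Y] [MulAction G Y] [AddCommGroup E] [Module ℝ E]
  [TopologicalSpace E] [T2Space E] [ContinuousAdd E] [ContinuousSMul ℝ E] [DistribMulAction G E]
  [SMulCommClass G ℝ E] [ContinuousConstSMul G E] [TopologicalSpace Z] [MulAction G Z]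
  {V : Set G} {Δ : Df G Y V} {Q : ConvexSpace G E}

theorem n2_eq_zero (θ : ℝ) {φ : Prs Δ × Cone Q × Z → G → ℂ} {g : G} (h : ∀ b, φ b g = 0)
    (b : Y × Cone Q × Z) : n2 Δ Q θ φ b g = 0 := by
  have h1 : (fun T : G → Bool => φ (Δ.pt b.1 {x | T x = false}, b.2) g) = fun _ => 0 := by
    funext T
    exact h _
  unfold n2
  rw [h1]
  exact norm_le_zero_iff.1 (norm_sig_le continuous_const le_rfl (fun T => by simp) θ)

theorem n3_eq_zero (q₀ : Q.Pt) (t : ℝ) {φ : Prs Δ × Cone Q × Z → G → ℂ} {g : G}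
    (h : ∀ b, φ b g = 0) (b : Y × Cone Q × Z) : n3 Δ Q q₀ t φ b g = 0 := by
  refine dia_eq_zero fun β => ?_
  unfold v3
  split_ifs
  · exact h _
  · exact cph_eq_zero h _ _ _

theorem exists_supp_symbol {n : ℝ → (Prs Δ × Cone Q × Z → G → ℂ) → Y × Cone Q × Z → G → BL (Bs G)}
    (h0 : ∀ (t : ℝ) {φ : Prs Δ × Cone Q × Z → G → ℂ} {g : G}, (∀ b, φ b g = 0) →
      ∀ b, n t φ b g = 0) (φ : C_c((Prs Δ × Cone Q × Z) × G, ℂ)) :
    ∃ C : Set G, IsCompact C ∧ ∀ t ∈ Set.Icc (0 : ℝ) 1, ∀ b, ∀ g ∉ C,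
      n t (fun b g => φ (b, g)) b g = 0 := by
  obtain ⟨C, hC, h⟩ := (Cc.mk φ.continuous φ.hasCompactSupport :
    Cc (Prs Δ × Cone Q × Z) G fun b g => φ (b, g)).exists_supp
  exact ⟨C, hC, fun t _ b g hg => h0 t (fun b => h b g hg) b⟩

end

end Pool.Agent.Lib.MP_aa9b81_an.Cb
end
end
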