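import Pool.Agent.Lib.MP_aa9b81_an.Mg.G071
import Pool.Agent.Lib.MP_aa9b81_an.Mg.G070
import Pool.Agent.Lib.MP_aa9b81_an.Mg.G069
import Pool.Agent.Lib.MP_aa9b81_an.Mg.G066
import Pool.Agent.Lib.MP_aa9b81_an.Mg.G067

section

/-!
# Continuous Bernoulli, part Lkc: comparison with the elementary description of `K₁`
-/

open scoped ENNReal Topology Pointwise CompactlySupported
open Function Filter MeasureTheory

noncomputable section

set_option linter.unusedSectionVars false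

namespace Pool.Agent.Lib.MP_aa9b81_an.Cb

open Cut Hs

variable {G B Z : Type} [Group G] [TopologicalSpace G] [IsTopologicalGroup G]
  [LocallyCompactSpace G] [SecondCountableTopology G] [T2Space G] [MeasurableSpace G] [BorelSpace G]
  [TopologicalSpace B] [T2Space B] [MulAction G B] [ContinuousSMul G B]
  [TopologicalSpace Z] [T2Space Z] [MulAction G Z] [ContinuousSMul G Z]

/-- PROOF: as `Cut.unit1_iff` (CutM/JB.lean). -/
theorem unit1G_iff {u : B → LC0.Op G} :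
    LC0.Unit1 G u ↔ ∃ U ∈ GL1 (cpG G ℕ B), ∀ y, ((U : (FamG G ℕ B)ˣ) : FamG G ℕ B) y = u y := by
  constructor
  · rintro ⟨v, huv, hu, hv⟩
    obtain ⟨A, hA, hAu⟩ := exists_fam_of_inA hu
    obtain ⟨A', hA', hBv⟩ := exists_fam_of_inA hv
    have h1 : ∀ y, (1 + A) y = u y := by
      intro y
      rw [FamG.add_apply, FamG.one_apply, hAu y]
      abel
    have h2 : ∀ y, (1 + A') y = v y := by
      intro y
      rw [FamG.add_apply, FamG.one_apply, hBv y]
      abel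
    have h3 : (1 + A) * (1 + A') = 1 := by
      ext1 y
      rw [FamG.mul_apply, h1 y, h2 y, FamG.one_apply]
      exact (huv y).1
    have h4 : (1 + A') * (1 + A) = 1 := by
      ext1 y
      rw [FamG.mul_apply, h1 y, h2 y, FamG.one_apply]
      exact (huv y).2
    refine ⟨⟨1 + A, 1 + A', h3, h4⟩, ⟨?_, ?_⟩, h1⟩
    · show (1 + A) - 1 ∈ cpG G ℕ B
      rw [add_sub_cancel_left]
      exact hA
    · show (1 + A') - 1 ∈ cpG G ℕ B
      rw [add_sub_cancel_left]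
      exact hA'
  · rintro ⟨U, ⟨hU1, hU2⟩, hU⟩
    refine ⟨fun y => ((U⁻¹ : (FamG G ℕ B)ˣ) : FamG G ℕ B) y, fun y => ⟨?_, ?_⟩, ?_, ?_⟩
    · rw [← hU y, ← FamG.mul_apply, Units.mul_inv, FamG.one_apply]
    · show ((U⁻¹ : (FamG G ℕ B)ˣ) : FamG G ℕ B) y * u y = 1
      rw [← hU y, ← FamG.mul_apply, Units.inv_mul, FamG.one_apply]
    · have h1 := mem_cpG_iff.1 hU1
      have h2 : (fun y => ((U : FamG G ℕ B) - 1) y) = fun y => u y - 1 := by
        funext y
        rw [FamG.sub_apply, FamG.one_apply, hU y]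
      rw [h2] at h1
      exact h1
    · have h1 := mem_cpG_iff.1 hU2
      exact h1

/-- PROOF: as `Cut.homot_iff` (CutM/JB.lean). -/
theorem homotG_iff {U U' : (FamG G ℕ B)ˣ} (hU : U ∈ GL1 (cpG G ℕ B))
    (hU' : U' ∈ GL1 (cpG G ℕ B)) :
    LC0.Homot G (fun y => (U : FamG G ℕ B) y) (fun y => (U' : FamG G ℕ B) y) ↔
      U⁻¹ * U' ∈ E1 (cpG G ℕ B) := by
  constructor
  · rintro ⟨w, h0, h1, hw, hc⟩
    have hex : ∀ t : ℝ, ∃ W ∈ GL1 (cpG G ℕ B), ∀ y,
        ((W : (FamG G ℕ B)ˣ) : FamG G ℕ B) y = w t y :=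
      fun t => unit1G_iff.1 (hw t)
    choose W hW hWe using hex
    have e0 : W 0 = U := Units.ext (FamG.ext fun y => by rw [hWe 0 y, h0])
    have e1 : W 1 = U' := Units.ext (FamG.ext fun y => by rw [hWe 1 y, h1])
    have hcont : Continuous (fun t : ℝ => ((W t : (FamG G ℕ B)ˣ) : FamG G ℕ B)) := by
      rw [Metric.continuous_iff]
      intro t ε hε
      obtain ⟨δ, hδ, hδ2⟩ := hc t (ε / 2) (half_pos hε)
      refine ⟨δ, hδ, fun t' ht' => ?_⟩
      rw [dist_eq_norm]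
      refine lt_of_le_of_lt ?_ (half_lt_self hε)
      refine (FamG.norm_le_iff (half_pos hε).le).2 fun y => ?_
      rw [FamG.sub_apply, hWe t' y, hWe t y]
      exact hδ2 t' (by rwa [Real.dist_eq] at ht') y
    have h := E1_of_path W (fun t _ => hW t) hcont.continuousOn
    rwa [e0, e1] at h
  · intro h
    obtain ⟨hu, hj⟩ := (mem_E1_iff isClosed_cpG _).1 h
    have hj' : Joined (1 : GL1 (cpG G ℕ B)) ⟨U⁻¹ * U', hu⟩ := hj
    obtain ⟨γ⟩ := hj'
    have hq : ∀ t : ℝ, U * ((γ.extend t : GL1 (cpG G ℕ B)) : (FamG G ℕ B)ˣ) ∈ GL1 (cpG G ℕ B) :=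
      fun t => mul_mem hU (γ.extend t).2
    have hcont : Continuous (fun t : ℝ =>
        ((U * ((γ.extend t : GL1 (cpG G ℕ B)) : (FamG G ℕ B)ˣ) : (FamG G ℕ B)ˣ) :
          FamG G ℕ B)) := by
      have h1 : Continuous (fun t : ℝ => ((γ.extend t : GL1 (cpG G ℕ B)) : (FamG G ℕ B)ˣ)) :=
        continuous_subtype_val.comp γ.continuous_extend
      have h2 : Continuous (fun t : ℝ =>
          (((γ.extend t : GL1 (cpG G ℕ B)) : (FamG G ℕ B)ˣ) : FamG G ℕ B)) :=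
        Units.continuous_val.comp h1
      have h3 : Continuous (fun t : ℝ => (U : FamG G ℕ B) *
          (((γ.extend t : GL1 (cpG G ℕ B)) : (FamG G ℕ B)ˣ) : FamG G ℕ B)) := h2.const_mul _
      exact h3
    refine ⟨fun t y => ((U * ((γ.extend t : GL1 (cpG G ℕ B)) : (FamG G ℕ B)ˣ) :
      (FamG G ℕ B)ˣ) : FamG G ℕ B) y, ?_, ?_, fun t => ?_, fun t ε hε => ?_⟩
    · funext y
      change ((U * ((γ.extend 0 : GL1 (cpG G ℕ B)) : (FamG G ℕ B)ˣ) : (FamG G ℕ B)ˣ) :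
        FamG G ℕ B) y = _
      rw [γ.extend_zero, OneMemClass.coe_one, mul_one]
    · funext y
      change ((U * ((γ.extend 1 : GL1 (cpG G ℕ B)) : (FamG G ℕ B)ˣ) : (FamG G ℕ B)ˣ) :
        FamG G ℕ B) y = _
      rw [γ.extend_one, mul_inv_cancel_left]
    · exact unit1G_iff.2 ⟨_, hq t, fun y => rfl⟩
    · obtain ⟨δ, hδ, hδ2⟩ := (Metric.continuous_iff.1 hcont) t ε hε
      refine ⟨δ, hδ, fun t' ht' y => ?_⟩
      have h1 := hδ2 t' (by rwa [Real.dist_eq])
      rw [dist_eq_norm] at h1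
      have h2 := FamG.norm_apply_le (((U * ((γ.extend t' : GL1 (cpG G ℕ B)) : (FamG G ℕ B)ˣ) :
        (FamG G ℕ B)ˣ) : FamG G ℕ B) - ((U * ((γ.extend t : GL1 (cpG G ℕ B)) : (FamG G ℕ B)ˣ) :
        (FamG G ℕ B)ˣ) : FamG G ℕ B)) y
      rw [FamG.sub_apply] at h2
      exact h2.trans h1.le

/-- PROOF: as `Cut.k1Zero_iff` (CutM/JB.lean). -/
theorem k1ZeroG_iff : LC0.K1Zero G B ↔ GL1 (cpG G ℕ B) ≤ E1 (cpG G ℕ B) := by
  constructor
  · intro h U hU
    have h1 : LC0.Unit1 G (fun y => (U : FamG G ℕ B) y) := unit1G_iff.2 ⟨U, hU, fun y => rfl⟩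
    have h2 := h _ h1
    have h3 : LC0.Homot G (fun y => (U : FamG G ℕ B) y)
        (fun y => ((1 : (FamG G ℕ B)ˣ) : FamG G ℕ B) y) := h2
    have h4 := (homotG_iff hU (one_mem _)).1 h3
    rw [mul_one] at h4
    exact (inv_mem_iff).1 h4
  · intro h u hu
    obtain ⟨U, hU, hUe⟩ := unit1G_iff.1 hu
    have e : u = fun y => (U : FamG G ℕ B) y := funext fun y => (hUe y).symm
    rw [e]
    have h4 : U⁻¹ * 1 ∈ E1 (cpG G ℕ B) := by
      rw [mul_one]
      exact inv_mem (h hU)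
    exact (homotG_iff hU (one_mem _)).2 h4

/-- The pull back of units along a map. -/
def pullV (p : Z → B) : (FamG G ℕ B)ˣ →* (FamG G ℕ Z)ˣ :=
  Units.map ((pullG p : FamG G ℕ B →+* FamG G ℕ Z) : FamG G ℕ B →* FamG G ℕ Z)

theorem pullV_apply (p : Z → B) (U : (FamG G ℕ B)ˣ) (z : Z) :
    ((pullV p U : (FamG G ℕ Z)ˣ) : FamG G ℕ Z) z = (U : FamG G ℕ B) (p z) := rfl

/-- The map `p : Z → B` induces a bijection in `K₁`, in terms of the groups `GL1` and `E1`. -/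
def IsoG (p : Z → B) : Prop :=
  (∀ u ∈ GL1 (cpG G ℕ B), pullV p u ∈ E1 (cpG G ℕ Z) → u ∈ E1 (cpG G ℕ B)) ∧
    ∀ v ∈ GL1 (cpG G ℕ Z), ∃ u ∈ GL1 (cpG G ℕ B), (pullV p u)⁻¹ * v ∈ E1 (cpG G ℕ Z)

/-- PROOF: as `Cut.k1Bij_iff` (CutM/JB.lean). -/
theorem k1BijG_iff {p : Z → B} (hp : IsProperMap p) (he : ∀ (g : G) z, p (g • z) = g • p z) :
    LC0.K1Bij G p ↔ IsoG (G := G) p := by
  have hmem : ∀ {U : (FamG G ℕ B)ˣ}, U ∈ GL1 (cpG G ℕ B) → pullV p U ∈ GL1 (cpG G ℕ Z) :=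
    fun hU => GL1_map (pullG_mem hp he) hU
  constructor
  · rintro ⟨-, h2, h3⟩
    constructor
    · intro U hU hE
      have h4 : LC0.Homot G (fun z => (fun y => ((1 : (FamG G ℕ B)ˣ) : FamG G ℕ B) y) (p z))
          (fun z => (fun y => (U : FamG G ℕ B) y) (p z)) := by
        have h5 : (pullV p 1)⁻¹ * pullV p U ∈ E1 (cpG G ℕ Z) := by
          rw [map_one, inv_one, one_mul]
          exact hE
        exact (homotG_iff (hmem (one_mem _)) (hmem hU)).2 h5
      have h6 := h2 _ _ (unit1G_iff.2 ⟨1, one_mem _, fun y => rfl⟩)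
        (unit1G_iff.2 ⟨U, hU, fun y => rfl⟩) h4
      have h7 := (homotG_iff (one_mem _) hU).1 h6
      rwa [inv_one, one_mul] at h7
    · intro V hV
      obtain ⟨u, hu, huv⟩ := h3 _ (unit1G_iff.2 ⟨V, hV, fun y => rfl⟩)
      obtain ⟨U, hU, hUe⟩ := unit1G_iff.1 hu
      refine ⟨U, hU, ?_⟩
      have e : (fun z => u (p z)) = fun z => ((pullV p U : (FamG G ℕ Z)ˣ) : FamG G ℕ Z) z :=
        funext fun z => (hUe (p z)).symm
      rw [e] at huv
      exact (homotG_iff (hmem hU) hV).1 huv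
  · rintro ⟨h1, h2⟩
    refine ⟨fun u hu => ?_, fun u u' hu hu' hh => ?_, fun v hv => ?_⟩
    · obtain ⟨U, hU, hUe⟩ := unit1G_iff.1 hu
      exact unit1G_iff.2 ⟨pullV p U, hmem hU, fun z => hUe (p z)⟩
    · obtain ⟨U, hU, hUe⟩ := unit1G_iff.1 hu
      obtain ⟨U', hU', hUe'⟩ := unit1G_iff.1 hu'
      have e : (fun z => u (p z)) = fun z => ((pullV p U : (FamG G ℕ Z)ˣ) : FamG G ℕ Z) z :=
        funext fun z => (hUe (p z)).symm
      have e' : (fun z => u' (p z)) = fun z => ((pullV p U' : (FamG G ℕ Z)ˣ) : FamG G ℕ Z) z :=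
        funext fun z => (hUe' (p z)).symm
      rw [e, e'] at hh
      have h3 := (homotG_iff (hmem hU) (hmem hU')).1 hh
      have h4 : pullV p (U⁻¹ * U') ∈ E1 (cpG G ℕ Z) := by
        rw [map_mul, map_inv]
        exact h3
      have h5 := h1 _ (mul_mem (inv_mem hU) hU') h4
      have e2 : u = fun y => (U : FamG G ℕ B) y := funext fun y => (hUe y).symm
      have e3 : u' = fun y => (U' : FamG G ℕ B) y := funext fun y => (hUe' y).symm
      rw [e2, e3]
      exact (homotG_iff hU hU').2 h5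
    · obtain ⟨V, hV, hVe⟩ := unit1G_iff.1 hv
      obtain ⟨U, hU, hUV⟩ := h2 V hV
      refine ⟨fun y => (U : FamG G ℕ B) y, unit1G_iff.2 ⟨U, hU, fun y => rfl⟩, ?_⟩
      have e : v = fun z => (V : FamG G ℕ Z) z := funext fun z => (hVe z).symm
      rw [e]
      exact (homotG_iff (hmem hU) hV).2 hUV

/-- Split exactness in this language: if `K₁(A(B₀)) = 0` then the retraction `r : B → B₁` induces a bijection. PROOF: `Split.exactSeq`, `ExactSeq.inj`, as `Split.bijective`. -/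
theorem Split.isoG {B₀ B₁ : Type} [TopologicalSpace B₀] [T2Space B₀] [MulAction G B₀]
    [ContinuousSMul G B₀] [TopologicalSpace B₁] [T2Space B₁] [MulAction G B₁]
    [ContinuousSMul G B₁] {ι : B₀ ↪ B} {i : B₁ → B} {r : B → B₁} (h : Split (G := G) ι i r)
    (h0 : GL1 (cpG G ℕ B₀) ≤ E1 (cpG G ℕ B₀)) : IsoG (G := G) r := by
  have hir : ∀ U : (FamG G ℕ B₁)ˣ, pullV i (pullV r U) = U := by
    intro U
    refine Units.ext (FamG.ext fun z => ?_)
    rw [pullV_apply, pullV_apply, h.ret]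
  constructor
  · intro U hU hE
    have h1 : pullV i (pullV r U) ∈ E1 (cpG G ℕ B₁) :=
      E1_map (fun a => norm_pullG_le i a) (pullG_mem h.pi h.ei) hE
    rwa [hir] at h1
  · intro V hV
    refine ⟨pullV i V, GL1_map (pullG_mem h.pi h.ei) hV, ?_⟩
    have hV' : pullV r (pullV i V) ∈ GL1 (cpG G ℕ B) :=
      GL1_map (pullG_mem h.pr h.er) (GL1_map (pullG_mem h.pi h.ei) hV)
    refine (Split.exactSeq (J := ℕ) h).inj h0 (mul_mem (inv_mem hV') hV) ?_
    have h1 : Units.map ((pullG i : FamG G ℕ B →+* FamG G ℕ B₁) : FamG G ℕ B →* FamG G ℕ B₁) ((pullV r (pullV i V))⁻¹ * V) = 1 := by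
      rw [map_mul, map_inv]
      change (pullV i (pullV r (pullV i V)))⁻¹ * pullV i V = 1
      rw [hir, inv_mul_cancel]
    rw [h1]
    exact one_mem _

end Pool.Agent.Lib.MP_aa9b81_an.Cb
end
end

section

/-!
# Continuous Bernoulli, part Sb2: stage 2
-/

open scoped ENNReal Topology
open Function Filter Topology Set

noncomputable section

set_option linter.unusedSectionVars false

namespace Pool.Agent.Lib.MP_aa9b81_an.Cb

open Cut Hs

section SigC

variable {I Zp : Type} [DecidableEq I] [TopologicalSpace Zp]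

theorem sig_zero_fun (θ : ℝ) {f : (I → Bool) → ℂ} (h : ∀ T, f T = 0) : sig θ f = 0 := by
  have h1 : f = fun _ => 0 := funext h
  have hf : Continuous f := by
    rw [h1]
    exact continuous_const
  refine norm_eq_zero.1 (le_antisymm ?_ (norm_nonneg _))
  exact norm_sig_le hf le_rfl (fun T => by rw [h T, norm_zero]) θ

theorem norm_sig_sub_fun_le {f f' : (I → Bool) → ℂ} (hf : Continuous f) (hf' : Continuous f')
    {ε : ℝ} (hε : 0 ≤ ε) (h : ∀ T, ‖f T - f' T‖ ≤ ε) (θ : ℝ) : ‖sig θ f - sig θ f'‖ ≤ ε := by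
  rw [← sig_sub hf hf']
  exact norm_sig_le (hf.sub hf') hε h θ

/-- A jointly continuous family of functions is norm continuous. PROOF: the space `I → Bool` is compact; `ContinuousMap.curry`. -/
theorem continuous_sig_fun {k : Zp → (I → Bool) → ℂ}
    (hk : Continuous fun p : Zp × (I → Bool) => k p.1 p.2) (θ : ℝ) :
    Continuous fun z => sig θ (k z) := by
  have hk1 : ∀ z, Continuous (k z) := fun z => hk.comp (Continuous.prodMk_right z)
  let F : C(Zp, C(I → Bool, ℂ)) := ContinuousMap.curry ⟨fun p : Zp × (I → Bool) => k p.1 p.2, hk⟩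
  rw [continuous_iff_continuousAt]
  intro z₀
  rw [ContinuousAt, tendsto_iff_norm_sub_tendsto_zero]
  have h1 : Tendsto (fun z => ‖F z - F z₀‖) (𝓝 z₀) (𝓝 0) :=
    tendsto_iff_norm_sub_tendsto_zero.1 (F.continuous.tendsto z₀)
  refine squeeze_zero (fun z => norm_nonneg _) (fun z => ?_) h1
  exact norm_sig_sub_fun_le (hk1 z) (hk1 z₀) (norm_nonneg _)
    (fun T => (F z - F z₀).norm_coe_le_norm T) θ

end SigC

section M2

variable {G O Y P : Type} [Group G] [TopologicalSpace G] [DecidableEq G] [LinearOrder O]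
  [TopologicalSpace Y] [MulAction G Y] [TopologicalSpace P]
  {V : Set G} {Δ : Df G Y V} {φ : Prs Δ × P → G → ℂ}

/-- The function rotated in stage 2. -/
def f2 (Δ : Df G Y V) (φ : Prs Δ × P → G → ℂ) (b : Y × P) (g : G) (T : G → Bool) : ℂ :=
  φ (Δ.pt b.1 {x | T x = false}, b.2) g

theorem continuous_f2 [IsTopologicalGroup G] [T2Space G] [LocallyCompactSpace G]
    (hV : V ∈ 𝓝 (1 : G)) (hφ : Cc _ G φ) (b : Y × P) (g : G) : Continuous (f2 Δ φ b g) := by
  have h1 := Δ.continuous_pt hV b.1 false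
  exact hφ.cont.comp (Continuous.prodMk (Continuous.prodMk h1 continuous_const) continuous_const)

theorem dep_f2 (b : Y × P) (g : G) : Dep (Δ.D b.1).s 0 (f2 Δ φ b g) := by
  intro T T' h
  have h1 : Δ.pt b.1 {x | T x = false} = Δ.pt b.1 {x | T' x = false} := by
    refine Δ.pt_congr ?_
    ext x
    constructor
    · rintro ⟨hx, hT⟩
      exact ⟨hx, by rw [mem_ofPred_eq] at hT ⊢; rw [← h x hx]; exact hT⟩
    · rintro ⟨hx, hT⟩
      exact ⟨hx, by rw [mem_ofPred_eq] at hT ⊢; rw [h x hx]; exact hT⟩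
  unfold f2
  rw [h1, sub_self, norm_zero]

theorem exists_dep_f2 [IsTopologicalGroup G] [T2Space G] [LocallyCompactSpace G] [T2Space Y]
    [T2Space P] (hV : IsOpen V) (h1 : (1 : G) ∈ V) (hφ : Cc _ G φ) {ε : ℝ} (hε : 0 < ε) :
    ∃ C : Set G, IsCompact C ∧ ∀ b g, Dep C ε (f2 Δ φ b g) := by
  obtain ⟨C, hC, h⟩ := hφ.exists_loc hV h1 hε
  refine ⟨C, hC, fun b g T T' hT => h b.1 _ _ b.2 g ?_⟩
  ext x
  constructor
  · rintro ⟨⟨hx, hTx⟩, hxC⟩
    exact ⟨⟨hx, by rw [mem_ofPred_eq] at hTx ⊢; rw [← hT x hxC]; exact hTx⟩, hxC⟩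
  · rintro ⟨⟨hx, hTx⟩, hxC⟩
    exact ⟨⟨hx, by rw [mem_ofPred_eq] at hTx ⊢; rw [hT x hxC]; exact hTx⟩, hxC⟩

theorem setOf_ind (F : Finset G) : {x : G | ind F x = false} = (F : Set G)ᶜ := by
  ext x
  rw [mem_ofPred_eq, Set.mem_compl_iff, Finset.mem_coe]
  unfold ind
  rw [decide_eq_false_iff_not]

theorem FAt_f2 [IsTopologicalGroup G] [T2Space G] [LocallyCompactSpace G] [T2Space Y]
    [T2Space P] (hV : IsOpen V) (h1 : (1 : G) ∈ V) (hφ : Cc _ G φ) (z₀ : (Y × P) × G) :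
    FAt (fun z : (Y × P) × G => (Δ.D z.1.1).s) (fun z => f2 Δ φ z.1 z.2) z₀ where
  loc := by
    intro ε hε
    obtain ⟨C, hC, h⟩ := exists_dep_f2 (Δ := Δ) hV h1 hφ hε
    exact ⟨C, hC, Eventually.of_forall fun z => h z.1 z.2⟩
  tend := by
    intro L hL σ hσ F
    unfold f2
    simp only [setOf_ind]
    have h2 := Δ.tendsto_pt_compl (hV.mem_nhds h1) (y := fun z : (Y × P) × G => z.1.1) (z₀ := z₀)
      (continuous_fst.comp continuous_fst).continuousAt hL hσ F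
    exact (hφ.cont.tendsto ((Δ.pt z₀.1.1 ((F.map (iL L) : Finset G) : Set G)ᶜ, z₀.1.2),
      z₀.2)).comp ((h2.prodMk_nhds ((continuous_snd.comp continuous_fst).tendsto z₀)).prodMk_nhds
        (continuous_snd.tendsto z₀))

variable [MulAction G P]

/-- STAGE 2, for any factor `P`. -/
theorem Sy_m2 [IsTopologicalGroup G] [T2Space G] [LocallyCompactSpace G] [T2Space Y]
    [ContinuousSMul G Y] [T2Space P] [ContinuousSMul G P] (χ : Part V) (hV : IsOpen V)
    (h1 : (1 : G) ∈ V) (e : G ↪ O) (W : Wc G) (θ : ℝ) (hφ : Cc _ G φ) :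
    Sy χ e (Δ.base P) (fun a => TT e 0 (W.tr a)) (fun b g => sig θ (f2 Δ φ b g)) := by
  have hV1 : V ∈ 𝓝 (1 : G) := hV.mem_nhds h1
  obtain ⟨M, hM, hMφ⟩ := hφ.exists_bound
  obtain ⟨C, hC, hCφ⟩ := hφ.exists_supp
  obtain ⟨K, hK, hKφ⟩ := hφ.exists_dec
  have hcf := continuous_f2 (Δ := Δ) hV1 hφ
  refine ⟨⟨M, fun b g => norm_sig_le (hcf b g) hM.le (fun T => hMφ _ _) θ⟩,
    ⟨C, hC, fun b g hg => sig_zero_fun θ fun T => hCφ _ g hg⟩,
    ⟨K, hK, fun b hb g => sig_zero_fun θ fun T => hKφ b.1 _ b.2 g hb⟩,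
    fun b g => sig_comm_Es (hcf b g) (dep_f2 b g),
    fun b g => sig_comm_Pp (hcf b g), ?_, ?_, ?_⟩
  · -- sc
    refine SC_of_LocAt χ hV1 e (Zp := (Y × P) × G) (D := fun z => (Δ.D z.1.1).s)
      (n := fun z => sig θ (f2 Δ φ z.1 z.2)) (C := M)
      ?_ (fun z => (Δ.D z.1.1).sep) (fun z => norm_sig_le (hcf _ _) hM.le (fun T => hMφ _ _) θ)
      fun z₀ => ?_
    · exact ClV.continuous_iff_fell.1 (Δ.cont.comp (continuous_fst.comp continuous_fst))
    · exact LocAt_sig hV1 e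
        (ClV.continuous_iff_fell.1 (Δ.cont.comp (continuous_fst.comp continuous_fst)))
        (fun z => (Δ.D z.1.1).sep) (fun z => hcf z.1 z.2) (fun z => dep_f2 z.1 z.2)
        (FAt_f2 hV h1 hφ z₀) (θ := fun _ => θ) continuousAt_const
  · -- abs
    intro b
    have h2 : ∀ p : G × G, Wg e p.1 * sig θ (f2 Δ φ (p.1⁻¹ • b) (p.1⁻¹ * p.2)) * Wg e p.1⁻¹ =
        sig θ fun T => φ (p.1⁻¹ • (Δ.pt b.1 {x | T x = false}, b.2)) (p.1⁻¹ * p.2) := by
      intro p
      rw [Wg_sig e p.1 (hcf _ _), mul_assoc, Wg_mul_inv, mul_one]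
      congr 1
      funext T
      unfold f2
      congr 2
      show Δ.pt (p.1⁻¹ • b.1) {x | T (p.1 * x) = false} = p.1⁻¹ • Δ.pt b.1 _
      rw [Δ.pt_smul]
      congr 2
      ext x
      rw [mem_ofPred_eq, mem_ofPred_eq, mem_ofPred_eq, mul_inv_cancel_left]
    simp only [h2]
    have := Prs.continuousSMul Δ hV1
    have h3 : Continuous fun q : (G × G) × (G → Bool) =>
        ((q.1.1⁻¹ • ((Δ.pt b.1 {x | q.2 x = false}, b.2) : Prs Δ × P)), q.1.1⁻¹ * q.1.2) := by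
      have h4 : Continuous fun q : (G × G) × (G → Bool) => Δ.pt b.1 {x | q.2 x = false} :=
        (Δ.continuous_pt hV1 b.1 false).comp continuous_snd
      have h5 : Continuous fun q : (G × G) × (G → Bool) => q.1.1 :=
        continuous_fst.comp continuous_fst
      have h6 : Continuous fun q : (G × G) × (G → Bool) => q.1.2 :=
        continuous_snd.comp continuous_fst
      exact (h5.inv.smul (h4.prodMk continuous_const)).prodMk (h5.inv.mul h6)
    refine SC.of_norm (C := M) (continuous_sig_fun (hφ.cont.comp h3) θ) fun p => ?_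
    exact norm_sig_le ((hφ.cont.comp h3).comp (Continuous.prodMk_right p)) hM.le
      (fun T => hMφ _ _) θ
  · -- comm
    refine comm_of (Δ := Δ.base P) W e le_rfl zero_le_one (C := C)
      (fun b g hg => sig_zero_fun θ fun T => hCφ _ g hg) fun η hη => ?_
    obtain ⟨C₁, hC₁, hC₁f⟩ := exists_dep_f2 (Δ := Δ) hV h1 hφ (show 0 < η / 4 by linarith)
    obtain ⟨R₀, hR₀, h2⟩ := W.small_sig e hV1 hC hC₁ (show 0 < η / (2 * M) by positivity)
    refine ⟨R₀, hR₀, fun b g hg => ?_⟩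
    have hMn : ∀ x : ℂ, ‖(M : ℂ)⁻¹ * x‖ = M⁻¹ * ‖x‖ := by
      intro x
      rw [norm_mul, norm_inv, Complex.norm_real, Real.norm_eq_abs, abs_of_pos hM]
    have h3 := h2 R₀ le_rfl g hg (Δ.D b.1).s (Δ.D b.1).sep
      (fun T => (M : ℂ)⁻¹ * f2 Δ φ b g T) (continuous_const.mul (hcf b g)) (fun T => ?_)
      (fun T T' hT => ?_) (η / (4 * M)) (fun T T' hT => ?_) θ
    · rw [sig_smul (hcf b g), mul_smul_comm, smul_mul_assoc, ← smul_sub, smul_mul_assoc,
        norm_smul, norm_inv, Complex.norm_real, Real.norm_eq_abs, abs_of_pos hM,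
        inv_mul_le_iff₀ hM] at h3
      refine h3.trans (le_of_eq ?_)
      field_simp
      ring
    · rw [hMn, inv_mul_le_iff₀ hM, mul_one]
      exact hMφ _ _
    · rw [← mul_sub, hMn]
      have h4 := dep_f2 (φ := φ) b g T T' hT
      have h5 : ‖f2 Δ φ b g T - f2 Δ φ b g T'‖ = 0 := le_antisymm h4 (norm_nonneg _)
      rw [h5, mul_zero]
    · rw [← mul_sub, hMn, inv_mul_le_iff₀ hM]
      refine (hC₁f b g T T' hT).trans (le_of_eq ?_)
      field_simp

end M2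

end Pool.Agent.Lib.MP_aa9b81_an.Cb
end
end

section

/-!
# Continuous Bernoulli, part Sb: the symbols of the three stages
-/

open scoped ENNReal Topology
open Function Filter Topology Set

noncomputable section

set_option linter.unusedSectionVars false

namespace Pool.Agent.Lib.MP_aa9b81_an.Cb

open Cut Hs

section Sym

variable {G O Y E Z : Type} [Group G] [TopologicalSpace G] [DecidableEq G] [LinearOrder O]
  [TopologicalSpace Y] [MulAction G Y] [AddCommGroup E] [Module ℝ E]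
  [TopologicalSpace E] [T2Space E] [ContinuousAdd E] [ContinuousSMul ℝ E] [DistribMulAction G E]
  [SMulCommClass G ℝ E] [ContinuousConstSMul G E] [TopologicalSpace Z] [MulAction G Z]
  {V : Set G} {Δ : Df G Y V} {Q : ConvexSpace G E}

variable [IsTopologicalGroup G] [T2Space G] [LocallyCompactSpace G] [T2Space Y]
  [LocallyCompactSpace Y] [ContinuousSMul G Y] [T2Space Z] [LocallyCompactSpace Z]
  [ContinuousSMul G Z]

/-- STAGE 1. PROOF. `norm`: `φ` is bounded. `supp`: the projection of the support to `G`. `dec`: `Df.exists_compact` (for `φ` and the projections; `P = (Cone Q × Z) × G`, then the image of `K` in `Y × Cone Q × Z`). `es`, `pp`: multiplication operators.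
`sc`: `SC_of_LocAt` for `Zp = B × G`, the family `z ↦ Δ.D z.1.1`, and `LocAt_dia`: `Df.tendsto_pt_compl` and the continuity of `φ`. `abs`: `Wg_dia`: the operator is `dia fun β => φ (a⁻¹ • (Δ.pt b.1 (β.F)ᶜ), a⁻¹ • b.2) (a⁻¹ a')`
(`Df.pt_smul`), continuous in `(a, a')` for every `β` (`Prs.continuousSMul`, `cone_continuousSMul`), `SC.of_bv`. `comm`: `Wc.small_F`: `n` is a function of `F`; with `C` the compact support in `G`, and `M` a bound of `φ` (divide by `M`):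
`(T 1 n T g - n) (1 - ω) Es = (T 1 n - n T g) T g (1 - ω) Es + n (T g T g - 1) (1 - ω) Es`, `T g` commutes with `(1 - ω) Es` (`TT_comm_Om`, `Es_comm_TT`), and `(T g T g - 1) (1 - ω) = -PV (1 - ω) = 0` as `om ∅ = 1`. `ω = om R W.w`, `Ow ω g = Om R (W.tr g)` (`Wc.nF_tr`). -/
theorem Sy_n1 (χ : Part V) (hV : IsOpen V) (h1 : (1 : G) ∈ V)
    (hQ : Continuous fun p : G × Q.Pt => p.1 • p.2) (e : G ↪ O) (W : Wc G) {s : ℝ} (hs : 0 ≤ s)
    (hs1 : s ≤ 1) {φ : Prs Δ × Cone Q × Z → G → ℂ} (hφ : Cc _ G φ) :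
    Sy χ e (Δ.base (Cone Q × Z)) (fun a => TT e s (W.tr a)) (n1 Δ Q φ) := by
  have hcone : ContinuousSMul G (Cone Q) := cone_continuousSMul Q hQ
  exact Sy_m1 χ hV h1 e W hs hs1 hφ

/-- STAGE 2. PROOF. Put `f b g T = φ (Δ.pt b.1 {x | T x = false}, b.2) g`: continuous in `T` (`Df.continuous_pt`), `Dep (D b) 0` (`Df.pt_congr`), bounded by `M`, and for `ε > 0` there is a compact `C₁` with `Dep C₁ ε (f b g)` for all `b, g` (`Df.exists_local` with `P = (Cone Q × Z) × G`).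
`norm`: `norm_sig_le`. `supp`, `dec`: `f = 0`, and `sig θ 0 = 0`. `es`, `pp`: `sig_comm_Es`, `sig_comm_Pp`. `sc`: `SC_of_LocAt` for `Zp = B × G` and the following proof of `LocAt` at `z₀ = (b₀, g₀)`: let `ε > 0`, `L₁ ⊆ D b₀`; let `C₁` be compact with `Dep C₁ (ε/8) (f b g)` for all `b`, `g`, `C₂` a compact neighbourhood of `C₁`,
`L₀ = L₁ ∪ (D b₀ ∩ C₂)` (finite: `Sep.finite_inter`). For `z` near `z₀` and a local section `s` on `L₀`: every point of `D z ∩ C₁` is a point of the section (the set `C₁` without small neighbourhoods of the points of `L₀` is compact and disjoint from `D z₀`, so from `D z`; uniqueness near the points: `exists_nhds_unique`), so `f z` depends up to `ε/8`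
only on `(Finset.univ.map (s z))` (`Dep.inter`), and `norm_sig_Tr_sub_le` with `L = univ`: `‖sig θ (f z) ∘ Tr (s z) - Tr (s z) ∘ sigL univ θ (fun T => f z (push (s z) T))‖ ≤ ε/4`; take `N₀ = sigL univ θ (fun T => f z₀ (push (iL L₀) T))`. It remains that `f z (push (s z) T) → f z₀ (push (iL L₀) T)` for the finitely many
`T : L₀ → Bool` (`norm_sigL_sub_le`): this is `Df.tendsto_pt_compl` for the set `F = {i | T i = true}` and the continuity of `φ`. `abs`: by `Wg_sig` the operator is `sig θ` of the function `T ↦ φ (a⁻¹ • Δ.pt b.1 {x | T x = false}, a⁻¹ • b.2) (a⁻¹ a')`; by `SC.of_limit_loc` it is enough to approximate it near `(a₀, a₀')` by `sigL L θ (f ∘ rs L)` for a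
finite `L`: with `C₁` as above and `a` in a compact neighbourhood `A` of `a₀`, the function depends up to `ε` only on `D b ∩ A C₁`, a finite set `L` (`norm_sig_sub_le`); for fixed `L` the operators `sigL` are strongly continuous in `(a, a')` (a product of two constant operators and a
multiplication operator, whose values are continuous). `comm`: `Wc.small_sig` as in stage 1, `s = 0`. -/
theorem Sy_n2 (χ : Part V) (hV : IsOpen V) (h1 : (1 : G) ∈ V)
    (hQ : Continuous fun p : G × Q.Pt => p.1 • p.2) (e : G ↪ O) (W : Wc G) (θ : ℝ)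
    {φ : Prs Δ × Cone Q × Z → G → ℂ} (hφ : Cc _ G φ) :
    Sy χ e (Δ.base (Cone Q × Z)) (fun a => TT e 0 (W.tr a)) (n2 Δ Q θ φ) := by
  have hcone : ContinuousSMul G (Cone Q) := cone_continuousSMul Q hQ
  exact Sy_m2 χ hV h1 e W θ hφ

/-! ### The ends -/

/-- PROOF: `sig_zero`: `{x | ind F x = false} = Fᶜ`. -/
theorem n2_zero (hV : IsOpen V) (h1 : (1 : G) ∈ V) {φ : Prs Δ × Cone Q × Z → G → ℂ}
    (hφ : Cc _ G φ) : n2 Δ Q 0 φ = n1 Δ Q φ := by
  funext b g
  unfold n2 n1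
  refine (sig_zero (continuous_f2 (Δ := Δ) (hV.mem_nhds h1) hφ b g)).trans ?_
  unfold dF f2
  simp only [setOf_ind]

/-- PROOF: `sig_pi_div_two`: `{x | indc b x = false} = b.F ∖ b.S`; `cph_zero`. -/
theorem n2_pi_div_two (hV : IsOpen V) (h1 : (1 : G) ∈ V) (q₀ : Q.Pt)
    {φ : Prs Δ × Cone Q × Z → G → ℂ} (hφ : Cc _ G φ) :
    n2 Δ Q (Real.pi / 2) φ = n3 Δ Q q₀ 0 φ := by
  funext b g
  unfold n2 n3
  refine (sig_pi_div_two (continuous_f2 (Δ := Δ) (hV.mem_nhds h1) hφ b g)).trans ?_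
  congr 1
  funext β
  unfold f2 v3
  have h2 : {x : G | indc β x = false} = {x | x ∈ β.F ∧ x ∉ β.S} := by
    ext x
    rw [mem_ofPred_eq, mem_ofPred_eq]
    unfold indc
    rw [decide_eq_false_iff_not, not_not, Finset.mem_sdiff]
  rw [h2]
  by_cases hF : β.F = ∅
  · rw [if_pos hF]
    congr 2
    refine Δ.pt_congr ?_
    congr 1
    ext x
    rw [mem_ofPred_eq, hF]
    simp
  · rw [if_neg hF, cph_zero]

/-- PROOF: `cph_one`. -/
theorem n3_one (q₀ : Q.Pt) (φ : Prs Δ × Cone Q × Z → G → ℂ) (b : Y × Cone Q × Z) (g : G) :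
    n3 Δ Q q₀ 1 φ b g = φ (Δ.non b.1, b.2) g • (PV : BL (Bs G)) := by
  refine ContinuousLinearMap.ext fun ξ => ?_
  ext β
  have h1 : ((φ (Δ.non b.1, b.2) g • (PV : BL (Bs G))) ξ : Bs G → ℂ) β =
      φ (Δ.non b.1, b.2) g * (PV ξ : Bs G → ℂ) β := rfl
  have h2 : ∀ β : Bs G, v3 Δ Q q₀ 1 φ b g β =
      if β.F = ∅ then φ (Δ.non b.1, b.2) g else 0 := by
    intro β
    unfold v3
    split_ifs
    · rw [Δ.pt_empty]
    · exact cph_one Q _ _ _
  rw [h1, PV_apply, n3, dia_apply (norm_nonneg (φ (Δ.non b.1, b.2) g)) (fun β => ?_), h2]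
  · split_ifs
    · rfl
    · rw [zero_mul, mul_zero]
  · rw [h2]
    split_ifs
    · exact le_rfl
    · rw [norm_zero]
      exact norm_nonneg _

/-! ### Time continuity -/

/-- PROOF: `norm_sig_sub_angle` with `ε/4`, on `Dep`: the function depends up to `ε/4` on `D b ∩ C₁`, of bounded cardinality (`exists_card_le`); the function is bounded. -/
theorem n2_time (hV : IsOpen V) (h1 : (1 : G) ∈ V) {φ : Prs Δ × Cone Q × Z → G → ℂ}
    (hφ : Cc _ G φ) (θ₀ : ℝ) {ε : ℝ} (hε : 0 < ε) : ∃ δ : ℝ, 0 < δ ∧ ∀ θ, |θ - θ₀| < δ →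
      ∀ b g, ‖n2 Δ Q θ φ b g - n2 Δ Q θ₀ φ b g‖ ≤ ε := by
  have hV1 : V ∈ 𝓝 (1 : G) := hV.mem_nhds h1
  obtain ⟨M, hM, hMφ⟩ := hφ.exists_bound
  obtain ⟨C, hC, hCf⟩ := exists_dep_f2 (Δ := Δ) hV h1 hφ (show 0 < ε / 4 by linarith)
  obtain ⟨N, hN⟩ := exists_card_le hV1 hC
  refine ⟨ε / (2 * (4 * N * M + 1)), by positivity, fun θ hθ b g => ?_⟩
  have hfin := Sep.finite_inter hV1 (Δ.D b.1).sep hC
  have h2 : Dep ((hfin.toFinset : Finset G) : Set G) (ε / 4) (f2 Δ φ b g) :=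
    ((dep_f2 (φ := φ) b g).inter (hCf b g)).mono
      (fun x hx => Finset.mem_coe.2 (hfin.mem_toFinset.2 ⟨hx.2, hx.1⟩)) le_rfl
  have h3 := norm_sig_sub_angle (continuous_f2 (Δ := Δ) hV1 hφ b g) hM.le (fun T => hMφ _ _)
    h2 θ θ₀
  have h4 : (hfin.toFinset.card : ℝ) ≤ N := by
    exact_mod_cast hN hfin.toFinset ((Δ.D b.1).sep.mono fun x hx =>
      (hfin.mem_toFinset.1 (Finset.mem_coe.1 hx)).1) fun x hx => (hfin.mem_toFinset.1 hx).2
  have h5 : 4 * (hfin.toFinset.card : ℝ) * |θ - θ₀| * M ≤ ε / 2 := by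
    have h6 : |θ - θ₀| * (2 * (4 * N * M + 1)) < ε := (lt_div_iff₀ (by positivity)).1 hθ
    have h7 : 0 ≤ |θ - θ₀| := abs_nonneg _
    have h8 : 4 * (hfin.toFinset.card : ℝ) * |θ - θ₀| * M ≤ 4 * N * |θ - θ₀| * M := by
      gcongr
    nlinarith
  refine h3.trans ?_
  linarith

/-- PROOF: `exists_time_cont` for the function `(r, w, (z, g)) ↦ φ (r, w, z) g`. -/
theorem n3_time (hV : IsOpen V) (h1 : (1 : G) ∈ V) (q₀ : Q.Pt)
    {φ : Prs Δ × Cone Q × Z → G → ℂ} (hφ : Cc _ G φ) {t₀ : ℝ} (ht₀ : t₀ ∈ Icc (0 : ℝ) 1) {ε : ℝ}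
    (hε : 0 < ε) : ∃ δ : ℝ, 0 < δ ∧ ∀ t ∈ Icc (0 : ℝ) 1, |t - t₀| < δ →
      ∀ b g, ‖n3 Δ Q q₀ t φ b g - n3 Δ Q q₀ t₀ φ b g‖ ≤ ε := by
  obtain ⟨M, hM, hMφ⟩ := hφ.exists_bound
  obtain ⟨δ, hδ, h2⟩ := exists_time_cont Q (continuous_ps3 hφ) (hasCompactSupport_ps3 hφ) ht₀ hε
  refine ⟨δ, hδ, fun t ht htδ b g => ?_⟩
  have hMv : ∀ t β, ‖v3 Δ Q q₀ t φ b g β‖ ≤ M := fun t β => norm_v3_le hMφ q₀ t b g β
  have h3 : ∀ β, ‖v3 Δ Q q₀ t φ b g β - v3 Δ Q q₀ t₀ φ b g β‖ ≤ ε := by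
    intro β
    unfold v3
    split_ifs
    · rw [sub_self, norm_zero]
      exact hε.le
    · rw [cph_ps3, cph_ps3]
      exact h2 t ht htδ _ _
  have h4 : n3 Δ Q q₀ t φ b g - n3 Δ Q q₀ t₀ φ b g =
      dia fun β => v3 Δ Q q₀ t φ b g β - v3 Δ Q q₀ t₀ φ b g β := by
    refine ContinuousLinearMap.ext fun ξ => ?_
    ext β
    have h5 : ((n3 Δ Q q₀ t φ b g - n3 Δ Q q₀ t₀ φ b g) ξ : Bs G → ℂ) β =
        (n3 Δ Q q₀ t φ b g ξ : Bs G → ℂ) β - (n3 Δ Q q₀ t₀ φ b g ξ : Bs G → ℂ) β := rfl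
    rw [h5, dia_apply hε.le h3, n3, n3, dia_apply hM.le (hMv t), dia_apply hM.le (hMv t₀)]
    ring
  rw [h4]
  exact norm_dia_le hε.le h3

end Sym

end Pool.Agent.Lib.MP_aa9b81_an.Cb
end
end
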