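import Pool.Agent.Lib.MP_aa9b81_an.Tv.D2d

section

/-!
# Transversals, part D3: kernels of compact support
-/

open scoped ENNReal Topology CompactlySupported Pointwise
open Function Filter MeasureTheory

noncomputable section

set_option linter.unusedSectionVars false

namespace Pool.Agent.Lib.MP_aa9b81_an.Tv

open Cut Hs Cb

variable {G J B : Type} [Group G] [TopologicalSpace G] [IsTopologicalGroup G]
  [LocallyCompactSpace G] [SecondCountableTopology G] [T2Space G] [MeasurableSpace G] [BorelSpace G]
  [TopologicalSpace B] [T2Space B] [MulAction G B] [ContinuousSMul G B] [Nonempty J]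

/-- A norm continuous kernel of compact support. -/
structure IsCk (κ : B → G → BL J) : Prop where
  cont : Continuous fun p : B × G => κ p.1 p.2
  cpt : HasCompactSupport fun p : B × G => κ p.1 p.2

/-- PROOF: `C` = the image of the support in `G`, the bound: `HasCompactSupport.exists_bound_of_continuous`; as `exists_bound` in Cb/Lg. -/
theorem IsCk.fok {κ : B → G → BL J} (h : IsCk κ) : ∃ (C : Set G) (M : ℝ), FOK C M κ := by
  obtain ⟨M, hM⟩ := h.cpt.exists_bound_of_continuous h.cont
  refine ⟨Prod.snd '' tsupport fun p : B × G => κ p.1 p.2, max M 0,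
    h.cpt.isCompact.image continuous_snd, le_max_right _ _, fun v => ?_, fun b g => ?_,
    fun b g hg => ?_⟩
  · exact h.cont.clm_apply continuous_const
  · exact (hM (b, g)).trans (le_max_left _ _)
  · by_contra hne
    exact hg ⟨(b, g), subset_tsupport (fun p : B × G => κ p.1 p.2) hne, rfl⟩

theorem IsCk.add {κ κ' : B → G → BL J} (h : IsCk κ) (h' : IsCk κ') :
    IsCk fun b g => κ b g + κ' b g :=
  ⟨h.cont.add h'.cont, h.cpt.add h'.cpt⟩

theorem IsCk_gen (φ : C_c(B × G, ℂ)) (i j : J) : IsCk fun (b : B) (g : G) => φ (b, g) • (Eu i j : BL J) := by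
  refine ⟨φ.continuous.smul continuous_const, ?_⟩
  exact φ.hasCompactSupport.smul_right (f' := fun _ : B × G => (Eu i j : BL J))

/-- The kernel times a function of `b`. -/
theorem IsCk.emul {κ : B → G → BL J} (h : IsCk κ) {e : B → ℝ} (he : Continuous e) :
    IsCk fun b g => ((e b : ℝ) : ℂ) • κ b g := by
  have h1 : Continuous fun p : B × G => ((e p.1 : ℝ) : ℂ) :=
    Complex.continuous_ofReal.comp (he.comp continuous_fst)
  refine ⟨h1.smul h.cont, h.cpt.mono fun p hp hne => hp ?_⟩
  have h2 : κ p.1 p.2 = 0 := hne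
  show ((e p.1 : ℝ) : ℂ) • κ p.1 p.2 = 0
  rw [h2, smul_zero]

/-- The window of `opF κ b`. -/
def wn (s : G → ℝ) (κ : B → G → BL J) (b : B) : ℝ :=
  ‖(Ms s : HG G J →L[ℂ] HG G J).comp ((opF κ b).comp (Ms s))‖

end Pool.Agent.Lib.MP_aa9b81_an.Tv
end
end

section

/-!
# Transversals, part D3b: density of the kernels of compact support
-/

open scoped ENNReal Topology CompactlySupported Pointwise
open Function Filter MeasureTheory

noncomputable section

set_option linter.unusedSectionVars false

namespace Pool.Agent.Lib.MP_aa9b81_an.Tv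

open Cut Hs Cb

variable {G J B : Type} [Group G] [TopologicalSpace G] [IsTopologicalGroup G]
  [LocallyCompactSpace G] [SecondCountableTopology G] [T2Space G] [MeasurableSpace G] [BorelSpace G]
  [TopologicalSpace B] [T2Space B] [MulAction G B] [ContinuousSMul G B] [Nonempty J]

/-- The kernels of compact support are dense. PROOF: `cpG_induction` for `p x := ∀ ε > 0, ∃ κ, IsCk κ ∧ ‖x - fam (opF κ)‖ < ε`: closed (`isClosed_iff_clusterPt`-like: the set is the closure of the set
of the `fam (opF κ)`), `0`: the kernel `0`; sums: `IsCk.add`, `opF_add`, `fam_apply`; `gen`: `IsCk_gen`, by definition of `gen`. -/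
theorem exists_ck_near {x : FamG G J B} (hx : x ∈ cpG G J B) {ε : ℝ} (hε : 0 < ε) :
    ∃ κ : B → G → BL J, IsCk κ ∧ ‖x - fam (opF κ)‖ < ε := by
  have hmem : x ∈ closure {y : FamG G J B | ∃ κ : B → G → BL J, IsCk κ ∧ y = fam (opF κ)} := by
    refine cpG_induction (p := fun x => x ∈ closure {y : FamG G J B |
      ∃ κ : B → G → BL J, IsCk κ ∧ y = fam (opF κ)}) isClosed_closure ?_ ?_ ?_ x hx
    · refine subset_closure ⟨fun _ _ => 0, ⟨continuous_const, HasCompactSupport.zero⟩, ?_⟩
      refine FamG.ext fun b => ?_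
      have hF : FOK (∅ : Set G) 0 fun (_ : B) (_ : G) => (0 : BL J) :=
        ⟨isCompact_empty, le_rfl, fun _ => continuous_const, fun _ _ => by simp,
          fun _ _ _ => rfl⟩
      rw [fam_apply (norm_opF_le hF)]
      exact opk_zero.symm
    · intro x y hx hy
      refine map_mem_closure₂ continuous_add hx hy ?_
      rintro _ ⟨κ, hκ, rfl⟩ _ ⟨κ', hκ', rfl⟩
      refine ⟨fun b g => κ b g + κ' b g, hκ.add hκ', ?_⟩
      obtain ⟨C, M, h⟩ := hκ.fok
      obtain ⟨C', M', h'⟩ := hκ'.fok
      refine FamG.ext fun b => ?_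
      rw [FamG.add_apply, fam_apply (norm_opF_le h), fam_apply (norm_opF_le h'),
        fam_apply (norm_opF_le (h.add h')), opF_add h h']
    · intro φ i j
      exact subset_closure ⟨_, IsCk_gen φ i j, rfl⟩
  rw [Metric.mem_closure_iff] at hmem
  obtain ⟨_, ⟨κ, hκ, rfl⟩, h⟩ := hmem ε hε
  exact ⟨κ, hκ, by rwa [dist_eq_norm] at h⟩

end Pool.Agent.Lib.MP_aa9b81_an.Tv
end
end
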