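import Mathlib
import Pool.Agent.Lib.MP_aa9b81_an.Zar7
import Pool.Agent.Lib.MP_aa9b81_an.Fam2

section

/-!
Near a generic point of the image of the group under a polynomial map, the common zeros of the
relations are images of small perturbations.
-/

set_option autoImplicit false
set_option linter.unusedSectionVars false

open Matrix Filter Topology MvPolynomial Module

namespace Pool.Agent.Lib.MP_aa9b81_an.Z

variable {I : Type} [Fintype I] [DecidableEq I] {ι : Type} [Fintype ι] [DecidableEq ι]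

lemma ev_eq_eval (g : Mt I) (P : Rx I) :
    ev g P = MvPolynomial.eval (fun p : I × I => g p.1 p.2) P := rfl

section

open scoped Matrix.Norms.Operator

set_option backward.isDefEq.respectTransparency false in
lemma hasStrictFDerivAt_path {κ : Type} [Fintype κ] (g : Mt I) (A : κ → Mt I) :
    ∃ D : (κ → ℝ) →L[ℝ] (I × I → ℝ),
      HasStrictFDerivAt (fun t : κ → ℝ => fun p : I × I =>
        (g * NormedSpace.exp (∑ k, t k • A k) : Mt I) p.1 p.2) D 0 ∧
      ∀ (t : κ → ℝ) (p : I × I), D t p = ∑ k, t k * (g * A k) p.1 p.2 := by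
  let lin : (κ → ℝ) →L[ℝ] Mt I := LinearMap.toContinuousLinearMap (Fintype.linearCombination ℝ A)
  let out : Mt I →L[ℝ] (I × I → ℝ) := LinearMap.toContinuousLinearMap
    { toFun := fun M p => (g * M) p.1 p.2
      map_add' := fun M M' => by
        ext p
        rw [mul_add, Matrix.add_apply, Pi.add_apply]
      map_smul' := fun c M => by
        ext p
        rw [mul_smul_comm, Matrix.smul_apply, RingHom.id_apply, Pi.smul_apply] }
  have hlin : ∀ t, lin t = ∑ k, t k • A k := fun t => rfl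
  have h0 : HasStrictFDerivAt (fun M : Mt I => NormedSpace.exp M)
      (1 : Mt I →L[ℝ] Mt I) (lin 0) := by
    rw [map_zero]
    exact hasStrictFDerivAt_exp_zero
  have h1 : HasStrictFDerivAt (fun t : κ → ℝ => NormedSpace.exp (lin t))
      ((1 : Mt I →L[ℝ] Mt I).comp lin) 0 :=
    HasStrictFDerivAt.comp (g := fun M : Mt I => NormedSpace.exp M) (f := fun t => lin t) 0 h0
      lin.hasStrictFDerivAt
  have h2 : HasStrictFDerivAt (fun t : κ → ℝ => out (NormedSpace.exp (lin t)))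
      (out.comp ((1 : Mt I →L[ℝ] Mt I).comp lin)) 0 :=
    HasStrictFDerivAt.comp (g := fun M : Mt I => out M)
      (f := fun t => NormedSpace.exp (lin t)) 0 out.hasStrictFDerivAt h1
  refine ⟨out.comp ((1 : Mt I →L[ℝ] Mt I).comp lin), h2, ?_⟩
  intro t p
  change (g * lin t) p.1 p.2 = _
  rw [hlin, Finset.mul_sum, Matrix.sum_apply]
  refine Finset.sum_congr rfl fun k _ => ?_
  rw [mul_smul_comm, Matrix.smul_apply, smul_eq_mul]

end

lemma hasStrictFDerivAt_phi {κ : Type} [Fintype κ] (g : Mt I) (A : κ → Mt I) (φ : ι → Rx I) :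
    ∃ D : (κ → ℝ) →L[ℝ] (ι → ℝ),
      HasStrictFDerivAt (fun t : κ → ℝ => fun i =>
        ev (g * NormedSpace.exp (∑ k, t k • A k)) (φ i)) D 0 ∧
      ∀ (t : κ → ℝ) (i : ι), D t i = ∑ k, t k * ev g (dA (A k) (φ i)) := by
  obtain ⟨D, hD, hD2⟩ := hasStrictFDerivAt_path g A
  have hz : (fun p : I × I => (g * NormedSpace.exp (∑ k, (0 : κ → ℝ) k • A k) : Mt I) p.1 p.2) =
      fun p : I × I => g p.1 p.2 := by
    funext p
    simp only [Pi.zero_apply, zero_smul, Finset.sum_const_zero, NormedSpace.exp_zero, mul_one]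
  let E : ι → ((I × I → ℝ) →L[ℝ] ℝ) := fun i =>
    ∑ p, MvPolynomial.eval (fun p : I × I => g p.1 p.2) (pderiv p (φ i)) •
      (ContinuousLinearMap.proj p : (I × I → ℝ) →L[ℝ] ℝ)
  refine ⟨ContinuousLinearMap.pi fun i => (E i).comp D, ?_, ?_⟩
  · rw [hasStrictFDerivAt_pi']
    intro i
    have h1 := hasStrictFDerivAt_eval (φ i)
      (fun p : I × I => (g * NormedSpace.exp (∑ k, (0 : κ → ℝ) k • A k) : Mt I) p.1 p.2)
    have h2 := HasStrictFDerivAt.comp (g := fun z => MvPolynomial.eval z (φ i))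
      (f := fun t : κ → ℝ => fun p : I × I =>
        (g * NormedSpace.exp (∑ k, t k • A k) : Mt I) p.1 p.2) 0 h1 hD
    rw [hz] at h2
    exact h2
  · intro t i
    change E i (D t) = _
    simp only [E]
    rw [_root_.sum_apply]
    have h3 : ∀ p : I × I, (MvPolynomial.eval (fun p : I × I => g p.1 p.2) (pderiv p (φ i)) •
        (ContinuousLinearMap.proj p : (I × I → ℝ) →L[ℝ] ℝ)) (D t) =
        ∑ k, t k * (ev g (pderiv p (φ i)) * (g * A k) p.1 p.2) := by
      intro p
      rw [_root_.smul_apply, ContinuousLinearMap.proj_apply, hD2, smul_eq_mul,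
        Finset.mul_sum]
      refine Finset.sum_congr rfl fun k _ => ?_
      rw [← ev_eq_eval]
      ring
    rw [Finset.sum_congr rfl fun p _ => h3 p, Finset.sum_comm]
    refine Finset.sum_congr rfl fun k _ => ?_
    rw [← Finset.mul_sum, ev_dA]

/-- Specialization of the second group of variables. -/
noncomputable def spz (v : ι → ℝ) : MvPolynomial (ι ⊕ ι) ℝ →ₐ[ℝ] MvPolynomial ι ℝ :=
  aeval (Sum.elim (fun i => X i) (fun j => C (v j)))

lemma spz_inl (v : ι → ℝ) (i : ι) : spz v (X (Sum.inl i)) = X i := by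
  rw [spz, aeval_X]
  rfl

lemma spz_inr (v : ι → ℝ) (i : ι) : spz v (X (Sum.inr i)) = C (v i) := by
  rw [spz, aeval_X]
  rfl

lemma eval_spz (v z : ι → ℝ) (f : MvPolynomial (ι ⊕ ι) ℝ) :
    MvPolynomial.eval z (spz v f) = MvPolynomial.eval (Sum.elim z v) f := by
  have h : ((aeval z : MvPolynomial ι ℝ →ₐ[ℝ] ℝ)).comp (spz v) = aeval (Sum.elim z v) := by
    refine MvPolynomial.algHom_ext fun i => ?_
    rw [AlgHom.comp_apply, aeval_X]
    rcases i with i | j
    · rw [spz_inl, aeval_X, Sum.elim_inl]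
    · rw [spz_inr, MvPolynomial.aeval_C, Sum.elim_inr]
      rfl
  exact DFunLike.congr_fun h f

lemma pderiv_spz (v : ι → ℝ) (i : ι) (f : MvPolynomial (ι ⊕ ι) ℝ) :
    pderiv i (spz v f) = spz v (pderiv (Sum.inl i) f) := by
  induction f using MvPolynomial.induction_on with
  | C a =>
    have h1 : spz v (C a) = C a := by
      rw [spz, MvPolynomial.aeval_C, MvPolynomial.algebraMap_eq]
    rw [h1, MvPolynomial.pderiv_C, MvPolynomial.pderiv_C, map_zero]
  | add p q hp hq => rw [map_add, map_add, hp, hq, map_add, map_add]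
  | mul_X p n hp =>
    rw [map_mul (spz v) p (X n), Derivation.leibniz, Derivation.leibniz, map_add, smul_eq_mul,
      smul_eq_mul, smul_eq_mul, smul_eq_mul, map_mul (spz v), map_mul (spz v), hp]
    congr 2
    rcases n with q | j
    · rw [spz_inl]
      by_cases hq : q = i
      · rw [hq, pderiv_X_self, pderiv_X_self, map_one]
      · rw [pderiv_X_of_ne hq, pderiv_X_of_ne (fun h => hq (Sum.inl.inj h)), map_zero]
    · rw [spz_inr, MvPolynomial.pderiv_C, pderiv_X_of_ne (by simp), map_zero]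

/-- Evaluation of a monomial. -/
noncomputable def mon (t : ι →₀ ℕ) (z : ι → ℝ) : ℝ := ∏ i, z i ^ t i

/-- A relation is a combination of finitely many monomials, with coefficients depending on the
second group of variables. -/
lemma exists_coeff (f : MvPolynomial (ι ⊕ ι) ℝ) (T : Finset (ι →₀ ℕ))
    (hT : (sumAlgEquiv ℝ ι ι f).support ⊆ T) (v : ι → ℝ) :
    ∃ c : T → ℝ, ∀ z : ι → ℝ, MvPolynomial.eval z (spz v f) = ∑ t : T, c t * mon t.1 z := by
  let F : MvPolynomial ι (MvPolynomial ι ℝ) := sumAlgEquiv ℝ ι ι f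
  refine ⟨fun t => MvPolynomial.eval v (F.coeff t.1), fun z => ?_⟩
  have h1 : MvPolynomial.eval z (spz v f) =
      MvPolynomial.eval z (MvPolynomial.map (MvPolynomial.eval v) F) := by
    have h : ((MvPolynomial.eval z).comp (spz v : MvPolynomial (ι ⊕ ι) ℝ →+* MvPolynomial ι ℝ)) =
        ((MvPolynomial.eval z).comp (MvPolynomial.map (MvPolynomial.eval v))).comp
          (sumAlgEquiv ℝ ι ι : MvPolynomial (ι ⊕ ι) ℝ →+* MvPolynomial ι (MvPolynomial ι ℝ)) := by
      refine MvPolynomial.ringHom_ext (fun r => ?_) fun i => ?_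
      · change MvPolynomial.eval z (spz v (C r)) =
          MvPolynomial.eval z (MvPolynomial.map (MvPolynomial.eval v) (sumAlgEquiv ℝ ι ι (C r)))
        rw [sumAlgEquiv_C_inl, MvPolynomial.map_C, MvPolynomial.eval_C, MvPolynomial.eval_C, spz,
          MvPolynomial.aeval_C, MvPolynomial.algebraMap_eq, MvPolynomial.eval_C]
      · change MvPolynomial.eval z (spz v (X i)) =
          MvPolynomial.eval z (MvPolynomial.map (MvPolynomial.eval v) (sumAlgEquiv ℝ ι ι (X i)))
        rcases i with i | j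
        · rw [sumAlgEquiv_X_inl, MvPolynomial.map_X, spz_inl]
        · rw [sumAlgEquiv_X_inr, MvPolynomial.map_C, MvPolynomial.eval_X, spz_inr]
    exact RingHom.congr_fun h f
  rw [h1, MvPolynomial.eval_map, MvPolynomial.eval₂_eq']
  rw [Finset.sum_subset hT]
  · rw [← Finset.sum_coe_sort T (fun t => MvPolynomial.eval v (F.coeff t) * ∏ i, z i ^ t i)]
    rfl
  · intro t _ ht
    rw [MvPolynomial.notMem_support_iff.1 ht, map_zero, zero_mul]

/-- The coefficient vectors of the relations of the orbit of `v`. -/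
noncomputable def rel (L : Submodule ℝ (Mt I)) (φ : ι → Ry I ι) (T : Finset (ι →₀ ℕ))
    (v : ι → ℝ) : Submodule ℝ (T → ℝ) where
  carrier := {c | ∀ h ∈ Gen L, ∑ t : T, c t * mon t.1 (fun i => ev2 h v (φ i)) = 0}
  zero_mem' := fun h _ => by simp
  add_mem' := fun {c d} hc hd h hh => by
    have h1 := hc h hh
    have h2 := hd h hh
    simp only [Pi.add_apply, add_mul, Finset.sum_add_distrib, h1, h2, add_zero]
  smul_mem' := fun a c hc h hh => by
    have h1 := hc h hh
    simp only [Pi.smul_apply, smul_eq_mul, mul_assoc]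
    rw [← Finset.mul_sum, h1, mul_zero]

lemma mem_rel {L : Submodule ℝ (Mt I)} {φ : ι → Ry I ι} {T : Finset (ι →₀ ℕ)}
    {v : ι → ℝ} {c : T → ℝ} :
    c ∈ rel L φ T v ↔ ∀ h ∈ Gen L, ∑ t : T, c t * mon t.1 (fun i => ev2 h v (φ i)) = 0 := Iff.rfl

/-- The abstract theorem. -/
theorem local_orbit {L : Submodule ℝ (Mt I)} (hL : IsAlg L) {Z : Set (ι → ℝ)}
    (hne : Z.Nonempty) (hP : (IZ Z).IsPrime) (φ : ι → Ry I ι) :
    ∃ (T : Finset (ι →₀ ℕ)) (m : Ry I ι), m ∉ JZ L Z ∧
      ∀ g ∈ Gen L, ∀ v ∈ Z, ev2 g v m ≠ 0 →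
        ∀ N ∈ 𝓝 (0 : Mt I), ∀ᶠ z in 𝓝 (fun i => ev2 g v (φ i)),
          (∀ c ∈ rel L φ T v, ∑ t : T, c t * mon t.1 z = 0) →
          ∃ A ∈ L, A ∈ N ∧ (fun i => ev2 (g * NormedSpace.exp A) v (φ i)) = z := by
  classical
  have hJ : (JZ L Z).IsPrime := JZ_prime hP
  obtain ⟨κ₁, κ₂, i₁, i₂, A, f, m, hm, hA, hf, hcard, hgood⟩ := exists_generic hL hne φ
  let T : Finset (ι →₀ ℕ) := Finset.univ.biUnion fun k => (sumAlgEquiv ℝ ι ι (f k)).support
  refine ⟨T, m, hm, fun g hg v hv hgv N hN => ?_⟩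
  obtain ⟨hli₁, hli₂⟩ := hgood g hg v hv hgv
  obtain ⟨D, hD, hD2⟩ := hasStrictFDerivAt_phi g A (fun i => spx v (φ i))
  set Ψ : (κ₁ → ℝ) → (ι → ℝ) := fun t i =>
    ev (g * NormedSpace.exp (∑ k, t k • A k)) (spx v (φ i)) with hΨ
  have hΨ0 : Ψ 0 = fun i => ev2 g v (φ i) := by
    funext i
    simp only [hΨ, Pi.zero_apply, zero_smul, Finset.sum_const_zero, NormedSpace.exp_zero, mul_one,
      ev_spx]
  let F : (ι → ℝ) → (κ₂ → ℝ) := fun z k => MvPolynomial.eval z (spz v (f k))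
  let F' : (ι → ℝ) →L[ℝ] (κ₂ → ℝ) := ContinuousLinearMap.pi fun k =>
    ∑ i, MvPolynomial.eval (Ψ 0) (pderiv i (spz v (f k))) •
      (ContinuousLinearMap.proj i : (ι → ℝ) →L[ℝ] ℝ)
  have hF : HasStrictFDerivAt F F' (Ψ 0) := by
    rw [hasStrictFDerivAt_pi']
    intro k
    exact hasStrictFDerivAt_eval (spz v (f k)) (Ψ 0)
  have hmem : ∀ t : κ₁ → ℝ, ∑ k, t k • A k ∈ L := fun t =>
    L.sum_mem fun k _ => L.smul_mem _ (hA k)
  -- relations vanish on the orbit
  have hsbv : ∀ (h : Mt I) (q : MvPolynomial (ι ⊕ ι) ℝ),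
      MvPolynomial.eval (fun i => ev2 h v (φ i)) (spz v q) = ev2 h v (sb φ q) := by
    intro h q
    have h2 : ((aeval (fun i => ev2 h v (φ i)) : MvPolynomial ι ℝ →ₐ[ℝ] ℝ)).comp (spz v) =
        (ev2 h v).comp (sb φ) := by
      refine MvPolynomial.algHom_ext fun i => ?_
      rw [AlgHom.comp_apply, AlgHom.comp_apply]
      rcases i with i | j
      · rw [spz_inl, aeval_X, sb_inl]
      · rw [spz_inr, MvPolynomial.aeval_C, sb_inr, ev2_inr]
        rfl
    exact DFunLike.congr_fun h2 q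
  have hrelv : ∀ k, ∀ h ∈ Gen L,
      MvPolynomial.eval (fun i => ev2 h v (φ i)) (spz v (f k)) = 0 := by
    intro k h hh
    rw [hsbv]
    exact hf k h hh v hv
  have hz : ∀ t, F (Ψ t) = 0 := by
    intro t
    funext k
    change MvPolynomial.eval (fun i =>
      ev (g * NormedSpace.exp (∑ k, t k • A k)) (spx v (φ i))) (spz v (f k)) = 0
    simp only [ev_spx]
    exact hrelv k _ ((Gen L).mul_mem hg (exp_mem_Gen (hmem t)))
  have hinj : Function.Injective D := by
    rw [injective_iff_map_eq_zero]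
    intro t ht
    rw [Fintype.linearIndependent_iff] at hli₁
    ext k
    refine hli₁ t ?_ k
    ext i
    rw [Finset.sum_apply]
    have := congrFun ht i
    rw [hD2] at this
    simp only [← ev2_dB] at this
    exact this
  have hsurj : Function.Surjective F' := by
    let M : Matrix κ₂ ι ℝ := fun k i => ev2 g v (sb φ (pderiv (Sum.inl i) (f k)))
    have hM : ∀ w, F' w = M.mulVecLin w := by
      intro w
      ext k
      change (∑ i, MvPolynomial.eval (Ψ 0) (pderiv i (spz v (f k))) •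
        (ContinuousLinearMap.proj i : (ι → ℝ) →L[ℝ] ℝ)) w = ∑ i, M k i * w i
      rw [_root_.sum_apply]
      refine Finset.sum_congr rfl fun i _ => ?_
      rw [_root_.smul_apply, ContinuousLinearMap.proj_apply, smul_eq_mul, hΨ0, pderiv_spz, hsbv]
    have hr : M.rank = Fintype.card κ₂ := LinearIndependent.rank_matrix hli₂
    have hrange : LinearMap.range M.mulVecLin = ⊤ := by
      apply Submodule.eq_top_of_finrank_eq
      rw [Module.finrank_fintype_fun_eq_card]
      exact hr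
    intro y
    obtain ⟨w, hw⟩ := LinearMap.range_eq_top.1 hrange y
    exact ⟨w, by rw [hM]; exact hw⟩
  have hcontA : Continuous (fun t : κ₁ → ℝ => ∑ k, t k • A k) := by fun_prop
  have hN' : {t : κ₁ → ℝ | ∑ k, t k • A k ∈ N} ∈ 𝓝 (0 : κ₁ → ℝ) := by
    apply hcontA.continuousAt.preimage_mem_nhds
    simp only [Pi.zero_apply, zero_smul, Finset.sum_const_zero]
    exact hN
  have h := local_cover hcard hD hF hinj hsurj hz hN'
  rw [hΨ0] at h
  filter_upwards [h] with z hzz hrel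
  obtain ⟨t, ht, htz⟩ := hzz (by
    funext k
    have hsub : (sumAlgEquiv ℝ ι ι (f k)).support ⊆ T :=
      Finset.subset_biUnion_of_mem (fun k => (sumAlgEquiv ℝ ι ι (f k)).support)
        (Finset.mem_univ k)
    obtain ⟨c, hc⟩ := exists_coeff (f k) T hsub v
    change MvPolynomial.eval z (spz v (f k)) = 0
    rw [hc]
    apply hrel c
    intro h hh
    rw [← hc]
    exact hrelv k h hh)
  refine ⟨∑ k, t k • A k, hmem t, ht, ?_⟩
  rw [← htz]
  funext i
  simp only [hΨ, ev_spx]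

end Pool.Agent.Lib.MP_aa9b81_an.Z
end

section

/-!
Stratification of a linear space on which the group acts polynomially.
-/

set_option autoImplicit false
set_option linter.unusedSectionVars false

open Matrix Filter Topology MvPolynomial Module

namespace Pool.Agent.Lib.MP_aa9b81_an.Z

variable {I : Type} [Fintype I] [DecidableEq I] {ι : Type} [Fintype ι] [DecidableEq ι]

/-- The map given by the polynomials. -/
noncomputable def ac (φ : ι → Ry I ι) (g : Mt I) (v : ι → ℝ) : ι → ℝ := fun i => ev2 g v (φ i)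

/-- The data of a polynomial action. -/
structure Act (L : Submodule ℝ (Mt I)) (φ : ι → Ry I ι) : Prop where
  one : ∀ v, ac φ 1 v = v
  mul : ∀ g ∈ Gen L, ∀ h ∈ Gen L, ∀ v, ac φ (g * h) v = ac φ g (ac φ h v)
  conj : ∀ A ∈ L, ∀ B ∈ L, NormedSpace.exp (-B) * A * NormedSpace.exp B ∈ L

lemma exists_inv {L : Submodule ℝ (Mt I)} {φ : ι → Ry I ι} (hA : Act L φ) {g : Mt I}
    (hg : g ∈ Gen L) : ∃ g' ∈ Gen L, g * g' = 1 ∧ g' * g = 1 ∧ ∀ A ∈ L, g' * A * g ∈ L := by
  induction hg using Submonoid.closure_induction with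
  | mem g hg =>
    obtain ⟨B, hB, rfl⟩ := hg
    refine ⟨NormedSpace.exp (-B), exp_mem_Gen (L.neg_mem hB), exp_mul_exp_neg' B, ?_,
      fun A hAL => hA.conj A hAL B hB⟩
    have := exp_mul_exp_neg' (-B)
    rwa [neg_neg] at this
  | one => exact ⟨1, (Gen L).one_mem, by simp, by simp, fun A hAL => by simpa using hAL⟩
  | mul g h _ _ ig ih =>
    obtain ⟨g', hg', h1, h2, h3⟩ := ig
    obtain ⟨h', hh', k1, k2, k3⟩ := ih
    refine ⟨h' * g', (Gen L).mul_mem hh' hg', ?_, ?_, fun A hAL => ?_⟩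
    · calc g * h * (h' * g') = g * (h * h') * g' := by noncomm_ring
        _ = 1 := by rw [k1, mul_one, h1]
    · calc h' * g' * (g * h) = h' * (g' * g) * h := by noncomm_ring
        _ = 1 := by rw [h2, mul_one, k2]
    · have := k3 _ (h3 A hAL)
      have h4 : h' * g' * A * (g * h) = h' * (g' * A * g) * h := by noncomm_ring
      rw [h4]
      exact this

/-- Composition of a polynomial with the map given by a group element. -/
noncomputable def cmp (φ : ι → Ry I ι) (h : Mt I) : MvPolynomial ι ℝ →ₐ[ℝ] MvPolynomial ι ℝ :=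
  aeval fun i => spy h (φ i)

lemma eval_cmp (φ : ι → Ry I ι) (h : Mt I) (v : ι → ℝ) (F : MvPolynomial ι ℝ) :
    MvPolynomial.eval v (cmp φ h F) = MvPolynomial.eval (ac φ h v) F := by
  have h1 : ((aeval v : MvPolynomial ι ℝ →ₐ[ℝ] ℝ)).comp (cmp φ h) = aeval (ac φ h v) := by
    refine MvPolynomial.algHom_ext fun i => ?_
    rw [AlgHom.comp_apply, cmp, aeval_X, aeval_X]
    exact eval_spy h v (φ i)
  exact DFunLike.congr_fun h1 F

lemma ev2_aeval (φ : ι → Ry I ι) (h : Mt I) (v : ι → ℝ) (F : MvPolynomial ι ℝ) :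
    ev2 h v (aeval φ F) = MvPolynomial.eval (ac φ h v) F := by
  have h1 : (ev2 h v).comp (aeval φ) = (aeval (ac φ h v) : MvPolynomial ι ℝ →ₐ[ℝ] ℝ) := by
    refine MvPolynomial.algHom_ext fun i => ?_
    rw [AlgHom.comp_apply, aeval_X, aeval_X]
    rfl
  exact DFunLike.congr_fun h1 F

/-- `v'` lies in the closure of the orbit of `v`. -/
def ZC (L : Submodule ℝ (Mt I)) (φ : ι → Ry I ι) (v v' : ι → ℝ) : Prop :=
  ∀ F : MvPolynomial ι ℝ, (∀ h ∈ Gen L, MvPolynomial.eval (ac φ h v) F = 0) →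
    MvPolynomial.eval v' F = 0

lemma ZC.act {L : Submodule ℝ (Mt I)} {φ : ι → Ry I ι} (hA : Act L φ) {v v' : ι → ℝ}
    (h : ZC L φ v v') {g : Mt I} (hg : g ∈ Gen L) : ZC L φ v (ac φ g v') := by
  intro F hF
  rw [← eval_cmp]
  apply h
  intro h' hh'
  rw [eval_cmp, ← hA.mul g hg h' hh']
  exact hF _ ((Gen L).mul_mem hg hh')

lemma ZC.of_act {L : Submodule ℝ (Mt I)} {φ : ι → Ry I ι} {v : ι → ℝ}
    {g : Mt I} (hg : g ∈ Gen L) : ZC L φ v (ac φ g v) := fun _ hF => hF g hg

lemma ZC.of_act' {L : Submodule ℝ (Mt I)} {φ : ι → Ry I ι} (hA : Act L φ) {v : ι → ℝ}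
    {g : Mt I} (hg : g ∈ Gen L) : ZC L φ (ac φ g v) v := by
  obtain ⟨g', hg', -, h2, -⟩ := exists_inv hA hg
  intro F hF
  have := hF g' hg'
  rwa [← hA.mul g' hg' g hg, h2, hA.one] at this

/-- Saturated sets. -/
def Sat (L : Submodule ℝ (Mt I)) (φ : ι → Ry I ι) (T : Set (ι → ℝ)) : Prop :=
  ∀ v v', v ∈ T → ZC L φ v v' → v' ∈ T

/-- A layer: there is an invariant continuous map to a Hausdorff space in whose fibres the orbits
are open, by small elements. -/
def Layer (L : Submodule ℝ (Mt I)) (φ : ι → Ry I ι) (S : Set (ι → ℝ)) : Prop :=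
  ∃ (κ : Type) (_ : Fintype κ) (q : (ι → ℝ) → (κ → ℝ)), ContinuousOn q S ∧
    (∀ v v', ZC L φ v v' → ZC L φ v' v → q v = q v') ∧
    ∀ v ∈ S, ∀ N ∈ 𝓝 (0 : Mt I), ∀ᶠ z in 𝓝 v, z ∈ S → q z = q v →
      ∃ A ∈ L, A ∈ N ∧ ac φ (NormedSpace.exp A) v = z

lemma Layer.mono {L : Submodule ℝ (Mt I)} {φ : ι → Ry I ι} {S S' : Set (ι → ℝ)}
    (h : Layer L φ S) (hS : S' ⊆ S) : Layer L φ S' := by
  obtain ⟨κ, i, q, h1, h2, h3⟩ := h
  refine ⟨κ, i, q, h1.mono hS, h2, fun v hv N hN => ?_⟩
  filter_upwards [h3 v (hS hv) N hN] with z hz hzS hq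
  exact hz (hS hzS) hq

/-- Finite stratifications. -/
inductive Strat (L : Submodule ℝ (Mt I)) (φ : ι → Ry I ι) : Set (ι → ℝ) → Prop
  | empty : Strat L φ ∅
  | step (B T : Set (ι → ℝ)) : Strat L φ B → IsClosed T → Sat L φ T → B ⊆ T →
      Layer L φ (T \ B) → Strat L φ T

lemma Strat.isClosed {L : Submodule ℝ (Mt I)} {φ : ι → Ry I ι} {T : Set (ι → ℝ)}
    (h : Strat L φ T) : IsClosed T := by
  cases h with
  | empty => exact isClosed_empty
  | step B _ _ h1 _ _ _ => exact h1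

lemma Strat.sat {L : Submodule ℝ (Mt I)} {φ : ι → Ry I ι} {T : Set (ι → ℝ)}
    (h : Strat L φ T) : Sat L φ T := by
  cases h with
  | empty => exact fun v v' hv _ => absurd hv (Set.notMem_empty v)
  | step B _ _ _ h2 _ _ => exact h2

lemma Strat.union {L : Submodule ℝ (Mt I)} {φ : ι → Ry I ι} {P Q : Set (ι → ℝ)}
    (hP : Strat L φ P) (hQ : Strat L φ Q) : Strat L φ (P ∪ Q) := by
  induction hQ with
  | empty =>
    rw [Set.union_empty]
    exact hP
  | step B T hB h1 h2 h3 h4 ih =>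
    refine Strat.step (P ∪ B) (P ∪ T) ih (hP.isClosed.union h1) ?_
      (Set.union_subset_union_right P h3) (h4.mono ?_)
    · rintro v v' (hv | hv) hz
      · exact Or.inl (hP.sat v v' hv hz)
      · exact Or.inr (h2 v v' hv hz)
    · rintro v ⟨hv | hv, hn⟩
      · exact absurd (Or.inl hv) hn
      · exact ⟨hv, fun hb => hn (Or.inr hb)⟩

lemma continuous_ev2 (h : Mt I) (P : Ry I ι) : Continuous fun v : ι → ℝ => ev2 h v P := by
  have h1 : (fun v : ι → ℝ => ev2 h v P) = fun v => MvPolynomial.eval v (spy h P) := by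
    funext v
    rw [eval_spy]
  rw [h1]
  exact MvPolynomial.continuous_eval _

lemma continuous_ac (φ : ι → Ry I ι) (h : Mt I) : Continuous (ac φ h) :=
  continuous_pi fun i => continuous_ev2 h (φ i)

lemma continuous_mon (t : ι →₀ ℕ) : Continuous (mon t : (ι → ℝ) → ℝ) := by
  unfold mon
  fun_prop

lemma cf_rel (L : Submodule ℝ (Mt I)) (φ : ι → Ry I ι) (T : Finset (ι →₀ ℕ)) :
    CF (Set.univ : Set (ι → ℝ)) (rel L φ T) := by
  intro v _ F _ hle u hu c hc h hh
  rw [nhdsWithin_univ] at hle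
  have h1 : Tendsto (fun y => ∑ t : T, u y t * mon t.1 (ac φ h y)) F
      (𝓝 (∑ t : T, c t * mon t.1 (ac φ h v))) := by
    refine tendsto_finsetSum _ fun t _ => ?_
    refine Tendsto.mul ?_ ?_
    · exact ((continuous_apply t).tendsto c).comp hc
    · exact (((continuous_mon t.1).comp (continuous_ac φ h)).tendsto v).mono_left hle
  have h2 : ∀ᶠ y in F, ∑ t : T, u y t * mon t.1 (ac φ h y) = 0 := by
    filter_upwards [hu] with y hy using hy h hh
  exact tendsto_nhds_unique (h1.congr' h2) tendsto_const_nhds |>.symm ▸ rfl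

/-- The polynomial with given coefficients. -/
noncomputable def pc (T : Finset (ι →₀ ℕ)) (c : T → ℝ) : MvPolynomial ι ℝ :=
  ∑ t : T, monomial t.1 (c t)

lemma eval_pc (T : Finset (ι →₀ ℕ)) (c : T → ℝ) (z : ι → ℝ) :
    MvPolynomial.eval z (pc T c) = ∑ t : T, c t * mon t.1 z := by
  rw [pc, map_sum]
  refine Finset.sum_congr rfl fun t _ => ?_
  rw [MvPolynomial.eval_monomial, mon]
  congr 1
  rw [Finsupp.prod_fintype]
  intro i
  exact pow_zero _

lemma rel_le_of_ZC {L : Submodule ℝ (Mt I)} {φ : ι → Ry I ι} (hA : Act L φ)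
    {T : Finset (ι →₀ ℕ)} {v v' : ι → ℝ} (h : ZC L φ v v') : rel L φ T v ≤ rel L φ T v' := by
  intro c hc g hg
  have h1 := h.act hA hg (pc T c) (fun h' hh' => by
    rw [eval_pc]
    exact hc h' hh')
  rw [eval_pc] at h1
  exact h1

lemma pr_congr {X V : Type} [TopologicalSpace X] [AddCommGroup V] [TopologicalSpace V]
    [IsTopologicalAddGroup V] [T2Space V] [Module ℝ V] [ContinuousSMul ℝ V]
    [FiniteDimensional ℝ V] {W : X → Submodule ℝ V} {x y : X} (h : W x = W y) :
    MP_aa9b81_an.pr W x = MP_aa9b81_an.pr W y := by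
  funext v
  simp only [MP_aa9b81_an.pr, MP_aa9b81_an.proj, MP_aa9b81_an.tr, h]

lemma eq_of_pr_single {X κ : Type} [TopologicalSpace X] [Fintype κ] [DecidableEq κ]
    {W : X → Submodule ℝ (κ → ℝ)} {x y : X}
    (h : ∀ k, MP_aa9b81_an.pr W x (Pi.single k 1) = MP_aa9b81_an.pr W y (Pi.single k 1)) :
    W x = W y := by
  have hlin : ∀ (x : X) (v : κ → ℝ), MP_aa9b81_an.pr W x v =
      ∑ k, v k • MP_aa9b81_an.pr W x (Pi.single k 1) := by
    intro x v
    have h1 : v = ∑ k, v k • (Pi.single k 1 : κ → ℝ) := by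
      conv_lhs => rw [← Finset.univ_sum_single v]
      refine Finset.sum_congr rfl fun k _ => ?_
      rw [← Pi.single_smul, smul_eq_mul, mul_one]
    conv_lhs => rw [h1]
    simp only [MP_aa9b81_an.pr, map_sum, map_smul]
  have hpr : ∀ v, MP_aa9b81_an.pr W x v = MP_aa9b81_an.pr W y v := by
    intro v
    rw [hlin x, hlin y]
    exact Finset.sum_congr rfl fun k _ => by rw [h k]
  apply le_antisymm
  · intro v hv
    have h1 := MP_aa9b81_an.pr_eq_self hv
    rw [hpr] at h1
    rw [← h1]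
    exact MP_aa9b81_an.pr_mem W y v
  · intro v hv
    have h1 := MP_aa9b81_an.pr_eq_self hv
    rw [← hpr] at h1
    rw [← h1]
    exact MP_aa9b81_an.pr_mem W x v

end Pool.Agent.Lib.MP_aa9b81_an.Z
end
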