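import Mathlib
import Pool.Agent.Lib.MP_aa9b81_an.Mg.G036
import Pool.Agent.Lib.MP_aa9b81_an.Mg.G045

section

/-!
# Transversals, part D3c: covariance
-/

open scoped ENNReal Topology CompactlySupported Pointwise
open Function Filter MeasureTheory

noncomputable section

set_option linter.unusedSectionVars false

namespace Pool.Agent.Lib.MP_aa9b81_an.Tv

open Cut Hs Cb

variable {G J B : Type} [Group G] [TopologicalSpace G] [IsTopologicalGroup G]
  [LocallyCompactSpace G] [SecondCountableTopology G] [T2Space G] [MeasurableSpace G] [BorelSpace G]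
  [TopologicalSpace B] [T2Space B] [MulAction G B] [ContinuousSMul G B] [Nonempty J]

theorem D3c_mp (k : G) : MeasurePreserving (fun a : G => k * a) (mu G) (mu G) :=
  measurePreserving_mul_left (mu G) k

/-- The composition with the left translation by `k`. -/
def D3c_L (J : Type) (k : G) : HG G J →ₗᵢ[ℂ] HG G J :=
  Lp.compMeasurePreservingₗᵢ ℂ (fun a : G => k * a) (D3c_mp k)

theorem D3c_L_ae (k : G) (ξ : HG G J) : (D3c_L J k ξ : G → L2 J) =ᵐ[mu G] fun a => ξ (k * a) :=
  Lp.coeFn_compMeasurePreserving ξ (D3c_mp k)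

theorem D3c_LL (k l : G) (ξ : HG G J) : D3c_L J k (D3c_L J l ξ) = D3c_L J (l * k) ξ := by
  refine Lp.ext ?_
  have h1 := (D3c_mp k).quasiMeasurePreserving.ae (D3c_L_ae l ξ)
  filter_upwards [D3c_L_ae k (D3c_L J l ξ), D3c_L_ae (l * k) ξ, h1] with a h2 h3 h4
  rw [h2, h3, h4, mul_assoc]

theorem D3c_L_one (ξ : HG G J) : D3c_L J (1 : G) ξ = ξ := by
  refine Lp.ext ?_
  filter_upwards [D3c_L_ae (1 : G) ξ] with a h2
  rw [h2, one_mul]

/-- Left translation: `(T ξ)(a) = ξ(t⁻¹ a)` is an isometric isomorphism. PROOF: `Lp.compMeasurePreservingₗᵢ` for `a ↦ t⁻¹ * a` (`measurePreserving_mul_left`). -/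
theorem D3c_exists_Lt (t : G) : ∃ T : HG G J ≃ₗᵢ[ℂ] HG G J,
    ∀ ξ : HG G J, (T ξ : G → L2 J) =ᵐ[mu G] fun a => ξ (t⁻¹ * a) :=
  ⟨{ toLinearEquiv := LinearEquiv.ofBijective (D3c_L J t⁻¹).toLinearMap
      ⟨(D3c_L J t⁻¹).injective, fun ξ => ⟨D3c_L J t ξ, by
        show D3c_L J t⁻¹ (D3c_L J t ξ) = ξ
        rw [D3c_LL, mul_inv_cancel, D3c_L_one]⟩⟩
     norm_map' := fun ξ => (D3c_L J t⁻¹).norm_map ξ }, fun ξ => D3c_L_ae t⁻¹ ξ⟩

/-- The multiplication and the translation. -/
theorem D3c_Ms {s : G → ℝ} (hs : C01 s) (t : G) {T : HG G J ≃ₗᵢ[ℂ] HG G J}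
    (hT : ∀ ξ : HG G J, (T ξ : G → L2 J) =ᵐ[mu G] fun a => ξ (t⁻¹ * a)) (η : HG G J) :
    Ms (fun a => s (t⁻¹ * a)) (T η) = T (Ms s η) := by
  have hst : C01 fun a : G => s (t⁻¹ * a) :=
    ⟨hs.cont.comp (continuous_const.mul continuous_id), fun a => hs.nonneg _, fun a => hs.le_one _⟩
  refine Lp.ext ?_
  have h1 := (D3c_mp t⁻¹).quasiMeasurePreserving.ae (Ms_ae hs η)
  filter_upwards [Ms_ae hst (T η), hT η, hT (Ms s η), h1] with a h2 h3 h4 h5
  rw [h2, h3, h4, h5]

/-- The kernel operators and the translation. -/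
theorem D3c_opF {κ : B → G → BL J} {C : Set G} {M : ℝ} (h : FOK C M κ) (t : G) (b : B)
    {T : HG G J ≃ₗᵢ[ℂ] HG G J}
    (hT : ∀ ξ : HG G J, (T ξ : G → L2 J) =ᵐ[mu G] fun a => ξ (t⁻¹ * a)) (η : HG G J) :
    opF κ b (T η) = T (opF κ (t⁻¹ • b) η) := by
  refine Lp.ext ?_
  have h1 := (D3c_mp t⁻¹).quasiMeasurePreserving.ae (opk_ae (h.kok (t⁻¹ • b)) η)
  filter_upwards [opk_ae (h.kok b) (T η), hT (opF κ (t⁻¹ • b) η), h1] with a h2 h3 h4
  have h5 : (opF κ b (T η) : G → L2 J) a = ∫ a', kat κ b a a' ((T η : HG G J) a') ∂mu G := h2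
  have h6 : (opF κ (t⁻¹ • b) η : G → L2 J) (t⁻¹ * a) =
      ∫ a', kat κ (t⁻¹ • b) (t⁻¹ * a) a' (η a') ∂mu G := h4
  rw [h5, h3, h6]
  have h7 : ∫ a', kat κ b a a' ((T η : HG G J) a') ∂mu G =
      ∫ a', kat κ b a a' (η (t⁻¹ * a')) ∂mu G := by
    refine integral_congr_ae ?_
    filter_upwards [hT η] with a' ha'
    rw [ha']
  rw [h7, ← integral_mul_left_eq_self (μ := mu G)
    (fun a' : G => kat κ (t⁻¹ • b) (t⁻¹ * a) a' (η a')) t⁻¹]
  refine integral_congr_ae (Filter.Eventually.of_forall fun a' => ?_)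
  show κ (a⁻¹ • b) (a⁻¹ * a') (η (t⁻¹ * a')) =
    κ ((t⁻¹ * a)⁻¹ • t⁻¹ • b) ((t⁻¹ * a)⁻¹ * (t⁻¹ * a')) (η (t⁻¹ * a'))
  rw [mul_inv_rev, inv_inv, smul_smul, mul_assoc, mul_inv_cancel, mul_one, mul_assoc,
    mul_inv_cancel_left]

/-- Covariance. PROOF: with `T` of `D3c_exists_Lt t`: `T (Ms s) T⁻¹ = Ms (s (t⁻¹ ·))` and `T (opF κ (t⁻¹ b)) T⁻¹ = opF κ b`
(`opk_ae`, `integral_mul_left_eq_self`); so the operator on the left is `T (…) T⁻¹`. -/
theorem norm_translate {κ : B → G → BL J} {C : Set G} {M : ℝ} (h : FOK C M κ) {s : G → ℝ}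
    (hs : C01 s) (t : G) (b : B) :
    ‖(Ms fun a => s (t⁻¹ * a) : HG G J →L[ℂ] HG G J).comp
      ((opF κ b).comp (Ms fun a => s (t⁻¹ * a)))‖ ≤ wn s κ (t⁻¹ • b) := by
  obtain ⟨T, hT⟩ := D3c_exists_Lt (G := G) (J := J) t
  refine ContinuousLinearMap.opNorm_le_bound _ (norm_nonneg _) fun ξ => ?_
  obtain ⟨ζ, rfl⟩ : ∃ ζ, ξ = T ζ := ⟨T.symm ξ, (T.apply_symm_apply ξ).symm⟩
  have e1 : (Ms fun a => s (t⁻¹ * a) : HG G J →L[ℂ] HG G J).comp
      ((opF κ b).comp (Ms fun a => s (t⁻¹ * a))) (T ζ) =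
      T ((Ms s : HG G J →L[ℂ] HG G J).comp ((opF κ (t⁻¹ • b)).comp (Ms s)) ζ) := by
    rw [ContinuousLinearMap.comp_apply, ContinuousLinearMap.comp_apply, D3c_Ms hs t hT,
      D3c_opF h t b hT, D3c_Ms hs t hT]
    rfl
  rw [e1, T.norm_map, T.norm_map]
  exact ContinuousLinearMap.le_opNorm _ _

end Pool.Agent.Lib.MP_aa9b81_an.Tv
end
end

section

/-!
Existence of finite stratifications.
-/

set_option autoImplicit false
set_option linter.unusedSectionVars false

open Matrix Filter Topology MvPolynomial Module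

namespace Pool.Agent.Lib.MP_aa9b81_an.Z

variable {I : Type} [Fintype I] [DecidableEq I] {ι : Type} [Fintype ι] [DecidableEq ι]

/-- The set is the zero set of its ideal. -/
def ZClosed (T : Set (ι → ℝ)) : Prop := ∀ v, (∀ F ∈ IZ T, MvPolynomial.eval v F = 0) → v ∈ T

/-- Invariance. -/
def Inv' (L : Submodule ℝ (Mt I)) (φ : ι → Ry I ι) (T : Set (ι → ℝ)) : Prop :=
  ∀ h ∈ Gen L, ∀ v ∈ T, ac φ h v ∈ T

lemma ZClosed.isClosed {T : Set (ι → ℝ)} (h : ZClosed T) : IsClosed T := by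
  have h1 : T = ⋂ F ∈ IZ T, {v | MvPolynomial.eval v F = 0} := by
    ext v
    rw [Set.mem_iInter₂]
    exact ⟨fun hv F hF => hF v hv, fun hv => h v hv⟩
  rw [h1]
  exact isClosed_biInter fun F _ => isClosed_eq (MvPolynomial.continuous_eval F) continuous_const

lemma ZClosed.sat {L : Submodule ℝ (Mt I)} {φ : ι → Ry I ι} {T : Set (ι → ℝ)} (h : ZClosed T)
    (hI : Inv' L φ T) : Sat L φ T := by
  intro v v' hv hz
  exact h v' fun F hF => hz F fun g hg => hF _ (hI g hg v hv)

/-- The part of `T` on which the orbit satisfies an equation. -/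
def part (L : Submodule ℝ (Mt I)) (φ : ι → Ry I ι) (T : Set (ι → ℝ)) (P : MvPolynomial ι ℝ) :
    Set (ι → ℝ) := {v | v ∈ T ∧ ∀ h ∈ Gen L, MvPolynomial.eval (ac φ h v) P = 0}

lemma part_zclosed {L : Submodule ℝ (Mt I)} {φ : ι → Ry I ι} {T : Set (ι → ℝ)}
    (hT : ZClosed T) (P : MvPolynomial ι ℝ) : ZClosed (part L φ T P) := by
  intro v hv
  refine ⟨hT v fun F hF => hv F fun w hw => hF w hw.1, fun h hh => ?_⟩
  rw [← eval_cmp]
  apply hv
  intro w hw
  rw [eval_cmp]
  exact hw.2 h hh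

lemma part_inv {L : Submodule ℝ (Mt I)} {φ : ι → Ry I ι} (hA : Act L φ) {T : Set (ι → ℝ)}
    (hT : Inv' L φ T) (P : MvPolynomial ι ℝ) : Inv' L φ (part L φ T P) := by
  intro g hg v hv
  refine ⟨hT g hg v hv.1, fun h hh => ?_⟩
  rw [← hA.mul h hh g hg]
  exact hv.2 _ ((Gen L).mul_mem hh hg)

/-- The exceptional part. -/
def bad (L : Submodule ℝ (Mt I)) (φ : ι → Ry I ι) (T : Set (ι → ℝ)) (m : Ry I ι) :
    Set (ι → ℝ) := {v | v ∈ T ∧ ∀ g ∈ Gen L, ∀ h ∈ Gen L, ev2 g (ac φ h v) m = 0}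

lemma bad_zclosed {L : Submodule ℝ (Mt I)} {φ : ι → Ry I ι} {T : Set (ι → ℝ)}
    (hT : ZClosed T) (m : Ry I ι) : ZClosed (bad L φ T m) := by
  intro v hv
  refine ⟨hT v fun F hF => hv F fun w hw => hF w hw.1, fun g hg h hh => ?_⟩
  rw [← eval_spy, ← eval_cmp]
  apply hv
  intro w hw
  rw [eval_cmp, eval_spy]
  exact hw.2 g hg h hh

lemma bad_inv {L : Submodule ℝ (Mt I)} {φ : ι → Ry I ι} (hA : Act L φ) {T : Set (ι → ℝ)}
    (hT : Inv' L φ T) (m : Ry I ι) : Inv' L φ (bad L φ T m) := by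
  intro k hk v hv
  refine ⟨hT k hk v hv.1, fun g hg h hh => ?_⟩
  rw [← hA.mul h hh k hk]
  exact hv.2 g hg _ ((Gen L).mul_mem hh hk)

lemma IZ_lt {S T : Set (ι → ℝ)} (hS : ZClosed S) (h : S ⊆ T) {v : ι → ℝ} (hv : v ∈ T)
    (hvS : v ∉ S) : IZ T < IZ S := by
  refine lt_of_le_of_ne (fun F hF w hw => hF w (h hw)) ?_
  intro heq
  apply hvS
  apply hS
  intro F hF
  rw [← heq] at hF
  exact hF v hv

lemma exp_conj_pair {g g' : Mt I} (h1 : g * g' = 1) (h2 : g' * g = 1) (A : Mt I) :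
    NormedSpace.exp (g' * A * g) = g' * NormedSpace.exp A * g := by
  let U : (Mt I)ˣ := ⟨g, g', h1, h2⟩
  exact Matrix.exp_units_conj' U A

/-- The layers outside the exceptional part. -/
lemma layer_of_generic {L : Submodule ℝ (Mt I)} {φ : ι → Ry I ι} (hA : Act L φ)
    {T : Set (ι → ℝ)} (hI : Inv' L φ T) (T₀ : Finset (ι →₀ ℕ)) (m : Ry I ι)
    (hm : ∀ g ∈ Gen L, ∀ v ∈ T, ev2 g v m ≠ 0 →
        ∀ N ∈ 𝓝 (0 : Mt I), ∀ᶠ z in 𝓝 (fun i => ev2 g v (φ i)),
          (∀ c ∈ rel L φ T₀ v, ∑ t : T₀, c t * mon t.1 z = 0) →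
          ∃ A ∈ L, A ∈ N ∧ (fun i => ev2 (g * NormedSpace.exp A) v (φ i)) = z)
    {S : Set (ι → ℝ)} (hS : S ⊆ T \ bad L φ T m) {r : ℕ}
    (hr : ∀ v ∈ S, finrank ℝ (rel L φ T₀ v) = r) : Layer L φ S := by
  classical
  refine ⟨T₀ × T₀, inferInstance, fun v p => MP_aa9b81_an.pr (rel L φ T₀) v (Pi.single p.1 1) p.2,
    ?_, ?_, ?_⟩
  · rw [continuousOn_pi]
    rintro ⟨t, t'⟩
    have h1 := ((cf_rel L φ T₀).mono (Set.subset_univ S)).continuousOn hr (Pi.single t 1)
    exact (continuous_apply t').comp_continuousOn h1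
  · intro v v' h h'
    have h1 : rel L φ T₀ v = rel L φ T₀ v' :=
      le_antisymm (rel_le_of_ZC hA h) (rel_le_of_ZC hA h')
    funext p
    simp only [pr_congr h1]
  · intro v hv N hN
    obtain ⟨hvT, hvb⟩ := hS hv
    have hvb' : ∃ g ∈ Gen L, ∃ h ∈ Gen L, ev2 g (ac φ h v) m ≠ 0 := by
      by_contra hcon
      push Not at hcon
      exact hvb ⟨hvT, hcon⟩
    obtain ⟨g, hg, h, hh, hne⟩ := hvb'
    obtain ⟨g', hg', hgg', hg'g, -⟩ := exists_inv hA hg
    obtain ⟨h', hh', hhh', hh'h, hconj⟩ := exists_inv hA hh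
    have hcont : Continuous fun A : Mt I => h' * A * h := by fun_prop
    have hN' : {A : Mt I | h' * A * h ∈ N} ∈ 𝓝 (0 : Mt I) := by
      apply hcont.continuousAt.preimage_mem_nhds
      simpa using hN
    have h1 := hm g hg (ac φ h v) (hI h hh v hvT) hne _ hN'
    have h2 : Tendsto (fun z => ac φ (g * h) z) (𝓝 v) (𝓝 (fun i => ev2 g (ac φ h v) (φ i))) := by
      have h3 := (continuous_ac φ (g * h)).tendsto v
      rw [hA.mul g hg h hh] at h3
      exact h3
    filter_upwards [h2.eventually h1] with z hz _ hq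
    have hrel : rel L φ T₀ z = rel L φ T₀ v := by
      apply eq_of_pr_single
      intro t
      funext t'
      exact congrFun hq (t, t')
    have hrel' : rel L φ T₀ (ac φ h v) ≤ rel L φ T₀ z := by
      rw [hrel]
      exact rel_le_of_ZC hA (ZC.of_act' hA hh)
    obtain ⟨A, hAL, hAN, hAz⟩ := hz (fun c hc => hrel' hc _ ((Gen L).mul_mem hg hh))
    refine ⟨h' * A * h, hconj A hAL, hAN, ?_⟩
    have hexp : NormedSpace.exp A ∈ Gen L := exp_mem_Gen hAL
    have h4 : ac φ (g * NormedSpace.exp A) (ac φ h v) = ac φ (g * h) z := hAz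
    have h5 : ac φ (h' * g') (ac φ (g * NormedSpace.exp A) (ac φ h v)) = z := by
      rw [h4, ← hA.mul _ ((Gen L).mul_mem hh' hg') _ ((Gen L).mul_mem hg hh)]
      have h6 : h' * g' * (g * h) = 1 := by
        calc h' * g' * (g * h) = h' * (g' * g) * h := by noncomm_ring
          _ = 1 := by rw [hg'g, mul_one, hh'h]
      rw [h6, hA.one]
    rw [exp_conj_pair hhh' hh'h, ← h5,
      ← hA.mul _ ((Gen L).mul_mem hg hexp) _ hh,
      ← hA.mul _ ((Gen L).mul_mem hh' hg') _ ((Gen L).mul_mem ((Gen L).mul_mem hg hexp) hh)]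
    congr 1
    calc h' * NormedSpace.exp A * h = h' * (1 * NormedSpace.exp A) * h := by rw [one_mul]
      _ = h' * (g' * g * NormedSpace.exp A) * h := by rw [hg'g]
      _ = h' * g' * (g * NormedSpace.exp A * h) := by noncomm_ring

theorem exists_strat {L : Submodule ℝ (Mt I)} (hL : IsAlg L) {φ : ι → Ry I ι} (hA : Act L φ) :
    ∀ (𝔞 : Ideal (MvPolynomial ι ℝ)) (T : Set (ι → ℝ)), IZ T = 𝔞 → ZClosed T → Inv' L φ T →
      Strat L φ T := by
  intro 𝔞
  induction 𝔞 using (wellFounded_gt (α := Ideal (MvPolynomial ι ℝ))).induction with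
  | _ 𝔞 ih =>
  intro T hT hcl hinv
  rcases T.eq_empty_or_nonempty with hempty | hne
  · rw [hempty]
    exact Strat.empty
  by_cases hprime : (IZ T).IsPrime
  · obtain ⟨T₀, m, hm, hgood⟩ := local_orbit hL hne hprime φ
    have hbad : Strat L φ (bad L φ T m) := by
      have hex : ∃ v ∈ T, v ∉ bad L φ T m := by
        rw [mem_JZ] at hm
        push Not at hm
        obtain ⟨g, hg, v, hv, hgv⟩ := hm
        refine ⟨v, hv, fun hb => hgv ?_⟩
        have := hb.2 g hg 1 (Gen L).one_mem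
        rwa [hA.one] at this
      obtain ⟨v, hv, hvb⟩ := hex
      refine ih (IZ (bad L φ T m)) ?_ (bad L φ T m) rfl (bad_zclosed hcl m) (bad_inv hA hinv m)
      rw [← hT]
      exact IZ_lt (bad_zclosed hcl m) (fun w hw => hw.1) hv hvb
    -- the filtration by the dimension of the space of relations
    have key : ∀ i : ℕ, Strat L φ (bad L φ T m ∪
        {v | v ∈ T ∧ Fintype.card T₀ + 1 ≤ finrank ℝ (rel L φ T₀ v) + i}) := by
      intro i
      induction i with
      | zero =>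
        have h1 : {v | v ∈ T ∧ Fintype.card T₀ + 1 ≤ finrank ℝ (rel L φ T₀ v) + 0} = ∅ := by
          ext v
          simp only [add_zero, Set.mem_ofPred_eq, Set.mem_empty_iff_false, iff_false]
          rintro ⟨-, h⟩
          have h2 := Submodule.finrank_le (rel L φ T₀ v)
          rw [Module.finrank_fintype_fun_eq_card] at h2
          omega
        rw [h1, Set.union_empty]
        exact hbad
      | succ i ihi =>
        refine Strat.step _ _ ihi ?_ ?_ ?_ ?_
        · refine hbad.isClosed.union ?_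
          have h1 : {v | v ∈ T ∧ Fintype.card T₀ + 1 ≤ finrank ℝ (rel L φ T₀ v) + (i + 1)} =
              T ∩ {v | v ∈ Set.univ ∧ Fintype.card T₀ - i ≤ finrank ℝ (rel L φ T₀ v)} := by
            ext v
            simp only [Set.mem_ofPred_eq, Set.mem_univ, true_and, Set.mem_inter_iff]
            refine and_congr_right fun _ => ?_
            omega
          rw [h1]
          refine hcl.isClosed.inter ?_
          rw [← closure_subset_iff_isClosed]
          intro v hv
          exact ⟨Set.mem_univ v, (cf_rel L φ T₀).finrank_ge (Set.mem_univ v) hv⟩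
        · rintro v v' (hv | hv) hz
          · exact Or.inl (hbad.sat v v' hv hz)
          · refine Or.inr ⟨hcl.sat hinv v v' hv.1 hz, ?_⟩
            have h1 := Submodule.finrank_mono (rel_le_of_ZC (T := T₀) hA hz)
            have h2 := hv.2
            omega
        · refine Set.union_subset_union_right _ ?_
          rintro v ⟨h1, h2⟩
          exact ⟨h1, by omega⟩
        · refine layer_of_generic hA hinv T₀ m hgood (r := Fintype.card T₀ - i) ?_ ?_
          · rintro v ⟨hv | hv, hn⟩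
            · exact absurd (Or.inl hv) hn
            · exact ⟨hv.1, fun hb => hn (Or.inl hb)⟩
          · rintro v ⟨hv | hv, hn⟩
            · exact absurd (Or.inl hv) hn
            · have h1 : ¬ (Fintype.card T₀ + 1 ≤ finrank ℝ (rel L φ T₀ v) + i) :=
                fun h => hn (Or.inr ⟨hv.1, h⟩)
              have h2 := hv.2
              have h3 := Submodule.finrank_le (rel L φ T₀ v)
              rw [Module.finrank_fintype_fun_eq_card] at h3
              omega
    have hfin := key (Fintype.card T₀ + 1)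
    have heq : bad L φ T m ∪ {v | v ∈ T ∧ Fintype.card T₀ + 1 ≤
        finrank ℝ (rel L φ T₀ v) + (Fintype.card T₀ + 1)} = T := by
      ext v
      constructor
      · rintro (hv | hv)
        · exact hv.1
        · exact hv.1
      · intro hv
        exact Or.inr ⟨hv, by omega⟩
    rwa [heq] at hfin
  · -- the ideal is not prime
    have hnotop : IZ T ≠ ⊤ := by
      intro h
      obtain ⟨v, hv⟩ := hne
      have h1 : (1 : MvPolynomial ι ℝ) ∈ IZ T := h ▸ Submodule.mem_top
      have h2 := h1 v hv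
      rw [map_one] at h2
      exact one_ne_zero h2
    have hex : ∃ P Q, P ∉ IZ T ∧ Q ∉ IZ T ∧ P * Q ∈ IZ T := by
      by_contra hcon
      push Not at hcon
      apply hprime
      refine ⟨hnotop, fun {P Q} hPQ => ?_⟩
      by_contra h
      push Not at h
      exact hcon P Q h.1 h.2 hPQ
    obtain ⟨P, Q, hP, hQ, hPQ⟩ := hex
    have hstr : ∀ P : MvPolynomial ι ℝ, P ∉ IZ T → Strat L φ (part L φ T P) := by
      intro P hP
      rw [mem_IZ] at hP
      push Not at hP
      obtain ⟨v, hv, hPv⟩ := hP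
      refine ih (IZ (part L φ T P)) ?_ (part L φ T P) rfl (part_zclosed hcl P)
        (part_inv hA hinv P)
      rw [← hT]
      refine IZ_lt (part_zclosed hcl P) (fun w hw => hw.1) hv fun hb => hPv ?_
      have := hb.2 1 (Gen L).one_mem
      rwa [hA.one] at this
    have hunion : T = part L φ T P ∪ part L φ T Q := by
      ext v
      constructor
      · intro hv
        have h1 : ∀ g ∈ Gen L, ev2 g v (aeval φ P * aeval φ Q) = 0 := by
          intro g hg
          rw [← map_mul, ev2_aeval]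
          exact hPQ _ (hinv g hg v hv)
        rcases split_of_mul_mem h1 with h2 | h2
        · exact Or.inl ⟨hv, fun h hh => by rw [← ev2_aeval]; exact h2 h hh⟩
        · exact Or.inr ⟨hv, fun h hh => by rw [← ev2_aeval]; exact h2 h hh⟩
      · rintro (hv | hv)
        · exact hv.1
        · exact hv.1
    rw [hunion]
    exact (hstr P hP).union (hstr Q hQ)

/-- The whole space has a finite stratification. -/
theorem strat_univ {L : Submodule ℝ (Mt I)} (hL : IsAlg L) {φ : ι → Ry I ι} (hA : Act L φ) :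
    Strat L φ Set.univ :=
  exists_strat hL hA (IZ Set.univ) Set.univ rfl (fun v _ => Set.mem_univ v)
    (fun _ _ _ _ => Set.mem_univ _)

end Pool.Agent.Lib.MP_aa9b81_an.Z
end

section

/-!
The action on frames: block matrices.
-/

set_option autoImplicit false
set_option linter.unusedSectionVars false

open Matrix Filter Topology MvPolynomial Module

namespace Pool.Agent.Lib.MP_aa9b81_an.Z

section Blocks

variable {I J : Type} [Fintype I] [DecidableEq I] [Fintype J] [DecidableEq J]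

/-- Block diagonal matrices. -/
def bd (S : Mt I) (B : Mt J) : Mt (I ⊕ J) := Matrix.fromBlocks S 0 0 B

lemma bd_mul (S S' : Mt I) (B B' : Mt J) : bd S B * bd S' B' = bd (S * S') (B * B') := by
  rw [bd, bd, bd, Matrix.fromBlocks_multiply]
  simp

lemma bd_one : bd (1 : Mt I) (1 : Mt J) = 1 := Matrix.fromBlocks_one

lemma bd_neg (S : Mt I) (B : Mt J) : bd (-S) (-B) = -bd S B := by
  rw [bd, bd, Matrix.fromBlocks_neg]
  simp

lemma bd_smul (c : ℝ) (S : Mt I) (B : Mt J) : bd (c • S) (c • B) = c • bd S B := by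
  rw [bd, bd, Matrix.fromBlocks_smul]
  simp

lemma continuous_bd : Continuous fun p : Mt I × Mt J => bd p.1 p.2 :=
  Continuous.matrix_fromBlocks continuous_fst continuous_const continuous_const continuous_snd

open scoped Matrix.Norms.Operator in
set_option backward.isDefEq.respectTransparency false in
lemma exp_bd (S : Mt I) (B : Mt J) :
    NormedSpace.exp (bd S B) = bd (NormedSpace.exp S) (NormedSpace.exp B) := by
  let f : (Mt I × Mt J) →+* Mt (I ⊕ J) :=
    { toFun := fun p => bd p.1 p.2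
      map_one' := bd_one
      map_mul' := fun p q => (bd_mul _ _ _ _).symm
      map_zero' := Matrix.fromBlocks_zero
      map_add' := fun p q => by
        change bd (p.1 + q.1) (p.2 + q.2) = bd p.1 p.2 + bd q.1 q.2
        rw [bd, bd, bd, Matrix.fromBlocks_add]
        simp }
  have hf : Continuous f := continuous_bd
  have h1 := NormedSpace.map_exp f hf (S, B)
  have h2 : (NormedSpace.exp (S, B) : Mt I × Mt J) = (NormedSpace.exp S, NormedSpace.exp B) := by
    apply Prod.ext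
    · exact Prod.fst_exp (S, B)
    · exact Prod.snd_exp (S, B)
  rw [h2] at h1
  exact h1.symm

/-- The Lie algebra of block diagonal matrices with lower block in `g`. -/
def LB (I : Type) [Fintype I] [DecidableEq I] (g : Submodule ℝ (Mt J)) :
    Submodule ℝ (Mt (I ⊕ J)) where
  carrier := {M | ∃ S : Mt I, ∃ B ∈ g, M = bd S B}
  zero_mem' := ⟨0, 0, g.zero_mem, Matrix.fromBlocks_zero.symm⟩
  add_mem' := by
    rintro _ _ ⟨S, B, hB, rfl⟩ ⟨S', B', hB', rfl⟩
    refine ⟨S + S', B + B', g.add_mem hB hB', ?_⟩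
    rw [bd, bd, bd, Matrix.fromBlocks_add]
    simp
  smul_mem' := by
    rintro c _ ⟨S, B, hB, rfl⟩
    exact ⟨c • S, c • B, g.smul_mem c hB, (bd_smul c S B).symm⟩

lemma mem_LB {g : Submodule ℝ (Mt J)} {M : Mt (I ⊕ J)} :
    M ∈ LB I g ↔ ∃ S : Mt I, ∃ B ∈ g, M = bd S B := Iff.rfl

lemma bd_mem_Gen {g : Submodule ℝ (Mt J)} {h : Mt J} (hh : h ∈ Gen g) (S : Mt I) :
    bd (NormedSpace.exp S) h ∈ Gen (LB I g) := by
  have h1 : bd (NormedSpace.exp S) (1 : Mt J) ∈ Gen (LB I g) := by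
    have h2 := exp_mem_Gen (L := LB I g) (A := bd S 0) ⟨S, 0, g.zero_mem, rfl⟩
    rwa [exp_bd, NormedSpace.exp_zero] at h2
  have h2 : bd (1 : Mt I) h ∈ Gen (LB I g) := by
    induction hh using Submonoid.closure_induction with
    | mem h hh =>
      obtain ⟨B, hB, rfl⟩ := hh
      have h2 := exp_mem_Gen (L := LB I g) (A := bd 0 B) ⟨0, B, hB, rfl⟩
      rwa [exp_bd, NormedSpace.exp_zero] at h2
    | one =>
      rw [bd_one]
      exact (Gen _).one_mem
    | mul a b _ _ ha hb =>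
      have h3 := (Gen (LB I g)).mul_mem ha hb
      rwa [bd_mul, one_mul] at h3
  have h3 := (Gen (LB I g)).mul_mem h1 h2
  rwa [bd_mul, mul_one, one_mul] at h3

lemma exists_of_mem_Gen {g : Submodule ℝ (Mt J)} {M : Mt (I ⊕ J)} (hM : M ∈ Gen (LB I g)) :
    ∃ S : Mt I, ∃ h ∈ Gen g, M = bd S h := by
  induction hM using Submonoid.closure_induction with
  | mem M hM =>
    obtain ⟨_, ⟨S, B, hB, rfl⟩, rfl⟩ := hM
    exact ⟨NormedSpace.exp S, NormedSpace.exp B, exp_mem_Gen hB, exp_bd S B⟩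
  | one => exact ⟨1, 1, (Gen g).one_mem, bd_one.symm⟩
  | mul a b _ _ ha hb =>
    obtain ⟨S, h, hh, rfl⟩ := ha
    obtain ⟨S', h', hh', rfl⟩ := hb
    exact ⟨S * S', h * h', (Gen g).mul_mem hh hh', bd_mul _ _ _ _⟩

open scoped Matrix.Norms.Operator in
set_option backward.isDefEq.respectTransparency false in
lemma entry_eq_zero {A : Mt I} {i j : I}
    (h : ∀ t : ℝ, (NormedSpace.exp (t • A) : Mt I) i j = 0) : A i j = 0 := by
  have h1 := hasDerivAt_exp_entry A 0 i j
  have h2 : (fun s : ℝ => (NormedSpace.exp (s • A) : Mt I) i j) = fun _ => 0 := funext h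
  rw [h2] at h1
  have h3 := h1.unique (hasDerivAt_const (0 : ℝ) (0 : ℝ))
  rw [zero_smul, NormedSpace.exp_zero, one_mul] at h3
  exact h3

lemma isAlg_LB {g : Submodule ℝ (Mt J)} (hg : IsAlg g) : IsAlg (LB I g) := by
  intro A hA
  have hoff : ∀ i j, A (Sum.inl i) (Sum.inr j) = 0 := by
    intro i j
    apply entry_eq_zero
    intro t
    have h1 := hA (X (Sum.inl i, Sum.inr j)) (fun M hM => by
      obtain ⟨S, h, _, rfl⟩ := exists_of_mem_Gen hM
      rw [ev_X]
      rfl) t
    rwa [ev_X] at h1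
  have hoff' : ∀ i j, A (Sum.inr i) (Sum.inl j) = 0 := by
    intro i j
    apply entry_eq_zero
    intro t
    have h1 := hA (X (Sum.inr i, Sum.inl j)) (fun M hM => by
      obtain ⟨S, h, _, rfl⟩ := exists_of_mem_Gen hM
      rw [ev_X]
      rfl) t
    rwa [ev_X] at h1
  have hAbd : A = bd A.toBlocks₁₁ A.toBlocks₂₂ := by
    conv_lhs => rw [← Matrix.fromBlocks_toBlocks A]
    rw [bd]
    congr 1
    · ext i j
      exact hoff i j
    · ext i j
      exact hoff' i j
  refine ⟨A.toBlocks₁₁, A.toBlocks₂₂, ?_, hAbd⟩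
  apply hg
  intro P hP t
  let Q : Rx (I ⊕ J) := rename (fun p : J × J => (Sum.inr p.1, Sum.inr p.2)) P
  have hQ : ∀ (S : Mt I) (h : Mt J), ev (bd S h) Q = ev h P := by
    intro S h
    rw [ev, aeval_rename]
    rfl
  have h1 := hA Q (fun M hM => by
    obtain ⟨S, h, hh, rfl⟩ := exists_of_mem_Gen hM
    rw [hQ]
    exact hP h hh) t
  rw [hAbd, ← bd_smul, exp_bd, hQ] at h1
  exact h1

end Blocks

section Frames

variable (k n : ℕ)

/-- Index set of the group. -/
abbrev IK : Type := Fin k ⊕ Fin n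

/-- Index set of the frames. -/
abbrev JK : Type := Fin k × (Fin n × Fin n)

/-- The generic matrix. -/
noncomputable def gX : Matrix (Fin n) (Fin n) (Ry (IK k n) (JK k n)) :=
  fun p q => X (Sum.inl (Sum.inr p, Sum.inr q))

/-- The generic frame. -/
noncomputable def gB (l : Fin k) : Matrix (Fin n) (Fin n) (Ry (IK k n) (JK k n)) :=
  fun p q => X (Sum.inr (l, p, q))

/-- The polynomials defining the action. -/
noncomputable def fk : JK k n → Ry (IK k n) (JK k n) := fun a =>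
  ∑ l : Fin k, X (Sum.inl (Sum.inl a.1, Sum.inl l)) *
    (gX k n * gB k n l * (gX k n).adjugate) a.2.1 a.2.2

variable {k n}

/-- The frame with given coordinates. -/
def mt (v : JK k n → ℝ) (l : Fin k) : Mt (Fin n) := fun p q => v (l, p, q)

/-- The coordinates of a frame. -/
def co (b : Fin k → Mt (Fin n)) : JK k n → ℝ := fun a => b a.1 a.2.1 a.2.2

lemma mt_co (b : Fin k → Mt (Fin n)) : mt (co b) = b := rfl

lemma co_mt (v : JK k n → ℝ) : co (mt v) = v := rfl

lemma ac_fk (S : Mt (Fin k)) (h : Mt (Fin n)) (v : JK k n → ℝ) :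
    ac (fk k n) (bd S h) v = co (fun i => ∑ l, S i l • (h * mt v l * h.adjugate)) := by
  have hg : (gX k n).map (ev2 (bd S h) v) = h := by
    ext p q
    rw [Matrix.map_apply, gX]
    exact ev2_inl _ _ _
  have hB : ∀ l, (gB k n l).map (ev2 (bd S h) v) = mt v l := by
    intro l
    ext p q
    rw [Matrix.map_apply, gB]
    exact ev2_inr _ _ _
  have hadj : ((gX k n).adjugate).map (ev2 (bd S h) v) = h.adjugate := by
    have h1 := (ev2 (bd S h) v).toRingHom.map_adjugate (gX k n)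
    have h2 : (ev2 (bd S h) v).toRingHom.mapMatrix (gX k n) = h := hg
    rw [h2] at h1
    exact h1
  funext a
  rw [ac, fk, map_sum, co, Matrix.sum_apply]
  refine Finset.sum_congr rfl fun l _ => ?_
  rw [map_mul, ev2_inl]
  have h3 : ev2 (bd S h) v ((gX k n * gB k n l * (gX k n).adjugate) a.2.1 a.2.2) =
      (h * mt v l * h.adjugate) a.2.1 a.2.2 := by
    have h4 : (gX k n * gB k n l * (gX k n).adjugate).map (ev2 (bd S h) v) =
        h * mt v l * h.adjugate := by
      rw [Matrix.map_mul, Matrix.map_mul, hg, hB, hadj]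
    rw [← h4, Matrix.map_apply]
  rw [h3, Matrix.smul_apply, smul_eq_mul]
  rfl

lemma act_fk {g : Submodule ℝ (Mt (Fin n))}
    (hconj : ∀ A ∈ g, ∀ B ∈ g, NormedSpace.exp (-B) * A * NormedSpace.exp B ∈ g) :
    Act (LB (Fin k) g) (fk k n) where
  one := fun v => by
    rw [← bd_one, ac_fk]
    have h1 : (fun i => ∑ l, (1 : Mt (Fin k)) i l • ((1 : Mt (Fin n)) * mt v l *
        (1 : Mt (Fin n)).adjugate)) = mt v := by
      funext i
      rw [Finset.sum_eq_single i]
      · rw [Matrix.one_apply_eq, one_smul, Matrix.adjugate_one, one_mul, mul_one]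
      · intro l _ hl
        rw [Matrix.one_apply_ne hl.symm, zero_smul]
      · intro h
        exact absurd (Finset.mem_univ i) h
    rw [h1, co_mt]
  mul := by
    intro M hM M' hM' v
    obtain ⟨S, h, -, rfl⟩ := exists_of_mem_Gen hM
    obtain ⟨S', h', -, rfl⟩ := exists_of_mem_Gen hM'
    rw [bd_mul, ac_fk, ac_fk, ac_fk, mt_co]
    congr 1
    funext i
    have h1 : ∀ l, S i l • (h * (∑ l', S' l l' • (h' * mt v l' * h'.adjugate)) * h.adjugate) =
        ∑ l', (S i l * S' l l') • (h * h' * mt v l' * (h * h').adjugate) := by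
      intro l
      rw [Finset.mul_sum, Finset.sum_mul, Finset.smul_sum]
      refine Finset.sum_congr rfl fun l' _ => ?_
      rw [Matrix.adjugate_mul_distrib, mul_smul_comm, smul_mul_assoc, smul_smul]
      congr 1
      noncomm_ring
    rw [Finset.sum_congr rfl fun l _ => h1 l, Finset.sum_comm]
    refine Finset.sum_congr rfl fun l' _ => ?_
    rw [Matrix.mul_apply, Finset.sum_smul]
  conj := by
    rintro _ ⟨S, A, hA, rfl⟩ _ ⟨S', B, hB, rfl⟩
    refine ⟨NormedSpace.exp (-S') * S * NormedSpace.exp S',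
      NormedSpace.exp (-B) * A * NormedSpace.exp B, hconj A hA B hB, ?_⟩
    rw [← bd_neg, exp_bd, exp_bd, bd_mul, bd_mul]

end Frames

end Pool.Agent.Lib.MP_aa9b81_an.Z
end
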