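import Mathlib
import Pool.Agent.Lib.MP_aa9b81_an.Zar13

section

/-!
Stratification of spaces with a group action by the conjugacy classes of isotropy algebras:
transfer from the space of frames.
-/

set_option autoImplicit false
set_option linter.unusedSectionVars false

open Matrix Filter Topology MvPolynomial Module

namespace Pool.Agent.Lib.MP_aa9b81_an.Z

open Pool.Agent.Lib.MP_aa9b81_an.N

variable {n : ℕ} [NeZero n]
variable {G : Type*} [Group G] [TopologicalSpace G] [IsTopologicalGroup G]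
variable {X : Type*} [TopologicalSpace X] [T2Space X] [MulAction G X] [ContinuousSMul G X]
variable {ρ : G →* SLn n} (hρ : IsClosedEmbedding ρ)

lemma isClosed_ge (k : ℕ) : IsClosed {y : X | k ≤ finrank ℝ (iso hρ y)} := by
  rw [← closure_subset_iff_isClosed]
  intro x hx
  refine (cf_iso (X := X) hρ).finrank_ge (Set.mem_univ x) ?_
  have h1 : {y : X | y ∈ Set.univ ∧ k ≤ finrank ℝ (iso hρ y)} =
      {y : X | k ≤ finrank ℝ (iso hρ y)} := by
    ext y
    simp
  rw [h1]
  exact hx

/-- The subset of `X` given by a set of frames. -/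
def TX (k : ℕ) (T : Set (JK k n → ℝ)) : Set X :=
  {y | k + 1 ≤ finrank ℝ (iso hρ y)} ∪ {y | finrank ℝ (iso hρ y) = k ∧ co (fr hρ k y) ∈ T}

lemma co_nf_mem (hgen : ∀ g : G, (ρ g : MM n) ∈ Gen (gal hρ)) {k : ℕ}
    {T : Set (JK k n → ℝ)} (hT : Sat (LB (Fin k) (gal hρ)) (fk k n) T) {y₀ y : X}
    (hy : finrank ℝ (iso hρ y) = k)
    (hs : Submodule.span ℝ (Set.range (nf hρ k y₀ y)) = iso hρ y) :
    co (nf hρ k y₀ y) ∈ T ↔ co (fr hρ k y) ∈ T := by
  have h1 : Submodule.span ℝ (Set.range (nf hρ k y₀ y)) =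
      cjs (ρ 1) (Submodule.span ℝ (Set.range (fr hρ k y))) := by
    rw [hs, span_fr hρ hy, map_one, cjs_one]
  exact ⟨fun h => hT _ _ h (ZC_of_span' hρ hgen h1), fun h => hT _ _ h (ZC_of_span hρ hgen h1)⟩

lemma isClosed_TX (hgen : ∀ g : G, (ρ g : MM n) ∈ Gen (gal hρ)) {k : ℕ}
    {T : Set (JK k n → ℝ)} (hT : Sat (LB (Fin k) (gal hρ)) (fk k n) T) (hTc : IsClosed T) :
    IsClosed (TX (X := X) hρ k T) := by
  rw [← closure_subset_iff_isClosed]
  intro y₀ hy₀
  rw [TX, closure_union, (isClosed_ge (X := X) hρ (k + 1)).closure_eq] at hy₀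
  rcases hy₀ with hy₀ | hy₀
  · exact Or.inl hy₀
  by_cases hk : k + 1 ≤ finrank ℝ (iso hρ y₀)
  · exact Or.inl hk
  have h1 : k ≤ finrank ℝ (iso hρ y₀) := by
    have h2 := closure_mono (show {y : X | finrank ℝ (iso hρ y) = k ∧ co (fr hρ k y) ∈ T} ⊆
      {y : X | k ≤ finrank ℝ (iso hρ y)} from fun y hy => hy.1.ge) hy₀
    rwa [(isClosed_ge (X := X) hρ k).closure_eq] at h2
  have h2 : finrank ℝ (iso hρ y₀) = k := by omega
  refine Or.inr ⟨h2, ?_⟩
  set S : Set X := {y : X | finrank ℝ (iso hρ y) = k} with hS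
  set P : Set X := {y : X | finrank ℝ (iso hρ y) = k ∧ co (fr hρ k y) ∈ T} with hP
  have hPS : P ⊆ S := fun y hy => hy.1
  have hne : (𝓝[P] y₀).NeBot := mem_closure_iff_nhdsWithin_neBot.1 hy₀
  have hle : 𝓝[P] y₀ ≤ 𝓝[S] y₀ := nhdsWithin_mono _ hPS
  have h3 : Tendsto (fun y => co (nf hρ k y₀ y)) (𝓝[P] y₀) (𝓝 (co (fr hρ k y₀))) :=
    (continuous_co.tendsto _).comp ((tendsto_nf hρ (S := S) (fun y hy => hy) h2).mono_left hle)
  refine hTc.mem_of_tendsto h3 ?_
  filter_upwards [hle (span_nf hρ (S := S) (fun y hy => hy) h2), self_mem_nhdsWithin] with y hy hyP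
  exact (co_nf_mem hρ hgen hT hyP.1 hy).2 hyP.2

lemma satX_TX (hgen : ∀ g : G, (ρ g : MM n) ∈ Gen (gal hρ)) {k : ℕ}
    {T : Set (JK k n → ℝ)} (hT : Sat (LB (Fin k) (gal hρ)) (fk k n) T) :
    SatX hρ (TX (X := X) hρ k T) := by
  rintro y y' (hy | hy) ⟨g, hg⟩
  · left
    change k + 1 ≤ finrank ℝ (iso hρ y')
    rw [hg, finrank_cjs]
    exact hy
  · right
    have h1 : finrank ℝ (iso hρ y') = k := by rw [hg, finrank_cjs, hy.1]
    refine ⟨h1, hT _ _ hy.2 (ZC_of_span hρ hgen (g := g) ?_)⟩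
    rw [span_fr hρ h1, span_fr hρ hy.1, hg]

lemma TX_mono {k : ℕ} {B T : Set (JK k n → ℝ)} (h : B ⊆ T) :
    TX (X := X) hρ k B ⊆ TX hρ k T := by
  rintro y (hy | hy)
  · exact Or.inl hy
  · exact Or.inr ⟨hy.1, h hy.2⟩

lemma TX_diff {k : ℕ} {B T : Set (JK k n → ℝ)} :
    TX (X := X) hρ k T \ TX hρ k B =
      {y | finrank ℝ (iso hρ y) = k ∧ co (fr hρ k y) ∈ T \ B} := by
  ext y
  constructor
  · rintro ⟨hy | hy, hn⟩
    · exact absurd (Or.inl hy) hn
    · exact ⟨hy.1, hy.2, fun h => hn (Or.inr ⟨hy.1, h⟩)⟩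
  · rintro ⟨h1, h2, h3⟩
    refine ⟨Or.inr ⟨h1, h2⟩, ?_⟩
    rintro (h | h)
    · have h4 : k + 1 ≤ finrank ℝ (iso hρ y) := h
      omega
    · exact h3 h.2

/-- Exponentials of the block matrices act on the span. -/
lemma span_of_ac {k : ℕ} {b b' : Fin k → MM n} {S : Mt (Fin k)} {g : SLn n}
    (h : ac (fk k n) (bd S (g : MM n)) (co b) = co b') :
    Submodule.span ℝ (Set.range b') ≤ cjs g (Submodule.span ℝ (Set.range b)) := by
  rw [ac_fk, mt_co] at h
  have h1 : (fun i => ∑ l, S i l • ((g : MM n) * b l * (g : MM n).adjugate)) = b' := by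
    have h2 := congrArg (fun v => mt (k := k) (n := n) v) h
    exact h2
  rw [← span_conj, Submodule.span_le]
  rintro _ ⟨i, rfl⟩
  rw [← h1]
  exact Submodule.sum_mem _ fun l _ => Submodule.smul_mem _ _ (Submodule.subset_span ⟨l, rfl⟩)

lemma layerX_TX (hgen : ∀ g : G, (ρ g : MM n) ∈ Gen (gal hρ)) {k : ℕ}
    {B T : Set (JK k n → ℝ)} (hT : Sat (LB (Fin k) (gal hρ)) (fk k n) T)
    (hB : Sat (LB (Fin k) (gal hρ)) (fk k n) B)
    (hL : Layer (LB (Fin k) (gal hρ)) (fk k n) (T \ B)) :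
    LayerX hρ (TX (X := X) hρ k T \ TX hρ k B) := by
  rw [TX_diff]
  obtain ⟨κ, iκ, q, hq1, hq2, hq3⟩ := hL
  set S : Set X := {y : X | finrank ℝ (iso hρ y) = k} with hS
  set P : Set X := {y : X | finrank ℝ (iso hρ y) = k ∧ co (fr hρ k y) ∈ T \ B} with hP
  have hPS : P ⊆ S := fun y hy => hy.1
  have hkey : ∀ y₀ ∈ P, ∀ y ∈ P, Submodule.span ℝ (Set.range (nf hρ k y₀ y)) = iso hρ y →
      co (nf hρ k y₀ y) ∈ T \ B ∧ q (co (nf hρ k y₀ y)) = q (co (fr hρ k y)) := by
    intro y₀ hy₀ y hy hs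
    refine ⟨⟨(co_nf_mem hρ hgen hT hy.1 hs).2 hy.2.1, fun h => hy.2.2
      ((co_nf_mem hρ hgen hB hy.1 hs).1 h)⟩, ?_⟩
    have h1 : Submodule.span ℝ (Set.range (nf hρ k y₀ y)) =
        cjs (ρ 1) (Submodule.span ℝ (Set.range (fr hρ k y))) := by
      rw [hs, span_fr hρ hy.1, map_one, cjs_one]
    exact hq2 _ _ (ZC_of_span' hρ hgen h1) (ZC_of_span hρ hgen h1)
  refine ⟨κ, iκ, fun y => q (co (fr hρ k y)), ?_, ?_, ?_⟩
  · intro y₀ hy₀
    have hle : 𝓝[P] y₀ ≤ 𝓝[S] y₀ := nhdsWithin_mono _ hPS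
    have h3 : Tendsto (fun y => co (nf hρ k y₀ y)) (𝓝[P] y₀) (𝓝 (co (fr hρ k y₀))) :=
      (continuous_co.tendsto _).comp
        ((tendsto_nf hρ (S := S) (fun y hy => hy) hy₀.1).mono_left hle)
    have h4 := hle (span_nf hρ (S := S) (fun y hy => hy) hy₀.1)
    have h5 : Tendsto (fun y => co (nf hρ k y₀ y)) (𝓝[P] y₀) (𝓝[T \ B] (co (fr hρ k y₀))) := by
      refine tendsto_nhdsWithin_iff.2 ⟨h3, ?_⟩
      filter_upwards [h4, self_mem_nhdsWithin] with y hy hyP
      exact (hkey y₀ hy₀ y hyP hy).1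
    have h6 : Tendsto (fun y => q (co (nf hρ k y₀ y))) (𝓝[P] y₀) (𝓝 (q (co (fr hρ k y₀)))) :=
      (hq1 _ hy₀.2).tendsto.comp h5
    refine h6.congr' ?_
    filter_upwards [h4, self_mem_nhdsWithin] with y hy hyP
    exact (hkey y₀ hy₀ y hyP hy).2
  · rintro y y' ⟨g, hg⟩
    by_cases hy : finrank ℝ (iso hρ y) = k
    · have hy' : finrank ℝ (iso hρ y') = k := by rw [hg, finrank_cjs, hy]
      have h1 : Submodule.span ℝ (Set.range (fr hρ k y')) =
          cjs (ρ g) (Submodule.span ℝ (Set.range (fr hρ k y))) := by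
        rw [span_fr hρ hy', span_fr hρ hy, hg]
      exact hq2 _ _ (ZC_of_span hρ hgen h1) (ZC_of_span' hρ hgen h1)
    · have hy' : finrank ℝ (iso hρ y') ≠ k := by rwa [hg, finrank_cjs]
      have h1 : fr hρ k y = 0 := by rw [fr, dif_neg hy]
      have h2 : fr hρ k y' = 0 := by rw [fr, dif_neg hy']
      change q (co (fr hρ k y)) = q (co (fr hρ k y'))
      rw [h1, h2]
  · intro x _ y₀ hy₀ N hN
    obtain ⟨hy₀P, hy₀q⟩ := hy₀
    obtain ⟨U, hU, hUN⟩ := small_exp hρ hN
    have hU' : (fun M : Mt (IK k n) => (M.toBlocks₂₂ : MM n)) ⁻¹' U ∈ 𝓝 (0 : Mt (IK k n)) := by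
      have hc : Continuous fun M : Mt (IK k n) => (M.toBlocks₂₂ : MM n) := by
        refine continuous_matrix fun i j => ?_
        exact continuous_apply_apply _ _
      apply hc.continuousAt.preimage_mem_nhds
      exact hU
    have h1 := hq3 (co (fr hρ k y₀)) hy₀P.2 _ hU'
    set P' : Set X := {y | y ∈ P ∧ q (co (fr hρ k y)) = q (co (fr hρ k x))} with hP'
    have hle : 𝓝[P'] y₀ ≤ 𝓝[S] y₀ := nhdsWithin_mono _ fun y hy => hPS hy.1
    have h3 : Tendsto (fun y => co (nf hρ k y₀ y)) (𝓝[P'] y₀) (𝓝 (co (fr hρ k y₀))) :=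
      (continuous_co.tendsto _).comp
        ((tendsto_nf hρ (S := S) (fun y hy => hy) hy₀P.1).mono_left hle)
    have h4 := hle (span_nf hρ (S := S) (fun y hy => hy) hy₀P.1)
    filter_upwards [h4, h3.eventually h1, self_mem_nhdsWithin] with y hy hy1 hyP
    have h5 := hkey y₀ hy₀P y hyP.1 hy
    obtain ⟨A, hA, hAU, hAe⟩ := hy1 h5.1 (h5.2.trans (hyP.2.trans hy₀q.symm))
    obtain ⟨S', C, hC, rfl⟩ := hA
    obtain ⟨g, hg⟩ := (mem_gal hρ).1 hC 1
    rw [one_smul] at hg
    have hCU : C ∈ U := by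
      have h6 : (bd S' C).toBlocks₂₂ = C := by rw [bd, Matrix.toBlocks_fromBlocks₂₂]
      rw [Set.mem_preimage, h6] at hAU
      exact hAU
    refine ⟨g, hUN C hCU g hg, ?_⟩
    rw [exp_bd, ← hg] at hAe
    have h6 := span_of_ac hAe
    rw [hy, span_fr hρ hy₀P.1] at h6
    apply Submodule.eq_of_le_of_finrank_eq h6
    rw [finrank_cjs, hy₀P.1, hyP.1.1]

lemma stratX_TX (hgen : ∀ g : G, (ρ g : MM n) ∈ Gen (gal hρ)) {k : ℕ}
    (hD : StratX hρ {y : X | k + 1 ≤ finrank ℝ (iso hρ y)}) {T : Set (JK k n → ℝ)}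
    (hT : Strat (LB (Fin k) (gal hρ)) (fk k n) T) : StratX hρ (TX (X := X) hρ k T) := by
  induction hT with
  | empty =>
    have h1 : TX (X := X) hρ k ∅ = {y : X | k + 1 ≤ finrank ℝ (iso hρ y)} := by
      rw [TX]
      simp
    rw [h1]
    exact hD
  | step B T hB h1 h2 h3 h4 ih =>
    exact StratX.step (TX hρ k B) (TX hρ k T) ih (isClosed_TX hρ hgen h2 h1)
      (satX_TX hρ hgen h2) (TX_mono hρ h3) (layerX_TX hρ hgen h2 hB.sat h4)

theorem stratX_univ (hgen : ∀ g : G, (ρ g : MM n) ∈ Gen (gal hρ)) (hg : IsAlg (gal hρ)) :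
    StratX hρ (Set.univ : Set X) := by
  have h1 : ∀ j : ℕ, j ≤ n * n + 1 →
      StratX hρ {y : X | n * n + 1 - j ≤ finrank ℝ (iso hρ y)} := by
    intro j
    induction j with
    | zero =>
      intro _
      have h2 : {y : X | n * n + 1 - 0 ≤ finrank ℝ (iso hρ y)} = ∅ := by
        ext y
        simp only [Nat.sub_zero, Set.mem_ofPred_eq, Set.mem_empty_iff_false, iff_false, not_le]
        have h3 := Submodule.finrank_le (iso hρ y)
        have h4 : finrank ℝ (MM n) = n * n := by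
          rw [Module.finrank_matrix, Fintype.card_fin, Module.finrank_self, mul_one]
        rw [h4] at h3
        omega
      rw [h2]
      exact StratX.empty
    | succ j ih =>
      intro hj
      have h2 := ih (by omega)
      obtain ⟨k, hk⟩ : ∃ k, n * n + 1 - j = k + 1 := ⟨n * n + 1 - (j + 1), by omega⟩
      have hk' : n * n + 1 - (j + 1) = k := by omega
      rw [hk] at h2
      rw [hk']
      have h3 := stratX_TX hρ hgen h2
        (strat_univ (isAlg_LB (I := Fin k) hg) (act_fk (k := k) (conj_gal hρ)))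
      have h4 : TX (X := X) hρ k Set.univ = {y : X | k ≤ finrank ℝ (iso hρ y)} := by
        ext y
        simp only [TX, Set.mem_union, Set.mem_ofPred_eq, Set.mem_univ, and_true]
        omega
      rwa [h4] at h3
  have h2 := h1 (n * n + 1) le_rfl
  have h3 : {y : X | n * n + 1 - (n * n + 1) ≤ finrank ℝ (iso hρ y)} = Set.univ := by
    ext y
    simp
  rwa [h3] at h2

end Pool.Agent.Lib.MP_aa9b81_an.Z
end

section

/-!
The exponentials of the Lie algebra generate a connected closed linear group; stratifications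
as sequences.
-/

set_option autoImplicit false
set_option linter.unusedSectionVars false
set_option maxHeartbeats 4000000

open Matrix Filter Topology MvPolynomial Module

namespace Pool.Agent.Lib.MP_aa9b81_an.Z

open Pool.Agent.Lib.MP_aa9b81_an.N

section ClosedSubgroup

variable {n : ℕ} [NeZero n]

open scoped Matrix.Norms.Operator

set_option backward.isDefEq.respectTransparency false in
/-- The product of the exponentials of the components for a decomposition. -/
lemma strict_prod (P Q : MM n →L[ℝ] MM n) (hPQ : P + Q = 1) :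
    HasStrictFDerivAt (fun x : MM n => NormedSpace.exp (P x) * NormedSpace.exp (Q x))
      ((ContinuousLinearEquiv.refl ℝ (MM n) : MM n ≃L[ℝ] MM n) : MM n →L[ℝ] MM n) 0 := by
  have h0 : HasStrictFDerivAt (fun A : MM n => NormedSpace.exp A) (1 : MM n →L[ℝ] MM n) 0 :=
    hasStrictFDerivAt_exp_zero
  have hP : HasStrictFDerivAt (fun x : MM n => NormedSpace.exp (P x)) P 0 := by
    have h1 : HasStrictFDerivAt (fun A : MM n => NormedSpace.exp A) (1 : MM n →L[ℝ] MM n) (P 0) := by
      rw [map_zero]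
      exact h0
    have h2 := h1.comp (0 : MM n) P.hasStrictFDerivAt
    exact h2
  have hQ : HasStrictFDerivAt (fun x : MM n => NormedSpace.exp (Q x)) Q 0 := by
    have h1 : HasStrictFDerivAt (fun A : MM n => NormedSpace.exp A) (1 : MM n →L[ℝ] MM n) (Q 0) := by
      rw [map_zero]
      exact h0
    have h2 := h1.comp (0 : MM n) Q.hasStrictFDerivAt
    exact h2
  have h3 := hP.mul' hQ
  refine h3.congr_fderiv ?_
  ext1 x
  have h4 : P x + Q x = x := by
    rw [← _root_.add_apply, hPQ]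
    rfl
  simp only [map_zero, NormedSpace.exp_zero, _root_.add_apply,
    one_smul, MulOpposite.op_one]
  rw [add_comm]
  exact h4

set_option backward.isDefEq.respectTransparency false in
/-- Difference quotients of the exponential along a family tending to zero. -/
lemma tendsto_quot_exp {ι : Type*} {l : Filter ι} {b : ι → MM n} (hb : Tendsto b l (𝓝 0))
    {C : MM n} (hC : Tendsto (fun i => ‖b i‖⁻¹ • b i) l (𝓝 C)) :
    Tendsto (fun i => ‖b i‖⁻¹ • (NormedSpace.exp (b i) - 1)) l (𝓝 C) := by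
  have h0 : HasFDerivAt (fun A : MM n => NormedSpace.exp A) (1 : MM n →L[ℝ] MM n) 0 :=
    hasFDerivAt_exp_zero
  rw [hasFDerivAt_iff_tendsto] at h0
  have h1 := h0.comp hb
  have h2 : Tendsto (fun i => ‖b i‖⁻¹ • (NormedSpace.exp (b i) - 1 - b i)) l (𝓝 0) := by
    rw [tendsto_zero_iff_norm_tendsto_zero]
    refine h1.congr fun i => ?_
    rw [norm_smul, norm_inv, norm_norm, Function.comp_apply, sub_zero, NormedSpace.exp_zero]
    rfl
  have h3 := h2.add hC
  rw [zero_add] at h3
  refine h3.congr fun i => ?_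
  rw [← smul_add, sub_add_cancel]

set_option backward.isDefEq.respectTransparency false in
/-- Near the identity a closed subgroup is generated by the exponentials of its Lie algebra. -/
theorem eventually_mem_Gen {H : Subgroup (SLn n)} (hH : IsClosed (H : Set (SLn n))) :
    ∀ᶠ h : SLn n in 𝓝[(H : Set (SLn n))] (1 : SLn n), (h : MM n) ∈ Gen (lieSub H hH) := by
  by_contra hcon
  set D : Set (SLn n) := {h : SLn n | ¬ (h : MM n) ∈ Gen (lieSub H hH)} with hD
  have hne : (𝓝[(H : Set (SLn n))] (1 : SLn n) ⊓ 𝓟 D).NeBot := by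
    rw [← frequently_mem_iff_neBot]
    intro h1
    apply hcon
    filter_upwards [h1] with h hh
    exact not_not.1 hh
  obtain ⟨U, hU⟩ := Ultrafilter.exists_le (𝓝[(H : Set (SLn n))] (1 : SLn n) ⊓ 𝓟 D)
  have hUH : (U : Filter (SLn n)) ≤ 𝓝[(H : Set (SLn n))] (1 : SLn n) := hU.trans inf_le_left
  have hUD : ∀ᶠ h in (U : Filter (SLn n)), h ∈ D := hU (mem_inf_of_right (mem_principal_self D))
  have hUH' : ∀ᶠ h in (U : Filter (SLn n)), h ∈ H := hUH self_mem_nhdsWithin
  have hval : Tendsto (fun h : SLn n => (h : MM n)) (U : Filter (SLn n)) (𝓝 1) := by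
    have hc : Continuous (fun h : SLn n => (h : MM n)) :=
      (Matrix.SpecialLinearGroup.isClosedEmbedding_val).continuous
    have h1 := (hc.tendsto 1).mono_left (hUH.trans nhdsWithin_le_nhds)
    rwa [Matrix.SpecialLinearGroup.coe_one] at h1
  obtain ⟨W, hW⟩ := (lieSub H hH).exists_isCompl
  set P : MM n →L[ℝ] MM n := LinearMap.toContinuousLinearMap ((lieSub H hH).projection W hW) with hP
  set Q : MM n →L[ℝ] MM n := LinearMap.toContinuousLinearMap (W.projection (lieSub H hH) hW.symm)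
    with hQ
  have hPQ : P + Q = 1 := by
    ext1 x
    exact Submodule.projection_add_projection_eq_self hW x
  have hPL : ∀ x, P x ∈ lieSub H hH := fun x => Submodule.projection_apply_mem hW x
  have hQW : ∀ x, Q x ∈ W := fun x => Submodule.projection_apply_mem hW.symm x
  have hs := strict_prod P Q hPQ
  have hf0 : NormedSpace.exp (P 0) * NormedSpace.exp (Q 0) = (1 : MM n) := by
    simp only [map_zero, NormedSpace.exp_zero, one_mul]
  set Ψ : MM n → MM n := hs.localInverse (fun x : MM n => NormedSpace.exp (P x) *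
    NormedSpace.exp (Q x)) _ 0 with hΨ
  have hr : ∀ᶠ y in 𝓝 (1 : MM n), NormedSpace.exp (P (Ψ y)) * NormedSpace.exp (Q (Ψ y)) = y := by
    have h1 := hs.eventually_right_inverse
    rw [hf0] at h1
    exact h1
  have ht : Tendsto Ψ (𝓝 (1 : MM n)) (𝓝 0) := by
    have h1 := hs.localInverse_tendsto
    rw [hf0] at h1
    exact h1
  set b : SLn n → MM n := fun h => Q (Ψ (h : MM n)) with hb
  have hb0 : Tendsto b (U : Filter (SLn n)) (𝓝 0) := by
    have h1 := (Q.continuous.tendsto 0).comp (ht.comp hval)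
    rwa [map_zero] at h1
  have hdec : ∀ᶠ h : SLn n in (U : Filter (SLn n)),
      NormedSpace.exp (P (Ψ (h : MM n))) * NormedSpace.exp (b h) = (h : MM n) := hval.eventually hr
  have hex : ∀ h : SLn n, ∃ g ∈ H, (g : MM n) = NormedSpace.exp (P (Ψ (h : MM n))) := by
    intro h
    obtain ⟨g, hg, hgA⟩ := (hPL (Ψ (h : MM n)) : P (Ψ (h : MM n)) ∈ lieSet (H : Set (SLn n))) 1
    rw [one_smul] at hgA
    exact ⟨g, hg, hgA⟩
  choose g hgH hg using hex
  classical
  set y : SLn n → SLn n := fun h => if h ∈ H then (g h)⁻¹ * h else 1 with hy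
  have hyH : ∀ h, y h ∈ H := by
    intro h
    by_cases hh : h ∈ H
    · simp only [hy, if_pos hh]
      exact H.mul_mem (H.inv_mem (hgH h)) hh
    · simp only [hy, if_neg hh]
      exact H.one_mem
  have hyb : ∀ᶠ h : SLn n in (U : Filter (SLn n)), (y h : MM n) = NormedSpace.exp (b h) := by
    filter_upwards [hdec, hUH'] with h h1 h2
    have h3 : (g h : MM n) * (y h : MM n) = (g h : MM n) * NormedSpace.exp (b h) := by
      rw [← Matrix.SpecialLinearGroup.coe_mul]
      simp only [hy, if_pos h2]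
      rw [mul_inv_cancel_left, ← h1, hg h]
    have h5 : IsUnit (g h : MM n) := by
      rw [Matrix.isUnit_iff_isUnit_det]
      simp
    exact h5.mul_left_cancel h3
  have hε0 : Tendsto (fun h => ‖b h‖) (U : Filter (SLn n)) (𝓝 0) := by
    have h1 := hb0.norm
    rwa [norm_zero] at h1
  have hεpos : ∀ᶠ h in (U : Filter (SLn n)), 0 < ‖b h‖ := by
    filter_upwards [hdec, hUD] with h h1 h2
    rw [norm_pos_iff]
    intro h3
    apply h2
    rw [← h1, h3, NormedSpace.exp_zero, mul_one]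
    exact exp_mem_Gen (hPL _)
  have hc : IsCompact (Metric.sphere (0 : MM n) 1) := isCompact_sphere _ _
  have hmem : Metric.sphere (0 : MM n) 1 ∈ U.map (fun h => ‖b h‖⁻¹ • b h) := by
    rw [Ultrafilter.mem_map]
    filter_upwards [hεpos] with h hh
    simp only [Set.mem_preimage, mem_sphere_zero_iff_norm]
    rw [norm_smul, norm_inv, norm_norm]
    exact inv_mul_cancel₀ hh.ne'
  obtain ⟨C, hC1, hC2⟩ := hc.ultrafilter_le_nhds' _ hmem
  have hC3 : Tendsto (fun h => ‖b h‖⁻¹ • b h) (U : Filter (SLn n)) (𝓝 C) := hC2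
  have hC4 := tendsto_quot_exp hb0 hC3
  have hCL : C ∈ lieSub H hH := by
    refine mem_lieSet_of_tendsto (l := (U : Filter (SLn n))) hH y hyH (fun h => ‖b h‖) C hε0
      hεpos ?_
    refine hC4.congr' ?_
    filter_upwards [hyb] with h hh
    rw [hh]
  have hCW : C ∈ W := by
    have hcl : IsClosed (W : Set (MM n)) := Submodule.closed_of_finiteDimensional _
    exact hcl.mem_of_tendsto hC3 (Eventually.of_forall fun h => W.smul_mem _ (hQW _))
  have hC0 : C = 0 := by
    have h1 : C ∈ lieSub H hH ⊓ W := ⟨hCL, hCW⟩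
    rw [hW.inf_eq_bot] at h1
    exact h1
  rw [hC0] at hC1
  simp at hC1

end ClosedSubgroup

section Connected

variable {n : ℕ} [NeZero n]

lemma exists_inv_Gen {L : Submodule ℝ (MM n)} {M : MM n} (hM : M ∈ Gen L) :
    ∃ M' ∈ Gen L, M * M' = 1 := by
  induction hM using Submonoid.closure_induction with
  | mem M hM =>
    obtain ⟨B, hB, rfl⟩ := hM
    exact ⟨NormedSpace.exp (-B), exp_mem_Gen (L.neg_mem hB), exp_mul_exp_neg B⟩
  | one => exact ⟨1, (Gen L).one_mem, one_mul 1⟩
  | mul a b _ _ ha hb =>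
    obtain ⟨a', ha', h1⟩ := ha
    obtain ⟨b', hb', h2⟩ := hb
    refine ⟨b' * a', (Gen L).mul_mem hb' ha', ?_⟩
    calc a * b * (b' * a') = a * (b * b') * a' := by noncomm_ring
      _ = 1 := by rw [h2, mul_one, h1]

variable {G : Type*} [Group G] [TopologicalSpace G] [IsTopologicalGroup G]
variable {ρ : G →* SLn n} (hρ : IsClosedEmbedding ρ)

/-- A connected closed linear group is generated by the exponentials of its Lie algebra. -/
theorem mem_Gen_gal [PreconnectedSpace G] (g : G) : (ρ g : MM n) ∈ Gen (gal hρ) := by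
  let S : Subgroup G :=
    { carrier := {g | (ρ g : MM n) ∈ Gen (gal hρ)}
      one_mem' := by
        change ((ρ 1 : SLn n) : MM n) ∈ Gen (gal hρ)
        rw [map_one, Matrix.SpecialLinearGroup.coe_one]
        exact (Gen _).one_mem
      mul_mem' := by
        intro a b ha hb
        change ((ρ (a * b) : SLn n) : MM n) ∈ Gen (gal hρ)
        rw [map_mul, Matrix.SpecialLinearGroup.coe_mul]
        exact (Gen _).mul_mem ha hb
      inv_mem' := by
        intro a ha
        change ((ρ a⁻¹ : SLn n) : MM n) ∈ Gen (gal hρ)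
        obtain ⟨M', hM', h1⟩ := exists_inv_Gen (show (ρ a : MM n) ∈ Gen (gal hρ) from ha)
        have h2 : (ρ a : MM n) * ((ρ a⁻¹ : SLn n) : MM n) = 1 := by
          rw [map_inv, coe_mul_coe_inv]
        have h5 : IsUnit (ρ a : MM n) := by
          rw [Matrix.isUnit_iff_isUnit_det]
          simp
        rw [h5.mul_left_cancel (h2.trans h1.symm)]
        exact hM' }
  have h1 : (S : Set G) ∈ 𝓝 (1 : G) := by
    have h2 := eventually_mem_Gen (isClosed_rng hρ)
    have h3 : Tendsto ρ (𝓝 (1 : G)) (𝓝[(ρ.range : Set (SLn n))] (1 : SLn n)) := by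
      refine tendsto_nhdsWithin_iff.2 ⟨?_, Eventually.of_forall fun g => ⟨g, rfl⟩⟩
      have h4 := hρ.continuous.tendsto (1 : G)
      rwa [map_one] at h4
    exact h3.eventually h2
  have h2 : IsOpen (S : Set G) := S.isOpen_of_mem_nhds h1
  have h3 : IsClopen (S : Set G) := ⟨S.isClosed_of_isOpen h2, h2⟩
  have h4 := h3.eq_univ ⟨1, S.one_mem⟩
  have h5 : g ∈ (S : Set G) := by
    rw [h4]
    exact Set.mem_univ g
  exact h5

end Connected

section Sequences

variable {n : ℕ} [NeZero n]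
variable {G : Type*} [Group G] [TopologicalSpace G] [IsTopologicalGroup G]
variable {X : Type*} [TopologicalSpace X] [T2Space X] [MulAction G X] [ContinuousSMul G X]
variable {ρ : G →* SLn n} (hρ : IsClosedEmbedding ρ)

/-- A stratification as a sequence. -/
theorem exists_seq {T : Set X} (hT : StratX hρ T) : ∃ (m : ℕ) (F : ℕ → Set X), F 0 = ∅ ∧
    F m = T ∧ (∀ i, IsClosed (F i)) ∧ (∀ i, SatX hρ (F i)) ∧ (∀ i, F i ⊆ F (i + 1)) ∧
    ∀ i < m, LayerX hρ (F (i + 1) \ F i) := by
  induction hT with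
  | empty =>
    exact ⟨0, fun _ => ∅, rfl, rfl, fun _ => isClosed_empty,
      fun _ v v' hv _ => absurd hv (Set.notMem_empty v), fun _ => subset_rfl,
      fun i hi => absurd hi (Nat.not_lt_zero i)⟩
  | step B T hB h1 h2 h3 h4 ih =>
    obtain ⟨m, F, f0, fm, f1, f2, f3, f4⟩ := ih
    refine ⟨m + 1, fun i => if i ≤ m then F i else T, ?_, ?_, ?_, ?_, ?_, ?_⟩
    · simp only [Nat.zero_le, if_true]
      exact f0
    · simp
    · intro i
      by_cases hi : i ≤ m
      · simp only [if_pos hi]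
        exact f1 i
      · simp only [if_neg hi]
        exact h1
    · intro i
      by_cases hi : i ≤ m
      · simp only [if_pos hi]
        exact f2 i
      · simp only [if_neg hi]
        exact h2
    · intro i
      rcases lt_trichotomy i m with hi | hi | hi
      · simp only [if_pos hi.le, if_pos (Nat.succ_le_of_lt hi)]
        exact f3 i
      · subst hi
        have : ¬ (i + 1 ≤ i) := by omega
        simp only [le_refl, if_true, if_neg this]
        rw [fm]
        exact h3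
      · have h5 : ¬ (i ≤ m) := by omega
        have h6 : ¬ (i + 1 ≤ m) := by omega
        simp only [if_neg h5, if_neg h6]
        exact subset_rfl
    · intro i hi
      rcases Nat.lt_succ_iff_lt_or_eq.1 hi with hi | hi
      · simp only [if_pos hi.le, if_pos (Nat.succ_le_of_lt hi)]
        exact f4 i hi
      · subst hi
        have : ¬ (i + 1 ≤ i) := by omega
        simp only [le_refl, if_true, if_neg this]
        rw [fm]
        exact h4

end Sequences

end Pool.Agent.Lib.MP_aa9b81_an.Z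
end
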