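import Pool.Agent.Lib.MP_aa9b81_an.Cb.Lm
import Pool.Agent.Lib.MP_aa9b81_an.Tv.Lcd
import Pool.Agent.Lib.MP_aa9b81_an.Tv.Mgrp

section

/-!
# Transversals: definitions used by the modules
-/

open scoped ENNReal Topology CompactlySupported
open Function Filter MeasureTheory

noncomputable section

set_option linter.unusedSectionVars false

namespace Pool.Agent.Lib.MP_aa9b81_an.Tv

open Cut Hs Cb

/-! ### Injectivity and surjectivity on `K₁` -/

section K

variable {G B Z : Type} [Group G] [TopologicalSpace G] [IsTopologicalGroup G]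
  [LocallyCompactSpace G] [SecondCountableTopology G] [T2Space G] [MeasurableSpace G] [BorelSpace G]
  [TopologicalSpace B] [T2Space B] [MulAction G B] [ContinuousSMul G B]
  [TopologicalSpace Z] [T2Space Z] [MulAction G Z] [ContinuousSMul G Z]

variable (G) in
/-- The map `p : Z → B` is injective on `K₁` of the crossed products. -/
def InjG (p : Z → B) : Prop :=
  ∀ u ∈ GL1 (cpG G ℕ B), pullU p u ∈ E1 (cpG G ℕ Z) → u ∈ E1 (cpG G ℕ B)

variable (G) in
/-- The map `p : Z → B` is surjective on `K₁` of the crossed products. -/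
def SurG (p : Z → B) : Prop :=
  ∀ v ∈ GL1 (cpG G ℕ Z), ∃ u ∈ GL1 (cpG G ℕ B), (pullU p u)⁻¹ * v ∈ E1 (cpG G ℕ Z)

variable (G B) in
/-- `K₁` of the crossed product is zero. -/
def VanG : Prop := GL1 (cpG G ℕ B) ≤ E1 (cpG G ℕ B)

end K

/-! ### Closed invariant subsets and their complements -/

/-- `C` is a closed invariant subset of `P` (by `c`) and `O` is its complement (by `o`). -/
structure ClOp (G : Type) {C P O : Type} [TopologicalSpace C] [TopologicalSpace P]
    [TopologicalSpace O] [SMul G C] [SMul G P] [SMul G O] (c : C → P) (o : O ↪ P) : Prop where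
  hc : Topology.IsClosedEmbedding c
  ec : ∀ (g : G) x, c (g • x) = g • c x
  ho : Topology.IsOpenEmbedding o
  eo : ∀ (g : G) x, o (g • x) = g • o x
  compl : Set.range o = (Set.range c)ᶜ

/-! ### Property A -/

/-- Property A of a locally compact group. -/
def PropAG (G : Type) [Group G] [TopologicalSpace G] [IsTopologicalGroup G]
    [LocallyCompactSpace G] [MeasurableSpace G] [BorelSpace G] : Prop :=
  ∀ (C : Set G) (ε : ℝ), IsCompact C → 0 < ε → ∃ φ : G × G → ℝ, Continuous φ ∧ (∀ p, 0 ≤ φ p) ∧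
    (∃ K : Set G, IsCompact K ∧ ∀ s t : G, s⁻¹ * t ∉ K → φ (s, t) = 0) ∧
    (∀ s, ∫ t, φ (s, t) ∂mu G = 1) ∧
    ∀ h ∈ C, ∀ s, ∫ t, |φ (s * h, t) - φ (s, t)| ∂mu G ≤ ε

/-! ### The sets `F` and `U` of a weight function -/

section FU

variable {G Y : Type} [Group G] [TopologicalSpace G] [TopologicalSpace Y] [MulAction G Y]
  {V : Set G}

/-- The family `D (f y')`, for an equivariant map `f`. -/
def pullDf {Y' : Type} [TopologicalSpace Y'] [MulAction G Y'] (Δ : Df G Y V) (f : Y' → Y)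
    (hf : Continuous f) (hfe : ∀ (g : G) y, f (g • y) = g • f y) : Df G Y' V where
  D y := Δ.D (f y)
  cont := Δ.cont.comp hf
  smul g y := by rw [hfe, Δ.smul]

/-- The pairs `(y, A)` such that `i ∈ A` for all `i ∈ D y` with `c(i⁻¹ y) > 2/3`, and `i ∉ A` for all
`i ∈ D y` with `c(i⁻¹ y) < 1/3`. -/
def FS (Δ : Df G Y V) (c : Y → ℝ) : InvSet G (Prs Δ) where
  carrier := {p | ∀ i ∈ (Δ.D p.1.1).s, (2 / 3 < c (i⁻¹ • p.1.1) → i ∈ p.1.2.s) ∧
    (c (i⁻¹ • p.1.1) < 1 / 3 → i ∉ p.1.2.s)}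
  inv g p hp i hi := by
    have h1 : g⁻¹ * i ∈ (Δ.D p.1.1).s := by
      have h2 : i ∈ (Δ.D (g • p.1.1)).s := hi
      rw [Δ.smul] at h2
      exact h2
    have h3 : i⁻¹ • (g • p.1.1) = (g⁻¹ * i)⁻¹ • p.1.1 := by
      rw [mul_inv_rev, inv_inv, mul_smul]
    have h4 := hp _ h1
    show (2 / 3 < c (i⁻¹ • (g • p.1.1)) → g⁻¹ * i ∈ p.1.2.s) ∧
      (c (i⁻¹ • (g • p.1.1)) < 1 / 3 → g⁻¹ * i ∉ p.1.2.s)
    rw [h3]
    exact h4

/-- The complement of `FS`. -/
def US (Δ : Df G Y V) (c : Y → ℝ) : InvSet G (Prs Δ) := (FS Δ c).cpl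

/-- The base point of an element of `FS`. -/
def FS.base (Δ : Df G Y V) (c : Y → ℝ) (x : (FS Δ c).Pt) : Y := ((FS Δ c).val x).1.1

end FU

/-! ### Slices -/

/-- The space `B'` of the group `G × M` is `B × M`, for a `G`-space `B`. -/
structure Slice (G M : Type) {B B' : Type} [Group G] [Group M] [TopologicalSpace M]
    [TopologicalSpace B] [TopologicalSpace B'] [MulAction G B] [MulAction (G × M) B']
    (e : B × M ≃ₜ B') : Prop where
  smul : ∀ (g : G) (m : M) (b : B) (n : M), e (g • b, m * n) = (g, m) • e (b, n)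

end Pool.Agent.Lib.MP_aa9b81_an.Tv
end
end

section

/-!
# Transversals, part H0: boxes and marks
-/

open Function Filter Topology

noncomputable section

namespace Pool.Agent.Lib.MP_aa9b81_an.Tv

open Cut Hs Cb

section Box

variable {G X : Type} [Group G] [TopologicalSpace G] [IsTopologicalGroup G]
  [LocallyCompactSpace G] [TopologicalSpace X] [T2Space X] [MulAction G X] [ContinuousSMul G X]
  {V : Set G}

/-- Near a point `t` of `T°` every point is `u s` with `u` near `1` and `s ∈ T` near `t`. -/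
theorem core_decomp (hV : IsOpen V) (h1 : (1 : G) ∈ V) {T : Set X} (hT : LC.IsBox V T) {t : X}
    (ht : t ∈ LC.core G T) {U : Set G} (hU : U ∈ 𝓝 (1 : G)) {N : Set X} (hN : N ∈ 𝓝 t) :
    ∀ᶠ x in 𝓝 t, ∃ u ∈ U, ∃ s ∈ T, s ∈ N ∧ u • s = x := by
  obtain ⟨K, hK, hKU, hKc⟩ := local_compact_nhds (inter_mem hU (hV.mem_nhds h1))
  have hW := ht.2 K hK
  let A : Set (G × X) := (K ×ˢ T) \ (interior U ×ˢ interior N)
  have hA : IsCompact A :=
    (hKc.prod hT.isCompact).diff (isOpen_interior.prod isOpen_interior)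
  have hA' : IsClosed ((fun p : G × X => p.1 • p.2) '' A) :=
    (hA.image continuous_smul).isClosed
  have htA : t ∉ (fun p : G × X => p.1 • p.2) '' A := by
    rintro ⟨⟨u, s⟩, ⟨⟨huK, hsT⟩, hn⟩, hus⟩
    have h2 : u • s = (1 : G) • t := by
      rw [one_smul]
      exact hus
    obtain ⟨rfl, rfl⟩ := hT.inj u (hKU huK).2 1 h1 s hsT t ht.1 h2
    exact hn ⟨mem_interior_iff_mem_nhds.2 hU, mem_interior_iff_mem_nhds.2 hN⟩
  filter_upwards [hW, hA'.isOpen_compl.mem_nhds htA] with x hx hxA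
  obtain ⟨u, hu, s, hs, hus⟩ := hx
  have h3 : (u, s) ∈ interior U ×ˢ interior N := by
    by_contra hn
    exact hxA ⟨(u, s), ⟨⟨hu, hs⟩, hn⟩, hus⟩
  exact ⟨u, interior_subset h3.1, s, hs, interior_subset h3.2, hus⟩

/-- `T°` is relatively open in `T`. -/
theorem core_open (hV : IsOpen V) (h1 : (1 : G) ∈ V) {T : Set X} (hT : LC.IsBox V T) {t : X}
    (ht : t ∈ LC.core G T) : ∀ᶠ x in 𝓝 t, x ∈ T → x ∈ LC.core G T := by
  obtain ⟨K, hK, hKV, hKc⟩ := local_compact_nhds (hV.mem_nhds h1)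
  have hW := ht.2 K hK
  have hW' := eventually_eventually_nhds.2 (show ∀ᶠ x in 𝓝 t, ∃ u ∈ K, ∃ s ∈ T, u • s = x from hW)
  filter_upwards [hW'] with x hx hxT
  refine ⟨hxT, fun U hU => ?_⟩
  let A : Set (G × X) := (K ×ˢ T) \ (interior U ×ˢ Set.univ)
  have hA : IsCompact A := (hKc.prod hT.isCompact).diff (isOpen_interior.prod isOpen_univ)
  have hA' : IsClosed ((fun p : G × X => p.1 • p.2) '' A) :=
    (hA.image continuous_smul).isClosed
  have hxA : x ∉ (fun p : G × X => p.1 • p.2) '' A := by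
    rintro ⟨⟨u, s⟩, ⟨⟨huK, hsT⟩, hn⟩, hus⟩
    have h2 : u • s = (1 : G) • x := by
      rw [one_smul]
      exact hus
    obtain ⟨rfl, rfl⟩ := hT.inj u (hKV huK) 1 h1 s hsT x hxT h2
    exact hn ⟨mem_interior_iff_mem_nhds.2 hU, Set.mem_univ _⟩
  filter_upwards [hx, hA'.isOpen_compl.mem_nhds hxA] with y hy hyA
  obtain ⟨u, hu, s, hs, hus⟩ := hy
  have h3 : (u, s) ∈ interior U ×ˢ (Set.univ : Set X) := by
    by_contra hn
    exact hyA ⟨(u, s), ⟨⟨hu, hs⟩, hn⟩, hus⟩
  exact ⟨u, interior_subset h3.1, s, hs, hus⟩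

end Box

/-- Countably many boxes `T k` with marks `m k`: continuous functions with values in `[0,1]`, which on
`T k` are positive only on `(T k)°`. -/
structure Marks {G : Type} [Group G] [TopologicalSpace G] (V : Set G) (X : Type)
    [TopologicalSpace X] [MulAction G X] where
  /-- the boxes -/
  T : ℕ → Set X
  /-- the marks -/
  m : ℕ → X → ℝ
  box : ∀ k, LC.IsBox V (T k)
  cont : ∀ k, Continuous (m k)
  nonneg : ∀ k x, 0 ≤ m k x
  le_one : ∀ k x, m k x ≤ 1
  supp : ∀ k, ∀ t ∈ T k, 0 < m k t → t ∈ LC.core G (T k)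

/-- The marks separate the points of the compact sets `S n`, which are contained in boxes `B n`, and every
orbit meets `(B n)°` in a point at which `S n` and `B n` agree nearby, for some `n`. -/
structure Marks.Good {G : Type} [Group G] [TopologicalSpace G] {V : Set G} {X : Type}
    [TopologicalSpace X] [MulAction G X] (M : Marks V X) (B S : ℕ → Set X) : Prop where
  box : ∀ n, LC.IsBox V (B n)
  cpt : ∀ n, IsCompact (S n)
  sub : ∀ n, S n ⊆ B n
  sep : ∀ n, ∀ t ∈ S n, ∀ t' ∈ S n, t ≠ t' → ∃ k, M.T k = B n ∧ M.m k t = 1 ∧ M.m k t' = 0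
  cover : ∀ x : X, ∃ (n : ℕ) (g : G), g • x ∈ LC.core G (B n) ∧ ∀ᶠ y in 𝓝 (g • x), y ∈ B n → y ∈ S n

end Pool.Agent.Lib.MP_aa9b81_an.Tv
end
end
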