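import Pool.Agent.Lib.MP_aa9b81_an.Tv.D1
import Pool.Agent.Lib.MP_aa9b81_an.Tv.W1
import Pool.Agent.Lib.MP_aa9b81_an.Tv.W2

section

/-!
# Transversals, part D1b: windows from property A
-/

open scoped ENNReal Topology CompactlySupported
open Function Filter MeasureTheory

noncomputable section

set_option linter.unusedSectionVars false

namespace Pool.Agent.Lib.MP_aa9b81_an.Tv

open Cut Hs Cb

variable {G : Type} [Group G] [TopologicalSpace G] [IsTopologicalGroup G]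
  [LocallyCompactSpace G] [SecondCountableTopology G] [T2Space G] [MeasurableSpace G] [BorelSpace G]

private theorem D1b_sq_le (x y : ℝ) (hx : 0 ≤ x) (hy : 0 ≤ y) : (√x - √y) ^ 2 ≤ |x - y| := by
  have h1 : |x - y| = |√x - √y| * (√x + √y) := by
    have h2 : x - y = (√x - √y) * (√x + √y) := by
      have h3 := Real.sq_sqrt hx
      have h4 := Real.sq_sqrt hy
      nlinarith
    rw [h2, abs_mul, abs_of_nonneg (add_nonneg (Real.sqrt_nonneg x) (Real.sqrt_nonneg y))]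
  rw [h1, ← sq_abs, sq]
  refine mul_le_mul_of_nonneg_left ?_ (abs_nonneg _)
  rw [abs_le]
  constructor
  · linarith [Real.sqrt_nonneg x, Real.sqrt_nonneg y]
  · linarith [Real.sqrt_nonneg x, Real.sqrt_nonneg y]

open Pointwise in
/-- Windows. PROOF. `φ`, `K₀` from `hA C ε`; `V` a compact neighbourhood of `1` (`exists_compact_mem_nhds`), `χ : Part V` (`exists_part`), `ζ k s = ∫ χ k t ^ 2 φ(s, t) dt`, `z k = √(ζ k)`;
`t k` = a point with `χ k (t k) ≠ 0`, if there is one. If `z k s ≠ 0` then there is `t` with `χ k t ≠ 0` and `φ (s, t) ≠ 0`, so `(t k)⁻¹ s = ((t k)⁻¹ t) (s⁻¹ t)⁻¹ ∈ V K₀⁻¹ =: K`. `fin`: `t ∈ S K₀`, a compact set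
(`LocallyFinite.finite_nonempty_inter_compact`). `sum_sq`: `D1_sum`. `near`: with `b = a h`, `h ∈ C`: `1 - ∑ z k a * z k b = ½ ∑ (z k a - z k b)²` and `(√x - √y)² ≤ |x - y|`; `D1_diff`. -/
theorem exists_win (hA : PropAG G) {C : Set G} (hC : IsCompact C) {ε : ℝ} (hε : 0 < ε) :
    ∃ K : Set G, IsCompact K ∧ ∃ (z : ℕ → G → ℝ) (t : ℕ → G), Win C K ε z t := by
  classical
  obtain ⟨φ, hφc, hφ0, ⟨K₀, hK₀, hφK⟩, hφ1, hφd⟩ := hA C ε hC hε
  obtain ⟨V, hV, hV1⟩ := exists_compact_mem_nhds (1 : G)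
  obtain ⟨χ⟩ := exists_part hV1
  have hζ0 : ∀ (k : ℕ) (s : G), 0 ≤ ∫ t, χ.χ k t ^ 2 * φ (s, t) ∂mu G := fun k s =>
    integral_nonneg fun t => mul_nonneg (sq_nonneg _) (hφ0 _)
  have hne : ∀ (k : ℕ) (s : G), √(∫ t, χ.χ k t ^ 2 * φ (s, t) ∂mu G) ≠ 0 →
      ∃ t, χ.χ k t ≠ 0 ∧ s⁻¹ * t ∈ K₀ := by
    intro k s h
    by_contra hcon
    push Not at hcon
    apply h
    have h1 : (fun t => χ.χ k t ^ 2 * φ (s, t)) = fun _ => (0 : ℝ) := by
      funext t
      by_cases h2 : χ.χ k t = 0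
      · rw [h2]
        ring
      · rw [hφK s t (hcon t h2), mul_zero]
    rw [h1, integral_zero, Real.sqrt_zero]
  obtain ⟨t, ht⟩ : ∃ t : ℕ → G, ∀ k, (∃ a, χ.χ k a ≠ 0) → χ.χ k (t k) ≠ 0 := by
    refine ⟨fun k => if h : ∃ a, χ.χ k a ≠ 0 then h.choose else 1, fun k hk => ?_⟩
    show χ.χ k (if h : ∃ a, χ.χ k a ≠ 0 then h.choose else 1) ≠ 0
    rw [dif_pos hk]
    exact hk.choose_spec
  have hzero : ∀ (F : Finset ℕ) (a : G),
      (∀ k ∉ F, √(∫ t, χ.χ k t ^ 2 * φ (a, t) ∂mu G) = 0) →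
      ∀ k ∉ F, ∫ t, χ.χ k t ^ 2 * φ (a, t) ∂mu G = 0 := fun F a h k hk =>
    (Real.sqrt_eq_zero (hζ0 k a)).1 (h k hk)
  have hsum : ∀ (F : Finset ℕ) (a : G),
      (∀ k ∉ F, √(∫ t, χ.χ k t ^ 2 * φ (a, t) ∂mu G) = 0) →
      ∑ k ∈ F, √(∫ t, χ.χ k t ^ 2 * φ (a, t) ∂mu G) ^ 2 = 1 := by
    intro F a h
    have h1 := D1_sum χ hφc hK₀ (hφK a) (hφ1 a) F (hzero F a h) hφ0
    rw [← h1]
    exact Finset.sum_congr rfl fun k _ => Real.sq_sqrt (hζ0 k a)
  refine ⟨(fun p : G × G => p.1 * p.2⁻¹) '' (V ×ˢ K₀),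
    (hV.prod hK₀).image (by fun_prop), fun k s => √(∫ t, χ.χ k t ^ 2 * φ (s, t) ∂mu G), t, ?_⟩
  refine
    { cont := fun k => Real.continuous_sqrt.comp (D1_cont (χ.cont k) (χ.cpt k) hφc)
      nonneg := fun k a => Real.sqrt_nonneg _
      supp := fun k a h => ?_
      fin := fun S hS => ?_
      sum_sq := hsum
      near := fun F a b ha hb hab => ?_ }
  · obtain ⟨b, hb, hbK⟩ := hne k a h
    refine ⟨((t k)⁻¹ * b, a⁻¹ * b), ⟨χ.small k _ _ (ht k ⟨b, hb⟩) hb, hbK⟩, ?_⟩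
    show (t k)⁻¹ * b * (a⁻¹ * b)⁻¹ = (t k)⁻¹ * a
    group
  · have h1 := χ.fin.finite_nonempty_inter_compact (hS.mul hK₀)
    refine h1.subset ?_
    rintro k ⟨a, haS, hk⟩
    obtain ⟨b, hb, hbK⟩ := hne k a hk
    exact ⟨b, hb, Set.mem_mul.2 ⟨a, haS, a⁻¹ * b, hbK, by group⟩⟩
  · have h1 := hsum F a ha
    have h2 := hsum F b hb
    have h3 := D1_diff χ hφc hK₀ (hφK a) (hφK b) F
    have h4 := hφd (a⁻¹ * b) hab a
    rw [mul_inv_cancel_left] at h4
    have h5 : ∑ k ∈ F, (√(∫ t, χ.χ k t ^ 2 * φ (a, t) ∂mu G) -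
        √(∫ t, χ.χ k t ^ 2 * φ (b, t) ∂mu G)) ^ 2 ≤ ε :=
      (Finset.sum_le_sum fun k _ => D1b_sq_le _ _ (hζ0 k a) (hζ0 k b)).trans (h3.trans h4)
    have h6 : ∑ k ∈ F, (√(∫ t, χ.χ k t ^ 2 * φ (a, t) ∂mu G) -
        √(∫ t, χ.χ k t ^ 2 * φ (b, t) ∂mu G)) ^ 2 =
        2 * (1 - ∑ k ∈ F, √(∫ t, χ.χ k t ^ 2 * φ (a, t) ∂mu G) *
          √(∫ t, χ.χ k t ^ 2 * φ (b, t) ∂mu G)) := by
      have h7 : ∀ k ∈ F, (√(∫ t, χ.χ k t ^ 2 * φ (a, t) ∂mu G) -
          √(∫ t, χ.χ k t ^ 2 * φ (b, t) ∂mu G)) ^ 2 =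
          √(∫ t, χ.χ k t ^ 2 * φ (a, t) ∂mu G) ^ 2 + √(∫ t, χ.χ k t ^ 2 * φ (b, t) ∂mu G) ^ 2 -
          2 * (√(∫ t, χ.χ k t ^ 2 * φ (a, t) ∂mu G) *
            √(∫ t, χ.χ k t ^ 2 * φ (b, t) ∂mu G)) := fun k _ => by ring
      rw [Finset.sum_congr rfl h7, Finset.sum_sub_distrib, Finset.sum_add_distrib, h1, h2,
        ← Finset.mul_sum]
      ring
    have h8 : 0 ≤ ∑ k ∈ F, (√(∫ t, χ.χ k t ^ 2 * φ (a, t) ∂mu G) -
        √(∫ t, χ.χ k t ^ 2 * φ (b, t) ∂mu G)) ^ 2 := Finset.sum_nonneg fun k _ => sq_nonneg _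
    rw [h6] at h5 h8
    show |1 - ∑ k ∈ F, √(∫ t, χ.χ k t ^ 2 * φ (a, t) ∂mu G) *
          √(∫ t, χ.χ k t ^ 2 * φ (b, t) ∂mu G)| ≤ ε
    rw [abs_of_nonneg (by linarith)]
    linarith

end Pool.Agent.Lib.MP_aa9b81_an.Tv
end
end

section

/-!
# Transversals, part N1: quotients of open subsets of a space which need not be second countable
-/

open Function Filter Topology

noncomputable section

set_option linter.unusedSectionVars false

namespace Pool.Agent.Lib.MP_aa9b81_an.Tv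

open Cut Hs Cb

/-- The admissible functions on `X`: the continuous functions of compact support with values in `[0,1]`
and with `|F y - F (a⁻¹ y)| ≤ ω a`. -/
structure Adm {G : Type} [Group G] (ω : G → ℝ) (X : Type) [TopologicalSpace X]
    [MulAction G X] where
  /-- the function -/
  F : X → ℝ
  cont : Continuous F
  nonneg : ∀ x, 0 ≤ F x
  le_one : ∀ x, F x ≤ 1
  mod : ∀ y (a : G), |F y - F (a⁻¹ • y)| ≤ ω a
  cpt : HasCompactSupport F

section Exists

variable {G X : Type} [Group G] [TopologicalSpace G] [IsTopologicalGroup G]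
  [TopologicalSpace X] [T2Space X] [LocallyCompactSpace X] [MulAction G X] [ContinuousSMul G X]

/-- The zero function (`0 ≤ ω a` by `b.mod`). -/
theorem Adm.nonempty (b : Bumps G) : Nonempty (Adm b.ω X) := by
  have h0 : ∀ a : G, 0 ≤ b.ω a := fun a =>
    (mul_nonneg (b.c_pos 0).le (abs_nonneg _)).trans (b.mod 0 a 1)
  exact ⟨⟨fun _ => 0, continuous_const, fun _ => le_rfl, fun _ => zero_le_one, fun y a => by
    rw [sub_zero, abs_zero]
    exact h0 a, HasCompactSupport.zero⟩⟩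

/-- The admissible function `c n • supc (β n) f`. -/
theorem Adm.exists_supc (b : Bumps G) (n : ℕ) {f : X → ℝ} (hf : Continuous f)
    (hfc : HasCompactSupport f) (hf0 : ∀ x, 0 ≤ f x) (hf1 : ∀ x, f x ≤ 1) :
    ∃ F : Adm b.ω X, ∀ x, F.F x = b.c n * supc (b.β n) f x := by
  have hc0 := b.c_pos n
  refine ⟨⟨fun x => b.c n * supc (b.β n) f x, ?_, ?_, ?_, ?_, ?_⟩, fun x => rfl⟩
  · exact continuous_const.mul
      (continuous_supc (b.cont n) (b.cpt n) (b.nonneg n) (b.le_one n) hf hf0 hf1)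
  · exact fun x => mul_nonneg hc0.le (supc_nonneg (b.nonneg n) (b.le_one n) hf0 hf1 x)
  · exact fun x => mul_le_one₀ (b.c_le n) (supc_nonneg (b.nonneg n) (b.le_one n) hf0 hf1 x)
      (supc_le_one (b.nonneg n) (b.le_one n) hf0 hf1 x)
  · intro y a
    have h1 : ∀ h, |b.β n h - b.β n (a⁻¹ * h)| ≤ b.ω a / b.c n := fun h => by
      rw [le_div_iff₀ hc0, mul_comm]
      exact b.mod n a h
    have h2 := supc_translate (b.nonneg n) (b.le_one n) hf0 hf1 h1 y
    rw [← mul_sub, abs_mul, abs_of_pos hc0]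
    rwa [le_div_iff₀ hc0, mul_comm] at h2
  · exact HasCompactSupport.mul_left (f := fun _ => b.c n)
      (hasCompactSupport_supc (b.cpt n) (b.nonneg n) (b.le_one n) hfc hf0 hf1)

/-- PROOF: `f` with compact support, `f x = 1`, `f x' = 0`, values in `[0,1]`
(`exists_continuous_one_of_compact_subset_open` or the like); `F = c n • supc (β n) f` with `n` from `b.small` and
`supc_near` at `x'` with `ε = 1/2`: `F x ≥ c n` (`le_supc`) and `F x' ≤ c n / 2`. -/
theorem Adm.exists_sep (b : Bumps G) {x x' : X} (h : x ≠ x') :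
    ∃ F : Adm b.ω X, F.F x ≠ F.F x' := by
  obtain ⟨f, hf1, hfc, hfV, hf01⟩ := exists_continuousMap_one_of_isCompact_subset_isOpen
    (isCompact_singleton (x := x)) (isOpen_compl_singleton (x := x'))
    (Set.singleton_subset_iff.2 h)
  have hx : f x = 1 := hf1 rfl
  have hx' : f x' = 0 := by
    by_contra h2
    exact hfV (subset_tsupport f h2) rfl
  have hf0 : ∀ y, 0 ≤ f y := fun y => (hf01 y).1
  have hfle : ∀ y, f y ≤ 1 := fun y => (hf01 y).2
  obtain ⟨U, hU, hnear⟩ := supc_near (G := G) f.continuous hf0 hfle x' (ε := 1 / 2) (by norm_num)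
  obtain ⟨n, hn⟩ := b.small U hU
  obtain ⟨F, hF⟩ := Adm.exists_supc b n f.continuous hfc hf0 hfle
  refine ⟨F, fun heq => ?_⟩
  have h3 := le_supc (b.nonneg n) (b.le_one n) (b.one n) hf0 hfle x
  have h4 := hnear (b.β n) (b.nonneg n) (b.le_one n) hn
  rw [hF, hF] at heq
  have h5 := mul_left_cancel₀ (b.c_pos n).ne' heq
  rw [hx] at h3
  rw [hx'] at h4
  linarith

/-- PROOF: the same with `le_supc` only. -/
theorem Adm.exists_pos (b : Bumps G) (x : X) : ∃ F : Adm b.ω X, F.F x ≠ 0 := by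
  obtain ⟨f, hf1, hfc, -, hf01⟩ := exists_continuousMap_one_of_isCompact_subset_isOpen
    (isCompact_singleton (x := x)) isOpen_univ (Set.subset_univ _)
  have hx : f x = 1 := hf1 rfl
  have hf0 : ∀ y, 0 ≤ f y := fun y => (hf01 y).1
  have hfle : ∀ y, f y ≤ 1 := fun y => (hf01 y).2
  obtain ⟨F, hF⟩ := Adm.exists_supc b 0 f.continuous hfc hf0 hfle
  refine ⟨F, fun heq => ?_⟩
  have h3 := le_supc (b.nonneg 0) (b.le_one 0) (b.one 0) hf0 hfle x
  rw [hF] at heq
  rcases mul_eq_zero.1 heq with h4 | h4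
  · exact (b.c_pos 0).ne' h4
  · rw [hx, h4] at h3
    linarith

end Exists

section Dom

variable {G X : Type} [Group G] [TopologicalSpace G] [IsTopologicalGroup G]
  [TopologicalSpace X] [T2Space X] [MulAction G X] [ContinuousSMul G X] {ω : G → ℝ}

/-- The open invariant set where the functions of the sequence do not all vanish. -/
def domS (s : ℕ → Adm ω X) : InvSet G X where
  carrier := {x | ∃ (k : ℕ) (g : G), (s k).F (g⁻¹ • x) ≠ 0}
  inv := by
    rintro g' x ⟨k, g, h⟩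
    refine ⟨k, g' * g, ?_⟩
    have h2 : (g' * g)⁻¹ • g' • x = g⁻¹ • x := by
      rw [smul_smul]
      congr 1
      group
    rwa [h2]

theorem isOpen_domS (s : ℕ → Adm ω X) : IsOpen (domS s).carrier := by
  have e : (domS s).carrier = ⋃ k : ℕ, ⋃ g : G, {x : X | (s k).F (g⁻¹ • x) ≠ 0} := by
    ext x
    simp only [Set.mem_iUnion]
    rfl
  rw [e]
  refine isOpen_iUnion fun k => isOpen_iUnion fun g => ?_
  exact isOpen_ne_fun ((s k).cont.comp (continuous_const_smul g⁻¹)) continuous_const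

/-- The map to `Uw ω`. -/
def embS (s : ℕ → Adm ω X) (x : (domS s).Pt) : Uw ω :=
  ⟨fun k => ⟨fun g => (s k).F (g⁻¹ • (domS s).val x), fun g => ⟨(s k).nonneg _, (s k).le_one _⟩,
    fun g g' => by
      have h2 := (s k).mod (g⁻¹ • (domS s).val x) (g⁻¹ * g')
      have h3 : (g⁻¹ * g')⁻¹ • g⁻¹ • (domS s).val x = g'⁻¹ • (domS s).val x := by
        rw [smul_smul]
        congr 1
        group
      rwa [h3] at h2⟩, x.2⟩

theorem embS_at (s : ℕ → Adm ω X) (x : (domS s).Pt) (k : ℕ) (g : G) :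
    ((embS s x).seq k).at g = (s k).F (g⁻¹ • (domS s).val x) := rfl

theorem embS_smul (s : ℕ → Adm ω X) (g : G) (x : (domS s).Pt) :
    embS s (g • x) = g • embS s x := by
  refine Uw.ext fun k h => ?_
  rw [embS_at, Uw.smul_seq, Lw.smul_at, embS_at, mul_inv_rev, inv_inv, mul_smul]
  rfl

theorem continuous_embS (s : ℕ → Adm ω X) : Continuous (embS s) := by
  refine Continuous.subtype_mk (continuous_pi fun k => Continuous.subtype_mk
    (continuous_pi fun g => ?_) _) _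
  have h1 : Continuous (domS s).val := continuous_subtype_val
  exact (s k).cont.comp ((continuous_const_smul g⁻¹).comp h1)

/-- The set where a translate of an admissible function is at least `δ` is compact. -/
theorem Adm.isCompact_le (f : Adm ω X) (g : G) {δ : ℝ} (hδ : 0 < δ) :
    IsCompact {x : X | δ ≤ f.F (g⁻¹ • x)} := by
  have h1 : IsCompact {x : X | δ ≤ f.F x} := by
    refine IsCompact.of_isClosed_subset f.cpt (isClosed_le continuous_const f.cont) fun x hx => ?_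
    have hx' : δ ≤ f.F x := hx
    exact subset_tsupport _ (ne_of_gt (hδ.trans_le hx'))
  have h2 : {x : X | δ ≤ f.F (g⁻¹ • x)} = (fun x => g • x) '' {x : X | δ ≤ f.F x} := by
    ext x
    constructor
    · intro hx
      exact ⟨g⁻¹ • x, hx, smul_inv_smul g x⟩
    · rintro ⟨y, hy, rfl⟩
      show δ ≤ f.F (g⁻¹ • g • y)
      rw [inv_smul_smul]
      exact hy
  rw [h2]
  exact h1.image (continuous_const_smul g)

/-- PROOF: continuous; the preimage of a compact set is compact: by `Uw.exists_finite` it is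
closed and contained in the preimage of the union of the compact subsets `{x | δ ≤ F k (g⁻¹ x)}` of `X`, which are contained in
`domS s`. (`isProperMap_iff_isCompact_preimage`.) -/
theorem isProperMap_embS (s : ℕ → Adm ω X) : IsProperMap (embS s) := by
  rw [isProperMap_iff_isCompact_preimage]
  refine ⟨continuous_embS s, fun K hK => ?_⟩
  obtain ⟨S, δ, hδ, hS⟩ := Uw.exists_finite hK
  have hind : IsInducing (domS s).val := IsInducing.subtypeVal
  have hZ : IsCompact (⋃ p ∈ S, {x : X | δ ≤ (s p.1).F (p.2⁻¹ • x)}) :=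
    S.isCompact_biUnion fun p _ => (s p.1).isCompact_le p.2 hδ
  have hZr : (⋃ p ∈ S, {x : X | δ ≤ (s p.1).F (p.2⁻¹ • x)}) ⊆ Set.range (domS s).val := by
    intro x hx
    obtain ⟨p, _, hp⟩ := Set.mem_iUnion₂.1 hx
    have hp' : δ ≤ (s p.1).F (p.2⁻¹ • x) := hp
    exact ⟨⟨x, p.1, p.2, ne_of_gt (hδ.trans_le hp')⟩, rfl⟩
  have hpre := (hind.isCompact_preimage_iff hZr).2 hZ
  refine hpre.of_isClosed_subset (hK.isClosed.preimage (continuous_embS s)) fun x hx => ?_
  obtain ⟨p, hp, hle⟩ := hS _ hx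
  exact Set.mem_iUnion₂.2 ⟨p, hp, hle⟩

/-- The image. -/
def imS (s : ℕ → Adm ω X) : InvSet G (Uw ω) where
  carrier := Set.range (embS s)
  inv := by
    rintro g _ ⟨x, rfl⟩
    exact ⟨g • x, embS_smul s g x⟩

theorem isClosed_imS (s : ℕ → Adm ω X) : IsClosed (imS s).carrier :=
  (isProperMap_embS s).isClosedMap.isClosed_range

/-- The map to the image. -/
def piS (s : ℕ → Adm ω X) (x : (domS s).Pt) : (imS s).Pt := ⟨embS s x, x, rfl⟩

theorem piS_surjective (s : ℕ → Adm ω X) : Surjective (piS s) := by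
  rintro ⟨_, x, rfl⟩
  exact ⟨x, rfl⟩

theorem piS_smul (s : ℕ → Adm ω X) (g : G) (x : (domS s).Pt) : piS s (g • x) = g • piS s x :=
  (imS s).val_injective (embS_smul s g x)

theorem continuous_piS (s : ℕ → Adm ω X) : Continuous (piS s) :=
  Continuous.subtype_mk (isProperMap_embS s).continuous _

theorem isProperMap_piS (s : ℕ → Adm ω X) : IsProperMap (piS s) := by
  have h1 : IsProperMap ((imS s).val ∘ piS s) := isProperMap_embS s
  exact isProperMap_of_comp_of_inj (continuous_piS s) continuous_subtype_val h1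
    (imS s).val_injective

/-- The coordinates of the image. -/
def coorS (s : ℕ → Adm ω X) (k : ℕ) (y : (imS s).Pt) : ℝ := (((imS s).val y).seq k).at 1

theorem continuous_coorS (s : ℕ → Adm ω X) (k : ℕ) : Continuous (coorS s k) :=
  (Lw.continuous_at 1).comp ((Uw.continuous_seq k).comp continuous_subtype_val)

theorem coorS_piS (s : ℕ → Adm ω X) (k : ℕ) (x : (domS s).Pt) :
    coorS s k (piS s x) = (s k).F ((domS s).val x) := by
  show (s k).F ((1 : G)⁻¹ • (domS s).val x) = (s k).F ((domS s).val x)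
  rw [inv_one, one_smul]

theorem mem_domS_of_ne {s : ℕ → Adm ω X} {k : ℕ} {x : X} (h : (s k).F x ≠ 0) :
    x ∈ (domS s).carrier := by
  refine ⟨k, 1, ?_⟩
  rwa [inv_one, one_smul]

theorem imS_locallyCompact (s : ℕ → Adm ω X) : LocallyCompactSpace (imS s).Pt :=
  (imS s).locallyCompactSpace (isClosed_imS s).isLocallyClosed

end Dom

end Pool.Agent.Lib.MP_aa9b81_an.Tv
end
end
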