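import Pool.Agent.Lib.MP_aa9b81_an.Mg.G037

section

/-!
# Transversals, part D3: continuity of the windows
-/

open scoped ENNReal Topology CompactlySupported Pointwise
open Function Filter MeasureTheory

noncomputable section

set_option linter.unusedSectionVars false

namespace Pool.Agent.Lib.MP_aa9b81_an.Tv

open Cut Hs Cb

variable {G J B : Type} [Group G] [TopologicalSpace G] [IsTopologicalGroup G]
  [LocallyCompactSpace G] [SecondCountableTopology G] [T2Space G] [MeasurableSpace G] [BorelSpace G]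
  [TopologicalSpace B] [T2Space B] [MulAction G B] [ContinuousSMul G B] [Nonempty J]

/-- The compressed kernel. -/
private theorem D3d_kok {κ : B → G → BL J} {C : Set G} {M : ℝ} (h : FOK C M κ) {s : G → ℝ}
    (hs : C01 s) (b : B) :
    KOK C M fun a a' => ((s a * s a' : ℝ) : ℂ) • kat κ b a a' := by
  have h1 := KOK.rmul (h.kok b) (f := fun a a' => s a * s a')
    ((hs.cont.comp continuous_fst).mul (hs.cont.comp continuous_snd)) zero_le_one
    (fun a a' _ => by
      rw [abs_of_nonneg (mul_nonneg (hs.nonneg a) (hs.nonneg a'))]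
      exact mul_le_one₀ (hs.le_one a) (hs.nonneg a') (hs.le_one a'))
  rwa [one_mul] at h1

private theorem D3d_wn {κ : B → G → BL J} {C : Set G} {M : ℝ} (h : FOK C M κ) {s : G → ℝ}
    (hs : C01 s) (b : B) :
    wn s κ b = ‖opk fun a a' => ((s a * s a' : ℝ) : ℂ) • kat κ b a a'‖ := by
  unfold wn
  rw [show opF κ b = opk (kat κ b) from rfl, Ms_opk_Ms hs (h.kok b)]

/-- PROOF: `Ms s (opF κ b) Ms s = opk (s(a) s(a') κ(a⁻¹ b, a⁻¹ a'))`; the kernel is continuous in `(b, a, a')` for the norm, and `0` for `(a, a')` outside of the compact set `tsupport s ×ˢ tsupport s`, so it is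
uniformly near to the one of `b₀` for `b` near to `b₀` (`IsCompact`/`generalized_tube_lemma` or `ContinuousMap.curry` on the compact set); `norm_opk_le` for the difference. -/
theorem continuous_wn {κ : B → G → BL J} (h : IsCk κ) {s : G → ℝ} (hs : C01 s)
    (hc : HasCompactSupport s) : Continuous (wn s κ : B → ℝ) := by
  obtain ⟨C, M, hF⟩ := h.fok
  have hK : IsCompact (tsupport s ×ˢ tsupport s) := hc.isCompact.prod hc.isCompact
  rw [continuous_iff_continuousAt]
  intro b₀
  rw [Metric.continuousAt_iff']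
  intro ε hε
  have hcs : 0 ≤ cs (C ∪ C) := Real.sqrt_nonneg _
  have hδ : 0 < ε / (cs (C ∪ C) + 1) := by positivity
  have hcont : Continuous fun q : B × (G × G) => κ (q.2.1⁻¹ • q.1) (q.2.1⁻¹ * q.2.2) := by
    have h1 : Continuous fun q : B × (G × G) =>
        ((q.2.1⁻¹ • q.1, q.2.1⁻¹ * q.2.2) : B × G) := by fun_prop
    exact h.cont.comp h1
  have hcont2 : Continuous fun q : B × (G × G) =>
      ‖κ (q.2.1⁻¹ • q.1) (q.2.1⁻¹ * q.2.2) - κ (q.2.1⁻¹ • b₀) (q.2.1⁻¹ * q.2.2)‖ := by
    have h2 : Continuous fun q : B × (G × G) => κ (q.2.1⁻¹ • b₀) (q.2.1⁻¹ * q.2.2) :=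
      hcont.comp (continuous_const.prodMk continuous_snd)
    exact (hcont.sub h2).norm
  have hev := hK.eventually_forall_of_forall_eventually (x₀ := b₀)
    (P := fun (b : B) (p : G × G) => ‖κ (p.1⁻¹ • b) (p.1⁻¹ * p.2) -
      κ (p.1⁻¹ • b₀) (p.1⁻¹ * p.2)‖ < ε / (cs (C ∪ C) + 1)) (by
    intro p _
    refine (hcont2.tendsto (b₀, p)).eventually_lt_const ?_
    simpa using hδ)
  filter_upwards [hev] with b hb
  rw [D3d_wn hF hs, D3d_wn hF hs, Real.dist_eq]
  refine (abs_norm_sub_norm_le _ _).trans_lt ?_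
  rw [← opk_sub (D3d_kok hF hs b) (D3d_kok hF hs b₀)]
  have h3 := ((D3d_kok hF hs b).sub (D3d_kok hF hs b₀)).mono (hF.cpt.union hF.cpt) hδ.le
    (fun a a' => ?_) ((D3d_kok hF hs b).sub (D3d_kok hF hs b₀)).supp
  · refine (norm_opk_le h3).trans_lt ?_
    rw [div_mul_eq_mul_div, div_lt_iff₀ (by positivity)]
    exact mul_lt_mul_of_pos_left (lt_add_one _) hε
  · rw [← smul_sub, norm_smul, Complex.norm_real,
      Real.norm_of_nonneg (mul_nonneg (hs.nonneg a) (hs.nonneg a'))]
    by_cases ha : s a = 0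
    · rw [ha, zero_mul, zero_mul]
      exact hδ.le
    by_cases ha' : s a' = 0
    · rw [ha', mul_zero, zero_mul]
      exact hδ.le
    have h4 := hb (a, a') ⟨subset_tsupport _ ha, subset_tsupport _ ha'⟩
    calc s a * s a' * ‖kat κ b a a' - kat κ b₀ a a'‖ ≤ 1 * ‖kat κ b a a' - kat κ b₀ a a'‖ :=
          mul_le_mul_of_nonneg_right
            (mul_le_one₀ (hs.le_one a) (hs.nonneg a') (hs.le_one a')) (norm_nonneg _)
      _ = ‖kat κ b a a' - kat κ b₀ a a'‖ := one_mul _
      _ ≤ _ := h4.le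

/-- PROOF: if `wn s κ b ≠ 0` then there is `a ∈ tsupport s` with `a⁻¹ b` in the (compact) image of the support of `κ` in `B`, so `b` is in the compact set `tsupport s • K`; `continuous_wn`: a closed subset of it. -/
theorem isCompact_wn_ge {κ : B → G → BL J} (h : IsCk κ) {s : G → ℝ} (hs : C01 s)
    (hc : HasCompactSupport s) {r : ℝ} (hr : 0 < r) : IsCompact {b : B | r ≤ wn s κ b} := by
  obtain ⟨C, M, hF⟩ := h.fok
  have hK : IsCompact (tsupport s • (Prod.fst '' tsupport fun p : B × G => κ p.1 p.2)) :=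
    hc.isCompact.smul_set (h.cpt.isCompact.image continuous_fst)
  refine hK.of_isClosed_subset (isClosed_le continuous_const (continuous_wn h hs hc)) ?_
  intro b hb
  by_contra hnot
  have hb' : r ≤ wn s κ b := hb
  have h0 : (fun a a' => ((s a * s a' : ℝ) : ℂ) • kat κ b a a') =
      fun _ _ : G => (0 : BL J) := by
    funext a a'
    by_cases ha : s a = 0
    · rw [ha, zero_mul, Complex.ofReal_zero, zero_smul]
    · have h1 : kat κ b a a' = 0 := by
        by_contra hne
        refine hnot ⟨a, subset_tsupport _ ha, a⁻¹ • b, ⟨(a⁻¹ • b, a⁻¹ * a'), ?_, rfl⟩, ?_⟩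
        · exact subset_tsupport (fun p : B × G => κ p.1 p.2) hne
        · exact smul_inv_smul a b
      rw [h1, smul_zero]
  rw [D3d_wn hF hs, h0, opk_zero, norm_zero] at hb'
  linarith

end Pool.Agent.Lib.MP_aa9b81_an.Tv
end
end

section

/-!
# Transversals, part D4: multipliers
-/

open scoped ENNReal Topology CompactlySupported Pointwise
open Function Filter MeasureTheory

noncomputable section

set_option linter.unusedSectionVars false

namespace Pool.Agent.Lib.MP_aa9b81_an.Tv

open Cut Hs Cb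

variable {G J P : Type} [Group G] [TopologicalSpace G] [IsTopologicalGroup G]
  [LocallyCompactSpace G] [SecondCountableTopology G] [T2Space G] [MeasurableSpace G] [BorelSpace G]
  [TopologicalSpace P] [T2Space P] [MulAction G P] [ContinuousSMul G P] [Nonempty J]

/-- The multiplier of a function on `P`. -/
def dgG (e : P → ℝ) : FamG G J P := fam (MulF fun b => ((e b : ℝ) : ℂ) • (1 : BL J))

theorem dgG_apply {e : P → ℝ} (he : C01 e) (b : P) :
    (dgG e : FamG G J P) b = Ms fun a => e (a⁻¹ • b) := by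
  have h1 : SC fun b : P => ((e b : ℝ) : ℂ) • (1 : BL J) := he.sc
  obtain ⟨N, hN⟩ := h1.bdd
  exact fam_apply (norm_MulF_le h1 hN) b

theorem norm_dgG_le {e : P → ℝ} (he : C01 e) : ‖(dgG e : FamG G J P)‖ ≤ 1 := by
  refine (FamG.norm_le_iff zero_le_one).2 fun b => ?_
  rw [dgG_apply he]
  exact norm_Ms_le ⟨he.cont.comp (by fun_prop), fun a => he.nonneg _, fun a => he.le_one _⟩

/-- PROOF: `LM_MulF`. -/
theorem dgG_mul_mem {e : P → ℝ} (he : C01 e) {x : FamG G J P} (hx : x ∈ cpG G J P) :
    dgG e * x ∈ cpG G J P := LM_MulF he.sc x hx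

/-- PROOF: `MulF_comp_opF`, `fam_apply`. -/
theorem dgG_mul_opF {e : P → ℝ} (he : C01 e) {C : Set G} {M : ℝ} {κ : P → G → BL J}
    (h : FOK C M κ) : dgG e * fam (opF κ) = fam (opF fun b g => ((e b : ℝ) : ℂ) • κ b g) := by
  have hF : FOK C M fun b g => ((e b : ℝ) : ℂ) • κ b g := by
    refine ⟨h.cpt, h.nonneg, fun v => ?_, fun b g => ?_, fun b g hg => ?_⟩
    · have h1 : Continuous fun p : P × G => ((e p.1 : ℝ) : ℂ) :=
        Complex.continuous_ofReal.comp (he.cont.comp continuous_fst)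
      exact h1.smul (h.cont v)
    · rw [norm_smul, Complex.norm_real, Real.norm_of_nonneg (he.nonneg b)]
      exact (mul_le_of_le_one_left (norm_nonneg _) (he.le_one b)).trans (h.bdd b g)
    · rw [h.supp b g hg, smul_zero]
  refine FamG.ext fun b => ?_
  rw [FamG.mul_apply, dgG_apply he, fam_apply (norm_opF_le h), fam_apply (norm_opF_le hF)]
  exact Ms_comp_opk ⟨he.cont.comp (by fun_prop), fun a => he.nonneg _, fun a => he.le_one _⟩
    (h.kok b)

/-- PROOF: `exists_continuous_one_zero_of_isCompact`, as `exists_urysohn` in CutM/S. -/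
theorem exists_e {X : Type} [TopologicalSpace X] [T2Space X] [LocallyCompactSpace X] {K U : Set X}
    (hK : IsCompact K) (hU : IsOpen U) (hKU : K ⊆ U) :
    ∃ e : X → ℝ, C01 e ∧ HasCompactSupport e ∧ tsupport e ⊆ U ∧ ∀ y ∈ K, e y = 1 := by
  obtain ⟨V, hV, hKV, hVU, hVc⟩ := exists_open_between_and_isCompact_closure hK hU hKU
  obtain ⟨f, hf1, hf0, hfc, hf01⟩ := exists_continuous_one_zero_of_isCompact hK hV.isClosed_compl
    (Set.disjoint_compl_right_iff_subset.mpr hKV)
  refine ⟨fun y => f y, ⟨f.continuous, fun a => (hf01 a).1, fun a => (hf01 a).2⟩, hfc, ?_, ?_⟩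
  · refine subset_trans (closure_mono ?_) hVU
    intro y hy
    by_contra hyV
    exact hy (hf0 hyV)
  · intro y hy
    exact hf1 hy

end Pool.Agent.Lib.MP_aa9b81_an.Tv
end
end
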