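import Pool.Agent.Lib.MP_aa9b81_an.Mg.G038

section

/-!
# Transversals, part D4: cut off near a closed invariant set, kernels
-/

open scoped ENNReal Topology CompactlySupported Pointwise
open Function Filter MeasureTheory

noncomputable section

set_option linter.unusedSectionVars false

namespace Pool.Agent.Lib.MP_aa9b81_an.Tv

open Cut Hs Cb

variable {G J P : Type} [Group G] [TopologicalSpace G] [IsTopologicalGroup G]
  [LocallyCompactSpace G] [SecondCountableTopology G] [T2Space G] [MeasurableSpace G] [BorelSpace G]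
  [TopologicalSpace P] [T2Space P] [MulAction G P] [ContinuousSMul G P] [Nonempty J]

private theorem D4b_sub {f : P → ℝ} (h : C01 f) : C01 fun b => 1 - f b :=
  ⟨continuous_const.sub h.cont, fun a => sub_nonneg.2 (h.le_one a), fun a =>
    sub_le_self 1 (h.nonneg a)⟩

private theorem D4b_fok {κ : P → G → BL J} {C : Set G} {M : ℝ} (h : FOK C M κ) {e : P → ℝ}
    (he : C01 e) : FOK C M fun b g => ((e b : ℝ) : ℂ) • κ b g := by
  refine ⟨h.cpt, h.nonneg, fun v => ?_, fun b g => ?_, fun b g hg => ?_⟩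
  · have h1 : Continuous fun p : P × G => ((e p.1 : ℝ) : ℂ) :=
      Complex.continuous_ofReal.comp (he.cont.comp continuous_fst)
    exact h1.smul (h.cont v)
  · rw [norm_smul, Complex.norm_real, Real.norm_of_nonneg (he.nonneg b)]
    exact (mul_le_of_le_one_left (norm_nonneg _) (he.le_one b)).trans (h.bdd b g)
  · rw [h.supp b g hg, smul_zero]

/-- At `b`, the kernel `e κ` is the product of the function `a ↦ e (a⁻¹ b)` and the kernel `κ`. -/
private theorem D4b_opF {κ : P → G → BL J} {C : Set G} {M : ℝ} (h : FOK C M κ) {e : P → ℝ}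
    (he : C01 e) (b : P) : opF (fun b g => ((e b : ℝ) : ℂ) • κ b g) b =
      (Ms fun a : G => e (a⁻¹ • b)).comp (opF κ b) := by
  have h1 : C01 fun a : G => e (a⁻¹ • b) :=
    ⟨he.cont.comp (by fun_prop), fun a => he.nonneg _, fun a => he.le_one _⟩
  have h2 := Ms_comp_opk h1 (h.kok b)
  exact h2.symm

/-- PROOF. `FOK C M κ` (`IsCk.fok`), `m = ‖pullG c (fam (opF κ))‖`, `ε' = ε / (2 (M cs C + 1))`, the window `K`, `z`, `t` of `exists_win hA` for `C`, `ε'`; `s₀` with `s₀ = 1` on `K` (`exists_e` for `univ`), `S = tsupport s₀`.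
`K₁ = {b | m + ε/2 ≤ wn s₀ κ b}` is compact (`isCompact_wn_ge`) and disjoint from `range c` (`wn s₀ κ (c x) ≤ ‖opF κ (c x)‖ ≤ m`). `S⁻¹ • K₁` is compact, contained in the open set `(range c)ᶜ` (invariant); `e` by `exists_e`, `e = 1` on `S⁻¹ • K₁`.
`x - dgG e * x = fam (opF κ')`, `κ' b g = (1 - e b) • κ b g` (`dgG_mul_opF`, `FOK C M`). At `b`: `norm_opk_le_of_win` with `R = m + ε/2`: `Ms s_t (opF κ' b) Ms s_t = Ms (1 - e(a⁻¹ b)) Ms s_t (opF κ b) Ms s_t`; it is `0` if `t⁻¹ b ∈ K₁` (for `a ∈ t S`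
`a⁻¹ b ∈ S⁻¹ (t⁻¹ b)`), otherwise its norm is at most `wn s₀ κ (t⁻¹ b) < m + ε/2` (`norm_translate`). -/
theorem exists_cutoff_ck [LocallyCompactSpace P] (hA : PropAG G) {C : Type} [TopologicalSpace C]
    [T2Space C] [MulAction G C] [ContinuousSMul G C] {c : C → P} (hc : Topology.IsClosedEmbedding c)
    (hec : ∀ (g : G) x, c (g • x) = g • c x) {κ : P → G → BL J} (hκ : IsCk κ) {ε : ℝ}
    (hε : 0 < ε) :
    ∃ e : P → ℝ, C01 e ∧ HasCompactSupport e ∧ tsupport e ⊆ (Set.range c)ᶜ ∧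
      ‖fam (opF κ) - dgG e * fam (opF κ)‖ ≤ ‖(pullG c (fam (opF κ)) : FamG G J C)‖ + ε := by
  obtain ⟨D, M, hF⟩ := hκ.fok
  set m : ℝ := ‖(pullG c (fam (opF κ)) : FamG G J C)‖ with hm
  have hm0 : 0 ≤ m := norm_nonneg _
  have hcs : 0 ≤ cs D := Real.sqrt_nonneg _
  have hM := hF.nonneg
  have hMc : 0 ≤ M * cs D := mul_nonneg hM hcs
  have hε' : 0 < ε / (2 * (M * cs D + 1)) := by positivity
  obtain ⟨K, hK, z, t, hW⟩ := exists_win hA hF.cpt hε'
  obtain ⟨s₀, hs, hsc, -, hs1⟩ := exists_e hK isOpen_univ (Set.subset_univ K)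
  -- the compact set where the window is large
  have hK₁ : IsCompact {b : P | m + ε / 2 ≤ wn s₀ κ b} :=
    isCompact_wn_ge hκ hs hsc (by positivity)
  have hK₂ : IsCompact ((tsupport s₀)⁻¹ • {b : P | m + ε / 2 ≤ wn s₀ κ b}) :=
    hsc.isCompact.inv.smul_set hK₁
  have hwn : ∀ b : P, wn s₀ κ b ≤ ‖(opF κ b : HG G J →L[ℂ] HG G J)‖ := by
    intro b
    have h1 : ‖(Ms s₀ : HG G J →L[ℂ] HG G J)‖ ≤ 1 := norm_Ms_le hs
    calc wn s₀ κ b ≤ ‖(Ms s₀ : HG G J →L[ℂ] HG G J)‖ * ‖(opF κ b).comp (Ms s₀)‖ :=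
          ContinuousLinearMap.opNorm_comp_le _ _
      _ ≤ 1 * (‖opF κ b‖ * 1) := by
          refine mul_le_mul h1 ?_ (norm_nonneg _) zero_le_one
          exact (ContinuousLinearMap.opNorm_comp_le _ _).trans
            (mul_le_mul_of_nonneg_left h1 (norm_nonneg _))
      _ = ‖opF κ b‖ := by rw [one_mul, mul_one]
  have hdis : ∀ b : P, m + ε / 2 ≤ wn s₀ κ b → b ∉ Set.range c := by
    rintro _ hb ⟨x, rfl⟩
    have h1 : ‖(opF κ (c x) : HG G J →L[ℂ] HG G J)‖ ≤ m := by
      have h2 := FamG.norm_apply_le (pullG c (fam (opF κ)) : FamG G J C) x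
      rw [pullG_apply, fam_apply (norm_opF_le hF)] at h2
      exact h2
    have h3 := hwn (c x)
    linarith
  have hsub : (tsupport s₀)⁻¹ • {b : P | m + ε / 2 ≤ wn s₀ κ b} ⊆ (Set.range c)ᶜ := by
    rintro _ ⟨a, ha, b, hb, rfl⟩ ⟨x, hx⟩
    refine hdis b hb ⟨a⁻¹ • x, ?_⟩
    rw [hec, hx]
    exact inv_smul_smul a b
  obtain ⟨e, he, hce, hse, he1⟩ := exists_e hK₂ hc.isClosed_range.isOpen_compl hsub
  refine ⟨e, he, hce, hse, ?_⟩
  have hF' : FOK D M fun b g => (((1 - e b : ℝ)) : ℂ) • κ b g := D4b_fok hF (D4b_sub he)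
  have hF'' : FOK D M fun b g => ((e b : ℝ) : ℂ) • κ b g := D4b_fok hF he
  have e1 : fam (opF κ) - dgG e * fam (opF κ) =
      fam (opF fun b g => (((1 - e b : ℝ)) : ℂ) • κ b g) := by
    rw [dgG_mul_opF he hF]
    refine FamG.ext fun b => ?_
    rw [FamG.sub_apply, fam_apply (norm_opF_le hF), fam_apply (norm_opF_le hF''),
      fam_apply (norm_opF_le hF'), ← opF_sub hF hF'']
    congr 1
    funext b g
    push_cast
    rw [sub_smul, one_smul]
  rw [e1]
  refine norm_fam_le (by positivity) fun b => ?_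
  have hR : 0 ≤ m + ε / 2 := by positivity
  have hkey : ∀ x : G, ‖(Ms fun a => s₀ (x⁻¹ * a)).comp
      ((opF (fun b g => (((1 - e b : ℝ)) : ℂ) • κ b g) b).comp (Ms fun a => s₀ (x⁻¹ * a)))‖ ≤
        m + ε / 2 := by
    intro x
    have hsx : C01 fun a => s₀ (x⁻¹ * a) :=
      ⟨hs.cont.comp (continuous_const_mul _), fun a => hs.nonneg _, fun a => hs.le_one _⟩
    have he' : C01 fun a : G => 1 - e (a⁻¹ • b) :=
      ⟨continuous_const.sub (he.cont.comp (by fun_prop)), fun a => sub_nonneg.2 (he.le_one _),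
        fun a => sub_le_self 1 (he.nonneg _)⟩
    have e2 : (Ms fun a => s₀ (x⁻¹ * a) : HG G J →L[ℂ] HG G J).comp
        ((opF (fun b g => (((1 - e b : ℝ)) : ℂ) • κ b g) b).comp (Ms fun a => s₀ (x⁻¹ * a))) =
        (Ms fun a => s₀ (x⁻¹ * a) * (1 - e (a⁻¹ • b))).comp
          ((opF κ b).comp (Ms fun a => s₀ (x⁻¹ * a))) := by
      rw [D4b_opF hF (D4b_sub he) b, ← Ms_comp hsx he']
      rfl
    by_cases hx : m + ε / 2 ≤ wn s₀ κ (x⁻¹ • b)
    · have e3 : (fun a => s₀ (x⁻¹ * a) * (1 - e (a⁻¹ • b))) = fun _ : G => (0 : ℝ) := by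
        funext a
        by_cases ha : s₀ (x⁻¹ * a) = 0
        · rw [ha, zero_mul]
        · have h1 : e (a⁻¹ • b) = 1 := by
            refine he1 _ ?_
            refine ⟨(x⁻¹ * a)⁻¹, Set.inv_mem_inv.2 (subset_tsupport _ ha), x⁻¹ • b, hx, ?_⟩
            show (x⁻¹ * a)⁻¹ • x⁻¹ • b = a⁻¹ • b
            rw [smul_smul, mul_inv_rev, inv_inv, mul_assoc, mul_inv_cancel, mul_one]
          rw [h1, sub_self, mul_zero]
      rw [e2, e3]
      have e4 : (Ms fun _ : G => (0 : ℝ) : HG G J →L[ℂ] HG G J) = 0 := by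
        have e5 : (fun _ : G => (((0 : ℝ)) : ℂ) • (1 : BL J)) = fun _ => 0 := by
          funext a
          rw [Complex.ofReal_zero, zero_smul]
        unfold Ms
        rw [e5]
        exact Mul_zero
      rw [e4, ContinuousLinearMap.zero_comp, norm_zero]
      exact hR
    · rw [e2]
      have e6 : (Ms fun a => s₀ (x⁻¹ * a) * (1 - e (a⁻¹ • b)) : HG G J →L[ℂ] HG G J) =
          (Ms fun a : G => 1 - e (a⁻¹ • b)).comp (Ms fun a => s₀ (x⁻¹ * a)) := by
        rw [Ms_comp he' hsx]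
        congr 1
        funext a
        ring
      rw [e6]
      have h1 : ‖(Ms fun a => s₀ (x⁻¹ * a) : HG G J →L[ℂ] HG G J).comp
          ((opF κ b).comp (Ms fun a => s₀ (x⁻¹ * a)))‖ ≤ m + ε / 2 :=
        (norm_translate hF hs x b).trans (not_le.1 hx).le
      have h2 : ‖(Ms fun a : G => 1 - e (a⁻¹ • b) : HG G J →L[ℂ] HG G J)‖ ≤ 1 := norm_Ms_le he'
      calc _ = ‖(Ms fun a : G => 1 - e (a⁻¹ • b) : HG G J →L[ℂ] HG G J).comp
            ((Ms fun a => s₀ (x⁻¹ * a) : HG G J →L[ℂ] HG G J).comp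
              ((opF κ b).comp (Ms fun a => s₀ (x⁻¹ * a))))‖ := rfl
        _ ≤ 1 * (m + ε / 2) := (ContinuousLinearMap.opNorm_comp_le _ _).trans
            (mul_le_mul h2 h1 (norm_nonneg _) zero_le_one)
        _ = m + ε / 2 := one_mul _
  have h5 := norm_opk_le_of_win hε'.le hW (hF'.kok b) hs hs1 hR hkey
  have h6 : ε / (2 * (M * cs D + 1)) * M * cs D ≤ ε / 2 := by
    rw [mul_assoc, div_mul_eq_mul_div, div_le_div_iff₀ (by positivity) (by norm_num)]
    nlinarith
  calc ‖opF (fun b g => (((1 - e b : ℝ)) : ℂ) • κ b g) b‖ ≤ _ := h5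
    _ ≤ m + ε := by linarith

end Pool.Agent.Lib.MP_aa9b81_an.Tv
end
end

section

/-!
# Transversals, part D4c: cut off near a closed invariant set
-/

open scoped ENNReal Topology CompactlySupported Pointwise
open Function Filter MeasureTheory

noncomputable section

set_option linter.unusedSectionVars false

namespace Pool.Agent.Lib.MP_aa9b81_an.Tv

open Cut Hs Cb

variable {G J P : Type} [Group G] [TopologicalSpace G] [IsTopologicalGroup G]
  [LocallyCompactSpace G] [SecondCountableTopology G] [T2Space G] [MeasurableSpace G] [BorelSpace G]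
  [TopologicalSpace P] [T2Space P] [MulAction G P] [ContinuousSMul G P] [Nonempty J]

/-- PROOF: `exists_ck_near`, `exists_cutoff_ck`; as `exists_cutoff` in CutM/S. -/
theorem exists_cutoffG [LocallyCompactSpace P] (hA : PropAG G) {C : Type} [TopologicalSpace C]
    [T2Space C] [MulAction G C] [ContinuousSMul G C] {c : C → P} (hc : Topology.IsClosedEmbedding c)
    (hec : ∀ (g : G) x, c (g • x) = g • c x) {x : FamG G J P} (hx : x ∈ cpG G J P) {ε : ℝ}
    (hε : 0 < ε) :
    ∃ e : P → ℝ, C01 e ∧ HasCompactSupport e ∧ tsupport e ⊆ (Set.range c)ᶜ ∧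
      ‖x - dgG e * x‖ ≤ ‖(pullG c x : FamG G J C)‖ + ε := by
  obtain ⟨κ, hκ, hl⟩ := exists_ck_near hx (show (0 : ℝ) < ε / 4 by positivity)
  obtain ⟨e, he01, hcs, hts, hle⟩ := exists_cutoff_ck hA hc hec hκ (show (0 : ℝ) < ε / 4 by positivity)
  refine ⟨e, he01, hcs, hts, ?_⟩
  have h1 : x - dgG e * x = (x - fam (opF κ)) + (fam (opF κ) - dgG e * fam (opF κ)) +
      dgG e * (fam (opF κ) - x) := by
    rw [mul_sub]
    abel
  have h2 : ‖dgG e * (fam (opF κ) - x)‖ ≤ ε / 4 := by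
    refine (norm_mul_le _ _).trans ?_
    have h3 : ‖fam (opF κ) - x‖ ≤ ε / 4 := by
      rw [norm_sub_rev]
      exact hl.le
    calc ‖(dgG e : FamG G J P)‖ * ‖fam (opF κ) - x‖ ≤ 1 * (ε / 4) :=
          mul_le_mul (norm_dgG_le he01) h3 (norm_nonneg _) zero_le_one
      _ = ε / 4 := one_mul _
  have h4 : ‖(pullG c (fam (opF κ)) : FamG G J C)‖ ≤ ‖(pullG c x : FamG G J C)‖ + ε / 4 := by
    have h5 : (pullG c (fam (opF κ)) : FamG G J C) = pullG c x + pullG c (fam (opF κ) - x) := by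
      rw [map_sub]
      abel
    rw [h5]
    refine (norm_add_le _ _).trans (add_le_add_right ?_ _)
    refine (norm_pullG_le _ _).trans ?_
    rw [norm_sub_rev]
    exact hl.le
  rw [h1]
  have h6 := norm_add_le ((x - fam (opF κ)) + (fam (opF κ) - dgG e * fam (opF κ))) (dgG e * (fam (opF κ) - x))
  have h7 := norm_add_le (x - fam (opF κ)) (fam (opF κ) - dgG e * fam (opF κ))
  linarith

end Pool.Agent.Lib.MP_aa9b81_an.Tv
end
end

section

/-!
# Transversals, part D5: the ideal of an open invariant set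
-/

open scoped ENNReal Topology CompactlySupported ZeroAtInfty
open Function Filter MeasureTheory

noncomputable section

set_option linter.unusedSectionVars false

namespace Pool.Agent.Lib.MP_aa9b81_an.Tv

open Cut Hs Cb

variable {G J C P O : Type} [Group G] [TopologicalSpace G] [IsTopologicalGroup G]
  [LocallyCompactSpace G] [SecondCountableTopology G] [T2Space G] [MeasurableSpace G] [BorelSpace G]
  [TopologicalSpace C] [T2Space C] [MulAction G C] [ContinuousSMul G C]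
  [TopologicalSpace P] [T2Space P] [LocallyCompactSpace P] [MulAction G P] [ContinuousSMul G P]
  [TopologicalSpace O] [T2Space O] [MulAction G O] [ContinuousSMul G O] [Nonempty J]

/-- PROOF: `(e φ)` is supported in the compact set `tsupport φ ∩ (tsupport e ×ˢ univ)`, contained in the range of the open embedding `Prod.map o id`; its preimage is compact
(`IsOpenEmbedding`/`Topology.IsInducing.isCompact_preimage`); `HasCompactSupport.intro`. -/
theorem exists_resCc {o : O → P} (ho : Topology.IsOpenEmbedding o) {e : P → ℝ} (he : C01 e)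
    (hce : HasCompactSupport e) (hs : tsupport e ⊆ Set.range o) (φ : C_c(P × G, ℂ)) :
    ∃ ψ : C_c(O × G, ℂ), ∀ z g, ψ (z, g) = ((e (o z) : ℝ) : ℂ) * φ (o z, g) := by
  have hf : Topology.IsOpenEmbedding (Prod.map o (id : G → G)) := ho.prodMap .id
  have hcont : Continuous fun p : P × G => ((e p.1 : ℝ) : ℂ) * φ p :=
    (Complex.continuous_ofReal.comp (he.cont.comp continuous_fst)).mul φ.continuous
  have hK : IsCompact ((tsupport e ×ˢ (Set.univ : Set G)) ∩ tsupport φ) :=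
    φ.hasCompactSupport.isCompact.inter_left ((isClosed_tsupport e).prod isClosed_univ)
  have hKr : (tsupport e ×ˢ (Set.univ : Set G)) ∩ tsupport φ ⊆
      Set.range (Prod.map o (id : G → G)) := by
    rintro p ⟨⟨hp, -⟩, -⟩
    obtain ⟨z, hz⟩ := hs hp
    exact ⟨(z, p.2), Prod.ext hz rfl⟩
  have hK2 : IsCompact (Prod.map o (id : G → G) ⁻¹' ((tsupport e ×ˢ (Set.univ : Set G)) ∩ tsupport φ)) :=
    (hf.isEmbedding.isInducing.isCompact_preimage_iff hKr).2 hK
  refine ⟨⟨⟨fun p => ((e (o p.1) : ℝ) : ℂ) * φ (o p.1, p.2), hcont.comp hf.continuous⟩,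
    HasCompactSupport.intro hK2 fun p hp => ?_⟩, fun z g => rfl⟩
  change ((e (o p.1) : ℝ) : ℂ) * φ (o p.1, p.2) = 0
  by_cases h1 : o p.1 ∈ tsupport e
  · have h2 : (o p.1, p.2) ∉ tsupport φ := fun h => hp ⟨⟨h1, Set.mem_univ _⟩, h⟩
    rw [image_eq_zero_of_notMem_tsupport h2, mul_zero]
  · rw [image_eq_zero_of_notMem_tsupport h1, Complex.ofReal_zero, zero_mul]

/-- PROOF: `cpG_induction`, `isClosed_image_extG`; for `x = gen φ i j`: `dgG e * gen φ i j = fam (opF (fun b g => (e b φ (b, g)) • Eu i j))` (`dgG_mul_opF`), `exists_resCc` and `extG_gen` (with `ψ' ∈ C_c(P × G)`, `ψ' (b, g) = e b φ (b, g)`). -/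
theorem dgG_mul_mem_ext {c : C → P} {o : O ↪ P} (h : ClOp G c o) {e : P → ℝ} (he : C01 e)
    (hce : HasCompactSupport e) (hs : tsupport e ⊆ (Set.range c)ᶜ) {x : FamG G J P}
    (hx : x ∈ cpG G J P) : ∃ y ∈ cpG G J O, extG o y = dgG e * x := by
  have hs' : tsupport e ⊆ Set.range o := by rw [h.compl]; exact hs
  refine cpG_induction (p := fun x => ∃ y ∈ cpG G J O, extG o y = dgG e * x) ?_ ?_ ?_ ?_ x hx
  · exact (isClosed_image_extG o).preimage (continuous_const.mul continuous_id)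
  · exact ⟨0, zero_mem _, by rw [map_zero, mul_zero]⟩
  · rintro x y ⟨x₀, hx₀, hx⟩ ⟨y₀, hy₀, hy⟩
    exact ⟨x₀ + y₀, add_mem hx₀ hy₀, by rw [map_add, hx, hy, mul_add]⟩
  · intro φ i j
    obtain ⟨K, M, hK, hM, hb, hz⟩ := exists_bound φ
    have k1 : FOK K M fun (b : P) (g : G) => φ (b, g) • (Eu i j : BL J) :=
      FOK_smul (f := fun p => φ p) φ.continuous hK hM hb hz i j
    obtain ⟨ψ, hψ⟩ := exists_resCc h.ho he hce hs' φ
    have hcont : Continuous fun p : P × G => ((e p.1 : ℝ) : ℂ) * φ p :=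
      (Complex.continuous_ofReal.comp (he.cont.comp continuous_fst)).mul φ.continuous
    let ψ' : C_c(P × G, ℂ) := ⟨⟨fun p => ((e p.1 : ℝ) : ℂ) * φ p, hcont⟩,
      HasCompactSupport.intro φ.hasCompactSupport fun p hp => by
        change ((e p.1 : ℝ) : ℂ) * φ p = 0
        rw [image_eq_zero_of_notMem_tsupport hp, mul_zero]⟩
    have hψ' : ∀ b g, ψ' (b, g) = ((e b : ℝ) : ℂ) * φ (b, g) := fun _ _ => rfl
    refine ⟨gen ψ i j, gen_mem ψ i j, ?_⟩
    have e1 : extG o (gen ψ i j : FamG G J O) = gen ψ' i j := by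
      refine extG_gen h.eo (fun z g => ?_) (fun b hb g => ?_) i j
      · rw [hψ', hψ]
      · rw [hψ', image_eq_zero_of_notMem_tsupport fun h1 => hb (hs' h1), Complex.ofReal_zero, zero_mul]
    have e2 : (dgG e * gen φ i j : FamG G J P) = gen ψ' i j := by
      refine (dgG_mul_opF he k1).trans ?_
      have e3 : (fun (b : P) (g : G) => ((e b : ℝ) : ℂ) • φ (b, g) • (Eu i j : BL J)) =
          fun b g => ψ' (b, g) • (Eu i j : BL J) := by
        funext b g
        rw [hψ', mul_smul]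
      rw [e3]
      rfl
    rw [e1, e2]

end Pool.Agent.Lib.MP_aa9b81_an.Tv
end
end
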