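import Pool.Agent.Lib.MP_aa9b81_an.Mg.G039

section

/-!
# Transversals, part D5b: exactness
-/

open scoped ENNReal Topology CompactlySupported ZeroAtInfty
open Function Filter MeasureTheory

noncomputable section

set_option linter.unusedSectionVars false

namespace Pool.Agent.Lib.MP_aa9b81_an.Tv

open Cut Hs Cb

variable {G J C P O : Type} [Group G] [TopologicalSpace G] [IsTopologicalGroup G]
  [LocallyCompactSpace G] [SecondCountableTopology G] [T2Space G] [MeasurableSpace G] [BorelSpace G]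
  [TopologicalSpace C] [T2Space C] [MulAction G C] [ContinuousSMul G C]
  [TopologicalSpace P] [T2Space P] [LocallyCompactSpace P] [MulAction G P] [ContinuousSMul G P]
  [TopologicalSpace O] [T2Space O] [MulAction G O] [ContinuousSMul G O] [Nonempty J]

/-- Exactness. PROOF: `exists_cutoffG`, `dgG_mul_mem_ext`, `isClosed_image_extG`. -/
theorem mem_extG_of_pull_eq_zero (hA : PropAG G) {c : C → P} {o : O ↪ P} (h : ClOp G c o)
    {x : FamG G J P} (hx : x ∈ cpG G J P) (h0 : (pullG c x : FamG G J C) = 0) :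
    ∃ y ∈ cpG G J O, extG o y = x := by
  have hcl : IsClosed ((fun x => extG o x) '' (cpG G J O : Set (FamG G J O)) :
    Set (FamG G J P)) := isClosed_image_extG o
  have hmem : x ∈ ((fun x => extG o x) '' (cpG G J O : Set (FamG G J O)) :
      Set (FamG G J P)) := by
    rw [← hcl.closure_eq, Metric.mem_closure_iff]
    intro ε hε
    obtain ⟨e, he, hce, hs, hn⟩ := exists_cutoffG hA h.hc h.ec hx (half_pos hε)
    obtain ⟨y, hy, hyx⟩ := dgG_mul_mem_ext h he hce hs hx
    refine ⟨_, ⟨y, hy, rfl⟩, ?_⟩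
    rw [h0, norm_zero, zero_add] at hn
    rw [dist_eq_norm]
    change ‖x - extG o y‖ < ε
    rw [hyx]
    exact hn.trans_lt (half_lt_self hε)
  obtain ⟨y, hy, hyx⟩ := hmem
  exact ⟨y, hy, hyx⟩

/-- PROOF: `Cut.exists_extend_C0` for the closed embedding `Prod.map c id : C × G → P × G` gives `F ∈ C₀(P × G)`; multiply by a function of compact support which is `1` on the image of `tsupport φ` (`exists_e`). -/
theorem exists_extendCc {c : C → P} (hc : Topology.IsClosedEmbedding c) (φ : C_c(C × G, ℂ)) :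
    ∃ ψ : C_c(P × G, ℂ), ∀ z g, ψ (c z, g) = φ (z, g) := by
  have hc' : Topology.IsClosedEmbedding (Prod.map c id : C × G → P × G) :=
    hc.prodMap Topology.IsClosedEmbedding.id
  obtain ⟨F, hF⟩ := exists_extend_C0 hc'
    (⟨⟨φ, φ.continuous⟩, φ.hasCompactSupport.is_zero_at_infty⟩ : C₀(C × G, ℂ))
  have hF' : ∀ w : C × G, F (Prod.map c id w) = φ w := hF
  have hK : IsCompact (Prod.map c id '' tsupport φ : Set (P × G)) :=
    φ.hasCompactSupport.isCompact.image hc'.continuous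
  obtain ⟨e, he, hce, -, h1⟩ := exists_e hK isOpen_univ (Set.subset_univ _)
  have hcont : Continuous fun p : P × G => ((e p : ℝ) : ℂ) * F p :=
    (Complex.continuous_ofReal.comp he.cont).mul F.continuous
  refine ⟨⟨⟨fun p : P × G => ((e p : ℝ) : ℂ) * F p, hcont⟩,
    HasCompactSupport.intro hce fun p hp => ?_⟩, fun z g => ?_⟩
  · have h2 : e p = 0 := image_eq_zero_of_notMem_tsupport hp
    change ((e p : ℝ) : ℂ) * F p = 0
    rw [h2, Complex.ofReal_zero, zero_mul]
  · change ((e (c z, g) : ℝ) : ℂ) * F (c z, g) = φ (z, g)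
    have h3 : F (c z, g) = φ (z, g) := hF' (z, g)
    rw [h3]
    by_cases hz : (z, g) ∈ tsupport φ
    · rw [h1 (c z, g) ⟨(z, g), hz, rfl⟩, Complex.ofReal_one, one_mul]
    · rw [image_eq_zero_of_notMem_tsupport hz, mul_zero]

/-- PROOF: `cpG_induction` for `p b := ∀ ε > 0, ∃ a ∈ cpG G J P, ‖b - pullG c a‖ < ε`; `gen φ i j`: `exists_extendCc`, `pullG_gen`. -/
theorem dense_pullG {c : C → P} (hc : Topology.IsClosedEmbedding c)
    (hec : ∀ (g : G) x, c (g • x) = g • c x) {b : FamG G J C} (hb : b ∈ cpG G J C) {ε : ℝ}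
    (hε : 0 < ε) : ∃ a ∈ cpG G J P, ‖b - pullG c a‖ < ε := by
  revert ε
  refine cpG_induction (p := fun b : FamG G J C => ∀ {ε : ℝ}, 0 < ε →
    ∃ a ∈ cpG G J P, ‖b - pullG c a‖ < ε) ?_ ?_ ?_ ?_ b hb
  · refine isClosed_of_closure_subset fun x hx => ?_
    intro ε hε
    obtain ⟨y, hy, hxy⟩ := Metric.mem_closure_iff.1 hx (ε / 2) (half_pos hε)
    obtain ⟨a, ha, hya⟩ := hy (half_pos hε)
    refine ⟨a, ha, ?_⟩
    rw [dist_eq_norm] at hxy
    have h1 : x - pullG c a = (x - y) + (y - pullG c a) := by abel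
    rw [h1]
    refine (norm_add_le _ _).trans_lt ?_
    linarith
  · intro ε hε
    refine ⟨0, zero_mem _, ?_⟩
    rw [map_zero, sub_zero, norm_zero]
    exact hε
  · intro x y hx hy ε hε
    obtain ⟨a, ha, hxa⟩ := hx (half_pos hε)
    obtain ⟨a', ha', hya⟩ := hy (half_pos hε)
    refine ⟨a + a', add_mem ha ha', ?_⟩
    have h1 : x + y - pullG c (a + a') = (x - pullG c a) + (y - pullG c a') := by
      rw [map_add]
      abel
    rw [h1]
    refine (norm_add_le _ _).trans_lt ?_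
    linarith
  · intro φ i j ε hε
    obtain ⟨ψ, hψ⟩ := exists_extendCc (G := G) hc φ
    refine ⟨gen ψ i j, gen_mem ψ i j, ?_⟩
    rw [pullG_gen hec (fun z g => (hψ z g).symm), sub_self, norm_zero]
    exact hε

end Pool.Agent.Lib.MP_aa9b81_an.Tv
end
end

section

/-!
# Transversals, part D5c: norm control
-/

open scoped ENNReal Topology CompactlySupported ZeroAtInfty
open Function Filter MeasureTheory

noncomputable section

set_option linter.unusedSectionVars false

namespace Pool.Agent.Lib.MP_aa9b81_an.Tv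

open Cut Hs Cb

variable {G J C P O : Type} [Group G] [TopologicalSpace G] [IsTopologicalGroup G]
  [LocallyCompactSpace G] [SecondCountableTopology G] [T2Space G] [MeasurableSpace G] [BorelSpace G]
  [TopologicalSpace C] [T2Space C] [MulAction G C] [ContinuousSMul G C]
  [TopologicalSpace P] [T2Space P] [LocallyCompactSpace P] [MulAction G P] [ContinuousSMul G P]
  [TopologicalSpace O] [T2Space O] [MulAction G O] [ContinuousSMul G O] [Nonempty J]

/-- PROOF: as `dense_pull_closed'` in CutM/S: `exists_cutoffG`, `dgG_mul_mem`; `pullG c (dgG e) = 0` (`dgG_apply`: `e (a⁻¹ • c x) = e (c (a⁻¹ • x)) = 0`). -/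
theorem dense_pullG' (hA : PropAG G) {c : C → P} (hc : Topology.IsClosedEmbedding c)
    (hec : ∀ (g : G) x, c (g • x) = g • c x) {b : FamG G J C} (hb : b ∈ cpG G J C) {ε : ℝ}
    (hε : 0 < ε) : ∃ a ∈ cpG G J P, ‖b - pullG c a‖ < ε ∧ ‖a‖ ≤ ‖b‖ + ε := by
  obtain ⟨a₀, ha₀, hb₀⟩ := dense_pullG hc hec hb (half_pos hε)
  obtain ⟨e, he, -, hes, hen⟩ := exists_cutoffG hA hc hec ha₀ (half_pos hε)
  have hpd : (pullG c (dgG e : FamG G J P) : FamG G J C) = 0 := by
    refine FamG.ext fun x => ?_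
    rw [pullG_apply, dgG_apply he]
    have h1 : (fun a : G => e (a⁻¹ • c x)) = fun _ => (0 : ℝ) := by
      funext a
      rw [← hec a⁻¹ x]
      by_contra h3
      exact hes (subset_tsupport _ h3) ⟨a⁻¹ • x, rfl⟩
    rw [h1]
    have h2 : (Ms (fun _ : G => (0 : ℝ)) : HG G J →L[ℂ] HG G J) = 0 := by
      have h4 : (fun _ : G => (((0 : ℝ) : ℂ) • (1 : BL J))) = fun _ => (0 : BL J) := by
        funext a
        rw [Complex.ofReal_zero, zero_smul]
      show Mul (fun a : G => (((0 : ℝ) : ℂ) • (1 : BL J))) = 0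
      rw [h4]
      exact Mul_zero
    rw [h2]
    rfl
  have hpa : (pullG c (a₀ - dgG e * a₀) : FamG G J C) = pullG c a₀ := by
    rw [map_sub, map_mul, hpd, zero_mul, sub_zero]
  refine ⟨a₀ - dgG e * a₀, sub_mem ha₀ (dgG_mul_mem he ha₀), ?_, ?_⟩
  · rw [hpa]
    linarith
  · have h1 : ‖(pullG c a₀ : FamG G J C)‖ ≤ ‖b‖ + ε / 2 := by
      have h2 : ‖(pullG c a₀ : FamG G J C)‖ ≤ ‖b‖ + ‖b - pullG c a₀‖ := by
        calc ‖(pullG c a₀ : FamG G J C)‖ = ‖b - (b - pullG c a₀)‖ := by rw [sub_sub_cancel]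
          _ ≤ ‖b‖ + ‖b - pullG c a₀‖ := norm_sub_le _ _
      linarith
    linarith

/-- PROOF: as `normLift_closed` in CutM/S. -/
theorem normLift_closedG (hA : PropAG G) {c : C → P} (hc : Topology.IsClosedEmbedding c)
    (hec : ∀ (g : G) x, c (g • x) = g • c x) :
    NormLift (pullG c : FamG G J P →+* FamG G J C) (cpG G J P) (cpG G J C) := by
  have hmemc : ∀ a ∈ cpG G J P, (pullG c a : FamG G J C) ∈ cpG G J C :=
    pullG_mem hc.isProperMap hec
  refine ⟨hmemc, fun b hb => ?_⟩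
  by_cases hb0 : b = 0
  · exact ⟨0, zero_mem _, by rw [map_zero, hb0], by simp⟩
  have hN : 0 < ‖b‖ := norm_pos_iff.mpr hb0
  -- one step
  have hstep : ∀ (n : ℕ) (x : cpG G J C), ∃ a ∈ cpG G J P, ‖(x : FamG G J C) - pullG c a‖ <
      (1 / 2) ^ (n + 3) * ‖b‖ ∧ ‖a‖ ≤ ‖(x : FamG G J C)‖ + (1 / 2) ^ (n + 3) * ‖b‖ := fun n x =>
    dense_pullG' hA hc hec x.2 (by positivity)
  choose A hA1 hA2 hA3 using hstep
  let bs : ℕ → cpG G J C := fun n =>
    Nat.rec (motive := fun _ => cpG G J C) ⟨b, hb⟩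
      (fun n x => ⟨(x : FamG G J C) - pullG c (A n x), sub_mem x.2 (hmemc _ (hA1 n x))⟩) n
  have hbs0 : ((bs 0 : cpG G J C) : FamG G J C) = b := rfl
  have hbs : ∀ n, ((bs (n + 1) : cpG G J C) : FamG G J C)
      = (bs n : FamG G J C) - pullG c (A n (bs n)) := fun n => rfl
  have hnb : ∀ n, ‖(bs (n + 1) : FamG G J C)‖ ≤ (1 / 2) ^ (n + 3) * ‖b‖ := fun n => by
    rw [hbs]
    exact (hA2 n (bs n)).le
  have hna0 : ‖A 0 (bs 0)‖ ≤ (1 + 1 / 8) * ‖b‖ := by
    have h1 := hA3 0 (bs 0)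
    rw [hbs0] at h1
    calc ‖A 0 (bs 0)‖ ≤ ‖b‖ + (1 / 2) ^ (0 + 3) * ‖b‖ := h1
      _ = (1 + 1 / 8) * ‖b‖ := by ring
  have hna : ∀ n, ‖A (n + 1) (bs (n + 1))‖ ≤ (3 / 16 * ‖b‖) * (1 / 2) ^ n := fun n => by
    have h1 := hA3 (n + 1) (bs (n + 1))
    have h2 := hnb n
    calc ‖A (n + 1) (bs (n + 1))‖ ≤ (1 / 2) ^ (n + 3) * ‖b‖ + (1 / 2) ^ (n + 1 + 3) * ‖b‖ := by
          linarith
      _ = (3 / 16 * ‖b‖) * (1 / 2) ^ n := by
          rw [pow_add, pow_add, pow_add]
          ring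
  have hgeo : HasSum (fun n : ℕ => (3 / 16 * ‖b‖) * (1 / 2 : ℝ) ^ n) ((3 / 16 * ‖b‖) * 2) :=
    hasSum_geometric_two.mul_left _
  have hs1 : Summable fun n => A (n + 1) (bs (n + 1)) := Summable.of_norm_bounded hgeo.summable hna
  have hs : Summable fun n => A n (bs n) := (summable_nat_add_iff 1).mp hs1
  have hpart : ∀ n, (pullG c (∑ i ∈ Finset.range n, A i (bs i)) : FamG G J C) = b - bs n := by
    intro n
    induction n with
    | zero => rw [Finset.sum_range_zero, map_zero, hbs0, sub_self]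
    | succ n ih =>
      rw [Finset.sum_range_succ, map_add, ih, hbs]
      abel
  have hlim := hs.hasSum.tendsto_sum_nat
  refine ⟨∑' n, A n (bs n), ?_, ?_, ?_⟩
  · exact (isClosed_cpG (G := G) (J := J) (B := P)).mem_of_tendsto hlim
      (Filter.Eventually.of_forall fun n => sum_mem fun i _ => hA1 i (bs i))
  · have h1 : Tendsto (fun n => (pullG c (∑ i ∈ Finset.range n, A i (bs i)) : FamG G J C)) atTop
        (𝓝 (pullG c (∑' n, A n (bs n)))) := ((continuous_pullG c).tendsto _).comp hlim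
    have h2 : Tendsto (fun n => (bs n : FamG G J C)) atTop (𝓝 0) := by
      rw [← tendsto_add_atTop_iff_nat 1, tendsto_zero_iff_norm_tendsto_zero]
      have h3 : Tendsto (fun n : ℕ => (1 / 2 : ℝ) ^ (n + 3) * ‖b‖) atTop (𝓝 0) := by
        have h4 := (tendsto_pow_atTop_nhds_zero_of_lt_one (r := (1 / 2 : ℝ)) (by norm_num)
          (by norm_num)).comp (tendsto_add_atTop_nat 3)
        simpa using h4.mul_const ‖b‖
      exact squeeze_zero (fun n => norm_nonneg _) hnb h3
    have h3 : Tendsto (fun n => b - (bs n : FamG G J C)) atTop (𝓝 (b - 0)) :=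
      tendsto_const_nhds.sub h2
    rw [sub_zero] at h3
    simp only [hpart] at h1
    exact tendsto_nhds_unique h1 h3
  · rw [hs.tsum_eq_zero_add]
    have h1 : ‖∑' n, A (n + 1) (bs (n + 1))‖ ≤ (3 / 16 * ‖b‖) * 2 := tsum_of_norm_bounded hgeo hna
    calc ‖A 0 (bs 0) + ∑' n, A (n + 1) (bs (n + 1))‖ ≤ ‖A 0 (bs 0)‖ + _ := norm_add_le _ _
      _ ≤ (1 + 1 / 8) * ‖b‖ + (3 / 16 * ‖b‖) * 2 := add_le_add hna0 h1
      _ ≤ 2 * ‖b‖ := by nlinarith

end Pool.Agent.Lib.MP_aa9b81_an.Tv
end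
end

section

/-!
# Transversals, part D5d: the exact sequence of a closed invariant set
-/

open scoped ENNReal Topology CompactlySupported ZeroAtInfty
open Function Filter MeasureTheory

noncomputable section

set_option linter.unusedSectionVars false

namespace Pool.Agent.Lib.MP_aa9b81_an.Tv

open Cut Hs Cb

variable {G J C P O : Type} [Group G] [TopologicalSpace G] [IsTopologicalGroup G]
  [LocallyCompactSpace G] [SecondCountableTopology G] [T2Space G] [MeasurableSpace G] [BorelSpace G]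
  [TopologicalSpace C] [T2Space C] [MulAction G C] [ContinuousSMul G C]
  [TopologicalSpace P] [T2Space P] [LocallyCompactSpace P] [MulAction G P] [ContinuousSMul G P]
  [TopologicalSpace O] [T2Space O] [MulAction G O] [ContinuousSMul G O] [Nonempty J]

/-- The exact sequence of a closed invariant subset. -/
theorem exactSeq_closedG (hA : PropAG G) {c : C → P} {o : O ↪ P} (h : ClOp G c o) :
    ExactSeq (extG o : FamG G J O →ₙ+* FamG G J P) (pullG c : FamG G J P →+* FamG G J C)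
      (cpG G J O) (cpG G J P) (cpG G J C) where
  norm := norm_extG o
  mem := extG_mem h.ho h.eo
  ker _ ha h0 := mem_extG_of_pull_eq_zero hA h ha h0
  lift := normLift_closedG hA h.hc h.ec
  closed₀ := isClosed_cpG
  closed := isClosed_cpG
  closed' := isClosed_cpG

end Pool.Agent.Lib.MP_aa9b81_an.Tv
end
end
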