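import Pool.Agent.Lib.MP_aa9b81_an.Tv.S3
import Pool.Agent.Lib.MP_aa9b81_an.Mg.G040
import Pool.Agent.Lib.MP_aa9b81_an.Tv.Lcd4
import Pool.Agent.Lib.MP_aa9b81_an.Mg.G046

section

/-!
# Transversals, suspension: exact sequences and the suspension
-/

open scoped ENNReal Topology CompactlySupported
open Function Filter MeasureTheory

noncomputable section

set_option linter.unusedSectionVars false

namespace Pool.Agent.Lib.MP_aa9b81_an.Tv

open Cut Hs Cb

section Susp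

variable {G C P O : Type} [Group G] [TopologicalSpace G] [IsTopologicalGroup G]
  [LocallyCompactSpace G] [SecondCountableTopology G] [T2Space G] [MeasurableSpace G] [BorelSpace G]
  [TopologicalSpace C] [T2Space C] [MulAction G C] [ContinuousSMul G C]
  [TopologicalSpace P] [T2Space P] [LocallyCompactSpace P] [MulAction G P] [ContinuousSMul G P]
  [TopologicalSpace O] [T2Space O] [MulAction G O] [ContinuousSMul G O] {c : C → P} {o : O ↪ P}

theorem ClOp.prodMap (h : ClOp G c o) (W : Type) [TopologicalSpace W] [MulAction G W] :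
    ClOp G (Prod.map c (id : W → W))
      (⟨Prod.map o (id : W → W), o.injective.prodMap injective_id⟩ : (O × W) ↪ (P × W)) where
  hc := h.hc.prodMap Topology.IsClosedEmbedding.id
  ec g x := Prod.ext (h.ec g x.1) rfl
  ho := h.ho.prodMap Topology.IsOpenEmbedding.id
  eo g x := Prod.ext (h.eo g x.1) rfl
  compl := by
    change Set.range (Prod.map o (id : W → W)) = (Set.range (Prod.map c (id : W → W)))ᶜ
    rw [Set.range_prodMap, Set.range_prodMap, h.compl]
    ext ⟨x, t⟩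
    simp

/-- A closed invariant subset and its complement. -/
theorem clOp_invSet {Y₀ : InvSet G P} (h : IsClosed Y₀.carrier) :
    ClOp G Y₀.val (⟨Y₀.cpl.val, Y₀.cpl.val_injective⟩ : Y₀.cpl.Pt ↪ P) where
  hc := IsClosed.isClosedEmbedding_subtypeVal h
  ec _ _ := rfl
  ho := IsOpen.isOpenEmbedding_subtypeVal h.isOpen_compl
  eo _ _ := rfl
  compl := by
    ext x
    constructor
    · rintro ⟨y, rfl⟩ ⟨z, hz⟩
      have h1 : z.1 = y.1 := hz
      exact y.2 (h1 ▸ z.2)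
    · intro hx
      exact ⟨⟨x, fun h2 => hx ⟨⟨x, h2⟩, rfl⟩⟩, rfl⟩

/-- The end point of the cylinder. -/
def oneP (P : Type) (p : P) : P × OC := (p, OC.one)

/-- The open cylinder in the half open cylinder. -/
def embO (P : Type) : (P × OO) ↪ (P × OC) :=
  ⟨Prod.map (id : P → P) OO.toOC, injective_id.prodMap fun _ _ h =>
    Subtype.ext (congrArg (fun τ : OC => τ.1) h)⟩

theorem clOp_OC : ClOp G (oneP P) (embO P) where
  hc := (embeddings_OC (P := P)).2.1
  ec _ _ := rfl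
  ho := (embeddings_OC (P := P)).1
  eo _ _ := rfl
  compl := (embeddings_OC (P := P)).2.2

/-- Restriction and extension. -/
theorem pullG_extG {C₀ P₀ : Type} {ι : P₀ ↪ P} {ι' : C₀ ↪ C} {q : C → P} {q₀ : C₀ → P₀}
    (h : ∀ x, q (ι' x) = ι (q₀ x)) (h' : ∀ x, q x ∈ Set.range ι → x ∈ Set.range ι')
    (a : FamG G ℕ P₀) : pullG q (extG ι a) = extG ι' (pullG q₀ a) := by
  refine FamG.ext fun x => ?_
  rw [pullG_apply]
  by_cases hx : x ∈ Set.range ι'
  · obtain ⟨z, rfl⟩ := hx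
    rw [h, extG_apply, extG_apply, pullG_apply]
  · rw [extG_apply_of_notMem ι' _ hx, extG_apply_of_notMem ι _ fun h2 => hx (h' x h2)]

theorem pullU_extU {C₀ P₀ : Type} {ι : P₀ ↪ P} {ι' : C₀ ↪ C} {q : C → P} {q₀ : C₀ → P₀}
    (h : ∀ x, q (ι' x) = ι (q₀ x)) (h' : ∀ x, q x ∈ Set.range ι → x ∈ Set.range ι')
    (u : (FamG G ℕ P₀)ˣ) :
    pullU q (extUnit (extG ι) u) = extUnit (extG ι') (pullU q₀ u) := by
  refine Units.ext ?_
  change pullG q (1 + extG ι ((u : FamG G ℕ P₀) - 1)) =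
    1 + extG ι' ((pullG q₀ (u : FamG G ℕ P₀) : FamG G ℕ C₀) - 1)
  rw [map_add, map_one, pullG_extG h h', map_sub, map_one]

theorem pullU_extU_one {P₀ : Type} {ι : P₀ ↪ P} {q : C → P} (h : ∀ x, q x ∉ Set.range ι)
    (u : (FamG G ℕ P₀)ˣ) : pullU q (extUnit (extG ι) u) = 1 := by
  refine Units.ext (FamG.ext fun x => ?_)
  change (1 : FamG G ℕ P) (q x) + extG ι ((u : FamG G ℕ P₀) - 1) (q x) = (1 : FamG G ℕ C) x
  rw [extG_apply_of_notMem ι _ (h x), add_zero]
  rfl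

theorem extU_injective {P₀ : Type} (ι : P₀ ↪ P) {u v : (FamG G ℕ P₀)ˣ}
    (h : extUnit (extG ι) u = extUnit (extG ι) v) : u = v := by
  have h2 : 1 + extG ι ((u : FamG G ℕ P₀) - 1) = 1 + extG ι ((v : FamG G ℕ P₀) - 1) :=
    congrArg (fun x : (FamG G ℕ P)ˣ => (x : FamG G ℕ P)) h
  have h3 := add_left_cancel h2
  refine Units.ext (sub_eq_zero.1 ?_)
  have h4 : (u : FamG G ℕ P₀) - v = ((u : FamG G ℕ P₀) - 1) - ((v : FamG G ℕ P₀) - 1) := by abel
  rw [← norm_eq_zero, ← norm_extG ι, h4, map_sub, h3, sub_self, norm_zero]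

/-- A path of units which is `1` over `C`, for an element of `E1` of the complement. -/
theorem exists_path_unit_relG (h : ClOp G c o) {v : (FamG G ℕ O)ˣ} (hv : v ∈ E1 (cpG G ℕ O)) :
    ∃ ρ ∈ GL1 (cpG G ℕ (P × OC)), pullU (oneP P) ρ = extUnit (extG o) v ∧
      pullU (Prod.map c (id : OC → OC)) ρ = 1 := by
  have hle : E1 (cpG G ℕ O) ≤ ((GL1 (cpG G ℕ (P × OC)) ⊓
      (pullU (G := G) (J := ℕ) (Prod.map c (id : OC → OC))).ker).map
        (pullU (G := G) (J := ℕ) (oneP P))).comap (extUnit (extG (G := G) (J := ℕ) o)) := by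
    refine (Subgroup.closure_le _).2 ?_
    rintro w ⟨hw, hw1⟩
    obtain ⟨ρ, hρ, hρ2⟩ := exists_unit_tauG (extG_mem h.ho h.eo _ hw.1) (by rwa [norm_extG])
    refine ⟨ρ, ⟨hρ, ?_⟩, ?_⟩
    · refine Units.ext (FamG.ext fun x => ?_)
      have e : ((pullU (Prod.map c (id : OC → OC)) ρ : (FamG G ℕ (C × OC))ˣ) :
          FamG G ℕ (C × OC)) x = (ρ : FamG G ℕ (P × OC)) (c x.1, x.2) := rfl
      have e2 : (1 + tauG (extG o ((w : FamG G ℕ O) - 1)) : FamG G ℕ (P × OC)) (c x.1, x.2) =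
          1 + ((x.2.1 : ℝ) : ℂ) • (extG o ((w : FamG G ℕ O) - 1) : FamG G ℕ P) (c x.1) := rfl
      rw [e, hρ2, e2, extG_apply_of_notMem, smul_zero, add_zero]
      · rfl
      · rw [h.compl]
        exact fun h => h ⟨_, rfl⟩
    · refine Units.ext (FamG.ext fun x => ?_)
      have e : ((pullU (oneP P) ρ : (FamG G ℕ P)ˣ) : FamG G ℕ P) x =
          (ρ : FamG G ℕ (P × OC)) (x, OC.one) := rfl
      have e2 : (1 + tauG (extG o ((w : FamG G ℕ O) - 1)) : FamG G ℕ (P × OC)) (x, OC.one) =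
          1 + ((1 : ℝ) : ℂ) • (extG o ((w : FamG G ℕ O) - 1) : FamG G ℕ P) x := rfl
      rw [e, hρ2, e2, Complex.ofReal_one, one_smul]
      rfl
  obtain ⟨ρ, ⟨hρ1, hρ2⟩, hρ3⟩ := hle hv
  exact ⟨ρ, hρ1, hρ3, hρ2⟩

/-- If `K₁(O) = 0` the restriction to `C` is injective. -/
theorem injG_of_van (hA : PropAG G) (h : ClOp G c o) (h0 : VanG G O) : InjG G c :=
  fun _ hu hu2 => (exactSeq_closedG hA h).inj h0 hu hu2

theorem toOC_mem {τ : OC} (h : τ.1 < 1) : ∃ t : OO, OO.toOC t = τ := ⟨⟨τ.1, τ.2.1, h⟩, rfl⟩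

theorem embO_range_map {q : C → P} (x : C × OC)
    (h : Prod.map q (id : OC → OC) x ∈ Set.range (embO P)) : x ∈ Set.range (embO C) := by
  obtain ⟨⟨p, t⟩, hp⟩ := h
  have h1 : OO.toOC t = x.2 := congrArg Prod.snd hp
  exact ⟨(x.1, t), Prod.ext rfl h1⟩

theorem oneP_notMem (p : P) : oneP P p ∉ Set.range (embO P) := by
  rintro ⟨⟨p', t⟩, hp⟩
  have h1 : OO.toOC t = OC.one := congrArg Prod.snd hp
  have h2 : t.1 = 1 := congrArg (fun τ : OC => τ.1) h1
  exact absurd t.2.2 (by rw [h2]; exact lt_irrefl _)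

/-- If `K₁(O) = 0` the restriction to `C × (0,1)` is surjective. -/
theorem surG_of_van (hA : PropAG G) (h : ClOp G c o) (h0 : VanG G O) :
    SurG G (Prod.map c (id : OO → OO)) := by
  intro u' hu'
  have : LocallyCompactSpace C := h.hc.locallyCompactSpace
  -- step 1
  have hu1 : extUnit (extG (embO C)) u' ∈ GL1 (cpG G ℕ (C × OC)) :=
    extUnit_mem_GL1 (extG_mem (clOp_OC (G := G) (P := C)).ho (clOp_OC (G := G) (P := C)).eo) hu'
  have hu2 := VanG_prod_OC (G := G) (P := C) hu1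
  -- step 2
  obtain ⟨w, hw, hwu⟩ := E1_lift isClosed_cpG isClosed_cpG
    (exactSeq_closedG hA (h.prodMap OC)).lift hu2
  have hwu' : pullU (Prod.map c (id : OC → OC)) w = extUnit (extG (embO C)) u' := hwu
  -- step 3
  have hw1 : pullU (oneP P) w ∈ GL1 (cpG G ℕ P) :=
    pullU_GL1 (clOp_OC (G := G) (P := P)).hc.isProperMap (fun _ _ => rfl) (E1_le _ hw)
  have hw2 : pullU c (pullU (oneP P) w) = 1 := by
    have h1 : pullU c (pullU (oneP P) w) =
        pullU (oneP C) (pullU (Prod.map c (id : OC → OC)) w) :=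
      Units.ext (FamG.ext fun y => rfl)
    rw [h1, hwu', pullU_extU_one oneP_notMem]
  obtain ⟨v, hv, hvw⟩ := (exactSeq_closedG hA h).exists_ext hw1 hw2
  -- step 4
  obtain ⟨ρ, hρ, hρ1, hρ2⟩ := exists_path_unit_relG h (h0 hv)
  -- step 5
  have hx : w * ρ⁻¹ ∈ GL1 (cpG G ℕ (P × OC)) := mul_mem (E1_le _ hw) (inv_mem hρ)
  have hx1 : pullU (oneP P) (w * ρ⁻¹) = 1 := by
    rw [map_mul, map_inv, hρ1, hvw, mul_inv_cancel]
  obtain ⟨u, hu, hux⟩ := (exactSeq_closedG hA (clOp_OC (G := G) (P := P))).exists_ext hx hx1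
  refine ⟨u, hu, ?_⟩
  -- step 6
  have hx2 : pullU (Prod.map c (id : OC → OC)) (w * ρ⁻¹) = extUnit (extG (embO C)) u' := by
    rw [map_mul, map_inv, hρ2, inv_one, mul_one, hwu']
  rw [← hux, pullU_extU (q₀ := Prod.map c (id : OO → OO)) (ι' := embO C) (fun _ => rfl)
    embO_range_map] at hx2
  rw [extU_injective _ hx2, inv_mul_cancel]
  exact one_mem _

theorem van_of_inj_sur (hA : PropAG G) (h : ClOp G c o) (hi : InjG G c)
    (hs : SurG G (Prod.map c (id : OO → OO))) : VanG G O := by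
  intro v hv
  have : LocallyCompactSpace O := h.ho.locallyCompactSpace
  have hno : ∀ x, c x ∉ Set.range o := fun x => by
    rw [h.compl]
    exact fun h => h ⟨_, rfl⟩
  -- the extension of `v` is in `E1`
  have hw0 : extUnit (extG o) v ∈ GL1 (cpG G ℕ P) := extUnit_mem_GL1 (extG_mem h.ho h.eo) hv
  have hw1 : extUnit (extG o) v ∈ E1 (cpG G ℕ P) := by
    refine hi _ hw0 ?_
    rw [pullU_extU_one hno]
    exact one_mem _
  obtain ⟨ρ, hρ, hρ1⟩ := exists_path_unitG hw1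
  have hρ1' : pullU (oneP P) ρ = extUnit (extG o) v := hρ1
  -- the restriction of the path to `C`
  have hOC := h.prodMap (G := G) OC
  have hl : pullU (Prod.map c (id : OC → OC)) ρ ∈ GL1 (cpG G ℕ (C × OC)) :=
    pullU_GL1 hOC.hc.isProperMap hOC.ec hρ
  have hl1 : pullU (oneP C) (pullU (Prod.map c (id : OC → OC)) ρ) = 1 := by
    have h1 : pullU (oneP C) (pullU (Prod.map c (id : OC → OC)) ρ) = pullU c (pullU (oneP P) ρ) :=
      Units.ext (FamG.ext fun y => rfl)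
    rw [h1, hρ1', pullU_extU_one hno]
  have : LocallyCompactSpace C := h.hc.locallyCompactSpace
  obtain ⟨l, hl2, hl3⟩ := (exactSeq_closedG hA (clOp_OC (G := G) (P := C))).exists_ext hl hl1
  -- the lift of `l`
  obtain ⟨w, hw, hwl⟩ : ∃ w ∈ GL1 (cpG G ℕ (P × OO)), pullU (Prod.map c (id : OO → OO)) w = l := by
    obtain ⟨u, hu, hu2⟩ := hs l hl2
    obtain ⟨e, he, he2⟩ := E1_lift isClosed_cpG isClosed_cpG
      (exactSeq_closedG hA (h.prodMap OO)).lift hu2
    have he3 : pullU (Prod.map c (id : OO → OO)) e =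
      (pullU (Prod.map c (id : OO → OO)) u)⁻¹ * l := he2
    refine ⟨u * e, mul_mem hu (E1_le _ he), ?_⟩
    rw [map_mul, he3, mul_inv_cancel_left]
  -- the corrected path
  have hcl := clOp_OC (G := G) (P := P)
  have hσ : ρ * (extUnit (extG (embO P)) w)⁻¹ ∈ GL1 (cpG G ℕ (P × OC)) :=
    mul_mem hρ (inv_mem (extUnit_mem_GL1 (extG_mem hcl.ho hcl.eo) hw))
  have hσ1 : pullU (Prod.map c (id : OC → OC)) (ρ * (extUnit (extG (embO P)) w)⁻¹) = 1 := by
    rw [map_mul, map_inv, pullU_extU (q₀ := Prod.map c (id : OO → OO)) (ι' := embO C)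
      (fun _ => rfl) embO_range_map, hwl, hl3, mul_inv_cancel]
  obtain ⟨σ, hσ2, hσ3⟩ := (exactSeq_closedG hA hOC).exists_ext hσ hσ1
  have hσ4 : pullU (oneP O) σ ∈ E1 (cpG G ℕ O) :=
    pullU_E1 (clOp_OC (G := G) (P := O)).hc.isProperMap (fun _ _ => rfl)
      (VanG_prod_OC (G := G) (P := O) hσ2)
  have hσ5 : extUnit (extG o) (pullU (oneP O) σ) = extUnit (extG o) v := by
    have h1 := congrArg (Cb.pullU (G := G) (J := ℕ) (oneP P)) hσ3
    rw [map_mul, map_inv, hρ1', pullU_extU_one oneP_notMem, inv_one, mul_one] at h1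
    rw [← h1]
    refine (pullU_extU (q₀ := oneP O) (ι' := o) (fun _ => rfl) ?_ σ).symm
    rintro x ⟨z, hz⟩
    exact ⟨z.1, congrArg Prod.fst hz⟩
  rwa [extU_injective o hσ5] at hσ4

end Susp

end Pool.Agent.Lib.MP_aa9b81_an.Tv
end
end

section

/-!
# Transversals, part X5: stratification by the isotropy algebras
-/

set_option autoImplicit false
set_option linter.unusedSectionVars false

open Matrix Module Filter Topology

namespace Pool.Agent.Lib.MP_aa9b81_an.LC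

variable {n : ℕ} {G : Type} [Group G]

section Bridge

open Pool.Agent.Lib.MP_aa9b81_an Pool.Agent.Lib.MP_aa9b81_an.N Pool.Agent.Lib.MP_aa9b81_an.Z

lemma Ad_coe (ρ : G →* Matrix.SpecialLinearGroup (Fin n) ℝ) [NeZero n] (g : G)
    (W : Submodule ℝ (Matrix (Fin n) (Fin n) ℝ)) :
    Ad ρ g (W : Set (Matrix (Fin n) (Fin n) ℝ)) = (cjs (ρ g) W : Set (Matrix (Fin n) (Fin n) ℝ)) := by
  ext A
  constructor
  · rintro ⟨B, hB, rfl⟩
    refine ⟨B, hB, ?_⟩
    change cj (ρ g) B = _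
    rw [cj_apply, map_inv]
  · rintro ⟨B, hB, rfl⟩
    refine ⟨B, hB, ?_⟩
    change _ = cj (ρ g) B
    rw [cj_apply, map_inv]

variable [NeZero n] [TopologicalSpace G] [IsTopologicalGroup G]
variable {X : Type} [TopologicalSpace X] [T2Space X] [MulAction G X] [ContinuousSMul G X]
variable {ρ : G →* Matrix.SpecialLinearGroup (Fin n) ℝ}

lemma isoAlg_eq (hρ : IsClosedEmbedding ρ) (x : X) :
    isoAlg ρ x = (iso hρ x : Set (Matrix (Fin n) (Fin n) ℝ)) := by
  ext A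
  exact (mem_iso hρ).symm

lemma isAlg_gal [PreconnectedSpace G] (hρ : IsClosedEmbedding ρ) (h : AlgebraicLie ρ) :
    IsAlg (gal hρ) := by
  intro A hA
  rw [mem_gal]
  apply h A
  intro P hP t
  have h1 := hA P (fun M hM => by
    obtain ⟨g, rfl⟩ := exists_of_mem_Gen_gal hρ hM
    rw [ev, MvPolynomial.aeval_eq_eval]
    exact hP g) t
  rw [ev, MvPolynomial.aeval_eq_eval] at h1
  exact h1


/-- A point whose isotropy algebra is zero has a discrete stabilizer. -/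
theorem discStab_of_isoAlg (hρ : Topology.IsClosedEmbedding ρ) {x : X}
    (h : isoAlg ρ x = {0}) : DiscStab G x := by
  have h1 : DiscreteTopology (MulAction.stabilizer G x) := by
    by_contra h2
    obtain ⟨A, hA, hA0⟩ := exists_ne_zero_iso hρ h2
    have h3 : A ∈ isoAlg ρ x := by
      rw [isoAlg_eq hρ]
      exact hA
    rw [h] at h3
    exact hA0 h3
  have h2 : IsOpen ({1} : Set (MulAction.stabilizer G x)) := isOpen_discrete _
  obtain ⟨N, hN, hN2⟩ := isOpen_induced_iff.1 h2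
  refine ⟨N, hN.mem_nhds ?_, fun g hg hgx => ?_⟩
  · have h3 : (1 : MulAction.stabilizer G x) ∈ Subtype.val ⁻¹' N := by
      rw [hN2]
      rfl
    exact h3
  · have h3 : (⟨g, MulAction.mem_stabilizer_iff.2 hgx⟩ : MulAction.stabilizer G x) ∈
        Subtype.val ⁻¹' N := hg
    rw [hN2] at h3
    exact congrArg Subtype.val h3

/-- A point whose isotropy algebra is not zero has a nondiscrete stabilizer. -/
theorem not_discStab_of_isoAlg (hρ : Topology.IsClosedEmbedding ρ) {x : X}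
    (h : isoAlg ρ x ≠ {0}) : ¬ DiscStab G x := by
  rintro ⟨N, hN, hN2⟩
  have h0 : (0 : Matrix (Fin n) (Fin n) ℝ) ∈ isoAlg ρ x := by
    rw [isoAlg_eq hρ]
    exact Submodule.zero_mem _
  obtain ⟨A, hA, hA0⟩ : ∃ A ∈ isoAlg ρ x, A ≠ 0 := by
    by_contra h1
    push Not at h1
    exact h (Set.Subset.antisymm (fun A hA => h1 A hA) (Set.singleton_subset_iff.2 h0))
  rw [isoAlg_eq hρ] at hA
  refine not_discrete_of_ne_zero hρ hA hA0 ?_
  rw [discreteTopology_iff_isOpen_singleton_one, isOpen_singleton_iff_nhds_eq_pure]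
  refine le_antisymm ?_ (pure_le_nhds _)
  rw [le_pure_iff]
  have h1 : (Subtype.val : MulAction.stabilizer G x → G) ⁻¹' N ∈
      𝓝 (1 : MulAction.stabilizer G x) := continuous_subtype_val.continuousAt.preimage_mem_nhds hN
  refine mem_of_superset h1 fun g hg => ?_
  exact Subtype.ext (hN2 g.1 hg (MulAction.mem_stabilizer_iff.1 g.2))

theorem isoAlg_smul (hρ : Topology.IsClosedEmbedding ρ) (g : G) (x : X) :
    isoAlg ρ (g • x) = Ad ρ g (isoAlg ρ x) := by
  rw [isoAlg_eq hρ, isoAlg_eq hρ, Ad_coe, iso_smul]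

end Bridge

theorem Ad_zero (ρ : G →* Matrix.SpecialLinearGroup (Fin n) ℝ) (g : G) :
    Ad ρ g {0} = {0} := by
  rw [Ad, Set.image_singleton]
  simp

open Pool.Agent.Lib.MP_aa9b81_an.N Pool.Agent.Lib.MP_aa9b81_an.Z in
/-- The stratification. -/
theorem exists_strata [NeZero n] [TopologicalSpace G] [IsTopologicalGroup G] [ConnectedSpace G]
    {ρ : G →* Matrix.SpecialLinearGroup (Fin n) ℝ} {X : Type} [TopologicalSpace X] [T2Space X]
    [MulAction G X] [ContinuousSMul G X]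
    (hρ : Topology.IsClosedEmbedding ρ) (halg : AlgebraicLie ρ) :
    ∃ (m : ℕ) (F : ℕ → Set X),
      (∀ i, IsClosed (F i)) ∧ (∀ i, ∀ g : G, ∀ x ∈ F i, g • x ∈ F i) ∧
      (∀ i, F i ⊆ F (i + 1)) ∧ F 0 = ∅ ∧ F m = Set.univ ∧
      ∀ i < m, ∃ (N : ℕ) (q : X → (Fin N → ℝ)), ContinuousOn q (F (i + 1) \ F i) ∧
        (∀ (g : G) (x : X), q (g • x) = q x) ∧
        ∀ x ∈ F (i + 1) \ F i, ∃ (U : Set X) (f : X → G ⧸ normalizer ρ (isoAlg ρ x)), IsOpen U ∧
          {y | ∃ g : G, isoAlg ρ y = Ad ρ g (isoAlg ρ x)} =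
            {y | y ∈ F (i + 1) \ F i ∧ q y = q x} ∩ U ∧
          ContinuousOn f {y | ∃ g : G, isoAlg ρ y = Ad ρ g (isoAlg ρ x)} ∧
          ∀ y, (∃ g : G, isoAlg ρ y = Ad ρ g (isoAlg ρ x)) → ∀ g : G,
            f (g • y) = g • f y ∧ (f y = g ↔ isoAlg ρ y = Ad ρ g (isoAlg ρ x)) := by
  obtain ⟨m, F, f0, fm, f1, f2, f3, f4⟩ := exists_seq hρ
    (stratX_univ (X := X) hρ (mem_Gen_gal hρ) (isAlg_gal hρ halg))
  refine ⟨m, F, f1, fun i g x hx => f2 i x _ hx ⟨g, iso_smul hρ g x⟩, f3, f0, fm, fun i hi => ?_⟩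
  obtain ⟨κ, iκ, q, hq1, hq2, hq3⟩ := f4 i hi
  let e : κ ≃ Fin (Fintype.card κ) := Fintype.equivFin κ
  have hqe : ∀ y y' : X, (fun j => q y (e.symm j)) = (fun j => q y' (e.symm j)) ↔ q y = q y' := by
    intro y y'
    constructor
    · intro h
      funext k
      have h1 := congrFun h (e k)
      simpa only [Equiv.symm_apply_apply] using h1
    · intro h
      rw [h]
  refine ⟨Fintype.card κ, fun y j => q y (e.symm j), ?_, ?_, ?_⟩
  · intro y hy
    refine tendsto_pi_nhds.2 fun j => ?_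
    exact (tendsto_pi_nhds.1 (hq1 y hy)) (e.symm j)
  · intro g x
    exact (hqe _ _).2 (hq2 x (g • x) ⟨g, iso_smul hρ g x⟩).symm
  · intro x hx
    have hact : ∀ (g h : G) (S : Submodule ℝ (Matrix (Fin n) (Fin n) ℝ)),
        cjs (ρ (g * h)) S = cjs (ρ g) (cjs (ρ h) S) := by
      intro g h S
      rw [map_mul, cjs_mul]
    have hAd : ∀ (y : X) (g : G), isoAlg ρ y = Ad ρ g (isoAlg ρ x) ↔
        iso hρ y = cjs (ρ g) (iso hρ x) := by
      intro y g
      rw [isoAlg_eq hρ, isoAlg_eq hρ, Ad_coe, SetLike.coe_set_eq]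
    obtain ⟨U, hU, hUeq, f, hf1, hf2⟩ := lift_act (act := fun g : G => cjs (ρ g))
      (fun S => by rw [map_one, cjs_one]) hact (hq3 x hx) (iso hρ x)
      (normalizer ρ (isoAlg ρ x)) (by
        intro g
        change Ad ρ g (isoAlg ρ x) = isoAlg ρ x ↔ _
        rw [isoAlg_eq hρ, Ad_coe, SetLike.coe_set_eq])
    have hcls : ∀ y : X, (∃ g : G, iso hρ y = cjs (ρ g) (iso hρ x)) →
        y ∈ F (i + 1) \ F i ∧ q y = q x := by
      rintro y ⟨g, hg⟩
      have hg' : iso hρ x = cjs (ρ g⁻¹) (iso hρ y) := by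
        rw [hg, ← hact, inv_mul_cancel, map_one, cjs_one]
      exact ⟨⟨f2 (i + 1) x y hx.1 ⟨g, hg⟩, fun h => hx.2 (f2 i y x h ⟨g⁻¹, hg'⟩)⟩,
        (hq2 x y ⟨g, hg⟩).symm⟩
    have hset : {y | ∃ g : G, isoAlg ρ y = Ad ρ g (isoAlg ρ x)} =
        {y | y ∈ F (i + 1) \ F i ∧ q y = q x} ∩ U := by
      rw [← hUeq]
      ext y
      simp only [Set.mem_ofPred_eq, hAd]
      exact ⟨fun h => ⟨hcls y h, h⟩, fun h => h.2⟩
    refine ⟨U, f, hU, ?_, ?_, ?_⟩
    · simp only [hqe]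
      exact hset
    · rw [hset]
      exact hf1
    · intro y hy g
      have hyU : y ∈ {y | y ∈ F (i + 1) \ F i ∧ q y = q x} ∩ U := by
        rw [← hset]
        exact hy
      obtain ⟨g₀, hg₀⟩ := hy
      rw [hAd] at hg₀
      have hgU : g • y ∈ {y | y ∈ F (i + 1) \ F i ∧ q y = q x} ∩ U := by
        rw [← hset]
        refine ⟨g * g₀, ?_⟩
        rw [hAd, iso_smul, hg₀, hact]
      refine ⟨?_, ?_⟩
      · have h1 : f y = (g₀ : G ⧸ normalizer ρ (isoAlg ρ x)) := (hf2 y hyU g₀).2 hg₀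
        have h2 : f (g • y) = ((g * g₀ : G) : G ⧸ normalizer ρ (isoAlg ρ x)) := by
          rw [hf2 (g • y) hgU]
          rw [iso_smul, hg₀, hact]
        rw [h1, h2]
        rfl
      · rw [hf2 y hyU g, hAd]

end Pool.Agent.Lib.MP_aa9b81_an.LC
end
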