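import Pool.Agent.Lib.MP_aa9b81_an.Mg.G041
import Pool.Agent.Lib.MP_aa9b81_an.Tv.I1

section

/-!
# Transversals, part U4: continuity of `K₁` along decreasing closed invariant subsets
-/

open scoped ENNReal Topology CompactlySupported
open Function Filter MeasureTheory

noncomputable section

set_option linter.unusedSectionVars false

namespace Pool.Agent.Lib.MP_aa9b81_an.Tv

open Cut Hs Cb

variable {G Y C O : Type} [Group G] [TopologicalSpace G] [IsTopologicalGroup G]
  [LocallyCompactSpace G] [SecondCountableTopology G] [T2Space G] [MeasurableSpace G] [BorelSpace G]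
  [TopologicalSpace Y] [T2Space Y] [LocallyCompactSpace Y] [MulAction G Y] [ContinuousSMul G Y]
  [TopologicalSpace C] [T2Space C] [MulAction G C] [ContinuousSMul G C]
  [TopologicalSpace O] [T2Space O] [MulAction G O] [ContinuousSMul G O]
  {c : C → Y} {o : O ↪ Y} {D : ℕ → Type} [∀ n, TopologicalSpace (D n)] [∀ n, T2Space (D n)]
  [∀ n, MulAction G (D n)] [∀ n, ContinuousSMul G (D n)] {d : ∀ n, D n → Y}

/-- The elements supported on an open set disjoint from the intersection become small. -/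
theorem exists_pull_ext_leG (ho : Continuous o) (heo : ∀ (g : G) x, o (g • x) = g • o x)
    (hd : ∀ n, IsClosed (Set.range (d n))) (hed : ∀ n (g : G) x, d n (g • x) = g • d n x)
    (hanti : ∀ n, Set.range (d (n + 1)) ⊆ Set.range (d n))
    (hdis : Disjoint (Set.range o) (⋂ n, Set.range (d n))) :
    ∀ a ∈ cpG G ℕ O, ∀ ε : ℝ, 0 < ε → ∃ N, ∀ n, N ≤ n →
      ‖(pullG (d n) (extG o a : FamG G ℕ Y) : FamG G ℕ (D n))‖ ≤ ε := by
  have hmono : Antitone fun n => Set.range (d n) := antitone_nat_of_succ_le hanti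
  refine cpG_induction (p := fun a => ∀ ε : ℝ, 0 < ε → ∃ N, ∀ n, N ≤ n →
      ‖(pullG (d n) (extG o a : FamG G ℕ Y) : FamG G ℕ (D n))‖ ≤ ε) ?_ ?_ ?_ ?_
  · refine isClosed_of_closure_subset fun a ha ε hε => ?_
    obtain ⟨b, hb, hab⟩ := Metric.mem_closure_iff.1 ha (ε / 2) (half_pos hε)
    obtain ⟨N, hN⟩ := hb (ε / 2) (half_pos hε)
    refine ⟨N, fun n hn => ?_⟩
    have e : (pullG (d n) (extG o a : FamG G ℕ Y) : FamG G ℕ (D n)) =
        pullG (d n) (extG o (a - b)) + pullG (d n) (extG o b) := by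
      rw [← map_add, ← map_add, sub_add_cancel]
    rw [e]
    refine (norm_add_le _ _).trans ?_
    have e1 := hN n hn
    have e2 := norm_pullG_le (d n) (extG o (a - b))
    rw [norm_extG] at e2
    rw [dist_eq_norm] at hab
    linarith
  · intro ε hε
    refine ⟨0, fun n _ => ?_⟩
    rw [map_zero, map_zero, norm_zero]
    exact hε.le
  · intro a b ha hb ε hε
    obtain ⟨N, hN⟩ := ha (ε / 2) (half_pos hε)
    obtain ⟨N', hN'⟩ := hb (ε / 2) (half_pos hε)
    refine ⟨max N N', fun n hn => ?_⟩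
    rw [map_add, map_add]
    have e1 := hN n ((le_max_left _ _).trans hn)
    have e2 := hN' n ((le_max_right _ _).trans hn)
    refine (norm_add_le _ _).trans ?_
    linarith
  · intro φ i j ε hε
    have hK : IsCompact (o '' (Prod.fst '' tsupport φ)) :=
      (φ.hasCompactSupport.isCompact.image continuous_fst).image ho
    obtain ⟨N, hN⟩ := hK.elim_directed_family_closed (fun n => Set.range (d n)) hd (by
        refine Set.disjoint_iff_inter_eq_empty.1 (hdis.mono_left ?_)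
        rintro _ ⟨x, -, rfl⟩
        exact ⟨x, rfl⟩)
      (by
        intro i j
        exact ⟨max i j, hmono (le_max_left i j), hmono (le_max_right i j)⟩)
    refine ⟨N, fun n hn => ?_⟩
    have h0 : (pullG (d n) (extG o (Cb.gen φ i j) : FamG G ℕ Y) : FamG G ℕ (D n)) = 0 := by
      refine FamG.ext fun z => ?_
      rw [pullG_apply, FamG.zero_apply]
      by_cases hz : d n z ∈ Set.range o
      · obtain ⟨x, hx⟩ := hz
        rw [← hx, extG_apply, Cb.gen_apply]
        have h1 : kat (fun b g => φ (b, g) • (Eu i j : BL ℕ)) x = fun _ _ => 0 := by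
          funext a a'
          show φ (a⁻¹ • x, a⁻¹ * a') • (Eu i j : BL ℕ) = 0
          have h2 : φ (a⁻¹ • x, a⁻¹ * a') = 0 := by
            by_contra h
            have h3 : (a⁻¹ • x, a⁻¹ * a') ∈ tsupport φ := subset_tsupport _ h
            have h4 : o (a⁻¹ • x) ∈ o '' (Prod.fst '' tsupport φ) := ⟨_, ⟨_, h3, rfl⟩, rfl⟩
            have h5 : o (a⁻¹ • x) ∈ Set.range (d N) := by
              refine hmono hn ⟨a⁻¹ • z, ?_⟩
              rw [hed, ← hx, heo]
            have h6 : o (a⁻¹ • x) ∈ o '' (Prod.fst '' tsupport φ) ∩ Set.range (d N) := ⟨h4, h5⟩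
            rw [hN] at h6
            exact h6
          rw [h2, zero_smul]
        show opk (kat (fun b g => φ (b, g) • (Eu i j : BL ℕ)) x) = 0
        rw [h1]
        exact opk_zero
      · exact extG_apply_of_notMem o _ hz
    rw [h0, norm_zero]
    exact hε.le

/-- An element of the crossed product which vanishes over the intersection is small over the small
sets. -/
theorem exists_pull_norm_leG (hA : PropAG G) (hc : Topology.IsClosedEmbedding c)
    (hec : ∀ (g : G) x, c (g • x) = g • c x) (hd : ∀ n, IsClosed (Set.range (d n)))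
    (hed : ∀ n (g : G) x, d n (g • x) = g • d n x)
    (hanti : ∀ n, Set.range (d (n + 1)) ⊆ Set.range (d n))
    (hinter : ⋂ n, Set.range (d n) = Set.range c) {a : FamG G ℕ Y} (ha : a ∈ cpG G ℕ Y)
    (h0 : (pullG c a : FamG G ℕ C) = 0) {ε : ℝ} (hε : 0 < ε) :
    ∃ N, ∀ n, N ≤ n → ‖(pullG (d n) a : FamG G ℕ (D n))‖ ≤ ε := by
  let Y₀ : InvSet G Y := ⟨Set.range c, by
    rintro g _ ⟨x, rfl⟩
    exact ⟨g • x, hec g x⟩⟩
  let o : Y₀.cpl.Pt ↪ Y := ⟨Y₀.cpl.val, Y₀.cpl.val_injective⟩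
  have ho : Topology.IsOpenEmbedding o :=
    IsOpen.isOpenEmbedding_subtypeVal hc.isClosed_range.isOpen_compl
  have hr : Set.range o = (Set.range c)ᶜ := by
    ext x
    constructor
    · rintro ⟨y, rfl⟩
      exact y.2
    · intro hx
      exact ⟨⟨x, hx⟩, rfl⟩
  have hcl : ClOp G c o := ⟨hc, hec, ho, fun _ _ => rfl, hr⟩
  obtain ⟨a₀, ha₀, rfl⟩ := (exactSeq_closedG hA hcl).ker a ha h0
  refine exists_pull_ext_leG ho.continuous (fun _ _ => rfl) hd hed hanti ?_ a₀ ha₀ ε hε
  rw [hinter, hr]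
  exact disjoint_compl_left

/-- CONTINUITY, injectivity. -/
theorem continuity_injG (hA : PropAG G) (hc : Topology.IsClosedEmbedding c)
    (hec : ∀ (g : G) x, c (g • x) = g • c x) (hd : ∀ n, Topology.IsClosedEmbedding (d n))
    (hed : ∀ n (g : G) x, d n (g • x) = g • d n x)
    (hanti : ∀ n, Set.range (d (n + 1)) ⊆ Set.range (d n))
    (hinter : ⋂ n, Set.range (d n) = Set.range c) {u : (FamG G ℕ Y)ˣ} (hu : u ∈ GL1 (cpG G ℕ Y))
    (hu' : pullU c u ∈ E1 (cpG G ℕ C)) : ∃ n, pullU (d n) u ∈ E1 (cpG G ℕ (D n)) := by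
  let Y₀ : InvSet G Y := ⟨Set.range c, by
    rintro g _ ⟨x, rfl⟩
    exact ⟨g • x, hec g x⟩⟩
  let o : Y₀.cpl.Pt ↪ Y := ⟨Y₀.cpl.val, Y₀.cpl.val_injective⟩
  have ho : Topology.IsOpenEmbedding o :=
    IsOpen.isOpenEmbedding_subtypeVal hc.isClosed_range.isOpen_compl
  have hr : Set.range o = (Set.range c)ᶜ := by
    ext x
    constructor
    · rintro ⟨y, rfl⟩
      exact y.2
    · intro hx
      exact ⟨⟨x, hx⟩, rfl⟩
  have hcl : ClOp G c o := ⟨hc, hec, ho, fun _ _ => rfl, hr⟩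
  have hex := exactSeq_closedG (J := ℕ) hA hcl
  obtain ⟨e, he, hev⟩ := E1_lift hex.closed hex.closed' hex.lift hu'
  have hw : u * e⁻¹ ∈ GL1 (cpG G ℕ Y) := mul_mem hu (inv_mem (E1_le _ he))
  have hw1 : pullU c (u * e⁻¹) = 1 := by
    have h1 : pullU c e = pullU c u := hev
    rw [map_mul, map_inv, h1, mul_inv_cancel]
  have h0 : (pullG c (((u * e⁻¹ : (FamG G ℕ Y)ˣ) : FamG G ℕ Y) - 1) : FamG G ℕ C) = 0 := by
    have h2 : pullG c ((u * e⁻¹ : (FamG G ℕ Y)ˣ) : FamG G ℕ Y) = (1 : FamG G ℕ C) :=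
      congrArg (fun x : (FamG G ℕ C)ˣ => (x : FamG G ℕ C)) hw1
    rw [map_sub, map_one, h2, sub_self]
  obtain ⟨N, hN⟩ := exists_pull_norm_leG hA hc hec (fun n => (hd n).isClosed_range) hed hanti
    hinter hw.1 h0 (show (0 : ℝ) < 1 / 2 by norm_num)
  refine ⟨N, ?_⟩
  have h1 := hN N le_rfl
  have h2 : pullU (d N) (u * e⁻¹) ∈ E1 (cpG G ℕ (D N)) := by
    refine mem_E1_of_small (GL1_map (pullG_mem (hd N).isProperMap (hed N)) hw) ?_
    have h3 : ((pullU (d N) (u * e⁻¹) : (FamG G ℕ (D N))ˣ) : FamG G ℕ (D N)) - 1 =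
        pullG (d N) (((u * e⁻¹ : (FamG G ℕ Y)ˣ) : FamG G ℕ Y) - 1) := by
      rw [map_sub, map_one]
      rfl
    rw [h3]
    linarith
  have h4 : pullU (d N) e ∈ E1 (cpG G ℕ (D N)) :=
    E1_map (norm_pullG_le (d N)) (pullG_mem (hd N).isProperMap (hed N)) he
  have h5 : pullU (d N) u = pullU (d N) (u * e⁻¹) * pullU (d N) e := by
    rw [← map_mul, inv_mul_cancel_right]
  rw [h5]
  exact mul_mem h2 h4

/-- CONTINUITY, surjectivity. -/
theorem continuity_surjG (hA : PropAG G) (hc : Topology.IsClosedEmbedding c)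
    (hec : ∀ (g : G) x, c (g • x) = g • c x) (hd : ∀ n, Topology.IsClosedEmbedding (d n))
    (hed : ∀ n (g : G) x, d n (g • x) = g • d n x)
    (hanti : ∀ n, Set.range (d (n + 1)) ⊆ Set.range (d n))
    (hinter : ⋂ n, Set.range (d n) = Set.range c) (ι : ∀ n, C → D n) (hι : ∀ n x, d n (ι n x) = c x)
    {v : (FamG G ℕ C)ˣ} (hv : v ∈ GL1 (cpG G ℕ C)) :
    ∃ n, ∃ w ∈ GL1 (cpG G ℕ (D n)), pullU (ι n) w = v := by
  let Y₀ : InvSet G Y := ⟨Set.range c, by
    rintro g _ ⟨x, rfl⟩
    exact ⟨g • x, hec g x⟩⟩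
  let o : Y₀.cpl.Pt ↪ Y := ⟨Y₀.cpl.val, Y₀.cpl.val_injective⟩
  have ho : Topology.IsOpenEmbedding o :=
    IsOpen.isOpenEmbedding_subtypeVal hc.isClosed_range.isOpen_compl
  have hr : Set.range o = (Set.range c)ᶜ := by
    ext x
    constructor
    · rintro ⟨y, rfl⟩
      exact y.2
    · intro hx
      exact ⟨⟨x, hx⟩, rfl⟩
  have hcl : ClOp G c o := ⟨hc, hec, ho, fun _ _ => rfl, hr⟩
  have hL := (exactSeq_closedG (J := ℕ) hA hcl).lift
  obtain ⟨b, hb, hbv, -⟩ := hL.lift _ hv.1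
  obtain ⟨b', hb', hbv', -⟩ := hL.lift _ hv.2
  have hv1 : ((v : FamG G ℕ C) - 1) + (((v⁻¹ : (FamG G ℕ C)ˣ) : FamG G ℕ C) - 1) +
      ((v : FamG G ℕ C) - 1) * (((v⁻¹ : (FamG G ℕ C)ˣ) : FamG G ℕ C) - 1) = 0 := by
    have h1 : (v : FamG G ℕ C) * ((v⁻¹ : (FamG G ℕ C)ˣ) : FamG G ℕ C) = 1 := Units.mul_inv v
    have h2 : ((v : FamG G ℕ C) - 1) * (((v⁻¹ : (FamG G ℕ C)ˣ) : FamG G ℕ C) - 1) =
        (v : FamG G ℕ C) * ((v⁻¹ : (FamG G ℕ C)ˣ) : FamG G ℕ C) - v -
          ((v⁻¹ : (FamG G ℕ C)ˣ) : FamG G ℕ C) + 1 := by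
      noncomm_ring
    rw [h2, h1]
    abel
  have hv2 : (((v⁻¹ : (FamG G ℕ C)ˣ) : FamG G ℕ C) - 1) + ((v : FamG G ℕ C) - 1) +
      (((v⁻¹ : (FamG G ℕ C)ˣ) : FamG G ℕ C) - 1) * ((v : FamG G ℕ C) - 1) = 0 := by
    have h1 : ((v⁻¹ : (FamG G ℕ C)ˣ) : FamG G ℕ C) * (v : FamG G ℕ C) = 1 := Units.inv_mul v
    have h2 : (((v⁻¹ : (FamG G ℕ C)ˣ) : FamG G ℕ C) - 1) * ((v : FamG G ℕ C) - 1) =
        ((v⁻¹ : (FamG G ℕ C)ˣ) : FamG G ℕ C) * (v : FamG G ℕ C) - v -
          ((v⁻¹ : (FamG G ℕ C)ˣ) : FamG G ℕ C) + 1 := by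
      noncomm_ring
    rw [h2, h1]
    abel
  have hx0 : (pullG c (b + b' + b * b') : FamG G ℕ C) = 0 := by
    rw [map_add, map_add, map_mul, hbv, hbv']
    exact hv1
  have hy0 : (pullG c (b' + b + b' * b) : FamG G ℕ C) = 0 := by
    rw [map_add, map_add, map_mul, hbv, hbv']
    exact hv2
  obtain ⟨N, hN⟩ := exists_pull_norm_leG hA hc hec (fun n => (hd n).isClosed_range) hed hanti
    hinter (add_mem (add_mem hb hb') (mul_mem hb hb')) hx0 (show (0 : ℝ) < 1 / 2 by norm_num)
  obtain ⟨N', hN'⟩ := exists_pull_norm_leG hA hc hec (fun n => (hd n).isClosed_range) hed hanti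
    hinter (add_mem (add_mem hb' hb) (mul_mem hb' hb)) hy0 (show (0 : ℝ) < 1 / 2 by norm_num)
  set n : ℕ := max N N' with hn
  have h1 := hN n (le_max_left _ _)
  have h2 := hN' n (le_max_right _ _)
  rw [map_add, map_add, map_mul] at h1
  rw [map_add, map_add, map_mul] at h2
  have hm : ∀ x ∈ cpG G ℕ Y, (pullG (d n) x : FamG G ℕ (D n)) ∈ cpG G ℕ (D n) :=
    pullG_mem (hd n).isProperMap (hed n)
  obtain ⟨w, hw, hwv⟩ := exists_unit_of_almost_inverse isClosed_cpG (hm b hb) (hm b' hb')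
    (by linarith) (by linarith)
  refine ⟨n, w, hw, Units.ext ?_⟩
  have h3 : (pullG (ι n) (pullG (d n) b : FamG G ℕ (D n)) : FamG G ℕ C) = pullG c b := by
    refine FamG.ext fun x => ?_
    rw [pullG_apply, pullG_apply, pullG_apply, hι]
  show pullG (ι n) (w : FamG G ℕ (D n)) = v
  rw [hwv, map_add, map_one, h3, hbv]
  abel

/-- A clopen invariant subset of a space with `K₁ = 0` has `K₁ = 0`. -/
theorem VanG.of_clopen {C : Type} [TopologicalSpace C] [T2Space C] [MulAction G C]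
    [ContinuousSMul G C] {i : C → Y} (hi : Topology.IsClosedEmbedding i)
    (hi' : Topology.IsOpenEmbedding i) (he : ∀ (g : G) x, i (g • x) = g • i x) (h : VanG G Y) :
    VanG G C := by
  intro v hv
  let ι : C ↪ Y := ⟨i, hi.injective⟩
  have h1 : extUnit (extG ι) v ∈ E1 (cpG G ℕ Y) := h (extUnit_mem_GL1 (extG_mem hi' he) hv)
  have h2 : pullU i (extUnit (extG ι) v) ∈ E1 (cpG G ℕ C) :=
    E1_map (norm_pullG_le i) (pullG_mem hi.isProperMap he) h1
  have h3 : pullU i (extUnit (extG ι) v) = v := by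
    refine Units.ext (FamG.ext fun x => ?_)
    show (1 : FamG G ℕ Y) (ι x) + extG ι ((v : FamG G ℕ C) - 1) (ι x) = (v : FamG G ℕ C) x
    rw [extG_apply]
    show (1 : FamG G ℕ C) x + ((v : FamG G ℕ C) x - (1 : FamG G ℕ C) x) = (v : FamG G ℕ C) x
    abel
  rwa [h3] at h2

/-- CONTINUITY: if `K₁` of the sets `D n` is zero, then `K₁` of the intersection is zero. -/
theorem VanG.of_inter (hA : PropAG G) (hc : Topology.IsClosedEmbedding c)
    (hec : ∀ (g : G) x, c (g • x) = g • c x) (hd : ∀ n, Topology.IsClosedEmbedding (d n))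
    (hed : ∀ n (g : G) x, d n (g • x) = g • d n x)
    (hanti : ∀ n, Set.range (d (n + 1)) ⊆ Set.range (d n))
    (hinter : ⋂ n, Set.range (d n) = Set.range c) (h : ∀ n, VanG G (D n)) : VanG G C := by
  have h1 : ∀ n (x : C), ∃ z, d n z = c x := by
    intro n x
    have h2 : c x ∈ ⋂ n, Set.range (d n) := by
      rw [hinter]
      exact ⟨x, rfl⟩
    exact Set.mem_iInter.1 h2 n
  choose ι hι using h1
  intro v hv
  obtain ⟨n, w, hw, rfl⟩ := continuity_surjG hA hc hec hd hed hanti hinter ι hι hv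
  have hce : (fun x => d n (ι n x)) = c := funext (hι n)
  have hιc : Continuous (ι n) := by
    rw [(hd n).isInducing.continuous_iff]
    show Continuous fun x => d n (ι n x)
    rw [hce]
    exact hc.continuous
  have hιe : ∀ (g : G) x, ι n (g • x) = g • ι n x := fun g x =>
    (hd n).injective (by rw [hι, hec, hed, hι])
  have hp : IsProperMap (ι n) := by
    refine isProperMap_of_comp_of_inj (g := d n) hιc (hd n).continuous ?_ (hd n).injective
    show IsProperMap fun x => d n (ι n x)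
    rw [hce]
    exact hc.isProperMap
  exact E1_map (norm_pullG_le (ι n)) (pullG_mem hp hιe) (h n hw)

/-- The intersection of a decreasing sequence of clopen invariant subsets. -/
theorem VanG.of_inter_clopen (hA : PropAG G) (hc : Topology.IsClosedEmbedding c)
    (hec : ∀ (g : G) x, c (g • x) = g • c x) (hd : ∀ n, Topology.IsClosedEmbedding (d n))
    (hd' : ∀ n, Topology.IsOpenEmbedding (d n))
    (hed : ∀ n (g : G) x, d n (g • x) = g • d n x)
    (hanti : ∀ n, Set.range (d (n + 1)) ⊆ Set.range (d n))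
    (hinter : ⋂ n, Set.range (d n) = Set.range c) (h : VanG G Y) : VanG G C :=
  VanG.of_inter hA hc hec hd hed hanti hinter fun n => h.of_clopen (hd n) (hd' n) (hed n)

end Pool.Agent.Lib.MP_aa9b81_an.Tv
end
end

section

/-!
# Transversals, part I4: `K₁ = 0` for the fibres of a family over the Cantor set
-/

open scoped ENNReal Topology CompactlySupported
open Function Filter MeasureTheory

noncomputable section

set_option linter.unusedSectionVars false

namespace Pool.Agent.Lib.MP_aa9b81_an.Tv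

open Cut Hs Cb

variable {G U X W : Type} [Group G] [TopologicalSpace G] [IsTopologicalGroup G]
  [LocallyCompactSpace G] [SecondCountableTopology G] [T2Space G] [MeasurableSpace G] [BorelSpace G]
  [TopologicalSpace U] [T2Space U] [LocallyCompactSpace U] [MulAction G U] [ContinuousSMul G U]
  [TopologicalSpace X] [T2Space X] [MulAction G X] [ContinuousSMul G X]
  [TopologicalSpace W] [T2Space W] [LocallyCompactSpace W] [MulAction G W] [ContinuousSMul G W]

/-- If `K₁(U × W) = 0` then `K₁(X × W) = 0` for the intersection `X` of a decreasing sequence of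
clopen invariant subsets of `U`. -/
theorem van_fibre (hA : PropAG G) {c : X → U} (hc : Topology.IsClosedEmbedding c)
    (hec : ∀ (g : G) x, c (g • x) = g • c x) {D : ℕ → InvSet G U}
    (hD : ∀ n, IsClopen (D n).carrier) (hanti : ∀ n, (D (n + 1)).carrier ⊆ (D n).carrier)
    (hinter : ⋂ n, (D n).carrier = Set.range c) (h : VanG G (U × W)) : VanG G (X × W) := by
  have hr : ∀ n, Set.range (Prod.map (D n).val (id : W → W)) = Prod.fst ⁻¹' (D n).carrier := by
    intro n
    ext x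
    constructor
    · rintro ⟨y, rfl⟩
      exact y.1.2
    · intro hx
      exact ⟨(⟨x.1, hx⟩, x.2), rfl⟩
  refine VanG.of_inter_clopen (c := Prod.map c (id : W → W))
    (d := fun n => Prod.map (D n).val (id : W → W)) hA (hc.prodMap Topology.IsClosedEmbedding.id)
    (fun g x => Prod.ext (hec g x.1) rfl)
    (fun n => (IsClosed.isClosedEmbedding_subtypeVal (hD n).isClosed).prodMap
      Topology.IsClosedEmbedding.id)
    (fun n => (IsOpen.isOpenEmbedding_subtypeVal (hD n).isOpen).prodMap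
      Topology.IsOpenEmbedding.id)
    (fun n g x => rfl) (fun n => ?_) ?_ h
  · rw [hr, hr]
    exact Set.preimage_mono (hanti n)
  · simp only [hr]
    rw [← Set.preimage_iInter, hinter]
    ext x
    constructor
    · rintro ⟨y, hy⟩
      exact ⟨(y, x.2), Prod.ext hy rfl⟩
    · rintro ⟨y, rfl⟩
      exact ⟨y.1, rfl⟩

/-- If `p` is injective on `K₁` and `K₁` of the source is zero, then `K₁` of the target is zero. -/
theorem van_of_injG {Z B : Type} [TopologicalSpace Z] [T2Space Z] [MulAction G Z]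
    [ContinuousSMul G Z] [TopologicalSpace B] [T2Space B] [MulAction G B] [ContinuousSMul G B]
    {p : Z → B} (hp : IsProperMap p) (hpe : ∀ (g : G) z, p (g • z) = g • p z) (hi : InjG G p)
    (h : VanG G Z) : VanG G B :=
  fun u hu => hi u hu (h (GL1_map (pullG_mem hp hpe) hu))

end Pool.Agent.Lib.MP_aa9b81_an.Tv
end
end
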