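import Pool.Agent.Lib.MP_aa9b81_an.Tv.X1

section

/-!
# Transversals, part X2: spaces over the real line
-/

open scoped ENNReal Topology CompactlySupported
open Function Filter MeasureTheory

noncomputable section

set_option linter.unusedSectionVars false

namespace Pool.Agent.Lib.MP_aa9b81_an.Tv

open Cut Hs Cb

/-- The inverse image of a set under an invariant map. -/
def lev {G P T : Type} [Group G] [MulAction G P] (q : P → T) (hq : ∀ (g : G) x, q (g • x) = q x)
    (A : Set T) : InvSet G P where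
  carrier := q ⁻¹' A
  inv g p hp := by
    change q (g • p) ∈ A
    rw [hq]
    exact hp

section Glue2

variable {G P : Type} [Group G] [TopologicalSpace G] [IsTopologicalGroup G]
  [LocallyCompactSpace G] [SecondCountableTopology G] [T2Space G] [MeasurableSpace G] [BorelSpace G]
  [TopologicalSpace P] [T2Space P] [LocallyCompactSpace P] [MulAction G P] [ContinuousSMul G P]

/-- An invariant subset of an invariant subset. -/
def sub2 (B A : InvSet G P) : InvSet G B.Pt where
  carrier := B.val ⁻¹' A.carrier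
  inv g _ hp := A.inv g _ hp

/-- The points of `sub2 B A`, for `A ⊆ B`. -/
def sub2H {A B : InvSet G P} (h : A.carrier ⊆ B.carrier) : (sub2 B A).Pt ≃ₜ A.Pt where
  toFun x := A.pt (B.val ((sub2 B A).val x)) x.2
  invFun y := (sub2 B A).pt (InvSet.incl h y) y.2
  left_inv _ := rfl
  right_inv _ := rfl
  continuous_toFun := Continuous.subtype_mk
    (B.continuous_val.comp (sub2 B A).continuous_val) _
  continuous_invFun := Continuous.subtype_mk (InvSet.BA2_isEmbedding h).continuous _

theorem sub2H_smul {A B : InvSet G P} (h : A.carrier ⊆ B.carrier) (g : G) (x : (sub2 B A).Pt) :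
    sub2H h (g • x) = g • sub2H h x := rfl

theorem isProperMap_val {A : InvSet G P} (h : IsClosed A.carrier) : IsProperMap A.val :=
  (IsClosed.isClosedEmbedding_subtypeVal h).isProperMap

theorem isProperMap_incl {A B : InvSet G P} (h : A.carrier ⊆ B.carrier)
    (hA : IsClosed A.carrier) : IsProperMap (InvSet.incl h) :=
  Topology.IsClosedEmbedding.isProperMap ⟨InvSet.BA2_isEmbedding h, by
    rw [InvSet.BA2_range]
    exact hA.preimage B.continuous_val⟩

/-- Gluing over a union of two closed subsets. -/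
theorem mem_E1_of_glue' (hA : PropAG G) {C₁ C₂ B S : InvSet G P} (h₁ : IsClosed C₁.carrier)
    (h₂ : IsClosed C₂.carrier) (hB : B.carrier = C₁.carrier ∪ C₂.carrier)
    (hS : S.carrier = C₁.carrier ∩ C₂.carrier) (h0 : VanG G (S.Pt × OO))
    {u : (FamG G ℕ P)ˣ} (hu : u ∈ GL1 (cpG G ℕ P)) (hu₁ : pullU C₁.val u ∈ E1 (cpG G ℕ C₁.Pt))
    (hu₂ : pullU C₂.val u ∈ E1 (cpG G ℕ C₂.Pt)) : pullU B.val u ∈ E1 (cpG G ℕ B.Pt) := by
  have hBc : IsClosed B.carrier := by
    rw [hB]
    exact h₁.union h₂
  have hs₁ : C₁.carrier ⊆ B.carrier := by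
    rw [hB]
    exact Set.subset_union_left
  have hs₂ : C₂.carrier ⊆ B.carrier := by
    rw [hB]
    exact Set.subset_union_right
  have hs : S.carrier ⊆ B.carrier := by
    rw [hS]
    exact Set.inter_subset_left.trans hs₁
  have : LocallyCompactSpace B.Pt := B.locallyCompactSpace hBc.isLocallyClosed
  refine mem_E1_of_glue hA (C₁ := sub2 B C₁) (C₂ := sub2 B C₂) (S := sub2 B S)
    (h₁.preimage B.continuous_val) (h₂.preimage B.continuous_val) ?_ ?_ ?_
    (pullU_GL1 (isProperMap_val hBc) (fun _ _ => rfl) hu) ?_ ?_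
  · change B.val ⁻¹' C₁.carrier ∪ B.val ⁻¹' C₂.carrier = Set.univ
    rw [← Set.preimage_union, ← hB]
    exact Set.eq_univ_of_forall fun x => x.2
  · change B.val ⁻¹' S.carrier = B.val ⁻¹' C₁.carrier ∩ B.val ⁻¹' C₂.carrier
    rw [hS, Set.preimage_inter]
  · refine VanG.of_homeomorph ((sub2H hs).symm.prodCongr (Homeomorph.refl OO)) ?_ h0
    intro g x
    rfl
  · exact pullU_E1 (sub2H hs₁).isProperMap (sub2H_smul hs₁) hu₁
  · exact pullU_E1 (sub2H hs₂).isProperMap (sub2H_smul hs₂) hu₂

end Glue2

section Real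

variable {G P : Type} [Group G] [TopologicalSpace G] [IsTopologicalGroup G]
  [LocallyCompactSpace G] [SecondCountableTopology G] [T2Space G] [MeasurableSpace G] [BorelSpace G]
  [TopologicalSpace P] [T2Space P] [LocallyCompactSpace P] [MulAction G P] [ContinuousSMul G P]

/-- Local triviality of a unit which is trivial over a level set. -/
theorem exists_slab (hA : PropAG G) {q : P → ℝ} (hqc : Continuous q)
    (hq : ∀ (g : G) x, q (g • x) = q x) {u : (FamG G ℕ P)ˣ} (hu : u ∈ GL1 (cpG G ℕ P)) {t : ℝ}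
    (ht : pullU (lev q hq {t}).val u ∈ E1 (cpG G ℕ (lev q hq {t}).Pt)) :
    ∃ δ : ℝ, 0 < δ ∧ pullU (lev q hq (Set.Icc (t - δ) (t + δ))).val u ∈
      E1 (cpG G ℕ (lev q hq (Set.Icc (t - δ) (t + δ))).Pt) := by
  have i1 : Topology.IsClosedEmbedding (lev q hq {t}).val :=
    IsClosed.isClosedEmbedding_subtypeVal (isClosed_singleton.preimage hqc)
  have i2 : ∀ n : ℕ, Topology.IsClosedEmbedding
      (lev q hq (Set.Icc (t - 1 / (n + 1)) (t + 1 / (n + 1)))).val :=
    fun n => IsClosed.isClosedEmbedding_subtypeVal (isClosed_Icc.preimage hqc)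
  have i3 : ∀ n : ℕ,
      Set.range (lev q hq (Set.Icc (t - 1 / ((n + 1 : ℕ) + 1)) (t + 1 / ((n + 1 : ℕ) + 1)))).val ⊆
      Set.range (lev q hq (Set.Icc (t - 1 / ((n : ℝ) + 1)) (t + 1 / ((n : ℝ) + 1)))).val := by
    intro n
    change Set.range Subtype.val ⊆ Set.range Subtype.val
    rw [Subtype.range_coe, Subtype.range_coe]
    have h1 : (1 : ℝ) / ((n + 1 : ℕ) + 1) ≤ 1 / (n + 1) := by
      refine one_div_le_one_div_of_le (by positivity) ?_
      push_cast
      linarith
    refine Set.preimage_mono (Set.Icc_subset_Icc ?_ ?_)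
    · linarith
    · linarith
  have i4 : ⋂ n : ℕ,
      Set.range (lev q hq (Set.Icc (t - 1 / ((n : ℝ) + 1)) (t + 1 / ((n : ℝ) + 1)))).val =
      Set.range (lev q hq {t}).val := by
    change ⋂ n : ℕ, Set.range Subtype.val = Set.range Subtype.val
    simp only [Subtype.range_coe]
    ext x
    simp only [Set.mem_iInter]
    constructor
    · intro h
      change q x = t
      refine eq_of_abs_sub_nonpos (le_of_forall_pos_le_add fun ε hε => ?_)
      obtain ⟨n, hn⟩ := exists_nat_one_div_lt hε
      have h1 : q x ∈ Set.Icc (t - 1 / ((n : ℝ) + 1)) (t + 1 / ((n : ℝ) + 1)) := h n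
      rw [zero_add, abs_le]
      constructor
      · linarith [h1.1]
      · linarith [h1.2]
    · intro h n
      have h1 : q x = t := h
      change q x ∈ Set.Icc _ _
      rw [h1]
      have h2 : (0 : ℝ) < 1 / ((n : ℝ) + 1) := by positivity
      exact ⟨by linarith, by linarith⟩
  obtain ⟨n, hn⟩ := exists_mem_E1_of_inter hA i1 (fun _ _ => rfl) i2
    (fun _ _ _ => rfl) i3 i4 hu ht
  exact ⟨1 / (n + 1), by positivity, hn⟩

/-- Restriction to a smaller slab. -/
theorem slab_mono {q : P → ℝ} (hqc : Continuous q) (hq : ∀ (g : G) x, q (g • x) = q x)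
    {u : (FamG G ℕ P)ˣ} {A B : Set ℝ} (hAB : A ⊆ B) (hA : IsClosed A)
    (h : pullU (lev q hq B).val u ∈ E1 (cpG G ℕ (lev q hq B).Pt)) :
    pullU (lev q hq A).val u ∈ E1 (cpG G ℕ (lev q hq A).Pt) :=
  pullU_E1 (p := InvSet.incl (A := lev q hq A) (B := lev q hq B) (Set.preimage_mono hAB))
    (isProperMap_incl _ (hA.preimage hqc)) (fun _ _ => rfl) h

/-- SPACES OVER THE UNIT INTERVAL. -/
theorem VanG.of_interval (hA : PropAG G) {q : P → ℝ} (hqc : Continuous q)
    (hq : ∀ (g : G) x, q (g • x) = q x) (hq01 : ∀ x, q x ∈ Set.Icc (0 : ℝ) 1)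
    (h : ∀ t, VanG G (lev q hq {t}).Pt) (h' : ∀ t, VanG G ((lev q hq {t}).Pt × OO)) :
    VanG G P := by
  intro u hu
  have h1 : ∀ t : ℝ, ∃ δ : ℝ, 0 < δ ∧ pullU (lev q hq (Set.Icc (t - δ) (t + δ))).val u ∈
      E1 (cpG G ℕ (lev q hq (Set.Icc (t - δ) (t + δ))).Pt) := fun t =>
    exists_slab hA hqc hq hu (h t (pullU_GL1 (isProperMap_val (isClosed_singleton.preimage hqc))
      (fun _ _ => rfl) hu))
  choose δ hδ hδ' using h1
  obtain ⟨t, ht0, htm, ⟨m, hm⟩, ht⟩ := exists_monotone_Icc_subset_open_cover_Icc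
    (zero_le_one (α := ℝ)) (c := fun s : Set.Icc (0 : ℝ) 1 =>
      (Subtype.val ⁻¹' Set.Ioo (s.1 - δ s.1) (s.1 + δ s.1) : Set (Set.Icc (0 : ℝ) 1)))
    (fun s => isOpen_Ioo.preimage continuous_subtype_val) (fun s _ => Set.mem_iUnion.2 ⟨s, by
      have := hδ s.1
      exact ⟨by linarith, by linarith⟩⟩)
  have h2 : ∀ n, pullU (lev q hq (Set.Icc (t n : ℝ) (t (n + 1)))).val u ∈
      E1 (cpG G ℕ (lev q hq (Set.Icc (t n : ℝ) (t (n + 1)))).Pt) := by
    intro n
    obtain ⟨s, hs⟩ := ht n
    refine slab_mono hqc hq ?_ isClosed_Icc (hδ' s.1)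
    intro x hx
    have hx01 : x ∈ Set.Icc (0 : ℝ) 1 := ⟨(t n).2.1.trans hx.1, hx.2.trans (t (n + 1)).2.2⟩
    have h3 := hs (show (⟨x, hx01⟩ : Set.Icc (0 : ℝ) 1) ∈ Set.Icc (t n) (t (n + 1)) from
      ⟨hx.1, hx.2⟩)
    exact ⟨h3.1.le, h3.2.le⟩
  have h3 : ∀ n, pullU (lev q hq (Set.Icc (t 0 : ℝ) (t n))).val u ∈
      E1 (cpG G ℕ (lev q hq (Set.Icc (t 0 : ℝ) (t n))).Pt) := by
    intro n
    induction n with
    | zero =>
      exact slab_mono hqc hq (Set.Icc_subset_Icc_right (htm (Nat.zero_le 1))) isClosed_Icc (h2 0)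
    | succ n ih =>
      refine mem_E1_of_glue' hA (C₁ := lev q hq (Set.Icc (t 0 : ℝ) (t n)))
        (C₂ := lev q hq (Set.Icc (t n : ℝ) (t (n + 1)))) (S := lev q hq {(t n : ℝ)})
        (isClosed_Icc.preimage hqc) (isClosed_Icc.preimage hqc) ?_ ?_ (h' _) hu ih (h2 n)
      · change q ⁻¹' _ = q ⁻¹' _ ∪ q ⁻¹' _
        rw [← Set.preimage_union, Set.Icc_union_Icc_eq_Icc]
        · exact htm (Nat.zero_le n)
        · exact htm (Nat.le_succ n)
      · change q ⁻¹' _ = q ⁻¹' _ ∩ q ⁻¹' _
        rw [← Set.preimage_inter, Set.Icc_inter_Icc_eq_singleton]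
        · exact htm (Nat.zero_le n)
        · exact htm (Nat.le_succ n)
  have h4 := h3 m
  have e0 : ((t 0 : Set.Icc (0 : ℝ) 1) : ℝ) = 0 := by
    rw [ht0]
  have e1 : ((t m : Set.Icc (0 : ℝ) 1) : ℝ) = 1 := by
    rw [hm m le_rfl]
  rw [e0, e1] at h4
  let j : P → (lev q hq (Set.Icc (0 : ℝ) 1)).Pt := fun x => ⟨x, hq01 x⟩
  have hj : IsProperMap j := by
    refine isProperMap_of_comp_of_inj (g := (lev q hq (Set.Icc (0 : ℝ) 1)).val)
      (Continuous.subtype_mk continuous_id _) continuous_subtype_val isProperMap_id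
      Subtype.val_injective
  exact pullU_E1 hj (fun _ _ => rfl) h4

/-- SPACES OVER THE REAL LINE. -/
theorem VanG.of_real (hA : PropAG G) {q : P → ℝ} (hqc : Continuous q)
    (hq : ∀ (g : G) x, q (g • x) = q x)
    (h : ∀ t, VanG G (lev q hq {t}).Pt) (h' : ∀ t, VanG G ((lev q hq {t}).Pt × OO)) :
    VanG G P := by
  have hpi := Real.pi_pos
  have hq' : ∀ (g : G) x, Real.arctan (q (g • x)) / Real.pi + 1 / 2 =
      Real.arctan (q x) / Real.pi + 1 / 2 := fun g x => by rw [hq]
  have hinj : ∀ x y : P, Real.arctan (q x) / Real.pi + 1 / 2 =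
      Real.arctan (q y) / Real.pi + 1 / 2 → q x = q y := by
    intro x y hxy
    have h1 : Real.arctan (q x) = Real.arctan (q y) := by
      field_simp at hxy
      linarith
    exact Real.arctan_injective h1
  have key : ∀ t : ℝ, IsEmpty (lev (fun x => Real.arctan (q x) / Real.pi + 1 / 2) hq' {t}).Pt ∨
      ∃ s, lev (fun x => Real.arctan (q x) / Real.pi + 1 / 2) hq' {t} = lev q hq {s} := by
    intro t
    rcases isEmpty_or_nonempty
      (lev (fun x => Real.arctan (q x) / Real.pi + 1 / 2) hq' {t}).Pt with he | ⟨⟨x, hx⟩⟩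
    · exact Or.inl he
    · refine Or.inr ⟨q x, ?_⟩
      have hx' : Real.arctan (q x) / Real.pi + 1 / 2 = t := hx
      have e : (lev (fun x => Real.arctan (q x) / Real.pi + 1 / 2) hq' {t}).carrier =
          (lev q hq {q x}).carrier := by
        ext y
        constructor
        · intro hy
          have hy' : Real.arctan (q y) / Real.pi + 1 / 2 = t := hy
          exact hinj y x (hy'.trans hx'.symm)
        · intro hy
          have hy' : q y = q x := hy
          change Real.arctan (q y) / Real.pi + 1 / 2 = t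
          rw [hy', hx']
      cases h1 : lev (fun x => Real.arctan (q x) / Real.pi + 1 / 2) hq' {t} with
      | mk c1 i1 =>
        cases h2 : lev q hq {q x} with
        | mk c2 i2 =>
          rw [h1, h2] at e
          obtain rfl : c1 = c2 := e
          rfl
  have hem : ∀ (E : Type) [TopologicalSpace E] [T2Space E] [MulAction G E] [ContinuousSMul G E],
      IsEmpty E → VanG G E := by
    intro E _ _ _ _ he u _
    have h1 : u = 1 := Units.ext (FamG.ext fun x => he.elim x)
    rw [h1]
    exact one_mem _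
  refine VanG.of_interval hA (q := fun x => Real.arctan (q x) / Real.pi + 1 / 2)
    (by fun_prop) hq' ?_ ?_ ?_
  · intro x
    have h1 := Real.neg_pi_div_two_lt_arctan (q x)
    have h2 := Real.arctan_lt_pi_div_two (q x)
    constructor
    · have h3 : -(1 / 2) ≤ Real.arctan (q x) / Real.pi := by
        rw [le_div_iff₀ hpi]
        linarith
      linarith
    · have h3 : Real.arctan (q x) / Real.pi ≤ 1 / 2 := by
        rw [div_le_iff₀ hpi]
        linarith
      linarith
  · intro t
    rcases key t with he | ⟨s, hs⟩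
    · exact hem _ he
    · rw [hs]
      exact h s
  · intro t
    rcases key t with he | ⟨s, hs⟩
    · exact hem _ inferInstance
    · rw [hs]
      exact h' s

end Real

end Pool.Agent.Lib.MP_aa9b81_an.Tv
end
end

section

/-!
# Transversals, part X3: spaces over a euclidean space
-/

open scoped ENNReal Topology CompactlySupported
open Function Filter MeasureTheory

noncomputable section

set_option linter.unusedSectionVars false

namespace Pool.Agent.Lib.MP_aa9b81_an.Tv

open Cut Hs Cb

section Lev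

variable {G X T W : Type} [Group G] [TopologicalSpace X] [MulAction G X] [TopologicalSpace W]
  [MulAction G W]

/-- Level sets of a product. -/
def levProd (q : X → T) (hq : ∀ (g : G) x, q (g • x) = q x) (A : Set T) :
    (lev (P := X × W) (fun x => q x.1) (fun g x => hq g x.1) A).Pt ≃ₜ (lev q hq A).Pt × W where
  toFun x := ((lev q hq A).pt x.1.1 x.2, x.1.2)
  invFun y := ⟨((lev q hq A).val y.1, y.2), y.1.2⟩
  left_inv _ := rfl
  right_inv _ := rfl
  continuous_toFun := by
    refine Continuous.prodMk (Continuous.subtype_mk ?_ _) ?_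
    · exact continuous_fst.comp (InvSet.continuous_val _)
    · exact continuous_snd.comp (InvSet.continuous_val _)
  continuous_invFun := by
    refine Continuous.subtype_mk ?_ _
    exact ((InvSet.continuous_val _).comp continuous_fst).prodMk continuous_snd

theorem levProd_smul (q : X → T) (hq : ∀ (g : G) x, q (g • x) = q x) (A : Set T) (g : G)
    (x : (lev (P := X × W) (fun x => q x.1) (fun g x => hq g x.1) A).Pt) :
    levProd q hq A (g • x) = g • levProd q hq A x := rfl

end Lev

section Fibres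

variable {G W : Type} [Group G] [TopologicalSpace G] [IsTopologicalGroup G]
  [LocallyCompactSpace G] [SecondCountableTopology G] [T2Space G] [MeasurableSpace G] [BorelSpace G]
  [TopologicalSpace W] [T2Space W] [LocallyCompactSpace W] [MulAction G W] [ContinuousSMul G W]

/-- SPACES OVER A EUCLIDEAN SPACE: if `K₁` is zero for the fibres (times the cubes), then it is zero
for the space. -/
theorem VanG.of_fibres (hA : PropAG G) (m N : ℕ) :
    ∀ (X : Type) [TopologicalSpace X] [T2Space X] [LocallyCompactSpace X] [MulAction G X]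
      [ContinuousSMul G X] (q : X → Fin N → ℝ) (_ : Continuous q)
      (hq : ∀ (g : G) x, q (g • x) = q x)
      (_ : ∀ c : Fin N → ℝ, ∀ j, m ≤ j → VanG G ((lev q hq {c}).Pt × W × Cube j)) (j : ℕ)
      (_ : m ≤ j), VanG G (X × W × Cube j) := by
  induction N with
  | zero =>
    intro X _ _ _ _ _ q hqc hq h j hj
    have h1 : ∀ x, q x = (fun i => Fin.elim0 i) := fun x => funext fun i => Fin.elim0 i
    let e : (lev q hq {fun i => Fin.elim0 i}).Pt ≃ₜ X :=
      { toFun := (lev q hq {fun i => Fin.elim0 i}).val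
        invFun := fun x => (lev q hq {fun i => Fin.elim0 i}).pt x (h1 x)
        left_inv := fun _ => rfl
        right_inv := fun _ => rfl
        continuous_toFun := InvSet.continuous_val _
        continuous_invFun := Continuous.subtype_mk continuous_id _ }
    exact VanG.of_homeomorph (e.prodCongr (Homeomorph.refl (W × Cube j))) (fun _ _ => rfl)
      (h _ j hj)
  | succ N ih =>
    intro X _ _ _ _ _ q hqc hq h j hj
    have hq0 : ∀ (g : G) x, q (g • x) 0 = q x 0 := fun g x => by rw [hq]
    have hY : ∀ (t : ℝ) (j : ℕ), m ≤ j →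
        VanG G ((lev (fun x => q x 0) hq0 {t}).Pt × W × Cube j) := by
      intro t j hj
      set Y := lev (fun x => q x 0) hq0 {t} with hYdef
      have hYc : IsClosed Y.carrier :=
        isClosed_singleton.preimage ((continuous_apply 0).comp hqc)
      have : LocallyCompactSpace Y.Pt := Y.locallyCompactSpace hYc.isLocallyClosed
      have hq' : ∀ (g : G) (y : Y.Pt), (fun i : Fin N => q (Y.val (g • y)) i.succ) =
          fun i : Fin N => q (Y.val y) i.succ := fun g y => by
        rw [InvSet.val_smul, hq]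
      refine ih Y.Pt (fun y i => q (Y.val y) i.succ)
        (continuous_pi fun i => (continuous_apply i.succ).comp (hqc.comp Y.continuous_val))
        hq' ?_ j hj
      intro c j hj
      let c' : Fin (N + 1) → ℝ := Fin.cons t c
      have h2 : ∀ y : Y.Pt, (fun i : Fin N => q (Y.val y) i.succ) = c → q (Y.val y) = c' := by
        intro y hy
        funext i
        refine Fin.cases ?_ (fun i => ?_) i
        · exact y.2
        · exact congrFun hy i
      have h3 : ∀ x : X, q x = c' → q x 0 = t ∧ (fun i : Fin N => q x i.succ) = c := by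
        intro x hx
        rw [hx]
        exact ⟨rfl, rfl⟩
      let e : (lev q hq {c'}).Pt ≃ₜ
          (lev (fun (y : Y.Pt) (i : Fin N) => q (Y.val y) i.succ) hq' {c}).Pt :=
        { toFun := fun x => ⟨⟨x.1, (h3 x.1 x.2).1⟩, (h3 x.1 x.2).2⟩
          invFun := fun y => ⟨Y.val y.1, h2 y.1 y.2⟩
          left_inv := fun _ => rfl
          right_inv := fun _ => rfl
          continuous_toFun := Continuous.subtype_mk (Continuous.subtype_mk
            (InvSet.continuous_val _) _) _
          continuous_invFun := Continuous.subtype_mk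
            (Y.continuous_val.comp (InvSet.continuous_val _)) _ }
      exact VanG.of_homeomorph (e.prodCongr (Homeomorph.refl (W × Cube j))) (fun _ _ => rfl)
        (h c' j hj)
    refine VanG.of_real hA (q := fun x : X × W × Cube j => q x.1 0)
      ((continuous_apply 0).comp (hqc.comp continuous_fst)) (fun g x => hq0 g x.1) ?_ ?_
    · intro t
      exact VanG.of_homeomorph (levProd (W := W × Cube j) (fun x => q x 0) hq0 {t}).symm
        (fun _ _ => rfl) (hY t j hj)
    · intro t
      have h1 : VanG G (((lev (fun x => q x 0) hq0 {t}).Pt × W × Cube j) × OO) :=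
        vanG_asc.2 (vanG_cube.2 (hY t (j + 1) (hj.trans (Nat.le_succ j))))
      refine VanG.of_homeomorph ((levProd (W := W × Cube j) (fun x => q x 0) hq0
        {t}).symm.prodCongr (Homeomorph.refl OO)) ?_ h1
      intro g x
      rfl

end Fibres

end Pool.Agent.Lib.MP_aa9b81_an.Tv
end
end
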