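import Pool.Agent.Lib.MP_aa9b81_an.Mg.G043
import Pool.Agent.Lib.MP_aa9b81_an.Tv.J3
import Pool.Agent.Lib.MP_aa9b81_an.Mg.G041

section

/-!
# Transversals, part X4: closed subsets and partitions into open invariant subsets
-/

open scoped ENNReal Topology CompactlySupported
open Function Filter MeasureTheory

noncomputable section

set_option linter.unusedSectionVars false

namespace Pool.Agent.Lib.MP_aa9b81_an.Tv

open Cut Hs Cb

section Part

variable {G X W : Type} [Group G] [TopologicalSpace G] [IsTopologicalGroup G]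
  [LocallyCompactSpace G] [SecondCountableTopology G] [T2Space G] [MeasurableSpace G] [BorelSpace G]
  [TopologicalSpace X] [T2Space X] [LocallyCompactSpace X]
  [MulAction G X] [ContinuousSMul G X]
  [TopologicalSpace W] [T2Space W] [LocallyCompactSpace W] [MulAction G W] [ContinuousSMul G W]

/-- A closed subset `A` of an invariant subset `B`, and `S = B ∖ A`. -/
theorem VanG.of_sub (hA' : PropAG G) {A B S : InvSet G X} (hA : IsClosed A.carrier)
    (hB : IsLocallyClosed B.carrier) (hAB : A.carrier ⊆ B.carrier)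
    (hS : S.carrier = B.carrier \ A.carrier) (h1 : VanG G (A.Pt × W)) (h2 : VanG G (S.Pt × W)) :
    VanG G (B.Pt × W) := by
  have hSB : S.carrier ⊆ B.carrier := by
    rw [hS]
    exact Set.sdiff_subset
  have : LocallyCompactSpace B.Pt := B.locallyCompactSpace hB
  let o : (S.Pt × W) ↪ (B.Pt × W) := ⟨Prod.map (InvSet.incl hSB) (id : W → W),
    (InvSet.BA2_isEmbedding hSB).injective.prodMap injective_id⟩
  have hcl : ClOp G (Prod.map (InvSet.incl hAB) (id : W → W)) o :=
    ⟨InvSet.isClosedEmbedding_incl hAB hA, fun _ _ => rfl,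
      InvSet.isOpenEmbedding_incl hSB hS hA, fun _ _ => rfl, InvSet.range_incl_compl hSB hAB hS⟩
  exact VanG.of_clOp hA' hcl h1 h2

/-- The whole space. -/
theorem VanG.of_univ {A : InvSet G X} (hA : A.carrier = Set.univ) (h : VanG G (A.Pt × W)) :
    VanG G (X × W) := by
  have hm : ∀ x : X, x ∈ A.carrier := fun x => by
    rw [hA]
    exact Set.mem_univ x
  let e : A.Pt ≃ₜ X :=
    { toFun := A.val
      invFun := fun x => A.pt x (hm x)
      left_inv := fun _ => rfl
      right_inv := fun _ => rfl
      continuous_toFun := A.continuous_val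
      continuous_invFun := Continuous.subtype_mk continuous_id _ }
  exact VanG.of_homeomorph (e.prodCongr (Homeomorph.refl W)) (fun _ _ => rfl) h

/-- The same subset. -/
theorem VanG.of_eq {A B : InvSet G X} (hAB : A.carrier = B.carrier) (h : VanG G (A.Pt × W)) :
    VanG G (B.Pt × W) := by
  let e : A.Pt ≃ₜ B.Pt :=
    { toFun := InvSet.incl hAB.le
      invFun := InvSet.incl hAB.ge
      left_inv := fun _ => rfl
      right_inv := fun _ => rfl
      continuous_toFun := (InvSet.BA2_isEmbedding hAB.le).continuous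
      continuous_invFun := (InvSet.BA2_isEmbedding hAB.ge).continuous }
  exact VanG.of_homeomorph (e.prodCongr (Homeomorph.refl W)) (fun _ _ => rfl) h

theorem vanG_of_isEmpty {E : Type} [TopologicalSpace E] [T2Space E] [MulAction G E]
    [ContinuousSMul G E] (he : IsEmpty E) : VanG G E := by
  intro u _
  have h1 : u = 1 := Units.ext (FamG.ext fun x => he.elim x)
  rw [h1]
  exact one_mem _

/-- PARTITIONS. Let `X` be the disjoint union of the open invariant classes of an equivalence
relation. If `K₁` is zero for each class (times `W`), then `K₁` is zero for `X × W`. -/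
theorem VanG.of_classes [SecondCountableTopology X] (hA : PropAG G) (r : Setoid X)
    (cls : X → InvSet G X) (hcls : ∀ x, (cls x).carrier = {y | r y x})
    (hopen : ∀ x, IsOpen (cls x).carrier)
    (h : ∀ x, VanG G ((cls x).Pt × W)) : VanG G (X × W) := by
  rcases isEmpty_or_nonempty X with he | hne
  · exact vanG_of_isEmpty inferInstance
  have hmem : ∀ x y, y ∈ (cls x).carrier ↔ r y x := fun x y => by
    rw [hcls]
    rfl
  let x : ℕ → X := TopologicalSpace.denseSeq X
  have hx : ∀ y, ∃ n, r y (x n) := by
    intro y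
    obtain ⟨z, hz⟩ := (TopologicalSpace.denseRange_denseSeq X).exists_mem_open (hopen y)
      ⟨y, (hmem y y).2 (r.refl y)⟩
    exact ⟨z, r.symm ((hmem y _).1 hz)⟩
  let O : ℕ → InvSet G X := fun n => ⟨{y | ∃ k, k < n ∧ r y (x k)}, by
    rintro g y ⟨k, hk, hy⟩
    exact ⟨k, hk, (hmem _ _).1 ((cls (x k)).inv g y ((hmem _ _).2 hy))⟩⟩
  have hOo : ∀ n, IsOpen (O n).carrier := by
    intro n
    have e : (O n).carrier = ⋃ k ∈ {k | k < n}, (cls (x k)).carrier := by
      ext y
      simp only [Set.mem_iUnion, hmem]
      exact ⟨fun ⟨k, hk, hy⟩ => ⟨k, hk, hy⟩, fun ⟨k, hk, hy⟩ => ⟨k, hk, hy⟩⟩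
    rw [e]
    exact isOpen_biUnion fun k _ => hopen _
  have hOc : ∀ n, IsClosed (O n).carrier := by
    intro n
    rw [← isOpen_compl_iff, isOpen_iff_mem_nhds]
    intro y hy
    refine Filter.mem_of_superset ((hopen y).mem_nhds ((hmem y y).2 (r.refl y))) ?_
    rintro z hz ⟨k, hk, hzk⟩
    exact hy ⟨k, hk, r.trans (r.symm ((hmem _ _).1 hz)) hzk⟩
  have hOv : ∀ n, VanG G ((O n).Pt × W) := by
    intro n
    induction n with
    | zero =>
      have : IsEmpty (O 0).Pt := ⟨fun y => by
        obtain ⟨k, hk, -⟩ := y.2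
        exact absurd hk (Nat.not_lt_zero k)⟩
      exact vanG_of_isEmpty inferInstance
    | succ n ih =>
      by_cases hn : ∃ k, k < n ∧ r (x n) (x k)
      · obtain ⟨k, hk, hnk⟩ := hn
        refine VanG.of_eq ?_ ih
        ext y
        constructor
        · rintro ⟨l, hl, hy⟩
          exact ⟨l, hl.trans (Nat.lt_succ_self n), hy⟩
        · rintro ⟨l, hl, hy⟩
          rcases Nat.lt_succ_iff_lt_or_eq.1 hl with h1 | h1
          · exact ⟨l, h1, hy⟩
          · exact ⟨k, hk, r.trans (h1 ▸ hy) hnk⟩
      · refine VanG.of_sub hA (A := O n) (S := cls (x n)) (hOc n) (hOo (n + 1)).isLocallyClosed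
          ?_ ?_ ih (h _)
        · rintro y ⟨l, hl, hy⟩
          exact ⟨l, hl.trans (Nat.lt_succ_self n), hy⟩
        · ext y
          rw [hmem]
          constructor
          · intro hy
            refine ⟨⟨n, Nat.lt_succ_self n, hy⟩, ?_⟩
            rintro ⟨k, hk, hyk⟩
            exact hn ⟨k, hk, r.trans (r.symm hy) hyk⟩
          · rintro ⟨⟨l, hl, hy⟩, h2⟩
            rcases Nat.lt_succ_iff_lt_or_eq.1 hl with h1 | h1
            · exact absurd ⟨l, h1, hy⟩ h2
            · exact h1 ▸ hy
  let o : ∀ n, ((O n).Pt × W) ↪ (X × W) := fun n =>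
    ⟨Prod.map (O n).val (id : W → W), (O n).val_injective.prodMap injective_id⟩
  have hor : ∀ n, Set.range (o n) = (O n).carrier ×ˢ (Set.univ : Set W) := by
    intro n
    change Set.range (Prod.map (O n).val (id : W → W)) = _
    rw [Set.range_prodMap, Set.range_id]
    exact congrArg (fun A => A ×ˢ (Set.univ : Set W)) Subtype.range_coe
  refine VanG.of_union (o := o) (fun n => ?_) (fun _ _ _ => rfl) ?_ ?_ hOv
  · exact (IsOpen.isOpenEmbedding_subtypeVal (hOo n)).prodMap Topology.IsOpenEmbedding.id
  · intro n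
    rw [hor, hor]
    refine Set.prod_mono ?_ le_rfl
    rintro y ⟨l, hl, hy⟩
    exact ⟨l, hl.trans (Nat.lt_succ_self n), hy⟩
  · refine Set.eq_univ_of_forall fun p => ?_
    obtain ⟨n, hn⟩ := hx p.1
    refine Set.mem_iUnion.2 ⟨n + 1, ?_⟩
    rw [hor]
    exact ⟨⟨n, Nat.lt_succ_self n, hn⟩, Set.mem_univ _⟩

end Part

end Pool.Agent.Lib.MP_aa9b81_an.Tv
end
end

section

/-!
# Transversals, part X6: closed linear groups
-/

open scoped ENNReal Topology CompactlySupported
open Function Filter MeasureTheory

noncomputable section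

set_option linter.unusedSectionVars false

namespace Pool.Agent.Lib.MP_aa9b81_an.Tv

open Cut Hs Cb

/-- The isotropy algebras of an invariant subset. -/
theorem isoAlg_of_injective {n : ℕ} {G X Y : Type} [Group G] [MulAction G X] [MulAction G Y]
    (ρ : G →* Matrix.SpecialLinearGroup (Fin n) ℝ) (e : Y → X) (he : Injective e)
    (hs : ∀ (g : G) (y : Y), e (g • y) = g • e y) (y : Y) :
    LC.isoAlg ρ y = LC.isoAlg ρ (e y) := by
  ext A
  refine forall_congr' fun t => exists_congr fun g => ?_
  rw [← hs, he.eq_iff]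

section Strata

variable {n : ℕ} [NeZero n] {G W : Type} [Group G] [TopologicalSpace G] [IsTopologicalGroup G]
  [LocallyCompactSpace G] [SecondCountableTopology G] [T2Space G] [MeasurableSpace G] [BorelSpace G]
  [ConnectedSpace G] {ρ : G →* Matrix.SpecialLinearGroup (Fin n) ℝ}
  [TopologicalSpace W] [T2Space W] [LocallyCompactSpace W] [MulAction G W] [ContinuousSMul G W]

/-- `K₁` is zero for `X` if it is zero for the spaces whose type is an isotropy algebra of `X`. -/
theorem van_of_strata (hρ : Topology.IsClosedEmbedding ρ) (halg : LC.AlgebraicLie ρ)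
    (hA : PropAG G) (m : ℕ) (X : Type) [TopologicalSpace X] [T2Space X] [LocallyCompactSpace X]
    [SecondCountableTopology X] [MulAction G X] [ContinuousSMul G X]
    (H : ∀ (x : X) (Y : Type) [TopologicalSpace Y] [T2Space Y] [LocallyCompactSpace Y]
      [SecondCountableTopology Y] [MulAction G Y] [ContinuousSMul G Y],
      LC.HasType ρ (LC.isoAlg ρ x) Y → ∀ j, m ≤ j → VanG G (Y × W × Cube j)) :
    ∀ j, m ≤ j → VanG G (X × W × Cube j) := by
  obtain ⟨M, F, hFc, hFi, hFm, hF0, hFM, hL⟩ := LC.exists_strata (X := X) hρ halg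
  let FI : ℕ → InvSet G X := fun i => ⟨F i, hFi i⟩
  have key : ∀ i, i ≤ M → ∀ j, m ≤ j → VanG G ((FI i).Pt × W × Cube j) := by
    intro i
    induction i with
    | zero =>
      intro _ j _
      have : IsEmpty (FI 0).Pt := ⟨fun x => by
        have h1 : (FI 0).val x ∈ F 0 := x.2
        rw [hF0] at h1
        exact h1⟩
      exact vanG_of_isEmpty inferInstance
    | succ i ih =>
      intro hi j hj
      obtain ⟨N, q, hq1, hq2, hq3⟩ := hL i hi
      let L : InvSet G X := ⟨F (i + 1) \ F i, fun g x hx => ⟨hFi (i + 1) g x hx.1, fun h => hx.2 (by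
        have h1 := hFi i g⁻¹ _ h
        rwa [inv_smul_smul] at h1)⟩⟩
      have hLlc : IsLocallyClosed L.carrier :=
        (hFc (i + 1)).isLocallyClosed.inter (hFc i).isOpen_compl.isLocallyClosed
      have : LocallyCompactSpace L.Pt := L.locallyCompactSpace hLlc
      refine VanG.of_sub hA (A := FI i) (B := FI (i + 1)) (S := L) (hFc i)
        (hFc (i + 1)).isLocallyClosed (hFm i) rfl (ih (Nat.le_of_succ_le hi) j hj) ?_
      -- the layer
      have hqc : Continuous fun x : L.Pt => q (L.val x) := hq1.domRestrict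
      have hqi : ∀ (g : G) (x : L.Pt), q (L.val (g • x)) = q (L.val x) := fun g x => by
        rw [InvSet.val_smul, hq2]
      refine VanG.of_fibres hA m N L.Pt (fun x => q (L.val x)) hqc hqi ?_ j hj
      intro c j hj
      -- the fibre
      set A : InvSet G L.Pt := lev (fun x => q (L.val x)) hqi {c} with hAdef
      have hAc : IsClosed A.carrier := isClosed_singleton.preimage hqc
      have : LocallyCompactSpace A.Pt := A.locallyCompactSpace hAc.isLocallyClosed
      have hsc : SecondCountableTopology A.Pt := by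
        have h1 : SecondCountableTopology L.Pt :=
          inferInstanceAs (SecondCountableTopology L.carrier)
        exact inferInstanceAs (SecondCountableTopology A.carrier)
      let e : A.Pt → X := fun y => L.val (A.val y)
      have hei : Injective e := L.val_injective.comp A.val_injective
      have hec : Continuous e := L.continuous_val.comp A.continuous_val
      have hes : ∀ (g : G) (y : A.Pt), e (g • y) = g • e y := fun _ _ => rfl
      have heL : ∀ y, e y ∈ F (i + 1) \ F i := fun y => (A.val y).2
      have heq : ∀ y, q (e y) = c := fun y => y.2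
      let r : Setoid A.Pt :=
        { r := fun y x => ∃ g : G, LC.isoAlg ρ (e y) = LC.Ad ρ g (LC.isoAlg ρ (e x))
          iseqv := by
            refine ⟨fun x => ⟨1, (LC.Ad_one ρ _).symm⟩, ?_, ?_⟩
            · rintro x y ⟨g, hg⟩
              refine ⟨g⁻¹, ?_⟩
              rw [hg, ← LC.Ad_mul, inv_mul_cancel, LC.Ad_one]
            · rintro x y z ⟨g, hg⟩ ⟨g', hg'⟩
              exact ⟨g * g', by rw [hg, hg', LC.Ad_mul]⟩ }
      let cls : A.Pt → InvSet G A.Pt := fun x => ⟨{y | r y x}, by
        rintro g y ⟨g', hg'⟩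
        refine ⟨g * g', ?_⟩
        rw [hes, LC.isoAlg_smul hρ, hg', LC.Ad_mul]⟩
      have hcl : ∀ (x : A.Pt) (U : Set X), {y | ∃ g : G, LC.isoAlg ρ y =
          LC.Ad ρ g (LC.isoAlg ρ (e x))} = {y | y ∈ F (i + 1) \ F i ∧ q y = q (e x)} ∩ U →
          (cls x).carrier = e ⁻¹' U := by
        intro x U hUe
        ext y
        constructor
        · intro hy
          have h2 : e y ∈ {y | y ∈ F (i + 1) \ F i ∧ q y = q (e x)} ∩ U := by
            rw [← hUe]
            exact hy
          exact h2.2
        · intro hy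
          have h2 : e y ∈ {y | y ∈ F (i + 1) \ F i ∧ q y = q (e x)} ∩ U :=
            ⟨⟨heL y, by rw [heq, heq]⟩, hy⟩
          rw [← hUe] at h2
          exact h2
      have hop : ∀ x, IsOpen (cls x).carrier := by
        intro x
        obtain ⟨U, f, hU, hUe, -, -⟩ := hq3 (e x) (heL x)
        rw [hcl x U hUe]
        exact hU.preimage hec
      refine VanG.of_classes hA r cls (fun _ => rfl) hop ?_
      intro x
      obtain ⟨U, f, hU, hUe, hf1, hf2⟩ := hq3 (e x) (heL x)
      have : LocallyCompactSpace (cls x).Pt :=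
        (cls x).locallyCompactSpace (hop x).isLocallyClosed
      have hsc' : SecondCountableTopology (cls x).Pt :=
        inferInstanceAs (SecondCountableTopology (cls x).carrier)
      refine H (e x) (cls x).Pt ⟨fun y => f (e ((cls x).val y)), ?_, ?_⟩ j hj
      · exact hf1.comp_continuous (hec.comp (cls x).continuous_val) fun y => y.2
      · intro y g
        rw [isoAlg_of_injective ρ (fun y : (cls x).Pt => e ((cls x).val y))
          (hei.comp (cls x).val_injective) (fun _ _ => rfl) y]
        exact (hf2 (e ((cls x).val y)) y.2 g).2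
  intro j hj
  exact VanG.of_univ (A := FI M) hFM (key M le_rfl j hj)

end Strata

end Pool.Agent.Lib.MP_aa9b81_an.Tv
end
end
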