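import Pool.Agent.Lib.MP_aa9b81_an.Tv.U5
import Pool.Agent.Lib.MP_aa9b81_an.Tv.Lcd3
import Pool.Agent.Lib.MP_aa9b81_an.Tv.W3

section

/-!
# Transversals, part W4: one space which contains all closed invariant sets of a given space
-/

open scoped Pointwise
open Function Filter Topology

noncomputable section

set_option linter.unusedSectionVars false

namespace Pool.Agent.Lib.MP_aa9b81_an.Tv

open Cut Hs Cb

/-- The pairs `(s, D)` with `s ∈ {0,1}^ℕ` such that the orbit of `D` does not meet `O i` if
`s i = 1`. -/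
def Xw (G : Type) {Y : Type} [Group G] [MulAction G Y] (O : ℕ → Set Y) : Type :=
  {q : (ℕ → Bool) × Y // ∀ i, q.1 i = true → ∀ g : G, g • q.2 ∉ O i}

section

variable {G Y : Type} [Group G] [TopologicalSpace Y] [MulAction G Y] {O : ℕ → Set Y}

instance : TopologicalSpace (Xw G O) :=
  inferInstanceAs (TopologicalSpace
    {q : (ℕ → Bool) × Y // ∀ i, q.1 i = true → ∀ g : G, g • q.2 ∉ O i})

instance : MulAction G (Xw G O) where
  smul g q := ⟨(q.1.1, g • q.1.2), fun i hi h => by
    have h2 : h • g • q.1.2 ∉ O i := by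
      rw [smul_smul]
      exact q.2 i hi (h * g)
    exact h2⟩
  one_smul q := Subtype.ext (Prod.ext rfl (one_smul G q.1.2))
  mul_smul g h q := Subtype.ext (Prod.ext rfl (mul_smul g h q.1.2))

/-- The parameter. -/
def Xw.par (q : Xw G O) : ℕ → Bool := q.1.1

/-- The configuration. -/
def Xw.conf (q : Xw G O) : Y := q.1.2

theorem Xw.par_smul (g : G) (q : Xw G O) : (g • q).par = q.par := rfl

theorem Xw.conf_smul (g : G) (q : Xw G O) : (g • q).conf = g • q.conf := rfl

theorem Xw.ext {q q' : Xw G O} (h : q.par = q'.par) (h' : q.conf = q'.conf) : q = q' :=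
  Subtype.ext (Prod.ext h h')

theorem Xw.continuous_par : Continuous (Xw.par : Xw G O → ℕ → Bool) :=
  continuous_fst.comp continuous_subtype_val

theorem Xw.continuous_conf : Continuous (Xw.conf : Xw G O → Y) :=
  continuous_snd.comp continuous_subtype_val

end

section

variable {G Y : Type} [Group G] [TopologicalSpace G] [TopologicalSpace Y] [MulAction G Y]
  [ContinuousSMul G Y] {O : ℕ → Set Y}

theorem Xw.isClosed (G : Type) [Group G] [TopologicalSpace G] [MulAction G Y]
    [ContinuousSMul G Y] (hO : ∀ i, IsOpen (O i)) :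
    IsClosed {q : (ℕ → Bool) × Y | ∀ i, q.1 i = true → ∀ g : G, g • q.2 ∉ O i} := by
  have h : {q : (ℕ → Bool) × Y | ∀ i, q.1 i = true → ∀ g : G, g • q.2 ∉ O i} =
      ⋂ (i : ℕ) (g : G), ({q : (ℕ → Bool) × Y | q.1 i = true} ∩
        {q : (ℕ → Bool) × Y | g • q.2 ∈ O i})ᶜ := by
    ext q
    simp only [Set.mem_iInter]
    constructor
    · rintro h i g ⟨h2, h3⟩
      exact h i h2 g h3
    · intro h i h2 g h3
      exact h i g ⟨h2, h3⟩
  rw [h]
  refine isClosed_iInter fun i => isClosed_iInter fun g => IsOpen.isClosed_compl (IsOpen.inter ?_ ?_)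
  · have h2 : Continuous fun q : (ℕ → Bool) × Y => q.1 i :=
      (continuous_apply i).comp continuous_fst
    exact (isOpen_discrete {true}).preimage h2
  · exact (hO i).preimage (continuous_snd.const_smul g)

theorem Xw.isClosedEmbedding (hO : ∀ i, IsOpen (O i)) :
    IsClosedEmbedding (Subtype.val : Xw G O → (ℕ → Bool) × Y) :=
  (Xw.isClosed G hO).isClosedEmbedding_subtypeVal

theorem Xw.t2Space [T2Space Y] : T2Space (Xw G O) := by
  exact inferInstanceAs (T2Space
    {q : (ℕ → Bool) × Y // ∀ i, q.1 i = true → ∀ g : G, g • q.2 ∉ O i})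

theorem Xw.locallyCompactSpace [LocallyCompactSpace Y] (hO : ∀ i, IsOpen (O i)) :
    LocallyCompactSpace (Xw G O) := by
  exact (Xw.isClosedEmbedding (G := G) hO).locallyCompactSpace

theorem Xw.secondCountableTopology [SecondCountableTopology Y] :
    SecondCountableTopology (Xw G O) := by
  have h4 : IsEmbedding (Subtype.val : Xw G O → (ℕ → Bool) × Y) := IsEmbedding.subtypeVal
  exact h4.isInducing.secondCountableTopology

theorem Xw.continuousSMul : ContinuousSMul G (Xw G O) := by
  refine ⟨Continuous.subtype_mk ?_ _⟩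
  exact (Xw.continuous_par.comp continuous_snd).prodMk
    (continuous_fst.smul (Xw.continuous_conf.comp continuous_snd))

/-- The points with the first `n` parameters of `s`. -/
def Xw.cyl (O : ℕ → Set Y) (s : ℕ → Bool) (n : ℕ) : InvSet G (Xw G O) where
  carrier := {q | ∀ i < n, q.par i = s i}
  inv _ _ h := h

theorem Xw.isClopen_cyl (s : ℕ → Bool) (n : ℕ) : IsClopen (Xw.cyl (G := G) O s n).carrier := by
  have h : (Xw.cyl (G := G) O s n).carrier = ⋂ i ∈ Finset.range n, {q : Xw G O | q.par i = s i} := by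
    ext q
    rw [Set.mem_iInter₂]
    exact ⟨fun h i hi => h i (Finset.mem_range.1 hi), fun h i hi => h i (Finset.mem_range.2 hi)⟩
  rw [h]
  have h2 : ∀ i, IsClopen {q : Xw G O | q.par i = s i} := fun i =>
    (isClopen_discrete {s i}).preimage ((continuous_apply i).comp Xw.continuous_par)
  exact ⟨isClosed_biInter fun i _ => (h2 i).1,
    (Finset.range n).finite_toSet.isOpen_biInter fun i _ => (h2 i).2⟩

open Classical in
/-- The parameter of a set. -/
def Xw.par0 (O : ℕ → Set Y) (C : Set Y) (i : ℕ) : Bool := decide (Disjoint C (O i))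

/-- A closed invariant subset is a fibre. -/
theorem Xw.exists_fibre (hO : ∀ i, IsOpen (O i))
    (hB : ∀ (D : Y) (W : Set (Y)), IsOpen W → D ∈ W → ∃ i, D ∈ O i ∧ O i ⊆ W)
    {X : Type} [TopologicalSpace X] [MulAction G X] {f : X → Y} (hf : IsClosedEmbedding f)
    (hfe : ∀ (g : G) x, f (g • x) = g • f x) :
    ∃ (s : ℕ → Bool) (c : X → Xw G O), IsClosedEmbedding c ∧ (∀ (g : G) x, c (g • x) = g • c x) ∧
      ⋂ n, (Xw.cyl (G := G) O s n).carrier = Set.range c := by
  classical
  have hmem : ∀ x i, Xw.par0 O (Set.range f) i = true → ∀ g : G, g • f x ∉ O i := by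
    intro x i hi g h
    have h2 : Disjoint (Set.range f) (O i) := of_decide_eq_true hi
    rw [← hfe] at h
    exact Set.disjoint_left.1 h2 ⟨_, rfl⟩ h
  let c : X → Xw G O := fun x => ⟨(Xw.par0 O (Set.range f), f x), hmem x⟩
  have hce := Xw.isClosedEmbedding (G := G) (O := O) hO
  have hpr : IsClosedEmbedding fun x : X =>
      ((Xw.par0 O (Set.range f), f x) : (ℕ → Bool) × Y) := by
    have h2 : IsClosedEmbedding fun D : Y =>
        ((Xw.par0 O (Set.range f), D) : (ℕ → Bool) × Y) := by
      refine IsClosedEmbedding.of_continuous_injective_isClosedMap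
        (continuous_const.prodMk continuous_id) (fun D D' h => (Prod.ext_iff.1 h).2) ?_
      intro C hC
      have h3 : (fun D : Y => ((Xw.par0 O (Set.range f), D) : (ℕ → Bool) × Y)) '' C =
          {Xw.par0 O (Set.range f)} ×ˢ C := by
        ext q
        constructor
        · rintro ⟨D, hD, rfl⟩
          exact ⟨rfl, hD⟩
        · rintro ⟨h4, h5⟩
          exact ⟨q.2, h5, Prod.ext h4.symm rfl⟩
      rw [h3]
      exact isClosed_singleton.prod hC
    exact h2.comp hf
  refine ⟨Xw.par0 O (Set.range f), c, ?_, fun g x => Xw.ext rfl (hfe g x), ?_⟩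
  · exact (IsClosedEmbedding.of_comp_iff hce).1 hpr
  · ext q
    constructor
    · intro hq
      have h2 : q.par = Xw.par0 O (Set.range f) :=
        funext fun i => Set.mem_iInter.1 hq (i + 1) i (Nat.lt_succ_self i)
      have h3 : q.conf ∈ Set.range f := by
        by_contra hn
        obtain ⟨i, hi, hiW⟩ := hB q.conf (Set.range f)ᶜ hf.isClosed_range.isOpen_compl hn
        have h4 : q.par i = true := by
          rw [h2]
          exact decide_eq_true (Set.disjoint_left.2 fun y hy hy' => hiW hy' hy)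
        have h5 := q.2 i h4 1
        rw [one_smul] at h5
        exact h5 hi
      obtain ⟨x, hx⟩ := h3
      exact ⟨x, Xw.ext h2.symm hx⟩
    · rintro ⟨x, rfl⟩
      exact Set.mem_iInter.2 fun n i _ => rfl

theorem Xw.cyl_anti (s : ℕ → Bool) (n : ℕ) :
    (Xw.cyl (G := G) O s (n + 1)).carrier ⊆ (Xw.cyl (G := G) O s n).carrier :=
  fun _ h i hi => h i (hi.trans (Nat.lt_succ_self n))

end


section

variable {G : Type} [Group G] [TopologicalSpace G] [IsTopologicalGroup G]
  [LocallyCompactSpace G] [SecondCountableTopology G] [T2Space G] [MeasurableSpace G] [BorelSpace G]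

/-- The vanishing passes from the universal space to every closed invariant subset of `Y`. -/
theorem van_of_universalW (hA : PropAG G) {Y : Type} [TopologicalSpace Y] [T2Space Y]
    [LocallyCompactSpace Y] [MulAction G Y] [ContinuousSMul G Y] {O : ℕ → Set Y}
    (hO : ∀ i, IsOpen (O i))
    (hB : ∀ (D : Y) (W : Set Y), IsOpen W → D ∈ W → ∃ i, D ∈ O i ∧ O i ⊆ W)
    {X : Type} [TopologicalSpace X] [T2Space X] [MulAction G X] [ContinuousSMul G X]
    {f : X → Y} (hf : IsClosedEmbedding f) (hfe : ∀ (g : G) x, f (g • x) = g • f x)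
    {W : Type} [TopologicalSpace W] [T2Space W] [LocallyCompactSpace W] [MulAction G W]
    [ContinuousSMul G W] [T2Space (Xw G O)] [ContinuousSMul G (Xw G O)]
    (h : VanG G (Xw G O × W)) : VanG G (X × W) := by
  have := Xw.locallyCompactSpace (G := G) (O := O) hO
  obtain ⟨s, c, hc, hce, hint⟩ := Xw.exists_fibre (G := G) hO hB hf hfe
  have hcl : ∀ n, IsClosedEmbedding (Xw.cyl (G := G) O s n).val := fun n =>
    (Xw.isClopen_cyl s n).1.isClosedEmbedding_subtypeVal
  have hop : ∀ n, IsOpenEmbedding (Xw.cyl (G := G) O s n).val := fun n =>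
    (Xw.isClopen_cyl s n).2.isOpenEmbedding_subtypeVal
  have hr : ∀ n, Set.range (Xw.cyl (G := G) O s n).val = (Xw.cyl (G := G) O s n).carrier :=
    fun n => by
      ext q
      exact ⟨by rintro ⟨x, rfl⟩; exact (Xw.cyl (G := G) O s n).val_mem x,
        fun hq => ⟨⟨q, hq⟩, rfl⟩⟩
  refine VanG.of_inter_clopen (Y := Xw G O × W) (C := X × W)
    (D := fun n => (Xw.cyl (G := G) O s n).Pt × W) (c := Prod.map c id)
    (d := fun n => Prod.map (Xw.cyl (G := G) O s n).val id) hA (hc.prodMap IsClosedEmbedding.id)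
    (fun g x => Prod.ext (hce g x.1) rfl) (fun n => (hcl n).prodMap IsClosedEmbedding.id)
    (fun n => (hop n).prodMap IsOpenEmbedding.id) (fun n g x => rfl) (fun n => ?_) ?_ h
  · rw [U5_range, U5_range, hr, hr]
    exact Set.prod_mono (Xw.cyl_anti s n) le_rfl
  · rw [U5_range, ← hint]
    ext q
    rw [Set.mem_iInter]
    constructor
    · intro hq
      refine ⟨Set.mem_iInter.2 fun n => ?_, Set.mem_univ _⟩
      have h2 := hq n
      rw [U5_range, hr] at h2
      exact h2.1
    · rintro ⟨hq, -⟩ n
      rw [U5_range, hr]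
      exact ⟨Set.mem_iInter.1 hq n, Set.mem_univ _⟩

end

end Pool.Agent.Lib.MP_aa9b81_an.Tv
end
end

section

/-!
# Transversals, part W5: one space which decides the vanishing of `K₁` for all spaces
-/

open Function Filter Topology

noncomputable section

set_option linter.unusedSectionVars false

namespace Pool.Agent.Lib.MP_aa9b81_an.Tv

open Cut Hs Cb

/-- THE UNIVERSAL SPACE for all second countable locally compact Hausdorff spaces. -/
theorem exists_universal_all (G : Type) [Group G] [TopologicalSpace G] [IsTopologicalGroup G]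
    [LocallyCompactSpace G] [SecondCountableTopology G] [T2Space G] [MeasurableSpace G]
    [BorelSpace G] :
    ∃ (X₀ : Type) (_ : TopologicalSpace X₀) (_ : T2Space X₀) (_ : LocallyCompactSpace X₀)
      (_ : SecondCountableTopology X₀) (_ : MulAction G X₀) (_ : ContinuousSMul G X₀),
      LC.IsUniversal G X₀ ∧ (PropAG G → ∀ (X : Type) [TopologicalSpace X] [T2Space X] [LocallyCompactSpace X]
        [SecondCountableTopology X] [MulAction G X] [ContinuousSMul G X]
        (W : Type) [TopologicalSpace W] [T2Space W] [LocallyCompactSpace W] [MulAction G W]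
          [ContinuousSMul G W], VanG G (X₀ × W) → VanG G (X × W)) := by
  obtain ⟨b⟩ := exists_bumps G
  have h1 : ContinuousSMul G (Uw b.ω) := Uw.continuousSMul b.tend
  have h2 : SecondCountableTopology (Uw b.ω) := Uw.secondCountable b.tend
  obtain ⟨O, hO, hB⟩ := exists_basis_seq (Uw b.ω)
  have h3 : T2Space (Xw G O) := Xw.t2Space
  have h4 : ContinuousSMul G (Xw G O) := Xw.continuousSMul
  refine ⟨Xw G O, inferInstance, h3, Xw.locallyCompactSpace hO, Xw.secondCountableTopology,
    inferInstance, h4, ?_, ?_⟩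
  · intro X _ _ _ _ _ _
    obtain ⟨C⟩ := exists_coords (X := X) b
    obtain ⟨s, c, hc, hce, hint⟩ :=
      Xw.exists_fibre (G := G) hO hB C.isClosedEmbedding C.emb_smul
    exact ⟨c, fun n => (Xw.cyl (G := G) O s n).carrier, hc, hce, fun n => Xw.isClopen_cyl s n,
      fun n g x hx => (Xw.cyl (G := G) O s n).inv g x hx, fun n => Xw.cyl_anti s n, hint⟩
  intro hA X _ _ _ _ _ _ W _ _ _ _ _ hW
  obtain ⟨C⟩ := exists_coords (X := X) b
  exact van_of_universalW hA hO hB C.isClosedEmbedding C.emb_smul hW

end Pool.Agent.Lib.MP_aa9b81_an.Tv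
end
end
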