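import Pool.Agent.Lib.MP_aa9b81_an.Mg.G034
import Pool.Agent.Lib.MP_aa9b81_an.Tv.Lcd2

section

/-!
# Transversals, section F (Morita), part F1: Hilbert space preliminaries
-/

open scoped ENNReal Topology
open Function Filter MeasureTheory

noncomputable section

set_option linter.unusedSectionVars false

namespace Pool.Agent.Lib.MP_aa9b81_an.Tv

open Cut Hs Cb

section Abstract

variable {ι E F : Type} [NormedAddCommGroup E] [InnerProductSpace ℂ E] [CompleteSpace E]
  [NormedAddCommGroup F] [InnerProductSpace ℂ F] [CompleteSpace F]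

/-- Two total families with the same inner products.
PROOF: `Lx = Finsupp.linearCombination ℂ x : (ι →₀ ℂ) →ₗ E`, `Ly`; `inner (Lx a) (Lx b) = inner (Ly a) (Ly b)`, so `‖Lx a‖ = ‖Ly a‖` and the kernels agree. The
induced linear isometry `Submodule.span ℂ (range x) → F` (`LinearMap.quotKerEquivRange`, `Submodule.liftQ`, `Finsupp.range_linearCombination`) extends to `E`
(`ContinuousLinearMap.extend`, dense range, or `LinearIsometry.extend`-like), norm preserving by density; its range is complete and dense, so it is onto (`LinearIsometryEquiv.ofSurjective`). -/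
theorem exists_isometryEquiv (x : ι → E) (y : ι → F)
    (h : ∀ i j, (inner ℂ (x i) (x j) : ℂ) = inner ℂ (y i) (y j))
    (hx : (Submodule.span ℂ (Set.range x)).topologicalClosure = ⊤)
    (hy : (Submodule.span ℂ (Set.range y)).topologicalClosure = ⊤) :
    ∃ w : E ≃ₗᵢ[ℂ] F, ∀ i, w (x i) = y i := by
  have hi : ∀ a b : ι →₀ ℂ, (inner ℂ (Finsupp.linearCombination ℂ x a)
      (Finsupp.linearCombination ℂ x b) : ℂ) = inner ℂ (Finsupp.linearCombination ℂ y a)
        (Finsupp.linearCombination ℂ y b) := by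
    intro a b
    simp only [Finsupp.linearCombination_apply, Finsupp.sum, sum_inner, inner_sum,
      inner_smul_left, inner_smul_right, h]
  have hn : ∀ a : ι →₀ ℂ, ‖Finsupp.linearCombination ℂ y ((LinearEquiv.refl ℂ (ι →₀ ℂ)) a)‖ =
      ‖Finsupp.linearCombination ℂ x a‖ := by
    intro a
    rw [LinearEquiv.refl_apply, norm_eq_sqrt_re_inner (𝕜 := ℂ), norm_eq_sqrt_re_inner (𝕜 := ℂ),
      hi]
  have hd1 : DenseRange (Finsupp.linearCombination ℂ x) := by
    have h1 := Submodule.dense_iff_topologicalClosure_eq_top.2 hx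
    rw [← Finsupp.range_linearCombination] at h1
    exact h1
  have hd2 : DenseRange (Finsupp.linearCombination ℂ y) := by
    have h1 := Submodule.dense_iff_topologicalClosure_eq_top.2 hy
    rw [← Finsupp.range_linearCombination] at h1
    exact h1
  refine ⟨(LinearEquiv.refl ℂ (ι →₀ ℂ)).extendOfIsometry (Finsupp.linearCombination ℂ x)
    (Finsupp.linearCombination ℂ y) hd1 hd2 hn, fun i => ?_⟩
  have h2 := LinearEquiv.extendOfIsometry_eq (LinearEquiv.refl ℂ (ι →₀ ℂ))
    (Finsupp.linearCombination ℂ x) (Finsupp.linearCombination ℂ y) hd1 hd2 hn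
    (Finsupp.single i 1)
  rw [LinearEquiv.refl_apply, Finsupp.linearCombination_single,
    Finsupp.linearCombination_single, one_smul, one_smul] at h2
  exact h2

/-- Equality of operators from the matrix entries with respect to total families.
PROOF: for fixed `j`, `inner (y i) (T (x j) - T' (x j)) = 0` for all `i`, so `T (x j) = T' (x j)` (`Submodule.closure_induction`-like: the orthogonal complement of a total family is zero,
`Submodule.topologicalClosure_eq_top_iff`, `Submodule.mem_orthogonal`, `Submodule.span_induction`); then `ContinuousLinearMap.ext_on` (dense span). -/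
theorem ext_total {ι' : Type} {x : ι → E} {y : ι' → F} {T T' : E →L[ℂ] F}
    (h : ∀ i j, (inner ℂ (y i) (T (x j)) : ℂ) = inner ℂ (y i) (T' (x j)))
    (hx : (Submodule.span ℂ (Set.range x)).topologicalClosure = ⊤)
    (hy : (Submodule.span ℂ (Set.range y)).topologicalClosure = ⊤) : T = T' := by
  refine ContinuousLinearMap.ext_on (Submodule.dense_iff_topologicalClosure_eq_top.2 hx) ?_
  rintro _ ⟨j, rfl⟩
  have hd := Submodule.dense_iff_topologicalClosure_eq_top.2 hy
  refine hd.eq_of_inner_right (𝕜 := ℂ) fun v hv => ?_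
  show (inner ℂ v (T (x j)) : ℂ) = inner ℂ v (T' (x j))
  induction hv using Submodule.span_induction with
  | mem v hv =>
    obtain ⟨i, rfl⟩ := hv
    exact h i j
  | zero => rw [inner_zero_left, inner_zero_left]
  | add u v _ _ hu hv => rw [inner_add_left, inner_add_left, hu, hv]
  | smul c v _ hv => rw [inner_smul_left, inner_smul_left, hv]

/-- The rank one operator `z ↦ ⟨y, z⟩ x`. -/
def rk1 (x : F) (y : E) : E →L[ℂ] F := (innerSL ℂ y).smulRight x

@[simp] theorem rk1_apply (x : F) (y z : E) : rk1 x y z = (inner ℂ y z : ℂ) • x := rfl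

/-- PROOF: Cauchy–Schwarz. -/
theorem norm_rk1_le (x : F) (y : E) : ‖rk1 x y‖ ≤ ‖x‖ * ‖y‖ := by
  refine ContinuousLinearMap.opNorm_le_bound _ (by positivity) fun z => ?_
  rw [rk1_apply, norm_smul]
  have h := norm_inner_le_norm (𝕜 := ℂ) y z
  have h2 := norm_nonneg x
  nlinarith

theorem rk1_add_left (x x' : F) (y : E) : rk1 (x + x') y = rk1 x y + rk1 x' y := by
  ext z
  simp [smul_add]

theorem rk1_smul_left (c : ℂ) (x : F) (y : E) : rk1 (c • x) y = c • rk1 x y := by
  ext z
  show (inner ℂ y z : ℂ) • c • x = c • (inner ℂ y z : ℂ) • x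
  rw [smul_comm]

theorem rk1_sub_left (x x' : F) (y : E) : rk1 (x - x') y = rk1 x y - rk1 x' y := by
  ext z
  simp [smul_sub]

theorem rk1_add_right (x : F) (y y' : E) : rk1 x (y + y') = rk1 x y + rk1 x y' := by
  ext z
  simp [add_smul]

theorem rk1_smul_right (c : ℂ) (x : F) (y : E) : rk1 x (c • y) = (starRingEnd ℂ) c • rk1 x y := by
  ext z
  show (inner ℂ (c • y) z : ℂ) • x = (starRingEnd ℂ) c • (inner ℂ y z : ℂ) • x
  rw [inner_smul_left, smul_smul]

theorem rk1_sub_right (x : F) (y y' : E) : rk1 x (y - y') = rk1 x y - rk1 x y' := by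
  ext z
  simp [sub_smul]

/-- PROOF: `inner (w y) (w z) = inner y z`. -/
theorem conj_rk1 {E₁ : Type} [NormedAddCommGroup E₁] [InnerProductSpace ℂ E₁] (w : E ≃ₗᵢ[ℂ] E₁)
    (x y : E) :
    (w : E →L[ℂ] E₁) ∘L rk1 x y ∘L (w.symm : E₁ →L[ℂ] E) = rk1 (w x) (w y) := by
  ext z
  have h : (inner ℂ (w y) z : ℂ) = inner ℂ y (w.symm z) := by
    rw [← LinearIsometryEquiv.inner_map_map w y (w.symm z), LinearIsometryEquiv.apply_symm_apply]
  show w ((inner ℂ y (w.symm z) : ℂ) • x) = (inner ℂ (w y) z : ℂ) • w x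
  rw [map_smul, h]

end Abstract

/-- PROOF: `Eu k l v = v l • bv k` (`Eu_apply`, `inner_bv_left`, `bv_apply`). -/
theorem Eu_eq_rk1 {J : Type} (k l : J) : (Eu k l : BL J) = rk1 (bv k) (bv l) := by
  classical
  ext ξ a
  rw [Eu_apply, rk1_apply, inner_bv_left, lp.coeFn_smul, Pi.smul_apply, bv_apply, smul_eq_mul]
  by_cases h : a = k
  · rw [if_pos h, if_pos h, mul_one]
  · rw [if_neg h, if_neg h, mul_zero]

/-- The basis vectors are total. PROOF: a vector orthogonal to all `bv j` is zero (`ext_bv`, `inner_bv_left`). -/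
theorem total_bv {J : Type} :
    (Submodule.span ℂ (Set.range (bv : J → L2 J))).topologicalClosure = ⊤ := by
  rw [Submodule.topologicalClosure_eq_top_iff, Submodule.eq_bot_iff]
  intro v hv
  refine ext_bv fun b => ?_
  rw [inner_zero_right]
  exact (Submodule.mem_orthogonal _ v).1 hv (bv b) (Submodule.subset_span ⟨b, rfl⟩)

end Pool.Agent.Lib.MP_aa9b81_an.Tv
end
end

section

/-!
# Transversals, part J1: the exhaustion of a space with local boxes
-/

open Function Filter Topology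

noncomputable section

set_option linter.unusedSectionVars false

namespace Pool.Agent.Lib.MP_aa9b81_an.Tv

open Cut Hs Cb

variable {G X : Type} [Group G] [TopologicalSpace G] [IsTopologicalGroup G]
  [LocallyCompactSpace G] [TopologicalSpace X] [T2Space X] [MulAction G X] [ContinuousSMul G X]

/-- The points whose orbits meet `T°` for a `V`-box `T`. -/
def boxPt (V : Set G) (X : Type) [TopologicalSpace X] [MulAction G X] : InvSet G X where
  carrier := {x | ∃ T : Set X, LC.IsBox V T ∧ ∃ g : G, g • x ∈ LC.core G T}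
  inv := by
    rintro g' x ⟨T, hT, g, hg⟩
    refine ⟨T, hT, g * g'⁻¹, ?_⟩
    rwa [mul_smul, inv_smul_smul]

theorem isOpen_boxPt {V : Set G} (hV : IsOpen V) (h1 : (1 : G) ∈ V) :
    IsOpen (boxPt V X).carrier := by
  rw [isOpen_iff_mem_nhds]
  rintro x ⟨T, hT, g, hg⟩
  have h2 : (boxPt V X).carrier ∈ 𝓝 (g • x) := by
    filter_upwards [core_decomp hV h1 hT hg (U := Set.univ) Filter.univ_mem
      (core_open hV h1 hT hg)] with y hy
    obtain ⟨u, -, s, hsT, hs, rfl⟩ := hy
    refine ⟨T, hT, u⁻¹, ?_⟩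
    rw [inv_smul_smul]
    exact hs hsT
  have h3 : (fun z : X => g • z) ⁻¹' (boxPt V X).carrier ∈ 𝓝 x :=
    (continuous_const_smul g).continuousAt.preimage_mem_nhds h2
  filter_upwards [h3] with y hy
  have h4 := (boxPt V X).inv g⁻¹ _ hy
  rwa [inv_smul_smul] at h4

theorem boxPt_mono {V V' : Set G} (h : V' ⊆ V) : (boxPt V X).carrier ⊆ (boxPt V' X).carrier := by
  rintro x ⟨T, hT, hg⟩
  exact ⟨T, ⟨hT.isCompact, fun v hv v' hv' => hT.inj v (h hv) v' (h hv')⟩, hg⟩

theorem iUnion_boxPt {V : ℕ → Set G} (hb : ∀ U ∈ 𝓝 (1 : G), ∃ n, V n ⊆ U)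
    (hX : LC.HasLocalBoxes G fun _ : Set X => True) : ⋃ n, (boxPt (V n) X).carrier = Set.univ := by
  refine Set.eq_univ_of_forall fun x => ?_
  obtain ⟨V₀, hV₀, h1, T, hT, -, hg⟩ := hX x
  obtain ⟨n, hn⟩ := hb V₀ (hV₀.mem_nhds h1)
  exact Set.mem_iUnion.2 ⟨n, T, ⟨hT.isCompact, fun v hv v' hv' => hT.inj v (hn hv) v' (hn hv')⟩,
    hg⟩

theorem hasBoxes_boxPt [LocallyCompactSpace X] {V : Set G} (hV : IsOpen V) (h1 : (1 : G) ∈ V) :
    LC.HasBoxes V fun _ : Set (boxPt V X).Pt => True := by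
  intro x
  obtain ⟨T, hT, g, hg⟩ := x.2
  obtain ⟨K, hK, hKN, hKc⟩ := local_compact_nhds (core_open hV h1 hT hg)
  have hKN' : ∀ s ∈ K, s ∈ T → s ∈ LC.core G T := fun s hs => hKN hs
  have hsub : T ∩ K ⊆ (boxPt V X).carrier := by
    rintro s ⟨hsT, hsK⟩
    exact ⟨T, hT, 1, by
      rw [one_smul]
      exact hKN' s hsK hsT⟩
  have hemb : Topology.IsEmbedding (boxPt V X).val := Topology.IsEmbedding.subtypeVal
  have hr : T ∩ K ⊆ Set.range (boxPt V X).val := fun s hs => ⟨⟨s, hsub hs⟩, rfl⟩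
  have hTK : IsCompact (T ∩ K) := hT.isCompact.inter hKc
  have hTc : IsCompact ((boxPt V X).val ⁻¹' (T ∩ K)) :=
    (hemb.isInducing.isCompact_preimage_iff hr).2 hTK
  have hgK : g • (boxPt V X).val x ∈ K := mem_of_mem_nhds hK
  refine ⟨(boxPt V X).val ⁻¹' (T ∩ K), ⟨hTc, ?_⟩, trivial, g, ⟨⟨hg.1, hgK⟩, fun U hU => ?_⟩⟩
  · intro v hv v' hv' t ht t' ht' h
    have h2 : v • (boxPt V X).val t = v' • (boxPt V X).val t' :=
      congrArg (boxPt V X).val h
    obtain ⟨h3, h4⟩ := hT.inj v hv v' hv' _ ht.1 _ ht'.1 h2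
    exact ⟨h3, (boxPt V X).val_injective h4⟩
  · have h2 := core_decomp hV h1 hT hg hU hK
    have h3 : Tendsto (boxPt V X).val (𝓝 (g • x)) (𝓝 (g • (boxPt V X).val x)) :=
      (boxPt V X).continuous_val.continuousAt
    filter_upwards [h3.eventually h2] with y hy
    obtain ⟨u, hu, s, hsT, hsK, hus⟩ := hy
    exact ⟨u, hu, ⟨s, hsub ⟨hsT, hsK⟩⟩, ⟨hsT, hsK⟩, (boxPt V X).val_injective hus⟩

/-- A decreasing sequence of open neighbourhoods of `1`. -/
theorem exists_basis_one (G : Type) [Group G] [TopologicalSpace G] [FirstCountableTopology G] :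
    ∃ V : ℕ → Set G, (∀ n, IsOpen (V n)) ∧ (∀ n, (1 : G) ∈ V n) ∧ (∀ n, V (n + 1) ⊆ V n) ∧
      ∀ U ∈ 𝓝 (1 : G), ∃ n, V n ⊆ U := by
  obtain ⟨s, hs⟩ := (𝓝 (1 : G)).exists_antitone_basis
  refine ⟨fun n => interior (s n), fun n => isOpen_interior, fun n =>
    mem_interior_iff_mem_nhds.2 (hs.mem n), fun n => interior_mono (hs.antitone n.le_succ),
    fun U hU => ?_⟩
  obtain ⟨n, -, hn⟩ := hs.toHasBasis.mem_iff.1 hU
  exact ⟨n, interior_subset.trans hn⟩

end Pool.Agent.Lib.MP_aa9b81_an.Tv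
end
end
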