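import Pool.Agent.Lib.MP_aa9b81_an.Mg.G042
import Pool.Agent.Lib.MP_aa9b81_an.Tv.Lcd2

section

/-!
# Transversals, part J4a: disjoint unions
-/

open Function Filter Topology

noncomputable section

set_option linter.unusedSectionVars false

namespace Pool.Agent.Lib.MP_aa9b81_an.Tv

open Cut Hs Cb

section Sum

variable {G : Type} [Group G] [TopologicalSpace G]
  {Z : ℕ → Type} [∀ n, TopologicalSpace (Z n)] [∀ n, MulAction G (Z n)]

theorem sum_smul_mk (g : G) {n : ℕ} (z : Z n) :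
    (Sigma.mk n (g • z) : Σ n, Z n) = g • (Sigma.mk n z : Σ n, Z n) := rfl

/-- The action on the disjoint union is continuous. -/
theorem sum_continuousSMul [∀ n, ContinuousSMul G (Z n)] : ContinuousSMul G (Σ n, Z n) := by
  refine ⟨continuous_iff_continuousAt.2 ?_⟩
  rintro ⟨g, ⟨n, z⟩⟩
  have he : IsOpenEmbedding (Prod.map (id : G → G) (Sigma.mk n : Z n → Σ n, Z n)) :=
    IsOpenEmbedding.id.prodMap IsOpenEmbedding.sigmaMk
  have h1 : ContinuousAt ((fun p : G × (Σ n, Z n) => p.1 • p.2) ∘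
      Prod.map (id : G → G) (Sigma.mk n : Z n → Σ n, Z n)) (g, z) := by
    show ContinuousAt (fun p : G × Z n => (Sigma.mk n (p.1 • p.2) : Σ n, Z n)) (g, z)
    exact (continuous_sigmaMk.comp continuous_smul).continuousAt
  exact (he.continuousAt_iff (f := Prod.map (id : G → G) (Sigma.mk n : Z n → Σ n, Z n))
    (x := (g, z))).1 h1

/-- The disjoint union of locally compact spaces is locally compact. -/
theorem sum_locallyCompact [∀ n, LocallyCompactSpace (Z n)] : LocallyCompactSpace (Σ n, Z n) := by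
  refine ⟨?_⟩
  rintro ⟨n, z⟩ N hN
  have he : IsOpenEmbedding (Sigma.mk n : Z n → Σ n, Z n) := IsOpenEmbedding.sigmaMk
  have h1 : (Sigma.mk n : Z n → Σ n, Z n) ⁻¹' N ∈ 𝓝 z := continuous_sigmaMk.continuousAt hN
  obtain ⟨K, hK, hKN, hKc⟩ := local_compact_nhds h1
  exact ⟨Sigma.mk n '' K, he.isOpenMap.image_mem_nhds hK, Set.image_subset_iff.2 hKN,
    hKc.image continuous_sigmaMk⟩

theorem sum_isClosedEmbedding (n : ℕ) :
    IsClosedEmbedding (Sigma.mk n : Z n → Σ n, Z n) := IsClosedEmbedding.sigmaMk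

/-- The image of a box of a piece is a box. -/
theorem sum_isBox {V : Set G} {n : ℕ} {T : Set (Z n)} (hT : LC.IsBox V T) :
    LC.IsBox V ((Sigma.mk n : Z n → Σ n, Z n) '' T) := by
  refine ⟨hT.isCompact.image continuous_sigmaMk, ?_⟩
  rintro v hv v' hv' _ ⟨t, ht, rfl⟩ _ ⟨t', ht', rfl⟩ h
  rw [← sum_smul_mk, ← sum_smul_mk] at h
  have h1 := IsOpenEmbedding.sigmaMk.injective h
  obtain ⟨h2, h3⟩ := hT.inj v hv v' hv' t ht t' ht' h1
  exact ⟨h2, by rw [h3]⟩

/-- The core of the image of a subset of a piece. -/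
theorem sum_mem_core {n : ℕ} {T : Set (Z n)} {t : Z n} (ht : t ∈ LC.core G T) :
    (Sigma.mk n t : Σ n, Z n) ∈ LC.core G ((Sigma.mk n : Z n → Σ n, Z n) '' T) := by
  refine ⟨⟨t, ht.1, rfl⟩, fun U hU => ?_⟩
  have he : IsOpenEmbedding (Sigma.mk n : Z n → Σ n, Z n) := IsOpenEmbedding.sigmaMk
  refine mem_of_superset (he.isOpenMap.image_mem_nhds (ht.2 U hU)) ?_
  rintro _ ⟨x, ⟨u, hu, s, hs, rfl⟩, rfl⟩
  exact ⟨u, hu, Sigma.mk n s, ⟨s, hs, rfl⟩, rfl⟩

/-- The image of a totally disconnected subset of a piece is totally disconnected. -/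
theorem sum_isTotallyDisconnected {n : ℕ} {T : Set (Z n)} (hT : IsTotallyDisconnected T) :
    IsTotallyDisconnected ((Sigma.mk n : Z n → Σ n, Z n) '' T) :=
  (IsOpenEmbedding.sigmaMk (i := n) (σ := Z)).isEmbedding.isTotallyDisconnected_image.2 hT

/-- The disjoint union of spaces with `V n`-boxes has local boxes. -/
theorem sum_localBoxes {V : ℕ → Set G} (hV : ∀ n, IsOpen (V n)) (h1 : ∀ n, (1 : G) ∈ V n)
    {P : ∀ n, Set (Z n) → Prop} {P' : Set (Σ n, Z n) → Prop}
    (hP : ∀ n T, P n T → P' (Sigma.mk n '' T)) (h : ∀ n, LC.HasBoxes (V n) (P n))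
    (x : Σ n, Z n) : ∃ V' : Set G, IsOpen V' ∧ (1 : G) ∈ V' ∧
      ∃ T : Set (Σ n, Z n), LC.IsBox V' T ∧ P' T ∧ ∃ g : G, g • x ∈ LC.core G T := by
  obtain ⟨n, z⟩ := x
  obtain ⟨T, hT, hPT, g, hg⟩ := h n z
  exact ⟨V n, hV n, h1 n, Sigma.mk n '' T, sum_isBox hT, hP n T hPT, g, sum_mem_core hg⟩

/-- The disjoint union of spaces with `V n`-boxes that are totally disconnected. -/
theorem sum_localBoxes_td {V : ℕ → Set G} (hV : ∀ n, IsOpen (V n)) (h1 : ∀ n, (1 : G) ∈ V n)
    (h : ∀ n, LC.HasBoxes (V n) fun T : Set (Z n) => IsTotallyDisconnected T)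
    (x : Σ n, Z n) : ∃ V' : Set G, IsOpen V' ∧ (1 : G) ∈ V' ∧
      ∃ T : Set (Σ n, Z n), LC.IsBox V' T ∧ IsTotallyDisconnected T ∧
        ∃ g : G, g • x ∈ LC.core G T :=
  sum_localBoxes (P := fun n (T : Set (Z n)) => IsTotallyDisconnected T) hV h1
    (fun _ _ hT => sum_isTotallyDisconnected hT) h x

/-- The disjoint union of second countable spaces is second countable. -/
theorem sum_secondCountable [∀ n, SecondCountableTopology (Z n)] :
    SecondCountableTopology (Σ n, Z n) := inferInstance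

/-- The disjoint union of Hausdorff spaces is Hausdorff. -/
theorem sum_t2Space [∀ n, T2Space (Z n)] : T2Space (Σ n, Z n) := inferInstance

end Sum

section Van

variable {G : Type} [Group G] [TopologicalSpace G] [IsTopologicalGroup G]
  [LocallyCompactSpace G] [SecondCountableTopology G] [T2Space G] [MeasurableSpace G] [BorelSpace G]
  {Z : ℕ → Type} [∀ n, TopologicalSpace (Z n)] [∀ n, T2Space (Z n)] [∀ n, MulAction G (Z n)]
  [∀ n, ContinuousSMul G (Z n)] [ContinuousSMul G (Σ n, Z n)]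
  [∀ n, LocallyCompactSpace (Z n)]
  {W : Type} [TopologicalSpace W] [T2Space W] [LocallyCompactSpace W] [MulAction G W]
  [ContinuousSMul G W]

/-- If `K₁` of the disjoint union vanishes then `K₁` of every piece vanishes. -/
theorem van_sum (h : VanG G ((Σ n, Z n) × W)) (n : ℕ) : VanG G (Z n × W) := by
  have := sum_locallyCompact (Z := Z)
  exact VanG.of_clopen (Y := (Σ n, Z n) × W)
    (i := Prod.map (Sigma.mk n : Z n → Σ n, Z n) (id : W → W))
    (IsClosedEmbedding.sigmaMk.prodMap IsClosedEmbedding.id)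
    (IsOpenEmbedding.sigmaMk.prodMap IsOpenEmbedding.id) (fun g x => rfl) h

end Van

end Pool.Agent.Lib.MP_aa9b81_an.Tv
end
end

section

/-!
# Transversals, part J4: disjoint unions
-/

open Function Filter Topology

noncomputable section

set_option linter.unusedSectionVars false

namespace Pool.Agent.Lib.MP_aa9b81_an.Tv

/-- The disjoint union of a sequence of spaces with totally disconnected boxes. -/
theorem exists_sum {G : Type} [Group G] [TopologicalSpace G] [IsTopologicalGroup G]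
    {Z : ℕ → Type} [∀ n, TopologicalSpace (Z n)] [∀ n, T2Space (Z n)]
    [∀ n, LocallyCompactSpace (Z n)] [∀ n, SecondCountableTopology (Z n)]
    [∀ n, MulAction G (Z n)] [∀ n, ContinuousSMul G (Z n)] {V : ℕ → Set G}
    (hV : ∀ n, IsOpen (V n)) (h1 : ∀ n, (1 : G) ∈ V n)
    (hZ : ∀ n, LC.HasBoxes (V n) fun T : Set (Z n) => IsTotallyDisconnected T) :
    ∃ (S : Type) (_ : TopologicalSpace S) (_ : T2Space S) (_ : LocallyCompactSpace S)
      (_ : SecondCountableTopology S) (_ : MulAction G S) (_ : ContinuousSMul G S)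
      (i : ∀ n, Z n → S), (∀ n, IsClosedEmbedding (i n)) ∧ (∀ n, IsOpenEmbedding (i n)) ∧
      (∀ n (g : G) z, i n (g • z) = g • i n z) ∧
      LC.HasLocalBoxes G fun T : Set S => IsTotallyDisconnected T :=
  ⟨Σ n, Z n, inferInstance, inferInstance, sum_locallyCompact, inferInstance, inferInstance,
    sum_continuousSMul, fun n => Sigma.mk n, fun _ => IsClosedEmbedding.sigmaMk,
    fun _ => IsOpenEmbedding.sigmaMk, fun _ _ _ => rfl, sum_localBoxes_td hV h1 hZ⟩

end Pool.Agent.Lib.MP_aa9b81_an.Tv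
end
end
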