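import Pool.Agent.Lib.MP_aa9b81_an.Tv.I3
import Pool.Agent.Lib.MP_aa9b81_an.Mg.G042
import Pool.Agent.Lib.MP_aa9b81_an.Mg.G052
import Pool.Agent.Lib.MP_aa9b81_an.Tv.J3
import Pool.Agent.Lib.MP_aa9b81_an.Tv.U5
import Pool.Agent.Lib.MP_aa9b81_an.Mg.G056

section

/-!
# Transversals, part I5: one space for all spaces with boxes
-/

open scoped ENNReal Topology CompactlySupported
open Function Filter MeasureTheory

noncomputable section

set_option linter.unusedSectionVars false

namespace Pool.Agent.Lib.MP_aa9b81_an.Tv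

open Cut Hs Cb

variable (G : Type) [Group G] [TopologicalSpace G] [IsTopologicalGroup G]
    [LocallyCompactSpace G] [SecondCountableTopology G] [T2Space G] [MeasurableSpace G]
    [BorelSpace G]

/-- A space with totally disconnected `V`-boxes which is universal for the vanishing of `K₁`. -/
structure UnivSp (V : Set G) where
  /-- the space -/
  Z : Type
  top : TopologicalSpace Z
  act : MulAction G Z
  t2 : T2Space Z
  lc : LocallyCompactSpace Z
  sc : SecondCountableTopology Z
  cs : ContinuousSMul G Z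
  box : LC.HasBoxes V fun T : Set Z => IsTotallyDisconnected T
  univ : ∀ (E : Type) [AddCommGroup E] [Module ℝ E] [TopologicalSpace E] [T2Space E]
    [ContinuousAdd E] [ContinuousSMul ℝ E] [DistribMulAction G E] [SMulCommClass G ℝ E]
    [ContinuousConstSMul G E] (Q : LC.ConvexSpace G E),
    ContinuousOn (fun p : G × E => p.1 • p.2) (Set.univ ×ˢ Q.carrier) → LC.Amenable Q →
    ∀ j, VanG G (Z × Cone (cvx Q) × Cube j) →
      ∀ (X : Type) [TopologicalSpace X] [T2Space X] [LocallyCompactSpace X]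
        [SecondCountableTopology X] [MulAction G X] [ContinuousSMul G X],
        (LC.HasBoxes V fun _ : Set X => True) → VanG G (X × Cone (cvx Q) × Cube j)

attribute [instance] UnivSp.top UnivSp.act UnivSp.t2 UnivSp.lc UnivSp.sc UnivSp.cs

variable {G}

theorem nonempty_univSp {V : Set G} (hV : IsOpen V) (h1 : (1 : G) ∈ V) :
    Nonempty (UnivSp G V) := by
  obtain ⟨X₀, tX, aX, t2X, csX, lcX, scX, hX₀, hU⟩ := exists_universal hV h1
  obtain ⟨V', hV', h1', Δ, c, hc, Z, tZ, aZ, p, e, t2, lc, sc, cs, hp, hps, hpe, he, hb, hbox⟩ :=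
    exists_marks hV h1 hX₀
  refine ⟨⟨Z, tZ, aZ, t2, lc, sc, cs, hbox, ?_⟩⟩
  intro E _ _ _ _ _ _ _ _ _ Q hQ hA j hZ X _ _ _ _ _ _ hX
  have hQ' := cvx_cont hQ
  have := cone_continuousSMul (cvx Q) hQ'
  have := cone_locallyCompact (cvx Q)
  have hi : InjG G (fun x : Z × Cone (cvx Q) × Cube j =>
      ((p x.1, x.2) : X₀ × Cone (cvx Q) × Cube j)) :=
    slice_inj ((propAG_of_amenable hQ hA).prod propAG_M2) hV' h1' hc hp hpe he hb hQ' j
  exact hU X hX (propAG_of_amenable hQ hA) (Cone (cvx Q) × Cube j)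
    (van_of_injG (hp.prodMap isProperMap_id) (fun g x => Prod.ext (hpe g x.1) rfl) hi hZ)

end Pool.Agent.Lib.MP_aa9b81_an.Tv
end
end

section

/-!
# Transversals, part I6: the theorem
-/

open scoped ENNReal Topology CompactlySupported
open Function Filter MeasureTheory

noncomputable section

set_option linter.unusedSectionVars false

namespace Pool.Agent.Lib.MP_aa9b81_an.Tv

open Cut Hs Cb

variable {G : Type} [Group G] [TopologicalSpace G] [IsTopologicalGroup G]
    [LocallyCompactSpace G] [SecondCountableTopology G] [T2Space G] [MeasurableSpace G]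
    [BorelSpace G]

/-- The first part. -/
theorem transversals_one {V : Set G} (hV : IsOpen V) (h1 : (1 : G) ∈ V)
    (X : Type) [TopologicalSpace X] [T2Space X] [LocallyCompactSpace X]
    [SecondCountableTopology X] [MulAction G X] [ContinuousSMul G X]
    (hX : LC.HasBoxes V (fun _ : Set X => True)) :
    ∃ (Z : Type) (_ : TopologicalSpace Z) (_ : T2Space Z) (_ : LocallyCompactSpace Z)
      (_ : SecondCountableTopology Z) (_ : MulAction G Z) (_ : ContinuousSMul G Z)
      (p : Z → X), IsProperMap p ∧ Function.Surjective p ∧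
      (∀ (g : G) (z : Z), p (g • z) = g • p z) ∧
      LC.HasBoxes V (fun T : Set Z => IsTotallyDisconnected T) ∧
      ∀ (E : Type) [AddCommGroup E] [Module ℝ E] [TopologicalSpace E] [T2Space E]
        [ContinuousAdd E] [ContinuousSMul ℝ E] [DistribMulAction G E] [SMulCommClass G ℝ E]
        [ContinuousConstSMul G E] (Q : LC.ConvexSpace G E),
        ContinuousOn (fun q : G × E => q.1 • q.2) (Set.univ ×ˢ Q.carrier) → LC.Amenable Q →
        ∀ j, LC.K1Inj G (LC.Wsp.map Q p j) ∧ LC.K1Bij G (LC.Wsp.map Q p (j + 1)) := by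
  obtain ⟨V', hV', h1', Δ, c, hc, Z, tZ, aZ, p, e, t2, lc, sc, cs, hp, hps, hpe, he, hb, hbox⟩ :=
    exists_marks hV h1 hX
  refine ⟨Z, tZ, t2, lc, sc, aZ, cs, p, hp, hps, hpe, hbox, ?_⟩
  intro E _ _ _ _ _ _ _ _ _ Q hQ hA j
  have hA' : PropAG (G × M2) := (propAG_of_amenable hQ hA).prod propAG_M2
  have hQ' := cvx_cont hQ
  have := cone_continuousSMul (cvx Q) hQ'
  have hi : ∀ j, InjG G (fun x : Z × Cone (cvx Q) × Cube j =>
      ((p x.1, x.2) : X × Cone (cvx Q) × Cube j)) :=
    slice_inj hA' hV' h1' hc hp hpe he hb hQ'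
  have hs : ∀ j, SurG G (fun x : Z × Cone (cvx Q) × Cube (j + 1) =>
      ((p x.1, x.2) : X × Cone (cvx Q) × Cube (j + 1))) :=
    slice_sur hA' hV' h1' hc hp hpe he hb hQ'
  have hP : ∀ j, IsProperMap (fun x : Z × Cone (cvx Q) × Cube j =>
      ((p x.1, x.2) : X × Cone (cvx Q) × Cube j)) := fun j => hp.prodMap isProperMap_id
  have hE : ∀ j (g : G) (x : Z × Cone (cvx Q) × Cube j),
      ((p (g • x).1, (g • x).2) : X × Cone (cvx Q) × Cube j) =
        g • ((p x.1, x.2) : X × Cone (cvx Q) × Cube j) := fun j g x =>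
    Prod.ext (hpe g x.1) rfl
  exact ⟨(I1_k1Inj (hP j) (hE j)).2 (hi j),
    (I1_k1Bij (hP (j + 1)) (hE (j + 1))).2 ⟨hi (j + 1), hs j⟩⟩

/-- The second part. -/
theorem transversals_two (G : Type) [Group G] [TopologicalSpace G] [IsTopologicalGroup G]
    [LocallyCompactSpace G] [SecondCountableTopology G] [T2Space G] [MeasurableSpace G]
    [BorelSpace G] :
    ∃ (Z : Type) (_ : TopologicalSpace Z) (_ : T2Space Z) (_ : LocallyCompactSpace Z)
      (_ : SecondCountableTopology Z) (_ : MulAction G Z) (_ : ContinuousSMul G Z),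
      LC.HasLocalBoxes G (fun T : Set Z => IsTotallyDisconnected T) ∧
      ∀ (E : Type) [AddCommGroup E] [Module ℝ E] [TopologicalSpace E] [T2Space E]
        [ContinuousAdd E] [ContinuousSMul ℝ E] [DistribMulAction G E] [SMulCommClass G ℝ E]
        [ContinuousConstSMul G E] (Q : LC.ConvexSpace G E),
        ContinuousOn (fun q : G × E => q.1 • q.2) (Set.univ ×ˢ Q.carrier) → LC.Amenable Q →
        ∀ j, LC.K1Zero G (LC.Wsp Q Z j) ↔
          ∀ (X : Type) [TopologicalSpace X] [T2Space X] [LocallyCompactSpace X]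
            [SecondCountableTopology X] [MulAction G X] [ContinuousSMul G X],
            LC.HasLocalBoxes G (fun _ : Set X => True) → LC.K1Zero G (LC.Wsp Q X j) := by
  obtain ⟨V, hV, h1, hanti, hbas⟩ := exists_basis_one G
  let S : ∀ n, UnivSp G (V n) := fun n => (nonempty_univSp (hV n) (h1 n)).some
  obtain ⟨Z, tZ, t2, lc, sc, aZ, cs, i, hic, hio, hie, hbox⟩ :=
    exists_sum (Z := fun n => (S n).Z) hV h1 fun n => (S n).box
  refine ⟨Z, tZ, t2, lc, sc, aZ, cs, hbox, ?_⟩
  intro E _ _ _ _ _ _ _ _ _ Q hQ hA j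
  have hQ' := cvx_cont hQ
  have := cone_continuousSMul (cvx Q) hQ'
  have := cone_locallyCompact (cvx Q)
  constructor
  · intro hZ X _ _ _ _ _ _ hX
    have h2 : VanG G (Z × Cone (cvx Q) × Cube j) := I1_k1Zero.1 hZ
    suffices h5 : VanG G (X × Cone (cvx Q) × Cube j) by
      have h6 : LC.K1Zero G (X × Cone (cvx Q) × Cube j) := I1_k1Zero.2 h5
      exact h6
    have h3 : ∀ n, VanG G ((boxPt (V n) X).Pt × Cone (cvx Q) × Cube j) := by
      intro n
      have hl : LocallyCompactSpace (boxPt (V n) X).Pt :=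
        (isOpen_boxPt (X := X) (hV n) (h1 n)).locallyCompactSpace
      have hs : SecondCountableTopology (boxPt (V n) X).Pt :=
        TopologicalSpace.Subtype.secondCountableTopology _
      refine (S n).univ E Q hQ hA j ?_ _ (hasBoxes_boxPt (hV n) (h1 n))
      exact h2.of_clopen (i := Prod.map (i n) id) ((hic n).prodMap Topology.IsClosedEmbedding.id)
        ((hio n).prodMap Topology.IsOpenEmbedding.id) fun g x => Prod.ext (hie n g x.1) rfl
    refine VanG.of_union (O := fun n => (boxPt (V n) X).Pt × Cone (cvx Q) × Cube j)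
      (o := fun n => ⟨Prod.map (boxPt (V n) X).val id,
        (boxPt (V n) X).val_injective.prodMap injective_id⟩) (fun n => ?_) (fun n g x => rfl)
      (fun n => ?_) ?_ h3
    · exact ((isOpen_boxPt (X := X) (hV n) (h1 n)).isOpenEmbedding_subtypeVal).prodMap
        Topology.IsOpenEmbedding.id
    · rintro _ ⟨x, rfl⟩
      exact ⟨(⟨x.1.1, boxPt_mono (hanti n) x.1.2⟩, x.2), rfl⟩
    · refine Set.eq_univ_of_forall fun x => ?_
      have h4 : x.1 ∈ ⋃ n, (boxPt (V n) X).carrier := by
        rw [iUnion_boxPt hbas hX]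
        trivial
      obtain ⟨n, hn⟩ := Set.mem_iUnion.1 h4
      exact Set.mem_iUnion.2 ⟨n, (⟨x.1, hn⟩, x.2), rfl⟩
  · intro h
    exact h Z (hbox.mono fun _ _ => trivial)

end Pool.Agent.Lib.MP_aa9b81_an.Tv
end
end
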