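import Pool.Agent.Lib.MP_aa9b81_an.Mg.G055
import Pool.Agent.Lib.MP_aa9b81_an.Tv.T6
import Pool.Agent.Lib.MP_aa9b81_an.Tv.Y2

section

/-!
# Transversals, part I7: the theorem for Lie groups
-/

open scoped ENNReal Topology Manifold ContDiff
open Function Filter MeasureTheory

noncomputable section

set_option linter.unusedSectionVars false

namespace Pool.Agent.Lib.MP_aa9b81_an.Tv

/-- The stabilizers of the points of a space with local boxes are discrete. -/
theorem discrete_stab_of_hasLocalBoxes {G X : Type} [Group G] [TopologicalSpace G]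
    [IsTopologicalGroup G] [TopologicalSpace X] [MulAction G X] {P : Set X → Prop}
    (h : LC.HasLocalBoxes G P) (x : X) : ∃ N ∈ 𝓝 (1 : G), ∀ g ∈ N, g • x = x → g = 1 := by
  obtain ⟨V, hV, h1, T, hT, -, g, hg⟩ := h x
  refine ⟨{k | g * k * g⁻¹ ∈ V}, ?_, fun k hk hkx => ?_⟩
  · have hc : Continuous fun k : G => g * k * g⁻¹ := by fun_prop
    refine hc.continuousAt.preimage_mem_nhds ?_
    have h2 : g * 1 * g⁻¹ = 1 := by group
    rw [h2]
    exact hV.mem_nhds h1
  · have h2 : (g * k * g⁻¹) • (g • x) = (1 : G) • (g • x) := by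
      rw [one_smul, mul_smul, inv_smul_smul, mul_smul, hkx]
    have h3 := (hT.inj _ hk 1 h1 _ hg.1 _ hg.1 h2).1
    have h4 : g * k = g := by
      have h5 := congrArg (fun z => z * g) h3
      simpa using h5
    simpa using h4

/-- Actions of Lie groups: a space has local boxes if and only if the stabilizers are discrete, and
free actions have `V`-boxes for every relatively compact `V`. -/
theorem transversals_lie (G F : Type) [Group G] [TopologicalSpace G] [IsTopologicalGroup G]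
    [LocallyCompactSpace G] [T2Space G] [NormedAddCommGroup F] [NormedSpace ℝ F]
    [FiniteDimensional ℝ F] [ChartedSpace F G] (n : WithTop ℕ∞) (hn : 1 ≤ n)
    [LieGroup 𝓘(ℝ, F) n G] (X : Type) [TopologicalSpace X] [T2Space X] [LocallyCompactSpace X]
    [SecondCountableTopology X] [MulAction G X] [ContinuousSMul G X] :
    (LC.HasLocalBoxes G (fun _ : Set X => True) ↔
      ∀ x : X, ∃ N ∈ 𝓝 (1 : G), ∀ g ∈ N, g • x = x → g = 1) ∧
    ((∀ (x : X) (g : G), g • x = x → g = 1) → ∀ V W : Set G, V ⊆ W → IsCompact W →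
      LC.HasBoxes V (fun _ : Set X => True)) := by
  refine ⟨⟨discrete_stab_of_hasLocalBoxes, fun h x => ?_⟩,
    fun h V W hVW hW => hasBoxes_lie_of_free (F := F) hn h hVW hW⟩
  obtain ⟨V, hV, h1, T, hT, hx⟩ := exists_box_lie (F := F) hn (h x)
  exact ⟨V, hV, h1, T, hT, trivial, 1, by rwa [one_smul]⟩

/-- THE THEOREM FOR LIE GROUPS: one space decides the vanishing of `K₁` for all the spaces with
discrete stabilizers. -/
theorem transversals_lie_two (G F : Type) [Group G] [TopologicalSpace G] [IsTopologicalGroup G]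
    [LocallyCompactSpace G] [SecondCountableTopology G] [T2Space G] [MeasurableSpace G]
    [BorelSpace G] [NormedAddCommGroup F] [NormedSpace ℝ F]
    [FiniteDimensional ℝ F] [ChartedSpace F G] (n : WithTop ℕ∞) (hn : 1 ≤ n)
    [LieGroup 𝓘(ℝ, F) n G] :
    ∃ (Z : Type) (_ : TopologicalSpace Z) (_ : T2Space Z) (_ : LocallyCompactSpace Z)
      (_ : SecondCountableTopology Z) (_ : MulAction G Z) (_ : ContinuousSMul G Z),
      LC.HasLocalBoxes G (fun T : Set Z => IsTotallyDisconnected T) ∧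
      ∀ (E : Type) [AddCommGroup E] [Module ℝ E] [TopologicalSpace E] [T2Space E]
        [ContinuousAdd E] [ContinuousSMul ℝ E] [DistribMulAction G E] [SMulCommClass G ℝ E]
        [ContinuousConstSMul G E] (Q : LC.ConvexSpace G E),
        ContinuousOn (fun q : G × E => q.1 • q.2) (Set.univ ×ˢ Q.carrier) → LC.Amenable Q →
        ∀ j, LC.K1Zero G (LC.Wsp Q Z j) ↔
          ∀ (X : Type) [TopologicalSpace X] [T2Space X] [LocallyCompactSpace X]
            [SecondCountableTopology X] [MulAction G X] [ContinuousSMul G X],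
            (∀ x : X, ∃ N ∈ 𝓝 (1 : G), ∀ g ∈ N, g • x = x → g = 1) →
              LC.K1Zero G (LC.Wsp Q X j) := by
  obtain ⟨Z, tZ, t2, lc, sc, aZ, cs, hbox, hZ⟩ := transversals_two G
  refine ⟨Z, tZ, t2, lc, sc, aZ, cs, hbox, ?_⟩
  intro E _ _ _ _ _ _ _ _ _ Q hQ hA j
  rw [hZ E Q hQ hA j]
  constructor
  · intro h X _ _ _ _ _ _ hX
    exact h X ((transversals_lie G F n hn X).1.2 hX)
  · intro h X _ _ _ _ _ _ hX
    exact h X ((transversals_lie G F n hn X).1.1 hX)

end Pool.Agent.Lib.MP_aa9b81_an.Tv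
end
end

section

/-!
# Transversals, part Y3: functions on a projective limit
-/

open scoped ENNReal Topology CompactlySupported
open Function Filter MeasureTheory

noncomputable section

set_option linter.unusedSectionVars false

namespace Pool.Agent.Lib.MP_aa9b81_an.Tv

open Cut Hs Cb

section Top

variable {T A : Type} {B : ℕ → Type} [TopologicalSpace T] [T2Space T] [TopologicalSpace A]
  [T2Space A] [LocallyCompactSpace A] [∀ n, TopologicalSpace (B n)] [∀ n, T2Space (B n)]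
  [∀ n, LocallyCompactSpace (B n)] {q : ∀ n, T → B n} {p : ∀ n, B (n + 1) → B n}
  {r : ∀ n, B n → A} {q₀ : T → A}

/-- The functions on the compact part that come from all late stages. -/
def y3Alg (q : ∀ n, T → B n) (K : Set T) : StarSubalgebra ℂ C(K, ℂ) where
  carrier := {h | ∃ N : ℕ, ∀ n, N ≤ n → ∃ f : C(B n, ℂ), ∀ t : K, h t = f (q n t)}
  mul_mem' := by
    rintro a b ⟨N, hN⟩ ⟨M, hM⟩
    refine ⟨max N M, fun n hn => ?_⟩
    obtain ⟨f, hf⟩ := hN n ((le_max_left _ _).trans hn)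
    obtain ⟨g, hg⟩ := hM n ((le_max_right _ _).trans hn)
    exact ⟨f * g, fun t => by
      rw [ContinuousMap.mul_apply, ContinuousMap.mul_apply, hf, hg]⟩
  add_mem' := by
    rintro a b ⟨N, hN⟩ ⟨M, hM⟩
    refine ⟨max N M, fun n hn => ?_⟩
    obtain ⟨f, hf⟩ := hN n ((le_max_left _ _).trans hn)
    obtain ⟨g, hg⟩ := hM n ((le_max_right _ _).trans hn)
    exact ⟨f + g, fun t => by
      rw [ContinuousMap.add_apply, ContinuousMap.add_apply, hf, hg]⟩
  algebraMap_mem' := by
    intro c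
    exact ⟨0, fun n _ => ⟨algebraMap ℂ _ c, fun t => rfl⟩⟩
  star_mem' := by
    rintro a ⟨N, hN⟩
    refine ⟨N, fun n hn => ?_⟩
    obtain ⟨f, hf⟩ := hN n hn
    exact ⟨star f, fun t => by
      rw [ContinuousMap.star_apply, ContinuousMap.star_apply, hf]⟩

theorem y3_lift (hp : ∀ n, Continuous (p n)) (hpq : ∀ n t, p n (q (n + 1) t) = q n t) (m : ℕ)
    (f : C(B m, ℂ)) : ∀ n, m ≤ n → ∃ g : C(B n, ℂ), ∀ t, g (q n t) = f (q m t) := by
  intro n hn
  induction n, hn using Nat.le_induction with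
  | base => exact ⟨f, fun t => rfl⟩
  | succ n hn ih =>
    obtain ⟨g, hg⟩ := ih
    refine ⟨g.comp ⟨p n, hp n⟩, fun t => ?_⟩
    change g (p n (q (n + 1) t)) = f (q m t)
    rw [hpq, hg]

theorem y3_separates (hq : ∀ n, Continuous (q n)) (hp : ∀ n, Continuous (p n))
    (hpq : ∀ n t, p n (q (n + 1) t) = q n t)
    (hsep : ∀ t t' : T, (∀ n, q n t = q n t') → t = t') (K : Set T) :
    (y3Alg q K).SeparatesPoints := by
  intro t t' htt
  have h1 : ∃ m, q m (t : T) ≠ q m (t' : T) := by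
    by_contra hcon
    push Not at hcon
    exact htt (Subtype.ext (hsep _ _ hcon))
  obtain ⟨m, hm⟩ := h1
  obtain ⟨f, hf1, hf0, -, -⟩ := exists_continuous_one_zero_of_isCompact
    (isCompact_singleton (x := q m (t : T))) (isClosed_singleton (x := q m (t' : T)))
    (Set.disjoint_singleton.2 hm)
  let F : C(B m, ℂ) := ⟨fun b => ((f b : ℝ) : ℂ), Complex.continuous_ofReal.comp f.continuous⟩
  let h : C(K, ℂ) := ⟨fun s => F (q m (s : T)),
    F.continuous.comp ((hq m).comp continuous_subtype_val)⟩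
  refine ⟨h, ⟨h, ⟨m, fun n hn => ?_⟩, rfl⟩, ?_⟩
  · obtain ⟨g, hg⟩ := y3_lift hp hpq m F n hn
    exact ⟨g, fun s => (hg s).symm⟩
  · change ((f (q m (t : T)) : ℝ) : ℂ) ≠ ((f (q m (t' : T)) : ℝ) : ℂ)
    rw [hf1 (Set.mem_singleton _), hf0 (Set.mem_singleton _)]
    simp

/-- Continuous functions of compact support on the limit are approximated by functions on the `B n`, with
supports in the preimages of a fixed compact set. PROOF: Stone-Weierstrass
(`ContinuousMap.starSubalgebra_topologicalClosure_eq_top_of_separatesPoints`) on the compact space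
`K = q₀ ⁻¹' L`, where `L` is a compact neighbourhood of `q₀ '' tsupport φ`, for the
star subalgebra of the `h ∈ C(K, ℂ)` such that for all large `n` there is `f ∈ C(B n, ℂ)` with `h = f ∘ q n` on `K` (closed
under sums and products because of the words for all large `n`; a function of level `m` is of every level `n ≥ m` by
composition with the `p`; separates points by `hsep` and complete regularity of `B n`). Then multiply `f` by `χ ∘ r n`,
`χ : A → [0,1]` continuous with compact support in `L` and `χ = 1` on `q₀ '' tsupport φ`. -/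
theorem exists_Cc_limit (hq : ∀ n, Continuous (q n)) (hp : ∀ n, Continuous (p n))
    (hpq : ∀ n t, p n (q (n + 1) t) = q n t)
    (hsep : ∀ t t' : T, (∀ n, q n t = q n t') → t = t') (hr : ∀ n, IsProperMap (r n))
    (hrq : ∀ n t, r n (q n t) = q₀ t) (hq₀ : IsProperMap q₀) (φ : C_c(T, ℂ)) :
    ∃ L : Set A, IsCompact L ∧ ∀ ε : ℝ, 0 < ε → ∃ N, ∀ n, N ≤ n → ∃ ψ : C_c(B n, ℂ),
      (∀ t, ‖φ t - ψ (q n t)‖ ≤ ε) ∧ (∀ b, r n b ∉ L → ψ b = 0) ∧ ∀ t, q₀ t ∉ L → φ t = 0 := by
  have hK0 : IsCompact (q₀ '' tsupport φ) := φ.hasCompactSupport.isCompact.image hq₀.continuous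
  obtain ⟨L, hL, hKL⟩ := exists_compact_superset hK0
  obtain ⟨χ, hχ1, hχ0, hχc, hχI⟩ := exists_continuous_one_zero_of_isCompact hK0
    (isOpen_interior (s := L)).isClosed_compl (by
      rw [Set.disjoint_compl_right_iff_subset]
      exact hKL)
  have hφ0 : ∀ t, q₀ t ∉ L → φ t = 0 := by
    intro t ht
    by_contra hne
    exact ht (interior_subset (hKL ⟨t, subset_tsupport _ hne, rfl⟩))
  have hχL : ∀ a, a ∉ L → χ a = 0 := by
    intro a ha
    exact hχ0 (fun h => ha (interior_subset h))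
  have hχφ : ∀ t, ((χ (q₀ t) : ℝ) : ℂ) * φ t = φ t := by
    intro t
    by_cases h : φ t = 0
    · rw [h, mul_zero]
    · rw [hχ1 ⟨t, subset_tsupport _ h, rfl⟩]
      simp
  refine ⟨L, hL, fun ε hε => ?_⟩
  have hKc : IsCompact (q₀ ⁻¹' L) := hq₀.isCompact_preimage hL
  have : CompactSpace (q₀ ⁻¹' L) := isCompact_iff_compactSpace.1 hKc
  have htop := ContinuousMap.starSubalgebra_topologicalClosure_eq_top_of_separatesPoints
    (y3Alg q (q₀ ⁻¹' L)) (y3_separates hq hp hpq hsep _)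
  let φK : C(q₀ ⁻¹' L, ℂ) := ⟨fun s => φ (s : T), φ.continuous.comp continuous_subtype_val⟩
  have hmem : φK ∈ (y3Alg q (q₀ ⁻¹' L)).topologicalClosure := by
    rw [htop]
    trivial
  have hmem' : φK ∈ closure ((y3Alg q (q₀ ⁻¹' L) : StarSubalgebra ℂ C(q₀ ⁻¹' L, ℂ)) :
      Set C(q₀ ⁻¹' L, ℂ)) := hmem
  obtain ⟨h, ⟨N, hN⟩, hd⟩ := Metric.mem_closure_iff.1 hmem' ε hε
  refine ⟨N, fun n hn => ?_⟩
  obtain ⟨f, hf⟩ := hN n hn
  have hcont : Continuous fun b => ((χ (r n b) : ℝ) : ℂ) * f b :=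
    (Complex.continuous_ofReal.comp (χ.continuous.comp (hr n).continuous)).mul f.continuous
  have hcs : HasCompactSupport fun b => ((χ (r n b) : ℝ) : ℂ) * f b := by
    refine HasCompactSupport.of_support_subset_isCompact
      ((hr n).isCompact_preimage hL) fun b hb => ?_
    by_contra hbL
    apply hb
    change ((χ (r n b) : ℝ) : ℂ) * f b = 0
    rw [hχL _ hbL, Complex.ofReal_zero, zero_mul]
  refine ⟨⟨⟨fun b => ((χ (r n b) : ℝ) : ℂ) * f b, hcont⟩, hcs⟩, fun t => ?_, fun b hb => ?_, hφ0⟩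
  · change ‖φ t - ((χ (r n (q n t)) : ℝ) : ℂ) * f (q n t)‖ ≤ ε
    rw [hrq]
    by_cases ht : q₀ t ∈ L
    · have h1 : ‖φ t - f (q n t)‖ ≤ ε := by
        have h2 := ContinuousMap.dist_apply_le_dist (f := φK) (g := h) (⟨t, ht⟩ : q₀ ⁻¹' L)
        rw [dist_eq_norm, hf ⟨t, ht⟩] at h2
        exact h2.trans hd.le
      have h3 : φ t - ((χ (q₀ t) : ℝ) : ℂ) * f (q n t) =
          ((χ (q₀ t) : ℝ) : ℂ) * (φ t - f (q n t)) := by
        rw [mul_sub, hχφ]
      rw [h3, norm_mul, Complex.norm_real, Real.norm_eq_abs, abs_of_nonneg (hχI _).1]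
      calc χ (q₀ t) * ‖φ t - f (q n t)‖ ≤ 1 * ‖φ t - f (q n t)‖ :=
            mul_le_mul_of_nonneg_right (hχI _).2 (norm_nonneg _)
        _ ≤ ε := by rw [one_mul]; exact h1
    · rw [hφ0 t ht, hχL _ ht, Complex.ofReal_zero, zero_mul, sub_zero, norm_zero]
      exact hε.le
  · change ((χ (r n b) : ℝ) : ℂ) * f b = 0
    rw [hχL _ hb, Complex.ofReal_zero, zero_mul]

end Top

section DensT

variable {G T A : Type} {B : ℕ → Type} [Group G] [TopologicalSpace G] [IsTopologicalGroup G]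
  [LocallyCompactSpace G] [SecondCountableTopology G] [T2Space G] [MeasurableSpace G] [BorelSpace G]
  [TopologicalSpace T] [T2Space T] [MulAction G T] [ContinuousSMul G T]
  [TopologicalSpace A] [T2Space A] [LocallyCompactSpace A]
  [∀ n, TopologicalSpace (B n)] [∀ n, T2Space (B n)] [∀ n, LocallyCompactSpace (B n)]
  [∀ n, MulAction G (B n)] [∀ n, ContinuousSMul G (B n)]
  {q : ∀ n, T → B n} {p : ∀ n, B (n + 1) → B n} {r : ∀ n, B n → A} {q₀ : T → A}

/-- PROOF: `cpG_induction` (as `J3_approx`); a generator `φ ∈ C_c(T × G)`: `exists_Cc_limit` for `T × G`, `B n × G`,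
`A × G` and the maps `Prod.map _ id`, `pullG_gen` and `norm_gen_le` (`gen_sub`) with the compact set
`Prod.snd '' L`. -/
theorem dens_of_limit (hq : ∀ n, IsProperMap (q n)) (hqe : ∀ n (g : G) t, q n (g • t) = g • q n t)
    (hp : ∀ n, Continuous (p n)) (hpq : ∀ n t, p n (q (n + 1) t) = q n t)
    (hsep : ∀ t t' : T, (∀ n, q n t = q n t') → t = t') (hr : ∀ n, IsProperMap (r n))
    (hrq : ∀ n t, r n (q n t) = q₀ t) (hq₀ : IsProperMap q₀) : Dens G q := by
  refine cpG_induction (p := fun a => ∀ ε : ℝ, 0 < ε → ∃ N, ∀ n, N ≤ n →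
      ∃ b ∈ cpG G ℕ (B n), ‖a - pullG (q n) b‖ ≤ ε) ?_ ?_ ?_ ?_
  · refine isClosed_of_closure_subset fun a ha ε hε => ?_
    obtain ⟨b, hb, hab⟩ := Metric.mem_closure_iff.1 ha (ε / 2) (half_pos hε)
    obtain ⟨N, hN⟩ := hb (ε / 2) (half_pos hε)
    refine ⟨N, fun n hn => ?_⟩
    obtain ⟨a₀, ha₀, h1⟩ := hN n hn
    refine ⟨a₀, ha₀, ?_⟩
    have e : a - pullG (q n) a₀ = (a - b) + (b - pullG (q n) a₀) := by abel
    rw [e]
    rw [dist_eq_norm] at hab
    refine (norm_add_le _ _).trans ?_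
    linarith
  · intro ε hε
    refine ⟨0, fun n _ => ⟨0, zero_mem _, ?_⟩⟩
    rw [map_zero, sub_zero, norm_zero]
    exact hε.le
  · intro a b ha hb ε hε
    obtain ⟨N, hN⟩ := ha (ε / 2) (half_pos hε)
    obtain ⟨N', hN'⟩ := hb (ε / 2) (half_pos hε)
    refine ⟨max N N', fun n hn => ?_⟩
    obtain ⟨a₀, ha₀, h1⟩ := hN n ((le_max_left _ _).trans hn)
    obtain ⟨b₀, hb₀, h2⟩ := hN' n ((le_max_right _ _).trans hn)
    refine ⟨a₀ + b₀, add_mem ha₀ hb₀, ?_⟩
    have e : a + b - pullG (q n) (a₀ + b₀) = (a - pullG (q n) a₀) + (b - pullG (q n) b₀) := by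
      rw [map_add]
      abel
    rw [e]
    refine (norm_add_le _ _).trans ?_
    linarith
  · intro φ i j ε hε
    obtain ⟨L, hL, happ⟩ := exists_Cc_limit (T := T × G) (A := A × G) (B := fun n => B n × G)
      (q := fun n => Prod.map (q n) id) (p := fun n => Prod.map (p n) id)
      (r := fun n => Prod.map (r n) id) (q₀ := Prod.map q₀ id)
      (fun n => (hq n).continuous.prodMap continuous_id)
      (fun n => (hp n).prodMap continuous_id)
      (fun n x => Prod.ext (hpq n x.1) rfl)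
      (fun x y h => Prod.ext (hsep _ _ fun n => congrArg Prod.fst (h n))
        (show (Prod.map (q 0) id x).2 = (Prod.map (q 0) id y).2 from congrArg Prod.snd (h 0)))
      (fun n => (hr n).prodMap isProperMap_id)
      (fun n x => Prod.ext (hrq n x.1) rfl) (hq₀.prodMap isProperMap_id) φ
    have hC : IsCompact (Prod.snd '' L) := hL.image continuous_snd
    have hcs : 0 ≤ cs (Prod.snd '' L) := Real.sqrt_nonneg _
    have hδ : 0 < ε / (cs (Prod.snd '' L) + 1) := by positivity
    obtain ⟨N, hN⟩ := happ _ hδ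
    refine ⟨N, fun n hn => ?_⟩
    obtain ⟨ψ, h1, h2, h3⟩ := hN n hn
    obtain ⟨ψ', hψ'⟩ := exists_pullCc (G := G) (hq n) ψ
    refine ⟨Cb.gen ψ i j, gen_mem ψ i j, ?_⟩
    rw [pullG_gen (hqe n) hψ', ← Cb.gen_sub]
    have h4 : ∀ x : T × G, ‖(φ - ψ') x‖ ≤ ε / (cs (Prod.snd '' L) + 1) := by
      rintro ⟨t, g⟩
      change ‖φ (t, g) - ψ' (t, g)‖ ≤ _
      rw [hψ']
      exact h1 (t, g)
    have h5 : ∀ (t : T) (g : G), g ∉ Prod.snd '' L → (φ - ψ') (t, g) = 0 := by
      intro t g hg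
      have h6 : ∀ a : A, (a, g) ∉ L := fun a ha => hg ⟨(a, g), ha, rfl⟩
      change φ (t, g) - ψ' (t, g) = 0
      rw [hψ', h3 (t, g) (h6 _), h2 (q n t, g) (h6 _), sub_zero]
    refine (Cb.norm_gen_le (φ - ψ') hC hδ.le h4 h5 i j).trans ?_
    rw [div_mul_eq_mul_div, div_le_iff₀ (by positivity)]
    nlinarith

end DensT

end Pool.Agent.Lib.MP_aa9b81_an.Tv
end
end
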