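import Pool.Agent.Lib.MP_aa9b81_an.Tv.Y1
import Pool.Agent.Lib.MP_aa9b81_an.Tv.Y5
import Pool.Agent.Lib.MP_aa9b81_an.Mg.G055
import Pool.Agent.Lib.MP_aa9b81_an.Tv.Lcd3
import Pool.Agent.Lib.MP_aa9b81_an.Mg.G057
import Pool.Agent.Lib.MP_aa9b81_an.Tv.Y4
import Pool.Agent.Lib.MP_aa9b81_an.Tv.Y7

section

/-!
# Transversals, part Y6: one step
-/

open scoped ENNReal Topology CompactlySupported
open Function Filter MeasureTheory

noncomputable section

set_option linter.unusedSectionVars false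

namespace Pool.Agent.Lib.MP_aa9b81_an.Tv

open Cut Hs Cb

/-- The map `p : Z → X` induces bijections (injections for `j = 0`) of the groups
`K₁(C₀(X × W × (0,1)^j) ⋊_r G)`, for all amenable convex spaces. -/
def Gd (G : Type) {X Z : Type} [Group G] [TopologicalSpace G] [IsTopologicalGroup G]
    [LocallyCompactSpace G] [SecondCountableTopology G] [T2Space G] [MeasurableSpace G]
    [BorelSpace G] [TopologicalSpace X] [T2Space X] [MulAction G X] [ContinuousSMul G X]
    [TopologicalSpace Z] [T2Space Z] [MulAction G Z] [ContinuousSMul G Z] (p : Z → X) : Prop :=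
  ∀ (E : Type) [AddCommGroup E] [Module ℝ E] [TopologicalSpace E] [T2Space E] [ContinuousAdd E]
    [ContinuousSMul ℝ E] [DistribMulAction G E] [SMulCommClass G ℝ E] [ContinuousConstSMul G E]
    (Q : LC.ConvexSpace G E)
    (hQ : ContinuousOn (fun p : G × E => p.1 • p.2) (Set.univ ×ˢ Q.carrier)),
    LC.Amenable Q → ∀ j : ℕ,
    have := cone_continuousSMul (cvx Q) (cvx_cont hQ)
    InjG G (fun x : Z × Cone (cvx Q) × Cube j => ((p x.1, x.2) : X × Cone (cvx Q) × Cube j)) ∧
    SurG G (fun x : Z × Cone (cvx Q) × Cube (j + 1) =>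
      ((p x.1, x.2) : X × Cone (cvx Q) × Cube (j + 1)))

section Comp

variable {G X Y Z : Type} [Group G] [TopologicalSpace G] [IsTopologicalGroup G]
    [LocallyCompactSpace G] [SecondCountableTopology G] [T2Space G] [MeasurableSpace G]
    [BorelSpace G] [TopologicalSpace X] [T2Space X] [MulAction G X] [ContinuousSMul G X]
    [TopologicalSpace Y] [T2Space Y] [MulAction G Y] [ContinuousSMul G Y]
    [TopologicalSpace Z] [T2Space Z] [MulAction G Z] [ContinuousSMul G Z]

theorem Gd.id : Gd G (_root_.id : X → X) := by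
  intro E _ _ _ _ _ _ _ _ _ Q hQ hA j
  have := cone_continuousSMul (cvx Q) (cvx_cont hQ)
  have h1 : InjG G (_root_.id : X × Cone (cvx Q) × Cube j → X × Cone (cvx Q) × Cube j) := InjG.id
  have h2 : SurG G (_root_.id : X × Cone (cvx Q) × Cube (j + 1) →
      X × Cone (cvx Q) × Cube (j + 1)) := SurG.id
  exact And.intro h1 h2

theorem injG_comp_prod {W : Type} [TopologicalSpace W] [T2Space W] [MulAction G W]
    [ContinuousSMul G W] {p : Y → X} {q : Z → Y} (hpp : IsProperMap p)
    (hpe : ∀ (g : G) y, p (g • y) = g • p y)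
    (h1 : InjG G (fun x : Y × W => ((p x.1, x.2) : X × W)))
    (h2 : InjG G (fun x : Z × W => ((q x.1, x.2) : Y × W))) :
    InjG G (fun x : Z × W => ((p (q x.1), x.2) : X × W)) := by
  have hP : IsProperMap (fun x : Y × W => ((p x.1, x.2) : X × W)) := hpp.prodMap isProperMap_id
  have hE : ∀ (g : G) (x : Y × W), ((p (g • x).1, (g • x).2) : X × W) =
        g • ((p x.1, x.2) : X × W) := fun g x => Prod.ext (hpe g x.1) rfl
  exact InjG.comp (q := fun x : Z × W => ((q x.1, x.2) : Y × W))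
    (p := fun x : Y × W => ((p x.1, x.2) : X × W)) h2 h1 hP hE

theorem surG_comp_prod {W : Type} [TopologicalSpace W] [T2Space W] [MulAction G W]
    [ContinuousSMul G W] {p : Y → X} {q : Z → Y} (hqp : IsProperMap q)
    (hqe : ∀ (g : G) z, q (g • z) = g • q z)
    (h1 : SurG G (fun x : Y × W => ((p x.1, x.2) : X × W)))
    (h2 : SurG G (fun x : Z × W => ((q x.1, x.2) : Y × W))) :
    SurG G (fun x : Z × W => ((p (q x.1), x.2) : X × W)) := by
  have hP : IsProperMap (fun x : Z × W => ((q x.1, x.2) : Y × W)) := hqp.prodMap isProperMap_id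
  have hE : ∀ (g : G) (x : Z × W), ((q (g • x).1, (g • x).2) : Y × W) =
        g • ((q x.1, x.2) : Y × W) := fun g x => Prod.ext (hqe g x.1) rfl
  exact SurG.comp (q := fun x : Z × W => ((q x.1, x.2) : Y × W))
    (p := fun x : Y × W => ((p x.1, x.2) : X × W)) h2 h1 hP hE

/-- Good maps can be composed. -/
theorem Gd.comp {p : Y → X} {q : Z → Y} (hp : Gd G p) (hq : Gd G q) (hpp : IsProperMap p)
    (hpe : ∀ (g : G) y, p (g • y) = g • p y) (hqp : IsProperMap q)
    (hqe : ∀ (g : G) z, q (g • z) = g • q z) : Gd G (fun z => p (q z)) := by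
  intro E _ _ _ _ _ _ _ _ _ Q hQ hA j
  have := cone_continuousSMul (cvx Q) (cvx_cont hQ)
  have h1 := hp E Q hQ hA j
  have h2 := hq E Q hQ hA j
  exact And.intro (injG_comp_prod hpp hpe h1.1 h2.1) (surG_comp_prod hqp hqe h1.2 h2.2)

end Comp

variable {G X : Type} [Group G] [TopologicalSpace G] [IsTopologicalGroup G]
    [LocallyCompactSpace G] [SecondCountableTopology G] [T2Space G] [MeasurableSpace G]
    [BorelSpace G] [TopologicalSpace X] [T2Space X] [LocallyCompactSpace X]
    [SecondCountableTopology X] [MulAction G X] [ContinuousSMul G X]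

/-- The first part, with the good map. -/
theorem transversals_one_gd {V : Set G} (hV : IsOpen V) (h1 : (1 : G) ∈ V)
    (hX : LC.HasBoxes V (fun _ : Set X => True)) :
    ∃ (Z : Type) (_ : TopologicalSpace Z) (_ : T2Space Z) (_ : LocallyCompactSpace Z)
      (_ : SecondCountableTopology Z) (_ : MulAction G Z) (_ : ContinuousSMul G Z)
      (p : Z → X), IsProperMap p ∧ Function.Surjective p ∧
      (∀ (g : G) (z : Z), p (g • z) = g • p z) ∧
      LC.HasBoxes V (fun T : Set Z => IsTotallyDisconnected T) ∧ Gd G p := by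
  obtain ⟨V', hV', h1', Δ, c, hc, Z, tZ, aZ, p, e, t2, lc, sc, cs, hp, hps, hpe, he, hb, hbox⟩ :=
    exists_marks hV h1 hX
  refine ⟨Z, tZ, t2, lc, sc, aZ, cs, p, hp, hps, hpe, hbox, ?_⟩
  intro E _ _ _ _ _ _ _ _ _ Q hQ hA j
  have hA' : PropAG (G × M2) := (propAG_of_amenable hQ hA).prod propAG_M2
  have hQ' := cvx_cont hQ
  have := cone_continuousSMul (cvx Q) hQ'
  exact ⟨slice_inj hA' hV' h1' hc hp hpe he hb hQ' j, slice_sur hA' hV' h1' hc hp hpe he hb hQ' j⟩

/-- The extension of a good map is good. PROOF: `five_inj`, `five_sur` for the products with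
`Cone (cvx Q) × Cube j` (`ClOp.prodMap`; the structures `ClOp G O.cpl.val ..` and `ClOp G c i` are given by the data),
then `surG_cube` for the step from `Cube j × OO` to `Cube (j + 1)`, with a re-association as `asO` in `E3`; `PropAG G` by
`propAG_of_amenable`. -/
theorem gd_extension {Z₁ X' : Type} [TopologicalSpace Z₁] [T2Space Z₁] [MulAction G Z₁]
    [ContinuousSMul G Z₁] [TopologicalSpace X'] [T2Space X'] [LocallyCompactSpace X']
    [MulAction G X'] [ContinuousSMul G X'] {O : InvSet G X} (hO : IsOpen O.carrier)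
    {p₁ : Z₁ → O.Pt} {q : X' → X} {i : Z₁ → X'} {c : O.cpl.Pt → X'} (hp : IsProperMap p₁)
    (hpe : ∀ (g : G) z, p₁ (g • z) = g • p₁ z) (hg : Gd G p₁) (hq : IsProperMap q)
    (hqe : ∀ (g : G) x, q (g • x) = g • q x) (hi : Topology.IsOpenEmbedding i)
    (hie : ∀ (g : G) z, i (g • z) = g • i z) (hc : Topology.IsClosedEmbedding c)
    (hce : ∀ (g : G) x, c (g • x) = g • c x) (hr : Set.range i = (Set.range c)ᶜ)
    (hqi : ∀ z, q (i z) = O.val (p₁ z)) (hqc : ∀ x, q (c x) = O.cpl.val x) : Gd G q := by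
  intro E _ _ _ _ _ _ _ _ _ Q hQ hA j
  have hcc := cone_continuousSMul (cvx Q) (cvx_cont hQ)
  have hcl := cone_locallyCompact (cvx Q)
  have hPA : PropAG G := propAG_of_amenable hQ hA
  have h1 : ClOp G O.cpl.val (⟨O.val, O.val_injective⟩ : O.Pt ↪ X) :=
    { hc := IsClosed.isClosedEmbedding_subtypeVal hO.isClosed_compl
      ec := fun _ _ => rfl
      ho := IsOpen.isOpenEmbedding_subtypeVal hO
      eo := fun _ _ => rfl
      compl := by
        ext x
        constructor
        · rintro ⟨y, rfl⟩ ⟨z, hz⟩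
          have h2 : z.1 = y.1 := hz
          exact z.2 (h2 ▸ y.2)
        · intro hx
          by_contra hn
          exact hx ⟨⟨x, fun h2 => hn ⟨⟨x, h2⟩, rfl⟩⟩, rfl⟩ }
  have h2 : ClOp G c (⟨i, hi.injective⟩ : Z₁ ↪ X') :=
    { hc := hc, ec := hce, ho := hi, eo := hie, compl := hr }
  have hf : IsProperMap (Prod.map q (id : Cone (cvx Q) × Cube j → Cone (cvx Q) × Cube j)) :=
    hq.prodMap isProperMap_id
  have hfe : ∀ (g : G) x, Prod.map q (id : Cone (cvx Q) × Cube j → Cone (cvx Q) × Cube j) (g • x) =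
      g • Prod.map q (id : Cone (cvx Q) × Cube j → Cone (cvx Q) × Cube j) x := fun g x =>
    Prod.ext (hqe g x.1) rfl
  obtain ⟨hgi, hgs⟩ := hg E Q hQ hA j
  constructor
  · exact five_inj (f := Prod.map q (id : Cone (cvx Q) × Cube j → Cone (cvx Q) × Cube j))
      (f₀ := Prod.map p₁ (id : Cone (cvx Q) × Cube j → Cone (cvx Q) × Cube j)) hPA
      (h1.prodMap (Cone (cvx Q) × Cube j)) (h2.prodMap (Cone (cvx Q) × Cube j)) hf hfe
      (fun x => Prod.ext (hqc x.1) rfl) (fun x => Prod.ext (hqi x.1) rfl) hgi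
  · have h3 : SurG G (Prod.map (Prod.map p₁
        (id : Cone (cvx Q) × Cube j → Cone (cvx Q) × Cube j)) (id : OO → OO)) :=
      E0_surH (asO _ _ _).symm (fun _ _ => rfl) (asO _ _ _).symm (fun _ _ => rfl)
        (fun _ => rfl) (surG_cube.2 hgs)
    have h4 := five_sur (f := Prod.map q (id : Cone (cvx Q) × Cube j → Cone (cvx Q) × Cube j))
      (f₀ := Prod.map p₁ (id : Cone (cvx Q) × Cube j → Cone (cvx Q) × Cube j)) hPA
      (h1.prodMap (Cone (cvx Q) × Cube j)) (h2.prodMap (Cone (cvx Q) × Cube j)) hf hfe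
      (fun x => Prod.ext (hqc x.1) rfl) (fun x => Prod.ext (hqi x.1) rfl) hgi h3
    exact surG_cube.1 (E0_surH (asO _ _ _) (fun _ _ => rfl) (asO _ _ _) (fun _ _ => rfl)
      (fun _ => rfl) h4)

/-- The image of a box under an equivariant open embedding is a box. -/
theorem image_isBox {Z₁ X' : Type} [TopologicalSpace Z₁] [MulAction G Z₁] [TopologicalSpace X']
    [MulAction G X'] {i : Z₁ → X'} (hi : Topology.IsOpenEmbedding i)
    (hie : ∀ (g : G) z, i (g • z) = g • i z) {V : Set G} {T : Set Z₁} (hT : LC.IsBox V T) :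
    LC.IsBox V (i '' T) := by
  refine ⟨hT.isCompact.image hi.continuous, ?_⟩
  rintro v hv v' hv' _ ⟨t, ht, rfl⟩ _ ⟨t', ht', rfl⟩ h
  rw [← hie, ← hie] at h
  have h1 := hi.injective h
  obtain ⟨h2, h3⟩ := hT.inj v hv v' hv' t ht t' ht' h1
  exact ⟨h2, by rw [h3]⟩

/-- The core of the image of a set under an equivariant open embedding. -/
theorem image_mem_core {Z₁ X' : Type} [TopologicalSpace Z₁] [MulAction G Z₁]
    [TopologicalSpace X'] [MulAction G X'] {i : Z₁ → X'} (hi : Topology.IsOpenEmbedding i)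
    (hie : ∀ (g : G) z, i (g • z) = g • i z) {T : Set Z₁} {t : Z₁} (ht : t ∈ LC.core G T) :
    i t ∈ LC.core G (i '' T) := by
  refine ⟨⟨t, ht.1, rfl⟩, fun U hU => ?_⟩
  refine mem_of_superset (hi.isOpenMap.image_mem_nhds (ht.2 U hU)) ?_
  rintro _ ⟨x, ⟨u, hu, s, hs, rfl⟩, rfl⟩
  exact ⟨u, hu, i s, ⟨s, hs, rfl⟩, (hie u s).symm⟩

/-- ONE STEP: over an open invariant set with `V`-boxes the space is replaced by one with totally
disconnected `V`-boxes; over the other points the space is unchanged. -/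
theorem exists_step {V : Set G} (hV : IsOpen V) (h1 : (1 : G) ∈ V) {O : InvSet G X}
    (hO : IsOpen O.carrier) (hOb : LC.HasBoxes V fun _ : Set O.Pt => True) :
    ∃ (X' : Type) (_ : TopologicalSpace X') (_ : T2Space X') (_ : LocallyCompactSpace X')
      (_ : SecondCountableTopology X') (_ : MulAction G X') (_ : ContinuousSMul G X')
      (q : X' → X), IsProperMap q ∧ Function.Surjective q ∧
      (∀ (g : G) x, q (g • x) = g • q x) ∧ Gd G q ∧
      (∀ x : X', q x ∈ O.carrier → ∃ T : Set X', LC.IsBox V T ∧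
        IsTotallyDisconnected T ∧ ∃ g : G, g • x ∈ LC.core G T) ∧
      ∀ x x' : X', q x = q x' → x = x' ∨ q x ∈ O.carrier := by
  have hl : LocallyCompactSpace O.Pt := hO.locallyCompactSpace
  have hs : SecondCountableTopology O.Pt :=
    TopologicalSpace.Subtype.secondCountableTopology _
  obtain ⟨Z, tZ, t2, lc, sc, aZ, cs, p, hp, hps, hpe, hbox, hg⟩ :=
    transversals_one_gd (X := O.Pt) hV h1 hOb
  obtain ⟨X', tX', t2', lc', sc', aX', cs', q, i, c, hq, hqs, hqe, hi, hie, hc, hce, hr, hqi,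
    hqc⟩ := exists_extension (O := O) hO hp hps hpe
  refine ⟨X', tX', t2', lc', sc', aX', cs', q, hq, hqs, hqe,
    gd_extension hO hp hpe hg hq hqe hi hie hc hce hr hqi hqc, ?_, ?_⟩
  · intro x hx
    have hxi : x ∈ Set.range i := by
      rw [hr]
      rintro ⟨y, rfl⟩
      rw [hqc] at hx
      exact y.2 hx
    obtain ⟨z, rfl⟩ := hxi
    obtain ⟨T, hT, htd, g, hgz⟩ := hbox z
    refine ⟨i '' T, image_isBox hi hie hT, hi.isEmbedding.isTotallyDisconnected_image.2 htd, g,
      ?_⟩
    rw [← hie]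
    exact image_mem_core hi hie hgz
  · intro x x' h
    by_cases hx : q x ∈ O.carrier
    · exact Or.inr hx
    · have hm : ∀ y : X', q y ∉ O.carrier → y ∈ Set.range c := by
        intro y hy
        by_contra hn
        have h2 : y ∈ Set.range i := by
          rw [hr]
          exact hn
        obtain ⟨z, rfl⟩ := h2
        rw [hqi] at hy
        exact hy (p z).2
      obtain ⟨y, rfl⟩ := hm x hx
      obtain ⟨y', rfl⟩ := hm x' (h ▸ hx)
      rw [hqc, hqc] at h
      exact Or.inl (congrArg c (O.cpl.val_injective h))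

end Pool.Agent.Lib.MP_aa9b81_an.Tv
end
end

section

/-!
# Transversals, part Y8: all spaces
-/

open scoped ENNReal Topology CompactlySupported
open Function Filter MeasureTheory

noncomputable section

set_option linter.unusedSectionVars false

namespace Pool.Agent.Lib.MP_aa9b81_an.Tv

open Cut Hs Cb

section Pt

variable {G X X' : Type} [Group G] [TopologicalSpace G] [TopologicalSpace X] [MulAction G X]
  [TopologicalSpace X'] [MulAction G X'] {q : X' → X}

theorem exists_mem_boxPt {V : ℕ → Set G} (hbas : ∀ U ∈ 𝓝 (1 : G), ∃ n, V n ⊆ U)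
    {P : Set X → Prop} {x : X} (hx : LC.BoxAt G P x) : ∃ n, x ∈ (boxPt (V n) X).carrier := by
  obtain ⟨V₀, hV₀, h1, T, hT, -, hg⟩ := hx
  obtain ⟨n, hn⟩ := hbas V₀ (hV₀.mem_nhds h1)
  exact ⟨n, T, ⟨hT.isCompact, fun v hv v' hv' => hT.inj v (hn hv) v' (hn hv')⟩, hg⟩

theorem boxAt_of_mem_boxPt {V : Set G} (hV : IsOpen V) (h1 : (1 : G) ∈ V) {x : X}
    (hx : x ∈ (boxPt V X).carrier) : LC.BoxAt G (fun _ : Set X => True) x := by
  obtain ⟨T, hT, hg⟩ := hx
  exact ⟨V, hV, h1, T, hT, trivial, hg⟩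

/-- Local boxes can be pulled back. -/
theorem boxAt_preimage (hq : IsProperMap q) (hqe : ∀ (g : G) x, q (g • x) = g • q x) {x : X'}
    (hx : LC.BoxAt G (fun _ : Set X => True) (q x)) :
    LC.BoxAt G (fun _ : Set X' => True) x := by
  obtain ⟨V, hV, h1, T, hT, -, g, hg⟩ := hx
  refine ⟨V, hV, h1, q ⁻¹' T, isBox_preimage hq hqe hT, trivial, g,
    mem_core_preimage hq.continuous hqe ?_⟩
  rwa [hqe]

/-- The stabilizer of a point with a local box is discrete. -/
theorem discStab_of_boxAt {G X : Type} [Group G] [TopologicalSpace G]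
    [IsTopologicalGroup G] [TopologicalSpace X] [MulAction G X] {P : Set X → Prop}
    {x : X} (h : LC.BoxAt G P x) : LC.DiscStab G x := by
  obtain ⟨V, hV, h1, T, hT, -, g, hg⟩ := h
  refine ⟨{k | g * k * g⁻¹ ∈ V}, ?_, fun k hk hkx => ?_⟩
  · have hc : Continuous fun k : G => g * k * g⁻¹ := by fun_prop
    refine hc.continuousAt.preimage_mem_nhds ?_
    have h2 : g * 1 * g⁻¹ = 1 := by group
    rw [h2]
    exact hV.mem_nhds h1
  · have h2 : (g * k * g⁻¹) • (g • x) = (1 : G) • (g • x) := by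
      rw [one_smul, mul_smul, inv_smul_smul, mul_smul, hkx]
    have h3 := (hT.inj _ hk 1 h1 _ hg.1 _ hg.1 h2).1
    have h4 : g * k = g := by
      have h5 := congrArg (fun z => z * g) h3
      simpa using h5
    simpa using h4

end Pt

section Seq

variable {G : Type} [Group G] [TopologicalSpace G] [IsTopologicalGroup G]
  [LocallyCompactSpace G] [SecondCountableTopology G] [T2Space G] [MeasurableSpace G]
  [BorelSpace G] {S : ℕ → Type} [∀ n, TopologicalSpace (S n)] [∀ n, T2Space (S n)]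
  [∀ n, LocallyCompactSpace (S n)] [∀ n, SecondCountableTopology (S n)]
  [∀ n, MulAction G (S n)] [∀ n, ContinuousSMul G (S n)] {p : ∀ n, S (n + 1) → S n}

theorem gd_toZ [EqSeq G p] (hp : ∀ n, IsProperMap (p n)) (hg : ∀ n, Gd G (p n)) :
    ∀ n, Gd G (toZ p n)
  | 0 => Gd.id
  | n + 1 => by
    have h : Gd G (fun x : S (n + 1) => toZ p n (p n x)) :=
      Gd.comp (gd_toZ hp hg n) (hg n) (isProperMap_toZ hp n) (toZ_smul n) (hp n) (EqSeq.eq n)
    exact h

theorem gd_lim [EqSeq G p] (hp : ∀ n, IsProperMap (p n)) (hs : ∀ n, Surjective (p n))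
    (hg : ∀ n, Gd G (p n)) : Gd G (Lim.q 0 : Lim p → S 0) := by
  intro E _ _ _ _ _ _ _ _ _ Q hQ hA j
  have hQ' := cvx_cont hQ
  have := cone_continuousSMul (cvx Q) hQ'
  have := cone_locallyCompact (cvx Q)
  have hd : ∀ j, Dens G (fun (n : ℕ) (x : Lim p × Cone (cvx Q) × Cube j) =>
      ((Lim.q n x.1, x.2) : S n × Cone (cvx Q) × Cube j)) := fun j =>
    dens_of_limit (p := fun n (x : S (n + 1) × Cone (cvx Q) × Cube j) =>
      ((p n x.1, x.2) : S n × Cone (cvx Q) × Cube j))
      (r := fun n (x : S n × Cone (cvx Q) × Cube j) =>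
        ((toZ p n x.1, x.2) : S 0 × Cone (cvx Q) × Cube j))
      (q₀ := fun x : Lim p × Cone (cvx Q) × Cube j =>
        ((Lim.q 0 x.1, x.2) : S 0 × Cone (cvx Q) × Cube j))
      (fun n => (Lim.isProperMap_q hp n).prodMap isProperMap_id)
      (fun n g t => Prod.ext (Lim.q_smul n g t.1) rfl)
      (fun n => ((hp n).prodMap isProperMap_id).continuous)
      (fun n t => Prod.ext (Lim.p_q n t.1) rfl)
      (fun t t' h => Prod.ext (Lim.sep fun n => (Prod.ext_iff.1 (h n)).1) (Prod.ext_iff.1 (h 0)).2)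
      (fun n => (isProperMap_toZ hp n).prodMap isProperMap_id)
      (fun n t => Prod.ext (toZ_q n t.1) rfl)
      ((Lim.isProperMap_q_zero hp).prodMap isProperMap_id)
  have hqs : ∀ j n, Surjective (fun (x : Lim p × Cone (cvx Q) × Cube j) =>
      ((Lim.q n x.1, x.2) : S n × Cone (cvx Q) × Cube j)) := fun j n y => by
    obtain ⟨z, hz⟩ := Lim.q_surjective hs n y.1
    exact ⟨(z, y.2), Prod.ext hz rfl⟩
  have h1 := fun n => gd_toZ hp hg n E Q hQ hA
  constructor
  · exact InjG.of_limit (hd j) (hqs j) (fun n => (Lim.isProperMap_q hp n).prodMap isProperMap_id)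
      (fun n g t => Prod.ext (Lim.q_smul n g t.1) rfl)
      (fun n => (isProperMap_toZ hp n).prodMap isProperMap_id)
      (fun n g t => Prod.ext (toZ_smul n g t.1) rfl)
      (fun n t => Prod.ext (toZ_q n t.1) rfl) fun n => (h1 n j).1
  · exact SurG.of_limit (hd (j + 1)) (hqs (j + 1))
      (fun n => (Lim.isProperMap_q hp n).prodMap isProperMap_id)
      (fun n g t => Prod.ext (Lim.q_smul n g t.1) rfl)
      (fun n => (isProperMap_toZ hp n).prodMap isProperMap_id)
      (fun n g t => Prod.ext (toZ_smul n g t.1) rfl)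
      (fun n t => Prod.ext (toZ_q n t.1) rfl) fun n => (h1 n j).2

/-- The points of a box of the limit are determined by their projections with large index. -/
theorem lim_eq_of_ge {n : ℕ} {z z' : Lim p} (h : ∀ m, n ≤ m → Lim.q (m + 1) z = Lim.q (m + 1) z') :
    z = z' := by
  have h2 : ∀ m, n + 1 ≤ m → Lim.q m z = Lim.q m z' := by
    intro m hm
    obtain ⟨k, rfl⟩ : ∃ k, m = k + 1 := ⟨m - 1, by omega⟩
    exact h k (by omega)
  have h3 : ∀ k m, n + 1 ≤ m + k → Lim.q m z = Lim.q m z' := by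
    intro k
    induction k with
    | zero => exact fun m hm => h2 m hm
    | succ k ih =>
      intro m hm
      rw [← Lim.p_q, ← Lim.p_q m z', ih (m + 1) (by omega)]
  exact Lim.sep fun m => h3 (n + 1) m (by omega)

/-- The limit has totally disconnected local boxes over the points with local boxes. -/
theorem lim_boxAt [EqSeq G p] (hp : ∀ n, IsProperMap (p n)) {V : ℕ → Set G}
    (hV : ∀ n, IsOpen (V n)) (h1 : ∀ n, (1 : G) ∈ V n) (hanti : ∀ n, V (n + 1) ⊆ V n)
    (hbas : ∀ U ∈ 𝓝 (1 : G), ∃ n, V n ⊆ U)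
    (hbox : ∀ n (x : S (n + 1)), toZ p n (p n x) ∈ (boxPt (V n) (S 0)).carrier →
      ∃ T : Set (S (n + 1)), LC.IsBox (V n) T ∧ IsTotallyDisconnected T ∧
        ∃ g : G, g • x ∈ LC.core G T)
    (z : Lim p) (hz : LC.BoxAt G (fun _ : Set (S 0) => True) (Lim.q 0 z)) :
    LC.BoxAt G (fun T : Set (Lim p) => IsTotallyDisconnected T) z := by
  have hmono : ∀ n m, n ≤ m → V m ⊆ V n := fun n m h => by
    induction m, h using Nat.le_induction with
    | base => exact subset_rfl
    | succ m _ ih => exact (hanti m).trans ih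
  obtain ⟨n, hn⟩ := exists_mem_boxPt hbas hz
  obtain ⟨T, hT, hTs, g, hg⟩ := exists_small_box (hV n) (h1 n) hn
  refine ⟨V n, hV n, h1 n, Lim.q 0 ⁻¹' T,
    isBox_preimage (Lim.isProperMap_q_zero hp) (Lim.q_smul 0) hT, ?_, g,
    mem_core_preimage (Lim.continuous_q 0) (Lim.q_smul 0) hg⟩
  -- the boxes of the later stages are totally disconnected
  have h3 : ∀ m, n ≤ m → IsTotallyDisconnected (toZ p (m + 1) ⁻¹' T) := by
    intro m hm
    refine isTotallyDisconnected_box (hV n) (h1 n)
      (isBox_preimage (isProperMap_toZ hp (m + 1)) (toZ_smul (m + 1)) hT) fun s hs => ?_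
    obtain ⟨T', hT', ht', a, ha⟩ := hbox m s (boxPt_mono (hmono n m hm) (hTs hs))
    exact ⟨V m, hV m, h1 m, T', hT', ht', a, ha⟩
  intro C hC hCp x hx y hy
  refine lim_eq_of_ge (n := n) fun m hm => ?_
  have h4 : Lim.q (m + 1) '' C ⊆ toZ p (m + 1) ⁻¹' T := by
    rintro _ ⟨w, hw, rfl⟩
    show toZ p (m + 1) (Lim.q (m + 1) w) ∈ T
    rw [toZ_q]
    exact hC hw
  exact h3 m hm _ h4 (hCp.image _ (Lim.continuous_q (m + 1)).continuousOn)
    (Set.mem_image_of_mem _ hx) (Set.mem_image_of_mem _ hy)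

/-- The map to the first space is injective over the points without local boxes. -/
theorem lim_inj {V : ℕ → Set G} (hV : ∀ n, IsOpen (V n)) (h1 : ∀ n, (1 : G) ∈ V n)
    (hinj : ∀ n (x x' : S (n + 1)), p n x = p n x' →
      x = x' ∨ toZ p n (p n x) ∈ (boxPt (V n) (S 0)).carrier)
    {z z' : Lim p} (h : Lim.q 0 z = Lim.q 0 z') :
    z = z' ∨ LC.BoxAt G (fun _ : Set (S 0) => True) (Lim.q 0 z) := by
  by_cases hb : LC.BoxAt G (fun _ : Set (S 0) => True) (Lim.q 0 z)
  · exact Or.inr hb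
  · refine Or.inl (Lim.sep fun n => ?_)
    induction n with
    | zero => exact h
    | succ n ih =>
      have h2 : p n (Lim.q (n + 1) z) = p n (Lim.q (n + 1) z') :=
        (Lim.p_q n z).trans (ih.trans (Lim.p_q n z').symm)
      refine (hinj n _ _ h2).resolve_right fun h3 => hb ?_
      have h4 : toZ p n (p n (Lim.q (n + 1) z)) = Lim.q 0 z :=
        (congrArg (toZ p n) (Lim.p_q n z)).trans (toZ_q n z)
      rw [h4] at h3
      exact boxAt_of_mem_boxPt (hV n) (h1 n) h3

theorem limit_main [EqSeq G p] (hp : ∀ n, IsProperMap (p n)) (hs : ∀ n, Surjective (p n))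
    (hg : ∀ n, Gd G (p n)) {V : ℕ → Set G} (hV : ∀ n, IsOpen (V n)) (h1 : ∀ n, (1 : G) ∈ V n)
    (hanti : ∀ n, V (n + 1) ⊆ V n) (hbas : ∀ U ∈ 𝓝 (1 : G), ∃ n, V n ⊆ U)
    (hbox : ∀ n (x : S (n + 1)), toZ p n (p n x) ∈ (boxPt (V n) (S 0)).carrier →
      ∃ T : Set (S (n + 1)), LC.IsBox (V n) T ∧ IsTotallyDisconnected T ∧
        ∃ g : G, g • x ∈ LC.core G T)
    (hinj : ∀ n (x x' : S (n + 1)), p n x = p n x' →
      x = x' ∨ toZ p n (p n x) ∈ (boxPt (V n) (S 0)).carrier) :
    ∃ (Z : Type) (_ : TopologicalSpace Z) (_ : T2Space Z) (_ : LocallyCompactSpace Z)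
      (_ : SecondCountableTopology Z) (_ : MulAction G Z) (_ : ContinuousSMul G Z)
      (p : Z → S 0), LC.IsCut G p ∧
      ∀ (E : Type) [AddCommGroup E] [Module ℝ E] [TopologicalSpace E] [T2Space E]
        [ContinuousAdd E] [ContinuousSMul ℝ E] [DistribMulAction G E] [SMulCommClass G ℝ E]
        [ContinuousConstSMul G E] (Q : LC.ConvexSpace G E),
        ContinuousOn (fun q : G × E => q.1 • q.2) (Set.univ ×ˢ Q.carrier) → LC.Amenable Q →
        ∀ j, LC.K1Inj G (LC.Wsp.map Q p j) ∧ LC.K1Bij G (LC.Wsp.map Q p (j + 1)) := by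
  have hlc : LocallyCompactSpace (Lim p) := Lim.locallyCompactSpace hp
  have hgd : Gd G (Lim.q 0 : Lim p → S 0) := gd_lim hp hs hg
  refine ⟨Lim p, inferInstance, inferInstance, hlc, inferInstance, inferInstance, inferInstance,
    (Lim.q 0 : Lim p → S 0), ⟨Lim.isProperMap_q_zero hp, Lim.q_surjective hs 0, Lim.q_smul 0,
    lim_boxAt hp hV h1 hanti hbas hbox, fun z z' h => lim_inj hV h1 hinj h⟩, ?_⟩
  intro E _ _ _ _ _ _ _ _ _ Q hQ hA j
  have hQ' := cvx_cont hQ
  have := cone_continuousSMul (cvx Q) hQ'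
  have h2 := fun j => hgd E Q hQ hA j
  have hP : ∀ j, IsProperMap (fun x : Lim p × Cone (cvx Q) × Cube j =>
      ((Lim.q 0 x.1, x.2) : S 0 × Cone (cvx Q) × Cube j)) := fun j =>
    (Lim.isProperMap_q_zero hp).prodMap isProperMap_id
  have hE : ∀ j (g : G) (x : Lim p × Cone (cvx Q) × Cube j),
      ((Lim.q 0 (g • x).1, (g • x).2) : S 0 × Cone (cvx Q) × Cube j) =
        g • ((Lim.q 0 x.1, x.2) : S 0 × Cone (cvx Q) × Cube j) := fun j g x =>
    Prod.ext (Lim.q_smul 0 g x.1) rfl
  exact ⟨(I1_k1Inj (hP j) (hE j)).2 (h2 j).1,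
    (I1_k1Bij (hP (j + 1)) (hE (j + 1))).2 ⟨(h2 (j + 1)).1, (h2 j).2⟩⟩

end Seq

/-! ### The sequence of spaces -/

/-- A second countable locally compact Hausdorff space with a continuous action of `G` and a proper
equivariant map to `X₀`. -/
structure SpOver (G X₀ : Type) [Group G] [TopologicalSpace G] [TopologicalSpace X₀]
    [MulAction G X₀] where
  /-- the space -/
  X : Type
  top : TopologicalSpace X
  t2 : T2Space X
  lc : LocallyCompactSpace X
  sc : SecondCountableTopology X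
  act : MulAction G X
  cs : ContinuousSMul G X
  /-- the map -/
  r : X → X₀
  proper : IsProperMap r
  equi : ∀ (g : G) x, r (g • x) = g • r x

attribute [instance] SpOver.top SpOver.t2 SpOver.lc SpOver.sc SpOver.act SpOver.cs

section Sequence

variable {G X₀ : Type} [Group G] [TopologicalSpace G] [IsTopologicalGroup G]
  [LocallyCompactSpace G] [SecondCountableTopology G] [T2Space G] [MeasurableSpace G]
  [BorelSpace G] [TopologicalSpace X₀] [T2Space X₀] [LocallyCompactSpace X₀]
  [SecondCountableTopology X₀] [MulAction G X₀] [ContinuousSMul G X₀]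

/-- The properties of one step. -/
structure IsStep (V : Set G) {S S' : SpOver G X₀} (q : S'.X → S.X) : Prop where
  proper : IsProperMap q
  surj : Surjective q
  equi : ∀ (g : G) x, q (g • x) = g • q x
  gd : Gd G q
  box : ∀ x : S'.X, S.r (q x) ∈ (boxPt V X₀).carrier → ∃ T : Set S'.X, LC.IsBox V T ∧
    IsTotallyDisconnected T ∧ ∃ g : G, g • x ∈ LC.core G T
  inj : ∀ x x' : S'.X, q x = q x' → x = x' ∨ S.r (q x) ∈ (boxPt V X₀).carrier
  compat : ∀ x, S'.r x = S.r (q x)

theorem exists_next {V : Set G} (hV : IsOpen V) (h1 : (1 : G) ∈ V) (S : SpOver G X₀) :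
    ∃ (S' : SpOver G X₀) (q : S'.X → S.X), IsStep V q := by
  let O : InvSet G S.X := ⟨S.r ⁻¹' (boxPt V X₀).carrier, fun g x hx => by
    have h2 := (boxPt V X₀).inv g (S.r x) hx
    rw [← S.equi] at h2
    exact h2⟩
  have hO : IsOpen O.carrier := (isOpen_boxPt hV h1).preimage S.proper.continuous
  have hOb : LC.HasBoxes V fun _ : Set O.Pt => True :=
    hasBoxes_of_sub hV h1 hO fun x hx => boxPt_preimage S.proper S.equi hx
  obtain ⟨X', t, t2, lc, sc, act, cs, q, h2, h3, h4, h5, h6, h7⟩ :=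
    exists_step (X := S.X) hV h1 hO hOb
  exact ⟨⟨X', t, t2, lc, sc, act, cs, fun x => S.r (q x), S.proper.comp h2, fun g x => by
    rw [h4, S.equi]⟩, q, ⟨h2, h3, h4, h5, h6, h7, fun x => rfl⟩⟩

variable (X₀) (V : ℕ → Set G) (hV : ∀ n, IsOpen (V n)) (h1 : ∀ n, (1 : G) ∈ V n)

/-- The sequence of spaces. -/
def seqSp : ℕ → SpOver G X₀
  | 0 => ⟨X₀, inferInstance, inferInstance, inferInstance, inferInstance, inferInstance,
      inferInstance, fun x => x, isProperMap_id, fun _ _ => rfl⟩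
  | n + 1 => (exists_next (hV n) (h1 n) (seqSp n)).choose

/-- The maps of the sequence. -/
def seqMap (n : ℕ) : (seqSp X₀ V hV h1 (n + 1)).X → (seqSp X₀ V hV h1 n).X :=
  (exists_next (hV n) (h1 n) (seqSp X₀ V hV h1 n)).choose_spec.choose

theorem isStep_seqMap (n : ℕ) : IsStep (V n) (seqMap X₀ V hV h1 n) :=
  (exists_next (hV n) (h1 n) (seqSp X₀ V hV h1 n)).choose_spec.choose_spec

theorem seqSp_r (n : ℕ) (x : (seqSp X₀ V hV h1 n).X) :
    (seqSp X₀ V hV h1 n).r x =
      toZ (S := fun n => (seqSp X₀ V hV h1 n).X) (seqMap X₀ V hV h1) n x := by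
  induction n with
  | zero => rfl
  | succ n ih =>
    rw [(isStep_seqMap X₀ V hV h1 n).compat]
    exact ih _

/-- THE THEOREM for all spaces. -/
theorem transversals_all_gen (X : Type) [TopologicalSpace X] [T2Space X] [LocallyCompactSpace X]
    [SecondCountableTopology X] [MulAction G X] [ContinuousSMul G X] :
    ∃ (Z : Type) (_ : TopologicalSpace Z) (_ : T2Space Z) (_ : LocallyCompactSpace Z)
      (_ : SecondCountableTopology Z) (_ : MulAction G Z) (_ : ContinuousSMul G Z)
      (p : Z → X), LC.IsCut G p ∧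
      ∀ (E : Type) [AddCommGroup E] [Module ℝ E] [TopologicalSpace E] [T2Space E]
        [ContinuousAdd E] [ContinuousSMul ℝ E] [DistribMulAction G E] [SMulCommClass G ℝ E]
        [ContinuousConstSMul G E] (Q : LC.ConvexSpace G E),
        ContinuousOn (fun q : G × E => q.1 • q.2) (Set.univ ×ˢ Q.carrier) → LC.Amenable Q →
        ∀ j, LC.K1Inj G (LC.Wsp.map Q p j) ∧ LC.K1Bij G (LC.Wsp.map Q p (j + 1)) := by
  obtain ⟨V, hV, h1, hanti, hbas⟩ := exists_basis_one G
  let S : ℕ → SpOver G X := seqSp X V hV h1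
  let p : ∀ n, (S (n + 1)).X → (S n).X := seqMap X V hV h1
  have hst : ∀ n, IsStep (V n) (p n) := isStep_seqMap X V hV h1
  have hE : EqSeq G (S := fun n => (S n).X) p := ⟨fun n => (hst n).equi⟩
  have hr : ∀ n (x : (S n).X), (S n).r x = toZ (S := fun n => (S n).X) p n x :=
    seqSp_r X V hV h1
  exact limit_main (S := fun n => (S n).X) (p := p) (fun n => (hst n).proper)
    (fun n => (hst n).surj) (fun n => (hst n).gd) hV h1 hanti hbas
    (fun n x hx => (hst n).box x (by rw [hr]; exact hx))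
    (fun n x x' h => by
      have h2 := (hst n).inj x x' h
      rw [hr] at h2
      exact h2)

end Sequence

end Pool.Agent.Lib.MP_aa9b81_an.Tv
end
end

section

/-!
# Transversals, part Y9: all spaces with an action of a Lie group
-/

open scoped ENNReal Topology Manifold ContDiff
open Function Filter MeasureTheory

noncomputable section

set_option linter.unusedSectionVars false

namespace Pool.Agent.Lib.MP_aa9b81_an.Tv

open Cut Hs Cb

section Van

variable {G X Z : Type} [Group G] [TopologicalSpace G] [IsTopologicalGroup G]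
  [LocallyCompactSpace G] [MeasurableSpace G] [BorelSpace G] [TopologicalSpace X] [MulAction G X]
  [TopologicalSpace Z] [MulAction G Z]

/-- The vanishing of `K₁` passes from `Z` to `X` if the map is injective on `K₁`. -/
theorem k1Zero_of_k1Inj {p : Z → X} (hp : LC.K1Inj G p) (h1 : LC.Unit1 G (fun _ : X => 1))
    (hZ : LC.K1Zero G Z) : LC.K1Zero G X := fun u hu =>
  hp.2 u _ hu h1 (hZ _ (hp.1 u hu))

end Van

section Lie

variable {G X Z : Type} (F : Type) [Group G] [TopologicalSpace G] [IsTopologicalGroup G]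
  [LocallyCompactSpace G] [T2Space G] [NormedAddCommGroup F] [NormedSpace ℝ F]
  [FiniteDimensional ℝ F] [ChartedSpace F G] {n : WithTop ℕ∞} [LieGroup 𝓘(ℝ, F) n G]
  [TopologicalSpace X] [T2Space X] [LocallyCompactSpace X] [SecondCountableTopology X]
  [MulAction G X] [ContinuousSMul G X]

include F

/-- Actions of Lie groups: a point has a local box if and only if its stabilizer is discrete. -/
theorem boxAt_iff_discStab (hn : 1 ≤ n) (x : X) :
    LC.BoxAt G (fun _ : Set X => True) x ↔ LC.DiscStab G x := by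
  refine ⟨discStab_of_boxAt, fun h => ?_⟩
  obtain ⟨V, hV, h1, T, hT, hx⟩ := exists_box_lie (F := F) hn h
  exact ⟨V, hV, h1, T, hT, trivial, 1, by rwa [one_smul]⟩

/-- The points of a cut with discrete stabilizers have totally disconnected boxes. -/
theorem boxAt_td_of_discStab [TopologicalSpace Z] [MulAction G Z] (hn : 1 ≤ n) {p : Z → X}
    (hp : LC.IsCut G p) (z : Z) (hz : LC.DiscStab G z) :
    LC.BoxAt G (fun T : Set Z => IsTotallyDisconnected T) z := by
  by_cases hb : LC.BoxAt G (fun _ : Set X => True) (p z)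
  · exact hp.box z hb
  · refine absurd ((boxAt_iff_discStab F hn (p z)).2 ?_) hb
    obtain ⟨N, hN, hNz⟩ := hz
    refine ⟨N, hN, fun g hg hgz => hNz g hg ?_⟩
    have h2 : p z = p (g • z) := by rw [hp.equi, hgz]
    exact ((hp.inj z (g • z) h2).resolve_right hb).symm

end Lie

end Pool.Agent.Lib.MP_aa9b81_an.Tv
end
end
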