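import Pool.Agent.Lib.MP_aa9b81_an.Tv.N3
import Pool.Agent.Lib.MP_aa9b81_an.Tv.Y2
import Pool.Agent.Lib.MP_aa9b81_an.Mg.G050
import Pool.Agent.Lib.MP_aa9b81_an.Mg.G058

section

/-!
# Transversals, part N4: from second countable spaces to all locally compact spaces
-/

open scoped ENNReal Topology CompactlySupported
open Function Filter MeasureTheory

noncomputable section

set_option linter.unusedSectionVars false

namespace Pool.Agent.Lib.MP_aa9b81_an.Tv

open Cut Hs Cb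

section Dens

variable {G P : Type} [Group G] [TopologicalSpace G] [IsTopologicalGroup G]
  [LocallyCompactSpace G] [SecondCountableTopology G] [T2Space G] [MeasurableSpace G] [BorelSpace G]
  [TopologicalSpace P] [T2Space P] [MulAction G P] [ContinuousSMul G P]

/-- If any two elements of the crossed product of `P` are approximated in the crossed product of a
space for which `K₁` is zero, then `K₁` is zero for `P`. -/
theorem VanG.of_dens (h : ∀ a ∈ cpG G ℕ P, ∀ b ∈ cpG G ℕ P, ∀ ε : ℝ, 0 < ε →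
    ∃ (T : Type) (_ : TopologicalSpace T) (_ : T2Space T) (_ : MulAction G T)
      (_ : ContinuousSMul G T) (J : FamG G ℕ T →ₙ+* FamG G ℕ P), (∀ x, ‖J x‖ = ‖x‖) ∧
      (∀ x ∈ cpG G ℕ T, J x ∈ cpG G ℕ P) ∧ VanG G T ∧ ∃ a₀ ∈ cpG G ℕ T, ∃ b₀ ∈ cpG G ℕ T,
        ‖a - J a₀‖ ≤ ε ∧ ‖b - J b₀‖ ≤ ε) : VanG G P := by
  intro v hv
  set a : FamG G ℕ P := (v : FamG G ℕ P) - 1 with ha
  set b : FamG G ℕ P := ((v⁻¹ : (FamG G ℕ P)ˣ) : FamG G ℕ P) - 1 with hb
  have hab : a + b + a * b = 0 := by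
    have h1 : (v : FamG G ℕ P) * ((v⁻¹ : (FamG G ℕ P)ˣ) : FamG G ℕ P) = 1 := Units.mul_inv v
    have h2 : a + b + a * b = (v : FamG G ℕ P) * ((v⁻¹ : (FamG G ℕ P)ˣ) : FamG G ℕ P) - 1 := by
      rw [ha, hb]
      noncomm_ring
    rw [h2, h1, sub_self]
  have hba : b + a + b * a = 0 := by
    have h1 : ((v⁻¹ : (FamG G ℕ P)ˣ) : FamG G ℕ P) * (v : FamG G ℕ P) = 1 := Units.inv_mul v
    have h2 : b + a + b * a = ((v⁻¹ : (FamG G ℕ P)ˣ) : FamG G ℕ P) * (v : FamG G ℕ P) - 1 := by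
      rw [ha, hb]
      noncomm_ring
    rw [h2, h1, sub_self]
  set M : ℝ := ‖a‖ + ‖b‖ + ‖((v⁻¹ : (FamG G ℕ P)ˣ) : FamG G ℕ P)‖ + 1 with hM
  have hM1 : 1 ≤ M := by
    have := norm_nonneg a
    have := norm_nonneg b
    have := norm_nonneg ((v⁻¹ : (FamG G ℕ P)ˣ) : FamG G ℕ P)
    linarith
  have hMa : ‖a‖ ≤ M := by
    have := norm_nonneg b
    have := norm_nonneg ((v⁻¹ : (FamG G ℕ P)ˣ) : FamG G ℕ P)
    linarith
  have hMb : ‖b‖ ≤ M := by
    have := norm_nonneg a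
    have := norm_nonneg ((v⁻¹ : (FamG G ℕ P)ˣ) : FamG G ℕ P)
    linarith
  have hMv : ‖((v⁻¹ : (FamG G ℕ P)ˣ) : FamG G ℕ P)‖ ≤ M := by
    have := norm_nonneg a
    have := norm_nonneg b
    linarith
  have hδ : (0 : ℝ) < 1 / (8 * M) := by positivity
  obtain ⟨T, tT, t2T, aT, cT, J, hJn, hJm, hT, a₀, ha₀, b₀, hb₀, h1, h2⟩ :=
    h a hv.1 b hv.2 _ hδ
  set A : FamG G ℕ P := J a₀ with hA
  set B : FamG G ℕ P := J b₀ with hB
  have hδM : 1 / (8 * M) * M = 1 / 8 := by field_simp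
  have hδ1 : 1 / (8 * M) ≤ 1 / 8 := by
    rw [← hδM]
    nlinarith
  have hx : ∀ x y X Y : FamG G ℕ P, x + y + x * y = 0 → ‖x‖ ≤ M → ‖y‖ ≤ M →
      ‖x - X‖ ≤ 1 / (8 * M) → ‖y - Y‖ ≤ 1 / (8 * M) → ‖X + Y + X * Y‖ < 1 := by
    intro x y X Y hxy hxM hyM hxX hyY
    have e : X + Y + X * Y = -(x - X) - (y - Y) - (x - X) * Y - x * (y - Y) := by
      have e1 : X + Y + X * Y = (X + Y + X * Y) - (x + y + x * y) := by rw [hxy, sub_zero]
      rw [e1]
      noncomm_ring
    have hY : ‖Y‖ ≤ M + 1 / 8 := by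
      have e2 : Y = y - (y - Y) := by abel
      rw [e2]
      refine (norm_sub_le _ _).trans ?_
      linarith
    have h3 : ‖(x - X) * Y‖ ≤ 1 / (8 * M) * (M + 1 / 8) :=
      (norm_mul_le _ _).trans (mul_le_mul hxX hY (norm_nonneg _) hδ.le)
    have h4 : ‖x * (y - Y)‖ ≤ M * (1 / (8 * M)) :=
      (norm_mul_le _ _).trans (mul_le_mul hxM hyY (norm_nonneg _) (by linarith))
    rw [e]
    have h5 := norm_sub_le (-(x - X) - (y - Y) - (x - X) * Y) (x * (y - Y))
    have h6 := norm_sub_le (-(x - X) - (y - Y)) ((x - X) * Y)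
    have h7 := norm_sub_le (-(x - X)) (y - Y)
    rw [norm_neg] at h7
    have h8 : M * (1 / (8 * M)) = 1 / 8 := by rw [mul_comm]; exact hδM
    have h9 : 1 / (8 * M) * (M + 1 / 8) = 1 / 8 + 1 / (8 * M) * (1 / 8) := by
      rw [mul_add, hδM]
    nlinarith
  have h3 : ‖a₀ + b₀ + a₀ * b₀‖ < 1 := by
    rw [← hJn, map_add, map_add, map_mul]
    exact hx a b A B hab hMa hMb h1 h2
  have h4 : ‖b₀ + a₀ + b₀ * a₀‖ < 1 := by
    rw [← hJn, map_add, map_add, map_mul]
    exact hx b a B A hba hMb hMa h2 h1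
  obtain ⟨w, hw, hwa⟩ := exists_unit_of_almost_inverse isClosed_cpG ha₀ hb₀ h3 h4
  have h5 : extUnit J w ∈ E1 (cpG G ℕ P) :=
    extUnit_mem_E1 (fun x => (hJn x).le) hJm (hT hw)
  have h6 : v⁻¹ * extUnit J w ∈ E1 (cpG G ℕ P) := by
    refine mem_E1_of_small (mul_mem (inv_mem hv) (E1_le _ h5)) ?_
    have e : ((v⁻¹ * extUnit J w : (FamG G ℕ P)ˣ) : FamG G ℕ P) - 1 =
        ((v⁻¹ : (FamG G ℕ P)ˣ) : FamG G ℕ P) * (A - a) := by
      have e1 : ((v⁻¹ * extUnit J w : (FamG G ℕ P)ˣ) : FamG G ℕ P) =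
          ((v⁻¹ : (FamG G ℕ P)ˣ) : FamG G ℕ P) * (1 + J ((w : FamG G ℕ T) - 1)) := rfl
      have e2 : (w : FamG G ℕ T) - 1 = a₀ := by rw [hwa, add_sub_cancel_left]
      have e3 : (1 : FamG G ℕ P) = ((v⁻¹ : (FamG G ℕ P)ˣ) : FamG G ℕ P) * (1 + a) := by
        rw [ha, add_sub_cancel, Units.inv_mul]
      rw [e1, e2]
      conv_lhs => rw [e3]
      rw [← e3, ← hA]
      have e4 : ((v⁻¹ : (FamG G ℕ P)ˣ) : FamG G ℕ P) * (1 + A) - 1 =
          ((v⁻¹ : (FamG G ℕ P)ˣ) : FamG G ℕ P) * (1 + A) -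
            ((v⁻¹ : (FamG G ℕ P)ˣ) : FamG G ℕ P) * (1 + a) := by rw [← e3]
      rw [e4]
      noncomm_ring
    rw [e]
    refine lt_of_le_of_lt (norm_mul_le _ _) ?_
    have h7 : ‖A - a‖ ≤ 1 / (8 * M) := by
      rw [norm_sub_rev]
      exact h1
    refine lt_of_le_of_lt (mul_le_mul hMv h7 (norm_nonneg _) (by linarith)) ?_
    have h8 : M * (1 / (8 * M)) = 1 / 8 := by rw [mul_comm]; exact hδM
    rw [h8]
    norm_num
  have h7 : v = extUnit J w * (v⁻¹ * extUnit J w)⁻¹ := by group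
  rw [h7]
  exact mul_mem h5 (inv_mem h6)

end Dens

section All

variable {G X W : Type} [Group G] [TopologicalSpace G] [IsTopologicalGroup G]
  [LocallyCompactSpace G] [SecondCountableTopology G] [T2Space G] [MeasurableSpace G] [BorelSpace G]
  [TopologicalSpace X] [T2Space X] [LocallyCompactSpace X] [MulAction G X] [ContinuousSMul G X]
  [TopologicalSpace W] [T2Space W] [LocallyCompactSpace W] [MulAction G W] [ContinuousSMul G W]

/-- The homomorphism of the crossed products. -/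
def jW {ω : G → ℝ} (W : Type) (s : ℕ → Adm ω X) :
    FamG G ℕ ((imS s).Pt × W) →ₙ+* FamG G ℕ (X × W) :=
  (extG (J := ℕ) (G := G) (valW W s)).comp
    (RingHom.toNonUnitalRingHom (pullG (J := ℕ) (G := G) (piW W s)))

theorem jW_apply {ω : G → ℝ} (s : ℕ → Adm ω X) (x : FamG G ℕ ((imS s).Pt × W)) :
    jW W s x = extG (valW W s) (pullG (piW W s) x) := rfl

theorem norm_jW {ω : G → ℝ} [ContinuousSMul G (Uw ω)] (s : ℕ → Adm ω X)
    (x : FamG G ℕ ((imS s).Pt × W)) :
    ‖jW W s x‖ = ‖x‖ := by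
  rw [jW_apply, norm_extG, norm_pullG_of_surj (piW_surjective s)]

theorem jW_mem {ω : G → ℝ} [ContinuousSMul G (Uw ω)] (s : ℕ → Adm ω X) :
    ∀ x ∈ cpG G ℕ ((imS s).Pt × W), jW W s x ∈ cpG G ℕ (X × W) := by
  intro x hx
  rw [jW_apply]
  exact extG_mem (isOpenEmbedding_valW s) (valW_smul s) _
    (pullG_mem (isProperMap_piW s) (piW_smul s) x hx)

/-- The vanishing for the second countable spaces gives the vanishing for all locally compact
Hausdorff spaces. -/
theorem VanG.of_secondCountable (h : ∀ (X' : Type) [TopologicalSpace X'] [T2Space X']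
    [LocallyCompactSpace X'] [SecondCountableTopology X'] [MulAction G X'] [ContinuousSMul G X'],
    VanG G (X' × W)) : VanG G (X × W) := by
  obtain ⟨b⟩ := exists_bumps G
  have h1 : ContinuousSMul G (Uw b.ω) := Uw.continuousSMul b.tend
  have h2 : SecondCountableTopology (Uw b.ω) := Uw.secondCountable b.tend
  refine VanG.of_dens fun x hx y hy ε hε => ?_
  obtain ⟨S, hS, hSx⟩ := dens_adm (X := X) (W := W) b x hx ε hε
  obtain ⟨S', hS', hSy⟩ := dens_adm (X := X) (W := W) b y hy ε hε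
  have hne : Nonempty (Adm b.ω X) := Adm.nonempty b
  obtain ⟨s, hs⟩ : ∃ s : ℕ → Adm b.ω X, ∀ F ∈ S ∪ S', ∃ k, s k = F := by
    have hc : (S ∪ S').Countable := (hS.union hS').countable
    obtain ⟨s, hs⟩ := (Set.countable_iff_exists_subset_range).1 hc
    exact ⟨s, fun F hF => hs hF⟩
  obtain ⟨x₀, hx₀, hxx⟩ := hSx s fun F hF => hs F (Or.inl hF)
  obtain ⟨y₀, hy₀, hyy⟩ := hSy s fun F hF => hs F (Or.inr hF)
  have h3 : LocallyCompactSpace (imS s).Pt := imS_locallyCompact s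
  have h4 : SecondCountableTopology (imS s).Pt :=
    TopologicalSpace.Subtype.secondCountableTopology (imS s).carrier
  have h5 : VanG G ((imS s).Pt × W) := h (imS s).Pt
  exact ⟨(imS s).Pt × W, inferInstance, inferInstance, inferInstance, inferInstance, jW W s,
    norm_jW s, jW_mem s, h5, x₀, hx₀, y₀, hy₀, hxx, hyy⟩

end All

end Pool.Agent.Lib.MP_aa9b81_an.Tv
end
end

section

/-!
# Transversals, part Y10: one space which decides the vanishing of `K₁` for all locally compact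
Hausdorff spaces
-/

open scoped ENNReal Topology Manifold ContDiff
open Function Filter MeasureTheory

noncomputable section

set_option linter.unusedSectionVars false

namespace Pool.Agent.Lib.MP_aa9b81_an.Tv

open Cut Hs Cb

/-- THE THEOREM: the cut of a universal space decides the vanishing of `K₁` for all locally compact
Hausdorff spaces. -/
theorem transversals_universal (G : Type) [Group G] [TopologicalSpace G] [IsTopologicalGroup G]
    [LocallyCompactSpace G] [SecondCountableTopology G] [T2Space G] [MeasurableSpace G]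
    [BorelSpace G] :
    ∃ (X₀ : Type) (_ : TopologicalSpace X₀) (_ : T2Space X₀) (_ : LocallyCompactSpace X₀)
      (_ : SecondCountableTopology X₀) (_ : MulAction G X₀) (_ : ContinuousSMul G X₀),
      LC.IsUniversal G X₀ ∧
      ∃ (Z : Type) (_ : TopologicalSpace Z) (_ : T2Space Z) (_ : LocallyCompactSpace Z)
        (_ : SecondCountableTopology Z) (_ : MulAction G Z) (_ : ContinuousSMul G Z)
        (p : Z → X₀), LC.IsCut G p ∧
      ∀ (E : Type) [AddCommGroup E] [Module ℝ E] [TopologicalSpace E] [T2Space E]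
        [ContinuousAdd E] [ContinuousSMul ℝ E] [DistribMulAction G E] [SMulCommClass G ℝ E]
        [ContinuousConstSMul G E] (Q : LC.ConvexSpace G E),
        ContinuousOn (fun q : G × E => q.1 • q.2) (Set.univ ×ˢ Q.carrier) → LC.Amenable Q →
        ∀ j, LC.K1Zero G (LC.Wsp Q Z j) ↔
          ∀ (X : Type) [TopologicalSpace X] [T2Space X] [LocallyCompactSpace X]
            [MulAction G X] [ContinuousSMul G X], LC.K1Zero G (LC.Wsp Q X j) := by
  obtain ⟨X₀, tX, t2, lc, sc, aX, cs, huniv, hU⟩ := exists_universal_all G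
  obtain ⟨Z, tZ, t2', lc', sc', aZ, cs', p, hcut, hK⟩ := transversals_all_gen (G := G) X₀
  refine ⟨X₀, tX, t2, lc, sc, aX, cs, huniv, Z, tZ, t2', lc', sc', aZ, cs', p, hcut, ?_⟩
  intro E _ _ _ _ _ _ _ _ _ Q hQ hA j
  refine ⟨fun hZ X _ _ _ _ _ => ?_, fun h => h Z⟩
  have hQ' := cvx_cont hQ
  have := cone_continuousSMul (cvx Q) hQ'
  have := cone_locallyCompact (cvx Q)
  have hP : IsProperMap (fun x : Z × Cone (cvx Q) × Cube j =>
      ((p x.1, x.2) : X₀ × Cone (cvx Q) × Cube j)) := hcut.proper.prodMap isProperMap_id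
  have hE : ∀ (g : G) (x : Z × Cone (cvx Q) × Cube j),
      ((p (g • x).1, (g • x).2) : X₀ × Cone (cvx Q) × Cube j) =
        g • ((p x.1, x.2) : X₀ × Cone (cvx Q) × Cube j) := fun g x =>
    Prod.ext (hcut.equi g x.1) rfl
  have hi : InjG G (fun x : Z × Cone (cvx Q) × Cube j =>
      ((p x.1, x.2) : X₀ × Cone (cvx Q) × Cube j)) := (I1_k1Inj hP hE).1 (hK E Q hQ hA j).1
  have h2 : VanG G (Z × Cone (cvx Q) × Cube j) := I1_k1Zero.1 hZ
  have h3 : VanG G (X₀ × Cone (cvx Q) × Cube j) := van_of_injG hP hE hi h2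
  have h5 : VanG G (X × Cone (cvx Q) × Cube j) := VanG.of_secondCountable fun X' _ _ _ _ _ _ =>
    hU (propAG_of_amenable hQ hA) X' (Cone (cvx Q) × Cube j) h3
  have h6 : LC.K1Zero G (X × Cone (cvx Q) × Cube j) := I1_k1Zero.2 h5
  exact h6

end Pool.Agent.Lib.MP_aa9b81_an.Tv
end
end
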