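import Pool.Agent.Lib.MP_aa9b81_an.Mg.G034
import Pool.Agent.Lib.MP_aa9b81_an.Tv.H3a

section

/-!
# Transversals, part H2: the configuration of the marked boxes in `G × ℝ²`
-/

open Function Filter Topology

noncomputable section

namespace Pool.Agent.Lib.MP_aa9b81_an.Tv

open Cut Hs Cb

/-- The neighbourhood `V × {|b| < 1/2}` of `1` in `G × ℝ²`. -/
def V2 {G : Type} (V : Set G) : Set (G × M2) := {p | p.1 ∈ V ∧ |p.2.b| < 1 / 2}

theorem isOpen_V2 {G : Type} [TopologicalSpace G] {V : Set G} (hV : IsOpen V) : IsOpen (V2 V) := by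
  have h2 : Continuous fun p : G × M2 => |p.2.b| := (M2.continuous_b.comp continuous_snd).abs
  exact (hV.preimage continuous_fst).inter (isOpen_lt h2 continuous_const)

theorem one_mem_V2 {G : Type} [Group G] {V : Set G} (h1 : (1 : G) ∈ V) :
    (1 : G × M2) ∈ V2 V := by
  refine ⟨h1, ?_⟩
  have h2 : (1 : G × M2).2.b = 0 := rfl
  rw [h2, abs_zero]
  norm_num

/-- The weight function. -/
def cM {X : Type} (x : XM X M2) : ℝ := min 1 (Real.exp x.2.a)

theorem continuous_cM {X : Type} [TopologicalSpace X] : Continuous (cM : XM X M2 → ℝ) := by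
  have h : Continuous fun x : XM X M2 => x.2.a := M2.continuous_a.comp continuous_snd
  exact continuous_const.min (Real.continuous_exp.comp h)

section

variable {G X : Type} [Group G] [TopologicalSpace G] [TopologicalSpace X] [MulAction G X]
  {V : Set G}

/-- `i` is the site of the box `k` at `g = i.1` for the point `x`. -/
def Marks.site (M : Marks V X) (k : ℕ) (x : XM X M2) (i : G × M2) : Prop :=
  i.1⁻¹ • x.1 ∈ M.T k ∧ M.m k (i.1⁻¹ • x.1) = Real.exp (x.2.a - i.2.a) ∧ i.2.b = x.2.b + k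

/-- The weight of a site is the mark. -/
theorem Marks.site.cM {M : Marks V X} {k : ℕ} {x : XM X M2} {i : G × M2} (h : M.site k x i) :
    cM (i⁻¹ • x) = M.m k (i.1⁻¹ • x.1) := by
  have h2 : (i⁻¹ • x).2.a = x.2.a - i.2.a := by
    show (i.2⁻¹ * x.2).a = _
    rw [M2.a_mul, M2.a_inv]
    ring
  unfold Tv.cM
  rw [h2, ← h.2.1]
  exact min_eq_right (M.le_one _ _)

/-- Every positive mark gives a site. -/
theorem Marks.site_mk (M : Marks V X) {k : ℕ} {x : XM X M2} {g : G} (h : g⁻¹ • x.1 ∈ M.T k)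
    (h0 : 0 < M.m k (g⁻¹ • x.1)) :
    M.site k x (g, M2.mk (x.2.a - Real.log (M.m k (g⁻¹ • x.1))) (x.2.b + k)) := by
  refine ⟨h, ?_, ?_⟩
  · rw [M2.a_mk, sub_sub_cancel, Real.exp_log h0]
  · rw [M2.b_mk]

theorem Marks.site.pos {M : Marks V X} {k : ℕ} {x : XM X M2} {i : G × M2} (h : M.site k x i) :
    0 < M.m k (i.1⁻¹ • x.1) := by
  rw [h.2.1]
  exact Real.exp_pos _

theorem Marks.site.core {M : Marks V X} {k : ℕ} {x : XM X M2} {i : G × M2} (h : M.site k x i) :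
    i.1⁻¹ • x.1 ∈ LC.core G (M.T k) := M.supp k _ h.1 h.pos

theorem Marks.site.a_eq {M : Marks V X} {k : ℕ} {x : XM X M2} {i : G × M2} (h : M.site k x i) :
    i.2.a = x.2.a - Real.log (M.m k (i.1⁻¹ • x.1)) := by
  rw [h.2.1, Real.log_exp]
  ring

/-- The set of all sites. -/
def Marks.D (M : Marks V X) (x : XM X M2) : Set (G × M2) := {i | ∃ k, M.site k x i}

theorem Marks.site_unique (h1 : (1 : G) ∈ V) (M : Marks V X) {k l : ℕ} {x : XM X M2}
    {i j : G × M2} (hi : M.site k x i) (hj : M.site l x j) (h : i⁻¹ * j ∈ V2 V) : i = j := by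
  have hb : |((i⁻¹ * j : G × M2)).2.b| < 1 / 2 := h.2
  have hb' : ((i⁻¹ * j : G × M2)).2.b = (l : ℝ) - k := by
    show (i.2⁻¹ * j.2).b = _
    rw [M2.b_mul, M2.b_inv, hi.2.2, hj.2.2]
    ring
  rw [hb'] at hb
  have hkl : k = l := by
    by_contra hne
    have h3 : (1 : ℝ) ≤ |((l : ℤ) : ℝ) - ((k : ℤ) : ℝ)| := by
      have h4 : (1 : ℤ) ≤ |(l : ℤ) - (k : ℤ)| := by
        refine Int.one_le_abs (sub_ne_zero.2 ?_)
        exact_mod_cast (Ne.symm hne)
      exact_mod_cast h4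
    have h5 : |(l : ℝ) - k| = |((l : ℤ) : ℝ) - ((k : ℤ) : ℝ)| := by norm_num
    rw [h5] at hb
    linarith
  subst hkl
  have hV : i.1⁻¹ * j.1 ∈ V := h.1
  have h2 : (i.1⁻¹ * j.1) • (j.1⁻¹ • x.1) = (1 : G) • (i.1⁻¹ • x.1) := by
    rw [one_smul, mul_smul, smul_inv_smul]
  have h3 := (M.box k).inj _ hV 1 h1 _ hj.1 _ hi.1 h2
  have hg : i.1 = j.1 := by
    have h4 := h3.1
    rw [inv_mul_eq_one] at h4
    exact h4
  refine Prod.ext hg (M2.ext ?_ ?_)
  · rw [hi.a_eq, hj.a_eq, hg]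
  · rw [hi.2.2, hj.2.2]

theorem Marks.sep (h1 : (1 : G) ∈ V) (M : Marks V X) (x : XM X M2) : Cb.Sep (V2 V) (M.D x) := by
  rintro i ⟨k, hi⟩ j ⟨l, hj⟩ h
  exact M.site_unique h1 hi hj h

theorem Marks.site_smul (M : Marks V X) (k : ℕ) (h : G × M2) (x : XM X M2) (i : G × M2) :
    M.site k (h • x) i ↔ M.site k x (h⁻¹ * i) := by
  have e1 : i.1⁻¹ • (h • x).1 = (h⁻¹ * i).1⁻¹ • x.1 := by
    show i.1⁻¹ • (h.1 • x.1) = (h.1⁻¹ * i.1)⁻¹ • x.1
    rw [mul_inv_rev, inv_inv, mul_smul]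
  have e2 : (h • x).2.a - i.2.a = x.2.a - (h⁻¹ * i).2.a := by
    show (h.2 * x.2).a - i.2.a = x.2.a - (h.2⁻¹ * i.2).a
    rw [M2.a_mul, M2.a_mul, M2.a_inv]
    ring
  have e3 : i.2.b = (h • x).2.b + k ↔ (h⁻¹ * i).2.b = x.2.b + k := by
    show i.2.b = (h.2 * x.2).b + k ↔ (h.2⁻¹ * i.2).b = x.2.b + k
    rw [M2.b_mul, M2.b_mul, M2.b_inv]
    constructor <;> intro h <;> linarith
  unfold Marks.site
  rw [e1, e2, e3]

end

variable {G X : Type} [Group G] [TopologicalSpace G] [IsTopologicalGroup G]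
  [LocallyCompactSpace G] [T2Space G] [TopologicalSpace X] [T2Space X] [MulAction G X]
  [ContinuousSMul G X] {V : Set G}

/-- The sites persist. -/
theorem Marks.site_lower (hV : IsOpen V) (h1 : (1 : G) ∈ V) (M : Marks V X) {k : ℕ}
    {x₀ : XM X M2} {i : G × M2} (hi : M.site k x₀ i) {N : Set (G × M2)} (hN : N ∈ 𝓝 i) :
    ∀ᶠ x in 𝓝 x₀, ∃ j ∈ N, M.site k x j := by
  let Φ : XM X M2 × G × X → G × M2 := fun q =>
    (i.1 * q.2.1, M2.mk (q.1.2.a - Real.log (M.m k q.2.2)) (q.1.2.b + k))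
  have hΦ0 : Φ (x₀, 1, i.1⁻¹ • x₀.1) = i := by
    refine Prod.ext (mul_one _) (M2.ext ?_ ?_)
    · exact hi.a_eq.symm
    · exact hi.2.2.symm
  have hΦ : ContinuousAt Φ (x₀, 1, i.1⁻¹ • x₀.1) := by
    have c1 : ContinuousAt (fun q : XM X M2 × G × X => i.1 * q.2.1) (x₀, 1, i.1⁻¹ • x₀.1) :=
      (continuous_const.mul (continuous_fst.comp continuous_snd)).continuousAt
    have ca : Continuous fun q : XM X M2 × G × X => q.1.2.a :=
      M2.continuous_a.comp (continuous_snd.comp continuous_fst)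
    have cb : Continuous fun q : XM X M2 × G × X => q.1.2.b + (k : ℝ) :=
      (M2.continuous_b.comp (continuous_snd.comp continuous_fst)).add continuous_const
    have cm : ContinuousAt (fun q : XM X M2 × G × X => Real.log (M.m k q.2.2))
        (x₀, 1, i.1⁻¹ • x₀.1) := by
      have c2 : ContinuousAt (fun q : XM X M2 × G × X => M.m k q.2.2) (x₀, 1, i.1⁻¹ • x₀.1) :=
        ((M.cont k).comp (continuous_snd.comp continuous_snd)).continuousAt
      exact c2.log hi.pos.ne'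
    have c3 : ContinuousAt (fun q : XM X M2 × G × X =>
        M2.mk (q.1.2.a - Real.log (M.m k q.2.2)) (q.1.2.b + k)) (x₀, 1, i.1⁻¹ • x₀.1) :=
      (ca.continuousAt.sub cm).prodMk cb.continuousAt
    exact c1.prodMk c3
  have h2 : Φ ⁻¹' N ∈ 𝓝 ((x₀, 1, i.1⁻¹ • x₀.1) : XM X M2 × G × X) := by
    refine hΦ.preimage_mem_nhds ?_
    rw [hΦ0]
    exact hN
  rw [nhds_prod_eq, nhds_prod_eq] at h2
  obtain ⟨A, hA, R, hR, hAR⟩ := mem_prod_iff.1 h2
  obtain ⟨U, hU, S, hS, hUS⟩ := mem_prod_iff.1 hR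
  have hpos : {y : X | 0 < M.m k y} ∈ 𝓝 (i.1⁻¹ • x₀.1) :=
    (isOpen_lt continuous_const (M.cont k)).mem_nhds hi.pos
  have h3 := core_decomp hV h1 (M.box k) hi.core hU (inter_mem hS hpos)
  have hc : Continuous fun x : XM X M2 => i.1⁻¹ • x.1 :=
    continuous_fst.const_smul i.1⁻¹
  filter_upwards [hA, hc.continuousAt.eventually h3] with x hx hx'
  obtain ⟨u, hu, s, hsT, ⟨hsS, hs0⟩, hus⟩ := hx'
  have e : (i.1 * u)⁻¹ • x.1 = s := by
    rw [mul_inv_rev, mul_smul, ← hus, inv_smul_smul]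
  refine ⟨Φ (x, u, s), ?_, ?_⟩
  · exact hAR (Set.mk_mem_prod hx (hUS (Set.mk_mem_prod hu hsS)))
  · have h4 := M.site_mk (k := k) (x := x) (g := i.1 * u) (by rw [e]; exact hsT)
      (by rw [e]; exact hs0)
    rw [e] at h4
    exact h4

/-- The set of the pairs (point, site) is closed. -/
theorem Marks.isClosed_site (M : Marks V X) (k : ℕ) :
    IsClosed {q : XM X M2 × (G × M2) | M.site k q.1 q.2} := by
  have c1 : Continuous fun q : XM X M2 × (G × M2) => q.2.1⁻¹ • q.1.1 :=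
    (continuous_fst.comp continuous_snd).inv.smul (continuous_fst.comp continuous_fst)
  have c2 : Continuous fun q : XM X M2 × (G × M2) => Real.exp (q.1.2.a - q.2.2.a) :=
    Real.continuous_exp.comp ((M2.continuous_a.comp (continuous_snd.comp continuous_fst)).sub
      (M2.continuous_a.comp (continuous_snd.comp continuous_snd)))
  have c3 : Continuous fun q : XM X M2 × (G × M2) => q.2.2.b :=
    M2.continuous_b.comp (continuous_snd.comp continuous_snd)
  have c4 : Continuous fun q : XM X M2 × (G × M2) => q.1.2.b + (k : ℝ) :=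
    (M2.continuous_b.comp (continuous_snd.comp continuous_fst)).add continuous_const
  exact ((M.box k).isCompact.isClosed.preimage c1).inter
    ((isClosed_eq ((M.cont k).comp c1) c2).inter (isClosed_eq c3 c4))

theorem Marks.isClosed_D (M : Marks V X) :
    IsClosed {q : XM X M2 × (G × M2) | q.2 ∈ M.D q.1} := by
  have h : {q : XM X M2 × (G × M2) | q.2 ∈ M.D q.1} =
      ⋃ k, {q : XM X M2 × (G × M2) | M.site k q.1 q.2} := by
    ext q
    rw [Set.mem_iUnion]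
    rfl
  rw [h]
  refine LocallyFinite.isClosed_iUnion (fun q₀ => ?_) fun k => M.isClosed_site k
  have c : Continuous fun q : XM X M2 × (G × M2) => q.2.2.b - q.1.2.b :=
    (M2.continuous_b.comp (continuous_snd.comp continuous_snd)).sub
      (M2.continuous_b.comp (continuous_snd.comp continuous_fst))
  refine ⟨{q | q.2.2.b - q.1.2.b < q₀.2.2.b - q₀.1.2.b + 1},
    (isOpen_lt c continuous_const).mem_nhds (by simp), ?_⟩
  obtain ⟨n, hn⟩ := exists_nat_gt (q₀.2.2.b - q₀.1.2.b + 1)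
  refine (Set.finite_lt_nat n).subset ?_
  rintro k ⟨q, hq, hq'⟩
  have h2 : q.2.2.b = q.1.2.b + k := hq.2.2
  have h3 : q.2.2.b - q.1.2.b < q₀.2.2.b - q₀.1.2.b + 1 := hq'
  rw [h2] at h3
  have h4 : (k : ℝ) < n := by linarith
  exact_mod_cast h4

theorem Marks.fell (hV : IsOpen V) (h1 : (1 : G) ∈ V) (M : Marks V X) :
    Fell (fun x : XM X M2 => M.D x) := by
  refine ⟨fun x₀ i hi N hN => ?_, fun x₀ C hC hd => ?_⟩
  · obtain ⟨k, hk⟩ := hi
    filter_upwards [M.site_lower hV h1 hk hN] with x hx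
    obtain ⟨j, hj, hj'⟩ := hx
    exact ⟨j, ⟨k, hj'⟩, hj⟩
  · have h2 : ({x₀} : Set (XM X M2)) ×ˢ C ⊆ {q : XM X M2 × (G × M2) | q.2 ∈ M.D q.1}ᶜ := by
      rintro ⟨x, i⟩ ⟨rfl, hi⟩ hD
      exact Set.disjoint_left.1 hd hi hD
    obtain ⟨u, v, hu, -, hxu, hCv, huv⟩ := generalized_tube_lemma isCompact_singleton hC
      M.isClosed_D.isOpen_compl h2
    filter_upwards [hu.mem_nhds (hxu rfl)] with x hx
    refine Set.disjoint_left.2 fun i hi hD => ?_
    exact huv (Set.mk_mem_prod hx (hCv hi)) hD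

/-- The continuous equivariant family of the sets of sites. -/
def Marks.df (hV : IsOpen V) (h1 : (1 : G) ∈ V) (M : Marks V X) :
    Df (G × M2) (XM X M2) (V2 V) where
  D x := ⟨M.D x, M.sep h1 x⟩
  cont := ClV.continuous_iff_fell.2 (M.fell hV h1)
  smul h x := by
    refine ClV.ext (Set.ext fun i => ?_)
    show (∃ k, M.site k (h • x) i) ↔ ∃ k, M.site k x (h⁻¹ * i)
    simp only [M.site_smul]

theorem Marks.mem_df (hV : IsOpen V) (h1 : (1 : G) ∈ V) (M : Marks V X) {x : XM X M2}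
    {i : G × M2} : i ∈ ((M.df hV h1).D x).s ↔ ∃ k, M.site k x i := Iff.rfl

end Pool.Agent.Lib.MP_aa9b81_an.Tv
end
end

section

/-!
# Transversals, part U1: the space of all marked configurations
-/

open scoped Pointwise
open Function Filter Topology

noncomputable section

namespace Pool.Agent.Lib.MP_aa9b81_an.Tv

open Cut Hs Cb

/-- The neighbourhood `V⁻¹ V × {|b| < 1/2}` of `1` in `G × ℝ²`. -/
def V3 {G : Type} [Group G] (V : Set G) : Set (G × M2) := V2 (V⁻¹ * V)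

/-- The places of the sites: `a ≥ 0`, `b ∈ ℕ`. -/
def Pl (G : Type) : Set (G × M2) := {i | 0 ≤ i.2.a ∧ ∃ k : ℕ, i.2.b = k}

/-- The nonempty configurations of sites `(g, a, b)` with `a ≥ 0` and `b ∈ ℕ`. -/
def Conf {G : Type} [Group G] (V : Set G) : Type :=
  {D : ClV (V3 V) // D.s ⊆ Pl G ∧ D.s.Nonempty}

section

variable {G : Type} [Group G] [TopologicalSpace G] {V : Set G}

instance : TopologicalSpace (Conf V) :=
  inferInstanceAs (TopologicalSpace {D : ClV (V3 V) // D.s ⊆ Pl G ∧ D.s.Nonempty})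

/-- The configuration as an element of `Cl`. -/
def Conf.cl (D : Conf V) : ClV (V3 V) := D.1

instance : MulAction G (Conf V) where
  smul g D := ⟨((g, 1) : G × M2) • D.1, by
    refine ⟨fun i hi => ?_, ?_⟩
    · have h2 : ((g, 1) : G × M2)⁻¹ * i ∈ D.1.s := hi
      have h3 := D.2.1 h2
      have h4 : (((g, 1) : G × M2)⁻¹ * i).2 = i.2 := by
        show (1 : M2)⁻¹ * i.2 = i.2
        rw [inv_one, one_mul]
      unfold Pl at h3 ⊢
      rw [Set.mem_ofPred_eq, h4] at h3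
      exact h3
    · obtain ⟨i, hi⟩ := D.2.2
      refine ⟨((g, 1) : G × M2) * i, ?_⟩
      show ((g, 1) : G × M2)⁻¹ * (((g, 1) : G × M2) * i) ∈ D.1.s
      rw [inv_mul_cancel_left]
      exact hi⟩
  one_smul D := Subtype.ext (one_smul (G × M2) D.1)
  mul_smul g h D := Subtype.ext (by
    show ((g * h, 1) : G × M2) • D.1 = ((g, 1) : G × M2) • ((h, 1) : G × M2) • D.1
    rw [smul_smul, Prod.mk_mul_mk, mul_one])

theorem Conf.mem_smul {g : G} {D : Conf V} {i : G × M2} :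
    i ∈ (g • D).cl.s ↔ (g⁻¹ * i.1, i.2) ∈ D.cl.s := by
  show ((g, 1) : G × M2)⁻¹ * i ∈ D.1.s ↔ (g⁻¹ * i.1, i.2) ∈ D.1.s
  have h : ((g, 1) : G × M2)⁻¹ * i = (g⁻¹ * i.1, i.2) :=
    Prod.ext rfl (by
      show (1 : M2)⁻¹ * i.2 = i.2
      rw [inv_one, one_mul])
  rw [h]

theorem Conf.ext {D D' : Conf V} (h : D.cl.s = D'.cl.s) : D = D' :=
  Subtype.ext (ClV.ext h)

theorem Conf.continuous_cl : Continuous (Conf.cl : Conf V → ClV (V3 V)) := continuous_subtype_val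

theorem isClosed_Pl : IsClosed (Pl G) := by
  have h1 : Continuous fun i : G × M2 => i.2.a := M2.continuous_a.comp continuous_snd
  have h2 : Continuous fun i : G × M2 => i.2.b := M2.continuous_b.comp continuous_snd
  have h3 : IsClosed (Set.range ((↑) : ℕ → ℝ)) := Nat.isClosedEmbedding_coe_real.isClosed_range
  have h4 : Pl G = {i : G × M2 | 0 ≤ i.2.a} ∩ (fun i : G × M2 => i.2.b) ⁻¹'
      (Set.range ((↑) : ℕ → ℝ)) := by
    ext i
    constructor
    · rintro ⟨h, k, hk⟩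
      exact ⟨h, k, hk.symm⟩
    · rintro ⟨h, k, hk⟩
      exact ⟨h, k, hk.symm⟩
  rw [h4]
  exact (isClosed_le continuous_const h1).inter (h3.preimage h2)

theorem isClosed_sub_Pl : IsClosed {D : ClV (V3 V) | D.s ⊆ Pl G} := by
  have h : {D : ClV (V3 V) | D.s ⊆ Pl G} = {D : ClV (V3 V) | (D.s ∩ (Pl G)ᶜ).Nonempty}ᶜ := by
    ext D
    rw [Set.mem_compl_iff, Set.mem_ofPred_eq, Set.mem_ofPred_eq, Set.not_nonempty_iff_eq_empty,
      ← Set.sdiff_eq, Set.sdiff_eq_empty]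
  rw [h]
  exact (ClV.isOpen_hit isClosed_Pl.isOpen_compl).isClosed_compl

theorem isOpen_nonempty : IsOpen {D : ClV (V3 V) | D.s.Nonempty} := by
  have h : {D : ClV (V3 V) | D.s.Nonempty} = {D : ClV (V3 V) | (D.s ∩ Set.univ).Nonempty} := by
    ext D
    rw [Set.mem_ofPred_eq, Set.mem_ofPred_eq, Set.inter_univ]
  rw [h]
  exact ClV.isOpen_hit isOpen_univ

end

section

variable {G : Type} [Group G] [TopologicalSpace G] [IsTopologicalGroup G] [T2Space G]
  [LocallyCompactSpace G] {V : Set G}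

theorem isOpen_V3 (hV : IsOpen V) : IsOpen (V3 V) := isOpen_V2 hV.mul_left

theorem one_mem_V3 (h1 : (1 : G) ∈ V) : (1 : G × M2) ∈ V3 V :=
  one_mem_V2 (Set.mem_mul.2 ⟨1, by rwa [Set.mem_inv, inv_one], 1, h1, mul_one 1⟩)

theorem V3_nhds (hV : IsOpen V) (h1 : (1 : G) ∈ V) : V3 V ∈ 𝓝 (1 : G × M2) :=
  (isOpen_V3 hV).mem_nhds (one_mem_V3 h1)

theorem Conf.t2Space (hV : IsOpen V) (h1 : (1 : G) ∈ V) : T2Space (Conf V) := by
  have := ClV.t2Space (G := G × M2) (V3_nhds hV h1)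
  exact inferInstanceAs (T2Space {D : ClV (V3 V) // D.s ⊆ Pl G ∧ D.s.Nonempty})

theorem Conf.locallyCompactSpace (hV : IsOpen V) (h1 : (1 : G) ∈ V) :
    LocallyCompactSpace (Conf V) := by
  have := ClV.t2Space (G := G × M2) (V3_nhds hV h1)
  have := ClV.compactSpace (G := G × M2) (isOpen_V3 hV)
  have h : IsLocallyClosed {D : ClV (V3 V) | D.s ⊆ Pl G ∧ D.s.Nonempty} :=
    isClosed_sub_Pl.isLocallyClosed.inter isOpen_nonempty.isLocallyClosed
  exact h.locallyCompactSpace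

theorem Conf.secondCountableTopology [SecondCountableTopology G] (hV : IsOpen V)
    (h1 : (1 : G) ∈ V) : SecondCountableTopology (Conf V) := by
  have := secondCountable_ClV (G := G × M2) (V3_nhds hV h1)
  have h4 : IsEmbedding (Conf.cl : Conf V → ClV (V3 V)) := IsEmbedding.subtypeVal
  exact h4.isInducing.secondCountableTopology

theorem Conf.continuousSMul (hV : IsOpen V) (h1 : (1 : G) ∈ V) : ContinuousSMul G (Conf V) := by
  have := ClV.continuousSMul (G := G × M2) (V3_nhds hV h1)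
  refine ⟨Continuous.subtype_mk ?_ _⟩
  have h2 : Continuous fun q : G × Conf V => ((q.1, 1) : G × M2) :=
    continuous_fst.prodMk continuous_const
  exact h2.smul (Conf.continuous_cl.comp continuous_snd)

/-- The site `(1, a, k)`, `0 ≤ a ≤ A`, is in the configuration. -/
def Conf.T (V : Set G) (k : ℕ) (A : ℝ) : Set (Conf V) :=
  {D | ∃ a : ℝ, 0 ≤ a ∧ a ≤ A ∧ ((1, M2.mk a k) : G × M2) ∈ D.cl.s}

theorem Conf.isCompact_T (hV : IsOpen V) (h1 : (1 : G) ∈ V) (k : ℕ) (A : ℝ) :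
    IsCompact (Conf.T V k A) := by
  have := ClV.t2Space (G := G × M2) (V3_nhds hV h1)
  have := ClV.compactSpace (G := G × M2) (isOpen_V3 hV)
  have h4 : IsEmbedding (Conf.cl : Conf V → ClV (V3 V)) := IsEmbedding.subtypeVal
  rw [h4.isCompact_iff]
  let K : Set (G × M2) := (fun a : ℝ => ((1, M2.mk a k) : G × M2)) '' Set.Icc 0 A
  have hK : IsCompact K := isCompact_Icc.image
    (continuous_const.prodMk (M2.continuous_mk continuous_id continuous_const))
  have h2 : Conf.cl '' Conf.T V k A = {D : ClV (V3 V) | D.s ⊆ Pl G} ∩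
      {D : ClV (V3 V) | Disjoint K D.s}ᶜ := by
    ext D
    constructor
    · rintro ⟨D, ⟨a, h0, hA, ha⟩, rfl⟩
      refine ⟨D.2.1, fun hd => ?_⟩
      exact Set.disjoint_left.1 hd ⟨a, ⟨h0, hA⟩, rfl⟩ ha
    · rintro ⟨hD, hn⟩
      rw [Set.mem_compl_iff, Set.mem_ofPred_eq, Set.not_disjoint_iff] at hn
      obtain ⟨-, ⟨a, ⟨h0, hA⟩, rfl⟩, ha⟩ := hn
      exact ⟨⟨D, hD, ⟨_, ha⟩⟩, ⟨a, h0, hA, ha⟩, rfl⟩
  rw [h2]
  exact (isClosed_sub_Pl.inter (ClV.isOpen_miss hK).isClosed_compl).isCompact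

theorem Conf.isBox (hV : IsOpen V) (h1 : (1 : G) ∈ V) (k : ℕ) (A : ℝ) :
    LC.IsBox V (Conf.T V k A) where
  isCompact := Conf.isCompact_T hV h1 k A
  inj v hv v' hv' D hD D' hD' h := by
    obtain ⟨a, -, -, ha⟩ := hD
    obtain ⟨a', -, -, ha'⟩ := hD'
    have h2 : ((v, M2.mk a k) : G × M2) ∈ (v • D).cl.s :=
      Conf.mem_smul.2 (by rw [inv_mul_cancel]; exact ha)
    have h3 : ((v', M2.mk a' k) : G × M2) ∈ (v • D).cl.s := by
      rw [h]
      exact Conf.mem_smul.2 (by rw [inv_mul_cancel]; exact ha')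
    have h4 : ((v, M2.mk a k) : G × M2)⁻¹ * ((v', M2.mk a' k) : G × M2) ∈ V3 V := by
      refine ⟨?_, ?_⟩
      · show v⁻¹ * v' ∈ V⁻¹ * V
        exact Set.mul_mem_mul (Set.inv_mem_inv.2 hv) hv'
      · show |((M2.mk a k)⁻¹ * M2.mk a' k).b| < 1 / 2
        rw [M2.b_mul, M2.b_inv, M2.b_mk, M2.b_mk, neg_add_cancel, abs_zero]
        norm_num
    have h5 := (v • D).cl.sep _ h2 _ h3 h4
    have h6 : v = v' := congrArg Prod.fst h5
    refine ⟨h6, ?_⟩
    rw [← h6] at h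
    exact smul_left_cancel v h

/-- Two sites with `b`-coordinates in `ℕ` at distance `< 1` have the same `b`-coordinate. -/
theorem nat_eq_of_abs_lt {k l : ℕ} (h : |(l : ℝ) - k| < 1) : l = k := by
  by_contra hne
  have h4 : (1 : ℤ) ≤ |(l : ℤ) - (k : ℤ)| := by
    refine Int.one_le_abs (sub_ne_zero.2 ?_)
    exact_mod_cast hne
  have h3 : (1 : ℝ) ≤ |((l : ℤ) : ℝ) - ((k : ℤ) : ℝ)| := by exact_mod_cast h4
  have h5 : |(l : ℝ) - k| = |((l : ℤ) : ℝ) - ((k : ℤ) : ℝ)| := by norm_num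
  rw [h5] at h
  linarith

/-- Near a configuration with the site `(1, a, k)` every configuration is `u s` with `u` near `1`
and `s` in the box. -/
theorem Conf.near {k : ℕ} {a A : ℝ} (haA : a < A) {D : Conf V}
    (ha : ((1, M2.mk a k) : G × M2) ∈ D.cl.s) {U : Set G} (hU : U ∈ 𝓝 (1 : G)) :
    ∀ᶠ D' in 𝓝 D, ∃ u ∈ U, u⁻¹ • D' ∈ Conf.T V k A := by
  have hfell := ClV.continuous_iff_fell.1 (Conf.continuous_cl (V := V))
  have c1 : Continuous fun i : G × M2 => i.2.a := M2.continuous_a.comp continuous_snd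
  have c2 : Continuous fun i : G × M2 => i.2.b := M2.continuous_b.comp continuous_snd
  have hN : {i : G × M2 | i.1 ∈ U ∧ i.2.a < A ∧ |i.2.b - k| < 1} ∈
      𝓝 ((1, M2.mk a k) : G × M2) := by
    refine inter_mem (continuous_fst.continuousAt hU) (inter_mem ?_ ?_)
    · exact (isOpen_lt c1 continuous_const).mem_nhds haA
    · refine (isOpen_lt ((c2.sub continuous_const).abs) continuous_const).mem_nhds ?_
      show |(M2.mk a k).b - k| < 1
      rw [M2.b_mk, sub_self, abs_zero]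
      exact zero_lt_one
  filter_upwards [hfell.lower D _ ha _ hN] with D' hD'
  obtain ⟨i, hi, hiU, hia, hib⟩ := hD'
  obtain ⟨h0, l, hl⟩ := D'.2.1 hi
  rw [hl] at hib
  have hlk := nat_eq_of_abs_lt hib
  subst hlk
  refine ⟨i.1, hiU, i.2.a, h0, hia.le, ?_⟩
  rw [Conf.mem_smul, inv_inv]
  have h5 : (i.1 * (1 : G), M2.mk i.2.a l) = i :=
    Prod.ext (mul_one _) (M2.ext rfl hl.symm)
  show (i.1 * (1 : G), M2.mk i.2.a l) ∈ D'.cl.s
  rw [h5]
  exact hi

theorem Conf.core {k : ℕ} {a A : ℝ} (haA : a < A) {D : Conf V}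
    (ha : ((1, M2.mk a k) : G × M2) ∈ D.cl.s) : D ∈ LC.core G (Conf.T V k A) := by
  obtain ⟨h0, -⟩ := D.2.1 ha
  refine ⟨⟨a, h0, haA.le, ha⟩, fun U hU => ?_⟩
  filter_upwards [Conf.near haA ha hU] with D' hD'
  obtain ⟨u, hu, hu'⟩ := hD'
  exact ⟨u, hu, _, hu', smul_inv_smul u D'⟩

/-- Every configuration has a site, which can be moved to `1`. -/
theorem Conf.exists_site (D : Conf V) :
    ∃ (g : G) (k : ℕ) (a : ℝ), ((1, M2.mk a k) : G × M2) ∈ (g • D).cl.s := by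
  obtain ⟨i, hi⟩ := D.2.2
  obtain ⟨h0, l, hl⟩ := D.2.1 hi
  refine ⟨i.1⁻¹, l, i.2.a, ?_⟩
  rw [Conf.mem_smul, inv_inv]
  have h5 : (i.1 * (1 : G), M2.mk i.2.a l) = i :=
    Prod.ext (mul_one _) (M2.ext rfl hl.symm)
  show (i.1 * (1 : G), M2.mk i.2.a l) ∈ D.cl.s
  rw [h5]
  exact hi

end

end Pool.Agent.Lib.MP_aa9b81_an.Tv
end
end
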