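import Pool.Agent.Lib.MP_aa9b81_an.Tv.H1
import Pool.Agent.Lib.MP_aa9b81_an.Mg.G048

section

/-!
# Transversals, part U2: every space with boxes is a closed invariant subset of `Conf V`
-/

open scoped Pointwise
open Function Filter Topology

noncomputable section

namespace Pool.Agent.Lib.MP_aa9b81_an.Tv

open Cut Hs Cb

section

variable {G X : Type} [Group G] [TopologicalSpace G] [IsTopologicalGroup G]
  [LocallyCompactSpace G] [TopologicalSpace X] [T2Space X] [LocallyCompactSpace X]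
  [MulAction G X] [ContinuousSMul G X] {V : Set G}

/-- Marks with bumps in arbitrarily small neighbourhoods (the proof is that of `exists_marks_good`). -/
theorem exists_marks_bump [SecondCountableTopology X] (hV : IsOpen V) (h1 : (1 : G) ∈ V)
    (hX : LC.HasBoxes V fun _ : Set X => True) :
    ∃ (M : Marks V X) (B S : ℕ → Set X), (∀ n, S n ⊆ B n) ∧
      (∀ x : X, ∃ (n : ℕ) (g : G), g • x ∈ S n) ∧
      ∀ n, ∀ t ∈ S n, ∀ O : Set X, IsOpen O → t ∈ O →
        ∃ k, M.T k = B n ∧ M.m k t = 1 ∧ ∀ z ∉ O, M.m k z = 0 := by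
  classical
  rcases isEmpty_or_nonempty X with hE | hE
  · have h0 : LC.IsBox V (∅ : Set X) :=
      ⟨isCompact_empty, fun v _ v' _ t ht => (Set.notMem_empty t ht).elim⟩
    refine ⟨⟨fun _ => ∅, fun _ _ => 0, fun _ => h0, fun _ => continuous_const, fun _ _ => le_rfl,
      fun _ _ => zero_le_one, fun _ t ht => (Set.notMem_empty t ht).elim⟩, fun _ => ∅, fun _ => ∅,
      fun _ => le_rfl, fun x => (hE.false x).elim, fun _ t ht => (Set.notMem_empty t ht).elim⟩
  choose T N K hT hNo hNc hKc hKN hev using H1_local hV h1 hX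
  obtain ⟨t, htc, ht⟩ := TopologicalSpace.countable_cover_nhds hev
  have htne : t.Nonempty := by
    obtain ⟨x⟩ := hE
    have hx : x ∈ ⋃ y ∈ t, {z : X | ∃ g : G, g • z ∈ LC.core G (T y) ∧
        ∀ᶠ w in 𝓝 (g • z), w ∈ T y → w ∈ K y} := by
      rw [ht]
      exact Set.mem_univ x
    obtain ⟨y, hy, -⟩ := Set.mem_iUnion₂.1 hx
    exact ⟨y, hy⟩
  obtain ⟨a, rfl⟩ := htc.exists_eq_range htne
  have hb := TopologicalSpace.isBasis_countableBasis X
  have hbc : Countable (TopologicalSpace.countableBasis X) :=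
    (TopologicalSpace.countable_countableBasis X).to_subtype
  have hbne : Nonempty (TopologicalSpace.countableBasis X) := by
    obtain ⟨x⟩ := hE
    obtain ⟨U, hU, -⟩ := hb.exists_subset_of_mem_open (Set.mem_univ x) isOpen_univ
    exact ⟨⟨U, hU⟩⟩
  have hm : ∀ i : ℕ × TopologicalSpace.countableBasis X × TopologicalSpace.countableBasis X,
      ∃ m : X → ℝ, Continuous m ∧ (∀ x, 0 ≤ m x) ∧ (∀ x, m x ≤ 1) ∧
        (∀ t ∈ T (a i.1), 0 < m t → t ∈ LC.core G (T (a i.1))) ∧
        (closure (i.2.1 : Set X) ⊆ i.2.2 → (i.2.2 : Set X) ⊆ N (a i.1) →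
          (∀ x ∈ (i.2.1 : Set X), m x = 1) ∧ ∀ x ∉ (i.2.2 : Set X), m x = 0) := by
    intro i
    by_cases hi : closure (i.2.1 : Set X) ⊆ i.2.2 ∧ (i.2.2 : Set X) ⊆ N (a i.1)
    · have hop : IsOpen (i.2.2 : Set X) := hb.isOpen i.2.2.2
      obtain ⟨f, hf0, hf1, hf⟩ := exists_continuous_zero_one_of_isClosed
        (s := (i.2.2 : Set X)ᶜ) (t := closure (i.2.1 : Set X)) hop.isClosed_compl
        isClosed_closure (Set.disjoint_left.2 fun x hx hx' => hx (hi.1 hx'))
      refine ⟨f, f.continuous, fun x => (hf x).1, fun x => (hf x).2, fun y hy hfy => ?_,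
        fun _ _ => ⟨fun x hx => hf1 (subset_closure hx), fun x hx => hf0 hx⟩⟩
      have h6 : y ∈ (i.2.2 : Set X) := by
        by_contra hn
        have h7 : f y = 0 := hf0 hn
        rw [h7] at hfy
        exact lt_irrefl _ hfy
      exact hNc _ y (hi.2 h6) hy
    · exact ⟨fun _ => 0, continuous_const, fun _ => le_rfl, fun _ => zero_le_one,
        fun y _ h => (lt_irrefl _ h).elim, fun h h' => (hi ⟨h, h'⟩).elim⟩
  choose m hmc hm0 hm1 hmT hmS using hm
  obtain ⟨f, hf⟩ := exists_surjective_nat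
    (ℕ × TopologicalSpace.countableBasis X × TopologicalSpace.countableBasis X)
  refine ⟨⟨fun k => T (a (f k).1), fun k => m (f k), fun k => hT _, fun k => hmc _,
    fun k => hm0 _, fun k => hm1 _, fun k => hmT _⟩, fun n => T (a n),
    fun n => T (a n) ∩ K (a n), fun n => Set.inter_subset_left, fun x => ?_,
    fun n y hy O hO hyO => ?_⟩
  rotate_left
  · have h8 : y ∈ N (a n) ∩ O := ⟨hKN _ hy.2, hyO⟩
    obtain ⟨U2, hU2, hyU2, hU2s⟩ := hb.exists_subset_of_mem_open h8 ((hNo _).inter hO)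
    obtain ⟨C, hC, hCc, hCU⟩ := exists_mem_nhds_isClosed_subset
      ((hb.isOpen hU2).mem_nhds hyU2)
    obtain ⟨U1, hU1, hyU1, hU1s⟩ := hb.exists_subset_of_mem_open (mem_interior_iff_mem_nhds.2 hC)
      isOpen_interior
    have h9 : closure U1 ⊆ U2 :=
      (closure_minimal (hU1s.trans interior_subset) hCc).trans hCU
    obtain ⟨k, hk⟩ := hf (n, ⟨U1, hU1⟩, ⟨U2, hU2⟩)
    obtain ⟨h10, h11⟩ := hmS (n, ⟨U1, hU1⟩, ⟨U2, hU2⟩) h9 fun z hz => (hU2s hz).1
    refine ⟨k, ?_, ?_, ?_⟩
    · show T (a (f k).1) = T (a n)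
      rw [hk]
    · show m (f k) y = 1
      rw [hk]
      exact h10 y hyU1
    · intro z hz
      show m (f k) z = 0
      rw [hk]
      exact h11 z fun h => hz (hU2s h).2
  · have hx : x ∈ ⋃ y ∈ Set.range a, {z : X | ∃ g : G, g • z ∈ LC.core G (T y) ∧
        ∀ᶠ w in 𝓝 (g • z), w ∈ T y → w ∈ K y} := by
      rw [ht]
      exact Set.mem_univ x
    obtain ⟨y, ⟨n, rfl⟩, g, hg, hg'⟩ := Set.mem_iUnion₂.1 hx
    exact ⟨n, g, hg.1, hg'.self_of_nhds hg.1⟩

end

section

variable {G X : Type} [Group G] [TopologicalSpace G] [TopologicalSpace X] [MulAction G X]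
  {V : Set G}

/-- The sites are separated for `V⁻¹ V`. -/
theorem Marks.site_unique' (M : Marks V X) {k l : ℕ} {x : XM X M2}
    {i j : G × M2} (hi : M.site k x i) (hj : M.site l x j) (h : i⁻¹ * j ∈ V3 V) : i = j := by
  have hb : |((i⁻¹ * j : G × M2)).2.b| < 1 / 2 := h.2
  have hb' : ((i⁻¹ * j : G × M2)).2.b = (l : ℝ) - k := by
    show (i.2⁻¹ * j.2).b = _
    rw [M2.b_mul, M2.b_inv, hi.2.2, hj.2.2]
    ring
  rw [hb'] at hb
  have hkl : l = k := nat_eq_of_abs_lt (hb.trans (by norm_num))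
  subst hkl
  obtain ⟨v, hv, v', hv', hvv⟩ := Set.mem_mul.1 h.1
  have hv2 : v⁻¹ ∈ V := Set.mem_inv.1 hv
  have hvv' : v * v' = i.1⁻¹ * j.1 := hvv
  have h2 : v' • (j.1⁻¹ • x.1) = v⁻¹ • (i.1⁻¹ • x.1) := by
    have h3 : v' = v⁻¹ * (i.1⁻¹ * j.1) := by rw [← hvv', inv_mul_cancel_left]
    rw [h3, mul_smul, mul_smul, smul_inv_smul]
  have h3 := (M.box l).inj _ hv' _ hv2 _ hj.1 _ hi.1 h2
  have hg : i.1 = j.1 := by
    have h4 : v * v' = 1 := by rw [h3.1, mul_inv_cancel]
    rw [hvv', inv_mul_eq_one] at h4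
    exact h4
  refine Prod.ext hg (M2.ext ?_ ?_)
  · rw [hi.a_eq, hj.a_eq, hg]
  · rw [hi.2.2, hj.2.2]

theorem Marks.sep' (M : Marks V X) (x : XM X M2) : Cb.Sep (V3 V) (M.D x) := by
  rintro i ⟨k, hi⟩ j ⟨l, hj⟩ h
  exact M.site_unique' hi hj h

theorem Marks.D_sub_Pl (M : Marks V X) (x : X) : M.D ((x, 1) : XM X M2) ⊆ Pl G := by
  rintro i ⟨k, hi⟩
  refine ⟨?_, k, ?_⟩
  · have h2 : M.m k (i.1⁻¹ • x) = Real.exp (0 - i.2.a) := hi.2.1
    have h3 := M.le_one k (i.1⁻¹ • x)
    rw [h2] at h3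
    have h6 : Real.exp (0 - i.2.a) ≤ Real.exp 0 := by rw [Real.exp_zero]; exact h3
    have h7 := Real.exp_le_exp.1 h6
    linarith
  · have h2 : i.2.b = (0 : ℝ) + k := hi.2.2
    rw [h2, zero_add]

/-- The point `(x, 1)`. -/
def xm (x : X) : XM X M2 := (x, 1)

/-- The set of the sites as an element of `Cl`. -/
def Marks.clD (M : Marks V X) (x : XM X M2) : ClV (V3 V) := ⟨M.D x, M.sep' x⟩

/-- The configuration of the sites of a point. -/
def Marks.conf (M : Marks V X) (hM : ∀ x : X, (M.D ((x, 1) : XM X M2)).Nonempty) (x : X) :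
    Conf V := ⟨⟨M.D ((x, 1) : XM X M2), M.sep' _⟩, M.D_sub_Pl x, hM x⟩

theorem Marks.conf_s (M : Marks V X) (hM : ∀ x : X, (M.D ((x, 1) : XM X M2)).Nonempty) (x : X) :
    (M.conf hM x).cl.s = M.D ((x, 1) : XM X M2) := rfl

theorem Marks.conf_smul (M : Marks V X) (hM : ∀ x : X, (M.D ((x, 1) : XM X M2)).Nonempty)
    (g : G) (x : X) : M.conf hM (g • x) = g • M.conf hM x := by
  refine Conf.ext (Set.ext fun i => ?_)
  rw [Conf.mem_smul, conf_s, conf_s]
  have h2 : xm (g • x) = ((g, 1) : G × M2) • xm x := Prod.ext rfl (mul_one (1 : M2)).symm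
  have h3 : ((g, 1) : G × M2)⁻¹ * i = (g⁻¹ * i.1, i.2) :=
    Prod.ext rfl (by
      show (1 : M2)⁻¹ * i.2 = i.2
      rw [inv_one, one_mul])
  show (∃ k, M.site k (xm (g • x)) i) ↔ ∃ k, M.site k (xm x) _
  rw [h2, ← h3]
  simp only [M.site_smul]

end

section

variable {G X : Type} [Group G] [TopologicalSpace G] [IsTopologicalGroup G]
  [LocallyCompactSpace G] [T2Space G] [TopologicalSpace X] [T2Space X] [LocallyCompactSpace X]
  [MulAction G X] [ContinuousSMul G X] {V : Set G}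

theorem Marks.continuous_conf (hV : IsOpen V) (h1 : (1 : G) ∈ V) (M : Marks V X)
    (hM : ∀ x : X, (M.D ((x, 1) : XM X M2)).Nonempty) : Continuous (M.conf hM) := by
  have h2 : Continuous M.clD := ClV.continuous_iff_fell.2 (M.fell hV h1)
  have h3 : Continuous (xm : X → XM X M2) := continuous_id.prodMk continuous_const
  exact Continuous.subtype_mk (h2.comp h3) _

/-- A compact set of configurations meets a compact set of places. -/
theorem Conf.exists_compact {K : Set (Conf V)}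
    (hK : IsCompact K) : ∃ N : Set (G × M2), IsCompact N ∧ ∀ D ∈ K, (D.cl.s ∩ N).Nonempty := by
  have hfell := ClV.continuous_iff_fell.1 (Conf.continuous_cl (V := V))
  refine hK.induction_on (p := fun K => ∃ N : Set (G × M2), IsCompact N ∧
    ∀ D ∈ K, (D.cl.s ∩ N).Nonempty) ⟨∅, isCompact_empty, fun D hD => hD.elim⟩ ?_ ?_ ?_
  · rintro s t hst ⟨N, hN, h⟩
    exact ⟨N, hN, fun D hD => h D (hst hD)⟩
  · rintro s t ⟨N, hN, h⟩ ⟨N', hN', h'⟩
    refine ⟨N ∪ N', hN.union hN', ?_⟩
    rintro D (hD | hD)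
    · exact (h D hD).mono (Set.inter_subset_inter_right _ Set.subset_union_left)
    · exact (h' D hD).mono (Set.inter_subset_inter_right _ Set.subset_union_right)
  · intro D hD
    obtain ⟨i, hi⟩ := D.2.2
    obtain ⟨N, hN, hNi⟩ := exists_compact_mem_nhds i
    refine ⟨_, mem_nhdsWithin_of_mem_nhds (hfell.lower D i hi N hNi), N, hN, fun D' hD' => hD'⟩

theorem Marks.isProperMap_conf (hV : IsOpen V) (h1 : (1 : G) ∈ V) (M : Marks V X)
    (hM : ∀ x : X, (M.D ((x, 1) : XM X M2)).Nonempty) : IsProperMap (M.conf hM) := by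
  have := Conf.t2Space hV h1
  have := Conf.locallyCompactSpace hV h1
  have hc := M.continuous_conf hV h1 hM
  refine isProperMap_iff_isCompact_preimage.2 ⟨hc, fun K hK => ?_⟩
  obtain ⟨N, hN, hNK⟩ := Conf.exists_compact hK
  have hNb : BddAbove ((fun i : G × M2 => i.2.b) '' N) :=
    (hN.image (M2.continuous_b.comp continuous_snd)).bddAbove
  obtain ⟨b, hb⟩ := hNb
  obtain ⟨n, hn⟩ := exists_nat_gt b
  have hcpt : IsCompact (⋃ k ∈ Finset.range n, (fun q : G × X => q.1 • q.2) ''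
      ((Prod.fst '' N) ×ˢ M.T k)) :=
    (Finset.range n).isCompact_biUnion fun k _ =>
      ((hN.image continuous_fst).prod (M.box k).isCompact).image continuous_smul
  refine hcpt.of_isClosed_subset (hK.isClosed.preimage hc) fun x hx => ?_
  obtain ⟨i, ⟨k, hi⟩, hiN⟩ := hNK _ hx
  have h2 : i.2.b = (0 : ℝ) + k := hi.2.2
  have h3 : i.2.b ≤ b := hb ⟨i, hiN, rfl⟩
  have h4 : k < n := by
    have h5 : (k : ℝ) < n := by linarith
    exact_mod_cast h5
  refine Set.mem_iUnion₂.2 ⟨k, Finset.mem_range.2 h4, (i.1, i.1⁻¹ • x),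
    ⟨⟨i, hiN, rfl⟩, hi.1⟩, smul_inv_smul _ _⟩

/-- Every space with boxes is a closed invariant subset of the space of configurations. -/
theorem exists_embedding_conf [SecondCountableTopology X] (hV : IsOpen V) (h1 : (1 : G) ∈ V)
    (hX : LC.HasBoxes V fun _ : Set X => True) :
    ∃ f : X → Conf V, IsClosedEmbedding f ∧ ∀ (g : G) x, f (g • x) = g • f x := by
  obtain ⟨M, B, S, hSB, hc, hb⟩ := exists_marks_bump hV h1 hX
  have hsite : ∀ (x : X) (g : G) (k : ℕ), g • x ∈ M.T k → M.m k (g • x) = 1 →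
      M.site k (xm x) ((g⁻¹, M2.mk 0 k) : G × M2) := by
    intro x g k hk hk1
    refine ⟨?_, ?_, ?_⟩
    · show (g⁻¹)⁻¹ • x ∈ M.T k
      rw [inv_inv]
      exact hk
    · show M.m k ((g⁻¹)⁻¹ • x) = Real.exp (0 - 0)
      rw [inv_inv, hk1, sub_self, Real.exp_zero]
    · show (k : ℝ) = 0 + k
      rw [zero_add]
  have hback : ∀ (y : X) (g : G) (k : ℕ), ((g⁻¹, M2.mk 0 k) : G × M2) ∈ M.D (xm y) →
      0 < M.m k (g • y) := by
    rintro y g k ⟨l, hl⟩
    have h2 : (k : ℝ) = (0 : ℝ) + l := hl.2.2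
    have h3 : k = l := by
      rw [zero_add] at h2
      exact_mod_cast h2
    subst h3
    have h4 := hl.pos
    have h5 : ((g⁻¹, M2.mk 0 k) : G × M2).1⁻¹ • (xm y).1 = g • y := by
      show (g⁻¹)⁻¹ • y = g • y
      rw [inv_inv]
    rw [h5] at h4
    exact h4
  have hM : ∀ x : X, (M.D (xm x)).Nonempty := by
    intro x
    obtain ⟨n, g, hg⟩ := hc x
    obtain ⟨k, hk, hk1, -⟩ := hb n _ hg Set.univ isOpen_univ (Set.mem_univ _)
    exact ⟨_, k, hsite x g k (by rw [hk]; exact hSB n hg) hk1⟩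
  have := Conf.t2Space hV h1
  have hp := M.isProperMap_conf hV h1 hM
  refine ⟨M.conf hM, IsClosedEmbedding.of_continuous_injective_isClosedMap hp.continuous ?_
    hp.isClosedMap, M.conf_smul hM⟩
  intro x y hxy
  have hD : M.D (xm x) = M.D (xm y) := congrArg (fun D : Conf V => D.cl.s) hxy
  obtain ⟨n, g, hg⟩ := hc x
  by_contra hne
  have hgne : g • x ≠ g • y := fun h => hne (smul_left_cancel g h)
  obtain ⟨k, hk, hk1, hk0⟩ := hb n _ hg {g • y}ᶜ isOpen_compl_singleton hgne
  have h6 : ((g⁻¹, M2.mk 0 k) : G × M2) ∈ M.D (xm y) := by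
    rw [← hD]
    exact ⟨k, hsite x g k (by rw [hk]; exact hSB n hg) hk1⟩
  have h7 := hback y g k h6
  rw [hk0 (g • y) (fun h => h rfl)] at h7
  exact lt_irrefl _ h7

end

end Pool.Agent.Lib.MP_aa9b81_an.Tv
end
end

section

/-!
# Transversals, part U3: one space which contains all closed invariant sets of configurations
-/

open scoped Pointwise
open Function Filter Topology

noncomputable section

namespace Pool.Agent.Lib.MP_aa9b81_an.Tv

open Cut Hs Cb

/-- The pairs `(s, D)` with `s ∈ {0,1}^ℕ` such that the orbit of `D` does not meet `O i` if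
`s i = 1`. -/
def Xu {G : Type} [Group G] [TopologicalSpace G] (V : Set G) (O : ℕ → Set (Conf V)) : Type :=
  {q : (ℕ → Bool) × Conf V // ∀ i, q.1 i = true → ∀ g : G, g • q.2 ∉ O i}

section

variable {G : Type} [Group G] [TopologicalSpace G] {V : Set G} {O : ℕ → Set (Conf V)}

instance : TopologicalSpace (Xu V O) :=
  inferInstanceAs (TopologicalSpace
    {q : (ℕ → Bool) × Conf V // ∀ i, q.1 i = true → ∀ g : G, g • q.2 ∉ O i})

instance : MulAction G (Xu V O) where
  smul g q := ⟨(q.1.1, g • q.1.2), fun i hi h => by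
    have h2 : h • g • q.1.2 ∉ O i := by
      rw [smul_smul]
      exact q.2 i hi (h * g)
    exact h2⟩
  one_smul q := Subtype.ext (Prod.ext rfl (one_smul G q.1.2))
  mul_smul g h q := Subtype.ext (Prod.ext rfl (mul_smul g h q.1.2))

/-- The parameter. -/
def Xu.par (q : Xu V O) : ℕ → Bool := q.1.1

/-- The configuration. -/
def Xu.conf (q : Xu V O) : Conf V := q.1.2

theorem Xu.par_smul (g : G) (q : Xu V O) : (g • q).par = q.par := rfl

theorem Xu.conf_smul (g : G) (q : Xu V O) : (g • q).conf = g • q.conf := rfl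

theorem Xu.ext {q q' : Xu V O} (h : q.par = q'.par) (h' : q.conf = q'.conf) : q = q' :=
  Subtype.ext (Prod.ext h h')

theorem Xu.continuous_par : Continuous (Xu.par : Xu V O → ℕ → Bool) :=
  continuous_fst.comp continuous_subtype_val

theorem Xu.continuous_conf : Continuous (Xu.conf : Xu V O → Conf V) :=
  continuous_snd.comp continuous_subtype_val

end

section

variable {G : Type} [Group G] [TopologicalSpace G] [IsTopologicalGroup G] [T2Space G]
  [LocallyCompactSpace G] {V : Set G} {O : ℕ → Set (Conf V)}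

theorem Xu.isClosed (hV : IsOpen V) (h1 : (1 : G) ∈ V) (hO : ∀ i, IsOpen (O i)) :
    IsClosed {q : (ℕ → Bool) × Conf V | ∀ i, q.1 i = true → ∀ g : G, g • q.2 ∉ O i} := by
  have := Conf.continuousSMul hV h1
  have h : {q : (ℕ → Bool) × Conf V | ∀ i, q.1 i = true → ∀ g : G, g • q.2 ∉ O i} =
      ⋂ (i : ℕ) (g : G), ({q : (ℕ → Bool) × Conf V | q.1 i = true} ∩
        {q : (ℕ → Bool) × Conf V | g • q.2 ∈ O i})ᶜ := by
    ext q
    simp only [Set.mem_iInter]
    constructor
    · rintro h i g ⟨h2, h3⟩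
      exact h i h2 g h3
    · intro h i h2 g h3
      exact h i g ⟨h2, h3⟩
  rw [h]
  refine isClosed_iInter fun i => isClosed_iInter fun g => IsOpen.isClosed_compl (IsOpen.inter ?_ ?_)
  · have h2 : Continuous fun q : (ℕ → Bool) × Conf V => q.1 i :=
      (continuous_apply i).comp continuous_fst
    exact (isOpen_discrete {true}).preimage h2
  · exact (hO i).preimage (continuous_snd.const_smul g)

theorem Xu.isClosedEmbedding (hV : IsOpen V) (h1 : (1 : G) ∈ V) (hO : ∀ i, IsOpen (O i)) :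
    IsClosedEmbedding (Subtype.val : Xu V O → (ℕ → Bool) × Conf V) :=
  (Xu.isClosed hV h1 hO).isClosedEmbedding_subtypeVal

theorem Xu.t2Space (hV : IsOpen V) (h1 : (1 : G) ∈ V) : T2Space (Xu V O) := by
  have := Conf.t2Space hV h1
  exact inferInstanceAs (T2Space
    {q : (ℕ → Bool) × Conf V // ∀ i, q.1 i = true → ∀ g : G, g • q.2 ∉ O i})

theorem Xu.locallyCompactSpace (hV : IsOpen V) (h1 : (1 : G) ∈ V) (hO : ∀ i, IsOpen (O i)) :
    LocallyCompactSpace (Xu V O) := by
  have := Conf.locallyCompactSpace hV h1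
  exact (Xu.isClosedEmbedding hV h1 hO).locallyCompactSpace

theorem Xu.secondCountableTopology [SecondCountableTopology G] (hV : IsOpen V)
    (h1 : (1 : G) ∈ V) : SecondCountableTopology (Xu V O) := by
  have := Conf.secondCountableTopology hV h1
  have h4 : IsEmbedding (Subtype.val : Xu V O → (ℕ → Bool) × Conf V) := IsEmbedding.subtypeVal
  exact h4.isInducing.secondCountableTopology

theorem Xu.continuousSMul (hV : IsOpen V) (h1 : (1 : G) ∈ V) : ContinuousSMul G (Xu V O) := by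
  have := Conf.continuousSMul hV h1
  refine ⟨Continuous.subtype_mk ?_ _⟩
  exact (Xu.continuous_par.comp continuous_snd).prodMk
    (continuous_fst.smul (Xu.continuous_conf.comp continuous_snd))

/-- The space has boxes. -/
theorem Xu.hasBoxes (hV : IsOpen V) (h1 : (1 : G) ∈ V) (hO : ∀ i, IsOpen (O i)) :
    LC.HasBoxes V fun _ : Set (Xu V O) => True := by
  intro q
  obtain ⟨g, k, a, ha⟩ := q.conf.exists_site
  refine ⟨Xu.conf ⁻¹' Conf.T V k (a + 1), ⟨?_, ?_⟩, trivial, g, ?_, ?_⟩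
  · have := Conf.t2Space hV h1
    have h2 : IsCompact ((Set.univ : Set (ℕ → Bool)) ×ˢ Conf.T V k (a + 1)) :=
      isCompact_univ.prod (Conf.isCompact_T hV h1 k (a + 1))
    have h3 := (Xu.isClosedEmbedding (O := O) hV h1 hO).isCompact_preimage h2
    have h4 : (Subtype.val : Xu V O → (ℕ → Bool) × Conf V) ⁻¹'
        ((Set.univ : Set (ℕ → Bool)) ×ˢ Conf.T V k (a + 1)) =
        Xu.conf ⁻¹' Conf.T V k (a + 1) := by
      ext q
      exact ⟨fun h => h.2, fun h => ⟨Set.mem_univ _, h⟩⟩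
    rwa [h4] at h3
  · intro v hv v' hv' t ht t' ht' h
    have h2 : v • t.conf = v' • t'.conf := congrArg Xu.conf h
    obtain ⟨h3, h4⟩ := (Conf.isBox hV h1 k (a + 1)).inj v hv v' hv' _ ht _ ht' h2
    have h5 : (v • t).par = (v' • t').par := congrArg Xu.par h
    exact ⟨h3, Xu.ext h5 h4⟩
  · obtain ⟨h0, -⟩ := (g • q.conf).2.1 ha
    exact ⟨a, h0, by linarith, ha⟩
  · intro U hU
    have h2 := Conf.near (A := a + 1) (by linarith : a < a + 1) ha hU
    have h3 : (g • q).conf = g • q.conf := rfl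
    rw [← h3] at h2
    filter_upwards [Xu.continuous_conf.continuousAt.eventually h2] with q' hq'
    obtain ⟨u, hu, hu'⟩ := hq'
    exact ⟨u, hu, u⁻¹ • q', hu', smul_inv_smul u q'⟩

/-- The points with the first `n` parameters of `s`. -/
def Xu.cyl (O : ℕ → Set (Conf V)) (s : ℕ → Bool) (n : ℕ) : InvSet G (Xu V O) where
  carrier := {q | ∀ i < n, q.par i = s i}
  inv _ _ h := h

theorem Xu.isClopen_cyl (s : ℕ → Bool) (n : ℕ) : IsClopen (Xu.cyl O s n).carrier := by
  have h : (Xu.cyl O s n).carrier = ⋂ i ∈ Finset.range n, {q : Xu V O | q.par i = s i} := by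
    ext q
    rw [Set.mem_iInter₂]
    exact ⟨fun h i hi => h i (Finset.mem_range.1 hi), fun h i hi => h i (Finset.mem_range.2 hi)⟩
  rw [h]
  have h2 : ∀ i, IsClopen {q : Xu V O | q.par i = s i} := fun i =>
    (isClopen_discrete {s i}).preimage ((continuous_apply i).comp Xu.continuous_par)
  exact ⟨isClosed_biInter fun i _ => (h2 i).1,
    (Finset.range n).finite_toSet.isOpen_biInter fun i _ => (h2 i).2⟩

open Classical in
/-- The parameter of a set. -/
def Xu.par0 (O : ℕ → Set (Conf V)) (C : Set (Conf V)) (i : ℕ) : Bool := decide (Disjoint C (O i))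

/-- A closed invariant subset is a fibre. -/
theorem Xu.exists_fibre (hV : IsOpen V) (h1 : (1 : G) ∈ V) (hO : ∀ i, IsOpen (O i))
    (hB : ∀ (D : Conf V) (W : Set (Conf V)), IsOpen W → D ∈ W → ∃ i, D ∈ O i ∧ O i ⊆ W)
    {X : Type} [TopologicalSpace X] [MulAction G X] {f : X → Conf V} (hf : IsClosedEmbedding f)
    (hfe : ∀ (g : G) x, f (g • x) = g • f x) :
    ∃ (s : ℕ → Bool) (c : X → Xu V O), IsClosedEmbedding c ∧ (∀ (g : G) x, c (g • x) = g • c x) ∧
      ⋂ n, (Xu.cyl O s n).carrier = Set.range c := by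
  classical
  have hmem : ∀ x i, Xu.par0 O (Set.range f) i = true → ∀ g : G, g • f x ∉ O i := by
    intro x i hi g h
    have h2 : Disjoint (Set.range f) (O i) := of_decide_eq_true hi
    rw [← hfe] at h
    exact Set.disjoint_left.1 h2 ⟨_, rfl⟩ h
  let c : X → Xu V O := fun x => ⟨(Xu.par0 O (Set.range f), f x), hmem x⟩
  have hce := Xu.isClosedEmbedding (O := O) hV h1 hO
  have hpr : IsClosedEmbedding fun x : X =>
      ((Xu.par0 O (Set.range f), f x) : (ℕ → Bool) × Conf V) := by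
    have h2 : IsClosedEmbedding fun D : Conf V =>
        ((Xu.par0 O (Set.range f), D) : (ℕ → Bool) × Conf V) := by
      refine IsClosedEmbedding.of_continuous_injective_isClosedMap
        (continuous_const.prodMk continuous_id) (fun D D' h => (Prod.ext_iff.1 h).2) ?_
      intro C hC
      have h3 : (fun D : Conf V => ((Xu.par0 O (Set.range f), D) : (ℕ → Bool) × Conf V)) '' C =
          {Xu.par0 O (Set.range f)} ×ˢ C := by
        ext q
        constructor
        · rintro ⟨D, hD, rfl⟩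
          exact ⟨rfl, hD⟩
        · rintro ⟨h4, h5⟩
          exact ⟨q.2, h5, Prod.ext h4.symm rfl⟩
      rw [h3]
      exact isClosed_singleton.prod hC
    exact h2.comp hf
  refine ⟨Xu.par0 O (Set.range f), c, ?_, fun g x => Xu.ext rfl (hfe g x), ?_⟩
  · exact (IsClosedEmbedding.of_comp_iff hce).1 hpr
  · ext q
    constructor
    · intro hq
      have h2 : q.par = Xu.par0 O (Set.range f) :=
        funext fun i => Set.mem_iInter.1 hq (i + 1) i (Nat.lt_succ_self i)
      have h3 : q.conf ∈ Set.range f := by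
        by_contra hn
        obtain ⟨i, hi, hiW⟩ := hB q.conf (Set.range f)ᶜ hf.isClosed_range.isOpen_compl hn
        have h4 : q.par i = true := by
          rw [h2]
          exact decide_eq_true (Set.disjoint_left.2 fun y hy hy' => hiW hy' hy)
        have h5 := q.2 i h4 1
        rw [one_smul] at h5
        exact h5 hi
      obtain ⟨x, hx⟩ := h3
      exact ⟨x, Xu.ext h2.symm hx⟩
    · rintro ⟨x, rfl⟩
      exact Set.mem_iInter.2 fun n i _ => rfl

theorem Xu.cyl_anti (s : ℕ → Bool) (n : ℕ) :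
    (Xu.cyl O s (n + 1)).carrier ⊆ (Xu.cyl O s n).carrier :=
  fun _ h i hi => h i (hi.trans (Nat.lt_succ_self n))

end

/-- A countable basis, as a sequence. -/
theorem exists_basis_seq (Y : Type) [TopologicalSpace Y] [SecondCountableTopology Y] :
    ∃ O : ℕ → Set Y, (∀ i, IsOpen (O i)) ∧
      ∀ (y : Y) (W : Set Y), IsOpen W → y ∈ W → ∃ i, y ∈ O i ∧ O i ⊆ W := by
  have hb := TopologicalSpace.isBasis_countableBasis Y
  have hc : (insert ∅ (TopologicalSpace.countableBasis Y)).Countable :=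
    (TopologicalSpace.countable_countableBasis Y).insert ∅
  obtain ⟨O, hO⟩ := hc.exists_eq_range (Set.insert_nonempty _ _)
  refine ⟨O, fun i => ?_, fun y W hW hy => ?_⟩
  · have h2 : O i ∈ insert ∅ (TopologicalSpace.countableBasis Y) := by
      rw [hO]
      exact ⟨i, rfl⟩
    rcases h2 with h2 | h2
    · rw [h2]
      exact isOpen_empty
    · exact hb.isOpen h2
  · obtain ⟨U, hU, hyU, hUW⟩ := hb.exists_subset_of_mem_open hy hW
    have h2 : U ∈ Set.range O := by
      rw [← hO]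
      exact Or.inr hU
    obtain ⟨i, rfl⟩ := h2
    exact ⟨i, hyU, hUW⟩

end Pool.Agent.Lib.MP_aa9b81_an.Tv
end
end
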