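import Pool.Agent.Lib.MP_aa9b81_an.Tv.L2

section

/-!
# Transversals, part L3: the label stage in absolute coordinates, local transport
-/

open scoped ENNReal Topology
open Function Filter Topology Set

noncomputable section

set_option linter.unusedSectionVars false

namespace Pool.Agent.Lib.MP_aa9b81_an.Tv

open Cut Hs Cb

variable {G O Y E Z : Type} [Group G] [TopologicalSpace G] [DecidableEq G] [LinearOrder O]
  [TopologicalSpace Y] [MulAction G Y] [AddCommGroup E] [Module ℝ E]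
  [TopologicalSpace E] [T2Space E] [ContinuousAdd E] [ContinuousSMul ℝ E] [DistribMulAction G E]
  [SMulCommClass G ℝ E] [ContinuousConstSMul G E] [TopologicalSpace Z] [MulAction G Z]
  {V : Set G} {Δ : Df G Y V} {Q : ConvexSpace G E}
  [IsTopologicalGroup G] [T2Space G] [LocallyCompactSpace G] [T2Space Y]
  [LocallyCompactSpace Y] [ContinuousSMul G Y] [T2Space Z] [LocallyCompactSpace Z]
  [ContinuousSMul G Z]

open Classical in
/-- The projections onto a label commute with the rotated functions of the absolute coordinates. -/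
private theorem L3_comm (hV : IsOpen V) (h1 : (1 : G) ∈ V)
    (hQ : Continuous fun p : G × Q.Pt => p.1 • p.2) (c : Y → ℝ) (q₀ : Q.Pt) (t : ℝ)
    {φ : Prs Δ × Cone Q × Z → G → ℂ} (hφ : Cc _ G φ) (b : Y × Cone Q × Z) (a a' : G) :
    ∃ C, BkOK (fun β => lab Q c q₀ b.1 β.F)
      (oe fun q => rot (aS (agl c) b.1) (gA Δ (nQ Δ Q t φ) (b.1, (q, b.2)) a a')) C := by
  have hcone : ContinuousSMul G (Cone Q) := cone_continuousSMul Q hQ
  have hQs : ContinuousSMul G Q.Pt := ⟨hQ⟩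
  obtain ⟨M, hM, hMφ⟩ := hφ.exists_bound
  have hc : ∀ q : Q.Pt, Continuous (gA Δ (nQ Δ Q t φ) (b.1, (q, b.2)) a a') := fun q =>
    continuous_gA hV h1 (Cc_nQ hφ t) _ a a'
  refine ⟨M, hM.le, fun k => ?_, fun k => ?_⟩
  · cases k with
    | none =>
      show ‖(0 : BL (Bs G))‖ ≤ M
      rw [norm_zero]
      exact hM.le
    | some q =>
      exact norm_rot_le (hc q) hM.le (fun T => norm_nQ_le hMφ t _ _) _
  · cases k with
    | none => exact Commute.zero_left _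
    | some q =>
      show Commute (rot (aS (agl c) b.1) (gA Δ (nQ Δ Q t φ) (b.1, (q, b.2)) a a'))
        (prj (fun β => lab Q c q₀ b.1 β.F) (some q))
      unfold prj
      refine rot_comm_dia (hc q) (dep_gA _ _ a a') zero_le_one
        (fun β => by split_ifs <;> simp) fun i _ => ?_
      rcases lab_site Q c q₀ b.1 i with h | h | h
      · exact Or.inl h
      · exact Or.inr (Or.inl h)
      · refine Or.inr (Or.inr fun β => ?_)
        by_cases hb : lab Q c q₀ b.1 β.F = some q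
        · rw [if_pos hb, if_pos ((h β).trans hb)]
        · rw [if_neg hb, if_neg fun h' => hb ((h β).symm.trans h')]

/-- The symbol in absolute coordinates. PROOF: `Wg_Bk` with `σ = Option.map (a⁻¹ • ·)`, `lab_smul`,
`Wg_nA` for the point `(b.1, (q, b.2))`; `Wg_mul_inv`. -/
theorem absS_nL (hV : IsOpen V) (h1 : (1 : G) ∈ V) (e : G ↪ O)
    (hQ : Continuous fun p : G × Q.Pt => p.1 • p.2) (c : Y → ℝ) (q₀ : Q.Pt) (t : ℝ)
    {φ : Prs Δ × Cone Q × Z → G → ℂ} (hφ : Cc _ G φ) (b : Y × Cone Q × Z) (a a' : G) :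
    absS e (nL Δ Q c q₀ t φ) b a a' = Bk (fun β => lab Q c q₀ b.1 β.F)
      (oe fun q => rot (aS (agl c) b.1) (gA Δ (nQ Δ Q t φ) (b.1, (q, b.2)) a a')) := by
  have hV1 : V ∈ 𝓝 (1 : G) := hV.mem_nhds h1
  obtain ⟨M, hM, hMφ⟩ := hφ.exists_bound
  obtain ⟨C', hC'⟩ := L3_comm hV h1 hQ c q₀ t hφ b a a'
  have h2 := BkOK_nL hV1 c q₀ t hφ hM.le hMφ (a⁻¹ • b) (a⁻¹ * a')
  have h3 : ∀ k : Option Q.Pt,
      Wg e a * (oe fun q => nA Δ (agl c) (nQ Δ Q t φ) ((a⁻¹ • b).1, (q, (a⁻¹ • b).2))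
        (a⁻¹ * a')) (k.map fun q => a⁻¹ • q) =
      (oe fun q => rot (aS (agl c) b.1) (gA Δ (nQ Δ Q t φ) (b.1, (q, b.2)) a a')) k *
        Wg e a := by
    intro k
    cases k with
    | none =>
      show Wg e a * (0 : BL (Bs G)) = (0 : BL (Bs G)) * Wg e a
      rw [mul_zero, zero_mul]
    | some q =>
      exact Wg_nA hV1 e (agl c) (Cc_nQ hφ t) (b.1, (q, b.2)) a a'
  have h4 : ∀ β : Bs G, lab Q c q₀ (a⁻¹ • b).1 (a⁻¹ • β).F =
      (lab Q c q₀ b.1 β.F).map fun q => a⁻¹ • q := by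
    intro β
    rw [Bs.smul_F]
    exact lab_smul Q c q₀ b.1 a⁻¹ β.F
  have h5 := Wg_Bk e a (κ := fun β => lab Q c q₀ (a⁻¹ • b).1 β.F)
    (κ' := fun β => lab Q c q₀ b.1 β.F) (fun k => k.map fun q => a⁻¹ • q) h4 h3 h2 hC'
  show Wg e a * Bk _ _ * Wg e a⁻¹ = _
  rw [h5, mul_assoc, Wg_mul_inv, mul_one]

/-- The local transport. PROOF: `LocAt_Bk` with `K = Q.Pt` (compact: `Q.compact`),
`n z q = nA Δ (agl c) (nQ Δ Q t φ) (z.1.1, (q, z.1.2)) z.2`. `hB`: `BkOK_nL`. `hloc`: `locAt_rot_unif` for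
`f z q = f2 Δ (nQ Δ Q t φ) (z.1.1, (q, z.1.2)) z.2` (`continuous_f2`, `dep_f2`, `exists_dep_f2`,
`Df.tendsto_pt_compl` with the projection to `Y`, `AAt_aS` with `continuous_agl`); the operators `N₀ q` are the
`rL univ ..`, so they commute with the projections by `rL_comm_dia` and `lab_site_near`.
`hlab`: `tendsto_lab`. `hnv`: `lab_eq_none_iff`, `nA_bv_eq_zero`, `nQ_eq_zero_of_fst`. -/
theorem LocAt_nL (hV : IsOpen V) (h1 : (1 : G) ∈ V)
    (hQ : Continuous fun p : G × Q.Pt => p.1 • p.2) (e : G ↪ O) {c : Y → ℝ} (hc : Continuous c)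
    (q₀ : Q.Pt) (t : ℝ) {φ : Prs Δ × Cone Q × Z → G → ℂ} (hφ : Cc _ G φ)
    (hF : ∀ x ∈ (FS Δ c).carrier, ∀ p g, φ (x, p) g = 0) (z₀ : (Y × Cone Q × Z) × G) :
    LocAt e (fun z : (Y × Cone Q × Z) × G => (Δ.D z.1.1).s)
      (fun z => nL Δ Q c q₀ t φ z.1 z.2) z₀ := by
  classical
  have hV1 : V ∈ 𝓝 (1 : G) := hV.mem_nhds h1
  have hcp : CompactSpace Q.Pt := isCompact_iff_compactSpace.1 Q.compact
  have hcone : ContinuousSMul G (Cone Q) := cone_continuousSMul Q hQ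
  have hQs : ContinuousSMul G Q.Pt := ⟨hQ⟩
  have hQ2 : T2Space Q.Pt := inferInstanceAs (T2Space Q.carrier)
  have hC2 : T2Space (Cone Q) := inferInstanceAs
    (T2Space {w : E × ℝ // 0 ≤ w.2 ∧ w.2 < 1 ∧ ∃ q ∈ Q.carrier, w.1 = w.2 • q})
  obtain ⟨M, hM, hMφ⟩ := hφ.exists_bound
  have hn := Cc_nQ (Δ := Δ) (Q := Q) hφ t
  have hy : Continuous fun z : (Y × Cone Q × Z) × G => z.1.1 :=
    continuous_fst.comp continuous_fst
  refine LocAt_Bk (K := Q.Pt) e
    (n := fun z q => nA Δ (agl c) (nQ Δ Q t φ) (z.1.1, (q, z.1.2)) z.2)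
    (κ := fun z β => lab Q c q₀ z.1.1 β.F) (z₀ := z₀) (C := M)
    (fun z => BkOK_nL hV1 c q₀ t hφ hM.le hMφ z.1 z.2) ?_ ?_ ?_
  · intro ε hε L₁ hL₁
    have hloc : ∀ ε : ℝ, 0 < ε → ∃ C : Set G, IsCompact C ∧ ∀ᶠ z in 𝓝 z₀, ∀ q : Q.Pt,
        Dep C ε (f2 Δ (nQ Δ Q t φ) (z.1.1, (q, z.1.2)) z.2) := by
      intro ε hε
      obtain ⟨C, hC, h⟩ := exists_dep_f2 (Δ := Δ) hV h1 hn hε
      exact ⟨C, hC, Eventually.of_forall fun z q => h _ _⟩
    have htend : ∀ (L : Finset G), (L : Set G) ⊆ (Δ.D z₀.1.1).s →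
        ∀ s : (Y × Cone Q × Z) × G → (L ↪ G), LSec (fun z => (Δ.D z.1.1).s) z₀ L s →
        ∀ (F : Finset L) (q₁ : Q.Pt), Tendsto (fun x : ((Y × Cone Q × Z) × G) × Q.Pt =>
          f2 Δ (nQ Δ Q t φ) (x.1.1.1, (x.2, x.1.1.2)) x.1.2 (ind (F.map (s x.1))))
          (𝓝 (z₀, q₁))
          (𝓝 (f2 Δ (nQ Δ Q t φ) (z₀.1.1, (q₁, z₀.1.2)) z₀.2 (ind (F.map (iL L))))) := by
      intro L hL s hs F q₁
      unfold f2
      simp only [setOf_ind]
      have h2 := Δ.tendsto_pt_compl hV1 (y := fun z : (Y × Cone Q × Z) × G => z.1.1) (z₀ := z₀)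
        hy.continuousAt hL hs F
      have h3 : Tendsto (fun x : ((Y × Cone Q × Z) × G) × Q.Pt =>
          Δ.pt x.1.1.1 ((F.map (s x.1) : Finset G) : Set G)ᶜ) (𝓝 (z₀, q₁))
          (𝓝 (Δ.pt z₀.1.1 ((F.map (iL L) : Finset G) : Set G)ᶜ)) :=
        h2.comp (continuous_fst.tendsto (z₀, q₁))
      have h4 : Tendsto (fun x : ((Y × Cone Q × Z) × G) × Q.Pt => (x.2, x.1.1.2))
          (𝓝 (z₀, q₁)) (𝓝 (q₁, z₀.1.2)) :=
        (Continuous.tendsto (continuous_snd.prodMk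
          (continuous_snd.comp (continuous_fst.comp continuous_fst))) (z₀, q₁))
      have h5 : Tendsto (fun x : ((Y × Cone Q × Z) × G) × Q.Pt => x.1.2)
          (𝓝 (z₀, q₁)) (𝓝 z₀.2) :=
        (continuous_snd.comp continuous_fst).tendsto (z₀, q₁)
      exact (hn.cont.tendsto ((Δ.pt z₀.1.1 ((F.map (iL L) : Finset G) : Set G)ᶜ,
        (q₁, z₀.1.2)), z₀.2)).comp ((h3.prodMk_nhds h4).prodMk_nhds h5)
    obtain ⟨L₀, hL₀, hL₀D, N₀, hN₀, hN⟩ := locAt_rot_unif (K := Q.Pt) hV1 e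
      (D := fun z : (Y × Cone Q × Z) × G => (Δ.D z.1.1).s)
      (ClV.continuous_iff_fell.1 (Δ.cont.comp hy)) (fun z => (Δ.D z.1.1).sep)
      (f := fun z q => f2 Δ (nQ Δ Q t φ) (z.1.1, (q, z.1.2)) z.2)
      (fun z q => continuous_f2 hV1 hn _ _) (fun z q => dep_f2 (z.1.1, (q, z.1.2)) z.2) (z₀ := z₀)
      hloc htend
      (θ := fun z => aS (agl c) z.1.1) (AAt_aS (continuous_agl hc) hy _ z₀) hε L₁ hL₁
    · refine ⟨L₀, hL₀, hL₀D, N₀, hN₀, fun s hs => ?_⟩
      obtain ⟨hN1, hN2⟩ := hN s hs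
      filter_upwards [hN2, lab_site_near Q hc q₀ hy hs.tend] with z hz1 hz2
      refine ⟨hz1, fun q l => ?_⟩
      rw [hN1 q]
      unfold prj
      have hb1 : ∀ T : L₀ → Bool, ‖f2 Δ (nQ Δ Q t φ) (z₀.1.1, (q, z₀.1.2)) z₀.2
          (push (iL L₀) T)‖ ≤ M := fun T => norm_nQ_le hMφ t _ _
      have hb2 : ∀ β : Bs L₀, ‖@ite ℂ (lab Q c q₀ z.1.1 (mp (s z) β).F = l)
          (Classical.propDecidable _) 1 0‖ ≤ 1 :=
        fun β => by split_ifs <;> simp
      have hb3 : ∀ i ∈ (Finset.univ : Finset L₀), aS (agl c) z₀.1.1 i.1 = 0 ∨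
          aS (agl c) z₀.1.1 i.1 = Real.pi / 2 ∨ ∀ β : Bs L₀,
            @ite ℂ (lab Q c q₀ z.1.1 (mp (s z) (fl i β)).F = l) (Classical.propDecidable _) 1 0 =
              @ite ℂ (lab Q c q₀ z.1.1 (mp (s z) β).F = l) (Classical.propDecidable _) 1 0 := by
        intro i _
        rcases hz2 i with h | h | h
        · exact Or.inl h
        · exact Or.inr (Or.inl h)
        · refine Or.inr (Or.inr fun β => ?_)
          by_cases hb : lab Q c q₀ z.1.1 (mp (s z) β).F = l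
          · rw [if_pos hb, if_pos ((h β).trans hb)]
          · rw [if_neg hb, if_neg fun h' => hb ((h β).symm.trans h')]
      exact rL_comm_dia_mixed hM.le hb1 zero_le_one hb2 hb3
  · intro L hL s hs β q hq U hU
    exact tendsto_lab Q hc hQ q₀ hy hs.tend β.F hq hU
  · intro q β hβ
    exact nA_bv_eq_zero hV1 hn (nQ_eq_zero_of_fst hF t) ((lab_eq_none_iff Q c q₀ _ _).1 hβ)

end Pool.Agent.Lib.MP_aa9b81_an.Tv
end
end

section

/-!
# Transversals, part L3b: the symbol of the label stage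
-/

open scoped ENNReal Topology
open Function Filter Topology Set

noncomputable section

set_option linter.unusedSectionVars false

namespace Pool.Agent.Lib.MP_aa9b81_an.Tv

open Cut Hs Cb

variable {G O Y E Z : Type} [Group G] [TopologicalSpace G] [DecidableEq G] [LinearOrder O]
  [TopologicalSpace Y] [MulAction G Y] [AddCommGroup E] [Module ℝ E]
  [TopologicalSpace E] [T2Space E] [ContinuousAdd E] [ContinuousSMul ℝ E] [DistribMulAction G E]
  [SMulCommClass G ℝ E] [ContinuousConstSMul G E] [TopologicalSpace Z] [MulAction G Z]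
  {V : Set G} {Δ : Df G Y V} {Q : ConvexSpace G E}
  [IsTopologicalGroup G] [T2Space G] [LocallyCompactSpace G] [T2Space Y]
  [LocallyCompactSpace Y] [ContinuousSMul G Y] [T2Space Z] [LocallyCompactSpace Z]
  [ContinuousSMul G Z]

/-- The commutator. PROOF: `nA_small` for the base `Y × (Q.Pt × Cone Q × Z)` and `nQ Δ Q t φ`; the
projections `prj (fun β => lab .. β.F) k` are functions of `F`, so they commute with `TT e 0 w`
(`TT_comm_dia`) and with `Lg R w D` (`Lg_eq`, `dia_comm_dia`): by `mul_Bk`, `Bk_mul_right`, `Bk_sub` the operator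
is the block operator of the `(TT x - x TT) Lg`; `norm_Bk_le`. -/
theorem nL_small (hV : IsOpen V) (h1 : (1 : G) ∈ V)
    (hQ : Continuous fun p : G × Q.Pt => p.1 • p.2) (e : G ↪ O) (W : Wc G) {c : Y → ℝ}
    (q₀ : Q.Pt) (t : ℝ) {φ : Prs Δ × Cone Q × Z → G → ℂ} (hφ : Cc _ G φ) {C : Set G}
    (hC : IsCompact C) {η : ℝ} (hη : 0 < η) :
    ∃ R : ℝ, 0 < R ∧ ∀ b, ∀ g ∈ C,
      ‖(TT e 0 W.w * nL Δ Q c q₀ t φ b g - nL Δ Q c q₀ t φ b g * TT e 0 (W.tr g)) *
        Lg R (W.tr g) (Δ.D b.1).s‖ ≤ η := by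
  classical
  have hV1 : V ∈ 𝓝 (1 : G) := hV.mem_nhds h1
  have hcone : ContinuousSMul G (Cone Q) := cone_continuousSMul Q hQ
  have hpt : ContinuousSMul G Q.Pt := ⟨hQ⟩
  have hT2 : T2Space Q.Pt := inferInstanceAs (T2Space Q.carrier)
  obtain ⟨M, hM, hMφ⟩ := hφ.exists_bound
  obtain ⟨R, hR, h2⟩ := nA_small (Δ := Δ) hV h1 e W (agl c) (Cc_nQ (Q := Q) hφ t) hC hη
  refine ⟨R, hR, fun b g hg => ?_⟩
  have hB := BkOK_nL hV1 c q₀ t hφ hM.le hMφ b g
  have hTT : ∀ (w : G → ℝ) (k : Option Q.Pt),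
      Commute (TT e 0 w) (prj (fun β : Bs G => lab Q c q₀ b.1 β.F) k) := by
    intro w k
    have h7 : ∀ F, ‖(@ite ℂ (lab Q c q₀ b.1 F = k) (Classical.propDecidable _) 1 0)‖ ≤ 1 :=
      fun F => by split_ifs <;> simp
    exact TT_comm_dia e 0 w
      (φ := fun F => @ite ℂ (lab Q c q₀ b.1 F = k) (Classical.propDecidable _) 1 0) zero_le_one h7
  have hLg : ∀ k : Option Q.Pt,
      Commute (Lg R (W.tr g) (Δ.D b.1).s) (prj (fun β : Bs G => lab Q c q₀ b.1 β.F) k) := by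
    intro k
    rw [Lg_eq]
    refine dia_comm_prj (C := 1) (fun β => ?_) _ _
    rw [Complex.norm_real, Real.norm_eq_abs]
    exact abs_lg_le _ _ _ _
  obtain ⟨h3, h3'⟩ := mul_Bk hB (hTT W.w)
  obtain ⟨h4, h4'⟩ := Bk_mul_right hB (hTT (W.tr g))
  obtain ⟨h5, h5'⟩ := Bk_sub h3 h4
  obtain ⟨h6, h6'⟩ := Bk_mul_right h5 hLg
  unfold nL
  rw [h3', h4', ← h5', h6']
  refine norm_Bk_le ⟨hη.le, fun k => ?_, h6.comm⟩
  cases k with
  | none =>
    show ‖(TT e 0 W.w * 0 - 0 * TT e 0 (W.tr g)) * Lg R (W.tr g) (Δ.D b.1).s‖ ≤ η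
    rw [mul_zero, zero_mul, sub_zero, zero_mul, norm_zero]
    exact hη.le
  | some q => exact h2 (b.1, (q, b.2)) g hg

/-- THE SYMBOL OF THE LABEL STAGE. PROOF: `norm`: `norm_Bk_le`, `BkOK_nL`. `supp`: `nL_eq_zero`.
`dec`: `Cc.exists_dec` for `Cc_nQ`: a compact `K ⊆ Y × (Q.Pt × Cone Q × Z)`; take its image under
`(y, (q, x)) ↦ (y, x)`; `nA_eq_zero_of_fibre`, `Bk_zero`. `es`, `pp`: `Bk_comm`, `nA_comm_Es`, `nA_comm_Pp`,
`dia_comm_prj` (`Es_eq_dia`; `Pp` is a `dia`). `sc`: `SC_of_LocAt`, `LocAt_nL`, as in `Cb.Sy_m2`.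
`abs`: `absS_nL` (unfold `absS`), `SC_Bk`, `SC.of_norm`, `continuous_rot_fun` for the jointly continuous family `gA`
(`continuous_gA` jointly in `(a, a')`, as in the proof of `Cb.Sy_m2`). `comm`: `comm_of`, `nL_small`. -/
theorem Sy_nL (χ : Cb.Part V) (hV : IsOpen V) (h1 : (1 : G) ∈ V)
    (hQ : Continuous fun p : G × Q.Pt => p.1 • p.2) (e : G ↪ O) (W : Wc G) {c : Y → ℝ}
    (hc : Continuous c) (q₀ : Q.Pt) (t : ℝ) {φ : Prs Δ × Cone Q × Z → G → ℂ} (hφ : Cc _ G φ)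
    (hF : ∀ x ∈ (FS Δ c).carrier, ∀ p g, φ (x, p) g = 0) :
    Sy χ e (Δ.base (Cone Q × Z)) (fun a => TT e 0 (W.tr a)) (nL Δ Q c q₀ t φ) := by
  classical
  have hV1 : V ∈ 𝓝 (1 : G) := hV.mem_nhds h1
  have hcone : ContinuousSMul G (Cone Q) := cone_continuousSMul Q hQ
  have hpt : ContinuousSMul G Q.Pt := ⟨hQ⟩
  have hT2 : T2Space Q.Pt := inferInstanceAs (T2Space Q.carrier)
  obtain ⟨M, hM, hMφ⟩ := hφ.exists_bound
  obtain ⟨C, hC, hCφ⟩ := hφ.exists_supp
  have hnQ : Cc _ G (nQ Δ Q t φ) := Cc_nQ hφ t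
  obtain ⟨K, hK, hKφ⟩ := hnQ.exists_dec
  have hB := BkOK_nL hV1 c q₀ t hφ hM.le hMφ
  refine ⟨⟨M, fun b g => norm_Bk_le (hB b g)⟩,
    ⟨C, hC, fun b g hg => nL_eq_zero c q₀ t (fun x => hCφ x g hg) b⟩,
    ⟨(fun z : Y × (Q.Pt × Cone Q × Z) => (z.1, z.2.2)) '' K, hK.image (by fun_prop),
      fun b hb g => ?_⟩, fun b g => ?_, fun b g => ?_, ?_, ?_, ?_⟩
  · -- dec
    have h2 : (oe fun q => nA Δ (agl c) (nQ Δ Q t φ) (b.1, (q, b.2)) g) =
        fun _ : Option Q.Pt => (0 : BL (Bs G)) := by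
      funext o
      cases o with
      | none => rfl
      | some q =>
        exact nA_eq_zero_of_fibre (agl c) fun T =>
          hKφ b.1 T (q, b.2) g fun h => hb ⟨(b.1, (q, b.2)), h, rfl⟩
    unfold nL
    rw [h2, Bk_zero]
  · -- es
    refine Bk_comm (hB b g) (fun k => ?_) fun k => ?_
    · show Commute (Es (Δ.D b.1).s) _
      rw [Es_eq_dia]
      exact dia_comm_prj (C := 1) (fun β => by split_ifs <;> simp) _ _
    · cases k with
      | none => exact Commute.zero_left _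
      | some q => exact nA_comm_Es hV1 (agl c) hnQ (b.1, (q, b.2)) g
  · -- pp
    refine Bk_comm (hB b g) (fun k => ?_) fun k => ?_
    · exact dia_comm_prj (h := fun β : Bs G => if Even β.S.card then (1 : ℂ) else 0) (C := 1)
        (fun β => by split_ifs <;> simp) _ _
    · cases k with
      | none => exact Commute.zero_left _
      | some q => exact nA_comm_Pp hV1 (agl c) hnQ (b.1, (q, b.2)) g
  · -- sc
    refine SC_of_LocAt χ hV1 e (Zp := (Y × Cone Q × Z) × G) (D := fun z => (Δ.D z.1.1).s)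
      (n := fun z => nL Δ Q c q₀ t φ z.1 z.2) (C := M)
      ?_ (fun z => (Δ.D z.1.1).sep) (fun z => norm_Bk_le (hB z.1 z.2))
      fun z₀ => LocAt_nL hV h1 hQ e hc q₀ t hφ hF z₀
    exact ClV.continuous_iff_fell.1 (Δ.cont.comp (continuous_fst.comp continuous_fst))
  · -- abs
    intro b
    have h2 : ∀ p : G × G, Wg e p.1 * nL Δ Q c q₀ t φ (p.1⁻¹ • b) (p.1⁻¹ * p.2) * Wg e p.1⁻¹ =
        Bk (fun β => lab Q c q₀ b.1 β.F)
          (oe fun q => rot (aS (agl c) b.1) (gA Δ (nQ Δ Q t φ) (b.1, (q, b.2)) p.1 p.2)) :=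
      fun p => absS_nL hV h1 e hQ c q₀ t hφ b p.1 p.2
    simp only [h2]
    have hMn : ∀ (q : Q.Pt) (p : G × G) (T : G → Bool),
        ‖gA Δ (nQ Δ Q t φ) (b.1, (q, b.2)) p.1 p.2 T‖ ≤ M :=
      fun q p T => norm_nQ_le hMφ t _ _
    have hcg : ∀ (q : Q.Pt) (p : G × G),
        Continuous (gA Δ (nQ Δ Q t φ) (b.1, (q, b.2)) p.1 p.2) :=
      fun q p => continuous_gA hV h1 hnQ _ _ _
    refine SC_Bk (C := M) (fun p => ⟨hM.le, fun k => ?_, fun k => ?_⟩) fun k => ?_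
    · cases k with
      | none => exact norm_zero.le.trans hM.le
      | some q => exact norm_rot_le (hcg q p) hM.le (hMn q p) _
    · cases k with
      | none => exact Commute.zero_left _
      | some q =>
        have h7 : ∀ β : Bs G, ‖(@ite ℂ (lab Q c q₀ b.1 β.F = some q) (Classical.propDecidable _) 1 0)‖
            ≤ 1 := fun β => by split_ifs <;> simp
        exact rot_comm_dia (hcg q p) (dep_gA (nQ Δ Q t φ) (b.1, (q, b.2)) p.1 p.2) zero_le_one h7
          fun i _ => (lab_site Q c q₀ b.1 i).imp id (Or.imp id fun h β => by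
            beta_reduce; rw [h β])
    · cases k with
      | none => exact ⟨fun v => continuous_const, 0, fun z => norm_zero.le⟩
      | some q =>
        have := Prs.continuousSMul Δ hV1
        have h3 : Continuous fun x : (G × G) × (G → Bool) =>
            ((x.1.1⁻¹ • ((Δ.pt b.1 {i | x.2 i = false}, (q, b.2)) :
              Prs Δ × (Q.Pt × Cone Q × Z))), x.1.1⁻¹ * x.1.2) := by
          have h4 : Continuous fun x : (G × G) × (G → Bool) => Δ.pt b.1 {i | x.2 i = false} :=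
            (Δ.continuous_pt hV1 b.1 false).comp continuous_snd
          have h5 : Continuous fun x : (G × G) × (G → Bool) => x.1.1 :=
            continuous_fst.comp continuous_fst
          have h6 : Continuous fun x : (G × G) × (G → Bool) => x.1.2 :=
            continuous_snd.comp continuous_fst
          exact (h5.inv.smul (h4.prodMk continuous_const)).prodMk (h5.inv.mul h6)
        exact SC.of_norm (C := M) (continuous_rot_fun (hnQ.cont.comp h3) _)
          fun p => norm_rot_le (hcg q p) hM.le (hMn q p) _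
  · -- comm
    exact comm_of (Δ := Δ.base (Cone Q × Z)) W e le_rfl zero_le_one (C := C)
      (fun b g hg => nL_eq_zero c q₀ t (fun x => hCφ x g hg) b)
      fun η hη => nL_small hV h1 hQ e W q₀ t hφ hC hη

end Pool.Agent.Lib.MP_aa9b81_an.Tv
end
end
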