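import Pool.Agent.Lib.MP_aa9b81_an.Mg.G048
import Pool.Agent.Lib.MP_aa9b81_an.Tv.H3a

section

/-!
# Transversals, part H3: the space `Z`, the slice of `F` over `r = 0`
-/

open Function Filter Topology

noncomputable section

namespace Pool.Agent.Lib.MP_aa9b81_an.Tv

open Cut Hs Cb

variable {G X : Type} [Group G] [TopologicalSpace G] [IsTopologicalGroup G]
  [LocallyCompactSpace G] [T2Space G] [TopologicalSpace X] [T2Space X] [MulAction G X]
  [ContinuousSMul G X] {V : Set G}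

/-- The points of `F` over `1 ∈ ℝ²`. -/
def Marks.Zm (hV : IsOpen V) (h1 : (1 : G) ∈ V) (M : Marks V X) : Type :=
  {x : (FS (M.df hV h1) cM).Pt // (FS.base (M.df hV h1) cM x).2 = 1}

namespace Marks

variable (hV : IsOpen V) (h1 : (1 : G) ∈ V) (M : Marks V X)

instance : TopologicalSpace (M.Zm hV h1) :=
  inferInstanceAs (TopologicalSpace
    {x : (FS (M.df hV h1) cM).Pt // (FS.base (M.df hV h1) cM x).2 = 1})

instance : MulAction G (M.Zm hV h1) where
  smul g z := ⟨((g, 1) : G × M2) • z.1, by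
    show (1 : M2) * (FS.base (M.df hV h1) cM z.1).2 = 1
    rw [z.2, mul_one]⟩
  one_smul z := Subtype.ext (one_smul (G × M2) z.1)
  mul_smul g h z := Subtype.ext (by
    show ((g * h, 1) : G × M2) • z.1 = ((g, 1) : G × M2) • ((h, 1) : G × M2) • z.1
    rw [smul_smul, Prod.mk_mul_mk, mul_one])

/-- The base point in `X`. -/
def pZ (z : M.Zm hV h1) : X := (FS.base (M.df hV h1) cM z.1).1

/-- The set of sites. -/
def aZ (z : M.Zm hV h1) : ClV (V2 V) := ((FS (M.df hV h1) cM).val z.1).1.2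

theorem base_eq (z : M.Zm hV h1) :
    FS.base (M.df hV h1) cM z.1 = ((M.pZ hV h1 z, 1) : XM X M2) := Prod.ext rfl z.2

theorem pZ_smul (g : G) (z : M.Zm hV h1) : M.pZ hV h1 (g • z) = g • M.pZ hV h1 z := rfl

/-- The elements of the set of sites are sites. -/
theorem aZ_site (z : M.Zm hV h1) {i : G × M2} (hi : i ∈ (M.aZ hV h1 z).s) :
    ∃ k, M.site k ((M.pZ hV h1 z, 1) : XM X M2) i := by
  have h2 : i ∈ ((M.df hV h1).D ((FS (M.df hV h1) cM).val z.1).1.1).s :=
    ((FS (M.df hV h1) cM).val z.1).2 hi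
  have h3 : ((FS (M.df hV h1) cM).val z.1).1.1 = ((M.pZ hV h1 z, 1) : XM X M2) :=
    M.base_eq hV h1 z
  rw [h3] at h2
  exact h2

/-- The conditions of `F`. -/
theorem aZ_mem (z : M.Zm hV h1) {k : ℕ} {i : G × M2}
    (hi : M.site k ((M.pZ hV h1 z, 1) : XM X M2) i)
    (h : 2 / 3 < M.m k (i.1⁻¹ • M.pZ hV h1 z)) : i ∈ (M.aZ hV h1 z).s := by
  have h3 : ((FS (M.df hV h1) cM).val z.1).1.1 = ((M.pZ hV h1 z, 1) : XM X M2) :=
    M.base_eq hV h1 z
  have h4 := ((FS (M.df hV h1) cM).val_mem z.1) i (by rw [h3]; exact ⟨k, hi⟩)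
  rw [h3, hi.cM] at h4
  exact h4.1 h

theorem aZ_not_mem (z : M.Zm hV h1) {k : ℕ} {i : G × M2}
    (hi : M.site k ((M.pZ hV h1 z, 1) : XM X M2) i)
    (h : i ∈ (M.aZ hV h1 z).s) : 1 / 3 ≤ M.m k (i.1⁻¹ • M.pZ hV h1 z) := by
  have h3 : ((FS (M.df hV h1) cM).val z.1).1.1 = ((M.pZ hV h1 z, 1) : XM X M2) :=
    M.base_eq hV h1 z
  have h4 := ((FS (M.df hV h1) cM).val_mem z.1) i (by rw [h3]; exact ⟨k, hi⟩)
  rw [h3, hi.cM] at h4
  by_contra hn
  exact h4.2 (not_le.1 hn) h

/-- A point is determined by the base point and the set of sites. -/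
theorem Zm_ext {z z' : M.Zm hV h1} (hp : M.pZ hV h1 z = M.pZ hV h1 z')
    (ha : (M.aZ hV h1 z).s = (M.aZ hV h1 z').s) : z = z' := by
  refine Subtype.ext (Subtype.ext (Subtype.ext (Prod.ext ?_ (ClV.ext ha))))
  have h3 : ((FS (M.df hV h1) cM).val z.1).1.1 = ((M.pZ hV h1 z, 1) : XM X M2) :=
    M.base_eq hV h1 z
  have h3' : ((FS (M.df hV h1) cM).val z'.1).1.1 = ((M.pZ hV h1 z', 1) : XM X M2) :=
    M.base_eq hV h1 z'
  exact h3.trans (by rw [hp]; exact h3'.symm)

theorem continuous_base {Y H : Type} [Group H] [TopologicalSpace H] [TopologicalSpace Y]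
    [MulAction H Y] {W : Set H} (Δ : Df H Y W) (c : Y → ℝ) : Continuous (FS.base Δ c) :=
  continuous_fst.comp (continuous_subtype_val.comp (FS Δ c).continuous_val)

theorem continuous_pZ : Continuous (M.pZ hV h1) :=
  continuous_fst.comp ((continuous_base (M.df hV h1) cM).comp continuous_subtype_val)

theorem continuous_aZ : Continuous (M.aZ hV h1) :=
  continuous_snd.comp (continuous_subtype_val.comp
    ((FS (M.df hV h1) cM).continuous_val.comp continuous_subtype_val))

theorem isProperMap_base {Y H : Type} [Group H] [TopologicalSpace H] [IsTopologicalGroup H]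
    [T2Space H] [LocallyCompactSpace H] [TopologicalSpace Y]
    [MulAction H Y] [ContinuousSMul H Y] {W : Set H} (hW : IsOpen W) (h1 : (1 : H) ∈ W)
    (Δ : Df H Y W) {c : Y → ℝ} (hc : Continuous c) : IsProperMap (FS.base Δ c) := by
  have h2 : IsProperMap (FS Δ c).val :=
    (IsClosed.isClosedEmbedding_subtypeVal (isClosed_FS (hW.mem_nhds h1) Δ hc)).isProperMap
  exact (Prs.isProperMap_fst Δ hW h1).comp h2

theorem isClosed_Zm : IsClosed {x : (FS (M.df hV h1) cM).Pt |
    (FS.base (M.df hV h1) cM x).2 = 1} :=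
  isClosed_eq (continuous_snd.comp (continuous_base (M.df hV h1) cM)) continuous_const

theorem isProperMap_pZ : IsProperMap (M.pZ hV h1) := by
  have h2 : IsProperMap fun z : M.Zm hV h1 => FS.base (M.df hV h1) cM z.1 :=
    (isProperMap_base (isOpen_V2 hV) (one_mem_V2 h1) (M.df hV h1) continuous_cM).comp
      (IsClosed.isClosedEmbedding_subtypeVal (M.isClosed_Zm hV h1)).isProperMap
  have h3 : Continuous fun x : X => ((x, 1) : XM X M2) := continuous_id.prodMk continuous_const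
  refine isProperMap_of_comp_of_inj (g := fun x : X => ((x, 1) : XM X M2))
    (M.continuous_pZ hV h1) h3 ?_ fun x y h => (Prod.ext_iff.1 h).1
  have h4 : (fun x : X => ((x, 1) : XM X M2)) ∘ M.pZ hV h1 =
      fun z : M.Zm hV h1 => FS.base (M.df hV h1) cM z.1 :=
    funext fun z => (M.base_eq hV h1 z).symm
  rw [h4]
  exact h2

theorem surjective_pZ : Surjective (M.pZ hV h1) := by
  intro x
  let y : XM X M2 := (x, 1)
  let q : Prs (M.df hV h1) := (M.df hV h1).pt y {i | 2 / 3 < cM (i⁻¹ • y)}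
  have hq : q ∈ (FS (M.df hV h1) cM).carrier := by
    intro i hi
    refine ⟨fun h => ⟨hi, h⟩, fun h h' => ?_⟩
    have h5 : 2 / 3 < cM (i⁻¹ • y) := h'.2
    have h6 : cM (i⁻¹ • y) < 1 / 3 := h
    linarith
  exact ⟨⟨⟨q, hq⟩, rfl⟩, rfl⟩

instance instT2Zm : T2Space (M.Zm hV h1) := by
  have := Prs.t2Space (M.df hV h1) ((isOpen_V2 hV).mem_nhds (one_mem_V2 h1))
  exact inferInstanceAs (T2Space
    {x : (FS (M.df hV h1) cM).Pt // (FS.base (M.df hV h1) cM x).2 = 1})

instance instLCZm [LocallyCompactSpace X] : LocallyCompactSpace (M.Zm hV h1) := by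
  have := Prs.t2Space (M.df hV h1) ((isOpen_V2 hV).mem_nhds (one_mem_V2 h1))
  have := Prs.locallyCompactSpace (M.df hV h1) (isOpen_V2 hV) (one_mem_V2 h1)
  have h2 : LocallyCompactSpace (FS (M.df hV h1) cM).Pt :=
    (FS (M.df hV h1) cM).locallyCompactSpace
      (isClosed_FS ((isOpen_V2 hV).mem_nhds (one_mem_V2 h1)) _ continuous_cM).isLocallyClosed
  exact (M.isClosed_Zm hV h1).isClosedEmbedding_subtypeVal.locallyCompactSpace

instance instSCZm [SecondCountableTopology G] [SecondCountableTopology X] :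
    SecondCountableTopology (M.Zm hV h1) := by
  have := secondCountable_ClV (G := G × M2) ((isOpen_V2 hV).mem_nhds (one_mem_V2 h1))
  have h2 : SecondCountableTopology (Prs (M.df hV h1)) :=
    (Prs.isClosedEmbedding (M.df hV h1)
      ((isOpen_V2 hV).mem_nhds (one_mem_V2 h1))).isInducing.secondCountableTopology
  have h3 : SecondCountableTopology (FS (M.df hV h1) cM).Pt :=
    (FS (M.df hV h1) cM).isEmbedding_val.isInducing.secondCountableTopology
  have h4 : IsEmbedding fun z : M.Zm hV h1 => z.1 := IsEmbedding.subtypeVal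
  exact h4.isInducing.secondCountableTopology

theorem continuousSMul_FS : ContinuousSMul (G × M2) (FS (M.df hV h1) cM).Pt := by
  have := Prs.continuousSMul (M.df hV h1) ((isOpen_V2 hV).mem_nhds (one_mem_V2 h1))
  infer_instance

instance instCSZm : ContinuousSMul G (M.Zm hV h1) := by
  have := M.continuousSMul_FS hV h1
  refine ⟨Continuous.subtype_mk ?_ _⟩
  have h2 : Continuous fun q : G × M.Zm hV h1 => ((q.1, 1) : G × M2) :=
    continuous_fst.prodMk continuous_const
  exact h2.smul (continuous_subtype_val.comp continuous_snd)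

theorem base_smul (k : G × M2) (x : (FS (M.df hV h1) cM).Pt) :
    FS.base (M.df hV h1) cM (k • x) = k • FS.base (M.df hV h1) cM x := rfl

/-- The homeomorphism. -/
def eZ : M.Zm hV h1 × M2 ≃ₜ (FS (M.df hV h1) cM).Pt where
  toFun q := ((1, q.2) : G × M2) • q.1.1
  invFun x := (⟨((1, (FS.base (M.df hV h1) cM x).2⁻¹) : G × M2) • x, by
    show (FS.base (M.df hV h1) cM x).2⁻¹ * (FS.base (M.df hV h1) cM x).2 = 1
    rw [inv_mul_cancel]⟩, (FS.base (M.df hV h1) cM x).2)
  left_inv q := by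
    have h2 : (FS.base (M.df hV h1) cM (((1, q.2) : G × M2) • q.1.1)).2 = q.2 := by
      show q.2 * (FS.base (M.df hV h1) cM q.1.1).2 = q.2
      rw [q.1.2, mul_one]
    refine Prod.ext (Subtype.ext ?_) h2
    show ((1, (FS.base (M.df hV h1) cM (((1, q.2) : G × M2) • q.1.1)).2⁻¹) : G × M2) •
      ((1, q.2) : G × M2) • q.1.1 = q.1.1
    rw [h2, smul_smul, Prod.mk_mul_mk, mul_one, inv_mul_cancel]
    exact one_smul _ _
  right_inv x := by
    show ((1, (FS.base (M.df hV h1) cM x).2) : G × M2) •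
      ((1, (FS.base (M.df hV h1) cM x).2⁻¹) : G × M2) • x = x
    rw [smul_smul, Prod.mk_mul_mk, mul_one, mul_inv_cancel]
    exact one_smul _ _
  continuous_toFun := by
    have := M.continuousSMul_FS hV h1
    have h2 : Continuous fun q : M.Zm hV h1 × M2 => ((1, q.2) : G × M2) :=
      continuous_const.prodMk continuous_snd
    have h3 : Continuous fun q : M.Zm hV h1 × M2 => q.1.1 :=
      continuous_subtype_val.comp continuous_fst
    exact h2.smul h3
  continuous_invFun := by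
    have := M.continuousSMul_FS hV h1
    have h2 : Continuous fun x : (FS (M.df hV h1) cM).Pt => (FS.base (M.df hV h1) cM x).2 :=
      continuous_snd.comp (continuous_base (M.df hV h1) cM)
    refine Continuous.prodMk (Continuous.subtype_mk ?_ _) h2
    have h3 : Continuous fun x : (FS (M.df hV h1) cM).Pt =>
        ((1, (FS.base (M.df hV h1) cM x).2⁻¹) : G × M2) := continuous_const.prodMk h2.inv
    exact h3.smul continuous_id

theorem slice_eZ : Slice G M2 (M.eZ hV h1) where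
  smul g m b n := by
    show ((1, m * n) : G × M2) • ((g, 1) : G × M2) • b.1 =
      ((g, m) : G × M2) • ((1, n) : G × M2) • b.1
    rw [smul_smul, smul_smul, Prod.mk_mul_mk, Prod.mk_mul_mk, one_mul, mul_one, mul_one]

theorem base_eZ (z : M.Zm hV h1) (m : M2) :
    FS.base (M.df hV h1) cM (M.eZ hV h1 (z, m)) = ((M.pZ hV h1 z, m) : XM X M2) := by
  show ((1, m) : G × M2) • FS.base (M.df hV h1) cM z.1 = ((M.pZ hV h1 z, m) : XM X M2)
  rw [M.base_eq hV h1 z]
  exact Prod.ext (one_smul G _) (mul_one m)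

end Marks

end Pool.Agent.Lib.MP_aa9b81_an.Tv
end
end

section

/-!
# Transversals, parts H4 and H5: the totally disconnected boxes of `Z`
-/

open Function Filter Topology

noncomputable section

namespace Pool.Agent.Lib.MP_aa9b81_an.Tv

open Cut Hs Cb

variable {G X : Type} [Group G] [TopologicalSpace G] [IsTopologicalGroup G]
  [LocallyCompactSpace G] [T2Space G] [TopologicalSpace X] [T2Space X] [MulAction G X]
  [ContinuousSMul G X] {V : Set G}

namespace Marks

variable (hV : IsOpen V) (h1 : (1 : G) ∈ V) (M : Marks V X) {B S : ℕ → Set X}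

theorem isBox_preimage (hM : M.Good B S) (n : ℕ) : LC.IsBox V (M.pZ hV h1 ⁻¹' S n) where
  isCompact := (M.isProperMap_pZ hV h1).isCompact_preimage (hM.cpt n)
  inj v hv v' hv' z hz z' hz' h := by
    have h2 : v • M.pZ hV h1 z = v' • M.pZ hV h1 z' := by
      rw [← M.pZ_smul hV h1, ← M.pZ_smul hV h1, h]
    have h3 := (hM.box n).inj v hv v' hv' _ (hM.sub n hz) _ (hM.sub n hz') h2
    refine ⟨h3.1, ?_⟩
    rw [← h3.1] at h
    exact smul_left_cancel v h

theorem core_preimage (hM : M.Good B S) {n : ℕ} {z : M.Zm hV h1}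
    (hz : M.pZ hV h1 z ∈ LC.core G (B n))
    (hn : ∀ᶠ y in 𝓝 (M.pZ hV h1 z), y ∈ B n → y ∈ S n) :
    z ∈ LC.core G (M.pZ hV h1 ⁻¹' S n) := by
  refine ⟨hn.self_of_nhds hz.1, fun U hU => ?_⟩
  have h2 := core_decomp hV h1 (hM.box n) hz hU hn
  filter_upwards [(M.continuous_pZ hV h1).continuousAt.eventually h2] with z' hz'
  obtain ⟨u, hu, s, hs, hsN, hus⟩ := hz'
  refine ⟨u, hu, u⁻¹ • z', ?_, smul_inv_smul u z'⟩
  show M.pZ hV h1 (u⁻¹ • z') ∈ S n
  rw [M.pZ_smul hV h1, ← hus, inv_smul_smul]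
  exact hsN hs

/-- The letter: the site of the box `k` at `1` is in the set. -/
def L (k : ℕ) (z : M.Zm hV h1) : Prop :=
  ∃ i ∈ (M.aZ hV h1 z).s, i.1 = 1 ∧ i.2.b = k

theorem index_eq {z : M.Zm hV h1} {k l : ℕ} {i : G × M2}
    (hi : M.site l ((M.pZ hV h1 z, 1) : XM X M2) i) (h : |i.2.b - k| < 1) : l = k := by
  have h2 : i.2.b = (0 : ℝ) + l := hi.2.2
  rw [h2, zero_add] at h
  by_contra hne
  have h4 : (1 : ℤ) ≤ |(l : ℤ) - (k : ℤ)| := by
    refine Int.one_le_abs (sub_ne_zero.2 ?_)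
    exact_mod_cast hne
  have h3 : (1 : ℝ) ≤ |((l : ℤ) : ℝ) - ((k : ℤ) : ℝ)| := by exact_mod_cast h4
  have h5 : |(l : ℝ) - k| = |((l : ℤ) : ℝ) - ((k : ℤ) : ℝ)| := by norm_num
  rw [h5] at h
  linarith

theorem isClosed_L (k : ℕ) : IsClosed {z : M.Zm hV h1 | M.L hV h1 k z} := by
  let K : Set (G × M2) := (fun a : ℝ => ((1, M2.mk a k) : G × M2)) '' Set.Icc 0 (Real.log 3)
  have hK : IsCompact K := isCompact_Icc.image
    (continuous_const.prodMk (M2.continuous_mk continuous_id continuous_const))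
  have h2 : {z : M.Zm hV h1 | M.L hV h1 k z} =
      (M.aZ hV h1 ⁻¹' {D : ClV (V2 V) | Disjoint K D.s})ᶜ := by
    ext z
    constructor
    · rintro ⟨i, hi, hi1, hi2⟩ hd
      obtain ⟨l, hl⟩ := M.aZ_site hV h1 z hi
      have hlk : l = k := M.index_eq hV h1 hl (by rw [hi2, sub_self, abs_zero]; norm_num)
      subst hlk
      have h3 := M.aZ_not_mem hV h1 z hl hi
      have h4 : M.m l (i.1⁻¹ • M.pZ hV h1 z) = Real.exp (0 - i.2.a) := hl.2.1
      have h5 := M.le_one l (i.1⁻¹ • M.pZ hV h1 z)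
      rw [h4] at h3 h5
      refine Set.disjoint_left.1 hd ?_ hi
      refine ⟨i.2.a, ⟨?_, ?_⟩, Prod.ext hi1.symm (M2.ext rfl hi2.symm)⟩
      · have h6 : Real.exp (0 - i.2.a) ≤ Real.exp 0 := by rw [Real.exp_zero]; exact h5
        have h7 := Real.exp_le_exp.1 h6
        linarith
      · have h6 : Real.exp (-Real.log 3) ≤ Real.exp (0 - i.2.a) := by
          rw [Real.exp_neg, Real.exp_log (by norm_num)]
          linarith
        have h7 := Real.exp_le_exp.1 h6
        linarith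
    · intro hz
      have h3 : ¬ Disjoint K (M.aZ hV h1 z).s := hz
      rw [Set.not_disjoint_iff] at h3
      obtain ⟨i, ⟨a, -, rfl⟩, hi⟩ := h3
      exact ⟨_, hi, rfl, rfl⟩
  rw [h2]
  exact ((ClV.isOpen_miss hK).preimage (M.continuous_aZ hV h1)).isClosed_compl

theorem open_L (hM : M.Good B S) {n k : ℕ} (hk : M.T k = B n) {z₀ : M.Zm hV h1}
    (h : M.L hV h1 k z₀) : ∀ᶠ z in 𝓝 z₀, M.pZ hV h1 z ∈ S n → M.L hV h1 k z := by
  obtain ⟨i, hi, hi1, hi2⟩ := h
  let N : Set (G × M2) := {j | j.1 ∈ V ∧ |j.2.b - k| < 1}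
  have hNo : IsOpen N := (hV.preimage continuous_fst).inter
    (isOpen_lt (((M2.continuous_b.comp continuous_snd).sub continuous_const).abs)
      continuous_const)
  have hiN : i ∈ N := by
    refine ⟨by rw [hi1]; exact h1, ?_⟩
    rw [hi2, sub_self, abs_zero]
    norm_num
  have hfell := ClV.continuous_iff_fell.1 (M.continuous_aZ hV h1)
  filter_upwards [hfell.lower z₀ i hi N (hNo.mem_nhds hiN)] with z hz hzS
  obtain ⟨j, hj, hjV, hjb⟩ := hz
  obtain ⟨l, hl⟩ := M.aZ_site hV h1 z hj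
  have hlk : l = k := M.index_eq hV h1 hl hjb
  subst hlk
  have h4 : j.1⁻¹ • M.pZ hV h1 z ∈ B n := by
    rw [← hk]
    exact hl.1
  have h5 : j.1 • (j.1⁻¹ • M.pZ hV h1 z) = (1 : G) • M.pZ hV h1 z := by
    rw [smul_inv_smul, one_smul]
  have h6 := (hM.box n).inj _ hjV 1 h1 _ h4 _ (hM.sub n hzS) h5
  refine ⟨j, hj, h6.1, ?_⟩
  have h7 : j.2.b = (0 : ℝ) + l := hl.2.2
  rw [h7, zero_add]

/-- On a preconnected set a closed and relatively open property is constant. -/
theorem _root_.IsPreconnected.Tv_const {Z : Type} [TopologicalSpace Z] {t C : Set Z}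
    (ht : IsPreconnected t) (hC : IsClosed C)
    (ho : ∀ z₀ ∈ t, z₀ ∈ C → ∀ᶠ z in 𝓝 z₀, z ∈ t → z ∈ C) {z z' : Z} (hz : z ∈ t) (hz' : z' ∈ t)
    (h : z ∈ C) : z' ∈ C := by
  have := isPreconnected_iff_preconnectedSpace.1 ht
  have hcl : IsClopen ((Subtype.val : t → Z) ⁻¹' C) := by
    refine ⟨hC.preimage continuous_subtype_val, isOpen_iff_mem_nhds.2 ?_⟩
    rintro ⟨y, hy⟩ hyC
    have h2 := ho y hy hyC
    have h3 := (continuous_subtype_val (p := (· ∈ t))).continuousAt (x := ⟨y, hy⟩) h2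
    filter_upwards [h3] with w hw
    exact hw w.2
  have h4 := hcl.eq_univ ⟨⟨z, hz⟩, h⟩
  have h5 : (⟨z', hz'⟩ : t) ∈ ((Subtype.val : t → Z) ⁻¹' C) := by
    rw [h4]
    exact Set.mem_univ _
  exact h5

theorem totallyDisconnected (hM : M.Good B S) (n : ℕ) :
    IsTotallyDisconnected (M.pZ hV h1 ⁻¹' S n) := by
  intro t htS ht z hz z' hz'
  -- the base points agree
  have hbase : ∀ z ∈ t, ∀ z' ∈ t, M.pZ hV h1 z = M.pZ hV h1 z' := by
    intro z hz z' hz'
    by_contra hne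
    obtain ⟨k, hk, hk1, hk0⟩ := hM.sep n _ (htS hz) _ (htS hz') hne
    have hL : M.L hV h1 k z := by
      have hs : M.site k ((M.pZ hV h1 z, 1) : XM X M2) ((1, M2.mk 0 k) : G × M2) := by
        refine ⟨?_, ?_, ?_⟩
        · show (1 : G)⁻¹ • M.pZ hV h1 z ∈ M.T k
          rw [inv_one, one_smul, hk]
          exact hM.sub n (htS hz)
        · show M.m k ((1 : G)⁻¹ • M.pZ hV h1 z) = Real.exp (0 - 0)
          rw [inv_one, one_smul, hk1, sub_self, Real.exp_zero]
        · show (k : ℝ) = 0 + k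
          rw [zero_add]
      refine ⟨_, M.aZ_mem hV h1 z hs ?_, rfl, rfl⟩
      show 2 / 3 < M.m k ((1 : G)⁻¹ • M.pZ hV h1 z)
      rw [inv_one, one_smul, hk1]
      norm_num
    have hL' : M.L hV h1 k z' := by
      refine ht.Tv_const (C := {z | M.L hV h1 k z}) (M.isClosed_L hV h1 k) ?_ hz hz' hL
      intro z₀ _ hL₀
      filter_upwards [M.open_L hV h1 hM hk hL₀] with w hw hwt
      exact hw (htS hwt)
    obtain ⟨i, hi, hi1, hi2⟩ := hL'
    obtain ⟨l, hl⟩ := M.aZ_site hV h1 z' hi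
    have hlk : l = k := M.index_eq hV h1 hl (by rw [hi2, sub_self, abs_zero]; norm_num)
    subst hlk
    have h3 : 0 < M.m l (i.1⁻¹ • M.pZ hV h1 z') := hl.pos
    rw [hi1, inv_one, one_smul, hk0] at h3
    exact lt_irrefl _ h3
  -- the sets of sites agree
  have hset : ∀ z ∈ t, ∀ z' ∈ t, (M.aZ hV h1 z).s ⊆ (M.aZ hV h1 z').s := by
    intro z hz z' hz' i hi
    have hC : IsClosed {w : M.Zm hV h1 | i ∈ (M.aZ hV h1 w).s} := by
      have h2 : {w : M.Zm hV h1 | i ∈ (M.aZ hV h1 w).s} =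
          (M.aZ hV h1 ⁻¹' {D : ClV (V2 V) | Disjoint {i} D.s})ᶜ := by
        ext w
        show i ∈ (M.aZ hV h1 w).s ↔ ¬ Disjoint {i} (M.aZ hV h1 w).s
        rw [Set.disjoint_singleton_left, not_not]
      rw [h2]
      exact ((ClV.isOpen_miss isCompact_singleton).preimage
        (M.continuous_aZ hV h1)).isClosed_compl
    refine ht.Tv_const (C := {w : M.Zm hV h1 | i ∈ (M.aZ hV h1 w).s}) hC ?_ hz hz' hi
    intro z₀ hz₀ hi₀
    let N : Set (G × M2) := {j | i⁻¹ * j ∈ V2 V}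
    have hNo : IsOpen N := (isOpen_V2 hV).preimage (continuous_const.mul continuous_id)
    have hiN : i ∈ N := by
      show i⁻¹ * i ∈ V2 V
      rw [inv_mul_cancel]
      exact one_mem_V2 h1
    have hfell := ClV.continuous_iff_fell.1 (M.continuous_aZ hV h1)
    filter_upwards [hfell.lower z₀ i hi₀ N (hNo.mem_nhds hiN)] with w hw hwt
    obtain ⟨j, hj, hjN⟩ := hw
    obtain ⟨l, hl⟩ := M.aZ_site hV h1 w hj
    obtain ⟨k, hk⟩ := M.aZ_site hV h1 z₀ hi₀
    rw [hbase z₀ hz₀ w hwt] at hk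
    have h5 := M.site_unique h1 hk hl hjN
    show i ∈ (M.aZ hV h1 w).s
    rw [h5]
    exact hj
  exact M.Zm_ext hV h1 (hbase z hz z' hz') (Set.Subset.antisymm (hset z hz z' hz')
    (hset z' hz' z hz))

theorem hasBoxes (hM : M.Good B S) :
    LC.HasBoxes V fun T : Set (M.Zm hV h1) => IsTotallyDisconnected T := by
  intro z
  obtain ⟨n, g, hg, hn⟩ := hM.cover (M.pZ hV h1 z)
  exact ⟨_, M.isBox_preimage hV h1 hM n, M.totallyDisconnected hV h1 hM n, g,
    M.core_preimage hV h1 hM (z := g • z) hg hn⟩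

end Marks

end Pool.Agent.Lib.MP_aa9b81_an.Tv
end
end
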