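import Pool.Agent.Lib.MP_aa9b81_an.Tv.F2
import Pool.Agent.Lib.MP_aa9b81_an.Tv.H1
import Pool.Agent.Lib.MP_aa9b81_an.Mg.G054

section

/-!
# Transversals, section F (Morita), part F5a: Fubini on rectangles
-/

open scoped ENNReal Topology CompactlySupported
open Function Filter MeasureTheory

noncomputable section

set_option linter.unusedSectionVars false

namespace Pool.Agent.Lib.MP_aa9b81_an.Tv

open Cut Hs Cb

variable {G M B B' : Type} [Group G] [TopologicalSpace G] [IsTopologicalGroup G]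
  [LocallyCompactSpace G] [SecondCountableTopology G] [T2Space G] [MeasurableSpace G] [BorelSpace G]
  [Group M] [TopologicalSpace M] [IsTopologicalGroup M]
  [LocallyCompactSpace M] [SecondCountableTopology M] [T2Space M] [MeasurableSpace M] [BorelSpace M]
  [TopologicalSpace B] [T2Space B] [MulAction G B] [ContinuousSMul G B]
  [TopologicalSpace B'] [T2Space B'] [MulAction (G × M) B'] [ContinuousSMul (G × M) B']

/-- Fubini on a product of four finite measures. -/
theorem F5a_fub {X Y X' Y' : Type} [MeasurableSpace X] [MeasurableSpace Y] [MeasurableSpace X'] [MeasurableSpace Y']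
    (μ : Measure X) (ν : Measure Y) (μ' : Measure X') (ν' : Measure Y') [IsFiniteMeasure μ] [IsFiniteMeasure ν]
    [IsFiniteMeasure μ'] [IsFiniteMeasure ν'] {Θ : (X × Y) × (X' × Y') → ℂ} (hΘ : StronglyMeasurable Θ)
    {N : ℝ} (hN : ∀ q, ‖Θ q‖ ≤ N) :
    ∫ p, ∫ q, Θ (p, q) ∂(μ'.prod ν') ∂(μ.prod ν) =
      ∫ a, ∫ a', ∫ u, ∫ u', Θ ((a, u), (a', u')) ∂ν' ∂ν ∂μ' ∂μ := by
  have h1 : ∀ p : X × Y, ∫ q, Θ (p, q) ∂(μ'.prod ν') = ∫ a', ∫ u', Θ (p, (a', u')) ∂ν' ∂μ' := by
    intro p
    refine integral_prod (fun q => Θ (p, q)) ?_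
    exact Integrable.of_bound (hΘ.comp_measurable measurable_prodMk_left).aestronglyMeasurable N
      (Eventually.of_forall fun q => hN _)
  have hF : StronglyMeasurable fun p : X × Y => ∫ q, Θ (p, q) ∂(μ'.prod ν') := hΘ.integral_prod_right'
  have h2 : ∫ p, ∫ q, Θ (p, q) ∂(μ'.prod ν') ∂(μ.prod ν) =
      ∫ a, ∫ u, ∫ q, Θ ((a, u), q) ∂(μ'.prod ν') ∂ν ∂μ := by
    refine integral_prod (fun p => ∫ q, Θ (p, q) ∂(μ'.prod ν')) ?_
    exact Integrable.of_bound hF.aestronglyMeasurable (N * (μ'.prod ν').real Set.univ)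
      (Eventually.of_forall fun p => norm_integral_le_of_norm_le_const (Eventually.of_forall fun q => hN _))
  rw [h2]
  refine integral_congr_ae (Eventually.of_forall fun a => ?_)
  show ∫ u, ∫ q, Θ ((a, u), q) ∂(μ'.prod ν') ∂ν = ∫ a', ∫ u, ∫ u', Θ ((a, u), (a', u')) ∂ν' ∂ν ∂μ'
  simp only [h1]
  have hm : Measurable fun q : (Y × X') × Y' => (((a, q.1.1), (q.1.2, q.2)) : (X × Y) × (X' × Y')) :=
    (measurable_const.prodMk measurable_fst.fst).prodMk (measurable_fst.snd.prodMk measurable_snd)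
  have hG : StronglyMeasurable fun q : Y × X' => ∫ u', Θ ((a, q.1), (q.2, u')) ∂ν' :=
    (hΘ.comp_measurable hm).integral_prod_right'
  refine integral_integral_swap (f := fun u a' => ∫ u', Θ ((a, u), (a', u')) ∂ν') ?_
  exact Integrable.of_bound hG.aestronglyMeasurable (N * ν'.real Set.univ)
    (Eventually.of_forall fun q => norm_integral_le_of_norm_le_const (Eventually.of_forall fun u' => hN _))

/-- Fubini for a bounded continuous function on rectangles of finite measure. PROOF: `mu_prod`, `Measure.prod_restrict`, `integral_smul_measure`, `integral_prod` (integrable: bounded, a.e. strongly measurable,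
finite measure), `integral_integral_swap` for the two middle integrals. -/
theorem fubini4 {Θ : (G × M) × (G × M) → ℂ} (hΘ : Continuous Θ) {N : ℝ} (hN : ∀ q, ‖Θ q‖ ≤ N)
    {A A' : Set G} {C C' : Set M} (hA : MeasurableSet A) (fA : mu G A ≠ ⊤)
    (hA' : MeasurableSet A') (fA' : mu G A' ≠ ⊤) (hC : MeasurableSet C) (fC : mu M C ≠ ⊤)
    (hC' : MeasurableSet C') (fC' : mu M C' ≠ ⊤) :
    ∫ p in A' ×ˢ C', ∫ q in A ×ˢ C, Θ (p, q) ∂mu (G × M) ∂mu (G × M) =
      (cc G M : ℂ) ^ 2 * ∫ a in A', ∫ a' in A, ∫ u in C', ∫ u' in C, Θ ((a, u), (a', u'))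
        ∂mu M ∂mu M ∂mu G ∂mu G := by
  have c0 : 0 ≤ cc G M := (cc_pos G M).le
  have i1 : Fact (mu G A < ⊤) := ⟨lt_top_iff_ne_top.2 fA⟩
  have i2 : Fact (mu G A' < ⊤) := ⟨lt_top_iff_ne_top.2 fA'⟩
  have i3 : Fact (mu M C < ⊤) := ⟨lt_top_iff_ne_top.2 fC⟩
  have i4 : Fact (mu M C' < ⊤) := ⟨lt_top_iff_ne_top.2 fC'⟩
  have h1 : ∀ (S : Set G) (T : Set M), (mu (G × M)).restrict (S ×ˢ T) =
      ENNReal.ofReal (cc G M) • ((mu G).restrict S).prod ((mu M).restrict T) := by
    intro S T
    rw [mu_prod, Measure.restrict_smul, Measure.prod_restrict]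
  rw [h1, h1]
  simp only [integral_smul_measure, ENNReal.toReal_ofReal c0]
  rw [integral_smul, F5a_fub ((mu G).restrict A') ((mu M).restrict C') ((mu G).restrict A) ((mu M).restrict C)
    hΘ.stronglyMeasurable hN, smul_smul, ← sq, Complex.real_smul, Complex.ofReal_pow]

end Pool.Agent.Lib.MP_aa9b81_an.Tv
end
end

section

/-!
# Transversals, part H: the main theorem of the topological part
-/

open Function Filter Topology

noncomputable section

namespace Pool.Agent.Lib.MP_aa9b81_an.Tv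

open Cut Hs Cb

/-- Marks of the boxes of `X` give a space `Z` over `X` with totally disconnected boxes, which is the slice of the
space `F` of the marked configurations. -/
theorem exists_marks {G X : Type} [Group G] [TopologicalSpace G] [IsTopologicalGroup G]
    [LocallyCompactSpace G] [SecondCountableTopology G] [T2Space G] [TopologicalSpace X]
    [T2Space X] [LocallyCompactSpace X] [SecondCountableTopology X] [MulAction G X]
    [ContinuousSMul G X] {V : Set G} (hV : IsOpen V) (h1 : (1 : G) ∈ V)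
    (hX : LC.HasBoxes V fun _ : Set X => True) :
    ∃ (V' : Set (G × M2)) (_ : IsOpen V') (_ : (1 : G × M2) ∈ V') (Δ : Df (G × M2) (XM X M2) V')
      (c : XM X M2 → ℝ) (_ : Continuous c) (Z : Type) (_ : TopologicalSpace Z)
      (_ : MulAction G Z) (p : Z → X) (e : Z × M2 ≃ₜ (FS Δ c).Pt),
      T2Space Z ∧ LocallyCompactSpace Z ∧ SecondCountableTopology Z ∧ ContinuousSMul G Z ∧
      IsProperMap p ∧ Function.Surjective p ∧ (∀ (g : G) z, p (g • z) = g • p z) ∧
      Slice G M2 e ∧ (∀ z m, FS.base Δ c (e (z, m)) = ((p z, m) : XM X M2)) ∧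
      LC.HasBoxes V fun T : Set Z => IsTotallyDisconnected T := by
  obtain ⟨M, B, S, hM⟩ := exists_marks_good hV h1 hX
  exact ⟨V2 V, isOpen_V2 hV, one_mem_V2 h1, M.df hV h1, cM, continuous_cM, M.Zm hV h1,
    inferInstance, inferInstance, M.pZ hV h1, M.eZ hV h1, inferInstance, inferInstance,
    inferInstance, inferInstance, M.isProperMap_pZ hV h1, M.surjective_pZ hV h1,
    M.pZ_smul hV h1, M.slice_eZ hV h1, M.base_eZ hV h1, M.hasBoxes hV h1 hM⟩

end Pool.Agent.Lib.MP_aa9b81_an.Tv
end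
end
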