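import Pool.Agent.Lib.MP_aa9b81_an.Mg.G024
import Pool.Agent.Lib.MP_aa9b81_an.Mg.G081

section

/-!
# Bernoulli homotopies: the machine for arbitrary groups
-/

noncomputable section

namespace Pool.Agent.Lib.MP_aa9b81_an.Cut

open scoped ENNReal Topology ZeroAtInfty
open Filter Topology Set

/-- THE MACHINE, for arbitrary countable groups. -/
theorem machine₀ {Γ I E : Type} [Group Γ] [Countable Γ] [MulAction Γ I] [Countable I]
    [AddCommGroup E] [Module ℝ E] [TopologicalSpace E] [T2Space E] [ContinuousAdd E]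
    [ContinuousSMul ℝ E] [DistribMulAction Γ E] [SMulCommClass Γ ℝ E] [ContinuousConstSMul Γ E]
    (Q : ConvexSpace Γ E) (q : I → Q.Pt) (hq : ∀ (g : Γ) i, q (g • i) = g • q i)
    {B V : Type} [TopologicalSpace B] [T2Space B] [LocallyCompactSpace B] [MulAction Γ B]
    [ContinuousConstSMul Γ B] [TopologicalSpace V] [T2Space V] [LocallyCompactSpace V]
    [MulAction Γ V] [ContinuousConstSMul Γ V]
    (th : B × Icc (0 : ℝ) 1 → I → ℝ) (hth : ∀ i, Continuous fun x => th x i)
    (hth0 : ∀ x i, 0 ≤ th x i) (hth1 : ∀ x i, th x i ≤ 1)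
    (hthg : ∀ (g : Γ) b t i, th (g • b, t) (g • i) = th (b, t) i) :
    ∃ D : Fin 2 → (Fam Γ ((B × Pow I) × Cone Q × V))ˣ → (Fam Γ (B × Cone Q × V))ˣ,
      (∀ k, ∀ u ∈ GL1 (cp Γ ((B × Pow I) × Cone Q × V)), D k u ∈ GL1 (cp Γ (B × Cone Q × V))) ∧
      (∀ k, ∀ u ∈ E1 (cp Γ ((B × Pow I) × Cone Q × V)), D k u ∈ E1 (cp Γ (B × Cone Q × V))) ∧
      (∀ k, ∀ u ∈ GL1 (cp Γ ((B × Pow I) × Cone Q × V)),
        ∀ v ∈ GL1 (cp Γ ((B × Pow I) × Cone Q × V)), D k v ∈ E1 (cp Γ (B × Cone Q × V)) →
        D k (u * v) * (D k u)⁻¹ ∈ E1 (cp Γ (B × Cone Q × V))) ∧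
      (∀ u ∈ GL1 (cp Γ ((B × Pow I) × Cone Q × V)),
        (D 0 u)⁻¹ * D 1 u ∈ E1 (cp Γ (B × Cone Q × V))) ∧
      (∀ k, ∀ u ∈ GL1 (cp Γ (B × Cone Q × V)),
        u⁻¹ * D k (pullU (Prod.map Prod.fst id) u) ∈ E1 (cp Γ (B × Cone Q × V))) ∧
      (∀ k, ∀ lam : B → I → ℝ, (∀ i, Continuous fun b => lam b i) → (∀ b i, 0 ≤ lam b i) →
        (∀ (g : Γ) b i, lam (g • b) (g • i) = lam b i) →
        (∀ b i, 0 < lam b i → th (b, endPt k) i = 0 ∨ th (b, endPt k) i = 1) →
        ∀ (O : Type) [TopologicalSpace O] [MulAction Γ O] (o : O → B × Pow I),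
        IsOpenEmbedding o → (∀ (g : Γ) x, o (g • x) = g • o x) →
        (∀ x, ∃ i, 0 < lam (o x).1 i ∧ ((o x).2 i = true ↔ th ((o x).1, endPt k) i = 0)) →
        ∀ u ∈ GL1 (cp Γ (O × Cone Q × V)),
          D k (extUnit (extF (Prod.map o id)) u) ∈ E1 (cp Γ (B × Cone Q × V))) := by
  let A : Mc.AngP Γ B I :=
    { θ := fun b t => th (b, t)
      nonneg := fun b t => hth0 (b, t)
      le_one := fun b t => hth1 (b, t)
      cont := hth
      equi := hthg }
  obtain ⟨D, h1, h2, h3, h4, h5, h6⟩ := Mc.machine (V := V) Q hq A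
  refine ⟨D, h1, h2, h3, h4, h5, ?_⟩
  intro k lam hlc hl0 hlg hlth O _ _ o ho he hO u hu
  have hT : T2Space O := ho.toIsEmbedding.t2Space
  have hL : LocallyCompactSpace O := ho.locallyCompactSpace
  have hC : ContinuousConstSMul Γ O := ⟨fun g => by
    rw [ho.toIsInducing.continuous_iff]
    have h : o ∘ (fun x => g • x) = fun x => g • o x := funext fun x => he g x
    rw [h]
    exact (continuous_const_smul g).comp ho.continuous⟩
  exact h6 k { lam := lam, nonneg := hl0, cont := hlc, equi := hlg, ext := hlth } O o ho he hO u hu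

end Pool.Agent.Lib.MP_aa9b81_an.Cut
end
end

section

/-!
# Bernoulli homotopies
-/

noncomputable section

namespace Pool.Agent.Lib.MP_aa9b81_an.Cut

open scoped ENNReal Topology ZeroAtInfty
open Filter Topology Set

/-- The constant configuration: the empty set for `false`, the whole set for `true`. -/
def Pow.cst (I : Type) (b : Bool) : Pow I := fun _ => b

section Eval

variable {Γ I E : Type} [Group Γ] [Countable Γ] [MulAction Γ I] [Countable I]
  [AddCommGroup E] [Module ℝ E] [TopologicalSpace E] [T2Space E] [ContinuousAdd E]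
  [ContinuousSMul ℝ E] [DistribMulAction Γ E] [SMulCommClass Γ ℝ E] [ContinuousConstSMul Γ E]

variable {B V : Type} [TopologicalSpace B] [T2Space B] [LocallyCompactSpace B] [MulAction Γ B]
  [ContinuousConstSMul Γ B] [TopologicalSpace V] [T2Space V] [LocallyCompactSpace V]
  [MulAction Γ V] [ContinuousConstSMul Γ V]

/-- The inclusion of `B × W` at a constant configuration. -/
def evC (I : Type) (b : Bool) {B W : Type} (x : B × W) : (B × Pow I) × W := ((x.1, Pow.cst I b), x.2)

/-- EVALUATION: the evaluations at the empty set and at the whole set agree. -/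
theorem ev_homotopy (Q : ConvexSpace Γ E) {q : I → Q.Pt} (hq : ∀ (g : Γ) i, q (g • i) = g • q i)
    {v : (Fam Γ ((B × Pow I) × Cone Q × V))ˣ} (hv : v ∈ GL1 (cp Γ ((B × Pow I) × Cone Q × V))) :
    (pullU (evC I false) v)⁻¹ * pullU (evC I true) v ∈ E1 (cp Γ (B × Cone Q × V)) := by
  have : LocallyCompactSpace (Cone Q) := cone_locallyCompact Q
  obtain ⟨D, hD1, hD2, hD3, hD4, hD5, hD6⟩ := machine₀ (B := B) (V := V) Q q hq
    (fun x _ => ((x.2 : Icc (0 : ℝ) 1) : ℝ))
    (fun i => continuous_subtype_val.comp continuous_snd) (fun x i => x.2.2.1)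
    (fun x i => x.2.2.2) (fun g b t i => rfl)
  -- the projection
  have hrp : IsProperMap (Prod.map (Prod.fst : B × Pow I → B) (id : Cone Q × V → Cone Q × V)) :=
    isProperMap_fst_of_compactSpace.prodMap isProperMap_id
  have hre : ∀ (g : Γ) x, Prod.map (Prod.fst : B × Pow I → B) (id : Cone Q × V → Cone Q × V)
      (g • x) = g • Prod.map (Prod.fst : B × Pow I → B) (id : Cone Q × V → Cone Q × V) x :=
    fun g x => rfl
  have key : ∀ b : Bool, ∃ k : Fin 2, (k = if b = true then 1 else 0) ∧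
      (pullU (evC I b) v)⁻¹ * D k v ∈ E1 (cp Γ (B × Cone Q × V)) := by
    intro b
    obtain ⟨k, hk⟩ : ∃ k : Fin 2, k = if b = true then 1 else 0 := ⟨_, rfl⟩
    refine ⟨k, hk, ?_⟩
    let c : B × Cone Q × V → (B × Pow I) × Cone Q × V := evC I b
    let r : (B × Pow I) × Cone Q × V → B × Cone Q × V := Prod.map Prod.fst id
    have hrc : ∀ x, r (c x) = x := fun x => rfl
    have hcc : Continuous c := by
      exact (continuous_fst.prodMk continuous_const).prodMk continuous_snd
    have hec : ∀ (g : Γ) x, c (g • x) = g • c x := fun g x => rfl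
    have hcl : IsClosedEmbedding c := IsClosedEmbedding.of_continuous_injective_isClosedMap hcc
      (fun x y h => by rw [← hrc x, h, hrc])
      (isProperMap_of_comp_of_t2 hcc hrp.continuous (by
        have h1 : (Prod.map Prod.fst id : (B × Pow I) × Cone Q × V → B × Cone Q × V) ∘ c = id :=
          rfl
        rw [h1]
        exact isProperMap_id)).isClosedMap
    let C : InvSet Γ (B × Pow I) :=
      { carrier := {x | ∀ i, x.2 i = b}
        inv := fun g x hx i => hx (g⁻¹ • i) }
    have hC : IsClosed C.carrier := by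
      have h2 : C.carrier = ⋂ i, {x : B × Pow I | x.2 i = b} := by
        ext x
        simp only [mem_iInter, mem_ofPred_eq]
        exact Iff.rfl
      rw [h2]
      exact isClosed_iInter fun i => (Pow.isClosed_eval i b).preimage continuous_snd
    let o : C.compl.Pt × Cone Q × V → (B × Pow I) × Cone Q × V := Prod.map C.compl.val id
    have ho : IsOpenEmbedding o := (C.isOpenEmbedding_compl hC).prodMap IsOpenEmbedding.id
    have heo : ∀ (g : Γ) x, o (g • x) = g • o x := fun g x => rfl
    have hco : range o = (range c)ᶜ := by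
      ext x
      constructor
      · rintro ⟨z, rfl⟩ ⟨y, hy⟩
        refine C.compl.val_mem z.1 ?_
        intro i
        have h1 : (c y).1 = C.compl.val z.1 := congrArg Prod.fst hy
        rw [← h1]
        rfl
      · intro hx
        have h1 : x.1 ∈ C.compl.carrier := by
          intro h2
          apply hx
          refine ⟨(x.1.1, x.2), ?_⟩
          refine Prod.ext (Prod.ext rfl ?_) rfl
          funext i
          exact (h2 i).symm
        exact ⟨(C.compl.pt x.1 h1, x.2), rfl⟩
    have hex := exactSeq_split hcl hec ho heo hco hrp hre hrc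
    obtain ⟨u, hu⟩ : ∃ u, u = pullU c v := ⟨_, rfl⟩
    have huG : u ∈ GL1 (cp Γ (B × Cone Q × V)) := by
      rw [hu]
      exact BA1_mem_GL1 hcl.isProperMap hec hv
    obtain ⟨v', hv'⟩ : ∃ v', v' = (pullU r u)⁻¹ * v := ⟨_, rfl⟩
    have hruG : pullU r u ∈ GL1 (cp Γ ((B × Pow I) × Cone Q × V)) := BA1_mem_GL1 hrp hre huG
    have hv'G : v' ∈ GL1 (cp Γ ((B × Pow I) × Cone Q × V)) := by
      rw [hv']
      exact mul_mem (inv_mem hruG) hv
    have hv'1 : pullU c v' = 1 := by
      rw [hv', map_mul, map_inv, ← hu]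
      have h1 : pullU c (pullU r u) = u := rfl
      rw [h1, inv_mul_cancel]
    obtain ⟨x, hx, hxv⟩ := hex.exists_ext hv'G hv'1
    have h1 : D k v' ∈ E1 (cp Γ (B × Cone Q × V)) := by
      rw [← hxv]
      refine hD6 k (fun _ _ => 1) (fun i => continuous_const) (fun _ _ => zero_le_one)
        (fun _ _ _ => rfl) ?_ C.compl.Pt C.compl.val (C.isOpenEmbedding_compl hC)
        (fun g x => rfl) ?_ x hx
      · intro b' i _
        rcases b with _ | _
        · left
          rw [hk]
          rfl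
        · right
          rw [hk]
          rfl
      · intro z
        have h2 : ∃ i, (C.compl.val z).2 i ≠ b := by
          by_contra hcon
          refine C.compl.val_mem z ?_
          intro i
          by_contra h3
          exact hcon ⟨i, h3⟩
        obtain ⟨i, hi⟩ := h2
        refine ⟨i, zero_lt_one, ?_⟩
        rcases b with _ | _
        · have h3 : (C.compl.val z).2 i = true := by simpa using hi
          rw [h3, hk]
          simp [endPt]
        · have h3 : (C.compl.val z).2 i = false := by simpa using hi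
          rw [h3, hk]
          simp [endPt]
    have h2 := hD3 k (pullU r u) hruG v' hv'G h1
    have h3 : u⁻¹ * D k (pullU r u) ∈ E1 (cp Γ (B × Cone Q × V)) := hD5 k u huG
    have e : pullU r u * v' = v := by
      rw [hv', mul_inv_cancel_left]
    rw [e] at h2
    change (pullU c v)⁻¹ * D k v ∈ _
    rw [← hu]
    -- `u⁻¹ * D v = (u⁻¹ * D(ru)) * ((D (ru))⁻¹ * (D v * (D (ru))⁻¹) * D(ru))`
    have hDG : D k (pullU r u) ∈ GL1 (cp Γ (B × Cone Q × V)) := hD1 k _ hruG
    have h4 := E1_conj hDG h2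
    have h5 := mul_mem h3 h4
    have e2 : u⁻¹ * D k (pullU r u) * ((D k (pullU r u))⁻¹ *
        (D k v * (D k (pullU r u))⁻¹) * D k (pullU r u)) = u⁻¹ * D k v := by group
    rwa [e2] at h5
  obtain ⟨k0, hk0, h0⟩ := key false
  obtain ⟨k1, hk1, h1⟩ := key true
  have hk0' : k0 = 0 := by rw [hk0]; rfl
  have hk1' : k1 = 1 := by rw [hk1]; rfl
  subst hk0' hk1'
  have h2 := hD4 v hv
  have h3 := mul_mem (mul_mem h0 h2) (inv_mem h1)
  have e : (pullU (evC I false) v)⁻¹ * D 0 v * ((D 0 v)⁻¹ * D 1 v) *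
      ((pullU (evC I true) v)⁻¹ * D 1 v)⁻¹ =
      (pullU (evC I false) v)⁻¹ * pullU (evC I true) v := by group
  rwa [e] at h3

/-- BERNOULLI HOMOTOPIC MAPS induce the same maps. -/
theorem homotopy_eq (Q : ConvexSpace Γ E) {q : I → Q.Pt} (hq : ∀ (g : Γ) i, q (g • i) = g • q i)
    {Y : Type} [TopologicalSpace Y] [MulAction Γ Y] {H : B × Pow I → Y} (hH : IsProperMap H)
    (hHe : ∀ (g : Γ) x, H (g • x) = g • H x) {v : (Fam Γ (Y × Cone Q × V))ˣ}
    (hv : v ∈ GL1 (cp Γ (Y × Cone Q × V))) :
    (pullU (Prod.map (fun b => H (b, Pow.cst I false)) (id : Cone Q × V → Cone Q × V)) v)⁻¹ *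
      pullU (Prod.map (fun b => H (b, Pow.cst I true)) (id : Cone Q × V → Cone Q × V)) v ∈
        E1 (cp Γ (B × Cone Q × V)) := by
  have hp : IsProperMap (Prod.map H (id : Cone Q × V → Cone Q × V)) := hH.prodMap isProperMap_id
  have he : ∀ (g : Γ) x, Prod.map H (id : Cone Q × V → Cone Q × V) (g • x) =
      g • Prod.map H (id : Cone Q × V → Cone Q × V) x := fun g x => Prod.ext (hHe g x.1) rfl
  exact ev_homotopy Q hq (BA1_mem_GL1 hp he hv)

end Eval

section Deformation

variable {Γ I E : Type} [Group Γ] [Countable Γ] [MulAction Γ I] [Countable I]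
  [AddCommGroup E] [Module ℝ E] [TopologicalSpace E] [T2Space E] [ContinuousAdd E]
  [ContinuousSMul ℝ E] [DistribMulAction Γ E] [SMulCommClass Γ ℝ E] [ContinuousConstSMul Γ E]
  (Q : ConvexSpace Γ E) {q : I → Q.Pt} (hq : ∀ (g : Γ) i, q (g • i) = g • q i)

variable {Y V : Type} [TopologicalSpace Y] [T2Space Y] [LocallyCompactSpace Y] [MulAction Γ Y]
  [ContinuousConstSMul Γ Y] [TopologicalSpace V] [T2Space V] [LocallyCompactSpace V]
  [MulAction Γ V] [ContinuousConstSMul Γ V]
  {Y₀ : InvSet Γ Y} (hY : IsClosed Y₀.carrier) {H : Y × Pow I → Y} (hH : IsProperMap H)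
  (hHe : ∀ (g : Γ) x, H (g • x) = g • H x) (h0 : ∀ y, H (y, Pow.cst I false) = y)
  (h1 : ∀ y, H (y, Pow.cst I true) ∈ Y₀.carrier) (h2 : ∀ y ∈ Y₀.carrier, H (y, Pow.cst I true) = y)

/-- The retraction. -/
def retr {Γ I Y : Type} [Group Γ] [MulAction Γ Y] {Y₀ : InvSet Γ Y} {H : Y × Pow I → Y}
    (h1 : ∀ y, H (y, Pow.cst I true) ∈ Y₀.carrier) (y : Y) : Y₀.Pt :=
  Y₀.pt (H (y, Pow.cst I true)) (h1 y)

omit [Countable Γ] [Countable I] [LocallyCompactSpace Y] [ContinuousConstSMul Γ Y] in
include hH in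
theorem isProperMap_retr : IsProperMap (retr h1) := by
  have hc : Continuous (retr h1) := by
    refine Continuous.subtype_mk ?_ _
    exact hH.continuous.comp (continuous_id.prodMk continuous_const)
  refine isProperMap_of_comp_of_t2 (g := Y₀.val) hc Y₀.continuous_val ?_
  have h3 : IsProperMap fun y : Y => ((y, Pow.cst I true) : Y × Pow I) := by
    refine isProperMap_of_comp_of_t2 (g := Prod.fst) (continuous_id.prodMk continuous_const)
      continuous_fst ?_
    exact isProperMap_id
  exact hH.comp h3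

include hHe in
omit [Countable Γ] [Countable I] [TopologicalSpace Y] [T2Space Y] [LocallyCompactSpace Y]
  [ContinuousConstSMul Γ Y] in
theorem retr_smul (g : Γ) (y : Y) : retr h1 (g • y) = g • retr h1 y := by
  apply Y₀.val_injective
  exact hHe g (y, Pow.cst I true)

include hq hY hH hHe h0 h1 h2 in
/-- BERNOULLI DEFORMATIONS, the complement. -/
theorem GL1_le_E1_deform :
    GL1 (cp Γ (Y₀.compl.Pt × Cone Q × V)) ≤ E1 (cp Γ (Y₀.compl.Pt × Cone Q × V)) := by
  have : LocallyCompactSpace (Cone Q) := cone_locallyCompact Q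
  let c : Y₀.Pt × Cone Q × V → Y × Cone Q × V := Prod.map Y₀.val id
  let o : Y₀.compl.Pt × Cone Q × V → Y × Cone Q × V := Prod.map Y₀.compl.val id
  let r : Y × Cone Q × V → Y₀.Pt × Cone Q × V := Prod.map (retr h1) id
  have hc : IsClosedEmbedding c := (Y₀.isClosedEmbedding_val hY).prodMap IsClosedEmbedding.id
  have ho : IsOpenEmbedding o := (Y₀.isOpenEmbedding_compl hY).prodMap IsOpenEmbedding.id
  have hco : range o = (range c)ᶜ := by
    change range (Prod.map Y₀.compl.val id) = (range (Prod.map Y₀.val id))ᶜ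
    rw [Set.range_prodMap, Set.range_prodMap, InvSet.range_val, InvSet.range_val, Set.range_id]
    ext ⟨x, y⟩
    simp [InvSet.compl]
  have hr : IsProperMap r := (isProperMap_retr hH h1).prodMap isProperMap_id
  have her : ∀ (g : Γ) x, r (g • x) = g • r x := fun g x =>
    Prod.ext (retr_smul hHe h1 g x.1) rfl
  have hrc : ∀ x, r (c x) = x := by
    intro x
    refine Prod.ext (Y₀.val_injective ?_) rfl
    exact h2 _ (Y₀.val_mem x.1)
  intro u hu
  refine mem_E1_of_ext_split hc (fun g x => rfl) ho (fun g x => rfl) hco hr her hrc hu ?_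
  have hU : extUnit (extF o) u ∈ GL1 (cp Γ (Y × Cone Q × V)) :=
    extUnit_mem_GL1 (extF_mem_cp ho (fun g x => rfl)) hu
  have h3 := homotopy_eq (B := Y) Q hq hH hHe hU
  have h4 : pullU (Prod.map (fun b => H (b, Pow.cst I false)) (id : Cone Q × V → Cone Q × V))
      (extUnit (extF o) u) = extUnit (extF o) u := by
    refine Units.ext (Fam.ext fun y => ?_)
    change (extUnit (extF o) u : (Fam Γ (Y × Cone Q × V))ˣ).val
      (H (y.1, Pow.cst I false), y.2) = _
    rw [h0]
  have h5 : pullU (Prod.map (fun b => H (b, Pow.cst I true)) (id : Cone Q × V → Cone Q × V))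
      (extUnit (extF o) u) = 1 := by
    refine Units.ext (Fam.ext fun y => ?_)
    change (1 + extF o ((u : Fam Γ (Y₀.compl.Pt × Cone Q × V)) - 1) : Fam Γ (Y × Cone Q × V))
      (H (y.1, Pow.cst I true), y.2) = 1
    rw [Fam.add_apply, Fam.one_apply, extF_apply_of_notMem, add_zero]
    rw [hco]
    exact fun h => h ⟨(retr h1 y.1, y.2), rfl⟩
  rw [h4, h5, mul_one] at h3
  simpa using inv_mem h3

include hq hH hHe h0 h1 h2 in
/-- BERNOULLI DEFORMATIONS, the restriction. -/
theorem isoU_deform : IsoU Γ (Prod.map Y₀.val (id : Cone Q × V → Cone Q × V)) := by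
  have : LocallyCompactSpace (Cone Q) := cone_locallyCompact Q
  let c : Y₀.Pt × Cone Q × V → Y × Cone Q × V := Prod.map Y₀.val id
  let r : Y × Cone Q × V → Y₀.Pt × Cone Q × V := Prod.map (retr h1) id
  have hr : IsProperMap r := (isProperMap_retr hH h1).prodMap isProperMap_id
  have her : ∀ (g : Γ) x, r (g • x) = g • r x := fun g x =>
    Prod.ext (retr_smul hHe h1 g x.1) rfl
  have hrc : ∀ x, r (c x) = x := by
    intro x
    refine Prod.ext (Y₀.val_injective ?_) rfl
    exact h2 _ (Y₀.val_mem x.1)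
  constructor
  · intro u hu hu'
    have h3 := homotopy_eq (B := Y) Q hq hH hHe hu
    have h4 : pullU (Prod.map (fun b => H (b, Pow.cst I false)) (id : Cone Q × V → Cone Q × V))
        u = u := by
      refine Units.ext (Fam.ext fun y => ?_)
      change (u : Fam Γ (Y × Cone Q × V)) (H (y.1, Pow.cst I false), y.2) = _
      rw [h0]
    have h5 : pullU (Prod.map (fun b => H (b, Pow.cst I true)) (id : Cone Q × V → Cone Q × V))
        u = pullU r (pullU c u) := rfl
    have h6 : pullU r (pullU c u) ∈ E1 (cp Γ (Y × Cone Q × V)) := BA1_mem_E1 hr her hu'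
    rw [h4, h5] at h3
    have h7 := mul_mem h6 (inv_mem h3)
    have e : pullU r (pullU c u) * (u⁻¹ * pullU r (pullU c u))⁻¹ = u := by group
    rwa [e] at h7
  · intro v hv
    refine ⟨pullU r v, BA1_mem_GL1 hr her hv, ?_⟩
    have h3 : pullU (Prod.map Y₀.val (id : Cone Q × V → Cone Q × V)) (pullU r v) = v := by
      refine Units.ext (Fam.ext fun x => ?_)
      change (v : Fam Γ (Y₀.Pt × Cone Q × V)) (r (c x)) = _
      rw [hrc]
    rw [h3, inv_mul_cancel]
    exact one_mem _

end Deformation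

end Pool.Agent.Lib.MP_aa9b81_an.Cut
end
end
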